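import Mathlib

/-!
# MP_f1a94e_nt: merged library part G01

Concatenation of files of the libraries `Lib_MP_f1a94e_*` (each in its own section), only to save build time.
-/

/-! ### from `Lib_MP_f1a94e_mr.Defs` -/

section

/-!
# MP_f1a94e_nt, strong theorem: definitions

Gaussian integers, directions, the set `V X` of odd primitive Gaussian integers of norm at most `X`,
sign functions, Fourier coefficients.
-/

set_option autoImplicit false

namespace Pool.Agent.GaussMR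

open Complex

/-- Gaussian integers -/
abbrev G := GaussianInt

/-- the norm as a natural number -/
def nm (z : G) : ℕ := z.norm.natAbs

/-- determinant of two Gaussian integers, the imaginary part of `star z * w` -/
def det (z w : G) : ℤ := z.re * w.im - z.im * w.re

/-- scalar product of two Gaussian integers, the real part of `star z * w` -/
def dot (z w : G) : ℤ := z.re * w.re + z.im * w.im

/-- primitive Gaussian integers: coprime coordinates -/
def Prim (z : G) : Prop := IsCoprime z.re z.im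

/-- the direction `z / |z|` -/
noncomputable def dir (z : G) : ℂ := (z : ℂ) / ((‖(z : ℂ)‖ : ℝ) : ℂ)

/-- the angular character `(z / |z|) ^ k` -/
noncomputable def xi (k : ℤ) (z : G) : ℂ := dir z ^ k

theorem nm_eq (z : G) : (nm z : ℤ) = z.re ^ 2 + z.im ^ 2 := by
  unfold nm
  rw [Int.natAbs_of_nonneg (GaussianInt.norm_nonneg z), Zsqrtd.norm_def]
  ring

theorem finite_ball (X : ℝ) : {z : G | (nm z : ℝ) ≤ X}.Finite := by
  have h : {z : G | (nm z : ℝ) ≤ X} ⊆
      (fun p : ℤ × ℤ => (⟨p.1, p.2⟩ : G)) ''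
        ((Set.Icc (-(⌈|X|⌉₊ : ℤ)) ⌈|X|⌉₊) ×ˢ (Set.Icc (-(⌈|X|⌉₊ : ℤ)) ⌈|X|⌉₊)) := by
    intro z hz
    have hz' : (nm z : ℝ) ≤ X := hz
    have h1 : (nm z : ℝ) ≤ ⌈|X|⌉₊ := hz'.trans ((le_abs_self X).trans (Nat.le_ceil _))
    have h2 : (nm z : ℤ) ≤ ⌈|X|⌉₊ := by exact_mod_cast h1
    rw [nm_eq] at h2
    set M : ℤ := (⌈|X|⌉₊ : ℤ) with hM
    refine ⟨(z.re, z.im), ?_, rfl⟩
    have a1 : -M ≤ z.re ∧ z.re ≤ M := by
      constructor <;> nlinarith [sq_nonneg z.im, sq_nonneg z.re, sq_nonneg (z.re + 1), sq_nonneg (z.re - 1)]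
    have a2 : -M ≤ z.im ∧ z.im ≤ M := by
      constructor <;> nlinarith [sq_nonneg z.im, sq_nonneg z.re, sq_nonneg (z.im + 1), sq_nonneg (z.im - 1)]
    exact ⟨⟨a1.1, a1.2⟩, ⟨a2.1, a2.2⟩⟩
  exact (((Set.finite_Icc _ _).prod (Set.finite_Icc _ _)).image _).subset h

/-- all Gaussian integers of norm at most `X` -/
noncomputable def ball (X : ℝ) : Finset G := (finite_ball X).toFinset

open Classical in
/-- the odd primitive Gaussian integers of norm at most `X` (all four associates) -/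
noncomputable def V (X : ℝ) : Finset G := (ball X).filter (fun z => Odd (nm z) ∧ Prim z)

open Classical in
/-- the odd Gaussian integers of norm at most `t` -/
noncomputable def ob (t : ℝ) : Finset G := (ball t).filter (fun z => Odd (nm z))

/-- a split prime: the norm is a rational prime `1 mod 4` -/
def Spl (w : G) : Prop := (nm w).Prime ∧ nm w % 4 = 1

/-- `exp (2 π i x)` -/
noncomputable def ee (x : ℝ) : ℂ := Complex.exp (2 * Real.pi * x * Complex.I)

/-- sign functions on the Gaussian integers of odd norm -/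
structure PM (F : G → ℝ) : Prop where
  pm : ∀ z, Odd (nm z) → F z = 1 ∨ F z = -1
  mul : ∀ z w, Odd (nm z) → Odd (nm w) → F (z * w) = F z * F w
  conj : ∀ z, Odd (nm z) → F (star z) = F z
  neg_one : F (-1) = 1

/-- unnormalised Fourier coefficient of `F` on `V X` -/
noncomputable def fc (F : G → ℝ) (X : ℝ) (k : ℤ) : ℂ := ∑ z ∈ V X, (F z : ℂ) * xi (-k) z

open Classical in
/-- adjacent pairs of odd primitive vectors of norm at most `X` with different signs -/
noncomputable def edges (F : G → ℝ) (X : ℝ) : Finset (G × G) :=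
  (V X ×ˢ V X).filter (fun e => |det e.1 e.2| = 1 ∧ F e.1 ≠ F e.2)

open Classical in
/-- one Gaussian prime `a + b i`, `0 < b < a`, above each prime `p = 1 mod 4` with `P < p ≤ Q` -/
noncomputable def PP (P Q : ℝ) : Finset G :=
  (ball Q).filter (fun w => P < (nm w : ℝ) ∧ (nm w).Prime ∧ 0 < w.im ∧ w.im < w.re)

/-- `∑ 1 / p` over the primes `p = 1 mod 4` with `P < p ≤ Q` -/
noncomputable def Ls (P Q : ℝ) : ℝ := ∑ w ∈ PP P Q, 1 / (nm w : ℝ)

/-- the number of primes of `PP P Q` dividing `z` -/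
noncomputable def om (P Q : ℝ) (z : G) : ℝ := (Set.ncard {w : G | w ∈ PP P Q ∧ w ∣ z} : ℝ)

open Classical in
/-- the block of `PP P Q` with norms in `(exp (v ρ), exp ((v + 1) ρ)]` -/
noncomputable def blk (P Q ρ : ℝ) (v : ℕ) : Finset G :=
  (PP P Q).filter (fun w => Real.exp (v * ρ) < (nm w : ℝ) ∧ (nm w : ℝ) ≤ Real.exp ((v + 1) * ρ))

/-- the prime polynomial of a block -/
noncomputable def U (F : G → ℝ) (P Q ρ : ℝ) (v : ℕ) (k : ℤ) : ℂ :=
  ∑ w ∈ blk P Q ρ v, (F w : ℂ) * xi (-k) w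

/-- number of blocks -/
noncomputable def nv (Q ρ : ℝ) : ℕ := ⌊Real.log Q / ρ⌋₊ + 1

/-- the factorised main term of a stage -/
noncomputable def UZ (F : G → ℝ) (P Q ρ X : ℝ) (k : ℤ) : ℂ :=
  ∑ v ∈ Finset.range (nv Q ρ), U F P Q ρ v k * fc F (X * Real.exp (-(v * ρ))) k

open Classical in
/-- canonical odd Gaussian primes of norm at most `y`: one of each class of associates -/
noncomputable def CP (y : ℝ) : Finset G :=
  (ball y).filter (fun w => Prime w ∧ Odd (nm w) ∧ 0 < w.re ∧ 0 ≤ w.im)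

open Classical in
/-- odd primitive almost primes: `X^(12/25) < nm u ≤ X^(13/25)`, all prime factors of norm `≥ X^a` -/
noncomputable def AA (a X : ℝ) : Finset G :=
  (V (X ^ (13 / 25 : ℝ))).filter (fun u => X ^ (12 / 25 : ℝ) < (nm u : ℝ) ∧
    ∀ p : G, Prime p → p ∣ u → X ^ a ≤ (nm p : ℝ))

/-- trigonometric polynomial on directions -/
noncomputable def Fb (S : Finset ℤ) (d : ℤ → ℂ) (z : G) : ℂ := ∑ k ∈ S, d k * xi k z

/-- frequencies up to `T` -/
noncomputable def fr (T : ℕ) : Finset ℤ := Finset.Icc (-(T : ℤ)) T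

/-- the primitive part of a Gaussian integer -/
def pr (z : G) : G := ⟨z.re / Int.gcd z.re z.im, z.im / Int.gcd z.re z.im⟩

/-- natural numbers all of whose prime factors are `1 mod 4` -/
def N1 (n : ℕ) : Prop := n ≠ 0 ∧ ∀ p : ℕ, p.Prime → p ∣ n → p % 4 = 1

/-- number of ways to write `m ^ 2 + 1 = d d'` with `d, d' ≤ X` -/
noncomputable def tx (X : ℝ) (m : ℕ) : ℕ :=
  Set.ncard {d : ℕ | d ∣ m ^ 2 + 1 ∧ (d : ℝ) ≤ X ∧ ((m ^ 2 + 1 : ℕ) : ℝ) ≤ X * d}

end Pool.Agent.GaussMR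

end

/-! ### from `Lib_MP_f1a94e_mr.Basic` -/

section

/-!
# Elementary lemmas about norms, directions, characters, sign functions
-/

set_option autoImplicit false

namespace Pool.Agent.GaussMR

open Complex

theorem mem_ball {X : ℝ} {z : G} : z ∈ ball X ↔ (nm z : ℝ) ≤ X := by
  simp [ball]

theorem mem_V {X : ℝ} {z : G} : z ∈ V X ↔ (nm z : ℝ) ≤ X ∧ Odd (nm z) ∧ Prim z := by
  classical
  simp [V, mem_ball]

theorem mem_fr {T : ℕ} {k : ℤ} : k ∈ fr T ↔ -(T : ℤ) ≤ k ∧ k ≤ T := by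
  simp [fr]

theorem nm_mul (z w : G) : nm (z * w) = nm z * nm w := by
  unfold nm
  rw [Zsqrtd.norm_mul, Int.natAbs_mul]

theorem nm_star (z : G) : nm (star z) = nm z := by
  have h : (nm (star z) : ℤ) = nm z := by
    rw [nm_eq, nm_eq]
    simp
  exact_mod_cast h

theorem nm_neg (z : G) : nm (-z) = nm z := by
  have h : (nm (-z) : ℤ) = nm z := by
    rw [nm_eq, nm_eq]
    simp
  exact_mod_cast h

@[simp] theorem nm_one : nm 1 = 1 := by
  have h : (nm 1 : ℤ) = 1 := by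
    rw [nm_eq]; simp
  exact_mod_cast h

@[simp] theorem nm_zero : nm 0 = 0 := by
  have h : (nm 0 : ℤ) = 0 := by
    rw [nm_eq]; simp
  exact_mod_cast h

theorem nm_eq_zero {z : G} : nm z = 0 ↔ z = 0 := by
  constructor
  · intro h
    have h' : (nm z : ℤ) = 0 := by exact_mod_cast h
    rw [nm_eq] at h'
    have h1 : z.re = 0 := by nlinarith [sq_nonneg z.re, sq_nonneg z.im]
    have h2 : z.im = 0 := by nlinarith [sq_nonneg z.re, sq_nonneg z.im]
    apply Zsqrtd.ext <;> simp [h1, h2]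
  · rintro rfl; exact nm_zero

theorem nm_pos {z : G} (h : z ≠ 0) : 0 < nm z :=
  Nat.pos_of_ne_zero (fun h' => h (nm_eq_zero.1 h'))

theorem ne_zero_of_odd {z : G} (h : Odd (nm z)) : z ≠ 0 := by
  rintro rfl
  rw [nm_zero] at h
  exact absurd h (by decide)

theorem nm_pos_of_odd {z : G} (h : Odd (nm z)) : 0 < nm z := nm_pos (ne_zero_of_odd h)

theorem nm_eq_one_iff {z : G} : nm z = 1 ↔ IsUnit z := by
  unfold nm
  exact Zsqrtd.norm_eq_one_iff

theorem nm_dvd {z w : G} (h : z ∣ w) : nm z ∣ nm w := by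
  obtain ⟨c, rfl⟩ := h
  rw [nm_mul]
  exact dvd_mul_right _ _

theorem odd_nm_mul {z w : G} : Odd (nm (z * w)) ↔ Odd (nm z) ∧ Odd (nm w) := by
  rw [nm_mul, Nat.odd_mul]

/-- `z` has odd norm iff exactly one of its coordinates is odd -/
theorem odd_nm_iff {z : G} : Odd (nm z) ↔ Odd (z.re + z.im) := by
  rw [← Int.odd_coe_nat, nm_eq]
  constructor
  · intro h
    rcases Int.even_or_odd (z.re + z.im) with h1 | h1
    · exfalso
      have h2 : z.re ^ 2 + z.im ^ 2 = (z.re + z.im) * (z.re + z.im) - 2 * (z.re * z.im) := by ring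
      rw [h2] at h
      have h3 : Even ((z.re + z.im) * (z.re + z.im) - 2 * (z.re * z.im)) :=
        (h1.mul_right _).sub (even_two_mul _)
      exact (Int.not_odd_iff_even.2 h3) h
    · exact h1
  · intro h
    have h2 : z.re ^ 2 + z.im ^ 2 = (z.re + z.im) * (z.re + z.im) - 2 * (z.re * z.im) := by ring
    rw [h2]
    exact (h.mul h).sub_even (even_two_mul _)

theorem star_mul_eq (z w : G) : star z * w = ⟨dot z w, det z w⟩ := by
  apply Zsqrtd.ext
  · simp [dot]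
  · simp [det]; ring

theorem dot_sq_add_det_sq (z w : G) : dot z w ^ 2 + det z w ^ 2 = (nm z : ℤ) * nm w := by
  rw [nm_eq, nm_eq]
  unfold dot det
  ring

theorem det_self (z : G) : det z z = 0 := by unfold det; ring

theorem det_comm (z w : G) : det w z = -det z w := by unfold det; ring

/-! ### complex absolute value -/

theorem toComplex_eq (z : G) : (z : ℂ) = (z.re : ℂ) + (z.im : ℂ) * I := GaussianInt.toComplex_def z

theorem norm_sq_eq (z : G) : ‖(z : ℂ)‖ ^ 2 = (nm z : ℝ) := by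
  rw [← Complex.normSq_eq_norm_sq, Complex.normSq_apply]
  have h : ((nm z : ℤ) : ℝ) = ((z.re ^ 2 + z.im ^ 2 : ℤ) : ℝ) := by rw [nm_eq]
  push_cast at h
  rw [h, GaussianInt.intCast_re, GaussianInt.intCast_im]
  ring

theorem norm_eq_sqrt (z : G) : ‖(z : ℂ)‖ = Real.sqrt (nm z) := by
  rw [← norm_sq_eq, Real.sqrt_sq (norm_nonneg _)]

theorem norm_pos {z : G} (h : z ≠ 0) : 0 < ‖(z : ℂ)‖ := by
  rw [norm_eq_sqrt]
  exact Real.sqrt_pos.2 (by exact_mod_cast nm_pos h)

theorem toComplex_ne_zero {z : G} (h : z ≠ 0) : (z : ℂ) ≠ 0 := norm_pos_iff.1 (norm_pos h)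

theorem norm_dir {z : G} (h : z ≠ 0) : ‖dir z‖ = 1 := by
  unfold dir
  rw [norm_div, Complex.norm_real, norm_norm, div_self (norm_pos h).ne']

theorem dir_ne_zero {z : G} (h : z ≠ 0) : dir z ≠ 0 := by
  intro h'
  have := norm_dir h
  rw [h', norm_zero] at this
  exact zero_ne_one this

theorem dir_mul (z w : G) : dir (z * w) = dir z * dir w := by
  unfold dir
  rw [GaussianInt.toComplex_mul, norm_mul]
  push_cast
  rw [mul_div_mul_comm]

theorem dir_neg (z : G) : dir (-z) = -dir z := by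
  unfold dir
  rw [GaussianInt.toComplex_neg, norm_neg, neg_div]

theorem toComplex_star' (z : G) : ((star z : G) : ℂ) = (starRingEnd ℂ) (z : ℂ) :=
  GaussianInt.toComplex_star z

theorem dir_star (z : G) : dir (star z) = (starRingEnd ℂ) (dir z) := by
  unfold dir
  rw [toComplex_star', map_div₀, Complex.conj_ofReal, RCLike.norm_conj]

theorem conj_dir {z : G} (h : z ≠ 0) : (starRingEnd ℂ) (dir z) = (dir z)⁻¹ := by
  rw [Complex.inv_def, Complex.normSq_eq_norm_sq, norm_dir h]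
  simp

theorem xi_mul (k : ℤ) (z w : G) : xi k (z * w) = xi k z * xi k w := by
  unfold xi
  rw [dir_mul, mul_zpow]

@[simp] theorem xi_zero (z : G) : xi 0 z = 1 := by
  unfold xi
  exact zpow_zero _

theorem norm_xi (k : ℤ) {z : G} (h : z ≠ 0) : ‖xi k z‖ = 1 := by
  unfold xi
  rw [norm_zpow, norm_dir h, one_zpow]

theorem xi_ne_zero (k : ℤ) {z : G} (h : z ≠ 0) : xi k z ≠ 0 := zpow_ne_zero _ (dir_ne_zero h)

theorem xi_add (j k : ℤ) {z : G} (h : z ≠ 0) : xi (j + k) z = xi j z * xi k z := by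
  unfold xi
  exact zpow_add₀ (dir_ne_zero h) _ _

theorem xi_neg (k : ℤ) (z : G) : xi (-k) z = (xi k z)⁻¹ := by
  unfold xi
  exact zpow_neg _ _

theorem conj_xi (k : ℤ) {z : G} (h : z ≠ 0) : (starRingEnd ℂ) (xi k z) = xi (-k) z := by
  unfold xi
  rw [map_zpow₀, conj_dir h, inv_zpow, zpow_neg]

theorem star_ne_zero' {z : G} (h : z ≠ 0) : star z ≠ 0 := by
  intro h'
  apply h
  have := congrArg star h'
  simpa using this

theorem xi_star (k : ℤ) {z : G} (h : z ≠ 0) : xi k (star z) = xi (-k) z := by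
  rw [← conj_xi k h]
  unfold xi
  rw [dir_star, map_zpow₀]

/-- positive integers have direction one -/
theorem dir_natCast {n : ℕ} (h : 0 < n) : dir (n : G) = 1 := by
  unfold dir
  have h1 : (((n : G) : G) : ℂ) = (n : ℂ) := by simp
  rw [h1]
  have h2 : ‖(n : ℂ)‖ = n := by simp
  rw [h2]
  push_cast
  exact div_self (by exact_mod_cast h.ne')

theorem xi_natCast_mul (k : ℤ) {n : ℕ} (h : 0 < n) (z : G) : xi k ((n : G) * z) = xi k z := by
  rw [xi_mul]
  unfold xi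
  rw [dir_natCast h, one_zpow, one_mul]

/-! ### primitive -/

theorem prim_star {z : G} : Prim (star z) ↔ Prim z := by
  unfold Prim
  rw [Zsqrtd.re_star, Zsqrtd.im_star, IsCoprime.neg_right_iff]

theorem prim_neg {z : G} : Prim (-z) ↔ Prim z := by
  unfold Prim
  simp [IsCoprime.neg_neg_iff]

theorem prim_one : Prim 1 := by
  unfold Prim
  exact isCoprime_one_left

theorem mem_V_star {X : ℝ} {z : G} : star z ∈ V X ↔ z ∈ V X := by
  rw [mem_V, mem_V, nm_star, prim_star]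

theorem mem_V_neg {X : ℝ} {z : G} : -z ∈ V X ↔ z ∈ V X := by
  rw [mem_V, mem_V, nm_neg, prim_neg]

theorem V_ne_zero {X : ℝ} {z : G} (h : z ∈ V X) : z ≠ 0 := ne_zero_of_odd (mem_V.1 h).2.1

/-- a primitive Gaussian integer is not divisible by a natural number `> 1` -/
theorem prim_iff {z : G} : Prim z ↔ ∀ n : ℕ, (n : G) ∣ z → n = 1 := by
  have key : ∀ n : ℕ, (n : G) ∣ z ↔ (n : ℤ) ∣ z.re ∧ (n : ℤ) ∣ z.im := by
    intro n
    have := Zsqrtd.intCast_dvd (d := -1) (n : ℤ) z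
    simpa using this
  unfold Prim
  rw [Int.isCoprime_iff_gcd_eq_one]
  constructor
  · intro h n hn
    rw [key] at hn
    have h1 : (n : ℤ) ∣ (Int.gcd z.re z.im : ℤ) := Int.dvd_coe_gcd hn.1 hn.2
    rw [h] at h1
    exact Nat.dvd_one.1 (by exact_mod_cast h1)
  · intro h
    apply h
    rw [key]
    exact ⟨Int.gcd_dvd_left _ _, Int.gcd_dvd_right _ _⟩

theorem prim_of_mul {z w : G} (h : Prim (z * w)) : Prim z ∧ Prim w := by
  rw [prim_iff] at h
  constructor
  · rw [prim_iff]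
    intro n hn
    exact h n (hn.mul_right _)
  · rw [prim_iff]
    intro n hn
    exact h n (hn.mul_left _)

/-! ### sign functions -/

theorem PM.neg {F : G → ℝ} (hF : PM F) {z : G} (h : Odd (nm z)) : F (-z) = F z := by
  have h1 : Odd (nm (-1 : G)) := by rw [nm_neg, nm_one]; exact odd_one
  have := hF.mul (-1) z h1 h
  rw [hF.neg_one, one_mul, neg_one_mul] at this
  exact this

theorem PM.one {F : G → ℝ} (hF : PM F) : F 1 = 1 := by
  have h1 : Odd (nm (-1 : G)) := by rw [nm_neg, nm_one]; exact odd_one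
  have := hF.mul (-1) (-1) h1 h1
  rw [hF.neg_one] at this
  simpa using this

theorem PM.sq {F : G → ℝ} (hF : PM F) {z : G} (h : Odd (nm z)) : F z ^ 2 = 1 := by
  rcases hF.pm z h with h1 | h1 <;> rw [h1] <;> norm_num

theorem PM.abs {F : G → ℝ} (hF : PM F) {z : G} (h : Odd (nm z)) : |F z| = 1 := by
  rcases hF.pm z h with h1 | h1 <;> rw [h1] <;> norm_num

theorem PM.norm {F : G → ℝ} (hF : PM F) {z : G} (h : Odd (nm z)) : ‖(F z : ℂ)‖ = 1 := by
  rw [Complex.norm_real, Real.norm_eq_abs, hF.abs h]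

theorem PM.mul_eq {F : G → ℝ} (hF : PM F) {z w : G} (hz : Odd (nm z)) (hw : Odd (nm w)) :
    F z * F w = 1 - 2 * (if F z ≠ F w then 1 else 0) := by
  rcases hF.pm z hz with h1 | h1 <;> rcases hF.pm w hw with h2 | h2 <;> rw [h1, h2] <;> norm_num

end Pool.Agent.GaussMR

end

/-! ### from `Lib_MP_f1a94e_aq.Defs` -/

section

/-!
# MP_f1a94e_nt, all moduli: definitions

Pairs `(m, d)` with `m` even and `d ∣ m ^ 2 + 1`, kernels, Farey edges in congruence classes.
-/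

set_option autoImplicit false

namespace Pool.Agent.OmAll

open Finset Pool.Agent.GaussMR

/-- the pairs `(m, d)`, `1 ≤ m ≤ x` even, `d ∣ m ^ 2 + 1` -/
noncomputable def pd (x : ℝ) : Finset (ℕ × ℕ) :=
  (Icc 1 ⌊x⌋₊ ×ˢ Icc 1 (⌊x⌋₊ ^ 2 + 1)).filter (fun r => Even r.1 ∧ r.2 ∣ r.1 ^ 2 + 1)

theorem mem_pd {x : ℝ} {r : ℕ × ℕ} :
    r ∈ pd x ↔ 1 ≤ r.1 ∧ (r.1 : ℝ) ≤ x ∧ Even r.1 ∧ r.2 ∣ r.1 ^ 2 + 1 := by
  unfold pd
  rw [mem_filter, mem_product, mem_Icc, mem_Icc]
  constructor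
  · rintro ⟨⟨⟨h1, h2⟩, h3, h4⟩, h5, h6⟩
    exact ⟨h1, (Nat.le_floor_iff' (by omega)).1 h2, h5, h6⟩
  · rintro ⟨h1, h2, h3, h4⟩
    have h5 : r.1 ≤ ⌊x⌋₊ := (Nat.le_floor_iff' (by omega)).2 h2
    refine ⟨⟨⟨h1, h5⟩, Nat.pos_of_dvd_of_pos h4 (by positivity), ?_⟩, h3, h4⟩
    calc r.2 ≤ r.1 ^ 2 + 1 := Nat.le_of_dvd (by positivity) h4
      _ ≤ _ := Nat.add_le_add_right (Nat.pow_le_pow_left h5 2) 1

/-- `log (e / d)` for the factorisation `m ^ 2 + 1 = d e` -/
noncomputable def tt (r : ℕ × ℕ) : ℝ := Real.log ((r.1 : ℝ) ^ 2 + 1) - 2 * Real.log r.2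

/-- the kernel `K_a (t) = a (sin (a t / 2) / (a t / 2)) ^ 2` -/
noncomputable def Kf (a t : ℝ) : ℝ := a * Real.sinc (a * t / 2) ^ 2

/-- difference of two kernels -/
noncomputable def Hf (a b t : ℝ) : ℝ := Kf a t - Kf b t

/-- Fourier transform of the difference of two kernels -/
noncomputable def hh (a b τ : ℝ) : ℝ := max (1 - |τ| / a) 0 - max (1 - |τ| / b) 0

/-- the primes `1 mod 4` up to `T` -/
def PT (T : ℕ) : Finset ℕ := (range (T + 1)).filter (fun p => p.Prime ∧ p % 4 = 1)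

/-- density of the edges `(V, V')` with `p ∣ |V| ^ 2` and `|V| ^ 2 |V'| ^ 2` not divisible by `p ^ 2` -/
noncomputable def Ap (p : ℕ) : ℝ := 2 * ((p : ℝ) - 1) ^ 2 / ((p : ℝ) ^ 2 * (p + 1))

/-- the mean of the number of prime factors `p ≤ T`, `p ^ 2 ∤ n`, of `n = m ^ 2 + 1` over pairs -/
noncomputable def muT (T : ℕ) : ℝ := ∑ p ∈ PT T, 2 * Ap p

/-- pairs of coprime squarefree products of primes of `PT T` -/
def GG (T : ℕ) : Finset (ℕ × ℕ) :=
  ((∏ p ∈ PT T, p).divisors ×ˢ (∏ p ∈ PT T, p).divisors).filter (fun g => g.1.Coprime g.2)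

/-- `g ∣ d`, `g' ∣ (m ^ 2 + 1) / d` and no prime of `g g'` divides `m ^ 2 + 1` twice -/
def Cd (g : ℕ × ℕ) (r : ℕ × ℕ) : Prop :=
  g.1 ∣ r.2 ∧ g.2 ∣ (r.1 ^ 2 + 1) / r.2 ∧ ∀ p ∈ (g.1 * g.2).primeFactors, ¬ p ^ 2 ∣ r.1 ^ 2 + 1

open Classical in
/-- the primes `p ≤ T` dividing `m ^ 2 + 1` exactly once -/
noncomputable def ps (T m : ℕ) : Finset ℕ :=
  ((m ^ 2 + 1).primeFactors).filter (fun p => p ≤ T ∧ ¬ p ^ 2 ∣ m ^ 2 + 1)

/-- the product of the primes `p ≤ T` dividing `m ^ 2 + 1` exactly once -/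
noncomputable def sT (T m : ℕ) : ℕ := ∏ p ∈ ps T m, p

/-- congruence of Gaussian integers modulo `M` -/
def cg (M : ℕ) (u v : G) : Prop := (M : ℤ) ∣ u.re - v.re ∧ (M : ℤ) ∣ u.im - v.im

/-- Farey edges `(V, V')` in a congruence class, `m = V . V' ≤ x`, `e ^ s ≤ |V'|^2 / |V|^2 < e ^ t` -/
def NE (M : ℕ) (γ : G × G) (s t x : ℝ) : Set (G × G) :=
  {e | det e.1 e.2 = 1 ∧ 0 < dot e.1 e.2 ∧ ((dot e.1 e.2 : ℤ) : ℝ) ≤ x ∧
    Real.exp s * (nm e.1 : ℝ) ≤ (nm e.2 : ℝ) ∧ (nm e.2 : ℝ) < Real.exp t * (nm e.1 : ℝ) ∧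
    cg M e.1 γ.1 ∧ cg M e.2 γ.2}

/-- coprime pairs of positive integers in a congruence class, `r r' ≤ Y`, `e ^ s ≤ (r' / r) ^ 2 < e ^ t` -/
def cop (M : ℕ) (b b' : ℤ) (s t Y : ℝ) : Set (ℤ × ℤ) :=
  {r | 0 < r.1 ∧ 0 < r.2 ∧ IsCoprime r.1 r.2 ∧ (M : ℤ) ∣ r.1 - b ∧ (M : ℤ) ∣ r.2 - b' ∧
    ((r.1 * r.2 : ℤ) : ℝ) ≤ Y ∧ Real.exp s * (r.1 : ℝ) ^ 2 ≤ (r.2 : ℝ) ^ 2 ∧
    (r.2 : ℝ) ^ 2 < Real.exp t * (r.1 : ℝ) ^ 2}

/-- `c` is the density constant for coprime pairs modulo `M` -/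
def CopC (M : ℕ) (c : ℝ) : Prop := ∀ b b' : ℤ, Int.gcd (Int.gcd b b') M = 1 → ∀ s t : ℝ, s ≤ t →
  Filter.Tendsto (fun Y : ℝ => ((cop M b b' s t Y).ncard : ℝ) / Y) Filter.atTop (nhds (c * (t - s)))

/-- a unimodular pair in the closed first quadrant -/
def Fr (u v : G) : Prop := |det u v| = 1 ∧ 0 ≤ u.re ∧ 0 ≤ u.im ∧ 0 ≤ v.re ∧ 0 ≤ v.im

/-- the linear functional `re + im` -/
def ll (u : G) : ℤ := u.re + u.im

/-- the arc of all `α u + β v` with `β > 0`, `S β ≤ α < (S + M) β` -/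
def arc (u v : G) (S M : ℕ) : Set G :=
  {z | ∃ α β : ℤ, z = (α : G) * u + (β : G) * v ∧ 0 < β ∧ (S : ℤ) * β ≤ α ∧ α < ((S : ℤ) + M) * β}

/-- the closed cone spanned by `u` and `v` -/
def cone (u v : G) : Set G := {z | ∃ α β : ℤ, z = (α : G) * u + (β : G) * v ∧ 0 ≤ α ∧ 0 ≤ β}

/-- the open cone spanned by `u` and `v` -/
def cone0 (u v : G) : Set G := {z | ∃ α β : ℤ, z = (α : G) * u + (β : G) * v ∧ 0 < α ∧ 0 < β}

/-- representatives of `SL2 (ℤ / M)`, as pairs of Gaussian integers with coordinates in `[0, M)` -/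
noncomputable def cls (M : ℕ) : Finset (G × G) :=
  (((((range M ×ˢ range M) ×ˢ (range M ×ˢ range M)).image
    (fun w : (ℕ × ℕ) × (ℕ × ℕ) => ((⟨(w.1.1 : ℤ), (w.1.2 : ℤ)⟩, ⟨(w.2.1 : ℤ), (w.2.2 : ℤ)⟩) : G × G))).filter
      (fun e => (M : ℤ) ∣ det e.1 e.2 - 1)) : Finset (G × G))

/-- the conditions on an edge corresponding to `Cd` and to even `m` -/
def Ce (g : ℕ × ℕ) (e : G × G) : Prop :=
  Odd (nm e.1) ∧ Odd (nm e.2) ∧ (∀ p ∈ g.1.primeFactors, p ∣ nm e.1) ∧
    (∀ p ∈ g.2.primeFactors, p ∣ nm e.2) ∧ ∀ p ∈ (g.1 * g.2).primeFactors, ¬ p ^ 2 ∣ nm e.1 * nm e.2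

/-- admissible pairs `(g, g')` -/
def Adm (g : ℕ × ℕ) : Prop :=
  Squarefree (g.1 * g.2) ∧ ∀ p ∈ (g.1 * g.2).primeFactors, p % 4 = 1

end Pool.Agent.OmAll

end

/-! ### from `Lib_MP_f1a94e_mr.SplitA` -/

section

/-!
# Piece SPLITA: split primes
-/

set_option autoImplicit false

namespace Pool.Agent.GaussMR

theorem Spl.prime {w : G} (h : Spl w) : Prime w := by
  have hp : (nm w).Prime := h.1
  have hirr : Irreducible w := by
    constructor
    · intro hu
      have := nm_eq_one_iff.2 hu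
      rw [this] at hp
      exact Nat.not_prime_one hp
    · intro a b hab
      rw [hab, nm_mul] at hp
      rcases Nat.prime_mul_iff.1 hp with ⟨_, h1⟩ | ⟨_, h1⟩
      · exact Or.inr (nm_eq_one_iff.1 h1)
      · exact Or.inl (nm_eq_one_iff.1 h1)
  exact hirr.prime

theorem Spl.odd {w : G} (h : Spl w) : Odd (nm w) := by
  rw [Nat.odd_iff]
  have := h.2
  omega

theorem spl_nm_natCast (n : ℕ) : nm (n : G) = n ^ 2 := by
  have h : (nm (n : G) : ℤ) = ((n ^ 2 : ℕ) : ℤ) := by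
    rw [nm_eq]
    simp
  exact_mod_cast h

theorem Spl.prim {w : G} (h : Spl w) : Prim w := by
  rw [prim_iff]
  intro n hn
  have h1 := nm_dvd hn
  rw [spl_nm_natCast] at h1
  rcases (Nat.dvd_prime h.1).1 h1 with h2 | h2
  · exact (Nat.pow_eq_one.1 h2).resolve_right (by norm_num)
  · exfalso
    have h3 := h.1
    rw [← h2] at h3
    exact Nat.Prime.not_prime_pow (le_refl 2) h3

theorem Spl.conj {w : G} (h : Spl w) : Spl (star w) := by
  unfold Spl at h ⊢
  rw [nm_star]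
  exact h

/-- a split prime is not associated to its conjugate -/
theorem Spl.not_dvd_star {w : G} (h : Spl w) : ¬(w ∣ star w) := by
  intro hd
  have hpp : Prime ((nm w : ℕ) : ℤ) := Nat.prime_iff_prime_int.1 h.1
  have h2 : ¬(((nm w : ℕ) : ℤ) ∣ 2) := by
    intro h3
    have h4 : nm w ∣ 2 := by exact_mod_cast h3
    have h5 := Nat.le_of_dvd (by norm_num) h4
    have h6 := h.2
    have h7 := h.1.two_le
    omega
  have key : ∀ x : G, w ∣ x → ((nm w : ℕ) : ℤ) ∣ x.re ^ 2 + x.im ^ 2 := by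
    intro x hx
    rw [← nm_eq]
    exact_mod_cast nm_dvd hx
  have h3 : ((nm w : ℕ) : ℤ) ∣ w.re := by
    have h4 := key (star w + w) (dvd_add hd (dvd_refl w))
    have e1 : (star w + w).re = 2 * w.re := by
      simp
      ring
    have e2 : (star w + w).im = 0 := by simp
    rw [e1, e2] at h4
    have h5 : ((nm w : ℕ) : ℤ) ∣ (2 * w.re) ^ 2 := by simpa using h4
    exact (hpp.dvd_mul.1 (hpp.dvd_of_dvd_pow h5)).resolve_left h2
  have h3' : ((nm w : ℕ) : ℤ) ∣ w.im := by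
    have h4 := key (w - star w) (dvd_sub (dvd_refl w) hd)
    have e1 : (w - star w).re = 0 := by simp
    have e2 : (w - star w).im = 2 * w.im := by
      simp
      ring
    rw [e1, e2] at h4
    have h5 : ((nm w : ℕ) : ℤ) ∣ (2 * w.im) ^ 2 := by simpa using h4
    exact (hpp.dvd_mul.1 (hpp.dvd_of_dvd_pow h5)).resolve_left h2
  have h4 : IsCoprime w.re w.im := h.prim
  exact hpp.not_isUnit (h4.isUnit_of_dvd' h3 h3')

theorem spl_mul_star (w : G) : w * star w = ((nm w : ℕ) : G) := by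
  have h := nm_eq w
  ext
  · have e : (((nm w : ℕ) : G)).re = ((nm w : ℕ) : ℤ) := by simp
    rw [e, h]
    simp
    ring
  · simp
    ring

/-- `w z` is primitive iff `star w` does not divide the primitive `z`: if a prime number `q` divides
`w z` then `q ∤ z`; `q ≠ nm w` is impossible (multiply by `star w`), and for `q = nm w = w * star w`
the condition is `star w ∣ z`. -/
theorem prim_mul_iff {w z : G} (h : Spl w) (hz : Prim z) : Prim (w * z) ↔ ¬(star w ∣ z) := by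
  have hw0 : w ≠ 0 := h.prime.ne_zero
  constructor
  · rintro h1 ⟨u, rfl⟩
    have h2 := prim_iff.1 h1 (nm w) ⟨u, by rw [← spl_mul_star]; ring⟩
    have h3 := h.1
    rw [h2] at h3
    exact Nat.not_prime_one h3
  · intro h1
    rw [prim_iff]
    intro n hn
    by_contra hn1
    obtain ⟨q, hq, hqn⟩ := Nat.exists_prime_and_dvd hn1
    have h2 : ((q : ℕ) : G) ∣ w * z := dvd_trans (by exact_mod_cast Nat.cast_dvd_cast hqn) hn
    by_cases hqp : q = nm w
    · rw [hqp, ← spl_mul_star] at h2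
      exact h1 ((mul_dvd_mul_iff_left hw0).1 h2)
    · have h3 : ((q : ℕ) : G) ∣ ((nm w : ℕ) : G) * z := by
        rw [← spl_mul_star]
        have : w * star w * z = star w * (w * z) := by ring
        rw [this]
        exact Dvd.dvd.mul_left h2 _
      have h4 : Nat.Coprime q (nm w) := (Nat.coprime_primes hq h.1).2 hqp
      have h5 : IsCoprime ((q : ℕ) : G) ((nm w : ℕ) : G) := by
        have h6 : IsCoprime ((q : ℕ) : ℤ) ((nm w : ℕ) : ℤ) := Nat.isCoprime_iff_coprime.2 h4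
        have h7 := h6.map (Int.castRingHom G)
        simpa using h7
      have h6 : ((q : ℕ) : G) ∣ z := h5.dvd_of_dvd_mul_left h3
      have h7 := prim_iff.1 hz q h6
      exact hq.one_lt.ne' h7

theorem Spl.coprime {w w' : G} (h : Spl w) (h' : Spl w') (hn : nm w ≠ nm w') : IsCoprime w w' := by
  rw [h.prime.irreducible.coprime_iff_not_dvd]
  intro hd
  have h1 := nm_dvd hd
  rcases (Nat.dvd_prime h'.1).1 h1 with h2 | h2
  · have h3 := h.1
    rw [h2] at h3
    exact Nat.not_prime_one h3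
  · exact hn h2

end Pool.Agent.GaussMR

end

/-! ### from `Lib_MP_f1a94e_mr.Split` -/

section

/-!
# Piece SPLITB: the canonical split primes PP
-/

set_option autoImplicit false

namespace Pool.Agent.GaussMR

theorem mem_PP {P Q : ℝ} {w : G} : w ∈ PP P Q ↔
    P < (nm w : ℝ) ∧ (nm w : ℝ) ≤ Q ∧ (nm w).Prime ∧ 0 < w.im ∧ w.im < w.re := by
  classical
  simp only [PP, Finset.mem_filter, mem_ball]
  tauto

theorem PP_spl {P Q : ℝ} {w : G} (h : w ∈ PP P Q) : Spl w := by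
  obtain ⟨_, _, hp, h1, h2⟩ := mem_PP.1 h
  refine ⟨hp, ?_⟩
  have hn : (nm w : ℤ) = w.re ^ 2 + w.im ^ 2 := nm_eq w
  have h5 : (2 : ℤ) < nm w := by
    rw [hn]
    nlinarith
  have hodd : nm w % 2 = 1 := by
    rcases hp.eq_two_or_odd with h3 | h3
    · rw [h3] at h5
      norm_num at h5
    · exact h3
  have hodd' : (nm w : ℤ) % 2 = 1 := by omega
  have key : ∀ a b : ℤ, (a ^ 2 + b ^ 2) % 2 = 1 → (a ^ 2 + b ^ 2) % 4 = 1 := by
    intro a b hab
    rcases Int.even_or_odd' a with ⟨x, rfl | rfl⟩ <;> rcases Int.even_or_odd' b with ⟨y, rfl | rfl⟩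
    · exfalso
      have : (2 * x) ^ 2 + (2 * y) ^ 2 = 2 * (2 * x ^ 2 + 2 * y ^ 2) := by ring
      omega
    · have : (2 * x) ^ 2 + (2 * y + 1) ^ 2 = 4 * (x ^ 2 + y ^ 2 + y) + 1 := by ring
      omega
    · have : (2 * x + 1) ^ 2 + (2 * y) ^ 2 = 4 * (x ^ 2 + x + y ^ 2) + 1 := by ring
      omega
    · exfalso
      have : (2 * x + 1) ^ 2 + (2 * y + 1) ^ 2 = 2 * (2 * x ^ 2 + 2 * x + 2 * y ^ 2 + 2 * y + 1) := by
        ring
      omega
  have h6 : (nm w : ℤ) % 4 = 1 := by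
    rw [hn]
    apply key
    rw [← hn]
    exact hodd'
  omega

/-- a multiple of `w` with the same norm is `± w` or `± i w` -/
theorem split_assoc {w z : G} (hd : w ∣ z) (hn : nm z = nm w) (hw : nm w ≠ 0) :
    (z.re = w.re ∧ z.im = w.im) ∨ (z.re = -w.re ∧ z.im = -w.im) ∨
      (z.re = -w.im ∧ z.im = w.re) ∨ (z.re = w.im ∧ z.im = -w.re) := by
  obtain ⟨c, rfl⟩ := hd
  have hc : nm c = 1 := by
    rw [nm_mul] at hn
    exact Nat.eq_of_mul_eq_mul_left (Nat.pos_of_ne_zero hw) (by rw [hn, mul_one])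
  have hc' : c.re ^ 2 + c.im ^ 2 = 1 := by
    rw [← nm_eq, hc]
    rfl
  have hre : (w * c).re = w.re * c.re - w.im * c.im := by
    simp
    ring
  have him : (w * c).im = w.re * c.im + w.im * c.re := by simp
  rw [hre, him]
  have h1 : -1 ≤ c.re := by nlinarith [sq_nonneg c.im]
  have h2 : c.re ≤ 1 := by nlinarith [sq_nonneg c.im]
  have h3 : -1 ≤ c.im := by nlinarith [sq_nonneg c.re]
  have h4 : c.im ≤ 1 := by nlinarith [sq_nonneg c.re]
  have h5 : c.re = -1 ∨ c.re = 0 ∨ c.re = 1 := by omega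
  have h6 : c.im = -1 ∨ c.im = 0 ∨ c.im = 1 := by omega
  rcases h5 with h5 | h5 | h5 <;> rcases h6 with h6 | h6 | h6 <;> rw [h5, h6] at hc' ⊢ <;>
    first
    | (left; constructor <;> ring1)
    | (right; left; constructor <;> ring1)
    | (right; right; left; constructor <;> ring1)
    | (right; right; right; constructor <;> ring1)
    | (exfalso; norm_num at hc')

theorem PP_not_dvd_star {P Q P' Q' : ℝ} {w w' : G} (h : w ∈ PP P Q) (h' : w' ∈ PP P' Q') :
    ¬(w ∣ star w') := by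
  intro hd
  obtain ⟨_, _, hp, h1, h2⟩ := mem_PP.1 h
  obtain ⟨_, _, hp', h1', h2'⟩ := mem_PP.1 h'
  have hn : nm (star w') = nm w := by
    have h3 := nm_dvd hd
    rw [nm_star] at h3
    rw [nm_star]
    exact ((Nat.prime_dvd_prime_iff_eq hp hp').1 h3).symm
  have h4 := split_assoc hd hn hp.ne_zero
  have hre : (star w').re = w'.re := rfl
  have him : (star w').im = -w'.im := rfl
  rw [hre, him] at h4
  omega

theorem PP_inj {P Q P' Q' : ℝ} {w w' : G} (h : w ∈ PP P Q) (h' : w' ∈ PP P' Q')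
    (hn : nm w = nm w') : w = w' := by
  obtain ⟨_, _, hp, h1, h2⟩ := mem_PP.1 h
  obtain ⟨_, _, hp', h1', h2'⟩ := mem_PP.1 h'
  have hpr : Prime w := (PP_spl h).prime
  have hdd : w ∣ w' * star w' := by
    have e1 : w * star w = w' * star w' := by
      have e2 : ∀ z : G, z * star z = ((nm z : ℤ) : G) := by
        intro z
        apply Zsqrtd.ext
        · rw [Zsqrtd.re_intCast, nm_eq]
          simp
          ring
        · rw [Zsqrtd.im_intCast]
          simp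
          ring
      rw [e2, e2, hn]
    rw [← e1]
    exact dvd_mul_right _ _
  rcases hpr.dvd_or_dvd hdd with hd | hd
  · have h4 := split_assoc hd hn.symm hp.ne_zero
    apply Zsqrtd.ext <;> omega
  · exact absurd hd (PP_not_dvd_star h h')

theorem PP_dvd {P Q P' Q' : ℝ} {w w' : G} (h : w ∈ PP P Q) (h' : w' ∈ PP P' Q')
    (hd : w ∣ w') : w = w' := by
  obtain ⟨_, _, hp, _, _⟩ := mem_PP.1 h
  obtain ⟨_, _, hp', _, _⟩ := mem_PP.1 h'
  exact PP_inj h h' ((Nat.prime_dvd_prime_iff_eq hp hp').1 (nm_dvd hd))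

/-- Fermat -/
theorem PP_exists {P Q : ℝ} {p : ℕ} (hp : p.Prime) (h1 : p % 4 = 1) (hP : P < (p : ℝ))
    (hQ : (p : ℝ) ≤ Q) : ∃ w ∈ PP P Q, nm w = p := by
  have : Fact p.Prime := ⟨hp⟩
  obtain ⟨a, b, hab⟩ := Nat.Prime.sq_add_sq (p := p) (by omega)
  have aux : ∀ a b : ℕ, a ^ 2 + b ^ 2 = p → b < a → ∃ w ∈ PP P Q, nm w = p := by
    intro a b hab hlt
    have hb : 0 < b := by
      rcases Nat.eq_zero_or_pos b with h0 | h0
      · exfalso
        rw [h0] at hab
        have h2 : p = a * a := by rw [← hab]; ring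
        have h3 : a ∣ p := ⟨a, h2⟩
        rcases (Nat.dvd_prime hp).1 h3 with h4 | h4
        · rw [h4] at h2
          exact hp.one_lt.ne' (by omega)
        · rw [h4] at h2
          have := hp.one_lt
          nlinarith
      · exact h0
    refine ⟨⟨(a : ℤ), (b : ℤ)⟩, ?_, ?_⟩
    · have hn : nm (⟨(a : ℤ), (b : ℤ)⟩ : G) = p := by
        have h2 : (nm (⟨(a : ℤ), (b : ℤ)⟩ : G) : ℤ) = (p : ℤ) := by
          rw [nm_eq, ← hab]
          push_cast
          ring
        exact_mod_cast h2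
      rw [mem_PP, hn]
      refine ⟨hP, hQ, hp, ?_, ?_⟩
      · show (0 : ℤ) < (b : ℤ)
        exact_mod_cast hb
      · show (b : ℤ) < (a : ℤ)
        exact_mod_cast hlt
    · have h2 : (nm (⟨(a : ℤ), (b : ℤ)⟩ : G) : ℤ) = (p : ℤ) := by
        rw [nm_eq, ← hab]
        push_cast
        ring
      exact_mod_cast h2
  rcases lt_trichotomy a b with h | h | h
  · exact aux b a (by omega) h
  · exfalso
    rw [h] at hab
    omega
  · exact aux a b hab h

theorem Ls_eq (P Q : ℝ) (hP : 0 ≤ P) (hQ : 0 ≤ Q) : Ls P Q =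
    ∑ p ∈ (Finset.Icc 1 ⌊Q⌋₊).filter (fun p => p.Prime ∧ p % 4 = 1 ∧ ⌊P⌋₊ < p), (1 : ℝ) / p := by
  unfold Ls
  refine Finset.sum_bij (fun w _ => nm w) ?_ ?_ ?_ ?_
  · intro w hw
    have hs := PP_spl hw
    obtain ⟨h1, h2, h3, _, _⟩ := mem_PP.1 hw
    rw [Finset.mem_filter, Finset.mem_Icc]
    exact ⟨⟨h3.one_lt.le, Nat.le_floor h2⟩, h3, hs.2, (Nat.floor_lt hP).2 h1⟩
  · intro w hw w' hw' he
    exact PP_inj hw hw' he
  · intro p hp
    rw [Finset.mem_filter, Finset.mem_Icc] at hp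
    obtain ⟨⟨_, h2⟩, h3, h4, h5⟩ := hp
    obtain ⟨w, hw, hn⟩ := PP_exists (P := P) (Q := Q) h3 h4 ((Nat.floor_lt hP).1 h5)
      ((Nat.cast_le.2 h2).trans (Nat.floor_le hQ))
    exact ⟨w, hw, hn⟩
  · intro w _
    rfl

theorem card_le_of_PP {P Q Y : ℝ} {s : Finset G} (hs : s ⊆ PP P Q) (hY : 0 ≤ Y)
    (h : ∀ w ∈ s, (nm w : ℝ) ≤ Y) : (s.card : ℝ) ≤ Y := by
  have h1 : s.card ≤ (Finset.Icc 1 ⌊Y⌋₊).card := by
    refine Finset.card_le_card_of_injOn (fun w => nm w) ?_ ?_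
    · intro w hw
      obtain ⟨_, _, h3, _, _⟩ := mem_PP.1 (hs hw)
      simp only [Finset.coe_Icc, Set.mem_Icc]
      exact ⟨h3.one_lt.le, Nat.le_floor (h w hw)⟩
    · intro w hw w' hw' he
      exact PP_inj (hs hw) (hs hw') he
  rw [Nat.card_Icc, Nat.add_sub_cancel] at h1
  exact (Nat.cast_le.2 h1).trans (Nat.floor_le hY)

/-- distinct elements have distinct norms -/
theorem card_PP_le (P Q : ℝ) (hQ : 0 ≤ Q) : ((PP P Q).card : ℝ) ≤ Q :=
  card_le_of_PP (Finset.Subset.refl _) hQ fun _ hw => (mem_PP.1 hw).2.1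

theorem card_blk_le (P Q ρ : ℝ) (v : ℕ) : ((blk P Q ρ v).card : ℝ) ≤ Real.exp ((v + 1) * ρ) := by
  classical
  refine card_le_of_PP (P := P) (Q := Q) ?_ (Real.exp_pos _).le ?_
  · unfold blk
    exact Finset.filter_subset _ _
  · intro w hw
    unfold blk at hw
    exact (Finset.mem_filter.1 hw).2.2

end Pool.Agent.GaussMR

end

/-! ### from `Lib_MP_f1a94e_mr.Ball0` -/

section

/-!
# Piece BALL0: trivial bound for the number of Gaussian integers in a disc
-/

set_option autoImplicit false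

namespace Pool.Agent.GaussMR

open Classical in
/-- for `t < 1` the set is empty, for `t ≥ 1` it has at most `(2 √t + 1)^2 ≤ 9 t` elements -/
theorem card_ball_le (t : ℝ) (ht : 0 ≤ t) : (((ball t).filter (fun z => z ≠ 0)).card : ℝ) ≤ 9 * t := by
  rcases lt_or_ge t 1 with h1 | h1
  · have h : (ball t).filter (fun z => z ≠ 0) = ∅ := by
      rw [Finset.filter_eq_empty_iff]
      intro z hz h0
      rw [mem_ball] at hz
      have h2 := nm_pos h0
      have h3 : (1 : ℝ) ≤ nm z := by exact_mod_cast h2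
      linarith
    rw [h]
    simpa using by linarith
  · set s : ℕ := ⌊Real.sqrt t⌋₊ with hs
    have hs1 : (s : ℝ) ≤ Real.sqrt t := Nat.floor_le (Real.sqrt_nonneg t)
    have hbd : ∀ a : ℤ, ∀ b : ℤ, ((a ^ 2 + b ^ 2 : ℤ) : ℝ) ≤ t → -(s : ℤ) ≤ a ∧ a ≤ s := by
      intro a b hab
      have h2 : (a.natAbs : ℝ) ≤ Real.sqrt t := by
        apply Real.le_sqrt_of_sq_le
        have e1 : (a.natAbs : ℝ) = |(a : ℝ)| := by
          rw [Nat.cast_natAbs, Int.cast_abs]
        rw [e1, sq_abs]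
        push_cast at hab
        nlinarith [sq_nonneg (b : ℝ)]
      have h3 : a.natAbs ≤ s := Nat.le_floor h2
      omega
    have hsub : (ball t).filter (fun z => z ≠ 0) ⊆
        ((Finset.Icc (-(s : ℤ)) s) ×ˢ (Finset.Icc (-(s : ℤ)) s)).image
          (fun p : ℤ × ℤ => (⟨p.1, p.2⟩ : G)) := by
      intro z hz
      rw [Finset.mem_filter, mem_ball] at hz
      have h2 : ((z.re ^ 2 + z.im ^ 2 : ℤ) : ℝ) ≤ t := by
        have := hz.1
        rw [← nm_eq]
        exact_mod_cast this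
      have h3 : ((z.im ^ 2 + z.re ^ 2 : ℤ) : ℝ) ≤ t := by rwa [add_comm]
      rw [Finset.mem_image]
      refine ⟨(z.re, z.im), ?_, rfl⟩
      rw [Finset.mem_product, Finset.mem_Icc, Finset.mem_Icc]
      exact ⟨hbd _ _ h2, hbd _ _ h3⟩
    have hcard : ((ball t).filter (fun z => z ≠ 0)).card ≤ (2 * s + 1) * (2 * s + 1) := by
      refine (Finset.card_le_card hsub).trans (Finset.card_image_le.trans ?_)
      rw [Finset.card_product, Int.card_Icc]
      have : ((s : ℤ) + 1 - -(s : ℤ)).toNat = 2 * s + 1 := by omega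
      rw [this]
    have h4 : (((ball t).filter (fun z => z ≠ 0)).card : ℝ) ≤ (2 * s + 1) * (2 * s + 1) := by
      exact_mod_cast hcard
    have h5 : 1 ≤ Real.sqrt t := Real.one_le_sqrt.2 h1
    have h6 : Real.sqrt t * Real.sqrt t = t := Real.mul_self_sqrt ht
    have h7 : (2 * (s : ℝ) + 1) ≤ 3 * Real.sqrt t := by linarith
    have h8 : (0 : ℝ) ≤ 2 * (s : ℝ) + 1 := by positivity
    nlinarith

end Pool.Agent.GaussMR

end

/-! ### from `Lib_MP_f1a94e_mr.StageId` -/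

section

/-!
# Piece STAGEID: the identity behind a stage
-/

set_option autoImplicit false

namespace Pool.Agent.GaussMR

open Classical in
/-- terms `w z` with `star w ∣ z` (not primitive) -/
noncomputable def A2 (F : G → ℝ) (P Q ρ X : ℝ) (k : ℤ) : ℂ :=
  ∑ v ∈ Finset.range (nv Q ρ), ∑ w ∈ blk P Q ρ v, (F w : ℂ) * xi (-k) w *
    ∑ z ∈ (V (X * Real.exp (-(v * ρ)))).filter (fun z => star w ∣ z), (F z : ℂ) * xi (-k) z

open Classical in
/-- multiplicity of `z` in the annulus -/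
noncomputable def mA (P Q ρ X : ℝ) (z : G) : ℕ :=
  ∑ v ∈ Finset.range (nv Q ρ), ((blk P Q ρ v).filter (fun w => w ∣ z ∧
    (nm z : ℝ) ≤ X * Real.exp (-(v * ρ)) * nm w)).card

/-- terms `w z` primitive of norm larger than `X` -/
noncomputable def A3 (F : G → ℝ) (P Q ρ X : ℝ) (k : ℤ) : ℂ :=
  ∑ z ∈ V (X * Real.exp ρ) \ V X, (F z : ℂ) * (mA P Q ρ X z : ℂ) * xi (-k) z

theorem mem_blk {P Q ρ : ℝ} {v : ℕ} {w : G} : w ∈ blk P Q ρ v ↔
    w ∈ PP P Q ∧ Real.exp (v * ρ) < (nm w : ℝ) ∧ (nm w : ℝ) ≤ Real.exp ((v + 1) * ρ) := by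
  classical
  unfold blk
  rw [Finset.mem_filter]

theorem blk_unique {P Q ρ : ℝ} (hρ : 0 < ρ) {v v' : ℕ} {w : G} (h : w ∈ blk P Q ρ v)
    (h' : w ∈ blk P Q ρ v') : v = v' := by
  rw [mem_blk] at h h'
  have key : ∀ {a b : ℕ}, Real.exp (a * ρ) < (nm w : ℝ) → (nm w : ℝ) ≤ Real.exp ((b + 1) * ρ) →
      a ≤ b := by
    intro a b h1 h2
    have h3 : (a : ℝ) * ρ < (b + 1) * ρ := Real.exp_lt_exp.mp (h1.trans_le h2)
    have h4 : (a : ℝ) < b + 1 := lt_of_mul_lt_mul_right h3 hρ.le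
    exact_mod_cast Nat.lt_succ_iff.mp (by exact_mod_cast h4)
  exact le_antisymm (key h.2.1 h'.2.2) (key h'.2.1 h.2.2)

theorem blk_exists {P Q ρ : ℝ} (hP : 1 ≤ P) (hρ : 0 < ρ) {w : G} (h : w ∈ PP P Q) :
    ∃ v ∈ Finset.range (nv Q ρ), w ∈ blk P Q ρ v := by
  obtain ⟨h1, h2, -, -, -⟩ := mem_PP.mp h
  have hw1 : (1 : ℝ) < nm w := hP.trans_lt h1
  have hw0 : (0 : ℝ) < nm w := by linarith
  have hlog : 0 < Real.log (nm w) := Real.log_pos hw1
  set c : ℕ := ⌈Real.log (nm w) / ρ⌉₊ with hc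
  have hc0 : 0 < c := Nat.ceil_pos.mpr (by positivity)
  obtain ⟨v, hv⟩ : ∃ v, c = v + 1 := ⟨c - 1, by omega⟩
  have hle : Real.log (nm w) / ρ ≤ (v : ℝ) + 1 := by
    have := Nat.le_ceil (Real.log (nm w) / ρ)
    rw [← hc, hv] at this
    exact_mod_cast this
  have hlt : (v : ℝ) < Real.log (nm w) / ρ := by
    have : v < c := by omega
    exact Nat.lt_ceil.mp this
  rw [div_le_iff₀ hρ] at hle
  rw [lt_div_iff₀ hρ] at hlt
  refine ⟨v, ?_, mem_blk.mpr ⟨h, ?_, ?_⟩⟩
  · rw [Finset.mem_range, nv, Nat.lt_succ_iff]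
    refine Nat.le_floor ?_
    rw [le_div_iff₀ hρ]
    exact hlt.le.trans (Real.log_le_log hw0 h2)
  · rw [← Real.lt_log_iff_exp_lt hw0]
    exact hlt
  · rw [← Real.log_le_iff_le_exp hw0]
    exact hle

open Classical in
theorem mA_eq (P Q ρ X : ℝ) (hρ : 0 < ρ) (z : G) :
    mA P Q ρ X z = ((Finset.range (nv Q ρ)).biUnion fun v => (blk P Q ρ v).filter (fun w => w ∣ z ∧
      (nm z : ℝ) ≤ X * Real.exp (-(v * ρ)) * nm w)).card := by
  rw [Finset.card_biUnion]
  · rfl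
  · intro v _ v' _ hvv
    rw [Function.onFun, Finset.disjoint_left]
    intro w hw hw'
    exact hvv (blk_unique hρ (Finset.mem_filter.mp hw).1 (Finset.mem_filter.mp hw').1)

theorem om_finite (P Q : ℝ) (z : G) : {w : G | w ∈ PP P Q ∧ w ∣ z}.Finite :=
  (PP P Q).finite_toSet.subset fun _ hw => hw.1

/-- `mA ≤ om`: the blocks are disjoint subsets of `PP` -/
theorem mA_le (P Q ρ X : ℝ) (hρ : 0 < ρ) (z : G) (hz : z ≠ 0) : (mA P Q ρ X z : ℝ) ≤ om P Q z := by
  classical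
  rw [mA_eq P Q ρ X hρ z, om, Nat.cast_le, ← Set.ncard_coe_finset]
  refine Set.ncard_le_ncard ?_ (om_finite P Q z)
  intro w hw
  rw [Finset.mem_coe, Finset.mem_biUnion] at hw
  obtain ⟨v, _, hw⟩ := hw
  rw [Finset.mem_filter] at hw
  exact ⟨(mem_blk.mp hw.1).1, hw.2.1⟩

theorem mA_eq_om (P Q ρ X : ℝ) (hP : 1 ≤ P) (hρ : 0 < ρ) (hX : 0 ≤ X) (z : G)
    (hz : (nm z : ℝ) ≤ X) : (mA P Q ρ X z : ℝ) = om P Q z := by
  classical
  rw [mA_eq P Q ρ X hρ z, om, Nat.cast_inj, ← Set.ncard_coe_finset]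
  congr 1
  ext w
  rw [Finset.mem_coe, Finset.mem_biUnion, Set.mem_ofPred_eq]
  constructor
  · rintro ⟨v, _, hw⟩
    rw [Finset.mem_filter] at hw
    exact ⟨(mem_blk.mp hw.1).1, hw.2.1⟩
  · rintro ⟨hw, hd⟩
    obtain ⟨v, hv, hvw⟩ := blk_exists hP hρ hw
    refine ⟨v, hv, Finset.mem_filter.mpr ⟨hvw, hd, hz.trans ?_⟩⟩
    have h1 : Real.exp (v * ρ) < nm w := (mem_blk.mp hvw).2.1
    calc X = X * Real.exp (-(v * ρ)) * Real.exp (v * ρ) := by
          rw [mul_assoc, ← Real.exp_add, neg_add_cancel, Real.exp_zero, mul_one]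
      _ ≤ X * Real.exp (-(v * ρ)) * nm w := by gcongr

open Classical in
/-- the substitution `z' = w z` -/
theorem sub_sum (F : G → ℝ) (hF : PM F) {w : G} (hw : Spl w) (Y Y' : ℝ) (k : ℤ)
    (hYY : Y * nm w ≤ Y') :
    ∑ z ∈ (V Y).filter (fun z => ¬ star w ∣ z), ((F w : ℂ) * xi (-k) w) * ((F z : ℂ) * xi (-k) z) =
      ∑ z ∈ (V Y').filter (fun z => w ∣ z ∧ (nm z : ℝ) ≤ Y * nm w), (F z : ℂ) * xi (-k) z := by
  have hw0 : w ≠ 0 := ne_zero_of_odd hw.odd
  have hnw : (0 : ℝ) < nm w := by exact_mod_cast nm_pos hw0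
  refine Finset.sum_bij (fun z _ => w * z) ?_ ?_ ?_ ?_
  · intro z hz
    rw [Finset.mem_filter, mem_V] at hz
    obtain ⟨⟨h1, h2, h3⟩, h4⟩ := hz
    have h5 : (nm (w * z) : ℝ) ≤ Y * nm w := by
      rw [nm_mul]
      push_cast
      nlinarith
    rw [Finset.mem_filter, mem_V]
    exact ⟨⟨h5.trans hYY, odd_nm_mul.mpr ⟨hw.odd, h2⟩, (prim_mul_iff hw h3).mpr h4⟩,
      dvd_mul_right _ _, h5⟩
  · intro z _ z' _ h
    exact mul_left_cancel₀ hw0 h
  · intro z' hz'
    rw [Finset.mem_filter, mem_V] at hz'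
    obtain ⟨⟨h1, h2, h3⟩, ⟨z, rfl⟩, h5⟩ := hz'
    have hz2 : Prim z := (prim_of_mul h3).2
    refine ⟨z, ?_, rfl⟩
    rw [Finset.mem_filter, mem_V]
    refine ⟨⟨?_, (odd_nm_mul.mp h2).2, hz2⟩, (prim_mul_iff hw hz2).mp h3⟩
    rw [nm_mul] at h5
    push_cast at h5
    have h6 : (nm w : ℝ) * nm z ≤ nm w * Y := by linarith
    exact le_of_mul_le_mul_left h6 hnw
  · intro z hz
    rw [Finset.mem_filter, mem_V] at hz
    rw [hF.mul w z hw.odd hz.1.2.1, xi_mul]
    push_cast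
    ring

/-- Every `w ∈ PP P Q` (`P ≥ 1`) lies in exactly one block `v < nv Q ρ`. Expand
`UZ = ∑_v ∑_{w ∈ blk v} ∑_{z ∈ V (X e^(-vρ))} F w F z xi_{-k}(w z)` and split the `z`: `star w ∣ z`
(`A2`); else `w z` is odd primitive (`prim_mul_iff`) of norm `≤ X e^ρ`: norm `> X` (`A3`), or `w z ∈ V X`.
For `w ∈ blk v` the map `z ↦ w z` is a bijection from `{z ∈ V (X e^(-vρ)) : ¬ star w ∣ z, nm (w z) ≤ X}` to
`{z' ∈ V X : w ∣ z'}` because `nm z' ≤ X` and `nm w > e^(vρ)`. -/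
theorem stage_id (F : G → ℝ) (hF : PM F) (P Q ρ X : ℝ) (k : ℤ) (hP : 1 ≤ P) (hPQ : P ≤ Q)
    (hρ : 0 < ρ) (hX : 1 ≤ X) :
    UZ F P Q ρ X k = ∑ z ∈ V X, (F z : ℂ) * (om P Q z : ℂ) * xi (-k) z + A2 F P Q ρ X k +
      A3 F P Q ρ X k := by
  classical
  -- the double sum without the non primitive terms
  have h1 : UZ F P Q ρ X k = A2 F P Q ρ X k + ∑ v ∈ Finset.range (nv Q ρ), ∑ w ∈ blk P Q ρ v,
      ∑ z ∈ (V (X * Real.exp ρ)).filter (fun z => w ∣ z ∧
        (nm z : ℝ) ≤ X * Real.exp (-(v * ρ)) * nm w), (F z : ℂ) * xi (-k) z := by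
    unfold UZ A2
    rw [← Finset.sum_add_distrib]
    refine Finset.sum_congr rfl fun v _ => ?_
    unfold U
    rw [Finset.sum_mul, ← Finset.sum_add_distrib]
    refine Finset.sum_congr rfl fun w hw => ?_
    have hs : Spl w := PP_spl (mem_blk.mp hw).1
    have hYY : X * Real.exp (-(v * ρ)) * nm w ≤ X * Real.exp ρ := by
      have h2 := (mem_blk.mp hw).2.2
      calc X * Real.exp (-(v * ρ)) * nm w ≤ X * Real.exp (-(v * ρ)) * Real.exp ((v + 1) * ρ) := by
            gcongr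
        _ = X * Real.exp ρ := by
            rw [mul_assoc, ← Real.exp_add]
            congr 2
            ring
    rw [← sub_sum F hF hs _ _ k hYY, fc, ← Finset.sum_filter_add_sum_filter_not _
      (fun z => star w ∣ z), mul_add]
    congr 1
    rw [Finset.mul_sum]
  have h2 : ∑ v ∈ Finset.range (nv Q ρ), ∑ w ∈ blk P Q ρ v,
      ∑ z ∈ (V (X * Real.exp ρ)).filter (fun z => w ∣ z ∧
        (nm z : ℝ) ≤ X * Real.exp (-(v * ρ)) * nm w), (F z : ℂ) * xi (-k) z =
      ∑ z ∈ V (X * Real.exp ρ), (F z : ℂ) * (mA P Q ρ X z : ℂ) * xi (-k) z := by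
    have e1 : ∀ v : ℕ, ∑ w ∈ blk P Q ρ v,
        ∑ z ∈ (V (X * Real.exp ρ)).filter (fun z => w ∣ z ∧
          (nm z : ℝ) ≤ X * Real.exp (-(v * ρ)) * nm w), (F z : ℂ) * xi (-k) z =
        ∑ z ∈ V (X * Real.exp ρ), (((blk P Q ρ v).filter (fun w => w ∣ z ∧
          (nm z : ℝ) ≤ X * Real.exp (-(v * ρ)) * nm w)).card : ℂ) * ((F z : ℂ) * xi (-k) z) := by
      intro v
      simp only [Finset.sum_filter]
      rw [Finset.sum_comm]
      refine Finset.sum_congr rfl fun z _ => ?_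
      rw [← Finset.sum_filter, Finset.sum_const, nsmul_eq_mul]
    simp only [e1]
    rw [Finset.sum_comm]
    refine Finset.sum_congr rfl fun z _ => ?_
    rw [← Finset.sum_mul, mA]
    push_cast
    ring
  have hsub : V X ⊆ V (X * Real.exp ρ) := by
    intro z hz
    rw [mem_V] at hz ⊢
    refine ⟨hz.1.trans ?_, hz.2⟩
    have : 1 ≤ Real.exp ρ := Real.one_le_exp hρ.le
    nlinarith
  have h3 : ∑ z ∈ V X, (F z : ℂ) * (om P Q z : ℂ) * xi (-k) z =
      ∑ z ∈ V X, (F z : ℂ) * (mA P Q ρ X z : ℂ) * xi (-k) z := by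
    refine Finset.sum_congr rfl fun z hz => ?_
    have e2 := mA_eq_om P Q ρ X hP hρ (by linarith) z (mem_V.mp hz).1
    rw [← e2]
    push_cast
    ring
  rw [h1, h2, ← Finset.sum_sdiff hsub, h3, A3]
  ring

end Pool.Agent.GaussMR

end

/-! ### from `Lib_MP_f1a94e_mr.KL` -/

section

/-!
# Piece KL: Kusmin-Landau inequality (discrete form)
-/

set_option autoImplicit false

namespace Pool.Agent.GaussMR

theorem kl_norm_ee (x : ℝ) : ‖ee x‖ = 1 := by
  unfold ee
  have h : (2 * Real.pi * x * Complex.I : ℂ) = ((2 * Real.pi * x : ℝ) : ℂ) * Complex.I := by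
    push_cast; ring
  rw [h, Complex.norm_exp_ofReal_mul_I]

theorem kl_ee_add (x y : ℝ) : ee (x + y) = ee x * ee y := by
  unfold ee
  rw [← Complex.exp_add]
  congr 1
  push_cast
  ring

theorem kl_ee_int (c : ℤ) : ee (c : ℝ) = 1 := by
  unfold ee
  rw [Complex.exp_eq_one_iff]
  exact ⟨c, by push_cast; ring⟩

/-- `cot (π t)` -/
noncomputable def klCot (t : ℝ) : ℝ := Real.cos (Real.pi * t) / Real.sin (Real.pi * t)

/-- `1 / (1 - ee t)` -/
noncomputable def klC (t : ℝ) : ℂ := 1 / 2 + ((klCot t / 2 : ℝ) : ℂ) * Complex.I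

theorem kl_sin_lower {t θ : ℝ} (hθ : 0 < θ) (h1 : θ ≤ t) (h2 : t ≤ 1 - θ) :
    2 * θ ≤ Real.sin (Real.pi * t) := by
  have hpi := Real.pi_pos
  rcases le_total t (1 / 2) with h | h
  · have ht : 0 ≤ t := by linarith
    have h3 := Real.mul_le_sin (x := Real.pi * t) (by positivity) (by nlinarith)
    have h4 : 2 / Real.pi * (Real.pi * t) = 2 * t := by field_simp
    rw [h4] at h3
    linarith
  · have h3 := Real.mul_le_sin (x := Real.pi * (1 - t)) (by
      have : 0 ≤ 1 - t := by linarith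
      positivity) (by nlinarith)
    have h4 : 2 / Real.pi * (Real.pi * (1 - t)) = 2 * (1 - t) := by field_simp
    have h5 : Real.sin (Real.pi * (1 - t)) = Real.sin (Real.pi * t) := by
      rw [← Real.sin_pi_sub]
      congr 1
      ring
    rw [h4, h5] at h3
    linarith

theorem kl_mul (t : ℝ) (hs : Real.sin (Real.pi * t) ≠ 0) : (1 - ee t) * klC t = 1 := by
  have he : ee t = ((Real.cos (2 * (Real.pi * t)) : ℝ) : ℂ)
      + ((Real.sin (2 * (Real.pi * t)) : ℝ) : ℂ) * Complex.I := by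
    unfold ee
    rw [Complex.ofReal_cos, Complex.ofReal_sin, ← Complex.exp_mul_I]
    congr 1
    push_cast
    ring
  rw [he, Real.cos_two_mul, Real.sin_two_mul]
  unfold klC klCot
  have h1 : Real.sin (Real.pi * t) ^ 2 + Real.cos (Real.pi * t) ^ 2 = 1 := Real.sin_sq_add_cos_sq _
  generalize Real.sin (Real.pi * t) = s at *
  generalize Real.cos (Real.pi * t) = c at *
  have h2 : (s : ℂ) ^ 2 + (c : ℂ) ^ 2 = 1 := by exact_mod_cast h1
  have h3 : (s : ℂ) ≠ 0 := by exact_mod_cast hs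
  push_cast
  field_simp
  linear_combination (-2) * ((s : ℂ) + c * Complex.I) * h2 + 2 * (s : ℂ) * h2
    - 2 * (s : ℂ) * (c : ℂ) ^ 2 * Complex.I_sq

theorem kl_norm_C {t θ : ℝ} (hθ : 0 < θ) (h1 : θ ≤ t) (h2 : t ≤ 1 - θ) :
    ‖klC t‖ ≤ 1 / (4 * θ) ∧ ‖1 - klC t‖ ≤ 1 / (4 * θ) := by
  have hs := kl_sin_lower hθ h1 h2
  have hspos : 0 < Real.sin (Real.pi * t) := by linarith
  have hn : ∀ z : ℂ, z.re ^ 2 + z.im ^ 2 = (1 / (2 * Real.sin (Real.pi * t))) ^ 2 →
      ‖z‖ ≤ 1 / (4 * θ) := by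
    intro z hz
    have h3 : ‖z‖ ^ 2 = (1 / (2 * Real.sin (Real.pi * t))) ^ 2 := by
      rw [← hz, Complex.sq_norm, Complex.normSq_apply]
      ring
    have h4 : ‖z‖ = 1 / (2 * Real.sin (Real.pi * t)) := by
      rwa [sq_eq_sq₀ (norm_nonneg _) (by positivity)] at h3
    rw [h4]
    apply one_div_le_one_div_of_le (by positivity)
    linarith
  have h5 : Real.sin (Real.pi * t) ^ 2 + Real.cos (Real.pi * t) ^ 2 = 1 :=
    Real.sin_sq_add_cos_sq _
  have h6 : klCot t ^ 2 = 1 / Real.sin (Real.pi * t) ^ 2 - 1 := by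
    unfold klCot
    field_simp
    linarith
  have h7 : (1 / (2 * Real.sin (Real.pi * t))) ^ 2 = (1 + klCot t ^ 2) / 4 := by
    rw [h6]
    field_simp
    ring
  have hre : (klC t).re = 1 / 2 := by simp [klC]
  have him : (klC t).im = klCot t / 2 := by simp [klC]
  constructor
  · apply hn
    rw [h7, hre, him]
    ring
  · apply hn
    rw [h7, Complex.sub_re, Complex.sub_im, hre, him]
    simp
    ring

theorem kl_cot_bound {t θ : ℝ} (hθ : 0 < θ) (h1 : θ ≤ t) (h2 : t ≤ 1 - θ) :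
    |klCot t| ≤ 1 / (2 * θ) := by
  have hs := kl_sin_lower hθ h1 h2
  have hspos : 0 < Real.sin (Real.pi * t) := by linarith
  unfold klCot
  rw [abs_div, abs_of_pos hspos]
  calc |Real.cos (Real.pi * t)| / Real.sin (Real.pi * t) ≤ 1 / Real.sin (Real.pi * t) := by
        apply div_le_div_of_nonneg_right (Real.abs_cos_le_one _) hspos.le
    _ ≤ 1 / (2 * θ) := one_div_le_one_div_of_le (by positivity) hs

theorem kl_cot_anti {t t' θ : ℝ} (hθ : 0 < θ) (h1 : θ ≤ t) (h2 : t ≤ t') (h3 : t' ≤ 1 - θ) :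
    klCot t' ≤ klCot t := by
  have hpi := Real.pi_pos
  have hs := kl_sin_lower hθ h1 (h2.trans h3)
  have hs' := kl_sin_lower hθ (h1.trans h2) h3
  have hp : 0 < Real.sin (Real.pi * t) := by linarith
  have hp' : 0 < Real.sin (Real.pi * t') := by linarith
  have hd : 0 ≤ Real.sin (Real.pi * t' - Real.pi * t) := by
    apply Real.sin_nonneg_of_nonneg_of_le_pi
    · nlinarith
    · nlinarith
  rw [Real.sin_sub] at hd
  unfold klCot
  rw [div_le_div_iff₀ hp' hp]
  linarith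

theorem kl_sub {t t' θ : ℝ} (hθ : 0 < θ) (h1 : θ ≤ t) (h2 : t ≤ t') (h3 : t' ≤ 1 - θ) :
    ‖klC t' - klC t‖ = (klCot t - klCot t') / 2 := by
  have h := kl_cot_anti hθ h1 h2 h3
  have h4 : klC t' - klC t = (((klCot t' - klCot t) / 2 : ℝ) : ℂ) * Complex.I := by
    unfold klC
    push_cast
    ring
  rw [h4, norm_mul, Complex.norm_I, mul_one, Complex.norm_real, Real.norm_eq_abs,
    abs_of_nonpos (by linarith)]
  ring

/-- sums over integer intervals as sums over ranges -/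
theorem kl_sum_Icc {M : Type*} [AddCommMonoid M] (f : ℤ → M) (a : ℤ) (N : ℕ) :
    ∑ n ∈ Finset.Icc a (a + N), f n = ∑ k ∈ Finset.range (N + 1), f (a + k) := by
  induction N with
  | zero => simp
  | succ N ih =>
    rw [Finset.sum_range_succ, ← ih]
    have h : Finset.Icc a (a + (N + 1 : ℕ)) = insert (a + (N + 1 : ℕ)) (Finset.Icc a (a + N)) := by
      ext x
      simp only [Finset.mem_Icc, Finset.mem_insert]
      push_cast
      omega
    rw [h, Finset.sum_insert]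
    · rw [add_comm]
    · simp only [Finset.mem_Icc]
      push_cast
      omega

/-- the inequality for sequences indexed by natural numbers -/
theorem kl_range (x : ℕ → ℝ) (N : ℕ) (θ : ℝ) (hθ : 0 < θ) (c : ℤ)
    (hmono : ∀ k, k + 1 < N → x (k + 1) - x k ≤ x (k + 2) - x (k + 1))
    (h1 : ∀ k, k < N → (c : ℝ) + θ ≤ x (k + 1) - x k)
    (h2 : ∀ k, k < N → x (k + 1) - x k ≤ (c : ℝ) + 1 - θ) (n : ℕ) (hn : n + 1 ≤ N) :
    ‖∑ k ∈ Finset.range (n + 2), ee (x k) - (1 - klC (x (n + 1) - x n - c)) * ee (x (n + 1))‖ ≤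
      1 / (4 * θ) + (klCot (x 1 - x 0 - c) - klCot (x (n + 1) - x n - c)) / 2 := by
  have key : ∀ k, k < N → ee (x k) = (ee (x k) - ee (x (k + 1))) * klC (x (k + 1) - x k - c) := by
    intro k hk
    have e1 : ee (x (k + 1)) = ee (x k) * ee (x (k + 1) - x k - c) := by
      have e2 : x (k + 1) = x k + ((x (k + 1) - x k - c) + c) := by ring
      conv_lhs => rw [e2]
      rw [kl_ee_add, kl_ee_add, kl_ee_int, mul_one]
    have e3 := kl_mul (x (k + 1) - x k - c) (by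
      have := kl_sin_lower (t := x (k + 1) - x k - c) hθ (by linarith [h1 k hk])
        (by linarith [h2 k hk])
      exact (by linarith : (0 : ℝ) < _).ne')
    rw [e1]
    calc ee (x k) = ee (x k) * ((1 - ee (x (k + 1) - x k - c)) * klC (x (k + 1) - x k - c)) := by
          rw [e3, mul_one]
      _ = _ := by ring
  induction n with
  | zero =>
    have e1 := key 0 (by omega)
    have e2 : ∑ k ∈ Finset.range (0 + 2), ee (x k) - (1 - klC (x (0 + 1) - x 0 - c)) * ee (x (0 + 1))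
        = klC (x 1 - x 0 - c) * ee (x 0) := by
      rw [Finset.sum_range_succ, Finset.sum_range_one]
      simp only [zero_add] at e1 ⊢
      linear_combination e1
    rw [e2, norm_mul, kl_norm_ee, mul_one]
    simp only [zero_add, sub_self, zero_div, add_zero]
    exact (kl_norm_C hθ (by linarith [h1 0 (by omega)]) (by
      have := h2 0 (by omega)
      simp only [zero_add] at this
      linarith)).1
  | succ n ih =>
    have ih' := ih (by omega)
    have e1 := key (n + 1) (by omega)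
    have e2 : ∑ k ∈ Finset.range (n + 1 + 2), ee (x k)
        - (1 - klC (x (n + 1 + 1) - x (n + 1) - c)) * ee (x (n + 1 + 1))
        = (∑ k ∈ Finset.range (n + 2), ee (x k)
          - (1 - klC (x (n + 1) - x n - c)) * ee (x (n + 1)))
        + (klC (x (n + 1 + 1) - x (n + 1) - c) - klC (x (n + 1) - x n - c)) * ee (x (n + 1)) := by
      rw [Finset.sum_range_succ]
      linear_combination e1
    rw [e2]
    refine (norm_add_le _ _).trans ?_
    rw [norm_mul, kl_norm_ee, mul_one]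
    have e3 := kl_sub (t := x (n + 1) - x n - c) (t' := x (n + 1 + 1) - x (n + 1) - c) hθ
      (by linarith [h1 n (by omega)])
      (by
        have := hmono n (by omega)
        linarith)
      (by linarith [h2 (n + 1) (by omega)])
    rw [e3]
    linarith

/-- Differences `Δ n = φ (n+1) - φ n` monotone and in `[c + θ, c + 1 - θ]` with `c` an integer. With
`C_n = 1 / (1 - ee (Δ n)) = (1 + i cot (π Δ n)) / 2`:
`∑_{n=a}^{b} ee(φ n) = ∑_{n=a}^{b-1} (ee(φ n) - ee(φ (n+1))) C_n + ee(φ b)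
= C_a ee(φ a) + ∑_{n=a+1}^{b-1} (C_n - C_{n-1}) ee(φ n) + (1 - C_{b-1}) ee(φ b)`, `|C_n|, |1 - C_n| ≤
1 / (4 θ)` (`|sin (π Δ)| ≥ 2 θ`), and `∑ |C_n - C_{n-1}| = |cot(π Δ_{b-1}) - cot (π Δ_a)| / 2 ≤ 1 / (2 θ)`
by monotonicity. -/
theorem kusmin_landau (φ : ℤ → ℝ) (a b : ℤ) (hab : a ≤ b) (θ : ℝ) (hθ : 0 < θ) (hθ' : θ ≤ 1 / 2)
    (c : ℤ) (hmono : ∀ n, a ≤ n → n + 1 < b → φ (n + 1) - φ n ≤ φ (n + 2) - φ (n + 1))
    (h1 : ∀ n, a ≤ n → n < b → (c : ℝ) + θ ≤ φ (n + 1) - φ n)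
    (h2 : ∀ n, a ≤ n → n < b → φ (n + 1) - φ n ≤ (c : ℝ) + 1 - θ) :
    ‖∑ n ∈ Finset.Icc a b, ee (φ n)‖ ≤ 1 / θ := by
  obtain ⟨N, rfl⟩ := Int.le.dest hab
  rw [kl_sum_Icc]
  rcases N with _ | n
  · simp only [zero_add, Finset.sum_range_one, kl_norm_ee]
    rw [le_div_iff₀ hθ]
    linarith
  · set x : ℕ → ℝ := fun k => φ (a + k) with hx
    have hx1 : ∀ k : ℕ, x (k + 1) = φ (a + k + 1) := by
      intro k
      simp only [hx]
      congr 1
      push_cast
      ring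
    have hx2 : ∀ k : ℕ, x (k + 2) = φ (a + k + 2) := by
      intro k
      simp only [hx]
      congr 1
      push_cast
      ring
    have hm' : ∀ k : ℕ, k + 1 < n + 1 → x (k + 1) - x k ≤ x (k + 2) - x (k + 1) := by
      intro k hk
      rw [hx1, hx2]
      exact hmono (a + k) (by omega) (by push_cast; omega)
    have h1' : ∀ k : ℕ, k < n + 1 → (c : ℝ) + θ ≤ x (k + 1) - x k := by
      intro k hk
      rw [hx1]
      exact h1 (a + k) (by omega) (by push_cast; omega)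
    have h2' : ∀ k : ℕ, k < n + 1 → x (k + 1) - x k ≤ (c : ℝ) + 1 - θ := by
      intro k hk
      rw [hx1]
      exact h2 (a + k) (by omega) (by push_cast; omega)
    have hmain := kl_range x (n + 1) θ hθ c hm' h1' h2' n le_rfl
    have hC := (kl_norm_C (t := x (n + 1) - x n - c) hθ (by linarith [h1' n (by omega)])
      (by linarith [h2' n (by omega)])).2
    have hc1 := (abs_le.1 (kl_cot_bound (t := x (n + 1) - x n - c) hθ
      (by linarith [h1' n (by omega)]) (by linarith [h2' n (by omega)]))).1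
    have hc2 := (abs_le.1 (kl_cot_bound (t := x 1 - x 0 - c) hθ
      (by
        have := h1' 0 (by omega)
        simp only [zero_add] at this
        linarith)
      (by
        have := h2' 0 (by omega)
        simp only [zero_add] at this
        linarith))).2
    have e1 : ∑ k ∈ Finset.range (n + 1 + 1), ee (φ (a + k))
        = (∑ k ∈ Finset.range (n + 2), ee (x k)
          - (1 - klC (x (n + 1) - x n - c)) * ee (x (n + 1)))
          + (1 - klC (x (n + 1) - x n - c)) * ee (x (n + 1)) := by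
      simp only [hx]
      ring
    rw [e1]
    refine (norm_add_le _ _).trans ?_
    rw [norm_mul, kl_norm_ee, mul_one]
    have e2 : 1 / θ = 1 / (4 * θ) + 1 / (4 * θ) + (1 / (2 * θ) + 1 / (2 * θ)) / 2 := by
      field_simp
      ring
    rw [e2]
    linarith

end Pool.Agent.GaussMR

end

/-! ### from `Lib_MP_f1a94e_mr.SecondDeriv` -/

section

/-!
# Piece SD: van der Corput's second derivative test (discrete form)
-/

set_option autoImplicit false

namespace Pool.Agent.GaussMR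

theorem sd_sep (Δ : ℤ → ℝ) (a b : ℤ) (lam Lam : ℝ)
    (h : ∀ n, a ≤ n → n + 1 < b → lam ≤ Δ (n + 1) - Δ n ∧ Δ (n + 1) - Δ n ≤ Lam) (n : ℤ)
    (hn : a ≤ n) : ∀ m : ℤ, n ≤ m → m < b →
      lam * ((m : ℝ) - n) ≤ Δ m - Δ n ∧ Δ m - Δ n ≤ Lam * ((m : ℝ) - n) := by
  intro m hm
  induction m, hm using Int.leInduction with
  | base =>
    intro _
    simp
  | succ m hm ih =>
    intro hb
    have h1 := ih (by omega)
    have h2 := h m (by omega) hb
    push_cast
    constructor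
    · nlinarith [h1.1, h2.1]
    · nlinarith [h1.2, h2.2]

/-- one block -/
theorem sd_block (φ Δ : ℤ → ℝ) (hΔ : ∀ n, Δ n = φ (n + 1) - φ n) (a b : ℤ) (lam θ : ℝ)
    (h0 : 0 < lam) (hθ : 0 < θ) (hθ' : θ ≤ 1 / 2)
    (hsep : ∀ n m : ℤ, a ≤ n → n ≤ m → m < b → lam * ((m : ℝ) - n) ≤ Δ m - Δ n) (v : ℤ) :
    ‖∑ n ∈ (Finset.Ico a b).filter (fun n => ⌊Δ n + θ⌋ = v), ee (φ n)‖ ≤
      2 * θ / lam + 1 + 1 / θ := by
  classical
  set S := (Finset.Ico a b).filter (fun n => ⌊Δ n + θ⌋ = v) with hS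
  have hmem : ∀ n, n ∈ S ↔ (a ≤ n ∧ n < b) ∧ (v : ℝ) - θ ≤ Δ n ∧ Δ n < v + 1 - θ := by
    intro n
    rw [hS, Finset.mem_filter, Finset.mem_Ico, Int.floor_eq_iff]
    constructor
    · rintro ⟨h1, h2, h3⟩
      exact ⟨h1, by linarith, by linarith⟩
    · rintro ⟨h1, h2, h3⟩
      exact ⟨h1, by linarith, by linarith⟩
  have hmono : ∀ n m : ℤ, a ≤ n → n ≤ m → m < b → Δ n ≤ Δ m := by
    intro n m h1 h2 h3
    have h4 := hsep n m h1 h2 h3
    have h5 : (n : ℝ) ≤ m := by exact_mod_cast h2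
    have h6 : 0 ≤ lam * ((m : ℝ) - n) := mul_nonneg h0.le (by linarith)
    linarith
  rw [← Finset.sum_filter_add_sum_filter_not S (fun n => Δ n < v + θ)]
  refine (norm_add_le _ _).trans (add_le_add ?_ ?_)
  · -- the points close to the integer
    set F := S.filter (fun n => Δ n < v + θ) with hF
    have h1 : ‖∑ n ∈ F, ee (φ n)‖ ≤ F.card := by
      refine (norm_sum_le _ _).trans ?_
      simp [kl_norm_ee]
    refine h1.trans ?_
    rcases F.eq_empty_or_nonempty with he | hne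
    · rw [he]
      simp only [Finset.card_empty, Nat.cast_zero]
      positivity
    · set p := F.min' hne with hp
      set q := F.max' hne with hq
      have hpF : p ∈ F := Finset.min'_mem _ _
      have hqF : q ∈ F := Finset.max'_mem _ _
      have hpq : p ≤ q := Finset.min'_le _ _ hqF
      have hp1 := (hmem p).1 (Finset.mem_filter.1 hpF).1
      have hq1 := (hmem q).1 (Finset.mem_filter.1 hqF).1
      have hq2 : Δ q < v + θ := (Finset.mem_filter.1 hqF).2
      have hsub : F ⊆ Finset.Icc p q := fun n hn =>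
        Finset.mem_Icc.2 ⟨Finset.min'_le _ _ hn, Finset.le_max' _ _ hn⟩
      have hc := Finset.card_le_card hsub
      rw [Int.card_Icc] at hc
      have hc' : (F.card : ℝ) ≤ (q : ℝ) - p + 1 := by
        have h2 : (F.card : ℤ) ≤ q + 1 - p := by omega
        have h3 : ((F.card : ℤ) : ℝ) ≤ ((q + 1 - p : ℤ) : ℝ) := by exact_mod_cast h2
        push_cast at h3
        linarith
      have h4 := hsep p q hp1.1.1 hpq hq1.1.2
      have h5 : (q : ℝ) - p ≤ 2 * θ / lam := by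
        rw [le_div_iff₀ h0]
        linarith [hp1.2.1]
      linarith
  · -- the points away from the integers
    set F := S.filter (fun n => ¬ Δ n < v + θ) with hF
    rcases F.eq_empty_or_nonempty with he | hne
    · rw [he]
      simp only [Finset.sum_empty, norm_zero]
      positivity
    · set p := F.min' hne with hp
      set q := F.max' hne with hq
      have hpF : p ∈ F := Finset.min'_mem _ _
      have hqF : q ∈ F := Finset.max'_mem _ _
      have hpq : p ≤ q := Finset.min'_le _ _ hqF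
      have hp1 := (hmem p).1 (Finset.mem_filter.1 hpF).1
      have hp2 := not_lt.1 (Finset.mem_filter.1 hpF).2
      have hq1 := (hmem q).1 (Finset.mem_filter.1 hqF).1
      have hFeq : F = Finset.Icc p q := by
        ext n
        constructor
        · intro hn
          exact Finset.mem_Icc.2 ⟨Finset.min'_le _ _ hn, Finset.le_max' _ _ hn⟩
        · intro hn
          rw [Finset.mem_Icc] at hn
          have h2 := hmono p n hp1.1.1 hn.1 (by omega)
          have h3 := hmono n q (by omega) hn.2 hq1.1.2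
          rw [hF, Finset.mem_filter, hmem]
          exact ⟨⟨⟨by omega, by omega⟩, by linarith, by linarith [hq1.2.2]⟩, by linarith⟩
      rw [hFeq]
      refine kusmin_landau φ p q hpq θ hθ hθ' v ?_ ?_ ?_
      · intro n hn hn2
        have h2 := hmono n (n + 1) (by omega) (by omega) (by omega)
        rw [hΔ, hΔ, show n + 1 + 1 = n + 2 by ring] at h2
        exact h2
      · intro n hn hn2
        rw [← hΔ]
        have h2 := hmono p n hp1.1.1 hn (by omega)
        linarith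
      · intro n hn hn2
        rw [← hΔ]
        have h3 := hmono n q (by omega) hn2.le hq1.1.2
        linarith [hq1.2.2]

/-- Second differences between `lam` and `Lam`, `0 < lam ≤ Lam ≤ 1`. The first differences `Δ n` are
increasing, with steps in `[lam, Lam]`, total variation `≤ (b - a) Lam`. With `θ = √lam / 2 ≤ 1/2`:
for each integer `ν` the `n` with `|Δ n - ν| < θ` form an interval with at most `2 θ / lam + 1` elements,
those with `Δ n ∈ [ν + θ, ν + 1 - θ]` an interval, on which `kusmin_landau` gives at most `1 / θ` (plus one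
endpoint). At most `(b - a) Lam + 2` integers `ν` are needed. -/
theorem second_deriv (φ : ℤ → ℝ) (a b : ℤ) (hab : a ≤ b) (lam Lam : ℝ) (h0 : 0 < lam)
    (hl : lam ≤ Lam) (hL : Lam ≤ 1)
    (h1 : ∀ n, a ≤ n → n + 1 < b → lam ≤ φ (n + 2) - 2 * φ (n + 1) + φ n)
    (h2 : ∀ n, a ≤ n → n + 1 < b → φ (n + 2) - 2 * φ (n + 1) + φ n ≤ Lam) :
    ‖∑ n ∈ Finset.Icc a b, ee (φ n)‖ ≤ 20 * (((b : ℝ) - a) * Lam + 1) * (1 / Real.sqrt lam + 1) := by
  classical
  have hs : 0 < Real.sqrt lam := Real.sqrt_pos.2 h0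
  have hs1 : Real.sqrt lam ≤ 1 := by
    rw [Real.sqrt_le_left (by norm_num)]
    linarith
  have hss : Real.sqrt lam * Real.sqrt lam = lam := Real.mul_self_sqrt h0.le
  have hi : 0 < 1 / Real.sqrt lam := by positivity
  have hLam : 0 < Lam := by linarith
  rcases hab.eq_or_lt with heq | hlt
  · subst heq
    simp only [Finset.Icc_self, Finset.sum_singleton, kl_norm_ee, sub_self, zero_mul, zero_add,
      mul_one]
    nlinarith
  · set θ : ℝ := Real.sqrt lam / 2 with hθ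
    have hθ0 : 0 < θ := by positivity
    have hθ1 : θ ≤ 1 / 2 := by rw [hθ]; linarith
    set Δ : ℤ → ℝ := fun n => φ (n + 1) - φ n with hΔ
    have hstep : ∀ n, a ≤ n → n + 1 < b → lam ≤ Δ (n + 1) - Δ n ∧ Δ (n + 1) - Δ n ≤ Lam := by
      intro n hn hn2
      have e : Δ (n + 1) - Δ n = φ (n + 2) - 2 * φ (n + 1) + φ n := by
        simp only [hΔ]
        rw [show n + 1 + 1 = n + 2 by ring]
        ring
      rw [e]
      exact ⟨h1 n hn hn2, h2 n hn hn2⟩
    have hsep := sd_sep Δ a b lam Lam hstep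
    set B : ℝ := 2 * θ / lam + 1 + 1 / θ with hB
    have hblock := sd_block φ Δ (fun n => rfl) a b lam θ h0 hθ0 hθ1
      (fun n m hn hm hb => (hsep n hn m hm hb).1)
    have hBv : B = 3 * (1 / Real.sqrt lam) + 1 := by
      have e1 : 2 * θ / lam = 1 / Real.sqrt lam := by
        rw [hθ, div_eq_div_iff h0.ne' hs.ne']
        nlinarith
      have e2 : 1 / θ = 2 * (1 / Real.sqrt lam) := by
        rw [hθ]
        field_simp
      rw [hB, e1, e2]
      ring
    have hIcc : Finset.Icc a b = insert b (Finset.Ico a b) := by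
      ext x
      simp only [Finset.mem_Icc, Finset.mem_insert, Finset.mem_Ico]
      omega
    rw [hIcc, Finset.sum_insert (by simp)]
    refine (norm_add_le _ _).trans ?_
    rw [kl_norm_ee]
    have hmono : ∀ n m : ℤ, a ≤ n → n ≤ m → m < b → Δ n ≤ Δ m := by
      intro n m e1 e2 e3
      have e4 := (hsep n e1 m e2 e3).1
      have e5 : (n : ℝ) ≤ m := by exact_mod_cast e2
      have e6 : 0 ≤ lam * ((m : ℝ) - n) := mul_nonneg h0.le (by linarith)
      linarith
    have hmaps : ∀ n ∈ Finset.Ico a b, ⌊Δ n + θ⌋ ∈ Finset.Icc ⌊Δ a + θ⌋ ⌊Δ (b - 1) + θ⌋ := by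
      intro n hn
      rw [Finset.mem_Ico] at hn
      rw [Finset.mem_Icc]
      exact ⟨Int.floor_le_floor (by linarith [hmono a n le_rfl hn.1 hn.2]),
        Int.floor_le_floor (by linarith [hmono n (b - 1) hn.1 (by omega) (by omega)])⟩
    rw [← Finset.sum_fiberwise_of_maps_to hmaps]
    have hsum : ‖∑ v ∈ Finset.Icc ⌊Δ a + θ⌋ ⌊Δ (b - 1) + θ⌋,
        ∑ n ∈ (Finset.Ico a b).filter (fun n => ⌊Δ n + θ⌋ = v), ee (φ n)‖ ≤
        (Finset.Icc ⌊Δ a + θ⌋ ⌊Δ (b - 1) + θ⌋).card * B := by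
      refine (norm_sum_le_of_le _ (fun v _ => hblock v)).trans ?_
      rw [Finset.sum_const, nsmul_eq_mul]
    have hcard : ((Finset.Icc ⌊Δ a + θ⌋ ⌊Δ (b - 1) + θ⌋).card : ℝ) ≤ ((b : ℝ) - a) * Lam + 2 := by
      rw [Int.card_Icc]
      have e1 : ⌊Δ a + θ⌋ ≤ ⌊Δ (b - 1) + θ⌋ :=
        Int.floor_le_floor (by linarith [hmono a (b - 1) le_rfl (by omega) (by omega)])
      have e2 : (((⌊Δ (b - 1) + θ⌋ + 1 - ⌊Δ a + θ⌋).toNat : ℤ) : ℝ)
          = ((⌊Δ (b - 1) + θ⌋ + 1 - ⌊Δ a + θ⌋ : ℤ) : ℝ) := by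
        rw [Int.toNat_of_nonneg (by omega)]
      have e3 : (((⌊Δ (b - 1) + θ⌋ + 1 - ⌊Δ a + θ⌋).toNat : ℕ) : ℝ)
          = (⌊Δ (b - 1) + θ⌋ : ℝ) + 1 - ⌊Δ a + θ⌋ := by
        have := e2
        push_cast at this
        exact this
      rw [e3]
      have e4 := Int.floor_le (Δ (b - 1) + θ)
      have e5 := Int.lt_floor_add_one (Δ a + θ)
      have e6 := (hsep a le_rfl (b - 1) (by omega) (by omega)).2
      push_cast at e6
      nlinarith
    have hB0 : 0 ≤ B := by rw [hBv]; positivity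
    have e7 : ((Finset.Icc ⌊Δ a + θ⌋ ⌊Δ (b - 1) + θ⌋).card : ℝ) * B ≤
        (((b : ℝ) - a) * Lam + 2) * B := mul_le_mul_of_nonneg_right hcard hB0
    have e8 : (0 : ℝ) < (b : ℝ) - a := by
      have : (a : ℝ) < b := by exact_mod_cast hlt
      linarith
    have e9 : 0 < ((b : ℝ) - a) * Lam := mul_pos e8 hLam
    rw [hBv] at e7
    rw [hBv] at hsum
    have e10 : 0 < ((b : ℝ) - a) * Lam * (1 / Real.sqrt lam) := mul_pos e9 hi
    nlinarith

end Pool.Agent.GaussMR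

end

/-! ### from `Lib_MP_f1a94e_mr.VdC` -/

section

/-!
# Piece VDC: the Weyl - van der Corput inequality
-/

set_option autoImplicit false

namespace Pool.Agent.GaussMR

theorem vdc_norm_ee (x : ℝ) : ‖ee x‖ = 1 := by
  unfold ee
  rw [show 2 * (Real.pi : ℂ) * x * Complex.I = ((2 * Real.pi * x : ℝ) : ℂ) * Complex.I by push_cast; ring]
  exact Complex.norm_exp_ofReal_mul_I _

theorem vdc_ee_mul_conj (x y : ℝ) : ee x * (starRingEnd ℂ) (ee y) = ee (x - y) := by
  unfold ee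
  rw [← Complex.exp_conj, ← Complex.exp_add]
  congr 1
  simp only [map_mul, Complex.conj_ofReal, Complex.conj_I, map_ofNat]
  push_cast
  ring

theorem vdc_sum_shift (f : ℤ → ℂ) (p q c d h : ℤ) (hc : p + h ≤ c) (hd : d ≤ q + h)
    (hf : ∀ n, ¬ (c ≤ n ∧ n ≤ d) → f n = 0) :
    ∑ m ∈ Finset.Icc p q, f (m + h) = ∑ n ∈ Finset.Icc c d, f n := by
  have e : ∑ m ∈ Finset.Icc p q, f (m + h) = ∑ n ∈ (Finset.Icc p q).image (fun m => m + h), f n := by
    rw [Finset.sum_image]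
    intro x _ y _ hxy
    exact add_right_cancel hxy
  rw [e]
  symm
  apply Finset.sum_subset
  · intro n hn
    rw [Finset.mem_Icc] at hn
    rw [Finset.mem_image]
    exact ⟨n - h, Finset.mem_Icc.mpr ⟨by omega, by omega⟩, by ring⟩
  · intro n _ hn
    apply hf
    rwa [Finset.mem_Icc] at hn

/-- With `N = b - a + 1`: `H S = ∑_{m} ∑_{h < H} x_(m + h)` (`x` extended by zero), Cauchy-Schwarz over
the `N + H - 1 ≤ 2 N` values of `m`, and collect the pairs with difference `h`: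
`|S|² ≤ ((N + H - 1) / H²) (H N + 2 ∑_{h=1}^{H-1} (H - h) |S_h|) ≤ 2 N² / H + 4 N M`. -/
theorem vdC (φ : ℤ → ℝ) (a b : ℤ) (hab : a ≤ b) (H : ℕ) (hH : 1 ≤ H) (hH' : (H : ℤ) ≤ b - a + 1)
    (M : ℝ) (hM0 : 0 ≤ M)
    (hM : ∀ h : ℕ, 1 ≤ h → h < H → ‖∑ n ∈ Finset.Icc a (b - h), ee (φ (n + h) - φ n)‖ ≤ M) :
    ‖∑ n ∈ Finset.Icc a b, ee (φ n)‖ ^ 2 ≤
      2 * ((b : ℝ) - a + 1) ^ 2 / H + 4 * ((b : ℝ) - a + 1) * M := by
  set x : ℤ → ℂ := fun n => if a ≤ n ∧ n ≤ b then ee (φ n) else 0 with hx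
  set I : Finset ℤ := Finset.Icc (a - (H : ℤ) + 1) b with hI
  set S : ℂ := ∑ n ∈ Finset.Icc a b, ee (φ n) with hS
  set N : ℝ := (b : ℝ) - a + 1 with hN
  have hab' : (a : ℝ) ≤ b := by exact_mod_cast hab
  have hH0 : (0 : ℝ) < H := by exact_mod_cast hH
  have hN1 : 1 ≤ N := by linarith
  have hHN : (H : ℝ) ≤ N := by
    have : ((H : ℤ) : ℝ) ≤ ((b - a + 1 : ℤ) : ℝ) := by exact_mod_cast hH'
    push_cast at this
    linarith
  have hxS : ∑ n ∈ Finset.Icc a b, x n = S := by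
    rw [hS]
    apply Finset.sum_congr rfl
    intro n hn
    rw [Finset.mem_Icc] at hn
    rw [hx]
    simp only [hn, and_self, if_true]
  have h1 : ∀ h ∈ Finset.range H, ∑ m ∈ I, x (m + h) = S := by
    intro h hh
    rw [Finset.mem_range] at hh
    rw [hI, vdc_sum_shift x (a - (H : ℤ) + 1) b a b h (by omega) (by omega), hxS]
    intro n hn
    rw [hx]
    simp only [hn, if_false]
  set c : ℕ → ℕ → ℂ := fun h h' => ∑ m ∈ I, x (m + h) * (starRingEnd ℂ) (x (m + h')) with hc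
  have hcardI : (I.card : ℝ) ≤ 2 * N := by
    rw [hI, Int.card_Icc]
    have h2 : ((b + 1 - (a - (H : ℤ) + 1)).toNat : ℤ) = b + 1 - (a - (H : ℤ) + 1) :=
      Int.toNat_of_nonneg (by omega)
    have h3 : (((b + 1 - (a - (H : ℤ) + 1)).toNat : ℤ) : ℝ) = ((b + 1 - (a - (H : ℤ) + 1) : ℤ) : ℝ) := by
      rw [h2]
    push_cast at h3
    have h4 : (((b + 1 - (a - (H : ℤ) + 1)).toNat : ℕ) : ℝ) = b + 1 - (a - H + 1) := by
      exact_mod_cast h3
    rw [h4]
    linarith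
  have hclt : ∀ h h' : ℕ, h' < h → h < H → ‖c h h'‖ ≤ M := by
    intro h h' hlt hh
    obtain ⟨k, rfl⟩ : ∃ k, h = h' + k := ⟨h - h', by omega⟩
    have hk1 : 1 ≤ k := by omega
    have e : c (h' + k) h' = ∑ n ∈ Finset.Icc a (b - k), ee (φ (n + k) - φ n) := by
      rw [hc]
      simp only
      have e1 : ∀ m : ℤ, x (m + ((h' + k : ℕ) : ℤ)) * (starRingEnd ℂ) (x (m + h')) =
          (fun n : ℤ => x (n + k) * (starRingEnd ℂ) (x n)) (m + h') := by
        intro m
        simp only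
        rw [show m + ((h' + k : ℕ) : ℤ) = m + h' + k by push_cast; ring]
      rw [Finset.sum_congr rfl (fun m _ => e1 m), hI,
        vdc_sum_shift (fun n : ℤ => x (n + k) * (starRingEnd ℂ) (x n)) (a - (H : ℤ) + 1) b a (b - k) h'
          (by omega) (by omega)]
      · apply Finset.sum_congr rfl
        intro n hn
        rw [Finset.mem_Icc] at hn
        have t1 : x (n + k) = ee (φ (n + k)) := by
          rw [hx]
          simp only
          rw [if_pos ⟨by omega, by omega⟩]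
        have t2 : x n = ee (φ n) := by
          rw [hx]
          simp only
          rw [if_pos ⟨by omega, by omega⟩]
        rw [t1, t2, vdc_ee_mul_conj]
      · intro n hn
        by_cases hna : a ≤ n
        · have : x (n + k) = 0 := by
            rw [hx]
            simp only
            rw [if_neg]
            rintro ⟨_, h6⟩
            exact hn ⟨hna, by omega⟩
          rw [this, zero_mul]
        · have : x n = 0 := by
            rw [hx]
            simp only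
            rw [if_neg]
            rintro ⟨h6, _⟩
            exact hna h6
          rw [this, map_zero, mul_zero]
    rw [e]
    exact hM k hk1 (by omega)
  have hcsymm : ∀ h h' : ℕ, ‖c h h'‖ = ‖c h' h‖ := by
    intro h h'
    have : c h h' = (starRingEnd ℂ) (c h' h) := by
      rw [hc]
      simp only [map_sum, map_mul, Complex.conj_conj]
      apply Finset.sum_congr rfl
      intro m _
      rw [mul_comm]
    rw [this, Complex.norm_conj]
  have hceq : ∀ h : ℕ, h < H → ‖c h h‖ ≤ N := by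
    intro h hh
    have e : c h h = ∑ n ∈ Finset.Icc a b, x n * (starRingEnd ℂ) (x n) := by
      rw [hc]
      simp only
      rw [hI, vdc_sum_shift (fun n : ℤ => x n * (starRingEnd ℂ) (x n)) (a - (H : ℤ) + 1) b a b h
          (by omega) (by omega)]
      intro n hn
      have : x n = 0 := by
        rw [hx]
        simp only [hn, if_false]
      rw [this, zero_mul]
    rw [e]
    refine (norm_sum_le _ _).trans ?_
    have : ∀ n ∈ Finset.Icc a b, ‖x n * (starRingEnd ℂ) (x n)‖ ≤ 1 := by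
      intro n hn
      rw [Finset.mem_Icc] at hn
      have t2 : x n = ee (φ n) := by
        rw [hx]
        simp only
        rw [if_pos hn]
      rw [t2, norm_mul, Complex.norm_conj, vdc_norm_ee, one_mul]
    refine (Finset.sum_le_sum this).trans ?_
    rw [Finset.sum_const, Int.card_Icc, nsmul_eq_mul, mul_one]
    have h2 : ((b + 1 - a).toNat : ℤ) = b + 1 - a := Int.toNat_of_nonneg (by omega)
    have h3 : (((b + 1 - a).toNat : ℤ) : ℝ) = ((b + 1 - a : ℤ) : ℝ) := by rw [h2]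
    push_cast at h3
    linarith
  have key : ((∑ m ∈ I, ‖∑ h ∈ Finset.range H, x (m + h)‖ ^ 2 : ℝ) : ℂ) =
      ∑ h ∈ Finset.range H, ∑ h' ∈ Finset.range H, c h h' := by
    push_cast
    have e1 : ∀ m : ℤ, ((‖∑ h ∈ Finset.range H, x (m + h)‖ : ℂ)) ^ 2 =
        ∑ h ∈ Finset.range H, ∑ h' ∈ Finset.range H, x (m + h) * (starRingEnd ℂ) (x (m + h')) := by
      intro m
      rw [← Complex.mul_conj', map_sum, Finset.sum_mul_sum]
    rw [Finset.sum_congr rfl (fun m _ => e1 m), Finset.sum_comm]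
    apply Finset.sum_congr rfl
    intro h _
    rw [Finset.sum_comm]
  have hsum : ∑ m ∈ I, ‖∑ h ∈ Finset.range H, x (m + h)‖ ^ 2 ≤ H * N + H ^ 2 * M := by
    have e1 : ∑ m ∈ I, ‖∑ h ∈ Finset.range H, x (m + h)‖ ^ 2 =
        ‖∑ h ∈ Finset.range H, ∑ h' ∈ Finset.range H, c h h'‖ := by
      rw [← key, Complex.norm_real, Real.norm_eq_abs, abs_of_nonneg]
      exact Finset.sum_nonneg fun m _ => sq_nonneg _
    rw [e1]
    have e2 : ∀ h ∈ Finset.range H, ∀ h' ∈ Finset.range H, ‖c h h'‖ ≤ (if h = h' then N else 0) + M := by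
      intro h hh h' hh'
      rw [Finset.mem_range] at hh hh'
      rcases lt_trichotomy h h' with hlt | rfl | hlt
      · rw [hcsymm, if_neg (by omega), zero_add]
        exact hclt h' h hlt hh'
      · rw [if_pos rfl]
        linarith [hceq h hh]
      · rw [if_neg (by omega), zero_add]
        exact hclt h h' hlt hh
    calc ‖∑ h ∈ Finset.range H, ∑ h' ∈ Finset.range H, c h h'‖
        ≤ ∑ h ∈ Finset.range H, ∑ h' ∈ Finset.range H, ((if h = h' then N else 0) + M) := by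
          refine (norm_sum_le _ _).trans (Finset.sum_le_sum fun h hh => ?_)
          exact (norm_sum_le _ _).trans (Finset.sum_le_sum fun h' hh' => e2 h hh h' hh')
      _ = H * N + H ^ 2 * M := by
          have : ∀ h ∈ Finset.range H, ∑ h' ∈ Finset.range H, ((if h = h' then N else 0) + M) =
              N + H * M := by
            intro h hh
            rw [Finset.sum_add_distrib, Finset.sum_ite_eq, if_pos hh, Finset.sum_const,
              Finset.card_range, nsmul_eq_mul]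
          rw [Finset.sum_congr rfl this, Finset.sum_const, Finset.card_range, nsmul_eq_mul]
          ring
  have hHS : (H : ℂ) * S = ∑ m ∈ I, ∑ h ∈ Finset.range H, x (m + h) := by
    rw [Finset.sum_comm, Finset.sum_congr rfl h1, Finset.sum_const, Finset.card_range, nsmul_eq_mul]
  have hCS : (H : ℝ) ^ 2 * ‖S‖ ^ 2 ≤ 2 * N * (H * N + H ^ 2 * M) := by
    calc (H : ℝ) ^ 2 * ‖S‖ ^ 2 = ‖(H : ℂ) * S‖ ^ 2 := by
          rw [norm_mul, Complex.norm_natCast]
          ring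
      _ = ‖∑ m ∈ I, ∑ h ∈ Finset.range H, x (m + h)‖ ^ 2 := by rw [hHS]
      _ ≤ (∑ m ∈ I, ‖∑ h ∈ Finset.range H, x (m + h)‖) ^ 2 := by
          gcongr
          exact norm_sum_le _ _
      _ ≤ I.card * ∑ m ∈ I, ‖∑ h ∈ Finset.range H, x (m + h)‖ ^ 2 := sq_sum_le_card_mul_sum_sq
      _ ≤ 2 * N * (H * N + H ^ 2 * M) := by gcongr
  have hfin : ‖S‖ ^ 2 ≤ 2 * N ^ 2 / H + 2 * N * M := by
    have h5 : 2 * N ^ 2 / H + 2 * N * M = (2 * N * (H * N + H ^ 2 * M)) / H ^ 2 := by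
      field_simp
    rw [h5, le_div_iff₀ (by positivity)]
    linarith
  have : 0 ≤ N * M := by positivity
  linarith

end Pool.Agent.GaussMR

end

/-! ### from `Lib_MP_f1a94e_mr.ArgDeriv` -/

section

/-!
# Piece ARG: derivatives of the angle along a row
-/

set_option autoImplicit false

namespace Pool.Agent.GaussMR

open scoped ContDiff

/-- For `b > 0`: `arg (x + i b) = π / 2 - arctan (x / b)`, so
`xi j ⟨x, b⟩ = I ^ j * ee (-(j / (2 π)) * arctan (x / b))`. -/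
theorem xi_row (j : ℤ) (b : ℕ) (hb : 0 < b) (x : ℤ) :
    xi j ⟨x, b⟩ = Complex.I ^ j * ee (-((j : ℝ) / (2 * Real.pi)) * Real.arctan ((x : ℝ) / b)) := by
  have hb0 : (0 : ℝ) < b := by exact_mod_cast hb
  set t : ℝ := Real.arctan ((x : ℝ) / b) with ht
  set R : ℝ := Real.sqrt ((x : ℝ) ^ 2 + (b : ℝ) ^ 2) with hR
  have hR0 : 0 < R := Real.sqrt_pos.mpr (by positivity)
  have hR2 : R ^ 2 = (x : ℝ) ^ 2 + (b : ℝ) ^ 2 := Real.sq_sqrt (by positivity)
  have hsq : Real.sqrt (1 + ((x : ℝ) / b) ^ 2) = R / b := by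
    rw [hR, show (1 : ℝ) + ((x : ℝ) / b) ^ 2 = ((x : ℝ) ^ 2 + (b : ℝ) ^ 2) / b ^ 2 by
      field_simp
      ring, Real.sqrt_div (by positivity), Real.sqrt_sq hb0.le]
  have hcos : Real.cos t = b / R := by
    rw [ht, Real.cos_arctan, hsq]
    field_simp
  have hsin : Real.sin t = x / R := by
    rw [ht, Real.sin_arctan, hsq]
    field_simp
  have hdir : dir (⟨x, b⟩ : G) = Complex.I * Complex.exp (((-t : ℝ) : ℂ) * Complex.I) := by
    have hn : ‖((⟨x, b⟩ : G) : ℂ)‖ = R := by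
      rw [norm_eq_sqrt, hR]
      congr 1
      have := nm_eq (⟨x, b⟩ : G)
      have h' : ((nm (⟨x, b⟩ : G) : ℤ) : ℝ) = ((x ^ 2 + (b : ℤ) ^ 2 : ℤ) : ℝ) := by rw [this]
      push_cast at h'
      exact h'
    unfold dir
    rw [hn, toComplex_eq, Complex.exp_mul_I, ← Complex.ofReal_cos, ← Complex.ofReal_sin,
      Real.cos_neg, Real.sin_neg, hcos, hsin]
    have hRc : (R : ℂ) ≠ 0 := by exact_mod_cast hR0.ne'
    push_cast
    field_simp
    have hI : Complex.I ^ 2 = -1 := Complex.I_sq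
    linear_combination (x : ℂ) * hI
  unfold xi
  rw [hdir, mul_zpow, ← Complex.exp_int_mul]
  congr 1
  unfold ee
  congr 1
  push_cast
  have hpi : (Real.pi : ℂ) ≠ 0 := by exact_mod_cast Real.pi_ne_zero
  field_simp

set_option linter.unusedVariables false in
theorem contDiff_row (c b : ℝ) (hb : 0 < b) : ContDiff ℝ ∞ (fun x : ℝ => c * Real.arctan (x / b)) := by
  exact contDiff_const.mul (Real.contDiff_arctan.comp (contDiff_id.div_const b))

theorem row_ne_zero (b : ℝ) (hb : 0 < b) (x : ℝ) : (x : ℂ) + b * Complex.I ≠ 0 := by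
  intro h
  have := congrArg Complex.im h
  simp at this
  exact hb.ne' this

theorem row_hasDeriv (q : ℕ) (b : ℝ) (hb : 0 < b) (x : ℝ) :
    HasDerivAt (fun x : ℝ => (((x : ℂ) + b * Complex.I) ^ (-(q : ℤ))).im)
      (-(q : ℝ) * (((x : ℂ) + b * Complex.I) ^ (-((q + 1 : ℕ) : ℤ))).im) x := by
  have h1 : HasDerivAt (fun z : ℂ => (z + b * Complex.I) ^ (-(q : ℤ)))
      (((-(q : ℤ) : ℤ) : ℂ) * ((x : ℂ) + b * Complex.I) ^ (-(q : ℤ) - 1)) (x : ℂ) := by
    have h2 := hasDerivAt_zpow (-(q : ℤ)) ((x : ℂ) + b * Complex.I) (Or.inl (row_ne_zero b hb x))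
    exact h2.comp_add_const (x : ℂ) (b * Complex.I)
  have h3 := h1.comp_ofReal
  have h4 := (Complex.imCLM.hasFDerivAt (x := ((x : ℂ) + b * Complex.I) ^ (-(q : ℤ)))).comp_hasDerivAt x h3
  have e : Complex.imCLM (((-(q : ℤ) : ℤ) : ℂ) * ((x : ℂ) + b * Complex.I) ^ (-(q : ℤ) - 1)) =
      -(q : ℝ) * (((x : ℂ) + b * Complex.I) ^ (-((q + 1 : ℕ) : ℤ))).im := by
    have e1 : (((-(q : ℤ) : ℤ) : ℂ)) = ((-(q : ℝ) : ℝ) : ℂ) := by push_cast; rfl
    rw [Complex.imCLM_apply, e1, Complex.im_ofReal_mul]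
    congr 3
    push_cast
    ring
  rw [← e]
  exact h4

/-- `arctan (x / b)' = b / (x² + b²) = - Im (1 / (x + i b))`, and
`(Im (x + i b)^(-q))' = - q Im (x + i b)^(-q-1)`. -/
theorem iteratedDeriv_row (q : ℕ) (hq : 1 ≤ q) (c b : ℝ) (hb : 0 < b) (x : ℝ) :
    iteratedDeriv q (fun x : ℝ => c * Real.arctan (x / b)) x =
      c * ((-1) ^ q * (q - 1).factorial * (((x : ℂ) + b * Complex.I) ^ (-(q : ℤ))).im) := by
  have main : ∀ q : ℕ, 1 ≤ q → iteratedDeriv q (fun x : ℝ => c * Real.arctan (x / b)) =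
      fun x : ℝ => c * ((-1) ^ q * (q - 1).factorial * (((x : ℂ) + b * Complex.I) ^ (-(q : ℤ))).im) := by
    intro q hq
    induction q, hq using Nat.le_induction with
    | base =>
      rw [iteratedDeriv_one]
      funext y
      have h1 : HasDerivAt (fun x : ℝ => c * Real.arctan (x / b)) (c * (1 / (1 + (y / b) ^ 2) * (1 / b))) y := by
        have h2 : HasDerivAt (fun x : ℝ => x / b) (1 / b) y := (hasDerivAt_id y).div_const b
        exact (h2.arctan).const_mul c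
      rw [h1.deriv]
      congr 1
      have h0 := row_ne_zero b hb y
      have him : (((y : ℂ) + b * Complex.I) ^ (-((1 : ℕ) : ℤ))).im = -b / (y ^ 2 + b ^ 2) := by
        rw [Nat.cast_one, zpow_neg_one, Complex.inv_im]
        have hns : Complex.normSq ((y : ℂ) + b * Complex.I) = y ^ 2 + b ^ 2 := by
          rw [Complex.normSq_apply]
          simp
          ring
        rw [hns]
        simp
      rw [him]
      have : y ^ 2 + b ^ 2 ≠ 0 := by positivity
      simp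
      field_simp
      ring
    | succ q hq ih =>
      rw [iteratedDeriv_succ, ih]
      funext y
      have h1 := ((row_hasDeriv q b hb y).const_mul ((-1) ^ q * ((q - 1).factorial : ℝ))).const_mul c
      rw [h1.deriv]
      have hf : ((q + 1 - 1).factorial : ℝ) = q * ((q - 1).factorial : ℝ) := by
        obtain ⟨p, rfl⟩ : ∃ p, q = p + 1 := ⟨q - 1, by omega⟩
        simp [Nat.factorial_succ]
      rw [hf, pow_succ]
      ring
  rw [main q hq]

/-- the function `h(x) = Im (x + i b)^(-q)` has derivative at most `q / |x + i b|^(q+1)` -/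
theorem row_lip (q : ℕ) (hq : 1 ≤ q) (b : ℝ) (hb : 0 < b) (x y : ℝ) :
    |(((x : ℂ) + b * Complex.I) ^ (-(q : ℤ))).im - (((y : ℂ) + b * Complex.I) ^ (-(q : ℤ))).im| ≤
      q / b ^ (q + 1) * |x - y| := by
  have hbound : ∀ z ∈ (Set.univ : Set ℝ),
      ‖-(q : ℝ) * (((z : ℂ) + b * Complex.I) ^ (-((q + 1 : ℕ) : ℤ))).im‖ ≤ q / b ^ (q + 1) := by
    intro z _
    rw [norm_mul, norm_neg, Real.norm_natCast, div_eq_mul_inv]
    have h1 : |(((z : ℂ) + b * Complex.I) ^ (-((q + 1 : ℕ) : ℤ))).im| ≤ (b ^ (q + 1))⁻¹ := by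
      refine (Complex.abs_im_le_norm _).trans ?_
      rw [zpow_neg, zpow_natCast, norm_inv, norm_pow]
      have h2 : b ≤ ‖(z : ℂ) + b * Complex.I‖ := by
        have := Complex.abs_im_le_norm ((z : ℂ) + b * Complex.I)
        simp at this
        rwa [abs_of_pos hb] at this
      gcongr
    rw [Real.norm_eq_abs]
    gcongr
  have := Convex.norm_image_sub_le_of_norm_hasDerivWithin_le (f := fun x : ℝ => (((x : ℂ) + b * Complex.I) ^ (-(q : ℤ))).im)
    (f' := fun z => -(q : ℝ) * (((z : ℂ) + b * Complex.I) ^ (-((q + 1 : ℕ) : ℤ))).im)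
    (fun z _ => (row_hasDeriv q b hb z).hasDerivWithinAt) hbound convex_univ (Set.mem_univ y) (Set.mem_univ x)
  simpa [Real.norm_eq_abs] using this

end Pool.Agent.GaussMR

end

/-! ### from `Lib_MP_f1a94e_mr.Bad` -/

section

/-!
# Piece BADPTS: few bad points in a row
-/

set_option autoImplicit false

namespace Pool.Agent.GaussMR

private theorem card_near (ζ R : ℝ) (hR : 0 ≤ R) :
    (((Finset.Icc ⌈ζ - R⌉ ⌊ζ + R⌋).card : ℕ) : ℝ) ≤ 2 * R + 1 := by
  rw [Int.card_Icc]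
  have h1 : ((⌊ζ + R⌋ : ℤ) : ℝ) ≤ ζ + R := Int.floor_le _
  have h2 : ζ - R ≤ ((⌈ζ - R⌉ : ℤ) : ℝ) := Int.le_ceil _
  rcases le_total 0 (⌊ζ + R⌋ + 1 - ⌈ζ - R⌉) with h | h
  · have h3 : (((⌊ζ + R⌋ + 1 - ⌈ζ - R⌉).toNat : ℤ) : ℝ) = ((⌊ζ + R⌋ + 1 - ⌈ζ - R⌉ : ℤ) : ℝ) := by
      rw [Int.toNat_of_nonneg h]
    have h4 : (((⌊ζ + R⌋ + 1 - ⌈ζ - R⌉).toNat : ℕ) : ℝ) =
        (((⌊ζ + R⌋ + 1 - ⌈ζ - R⌉).toNat : ℤ) : ℝ) := by push_cast; rfl
    rw [h4, h3]
    push_cast
    linarith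
  · rw [Int.toNat_of_nonpos h]
    push_cast
    linarith

private theorem cover (m : ℕ) (hm4 : m ≤ 4) (ζ : Fin m → ℝ) (r : ℝ) (hr : 1 ≤ r)
    (b : ℕ) (hb : r ^ (1 - 1 / 2000 : ℝ) ≤ b) (S : Set ℤ)
    (hS : ∀ x ∈ S, (b : ℝ) * ∏ i, |(x : ℝ) - ζ i| < r ^ (-(1 / 1000 : ℝ)) * r ^ (m + 1)) :
    (S.ncard : ℝ) ≤ 12 * r ^ (1 - 1 / 8000 : ℝ) := by
  classical
  have hr0 : 0 < r := by linarith
  set R : ℝ := r ^ (1 - 1 / 8000 : ℝ) with hR
  have hR1 : 1 ≤ R := Real.one_le_rpow hr (by norm_num)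
  have hR0 : 0 ≤ R := by linarith
  have hclose : ∀ x ∈ S, ∃ i, |(x : ℝ) - ζ i| < R := by
    intro x hx
    by_contra hcon
    push Not at hcon
    have h1 := hS x hx
    have h2 : R ^ m ≤ ∏ i, |(x : ℝ) - ζ i| := by
      calc R ^ m = ∏ _i : Fin m, R := by simp
        _ ≤ ∏ i, |(x : ℝ) - ζ i| := Finset.prod_le_prod (fun _ _ => hR0) (fun i _ => hcon i)
    have h3 : r ^ ((m : ℝ) - 1 / 2000) ≤ R ^ m := by
      rw [hR, ← Real.rpow_natCast, ← Real.rpow_mul hr0.le]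
      apply Real.rpow_le_rpow_of_exponent_le hr
      have : (m : ℝ) ≤ 4 := by exact_mod_cast hm4
      nlinarith
    have h4 : r ^ (-(1 / 1000 : ℝ)) * r ^ (m + 1) =
        r ^ (1 - 1 / 2000 : ℝ) * r ^ ((m : ℝ) - 1 / 2000) := by
      rw [← Real.rpow_natCast, ← Real.rpow_add hr0, ← Real.rpow_add hr0]
      congr 1
      push_cast
      ring
    rw [h4] at h1
    have h5 : r ^ (1 - 1 / 2000 : ℝ) * r ^ ((m : ℝ) - 1 / 2000) ≤ (b : ℝ) * ∏ i, |(x : ℝ) - ζ i| :=
      mul_le_mul hb (h3.trans h2) (by positivity) (by positivity)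
    linarith
  set U : Finset ℤ := Finset.univ.biUnion (fun i : Fin m => Finset.Icc ⌈ζ i - R⌉ ⌊ζ i + R⌋) with hU
  have hsub : S ⊆ (U : Set ℤ) := by
    intro x hx
    obtain ⟨i, hi⟩ := hclose x hx
    rw [abs_lt] at hi
    rw [hU, Finset.coe_biUnion]
    refine Set.mem_iUnion₂.2 ⟨i, Finset.mem_coe.2 (Finset.mem_univ i), ?_⟩
    rw [Finset.coe_Icc]
    constructor
    · exact Int.ceil_le.2 (by linarith [hi.1])
    · exact Int.le_floor.2 (by linarith [hi.2])
  have h1 : S.ncard ≤ U.card := by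
    have := Set.ncard_le_ncard hsub (Finset.finite_toSet U)
    rwa [Set.ncard_coe_finset] at this
  have h2 : U.card ≤ ∑ i : Fin m, (Finset.Icc ⌈ζ i - R⌉ ⌊ζ i + R⌋).card := Finset.card_biUnion_le
  calc (S.ncard : ℝ) ≤ ((∑ i : Fin m, (Finset.Icc ⌈ζ i - R⌉ ⌊ζ i + R⌋).card : ℕ) : ℝ) := by
        exact_mod_cast h1.trans h2
    _ = ∑ i : Fin m, (((Finset.Icc ⌈ζ i - R⌉ ⌊ζ i + R⌋).card : ℕ) : ℝ) := by push_cast; rfl
    _ ≤ ∑ _i : Fin m, (2 * R + 1) := Finset.sum_le_sum (fun i _ => card_near (ζ i) R hR0)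
    _ = m * (2 * R + 1) := by
        rw [Finset.sum_const, Finset.card_univ, Fintype.card_fin, nsmul_eq_mul]
    _ ≤ 4 * (3 * R) := by
        have hm' : (m : ℝ) ≤ 4 := by exact_mod_cast hm4
        apply mul_le_mul hm' (by linarith) (by positivity) (by norm_num)
    _ = 12 * R := by ring

private theorem im_bound (q : ℕ) (r : ℝ) (hr : 1 ≤ r) (b : ℕ) (hb : 1 ≤ b) (x : ℤ)
    (h1 : (x : ℝ) ^ 2 + (b : ℝ) ^ 2 ≤ r ^ 2)
    (h2 : |(((x : ℂ) + b * Complex.I) ^ (-(q : ℤ))).im| * ‖(x : ℂ) + b * Complex.I‖ ^ q <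
        r ^ (-(1 / 1000 : ℝ))) :
    |(((x : ℂ) + b * Complex.I) ^ q).im| < r ^ (-(1 / 1000 : ℝ)) * r ^ q := by
  have hr0 : 0 < r := by linarith
  set w : ℂ := (x : ℂ) + b * Complex.I with hw
  have hwre : w.re = x := by rw [hw]; simp
  have hwim : w.im = b := by rw [hw]; simp
  have hnsq : ‖w‖ ^ 2 = (x : ℝ) ^ 2 + (b : ℝ) ^ 2 := by
    rw [← Complex.normSq_eq_norm_sq, Complex.normSq_apply, hwre, hwim]; ring
  have hb' : (1 : ℝ) ≤ b := by exact_mod_cast hb
  have hwpos : 0 < ‖w‖ := by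
    rcases (norm_nonneg w).lt_or_eq with h | h
    · exact h
    · rw [← h] at hnsq
      nlinarith [sq_nonneg (x : ℝ)]
  have hwle : ‖w‖ ≤ r := by
    apply le_of_sq_le_sq _ hr0.le
    rw [hnsq]; exact h1
  have hz : ‖w ^ q‖ = ‖w‖ ^ q := norm_pow _ _
  have e1 : |(w ^ (-(q : ℤ))).im| * ‖w‖ ^ q = |(w ^ q).im| / ‖w‖ ^ q := by
    rw [zpow_neg, zpow_natCast, Complex.inv_im, abs_div, abs_neg, Complex.normSq_eq_norm_sq, hz,
      abs_of_nonneg (by positivity : (0 : ℝ) ≤ (‖w‖ ^ q) ^ 2)]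
    field_simp
  rw [e1, div_lt_iff₀ (by positivity)] at h2
  refine h2.trans_le ?_
  exact mul_le_mul_of_nonneg_left (pow_le_pow_left₀ (norm_nonneg _) hwle q) (by positivity)

/-- `|Im (x + i b)^(-q)| |x + i b|^q = |Im (x + i b)^q| / |x + i b|^q`. The polynomial
`p(x) = Im (x + i b)^q` has degree `q - 1` and leading coefficient `q b`; if `x² + b² ≤ r²` is bad then
`|p x| < κ r^q` with `κ = r^(-1/1000)`, and as `b ≥ κ^(1/2) r` one of the `q - 1` complex roots `ζ` of `p`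
satisfies `|x - ζ| < κ^(1/(2(q-1))) r ≤ κ^(1/8) r`. So at most `4 (2 κ^(1/8) r + 1)` integers `x`. -/
theorem bad_card : ∃ C : ℝ, 0 < C ∧ ∀ (q : ℕ), 2 ≤ q → q ≤ 5 → ∀ (r : ℝ) (b : ℕ), 1 ≤ r →
    r ^ (1 - 1 / 2000 : ℝ) ≤ b →
    (Set.ncard {x : ℤ | (x : ℝ) ^ 2 + (b : ℝ) ^ 2 ≤ r ^ 2 ∧
      |(((x : ℂ) + b * Complex.I) ^ (-(q : ℤ))).im| * ‖(x : ℂ) + b * Complex.I‖ ^ q <
        r ^ (-(1 / 1000 : ℝ))} : ℝ) ≤ C * r ^ (1 - 1 / 8000 : ℝ) := by
  refine ⟨12, by norm_num, ?_⟩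
  intro q hq2 hq5 r b hr hb
  have hb1 : 1 ≤ b := by
    have h1 : (1 : ℝ) ≤ r ^ (1 - 1 / 2000 : ℝ) := Real.one_le_rpow hr (by norm_num)
    exact_mod_cast h1.trans hb
  have hb0 : (0 : ℝ) ≤ b := by positivity
  obtain rfl | rfl | rfl | rfl : q = 2 ∨ q = 3 ∨ q = 4 ∨ q = 5 := by omega
  · -- q = 2
    refine cover 1 (by norm_num) ![0] r hr b hb _ ?_
    rintro x ⟨h1, h2⟩
    have h3 := im_bound 2 r hr b hb1 x h1 h2
    refine lt_of_le_of_lt ?_ h3
    have e : ((((x : ℂ) + b * Complex.I) ^ 2).im : ℝ) = b * (2 * (x : ℝ)) := by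
      simp [pow_succ, Complex.mul_re, Complex.mul_im]; ring
    rw [e, abs_mul, abs_of_nonneg hb0, abs_mul]
    simp only [Fin.prod_univ_one, Matrix.cons_val_zero, sub_zero]
    refine mul_le_mul_of_nonneg_left ?_ hb0
    rw [abs_of_nonneg (by norm_num : (0 : ℝ) ≤ 2)]
    nlinarith [abs_nonneg (x : ℝ)]
  · -- q = 3
    set s : ℝ := Real.sqrt 3 with hs
    have hs2 : s ^ 2 = 3 := Real.sq_sqrt (by norm_num)
    have hs0 : s ≠ 0 := by rw [hs]; positivity
    refine cover 2 (by norm_num) ![(b : ℝ) / s, -((b : ℝ) / s)] r hr b hb _ ?_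
    rintro x ⟨h1, h2⟩
    have h3 := im_bound 3 r hr b hb1 x h1 h2
    refine lt_of_le_of_lt ?_ h3
    have e : ((((x : ℂ) + b * Complex.I) ^ 3).im : ℝ) =
        b * (3 * (((x : ℝ) - b / s) * ((x : ℝ) - -(b / s)))) := by
      have e1 : ((((x : ℂ) + b * Complex.I) ^ 3).im : ℝ) = b * (3 * (x : ℝ) ^ 2 - (b : ℝ) ^ 2) := by
        simp [pow_succ, Complex.mul_re, Complex.mul_im]; ring
      have e2 : 3 * (((x : ℝ) - b / s) * ((x : ℝ) - -(b / s))) =
          3 * (x : ℝ) ^ 2 - 3 * ((b : ℝ) ^ 2 / s ^ 2) := by field_simp; ring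
      rw [e1, e2, hs2]
      ring
    rw [e, abs_mul, abs_of_nonneg hb0, abs_mul, abs_mul]
    simp only [Fin.prod_univ_two, Matrix.cons_val_zero, Matrix.cons_val_one]
    refine mul_le_mul_of_nonneg_left ?_ hb0
    rw [abs_of_nonneg (by norm_num : (0 : ℝ) ≤ 3)]
    nlinarith [mul_nonneg (abs_nonneg ((x : ℝ) - b / s)) (abs_nonneg ((x : ℝ) - -(b / s)))]
  · -- q = 4
    refine cover 3 (by norm_num) ![0, (b : ℝ), -(b : ℝ)] r hr b hb _ ?_
    rintro x ⟨h1, h2⟩
    have h3 := im_bound 4 r hr b hb1 x h1 h2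
    refine lt_of_le_of_lt ?_ h3
    have e : ((((x : ℂ) + b * Complex.I) ^ 4).im : ℝ) =
        b * (4 * (((x : ℝ) - 0) * ((x : ℝ) - b) * ((x : ℝ) - -b))) := by
      simp [pow_succ, Complex.mul_re, Complex.mul_im]; ring
    rw [e, abs_mul, abs_of_nonneg hb0, abs_mul, abs_mul, abs_mul]
    rw [Fin.prod_univ_three]
    simp only [Matrix.cons_val_zero, Matrix.cons_val_one, Matrix.cons_val_two, Matrix.head_cons,
      Matrix.tail_cons]
    refine mul_le_mul_of_nonneg_left ?_ hb0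
    rw [abs_of_nonneg (by norm_num : (0 : ℝ) ≤ 4)]
    nlinarith [mul_nonneg (mul_nonneg (abs_nonneg ((x : ℝ) - 0)) (abs_nonneg ((x : ℝ) - b)))
      (abs_nonneg ((x : ℝ) - -b))]
  · -- q = 5
    set t : ℝ := 2 / Real.sqrt 5 with ht
    have ht2 : t ^ 2 = 4 / 5 := by
      rw [ht, div_pow, Real.sq_sqrt (by norm_num)]; norm_num
    have ht0 : 0 ≤ t := by rw [ht]; positivity
    have ht1 : t < 1 := by nlinarith
    set u : ℝ := Real.sqrt (1 + t) with hu
    set v : ℝ := Real.sqrt (1 - t) with hv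
    have hu2 : u ^ 2 = 1 + t := Real.sq_sqrt (by linarith)
    have hv2 : v ^ 2 = 1 - t := Real.sq_sqrt (by linarith)
    refine cover 4 (by norm_num) ![b * u, -(b * u), b * v, -(b * v)] r hr b hb _ ?_
    rintro x ⟨h1, h2⟩
    have h3 := im_bound 5 r hr b hb1 x h1 h2
    refine lt_of_le_of_lt ?_ h3
    have e : ((((x : ℂ) + b * Complex.I) ^ 5).im : ℝ) =
        b * (5 * (((x : ℝ) - b * u) * ((x : ℝ) - -(b * u)) * ((x : ℝ) - b * v) *
          ((x : ℝ) - -(b * v)))) := by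
      have e1 : ((((x : ℂ) + b * Complex.I) ^ 5).im : ℝ) =
          b * (5 * (x : ℝ) ^ 4 - 10 * (x : ℝ) ^ 2 * (b : ℝ) ^ 2 + (b : ℝ) ^ 4) := by
        simp [pow_succ, Complex.mul_re, Complex.mul_im]; ring
      have e2 : ((x : ℝ) - b * u) * ((x : ℝ) - -(b * u)) * ((x : ℝ) - b * v) *
          ((x : ℝ) - -(b * v)) = ((x : ℝ) ^ 2 - b ^ 2 * u ^ 2) * ((x : ℝ) ^ 2 - b ^ 2 * v ^ 2) := by
        ring
      rw [e1, e2, hu2, hv2]
      have e3 : 5 * (((x : ℝ) ^ 2 - b ^ 2 * (1 + t)) * ((x : ℝ) ^ 2 - b ^ 2 * (1 - t))) =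
          5 * (x : ℝ) ^ 4 - 10 * (x : ℝ) ^ 2 * (b : ℝ) ^ 2 + 5 * (b : ℝ) ^ 4 * (1 - t ^ 2) := by ring
      rw [e3, ht2]
      ring
    rw [e, abs_mul, abs_of_nonneg hb0, abs_mul, abs_mul, abs_mul, abs_mul]
    rw [Fin.prod_univ_four]
    simp only [Matrix.cons_val_zero, Matrix.cons_val_one, Matrix.cons_val_two, Matrix.cons_val_three,
      Matrix.head_cons, Matrix.tail_cons]
    refine mul_le_mul_of_nonneg_left ?_ hb0
    rw [abs_of_nonneg (by norm_num : (0 : ℝ) ≤ 5)]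
    nlinarith [mul_nonneg (mul_nonneg (mul_nonneg (abs_nonneg ((x : ℝ) - b * u))
      (abs_nonneg ((x : ℝ) - -(b * u)))) (abs_nonneg ((x : ℝ) - b * v)))
      (abs_nonneg ((x : ℝ) - -(b * v)))]

end Pool.Agent.GaussMR

end
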