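import Mathlib

/-!
# MP_f1a94e_nt: merged library part G03

Concatenation of files of the libraries `Lib_MP_f1a94e_*` (each in its own section), only to save build time.
-/

/-! ### from `Lib_MP_f1a94e_mr.MertOne` -/

section

/-!
# Piece MERTONE: Mertens' first theorem
-/

set_option autoImplicit false

namespace Pool.Agent.GaussMR

open Finset in
/-- `log N! = ∑_{n ≤ N} Λ(n) ⌊N/n⌋`. -/
theorem mert_one_log_factorial (N : ℕ) :
    Real.log (N.factorial : ℝ)
      = ∑ d ∈ Finset.Icc 1 N, ArithmeticFunction.vonMangoldt d * ((N / d : ℕ) : ℝ) := by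
  have h1 : Real.log (N.factorial : ℝ) = ∑ k ∈ Finset.Icc 1 N, Real.log (k : ℝ) := by
    rw [← Finset.prod_Ico_id_eq_factorial, show Finset.Ico 1 (N + 1) = Finset.Icc 1 N by
      ext x
      simp only [Finset.mem_Ico, Finset.mem_Icc]
      omega]
    push_cast
    rw [Real.log_prod]
    intro k hk
    have : 1 ≤ k := (Finset.mem_Icc.1 hk).1
    positivity
  rw [h1]
  have h2 : ∀ k ∈ Finset.Icc 1 N, Real.log (k : ℝ)
      = ∑ d ∈ Finset.Icc 1 N, if d ∣ k then ArithmeticFunction.vonMangoldt d else 0 := by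
    intro k hk
    have hk1 : 1 ≤ k := (Finset.mem_Icc.1 hk).1
    have hk2 : k ≤ N := (Finset.mem_Icc.1 hk).2
    rw [← ArithmeticFunction.vonMangoldt_sum, ← Finset.sum_filter]
    apply Finset.sum_congr _ fun _ _ => rfl
    ext d
    simp only [Nat.mem_divisors, Finset.mem_filter, Finset.mem_Icc]
    constructor
    · rintro ⟨hd, hk0⟩
      exact ⟨⟨Nat.pos_of_dvd_of_pos hd (by omega), (Nat.le_of_dvd (by omega) hd).trans hk2⟩, hd⟩
    · rintro ⟨_, hd⟩
      exact ⟨hd, by omega⟩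
  rw [Finset.sum_congr rfl h2, Finset.sum_comm]
  refine Finset.sum_congr rfl fun d hd => ?_
  rw [← Finset.sum_filter, Finset.sum_const, nsmul_eq_mul, mul_comm]
  congr 2
  rw [← Nat.Ioc_filter_dvd_card_eq_div N d]
  congr 1

/-- From `log N! = ∑_{n ≤ N} Λ(n) ⌊N/n⌋ = N log N + O(N)` and `∑_{n ≤ N} Λ(n) ≤ C N` (Chebyshev). -/
theorem mert_one : ∃ C : ℝ, ∀ N : ℕ, 1 ≤ N →
    |∑ n ∈ Finset.Icc 1 N, ArithmeticFunction.vonMangoldt n / (n : ℝ) - Real.log N| ≤ C := by
  refine ⟨Real.log 4 + 4, fun N hN => ?_⟩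
  have hNpos : (0 : ℝ) < N := by exact_mod_cast hN
  have hfac := mert_one_log_factorial N
  set S := ∑ n ∈ Finset.Icc 1 N, ArithmeticFunction.vonMangoldt n / (n : ℝ) with hS
  have hfpos : (0 : ℝ) < (N.factorial : ℝ) := by exact_mod_cast N.factorial_pos
  -- bounds of the factorial
  have hlow : (N : ℝ) * Real.log N - N ≤ Real.log (N.factorial : ℝ) := by
    have h1 := Real.pow_div_factorial_le_exp (N : ℝ) hNpos.le N
    have h2 := Real.log_le_log (by positivity) h1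
    rw [Real.log_exp, Real.log_div (by positivity) hfpos.ne', Real.log_pow] at h2
    linarith
  have hup : Real.log (N.factorial : ℝ) ≤ (N : ℝ) * Real.log N := by
    have h1 : (N.factorial : ℝ) ≤ (N : ℝ) ^ N := by exact_mod_cast Nat.factorial_le_pow N
    have h2 := Real.log_le_log hfpos h1
    rwa [Real.log_pow] at h2
  -- comparison of the sum with the floor
  have hNS : (N : ℝ) * S = ∑ d ∈ Finset.Icc 1 N,
      ArithmeticFunction.vonMangoldt d * ((N : ℝ) / d) := by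
    rw [hS, Finset.mul_sum]
    exact Finset.sum_congr rfl fun d _ => by ring
  have hge : Real.log (N.factorial : ℝ) ≤ (N : ℝ) * S := by
    rw [hfac, hNS]
    refine Finset.sum_le_sum fun d _ => ?_
    exact mul_le_mul_of_nonneg_left Nat.cast_div_le ArithmeticFunction.vonMangoldt_nonneg
  have hpsi : ∑ d ∈ Finset.Icc 1 N, ArithmeticFunction.vonMangoldt d ≤ (Real.log 4 + 4) * N := by
    have h1 := Chebyshev.psi_le_const_mul_self (x := (N : ℝ)) hNpos.le
    refine le_trans (le_of_eq ?_) h1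
    unfold Chebyshev.psi
    rw [Nat.floor_natCast]
    rfl
  have hle : (N : ℝ) * S ≤ Real.log (N.factorial : ℝ) + (Real.log 4 + 4) * N := by
    refine le_trans ?_ (add_le_add_right hpsi _)
    rw [hfac, hNS, ← Finset.sum_add_distrib]
    refine Finset.sum_le_sum fun d hd => ?_
    have hd1 : 1 ≤ d := (Finset.mem_Icc.1 hd).1
    have hdpos : (0 : ℝ) < d := by exact_mod_cast hd1
    have h3 : (N : ℝ) / d ≤ ((N / d : ℕ) : ℝ) + 1 := by
      rw [div_le_iff₀ hdpos]
      have h4 : N < d * (N / d + 1) := Nat.lt_mul_div_succ N hd1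
      have h5 : (N : ℝ) < d * (((N / d : ℕ) : ℝ) + 1) := by exact_mod_cast h4
      linarith
    calc ArithmeticFunction.vonMangoldt d * ((N : ℝ) / d)
        ≤ ArithmeticFunction.vonMangoldt d * (((N / d : ℕ) : ℝ) + 1) :=
          mul_le_mul_of_nonneg_left h3 ArithmeticFunction.vonMangoldt_nonneg
      _ = _ := by ring
  have hlog4 : 0 ≤ Real.log 4 := Real.log_nonneg (by norm_num)
  rw [abs_le]
  constructor
  · have h5 : (N : ℝ) * (Real.log N - 1) ≤ N * S := by linarith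
    have h6 := le_of_mul_le_mul_left h5 hNpos
    linarith
  · have h5 : (N : ℝ) * S ≤ N * (Real.log N + (Real.log 4 + 4)) := by linarith
    have h6 := le_of_mul_le_mul_left h5 hNpos
    linarith

end Pool.Agent.GaussMR

end

/-! ### from `Lib_MP_f1a94e_mr.MertChi` -/

section

/-!
# Piece MERTCHI: Mertens' first theorem twisted by the character mod 4
-/

set_option autoImplicit false

namespace Pool.Agent.GaussMR

open Filter Topology

/-- `χ(n) Λ(n) / n` -/
noncomputable def mcF : ArithmeticFunction ℝ :=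
  ⟨fun n => (ZMod.χ₄ (n : ZMod 4) : ℝ) * ArithmeticFunction.vonMangoldt n / (n : ℝ), by simp⟩

/-- `χ(n) / n` -/
noncomputable def mcG : ArithmeticFunction ℝ :=
  ⟨fun n => (ZMod.χ₄ (n : ZMod 4) : ℝ) / (n : ℝ), by simp⟩

theorem mcF_apply (n : ℕ) : mcF n =
    (ZMod.χ₄ (n : ZMod 4) : ℝ) * ArithmeticFunction.vonMangoldt n / (n : ℝ) := rfl

theorem mcG_apply (n : ℕ) : mcG n = (ZMod.χ₄ (n : ZMod 4) : ℝ) / (n : ℝ) := rfl

theorem mcF_mul_mcG (n : ℕ) :
    (mcF * mcG) n = (ZMod.χ₄ (n : ZMod 4) : ℝ) * (Real.log n / n) := by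
  rw [ArithmeticFunction.mul_apply]
  have h : ∀ p ∈ n.divisorsAntidiagonal, mcF p.1 * mcG p.2
      = ((ZMod.χ₄ (n : ZMod 4) : ℝ) / n) * ArithmeticFunction.vonMangoldt p.1 := by
    intro p hp
    obtain ⟨h1, h2⟩ := Nat.mem_divisorsAntidiagonal.1 hp
    rw [mcF_apply, mcG_apply, ← h1]
    push_cast
    rw [map_mul]
    push_cast
    rw [div_mul_div_comm, div_mul_eq_mul_div]
    ring
  rw [Finset.sum_congr rfl h, ← Finset.mul_sum,
    Nat.sum_divisorsAntidiagonal (fun a _ => ArithmeticFunction.vonMangoldt a),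
    ArithmeticFunction.vonMangoldt_sum]
  ring

/-- sums twisted by the character as alternating sums -/
theorem mc_alt (h : ℕ → ℝ) (k : ℕ) :
    ∑ d ∈ Finset.Ioc 0 k, (ZMod.χ₄ (d : ZMod 4) : ℝ) * h d
      = ∑ i ∈ Finset.range ((k + 1) / 2), (-1) ^ i * h (2 * i + 1) := by
  induction k with
  | zero => simp
  | succ k ih =>
    rw [Finset.sum_Ioc_succ_top (Nat.zero_le k), ih]
    rcases Nat.even_or_odd' k with ⟨j, rfl | rfl⟩
    · have e1 : (2 * j + 1) / 2 = j := by omega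
      have e2 : (2 * j + 1 + 1) / 2 = j + 1 := by omega
      rw [e1, e2, Finset.sum_range_succ]
      congr 1
      have e3 : ZMod.χ₄ ((2 * j + 1 : ℕ) : ZMod 4) = (-1) ^ j := by
        rw [ZMod.χ₄_eq_neg_one_pow (by omega), e1]
      rw [e3]
      push_cast
      ring
    · have e1 : (2 * j + 1 + 1) / 2 = j + 1 := by omega
      have e2 : (2 * j + 1 + 1 + 1) / 2 = j + 1 := by omega
      rw [e1, e2]
      have e3 : ZMod.χ₄ ((2 * j + 1 + 1 : ℕ) : ZMod 4) = 0 := by
        rw [ZMod.χ₄_nat_eq_if_mod_four, if_pos (by omega)]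
      rw [e3]
      simp

/-- the error bound for the Leibniz series -/
theorem mc_leibniz (n : ℕ) :
    |∑ i ∈ Finset.range n, (-1 : ℝ) ^ i * (1 / (2 * (i : ℝ) + 1)) - Real.pi / 4|
      ≤ 1 / (2 * (n : ℝ) + 1) := by
  have hanti : Antitone (fun i : ℕ => 1 / (2 * (i : ℝ) + 1)) := by
    intro i j hij
    have : (i : ℝ) ≤ j := by exact_mod_cast hij
    apply one_div_le_one_div_of_le (by positivity)
    linarith
  have hl : Tendsto (fun n => ∑ i ∈ Finset.range n, (-1 : ℝ) ^ i * (1 / (2 * (i : ℝ) + 1))) atTop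
      (𝓝 (Real.pi / 4)) := by
    refine (Real.tendsto_sum_pi_div_four).congr (fun n => ?_)
    refine Finset.sum_congr rfl (fun i _ => ?_)
    ring
  rcases Nat.even_or_odd' n with ⟨j, rfl | rfl⟩
  · have h1 := hanti.alternating_series_le_tendsto hl j
    have h2 := hanti.tendsto_le_alternating_series hl j
    rw [Finset.sum_range_succ] at h2
    have e : (-1 : ℝ) ^ (2 * j) = 1 := by simp
    rw [e, one_mul] at h2
    push_cast at h2 ⊢
    rw [abs_le]
    constructor <;> linarith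
  · have h1 := hanti.alternating_series_le_tendsto hl (j + 1)
    have h2 := hanti.tendsto_le_alternating_series hl j
    rw [show 2 * (j + 1) = 2 * j + 1 + 1 by ring, Finset.sum_range_succ] at h1
    have e : (-1 : ℝ) ^ (2 * j + 1) = -1 := by
      rw [pow_succ]; simp
    rw [e, neg_one_mul] at h1
    push_cast at h1 ⊢
    have h3 : 0 ≤ 1 / (2 * (2 * (j : ℝ) + 1) + 1) := by positivity
    rw [abs_le]
    constructor <;> linarith

/-- partial sums of an alternating series with an antitone sequence -/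
theorem mc_alt_bound (g : ℕ → ℝ) (hg : Antitone g) (h0 : ∀ n, 0 ≤ g n) (n : ℕ) :
    0 ≤ ∑ i ∈ Finset.range n, (-1 : ℝ) ^ i * g i ∧
      ∑ i ∈ Finset.range n, (-1 : ℝ) ^ i * g i ≤ g 0 := by
  have key : ∀ k : ℕ, 0 ≤ ∑ i ∈ Finset.range (2 * k), (-1 : ℝ) ^ i * g i ∧
      ∑ i ∈ Finset.range (2 * k), (-1 : ℝ) ^ i * g i + g (2 * k) ≤ g 0 := by
    intro k
    induction k with
    | zero => simp
    | succ k ih =>
      have e1 : (-1 : ℝ) ^ (2 * k) = 1 := by simp
      have e2 : (-1 : ℝ) ^ (2 * k + 1) = -1 := by rw [pow_succ]; simp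
      rw [show 2 * (k + 1) = 2 * k + 1 + 1 by ring, Finset.sum_range_succ, Finset.sum_range_succ,
        e1, e2]
      have h1 : g (2 * k + 1) ≤ g (2 * k) := hg (by omega)
      have h2 : g (2 * k + 1 + 1) ≤ g (2 * k + 1) := hg (by omega)
      constructor <;> linarith [ih.1, ih.2]
  rcases Nat.even_or_odd' n with ⟨j, rfl | rfl⟩
  · have := key j
    exact ⟨this.1, by linarith [this.2, h0 (2 * j)]⟩
  · have := key j
    rw [Finset.sum_range_succ]
    have e1 : (-1 : ℝ) ^ (2 * j) = 1 := by simp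
    rw [e1, one_mul]
    exact ⟨by linarith [this.1, h0 (2 * j)], this.2⟩

theorem mc_log_antitone :
    Antitone (fun i : ℕ => Real.log ((2 * (i + 1) + 1 : ℕ) : ℝ) / ((2 * (i + 1) + 1 : ℕ) : ℝ)) := by
  intro i j hij
  have he : Real.exp 1 ≤ 3 := by
    have := Real.exp_one_lt_d9
    linarith
  have h1 : (3 : ℝ) ≤ ((2 * (i + 1) + 1 : ℕ) : ℝ) := by
    push_cast
    have : (0 : ℝ) ≤ i := Nat.cast_nonneg i
    linarith
  have h2 : ((2 * (i + 1) + 1 : ℕ) : ℝ) ≤ ((2 * (j + 1) + 1 : ℕ) : ℝ) := by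
    have : 2 * (i + 1) + 1 ≤ 2 * (j + 1) + 1 := by omega
    exact_mod_cast this
  exact Real.log_div_self_antitoneOn (he.trans h1) (he.trans (h1.trans h2)) h2

/-- `∑ χ(n) log n / n` is bounded -/
theorem mc_T_bound (N : ℕ) :
    |∑ n ∈ Finset.Ioc 0 N, (ZMod.χ₄ (n : ZMod 4) : ℝ) * (Real.log n / n)| ≤ Real.log 3 / 3 := by
  rw [mc_alt (fun n => Real.log n / n)]
  have h3 : 0 ≤ Real.log 3 / 3 := by
    have : 0 ≤ Real.log 3 := Real.log_nonneg (by norm_num)
    positivity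
  rcases Nat.eq_zero_or_pos ((N + 1) / 2) with h | h
  · rw [h]
    simpa using h3
  · obtain ⟨n, hn⟩ := Nat.exists_eq_succ_of_ne_zero h.ne'
    rw [hn, Nat.succ_eq_add_one, Finset.sum_range_succ']
    have hb := mc_alt_bound _ mc_log_antitone (fun i => by
      have : (1 : ℝ) ≤ ((2 * (i + 1) + 1 : ℕ) : ℝ) := by
        have : 1 ≤ 2 * (i + 1) + 1 := by omega
        exact_mod_cast this
      have := Real.log_nonneg this
      positivity) n
    have e1 : ∑ k ∈ Finset.range n, (-1 : ℝ) ^ (k + 1) *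
        (Real.log ((2 * (k + 1) + 1 : ℕ) : ℝ) / ((2 * (k + 1) + 1 : ℕ) : ℝ))
        = -∑ k ∈ Finset.range n, (-1 : ℝ) ^ k *
        (Real.log ((2 * (k + 1) + 1 : ℕ) : ℝ) / ((2 * (k + 1) + 1 : ℕ) : ℝ)) := by
      rw [← Finset.sum_neg_distrib]
      refine Finset.sum_congr rfl (fun k _ => ?_)
      rw [pow_succ]
      ring
    rw [e1]
    have e2 : (-1 : ℝ) ^ 0 * (Real.log ((2 * 0 + 1 : ℕ) : ℝ) / ((2 * 0 + 1 : ℕ) : ℝ)) = 0 := by
      simp
    rw [e2, add_zero, abs_neg, abs_of_nonneg hb.1]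
    refine hb.2.trans (le_of_eq ?_)
    norm_num

/-- `∑_{n ≤ N} χ(n) log n / n` is bounded (alternating sum over odd `n` of an eventually decreasing
function) and equals `∑_{m ≤ N} (χ(m) Λ(m) / m) ∑_{d ≤ N/m} χ(d) / d`
`= L ∑_{m ≤ N} χ(m) Λ(m) / m + O(∑_{m ≤ N} (Λ(m) / m) (m / N))`, where `L = ∑ χ(d) / d ≥ 2/3` and the tail of
this alternating series after `y` is at most `1 / y` (up to a constant); `∑_{m ≤ N} Λ(m) ≤ C N`. -/
theorem mert_chi : ∃ C : ℝ, ∀ N : ℕ, 1 ≤ N →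
    |∑ n ∈ Finset.Icc 1 N, (ZMod.χ₄ (n : ZMod 4) : ℝ) * ArithmeticFunction.vonMangoldt n / (n : ℝ)| ≤
      C := by
  have hpi := Real.pi_pos
  refine ⟨(Real.log 3 / 3 + (Real.log 4 + 4)) * (4 / Real.pi), fun N hN => ?_⟩
  have hIcc : Finset.Icc 1 N = Finset.Ioc 0 N := by
    ext x; simp only [Finset.mem_Icc, Finset.mem_Ioc]; omega
  rw [hIcc]
  have hNpos : (0 : ℝ) < N := by exact_mod_cast hN
  have hT := mc_T_bound N
  have hconv := ArithmeticFunction.sum_Ioc_mul_eq_sum_sum mcF mcG N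
  rw [Finset.sum_congr rfl (fun n _ => mcF_mul_mcG n)] at hconv
  rw [hconv] at hT
  -- the inner sums
  have hinner : ∀ k : ℕ, |∑ d ∈ Finset.Ioc 0 k, mcG d - Real.pi / 4| ≤ 1 / ((k : ℝ) + 1) := by
    intro k
    have e1 : ∑ d ∈ Finset.Ioc 0 k, mcG d
        = ∑ i ∈ Finset.range ((k + 1) / 2), (-1 : ℝ) ^ i * (1 / (2 * (i : ℝ) + 1)) := by
      have e2 := mc_alt (fun d => 1 / (d : ℝ)) k
      have e3 : ∑ d ∈ Finset.Ioc 0 k, mcG d
          = ∑ d ∈ Finset.Ioc 0 k, (ZMod.χ₄ (d : ZMod 4) : ℝ) * (1 / (d : ℝ)) := by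
        refine Finset.sum_congr rfl (fun d _ => ?_)
        rw [mcG_apply]
        ring
      rw [e3, e2]
      refine Finset.sum_congr rfl (fun i _ => ?_)
      push_cast
      rfl
    rw [e1]
    refine (mc_leibniz _).trans ?_
    apply one_div_le_one_div_of_le (by positivity)
    have h1 : k ≤ 2 * ((k + 1) / 2) := by omega
    have h2 : (k : ℝ) ≤ 2 * (((k + 1) / 2 : ℕ) : ℝ) := by exact_mod_cast h1
    linarith
  have hchi : ∀ a : ZMod 4, |(ZMod.χ₄ a : ℝ)| ≤ 1 := by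
    intro a
    rcases ZMod.isQuadratic_χ₄ a with h | h | h <;> rw [h] <;> simp
  have hpsi : ∑ n ∈ Finset.Ioc 0 N, ArithmeticFunction.vonMangoldt n ≤ (Real.log 4 + 4) * N := by
    have h1 := Chebyshev.psi_le_const_mul_self (x := (N : ℝ)) hNpos.le
    refine le_trans (le_of_eq ?_) h1
    unfold Chebyshev.psi
    rw [Nat.floor_natCast]
  set M : ℝ := ∑ n ∈ Finset.Ioc 0 N, mcF n with hM
  have hdiff : |∑ n ∈ Finset.Ioc 0 N, mcF n * ∑ d ∈ Finset.Ioc 0 (N / n), mcG d
      - Real.pi / 4 * M| ≤ Real.log 4 + 4 := by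
    have e1 : ∑ n ∈ Finset.Ioc 0 N, mcF n * ∑ d ∈ Finset.Ioc 0 (N / n), mcG d
        - Real.pi / 4 * M
        = ∑ n ∈ Finset.Ioc 0 N, mcF n * (∑ d ∈ Finset.Ioc 0 (N / n), mcG d - Real.pi / 4) := by
      rw [hM, Finset.mul_sum, ← Finset.sum_sub_distrib]
      refine Finset.sum_congr rfl (fun n _ => ?_)
      ring
    rw [e1]
    refine (Finset.abs_sum_le_sum_abs _ _).trans ?_
    have h1 : ∀ n ∈ Finset.Ioc 0 N, |mcF n * (∑ d ∈ Finset.Ioc 0 (N / n), mcG d - Real.pi / 4)|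
        ≤ ArithmeticFunction.vonMangoldt n / N := by
      intro n hn
      rw [Finset.mem_Ioc] at hn
      have hn0 : (0 : ℝ) < n := by exact_mod_cast hn.1
      have hv : 0 ≤ ArithmeticFunction.vonMangoldt n := ArithmeticFunction.vonMangoldt_nonneg
      rw [abs_mul]
      have h2 : |mcF n| ≤ ArithmeticFunction.vonMangoldt n / n := by
        rw [mcF_apply, abs_div, abs_mul, abs_of_nonneg hv, abs_of_pos hn0]
        apply div_le_div_of_nonneg_right _ hn0.le
        have := hchi (n : ZMod 4)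
        nlinarith
      have h3 : |∑ d ∈ Finset.Ioc 0 (N / n), mcG d - Real.pi / 4| ≤ n / N := by
        refine (hinner (N / n)).trans ?_
        rw [div_le_div_iff₀ (by positivity) hNpos, one_mul]
        have h4 : N < n * (N / n + 1) := by
          have := Nat.lt_mul_div_succ N hn.1
          simpa [Nat.succ_eq_add_one] using this
        have h5 : (N : ℝ) < n * (((N / n : ℕ) : ℝ) + 1) := by exact_mod_cast h4
        linarith
      calc |mcF n| * |∑ d ∈ Finset.Ioc 0 (N / n), mcG d - Real.pi / 4|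
          ≤ (ArithmeticFunction.vonMangoldt n / n) * (n / N) := by
            apply mul_le_mul h2 h3 (abs_nonneg _) (by positivity)
        _ = ArithmeticFunction.vonMangoldt n / N := by
            field_simp
    refine (Finset.sum_le_sum h1).trans ?_
    rw [← Finset.sum_div, div_le_iff₀ hNpos]
    exact hpsi
  have hMeq : ∑ n ∈ Finset.Ioc 0 N, (ZMod.χ₄ (n : ZMod 4) : ℝ) *
      ArithmeticFunction.vonMangoldt n / (n : ℝ) = M := rfl
  rw [hMeq]
  have h6 : |Real.pi / 4 * M| ≤ Real.log 3 / 3 + (Real.log 4 + 4) := by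
    have h7 := abs_le.1 hdiff
    have h8 := abs_le.1 hT
    rw [abs_le]
    constructor <;> linarith [h7.1, h7.2, h8.1, h8.2]
  rw [abs_mul, abs_of_pos (by positivity : (0 : ℝ) < Real.pi / 4)] at h6
  have h9 : |M| = (Real.pi / 4 * |M|) * (4 / Real.pi) := by
    field_simp
  rw [h9]
  exact mul_le_mul_of_nonneg_right h6 (by positivity)

end Pool.Agent.GaussMR

end

/-! ### from `Lib_MP_f1a94e_mr.MertensA` -/

section

/-!
# Piece MERTENSA: Mertens' first theorem for primes `1 mod 4`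
-/

set_option autoImplicit false

namespace Pool.Agent.GaussMR

/-- The proper prime powers contribute a bounded amount. -/
theorem mertensA_powers : ∃ C : ℝ, ∀ N : ℕ, ∑ n ∈ Finset.Icc 1 N,
    (if n.Prime then 0 else ArithmeticFunction.vonMangoldt n) / (n : ℝ) ≤ C := by
  have h := ArithmeticFunction.vonMangoldt.summable_residueClass_non_primes_div (0 : ZMod 1)
  have e : ∀ n : ℕ, (if n.Prime then 0 else ArithmeticFunction.vonMangoldt.residueClass
      (0 : ZMod 1) n) / (n : ℝ) =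
      (if n.Prime then 0 else ArithmeticFunction.vonMangoldt n) / (n : ℝ) := by
    intro n
    congr 1
    split_ifs
    · rfl
    · rw [ArithmeticFunction.vonMangoldt.residueClass, Set.indicator_of_mem]
      exact Subsingleton.elim _ _
  simp only [e] at h
  refine ⟨∑' n : ℕ, (if n.Prime then 0 else ArithmeticFunction.vonMangoldt n) / (n : ℝ),
    fun N => h.sum_le_tsum _ fun n _ => ?_⟩
  split_ifs
  · simp
  · exact div_nonneg ArithmeticFunction.vonMangoldt_nonneg n.cast_nonneg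

/-- half the sum of `mert_one` and `mert_chi`: `(1 + χ(n)) / 2` is the indicator of `n = 1 mod 4` up to
even numbers; powers of 2 and proper prime powers contribute `O(1)`; `log ⌊x⌋ = log x + O(1)` -/
theorem mertens_log : ∃ C : ℝ, ∀ x : ℝ, 2 ≤ x →
    |∑ p ∈ (Finset.Icc 1 ⌊x⌋₊).filter (fun p => p.Prime ∧ p % 4 = 1), Real.log p / p -
      Real.log x / 2| ≤ C := by
  obtain ⟨C1, h1⟩ := mert_one
  obtain ⟨C2, h2⟩ := mert_chi
  obtain ⟨C3, h3⟩ := mertensA_powers
  refine ⟨C1 / 2 + C2 / 2 + (C3 + 1) + Real.log 2 / 2, fun x hx => ?_⟩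
  set N := ⌊x⌋₊ with hN
  have hN1 : 1 ≤ N := by
    rw [hN, Nat.one_le_floor_iff]
    linarith
  have hNpos : (0 : ℝ) < N := by exact_mod_cast hN1
  have k1 := h1 N hN1
  have k2 := h2 N hN1
  have k3 := h3 N
  set S1 := ∑ n ∈ Finset.Icc 1 N, ArithmeticFunction.vonMangoldt n / (n : ℝ) with hS1
  set S2 := ∑ n ∈ Finset.Icc 1 N,
    (ZMod.χ₄ (n : ZMod 4) : ℝ) * ArithmeticFunction.vonMangoldt n / (n : ℝ) with hS2
  set A := ∑ p ∈ (Finset.Icc 1 N).filter (fun p => p.Prime ∧ p % 4 = 1), Real.log p / p with hA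
  -- comparison of the logarithms
  have hlog : |Real.log N - Real.log x| ≤ Real.log 2 := by
    have a1 : (N : ℝ) ≤ x := Nat.floor_le (by linarith)
    have a2 : x ≤ 2 * N := by
      have := Nat.lt_floor_add_one x
      rw [← hN] at this
      have : (1 : ℝ) ≤ N := by exact_mod_cast hN1
      linarith
    have b1 := Real.log_le_log hNpos a1
    have b2 := Real.log_le_log (by linarith) a2
    rw [Real.log_mul (by norm_num) hNpos.ne'] at b2
    rw [abs_le]
    constructor <;> linarith [Real.log_nonneg (by norm_num : (1 : ℝ) ≤ 2)]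
  -- termwise comparison
  have hterm : ∀ n ∈ Finset.Icc 1 N,
      |(if n.Prime ∧ n % 4 = 1 then Real.log n / (n : ℝ) else 0) -
        (ArithmeticFunction.vonMangoldt n / (n : ℝ) +
          (ZMod.χ₄ (n : ZMod 4) : ℝ) * ArithmeticFunction.vonMangoldt n / (n : ℝ)) / 2| ≤
      (if n.Prime then 0 else ArithmeticFunction.vonMangoldt n) / (n : ℝ) +
        (if n = 2 then 1 else 0) := by
    intro n hn
    have hn1 : 1 ≤ n := (Finset.mem_Icc.1 hn).1
    have hnpos : (0 : ℝ) < n := by exact_mod_cast hn1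
    by_cases hp : n.Prime
    · have hΛ : ArithmeticFunction.vonMangoldt n = Real.log n :=
        ArithmeticFunction.vonMangoldt_apply_prime hp
      rw [if_pos hp, zero_div, zero_add, hΛ]
      rcases hp.eq_two_or_odd with h2 | hodd
      · subst h2
        have hχ : ZMod.χ₄ ((2 : ℕ) : ZMod 4) = 0 := by decide
        rw [hχ]
        simp only [Nat.reduceMod, Int.cast_zero, if_true]
        have l1 := Real.log_two_lt_d9
        have l2 := Real.log_two_gt_d9
        rw [if_neg (by norm_num), abs_le]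
        push_cast
        constructor <;> linarith
      · have hne : n ≠ 2 := by
          rintro rfl
          simp at hodd
        rw [if_neg hne]
        have h4 : n % 4 = 1 ∨ n % 4 = 3 := by omega
        rcases h4 with h4 | h4
        · rw [ZMod.χ₄_nat_one_mod_four h4, if_pos ⟨hp, h4⟩]
          simp
        · rw [ZMod.χ₄_nat_three_mod_four h4, if_neg (by omega)]
          simp [neg_div]
    · have hne : n ≠ 2 := by
        rintro rfl
        exact hp Nat.prime_two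
      rw [if_neg hp, if_neg hne, if_neg (fun h => hp h.1), add_zero, zero_sub, abs_neg]
      have hΛ : 0 ≤ ArithmeticFunction.vonMangoldt n / (n : ℝ) :=
        div_nonneg ArithmeticFunction.vonMangoldt_nonneg hnpos.le
      have hχ : |(ZMod.χ₄ (n : ZMod 4) : ℝ)| ≤ 1 := by
        rw [ZMod.χ₄_nat_eq_if_mod_four]
        split_ifs <;> norm_num
      rw [mul_div_assoc]
      set L := ArithmeticFunction.vonMangoldt n / (n : ℝ) with hL
      set c := (ZMod.χ₄ (n : ZMod 4) : ℝ) with hc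
      rw [abs_le] at hχ ⊢
      constructor <;> nlinarith [hχ.1, hχ.2]
  have hAsum : A = ∑ n ∈ Finset.Icc 1 N, (if n.Prime ∧ n % 4 = 1 then Real.log n / (n : ℝ) else 0) := by
    rw [hA, Finset.sum_filter]
  have hdiff : |A - (S1 + S2) / 2| ≤ C3 + 1 := by
    have e1 : A - (S1 + S2) / 2 = ∑ n ∈ Finset.Icc 1 N,
        ((if n.Prime ∧ n % 4 = 1 then Real.log n / (n : ℝ) else 0) -
        (ArithmeticFunction.vonMangoldt n / (n : ℝ) +
          (ZMod.χ₄ (n : ZMod 4) : ℝ) * ArithmeticFunction.vonMangoldt n / (n : ℝ)) / 2) := by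
      rw [Finset.sum_sub_distrib, ← hAsum, ← Finset.sum_div, Finset.sum_add_distrib]
    rw [e1]
    refine (Finset.abs_sum_le_sum_abs _ _).trans ((Finset.sum_le_sum hterm).trans ?_)
    rw [Finset.sum_add_distrib]
    refine add_le_add k3 ?_
    rw [Finset.sum_ite_eq']
    split_ifs <;> norm_num
  have e2 : A - Real.log x / 2 = (A - (S1 + S2) / 2) + (S1 - Real.log N) / 2 + S2 / 2 +
      (Real.log N - Real.log x) / 2 := by ring
  rw [e2]
  have t1 : |(S1 - Real.log N) / 2| ≤ C1 / 2 := by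
    rw [abs_div, abs_of_pos (by norm_num : (0 : ℝ) < 2)]
    linarith
  have t2 : |S2 / 2| ≤ C2 / 2 := by
    rw [abs_div, abs_of_pos (by norm_num : (0 : ℝ) < 2)]
    linarith
  have t3 : |(Real.log N - Real.log x) / 2| ≤ Real.log 2 / 2 := by
    rw [abs_div, abs_of_pos (by norm_num : (0 : ℝ) < 2)]
    linarith
  refine (abs_add_le _ _).trans ?_
  have u1 := abs_add_le (A - (S1 + S2) / 2 + (S1 - Real.log N) / 2) (S2 / 2)
  have u2 := abs_add_le (A - (S1 + S2) / 2) ((S1 - Real.log N) / 2)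
  linarith

end Pool.Agent.GaussMR

end

/-! ### from `Lib_MP_f1a94e_lp.VDefs` -/

section

/-!
# MP_f1a94e_nt, joint law of the large prime factors: elementary definitions
-/

set_option autoImplicit false

namespace Pool.Agent.LPr

open Finset Filter

/-- product of `φ (log p / log X)` over the prime factors of `n` with multiplicity -/
noncomputable def gx (φ : ℝ → ℂ) (X : ℝ) (n : ℕ) : ℂ :=
  (n.primeFactorsList.map (fun p : ℕ => φ (Real.log p / Real.log X))).prod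

/-- step functions of modulus one, equal to one outside finitely many intervals `(u, v]`, `0 < u` -/
structure StepF (φ : ℝ → ℂ) : Prop where
  un : ∀ t, ‖φ t‖ = 1
  ex : ∃ (r : ℕ) (c : Fin r → ℂ) (u v : Fin r → ℝ), (∀ i, 0 < u i ∧ u i ≤ v i) ∧
    ∀ t, φ t = 1 + ∑ i, if u i < t ∧ t ≤ v i then c i else 0

/-- the mean value over the integers -/
noncomputable def mu (φ : ℝ → ℂ) : ℂ := limUnder atTop (fun X : ℝ => (∑ n ∈ Icc 1 ⌊X⌋₊, gx φ X n) / X)

open Classical in
/-- the mean value of `w ^ Ω(n) gx φ X n` -/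
noncomputable def mm (w : ℂ) (φ : ℝ → ℂ) : ℂ := if w = 1 then mu φ else 0

/-! ### Windows -/

open Classical in
/-- the primes in `(X^u, X^v]` -/
noncomputable def PW (X u v : ℝ) : Finset ℕ := (Icc 1 ⌊X ^ v⌋₊).filter (fun p => p.Prime ∧ X ^ u < (p : ℝ))

/-- `∑ g p / p` over the primes of `(X^u, X^v]` tends to `log (v / u)` -/
structure Mert (g : ℕ → ℝ) : Prop where
  nn : ∀ p, 0 ≤ g p
  lim : ∀ u v : ℝ, 0 < u → u ≤ v →
    Tendsto (fun X : ℝ => ∑ p ∈ PW X u v, g p / p) atTop (nhds (Real.log (v / u)))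

/-- lists of windows -/
def Win (l : List (ℝ × ℝ)) : Prop := ∀ w ∈ l, 0 < w.1 ∧ w.1 ≤ w.2

/-- sum of `∏ g(p_i)/p_i` over the tuples of primes, `p_i` in the `i`-th window, with product at most `X^s` -/
noncomputable def SW (g : ℕ → ℝ) (X : ℝ) : List (ℝ × ℝ) → ℝ → ℝ
  | [], s => if 0 ≤ s then 1 else 0
  | w :: l, s => ∑ p ∈ PW X w.1 w.2, g p / p * SW g X l (s - Real.log p / Real.log X)

/-- the number of tuples of primes, `p_i` in the `i`-th window, with product dividing `n` -/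
noncomputable def TW (X : ℝ) : List (ℝ × ℝ) → ℕ → ℝ
  | [], _ => 1
  | w :: l, n => ∑ p ∈ (PW X w.1 w.2).filter (fun p => p ∣ n), TW X l (n / p)

/-- the limit of `SW` at `s = 1` -/
noncomputable def NW (l : List (ℝ × ℝ)) : ℝ := limUnder atTop (fun X : ℝ => SW (fun _ => 1) X l 1)

/-- expansion of `(∑_i c_i W_i)^j` applied to a functional of lists of windows -/
noncomputable def expd {r : ℕ} (c : Fin r → ℂ) (u v : Fin r → ℝ) : ℕ → (List (ℝ × ℝ) → ℂ) → ℂ
  | 0, Λ => Λ []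
  | j + 1, Λ => ∑ i, c i * expd c u v j (fun l => Λ ((u i, v i) :: l))

/-- the mean value in terms of the limits `NW` -/
noncomputable def EV {r : ℕ} (c : Fin r → ℂ) (u v : Fin r → ℝ) (J : ℕ) : ℂ :=
  ∑ j ∈ range (J + 1), (1 / (j.factorial : ℂ)) * expd c u v j (fun l => (NW l : ℂ))

open Classical in
/-- the number of prime factors of `n` in `(x^u, x^v]`, with multiplicity -/
noncomputable def wc (x u v : ℝ) (n : ℕ) : ℕ :=
  (n.primeFactorsList.filter (fun p : ℕ => x ^ u < (p : ℝ) ∧ (p : ℝ) ≤ x ^ v)).length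

theorem mem_PW {X u v : ℝ} (hX : 0 ≤ X) {p : ℕ} : p ∈ PW X u v ↔ p.Prime ∧ X ^ u < (p : ℝ) ∧ (p : ℝ) ≤ X ^ v := by
  classical
  unfold PW
  rw [mem_filter, mem_Icc]
  constructor
  · rintro ⟨⟨-, h1⟩, h2, h3⟩
    exact ⟨h2, h3, (Nat.le_floor_iff (Real.rpow_nonneg hX v)).1 h1⟩
  · rintro ⟨h1, h2, h3⟩
    exact ⟨⟨h1.one_lt.le, Nat.le_floor h3⟩, h1, h2⟩

end Pool.Agent.LPr

end

/-! ### from `Lib_MP_f1a94e_lp.SWb` -/

section

/-!
# Piece SWB: simple facts on `SW`
-/

set_option autoImplicit false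

namespace Pool.Agent.LPr

open Finset Filter

/-- induction on `l` -/
theorem sw_nn (g : ℕ → ℝ) (hg : ∀ p, 0 ≤ g p) (X : ℝ) (l : List (ℝ × ℝ)) (s : ℝ) : 0 ≤ SW g X l s := by
  induction l generalizing s with
  | nil =>
    unfold SW
    split_ifs
    · exact zero_le_one
    · exact le_rfl
  | cons w l ih =>
    unfold SW
    exact Finset.sum_nonneg (fun p _ => mul_nonneg (div_nonneg (hg p) (Nat.cast_nonneg p)) (ih _))

/-- induction on `l` -/
theorem sw_mono (g : ℕ → ℝ) (hg : ∀ p, 0 ≤ g p) (X : ℝ) (l : List (ℝ × ℝ)) (s t : ℝ) (h : s ≤ t) :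
    SW g X l s ≤ SW g X l t := by
  induction l generalizing s t with
  | nil =>
    unfold SW
    split_ifs with h1 h2
    · exact le_rfl
    · exact absurd (h1.trans h) h2
    · exact zero_le_one
    · exact le_rfl
  | cons w l ih =>
    unfold SW
    exact Finset.sum_le_sum (fun p _ => mul_le_mul_of_nonneg_left
      (ih _ _ (sub_le_sub_right h _)) (div_nonneg (hg p) (Nat.cast_nonneg p)))

/-- the mass of a window is eventually at most its limit plus one -/
private theorem swb_mass (g : ℕ → ℝ) (hg : Mert g) (u v : ℝ) (hu : 0 < u) (huv : u ≤ v) (δ : ℝ)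
    (hδ : 0 < δ) :
    ∀ᶠ X : ℝ in atTop, ∑ p ∈ PW X u v, g p / p ≤ Real.log (v / u) + δ :=
  (hg.lim u v hu huv).eventually (Iic_mem_nhds (lt_add_of_pos_right _ hδ))

/-- induction on `l`: `B_(w :: l) = (log (w.2 / w.1) + 1) B_l` -/
theorem sw_bd (g : ℕ → ℝ) (hg : Mert g) (l : List (ℝ × ℝ)) (hl : Win l) :
    ∃ B : ℝ, 0 ≤ B ∧ ∀ᶠ X : ℝ in atTop, ∀ s : ℝ, SW g X l s ≤ B := by
  induction l with
  | nil =>
    refine ⟨1, zero_le_one, Eventually.of_forall (fun X s => ?_)⟩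
    unfold SW
    split_ifs
    · exact le_rfl
    · exact zero_le_one
  | cons w l ih =>
    obtain ⟨B, hB, hB2⟩ := ih (fun w' hw' => hl w' (List.mem_cons_of_mem _ hw'))
    obtain ⟨hw1, hw2⟩ := hl w List.mem_cons_self
    have hlog : 0 ≤ Real.log (w.2 / w.1) := Real.log_nonneg ((one_le_div hw1).mpr hw2)
    refine ⟨(Real.log (w.2 / w.1) + 1) * B, mul_nonneg (by linarith) hB, ?_⟩
    filter_upwards [hB2, swb_mass g hg w.1 w.2 hw1 hw2 1 one_pos] with X h1 h2 s
    unfold SW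
    calc ∑ p ∈ PW X w.1 w.2, g p / p * SW g X l (s - Real.log p / Real.log X)
        ≤ ∑ p ∈ PW X w.1 w.2, g p / p * B :=
          Finset.sum_le_sum (fun p _ => mul_le_mul_of_nonneg_left (h1 _)
            (div_nonneg (hg.nn p) (Nat.cast_nonneg p)))
      _ = (∑ p ∈ PW X w.1 w.2, g p / p) * B := by rw [Finset.sum_mul]
      _ ≤ (Real.log (w.2 / w.1) + 1) * B := mul_le_mul_of_nonneg_right h2 hB

private theorem swb_grid (u ρ : ℝ) (N : ℕ) (x : ℝ) (h1 : u ≤ x) (h2 : x < u * ρ ^ N) :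
    ∃ i : ℕ, i < N ∧ u * ρ ^ i ≤ x ∧ x < u * ρ ^ (i + 1) := by
  induction N with
  | zero =>
    rw [pow_zero, mul_one] at h2
    exact absurd h2 (not_lt.mpr h1)
  | succ n ih =>
    by_cases h3 : x < u * ρ ^ n
    · obtain ⟨i, hi, h4⟩ := ih h3
      exact ⟨i, hi.trans (Nat.lt_succ_self n), h4⟩
    · exact ⟨n, Nat.lt_succ_self n, not_lt.mp h3, h2⟩

open Classical in
/-- small windows have small mass -/
private theorem swb_small (g : ℕ → ℝ) (hg : Mert g) (u v : ℝ) (hu : 0 < u) (huv : u ≤ v) (ε : ℝ)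
    (hε : 0 < ε) :
    ∃ η : ℝ, 0 < η ∧ ∀ᶠ X : ℝ in atTop, ∀ s : ℝ,
      ∑ p ∈ (PW X u v).filter (fun p : ℕ => s < Real.log p / Real.log X ∧
        Real.log p / Real.log X ≤ s + η), g p / p ≤ ε := by
  rcases eq_or_lt_of_le huv with h | h
  · refine ⟨1, one_pos, ?_⟩
    filter_upwards [eventually_ge_atTop (0 : ℝ)] with X hX s
    rw [Finset.sum_eq_zero]
    · exact hε.le
    · intro p hp
      have h1 := (mem_PW hX).mp (Finset.mem_filter.mp hp).1
      rw [h] at h1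
      exact absurd h1.2.2 (not_le.mpr h1.2.1)
  · have hq : 1 < v / u := (one_lt_div hu).mpr h
    have hlog : 0 < Real.log (v / u) := Real.log_pos hq
    obtain ⟨N, hN⟩ := exists_nat_gt (4 * Real.log (v / u) / ε)
    have hN0 : (0 : ℝ) < N := lt_of_le_of_lt (by positivity) hN
    have hN1 : N ≠ 0 := by
      rintro rfl
      simp at hN0
    obtain ⟨ρ, hρdef⟩ : ∃ ρ : ℝ, ρ = Real.exp (Real.log (v / u) / N) := ⟨_, rfl⟩
    have hρ1 : 1 < ρ := by
      rw [hρdef]
      exact Real.one_lt_exp_iff.mpr (div_pos hlog hN0)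
    have hρ0 : 0 < ρ := lt_trans one_pos hρ1
    have hρN : u * ρ ^ N = v := by
      rw [hρdef, ← Real.exp_nat_mul, mul_div_cancel₀ _ hN0.ne', Real.exp_log (lt_trans one_pos hq)]
      field_simp
    have hlρ : Real.log ρ = Real.log (v / u) / N := by
      rw [hρdef, Real.log_exp]
    refine ⟨u * (ρ - 1), mul_pos hu (by linarith), ?_⟩
    have hev : ∀ᶠ X : ℝ in atTop, ∀ i ∈ Finset.range N,
        ∑ p ∈ PW X (u * ρ ^ i) (u * ρ ^ (i + 2)), g p / p ≤ ε := by
      rw [Filter.eventually_all_finset]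
      intro i _
      have h1 := swb_mass g hg (u * ρ ^ i) (u * ρ ^ (i + 2)) (by positivity)
        (mul_le_mul_of_nonneg_left (pow_le_pow_right₀ hρ1.le (by omega)) hu.le) (ε / 2)
        (by linarith)
      filter_upwards [h1] with X hX
      refine hX.trans ?_
      have h2 : u * ρ ^ (i + 2) / (u * ρ ^ i) = ρ ^ 2 := by
        rw [mul_div_mul_left _ _ hu.ne', pow_add]
        field_simp
      rw [h2, Real.log_pow, hlρ]
      have h3 : 4 * Real.log (v / u) < N * ε := (div_lt_iff₀ hε).mp hN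
      have h4 : Real.log (v / u) / N < ε / 4 := by
        rw [div_lt_div_iff₀ hN0 (by norm_num)]
        linarith
      push_cast
      linarith
    filter_upwards [hev, eventually_gt_atTop (1 : ℝ)] with X hX hX1 s
    have hlX : 0 < Real.log X := Real.log_pos hX1
    have hX0 : (0 : ℝ) < X := lt_trans one_pos hX1
    -- position of a prime
    have hpos : ∀ p ∈ PW X u v, u < Real.log p / Real.log X ∧ Real.log p / Real.log X ≤ v := by
      intro p hp
      obtain ⟨hp1, hp2, hp3⟩ := (mem_PW hX0.le).mp hp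
      have hp0 : (0 : ℝ) < p := by exact_mod_cast hp1.pos
      constructor
      · rw [lt_div_iff₀ hlX, ← Real.log_rpow hX0]
        exact Real.log_lt_log (Real.rpow_pos_of_pos hX0 u) hp2
      · rw [div_le_iff₀ hlX, ← Real.log_rpow hX0]
        exact Real.log_le_log hp0 hp3
    by_cases hs : max s u < v
    · rw [← hρN] at hs
      obtain ⟨i, hi, hi1, hi2⟩ := swb_grid u ρ N (max s u) (le_max_right _ _) hs
      refine le_trans ?_ (hX i (Finset.mem_range.mpr hi))
      refine Finset.sum_le_sum_of_subset_of_nonneg ?_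
        (fun p _ _ => div_nonneg (hg.nn p) (Nat.cast_nonneg p))
      intro p hp
      obtain ⟨hp1, hp2, hp3⟩ := Finset.mem_filter.mp hp
      obtain ⟨hq1, hq2⟩ := hpos p hp1
      obtain ⟨hr1, hr2, hr3⟩ := (mem_PW hX0.le).mp hp1
      have hp0 : (0 : ℝ) < p := by exact_mod_cast hr1.pos
      have h5 : max s u < Real.log p / Real.log X := max_lt hp2 hq1
      have h6 : Real.log p / Real.log X ≤ u * ρ ^ (i + 2) := by
        have h7 : s ≤ max s u := le_max_left _ _
        have h8 : u * (ρ - 1) ≤ u * ρ ^ (i + 1) * (ρ - 1) := by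
          have h9 : (1 : ℝ) ≤ ρ ^ (i + 1) := one_le_pow₀ hρ1.le
          have h10 : 0 ≤ u * (ρ - 1) := mul_nonneg hu.le (by linarith)
          nlinarith
        have h11 : u * ρ ^ (i + 2) = u * ρ ^ (i + 1) + u * ρ ^ (i + 1) * (ρ - 1) := by ring
        linarith
      have h12 : u * ρ ^ i < Real.log p / Real.log X := lt_of_le_of_lt hi1 h5
      have hpe : (p : ℝ) = X ^ (Real.log p / Real.log X) := by
        rw [Real.rpow_def_of_pos hX0, mul_div_cancel₀ _ hlX.ne', Real.exp_log hp0]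
      rw [mem_PW hX0.le]
      refine ⟨hr1, ?_, ?_⟩
      · rw [hpe]
        exact Real.rpow_lt_rpow_of_exponent_lt hX1 h12
      · conv_lhs => rw [hpe]
        exact Real.rpow_le_rpow_of_exponent_le hX1.le h6
    · rw [Finset.sum_eq_zero]
      · exact hε.le
      · intro p hp
        obtain ⟨hp1, hp2, hp3⟩ := Finset.mem_filter.mp hp
        obtain ⟨hq1, hq2⟩ := hpos p hp1
        exact absurd (lt_of_lt_of_le (max_lt hp2 hq1) hq2) hs

/-- PROOF. Small windows have small mass, uniformly: for `ε > 0` and `0 < u ≤ v` there is `η > 0` such that for `X` large and ALL real `s`, the sum of `g p / p` over the `p ∈ PW X u v` with `s < log p / log X ≤ s + η` is at most `ε`: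
take the grid `u = t_0 < ... < t_N = v`, `t_i = u (v/u)^(i/N)` with `log (v/u) / N ≤ ε / 4`, `η = min_i (t_(i+1) - t_i)`; an interval `(s, s + η]` meets at most two of the windows `(t_i, t_(i+1)]`, and each of these finitely many windows has mass `≤ ε / 2` for `X` large (`Mert.lim`).
(If `u = v` the window is empty.) Then induction on `l`: for `l = [w]`, `SW [w] (s + η) - SW [w] s = ∑_(p, s < log p / log X ≤ s + η) g p / p ≤ ε`. For `l = w :: l'`, `l' ≠ []`:
`SW l (s + η) - SW l s = ∑_p g p / p (SW l' (s + η - log p / log X) - SW l' (s - log p / log X)) ≤ ε' ∑_p g p / p ≤ ε' (log (w.2 / w.1) + 1)`. -/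
theorem sw_equi (g : ℕ → ℝ) (hg : Mert g) (l : List (ℝ × ℝ)) (hl : Win l) (hne : l ≠ []) (ε : ℝ) (hε : 0 < ε) :
    ∃ η : ℝ, 0 < η ∧ ∀ᶠ X : ℝ in atTop, ∀ s : ℝ, SW g X l (s + η) - SW g X l s ≤ ε := by
  classical
  induction l generalizing ε with
  | nil => exact absurd rfl hne
  | cons w l ih =>
    obtain ⟨hw1, hw2⟩ := hl w List.mem_cons_self
    have hl' : Win l := fun w' hw' => hl w' (List.mem_cons_of_mem _ hw')
    by_cases hln : l = []
    · subst hln
      obtain ⟨η, hη, hη2⟩ := swb_small g hg w.1 w.2 hw1 hw2 ε hε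
      refine ⟨η, hη, ?_⟩
      filter_upwards [hη2] with X hX s
      refine le_trans (le_of_eq ?_) (hX s)
      unfold SW
      rw [← Finset.sum_sub_distrib, Finset.sum_filter]
      refine Finset.sum_congr rfl (fun p _ => ?_)
      unfold SW
      rw [← mul_sub]
      by_cases h1 : s < Real.log p / Real.log X
      · rw [if_neg (c := 0 ≤ s - Real.log p / Real.log X) (by linarith), sub_zero]
        by_cases h2 : Real.log p / Real.log X ≤ s + η
        · rw [if_pos (by linarith), if_pos ⟨h1, h2⟩, mul_one]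
        · rw [if_neg (by linarith), if_neg (fun h => h2 h.2), mul_zero]
      · rw [if_pos (c := 0 ≤ s - Real.log p / Real.log X) (by linarith),
          if_pos (by linarith), if_neg (fun h => h1 h.1), sub_self, mul_zero]
    · have hlog : 0 ≤ Real.log (w.2 / w.1) := Real.log_nonneg ((one_le_div hw1).mpr hw2)
      obtain ⟨η, hη, hη2⟩ := ih hl' hln (ε / (Real.log (w.2 / w.1) + 1)) (by positivity)
      refine ⟨η, hη, ?_⟩
      filter_upwards [hη2, swb_mass g hg w.1 w.2 hw1 hw2 1 one_pos] with X h1 h2 s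
      have e1 : SW g X (w :: l) (s + η) - SW g X (w :: l) s = ∑ p ∈ PW X w.1 w.2, g p / p *
          (SW g X l ((s - Real.log p / Real.log X) + η) -
            SW g X l (s - Real.log p / Real.log X)) := by
        show (∑ p ∈ PW X w.1 w.2, g p / p * SW g X l (s + η - Real.log p / Real.log X)) -
          (∑ p ∈ PW X w.1 w.2, g p / p * SW g X l (s - Real.log p / Real.log X)) = _
        rw [← Finset.sum_sub_distrib]
        refine Finset.sum_congr rfl (fun p _ => ?_)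
        rw [← mul_sub, show s + η - Real.log p / Real.log X =
          (s - Real.log p / Real.log X) + η by ring]
      rw [e1]
      calc _ ≤ ∑ p ∈ PW X w.1 w.2, g p / p * (ε / (Real.log (w.2 / w.1) + 1)) :=
            Finset.sum_le_sum (fun p _ => mul_le_mul_of_nonneg_left (h1 _)
              (div_nonneg (hg.nn p) (Nat.cast_nonneg p)))
        _ = (∑ p ∈ PW X w.1 w.2, g p / p) * (ε / (Real.log (w.2 / w.1) + 1)) := by
            rw [Finset.sum_mul]
        _ ≤ (Real.log (w.2 / w.1) + 1) * (ε / (Real.log (w.2 / w.1) + 1)) :=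
            mul_le_mul_of_nonneg_right h2 (by positivity)
        _ = ε := by field_simp

end Pool.Agent.LPr

end

/-! ### from `Lib_MP_f1a94e_lp.MertT` -/

section

/-!
# Piece MERTT: Mertens' theorem in windows
-/

set_option autoImplicit false

namespace Pool.Agent.LPr

open Finset Pool.Agent.GaussMR Filter


private theorem mw_split (F : ℕ → ℝ) {X s t : ℝ} (hX : 1 < X) (hst : s ≤ t) :
    ∑ p ∈ PW X s t, F p = ∑ p ∈ (Icc 1 ⌊X ^ t⌋₊).filter (fun p => p.Prime), F p -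
      ∑ p ∈ (Icc 1 ⌊X ^ s⌋₊).filter (fun p => p.Prime), F p := by
  classical
  have hX0 : (0 : ℝ) ≤ X := by linarith
  have hle : X ^ s ≤ X ^ t := Real.rpow_le_rpow_of_exponent_le hX.le hst
  have h1 := Finset.sum_filter_add_sum_filter_not ((Icc 1 ⌊X ^ t⌋₊).filter (fun p => p.Prime))
    (fun p : ℕ => X ^ s < (p : ℝ)) F
  have h2 : ((Icc 1 ⌊X ^ t⌋₊).filter (fun p => p.Prime)).filter (fun p : ℕ => X ^ s < (p : ℝ)) =
      PW X s t := by
    ext p
    rw [mem_PW hX0, mem_filter, mem_filter, mem_Icc]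
    constructor
    · rintro ⟨⟨⟨-, a⟩, b⟩, c⟩
      exact ⟨b, c, (Nat.le_floor_iff (Real.rpow_nonneg hX0 t)).1 a⟩
    · rintro ⟨a, b, c⟩
      exact ⟨⟨⟨a.one_lt.le, Nat.le_floor c⟩, a⟩, b⟩
  have h3 : ((Icc 1 ⌊X ^ t⌋₊).filter (fun p => p.Prime)).filter (fun p : ℕ => ¬ X ^ s < (p : ℝ)) =
      (Icc 1 ⌊X ^ s⌋₊).filter (fun p => p.Prime) := by
    ext p
    rw [mem_filter, mem_filter, mem_filter, mem_Icc, mem_Icc, not_lt]
    constructor
    · rintro ⟨⟨⟨a, -⟩, b⟩, c⟩
      exact ⟨⟨a, Nat.le_floor c⟩, b⟩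
    · rintro ⟨⟨a, b⟩, c⟩
      have d := (Nat.le_floor_iff (Real.rpow_nonneg hX0 s)).1 b
      exact ⟨⟨⟨a, Nat.le_floor (d.trans hle)⟩, c⟩, d⟩
  rw [h2, h3] at h1
  linarith

private theorem mw_add (F : ℕ → ℝ) {X s t w : ℝ} (hX : 1 < X) (hst : s ≤ t) (htw : t ≤ w) :
    ∑ p ∈ PW X s w, F p = ∑ p ∈ PW X s t, F p + ∑ p ∈ PW X t w, F p := by
  rw [mw_split F hX hst, mw_split F hX htw, mw_split F hX (hst.trans htw)]
  ring

private theorem mw_one (g : ℕ → ℝ) (hg : ∀ p, 0 ≤ g p) (C : ℝ)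
    (h : ∀ x : ℝ, 2 ≤ x → |∑ p ∈ (Icc 1 ⌊x⌋₊).filter (fun p => p.Prime), g p * Real.log p / p - Real.log x| ≤ C)
    {X s t : ℝ} (hX : 1 < X) (hs : 0 < s) (hst : s ≤ t) (h2 : 2 ≤ X ^ s) :
    1 - s / t - 2 * C / (s * Real.log X) ≤ ∑ p ∈ PW X s t, g p / p ∧
      ∑ p ∈ PW X s t, g p / p ≤ t / s - 1 + 2 * C / (s * Real.log X) := by
  have hX0 : (0 : ℝ) ≤ X := by linarith
  have hXp : (0 : ℝ) < X := by linarith
  have hL : 0 < Real.log X := Real.log_pos hX
  have ht : 0 < t := hs.trans_le hst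
  have hle : X ^ s ≤ X ^ t := Real.rpow_le_rpow_of_exponent_le hX.le hst
  have e1 := h (X ^ s) h2
  have e2 := h (X ^ t) (h2.trans hle)
  rw [Real.log_rpow hXp] at e1 e2
  have hC : 0 ≤ C := (abs_nonneg _).trans e1
  have e3 := mw_split (fun p => g p * Real.log p / p) hX hst
  have b1 : ∑ p ∈ PW X s t, g p * Real.log p / p ≤ t * Real.log X * ∑ p ∈ PW X s t, g p / p := by
    rw [mul_sum]
    refine sum_le_sum fun p hp => ?_
    obtain ⟨hp1, hp2, hp3⟩ := (mem_PW hX0).1 hp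
    have hp0 : (0 : ℝ) < p := by exact_mod_cast hp1.pos
    have k1 : Real.log p ≤ t * Real.log X := by
      rw [← Real.log_rpow hXp]
      exact Real.log_le_log hp0 hp3
    have k2 : 0 ≤ g p / p := div_nonneg (hg p) hp0.le
    calc g p * Real.log p / p = Real.log p * (g p / p) := by ring
      _ ≤ t * Real.log X * (g p / p) := mul_le_mul_of_nonneg_right k1 k2
  have b2 : s * Real.log X * ∑ p ∈ PW X s t, g p / p ≤ ∑ p ∈ PW X s t, g p * Real.log p / p := by
    rw [mul_sum]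
    refine sum_le_sum fun p hp => ?_
    obtain ⟨hp1, hp2, hp3⟩ := (mem_PW hX0).1 hp
    have hp0 : (0 : ℝ) < p := by exact_mod_cast hp1.pos
    have k1 : s * Real.log X ≤ Real.log p := by
      rw [← Real.log_rpow hXp]
      exact Real.log_le_log (Real.rpow_pos_of_pos hXp s) hp2.le
    have k2 : 0 ≤ g p / p := div_nonneg (hg p) hp0.le
    calc s * Real.log X * (g p / p) ≤ Real.log p * (g p / p) := mul_le_mul_of_nonneg_right k1 k2
      _ = g p * Real.log p / p := by ring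
  set S := ∑ p ∈ PW X s t, g p / p with hS
  set B := ∑ p ∈ PW X s t, g p * Real.log p / p with hB
  rw [abs_le] at e1 e2
  have f1 : B ≤ (t - s) * Real.log X + 2 * C := by
    rw [e3]
    nlinarith [e1.1, e2.2]
  have f2 : (t - s) * Real.log X - 2 * C ≤ B := by
    rw [e3]
    nlinarith [e1.2, e2.1]
  have hsL : 0 < s * Real.log X := mul_pos hs hL
  have htL : 0 < t * Real.log X := mul_pos ht hL
  constructor
  · have g1 : ((t - s) * Real.log X - 2 * C) / (t * Real.log X) ≤ S := by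
      rw [div_le_iff₀ htL]
      linarith
    have g2 : ((t - s) * Real.log X - 2 * C) / (t * Real.log X) = 1 - s / t - 2 * C / (t * Real.log X) := by
      field_simp
    have g3 : 2 * C / (t * Real.log X) ≤ 2 * C / (s * Real.log X) :=
      div_le_div_of_nonneg_left (by linarith) hsL (mul_le_mul_of_nonneg_right hst hL.le)
    linarith
  · have g1 : S ≤ ((t - s) * Real.log X + 2 * C) / (s * Real.log X) := by
      rw [le_div_iff₀ hsL]
      linarith
    have g2 : ((t - s) * Real.log X + 2 * C) / (s * Real.log X) = t / s - 1 + 2 * C / (s * Real.log X) := by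
      field_simp
    linarith

private theorem mw_grid (g : ℕ → ℝ) (hg : ∀ p, 0 ≤ g p) (C : ℝ)
    (h : ∀ x : ℝ, 2 ≤ x → |∑ p ∈ (Icc 1 ⌊x⌋₊).filter (fun p => p.Prime), g p * Real.log p / p - Real.log x| ≤ C)
    {X u κ : ℝ} (hX : 1 < X) (hu : 0 < u) (hκ : 1 ≤ κ) (h2 : 2 ≤ X ^ u) (n : ℕ) :
    n * (1 - 1 / κ) - n * (2 * C / (u * Real.log X)) ≤ ∑ p ∈ PW X u (u * κ ^ n), g p / p ∧
      ∑ p ∈ PW X u (u * κ ^ n), g p / p ≤ n * (κ - 1) + n * (2 * C / (u * Real.log X)) := by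
  have hL : 0 < Real.log X := Real.log_pos hX
  have hκ0 : 0 < κ := by linarith
  have hC : 0 ≤ C := (abs_nonneg _).trans (h 2 le_rfl)
  induction n with
  | zero =>
    have e : ∑ p ∈ PW X u (u * κ ^ 0), g p / p = 0 := by
      rw [pow_zero, mul_one, mw_split _ hX le_rfl, sub_self]
    rw [e]
    simp
  | succ n ih =>
    have hn1 : 1 ≤ κ ^ n := one_le_pow₀ hκ
    have hun : u ≤ u * κ ^ n := by nlinarith
    have hunn : u * κ ^ n ≤ u * κ ^ (n + 1) := by
      rw [pow_succ]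
      have : 0 < u * κ ^ n := by positivity
      nlinarith
    have hs : 0 < u * κ ^ n := by positivity
    have h2' : 2 ≤ X ^ (u * κ ^ n) := h2.trans (Real.rpow_le_rpow_of_exponent_le hX.le hun)
    have k := mw_one g hg C h hX hs hunn h2'
    have r1 : u * κ ^ n / (u * κ ^ (n + 1)) = 1 / κ := by
      rw [pow_succ]
      field_simp
    have r2 : u * κ ^ (n + 1) / (u * κ ^ n) = κ := by
      rw [pow_succ]
      field_simp
    have r3 : 2 * C / (u * κ ^ n * Real.log X) ≤ 2 * C / (u * Real.log X) :=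
      div_le_div_of_nonneg_left (by linarith) (mul_pos hu hL) (mul_le_mul_of_nonneg_right hun hL.le)
    rw [r1, r2] at k
    rw [mw_add (fun p => g p / p) hX hun hunn]
    push_cast
    constructor <;> nlinarith [k.1, k.2, ih.1, ih.2]

/-- PROOF. `A x = ∑_(p ≤ x) g p log p / p = log x + O(C)`. If `u = v` the window is empty and `log 1 = 0`. Otherwise let `N ≥ 1`, `t_i = u (v/u)^(i/N)`, `i = 0..N`. For `X` large the window `PW X u v` is the disjoint union of the `PW X t_i t_(i+1)`, and on the latter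
`t_i log X < log p ≤ t_(i+1) log X`, so `∑_(p ∈ PW X t_i t_(i+1)) g p / p` lies between `(A (X^t_(i+1)) - A (X^t_i)) / (t_(i+1) log X)` and `(A (X^t_(i+1)) - A (X^t_i)) / (t_i log X)`, where
`A (X^t_(i+1)) - A (X^t_i) = (t_(i+1) - t_i) log X + O(2 C)`. With `κ = (v/u)^(1/N)`: `(t_(i+1) - t_i) / t_i = κ - 1`, `(t_(i+1) - t_i) / t_(i+1) = 1 - 1/κ`; so
`N (1 - 1/κ) - 2 C N / (u log X) ≤ ∑_(p ∈ PW X u v) g p / p ≤ N (κ - 1) + 2 C N / (u log X)`. Also `1 - 1/κ ≤ log κ ≤ κ - 1`, `N log κ = log (v/u)`, and `N (κ - 1) - N (1 - 1/κ) = N (κ - 1)² / κ → 0` as `N → ∞` (`κ - 1 ≤ e log κ` for `log κ ≤ 1`, so it is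
`≤ e² log(v/u)² / N`). Given `ε` choose `N`, then `X` large. -/
theorem mert_of_log (g : ℕ → ℝ) (hg : ∀ p, 0 ≤ g p) (C : ℝ)
    (h : ∀ x : ℝ, 2 ≤ x → |∑ p ∈ (Icc 1 ⌊x⌋₊).filter (fun p => p.Prime), g p * Real.log p / p - Real.log x| ≤ C) :
    Mert g := by
  refine ⟨hg, fun u v hu huv => ?_⟩
  have hv : 0 < v := hu.trans_le huv
  have hC : 0 ≤ C := (abs_nonneg _).trans (h 2 le_rfl)
  set r := Real.log (v / u) with hr
  have hr0 : 0 ≤ r := Real.log_nonneg ((one_le_div hu).2 huv)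
  rw [Metric.tendsto_nhds]
  intro ε hε
  obtain ⟨N, hN⟩ := exists_nat_gt (max 1 (max r (2 * r ^ 2 / ε)))
  have hN1 : (1 : ℝ) < N := lt_of_le_of_lt (le_max_left _ _) hN
  have hNr : r < N := lt_of_le_of_lt ((le_max_left _ _).trans (le_max_right _ _)) hN
  have hNe : 2 * r ^ 2 / ε < N := lt_of_le_of_lt ((le_max_right _ _).trans (le_max_right _ _)) hN
  have hN0 : (0 : ℝ) < N := by linarith
  set κ := Real.exp (r / N) with hκd
  have hκ : 1 ≤ κ := Real.one_le_exp (div_nonneg hr0 hN0.le)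
  have hκN : u * κ ^ N = v := by
    rw [hκd, ← Real.exp_nat_mul, mul_div_cancel₀ _ hN0.ne', hr, Real.exp_log (div_pos hv hu),
      mul_div_cancel₀ _ hu.ne']
  have hx1 : |r / N| ≤ 1 := by
    rw [abs_of_nonneg (div_nonneg hr0 hN0.le), div_le_one hN0]
    exact hNr.le
  have q1 := Real.abs_exp_sub_one_sub_id_le hx1
  have q2 := Real.abs_exp_sub_one_sub_id_le (x := -(r / N)) (by rwa [abs_neg])
  rw [← hκd, abs_le] at q1
  rw [Real.exp_neg, ← hκd, abs_le] at q2
  have hsq : N * (r / N) ^ 2 < ε / 2 := by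
    have : (N : ℝ) * (r / N) ^ 2 = r ^ 2 / N := by field_simp
    rw [this, div_lt_iff₀ hN0]
    rw [div_lt_iff₀ hε] at hNe
    linarith
  have u1 : N * (κ - 1) ≤ r + N * (r / N) ^ 2 := by
    have e : (N : ℝ) * (r / N) = r := mul_div_cancel₀ _ hN0.ne'
    have := mul_le_mul_of_nonneg_left q1.2 hN0.le
    nlinarith
  have u2 : r - N * (r / N) ^ 2 ≤ N * (1 - 1 / κ) := by
    have e : (N : ℝ) * (r / N) = r := mul_div_cancel₀ _ hN0.ne'
    have := mul_le_mul_of_nonneg_left q2.2 hN0.le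
    rw [one_div]
    nlinarith
  have l1 : ∀ᶠ X : ℝ in atTop, 2 ≤ X ^ u := (tendsto_rpow_atTop hu).eventually_ge_atTop 2
  have l2 : ∀ᶠ X : ℝ in atTop, 4 * C * N / (u * ε) < Real.log X :=
    Real.tendsto_log_atTop.eventually_gt_atTop _
  filter_upwards [l1, l2, eventually_gt_atTop (1 : ℝ)] with X h1 h2 h3
  have hL : 0 < Real.log X := Real.log_pos h3
  have k := mw_grid g hg C h h3 hu hκ h1 N
  rw [hκN] at k
  have w : N * (2 * C / (u * Real.log X)) < ε / 2 := by
    rw [div_lt_iff₀ (mul_pos hu hε)] at h2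
    have e : (N : ℝ) * (2 * C / (u * Real.log X)) = (2 * C * N) / (u * Real.log X) := by ring
    rw [e, div_lt_iff₀ (mul_pos hu hL)]
    nlinarith
  rw [Real.dist_eq, abs_lt]
  constructor <;> linarith [k.1, k.2]

/-- `mert_one`, `mertensA_powers` (the proper prime powers contribute a bounded amount, `Λ p = log p`), `log ⌊x⌋ = log x + O(1)`, `mert_of_log`. -/
theorem mert_all : Mert (fun _ => 1) := by
  obtain ⟨C1, h1⟩ := mert_one
  obtain ⟨C3, h3⟩ := mertensA_powers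
  refine mert_of_log _ (fun _ => zero_le_one) (C1 + C3 + Real.log 2) fun x hx => ?_
  set N := ⌊x⌋₊ with hN
  have hN1 : 1 ≤ N := by
    rw [hN, Nat.one_le_floor_iff]
    linarith
  have hNpos : (0 : ℝ) < N := by exact_mod_cast hN1
  have k1 := h1 N hN1
  have k3 := h3 N
  have hlog : |Real.log N - Real.log x| ≤ Real.log 2 := by
    have a1 : (N : ℝ) ≤ x := Nat.floor_le (by linarith)
    have a2 : x ≤ 2 * N := by
      have := Nat.lt_floor_add_one x
      rw [← hN] at this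
      have : (1 : ℝ) ≤ N := by exact_mod_cast hN1
      linarith
    have b1 := Real.log_le_log hNpos a1
    have b2 := Real.log_le_log (by linarith) a2
    rw [Real.log_mul (by norm_num) hNpos.ne'] at b2
    rw [abs_le]
    constructor <;> linarith [Real.log_nonneg (by norm_num : (1 : ℝ) ≤ 2)]
  have e1 : ∑ p ∈ (Icc 1 N).filter (fun p => p.Prime), (1 : ℝ) * Real.log p / p =
      ∑ n ∈ Icc 1 N, ArithmeticFunction.vonMangoldt n / (n : ℝ) -
        ∑ n ∈ Icc 1 N, (if n.Prime then 0 else ArithmeticFunction.vonMangoldt n) / (n : ℝ) := by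
    rw [← sum_sub_distrib, sum_filter]
    refine sum_congr rfl fun n _ => ?_
    split_ifs with hp
    · rw [ArithmeticFunction.vonMangoldt_apply_prime hp]
      ring
    · ring
  have e2 : 0 ≤ ∑ n ∈ Icc 1 N, (if n.Prime then 0 else ArithmeticFunction.vonMangoldt n) / (n : ℝ) := by
    refine sum_nonneg fun n _ => ?_
    split_ifs
    · simp
    · exact div_nonneg ArithmeticFunction.vonMangoldt_nonneg n.cast_nonneg
  rw [e1]
  rw [abs_le] at k1 hlog ⊢
  constructor <;> linarith [k1.1, k1.2, hlog.1, hlog.2]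

/-- `mertens_log` (twice) and `mert_of_log`. -/
theorem mert_four : Mert (fun p => if p % 4 = 1 then 2 else 0) := by
  obtain ⟨C, h⟩ := mertens_log
  refine mert_of_log _ (fun p => by split_ifs <;> norm_num) (2 * C) fun x hx => ?_
  have k := h x hx
  have e : ∑ p ∈ (Icc 1 ⌊x⌋₊).filter (fun p => p.Prime),
      (if p % 4 = 1 then (2 : ℝ) else 0) * Real.log p / p =
      2 * ∑ p ∈ (Icc 1 ⌊x⌋₊).filter (fun p => p.Prime ∧ p % 4 = 1), Real.log p / p := by
    rw [mul_sum, ← filter_filter, sum_filter (fun p => p % 4 = 1)]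
    refine sum_congr rfl fun p _ => ?_
    split_ifs
    · ring
    · ring
  rw [e]
  rw [abs_le] at k ⊢
  constructor <;> linarith [k.1, k.2]

end Pool.Agent.LPr

end

/-! ### from `Lib_MP_f1a94e_lp.SWlim` -/

section

/-!
# Piece SWLIM: limits of `SW`, independent of the weight
-/

set_option autoImplicit false

namespace Pool.Agent.LPr

open Finset Filter

private lemma swl_split {X u m v : ℝ} (hX : 1 ≤ X) (h1 : u ≤ m) (h2 : m ≤ v) (f : ℕ → ℝ) :
    ∑ p ∈ PW X u v, f p = ∑ p ∈ PW X u m, f p + ∑ p ∈ PW X m v, f p := by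
  classical
  have hX0 : 0 ≤ X := by linarith
  have e1 := Real.rpow_le_rpow_of_exponent_le hX h1
  have e2 := Real.rpow_le_rpow_of_exponent_le hX h2
  rw [← sum_union]
  · congr 1
    ext p
    rw [mem_union, mem_PW hX0, mem_PW hX0, mem_PW hX0]
    constructor
    · rintro ⟨a, b, c⟩
      by_cases h : (p : ℝ) ≤ X ^ m
      · exact Or.inl ⟨a, b, h⟩
      · exact Or.inr ⟨a, not_le.1 h, c⟩
    · rintro (⟨a, b, c⟩ | ⟨a, b, c⟩)
      · exact ⟨a, b, c.trans e2⟩
      · exact ⟨a, e1.trans_lt b, c⟩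
  · rw [disjoint_left]
    intro p hp hq
    rw [mem_PW hX0] at hp hq
    linarith [hp.2.2, hq.2.1]

private lemma swl_grid {X : ℝ} (hX : 1 ≤ X) (t : ℕ → ℝ) (ht : Monotone t) (f : ℕ → ℝ) (n : ℕ) :
    ∑ p ∈ PW X (t 0) (t n), f p = ∑ i ∈ range n, ∑ p ∈ PW X (t i) (t (i + 1)), f p := by
  induction n with
  | zero =>
    have : PW X (t 0) (t 0) = ∅ := by
      rw [eq_empty_iff_forall_notMem]
      intro p hp
      rw [mem_PW (by linarith)] at hp
      linarith [hp.2.1, hp.2.2]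
    rw [this]
    simp
  | succ n ih => rw [sum_range_succ, ← ih, swl_split hX (ht (Nat.zero_le n)) (ht (Nat.le_succ n))]

private lemma swl_log {X a b : ℝ} (hX : 1 < X) {p : ℕ} (hp : p ∈ PW X a b) :
    a < Real.log p / Real.log X ∧ Real.log p / Real.log X ≤ b := by
  have hX0 : 0 < X := by linarith
  rw [mem_PW hX0.le] at hp
  obtain ⟨h1, h2, h3⟩ := hp
  have hl : 0 < Real.log X := Real.log_pos hX
  have hp0 : (0 : ℝ) < p := by exact_mod_cast h1.pos
  constructor
  · rw [lt_div_iff₀ hl, ← Real.log_rpow hX0]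
    exact Real.log_lt_log (Real.rpow_pos_of_pos hX0 _) h2
  · rw [div_le_iff₀ hl, ← Real.log_rpow hX0]
    exact Real.log_le_log hp0 h3

private lemma swl_step (N : ℝ → ℝ) (l : List (ℝ × ℝ)) (u v : ℝ) (hu : 0 < u) (huv : u ≤ v)
    (hN : ∀ s, ∀ g : ℕ → ℝ, Mert g → Tendsto (fun X : ℝ => SW g X l s) atTop (nhds (N s))) (s : ℝ) :
    ∃ L : ℝ, ∀ g : ℕ → ℝ, Mert g → Tendsto (fun X : ℝ => SW g X ((u, v) :: l) s) atTop (nhds L) := by
  set c := Real.log (v / u) with hc
  have hc0 : 0 ≤ c := Real.log_nonneg (by rw [le_div_iff₀ hu]; linarith)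
  obtain ⟨t, ht⟩ : ∃ t : ℕ → ℕ → ℝ, ∀ n i, t n i = u * Real.exp (c * i / n) := ⟨_, fun _ _ => rfl⟩
  have hpos : ∀ n i, 0 < t n i := fun n i => by rw [ht]; positivity
  have htm : ∀ n, Monotone (t n) := by
    intro n i j hij
    rw [ht, ht]
    have : (i : ℝ) ≤ j := by exact_mod_cast hij
    gcongr
  have ht0 : ∀ n, t n 0 = u := by
    intro n
    rw [ht]
    simp
  have htn : ∀ n, 0 < n → t n n = v := by
    intro n hn
    have hn' : (n : ℝ) ≠ 0 := by positivity
    rw [ht, mul_div_cancel_right₀ _ hn', hc, Real.exp_log (div_pos (hu.trans_le huv) hu)]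
    field_simp
  have hlog : ∀ n i, 0 < n → Real.log (t n (i + 1) / t n i) = c / n := by
    intro n i hn
    have hn' : (n : ℝ) ≠ 0 := by positivity
    rw [ht, ht, mul_div_mul_left _ _ hu.ne', ← Real.exp_sub, Real.log_exp]
    push_cast
    field_simp
    ring
  obtain ⟨a, ha⟩ : ∃ a : ℕ → ℝ, ∀ n, a n = ∑ i ∈ range n, c / n * N (s - t n (i + 1)) := ⟨_, fun _ => rfl⟩
  obtain ⟨b, hb⟩ : ∃ b : ℕ → ℝ, ∀ n, b n = ∑ i ∈ range n, c / n * N (s - t n i) := ⟨_, fun _ => rfl⟩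
  have hmass : ∀ g : ℕ → ℝ, Mert g → ∀ n, 0 < n → ∀ i, Tendsto (fun X : ℝ => ∑ p ∈ PW X (t n i) (t n (i + 1)), g p / p)
      atTop (nhds (c / n)) := by
    intro g hg n hn i
    rw [← hlog n i hn]
    exact hg.lim _ _ (hpos n i) (htm n (Nat.le_succ i))
  have hexp : ∀ g : ℕ → ℝ, ∀ n, 0 < n → ∀ X : ℝ, 1 < X → SW g X ((u, v) :: l) s =
      ∑ i ∈ range n, ∑ p ∈ PW X (t n i) (t n (i + 1)), g p / p * SW g X l (s - Real.log p / Real.log X) := by
    intro g n hn X hX
    rw [← swl_grid hX.le (t n) (htm n), ht0, htn n hn]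
    rfl
  have hlow : ∀ g : ℕ → ℝ, Mert g → ∀ n, 0 < n → ∀ X : ℝ, 1 < X →
      ∑ i ∈ range n, (∑ p ∈ PW X (t n i) (t n (i + 1)), g p / p) * SW g X l (s - t n (i + 1)) ≤ SW g X ((u, v) :: l) s := by
    intro g hg n hn X hX
    rw [hexp g n hn X hX]
    refine sum_le_sum fun i _ => ?_
    rw [sum_mul]
    refine sum_le_sum fun p hp => ?_
    refine mul_le_mul_of_nonneg_left ?_ (div_nonneg (hg.nn p) (Nat.cast_nonneg p))
    exact sw_mono g hg.nn X l _ _ (by linarith [(swl_log hX hp).2])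
  have hup : ∀ g : ℕ → ℝ, Mert g → ∀ n, 0 < n → ∀ X : ℝ, 1 < X → SW g X ((u, v) :: l) s ≤
      ∑ i ∈ range n, (∑ p ∈ PW X (t n i) (t n (i + 1)), g p / p) * SW g X l (s - t n i) := by
    intro g hg n hn X hX
    rw [hexp g n hn X hX]
    refine sum_le_sum fun i _ => ?_
    rw [sum_mul]
    refine sum_le_sum fun p hp => ?_
    refine mul_le_mul_of_nonneg_left ?_ (div_nonneg (hg.nn p) (Nat.cast_nonneg p))
    exact sw_mono g hg.nn X l _ _ (by linarith [(swl_log hX hp).1])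
  have hlowl : ∀ g : ℕ → ℝ, Mert g → ∀ n, 0 < n → Tendsto (fun X : ℝ =>
      ∑ i ∈ range n, (∑ p ∈ PW X (t n i) (t n (i + 1)), g p / p) * SW g X l (s - t n (i + 1))) atTop (nhds (a n)) := by
    intro g hg n hn
    rw [ha]
    exact tendsto_finsetSum _ fun i _ => (hmass g hg n hn i).mul (hN _ g hg)
  have hupl : ∀ g : ℕ → ℝ, Mert g → ∀ n, 0 < n → Tendsto (fun X : ℝ =>
      ∑ i ∈ range n, (∑ p ∈ PW X (t n i) (t n (i + 1)), g p / p) * SW g X l (s - t n i)) atTop (nhds (b n)) := by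
    intro g hg n hn
    rw [hb]
    exact tendsto_finsetSum _ fun i _ => (hmass g hg n hn i).mul (hN _ g hg)
  have hab : ∀ m n, 0 < m → 0 < n → a m ≤ b n := by
    intro m n hm hn
    refine le_of_tendsto_of_tendsto (hlowl _ mert_all m hm) (hupl _ mert_all n hn) ?_
    filter_upwards [eventually_gt_atTop (1 : ℝ)] with X hX
    exact (hlow _ mert_all m hm X hX).trans (hup _ mert_all n hn X hX)
  have hdiff : ∀ n, 0 < n → b n - a n = c * (N (s - u) - N (s - v)) / n := by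
    intro n hn
    rw [ha, hb, ← sum_sub_distrib]
    have : ∀ i, c / n * N (s - t n i) - c / n * N (s - t n (i + 1)) =
        c / n * (N (s - t n i) - N (s - t n (i + 1))) := fun i => by ring
    simp only [this]
    rw [← mul_sum, sum_range_sub' (fun i => N (s - t n i)), ht0, htn n hn]
    ring
  have hbdd : BddAbove (Set.range fun n : ℕ => a (n + 1)) := by
    refine ⟨b 1, ?_⟩
    rintro _ ⟨n, rfl⟩
    exact hab _ _ (Nat.succ_pos n) one_pos
  refine ⟨⨆ n : ℕ, a (n + 1), fun g hg => ?_⟩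
  have hL1 : ∀ n : ℕ, a (n + 1) ≤ ⨆ n : ℕ, a (n + 1) := fun n => le_ciSup hbdd n
  have hL2 : ∀ n : ℕ, (⨆ n : ℕ, a (n + 1)) ≤ b (n + 1) := fun n =>
    ciSup_le fun m => hab _ _ (Nat.succ_pos m) (Nat.succ_pos n)
  rw [tendsto_order]
  have hd0 : Tendsto (fun n : ℕ => b (n + 1) - a (n + 1)) atTop (nhds 0) := by
    have h1 : Tendsto (fun n : ℕ => c * (N (s - u) - N (s - v)) / (n : ℝ)) atTop (nhds 0) :=
      tendsto_const_div_atTop_nhds_zero_nat _
    have h2 := h1.comp (tendsto_add_atTop_nat 1)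
    refine h2.congr fun n => ?_
    rw [hdiff (n + 1) (Nat.succ_pos n)]
    rfl
  constructor
  · intro x hx
    obtain ⟨n, hn⟩ := (hd0.eventually (gt_mem_nhds (sub_pos.2 hx))).exists
    have h1 : x < a (n + 1) := by
      have := hL2 n
      linarith
    filter_upwards [(hlowl g hg (n + 1) (Nat.succ_pos n)).eventually (lt_mem_nhds h1), eventually_gt_atTop (1 : ℝ)]
      with X h2 hX
    exact h2.trans_le (hlow g hg (n + 1) (Nat.succ_pos n) X hX)
  · intro x hx
    obtain ⟨n, hn⟩ := (hd0.eventually (gt_mem_nhds (sub_pos.2 hx))).exists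
    have h1 : b (n + 1) < x := by
      have := hL1 n
      linarith
    filter_upwards [(hupl g hg (n + 1) (Nat.succ_pos n)).eventually (gt_mem_nhds h1), eventually_gt_atTop (1 : ℝ)]
      with X h2 hX
    exact (hup g hg (n + 1) (Nat.succ_pos n) X hX).trans_lt h2

/-- PROOF. Induction on `l`, for all `s`: there is `N_l : ℝ → ℝ` with `SW g X l s → N_l s` for all `g` with `Mert g` (choose); `N_l` is monotone (`sw_mono`, limits; use `mert_all`). `l = []`: constant. `l = w :: l'`, `w = (u, v)`: if `u = v` the window is empty, `N = 0`.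
If `u < v`: grid `t_i = u (v/u)^(i/n)`, `i ≤ n`; for `p ∈ PW X t_i t_(i+1)`, `t_i < log p / log X ≤ t_(i+1)`, so by monotonicity `∑_i m_i(X) SW g X l' (s - t_(i+1)) ≤ SW g X l s ≤ ∑_i m_i(X) SW g X l' (s - t_i)` with `m_i(X) = ∑_(p ∈ PW X t_i t_(i+1)) g p / p → log (v/u) / n`.
The two bounds tend to `a_n = (log (v/u) / n) ∑_i N_l' (s - t_(i+1))` and `b_n = (log (v/u) / n) ∑_i N_l' (s - t_i)`, which do not depend on `g`, and `b_n - a_n = (log (v/u) / n) (N_l' (s - u) - N_l' (s - v)) → 0`.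
So `a_m ≤ b_n` for all `m, n` (compare for one `g`, `mert_all`), `L = sup_m a_m` satisfies `a_n ≤ L ≤ b_n`, and for every `g` and `ε`, eventually `a_n - ε ≤ SW g X l s ≤ b_n + ε`, hence `SW g X l s → L`. -/
theorem sw_lim (l : List (ℝ × ℝ)) (hl : Win l) (s : ℝ) :
    ∃ L : ℝ, ∀ g : ℕ → ℝ, Mert g → Tendsto (fun X : ℝ => SW g X l s) atTop (nhds L) := by
  induction l generalizing s with
  | nil => exact ⟨if 0 ≤ s then 1 else 0, fun g _ => tendsto_const_nhds⟩
  | cons w l ih =>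
    have hl' : Win l := fun x hx => hl x (List.mem_cons_of_mem _ hx)
    have hw := hl w List.mem_cons_self
    choose N hN using fun s => ih hl' s
    exact swl_step N l w.1 w.2 hw.1 hw.2 hN s

/-- PROOF. `SW g X l 1 → NW l` by `sw_lim` (`NW l` is the limit for `g = 1`, `mert_all`, `Tendsto.limUnder_eq`; the limit is the same for all `g`). `log (a X) / log X = 1 + log a / log X → 1`. For `l = []` both sides are `1` for `X` large
(`log (a X) / log X ≥ 0`). For `l ≠ []`: given `ε`, take `η` of `sw_equi`; for `X` large `|log (a X) / log X - 1| ≤ η / 2`, so by `sw_mono` both `SW g X l (log (a X) / log X)` and `SW g X l 1` lie in the interval `[SW (1 - η/2), SW (1 + η/2)]` of length at most `ε`. -/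
theorem sw_at (g : ℕ → ℝ) (hg : Mert g) (l : List (ℝ × ℝ)) (hl : Win l) (a : ℝ) (ha : 0 < a) :
    Tendsto (fun X : ℝ => SW g X l (Real.log (a * X) / Real.log X)) atTop (nhds (NW l)) := by
  obtain ⟨L, hL⟩ := sw_lim l hl 1
  have hNW : NW l = L := (hL _ mert_all).limUnder_eq
  rw [hNW]
  have hs : Tendsto (fun X : ℝ => Real.log (a * X) / Real.log X) atTop (nhds 1) := by
    have h1 : Tendsto (fun X : ℝ => Real.log a / Real.log X + 1) atTop (nhds (0 + 1)) :=
      (Real.tendsto_log_atTop.const_div_atTop _).add_const 1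
    rw [zero_add] at h1
    refine h1.congr' ?_
    filter_upwards [eventually_gt_atTop (1 : ℝ)] with X hX
    have hl0 : Real.log X ≠ 0 := (Real.log_pos hX).ne'
    rw [Real.log_mul ha.ne' (by linarith), add_div, div_self hl0]
  by_cases hne : l = []
  · subst hne
    have hL1 : L = 1 := by
      have h1 := hL _ hg
      simp only [SW, zero_le_one, if_true] at h1
      exact tendsto_nhds_unique h1 tendsto_const_nhds |>.symm ▸ rfl
    rw [hL1]
    refine (tendsto_const_nhds (x := (1 : ℝ))).congr' ?_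
    filter_upwards [hs.eventually (lt_mem_nhds (zero_lt_one))] with X hX
    simp only [SW]
    rw [if_pos hX.le]
  · have hdiff : Tendsto (fun X : ℝ => SW g X l (Real.log (a * X) / Real.log X) - SW g X l 1) atTop (nhds 0) := by
      rw [Metric.tendsto_nhds]
      intro ε hε
      obtain ⟨η, hη, hev⟩ := sw_equi g hg l hl hne (ε / 2) (half_pos hε)
      have h1 : ∀ᶠ X : ℝ in atTop, |Real.log (a * X) / Real.log X - 1| < η / 2 := by
        have := (Metric.tendsto_nhds.1 hs) (η / 2) (half_pos hη)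
        simpa [Real.dist_eq] using this
      filter_upwards [hev, h1] with X hX h2
      rw [abs_lt] at h2
      rw [Real.dist_eq, sub_zero]
      have h3 := hX (1 - η / 2)
      have e1 := sw_mono g hg.nn X l (1 - η / 2) (Real.log (a * X) / Real.log X) (by linarith [h2.1])
      have e2 := sw_mono g hg.nn X l (Real.log (a * X) / Real.log X) (1 - η / 2 + η) (by linarith [h2.2])
      have e3 := sw_mono g hg.nn X l (1 - η / 2) 1 (by linarith)
      have e4 := sw_mono g hg.nn X l 1 (1 - η / 2 + η) (by linarith)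
      rw [abs_lt]
      constructor <;> linarith
    have := hdiff.add (hL g hg)
    simp only [sub_add_cancel, zero_add] at this
    exact this

end Pool.Agent.LPr

end

/-! ### from `Lib_MP_f1a94e_lp.AbsM` -/

section

/-!
# Piece ABSM: abstract mean values over tuples of primes
-/

set_option autoImplicit false

namespace Pool.Agent.LPr

open Finset Filter

/-- iterated sums over primes -/
noncomputable def MX (u0 : ℝ → ℂ) (G : ℕ → ℂ) (X : ℝ) : List (ℝ × ℝ) → ℝ → ℂ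
  | [], Y => u0 Y
  | w :: l, Y => ∑ p ∈ PW X w.1 w.2, G p * MX u0 G X l (Y / p)

private theorem pw_one {X u v : ℝ} {p : ℕ} (hp : p ∈ PW X u v) : (1 : ℝ) ≤ p := by
  classical
  unfold PW at hp
  rw [mem_filter, mem_Icc] at hp
  exact_mod_cast hp.1.1

private theorem pw_prime {X u v : ℝ} {p : ℕ} (hp : p ∈ PW X u v) : p.Prime ∧ X ^ u < (p : ℝ) := by
  classical
  unfold PW at hp
  rw [mem_filter, mem_Icc] at hp
  exact hp.2

/-- PROOF. Induction on `l` with `δ` the minimum of the exponents (use `X ≥ 1`) and `C'_(w :: l) = C'_w + C'_l (log (w.2 / w.1) + 1)`: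
`U X (w :: l) Y - MX (w :: l) Y = (U X (w :: l) Y - ∑_p G p U X l (Y / p)) + ∑_p G p (U X l (Y / p) - MX l (Y / p))`, `‖G p‖ ≤ g p`, `0 ≤ Y / p ≤ X ^ 2`, `∑_(p ∈ PW) g p / p ≤ log (w.2 / w.1) + 1` for large `X` (`Mert.lim`). -/
theorem u_sub_mx (u0 : ℝ → ℂ) (G : ℕ → ℂ) (g : ℕ → ℝ) (hg : Mert g) (hG : ∀ p, ‖G p‖ ≤ g p)
    (U : ℝ → List (ℝ × ℝ) → ℝ → ℂ) (hU0 : ∀ X Y, U X [] Y = u0 Y)
    (hrec : ∀ w l, Win (w :: l) → ∃ C' δ : ℝ, 0 < δ ∧ ∀ᶠ X : ℝ in atTop, ∀ Y : ℝ, 0 ≤ Y → Y ≤ X ^ 2 →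
      ‖U X (w :: l) Y - ∑ p ∈ PW X w.1 w.2, G p * U X l (Y / p)‖ ≤ C' * Y * X ^ (-δ))
    (l : List (ℝ × ℝ)) (hl : Win l) :
    ∃ C' δ : ℝ, 0 < δ ∧ ∀ᶠ X : ℝ in atTop, ∀ Y : ℝ, 0 ≤ Y → Y ≤ X ^ 2 →
      ‖U X l Y - MX u0 G X l Y‖ ≤ C' * Y * X ^ (-δ) := by
  induction l with
  | nil =>
    refine ⟨0, 1, one_pos, Eventually.of_forall fun X Y _ _ => ?_⟩
    rw [hU0]
    simp [MX]
  | cons w l ih =>
    have hl' : Win l := fun x hx => hl x (List.mem_cons_of_mem _ hx)
    obtain ⟨C1, δ1, hδ1, h1⟩ := ih hl'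
    obtain ⟨C2, δ2, hδ2, h2⟩ := hrec w l hl
    have hw := hl w List.mem_cons_self
    have h3 := (hg.lim w.1 w.2 hw.1 hw.2).eventually_le_const (lt_add_one (Real.log (w.2 / w.1)))
    refine ⟨|C2| + |C1| * (Real.log (w.2 / w.1) + 1), min δ1 δ2, lt_min hδ1 hδ2, ?_⟩
    filter_upwards [h1, h2, h3, eventually_ge_atTop 1] with X h1 h2 h3 hX Y hY0 hY
    have hX0 : (0 : ℝ) ≤ X := zero_le_one.trans hX
    have hr1 : X ^ (-δ1) ≤ X ^ (-(min δ1 δ2)) :=
      Real.rpow_le_rpow_of_exponent_le hX (neg_le_neg (min_le_left _ _))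
    have hr2 : X ^ (-δ2) ≤ X ^ (-(min δ1 δ2)) :=
      Real.rpow_le_rpow_of_exponent_le hX (neg_le_neg (min_le_right _ _))
    have hr0 : 0 ≤ X ^ (-(min δ1 δ2)) := Real.rpow_nonneg hX0 _
    have hr01 : 0 ≤ X ^ (-δ1) := Real.rpow_nonneg hX0 _
    have hr02 : 0 ≤ X ^ (-δ2) := Real.rpow_nonneg hX0 _
    have e1 : U X (w :: l) Y - MX u0 G X (w :: l) Y =
        (U X (w :: l) Y - ∑ p ∈ PW X w.1 w.2, G p * U X l (Y / p)) +
          ∑ p ∈ PW X w.1 w.2, G p * (U X l (Y / p) - MX u0 G X l (Y / p)) := by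
      simp only [MX, mul_sub, sum_sub_distrib]
      ring
    have e2 : ‖∑ p ∈ PW X w.1 w.2, G p * (U X l (Y / p) - MX u0 G X l (Y / p))‖ ≤
        ∑ p ∈ PW X w.1 w.2, g p / p * (|C1| * Y * X ^ (-(min δ1 δ2))) := by
      refine (norm_sum_le _ _).trans (sum_le_sum fun p hp => ?_)
      rw [norm_mul]
      have hp1 : (1 : ℝ) ≤ p := pw_one hp
      have hp0 : (0 : ℝ) < p := one_pos.trans_le hp1
      have hYp0 : 0 ≤ Y / p := div_nonneg hY0 hp0.le
      have hYp : Y / p ≤ X ^ 2 := (div_le_self hY0 hp1).trans hY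
      calc ‖G p‖ * ‖U X l (Y / p) - MX u0 G X l (Y / p)‖ ≤ g p * (C1 * (Y / p) * X ^ (-δ1)) :=
            mul_le_mul (hG p) (h1 _ hYp0 hYp) (norm_nonneg _) (hg.nn p)
        _ ≤ g p * (|C1| * (Y / p) * X ^ (-(min δ1 δ2))) := by
            refine mul_le_mul_of_nonneg_left ?_ (hg.nn p)
            exact mul_le_mul (mul_le_mul_of_nonneg_right (le_abs_self C1) hYp0) hr1 hr01
              (mul_nonneg (abs_nonneg _) hYp0)
        _ = g p / p * (|C1| * Y * X ^ (-(min δ1 δ2))) := by ring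
    have e3 : ∑ p ∈ PW X w.1 w.2, g p / p * (|C1| * Y * X ^ (-(min δ1 δ2))) ≤
        (Real.log (w.2 / w.1) + 1) * (|C1| * Y * X ^ (-(min δ1 δ2))) := by
      rw [← sum_mul]
      exact mul_le_mul_of_nonneg_right h3 (mul_nonneg (mul_nonneg (abs_nonneg _) hY0) hr0)
    have e4 : ‖U X (w :: l) Y - ∑ p ∈ PW X w.1 w.2, G p * U X l (Y / p)‖ ≤ |C2| * Y * X ^ (-(min δ1 δ2)) := by
      refine (h2 Y hY0 hY).trans ?_
      exact mul_le_mul (mul_le_mul_of_nonneg_right (le_abs_self C2) hY0) hr2 hr02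
        (mul_nonneg (abs_nonneg _) hY0)
    rw [e1]
    refine (norm_add_le _ _).trans ((add_le_add e4 (e2.trans e3)).trans (le_of_eq ?_))
    ring

/-- the error term -/
private noncomputable def Er (g : ℕ → ℝ) (ε C2 κ X : ℝ) (l : List (ℝ × ℝ)) (Y : ℝ) : ℝ :=
  ε * Y * SW g X l (Real.log Y / Real.log X) +
    C2 * Y * (SW g X l (Real.log Y / Real.log X) - SW g X l (Real.log Y / Real.log X - κ))

private theorem er_cons (g : ℕ → ℝ) (ε C2 κ X : ℝ) (w : ℝ × ℝ) (l : List (ℝ × ℝ)) (Y : ℝ) (hY : 0 < Y) :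
    Er g ε C2 κ X (w :: l) Y = ∑ p ∈ PW X w.1 w.2, g p * Er g ε C2 κ X l (Y / p) := by
  unfold Er
  simp only [SW]
  rw [mul_sum, ← sum_sub_distrib, mul_sum, ← sum_add_distrib]
  refine sum_congr rfl fun p hp => ?_
  have hp1 : (1 : ℝ) ≤ p := pw_one hp
  have hp0 : (0 : ℝ) < p := one_pos.trans_le hp1
  have hl : Real.log (Y / p) / Real.log X = Real.log Y / Real.log X - Real.log p / Real.log X := by
    rw [Real.log_div hY.ne' hp0.ne', sub_div]
  rw [hl]
  have h2 : Real.log Y / Real.log X - κ - Real.log p / Real.log X =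
      Real.log Y / Real.log X - Real.log p / Real.log X - κ := by ring
  rw [h2]
  ring

private theorem mx_step (u0 : ℝ → ℂ) (ρ : ℂ) (G : ℕ → ℂ) (g : ℕ → ℝ) (hg : Mert g) (hG : ∀ p, ‖G p‖ ≤ g p)
    (hr : ρ = 0 ∨ ∃ P : ℕ, ∀ p : ℕ, P ≤ p → p.Prime → G p = g p) (ε C2 : ℝ) (κ : ℝ → ℝ)
    (h0 : ∀ᶠ X : ℝ in atTop, ∀ Y : ℝ, 0 < Y →
      ‖u0 Y - ρ * Y * SW g X [] (Real.log Y / Real.log X)‖ ≤ Er g ε C2 (κ X) X [] Y)
    (l : List (ℝ × ℝ)) (hl : Win l) :
    ∀ᶠ X : ℝ in atTop, ∀ Y : ℝ, 0 < Y →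
      ‖MX u0 G X l Y - ρ * Y * SW g X l (Real.log Y / Real.log X)‖ ≤ Er g ε C2 (κ X) X l Y := by
  induction l with
  | nil => exact h0
  | cons w l ih =>
    have hl' : Win l := fun x hx => hl x (List.mem_cons_of_mem _ hx)
    have hw := hl w List.mem_cons_self
    have hP : ∀ᶠ X : ℝ in atTop, ρ = 0 ∨ ∀ p ∈ PW X w.1 w.2, G p = g p := by
      rcases hr with hr | ⟨P, hP⟩
      · exact Eventually.of_forall fun _ => Or.inl hr
      · filter_upwards [(tendsto_rpow_atTop hw.1).eventually_ge_atTop (P : ℝ)] with X hX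
        refine Or.inr fun p hp => ?_
        obtain ⟨h1, h2⟩ := pw_prime hp
        exact hP p (by exact_mod_cast (hX.trans h2.le)) h1
    filter_upwards [ih hl', hP] with X h1 hP Y hY
    rw [er_cons g ε C2 (κ X) X w l Y hY]
    have e1 : MX u0 G X (w :: l) Y - ρ * Y * SW g X (w :: l) (Real.log Y / Real.log X) =
        ∑ p ∈ PW X w.1 w.2, (G p * MX u0 G X l (Y / p) -
          ρ * (g p * ((Y / p : ℝ) : ℂ) * SW g X l (Real.log (Y / p) / Real.log X))) := by
      simp only [MX, SW]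
      rw [sum_sub_distrib, ← mul_sum]
      congr 1
      rw [mul_assoc]
      congr 1
      push_cast
      rw [mul_sum]
      refine sum_congr rfl fun p hp => ?_
      have hp1 : (1 : ℝ) ≤ p := pw_one hp
      have hp0 : (0 : ℝ) < p := one_pos.trans_le hp1
      have hl : Real.log (Y / p) / Real.log X = Real.log Y / Real.log X - Real.log p / Real.log X := by
        rw [Real.log_div hY.ne' hp0.ne', sub_div]
      rw [hl]
      ring
    rw [e1]
    refine (norm_sum_le _ _).trans (sum_le_sum fun p hp => ?_)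
    have hp1 : (1 : ℝ) ≤ p := pw_one hp
    have hp0 : (0 : ℝ) < p := one_pos.trans_le hp1
    have hYp : 0 < Y / p := div_pos hY hp0
    have h2 := h1 (Y / p) hYp
    rcases hP with hρ | hP
    · rw [hρ] at h2 ⊢
      rw [zero_mul, sub_zero, norm_mul]
      rw [zero_mul, zero_mul, sub_zero] at h2
      exact mul_le_mul (hG p) h2 (norm_nonneg _) (hg.nn p)
    · rw [hP p hp]
      have e2 : (g p : ℂ) * MX u0 G X l (Y / p) -
          ρ * (g p * ((Y / p : ℝ) : ℂ) * SW g X l (Real.log (Y / p) / Real.log X)) =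
          (g p : ℂ) * (MX u0 G X l (Y / p) -
            ρ * ((Y / p : ℝ) : ℂ) * SW g X l (Real.log (Y / p) / Real.log X)) := by
        ring
      rw [e2, norm_mul, Complex.norm_real, Real.norm_of_nonneg (hg.nn p)]
      exact mul_le_mul_of_nonneg_left h2 (hg.nn p)

private theorem mx_base (u0 : ℝ → ℂ) (ρ : ℂ) (C : ℝ) (h0 : ∀ Y : ℝ, Y < 1 → u0 Y = 0)
    (hb : ∀ Y : ℝ, 0 ≤ Y → ‖u0 Y‖ ≤ C * Y) (g : ℕ → ℝ) (ε K : ℝ) (hε : 0 ≤ ε) (hK : 1 ≤ K)
    (hlK : ∀ Y : ℝ, K ≤ Y → ‖u0 Y - ρ * Y‖ ≤ ε * Y) :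
    ∀ᶠ X : ℝ in atTop, ∀ Y : ℝ, 0 < Y →
      ‖u0 Y - ρ * Y * SW g X [] (Real.log Y / Real.log X)‖ ≤
        Er g ε (C + ‖ρ‖) (Real.log K / Real.log X) X [] Y := by
  filter_upwards [eventually_gt_atTop 1] with X hX Y hY
  have hlX : 0 < Real.log X := Real.log_pos hX
  unfold Er
  simp only [SW]
  rcases lt_or_ge Y 1 with h1 | h1
  · have hlY : Real.log Y < 0 := Real.log_neg hY h1
    have n1 : ¬ 0 ≤ Real.log Y / Real.log X := not_le.2 (div_neg_of_neg_of_pos hlY hlX)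
    have hk : 0 ≤ Real.log K / Real.log X := div_nonneg (Real.log_nonneg hK) hlX.le
    have n2 : ¬ 0 ≤ Real.log Y / Real.log X - Real.log K / Real.log X := by
      intro h
      exact n1 (by linarith)
    rw [if_neg n1, if_neg n2, h0 Y h1]
    simp
  · have y1 : 0 ≤ Real.log Y / Real.log X := div_nonneg (Real.log_nonneg h1) hlX.le
    rw [if_pos y1]
    rcases lt_or_ge Y K with h2 | h2
    · have n2 : ¬ 0 ≤ Real.log Y / Real.log X - Real.log K / Real.log X := by
        rw [← sub_div]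
        exact not_le.2 (div_neg_of_neg_of_pos (sub_neg.2 (Real.log_lt_log hY h2)) hlX)
      rw [if_neg n2]
      have h3 := hb Y hY.le
      calc ‖u0 Y - ρ * Y * ((1 : ℝ) : ℂ)‖ ≤ ‖u0 Y‖ + ‖ρ * Y * ((1 : ℝ) : ℂ)‖ := norm_sub_le _ _
        _ ≤ C * Y + ‖ρ‖ * Y := by
            refine add_le_add h3 (le_of_eq ?_)
            rw [Complex.ofReal_one, mul_one, norm_mul, Complex.norm_real, Real.norm_of_nonneg hY.le]
        _ ≤ ε * Y * 1 + (C + ‖ρ‖) * Y * (1 - 0) := by nlinarith [mul_nonneg hε hY.le]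
    · have y2 : 0 ≤ Real.log Y / Real.log X - Real.log K / Real.log X := by
        rw [← sub_div]
        exact div_nonneg (sub_nonneg.2 (Real.log_le_log (one_pos.trans_le hK) h2)) hlX.le
      rw [if_pos y2, Complex.ofReal_one, mul_one, mul_one, sub_self, mul_zero, add_zero]
      exact hlK Y h2

/-- PROOF. Case 1, `G p = g p` for the primes `p ≥ P`. Write `s Y = log Y / log X` (`X > 1`, `Y > 0`), `1[Y ≥ 1] = 1[s Y ≥ 0] = SW g X [] (s Y)`, `s (Y / p) = s Y - log p / log X`. From the hypotheses on `u0`: for every `ε` there is `K ≥ 1` with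
`‖u0 Y - ρ Y SW g X [] (s Y)‖ ≤ ε Y SW [] (s Y) + C2 Y (SW [] (s Y) - SW [] (s Y - log K / log X))`, `C2 = C + ‖ρ‖` (for `Y < 1` both sides vanish; for `1 ≤ Y < K` the last bracket is `1`; for `Y ≥ K` use the limit). By induction on `l` (for `X` so large that
`X ^ w.1 ≥ P` for the windows of `l`, so `G p = g p`), for all `Y > 0`: `‖MX l Y - ρ Y SW g X l (s Y)‖ ≤ ε Y SW g X l (s Y) + C2 Y (SW g X l (s Y) - SW g X l (s Y - log K / log X))`. At `Y = a X`: the first term is `≤ ε a X (B + 1)` (`sw_bd`), the second is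
`≤ C2 a X ε` for large `X` if `l ≠ []` (`sw_equi`, `log K / log X → 0`), and for `l = []` it vanishes for large `X` (`s Y - log K / log X ≥ 0`). With `sw_at`: `MX l (a X) / X → ρ a NW l`.
Case 2, `ρ = 0`: the same with `‖MX l Y‖ ≤ ε Y SW g X l (s Y) + C Y (SW g X l (s Y) - SW g X l (s Y - log K / log X))` (only `‖G p‖ ≤ g p` is used). -/
theorem mx_lim (u0 : ℝ → ℂ) (ρ : ℂ) (C : ℝ) (h0 : ∀ Y : ℝ, Y < 1 → u0 Y = 0) (hb : ∀ Y : ℝ, 0 ≤ Y → ‖u0 Y‖ ≤ C * Y)
    (hl0 : Tendsto (fun Y : ℝ => u0 Y / Y) atTop (nhds ρ)) (G : ℕ → ℂ) (g : ℕ → ℝ) (hg : Mert g) (hG : ∀ p, ‖G p‖ ≤ g p)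
    (hr : ρ = 0 ∨ ∃ P : ℕ, ∀ p : ℕ, P ≤ p → p.Prime → G p = g p) (l : List (ℝ × ℝ)) (hl : Win l) (a : ℝ) (ha : 0 < a) :
    Tendsto (fun X : ℝ => MX u0 G X l (a * X) / X) atTop (nhds (ρ * a * NW l)) := by
  have hT : Tendsto (fun X : ℝ => ρ * a * (SW g X l (Real.log (a * X) / Real.log X) : ℂ)) atTop
      (nhds (ρ * a * NW l)) :=
    ((Complex.continuous_ofReal.tendsto _).comp (sw_at g hg l hl a ha)).const_mul _
  have hF : Tendsto (fun X : ℝ => MX u0 G X l (a * X) / X -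
      ρ * a * (SW g X l (Real.log (a * X) / Real.log X) : ℂ)) atTop (nhds 0) := by
    rw [Metric.tendsto_nhds]
    intro η hη
    obtain ⟨B, hB0, hB⟩ := sw_bd g hg l hl
    have hC0 : 0 ≤ C := by
      have := (norm_nonneg _).trans (hb 1 zero_le_one)
      linarith
    have hC2 : 0 ≤ C + ‖ρ‖ := add_nonneg hC0 (norm_nonneg _)
    set C2 : ℝ := C + ‖ρ‖ with hC2d
    have hB1 : 0 < B + 1 := by linarith
    have hε : 0 < η / (4 * a * (B + 1)) := by positivity
    set ε : ℝ := η / (4 * a * (B + 1)) with hεd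
    have hε2 : 0 < η / (4 * (C2 * a + 1)) := by positivity
    set ε2 : ℝ := η / (4 * (C2 * a + 1)) with hε2d
    obtain ⟨K0, hK0⟩ := eventually_atTop.1 (Metric.tendsto_nhds.1 hl0 ε hε)
    set K : ℝ := max K0 1 with hKd
    have hK1 : 1 ≤ K := le_max_right _ _
    have hlK : ∀ Y : ℝ, K ≤ Y → ‖u0 Y - ρ * Y‖ ≤ ε * Y := by
      intro Y hY
      have hY0 : 0 < Y := one_pos.trans_le (hK1.trans hY)
      have h1 := hK0 Y ((le_max_left _ _).trans hY)
      rw [dist_eq_norm] at h1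
      have hYc : (Y : ℂ) ≠ 0 := by exact_mod_cast hY0.ne'
      have h2 : u0 Y - ρ * Y = (u0 Y / Y - ρ) * Y := by
        field_simp
      rw [h2, norm_mul, Complex.norm_real, Real.norm_of_nonneg hY0.le]
      exact mul_le_mul_of_nonneg_right h1.le hY0.le
    have hst := mx_step u0 ρ G g hg hG hr ε C2 (fun X => Real.log K / Real.log X)
      (mx_base u0 ρ C h0 hb g ε K hε.le hK1 hlK) l hl
    have hsm : ∀ᶠ X : ℝ in atTop, SW g X l (Real.log (a * X) / Real.log X) -
        SW g X l (Real.log (a * X) / Real.log X - Real.log K / Real.log X) ≤ ε2 := by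
      by_cases hne : l = []
      · subst hne
        filter_upwards [eventually_gt_atTop 1, eventually_ge_atTop (K / a)] with X h1 h2
        have hlX : 0 < Real.log X := Real.log_pos h1
        have hKX : K ≤ a * X := by
          rw [div_le_iff₀ ha] at h2
          linarith
        have y2 : 0 ≤ Real.log (a * X) / Real.log X - Real.log K / Real.log X := by
          rw [← sub_div]
          exact div_nonneg (sub_nonneg.2 (Real.log_le_log (one_pos.trans_le hK1) hKX)) hlX.le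
        have y1 : 0 ≤ Real.log (a * X) / Real.log X :=
          div_nonneg (Real.log_nonneg (hK1.trans hKX)) hlX.le
        simp only [SW]
        rw [if_pos y1, if_pos y2, sub_self]
        exact hε2.le
      · obtain ⟨η', hη', h⟩ := sw_equi g hg l hl hne ε2 hε2
        have hκ : Tendsto (fun X : ℝ => Real.log K / Real.log X) atTop (nhds 0) :=
          Tendsto.div_atTop tendsto_const_nhds Real.tendsto_log_atTop
        filter_upwards [h, hκ.eventually_le_const hη'] with X h1 h2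
        have h3 := h1 (Real.log (a * X) / Real.log X - Real.log K / Real.log X)
        have h4 := sw_mono g hg.nn X l (Real.log (a * X) / Real.log X)
          (Real.log (a * X) / Real.log X - Real.log K / Real.log X + η') (by linarith)
        linarith
    filter_upwards [hst, hsm, hB, eventually_gt_atTop 0] with X h1 h2 h3 hX
    have haX : 0 < a * X := mul_pos ha hX
    have e := h1 (a * X) haX
    unfold Er at e
    have hXc : (X : ℂ) ≠ 0 := by exact_mod_cast hX.ne'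
    have e2 : MX u0 G X l (a * X) / X - ρ * a * (SW g X l (Real.log (a * X) / Real.log X) : ℂ) =
        (MX u0 G X l (a * X) - ρ * ((a * X : ℝ) : ℂ) * SW g X l (Real.log (a * X) / Real.log X)) / X := by
      push_cast
      field_simp
    rw [dist_zero_right, e2, norm_div, Complex.norm_real, Real.norm_of_nonneg hX.le, div_lt_iff₀ hX]
    refine e.trans_lt ?_
    have i1 : ε * (a * X) * SW g X l (Real.log (a * X) / Real.log X) ≤ ε * (a * X) * B :=
      mul_le_mul_of_nonneg_left (h3 _) (mul_nonneg hε.le haX.le)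
    have i2 : C2 * (a * X) * (SW g X l (Real.log (a * X) / Real.log X) -
        SW g X l (Real.log (a * X) / Real.log X - Real.log K / Real.log X)) ≤ C2 * (a * X) * ε2 :=
      mul_le_mul_of_nonneg_left h2 (mul_nonneg hC2 haX.le)
    have i3 : ε * a * B ≤ η / 4 := by
      have h5 : ε * a * (B + 1) = η / 4 := by
        rw [hεd]
        field_simp
      nlinarith [mul_pos hε ha]
    have i4 : C2 * a * ε2 ≤ η / 4 := by
      have h5 : (C2 * a + 1) * ε2 = η / 4 := by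
        rw [hε2d]
        have : C2 * a + 1 ≠ 0 := by positivity
        field_simp
      nlinarith
    have i5 : ε * (a * X) * B = ε * a * B * X := by ring
    have i6 : C2 * (a * X) * ε2 = C2 * a * ε2 * X := by ring
    nlinarith [mul_le_mul_of_nonneg_right i3 hX.le, mul_le_mul_of_nonneg_right i4 hX.le, mul_pos hη hX]
  simpa using hF.add hT

/-- `u_sub_mx` and `mx_lim` (for `X` large `0 ≤ a X ≤ X ^ 2`, and `C' (a X) X^(-δ) / X → 0`). -/
theorem abs_mean (u0 : ℝ → ℂ) (ρ : ℂ) (C : ℝ) (h0 : ∀ Y : ℝ, Y < 1 → u0 Y = 0) (hb : ∀ Y : ℝ, 0 ≤ Y → ‖u0 Y‖ ≤ C * Y)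
    (hl0 : Tendsto (fun Y : ℝ => u0 Y / Y) atTop (nhds ρ)) (G : ℕ → ℂ) (g : ℕ → ℝ) (hg : Mert g) (hG : ∀ p, ‖G p‖ ≤ g p)
    (hr : ρ = 0 ∨ ∃ P : ℕ, ∀ p : ℕ, P ≤ p → p.Prime → G p = g p)
    (U : ℝ → List (ℝ × ℝ) → ℝ → ℂ) (hU0 : ∀ X Y, U X [] Y = u0 Y)
    (hrec : ∀ w l, Win (w :: l) → ∃ C' δ : ℝ, 0 < δ ∧ ∀ᶠ X : ℝ in atTop, ∀ Y : ℝ, 0 ≤ Y → Y ≤ X ^ 2 →
      ‖U X (w :: l) Y - ∑ p ∈ PW X w.1 w.2, G p * U X l (Y / p)‖ ≤ C' * Y * X ^ (-δ))
    (l : List (ℝ × ℝ)) (hl : Win l) (a : ℝ) (ha : 0 < a) :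
    Tendsto (fun X : ℝ => U X l (a * X) / X) atTop (nhds (ρ * a * NW l)) := by
  obtain ⟨C', δ, hδ, h1⟩ := u_sub_mx u0 G g hg hG U hU0 hrec l hl
  have h2 := mx_lim u0 ρ C h0 hb hl0 G g hg hG hr l hl a ha
  have h3 : Tendsto (fun X : ℝ => U X l (a * X) / X - MX u0 G X l (a * X) / X) atTop (nhds 0) := by
    refine squeeze_zero_norm' (a := fun X : ℝ => |C'| * a * X ^ (-δ)) ?_ ?_
    · filter_upwards [h1, eventually_ge_atTop 1, eventually_ge_atTop a] with X h1 hX hXa
      have hX0 : 0 < X := one_pos.trans_le hX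
      have haX : a * X ≤ X ^ 2 := by nlinarith
      have haX0 : 0 ≤ a * X := (mul_pos ha hX0).le
      have e := h1 (a * X) haX0 haX
      have hr0 : 0 ≤ X ^ (-δ) := Real.rpow_nonneg hX0.le _
      rw [← sub_div, norm_div, Complex.norm_real, Real.norm_of_nonneg hX0.le, div_le_iff₀ hX0]
      refine e.trans ?_
      have h4 : C' * (a * X) * X ^ (-δ) ≤ |C'| * (a * X) * X ^ (-δ) :=
        mul_le_mul_of_nonneg_right (mul_le_mul_of_nonneg_right (le_abs_self _) haX0) hr0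
      refine h4.trans (le_of_eq ?_)
      ring
    · simpa using (tendsto_rpow_neg_atTop hδ).const_mul (|C'| * a)
  simpa using h3.add h2

end Pool.Agent.LPr

end

/-! ### from `Lib_MP_f1a94e_lp.GxId` -/

section

/-!
# Piece GXID: `gx` in terms of tuples of primes
-/

set_option autoImplicit false

namespace Pool.Agent.LPr

open Finset Filter

/-- the large primes of `n` -/
private noncomputable def LQ (X δ : ℝ) (n : ℕ) : Finset ℕ :=
  open Classical in n.primeFactors.filter (fun p => X ^ δ < (p : ℝ))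

private theorem mem_LQ {X δ : ℝ} {n p : ℕ} (hn : n ≠ 0) :
    p ∈ LQ X δ n ↔ p.Prime ∧ p ∣ n ∧ X ^ δ < (p : ℝ) := by
  classical
  unfold LQ
  rw [mem_filter, Nat.mem_primeFactors]
  tauto

private theorem card_LQ {X δ : ℝ} (hX : 2 ≤ X) {n : ℕ} (hn : n ≠ 0) (hnX : (n : ℝ) ≤ X ^ 2) :
    δ * ((LQ X δ n).card : ℝ) ≤ 2 := by
  classical
  have hX0 : (0 : ℝ) ≤ X := by linarith
  have hX1 : (1 : ℝ) < X := by linarith
  have h1 : (∏ p ∈ LQ X δ n, p) ∣ n :=
    (Finset.prod_dvd_prod_of_subset _ _ _ (filter_subset _ _)).trans (Nat.prod_primeFactors_dvd n)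
  have h2 : ((∏ p ∈ LQ X δ n, p : ℕ) : ℝ) ≤ X ^ 2 := by
    refine le_trans ?_ hnX
    exact_mod_cast Nat.le_of_dvd (Nat.pos_of_ne_zero hn) h1
  have h3 : (X ^ δ) ^ (LQ X δ n).card ≤ ((∏ p ∈ LQ X δ n, p : ℕ) : ℝ) := by
    rw [Nat.cast_prod, ← Finset.prod_const]
    refine Finset.prod_le_prod (fun p _ => Real.rpow_nonneg hX0 δ) (fun p hp => ?_)
    exact ((mem_LQ hn).1 hp).2.2.le
  have h4 : X ^ (δ * ((LQ X δ n).card : ℝ)) ≤ X ^ (2 : ℝ) := by
    rw [Real.rpow_mul hX0, Real.rpow_natCast, Real.rpow_two]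
    exact h3.trans h2
  exact (Real.rpow_le_rpow_left_iff hX1).1 h4

private theorem div_ok {X : ℝ} {n p : ℕ} (hn : n ≠ 0) (hnX : (n : ℝ) ≤ X ^ 2) (hp : p ∣ n) :
    n / p ≠ 0 ∧ ((n / p : ℕ) : ℝ) ≤ X ^ 2 := by
  constructor
  · exact (Nat.div_pos (Nat.le_of_dvd (Nat.pos_of_ne_zero hn) hp) (Nat.pos_of_dvd_of_pos hp (Nat.pos_of_ne_zero hn))).ne'
  · refine le_trans ?_ hnX
    exact_mod_cast Nat.div_le_self n p

/-- bound for the number of tuples of large primes with product dividing `n` -/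
theorem tw_bd (δ : ℝ) (hδ : 0 < δ) (l : List (ℝ × ℝ)) (hl : ∀ w ∈ l, δ ≤ w.1) :
    ∃ B : ℝ, 0 ≤ B ∧ ∀ X : ℝ, 2 ≤ X → ∀ n : ℕ, n ≠ 0 → (n : ℝ) ≤ X ^ 2 → 0 ≤ TW X l n ∧ TW X l n ≤ B := by
  induction l with
  | nil => exact ⟨1, zero_le_one, fun X _ n _ _ => by simp [TW]⟩
  | cons w l ih =>
    obtain ⟨B, hB, h⟩ := ih (fun w' hw' => hl w' (List.mem_cons_of_mem _ hw'))
    refine ⟨2 / δ * B, by positivity, fun X hX n hn hnX => ?_⟩
    have hX0 : (0 : ℝ) ≤ X := by linarith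
    have key : ∀ p ∈ (PW X w.1 w.2).filter (fun p => p ∣ n), 0 ≤ TW X l (n / p) ∧ TW X l (n / p) ≤ B := by
      intro p hp
      have hd := div_ok hn hnX (mem_filter.1 hp).2
      exact h X hX _ hd.1 hd.2
    have hsub : (PW X w.1 w.2).filter (fun p => p ∣ n) ⊆ LQ X δ n := by
      intro p hp
      obtain ⟨hp1, hp2⟩ := mem_filter.1 hp
      obtain ⟨h1, h2, -⟩ := (mem_PW hX0).1 hp1
      refine (mem_LQ hn).2 ⟨h1, hp2, lt_of_le_of_lt ?_ h2⟩
      exact Real.rpow_le_rpow_of_exponent_le (by linarith) (hl w (List.mem_cons_self))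
    have hcard : ((((PW X w.1 w.2).filter (fun p => p ∣ n)).card : ℕ) : ℝ) ≤ 2 / δ := by
      rw [le_div_iff₀ hδ, mul_comm]
      refine le_trans ?_ (card_LQ (δ := δ) hX hn hnX)
      gcongr
    rw [TW]
    refine ⟨Finset.sum_nonneg (fun p hp => (key p hp).1), ?_⟩
    calc ∑ p ∈ (PW X w.1 w.2).filter (fun p => p ∣ n), TW X l (n / p)
        ≤ ((PW X w.1 w.2).filter (fun p => p ∣ n)).card • B := Finset.sum_le_card_nsmul _ _ _ (fun p hp => (key p hp).2)
      _ = (((PW X w.1 w.2).filter (fun p => p ∣ n)).card : ℝ) * B := by rw [nsmul_eq_mul]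
      _ ≤ 2 / δ * B := by gcongr

private theorem expd_sum_gx {r : ℕ} (c : Fin r → ℂ) (u v : Fin r → ℝ) (s : Finset ℕ) (j : ℕ) :
    ∀ Λ : ℕ → List (ℝ × ℝ) → ℂ, expd c u v j (fun l => ∑ p ∈ s, Λ p l) = ∑ p ∈ s, expd c u v j (Λ p) := by
  induction j with
  | zero => intro Λ; simp [expd]
  | succ j ih =>
    intro Λ
    simp only [expd]
    rw [Finset.sum_comm]
    refine Finset.sum_congr rfl (fun i _ => ?_)
    rw [ih (fun p l => Λ p ((u i, v i) :: l)), Finset.mul_sum]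

private theorem esum (y : ℕ → ℂ) (L : Finset ℕ) (j : ℕ) :
    ∑ p ∈ L, y p * ∑ S ∈ powersetCard j (L.erase p), ∏ q ∈ S, y q
      = ((j : ℂ) + 1) * ∑ S ∈ powersetCard (j + 1) L, ∏ q ∈ S, y q := by
  have h1 : ((j : ℂ) + 1) * ∑ S ∈ powersetCard (j + 1) L, ∏ q ∈ S, y q
      = ∑ S ∈ powersetCard (j + 1) L, ∑ p ∈ S, ∏ q ∈ S, y q := by
    rw [Finset.mul_sum]
    refine Finset.sum_congr rfl (fun S hS => ?_)
    rw [Finset.sum_const, (mem_powersetCard.1 hS).2, nsmul_eq_mul]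
    push_cast
    ring
  rw [h1]
  simp only [Finset.mul_sum]
  rw [Finset.sum_sigma', Finset.sum_sigma']
  refine Finset.sum_bij' (fun a _ => ⟨insert a.1 a.2, a.1⟩) (fun a _ => ⟨a.2, a.1.erase a.2⟩) ?_ ?_ ?_ ?_ ?_
  · rintro ⟨p, S⟩ h
    obtain ⟨hp, hS⟩ := mem_sigma.1 h
    obtain ⟨hS1, hS2⟩ := mem_powersetCard.1 hS
    have hpS : p ∉ S := fun hh => (mem_erase.1 (hS1 hh)).1 rfl
    refine mem_sigma.2 ⟨mem_powersetCard.2 ⟨?_, ?_⟩, mem_insert_self _ _⟩
    · exact insert_subset hp (hS1.trans (erase_subset _ _))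
    · simp only [card_insert_of_notMem hpS, hS2]
  · rintro ⟨T, p⟩ h
    obtain ⟨hT, hp⟩ := mem_sigma.1 h
    obtain ⟨hT1, hT2⟩ := mem_powersetCard.1 hT
    refine mem_sigma.2 ⟨hT1 hp, mem_powersetCard.2 ⟨erase_subset_erase _ hT1, ?_⟩⟩
    simp only at hp hT2 ⊢
    rw [card_erase_of_mem hp, hT2]
    rfl
  · rintro ⟨p, S⟩ h
    obtain ⟨hp, hS⟩ := mem_sigma.1 h
    obtain ⟨hS1, hS2⟩ := mem_powersetCard.1 hS
    have hpS : p ∉ S := fun hh => (mem_erase.1 (hS1 hh)).1 rfl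
    simp only [erase_insert hpS]
  · rintro ⟨T, p⟩ h
    obtain ⟨hT, hp⟩ := mem_sigma.1 h
    simp only at hp ⊢
    simp only [insert_erase hp]
  · rintro ⟨p, S⟩ h
    obtain ⟨hp, hS⟩ := mem_sigma.1 h
    obtain ⟨hS1, hS2⟩ := mem_powersetCard.1 hS
    have hpS : p ∉ S := fun hh => (mem_erase.1 (hS1 hh)).1 rfl
    simp only [prod_insert hpS]

private theorem win_iff {X : ℝ} (hX : 2 ≤ X) {p : ℕ} (hp : p.Prime) (a b : ℝ) :
    (X ^ a < (p : ℝ) ∧ (p : ℝ) ≤ X ^ b) ↔ (a < Real.log p / Real.log X ∧ Real.log p / Real.log X ≤ b) := by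
  have hX0 : (0 : ℝ) < X := by linarith
  have hlX : 0 < Real.log X := Real.log_pos (by linarith)
  have hp0 : (0 : ℝ) < p := by exact_mod_cast hp.pos
  rw [lt_div_iff₀ hlX, div_le_iff₀ hlX, ← Real.log_rpow hX0, ← Real.log_rpow hX0,
    Real.log_lt_log_iff (Real.rpow_pos_of_pos hX0 a) hp0, Real.log_le_log_iff hp0 (Real.rpow_pos_of_pos hX0 b)]

private theorem expd_TW {r : ℕ} (c : Fin r → ℂ) (u v : Fin r → ℝ) (δ : ℝ) (hδu : ∀ i, δ ≤ u i)
    (X : ℝ) (hX : 2 ≤ X) (n : ℕ) (hn : n ≠ 0)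
    (hsq : ∀ p : ℕ, p.Prime → X ^ δ < (p : ℝ) → ¬ p ^ 2 ∣ n) (j : ℕ) :
    ∀ m : ℕ, m ∣ n → expd c u v j (fun l => (TW X l m : ℂ)) = (j.factorial : ℂ) *
      ∑ S ∈ powersetCard j (LQ X δ m), ∏ q ∈ S,
        ∑ i, if u i < Real.log q / Real.log X ∧ Real.log q / Real.log X ≤ v i then c i else 0 := by
  classical
  have hX0 : (0 : ℝ) ≤ X := by linarith
  set y : ℕ → ℂ := fun q => ∑ i, if u i < Real.log q / Real.log X ∧ Real.log q / Real.log X ≤ v i then c i else 0 with hy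
  induction j with
  | zero =>
    intro m _
    simp [expd, TW]
  | succ j ih =>
    intro m hm
    have hm0 : m ≠ 0 := fun h => hn (by rw [h] at hm; exact Nat.eq_zero_of_zero_dvd hm)
    have hset : ∀ i, (PW X (u i) (v i)).filter (fun p => p ∣ m) =
        (LQ X δ m).filter (fun p : ℕ => u i < Real.log (p : ℝ) / Real.log X ∧ Real.log (p : ℝ) / Real.log X ≤ v i) := by
      intro i
      ext p
      rw [mem_filter, mem_filter, mem_PW hX0, mem_LQ hm0]
      constructor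
      · rintro ⟨⟨h1, h2⟩, h3⟩
        refine ⟨⟨h1, h3, lt_of_le_of_lt ?_ h2.1⟩, (win_iff hX h1 _ _).1 h2⟩
        exact Real.rpow_le_rpow_of_exponent_le (by linarith) (hδu i)
      · rintro ⟨⟨h1, h3, -⟩, h2⟩
        exact ⟨⟨h1, (win_iff hX h1 _ _).2 h2⟩, h3⟩
    have hstep : expd c u v (j + 1) (fun l => (TW X l m : ℂ)) =
        ∑ p ∈ LQ X δ m, y p * expd c u v j (fun l => (TW X l (m / p) : ℂ)) := by
      rw [expd]
      have h1 : ∀ i, expd c u v j (fun l => ((TW X ((u i, v i) :: l) m : ℝ) : ℂ)) =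
          ∑ p ∈ (PW X (u i) (v i)).filter (fun p => p ∣ m), expd c u v j (fun l => (TW X l (m / p) : ℂ)) := by
        intro i
        rw [← expd_sum_gx c u v _ j (fun p l => (TW X l (m / p) : ℂ))]
        congr 1
        funext l
        rw [TW]
        push_cast
        rfl
      simp only [h1, hset]
      simp only [Finset.sum_filter, Finset.mul_sum, hy, Finset.sum_mul]
      rw [Finset.sum_comm]
      refine Finset.sum_congr rfl (fun p _ => Finset.sum_congr rfl (fun i _ => ?_))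
      split_ifs <;> ring
    rw [hstep]
    have h2 : ∀ p ∈ LQ X δ m, y p * expd c u v j (fun l => (TW X l (m / p) : ℂ)) =
        (j.factorial : ℂ) * (y p * ∑ S ∈ powersetCard j ((LQ X δ m).erase p), ∏ q ∈ S, y q) := by
      intro p hp
      obtain ⟨hp1, hp2, hp3⟩ := (mem_LQ hm0).1 hp
      have hd0 : m / p ≠ 0 := (Nat.div_pos (Nat.le_of_dvd (Nat.pos_of_ne_zero hm0) hp2) hp1.pos).ne'
      have hLe : LQ X δ (m / p) = (LQ X δ m).erase p := by
        ext q
        rw [mem_erase, mem_LQ hd0, mem_LQ hm0]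
        constructor
        · rintro ⟨q1, q2, q3⟩
          refine ⟨?_, q1, q2.trans (Nat.div_dvd_of_dvd hp2), q3⟩
          rintro rfl
          apply hsq q q1 q3
          refine dvd_trans ?_ hm
          rw [pow_two]
          exact (Nat.dvd_div_iff_mul_dvd hp2).1 q2
        · rintro ⟨q0, q1, q2, q3⟩
          refine ⟨q1, ?_, q3⟩
          have : q ∣ p * (m / p) := by rw [Nat.mul_div_cancel' hp2]; exact q2
          rcases (Nat.Prime.dvd_mul q1).1 this with h | h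
          · exact absurd ((Nat.prime_dvd_prime_iff_eq q1 hp1).1 h) q0
          · exact h
      rw [ih (m / p) ((Nat.div_dvd_of_dvd hp2).trans hm), hLe]
      ring
    rw [Finset.sum_congr rfl h2, ← Finset.mul_sum, esum y (LQ X δ m) j, Nat.factorial_succ]
    push_cast
    ring

/-- `gx` in terms of tuples of primes (elementary symmetric polynomials) -/
theorem gx_id {r : ℕ} (c : Fin r → ℂ) (u v : Fin r → ℝ) (φ : ℝ → ℂ)
    (hφ : ∀ t, φ t = 1 + ∑ i, if u i < t ∧ t ≤ v i then c i else 0) (δ : ℝ) (hδ : 0 < δ) (hδu : ∀ i, δ ≤ u i)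
    (J : ℕ) (hJ : 2 < (J + 1) * δ) (X : ℝ) (hX : 2 ≤ X) (n : ℕ) (hn : n ≠ 0) (hnX : (n : ℝ) ≤ X ^ 2)
    (hsq : ∀ p : ℕ, p.Prime → X ^ δ < (p : ℝ) → ¬ p ^ 2 ∣ n) :
    gx φ X n = ∑ j ∈ range (J + 1), (1 / (j.factorial : ℂ)) * expd c u v j (fun l => (TW X l n : ℂ)) := by
  classical
  have hX0 : (0 : ℝ) < X := by linarith
  have hlX : 0 < Real.log X := Real.log_pos (by linarith)
  set y : ℕ → ℂ := fun q => ∑ i, if u i < Real.log q / Real.log X ∧ Real.log q / Real.log X ≤ v i then c i else 0 with hy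
  have hφy : ∀ q : ℕ, φ (Real.log q / Real.log X) = 1 + y q := fun q => hφ _
  have hcardJ : (LQ X δ n).card ≤ J := by
    have h1 := card_LQ (δ := δ) hX hn hnX
    by_contra hcon
    push Not at hcon
    have h2 : ((J : ℝ) + 1) ≤ ((LQ X δ n).card : ℝ) := by exact_mod_cast hcon
    nlinarith
  -- the product
  have hprod : gx φ X n = ∏ p ∈ LQ X δ n, (1 + y p) := by
    unfold gx
    rw [Finset.prod_list_map_count]
    have hsub : LQ X δ n ⊆ n.primeFactorsList.toFinset := by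
      intro p hp
      obtain ⟨h1, h2, -⟩ := (mem_LQ hn).1 hp
      rw [List.mem_toFinset, Nat.mem_primeFactorsList hn]
      exact ⟨h1, h2⟩
    rw [← Finset.prod_subset hsub]
    · refine Finset.prod_congr rfl (fun p hp => ?_)
      obtain ⟨h1, h2, h3⟩ := (mem_LQ hn).1 hp
      rw [hφy, Nat.primeFactorsList_count_eq]
      have h4 : n.factorization p = 1 := by
        apply le_antisymm
        · by_contra hcon
          push Not at hcon
          exact hsq p h1 h3 ((h1.pow_dvd_iff_le_factorization hn).2 hcon)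
        · exact (h1.dvd_iff_one_le_factorization hn).1 h2
      rw [h4, pow_one]
    · intro p hp hpL
      rw [List.mem_toFinset, Nat.mem_primeFactorsList hn] at hp
      have hle : (p : ℝ) ≤ X ^ δ := by
        by_contra hcon
        push Not at hcon
        exact hpL ((mem_LQ hn).2 ⟨hp.1, hp.2, hcon⟩)
      have ht : Real.log p / Real.log X ≤ δ := by
        rw [div_le_iff₀ hlX, ← Real.log_rpow hX0]
        exact Real.log_le_log (by exact_mod_cast hp.1.pos) hle
      have hy0 : y p = 0 := by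
        rw [hy]
        refine Finset.sum_eq_zero (fun i _ => ?_)
        rw [if_neg]
        rintro ⟨h1, -⟩
        linarith [hδu i]
      rw [hφy, hy0, add_zero, one_pow]
  rw [hprod, Finset.prod_one_add, Finset.sum_powerset]
  have hterm : ∀ j, (1 / (j.factorial : ℂ)) * expd c u v j (fun l => (TW X l n : ℂ)) =
      ∑ S ∈ powersetCard j (LQ X δ n), ∏ q ∈ S, y q := by
    intro j
    rw [expd_TW c u v δ hδu X hX n hn hsq j n dvd_rfl, ← mul_assoc, one_div,
      inv_mul_cancel₀ (by exact_mod_cast (Nat.factorial_ne_zero j)), one_mul]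
  simp only [hterm]
  refine Finset.sum_subset (range_subset_range.2 (by omega)) (fun j _ hj => ?_)
  rw [mem_range, not_lt] at hj
  rw [powersetCard_eq_empty.2 (by omega), Finset.sum_empty]

end Pool.Agent.LPr

end

/-! ### from `Lib_MP_f1a94e_lp.TwM` -/

section

/-!
# Piece TWM: mean values of `TW` over the integers
-/

set_option autoImplicit false

namespace Pool.Agent.LPr

open Finset Filter

private lemma twm_dvd (F : ℕ → ℂ) (K p : ℕ) (hp : 0 < p) :
    ∑ n ∈ (Icc 1 K).filter (fun n => p ∣ n), F (n / p) = ∑ m ∈ Icc 1 (K / p), F m := by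
  refine sum_nbij' (fun n => n / p) (fun m => m * p) ?_ ?_ ?_ ?_ ?_
  · intro n hn
    rw [mem_filter, mem_Icc] at hn
    obtain ⟨⟨h1, h2⟩, k, rfl⟩ := hn
    rw [mem_Icc, Nat.mul_div_cancel_left _ hp]
    refine ⟨Nat.pos_of_mul_pos_left h1 |> fun h => h, ?_⟩
    rw [Nat.le_div_iff_mul_le hp, mul_comm]
    exact h2
  · intro m hm
    rw [mem_Icc] at hm
    rw [mem_filter, mem_Icc]
    exact ⟨⟨Nat.mul_pos hm.1 hp, (Nat.le_div_iff_mul_le hp).1 hm.2⟩, Dvd.intro_left m rfl⟩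
  · intro n hn
    rw [mem_filter] at hn
    exact Nat.div_mul_cancel hn.2
  · intro m _
    exact Nat.mul_div_cancel m hp
  · intro n _
    rfl

/-- PROOF. `U X l Y = ∑_(1 ≤ n ≤ Y) TW X l n` (as a complex number), `u0 Y = ⌊Y⌋₊`, `ρ = 1`, `C = 1`, `G = g = 1` (`mert_all`): `U X (w :: l) Y = ∑_(p ∈ PW) ∑_(n ≤ Y, p ∣ n) TW X l (n / p) = ∑_(p ∈ PW) U X l (Y / p)` exactly for `Y ≥ 0`
(`n = p m`, `⌊Y / p⌋₊ = ⌊Y⌋₊ / p`, `Nat.floor_div_natCast`), so `hrec` holds with `C' = 0`, `δ = 1`. `abs_mean` with `a = 1`; real parts. -/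
theorem tw_mean (l : List (ℝ × ℝ)) (hl : Win l) :
    Tendsto (fun X : ℝ => (∑ n ∈ Icc 1 ⌊X⌋₊, TW X l n) / X) atTop (nhds (NW l)) := by
  have key := abs_mean (fun Y => ((⌊Y⌋₊ : ℝ) : ℂ)) 1 1 ?_ ?_ ?_ (fun _ => 1) (fun _ => 1) mert_all (fun _ => by simp)
    (Or.inr ⟨0, fun p _ _ => by simp⟩) (fun X l Y => ∑ n ∈ Icc 1 ⌊Y⌋₊, ((TW X l n : ℝ) : ℂ)) ?_ ?_ l hl 1 one_pos
  · have h1 := (Complex.continuous_re.tendsto _).comp key
    simp only [Complex.ofReal_one, one_mul, Complex.ofReal_re] at h1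
    refine h1.congr fun X => ?_
    simp only [Function.comp_apply]
    rw [← Complex.ofReal_sum, ← Complex.ofReal_div, Complex.ofReal_re]
  · intro Y hY
    have : ⌊Y⌋₊ = 0 := Nat.floor_eq_zero.2 hY
    simp [this]
  · intro Y hY
    rw [one_mul, Complex.norm_real, Real.norm_of_nonneg (Nat.cast_nonneg _)]
    exact Nat.floor_le hY
  · have h1 := tendsto_nat_floor_div_atTop (R := ℝ)
    have h2 := (Complex.continuous_ofReal.tendsto _).comp h1
    rw [Complex.ofReal_one] at h2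
    refine h2.congr fun X => ?_
    simp only [Function.comp_apply]
    rw [Complex.ofReal_div]
  · intro X Y
    simp [TW]
  · intro w l hwl
    refine ⟨0, 1, one_pos, ?_⟩
    filter_upwards [eventually_gt_atTop (0 : ℝ)] with X hX Y hY _
    have : ∑ n ∈ Icc 1 ⌊Y⌋₊, ((TW X (w :: l) n : ℝ) : ℂ) -
        ∑ p ∈ PW X w.1 w.2, 1 * ∑ n ∈ Icc 1 ⌊Y / p⌋₊, ((TW X l n : ℝ) : ℂ) = 0 := by
      rw [sub_eq_zero]
      have e1 : ∀ n, ((TW X (w :: l) n : ℝ) : ℂ) =
          ∑ p ∈ PW X w.1 w.2, if p ∣ n then ((TW X l (n / p) : ℝ) : ℂ) else 0 := by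
        intro n
        rw [← sum_filter]
        simp only [TW]
        rw [Complex.ofReal_sum]
      simp only [e1]
      rw [sum_comm]
      refine sum_congr rfl fun p hp => ?_
      rw [mem_PW hX.le] at hp
      rw [one_mul, ← sum_filter, twm_dvd (fun n => ((TW X l n : ℝ) : ℂ)) _ _ hp.1.pos, Nat.floor_div_natCast]
    rw [this]
    simp

/-- `expd` commutes with limits (induction on `j`; the lists that occur have all their windows among the `(u i, v i)`, so they satisfy `Win`). -/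
theorem expd_lim {r : ℕ} (c : Fin r → ℂ) (u v : Fin r → ℝ) (hw : ∀ i, 0 < u i ∧ u i ≤ v i) (j : ℕ)
    (Λ : ℝ → List (ℝ × ℝ) → ℂ) (Λ' : List (ℝ × ℝ) → ℂ)
    (h : ∀ l, Win l → Tendsto (fun X : ℝ => Λ X l) atTop (nhds (Λ' l))) :
    Tendsto (fun X : ℝ => expd c u v j (Λ X)) atTop (nhds (expd c u v j Λ')) := by
  induction j generalizing Λ Λ' with
  | zero => exact h [] (by intro w hw; simp at hw)
  | succ j ih =>
    simp only [expd]
    refine tendsto_finsetSum _ fun i _ => (ih (fun X l => Λ X ((u i, v i) :: l)) (fun l => Λ' ((u i, v i) :: l)) ?_).const_mul (c i)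
    intro l hl
    refine h _ fun w hwl => ?_
    rw [List.mem_cons] at hwl
    rcases hwl with rfl | hwl
    · exact hw i
    · exact hl w hwl

/-- `expd` is linear: it commutes with finite sums -/
theorem expd_sum {r : ℕ} (c : Fin r → ℂ) (u v : Fin r → ℝ) (j : ℕ) {ι : Type*} (s : Finset ι) (a : ι → ℂ)
    (Λ : ι → List (ℝ × ℝ) → ℂ) :
    expd c u v j (fun l => ∑ n ∈ s, a n * Λ n l) = ∑ n ∈ s, a n * expd c u v j (Λ n) := by
  induction j generalizing Λ with
  | zero => rfl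
  | succ j ih =>
    simp only [expd]
    have e1 : ∀ i, expd c u v j (fun l => ∑ n ∈ s, a n * Λ n ((u i, v i) :: l)) =
        ∑ n ∈ s, a n * expd c u v j (fun l => Λ n ((u i, v i) :: l)) := fun i => ih _
    simp only [e1, mul_sum]
    rw [sum_comm]
    refine sum_congr rfl fun n _ => sum_congr rfl fun i _ => ?_
    ring

/-- `expd` is homogeneous -/
theorem expd_smul {r : ℕ} (c : Fin r → ℂ) (u v : Fin r → ℝ) (j : ℕ) (a : ℂ) (Λ : List (ℝ × ℝ) → ℂ) :
    expd c u v j (fun l => a * Λ l) = a * expd c u v j Λ := by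
  induction j generalizing Λ with
  | zero => rfl
  | succ j ih =>
    simp only [expd]
    have e1 : ∀ i, expd c u v j (fun l => a * Λ ((u i, v i) :: l)) =
        a * expd c u v j (fun l => Λ ((u i, v i) :: l)) := fun i => ih _
    simp only [e1, mul_sum]
    refine sum_congr rfl fun i _ => ?_
    ring

/-- `‖expd c u v j Λ‖ ≤ (∑ ‖c i‖)^j B` if `‖Λ l‖ ≤ B` for all lists `l` of length `j` with windows among the `(u i, v i)` (in particular `Win l` and `δ ≤ w.1` for all `w ∈ l` if `δ ≤ u i` for all `i`) -/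
theorem expd_bd {r : ℕ} (c : Fin r → ℂ) (u v : Fin r → ℝ) (j : ℕ) (Λ : List (ℝ × ℝ) → ℂ) (B : ℝ)
    (h : ∀ l : List (ℝ × ℝ), l.length = j → (∀ w ∈ l, ∃ i, w = (u i, v i)) → ‖Λ l‖ ≤ B) :
    ‖expd c u v j Λ‖ ≤ (∑ i, ‖c i‖) ^ j * B := by
  induction j generalizing Λ with
  | zero =>
    simp only [expd, pow_zero, one_mul]
    exact h [] rfl (by simp)
  | succ j ih =>
    simp only [expd]
    have e1 : ∀ i, ‖expd c u v j (fun l => Λ ((u i, v i) :: l))‖ ≤ (∑ i, ‖c i‖) ^ j * B := by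
      intro i
      refine ih _ fun l hl hw => h _ (by simp [hl]) fun w hwl => ?_
      rw [List.mem_cons] at hwl
      rcases hwl with rfl | hwl
      · exact ⟨i, rfl⟩
      · exact hw w hwl
    calc ‖∑ i, c i * expd c u v j (fun l => Λ ((u i, v i) :: l))‖
        ≤ ∑ i, ‖c i * expd c u v j (fun l => Λ ((u i, v i) :: l))‖ := norm_sum_le _ _
      _ ≤ ∑ i, ‖c i‖ * ((∑ i, ‖c i‖) ^ j * B) := by
          refine sum_le_sum fun i _ => ?_
          rw [norm_mul]
          exact mul_le_mul_of_nonneg_left (e1 i) (norm_nonneg _)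
      _ = (∑ i, ‖c i‖) ^ (j + 1) * B := by
          rw [← sum_mul, pow_succ]
          ring

end Pool.Agent.LPr

end

/-! ### from `Lib_MP_f1a94e_lp.IntM` -/

section

/-!
# Piece INTM: mean values over the integers
-/

set_option autoImplicit false

namespace Pool.Agent.LPr

open Finset Filter

private theorem norm_list (φ : ℝ → ℂ) (hφ1 : ∀ t, ‖φ t‖ = 1) (X : ℝ) (L : List ℕ) :
    ‖(L.map (fun p : ℕ => φ (Real.log p / Real.log X))).prod‖ = 1 := by
  induction L with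
  | nil => simp
  | cons a L ih =>
    rw [List.map_cons, List.prod_cons, norm_mul, ih, hφ1, one_mul]

private theorem norm_gx (φ : ℝ → ℂ) (hφ1 : ∀ t, ‖φ t‖ = 1) (X : ℝ) (n : ℕ) : ‖gx φ X n‖ = 1 :=
  norm_list φ hφ1 X _

/-- the integers `n ≤ Y` divisible by the square of a prime larger than `P ≥ 1` are few: at most `Y ∑_(m > P) 1 / m² ≤ 2 Y / P` (`∑_(m > P, m natural) 1/m² ≤ 2 / P`) -/
theorem sq_few (P Y : ℝ) (hP : 1 ≤ P) (hY : 0 ≤ Y) (S : Finset ℕ) (hS : ∀ n ∈ S, 1 ≤ n ∧ (n : ℝ) ≤ Y ∧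
    ∃ p : ℕ, P < (p : ℝ) ∧ p ^ 2 ∣ n) : (S.card : ℝ) ≤ 2 * Y / P := by
  classical
  set k : ℕ := ⌊P⌋₊ with hk
  set M : ℕ := ⌊Y⌋₊ with hM
  have hk1 : 1 ≤ k := Nat.le_floor (by exact_mod_cast hP)
  have hkP : (k : ℝ) ≤ P := Nat.floor_le (zero_le_one.trans hP)
  have hPk : P < k + 1 := Nat.lt_floor_add_one P
  have hsub : S ⊆ (Ioc k M).biUnion (fun m => (Ioc 0 M).filter (fun n => m ^ 2 ∣ n)) := by
    intro n hn
    obtain ⟨h1, h2, p, h3, h4⟩ := hS n hn
    have hnM : n ≤ M := Nat.le_floor h2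
    have hp0 : k < p := by
      have : (k : ℝ) < p := lt_of_le_of_lt hkP h3
      exact_mod_cast this
    have hpn : p ≤ n := by
      have h5 : p ^ 2 ≤ n := Nat.le_of_dvd h1 h4
      nlinarith
    rw [mem_biUnion]
    refine ⟨p, mem_Ioc.2 ⟨hp0, hpn.trans hnM⟩, ?_⟩
    rw [mem_filter, mem_Ioc]
    exact ⟨⟨h1, hnM⟩, h4⟩
  have h1 : S.card ≤ ∑ m ∈ Ioc k M, M / m ^ 2 := by
    refine (card_le_card hsub).trans (card_biUnion_le.trans (le_of_eq ?_))
    refine sum_congr rfl fun m _ => ?_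
    exact Nat.Ioc_filter_dvd_card_eq_div M (m ^ 2)
  have h2 : (S.card : ℝ) ≤ ∑ m ∈ Ioc k M, Y * ((m : ℝ) ^ 2)⁻¹ := by
    have h3 : (S.card : ℝ) ≤ ((∑ m ∈ Ioc k M, M / m ^ 2 : ℕ) : ℝ) := by exact_mod_cast h1
    refine h3.trans ?_
    rw [Nat.cast_sum]
    refine sum_le_sum fun m _ => ?_
    refine Nat.cast_div_le.trans ?_
    rw [Nat.cast_pow, div_eq_mul_inv]
    exact mul_le_mul_of_nonneg_right (Nat.floor_le hY) (by positivity)
  rcases le_or_gt k M with hkM | hkM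
  · rw [← mul_sum] at h2
    have h3 := sum_Ioc_inv_sq_le_sub (α := ℝ) (Nat.one_le_iff_ne_zero.1 hk1) hkM
    have h4 : (0 : ℝ) ≤ (M : ℝ)⁻¹ := by positivity
    have hk0 : (0 : ℝ) < k := by exact_mod_cast hk1
    have h5 : ((k : ℝ))⁻¹ ≤ 2 / P := by
      rw [inv_eq_one_div, div_le_div_iff₀ hk0 (one_pos.trans_le hP)]
      have : (1 : ℝ) ≤ k := by exact_mod_cast hk1
      linarith
    calc (S.card : ℝ) ≤ Y * ∑ m ∈ Ioc k M, ((m : ℝ) ^ 2)⁻¹ := h2
      _ ≤ Y * (2 / P) := mul_le_mul_of_nonneg_left (h3.trans (by linarith)) hY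
      _ = 2 * Y / P := by ring
  · rw [Ioc_eq_empty (by omega), sum_empty] at h2
    exact h2.trans (by positivity)

/-- PROOF. By `gx_id` for `X` large, `∑_(n ≤ X) gx φ X n = ∑_(j ≤ J) (1/j!) expd c u v j (∑_(n ≤ X) TW X · n) + error` (`expd_sum`); the error comes from the `n ≤ X` divisible by `p²`, `p > X ^ δ`: at most `2 X^(1-δ)` numbers (`sq_few`), each contributes at most
`1 + ∑_j (1/j!) (∑ ‖c i‖)^j B_j` by `expd_bd`, `tw_bd` (`‖gx φ X n‖ = 1` as `|φ| = 1`; `B_j` the maximum over the finitely many lists, or the bound of `tw_bd` applied for each list and summed: the lists of length `j` with entries among the `r` windows are finitely many). Divide by `X`: `expd_smul`, `tw_mean`, `expd_lim`. -/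
theorem int_mean {r : ℕ} (c : Fin r → ℂ) (u v : Fin r → ℝ) (hw : ∀ i, 0 < u i ∧ u i ≤ v i) (φ : ℝ → ℂ) (hφ1 : ∀ t, ‖φ t‖ = 1)
    (hφ : ∀ t, φ t = 1 + ∑ i, if u i < t ∧ t ≤ v i then c i else 0) (δ : ℝ) (hδ : 0 < δ) (hδu : ∀ i, δ ≤ u i)
    (J : ℕ) (hJ : 2 < (J + 1) * δ) :
    Tendsto (fun X : ℝ => (∑ n ∈ Icc 1 ⌊X⌋₊, gx φ X n) / X) atTop (nhds (EV c u v J)) := by
  classical
  choose! Bt hBt0 hBt using fun (l : List (ℝ × ℝ)) (hl : ∀ w ∈ l, δ ≤ w.1) => tw_bd δ hδ l hl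
  -- uniform bound
  have hD : ∃ D : ℝ, 0 ≤ D ∧ ∀ X : ℝ, 2 ≤ X → ∀ n : ℕ, n ≠ 0 → (n : ℝ) ≤ X ^ 2 →
      ‖∑ j ∈ range (J + 1), (1 / (j.factorial : ℂ)) * expd c u v j (fun l => (TW X l n : ℂ))‖ ≤ D := by
    have hlist : ∀ (j : ℕ) (f : Fin j → Fin r), ∀ w ∈ List.ofFn (fun i => (u (f i), v (f i))), δ ≤ w.1 := by
      intro j f w hw
      rw [List.mem_ofFn] at hw
      obtain ⟨i, rfl⟩ := hw
      exact hδu _
    refine ⟨∑ j ∈ range (J + 1), (1 / (j.factorial : ℝ)) * ((∑ i, ‖c i‖) ^ j *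
      ∑ f : Fin j → Fin r, Bt (List.ofFn (fun i => (u (f i), v (f i))))), ?_, ?_⟩
    · refine sum_nonneg fun j _ => mul_nonneg (by positivity) (mul_nonneg (by positivity) ?_)
      exact sum_nonneg fun f _ => hBt0 _ (hlist j f)
    · intro X hX n hn hnX
      refine (norm_sum_le _ _).trans (sum_le_sum fun j _ => ?_)
      rw [norm_mul]
      refine mul_le_mul (le_of_eq ?_) ?_ (norm_nonneg _) (by positivity)
      · rw [norm_div, norm_one, Complex.norm_natCast]
      · refine expd_bd c u v j _ _ fun l hlj hl => ?_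
        have hch : ∀ i : Fin j, ∃ k : Fin r, l.get (Fin.cast hlj.symm i) = (u k, v k) := fun i =>
          hl _ (List.get_mem _ _)
        choose f hf using hch
        have hlf : l = List.ofFn (fun i => (u (f i), v (f i))) := by
          apply List.ext_get
          · rw [List.length_ofFn, hlj]
          · intro m h1 h2
            rw [List.get_ofFn]
            exact hf ⟨m, by rw [← hlj]; exact h1⟩
        rw [hlf]
        have h1 := hBt _ (hlist j f) X hX n hn hnX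
        rw [Complex.norm_real, Real.norm_of_nonneg h1.1]
        refine h1.2.trans ?_
        exact single_le_sum (f := fun f : Fin j → Fin r => Bt (List.ofFn (fun i => (u (f i), v (f i)))))
          (fun g _ => hBt0 _ (hlist j g)) (mem_univ f)
  obtain ⟨D, hD0, hD⟩ := hD
  -- the main term
  have hmain : Tendsto (fun X : ℝ => ∑ j ∈ range (J + 1), (1 / (j.factorial : ℂ)) *
      expd c u v j (fun l => ∑ n ∈ Icc 1 ⌊X⌋₊, ((1 / X : ℝ) : ℂ) * (TW X l n : ℂ))) atTop
      (nhds (EV c u v J)) := by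
    unfold EV
    refine tendsto_finsetSum _ fun j _ => Tendsto.const_mul _ ?_
    refine expd_lim c u v hw j (fun X l => ∑ n ∈ Icc 1 ⌊X⌋₊, ((1 / X : ℝ) : ℂ) * (TW X l n : ℂ)) _ ?_
    intro l hl
    have h1 := (Complex.continuous_ofReal.tendsto _).comp (tw_mean l hl)
    refine h1.congr fun X => ?_
    rw [Function.comp_apply, div_eq_mul_inv, mul_comm, ← one_div, mul_sum]
    push_cast
    rfl
  -- the difference
  have hdiff : Tendsto (fun X : ℝ => (∑ n ∈ Icc 1 ⌊X⌋₊, gx φ X n) / X -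
      ∑ j ∈ range (J + 1), (1 / (j.factorial : ℂ)) *
        expd c u v j (fun l => ∑ n ∈ Icc 1 ⌊X⌋₊, ((1 / X : ℝ) : ℂ) * (TW X l n : ℂ))) atTop (nhds 0) := by
    refine squeeze_zero_norm' (a := fun X : ℝ => 2 * (1 + D) * X ^ (-δ)) ?_ ?_
    · filter_upwards [eventually_ge_atTop 2] with X hX
      have hX0 : (0 : ℝ) < X := two_pos.trans_le hX
      have hX1 : (1 : ℝ) ≤ X := one_le_two.trans hX
      set T : ℕ → ℂ := fun n => ∑ j ∈ range (J + 1), (1 / (j.factorial : ℂ)) *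
        expd c u v j (fun l => (TW X l n : ℂ)) with hT
      set bad : Finset ℕ := (Icc 1 ⌊X⌋₊).filter (fun n => ∃ p : ℕ, X ^ δ < (p : ℝ) ∧ p ^ 2 ∣ n) with hbad
      have e1 : ∑ j ∈ range (J + 1), (1 / (j.factorial : ℂ)) *
          expd c u v j (fun l => ∑ n ∈ Icc 1 ⌊X⌋₊, ((1 / X : ℝ) : ℂ) * (TW X l n : ℂ)) =
          ∑ n ∈ Icc 1 ⌊X⌋₊, ((1 / X : ℝ) : ℂ) * T n := by
        rw [hT]
        simp only [mul_sum]
        rw [sum_comm]
        refine sum_congr rfl fun j _ => ?_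
        rw [expd_sum c u v j (Icc 1 ⌊X⌋₊) (fun _ => ((1 / X : ℝ) : ℂ)) (fun n l => (TW X l n : ℂ)), mul_sum]
        refine sum_congr rfl fun n _ => ?_
        ring
      have e2 : (∑ n ∈ Icc 1 ⌊X⌋₊, gx φ X n) / X - ∑ n ∈ Icc 1 ⌊X⌋₊, ((1 / X : ℝ) : ℂ) * T n =
          ∑ n ∈ bad, ((1 / X : ℝ) : ℂ) * (gx φ X n - T n) := by
        have e3 : (∑ n ∈ Icc 1 ⌊X⌋₊, gx φ X n) / X - ∑ n ∈ Icc 1 ⌊X⌋₊, ((1 / X : ℝ) : ℂ) * T n =
            ∑ n ∈ Icc 1 ⌊X⌋₊, ((1 / X : ℝ) : ℂ) * (gx φ X n - T n) := by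
          rw [← mul_sum, ← mul_sum, sum_sub_distrib]
          push_cast
          ring
        rw [e3, hbad, sum_filter]
        refine sum_congr rfl fun n hn => ?_
        split_ifs with hb
        · rfl
        · rw [mem_Icc] at hn
          have hnX : (n : ℝ) ≤ X := (Nat.le_floor_iff hX0.le).1 hn.2
          have hnX2 : (n : ℝ) ≤ X ^ 2 := by nlinarith
          have hg := gx_id c u v φ hφ δ hδ hδu J hJ X hX n (Nat.one_le_iff_ne_zero.1 hn.1) hnX2
            (fun p _ hp1 hp2 => hb ⟨p, hp1, hp2⟩)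
          rw [hg]
          simp [hT]
      rw [e1, e2]
      have hcard : (bad.card : ℝ) ≤ 2 * X / X ^ δ := by
        refine sq_few (X ^ δ) X (Real.one_le_rpow hX1 hδ.le) hX0.le bad fun n hn => ?_
        rw [hbad, mem_filter, mem_Icc] at hn
        exact ⟨hn.1.1, (Nat.le_floor_iff hX0.le).1 hn.1.2, hn.2⟩
      refine (norm_sum_le _ _).trans ?_
      have hterm : ∀ n ∈ bad, ‖((1 / X : ℝ) : ℂ) * (gx φ X n - T n)‖ ≤ 1 / X * (1 + D) := by
        intro n hn
        rw [hbad, mem_filter, mem_Icc] at hn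
        have hnX : (n : ℝ) ≤ X := (Nat.le_floor_iff hX0.le).1 hn.1.2
        have hnX2 : (n : ℝ) ≤ X ^ 2 := by nlinarith
        rw [norm_mul, Complex.norm_real, Real.norm_of_nonneg (by positivity : (0 : ℝ) ≤ 1 / X)]
        refine mul_le_mul_of_nonneg_left ?_ (by positivity)
        refine (norm_sub_le _ _).trans (add_le_add (le_of_eq (norm_gx φ hφ1 X n)) ?_)
        exact hD X hX n (Nat.one_le_iff_ne_zero.1 hn.1.1) hnX2
      refine (sum_le_sum hterm).trans ?_
      rw [sum_const, nsmul_eq_mul]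
      have h5 : (0 : ℝ) ≤ 1 / X * (1 + D) := by positivity
      refine (mul_le_mul_of_nonneg_right hcard h5).trans (le_of_eq ?_)
      rw [Real.rpow_neg hX0.le]
      have h6 : X ^ δ ≠ 0 := (Real.rpow_pos_of_pos hX0 δ).ne'
      field_simp
    · simpa using (tendsto_rpow_neg_atTop hδ).const_mul (2 * (1 + D))
  simpa using hdiff.add hmain

/-- `mu φ = EV c u v J` -/
theorem mu_eq {r : ℕ} (c : Fin r → ℂ) (u v : Fin r → ℝ) (hw : ∀ i, 0 < u i ∧ u i ≤ v i) (φ : ℝ → ℂ) (hφ1 : ∀ t, ‖φ t‖ = 1)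
    (hφ : ∀ t, φ t = 1 + ∑ i, if u i < t ∧ t ≤ v i then c i else 0) (δ : ℝ) (hδ : 0 < δ) (hδu : ∀ i, δ ≤ u i)
    (J : ℕ) (hJ : 2 < (J + 1) * δ) : mu φ = EV c u v J :=
  (int_mean c u v hw φ hφ1 hφ δ hδ hδu J hJ).limUnder_eq

/-- the mean value exists (from `int_mean`: `δ = min u_i`, or `δ = 1` if `r = 0`; `J` large) -/
theorem mu_tendsto (φ : ℝ → ℂ) (hφ : StepF φ) :
    Tendsto (fun X : ℝ => (∑ n ∈ Icc 1 ⌊X⌋₊, gx φ X n) / X) atTop (nhds (mu φ)) := by
  obtain ⟨r, c, u, v, hw, hv⟩ := hφ.ex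
  have hδ : ∃ δ : ℝ, 0 < δ ∧ ∀ i, δ ≤ u i := by
    rcases isEmpty_or_nonempty (Fin r) with h | h
    · exact ⟨1, one_pos, fun i => h.elim i⟩
    · obtain ⟨i0, hi0⟩ := Finite.exists_min u
      exact ⟨u i0, (hw i0).1, hi0⟩
  obtain ⟨δ, hδ, hδu⟩ := hδ
  obtain ⟨J, hJ⟩ := exists_nat_gt (2 / δ)
  have hJ' : 2 < ((J : ℝ) + 1) * δ := by
    rw [div_lt_iff₀ hδ] at hJ
    nlinarith
  rw [mu_eq c u v hw φ hφ.un hv δ hδ hδu J hJ']
  exact int_mean c u v hw φ hφ.un hv δ hδ hδu J hJ'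

/-- `‖mu φ‖ ≤ 1` (`mu_tendsto`, `‖gx φ X n‖ = 1`) -/
theorem mu_le (φ : ℝ → ℂ) (hφ : StepF φ) : ‖mu φ‖ ≤ 1 := by
  refine le_of_tendsto (mu_tendsto φ hφ).norm ?_
  filter_upwards [eventually_gt_atTop 0] with X hX
  rw [norm_div, Complex.norm_real, Real.norm_of_nonneg hX.le, div_le_one hX]
  refine (norm_sum_le _ _).trans ?_
  have h1 : ∑ n ∈ Icc 1 ⌊X⌋₊, ‖gx φ X n‖ = ⌊X⌋₊ := by
    rw [sum_congr rfl fun n _ => norm_gx φ hφ.un X n]
    simp
  rw [h1]
  exact Nat.floor_le hX.le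

end Pool.Agent.LPr

end
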