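import Mathlib

/-!
# MP_f1a94e_nt: merged library part G04

Concatenation of files of the libraries `Lib_MP_f1a94e_*` (each in its own section), only to save build time.
-/

/-! ### from `Lib_MP_f1a94e_eq.RiemTwo` -/

section

/-!
# Piece RIEMTWO: from rectangles to continuous functions
-/

set_option autoImplicit false

namespace Pool.Agent.OmEq

open Finset Filter

lemma rt_cellint (Ψ : ℝ → ℝ → ℝ) (hΨ : Continuous (Function.uncurry Ψ)) (y0 y1 u0 u1 v η : ℝ)
    (hy : y0 ≤ y1) (hu : u0 ≤ u1)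
    (h : ∀ y ∈ Set.Icc y0 y1, ∀ u ∈ Set.Icc u0 u1, |Ψ y u - v| ≤ η) :
    |(∫ y in y0..y1, ∫ u in u0..u1, Ψ y u) - v * ((y1 - y0) * (u1 - u0))| ≤
      η * ((y1 - y0) * (u1 - u0)) := by
  have hG : Continuous (fun y => ∫ u in u0..u1, Ψ y u) :=
    intervalIntegral.continuous_parametric_intervalIntegral_of_continuous' hΨ u0 u1
  have h1 : (∫ y in y0..y1, ∫ u in u0..u1, Ψ y u) - v * ((y1 - y0) * (u1 - u0)) =
      ∫ y in y0..y1, ((∫ u in u0..u1, Ψ y u) - v * (u1 - u0)) := by
    rw [intervalIntegral.integral_sub (hG.intervalIntegrable _ _)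
      (continuous_const.intervalIntegrable _ _), intervalIntegral.integral_const, smul_eq_mul]
    ring
  rw [h1]
  have h2 : ∀ y ∈ Set.uIoc y0 y1, ‖(∫ u in u0..u1, Ψ y u) - v * (u1 - u0)‖ ≤ η * (u1 - u0) := by
    intro y hy'
    rw [Set.uIoc_of_le hy] at hy'
    have hc : Continuous (fun u => Ψ y u) := hΨ.comp (Continuous.prodMk_right y)
    have h3 : (∫ u in u0..u1, Ψ y u) - v * (u1 - u0) = ∫ u in u0..u1, (Ψ y u - v) := by
      rw [intervalIntegral.integral_sub (hc.intervalIntegrable _ _)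
        (continuous_const.intervalIntegrable _ _), intervalIntegral.integral_const, smul_eq_mul]
      ring
    rw [h3]
    have h4 := intervalIntegral.norm_integral_le_of_norm_le_const (a := u0) (b := u1) (C := η)
      (f := fun u => Ψ y u - v) (by
        intro u hu'
        rw [Set.uIoc_of_le hu] at hu'
        exact h y ⟨hy'.1.le, hy'.2⟩ u ⟨hu'.1.le, hu'.2⟩)
    rwa [abs_of_nonneg (by linarith : (0:ℝ) ≤ u1 - u0)] at h4
  have h5 := intervalIntegral.norm_integral_le_of_norm_le_const h2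
  rw [abs_of_nonneg (by linarith : (0:ℝ) ≤ y1 - y0)] at h5
  rw [Real.norm_eq_abs] at h5
  linarith

/-- decomposition of the double integral into cells -/
lemma rt_split (Ψ : ℝ → ℝ → ℝ) (hΨ : Continuous (Function.uncurry Ψ)) (N J : ℕ) (a s : ℕ → ℝ) :
    (∫ y in a 0..a N, ∫ u in s 0..s J, Ψ y u) =
      ∑ i ∈ range N, ∑ j ∈ range J, ∫ y in a i..a (i + 1), ∫ u in s j..s (j + 1), Ψ y u := by
  have hc : ∀ y, Continuous (fun u => Ψ y u) := fun y => hΨ.comp (Continuous.prodMk_right y)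
  have hG : ∀ u0 u1 : ℝ, Continuous (fun y => ∫ u in u0..u1, Ψ y u) := fun u0 u1 =>
    intervalIntegral.continuous_parametric_intervalIntegral_of_continuous' hΨ u0 u1
  rw [← intervalIntegral.sum_integral_adjacent_intervals (n := N) (a := a)
    (fun k _ => (hG _ _).intervalIntegrable _ _)]
  apply Finset.sum_congr rfl
  intro i _
  rw [← intervalIntegral.integral_finset_sum (fun j _ => (hG _ _).intervalIntegrable _ _)]
  apply intervalIntegral.integral_congr
  intro y _
  simp only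
  rw [intervalIntegral.sum_integral_adjacent_intervals (n := J) (a := s)
    (fun k _ => (hc y).intervalIntegrable _ _)]

/-- the number of points in a rectangle with a corner on the axis -/
lemma rt_corner {ι : Type} (A : ι → Prop) (S : ℝ → Finset ι) (m t : ι → ℝ)
    (hS : ∀ x e, e ∈ S x ↔ A e ∧ m e ≤ x) (hm : ∀ e, A e → 0 < m e) (c : ℝ)
    (hc : ∀ s u : ℝ, s ≤ u →
      Tendsto (fun x : ℝ => (((S x).filter (fun e => s ≤ t e ∧ t e < u)).card : ℝ) / x) atTop
        (nhds (c * (u - s)))) (y s u : ℝ) (hy : 0 ≤ y) (hsu : s ≤ u) :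
    Tendsto (fun X : ℝ => (((S (y * X)).filter (fun e => s ≤ t e ∧ t e < u)).card : ℝ) / X) atTop
      (nhds (y * (c * (u - s)))) := by
  rcases eq_or_lt_of_le hy with h | h
  · have h1 : S 0 = ∅ := by
      apply Finset.eq_empty_of_forall_notMem
      intro e he
      rw [hS] at he
      exact absurd (hm e he.1) (not_lt.2 he.2)
    rw [← h]
    simp [h1]
  · have h1 : Tendsto (fun X : ℝ => y * X) atTop atTop := tendsto_id.const_mul_atTop h
    have h2 := ((hc s u hsu).comp h1).const_mul y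
    refine h2.congr' ?_
    filter_upwards [eventually_gt_atTop 0] with X hX
    simp only [Function.comp]
    rw [← mul_div_assoc, mul_div_mul_left _ _ h.ne']

/-- the number of points in a rectangle -/
lemma rt_cell {ι : Type} [DecidableEq ι] (A : ι → Prop) (S : ℝ → Finset ι) (m t : ι → ℝ)
    (hS : ∀ x e, e ∈ S x ↔ A e ∧ m e ≤ x) (hm : ∀ e, A e → 0 < m e) (c : ℝ)
    (hc : ∀ s u : ℝ, s ≤ u →
      Tendsto (fun x : ℝ => (((S x).filter (fun e => s ≤ t e ∧ t e < u)).card : ℝ) / x) atTop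
        (nhds (c * (u - s)))) (y y' s u : ℝ) (hy : 0 ≤ y) (hyy : y ≤ y') (hsu : s ≤ u) :
    Tendsto (fun X : ℝ => (((S (y' * X) \ S (y * X)).filter
      (fun e => s ≤ t e ∧ t e < u)).card : ℝ) / X) atTop (nhds (c * ((y' - y) * (u - s)))) := by
  have h1 := rt_corner A S m t hS hm c hc y s u hy hsu
  have h2 := rt_corner A S m t hS hm c hc y' s u (hy.trans hyy) hsu
  have h3 := h2.sub h1
  have e : y' * (c * (u - s)) - y * (c * (u - s)) = c * ((y' - y) * (u - s)) := by ring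
  rw [e] at h3
  refine h3.congr' ?_
  filter_upwards [eventually_gt_atTop 0] with X hX
  rw [← sub_div]
  congr 1
  have hsub : (S (y * X)).filter (fun e => s ≤ t e ∧ t e < u) ⊆
      (S (y' * X)).filter (fun e => s ≤ t e ∧ t e < u) := by
    apply Finset.filter_subset_filter
    intro e he
    rw [hS] at he ⊢
    exact ⟨he.1, he.2.trans (mul_le_mul_of_nonneg_right hyy hX.le)⟩
  have h4 : (S (y' * X) \ S (y * X)).filter (fun e => s ≤ t e ∧ t e < u) =
      (S (y' * X)).filter (fun e => s ≤ t e ∧ t e < u) \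
        (S (y * X)).filter (fun e => s ≤ t e ∧ t e < u) := by
    ext e
    simp only [Finset.mem_filter, Finset.mem_sdiff]
    tauto
  rw [h4, Finset.card_sdiff_of_subset hsub, Nat.cast_sub (Finset.card_le_card hsub)]

/-- telescoping decomposition of a finite set of points along a coordinate -/
lemma rt_tele {ι : Type} (Q : Finset ι) (t : ι → ℝ) (s : ℕ → ℝ) (hs : Monotone s) (f : ι → ℝ)
    (J : ℕ) : ∑ e ∈ Q.filter (fun e => s 0 ≤ t e ∧ t e < s J), f e =
      ∑ j ∈ range J, ∑ e ∈ Q.filter (fun e => s j ≤ t e ∧ t e < s (j + 1)), f e := by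
  induction J with
  | zero =>
    rw [Finset.range_zero, Finset.sum_empty]
    apply Finset.sum_eq_zero
    intro e he
    rw [Finset.mem_filter] at he
    exact absurd he.2.1 (not_le.2 he.2.2)
  | succ J ih =>
    rw [Finset.sum_range_succ, ← ih]
    simp only [Finset.sum_filter]
    rw [← Finset.sum_add_distrib]
    apply Finset.sum_congr rfl
    intro e _
    have h1 : s 0 ≤ s J := hs (Nat.zero_le _)
    have h2 : s J ≤ s (J + 1) := hs (Nat.le_succ _)
    by_cases a : s 0 ≤ t e <;> by_cases b : t e < s J <;> by_cases d : t e < s (J + 1)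
    · have n : ¬ (s J ≤ t e) := not_le.2 b
      simp [a, b, n]
      intro h
      exact absurd d (not_lt.2 h)
    · exact absurd (b.trans_le h2) d
    · have n : s J ≤ t e := not_lt.1 b
      simp [a, b, d, n]
    · simp [b, d]
    · have n : ¬ (s J ≤ t e) := not_le.2 b
      simp [a, n]
    · exact absurd (b.trans_le h2) d
    · exact absurd (h1.trans (not_lt.1 b)) a
    · simp [b, d]

/-- decomposition of a sum over the points into sums over the cells -/
lemma rt_sum {ι : Type} [DecidableEq ι] (A : ι → Prop) (S : ℝ → Finset ι) (m t : ι → ℝ)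
    (hS : ∀ x e, e ∈ S x ↔ A e ∧ m e ≤ x) (hm : ∀ e, A e → 0 < m e) (X : ℝ) (hX : 0 < X)
    (a s : ℕ → ℝ) (ha : Monotone a) (ha0 : a 0 = 0) (hs : Monotone s) (f : ι → ℝ) (N J : ℕ)
    (hf : ∀ e, ¬ (s 0 ≤ t e ∧ t e < s J) → f e = 0) :
    ∑ e ∈ S (a N * X), f e = ∑ i ∈ range N, ∑ j ∈ range J,
      ∑ e ∈ (S (a (i + 1) * X) \ S (a i * X)).filter (fun e => s j ≤ t e ∧ t e < s (j + 1)), f e := by
  have h0 : ∑ e ∈ S (a 0 * X), f e = 0 := by
    rw [ha0, zero_mul]
    apply Finset.sum_eq_zero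
    intro e he
    rw [hS] at he
    exact absurd (hm e he.1) (not_lt.2 he.2)
  have h1 := Finset.sum_range_sub (fun i => ∑ e ∈ S (a i * X), f e) N
  rw [h0, sub_zero] at h1
  rw [← h1]
  apply Finset.sum_congr rfl
  intro i _
  rw [← rt_tele _ t s hs f J]
  have hsub : S (a i * X) ⊆ S (a (i + 1) * X) := by
    intro e he
    rw [hS] at he ⊢
    exact ⟨he.1, he.2.trans (mul_le_mul_of_nonneg_right (ha (Nat.le_succ _)) hX.le)⟩
  rw [← Finset.sum_sdiff hsub, add_sub_cancel_right, Finset.sum_filter]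
  apply Finset.sum_congr rfl
  intro e _
  by_cases h : s 0 ≤ t e ∧ t e < s J
  · rw [if_pos h]
  · rw [if_neg h, hf e h]

/-- PROOF. `Ψ` is uniformly continuous and vanishes outside `[0, b] × [-B, B]`. If `b ≤ 0` everything is `0` (`Ψ = 0`; the sum is over terms with `Ψ = 0`). Let `δ = 1/K` mesh:
for `0 ≤ i < ⌈b K⌉`, `- B K ≤ j < B K` the cell `{e : i/K X < m e ≤ (i+1)/K X, j/K ≤ t e < (j+1)/K}` has
`X c / K^2 + o(X)` elements (difference of `hc` at `x = (i+1)/K X` and `x = i/K X`; for `i = 0` use `0 < m e`, i.e. the `S` at `x = 0` is empty). On a cell `Ψ (m e / X) (t e)`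
differs from the value at the corner by at most `η(K) → 0`. So `limsup |sum/X - c ∑ Ψ(corner)/K^2| ≤ C η(K)`, and `∑ Ψ(corner)/K^2` differs from
`∫ y, ∫ u, Ψ y u` by at most `C η(K)` as well. -/
theorem riem2 {ι : Type} (A : ι → Prop) (S : ℝ → Finset ι) (m t : ι → ℝ) (hS : ∀ x e, e ∈ S x ↔ A e ∧ m e ≤ x)
    (hm : ∀ e, A e → 0 < m e) (c : ℝ) (hc0 : 0 ≤ c)
    (hc : ∀ s u : ℝ, s ≤ u →
      Tendsto (fun x : ℝ => (((S x).filter (fun e => s ≤ t e ∧ t e < u)).card : ℝ) / x) atTop (nhds (c * (u - s))))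
    (Ψ : ℝ → ℝ → ℝ) (hΨ : Continuous (Function.uncurry Ψ)) (hcs : HasCompactSupport (Function.uncurry Ψ))
    (hneg : ∀ y u, y ≤ 0 → Ψ y u = 0) (b : ℝ) (hb : ∀ y u, b ≤ y → Ψ y u = 0) :
    Tendsto (fun X : ℝ => (∑ e ∈ S (b * X), Ψ (m e / X) (t e)) / X) atTop (nhds (c * ∫ y, ∫ u, Ψ y u)) := by
  classical
  -- bounds of the support
  obtain ⟨M, hM1, hMb⟩ : ∃ M : ℕ, 1 ≤ M ∧ b ≤ M := by
    obtain ⟨n, hn⟩ := exists_nat_ge b
    exact ⟨n + 1, by omega, hn.trans (by push_cast; linarith)⟩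
  obtain ⟨B, hB1, hB⟩ : ∃ B : ℕ, 1 ≤ B ∧ ∀ y u, Ψ y u ≠ 0 → |u| < B := by
    obtain ⟨R, hR⟩ := hcs.isBounded.subset_closedBall (0 : ℝ × ℝ)
    obtain ⟨n, hn⟩ := exists_nat_gt R
    refine ⟨n + 1, by omega, fun y u h => ?_⟩
    have h1 : (y, u) ∈ tsupport (Function.uncurry Ψ) := subset_tsupport _ (by
      rw [Function.mem_support]
      exact h)
    have h2 := hR h1
    rw [mem_closedBall_zero_iff, Prod.norm_def] at h2
    have h3 : ‖u‖ ≤ R := (le_max_right _ _).trans h2
    rw [Real.norm_eq_abs] at h3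
    push_cast
    linarith
  have hB0 : (0:ℝ) < B := by exact_mod_cast hB1
  have hM0 : (0:ℝ) < M := by exact_mod_cast hM1
  -- the integral over the box
  have hint : (∫ y, ∫ u, Ψ y u) = ∫ y in (0:ℝ)..M, ∫ u in (-B:ℝ)..B, Ψ y u := by
    have h1 : ∀ y, (∫ u, Ψ y u) = ∫ u in (-B:ℝ)..B, Ψ y u := by
      intro y
      symm
      apply intervalIntegral.integral_eq_integral_of_support_subset
      intro u hu
      have := abs_lt.1 (hB y u hu)
      exact ⟨this.1, this.2.le⟩
    simp_rw [h1]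
    symm
    apply intervalIntegral.integral_eq_integral_of_support_subset
    intro y hy
    rw [Function.mem_support] at hy
    constructor
    · by_contra hc
      apply hy
      have : ∀ u, Ψ y u = 0 := fun u => hneg y u (not_lt.1 hc)
      simp [this]
    · by_contra hc
      apply hy
      have : ∀ u, Ψ y u = 0 := fun u => hb y u (hMb.trans (not_le.1 hc).le)
      simp [this]
  rw [Metric.tendsto_atTop']
  intro ε hε
  -- parameters
  obtain ⟨V, hV⟩ : ∃ V : ℝ, V = M * (2 * B) := ⟨_, rfl⟩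
  have hV0 : 0 < V := by rw [hV]; positivity
  obtain ⟨η, hη⟩ : ∃ η : ℝ, η = ε / (4 * ((c + 1) * (V + 1))) := ⟨_, rfl⟩
  have hη0 : 0 < η := by rw [hη]; positivity
  have hηe : η * ((c + 1) * (V + 1)) = ε / 4 := by
    rw [hη]
    field_simp
  have huc : UniformContinuous (Function.uncurry Ψ) := hcs.uniformContinuous_of_continuous hΨ
  obtain ⟨δ, hδ, hδ'⟩ := Metric.uniformContinuous_iff.1 huc η hη0
  obtain ⟨K, hK⟩ := exists_nat_gt (1 / δ)
  have hK0 : (0:ℝ) < K := lt_trans (by positivity) hK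
  have hK0' : 0 < K := by exact_mod_cast hK0
  have hKδ : 1 / (K:ℝ) < δ := by
    rw [div_lt_iff₀ hK0]
    rw [div_lt_iff₀ hδ] at hK
    linarith
  -- the grid
  obtain ⟨a, ha⟩ : ∃ a : ℕ → ℝ, a = fun i : ℕ => (i : ℝ) / K := ⟨_, rfl⟩
  obtain ⟨s, hs⟩ : ∃ s : ℕ → ℝ, s = fun j : ℕ => -(B:ℝ) + (j : ℝ) / K := ⟨_, rfl⟩
  have ham : Monotone a := by
    intro i j hij
    rw [ha]
    simp only
    gcongr
  have hsm : Monotone s := by
    intro i j hij
    rw [hs]
    simp only
    gcongr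
  have ha0 : a 0 = 0 := by rw [ha]; simp
  have ha0' : ∀ i, 0 ≤ a i := fun i => by rw [← ha0]; exact ham (Nat.zero_le _)
  have haN : a (M * K) = M := by
    rw [ha]
    simp only [Nat.cast_mul]
    field_simp
  have hs0 : s 0 = -B := by rw [hs]; simp
  have hsJ : s (2 * B * K) = B := by
    rw [hs]
    simp only [Nat.cast_mul, Nat.cast_ofNat]
    field_simp
    ring
  have hda : ∀ i, a (i + 1) - a i = 1 / K := fun i => by
    rw [ha]
    simp only [Nat.cast_add, Nat.cast_one]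
    ring
  have hds : ∀ i, s (i + 1) - s i = 1 / K := fun i => by
    rw [hs]
    simp only [Nat.cast_add, Nat.cast_one]
    ring
  obtain ⟨C, hC⟩ : ∃ C : ℕ → ℕ → ℝ → Finset ι, C = fun i j X => (S (a (i + 1) * X) \ S (a i * X)).filter
      (fun e => s j ≤ t e ∧ t e < s (j + 1)) := ⟨_, rfl⟩
  have hlim : ∀ i j, Tendsto (fun X : ℝ => ((C i j X).card : ℝ) / X) atTop
      (nhds (c * (1 / K * (1 / K)))) := by
    intro i j
    have h1 := rt_cell A S m t hS hm c hc (a i) (a (i + 1)) (s j) (s (j + 1)) (ha0' i)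
      (ham (Nat.le_succ _)) (hsm (Nat.le_succ _))
    rw [hda, hds] at h1
    rw [hC]
    exact h1
  have hNJ : ∀ w : ℝ, ∑ i ∈ range (M * K), ∑ j ∈ range (2 * B * K), w * (1 / K * (1 / K)) = w * V := by
    intro w
    simp only [Finset.sum_const, Finset.card_range, nsmul_eq_mul, Nat.cast_mul, Nat.cast_ofNat]
    rw [hV]
    field_simp
  -- variation on a cell
  have hvar : ∀ i j, ∀ y ∈ Set.Icc (a i) (a (i + 1)), ∀ u ∈ Set.Icc (s j) (s (j + 1)),
      |Ψ y u - Ψ (a i) (s j)| ≤ η := by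
    intro i j y hy u hu
    have h1 := hda i
    have h2 := hds j
    have h3 : dist (y, u) (a i, s j) < δ := by
      rw [Prod.dist_eq]
      refine max_lt ?_ ?_
      · rw [Real.dist_eq, abs_of_nonneg (sub_nonneg.2 hy.1)]
        linarith only [hy.2, h1, hKδ]
      · rw [Real.dist_eq, abs_of_nonneg (sub_nonneg.2 hu.1)]
        linarith only [hu.2, h2, hKδ]
    have h4 := hδ' h3
    rw [Real.dist_eq] at h4
    exact h4.le
  -- Riemann sum and integral
  obtain ⟨I, hI⟩ : ∃ I : ℝ, I = ∑ i ∈ range (M * K), ∑ j ∈ range (2 * B * K),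
      Ψ (a i) (s j) * (1 / K * (1 / K)) := ⟨_, rfl⟩
  have hint2 : |(∫ y, ∫ u, Ψ y u) - I| ≤ η * V := by
    rw [hint]
    have h1 := rt_split Ψ hΨ (M * K) (2 * B * K) a s
    rw [ha0, haN, hs0, hsJ] at h1
    rw [h1, hI, ← Finset.sum_sub_distrib]
    rw [← hNJ η]
    refine (Finset.abs_sum_le_sum_abs _ _).trans (Finset.sum_le_sum fun i _ => ?_)
    rw [← Finset.sum_sub_distrib]
    refine (Finset.abs_sum_le_sum_abs _ _).trans (Finset.sum_le_sum fun j _ => ?_)
    have h2 := rt_cellint Ψ hΨ (a i) (a (i + 1)) (s j) (s (j + 1)) (Ψ (a i) (s j)) η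
      (ham (Nat.le_succ _)) (hsm (Nat.le_succ _)) (hvar i j)
    rw [hda, hds] at h2
    exact h2
  -- limits of the sums over cells
  have hl1 : Tendsto (fun X : ℝ => ∑ i ∈ range (M * K), ∑ j ∈ range (2 * B * K),
      ((C i j X).card : ℝ) / X) atTop (nhds (c * V)) := by
    rw [← hNJ c]
    exact tendsto_finset_sum _ fun i _ => tendsto_finset_sum _ fun j _ => hlim i j
  have hl2 : Tendsto (fun X : ℝ => ∑ i ∈ range (M * K), ∑ j ∈ range (2 * B * K),
      Ψ (a i) (s j) * (((C i j X).card : ℝ) / X)) atTop (nhds (c * I)) := by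
    have e : c * I = ∑ i ∈ range (M * K), ∑ j ∈ range (2 * B * K),
      Ψ (a i) (s j) * (c * (1 / K * (1 / K))) := by
      rw [hI, Finset.mul_sum]
      apply Finset.sum_congr rfl
      intro i _
      rw [Finset.mul_sum]
      apply Finset.sum_congr rfl
      intro j _
      ring
    rw [e]
    exact tendsto_finset_sum _ fun i _ => tendsto_finset_sum _ fun j _ => (hlim i j).const_mul _
  have hev1 := hl1.eventually (gt_mem_nhds (show c * V < c * V + 1 by linarith))
  have hev2 := (Metric.tendsto_nhds.1 hl2) (ε / 4) (by linarith)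
  obtain ⟨X0, hX0⟩ := ((hev1.and hev2).and (eventually_gt_atTop (0:ℝ))).exists_forall_of_atTop
  refine ⟨X0, fun X hXX => ?_⟩
  obtain ⟨⟨h1, h2⟩, hX⟩ := hX0 X (le_of_lt hXX)
  -- the sum over the points
  have hsum : ∑ e ∈ S (b * X), Ψ (m e / X) (t e) = ∑ e ∈ S (a (M * K) * X), Ψ (m e / X) (t e) := by
    rw [haN]
    apply Finset.sum_subset
    · intro e he
      rw [hS] at he ⊢
      exact ⟨he.1, he.2.trans (mul_le_mul_of_nonneg_right hMb hX.le)⟩
    · intro e he he'
      rw [hS] at he he'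
      apply hb
      rw [le_div_iff₀ hX]
      by_contra hcon
      exact he' ⟨he.1, (not_le.1 hcon).le⟩
  have hsum2 := rt_sum A S m t hS hm X hX a s ham ha0 hsm (fun e => Ψ (m e / X) (t e)) (M * K)
    (2 * B * K) (by
      intro e he
      by_contra hcon
      have h3 := abs_lt.1 (hB _ _ hcon)
      apply he
      rw [hs0, hsJ]
      exact ⟨h3.1.le, h3.2⟩)
  have hest : |(∑ e ∈ S (b * X), Ψ (m e / X) (t e)) / X - ∑ i ∈ range (M * K),
      ∑ j ∈ range (2 * B * K), Ψ (a i) (s j) * (((C i j X).card : ℝ) / X)| ≤ η * (c * V + 1) := by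
    refine le_trans ?_ (mul_le_mul_of_nonneg_left h1.le hη0.le)
    rw [hsum, hsum2, Finset.sum_div, ← Finset.sum_sub_distrib, Finset.mul_sum]
    refine (Finset.abs_sum_le_sum_abs _ _).trans (Finset.sum_le_sum fun i _ => ?_)
    rw [Finset.sum_div, ← Finset.sum_sub_distrib, Finset.mul_sum]
    refine (Finset.abs_sum_le_sum_abs _ _).trans (Finset.sum_le_sum fun j _ => ?_)
    have h5 : ∑ e ∈ (S (a (i + 1) * X) \ S (a i * X)).filter
        (fun e => s j ≤ t e ∧ t e < s (j + 1)), Ψ (m e / X) (t e) =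
        ∑ e ∈ C i j X, Ψ (m e / X) (t e) := by rw [hC]
    rw [h5]
    have h6 : (∑ e ∈ C i j X, Ψ (m e / X) (t e)) / X - Ψ (a i) (s j) * (((C i j X).card : ℝ) / X) =
        (∑ e ∈ C i j X, (Ψ (m e / X) (t e) - Ψ (a i) (s j))) / X := by
      rw [Finset.sum_sub_distrib, Finset.sum_const, nsmul_eq_mul]
      ring
    rw [h6, abs_div, abs_of_pos hX, ← mul_div_assoc]
    apply div_le_div_of_nonneg_right _ hX.le
    refine (Finset.abs_sum_le_sum_abs _ _).trans ?_
    have h7 : ∀ e ∈ C i j X, |Ψ (m e / X) (t e) - Ψ (a i) (s j)| ≤ η := by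
      intro e he
      rw [hC] at he
      simp only [Finset.mem_filter, Finset.mem_sdiff, hS] at he
      obtain ⟨⟨⟨hA, he1⟩, he2⟩, he3, he4⟩ := he
      apply hvar i j _ _ _ ⟨he3, he4.le⟩
      constructor
      · rw [le_div_iff₀ hX]
        by_contra hcon
        exact he2 ⟨hA, (not_le.1 hcon).le⟩
      · rw [div_le_iff₀ hX]
        exact he1
    calc ∑ e ∈ C i j X, |Ψ (m e / X) (t e) - Ψ (a i) (s j)| ≤ ∑ e ∈ C i j X, η :=
          Finset.sum_le_sum h7
      _ = η * (C i j X).card := by rw [Finset.sum_const, nsmul_eq_mul, mul_comm]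
  rw [Real.dist_eq] at h2 ⊢
  have h8 : |c * I - c * ∫ y, ∫ u, Ψ y u| ≤ c * (η * V) := by
    rw [← mul_sub, abs_mul, abs_of_nonneg hc0, abs_sub_comm]
    exact mul_le_mul_of_nonneg_left hint2 hc0
  have h9 : η * (c * V + 1) ≤ ε / 4 := by
    rw [← hηe]
    apply mul_le_mul_of_nonneg_left _ hη0.le
    have e1 : (c + 1) * (V + 1) = c * V + 1 + c + V := by ring
    rw [e1]
    linarith only [hc0, hV0]
  have h10 : c * (η * V) ≤ ε / 4 := by
    rw [← hηe]
    have e1 : η * ((c + 1) * (V + 1)) = c * (η * V) + c * η + η * V + η := by ring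
    rw [e1]
    linarith only [mul_pos hη0 hV0, mul_nonneg hc0 hη0.le, hη0]
  rw [abs_lt] at h2 ⊢
  rw [abs_le] at hest h8
  constructor
  · linarith only [hest.1, h8.1, h2.1, h9, h10, hε]
  · linarith only [hest.2, h8.2, h2.2, h9, h10, hε]

end Pool.Agent.OmEq

end

/-! ### from `Lib_MP_f1a94e_eq.AppG` -/

section

/-!
# Piece APPG: approximation by step functions and triangles
-/

set_option autoImplicit false

namespace Pool.Agent.OmEq

open Finset

/-- indicator of the cell `(C i / I, C (i+1) / I]` -/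
noncomputable def cell (C : ℝ) (I i : ℕ) (x : ℝ) : ℝ := if C * i / I < x ∧ x ≤ C * (i + 1) / I then 1 else 0

theorem appg_cell (C : ℝ) (I : ℕ) (hC : 0 < C) (hI : 1 ≤ I) (x : ℝ) (hx : 0 < x) (hx' : x ≤ C) :
    ∃ i0 ∈ range I, C * i0 / I < x ∧ x - C * i0 / I ≤ C / I ∧ ∀ a : ℕ → ℝ,
      ∑ i ∈ range I, a i * cell C I i x = a i0 := by
  have hI' : (0 : ℝ) < I := by exact_mod_cast hI
  have h0 : 0 < ⌈x * I / C⌉₊ := Nat.ceil_pos.2 (by positivity)
  obtain ⟨i0, hi0⟩ : ∃ i0, ⌈x * I / C⌉₊ = i0 + 1 := ⟨⌈x * I / C⌉₊ - 1, by omega⟩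
  have h1 : (i0 : ℝ) < x * I / C := by
    have := Nat.ceil_lt_add_one (show 0 ≤ x * I / C by positivity)
    rw [hi0] at this
    push_cast at this
    linarith
  have h2 : x * I / C ≤ (i0 : ℝ) + 1 := by
    have := Nat.le_ceil (x * I / C)
    rw [hi0] at this
    push_cast at this
    exact this
  have h3 : i0 + 1 ≤ I := by
    rw [← hi0]
    apply Nat.ceil_le.2
    rw [div_le_iff₀ hC]
    nlinarith
  have h4 : C * i0 / I < x := by
    rw [div_lt_iff₀ hI']
    rw [lt_div_iff₀ hC] at h1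
    linarith
  have h5 : x ≤ C * (i0 + 1) / I := by
    rw [le_div_iff₀ hI']
    rw [div_le_iff₀ hC] at h2
    linarith
  refine ⟨i0, mem_range.2 (by omega), h4, ?_, ?_⟩
  · have : C * ((i0 : ℝ) + 1) / I = C * i0 / I + C / I := by ring
    linarith
  · intro a
    rw [Finset.sum_eq_single i0]
    · unfold cell
      rw [if_pos ⟨h4, h5⟩, mul_one]
    · intro i _ hi
      unfold cell
      rw [if_neg, mul_zero]
      rintro ⟨h6, h7⟩
      apply hi
      have h8 : C * i / I < C * (i0 + 1) / I := lt_of_lt_of_le h6 h5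
      have h9 : C * i0 / I < C * (i + 1) / I := lt_of_lt_of_le h4 h7
      rw [div_lt_div_iff_of_pos_right hI'] at h8 h9
      have h10 := lt_of_mul_lt_mul_left h8 hC.le
      have h11 := lt_of_mul_lt_mul_left h9 hC.le
      have h12 : i < i0 + 1 := by exact_mod_cast h10
      have h13 : i0 < i + 1 := by exact_mod_cast h11
      omega
    · intro h
      exact absurd (mem_range.2 (by omega)) h

theorem appg_tri (I L : ℕ) (g : ℕ → ℝ) (hg : ∀ l, L ≤ l → g l = 0) (σ : ℝ) (hσ : 0 ≤ σ) :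
    ∑ l ∈ range L, g l * max 0 (1 - |I * σ - l|) =
      g ⌊I * σ⌋₊ * (1 - (I * σ - ⌊I * σ⌋₊)) + g (⌊I * σ⌋₊ + 1) * (I * σ - ⌊I * σ⌋₊) := by
  have hs : 0 ≤ (I : ℝ) * σ := by positivity
  have h1 := Nat.floor_le hs
  have h2 := Nat.lt_floor_add_one ((I : ℝ) * σ)
  set m := ⌊(I : ℝ) * σ⌋₊ with hm
  have e1 : ∑ l ∈ range L, g l * max 0 (1 - |I * σ - l|) =
      ∑ l ∈ range (max L (m + 2)), g l * max 0 (1 - |I * σ - l|) := by
    apply Finset.sum_subset (Finset.range_mono (le_max_left _ _))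
    intro l _ hl
    rw [mem_range, not_lt] at hl
    rw [hg l hl, zero_mul]
  have e2 : ∑ l ∈ ({m, m + 1} : Finset ℕ), g l * max 0 (1 - |I * σ - l|) =
      ∑ l ∈ range (max L (m + 2)), g l * max 0 (1 - |I * σ - l|) := by
    apply Finset.sum_subset
    · intro l hl
      rw [mem_insert, mem_singleton] at hl
      rw [mem_range]
      have := le_max_right L (m + 2)
      omega
    · intro l _ hl
      rw [mem_insert, mem_singleton, not_or] at hl
      have h3 : 1 ≤ |I * σ - l| := by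
        rcases lt_or_ge l m with h | h
        · have h4 : (l : ℝ) + 1 ≤ m := by exact_mod_cast h
          rw [le_abs]
          left
          linarith
        · have h4 : m + 2 ≤ l := by omega
          have h5 : (m : ℝ) + 2 ≤ l := by exact_mod_cast h4
          rw [le_abs]
          right
          linarith
      rw [max_eq_left (by linarith), mul_zero]
  rw [e1, ← e2, Finset.sum_pair (by omega)]
  have h6 : |(I : ℝ) * σ - m| = I * σ - m := abs_of_nonneg (by linarith)
  have h7 : |(I : ℝ) * σ - ((m + 1 : ℕ) : ℝ)| = 1 - (I * σ - m) := by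
    push_cast
    rw [abs_of_nonpos (by linarith)]
    ring
  rw [h6, h7, max_eq_right (by linarith), max_eq_right (by linarith)]
  ring

/-- PROOF. `F` is uniformly continuous (compact support: it vanishes outside `[c0, C0]^2 × [0, B]`). For `x, x' ∈ (0, C0]` exactly one `i` and one `j` have `cell = 1`, `|x - C0 i/I| ≤ C0/I`. For `σ ≥ 0`, `∑_(l ≥ 0) max 0 (1 - |I σ - l|) = 1` and only `l` with
`|σ - l/I| < 1/I` contribute; `F (..) (..) (l/I) = 0` for `l/I ≥ B` and for `l = 0`; for `σ < 0` all contributing terms have `l = 0`. So the difference is at most the modulus of continuity at `(C0 + 1)/I`, times 1. Support: if `x < c0/2` (or `x' < c0/2`) then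
`F x x' σ = 0` and `C0 i/I < x < c0`; if `B + 1 < |σ|` then `F = 0` and the terms with `|I σ - l| < 1` have `l/I > B`. For `I` large. -/
theorem appG (c0 C0 B : ℝ) (hc0 : 0 < c0) (hC0 : c0 ≤ C0) (hB : 0 < B) (F : ℝ → ℝ → ℝ → ℝ)
    (hF : Continuous (fun v : ℝ × ℝ × ℝ => F v.1 v.2.1 v.2.2))
    (h1 : ∀ x x' σ, x ≤ c0 ∨ x' ≤ c0 ∨ C0 ≤ x ∨ C0 ≤ x' ∨ σ ≤ 0 ∨ B ≤ σ → F x x' σ = 0) (ε : ℝ) (hε : 0 < ε) :
    ∃ I : ℕ, 1 ≤ I ∧ ∀ x x' σ : ℝ, 0 < x → x ≤ C0 → 0 < x' → x' ≤ C0 →
      |F x x' σ - ∑ i ∈ range I, ∑ j ∈ range I, ∑ l ∈ range (⌈B⌉₊ * I + 1),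
        F (C0 * i / I) (C0 * j / I) ((l : ℝ) / I) * cell C0 I i x * cell C0 I j x' * max 0 (1 - |I * σ - l|)| ≤
      if c0 / 2 ≤ x ∧ c0 / 2 ≤ x' ∧ |σ| ≤ B + 1 then ε else 0 := by
  have hC0' : 0 < C0 := by linarith
  have hcs : HasCompactSupport (fun v : ℝ × ℝ × ℝ => F v.1 v.2.1 v.2.2) := by
    refine HasCompactSupport.intro (K := Set.Icc c0 C0 ×ˢ Set.Icc c0 C0 ×ˢ Set.Icc 0 B)
      (isCompact_Icc.prod (isCompact_Icc.prod isCompact_Icc)) ?_
    rintro ⟨x, x', σ⟩ hx
    by_contra hne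
    apply hx
    have hn : ¬ (x ≤ c0 ∨ x' ≤ c0 ∨ C0 ≤ x ∨ C0 ≤ x' ∨ σ ≤ 0 ∨ B ≤ σ) := fun h => hne (h1 x x' σ h)
    simp only [not_or, not_le] at hn
    obtain ⟨a1, a2, a3, a4, a5, a6⟩ := hn
    exact ⟨⟨a1.le, a3.le⟩, ⟨a2.le, a4.le⟩, ⟨a5.le, a6.le⟩⟩
  have huc := hcs.uniformContinuous_of_continuous hF
  obtain ⟨δ, hδ, hδF⟩ := Metric.uniformContinuous_iff.1 huc ε hε
  obtain ⟨I0, hI0⟩ := exists_nat_gt ((C0 + 1) / δ)
  have hI : 1 ≤ I0 + 1 := by omega
  have hI' : (0 : ℝ) < ((I0 + 1 : ℕ) : ℝ) := by positivity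
  have hId : (C0 + 1) / ((I0 + 1 : ℕ) : ℝ) < δ := by
    rw [div_lt_iff₀ hI']
    rw [div_lt_iff₀ hδ] at hI0
    push_cast
    nlinarith
  generalize I0 + 1 = I at hI hI' hId
  clear hI0
  have hI1 : (1 : ℝ) ≤ I := by exact_mod_cast hI
  refine ⟨I, hI, ?_⟩
  intro x x' σ hx hxC hx' hxC'
  obtain ⟨i0, hi0, hi1, hi2, hi3⟩ := appg_cell C0 I hC0' hI x hx hxC
  obtain ⟨j0, hj0, hj1, hj2, hj3⟩ := appg_cell C0 I hC0' hI x' hx' hxC'
  have e1 : ∑ i ∈ range I, ∑ j ∈ range I, ∑ l ∈ range (⌈B⌉₊ * I + 1),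
        F (C0 * i / I) (C0 * j / I) ((l : ℝ) / I) * cell C0 I i x * cell C0 I j x' * max 0 (1 - |I * σ - l|) =
      ∑ l ∈ range (⌈B⌉₊ * I + 1), F (C0 * i0 / I) (C0 * j0 / I) ((l : ℝ) / I) * max 0 (1 - |I * σ - l|) := by
    rw [← hi3 (fun i => ∑ l ∈ range (⌈B⌉₊ * I + 1), F (C0 * i / I) (C0 * j0 / I) ((l : ℝ) / I) *
      max 0 (1 - |I * σ - l|))]
    refine Finset.sum_congr rfl fun i _ => ?_
    rw [← hj3 (fun j => ∑ l ∈ range (⌈B⌉₊ * I + 1), F (C0 * i / I) (C0 * j / I) ((l : ℝ) / I) *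
      max 0 (1 - |I * σ - l|)), Finset.sum_mul]
    refine Finset.sum_congr rfl fun j _ => ?_
    rw [Finset.sum_mul, Finset.sum_mul]
    refine Finset.sum_congr rfl fun l _ => ?_
    ring
  rw [e1]
  set a := C0 * i0 / I with ha
  set b := C0 * j0 / I with hb
  have hLz : ∀ l : ℕ, ⌈B⌉₊ * I + 1 ≤ l → F a b ((l : ℝ) / I) = 0 := by
    intro l hl
    apply h1
    refine Or.inr (Or.inr (Or.inr (Or.inr (Or.inr ?_))))
    rw [le_div_iff₀ hI']
    have h2 : ((⌈B⌉₊ * I + 1 : ℕ) : ℝ) ≤ l := by exact_mod_cast hl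
    push_cast at h2
    have h3 := Nat.le_ceil B
    nlinarith
  rcases lt_or_ge σ 0 with hσ | hσ
  · -- `σ < 0`: everything vanishes
    have e2 : ∑ l ∈ range (⌈B⌉₊ * I + 1), F a b ((l : ℝ) / I) * max 0 (1 - |I * σ - l|) = 0 := by
      apply Finset.sum_eq_zero
      intro l _
      rcases Nat.eq_zero_or_pos l with h | h
      · rw [h, h1 a b _ (by simp), zero_mul]
      · have h2 : (1 : ℝ) ≤ l := by exact_mod_cast h
        have h3 : (I : ℝ) * σ < 0 := mul_neg_of_pos_of_neg hI' hσ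
        have h4 : 1 ≤ |(I : ℝ) * σ - l| := by
          rw [le_abs]
          right
          linarith
        rw [max_eq_left (by linarith), mul_zero]
    rw [e2, h1 x x' σ (by simp [hσ.le]), sub_zero, abs_zero]
    split_ifs
    · exact hε.le
    · exact le_refl _
  · rw [appg_tri I _ (fun l => F a b ((l : ℝ) / I)) hLz σ hσ]
    have hs : 0 ≤ (I : ℝ) * σ := by positivity
    have g1 := Nat.floor_le hs
    have g2 := Nat.lt_floor_add_one ((I : ℝ) * σ)
    set m := ⌊(I : ℝ) * σ⌋₊ with hm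
    have hf0 : 0 ≤ (I : ℝ) * σ - m := by linarith
    have hf1 : 0 ≤ 1 - ((I : ℝ) * σ - m) := by linarith
    by_cases hcase : c0 / 2 ≤ x ∧ c0 / 2 ≤ x' ∧ |σ| ≤ B + 1
    · rw [if_pos hcase]
      have k1 : |x - a| < δ := by
        rw [abs_of_pos (by linarith)]
        refine lt_of_le_of_lt hi2 (lt_of_le_of_lt ?_ hId)
        exact div_le_div_of_nonneg_right (by linarith) hI'.le
      have k2 : |x' - b| < δ := by
        rw [abs_of_pos (by linarith)]
        refine lt_of_le_of_lt hj2 (lt_of_le_of_lt ?_ hId)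
        exact div_le_div_of_nonneg_right (by linarith) hI'.le
      have k0 : 1 / (I : ℝ) < δ := lt_of_le_of_lt (div_le_div_of_nonneg_right (by linarith) hI'.le) hId
      have k3 : |σ - (m : ℝ) / I| < δ := by
        refine lt_of_le_of_lt ?_ k0
        rw [abs_le, neg_le_iff_add_nonneg]
        have q1 : σ = (I * σ) / I := by field_simp
        constructor
        · have : σ - (m : ℝ) / I + 1 / I = (I * σ - m + 1) / I := by
            field_simp
          rw [this]
          exact div_nonneg (by linarith) hI'.le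
        · rw [sub_le_iff_le_add, ← add_div, le_div_iff₀ hI']
          linarith
      have k4 : |σ - ((m + 1 : ℕ) : ℝ) / I| < δ := by
        refine lt_of_le_of_lt ?_ k0
        push_cast
        rw [abs_le, neg_le_iff_add_nonneg]
        constructor
        · have : σ - ((m : ℝ) + 1) / I + 1 / I = (I * σ - m) / I := by
            field_simp
            ring
          rw [this]
          exact div_nonneg (by linarith) hI'.le
        · rw [sub_le_iff_le_add, ← add_div, le_div_iff₀ hI']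
          linarith
      have k5 : |F x x' σ - F a b ((m : ℝ) / I)| ≤ ε := by
        have := hδF (a := (x, x', σ)) (b := (a, b, (m : ℝ) / I))
          (by
            rw [Prod.dist_eq, Prod.dist_eq]
            exact max_lt k1 (max_lt k2 k3))
        exact this.le
      have k6 : |F x x' σ - F a b (((m + 1 : ℕ) : ℝ) / I)| ≤ ε := by
        have := hδF (a := (x, x', σ)) (b := (a, b, ((m + 1 : ℕ) : ℝ) / I))
          (by
            rw [Prod.dist_eq, Prod.dist_eq]
            exact max_lt k1 (max_lt k2 k4))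
        exact this.le
      have k7 : F x x' σ - (F a b ((m : ℝ) / I) * (1 - ((I : ℝ) * σ - m)) +
          F a b (((m + 1 : ℕ) : ℝ) / I) * ((I : ℝ) * σ - m)) =
          (F x x' σ - F a b ((m : ℝ) / I)) * (1 - ((I : ℝ) * σ - m)) +
          (F x x' σ - F a b (((m + 1 : ℕ) : ℝ) / I)) * ((I : ℝ) * σ - m) := by ring
      show |F x x' σ - (F a b ((m : ℝ) / I) * (1 - ((I : ℝ) * σ - m)) +
          F a b (((m + 1 : ℕ) : ℝ) / I) * ((I : ℝ) * σ - m))| ≤ ε
      rw [k7]
      refine (abs_add_le _ _).trans ?_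
      rw [abs_mul, abs_mul, abs_of_nonneg hf1, abs_of_nonneg hf0]
      nlinarith
    · rw [if_neg hcase]
      have z1 : F x x' σ = 0 ∧ F a b ((m : ℝ) / I) = 0 ∧ F a b (((m + 1 : ℕ) : ℝ) / I) = 0 := by
        rcases lt_or_ge x (c0 / 2) with h | h
        · exact ⟨h1 _ _ _ (Or.inl (by linarith)), h1 _ _ _ (Or.inl (by linarith)),
            h1 _ _ _ (Or.inl (by linarith))⟩
        rcases lt_or_ge x' (c0 / 2) with h' | h'
        · exact ⟨h1 _ _ _ (Or.inr (Or.inl (by linarith))), h1 _ _ _ (Or.inr (Or.inl (by linarith))),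
            h1 _ _ _ (Or.inr (Or.inl (by linarith)))⟩
        have h'' : B + 1 < σ := by
          by_contra hne
          apply hcase
          refine ⟨h, h', ?_⟩
          rw [abs_of_nonneg hσ]
          linarith
        have h3 : B ≤ (m : ℝ) / I := by
          rw [le_div_iff₀ hI']
          nlinarith
        have h4 : B ≤ ((m + 1 : ℕ) : ℝ) / I := by
          push_cast
          rw [le_div_iff₀ hI']
          rw [le_div_iff₀ hI'] at h3
          linarith
        refine ⟨h1 _ _ _ ?_, h1 _ _ _ ?_, h1 _ _ _ ?_⟩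
        · exact Or.inr (Or.inr (Or.inr (Or.inr (Or.inr (by linarith)))))
        · exact Or.inr (Or.inr (Or.inr (Or.inr (Or.inr h3))))
        · exact Or.inr (Or.inr (Or.inr (Or.inr (Or.inr h4))))
      show |F x x' σ - (F a b ((m : ℝ) / I) * (1 - ((I : ℝ) * σ - m)) +
          F a b (((m + 1 : ℕ) : ℝ) / I) * ((I : ℝ) * σ - m))| ≤ 0
      rw [z1.1, z1.2.1, z1.2.2]
      simp

end Pool.Agent.OmEq

end

/-! ### from `Lib_MP_f1a94e_mr.Circ` -/

section

/-!
# Piece CIRC: separated points on the unit circle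
-/

set_option autoImplicit false

namespace Pool.Agent.GaussMR

/-- separated reals in a bounded interval -/
theorem card_sep_real {ι : Type*} (s : Finset ι) (θ : ι → ℝ) (δ A : ℝ) (hδ : 0 < δ)
    (hA : 0 ≤ A) (hθ : ∀ i ∈ s, |θ i| ≤ A)
    (hsp : ∀ i ∈ s, ∀ j ∈ s, i ≠ j → δ ≤ |θ i - θ j|) :
    (s.card : ℝ) ≤ 2 * A / δ + 1 := by
  have h1 : s.card ≤ (Finset.range (⌊2 * A / δ⌋₊ + 1)).card := by
    refine Finset.card_le_card_of_injOn (fun i => ⌊(θ i + A) / δ⌋₊) ?_ ?_
    · intro i hi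
      have h2 := abs_le.1 (hθ i hi)
      simp only [Finset.coe_range, Set.mem_Iio]
      have h3 : (θ i + A) / δ ≤ 2 * A / δ := by
        gcongr
        linarith [h2.2]
      exact Nat.lt_succ_of_le (Nat.floor_le_floor h3)
    · intro i hi j hj hij
      by_contra hne
      have h2 := abs_le.1 (hθ i hi)
      have h3 := abs_le.1 (hθ j hj)
      have h4 := hsp i hi j hj hne
      have hi0 : 0 ≤ (θ i + A) / δ := div_nonneg (by linarith [h2.1]) hδ.le
      have hj0 : 0 ≤ (θ j + A) / δ := div_nonneg (by linarith [h3.1]) hδ.le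
      have h5 := Nat.floor_le hi0
      have h6 := Nat.floor_le hj0
      have h7 := Nat.lt_floor_add_one ((θ i + A) / δ)
      have h8 := Nat.lt_floor_add_one ((θ j + A) / δ)
      have hij' : (⌊(θ i + A) / δ⌋₊ : ℝ) = (⌊(θ j + A) / δ⌋₊ : ℝ) := by exact_mod_cast hij
      have h9 : |(θ i + A) / δ - (θ j + A) / δ| < 1 := by
        rw [abs_lt]
        constructor <;> linarith
      have h10 : (θ i + A) / δ - (θ j + A) / δ = (θ i - θ j) / δ := by ring
      rw [h10, abs_div, abs_of_pos hδ, div_lt_one hδ] at h9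
      linarith
  rw [Finset.card_range] at h1
  have h2 : (s.card : ℝ) ≤ (⌊2 * A / δ⌋₊ : ℝ) + 1 := by exact_mod_cast h1
  have h3 := Nat.floor_le (by positivity : 0 ≤ 2 * A / δ)
  linarith

theorem exp_arg_of_norm_one (x : ℂ) (hx : ‖x‖ = 1) :
    Complex.exp (Complex.I * (Complex.arg x : ℝ)) = x := by
  have := Complex.norm_mul_exp_arg_mul_I x
  rw [hx] at this
  rw [mul_comm]
  simpa using this

/-- chord and angle -/
theorem angle_le_chord (x : ℂ) (hx : ‖x‖ = 1) : |Complex.arg x| ≤ Real.pi / 2 * ‖x - 1‖ := by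
  set θ := Complex.arg x with hθ
  have hx' : x = Complex.exp (θ * Complex.I) := by
    rw [mul_comm]
    exact (exp_arg_of_norm_one x hx).symm
  have hn : ‖x - 1‖ ^ 2 = 2 - 2 * Real.cos θ := by
    rw [← Complex.normSq_eq_norm_sq, Complex.normSq_apply, hx']
    simp only [Complex.sub_re, Complex.sub_im, Complex.exp_ofReal_mul_I_re,
      Complex.exp_ofReal_mul_I_im, Complex.one_re, Complex.one_im]
    nlinarith [Real.sin_sq_add_cos_sq θ]
  have hle : |θ| ≤ Real.pi := Complex.abs_arg_le_pi x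
  have hcos := Real.cos_le_one_sub_mul_cos_sq hle
  have hpi := Real.pi_pos
  have h1 : 2 / Real.pi ^ 2 * θ ^ 2 * 2 ≤ ‖x - 1‖ ^ 2 := by linarith
  have h2 : θ ^ 2 ≤ (Real.pi / 2 * ‖x - 1‖) ^ 2 := by
    have h3 : θ ^ 2 = Real.pi ^ 2 / 4 * (2 / Real.pi ^ 2 * θ ^ 2 * 2) := by
      field_simp
      ring
    rw [h3]
    calc Real.pi ^ 2 / 4 * (2 / Real.pi ^ 2 * θ ^ 2 * 2) ≤ Real.pi ^ 2 / 4 * ‖x - 1‖ ^ 2 := by
          gcongr
      _ = _ := by ring
  exact abs_le_of_sq_le_sq h2 (by positivity)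

theorem chord_le_angle (x y : ℂ) (hx : ‖x‖ = 1) (hy : ‖y‖ = 1) :
    ‖x - y‖ ≤ |Complex.arg x - Complex.arg y| := by
  have h1 : x - y = y * (Complex.exp (Complex.I * ((Complex.arg x - Complex.arg y : ℝ) : ℂ)) - 1) := by
    have h2 : Complex.exp (Complex.I * ((Complex.arg x - Complex.arg y : ℝ) : ℂ)) = x / y := by
      rw [Complex.ofReal_sub, mul_sub, Complex.exp_sub, exp_arg_of_norm_one x hx,
        exp_arg_of_norm_one y hy]
    have hy0 : y ≠ 0 := by
      intro h
      rw [h, norm_zero] at hy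
      exact zero_ne_one hy
    rw [h2]
    field_simp
  rw [h1, norm_mul, hy, one_mul]
  exact Real.norm_exp_I_mul_ofReal_sub_one_le

/-- `δ`-separated points on the unit circle: at most `4 (1 + η / δ)` of them at distance `≤ η` from `u`.
Proof: angles `θ_i = arg (p_i / u) ∈ (-π, π]`; `‖p_i - u‖ = 2 |sin (θ_i / 2)| ≥ (2 / π) |θ_i|`, so
`|θ_i| ≤ (π / 2) η`; `δ ≤ ‖p_i - p_j‖ ≤ |θ_i - θ_j|`; so the number is at most `1 + π η / δ`. -/
theorem count_near {ι : Type*} (s : Finset ι) (p : ι → ℂ) (δ : ℝ) (hδ : 0 < δ)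
    (hp : ∀ i ∈ s, ‖p i‖ = 1) (hsp : ∀ i ∈ s, ∀ j ∈ s, i ≠ j → δ ≤ ‖p i - p j‖)
    (u : ℂ) (hu : ‖u‖ = 1) (η : ℝ) (hη : 0 ≤ η) (hη' : ∀ i ∈ s, ‖p i - u‖ ≤ η) :
    (s.card : ℝ) ≤ 4 * (1 + η / δ) := by
  have hu0 : u ≠ 0 := by
    intro h
    rw [h, norm_zero] at hu
    exact zero_ne_one hu
  have hpi := Real.pi_pos
  have hn : ∀ i ∈ s, ‖p i / u‖ = 1 := fun i hi => by rw [norm_div, hp i hi, hu, div_one]
  have h1 := card_sep_real s (fun i => Complex.arg (p i / u)) δ (Real.pi / 2 * η) hδ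
    (by positivity) ?_ ?_
  · have h2 : 2 * (Real.pi / 2 * η) / δ = Real.pi * (η / δ) := by ring
    rw [h2] at h1
    have h3 : 0 ≤ η / δ := div_nonneg hη hδ.le
    have h4 : Real.pi * (η / δ) ≤ 4 * (η / δ) := by
      gcongr
      exact Real.pi_le_four
    linarith
  · intro i hi
    refine (angle_le_chord _ (hn i hi)).trans ?_
    gcongr
    have h2 : p i / u - 1 = (p i - u) / u := by field_simp
    rw [h2, norm_div, hu, div_one]
    exact hη' i hi
  · intro i hi j hj hij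
    have h2 := chord_le_angle _ _ (hn i hi) (hn j hj)
    have h3 : p i / u - p j / u = (p i - p j) / u := by ring
    rw [h3, norm_div, hu, div_one] at h2
    exact (hsp i hi j hj hij).trans h2

/-- the dyadic induction -/
theorem sum_kernel_ring {ι : Type*} (p : ι → ℂ) (δ : ℝ) (hδ : 0 < δ)
    (u : ℂ) (hu : ‖u‖ = 1) (M : ℝ) (hM : 1 ≤ M) (k : ι → ℝ) (η : ℝ) (hη : δ ≤ η) (n : ℕ) :
    ∀ s : Finset ι, (∀ i ∈ s, ‖p i‖ = 1) →
      (∀ i ∈ s, ∀ j ∈ s, i ≠ j → δ ≤ ‖p i - p j‖) →
      (∀ i ∈ s, k i * (M * ‖p i - u‖ ^ 2) ≤ 4) →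
      (∀ i ∈ s, η < ‖p i - u‖) → (∀ i ∈ s, ‖p i - u‖ ≤ 2 ^ n * η) →
      ∑ i ∈ s, k i ≤ 96 / (M * η * δ) * (1 - (1 / 2) ^ n) := by
  classical
  have hη0 : 0 < η := hδ.trans_le hη
  have hM0 : 0 < M := by linarith
  induction n with
  | zero =>
    intro s _ _ _ h4 h5
    have : s = ∅ := by
      rw [Finset.eq_empty_iff_forall_notMem]
      intro i hi
      have h6 := h4 i hi
      have h7 := h5 i hi
      rw [pow_zero, one_mul] at h7
      linarith
    simp [this]
  | succ n ih =>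
    intro s h1 h2 h3 h4 h5
    set s1 := s.filter (fun i => ‖p i - u‖ ≤ 2 ^ n * η) with hs1
    set s2 := s.filter (fun i => ¬ ‖p i - u‖ ≤ 2 ^ n * η) with hs2
    have hs1s : ∀ i ∈ s1, i ∈ s := fun i hi => (Finset.mem_filter.1 hi).1
    have hs2s : ∀ i ∈ s2, i ∈ s := fun i hi => (Finset.mem_filter.1 hi).1
    have hsplit : ∑ i ∈ s, k i = ∑ i ∈ s1, k i + ∑ i ∈ s2, k i :=
      (Finset.sum_filter_add_sum_filter_not s _ k).symm
    have e1 := ih s1 (fun i hi => h1 i (hs1s i hi))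
      (fun i hi j hj => h2 i (hs1s i hi) j (hs1s j hj)) (fun i hi => h3 i (hs1s i hi))
      (fun i hi => h4 i (hs1s i hi)) (fun i hi => (Finset.mem_filter.1 hi).2)
    have hcard := count_near s2 p δ hδ (fun i hi => h1 i (hs2s i hi))
      (fun i hi j hj => h2 i (hs2s i hi) j (hs2s j hj)) u hu (2 ^ (n + 1) * η) (by positivity)
      (fun i hi => h5 i (hs2s i hi))
    have hk : ∀ i ∈ s2, k i ≤ 4 / (M * (2 ^ n * η) ^ 2) := by
      intro i hi
      have h6 : 2 ^ n * η < ‖p i - u‖ := not_le.1 (Finset.mem_filter.1 hi).2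
      have h7 := h3 i (hs2s i hi)
      rw [le_div_iff₀ (by positivity)]
      by_cases hk0 : 0 ≤ k i
      · calc k i * (M * (2 ^ n * η) ^ 2) ≤ k i * (M * ‖p i - u‖ ^ 2) := by gcongr
          _ ≤ 4 := h7
      · have h8 : 0 ≤ M * (2 ^ n * η) ^ 2 := by positivity
        nlinarith
    have e2 : ∑ i ∈ s2, k i ≤ 48 / (M * η * δ) * (1 / 2) ^ n := by
      calc ∑ i ∈ s2, k i ≤ s2.card • (4 / (M * (2 ^ n * η) ^ 2)) :=
            Finset.sum_le_card_nsmul _ _ _ hk
        _ = (s2.card : ℝ) * (4 / (M * (2 ^ n * η) ^ 2)) := by rw [nsmul_eq_mul]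
        _ ≤ (4 * (1 + 2 ^ (n + 1) * η / δ)) * (4 / (M * (2 ^ n * η) ^ 2)) := by gcongr
        _ ≤ (12 * (2 ^ n * η / δ)) * (4 / (M * (2 ^ n * η) ^ 2)) := by
            refine mul_le_mul_of_nonneg_right ?_ (by positivity)
            have h9 : 1 ≤ 2 ^ n * η / δ := by
              rw [le_div_iff₀ hδ]
              have h10 : (1 : ℝ) ≤ 2 ^ n := one_le_pow₀ (by norm_num)
              nlinarith
            have h11 : (2 : ℝ) ^ (n + 1) * η / δ = 2 * (2 ^ n * η / δ) := by
              rw [pow_succ]; ring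
            rw [h11]
            linarith
        _ = 48 / (M * η * δ) * (1 / 2) ^ n := by
            rw [one_div, inv_pow]
            have h12 : (2 : ℝ) ^ n ≠ 0 := by positivity
            field_simp
            ring
    rw [hsplit]
    have e3 : 96 / (M * η * δ) * (1 - (1 / 2) ^ (n + 1)) =
        96 / (M * η * δ) * (1 - (1 / 2) ^ n) + 48 / (M * η * δ) * (1 / 2) ^ n := by
      rw [pow_succ]; ring
    rw [e3]
    linarith

/-- sum of a kernel over separated points far from `u`: dyadic decomposition and `count_near` -/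
theorem sum_kernel_far {ι : Type*} (s : Finset ι) (p : ι → ℂ) (δ : ℝ) (hδ : 0 < δ)
    (hp : ∀ i ∈ s, ‖p i‖ = 1) (hsp : ∀ i ∈ s, ∀ j ∈ s, i ≠ j → δ ≤ ‖p i - p j‖)
    (u : ℂ) (hu : ‖u‖ = 1) (M : ℝ) (hM : 1 ≤ M) (k : ι → ℝ)
    (hk : ∀ i ∈ s, k i * (M * ‖p i - u‖ ^ 2) ≤ 4) (η : ℝ) (hη : δ ≤ η)
    (hfar : ∀ i ∈ s, η < ‖p i - u‖) :
    ∑ i ∈ s, k i ≤ 200 / (M * η * δ) := by
  have hη0 : 0 < η := hδ.trans_le hη
  have hM0 : 0 < M := by linarith
  obtain ⟨n, hn⟩ := pow_unbounded_of_one_lt (2 / η) (by norm_num : (1 : ℝ) < 2)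
  have h1 := sum_kernel_ring p δ hδ u hu M hM k η hη n s hp hsp hk hfar ?_
  · refine h1.trans ?_
    have h2 : (0 : ℝ) ≤ (1 / 2) ^ n := by positivity
    calc 96 / (M * η * δ) * (1 - (1 / 2) ^ n) ≤ 96 / (M * η * δ) * 1 := by
          gcongr
          linarith
      _ ≤ 200 / (M * η * δ) := by
          rw [mul_one]
          gcongr
          norm_num
  · intro i hi
    have h2 : ‖p i - u‖ ≤ 2 := by
      refine (norm_sub_le _ _).trans ?_
      rw [hp i hi, hu]
      norm_num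
    rw [div_lt_iff₀ hη0] at hn
    linarith

/-- sum of a kernel over separated points -/
theorem sum_kernel {ι : Type*} (s : Finset ι) (p : ι → ℂ) (δ : ℝ) (hδ : 0 < δ)
    (hp : ∀ i ∈ s, ‖p i‖ = 1) (hsp : ∀ i ∈ s, ∀ j ∈ s, i ≠ j → δ ≤ ‖p i - p j‖)
    (u : ℂ) (hu : ‖u‖ = 1) (M : ℝ) (hM : 1 ≤ M) (k : ι → ℝ) (hk1 : ∀ i ∈ s, k i ≤ M)
    (hk : ∀ i ∈ s, k i * (M * ‖p i - u‖ ^ 2) ≤ 4) :
    ∑ i ∈ s, k i ≤ 400 * (M + 1 / δ) := by
  classical
  have hM0 : 0 < M := by linarith
  set η := max δ (1 / M) with hη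
  have hη0 : 0 < η := lt_max_of_lt_left hδ
  have hηδ : δ ≤ η := le_max_left _ _
  have hηM : 1 / M ≤ η := le_max_right _ _
  set s1 := s.filter (fun i => ‖p i - u‖ ≤ η) with hs1
  set s2 := s.filter (fun i => ¬ ‖p i - u‖ ≤ η) with hs2
  have hs1s : ∀ i ∈ s1, i ∈ s := fun i hi => (Finset.mem_filter.1 hi).1
  have hs2s : ∀ i ∈ s2, i ∈ s := fun i hi => (Finset.mem_filter.1 hi).1
  have hsplit : ∑ i ∈ s, k i = ∑ i ∈ s1, k i + ∑ i ∈ s2, k i :=
    (Finset.sum_filter_add_sum_filter_not s _ k).symm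
  have hcard := count_near s1 p δ hδ (fun i hi => hp i (hs1s i hi))
    (fun i hi j hj => hsp i (hs1s i hi) j (hs1s j hj)) u hu η hη0.le
    (fun i hi => (Finset.mem_filter.1 hi).2)
  have hηd : η / δ ≤ 1 + 1 / (M * δ) := by
    rw [div_le_iff₀ hδ, hη]
    have h1 : (1 + 1 / (M * δ)) * δ = δ + 1 / M := by field_simp
    rw [h1]
    exact max_le (by linarith [one_div_pos.2 hM0]) (by linarith)
  have e1 : ∑ i ∈ s1, k i ≤ 8 * M + 4 / δ := by
    calc ∑ i ∈ s1, k i ≤ s1.card • M :=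
          Finset.sum_le_card_nsmul _ _ _ (fun i hi => hk1 i (hs1s i hi))
      _ = (s1.card : ℝ) * M := by rw [nsmul_eq_mul]
      _ ≤ (4 * (1 + (1 + 1 / (M * δ)))) * M := by
          gcongr
          exact hcard.trans (by gcongr)
      _ = 8 * M + 4 / δ := by field_simp; ring
  have e2 := sum_kernel_far s2 p δ hδ (fun i hi => hp i (hs2s i hi))
    (fun i hi j hj => hsp i (hs2s i hi) j (hs2s j hj)) u hu M hM k
    (fun i hi => hk i (hs2s i hi)) η hηδ (fun i hi => not_le.1 (Finset.mem_filter.1 hi).2)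
  have e3 : 200 / (M * η * δ) ≤ 200 / δ := by
    have h1 : 1 ≤ M * η := by
      rw [div_le_iff₀ hM0] at hηM
      linarith
    have h2 : δ ≤ M * η * δ := by nlinarith
    gcongr
  rw [hsplit]
  have h1 : 400 * (M + 1 / δ) = 400 * M + 400 / δ := by ring
  have h2 : 4 / δ + 200 / δ ≤ 400 / δ := by
    rw [← add_div]
    gcongr
    norm_num
  rw [h1]
  linarith

end Pool.Agent.GaussMR

end

/-! ### from `Lib_MP_f1a94e_mr.BHa` -/

section

/-!
# Piece BHA: Bonferroni inequalities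
-/

set_option autoImplicit false

namespace Pool.Agent.GaussMR

/-! ### auxiliary lemmas -/

theorem bha_alt_succ (b s : ℕ) :
    ∑ k ∈ Finset.range (b + 1), (-1 : ℝ) ^ k * ((s + 1).choose k : ℝ) =
      (-1) ^ b * (s.choose b : ℝ) := by
  induction b with
  | zero => simp
  | succ b ih =>
    rw [Finset.sum_range_succ, ih, Nat.choose_succ_succ s b]
    push_cast
    ring

theorem bha_alt_zero (b : ℕ) :
    ∑ k ∈ Finset.range (b + 1), (-1 : ℝ) ^ k * ((0 : ℕ).choose k : ℝ) = 1 := by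
  rw [Finset.sum_eq_single 0]
  · simp
  · intro k _ hk
    rw [Nat.choose_eq_zero_of_lt (Nat.pos_of_ne_zero hk)]
    simp
  · simp

open Classical in
theorem bha_split {ι : Type*} (S : Finset ι) (n : ℕ) (f : Finset ι → ℝ) :
    ∑ D ∈ S.powerset.filter (fun D => D.card ≤ n), f D =
      ∑ k ∈ Finset.range (n + 1), ∑ D ∈ S.powersetCard k, f D := by
  rw [← Finset.sum_fiberwise_of_maps_to (s := S.powerset.filter (fun D => D.card ≤ n))
    (t := Finset.range (n + 1)) (g := fun D => D.card)]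
  · refine Finset.sum_congr rfl fun k hk => Finset.sum_congr ?_ fun _ _ => rfl
    ext D
    simp only [Finset.mem_filter, Finset.mem_powerset, Finset.mem_powersetCard]
    have := Finset.mem_range.1 hk
    constructor
    · rintro ⟨⟨h1, _⟩, h2⟩
      exact ⟨h1, h2⟩
    · rintro ⟨h1, h2⟩
      exact ⟨⟨h1, by omega⟩, h2⟩
  · intro D hD
    simp only [Finset.mem_filter, Finset.mem_powerset] at hD
    exact Finset.mem_range.2 (by omega)

open Classical in
theorem bha_card_eq {ι : Type*} (S : Finset ι) (n : ℕ) :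
    S.powerset.filter (fun D => D.card = n) = S.powersetCard n := by
  ext D
  simp only [Finset.mem_filter, Finset.mem_powerset, Finset.mem_powersetCard]

open Classical in
theorem bha_alt {ι : Type*} (S : Finset ι) (n : ℕ) :
    ∑ D ∈ S.powerset.filter (fun D => D.card ≤ n), (-1 : ℝ) ^ D.card =
      ∑ k ∈ Finset.range (n + 1), (-1 : ℝ) ^ k * (S.card.choose k : ℝ) := by
  rw [bha_split]
  refine Finset.sum_congr rfl fun k _ => ?_
  rw [Finset.sum_congr rfl (g := fun _ => (-1 : ℝ) ^ k)]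
  · rw [Finset.sum_const, Finset.card_powersetCard, nsmul_eq_mul, mul_comm]
  · intro D hD
    rw [(Finset.mem_powersetCard.1 hD).2]

theorem bha_insert {ι : Type*} [DecidableEq ι] (P : Finset ι) (a : ι) (ha : a ∉ P) (g : ι → ℝ)
    (k : ℕ) :
    ∑ A ∈ (insert a P).powersetCard (k + 1), ∏ p ∈ A, g p =
      ∑ A ∈ P.powersetCard (k + 1), ∏ p ∈ A, g p +
        g a * ∑ A ∈ P.powersetCard k, ∏ p ∈ A, g p := by
  rw [Finset.powersetCard_succ_insert ha, Finset.sum_union]
  · congr 1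
    rw [Finset.sum_image, Finset.mul_sum]
    · apply Finset.sum_congr rfl
      intro A hA
      have hA' : a ∉ A := fun h => ha ((Finset.mem_powersetCard.1 hA).1 h)
      rw [Finset.prod_insert hA']
    · intro A hA B hB hAB
      have hA' : a ∉ A := fun h => ha ((Finset.mem_powersetCard.1 (Finset.mem_coe.1 hA)).1 h)
      have hB' : a ∉ B := fun h => ha ((Finset.mem_powersetCard.1 (Finset.mem_coe.1 hB)).1 h)
      calc A = (insert a A).erase a := (Finset.erase_insert hA').symm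
        _ = (insert a B).erase a := by rw [hAB]
        _ = B := Finset.erase_insert hB'
  · rw [Finset.disjoint_left]
    intro A hA hA2
    obtain ⟨B, -, rfl⟩ := Finset.mem_image.1 hA2
    exact ha ((Finset.mem_powersetCard.1 hA).1 (Finset.mem_insert_self _ _))

theorem bha_empty {ι : Type*} (g : ι → ℝ) (k : ℕ) :
    ∑ A ∈ (∅ : Finset ι).powersetCard (k + 1), ∏ p ∈ A, g p = 0 := by
  have : (∅ : Finset ι).powersetCard (k + 1) = ∅ :=
    Finset.powersetCard_eq_empty.2 (by simp)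
  rw [this, Finset.sum_empty]

theorem bha_pow_step (G x : ℝ) (hG : 0 ≤ G) (hx : 0 ≤ x) (k : ℕ) :
    G ^ (k + 1) + ((k : ℝ) + 1) * x * G ^ k ≤ (G + x) ^ (k + 1) := by
  induction k with
  | zero => simp
  | succ k ih =>
    have h1 : (G + x) * (G ^ (k + 1) + ((k : ℝ) + 1) * x * G ^ k) ≤ (G + x) * (G + x) ^ (k + 1) :=
      mul_le_mul_of_nonneg_left ih (by linarith)
    have h2 : (G + x) ^ (k + 1 + 1) = (G + x) * (G + x) ^ (k + 1) := by ring
    rw [h2]
    refine le_trans ?_ h1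
    push_cast
    have h3 : 0 ≤ ((k : ℝ) + 1) * x * x * G ^ k := by positivity
    have h4 : (G + x) * (G ^ (k + 1) + ((k : ℝ) + 1) * x * G ^ k) =
      G ^ (k + 1 + 1) + ((k : ℝ) + 1 + 1) * x * G ^ (k + 1) + ((k : ℝ) + 1) * x * x * G ^ k := by
      ring
    rw [h4]
    linarith

theorem bha_esymm {ι : Type*} (P : Finset ι) (g : ι → ℝ) (hg : ∀ p ∈ P, 0 ≤ g p) (k : ℕ) :
    ∑ A ∈ P.powersetCard k, ∏ p ∈ A, g p ≤ (∑ p ∈ P, g p) ^ k / (k.factorial : ℝ) := by
  classical
  induction P using Finset.induction_on generalizing k with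
  | empty =>
    cases k with
    | zero => simp
    | succ k => rw [bha_empty]; simp
  | insert a P ha ih =>
    have hg' : ∀ p ∈ P, 0 ≤ g p := fun p hp => hg p (Finset.mem_insert_of_mem hp)
    have hga : 0 ≤ g a := hg a (Finset.mem_insert_self _ _)
    cases k with
    | zero => simp
    | succ k =>
      rw [bha_insert P a ha g k, Finset.sum_insert ha]
      have h1 := ih hg' (k + 1)
      have h2 := mul_le_mul_of_nonneg_left (ih hg' k) hga
      have hG : 0 ≤ ∑ p ∈ P, g p := Finset.sum_nonneg hg'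
      have h3 := bha_pow_step _ _ hG hga k
      have hf : (0 : ℝ) < (k.factorial : ℝ) := by exact_mod_cast k.factorial_pos
      have hf1 : ((k + 1).factorial : ℝ) = ((k : ℝ) + 1) * (k.factorial : ℝ) := by
        rw [Nat.factorial_succ]; push_cast; ring
      have hk1 : (0 : ℝ) < (k : ℝ) + 1 := by positivity
      rw [add_comm (g a)]
      refine (add_le_add h1 h2).trans ?_
      rw [hf1]
      have h4 : (∑ p ∈ P, g p) ^ (k + 1) / (((k : ℝ) + 1) * (k.factorial : ℝ)) +
          g a * ((∑ p ∈ P, g p) ^ k / (k.factorial : ℝ)) =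
          ((∑ p ∈ P, g p) ^ (k + 1) + ((k : ℝ) + 1) * g a * (∑ p ∈ P, g p) ^ k) /
            (((k : ℝ) + 1) * (k.factorial : ℝ)) := by
        field_simp
      rw [h4]
      exact div_le_div_of_nonneg_right h3 (by positivity)

theorem bha_bonf {ι : Type*} (g : ι → ℝ) (P : Finset ι) (hP : ∀ p ∈ P, 0 ≤ g p ∧ g p ≤ 1)
    (b : ℕ) :
    0 ≤ (-1 : ℝ) ^ b * (∑ k ∈ Finset.range (b + 1), (-1 : ℝ) ^ k *
      ∑ A ∈ P.powersetCard k, ∏ p ∈ A, g p - ∏ p ∈ P, (1 - g p)) := by
  classical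
  induction P using Finset.induction_on generalizing b with
  | empty =>
    have : ∑ k ∈ Finset.range (b + 1), (-1 : ℝ) ^ k *
        ∑ A ∈ (∅ : Finset ι).powersetCard k, ∏ p ∈ A, g p = 1 := by
      rw [Finset.sum_range_succ']
      simp only [bha_empty, mul_zero, Finset.sum_const_zero, pow_zero, zero_add]
      simp
    rw [this]
    simp
  | insert a P ha ih =>
    have hP' : ∀ p ∈ P, 0 ≤ g p ∧ g p ≤ 1 := fun p hp => hP p (Finset.mem_insert_of_mem hp)
    have hga := hP a (Finset.mem_insert_self _ _)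
    have hpi0 : 0 ≤ ∏ p ∈ P, (1 - g p) :=
      Finset.prod_nonneg fun p hp => by linarith [(hP' p hp).2]
    have hpi1 : ∏ p ∈ P, (1 - g p) ≤ 1 :=
      Finset.prod_le_one (fun p hp => by linarith [(hP' p hp).2])
        fun p hp => by linarith [(hP' p hp).1]
    rw [Finset.prod_insert ha]
    cases b with
    | zero =>
      simp only [zero_add, Finset.range_one, Finset.sum_singleton, pow_zero, one_mul]
      simp only [Finset.powersetCard_zero, Finset.sum_singleton, Finset.prod_empty]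
      nlinarith
    | succ b =>
      have h1 := ih hP' (b + 1)
      have h2 := mul_nonneg hga.1 (ih hP' b)
      have e0 : ∀ Q : Finset ι, ∑ A ∈ Q.powersetCard 0, ∏ p ∈ A, g p = 1 := by
        intro Q
        simp
      have e1 : ∑ k ∈ Finset.range (b + 1 + 1), (-1 : ℝ) ^ k *
          ∑ A ∈ (insert a P).powersetCard k, ∏ p ∈ A, g p =
          ∑ k ∈ Finset.range (b + 1 + 1), (-1 : ℝ) ^ k * ∑ A ∈ P.powersetCard k, ∏ p ∈ A, g p -
          g a * ∑ k ∈ Finset.range (b + 1), (-1 : ℝ) ^ k *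
            ∑ A ∈ P.powersetCard k, ∏ p ∈ A, g p := by
        rw [Finset.sum_range_succ', Finset.sum_range_succ' (fun k => (-1 : ℝ) ^ k *
          ∑ A ∈ P.powersetCard k, ∏ p ∈ A, g p) (b + 1), e0, e0, Finset.mul_sum]
        have : ∀ k ∈ Finset.range (b + 1), (-1 : ℝ) ^ (k + 1) *
            ∑ A ∈ (insert a P).powersetCard (k + 1), ∏ p ∈ A, g p =
            (-1 : ℝ) ^ (k + 1) * ∑ A ∈ P.powersetCard (k + 1), ∏ p ∈ A, g p -
            g a * ((-1 : ℝ) ^ k * ∑ A ∈ P.powersetCard k, ∏ p ∈ A, g p) := by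
          intro k _
          rw [bha_insert P a ha g k]
          ring
        rw [Finset.sum_congr rfl this, Finset.sum_sub_distrib]
        ring
      rw [e1]
      have e2 : (-1 : ℝ) ^ (b + 1) = -(-1) ^ b := by ring
      rw [e2] at h1 ⊢
      nlinarith

/-! ### the statements -/

open Classical in
/-- `∑_{j ≤ m'} (-1)^j C(n, j) = (-1)^m' C(n - 1, m')` for `n ≥ 1` -/
theorem bonf_lower {ι : Type*} (S : Finset ι) (m : ℕ) :
    (if S = ∅ then (1 : ℝ) else 0) ≤
      ∑ D ∈ S.powerset.filter (fun D => D.card ≤ 2 * m), (-1 : ℝ) ^ D.card := by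
  rw [bha_alt]
  rcases Finset.eq_empty_or_nonempty S with h | h
  · rw [if_pos h, h, Finset.card_empty, bha_alt_zero]
  · rw [if_neg h.ne_empty]
    obtain ⟨s, hs⟩ := Nat.exists_eq_succ_of_ne_zero h.card_pos.ne'
    rw [hs, Nat.succ_eq_add_one, bha_alt_succ, (even_two_mul m).neg_one_pow]
    positivity

open Classical in
theorem bonf_upper {ι : Type*} (S : Finset ι) (m : ℕ) :
    ∑ D ∈ S.powerset.filter (fun D => D.card ≤ 2 * m), (-1 : ℝ) ^ D.card ≤
      (if S = ∅ then (1 : ℝ) else 0) +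
        ((S.powerset.filter (fun D => D.card = 2 * m + 1)).card : ℝ) := by
  rw [bha_alt, bha_card_eq, Finset.card_powersetCard]
  rcases Finset.eq_empty_or_nonempty S with h | h
  · rw [if_pos h, h, Finset.card_empty, bha_alt_zero]
    simp
  · rw [if_neg h.ne_empty]
    obtain ⟨s, hs⟩ := Nat.exists_eq_succ_of_ne_zero h.card_pos.ne'
    rw [hs, Nat.succ_eq_add_one, bha_alt_succ, (even_two_mul m).neg_one_pow,
      Nat.choose_succ_succ]
    push_cast
    have : (0 : ℝ) ≤ (s.choose (2 * m + 1) : ℝ) := by positivity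
    linarith

open Classical in
/-- the same with weights: `∏ (1 - g) ≤ ∑_{|D| ≤ 2m} (-1)^|D| ∏_D g` for `0 ≤ g ≤ 1` (e.g. induction on
`S`, proving at the same time the reverse inequality for odd truncation) -/
theorem bonf_weight {ι : Type*} (S : Finset ι) (g : ι → ℝ) (h0 : ∀ p ∈ S, 0 ≤ g p)
    (h1 : ∀ p ∈ S, g p ≤ 1) (m : ℕ) :
    ∏ p ∈ S, (1 - g p) ≤
      ∑ D ∈ S.powerset.filter (fun D => D.card ≤ 2 * m), (-1 : ℝ) ^ D.card * ∏ p ∈ D, g p := by
  have h := bha_bonf g S (fun p hp => ⟨h0 p hp, h1 p hp⟩) (2 * m)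
  rw [(even_two_mul m).neg_one_pow, one_mul] at h
  rw [bha_split]
  have e : ∑ k ∈ Finset.range (2 * m + 1), ∑ D ∈ S.powersetCard k, (-1 : ℝ) ^ D.card *
      ∏ p ∈ D, g p = ∑ k ∈ Finset.range (2 * m + 1), (-1 : ℝ) ^ k *
        ∑ A ∈ S.powersetCard k, ∏ p ∈ A, g p := by
    refine Finset.sum_congr rfl fun k _ => ?_
    rw [Finset.mul_sum]
    refine Finset.sum_congr rfl fun D hD => ?_
    rw [(Finset.mem_powersetCard.1 hD).2]
  rw [e]
  linarith

open Classical in
/-- elementary symmetric sums: `e_n(g) ≤ (∑ g)^n / n!` -/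
theorem esymm_le {ι : Type*} (S : Finset ι) (g : ι → ℝ) (h0 : ∀ p ∈ S, 0 ≤ g p) (n : ℕ) :
    ∑ D ∈ S.powerset.filter (fun D => D.card = n), ∏ p ∈ D, g p ≤
      (∑ p ∈ S, g p) ^ n / n.factorial := by
  rw [bha_card_eq]
  exact bha_esymm S g h0 n

/-- `∏ x_i ≥ ∏ y_i - ∑_l e_l ∏_{i ≠ l} y_i` if `0 ≤ x_i ≤ y_i ≤ x_i + e_i` -/
theorem prod_lower (t : ℕ) (x y e : ℕ → ℝ) (h0 : ∀ i < t, 0 ≤ x i) (h1 : ∀ i < t, x i ≤ y i)
    (h2 : ∀ i < t, y i ≤ x i + e i) :
    ∏ i ∈ Finset.range t, y i - ∑ l ∈ Finset.range t, e l * ∏ i ∈ (Finset.range t).erase l, y i ≤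
      ∏ i ∈ Finset.range t, x i := by
  have main : ∀ s : Finset ℕ, (∀ i ∈ s, 0 ≤ x i) → (∀ i ∈ s, x i ≤ y i) →
      ∏ i ∈ s, y i - ∑ l ∈ s, (y l - x l) * ∏ i ∈ s.erase l, y i ≤ ∏ i ∈ s, x i := by
    intro s hx hxy
    induction s using Finset.induction_on with
    | empty => simp
    | insert i t hi ih =>
      have hx' : ∀ j ∈ t, 0 ≤ x j := fun j hj => hx j (Finset.mem_insert_of_mem hj)
      have hxy' : ∀ j ∈ t, x j ≤ y j := fun j hj => hxy j (Finset.mem_insert_of_mem hj)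
      have ih' := ih hx' hxy'
      have hxi := hx i (Finset.mem_insert_self i t)
      have hxyi := hxy i (Finset.mem_insert_self i t)
      rw [Finset.prod_insert hi, Finset.prod_insert hi, Finset.sum_insert hi,
        Finset.erase_insert hi]
      have hsum : ∑ l ∈ t, (y l - x l) * ∏ j ∈ (insert i t).erase l, y j =
          y i * ∑ l ∈ t, (y l - x l) * ∏ j ∈ t.erase l, y j := by
        rw [Finset.mul_sum]
        refine Finset.sum_congr rfl fun l hl => ?_
        have hne : l ≠ i := fun h => hi (h ▸ hl)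
        rw [Finset.erase_insert_of_ne hne.symm,
          Finset.prod_insert (fun h => hi (Finset.mem_of_mem_erase h))]
        ring
      rw [hsum]
      have hD : 0 ≤ ∑ l ∈ t, (y l - x l) * ∏ j ∈ t.erase l, y j := by
        refine Finset.sum_nonneg fun l hl => mul_nonneg (sub_nonneg.2 (hxy' l hl)) ?_
        exact Finset.prod_nonneg fun j hj =>
          (hx' j (Finset.mem_of_mem_erase hj)).trans (hxy' j (Finset.mem_of_mem_erase hj))
      nlinarith [mul_le_mul_of_nonneg_left ih' hxi, mul_nonneg (sub_nonneg.2 hxyi) hD]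
  have h := main (Finset.range t) (fun i hi => h0 i (Finset.mem_range.1 hi))
    (fun i hi => h1 i (Finset.mem_range.1 hi))
  refine le_trans ?_ h
  have : ∑ l ∈ Finset.range t, (y l - x l) * ∏ i ∈ (Finset.range t).erase l, y i ≤
      ∑ l ∈ Finset.range t, e l * ∏ i ∈ (Finset.range t).erase l, y i := by
    refine Finset.sum_le_sum fun l hl => ?_
    have hl' := Finset.mem_range.1 hl
    refine mul_le_mul_of_nonneg_right (by linarith [h2 l hl']) ?_
    refine Finset.prod_nonneg fun j hj => ?_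
    have hj' := Finset.mem_range.1 (Finset.mem_of_mem_erase hj)
    exact (h0 j hj').trans (h1 j hj')
  linarith

end Pool.Agent.GaussMR

end

/-! ### from `Lib_MP_f1a94e_nt.Second` -/

section

/-!
# The second moment of the number of divisors of `n ^ 2 + 1`
-/

set_option autoImplicit false

namespace Pool.Agent.ParityQuad

open Finset

/-- number of divisors -/
def tau (n : ℕ) : ℕ := n.divisors.card

theorem tau_mul_le (a b : ℕ) : tau (a * b) ≤ tau a * tau b := by
  unfold tau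
  rw [Nat.divisors_mul]
  exact Finset.card_mul_le

theorem tau_pos {n : ℕ} (h : n ≠ 0) : 1 ≤ tau n := by
  unfold tau
  exact Finset.card_pos.2 ⟨1, Nat.one_mem_divisors.2 h⟩

theorem exists_half (m : ℕ) (hm : 1 ≤ m) : ∃ d, d ∣ m ∧ d ^ 2 ≤ m ∧ tau m ≤ 2 * tau d ^ 2 := by
  have hS : (m.divisors.filter (fun d => d ^ 2 ≤ m)).Nonempty :=
    ⟨1, by rw [Finset.mem_filter, Nat.mem_divisors]; exact ⟨⟨one_dvd _, by omega⟩, by omega⟩⟩
  obtain ⟨d, hd, hmax⟩ := Finset.exists_max_image _ id hS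
  rw [Finset.mem_filter, Nat.mem_divisors] at hd
  obtain ⟨⟨⟨m', hm'⟩, hm0⟩, hd2⟩ := hd
  have hdpos : 0 < d := Nat.pos_of_ne_zero (by rintro rfl; simp at hm'; omega)
  rcases Nat.lt_or_ge m 2 with h1 | h1
  · have : m = 1 := by omega
    subst this
    refine ⟨1, one_dvd _, by norm_num, ?_⟩
    simp [tau]
  · have hm'1 : m' ≠ 1 := by
      rintro rfl
      rw [mul_one] at hm'
      subst hm'
      nlinarith
    obtain ⟨p, hp, e, he⟩ := Nat.exists_prime_and_dvd hm'1
    have hppos := hp.pos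
    have hdp : m < (d * p) ^ 2 := by
      by_contra hcon
      push Not at hcon
      have hmem : d * p ∈ m.divisors.filter (fun d => d ^ 2 ≤ m) := by
        rw [Finset.mem_filter, Nat.mem_divisors]
        exact ⟨⟨⟨e, by rw [hm', he]; ring⟩, hm0⟩, hcon⟩
      have := hmax _ hmem
      simp only [id] at this
      have h2 := hp.two_le
      nlinarith
    have he2 : e ^ 2 ≤ m := by
      have h3 : m = d * p * e := by rw [hm', he]; ring
      by_contra hcon
      push Not at hcon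
      have h4 : m * m < (d * p) ^ 2 * e ^ 2 := Nat.mul_lt_mul'' hdp hcon
      have h5 : (d * p) ^ 2 * e ^ 2 = m * m := by rw [h3]; ring
      omega
    have htau : tau m ≤ 2 * (tau d * tau e) := by
      have h3 : m = d * (p * e) := by rw [hm', he]
      calc tau m = tau (d * (p * e)) := by rw [← h3]
        _ ≤ tau d * tau (p * e) := tau_mul_le _ _
        _ ≤ tau d * (tau p * tau e) := Nat.mul_le_mul_left _ (tau_mul_le _ _)
        _ = 2 * (tau d * tau e) := by
            have : tau p = 2 := by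
              unfold tau
              rw [hp.divisors, Finset.card_pair hp.one_lt.ne]
            rw [this]; ring
    rcases le_total (tau d) (tau e) with h | h
    · refine ⟨e, ⟨d * p, by rw [hm', he]; ring⟩, he2, htau.trans ?_⟩
      nlinarith
    · refine ⟨d, ⟨m', hm'⟩, hd2, htau.trans ?_⟩
      nlinarith

/-- the number of solutions of `n ^ 2 = -1` modulo `d` up to `N` -/
theorem count_roots (N d : ℕ) (hd : 1 ≤ d) :
    (((Finset.Icc 1 N).filter (fun n => d ∣ n ^ 2 + 1)).card : ℝ) ≤ tau d * (2 * N / d + 1) := by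
  classical
  set A := (Finset.Icc 1 N).filter (fun n => d ∣ n ^ 2 + 1) with hA
  rcases A.eq_empty_or_nonempty with h | ⟨n0, hn0⟩
  · rw [h]; simp; positivity
  rw [hA, Finset.mem_filter] at hn0
  have hmaps : ∀ n ∈ A, Int.gcd ((n : ℤ) - n0) d ∈ d.divisors := by
    intro n _
    rw [Nat.mem_divisors]
    refine ⟨?_, by omega⟩
    have := Int.gcd_dvd_right ((n : ℤ) - n0) (d : ℤ)
    exact_mod_cast this
  rw [Finset.card_eq_sum_card_fiberwise hmaps]
  push_cast
  have hfib : ∀ g ∈ d.divisors, (((A.filter (fun n : ℕ => Int.gcd ((n : ℤ) - n0) d = g)).card : ℕ) : ℝ) ≤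
      2 * N / d + 1 := by
    intro g hg
    rw [Nat.mem_divisors] at hg
    obtain ⟨⟨k, hk⟩, _⟩ := hg
    have hgpos : 0 < g := Nat.pos_of_ne_zero (by rintro rfl; simp at hk; omega)
    have hkpos : 0 < k := Nat.pos_of_ne_zero (by rintro rfl; simp at hk; omega)
    -- any two members are congruent modulo d / 2
    have hprop : ∀ n ∈ A, Int.gcd ((n : ℤ) - n0) d = g →
        (g : ℤ) ∣ (n : ℤ) - n0 ∧ (k : ℤ) ∣ (n : ℤ) + n0 := by
      intro n hn hng
      have h1 : (g : ℤ) ∣ (n : ℤ) - n0 := by rw [← hng]; exact Int.gcd_dvd_left _ _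
      refine ⟨h1, ?_⟩
      rw [hA, Finset.mem_filter] at hn
      have h2 : (d : ℤ) ∣ ((n : ℤ) - n0) * ((n : ℤ) + n0) := by
        have e1 : (d : ℤ) ∣ ((n : ℤ) ^ 2 + 1) := by exact_mod_cast hn.2
        have e2 : (d : ℤ) ∣ ((n0 : ℤ) ^ 2 + 1) := by exact_mod_cast hn0.2
        have := dvd_sub e1 e2
        have e3 : ((n : ℤ) ^ 2 + 1) - ((n0 : ℤ) ^ 2 + 1) = ((n : ℤ) - n0) * ((n : ℤ) + n0) := by ring
        rwa [e3] at this
      obtain ⟨a, ha⟩ := h1
      have hcop : IsCoprime (a : ℤ) (k : ℤ) := by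
        rw [Int.isCoprime_iff_gcd_eq_one]
        have h3 : Int.gcd ((g : ℤ) * a) ((g : ℤ) * k) = g * Int.gcd a k := by
          rw [Int.gcd_mul_left]; simp
        have h4 : ((d : ℕ) : ℤ) = (g : ℤ) * k := by rw [hk]; push_cast; ring
        rw [h4, ha, h3] at hng
        have : g * Int.gcd a k = g * 1 := by rw [hng]; ring
        exact Nat.eq_of_mul_eq_mul_left hgpos this
      have h5 : (g : ℤ) * k ∣ (g : ℤ) * (a * ((n : ℤ) + n0)) := by
        have h4 : ((d : ℕ) : ℤ) = (g : ℤ) * k := by rw [hk]; push_cast; ring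
        rw [← h4, ← mul_assoc, ← ha]; exact h2
      have h6 : (k : ℤ) ∣ a * ((n : ℤ) + n0) :=
        (mul_dvd_mul_iff_left (by exact_mod_cast hgpos.ne')).1 h5
      exact hcop.symm.dvd_of_dvd_mul_left h6
    have hcong : ∀ n ∈ A, Int.gcd ((n : ℤ) - n0) d = g → ∀ n' ∈ A,
        Int.gcd ((n' : ℤ) - n0) d = g → (d : ℤ) ∣ 2 * ((n : ℤ) - n') := by
      intro n hn hng n' hn' hng'
      obtain ⟨a1, a2⟩ := hprop n hn hng
      obtain ⟨b1, b2⟩ := hprop n' hn' hng'
      have c1 : (g : ℤ) ∣ (n : ℤ) - n' := by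
        have := dvd_sub a1 b1
        have e : ((n : ℤ) - n0) - ((n' : ℤ) - n0) = n - n' := by ring
        rwa [e] at this
      have c2 : (k : ℤ) ∣ (n : ℤ) - n' := by
        have := dvd_sub a2 b2
        have e : ((n : ℤ) + n0) - ((n' : ℤ) + n0) = n - n' := by ring
        rwa [e] at this
      -- gcd g k divides 2
      have hh : (Int.gcd (g : ℤ) (k : ℤ) : ℤ) ∣ 2 := by
        set h := (Int.gcd (g : ℤ) (k : ℤ) : ℤ) with hh
        have h1 : h ∣ (g : ℤ) := Int.gcd_dvd_left _ _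
        have h2 : h ∣ (k : ℤ) := Int.gcd_dvd_right _ _
        have h3 : h ∣ 2 * (n0 : ℤ) := by
          have := dvd_sub (h2.trans a2) (h1.trans a1)
          have e : ((n : ℤ) + n0) - ((n : ℤ) - n0) = 2 * n0 := by ring
          rwa [e] at this
        have h4 : h ∣ (n0 : ℤ) ^ 2 + 1 := by
          have e2 : (d : ℤ) ∣ ((n0 : ℤ) ^ 2 + 1) := by exact_mod_cast hn0.2
          have e3 : (g : ℤ) ∣ (d : ℤ) := by rw [hk]; push_cast; exact Dvd.intro _ rfl
          exact (h1.trans e3).trans e2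
        have h5 : h ∣ 2 * ((n0 : ℤ) ^ 2 + 1) - (n0 : ℤ) * (2 * n0) :=
          dvd_sub (h4.mul_left 2) (h3.mul_left _)
        have e : 2 * ((n0 : ℤ) ^ 2 + 1) - (n0 : ℤ) * (2 * n0) = 2 := by ring
        rwa [e] at h5
      have hl : (Int.lcm (g : ℤ) (k : ℤ) : ℤ) ∣ (n : ℤ) - n' := Int.coe_lcm_dvd c1 c2
      have hgl : (Int.gcd (g : ℤ) (k : ℤ) : ℤ) * (Int.lcm (g : ℤ) (k : ℤ) : ℤ) = (d : ℤ) := by
        have := Int.gcd_mul_lcm (g : ℤ) (k : ℤ)
        rw [hk]
        have e : (Int.gcd (g : ℤ) (k : ℤ)) * (Int.lcm (g : ℤ) (k : ℤ)) = g * k := by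
          rw [this]; simp
        exact_mod_cast e
      rw [← hgl]
      exact mul_dvd_mul hh hl
    -- injection into an interval
    have hdR : (0 : ℝ) < d := by exact_mod_cast hd
    have hcard : (A.filter (fun n : ℕ => Int.gcd ((n : ℤ) - n0) d = g)).card ≤
        (Finset.range (2 * N / d + 1)).card := by
      apply Finset.card_le_card_of_injOn (fun n => 2 * n / d)
      · intro n hn
        rw [Finset.mem_coe, Finset.mem_filter, hA, Finset.mem_filter, Finset.mem_Icc] at hn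
        rw [Finset.mem_coe, Finset.mem_range]
        have : 2 * n / d ≤ 2 * N / d := Nat.div_le_div_right (by omega)
        exact Nat.lt_succ_of_le this
      · intro n hn n' hn' heq
        rw [Finset.mem_coe, Finset.mem_filter] at hn hn'
        simp only at heq
        have hdv := hcong n hn.1 hn.2 n' hn'.1 hn'.2
        have h1 := Nat.div_add_mod (2 * n) d
        have h2 := Nat.div_add_mod (2 * n') d
        have h3 := Nat.mod_lt (2 * n) (by omega : d > 0)
        have h4 := Nat.mod_lt (2 * n') (by omega : d > 0)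
        rw [heq] at h1
        obtain ⟨c, hc⟩ := hdv
        have h5 : (2 * (n : ℤ) - 2 * n') = ((2 * n % d : ℕ) : ℤ) - ((2 * n' % d : ℕ) : ℤ) := by
          have h1' : ((d * (2 * n' / d) + 2 * n % d : ℕ) : ℤ) = ((2 * n : ℕ) : ℤ) := by rw [h1]
          have h2' : ((d * (2 * n' / d) + 2 * n' % d : ℕ) : ℤ) = ((2 * n' : ℕ) : ℤ) := by rw [h2]
          push_cast at h1' h2' ⊢
          linarith
        have h6 : (d : ℤ) * c < d := by
          rw [← hc]
          have : (2 : ℤ) * ((n : ℤ) - n') = 2 * (n : ℤ) - 2 * n' := by ring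
          rw [this, h5]
          have h3' : ((2 * n % d : ℕ) : ℤ) < d := by exact_mod_cast h3
          have : (0 : ℤ) ≤ ((2 * n' % d : ℕ) : ℤ) := Int.natCast_nonneg _
          linarith
        have h7 : -(d : ℤ) < (d : ℤ) * c := by
          rw [← hc]
          have : (2 : ℤ) * ((n : ℤ) - n') = 2 * (n : ℤ) - 2 * n' := by ring
          rw [this, h5]
          have h4' : ((2 * n' % d : ℕ) : ℤ) < d := by exact_mod_cast h4
          have : (0 : ℤ) ≤ ((2 * n % d : ℕ) : ℤ) := Int.natCast_nonneg _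
          linarith
        have hdz : (0 : ℤ) < d := by exact_mod_cast hd
        have hc1 : c < 1 := by nlinarith
        have hc2 : -1 < c := by nlinarith
        have hc0 : c = 0 := by omega
        rw [hc0, mul_zero] at hc
        have : (n : ℤ) = n' := by linarith
        exact_mod_cast this
    rw [Finset.card_range] at hcard
    have h8 : (((A.filter (fun n : ℕ => Int.gcd ((n : ℤ) - n0) d = g)).card : ℕ) : ℝ) ≤
        ((2 * N / d + 1 : ℕ) : ℝ) := by exact_mod_cast hcard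
    refine h8.trans ?_
    push_cast
    have h9 : ((2 * N / d : ℕ) : ℝ) ≤ ((2 * N : ℕ) : ℝ) / d := Nat.cast_div_le
    push_cast at h9
    linarith
  calc _ ≤ ∑ g ∈ d.divisors, (2 * (N : ℝ) / d + 1) := Finset.sum_le_sum hfib
    _ = _ := by rw [Finset.sum_const, nsmul_eq_mul]; rfl

/-- logarithmic moments of the number of divisors -/
theorem log_moment (D : ℕ) (j : ℕ) :
    ∑ d ∈ Finset.Icc 1 D, (tau d : ℝ) ^ j / d ≤ (∑ d ∈ Finset.Icc 1 D, (1 : ℝ) / d) ^ (2 ^ j) := by
  classical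
  induction j with
  | zero => simp
  | succ j ih =>
    have h0 : 0 ≤ ∑ d ∈ Finset.Icc 1 D, (tau d : ℝ) ^ j / d := Finset.sum_nonneg (fun d _ => by positivity)
    have key : ∑ d ∈ Finset.Icc 1 D, (tau d : ℝ) ^ (j + 1) / d ≤
        (∑ d ∈ Finset.Icc 1 D, (tau d : ℝ) ^ j / d) ^ 2 := by
      set s := ((Finset.Icc 1 D) ×ˢ (Finset.Icc 1 D)).filter (fun p => p.1 * p.2 ≤ D) with hs
      have hmaps : ∀ p ∈ s, p.1 * p.2 ∈ Finset.Icc 1 D := by
        intro p hp
        rw [hs, Finset.mem_filter, Finset.mem_product, Finset.mem_Icc, Finset.mem_Icc] at hp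
        rw [Finset.mem_Icc]
        exact ⟨Nat.mul_pos (by omega) (by omega), hp.2⟩
      calc ∑ d ∈ Finset.Icc 1 D, (tau d : ℝ) ^ (j + 1) / d
          ≤ ∑ d ∈ Finset.Icc 1 D, ∑ p ∈ s.filter (fun p => p.1 * p.2 = d),
              ((tau p.1 : ℝ) ^ j / p.1) * ((tau p.2 : ℝ) ^ j / p.2) := by
            apply Finset.sum_le_sum
            intro d hd
            rw [Finset.mem_Icc] at hd
            have hterm : ∀ p ∈ s.filter (fun p => p.1 * p.2 = d), (tau d : ℝ) ^ j / d ≤
                ((tau p.1 : ℝ) ^ j / p.1) * ((tau p.2 : ℝ) ^ j / p.2) := by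
              intro p hp
              rw [Finset.mem_filter] at hp
              have e : ((tau p.1 : ℝ) ^ j / p.1) * ((tau p.2 : ℝ) ^ j / p.2) =
                  ((tau p.1 : ℝ) * tau p.2) ^ j / d := by
                rw [← hp.2, mul_pow]; push_cast; rw [div_mul_div_comm]
              rw [e]
              have h1 : (tau d : ℝ) ≤ (tau p.1 : ℝ) * tau p.2 := by
                rw [← hp.2]; exact_mod_cast tau_mul_le p.1 p.2
              gcongr
            have hcard : tau d ≤ (s.filter (fun p => p.1 * p.2 = d)).card := by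
              unfold tau
              apply Finset.card_le_card_of_injOn (fun a => (a, d / a))
              · intro a ha
                rw [Finset.mem_coe, Nat.mem_divisors] at ha
                rw [Finset.mem_coe, Finset.mem_filter, hs, Finset.mem_filter, Finset.mem_product,
                  Finset.mem_Icc, Finset.mem_Icc]
                have hapos : 0 < a := Nat.pos_of_dvd_of_pos ha.1 (by omega)
                have hale : a ≤ d := Nat.le_of_dvd (by omega) ha.1
                have hmul : a * (d / a) = d := Nat.mul_div_cancel' ha.1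
                have hda : d / a ≤ d := Nat.div_le_self _ _
                have hda0 : 0 < d / a := Nat.div_pos hale hapos
                simp only
                refine ⟨⟨⟨⟨by omega, by omega⟩, by omega, by omega⟩, by rw [hmul]; omega⟩, hmul⟩
              · intro a _ b _ h
                exact (Prod.mk.injEq _ _ _ _ ▸ h).1
            calc (tau d : ℝ) ^ (j + 1) / d = (tau d : ℝ) * ((tau d : ℝ) ^ j / d) := by
                  rw [pow_succ]; ring
              _ ≤ ((s.filter (fun p => p.1 * p.2 = d)).card : ℝ) * ((tau d : ℝ) ^ j / d) := by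
                  have : (tau d : ℝ) ≤ ((s.filter (fun p => p.1 * p.2 = d)).card : ℝ) := by
                    exact_mod_cast hcard
                  gcongr
              _ = ∑ p ∈ s.filter (fun p => p.1 * p.2 = d), ((tau d : ℝ) ^ j / d) := by
                  rw [Finset.sum_const, nsmul_eq_mul]
              _ ≤ _ := Finset.sum_le_sum hterm
        _ = ∑ p ∈ s, ((tau p.1 : ℝ) ^ j / p.1) * ((tau p.2 : ℝ) ^ j / p.2) :=
            Finset.sum_fiberwise_of_maps_to hmaps _
        _ ≤ ∑ p ∈ (Finset.Icc 1 D) ×ˢ (Finset.Icc 1 D),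
              ((tau p.1 : ℝ) ^ j / p.1) * ((tau p.2 : ℝ) ^ j / p.2) := by
            apply Finset.sum_le_sum_of_subset_of_nonneg (Finset.filter_subset _ _)
            intro p _ _
            positivity
        _ = _ := by rw [sq, Finset.sum_mul_sum, Finset.sum_product]
    calc _ ≤ _ := key
      _ ≤ ((∑ d ∈ Finset.Icc 1 D, (1 : ℝ) / d) ^ (2 ^ j)) ^ 2 := by gcongr
      _ = _ := by rw [← pow_mul, pow_succ]

theorem harm_le (D : ℕ) : ∑ d ∈ Finset.Icc 1 D, (1 : ℝ) / d ≤ 1 + Real.log D := by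
  have h := harmonic_le_one_add_log D
  have e : ∑ d ∈ Finset.Icc 1 D, (1 : ℝ) / d = (harmonic D : ℝ) := by
    rw [harmonic_eq_sum_Icc]
    push_cast
    apply Finset.sum_congr rfl
    intro i _
    rw [one_div]
  rw [e]; exact h

/-- the second moment -/
theorem second_moment (N : ℕ) (hN : 1 ≤ N) :
    ∑ n ∈ Finset.Icc 1 N, (tau (n ^ 2 + 1) : ℝ) ^ 2 ≤ 12 * N * (1 + Real.log N) ^ 32 := by
  classical
  have hNR : (1 : ℝ) ≤ N := by exact_mod_cast hN
  calc ∑ n ∈ Finset.Icc 1 N, (tau (n ^ 2 + 1) : ℝ) ^ 2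
      ≤ ∑ n ∈ Finset.Icc 1 N, ∑ d ∈ (Finset.Icc 1 N).filter (fun d => d ∣ n ^ 2 + 1),
          4 * (tau d : ℝ) ^ 4 := by
        apply Finset.sum_le_sum
        intro n hn
        rw [Finset.mem_Icc] at hn
        obtain ⟨d, hd1, hd2, hd3⟩ := exists_half (n ^ 2 + 1) (by omega)
        have hmem : d ∈ (Finset.Icc 1 N).filter (fun d => d ∣ n ^ 2 + 1) := by
          rw [Finset.mem_filter, Finset.mem_Icc]
          have hpos : 0 < d := Nat.pos_of_dvd_of_pos hd1 (by omega)
          refine ⟨⟨hpos, ?_⟩, hd1⟩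
          by_contra hcon
          push Not at hcon
          have : (N + 1) ^ 2 ≤ d ^ 2 := Nat.pow_le_pow_left hcon 2
          nlinarith
        calc (tau (n ^ 2 + 1) : ℝ) ^ 2 ≤ (2 * (tau d : ℝ) ^ 2) ^ 2 := by
              have : (tau (n ^ 2 + 1) : ℝ) ≤ 2 * (tau d : ℝ) ^ 2 := by exact_mod_cast hd3
              gcongr
          _ = 4 * (tau d : ℝ) ^ 4 := by ring
          _ ≤ _ := Finset.single_le_sum (f := fun d => 4 * (tau d : ℝ) ^ 4)
                (fun d _ => by positivity) hmem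
    _ = ∑ d ∈ Finset.Icc 1 N, ∑ n ∈ (Finset.Icc 1 N).filter (fun n => d ∣ n ^ 2 + 1),
          4 * (tau d : ℝ) ^ 4 := by
        apply Finset.sum_comm'
        intro n d
        simp only [Finset.mem_filter]
        tauto
    _ ≤ ∑ d ∈ Finset.Icc 1 N, 12 * N * ((tau d : ℝ) ^ 5 / d) := by
        apply Finset.sum_le_sum
        intro d hd
        rw [Finset.mem_Icc] at hd
        have hdR : (0 : ℝ) < d := by exact_mod_cast hd.1
        have hdN : (d : ℝ) ≤ N := by exact_mod_cast hd.2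
        rw [Finset.sum_const, nsmul_eq_mul]
        have h1 := count_roots N d hd.1
        have h2 : 2 * (N : ℝ) / d + 1 ≤ 3 * N / d := by
          rw [div_add_one hdR.ne', div_le_div_iff_of_pos_right hdR]
          linarith
        calc (((Finset.Icc 1 N).filter (fun n => d ∣ n ^ 2 + 1)).card : ℝ) * (4 * (tau d : ℝ) ^ 4)
            ≤ (tau d * (2 * N / d + 1)) * (4 * (tau d : ℝ) ^ 4) := by gcongr
          _ ≤ (tau d * (3 * N / d)) * (4 * (tau d : ℝ) ^ 4) := by gcongr
          _ = 12 * N * ((tau d : ℝ) ^ 5 / d) := by ring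
    _ = 12 * N * ∑ d ∈ Finset.Icc 1 N, (tau d : ℝ) ^ 5 / d := by rw [Finset.mul_sum]
    _ ≤ 12 * N * (1 + Real.log N) ^ 32 := by
        have h1 := log_moment N 5
        have h2 := harm_le N
        have h3 : 0 ≤ ∑ d ∈ Finset.Icc 1 N, (1 : ℝ) / d := Finset.sum_nonneg (fun d _ => by positivity)
        have h4 : (∑ d ∈ Finset.Icc 1 N, (1 : ℝ) / d) ^ (2 ^ 5) ≤ (1 + Real.log N) ^ 32 := by
          norm_num
          gcongr
          simpa using h2
        gcongr
        exact h1.trans h4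

end Pool.Agent.ParityQuad

end
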