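import Mathlib
import Pool.Agent.Lib_MP_f1a94e_m.G01
import Pool.Agent.Lib_MP_f1a94e_m.G02
import Pool.Agent.Lib_MP_f1a94e_m.G03
import Pool.Agent.Lib_MP_f1a94e_m.G04

/-!
# MP_f1a94e_nt: merged library part G06

Concatenation of files of the libraries `Lib_MP_f1a94e_*` (each in its own section), only to save build time.
-/

/-! ### from `Lib_MP_f1a94e_aq.Local` -/

section

/-!
# Piece LOCAL: local densities
-/

set_option autoImplicit false

namespace Pool.Agent.OmAll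

open Finset Pool.Agent.GaussMR

theorem mem_cls {M : ℕ} {e : G × G} : e ∈ cls M ↔ (0 ≤ e.1.re ∧ e.1.re < M) ∧ (0 ≤ e.1.im ∧ e.1.im < M) ∧
    (0 ≤ e.2.re ∧ e.2.re < M) ∧ (0 ≤ e.2.im ∧ e.2.im < M) ∧ (M : ℤ) ∣ det e.1 e.2 - 1 := by
  unfold cls
  rw [mem_filter, mem_image]
  constructor
  · rintro ⟨⟨w, hw, rfl⟩, h2⟩
    rw [mem_product, mem_product, mem_product, mem_range, mem_range, mem_range, mem_range] at hw
    obtain ⟨⟨h3, h4⟩, h5, h6⟩ := hw
    refine ⟨⟨?_, ?_⟩, ⟨?_, ?_⟩, ⟨?_, ?_⟩, ⟨?_, ?_⟩, h2⟩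
    · exact Int.natCast_nonneg _
    · show ((w.1.1 : ℕ) : ℤ) < M
      exact_mod_cast h3
    · exact Int.natCast_nonneg _
    · show ((w.1.2 : ℕ) : ℤ) < M
      exact_mod_cast h4
    · exact Int.natCast_nonneg _
    · show ((w.2.1 : ℕ) : ℤ) < M
      exact_mod_cast h5
    · exact Int.natCast_nonneg _
    · show ((w.2.2 : ℕ) : ℤ) < M
      exact_mod_cast h6
  · rintro ⟨⟨a1, a2⟩, ⟨b1, b2⟩, ⟨c1, c2⟩, ⟨d1, d2⟩, h⟩
    refine ⟨⟨((e.1.re.toNat, e.1.im.toNat), (e.2.re.toNat, e.2.im.toNat)), ?_, ?_⟩, h⟩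
    · rw [mem_product, mem_product, mem_product, mem_range, mem_range, mem_range, mem_range]
      dsimp only
      refine ⟨⟨?_, ?_⟩, ?_, ?_⟩ <;> omega
    · dsimp only
      rw [Int.toNat_of_nonneg a1, Int.toNat_of_nonneg b1, Int.toNat_of_nonneg c1,
        Int.toNat_of_nonneg d1]

/-- predicates that depend only on the class modulo `M` -/
def Per (M : ℕ) (P : G × G → Prop) : Prop := ∀ e f : G × G, cg M e.1 f.1 → cg M e.2 f.2 → (P e ↔ P f)

/-- reduction of a Gaussian integer modulo `M` -/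
def rd (M : ℕ) (u : G) : G := ⟨u.re % M, u.im % M⟩

theorem rd_cg (M : ℕ) (u : G) : cg M (rd M u) u := by
  constructor
  · show (M : ℤ) ∣ u.re % M - u.re
    exact (Int.dvd_sub_self_of_emod_eq rfl)
  · show (M : ℤ) ∣ u.im % M - u.im
    exact (Int.dvd_sub_self_of_emod_eq rfl)

theorem det_cg {M : ℕ} {u v u' v' : G} (h1 : cg M u u') (h2 : cg M v v') :
    (M : ℤ) ∣ det u v - det u' v' := by
  obtain ⟨a, b⟩ := h1
  obtain ⟨c, d⟩ := h2
  have e : det u v - det u' v' = (u.re - u'.re) * v.im + (v.im - v'.im) * u'.re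
      - ((u.im - u'.im) * v.re + (v.re - v'.re) * u'.im) := by
    unfold det
    ring
  rw [e]
  exact dvd_sub (dvd_add (a.mul_right _) (d.mul_right _)) (dvd_add (b.mul_right _) (c.mul_right _))

theorem cg_mono {M N : ℕ} (h : M ∣ N) {u v : G} (hc : cg N u v) : cg M u v :=
  ⟨(Int.natCast_dvd_natCast.2 h).trans hc.1, (Int.natCast_dvd_natCast.2 h).trans hc.2⟩

theorem cg_symm {M : ℕ} {u v : G} (hc : cg M u v) : cg M v u :=
  ⟨by rw [← neg_sub]; exact (dvd_neg).2 hc.1, by rw [← neg_sub]; exact (dvd_neg).2 hc.2⟩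

theorem cg_trans {M : ℕ} {u v w : G} (h1 : cg M u v) (h2 : cg M v w) : cg M u w :=
  ⟨by have := dvd_add h1.1 h2.1; rwa [sub_add_sub_cancel] at this,
    by have := dvd_add h1.2 h2.2; rwa [sub_add_sub_cancel] at this⟩

theorem rd_mem_cls {M N : ℕ} (hM : 0 < M) (h : M ∣ N) {e : G × G} (he : (N : ℤ) ∣ det e.1 e.2 - 1) :
    (rd M e.1, rd M e.2) ∈ cls M := by
  have hM' : (0 : ℤ) < M := by exact_mod_cast hM
  rw [mem_cls]
  refine ⟨⟨Int.emod_nonneg _ hM'.ne', Int.emod_lt_of_pos _ hM'⟩,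
    ⟨Int.emod_nonneg _ hM'.ne', Int.emod_lt_of_pos _ hM'⟩,
    ⟨Int.emod_nonneg _ hM'.ne', Int.emod_lt_of_pos _ hM'⟩,
    ⟨Int.emod_nonneg _ hM'.ne', Int.emod_lt_of_pos _ hM'⟩, ?_⟩
  have h1 := det_cg (rd_cg M e.1) (rd_cg M e.2)
  have h2 := (Int.natCast_dvd_natCast.2 h).trans he
  have := dvd_add h1 h2
  rwa [sub_add_sub_cancel] at this

theorem loc_eq {M1 M2 : ℕ} (hco : M1.Coprime M2) {x y : ℤ} (hx0 : 0 ≤ x) (hx : x < (M1 * M2 : ℕ))
    (hy0 : 0 ≤ y) (hy : y < (M1 * M2 : ℕ)) (h1 : x % M1 = y % M1) (h2 : x % M2 = y % M2) :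
    x = y := by
  have d1 : (M1 : ℤ) ∣ x - y := Int.ModEq.dvd (show y % M1 = x % M1 from h1.symm)
  have d2 : (M2 : ℤ) ∣ x - y := Int.ModEq.dvd (show y % M2 = x % M2 from h2.symm)
  have hc : IsCoprime (M1 : ℤ) (M2 : ℤ) := Nat.isCoprime_iff_coprime.2 hco
  have d3 := hc.mul_dvd d1 d2
  have h3 : x - y = 0 := by
    apply Int.eq_zero_of_abs_lt_dvd d3
    push_cast at hx hy
    rw [abs_lt]
    constructor <;> linarith
  linarith

theorem loc_crt {M1 M2 : ℕ} (h1 : 0 < M1) (h2 : 0 < M2) (hco : M1.Coprime M2) (a b : ℤ) :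
    ∃ x : ℤ, 0 ≤ x ∧ x < (M1 * M2 : ℕ) ∧ (M1 : ℤ) ∣ x - a ∧ (M2 : ℤ) ∣ x - b := by
  obtain ⟨u, v, huv⟩ : IsCoprime (M1 : ℤ) (M2 : ℤ) := Nat.isCoprime_iff_coprime.2 hco
  have hM : (0 : ℤ) < (M1 * M2 : ℕ) := by exact_mod_cast Nat.mul_pos h1 h2
  have hd : ((M1 * M2 : ℕ) : ℤ) ∣ (a * v * M2 + b * u * M1) % ((M1 * M2 : ℕ) : ℤ)
      - (a * v * M2 + b * u * M1) := Int.dvd_sub_self_of_emod_eq rfl
  refine ⟨(a * v * M2 + b * u * M1) % ((M1 * M2 : ℕ) : ℤ), Int.emod_nonneg _ hM.ne',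
    Int.emod_lt_of_pos _ hM, ?_, ?_⟩
  · have e1 : (M1 : ℤ) ∣ ((M1 * M2 : ℕ) : ℤ) := by push_cast; exact dvd_mul_right _ _
    have e2 := e1.trans hd
    have e3 : (M1 : ℤ) ∣ (a * v * M2 + b * u * M1) - a := by
      refine ⟨(b - a) * u, ?_⟩
      linear_combination a * huv
    have := dvd_add e2 e3
    rwa [sub_add_sub_cancel] at this
  · have e1 : (M2 : ℤ) ∣ ((M1 * M2 : ℕ) : ℤ) := by push_cast; exact dvd_mul_left _ _
    have e2 := e1.trans hd
    have e3 : (M2 : ℤ) ∣ (a * v * M2 + b * u * M1) - b := by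
      refine ⟨(a - b) * v, ?_⟩
      linear_combination b * huv
    have := dvd_add e2 e3
    rwa [sub_add_sub_cancel] at this

theorem loc_crtG {M1 M2 : ℕ} (h1 : 0 < M1) (h2 : 0 < M2) (hco : M1.Coprime M2) (a b : G) :
    ∃ x : G, (0 ≤ x.re ∧ x.re < (M1 * M2 : ℕ)) ∧ (0 ≤ x.im ∧ x.im < (M1 * M2 : ℕ)) ∧
      cg M1 x a ∧ cg M2 x b := by
  obtain ⟨x, hx1, hx2, hx3, hx4⟩ := loc_crt h1 h2 hco a.re b.re
  obtain ⟨y, hy1, hy2, hy3, hy4⟩ := loc_crt h1 h2 hco a.im b.im
  exact ⟨⟨x, y⟩, ⟨hx1, hx2⟩, ⟨hy1, hy2⟩, ⟨hx3, hy3⟩, ⟨hx4, hy4⟩⟩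

theorem rd_eq_of_cg {M : ℕ} {u v : G} (h : cg M u v) (h1 : 0 ≤ v.re ∧ v.re < M)
    (h2 : 0 ≤ v.im ∧ v.im < M) : rd M u = v := by
  apply Zsqrtd.ext
  · show u.re % M = v.re
    have h3 : v.re % M = u.re % M := Int.modEq_iff_dvd.2 h.1
    rw [← h3, Int.emod_eq_of_lt h1.1 h1.2]
  · show u.im % M = v.im
    have h3 : v.im % M = u.im % M := Int.modEq_iff_dvd.2 h.2
    rw [← h3, Int.emod_eq_of_lt h2.1 h2.2]

theorem locG_eq {M1 M2 : ℕ} (hco : M1.Coprime M2) {u v : G}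
    (hu : 0 ≤ u.re ∧ u.re < (M1 * M2 : ℕ)) (hu' : 0 ≤ u.im ∧ u.im < (M1 * M2 : ℕ))
    (hv : 0 ≤ v.re ∧ v.re < (M1 * M2 : ℕ)) (hv' : 0 ≤ v.im ∧ v.im < (M1 * M2 : ℕ))
    (h1 : rd M1 u = rd M1 v) (h2 : rd M2 u = rd M2 v) : u = v := by
  apply Zsqrtd.ext
  · exact loc_eq hco hu.1 hu.2 hv.1 hv.2 (congrArg Zsqrtd.re h1) (congrArg Zsqrtd.re h2)
  · exact loc_eq hco hu'.1 hu'.2 hv'.1 hv'.2 (congrArg Zsqrtd.im h1) (congrArg Zsqrtd.im h2)

open Classical in
/-- Chinese remainder theorem: reduce the four coordinates modulo `M1` and modulo `M2`; a bijection `cls (M1 M2) → cls M1 × cls M2`. -/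
theorem cls_mul (M1 M2 : ℕ) (h1 : 0 < M1) (h2 : 0 < M2) (hco : M1.Coprime M2) (P1 P2 : G × G → Prop)
    (hP1 : Per M1 P1) (hP2 : Per M2 P2) :
    ((cls (M1 * M2)).filter (fun e => P1 e ∧ P2 e)).card =
      ((cls M1).filter P1).card * ((cls M2).filter P2).card := by
  rw [← card_product]
  apply card_bij (fun e _ => (((rd M1 e.1, rd M1 e.2), (rd M2 e.1, rd M2 e.2)) :
    (G × G) × (G × G)))
  · intro e he
    rw [mem_filter, mem_cls] at he
    rw [mem_product, mem_filter, mem_filter]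
    have hd := he.1.2.2.2.2
    refine ⟨⟨rd_mem_cls h1 (dvd_mul_right _ _) hd, ?_⟩, rd_mem_cls h2 (dvd_mul_left _ _) hd, ?_⟩
    · exact (hP1 _ _ (rd_cg M1 e.1) (rd_cg M1 e.2)).2 he.2.1
    · exact (hP2 _ _ (rd_cg M2 e.1) (rd_cg M2 e.2)).2 he.2.2
  · intro e he f hf hef
    rw [mem_filter, mem_cls] at he hf
    rw [Prod.mk.injEq, Prod.mk.injEq, Prod.mk.injEq] at hef
    obtain ⟨⟨a1, a2⟩, a3, a4⟩ := hef
    obtain ⟨⟨b1, b2, b3, b4, _⟩, _⟩ := he
    obtain ⟨⟨c1, c2, c3, c4, _⟩, _⟩ := hf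
    exact Prod.ext (locG_eq hco b1 b2 c1 c2 a1 a3) (locG_eq hco b3 b4 c3 c4 a2 a4)
  · rintro ⟨⟨a1, a2⟩, ⟨b1, b2⟩⟩ hab
    rw [mem_product, mem_filter, mem_filter, mem_cls, mem_cls] at hab
    obtain ⟨⟨⟨c1, c2, c3, c4, c5⟩, c6⟩, ⟨d1, d2, d3, d4, d5⟩, d6⟩ := hab
    dsimp only at c1 c2 c3 c4 c5 c6 d1 d2 d3 d4 d5 d6
    obtain ⟨x, x1, x2, x3, x4⟩ := loc_crtG h1 h2 hco a1 b1
    obtain ⟨y, y1, y2, y3, y4⟩ := loc_crtG h1 h2 hco a2 b2
    have hc : IsCoprime (M1 : ℤ) (M2 : ℤ) := Nat.isCoprime_iff_coprime.2 hco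
    have e1 : (M1 : ℤ) ∣ det x y - 1 := by
      have := dvd_add (det_cg x3 y3) c5
      rwa [sub_add_sub_cancel] at this
    have e2 : (M2 : ℤ) ∣ det x y - 1 := by
      have := dvd_add (det_cg x4 y4) d5
      rwa [sub_add_sub_cancel] at this
    refine ⟨(x, y), ?_, ?_⟩
    · rw [mem_filter, mem_cls]
      refine ⟨⟨x1, x2, y1, y2, ?_⟩, ?_, ?_⟩
      · have := hc.mul_dvd e1 e2
        push_cast
        exact this
      · exact (hP1 (x, y) (a1, a2) x3 y3).2 c6
      · exact (hP2 (x, y) (b1, b2) x4 y4).2 d6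
    · dsimp only
      rw [rd_eq_of_cg x3 c1 c2, rd_eq_of_cg y3 c3 c4, rd_eq_of_cg x4 d1 d2, rd_eq_of_cg y4 d3 d4]

/-- a computable version of `cls 2` -/
def cls2 : Finset (G × G) :=
  (((((range 2 ×ˢ range 2) ×ˢ (range 2 ×ˢ range 2)).image
    (fun w : (ℕ × ℕ) × (ℕ × ℕ) => ((⟨(w.1.1 : ℤ), (w.1.2 : ℤ)⟩, ⟨(w.2.1 : ℤ), (w.2.2 : ℤ)⟩) : G × G))).filter
      (fun e => ((2 : ℕ) : ℤ) ∣ det e.1 e.2 - 1)) : Finset (G × G))

theorem cls2_eq : cls 2 = cls2 := rfl

theorem cls2_card : cls2.card = 6 := by decide +kernel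

theorem cls2_filter : (cls2.filter (fun e => Odd (nm e.1) ∧ Odd (nm e.2))).card = 2 := by
  decide +kernel

open Classical in
/-- `decide` or `simp`/`rfl` computations with the 16 quadruples -/
theorem cls_two : (cls 2).card = 6 ∧ ((cls 2).filter (fun e => Odd (nm e.1) ∧ Odd (nm e.2))).card = 2 := by
  rw [cls2_eq]
  refine ⟨cls2_card, ?_⟩
  rw [← cls2_filter]

end Pool.Agent.OmAll

end

/-! ### from `Lib_MP_f1a94e_eq.Defs` -/

section

/-!
# MP_f1a94e_nt, equidistribution of `Ω (m ^ 2 + 1)` modulo `q`: definitions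

Pairs `(V, V')` of Gaussian integers with `det (V, V') = n`, moves of small primes, limit quantities.
-/

set_option autoImplicit false

namespace Pool.Agent.OmEq

open Finset Pool.Agent.GaussMR Pool.Agent.OmAll

/-- pairs `(V, V')` of determinant `n` with `V` primitive, positive scalar product and `V' = c V` modulo `n`
for some `c` coprime to `n` -/
def En (n : ℕ) (e : G × G) : Prop :=
  det e.1 e.2 = n ∧ 0 < dot e.1 e.2 ∧ Prim e.1 ∧
    ∃ c : ℤ, IsCoprime c (n : ℤ) ∧ cg n e.2 ((c : G) * e.1)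

open Classical in
/-- the pairs of `En n` with scalar product at most `x` -/
noncomputable def EN (n : ℕ) (x : ℝ) : Finset (G × G) :=
  (ball (x ^ 2 + (n : ℝ) ^ 2) ×ˢ ball (x ^ 2 + (n : ℝ) ^ 2)).filter
    (fun e => En n e ∧ ((dot e.1 e.2 : ℤ) : ℝ) ≤ x)

/-- `log (|V'|^2 / |V|^2)` -/
noncomputable def tE (e : G × G) : ℝ := Real.log (nm e.2) - Real.log (nm e.1)

/-- the scalar product as a real number -/
noncomputable def mE (e : G × G) : ℝ := ((dot e.1 e.2 : ℤ) : ℝ)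

/-- the primes `1 mod 4` up to `T` not in `E` -/
def PE (E : Finset ℕ) (T : ℕ) : Finset ℕ := PT T \ E

open Classical in
/-- the primes of `PE E T` dividing `|V|^2 |V'|^2` exactly once -/
noncomputable def ds (E : Finset ℕ) (T : ℕ) (e : G × G) : Finset ℕ :=
  (PE E T).filter (fun p => p ∣ nm e.1 * nm e.2 ∧ ¬ p ^ 2 ∣ nm e.1 * nm e.2)

/-- all these primes divide `|V'|^2` -/
def bs (E : Finset ℕ) (T : ℕ) (e : G × G) : Prop := ∀ p ∈ ds E T e, ¬ p ∣ nm e.1

/-- `∑ log p` over a finite set of primes -/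
noncomputable def lg (a : Finset ℕ) : ℝ := ∑ p ∈ a, Real.log p

/-- functions on pairs that are multiplied by `g p` when a prime `γ` of norm `p ∉ E` moves from `V'` to `V` -/
structure Cmp (n : ℕ) (E : Finset ℕ) (g : ℕ → ℂ) (Φ : G × G → ℂ) : Prop where
  bd : ∀ e, ‖Φ e‖ ≤ 1
  mv : ∀ γ U W : G, (nm γ).Prime → nm γ % 4 = 1 → nm γ ∉ E → En n (γ * U, W) →
    ¬ (nm γ) ^ 2 ∣ nm (γ * U) * nm W → Φ (γ * U, W) = g (nm γ) * Φ (U, star γ * W)

/-- density of the base pairs with `ds E T e = D` -/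
noncomputable def Pr (E : Finset ℕ) (T : ℕ) (D : Finset ℕ) : ℝ :=
  (∏ p ∈ D, Ap p) * ∏ p ∈ PE E T \ D, (1 - 2 * Ap p)

/-- the sum over a cluster with movable primes `D` -/
noncomputable def cs (g : ℕ → ℂ) (w : ℝ → ℂ) (D : Finset ℕ) (t : ℝ) : ℂ :=
  ∑ a ∈ D.powerset, (∏ p ∈ a, g p) * w (t - 2 * lg a)

/-- the limit of the sums of the absolute values of the cluster sums -/
noncomputable def IT (E : Finset ℕ) (g : ℕ → ℂ) (T : ℕ) (w : ℝ → ℂ) : ℝ :=
  ∑ D ∈ (PE E T).powerset, Pr E T D * ∫ t, ‖cs g w D t‖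

/-- `g (p) p^(-2 i τ) / p` has bounded sums up to `(R / 2) log (1 / |τ|)` -/
def NP (E : Finset ℕ) (g : ℕ → ℂ) (R : ℝ) : Prop :=
  ∀ B : ℝ, 0 < B → ∃ C : ℝ, ∀ T : ℕ, 3 ≤ T → ∀ τ : ℝ, 0 < |τ| → |τ| ≤ B →
    ∑ p ∈ PE E T, (g p * Complex.exp (-(2 * τ * Real.log p : ℝ) * Complex.I)).re / p ≤
      R / 2 * max 0 (Real.log (1 / |τ|)) + C

theorem mem_EN {n : ℕ} (hn : 0 < n) {x : ℝ} {e : G × G} : e ∈ EN n x ↔ En n e ∧ mE e ≤ x := by
  classical
  unfold EN mE
  simp only [mem_filter, mem_product, mem_ball]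
  refine ⟨fun h => h.2, fun h => ⟨?_, h⟩⟩
  obtain ⟨⟨h1, h2, -, -⟩, h3⟩ := h
  have h4 := dot_sq_add_det_sq e.1 e.2
  rw [h1] at h4
  have hn' : (1 : ℤ) ≤ (n : ℤ) := by exact_mod_cast hn
  have h5 : (0 : ℤ) < (nm e.1 : ℤ) * nm e.2 := by
    rw [← h4]
    positivity
  have h6 : 0 < nm e.1 * nm e.2 := by exact_mod_cast h5
  have h7 : 1 ≤ nm e.1 := Nat.pos_of_mul_pos_left h6 |> fun _ => Nat.pos_of_ne_zero (by
    rintro h0
    rw [h0, zero_mul] at h6
    exact lt_irrefl _ h6)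
  have h8 : 1 ≤ nm e.2 := Nat.pos_of_ne_zero (by
    rintro h0
    rw [h0, mul_zero] at h6
    exact lt_irrefl _ h6)
  have h9 : ((dot e.1 e.2 : ℤ) : ℝ) ^ 2 + (n : ℝ) ^ 2 = (nm e.1 : ℝ) * nm e.2 := by
    exact_mod_cast h4
  have h10 : (0 : ℝ) < ((dot e.1 e.2 : ℤ) : ℝ) := by exact_mod_cast h2
  have h11 : ((dot e.1 e.2 : ℤ) : ℝ) ^ 2 ≤ x ^ 2 := by nlinarith
  have h12 : (1 : ℝ) ≤ nm e.1 := by exact_mod_cast h7
  have h13 : (1 : ℝ) ≤ nm e.2 := by exact_mod_cast h8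
  constructor <;> nlinarith

theorem mem_PE {E : Finset ℕ} {T p : ℕ} : p ∈ PE E T ↔ p ≤ T ∧ p.Prime ∧ p % 4 = 1 ∧ p ∉ E := by
  unfold PE PT
  rw [mem_sdiff, mem_filter, mem_range]
  constructor
  · rintro ⟨⟨h1, h2, h3⟩, h4⟩
    exact ⟨by omega, h2, h3, h4⟩
  · rintro ⟨h1, h2, h3, h4⟩
    exact ⟨⟨by omega, h2, h3⟩, h4⟩

theorem mE_pos {n : ℕ} {e : G × G} (h : En n e) : 0 < mE e := by
  unfold mE
  exact_mod_cast h.2.1

end Pool.Agent.OmEq

end

/-! ### from `Lib_MP_f1a94e_aq.Cover` -/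

section

/-!
# Piece COVER: covering a cone by arcs
-/

set_option autoImplicit false

namespace Pool.Agent.OmAll

open Finset Pool.Agent.GaussMR

theorem Fr.swap {u v : G} (h : Fr u v) : Fr v u := by
  obtain ⟨h1, h2, h3, h4, h5⟩ := h
  refine ⟨?_, h4, h5, h2, h3⟩
  rw [det_comm, abs_neg]
  exact h1

theorem ll_pos {u v : G} (h : Fr u v) : 0 < ll u := by
  obtain ⟨h1, h2, h3, h4, h5⟩ := h
  unfold ll
  by_contra hc
  have h6 : u.re = 0 := by omega
  have h7 : u.im = 0 := by omega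
  unfold det at h1
  rw [h6, h7] at h1
  simp at h1

/-- the covering statement with a given bound (auxiliary) -/
def CovB (M S0 : ℕ) (δ : ℝ) (u v : G) : Prop :=
    ∃ (A : Finset (G × G × ℕ)) (L : Finset (G × G)),
      (∀ a ∈ A, Fr a.1 a.2.1 ∧ S0 ≤ a.2.2 ∧ arc a.1 a.2.1 a.2.2 M ⊆ cone0 u v) ∧
      (∀ a ∈ A, ∀ a' ∈ A, a ≠ a' → Disjoint (arc a.1 a.2.1 a.2.2 M) (arc a'.1 a'.2.1 a'.2.2 M)) ∧
      (∀ l ∈ L, Fr l.1 l.2) ∧
      (∀ V ∈ cone u v, (∃ a ∈ A, V ∈ arc a.1 a.2.1 a.2.2 M) ∨ ∃ l ∈ L, V ∈ cone l.1 l.2) ∧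
      ∑ l ∈ L, 1 / ((ll l.1 : ℝ) * ll l.2) ≤ δ

theorem CovB.mono {M S0 : ℕ} {δ δ' : ℝ} {u v : G} (h : CovB M S0 δ u v) (hd : δ ≤ δ') :
    CovB M S0 δ' u v := by
  obtain ⟨A, L, h1, h2, h3, h4, h5⟩ := h
  exact ⟨A, L, h1, h2, h3, h4, h5.trans hd⟩

theorem cone_swap (u v : G) : cone u v = cone v u := by
  ext z
  constructor
  · rintro ⟨α, β, rfl, h1, h2⟩
    exact ⟨β, α, add_comm _ _, h2, h1⟩
  · rintro ⟨α, β, rfl, h1, h2⟩
    exact ⟨β, α, add_comm _ _, h2, h1⟩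

theorem cone0_swap (u v : G) : cone0 u v = cone0 v u := by
  ext z
  constructor
  · rintro ⟨α, β, rfl, h1, h2⟩
    exact ⟨β, α, add_comm _ _, h2, h1⟩
  · rintro ⟨α, β, rfl, h1, h2⟩
    exact ⟨β, α, add_comm _ _, h2, h1⟩

theorem CovB.swap {M S0 : ℕ} {δ : ℝ} {u v : G} (h : CovB M S0 δ u v) :
    CovB M S0 δ v u := by
  unfold CovB at h ⊢
  rw [cone_swap v u, cone0_swap v u]
  exact h

theorem coord_unique {u v : G} (h : |det u v| = 1) {α β α' β' : ℤ}
    (he : (α : G) * u + (β : G) * v = (α' : G) * u + (β' : G) * v) : α = α' ∧ β = β' := by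
  have hne : det u v ≠ 0 := by
    intro h0
    rw [h0] at h
    simp at h
  have hre := congrArg Zsqrtd.re he
  have him := congrArg Zsqrtd.im he
  simp at hre him
  unfold det at hne
  constructor
  · have h1 : (α - α') * (u.re * v.im - u.im * v.re) = 0 := by linear_combination v.im * hre - v.re * him
    rcases mul_eq_zero.1 h1 with h2 | h2
    · omega
    · exact absurd h2 hne
  · have h1 : (β - β') * (u.re * v.im - u.im * v.re) = 0 := by linear_combination u.re * him - u.im * hre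
    rcases mul_eq_zero.1 h1 with h2 | h2
    · omega
    · exact absurd h2 hne

theorem Fr.tail {u v : G} (h : Fr u v) (K : ℕ) : Fr u (v + (K : ℤ) * u) := by
  obtain ⟨h1, h2, h3, h4, h5⟩ := h
  refine ⟨?_, h2, h3, ?_, ?_⟩
  · refine Eq.trans ?_ h1
    congr 1
    unfold det
    simp
    ring
  · simp
    positivity
  · simp
    positivity

theorem Fr.small {u v : G} (h : Fr u v) (j : ℕ) :
    Fr (v + ((j + 1 : ℕ) : ℤ) * u) (v + (j : ℤ) * u) := by
  obtain ⟨h1, h2, h3, h4, h5⟩ := h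
  refine ⟨?_, ?_, ?_, ?_, ?_⟩
  · refine Eq.trans ?_ h1
    congr 1
    unfold det
    simp
    ring
  · simp
    positivity
  · simp
    positivity
  · simp
    positivity
  · simp
    positivity

theorem small_coord (u v : G) (j : ℕ) (a b : ℤ) :
    (a : G) * (v + ((j + 1 : ℕ) : ℤ) * u) + (b : G) * (v + (j : ℤ) * u) =
      ((a * (j + 1) + b * j : ℤ) : G) * u + ((a + b : ℤ) : G) * v := by
  push_cast
  ring

theorem sum_biUnion_le' {ι κ : Type*} [DecidableEq ι] [DecidableEq κ] (s : Finset ι) (t : ι → Finset κ) (f : κ → ℝ)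
    (hf : ∀ i ∈ s, ∀ l ∈ t i, 0 ≤ f l) : ∑ l ∈ s.biUnion t, f l ≤ ∑ i ∈ s, ∑ l ∈ t i, f l := by
  induction s using Finset.induction_on with
  | empty => simp
  | insert a s ha ih =>
    rw [biUnion_insert, sum_insert ha]
    have h1 := Finset.sum_union_inter (s₁ := t a) (s₂ := s.biUnion t) (f := f)
    have h2 : 0 ≤ ∑ l ∈ t a ∩ s.biUnion t, f l := by
      apply Finset.sum_nonneg
      intro l hl
      exact hf a (mem_insert_self _ _) l (mem_inter.1 hl).1
    have h3 := ih (fun i hi l hl => hf i (mem_insert_of_mem hi) l hl)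
    linarith

theorem cov_step (M S0 : ℕ) (hM : 0 < M) (hS0 : 2 ≤ S0) (δ : ℕ → ℝ) (N : ℕ) (u v : G) (huv : Fr u v)
    (h : ∀ j < S0, CovB M S0 (δ j) (v + ((j + 1 : ℕ) : ℤ) * u) (v + (j : ℤ) * u)) :
    CovB M S0 (1 / ((ll u : ℝ) * ll (v + ((S0 + N * M : ℕ) : ℤ) * u)) + ∑ j ∈ range S0, δ j) u v := by
  classical
  choose! A L h1 h2 h3 h4 h5 using h
  have hu := huv.1
  -- the small arcs lie in sectors
  have hsec : ∀ j < S0, ∀ a ∈ A j, ∀ z ∈ arc a.1 a.2.1 a.2.2 M, ∃ α β : ℤ,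
      z = (α : G) * u + (β : G) * v ∧ 0 < β ∧ (j : ℤ) * β < α ∧ α < ((j : ℤ) + 1) * β := by
    intro j hj a ha z hz
    obtain ⟨α, β, rfl, hα, hβ⟩ := (h1 j hj a ha).2.2 hz
    refine ⟨α * (j + 1) + β * j, α + β, small_coord u v j α β, by omega, ?_, ?_⟩
    · nlinarith
    · nlinarith
  have harc : ∀ l : ℕ, ∀ z ∈ arc u v (S0 + l * M) M, ∃ α β : ℤ,
      z = (α : G) * u + (β : G) * v ∧ 0 < β ∧ ((S0 + l * M : ℕ) : ℤ) * β ≤ α ∧
        α < (((S0 + l * M : ℕ) : ℤ) + M) * β := by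
    rintro l z ⟨α, β, h⟩
    exact ⟨α, β, h⟩
  refine ⟨(range N).image (fun l => (u, v, S0 + l * M)) ∪ (range S0).biUnion A,
    {(u, v + ((S0 + N * M : ℕ) : ℤ) * u)} ∪ (range S0).biUnion L, ?_, ?_, ?_, ?_, ?_⟩
  · intro a ha
    rcases mem_union.1 ha with ha | ha
    · obtain ⟨l, hl, rfl⟩ := mem_image.1 ha
      refine ⟨huv, Nat.le_add_right _ _, ?_⟩
      intro z hz
      obtain ⟨α, β, hz, hβ, hα, -⟩ := harc l z hz
      refine ⟨α, β, hz, ?_, hβ⟩
      have : 0 < ((S0 + l * M : ℕ) : ℤ) * β := by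
        apply mul_pos _ hβ
        push_cast
        positivity
      omega
    · obtain ⟨j, hj, ha⟩ := mem_biUnion.1 ha
      have hj' := mem_range.1 hj
      refine ⟨(h1 j hj' a ha).1, (h1 j hj' a ha).2.1, ?_⟩
      intro z hz
      obtain ⟨α, β, hz, hβ, hα, -⟩ := hsec j hj' a ha z hz
      refine ⟨α, β, hz, ?_, hβ⟩
      have : 0 ≤ (j : ℤ) * β := by positivity
      omega
  · intro a ha a' ha' hne
    rw [Set.disjoint_left]
    intro z hz hz'
    rcases mem_union.1 ha with ha | ha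
    · obtain ⟨l, hl, rfl⟩ := mem_image.1 ha
      obtain ⟨α, β, hz1, hβ, hα1, hα2⟩ := harc l z hz
      rcases mem_union.1 ha' with ha' | ha'
      · obtain ⟨l', hl', rfl⟩ := mem_image.1 ha'
        obtain ⟨α', β', hz1', hβ', hα1', hα2'⟩ := harc l' z hz'
        obtain ⟨rfl, rfl⟩ := coord_unique hu (hz1.symm.trans hz1')
        rcases lt_trichotomy l l' with hll | hll | hll
        · have h6 : (((S0 + l * M : ℕ) : ℤ) + M) ≤ ((S0 + l' * M : ℕ) : ℤ) := by
            have : S0 + l * M + M ≤ S0 + l' * M := by nlinarith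
            exact_mod_cast this
          nlinarith
        · exact hne (by rw [hll])
        · have h6 : (((S0 + l' * M : ℕ) : ℤ) + M) ≤ ((S0 + l * M : ℕ) : ℤ) := by
            have : S0 + l' * M + M ≤ S0 + l * M := by nlinarith
            exact_mod_cast this
          nlinarith
      · obtain ⟨j, hj, ha'⟩ := mem_biUnion.1 ha'
        obtain ⟨α', β', hz1', hβ', hα1', hα2'⟩ := hsec j (mem_range.1 hj) a' ha' z hz'
        obtain ⟨rfl, rfl⟩ := coord_unique hu (hz1.symm.trans hz1')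
        have h6 : ((j : ℤ) + 1) ≤ ((S0 + l * M : ℕ) : ℤ) := by
          have h7 := mem_range.1 hj
          have h8 : 0 ≤ l * M := Nat.zero_le _
          push_cast
          have h9 : (0 : ℤ) ≤ (l : ℤ) * M := by positivity
          omega
        nlinarith
    · obtain ⟨j, hj, ha⟩ := mem_biUnion.1 ha
      obtain ⟨α, β, hz1, hβ, hα1, hα2⟩ := hsec j (mem_range.1 hj) a ha z hz
      rcases mem_union.1 ha' with ha' | ha'
      · obtain ⟨l', hl', rfl⟩ := mem_image.1 ha'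
        obtain ⟨α', β', hz1', hβ', hα1', hα2'⟩ := harc l' z hz'
        obtain ⟨rfl, rfl⟩ := coord_unique hu (hz1.symm.trans hz1')
        have h6 : ((j : ℤ) + 1) ≤ ((S0 + l' * M : ℕ) : ℤ) := by
          have h7 := mem_range.1 hj
          push_cast
          have h9 : (0 : ℤ) ≤ (l' : ℤ) * M := by positivity
          omega
        nlinarith
      · obtain ⟨j', hj', ha'⟩ := mem_biUnion.1 ha'
        obtain ⟨α', β', hz1', hβ', hα1', hα2'⟩ := hsec j' (mem_range.1 hj') a' ha' z hz'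
        obtain ⟨rfl, rfl⟩ := coord_unique hu (hz1.symm.trans hz1')
        rcases lt_trichotomy j j' with hll | hll | hll
        · have h6 : (j : ℤ) + 1 ≤ (j' : ℤ) := by omega
          nlinarith
        · subst hll
          exact Set.disjoint_left.1 (h2 j (mem_range.1 hj) a ha a' ha' hne) hz hz'
        · have h6 : (j' : ℤ) + 1 ≤ (j : ℤ) := by omega
          nlinarith
  · intro l hl
    rcases mem_union.1 hl with hl | hl
    · rw [mem_singleton.1 hl]
      exact huv.tail _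
    · obtain ⟨j, hj, hl⟩ := mem_biUnion.1 hl
      exact h3 j (mem_range.1 hj) l hl
  · rintro V ⟨α, β, rfl, hα, hβ⟩
    rcases hβ.eq_or_lt with hβ0 | hβ0
    · right
      refine ⟨_, mem_union_left _ (mem_singleton_self _), α, 0, ?_, hα, le_rfl⟩
      rw [← hβ0]
      simp
    by_cases hc1 : ((S0 + N * M : ℕ) : ℤ) * β ≤ α
    · right
      refine ⟨_, mem_union_left _ (mem_singleton_self _), α - ((S0 + N * M : ℕ) : ℤ) * β, β, ?_, by omega, hβ⟩
      push_cast
      ring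
    push Not at hc1
    by_cases hc2 : (S0 : ℤ) * β ≤ α
    · left
      -- floor of α / β
      obtain ⟨q, hq1, hq2⟩ : ∃ q : ℤ, q * β ≤ α ∧ α < (q + 1) * β := by
        refine ⟨α / β, Int.ediv_mul_le _ hβ0.ne', ?_⟩
        exact Int.lt_ediv_add_one_mul_self _ hβ0
      have hq3 : (S0 : ℤ) ≤ q := by
        by_contra hcc
        push Not at hcc
        have : q + 1 ≤ S0 := by omega
        nlinarith
      have hq4 : q < (S0 : ℤ) + N * M := by
        by_contra hcc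
        push Not at hcc
        push_cast at hc1
        nlinarith
      obtain ⟨r, rfl⟩ : ∃ r : ℕ, q = (S0 : ℤ) + r := ⟨(q - S0).toNat, by omega⟩
      have hr : r < N * M := by
        have : (r : ℤ) < N * M := by omega
        exact_mod_cast this
      refine ⟨(u, v, S0 + (r / M) * M), mem_union_left _ (mem_image.2 ⟨r / M, ?_, rfl⟩), α, β, rfl, hβ0, ?_, ?_⟩
      · rw [mem_range]
        exact (Nat.div_lt_iff_lt_mul hM).2 hr
      · have h6 : ((S0 + (r / M) * M : ℕ) : ℤ) ≤ (S0 : ℤ) + r := by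
          have h7 : (r / M) * M ≤ r := Nat.div_mul_le_self _ _
          have : S0 + (r / M) * M ≤ S0 + r := by omega
          exact_mod_cast this
        show ((S0 + (r / M) * M : ℕ) : ℤ) * β ≤ α
        nlinarith
      · have h6 : (S0 : ℤ) + r + 1 ≤ ((S0 + (r / M) * M : ℕ) : ℤ) + M := by
          have h7 : r < (r / M) * M + M := Nat.lt_div_mul_add hM
          have : S0 + r + 1 ≤ S0 + (r / M) * M + M := by omega
          exact_mod_cast this
        show α < (((S0 + (r / M) * M : ℕ) : ℤ) + M) * β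
        nlinarith
    · push Not at hc2
      obtain ⟨q, hq1, hq2⟩ : ∃ q : ℤ, q * β ≤ α ∧ α < (q + 1) * β := by
        refine ⟨α / β, Int.ediv_mul_le _ hβ0.ne', ?_⟩
        exact Int.lt_ediv_add_one_mul_self _ hβ0
      have hq3 : 0 ≤ q := by
        by_contra hcc
        push Not at hcc
        have : q + 1 ≤ 0 := by omega
        nlinarith
      obtain ⟨j, rfl⟩ : ∃ j : ℕ, q = (j : ℤ) := ⟨q.toNat, by omega⟩
      have hj : j < S0 := by
        by_contra hcc
        push Not at hcc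
        have : (S0 : ℤ) ≤ j := by exact_mod_cast hcc
        nlinarith
      have hV : (α : G) * u + (β : G) * v ∈ cone (v + ((j + 1 : ℕ) : ℤ) * u) (v + (j : ℤ) * u) := by
        refine ⟨α - j * β, (j + 1) * β - α, ?_, by omega, by omega⟩
        rw [small_coord]
        congr 2
        · congr 1
          ring
        · congr 1
          ring
      rcases h4 j hj _ hV with ⟨a, ha, haV⟩ | ⟨l, hl, hlV⟩
      · left
        exact ⟨a, mem_union_right _ (mem_biUnion.2 ⟨j, mem_range.2 hj, ha⟩), haV⟩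
      · right
        exact ⟨l, mem_union_right _ (mem_biUnion.2 ⟨j, mem_range.2 hj, hl⟩), hlV⟩
  · have hpos : ∀ l : G × G, Fr l.1 l.2 → 0 ≤ 1 / ((ll l.1 : ℝ) * ll l.2) := by
      intro l hl
      have h6 : (0 : ℝ) < ll l.1 := by exact_mod_cast ll_pos hl
      have h7 : (0 : ℝ) < ll l.2 := by exact_mod_cast ll_pos hl.swap
      positivity
    have h6 := Finset.sum_union_inter (s₁ := {(u, v + ((S0 + N * M : ℕ) : ℤ) * u)}) (s₂ := (range S0).biUnion L)
      (f := fun l : G × G => 1 / ((ll l.1 : ℝ) * ll l.2))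
    have h7 : 0 ≤ ∑ l ∈ {(u, v + ((S0 + N * M : ℕ) : ℤ) * u)} ∩ (range S0).biUnion L,
        1 / ((ll l.1 : ℝ) * ll l.2) := by
      apply Finset.sum_nonneg
      intro l hl
      apply hpos
      rw [mem_singleton.1 (mem_inter.1 hl).1]
      exact huv.tail _
    have h8 := sum_biUnion_le' (range S0) L (fun l : G × G => 1 / ((ll l.1 : ℝ) * ll l.2))
      (fun i hi l hl => hpos l (h3 i (mem_range.1 hi) l hl))
    have h9 : ∑ i ∈ range S0, ∑ l ∈ L i, 1 / ((ll l.1 : ℝ) * ll l.2) ≤ ∑ i ∈ range S0, δ i :=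
      Finset.sum_le_sum (fun i hi => h5 i (mem_range.1 hi))
    rw [Finset.sum_singleton] at h6
    simp only at h6 h8
    linarith

theorem tele (a y : ℝ) (ha : 0 < a) (hy : 0 < y) (n : ℕ) :
    ∑ j ∈ range n, 1 / ((y + (j + 1) * a) * (y + j * a)) = n / (y * (y + n * a)) := by
  induction n with
  | zero => simp
  | succ n ih =>
    rw [sum_range_succ, ih]
    have h1 : 0 < y + n * a := by positivity
    have h2 : 0 < y + (n + 1) * a := by positivity
    push_cast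
    field_simp
    ring

theorem ll_add_mul (u v : G) (K : ℕ) : ll (v + (K : ℤ) * u) = ll v + K * ll u := by
  unfold ll
  simp
  ring

theorem cov_pow (M S0 : ℕ) (hM : 0 < M) (hS0 : 2 ≤ S0) (k : ℕ) : ∀ u v : G, Fr u v →
    CovB M S0 (((2 * (S0 : ℝ) + 1) / (2 * S0 + 2)) ^ k * (1 / ((ll u : ℝ) * ll v))) u v := by
  induction k with
  | zero =>
    intro u v huv
    refine ⟨∅, {(u, v)}, by simp, by simp, ?_, ?_, ?_⟩
    · intro l hl
      rw [mem_singleton.1 hl]
      exact huv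
    · intro V hV
      right
      exact ⟨(u, v), mem_singleton_self _, hV⟩
    · simp
  | succ k ih =>
    have key : ∀ u v : G, Fr u v → ll u ≤ ll v →
        CovB M S0 (((2 * (S0 : ℝ) + 1) / (2 * S0 + 2)) ^ (k + 1) * (1 / ((ll u : ℝ) * ll v))) u v := by
      intro u v huv hle
      have ha : (1 : ℝ) ≤ ll u := by exact_mod_cast ll_pos huv
      have hy : (0 : ℝ) < ll v := by exact_mod_cast ll_pos huv.swap
      have hle' : (ll u : ℝ) ≤ ll v := by exact_mod_cast hle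
      have hS : (2 : ℝ) ≤ S0 := by exact_mod_cast hS0
      set ρ : ℝ := (2 * (S0 : ℝ) + 1) / (2 * S0 + 2) with hρ
      have hρ0 : 0 < ρ := by positivity
      set Λ : ℝ := 1 / ((ll u : ℝ) * ll v) with hΛ
      have ha0 : (0 : ℝ) < ll u := by linarith
      have hΛ0 : 0 < Λ := by positivity
      have hε : 0 < ρ ^ k * Λ / (2 * S0 + 2) := by positivity
      obtain ⟨N, hN⟩ := exists_nat_gt (1 / (ρ ^ k * Λ / (2 * S0 + 2)))
      have hstep := cov_step M S0 hM hS0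
        (fun j => ρ ^ k * (1 / ((ll (v + ((j + 1 : ℕ) : ℤ) * u) : ℝ) * ll (v + (j : ℤ) * u)))) N u v huv
        (fun j hj => ih _ _ (huv.small j))
      refine hstep.mono ?_
      have h1 : ∑ j ∈ range S0, ρ ^ k * (1 / ((ll (v + ((j + 1 : ℕ) : ℤ) * u) : ℝ) * ll (v + (j : ℤ) * u))) =
          ρ ^ k * (S0 / (ll v * (ll v + S0 * ll u))) := by
        rw [← Finset.mul_sum, ← tele (ll u : ℝ) (ll v : ℝ) ha0 hy S0]
        congr 1
        apply Finset.sum_congr rfl
        intro j hj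
        have e1 : (ll (v + ((j + 1 : ℕ) : ℤ) * u) : ℝ) = ll v + (j + 1) * ll u := by
          have := ll_add_mul u v (j + 1)
          rw [this]
          push_cast
          ring
        have e2 : (ll (v + (j : ℤ) * u) : ℝ) = ll v + j * ll u := by
          have := ll_add_mul u v j
          rw [this]
          push_cast
          ring
        rw [e1, e2]
      rw [h1]
      have h2 : (S0 : ℝ) / (ll v * (ll v + S0 * ll u)) ≤ S0 / (S0 + 1) * Λ := by
        rw [hΛ, div_mul_div_comm, mul_one]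
        apply div_le_div_of_nonneg_left (by positivity) (by positivity)
        nlinarith
      have h3 : 1 / ((ll u : ℝ) * ll (v + ((S0 + N * M : ℕ) : ℤ) * u)) ≤ ρ ^ k * Λ / (2 * S0 + 2) := by
        have e1 : (ll (v + ((S0 + N * M : ℕ) : ℤ) * u) : ℝ) = ll v + (S0 + N * M) * ll u := by
          have := ll_add_mul u v (S0 + N * M)
          rw [this]
          push_cast
          ring
        rw [e1]
        have hM1 : (1 : ℝ) ≤ M := by exact_mod_cast hM
        have hN0 : (0 : ℝ) ≤ N := by positivity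
        have h4 : (N : ℝ) ≤ (ll u : ℝ) * (ll v + (S0 + N * M) * ll u) := by
          have h5 : (N : ℝ) ≤ N * M := by nlinarith
          have h6 : (N : ℝ) * M ≤ (N * M) * ll u := by
            have : (0 : ℝ) ≤ N * M := by positivity
            nlinarith
          have h7 : (N : ℝ) * M * ll u ≤ ll v + (S0 + N * M) * ll u := by
            have : 0 ≤ (S0 : ℝ) * ll u := by positivity
            nlinarith
          have h8 : 0 ≤ (ll v : ℝ) + (S0 + N * M) * ll u := by positivity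
          nlinarith
        have hNpos : 0 < (N : ℝ) := lt_trans (by positivity) hN
        calc 1 / ((ll u : ℝ) * (ll v + (S0 + N * M) * ll u)) ≤ 1 / N :=
              one_div_le_one_div_of_le hNpos h4
          _ ≤ ρ ^ k * Λ / (2 * S0 + 2) := by
              rw [one_div_le hNpos hε]
              exact hN.le
      have h4 : ρ ^ (k + 1) * Λ = ρ ^ k * Λ / (2 * S0 + 2) + ρ ^ k * (S0 / (S0 + 1) * Λ) := by
        rw [pow_succ, hρ]
        have h5 : (2 * (S0 : ℝ) + 1) / (2 * S0 + 2) = 1 / (2 * S0 + 2) + S0 / (S0 + 1) := by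
          field_simp
          ring
        rw [← hρ]
        calc ρ ^ k * ρ * Λ = ρ ^ k * Λ * ρ := by ring
          _ = ρ ^ k * Λ * (1 / (2 * S0 + 2) + S0 / (S0 + 1)) := by rw [← h5]
          _ = _ := by ring
      rw [h4]
      have h5 : ρ ^ k * (S0 / (ll v * (ll v + S0 * ll u))) ≤ ρ ^ k * (S0 / (S0 + 1) * Λ) :=
        mul_le_mul_of_nonneg_left h2 (by positivity)
      linarith
    intro u v huv
    rcases le_total (ll u) (ll v) with h | h
    · exact key u v huv h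
    · have := (key v u huv.swap h).swap
      rwa [mul_comm (ll v : ℝ) (ll u : ℝ)] at this

/-- By induction on `k`: for every frame the statement with the bound `ρ^k / (ll u * ll v)`, `ρ = (2 S0 + 1) / (2 S0 + 2) < 1`, in place of `δ`;
then choose `k`. `k = 0`: no arcs, `L = {(u, v)}`. Step: assume `ll u ≤ ll v` (otherwise exchange `u`, `v`: `cone`, `cone0` are symmetric).
The closed cone is the union of: the arcs `arc u v (S0 + l M) M`, `l < L`; the tail cone `cone u (v + (S0 + L M) u)`; the cones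
`cone (v + (j+1) u) (v + j u)`, `j < S0` (`V = α u + β v`; if `β = 0` or `α ≥ (S0 + L M) β` tail; if `S0 β ≤ α` an arc; otherwise `j = ⌊α/β⌋`).
All are frames. Apply the induction hypothesis to the `S0` small cones, their arcs lie in the open cones `{j β < α < (j + 1) β}`, disjoint from each
other and from the arcs of this step. With `Λ(u, v) = 1 / (ll u * ll v)`: `∑_j Λ(v + (j+1) u, v + j u) = Λ(u, v) - Λ(u, v + S0 u) ≤ (S0/(S0+1)) Λ(u, v)`
(telescoping: `1/((y + j a)(y + (j+1) a)) = (1/a)(1/(y + j a) - 1/(y + (j+1) a))`, and `a = ll u ≤ y = ll v`), and the tail has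
`Λ ≤ 1 / (a (S0 + L M) a)`, which is `≤ ρ^k Λ(u, v) / (2 S0 + 2)` for `L` large. -/
theorem cover (M S0 : ℕ) (hM : 0 < M) (hS0 : 2 ≤ S0) (δ : ℝ) (hδ : 0 < δ) (u v : G) (huv : Fr u v) :
    ∃ (A : Finset (G × G × ℕ)) (L : Finset (G × G)),
      (∀ a ∈ A, Fr a.1 a.2.1 ∧ S0 ≤ a.2.2 ∧ arc a.1 a.2.1 a.2.2 M ⊆ cone0 u v) ∧
      (∀ a ∈ A, ∀ a' ∈ A, a ≠ a' → Disjoint (arc a.1 a.2.1 a.2.2 M) (arc a'.1 a'.2.1 a'.2.2 M)) ∧
      (∀ l ∈ L, Fr l.1 l.2) ∧
      (∀ V ∈ cone u v, (∃ a ∈ A, V ∈ arc a.1 a.2.1 a.2.2 M) ∨ ∃ l ∈ L, V ∈ cone l.1 l.2) ∧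
      ∑ l ∈ L, 1 / ((ll l.1 : ℝ) * ll l.2) ≤ δ := by
  have ha : (0 : ℝ) < ll u := by exact_mod_cast ll_pos huv
  have hy : (0 : ℝ) < ll v := by exact_mod_cast ll_pos huv.swap
  have hρ1 : (2 * (S0 : ℝ) + 1) / (2 * S0 + 2) < 1 := by
    rw [div_lt_one (by positivity)]
    linarith
  have hρ0 : 0 < (2 * (S0 : ℝ) + 1) / (2 * S0 + 2) := by positivity
  obtain ⟨k, hk⟩ := exists_pow_lt_of_lt_one (show 0 < δ * ((ll u : ℝ) * ll v) by positivity) hρ1
  have h := (cov_pow M S0 hM hS0 k u v huv).mono (δ' := δ) (by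
    rw [mul_one_div, div_le_iff₀ (by positivity)]
    exact hk.le)
  exact h

end Pool.Agent.OmAll

end

/-! ### from `Lib_MP_f1a94e_aq.LocalP` -/

section

/-!
# Piece LOCALP: local density at a prime
-/

set_option autoImplicit false

namespace Pool.Agent.OmAll

open Finset Pool.Agent.GaussMR

section LPaux

open Classical in
private lemma lp_card (M : ℕ) [NeZero M] (Q : (ZMod M × ZMod M) × (ZMod M × ZMod M) → Prop) :
    ((cls M).filter (fun e => Q (((e.1.re : ZMod M), (e.1.im : ZMod M)), ((e.2.re : ZMod M), (e.2.im : ZMod M))))).card =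
      (univ.filter (fun v : (ZMod M × ZMod M) × (ZMod M × ZMod M) =>
        v.1.1 * v.2.2 - v.1.2 * v.2.1 = 1 ∧ Q v)).card := by
  have hM : 0 < M := Nat.pos_of_ne_zero (NeZero.ne M)
  have hb : ∀ a : ZMod M, (0 : ℤ) ≤ (a.val : ℤ) ∧ (a.val : ℤ) < (M : ℤ) := fun a =>
    ⟨by positivity, by exact_mod_cast a.val_lt⟩
  have hc : ∀ a : ZMod M, (((a.val : ℤ)) : ZMod M) = a := fun a => by
    rw [Int.cast_natCast, ZMod.natCast_zmod_val]
  have hv : ∀ x : ℤ, 0 ≤ x → x < M → (((x : ZMod M).val : ℕ) : ℤ) = x := fun x h0 h1 => by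
    rw [ZMod.val_intCast, Int.emod_eq_of_lt h0 h1]
  refine Finset.card_nbij' (fun e => (((e.1.re : ZMod M), (e.1.im : ZMod M)), ((e.2.re : ZMod M), (e.2.im : ZMod M))))
    (fun v => ((⟨(v.1.1.val : ℤ), (v.1.2.val : ℤ)⟩ : G), (⟨(v.2.1.val : ℤ), (v.2.2.val : ℤ)⟩ : G))) ?_ ?_ ?_ ?_
  · intro e he
    simp only [coe_filter, Set.mem_ofPred_eq, mem_univ, true_and] at he ⊢
    refine ⟨?_, he.2⟩
    have h := (mem_cls.1 he.1).2.2.2.2
    have h2 := (ZMod.intCast_zmod_eq_zero_iff_dvd _ M).2 h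
    unfold det at h2
    push_cast at h2
    linear_combination h2
  · intro v hv'
    simp only [coe_filter, Set.mem_ofPred_eq, mem_univ, true_and] at hv' ⊢
    refine ⟨?_, ?_⟩
    · rw [mem_cls]
      refine ⟨hb _, hb _, hb _, hb _, ?_⟩
      rw [← ZMod.intCast_zmod_eq_zero_iff_dvd]
      unfold det
      push_cast
      simp only [ZMod.natCast_zmod_val]
      linear_combination hv'.1
    · simp only [hc]
      exact hv'.2
  · intro e he
    simp only [coe_filter, Set.mem_ofPred_eq] at he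
    obtain ⟨h1, h2, h3, h4, -⟩ := mem_cls.1 he.1
    refine Prod.ext (Zsqrtd.ext ?_ ?_) (Zsqrtd.ext ?_ ?_)
    · exact hv _ h1.1 h1.2
    · exact hv _ h2.1 h2.2
    · exact hv _ h3.1 h3.2
    · exact hv _ h4.1 h4.2
  · intro v _
    simp only [hc]


private lemma lp_nu {p : ℕ} (hp : p.Prime) (a : ZMod (p ^ 2)) : ¬ IsUnit a ↔ (p : ZMod (p ^ 2)) * a = 0 := by
  have : NeZero (p ^ 2) := ⟨pow_ne_zero 2 hp.ne_zero⟩
  have h : ∀ n : ℕ, p ∣ n ↔ p ^ 2 ∣ p * n := fun n => by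
    rw [pow_two]
    exact (Nat.mul_dvd_mul_iff_left hp.pos).symm
  rw [← ZMod.natCast_zmod_val a, ZMod.isUnit_natCast_iff_not_dvd_pow hp (by norm_num : 0 < 2), not_not,
    ← Nat.cast_mul, ZMod.natCast_eq_zero_iff]
  exact h _

private lemma lp_nu' {p : ℕ} (hp : p.Prime) {a : ZMod (p ^ 2)} (ha : ¬ IsUnit a) :
    ∃ b : ZMod (p ^ 2), a = ((p : ℕ) : ZMod (p ^ 2)) * b := by
  have : NeZero (p ^ 2) := ⟨pow_ne_zero 2 hp.ne_zero⟩
  rw [← ZMod.natCast_zmod_val a, ZMod.isUnit_natCast_iff_not_dvd_pow hp (by norm_num : 0 < 2), not_not] at ha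
  obtain ⟨k, hk⟩ := ha
  exact ⟨k, by rw [← ZMod.natCast_zmod_val a, hk]; push_cast; ring⟩

private lemma lp_mul {p : ℕ} (hp : p.Prime) {a b : ZMod (p ^ 2)} (ha : ¬ IsUnit a) (hb : ¬ IsUnit b) :
    a * b = 0 := by
  obtain ⟨c, rfl⟩ := lp_nu' hp ha
  have h := (lp_nu hp b).1 hb
  linear_combination c * h

private lemma lp_pne {p : ℕ} (hp : p.Prime) : (p : ZMod (p ^ 2)) ≠ 0 := by
  intro h
  rw [ZMod.natCast_eq_zero_iff] at h
  have h1 := Nat.le_of_dvd hp.pos h
  have h2 := hp.two_le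
  nlinarith

open Classical in
private lemma lp_cardU {p : ℕ} (hp : p.Prime) [NeZero (p ^ 2)] :
    (univ.filter (fun a : ZMod (p ^ 2) => IsUnit a)).card = p * (p - 1) := by
  have h : univ.filter (fun a : ZMod (p ^ 2) => IsUnit a) =
      (univ : Finset (ZMod (p ^ 2))ˣ).image Units.val := by
    ext a
    simp only [mem_filter, mem_univ, true_and, mem_image]
    rfl
  rw [h, card_image_of_injective _ Units.val_injective, card_univ, ZMod.card_units_eq_totient,
    Nat.totient_prime_pow_succ hp 1]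
  ring

open Classical in
private lemma lp_cardNU {p : ℕ} (hp : p.Prime) [NeZero (p ^ 2)] :
    (univ.filter (fun a : ZMod (p ^ 2) => ¬ IsUnit a)).card = p := by
  have h := Finset.card_filter_add_card_filter_not (s := (univ : Finset (ZMod (p ^ 2))))
    (fun a : ZMod (p ^ 2) => IsUnit a)
  rw [lp_cardU hp, card_univ, ZMod.card] at h
  obtain ⟨q, rfl⟩ : ∃ q, p = q + 1 := ⟨p - 1, by have := hp.pos; omega⟩
  simp only [Nat.add_sub_cancel] at h
  nlinarith

open Classical in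
private lemma lp_cardN0 {p : ℕ} (hp : p.Prime) [NeZero (p ^ 2)] :
    (univ.filter (fun a : ZMod (p ^ 2) => ¬ IsUnit a ∧ a ≠ 0)).card = p - 1 := by
  have h : univ.filter (fun a : ZMod (p ^ 2) => ¬ IsUnit a ∧ a ≠ 0) =
      (univ.filter (fun a : ZMod (p ^ 2) => ¬ IsUnit a)).erase 0 := by
    ext a
    simp only [mem_filter, mem_univ, true_and, mem_erase]
    tauto
  rw [h, card_erase_of_mem, lp_cardNU hp]
  simp only [mem_filter, mem_univ, true_and]
  rw [lp_nu hp]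
  simp

open Classical in
private lemma lp_total {p : ℕ} (hp : p.Prime) [NeZero (p ^ 2)] :
    (univ.filter (fun v : (ZMod (p ^ 2) × ZMod (p ^ 2)) × (ZMod (p ^ 2) × ZMod (p ^ 2)) =>
        v.1.1 * v.2.2 - v.1.2 * v.2.1 = 1)).card = p ^ 4 * (p ^ 2 - 1) := by
  rw [← Finset.card_filter_add_card_filter_not (fun v : (ZMod (p ^ 2) × ZMod (p ^ 2)) × (ZMod (p ^ 2) × ZMod (p ^ 2)) =>
    IsUnit v.1.1)]
  have h1 : (((univ.filter (fun v : (ZMod (p ^ 2) × ZMod (p ^ 2)) × (ZMod (p ^ 2) × ZMod (p ^ 2)) =>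
        v.1.1 * v.2.2 - v.1.2 * v.2.1 = 1))).filter (fun v => IsUnit v.1.1)).card =
      ((univ.filter (fun a : ZMod (p ^ 2) => IsUnit a)) ×ˢ
        ((univ : Finset (ZMod (p ^ 2))) ×ˢ (univ : Finset (ZMod (p ^ 2))))).card := by
    refine Finset.card_nbij' (fun v => (v.1.1, (v.1.2, v.2.1)))
      (fun u => ((u.1, u.2.1), (u.2.2, u.1⁻¹ * (1 + u.2.1 * u.2.2)))) ?_ ?_ ?_ ?_
    · intro v hv
      simp only [coe_filter, Set.mem_ofPred_eq, mem_univ, true_and, mem_filter, coe_product, Set.mem_prod,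
        coe_univ, Set.mem_univ, and_true] at hv ⊢
      exact hv.2
    · intro u hu
      simp only [coe_filter, Set.mem_ofPred_eq, mem_univ, true_and, mem_filter, coe_product, Set.mem_prod,
        coe_univ, Set.mem_univ, and_true] at hu ⊢
      refine ⟨?_, hu⟩
      have h := ZMod.mul_inv_of_unit _ hu
      linear_combination (1 + u.2.1 * u.2.2) * h
    · intro v hv
      simp only [coe_filter, Set.mem_ofPred_eq, mem_univ, true_and, mem_filter] at hv
      have h := ZMod.inv_mul_of_unit _ hv.2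
      have h2 : v.1.1⁻¹ * (1 + v.1.2 * v.2.1) = v.2.2 := by
        linear_combination v.2.2 * h - v.1.1⁻¹ * hv.1
      simp only [h2]
    · intro u _
      rfl
  have h2 : (((univ.filter (fun v : (ZMod (p ^ 2) × ZMod (p ^ 2)) × (ZMod (p ^ 2) × ZMod (p ^ 2)) =>
        v.1.1 * v.2.2 - v.1.2 * v.2.1 = 1))).filter (fun v => ¬ IsUnit v.1.1)).card =
      ((univ.filter (fun a : ZMod (p ^ 2) => ¬ IsUnit a)) ×ˢ
        ((univ.filter (fun a : ZMod (p ^ 2) => IsUnit a)) ×ˢ (univ : Finset (ZMod (p ^ 2))))).card := by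
    refine Finset.card_nbij' (fun v => (v.1.1, (v.1.2, v.2.2)))
      (fun u => ((u.1, u.2.1), (u.2.1⁻¹ * (u.1 * u.2.2 - 1), u.2.2))) ?_ ?_ ?_ ?_
    · intro v hv
      simp only [coe_filter, Set.mem_ofPred_eq, mem_univ, true_and, mem_filter, coe_product, Set.mem_prod,
        coe_univ, Set.mem_univ, and_true] at hv ⊢
      refine ⟨hv.2, ?_⟩
      by_contra hy
      have e1 := (lp_nu hp _).1 hv.2
      have e2 := (lp_nu hp _).1 hy
      apply lp_pne hp
      linear_combination v.2.2 * e1 - v.2.1 * e2 - (p : ZMod (p ^ 2)) * hv.1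
    · intro u hu
      simp only [coe_filter, Set.mem_ofPred_eq, mem_univ, true_and, mem_filter, coe_product, Set.mem_prod,
        coe_univ, Set.mem_univ, and_true] at hu ⊢
      refine ⟨?_, hu.1⟩
      have h := ZMod.mul_inv_of_unit _ hu.2
      linear_combination (-(u.1 * u.2.2 - 1)) * h
    · intro v hv
      simp only [coe_filter, Set.mem_ofPred_eq, mem_univ, true_and, mem_filter] at hv
      have hy : IsUnit v.1.2 := by
        by_contra hy
        have e1 := (lp_nu hp _).1 hv.2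
        have e2 := (lp_nu hp _).1 hy
        apply lp_pne hp
        linear_combination v.2.2 * e1 - v.2.1 * e2 - (p : ZMod (p ^ 2)) * hv.1
      have h := ZMod.inv_mul_of_unit _ hy
      have h2 : v.1.2⁻¹ * (v.1.1 * v.2.2 - 1) = v.2.1 := by
        linear_combination v.2.1 * h + v.1.2⁻¹ * hv.1
      simp only [h2]
    · intro u _
      rfl
  rw [h1, h2, card_product, card_product, card_product, card_product, lp_cardU hp, lp_cardNU hp, card_univ, ZMod.card]
  obtain ⟨q, rfl⟩ : ∃ q, p = q + 1 := ⟨p - 1, by have := hp.pos; omega⟩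
  have h3 : (q + 1) ^ 2 - 1 = q * (q + 2) := by
    have : (q + 1) ^ 2 = q * (q + 2) + 1 := by ring
    omega
  rw [h3]
  simp only [Nat.add_sub_cancel]
  ring


/-- a square root of `-1` modulo `p ^ 2` -/
private lemma lp_iota {p : ℕ} (hp : p.Prime) (h4 : p % 4 = 1) :
    ∃ ι : ZMod (p ^ 2), ι ^ 2 = -1 := by
  have : Fact p.Prime := ⟨hp⟩
  obtain ⟨y, hy⟩ := (ZMod.exists_sq_eq_neg_one_iff (p := p)).2 (by omega)
  have h1 : ((p : ℕ) : ℤ) ∣ ((y.val : ℤ) ^ 2) - (-1) := by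
    rw [← ZMod.intCast_zmod_eq_zero_iff_dvd]
    push_cast
    rw [ZMod.natCast_zmod_val]
    linear_combination (-1 : ZMod p) * hy
  have h2 := dvd_sub_pow_of_dvd_sub h1 1
  refine ⟨((((y.val : ℤ)) ^ p : ℤ) : ZMod (p ^ 2)), ?_⟩
  have hodd : Odd p := hp.odd_of_ne_two (by rintro rfl; omega)
  rw [pow_one, hodd.neg_one_pow] at h2
  have h3 : (((p ^ 2 : ℕ)) : ℤ) ∣ ((y.val : ℤ) ^ 2) ^ p - -1 := by
    push_cast
    exact h2
  rw [← ZMod.intCast_zmod_eq_zero_iff_dvd] at h3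
  push_cast at h3 ⊢
  rw [← pow_mul, mul_comm p 2, pow_mul]
  linear_combination h3

open Classical in
private lemma lp_rs {p : ℕ} (hp : p.Prime) [NeZero (p ^ 2)] (c : ZMod (p ^ 2)) (hc : IsUnit c) :
    (univ.filter (fun u : (ZMod (p ^ 2) × ZMod (p ^ 2)) × (ZMod (p ^ 2) × ZMod (p ^ 2)) =>
        u.1.1 * u.2.2 - u.1.2 * u.2.1 = c ∧ ¬ IsUnit (u.1.1 * u.1.2) ∧
          (u.1.1 * u.1.2) * (u.2.1 * u.2.2) ≠ 0)).card = 2 * p ^ 2 * (p - 1) ^ 3 := by
  rw [← Finset.card_filter_add_card_filter_not (fun v : (ZMod (p ^ 2) × ZMod (p ^ 2)) × (ZMod (p ^ 2) × ZMod (p ^ 2)) =>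
    IsUnit v.1.2)]
  have hpc : (p : ZMod (p ^ 2)) * c ≠ 0 := fun h => (lp_nu hp c).2 h hc
  have h1 : (((univ.filter (fun u : (ZMod (p ^ 2) × ZMod (p ^ 2)) × (ZMod (p ^ 2) × ZMod (p ^ 2)) =>
        u.1.1 * u.2.2 - u.1.2 * u.2.1 = c ∧ ¬ IsUnit (u.1.1 * u.1.2) ∧
          (u.1.1 * u.1.2) * (u.2.1 * u.2.2) ≠ 0))).filter (fun v => IsUnit v.1.2)).card =
      ((univ.filter (fun a : ZMod (p ^ 2) => ¬ IsUnit a ∧ a ≠ 0)) ×ˢ
        ((univ.filter (fun a : ZMod (p ^ 2) => IsUnit a)) ×ˢ (univ.filter (fun a : ZMod (p ^ 2) => IsUnit a)))).card := by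
    refine Finset.card_nbij' (fun v => (v.1.1, (v.1.2, v.2.2)))
      (fun u => ((u.1, u.2.1), (u.2.1⁻¹ * (u.1 * u.2.2 - c), u.2.2))) ?_ ?_ ?_ ?_
    · intro v hv
      simp only [coe_filter, Set.mem_ofPred_eq, mem_univ, true_and, mem_filter, coe_product, Set.mem_prod] at hv ⊢
      obtain ⟨⟨h1, h2, h3⟩, h4⟩ := hv
      have h5 : ¬ IsUnit v.1.1 := fun h => h2 (h.mul h4)
      refine ⟨⟨h5, ?_⟩, h4, ?_⟩
      · intro h0
        apply h3
        rw [h0]
        ring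
      · by_contra h6
        apply h3
        have := lp_mul hp h5 h6
        linear_combination v.1.2 * v.2.1 * this
    · intro u hu
      simp only [coe_filter, Set.mem_ofPred_eq, mem_univ, true_and, mem_filter, coe_product, Set.mem_prod] at hu ⊢
      obtain ⟨⟨h1, h2⟩, h3, h4⟩ := hu
      have h := ZMod.mul_inv_of_unit _ h3
      have h' := ZMod.inv_mul_of_unit _ h3
      have hρ : IsUnit (u.2.1⁻¹ * (u.1 * u.2.2 - c)) := by
        by_contra h6
        have h7 := (lp_nu hp _).1 h6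
        have h8 := (lp_nu hp _).1 h1
        apply hpc
        linear_combination u.2.2 * h8 - u.2.1 * h7 + p * (u.1 * u.2.2 - c) * h
      refine ⟨⟨?_, ?_, ?_⟩, h3⟩
      · linear_combination (-(u.1 * u.2.2 - c)) * h
      · intro h6
        exact h1 (isUnit_of_mul_isUnit_left h6)
      · intro h6
        have h7 : IsUnit (u.2.1 * (u.2.1⁻¹ * (u.1 * u.2.2 - c) * u.2.2)) := h3.mul (hρ.mul h4)
        apply h2
        rw [← h7.mul_left_inj, zero_mul, ← h6]
        ring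
    · intro v hv
      simp only [coe_filter, Set.mem_ofPred_eq, mem_univ, true_and, mem_filter] at hv
      have h := ZMod.inv_mul_of_unit _ hv.2
      have h2 : v.1.2⁻¹ * (v.1.1 * v.2.2 - c) = v.2.1 := by
        linear_combination v.2.1 * h + v.1.2⁻¹ * hv.1.1
      simp only [h2]
    · intro u _
      rfl
  have h2 : (((univ.filter (fun u : (ZMod (p ^ 2) × ZMod (p ^ 2)) × (ZMod (p ^ 2) × ZMod (p ^ 2)) =>
        u.1.1 * u.2.2 - u.1.2 * u.2.1 = c ∧ ¬ IsUnit (u.1.1 * u.1.2) ∧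
          (u.1.1 * u.1.2) * (u.2.1 * u.2.2) ≠ 0))).filter (fun v => ¬ IsUnit v.1.2)).card =
      ((univ.filter (fun a : ZMod (p ^ 2) => ¬ IsUnit a ∧ a ≠ 0)) ×ˢ
        ((univ.filter (fun a : ZMod (p ^ 2) => IsUnit a)) ×ˢ (univ.filter (fun a : ZMod (p ^ 2) => IsUnit a)))).card := by
    refine Finset.card_nbij' (fun v => (v.1.2, (v.1.1, v.2.1)))
      (fun u => ((u.2.1, u.1), (u.2.2, u.2.1⁻¹ * (u.1 * u.2.2 + c)))) ?_ ?_ ?_ ?_
    · intro v hv
      simp only [coe_filter, Set.mem_ofPred_eq, mem_univ, true_and, mem_filter, coe_product, Set.mem_prod] at hv ⊢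
      obtain ⟨⟨h1, h2, h3⟩, h4⟩ := hv
      refine ⟨⟨h4, ?_⟩, ?_, ?_⟩
      · intro h0
        apply h3
        rw [h0]
        ring
      · by_contra h6
        apply h3
        have := lp_mul hp h4 h6
        linear_combination v.2.1 * v.2.2 * this
      · by_contra h6
        apply h3
        have := lp_mul hp h4 h6
        linear_combination v.1.1 * v.2.2 * this
    · intro u hu
      simp only [coe_filter, Set.mem_ofPred_eq, mem_univ, true_and, mem_filter, coe_product, Set.mem_prod] at hu ⊢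
      obtain ⟨⟨h1, h2⟩, h3, h4⟩ := hu
      have h := ZMod.mul_inv_of_unit _ h3
      have h' := ZMod.inv_mul_of_unit _ h3
      have hρ : IsUnit (u.2.1⁻¹ * (u.1 * u.2.2 + c)) := by
        by_contra h6
        have h7 := (lp_nu hp _).1 h6
        have h8 := (lp_nu hp _).1 h1
        apply hpc
        linear_combination (-u.2.2) * h8 + u.2.1 * h7 - p * (u.1 * u.2.2 + c) * h
      refine ⟨⟨?_, ?_, ?_⟩, h1⟩
      · linear_combination (u.1 * u.2.2 + c) * h
      · intro h6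
        exact h1 (isUnit_of_mul_isUnit_right h6)
      · intro h6
        have h7 : IsUnit (u.2.1 * (u.2.1⁻¹ * (u.1 * u.2.2 + c) * u.2.2)) := h3.mul (hρ.mul h4)
        apply h2
        rw [← h7.mul_left_inj, zero_mul, ← h6]
        ring
    · intro v hv
      simp only [coe_filter, Set.mem_ofPred_eq, mem_univ, true_and, mem_filter] at hv
      obtain ⟨⟨h1, h2, h3⟩, h4⟩ := hv
      have h5 : IsUnit v.1.1 := by
        by_contra h6
        apply h3
        have := lp_mul hp h4 h6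
        linear_combination v.2.1 * v.2.2 * this
      have h := ZMod.inv_mul_of_unit _ h5
      have h2 : v.1.1⁻¹ * (v.1.2 * v.2.1 + c) = v.2.2 := by
        linear_combination v.2.2 * h - v.1.1⁻¹ * h1
      simp only [h2]
    · intro u _
      rfl
  rw [h1, h2, card_product, card_product, lp_cardU hp, lp_cardN0 hp]
  ring

open Classical in
private lemma lp_xy {p : ℕ} (hp : p.Prime) (h4 : p % 4 = 1) [NeZero (p ^ 2)] :
    (univ.filter (fun v : (ZMod (p ^ 2) × ZMod (p ^ 2)) × (ZMod (p ^ 2) × ZMod (p ^ 2)) =>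
        v.1.1 * v.2.2 - v.1.2 * v.2.1 = 1 ∧ (¬ IsUnit (v.1.1 ^ 2 + v.1.2 ^ 2) ∧
          (v.1.1 ^ 2 + v.1.2 ^ 2) * (v.2.1 ^ 2 + v.2.2 ^ 2) ≠ 0))).card = 2 * p ^ 2 * (p - 1) ^ 3 := by
  obtain ⟨ι, hι⟩ := lp_iota hp h4
  have h2u : IsUnit (2 : ZMod (p ^ 2)) := by
    have h := (ZMod.isUnit_natCast_iff_not_dvd_pow (a := 2) hp (by norm_num : 0 < 2)).2
      (fun h => by
        have h5 := Nat.le_of_dvd (by norm_num) h
        have h6 := hp.two_le
        omega)
    exact_mod_cast h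
  have hιu : IsUnit ι := IsUnit.of_mul_eq_one (-ι) (by linear_combination (-1 : ZMod (p ^ 2)) * hι)
  obtain ⟨h, hh⟩ : ∃ h : ZMod (p ^ 2), 2 * h = 1 := h2u.exists_right_inv
  rw [← lp_rs hp (-(2 * ι)) (h2u.mul hιu).neg]
  refine Finset.card_nbij' (fun v => ((v.1.1 + ι * v.1.2, v.1.1 - ι * v.1.2), (v.2.1 + ι * v.2.2, v.2.1 - ι * v.2.2)))
    (fun u => ((h * (u.1.1 + u.1.2), -ι * h * (u.1.1 - u.1.2)), (h * (u.2.1 + u.2.2), -ι * h * (u.2.1 - u.2.2)))) ?_ ?_ ?_ ?_
  · intro v hv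
    simp only [coe_filter, Set.mem_ofPred_eq, mem_univ, true_and] at hv ⊢
    have e1 : (v.1.1 + ι * v.1.2) * (v.1.1 - ι * v.1.2) = v.1.1 ^ 2 + v.1.2 ^ 2 := by
      linear_combination (-v.1.2 ^ 2) * hι
    have e2 : (v.2.1 + ι * v.2.2) * (v.2.1 - ι * v.2.2) = v.2.1 ^ 2 + v.2.2 ^ 2 := by
      linear_combination (-v.2.2 ^ 2) * hι
    rw [e1, e2]
    refine ⟨?_, hv.2⟩
    linear_combination (-(2 * ι)) * hv.1
  · intro u hu
    simp only [coe_filter, Set.mem_ofPred_eq, mem_univ, true_and] at hu ⊢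
    have e1 : (h * (u.1.1 + u.1.2)) ^ 2 + (-ι * h * (u.1.1 - u.1.2)) ^ 2 = u.1.1 * u.1.2 := by
      linear_combination (h ^ 2 * (u.1.1 - u.1.2) ^ 2) * hι + (u.1.1 * u.1.2 * (2 * h + 1)) * hh
    have e2 : (h * (u.2.1 + u.2.2)) ^ 2 + (-ι * h * (u.2.1 - u.2.2)) ^ 2 = u.2.1 * u.2.2 := by
      linear_combination (h ^ 2 * (u.2.1 - u.2.2) ^ 2) * hι + (u.2.1 * u.2.2 * (2 * h + 1)) * hh
    rw [e1, e2]
    refine ⟨?_, hu.2⟩
    linear_combination (2 * ι * h ^ 2) * hu.1 - (4 * h ^ 2) * hι + (2 * h + 1) * hh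
  · intro v _
    refine Prod.ext (Prod.ext ?_ ?_) (Prod.ext ?_ ?_)
    · show h * ((v.1.1 + ι * v.1.2) + (v.1.1 - ι * v.1.2)) = v.1.1
      linear_combination v.1.1 * hh
    · show -ι * h * ((v.1.1 + ι * v.1.2) - (v.1.1 - ι * v.1.2)) = v.1.2
      linear_combination (-(2 * h * v.1.2)) * hι + v.1.2 * hh
    · show h * ((v.2.1 + ι * v.2.2) + (v.2.1 - ι * v.2.2)) = v.2.1
      linear_combination v.2.1 * hh
    · show -ι * h * ((v.2.1 + ι * v.2.2) - (v.2.1 - ι * v.2.2)) = v.2.2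
      linear_combination (-(2 * h * v.2.2)) * hι + v.2.2 * hh
  · intro u _
    refine Prod.ext (Prod.ext ?_ ?_) (Prod.ext ?_ ?_)
    · show h * (u.1.1 + u.1.2) + ι * (-ι * h * (u.1.1 - u.1.2)) = u.1.1
      linear_combination (-(h * (u.1.1 - u.1.2))) * hι + u.1.1 * hh
    · show h * (u.1.1 + u.1.2) - ι * (-ι * h * (u.1.1 - u.1.2)) = u.1.2
      linear_combination (h * (u.1.1 - u.1.2)) * hι + u.1.2 * hh
    · show h * (u.2.1 + u.2.2) + ι * (-ι * h * (u.2.1 - u.2.2)) = u.2.1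
      linear_combination (-(h * (u.2.1 - u.2.2))) * hι + u.2.1 * hh
    · show h * (u.2.1 + u.2.2) - ι * (-ι * h * (u.2.1 - u.2.2)) = u.2.2
      linear_combination (h * (u.2.1 - u.2.2)) * hι + u.2.2 * hh

open Classical in
private lemma lp_xy' {p : ℕ} (hp : p.Prime) (h4 : p % 4 = 1) [NeZero (p ^ 2)] :
    (univ.filter (fun v : (ZMod (p ^ 2) × ZMod (p ^ 2)) × (ZMod (p ^ 2) × ZMod (p ^ 2)) =>
        v.1.1 * v.2.2 - v.1.2 * v.2.1 = 1 ∧ (¬ IsUnit (v.2.1 ^ 2 + v.2.2 ^ 2) ∧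
          (v.1.1 ^ 2 + v.1.2 ^ 2) * (v.2.1 ^ 2 + v.2.2 ^ 2) ≠ 0))).card = 2 * p ^ 2 * (p - 1) ^ 3 := by
  rw [← lp_xy hp h4]
  refine Finset.card_nbij' (fun v => (v.2, (-v.1.1, -v.1.2))) (fun v => ((-v.2.1, -v.2.2), v.1)) ?_ ?_ ?_ ?_
  · intro v hv
    simp only [coe_filter, Set.mem_ofPred_eq, mem_univ, true_and] at hv ⊢
    obtain ⟨h1, h2, h3⟩ := hv
    refine ⟨by linear_combination h1, h2, ?_⟩
    intro h
    apply h3
    linear_combination h
  · intro v hv
    simp only [coe_filter, Set.mem_ofPred_eq, mem_univ, true_and] at hv ⊢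
    obtain ⟨h1, h2, h3⟩ := hv
    refine ⟨by linear_combination h1, h2, ?_⟩
    intro h
    apply h3
    linear_combination h
  · intro v _
    simp
  · intro v _
    simp

private lemma lp_cast {p : ℕ} (z : G) : ((nm z : ℕ) : ZMod (p ^ 2)) = (z.re : ZMod (p ^ 2)) ^ 2 + (z.im : ZMod (p ^ 2)) ^ 2 := by
  have h := nm_eq z
  have h2 : (((nm z : ℕ) : ℤ) : ZMod (p ^ 2)) = ((z.re ^ 2 + z.im ^ 2 : ℤ) : ZMod (p ^ 2)) := by rw [h]
  push_cast at h2
  exact h2

end LPaux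

open Classical in
/-- For `V` primitive modulo `p` the `V'` modulo `p^2` with `det V V' = 1` form a coset `V'_0 + k V`, `k` mod `p^2`, so `#cls (p^2) = p^2 (p^4 - p^2)`. Let
`ι^2 = -1` mod `p^2` (`p = 1 mod 4`). The number of primitive `V = (x, y)` mod `p^2` with `p ∣ x^2 + y^2`, `p^2 ∤ x^2 + y^2`: `x` a unit
(`p (p - 1)` choices), `y = ± ι x + p w`, `w` mod `p`, `w ≠ 0` (`x^2 + y^2 = ± 2 ι x p w` mod `p^2`): `2 (p - 1)` choices; total `2 p (p - 1)^2`. For such `V`,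
`nm (V'_0 + k V) = nm V'_0 + 2 k dot V'_0 V` mod `p`, and `dot V'_0 V ^ 2 = -1` mod `p` (`dot^2 + det^2 = nm nm`), so `p ∤ nm V'` for `p^2 - p` of the `k`. Together
`2 p^3 (p - 1)^3`... i.e. `2 p (p-1)^2 * p (p - 1) = 2 p^2 (p - 1)^3`. The second statement follows from the first by the bijection
`(V, V') ↦ (V', - V)` modulo `p^2`. (An alternative: coordinates `r = x + ι y`, `s = x - ι y`, in which `nm = r s`.) -/
theorem cls_p2 (p : ℕ) (hp : p.Prime) (h4 : p % 4 = 1) : (cls (p ^ 2)).card = p ^ 4 * (p ^ 2 - 1) ∧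
    ((cls (p ^ 2)).filter (fun e => p ∣ nm e.1 ∧ ¬ p ^ 2 ∣ nm e.1 * nm e.2)).card = 2 * p ^ 2 * (p - 1) ^ 3 ∧
    ((cls (p ^ 2)).filter (fun e => p ∣ nm e.2 ∧ ¬ p ^ 2 ∣ nm e.1 * nm e.2)).card = 2 * p ^ 2 * (p - 1) ^ 3 := by
  have : NeZero (p ^ 2) := ⟨pow_ne_zero 2 hp.ne_zero⟩
  have hd : ∀ z : G, p ∣ nm z ↔ ¬ IsUnit ((z.re : ZMod (p ^ 2)) ^ 2 + (z.im : ZMod (p ^ 2)) ^ 2) := fun z => by
    rw [← lp_cast, ZMod.isUnit_natCast_iff_not_dvd_pow hp (by norm_num : 0 < 2), not_not]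
  have hd2 : ∀ z w : G, p ^ 2 ∣ nm z * nm w ↔ ((z.re : ZMod (p ^ 2)) ^ 2 + (z.im : ZMod (p ^ 2)) ^ 2) *
      ((w.re : ZMod (p ^ 2)) ^ 2 + (w.im : ZMod (p ^ 2)) ^ 2) = 0 := fun z w => by
    rw [← lp_cast, ← lp_cast, ← Nat.cast_mul, ZMod.natCast_eq_zero_iff]
  refine ⟨?_, ?_, ?_⟩
  · have h := lp_card (p ^ 2) (fun _ => True)
    simp only [and_true, filter_true] at h
    rw [h, lp_total hp]
  · have h := (lp_card (p ^ 2) (fun v => ¬ IsUnit (v.1.1 ^ 2 + v.1.2 ^ 2) ∧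
      (v.1.1 ^ 2 + v.1.2 ^ 2) * (v.2.1 ^ 2 + v.2.2 ^ 2) ≠ 0)).trans (Eq.trans (by congr) (lp_xy hp h4))
    rw [← h]
    refine congrArg Finset.card ?_
    ext e
    simp only [mem_filter, hd, hd2, ne_eq]
  · have h := (lp_card (p ^ 2) (fun v => ¬ IsUnit (v.2.1 ^ 2 + v.2.2 ^ 2) ∧
      (v.1.1 ^ 2 + v.1.2 ^ 2) * (v.2.1 ^ 2 + v.2.2 ^ 2) ≠ 0)).trans (Eq.trans (by congr) (lp_xy' hp h4))
    rw [← h]
    refine congrArg Finset.card ?_
    ext e
    simp only [mem_filter, hd, hd2, ne_eq]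

end Pool.Agent.OmAll

end

/-! ### from `Lib_MP_f1a94e_mr.MertensB` -/

section

/-!
# Piece MERTENSB: Mertens' second theorem for primes `1 mod 4`
-/

set_option autoImplicit false

namespace Pool.Agent.GaussMR

open MeasureTheory in
/-- partial summation from `mertens_log` -/
theorem mertens : ∃ C : ℝ, ∀ x : ℝ, 2 ≤ x →
    |∑ p ∈ (Finset.Icc 1 ⌊x⌋₊).filter (fun p => p.Prime ∧ p % 4 = 1), (1 : ℝ) / p -
      Real.log (Real.log x) / 2| ≤ C := by
  classical
  obtain ⟨C, hC⟩ := mertens_log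
  have hC0 : 0 ≤ C := (abs_nonneg _).trans (hC 2 le_rfl)
  have hl2 : 0 < Real.log 2 := Real.log_pos one_lt_two
  let c : ℕ → ℝ := fun n => if n.Prime ∧ n % 4 = 1 then Real.log n / n else 0
  have hc0 : c 0 = 0 := by simp [c]
  have hc1 : c 1 = 0 := by simp [c, Nat.not_prime_one]
  have hA : ∀ t : ℝ, ∑ k ∈ Finset.Icc 0 ⌊t⌋₊, c k =
      ∑ p ∈ (Finset.Icc 1 ⌊t⌋₊).filter (fun p => p.Prime ∧ p % 4 = 1), Real.log p / p := by
    intro t
    rw [Finset.sum_filter]
    symm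
    refine Finset.sum_subset ?_ ?_
    · intro k hk
      rw [Finset.mem_Icc] at hk ⊢
      exact ⟨Nat.zero_le _, hk.2⟩
    · intro k hk hk'
      have h0 : k = 0 := by
        rw [Finset.mem_Icc] at hk hk'
        omega
      subst h0
      simp
  let f : ℝ → ℝ := fun t => (Real.log t)⁻¹
  have hlogpos : ∀ t : ℝ, 2 ≤ t → 0 < Real.log t := fun t ht => Real.log_pos (by linarith)
  have hderiv : ∀ t : ℝ, 2 ≤ t → HasDerivAt f (-(t⁻¹) / (Real.log t) ^ 2) t := by
    intro t ht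
    exact (Real.hasDerivAt_log (by linarith : t ≠ 0)).inv (hlogpos t ht).ne'
  have hfd : ∀ t : ℝ, 2 ≤ t → deriv f t = -(t⁻¹) / (Real.log t) ^ 2 := fun t ht =>
    (hderiv t ht).deriv
  have hcont : ∀ b : ℝ, ContinuousOn (fun t : ℝ => -(t⁻¹) / (Real.log t) ^ 2) (Set.Icc 2 b) := by
    intro b
    refine ContinuousOn.div (ContinuousOn.neg (ContinuousOn.inv₀ continuousOn_id ?_)) ?_ ?_
    · intro t ht; have := ht.1; exact (by linarith : t ≠ 0)
    · refine ContinuousOn.pow (ContinuousOn.log continuousOn_id ?_) 2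
      intro t ht; have := ht.1; exact (by linarith : t ≠ 0)
    · intro t ht; exact pow_ne_zero 2 (hlogpos t ht.1).ne'
  have hint : ∀ b : ℝ, IntegrableOn (deriv f) (Set.Icc 2 b) := by
    intro b
    refine IntegrableOn.congr_fun ((hcont b).integrableOn_Icc) ?_ measurableSet_Icc
    intro t ht
    exact (hfd t ht.1).symm
  refine ⟨1 / 2 + C / Real.log 2 + C / Real.log 2 + |Real.log (Real.log 2)| / 2, ?_⟩
  intro x hx
  have hlx := hlogpos x hx
  have hAbel := sum_mul_eq_sub_integral_mul₁ c (f := f) hc0 hc1 x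
    (fun t ht => (hderiv t ht.1).differentiableAt) (hint x)
  -- the left hand side
  have hL : ∑ k ∈ Finset.Icc 0 ⌊x⌋₊, f k * c k =
      ∑ p ∈ (Finset.Icc 1 ⌊x⌋₊).filter (fun p => p.Prime ∧ p % 4 = 1), (1 : ℝ) / p := by
    rw [Finset.sum_filter]
    symm
    refine Finset.sum_subset_zero_on_sdiff (f := fun a : ℕ => if a.Prime ∧ a % 4 = 1 then
      (1 : ℝ) / a else 0) (g := fun k : ℕ => f k * c k) ?_ ?_ ?_
    · intro k hk
      rw [Finset.mem_Icc] at hk ⊢
      exact ⟨Nat.zero_le _, hk.2⟩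
    · intro k hk
      rw [Finset.mem_sdiff, Finset.mem_Icc, Finset.mem_Icc] at hk
      have h0 : k = 0 := by omega
      subst h0
      simp [c]
    · intro k hk
      rw [Finset.mem_Icc] at hk
      simp only [c, f]
      split_ifs with hp
      · have h2 : (2 : ℝ) ≤ k := by exact_mod_cast hp.1.two_le
        have h3 := (hlogpos k h2).ne'
        field_simp
      · simp
  -- the integral
  have hAint : IntegrableOn (fun t => deriv f t * ∑ k ∈ Finset.Icc 0 ⌊t⌋₊, c k) (Set.Ioc 2 x) :=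
    (integrableOn_mul_sum_Icc c (by norm_num : (0 : ℝ) ≤ 2) (hint x)).mono_set
      Set.Ioc_subset_Icc_self
  have hfint : IntegrableOn (deriv f) (Set.Ioc 2 x) := (hint x).mono_set Set.Ioc_subset_Icc_self
  have hgcont : ContinuousOn (fun t : ℝ => (t⁻¹) / Real.log t) (Set.Icc 2 x) := by
    refine ContinuousOn.div (ContinuousOn.inv₀ continuousOn_id ?_) ?_ ?_
    · intro t ht; have := ht.1; exact (by linarith : t ≠ 0)
    · refine ContinuousOn.log continuousOn_id ?_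
      intro t ht; have := ht.1; exact (by linarith : t ≠ 0)
    · intro t ht; exact (hlogpos t ht.1).ne'
  have hgint : IntegrableOn (fun t : ℝ => (t⁻¹) / Real.log t) (Set.Ioc 2 x) :=
    hgcont.integrableOn_Icc.mono_set Set.Ioc_subset_Icc_self
  have hgval : ∫ t in Set.Ioc 2 x, (t⁻¹) / Real.log t =
      Real.log (Real.log x) - Real.log (Real.log 2) := by
    rw [← intervalIntegral.integral_of_le hx]
    refine intervalIntegral.integral_eq_sub_of_hasDerivAt_of_le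
      (f := fun t => Real.log (Real.log t)) (f' := fun t : ℝ => (t⁻¹) / Real.log t) hx ?_ ?_ ?_
    · refine ContinuousOn.log (ContinuousOn.log continuousOn_id ?_) ?_
      · intro t ht; have := ht.1; exact (by linarith : t ≠ 0)
      · intro t ht; exact (hlogpos t ht.1).ne'
    · intro t ht
      exact (Real.hasDerivAt_log (by have := ht.1; linarith : t ≠ 0)).log
        (hlogpos t ht.1.le).ne'
    · rw [intervalIntegrable_iff_integrableOn_Icc_of_le hx]
      exact hgcont.integrableOn_Icc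
  have hfval : ∫ t in Set.Ioc 2 x, deriv f t = (Real.log x)⁻¹ - (Real.log 2)⁻¹ := by
    rw [← intervalIntegral.integral_of_le hx]
    refine intervalIntegral.integral_eq_sub_of_hasDerivAt_of_le
      (f := f) (f' := deriv f) hx ?_ ?_ ?_
    · intro t ht
      exact (hderiv t ht.1).continuousAt.continuousWithinAt
    · intro t ht
      have := hderiv t ht.1.le
      rw [hfd t ht.1.le]
      exact this
    · rw [intervalIntegrable_iff_integrableOn_Icc_of_le hx]
      exact hint x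
  -- pointwise bounds
  have hpt : ∀ t ∈ Set.Ioc (2 : ℝ) x,
      |deriv f t * ∑ k ∈ Finset.Icc 0 ⌊t⌋₊, c k - (-(1 / 2) * ((t⁻¹) / Real.log t))| ≤
        -(C * deriv f t) := by
    intro t ht
    have ht2 : 2 ≤ t := ht.1.le
    have hlt := hlogpos t ht2
    have htp : 0 < t := by linarith
    have h1 := hC t ht2
    rw [← hA t] at h1
    have h2 : deriv f t ≤ 0 := by
      rw [hfd t ht2]
      exact div_nonpos_of_nonpos_of_nonneg (by have := inv_pos.mpr htp; linarith) (by positivity)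
    have h3 : (-(1 / 2) * ((t⁻¹) / Real.log t)) = deriv f t * (Real.log t / 2) := by
      rw [hfd t ht2]
      field_simp
    rw [h3, ← mul_sub, abs_mul, abs_of_nonpos h2]
    calc -deriv f t * |∑ k ∈ Finset.Icc 0 ⌊t⌋₊, c k - Real.log t / 2|
        ≤ -deriv f t * C := mul_le_mul_of_nonneg_left h1 (by linarith)
      _ = -(C * deriv f t) := by ring
  have hI : |(∫ t in Set.Ioc 2 x, deriv f t * ∑ k ∈ Finset.Icc 0 ⌊t⌋₊, c k) -
      (-(1 / 2) * (Real.log (Real.log x) - Real.log (Real.log 2)))| ≤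
      C * ((Real.log 2)⁻¹ - (Real.log x)⁻¹) := by
    rw [← hgval, ← integral_const_mul, ← integral_sub hAint (hgint.const_mul _)]
    calc |∫ t in Set.Ioc 2 x, (deriv f t * ∑ k ∈ Finset.Icc 0 ⌊t⌋₊, c k -
          -(1 / 2) * ((t⁻¹) / Real.log t))|
        ≤ ∫ t in Set.Ioc 2 x, |deriv f t * ∑ k ∈ Finset.Icc 0 ⌊t⌋₊, c k -
          -(1 / 2) * ((t⁻¹) / Real.log t)| := abs_integral_le_integral_abs
      _ ≤ ∫ t in Set.Ioc 2 x, -(C * deriv f t) := by
          refine setIntegral_mono_on ?_ ?_ measurableSet_Ioc hpt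
          · exact (hAint.sub (hgint.const_mul _)).abs
          · exact (hfint.const_mul C).neg
      _ = C * ((Real.log 2)⁻¹ - (Real.log x)⁻¹) := by
          rw [integral_neg, integral_const_mul, hfval]; ring
  have hE := hC x hx
  rw [← hA x] at hE
  rw [← hL, hAbel]
  have hfx : f x = (Real.log x)⁻¹ := rfl
  have h4 : |f x * ∑ k ∈ Finset.Icc 0 ⌊x⌋₊, c k - 1 / 2| ≤ C / Real.log 2 := by
    have h5 : f x * ∑ k ∈ Finset.Icc 0 ⌊x⌋₊, c k - 1 / 2 =
        f x * (∑ k ∈ Finset.Icc 0 ⌊x⌋₊, c k - Real.log x / 2) := by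
      rw [hfx]; field_simp
    rw [h5, abs_mul, hfx, abs_of_pos (inv_pos.mpr hlx)]
    calc (Real.log x)⁻¹ * |∑ k ∈ Finset.Icc 0 ⌊x⌋₊, c k - Real.log x / 2|
        ≤ (Real.log 2)⁻¹ * C := by
          refine mul_le_mul ?_ hE (abs_nonneg _) (inv_pos.mpr hl2).le
          exact inv_anti₀ hl2 (Real.log_le_log (by norm_num) hx)
      _ = C / Real.log 2 := by rw [div_eq_mul_inv]; ring
  have h6 : C * ((Real.log 2)⁻¹ - (Real.log x)⁻¹) ≤ C / Real.log 2 := by
    rw [div_eq_mul_inv]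
    refine mul_le_mul_of_nonneg_left ?_ hC0
    have := inv_pos.mpr hlx
    linarith
  have h7 := hI.trans h6
  have h8 := le_abs_self (Real.log (Real.log 2))
  have h9 := neg_abs_le (Real.log (Real.log 2))
  rw [abs_le] at h4 h7 ⊢
  constructor <;> linarith [h4.1, h4.2, h7.1, h7.2]

theorem Ls_bounds : ∃ C : ℝ, ∀ P Q : ℝ, 2 ≤ P → P ≤ Q →
    |Ls P Q - (Real.log (Real.log Q) - Real.log (Real.log P)) / 2| ≤ C := by
  classical
  obtain ⟨C, hC⟩ := mertens
  refine ⟨2 * C, ?_⟩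
  intro P Q hP hPQ
  have hsplit : ∑ p ∈ (Finset.Icc 1 ⌊Q⌋₊).filter (fun p => p.Prime ∧ p % 4 = 1), (1 : ℝ) / p =
      ∑ p ∈ (Finset.Icc 1 ⌊P⌋₊).filter (fun p => p.Prime ∧ p % 4 = 1), (1 : ℝ) / p + Ls P Q := by
    rw [Ls_eq P Q (by linarith) (by linarith), ← Finset.sum_union]
    · refine Finset.sum_congr ?_ fun _ _ => rfl
      have hfl : ⌊P⌋₊ ≤ ⌊Q⌋₊ := Nat.floor_le_floor hPQ
      ext p
      simp only [Finset.mem_filter, Finset.mem_Icc, Finset.mem_union]
      constructor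
      · rintro ⟨⟨h1, h2⟩, h3, h4⟩
        by_cases h5 : p ≤ ⌊P⌋₊
        · exact Or.inl ⟨⟨h1, h5⟩, h3, h4⟩
        · exact Or.inr ⟨⟨h1, h2⟩, h3, h4, by omega⟩
      · rintro (⟨⟨h1, h2⟩, h3, h4⟩ | ⟨⟨h1, h2⟩, h3, h4, h5⟩)
        · exact ⟨⟨h1, by omega⟩, h3, h4⟩
        · exact ⟨⟨h1, h2⟩, h3, h4⟩
    · rw [Finset.disjoint_left]
      intro p hp hp'
      simp only [Finset.mem_filter, Finset.mem_Icc] at hp hp'
      omega
  have h1 := hC P hP
  have h2 := hC Q (hP.trans hPQ)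
  rw [hsplit] at h2
  rw [abs_le] at h1 h2 ⊢
  constructor <;> linarith [h1.1, h1.2, h2.1, h2.2]

end Pool.Agent.GaussMR

end

/-! ### from `Lib_MP_f1a94e_ecc.Defs` -/

section

/-!
# The chain of stages for completely multiplicative complex functions: definitions

Port of `Lib_MP_f1a94e_mr` / `Lib_MP_f1a94e_mu` from sign functions to functions `F : G → ℂ` which are
completely multiplicative on the Gaussian integers of odd norm and bounded by one.
-/

set_option autoImplicit false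

namespace Pool.Agent.GaussCM

open Pool.Agent.GaussMR

/-- completely multiplicative complex functions bounded by one on the Gaussian integers of odd norm -/
structure CM (F : G → ℂ) : Prop where
  mul : ∀ z w, Odd (nm z) → Odd (nm w) → F (z * w) = F z * F w
  bd : ∀ z, Odd (nm z) → ‖F z‖ ≤ 1

/-- unnormalised Fourier coefficient of `F` on `V X` -/
noncomputable def fcC (F : G → ℂ) (X : ℝ) (k : ℤ) : ℂ := ∑ z ∈ V X, F z * xi (-k) z

/-- the prime polynomial of a block -/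
noncomputable def UC (F : G → ℂ) (P Q ρ : ℝ) (v : ℕ) (k : ℤ) : ℂ :=
  ∑ w ∈ blk P Q ρ v, F w * xi (-k) w

/-- the factorised main term of a stage -/
noncomputable def UZC (F : G → ℂ) (P Q ρ X : ℝ) (k : ℤ) : ℂ :=
  ∑ v ∈ Finset.range (nv Q ρ), UC F P Q ρ v k * fcC F (X * Real.exp (-(v * ρ))) k

open Classical in
/-- terms `w z` with `star w ∣ z` (not primitive) -/
noncomputable def A2C (F : G → ℂ) (P Q ρ X : ℝ) (k : ℤ) : ℂ :=
  ∑ v ∈ Finset.range (nv Q ρ), ∑ w ∈ blk P Q ρ v, F w * xi (-k) w *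
    ∑ z ∈ (V (X * Real.exp (-(v * ρ)))).filter (fun z => star w ∣ z), F z * xi (-k) z

/-- terms `w z` primitive of norm larger than `X` -/
noncomputable def A3C (F : G → ℂ) (P Q ρ X : ℝ) (k : ℤ) : ℂ :=
  ∑ z ∈ V (X * Real.exp ρ) \ V X, F z * (mA P Q ρ X z : ℂ) * xi (-k) z

open Classical in
/-- frequencies for which all prime polynomials of stage `j` are small -/
noncomputable def smallSetC (F : G → ℂ) (T : ℕ) (P Q r a : ℝ) : Finset ℤ :=
  (fr T).filter (fun k => ∀ v : ℕ, ‖UC F P Q r v k‖ ≤ Real.exp ((1 - a) * (v * r)))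

theorem CM.mul_eq {F : G → ℂ} (hF : CM F) {z w : G} (hz : Odd (nm z)) (hw : Odd (nm w)) :
    F (z * w) = F z * F w := hF.mul z w hz hw

theorem CM.norm {F : G → ℂ} (hF : CM F) {z : G} (h : Odd (nm z)) : ‖F z‖ ≤ 1 := hF.bd z h

end Pool.Agent.GaussCM

end

/-! ### from `Lib_MP_f1a94e_ecm.MDefs` -/

section

/-!
# MP_f1a94e_nt, Edge Chowla, block M: definitions
Matomaki-Radziwill in arcs of bounded length for `(-1) ^ Ω(nm z)` in residue classes.
-/

set_option autoImplicit false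

namespace Pool.Agent.ECM

open Finset Pool.Agent.GaussMR Pool.Agent.GaussCM Pool.Agent.OmAll

/-- completely multiplicative functions of period `D` which vanish on the even elements (`D` even in the applications) -/
structure Chi (D : ℕ) (χ : G → ℂ) : Prop where
  one : χ 1 = 1
  mul : ∀ z w, χ (z * w) = χ z * χ w
  per : ∀ z w, cg D z w → χ z = χ w
  even : ∀ z, ¬ Odd (nm z) → χ z = 0
  le : ∀ z, ‖χ z‖ ≤ 1

/-- `z` is invertible modulo `D` -/
def Inv (D : ℕ) (z : G) : Prop := ∃ w : G, cg D (z * w) 1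

/-- principal characters -/
def Pri (D : ℕ) (χ : G → ℂ) : Prop := ∀ z, Inv D z → χ z = 1

/-- the imaginary unit -/
def ii : G := ⟨0, 1⟩

/-- `i * star w`: exchange of the coordinates -/
def fl (w : G) : G := ⟨w.im, w.re⟩

/-- Liouville function of the norm times a character -/
noncomputable def FL (χ : G → ℂ) (z : G) : ℂ := (-1 : ℂ) ^ ArithmeticFunction.cardFactors (nm z) * χ z

/-- `arg z` lies in `[θ, θ + w)` modulo `2 π` -/
def InArc (θ w : ℝ) (z : G) : Prop :=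
  ∃ j : ℤ, θ ≤ Complex.arg (z : ℂ) + 2 * Real.pi * j ∧ Complex.arg (z : ℂ) + 2 * Real.pi * j < θ + w

open Classical in
/-- the sum over an arc -/
noncomputable def arcS (F : G → ℂ) (X w θ : ℝ) : ℂ := ∑ z ∈ V X, if InArc θ w z then F z else 0

/-- `u` is free of primes of norm less than `y` -/
def Rough (y : ℝ) (u : G) : Prop := ∀ p : G, Prime p → p ∣ u → y ≤ (nm p : ℝ)

theorem fl_eq (w : G) : fl w = ii * star w := by
  apply Zsqrtd.ext <;> simp [fl, ii]

theorem nm_fl (w : G) : nm (fl w) = nm w := by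
  have h : (nm (fl w) : ℤ) = nm w := by
    rw [nm_eq, nm_eq]; simp [fl]; ring
  exact_mod_cast h

theorem fl_fl (w : G) : fl (fl w) = w := rfl

theorem nm_ii : nm ii = 1 := by
  have h : (nm ii : ℤ) = 1 := by
    rw [nm_eq]; simp [ii]
  exact_mod_cast h

end Pool.Agent.ECM

end

/-! ### from `Lib_MP_f1a94e_ecm.BadG` -/

section

/-!
# Piece M-BAD: points of a row at which the `q`-th derivative is small
-/

set_option autoImplicit false

namespace Pool.Agent.ECM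

open Finset Pool.Agent.GaussMR

private theorem badG_polar (b x : ℝ) (hb : 0 < b) :
    (x : ℂ) + b * Complex.I = (‖(x : ℂ) + b * Complex.I‖ : ℂ) *
      Complex.exp (((Real.pi / 2 - Real.arctan (x / b) : ℝ) : ℂ) * Complex.I) := by
  set w : ℂ := (x : ℂ) + b * Complex.I with hw
  have hwre : w.re = x := by rw [hw]; simp
  have hwim : w.im = b := by rw [hw]; simp
  have hn2 : ‖w‖ ^ 2 = x ^ 2 + b ^ 2 := by
    rw [← Complex.normSq_eq_norm_sq, Complex.normSq_apply, hwre, hwim]; ring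
  have hn : ‖w‖ = Real.sqrt (x ^ 2 + b ^ 2) := by
    rw [← hn2, Real.sqrt_sq (norm_nonneg _)]
  have hR0 : 0 < ‖w‖ := by rw [hn]; exact Real.sqrt_pos.mpr (by positivity)
  have hsq : Real.sqrt (1 + (x / b) ^ 2) = ‖w‖ / b := by
    rw [hn, show (1 : ℝ) + (x / b) ^ 2 = (x ^ 2 + b ^ 2) / b ^ 2 by
      field_simp
      ring, Real.sqrt_div (by positivity), Real.sqrt_sq hb.le]
  have hcos : Real.cos (Real.pi / 2 - Real.arctan (x / b)) = x / ‖w‖ := by
    rw [Real.cos_pi_div_two_sub, Real.sin_arctan, hsq]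
    field_simp
  have hsin : Real.sin (Real.pi / 2 - Real.arctan (x / b)) = b / ‖w‖ := by
    rw [Real.sin_pi_div_two_sub, Real.cos_arctan, hsq]
    field_simp
  rw [Complex.exp_mul_I, ← Complex.ofReal_cos, ← Complex.ofReal_sin, hcos, hsin]
  apply Complex.ext
  · rw [hwre, Complex.re_ofReal_mul]
    have : x = ‖w‖ * (x / ‖w‖) := by field_simp
    simpa using this
  · rw [hwim, Complex.im_ofReal_mul]
    have : b = ‖w‖ * (b / ‖w‖) := by field_simp
    simpa using this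

private theorem badG_sin (q : ℕ) (b x : ℝ) (hb : 0 < b) :
    |(((x : ℂ) + b * Complex.I) ^ (-(q : ℤ))).im| * ‖(x : ℂ) + b * Complex.I‖ ^ q =
      |Real.sin (q * (Real.pi / 2 - Real.arctan (x / b)))| := by
  have hp := badG_polar b x hb
  have hw0 : 0 < ‖(x : ℂ) + b * Complex.I‖ := by
    rw [norm_pos_iff]
    exact row_ne_zero b hb x
  set r : ℝ := ‖(x : ℂ) + b * Complex.I‖ with hr
  set θ : ℝ := Real.pi / 2 - Real.arctan (x / b) with hθ
  have h1 : ((x : ℂ) + b * Complex.I) ^ (-(q : ℤ)) =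
      (((r ^ q)⁻¹ : ℝ) : ℂ) * Complex.exp (((-(q * θ) : ℝ) : ℂ) * Complex.I) := by
    rw [hp, mul_zpow, ← Complex.exp_int_mul, zpow_neg, zpow_natCast]
    push_cast
    congr 2
    ring
  have h2 : (((x : ℂ) + b * Complex.I) ^ (-(q : ℤ))).im = (r ^ q)⁻¹ * Real.sin (-(q * θ)) := by
    rw [h1, Complex.im_ofReal_mul, Complex.exp_ofReal_mul_I_im]
  rw [h2, Real.sin_neg, abs_mul, abs_neg, abs_of_pos (by positivity)]
  field_simp

private theorem badG_near (u κ : ℝ) (hκ : |Real.sin u| < κ) :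
    |u - Real.pi * round (u / Real.pi)| ≤ Real.pi / 2 * κ := by
  have hpi := Real.pi_pos
  set l : ℤ := round (u / Real.pi) with hl
  have h1 : |u / Real.pi - l| ≤ 1 / 2 := abs_sub_round _
  have h2 : u - l * Real.pi = (u / Real.pi - l) * Real.pi := by field_simp
  have h3 : |u - l * Real.pi| ≤ Real.pi / 2 := by
    rw [h2, abs_mul, abs_of_pos hpi]
    nlinarith
  have h4 := Real.mul_abs_le_abs_sin h3
  rw [Real.sin_sub_int_mul_pi, abs_mul, abs_zpow, abs_neg, abs_one, one_zpow, one_mul] at h4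
  have h5 : |u - l * Real.pi| ≤ Real.pi / 2 * κ := by
    have h6 : 2 / Real.pi * |u - l * Real.pi| ≤ κ := h4.trans hκ.le
    calc |u - l * Real.pi| = Real.pi / 2 * (2 / Real.pi * |u - l * Real.pi|) := by field_simp
      _ ≤ Real.pi / 2 * κ := mul_le_mul_of_nonneg_left h6 (by positivity)
  rw [mul_comm (Real.pi) (l : ℝ)]
  exact h5

private theorem badG_card (S : Finset ℤ) (D : ℝ) (hD : 0 ≤ D)
    (h : ∀ a ∈ S, ∀ b ∈ S, a ≤ b → (b : ℝ) - a ≤ D) : (S.card : ℝ) ≤ D + 1 := by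
  rcases S.eq_empty_or_nonempty with hS | hS
  · subst hS; simp; linarith
  · have h1 : S ⊆ Icc (S.min' hS) (S.max' hS) := by
      intro b hb
      rw [mem_Icc]
      exact ⟨min'_le S b hb, le_max' S b hb⟩
    have h2 := card_le_card h1
    rw [Int.card_Icc] at h2
    have h5 : S.min' hS ≤ S.max' hS := min'_le S _ (max'_mem S hS)
    have h3 := h _ (min'_mem S hS) _ (max'_mem S hS) h5
    have h6 : (S.card : ℤ) ≤ S.max' hS + 1 - S.min' hS := by
      have : ((S.max' hS + 1 - S.min' hS).toNat : ℤ) = S.max' hS + 1 - S.min' hS :=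
        Int.toNat_of_nonneg (by omega)
      rw [← this]
      exact_mod_cast h2
    have h7 : (S.card : ℝ) ≤ (S.max' hS : ℝ) + 1 - S.min' hS := by exact_mod_cast h6
    linarith

private theorem badG_arctan (b r x y : ℝ) (hb : 0 < b) (hr : 0 < r) (hx : x ^ 2 + b ^ 2 ≤ r ^ 2)
    (hy : y ^ 2 + b ^ 2 ≤ r ^ 2) (hxy : x ≤ y) :
    b / r ^ 2 * (y - x) ≤ Real.arctan (y / b) - Real.arctan (x / b) := by
  have hder : ∀ u : ℝ, HasDerivAt (fun u : ℝ => Real.arctan (u / b)) (b / (u ^ 2 + b ^ 2)) u := by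
    intro u
    have h1 := ((hasDerivAt_id u).div_const b).arctan
    have h2 : 1 / (1 + (id u / b) ^ 2) * (1 / b) = b / (u ^ 2 + b ^ 2) := by
      rw [id]
      field_simp
      ring
    rw [h2] at h1
    exact h1
  refine (convex_Icc x y).mul_sub_le_image_sub_of_le_deriv (f := fun u : ℝ => Real.arctan (u / b))
    (fun u _ => (hder u).continuousAt.continuousWithinAt)
    (fun u _ => (hder u).differentiableAt.differentiableWithinAt) ?_ x
    (Set.left_mem_Icc.2 hxy) y (Set.right_mem_Icc.2 hxy) hxy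
  intro u hu
  rw [interior_Icc] at hu
  rw [(hder u).deriv]
  apply div_le_div_of_nonneg_left hb.le (by positivity)
  rcases le_total 0 u with h | h
  · nlinarith [hu.2]
  · nlinarith [hu.1]

/-- With `x + i b = |x + i b| exp (i θ)`, `θ ∈ (0, π)`: the quantity is `|sin (q θ)|`. `|sin (q θ)| < κ` implies `|θ - π l / q| ≤ π κ / (2 q)` for some integer `0 ≤ l ≤ q`
(`|sin u| ≥ (2/π) dist(u, π ℤ)`). Two points `x < x'` of the set with the same `l` have `θ - θ' ≤ π κ / q`, and `θ - θ' = arctan (x'/b) - arctan (x/b) ≥ (x' - x) b / r²`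
(derivative of `arctan (u/b)` is `b / (u² + b²) ≥ b / r²` between them), so `x' - x ≤ π κ r² / (q b)`. Total at most `(q + 1) (π κ r² / (q b) + 1)`.
Alternative without angles: `Bad.lean` of Lib_MP_f1a94e_mr (factorisation of the polynomial `Im (x + i b)^q`). -/
theorem bad_cardG (q : ℕ) (hq : 1 ≤ q) : ∃ C : ℝ, 0 < C ∧ ∀ (r κ : ℝ) (b : ℕ), 1 ≤ r → 0 < κ → κ ≤ 1 → 1 ≤ b →
    (Set.ncard {x : ℤ | (x : ℝ) ^ 2 + (b : ℝ) ^ 2 ≤ r ^ 2 ∧
      |(((x : ℂ) + b * Complex.I) ^ (-(q : ℤ))).im| * ‖(x : ℂ) + b * Complex.I‖ ^ q < κ} : ℝ) ≤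
      C * (κ * r ^ 2 / b + 1) := by
  classical
  have hpi := Real.pi_pos
  refine ⟨(q + 1) * 4, by positivity, fun r κ b hr hκ hκ1 hb => ?_⟩
  have hr0 : 0 < r := by linarith
  have hb0 : (0 : ℝ) < b := by exact_mod_cast (by omega : 0 < b)
  have hqR : (1 : ℝ) ≤ q := by exact_mod_cast hq
  set S : Set ℤ := {x : ℤ | (x : ℝ) ^ 2 + (b : ℝ) ^ 2 ≤ r ^ 2 ∧
      |(((x : ℂ) + b * Complex.I) ^ (-(q : ℤ))).im| * ‖(x : ℂ) + b * Complex.I‖ ^ q < κ} with hS
  set θ : ℤ → ℝ := fun x => q * (Real.pi / 2 - Real.arctan ((x : ℝ) / b)) with hθ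
  have hS1 : ∀ x ∈ S, (x : ℝ) ^ 2 + (b : ℝ) ^ 2 ≤ r ^ 2 ∧ |Real.sin (θ x)| < κ := by
    intro x hx
    refine ⟨hx.1, ?_⟩
    have h1 := badG_sin q b x hb0
    have h2 := hx.2
    have h3 : |(((x : ℂ) + b * Complex.I) ^ (-(q : ℤ))).im| * ‖(x : ℂ) + b * Complex.I‖ ^ q =
        |Real.sin (θ x)| := by
      rw [hθ]
      simpa using h1
    rwa [h3] at h2
  have hfin : S.Finite := by
    have h1 : S ⊆ Set.Icc (-⌈r⌉) ⌈r⌉ := by
      intro x hx
      have h2 := (hS1 x hx).1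
      have h3 : |(x : ℝ)| ≤ r := by
        apply abs_le_of_sq_le_sq _ hr0.le
        nlinarith [sq_nonneg (b : ℝ)]
      rw [abs_le] at h3
      have h4 := Int.le_ceil r
      constructor
      · have : (-(⌈r⌉ : ℤ) : ℝ) ≤ (x : ℝ) := by linarith [h3.1]
        exact_mod_cast this
      · have : (x : ℝ) ≤ (⌈r⌉ : ℤ) := by linarith [h3.2]
        exact_mod_cast this
    exact (Set.finite_Icc _ _).subset h1
  set F : Finset ℤ := hfin.toFinset with hF
  have hmemF : ∀ x, x ∈ F ↔ x ∈ S := fun x => by rw [hF, Set.Finite.mem_toFinset]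
  have hcard : (S.ncard : ℝ) = F.card := by
    rw [Set.ncard_eq_toFinset_card S hfin]
  rw [hcard]
  set ll : ℤ → ℤ := fun x => round (θ x / Real.pi) with hll
  have hmaps : ∀ x ∈ F, ll x ∈ Icc (0 : ℤ) q := by
    intro x _
    have h1 := Real.arctan_lt_pi_div_two ((x : ℝ) / b)
    have h2 := Real.neg_pi_div_two_lt_arctan ((x : ℝ) / b)
    have h3 : 0 ≤ θ x / Real.pi := by
      apply div_nonneg _ hpi.le
      apply mul_nonneg (by positivity)
      linarith
    have h4 : θ x / Real.pi ≤ q := by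
      rw [div_le_iff₀ hpi]
      have : Real.pi / 2 - Real.arctan ((x : ℝ) / b) ≤ Real.pi := by linarith
      exact mul_le_mul_of_nonneg_left this (by positivity)
    rw [mem_Icc]
    have h5 : |θ x / Real.pi - (ll x : ℝ)| ≤ 1 / 2 := abs_sub_round _
    rw [abs_le] at h5
    constructor
    · have : (-1 : ℝ) < (ll x : ℝ) := by linarith [h5.1, h5.2]
      have h6 : (-1 : ℤ) < ll x := by exact_mod_cast this
      omega
    · have : (ll x : ℝ) < (q : ℝ) + 1 := by linarith [h5.1, h5.2]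
      have h6 : ll x < (q : ℤ) + 1 := by exact_mod_cast this
      omega
  set D : ℝ := Real.pi * κ * r ^ 2 / (q * b) with hD
  have hD0 : 0 ≤ D := by rw [hD]; positivity
  have hfib : ∀ l ∈ Icc (0 : ℤ) q, ((F.filter (fun x => ll x = l)).card : ℝ) ≤ D + 1 := by
    intro l _
    apply badG_card _ D hD0
    intro x hx y hy hxy
    rw [mem_filter, hmemF] at hx hy
    obtain ⟨hx1, hx2⟩ := hS1 x hx.1
    obtain ⟨hy1, hy2⟩ := hS1 y hy.1
    have n1 := badG_near (θ x) κ hx2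
    have n2 := badG_near (θ y) κ hy2
    have e1 : round (θ x / Real.pi) = l := hx.2
    have e2 : round (θ y / Real.pi) = l := hy.2
    rw [e1, abs_le] at n1
    rw [e2, abs_le] at n2
    have h1 : θ x - θ y ≤ Real.pi * κ := by linarith [n1.2, n2.1]
    have h2 : θ x - θ y = q * (Real.arctan ((y : ℝ) / b) - Real.arctan ((x : ℝ) / b)) := by
      simp only [hθ]; ring
    have h3 := badG_arctan b r x y hb0 hr0 hx1 hy1 (by exact_mod_cast hxy)
    rw [h2] at h1
    have h4 : (q : ℝ) * (b / r ^ 2 * ((y : ℝ) - x)) ≤ Real.pi * κ :=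
      (mul_le_mul_of_nonneg_left h3 (by positivity)).trans h1
    rw [hD, le_div_iff₀ (by positivity)]
    have h5 : (q : ℝ) * (b / r ^ 2 * ((y : ℝ) - x)) = ((y : ℝ) - x) * (q * b) / r ^ 2 := by ring
    rw [h5, div_le_iff₀ (by positivity)] at h4
    exact h4
  have h1 := card_eq_sum_card_fiberwise (s := F) (t := Icc (0 : ℤ) q) (f := ll) hmaps
  have h2 : (F.card : ℝ) = ∑ l ∈ Icc (0 : ℤ) q, ((F.filter (fun x => ll x = l)).card : ℝ) := by
    rw [h1]; push_cast; rfl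
  rw [h2]
  have h3 : ∑ l ∈ Icc (0 : ℤ) q, ((F.filter (fun x => ll x = l)).card : ℝ) ≤ (q + 1) * (D + 1) := by
    refine (sum_le_sum hfib).trans ?_
    rw [sum_const, nsmul_eq_mul, Int.card_Icc]
    have : (((q : ℤ) + 1 - 0).toNat : ℝ) = (q : ℝ) + 1 := by
      have h4 : ((q : ℤ) + 1 - 0).toNat = q + 1 := by omega
      rw [h4]; push_cast; rfl
    rw [this]
  refine h3.trans ?_
  have h4 : D ≤ 4 * (κ * r ^ 2 / b) := by
    have h5 : D = Real.pi / q * (κ * r ^ 2 / b) := by rw [hD]; field_simp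
    rw [h5]
    apply mul_le_mul_of_nonneg_right _ (by positivity)
    rw [div_le_iff₀ (by linarith)]
    have := Real.pi_le_four
    linarith
  have h6 : D + 1 ≤ 4 * (κ * r ^ 2 / b + 1) := by linarith
  calc ((q : ℝ) + 1) * (D + 1) ≤ (q + 1) * (4 * (κ * r ^ 2 / b + 1)) :=
        mul_le_mul_of_nonneg_left h6 (by positivity)
    _ = _ := by ring

end Pool.Agent.ECM

end

/-! ### from `Lib_MP_f1a94e_mr.BH` -/

section

/-!
# Piece BH: the Brun-Hooley lower bound sieve (abstract form)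
-/

set_option autoImplicit false

namespace Pool.Agent.GaussMR

open Classical in
theorem bh_image_sum {ι : Type} (U : Finset ι) (f : ι → ℕ) (hf : Set.InjOn f (U : Set ι))
    (F : Finset ℕ → ℝ) :
    ∑ A ∈ (U.image f).powerset, F A = ∑ D ∈ U.powerset, F (D.image f) := by
  have h1 : (U.image f).powerset = U.powerset.image (fun D => D.image f) := by
    ext A
    simp only [Finset.mem_powerset, Finset.mem_image, Finset.subset_image_iff]
  rw [h1, Finset.sum_image]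
  intro A hA B hB hAB
  have hA' := Finset.mem_powerset.1 (Finset.mem_coe.1 hA)
  have hB' := Finset.mem_powerset.1 (Finset.mem_coe.1 hB)
  ext x
  constructor
  · intro hx
    have : f x ∈ B.image f := by
      have h2 : f x ∈ A.image f := Finset.mem_image_of_mem f hx
      have h3 : A.image f = B.image f := hAB
      rwa [h3] at h2
    obtain ⟨y, hy, hxy⟩ := Finset.mem_image.1 this
    have := hf (Finset.mem_coe.2 (hB' hy)) (Finset.mem_coe.2 (hA' hx)) hxy
    exact this ▸ hy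
  · intro hx
    have : f x ∈ A.image f := by
      have h2 : f x ∈ B.image f := Finset.mem_image_of_mem f hx
      have h3 : A.image f = B.image f := hAB
      rwa [← h3] at h2
    obtain ⟨y, hy, hxy⟩ := Finset.mem_image.1 this
    have := hf (Finset.mem_coe.2 (hA' hy)) (Finset.mem_coe.2 (hB' hx)) hxy
    exact this ▸ hy

open Classical in
/-- the weights for an arbitrary index type -/
theorem bh_core {ι : Type} (t : ℕ) (P : ℕ → Finset ι) (b : ℕ)
    (hd : ∀ i j, i < t → j < t → i ≠ j → Disjoint (P i) (P j)) (g : ι → ℝ)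
    (hg : ∀ p ∈ (Finset.range t).biUnion P, 0 ≤ g p ∧ g p ≤ 1 / 2)
    (hs : ∑ j ∈ Finset.range t, (∑ p ∈ P j, g p) ^ (2 * (b + j) + 1) /
      ((2 * (b + j) + 1).factorial : ℝ) * Real.exp (2 * ∑ p ∈ P j, g p) ≤ 1 / 2) :
    ∃ lam : Finset ι → ℝ, (∀ A, |lam A| ≤ 1) ∧
      (∀ A ⊆ (Finset.range t).biUnion P, lam A ≠ 0 → ∀ j < t,
        (A ∩ P j).card ≤ 2 * (b + j) + 1) ∧
      (∀ S ⊆ (Finset.range t).biUnion P, ∑ A ∈ S.powerset, lam A ≤ if S = ∅ then 1 else 0) ∧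
      1 / 2 * ∏ p ∈ (Finset.range t).biUnion P, (1 - g p) ≤
          ∑ A ∈ ((Finset.range t).biUnion P).powerset, lam A * ∏ p ∈ A, g p := by
  set U := (Finset.range t).biUnion P with hU
  have hPU : ∀ j < t, P j ⊆ U := fun j hj x hx =>
    Finset.mem_biUnion.2 ⟨j, Finset.mem_range.2 hj, hx⟩
  let f : ι → ℕ := fun x => if h : x ∈ U then (U.equivFin ⟨x, h⟩ : ℕ) else 0
  have hf : Set.InjOn f (U : Set ι) := by
    intro x hx y hy hxy
    have hx' : x ∈ U := hx
    have hy' : y ∈ U := hy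
    simp only [f, dif_pos hx', dif_pos hy'] at hxy
    have := U.equivFin.injective (Fin.ext hxy)
    exact congrArg Subtype.val this
  let g' : ℕ → ℝ := fun q => if h : q < U.card then g (U.equivFin.symm ⟨q, h⟩) else 0
  have hg' : ∀ x ∈ U, g' (f x) = g x := by
    intro x hx
    have h1 : f x = (U.equivFin ⟨x, hx⟩ : ℕ) := by simp only [f, dif_pos hx]
    have h2 : f x < U.card := by rw [h1]; exact (U.equivFin ⟨x, hx⟩).2
    simp only [g', dif_pos h2]
    have h3 : (⟨f x, h2⟩ : Fin U.card) = U.equivFin ⟨x, hx⟩ := Fin.ext h1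
    rw [h3, Equiv.symm_apply_apply]
  let B : ℕ → Finset ℕ := fun j => (P j).image f
  have hBU : (Finset.range t).biUnion B = U.image f := by
    rw [hU, Finset.biUnion_image]
  have hdB : ∀ i < t, ∀ j < t, i ≠ j → Disjoint (B i) (B j) := by
    intro i hi j hj hij
    rw [Finset.disjoint_left]
    intro q hq1 hq2
    obtain ⟨x, hx, hxq⟩ := Finset.mem_image.1 hq1
    obtain ⟨y, hy, hyq⟩ := Finset.mem_image.1 hq2
    have := hf (Finset.mem_coe.2 (hPU i hi hx)) (Finset.mem_coe.2 (hPU j hj hy))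
      (hxq.trans hyq.symm)
    rw [this] at hx
    exact Finset.disjoint_left.1 (hd i j hi hj hij) hx hy
  obtain ⟨lam, h1, h2, h3, h4⟩ := Pool.Agent.OmAP.core t B (fun j => 2 * (b + j))
    (fun j => even_two_mul _) hdB
  have hprod : ∀ D ⊆ U, ∏ q ∈ D.image f, g' q = ∏ p ∈ D, g p := by
    intro D hD
    rw [Finset.prod_image (fun x hx y hy hxy => hf (Finset.mem_coe.2 (hD hx))
      (Finset.mem_coe.2 (hD hy)) hxy)]
    exact Finset.prod_congr rfl fun x hx => hg' x (hD hx)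
  have hsumB : ∀ j < t, ∑ q ∈ B j, g' q = ∑ p ∈ P j, g p := by
    intro j hj
    rw [Finset.sum_image (fun x hx y hy hxy => hf (Finset.mem_coe.2 (hPU j hj hx))
      (Finset.mem_coe.2 (hPU j hj hy)) hxy)]
    exact Finset.sum_congr rfl fun x hx => hg' x (hPU j hj hx)
  refine ⟨fun A => lam (A.image f), fun A => h1 _, ?_, ?_, ?_⟩
  · intro A hA hne j hj
    have h5 := h2 _ hne j hj
    have h6 : (A ∩ P j).image f ⊆ A.image f ∩ B j := by
      intro q hq
      obtain ⟨x, hx, hxq⟩ := Finset.mem_image.1 hq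
      have hx' := Finset.mem_inter.1 hx
      exact Finset.mem_inter.2 ⟨Finset.mem_image.2 ⟨x, hx'.1, hxq⟩,
        Finset.mem_image.2 ⟨x, hx'.2, hxq⟩⟩
    have h7 : ((A ∩ P j).image f).card = (A ∩ P j).card :=
      Finset.card_image_of_injOn fun x hx y hy hxy =>
        hf (Finset.mem_coe.2 (hA (Finset.mem_inter.1 (Finset.mem_coe.1 hx)).1))
          (Finset.mem_coe.2 (hA (Finset.mem_inter.1 (Finset.mem_coe.1 hy)).1)) hxy
    have h8 := Finset.card_le_card h6
    omega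
  · intro S hS
    have h5 := h3 (S.image f) (by
      rw [hBU]
      exact Finset.image_subset_image hS)
    rw [bh_image_sum S f (hf.mono (by exact_mod_cast hS))] at h5
    refine h5.trans (le_of_eq ?_)
    by_cases hSe : S = ∅
    · rw [if_pos hSe, if_pos (by rw [hSe, Finset.image_empty])]
    · rw [if_neg hSe, if_neg (by rwa [Finset.image_eq_empty])]
  · have h5 := h4 g' (by
      rw [hBU]
      intro q hq
      obtain ⟨x, hx, rfl⟩ := Finset.mem_image.1 hq
      rw [hg' x hx]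
      exact hg x hx) (by
      refine le_trans (le_of_eq ?_) hs
      refine Finset.sum_congr rfl fun j hj => ?_
      rw [hsumB j (Finset.mem_range.1 hj)])
    rw [hBU, bh_image_sum U f hf] at h5
    refine le_trans (le_of_eq ?_) (h5.trans (le_of_eq ?_))
    · congr 1
      rw [Finset.prod_image (fun x hx y hy hxy => hf hx hy hxy)]
      exact Finset.prod_congr rfl fun x hx => by rw [hg' x hx]
    · exact Finset.sum_congr rfl fun D hD => by rw [hprod D (Finset.mem_powerset.1 hD)]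

theorem bh_choice (G0 : ℝ) (hG0 : 0 ≤ G0) : ∃ b : ℕ, ∀ t : ℕ,
    ∑ j ∈ Finset.range t, G0 ^ (2 * (b + j) + 1) / ((2 * (b + j) + 1).factorial : ℝ) *
      Real.exp (2 * G0) ≤ 1 / 2 := by
  have hsum : Summable fun n : ℕ => G0 ^ n / (n.factorial : ℝ) :=
    Real.summable_pow_div_factorial G0
  have htail := tendsto_sum_nat_add fun n : ℕ => G0 ^ n / (n.factorial : ℝ)
  have hpos : (0 : ℝ) < Real.exp (-(2 * G0)) / 2 := by positivity
  obtain ⟨N, hN⟩ := (htail.eventually (gt_mem_nhds hpos)).exists_forall_of_atTop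
  refine ⟨N, fun t => ?_⟩
  have hN' := hN N le_rfl
  have hsN : Summable fun n : ℕ => G0 ^ (n + N) / ((n + N).factorial : ℝ) :=
    (summable_nat_add_iff N).2 hsum
  have hinj : Set.InjOn (fun j : ℕ => N + 2 * j + 1) (Finset.range t : Set ℕ) := by
    intro x _ y _ hxy
    simp only at hxy
    omega
  have h1 : ∑ j ∈ Finset.range t, G0 ^ (2 * (N + j) + 1) / ((2 * (N + j) + 1).factorial : ℝ) ≤
      ∑' n : ℕ, G0 ^ (n + N) / ((n + N).factorial : ℝ) := by
    calc ∑ j ∈ Finset.range t, G0 ^ (2 * (N + j) + 1) / ((2 * (N + j) + 1).factorial : ℝ) =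
        ∑ n ∈ (Finset.range t).image (fun j : ℕ => N + 2 * j + 1),
          G0 ^ (n + N) / ((n + N).factorial : ℝ) := by
          rw [Finset.sum_image hinj]
          refine Finset.sum_congr rfl fun j _ => ?_
          have : N + 2 * j + 1 + N = 2 * (N + j) + 1 := by ring
          rw [this]
      _ ≤ _ := hsN.sum_le_tsum _ fun n _ => by positivity
  rw [← Finset.sum_mul]
  have h2 : ∑ j ∈ Finset.range t, G0 ^ (2 * (N + j) + 1) / ((2 * (N + j) + 1).factorial : ℝ) ≤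
      Real.exp (-(2 * G0)) / 2 := h1.trans hN'.le
  calc (∑ j ∈ Finset.range t, G0 ^ (2 * (N + j) + 1) / ((2 * (N + j) + 1).factorial : ℝ)) *
      Real.exp (2 * G0) ≤ Real.exp (-(2 * G0)) / 2 * Real.exp (2 * G0) := by gcongr
    _ = 1 / 2 := by
      rw [div_mul_eq_mul_div, ← Real.exp_add, neg_add_cancel, Real.exp_zero]

open Classical in
/-- Sieving primes in classes `P 0, …, P (t-1)`, with class sums `∑ g ≤ G0`; `2 (b + i)` is the truncation
level in class `i`. For an object `u` with `S_i = S u ∩ P i` put `x_i = 1` if `S_i = ∅`, else `0`,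
`y_i = ∑_{D ⊆ S_i, |D| ≤ 2(b+i)} (-1)^|D|`, `e_i = #{D ⊆ S_i : |D| = 2(b+i)+1}`. Bonferroni:
`0 ≤ x_i ≤ y_i ≤ x_i + e_i`, hence `∏ x_i ≥ ∏ y_i - ∑_l e_l ∏_{i ≠ l} y_i`. Multiply by `w u`, sum over
`u` and insert `∑_{u : D ⊆ S u} w u = X0 ∏_{p ∈ D} g p + r(D)`, `|r(D)| ≤ E`: the main term is
`X0 (∏ Y_i - ∑_l E_l ∏_{i ≠ l} Y_i)` with `Y_i = ∑_{D ⊆ P i, |D| ≤ 2(b+i)} (-1)^|D| ∏_D g
≥ V_i = ∏_{P i} (1 - g)` and `E_l = ∑_{|D| = 2(b+l)+1} ∏_D g ≤ G0^(2(b+l)+1) / (2(b+l)+1)!`, and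
`V_i ≥ 4^(-G0)`. Choose `b` with `∑_l 4^G0 G0^(2(b+l)+1) / (2(b+l)+1)! ≤ 1/2`. -/
theorem brun_hooley (G0 : ℝ) (hG0 : 0 ≤ G0) : ∃ b : ℕ, ∀ (Ω ι : Type) (obj : Finset Ω) (w : Ω → ℝ)
    (t : ℕ) (P : ℕ → Finset ι) (S : Ω → Finset ι) (g : ι → ℝ) (X0 E : ℝ),
    (∀ u ∈ obj, 0 ≤ w u) → (∀ i j, i < t → j < t → i ≠ j → Disjoint (P i) (P j)) →
    (∀ u ∈ obj, S u ⊆ (Finset.range t).biUnion P) →
    (∀ p ∈ (Finset.range t).biUnion P, 0 ≤ g p ∧ g p ≤ 1 / 2) →
    (∀ i < t, ∑ p ∈ P i, g p ≤ G0) → 0 ≤ X0 → 0 ≤ E →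
    (∀ D ⊆ (Finset.range t).biUnion P, (∀ i < t, (D ∩ P i).card ≤ 2 * (b + i) + 1) →
      |∑ u ∈ obj.filter (fun u => D ⊆ S u), w u - X0 * ∏ p ∈ D, g p| ≤ E) →
    X0 / 2 * ∏ p ∈ (Finset.range t).biUnion P, (1 - g p) -
      (t + 1) * (((Finset.range t).biUnion P).powerset.filter
        (fun D => ∀ i < t, (D ∩ P i).card ≤ 2 * (b + i) + 1)).card * E ≤
      ∑ u ∈ obj.filter (fun u => S u = ∅), w u := by
  obtain ⟨b, hb⟩ := bh_choice G0 hG0
  refine ⟨b, ?_⟩
  intro Ω ι obj w t P S g X0 E hw hd hS hg hG hX0 hE hr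
  set U := (Finset.range t).biUnion P with hU
  have hPU : ∀ j < t, P j ⊆ U := fun j hj x hx =>
    Finset.mem_biUnion.2 ⟨j, Finset.mem_range.2 hj, hx⟩
  have hgs : ∀ j < t, 0 ≤ ∑ p ∈ P j, g p := fun j hj =>
    Finset.sum_nonneg fun p hp => (hg p (hPU j hj hp)).1
  obtain ⟨lam, h1, h2, h3, h4⟩ := bh_core t P b hd g hg (by
    refine le_trans (Finset.sum_le_sum fun j hj => ?_) (hb t)
    have hj' := Finset.mem_range.1 hj
    have h0 := hgs j hj'
    have h5 := hG j hj'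
    gcongr)
  rw [← hU] at h2 h3 h4
  have step1 : ∑ u ∈ obj, w u * ∑ A ∈ (S u).powerset, lam A ≤
      ∑ u ∈ obj.filter (fun u => S u = ∅), w u := by
    rw [Finset.sum_filter]
    refine Finset.sum_le_sum fun u hu => ?_
    have h5 := mul_le_mul_of_nonneg_left (h3 (S u) (hS u hu)) (hw u hu)
    refine h5.trans (le_of_eq ?_)
    split_ifs <;> simp
  have step2 : ∑ u ∈ obj, w u * ∑ A ∈ (S u).powerset, lam A =
      ∑ A ∈ U.powerset, lam A * ∑ u ∈ obj.filter (fun u => A ⊆ S u), w u := by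
    have e1 : ∀ u ∈ obj, w u * ∑ A ∈ (S u).powerset, lam A =
        ∑ A ∈ U.powerset, if A ⊆ S u then lam A * w u else 0 := by
      intro u hu
      rw [Finset.mul_sum, ← Finset.sum_filter]
      have : U.powerset.filter (fun A => A ⊆ S u) = (S u).powerset := by
        ext A
        simp only [Finset.mem_filter, Finset.mem_powerset]
        exact ⟨fun h => h.2, fun h => ⟨h.trans (hS u hu), h⟩⟩
      rw [this]
      exact Finset.sum_congr rfl fun A _ => mul_comm _ _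
    rw [Finset.sum_congr rfl e1, Finset.sum_comm]
    refine Finset.sum_congr rfl fun A _ => ?_
    rw [Finset.mul_sum, Finset.sum_filter]
  have step3 : ∀ A ∈ U.powerset, lam A * (X0 * ∏ p ∈ A, g p) -
      (if ∀ i < t, (A ∩ P i).card ≤ 2 * (b + i) + 1 then E else 0) ≤
      lam A * ∑ u ∈ obj.filter (fun u => A ⊆ S u), w u := by
    intro A hA
    have hA' := Finset.mem_powerset.1 hA
    by_cases hl : lam A = 0
    · rw [hl, zero_mul, zero_mul, zero_sub, neg_nonpos]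
      split_ifs
      · exact hE
      · exact le_rfl
    · have hc := h2 A hA' hl
      rw [if_pos hc]
      have h5 := hr A hA' hc
      have h6 : |lam A * (∑ u ∈ obj.filter (fun u => A ⊆ S u), w u - X0 * ∏ p ∈ A, g p)| ≤
          1 * E := by
        rw [abs_mul]
        exact mul_le_mul (h1 A) h5 (abs_nonneg _) zero_le_one
      have h7 := (abs_le.1 h6).1
      rw [mul_sub] at h7
      linarith
  have step4 := Finset.sum_le_sum step3
  rw [Finset.sum_sub_distrib, ← Finset.sum_filter, Finset.sum_const, nsmul_eq_mul] at step4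
  have step5 : X0 / 2 * ∏ p ∈ U, (1 - g p) ≤ ∑ A ∈ U.powerset, lam A * (X0 * ∏ p ∈ A, g p) := by
    have h5 := mul_le_mul_of_nonneg_left h4 hX0
    rw [Finset.mul_sum] at h5
    calc X0 / 2 * ∏ p ∈ U, (1 - g p) = X0 * (1 / 2 * ∏ p ∈ U, (1 - g p)) := by ring
      _ ≤ _ := h5
      _ = _ := Finset.sum_congr rfl fun A _ => by ring
  set N : ℝ := ((U.powerset.filter
    (fun D => ∀ i < t, (D ∩ P i).card ≤ 2 * (b + i) + 1)).card : ℝ) with hN
  have hN0 : 0 ≤ N := Nat.cast_nonneg _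
  have h8 : N * E ≤ (t + 1) * N * E := by
    have : (0 : ℝ) ≤ (t : ℝ) * (N * E) := by positivity
    linarith
  linarith

end Pool.Agent.GaussMR

end

/-! ### from `Lib_MP_f1a94e_mr.CPsum` -/

section

/-!
# Piece CPSUM: canonical odd Gaussian primes
-/

set_option autoImplicit false

namespace Pool.Agent.GaussMR

namespace CPS

theorem nm_mul (z w : G) : nm (z * w) = nm z * nm w := by
  unfold nm
  rw [Zsqrtd.norm_mul, Int.natAbs_mul]

theorem mem_ball {z : G} {X : ℝ} : z ∈ ball X ↔ (nm z : ℝ) ≤ X := by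
  unfold ball
  simp

theorem nm_one_of_unit {u : G} (h : IsUnit u) : nm u = 1 := Zsqrtd.norm_eq_one_iff.2 h

theorem mem_CP {y : ℝ} {w : G} : w ∈ CP y ↔
    (nm w : ℝ) ≤ y ∧ Prime w ∧ Odd (nm w) ∧ 0 < w.re ∧ 0 ≤ w.im := by
  classical
  unfold CP
  rw [Finset.mem_filter, mem_ball]

/-- the units of the Gaussian integers -/
theorem unit_cases {u : G} (h : nm u = 1) :
    (u.re = 1 ∧ u.im = 0) ∨ (u.re = -1 ∧ u.im = 0) ∨ (u.re = 0 ∧ u.im = 1) ∨
      (u.re = 0 ∧ u.im = -1) := by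
  have h1 : u.re ^ 2 + u.im ^ 2 = 1 := by
    rw [← nm_eq, h]; rfl
  have h2 : -1 ≤ u.re := by nlinarith [sq_nonneg u.im]
  have h3 : u.re ≤ 1 := by nlinarith [sq_nonneg u.im]
  have h4 : -1 ≤ u.im := by nlinarith [sq_nonneg u.re]
  have h5 : u.im ≤ 1 := by nlinarith [sq_nonneg u.re]
  obtain ⟨a, b⟩ := u
  simp only at h1 h2 h3 h4 h5 ⊢
  interval_cases a <;> interval_cases b <;> simp_all

theorem prime_dvd_nat {w : G} (hw : Prime w) (n : ℕ) (hn : n ≠ 0) (h : w ∣ (n : G)) :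
    ∃ p : ℕ, p.Prime ∧ w ∣ (p : G) := by
  induction n using Nat.recOnMul with
  | zero => exact absurd rfl hn
  | one => exact absurd (isUnit_of_dvd_one (by simpa using h)) hw.not_isUnit
  | prime p hp => exact ⟨p, hp, h⟩
  | mul a b ha hb => 
    have ha0 : a ≠ 0 := left_ne_zero_of_mul hn
    have hb0 : b ≠ 0 := right_ne_zero_of_mul hn
    rw [Nat.cast_mul] at h
    rcases hw.dvd_or_dvd h with h | h
    · exact ha ha0 h
    · exact hb hb0 h

theorem self_dvd_nm (w : G) : w ∣ ((nm w : ℕ) : G) := by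
  refine ⟨star w, ?_⟩
  have h1 : ((nm w : ℕ) : G) = ((w.norm : ℤ) : G) := by
    unfold nm
    rw [← Int.cast_natCast (R := G), Int.natAbs_of_nonneg (GaussianInt.norm_nonneg w)]
  rw [h1, Zsqrtd.norm_eq_mul_conj]

theorem nm_natCast (n : ℕ) : nm (n : G) = n ^ 2 := by
  have h : ((nm (n : G) : ℕ) : ℤ) = ((n ^ 2 : ℕ) : ℤ) := by
    rw [nm_eq]
    simp
  exact_mod_cast h

/-- a Gaussian prime in the half open quadrant whose norm is not a prime is real -/
theorem real_of_not_prime {w : G} (hw : Prime w) (hr : 0 < w.re) (_hi : 0 ≤ w.im)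
    (hn : ¬(nm w).Prime) : w.im = 0 := by
  have hw0 : nm w ≠ 0 := by
    intro h
    have : ((nm w : ℕ) : ℤ) = 0 := by rw [h]; rfl
    rw [nm_eq] at this
    nlinarith [sq_nonneg w.im]
  obtain ⟨p, hp, u, hu⟩ := prime_dvd_nat hw _ hw0 (self_dvd_nm w)
  have h1 : nm w * nm u = p ^ 2 := by rw [← nm_mul, ← hu, nm_natCast]
  obtain ⟨i, hi2, hi⟩ := (Nat.dvd_prime_pow hp).1 (Dvd.intro _ h1)
  interval_cases i
  · exact absurd (Zsqrtd.norm_eq_one_iff.1 (by simpa [nm] using hi)) hw.not_isUnit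
  · rw [pow_one] at hi
    exact absurd (hi ▸ hp) hn
  · rw [hi] at h1
    have hpp : 0 < p ^ 2 := pow_pos hp.pos 2
    have h2 : nm u = 1 := by
      have : p ^ 2 * nm u = p ^ 2 * 1 := by rw [h1, mul_one]
      exact Nat.eq_of_mul_eq_mul_left hpp this
    have h3 := congrArg Zsqrtd.re hu
    have h4 := congrArg Zsqrtd.im hu
    simp only [Zsqrtd.re_natCast, Zsqrtd.im_natCast, Zsqrtd.re_mul, Zsqrtd.im_mul] at h3 h4
    rcases unit_cases h2 with ⟨e1, e2⟩ | ⟨e1, e2⟩ | ⟨e1, e2⟩ | ⟨e1, e2⟩ <;>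
      rw [e1, e2] at h3 h4
    · linarith
    · linarith
    · linarith
    · linarith

end CPS

open CPS

/-- rotate by a power of `i` into the half open first quadrant -/
theorem CP_exists {y : ℝ} {p : G} (hp : Prime p) (ho : Odd (nm p)) (hy : (nm p : ℝ) ≤ y) :
    ∃ w ∈ CP y, Associated w p := by
  have key : ∀ u v : G, u * v = 1 → 0 < (p * u).re → 0 ≤ (p * u).im → ∃ w ∈ CP y, Associated w p := by
    intro u v huv h1 h2
    have hun : IsUnit u := IsUnit.of_mul_eq_one v huv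
    have hnu : nm (p * u) = nm p := by rw [nm_mul, nm_one_of_unit hun, mul_one]
    have hass : Associated (p * u) p := by
      refine ⟨hun.unit⁻¹, ?_⟩
      rw [mul_assoc, IsUnit.mul_val_inv, mul_one]
    exact ⟨p * u, mem_CP.2 ⟨by rw [hnu]; exact hy, hass.symm.prime hp, by rw [hnu]; exact ho, h1, h2⟩,
      hass⟩
  have hne : p.re ≠ 0 ∨ p.im ≠ 0 := by
    by_contra h
    push Not at h
    apply hp.ne_zero
    exact Zsqrtd.ext h.1 h.2
  by_cases c1 : 0 < p.re
  · by_cases c2 : 0 ≤ p.im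
    · exact key 1 1 (by simp) (by simpa using c1) (by simpa using c2)
    · push Not at c2
      refine key ⟨0, 1⟩ ⟨0, -1⟩ ?_ ?_ ?_
      · ext <;> simp
      · simp; omega
      · simp; omega
  · push Not at c1
    by_cases c2 : 0 < p.im
    · refine key ⟨0, -1⟩ ⟨0, 1⟩ ?_ ?_ ?_
      · ext <;> simp
      · simp; omega
      · simp; omega
    · push Not at c2
      by_cases c3 : p.re = 0
      · refine key ⟨0, 1⟩ ⟨0, -1⟩ ?_ ?_ ?_
        · ext <;> simp
        · have := hne.resolve_left (by omega)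
          simp; omega
        · simp; omega
      · refine key (-1) (-1) (by simp) ?_ ?_
        · simp; omega
        · simp; omega

theorem CP_assoc {y y' : ℝ} {w w' : G} (h : w ∈ CP y) (h' : w' ∈ CP y') (ha : Associated w w') :
    w = w' := by
  rw [mem_CP] at h h'
  obtain ⟨_, _, _, h1, h2⟩ := h
  obtain ⟨_, _, _, h3, h4⟩ := h'
  obtain ⟨u, hu⟩ := ha
  have hn : nm (u : G) = 1 := nm_one_of_unit u.isUnit
  have e1 := congrArg Zsqrtd.re hu
  have e2 := congrArg Zsqrtd.im hu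
  simp only [Zsqrtd.re_mul, Zsqrtd.im_mul] at e1 e2
  rcases unit_cases hn with ⟨a, b⟩ | ⟨a, b⟩ | ⟨a, b⟩ | ⟨a, b⟩ <;> rw [a, b] at e1 e2
  · apply Zsqrtd.ext <;> linarith
  · exfalso; linarith
  · exfalso; linarith
  · exfalso; linarith

/-- the norm of an odd Gaussian prime is at least 5 -/
theorem CP_nm {y : ℝ} {w : G} (h : w ∈ CP y) : 5 ≤ nm w := by
  rw [mem_CP] at h
  obtain ⟨_, hp, ho, h1, h2⟩ := h
  by_contra hcon
  push Not at hcon
  have hne1 : nm w ≠ 1 := fun h => hp.not_isUnit (Zsqrtd.norm_eq_one_iff.1 h)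
  have h3 : nm w = 3 := by
    obtain ⟨k, hk⟩ := ho
    omega
  have h4 := nm_eq w
  rw [h3] at h4
  push_cast at h4
  have h5 : w.re ≤ 1 := by nlinarith [sq_nonneg w.im]
  have h6 : w.im ≤ 1 := by nlinarith [sq_nonneg w.re]
  have h7 : w.re ^ 2 ≤ 1 := by nlinarith
  have h8 : w.im ^ 2 ≤ 1 := by nlinarith
  linarith

open Classical in
/-- the canonical primes are: two of norm `p` for each prime `p = 1 mod 4`, and the primes `q = 3 mod 4`,
of norm `q ^ 2`. So the sum is at most `2 ∑_{y' < p ≤ y, p = 1 mod 4} 1 / p + ∑ 1 / q ^ 2`. -/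
theorem CP_sum : ∃ C : ℝ, 0 < C ∧ ∀ y y' : ℝ, 2 ≤ y' → y' ≤ y →
    ∑ w ∈ (CP y).filter (fun w => y' < (nm w : ℝ)), 1 / (nm w : ℝ) ≤
      Real.log (Real.log y) - Real.log (Real.log y') + C := by
  obtain ⟨C, hC⟩ := Ls_bounds
  refine ⟨2 * |C| + 2, by positivity, fun y y' hy' hyy => ?_⟩
  set A := (CP y).filter (fun w => y' < (nm w : ℝ)) with hA
  set A1 := A.filter (fun w => (nm w).Prime ∧ w.im < w.re)
  set A2 := A.filter (fun w => (nm w).Prime ∧ ¬ w.im < w.re)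
  set A3 := A.filter (fun w => ¬ (nm w).Prime)
  have hsplit : A = A1 ∪ A2 ∪ A3 := by
    ext w
    simp only [A1, A2, A3, Finset.mem_union, Finset.mem_filter]
    tauto
  have h1 : ∑ w ∈ A1, 1 / (nm w : ℝ) ≤ Ls y' y := by
    unfold Ls
    refine Finset.sum_le_sum_of_subset_of_nonneg ?_ fun w _ _ => by positivity
    intro w hw
    simp only [A1, hA, Finset.mem_filter, mem_CP] at hw
    obtain ⟨⟨⟨a1, a2, a3, a4, a5⟩, a6⟩, a7, a8⟩ := hw
    rw [mem_PP]
    refine ⟨a6, a1, a7, ?_, a8⟩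
    rcases a5.lt_or_eq with h | h
    · exact h
    · exfalso
      have h4 := nm_eq w
      rw [← h] at h4
      have h5 : nm w = w.re.natAbs * w.re.natAbs := by
        zify
        rw [h4, abs_mul_abs_self]
        ring
      rw [h5] at a7
      exact Nat.not_prime_mul (a := w.re.natAbs) (b := w.re.natAbs) (fun h => by rw [h] at a7; exact Nat.not_prime_one a7) (fun h => by rw [h] at a7; exact Nat.not_prime_one a7) a7
  have h2 : ∑ w ∈ A2, 1 / (nm w : ℝ) ≤ Ls y' y := by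
    unfold Ls
    have hsw : ∀ w : G, nm (⟨w.im, w.re⟩ : G) = nm w := by
      intro w
      zify
      rw [nm_eq, nm_eq]
      ring
    calc ∑ w ∈ A2, 1 / (nm w : ℝ) = ∑ w ∈ A2.image (fun w : G => (⟨w.im, w.re⟩ : G)), 1 / (nm w : ℝ) := by
          rw [Finset.sum_image]
          · refine Finset.sum_congr rfl fun w _ => ?_
            rw [hsw]
          · intro w _ w' _ h
            have e1 := congrArg Zsqrtd.re h
            have e2 := congrArg Zsqrtd.im h
            exact Zsqrtd.ext e2 e1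
      _ ≤ ∑ w ∈ PP y' y, 1 / (nm w : ℝ) := by
          refine Finset.sum_le_sum_of_subset_of_nonneg ?_ fun w _ _ => by positivity
          intro w' hw'
          rw [Finset.mem_image] at hw'
          obtain ⟨w, hw, rfl⟩ := hw'
          simp only [A2, hA, Finset.mem_filter, mem_CP] at hw
          obtain ⟨⟨⟨a1, a2, a3, a4, a5⟩, a6⟩, a7, a8⟩ := hw
          rw [mem_PP, hsw]
          refine ⟨a6, a1, a7, a4, ?_⟩
          show w.re < w.im
          push Not at a8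
          rcases a8.lt_or_eq with h | h
          · exact h
          · exfalso
            have h4 := nm_eq w
            rw [h] at h4
            obtain ⟨k, hk⟩ := a3
            rw [hk] at h4
            push_cast at h4
            have : (2 : ℤ) * k + 1 = 2 * w.im ^ 2 := by linarith
            omega
  have h3 : ∑ w ∈ A3, 1 / (nm w : ℝ) ≤ 2 := by
    have hreal : ∀ w ∈ A3, w.im = 0 ∧ 0 < w.re ∧ (nm w : ℝ) = (w.re.toNat : ℝ) ^ 2 := by
      intro w hw
      simp only [A3, hA, Finset.mem_filter, mem_CP] at hw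
      obtain ⟨⟨⟨a1, a2, a3, a4, a5⟩, a6⟩, a7⟩ := hw
      have him := real_of_not_prime a2 a4 a5 a7
      refine ⟨him, a4, ?_⟩
      have h4 := nm_eq w
      rw [him] at h4
      have h5 : ((w.re.toNat : ℕ) : ℤ) = w.re := Int.toNat_of_nonneg a4.le
      have h6 : (nm w : ℤ) = ((w.re.toNat : ℕ) : ℤ) ^ 2 := by rw [h4, h5]; ring
      exact_mod_cast h6
    set N := ∑ w ∈ A3, w.re.toNat with hN
    calc ∑ w ∈ A3, 1 / (nm w : ℝ) = ∑ n ∈ A3.image (fun w : G => w.re.toNat), 1 / (n : ℝ) ^ 2 := by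
          rw [Finset.sum_image]
          · refine Finset.sum_congr rfl fun w hw => ?_
            rw [(hreal w hw).2.2]
          · intro w hw w' hw' h
            obtain ⟨b1, b2, _⟩ := hreal w hw
            obtain ⟨c1, c2, _⟩ := hreal w' hw'
            have h' : w.re.toNat = w'.re.toNat := h
            apply Zsqrtd.ext
            · omega
            · rw [b1, c1]
      _ ≤ ∑ n ∈ Finset.Ioc 0 N, 1 / (n : ℝ) ^ 2 := by
          refine Finset.sum_le_sum_of_subset_of_nonneg ?_ fun w _ _ => by positivity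
          intro n hn
          rw [Finset.mem_image] at hn
          obtain ⟨w, hw, rfl⟩ := hn
          rw [Finset.mem_Ioc]
          obtain ⟨b1, b2, _⟩ := hreal w hw
          refine ⟨by omega, ?_⟩
          rw [hN]
          exact Finset.single_le_sum (f := fun w : G => w.re.toNat) (fun _ _ => Nat.zero_le _) hw
      _ ≤ 2 := by
          have h5 : Finset.Ioc 0 N = Finset.Ioo 0 (N + 1) := by
            ext n; simp only [Finset.mem_Ioc, Finset.mem_Ioo]; omega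
          have h6 := sum_Ioo_inv_sq_le (α := ℝ) 0 (N + 1)
          have h7 : ∑ n ∈ Finset.Ioo 0 (N + 1), 1 / (n : ℝ) ^ 2 =
              ∑ n ∈ Finset.Ioo 0 (N + 1), ((n : ℝ) ^ 2)⁻¹ :=
            Finset.sum_congr rfl fun n _ => one_div _
          rw [h5, h7]
          norm_num at h6 ⊢
          exact h6
  have h4 : ∑ w ∈ A, 1 / (nm w : ℝ) ≤ ∑ w ∈ A1, 1 / (nm w : ℝ) + ∑ w ∈ A2, 1 / (nm w : ℝ) +
      ∑ w ∈ A3, 1 / (nm w : ℝ) := by
    have hnn : ∀ s : Finset G, 0 ≤ ∑ w ∈ s, 1 / (nm w : ℝ) := fun s =>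
      Finset.sum_nonneg fun w _ => by positivity
    have e1 := Finset.sum_union_inter (s₁ := A1 ∪ A2) (s₂ := A3) (f := fun w : G => 1 / (nm w : ℝ))
    have e2 := Finset.sum_union_inter (s₁ := A1) (s₂ := A2) (f := fun w : G => 1 / (nm w : ℝ))
    rw [← hsplit] at e1
    have e3 := hnn ((A1 ∪ A2) ∩ A3)
    have e4 := hnn (A1 ∩ A2)
    linarith
  have h5 := hC y' y hy' hyy
  have h6 := (abs_le.1 h5).2
  have h7 : C ≤ |C| := le_abs_self C
  linarith

end Pool.Agent.GaussMR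

end
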