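import Mathlib
import Pool.Agent.Lib_MP_f1a94e_m.G01

/-!
# MP_f1a94e_nt: merged library part G07

Concatenation of files of the libraries `Lib_MP_f1a94e_*` (each in its own section), only to save build time.
-/

/-! ### from `Lib_MP_f1a94e_aq.Kern` -/

section

/-!
# Piece KERN: bounds for the kernels
-/

set_option autoImplicit false

namespace Pool.Agent.OmAll

open Pool.Agent.GaussMR

theorem Kf_nonneg (a t : ℝ) (ha : 0 ≤ a) : 0 ≤ Kf a t := by
  unfold Kf
  positivity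

theorem Kf_cont (a : ℝ) : Continuous (Kf a) := by
  unfold Kf
  have h := Real.continuous_sinc
  fun_prop

theorem Kf_le (a t : ℝ) (ha : 0 ≤ a) : Kf a t ≤ a := by
  unfold Kf
  have h1 : Real.sinc (a * t / 2) ^ 2 ≤ 1 := by
    rw [sq_le_one_iff_abs_le_one, abs_le]
    exact ⟨Real.neg_one_le_sinc _, Real.sinc_le_one _⟩
  calc a * Real.sinc (a * t / 2) ^ 2 ≤ a * 1 := mul_le_mul_of_nonneg_left h1 ha
    _ = a := mul_one a

/-- `t^2 Kf a t = 4 sin^2 (a t / 2) / a` -/
theorem Kf_le_sq (a t : ℝ) (ha : 0 < a) (ht : t ≠ 0) : Kf a t ≤ 4 / (a * t ^ 2) := by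
  unfold Kf
  have hu : a * t / 2 ≠ 0 := by positivity
  rw [Real.sinc_of_ne_zero hu, div_pow]
  have h1 : Real.sin (a * t / 2) ^ 2 ≤ 1 := Real.sin_sq_le_one _
  have h2 : (0 : ℝ) < (a * t / 2) ^ 2 := by positivity
  calc a * (Real.sin (a * t / 2) ^ 2 / (a * t / 2) ^ 2) ≤ a * (1 / (a * t / 2) ^ 2) :=
        mul_le_mul_of_nonneg_left (div_le_div_of_nonneg_right h1 h2.le) ha.le
    _ = 4 / (a * t ^ 2) := by
        field_simp
        norm_num

/-- `sin u ≥ (2 / π) u` on `[0, π / 2]` -/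
theorem Kf_ge (a t : ℝ) (ha : 0 < a) (ht : |a * t| ≤ Real.pi) : a * (2 / Real.pi) ^ 2 ≤ Kf a t := by
  unfold Kf
  apply mul_le_mul_of_nonneg_left _ ha.le
  have hpi := Real.pi_pos
  have key : ∀ u : ℝ, 0 ≤ u → u ≤ Real.pi / 2 → 2 / Real.pi ≤ Real.sinc u := by
    intro u h0 h1
    rcases h0.eq_or_lt with h | h
    · rw [← h, Real.sinc_zero, div_le_one hpi]
      linarith [Real.pi_gt_three]
    · rw [Real.sinc_of_ne_zero h.ne', le_div_iff₀ h]
      exact Real.mul_le_sin h0 h1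
  have h2 : 2 / Real.pi ≤ Real.sinc (a * t / 2) := by
    rw [abs_le] at ht
    rcases le_total 0 (a * t / 2) with h | h
    · exact key _ h (by linarith)
    · rw [← Real.sinc_neg]
      exact key _ (by linarith) (by linarith)
  exact pow_le_pow_left₀ (by positivity) h2 2

theorem Kf_even (a t : ℝ) : Kf a (-t) = Kf a t := by
  unfold Kf
  rw [show a * -t / 2 = -(a * t / 2) by ring, Real.sinc_neg]

theorem Hf_cont (a b : ℝ) : Continuous (Hf a b) := by
  unfold Hf
  exact (Kf_cont a).sub (Kf_cont b)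

/-- `|Hf a b t| ≤ B / (1 + t^2)`, `B = max` of the bounds: `2 b` for `|t| ≤ 1`, `8 / (a t^2)` for `|t| ≥ 1`, e.g. `B = 4 b + 16 / a`. -/
theorem Hf_le (a b t : ℝ) (ha : 0 < a) (hab : a ≤ b) : |Hf a b t| ≤ (4 * b + 16 / a) / (1 + t ^ 2) := by
  have hb : 0 < b := lt_of_lt_of_le ha hab
  have h1 := Kf_nonneg a t ha.le
  have h2 := Kf_nonneg b t hb.le
  have h0 : (0 : ℝ) < 1 + t ^ 2 := by positivity
  have hmax : ∀ B : ℝ, Kf a t ≤ B → Kf b t ≤ B → |Hf a b t| ≤ B := by
    intro B hA hB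
    unfold Hf
    rw [abs_le]
    constructor <;> linarith
  rcases le_or_gt (t ^ 2) 1 with ht | ht
  · have h3 : b ≤ (4 * b + 16 / a) / (1 + t ^ 2) := by
      rw [le_div_iff₀ h0]
      have : 0 < 16 / a := by positivity
      nlinarith
    exact hmax _ ((Kf_le a t ha.le).trans (hab.trans h3)) ((Kf_le b t hb.le).trans h3)
  · have ht0 : t ≠ 0 := by
      rintro rfl
      norm_num at ht
    have h3 : 4 / (a * t ^ 2) ≤ (4 * b + 16 / a) / (1 + t ^ 2) := by
      have h4 : 4 / (a * t ^ 2) ≤ (16 / a) / (1 + t ^ 2) := by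
        rw [div_div, div_le_div_iff₀ (by positivity) (by positivity)]
        nlinarith
      refine h4.trans (div_le_div_of_nonneg_right ?_ h0.le)
      linarith
    have h5 : 4 / (b * t ^ 2) ≤ 4 / (a * t ^ 2) := by
      apply div_le_div_of_nonneg_left (by norm_num) (by positivity)
      exact mul_le_mul_of_nonneg_right hab (by positivity)
    exact hmax _ ((Kf_le_sq a t ha ht0).trans h3) ((Kf_le_sq b t hb ht0).trans (h5.trans h3))

end Pool.Agent.OmAll

end

/-! ### from `Lib_MP_f1a94e_mr.Ball` -/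

section

/-!
# Piece BALL: counting Gaussian integers in discs
-/

set_option autoImplicit false

namespace Pool.Agent.GaussMR

open MeasureTheory

/-- the half open unit square around `z` -/
def sqr (z : G) : Set ℂ :=
  Complex.measurableEquivRealProd ⁻¹'
    (Set.Ico ((z.re : ℝ) - 1 / 2) (z.re + 1 / 2) ×ˢ Set.Ico ((z.im : ℝ) - 1 / 2) (z.im + 1 / 2))

theorem mem_sqr {z : G} {w : ℂ} : w ∈ sqr z ↔
    ((z.re : ℝ) - 1 / 2 ≤ w.re ∧ w.re < z.re + 1 / 2) ∧
      ((z.im : ℝ) - 1 / 2 ≤ w.im ∧ w.im < z.im + 1 / 2) := by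
  unfold sqr
  rw [Set.mem_preimage, Set.mem_prod, Set.mem_Ico, Set.mem_Ico]
  rfl

theorem measurableSet_sqr (z : G) : MeasurableSet (sqr z) :=
  Complex.measurableEquivRealProd.measurable (measurableSet_Ico.prod measurableSet_Ico)

theorem volume_sqr (z : G) : volume (sqr z) = 1 := by
  unfold sqr
  rw [Complex.volume_preserving_equiv_real_prod.measure_preimage
    (measurableSet_Ico.prod measurableSet_Ico).nullMeasurableSet, Measure.volume_eq_prod,
    Measure.prod_prod, Real.volume_Ico, Real.volume_Ico]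
  have h : ∀ x : ℝ, x + 1 / 2 - (x - 1 / 2) = 1 := fun x => by ring
  rw [h, h, ENNReal.ofReal_one, one_mul]

theorem disjoint_sqr {z w : G} (h : z ≠ w) : Disjoint (sqr z) (sqr w) := by
  rw [Set.disjoint_left]
  intro x hx hy
  rw [mem_sqr] at hx hy
  apply h
  have key : ∀ a b : ℤ, ∀ y : ℝ, (a : ℝ) - 1 / 2 ≤ y → y < a + 1 / 2 → (b : ℝ) - 1 / 2 ≤ y →
      y < b + 1 / 2 → a = b := by
    intro a b y h1 h2 h3 h4
    have e1 : (a : ℝ) < b + 1 := by linarith
    have e2 : (b : ℝ) < a + 1 := by linarith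
    have e1' : a < b + 1 := by exact_mod_cast e1
    have e2' : b < a + 1 := by exact_mod_cast e2
    omega
  apply Zsqrtd.ext
  · exact key _ _ _ hx.1.1 hx.1.2 hy.1.1 hy.1.2
  · exact key _ _ _ hx.2.1 hx.2.2 hy.2.1 hy.2.2

theorem volume_union_sqr (S : Finset G) : volume (⋃ z ∈ S, sqr z) = (S.card : ENNReal) := by
  rw [measure_biUnion_finset (fun z _ w _ h => disjoint_sqr h) (fun z _ => measurableSet_sqr z)]
  simp [volume_sqr]

theorem dist_sqr {z : G} {w : ℂ} (h : w ∈ sqr z) : ‖(z : ℂ) - w‖ < 1 := by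
  rw [mem_sqr] at h
  have h1 : ‖(z : ℂ) - w‖ ^ 2 < 1 := by
    rw [← Complex.normSq_eq_norm_sq, Complex.normSq_apply]
    simp only [Complex.sub_re, Complex.sub_im, ← GaussianInt.intCast_re, ← GaussianInt.intCast_im]
    have a1 : |((z.re : ℝ)) - w.re| ≤ 1 / 2 := by
      rw [abs_le]; constructor <;> linarith [h.1.1, h.1.2]
    have a2 : |((z.im : ℝ)) - w.im| ≤ 1 / 2 := by
      rw [abs_le]; constructor <;> linarith [h.2.1, h.2.2]
    have b1 := abs_le.1 a1
    have b2 := abs_le.1 a2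
    nlinarith
  nlinarith [norm_nonneg ((z : ℂ) - w)]

theorem card_ball_upper (t : ℝ) :
    ((ball t).card : ℝ) ≤ Real.pi * (Real.sqrt t + 1) ^ 2 := by
  have hsub : (⋃ z ∈ ball t, sqr z) ⊆ Metric.ball (0 : ℂ) (Real.sqrt t + 1) := by
    intro w hw
    rw [Set.mem_iUnion₂] at hw
    obtain ⟨z, hz, hw⟩ := hw
    rw [mem_ball] at hz
    rw [mem_ball_zero_iff]
    have h1 := dist_sqr hw
    have h2 : ‖(z : ℂ)‖ ≤ Real.sqrt t := by
      rw [norm_eq_sqrt]
      exact Real.sqrt_le_sqrt hz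
    have h3 : ‖w‖ ≤ ‖(z : ℂ)‖ + ‖(z : ℂ) - w‖ := by
      have := norm_sub_le (z : ℂ) ((z : ℂ) - w)
      rwa [sub_sub_cancel] at this
    linarith
  have h1 := measure_mono (μ := volume) hsub
  rw [volume_union_sqr, Complex.volume_ball] at h1
  have hs : 0 ≤ Real.sqrt t + 1 := by positivity
  have h2 : ENNReal.ofReal (Real.sqrt t + 1) ^ 2 * (NNReal.pi : ENNReal) =
      ENNReal.ofReal (Real.pi * (Real.sqrt t + 1) ^ 2) := by
    rw [mul_comm, ENNReal.ofReal_mul Real.pi_pos.le, ENNReal.ofReal_pow hs]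
    congr 1
    rw [← NNReal.coe_real_pi, ENNReal.ofReal_coe_nnreal]
  rw [h2] at h1
  have h3 : ENNReal.ofReal ((ball t).card : ℝ) ≤
      ENNReal.ofReal (Real.pi * (Real.sqrt t + 1) ^ 2) := by
    rwa [ENNReal.ofReal_natCast]
  exact (ENNReal.ofReal_le_ofReal_iff (by positivity)).1 h3

theorem card_ball_lower (t : ℝ) (ht : 1 ≤ t) :
    Real.pi * (Real.sqrt t - 1) ^ 2 ≤ ((ball t).card : ℝ) := by
  have hs1 : 1 ≤ Real.sqrt t := Real.one_le_sqrt.2 ht
  have hsub : Metric.ball (0 : ℂ) (Real.sqrt t - 1) ⊆ ⋃ z ∈ ball t, sqr z := by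
    intro w hw
    rw [mem_ball_zero_iff] at hw
    set z : G := ⟨⌊w.re + 1 / 2⌋, ⌊w.im + 1 / 2⌋⟩ with hz
    have hwz : w ∈ sqr z := by
      rw [mem_sqr, hz]
      have a1 := Int.floor_le (w.re + 1 / 2)
      have a2 := Int.lt_floor_add_one (w.re + 1 / 2)
      have a3 := Int.floor_le (w.im + 1 / 2)
      have a4 := Int.lt_floor_add_one (w.im + 1 / 2)
      simp only
      refine ⟨⟨by linarith, by linarith⟩, by linarith, by linarith⟩
    rw [Set.mem_iUnion₂]
    refine ⟨z, ?_, hwz⟩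
    rw [mem_ball]
    have h1 := dist_sqr hwz
    have h3 : ‖(z : ℂ)‖ ≤ ‖(z : ℂ) - w‖ + ‖w‖ := by
      have := norm_add_le ((z : ℂ) - w) w
      rwa [sub_add_cancel] at this
    have h4 : ‖(z : ℂ)‖ ≤ Real.sqrt t := by linarith
    have h5 : ‖(z : ℂ)‖ ^ 2 ≤ Real.sqrt t ^ 2 := pow_le_pow_left₀ (norm_nonneg _) h4 2
    rwa [norm_sq_eq, Real.sq_sqrt (by linarith)] at h5
  have h1 := measure_mono (μ := volume) hsub
  rw [volume_union_sqr, Complex.volume_ball] at h1
  have hs : 0 ≤ Real.sqrt t - 1 := by linarith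
  have h2 : ENNReal.ofReal (Real.sqrt t - 1) ^ 2 * (NNReal.pi : ENNReal) =
      ENNReal.ofReal (Real.pi * (Real.sqrt t - 1) ^ 2) := by
    rw [mul_comm, ENNReal.ofReal_mul Real.pi_pos.le, ENNReal.ofReal_pow hs]
    congr 1
    rw [← NNReal.coe_real_pi, ENNReal.ofReal_coe_nnreal]
  rw [h2] at h1
  have h3 : ENNReal.ofReal (Real.pi * (Real.sqrt t - 1) ^ 2) ≤
      ENNReal.ofReal ((ball t).card : ℝ) := by
    rwa [ENNReal.ofReal_natCast]
  exact (ENNReal.ofReal_le_ofReal_iff (by positivity)).1 h3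

/-- Gauss circle problem with the trivial error term, constant `π`. -/
theorem ball_asymp_pi (t : ℝ) (ht : 0 ≤ t) :
    |((ball t).card : ℝ) - Real.pi * t| ≤ 2 * Real.pi * (Real.sqrt t + 1) := by
  have hpi := Real.pi_pos
  have h1 := card_ball_upper t
  have hs0 := Real.sqrt_nonneg t
  have hss := Real.mul_self_sqrt ht
  rw [abs_le]
  constructor
  · rcases lt_or_ge t 1 with h | h
    · have h2 : (0 : ℝ) ≤ ((ball t).card : ℝ) := Nat.cast_nonneg _
      nlinarith
    · have h2 := card_ball_lower t h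
      nlinarith
  · nlinarith

/-- Gauss circle problem with the trivial error term. -/
theorem ball_asymp : ∃ κ C : ℝ, 0 < κ ∧ 0 < C ∧ ∀ t : ℝ, 0 ≤ t →
    |((ball t).card : ℝ) - κ * t| ≤ C * (Real.sqrt t + 1) :=
  ⟨Real.pi, 2 * Real.pi, Real.pi_pos, by positivity, fun t ht => ball_asymp_pi t ht⟩

open Classical in
theorem card_ob (t : ℝ) : ((ob t).card : ℝ) = (ball t).card - (ball (t / 2)).card := by
  have h1 : (ob t).card + ((ball t).filter (fun z => ¬ Odd (nm z))).card = (ball t).card := by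
    unfold ob
    exact Finset.card_filter_add_card_filter_not _
  have h2 : ((ball t).filter (fun z => ¬ Odd (nm z))).card = (ball (t / 2)).card := by
    symm
    apply Finset.card_bij (fun w _ => (⟨w.re - w.im, w.re + w.im⟩ : G))
    · intro w hw
      have e1 : nm (⟨w.re - w.im, w.re + w.im⟩ : G) = 2 * nm w := by
        have : (nm (⟨w.re - w.im, w.re + w.im⟩ : G) : ℤ) = 2 * nm w := by
          rw [nm_eq, nm_eq]; ring
        exact_mod_cast this
      rw [mem_ball] at hw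
      rw [Finset.mem_filter, mem_ball, e1]
      refine ⟨by push_cast; linarith, ?_⟩
      rw [Nat.not_odd_iff_even]
      exact even_two_mul _
    · intro w _ w' _ h
      have a1 := congrArg Zsqrtd.re h
      have a2 := congrArg Zsqrtd.im h
      simp only at a1 a2
      apply Zsqrtd.ext
      · omega
      · omega
    · intro z hz
      rw [Finset.mem_filter, mem_ball] at hz
      obtain ⟨hz1, hz2⟩ := hz
      rw [odd_nm_iff, Int.not_odd_iff_even] at hz2
      obtain ⟨c, hc⟩ := hz2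
      refine ⟨⟨c, z.im - c⟩, ?_, ?_⟩
      · rw [mem_ball]
        have e1 : 2 * nm (⟨c, z.im - c⟩ : G) = nm z := by
          have : 2 * (nm (⟨c, z.im - c⟩ : G) : ℤ) = nm z := by
            rw [nm_eq, nm_eq]
            simp only
            have : z.re = c + c - z.im := by linarith
            rw [this]
            ring
          exact_mod_cast this
        have e2 : (2 : ℝ) * (nm (⟨c, z.im - c⟩ : G) : ℝ) = nm z := by exact_mod_cast e1
        linarith
      · apply Zsqrtd.ext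
        · simp only; omega
        · simp only; omega
  rw [h2] at h1
  have h3 : ((ob t).card : ℝ) + (ball (t / 2)).card = (ball t).card := by exact_mod_cast h1
  linarith

theorem ob_eq_empty {t : ℝ} (ht : t < 1) : ob t = ∅ := by
  classical
  unfold ob
  rw [Finset.filter_eq_empty_iff]
  intro z hz h0
  rw [mem_ball] at hz
  have h2 := nm_pos_of_odd h0
  have h3 : (1 : ℝ) ≤ nm z := by exact_mod_cast h2
  linarith

/-- odd Gaussian integers -/
theorem odd_asymp : ∃ κ C : ℝ, 0 < κ ∧ 0 < C ∧ ∀ t : ℝ, 0 ≤ t →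
    |((ob t).card : ℝ) - κ * t| ≤ C * Real.sqrt t := by
  have hpi := Real.pi_pos
  refine ⟨Real.pi / 2, 8 * Real.pi, by positivity, by positivity, fun t ht => ?_⟩
  have hs0 := Real.sqrt_nonneg t
  have hss := Real.mul_self_sqrt ht
  rcases lt_or_ge t 1 with h | h
  · rw [ob_eq_empty h, Finset.card_empty, Nat.cast_zero, zero_sub, abs_neg,
      abs_of_nonneg (by positivity)]
    have h1 : Real.sqrt t ≤ 1 := Real.sqrt_le_one.2 h.le
    have h2 : t ≤ Real.sqrt t := by nlinarith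
    have h3 : Real.pi / 2 * t ≤ Real.pi / 2 * Real.sqrt t :=
      mul_le_mul_of_nonneg_left h2 (by positivity)
    have h4 : 0 ≤ Real.pi * Real.sqrt t := by positivity
    linarith
  · have h1 := ball_asymp_pi t ht
    have h2 := ball_asymp_pi (t / 2) (by linarith)
    have h3 : Real.sqrt (t / 2) ≤ Real.sqrt t := Real.sqrt_le_sqrt (by linarith)
    have h4 : 1 ≤ Real.sqrt t := Real.one_le_sqrt.2 h
    rw [card_ob, abs_le]
    rw [abs_le] at h1 h2
    have h5 : Real.pi * Real.sqrt (t / 2) ≤ Real.pi * Real.sqrt t :=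
      mul_le_mul_of_nonneg_left h3 hpi.le
    have h6 : Real.pi * 1 ≤ Real.pi * Real.sqrt t := mul_le_mul_of_nonneg_left h4 hpi.le
    constructor <;> nlinarith [h1.1, h1.2, h2.1, h2.2]

end Pool.Agent.GaussMR

end

/-! ### from `Lib_MP_f1a94e_mr.VAsymp` -/

section

/-!
# Piece VASYMP: counting odd primitive Gaussian integers
-/

set_option autoImplicit false

namespace Pool.Agent.GaussMR

open Filter Topology ArithmeticFunction

theorem card_V_le (X : ℝ) (hX : 0 ≤ X) : ((V X).card : ℝ) ≤ 9 * X := by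
  classical
  refine le_trans ?_ (card_ball_le X hX)
  have : V X ⊆ (ball X).filter (fun z => z ≠ 0) := by
    intro z hz
    rw [mem_V] at hz
    rw [Finset.mem_filter, mem_ball]
    exact ⟨hz.1, ne_zero_of_odd hz.2.1⟩
  exact_mod_cast Finset.card_le_card this

theorem mem_ob {t : ℝ} {z : G} : z ∈ ob t ↔ (nm z : ℝ) ≤ t ∧ Odd (nm z) := by
  classical
  simp [ob, mem_ball]

/-- the greatest common divisor of the coordinates -/
def gc (z : G) : ℕ := Int.gcd z.re z.im

theorem gc_sq_le (z : G) (hz : z ≠ 0) : gc z ^ 2 ≤ nm z := by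
  obtain ⟨a, ha⟩ := Int.gcd_dvd_left z.re z.im
  obtain ⟨b, hb⟩ := Int.gcd_dvd_right z.re z.im
  have h1 : (nm z : ℤ) = (gc z : ℤ) ^ 2 * (a ^ 2 + b ^ 2) := by
    rw [nm_eq]
    have e1 : z.re = (gc z : ℤ) * a := ha
    have e2 : z.im = (gc z : ℤ) * b := hb
    rw [e1, e2]
    ring
  have h2 : 0 < (nm z : ℤ) := by exact_mod_cast nm_pos hz
  have h3 : 0 < a ^ 2 + b ^ 2 := by
    by_contra hcon
    push Not at hcon
    nlinarith [sq_nonneg (gc z : ℤ)]
  have h4 : (gc z : ℤ) ^ 2 ≤ nm z := by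
    rw [h1]
    nlinarith [sq_nonneg (gc z : ℤ)]
  exact_mod_cast h4

theorem gc_pos (z : G) (hz : z ≠ 0) : 0 < gc z := by
  rw [gc, Int.gcd_pos_iff]
  by_contra hcon
  push Not at hcon
  exact hz (by apply Zsqrtd.ext <;> simp [hcon.1, hcon.2])

theorem prim_iff_gc (z : G) : Prim z ↔ gc z = 1 := by
  rw [Prim, gc, Int.isCoprime_iff_gcd_eq_one]

/-- the number of odd Gaussian integers divisible by `d` -/
theorem card_ob_dvd (X : ℝ) (d : ℕ) (hd : 0 < d) :
    ((ob X).filter (fun z => d ∣ gc z)).card =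
      if Odd d then (ob (X / (d : ℝ) ^ 2)).card else 0 := by
  split_ifs with hodd
  · symm
    apply Finset.card_bij (fun w _ => (⟨d * w.re, d * w.im⟩ : G))
    · intro w hw
      rw [mem_ob] at hw
      have e1 : nm (⟨d * w.re, d * w.im⟩ : G) = d ^ 2 * nm w := by
        have : (nm (⟨d * w.re, d * w.im⟩ : G) : ℤ) = d ^ 2 * nm w := by
          rw [nm_eq, nm_eq]; ring
        exact_mod_cast this
      rw [Finset.mem_filter, mem_ob, e1]
      have hd0 : (0 : ℝ) < (d : ℝ) ^ 2 := by positivity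
      have h1 := hw.1
      rw [le_div_iff₀ hd0] at h1
      refine ⟨⟨by push_cast; linarith, (hodd.pow).mul hw.2⟩, ?_⟩
      unfold gc
      rw [Int.dvd_gcd_iff]
      simp
    · intro w _ w' _ h
      have a1 := congrArg Zsqrtd.re h
      have a2 := congrArg Zsqrtd.im h
      simp only at a1 a2
      have hd0 : (d : ℤ) ≠ 0 := by exact_mod_cast hd.ne'
      apply Zsqrtd.ext
      · exact mul_left_cancel₀ hd0 a1
      · exact mul_left_cancel₀ hd0 a2
    · intro z hz
      rw [Finset.mem_filter, mem_ob] at hz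
      obtain ⟨⟨hz1, hz2⟩, hz3⟩ := hz
      have h1 : (d : ℤ) ∣ z.re := (Int.natCast_dvd_natCast.2 hz3).trans (Int.gcd_dvd_left _ _)
      have h2 : (d : ℤ) ∣ z.im := (Int.natCast_dvd_natCast.2 hz3).trans (Int.gcd_dvd_right _ _)
      obtain ⟨a, ha⟩ := h1
      obtain ⟨b, hb⟩ := h2
      have e1 : nm z = d ^ 2 * nm (⟨a, b⟩ : G) := by
        have : (nm z : ℤ) = d ^ 2 * nm (⟨a, b⟩ : G) := by
          rw [nm_eq, nm_eq, ha, hb]; ring
        exact_mod_cast this
      refine ⟨⟨a, b⟩, ?_, ?_⟩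
      · rw [mem_ob]
        have hd0 : (0 : ℝ) < (d : ℝ) ^ 2 := by positivity
        rw [le_div_iff₀ hd0]
        rw [e1] at hz1 hz2
        push_cast at hz1
        exact ⟨by linarith, (Nat.odd_mul.1 hz2).2⟩
      · apply Zsqrtd.ext
        · simp [ha]
        · simp [hb]
  · rw [Finset.card_eq_zero, Finset.filter_eq_empty_iff]
    intro z hz hdz
    rw [mem_ob] at hz
    rw [Nat.not_odd_iff_even] at hodd
    have h1 : (2 : ℤ) ∣ z.re := (Int.natCast_dvd_natCast.2 ((even_iff_two_dvd.1 hodd).trans hdz)).trans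
      (Int.gcd_dvd_left _ _)
    have h2 : (2 : ℤ) ∣ z.im := (Int.natCast_dvd_natCast.2 ((even_iff_two_dvd.1 hodd).trans hdz)).trans
      (Int.gcd_dvd_right _ _)
    have h3 := odd_nm_iff.1 hz.2
    rw [Int.odd_iff] at h3
    omega

/-- Moebius inversion -/
theorem card_V_eq (X : ℝ) (D : ℕ) (hD : Real.sqrt X ≤ D + 1) (hX : 0 ≤ X) :
    ((V X).card : ℝ) =
      ∑ d ∈ Finset.range (D + 2), (if Odd d then (moebius d : ℝ) * (ob (X / (d : ℝ) ^ 2)).card
        else 0) := by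
  classical
  have h1 : ((V X).card : ℝ) = ∑ z ∈ ob X, if gc z = 1 then (1 : ℝ) else 0 := by
    rw [Finset.sum_ite, Finset.sum_const_zero, add_zero, Finset.sum_const, nsmul_eq_mul, mul_one]
    congr 2
    ext z
    rw [mem_V, Finset.mem_filter, mem_ob, prim_iff_gc, and_assoc]
  have h2 : ∀ z ∈ ob X, (if gc z = 1 then (1 : ℝ) else 0) =
      ∑ d ∈ Finset.range (D + 2), if (d ∣ gc z ∧ d ≠ 0) then (moebius d : ℝ) else 0 := by
    intro z hz
    rw [mem_ob] at hz
    have hz0 := ne_zero_of_odd hz.2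
    have hg := gc_pos z hz0
    have hgD : gc z ≤ D + 1 := by
      have a1 : ((gc z ^ 2 : ℕ) : ℝ) ≤ X := le_trans (by exact_mod_cast gc_sq_le z hz0) hz.1
      push_cast at a1
      have a2 : (gc z : ℝ) ≤ Real.sqrt X := Real.le_sqrt_of_sq_le a1
      have a3 : (gc z : ℝ) ≤ D + 1 := a2.trans hD
      exact_mod_cast a3
    have h3 : ∑ d ∈ Finset.range (D + 2), (if (d ∣ gc z ∧ d ≠ 0) then (moebius d : ℝ) else 0) =
        ∑ d ∈ (gc z).divisors, (moebius d : ℝ) := by
      rw [← Finset.sum_filter]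
      apply Finset.sum_congr _ (fun _ _ => rfl)
      ext d
      rw [Finset.mem_filter, Finset.mem_range, Nat.mem_divisors]
      constructor
      · rintro ⟨_, b1, _⟩
        exact ⟨b1, hg.ne'⟩
      · rintro ⟨b1, b2⟩
        refine ⟨?_, b1, ?_⟩
        · have := Nat.le_of_dvd hg b1
          omega
        · rintro rfl
          exact b2 (zero_dvd_iff.1 b1)
    rw [h3]
    have h4 : ((∑ d ∈ (gc z).divisors, moebius d : ℤ) : ℝ) = if gc z = 1 then (1 : ℝ) else 0 := by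
      rw [← coe_mul_zeta_apply, moebius_mul_coe_zeta, one_apply]
      push_cast
      rfl
    rw [← h4]
    push_cast
    rfl
  rw [h1, Finset.sum_congr rfl h2, Finset.sum_comm]
  apply Finset.sum_congr rfl
  intro d _
  rcases Nat.eq_zero_or_pos d with rfl | hd
  · simp
  have h5 := card_ob_dvd X d hd
  have h6 : ∑ z ∈ ob X, (if (d ∣ gc z ∧ d ≠ 0) then (moebius d : ℝ) else 0) =
      (moebius d : ℝ) * ((ob X).filter (fun z => d ∣ gc z)).card := by
    have : ∀ z ∈ ob X, (if (d ∣ gc z ∧ d ≠ 0) then (moebius d : ℝ) else 0) =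
        if d ∣ gc z then (moebius d : ℝ) else 0 := by
      intro z _
      simp [hd.ne']
    rw [Finset.sum_congr rfl this, ← Finset.sum_filter, Finset.sum_const, nsmul_eq_mul, mul_comm]
  rw [h6, h5]
  split_ifs <;> simp

/-- the coefficients `μ(d) / d ^ 2`, `d` odd -/
noncomputable def cf (d : ℕ) : ℝ := if Odd d then (moebius d : ℝ) / (d : ℝ) ^ 2 else 0

theorem abs_moebius_le (d : ℕ) : |(moebius d : ℝ)| ≤ 1 := by
  have h := abs_moebius_le_one (n := d)
  exact_mod_cast h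

theorem abs_cf_le (d : ℕ) : |cf d| ≤ ((d : ℝ) ^ 2)⁻¹ := by
  unfold cf
  split_ifs with h
  · rw [abs_div, abs_of_nonneg (by positivity : (0 : ℝ) ≤ (d : ℝ) ^ 2), div_eq_mul_inv]
    have h1 := abs_moebius_le d
    have h2 : 0 ≤ ((d : ℝ) ^ 2)⁻¹ := by positivity
    nlinarith
  · rw [abs_zero]; positivity

theorem summable_cf : Summable cf := by
  apply Summable.of_norm_bounded (g := fun d : ℕ => ((d : ℝ) ^ 2)⁻¹)
  · have := Real.summable_nat_pow_inv (p := 2)
    exact this.2 (by norm_num)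
  · intro d
    exact abs_cf_le d

theorem cf_tail (n : ℕ) : |∑' d, cf d - ∑ d ∈ Finset.range (n + 1), cf d| ≤ 2 / (n + 1) := by
  have h1 : Tendsto (fun N => |∑ d ∈ Finset.range N, cf d - ∑ d ∈ Finset.range (n + 1), cf d|) atTop
      (𝓝 |∑' d, cf d - ∑ d ∈ Finset.range (n + 1), cf d|) :=
    ((summable_cf.hasSum.tendsto_sum_nat).sub_const _).abs
  refine le_of_tendsto h1 ?_
  filter_upwards [eventually_ge_atTop (n + 1)] with N hN
  rw [← Finset.sum_range_add_sum_Ico _ hN, add_sub_cancel_left]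
  refine (Finset.abs_sum_le_sum_abs _ _).trans ?_
  have h2 : ∑ d ∈ Finset.Ico (n + 1) N, |cf d| ≤ ∑ d ∈ Finset.Ioo n N, ((d : ℝ) ^ 2)⁻¹ := by
    have : Finset.Ico (n + 1) N = Finset.Ioo n N := by
      ext x; simp only [Finset.mem_Ico, Finset.mem_Ioo]; omega
    rw [this]
    exact Finset.sum_le_sum fun d _ => abs_cf_le d
  exact h2.trans (sum_Ioo_inv_sq_le n N)

theorem cf_pos : 0 < ∑' d, cf d := by
  -- partial sums are at least `3/4`
  have key : ∀ n : ℕ, |∑ d ∈ Finset.Ico 3 (n + 3), cf d| ≤ 1 / 4 := by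
    intro n
    have h : ∀ n : ℕ, ∑ d ∈ Finset.Ico 3 (2 * n + 3), |cf d| ≤ 1 / 4 - 1 / (4 * (n + 1)) := by
      intro n
      induction n with
      | zero => simp
      | succ n ih =>
        have e1 : 2 * (n + 1) + 3 = (2 * n + 3 + 1) + 1 := by ring
        rw [e1, Finset.sum_Ico_succ_top (by omega), Finset.sum_Ico_succ_top (by omega)]
        have e2 : cf (2 * n + 3 + 1) = 0 := by
          unfold cf
          rw [if_neg]
          rw [Nat.not_odd_iff_even]
          exact ⟨n + 2, by ring⟩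
        rw [e2, abs_zero, add_zero]
        have e3 := abs_cf_le (2 * n + 3)
        push_cast at e3 ⊢
        have e4 : ((2 * (n : ℝ) + 3) ^ 2)⁻¹ ≤
              1 / (4 * ((n : ℝ) + 1)) - 1 / (4 * ((n : ℝ) + 1 + 1)) := by
          have : 1 / (4 * ((n : ℝ) + 1)) - 1 / (4 * (n + 1 + 1)) = 1 / (4 * (n + 1) * (n + 1 + 1)) := by
            field_simp
            ring
          rw [this, ← one_div]
          apply one_div_le_one_div_of_le (by positivity)
          nlinarith [(Nat.cast_nonneg n : (0 : ℝ) ≤ n)]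
        linarith
    have h2 : ∑ d ∈ Finset.Ico 3 (n + 3), |cf d| ≤ ∑ d ∈ Finset.Ico 3 (2 * n + 3), |cf d| := by
      apply Finset.sum_le_sum_of_subset_of_nonneg
      · apply Finset.Ico_subset_Ico_right
        omega
      · intro d _ _
        exact abs_nonneg _
    have h3 : (0 : ℝ) < 1 / (4 * ((n : ℝ) + 1)) := by positivity
    exact (Finset.abs_sum_le_sum_abs _ _).trans (h2.trans (by linarith [h n]))
  have h1 : Tendsto (fun n => ∑ d ∈ Finset.range (n + 3), cf d) atTop (𝓝 (∑' d, cf d)) :=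
    summable_cf.hasSum.tendsto_sum_nat.comp (tendsto_add_atTop_nat 3)
  have h2 : (3 / 4 : ℝ) ≤ ∑' d, cf d := by
    refine ge_of_tendsto' h1 fun n => ?_
    rw [← Finset.sum_range_add_sum_Ico _ (by omega : 3 ≤ n + 3)]
    have e1 : ∑ d ∈ Finset.range 3, cf d = 1 := by
      rw [Finset.sum_range_succ, Finset.sum_range_succ, Finset.sum_range_one]
      have a0 : cf 0 = 0 := by simp [cf]
      have a1 : cf 1 = 1 := by simp [cf]
      have a2 : cf 2 = 0 := by
        unfold cf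
        rw [if_neg (by decide)]
      rw [a0, a1, a2]
      norm_num
    rw [e1]
    have := (abs_le.1 (key n)).1
    linarith
  linarith

theorem log_ge_one {X : ℝ} (hX : 0 ≤ X) : 1 ≤ Real.log (X + 3) := by
  rw [Real.le_log_iff_exp_le (by linarith)]
  have := Real.exp_one_lt_d9
  linarith

theorem V_asymp : ∃ κ C : ℝ, 0 < κ ∧ 0 < C ∧ ∀ X : ℝ, 0 ≤ X →
    |((V X).card : ℝ) - κ * X| ≤ C * Real.sqrt X * Real.log (X + 3) := by
  obtain ⟨κ, C, hκ, hC, h⟩ := odd_asymp
  set σ : ℝ := ∑' d, cf d with hσ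
  have hσ0 : 0 < σ := cf_pos
  refine ⟨κ * σ, 4 * C + 2 * κ, by positivity, by positivity, fun X hX => ?_⟩
  set D : ℕ := ⌊Real.sqrt X⌋₊ with hD
  have hs0 := Real.sqrt_nonneg X
  have hss := Real.mul_self_sqrt hX
  have hD1 : (D : ℝ) ≤ Real.sqrt X := Nat.floor_le hs0
  have hD2 : Real.sqrt X < D + 1 := Nat.lt_floor_add_one _
  have hlog := log_ge_one hX
  rw [card_V_eq X D hD2.le hX]
  -- the main term
  have hterm : ∀ d ∈ Finset.range (D + 2), |(if Odd d then (moebius d : ℝ) *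
      (ob (X / (d : ℝ) ^ 2)).card else 0) - κ * X * cf d| ≤ C * Real.sqrt X * ((d : ℝ))⁻¹ := by
    intro d _
    unfold cf
    split_ifs with hodd
    · have hd0 : (0 : ℝ) < d := by
        have : 0 < d := hodd.pos
        exact_mod_cast this
      have h1 := h (X / (d : ℝ) ^ 2) (by positivity)
      have h2 : Real.sqrt (X / (d : ℝ) ^ 2) = Real.sqrt X * (d : ℝ)⁻¹ := by
        rw [Real.sqrt_div' _ (by positivity), Real.sqrt_sq hd0.le, div_eq_mul_inv]
      have h3 : (moebius d : ℝ) * ((ob (X / (d : ℝ) ^ 2)).card : ℝ) -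
          κ * X * ((moebius d : ℝ) / (d : ℝ) ^ 2) =
          (moebius d : ℝ) * (((ob (X / (d : ℝ) ^ 2)).card : ℝ) - κ * (X / (d : ℝ) ^ 2)) := by
        ring
      rw [h3, abs_mul]
      have h4 := abs_moebius_le d
      rw [h2] at h1
      calc |(moebius d : ℝ)| * |((ob (X / (d : ℝ) ^ 2)).card : ℝ) - κ * (X / (d : ℝ) ^ 2)|
          ≤ 1 * (C * (Real.sqrt X * (d : ℝ)⁻¹)) :=
            mul_le_mul h4 h1 (abs_nonneg _) (by norm_num)
        _ = C * Real.sqrt X * (d : ℝ)⁻¹ := by ring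
    · rw [mul_zero, sub_zero, abs_zero]
      positivity
  have hsum1 : |∑ d ∈ Finset.range (D + 2), (if Odd d then (moebius d : ℝ) *
      (ob (X / (d : ℝ) ^ 2)).card else 0) - κ * X * ∑ d ∈ Finset.range (D + 2), cf d| ≤
      C * Real.sqrt X * ∑ d ∈ Finset.range (D + 2), ((d : ℝ))⁻¹ := by
    rw [Finset.mul_sum, Finset.mul_sum, ← Finset.sum_sub_distrib]
    exact (Finset.abs_sum_le_sum_abs _ _).trans (Finset.sum_le_sum hterm)
  -- the harmonic sum
  have hharm : ∑ d ∈ Finset.range (D + 2), ((d : ℝ))⁻¹ ≤ 4 * Real.log (X + 3) := by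
    have e1 : ∑ d ∈ Finset.range (D + 2), ((d : ℝ))⁻¹ = (harmonic (D + 1) : ℝ) := by
      rw [Finset.sum_range_succ', harmonic]
      push_cast
      simp
    rw [e1]
    have e2 := harmonic_le_one_add_log (D + 1)
    have e3 : Real.log ((D + 1 : ℕ) : ℝ) ≤ Real.log (X + 3) := by
      apply Real.log_le_log (by positivity)
      push_cast
      have : Real.sqrt X ≤ X + 1 := by nlinarith [sq_nonneg (Real.sqrt X - 1)]
      linarith
    linarith
  -- the tail
  have htail := cf_tail (D + 1)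
  push_cast at htail
  have hA : |κ * X * ∑ d ∈ Finset.range (D + 2), cf d - κ * σ * X| ≤ 2 * κ * Real.sqrt X := by
    have e1 : κ * X * ∑ d ∈ Finset.range (D + 2), cf d - κ * σ * X =
        -(κ * X * (σ - ∑ d ∈ Finset.range (D + 1 + 1), cf d)) := by ring
    rw [e1, abs_neg, abs_mul, abs_of_nonneg (by positivity : 0 ≤ κ * X)]
    have e2 : X * (2 / ((D : ℝ) + 1 + 1)) ≤ 2 * Real.sqrt X := by
      rw [mul_div_assoc', div_le_iff₀ (by positivity)]
      nlinarith
    calc κ * X * |σ - ∑ d ∈ Finset.range (D + 1 + 1), cf d|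
        ≤ κ * X * (2 / ((D : ℝ) + 1 + 1)) := mul_le_mul_of_nonneg_left htail (by positivity)
      _ = κ * (X * (2 / ((D : ℝ) + 1 + 1))) := by ring
      _ ≤ κ * (2 * Real.sqrt X) := mul_le_mul_of_nonneg_left e2 hκ.le
      _ = 2 * κ * Real.sqrt X := by ring
  have htri := abs_sub_le (∑ d ∈ Finset.range (D + 2), (if Odd d then (moebius d : ℝ) *
      (ob (X / (d : ℝ) ^ 2)).card else 0)) (κ * X * ∑ d ∈ Finset.range (D + 2), cf d) (κ * σ * X)
  refine htri.trans ?_
  have hB : C * Real.sqrt X * ∑ d ∈ Finset.range (D + 2), ((d : ℝ))⁻¹ ≤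
      C * Real.sqrt X * (4 * Real.log (X + 3)) :=
    mul_le_mul_of_nonneg_left hharm (by positivity)
  have hE : 2 * κ * Real.sqrt X ≤ 2 * κ * Real.sqrt X * Real.log (X + 3) := by
    have : 0 ≤ 2 * κ * Real.sqrt X := by positivity
    nlinarith
  calc _ ≤ C * Real.sqrt X * (4 * Real.log (X + 3)) + 2 * κ * Real.sqrt X * Real.log (X + 3) := by
        linarith
    _ = (4 * C + 2 * κ) * Real.sqrt X * Real.log (X + 3) := by ring

/-- from `V_asymp` for large `X`, and `1 ∈ V X` for `X ≥ 1` -/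
theorem card_V_ge : ∃ c : ℝ, 0 < c ∧ ∀ X : ℝ, 1 ≤ X → c * X ≤ ((V X).card : ℝ) := by
  obtain ⟨κ, C, hκ, hC, h⟩ := V_asymp
  set A : ℝ := 32 * C / κ with hA
  have hA0 : 0 < A := by positivity
  set X0 : ℝ := A ^ 4 + 1 with hX0
  have hX00 : 0 < X0 := by positivity
  refine ⟨min (κ / 2) (1 / X0), lt_min (by positivity) (by positivity), fun X hX => ?_⟩
  have hX0' : 0 ≤ X := by linarith
  rcases le_total X X0 with h1 | h1
  · have h2 : (1 : ℝ) ≤ ((V X).card : ℝ) := by
      have : 0 < (V X).card := by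
        rw [Finset.card_pos]
        refine ⟨1, ?_⟩
        rw [mem_V, nm_one]
        refine ⟨by simpa using hX, odd_one, ?_⟩
        rw [prim_iff_gc]
        simp [gc]
      exact_mod_cast this
    calc min (κ / 2) (1 / X0) * X ≤ 1 / X0 * X :=
          mul_le_mul_of_nonneg_right (min_le_right _ _) hX0'
      _ ≤ 1 := by rw [div_mul_eq_mul_div, one_mul, div_le_one hX00]; exact h1
      _ ≤ _ := h2
  · -- large X
    set y : ℝ := X ^ (1 / 4 : ℝ) with hy
    have hy0 : 0 < y := by positivity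
    have hy4 : y ^ 4 = X := by
      rw [hy, ← Real.rpow_natCast, ← Real.rpow_mul hX0']
      norm_num
    have hyA : A ≤ y := by
      by_contra hcon
      push Not at hcon
      have : y ^ 4 < A ^ 4 := pow_lt_pow_left₀ hcon hy0.le (by norm_num)
      linarith
    have hsq : Real.sqrt X = y ^ 2 := by
      rw [← hy4, show y ^ 4 = (y ^ 2) ^ 2 by ring, Real.sqrt_sq (by positivity)]
    have hlog : Real.log (X + 3) ≤ 16 * y := by
      have h2 := Real.log_le_rpow_div (x := X + 3) (by linarith) (by norm_num : (0 : ℝ) < 1 / 4)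
      have h3 : (X + 3) ^ (1 / 4 : ℝ) ≤ (256 * X) ^ (1 / 4 : ℝ) :=
        Real.rpow_le_rpow (by linarith) (by linarith) (by norm_num)
      have h4 : (256 * X) ^ (1 / 4 : ℝ) = 4 * y := by
        rw [Real.mul_rpow (by norm_num) hX0']
        have : (256 : ℝ) ^ (1 / 4 : ℝ) = 4 := by
          rw [show (256 : ℝ) = 4 ^ (4 : ℝ) by norm_num, ← Real.rpow_mul (by norm_num)]
          norm_num
        rw [this]
      rw [h4] at h3
      have h5 : (X + 3) ^ (1 / 4 : ℝ) / (1 / 4) ≤ 4 * y / (1 / 4) :=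
        div_le_div_of_nonneg_right h3 (by norm_num)
      have h6 : 4 * y / (1 / 4) = 16 * y := by ring
      linarith
    have h2 := (abs_le.1 (h X hX0')).1
    have h3 : C * Real.sqrt X * Real.log (X + 3) ≤ κ / 2 * X := by
      rw [hsq]
      have e1 : C * y ^ 2 * Real.log (X + 3) ≤ C * y ^ 2 * (16 * y) :=
        mul_le_mul_of_nonneg_left hlog (by positivity)
      have e2 : 32 * C ≤ κ * y := by
        rw [hA, div_le_iff₀ hκ] at hyA
        linarith
      have e3 : C * y ^ 2 * (16 * y) = (32 * C) * (y ^ 3 / 2) := by ring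
      have e4 : (32 * C) * (y ^ 3 / 2) ≤ (κ * y) * (y ^ 3 / 2) :=
        mul_le_mul_of_nonneg_right e2 (by positivity)
      have e5 : (κ * y) * (y ^ 3 / 2) = κ / 2 * y ^ 4 := by ring
      rw [hy4] at e5
      linarith
    have h4 : κ / 2 * X ≤ ((V X).card : ℝ) := by linarith
    calc min (κ / 2) (1 / X0) * X ≤ κ / 2 * X :=
          mul_le_mul_of_nonneg_right (min_le_left _ _) hX0'
      _ ≤ _ := h4

end Pool.Agent.GaussMR

end

/-! ### from `Lib_MP_f1a94e_mr.Equid` -/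

section

/-!
# Piece EQUID: equidistribution of `V X` modulo split primes
-/

set_option autoImplicit false

namespace Pool.Agent.GaussMR

open Classical in
theorem ncard_V_eq (X : ℝ) (R : G → Prop) :
    Set.ncard {z : G | z ∈ V X ∧ R z} = ((V X).filter R).card := by
  rw [← Set.ncard_coe_finset, Finset.coe_filter]

open Classical in
/-- the multiples of a split prime -/
theorem card_mul_split (X : ℝ) (w : G) (hw : Spl w) (R : G → Prop) (hR : ∀ z, R (w * z) ↔ R z) :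
    ((V X).filter (fun z => w ∣ z ∧ R z)).card +
      ((V (X / nm w)).filter (fun z => star w ∣ z ∧ R z)).card =
      ((V (X / nm w)).filter R).card := by
  have hpos : (0 : ℝ) < nm w := by exact_mod_cast hw.1.pos
  have hw0 : w ≠ 0 := hw.prime.ne_zero
  have himg : (V X).filter (fun z => w ∣ z ∧ R z) =
      (((V (X / nm w)).filter R).filter (fun z => ¬ star w ∣ z)).image (fun z => w * z) := by
    ext z
    rw [Finset.mem_filter, Finset.mem_image]
    constructor
    · rintro ⟨hz, ⟨z', rfl⟩, hRz⟩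
      obtain ⟨h1, h2, h3⟩ := mem_V.mp hz
      have h4 := prim_of_mul h3
      have h5 := (odd_nm_mul.mp h2).2
      refine ⟨z', ?_, rfl⟩
      rw [Finset.mem_filter, Finset.mem_filter]
      refine ⟨⟨mem_V.mpr ⟨?_, h5, h4.2⟩, (hR z').mp hRz⟩, (prim_mul_iff hw h4.2).mp h3⟩
      rw [le_div_iff₀ hpos]
      rw [nm_mul] at h1
      push_cast at h1
      linarith
    · rintro ⟨z', hz', rfl⟩
      rw [Finset.mem_filter, Finset.mem_filter] at hz'
      obtain ⟨⟨hz1, hRz⟩, hns⟩ := hz'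
      obtain ⟨h1, h2, h3⟩ := mem_V.mp hz1
      refine ⟨mem_V.mpr ⟨?_, odd_nm_mul.mpr ⟨hw.odd, h2⟩, (prim_mul_iff hw h3).mpr hns⟩,
        dvd_mul_right _ _, (hR z').mpr hRz⟩
      rw [le_div_iff₀ hpos] at h1
      rw [nm_mul]
      push_cast
      linarith
  have hcard : ((V X).filter (fun z => w ∣ z ∧ R z)).card =
      (((V (X / nm w)).filter R).filter (fun z => ¬ star w ∣ z)).card := by
    rw [himg, Finset.card_image_of_injective]
    exact mul_right_injective₀ hw0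
  have hsplit := Finset.card_filter_add_card_filter_not (s := (V (X / nm w)).filter R)
    (fun z => star w ∣ z)
  have hsame : (V (X / nm w)).filter (fun z => star w ∣ z ∧ R z) =
      ((V (X / nm w)).filter R).filter (fun z => star w ∣ z) := by
    rw [Finset.filter_filter]
    apply Finset.filter_congr
    intro z _
    exact and_comm
  rw [hcard, hsame]
  omega

theorem V_empty (X : ℝ) (hX : X < 1) : V X = ∅ := by
  apply Finset.eq_empty_of_forall_notMem
  intro z hz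
  obtain ⟨h1, h2, _⟩ := mem_V.mp hz
  have h3 : 1 ≤ nm z := nm_pos_of_odd h2
  have h4 : (1 : ℝ) ≤ nm z := by exact_mod_cast h3
  linarith

theorem one_le_log3 (X : ℝ) (hX : 0 ≤ X) : 1 ≤ Real.log (X + 3) := by
  rw [Real.le_log_iff_exp_le (by linarith)]
  have := Real.exp_one_lt_d9
  linarith

theorem spl_five {w : G} (h : Spl w) : 5 ≤ nm w := by
  have h1 := h.1.two_le
  have h2 := h.2
  omega

open Classical in
/-- the recursion -/
theorem rec_equid (p : ℕ) (R : G → Prop) (μ C : ℝ) (hμ0 : 0 ≤ μ) (hμ : μ ≤ C)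
    (hM : ∀ X : ℝ, 0 ≤ X → |(((V X).filter R).card : ℝ) - μ * X| ≤
      C * Real.sqrt X * Real.log (X + 3))
    (hR : ∀ w, Spl w → nm w = p → ∀ z, R (w * z) ↔ R z) (n : ℕ) :
    ∀ X : ℝ, 0 ≤ X → X < 2 ^ n → ∀ w, Spl w → nm w = p →
      |(((V X).filter (fun z => w ∣ z ∧ R z)).card : ℝ) - μ * X / (p + 1)| ≤
        C * Real.sqrt X * Real.log (X + 3) := by
  have hC : 0 ≤ C := hμ0.trans hμ
  induction n with
  | zero =>
    intro X hX hX1 w _ _
    rw [pow_zero] at hX1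
    rw [V_empty X hX1, Finset.filter_empty, Finset.card_empty, Nat.cast_zero, zero_sub, abs_neg]
    have h1 : 0 ≤ μ * X / ((p : ℝ) + 1) := by positivity
    rw [abs_of_nonneg h1]
    have h2 : μ * X / ((p : ℝ) + 1) ≤ μ * X := by
      apply div_le_self (by positivity)
      have : (0 : ℝ) ≤ p := Nat.cast_nonneg p
      linarith
    have h3 : X ≤ Real.sqrt X := by
      apply Real.le_sqrt_of_sq_le
      nlinarith
    have h4 := one_le_log3 X hX
    calc μ * X / ((p : ℝ) + 1) ≤ μ * X := h2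
      _ ≤ C * Real.sqrt X := mul_le_mul hμ h3 hX hC
      _ = C * Real.sqrt X * 1 := (mul_one _).symm
      _ ≤ C * Real.sqrt X * Real.log (X + 3) :=
          mul_le_mul_of_nonneg_left h4 (by positivity)
  | succ n ih =>
    intro X hX hX1 w hw hwp
    have hp5 : 5 ≤ p := hwp ▸ spl_five hw
    have hp5' : (5 : ℝ) ≤ p := by exact_mod_cast hp5
    have hp0 : (0 : ℝ) < p := by linarith
    have hXp0 : 0 ≤ X / p := div_nonneg hX hp0.le
    have hXp1 : X / p < 2 ^ n := by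
      rw [div_lt_iff₀ hp0]
      rw [pow_succ] at hX1
      have h2n : (0 : ℝ) < 2 ^ n := by positivity
      nlinarith
    have h1 := ih (X / p) hXp0 hXp1 (star w) hw.conj (by rw [nm_star]; exact hwp)
    have h2 := hM (X / p) hXp0
    have h3 := card_mul_split X w hw R (hR w hw hwp)
    rw [hwp] at h3
    have h3' : (((V X).filter (fun z => w ∣ z ∧ R z)).card : ℝ) =
        (((V (X / p)).filter R).card : ℝ) -
          (((V (X / p)).filter (fun z => star w ∣ z ∧ R z)).card : ℝ) := by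
      rw [← h3]
      push_cast
      ring
    have hp1 : (p : ℝ) + 1 ≠ 0 := by positivity
    have h4 : (((V X).filter (fun z => w ∣ z ∧ R z)).card : ℝ) - μ * X / (p + 1) =
        ((((V (X / p)).filter R).card : ℝ) - μ * (X / p)) -
          ((((V (X / p)).filter (fun z => star w ∣ z ∧ R z)).card : ℝ) -
            μ * (X / p) / (p + 1)) := by
      rw [h3']
      field_simp
      ring
    rw [h4]
    refine (abs_sub _ _).trans ?_
    have hsq : Real.sqrt (X / p) ≤ Real.sqrt X / 2 := by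
      rw [Real.sqrt_le_left (by positivity), div_pow, Real.sq_sqrt hX]
      rw [div_le_div_iff₀ hp0 (by norm_num)]
      nlinarith
    have hlog : Real.log (X / p + 3) ≤ Real.log (X + 3) := by
      apply Real.log_le_log (by positivity)
      have : X / p ≤ X := div_le_self hX (by linarith)
      linarith
    have hlog0 : 0 ≤ Real.log (X / p + 3) := (zero_le_one.trans (one_le_log3 _ hXp0))
    have hkey : C * Real.sqrt (X / p) * Real.log (X / p + 3) ≤
        C * Real.sqrt X * Real.log (X + 3) / 2 := by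
      calc C * Real.sqrt (X / p) * Real.log (X / p + 3)
          ≤ C * (Real.sqrt X / 2) * Real.log (X + 3) := by
            apply mul_le_mul (mul_le_mul_of_nonneg_left hsq hC) hlog hlog0 (by positivity)
        _ = _ := by ring
    linarith

theorem equid : ∃ κ C : ℝ, 0 < κ ∧ 0 < C ∧
    (∀ X : ℝ, 0 ≤ X → |((V X).card : ℝ) - κ * X| ≤ C * Real.sqrt X * Real.log (X + 3)) ∧
    (∀ X : ℝ, 0 ≤ X → ∀ w : G, Spl w →
      |(Set.ncard {z : G | z ∈ V X ∧ w ∣ z} : ℝ) - κ * X / (nm w + 1)| ≤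
        C * Real.sqrt X * Real.log (X + 3)) ∧
    (∀ X : ℝ, 0 ≤ X → ∀ w w' : G, Spl w → Spl w' → nm w ≠ nm w' →
      |(Set.ncard {z : G | z ∈ V X ∧ w ∣ z ∧ w' ∣ z} : ℝ) - κ * X / ((nm w + 1) * (nm w' + 1))| ≤
        C * Real.sqrt X * Real.log (X + 3)) := by
  classical
  obtain ⟨κ, C0, hκ, hC0, hV⟩ := V_asymp
  set C := max C0 κ with hC
  have hCpos : 0 < C := lt_of_lt_of_le hC0 (le_max_left _ _)
  have hV' : ∀ X : ℝ, 0 ≤ X → |((V X).card : ℝ) - κ * X| ≤ C * Real.sqrt X * Real.log (X + 3) := by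
    intro X hX
    refine (hV X hX).trans ?_
    have h1 := one_le_log3 X hX
    apply mul_le_mul_of_nonneg_right _ (by linarith)
    exact mul_le_mul_of_nonneg_right (le_max_left _ _) (Real.sqrt_nonneg _)
  have hexists : ∀ X : ℝ, 0 ≤ X → ∃ n : ℕ, X < 2 ^ n := fun X _ =>
    pow_unbounded_of_one_lt X (by norm_num)
  have hone : ∀ X : ℝ, 0 ≤ X → ∀ w : G, Spl w →
      |(((V X).filter (fun z => w ∣ z)).card : ℝ) - κ * X / (nm w + 1)| ≤
        C * Real.sqrt X * Real.log (X + 3) := by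
    intro X hX w hw
    obtain ⟨n, hn⟩ := hexists X hX
    have h1 := rec_equid (nm w) (fun _ => True) κ C hκ.le (le_max_right _ _)
      (by
        intro Y hY
        rw [Finset.filter_true]
        exact hV' Y hY)
      (fun _ _ _ _ => Iff.rfl) n X hX hn w hw rfl
    simpa using h1
  refine ⟨κ, C, hκ, hCpos, hV', ?_, ?_⟩
  · intro X hX w hw
    rw [ncard_V_eq X (fun z => w ∣ z)]
    exact hone X hX w hw
  · intro X hX w w' hw hw' hne
    rw [ncard_V_eq X (fun z => w ∣ z ∧ w' ∣ z)]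
    obtain ⟨n, hn⟩ := hexists X hX
    have hpos' : (0 : ℝ) < (nm w' : ℝ) + 1 := by positivity
    have h1 := rec_equid (nm w) (fun z => w' ∣ z) (κ / (nm w' + 1)) C (by positivity)
      (by
        refine le_trans ?_ (le_max_right C0 κ)
        apply div_le_self hκ.le
        have : (0 : ℝ) ≤ nm w' := Nat.cast_nonneg _
        linarith)
      (by
        intro Y hY
        have h2 := hone Y hY w' hw'
        have h3 : κ / ((nm w' : ℝ) + 1) * Y = κ * Y / (nm w' + 1) := by ring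
        rw [h3]
        exact h2)
      (by
        intro v hv hvn z
        constructor
        · intro h
          have hcop : IsCoprime w' v := (hv.coprime hw' (by rw [hvn]; exact hne)).symm
          exact hcop.dvd_of_dvd_mul_left h
        · intro h
          exact h.mul_left _)
      n X hX hn w hw rfl
    have h4 : κ / ((nm w' : ℝ) + 1) * X / ((nm w : ℝ) + 1) =
        κ * X / ((nm w + 1) * (nm w' + 1)) := by
      have : (0 : ℝ) < (nm w : ℝ) + 1 := by positivity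
      field_simp
    rw [h4] at h1
    have h5 : ∀ (i1 i2 : DecidablePred (fun z : G => w ∣ z ∧ w' ∣ z)),
        (@Finset.filter _ (fun z => w ∣ z ∧ w' ∣ z) i1 (V X)).card =
        (@Finset.filter _ (fun z => w ∣ z ∧ w' ∣ z) i2 (V X)).card := by
      intro i1 i2
      have : i1 = i2 := Subsingleton.elim _ _
      rw [this]
    rw [h5]
    exact h1

end Pool.Agent.GaussMR

end

/-! ### from `Lib_MP_f1a94e_mr.Perm` -/

section

/-!
# Piece PERM: products of split primes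
-/

set_option autoImplicit false

namespace Pool.Agent.GaussMR

/-- products of elements of `PP` are odd and primitive (no prime `p` divides, since `w * star w ∣ ∏`
would force `star w` to be associated to some `x i`) -/
theorem prim_prod {l : ℕ} {P Q : ℝ} (x : Fin l → G) (hx : ∀ i, x i ∈ PP P Q) :
    Prim (∏ i, x i) ∧ Odd (nm (∏ i, x i)) := by
  induction l with
  | zero =>
    simp only [Finset.univ_eq_empty, Finset.prod_empty]
    exact ⟨prim_one, by rw [nm_one]; exact odd_one⟩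
  | succ l ih =>
    rw [Fin.prod_univ_succ]
    obtain ⟨h1, h2⟩ := ih (fun i => x i.succ) (fun i => hx i.succ)
    have h0 : Spl (x 0) := PP_spl (hx 0)
    refine ⟨?_, odd_nm_mul.2 ⟨h0.odd, h2⟩⟩
    rw [prim_mul_iff h0 h1]
    intro hd
    have hp : Prime (star (x 0)) := h0.conj.prime
    obtain ⟨i, -, hi⟩ := (hp.dvd_finsetProd_iff _).1 hd
    obtain ⟨c, hc⟩ := hi
    apply PP_not_dvd_star (hx 0) (hx i.succ)
    refine ⟨star c, ?_⟩
    rw [hc]
    rw [star_mul', star_star]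

/-- two functions on `Fin l` with the same multiset of values differ by a permutation -/
theorem exists_perm_of_map_eq {α : Type*} {l : ℕ} (x y : Fin l → α)
    (h : Multiset.map y Finset.univ.val = Multiset.map x Finset.univ.val) :
    ∃ σ : Equiv.Perm (Fin l), y = x ∘ σ := by
  classical
  have hc : ∀ c : α, Nonempty ({a // y a = c} ≃ {b // x b = c}) := by
    intro c
    apply Fintype.card_eq.1
    have h1 := congrArg (Multiset.count c) h
    rw [Multiset.count_map, Multiset.count_map] at h1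
    rw [Fintype.card_subtype, Fintype.card_subtype]
    have e1 : (Finset.univ.filter (fun a : Fin l => y a = c)).card =
        (Multiset.filter (fun a => c = y a) Finset.univ.val).card := by
      rw [← Finset.filter_val, Finset.card_def]
      congr 2
      ext a
      simp [eq_comm]
    have e2 : (Finset.univ.filter (fun a : Fin l => x a = c)).card =
        (Multiset.filter (fun a => c = x a) Finset.univ.val).card := by
      rw [← Finset.filter_val, Finset.card_def]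
      congr 2
      ext a
      simp [eq_comm]
    rw [e1, e2]
    exact h1
  refine ⟨Equiv.ofFiberEquiv (f := y) (g := x) (fun c => (hc c).some), ?_⟩
  funext i
  exact (Equiv.ofFiberEquiv_map (f := y) (g := x) (fun c => (hc c).some) i).symm

/-- unique factorisation: equal products of elements of `PP` come from permutations -/
theorem prod_fiber {l : ℕ} {P Q : ℝ} (x : Fin l → G) (hx : ∀ i, x i ∈ PP P Q) :
    Set.ncard {y : Fin l → G | (∀ i, y i ∈ PP P Q) ∧ ∏ i, y i = ∏ i, x i} ≤ l.factorial := by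
  have hsub : {y : Fin l → G | (∀ i, y i ∈ PP P Q) ∧ ∏ i, y i = ∏ i, x i} ⊆
      Set.range (fun σ : Equiv.Perm (Fin l) => x ∘ σ) := by
    rintro y ⟨hy, hprod⟩
    have hrel : Multiset.Rel Associated (Multiset.map y Finset.univ.val)
        (Multiset.map x Finset.univ.val) := by
      apply prime_factors_unique
      · intro a ha
        obtain ⟨i, -, rfl⟩ := Multiset.mem_map.1 ha
        exact (PP_spl (hy i)).prime
      · intro a ha
        obtain ⟨i, -, rfl⟩ := Multiset.mem_map.1 ha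
        exact (PP_spl (hx i)).prime
      · have e : (Multiset.map y Finset.univ.val).prod = (Multiset.map x Finset.univ.val).prod :=
          hprod
        rw [e]
        exact Associated.refl _
    have heq : Multiset.map y Finset.univ.val = Multiset.map x Finset.univ.val := by
      rw [← Multiset.rel_eq]
      refine hrel.mono ?_
      intro a ha b hb hab
      obtain ⟨i, -, rfl⟩ := Multiset.mem_map.1 ha
      obtain ⟨j, -, rfl⟩ := Multiset.mem_map.1 hb
      exact PP_dvd (hy i) (hx j) hab.dvd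
    obtain ⟨σ, hσ⟩ := exists_perm_of_map_eq x y heq
    exact ⟨σ, hσ.symm⟩
  refine (Set.ncard_le_ncard hsub (Set.finite_range _)).trans ?_
  rw [← Set.image_univ]
  refine (Set.ncard_image_le (Set.finite_univ)).trans ?_
  rw [Set.ncard_univ, Nat.card_eq_fintype_card, Fintype.card_perm, Fintype.card_fin]

end Pool.Agent.GaussMR

end

/-! ### from `Lib_MP_f1a94e_mr.PairsB` -/

section

/-!
# Piece PAIRSB: sum of the norms of the gcd of two products
-/

set_option autoImplicit false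

namespace Pool.Agent.GaussMR

/-- splitting a sum over functions at one coordinate -/
theorem pb_sum_insert {m : ℕ} (W : Finset G) (j : Fin (m + 1)) (f : (Fin (m + 1) → G) → ℝ) :
    ∑ y ∈ Fintype.piFinset (fun _ : Fin (m + 1) => W), f y =
      ∑ a ∈ W, ∑ y ∈ Fintype.piFinset (fun _ : Fin m => W), f (Fin.insertNth j a y) := by
  rw [← Finset.sum_product']
  symm
  refine Finset.sum_bij' (fun p _ => (Fin.insertNth j p.1 p.2 : Fin (m + 1) → G))
    (fun y _ => (y j, fun i => y (j.succAbove i))) ?_ ?_ ?_ ?_ ?_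
  · rintro ⟨a, y⟩ hp
    rw [Finset.mem_product] at hp
    rw [Fintype.mem_piFinset]
    intro i
    have h2 := Fintype.mem_piFinset.1 hp.2
    refine Fin.succAboveCases j ?_ (fun i => ?_) i
    · rw [Fin.insertNth_apply_same]
      exact hp.1
    · rw [Fin.insertNth_apply_succAbove]
      exact h2 i
  · intro y hy
    rw [Fintype.mem_piFinset] at hy
    rw [Finset.mem_product]
    refine ⟨hy j, ?_⟩
    rw [Fintype.mem_piFinset]
    intro i
    exact hy _
  · rintro ⟨a, y⟩ _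
    refine Prod.ext ?_ ?_
    · show (Fin.insertNth j a y : Fin (m + 1) → G) j = a
      simp
    · funext i
      show (Fin.insertNth j a y : Fin (m + 1) → G) (j.succAbove i) = y i
      simp
  · intro y _
    exact Fin.insertNth_self_removeNth j y
  · rintro ⟨a, y⟩ _
    rfl

theorem pb_prod_insert {m : ℕ} (j : Fin (m + 1)) (a : G) (y : Fin m → G) :
    ∏ i, (Fin.insertNth j a y : Fin (m + 1) → G) i = a * ∏ i, y i := by
  rw [Fin.prod_univ_succAbove _ j]
  simp

/-- number of elements -/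
theorem pb_card {P Q Y : ℝ} {W : Finset G} (hW : W ⊆ PP P Q) (hY : 1 ≤ Y)
    (h : ∀ w ∈ W, (nm w : ℝ) ≤ 3 * Y) : (W.card : ℝ) ≤ 3 * Y := by
  have h1 : W.card ≤ ⌊3 * Y⌋₊ := by
    have h2 : (W.image nm).card = W.card := by
      apply Finset.card_image_of_injOn
      intro a ha b hb hab
      exact PP_inj (hW ha) (hW hb) hab
    rw [← h2]
    have h3 : W.image nm ⊆ Finset.Icc 1 ⌊3 * Y⌋₊ := by
      intro n hn
      obtain ⟨w, hw, rfl⟩ := Finset.mem_image.1 hn
      rw [Finset.mem_Icc]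
      refine ⟨?_, Nat.le_floor (h w hw)⟩
      exact (mem_PP.1 (hW hw)).2.2.1.one_lt.le
    have h4 := Finset.card_le_card h3
    rwa [Nat.card_Icc, Nat.add_sub_cancel] at h4
  calc (W.card : ℝ) ≤ (⌊3 * Y⌋₊ : ℝ) := by exact_mod_cast h1
    _ ≤ 3 * Y := Nat.floor_le (by linarith)

theorem pb_nm_le {d e : G} (he : e ≠ 0) (h : d ∣ e) : nm d ≤ nm e :=
  Nat.le_of_dvd (nm_pos he) (nm_dvd h)

theorem pb_gcd_ne {a b : G} (ha : a ≠ 0) : EuclideanDomain.gcd a b ≠ 0 := by
  intro h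
  exact ha (EuclideanDomain.gcd_eq_zero_iff.1 h).1

theorem pb_gcd_coprime {w a b : G} (hw : Prime w) (ha : a ≠ 0) (hb : ¬(w ∣ b)) :
    nm (EuclideanDomain.gcd (w * a) b) ≤ nm (EuclideanDomain.gcd a b) := by
  apply pb_nm_le (pb_gcd_ne ha)
  apply EuclideanDomain.dvd_gcd
  · have h1 : EuclideanDomain.gcd (w * a) b ∣ w * a := EuclideanDomain.gcd_dvd_left _ _
    have h2 : ¬(w ∣ EuclideanDomain.gcd (w * a) b) := fun h =>
      hb (h.trans (EuclideanDomain.gcd_dvd_right _ _))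
    have h3 : IsCoprime w (EuclideanDomain.gcd (w * a) b) :=
      (hw.irreducible.coprime_iff_not_dvd).2 h2
    exact h3.symm.dvd_of_dvd_mul_left h1
  · exact EuclideanDomain.gcd_dvd_right _ _

theorem pb_gcd_mul {w a b : G} (hw : w ≠ 0) (ha : a ≠ 0) :
    nm (EuclideanDomain.gcd (w * a) (w * b)) ≤ nm w * nm (EuclideanDomain.gcd a b) := by
  rw [← nm_mul]
  apply pb_nm_le (mul_ne_zero hw (pb_gcd_ne ha))
  have h1 : w * EuclideanDomain.gcd a b =
      w * a * EuclideanDomain.gcdA a b + w * b * EuclideanDomain.gcdB a b := by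
    rw [EuclideanDomain.gcd_eq_gcd_ab a b]
    ring
  rw [h1]
  exact dvd_add ((EuclideanDomain.gcd_dvd_left _ _).mul_right _)
    ((EuclideanDomain.gcd_dvd_right _ _).mul_right _)

/-- the sum with different numbers of factors -/
theorem pb_main (l : ℕ) : ∀ m : ℕ, ∃ C : ℝ, 0 < C ∧ ∀ (P Q Y : ℝ) (W : Finset G), W ⊆ PP P Q →
    1 ≤ Y → (∀ w ∈ W, (nm w : ℝ) ≤ 3 * Y) →
    ∑ x ∈ Fintype.piFinset (fun _ : Fin l => W), ∑ y ∈ Fintype.piFinset (fun _ : Fin m => W),
      (nm (EuclideanDomain.gcd (∏ i, x i) (∏ i, y i)) : ℝ) ≤ C * Y ^ (l + m) := by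
  induction l with
  | zero =>
    intro m
    refine ⟨3 ^ m, by positivity, ?_⟩
    intro P Q Y W hW hY h
    have hc := pb_card hW hY h
    have h1 : ∀ x ∈ Fintype.piFinset (fun _ : Fin 0 => W),
        ∑ y ∈ Fintype.piFinset (fun _ : Fin m => W),
          (nm (EuclideanDomain.gcd (∏ i, x i) (∏ i, y i)) : ℝ) = (W.card : ℝ) ^ m := by
      intro x _
      have h2 : ∀ y ∈ Fintype.piFinset (fun _ : Fin m => W),
          (nm (EuclideanDomain.gcd (∏ i, x i) (∏ i, y i)) : ℝ) = 1 := by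
        intro y _
        have h3 : ∏ i, x i = 1 := by simp
        rw [h3]
        have h4 : IsUnit (EuclideanDomain.gcd (1 : G) (∏ i, y i)) :=
          isUnit_of_dvd_one (EuclideanDomain.gcd_dvd_left _ _)
        rw [nm_eq_one_iff.2 h4]
        simp
      rw [Finset.sum_congr rfl h2]
      simp
    rw [Finset.sum_congr rfl h1]
    have h5 : (Fintype.piFinset (fun _ : Fin 0 => W)).card = 1 := by simp
    rw [Finset.sum_const, h5, one_smul, Nat.zero_add, ← mul_pow]
    exact pow_le_pow_left₀ (by positivity) hc m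
  | succ l ih =>
    intro m
    rcases Nat.eq_zero_or_pos m with hm | hm
    · subst hm
      refine ⟨3 ^ (l + 1), by positivity, ?_⟩
      intro P Q Y W hW hY h
      have hc := pb_card hW hY h
      have h1 : ∀ x ∈ Fintype.piFinset (fun _ : Fin (l + 1) => W),
          ∑ y ∈ Fintype.piFinset (fun _ : Fin 0 => W),
            (nm (EuclideanDomain.gcd (∏ i, x i) (∏ i, y i)) : ℝ) = 1 := by
        intro x _
        have h2 : ∀ y ∈ Fintype.piFinset (fun _ : Fin 0 => W),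
            (nm (EuclideanDomain.gcd (∏ i, x i) (∏ i, y i)) : ℝ) = 1 := by
          intro y _
          have h3 : ∏ i, y i = 1 := by simp
          rw [h3]
          have h4 : IsUnit (EuclideanDomain.gcd (∏ i, x i) (1 : G)) :=
            isUnit_of_dvd_one (EuclideanDomain.gcd_dvd_right _ _)
          rw [nm_eq_one_iff.2 h4]
          simp
        rw [Finset.sum_congr rfl h2]
        simp
      rw [Finset.sum_congr rfl h1]
      have h5 : ((Fintype.piFinset (fun _ : Fin (l + 1) => W)).card : ℝ) =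
          (W.card : ℝ) ^ (l + 1) := by
        simp
      rw [Finset.sum_const, nsmul_eq_mul, mul_one, h5, Nat.add_zero, ← mul_pow]
      exact pow_le_pow_left₀ (by positivity) hc _
    · obtain ⟨m, rfl⟩ : ∃ m', m = m' + 1 := ⟨m - 1, by omega⟩
      obtain ⟨C1, hC1, H1⟩ := ih (m + 1)
      obtain ⟨C2, hC2, H2⟩ := ih m
      refine ⟨3 * C1 + (m + 1) * 9 * C2, by positivity, ?_⟩
      intro P Q Y W hW hY h
      have hc := pb_card hW hY h
      have I1 := H1 P Q Y W hW hY h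
      have I2 := H2 P Q Y W hW hY h
      have hne : ∀ w ∈ W, w ≠ 0 := fun w hw => (PP_spl (hW hw)).prime.ne_zero
      have hprod : ∀ {n : ℕ} (x : Fin n → G), x ∈ Fintype.piFinset (fun _ : Fin n => W) →
          ∏ i, x i ≠ 0 := by
        intro n x hx
        rw [Finset.prod_ne_zero_iff]
        intro i _
        exact hne _ (Fintype.mem_piFinset.1 hx i)
      -- pointwise bound
      have key : ∀ w ∈ W, ∀ x ∈ Fintype.piFinset (fun _ : Fin l => W),
          ∑ y ∈ Fintype.piFinset (fun _ : Fin (m + 1) => W),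
            (nm (EuclideanDomain.gcd (w * ∏ i, x i) (∏ i, y i)) : ℝ) ≤
          ∑ y ∈ Fintype.piFinset (fun _ : Fin (m + 1) => W),
            (nm (EuclideanDomain.gcd (∏ i, x i) (∏ i, y i)) : ℝ) +
          (m + 1) * (3 * Y) * ∑ y ∈ Fintype.piFinset (fun _ : Fin m => W),
            (nm (EuclideanDomain.gcd (∏ i, x i) (∏ i, y i)) : ℝ) := by
        intro w hw x hx
        have hwp : Prime w := (PP_spl (hW hw)).prime
        have hx0 := hprod x hx
        have step : ∀ y ∈ Fintype.piFinset (fun _ : Fin (m + 1) => W),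
            (nm (EuclideanDomain.gcd (w * ∏ i, x i) (∏ i, y i)) : ℝ) ≤
            (nm (EuclideanDomain.gcd (∏ i, x i) (∏ i, y i)) : ℝ) +
            ∑ j : Fin (m + 1), if y j = w then
              (nm (EuclideanDomain.gcd (w * ∏ i, x i) (∏ i, y i)) : ℝ) else 0 := by
          intro y hy
          by_cases hd : w ∣ ∏ i, y i
          · obtain ⟨j, _, hj⟩ := (hwp.dvd_finsetProd_iff _).1 hd
            have hj' : y j = w := (PP_dvd (hW hw) (hW (Fintype.mem_piFinset.1 hy j)) hj).symm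
            have h3 : (nm (EuclideanDomain.gcd (w * ∏ i, x i) (∏ i, y i)) : ℝ) ≤
                ∑ j : Fin (m + 1), if y j = w then
                (nm (EuclideanDomain.gcd (w * ∏ i, x i) (∏ i, y i)) : ℝ) else 0 := by
              have h4 := Finset.single_le_sum (f := fun j : Fin (m + 1) => if y j = w then
                (nm (EuclideanDomain.gcd (w * ∏ i, x i) (∏ i, y i)) : ℝ) else 0)
                (s := Finset.univ) (fun i _ => by positivity) (Finset.mem_univ j)
              simp only [hj', if_true] at h4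
              exact h4
            have h5 : (0 : ℝ) ≤ (nm (EuclideanDomain.gcd (∏ i, x i) (∏ i, y i)) : ℝ) := by
              positivity
            linarith
          · have h3 : (nm (EuclideanDomain.gcd (w * ∏ i, x i) (∏ i, y i)) : ℝ) ≤
                (nm (EuclideanDomain.gcd (∏ i, x i) (∏ i, y i)) : ℝ) := by
              exact_mod_cast pb_gcd_coprime hwp hx0 hd
            have h4 : (0 : ℝ) ≤ ∑ j : Fin (m + 1), if y j = w then
                (nm (EuclideanDomain.gcd (w * ∏ i, x i) (∏ i, y i)) : ℝ) else 0 :=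
              Finset.sum_nonneg (fun i _ => by positivity)
            linarith
        refine (Finset.sum_le_sum step).trans ?_
        rw [Finset.sum_add_distrib]
        have h6 : ∑ y ∈ Fintype.piFinset (fun _ : Fin (m + 1) => W), ∑ j : Fin (m + 1),
            (if y j = w then
              (nm (EuclideanDomain.gcd (w * ∏ i, x i) (∏ i, y i)) : ℝ) else 0) ≤
            (m + 1) * (3 * Y) * ∑ y ∈ Fintype.piFinset (fun _ : Fin m => W),
            (nm (EuclideanDomain.gcd (∏ i, x i) (∏ i, y i)) : ℝ) := by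
          rw [Finset.sum_comm]
          have h7 : ∀ j ∈ (Finset.univ : Finset (Fin (m + 1))),
              ∑ y ∈ Fintype.piFinset (fun _ : Fin (m + 1) => W),
              (if y j = w then
              (nm (EuclideanDomain.gcd (w * ∏ i, x i) (∏ i, y i)) : ℝ) else 0) ≤
              (3 * Y) * ∑ y ∈ Fintype.piFinset (fun _ : Fin m => W),
                (nm (EuclideanDomain.gcd (∏ i, x i) (∏ i, y i)) : ℝ) := by
            intro j _
            rw [pb_sum_insert W j]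
            have h8 : ∀ a ∈ W, ∑ y ∈ Fintype.piFinset (fun _ : Fin m => W),
                (if (Fin.insertNth j a y : Fin (m + 1) → G) j = w then
                (nm (EuclideanDomain.gcd (w * ∏ i, x i)
                  (∏ i, (Fin.insertNth j a y : Fin (m + 1) → G) i)) : ℝ) else 0) =
                if a = w then ∑ y ∈ Fintype.piFinset (fun _ : Fin m => W),
                  (nm (EuclideanDomain.gcd (w * ∏ i, x i) (w * ∏ i, y i)) : ℝ) else 0 := by
              intro a _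
              by_cases ha : a = w
              · subst ha
                simp only [Fin.insertNth_apply_same, if_true, pb_prod_insert]
              · simp [ha]
            rw [Finset.sum_congr rfl h8, Finset.sum_ite_eq' W w, if_pos hw, Finset.mul_sum]
            apply Finset.sum_le_sum
            intro y _
            have h9 := pb_gcd_mul (w := w) (a := ∏ i, x i) (b := ∏ i, y i) (hne w hw) hx0
            have h10 : (nm (EuclideanDomain.gcd (w * ∏ i, x i) (w * ∏ i, y i)) : ℝ) ≤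
                (nm w : ℝ) * (nm (EuclideanDomain.gcd (∏ i, x i) (∏ i, y i)) : ℝ) := by
              exact_mod_cast h9
            refine h10.trans ?_
            exact mul_le_mul_of_nonneg_right (h w hw) (by positivity)
          refine (Finset.sum_le_sum h7).trans ?_
          rw [Finset.sum_const]
          simp only [Finset.card_univ, Fintype.card_fin, nsmul_eq_mul]
          push_cast
          apply le_of_eq
          ring
        linarith
      -- sum over the first coordinate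
      rw [pb_sum_insert W (0 : Fin (l + 1))]
      simp only [pb_prod_insert]
      have h11 : ∑ w ∈ W, ∑ x ∈ Fintype.piFinset (fun _ : Fin l => W),
          ∑ y ∈ Fintype.piFinset (fun _ : Fin (m + 1) => W),
            (nm (EuclideanDomain.gcd (w * ∏ i, x i) (∏ i, y i)) : ℝ) ≤
          ∑ _w ∈ W, (C1 * Y ^ (l + (m + 1)) + (m + 1) * (3 * Y) * (C2 * Y ^ (l + m))) := by
        apply Finset.sum_le_sum
        intro w hw
        refine (Finset.sum_le_sum (key w hw)).trans ?_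
        rw [Finset.sum_add_distrib, ← Finset.mul_sum]
        have h12 : (0 : ℝ) ≤ (m + 1) * (3 * Y) := by positivity
        exact add_le_add I1 (mul_le_mul_of_nonneg_left I2 h12)
      refine h11.trans ?_
      rw [Finset.sum_const, nsmul_eq_mul]
      have h13 : (0 : ℝ) ≤ C1 * Y ^ (l + (m + 1)) + (m + 1) * (3 * Y) * (C2 * Y ^ (l + m)) := by
        positivity
      refine (mul_le_mul_of_nonneg_right hc h13).trans ?_
      apply le_of_eq
      have e1 : Y ^ (l + 1 + (m + 1)) = Y ^ (l + m) * Y ^ 2 := by rw [← pow_add]; ring_nf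
      have e2 : Y ^ (l + (m + 1)) = Y ^ (l + m) * Y := by rw [← pow_succ]; ring_nf
      rw [e1, e2]
      ring

/-- `gcd(∏ x, ∏ y)` is (up to a unit) a product of common primes: there are a subset `I` of `Fin l` and an
injection `σ : I → Fin l` with `x_i = y_(σ i)` for `i ∈ I` and `nm gcd = ∏_{i ∈ I} nm (x_i) ≤ (3 Y)^|I|`.
For given `(I, σ)` the number of `(x, y)` is at most `#W^(2 l - |I|) ≤ (3 Y)^(2 l - |I|)` (distinct elements
of `PP` have distinct norms, so `#W ≤ 3 Y`). Sum over the boundedly many `(I, σ)`. -/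
theorem pairsB (l : ℕ) : ∃ C : ℝ, 0 < C ∧ ∀ (P Q Y : ℝ) (W : Finset G), W ⊆ PP P Q → 1 ≤ Y →
    (∀ w ∈ W, (nm w : ℝ) ≤ 3 * Y) →
    ∑ x ∈ Fintype.piFinset (fun _ : Fin l => W), ∑ y ∈ Fintype.piFinset (fun _ : Fin l => W),
      (nm (EuclideanDomain.gcd (∏ i, x i) (∏ i, y i)) : ℝ) ≤ C * Y ^ (2 * l) := by
  obtain ⟨C, hC, H⟩ := pb_main l l
  refine ⟨C, hC, ?_⟩
  intro P Q Y W hW hY h
  have := H P Q Y W hW hY h
  rwa [← two_mul] at this

end Pool.Agent.GaussMR

end

/-! ### from `Lib_MP_f1a94e_mr.MidJa` -/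

section

/-!
# Piece MIDJ: the sum of `xi j` over a disc, `t^(3/20) ≤ |j| ≤ t^(11/5)`, from the statement of `block`
-/

set_option autoImplicit false

namespace Pool.Agent.GaussMR

/-- the statement of `block` (Block.lean) -/
def BlockS : Prop := ∃ C : ℝ, 0 < C ∧ ∀ (q : ℕ), 2 ≤ q → q ≤ 5 → ∀ (r : ℝ) (j : ℤ) (b : ℕ) (x0 x1 y : ℤ),
    1 ≤ r → r ^ ((q : ℝ) - 17 / 10) ≤ |(j : ℝ)| → |(j : ℝ)| ≤ r ^ ((q : ℝ) - 2 ^ q / 64 - 1 / 100) →
    r ^ (1 - 1 / 1000 : ℝ) ≤ b → x0 ≤ x1 → (x1 : ℝ) - x0 ≤ r ^ (1 - 1 / 125 : ℝ) →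
    (x0 : ℝ) ^ 2 + (b : ℝ) ^ 2 ≤ r ^ 2 → (x1 : ℝ) ^ 2 + (b : ℝ) ^ 2 ≤ r ^ 2 →
    x0 ≤ y → y ≤ x1 →
    r ^ (-(1 / 1000 : ℝ)) ≤ |(((y : ℂ) + b * Complex.I) ^ (-(q : ℤ))).im| *
      ‖(y : ℂ) + b * Complex.I‖ ^ q →
    ‖∑ x ∈ Finset.Icc x0 x1, xi j ⟨x, b⟩‖ ≤ C * r ^ (1 - 1 / 125 - 1 / 500 : ℝ)

/-- the statement of `row_bound` (MidJ.lean) -/
def RowS : Prop := ∃ C : ℝ, 0 < C ∧ ∀ (q : ℕ), 2 ≤ q → q ≤ 5 → ∀ (r : ℝ) (j : ℤ) (b : ℕ) (s : ℕ),
    1 ≤ r → r ^ ((q : ℝ) - 17 / 10) ≤ |(j : ℝ)| → |(j : ℝ)| ≤ r ^ ((q : ℝ) - 2 ^ q / 64 - 1 / 100) →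
    r ^ (1 - 1 / 2000 : ℝ) ≤ b → (s : ℝ) ^ 2 + (b : ℝ) ^ 2 ≤ r ^ 2 →
    ‖∑ x ∈ Finset.Icc (-(s : ℤ)) s, xi j ⟨x, b⟩‖ ≤ C * r ^ (1 - 1 / 8000 : ℝ)

/-- the statement of `mid_j` (MidJ.lean) -/
def MidS : Prop := ∃ C : ℝ, 0 < C ∧ ∀ (t : ℝ) (j : ℤ), 1 ≤ t → t ^ (3 / 20 : ℝ) ≤ |(j : ℝ)| →
    |(j : ℝ)| ≤ t ^ (11 / 5 : ℝ) → ‖∑ z ∈ ball t, xi j z‖ ≤ C * t ^ (1 - 1 / 16000 : ℝ)

theorem norm_xi_le_one (k : ℤ) (z : G) : ‖xi k z‖ ≤ 1 := by
  by_cases h : z = 0
  · subst h
    unfold xi dir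
    have h0 : (((0 : G) : G) : ℂ) = 0 := by simp
    rw [h0, zero_div]
    rcases eq_or_ne k 0 with hk | hk
    · subst hk; simp
    · rw [zero_zpow k hk]; simp
  · exact (norm_xi k h).le

theorem blocks_bound (φ : ℤ → ℂ) (hφ : ∀ x, ‖φ x‖ ≤ 1) (bad : ℤ → Prop) [DecidablePred bad]
    (m : ℕ) (A : ℝ) (hA : 0 ≤ A) (u0 v0 : ℤ)
    (h : ∀ x0 x1 y : ℤ, u0 ≤ x0 → x1 ≤ v0 → x0 ≤ y → y ≤ x1 → x1 - x0 ≤ m → ¬ bad y →
      ‖∑ x ∈ Finset.Icc x0 x1, φ x‖ ≤ A) :
    ∀ (n : ℕ) (u : ℤ), u0 ≤ u → v0 - u < n * (m + 1) →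
      ‖∑ x ∈ Finset.Icc u v0, φ x‖ ≤ n * A + ∑ x ∈ Finset.Icc u v0, (if bad x then (1 : ℝ) else 0) := by
  have hbad0 : ∀ s : Finset ℤ, 0 ≤ ∑ x ∈ s, (if bad x then (1 : ℝ) else 0) := fun s =>
    Finset.sum_nonneg (fun x _ => by split_ifs <;> norm_num)
  intro n
  induction n with
  | zero =>
    intro u hu hlt
    have he : Finset.Icc u v0 = ∅ := Finset.Icc_eq_empty (by push_cast at hlt; omega)
    rw [he]; simp
  | succ n ih =>
    intro u hu hlt
    by_cases huv : v0 < u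
    · have he : Finset.Icc u v0 = ∅ := Finset.Icc_eq_empty (by omega)
      rw [he]; simp; positivity
    push Not at huv
    set w : ℤ := min v0 (u + m) with hw
    have hw1 : w ≤ v0 := min_le_left _ _
    have hw2 : w ≤ u + m := min_le_right _ _
    have hw3 : u ≤ w := le_min huv (by omega)
    have hsplit : Finset.Icc u v0 = Finset.Icc u w ∪ Finset.Icc (w + 1) v0 := by
      ext x; simp only [Finset.mem_Icc, Finset.mem_union]; omega
    have hd : Disjoint (Finset.Icc u w) (Finset.Icc (w + 1) v0) := by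
      rw [Finset.disjoint_left]; intro x; simp only [Finset.mem_Icc]; omega
    have hnn : (0 : ℤ) ≤ n * (m + 1) := by positivity
    have hlt' : v0 - (w + 1) < n * (m + 1) := by
      rcases min_choice v0 (u + (m : ℤ)) with hc | hc
      · rw [← hw] at hc; omega
      · rw [← hw] at hc
        have : v0 - u < n * (m + 1) + (m + 1) := by
          have e : ((n + 1 : ℕ) : ℤ) * (m + 1) = n * (m + 1) + (m + 1) := by push_cast; ring
          rw [e] at hlt; exact hlt
        omega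
    have ih' := ih (w + 1) (by omega) hlt'
    rw [hsplit, Finset.sum_union hd, Finset.sum_union hd]
    have hfirst : ‖∑ x ∈ Finset.Icc u w, φ x‖ ≤
        A + ∑ x ∈ Finset.Icc u w, (if bad x then (1 : ℝ) else 0) := by
      by_cases hg : ∃ y ∈ Finset.Icc u w, ¬ bad y
      · obtain ⟨y, hy, hyb⟩ := hg
        rw [Finset.mem_Icc] at hy
        have := h u w y hu hw1 hy.1 hy.2 (by omega) hyb
        have := hbad0 (Finset.Icc u w)
        linarith
      · push Not at hg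
        have h1 : ∑ x ∈ Finset.Icc u w, (if bad x then (1 : ℝ) else 0) =
            ∑ x ∈ Finset.Icc u w, (1 : ℝ) :=
          Finset.sum_congr rfl (fun x hx => by rw [if_pos (hg x hx)])
        rw [h1]
        have h2 : ‖∑ x ∈ Finset.Icc u w, φ x‖ ≤ ∑ x ∈ Finset.Icc u w, (1 : ℝ) :=
          (norm_sum_le _ _).trans (Finset.sum_le_sum (fun x _ => hφ x))
        linarith
    have := norm_add_le (∑ x ∈ Finset.Icc u w, φ x) (∑ x ∈ Finset.Icc (w + 1) v0, φ x)
    push_cast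
    linarith

theorem row_bound_of (hB : BlockS) : RowS := by
  classical
  obtain ⟨C1, hC1, hblock⟩ := hB
  obtain ⟨C2, hC2, hbad⟩ := bad_card
  refine ⟨3 * C1 + C2, by positivity, ?_⟩
  intro q hq2 hq5 r j b s hr hj1 hj2 hb hs
  have hr0 : 0 < r := by linarith
  set L : ℝ := r ^ (1 - 1 / 125 : ℝ) with hL
  have hL1 : 1 ≤ L := Real.one_le_rpow hr (by norm_num)
  set m : ℕ := ⌊L⌋₊ with hm
  have hmL : (m : ℝ) ≤ L := Nat.floor_le (by linarith)
  have hLm : L < m + 1 := Nat.lt_floor_add_one L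
  set bad : ℤ → Prop := fun x => |(((x : ℂ) + b * Complex.I) ^ (-(q : ℤ))).im| *
      ‖(x : ℂ) + b * Complex.I‖ ^ q < r ^ (-(1 / 1000 : ℝ)) with hbaddef
  set A : ℝ := C1 * r ^ (1 - 1 / 125 - 1 / 500 : ℝ) with hAdef
  have hA : 0 ≤ A := by positivity
  have hsr : (s : ℝ) ≤ r := by
    have h1 : (s : ℝ) ^ 2 ≤ r ^ 2 := by nlinarith [sq_nonneg (b : ℝ)]
    exact abs_le_of_sq_le_sq' h1 hr0.le |>.2
  have hsq : ∀ x : ℤ, -(s : ℤ) ≤ x → x ≤ s → (x : ℝ) ^ 2 + (b : ℝ) ^ 2 ≤ r ^ 2 := by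
    intro x hx1 hx2
    have h1 : (x : ℝ) ≤ s := by exact_mod_cast hx2
    have h2 : -(s : ℝ) ≤ x := by exact_mod_cast hx1
    have h3 : (x : ℝ) ^ 2 ≤ (s : ℝ) ^ 2 := by nlinarith
    linarith
  have hb' : r ^ (1 - 1 / 1000 : ℝ) ≤ b :=
    (Real.rpow_le_rpow_of_exponent_le hr (by norm_num)).trans hb
  have hgood : ∀ x0 x1 y : ℤ, -(s : ℤ) ≤ x0 → x1 ≤ s → x0 ≤ y → y ≤ x1 → x1 - x0 ≤ m → ¬ bad y →
      ‖∑ x ∈ Finset.Icc x0 x1, xi j ⟨x, b⟩‖ ≤ A := by
    intro x0 x1 y h1 h2 h3 h4 h5 h6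
    refine hblock q hq2 hq5 r j b x0 x1 y hr hj1 hj2 hb' (by omega) ?_ (hsq _ h1 (by omega))
      (hsq _ (by omega) h2) h3 h4 (not_lt.1 h6)
    have h7 : ((x1 - x0 : ℤ) : ℝ) ≤ (m : ℝ) := by exact_mod_cast h5
    push_cast at h7
    linarith
  set n : ℕ := 2 * s / (m + 1) + 1 with hn
  have hn1 : 2 * s < n * (m + 1) := by
    have := Nat.lt_mul_div_succ (2 * s) (Nat.succ_pos m)
    rw [hn, Nat.mul_comm (2 * s / (m + 1) + 1) (m + 1)]
    exact this
  have key := blocks_bound (fun x => xi j ⟨x, b⟩) (fun x => norm_xi_le_one j _) bad m A hA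
    (-(s : ℤ)) s hgood n (-(s : ℤ)) le_rfl (by
      have : ((2 * s : ℕ) : ℤ) < ((n * (m + 1) : ℕ) : ℤ) := by exact_mod_cast hn1
      push_cast at this ⊢
      linarith)
  have hnle : (n : ℝ) ≤ 3 * r ^ (1 / 125 : ℝ) := by
    have h1 : ((2 * s / (m + 1) : ℕ) : ℝ) ≤ ((2 * s : ℕ) : ℝ) / ((m + 1 : ℕ) : ℝ) := Nat.cast_div_le
    have h2 : ((2 * s : ℕ) : ℝ) / ((m + 1 : ℕ) : ℝ) ≤ 2 * r / L := by
      push_cast
      apply div_le_div₀ <;> first | positivity | linarith
    have h3 : 2 * r / L = 2 * r ^ (1 / 125 : ℝ) := by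
      rw [hL, mul_div_assoc]
      congr 1
      rw [div_eq_iff (by positivity), ← Real.rpow_add hr0]
      norm_num
    have h4 : (1 : ℝ) ≤ r ^ (1 / 125 : ℝ) := Real.one_le_rpow hr (by norm_num)
    rw [hn]
    push_cast at h1 ⊢
    push_cast at h2
    linarith
  have hnA : n * A ≤ 3 * C1 * r ^ (1 - 1 / 8000 : ℝ) := by
    calc (n : ℝ) * A ≤ (3 * r ^ (1 / 125 : ℝ)) * A := mul_le_mul_of_nonneg_right hnle hA
      _ = 3 * C1 * r ^ (1 - 1 / 500 : ℝ) := by
        rw [hAdef]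
        have : r ^ (1 / 125 : ℝ) * r ^ (1 - 1 / 125 - 1 / 500 : ℝ) = r ^ (1 - 1 / 500 : ℝ) := by
          rw [← Real.rpow_add hr0]; norm_num
        rw [← this]; ring
      _ ≤ _ := by
        apply mul_le_mul_of_nonneg_left _ (by positivity)
        exact Real.rpow_le_rpow_of_exponent_le hr (by norm_num)
  have hbadsum : ∑ x ∈ Finset.Icc (-(s : ℤ)) s, (if bad x then (1 : ℝ) else 0) ≤
      C2 * r ^ (1 - 1 / 8000 : ℝ) := by
    refine le_trans ?_ (hbad q hq2 hq5 r b hr hb)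
    rw [← Finset.sum_filter, Finset.sum_const, nsmul_eq_mul, mul_one]
    have hfin : {x : ℤ | (x : ℝ) ^ 2 + (b : ℝ) ^ 2 ≤ r ^ 2 ∧
      |(((x : ℂ) + b * Complex.I) ^ (-(q : ℤ))).im| * ‖(x : ℂ) + b * Complex.I‖ ^ q <
        r ^ (-(1 / 1000 : ℝ))}.Finite := by
      apply (Set.finite_Icc (-(⌈r⌉₊ : ℤ)) ⌈r⌉₊).subset
      rintro x ⟨hx, -⟩
      have h1 : (x : ℝ) ^ 2 ≤ r ^ 2 := by nlinarith [sq_nonneg (b : ℝ)]
      have h2 := abs_le_of_sq_le_sq' h1 hr0.le
      have h3 : r ≤ (⌈r⌉₊ : ℝ) := Nat.le_ceil r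
      constructor
      · have : (-(⌈r⌉₊ : ℝ)) ≤ x := by linarith [h2.1]
        exact_mod_cast this
      · have : (x : ℝ) ≤ (⌈r⌉₊ : ℝ) := by linarith [h2.2]
        exact_mod_cast this
    rw [← Set.ncard_coe_finset]
    refine Nat.cast_le.2 (Set.ncard_le_ncard ?_ hfin)
    intro x hx
    simp only [Finset.coe_filter, Finset.mem_Icc, Set.mem_setOf_eq] at hx
    exact ⟨hsq x hx.1.1 hx.1.2, hx.2⟩
  calc ‖∑ x ∈ Finset.Icc (-(s : ℤ)) s, xi j ⟨x, b⟩‖ ≤ _ := key
    _ ≤ _ := by rw [add_mul]; linarith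

/-- the row of a disc -/
theorem row_eq (t : ℝ) (b : ℤ) (hb : (b : ℝ) ^ 2 ≤ t) :
    (ball t).filter (fun z => z.im = b) =
      (Finset.Icc (-(⌊Real.sqrt (t - (b : ℝ) ^ 2)⌋₊ : ℤ)) ⌊Real.sqrt (t - (b : ℝ) ^ 2)⌋₊).map
        ⟨fun x => (⟨x, b⟩ : G), fun x y h => by simpa using congrArg Zsqrtd.re h⟩ := by
  classical
  ext z
  rw [Finset.mem_filter, mem_ball, Finset.mem_map]
  have hnm : (nm z : ℝ) = (z.re : ℝ) ^ 2 + (z.im : ℝ) ^ 2 := by
    have := nm_eq z
    have h : ((nm z : ℤ) : ℝ) = ((z.re ^ 2 + z.im ^ 2 : ℤ) : ℝ) := by rw [this]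
    push_cast at h; exact h
  have hs0 : 0 ≤ t - (b : ℝ) ^ 2 := by linarith
  set s := ⌊Real.sqrt (t - (b : ℝ) ^ 2)⌋₊ with hs
  have hkey : ∀ x : ℤ, (-(s : ℤ) ≤ x ∧ x ≤ s) ↔ (x : ℝ) ^ 2 ≤ t - (b : ℝ) ^ 2 := by
    intro x
    rw [← abs_le]
    have h1 : |x| = (x.natAbs : ℤ) := Int.abs_eq_natAbs x
    rw [h1, Nat.cast_le, hs, Nat.le_floor_iff (Real.sqrt_nonneg _), Nat.cast_natAbs, Int.cast_abs,
      Real.le_sqrt (abs_nonneg _) hs0, sq_abs]
  constructor
  · rintro ⟨h1, h2⟩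
    refine ⟨z.re, ?_, ?_⟩
    · rw [Finset.mem_Icc, hkey, ← h2]
      rw [hnm] at h1
      linarith
    · simp only [Function.Embedding.coeFn_mk]
      rw [← h2]
  · rintro ⟨x, hx, rfl⟩
    rw [Finset.mem_Icc, hkey] at hx
    simp only [Function.Embedding.coeFn_mk] at hnm ⊢
    refine ⟨?_, trivial⟩
    rw [hnm]; linarith

theorem sum_ball_rows (t : ℝ) (ht : 0 ≤ t) (f : G → ℂ) :
    ∑ z ∈ ball t, f z = ∑ b ∈ Finset.Icc (-(⌊Real.sqrt t⌋₊ : ℤ)) ⌊Real.sqrt t⌋₊,
      ∑ x ∈ Finset.Icc (-(⌊Real.sqrt (t - (b : ℝ) ^ 2)⌋₊ : ℤ)) ⌊Real.sqrt (t - (b : ℝ) ^ 2)⌋₊,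
        f ⟨x, b⟩ := by
  classical
  have hmaps : ∀ z ∈ ball t, z.im ∈ Finset.Icc (-(⌊Real.sqrt t⌋₊ : ℤ)) ⌊Real.sqrt t⌋₊ := by
    intro z hz
    rw [mem_ball] at hz
    have hnm : (nm z : ℝ) = (z.re : ℝ) ^ 2 + (z.im : ℝ) ^ 2 := by
      have := nm_eq z
      have h : ((nm z : ℤ) : ℝ) = ((z.re ^ 2 + z.im ^ 2 : ℤ) : ℝ) := by rw [this]
      push_cast at h; exact h
    rw [Finset.mem_Icc, ← abs_le, Int.abs_eq_natAbs, Nat.cast_le,
      Nat.le_floor_iff (Real.sqrt_nonneg _), Nat.cast_natAbs, Int.cast_abs,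
      Real.le_sqrt (abs_nonneg _) ht, sq_abs]
    nlinarith [sq_nonneg (z.re : ℝ)]
  rw [← Finset.sum_fiberwise_of_maps_to hmaps]
  apply Finset.sum_congr rfl
  intro b hb
  have hb2 : (b : ℝ) ^ 2 ≤ t := by
    rw [Finset.mem_Icc, ← abs_le, Int.abs_eq_natAbs, Nat.cast_le,
      Nat.le_floor_iff (Real.sqrt_nonneg _), Nat.cast_natAbs, Int.cast_abs,
      Real.le_sqrt (abs_nonneg _) ht, sq_abs] at hb
    exact hb
  rw [row_eq t b hb2, Finset.sum_map]
  rfl

/-- `r = √t`. Choose `q ∈ {2,3,4,5}` with `r^(q - 17/10) ≤ |j| ≤ r^(q - 2^q/64 - 1/100)` (the ranges of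
exponents `[0.3, 1.9275]`, `[1.3, 2.865]`, `[2.3, 3.74]`, `[3.3, 4.49]` cover `[0.3, 4.4]`). Rows
`0 < b < r^(1-1/2000)` trivially; other rows `b ≤ r` are cut into at most `2 r / L + 2` blocks of length
`≤ L = r^(1-1/125)`: blocks containing a good point by `block`, blocks consisting of bad points by
`bad_card`. Rows `b < 0` by conjugation (`xi_star`), the row `b = 0` trivially. -/
theorem mid_j_of (hR : RowS) : MidS := by
  classical
  obtain ⟨C, hC, hrow⟩ := hR
  refine ⟨3 * C + 9, by positivity, ?_⟩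
  intro t j ht hj1 hj2
  have ht0 : 0 < t := by linarith
  set r : ℝ := Real.sqrt t with hr
  have hr1 : 1 ≤ r := by rw [hr]; exact Real.one_le_sqrt.2 ht
  have hr0 : 0 < r := by linarith
  have hrt : r ^ 2 = t := Real.sq_sqrt ht0.le
  have htr : ∀ a : ℝ, t ^ a = r ^ (2 * a) := by
    intro a
    rw [← hrt, ← Real.rpow_natCast r 2, ← Real.rpow_mul hr0.le]
    norm_num
  rw [htr] at hj1 hj2
  -- choice of q
  obtain ⟨q, hq2, hq5, hqa, hqb⟩ : ∃ q : ℕ, 2 ≤ q ∧ q ≤ 5 ∧ r ^ ((q : ℝ) - 17 / 10) ≤ |(j : ℝ)| ∧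
      |(j : ℝ)| ≤ r ^ ((q : ℝ) - 2 ^ q / 64 - 1 / 100) := by
    by_cases h2 : |(j : ℝ)| ≤ r ^ (((2 : ℕ) : ℝ) - 2 ^ 2 / 64 - 1 / 100)
    · exact ⟨2, le_rfl, by norm_num,
        (Real.rpow_le_rpow_of_exponent_le hr1 (by norm_num)).trans hj1, h2⟩
    push Not at h2
    by_cases h3 : |(j : ℝ)| ≤ r ^ (((3 : ℕ) : ℝ) - 2 ^ 3 / 64 - 1 / 100)
    · exact ⟨3, by norm_num, by norm_num,
        (Real.rpow_le_rpow_of_exponent_le hr1 (by norm_num)).trans h2.le, h3⟩
    push Not at h3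
    by_cases h4 : |(j : ℝ)| ≤ r ^ (((4 : ℕ) : ℝ) - 2 ^ 4 / 64 - 1 / 100)
    · exact ⟨4, by norm_num, by norm_num,
        (Real.rpow_le_rpow_of_exponent_le hr1 (by norm_num)).trans h3.le, h4⟩
    push Not at h4
    exact ⟨5, by norm_num, le_rfl,
        (Real.rpow_le_rpow_of_exponent_le hr1 (by norm_num)).trans h4.le,
        hj2.trans (Real.rpow_le_rpow_of_exponent_le hr1 (by norm_num))⟩
  set y : ℝ := r ^ (1 - 1 / 2000 : ℝ) with hy
  have hy1 : 1 ≤ y := Real.one_le_rpow hr1 (by norm_num)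
  set B : ℝ := C * r ^ (1 - 1 / 8000 : ℝ) with hB
  have hB0 : 0 ≤ B := by positivity
  rw [sum_ball_rows t ht0.le]
  -- bound of one row
  have hone : ∀ b ∈ Finset.Icc (-(⌊r⌋₊ : ℤ)) ⌊r⌋₊,
      ‖∑ x ∈ Finset.Icc (-(⌊Real.sqrt (t - (b : ℝ) ^ 2)⌋₊ : ℤ)) ⌊Real.sqrt (t - (b : ℝ) ^ 2)⌋₊,
        xi j ⟨x, b⟩‖ ≤ B + (if (b.natAbs : ℝ) < y then 3 * r else 0) := by
    intro b hb
    have hb2 : (b : ℝ) ^ 2 ≤ t := by
      rw [Finset.mem_Icc, ← abs_le, Int.abs_eq_natAbs, Nat.cast_le,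
        Nat.le_floor_iff hr0.le, Nat.cast_natAbs, Int.cast_abs, hr,
        Real.le_sqrt (abs_nonneg _) ht0.le, sq_abs] at hb
      exact hb
    have hs0 : 0 ≤ t - (b : ℝ) ^ 2 := by linarith
    set s := ⌊Real.sqrt (t - (b : ℝ) ^ 2)⌋₊ with hs
    have hs1 : (s : ℝ) ≤ Real.sqrt (t - (b : ℝ) ^ 2) := Nat.floor_le (Real.sqrt_nonneg _)
    have hs2 : (s : ℝ) ^ 2 ≤ t - (b : ℝ) ^ 2 := by
      rw [← Real.sq_sqrt hs0]
      exact pow_le_pow_left₀ (by positivity) hs1 2
    have hsr : (s : ℝ) ≤ r := by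
      rw [hr]
      exact hs1.trans (Real.sqrt_le_sqrt (by nlinarith [sq_nonneg (b : ℝ)]))
    by_cases hby : (b.natAbs : ℝ) < y
    · rw [if_pos hby]
      have h1 : ‖∑ x ∈ Finset.Icc (-(s : ℤ)) s, xi j ⟨x, b⟩‖ ≤
          ∑ x ∈ Finset.Icc (-(s : ℤ)) s, (1 : ℝ) :=
        (norm_sum_le _ _).trans (Finset.sum_le_sum (fun x _ => norm_xi_le_one j _))
      have h2 : ∑ x ∈ Finset.Icc (-(s : ℤ)) s, (1 : ℝ) = 2 * s + 1 := by
        rw [Finset.sum_const, Int.card_Icc, nsmul_eq_mul, mul_one]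
        have : ((s : ℤ) + 1 - -(s : ℤ)).toNat = 2 * s + 1 := by omega
        rw [this]; push_cast; ring
      rw [h2] at h1
      linarith
    · rw [if_neg hby, add_zero]
      push Not at hby
      have hab : ((b.natAbs : ℕ) : ℝ) ^ 2 = (b : ℝ) ^ 2 := by
        rw [Nat.cast_natAbs, Int.cast_abs, sq_abs]
      have h1 := hrow q hq2 hq5 r j b.natAbs s hr1 hqa hqb hby (by rw [hab, hrt]; linarith)
      rcases Int.natAbs_eq b with hbb | hbb
      · rw [← hbb] at h1
        exact h1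
      · have hbne : b ≠ 0 := by
          rintro rfl
          simp at hby
          linarith
        have h2 : ∑ x ∈ Finset.Icc (-(s : ℤ)) s, xi j ⟨x, b⟩ =
            (starRingEnd ℂ) (∑ x ∈ Finset.Icc (-(s : ℤ)) s, xi j ⟨x, (b.natAbs : ℤ)⟩) := by
          rw [map_sum]
          apply Finset.sum_congr rfl
          intro x _
          have hz : (⟨x, (b.natAbs : ℤ)⟩ : G) ≠ 0 := by
            intro h
            have := congrArg Zsqrtd.im h
            simp at this
            exact hbne this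
          rw [conj_xi j hz, ← xi_star j hz]
          congr 1
          apply Zsqrtd.ext
          · simp
          · simp only [Zsqrtd.im_star]
            exact hbb
        rw [h2, RCLike.norm_conj]
        exact h1
  have hR : ((⌊r⌋₊ : ℕ) : ℝ) ≤ r := Nat.floor_le hr0.le
  have hcount : ∑ b ∈ Finset.Icc (-(⌊r⌋₊ : ℤ)) ⌊r⌋₊, (if (b.natAbs : ℝ) < y then 3 * r else 0) ≤
      (3 * y) * (3 * r) := by
    rw [← Finset.sum_filter, Finset.sum_const, nsmul_eq_mul]
    apply mul_le_mul_of_nonneg_right _ (by positivity)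
    have hsub : (Finset.Icc (-(⌊r⌋₊ : ℤ)) ⌊r⌋₊).filter (fun b => (b.natAbs : ℝ) < y) ⊆
        Finset.Icc (-(⌊y⌋₊ : ℤ)) ⌊y⌋₊ := by
      intro b hb
      rw [Finset.mem_filter] at hb
      rw [Finset.mem_Icc, ← abs_le, Int.abs_eq_natAbs, Nat.cast_le,
        Nat.le_floor_iff (by linarith)]
      exact hb.2.le
    have h1 := Finset.card_le_card hsub
    rw [Int.card_Icc] at h1
    have h2 : ((⌊y⌋₊ : ℤ) + 1 - -(⌊y⌋₊ : ℤ)).toNat = 2 * ⌊y⌋₊ + 1 := by omega
    rw [h2] at h1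
    have h3 : ((⌊y⌋₊ : ℕ) : ℝ) ≤ y := Nat.floor_le (by linarith)
    have h4 : ((((Finset.Icc (-(⌊r⌋₊ : ℤ)) ⌊r⌋₊).filter (fun b => (b.natAbs : ℝ) < y)).card : ℕ) : ℝ)
        ≤ ((2 * ⌊y⌋₊ + 1 : ℕ) : ℝ) := by exact_mod_cast h1
    push_cast at h4
    linarith
  have hBsum : ∑ b ∈ Finset.Icc (-(⌊r⌋₊ : ℤ)) ⌊r⌋₊, B ≤ (3 * r) * B := by
    rw [Finset.sum_const, Int.card_Icc, nsmul_eq_mul]
    apply mul_le_mul_of_nonneg_right _ hB0
    have : ((⌊r⌋₊ : ℤ) + 1 - -(⌊r⌋₊ : ℤ)).toNat = 2 * ⌊r⌋₊ + 1 := by omega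
    rw [this]; push_cast; linarith
  have htot : ‖∑ b ∈ Finset.Icc (-(⌊r⌋₊ : ℤ)) ⌊r⌋₊,
      ∑ x ∈ Finset.Icc (-(⌊Real.sqrt (t - (b : ℝ) ^ 2)⌋₊ : ℤ)) ⌊Real.sqrt (t - (b : ℝ) ^ 2)⌋₊,
        xi j ⟨x, b⟩‖ ≤ (3 * r) * B + (3 * y) * (3 * r) := by
    refine (norm_sum_le _ _).trans ((Finset.sum_le_sum hone).trans ?_)
    rw [Finset.sum_add_distrib]
    linarith
  refine htot.trans ?_
  rw [htr]
  have e1 : r * r ^ (1 - 1 / 8000 : ℝ) = r ^ (2 * (1 - 1 / 16000) : ℝ) := by
    nth_rewrite 1 [← Real.rpow_one r]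
    rw [← Real.rpow_add hr0]; norm_num
  have e2 : y * r ≤ r ^ (2 * (1 - 1 / 16000) : ℝ) := by
    rw [hy]
    nth_rewrite 2 [← Real.rpow_one r]
    rw [← Real.rpow_add hr0]
    exact Real.rpow_le_rpow_of_exponent_le hr1 (by norm_num)
  calc (3 * r) * B + (3 * y) * (3 * r) = 3 * C * (r * r ^ (1 - 1 / 8000 : ℝ)) + 9 * (y * r) := by
        rw [hB]; ring
    _ ≤ 3 * C * r ^ (2 * (1 - 1 / 16000) : ℝ) + 9 * r ^ (2 * (1 - 1 / 16000) : ℝ) := by
        rw [e1]; linarith
    _ = _ := by ring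

end Pool.Agent.GaussMR

end

/-! ### from `Lib_MP_f1a94e_mr.SmallJ` -/

section

/-!
# Piece SMALLJ: the sum of `xi j` over a disc, small `j`
-/

set_option autoImplicit false

namespace Pool.Agent.GaussMR

open Complex

namespace SmallJAux

theorem mem_ball_iff_norm {s : ℝ} (hs : 0 ≤ s) (z : G) : z ∈ ball (s ^ 2) ↔ ‖(z : ℂ)‖ ≤ s := by
  rw [mem_ball, ← norm_sq_eq]
  exact pow_le_pow_iff_left₀ (norm_nonneg _) hs two_ne_zero

/-- the sup norm -/
def M (u : G) : ℕ := max u.re.natAbs u.im.natAbs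

theorem M_le (u : G) : (M u : ℝ) ≤ ‖(u : ℂ)‖ := by
  have h1 : ((u.re.natAbs : ℕ) : ℝ) ≤ ‖(u : ℂ)‖ := by
    have := Complex.abs_re_le_norm (u : ℂ)
    rw [← GaussianInt.intCast_re] at this
    rw [Nat.cast_natAbs, Int.cast_abs]
    exact this
  have h2 : ((u.im.natAbs : ℕ) : ℝ) ≤ ‖(u : ℂ)‖ := by
    have := Complex.abs_im_le_norm (u : ℂ)
    rw [← GaussianInt.intCast_im] at this
    rw [Nat.cast_natAbs, Int.cast_abs]
    exact this
  unfold M
  rw [Nat.cast_max]
  exact max_le h1 h2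

theorem M_pos {u : G} (h : u ≠ 0) : 1 ≤ M u := by
  by_contra hcon
  apply h
  have h0 : M u = 0 := by omega
  unfold M at h0
  have h1 : u.re.natAbs = 0 := by
    have := le_max_left u.re.natAbs u.im.natAbs
    omega
  have h2 : u.im.natAbs = 0 := by
    have := le_max_right u.re.natAbs u.im.natAbs
    omega
  apply Zsqrtd.ext
  · simpa using h1
  · simpa using h2

open Classical in
theorem sum_inv (s : ℝ) (hs : 0 ≤ s) :
    ∑ u ∈ (ball (s ^ 2)).filter (fun u => u ≠ 0), 1 / ‖(u : ℂ)‖ ≤ 8 * s := by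
  have hmap : ∀ u ∈ (ball (s ^ 2)).filter (fun u => u ≠ 0), M u ∈ Finset.Icc 1 ⌊s⌋₊ := by
    intro u hu
    rw [Finset.mem_filter, mem_ball_iff_norm hs] at hu
    rw [Finset.mem_Icc]
    exact ⟨M_pos hu.2, Nat.le_floor ((M_le u).trans hu.1)⟩
  rw [← Finset.sum_fiberwise_of_maps_to hmap]
  have hfib : ∀ m ∈ Finset.Icc 1 ⌊s⌋₊,
      ∑ u ∈ ((ball (s ^ 2)).filter (fun u => u ≠ 0)).filter (fun u => M u = m),
        1 / ‖(u : ℂ)‖ ≤ 8 := by
    intro m hm
    rw [Finset.mem_Icc] at hm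
    have hm0 : (0 : ℝ) < m := by exact_mod_cast hm.1
    have hcard : (((ball (s ^ 2)).filter (fun u => u ≠ 0)).filter (fun u => M u = m)).card ≤
        8 * m := by
      rw [← Int.card_box (by omega : m ≠ 0)]
      refine Finset.card_le_card_of_injOn (fun u : G => (u.re, u.im)) ?_ ?_
      · intro u hu
        have hu' := (Finset.mem_filter.1 (Finset.mem_coe.1 hu)).2
        exact Finset.mem_coe.2 (Int.mem_box.2 hu')
      · intro u _ v _ huv
        have := Prod.ext_iff.1 huv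
        exact Zsqrtd.ext this.1 this.2
    have hterm : ∀ u ∈ ((ball (s ^ 2)).filter (fun u => u ≠ 0)).filter (fun u => M u = m),
        1 / ‖(u : ℂ)‖ ≤ 1 / (m : ℝ) := by
      intro u hu
      have hu' := (Finset.mem_filter.1 hu).2
      have := M_le u
      rw [hu'] at this
      exact one_div_le_one_div_of_le hm0 this
    refine (Finset.sum_le_sum hterm).trans ?_
    rw [Finset.sum_const, nsmul_eq_mul]
    calc _ ≤ ((8 * m : ℕ) : ℝ) * (1 / (m : ℝ)) := by
          refine mul_le_mul_of_nonneg_right ?_ (by positivity)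
          exact_mod_cast hcard
      _ = 8 := by push_cast; field_simp
  refine (Finset.sum_le_sum hfib).trans ?_
  rw [Finset.sum_const, nsmul_eq_mul, Nat.card_Icc, Nat.add_sub_cancel]
  have := Nat.floor_le hs
  linarith

open Classical in
/-- lattice points in an annulus_smallj -/
theorem annulus_smallj : ∃ C : ℝ, 0 < C ∧ ∀ s : ℝ, 1 ≤ s →
    (((ball ((s + 1) ^ 2)).filter (fun u : G => s - 1 < ‖(u : ℂ)‖)).card : ℝ) ≤ C * s := by
  obtain ⟨κ, C, hκ, hC, hb⟩ := ball_asymp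
  refine ⟨9 * κ + 5 * C, by positivity, fun s hs => ?_⟩
  have h1 := hb ((s + 1) ^ 2) (by positivity)
  rw [Real.sqrt_sq (by linarith)] at h1
  have h1' := (abs_le.1 h1).2
  have h2 := hb ((s - 1) ^ 2) (by positivity)
  rw [Real.sqrt_sq (by linarith)] at h2
  have h2' := (abs_le.1 h2).1
  have hsub : (ball ((s + 1) ^ 2)).filter (fun u : G => s - 1 < ‖(u : ℂ)‖) ⊆
      (ball ((s + 1) ^ 2)) \ (ball ((s - 1) ^ 2)) := by
    intro u hu
    rw [Finset.mem_filter] at hu
    rw [Finset.mem_sdiff]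
    refine ⟨hu.1, ?_⟩
    rw [mem_ball_iff_norm (by linarith)]
    exact not_le.2 hu.2
  have hss : ball ((s - 1) ^ 2) ⊆ ball ((s + 1) ^ 2) := by
    intro u hu
    rw [mem_ball_iff_norm (by linarith)] at hu ⊢
    linarith
  have hcard := Finset.card_le_card hsub
  have hc2 := Finset.card_sdiff_add_card_eq_card hss
  have h3 : (((ball ((s + 1) ^ 2)).filter (fun u : G => s - 1 < ‖(u : ℂ)‖)).card : ℝ) ≤
      ((ball ((s + 1) ^ 2)).card : ℝ) - (ball ((s - 1) ^ 2)).card := by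
    have : (((ball ((s + 1) ^ 2)).filter (fun u : G => s - 1 < ‖(u : ℂ)‖)).card : ℝ) ≤
      (((ball ((s + 1) ^ 2)) \ (ball ((s - 1) ^ 2))).card : ℝ) := by exact_mod_cast hcard
    have h4 : ((((ball ((s + 1) ^ 2)) \ (ball ((s - 1) ^ 2))).card : ℝ)) +
      (ball ((s - 1) ^ 2)).card = (ball ((s + 1) ^ 2)).card := by exact_mod_cast hc2
    linarith
  have h5 : κ * (s + 1) ^ 2 - κ * (s - 1) ^ 2 = 4 * κ * s := by ring
  nlinarith [mul_pos hκ (by linarith : (0:ℝ) < s), mul_pos hC (by linarith : (0:ℝ) < s)]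

theorem dir_zero : dir 0 = 0 := by
  unfold dir
  simp

theorem norm_dir_le (z : G) : ‖dir z‖ ≤ 1 := by
  by_cases h : z = 0
  · rw [h, dir_zero, norm_zero]; exact zero_le_one
  · exact (norm_dir h).le

theorem xi_at_zero {j : ℤ} (hj : j ≠ 0) : xi j 0 = 0 := by
  unfold xi
  rw [dir_zero, zero_zpow _ hj]

theorem norm_xi_le (j : ℤ) (z : G) : ‖xi j z‖ ≤ 1 := by
  by_cases h : z = 0
  · by_cases hj : j = 0
    · rw [hj, xi_zero]; simp
    · rw [h, xi_at_zero hj, norm_zero]; exact zero_le_one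
  · exact (norm_xi j h).le

theorem dir_sub (z c : G) (hz : z ≠ 0) : ‖dir (z + c) - dir z‖ ≤ 2 * ‖(c : ℂ)‖ / ‖(z : ℂ)‖ := by
  have hz0 := norm_pos hz
  by_cases h : z + c = 0
  · have hc : c = -z := by
      rw [add_comm] at h
      exact eq_neg_of_add_eq_zero_left h
    rw [h, dir_zero, zero_sub, norm_neg, norm_dir hz, hc, GaussianInt.toComplex_neg, norm_neg,
      mul_div_assoc, div_self hz0.ne']
    norm_num
  · have hw0 := norm_pos h
    have hadd : ((z + c : G) : ℂ) = (z : ℂ) + (c : ℂ) := GaussianInt.toComplex_add z c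
    set w : ℂ := ((z + c : G) : ℂ) with hw
    have e1 : dir (z + c) - dir z =
        w * (((‖(z : ℂ)‖ - ‖w‖ : ℝ) : ℂ) / ((‖w‖ * ‖(z : ℂ)‖ : ℝ) : ℂ)) +
          (c : ℂ) / ((‖(z : ℂ)‖ : ℝ) : ℂ) := by
      unfold dir
      rw [← hw]
      have n1 : ((‖w‖ : ℝ) : ℂ) ≠ 0 := by exact_mod_cast hw0.ne'
      have n2 : ((‖(z : ℂ)‖ : ℝ) : ℂ) ≠ 0 := by exact_mod_cast hz0.ne'
      have hc : (c : ℂ) = w - z := by rw [hadd]; ring
      rw [hc]
      push_cast
      field_simp
      ring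
    rw [e1]
    refine (norm_add_le _ _).trans ?_
    have h1 : ‖w * (((‖(z : ℂ)‖ - ‖w‖ : ℝ) : ℂ) / ((‖w‖ * ‖(z : ℂ)‖ : ℝ) : ℂ))‖ ≤
        ‖(c : ℂ)‖ / ‖(z : ℂ)‖ := by
      rw [norm_mul, norm_div, Complex.norm_real, Complex.norm_real, Real.norm_eq_abs,
        Real.norm_eq_abs, abs_of_pos (mul_pos hw0 hz0)]
      have h2 : |‖(z : ℂ)‖ - ‖w‖| ≤ ‖(c : ℂ)‖ := by
        have := abs_norm_sub_norm_le (z : ℂ) w
        refine this.trans (le_of_eq ?_)
        rw [hadd, ← norm_neg]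
        congr 1
        ring
      calc _ = |‖(z : ℂ)‖ - ‖w‖| / ‖(z : ℂ)‖ := by field_simp
        _ ≤ _ := div_le_div_of_nonneg_right h2 hz0.le
    have h3 : ‖(c : ℂ) / ((‖(z : ℂ)‖ : ℝ) : ℂ)‖ = ‖(c : ℂ)‖ / ‖(z : ℂ)‖ := by
      rw [norm_div, Complex.norm_real, norm_norm]
    rw [h3]
    calc _ ≤ ‖(c : ℂ)‖ / ‖(z : ℂ)‖ + ‖(c : ℂ)‖ / ‖(z : ℂ)‖ := by gcongr
      _ = _ := by ring

theorem pow_sub (a b : ℂ) (ha : ‖a‖ ≤ 1) (hb : ‖b‖ ≤ 1) (n : ℕ) :
    ‖a ^ n - b ^ n‖ ≤ n * ‖a - b‖ := by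
  induction n with
  | zero => simp
  | succ n ih =>
    have : a ^ (n + 1) - b ^ (n + 1) = a * (a ^ n - b ^ n) + (a - b) * b ^ n := by ring
    rw [this]
    refine (norm_add_le _ _).trans ?_
    rw [norm_mul, norm_mul, norm_pow]
    have h1 : ‖a‖ * ‖a ^ n - b ^ n‖ ≤ 1 * ‖a ^ n - b ^ n‖ :=
      mul_le_mul_of_nonneg_right ha (norm_nonneg _)
    have h2 : ‖a - b‖ * ‖b‖ ^ n ≤ ‖a - b‖ * 1 :=
      mul_le_mul_of_nonneg_left (pow_le_one₀ (norm_nonneg _) hb) (norm_nonneg _)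
    push_cast
    linarith

theorem xi_sub (j : ℤ) (hj : j ≠ 0) (z c : G) (hz : z ≠ 0) :
    ‖xi j (z + c) - xi j z‖ ≤ 2 * |(j : ℝ)| * (‖(c : ℂ)‖ / ‖(z : ℂ)‖) := by
  have hd := dir_sub z c hz
  have key : ∃ n : ℕ, (n : ℝ) = |(j : ℝ)| ∧ (((∀ w, xi j w = (dir w) ^ n)) ∨
      (∀ w, xi j w = ((starRingEnd ℂ) (dir w)) ^ n)) := by
    rcases le_total 0 j with h | h
    · refine ⟨j.toNat, ?_, Or.inl fun w => ?_⟩
      · rw [abs_of_nonneg (by exact_mod_cast h)]
        exact_mod_cast Int.toNat_of_nonneg h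
      · unfold xi
        rw [← zpow_natCast, Int.toNat_of_nonneg h]
    · refine ⟨(-j).toNat, ?_, Or.inr fun w => ?_⟩
      · rw [abs_of_nonpos (by exact_mod_cast h)]
        have := Int.toNat_of_nonneg (by omega : 0 ≤ -j)
        exact_mod_cast this
      · unfold xi
        rw [← zpow_natCast, Int.toNat_of_nonneg (by omega : 0 ≤ -j)]
        by_cases hw : w = 0
        · rw [hw, dir_zero, map_zero, zero_zpow _ hj, zero_zpow _ (neg_ne_zero.2 hj)]
        · rw [conj_dir hw, inv_zpow, zpow_neg, inv_inv]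
  obtain ⟨n, hn, h | h⟩ := key
  · rw [h, h]
    refine (pow_sub _ _ (norm_dir_le _) (norm_dir_le _) n).trans ?_
    rw [hn]
    calc _ ≤ |(j : ℝ)| * (2 * ‖(c : ℂ)‖ / ‖(z : ℂ)‖) :=
          mul_le_mul_of_nonneg_left hd (abs_nonneg _)
      _ = _ := by ring
  · rw [h, h]
    refine (pow_sub _ _ ?_ ?_ n).trans ?_
    · rw [RCLike.norm_conj]; exact norm_dir_le _
    · rw [RCLike.norm_conj]; exact norm_dir_le _
    · rw [hn, ← map_sub, RCLike.norm_conj]
      calc _ ≤ |(j : ℝ)| * (2 * ‖(c : ℂ)‖ / ‖(z : ℂ)‖) :=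
            mul_le_mul_of_nonneg_left hd (abs_nonneg _)
        _ = _ := by ring

open Classical in
/-- one residue class -/
theorem class_bound : ∃ C : ℝ, 0 < C ∧ ∀ (s : ℝ) (j : ℤ) (α c : G), 1 ≤ s → j ≠ 0 → α ≠ 0 →
    ‖(c : ℂ)‖ ≤ ‖(α : ℂ)‖ →
    ‖∑ z ∈ (ball ((‖(α : ℂ)‖ * s) ^ 2)).filter (fun z => α ∣ z - c), xi j z -
      xi j α * ∑ z ∈ ball (s ^ 2), xi j z‖ ≤ C * |(j : ℝ)| * s := by
  obtain ⟨C, hC, hann⟩ := annulus_smallj
  refine ⟨33 + C, by positivity, fun s j α c hs hj hα hc => ?_⟩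
  have hs0 : 0 ≤ s := by linarith
  have hα0 := norm_pos hα
  have hj1 : 1 ≤ |(j : ℝ)| := by
    have : 1 ≤ |j| := Int.one_le_abs hj
    exact_mod_cast this
  set B := ball ((s + 1) ^ 2) with hB
  have hlin : ∀ u : G, ((α * u + c : G) : ℂ) = (α : ℂ) * (u : ℂ) + (c : ℂ) := fun u => by
    rw [GaussianInt.toComplex_add, GaussianInt.toComplex_mul]
  have hnear : ∀ u : G, |‖((α * u + c : G) : ℂ)‖ - ‖(α : ℂ)‖ * ‖(u : ℂ)‖| ≤ ‖(α : ℂ)‖ := by
    intro u
    rw [hlin, ← norm_mul]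
    refine (abs_norm_sub_norm_le _ _).trans ?_
    rw [add_sub_cancel_left]
    exact hc
  -- first sum
  have hsum1 : ∑ z ∈ (ball ((‖(α : ℂ)‖ * s) ^ 2)).filter (fun z => α ∣ z - c), xi j z =
      ∑ u ∈ B, (if ‖((α * u + c : G) : ℂ)‖ ≤ ‖(α : ℂ)‖ * s then xi j (α * u + c) else 0) := by
    rw [← Finset.sum_filter]
    symm
    refine Finset.sum_bij (fun u _ => α * u + c) ?_ ?_ ?_ ?_
    · intro u hu
      rw [Finset.mem_filter] at hu ⊢
      refine ⟨(mem_ball_iff_norm (by positivity) _).2 hu.2, ⟨u, by ring⟩⟩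
    · intro u _ v _ huv
      have : α * u = α * v := add_right_cancel huv
      exact mul_left_cancel₀ hα this
    · intro z hz
      rw [Finset.mem_filter, mem_ball_iff_norm (by positivity)] at hz
      obtain ⟨u, hu⟩ := hz.2
      have hzu : α * u + c = z := by rw [← hu]; ring
      refine ⟨u, ?_, hzu⟩
      rw [Finset.mem_filter, hzu]
      refine ⟨?_, hz.1⟩
      rw [hB, mem_ball_iff_norm (by linarith)]
      have h1 := (abs_le.1 (hnear u)).1
      rw [hzu] at h1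
      have h2 : ‖(α : ℂ)‖ * ‖(u : ℂ)‖ ≤ ‖(α : ℂ)‖ * (s + 1) := by linarith [hz.1]
      exact le_of_mul_le_mul_left h2 hα0
    · intro u _
      rfl
  have hsum2 : xi j α * ∑ z ∈ ball (s ^ 2), xi j z =
      ∑ u ∈ B, (if ‖(u : ℂ)‖ ≤ s then xi j (α * u) else 0) := by
    rw [← Finset.sum_filter, Finset.mul_sum]
    have : B.filter (fun u : G => ‖(u : ℂ)‖ ≤ s) = ball (s ^ 2) := by
      ext u
      rw [Finset.mem_filter, hB, mem_ball_iff_norm (by linarith), mem_ball_iff_norm hs0]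
      constructor
      · exact fun h => h.2
      · exact fun h => ⟨by linarith, h⟩
    rw [this]
    exact Finset.sum_congr rfl fun u _ => (xi_mul j α u).symm
  rw [hsum1, hsum2, ← Finset.sum_sub_distrib]
  refine (norm_sum_le _ _).trans ?_
  have hterm : ∀ u ∈ B,
      ‖(if ‖((α * u + c : G) : ℂ)‖ ≤ ‖(α : ℂ)‖ * s then xi j (α * u + c) else 0) -
        (if ‖(u : ℂ)‖ ≤ s then xi j (α * u) else 0)‖ ≤
      (if u ≠ 0 then 2 * |(j : ℝ)| * (1 / ‖(u : ℂ)‖) else 0) + (if u = 0 then 1 else 0) +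
        (if s - 1 < ‖(u : ℂ)‖ then 1 else 0) := by
    intro u hu
    have e1 : (0 : ℝ) ≤ (if u ≠ 0 then 2 * |(j : ℝ)| * (1 / ‖(u : ℂ)‖) else 0) := by
      split_ifs <;> positivity
    have e2 : (0 : ℝ) ≤ (if u = 0 then 1 else 0) := by split_ifs <;> norm_num
    have e3 : (0 : ℝ) ≤ (if s - 1 < ‖(u : ℂ)‖ then 1 else 0) := by split_ifs <;> norm_num
    by_cases h1 : ‖((α * u + c : G) : ℂ)‖ ≤ ‖(α : ℂ)‖ * s
    · by_cases h2 : ‖(u : ℂ)‖ ≤ s
      · rw [if_pos h1, if_pos h2]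
        by_cases h0 : u = 0
        · rw [if_neg (not_not.2 h0), if_pos h0, h0, mul_zero, xi_at_zero hj, sub_zero]
          have := norm_xi_le j (0 + c)
          rw [h0] at e3
          linarith
        · have h3 := xi_sub j hj (α * u) c (mul_ne_zero hα h0)
          rw [if_pos h0, if_neg h0]
          have h4 : ‖(c : ℂ)‖ / ‖((α * u : G) : ℂ)‖ ≤ 1 / ‖(u : ℂ)‖ := by
            rw [GaussianInt.toComplex_mul, norm_mul]
            rw [div_le_div_iff₀ (mul_pos hα0 (norm_pos h0)) (norm_pos h0)]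
            have := norm_pos h0
            nlinarith
          have h5 : 2 * |(j : ℝ)| * (‖(c : ℂ)‖ / ‖((α * u : G) : ℂ)‖) ≤
              2 * |(j : ℝ)| * (1 / ‖(u : ℂ)‖) := mul_le_mul_of_nonneg_left h4 (by positivity)
          linarith
      · rw [if_pos h1, if_neg h2, sub_zero]
        have h3 : s - 1 < ‖(u : ℂ)‖ := by linarith [not_le.1 h2]
        rw [if_pos h3] at e3 ⊢
        have := norm_xi_le j (α * u + c)
        linarith
    · by_cases h2 : ‖(u : ℂ)‖ ≤ s
      · rw [if_neg h1, if_pos h2, zero_sub, norm_neg]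
        have h3 : s - 1 < ‖(u : ℂ)‖ := by
          have h4 := (abs_le.1 (hnear u)).2
          have h5 := not_le.1 h1
          have h6 : ‖(α : ℂ)‖ * (s - 1) < ‖(α : ℂ)‖ * ‖(u : ℂ)‖ := by linarith
          exact lt_of_mul_lt_mul_left h6 hα0.le
        rw [if_pos h3] at e3 ⊢
        have := norm_xi_le j (α * u)
        linarith
      · rw [if_neg h1, if_neg h2, sub_zero, norm_zero]
        linarith
  refine (Finset.sum_le_sum hterm).trans ?_
  rw [Finset.sum_add_distrib, Finset.sum_add_distrib, ← Finset.sum_filter, ← Finset.sum_filter,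
    ← Finset.sum_filter, ← Finset.mul_sum, Finset.sum_const, Finset.sum_const, nsmul_eq_mul,
    nsmul_eq_mul, mul_one, mul_one]
  have a1 := sum_inv (s + 1) (by linarith)
  have a2 := hann s hs
  have a3 : ((B.filter (fun u => u = 0)).card : ℝ) ≤ 1 := by
    have : (B.filter (fun u => u = 0)).card ≤ 1 := by
      refine Finset.card_le_one.2 fun a ha b hb => ?_
      rw [(Finset.mem_filter.1 ha).2, (Finset.mem_filter.1 hb).2]
    exact_mod_cast this
  have a4 : 2 * |(j : ℝ)| * ∑ u ∈ B.filter (fun u => u ≠ 0), 1 / ‖(u : ℂ)‖ ≤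
      2 * |(j : ℝ)| * (8 * (s + 1)) := mul_le_mul_of_nonneg_left a1 (by positivity)
  have a5 : C * s ≤ C * |(j : ℝ)| * s := by
    have : C * s * 1 ≤ C * s * |(j : ℝ)| := mul_le_mul_of_nonneg_left hj1 (by positivity)
    linarith
  have a6 : s ≤ |(j : ℝ)| * s := by nlinarith
  nlinarith

open Classical in
/-- all residue classes -/
theorem all_classes : ∃ C : ℝ, 0 < C ∧ ∀ (α : G), α ≠ 0 → ∃ N : ℝ, 0 < N ∧ ∀ (s : ℝ) (j : ℤ),
    1 ≤ s → j ≠ 0 →
    ‖∑ z ∈ ball ((‖(α : ℂ)‖ * s) ^ 2), xi j z -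
      N * (xi j α * ∑ z ∈ ball (s ^ 2), xi j z)‖ ≤ N * (C * |(j : ℝ)| * s) := by
  obtain ⟨C, hC, hcl⟩ := class_bound
  refine ⟨C, hC, fun α hα => ?_⟩
  let I : Ideal G := Ideal.span {α}
  have hrep : ∀ q : G ⧸ I, ∃ c : G, Ideal.Quotient.mk I c = q ∧ ‖(c : ℂ)‖ ≤ ‖(α : ℂ)‖ := by
    intro q
    obtain ⟨z, rfl⟩ := Ideal.Quotient.mk_surjective q
    refine ⟨z % α, ?_, ?_⟩
    · rw [Ideal.Quotient.eq, Ideal.mem_span_singleton]
      have := EuclideanDomain.div_add_mod z α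
      refine ⟨-(z / α), ?_⟩
      linear_combination this
    · have h1 := GaussianInt.norm_mod_lt z hα
      have h2 : nm (z % α) ≤ nm α := by
        unfold nm
        have h3 := GaussianInt.norm_nonneg (z % α)
        omega
      rw [norm_eq_sqrt, norm_eq_sqrt]
      exact Real.sqrt_le_sqrt (by exact_mod_cast h2)
  choose c hc1 hc2 using hrep
  have hfin : Finite (G ⧸ I) := by
    have hinj : Function.Injective (fun q : G ⧸ I =>
        (⟨c q, (mem_ball_iff_norm (norm_nonneg _) _).2 (hc2 q)⟩ : {z // z ∈ ball (‖(α : ℂ)‖ ^ 2)})) := by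
      intro p q hpq
      have := congrArg (fun x : {z // z ∈ ball (‖(α : ℂ)‖ ^ 2)} => (x : G)) hpq
      rw [← hc1 p, ← hc1 q]
      exact congrArg _ this
    exact Finite.of_injective _ hinj
  have := Fintype.ofFinite (G ⧸ I)
  refine ⟨Fintype.card (G ⧸ I), ?_, fun s j hs hj => ?_⟩
  · have : 0 < Fintype.card (G ⧸ I) := Fintype.card_pos
    exact_mod_cast this
  have h1 : ∑ z ∈ ball ((‖(α : ℂ)‖ * s) ^ 2), xi j z =
      ∑ q : G ⧸ I, ∑ z ∈ (ball ((‖(α : ℂ)‖ * s) ^ 2)).filter (fun z => α ∣ z - c q), xi j z := by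
    rw [← Finset.sum_fiberwise (ball ((‖(α : ℂ)‖ * s) ^ 2)) (fun z => Ideal.Quotient.mk I z)]
    refine Finset.sum_congr rfl fun q _ => ?_
    refine Finset.sum_congr ?_ fun _ _ => rfl
    ext z
    rw [Finset.mem_filter, Finset.mem_filter]
    refine and_congr_right fun _ => ?_
    conv_lhs => rw [← hc1 q]
    rw [Ideal.Quotient.eq, Ideal.mem_span_singleton]
  have h2 : ((Fintype.card (G ⧸ I) : ℕ) : ℂ) * (xi j α * ∑ z ∈ ball (s ^ 2), xi j z) =
      ∑ _q : G ⧸ I, (xi j α * ∑ z ∈ ball (s ^ 2), xi j z) := by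
    rw [Finset.sum_const, Finset.card_univ, nsmul_eq_mul]
  rw [h1]
  push_cast
  rw [h2, ← Finset.sum_sub_distrib]
  refine (norm_sum_le _ _).trans ?_
  refine (Finset.sum_le_sum fun q _ => hcl s j α (c q) hs hj hα (hc2 q)).trans ?_
  rw [Finset.sum_const, Finset.card_univ, nsmul_eq_mul]

theorem sum_neg (X : ℝ) (j : ℤ) : ∑ z ∈ ball X, xi (-j) z = ∑ z ∈ ball X, xi j z := by
  by_cases hj : j = 0
  · rw [hj, neg_zero]
  refine Finset.sum_bij (fun z _ => star z) ?_ ?_ ?_ ?_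
  · intro z hz
    rw [mem_ball, nm_star]
    exact mem_ball.1 hz
  · intro z _ w _ h
    exact star_injective h
  · intro z hz
    refine ⟨star z, ?_, star_star z⟩
    rw [mem_ball, nm_star]
    exact mem_ball.1 hz
  · intro z _
    by_cases hz : z = 0
    · rw [hz, star_zero, xi_at_zero hj, xi_at_zero (neg_ne_zero.2 hj)]
    · rw [xi_star _ hz]

/-- the auxiliary multiplier -/
theorem exists_alpha (j : ℤ) (hj : j ≠ 0) : ∃ α : G, α ≠ 0 ∧ 1 ≤ ‖xi j α - xi (-j) α‖ := by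
  have hj1 : 1 ≤ |j| := Int.one_le_abs hj
  refine ⟨⟨|j|, 1⟩, ?_, ?_⟩
  · intro h
    have := congrArg Zsqrtd.im h
    simp at this
  set α : G := ⟨|j|, 1⟩ with hα
  have hα0 : α ≠ 0 := by
    intro h
    have := congrArg Zsqrtd.im h
    simp [hα] at this
  have hc : (α : ℂ) = ((|j| : ℤ) : ℂ) + I := by
    rw [toComplex_eq]
    simp [hα]
  have hre : (α : ℂ).re = |(j : ℝ)| := by rw [hc]; simp
  have him : (α : ℂ).im = 1 := by rw [hc]; simp
  set a : ℝ := |(j : ℝ)| with ha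
  have ha1 : 1 ≤ a := by
    rw [ha]
    exact_mod_cast hj1
  set θ := Complex.arg (α : ℂ) with hθ
  have hpos := norm_pos hα0
  have hdir : dir α = Complex.exp (θ * I) := by
    unfold dir
    have := Complex.norm_mul_exp_arg_mul_I (α : ℂ)
    rw [div_eq_iff (by exact_mod_cast hpos.ne'), mul_comm]
    exact this.symm
  have hθ0 : 0 ≤ θ := Complex.arg_nonneg_iff.2 (by rw [him]; norm_num)
  have hθ1 : θ < Real.pi / 2 := by
    have := (Complex.abs_arg_lt_pi_div_two_iff (z := (α : ℂ))).2 (Or.inl (by rw [hre]; linarith))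
    exact (le_abs_self _).trans_lt this
  have hsin : Real.sin θ = 1 / ‖(α : ℂ)‖ := by
    rw [hθ, Complex.sin_arg, him]
  have htan : Real.tan θ = 1 / a := by
    rw [hθ, Complex.tan_arg, him, hre]
  have hup : θ ≤ 1 / a := by
    rw [← htan]
    exact Real.le_tan hθ0 hθ1
  have hlow : 1 / ‖(α : ℂ)‖ ≤ θ := by
    rw [← hsin]
    exact Real.sin_le hθ0
  have hnsq : ‖(α : ℂ)‖ ^ 2 = a ^ 2 + 1 := by
    rw [← Complex.normSq_eq_norm_sq, Complex.normSq_apply, hre, him]
    ring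
  have hnle : ‖(α : ℂ)‖ ≤ (3 / 2) * a := by
    have : ‖(α : ℂ)‖ ^ 2 ≤ ((3 / 2) * a) ^ 2 := by
      rw [hnsq]; nlinarith
    exact le_of_sq_le_sq this (by positivity)
  have hx1 : a * θ ≤ 1 := by
    have : a * θ ≤ a * (1 / a) := mul_le_mul_of_nonneg_left hup (by linarith)
    rwa [mul_one_div_cancel (by linarith)] at this
  have hx2 : 2 / 3 ≤ a * θ := by
    have h1 : a * (1 / ‖(α : ℂ)‖) ≤ a * θ := mul_le_mul_of_nonneg_left hlow (by linarith)
    have h2 : 2 / 3 ≤ a * (1 / ‖(α : ℂ)‖) := by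
      rw [mul_one_div, le_div_iff₀ hpos]
      linarith
    linarith
  have hs : 1 / 2 ≤ Real.sin (a * θ) := by
    rw [← Real.sin_pi_div_six]
    have hpi := Real.pi_lt_d2
    have hpi' := Real.pi_gt_three
    apply Real.sin_le_sin_of_le_of_le_pi_div_two <;> linarith
  have hxi : ∀ k : ℤ, xi k α = Complex.exp ((k : ℂ) * (θ * I)) := by
    intro k
    unfold xi
    rw [hdir, ← Complex.exp_int_mul]
  have hdiff : xi j α - xi (-j) α = 2 * I * ((Real.sin ((j : ℝ) * θ) : ℝ) : ℂ) := by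
    rw [hxi, hxi, Complex.ofReal_sin, Complex.sin]
    push_cast
    have e1 : (j : ℂ) * (θ * I) = (j : ℂ) * θ * I := by ring
    have e2 : (-(j : ℂ)) * (θ * I) = -((j : ℂ) * θ) * I := by ring
    rw [e1, e2]
    have hI : I * I = -1 := Complex.I_mul_I
    linear_combination (-(Complex.exp (-((j : ℂ) * θ) * I) - Complex.exp ((j : ℂ) * θ * I))) * hI
  rw [hdiff, norm_mul, norm_mul, Complex.norm_I, Complex.norm_real, Real.norm_eq_abs]
  have habs : |Real.sin ((j : ℝ) * θ)| = |Real.sin (a * θ)| := by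
    rcases abs_choice (j : ℝ) with h | h
    · rw [ha, h]
    · rw [ha, h, neg_mul, Real.sin_neg, abs_neg]
  rw [habs, abs_of_pos (by linarith)]
  simp only [Complex.norm_ofNat, mul_one]
  linarith

end SmallJAux

open SmallJAux

/-- Let `W(t) = ∑_{z ∈ ball t} xi j z` and let `α` be a Gaussian integer with `|xi (2 j) α - 1| ≥ 1`,
e.g. `α = |j| + i`: its angle is `θ = arctan (1/|j|)` and `2 |j| θ ∈ [π/2, 2]`. With `A = nm α`,
`|W(A t) - A xi j α W(t)| ≤ C |j| A √t`: split `ball (A t)` into the `A` residue classes modulo `α`; the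
class of `c` (with `|c| ≤ |α|`) is compared with the class of `0`, i.e. `α * ball t`, by the translation
`z ↦ z - c`: `|xi j z - xi j (z - c)| ≤ 2 |j| |c| / |z|` and the number of `z` with
`√(A t) - |α| ≤ |z| ≤ √(A t) + |α|` is at most `C √(A t) |α|`, and `∑_{z ∈ ball s, z ≠ 0} 1/|z| ≤ C √s`.
The same holds with `star α` (same norm, `xi j (star α) = xi (-j) α`). Subtract:
`A |xi j α - xi (-j) α| |W(t)| ≤ C |j| A √t`. -/
theorem small_j : ∃ C : ℝ, 0 < C ∧ ∀ (t : ℝ) (j : ℤ), 1 ≤ t → j ≠ 0 →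
    ‖∑ z ∈ ball t, xi j z‖ ≤ C * |(j : ℝ)| * Real.sqrt t := by
  obtain ⟨C, hC, hall⟩ := all_classes
  refine ⟨2 * C, by positivity, fun t j ht hj => ?_⟩
  obtain ⟨α, hα0, hα⟩ := exists_alpha j hj
  obtain ⟨N, hN, hNs⟩ := hall α hα0
  set s := Real.sqrt t with hs
  have hs1 : 1 ≤ s := by
    rw [hs, Real.one_le_sqrt]
    exact ht
  have hst : s ^ 2 = t := Real.sq_sqrt (by linarith)
  have h1 := hNs s j hs1 hj
  have h2 := hNs s (-j) hs1 (neg_ne_zero.2 hj)
  rw [sum_neg, sum_neg, hst, Int.cast_neg, abs_neg] at h2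
  rw [hst] at h1
  set W := ∑ z ∈ ball t, xi j z with hW
  set Z := ∑ z ∈ ball ((‖(α : ℂ)‖ * s) ^ 2), xi j z with hZ
  have h3 : ‖(N : ℂ) * ((xi j α - xi (-j) α) * W)‖ ≤
      N * (C * |(j : ℝ)| * s) + N * (C * |(j : ℝ)| * s) := by
    have : (N : ℂ) * ((xi j α - xi (-j) α) * W) =
        (Z - N * (xi (-j) α * W)) - (Z - N * (xi j α * W)) := by ring
    rw [this]
    exact (norm_sub_le _ _).trans (add_le_add h2 h1)
  rw [norm_mul, norm_mul, Complex.norm_real, Real.norm_eq_abs, abs_of_pos hN] at h3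
  have h4 : N * (‖xi j α - xi (-j) α‖ * ‖W‖) ≤ N * (2 * (C * |(j : ℝ)| * s)) := by linarith
  have h5 := le_of_mul_le_mul_left h4 hN
  have h6 : 1 * ‖W‖ ≤ ‖xi j α - xi (-j) α‖ * ‖W‖ := mul_le_mul_of_nonneg_right hα (norm_nonneg _)
  linarith

end Pool.Agent.GaussMR

end
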