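import Mathlib
import Pool.Agent.Lib_MP_f1a94e_m.G01
import Pool.Agent.Lib_MP_f1a94e_m.G02

/-!
# MP_f1a94e_nt: merged library part G08

Concatenation of files of the libraries `Lib_MP_f1a94e_*` (each in its own section), only to save build time.
-/

/-! ### from `Lib_MP_f1a94e_mr.EdgeCount` -/

section

/-!
# Piece EDGECOUNT: edges and factorisations of `m ^ 2 + 1`
-/

set_option autoImplicit false

namespace Pool.Agent.GaussMR

open Finset

/-- at most four pairs with given scalar product, determinant `1` or `-1`, norm of the first -/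
theorem edge_fiber (P : Finset (G × G)) (n ε : ℤ) (g : ℕ) (hε : ε = 1 ∨ ε = -1)
    (h : ∀ r ∈ P, det r.1 r.2 = ε ∧ dot r.1 r.2 = n ∧ nm r.1 = g) : P.card ≤ 4 := by
  classical
  have hinj : Set.InjOn (fun r : G × G =>
      (((r.1.re, r.1.im) : ℤ × ℤ), ((ε * r.2.re, ε * r.2.im) : ℤ × ℤ))) (P : Set (G × G)) := by
    intro r _ s _ hrs
    simp only [Prod.mk.injEq] at hrs
    obtain ⟨⟨h1, h2⟩, h3, h4⟩ := hrs
    have hε0 : ε ≠ 0 := by rcases hε with h | h <;> rw [h] <;> norm_num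
    have h5 := mul_left_cancel₀ hε0 h3
    have h6 := mul_left_cancel₀ hε0 h4
    exact Prod.ext (Zsqrtd.ext h1 h2) (Zsqrtd.ext h5 h6)
  rw [← card_image_of_injOn hinj]
  apply ParityQuad.opp_fiber _ (ε * n) (g : ℤ)
  intro r hr
  obtain ⟨s, hs, rfl⟩ := mem_image.mp hr
  obtain ⟨h1, h2, h3⟩ := h s hs
  have hε2 : ε * ε = 1 := by rcases hε with h | h <;> rw [h] <;> norm_num
  simp only [ParityQuad.dt, ParityQuad.dp, ParityQuad.Nm]
  unfold det at h1
  unfold dot at h2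
  refine ⟨?_, ?_, ?_⟩
  · linear_combination ε * h1 + hε2
  · linear_combination ε * h2
  · have h4 := nm_eq s.1
    rw [h3] at h4
    exact h4.symm

/-- value of `F` at `m + i` -/
theorem F_dot_det (F : G → ℝ) (hF : PM F) (n ε : ℤ) (hε : |ε| = 1)
    (hodd : Odd (nm (⟨n, ε⟩ : G))) : F ⟨(n.natAbs : ℤ), 1⟩ = F ⟨n, ε⟩ := by
  have hstar : ∀ a b : ℤ, star (⟨a, b⟩ : G) = ⟨a, -b⟩ := by
    intro a b
    apply Zsqrtd.ext <;> simp
  have hneg : ∀ a b : ℤ, -(⟨a, b⟩ : G) = ⟨-a, -b⟩ := by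
    intro a b
    apply Zsqrtd.ext <;> simp
  have hodd1 : Odd (nm (star (⟨n, ε⟩ : G))) := by rw [nm_star]; exact hodd
  rcases Int.natAbs_eq n with hn | hn
  · rcases (abs_eq (by norm_num : (0 : ℤ) ≤ 1)).mp hε with h | h
    · rw [h, ← hn]
    · rw [h] at hodd ⊢
      have h1 := hF.conj ⟨n, -1⟩ hodd
      rw [hstar, neg_neg] at h1
      rw [← hn]
      exact h1
  · have hn' : (n.natAbs : ℤ) = -n := by omega
    rw [hn']
    rcases (abs_eq (by norm_num : (0 : ℤ) ≤ 1)).mp hε with h | h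
    · rw [h] at hodd hodd1 ⊢
      have h1 := hF.conj ⟨n, 1⟩ hodd
      have h2 := hF.neg hodd1
      rw [hstar, hneg, neg_neg] at h2
      rw [h2, ← h1, hstar]
    · rw [h] at hodd ⊢
      have h2 := hF.neg hodd
      rw [hneg, neg_neg] at h2
      exact h2

theorem tx_eq (X : ℝ) (m : ℕ) : tx X m = ((Nat.divisors (m ^ 2 + 1)).filter
    (fun d : ℕ => (d : ℝ) ≤ X ∧ ((m ^ 2 + 1 : ℕ) : ℝ) ≤ X * d)).card := by
  classical
  unfold tx
  rw [← Set.ncard_coe_finset]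
  congr 1
  ext d
  simp [Nat.mem_divisors]

open Classical in
/-- the edges with a given `m` -/
theorem edge_m (F : G → ℝ) (X : ℝ) (m : ℕ) :
    ((edges F X).filter (fun e => (dot e.1 e.2).natAbs = m)).card ≤ 16 * tx X m := by
  set E := (edges F X).filter (fun e => (dot e.1 e.2).natAbs = m) with hE
  set D := (Nat.divisors (m ^ 2 + 1)).filter
    (fun d : ℕ => (d : ℝ) ≤ X ∧ ((m ^ 2 + 1 : ℕ) : ℝ) ≤ X * d) with hD
  set f : G × G → Bool × ℤ × ℕ := fun e => (decide (0 ≤ dot e.1 e.2), det e.1 e.2, nm e.1) with hf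
  have hmem : ∀ e ∈ E, ((nm e.1 : ℝ) ≤ X ∧ Odd (nm e.1) ∧ Prim e.1) ∧
      ((nm e.2 : ℝ) ≤ X ∧ Odd (nm e.2) ∧ Prim e.2) ∧ |det e.1 e.2| = 1 ∧
      (dot e.1 e.2).natAbs = m := by
    intro e he
    rw [hE, mem_filter] at he
    unfold edges at he
    rw [mem_filter, mem_product, mem_V, mem_V] at he
    exact ⟨he.1.1.1, he.1.1.2, he.1.2.1, he.2⟩
  have himg : E.image f ⊆ (univ : Finset Bool) ×ˢ (({1, -1} : Finset ℤ) ×ˢ D) := by
    intro t ht
    obtain ⟨e, he, rfl⟩ := mem_image.mp ht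
    obtain ⟨h1, h2, h3, h4⟩ := hmem e he
    have hprod : nm e.1 * nm e.2 = m ^ 2 + 1 := by
      have h5 := dot_sq_add_det_sq e.1 e.2
      have h6 : det e.1 e.2 ^ 2 = 1 := by
        rw [← sq_abs, h3]; norm_num
      have h7 : dot e.1 e.2 ^ 2 = ((m ^ 2 : ℕ) : ℤ) := by
        rw [← h4]; push_cast; rw [sq_abs]
      rw [h6, h7] at h5
      exact_mod_cast h5.symm
    simp only [hf, mem_product, mem_univ, true_and, mem_insert, mem_singleton]
    refine ⟨(abs_eq (by norm_num : (0 : ℤ) ≤ 1)).mp h3, ?_⟩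
    rw [hD, mem_filter, Nat.mem_divisors]
    refine ⟨⟨⟨nm e.2, hprod.symm⟩, by positivity⟩, h1.1, ?_⟩
    rw [← hprod]
    push_cast
    rw [mul_comm]
    exact mul_le_mul_of_nonneg_right h2.1 (by positivity)
  have hfib : ∀ t ∈ E.image f, (E.filter (fun e => f e = t)).card ≤ 4 := by
    intro t ht
    have ht' := himg ht
    obtain ⟨s, ε, g⟩ := t
    simp only [mem_product, mem_univ, true_and, mem_insert, mem_singleton] at ht'
    apply edge_fiber _ (if s then (m : ℤ) else -(m : ℤ)) ε g ht'.1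
    intro r hr
    rw [mem_filter] at hr
    obtain ⟨h1, h2, h3, h4⟩ := hmem r hr.1
    simp only [hf, Prod.mk.injEq] at hr
    obtain ⟨_, hs, hε, hg⟩ := hr
    refine ⟨hε, ?_, hg⟩
    rw [← hs, ← h4]
    by_cases h0 : 0 ≤ dot r.1 r.2
    · simp only [h0, decide_true, if_true]
      exact (Int.natAbs_of_nonneg h0).symm
    · simp only [h0, decide_false, Bool.false_eq_true, if_false]
      omega
  have h1 := card_le_mul_card_image E 4 hfib
  have h2 := card_le_card himg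
  have h3 : ((univ : Finset Bool) ×ˢ (({1, -1} : Finset ℤ) ×ˢ D)).card = 4 * D.card := by
    rw [card_product, card_product, card_univ, Fintype.card_bool, card_pair (by norm_num)]
    ring
  rw [h3, hD, ← tx_eq] at h2
  calc E.card ≤ 4 * (E.image f).card := h1
    _ ≤ 4 * (4 * tx X m) := Nat.mul_le_mul_left _ h2
    _ = 16 * tx X m := by ring

/-- For an edge `(a, b)`: `star a * b = ⟨dot a b, ± 1⟩`; with `m = |dot a b|` and `d = nm a`,
`d ∣ m² + 1 = nm a nm b`, both factors at most `X` and odd, so `m` is even; and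
`F ⟨m, 1⟩ = F (star a * b) = F a F b = -1` (use `F (star z) = F z`, `F (-z) = F z`). Given `(m, d)` there
are at most 16 edges: 4 choices for `w = star a * b ∈ {±m ± i}`, and given `w`: two edges `(a, b)`,
`(a', b')` with `nm a = nm a'` and `star a * b = star a' * b' = w` satisfy `a' = unit * a`
(see also `ParityQuad.opp_fiber`, `opp_key`, `opp_inj` in Lib_MP_f1a94e_nt/Mult.lean). -/
theorem edge_count (F : G → ℝ) (hF : PM F) (X : ℝ) (B : Finset ℕ)
    (hB : ∀ m : ℕ, Even m → (m : ℝ) ≤ X → F ⟨(m : ℤ), 1⟩ = -1 → m ∈ B) :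
    ((edges F X).card : ℝ) ≤ 16 * ∑ m ∈ B, (tx X m : ℝ) := by
  classical
  have hsub : edges F X ⊆ B.biUnion
      (fun m => (edges F X).filter (fun e => (dot e.1 e.2).natAbs = m)) := by
    intro e he
    rw [mem_biUnion]
    refine ⟨(dot e.1 e.2).natAbs, ?_, mem_filter.mpr ⟨he, rfl⟩⟩
    unfold edges at he
    rw [mem_filter, mem_product, mem_V, mem_V] at he
    obtain ⟨⟨h1, h2⟩, h3, h4⟩ := he
    set m := (dot e.1 e.2).natAbs with hm
    have hprod : nm e.1 * nm e.2 = m ^ 2 + 1 := by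
      have h5 := dot_sq_add_det_sq e.1 e.2
      have h6 : det e.1 e.2 ^ 2 = 1 := by
        rw [← sq_abs, h3]; norm_num
      have h7 : dot e.1 e.2 ^ 2 = ((m ^ 2 : ℕ) : ℤ) := by
        rw [hm]; push_cast; rw [sq_abs]
      rw [h6, h7] at h5
      exact_mod_cast h5.symm
    have hodd : Odd (m ^ 2 + 1) := by rw [← hprod]; exact h1.2.1.mul h2.2.1
    have hX : 0 ≤ X := (by positivity : (0 : ℝ) ≤ nm e.1).trans h1.1
    apply hB
    · by_contra hne
      rw [Nat.not_even_iff_odd] at hne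
      have : Even (m ^ 2 + 1) := (hne.pow).add_odd odd_one
      exact (Nat.not_even_iff_odd.mpr hodd) this
    · have h5 : ((m ^ 2 + 1 : ℕ) : ℝ) ≤ X * X := by
        rw [← hprod]
        push_cast
        exact mul_le_mul h1.1 h2.1 (by positivity) hX
      push_cast at h5
      nlinarith [sq_nonneg ((m : ℝ) - X)]
    · have h5 : star e.1 * e.2 = ⟨dot e.1 e.2, det e.1 e.2⟩ := star_mul_eq _ _
      have hos : Odd (nm (star e.1)) := by rw [nm_star]; exact h1.2.1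
      have h6 : Odd (nm (⟨dot e.1 e.2, det e.1 e.2⟩ : G)) := by
        rw [← h5]
        exact odd_nm_mul.mpr ⟨hos, h2.2.1⟩
      rw [F_dot_det F hF _ _ h3 h6, ← h5, hF.mul _ _ hos h2.2.1, hF.conj _ h1.2.1,
        hF.mul_eq h1.2.1 h2.2.1, if_pos h4]
      norm_num
  calc ((edges F X).card : ℝ)
      ≤ ((B.biUnion (fun m => (edges F X).filter (fun e => (dot e.1 e.2).natAbs = m))).card : ℝ) := by
        exact_mod_cast card_le_card hsub
    _ ≤ ∑ m ∈ B, (((edges F X).filter (fun e => (dot e.1 e.2).natAbs = m)).card : ℝ) := by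
        exact_mod_cast card_biUnion_le
    _ ≤ ∑ m ∈ B, 16 * (tx X m : ℝ) := by
        apply sum_le_sum
        intro m _
        exact_mod_cast edge_m F X m
    _ = 16 * ∑ m ∈ B, (tx X m : ℝ) := by rw [mul_sum]

end Pool.Agent.GaussMR

end

/-! ### from `Lib_MP_f1a94e_aq.Exist` -/

section

/-!
# Piece EXIST: factorisations of `m ^ 2 + 1` and Farey edges
-/

set_option autoImplicit false

namespace Pool.Agent.OmAll

open Finset Pool.Agent.GaussMR

namespace Exist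

theorem key (n : ℕ) : ∀ m : ℤ, m.natAbs = n → ∀ d e : ℕ, (d : ℤ) * e = m ^ 2 + 1 →
    ∃ V V' : G, det V V' = 1 ∧ dot V V' = m ∧ nm V = d ∧ nm V' = e := by
  induction n using Nat.strong_induction_on with
  | _ n ih =>
  intro m hm d e h
  by_cases hm0 : m = 0
  · subst hm0
    have h1 : d * e = 1 := by
      have : (d : ℤ) * e = 1 := by rw [h]; norm_num
      exact_mod_cast this
    obtain rfl : d = 1 := Nat.dvd_one.1 (Dvd.intro _ h1)
    obtain rfl : e = 1 := Nat.dvd_one.1 (Dvd.intro_left _ h1)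
    refine ⟨⟨1, 0⟩, ⟨0, 1⟩, rfl, rfl, ?_, ?_⟩
    · have : ((nm (⟨1, 0⟩ : G) : ℕ) : ℤ) = ((1 : ℕ) : ℤ) := by rw [nm_eq]; norm_num
      exact_mod_cast this
    · have : ((nm (⟨0, 1⟩ : G) : ℕ) : ℤ) = ((1 : ℕ) : ℤ) := by rw [nm_eq]; norm_num
      exact_mod_cast this
  obtain ⟨s, hs, hsm⟩ : ∃ s : ℤ, s * s = 1 ∧ s * m = |m| := by
    rcases le_total 0 m with h0 | h0
    · exact ⟨1, by norm_num, by rw [one_mul, abs_of_nonneg h0]⟩
    · exact ⟨-1, by norm_num, by rw [abs_of_nonpos h0]; ring⟩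
  have hs1 : s = 1 ∨ s = -1 := by
    have : (s - 1) * (s + 1) = 0 := by linear_combination hs
    rcases mul_eq_zero.1 this with h1 | h1
    · left; omega
    · right; omega
  have hab : (m.natAbs : ℤ) = |m| := Int.natCast_natAbs m
  have hpos : 0 < |m| := abs_pos.2 hm0
  have habs2 : |m| * |m| = m ^ 2 := by rw [abs_mul_abs_self]; ring
  have hd0 : 0 < (d : ℤ) := by
    by_contra hc
    have : (d : ℤ) = 0 := by omega
    rw [this, zero_mul] at h
    nlinarith [sq_nonneg m]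
  have he0 : 0 < (e : ℤ) := by
    by_contra hc
    have : (e : ℤ) = 0 := by omega
    rw [this, mul_zero] at h
    nlinarith [sq_nonneg m]
  have hcase : (d : ℤ) ≤ |m| ∨ (e : ℤ) ≤ |m| := by
    by_contra hc
    push Not at hc
    obtain ⟨h1, h2⟩ := hc
    have h3 : (|m| + 1) * (|m| + 1) ≤ (d : ℤ) * e :=
      mul_le_mul (by omega) (by omega) (by omega) (by omega)
    nlinarith
  -- the absolute value of `m - s c`
  have hnat : ∀ c : ℤ, 0 < c → c ≤ |m| → (m - s * c).natAbs < n := by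
    intro c hc0 hc
    have h1 : |m - s * c| = |m| - c := by
      have h2 : m - s * c = s * (|m| - c) := by
        rw [← hsm]
        linear_combination (-m) * hs
      rw [h2, abs_mul]
      have h3 : |s| = 1 := by
        rcases hs1 with h | h <;> rw [h] <;> norm_num
      rw [h3, one_mul, abs_of_nonneg (by omega)]
    have h4 : ((m - s * c).natAbs : ℤ) = |m - s * c| := Int.natCast_natAbs _
    omega
  rcases hcase with hc | hc
  · have hprod : (d : ℤ) * (e - 2 * |m| + d) = (m - s * d) ^ 2 + 1 := by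
      rw [← hsm]
      linear_combination h - (d : ℤ) ^ 2 * hs
    have hpos1 : 0 < (e : ℤ) - 2 * |m| + d := by
      by_contra hn
      have h1 : (d : ℤ) * (e - 2 * |m| + d) ≤ 0 :=
        mul_nonpos_of_nonneg_of_nonpos hd0.le (by omega)
      rw [hprod] at h1
      nlinarith [sq_nonneg (m - s * d)]
    obtain ⟨e1, he1⟩ : ∃ e1 : ℕ, (e1 : ℤ) = e - 2 * |m| + d :=
      ⟨((e : ℤ) - 2 * |m| + d).toNat, Int.toNat_of_nonneg hpos1.le⟩
    obtain ⟨V, V'', h1, h2, h3, h4⟩ := ih _ (hnat d hd0 hc) (m - s * d) rfl d e1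
      (by rw [he1, hprod])
    have h3' : V.re ^ 2 + V.im ^ 2 = (d : ℤ) := by rw [← nm_eq, h3]
    have h4' : V''.re ^ 2 + V''.im ^ 2 = (e1 : ℤ) := by rw [← nm_eq, h4]
    unfold det at h1
    unfold dot at h2
    refine ⟨V, ⟨V''.re + s * V.re, V''.im + s * V.im⟩, ?_, ?_, h3, ?_⟩
    · unfold det
      simp only
      linear_combination h1
    · unfold dot
      simp only
      linear_combination h2 + s * h3'
    · have h5 : ((nm (⟨V''.re + s * V.re, V''.im + s * V.im⟩ : G) : ℕ) : ℤ) = (e : ℤ) := by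
        rw [nm_eq]
        simp only
        linear_combination h4' + s ^ 2 * h3' + 2 * s * h2 + he1 - (d : ℤ) * hs + 2 * hsm
      exact_mod_cast h5
  · have hprod : ((d : ℤ) - 2 * |m| + e) * e = (m - s * e) ^ 2 + 1 := by
      rw [← hsm]
      linear_combination h - (e : ℤ) ^ 2 * hs
    have hpos1 : 0 < (d : ℤ) - 2 * |m| + e := by
      by_contra hn
      have h1 : ((d : ℤ) - 2 * |m| + e) * e ≤ 0 :=
        mul_nonpos_of_nonpos_of_nonneg (by omega) he0.le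
      rw [hprod] at h1
      nlinarith [sq_nonneg (m - s * e)]
    obtain ⟨d1, hd1⟩ : ∃ d1 : ℕ, (d1 : ℤ) = d - 2 * |m| + e :=
      ⟨((d : ℤ) - 2 * |m| + e).toNat, Int.toNat_of_nonneg hpos1.le⟩
    obtain ⟨V'', V', h1, h2, h3, h4⟩ := ih _ (hnat e he0 hc) (m - s * e) rfl d1 e
      (by rw [hd1, hprod])
    have h3' : V''.re ^ 2 + V''.im ^ 2 = (d1 : ℤ) := by rw [← nm_eq, h3]
    have h4' : V'.re ^ 2 + V'.im ^ 2 = (e : ℤ) := by rw [← nm_eq, h4]
    unfold det at h1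
    unfold dot at h2
    refine ⟨⟨V''.re + s * V'.re, V''.im + s * V'.im⟩, V', ?_, ?_, ?_, h4⟩
    · unfold det
      simp only
      linear_combination h1
    · unfold dot
      simp only
      linear_combination h2 + s * h4'
    · have h5 : ((nm (⟨V''.re + s * V'.re, V''.im + s * V'.im⟩ : G) : ℕ) : ℤ) = (d : ℤ) := by
        rw [nm_eq]
        simp only
        linear_combination h3' + s ^ 2 * h4' + 2 * s * h2 + hd1 - (e : ℤ) * hs + 2 * hsm
      exact_mod_cast h5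

end Exist

/-- Every factorisation `m ^ 2 + 1 = d e` comes from an edge. Prove the version with `m : ℤ` by strong induction on
`m.natAbs`: if `m = 0` then `d = e = 1`, take `(1, i)`. Otherwise `min d e ≤ |m|` (else `d e ≥ (|m| + 1)^2`). If `d ≤ |m|`
apply the induction hypothesis to `(m - s d, d, e - 2 s m + d)`, `s = sign m` (`|m - s d| < |m|`, the product identity
`d (e - 2 s m + d) = (m - s d)^2 + 1`), getting `(V, V'')`, and take `V' = V'' + s V`. If `e ≤ |m|` symmetric: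
`(m - s e, d - 2 s m + e, e)`, `V = V'' + s V'`. -/
theorem exists_edge (m d e : ℕ) (h : d * e = m ^ 2 + 1) :
    ∃ V V' : G, det V V' = 1 ∧ dot V V' = m ∧ nm V = d ∧ nm V' = e :=
  Exist.key _ (m : ℤ) rfl d e (by exact_mod_cast h)

/-- Exactly four edges for every divisor: at most four by `edge_fiber` (mr/EdgeCount), and if `(V, V')` is one of
them (from `exists_edge`), so are `(i^k V, i^k V')`, `k < 4` (`i = ⟨0, 1⟩`), which are different as `V ≠ 0`. -/
theorem four (m d : ℕ) (h : d ∣ m ^ 2 + 1) :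
    {e : G × G | det e.1 e.2 = 1 ∧ dot e.1 e.2 = m ∧ nm e.1 = d}.ncard = 4 := by
  classical
  obtain ⟨e, he⟩ := h
  obtain ⟨V, V', h1, h2, h3, _⟩ := exists_edge m d e he.symm
  have hd0 : 0 < d := by
    rcases Nat.eq_zero_or_pos d with h | h
    · rw [h, zero_mul] at he
      omega
    · exact h
  have hV : V.re ^ 2 + V.im ^ 2 = (d : ℤ) := by rw [← nm_eq, h3]
  have hV0 : V.re ≠ 0 ∨ V.im ≠ 0 := by
    by_contra hc
    push Not at hc
    rw [hc.1, hc.2] at hV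
    have : (0 : ℤ) < d := by exact_mod_cast hd0
    simp at hV
    omega
  set S := {e : G × G | det e.1 e.2 = 1 ∧ dot e.1 e.2 = m ∧ nm e.1 = d} with hS
  have hmem : ∀ r : G × G, r ∈ S ↔ det r.1 r.2 = 1 ∧ dot r.1 r.2 = m ∧ nm r.1 = d :=
    fun _ => Iff.rfl
  unfold det at h1
  unfold dot at h2
  have hnmr : ∀ a b : ℤ, a ^ 2 + b ^ 2 = (d : ℤ) → nm (⟨a, b⟩ : G) = d := by
    intro a b hab
    have : ((nm (⟨a, b⟩ : G) : ℕ) : ℤ) = (d : ℤ) := by rw [nm_eq]; exact hab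
    exact_mod_cast this
  let P : Finset (G × G) := {(⟨V.re, V.im⟩, ⟨V'.re, V'.im⟩), (⟨-V.im, V.re⟩, ⟨-V'.im, V'.re⟩),
    (⟨-V.re, -V.im⟩, ⟨-V'.re, -V'.im⟩), (⟨V.im, -V.re⟩, ⟨V'.im, -V'.re⟩)}
  have hPS : ∀ r ∈ P, r ∈ S := by
    intro r hr
    simp only [P, Finset.mem_insert, Finset.mem_singleton] at hr
    rw [hmem]
    unfold det dot
    rcases hr with rfl | rfl | rfl | rfl
    · exact ⟨h1, h2, hnmr _ _ hV⟩
    · refine ⟨by simp only; linear_combination h1, by simp only; linear_combination h2,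
        hnmr _ _ (by linear_combination hV)⟩
    · refine ⟨by simp only; linear_combination h1, by simp only; linear_combination h2,
        hnmr _ _ (by linear_combination hV)⟩
    · refine ⟨by simp only; linear_combination h1, by simp only; linear_combination h2,
        hnmr _ _ (by linear_combination hV)⟩
  have hP4 : P.card = 4 := by
    have hne : ∀ a b a' b' : ℤ, ∀ w w' : G, ¬ (a = a' ∧ b = b') →
        ((⟨a, b⟩, w) : G × G) ≠ (⟨a', b'⟩, w') := by
      intro a b a' b' w w' hc hh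
      apply hc
      have h5 := congrArg Prod.fst hh
      exact ⟨congrArg Zsqrtd.re h5, congrArg Zsqrtd.im h5⟩
    rw [Finset.card_insert_of_notMem, Finset.card_insert_of_notMem,
      Finset.card_insert_of_notMem, Finset.card_singleton]
    · rw [Finset.mem_singleton]
      exact hne _ _ _ _ _ _ (by omega)
    · rw [Finset.mem_insert, Finset.mem_singleton, not_or]
      exact ⟨hne _ _ _ _ _ _ (by omega), hne _ _ _ _ _ _ (by omega)⟩
    · rw [Finset.mem_insert, Finset.mem_insert, Finset.mem_singleton, not_or, not_or]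
      exact ⟨hne _ _ _ _ _ _ (by omega), hne _ _ _ _ _ _ (by omega),
        hne _ _ _ _ _ _ (by omega)⟩
  have hSP : S = (P : Set (G × G)) := by
    apply Set.Subset.antisymm
    · intro x hx
      by_contra hxP
      rw [Finset.mem_coe] at hxP
      have h5 := edge_fiber (insert x P) m 1 d (Or.inl rfl) (by
        intro r hr
        rcases Finset.mem_insert.1 hr with rfl | hr
        · exact (hmem _).1 hx
        · exact (hmem _).1 (hPS r hr))
      rw [Finset.card_insert_of_notMem hxP, hP4] at h5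
      omega
    · intro x hx
      exact hPS x (Finset.mem_coe.1 hx)
  rw [hSP, Set.ncard_coe_finset, hP4]

end Pool.Agent.OmAll

end

/-! ### from `Lib_MP_f1a94e_aq.Tail` -/

section

/-!
# Piece TAIL: the number of pairs with `tt` in a unit interval
-/

set_option autoImplicit false

namespace Pool.Agent.OmAll

open Finset Pool.Agent.GaussMR

namespace TailP

theorem smul_re (k : ℤ) (V : G) : ((k : G) * V).re = k * V.re := by simp

theorem smul_im (k : ℤ) (V : G) : ((k : G) * V).im = k * V.im := by simp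

/-- two second vectors of edges with the same first vector differ by a multiple of it -/
theorem diff_mul {V W W' : G} (h : det V W = 1) (h' : det V W' = 1) : ∃ k : ℤ, W' = W + (k : G) * V := by
  unfold det at h h'
  refine ⟨(W'.re - W.re) * W.im - (W'.im - W.im) * W.re, ?_⟩
  apply Zsqrtd.ext
  · rw [Zsqrtd.re_add, smul_re]
    linear_combination (-(W'.re - W.re)) * h + W.re * (h' - h)
  · rw [Zsqrtd.im_add, smul_im]
    linear_combination (-(W'.im - W.im)) * h + W.im * (h' - h)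

theorem dot_add_mul (V W : G) (k : ℤ) : dot V (W + (k : G) * V) = dot V W + k * nm V := by
  rw [nm_eq]
  unfold dot
  rw [Zsqrtd.re_add, Zsqrtd.im_add, smul_re, smul_im]
  ring

/-- the edges with given first vector are contained in a small finite set -/
theorem edges_sub (V : G) (a b : ℝ) (hab : a ≤ b) :
    ∃ s : Finset G, {V' : G | det V V' = 1 ∧ a ≤ ((dot V V' : ℤ) : ℝ) ∧ ((dot V V' : ℤ) : ℝ) ≤ b} ⊆ s ∧
      (s.card : ℝ) ≤ (b - a) / nm V + 1 := by
  classical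
  have h0 : (0 : ℝ) ≤ (b - a) / nm V + 1 := by
    have : (0 : ℝ) ≤ (b - a) / nm V := div_nonneg (by linarith) (Nat.cast_nonneg _)
    linarith
  by_cases hne : {V' : G | det V V' = 1 ∧ a ≤ ((dot V V' : ℤ) : ℝ) ∧ ((dot V V' : ℤ) : ℝ) ≤ b}.Nonempty
  · obtain ⟨W, hW, _, _⟩ := hne
    have hV : V ≠ 0 := by
      rintro rfl
      unfold det at hW
      simp at hW
    have hn : (0 : ℝ) < nm V := by exact_mod_cast nm_pos hV
    set n : ℝ := (nm V : ℝ) with hndef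
    set d : ℝ := ((dot V W : ℤ) : ℝ) with hd
    refine ⟨(Icc ⌈(a - d) / n⌉ ⌊(b - d) / n⌋).image (fun k : ℤ => W + (k : G) * V), ?_, ?_⟩
    · rintro W' ⟨h1, h2, h3⟩
      obtain ⟨k, rfl⟩ := diff_mul hW h1
      rw [dot_add_mul] at h2 h3
      push_cast at h2 h3
      rw [Finset.mem_coe, mem_image]
      refine ⟨k, ?_, rfl⟩
      rw [mem_Icc]
      constructor
      · rw [Int.ceil_le, div_le_iff₀ hn]
        linarith
      · rw [Int.le_floor, le_div_iff₀ hn]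
        linarith
    · refine le_trans (Nat.cast_le.2 card_image_le) ?_
      rw [Int.card_Icc]
      rcases le_or_gt (⌊(b - d) / n⌋ + 1 - ⌈(a - d) / n⌉) 0 with h | h
      · rw [Int.toNat_of_nonpos h]
        simpa using h0
      · have h5 : (((⌊(b - d) / n⌋ + 1 - ⌈(a - d) / n⌉).toNat : ℕ) : ℝ) =
            ((⌊(b - d) / n⌋ + 1 - ⌈(a - d) / n⌉ : ℤ) : ℝ) := by
          have := Int.toNat_of_nonneg h.le
          exact_mod_cast this
        rw [h5]
        push_cast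
        have h6 := Int.floor_le ((b - d) / n)
        have h7 := Int.le_ceil ((a - d) / n)
        have h8 : (b - a) / n = (b - d) / n - (a - d) / n := by ring
        rw [h8]
        linarith
  · rw [Set.not_nonempty_iff_eq_empty] at hne
    rw [hne]
    exact ⟨∅, Set.empty_subset _, by simpa using h0⟩

/-- nonzero vectors of norm at most `R` -/
theorem ball_sub (R : ℝ) (hR : 0 ≤ R) :
    ∃ s : Finset G, (∀ z : G, z ≠ 0 → (nm z : ℝ) ≤ R → z ∈ s) ∧ (∀ z ∈ s, z ≠ 0) ∧ (s.card : ℝ) ≤ 9 * R := by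
  classical
  rcases lt_or_ge R 1 with h1 | h1
  · refine ⟨∅, ?_, by simp, by simpa using hR⟩
    intro z hz hzR
    exfalso
    have : (1 : ℝ) ≤ nm z := by exact_mod_cast nm_pos hz
    linarith
  · set s : ℤ := ⌊Real.sqrt R⌋ with hs
    have hs1 : 1 ≤ s := by
      rw [hs, Int.le_floor]
      push_cast
      rw [Real.one_le_sqrt]
      exact h1
    have hs2 : (s : ℝ) ^ 2 ≤ R := by
      have h2 : (s : ℝ) ≤ Real.sqrt R := Int.floor_le _
      have h3 : (0 : ℝ) ≤ s := by exact_mod_cast (by omega : (0 : ℤ) ≤ s)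
      calc (s : ℝ) ^ 2 ≤ (Real.sqrt R) ^ 2 := pow_le_pow_left₀ h3 h2 2
        _ = R := Real.sq_sqrt hR
    refine ⟨((Icc (-s) s ×ˢ Icc (-s) s).image (fun w : ℤ × ℤ => (⟨w.1, w.2⟩ : G))).filter (fun z => z ≠ 0),
      ?_, fun z hz => (mem_filter.1 hz).2, ?_⟩
    · intro z hz hzR
      rw [mem_filter]
      refine ⟨?_, hz⟩
      rw [mem_image]
      refine ⟨(z.re, z.im), ?_, rfl⟩
      have h4 : ((z.re : ℤ) : ℝ) ^ 2 + ((z.im : ℤ) : ℝ) ^ 2 ≤ R := by
        have h5 : ((nm z : ℤ) : ℝ) = ((z.re ^ 2 + z.im ^ 2 : ℤ) : ℝ) := by rw [nm_eq]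
        push_cast at h5
        rw [← h5]
        exact hzR
      have key : ∀ t : ℤ, (t : ℝ) ^ 2 ≤ R → -s ≤ t ∧ t ≤ s := by
        intro t ht
        have h6 := Real.abs_le_sqrt ht
        rw [abs_le] at h6
        constructor
        · have : -t ≤ s := by
            rw [hs, Int.le_floor]
            push_cast
            linarith [h6.1]
          linarith
        · rw [hs, Int.le_floor]
          exact h6.2
      rw [mem_product, mem_Icc, mem_Icc]
      exact ⟨key _ (by nlinarith [sq_nonneg ((z.im : ℤ) : ℝ)]), key _ (by nlinarith [sq_nonneg ((z.re : ℤ) : ℝ)])⟩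
    · refine le_trans (Nat.cast_le.2 ((card_filter_le _ _).trans card_image_le)) ?_
      rw [card_product, Int.card_Icc]
      have h5 : (((s + 1 - -s).toNat : ℕ) : ℝ) = 2 * (s : ℝ) + 1 := by
        have h6 : (((s + 1 - -s).toNat : ℕ) : ℤ) = s + 1 - -s := Int.toNat_of_nonneg (by omega)
        have h7 : (((s + 1 - -s).toNat : ℕ) : ℝ) = ((s + 1 - -s : ℤ) : ℝ) := by exact_mod_cast h6
        rw [h7]
        push_cast
        ring
      push_cast
      rw [h5]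
      have h6 : (1 : ℝ) ≤ s := by exact_mod_cast hs1
      nlinarith

/-- the pairs and the exponential of `tt` -/
theorem tt_le {x : ℝ} {r : ℕ × ℕ} (hr : r ∈ pd x) (A : ℝ) :
    (A ≤ tt r → (r.2 : ℝ) * Real.exp (A / 2) ≤ r.1 + 1) ∧
      (tt r ≤ A → (r.1 : ℝ) ≤ r.2 * Real.exp (A / 2)) := by
  rw [mem_pd] at hr
  obtain ⟨h1, h2, h3, h4⟩ := hr
  have hd : 0 < r.2 := Nat.pos_of_dvd_of_pos h4 (by positivity)
  have hd' : (0 : ℝ) < r.2 := by exact_mod_cast hd
  have hm : (0 : ℝ) ≤ r.1 := Nat.cast_nonneg _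
  have he := Real.exp_pos (A / 2)
  have hlog : Real.log (((r.2 : ℝ) * Real.exp (A / 2)) ^ 2) = A + 2 * Real.log r.2 := by
    rw [Real.log_pow, Real.log_mul hd'.ne' he.ne', Real.log_exp]
    push_cast
    ring
  have hp : (0 : ℝ) < (r.1 : ℝ) ^ 2 + 1 := by positivity
  have hp2 : (0 : ℝ) < ((r.2 : ℝ) * Real.exp (A / 2)) ^ 2 := by positivity
  unfold tt
  constructor
  · intro h
    have h5 : Real.log (((r.2 : ℝ) * Real.exp (A / 2)) ^ 2) ≤ Real.log ((r.1 : ℝ) ^ 2 + 1) := by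
      rw [hlog]
      linarith
    have h6 := (Real.log_le_log_iff hp2 hp).1 h5
    nlinarith [mul_pos hd' he]
  · intro h
    have h5 : Real.log ((r.1 : ℝ) ^ 2 + 1) ≤ Real.log (((r.2 : ℝ) * Real.exp (A / 2)) ^ 2) := by
      rw [hlog]
      linarith
    have h6 := (Real.log_le_log_iff hp hp2).1 h5
    nlinarith [mul_pos hd' he]

theorem tt_symm {m d e : ℕ} (hd : 0 < d) (he : 0 < e) (h : d * e = m ^ 2 + 1) :
    tt (m, e) = - tt (m, d) := by
  have hd' : (0 : ℝ) < d := by exact_mod_cast hd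
  have he' : (0 : ℝ) < e := by exact_mod_cast he
  have h1 : ((m : ℝ) ^ 2 + 1) = d * e := by exact_mod_cast h.symm
  unfold tt
  simp only
  rw [h1, Real.log_mul hd'.ne' he'.ne']
  ring

theorem tail0 (x : ℝ) (hx : 1 ≤ x) (A : ℝ) (hA : -1 ≤ A) :
    {r : ℕ × ℕ | r ∈ pd x ∧ A ≤ tt r ∧ tt r ≤ A + 1}.Finite ∧
    ({r : ℕ × ℕ | r ∈ pd x ∧ A ≤ tt r ∧ tt r ≤ A + 1}.ncard : ℝ) ≤ 90 * x := by
  classical
  set E := Real.exp (A / 2) with hE
  have hE0 : 0 < E := Real.exp_pos _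
  have hE2 : Real.exp (1 / 2) ≤ 2 := by
    have h1 : Real.exp (1 / 2) ^ 2 = Real.exp 1 := by
      rw [← Real.exp_nat_mul]
      norm_num
    have h2 := Real.exp_one_lt_d9
    have h3 := Real.exp_pos (1 / 2)
    nlinarith
  have hE1 : 1 ≤ 2 * E := by
    have h1 : Real.exp (A / 2) * Real.exp (1 / 2) = Real.exp (A / 2 + 1 / 2) := (Real.exp_add _ _).symm
    have h2 : 1 ≤ Real.exp (A / 2 + 1 / 2) := Real.one_le_exp (by linarith)
    rw [← h1] at h2
    nlinarith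
  have hE3 : Real.exp ((A + 1) / 2) ≤ 2 * E := by
    rw [show (A + 1) / 2 = A / 2 + 1 / 2 by ring, Real.exp_add]
    nlinarith
  have hE4 : E ≤ Real.exp ((A + 1) / 2) := Real.exp_le_exp.2 (by linarith)
  set E' := Real.exp ((A + 1) / 2) with hE'
  obtain ⟨B, hB1, hB2, hB3⟩ := ball_sub ((x + 1) / E) (by positivity)
  have hex : ∀ V : G, ∃ s : Finset G, {V' : G | det V V' = 1 ∧ (nm V : ℝ) * E - 1 ≤ ((dot V V' : ℤ) : ℝ) ∧
      ((dot V V' : ℤ) : ℝ) ≤ (nm V : ℝ) * E'} ⊆ s ∧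
      (s.card : ℝ) ≤ ((nm V : ℝ) * E' - ((nm V : ℝ) * E - 1)) / nm V + 1 := by
    intro V
    apply edges_sub
    have : (nm V : ℝ) * E ≤ (nm V : ℝ) * E' := mul_le_mul_of_nonneg_left hE4 (Nat.cast_nonneg _)
    linarith
  choose F hF1 hF2 using hex
  set P : Finset (ℕ × ℕ) := B.biUnion (fun V => (F V).image (fun V' => ((dot V V').toNat, nm V))) with hP
  have hsub : {r : ℕ × ℕ | r ∈ pd x ∧ A ≤ tt r ∧ tt r ≤ A + 1} ⊆ (P : Set (ℕ × ℕ)) := by
    rintro ⟨m, d⟩ ⟨hr, h1, h2⟩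
    obtain ⟨h3, _⟩ := tt_le hr A
    obtain ⟨_, h4⟩ := tt_le hr (A + 1)
    have h5 := h3 h1
    have h6 := h4 h2
    rw [mem_pd] at hr
    obtain ⟨h7, h8, _, e, he⟩ := hr
    simp only at h5 h6 h7 h8 he
    obtain ⟨V, V', h9, h10, h11, _⟩ := exists_edge m d e he.symm
    have hV : V ≠ 0 := by
      rintro rfl
      unfold det at h9
      simp at h9
    rw [Finset.mem_coe, hP, mem_biUnion]
    refine ⟨V, hB1 V hV ?_, ?_⟩
    · rw [le_div_iff₀ hE0, h11]
      linarith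
    · rw [mem_image]
      refine ⟨V', ?_, ?_⟩
      · have h12 : V' ∈ {V' : G | det V V' = 1 ∧ (nm V : ℝ) * E - 1 ≤ ((dot V V' : ℤ) : ℝ) ∧
            ((dot V V' : ℤ) : ℝ) ≤ (nm V : ℝ) * E'} := by
          refine ⟨h9, ?_, ?_⟩
          · rw [h10, h11]
            push_cast
            linarith
          · rw [h10, h11]
            push_cast
            exact h6
        exact hF1 V h12
      · rw [h10, h11]
        rfl
  refine ⟨(P.finite_toSet).subset hsub, ?_⟩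
  have h1 : {r : ℕ × ℕ | r ∈ pd x ∧ A ≤ tt r ∧ tt r ≤ A + 1}.ncard ≤ P.card := by
    have := Set.ncard_le_ncard hsub P.finite_toSet
    rwa [Set.ncard_coe_finset] at this
  have h2 : (P.card : ℝ) ≤ B.card * (5 * E) := by
    have h3 : P.card ≤ ∑ V ∈ B, (F V).card :=
      card_biUnion_le.trans (Finset.sum_le_sum (fun V _ => card_image_le))
    calc (P.card : ℝ) ≤ ((∑ V ∈ B, (F V).card : ℕ) : ℝ) := by exact_mod_cast h3
      _ = ∑ V ∈ B, ((F V).card : ℝ) := by push_cast; rfl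
      _ ≤ ∑ V ∈ B, (5 * E) := by
          refine Finset.sum_le_sum (fun V hV => (hF2 V).trans ?_)
          have hn : (1 : ℝ) ≤ nm V := by exact_mod_cast nm_pos (hB2 V hV)
          have h4 : ((nm V : ℝ) * E' - ((nm V : ℝ) * E - 1)) / nm V = E' - E + 1 / nm V := by
            field_simp
            ring
          rw [h4]
          have h5 : (1 : ℝ) / nm V ≤ 1 := by
            rw [div_le_one (by linarith)]
            exact hn
          linarith
      _ = B.card * (5 * E) := by rw [sum_const, nsmul_eq_mul]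
  calc _ ≤ (P.card : ℝ) := by exact_mod_cast h1
    _ ≤ B.card * (5 * E) := h2
    _ ≤ 9 * ((x + 1) / E) * (5 * E) := by gcongr
    _ = 45 * (x + 1) := by field_simp; ring
    _ ≤ 90 * x := by linarith

end TailP

/-- The number of edges for given first vector: `star V V' = m + i`, so `m` determines `V' = V (m + i) / nm V`, and two values
of `m` for the same `V` differ by a multiple of `nm V` (`V' - V''` is a multiple of `V` because `det (V, V' - V'') = 0` and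
`V` is primitive, and `dot (V, k V) = k nm V`). So `m` in an interval `[a, b]` gives at most `(b - a) / nm V + 1` edges. -/
theorem edges_fixed (V : G) (a b : ℝ) (hab : a ≤ b) :
    ({V' : G | det V V' = 1 ∧ a ≤ ((dot V V' : ℤ) : ℝ) ∧ ((dot V V' : ℤ) : ℝ) ≤ b}.ncard : ℝ) ≤
      (b - a) / nm V + 1 := by
  obtain ⟨s, h1, h2⟩ := TailP.edges_sub V a b hab
  refine le_trans ?_ h2
  have := Set.ncard_le_ncard h1 s.finite_toSet
  rw [Set.ncard_coe_finset] at this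
  exact_mod_cast this

/-- By symmetry (`(m, d) ↦ (m, (m^2+1)/d)` changes the sign of `tt`) one may assume the interval to be `[A, A + 1)` with `A ≥ -1`; say
`A ≥ 0` or `-1 ≤ A < 0` (treat `[-1, 1]` together if convenient). For `r = (m, d)` take the edge `(V, V')` from `exists_edge`, `nm V = d`,
`m^2 + 1 = d^2 exp (tt r)`. So `d ≤ (x + 1) exp (-A/2)` and `m` is in an interval of length `≤ C exp(A/2) d` (`m + 1 ≥ sqrt (m^2+1) ≥ d exp(A/2)`,
`m ≤ d exp((A+1)/2)`). The number of `V` is at most `9 (x + 1) exp (-A/2)` (`ball_le`-type bound; no `V` at all if this is small as `nm V ≥ 1`), each gives at most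
`C exp (A/2) + 1 ≤ C' exp (A/2)` edges (`edges_fixed`). Total `≤ C'' (x + 1)`. -/
theorem tail : ∃ C : ℝ, 0 < C ∧ ∀ x : ℝ, 1 ≤ x → ∀ A : ℝ,
    ({r : ℕ × ℕ | r ∈ pd x ∧ A ≤ tt r ∧ tt r < A + 1}.ncard : ℝ) ≤ C * x := by
  refine ⟨90, by norm_num, fun x hx A => ?_⟩
  rcases le_or_gt (-1) A with hA | hA
  · obtain ⟨h1, h2⟩ := TailP.tail0 x hx A hA
    refine le_trans ?_ h2
    have h3 : {r : ℕ × ℕ | r ∈ pd x ∧ A ≤ tt r ∧ tt r < A + 1} ⊆
        {r : ℕ × ℕ | r ∈ pd x ∧ A ≤ tt r ∧ tt r ≤ A + 1} := fun r hr => ⟨hr.1, hr.2.1, hr.2.2.le⟩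
    exact_mod_cast Set.ncard_le_ncard h3 h1
  · obtain ⟨h1, h2⟩ := TailP.tail0 x hx (-A - 1) (by linarith)
    refine le_trans ?_ h2
    have key : ∀ r : ℕ × ℕ, r ∈ pd x → 0 < r.2 ∧ 0 < (r.1 ^ 2 + 1) / r.2 ∧
        r.2 * ((r.1 ^ 2 + 1) / r.2) = r.1 ^ 2 + 1 := by
      intro r hr
      rw [mem_pd] at hr
      have h3 : 0 < r.2 := Nat.pos_of_dvd_of_pos hr.2.2.2 (by positivity)
      refine ⟨h3, Nat.div_pos (Nat.le_of_dvd (by positivity) hr.2.2.2) h3, Nat.mul_div_cancel' hr.2.2.2⟩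
    exact_mod_cast Set.ncard_le_ncard_of_injOn (fun r : ℕ × ℕ => (r.1, (r.1 ^ 2 + 1) / r.2))
      (by
        rintro ⟨m, d⟩ ⟨hr, h3, h4⟩
        obtain ⟨h5, h6, h7⟩ := key _ hr
        simp only at h5 h6 h7
        have h8 := TailP.tt_symm h5 h6 h7
        refine ⟨?_, ?_, ?_⟩
        · rw [mem_pd] at hr ⊢
          exact ⟨hr.1, hr.2.1, hr.2.2.1, Dvd.intro_left _ h7⟩
        · simp only
          rw [h8]
          linarith
        · simp only
          rw [h8]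
          linarith)
      (by
        rintro ⟨m, d⟩ ⟨hr, _⟩ ⟨m', d'⟩ ⟨hr', _⟩ h
        obtain ⟨h5, h6, h7⟩ := key _ hr
        obtain ⟨h5', h6', h7'⟩ := key _ hr'
        simp only [Prod.mk.injEq] at h h5 h6 h7 h5' h6' h7'
        obtain ⟨rfl, h⟩ := h
        rw [← h] at h7'
        have h9 : d * ((m ^ 2 + 1) / d) = d' * ((m ^ 2 + 1) / d) := h7.trans h7'.symm
        rw [Nat.eq_of_mul_eq_mul_right h6 h9])
      h1

end Pool.Agent.OmAll

end

/-! ### from `Lib_MP_f1a94e_aq.DEdges` -/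

section

/-!
# Piece DEDGES: pairs `(m, d)` and edges
-/

set_option autoImplicit false

namespace Pool.Agent.OmAll

open Finset Pool.Agent.GaussMR Filter

/-- the edges above `r = (m, d)` -/
def fibD (r : ℕ × ℕ) : Set (G × G) := {e : G × G | det e.1 e.2 = 1 ∧ dot e.1 e.2 = r.1 ∧ nm e.1 = r.2}

theorem prod_of_mem {r : ℕ × ℕ} {e : G × G} (he : e ∈ fibD r) : r.2 * nm e.2 = r.1 ^ 2 + 1 := by
  obtain ⟨h1, h2, h3⟩ := he
  have h4 := dot_sq_add_det_sq e.1 e.2
  rw [h1, h2, h3] at h4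
  have h5 : ((r.2 * nm e.2 : ℕ) : ℤ) = ((r.1 ^ 2 + 1 : ℕ) : ℤ) := by
    push_cast
    linarith
  exact_mod_cast h5

theorem dvd_iff_primes {g n : ℕ} (hg : Squarefree g) : g ∣ n ↔ ∀ p ∈ g.primeFactors, p ∣ n := by
  constructor
  · intro h p hp
    exact (Nat.dvd_of_mem_primeFactors hp).trans h
  · intro h
    rw [← Nat.prod_primeFactors_of_squarefree hg]
    exact Finset.prod_primes_dvd n (fun p hp => (Nat.prime_of_mem_primeFactors hp).prime) h

theorem tt_eq {r : ℕ × ℕ} {e : G × G} (he : e ∈ fibD r) :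
    tt r = Real.log (nm e.2) - Real.log (nm e.1) ∧ 0 < (nm e.1 : ℝ) ∧ 0 < (nm e.2 : ℝ) := by
  have h := prod_of_mem he
  have h3 : nm e.1 = r.2 := he.2.2
  have hpos : 0 < r.2 * nm e.2 := by rw [h]; positivity
  have h1 : 0 < r.2 := Nat.pos_of_mul_pos_right hpos |> fun _ => Nat.pos_of_ne_zero (by
    rintro h0
    rw [h0] at hpos
    simp at hpos)
  have h2 : 0 < nm e.2 := Nat.pos_of_ne_zero (by
    rintro h0
    rw [h0] at hpos
    simp at hpos)
  have h1' : (0 : ℝ) < (nm e.1 : ℝ) := by rw [h3]; exact_mod_cast h1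
  have h2' : (0 : ℝ) < (nm e.2 : ℝ) := by exact_mod_cast h2
  refine ⟨?_, h1', h2'⟩
  unfold tt
  have h4 : ((r.1 : ℝ) ^ 2 + 1) = (nm e.1 : ℝ) * (nm e.2 : ℝ) := by
    rw [h3]
    exact_mod_cast h.symm
  rw [h4, Real.log_mul h1'.ne' h2'.ne', ← h3]
  ring

theorem fib_iff {g : ℕ × ℕ} (hg : Adm g) {s t x : ℝ} {r : ℕ × ℕ} {e : G × G} (he : e ∈ fibD r) :
    (r ∈ pd x ∧ Cd g r ∧ s ≤ tt r ∧ tt r < t) ↔ (e ∈ NE 1 0 s t x ∧ Ce g e) := by
  have hprod := prod_of_mem he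
  obtain ⟨htt, hp1, hp2⟩ := tt_eq he
  obtain ⟨h1, h2, h3⟩ := he
  have hprod' : nm e.1 * nm e.2 = r.1 ^ 2 + 1 := by rw [h3]; exact hprod
  have hsq1 : Squarefree g.1 := hg.1.squarefree_of_dvd (dvd_mul_right _ _)
  have hsq2 : Squarefree g.2 := hg.1.squarefree_of_dvd (dvd_mul_left _ _)
  have hdiv : (r.1 ^ 2 + 1) / r.2 = nm e.2 := by
    rw [← hprod]
    apply Nat.mul_div_cancel_left
    rw [← h3]
    exact_mod_cast hp1
  have hs : s ≤ tt r ↔ Real.exp s * (nm e.1 : ℝ) ≤ (nm e.2 : ℝ) := by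
    rw [htt, le_sub_iff_add_le]
    rw [← Real.exp_le_exp, Real.exp_add, Real.exp_log hp1, Real.exp_log hp2]
  have ht : tt r < t ↔ (nm e.2 : ℝ) < Real.exp t * (nm e.1 : ℝ) := by
    rw [htt, sub_lt_iff_lt_add]
    rw [← Real.exp_lt_exp, Real.exp_add, Real.exp_log hp1, Real.exp_log hp2]
  have heven : Even r.1 ↔ Odd (nm e.1) ∧ Odd (nm e.2) := by
    rw [← Nat.odd_mul, hprod']
    rw [Nat.odd_add_one, Nat.not_odd_iff_even, Nat.even_pow' two_ne_zero]
  have hcg : cg 1 e.1 (0 : G × G).1 ∧ cg 1 e.2 (0 : G × G).2 := by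
    refine ⟨⟨?_, ?_⟩, ⟨?_, ?_⟩⟩ <;> exact one_dvd _
  rw [mem_pd]
  unfold Cd
  rw [hdiv, hs, ht, heven, dvd_iff_primes hsq1, dvd_iff_primes hsq2, ← hprod', ← h3]
  unfold Ce NE
  rw [Set.mem_ofPred_eq, h2, h1]
  have hdot : (0 : ℤ) < (r.1 : ℤ) ↔ 1 ≤ r.1 := by
    constructor <;> intro h <;> omega
  have hx : (((r.1 : ℤ) : ℤ) : ℝ) ≤ x ↔ (r.1 : ℝ) ≤ x := by
    rw [Int.cast_natCast]
  rw [hdot, hx]
  have hdv : nm e.1 ∣ nm e.1 * nm e.2 := dvd_mul_right _ _
  constructor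
  · rintro ⟨⟨a1, a2, a3, _⟩, ⟨a4, a5, a6⟩, a7, a8⟩
    exact ⟨⟨rfl, a1, a2, a7, a8, hcg.1, hcg.2⟩, a3.1, a3.2, a4, a5, a6⟩
  · rintro ⟨⟨_, a1, a2, a7, a8, _, _⟩, b1, b2, a4, a5, a6⟩
    exact ⟨⟨a1, a2, ⟨b1, b2⟩, hdv⟩, ⟨a4, a5, a6⟩, a7, a8⟩

/-- The edges with `Ce g` and `s ≤ tt < t`, `0 < dot ≤ x` are, by `four`, four times the pairs `r = (m, d) ∈ pd x` with `Cd g r`, `s ≤ tt r < t`
(`r = (dot, nm V)`, `(m^2+1)/d = nm V'`, `tt r = log (nm V' / nm V)`; `m` even iff both norms odd, since `nm V nm V' = m^2 + 1`;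
for squarefree `g`: `g ∣ d` iff all its primes divide `d`). -/
theorem dcount_edges (g : ℕ × ℕ) (hg : Adm g) (s t x : ℝ) :
    4 * ({r : ℕ × ℕ | r ∈ pd x ∧ Cd g r ∧ s ≤ tt r ∧ tt r < t}.ncard) =
      {e : G × G | e ∈ NE 1 0 s t x ∧ Ce g e}.ncard := by
  classical
  set R : Finset (ℕ × ℕ) := (pd x).filter (fun r => Cd g r ∧ s ≤ tt r ∧ tt r < t) with hR
  have hRs : {r : ℕ × ℕ | r ∈ pd x ∧ Cd g r ∧ s ≤ tt r ∧ tt r < t} = (R : Set (ℕ × ℕ)) := by
    ext r
    rw [hR, Finset.coe_filter]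
  have hdvd : ∀ r ∈ R, r.2 ∣ r.1 ^ 2 + 1 := by
    intro r hr
    rw [hR, mem_filter, mem_pd] at hr
    exact hr.1.2.2.2
  have hcard : ∀ r ∈ R, (fibD r).ncard = 4 := fun r hr => four r.1 r.2 (hdvd r hr)
  have hfin : ∀ r ∈ R, (fibD r).Finite := fun r hr =>
    Set.finite_of_ncard_ne_zero (by rw [hcard r hr]; norm_num)
  have hE : {e : G × G | e ∈ NE 1 0 s t x ∧ Ce g e}
      = ((R.attach.biUnion (fun r => (hfin r.1 r.2).toFinset) : Finset (G × G)) : Set (G × G)) := by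
    ext e
    rw [Set.mem_ofPred_eq, Finset.mem_coe, mem_biUnion]
    constructor
    · intro he
      have hdet : det e.1 e.2 = 1 := he.1.1
      have hdot : 0 < dot e.1 e.2 := he.1.2.1
      have hmem : e ∈ fibD ((dot e.1 e.2).toNat, nm e.1) :=
        ⟨hdet, (Int.toNat_of_nonneg hdot.le).symm, rfl⟩
      have hr : ((dot e.1 e.2).toNat, nm e.1) ∈ R := by
        rw [hR, mem_filter]
        have := (fib_iff hg hmem).2 he
        exact ⟨this.1, this.2⟩
      exact ⟨⟨_, hr⟩, mem_attach _ _, by rw [Set.Finite.mem_toFinset]; exact hmem⟩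
    · rintro ⟨r, _, hr⟩
      rw [Set.Finite.mem_toFinset] at hr
      have hrR := mem_filter.1 r.2
      exact (fib_iff hg hr).1 ⟨hrR.1, hrR.2⟩
  rw [hRs, hE, Set.ncard_coe_finset, Set.ncard_coe_finset, card_biUnion]
  · have : ∀ r ∈ R.attach, ((hfin r.1 r.2).toFinset).card = 4 := by
      intro r _
      rw [← Set.ncard_eq_toFinset_card _ (hfin r.1 r.2)]
      exact hcard r.1 r.2
    rw [sum_congr rfl this, sum_const, card_attach, smul_eq_mul, mul_comm]
  · intro r _ r' _ hne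
    rw [Function.onFun, Finset.disjoint_left]
    intro e h1 h2
    rw [Set.Finite.mem_toFinset] at h1 h2
    apply hne
    apply Subtype.ext
    apply Prod.ext
    · have a := h1.2.1
      have b := h2.2.1
      rw [a] at b
      exact_mod_cast b
    · exact h1.2.2.symm.trans h2.2.2

end Pool.Agent.OmAll

end

/-! ### from `Lib_MP_f1a94e_mr.Space` -/

section

/-!
# Piece SPACE: the directions of `V X` are `1 / X`-separated; primitive parts
-/

set_option autoImplicit false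

namespace Pool.Agent.GaussMR

/-- parallel primitive vectors are equal up to sign -/
theorem parallel_prim (z w : G) (hz : Prim z) (hw : Prim w) (h : det z w = 0) :
    w = z ∨ w = -z := by
  obtain ⟨α, β, hab⟩ := hz
  unfold det at h
  set c := α * w.re + β * w.im with hc
  have h1 : w.re = z.re * c := by
    rw [hc]
    linear_combination (-w.re) * hab - β * h
  have h2 : w.im = z.im * c := by
    rw [hc]
    linear_combination (-w.im) * hab + α * h
  have hu : IsUnit c := by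
    refine hw.isUnit_of_dvd' ?_ ?_
    · rw [h1]; exact dvd_mul_left _ _
    · rw [h2]; exact dvd_mul_left _ _
  rcases Int.isUnit_iff.1 hu with h3 | h3
  · left
    apply Zsqrtd.ext
    · rw [h1, h3, mul_one]
    · rw [h2, h3, mul_one]
  · right
    apply Zsqrtd.ext
    · rw [h1, h3]; simp
    · rw [h2, h3]; simp

theorem toComplex_re' (z : G) : (z : ℂ).re = z.re := GaussianInt.intCast_re z |>.symm

theorem toComplex_im' (z : G) : (z : ℂ).im = z.im := GaussianInt.intCast_im z |>.symm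

/-- the distance of two directions is at least the sine of the angle -/
theorem det_le_dist (z w : G) (hz : z ≠ 0) (hw : w ≠ 0) :
    |(det z w : ℝ)| ≤ ‖dir z - dir w‖ * (‖(z : ℂ)‖ * ‖(w : ℂ)‖) := by
  have hz0 := norm_pos hz
  have hw0 := norm_pos hw
  have h1 : ((starRingEnd ℂ) (dir z) * dir w).im = (det z w : ℝ) / (‖(z : ℂ)‖ * ‖(w : ℂ)‖) := by
    unfold dir
    rw [map_div₀, Complex.conj_ofReal, div_mul_div_comm, ← Complex.ofReal_mul,
      Complex.div_ofReal_im]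
    congr 1
    rw [Complex.mul_im, Complex.conj_re, Complex.conj_im, toComplex_re', toComplex_re',
      toComplex_im', toComplex_im']
    unfold det
    push_cast
    ring
  have h2 : ((starRingEnd ℂ) (dir z) * dir w).im =
      ((starRingEnd ℂ) (dir z) * (dir w - dir z)).im := by
    rw [mul_sub, Complex.sub_im]
    have h3 : ((starRingEnd ℂ) (dir z) * dir z).im = 0 := by
      rw [mul_comm, Complex.mul_conj]
      exact Complex.ofReal_im _
    rw [h3, sub_zero]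
  have h4 : |((starRingEnd ℂ) (dir z) * dir w).im| ≤ ‖dir z - dir w‖ := by
    rw [h2]
    refine (Complex.abs_im_le_norm _).trans ?_
    rw [norm_mul, Complex.norm_conj, norm_dir hz, one_mul, norm_sub_rev]
  rw [h1, abs_div, abs_of_pos (mul_pos hz0 hw0), div_le_iff₀ (mul_pos hz0 hw0)] at h4
  exact h4

/-- `‖dir z - dir w‖ ≥ |det z w| / (|z| |w|)`, and `det z w = 0` only for `w = ± z` -/
theorem spaced (X : ℝ) (z w : G) (hz : z ∈ V X) (hw : w ∈ V X) (hne : z ≠ w) :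
    1 / X ≤ ‖dir z - dir w‖ := by
  obtain ⟨hzX, hzo, hzp⟩ := mem_V.1 hz
  obtain ⟨hwX, hwo, hwp⟩ := mem_V.1 hw
  have hz0 := ne_zero_of_odd hzo
  have hw0 := ne_zero_of_odd hwo
  have hnz : (1 : ℝ) ≤ nm z := by exact_mod_cast nm_pos hz0
  have hX : 1 ≤ X := hnz.trans hzX
  have hXpos : 0 < X := by linarith
  by_cases hdet : det z w = 0
  · rcases parallel_prim z w hzp hwp hdet with h | h
    · exact absurd h.symm hne
    · rw [h, dir_neg, sub_neg_eq_add, ← two_mul, norm_mul, norm_dir hz0, mul_one]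
      have h1 : 1 / X ≤ 1 := by
        rw [div_le_one hXpos]
        exact hX
      have h2 : ‖(2 : ℂ)‖ = 2 := by simp
      rw [h2]
      linarith
  · have h1 := det_le_dist z w hz0 hw0
    have h2 : (1 : ℝ) ≤ |(det z w : ℝ)| := by
      rw [← Int.cast_abs]
      exact_mod_cast Int.one_le_abs hdet
    have h3 : ‖(z : ℂ)‖ * ‖(w : ℂ)‖ ≤ X := by
      rw [norm_eq_sqrt, norm_eq_sqrt, ← Real.sqrt_mul (Nat.cast_nonneg _)]
      rw [Real.sqrt_le_left (by linarith), sq]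
      exact mul_le_mul hzX hwX (Nat.cast_nonneg _) (by linarith)
    rw [div_le_iff₀ hXpos]
    have h4 : 0 ≤ ‖dir z - dir w‖ := norm_nonneg _
    nlinarith

/-- the primitive part: `z = g * pr z` with `g = gcd(re, im) > 0` -/
theorem pr_spec (z : G) (hz : z ≠ 0) :
    z = ((Int.gcd z.re z.im : ℕ) : G) * pr z ∧ 0 < Int.gcd z.re z.im ∧ Prim (pr z) := by
  have hg : 0 < Int.gcd z.re z.im := by
    rw [Int.gcd_pos_iff]
    by_contra h
    push Not at h
    exact hz (Zsqrtd.ext h.1 h.2)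
  refine ⟨?_, hg, ?_⟩
  · have h1 : (Int.gcd z.re z.im : ℤ) * (z.re / Int.gcd z.re z.im) = z.re :=
      Int.mul_ediv_cancel' (Int.gcd_dvd_left _ _)
    have h2 : (Int.gcd z.re z.im : ℤ) * (z.im / Int.gcd z.re z.im) = z.im :=
      Int.mul_ediv_cancel' (Int.gcd_dvd_right _ _)
    unfold pr
    apply Zsqrtd.ext
    · simp only [Zsqrtd.re_mul, Zsqrtd.re_natCast, Zsqrtd.im_natCast]
      linarith
    · simp only [Zsqrtd.im_mul, Zsqrtd.re_natCast, Zsqrtd.im_natCast]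
      linarith
  · unfold Prim pr
    rw [Int.isCoprime_iff_gcd_eq_one]
    exact Int.gcd_div_gcd_div_gcd hg

theorem nm_natCast (n : ℕ) : nm (n : G) = n ^ 2 := by
  have h : (nm (n : G) : ℤ) = (n ^ 2 : ℕ) := by
    rw [nm_eq]
    simp
  exact_mod_cast h

theorem nm_pr_mul (z : G) (hz : z ≠ 0) : nm z = Int.gcd z.re z.im ^ 2 * nm (pr z) := by
  have h := (pr_spec z hz).1
  conv_lhs => rw [h]
  rw [nm_mul, nm_natCast]

theorem nm_pr_le (z : G) : nm (pr z) ≤ nm z := by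
  by_cases hz : z = 0
  · subst hz
    have : pr 0 = 0 := by
      unfold pr
      apply Zsqrtd.ext <;> simp
    rw [this]
  · rw [nm_pr_mul z hz]
    have := (pr_spec z hz).2.1
    have h1 : 1 ≤ Int.gcd z.re z.im ^ 2 := Nat.one_le_pow _ _ this
    nlinarith

theorem odd_pr (z : G) (hz : Odd (nm z)) : Odd (nm (pr z)) := by
  rw [nm_pr_mul z (ne_zero_of_odd hz)] at hz
  exact (Nat.odd_mul.1 hz).2

theorem xi_pr (k : ℤ) (z : G) (hz : z ≠ 0) : xi k (pr z) = xi k z := by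
  obtain ⟨h1, h2, _⟩ := pr_spec z hz
  conv_rhs => rw [h1]
  exact (xi_natCast_mul k h2 (pr z)).symm

theorem pr_eq_self (z : G) (hz : Prim z) : pr z = z := by
  unfold Prim at hz
  rw [Int.isCoprime_iff_gcd_eq_one] at hz
  unfold pr
  rw [hz]
  apply Zsqrtd.ext <;> simp

/-- the primitive part of an odd `z` of norm at most `X` lies in `V X` -/
theorem pr_mem_V (X : ℝ) (z : G) (hz : Odd (nm z)) (hX : (nm z : ℝ) ≤ X) : pr z ∈ V X := by
  rw [mem_V]
  refine ⟨?_, odd_pr z hz, (pr_spec z (ne_zero_of_odd hz)).2.2⟩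
  have : (nm (pr z) : ℝ) ≤ nm z := by exact_mod_cast nm_pr_le z
  exact this.trans hX

end Pool.Agent.GaussMR

end

/-! ### from `Lib_MP_f1a94e_mr.DTTwo` -/

section

/-!
# Piece DTTWO: derivative tests (weak form), definition and `q = 2`
-/

set_option autoImplicit false

namespace Pool.Agent.GaussMR

open scoped ContDiff

/-- the `q`-th derivative test with parameters `β, η, C` -/
def DTest (q : ℕ) (β η C : ℝ) : Prop :=
  ∀ (f : ℝ → ℝ), ContDiff ℝ ∞ f → ∀ (a b : ℤ) (L lam Lam : ℝ), a ≤ b → 1 ≤ L → (b : ℝ) - a ≤ L →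
    L ^ (-(7 / 4 : ℝ)) ≤ lam → lam ≤ Lam → Lam ≤ L ^ (-β) → Lam ≤ lam * L ^ (1 / 100 : ℝ) →
    (∀ x ∈ Set.Icc (a : ℝ) b, lam ≤ iteratedDeriv q f x ∧ iteratedDeriv q f x ≤ Lam) →
    ‖∑ n ∈ Finset.Icc a b, ee (f n)‖ ≤ C * L ^ (1 - η)

/-- second difference as a second derivative -/
theorem dt_second_diff (f : ℝ → ℝ) (hf : ContDiff ℝ ∞ f) (n : ℝ) :
    ∃ x ∈ Set.Icc n (n + 2), f (n + 2) - 2 * f (n + 1) + f n = iteratedDeriv 2 f x := by
  have hd : Differentiable ℝ f := hf.differentiable (by simp)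
  have hd1 : ContDiff ℝ ∞ (deriv f) := by
    have := hf.iterate_deriv 1
    simpa using this
  have hd2 : Differentiable ℝ (deriv f) := hd1.differentiable (by simp)
  have hg : ∀ x, HasDerivAt (fun y => f (y + 1) - f y) (deriv f (x + 1) - deriv f x) x := by
    intro x
    have h1 : HasDerivAt (fun y => f (y + 1)) (deriv f (x + 1)) x := by
      have := (hd (x + 1)).hasDerivAt.comp_add_const x 1
      simpa using this
    exact h1.sub (hd x).hasDerivAt
  obtain ⟨c, hc, hc'⟩ := exists_hasDerivAt_eq_slope (fun y => f (y + 1) - f y)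
    (fun x => deriv f (x + 1) - deriv f x) (show n < n + 1 by linarith)
    (fun x _ => (hg x).continuousAt.continuousWithinAt) (fun x _ => hg x)
  obtain ⟨d, hd', hd''⟩ := exists_hasDerivAt_eq_slope (deriv f) (deriv (deriv f))
    (show c < c + 1 by linarith)
    (fun x _ => (hd2 x).continuousAt.continuousWithinAt) (fun x _ => (hd2 x).hasDerivAt)
  refine ⟨d, ⟨?_, ?_⟩, ?_⟩
  · linarith [hc.1, hd'.1]
  · linarith [hc.2, hd'.2]
  · have e1 : iteratedDeriv 2 f d = deriv (deriv f) d := by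
      rw [iteratedDeriv_succ, iteratedDeriv_one]
    rw [e1, hd'']
    have e2 : (f (n + 1 + 1) - f (n + 1) - (f (n + 1) - f n)) / (n + 1 - n) =
      f (n + 2) - 2 * f (n + 1) + f n := by
      rw [show n + 1 - n = 1 by ring, show n + 1 + 1 = n + 2 by ring]
      ring
    rw [← e2, ← hc']
    simp

/-- from `second_deriv`: `L Lam lam^(-1/2) ≤ L lam^(1/2) L^(1/100) ≤ L^(1 - 1/32 + 1/100)`,
`lam^(-1/2) ≤ L^(7/8)`, `L Lam ≤ L^(15/16)` -/
theorem dt_two : DTest 2 (1 / 16) (1 / 50) 100 := by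
  intro f hf a b L lam Lam hab hL hbL h1 h2 h3 h4 h5
  have hL0 : 0 < L := by linarith
  have hlam : 0 < lam := lt_of_lt_of_le (Real.rpow_pos_of_pos hL0 _) h1
  have hLam : 0 < Lam := lt_of_lt_of_le hlam h2
  have hLam1 : Lam ≤ 1 := h3.trans (Real.rpow_le_one_of_one_le_of_nonpos hL (by norm_num))
  have hsd : ∀ n : ℤ, a ≤ n → n + 1 < b → lam ≤ f ((n : ℤ) + 2 : ℤ) - 2 * f ((n + 1 : ℤ)) + f n ∧
      f ((n : ℤ) + 2 : ℤ) - 2 * f ((n + 1 : ℤ)) + f n ≤ Lam := by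
    intro n hn hn'
    obtain ⟨x, hx, hx'⟩ := dt_second_diff f hf n
    have hn1 : (a : ℝ) ≤ n := by exact_mod_cast hn
    have hn2 : (n : ℝ) + 2 ≤ b := by
      have : n + 2 ≤ b := by omega
      exact_mod_cast this
    push_cast
    rw [hx']
    exact h5 x ⟨hn1.trans hx.1, hx.2.trans hn2⟩
  have hmain := second_deriv (fun n : ℤ => f n) a b hab lam Lam hlam h2 hLam1
    (fun n hn hn' => (hsd n hn hn').1) (fun n hn hn' => (hsd n hn hn').2)
  refine hmain.trans ?_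
  have hs : 0 < Real.sqrt lam := Real.sqrt_pos.mpr hlam
  have hba : (0 : ℝ) ≤ (b : ℝ) - a := by
    have : (a : ℝ) ≤ b := by exact_mod_cast hab
    linarith
  have e1 : ((b : ℝ) - a) * Lam ≤ L * L ^ (-(1 / 16) : ℝ) := by gcongr
  have e1' : L * L ^ (-(1 / 16) : ℝ) = L ^ (15 / 16 : ℝ) := by
    nth_rewrite 1 [← Real.rpow_one L]
    rw [← Real.rpow_add hL0]
    norm_num
  have e2 : 1 / Real.sqrt lam ≤ L ^ (7 / 8 : ℝ) := by
    rw [one_div, inv_le_comm₀ hs (Real.rpow_pos_of_pos hL0 _), ← Real.rpow_neg hL0.le]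
    apply Real.le_sqrt_of_sq_le
    rw [← Real.rpow_natCast, ← Real.rpow_mul hL0.le]
    convert h1 using 2
    norm_num
  have e3 : ((b : ℝ) - a) * Lam * (1 / Real.sqrt lam) ≤ L ^ (49 / 50 : ℝ) := by
    have s1 : Real.sqrt lam ≤ L ^ (-(1 / 32) : ℝ) := by
      apply Real.sqrt_le_iff.mpr
      refine ⟨(Real.rpow_pos_of_pos hL0 _).le, ?_⟩
      rw [← Real.rpow_natCast, ← Real.rpow_mul hL0.le]
      refine (h2.trans h3).trans (le_of_eq ?_)
      norm_num
    have s2 : Lam * (1 / Real.sqrt lam) ≤ Real.sqrt lam * L ^ (1 / 100 : ℝ) := by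
      rw [mul_one_div, div_le_iff₀ hs]
      calc Lam ≤ lam * L ^ (1 / 100 : ℝ) := h4
        _ = Real.sqrt lam * L ^ (1 / 100 : ℝ) * Real.sqrt lam := by
          rw [mul_right_comm, Real.mul_self_sqrt hlam.le]
    calc ((b : ℝ) - a) * Lam * (1 / Real.sqrt lam) = ((b : ℝ) - a) * (Lam * (1 / Real.sqrt lam)) := by
          ring
      _ ≤ L * (L ^ (-(1 / 32) : ℝ) * L ^ (1 / 100 : ℝ)) := by
          apply mul_le_mul hbL (s2.trans _) (by positivity) hL0.le
          gcongr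
      _ = L ^ (1 + (-(1 / 32)) + 1 / 100 : ℝ) := by
          rw [Real.rpow_add hL0, Real.rpow_add hL0, Real.rpow_one]
          ring
      _ ≤ L ^ (49 / 50 : ℝ) := by
          apply Real.rpow_le_rpow_of_exponent_le hL
          norm_num
  have g1 : L ^ (15 / 16 : ℝ) ≤ L ^ (49 / 50 : ℝ) := by
    apply Real.rpow_le_rpow_of_exponent_le hL
    norm_num
  have g2 : L ^ (7 / 8 : ℝ) ≤ L ^ (49 / 50 : ℝ) := by
    apply Real.rpow_le_rpow_of_exponent_le hL
    norm_num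
  have g3 : (1 : ℝ) ≤ L ^ (49 / 50 : ℝ) := Real.one_le_rpow hL (by norm_num)
  have e4 : L ^ (1 - 1 / 50 : ℝ) = L ^ (49 / 50 : ℝ) := by norm_num
  rw [e4]
  have e5 : 20 * (((b : ℝ) - a) * Lam + 1) * (1 / Real.sqrt lam + 1) =
      20 * (((b : ℝ) - a) * Lam * (1 / Real.sqrt lam) + ((b : ℝ) - a) * Lam +
        1 / Real.sqrt lam + 1) := by ring
  rw [e5]
  rw [e1'] at e1
  nlinarith [e1, e2, e3, g1, g2, g3]

end Pool.Agent.GaussMR

end

/-! ### from `Lib_MP_f1a94e_mr.DT` -/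

section

/-!
# Piece DT: higher derivative tests by Weyl differencing
-/

set_option autoImplicit false

namespace Pool.Agent.GaussMR

open scoped ContDiff

theorem dt_contDiff_shift (f : ℝ → ℝ) (hf : ContDiff ℝ ∞ f) (h : ℝ) :
    ContDiff ℝ ∞ (fun x => f (x + h)) :=
  hf.comp (contDiff_id.add contDiff_const)

/-- the derivative of the difference as a value of the next derivative -/
theorem dt_iter_diff (f : ℝ → ℝ) (hf : ContDiff ℝ ∞ f) (q : ℕ) (h : ℝ) (hh : 0 < h) (x : ℝ) :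
    ∃ y ∈ Set.Icc x (x + h), iteratedDeriv q (fun t => f (t + h) - f t) x =
      h * iteratedDeriv (q + 1) f y := by
  have e1 : iteratedDeriv q (fun t => f (t + h) - f t) x =
      iteratedDeriv q f (x + h) - iteratedDeriv q f x := by
    have hs : (fun t => f (t + h) - f t) = (fun t => f (t + h)) - f := rfl
    rw [hs, iteratedDeriv_sub]
    · congr 1
      have := congrFun (iteratedDeriv_comp_add_const q f h) x
      simpa using this
    · exact (dt_contDiff_shift f hf h).contDiffAt.of_le (by exact_mod_cast le_top)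
    · exact hf.contDiffAt.of_le (by exact_mod_cast le_top)
  have hd : ContDiff ℝ ∞ (iteratedDeriv q f) := by
    rw [iteratedDeriv_eq_iterate]
    exact hf.iterate_deriv q
  have hd' : Differentiable ℝ (iteratedDeriv q f) := hd.differentiable (by simp)
  obtain ⟨c, hc, hc'⟩ := exists_hasDerivAt_eq_slope (iteratedDeriv q f) (deriv (iteratedDeriv q f))
    (show x < x + h by linarith)
    (fun x _ => (hd' x).continuousAt.continuousWithinAt) (fun x _ => (hd' x).hasDerivAt)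
  refine ⟨c, ⟨hc.1.le, hc.2.le⟩, ?_⟩
  rw [e1, iteratedDeriv_succ, hc']
  have : x + h - x = h := by ring
  rw [this]
  field_simp

set_option linter.unusedVariables false in
/-- Weyl differencing with `H = ⌊L^β⌋` (`vdC`; if `b - a + 1 < H` use the trivial bound): for `1 ≤ h < H`
the function `g x = f (x + h) - f x` has `iteratedDeriv q g x = h * iteratedDeriv (q+1) f ξ`
(mean value theorem for `iteratedDeriv q f`), in `[h lam, h Lam]`, and `h Lam ≤ L^β L^(-2β) = L^(-β)`.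
So `|S|² ≤ 2 N² / H + 4 N C L^(1-η)`, `N ≤ 2 L`. -/
theorem dt_step (q : ℕ) (β η C : ℝ) (hβ : 0 < β) (hβ' : β ≤ 1 / 4) (hη : 0 < η) (hη' : η ≤ β)
    (hC : 0 < C) (h : DTest q β η C) : ∃ C' : ℝ, 0 < C' ∧ DTest (q + 1) (2 * β) (η / 2) C' := by
  refine ⟨Real.sqrt (16 + 8 * C) + 1, by positivity, ?_⟩
  intro f hf a b L lam Lam hab hL hbL h1 h2 h3 h4 h5
  have hL0 : 0 < L := by linarith
  have hlam : 0 < lam := lt_of_lt_of_le (Real.rpow_pos_of_pos hL0 _) h1
  have hLam : 0 < Lam := lt_of_lt_of_le hlam h2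
  set P : ℝ := L ^ (1 - η / 2) with hP
  have hP0 : 0 < P := Real.rpow_pos_of_pos hL0 _
  have hLβ : 1 ≤ L ^ β := Real.one_le_rpow hL hβ.le
  set H : ℕ := ⌊L ^ β⌋₊ with hH
  have hH1 : 1 ≤ H := Nat.le_floor (by simpa using hLβ)
  have hHle : (H : ℝ) ≤ L ^ β := Nat.floor_le (by positivity)
  have hHge : L ^ β / 2 ≤ H := by
    have hlt : L ^ β < (H : ℝ) + 1 := Nat.lt_floor_add_one _
    have : (1 : ℝ) ≤ H := by exact_mod_cast hH1
    linarith
  have hba : (0 : ℝ) ≤ (b : ℝ) - a := by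
    have : (a : ℝ) ≤ b := by exact_mod_cast hab
    linarith
  have hsq : P ^ 2 = L ^ (2 - η) := by
    rw [hP, ← Real.rpow_natCast, ← Real.rpow_mul hL0.le]
    norm_num
    ring_nf
  by_cases hcase : (H : ℤ) ≤ b - a + 1
  · -- the main case
    have hM : ∀ k : ℕ, 1 ≤ k → k < H →
        ‖∑ n ∈ Finset.Icc a (b - k), ee (f ((n + k : ℤ)) - f n)‖ ≤ C * L ^ (1 - η) := by
      intro k hk1 hkH
      have hk0 : (0 : ℝ) < k := by exact_mod_cast hk1
      have hkβ : (k : ℝ) ≤ L ^ β := le_trans (by exact_mod_cast hkH.le) hHle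
      have hg : ContDiff ℝ ∞ (fun t => f (t + k) - f t) := (dt_contDiff_shift f hf k).sub hf
      have := h (fun t => f (t + k) - f t) hg a (b - k) L (k * lam) (k * Lam) (by omega) hL
        (by push_cast; linarith) ?_ (by gcongr) ?_ ?_ ?_
      · convert this using 4
        push_cast
        rfl
      · refine h1.trans ?_
        have : (1 : ℝ) ≤ k := by exact_mod_cast hk1
        nlinarith
      · calc (k : ℝ) * Lam ≤ L ^ β * L ^ (-(2 * β)) := by gcongr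
          _ = L ^ (-β) := by
            rw [← Real.rpow_add hL0]
            ring_nf
      · calc (k : ℝ) * Lam ≤ k * (lam * L ^ (1 / 100 : ℝ)) := by gcongr
          _ = k * lam * L ^ (1 / 100 : ℝ) := by ring
      · intro x hx
        obtain ⟨y, hy, hy'⟩ := dt_iter_diff f hf q k hk0 x
        rw [hy']
        have hmem : y ∈ Set.Icc (a : ℝ) b := by
          refine ⟨hx.1.trans hy.1, hy.2.trans ?_⟩
          have := hx.2
          push_cast at this
          linarith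
        obtain ⟨g1, g2⟩ := h5 y hmem
        exact ⟨by gcongr, by gcongr⟩
    have hv := vdC (fun n : ℤ => f n) a b hab H hH1 hcase (C * L ^ (1 - η)) (by positivity) hM
    have hN : (b : ℝ) - a + 1 ≤ 2 * L := by linarith
    have hN0 : (0 : ℝ) ≤ (b : ℝ) - a + 1 := by linarith
    have hH0 : (0 : ℝ) < H := by exact_mod_cast hH1
    have t1 : 2 * ((b : ℝ) - a + 1) ^ 2 / H ≤ 16 * P ^ 2 := by
      rw [div_le_iff₀ hH0]
      have s1 : L ^ 2 ≤ P ^ 2 * L ^ β := by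
        rw [hsq, ← Real.rpow_add hL0, ← Real.rpow_natCast]
        apply Real.rpow_le_rpow_of_exponent_le hL
        push_cast
        linarith
      calc 2 * ((b : ℝ) - a + 1) ^ 2 ≤ 2 * (2 * L) ^ 2 := by gcongr
        _ = 8 * L ^ 2 := by ring
        _ ≤ 8 * (P ^ 2 * L ^ β) := by gcongr
        _ = 16 * P ^ 2 * (L ^ β / 2) := by ring
        _ ≤ 16 * P ^ 2 * H := by gcongr
    have t2 : 4 * ((b : ℝ) - a + 1) * (C * L ^ (1 - η)) ≤ 8 * C * P ^ 2 := by
      have s2 : L * L ^ (1 - η) = P ^ 2 := by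
        rw [hsq]
        nth_rewrite 1 [← Real.rpow_one L]
        rw [← Real.rpow_add hL0]
        ring_nf
      calc 4 * ((b : ℝ) - a + 1) * (C * L ^ (1 - η)) ≤ 4 * (2 * L) * (C * L ^ (1 - η)) := by gcongr
        _ = 8 * C * (L * L ^ (1 - η)) := by ring
        _ = 8 * C * P ^ 2 := by rw [s2]
    have t3 : ‖∑ n ∈ Finset.Icc a b, ee (f n)‖ ^ 2 ≤ (16 + 8 * C) * P ^ 2 := by
      refine hv.trans ?_
      linarith
    have t4 : ‖∑ n ∈ Finset.Icc a b, ee (f n)‖ ≤ Real.sqrt ((16 + 8 * C) * P ^ 2) :=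
      Real.le_sqrt_of_sq_le t3
    rw [Real.sqrt_mul (by positivity), Real.sqrt_sq hP0.le] at t4
    linarith
  · -- the trivial bound
    have hcard : ‖∑ n ∈ Finset.Icc a b, ee (f n)‖ ≤ (b : ℝ) - a + 1 := by
      refine (norm_sum_le _ _).trans ?_
      rw [Finset.sum_congr rfl (fun (n : ℤ) _ => vdc_norm_ee (f n))]
      rw [Finset.sum_const, Int.card_Icc, nsmul_eq_mul, mul_one]
      have : ((b + 1 - a).toNat : ℤ) = b + 1 - a := Int.toNat_of_nonneg (by omega)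
      have h' : (((b + 1 - a).toNat : ℤ) : ℝ) = ((b + 1 - a : ℤ) : ℝ) := by rw [this]
      push_cast at h'
      linarith
    have hlt : (b : ℝ) - a + 1 ≤ H := by
      have : b - a + 1 ≤ (H : ℤ) := by omega
      exact_mod_cast this
    have hβP : L ^ β ≤ P := by
      apply Real.rpow_le_rpow_of_exponent_le hL
      linarith
    have hsqrt : 0 ≤ Real.sqrt (16 + 8 * C) := Real.sqrt_nonneg _
    calc ‖∑ n ∈ Finset.Icc a b, ee (f n)‖ ≤ P := by linarith
      _ = 1 * P := (one_mul _).symm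
      _ ≤ (Real.sqrt (16 + 8 * C) + 1) * P := by
        gcongr
        linarith

theorem DTest.mono {q : ℕ} {β η C : ℝ} (h : DTest q β η C) (η' C' : ℝ) (hη : η' ≤ η) (hC : C ≤ C')
    (hC0 : 0 ≤ C) : DTest q β η' C' := by
  intro f hf a b L lam Lam hab hL hbL h1 h2 h3 h4 h5
  refine (h f hf a b L lam Lam hab hL hbL h1 h2 h3 h4 h5).trans ?_
  have : L ^ (1 - η) ≤ L ^ (1 - η') := Real.rpow_le_rpow_of_exponent_le hL (by linarith)
  have h0 : 0 ≤ L ^ (1 - η) := by positivity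
  have h0' : 0 ≤ C' := hC0.trans hC
  gcongr

/-- `β_q = 2^q / 64` for `q = 2, 3, 4, 5` and a common `η = 1/400` -/
theorem dt_all : ∃ C : ℝ, 0 < C ∧ ∀ q : ℕ, 2 ≤ q → q ≤ 5 → DTest q ((2 : ℝ) ^ q / 64) (1 / 400) C := by
  obtain ⟨C3, h30, h3⟩ := dt_step 2 (1 / 16) (1 / 50) 100 (by norm_num) (by norm_num) (by norm_num)
    (by norm_num) (by norm_num) dt_two
  obtain ⟨C4, h40, h4⟩ := dt_step 3 (2 * (1 / 16)) (1 / 50 / 2) C3 (by norm_num) (by norm_num)
    (by norm_num) (by norm_num) h30 h3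
  obtain ⟨C5, h50, h5⟩ := dt_step 4 (2 * (2 * (1 / 16))) (1 / 50 / 2 / 2) C4 (by norm_num)
    (by norm_num) (by norm_num) (by norm_num) h40 h4
  refine ⟨100 + C3 + C4 + C5, by positivity, ?_⟩
  intro q hq hq'
  interval_cases q
  · rw [show (2 : ℝ) ^ 2 / 64 = 1 / 16 by norm_num]
    exact dt_two.mono _ _ (by norm_num) (by linarith) (by norm_num)
  · rw [show (2 : ℝ) ^ 3 / 64 = 2 * (1 / 16) by norm_num]
    exact h3.mono _ _ (by norm_num) (by linarith) h30.le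
  · rw [show (2 : ℝ) ^ 4 / 64 = 2 * (2 * (1 / 16)) by norm_num]
    exact h4.mono _ _ (by norm_num) (by linarith) h40.le
  · rw [show (2 : ℝ) ^ 5 / 64 = 2 * (2 * (2 * (1 / 16))) by norm_num]
    exact h5.mono _ _ (by norm_num) (by linarith) h50.le

end Pool.Agent.GaussMR

end

/-! ### from `Lib_MP_f1a94e_mr.Block` -/

section

/-!
# Piece BLOCK: a short block of a row containing a good point
-/

set_option autoImplicit false

namespace Pool.Agent.GaussMR

theorem block_conj_ee (t : ℝ) : (starRingEnd ℂ) (ee t) = ee (-t) := by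
  unfold ee
  rw [← Complex.exp_conj]
  congr 1
  simp only [map_mul, Complex.conj_ofReal, Complex.conj_I, map_ofNat]
  push_cast
  ring

theorem block_sign (s : Finset ℤ) (A : ℤ → ℝ) (c σ : ℝ) (hσ : σ = 1 ∨ σ = -1) :
    ‖∑ x ∈ s, ee (-c * A x)‖ = ‖∑ x ∈ s, ee ((σ * |c|) * A x)‖ := by
  have h : σ * |c| = -c ∨ σ * |c| = c := by
    rcases hσ with rfl | rfl <;> rcases abs_choice c with h | h <;> rw [h] <;> simp
  rcases h with h | h
  · rw [h]
  · rw [h, ← Complex.norm_conj, map_sum]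
    congr 1
    apply Finset.sum_congr rfl
    intro x _
    rw [block_conj_ee]
    congr 1
    ring

private theorem block_normsq {r : ℝ} {b : ℕ} {x0 x1 y : ℤ}
    (hx0 : (x0 : ℝ) ^ 2 + (b : ℝ) ^ 2 ≤ r ^ 2) (hx1 : (x1 : ℝ) ^ 2 + (b : ℝ) ^ 2 ≤ r ^ 2)
    (g1 : (x0 : ℝ) ≤ y) (g2 : (y : ℝ) ≤ x1) : ‖(y : ℂ) + b * Complex.I‖ ^ 2 ≤ r ^ 2 := by
  have e : ‖(y : ℂ) + b * Complex.I‖ ^ 2 = (y : ℝ) ^ 2 + (b : ℝ) ^ 2 := by
    rw [← Complex.normSq_eq_norm_sq, Complex.normSq_apply]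
    simp only [Complex.add_re, Complex.intCast_re, Complex.mul_re, Complex.natCast_re,
      Complex.I_re, Complex.natCast_im, Complex.I_im, Complex.add_im, Complex.intCast_im,
      Complex.mul_im]
    ring
  rw [e]
  rcases le_total 0 (y : ℝ) with g3 | g3
  · have h := pow_le_pow_left₀ g3 g2 2
    linarith only [h, hx1]
  · have h := pow_le_pow_left₀ (neg_nonneg.2 g3) (neg_le_neg g1) 2
    rw [neg_sq, neg_sq] at h
    linarith only [h, hx0]

/-- Put `κ = r^(-1/1000)`, `L = r^(1 - 1/125)` (`= κ^8 r`), `h(x) = Im (x + i b)^(-q)`. At the good point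
`|h(y)| ≥ κ / |y + i b|^q`. On the block `|h(x) - h(y)| ≤ L q / b^(q+1) ≤ |h(y)| / 2` by `row_lip`, since
`b ≥ κ r`, `|y + i b| ≤ r` (for `r` large; small `r` are absorbed in `C`). So `h` has constant sign and
`κ / (2 r^q) ≤ |h| ≤ 1 / (κ r)^q` on the block. Apply `dt_all` to
`f(x) = ∓ (j / (2π)) arctan (x / b)` (sign chosen so that the `q`-th derivative is positive; conjugate the
sum if necessary) with `lam = (|j| / 2π) (q-1)! κ / (2 r^q)`, `Lam = (|j| / 2π) (q-1)! / (κ r)^q`: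
`Lam / lam = 2 κ^(-q-1) ≤ L^(1/100)`, `lam ≥ L^(-7/4)` as `|j| ≥ r^(q - 17/10)`,
`Lam ≤ L^(-2^q/64)` as `|j| ≤ r^(q - 2^q/64 - 1/100)`. -/
theorem block : ∃ C : ℝ, 0 < C ∧ ∀ (q : ℕ), 2 ≤ q → q ≤ 5 → ∀ (r : ℝ) (j : ℤ) (b : ℕ) (x0 x1 y : ℤ),
    1 ≤ r → r ^ ((q : ℝ) - 17 / 10) ≤ |(j : ℝ)| → |(j : ℝ)| ≤ r ^ ((q : ℝ) - 2 ^ q / 64 - 1 / 100) →
    r ^ (1 - 1 / 1000 : ℝ) ≤ b → x0 ≤ x1 → (x1 : ℝ) - x0 ≤ r ^ (1 - 1 / 125 : ℝ) →
    (x0 : ℝ) ^ 2 + (b : ℝ) ^ 2 ≤ r ^ 2 → (x1 : ℝ) ^ 2 + (b : ℝ) ^ 2 ≤ r ^ 2 →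
    x0 ≤ y → y ≤ x1 →
    r ^ (-(1 / 1000 : ℝ)) ≤ |(((y : ℂ) + b * Complex.I) ^ (-(q : ℤ))).im| *
      ‖(y : ℂ) + b * Complex.I‖ ^ q →
    ‖∑ x ∈ Finset.Icc x0 x1, xi j ⟨x, b⟩‖ ≤ C * r ^ (1 - 1 / 125 - 1 / 500 : ℝ) := by
  obtain ⟨C0, hC0, hdt⟩ := dt_all
  obtain ⟨R0, hR01, hRpow⟩ : ∃ R0 : ℝ, 1 ≤ R0 ∧ R0 ^ (1 / 1000 : ℝ) = 10 := by
    refine ⟨10 ^ (1000 : ℝ), Real.one_le_rpow (by norm_num) (by norm_num), ?_⟩
    rw [← Real.rpow_mul (by norm_num)]
    norm_num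
  refine ⟨C0 + 2 * R0, by positivity, ?_⟩
  intro q hq hq' r j b x0 x1 y hr hj1 hj2 hb hx hL hx0 hx1 hy0 hy1 hgood
  have hr0 : 0 < r := by linarith
  have hbR : (0 : ℝ) < b := lt_of_lt_of_le (Real.rpow_pos_of_pos hr0 _) hb
  have hb0 : 0 < b := by exact_mod_cast hbR
  have hxx : (x0 : ℝ) ≤ x1 := by exact_mod_cast hx
  have hone : ∀ e : ℝ, 0 ≤ e → 1 ≤ r ^ e := fun e he => Real.one_le_rpow hr he
  have hpos : ∀ e : ℝ, 0 < r ^ e := fun e => Real.rpow_pos_of_pos hr0 e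
  by_cases hbig : R0 ≤ r
  · -- the main case
    have h10 : 10 ≤ r ^ (1 / 1000 : ℝ) := by
      rw [← hRpow]
      exact Real.rpow_le_rpow (by linarith) hbig (by norm_num)
    have hge : ∀ e : ℝ, 1 / 1000 ≤ e → 10 ≤ r ^ e := fun e he =>
      h10.trans (Real.rpow_le_rpow_of_exponent_le hr he)
    have hge2 : ∀ e : ℝ, 1 / 500 ≤ e → 100 ≤ r ^ e := by
      intro e he
      have h1 : r ^ (1 / 500 : ℝ) = r ^ (1 / 1000 : ℝ) * r ^ (1 / 1000 : ℝ) := by
        rw [← Real.rpow_add hr0]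
        norm_num
      have h2 : 100 ≤ r ^ (1 / 500 : ℝ) := by
        rw [h1]
        calc (100 : ℝ) = 10 * 10 := by norm_num
          _ ≤ r ^ (1 / 1000 : ℝ) * r ^ (1 / 1000 : ℝ) := mul_self_le_mul_self (by norm_num) h10
      exact h2.trans (Real.rpow_le_rpow_of_exponent_le hr he)
    set h : ℝ → ℝ := fun x => (((x : ℂ) + b * Complex.I) ^ (-(q : ℤ))).im with hh
    set c : ℝ := (j : ℝ) / (2 * Real.pi) with hc
    have hqR : (q : ℝ) ≤ 5 := by exact_mod_cast hq'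
    have hqR2 : (2 : ℝ) ≤ q := by exact_mod_cast hq
    have hyb : ‖(y : ℂ) + b * Complex.I‖ ≤ r := by
      have hsq : ‖(y : ℂ) + b * Complex.I‖ ^ 2 ≤ r ^ 2 := by
        have g1 : (x0 : ℝ) ≤ y := by exact_mod_cast hy0
        have g2 : (y : ℝ) ≤ x1 := by exact_mod_cast hy1
        exact block_normsq hx0 hx1 g1 g2
      exact le_of_sq_le_sq hsq hr0.le
    have hnb : ∀ x : ℝ, (b : ℝ) ≤ ‖(x : ℂ) + b * Complex.I‖ := by
      intro x
      have := Complex.abs_im_le_norm ((x : ℂ) + b * Complex.I)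
      simp at this
      exact this
    -- lower bound at the good point
    have hyc : ((y : ℝ) : ℂ) = (y : ℂ) := by push_cast; rfl
    have hhy : r ^ (-(1 / 1000 : ℝ)) * r ^ (-(q : ℝ)) ≤ |h y| := by
      have h1 : 0 < ‖(y : ℂ) + b * Complex.I‖ := by
        have := hnb y
        rw [hyc] at this
        exact lt_of_lt_of_le hbR this
      have h2 : ‖(y : ℂ) + b * Complex.I‖ ^ q ≤ r ^ q := pow_le_pow_left₀ (norm_nonneg _) hyb q
      have h3 : r ^ (-(1 / 1000 : ℝ)) ≤ |h y| * r ^ q := by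
        refine hgood.trans ?_
        rw [hh]
        simp only
        rw [hyc]
        exact mul_le_mul_of_nonneg_left h2 (abs_nonneg _)
      rw [Real.rpow_neg hr0.le (q : ℝ), Real.rpow_natCast, ← div_eq_mul_inv,
        div_le_iff₀ (by positivity)]
      exact h3
    -- variation on the block
    have hvar : ∀ x : ℝ, (x0 : ℝ) ≤ x → x ≤ x1 → |h x - h y| ≤ |h y| / 2 := by
      intro x hxa hxb
      have g1 : (x0 : ℝ) ≤ y := by exact_mod_cast hy0
      have g2 : (y : ℝ) ≤ x1 := by exact_mod_cast hy1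
      have h1 : |h x - h y| ≤ q / (b : ℝ) ^ (q + 1) * |x - y| := by
        have h0 := row_lip q (by omega) b hbR x y
        have hbc : (((b : ℕ) : ℝ) : ℂ) = ((b : ℕ) : ℂ) := by push_cast; rfl
        rw [hbc] at h0
        exact h0
      have h2 : |x - (y : ℝ)| ≤ r ^ (1 - 1 / 125 : ℝ) := by
        rw [abs_le]
        constructor <;> linarith only [hxa, hxb, g1, g2, hL]
      have h3 : (r ^ (1 - 1 / 1000 : ℝ)) ^ (q + 1) ≤ (b : ℝ) ^ (q + 1) := by
        exact pow_le_pow_left₀ (hpos _).le hb (q + 1)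
      have h4 : (r ^ (1 - 1 / 1000 : ℝ)) ^ (q + 1) = r ^ ((999 / 1000 : ℝ) * ((q : ℝ) + 1)) := by
        rw [← Real.rpow_natCast, ← Real.rpow_mul hr0.le]
        push_cast
        norm_num
      have h5 : (q : ℝ) / (b : ℝ) ^ (q + 1) * |x - (y : ℝ)| ≤
          q / r ^ ((999 / 1000 : ℝ) * ((q : ℝ) + 1)) * r ^ (1 - 1 / 125 : ℝ) := by
        rw [← h4]
        exact mul_le_mul (div_le_div_of_nonneg_left (Nat.cast_nonneg q) (pow_pos (hpos _) _) h3) h2
          (abs_nonneg _) (div_nonneg (Nat.cast_nonneg q) (pow_pos (hpos _) _).le)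
      have h6 : q / r ^ ((999 / 1000 : ℝ) * ((q : ℝ) + 1)) * r ^ (1 - 1 / 125 : ℝ) ≤
          (r ^ (-(1 / 1000 : ℝ)) * r ^ (-(q : ℝ))) / 2 := by
        rw [div_mul_eq_mul_div, div_le_iff₀ (hpos _)]
        have e1 : (r ^ (-(1 / 1000 : ℝ)) * r ^ (-(q : ℝ))) / 2 * r ^ ((999 / 1000 : ℝ) * ((q : ℝ) + 1)) =
            r ^ ((6 - (q : ℝ)) / 1000) / 2 * r ^ (1 - 1 / 125 : ℝ) := by
          have : r ^ (-(1 / 1000 : ℝ)) * r ^ (-(q : ℝ)) * r ^ ((999 / 1000 : ℝ) * ((q : ℝ) + 1)) =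
              r ^ ((6 - (q : ℝ)) / 1000) * r ^ (1 - 1 / 125 : ℝ) := by
            rw [← Real.rpow_add hr0, ← Real.rpow_add hr0, ← Real.rpow_add hr0]
            congr 1
            ring
          linear_combination this / 2
        rw [e1]
        have e2 : 10 ≤ r ^ ((6 - (q : ℝ)) / 1000) := hge _ (by linarith only [hqR])
        have e3 := (hpos (1 - 1 / 125 : ℝ)).le
        exact mul_le_mul_of_nonneg_right (by linarith only [e2, hqR]) e3
      linarith only [h1, h5, h6, hhy]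
    -- the sign
    obtain ⟨σ, hσ, hσ'⟩ : ∃ σ : ℝ, (σ = 1 ∨ σ = -1) ∧ σ * (-1) ^ q * h y = |h y| := by
      rcases neg_one_pow_eq_or ℝ q with hq1 | hq1 <;> rcases abs_choice (h y) with hy2 | hy2
      · exact ⟨1, Or.inl rfl, by rw [hq1, hy2]; ring⟩
      · exact ⟨-1, Or.inr rfl, by rw [hq1, hy2]; ring⟩
      · exact ⟨-1, Or.inr rfl, by rw [hq1, hy2]; ring⟩
      · exact ⟨1, Or.inl rfl, by rw [hq1, hy2]; ring⟩
    have hw : |σ * (-1) ^ q| = 1 := by
      rw [abs_mul, abs_pow, abs_neg, abs_one, one_pow, mul_one]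
      rcases hσ with rfl | rfl <;> simp
    have hlow : ∀ x : ℝ, (x0 : ℝ) ≤ x → x ≤ x1 →
        (r ^ (-(1 / 1000 : ℝ)) * r ^ (-(q : ℝ))) / 2 ≤ σ * (-1) ^ q * h x := by
      intro x hxa hxb
      have h1 := hvar x hxa hxb
      have h2 : |σ * (-1) ^ q * (h x - h y)| ≤ |h y| / 2 := by
        rw [abs_mul, hw, one_mul]
        exact h1
      have h3 := (abs_le.mp h2).1
      have h4 : σ * (-1) ^ q * h x = |h y| + σ * (-1) ^ q * (h x - h y) := by
        rw [← hσ']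
        ring
      rw [h4]
      linarith only [h3, hhy]
    have hup : ∀ x : ℝ, σ * (-1) ^ q * h x ≤ r ^ (-(q : ℝ) + (q : ℝ) / 1000) := by
      intro x
      have h1 : σ * (-1) ^ q * h x ≤ |h x| := by
        refine (le_abs_self _).trans ?_
        rw [abs_mul, hw, one_mul]
      have h2 : |h x| ≤ ((b : ℝ) ^ q)⁻¹ := by
        rw [hh]
        refine (Complex.abs_im_le_norm _).trans ?_
        rw [zpow_neg, zpow_natCast, norm_inv, norm_pow]
        exact inv_anti₀ (pow_pos hbR q) (pow_le_pow_left₀ hbR.le (hnb x) q)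
      have h3 : ((b : ℝ) ^ q)⁻¹ ≤ ((r ^ (1 - 1 / 1000 : ℝ)) ^ q)⁻¹ := by
        exact inv_anti₀ (pow_pos (hpos _) q) (pow_le_pow_left₀ (hpos _).le hb q)
      have h4 : ((r ^ (1 - 1 / 1000 : ℝ)) ^ q)⁻¹ = r ^ (-(q : ℝ) + (q : ℝ) / 1000) := by
        rw [← Real.rpow_natCast, ← Real.rpow_mul hr0.le, ← Real.rpow_neg hr0.le]
        congr 1
        ring
      linarith only [h1, h2, h3, h4]
    -- rewrite the sum
    have hsum : ‖∑ x ∈ Finset.Icc x0 x1, xi j ⟨x, b⟩‖ =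
        ‖∑ x ∈ Finset.Icc x0 x1, ee ((fun t : ℝ => (σ * |c|) * Real.arctan (t / b)) x)‖ := by
      rw [Finset.sum_congr rfl (fun x _ => xi_row j b hb0 x), ← Finset.mul_sum, norm_mul, norm_zpow,
        Complex.norm_I, one_zpow, one_mul]
      exact block_sign (Finset.Icc x0 x1) (fun x : ℤ => Real.arctan ((x : ℝ) / b)) c σ hσ
    rw [hsum]
    set L : ℝ := r ^ (1 - 1 / 125 : ℝ) with hLdef
    have hLe : ∀ e : ℝ, L ^ e = r ^ ((124 / 125 : ℝ) * e) := by
      intro e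
      rw [hLdef, ← Real.rpow_mul hr0.le]
      norm_num
    have hL1 : 1 ≤ L := hone _ (by norm_num)
    have hpi1 : 3 < Real.pi := Real.pi_gt_three
    have hpi2 : Real.pi < 4 := Real.pi_lt_four
    have hcabs : |c| = |(j : ℝ)| / (2 * Real.pi) := by
      rw [hc, abs_div, abs_of_pos (show (0 : ℝ) < 2 * Real.pi by positivity)]
    have hfac1 : (1 : ℝ) ≤ ((q - 1).factorial : ℝ) := by
      exact_mod_cast Nat.factorial_pos _
    have hfac2 : ((q - 1).factorial : ℝ) ≤ 24 := by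
      have : (q - 1).factorial ≤ (4).factorial := Nat.factorial_le (by omega)
      calc ((q - 1).factorial : ℝ) ≤ ((4).factorial : ℝ) := by exact_mod_cast this
        _ = 24 := by norm_num [Nat.factorial]
    set K : ℝ := |c| * ((q - 1).factorial : ℝ) with hK
    have hK0 : 0 < K := by
      rw [hK, hcabs]
      have : 0 < |(j : ℝ)| := lt_of_lt_of_le (hpos _) hj1
      positivity
    have hKlow : r ^ ((q : ℝ) - 17 / 10) / 8 ≤ K := by
      rw [hK, hcabs]
      exact (div_le_div₀ (abs_nonneg _) hj1 (mul_pos two_pos Real.pi_pos)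
        (by linarith only [hpi2])).trans (le_mul_of_one_le_right
          (div_nonneg (abs_nonneg _) (mul_pos two_pos Real.pi_pos).le) hfac1)
    have hKup : K ≤ 4 * r ^ ((q : ℝ) - 2 ^ q / 64 - 1 / 100) := by
      rw [hK, hcabs]
      calc |(j : ℝ)| / (2 * Real.pi) * ((q - 1).factorial : ℝ)
          ≤ r ^ ((q : ℝ) - 2 ^ q / 64 - 1 / 100) / (2 * 3) * 24 :=
            mul_le_mul (div_le_div₀ (hpos _).le hj2 (by norm_num) (by linarith only [hpi1])) hfac2
              (zero_le_one.trans hfac1) (div_nonneg (hpos _).le (by norm_num))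
        _ = 4 * r ^ ((q : ℝ) - 2 ^ q / 64 - 1 / 100) := by ring
    have hres := hdt q hq hq' (fun t : ℝ => (σ * |c|) * Real.arctan (t / b))
      (contDiff_row (σ * |c|) b hbR) x0 x1 L (K * ((r ^ (-(1 / 1000 : ℝ)) * r ^ (-(q : ℝ))) / 2))
      (K * r ^ (-(q : ℝ) + (q : ℝ) / 1000)) hx hL1 hL ?_ ?_ ?_ ?_ ?_
    · refine hres.trans ?_
      rw [hLe]
      have h1 : r ^ ((124 / 125 : ℝ) * (1 - 1 / 400)) ≤ r ^ (1 - 1 / 125 - 1 / 500 : ℝ) :=
        Real.rpow_le_rpow_of_exponent_le hr (by norm_num)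
      have h2 := (hpos (1 - 1 / 125 - 1 / 500 : ℝ)).le
      have h3 : C0 ≤ C0 + 2 * R0 := by linarith only [hR01]
      exact (mul_le_mul_of_nonneg_left h1 hC0.le).trans (mul_le_mul_of_nonneg_right h3 h2)
    · -- `L ^ (-7/4) ≤ lam`
      rw [hLe]
      have h1 : r ^ ((q : ℝ) - 17 / 10) / 8 * ((r ^ (-(1 / 1000 : ℝ)) * r ^ (-(q : ℝ))) / 2) ≤
          K * ((r ^ (-(1 / 1000 : ℝ)) * r ^ (-(q : ℝ))) / 2) :=
        mul_le_mul_of_nonneg_right hKlow
          (div_nonneg (mul_nonneg (hpos _).le (hpos _).le) zero_le_two)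
      refine le_trans ?_ h1
      have h2 : r ^ ((q : ℝ) - 17 / 10) / 8 * ((r ^ (-(1 / 1000 : ℝ)) * r ^ (-(q : ℝ))) / 2) =
          r ^ ((124 / 125 : ℝ) * -(7 / 4)) * r ^ (35 / 1000 : ℝ) / 16 := by
        have : r ^ ((q : ℝ) - 17 / 10) * (r ^ (-(1 / 1000 : ℝ)) * r ^ (-(q : ℝ))) =
            r ^ ((124 / 125 : ℝ) * -(7 / 4)) * r ^ (35 / 1000 : ℝ) := by
          rw [← Real.rpow_add hr0, ← Real.rpow_add hr0, ← Real.rpow_add hr0]
          congr 1
          ring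
        linear_combination this / 16
      rw [h2]
      have h3 := hge2 (35 / 1000 : ℝ) (by norm_num)
      have h4 := hpos ((124 / 125 : ℝ) * -(7 / 4))
      rw [le_div_iff₀ (by norm_num)]
      exact mul_le_mul_of_nonneg_left (by linarith only [h3]) h4.le
    · -- `lam ≤ Lam`
      have h1 : (r ^ (-(1 / 1000 : ℝ)) * r ^ (-(q : ℝ))) / 2 ≤ r ^ (-(q : ℝ) + (q : ℝ) / 1000) := by
        rw [← Real.rpow_add hr0]
        have h2 : r ^ (-(1 / 1000 : ℝ) + -(q : ℝ)) ≤ r ^ (-(q : ℝ) + (q : ℝ) / 1000) :=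
          Real.rpow_le_rpow_of_exponent_le hr (by linarith only [hqR2])
        have h3 := hpos (-(1 / 1000 : ℝ) + -(q : ℝ))
        linarith only [h2, h3]
      exact mul_le_mul_of_nonneg_left h1 hK0.le
    · -- `Lam ≤ L ^ (-β)`
      rw [hLe]
      have h1 : K * r ^ (-(q : ℝ) + (q : ℝ) / 1000) ≤
          4 * r ^ ((q : ℝ) - 2 ^ q / 64 - 1 / 100) * r ^ (-(q : ℝ) + (q : ℝ) / 1000) :=
        mul_le_mul_of_nonneg_right hKup (hpos _).le
      refine h1.trans ?_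
      have hβ : (0 : ℝ) ≤ (2 : ℝ) ^ q / 64 := by positivity
      have h2 : r ^ ((124 / 125 : ℝ) * -((2 : ℝ) ^ q / 64)) =
          r ^ ((q : ℝ) - 2 ^ q / 64 - 1 / 100) * r ^ (-(q : ℝ) + (q : ℝ) / 1000) *
            r ^ ((10 - (q : ℝ)) / 1000 + (2 : ℝ) ^ q / 64 / 125) := by
        rw [← Real.rpow_add hr0, ← Real.rpow_add hr0]
        congr 1
        ring
      rw [h2]
      have h3 : 100 ≤ r ^ ((10 - (q : ℝ)) / 1000 + (2 : ℝ) ^ q / 64 / 125) := by
        apply hge2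
        have : (0 : ℝ) ≤ (2 : ℝ) ^ q / 64 / 125 := by positivity
        linarith only [this, hqR]
      have h4 := hpos ((q : ℝ) - 2 ^ q / 64 - 1 / 100)
      have h5 := hpos (-(q : ℝ) + (q : ℝ) / 1000)
      calc 4 * r ^ ((q : ℝ) - 2 ^ q / 64 - 1 / 100) * r ^ (-(q : ℝ) + (q : ℝ) / 1000) =
            r ^ ((q : ℝ) - 2 ^ q / 64 - 1 / 100) * r ^ (-(q : ℝ) + (q : ℝ) / 1000) * 4 := by ring
        _ ≤ _ := mul_le_mul_of_nonneg_left (by linarith only [h3]) (mul_nonneg h4.le h5.le)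
    · -- `Lam ≤ lam * L ^ (1/100)`
      rw [hLe, mul_assoc K]
      have h1 : r ^ (-(q : ℝ) + (q : ℝ) / 1000) ≤
          r ^ (-(1 / 1000 : ℝ)) * r ^ (-(q : ℝ)) / 2 * r ^ ((124 / 125 : ℝ) * (1 / 100)) := by
        have h2 : r ^ (-(1 / 1000 : ℝ)) * r ^ (-(q : ℝ)) / 2 * r ^ ((124 / 125 : ℝ) * (1 / 100)) =
            r ^ (-(q : ℝ) + (q : ℝ) / 1000) * r ^ ((892 / 100 - (q : ℝ)) / 1000) / 2 := by
          have : r ^ (-(1 / 1000 : ℝ)) * r ^ (-(q : ℝ)) * r ^ ((124 / 125 : ℝ) * (1 / 100)) =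
              r ^ (-(q : ℝ) + (q : ℝ) / 1000) * r ^ ((892 / 100 - (q : ℝ)) / 1000) := by
            rw [← Real.rpow_add hr0, ← Real.rpow_add hr0, ← Real.rpow_add hr0]
            congr 1
            ring
          linear_combination this / 2
        rw [h2]
        have h3 := hge2 ((892 / 100 - (q : ℝ)) / 1000) (by linarith only [hqR])
        have h4 := hpos (-(q : ℝ) + (q : ℝ) / 1000)
        rw [le_div_iff₀ (by norm_num)]
        exact mul_le_mul_of_nonneg_left (by linarith only [h3]) h4.le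
      exact mul_le_mul_of_nonneg_left h1 hK0.le
    · -- the derivative
      intro x hxm
      rw [iteratedDeriv_row q (by omega) (σ * |c|) b hbR x]
      have h1 := hlow x hxm.1 hxm.2
      have h2 := hup x
      have h3 : σ * |c| * ((-1) ^ q * ((q - 1).factorial : ℝ) *
          (((x : ℂ) + b * Complex.I) ^ (-(q : ℤ))).im) = K * (σ * (-1) ^ q * h x) := by
        rw [hK, hh]
        ring
      have h4 : (((b : ℕ) : ℝ) : ℂ) = ((b : ℕ) : ℂ) := by push_cast; rfl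
      rw [h4, h3]
      exact ⟨mul_le_mul_of_nonneg_left h1 hK0.le, mul_le_mul_of_nonneg_left h2 hK0.le⟩
  · -- small `r`
    push Not at hbig
    have hcard : ‖∑ x ∈ Finset.Icc x0 x1, xi j ⟨x, b⟩‖ ≤ (x1 : ℝ) - x0 + 1 := by
      refine (norm_sum_le _ _).trans ?_
      have hne : ∀ x : ℤ, (⟨x, b⟩ : G) ≠ 0 := by
        intro x h0
        have := congrArg Zsqrtd.im h0
        simp at this
        omega
      rw [Finset.sum_congr rfl (fun (x : ℤ) _ => norm_xi j (hne x))]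
      rw [Finset.sum_const, Int.card_Icc, nsmul_eq_mul, mul_one]
      have h1 : ((x1 + 1 - x0).toNat : ℤ) = x1 + 1 - x0 := Int.toNat_of_nonneg (by omega)
      have h' : (((x1 + 1 - x0).toNat : ℤ) : ℝ) = ((x1 + 1 - x0 : ℤ) : ℝ) := by rw [h1]
      push_cast at h'
      linarith only [h']
    have h1 : r ^ (1 - 1 / 125 : ℝ) ≤ r := by
      nth_rewrite 2 [← Real.rpow_one r]
      exact Real.rpow_le_rpow_of_exponent_le hr (by norm_num)
    have h2 := hone (1 - 1 / 125 - 1 / 500 : ℝ) (by norm_num)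
    have h3 : ‖∑ x ∈ Finset.Icc x0 x1, xi j ⟨x, b⟩‖ ≤ 2 * R0 := by
      linarith only [hcard, hL, h1, hbig, hR01]
    calc ‖∑ x ∈ Finset.Icc x0 x1, xi j ⟨x, b⟩‖ ≤ 2 * R0 := h3
      _ ≤ C0 + 2 * R0 := by linarith only [hC0]
      _ = (C0 + 2 * R0) * 1 := (mul_one _).symm
      _ ≤ (C0 + 2 * R0) * r ^ (1 - 1 / 125 - 1 / 500 : ℝ) :=
          mul_le_mul_of_nonneg_left h2 (by linarith only [hC0, hR01])

end Pool.Agent.GaussMR

end

/-! ### from `Lib_MP_f1a94e_ecm.DTRD` -/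

section

/-!
# Derivative tests: definition
-/

set_option autoImplicit false

namespace Pool.Agent.ECM

open Finset Pool.Agent.GaussMR
open scoped ContDiff

/-- the `q`-th derivative test with parameters `β, ρ, η, C` (the old `DTest q β η C` is the case `ρ = 1 / 100`) -/
def DTR (q : ℕ) (β ρ η C : ℝ) : Prop :=
  ∀ (f : ℝ → ℝ), ContDiff ℝ ∞ f → ∀ (a b : ℤ) (L lam Lam : ℝ), a ≤ b → 1 ≤ L → (b : ℝ) - a ≤ L →
    L ^ (-(7 / 4 : ℝ)) ≤ lam → lam ≤ Lam → Lam ≤ L ^ (-β) → Lam ≤ lam * L ^ ρ →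
    (∀ x ∈ Set.Icc (a : ℝ) b, lam ≤ iteratedDeriv q f x ∧ iteratedDeriv q f x ≤ Lam) →
    ‖∑ n ∈ Finset.Icc a b, ee (f n)‖ ≤ C * L ^ (1 - η)

/-- the statement of `dtr_all` (DTwoG.lean) -/
def DTRAll (Q : ℕ) : Prop := ∃ β ρ η C : ℝ, 0 < β ∧ (2 : ℝ) ^ Q * β ≤ 1 / 2 ∧ 0 < ρ ∧ ρ ≤ β ∧ 0 < η ∧ η ≤ 1 / 2 ∧ 0 < C ∧
    ∀ q : ℕ, 2 ≤ q → q ≤ Q → DTR q ((2 : ℝ) ^ (q - 2) * β) ρ η C

end Pool.Agent.ECM

end

/-! ### from `Lib_MP_f1a94e_ecm.DTwoG` -/

section

/-!
# Piece M-DT: derivative tests of arbitrary order with small parameters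
-/

set_option autoImplicit false

namespace Pool.Agent.ECM

open Finset Pool.Agent.GaussMR
open scoped ContDiff

/-- Copy the proof of `dt_two` (Lib_MP_f1a94e_mr/DTTwo.lean): `L Lam lam^(-1/2) ≤ L lam^(1/2) L^ρ ≤ L^(1 - β/2 + β/4)`, `lam^(-1/2) ≤ L^(7/8) ≤ L^(1 - β/4)`,
`L Lam ≤ L^(1 - β)`. -/
theorem dtr_two (β : ℝ) (hβ : 0 < β) (hβ' : β ≤ 1 / 4) : DTR 2 β (β / 4) (β / 4) 100 := by
  intro f hf a b L lam Lam hab hL hbL h1 h2 h3 h4 h5
  have hL0 : 0 < L := by linarith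
  have hlam : 0 < lam := lt_of_lt_of_le (Real.rpow_pos_of_pos hL0 _) h1
  have hLam : 0 < Lam := lt_of_lt_of_le hlam h2
  have hLam1 : Lam ≤ 1 := h3.trans (Real.rpow_le_one_of_one_le_of_nonpos hL (by linarith))
  have hsd : ∀ n : ℤ, a ≤ n → n + 1 < b → lam ≤ f ((n : ℤ) + 2 : ℤ) - 2 * f ((n + 1 : ℤ)) + f n ∧
      f ((n : ℤ) + 2 : ℤ) - 2 * f ((n + 1 : ℤ)) + f n ≤ Lam := by
    intro n hn hn'
    obtain ⟨x, hx, hx'⟩ := dt_second_diff f hf n
    have hn1 : (a : ℝ) ≤ n := by exact_mod_cast hn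
    have hn2 : (n : ℝ) + 2 ≤ b := by
      have : n + 2 ≤ b := by omega
      exact_mod_cast this
    push_cast
    rw [hx']
    exact h5 x ⟨hn1.trans hx.1, hx.2.trans hn2⟩
  have hmain := second_deriv (fun n : ℤ => f n) a b hab lam Lam hlam h2 hLam1
    (fun n hn hn' => (hsd n hn hn').1) (fun n hn hn' => (hsd n hn hn').2)
  refine hmain.trans ?_
  have hs : 0 < Real.sqrt lam := Real.sqrt_pos.mpr hlam
  have hba : (0 : ℝ) ≤ (b : ℝ) - a := by
    have : (a : ℝ) ≤ b := by exact_mod_cast hab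
    linarith
  have e1 : ((b : ℝ) - a) * Lam ≤ L * L ^ (-β) := by gcongr
  have e1' : L * L ^ (-β) = L ^ (1 - β) := by
    nth_rewrite 1 [← Real.rpow_one L]
    rw [← Real.rpow_add hL0]
    ring_nf
  have e2 : 1 / Real.sqrt lam ≤ L ^ (7 / 8 : ℝ) := by
    rw [one_div, inv_le_comm₀ hs (Real.rpow_pos_of_pos hL0 _), ← Real.rpow_neg hL0.le]
    apply Real.le_sqrt_of_sq_le
    rw [← Real.rpow_natCast, ← Real.rpow_mul hL0.le]
    have e7 : (-(7 / 8) : ℝ) * ((2 : ℕ) : ℝ) = -(7 / 4) := by norm_num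
    rw [e7]
    exact h1
  have e3 : ((b : ℝ) - a) * Lam * (1 / Real.sqrt lam) ≤ L ^ (1 - β / 4) := by
    have s1 : Real.sqrt lam ≤ L ^ (-(β / 2)) := by
      apply Real.sqrt_le_iff.mpr
      refine ⟨(Real.rpow_pos_of_pos hL0 _).le, ?_⟩
      rw [← Real.rpow_natCast, ← Real.rpow_mul hL0.le]
      refine (h2.trans h3).trans (le_of_eq ?_)
      congr 1
      push_cast
      ring
    have s2 : Lam * (1 / Real.sqrt lam) ≤ Real.sqrt lam * L ^ (β / 4) := by
      rw [mul_one_div, div_le_iff₀ hs]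
      calc Lam ≤ lam * L ^ (β / 4) := h4
        _ = Real.sqrt lam * L ^ (β / 4) * Real.sqrt lam := by
          rw [mul_right_comm, Real.mul_self_sqrt hlam.le]
    calc ((b : ℝ) - a) * Lam * (1 / Real.sqrt lam) = ((b : ℝ) - a) * (Lam * (1 / Real.sqrt lam)) := by
          ring
      _ ≤ L * (L ^ (-(β / 2)) * L ^ (β / 4)) := by
          apply mul_le_mul hbL (s2.trans _) (by positivity) hL0.le
          gcongr
      _ = L ^ (1 + (-(β / 2)) + β / 4) := by
          rw [Real.rpow_add hL0, Real.rpow_add hL0, Real.rpow_one]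
          ring
      _ = L ^ (1 - β / 4) := by
          congr 1
          ring
  have g1 : L ^ (1 - β) ≤ L ^ (1 - β / 4) := by
    apply Real.rpow_le_rpow_of_exponent_le hL
    linarith
  have g2 : L ^ (7 / 8 : ℝ) ≤ L ^ (1 - β / 4) := by
    apply Real.rpow_le_rpow_of_exponent_le hL
    linarith
  have g3 : (1 : ℝ) ≤ L ^ (1 - β / 4) := Real.one_le_rpow hL (by linarith)
  have e5 : 20 * (((b : ℝ) - a) * Lam + 1) * (1 / Real.sqrt lam + 1) =
      20 * (((b : ℝ) - a) * Lam * (1 / Real.sqrt lam) + ((b : ℝ) - a) * Lam +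
        1 / Real.sqrt lam + 1) := by ring
  rw [e5]
  rw [e1'] at e1
  linarith [e1, e2, e3, g1, g2, g3]

/-- Copy the proof of `dt_step` (Lib_MP_f1a94e_mr/DT.lean) word by word: the ratio `Lam / lam` is not changed by the differencing. -/
theorem dtr_step (q : ℕ) (β ρ η C : ℝ) (hβ : 0 < β) (hβ' : β ≤ 1 / 4) (hρ : 0 < ρ) (hη : 0 < η) (hη' : η ≤ β)
    (hC : 0 < C) (h : DTR q β ρ η C) : ∃ C' : ℝ, 0 < C' ∧ DTR (q + 1) (2 * β) ρ (η / 2) C' := by
  refine ⟨Real.sqrt (16 + 8 * C) + 1, by positivity, ?_⟩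
  intro f hf a b L lam Lam hab hL hbL h1 h2 h3 h4 h5
  have hL0 : 0 < L := by linarith
  have hlam : 0 < lam := lt_of_lt_of_le (Real.rpow_pos_of_pos hL0 _) h1
  have hLam : 0 < Lam := lt_of_lt_of_le hlam h2
  set P : ℝ := L ^ (1 - η / 2) with hP
  have hP0 : 0 < P := Real.rpow_pos_of_pos hL0 _
  have hLβ : 1 ≤ L ^ β := Real.one_le_rpow hL hβ.le
  set H : ℕ := ⌊L ^ β⌋₊ with hH
  have hH1 : 1 ≤ H := Nat.le_floor (by simpa using hLβ)
  have hHle : (H : ℝ) ≤ L ^ β := Nat.floor_le (by positivity)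
  have hHge : L ^ β / 2 ≤ H := by
    have hlt : L ^ β < (H : ℝ) + 1 := Nat.lt_floor_add_one _
    have : (1 : ℝ) ≤ H := by exact_mod_cast hH1
    linarith
  have hba : (0 : ℝ) ≤ (b : ℝ) - a := by
    have : (a : ℝ) ≤ b := by exact_mod_cast hab
    linarith
  have hsq : P ^ 2 = L ^ (2 - η) := by
    rw [hP, ← Real.rpow_natCast, ← Real.rpow_mul hL0.le]
    norm_num
    ring_nf
  by_cases hcase : (H : ℤ) ≤ b - a + 1
  · -- the main case
    have hM : ∀ k : ℕ, 1 ≤ k → k < H →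
        ‖∑ n ∈ Finset.Icc a (b - k), ee (f ((n + k : ℤ)) - f n)‖ ≤ C * L ^ (1 - η) := by
      intro k hk1 hkH
      have hk0 : (0 : ℝ) < k := by exact_mod_cast hk1
      have hkβ : (k : ℝ) ≤ L ^ β := le_trans (by exact_mod_cast hkH.le) hHle
      have hg : ContDiff ℝ ∞ (fun t => f (t + k) - f t) := (dt_contDiff_shift f hf k).sub hf
      have := h (fun t => f (t + k) - f t) hg a (b - k) L (k * lam) (k * Lam) (by omega) hL
        (by push_cast; linarith) ?_ (by gcongr) ?_ ?_ ?_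
      · convert this using 4
        push_cast
        rfl
      · refine h1.trans ?_
        have : (1 : ℝ) ≤ k := by exact_mod_cast hk1
        nlinarith
      · calc (k : ℝ) * Lam ≤ L ^ β * L ^ (-(2 * β)) := by gcongr
          _ = L ^ (-β) := by
            rw [← Real.rpow_add hL0]
            ring_nf
      · calc (k : ℝ) * Lam ≤ k * (lam * L ^ ρ) := by gcongr
          _ = k * lam * L ^ ρ := by ring
      · intro x hx
        obtain ⟨y, hy, hy'⟩ := dt_iter_diff f hf q k hk0 x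
        rw [hy']
        have hmem : y ∈ Set.Icc (a : ℝ) b := by
          refine ⟨hx.1.trans hy.1, hy.2.trans ?_⟩
          have := hx.2
          push_cast at this
          linarith
        obtain ⟨g1, g2⟩ := h5 y hmem
        exact ⟨by gcongr, by gcongr⟩
    have hv := vdC (fun n : ℤ => f n) a b hab H hH1 hcase (C * L ^ (1 - η)) (by positivity) hM
    have hN : (b : ℝ) - a + 1 ≤ 2 * L := by linarith
    have hN0 : (0 : ℝ) ≤ (b : ℝ) - a + 1 := by linarith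
    have hH0 : (0 : ℝ) < H := by exact_mod_cast hH1
    have t1 : 2 * ((b : ℝ) - a + 1) ^ 2 / H ≤ 16 * P ^ 2 := by
      rw [div_le_iff₀ hH0]
      have s1 : L ^ 2 ≤ P ^ 2 * L ^ β := by
        rw [hsq, ← Real.rpow_add hL0, ← Real.rpow_natCast]
        apply Real.rpow_le_rpow_of_exponent_le hL
        push_cast
        linarith
      calc 2 * ((b : ℝ) - a + 1) ^ 2 ≤ 2 * (2 * L) ^ 2 := by gcongr
        _ = 8 * L ^ 2 := by ring
        _ ≤ 8 * (P ^ 2 * L ^ β) := by gcongr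
        _ = 16 * P ^ 2 * (L ^ β / 2) := by ring
        _ ≤ 16 * P ^ 2 * H := by gcongr
    have t2 : 4 * ((b : ℝ) - a + 1) * (C * L ^ (1 - η)) ≤ 8 * C * P ^ 2 := by
      have s2 : L * L ^ (1 - η) = P ^ 2 := by
        rw [hsq]
        nth_rewrite 1 [← Real.rpow_one L]
        rw [← Real.rpow_add hL0]
        ring_nf
      calc 4 * ((b : ℝ) - a + 1) * (C * L ^ (1 - η)) ≤ 4 * (2 * L) * (C * L ^ (1 - η)) := by gcongr
        _ = 8 * C * (L * L ^ (1 - η)) := by ring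
        _ = 8 * C * P ^ 2 := by rw [s2]
    have t3 : ‖∑ n ∈ Finset.Icc a b, ee (f n)‖ ^ 2 ≤ (16 + 8 * C) * P ^ 2 := by
      refine hv.trans ?_
      linarith
    have t4 : ‖∑ n ∈ Finset.Icc a b, ee (f n)‖ ≤ Real.sqrt ((16 + 8 * C) * P ^ 2) :=
      Real.le_sqrt_of_sq_le t3
    rw [Real.sqrt_mul (by positivity), Real.sqrt_sq hP0.le] at t4
    linarith
  · -- the trivial bound
    have hcard : ‖∑ n ∈ Finset.Icc a b, ee (f n)‖ ≤ (b : ℝ) - a + 1 := by
      refine (norm_sum_le _ _).trans ?_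
      rw [Finset.sum_congr rfl (fun (n : ℤ) _ => vdc_norm_ee (f n))]
      rw [Finset.sum_const, Int.card_Icc, nsmul_eq_mul, mul_one]
      have : ((b + 1 - a).toNat : ℤ) = b + 1 - a := Int.toNat_of_nonneg (by omega)
      have h' : (((b + 1 - a).toNat : ℤ) : ℝ) = ((b + 1 - a : ℤ) : ℝ) := by rw [this]
      push_cast at h'
      linarith
    have hlt : (b : ℝ) - a + 1 ≤ H := by
      have : b - a + 1 ≤ (H : ℤ) := by omega
      exact_mod_cast this
    have hβP : L ^ β ≤ P := by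
      apply Real.rpow_le_rpow_of_exponent_le hL
      linarith
    have hsqrt : 0 ≤ Real.sqrt (16 + 8 * C) := Real.sqrt_nonneg _
    calc ‖∑ n ∈ Finset.Icc a b, ee (f n)‖ ≤ P := by linarith
      _ = 1 * P := (one_mul _).symm
      _ ≤ (Real.sqrt (16 + 8 * C) + 1) * P := by
        gcongr
        linarith

theorem DTR.mono {q : ℕ} {β ρ η C : ℝ} (h : DTR q β ρ η C) (η' C' : ℝ) (hη : η' ≤ η) (hC : C ≤ C')
    (hC0 : 0 ≤ C) : DTR q β ρ η' C' := by
  intro f hf a b L lam Lam hab hL hbL h1 h2 h3 h4 h5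
  refine (h f hf a b L lam Lam hab hL hbL h1 h2 h3 h4 h5).trans ?_
  have : L ^ (1 - η) ≤ L ^ (1 - η') := Real.rpow_le_rpow_of_exponent_le hL (by linarith)
  have h0 : 0 ≤ L ^ (1 - η) := by positivity
  have h0' : 0 ≤ C' := hC0.trans hC
  gcongr

/-- the tests of order `n + 2`, by induction -/
theorem dtr_iter (Q : ℕ) (β : ℝ) (hβ : 0 < β) (hQ : (2 : ℝ) ^ Q * β ≤ 1 / 4) (n : ℕ) (hn : n ≤ Q) :
    ∃ C : ℝ, 0 < C ∧ DTR (n + 2) ((2 : ℝ) ^ n * β) (β / 4) (β / 4 / (2 : ℝ) ^ n) C := by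
  have hpow : ∀ m : ℕ, m ≤ Q → (2 : ℝ) ^ m * β ≤ 1 / 4 := by
    intro m hm
    refine le_trans (mul_le_mul_of_nonneg_right ?_ hβ.le) hQ
    exact pow_le_pow_right₀ (by norm_num) hm
  induction n with
  | zero =>
    have hb := hpow 0 (Nat.zero_le _)
    rw [pow_zero, one_mul] at hb
    refine ⟨100, by norm_num, ?_⟩
    rw [pow_zero, one_mul, div_one]
    exact dtr_two β hβ hb
  | succ n ih =>
    obtain ⟨C, hC, h⟩ := ih (by omega)
    have h1 : (1 : ℝ) ≤ 2 ^ n := one_le_pow₀ (by norm_num)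
    have h2 : β / 4 / (2 : ℝ) ^ n ≤ (2 : ℝ) ^ n * β := by
      have h3 : β / 4 / (2 : ℝ) ^ n ≤ β := by
        rw [div_le_iff₀ (by positivity)]
        nlinarith
      nlinarith
    obtain ⟨C', hC', h'⟩ := dtr_step (n + 2) ((2 : ℝ) ^ n * β) (β / 4) (β / 4 / (2 : ℝ) ^ n) C
      (by positivity) (hpow n (by omega)) (by positivity) (by positivity) h2 hC h
    refine ⟨C', hC', ?_⟩
    have e1 : 2 * ((2 : ℝ) ^ n * β) = (2 : ℝ) ^ (n + 1) * β := by ring
    have e2 : β / 4 / (2 : ℝ) ^ n / 2 = β / 4 / (2 : ℝ) ^ (n + 1) := by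
      rw [pow_succ]
      field_simp
    rw [e1, e2] at h'
    exact h'

/-- Start with `β = 1 / (2 * 2 ^ Q)`, `dtr_two`, apply `dtr_step` (`2 ^ (q - 2) β ≤ 1 / 4` as long as `q + 1 ≤ Q`); then replace `η_q`, `C_q` by the minimum and the maximum over `q ≤ Q` (`DTR` is monotone in `η` and `C`, as in `DTest.mono`). -/
theorem dtr_all (Q : ℕ) : ∃ β ρ η C : ℝ, 0 < β ∧ (2 : ℝ) ^ Q * β ≤ 1 / 2 ∧ 0 < ρ ∧ ρ ≤ β ∧ 0 < η ∧ η ≤ 1 / 2 ∧ 0 < C ∧
    ∀ q : ℕ, 2 ≤ q → q ≤ Q → DTR q ((2 : ℝ) ^ (q - 2) * β) ρ η C := by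
  have hp : (1 : ℝ) ≤ 2 ^ Q := one_le_pow₀ (by norm_num)
  have hQ4 : (2 : ℝ) ^ Q * (1 / (4 * 2 ^ Q)) ≤ 1 / 4 := by
    apply le_of_eq
    field_simp
  set β : ℝ := 1 / (4 * 2 ^ Q) with hβdef
  have hβ : 0 < β := by positivity
  have hβ4 : β ≤ 1 / 4 := by
    rw [hβdef]
    apply one_div_le_one_div_of_le (by norm_num)
    linarith
  have hex : ∀ n : ℕ, ∃ C : ℝ, 0 < C ∧ (n ≤ Q →
      DTR (n + 2) ((2 : ℝ) ^ n * β) (β / 4) (β / 4 / (2 : ℝ) ^ n) C) := by
    intro n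
    by_cases hn : n ≤ Q
    · obtain ⟨C, hC, h⟩ := dtr_iter Q β hβ hQ4 n hn
      exact ⟨C, hC, fun _ => h⟩
    · exact ⟨1, one_pos, fun h => absurd h hn⟩
  choose C hC0 hC using hex
  refine ⟨β, β / 4, β / 4 / 2 ^ Q, ∑ n ∈ Finset.range (Q + 1), C n, hβ, by linarith, by positivity,
    by linarith, by positivity, ?_, ?_, ?_⟩
  · rw [div_le_iff₀ (by positivity)]
    nlinarith
  · exact Finset.sum_pos (fun n _ => hC0 n) ⟨0, Finset.mem_range.2 (Nat.succ_pos _)⟩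
  · intro q hq hqQ
    obtain ⟨n, rfl⟩ : ∃ n, q = n + 2 := ⟨q - 2, by omega⟩
    have hn : n ≤ Q := by omega
    have e : n + 2 - 2 = n := by omega
    rw [e]
    refine (hC n hn).mono _ _ ?_ ?_ (hC0 n).le
    · apply div_le_div_of_nonneg_left (by positivity) (by positivity)
      exact pow_le_pow_right₀ (by norm_num) hn
    · exact Finset.single_le_sum (f := C) (fun i _ => (hC0 i).le)
        (Finset.mem_range.2 (by omega))

end Pool.Agent.ECM

end

/-! ### from `Lib_MP_f1a94e_mr.Psum` -/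

section

/-!
# Piece PSUM: partial summation with weights `1 / nm z`
-/

set_option autoImplicit false

namespace Pool.Agent.GaussMR

open MeasureTheory

open Classical in
/-- the sum of `c` over the circle of norm `n` -/
noncomputable def circSum (c : G → ℂ) (n : ℕ) : ℂ :=
  ∑ z ∈ (ball (n : ℝ)).filter (fun z => nm z = n), c z

theorem circSum_icc (c : G → ℂ) {t : ℝ} (ht : 0 ≤ t) :
    ∑ n ∈ Finset.Icc 0 ⌊t⌋₊, circSum c n = ∑ z ∈ ball t, c z := by
  classical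
  rw [← Finset.sum_fiberwise_of_maps_to (s := ball t) (t := Finset.Icc 0 ⌊t⌋₊) (g := nm)
    (f := c)]
  · apply Finset.sum_congr rfl
    intro n hn
    unfold circSum
    apply Finset.sum_congr _ (fun _ _ => rfl)
    ext z
    simp only [Finset.mem_filter, mem_ball]
    constructor
    · rintro ⟨_, h⟩
      refine ⟨?_, h⟩
      rw [h]
      exact (Nat.le_floor_iff ht).1 (Finset.mem_Icc.1 hn).2
    · rintro ⟨_, h⟩
      exact ⟨by rw [h], h⟩
  · intro z hz
    rw [Finset.mem_Icc]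
    exact ⟨Nat.zero_le _, Nat.le_floor (mem_ball.1 hz)⟩

theorem circSum_ioc (c : G → ℂ) {t1 t2 : ℝ} (h1 : 0 ≤ t1) (h2 : t1 ≤ t2) :
    ∑ n ∈ Finset.Ioc ⌊t1⌋₊ ⌊t2⌋₊, ((n : ℝ) : ℂ)⁻¹ * circSum c n =
      ∑ z ∈ ball t2 \ ball t1, c z / (nm z : ℂ) := by
  classical
  rw [← Finset.sum_fiberwise_of_maps_to (s := ball t2 \ ball t1) (t := Finset.Ioc ⌊t1⌋₊ ⌊t2⌋₊)
    (g := nm) (f := fun z => c z / (nm z : ℂ))]
  · apply Finset.sum_congr rfl
    intro n hn
    unfold circSum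
    rw [Finset.mul_sum]
    have hset : (ball (n : ℝ)).filter (fun z => nm z = n) =
        (ball t2 \ ball t1).filter (fun z => nm z = n) := by
      ext z
      simp only [Finset.mem_filter, Finset.mem_sdiff, mem_ball]
      rw [Finset.mem_Ioc] at hn
      constructor
      · rintro ⟨_, h⟩
        refine ⟨⟨?_, ?_⟩, h⟩
        · rw [h]
          exact (Nat.le_floor_iff (h1.trans h2)).1 hn.2
        · rw [h]
          exact not_le.2 ((Nat.floor_lt h1).1 hn.1)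
      · rintro ⟨_, h⟩
        exact ⟨by rw [h], h⟩
    rw [hset]
    apply Finset.sum_congr rfl
    intro z hz
    rw [(Finset.mem_filter.1 hz).2]
    push_cast
    rw [div_eq_mul_inv, mul_comm]
  · intro z hz
    rw [Finset.mem_sdiff, mem_ball, mem_ball] at hz
    rw [Finset.mem_Ioc]
    exact ⟨(Nat.floor_lt h1).2 (not_le.1 hz.2), Nat.le_floor hz.1⟩

/-- `∑_{t1 < nm z ≤ t2} c z / nm z = S(t2)/t2 - S(t1)/t1 + ∫_{t1}^{t2} S(t) / t² dt`,
`S(t) = ∑_{z ∈ ball t} c z = κ t + R(t)`, `|R(t)| ≤ E t^(1-δ)` -/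
theorem partial_sum (δ : ℝ) (hδ : 0 < δ) (hδ1 : δ ≤ 1) (c : G → ℂ) (κ : ℂ) (E t1 t2 : ℝ)
    (h1 : 1 ≤ t1) (h2 : t1 ≤ t2) (hE : 0 ≤ E)
    (h : ∀ t : ℝ, t1 ≤ t → t ≤ t2 → ‖∑ z ∈ ball t, c z - κ * t‖ ≤ E * t ^ (1 - δ)) :
    ‖∑ z ∈ ball t2 \ ball t1, c z / (nm z : ℂ) - κ * (Real.log (t2 / t1) : ℂ)‖ ≤
      4 * E / δ * t1 ^ (-δ) := by
  have p1 : 0 < t1 := by linarith
  have p2 : 0 < t2 := by linarith
  have hderiv : ∀ t : ℝ, t ≠ 0 → HasDerivAt (fun t : ℝ => ((t : ℝ) : ℂ)⁻¹)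
      (-((((t : ℝ) : ℂ) ^ 2)⁻¹)) t := by
    intro t ht
    have h3 := (hasDerivAt_inv (𝕜 := ℂ) (x := (t : ℂ)) (by exact_mod_cast ht)).comp_ofReal
    exact h3
  have hne : ∀ t ∈ Set.Icc t1 t2, t ≠ 0 := fun t ht => (p1.trans_le ht.1).ne'
  have hdiff : ∀ t ∈ Set.Icc t1 t2, DifferentiableAt ℝ (fun t : ℝ => ((t : ℝ) : ℂ)⁻¹) t :=
    fun t ht => (hderiv t (hne t ht)).differentiableAt
  have hdv : ∀ t ∈ Set.Icc t1 t2, deriv (fun t : ℝ => ((t : ℝ) : ℂ)⁻¹) t =
      -((((t : ℝ) : ℂ) ^ 2)⁻¹) := fun t ht => (hderiv t (hne t ht)).deriv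
  have hcont : ContinuousOn (fun t : ℝ => -((((t : ℝ) : ℂ) ^ 2)⁻¹)) (Set.Icc t1 t2) := by
    apply ContinuousOn.neg
    apply ContinuousOn.inv₀
    · exact (Complex.continuous_ofReal.pow 2).continuousOn
    · intro t ht
      exact pow_ne_zero 2 (by exact_mod_cast hne t ht)
  have hint : IntegrableOn (deriv (fun t : ℝ => ((t : ℝ) : ℂ)⁻¹)) (Set.Icc t1 t2) := by
    refine (hcont.integrableOn_compact isCompact_Icc).congr_fun ?_ measurableSet_Icc
    intro t ht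
    exact (hdv t ht).symm
  have habel := sum_mul_eq_sub_sub_integral_mul (circSum c) p1.le h2 hdiff hint
  rw [circSum_ioc c p1.le h2, circSum_icc c p1.le, circSum_icc c p2.le] at habel
  have hintS : IntegrableOn (fun t => deriv (fun t : ℝ => ((t : ℝ) : ℂ)⁻¹) t *
      ∑ k ∈ Finset.Icc 0 ⌊t⌋₊, circSum c k) (Set.Icc t1 t2) :=
    integrableOn_mul_sum_Icc (circSum c) p1.le hint
  have hI1 : ∫ t in Set.Ioc t1 t2, deriv (fun t : ℝ => ((t : ℝ) : ℂ)⁻¹) t *
      ∑ k ∈ Finset.Icc 0 ⌊t⌋₊, circSum c k =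
      ∫ t in Set.Ioc t1 t2, -((((t : ℝ) : ℂ) ^ 2)⁻¹) * ∑ z ∈ ball t, c z := by
    apply setIntegral_congr_fun measurableSet_Ioc
    intro t ht
    simp only
    rw [hdv t ⟨ht.1.le, ht.2⟩, circSum_icc c (p1.trans ht.1).le]
  have hintS2 : IntegrableOn (fun t : ℝ => -((((t : ℝ) : ℂ) ^ 2)⁻¹) * ∑ z ∈ ball t, c z)
      (Set.Ioc t1 t2) := by
    refine (hintS.mono_set Set.Ioc_subset_Icc_self).congr_fun ?_ measurableSet_Ioc
    intro t ht
    simp only
    rw [hdv t ⟨ht.1.le, ht.2⟩, circSum_icc c (p1.trans ht.1).le]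
  have hcont3 : ContinuousOn (fun t : ℝ => -((((t : ℝ) : ℂ) ^ 2)⁻¹) * (κ * t)) (Set.Icc t1 t2) :=
    hcont.mul (continuous_const.mul Complex.continuous_ofReal).continuousOn
  have hintS3 : IntegrableOn (fun t : ℝ => -((((t : ℝ) : ℂ) ^ 2)⁻¹) * (κ * t))
      (Set.Ioc t1 t2) :=
    (hcont3.integrableOn_compact isCompact_Icc).mono_set Set.Ioc_subset_Icc_self
  have hmain : ∫ t in Set.Ioc t1 t2, -((((t : ℝ) : ℂ) ^ 2)⁻¹) * (κ * t) =
      -(κ * (Real.log (t2 / t1) : ℂ)) := by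
    have e1 : ∀ t ∈ Set.Ioc t1 t2, -((((t : ℝ) : ℂ) ^ 2)⁻¹) * (κ * t) =
        (-κ) * ((t⁻¹ : ℝ) : ℂ) := by
      intro t ht
      have ht0 : ((t : ℝ) : ℂ) ≠ 0 := by exact_mod_cast (p1.trans ht.1).ne'
      push_cast
      field_simp
    rw [setIntegral_congr_fun measurableSet_Ioc e1, integral_const_mul, integral_complex_ofReal]
    rw [← intervalIntegral.integral_of_le h2, integral_inv_of_pos p1 p2]
    ring
  have hrem : ∫ t in Set.Ioc t1 t2, -((((t : ℝ) : ℂ) ^ 2)⁻¹) * ∑ z ∈ ball t, c z =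
      -(κ * (Real.log (t2 / t1) : ℂ)) +
      ∫ t in Set.Ioc t1 t2, -((((t : ℝ) : ℂ) ^ 2)⁻¹) * (∑ z ∈ ball t, c z - κ * t) := by
    rw [← hmain, ← integral_add hintS3]
    · apply integral_congr_ae
      apply Filter.Eventually.of_forall
      intro t
      simp only
      ring
    · have := hintS2.sub hintS3
      refine this.congr_fun ?_ measurableSet_Ioc
      intro t _
      simp only [Pi.sub_apply]
      ring
  rw [hI1, hrem] at habel
  have hfin : ∑ z ∈ ball t2 \ ball t1, c z / (nm z : ℂ) - κ * (Real.log (t2 / t1) : ℂ) =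
      ((t2 : ℝ) : ℂ)⁻¹ * (∑ z ∈ ball t2, c z - κ * t2) -
      ((t1 : ℝ) : ℂ)⁻¹ * (∑ z ∈ ball t1, c z - κ * t1) -
      ∫ t in Set.Ioc t1 t2, -((((t : ℝ) : ℂ) ^ 2)⁻¹) * (∑ z ∈ ball t, c z - κ * t) := by
    rw [habel]
    have c1 : ((t1 : ℝ) : ℂ) ≠ 0 := by exact_mod_cast p1.ne'
    have c2 : ((t2 : ℝ) : ℂ) ≠ 0 := by exact_mod_cast p2.ne'
    have d1 : ((t1 : ℝ) : ℂ)⁻¹ * (κ * t1) = κ := by field_simp
    have d2 : ((t2 : ℝ) : ℂ)⁻¹ * (κ * t2) = κ := by field_simp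
    rw [mul_sub, mul_sub, d1, d2]
    ring
  rw [hfin]
  have hb : ∀ t : ℝ, t1 ≤ t → t ≤ t2 →
      ‖((t : ℝ) : ℂ)⁻¹ * (∑ z ∈ ball t, c z - κ * t)‖ ≤ E * t1 ^ (-δ) := by
    intro t ht1 ht2
    have pt : 0 < t := by linarith
    rw [norm_mul, norm_inv, Complex.norm_real, Real.norm_of_nonneg pt.le]
    calc t⁻¹ * ‖∑ z ∈ ball t, c z - κ * t‖ ≤ t⁻¹ * (E * t ^ (1 - δ)) :=
          mul_le_mul_of_nonneg_left (h t ht1 ht2) (by positivity)
      _ = E * t ^ (-δ) := by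
          rw [show (1 - δ) = 1 + (-δ) by ring, Real.rpow_add pt, Real.rpow_one]
          field_simp
      _ ≤ E * t1 ^ (-δ) := by
          apply mul_le_mul_of_nonneg_left _ hE
          exact Real.rpow_le_rpow_of_nonpos p1 ht1 (by linarith)
  have hc : ‖∫ t in Set.Ioc t1 t2, -((((t : ℝ) : ℂ) ^ 2)⁻¹) * (∑ z ∈ ball t, c z - κ * t)‖ ≤
      E / δ * t1 ^ (-δ) := by
    rw [← intervalIntegral.integral_of_le h2]
    have h0 : (0 : ℝ) ∉ Set.uIcc t1 t2 := by
      rw [Set.uIcc_of_le h2]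
      intro h3
      linarith [h3.1]
    have hg : IntervalIntegrable (fun t : ℝ => E * t ^ (-1 - δ)) volume t1 t2 := by
      apply IntervalIntegrable.const_mul
      exact intervalIntegral.intervalIntegrable_rpow (Or.inr h0)
    refine (intervalIntegral.norm_integral_le_of_norm_le h2 ?_ hg).trans ?_
    · apply Filter.Eventually.of_forall
      intro t ht
      have pt : 0 < t := by linarith [ht.1]
      rw [norm_mul, norm_neg, norm_inv, norm_pow, Complex.norm_real, Real.norm_of_nonneg pt.le]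
      calc (t ^ 2)⁻¹ * ‖∑ z ∈ ball t, c z - κ * t‖ ≤ (t ^ 2)⁻¹ * (E * t ^ (1 - δ)) :=
            mul_le_mul_of_nonneg_left (h t ht.1.le ht.2) (by positivity)
        _ = E * t ^ (-1 - δ) := by
            rw [show (1 - δ) = 2 + (-1 - δ) by ring, Real.rpow_add pt, Real.rpow_two]
            field_simp
    · rw [intervalIntegral.integral_const_mul, integral_rpow (Or.inr ⟨by linarith, h0⟩)]
      have e2 : (-1 - δ + 1) = -δ := by ring
      rw [e2]
      have q2 : 0 ≤ t2 ^ (-δ) := Real.rpow_nonneg p2.le _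
      have e3 : (t2 ^ (-δ) - t1 ^ (-δ)) / (-δ) = (t1 ^ (-δ) - t2 ^ (-δ)) / δ := by
        field_simp
        ring
      rw [e3]
      calc E * ((t1 ^ (-δ) - t2 ^ (-δ)) / δ) ≤ E * (t1 ^ (-δ) / δ) := by
            apply mul_le_mul_of_nonneg_left _ hE
            apply div_le_div_of_nonneg_right _ hδ.le
            linarith
        _ = E / δ * t1 ^ (-δ) := by ring
  have q1 : 0 ≤ t1 ^ (-δ) := Real.rpow_nonneg p1.le _
  have hEd : E ≤ E / δ := by
    rw [le_div_iff₀ hδ]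
    nlinarith
  calc _ ≤ ‖((t2 : ℝ) : ℂ)⁻¹ * (∑ z ∈ ball t2, c z - κ * t2) -
      ((t1 : ℝ) : ℂ)⁻¹ * (∑ z ∈ ball t1, c z - κ * t1)‖ +
      ‖∫ t in Set.Ioc t1 t2, -((((t : ℝ) : ℂ) ^ 2)⁻¹) * (∑ z ∈ ball t, c z - κ * t)‖ :=
        norm_sub_le _ _
    _ ≤ (E * t1 ^ (-δ) + E * t1 ^ (-δ)) + E / δ * t1 ^ (-δ) := by
        apply add_le_add _ hc
        exact (norm_sub_le _ _).trans (add_le_add (hb t2 h2 le_rfl) (hb t1 le_rfl h2))
    _ ≤ (E / δ * t1 ^ (-δ) + E / δ * t1 ^ (-δ)) + 2 * (E / δ * t1 ^ (-δ)) := by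
        have := mul_le_mul_of_nonneg_right hEd q1
        have : 0 ≤ E / δ * t1 ^ (-δ) := by positivity
        linarith
    _ = 4 * E / δ * t1 ^ (-δ) := by ring

end Pool.Agent.GaussMR

end

/-! ### from `Lib_MP_f1a94e_mr.Orth` -/

section

/-!
# Piece ORTH: almost orthogonality
-/

set_option autoImplicit false

namespace Pool.Agent.GaussMR

open Complex in
private theorem norm_sq_Fb (S : Finset ℤ) (d : ℤ → ℂ) (z : G) (hz : z ≠ 0) :
    ((‖Fb S d z‖ ^ 2 : ℝ) : ℂ) =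
      ∑ j ∈ S, ∑ k ∈ S, d j * (starRingEnd ℂ) (d k) * xi (j - k) z := by
  have h1 : ((‖Fb S d z‖ ^ 2 : ℝ) : ℂ) = Fb S d z * (starRingEnd ℂ) (Fb S d z) := by
    rw [Complex.mul_conj, Complex.normSq_eq_norm_sq]
  rw [h1]
  unfold Fb
  rw [map_sum, Finset.sum_mul_sum]
  refine Finset.sum_congr rfl (fun j _ => Finset.sum_congr rfl (fun k _ => ?_))
  rw [map_mul, conj_xi k hz, sub_eq_add_neg, xi_add j (-k) hz]
  ring

open Complex in
private theorem sum_norm_sq_Fb (S : Finset ℤ) (d : ℤ → ℂ) (Y : ℝ) :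
    ((∑ z ∈ V Y, ‖Fb S d z‖ ^ 2 : ℝ) : ℂ) =
      ∑ j ∈ S, ∑ k ∈ S, d j * (starRingEnd ℂ) (d k) * ∑ z ∈ V Y, xi (j - k) z := by
  push_cast
  have h1 : ∀ z ∈ V Y, ((‖Fb S d z‖ : ℂ)) ^ 2 =
      ∑ j ∈ S, ∑ k ∈ S, d j * (starRingEnd ℂ) (d k) * xi (j - k) z := by
    intro z hz
    rw [← norm_sq_Fb S d z (V_ne_zero hz)]
    push_cast
    rfl
  rw [Finset.sum_congr rfl h1, Finset.sum_comm]
  refine Finset.sum_congr rfl (fun j _ => ?_)
  rw [Finset.sum_comm]
  refine Finset.sum_congr rfl (fun k _ => ?_)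
  rw [Finset.mul_sum]

/-- expand the square; the diagonal gives the main term, and `∑_{j ≠ k} |d j| |d k| ≤ #S ∑ |d k|²` -/
theorem almost_orth (S : Finset ℤ) (d : ℤ → ℂ) (Y B : ℝ) (hB0 : 0 ≤ B)
    (hB : ∀ j ∈ S, ∀ k ∈ S, j ≠ k → ‖∑ z ∈ V Y, xi (j - k) z‖ ≤ B) :
    |∑ z ∈ V Y, ‖Fb S d z‖ ^ 2 - (V Y).card * ∑ k ∈ S, ‖d k‖ ^ 2| ≤
      S.card * B * ∑ k ∈ S, ‖d k‖ ^ 2 := by
  classical
  have hdiag : (((V Y).card * ∑ k ∈ S, ‖d k‖ ^ 2 : ℝ) : ℂ) =
      ∑ j ∈ S, ∑ k ∈ S, if j = k then ((V Y).card : ℂ) * ((‖d j‖ ^ 2 : ℝ) : ℂ) else 0 := by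
    push_cast
    rw [Finset.mul_sum]
    refine Finset.sum_congr rfl (fun j hj => ?_)
    rw [Finset.sum_ite_eq, if_pos hj]
  have key : ((∑ z ∈ V Y, ‖Fb S d z‖ ^ 2 - (V Y).card * ∑ k ∈ S, ‖d k‖ ^ 2 : ℝ) : ℂ) =
      ∑ j ∈ S, ∑ k ∈ S, if j = k then 0 else
        d j * (starRingEnd ℂ) (d k) * ∑ z ∈ V Y, xi (j - k) z := by
    rw [Complex.ofReal_sub, sum_norm_sq_Fb, hdiag, ← Finset.sum_sub_distrib]
    refine Finset.sum_congr rfl (fun j _ => ?_)
    rw [← Finset.sum_sub_distrib]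
    refine Finset.sum_congr rfl (fun k _ => ?_)
    by_cases h : j = k
    · subst h
      rw [if_pos rfl, if_pos rfl]
      simp only [sub_self, xi_zero, Finset.sum_const, nsmul_eq_mul, mul_one]
      rw [Complex.mul_conj, Complex.normSq_eq_norm_sq]
      ring
    · rw [if_neg h, if_neg h, sub_zero]
  have h1 : |∑ z ∈ V Y, ‖Fb S d z‖ ^ 2 - (V Y).card * ∑ k ∈ S, ‖d k‖ ^ 2| =
      ‖((∑ z ∈ V Y, ‖Fb S d z‖ ^ 2 - (V Y).card * ∑ k ∈ S, ‖d k‖ ^ 2 : ℝ) : ℂ)‖ := by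
    rw [Complex.norm_real, Real.norm_eq_abs]
  rw [h1, key]
  have h2 : ‖∑ j ∈ S, ∑ k ∈ S, (if j = k then 0 else
        d j * (starRingEnd ℂ) (d k) * ∑ z ∈ V Y, xi (j - k) z)‖ ≤
      ∑ j ∈ S, ∑ k ∈ S, ‖d j‖ * ‖d k‖ * B := by
    refine (norm_sum_le _ _).trans (Finset.sum_le_sum (fun j hj => ?_))
    refine (norm_sum_le _ _).trans (Finset.sum_le_sum (fun k hk => ?_))
    by_cases h : j = k
    · rw [if_pos h, norm_zero]
      positivity
    · rw [if_neg h, norm_mul, norm_mul, RCLike.norm_conj]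
      exact mul_le_mul_of_nonneg_left (hB j hj k hk h) (by positivity)
  refine h2.trans ?_
  have h3 : ∑ j ∈ S, ∑ k ∈ S, ‖d j‖ * ‖d k‖ * B = (∑ k ∈ S, ‖d k‖) ^ 2 * B := by
    rw [sq, Finset.sum_mul_sum, Finset.sum_mul]
    refine Finset.sum_congr rfl (fun j _ => ?_)
    rw [Finset.sum_mul]
  rw [h3]
  have h4 : (∑ k ∈ S, ‖d k‖) ^ 2 ≤ S.card * ∑ k ∈ S, ‖d k‖ ^ 2 := sq_sum_le_card_mul_sum_sq
  calc (∑ k ∈ S, ‖d k‖) ^ 2 * B ≤ (S.card * ∑ k ∈ S, ‖d k‖ ^ 2) * B :=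
        mul_le_mul_of_nonneg_right h4 hB0
    _ = S.card * B * ∑ k ∈ S, ‖d k‖ ^ 2 := by ring

/-- with `d k = fc F X k / #V X`:
`∑ ‖F z - Fb S d z‖² = #V - 2 #V ∑ |d k|² + ∑ ‖Fb S d z‖²` and `almost_orth` -/
theorem approx (F : G → ℝ) (hF : PM F) (S : Finset ℤ) (X B : ℝ) (hX : 1 ≤ X) (hB0 : 0 ≤ B)
    (hB : ∀ j ∈ S, ∀ k ∈ S, j ≠ k → ‖∑ z ∈ V X, xi (j - k) z‖ ≤ B) :
    ∑ z ∈ V X, ‖(F z : ℂ) - Fb S (fun k => fc F X k / ((V X).card : ℂ)) z‖ ^ 2 ≤
      (V X).card * (1 - ∑ k ∈ S, ‖fc F X k / ((V X).card : ℂ)‖ ^ 2) +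
      S.card * B * ∑ k ∈ S, ‖fc F X k / ((V X).card : ℂ)‖ ^ 2 := by
  classical
  set d : ℤ → ℂ := fun k => fc F X k / ((V X).card : ℂ) with hd
  have h1mem : (1 : G) ∈ V X := by
    rw [mem_V]
    refine ⟨?_, ?_, prim_one⟩
    · rw [nm_one]; simpa using hX
    · rw [nm_one]; exact odd_one
  have hcard : ((V X).card : ℂ) ≠ 0 := by
    have : 0 < (V X).card := Finset.card_pos.2 ⟨1, h1mem⟩
    exact_mod_cast this.ne'
  have hfc : ∀ k, fc F X k = d k * ((V X).card : ℂ) := by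
    intro k
    rw [hd]
    field_simp
  -- the cross term
  have hcross : ∑ z ∈ V X, (F z : ℂ) * (starRingEnd ℂ) (Fb S d z) =
      (((V X).card * ∑ k ∈ S, ‖d k‖ ^ 2 : ℝ) : ℂ) := by
    have e1 : ∀ z ∈ V X, (F z : ℂ) * (starRingEnd ℂ) (Fb S d z) =
        ∑ k ∈ S, (starRingEnd ℂ) (d k) * ((F z : ℂ) * xi (-k) z) := by
      intro z hz
      unfold Fb
      rw [map_sum, Finset.mul_sum]
      refine Finset.sum_congr rfl (fun k _ => ?_)
      rw [map_mul, conj_xi k (V_ne_zero hz)]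
      ring
    rw [Finset.sum_congr rfl e1, Finset.sum_comm]
    push_cast
    rw [Finset.mul_sum]
    refine Finset.sum_congr rfl (fun k _ => ?_)
    rw [← Finset.mul_sum]
    have e2 : ∑ z ∈ V X, (F z : ℂ) * xi (-k) z = fc F X k := rfl
    rw [e2, hfc k]
    have e3 : ((‖d k‖ : ℂ)) ^ 2 = d k * (starRingEnd ℂ) (d k) := by
      rw [Complex.mul_conj, Complex.normSq_eq_norm_sq]
      push_cast
      rfl
    rw [e3]
    ring
  have hexp : ∀ z ∈ V X, ‖(F z : ℂ) - Fb S d z‖ ^ 2 =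
      1 - 2 * ((F z : ℂ) * (starRingEnd ℂ) (Fb S d z)).re + ‖Fb S d z‖ ^ 2 := by
    intro z hz
    have hn : ‖(F z : ℂ)‖ = 1 := hF.norm (mem_V.1 hz).2.1
    rw [← Complex.normSq_eq_norm_sq, Complex.normSq_sub, Complex.normSq_eq_norm_sq,
      Complex.normSq_eq_norm_sq, hn]
    ring
  rw [Finset.sum_congr rfl hexp, Finset.sum_add_distrib, Finset.sum_sub_distrib, ← Finset.mul_sum,
    ← Complex.re_sum, hcross, Complex.ofReal_re]
  simp only [Finset.sum_const, nsmul_eq_mul, mul_one]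
  have h5 := (abs_le.1 (almost_orth S d X B hB0 hB)).2
  linarith

end Pool.Agent.GaussMR

end
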