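import Mathlib
import Pool.Agent.Lib_MP_f1a94e_m.G01
import Pool.Agent.Lib_MP_f1a94e_m.G06
import Pool.Agent.Lib_MP_f1a94e_m.G07
import Pool.Agent.Lib_MP_f1a94e_m.G08

/-!
# MP_f1a94e_nt: merged library part G09

Concatenation of files of the libraries `Lib_MP_f1a94e_*` (each in its own section), only to save build time.
-/

/-! ### from `Lib_MP_f1a94e_eq.Tog` -/

section

/-!
# Piece TOG: moving one small prime
-/

set_option autoImplicit false

namespace Pool.Agent.OmEq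

open Finset Pool.Agent.GaussMR Pool.Agent.OmAll

/-- pairs with `p` dividing `|V'|^2`, `p ^ 2` not dividing the product -/
def Bp (n p : ℕ) : Set (G × G) := {e | En n e ∧ p ∣ nm e.2 ∧ ¬ p ^ 2 ∣ nm e.1 * nm e.2}

/-- pairs with `p` dividing `|V|^2`, `p ^ 2` not dividing the product -/
def Ap' (n p : ℕ) : Set (G × G) := {e | En n e ∧ p ∣ nm e.1 ∧ ¬ p ^ 2 ∣ nm e.1 * nm e.2}

theorem tog_mul_star (z : G) : z * star z = ((nm z : ℕ) : G) := by
  have h := nm_eq z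
  apply Zsqrtd.ext
  · simp
    have h2 : ((nm z : ℕ) : ℤ) = z.re ^ 2 + z.im ^ 2 := h
    rw [h2]; ring
  · simp; ring

theorem tog_prime {g : G} (h : (nm g).Prime) : Prime g := by
  rw [← irreducible_iff_prime]
  refine ⟨fun hu => h.one_lt.ne' (nm_eq_one_iff.2 hu), fun b c hbc => ?_⟩
  have h1 : nm b * nm c = nm g := by rw [hbc, nm_mul]
  rcases (Nat.prime_mul_iff.1 (h1 ▸ h)) with ⟨_, h3⟩ | ⟨_, h3⟩
  · exact Or.inr (nm_eq_one_iff.1 h3)
  · exact Or.inl (nm_eq_one_iff.1 h3)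

theorem tog_star_dvd {u v : G} : star u ∣ star v ↔ u ∣ v := by
  constructor
  · rintro ⟨c, hc⟩
    refine ⟨star c, ?_⟩
    have := congrArg star hc
    rwa [star_star, star_mul', star_star] at this
  · rintro ⟨c, rfl⟩
    exact ⟨star c, star_mul' _ _⟩

theorem tog_nm_nat (p : ℕ) : nm ((p : ℕ) : G) = p ^ 2 := by
  have : (nm ((p : ℕ) : G) : ℤ) = (p : ℤ) ^ 2 := by
    rw [nm_eq]
    simp
  exact_mod_cast this

theorem tog_exists (p : ℕ) (hp : p.Prime) (h4 : p % 4 = 1) : ∃ π : G, nm π = p ∧ ¬ π ∣ star π := by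
  have : Fact p.Prime := ⟨hp⟩
  obtain ⟨a, b, hab⟩ := Nat.Prime.sq_add_sq (p := p) (by omega)
  have hn : nm (⟨(a : ℤ), (b : ℤ)⟩ : G) = p := by
    have h2 : (nm (⟨(a : ℤ), (b : ℤ)⟩ : G) : ℤ) = (p : ℤ) := by
      rw [nm_eq, ← hab]
      push_cast
      ring
    exact_mod_cast h2
  refine ⟨⟨(a : ℤ), (b : ℤ)⟩, hn, fun hd => ?_⟩
  have hsum : (⟨(a : ℤ), (b : ℤ)⟩ : G) + star (⟨(a : ℤ), (b : ℤ)⟩ : G) = ((2 * a : ℕ) : G) := by
    apply Zsqrtd.ext
    · simp
      ring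
    · simp
  have h1 : (⟨(a : ℤ), (b : ℤ)⟩ : G) ∣ ((2 * a : ℕ) : G) := by
    rw [← hsum]
    exact dvd_add (dvd_refl _) hd
  have h2 := nm_dvd h1
  rw [hn, tog_nm_nat] at h2
  have h3 : p ∣ 2 * a := hp.dvd_of_dvd_pow h2
  have h5 : p ∣ a := by
    rcases hp.dvd_mul.1 h3 with h | h
    · exfalso
      have := Nat.le_of_dvd (by norm_num) h
      have := hp.two_le
      have h6 : p = 2 := by omega
      omega
    · exact h
  rcases Nat.eq_zero_or_pos a with h0 | h0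
  · rw [h0] at hab
    have h6 : p = b * b := by rw [← hab]; ring
    have h7 : b ∣ p := ⟨b, h6⟩
    rcases (Nat.dvd_prime hp).1 h7 with h8 | h8
    · rw [h8] at h6
      exact hp.one_lt.ne' (by omega)
    · rw [h8] at h6
      have := hp.one_lt
      nlinarith
  · have h6 := Nat.le_of_dvd h0 h5
    have h7 := hp.one_lt
    nlinarith [sq_nonneg b]

/-- the two candidates -/
def TogC (π γ : G) : Prop := γ = π ∨ γ = star π

theorem tog_cand {p : ℕ} (hp : p.Prime) {π : G} (hn : nm π = p) (hd : ¬ π ∣ star π) {γ : G}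
    (h : TogC π γ) : nm γ = p ∧ Prime γ ∧ ¬ γ ∣ star γ ∧ γ * star γ = ((p : ℕ) : G) := by
  rcases h with rfl | rfl
  · exact ⟨hn, tog_prime (by rw [hn]; exact hp), hd, by rw [tog_mul_star, hn]⟩
  · refine ⟨by rw [nm_star, hn], tog_prime (by rw [nm_star, hn]; exact hp), fun h => hd ?_,
      by rw [tog_mul_star, nm_star, hn]⟩
    exact tog_star_dvd.1 h

theorem tog_dvd_exists {p : ℕ} (hp : p.Prime) {π : G} (hn : nm π = p) {z : G} (h : p ∣ nm z) :
    π ∣ z ∨ star π ∣ z := by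
  have hpr : Prime π := tog_prime (by rw [hn]; exact hp)
  have h1 : π ∣ z * star z := by
    rw [tog_mul_star]
    have h2 : ((p : ℕ) : G) ∣ ((nm z : ℕ) : G) := by exact_mod_cast (Nat.cast_dvd_cast (α := G) h)
    refine dvd_trans ?_ h2
    rw [← hn, ← tog_mul_star]
    exact dvd_mul_right _ _
  rcases hpr.dvd_or_dvd h1 with h2 | h2
  · exact Or.inl h2
  · right
    rw [← tog_star_dvd, star_star]
    exact h2

theorem tog_both {p : ℕ} {γ : G} (hγ : Prime γ) (hd : ¬ γ ∣ star γ)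
    (hm : γ * star γ = ((p : ℕ) : G)) {z : G} (h1 : γ ∣ z) (h2 : star γ ∣ z) :
    ((p : ℕ) : G) ∣ z := by
  obtain ⟨w, rfl⟩ := h2
  rcases hγ.dvd_or_dvd h1 with h3 | h3
  · exact absurd h3 hd
  · obtain ⟨v, rfl⟩ := h3
    refine ⟨v, ?_⟩
    rw [← hm]
    ring

theorem tog_sq_dvd {p : ℕ} {z : G} (h : ((p : ℕ) : G) ∣ z) : p ^ 2 ∣ nm z := by
  have h1 := nm_dvd h
  rwa [tog_nm_nat] at h1

theorem tog_not_dvd {p : ℕ} (hp : p.Prime) {z : G} (hz : Prim z) : ¬ ((p : ℕ) : G) ∣ z :=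
  fun h => hp.one_lt.ne' (prim_iff.1 hz p h)

theorem tog_prim {z : G} (h : ∀ l : ℕ, l.Prime → ¬ ((l : ℕ) : G) ∣ z) : Prim z := by
  rw [prim_iff]
  intro n hn
  by_contra hn1
  obtain ⟨q, hq, hqn⟩ := Nat.exists_prime_and_dvd hn1
  exact h q hq (dvd_trans (by exact_mod_cast (Nat.cast_dvd_cast (α := G) hqn)) hn)

theorem tog_cg {n : ℕ} {u v : G} : cg n u v ↔ ((n : ℤ) : G) ∣ u - v := by
  unfold cg
  rw [Zsqrtd.intCast_dvd]
  simp

theorem tog_det {γ U W : G} : det (γ * U) W = det U (star γ * W) ∧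
    dot (γ * U) W = dot U (star γ * W) := by
  have h1 := star_mul_eq (γ * U) W
  have h2 := star_mul_eq U (star γ * W)
  have h3 : star (γ * U) * W = star U * (star γ * W) := by
    rw [star_mul']
    ring
  rw [h3, h2] at h1
  have h4 := congrArg Zsqrtd.re h1
  have h5 := congrArg Zsqrtd.im h1
  exact ⟨h5.symm, h4.symm⟩

theorem tog_nm (γ U W : G) : nm (γ * U) * nm W = nm U * nm (star γ * W) := by
  rw [nm_mul, nm_mul, nm_star]
  ring

theorem tog_coprime {p n : ℕ} (hp : p.Prime) (hpn : ¬ p ∣ n) : IsCoprime (p : ℤ) (n : ℤ) := by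
  rw [Nat.isCoprime_iff_coprime]
  exact (Nat.Prime.coprime_iff_not_dvd hp).2 hpn

theorem tog_fwd {n p : ℕ} (hp : p.Prime) (hpn : ¬ p ∣ n) {γ U W : G}
    (hg : nm γ = p ∧ Prime γ ∧ ¬ γ ∣ star γ ∧ γ * star γ = ((p : ℕ) : G))
    (h : (U, star γ * W) ∈ Bp n p) : (γ * U, W) ∈ Ap' n p := by
  obtain ⟨hn, hpr, hd, hm⟩ := hg
  obtain ⟨⟨h1, h2, h3, c, hc, hcg⟩, h5, h6⟩ := h
  simp only at h1 h2 h3 hcg h5 h6
  refine ⟨⟨?_, ?_, ?_, ?_⟩, ?_, ?_⟩
  · show det (γ * U) W = n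
    rw [tog_det.1]
    exact h1
  · show 0 < dot (γ * U) W
    rw [tog_det.2]
    exact h2
  · show Prim (γ * U)
    refine tog_prim fun l hl hlU => ?_
    by_cases hlp : l = p
    · subst hlp
      rw [← hm] at hlU
      have h7 : star γ ∣ U := (mul_dvd_mul_iff_left hpr.ne_zero).1 hlU
      have h8 : l ∣ nm U := by
        have := nm_dvd h7
        rwa [nm_star, hn] at this
      apply h6
      rw [sq]
      exact mul_dvd_mul h8 h5
    · have h7 : ((l : ℕ) : G) ∣ ((p : ℕ) : G) * U := by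
        rw [← hm]
        have h8 : γ * star γ * U = star γ * (γ * U) := by ring
        rw [h8]
        exact Dvd.dvd.mul_left hlU _
      have hcop : IsCoprime ((l : ℕ) : G) ((p : ℕ) : G) := by
        have h8 : IsCoprime (l : ℤ) (p : ℤ) := by
          rw [Nat.isCoprime_iff_coprime]
          exact (Nat.coprime_primes hl hp).2 hlp
        have h9 := h8.map (Int.castRingHom G)
        simpa using h9
      exact tog_not_dvd hl h3 (hcop.dvd_of_dvd_mul_left h7)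
  · obtain ⟨a, b, hab⟩ := tog_coprime hp hpn
    refine ⟨a * c, IsCoprime.mul_left ⟨p, b, by rw [← hab]; ring⟩ hc, ?_⟩
    rw [tog_cg] at hcg ⊢
    show ((n : ℤ) : G) ∣ W - ((a * c : ℤ) : G) * (γ * U)
    have hab' : (a : G) * ((p : ℕ) : G) + (b : G) * ((n : ℤ) : G) = 1 := by
      have := congrArg (fun t : ℤ => (t : G)) hab
      push_cast at this ⊢
      exact this
    have h7 : W - ((a * c : ℤ) : G) * (γ * U) =
        ((n : ℤ) : G) * ((b : G) * W) + (star γ * W - (c : G) * U) * ((a : G) * γ) := by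
      have h8 : (star γ * W - (c : G) * U) * ((a : G) * γ) =
          (a : G) * (γ * star γ) * W - (a : G) * (c : G) * (γ * U) := by ring
      rw [h8, hm]
      have h9 : W = ((a : G) * ((p : ℕ) : G) + (b : G) * ((n : ℤ) : G)) * W := by
        rw [hab', one_mul]
      calc W - ((a * c : ℤ) : G) * (γ * U)
          = ((a : G) * ((p : ℕ) : G) + (b : G) * ((n : ℤ) : G)) * W
              - ((a * c : ℤ) : G) * (γ * U) := by rw [← h9]
        _ = _ := by
          push_cast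
          ring
    rw [h7]
    exact dvd_add (dvd_mul_right _ _) (Dvd.dvd.mul_right hcg _)
  · show p ∣ nm (γ * U)
    rw [nm_mul, hn]
    exact dvd_mul_right _ _
  · show ¬ p ^ 2 ∣ nm (γ * U) * nm W
    rw [tog_nm]
    exact h6

theorem tog_bwd {n p : ℕ} (hp : p.Prime) (hpn : ¬ p ∣ n) {γ U W : G}
    (hg : nm γ = p ∧ Prime γ ∧ ¬ γ ∣ star γ ∧ γ * star γ = ((p : ℕ) : G))
    (h : (γ * U, W) ∈ Ap' n p) : (U, star γ * W) ∈ Bp n p := by
  obtain ⟨hn, hpr, hd, hm⟩ := hg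
  obtain ⟨⟨h1, h2, h3, c, hc, hcg⟩, h5, h6⟩ := h
  simp only at h1 h2 h3 hcg h5 h6
  refine ⟨⟨?_, ?_, ?_, ?_⟩, ?_, ?_⟩
  · show det U (star γ * W) = n
    rw [← tog_det.1]
    exact h1
  · show 0 < dot U (star γ * W)
    rw [← tog_det.2]
    exact h2
  · show Prim U
    exact tog_prim fun l hl hlU => tog_not_dvd hl h3 (Dvd.dvd.mul_left hlU _)
  · refine ⟨c * p, IsCoprime.mul_left hc (tog_coprime hp hpn), ?_⟩
    rw [tog_cg] at hcg ⊢
    show ((n : ℤ) : G) ∣ star γ * W - ((c * p : ℤ) : G) * U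
    have h7 : star γ * W - ((c * p : ℤ) : G) * U = (W - (c : G) * (γ * U)) * star γ := by
      have h8 : (W - (c : G) * (γ * U)) * star γ = star γ * W - (c : G) * (γ * star γ) * U := by
        ring
      rw [h8, hm]
      push_cast
      ring
    rw [h7]
    exact Dvd.dvd.mul_right hcg _
  · show p ∣ nm (star γ * W)
    rw [nm_mul, nm_star, hn]
    exact dvd_mul_right _ _
  · show ¬ p ^ 2 ∣ nm U * nm (star γ * W)
    rw [← tog_nm]
    exact h6

/-- PROOF. Fix a Gaussian prime `π` with `nm π = p` (`p = 1 mod 4`: Mathlib `Nat.Prime.sq_add_sq`, or `GaussianInt` prime lemmas; see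
also the files of `Lib_MP_f1a94e_mr`). For `e` in `Bp`: `π ∣ p ∣ e.2 * star e.2`, so `π ∣ e.2` or `star π ∣ e.2`; not both, otherwise
`p ∣ e.2` (the two primes are not associated as `p` is odd) and `p ^ 2 ∣ nm e.2`. Let `γ = star π` if `π ∣ e.2` and `γ = π` otherwise, so
`e = (U, star γ * W)`; put `φ e = (γ * U, W)`. `det` and `dot` are unchanged: `star (γ U) * W = star U * (star γ * W)` (`star_mul_eq`).
`γ U` is primitive: if a prime `ℓ` divides `γ U` and `ℓ ≠ p` then `ℓ ∣ star γ γ U = p U` and `ℓ ∣ U`, contradiction; if `p = γ star γ ∣ γ U` then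
`star γ ∣ U`, `p ∣ nm U`, and `p ∣ nm e.2`, so `p ^ 2 ∣ nm e.1 * nm e.2`, contradiction. Class: from `star γ W = c U` mod `n` we get
`p W = c γ U`, and `p p' = 1` mod `n` for some `p'` (coprime to `n`, as is `c p'`).
Conversely for `e' = (V, W)` in `Ap'`: exactly one `γ ∈ {π, star π}` divides `V` (`V` is primitive); `V = γ U`, `e = (U, star γ W)`; `U` is primitive as a
divisor of `V`; `star γ W = c p U`. These two maps are inverse to each other: in `e = (U, star γ W)` the prime `star γ` is the one dividing `e.2`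
(only one does), in `(γ U, W)` `γ` is the one dividing the first component. -/
theorem toggle (n : ℕ) (hn : 0 < n) (p : ℕ) (hp : p.Prime) (h4 : p % 4 = 1) (hpn : ¬ p ∣ n) :
    ∃ φ : G × G → G × G, Set.BijOn φ (Bp n p) (Ap' n p) ∧
      ∀ e ∈ Bp n p, ∃ γ U W : G, nm γ = p ∧ e = (U, star γ * W) ∧ φ e = (γ * U, W) := by
  classical
  obtain ⟨π, hπ, hd⟩ := tog_exists p hp h4
  set φ : G × G → G × G := fun e =>
    if h : ∃ gw : G × G, TogC π gw.1 ∧ e.2 = star gw.1 * gw.2 then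
      (h.choose.1 * e.1, h.choose.2) else e with hφ
  have spec : ∀ e ∈ Bp n p, ∃ γ W : G, TogC π γ ∧ e.2 = star γ * W ∧ φ e = (γ * e.1, W) := by
    intro e he
    have hex : ∃ gw : G × G, TogC π gw.1 ∧ e.2 = star gw.1 * gw.2 := by
      rcases tog_dvd_exists hp hπ he.2.1 with ⟨w, hw⟩ | ⟨w, hw⟩
      · exact ⟨(star π, w), Or.inr rfl, by simpa using hw⟩
      · exact ⟨(π, w), Or.inl rfl, hw⟩
    refine ⟨hex.choose.1, hex.choose.2, hex.choose_spec.1, hex.choose_spec.2, ?_⟩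
    rw [hφ]
    simp only [dif_pos hex]
  have other : ∀ γ γ' : G, TogC π γ → TogC π γ' → γ ≠ γ' → γ' = star γ := by
    rintro γ γ' (rfl | rfl) (rfl | rfl) hne
    · exact absurd rfl hne
    · rfl
    · rw [star_star]
    · exact absurd rfl hne
  refine ⟨φ, ⟨?_, ?_, ?_⟩, ?_⟩
  · intro e he
    obtain ⟨γ, W, hγ, h1, h2⟩ := spec e he
    rw [h2]
    refine tog_fwd hp hpn (tog_cand hp hπ hd hγ) ?_
    rw [← h1]
    exact he
  · intro e he e' he' hee
    obtain ⟨γ, W, hγ, h1, h2⟩ := spec e he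
    obtain ⟨γ', W', hγ', h1', h2'⟩ := spec e' he'
    have hg := tog_cand hp hπ hd hγ
    have hfw : (γ * e.1, W) ∈ Ap' n p := by
      refine tog_fwd hp hpn hg ?_
      rw [← h1]
      exact he
    rw [h2, h2'] at hee
    have h3 : γ * e.1 = γ' * e'.1 := congrArg Prod.fst hee
    have h5 : W = W' := congrArg Prod.snd hee
    by_cases hgg : γ = γ'
    · subst hgg
      have h6 : e.1 = e'.1 := mul_left_cancel₀ hg.2.1.ne_zero h3
      exact Prod.ext h6 (by rw [h1, h1', h5])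
    · exfalso
      have h6 := other γ γ' hγ hγ' hgg
      have h7 : ((p : ℕ) : G) ∣ γ * e.1 := by
        refine tog_both hg.2.1 hg.2.2.1 hg.2.2.2 (dvd_mul_right _ _) ?_
        rw [h3, h6]
        exact dvd_mul_right _ _
      exact tog_not_dvd hp hfw.1.2.2.1 h7
  · intro e' he'
    have hex : ∃ γ U : G, TogC π γ ∧ e'.1 = γ * U := by
      rcases tog_dvd_exists hp hπ he'.2.1 with ⟨w, hw⟩ | ⟨w, hw⟩
      · exact ⟨π, w, Or.inl rfl, hw⟩
      · exact ⟨star π, w, Or.inr rfl, hw⟩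
    obtain ⟨γ, U, hγ, hU⟩ := hex
    have hg := tog_cand hp hπ hd hγ
    have hmem : (U, star γ * e'.2) ∈ Bp n p := by
      refine tog_bwd hp hpn hg ?_
      rw [← hU]
      exact he'
    refine ⟨(U, star γ * e'.2), hmem, ?_⟩
    obtain ⟨γ₁, W₁, hγ₁, h1, h2⟩ := spec _ hmem
    simp only at h1 h2
    have hgg : γ = γ₁ := by
      by_contra hne
      have h6 := other γ γ₁ hγ hγ₁ hne
      have h7 : ((p : ℕ) : G) ∣ star γ * e'.2 := by
        refine tog_both hg.2.1 hg.2.2.1 hg.2.2.2 ?_ (dvd_mul_right _ _)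
        rw [h1, h6, star_star]
        exact dvd_mul_right _ _
      exact hmem.2.2 (Dvd.dvd.mul_left (tog_sq_dvd h7) _)
    subst hgg
    have hne : star γ ≠ 0 := by
      intro h0
      apply hg.2.1.ne_zero
      have := congrArg star h0
      simpa using this
    have h8 : e'.2 = W₁ := mul_left_cancel₀ hne h1
    rw [h2, ← h8, ← hU]
  · intro e he
    obtain ⟨γ, W, hγ, h1, h2⟩ := spec e he
    exact ⟨γ, e.1, W, (tog_cand hp hπ hd hγ).1, Prod.ext rfl h1, h2⟩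

end Pool.Agent.OmEq

end

/-! ### from `Lib_MP_f1a94e_aq.LocalB` -/

section

/-!
# Piece LOCALB: product formula for the local densities
-/

set_option autoImplicit false

namespace Pool.Agent.OmAll

open Finset Pool.Agent.GaussMR

namespace LocalBP

theorem cg_nm {M : ℕ} {u v : G} (h : cg M u v) : (M : ℤ) ∣ (nm u : ℤ) - nm v := by
  obtain ⟨⟨a, ha⟩, ⟨b, hb⟩⟩ := h
  rw [nm_eq, nm_eq]
  refine ⟨a * (u.re + v.re) + b * (u.im + v.im), ?_⟩
  linear_combination (u.re + v.re) * ha + (u.im + v.im) * hb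

theorem dvd_iff {q M : ℕ} (hq : q ∣ M) {u v : G} (h : cg M u v) : q ∣ nm u ↔ q ∣ nm v := by
  have h1 : (q : ℤ) ∣ (nm u : ℤ) - nm v := (Int.natCast_dvd_natCast.2 hq).trans (cg_nm h)
  rw [← Int.natCast_dvd_natCast, ← Int.natCast_dvd_natCast (m := q) (n := nm v)]
  exact dvd_iff_dvd_of_dvd_sub h1

theorem dvd_mul_iff {q M : ℕ} (hq : q ∣ M) {e f : G × G} (h : cg M e.1 f.1) (h' : cg M e.2 f.2) :
    q ∣ nm e.1 * nm e.2 ↔ q ∣ nm f.1 * nm f.2 := by
  obtain ⟨a, ha⟩ := cg_nm h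
  obtain ⟨b, hb⟩ := cg_nm h'
  have h1 : (q : ℤ) ∣ ((nm e.1 * nm e.2 : ℕ) : ℤ) - ((nm f.1 * nm f.2 : ℕ) : ℤ) := by
    refine (Int.natCast_dvd_natCast.2 hq).trans ⟨a * nm e.2 + b * nm f.1, ?_⟩
    push_cast
    linear_combination (nm e.2 : ℤ) * ha + (nm f.1 : ℤ) * hb
  rw [← Int.natCast_dvd_natCast, ← Int.natCast_dvd_natCast (m := q) (n := nm f.1 * nm f.2)]
  exact dvd_iff_dvd_of_dvd_sub h1

theorem odd_iff {M : ℕ} (hM : 2 ∣ M) {u v : G} (h : cg M u v) : Odd (nm u) ↔ Odd (nm v) := by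
  rw [← Nat.not_even_iff_odd, ← Nat.not_even_iff_odd, even_iff_two_dvd, even_iff_two_dvd,
    dvd_iff hM h]

/-- the conditions at the primes of `P`; `σ p` tells which of the two norms is divisible by `p` -/
def QQ (σ : ℕ → Prop) (p : ℕ) (e : G × G) : Prop :=
  ((σ p → p ∣ nm e.1) ∧ (¬ σ p → p ∣ nm e.2)) ∧ ¬ p ^ 2 ∣ nm e.1 * nm e.2

/-- all conditions -/
def RR (σ : ℕ → Prop) (P : Finset ℕ) (e : G × G) : Prop :=
  (Odd (nm e.1) ∧ Odd (nm e.2)) ∧ ∀ p ∈ P, QQ σ p e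

theorem QQ_per (σ : ℕ → Prop) (p : ℕ) {M : ℕ} (hM : p ^ 2 ∣ M) : Per M (QQ σ p) := by
  intro e f h h'
  have hp : p ∣ M := (dvd_pow_self p two_ne_zero).trans hM
  unfold QQ
  rw [dvd_iff hp h, dvd_iff hp h', dvd_mul_iff hM h h']

theorem RR_per (σ : ℕ → Prop) (P : Finset ℕ) {M : ℕ} (h2 : 2 ∣ M) (hM : ∀ p ∈ P, p ^ 2 ∣ M) :
    Per M (RR σ P) := by
  intro e f h h'
  unfold RR
  rw [odd_iff h2 h, odd_iff h2 h']
  refine and_congr Iff.rfl ?_
  exact forall₂_congr (fun p hp => QQ_per σ p (hM p hp) e f h h')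

open Classical in
theorem QQ_card (σ : ℕ → Prop) (p : ℕ) (hp : p.Prime) (h4 : p % 4 = 1) :
    (((cls (p ^ 2)).filter (QQ σ p)).card : ℝ) = Ap p * (cls (p ^ 2)).card := by
  obtain ⟨h1, h2, h3⟩ := cls_p2 p hp h4
  have h5 : ((cls (p ^ 2)).filter (QQ σ p)).card = 2 * p ^ 2 * (p - 1) ^ 3 := by
    by_cases hs : σ p
    · rw [← h2]
      congr 1
      apply filter_congr
      intro e _
      unfold QQ
      simp [hs]
    · rw [← h3]
      congr 1
      apply filter_congr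
      intro e _
      unfold QQ
      simp [hs]
  rw [h5, h1]
  have hp1 : 1 ≤ p := hp.one_le
  have hp2 : 1 ≤ p ^ 2 := Nat.one_le_pow _ _ hp1
  push_cast [Nat.cast_sub hp1, Nat.cast_sub hp2]
  unfold Ap
  have hp0 : (0 : ℝ) < p := by exact_mod_cast hp.pos
  field_simp
  ring

open Classical in
theorem main (σ : ℕ → Prop) (P : Finset ℕ) : (∀ p ∈ P, p.Prime ∧ p % 4 = 1) →
    (((cls (2 * ∏ p ∈ P, p ^ 2)).filter (RR σ P)).card : ℝ) =
      1 / 3 * (∏ p ∈ P, Ap p) * (cls (2 * ∏ p ∈ P, p ^ 2)).card := by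
  induction P using Finset.induction_on with
  | empty =>
    intro _
    obtain ⟨h1, h2⟩ := cls_two
    have h3 : ((cls 2).filter (RR σ ∅)).card = 2 := by
      rw [← h2]
      congr 1
      apply filter_congr
      intro e _
      unfold RR
      simp
    rw [prod_empty, prod_empty, mul_one, h1, h3]
    norm_num
  | insert p P hpP ih =>
    intro hP
    obtain ⟨hp, h4⟩ := hP p (mem_insert_self _ _)
    have hP' : ∀ q ∈ P, q.Prime ∧ q % 4 = 1 := fun q hq => hP q (mem_insert_of_mem hq)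
    have ih' := ih hP'
    rw [prod_insert hpP, prod_insert hpP]
    set M1 : ℕ := 2 * ∏ q ∈ P, q ^ 2 with hM1
    have hM : 2 * (p ^ 2 * ∏ q ∈ P, q ^ 2) = M1 * p ^ 2 := by rw [hM1]; ring
    rw [hM]
    have hpos1 : 0 < M1 := by
      rw [hM1]
      apply Nat.mul_pos two_pos
      exact prod_pos (fun q hq => pow_pos (hP' q hq).1.pos 2)
    have hpos2 : 0 < p ^ 2 := pow_pos hp.pos 2
    have hco : M1.Coprime (p ^ 2) := by
      apply Nat.Coprime.pow_right
      rw [hM1]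
      apply Nat.Coprime.mul_left
      · rw [Nat.coprime_comm, Nat.Prime.coprime_iff_not_dvd hp]
        intro h
        have := Nat.le_of_dvd two_pos h
        have := hp.two_le
        omega
      · apply Nat.Coprime.prod_left
        intro q hq
        apply Nat.Coprime.pow_left
        rw [Nat.coprime_primes (hP' q hq).1 hp]
        rintro rfl
        exact hpP hq
    have hper1 : Per M1 (RR σ P) := RR_per σ P (Dvd.intro _ rfl)
      (fun q hq => (dvd_prod_of_mem (fun q => q ^ 2) hq).trans (Dvd.intro_left _ rfl))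
    have hper2 : Per (p ^ 2) (QQ σ p) := QQ_per σ p (dvd_refl _)
    have h1 := cls_mul M1 (p ^ 2) hpos1 hpos2 hco (RR σ P) (QQ σ p) hper1 hper2
    have h2 := cls_mul M1 (p ^ 2) hpos1 hpos2 hco (fun _ => True) (fun _ => True)
      (fun _ _ _ _ => Iff.rfl) (fun _ _ _ _ => Iff.rfl)
    simp only [and_self, filter_true] at h2
    have h3 : ((cls (M1 * p ^ 2)).filter (RR σ (insert p P))).card =
        ((cls (M1 * p ^ 2)).filter (fun e => RR σ P e ∧ QQ σ p e)).card := by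
      congr 1
      apply filter_congr
      intro e _
      unfold RR
      rw [forall_mem_insert]
      tauto
    rw [h3, h1, h2]
    push_cast
    rw [ih', QQ_card σ p hp h4]
    ring

end LocalBP

/-- divisibility of norms by `p` depends only on the class modulo `p ^ 2`, oddness only on the class modulo `2`, `Ce g` only on the class
modulo `2 (g g')^2`. -/
theorem Ce_per (g : ℕ × ℕ) : Per (2 * (g.1 * g.2) ^ 2) (Ce g) := by
  intro e f h h'
  have h2 : 2 ∣ 2 * (g.1 * g.2) ^ 2 := Dvd.intro _ rfl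
  have hsq : (g.1 * g.2) ^ 2 ∣ 2 * (g.1 * g.2) ^ 2 := Dvd.intro_left _ rfl
  have h1 : (g.1 * g.2) ∣ 2 * (g.1 * g.2) ^ 2 := (dvd_pow_self _ two_ne_zero).trans hsq
  unfold Ce
  rw [LocalBP.odd_iff h2 h, LocalBP.odd_iff h2 h']
  refine and_congr Iff.rfl (and_congr Iff.rfl (and_congr ?_ (and_congr ?_ ?_)))
  · refine forall₂_congr (fun p hp => LocalBP.dvd_iff ?_ h)
    exact ((Nat.dvd_of_mem_primeFactors hp).trans (Dvd.intro _ rfl)).trans h1
  · refine forall₂_congr (fun p hp => LocalBP.dvd_iff ?_ h')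
    exact ((Nat.dvd_of_mem_primeFactors hp).trans (Dvd.intro_left _ rfl)).trans h1
  · refine forall₂_congr (fun p hp => not_congr (LocalBP.dvd_mul_iff ?_ h h'))
    exact (pow_dvd_pow_of_dvd (Nat.dvd_of_mem_primeFactors hp) 2).trans hsq

open Classical in
/-- Induction over the primes of `g g'` with `cls_mul` (`M1 = 2 (g g' / p^...)^2`, `M2 = p^2`), `cls_p2`, `cls_two`: e.g. prove for a finite set `P` of primes
`1 mod 4` and a map `f : ℕ → Bool` (which of `g`, `g'`) that the number of `e ∈ cls (2 ∏ p^2)` satisfying the conditions is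
`(1/3) ∏ Ap p` times `#cls`; `Ap p = 2 p^2 (p-1)^3 / (p^4 (p^2 - 1))`. -/
theorem local_density (g : ℕ × ℕ) (hg : Adm g) :
    (((cls (2 * (g.1 * g.2) ^ 2)).filter (Ce g)).card : ℝ) =
      1 / 3 * (∏ p ∈ (g.1 * g.2).primeFactors, Ap p) * (cls (2 * (g.1 * g.2) ^ 2)).card := by
  obtain ⟨hsq, h4⟩ := hg
  have hne : g.1 * g.2 ≠ 0 := hsq.ne_zero
  have hg1 : g.1 ≠ 0 := left_ne_zero_of_mul hne
  have hg2 : g.2 ≠ 0 := right_ne_zero_of_mul hne
  have hco : g.1.Coprime g.2 := Nat.coprime_of_squarefree_mul hsq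
  have hprod : ∏ p ∈ (g.1 * g.2).primeFactors, p ^ 2 = (g.1 * g.2) ^ 2 := by
    rw [prod_pow, Nat.prod_primeFactors_of_squarefree hsq]
  have h1 := LocalBP.main (fun p => p ∣ g.1) (g.1 * g.2).primeFactors
    (fun p hp => ⟨Nat.prime_of_mem_primeFactors hp, h4 p hp⟩)
  rw [hprod] at h1
  rw [← h1]
  congr 2
  apply filter_congr
  intro e _
  unfold Ce LocalBP.RR LocalBP.QQ
  constructor
  · rintro ⟨h5, h6, h7, h8, h9⟩
    refine ⟨⟨h5, h6⟩, fun p hp => ⟨⟨fun h => ?_, fun h => ?_⟩, h9 p hp⟩⟩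
    · exact h7 p (Nat.mem_primeFactors.2 ⟨Nat.prime_of_mem_primeFactors hp, h, hg1⟩)
    · refine h8 p (Nat.mem_primeFactors.2 ⟨Nat.prime_of_mem_primeFactors hp, ?_, hg2⟩)
      exact ((Nat.Prime.dvd_mul (Nat.prime_of_mem_primeFactors hp)).1
        (Nat.dvd_of_mem_primeFactors hp)).resolve_left h
  · rintro ⟨⟨h5, h6⟩, h7⟩
    refine ⟨h5, h6, fun p hp => ?_, fun p hp => ?_, fun p hp => (h7 p hp).2⟩
    · rw [Nat.mem_primeFactors] at hp
      exact (h7 p (Nat.mem_primeFactors.2 ⟨hp.1, hp.2.1.trans (Dvd.intro _ rfl), hne⟩)).1.1 hp.2.1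
    · rw [Nat.mem_primeFactors] at hp
      refine (h7 p (Nat.mem_primeFactors.2 ⟨hp.1, hp.2.1.trans (Dvd.intro_left _ rfl), hne⟩)).1.2 ?_
      intro h
      have h10 := Nat.dvd_gcd h hp.2.1
      rw [hco] at h10
      exact hp.1.one_lt.ne' (Nat.dvd_one.1 h10)

end Pool.Agent.OmAll

end

/-! ### from `Lib_MP_f1a94e_eq.Cls` -/

section

/-!
# Piece CLS: the class of a pair
-/

set_option autoImplicit false

namespace Pool.Agent.OmEq

open Finset Pool.Agent.GaussMR Pool.Agent.OmAll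

open Classical in
/-- the class `c mod n` with `V' = c V mod n` -/
noncomputable def cl (n : ℕ) (e : G × G) : ZMod n :=
  if h : ∃ c : ℤ, IsCoprime c (n : ℤ) ∧ cg n e.2 ((c : G) * e.1) then ((Classical.choose h : ℤ) : ZMod n) else 0

theorem cls_mul (c : ℤ) (V : G) : ((c : G) * V).re = c * V.re ∧ ((c : G) * V).im = c * V.im := by
  constructor <;> simp

/-- two multiples of a primitive vector that agree modulo `M` have factors that agree modulo `M` -/
theorem cls_dvd {M : ℕ} {V : G} (hV : Prim V) {a b : ℤ} (h : cg M ((a : G) * V) ((b : G) * V)) :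
    (M : ℤ) ∣ a - b := by
  obtain ⟨h1, h2⟩ := h
  rw [(cls_mul a V).1, (cls_mul b V).1] at h1
  rw [(cls_mul a V).2, (cls_mul b V).2] at h2
  obtain ⟨u, v, huv⟩ := hV
  have e : a - b = (a * V.re - b * V.re) * u + (a * V.im - b * V.im) * v := by
    linear_combination (b - a) * huv
  rw [e]
  exact dvd_add (h1.mul_right _) (h2.mul_right _)

theorem cls_cg {M : ℕ} (V : G) {a b : ℤ} (h : (M : ℤ) ∣ a - b) : cg M ((a : G) * V) ((b : G) * V) := by
  constructor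
  · rw [(cls_mul a V).1, (cls_mul b V).1, ← sub_mul]
    exact h.mul_right _
  · rw [(cls_mul a V).2, (cls_mul b V).2, ← sub_mul]
    exact h.mul_right _

/-- PROOF. Let `c'` be the chosen integer (`En n e` gives existence). `n ∣ (c - c') e.1.re` and `n ∣ (c - c') e.1.im`, and `e.1` is primitive
(`a e.1.re + b e.1.im = 1`), so `n ∣ c - c'`: `ZMod.intCast_eq_intCast_iff_dvd_sub`. -/
theorem cl_eq {n : ℕ} {e : G × G} (he : En n e) {c : ℤ} (hc : cg n e.2 ((c : G) * e.1)) : cl n e = (c : ZMod n) := by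
  classical
  have h := he.2.2.2
  have h1 := (Classical.choose_spec h).2
  unfold cl
  rw [dif_pos h, ZMod.intCast_eq_intCast_iff_dvd_sub]
  exact cls_dvd he.2.2.1 (cg_trans (cg_symm hc) h1)

/-- from `cl_eq` and `IsCoprime` -/
theorem cl_unit {n : ℕ} {e : G × G} (he : En n e) : IsUnit (cl n e) := by
  obtain ⟨c, hc, hcg⟩ := he.2.2.2
  rw [cl_eq he hcg]
  obtain ⟨a, b, hab⟩ := hc
  have h1 : ((a * c + b * n : ℤ) : ZMod n) = ((1 : ℤ) : ZMod n) := by rw [hab]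
  push_cast at h1
  rw [ZMod.natCast_self, mul_zero, add_zero] at h1
  exact IsUnit.of_mul_eq_one (a : ZMod n) (by rw [mul_comm]; exact h1)

/-- PROOF. `cg n e.2 e.1` iff `cg n e.2 (1 * e.1)`; if `cl n e = 1` then for `c` from `En n e`, `(c : ZMod n) = 1`, `n ∣ c - 1`, and `cg n e.2 (c e.1)`. -/
theorem cl_one {n : ℕ} {e : G × G} (he : En n e) : cl n e = 1 ↔ cg n e.2 e.1 := by
  have h1 : ((1 : ℤ) : G) * e.1 = e.1 := by rw [Int.cast_one, one_mul]
  constructor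
  · intro h
    obtain ⟨c, hc, hcg⟩ := he.2.2.2
    rw [cl_eq he hcg, ← Int.cast_one, ZMod.intCast_eq_intCast_iff_dvd_sub] at h
    have h2 := cls_cg e.1 h
    rw [h1] at h2
    exact cg_trans hcg (cg_symm h2)
  · intro h
    have h2 : cg n e.2 (((1 : ℤ) : G) * e.1) := by rw [h1]; exact h
    rw [cl_eq he h2, Int.cast_one]

/-- PROOF. The pair `(U, star γ W)`: `det (U, star γ W) = det (γ U, W) = n` and the same for `dot` (`star (γ U) * W = star U * (star γ * W)`, `star_mul_eq`), `U` is primitive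
(`prim_of_mul`), and from `W = c γ U mod n`: `star γ W = c (star γ * γ) U = c p U mod n`, `p = nm γ` coprime to `n`. (`toggle` in piece TOG contains the same computation.) -/
theorem En_move {n : ℕ} {γ U W : G} (hp : (nm γ).Prime) (hn : (nm γ).Coprime n) (he : En n (γ * U, W)) :
    En n (U, star γ * W) ∧ cl n (U, star γ * W) = (nm γ : ZMod n) * cl n (γ * U, W) := by
  have he0 := he
  obtain ⟨h1, h2, h3, c, hc, hcg⟩ := he
  simp only at h1 h2 h3 hcg
  have hcg2 : cg n (star γ * W) (((c * nm γ : ℤ) : G) * U) := by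
    rw [tog_cg] at hcg ⊢
    have h7 : star γ * W - ((c * nm γ : ℤ) : G) * U = (W - (c : G) * (γ * U)) * star γ := by
      have h8 : (W - (c : G) * (γ * U)) * star γ = star γ * W - (c : G) * (γ * star γ) * U := by
        ring
      rw [h8, tog_mul_star]
      push_cast
      ring
    rw [h7]
    exact Dvd.dvd.mul_right hcg _
  have hE : En n (U, star γ * W) := by
    refine ⟨?_, ?_, ?_, ?_⟩
    · show det U (star γ * W) = n
      rw [← tog_det.1]
      exact h1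
    · show 0 < dot U (star γ * W)
      rw [← tog_det.2]
      exact h2
    · show Prim U
      exact (prim_of_mul h3).2
    · exact ⟨c * nm γ, IsCoprime.mul_left hc (Nat.isCoprime_iff_coprime.2 hn), hcg2⟩
  refine ⟨hE, ?_⟩
  rw [cl_eq hE hcg2, cl_eq he0 hcg]
  push_cast
  ring

/-- for a multiple `n` of `M` the class modulo `M` is the reduction: `cg M e.2 e.1` iff the class is `1` modulo `M`. PROOF. As `cl_one`: with `c` from `En n e`,
`cg M e.2 (c e.1)`, and `cg M (c e.1) e.1` iff `M ∣ c - 1` (`e.1` primitive). -/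
theorem cl_cast {n M : ℕ} (hM : M ∣ n) {e : G × G} (he : En n e) : (ZMod.castHom hM (ZMod M)) (cl n e) = 1 ↔ cg M e.2 e.1 := by
  obtain ⟨c, hc, hcg⟩ := he.2.2.2
  have h1 : ((1 : ℤ) : G) * e.1 = e.1 := by rw [Int.cast_one, one_mul]
  have hcgM := cg_mono hM hcg
  rw [cl_eq he hcg, map_intCast]
  constructor
  · intro h
    rw [← Int.cast_one, ZMod.intCast_eq_intCast_iff_dvd_sub] at h
    have h2 := cls_cg e.1 h
    rw [h1] at h2
    exact cg_trans hcgM (cg_symm h2)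
  · intro h
    have h2 : cg M ((c : G) * e.1) (((1 : ℤ) : G) * e.1) := by
      rw [h1]
      exact cg_trans (cg_symm hcgM) h
    have h3 := cls_dvd he.2.2.1 h2
    rw [← Int.cast_one, ZMod.intCast_eq_intCast_iff_dvd_sub, ← neg_sub]
    exact (dvd_neg).2 h3

end Pool.Agent.OmEq

end

/-! ### from `Lib_MP_f1a94e_ecm.BlockGa` -/

section

/-!
# Piece M-BLOCK: a short block of a row in a residue class, any order of the derivative
-/

set_option autoImplicit false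

namespace Pool.Agent.ECM

open Finset Pool.Agent.GaussMR
open scoped ContDiff

private theorem blockga_conj_ee (t : ℝ) : (starRingEnd ℂ) (ee t) = ee (-t) := by
  unfold ee
  rw [← Complex.exp_conj]
  congr 1
  simp only [map_mul, Complex.conj_ofReal, Complex.conj_I, map_ofNat]
  push_cast
  ring

private theorem blockga_sign (s : Finset ℤ) (A : ℤ → ℝ) (c σ : ℝ) (hσ : σ = 1 ∨ σ = -1) :
    ‖∑ x ∈ s, ee (-c * A x)‖ = ‖∑ x ∈ s, ee ((σ * |c|) * A x)‖ := by
  have h : σ * |c| = -c ∨ σ * |c| = c := by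
    rcases hσ with rfl | rfl <;> rcases abs_choice c with h | h <;> rw [h] <;> simp
  rcases h with h | h
  · rw [h]
  · rw [h, ← Complex.norm_conj, map_sum]
    congr 1
    apply Finset.sum_congr rfl
    intro x _
    rw [blockga_conj_ee]
    congr 1
    ring

/-- derivative of a row in a residue class -/
theorem blockg_deriv (q : ℕ) (hq : 1 ≤ q) (c b : ℝ) (hb : 0 < b) (x0 m t : ℝ) :
    iteratedDeriv q (fun t : ℝ => c * Real.arctan ((x0 + m * t) / b)) t =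
      m ^ q * (c * ((-1) ^ q * (q - 1).factorial *
        ((((x0 + m * t : ℝ) : ℂ) + b * Complex.I) ^ (-(q : ℤ))).im)) := by
  have h1 : (fun t : ℝ => c * Real.arctan ((x0 + m * t) / b)) =
      fun t : ℝ => (fun z : ℝ => (fun x : ℝ => c * Real.arctan (x / b)) (x0 + z)) (m * t) := rfl
  have hcd : ContDiff ℝ q (fun z : ℝ => (fun x : ℝ => c * Real.arctan (x / b)) (x0 + z)) := by
    have h2 := contDiff_row c b hb
    have h3 : ContDiff ℝ ∞ (fun z : ℝ => (fun x : ℝ => c * Real.arctan (x / b)) (x0 + z)) :=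
      h2.comp (contDiff_const.add contDiff_id)
    exact h3.of_le (by exact_mod_cast le_top)
  have h4 : iteratedDeriv q (fun z : ℝ => (fun x : ℝ => c * Real.arctan (x / b)) (x0 + z)) (m * t) =
      iteratedDeriv q (fun x : ℝ => c * Real.arctan (x / b)) (x0 + m * t) :=
    congrFun (iteratedDeriv_comp_const_add q (fun x : ℝ => c * Real.arctan (x / b)) x0) (m * t)
  rw [h1, iteratedDeriv_comp_const_mul hcd m]
  rw [iteratedDeriv_row q hq c b hb] at h4
  exact congrArg (fun y => m ^ q * y) h4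

theorem blockg_cd (c b : ℝ) (hb : 0 < b) (x0 m : ℝ) :
    ContDiff ℝ ∞ (fun t : ℝ => c * Real.arctan ((x0 + m * t) / b)) := by
  have h2 := contDiff_row c b hb
  exact h2.comp (contDiff_const.add (contDiff_const.mul contDiff_id))

/-- Generalisation of `block` (Lib_MP_f1a94e_mr/Block.lean, copy its proof). `β, ρ, η0, C0` from `dtr_all Q`; choose `σ` with `(Q + 5) σ ≤ 1/100`, `(Q + 3) σ ≤ ρ / 4`. Put `κ = r^(-2σ)`, `τ = (Q + 5) σ`, `L = r^(1 - τ)`,
`h(t) = Im (x0 + m t + i b)^(-q)`. At the good point `s`: `|h(s)| ≥ κ / |..|^q ≥ κ / r^q`. On the block `|h(t) - h(s)| ≤ m L q / b^(q+1) ≤ κ / (2 r^q)` by `row_lip`, since `b ≥ r^(1-σ)` and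
`r^(1-τ) r^(-(1-σ)(q+1)) m q ≤ r^(-2σ - q) / 2` for large `r` (`τ > (q + 3) σ`). So `h` has constant sign and `κ / (2 r^q) ≤ |h| ≤ 1 / b^q` on the block. `xi k ⟨x, b⟩ = I^k ee (-(k / 2π) arctan (x / b))` (`xi_row`).
Apply the derivative test to `f(t) = ∓ (|k| / 2π) arctan ((x0 + m t) / b)` (`iteratedDeriv_row` and the chain rule for `t ↦ x0 + m t`: factor `m^q`), `lam = (|k| / 2π) (q-1)! m^q κ / (2 r^q)`,
`Lam = (|k| / 2π) (q-1)! m^q / b^q`: `Lam / lam ≤ 2 r^((q + 2) σ) ≤ L^ρ`; `lam ≥ c r^(-17/10 - 2σ) ≥ L^(-7/4)`; `Lam ≤ C r^(-2^(q-2) β - 1/10 + q σ) ≤ L^(-2^(q-2) β)` for `r ≥ R0`; small `r` are absorbed in `C`.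
The result is `C0 L^(1 - η0)`, `η = η0 / 2` works. -/
theorem blockG_of (m : ℕ) (hm : 0 < m) (Q : ℕ) (hD : DTRAll Q) : ∃ β σ η C : ℝ, 0 < β ∧ (2 : ℝ) ^ Q * β ≤ 1 / 2 ∧ 0 < σ ∧ ((Q : ℝ) + 5) * σ ≤ 1 / 100 ∧
    0 < η ∧ η ≤ 1 / 2 ∧ 0 < C ∧ ∀ q : ℕ, 2 ≤ q → q ≤ Q → ∀ (r : ℝ) (k : ℤ) (b : ℕ) (x0 t0 t1 s : ℤ), 1 ≤ r →
    r ^ ((q : ℝ) - 17 / 10) ≤ |(k : ℝ)| → |(k : ℝ)| ≤ r ^ ((q : ℝ) - (2 : ℝ) ^ (q - 2) * β - 1 / 10) →
    r ^ (1 - σ) ≤ (b : ℝ) → t0 ≤ t1 → (t1 : ℝ) - t0 ≤ r ^ (1 - ((Q : ℝ) + 5) * σ) →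
    ((x0 : ℝ) + m * t0) ^ 2 + (b : ℝ) ^ 2 ≤ r ^ 2 → ((x0 : ℝ) + m * t1) ^ 2 + (b : ℝ) ^ 2 ≤ r ^ 2 → t0 ≤ s → s ≤ t1 →
    r ^ (-(2 * σ)) ≤ |((((x0 + m * s : ℤ) : ℂ) + b * Complex.I) ^ (-(q : ℤ))).im| *
      ‖((x0 + m * s : ℤ) : ℂ) + b * Complex.I‖ ^ q →
    ‖∑ t ∈ Finset.Icc t0 t1, xi k ⟨x0 + m * t, b⟩‖ ≤ C * r ^ (1 - ((Q : ℝ) + 5) * σ - η) := by
  obtain ⟨β, ρ, η0, C0, hβ, hβQ, hρ, hρβ, hη0, hη0', hC0, hdt⟩ := hD
  have hm1 : (1 : ℝ) ≤ m := by exact_mod_cast hm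
  have hm0 : (0 : ℝ) < m := by linarith
  have hQ0 : (0 : ℝ) ≤ Q := Nat.cast_nonneg _
  obtain ⟨σ, hσdef⟩ : ∃ σ : ℝ, σ = min (1 / (100 * ((Q : ℝ) + 5))) (ρ / (2 * ((Q : ℝ) + 3))) := ⟨_, rfl⟩
  have hσ0 : 0 < σ := by rw [hσdef]; exact lt_min (by positivity) (by positivity)
  have hσ1 : ((Q : ℝ) + 5) * σ ≤ 1 / 100 := by
    have h1 : σ ≤ 1 / (100 * ((Q : ℝ) + 5)) := by rw [hσdef]; exact min_le_left _ _
    rw [le_div_iff₀ (by positivity)] at h1
    linarith
  have hσ2 : ((Q : ℝ) + 3) * σ ≤ ρ / 2 := by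
    have h1 : σ ≤ ρ / (2 * ((Q : ℝ) + 3)) := by rw [hσdef]; exact min_le_right _ _
    rw [le_div_iff₀ (by positivity)] at h1
    linarith
  have hσ3 : σ ≤ 1 / 500 := by linarith only [hσ1, mul_nonneg hQ0 hσ0.le]
  obtain ⟨τ, hτdef⟩ : ∃ τ : ℝ, τ = ((Q : ℝ) + 5) * σ := ⟨_, rfl⟩
  have hτ0 : 0 < τ := by rw [hτdef]; positivity
  have hτ1 : τ ≤ 1 / 100 := by rw [hτdef]; exact hσ1
  obtain ⟨A, hAdef⟩ : ∃ A : ℝ, A = (Q.factorial : ℝ) * (m : ℝ) ^ Q := ⟨_, rfl⟩
  have hA0 : 0 < A := by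
    rw [hAdef]
    have : (0 : ℝ) < (Q.factorial : ℝ) := by exact_mod_cast Nat.factorial_pos Q
    positivity
  obtain ⟨N0, hN0def⟩ : ∃ N0 : ℝ, N0 = 16 + 2 * Q * m + A := ⟨_, rfl⟩
  have hN1 : 16 ≤ N0 := by rw [hN0def]; linarith only [mul_nonneg hQ0 hm0.le, hA0]
  have hN2 : 2 * Q * m ≤ N0 := by rw [hN0def]; linarith
  have hN3 : A ≤ N0 := by rw [hN0def]; linarith only [mul_nonneg hQ0 hm0.le, hA0]
  obtain ⟨R0, hR01, hRpow⟩ : ∃ R0 : ℝ, 1 ≤ R0 ∧ R0 ^ σ = N0 := by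
    refine ⟨N0 ^ (1 / σ), Real.one_le_rpow (by linarith) (by positivity), ?_⟩
    rw [← Real.rpow_mul (by linarith), one_div_mul_cancel hσ0.ne', Real.rpow_one]
  refine ⟨β, σ, η0 / 2, C0 + 2 * R0, hβ, hβQ, hσ0, hσ1, by positivity, by linarith, by positivity, ?_⟩
  intro q hq hq' r k b x0 t0 t1 s hr hj1 hj2 hb hx hL hx0 hx1 hy0 hy1 hgood
  rw [← hτdef] at hL ⊢
  have hr0 : 0 < r := by linarith
  have hbR : (0 : ℝ) < b := lt_of_lt_of_le (Real.rpow_pos_of_pos hr0 _) hb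
  have hb0 : 0 < b := by exact_mod_cast hbR
  have hxx : (t0 : ℝ) ≤ t1 := by exact_mod_cast hx
  have hone : ∀ e : ℝ, 0 ≤ e → 1 ≤ r ^ e := fun e he => Real.one_le_rpow hr he
  have hpos : ∀ e : ℝ, 0 < r ^ e := fun e => Real.rpow_pos_of_pos hr0 e
  have hqR : (q : ℝ) ≤ Q := by exact_mod_cast hq'
  have hqR2 : (2 : ℝ) ≤ q := by exact_mod_cast hq
  by_cases hbig : R0 ≤ r
  · -- the main case
    have h10 : N0 ≤ r ^ σ := by
      rw [← hRpow]
      exact Real.rpow_le_rpow (by linarith) hbig hσ0.le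
    have hge : ∀ e : ℝ, σ ≤ e → N0 ≤ r ^ e := fun e he =>
      h10.trans (Real.rpow_le_rpow_of_exponent_le hr he)
    set h : ℝ → ℝ := fun t => ((((x0 + m * t : ℝ) : ℂ) + b * Complex.I) ^ (-(q : ℤ))).im with hh
    set c : ℝ := (k : ℝ) / (2 * Real.pi) with hc
    have g1 : (t0 : ℝ) ≤ s := by exact_mod_cast hy0
    have g2 : (s : ℝ) ≤ t1 := by exact_mod_cast hy1
    have hyb : ‖((x0 + m * s : ℤ) : ℂ) + b * Complex.I‖ ≤ r := by
      have hsq : ‖((x0 + m * s : ℤ) : ℂ) + b * Complex.I‖ ^ 2 ≤ r ^ 2 := by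
        rw [← Complex.normSq_eq_norm_sq, Complex.normSq_apply]
        simp only [Complex.add_re, Complex.intCast_re, Complex.mul_re, Complex.natCast_re,
          Complex.I_re, Complex.natCast_im, Complex.I_im, Complex.add_im, Complex.intCast_im,
          Complex.mul_im]
        push_cast
        have g1' : (x0 : ℝ) + m * t0 ≤ x0 + m * s := by
          have := mul_le_mul_of_nonneg_left g1 hm0.le
          linarith
        have g2' : (x0 : ℝ) + m * s ≤ x0 + m * t1 := by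
          have := mul_le_mul_of_nonneg_left g2 hm0.le
          linarith
        rcases le_total 0 ((x0 : ℝ) + m * s) with g3 | g3
        · nlinarith only [mul_self_le_mul_self g3 g2', hx1]
        · nlinarith only [mul_self_le_mul_self (neg_nonneg.2 g3) (neg_le_neg g1'), hx0]
      exact le_of_sq_le_sq hsq hr0.le
    have hnb : ∀ x : ℝ, (b : ℝ) ≤ ‖(x : ℂ) + b * Complex.I‖ := by
      intro x
      have := Complex.abs_im_le_norm ((x : ℂ) + b * Complex.I)
      simp at this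
      exact this
    -- lower bound at the good point
    have hyc : (((x0 + m * (s : ℝ) : ℝ)) : ℂ) = ((x0 + m * s : ℤ) : ℂ) := by push_cast; rfl
    have hhy : r ^ (-(2 * σ)) * r ^ (-(q : ℝ)) ≤ |h s| := by
      have h1 : 0 < ‖((x0 + m * s : ℤ) : ℂ) + b * Complex.I‖ := by
        have := hnb (x0 + m * s)
        rw [hyc] at this
        linarith
      have h2 : ‖((x0 + m * s : ℤ) : ℂ) + b * Complex.I‖ ^ q ≤ r ^ q := by gcongr
      have h3 : r ^ (-(2 * σ)) ≤ |h s| * r ^ q := by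
        refine hgood.trans ?_
        rw [hh]
        simp only
        rw [hyc]
        gcongr
      rw [Real.rpow_neg hr0.le (q : ℝ), Real.rpow_natCast, ← div_eq_mul_inv,
        div_le_iff₀ (by positivity)]
      exact h3
    -- variation on the block
    have hvar : ∀ x : ℝ, (t0 : ℝ) ≤ x → x ≤ t1 → |h x - h s| ≤ |h s| / 2 := by
      intro x hxa hxb
      have h1 : |h x - h s| ≤ q / (b : ℝ) ^ (q + 1) * |((x0 : ℝ) + m * x) - (x0 + m * s)| := by
        have h0 := row_lip q (by omega) b hbR ((x0 : ℝ) + m * x) ((x0 : ℝ) + m * s)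
        have hbc : (((b : ℕ) : ℝ) : ℂ) = ((b : ℕ) : ℂ) := by push_cast; rfl
        rw [hbc] at h0
        exact h0
      have h2 : |((x0 : ℝ) + m * x) - (x0 + m * s)| ≤ m * r ^ (1 - τ) := by
        have e0 : ((x0 : ℝ) + m * x) - (x0 + m * s) = m * (x - s) := by ring
        rw [e0, abs_mul, abs_of_pos hm0]
        apply mul_le_mul_of_nonneg_left _ hm0.le
        rw [abs_le]
        constructor <;> linarith
      have h3 : (r ^ (1 - σ)) ^ (q + 1) ≤ (b : ℝ) ^ (q + 1) := by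
        have := (hpos (1 - σ)).le
        gcongr
      have h4 : (r ^ (1 - σ)) ^ (q + 1) = r ^ ((1 - σ) * ((q : ℝ) + 1)) := by
        rw [← Real.rpow_natCast, ← Real.rpow_mul hr0.le]
        push_cast
        norm_num
      have h5 : (q : ℝ) / (b : ℝ) ^ (q + 1) * |((x0 : ℝ) + m * x) - (x0 + m * s)| ≤
          q / r ^ ((1 - σ) * ((q : ℝ) + 1)) * (m * r ^ (1 - τ)) := by
        rw [← h4]
        have := hpos (1 - σ)
        gcongr
      have h6 : q / r ^ ((1 - σ) * ((q : ℝ) + 1)) * (m * r ^ (1 - τ)) ≤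
          (r ^ (-(2 * σ)) * r ^ (-(q : ℝ))) / 2 := by
        rw [div_mul_eq_mul_div, div_le_iff₀ (hpos _)]
        have e1 : (r ^ (-(2 * σ)) * r ^ (-(q : ℝ))) / 2 * r ^ ((1 - σ) * ((q : ℝ) + 1)) =
            r ^ (τ - σ * ((q : ℝ) + 3)) / 2 * r ^ (1 - τ) := by
          have : r ^ (-(2 * σ)) * r ^ (-(q : ℝ)) * r ^ ((1 - σ) * ((q : ℝ) + 1)) =
              r ^ (τ - σ * ((q : ℝ) + 3)) * r ^ (1 - τ) := by
            rw [← Real.rpow_add hr0, ← Real.rpow_add hr0, ← Real.rpow_add hr0]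
            congr 1
            ring
          linear_combination this / 2
        rw [e1]
        have e2 : N0 ≤ r ^ (τ - σ * ((q : ℝ) + 3)) := by
          apply hge
          rw [hτdef]
          linarith only [mul_nonneg hσ0.le (sub_nonneg.2 hqR), hσ0]
        have e3 := (hpos (1 - τ)).le
        have e4 : (q : ℝ) * m ≤ r ^ (τ - σ * ((q : ℝ) + 3)) / 2 := by
          have : (q : ℝ) * m ≤ Q * m := mul_le_mul_of_nonneg_right hqR hm0.le
          linarith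
        rw [← mul_assoc]
        exact mul_le_mul_of_nonneg_right e4 e3
      linarith
    -- the sign
    obtain ⟨ς, hς, hς'⟩ : ∃ ς : ℝ, (ς = 1 ∨ ς = -1) ∧ ς * (-1) ^ q * h s = |h s| := by
      rcases neg_one_pow_eq_or ℝ q with hq1 | hq1 <;> rcases abs_choice (h s) with hy2 | hy2
      · exact ⟨1, Or.inl rfl, by rw [hq1, hy2]; ring⟩
      · exact ⟨-1, Or.inr rfl, by rw [hq1, hy2]; ring⟩
      · exact ⟨-1, Or.inr rfl, by rw [hq1, hy2]; ring⟩
      · exact ⟨1, Or.inl rfl, by rw [hq1, hy2]; ring⟩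
    have hw : |ς * (-1) ^ q| = 1 := by
      rw [abs_mul, abs_pow, abs_neg, abs_one, one_pow, mul_one]
      rcases hς with rfl | rfl <;> simp
    have hlow : ∀ x : ℝ, (t0 : ℝ) ≤ x → x ≤ t1 →
        (r ^ (-(2 * σ)) * r ^ (-(q : ℝ))) / 2 ≤ ς * (-1) ^ q * h x := by
      intro x hxa hxb
      have h1 := hvar x hxa hxb
      have h2 : |ς * (-1) ^ q * (h x - h s)| ≤ |h s| / 2 := by
        rw [abs_mul, hw, one_mul]
        exact h1
      have h3 := (abs_le.mp h2).1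
      have h4 : ς * (-1) ^ q * h x = |h s| + ς * (-1) ^ q * (h x - h s) := by
        rw [← hς']
        ring
      rw [h4]
      linarith
    have hup : ∀ x : ℝ, ς * (-1) ^ q * h x ≤ r ^ (-(q : ℝ) + σ * (q : ℝ)) := by
      intro x
      have h1 : ς * (-1) ^ q * h x ≤ |h x| := by
        refine (le_abs_self _).trans ?_
        rw [abs_mul, hw, one_mul]
      have h2 : |h x| ≤ ((b : ℝ) ^ q)⁻¹ := by
        rw [hh]
        refine (Complex.abs_im_le_norm _).trans ?_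
        rw [zpow_neg, zpow_natCast, norm_inv, norm_pow]
        have := hnb (x0 + m * x)
        gcongr
      have h3 : ((b : ℝ) ^ q)⁻¹ ≤ ((r ^ (1 - σ)) ^ q)⁻¹ := by
        have := hpos (1 - σ)
        gcongr
      have h4 : ((r ^ (1 - σ)) ^ q)⁻¹ = r ^ (-(q : ℝ) + σ * (q : ℝ)) := by
        rw [← Real.rpow_natCast, ← Real.rpow_mul hr0.le, ← Real.rpow_neg hr0.le]
        congr 1
        ring
      linarith
    -- rewrite the sum
    have hsum : ‖∑ t ∈ Finset.Icc t0 t1, xi k ⟨x0 + m * t, b⟩‖ =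
        ‖∑ t ∈ Finset.Icc t0 t1,
          ee ((fun t : ℝ => (ς * |c|) * Real.arctan (((x0 : ℝ) + m * t) / b)) t)‖ := by
      rw [Finset.sum_congr rfl (fun t _ => xi_row k b hb0 (x0 + m * t)), ← Finset.mul_sum, norm_mul,
        norm_zpow, Complex.norm_I, one_zpow, one_mul]
      rw [blockga_sign (Finset.Icc t0 t1) (fun t : ℤ => Real.arctan (((x0 + m * t : ℤ) : ℝ) / b)) c ς hς]
      congr 1
      apply Finset.sum_congr rfl
      intro t _
      push_cast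
      rfl
    rw [hsum]
    set L : ℝ := r ^ (1 - τ) with hLdef
    have hLe : ∀ e : ℝ, L ^ e = r ^ ((1 - τ) * e) := by
      intro e
      rw [hLdef, ← Real.rpow_mul hr0.le]
    have hL1 : 1 ≤ L := hone _ (by linarith)
    have hpi1 : 3 < Real.pi := Real.pi_gt_three
    have hpi2 : Real.pi < 4 := by linarith [Real.pi_lt_four]
    have hcabs : |c| = |(k : ℝ)| / (2 * Real.pi) := by
      rw [hc, abs_div, abs_of_pos (show (0 : ℝ) < 2 * Real.pi by positivity)]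
    obtain ⟨a, hadef⟩ : ∃ a : ℝ, a = ((q - 1).factorial : ℝ) * (m : ℝ) ^ q := ⟨_, rfl⟩
    have hfac1 : (1 : ℝ) ≤ a := by
      rw [hadef]
      have h1 : (1 : ℝ) ≤ ((q - 1).factorial : ℝ) := by exact_mod_cast Nat.factorial_pos _
      have h2 : (1 : ℝ) ≤ (m : ℝ) ^ q := one_le_pow₀ hm1
      exact one_le_mul_of_one_le_of_one_le h1 h2
    have hfac2 : a ≤ A := by
      rw [hadef, hAdef]
      have h1 : (q - 1).factorial ≤ Q.factorial := Nat.factorial_le (by omega)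
      have h2 : ((q - 1).factorial : ℝ) ≤ (Q.factorial : ℝ) := by exact_mod_cast h1
      have h3 : (m : ℝ) ^ q ≤ (m : ℝ) ^ Q := pow_le_pow_right₀ hm1 hq'
      exact mul_le_mul h2 h3 (by positivity) (by positivity)
    set K : ℝ := |c| * a with hK
    have hK0 : 0 < K := by
      rw [hK, hcabs]
      have : 0 < |(k : ℝ)| := lt_of_lt_of_le (hpos _) hj1
      positivity
    have hKlow : r ^ ((q : ℝ) - 17 / 10) / 8 ≤ K := by
      rw [hK, hcabs]
      calc r ^ ((q : ℝ) - 17 / 10) / 8 ≤ |(k : ℝ)| / (2 * Real.pi) := by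
            gcongr
            linarith
        _ ≤ |(k : ℝ)| / (2 * Real.pi) * a := by
            apply le_mul_of_one_le_right _ hfac1
            positivity
    have hKup : K ≤ A * r ^ ((q : ℝ) - (2 : ℝ) ^ (q - 2) * β - 1 / 10) := by
      rw [hK, hcabs]
      have h1 : |(k : ℝ)| / (2 * Real.pi) ≤ r ^ ((q : ℝ) - (2 : ℝ) ^ (q - 2) * β - 1 / 10) := by
        rw [div_le_iff₀ (by positivity)]
        refine hj2.trans ?_
        apply le_mul_of_one_le_right (hpos _).le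
        linarith
      calc |(k : ℝ)| / (2 * Real.pi) * a
          ≤ r ^ ((q : ℝ) - (2 : ℝ) ^ (q - 2) * β - 1 / 10) * A :=
            mul_le_mul h1 hfac2 (by linarith) (hpos _).le
        _ = _ := by ring
    have hres := hdt q hq hq' (fun t : ℝ => (ς * |c|) * Real.arctan (((x0 : ℝ) + m * t) / b))
      (blockg_cd (ς * |c|) b hbR x0 m) t0 t1 L (K * ((r ^ (-(2 * σ)) * r ^ (-(q : ℝ))) / 2))
      (K * r ^ (-(q : ℝ) + σ * (q : ℝ))) hx hL1 hL ?_ ?_ ?_ ?_ ?_
    · refine hres.trans ?_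
      rw [hLe]
      have h1 : r ^ ((1 - τ) * (1 - η0)) ≤ r ^ (1 - τ - η0 / 2) :=
        Real.rpow_le_rpow_of_exponent_le hr (by linarith only [mul_nonneg hη0.le (sub_nonneg.2 hτ1), hη0])
      have h2 := (hpos (1 - τ - η0 / 2)).le
      calc C0 * r ^ ((1 - τ) * (1 - η0)) ≤ C0 * r ^ (1 - τ - η0 / 2) := by gcongr
        _ ≤ (C0 + 2 * R0) * r ^ (1 - τ - η0 / 2) := by
            apply mul_le_mul_of_nonneg_right _ h2
            linarith
    · -- `L ^ (-7/4) ≤ lam`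
      rw [hLe]
      have h1 : r ^ ((q : ℝ) - 17 / 10) / 8 * ((r ^ (-(2 * σ)) * r ^ (-(q : ℝ))) / 2) ≤
          K * ((r ^ (-(2 * σ)) * r ^ (-(q : ℝ))) / 2) := by
        have := hpos (-(2 * σ))
        have := hpos (-(q : ℝ))
        gcongr
      refine le_trans ?_ h1
      have h2 : r ^ ((q : ℝ) - 17 / 10) / 8 * ((r ^ (-(2 * σ)) * r ^ (-(q : ℝ))) / 2) =
          r ^ ((1 - τ) * -(7 / 4)) * r ^ (1 / 20 - 7 / 4 * τ - 2 * σ) / 16 := by
        have : r ^ ((q : ℝ) - 17 / 10) * (r ^ (-(2 * σ)) * r ^ (-(q : ℝ))) =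
            r ^ ((1 - τ) * -(7 / 4)) * r ^ (1 / 20 - 7 / 4 * τ - 2 * σ) := by
          rw [← Real.rpow_add hr0, ← Real.rpow_add hr0, ← Real.rpow_add hr0]
          congr 1
          ring
        linear_combination this / 16
      rw [h2]
      have h3 := hge (1 / 20 - 7 / 4 * τ - 2 * σ) (by linarith)
      have h4 := hpos ((1 - τ) * -(7 / 4))
      rw [le_div_iff₀ (by norm_num)]
      apply mul_le_mul_of_nonneg_left _ h4.le
      linarith
    · -- `lam ≤ Lam`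
      have h1 : (r ^ (-(2 * σ)) * r ^ (-(q : ℝ))) / 2 ≤ r ^ (-(q : ℝ) + σ * (q : ℝ)) := by
        rw [← Real.rpow_add hr0]
        have h2 : r ^ (-(2 * σ) + -(q : ℝ)) ≤ r ^ (-(q : ℝ) + σ * (q : ℝ)) :=
          Real.rpow_le_rpow_of_exponent_le hr (by linarith only [mul_nonneg hσ0.le (by linarith only [hqR2] : (0:ℝ) ≤ q), hσ0])
        have h3 := hpos (-(2 * σ) + -(q : ℝ))
        linarith
      exact mul_le_mul_of_nonneg_left h1 hK0.le
    · -- `Lam ≤ L ^ (-β)`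
      rw [hLe]
      have h1 : K * r ^ (-(q : ℝ) + σ * (q : ℝ)) ≤
          A * r ^ ((q : ℝ) - (2 : ℝ) ^ (q - 2) * β - 1 / 10) * r ^ (-(q : ℝ) + σ * (q : ℝ)) :=
        mul_le_mul_of_nonneg_right hKup (hpos _).le
      refine h1.trans ?_
      have hβ0 : (0 : ℝ) ≤ (2 : ℝ) ^ (q - 2) * β := by positivity
      have h2 : r ^ ((1 - τ) * -((2 : ℝ) ^ (q - 2) * β)) =
          r ^ ((q : ℝ) - (2 : ℝ) ^ (q - 2) * β - 1 / 10) * r ^ (-(q : ℝ) + σ * (q : ℝ)) *
            r ^ (1 / 10 - σ * q + τ * ((2 : ℝ) ^ (q - 2) * β)) := by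
        rw [← Real.rpow_add hr0, ← Real.rpow_add hr0]
        congr 1
        ring
      rw [h2]
      have h3 : N0 ≤ r ^ (1 / 10 - σ * q + τ * ((2 : ℝ) ^ (q - 2) * β)) := by
        apply hge
        have h6 : 0 ≤ τ * ((2 : ℝ) ^ (q - 2) * β) := by positivity
        have h7 : σ * q ≤ τ := by rw [hτdef]; linarith only [mul_nonneg hσ0.le (sub_nonneg.2 hqR), hσ0]
        linarith
      have h4 := hpos ((q : ℝ) - (2 : ℝ) ^ (q - 2) * β - 1 / 10)
      have h5 := hpos (-(q : ℝ) + σ * (q : ℝ))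
      calc A * r ^ ((q : ℝ) - (2 : ℝ) ^ (q - 2) * β - 1 / 10) * r ^ (-(q : ℝ) + σ * (q : ℝ)) =
            r ^ ((q : ℝ) - (2 : ℝ) ^ (q - 2) * β - 1 / 10) * r ^ (-(q : ℝ) + σ * (q : ℝ)) * A := by ring
        _ ≤ _ := mul_le_mul_of_nonneg_left (hN3.trans h3) (mul_pos h4 h5).le
    · -- `Lam ≤ lam * L ^ ρ`
      rw [hLe, mul_assoc K]
      have h1 : r ^ (-(q : ℝ) + σ * (q : ℝ)) ≤
          r ^ (-(2 * σ)) * r ^ (-(q : ℝ)) / 2 * r ^ ((1 - τ) * ρ) := by
        have h2 : r ^ (-(2 * σ)) * r ^ (-(q : ℝ)) / 2 * r ^ ((1 - τ) * ρ) =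
            r ^ (-(q : ℝ) + σ * (q : ℝ)) * r ^ ((1 - τ) * ρ - σ * ((q : ℝ) + 2)) / 2 := by
          have : r ^ (-(2 * σ)) * r ^ (-(q : ℝ)) * r ^ ((1 - τ) * ρ) =
              r ^ (-(q : ℝ) + σ * (q : ℝ)) * r ^ ((1 - τ) * ρ - σ * ((q : ℝ) + 2)) := by
            rw [← Real.rpow_add hr0, ← Real.rpow_add hr0, ← Real.rpow_add hr0]
            congr 1
            ring
          linear_combination this / 2
        rw [h2]
        have h6 : σ ≤ (1 - τ) * ρ - σ * ((q : ℝ) + 2) := by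
          have h7 : σ * ((q : ℝ) + 3) ≤ ρ / 2 := by linarith only [mul_nonneg hσ0.le (sub_nonneg.2 hqR), hσ2]
          linarith only [mul_nonneg hρ.le (sub_nonneg.2 hτ1), h7, hρ]
        have h3 := hge ((1 - τ) * ρ - σ * ((q : ℝ) + 2)) h6
        have h4 := hpos (-(q : ℝ) + σ * (q : ℝ))
        rw [le_div_iff₀ (by norm_num)]
        apply mul_le_mul_of_nonneg_left _ h4.le
        linarith
      exact mul_le_mul_of_nonneg_left h1 hK0.le
    · -- the derivative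
      intro x hxm
      rw [blockg_deriv q (by omega) (ς * |c|) b hbR x0 m x]
      have h1 := hlow x hxm.1 hxm.2
      have h2 := hup x
      have h3 : (m : ℝ) ^ q * (ς * |c| * ((-1) ^ q * ((q - 1).factorial : ℝ) *
          ((((x0 + m * x : ℝ) : ℂ) + b * Complex.I) ^ (-(q : ℤ))).im)) = K * (ς * (-1) ^ q * h x) := by
        rw [hK, hh, hadef]
        ring
      have h4 : (((b : ℕ) : ℝ) : ℂ) = ((b : ℕ) : ℂ) := by push_cast; rfl
      rw [h4, h3]
      exact ⟨mul_le_mul_of_nonneg_left h1 hK0.le, mul_le_mul_of_nonneg_left h2 hK0.le⟩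
  · -- small `r`
    push Not at hbig
    have hcard : ‖∑ t ∈ Finset.Icc t0 t1, xi k ⟨x0 + m * t, b⟩‖ ≤ (t1 : ℝ) - t0 + 1 := by
      refine (norm_sum_le _ _).trans ?_
      have hne : ∀ x : ℤ, (⟨x, b⟩ : G) ≠ 0 := by
        intro x h0
        have := congrArg Zsqrtd.im h0
        simp at this
        omega
      rw [Finset.sum_congr rfl (fun (t : ℤ) _ => norm_xi k (hne (x0 + m * t)))]
      rw [Finset.sum_const, Int.card_Icc, nsmul_eq_mul, mul_one]
      have h1 : ((t1 + 1 - t0).toNat : ℤ) = t1 + 1 - t0 := Int.toNat_of_nonneg (by omega)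
      have h' : (((t1 + 1 - t0).toNat : ℤ) : ℝ) = ((t1 + 1 - t0 : ℤ) : ℝ) := by rw [h1]
      push_cast at h'
      linarith
    have h1 : r ^ (1 - τ) ≤ r := by
      nth_rewrite 2 [← Real.rpow_one r]
      exact Real.rpow_le_rpow_of_exponent_le hr (by linarith)
    have h2 := hone (1 - τ - η0 / 2) (by linarith)
    have h3 : ‖∑ t ∈ Finset.Icc t0 t1, xi k ⟨x0 + m * t, b⟩‖ ≤ 2 * R0 := by linarith
    have h5 : 0 < C0 + 2 * R0 := by linarith
    calc ‖∑ t ∈ Finset.Icc t0 t1, xi k ⟨x0 + m * t, b⟩‖ ≤ 2 * R0 := h3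
      _ ≤ C0 + 2 * R0 := by linarith
      _ = (C0 + 2 * R0) * 1 := (mul_one _).symm
      _ ≤ (C0 + 2 * R0) * r ^ (1 - τ - η0 / 2) := mul_le_mul_of_nonneg_left h2 h5.le

end Pool.Agent.ECM

end

/-! ### from `Lib_MP_f1a94e_ecm.BlockG` -/

section

/-!
# Piece M-BLOCK: a short block of a row in a residue class, any order of the derivative
-/

set_option autoImplicit false

namespace Pool.Agent.ECM

open Finset Pool.Agent.GaussMR

theorem blockG (m : ℕ) (hm : 0 < m) (Q : ℕ) : ∃ β σ η C : ℝ, 0 < β ∧ (2 : ℝ) ^ Q * β ≤ 1 / 2 ∧ 0 < σ ∧ ((Q : ℝ) + 5) * σ ≤ 1 / 100 ∧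
    0 < η ∧ η ≤ 1 / 2 ∧ 0 < C ∧ ∀ q : ℕ, 2 ≤ q → q ≤ Q → ∀ (r : ℝ) (k : ℤ) (b : ℕ) (x0 t0 t1 s : ℤ), 1 ≤ r →
    r ^ ((q : ℝ) - 17 / 10) ≤ |(k : ℝ)| → |(k : ℝ)| ≤ r ^ ((q : ℝ) - (2 : ℝ) ^ (q - 2) * β - 1 / 10) →
    r ^ (1 - σ) ≤ (b : ℝ) → t0 ≤ t1 → (t1 : ℝ) - t0 ≤ r ^ (1 - ((Q : ℝ) + 5) * σ) →
    ((x0 : ℝ) + m * t0) ^ 2 + (b : ℝ) ^ 2 ≤ r ^ 2 → ((x0 : ℝ) + m * t1) ^ 2 + (b : ℝ) ^ 2 ≤ r ^ 2 → t0 ≤ s → s ≤ t1 →
    r ^ (-(2 * σ)) ≤ |((((x0 + m * s : ℤ) : ℂ) + b * Complex.I) ^ (-(q : ℤ))).im| *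
      ‖((x0 + m * s : ℤ) : ℂ) + b * Complex.I‖ ^ q →
    ‖∑ t ∈ Finset.Icc t0 t1, xi k ⟨x0 + m * t, b⟩‖ ≤ C * r ^ (1 - ((Q : ℝ) + 5) * σ - η) :=
  blockG_of m hm Q (dtr_all Q)

end Pool.Agent.ECM

end

/-! ### from `Lib_MP_f1a94e_ecm.MidG` -/

section

/-!
# Piece M-MID: sums of `xi k` over a residue class in a disc, large `k`
-/

set_option autoImplicit false

namespace Pool.Agent.ECM

open Finset Pool.Agent.GaussMR Pool.Agent.GaussCM Pool.Agent.OmAll

/-- the range of `t` with `-s ≤ a + m t ≤ s` -/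
theorem midg_range (m : ℕ) (hm : 0 < m) (s : ℕ) (a t : ℤ) :
    (-((s + a) / m) ≤ t ∧ t ≤ (s - a) / m) ↔ (-(s : ℤ) ≤ a + m * t ∧ a + m * t ≤ s) := by
  have hm' : (0 : ℤ) < m := by exact_mod_cast hm
  have h1 : -((s + a) / (m : ℤ)) ≤ t ↔ -(s : ℤ) ≤ a + m * t := by
    rw [neg_le, Int.le_ediv_iff_mul_le hm']
    constructor
    · intro h; linarith
    · intro h; linarith
  have h2 : t ≤ (s - a) / (m : ℤ) ↔ a + m * t ≤ s := by
    rw [Int.le_ediv_iff_mul_le hm']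
    constructor
    · intro h; linarith
    · intro h; linarith
  rw [h1, h2]

/-- the sum over a residue class in a row -/
theorem midg_class (m : ℕ) (hm : 0 < m) (s : ℕ) (a : ℤ) (f : ℤ → ℂ) :
    ∑ x ∈ Icc (-(s : ℤ)) s, (if (m : ℤ) ∣ x - a then f x else 0) =
      ∑ t ∈ Icc (-((s + a) / (m : ℤ))) ((s - a) / (m : ℤ)), f (a + m * t) := by
  have hm' : (0 : ℤ) < m := by exact_mod_cast hm
  rw [← sum_filter]
  symm
  apply sum_bij (fun (t : ℤ) _ => a + m * t)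
  · intro t ht
    rw [mem_Icc, midg_range m hm] at ht
    rw [mem_filter, mem_Icc]
    refine ⟨ht, ⟨t, by ring⟩⟩
  · intro t _ t' _ h
    have h1 : (m : ℤ) * t = m * t' := by linarith
    exact mul_left_cancel₀ hm'.ne' h1
  · intro x hx
    rw [mem_filter, mem_Icc] at hx
    obtain ⟨t, ht⟩ := hx.2
    have hxt : a + m * t = x := by linarith
    refine ⟨t, ?_, hxt⟩
    rw [mem_Icc, midg_range m hm, hxt]
    exact hx.1
  · intro t _
    rfl

theorem midg_sig (Q : ℕ) {σ : ℝ} (hσ : 0 < σ) (hσQ : ((Q : ℝ) + 5) * σ ≤ 1 / 100) : σ ≤ 1 := by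
  have h5 : (0 : ℝ) ≤ Q := Nat.cast_nonneg _
  have h6 : 0 ≤ (Q : ℝ) * σ := mul_nonneg h5 hσ.le
  linarith only [h6, hσ, hσQ]

theorem midg_kap {r σ b : ℝ} (hr0 : 0 < r) (hb0 : 0 < b) (hb : r ^ (1 - σ) ≤ b) :
    r ^ (-(2 * σ)) * r ^ 2 / b ≤ r ^ (1 - σ) := by
  rw [div_le_iff₀ hb0]
  calc r ^ (-(2 * σ)) * r ^ 2 = r ^ (1 - σ) * r ^ (1 - σ) := by
        rw [← Real.rpow_natCast r 2, ← Real.rpow_add hr0, ← Real.rpow_add hr0]
        congr 1
        push_cast
        ring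
    _ ≤ r ^ (1 - σ) * b := mul_le_mul_of_nonneg_left hb (Real.rpow_pos_of_pos hr0 _).le

theorem midg_fin {r : ℝ} (hr0 : 0 ≤ r) (b : ℕ) (p : ℤ → Prop) :
    {x : ℤ | (x : ℝ) ^ 2 + (b : ℝ) ^ 2 ≤ r ^ 2 ∧ p x}.Finite := by
  apply (Set.finite_Icc (-(⌈r⌉₊ : ℤ)) ⌈r⌉₊).subset
  rintro x ⟨hx, -⟩
  have h1 : (x : ℝ) ^ 2 ≤ r ^ 2 := le_trans (le_add_of_nonneg_right (sq_nonneg _)) hx
  have h2 := abs_le_of_sq_le_sq' h1 hr0
  have h3 : r ≤ (⌈r⌉₊ : ℝ) := Nat.le_ceil r
  constructor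
  · have : (-(⌈r⌉₊ : ℝ)) ≤ x := by linarith only [h2.1, h3]
    exact_mod_cast this
  · have : (x : ℝ) ≤ (⌈r⌉₊ : ℝ) := by linarith only [h2.2, h3]
    exact_mod_cast this

/-- one row, large imaginary part -/
theorem midg_row (m : ℕ) (hm : 0 < m) (Q : ℕ) : ∃ β σ η C : ℝ, 0 < β ∧ (2 : ℝ) ^ Q * β ≤ 1 / 2 ∧
    0 < σ ∧ ((Q : ℝ) + 5) * σ ≤ 1 / 100 ∧ 0 < η ∧ η ≤ σ ∧ η ≤ 1 / 2 ∧ 0 < C ∧
    ∀ q : ℕ, 2 ≤ q → q ≤ Q → ∀ (r : ℝ) (k : ℤ) (b : ℕ) (a : ℤ) (s : ℕ), 1 ≤ r →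
    r ^ ((q : ℝ) - 17 / 10) ≤ |(k : ℝ)| → |(k : ℝ)| ≤ r ^ ((q : ℝ) - (2 : ℝ) ^ (q - 2) * β - 1 / 10) →
    r ^ (1 - σ) ≤ (b : ℝ) → (s : ℝ) ^ 2 + (b : ℝ) ^ 2 ≤ r ^ 2 →
    ‖∑ t ∈ Icc (-((s + a) / (m : ℤ))) ((s - a) / (m : ℤ)), xi k ⟨a + m * t, b⟩‖ ≤
      C * r ^ (1 - η) := by
  classical
  obtain ⟨β, σ, η, C1, hβ, hβQ, hσ, hσQ, hη, hη2, hC1, hblock⟩ := blockG m hm Q
  have hex : ∀ q : ℕ, ∃ C : ℝ, 0 < C ∧ (1 ≤ q → ∀ (r κ : ℝ) (b : ℕ), 1 ≤ r → 0 < κ → κ ≤ 1 → 1 ≤ b →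
      (Set.ncard {x : ℤ | (x : ℝ) ^ 2 + (b : ℝ) ^ 2 ≤ r ^ 2 ∧
        |(((x : ℂ) + b * Complex.I) ^ (-(q : ℤ))).im| * ‖(x : ℂ) + b * Complex.I‖ ^ q < κ} : ℝ) ≤
        C * (κ * r ^ 2 / b + 1)) := by
    intro q
    by_cases hq : 1 ≤ q
    · obtain ⟨C, hC, h⟩ := bad_cardG q hq
      exact ⟨C, hC, fun _ => h⟩
    · exact ⟨1, one_pos, fun h => absurd h hq⟩
  choose D hD0 hD using hex
  set C2 : ℝ := ∑ q ∈ range (Q + 1), D q with hC2def
  have hC2 : 0 < C2 := sum_pos (fun q _ => hD0 q) ⟨0, mem_range.2 (Nat.succ_pos _)⟩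
  have hDle : ∀ q ≤ Q, D q ≤ C2 := fun q hq =>
    single_le_sum (f := D) (fun i _ => (hD0 i).le) (mem_range.2 (by omega))
  set η' : ℝ := min η σ with hη'
  have hη'η : η' ≤ η := min_le_left _ _
  have hη'σ : η' ≤ σ := min_le_right _ _
  have hη'0 : 0 < η' := lt_min hη hσ
  refine ⟨β, σ, η', 3 * C1 + 2 * C2, hβ, hβQ, hσ, hσQ, hη'0, hη'σ, hη'η.trans hη2,
    by positivity, ?_⟩
  intro q hq2 hqQ r k b a s hr hk1 hk2 hb hs
  have hr0 : 0 < r := lt_of_lt_of_le one_pos hr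
  have hσ1 : σ ≤ 1 := midg_sig Q hσ hσQ
  have hb1R : (1 : ℝ) ≤ b := (Real.one_le_rpow hr (sub_nonneg.2 hσ1)).trans hb
  have hb1 : 1 ≤ b := by exact_mod_cast hb1R
  have hb0 : (0 : ℝ) < b := lt_of_lt_of_le one_pos hb1R
  set L : ℝ := r ^ (1 - ((Q : ℝ) + 5) * σ) with hL
  have hL1 : 1 ≤ L := Real.one_le_rpow hr (by linarith only [hσQ])
  set mm : ℕ := ⌊L⌋₊ with hmm
  have hmL : (mm : ℝ) ≤ L := Nat.floor_le (zero_le_one.trans hL1)
  have hLm : L < mm + 1 := Nat.lt_floor_add_one L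
  set bad : ℤ → Prop := fun t => |((((a + m * t : ℤ) : ℂ) + b * Complex.I) ^ (-(q : ℤ))).im| *
      ‖((a + m * t : ℤ) : ℂ) + b * Complex.I‖ ^ q < r ^ (-(2 * σ)) with hbaddef
  set A : ℝ := C1 * r ^ (1 - ((Q : ℝ) + 5) * σ - η) with hAdef
  have hA : 0 ≤ A := by positivity
  have hsr : (s : ℝ) ≤ r := by
    have h1 : (s : ℝ) ^ 2 ≤ r ^ 2 := le_trans (le_add_of_nonneg_right (sq_nonneg _)) hs
    exact (abs_le_of_sq_le_sq' h1 hr0.le).2
  set u0 : ℤ := -((s + a) / (m : ℤ)) with hu0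
  set v0 : ℤ := (s - a) / (m : ℤ) with hv0
  have hin : ∀ t : ℤ, u0 ≤ t → t ≤ v0 → -(s : ℤ) ≤ a + m * t ∧ a + m * t ≤ s := fun t h1 h2 =>
    (midg_range m hm s a t).1 ⟨h1, h2⟩
  have hsqI : ∀ x : ℤ, -(s : ℤ) ≤ x → x ≤ s → (x : ℝ) ^ 2 + (b : ℝ) ^ 2 ≤ r ^ 2 := by
    intro x hx1 hx2
    have h1 : (x : ℝ) ≤ s := by exact_mod_cast hx2
    have h2 : -(s : ℝ) ≤ x := by exact_mod_cast hx1
    have h3 : (x : ℝ) ^ 2 ≤ (s : ℝ) ^ 2 := sq_le_sq' h2 h1
    linarith only [h3, hs]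
  have hsq : ∀ t : ℤ, u0 ≤ t → t ≤ v0 → ((a : ℝ) + m * t) ^ 2 + (b : ℝ) ^ 2 ≤ r ^ 2 := by
    intro t h1 h2
    have h3 := hin t h1 h2
    have h4 := hsqI _ h3.1 h3.2
    push_cast at h4
    exact h4
  have hgood : ∀ x0 x1 y : ℤ, u0 ≤ x0 → x1 ≤ v0 → x0 ≤ y → y ≤ x1 → x1 - x0 ≤ mm → ¬ bad y →
      ‖∑ t ∈ Icc x0 x1, xi k ⟨a + m * t, b⟩‖ ≤ A := by
    intro x0 x1 y h1 h2 h3 h4 h5 h6
    refine hblock q hq2 hqQ r k b a x0 x1 y hr hk1 hk2 hb (by omega) ?_ (hsq _ h1 (by omega))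
      (hsq _ (by omega) h2) h3 h4 (not_lt.1 h6)
    have h7 : ((x1 - x0 : ℤ) : ℝ) ≤ (mm : ℝ) := by exact_mod_cast h5
    push_cast at h7
    linarith only [h7, hmL]
  set n : ℕ := 2 * s / (mm + 1) + 1 with hn
  have hn1 : 2 * s < n * (mm + 1) := by
    have := Nat.lt_mul_div_succ (2 * s) (Nat.succ_pos mm)
    rw [hn, Nat.mul_comm (2 * s / (mm + 1) + 1) (mm + 1)]
    exact this
  have hm' : (0 : ℤ) < m := by exact_mod_cast hm
  have huv : v0 - u0 ≤ 2 * s := by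
    by_contra hcon
    push Not at hcon
    have h1 : v0 * m ≤ s - a := Int.ediv_mul_le _ hm'.ne'
    have h2 : (s + a) / (m : ℤ) * m ≤ s + a := Int.ediv_mul_le _ hm'.ne'
    have h3 : (v0 - u0) * m ≤ 2 * s := by
      rw [hu0]
      linarith only [h1, h2]
    have h4 : (v0 - u0) * 1 ≤ (v0 - u0) * m := by
      apply mul_le_mul_of_nonneg_left (by omega)
      have : (0 : ℤ) ≤ 2 * s := by positivity
      omega
    omega
  have key := blocks_bound (fun t => xi k ⟨a + m * t, b⟩) (fun x => norm_xi_le_one k _) bad mm A hA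
    u0 v0 hgood n u0 le_rfl (by
      have : ((2 * s : ℕ) : ℤ) < ((n * (mm + 1) : ℕ) : ℤ) := by exact_mod_cast hn1
      push_cast at this ⊢
      linarith only [this, huv])
  have hnle : (n : ℝ) ≤ 3 * r ^ (((Q : ℝ) + 5) * σ) := by
    have h1 : ((2 * s / (mm + 1) : ℕ) : ℝ) ≤ ((2 * s : ℕ) : ℝ) / ((mm + 1 : ℕ) : ℝ) := Nat.cast_div_le
    have h2 : ((2 * s : ℕ) : ℝ) / ((mm + 1 : ℕ) : ℝ) ≤ 2 * r / L := by
      push_cast
      exact div_le_div₀ (mul_nonneg zero_le_two hr0.le) (by linarith only [hsr])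
        (lt_of_lt_of_le one_pos hL1) hLm.le
    have h3 : 2 * r / L = 2 * r ^ (((Q : ℝ) + 5) * σ) := by
      rw [hL, mul_div_assoc]
      congr 1
      rw [div_eq_iff (by positivity), ← Real.rpow_add hr0]
      rw [show ((Q : ℝ) + 5) * σ + (1 - ((Q : ℝ) + 5) * σ) = 1 by ring, Real.rpow_one]
    have h4 : (1 : ℝ) ≤ r ^ (((Q : ℝ) + 5) * σ) := Real.one_le_rpow hr (by positivity)
    rw [hn]
    push_cast at h1 ⊢
    push_cast at h2
    linarith only [h1, h2, h3, h4]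
  have hnA : n * A ≤ 3 * C1 * r ^ (1 - η') := by
    calc (n : ℝ) * A ≤ (3 * r ^ (((Q : ℝ) + 5) * σ)) * A := mul_le_mul_of_nonneg_right hnle hA
      _ = 3 * C1 * r ^ (1 - η) := by
        rw [hAdef]
        have : r ^ (((Q : ℝ) + 5) * σ) * r ^ (1 - ((Q : ℝ) + 5) * σ - η) = r ^ (1 - η) := by
          rw [← Real.rpow_add hr0]
          congr 1
          ring
        rw [← this]; ring
      _ ≤ _ := by
        apply mul_le_mul_of_nonneg_left _ (by positivity)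
        exact Real.rpow_le_rpow_of_exponent_le hr (by linarith only [hη'η])
  have hbadsum : ∑ t ∈ Icc u0 v0, (if bad t then (1 : ℝ) else 0) ≤ 2 * C2 * r ^ (1 - η') := by
    have hκ0 : 0 < r ^ (-(2 * σ)) := Real.rpow_pos_of_pos hr0 _
    have hκ1 : r ^ (-(2 * σ)) ≤ 1 :=
      Real.rpow_le_one_of_one_le_of_nonpos hr (by linarith only [hσ])
    have hcard := hD q (by omega) r (r ^ (-(2 * σ))) b hr hκ0 hκ1 hb1
    have hbound : D q * (r ^ (-(2 * σ)) * r ^ 2 / b + 1) ≤ 2 * C2 * r ^ (1 - η') := by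
      have h1 := midg_kap hr0 hb0 hb
      have h2 : (1 : ℝ) ≤ r ^ (1 - σ) := Real.one_le_rpow hr (sub_nonneg.2 hσ1)
      have h3 : r ^ (1 - σ) ≤ r ^ (1 - η') :=
        Real.rpow_le_rpow_of_exponent_le hr (by linarith only [hη'σ])
      have h4 : r ^ (-(2 * σ)) * r ^ 2 / b + 1 ≤ 2 * r ^ (1 - η') := by
        linarith only [h1, h2, h3]
      have h5 : 0 ≤ r ^ (-(2 * σ)) * r ^ 2 / b + 1 :=
        add_nonneg (div_nonneg (mul_nonneg hκ0.le (sq_nonneg r)) hb0.le) zero_le_one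
      calc D q * (r ^ (-(2 * σ)) * r ^ 2 / b + 1) ≤ C2 * (2 * r ^ (1 - η')) :=
            mul_le_mul (hDle q hqQ) h4 h5 hC2.le
        _ = _ := by ring
    refine le_trans ?_ (hcard.trans hbound)
    rw [← Finset.sum_filter, Finset.sum_const, nsmul_eq_mul, mul_one]
    have hfin : {x : ℤ | (x : ℝ) ^ 2 + (b : ℝ) ^ 2 ≤ r ^ 2 ∧
      |(((x : ℂ) + b * Complex.I) ^ (-(q : ℤ))).im| * ‖(x : ℂ) + b * Complex.I‖ ^ q <
        r ^ (-(2 * σ))}.Finite := midg_fin hr0.le b _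
    have hinj : Function.Injective (fun t : ℤ => a + m * t) := fun t t' h =>
      mul_left_cancel₀ hm'.ne' (add_left_cancel h)
    rw [← card_image_of_injective _ hinj, ← Set.ncard_coe_finset]
    refine Nat.cast_le.2 (Set.ncard_le_ncard ?_ hfin)
    intro x hx
    rw [mem_coe, mem_image] at hx
    obtain ⟨t, ht, rfl⟩ := hx
    rw [mem_filter, mem_Icc] at ht
    have h3 := hin t ht.1.1 ht.1.2
    exact ⟨hsqI _ h3.1 h3.2, ht.2⟩
  calc ‖∑ t ∈ Icc u0 v0, xi k ⟨a + m * t, b⟩‖ ≤ _ := key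
    _ ≤ _ := by rw [add_mul]; exact add_le_add hnA hbadsum

/-- choice of the order of the derivative -/
theorem midg_q (Q : ℕ) (hQ : 2 ≤ Q) (β : ℝ) (hβ : 0 < β) (hβQ : (2 : ℝ) ^ Q * β ≤ 1 / 2) (r K : ℝ)
    (hr : 1 ≤ r) (h1 : r ^ (3 / 10 : ℝ) ≤ K) (h2 : K ≤ r ^ ((Q : ℝ) - 1)) :
    ∃ q : ℕ, 2 ≤ q ∧ q ≤ Q ∧ r ^ ((q : ℝ) - 17 / 10) ≤ K ∧
      K ≤ r ^ ((q : ℝ) - (2 : ℝ) ^ (q - 2) * β - 1 / 10) := by
  classical
  have hpow : ∀ q : ℕ, 2 ≤ q → q ≤ Q → (2 : ℝ) ^ (q - 2) * β ≤ 1 / 8 := by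
    intro q hq hqQ
    have h3 : (2 : ℝ) ^ (q - 2) * 4 ≤ 2 ^ Q := by
      have h4 : (2 : ℝ) ^ (q - 2) * 4 = 2 ^ (q - 2 + 2) := by rw [pow_add]; norm_num
      rw [h4]
      exact pow_le_pow_right₀ (by norm_num) (by omega)
    have h5 := mul_le_mul_of_nonneg_right h3 hβ.le
    linarith only [h5, hβQ]
  have hex : ∃ q : ℕ, 2 ≤ q ∧ K ≤ r ^ ((q : ℝ) - (2 : ℝ) ^ (q - 2) * β - 1 / 10) := by
    refine ⟨Q, hQ, h2.trans (Real.rpow_le_rpow_of_exponent_le hr ?_)⟩
    have := hpow Q hQ le_rfl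
    linarith
  have hfs := Nat.find_spec hex
  have hfm : Nat.find hex ≤ Q := by
    apply Nat.find_min' hex
    refine ⟨hQ, h2.trans (Real.rpow_le_rpow_of_exponent_le hr ?_)⟩
    have := hpow Q hQ le_rfl
    linarith
  set q := Nat.find hex with hq
  refine ⟨q, hfs.1, hfm, ?_, hfs.2⟩
  rcases Nat.lt_or_ge 2 q with hlt | hge
  · have hnot := Nat.find_min hex (m := q - 1) (by omega)
    have h3 : ¬ K ≤ r ^ (((q - 1 : ℕ) : ℝ) - (2 : ℝ) ^ (q - 1 - 2) * β - 1 / 10) := by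
      intro h4
      exact hnot ⟨by omega, h4⟩
    push Not at h3
    refine (Real.rpow_le_rpow_of_exponent_le hr ?_).trans h3.le
    have h5 := hpow (q - 1) (by omega) (by omega)
    have h6 : ((q - 1 : ℕ) : ℝ) = (q : ℝ) - 1 := by
      rw [Nat.cast_sub (by omega)]
      norm_num
    rw [h6]
    linarith
  · have h3 : q = 2 := le_antisymm hge hfs.1
    rw [h3]
    refine (Real.rpow_le_rpow_of_exponent_le hr ?_).trans h1
    norm_num

open Classical in
/-- Generalisation of `mid_j` (Lib_MP_f1a94e_mr/MidJ.lean: `blocks_bound`, `row_bound`, `sum_ball_rows`). `r = sqrt Y`. The windows `r^(q - 17/10) ≤ |k| ≤ r^(q - 2^(q-2) β - 1/10)`, `2 ≤ q ≤ Q`, cover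
`r^(3/10) ≤ |k| ≤ r^(Q - 1)` (`2^(q-2) β + 1/10 ≤ 7/10`). Fix `q`. Row `im = b ≥ r^(1-σ)`: the `x ≡ b.re mod m` are `x0 + m t`, `t` in an interval; cut it into blocks of length `L = r^(1 - (Q+5) σ)`:
a block with a good point is `≤ C r^(1 - (Q+5)σ - η)` (`blockG`), the number of blocks is `≤ 2 r / L + 1`; blocks without good point consist of bad points, in total at most
`C (r^(-2σ) r² / b + 1) ≤ C r^(1 - σ)` (`bad_cardG`). So a row is `≤ C r^(1 - η')`. Rows with `|b| < r^(1-σ)`: trivial, `≤ C r r^(1 - σ)` in total. Rows `b < 0`: complex conjugation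
(`xi k (star z) = conj (xi k z)`), the class of `star z`. Rows with `im ≡ b.im mod m` only. -/
theorem midG (m : ℕ) (hm : 0 < m) (Q : ℕ) (hQ : 2 ≤ Q) : ∃ η C : ℝ, 0 < η ∧ η ≤ 1 / 2 ∧ 0 < C ∧ ∀ (Y : ℝ) (b : G) (k : ℤ), 1 ≤ Y →
    Y ^ (3 / 20 : ℝ) ≤ |(k : ℝ)| → |(k : ℝ)| ≤ Y ^ (((Q : ℝ) - 1) / 2) →
    ‖∑ z ∈ (ball Y).filter (fun z => cg m z b), xi k z‖ ≤ C * Y ^ (1 - η) := by
  obtain ⟨β, σ, η, C, hβ, hβQ, hσ, hσQ, hη, hησ, hη2, hC, hrow⟩ := midg_row m hm Q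
  refine ⟨η / 2, 3 * C + 9, by positivity, by linarith, by positivity, ?_⟩
  intro Y b0 k hY hk1 hk2
  have hY0 : 0 < Y := lt_of_lt_of_le one_pos hY
  set r : ℝ := Real.sqrt Y with hr
  have hr1 : 1 ≤ r := by rw [hr]; exact Real.one_le_sqrt.2 hY
  have hr0 : 0 < r := lt_of_lt_of_le one_pos hr1
  have hrt : r ^ 2 = Y := Real.sq_sqrt hY0.le
  have htr : ∀ a : ℝ, Y ^ a = r ^ (2 * a) := by
    intro a
    rw [← hrt, ← Real.rpow_natCast r 2, ← Real.rpow_mul hr0.le]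
    norm_num
  rw [htr] at hk1 hk2
  rw [show 2 * (3 / 20 : ℝ) = 3 / 10 by norm_num] at hk1
  rw [show 2 * (((Q : ℝ) - 1) / 2) = (Q : ℝ) - 1 by ring] at hk2
  obtain ⟨q, hq2, hqQ, hqa, hqb⟩ := midg_q Q hQ β hβ hβQ r |(k : ℝ)| hr1 hk1 hk2
  have hσ1 : σ ≤ 1 := midg_sig Q hσ hσQ
  set y : ℝ := r ^ (1 - σ) with hy
  have hy1 : 1 ≤ y := Real.one_le_rpow hr1 (sub_nonneg.2 hσ1)
  set B : ℝ := C * r ^ (1 - η) with hB
  have hB0 : 0 ≤ B := by positivity
  rw [sum_filter, sum_ball_rows Y hY0.le]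
  -- bound of one row
  have hone : ∀ b ∈ Finset.Icc (-(⌊r⌋₊ : ℤ)) ⌊r⌋₊,
      ‖∑ x ∈ Finset.Icc (-(⌊Real.sqrt (Y - (b : ℝ) ^ 2)⌋₊ : ℤ)) ⌊Real.sqrt (Y - (b : ℝ) ^ 2)⌋₊,
        (if cg m ⟨x, b⟩ b0 then xi k ⟨x, b⟩ else 0)‖ ≤
        B + (if (b.natAbs : ℝ) < y then 3 * r else 0) := by
    intro b hb
    have hb2 : (b : ℝ) ^ 2 ≤ Y := by
      rw [Finset.mem_Icc, ← abs_le, Int.abs_eq_natAbs, Nat.cast_le,
        Nat.le_floor_iff hr0.le, Nat.cast_natAbs, Int.cast_abs, hr,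
        Real.le_sqrt (abs_nonneg _) hY0.le, sq_abs] at hb
      exact hb
    have hs0 : 0 ≤ Y - (b : ℝ) ^ 2 := sub_nonneg.2 hb2
    set s := ⌊Real.sqrt (Y - (b : ℝ) ^ 2)⌋₊ with hs
    have hs1 : (s : ℝ) ≤ Real.sqrt (Y - (b : ℝ) ^ 2) := Nat.floor_le (Real.sqrt_nonneg _)
    have hs2 : (s : ℝ) ^ 2 ≤ Y - (b : ℝ) ^ 2 := by
      rw [← Real.sq_sqrt hs0]
      exact pow_le_pow_left₀ (by positivity) hs1 2
    have hsr : (s : ℝ) ≤ r := by
      rw [hr]
      exact hs1.trans (Real.sqrt_le_sqrt (sub_le_self _ (sq_nonneg _)))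
    by_cases hby : (b.natAbs : ℝ) < y
    · rw [if_pos hby]
      have h1 : ‖∑ x ∈ Finset.Icc (-(s : ℤ)) s, (if cg m ⟨x, b⟩ b0 then xi k ⟨x, b⟩ else 0)‖ ≤
          ∑ x ∈ Finset.Icc (-(s : ℤ)) s, (1 : ℝ) := by
        refine (norm_sum_le _ _).trans (Finset.sum_le_sum (fun x _ => ?_))
        split_ifs
        · exact norm_xi_le_one k _
        · rw [norm_zero]; exact zero_le_one
      have h2 : ∑ x ∈ Finset.Icc (-(s : ℤ)) s, (1 : ℝ) = 2 * s + 1 := by
        rw [Finset.sum_const, Int.card_Icc, nsmul_eq_mul, mul_one]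
        have : ((s : ℤ) + 1 - -(s : ℤ)).toNat = 2 * s + 1 := by omega
        rw [this]; push_cast; ring
      rw [h2] at h1
      linarith only [h1, hB0, hsr, hr1]
    · rw [if_neg hby, add_zero]
      push Not at hby
      by_cases hdvd : (m : ℤ) ∣ b - b0.im
      swap
      · have h0 : ∑ x ∈ Finset.Icc (-(s : ℤ)) s, (if cg m ⟨x, b⟩ b0 then xi k ⟨x, b⟩ else 0) = 0 := by
          apply Finset.sum_eq_zero
          intro x _
          rw [if_neg]
          rintro ⟨_, h⟩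
          exact hdvd h
        rw [h0, norm_zero]
        exact hB0
      have hcls : ∀ b' : ℤ, ∑ x ∈ Finset.Icc (-(s : ℤ)) s,
          (if (m : ℤ) ∣ x - b0.re then xi k ⟨x, b'⟩ else 0) =
          ∑ t ∈ Icc (-((s + b0.re) / (m : ℤ))) ((s - b0.re) / (m : ℤ)), xi k ⟨b0.re + m * t, b'⟩ :=
        fun b' => midg_class m hm s b0.re (fun x => xi k ⟨x, b'⟩)
      have hsum1 : ∑ x ∈ Finset.Icc (-(s : ℤ)) s, (if cg m ⟨x, b⟩ b0 then xi k ⟨x, b⟩ else 0) =
          ∑ x ∈ Finset.Icc (-(s : ℤ)) s, (if (m : ℤ) ∣ x - b0.re then xi k ⟨x, b⟩ else 0) := by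
        apply Finset.sum_congr rfl
        intro x _
        by_cases hx : (m : ℤ) ∣ x - b0.re
        · rw [if_pos hx, if_pos]
          exact ⟨hx, hdvd⟩
        · rw [if_neg hx, if_neg]
          rintro ⟨h, _⟩
          exact hx h
      rw [hsum1]
      have hab : ((b.natAbs : ℕ) : ℝ) ^ 2 = (b : ℝ) ^ 2 := by
        rw [Nat.cast_natAbs, Int.cast_abs, sq_abs]
      have h1 := hrow q hq2 hqQ r k b.natAbs b0.re s hr1 hqa hqb hby (by rw [hab, hrt]; linarith only [hs2])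
      rcases Int.natAbs_eq b with hbb | hbb
      · rw [← hbb] at h1
        rw [hcls b]
        exact h1
      · have hbne : b ≠ 0 := by
          rintro rfl
          simp only [Int.natAbs_zero, Nat.cast_zero] at hby
          linarith only [hby, hy1]
        have h2 : ∑ x ∈ Finset.Icc (-(s : ℤ)) s,
              (if (m : ℤ) ∣ x - b0.re then xi k ⟨x, b⟩ else 0) =
            (starRingEnd ℂ) (∑ x ∈ Finset.Icc (-(s : ℤ)) s,
              (if (m : ℤ) ∣ x - b0.re then xi k ⟨x, (b.natAbs : ℤ)⟩ else 0)) := by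
          rw [map_sum]
          apply Finset.sum_congr rfl
          intro x _
          split_ifs
          · have hz : (⟨x, (b.natAbs : ℤ)⟩ : G) ≠ 0 := by
              intro h
              have := congrArg Zsqrtd.im h
              simp at this
              exact hbne this
            rw [conj_xi k hz, ← xi_star k hz]
            congr 1
            apply Zsqrtd.ext
            · simp
            · simp only [Zsqrtd.im_star]
              exact hbb
          · rw [map_zero]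
        rw [h2, RCLike.norm_conj, hcls]
        exact h1
  have hR : ((⌊r⌋₊ : ℕ) : ℝ) ≤ r := Nat.floor_le hr0.le
  have hcount : ∑ b ∈ Finset.Icc (-(⌊r⌋₊ : ℤ)) ⌊r⌋₊, (if (b.natAbs : ℝ) < y then 3 * r else 0) ≤
      (3 * y) * (3 * r) := by
    rw [← Finset.sum_filter, Finset.sum_const, nsmul_eq_mul]
    apply mul_le_mul_of_nonneg_right _ (by positivity)
    have hsub : (Finset.Icc (-(⌊r⌋₊ : ℤ)) ⌊r⌋₊).filter (fun b => (b.natAbs : ℝ) < y) ⊆
        Finset.Icc (-(⌊y⌋₊ : ℤ)) ⌊y⌋₊ := by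
      intro b hb
      rw [Finset.mem_filter] at hb
      rw [Finset.mem_Icc, ← abs_le, Int.abs_eq_natAbs, Nat.cast_le,
        Nat.le_floor_iff (zero_le_one.trans hy1)]
      exact hb.2.le
    have h1 := Finset.card_le_card hsub
    rw [Int.card_Icc] at h1
    have h2 : ((⌊y⌋₊ : ℤ) + 1 - -(⌊y⌋₊ : ℤ)).toNat = 2 * ⌊y⌋₊ + 1 := by omega
    rw [h2] at h1
    have h3 : ((⌊y⌋₊ : ℕ) : ℝ) ≤ y := Nat.floor_le (zero_le_one.trans hy1)
    have h4 : ((((Finset.Icc (-(⌊r⌋₊ : ℤ)) ⌊r⌋₊).filter (fun b => (b.natAbs : ℝ) < y)).card : ℕ) : ℝ)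
        ≤ ((2 * ⌊y⌋₊ + 1 : ℕ) : ℝ) := by exact_mod_cast h1
    push_cast at h4
    linarith only [h4, h3, hy1]
  have hBsum : ∑ b ∈ Finset.Icc (-(⌊r⌋₊ : ℤ)) ⌊r⌋₊, B ≤ (3 * r) * B := by
    rw [Finset.sum_const, Int.card_Icc, nsmul_eq_mul]
    apply mul_le_mul_of_nonneg_right _ hB0
    have : ((⌊r⌋₊ : ℤ) + 1 - -(⌊r⌋₊ : ℤ)).toNat = 2 * ⌊r⌋₊ + 1 := by omega
    rw [this]; push_cast; linarith only [hR, hr1]
  have htot : ‖∑ b ∈ Finset.Icc (-(⌊r⌋₊ : ℤ)) ⌊r⌋₊,
      ∑ x ∈ Finset.Icc (-(⌊Real.sqrt (Y - (b : ℝ) ^ 2)⌋₊ : ℤ)) ⌊Real.sqrt (Y - (b : ℝ) ^ 2)⌋₊,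
        (if cg m ⟨x, b⟩ b0 then xi k ⟨x, b⟩ else 0)‖ ≤ (3 * r) * B + (3 * y) * (3 * r) := by
    refine (norm_sum_le _ _).trans ((Finset.sum_le_sum hone).trans ?_)
    rw [Finset.sum_add_distrib]
    exact add_le_add hBsum hcount
  refine htot.trans ?_
  rw [htr]
  have e1 : r * r ^ (1 - η) = r ^ (2 * (1 - η / 2)) := by
    nth_rewrite 1 [← Real.rpow_one r]
    rw [← Real.rpow_add hr0]
    congr 1
    ring
  have e2 : y * r ≤ r ^ (2 * (1 - η / 2)) := by
    rw [hy]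
    nth_rewrite 2 [← Real.rpow_one r]
    rw [← Real.rpow_add hr0]
    exact Real.rpow_le_rpow_of_exponent_le hr1 (by linarith only [hησ])
  calc (3 * r) * B + (3 * y) * (3 * r) = 3 * C * (r * r ^ (1 - η)) + 9 * (y * r) := by
        rw [hB]; ring
    _ ≤ 3 * C * r ^ (2 * (1 - η / 2)) + 9 * r ^ (2 * (1 - η / 2)) := by
        rw [e1]; linarith only [e2]
    _ = _ := by ring

end Pool.Agent.ECM

end

/-! ### from `Lib_MP_f1a94e_ecm.ZDefs` -/

section

/-!
# Block M, zero frequency: definitions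
-/

set_option autoImplicit false

namespace Pool.Agent.ECM

open Finset Pool.Agent.GaussMR Pool.Agent.GaussCM Pool.Agent.OmAll

/-- normalised sums of `F` over `V (exp s)` -/
noncomputable def Af (F : G → ℂ) (s : ℝ) : ℂ := (Real.exp (-s) : ℂ) * ∑ z ∈ V (Real.exp s), F z

/-- the sum over the primes of a range with both conjugates, at height `t` -/
noncomputable def mult (F : G → ℂ) (P Q t : ℝ) : ℂ :=
  ∑ w ∈ PP P Q, (F w + F (star w)) / (nm w : ℂ) * Complex.exp (-((t * Real.log (nm w) : ℝ) : ℂ) * Complex.I)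

/-- partial sums of the `L`-series at `1` -/
noncomputable def SL (χ : G → ℂ) (Y : ℝ) : ℂ := ∑ z ∈ ob Y, χ z / (nm z : ℂ)

/-- the exponential series of a character -/
noncomputable def HH (χ : G → ℂ) (s : ℝ) : ℂ := ∑' z : G, χ z * (Real.exp (-(s * nm z)) : ℂ)

open Classical in
/-- the theta series without the constant term -/
noncomputable def Th (u : ℝ) : ℝ := ∑' z : G, if z = 0 then 0 else Real.exp (-(u * nm z))

/-- the Bessel kernel `∫ exp (-u - y / u) du / u` -/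
noncomputable def KB (y : ℝ) : ℝ := ∫ u in Set.Ioi (0 : ℝ), Real.exp (-u - y / u) / u

end Pool.Agent.ECM

end

/-! ### from `Lib_MP_f1a94e_ecm.ThCls` -/

section

/-!
# Piece M-THCLS: theta functions of residue classes
-/

set_option autoImplicit false

namespace Pool.Agent.ECM

open Finset Pool.Agent.GaussMR Pool.Agent.GaussCM Pool.Agent.OmAll

private def thE : ℤ × ℤ ≃ G where
  toFun p := ⟨p.1, p.2⟩
  invFun z := (z.re, z.im)
  left_inv _ := rfl
  right_inv _ := rfl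

private lemma th_nm (p : ℤ × ℤ) : (nm (thE p) : ℝ) = (p.1 : ℝ) ^ 2 + (p.2 : ℝ) ^ 2 := by
  have h := nm_eq (thE p)
  have h2 : ((nm (thE p) : ℤ) : ℝ) = (((thE p).re ^ 2 + (thE p).im ^ 2 : ℤ) : ℝ) := by rw [h]
  push_cast at h2
  exact h2

/-- one dimensional sum over a residue class -/
private lemma th_one (D : ℕ) (hD : 0 < D) (b : ℤ) (s : ℝ) (hs : 0 < s) :
    HasSum (fun x : ℤ => if (D : ℤ) ∣ x - b then Real.exp (-(s * (x : ℝ) ^ 2)) else 0)
      (HurwitzZeta.evenKernel (((b : ℝ) / D : ℝ) : UnitAddCircle) (s * D ^ 2 / Real.pi)) := by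
  have hDr : (0 : ℝ) < D := by exact_mod_cast hD
  have ht : 0 < s * D ^ 2 / Real.pi := by have := Real.pi_pos; positivity
  have h := HurwitzZeta.hasSum_int_evenKernel ((b : ℝ) / D) ht
  have hinj : Function.Injective (fun n : ℤ => (D : ℤ) * n + b) := by
    intro m n hmn
    have : (D : ℤ) * m = D * n := by simpa using hmn
    exact mul_left_cancel₀ (by exact_mod_cast hD.ne') this
  rw [← hinj.hasSum_iff]
  · refine h.congr_fun ?_
    intro n
    simp only [Function.comp]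
    rw [if_pos ⟨n, by ring⟩]
    congr 1
    push_cast
    have := Real.pi_pos
    field_simp
  · intro x hx
    rw [if_neg]
    rintro ⟨n, hn⟩
    exact hx ⟨n, by simp only; linarith⟩

/-- e.g. `exp (-s (x² + y²)) = exp (-s x²) exp (-s y²)`, product of two summable families over `ℤ` (Mathlib: `summable_pow_mul_jacobiTheta₂_term_bound`, `HurwitzZeta.hasSum_int_evenKernel`, ...), `G ≃ ℤ × ℤ`. -/
theorem summ_exp (s : ℝ) (hs : 0 < s) : Summable (fun z : G => Real.exp (-(s * nm z))) := by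
  have h1 : Summable (fun x : ℤ => Real.exp (-(s * (x : ℝ) ^ 2))) := by
    have h := (th_one 1 one_pos 0 s hs).summable
    refine h.congr ?_
    intro x
    rw [if_pos (by simp)]
  rw [← thE.summable_iff]
  have h2 := h1.mul_of_nonneg h1 (fun _ => (Real.exp_pos _).le) (fun _ => (Real.exp_pos _).le)
  refine h2.congr ?_
  intro p
  simp only [Function.comp]
  rw [th_nm, ← Real.exp_add]
  congr 1
  ring

/-- the cosine kernel is close to `1`, uniformly in the class -/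
private lemma th_cos (y₀ : ℝ) (hy₀ : 0 < y₀) : ∃ C : ℝ, 0 < C ∧ ∀ (a y : ℝ), y₀ ≤ y →
    |HurwitzZeta.cosKernel (a : UnitAddCircle) y - 1| ≤ C * Real.exp (-(Real.pi * y)) := by
  have hπ := Real.pi_pos
  have hq0 : Real.exp (-(Real.pi * y₀)) < 1 := by
    rw [Real.exp_lt_one_iff]
    have : 0 < Real.pi * y₀ := by positivity
    linarith
  refine ⟨2 / (1 - Real.exp (-(Real.pi * y₀))), by apply div_pos two_pos; linarith, ?_⟩
  intro a y hy
  have hy0 : 0 < y := lt_of_lt_of_le hy₀ hy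
  have hqy : Real.exp (-(Real.pi * y)) ≤ Real.exp (-(Real.pi * y₀)) := by
    apply Real.exp_le_exp.2
    nlinarith
  have hq1 : Real.exp (-(Real.pi * y)) < 1 := lt_of_le_of_lt hqy hq0
  have hg := (hasSum_geometric_of_lt_one (Real.exp_pos _).le hq1).mul_left
    (2 * Real.exp (-(Real.pi * y)))
  have hb : ‖HurwitzZeta.cosKernel (a : UnitAddCircle) y - 1‖ ≤
      2 * Real.exp (-(Real.pi * y)) * (1 - Real.exp (-(Real.pi * y)))⁻¹ := by
    rw [← (HurwitzZeta.hasSum_nat_cosKernel₀ a hy0).tsum_eq]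
    apply tsum_of_norm_bounded hg
    intro n
    rw [Real.norm_eq_abs, abs_mul, abs_mul, abs_two, abs_of_pos (Real.exp_pos _)]
    have h1 : |Real.cos (2 * Real.pi * a * (n + 1))| ≤ 1 := Real.abs_cos_le_one _
    have h2 : Real.exp (-Real.pi * (n + 1) ^ 2 * y) ≤
        Real.exp (-(Real.pi * y)) * Real.exp (-(Real.pi * y)) ^ n := by
      rw [← pow_succ', ← Real.exp_nat_mul]
      apply Real.exp_le_exp.2
      have h3 : (0 : ℝ) ≤ n := Nat.cast_nonneg n
      push_cast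
      have h4 : 0 < Real.pi * y := by positivity
      nlinarith [mul_nonneg h4.le (mul_nonneg h3 (by linarith : (0 : ℝ) ≤ (n : ℝ) + 1))]
    calc 2 * |Real.cos (2 * Real.pi * a * (n + 1))| * Real.exp (-Real.pi * (n + 1) ^ 2 * y)
        ≤ 2 * 1 * Real.exp (-Real.pi * (n + 1) ^ 2 * y) := by gcongr
      _ ≤ 2 * 1 * (Real.exp (-(Real.pi * y)) * Real.exp (-(Real.pi * y)) ^ n) := by gcongr
      _ = _ := by ring
  rw [Real.norm_eq_abs] at hb
  refine hb.trans ?_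
  rw [← div_eq_mul_inv, div_mul_eq_mul_div]
  apply div_le_div_of_nonneg_left (by positivity) (by linarith) (by linarith)

open Classical in
/-- The class of `b` is `x ∈ b.re + D ℤ`, `y ∈ b.im + D ℤ`, and `exp (-s nm z) = exp (-s x²) exp (-s y²)`: the sum is a product of two sums `∑_n exp (-s D² (n + a)²) = evenKernel a (s D² / π)` (`HurwitzZeta.hasSum_int_evenKernel`), `a = b.re / D`, and
`evenKernel a x = x^(-1/2) cosKernel a (1/x)` (`HurwitzZeta.evenKernel_functional_equation`), `|cosKernel a y - 1| ≤ C exp (-p y)` for `y ≥ 1` (`HurwitzZeta.isBigO_atTop_cosKernel_sub`; only the finitely many `a = j / D`; for `y` in a compact set use `cosKernel a y = ∑ cos(2 π a n) exp(-π n² y)`,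
`|..| ≤ cosKernel 0 y`). -/
theorem theta_class (D : ℕ) (hD : 0 < D) : ∃ c C : ℝ, 0 < c ∧ 0 < C ∧ ∀ (b : G) (s : ℝ), 0 < s → s ≤ 1 →
    |(∑' z : G, if cg D z b then Real.exp (-(s * nm z)) else 0) - Real.pi / ((D : ℝ) ^ 2 * s)| ≤ C / s * Real.exp (-(c / s)) := by
  have hπ := Real.pi_pos
  have hDr : (0 : ℝ) < D := by exact_mod_cast hD
  obtain ⟨K, hK, hcos⟩ := th_cos (Real.pi / (D : ℝ) ^ 2) (by positivity)
  refine ⟨Real.pi ^ 2 / (D : ℝ) ^ 2, Real.pi / (D : ℝ) ^ 2 * (K * (2 + K)), by positivity, by positivity, ?_⟩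
  intro b s hs hs1
  set t := s * D ^ 2 / Real.pi with ht
  have ht0 : 0 < t := by positivity
  set c1 := HurwitzZeta.cosKernel (((b.re : ℝ) / D : ℝ) : UnitAddCircle) (1 / t) with hc1
  set c2 := HurwitzZeta.cosKernel (((b.im : ℝ) / D : ℝ) : UnitAddCircle) (1 / t) with hc2
  have hsum : (∑' z : G, if cg D z b then Real.exp (-(s * nm z)) else 0) =
      HurwitzZeta.evenKernel (((b.re : ℝ) / D : ℝ) : UnitAddCircle) t *
        HurwitzZeta.evenKernel (((b.im : ℝ) / D : ℝ) : UnitAddCircle) t := by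
    have h1 := th_one D hD b.re s hs
    have h2 := th_one D hD b.im s hs
    have h3 : Summable (fun p : ℤ × ℤ =>
        (if (D : ℤ) ∣ p.1 - b.re then Real.exp (-(s * (p.1 : ℝ) ^ 2)) else 0) *
        (if (D : ℤ) ∣ p.2 - b.im then Real.exp (-(s * (p.2 : ℝ) ^ 2)) else 0)) := by
      apply h1.summable.mul_of_nonneg h2.summable
      · intro x
        simp only [Pi.zero_apply]
        split_ifs
        · exact (Real.exp_pos _).le
        · exact le_rfl
      · intro x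
        simp only [Pi.zero_apply]
        split_ifs
        · exact (Real.exp_pos _).le
        · exact le_rfl
    have h4 := h1.mul h2 h3
    rw [← h4.tsum_eq, ← thE.tsum_eq]
    apply tsum_congr
    intro p
    have e : cg D (thE p) b ↔ (D : ℤ) ∣ p.1 - b.re ∧ (D : ℤ) ∣ p.2 - b.im := Iff.rfl
    by_cases ha : (D : ℤ) ∣ p.1 - b.re <;> by_cases hb : (D : ℤ) ∣ p.2 - b.im
    · rw [if_pos (e.2 ⟨ha, hb⟩), if_pos ha, if_pos hb, th_nm, ← Real.exp_add]
      congr 1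
      ring
    · rw [if_neg (fun h => hb (e.1 h).2), if_neg hb, mul_zero]
    · rw [if_neg (fun h => ha (e.1 h).1), if_neg ha, zero_mul]
    · rw [if_neg (fun h => ha (e.1 h).1), if_neg ha, zero_mul]
  have hprod : HurwitzZeta.evenKernel (((b.re : ℝ) / D : ℝ) : UnitAddCircle) t *
        HurwitzZeta.evenKernel (((b.im : ℝ) / D : ℝ) : UnitAddCircle) t =
      Real.pi / ((D : ℝ) ^ 2 * s) * (c1 * c2) := by
    rw [HurwitzZeta.evenKernel_functional_equation, HurwitzZeta.evenKernel_functional_equation]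
    have h5 : t ^ (1 / 2 : ℝ) * t ^ (1 / 2 : ℝ) = t := by
      rw [← Real.rpow_add ht0]
      norm_num
    have h6 : 1 / t = Real.pi / ((D : ℝ) ^ 2 * s) := by
      rw [ht, one_div_div]
      ring
    calc 1 / t ^ (1 / 2 : ℝ) * c1 * (1 / t ^ (1 / 2 : ℝ) * c2)
        = 1 / (t ^ (1 / 2 : ℝ) * t ^ (1 / 2 : ℝ)) * (c1 * c2) := by
          field_simp
      _ = _ := by rw [h5, h6]
  have hy : Real.pi / (D : ℝ) ^ 2 ≤ 1 / t := by
    rw [ht, one_div_div]
    apply div_le_div_of_nonneg_left hπ.le (by positivity)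
    nlinarith [sq_nonneg (D : ℝ)]
  have hE : Real.exp (-(Real.pi * (1 / t))) = Real.exp (-(Real.pi ^ 2 / (D : ℝ) ^ 2 / s)) := by
    congr 2
    rw [ht, one_div_div]
    field_simp
  have b1 := hcos ((b.re : ℝ) / D) (1 / t) hy
  have b2 := hcos ((b.im : ℝ) / D) (1 / t) hy
  rw [← hc1, hE] at b1
  rw [← hc2, hE] at b2
  set E := Real.exp (-(Real.pi ^ 2 / (D : ℝ) ^ 2 / s)) with hEdef
  have hE0 : 0 < E := Real.exp_pos _
  have hE1 : E ≤ 1 := by
    rw [hEdef, Real.exp_le_one_iff]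
    have : 0 < Real.pi ^ 2 / (D : ℝ) ^ 2 / s := by positivity
    linarith
  have h7 : |c1 * c2 - 1| ≤ K * (2 + K) * E := by
    have e1 : c1 * c2 - 1 = (c1 - 1) * (c2 - 1) + (c1 - 1) + (c2 - 1) := by ring
    rw [e1]
    have a1 : |(c1 - 1) * (c2 - 1)| ≤ (K * E) * (K * E) := by
      rw [abs_mul]
      exact mul_le_mul b1 b2 (abs_nonneg _) (by positivity)
    have a2 : (K * E) * (K * E) ≤ K * K * E := by
      have : K * E * (K * E) = K * K * E * E := by ring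
      rw [this]
      exact mul_le_of_le_one_right (by positivity) hE1
    calc |(c1 - 1) * (c2 - 1) + (c1 - 1) + (c2 - 1)|
        ≤ |(c1 - 1) * (c2 - 1)| + |c1 - 1| + |c2 - 1| := abs_add_three _ _ _
      _ ≤ K * K * E + K * E + K * E := by linarith
      _ = K * (2 + K) * E := by ring
  rw [hsum, hprod]
  have e2 : Real.pi / ((D : ℝ) ^ 2 * s) * (c1 * c2) - Real.pi / ((D : ℝ) ^ 2 * s) =
      Real.pi / ((D : ℝ) ^ 2 * s) * (c1 * c2 - 1) := by ring
  rw [e2, abs_mul, abs_of_pos (by positivity : 0 < Real.pi / ((D : ℝ) ^ 2 * s))]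
  calc Real.pi / ((D : ℝ) ^ 2 * s) * |c1 * c2 - 1|
      ≤ Real.pi / ((D : ℝ) ^ 2 * s) * (K * (2 + K) * E) := by gcongr
    _ = _ := by field_simp

end Pool.Agent.ECM

end

/-! ### from `Lib_MP_f1a94e_ecm.ThH` -/

section

/-!
# Piece M-THH: bounds for the exponential series of a character
-/

set_option autoImplicit false

namespace Pool.Agent.ECM

open Finset Pool.Agent.GaussMR Pool.Agent.GaussCM Pool.Agent.OmAll

private theorem hh_cg_iff (D : ℕ) (u v : G) : cg D u v ↔ ((D : ℤ) : G) ∣ u - v := by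
  unfold cg
  rw [Zsqrtd.intCast_dvd]
  simp

private theorem hh_cg_refl (D : ℕ) (u : G) : cg D u u := by
  rw [hh_cg_iff]; simp

private theorem hh_cg_symm {D : ℕ} {u v : G} (h : cg D u v) : cg D v u := by
  rw [hh_cg_iff] at *
  rw [← neg_sub]; exact (dvd_neg).2 h

private theorem hh_cg_trans {D : ℕ} {u v w : G} (h : cg D u v) (h' : cg D v w) : cg D u w := by
  rw [hh_cg_iff] at *
  have : u - w = (u - v) + (v - w) := by ring
  rw [this]; exact dvd_add h h'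

private theorem hh_cg_mul {D : ℕ} {u v : G} (w : G) (h : cg D u v) : cg D (w * u) (w * v) := by
  rw [hh_cg_iff] at *
  rw [← mul_sub]; exact dvd_mul_of_dvd_right h w

private theorem hh_cg_mul' {D : ℕ} {u v : G} (w : G) (h : cg D u v) : cg D (u * w) (v * w) := by
  rw [mul_comm u, mul_comm v]; exact hh_cg_mul w h

/-- representative with coordinates in `[0, D)` -/
private def hhrd (D : ℕ) (z : G) : G := ⟨z.re % D, z.im % D⟩

private noncomputable def hhR (D : ℕ) : Finset G :=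
  open Classical in ((range D ×ˢ range D).image (fun w : ℕ × ℕ => (⟨(w.1 : ℤ), (w.2 : ℤ)⟩ : G)))

private theorem hh_mem (D : ℕ) (z : G) :
    z ∈ hhR D ↔ (0 ≤ z.re ∧ z.re < D) ∧ (0 ≤ z.im ∧ z.im < D) := by
  classical
  unfold hhR
  rw [mem_image]
  constructor
  · rintro ⟨w, hw, rfl⟩
    rw [mem_product, mem_range, mem_range] at hw
    refine ⟨⟨by simp, by simpa using hw.1⟩, ⟨by simp, by simpa using hw.2⟩⟩
  · rintro ⟨⟨h1, h2⟩, h3, h4⟩
    refine ⟨(z.re.toNat, z.im.toNat), ?_, ?_⟩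
    · rw [mem_product, mem_range, mem_range]
      constructor
      · show z.re.toNat < D
        omega
      · show z.im.toNat < D
        omega
    · apply Zsqrtd.ext
      · simp [h1]
      · simp [h3]

private theorem hh_card (D : ℕ) : ((hhR D).card : ℝ) ≤ (D : ℝ) ^ 2 := by
  classical
  have : (hhR D).card ≤ D ^ 2 := by
    unfold hhR
    refine le_trans card_image_le ?_
    rw [card_product, card_range]
    exact le_of_eq (by ring)
  exact_mod_cast this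

private theorem hh_rd_mem (D : ℕ) (hD : 0 < D) (z : G) : hhrd D z ∈ hhR D := by
  rw [hh_mem]
  have hD' : (0 : ℤ) < D := by exact_mod_cast hD
  refine ⟨⟨Int.emod_nonneg _ hD'.ne', Int.emod_lt_of_pos _ hD'⟩,
    ⟨Int.emod_nonneg _ hD'.ne', Int.emod_lt_of_pos _ hD'⟩⟩

private theorem hh_rd_cg (D : ℕ) (z : G) : cg D (hhrd D z) z := by
  unfold cg hhrd
  constructor
  · have := Int.emod_add_mul_ediv z.re D
    exact ⟨-(z.re / D), by simp only; linarith⟩
  · have := Int.emod_add_mul_ediv z.im D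
    exact ⟨-(z.im / D), by simp only; linarith⟩

private theorem hh_unique (D : ℕ) {u v : G} (hu : u ∈ hhR D) (hv : v ∈ hhR D)
    (h : cg D u v) : u = v := by
  rw [hh_mem] at hu hv
  obtain ⟨h1, h2⟩ := h
  have key : ∀ a b : ℤ, 0 ≤ a → a < D → 0 ≤ b → b < D → (D : ℤ) ∣ a - b → a = b := by
    intro a b ha ha' hb hb' hd
    have := Int.eq_zero_of_abs_lt_dvd hd (by rw [abs_lt]; constructor <;> linarith)
    linarith
  exact Zsqrtd.ext (key _ _ hu.1.1 hu.1.2 hv.1.1 hv.1.2 h1) (key _ _ hu.2.1 hu.2.2 hv.2.1 hv.2.2 h2)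

private theorem hh_sum_zero (D : ℕ) (hD : 0 < D) (χ : G → ℂ) (hχ : Chi D χ) (hp : ¬ Pri D χ) :
    ∑ c ∈ hhR D, χ c = 0 := by
  unfold Pri at hp
  push Not at hp
  obtain ⟨z, ⟨w, hw⟩, hz⟩ := hp
  have hw' : cg D (w * z) 1 := by rwa [mul_comm]
  have h1 : ∑ c ∈ hhR D, χ c = ∑ c ∈ hhR D, χ (z * c) := by
    refine (Finset.sum_nbij' (fun c => hhrd D (z * c)) (fun c => hhrd D (w * c)) ?_ ?_ ?_ ?_ ?_).symm
    · intro c _; exact hh_rd_mem D hD _
    · intro c _; exact hh_rd_mem D hD _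
    · intro c hc
      refine hh_unique D (hh_rd_mem D hD _) hc ?_
      refine hh_cg_trans (hh_rd_cg D _) ?_
      refine hh_cg_trans (hh_cg_mul w (hh_rd_cg D _)) ?_
      rw [← mul_assoc]
      have := hh_cg_mul' c hw'
      rwa [one_mul] at this
    · intro c hc
      refine hh_unique D (hh_rd_mem D hD _) hc ?_
      refine hh_cg_trans (hh_rd_cg D _) ?_
      refine hh_cg_trans (hh_cg_mul z (hh_rd_cg D _)) ?_
      rw [← mul_assoc]
      have := hh_cg_mul' c hw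
      rwa [one_mul] at this
    · intro c _
      exact (hχ.per _ _ (hh_rd_cg D _)).symm
  have h2 : ∑ c ∈ hhR D, χ (z * c) = χ z * ∑ c ∈ hhR D, χ c := by
    rw [mul_sum]
    exact sum_congr rfl (fun c _ => hχ.mul z c)
  rw [h2] at h1
  have h3 : (χ z - 1) * ∑ c ∈ hhR D, χ c = 0 := by
    rw [sub_mul, one_mul, ← h1, sub_self]
  rcases mul_eq_zero.1 h3 with h4 | h4
  · exact absurd (sub_eq_zero.1 h4) hz
  · exact h4


private theorem hh_term_le {D : ℕ} {χ : G → ℂ} (hχ : Chi D χ) (s : ℝ) (z : G) :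
    ‖χ z * (Real.exp (-(s * nm z)) : ℂ)‖ ≤ Real.exp (-(s * nm z)) := by
  rw [norm_mul, Complex.norm_real, Real.norm_eq_abs, abs_of_pos (Real.exp_pos _)]
  have h1 := hχ.le z
  have h2 := Real.exp_pos (-(s * nm z))
  nlinarith

private theorem hh_summ {D : ℕ} {χ : G → ℂ} (hχ : Chi D χ) (s : ℝ) (hs : 0 < s) :
    Summable (fun z : G => χ z * (Real.exp (-(s * nm z)) : ℂ)) :=
  Summable.of_norm_bounded (summ_exp s hs) (fun z => hh_term_le hχ s z)

private theorem hh_zero {D : ℕ} {χ : G → ℂ} (hχ : Chi D χ) : χ 0 = 0 := by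
  apply hχ.even
  rw [nm_zero]; decide

open Classical in
private theorem hh_split (D : ℕ) (hD : 0 < D) (χ : G → ℂ) (hχ : Chi D χ) (s : ℝ) (hs : 0 < s) :
    HH χ s = ∑ c ∈ hhR D, χ c * ((∑' z : G, if cg D z c then Real.exp (-(s * nm z)) else 0 : ℝ) : ℂ) := by
  have hsum : ∀ c : G, Summable (fun z : G => if cg D z c then Real.exp (-(s * nm z)) else 0) := by
    intro c
    refine Summable.of_nonneg_of_le (fun z => ?_) (fun z => ?_) (summ_exp s hs)
    · split_ifs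
      · exact (Real.exp_pos _).le
      · exact le_rfl
    · split_ifs
      · exact le_rfl
      · exact (Real.exp_pos _).le
  have h1 : ∀ c ∈ hhR D, χ c * ((∑' z : G, if cg D z c then Real.exp (-(s * nm z)) else 0 : ℝ) : ℂ) =
      ∑' z : G, χ c * ((if cg D z c then Real.exp (-(s * nm z)) else 0 : ℝ) : ℂ) := by
    intro c _
    rw [Complex.ofReal_tsum, tsum_mul_left]
  rw [Finset.sum_congr rfl h1, ← Summable.tsum_finsetSum]
  · unfold HH
    apply tsum_congr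
    intro z
    rw [Finset.sum_eq_single (hhrd D z)]
    · rw [if_pos (hh_cg_symm (hh_rd_cg D z)), hχ.per _ _ (hh_rd_cg D z)]
    · intro c hc hne
      have hnot : ¬ cg D z c := by
        intro h
        exact hne (hh_unique D hc (hh_rd_mem D hD z) (hh_cg_symm (hh_cg_trans (hh_rd_cg D z) h)))
      rw [if_neg hnot]
      simp
    · intro h
      exact absurd (hh_rd_mem D hD z) h
  · intro c _
    have := (hsum c)
    have h2 : Summable (fun z : G => ((if cg D z c then Real.exp (-(s * nm z)) else 0 : ℝ) : ℂ)) :=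
      Complex.ofRealCLM.summable this
    exact h2.mul_left _

/-- Split `HH χ s` into the `D²` residue classes: `∑_b χ b (π / (D² s) + O(exp (-c/s) / s))` and `∑_(b mod D) χ b = 0` since `χ` is not principal (`χ c ≠ 1` for some invertible `c`, multiplication by `c` permutes the classes; see the proof of `typeChi`). -/
theorem HH_small (D : ℕ) (hD : 0 < D) (χ : G → ℂ) (hχ : Chi D χ) (hnp : ¬ Pri D χ) : ∃ c C : ℝ, 0 < c ∧ 0 < C ∧
    ∀ s : ℝ, 0 < s → s ≤ 1 → ‖HH χ s‖ ≤ C / s * Real.exp (-(c / s)) := by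
  classical
  obtain ⟨c, C, hc, hC, h⟩ := theta_class D hD
  have hD' : (0 : ℝ) < D := by exact_mod_cast hD
  refine ⟨c, (D : ℝ) ^ 2 * C, hc, by positivity, ?_⟩
  intro s hs hs1
  rw [hh_split D hD χ hχ s hs]
  have h0 := hh_sum_zero D hD χ hχ hnp
  have h2 : ∑ b ∈ hhR D, χ b * ((∑' z : G, if cg D z b then Real.exp (-(s * nm z)) else 0 : ℝ) : ℂ) =
      ∑ b ∈ hhR D, χ b * (((∑' z : G, if cg D z b then Real.exp (-(s * nm z)) else 0) - Real.pi / ((D : ℝ) ^ 2 * s) : ℝ) : ℂ) := by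
    have : ∑ b ∈ hhR D, χ b * ((Real.pi / ((D : ℝ) ^ 2 * s) : ℝ) : ℂ) = 0 := by
      rw [← Finset.sum_mul, h0, zero_mul]
    rw [← sub_zero (∑ b ∈ hhR D, χ b * ((∑' z : G, if cg D z b then Real.exp (-(s * nm z)) else 0 : ℝ) : ℂ)), ← this,
      ← Finset.sum_sub_distrib]
    apply Finset.sum_congr rfl
    intro b _
    push_cast
    ring
  rw [h2]
  have hE : 0 ≤ C / s * Real.exp (-(c / s)) := by positivity
  calc ‖∑ b ∈ hhR D, χ b * (((∑' z : G, if cg D z b then Real.exp (-(s * nm z)) else 0) - Real.pi / ((D : ℝ) ^ 2 * s) : ℝ) : ℂ)‖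
      ≤ ∑ b ∈ hhR D, ‖χ b * (((∑' z : G, if cg D z b then Real.exp (-(s * nm z)) else 0) - Real.pi / ((D : ℝ) ^ 2 * s) : ℝ) : ℂ)‖ :=
        norm_sum_le _ _
    _ ≤ ∑ b ∈ hhR D, C / s * Real.exp (-(c / s)) := by
        apply Finset.sum_le_sum
        intro b _
        rw [norm_mul, Complex.norm_real, Real.norm_eq_abs]
        have h3 := h b s hs hs1
        have h4 := hχ.le b
        calc ‖χ b‖ * _ ≤ 1 * _ := mul_le_mul_of_nonneg_right h4 (abs_nonneg _)
          _ = _ := one_mul _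
          _ ≤ _ := h3
    _ = (hhR D).card * (C / s * Real.exp (-(c / s))) := by rw [Finset.sum_const, nsmul_eq_mul]
    _ ≤ (D : ℝ) ^ 2 * (C / s * Real.exp (-(c / s))) := mul_le_mul_of_nonneg_right (hh_card D) hE
    _ = _ := by ring

/-- `χ 0 = 0`, `nm z ≥ 1` otherwise, `exp (-s nm z) ≤ exp (-s/2) exp (-nm z / 2)` for `s ≥ 1`. -/
theorem HH_large (D : ℕ) (χ : G → ℂ) (hχ : Chi D χ) : ∃ C : ℝ, 0 < C ∧ ∀ s : ℝ, 1 ≤ s → ‖HH χ s‖ ≤ C * Real.exp (-(s / 2)) := by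
  have hS := summ_exp (1 / 2) (by norm_num)
  have hS0 : 0 ≤ ∑' z : G, Real.exp (-((1 / 2 : ℝ) * nm z)) := tsum_nonneg (fun z => (Real.exp_pos _).le)
  refine ⟨(∑' z : G, Real.exp (-((1 / 2 : ℝ) * nm z))) + 1, by positivity, ?_⟩
  intro s hs
  have hs0 : 0 < s := by linarith
  have hle : ∀ z : G, ‖χ z * (Real.exp (-(s * nm z)) : ℂ)‖ ≤ Real.exp (-((1 / 2 : ℝ) * nm z)) * Real.exp (-(s / 2)) := by
    intro z
    by_cases hz : z = 0
    · subst hz
      rw [hh_zero hχ, zero_mul, norm_zero]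
      positivity
    · refine le_trans (hh_term_le hχ s z) ?_
      rw [← Real.exp_add]
      apply Real.exp_le_exp.2
      have h1 : (1 : ℝ) ≤ nm z := by exact_mod_cast nm_pos hz
      nlinarith
  have hsum2 : Summable (fun z : G => Real.exp (-((1 / 2 : ℝ) * nm z)) * Real.exp (-(s / 2))) := hS.mul_right _
  calc ‖HH χ s‖ ≤ ∑' z : G, Real.exp (-((1 / 2 : ℝ) * nm z)) * Real.exp (-(s / 2)) := by
        unfold HH
        exact tsum_of_norm_bounded hsum2.hasSum hle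
    _ = (∑' z : G, Real.exp (-((1 / 2 : ℝ) * nm z))) * Real.exp (-(s / 2)) := tsum_mul_right
    _ ≤ _ := mul_le_mul_of_nonneg_right (by linarith) (Real.exp_pos _).le

/-- uniform convergence on `[δ, ∞)` (`continuousOn_tsum`) -/
theorem HH_cont (D : ℕ) (χ : G → ℂ) (hχ : Chi D χ) : ContinuousOn (HH χ) (Set.Ioi 0) := by
  have key : ∀ δ : ℝ, 0 < δ → ContinuousOn (HH χ) (Set.Ioi δ) := by
    intro δ hδ
    refine continuousOn_tsum (u := fun z : G => Real.exp (-(δ * nm z))) ?_ (summ_exp δ hδ) ?_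
    · intro z
      apply Continuous.continuousOn
      fun_prop
    · intro z s hs
      refine le_trans (hh_term_le hχ s z) ?_
      apply Real.exp_le_exp.2
      have h1 : (0 : ℝ) ≤ nm z := Nat.cast_nonneg _
      have h2 : δ < s := hs
      nlinarith
  intro s hs
  have hs' : 0 < s := hs
  have h1 := key (s / 2) (by linarith)
  have h2 : ContinuousAt (HH χ) s := h1.continuousAt (Ioi_mem_nhds (by linarith))
  exact h2.continuousWithinAt

open Classical in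
private theorem th_summ (u : ℝ) (hu : 0 < u) : Summable (fun z : G => if z = 0 then 0 else Real.exp (-(u * nm z))) := by
  refine Summable.of_nonneg_of_le (fun z => ?_) (fun z => ?_) (summ_exp u hu)
  · split_ifs
    · exact le_rfl
    · exact (Real.exp_pos _).le
  · split_ifs
    · exact (Real.exp_pos _).le
    · exact le_rfl

/-- `theta_class` with `D = 1` (the constant term `1` is the term `z = 0`) -/
theorem Th_small : ∃ c C : ℝ, 0 < c ∧ 0 < C ∧ ∀ u : ℝ, 0 < u → u ≤ 1 → |Th u - Real.pi / u + 1| ≤ C / u * Real.exp (-(c / u)) := by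
  classical
  obtain ⟨c, C, hc, hC, h⟩ := theta_class 1 one_pos
  refine ⟨c, C, hc, hC, ?_⟩
  intro u hu hu1
  have h1 := h 0 u hu hu1
  have h2 : (∑' z : G, if cg 1 z 0 then Real.exp (-(u * nm z)) else 0) = Th u + 1 := by
    have e1 : ∀ z : G, (if cg 1 z 0 then Real.exp (-(u * nm z)) else 0) =
        (if z = 0 then 0 else Real.exp (-(u * nm z))) + (if z = 0 then 1 else 0) := by
      intro z
      have : cg 1 z 0 := by unfold cg; simp
      rw [if_pos this]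
      by_cases hz : z = 0
      · subst hz; simp
      · simp [hz]
    rw [tsum_congr e1, Summable.tsum_add (th_summ u hu)]
    · rw [tsum_ite_eq]
      rfl
    · exact (hasSum_ite_eq (0 : G) (1 : ℝ)).summable
  rw [h2] at h1
  have h3 : Th u + 1 - Real.pi / (((1 : ℕ) : ℝ) ^ 2 * u) = Th u - Real.pi / u + 1 := by
    push_cast
    rw [one_pow, one_mul]; ring
  rw [h3] at h1
  exact h1

/-- as `HH_large`, `HH_cont` -/
theorem Th_large : (∀ u : ℝ, 0 < u → 0 ≤ Th u) ∧ (∃ C : ℝ, 0 < C ∧ ∀ u : ℝ, 1 ≤ u → Th u ≤ C * Real.exp (-(u / 2))) ∧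
    ContinuousOn Th (Set.Ioi 0) := by
  classical
  refine ⟨?_, ?_, ?_⟩
  · intro u _
    unfold Th
    apply tsum_nonneg
    intro z
    split_ifs
    · exact le_rfl
    · exact (Real.exp_pos _).le
  · have hS := summ_exp (1 / 2) (by norm_num)
    have hS0 : 0 ≤ ∑' z : G, Real.exp (-((1 / 2 : ℝ) * nm z)) := tsum_nonneg (fun z => (Real.exp_pos _).le)
    refine ⟨(∑' z : G, Real.exp (-((1 / 2 : ℝ) * nm z))) + 1, by positivity, ?_⟩
    intro u hu
    have hu0 : 0 < u := by linarith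
    have hsum2 : Summable (fun z : G => Real.exp (-((1 / 2 : ℝ) * nm z)) * Real.exp (-(u / 2))) := hS.mul_right _
    calc Th u ≤ ∑' z : G, Real.exp (-((1 / 2 : ℝ) * nm z)) * Real.exp (-(u / 2)) := by
          unfold Th
          refine Summable.tsum_le_tsum (fun z => ?_) (th_summ u hu0) hsum2
          split_ifs with hz
          · positivity
          · rw [← Real.exp_add]
            apply Real.exp_le_exp.2
            have h1 : (1 : ℝ) ≤ nm z := by exact_mod_cast nm_pos hz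
            nlinarith
      _ = (∑' z : G, Real.exp (-((1 / 2 : ℝ) * nm z))) * Real.exp (-(u / 2)) := tsum_mul_right
      _ ≤ _ := mul_le_mul_of_nonneg_right (by linarith) (Real.exp_pos _).le
  · have key : ∀ δ : ℝ, 0 < δ → ContinuousOn Th (Set.Ioi δ) := by
      intro δ hδ
      unfold Th
      refine continuousOn_tsum (u := fun z : G => Real.exp (-(δ * nm z))) ?_ (summ_exp δ hδ) ?_
      · intro z
        apply Continuous.continuousOn
        split_ifs
        · exact continuous_const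
        · fun_prop
      · intro z s hs
        have h1 : (0 : ℝ) ≤ nm z := Nat.cast_nonneg _
        have h2 : δ < s := hs
        split_ifs
        · rw [norm_zero]; positivity
        · rw [Real.norm_eq_abs, abs_of_pos (Real.exp_pos _)]
          apply Real.exp_le_exp.2
          nlinarith
    intro s hs
    have hs' : 0 < s := hs
    have h1 := key (s / 2) (by linarith)
    have h2 : ContinuousAt Th s := h1.continuousAt (Ioi_mem_nhds (by linarith))
    exact h2.continuousWithinAt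

end Pool.Agent.ECM

end

/-! ### from `Lib_MP_f1a94e_ecm.LamId` -/

section

/-!
# Piece M-LAMID: von Mangoldt identity on odd Gaussian integers
-/

set_option autoImplicit false

namespace Pool.Agent.ECM

open Finset Pool.Agent.GaussMR Pool.Agent.GaussCM Pool.Agent.OmAll

private theorem lami_nm_pow (p : G) (j : ℕ) : nm (p ^ j) = nm p ^ j := by
  induction j with
  | zero => rw [pow_zero, pow_zero, nm_one]
  | succ j ih => rw [pow_succ, pow_succ, nm_mul, ih]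

private theorem lami_assoc_nm {p q : G} (h : Associated p q) : nm p = nm q :=
  Nat.dvd_antisymm (nm_dvd h.dvd) (nm_dvd h.symm.dvd)

private theorem lami_not_dvd {w a : G} {Y : ℝ} (hw : 5 ≤ nm w) (ha : Odd (nm a))
    (hY : (nm a : ℝ) ≤ Y) : ¬ w ^ ⌊Y⌋₊ ∣ a := by
  intro h
  have h1 := nm_dvd h
  rw [lami_nm_pow] at h1
  have h2 := Nat.le_of_dvd (nm_pos_of_odd ha) h1
  have h3 : nm a ≤ ⌊Y⌋₊ := Nat.le_floor hY
  have h4 : ⌊Y⌋₊ < nm w ^ ⌊Y⌋₊ := Nat.lt_pow_self (by omega)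
  omega

open Classical in
private theorem lami_card {w q a : G} {Y : ℝ} (hw : 5 ≤ nm w) (hwq : Associated w q)
    (hq0 : q ≠ 0) (ha : Odd (nm a)) (hY : (nm (q * a) : ℝ) ≤ Y) :
    ((Icc 1 ⌊Y⌋₊).filter (fun j => w ^ j ∣ q * a)).card =
      ((Icc 1 ⌊Y⌋₊).filter (fun j => w ^ j ∣ a)).card + 1 := by
  have hY' : (nm a : ℝ) ≤ Y := by
    refine le_trans ?_ hY
    rw [nm_mul]
    have := nm_pos hq0
    exact_mod_cast Nat.le_mul_of_pos_left _ this
  have hnd := lami_not_dvd hw ha hY'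
  have hw0 : w ≠ 0 := by
    rintro rfl
    rw [nm_zero] at hw
    omega
  have hiff : ∀ j, w ^ (j + 1) ∣ q * a ↔ w ^ j ∣ a := by
    intro j
    rw [pow_succ, mul_comm (w ^ j) w, (hwq.mul_right a).symm.dvd_iff_dvd_right]
    exact mul_dvd_mul_iff_left hw0
  have hN : 1 ≤ ⌊Y⌋₊ := by
    rw [Nat.one_le_floor_iff]
    refine le_trans ?_ hY
    have : 0 < nm (q * a) := by
      rw [nm_mul]
      exact Nat.mul_pos (nm_pos hq0) (nm_pos_of_odd ha)
    exact_mod_cast this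
  have e : (Icc 1 ⌊Y⌋₊).filter (fun j => w ^ j ∣ q * a) =
      insert 1 (((Icc 1 ⌊Y⌋₊).filter (fun j => w ^ j ∣ a)).image (fun j => j + 1)) := by
    ext j
    rw [mem_insert, mem_image, mem_filter, mem_Icc]
    constructor
    · rintro ⟨⟨h1, h2⟩, h3⟩
      by_cases hj : j = 1
      · exact Or.inl hj
      · right
        obtain ⟨i, rfl⟩ : ∃ i, j = i + 1 := ⟨j - 1, by omega⟩
        rw [hiff] at h3
        exact ⟨i, by rw [mem_filter, mem_Icc]; exact ⟨⟨by omega, by omega⟩, h3⟩, rfl⟩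
    · rintro (rfl | ⟨i, hi, rfl⟩)
      · refine ⟨⟨le_rfl, hN⟩, ?_⟩
        have := (hiff 0).2 (by simp)
        simpa using this
      · rw [mem_filter, mem_Icc] at hi
        obtain ⟨⟨h1, h2⟩, h3⟩ := hi
        refine ⟨⟨by omega, ?_⟩, (hiff i).2 h3⟩
        by_contra hc
        have : i = ⌊Y⌋₊ := by omega
        rw [this] at h3
        exact hnd h3
  rw [e, card_insert_of_notMem, card_image_of_injective _ (fun _ _ h => Nat.succ_injective h)]
  intro h
  rw [mem_image] at h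
  obtain ⟨i, hi, hi2⟩ := h
  rw [mem_filter, mem_Icc] at hi
  omega

open Classical in
/-- Induction on the number of prime factors (`CP_exists`, `CP_assoc`: exactly one prime of `CP Y` in each class of associates of odd primes of norm at most `Y`): if `z = p z'` with `p ∈ CP Y` then `p^j ∣ z ↔ p^(j-1) ∣ z'` and `q^j ∣ z ↔ q^j ∣ z'` for `q ∈ CP Y`, `q ≠ p`. -/
theorem lam_id (z : G) (hz : Odd (nm z)) (Y : ℝ) (hY : (nm z : ℝ) ≤ Y) :
    Real.log (nm z) = ∑ p ∈ CP Y, ∑ j ∈ (Icc 1 ⌊Y⌋₊).filter (fun j => p ^ j ∣ z), Real.log (nm p) := by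
  induction z using UniqueFactorizationMonoid.induction_on_prime with
  | h₁ => exact absurd rfl (ne_zero_of_odd hz)
  | h₂ u hu =>
    have h1 : nm u = 1 := nm_eq_one_iff.2 hu
    rw [h1, Nat.cast_one, Real.log_one]
    symm
    refine sum_eq_zero fun p hp => ?_
    have e : (Icc 1 ⌊Y⌋₊).filter (fun j => p ^ j ∣ u) = ∅ := by
      rw [filter_eq_empty_iff]
      intro j hj h
      rw [mem_Icc] at hj
      have h2 : p ∣ u := (dvd_pow_self p (by omega)).trans h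
      exact (CPS.mem_CP.1 hp).2.1.not_isUnit (isUnit_of_dvd_unit h2 hu)
    rw [e, sum_empty]
  | h₃ a q ha hq ih =>
    have ho := odd_nm_mul.1 hz
    have hq0 := hq.ne_zero
    have hqa : (nm q : ℝ) ≤ Y := by
      refine le_trans ?_ hY
      rw [nm_mul]
      exact_mod_cast Nat.le_mul_of_pos_right _ (nm_pos ha)
    have haY : (nm a : ℝ) ≤ Y := by
      refine le_trans ?_ hY
      rw [nm_mul]
      exact_mod_cast Nat.le_mul_of_pos_left _ (nm_pos hq0)
    have ih' := ih ho.2 haY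
    obtain ⟨w, hw, hwq⟩ := CP_exists hq ho.1 hqa
    have hw5 := CP_nm hw
    rw [nm_mul, Nat.cast_mul, Real.log_mul (by exact_mod_cast (nm_pos hq0).ne')
      (by exact_mod_cast (nm_pos ha).ne'), ih', ← lami_assoc_nm hwq]
    rw [← add_sum_erase _ _ hw, ← add_sum_erase _ _ hw, ← add_assoc]
    congr 1
    · rw [sum_const, sum_const, lami_card hw5 hwq hq0 ho.2 hY, nsmul_eq_mul, nsmul_eq_mul]
      push_cast
      ring
    · refine sum_congr rfl fun p hp => ?_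
      rw [mem_erase] at hp
      refine sum_congr ?_ fun _ _ => rfl
      refine filter_congr fun j _ => ?_
      have hpp := (CPS.mem_CP.1 hp.2).2.1
      have hcop : IsCoprime (p ^ j) q := by
        refine IsCoprime.pow_left ?_
        rw [hpp.irreducible.coprime_iff_not_dvd]
        intro hd
        have has : Associated p q := hpp.associated_of_dvd hq hd
        exact hp.1 (CP_assoc hp.2 hw (has.trans hwq.symm))
      exact ⟨fun h => h.mul_left _, fun h => hcop.dvd_of_dvd_mul_left h⟩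

/-- `lam_id`, exchange of the sums, `z = p^j z'` (`reindex` in Lib_MP_f1a94e_mr/Weight.lean is similar; `ob t` is empty for `t < 1`). -/
theorem lam_sum (D : ℕ) (χ : G → ℂ) (hχ : Chi D χ) (Y : ℝ) (hY : 1 ≤ Y) :
    ∑ z ∈ ob Y, χ z * (Real.log (nm z) : ℂ) / (nm z : ℂ) =
      ∑ p ∈ CP Y, ∑ j ∈ Icc 1 ⌊Y⌋₊, χ p ^ j * (Real.log (nm p) : ℂ) / (nm p : ℂ) ^ j * SL χ (Y / (nm p : ℝ) ^ j) := by
  classical
  have hmem : ∀ {t : ℝ} {z : G}, z ∈ ob t ↔ (nm z : ℝ) ≤ t ∧ Odd (nm z) := by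
    intro t z
    simp [ob, mem_ball]
  have hpow : ∀ (p : G) (j : ℕ), χ (p ^ j) = χ p ^ j := by
    intro p j
    induction j with
    | zero => rw [pow_zero, pow_zero, hχ.one]
    | succ j ih => rw [pow_succ, pow_succ, hχ.mul, ih]
  have e1 : ∀ z ∈ ob Y, χ z * (Real.log (nm z) : ℂ) / (nm z : ℂ) =
      ∑ p ∈ CP Y, ∑ j ∈ Icc 1 ⌊Y⌋₊, if p ^ j ∣ z then χ z * (Real.log (nm p) : ℂ) / (nm z : ℂ) else 0 := by
    intro z hz
    rw [hmem] at hz
    rw [lam_id z hz.2 Y hz.1]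
    push_cast
    rw [mul_sum, sum_div]
    refine sum_congr rfl fun p _ => ?_
    rw [mul_sum, sum_div, sum_filter]
  rw [sum_congr rfl e1, sum_comm]
  refine sum_congr rfl fun p hp => ?_
  rw [sum_comm]
  refine sum_congr rfl fun j _ => ?_
  rw [← sum_filter]
  have ho := (CPS.mem_CP.1 hp).2.2.1
  have hn : 0 < nm p := nm_pos_of_odd ho
  have hnR : (0 : ℝ) < (nm p : ℝ) ^ j := by positivity
  have hp0 : p ^ j ≠ 0 := pow_ne_zero _ (ne_zero_of_odd ho)
  unfold SL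
  rw [mul_sum]
  symm
  refine sum_bij (fun s _ => p ^ j * s) ?_ ?_ ?_ ?_
  · intro s hs
    rw [hmem, le_div_iff₀ hnR] at hs
    rw [mem_filter, hmem, nm_mul, lami_nm_pow]
    refine ⟨⟨?_, (ho.pow).mul hs.2⟩, dvd_mul_right _ _⟩
    push_cast
    linarith [hs.1]
  · intro s _ s' _ h
    exact mul_left_cancel₀ hp0 h
  · intro u hu
    rw [mem_filter, hmem] at hu
    obtain ⟨⟨h1, h2⟩, s, rfl⟩ := hu
    refine ⟨s, ?_, rfl⟩
    rw [hmem, le_div_iff₀ hnR]
    rw [nm_mul, lami_nm_pow] at h1 h2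
    push_cast at h1
    exact ⟨by linarith, (Nat.odd_mul.1 h2).2⟩
  · intro s hs
    rw [hmem] at hs
    rw [nm_mul, lami_nm_pow, hχ.mul, hpow]
    have hs0 : (nm s : ℂ) ≠ 0 := by exact_mod_cast (nm_pos_of_odd hs.2).ne'
    have hp0' : (nm p : ℂ) ≠ 0 := by exact_mod_cast hn.ne'
    push_cast
    field_simp

end Pool.Agent.ECM

end
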