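import Mathlib
import Pool.Agent.Lib_MP_f1a94e_m.G01
import Pool.Agent.Lib_MP_f1a94e_m.G04
import Pool.Agent.Lib_MP_f1a94e_m.G05
import Pool.Agent.Lib_MP_f1a94e_m.G06
import Pool.Agent.Lib_MP_f1a94e_m.G07
import Pool.Agent.Lib_MP_f1a94e_m.G08

/-!
# MP_f1a94e_nt: merged library part G10

Concatenation of files of the libraries `Lib_MP_f1a94e_*` (each in its own section), only to save build time.
-/

/-! ### from `Lib_MP_f1a94e_eq.NpT` -/

section

/-!
# Piece NPT: sums over primes near the line 1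
-/

set_option autoImplicit false

namespace Pool.Agent.OmEq

open Complex

namespace NpT

open ArithmeticFunction ArithmeticFunction.vonMangoldt LSeries

/-- the indicator function of the primes -/
noncomputable def f (n : ℕ) : ℂ := if n.Prime then 1 else 0

theorem f_absc : abscissaOfAbsConv f ≤ 1 := by
  refine abscissaOfAbsConv_le_of_le_const ⟨1, fun n _ => ?_⟩
  unfold f
  split_ifs <;> simp

theorem f_absc_lt {s : ℂ} (hs : 1 < s.re) : abscissaOfAbsConv f < s.re :=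
  f_absc.trans_lt (by exact_mod_cast hs)

theorem P_eq (s : ℂ) : ∑' p : Nat.Primes, ((p : ℕ) : ℂ) ^ (-s) = LSeries f s := by
  unfold LSeries
  have h1 : (fun p : Nat.Primes => ((p : ℕ) : ℂ) ^ (-s)) =
      fun p : Nat.Primes => (fun n : ℕ => (n : ℂ) ^ (-s)) (p : ℕ) := rfl
  rw [h1]
  have h2 := tsum_subtype {p : ℕ | p.Prime} (fun n : ℕ => (n : ℂ) ^ (-s))
  refine h2.trans (tsum_congr fun n => ?_)
  unfold Set.indicator f term
  simp only [Set.mem_ofPred_eq]
  by_cases hn : n.Prime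
  · rw [if_pos hn, if_neg hn.ne_zero, if_pos hn, cpow_neg, one_div]
  · rw [if_neg hn, if_neg hn, zero_div, ite_self]

/-- the von Mangoldt function outside the primes -/
noncomputable def g (n : ℕ) : ℝ := if n.Prime then 0 else residueClass (0 : ZMod 1) n

theorem g_nonneg (n : ℕ) : 0 ≤ g n := by
  unfold g
  split_ifs
  · exact le_rfl
  · exact residueClass_nonneg _ n

theorem g_term {s : ℂ} (hs : 1 < s.re) (n : ℕ) : ‖term (fun n => (g n : ℂ)) s n‖ ≤ g n / n := by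
  rw [norm_term_eq]
  by_cases hn : n = 0
  · rw [if_pos hn]
    exact div_nonneg (g_nonneg n) (Nat.cast_nonneg n)
  · rw [if_neg hn, Complex.norm_real, Real.norm_eq_abs, abs_of_nonneg (g_nonneg n)]
    have h1 : (1 : ℝ) ≤ n := by exact_mod_cast Nat.one_le_iff_ne_zero.2 hn
    refine div_le_div_of_nonneg_left (g_nonneg n) (by linarith) ?_
    calc (n : ℝ) = (n : ℝ) ^ (1 : ℝ) := (Real.rpow_one _).symm
      _ ≤ (n : ℝ) ^ s.re := Real.rpow_le_rpow_of_exponent_le h1 hs.le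

theorem g_sum : Summable fun n : ℕ => g n / n := summable_residueClass_non_primes_div (0 : ZMod 1)

theorem g_summable {s : ℂ} (hs : 1 < s.re) : LSeriesSummable (fun n => (g n : ℂ)) s :=
  Summable.of_norm_bounded g_sum (g_term hs)

theorem g_bound {s : ℂ} (hs : 1 < s.re) :
    ‖LSeries (fun n => (g n : ℂ)) s‖ ≤ ∑' n : ℕ, g n / n := by
  unfold LSeries
  exact tsum_of_norm_bounded g_sum.hasSum (g_term hs)

theorem L_summable {s : ℂ} (hs : 1 < s.re) :
    LSeriesSummable (fun n => (residueClass (0 : ZMod 1) n : ℂ)) s :=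
  LSeriesSummable_of_abscissaOfAbsConv_lt_re
    ((abscissaOfAbsConv_residueClass_le_one _).trans_lt (by exact_mod_cast hs))

theorem logMul_eq {s : ℂ} (hs : 1 < s.re) : LSeries (logMul f) s =
    LSeries (fun n => (residueClass (0 : ZMod 1) n : ℂ)) s - LSeries (fun n => (g n : ℂ)) s := by
  rw [← LSeries_sub (L_summable hs) (g_summable hs)]
  refine LSeries_congr (fun {n} hn => ?_) s
  unfold logMul f g
  simp only [Pi.sub_apply]
  by_cases hp : n.Prime
  · rw [if_pos hp, if_pos hp, mul_one, ofReal_zero, sub_zero]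
    have h1 : residueClass (0 : ZMod 1) n = vonMangoldt n := by
      unfold residueClass
      rw [Set.indicator_of_mem]
      exact Subsingleton.elim _ _
    rw [h1, vonMangoldt_apply_prime hp, ofReal_log (Nat.cast_nonneg n), ofReal_natCast]
  · rw [if_neg hp, if_neg hp, mul_zero, sub_self]

theorem deriv_bound (B : ℝ) : ∃ C : ℝ, 0 ≤ C ∧ ∀ s : ℂ, 1 < s.re → s.re ≤ 2 → |s.im| ≤ B →
    ‖LSeries (logMul f) s - 1 / (s - 1)‖ ≤ C := by
  have hK : IsCompact (Set.Icc (1 : ℝ) 2 ×ℂ Set.Icc (-B) B) := isCompact_Icc.reProdIm isCompact_Icc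
  have hcont : ContinuousOn (LFunctionResidueClassAux (0 : ZMod 1))
      (Set.Icc (1 : ℝ) 2 ×ℂ Set.Icc (-B) B) := by
    refine (continuousOn_LFunctionResidueClassAux (0 : ZMod 1)).mono ?_
    intro s hs
    exact (mem_reProdIm.1 hs).1.1
  obtain ⟨C, hC⟩ := hK.exists_bound_of_continuousOn hcont
  have hG : 0 ≤ ∑' n : ℕ, g n / n :=
    tsum_nonneg fun n => div_nonneg (g_nonneg n) (Nat.cast_nonneg n)
  refine ⟨max C 0 + ∑' n : ℕ, g n / n, by positivity, fun s h1 h2 h3 => ?_⟩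
  have hm : s ∈ (Set.Icc (1 : ℝ) 2 ×ℂ Set.Icc (-B) B) :=
    mem_reProdIm.2 ⟨⟨h1.le, h2⟩, abs_le.1 h3⟩
  have h4 := hC s hm
  have h5 := eqOn_LFunctionResidueClassAux (a := (0 : ZMod 1)) (isUnit_of_subsingleton _)
    (show s ∈ {s : ℂ | 1 < s.re} from h1)
  rw [h5] at h4
  simp only [Nat.totient_one, Nat.cast_one, inv_one] at h4
  rw [logMul_eq h1]
  have h6 := g_bound h1
  calc ‖LSeries (fun n => (residueClass (0 : ZMod 1) n : ℂ)) s - LSeries (fun n => (g n : ℂ)) s -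
        1 / (s - 1)‖ = ‖(LSeries (fun n => (residueClass (0 : ZMod 1) n : ℂ)) s - 1 / (s - 1)) -
          LSeries (fun n => (g n : ℂ)) s‖ := by congr 1; ring
    _ ≤ C + ∑' n : ℕ, g n / n := (norm_sub_le _ _).trans (add_le_add h4 h6)
    _ ≤ max C 0 + ∑' n : ℕ, g n / n := by
        have := le_max_left C 0
        linarith

end NpT

open NpT in
/-- PROOF. `P(δ) = ∑_p p^(-s)`, `s = 1 + δ + i t`. Let `Z(s) = ∑ Λ(n) n^(-s)`; Mathlib (`Mathlib/NumberTheory/LSeries/Nonvanishing.lean`,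
`continuousOn_neg_logDeriv_LFunctionTrivChar₁` with modulus 1, or the zeta function versions): `Z(s) - 1/(s-1)` extends to a continuous function on `Re s ≥ 1`, so it is bounded by `C1`
on the compact set `1 ≤ Re s ≤ 2`, `|Im s| ≤ B`. Termwise `P(δ) - P(1) = ∑_p p^(-1-it) (p^(-δ) - p^(-1)) = ∫_δ^1 ∑_p log p p^(-1-u-it) du` and
`∑_p log p p^(-1-u-it) = Z(1+u+it) - ∑_(p, k ≥ 2) log p p^(-k(1+u+it))`, the last sum is bounded by `∑ 2 log p/p^2 ≤ C2`. So
`P(δ) = O(1) + ∫_δ^1 du/(u + i t)`, and `∫_δ^1 du/(u+it) = log (1 + i t) - log (δ + i t)` (real part of `δ + it` positive: derivative of `Complex.log`), which differs from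
`Real.log (1/‖δ + i t‖)` by at most `|log ‖1 + i t‖| + π`. (An alternative: `exp (∑' -log (1 - p^(-s))) = ζ(s)` controls only the real part; here the imaginary
part is needed too.) -/
theorem npT (B : ℝ) (hB : 0 < B) : ∃ C : ℝ, ∀ δ t : ℝ, 0 < δ → δ ≤ 1 → |t| ≤ B →
    ‖(∑' p : Nat.Primes, ((p : ℕ) : ℂ) ^ (-((1 + δ : ℝ) + (t : ℂ) * I))) -
      (Real.log (1 / ‖(δ : ℂ) + (t : ℂ) * I‖) : ℂ)‖ ≤ C := by
  obtain ⟨C, hC0, hC⟩ := deriv_bound B
  -- the value at `2 + i t`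
  have hsum : Summable fun p : Nat.Primes => ((p : ℕ) : ℝ) ^ (-(2 : ℝ)) :=
    Nat.Primes.summable_rpow.2 (by norm_num)
  set C3 := ∑' p : Nat.Primes, ((p : ℕ) : ℝ) ^ (-(2 : ℝ)) with hC3
  have h2 : ∀ t : ℝ, ‖LSeries f ((2 : ℝ) + (t : ℂ) * I)‖ ≤ C3 := by
    intro t
    rw [← P_eq]
    refine tsum_of_norm_bounded hsum.hasSum fun p => ?_
    rw [Complex.norm_natCast_cpow_of_pos p.2.pos]
    simp
  set C4 := Real.log (1 + B) + Real.pi with hC4
  have h3 : ∀ t : ℝ, |t| ≤ B → ‖Complex.log ((1 : ℂ) + (t : ℂ) * I)‖ ≤ C4 := by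
    intro t ht
    have hre : ((1 : ℂ) + (t : ℂ) * I).re = 1 := by simp
    have hn1 : 1 ≤ ‖(1 : ℂ) + (t : ℂ) * I‖ := by
      have := Complex.abs_re_le_norm ((1 : ℂ) + (t : ℂ) * I)
      rwa [hre, abs_one] at this
    have hn2 : ‖(1 : ℂ) + (t : ℂ) * I‖ ≤ 1 + B := by
      refine (norm_add_le _ _).trans ?_
      rw [norm_one, norm_mul, Complex.norm_I, mul_one, Complex.norm_real, Real.norm_eq_abs]
      linarith
    refine (Complex.norm_le_abs_re_add_abs_im _).trans ?_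
    rw [Complex.log_re, Complex.log_im]
    refine add_le_add ?_ (Complex.abs_arg_le_pi _)
    rw [abs_of_nonneg (Real.log_nonneg hn1)]
    exact Real.log_le_log (by linarith) hn2
  refine ⟨C + C3 + C4 + Real.pi, fun δ t hδ hδ1 ht => ?_⟩
  rw [P_eq]
  -- `D x = P(1 + x + i t) + log (x + i t)`
  set D : ℝ → ℂ := fun x => LSeries f (((1 + x : ℝ) : ℂ) + (t : ℂ) * I) +
    Complex.log ((x : ℂ) + (t : ℂ) * I) with hD
  have hderiv : ∀ x ∈ Set.Icc δ 1, HasDerivWithinAt D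
      (-(LSeries (LSeries.logMul f) (((1 + x : ℝ) : ℂ) + (t : ℂ) * I) -
        1 / ((((1 + x : ℝ) : ℂ) + (t : ℂ) * I) - 1))) (Set.Icc δ 1) x := by
    intro x hx
    have hx0 : 0 < x := hδ.trans_le hx.1
    have e1 : HasDerivAt (fun x : ℝ => ((1 + x : ℝ) : ℂ) + (t : ℂ) * I) 1 x := by
      have h5 : HasDerivAt (fun x : ℝ => ((1 + x : ℝ) : ℂ)) 1 x := by
        have := ((hasDerivAt_id x).const_add 1).ofReal_comp
        simpa using this
      exact h5.add_const _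
    have e2 : HasDerivAt (fun x : ℝ => (x : ℂ) + (t : ℂ) * I) 1 x := by
      have h5 : HasDerivAt (fun x : ℝ => (x : ℂ)) 1 x := by
        have := (hasDerivAt_id x).ofReal_comp
        simpa using this
      exact h5.add_const _
    have hs : 1 < (((1 + x : ℝ) : ℂ) + (t : ℂ) * I).re := by
      simp
      exact hx0
    have e3 := (LSeries_hasDerivAt (f_absc_lt hs)).comp x e1
    have hsl : (x : ℂ) + (t : ℂ) * I ∈ Complex.slitPlane := by
      left
      simp
      exact hx0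
    have e4 := (Complex.hasDerivAt_log hsl).comp x e2
    have e5 := (e3.add e4).hasDerivWithinAt (s := Set.Icc δ 1)
    refine (e5.congr_deriv ?_)
    have h6 : (((1 + x : ℝ) : ℂ) + (t : ℂ) * I) - 1 = (x : ℂ) + (t : ℂ) * I := by
      push_cast
      ring
    rw [h6, mul_one, mul_one, one_div]
    ring
  have hb : ∀ x ∈ Set.Icc δ 1, ‖(-(LSeries (LSeries.logMul f) (((1 + x : ℝ) : ℂ) + (t : ℂ) * I) -
        1 / ((((1 + x : ℝ) : ℂ) + (t : ℂ) * I) - 1)))‖ ≤ C := by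
    intro x hx
    rw [norm_neg]
    apply hC
    · simp
      exact hδ.trans_le hx.1
    · simp
      linarith [hx.2]
    · simpa using ht
  have hmv := (convex_Icc δ 1).norm_image_sub_le_of_norm_hasDerivWithin_le (C := C) hderiv hb
    (Set.right_mem_Icc.2 hδ1) (Set.left_mem_Icc.2 hδ1)
  have h7 : ‖D δ - D 1‖ ≤ C := by
    refine hmv.trans ?_
    rw [Real.norm_eq_abs, abs_of_nonpos (by linarith)]
    nlinarith
  have h8 : ‖D 1‖ ≤ C3 + C4 := by
    rw [hD]
    simp only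
    refine (norm_add_le _ _).trans (add_le_add ?_ ?_)
    · have := h2 t
      norm_num at this ⊢
      exact this
    · have := h3 t ht
      simpa using this
  have h9 : ‖Complex.log ((δ : ℂ) + (t : ℂ) * I) +
      (Real.log (1 / ‖(δ : ℂ) + (t : ℂ) * I‖) : ℂ)‖ ≤ Real.pi := by
    have h10 : Complex.log ((δ : ℂ) + (t : ℂ) * I) =
        (Real.log ‖(δ : ℂ) + (t : ℂ) * I‖ : ℂ) + (arg ((δ : ℂ) + (t : ℂ) * I) : ℂ) * I := rfl
    rw [h10, one_div, Real.log_inv, ofReal_neg]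
    have h11 : (Real.log ‖(δ : ℂ) + (t : ℂ) * I‖ : ℂ) + (arg ((δ : ℂ) + (t : ℂ) * I) : ℂ) * I +
        -(Real.log ‖(δ : ℂ) + (t : ℂ) * I‖ : ℂ) = (arg ((δ : ℂ) + (t : ℂ) * I) : ℂ) * I := by ring
    rw [h11, norm_mul, Complex.norm_I, mul_one, Complex.norm_real, Real.norm_eq_abs]
    exact Complex.abs_arg_le_pi _
  have h12 : LSeries f (((1 + δ : ℝ) : ℂ) + (t : ℂ) * I) -
      (Real.log (1 / ‖(δ : ℂ) + (t : ℂ) * I‖) : ℂ) = (D δ - D 1) + D 1 -
        (Complex.log ((δ : ℂ) + (t : ℂ) * I) +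
          (Real.log (1 / ‖(δ : ℂ) + (t : ℂ) * I‖) : ℂ)) := by
    rw [hD]
    simp only
    ring
  rw [h12]
  calc ‖(D δ - D 1) + D 1 - (Complex.log ((δ : ℂ) + (t : ℂ) * I) +
          (Real.log (1 / ‖(δ : ℂ) + (t : ℂ) * I‖) : ℂ))‖
      ≤ ‖(D δ - D 1) + D 1‖ + ‖Complex.log ((δ : ℂ) + (t : ℂ) * I) +
          (Real.log (1 / ‖(δ : ℂ) + (t : ℂ) * I‖) : ℂ)‖ := norm_sub_le _ _
    _ ≤ (‖D δ - D 1‖ + ‖D 1‖) + Real.pi := add_le_add (norm_add_le _ _) h9
    _ ≤ C + C3 + C4 + Real.pi := by linarith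

end Pool.Agent.OmEq

end

/-! ### from `Lib_MP_f1a94e_mr.LS` -/

section

/-!
# Piece LS: the large sieve on the circle
-/

set_option autoImplicit false

namespace Pool.Agent.GaussMR

/-- the smoothed sum in terms of the Fejer kernel -/
theorem ls_expand (X : ℝ) (M : ℕ) (hM : 1 ≤ M) (a : G → ℂ) :
    ((∑ k ∈ fr M, (1 - |(k : ℝ)| / M) * ‖∑ z ∈ V X, a z * xi (-k) z‖ ^ 2 : ℝ) : ℂ) =
      ∑ z ∈ V X, ∑ w ∈ V X, a z * (starRingEnd ℂ) (a w) * ((fej M (dir w / dir z) : ℝ) : ℂ) := by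
  have h1 : ∀ k : ℤ, ((‖∑ z ∈ V X, a z * xi (-k) z‖ ^ 2 : ℝ) : ℂ) =
      ∑ z ∈ V X, ∑ w ∈ V X, a z * (starRingEnd ℂ) (a w) * (dir w / dir z) ^ k := by
    intro k
    rw [← Complex.normSq_eq_norm_sq, ← Complex.mul_conj, map_sum, Finset.sum_mul_sum]
    refine Finset.sum_congr rfl fun z hz => Finset.sum_congr rfl fun w hw => ?_
    rw [map_mul, conj_xi _ (V_ne_zero hw), neg_neg, div_zpow]
    unfold xi
    rw [zpow_neg, div_eq_mul_inv]
    ring
  have h2 : ((∑ k ∈ fr M, (1 - |(k : ℝ)| / M) * ‖∑ z ∈ V X, a z * xi (-k) z‖ ^ 2 : ℝ) : ℂ) =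
      ∑ k ∈ fr M, ((1 - |(k : ℝ)| / M : ℝ) : ℂ) *
        ∑ z ∈ V X, ∑ w ∈ V X, a z * (starRingEnd ℂ) (a w) * (dir w / dir z) ^ k := by
    rw [Complex.ofReal_sum]
    refine Finset.sum_congr rfl fun k _ => ?_
    rw [Complex.ofReal_mul, h1 k]
  rw [h2]
  simp_rw [Finset.mul_sum]
  rw [Finset.sum_comm]
  refine Finset.sum_congr rfl fun z hz => ?_
  rw [Finset.sum_comm]
  refine Finset.sum_congr rfl fun w hw => ?_
  have hu : ‖dir w / dir z‖ = 1 := by
    rw [norm_div, norm_dir (V_ne_zero hw), norm_dir (V_ne_zero hz), div_one]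
  rw [fej_eq M hM _ hu, Finset.mul_sum]
  refine Finset.sum_congr rfl fun k _ => ?_
  ring

theorem fej_dir_le (M : ℕ) (hM : 1 ≤ M) (z w : G) (hz : z ≠ 0) (hw : w ≠ 0) :
    fej M (dir w / dir z) ≤ M ∧ fej M (dir w / dir z) * (M * ‖dir w - dir z‖ ^ 2) ≤ 4 := by
  have hu : ‖dir w / dir z‖ = 1 := by
    rw [norm_div, norm_dir hw, norm_dir hz, div_one]
  refine ⟨fej_le M hM _ hu, ?_⟩
  have h1 := fej_mul_le M hM _ hu
  have h2 : dir w / dir z - 1 = (dir w - dir z) / dir z := by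
    have := dir_ne_zero hz
    field_simp
  rw [h2, norm_div, norm_dir hz, div_one] at h1
  exact h1

/-- Large sieve. Proof: `M = 2 T + 2`; for `|k| ≤ T` the Fejer weight `1 - |k| / M` is at least `1/2`, so
the left side is at most `2 ∑_{|k| ≤ M} (1 - |k|/M) |∑ a_z xi_{-k}(z)|^2
= 2 ∑_{z,w} a_z conj(a_w) fej M (dir w / dir z) ≤ 2 ∑_z |a_z|^2 max_z ∑_w fej M (dir w / dir z)`, and
`sum_kernel` with `δ = 1 / X` (from `spaced`). -/
theorem large_sieve : ∃ C : ℝ, 0 < C ∧ ∀ (X : ℝ) (T : ℕ) (a : G → ℂ), 1 ≤ X →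
    ∑ k ∈ fr T, ‖∑ z ∈ V X, a z * xi (-k) z‖ ^ 2 ≤ C * (T + X) * ∑ z ∈ V X, ‖a z‖ ^ 2 := by
  refine ⟨2400, by norm_num, ?_⟩
  intro X T a hX
  set M : ℕ := 2 * T + 2 with hM
  have hM1 : 1 ≤ M := by omega
  have hMr : (M : ℝ) = 2 * T + 2 := by rw [hM]; push_cast; ring
  have hM0 : (0 : ℝ) < M := by rw [hMr]; positivity
  have hM1r : (1 : ℝ) ≤ M := by exact_mod_cast hM1
  set B : ℝ := 400 * (M + X) with hB
  have hX0 : 0 < X := by linarith
  -- bound for the sums of the kernel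
  have hker : ∀ z ∈ V X, ∑ w ∈ V X, fej M (dir w / dir z) ≤ B := by
    intro z hz
    have h1 := sum_kernel (V X) dir (1 / X) (by positivity) (fun w hw => norm_dir (V_ne_zero hw))
      (fun z' hz' w hw hne => spaced X z' w hz' hw hne) (dir z) (norm_dir (V_ne_zero hz)) M hM1r
      (fun w => fej M (dir w / dir z))
      (fun w hw => (fej_dir_le M hM1 z w (V_ne_zero hz) (V_ne_zero hw)).1)
      (fun w hw => (fej_dir_le M hM1 z w (V_ne_zero hz) (V_ne_zero hw)).2)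
    rw [one_div_one_div] at h1
    exact h1
  have hker' : ∀ w ∈ V X, ∑ z ∈ V X, fej M (dir w / dir z) ≤ B := by
    intro w hw
    have h1 := sum_kernel (V X) dir (1 / X) (by positivity) (fun z hz => norm_dir (V_ne_zero hz))
      (fun z' hz' w hw hne => spaced X z' w hz' hw hne) (dir w) (norm_dir (V_ne_zero hw)) M hM1r
      (fun z => fej M (dir w / dir z))
      (fun z hz => (fej_dir_le M hM1 z w (V_ne_zero hz) (V_ne_zero hw)).1)
      (fun z hz => by
        rw [norm_sub_rev]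
        exact (fej_dir_le M hM1 z w (V_ne_zero hz) (V_ne_zero hw)).2)
    rw [one_div_one_div] at h1
    exact h1
  -- smoothing
  have hsm : ∑ k ∈ fr T, ‖∑ z ∈ V X, a z * xi (-k) z‖ ^ 2 ≤
      2 * ∑ k ∈ fr M, (1 - |(k : ℝ)| / M) * ‖∑ z ∈ V X, a z * xi (-k) z‖ ^ 2 := by
    rw [Finset.mul_sum]
    have hsub : fr T ⊆ fr M := by
      intro k hk
      rw [mem_fr] at hk ⊢
      omega
    calc ∑ k ∈ fr T, ‖∑ z ∈ V X, a z * xi (-k) z‖ ^ 2 ≤
          ∑ k ∈ fr T, 2 * ((1 - |(k : ℝ)| / M) * ‖∑ z ∈ V X, a z * xi (-k) z‖ ^ 2) := by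
          refine Finset.sum_le_sum fun k hk => ?_
          rw [mem_fr] at hk
          have h1 : |(k : ℝ)| ≤ T := by
            rw [abs_le]
            constructor
            · exact_mod_cast hk.1
            · exact_mod_cast hk.2
          have h2 : |(k : ℝ)| / M ≤ 1 / 2 := by
            rw [div_le_iff₀ hM0, hMr]
            linarith
          have h3 : 0 ≤ ‖∑ z ∈ V X, a z * xi (-k) z‖ ^ 2 := by positivity
          nlinarith
      _ ≤ ∑ k ∈ fr M, 2 * ((1 - |(k : ℝ)| / M) * ‖∑ z ∈ V X, a z * xi (-k) z‖ ^ 2) := by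
          refine Finset.sum_le_sum_of_subset_of_nonneg hsub fun k hk _ => ?_
          rw [mem_fr] at hk
          have h1 : |(k : ℝ)| ≤ M := by
            rw [abs_le]
            constructor
            · exact_mod_cast hk.1
            · exact_mod_cast hk.2
          have h2 : |(k : ℝ)| / M ≤ 1 := by
            rw [div_le_one hM0]
            exact h1
          have h3 : 0 ≤ 1 - |(k : ℝ)| / M := by linarith
          positivity
  -- the quadratic form
  have hq : ∑ k ∈ fr M, (1 - |(k : ℝ)| / M) * ‖∑ z ∈ V X, a z * xi (-k) z‖ ^ 2 ≤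
      B * ∑ z ∈ V X, ‖a z‖ ^ 2 := by
    have h1 := congrArg Complex.re (ls_expand X M hM1 a)
    rw [Complex.ofReal_re] at h1
    rw [h1, Complex.re_sum]
    have h2 : ∀ z ∈ V X, (∑ w ∈ V X, a z * (starRingEnd ℂ) (a w) *
        ((fej M (dir w / dir z) : ℝ) : ℂ)).re ≤
        ∑ w ∈ V X, (‖a z‖ ^ 2 * fej M (dir w / dir z) / 2 +
          ‖a w‖ ^ 2 * fej M (dir w / dir z) / 2) := by
      intro z _
      rw [Complex.re_sum]
      refine Finset.sum_le_sum fun w _ => ?_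
      rw [mul_comm, Complex.re_ofReal_mul]
      have h3 : (a z * (starRingEnd ℂ) (a w)).re ≤ ‖a z‖ ^ 2 / 2 + ‖a w‖ ^ 2 / 2 := by
        refine (Complex.re_le_norm _).trans ?_
        rw [norm_mul, Complex.norm_conj]
        nlinarith [sq_nonneg (‖a z‖ - ‖a w‖)]
      have h4 := fej_nonneg M (dir w / dir z)
      nlinarith
    refine (Finset.sum_le_sum h2).trans ?_
    simp_rw [Finset.sum_add_distrib]
    have h5 : ∑ z ∈ V X, ∑ w ∈ V X, ‖a z‖ ^ 2 * fej M (dir w / dir z) / 2 ≤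
        B / 2 * ∑ z ∈ V X, ‖a z‖ ^ 2 := by
      rw [Finset.mul_sum]
      refine Finset.sum_le_sum fun z hz => ?_
      rw [← Finset.sum_div, ← Finset.mul_sum]
      have h6 := hker z hz
      have h7 : 0 ≤ ‖a z‖ ^ 2 := by positivity
      nlinarith
    have h6 : ∑ z ∈ V X, ∑ w ∈ V X, ‖a w‖ ^ 2 * fej M (dir w / dir z) / 2 ≤
        B / 2 * ∑ z ∈ V X, ‖a z‖ ^ 2 := by
      rw [Finset.sum_comm, Finset.mul_sum]
      refine Finset.sum_le_sum fun w hw => ?_
      rw [← Finset.sum_div, ← Finset.mul_sum]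
      have h6 := hker' w hw
      have h7 : 0 ≤ ‖a w‖ ^ 2 := by positivity
      nlinarith
    linarith
  have hS : 0 ≤ ∑ z ∈ V X, ‖a z‖ ^ 2 := Finset.sum_nonneg fun z _ => by positivity
  have hfin : 2 * B ≤ 2400 * (T + X) := by
    rw [hB, hMr]
    have : (0 : ℝ) ≤ T := Nat.cast_nonneg T
    linarith
  calc ∑ k ∈ fr T, ‖∑ z ∈ V X, a z * xi (-k) z‖ ^ 2 ≤
        2 * ∑ k ∈ fr M, (1 - |(k : ℝ)| / M) * ‖∑ z ∈ V X, a z * xi (-k) z‖ ^ 2 := hsm
    _ ≤ 2 * (B * ∑ z ∈ V X, ‖a z‖ ^ 2) := by linarith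
    _ = 2 * B * ∑ z ∈ V X, ‖a z‖ ^ 2 := by ring
    _ ≤ 2400 * (T + X) * ∑ z ∈ V X, ‖a z‖ ^ 2 := by gcongr

/-- Large sieve for a finite family: group the indices `i` by the primitive part of `g i`. -/
theorem large_sieve_fam : ∃ C : ℝ, 0 < C ∧ ∀ (ι : Type) (s : Finset ι) (g : ι → G) (c : ι → ℂ)
    (Y : ℝ) (T : ℕ), 1 ≤ Y → (∀ i ∈ s, ‖c i‖ ≤ 1) →
    (∀ i ∈ s, Odd (nm (g i)) ∧ (nm (g i) : ℝ) ≤ Y) →
    ∑ k ∈ fr T, ‖∑ i ∈ s, c i * xi (-k) (g i)‖ ^ 2 ≤
      C * (T + Y) * (Set.ncard {p : ι × ι | p.1 ∈ s ∧ p.2 ∈ s ∧ pr (g p.1) = pr (g p.2)} : ℝ) := by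
  classical
  obtain ⟨C, hC, hls⟩ := large_sieve
  refine ⟨C, hC, ?_⟩
  intro ι s g c Y T hY hc hg
  set a : G → ℂ := fun z => ∑ i ∈ s.filter (fun i => pr (g i) = z), c i with ha
  have hmaps : ∀ i ∈ s, pr (g i) ∈ V Y := fun i hi => pr_mem_V Y (g i) (hg i hi).1 (hg i hi).2
  have h1 : ∀ k : ℤ, ∑ i ∈ s, c i * xi (-k) (g i) = ∑ z ∈ V Y, a z * xi (-k) z := by
    intro k
    rw [← Finset.sum_fiberwise_of_maps_to hmaps]
    refine Finset.sum_congr rfl fun z hz => ?_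
    rw [ha, Finset.sum_mul]
    refine Finset.sum_congr rfl fun i hi => ?_
    obtain ⟨hi1, hi2⟩ := Finset.mem_filter.1 hi
    rw [← hi2, xi_pr _ _ (ne_zero_of_odd (hg i hi1).1)]
  have h2 := hls Y T a hY
  simp_rw [h1]
  refine h2.trans ?_
  have hT : (0 : ℝ) ≤ T := Nat.cast_nonneg T
  refine mul_le_mul_of_nonneg_left ?_ (by positivity)
  -- count the pairs
  have h3 : {p : ι × ι | p.1 ∈ s ∧ p.2 ∈ s ∧ pr (g p.1) = pr (g p.2)} =
      (((s ×ˢ s).filter (fun p : ι × ι => pr (g p.1) = pr (g p.2)) : Finset (ι × ι)) :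
        Set (ι × ι)) := by
    ext p
    simp [and_assoc]
  rw [h3, Set.ncard_coe_finset]
  have h4 : ((s ×ˢ s).filter (fun p : ι × ι => pr (g p.1) = pr (g p.2))).card =
      ∑ z ∈ V Y, (s.filter (fun i => pr (g i) = z)).card ^ 2 := by
    rw [Finset.card_eq_sum_card_fiberwise (f := fun p : ι × ι => pr (g p.1)) (t := V Y)]
    · refine Finset.sum_congr rfl fun z hz => ?_
      rw [sq, ← Finset.card_product]
      congr 1
      ext p
      simp only [Finset.mem_filter, Finset.mem_product]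
      constructor
      · rintro ⟨⟨⟨h1, h2⟩, h3⟩, h4⟩
        exact ⟨⟨h1, h4⟩, h2, h3 ▸ h4⟩
      · rintro ⟨⟨h1, h2⟩, h3, h4⟩
        exact ⟨⟨⟨h1, h3⟩, h2.trans h4.symm⟩, h2⟩
    · intro p hp
      have hp' := Finset.mem_coe.1 hp
      simp only [Finset.mem_filter, Finset.mem_product] at hp'
      exact hmaps p.1 hp'.1.1
  rw [h4]
  push_cast
  refine Finset.sum_le_sum fun z hz => ?_
  have h5 : ‖a z‖ ≤ ((s.filter (fun i => pr (g i) = z)).card : ℝ) := by
    rw [ha]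
    refine (norm_sum_le _ _).trans ?_
    calc ∑ i ∈ s.filter (fun i => pr (g i) = z), ‖c i‖ ≤
          ∑ i ∈ s.filter (fun i => pr (g i) = z), (1 : ℝ) :=
          Finset.sum_le_sum fun i hi => hc i (Finset.mem_filter.1 hi).1
      _ = _ := by simp
  gcongr

end Pool.Agent.GaussMR

end

/-! ### from `Lib_MP_f1a94e_mr.TK` -/

section

/-!
# Piece TK: Turan-Kubilius inequality
-/

set_option autoImplicit false

namespace Pool.Agent.GaussMR

open Classical in
/-- indicator of divisibility -/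
noncomputable def tk_dvi (w z : G) : ℝ := if w ∣ z then 1 else 0

theorem tk_om_eq_sum (P Q : ℝ) (z : G) : om P Q z = ∑ w ∈ PP P Q, tk_dvi w z := by
  classical
  unfold om tk_dvi
  have h : {w : G | w ∈ PP P Q ∧ w ∣ z} = (((PP P Q).filter fun w => w ∣ z : Finset G) : Set G) := by
    ext w
    simp
  rw [h, Set.ncard_coe_finset, Finset.card_filter]
  push_cast
  rfl

theorem tk_ncard_eq_sum (X : ℝ) (w : G) :
    (Set.ncard {z : G | z ∈ V X ∧ w ∣ z} : ℝ) = ∑ z ∈ V X, tk_dvi w z := by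
  classical
  unfold tk_dvi
  have h : {z : G | z ∈ V X ∧ w ∣ z} = (((V X).filter fun z => w ∣ z : Finset G) : Set G) := by
    ext w
    simp
  rw [h, Set.ncard_coe_finset, Finset.card_filter]
  push_cast
  rfl

theorem tk_ncard_eq_sum₂ (X : ℝ) (w w' : G) :
    (Set.ncard {z : G | z ∈ V X ∧ w ∣ z ∧ w' ∣ z} : ℝ) = ∑ z ∈ V X, tk_dvi w z * tk_dvi w' z := by
  classical
  unfold tk_dvi
  have h : {z : G | z ∈ V X ∧ w ∣ z ∧ w' ∣ z} =
      (((V X).filter fun z => w ∣ z ∧ w' ∣ z : Finset G) : Set G) := by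
    ext w
    simp
  rw [h, Set.ncard_coe_finset, Finset.card_filter]
  push_cast
  refine Finset.sum_congr rfl fun z _ => ?_
  by_cases h1 : w ∣ z <;> by_cases h2 : w' ∣ z <;> simp [h1, h2]

theorem tk_dvi_sq (w z : G) : tk_dvi w z * tk_dvi w z = tk_dvi w z := by
  unfold tk_dvi
  split_ifs <;> simp

theorem tk_error (Q X : ℝ) (hQ : 2 ≤ Q) (hX : Q ^ 20 ≤ X) :
    Q ^ 2 * (Real.sqrt X * Real.log (X + 3)) ≤ 8 * X := by
  have hX1 : 1 ≤ X := le_trans (one_le_pow₀ (by linarith)) hX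
  obtain ⟨s, hs⟩ : ∃ s : ℝ, s = Real.sqrt (Real.sqrt X) := ⟨_, rfl⟩
  have hs0 : 0 ≤ s := by rw [hs]; exact Real.sqrt_nonneg _
  have hs2 : s ^ 2 = Real.sqrt X := by rw [hs, Real.sq_sqrt (Real.sqrt_nonneg _)]
  have hs4 : s ^ 4 = X := by
    calc s ^ 4 = (s ^ 2) ^ 2 := by ring
      _ = X := by rw [hs2, Real.sq_sqrt (by linarith)]
  have hs1 : 1 ≤ s := by
    by_contra h
    push Not at h
    have : s ^ 4 < 1 := pow_lt_one₀ hs0 h (by norm_num)
    linarith
  have hQs : Q ^ 2 ≤ s := by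
    refine le_of_pow_le_pow_left₀ (n := 4) (by norm_num) hs0 ?_
    rw [hs4]
    calc (Q ^ 2) ^ 4 = Q ^ 8 := by ring
      _ ≤ Q ^ 20 := pow_le_pow_right₀ (by linarith) (by norm_num)
      _ ≤ X := hX
  have hlog : Real.log (X + 3) ≤ 8 * s := by
    have h1 : X + 3 ≤ (2 * s) ^ 4 := by
      rw [mul_pow, hs4]; norm_num; linarith
    calc Real.log (X + 3) ≤ Real.log ((2 * s) ^ 4) := Real.log_le_log (by linarith) h1
      _ = 4 * Real.log (2 * s) := by rw [Real.log_pow]; norm_num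
      _ ≤ 4 * (2 * s - 1) := by
          have := Real.log_le_sub_one_of_pos (show 0 < 2 * s by linarith)
          linarith
      _ ≤ 8 * s := by linarith
  have hlog0 : 0 ≤ Real.log (X + 3) := Real.log_nonneg (by linarith)
  rw [← hs2]
  calc Q ^ 2 * (s ^ 2 * Real.log (X + 3)) ≤ s * (s ^ 2 * (8 * s)) := by
        gcongr
    _ = 8 * s ^ 4 := by ring
    _ = 8 * X := by rw [hs4]

/-- expand the square and insert `equid`; the errors are `O(Q^2 √X log X) = O(X)` as `Q^20 ≤ X`;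
`∑ 1/p - ∑ 1/(p+1) ≤ 1`. -/
theorem TK : ∃ C : ℝ, 0 < C ∧ ∀ P Q X : ℝ, 2 ≤ P → P ≤ Q → Q ^ 20 ≤ X →
    ∑ z ∈ V X, (om P Q z - Ls P Q) ^ 2 ≤ C * X * (Ls P Q + 1) := by
  classical
  obtain ⟨κ, C, hκ, hC, h0, h1, h2⟩ := equid
  refine ⟨κ + 40 * C, by positivity, fun P Q X hP hPQ hX => ?_⟩
  have hQ2 : 2 ≤ Q := hP.trans hPQ
  have hX1 : 1 ≤ X := le_trans (one_le_pow₀ (by linarith)) hX
  have hX0 : 0 ≤ X := by linarith
  obtain ⟨E, hE⟩ : ∃ E : ℝ, E = C * Real.sqrt X * Real.log (X + 3) := ⟨_, rfl⟩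
  have hE0 : 0 ≤ E := by
    rw [hE]
    have : 0 ≤ Real.log (X + 3) := Real.log_nonneg (by linarith)
    positivity
  obtain ⟨L', hL'⟩ : ∃ L' : ℝ, L' = ∑ w ∈ PP P Q, 1 / ((nm w : ℝ) + 1) := ⟨_, rfl⟩
  obtain ⟨L, hL⟩ : ∃ L : ℝ, L = Ls P Q := ⟨_, rfl⟩
  have hLdef : L = ∑ w ∈ PP P Q, 1 / (nm w : ℝ) := by rw [hL]; rfl
  obtain ⟨N, hN⟩ : ∃ N : ℝ, N = ((PP P Q).card : ℝ) := ⟨_, rfl⟩
  have hN0 : 0 ≤ N := by rw [hN]; positivity
  have hNQ : N ≤ Q := by rw [hN]; exact card_PP_le P Q (by linarith)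
  have hnm : ∀ w ∈ PP P Q, (2 : ℝ) ≤ nm w := by
    intro w hw
    have := (mem_PP.mp hw).1
    linarith
  have hL'0 : 0 ≤ L' := by
    rw [hL']
    exact Finset.sum_nonneg fun w hw => by have := hnm w hw; positivity
  have hL'L : L' ≤ L := by
    rw [hL', hLdef]
    refine Finset.sum_le_sum fun w hw => ?_
    have := hnm w hw
    exact one_div_le_one_div_of_le (by linarith) (by linarith)
  have hLN : L ≤ N := by
    rw [hLdef, hN, Finset.card_eq_sum_ones]
    push_cast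
    refine Finset.sum_le_sum fun w hw => ?_
    have := hnm w hw
    rw [div_le_one (by linarith)]
    linarith
  have hLL : L - L' ≤ 1 := by
    have hn1 : ∀ w ∈ PP P Q, 2 ≤ nm w := fun w hw => by exact_mod_cast hnm w hw
    have hinj : Set.InjOn (fun w : G => nm w - 1) (PP P Q : Set G) := by
      intro a ha b hb hab
      have h3 := hn1 a ha
      have h4 := hn1 b hb
      simp only at hab
      exact PP_inj (Finset.mem_coe.mp ha) (Finset.mem_coe.mp hb) (by omega)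
    have hsub : (PP P Q).image (fun w : G => nm w - 1) ⊆ Finset.range ⌊Q⌋₊ := by
      intro n hn
      obtain ⟨w, hw, rfl⟩ := Finset.mem_image.mp hn
      have h3 := hn1 w hw
      have h4 : nm w ≤ ⌊Q⌋₊ := Nat.le_floor (mem_PP.mp hw).2.1
      rw [Finset.mem_range]
      omega
    have hterm : ∀ n : ℕ, 0 ≤ (fun i : ℕ => 1 / ((i : ℝ) + 1)) n -
        (fun i : ℕ => 1 / ((i : ℝ) + 1)) (n + 1) := by
      intro n
      simp only
      push_cast
      have : 1 / ((n : ℝ) + 1 + 1) ≤ 1 / ((n : ℝ) + 1) :=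
        one_div_le_one_div_of_le (by positivity) (by linarith)
      linarith
    calc L - L' = ∑ w ∈ PP P Q, (1 / (nm w : ℝ) - 1 / ((nm w : ℝ) + 1)) := by
          rw [hLdef, hL', Finset.sum_sub_distrib]
      _ = ∑ w ∈ PP P Q, ((fun i : ℕ => 1 / ((i : ℝ) + 1)) (nm w - 1) -
            (fun i : ℕ => 1 / ((i : ℝ) + 1)) (nm w - 1 + 1)) := by
          refine Finset.sum_congr rfl fun w hw => ?_
          have h3 := hn1 w hw
          have h4 : ((nm w - 1 : ℕ) : ℝ) = (nm w : ℝ) - 1 := by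
            rw [Nat.cast_sub (by omega)]; simp
          simp only
          push_cast
          rw [h4]
          ring_nf
      _ = ∑ n ∈ (PP P Q).image (fun w : G => nm w - 1),
            ((fun i : ℕ => 1 / ((i : ℝ) + 1)) n - (fun i : ℕ => 1 / ((i : ℝ) + 1)) (n + 1)) := by
          rw [Finset.sum_image hinj]
      _ ≤ ∑ n ∈ Finset.range ⌊Q⌋₊,
            ((fun i : ℕ => 1 / ((i : ℝ) + 1)) n - (fun i : ℕ => 1 / ((i : ℝ) + 1)) (n + 1)) :=
          Finset.sum_le_sum_of_subset_of_nonneg hsub fun n _ _ => hterm n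
      _ = 1 / (((0 : ℕ) : ℝ) + 1) - 1 / ((⌊Q⌋₊ : ℝ) + 1) := by
          rw [Finset.sum_range_sub']
      _ ≤ 1 := by
          have : 0 ≤ 1 / ((⌊Q⌋₊ : ℝ) + 1) := by positivity
          norm_num
          positivity
  -- the counts
  have hA1 : ∀ w ∈ PP P Q, |(∑ z ∈ V X, tk_dvi w z) - κ * X / (nm w + 1)| ≤ E := by
    intro w hw
    have := h1 X hX0 w (PP_spl hw)
    rwa [tk_ncard_eq_sum, ← hE] at this
  have hA2 : ∀ w ∈ PP P Q, ∀ w' ∈ PP P Q, ∑ z ∈ V X, tk_dvi w z * tk_dvi w' z ≤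
      κ * X * (1 / ((nm w : ℝ) + 1) * (1 / ((nm w' : ℝ) + 1))) + E +
        (if w = w' then κ * X * (1 / ((nm w : ℝ) + 1)) else 0) := by
    intro w hw w' hw'
    by_cases hww : w = w'
    · subst hww
      have h3 := (abs_le.mp (hA1 w hw)).2
      simp only [tk_dvi_sq, if_true]
      have h4 := hnm w hw
      have h5 : 0 ≤ κ * X * (1 / ((nm w : ℝ) + 1) * (1 / ((nm w : ℝ) + 1))) := by positivity
      have h6 : κ * X / ((nm w : ℝ) + 1) = κ * X * (1 / ((nm w : ℝ) + 1)) := by ring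
      linarith
    · have hne : nm w ≠ nm w' := fun h => hww (PP_inj hw hw' h)
      have := h2 X hX0 w w' (PP_spl hw) (PP_spl hw') hne
      rw [tk_ncard_eq_sum₂, ← hE] at this
      have h3 := (abs_le.mp this).2
      rw [if_neg hww]
      have h6 : κ * X / (((nm w : ℝ) + 1) * ((nm w' : ℝ) + 1)) =
          κ * X * (1 / ((nm w : ℝ) + 1) * (1 / ((nm w' : ℝ) + 1))) := by
        rw [one_div_mul_one_div, mul_one_div]
      linarith
  -- expansion
  have hexp : ∑ z ∈ V X, (om P Q z - L) ^ 2 =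
      (∑ w ∈ PP P Q, ∑ w' ∈ PP P Q, ∑ z ∈ V X, tk_dvi w z * tk_dvi w' z) -
        2 * L * (∑ w ∈ PP P Q, ∑ z ∈ V X, tk_dvi w z) + L ^ 2 * ((V X).card : ℝ) := by
    have e1 : ∀ z, (om P Q z - L) ^ 2 = (∑ w ∈ PP P Q, ∑ w' ∈ PP P Q, tk_dvi w z * tk_dvi w' z) -
        2 * L * (∑ w ∈ PP P Q, tk_dvi w z) + L ^ 2 := by
      intro z
      rw [tk_om_eq_sum, ← Finset.sum_mul_sum]
      ring
    simp only [e1]
    rw [Finset.sum_add_distrib, Finset.sum_sub_distrib, Finset.sum_const, nsmul_eq_mul,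
      ← Finset.mul_sum, Finset.sum_comm (s := V X) (t := PP P Q)]
    congr 1
    · congr 1
      · refine Finset.sum_congr rfl fun w _ => ?_
        rw [Finset.sum_comm]
      · rw [Finset.sum_comm]
    · ring
  have hS2 : (∑ w ∈ PP P Q, ∑ w' ∈ PP P Q, ∑ z ∈ V X, tk_dvi w z * tk_dvi w' z) ≤
      κ * X * L' ^ 2 + N ^ 2 * E + κ * X * L' := by
    calc (∑ w ∈ PP P Q, ∑ w' ∈ PP P Q, ∑ z ∈ V X, tk_dvi w z * tk_dvi w' z)
        ≤ ∑ w ∈ PP P Q, ∑ w' ∈ PP P Q,
          (κ * X * (1 / ((nm w : ℝ) + 1) * (1 / ((nm w' : ℝ) + 1))) + E +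
            (if w = w' then κ * X * (1 / ((nm w : ℝ) + 1)) else 0)) :=
          Finset.sum_le_sum fun w hw => Finset.sum_le_sum fun w' hw' => hA2 w hw w' hw'
      _ = κ * X * L' ^ 2 + N ^ 2 * E + κ * X * L' := by
          simp only [Finset.sum_add_distrib, Finset.sum_const, nsmul_eq_mul, Finset.sum_ite_eq]
          have e3 : (∑ x ∈ PP P Q, if x ∈ PP P Q then κ * X * (1 / ((nm x : ℝ) + 1)) else 0) =
              κ * X * L' := by
            rw [hL', Finset.mul_sum]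
            exact Finset.sum_congr rfl fun x hx => by rw [if_pos hx]
          have e4 : (∑ x ∈ PP P Q, ∑ x' ∈ PP P Q,
              κ * X * (1 / ((nm x : ℝ) + 1) * (1 / ((nm x' : ℝ) + 1)))) = κ * X * L' ^ 2 := by
            rw [hL', sq, Finset.sum_mul_sum, Finset.mul_sum]
            exact Finset.sum_congr rfl fun x _ => by rw [Finset.mul_sum]
          rw [e3, e4, ← hN]
          ring
  have hS1 : κ * X * L' - N * E ≤ ∑ w ∈ PP P Q, ∑ z ∈ V X, tk_dvi w z := by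
    have : ∑ w ∈ PP P Q, (κ * X * (1 / ((nm w : ℝ) + 1)) - E) ≤
        ∑ w ∈ PP P Q, ∑ z ∈ V X, tk_dvi w z := by
      refine Finset.sum_le_sum fun w hw => ?_
      have h3 := (abs_le.mp (hA1 w hw)).1
      have h6 : κ * X / ((nm w : ℝ) + 1) = κ * X * (1 / ((nm w : ℝ) + 1)) := by ring
      linarith
    refine le_trans (le_of_eq ?_) this
    rw [Finset.sum_sub_distrib, ← Finset.mul_sum, Finset.sum_const, nsmul_eq_mul, ← hL', ← hN]
  have hS0 : ((V X).card : ℝ) ≤ κ * X + E := by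
    have := (abs_le.mp (h0 X hX0)).2
    rw [← hE] at this
    linarith
  have hQE : Q ^ 2 * E ≤ 8 * C * X := by
    have h3 := mul_le_mul_of_nonneg_left (tk_error Q X hQ2 hX) hC.le
    rw [hE]
    linarith only [h3]
  rw [← hL, hexp]
  have hL0 : 0 ≤ L := hL'0.trans hL'L
  have hstep : (∑ w ∈ PP P Q, ∑ w' ∈ PP P Q, ∑ z ∈ V X, tk_dvi w z * tk_dvi w' z) -
        2 * L * (∑ w ∈ PP P Q, ∑ z ∈ V X, tk_dvi w z) + L ^ 2 * ((V X).card : ℝ) ≤
      (κ * X * L' ^ 2 + N ^ 2 * E + κ * X * L') - 2 * L * (κ * X * L' - N * E) +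
        L ^ 2 * (κ * X + E) := by
    have t1 : 2 * L * (κ * X * L' - N * E) ≤ 2 * L * (∑ w ∈ PP P Q, ∑ z ∈ V X, tk_dvi w z) :=
      mul_le_mul_of_nonneg_left hS1 (by positivity)
    have t2 : L ^ 2 * ((V X).card : ℝ) ≤ L ^ 2 * (κ * X + E) :=
      mul_le_mul_of_nonneg_left hS0 (by positivity)
    linarith
  refine hstep.trans ?_
  have hring : (κ * X * L' ^ 2 + N ^ 2 * E + κ * X * L') - 2 * L * (κ * X * L' - N * E) +
        L ^ 2 * (κ * X + E) = κ * X * (L' + (L - L') ^ 2) + (N + L) ^ 2 * E := by ring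
  rw [hring]
  have h7 : κ * X * (L' + (L - L') ^ 2) ≤ κ * X * (L + 1) := by
    refine mul_le_mul_of_nonneg_left ?_ (by positivity)
    have : (L - L') ^ 2 ≤ 1 := pow_le_one₀ (sub_nonneg.2 hL'L) hLL
    linarith only [this, hL'L]
  have h8 : (N + L) ^ 2 * E ≤ 4 * (Q ^ 2 * E) := by
    have h3 : (N + L) ^ 2 ≤ (2 * Q) ^ 2 :=
      pow_le_pow_left₀ (add_nonneg hN0 hL0) (by linarith only [hNQ, hLN]) 2
    have h4 := mul_le_mul_of_nonneg_right h3 hE0
    linarith only [h4]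
  have h9 : 0 ≤ C * X := mul_nonneg hC.le hX0
  have h10 := mul_nonneg h9 hL0
  linarith only [h7, h8, hQE, h9, h10]

end Pool.Agent.GaussMR

end

/-! ### from `Lib_MP_f1a94e_mr.Annulus` -/

section

/-!
# Piece ANNULUS: second moment of `om` on an annulus
-/

set_option autoImplicit false

namespace Pool.Agent.GaussMR

open Classical in
theorem om_eq_card (P Q : ℝ) (z : G) : om P Q z = (((PP P Q).filter (fun w => w ∣ z)).card : ℝ) := by
  rw [om, ← Set.ncard_coe_finset]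
  congr 2
  ext w
  simp

open Classical in
/-- multiples of `u` in the annulus -/
theorem count_annulus {κ C : ℝ} (hκ : 0 < κ) (hC : 0 < C)
    (hb : ∀ t : ℝ, 0 ≤ t → |((ball t).card : ℝ) - κ * t| ≤ C * (Real.sqrt t + 1))
    {X ρ m : ℝ} {u : G} (hX : 1 ≤ X) (hρ : 0 < ρ) (hρ1 : ρ ≤ 1) (hm : (nm u : ℝ) = m)
    (hm1 : 1 ≤ m) (hmX : m ≤ X ^ (1 / 2 : ℝ)) (hXρ : X ^ (-(1 / 4 : ℝ)) ≤ ρ) :
    (((V (X * Real.exp ρ) \ V X).filter (fun z => u ∣ z)).card : ℝ) ≤
      (2 * κ + 6 * C) * ρ * (X / m) := by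
  have hX0 : 0 < X := by linarith
  have hm0 : 0 < m := by linarith
  set t : ℝ := X / m with ht
  have ht1 : X ^ (1 / 2 : ℝ) ≤ t := by
    rw [ht, le_div_iff₀ hm0]
    calc X ^ (1 / 2 : ℝ) * m ≤ X ^ (1 / 2 : ℝ) * X ^ (1 / 2 : ℝ) := by gcongr
      _ = X := by
          rw [← Real.rpow_add hX0]
          norm_num
  have ht0 : 1 ≤ t := (Real.one_le_rpow hX (by norm_num)).trans ht1
  have hexp1 : 1 ≤ Real.exp ρ := Real.one_le_exp hρ.le
  have hexp : Real.exp ρ ≤ 3 := by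
    have := Real.exp_one_lt_d9
    exact (Real.exp_le_exp.mpr hρ1).trans (by linarith)
  have hexp2 : Real.exp ρ - 1 ≤ 2 * ρ := by
    have := Real.abs_exp_sub_one_le (x := ρ) (by rw [abs_of_pos hρ]; exact hρ1)
    rw [abs_of_pos hρ] at this
    exact (le_abs_self _).trans this
  have hsub : (V (X * Real.exp ρ) \ V X).filter (fun z => u ∣ z) ⊆
      (ball (t * Real.exp ρ) \ ball t).image (fun z => u * z) := by
    intro z hz
    rw [Finset.mem_filter, Finset.mem_sdiff] at hz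
    obtain ⟨⟨h1, h2⟩, ⟨z', rfl⟩⟩ := hz
    rw [mem_V] at h1 h2
    have h3 : ¬ (nm (u * z') : ℝ) ≤ X := fun h => h2 ⟨h, h1.2⟩
    have h4 := h1.1
    rw [nm_mul] at h3 h4
    push_cast at h3 h4
    rw [hm] at h3 h4
    refine Finset.mem_image.mpr ⟨z', ?_, rfl⟩
    rw [Finset.mem_sdiff, mem_ball, mem_ball]
    constructor
    · rw [ht, div_mul_eq_mul_div, le_div_iff₀ hm0]
      linarith
    · rw [ht, le_div_iff₀ hm0]
      intro h5
      exact h3 (by linarith)
  have hbs : ball t ⊆ ball (t * Real.exp ρ) := by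
    intro z hz
    rw [mem_ball] at hz ⊢
    exact hz.trans (by nlinarith)
  have h1 : (((V (X * Real.exp ρ) \ V X).filter (fun z => u ∣ z)).card : ℝ) ≤
      ((ball (t * Real.exp ρ)).card : ℝ) - (ball t).card := by
    have e1 := (Finset.card_le_card hsub).trans Finset.card_image_le
    have e2 := Finset.card_sdiff_add_card_eq_card hbs
    have e3 : ((ball (t * Real.exp ρ) \ ball t).card : ℝ) + (ball t).card =
        (ball (t * Real.exp ρ)).card := by exact_mod_cast e2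
    have e4 : (((V (X * Real.exp ρ) \ V X).filter (fun z => u ∣ z)).card : ℝ) ≤
      ((ball (t * Real.exp ρ) \ ball t).card : ℝ) := by exact_mod_cast e1
    linarith
  have h2 := (abs_le.mp (hb (t * Real.exp ρ) (by positivity))).2
  have h3 := (abs_le.mp (hb t (by linarith))).1
  -- the error term
  have hst : Real.sqrt t ≤ ρ * t := by
    rw [Real.sqrt_le_iff]
    refine ⟨by positivity, ?_⟩
    have e1 : (1 : ℝ) ≤ ρ ^ 2 * t := by
      have e2 : X ^ (-(1 / 2 : ℝ)) ≤ ρ ^ 2 := by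
        calc X ^ (-(1 / 2 : ℝ)) = (X ^ (-(1 / 4 : ℝ))) ^ 2 := by
              rw [← Real.rpow_natCast, ← Real.rpow_mul hX0.le]
              norm_num
          _ ≤ ρ ^ 2 := pow_le_pow_left₀ (by positivity) hXρ 2
      calc (1 : ℝ) = X ^ (-(1 / 2 : ℝ)) * X ^ (1 / 2 : ℝ) := by
            rw [← Real.rpow_add hX0]
            norm_num
        _ ≤ ρ ^ 2 * t := by gcongr
    nlinarith
  have hs1 : 1 ≤ Real.sqrt t := by
    rw [Real.one_le_sqrt]
    exact ht0
  have hs3 : Real.sqrt (t * Real.exp ρ) ≤ 3 * Real.sqrt t := by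
    rw [Real.sqrt_le_iff]
    refine ⟨by positivity, ?_⟩
    rw [mul_pow, Real.sq_sqrt (by linarith)]
    nlinarith
  have h4 : κ * (t * Real.exp ρ) - κ * t ≤ 2 * κ * ρ * t := by
    have : κ * (t * Real.exp ρ) - κ * t = κ * t * (Real.exp ρ - 1) := by ring
    rw [this]
    calc κ * t * (Real.exp ρ - 1) ≤ κ * t * (2 * ρ) := by gcongr
      _ = 2 * κ * ρ * t := by ring
  have h5 : C * (Real.sqrt (t * Real.exp ρ) + 1) + C * (Real.sqrt t + 1) ≤ 6 * C * ρ * t := by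
    have e1 : Real.sqrt (t * Real.exp ρ) + 1 + (Real.sqrt t + 1) ≤ 6 * Real.sqrt t := by linarith
    calc C * (Real.sqrt (t * Real.exp ρ) + 1) + C * (Real.sqrt t + 1) =
          C * (Real.sqrt (t * Real.exp ρ) + 1 + (Real.sqrt t + 1)) := by ring
      _ ≤ C * (6 * (ρ * t)) := by
          refine mul_le_mul_of_nonneg_left (e1.trans ?_) hC.le
          linarith
      _ = 6 * C * ρ * t := by ring
  have h6 : (2 * κ + 6 * C) * ρ * t = 2 * κ * ρ * t + 6 * C * ρ * t := by ring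
  rw [h6]
  linarith

/-- `∑ om^2 = ∑_{w, w'} #{z : X < nm z ≤ X e^ρ, w ∣ z, w' ∣ z}`; drop the primitivity: for `w ≠ w'`
the count is at most `#ball(X e^ρ / (p p')) - #ball(X / (p p'))`, which by `ball_asymp` is
`≤ κ (e^ρ - 1) X / (p p') + C (√(3 X / (p p')) + 1) ≤ C' ρ X / (p p')` because `ρ ≥ X^(-1/4)` and
`p p' ≤ Q^2 ≤ X^(1/10)`. -/
theorem annulus : ∃ C : ℝ, 0 < C ∧ ∀ P Q X ρ : ℝ, 2 ≤ P → P ≤ Q → Q ^ 20 ≤ X → 0 < ρ → ρ ≤ 1 →
    X ^ (-(1 / 4 : ℝ)) ≤ ρ →
    ∑ z ∈ V (X * Real.exp ρ) \ V X, (om P Q z) ^ 2 ≤ C * ρ * X * (Ls P Q + 1) ^ 2 := by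
  classical
  obtain ⟨κ, C, hκ, hC, hb⟩ := ball_asymp
  refine ⟨2 * κ + 6 * C, by positivity, ?_⟩
  intro P Q X ρ hP hPQ hQX hρ hρ1 hXρ
  set K := 2 * κ + 6 * C with hK
  have hK0 : 0 < K := by positivity
  have hQ2 : 2 ≤ Q := hP.trans hPQ
  have hX1 : 1 ≤ X := (one_le_pow₀ (by linarith : (1 : ℝ) ≤ Q)).trans hQX
  have hX0 : 0 < X := by linarith
  have hQ4 : Q ^ 2 ≤ X ^ (1 / 2 : ℝ) := by
    rw [← Real.sqrt_eq_rpow]
    refine Real.le_sqrt_of_sq_le ?_
    calc (Q ^ 2) ^ 2 = Q ^ 4 := by ring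
      _ ≤ Q ^ 20 := pow_le_pow_right₀ (by linarith) (by norm_num)
      _ ≤ X := hQX
  set Z := V (X * Real.exp ρ) \ V X with hZ
  have hp : ∀ w ∈ PP P Q, (1 : ℝ) ≤ nm w ∧ (nm w : ℝ) ≤ Q := by
    intro w hw
    obtain ⟨h1, h2, -⟩ := mem_PP.mp hw
    exact ⟨by linarith, h2⟩
  have h1 : ∀ z, (om P Q z) ^ 2 = ∑ w ∈ PP P Q, ∑ w' ∈ PP P Q,
      (if w ∣ z ∧ w' ∣ z then (1 : ℝ) else 0) := by
    intro z
    rw [om_eq_card, Finset.card_filter, sq]
    push_cast
    rw [Finset.sum_mul_sum]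
    refine Finset.sum_congr rfl fun w _ => Finset.sum_congr rfl fun w' _ => ?_
    by_cases h1 : w ∣ z <;> by_cases h2 : w' ∣ z <;> simp [h1, h2]
  have h2 : ∑ z ∈ Z, (om P Q z) ^ 2 = ∑ w ∈ PP P Q, ∑ w' ∈ PP P Q,
      ((Z.filter (fun z => w ∣ z ∧ w' ∣ z)).card : ℝ) := by
    simp only [h1]
    rw [Finset.sum_comm]
    refine Finset.sum_congr rfl fun w _ => ?_
    rw [Finset.sum_comm]
    refine Finset.sum_congr rfl fun w' _ => ?_
    rw [Finset.card_filter]
    push_cast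
    rfl
  have h3 : ∀ w ∈ PP P Q, ∀ w' ∈ PP P Q, ((Z.filter (fun z => w ∣ z ∧ w' ∣ z)).card : ℝ) ≤
      K * ρ * X * ((if w = w' then 1 / (nm w : ℝ) else 0) + 1 / (nm w : ℝ) * (1 / (nm w' : ℝ))) := by
    intro w hw w' hw'
    obtain ⟨a1, a2⟩ := hp w hw
    obtain ⟨b1, b2⟩ := hp w' hw'
    by_cases hww : w = w'
    · subst hww
      have e1 : (Z.filter (fun z => w ∣ z ∧ w ∣ z)) = Z.filter (fun z => w ∣ z) := by
        simp only [and_self]
      rw [e1, if_pos rfl]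
      have e2 := count_annulus hκ hC hb (u := w) hX1 hρ hρ1 rfl a1
        (a2.trans ((le_self_pow₀ (by linarith) two_ne_zero).trans hQ4)) hXρ
      refine e2.trans ?_
      have e3 : (0 : ℝ) ≤ 1 / (nm w : ℝ) * (1 / (nm w : ℝ)) := by positivity
      calc K * ρ * (X / nm w) = K * ρ * X * (1 / (nm w : ℝ)) := by ring
        _ ≤ _ := by
            refine mul_le_mul_of_nonneg_left ?_ (by positivity)
            linarith
    · have hn : nm w ≠ nm w' := fun h => hww (PP_inj hw hw' h)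
      have hcop : IsCoprime w w' := (PP_spl hw).coprime (PP_spl hw') hn
      have e1 : Z.filter (fun z => w ∣ z ∧ w' ∣ z) ⊆ Z.filter (fun z => w * w' ∣ z) := by
        intro z hz
        rw [Finset.mem_filter] at hz ⊢
        exact ⟨hz.1, hcop.mul_dvd hz.2.1 hz.2.2⟩
      have e2 : ((Z.filter (fun z => w ∣ z ∧ w' ∣ z)).card : ℝ) ≤
          ((Z.filter (fun z => w * w' ∣ z)).card : ℝ) := by
        exact_mod_cast Finset.card_le_card e1
      have e3 := count_annulus hκ hC hb (u := w * w') (m := nm w * nm w') hX1 hρ hρ1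
        (by rw [nm_mul]; push_cast; rfl) (by nlinarith)
        (le_trans (by nlinarith) hQ4) hXρ
      rw [if_neg hww, zero_add]
      refine (e2.trans e3).trans (le_of_eq ?_)
      ring
  rw [h2]
  refine (Finset.sum_le_sum fun w hw => Finset.sum_le_sum fun w' hw' => h3 w hw w' hw').trans ?_
  have h4 : ∑ w ∈ PP P Q, ∑ w' ∈ PP P Q,
      K * ρ * X * ((if w = w' then 1 / (nm w : ℝ) else 0) + 1 / (nm w : ℝ) * (1 / (nm w' : ℝ))) =
      K * ρ * X * (Ls P Q + Ls P Q * Ls P Q) := by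
    simp only [← Finset.mul_sum]
    congr 1
    rw [Finset.sum_congr rfl fun w _ => Finset.sum_add_distrib, Finset.sum_add_distrib]
    congr 1
    · unfold Ls
      refine Finset.sum_congr rfl fun w hw => ?_
      rw [Finset.sum_ite_eq, if_pos hw]
    · unfold Ls
      rw [Finset.sum_mul_sum]
  rw [h4]
  have hL : 0 ≤ Ls P Q := Finset.sum_nonneg fun w _ => by positivity
  refine mul_le_mul_of_nonneg_left ?_ (by positivity)
  nlinarith

end Pool.Agent.GaussMR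

end

/-! ### from `Lib_MP_f1a94e_mr.DivLS` -/

section

/-!
# Piece DIVLS: large sieve for multiples of a split prime
-/

set_option autoImplicit false

namespace Pool.Agent.GaussMR

open Classical in
/-- substitution `z = star w * z''` -/
theorem div_sub (F : G → ℝ) (hF : PM F) (w : G) (hw : Spl w) (Y : ℝ) (k : ℤ) :
    ∑ z ∈ (V Y).filter (fun z => star w ∣ z), (F z : ℂ) * xi (-k) z =
      ((F (star w) : ℂ) * xi (-k) (star w)) *
        ∑ z ∈ V (Y / nm w), (if Prim (star w * z) then (F z : ℂ) else 0) * xi (-k) z := by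
  have hw0 : (0 : ℝ) < nm w := by
    exact_mod_cast nm_pos_of_odd hw.odd
  have hso : Odd (nm (star w)) := hw.conj.odd
  have hs0 : star w ≠ 0 := ne_zero_of_odd hso
  rw [Finset.mul_sum]
  have hfil : ∑ z ∈ V (Y / nm w), (F (star w) : ℂ) * xi (-k) (star w) *
        ((if Prim (star w * z) then (F z : ℂ) else 0) * xi (-k) z) =
      ∑ z ∈ (V (Y / nm w)).filter (fun z => Prim (star w * z)),
        (F (star w * z) : ℂ) * xi (-k) (star w * z) := by
    rw [Finset.sum_filter]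
    apply Finset.sum_congr rfl
    intro z hz
    split_ifs with h
    · rw [hF.mul _ _ hso (mem_V.1 hz).2.1, xi_mul]
      push_cast
      ring
    · simp
  rw [hfil]
  symm
  apply Finset.sum_bij (fun z _ => star w * z)
  · intro z hz
    rw [Finset.mem_filter] at hz ⊢
    obtain ⟨hz1, hz2⟩ := hz
    rw [mem_V] at hz1 ⊢
    refine ⟨⟨?_, odd_nm_mul.2 ⟨hso, hz1.2.1⟩, hz2⟩, dvd_mul_right _ _⟩
    rw [nm_mul, nm_star]
    push_cast
    have := (le_div_iff₀ hw0).1 hz1.1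
    linarith
  · intro a _ b _ hab
    exact mul_left_cancel₀ hs0 hab
  · intro z hz
    rw [Finset.mem_filter] at hz
    obtain ⟨hz1, c, hc⟩ := hz
    subst hc
    rw [mem_V] at hz1
    refine ⟨c, ?_, rfl⟩
    rw [Finset.mem_filter, mem_V]
    refine ⟨⟨?_, (odd_nm_mul.1 hz1.2.1).2, (prim_of_mul hz1.2.2).2⟩, hz1.2.2⟩
    rw [le_div_iff₀ hw0]
    have := hz1.1
    rw [nm_mul, nm_star] at this
    push_cast at this
    linarith
  · intro z _
    rfl

open Classical in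
/-- substitute `z = star w * z''` with `z'' ∈ V (Y / nm w)`; apply `large_sieve` with coefficients of
absolute value at most one supported on `V (Y / nm w)`. If `Y < nm w` the sum is empty. -/
theorem div_large_sieve : ∃ C : ℝ, 0 < C ∧ ∀ (F : G → ℝ), PM F → ∀ (w : G), Spl w →
    ∀ (Y : ℝ) (T : ℕ), 0 ≤ Y →
    ∑ k ∈ fr T, ‖∑ z ∈ (V Y).filter (fun z => star w ∣ z), (F z : ℂ) * xi (-k) z‖ ^ 2 ≤
      C * (T + Y / nm w) * (Y / nm w) := by
  obtain ⟨C, hC, hls⟩ := large_sieve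
  refine ⟨C * 9, by positivity, ?_⟩
  intro F hF w hw Y T hY
  have hw0 : (0 : ℝ) < nm w := by
    exact_mod_cast nm_pos_of_odd hw.odd
  have hso : Odd (nm (star w)) := hw.conj.odd
  have hs0 : star w ≠ 0 := ne_zero_of_odd hso
  have hX0 : 0 ≤ Y / nm w := by positivity
  have key : ∀ k : ℤ,
      ‖∑ z ∈ (V Y).filter (fun z => star w ∣ z), (F z : ℂ) * xi (-k) z‖ =
      ‖∑ z ∈ V (Y / nm w), (if Prim (star w * z) then (F z : ℂ) else 0) * xi (-k) z‖ := by
    intro k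
    rw [div_sub F hF w hw Y k, norm_mul, norm_mul, hF.norm hso, norm_xi _ hs0, one_mul, one_mul]
  simp only [key]
  rcases lt_or_ge (Y / nm w) 1 with h1 | h1
  · have hemp : V (Y / nm w) = ∅ := by
      rw [Finset.eq_empty_iff_forall_notMem]
      intro z hz
      have h2 := (mem_V.1 hz).1
      have h3 : (1 : ℝ) ≤ nm z := by exact_mod_cast nm_pos_of_odd (mem_V.1 hz).2.1
      linarith
    rw [hemp]
    simp only [Finset.sum_empty, norm_zero]
    rw [zero_pow two_ne_zero, Finset.sum_const_zero]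
    positivity
  · refine (hls (Y / nm w) T _ h1).trans ?_
    have hcard := card_V_le (Y / nm w) hX0
    have hsum : ∑ z ∈ V (Y / nm w), ‖(if Prim (star w * z) then (F z : ℂ) else 0)‖ ^ 2 ≤
        9 * (Y / nm w) := by
      refine le_trans ?_ hcard
      rw [Finset.card_eq_sum_ones]
      push_cast
      apply Finset.sum_le_sum
      intro z hz
      split_ifs
      · rw [hF.norm (mem_V.1 hz).2.1]
        norm_num
      · rw [norm_zero]
        norm_num
    calc C * (T + Y / nm w) *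
          ∑ z ∈ V (Y / nm w), ‖(if Prim (star w * z) then (F z : ℂ) else 0)‖ ^ 2
        ≤ C * (T + Y / nm w) * (9 * (Y / nm w)) := by
          apply mul_le_mul_of_nonneg_left hsum
          positivity
      _ = C * 9 * (T + Y / nm w) * (Y / nm w) := by ring

end Pool.Agent.GaussMR

end

/-! ### from `Lib_MP_f1a94e_mr.MidJ` -/

section

/-!
# Piece MIDJ: the sum of `xi j` over a disc, `t^(3/20) ≤ |j| ≤ t^(11/5)`
-/

set_option autoImplicit false

namespace Pool.Agent.GaussMR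

theorem row_bound : ∃ C : ℝ, 0 < C ∧ ∀ (q : ℕ), 2 ≤ q → q ≤ 5 → ∀ (r : ℝ) (j : ℤ) (b : ℕ) (s : ℕ),
    1 ≤ r → r ^ ((q : ℝ) - 17 / 10) ≤ |(j : ℝ)| → |(j : ℝ)| ≤ r ^ ((q : ℝ) - 2 ^ q / 64 - 1 / 100) →
    r ^ (1 - 1 / 2000 : ℝ) ≤ b → (s : ℝ) ^ 2 + (b : ℝ) ^ 2 ≤ r ^ 2 →
    ‖∑ x ∈ Finset.Icc (-(s : ℤ)) s, xi j ⟨x, b⟩‖ ≤ C * r ^ (1 - 1 / 8000 : ℝ) :=
  row_bound_of block

theorem mid_j : ∃ C : ℝ, 0 < C ∧ ∀ (t : ℝ) (j : ℤ), 1 ≤ t → t ^ (3 / 20 : ℝ) ≤ |(j : ℝ)| →
    |(j : ℝ)| ≤ t ^ (11 / 5 : ℝ) → ‖∑ z ∈ ball t, xi j z‖ ≤ C * t ^ (1 - 1 / 16000 : ℝ) :=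
  mid_j_of row_bound

end Pool.Agent.GaussMR

end

/-! ### from `Lib_MP_f1a94e_mr.WSum` -/

section

/-!
# Piece WSUM: sums of `xi j` over discs, odd elements, odd primitive elements
-/

set_option autoImplicit false

namespace Pool.Agent.GaussMR

theorem w_all : ∃ C : ℝ, 0 < C ∧ ∀ (t : ℝ) (j : ℤ), 1 ≤ t → j ≠ 0 → |(j : ℝ)| ≤ t ^ (11 / 5 : ℝ) →
    ‖∑ z ∈ ball t, xi j z‖ ≤ C * t ^ (1 - 1 / 16000 : ℝ) := by
  obtain ⟨C1, h1, H1⟩ := mid_j
  obtain ⟨C2, h2, H2⟩ := small_j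
  refine ⟨C1 + C2, by positivity, fun t j ht hj hjt => ?_⟩
  have ht0 : 0 < t := by linarith
  have hp : 0 ≤ t ^ (1 - 1 / 16000 : ℝ) := Real.rpow_nonneg ht0.le _
  rcases le_total (t ^ (3 / 20 : ℝ)) |(j : ℝ)| with h | h
  · refine (H1 t j ht h hjt).trans (mul_le_mul_of_nonneg_right (by linarith) hp)
  · refine (H2 t j ht hj).trans ?_
    have h3 : C2 * |(j : ℝ)| * Real.sqrt t ≤ C2 * t ^ (3 / 20 : ℝ) * t ^ (1 / 2 : ℝ) := by
      rw [Real.sqrt_eq_rpow]
      exact mul_le_mul_of_nonneg_right (mul_le_mul_of_nonneg_left h h2.le) (by positivity)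
    have h4 : C2 * t ^ (3 / 20 : ℝ) * t ^ (1 / 2 : ℝ) ≤ C2 * t ^ (1 - 1 / 16000 : ℝ) := by
      rw [mul_assoc, ← Real.rpow_add ht0]
      exact mul_le_mul_of_nonneg_left (Real.rpow_le_rpow_of_exponent_le ht (by norm_num)) h2.le
    refine (h3.trans h4).trans (mul_le_mul_of_nonneg_right (by linarith) hp)

namespace WSumAux

/-- the prime above two -/
def pi2 : G := ⟨1, 1⟩

theorem nm_pi2 : nm pi2 = 2 := by
  have h : (nm pi2 : ℤ) = 2 := by
    rw [nm_eq, pi2]; norm_num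
  exact_mod_cast h

theorem pi2_ne_zero : pi2 ≠ 0 := by
  intro h
  have := congrArg nm h
  rw [nm_pi2, nm_zero] at this
  exact absurd this (by norm_num)

theorem mul_pi2_injective : Function.Injective fun w : G => pi2 * w :=
  fun _ _ h => mul_left_cancel₀ pi2_ne_zero h

open Classical in
/-- the even elements of a disc -/
theorem even_ball (t : ℝ) : (ball t).filter (fun z => ¬ Odd (nm z)) =
    (ball (t / 2)).image fun w => pi2 * w := by
  ext z
  simp only [Finset.mem_filter, Finset.mem_image, mem_ball]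
  constructor
  · rintro ⟨h1, h2⟩
    rw [odd_nm_iff, Int.not_odd_iff_even] at h2
    obtain ⟨a, ha⟩ := h2
    have hz : z = pi2 * ⟨a, a - z.re⟩ := by
      apply Zsqrtd.ext
      · simp [pi2]
      · simp [pi2]; linarith
    refine ⟨⟨a, a - z.re⟩, ?_, hz.symm⟩
    have h3 : nm z = 2 * nm (⟨a, a - z.re⟩ : G) := by
      conv_lhs => rw [hz]
      rw [nm_mul, nm_pi2]
    rw [h3] at h1
    push_cast at h1
    linarith
  · rintro ⟨w, h1, rfl⟩
    rw [nm_mul, nm_pi2]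
    constructor
    · push_cast; linarith
    · rw [Nat.not_odd_iff_even]; exact even_two_mul _

theorem sum_ob (t : ℝ) (j : ℤ) :
    ∑ z ∈ ob t, xi j z = ∑ z ∈ ball t, xi j z - xi j pi2 * ∑ z ∈ ball (t / 2), xi j z := by
  classical
  have h := Finset.sum_filter_add_sum_filter_not (ball t) (fun z => Odd (nm z)) (fun z => xi j z)
  rw [even_ball, Finset.sum_image (fun a _ b _ hab => mul_pi2_injective hab)] at h
  have h2 : ∑ x ∈ ball (t / 2), xi j (pi2 * x) = xi j pi2 * ∑ z ∈ ball (t / 2), xi j z := by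
    rw [Finset.mul_sum]
    exact Finset.sum_congr rfl fun x _ => xi_mul j pi2 x
  rw [h2] at h
  rw [← h]
  unfold ob
  ring

theorem card_ob_le (t : ℝ) (ht : 0 ≤ t) : ((ob t).card : ℝ) ≤ 9 * t := by
  classical
  refine le_trans ?_ (card_ball_le t ht)
  exact_mod_cast Finset.card_le_card fun z hz => by
    rw [ob, Finset.mem_filter] at hz
    exact Finset.mem_filter.2 ⟨hz.1, ne_zero_of_odd hz.2⟩

theorem norm_sum_ob_le (t : ℝ) (ht : 0 ≤ t) (j : ℤ) : ‖∑ z ∈ ob t, xi j z‖ ≤ 9 * t := by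
  refine (norm_sum_le _ _).trans ?_
  have h : ∀ z ∈ ob t, ‖xi j z‖ ≤ 1 := by
    intro z hz
    rw [ob, Finset.mem_filter] at hz
    exact (norm_xi j (ne_zero_of_odd hz.2)).le
  refine (Finset.sum_le_sum h).trans ?_
  rw [Finset.sum_const, nsmul_eq_mul, mul_one]
  exact card_ob_le t ht

end WSumAux

open WSumAux

/-- the even elements of `ball t` are `(1 + i) z`, `z ∈ ball (t / 2)` -/
theorem w_odd : ∃ C : ℝ, 0 < C ∧ ∀ (t : ℝ) (j : ℤ), 1 ≤ t → j ≠ 0 → |(j : ℝ)| ≤ t ^ (43 / 20 : ℝ) →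
    ‖∑ z ∈ ob t, xi j z‖ ≤ C * t ^ (1 - 1 / 16000 : ℝ) := by
  obtain ⟨C, hC, H⟩ := w_all
  refine ⟨2 * C + 18, by positivity, fun t j ht hj hjt => ?_⟩
  have ht0 : 0 < t := by linarith
  have hp : 0 ≤ t ^ (1 - 1 / 16000 : ℝ) := Real.rpow_nonneg ht0.le _
  rcases le_total ((2 : ℝ) ^ (44 : ℝ)) t with h | h
  · have ht2 : 1 ≤ t / 2 := by
      have : (2 : ℝ) ≤ 2 ^ (44 : ℝ) := by
        conv_lhs => rw [← Real.rpow_one 2]
        exact Real.rpow_le_rpow_of_exponent_le (by norm_num) (by norm_num)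
      linarith
    have h3 : |(j : ℝ)| ≤ (t / 2) ^ (11 / 5 : ℝ) := by
      refine hjt.trans ?_
      rw [Real.div_rpow ht0.le (by norm_num), le_div_iff₀ (by positivity)]
      have h4 : (2 : ℝ) ^ (11 / 5 : ℝ) ≤ t ^ (1 / 20 : ℝ) := by
        have h5 := Real.rpow_le_rpow (by positivity) h (by norm_num : (0 : ℝ) ≤ 1 / 20)
        rw [← Real.rpow_mul (by norm_num)] at h5
        refine le_trans (le_of_eq ?_) h5
        norm_num
      calc t ^ (43 / 20 : ℝ) * 2 ^ (11 / 5 : ℝ) ≤ t ^ (43 / 20 : ℝ) * t ^ (1 / 20 : ℝ) :=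
            mul_le_mul_of_nonneg_left h4 (by positivity)
        _ = t ^ (11 / 5 : ℝ) := by
            rw [← Real.rpow_add ht0]; norm_num
    have h6 : |(j : ℝ)| ≤ t ^ (11 / 5 : ℝ) :=
      hjt.trans (Real.rpow_le_rpow_of_exponent_le ht (by norm_num))
    have a1 := H t j ht hj h6
    have a2 := H (t / 2) j ht2 hj h3
    have a3 : (t / 2) ^ (1 - 1 / 16000 : ℝ) ≤ t ^ (1 - 1 / 16000 : ℝ) :=
      Real.rpow_le_rpow (by linarith) (by linarith) (by norm_num)
    rw [sum_ob]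
    refine (norm_sub_le _ _).trans ?_
    rw [norm_mul, norm_xi j pi2_ne_zero, one_mul]
    have a4 := mul_le_mul_of_nonneg_left a3 hC.le
    nlinarith
  · refine (norm_sum_ob_le t ht0.le j).trans ?_
    have h1 : t ^ (1 / 16000 : ℝ) ≤ 2 := by
      have h5 := Real.rpow_le_rpow ht0.le h (by norm_num : (0 : ℝ) ≤ 1 / 16000)
      rw [← Real.rpow_mul (by norm_num)] at h5
      refine h5.trans ?_
      conv_rhs => rw [← Real.rpow_one 2]
      exact Real.rpow_le_rpow_of_exponent_le (by norm_num) (by norm_num)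
    have h2 : t = t ^ (1 - 1 / 16000 : ℝ) * t ^ (1 / 16000 : ℝ) := by
      rw [← Real.rpow_add ht0]; norm_num
    have h3 : t ≤ 2 * t ^ (1 - 1 / 16000 : ℝ) := by
      calc t = t ^ (1 - 1 / 16000 : ℝ) * t ^ (1 / 16000 : ℝ) := h2
        _ ≤ t ^ (1 - 1 / 16000 : ℝ) * 2 := mul_le_mul_of_nonneg_left h1 hp
        _ = _ := by ring
    nlinarith

namespace WSumAux

/-- the gcd of the coordinates -/
def gc (z : G) : ℕ := Int.gcd z.re z.im

theorem natCast_dvd_iff (d : ℕ) (z : G) : (d : G) ∣ z ↔ d ∣ gc z := by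
  have key : (d : G) ∣ z ↔ (d : ℤ) ∣ z.re ∧ (d : ℤ) ∣ z.im := by
    have := Zsqrtd.intCast_dvd (d := -1) (d : ℤ) z
    simpa using this
  rw [key, gc]
  constructor
  · intro h
    exact_mod_cast Int.dvd_coe_gcd h.1 h.2
  · intro h
    have h' : (d : ℤ) ∣ (Int.gcd z.re z.im : ℤ) := by exact_mod_cast h
    exact ⟨h'.trans (Int.gcd_dvd_left _ _), h'.trans (Int.gcd_dvd_right _ _)⟩

theorem nm_natCast (d : ℕ) : nm (d : G) = d ^ 2 := by
  have h : (nm (d : G) : ℤ) = d ^ 2 := by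
    rw [nm_eq]; simp
  exact_mod_cast h

theorem gc_pos {z : G} (h : z ≠ 0) : 0 < gc z := by
  rw [gc, Int.gcd_pos_iff]
  by_contra h'
  push Not at h'
  exact h (Zsqrtd.ext h'.1 h'.2)

theorem gc_sq_le {z : G} (h : z ≠ 0) : gc z ^ 2 ≤ nm z := by
  have h1 : ((gc z : ℕ) : G) ∣ z := (natCast_dvd_iff _ _).2 dvd_rfl
  have h2 := nm_dvd h1
  rw [nm_natCast] at h2
  exact Nat.le_of_dvd (nm_pos h) h2

theorem prim_iff_gc {z : G} : Prim z ↔ gc z = 1 := by
  unfold Prim gc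
  rw [Int.isCoprime_iff_gcd_eq_one]

open Classical in
/-- Moebius detects primitive elements -/
theorem moebius_prim {t : ℝ} {z : G} (hz : z ≠ 0) (h : (nm z : ℝ) ≤ t) :
    (∑ d ∈ (Finset.Icc 1 ⌊t⌋₊).filter (fun d => d ∣ gc z), (ArithmeticFunction.moebius d : ℤ)) =
      if Prim z then 1 else 0 := by
  have hg := gc_pos hz
  have h1 : (Finset.Icc 1 ⌊t⌋₊).filter (fun d => d ∣ gc z) = (gc z).divisors := by
    ext d
    simp only [Finset.mem_filter, Finset.mem_Icc, Nat.mem_divisors]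
    constructor
    · rintro ⟨⟨_, _⟩, h3⟩
      exact ⟨h3, hg.ne'⟩
    · rintro ⟨h3, _⟩
      refine ⟨⟨Nat.pos_of_dvd_of_pos h3 hg, ?_⟩, h3⟩
      apply Nat.le_floor
      have h4 : d ≤ gc z := Nat.le_of_dvd hg h3
      have h5 : gc z ≤ gc z ^ 2 := Nat.le_self_pow two_ne_zero _
      have h6 : d ≤ nm z := h4.trans (h5.trans (gc_sq_le hz))
      exact le_trans (by exact_mod_cast h6) h
  rw [h1, ← ArithmeticFunction.coe_mul_zeta_apply, ArithmeticFunction.moebius_mul_coe_zeta,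
    ArithmeticFunction.one_apply]
  exact if_congr prim_iff_gc.symm rfl rfl

open Classical in
/-- multiples of an odd number `d` -/
theorem sum_multiples (t : ℝ) (j : ℤ) {d : ℕ} (hd : Odd d) :
    ∑ z ∈ (ob t).filter (fun z => d ∣ gc z), xi j z = ∑ w ∈ ob (t / d ^ 2), xi j w := by
  have hd0 : 0 < d := hd.pos
  have hdG : (d : G) ≠ 0 := by exact_mod_cast hd0.ne'
  have himg : (ob t).filter (fun z => d ∣ gc z) = (ob (t / d ^ 2)).image fun w => (d : G) * w := by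
    ext z
    simp only [Finset.mem_filter, Finset.mem_image, ob, mem_ball]
    constructor
    · rintro ⟨⟨h1, h2⟩, h3⟩
      obtain ⟨w, rfl⟩ := (natCast_dvd_iff d z).2 h3
      refine ⟨w, ⟨?_, (odd_nm_mul.1 h2).2⟩, rfl⟩
      rw [le_div_iff₀ (by positivity)]
      rw [nm_mul, nm_natCast] at h1
      push_cast at h1
      linarith
    · rintro ⟨w, ⟨h1, h2⟩, rfl⟩
      refine ⟨⟨?_, ?_⟩, (natCast_dvd_iff _ _).1 (dvd_mul_right _ _)⟩
      · rw [le_div_iff₀ (by positivity)] at h1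
        rw [nm_mul, nm_natCast]
        push_cast
        linarith
      · rw [odd_nm_mul, nm_natCast]
        exact ⟨hd.pow, h2⟩
  rw [himg, Finset.sum_image (fun a _ b _ hab => mul_left_cancel₀ hdG hab)]
  exact Finset.sum_congr rfl fun w _ => xi_natCast_mul j hd0 w

open Classical in
/-- there are no odd multiples of even numbers -/
theorem sum_multiples_even (t : ℝ) (j : ℤ) {d : ℕ} (hd : ¬ Odd d) :
    ∑ z ∈ (ob t).filter (fun z => d ∣ gc z), xi j z = 0 := by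
  refine Finset.sum_eq_zero fun z hz => ?_
  exfalso
  simp only [Finset.mem_filter, ob, mem_ball] at hz
  obtain ⟨w, rfl⟩ := (natCast_dvd_iff d z).2 hz.2
  have := (odd_nm_mul.1 hz.1.2).1
  rw [nm_natCast] at this
  exact hd (Nat.odd_pow_iff two_ne_zero |>.1 this)

open Classical in
theorem sum_V_eq (t : ℝ) (j : ℤ) : ∑ z ∈ V t, xi j z =
    ∑ d ∈ Finset.Icc 1 ⌊t⌋₊, ((ArithmeticFunction.moebius d : ℤ) : ℂ) *
      ∑ z ∈ (ob t).filter (fun z => d ∣ gc z), xi j z := by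
  have h1 : V t = (ob t).filter Prim := by
    ext z
    simp only [mem_V, ob, Finset.mem_filter, mem_ball]
    tauto
  have h2 : ∀ z ∈ ob t, (if Prim z then xi j z else 0) = ∑ d ∈ Finset.Icc 1 ⌊t⌋₊,
      (if d ∣ gc z then ((ArithmeticFunction.moebius d : ℤ) : ℂ) * xi j z else 0) := by
    intro z hz
    simp only [ob, Finset.mem_filter, mem_ball] at hz
    have h3 := moebius_prim (ne_zero_of_odd hz.2) hz.1
    rw [← Finset.sum_filter, ← Finset.sum_mul]
    have h4 : (∑ d ∈ (Finset.Icc 1 ⌊t⌋₊).filter (fun d => d ∣ gc z),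
        ((ArithmeticFunction.moebius d : ℤ) : ℂ)) = if Prim z then 1 else 0 := by
      rw [← Int.cast_sum, h3]
      split_ifs <;> simp
    rw [h4]
    split_ifs <;> simp
  rw [h1, Finset.sum_filter, Finset.sum_congr rfl h2, Finset.sum_comm]
  refine Finset.sum_congr rfl fun d _ => ?_
  rw [← Finset.sum_filter, Finset.mul_sum]

end WSumAux

/-- `∑_{z ∈ V t} xi j z = ∑_{d odd} μ(d) ∑_{z ∈ ob (t / d²)} xi j z` (`xi j (d z) = xi j z`); use `w_odd`
for `d ≤ t^(1/100)` and the trivial bound `9 t / d²` for larger `d` -/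
theorem w_V : ∃ C : ℝ, 0 < C ∧ ∀ (t : ℝ) (j : ℤ), 1 ≤ t → j ≠ 0 → |(j : ℝ)| ≤ t ^ (21 / 10 : ℝ) →
    ‖∑ z ∈ V t, xi j z‖ ≤ C * t ^ (1 - 1 / 16000 : ℝ) := by
  classical
  obtain ⟨C, hC, H⟩ := w_odd
  have hsum : Summable fun n : ℕ => 1 / (n : ℝ) ^ (3 / 2 : ℝ) :=
    Real.summable_one_div_nat_rpow.2 (by norm_num)
  set S : ℝ := ∑' n : ℕ, 1 / (n : ℝ) ^ (3 / 2 : ℝ) with hS
  have hS0 : 0 ≤ S := tsum_nonneg fun n => by positivity
  refine ⟨(C + 9) * (S + 1), by positivity, fun t j ht hj hjt => ?_⟩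
  have ht0 : 0 < t := by linarith
  have hp : 0 ≤ t ^ (1 - 1 / 16000 : ℝ) := Real.rpow_nonneg ht0.le _
  rw [sum_V_eq]
  have key : ∀ d ∈ Finset.Icc 1 ⌊t⌋₊, ‖((ArithmeticFunction.moebius d : ℤ) : ℂ) *
      ∑ z ∈ (ob t).filter (fun z => d ∣ WSumAux.gc z), xi j z‖ ≤
      (C + 9) * t ^ (1 - 1 / 16000 : ℝ) * (1 / (d : ℝ) ^ (3 / 2 : ℝ)) := by
    intro d hd
    have hd1 : 1 ≤ d := (Finset.mem_Icc.1 hd).1
    have hdr : (1 : ℝ) ≤ d := by exact_mod_cast hd1
    have hd0 : (0 : ℝ) < d := by linarith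
    have hmu : ‖((ArithmeticFunction.moebius d : ℤ) : ℂ)‖ ≤ 1 := by
      rw [Complex.norm_intCast]
      exact_mod_cast ArithmeticFunction.abs_moebius_le_one
    rw [norm_mul]
    refine (mul_le_of_le_one_left (norm_nonneg _) hmu).trans ?_
    by_cases hodd : Odd d
    · rw [sum_multiples t j hodd]
      rcases le_total (d : ℝ) (t ^ (1 / 100 : ℝ)) with hdt | hdt
      · -- small `d`
        have e1 : t ^ (49 / 50 : ℝ) ≤ t / d ^ 2 := by
          rw [le_div_iff₀ (by positivity)]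
          have : (d : ℝ) ^ 2 ≤ t ^ (1 / 50 : ℝ) := by
            have h5 := pow_le_pow_left₀ hd0.le hdt 2
            rw [← Real.rpow_natCast (t ^ (1 / 100 : ℝ)) 2, ← Real.rpow_mul ht0.le] at h5
            refine h5.trans (le_of_eq ?_)
            norm_num
          calc t ^ (49 / 50 : ℝ) * (d : ℝ) ^ 2 ≤ t ^ (49 / 50 : ℝ) * t ^ (1 / 50 : ℝ) :=
                mul_le_mul_of_nonneg_left this (by positivity)
            _ = t := by rw [← Real.rpow_add ht0]; norm_num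
        have e2 : 1 ≤ t / (d : ℝ) ^ 2 := (Real.one_le_rpow ht (by norm_num)).trans e1
        have e3 : |(j : ℝ)| ≤ (t / (d : ℝ) ^ 2) ^ (43 / 20 : ℝ) := by
          refine hjt.trans ?_
          have h5 := Real.rpow_le_rpow (by positivity) e1 (by norm_num : (0 : ℝ) ≤ 43 / 20)
          rw [← Real.rpow_mul ht0.le] at h5
          exact (Real.rpow_le_rpow_of_exponent_le ht (by norm_num)).trans h5
        refine (H _ j e2 hj e3).trans ?_
        have e4 : (t / (d : ℝ) ^ 2) ^ (1 - 1 / 16000 : ℝ) ≤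
            t ^ (1 - 1 / 16000 : ℝ) * (1 / (d : ℝ) ^ (3 / 2 : ℝ)) := by
          rw [Real.div_rpow ht0.le (by positivity), div_eq_mul_one_div]
          refine mul_le_mul_of_nonneg_left ?_ hp
          refine one_div_le_one_div_of_le (by positivity) ?_
          rw [← Real.rpow_natCast (d : ℝ) 2, ← Real.rpow_mul hd0.le]
          exact Real.rpow_le_rpow_of_exponent_le hdr (by norm_num)
        calc C * (t / (d : ℝ) ^ 2) ^ (1 - 1 / 16000 : ℝ) ≤
            C * (t ^ (1 - 1 / 16000 : ℝ) * (1 / (d : ℝ) ^ (3 / 2 : ℝ))) :=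
              mul_le_mul_of_nonneg_left e4 hC.le
          _ ≤ (C + 9) * (t ^ (1 - 1 / 16000 : ℝ) * (1 / (d : ℝ) ^ (3 / 2 : ℝ))) :=
              mul_le_mul_of_nonneg_right (by linarith) (by positivity)
          _ = _ := by ring
      · -- large `d`
        refine (norm_sum_ob_le _ (by positivity) j).trans ?_
        have e1 : t / (d : ℝ) ^ 2 ≤ t ^ (1 - 1 / 16000 : ℝ) * (1 / (d : ℝ) ^ (3 / 2 : ℝ)) := by
          rw [mul_one_div, div_le_div_iff₀ (by positivity) (by positivity)]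
          have e2 : t ^ (1 / 16000 : ℝ) ≤ (d : ℝ) ^ (1 / 2 : ℝ) := by
            have h5 := Real.rpow_le_rpow (by positivity) hdt (by norm_num : (0 : ℝ) ≤ 1 / 2)
            rw [← Real.rpow_mul ht0.le] at h5
            exact (Real.rpow_le_rpow_of_exponent_le ht (by norm_num)).trans h5
          calc t * (d : ℝ) ^ (3 / 2 : ℝ) =
              t ^ (1 - 1 / 16000 : ℝ) * t ^ (1 / 16000 : ℝ) * (d : ℝ) ^ (3 / 2 : ℝ) := by
                rw [← Real.rpow_add ht0]; norm_num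
            _ ≤ t ^ (1 - 1 / 16000 : ℝ) * (d : ℝ) ^ (1 / 2 : ℝ) * (d : ℝ) ^ (3 / 2 : ℝ) :=
                mul_le_mul_of_nonneg_right (mul_le_mul_of_nonneg_left e2 hp) (by positivity)
            _ = t ^ (1 - 1 / 16000 : ℝ) * (d : ℝ) ^ 2 := by
                rw [mul_assoc, ← Real.rpow_add hd0]
                norm_num
        calc 9 * (t / (d : ℝ) ^ 2) ≤ 9 * (t ^ (1 - 1 / 16000 : ℝ) * (1 / (d : ℝ) ^ (3 / 2 : ℝ))) :=
              mul_le_mul_of_nonneg_left e1 (by norm_num)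
          _ ≤ (C + 9) * (t ^ (1 - 1 / 16000 : ℝ) * (1 / (d : ℝ) ^ (3 / 2 : ℝ))) :=
              mul_le_mul_of_nonneg_right (by linarith) (by positivity)
          _ = _ := by ring
    · rw [sum_multiples_even t j hodd, norm_zero]
      positivity
  refine (norm_sum_le _ _).trans ((Finset.sum_le_sum key).trans ?_)
  rw [← Finset.mul_sum]
  have h6 : ∑ d ∈ Finset.Icc 1 ⌊t⌋₊, (1 / (d : ℝ) ^ (3 / 2 : ℝ)) ≤ S :=
    hsum.sum_le_tsum _ fun n _ => by positivity
  calc (C + 9) * t ^ (1 - 1 / 16000 : ℝ) * ∑ d ∈ Finset.Icc 1 ⌊t⌋₊, (1 / (d : ℝ) ^ (3 / 2 : ℝ)) ≤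
      (C + 9) * t ^ (1 - 1 / 16000 : ℝ) * (S + 1) :=
        mul_le_mul_of_nonneg_left (by linarith) (by positivity)
    _ = (C + 9) * (S + 1) * t ^ (1 - 1 / 16000 : ℝ) := by ring

end Pool.Agent.GaussMR

end

/-! ### from `Lib_MP_f1a94e_mr.Weight` -/

section

/-!
# Piece WEIGHT: the sifted weights in arithmetic progressions
-/

set_option autoImplicit false

namespace Pool.Agent.GaussMR

namespace Weight

theorem mem_ob {t : ℝ} {z : G} : z ∈ ob t ↔ (nm z : ℝ) ≤ t ∧ Odd (nm z) := by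
  classical
  simp [ob, mem_ball]

open Classical in
theorem ob_sdiff (a b : ℝ) : ob a \ ob b = (ball a \ ball b).filter (fun z => Odd (nm z)) := by
  ext z
  simp only [Finset.mem_sdiff, mem_ob, Finset.mem_filter, mem_ball]
  tauto

open Classical in
/-- substitute `u = d s` -/
theorem reindex {d : G} (hd : Odd (nm d)) (a b : ℝ) (f : G → ℝ) :
    ∑ u ∈ (ob a \ ob b).filter (fun u => d ∣ u), f u =
      ∑ s ∈ ob (a / nm d) \ ob (b / nm d), f (d * s) := by
  have hd0 : d ≠ 0 := ne_zero_of_odd hd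
  have hn : (0 : ℝ) < nm d := by exact_mod_cast nm_pos hd0
  symm
  apply Finset.sum_bij (fun s _ => d * s)
  · intro s hs
    rw [Finset.mem_sdiff, mem_ob, mem_ob] at hs
    obtain ⟨⟨h1, h2⟩, h3⟩ := hs
    rw [Finset.mem_filter, Finset.mem_sdiff, mem_ob, mem_ob, nm_mul]
    have h4 : ¬ ((nm s : ℝ) ≤ b / nm d) := fun h => h3 ⟨h, h2⟩
    rw [le_div_iff₀ hn] at h1 h4
    refine ⟨⟨⟨?_, hd.mul h2⟩, ?_⟩, dvd_mul_right d s⟩
    · push_cast
      linarith
    · rintro ⟨h5, -⟩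
      apply h4
      push_cast at h5
      linarith
  · intro s _ t _ h
    exact mul_left_cancel₀ hd0 h
  · intro u hu
    rw [Finset.mem_filter, Finset.mem_sdiff, mem_ob, mem_ob] at hu
    obtain ⟨⟨⟨h1, h2⟩, h3⟩, ⟨s, rfl⟩⟩ := hu
    refine ⟨s, ?_, rfl⟩
    rw [nm_mul] at h1 h2 h3
    have h4 : ¬ (((nm d * nm s : ℕ) : ℝ) ≤ b) := fun h => h3 ⟨h, h2⟩
    have hs : Odd (nm s) := (Nat.odd_mul.1 h2).2
    rw [Finset.mem_sdiff, mem_ob, mem_ob, le_div_iff₀ hn, le_div_iff₀ hn]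
    push_cast at h1 h4
    refine ⟨⟨by linarith, hs⟩, ?_⟩
    rintro ⟨h5, -⟩
    apply h4
    linarith
  · intro s _
    rfl

open Classical in
theorem sum_odd (t : ℝ) (g : G → ℂ) :
    ∑ z ∈ ball t, (if Odd (nm z) then g z else 0) = ∑ z ∈ ob t, g z := by
  rw [ob, Finset.sum_filter]

open Classical in
theorem sum_odd_sdiff (a b : ℝ) (g : G → ℂ) :
    ∑ z ∈ ball a \ ball b, (if Odd (nm z) then g z else 0) / (nm z : ℂ) =
      ∑ z ∈ ob a \ ob b, g z / (nm z : ℂ) := by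
  rw [ob_sdiff, Finset.sum_filter]
  refine Finset.sum_congr rfl fun z _ => ?_
  split_ifs <;> simp

/-- partial summation for odd elements -/
theorem partial_odd (δ : ℝ) (hδ : 0 < δ) (hδ1 : δ ≤ 1) (g : G → ℂ) (κ : ℂ) (E t1 t2 : ℝ)
    (h1 : 1 ≤ t1) (h2 : t1 ≤ t2) (hE : 0 ≤ E)
    (h : ∀ t : ℝ, t1 ≤ t → t ≤ t2 → ‖∑ z ∈ ob t, g z - κ * t‖ ≤ E * t ^ (1 - δ)) :
    ‖∑ z ∈ ob t2 \ ob t1, g z / (nm z : ℂ) - κ * (Real.log (t2 / t1) : ℂ)‖ ≤
      4 * E / δ * t1 ^ (-δ) := by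
  classical
  rw [← sum_odd_sdiff]
  apply partial_sum δ hδ hδ1 _ κ E t1 t2 h1 h2 hE
  intro t ht1 ht2
  rw [sum_odd]
  exact h t ht1 ht2

end Weight

open Classical in
/-- substitute `u = d s` with `s` odd, `X^(12/25) / nm d < nm s ≤ X^(13/25) / nm d`; use `partial_sum`
with `odd_asymp` (`κ_odd log (X^(1/25)) = κ log X`) and with `w_odd` for `j = 2 k`, `|2k| ≤ 2 X ≤
(X^(0.479))^(43/20)` -/
theorem weight : ∃ κ X0 : ℝ, 0 < κ ∧ ∀ X : ℝ, X0 ≤ X → ∀ d : G, Odd (nm d) →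
    (nm d : ℝ) ≤ X ^ (1 / 1000 : ℝ) → ∀ k : ℤ, k ≠ 0 → |(k : ℝ)| ≤ X →
    |∑ u ∈ (ob (X ^ (13 / 25 : ℝ)) \ ob (X ^ (12 / 25 : ℝ))).filter (fun u => d ∣ u),
      (1 / (nm u : ℝ)) * (1 - (xi (2 * k) u).re) - κ * Real.log X / nm d| ≤
      X ^ (-(1 / 40000 : ℝ)) := by
  obtain ⟨κ0, C, hκ0, hC, hodd⟩ := odd_asymp
  obtain ⟨C', hC', hw⟩ := w_odd
  -- eventual inequalities
  have hev1 : ∀ᶠ X : ℝ in Filter.atTop, 2 ≤ X ^ (1 / 50 : ℝ) :=
    (tendsto_rpow_atTop (by norm_num)).eventually_ge_atTop 2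
  have hev2 : ∀ᶠ X : ℝ in Filter.atTop, 8 * C + 64000 * C' ≤ X ^ (1 / 400000 : ℝ) :=
    (tendsto_rpow_atTop (by norm_num)).eventually_ge_atTop _
  obtain ⟨X0, hX0⟩ := Filter.eventually_atTop.1 (hev1.and hev2)
  refine ⟨κ0 / 25, max X0 1, by positivity, ?_⟩
  intro X hX d hd hdX k hk hkX
  have hX1 : 1 ≤ X := (le_max_right _ _).trans hX
  have hXpos : 0 < X := by linarith
  obtain ⟨he1, he2⟩ := hX0 X ((le_max_left _ _).trans hX)
  have hd0 : d ≠ 0 := ne_zero_of_odd hd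
  have hn : (0 : ℝ) < nm d := by exact_mod_cast nm_pos hd0
  have hn1 : (1 : ℝ) ≤ nm d := by exact_mod_cast nm_pos hd0
  set T1 : ℝ := X ^ (12 / 25 : ℝ) / nm d with hT1
  set T2 : ℝ := X ^ (13 / 25 : ℝ) / nm d with hT2
  have hT1low : X ^ (479 / 1000 : ℝ) ≤ T1 := by
    rw [hT1, le_div_iff₀ hn]
    calc X ^ (479 / 1000 : ℝ) * nm d ≤ X ^ (479 / 1000 : ℝ) * X ^ (1 / 1000 : ℝ) :=
          mul_le_mul_of_nonneg_left hdX (Real.rpow_nonneg hXpos.le _)
      _ = X ^ (12 / 25 : ℝ) := by rw [← Real.rpow_add hXpos]; norm_num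
  have hT1one : 1 ≤ T1 := (Real.one_le_rpow hX1 (by norm_num)).trans hT1low
  have hT1pos : 0 < T1 := by linarith
  have hT12 : T1 ≤ T2 := by
    rw [hT1, hT2]
    exact div_le_div_of_nonneg_right (Real.rpow_le_rpow_of_exponent_le hX1 (by norm_num)) hn.le
  have hlog : Real.log (T2 / T1) = 1 / 25 * Real.log X := by
    have h1 : T2 / T1 = X ^ (1 / 25 : ℝ) := by
      rw [hT1, hT2, div_div_div_cancel_right₀ hn.ne', ← Real.rpow_sub hXpos]
      norm_num
    rw [h1, Real.log_rpow hXpos]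
  -- the two sums
  have hA := Weight.partial_odd (1 / 2) (by norm_num) (by norm_num) (fun _ => 1) (κ0 : ℂ) C T1 T2
    hT1one hT12 hC.le (by
      intro t ht1 ht2
      have h1 := hodd t (by linarith)
      have h2 : ∑ z ∈ ob t, (1 : ℂ) - (κ0 : ℂ) * (t : ℂ) =
          ((((ob t).card : ℝ) - κ0 * t : ℝ) : ℂ) := by
        push_cast
        simp
      rw [h2, Complex.norm_real, Real.norm_eq_abs]
      refine h1.trans (le_of_eq ?_)
      rw [Real.sqrt_eq_rpow]
      norm_num)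
  have hB := Weight.partial_odd (1 / 16000) (by norm_num) (by norm_num) (fun z => xi (2 * k) z) 0
    C' T1 T2 hT1one hT12 hC'.le (by
      intro t ht1 ht2
      have h1 : |((2 * k : ℤ) : ℝ)| ≤ t ^ (43 / 20 : ℝ) := by
        have h2 : |((2 * k : ℤ) : ℝ)| = 2 * |(k : ℝ)| := by
          push_cast
          rw [abs_mul, abs_two]
        rw [h2]
        calc 2 * |(k : ℝ)| ≤ X ^ (1 / 50 : ℝ) * X :=
              mul_le_mul he1 hkX (abs_nonneg _) (Real.rpow_nonneg hXpos.le _)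
          _ = X ^ (51 / 50 : ℝ) := by
              nth_rewrite 2 [← Real.rpow_one X]
              rw [← Real.rpow_add hXpos]
              norm_num
          _ ≤ X ^ (479 / 1000 * (43 / 20) : ℝ) :=
              Real.rpow_le_rpow_of_exponent_le hX1 (by norm_num)
          _ = (X ^ (479 / 1000 : ℝ)) ^ (43 / 20 : ℝ) := by rw [Real.rpow_mul hXpos.le]
          _ ≤ t ^ (43 / 20 : ℝ) := by
              apply Real.rpow_le_rpow (Real.rpow_nonneg hXpos.le _) (hT1low.trans ht1)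
              norm_num
      have h3 := hw t (2 * k) (hT1one.trans ht1) (by omega) h1
      rw [zero_mul, sub_zero]
      exact h3)
  rw [Weight.reindex hd]
  -- bounds for the powers of T1
  have hp1 : T1 ^ (-(1 / 2) : ℝ) ≤ X ^ (-(11 / 400000) : ℝ) := by
    calc T1 ^ (-(1 / 2) : ℝ) ≤ (X ^ (479 / 1000 : ℝ)) ^ (-(1 / 2) : ℝ) :=
          Real.rpow_le_rpow_of_nonpos (Real.rpow_pos_of_pos hXpos _) hT1low (by norm_num)
      _ = X ^ (479 / 1000 * (-(1 / 2)) : ℝ) := by rw [Real.rpow_mul hXpos.le]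
      _ ≤ X ^ (-(11 / 400000) : ℝ) := Real.rpow_le_rpow_of_exponent_le hX1 (by norm_num)
  have hp2 : T1 ^ (-(1 / 16000) : ℝ) ≤ X ^ (-(11 / 400000) : ℝ) := by
    calc T1 ^ (-(1 / 16000) : ℝ) ≤ (X ^ (479 / 1000 : ℝ)) ^ (-(1 / 16000) : ℝ) :=
          Real.rpow_le_rpow_of_nonpos (Real.rpow_pos_of_pos hXpos _) hT1low (by norm_num)
      _ = X ^ (479 / 1000 * (-(1 / 16000)) : ℝ) := by rw [Real.rpow_mul hXpos.le]
      _ ≤ X ^ (-(11 / 400000) : ℝ) := Real.rpow_le_rpow_of_exponent_le hX1 (by norm_num)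
  set SA : ℂ := ∑ z ∈ ob T2 \ ob T1, (1 : ℂ) / (nm z : ℂ) with hSA
  set SB : ℂ := ∑ z ∈ ob T2 \ ob T1, xi (2 * k) z / (nm z : ℂ) with hSB
  have hsum : ∑ s ∈ ob T2 \ ob T1, (1 / (nm (d * s) : ℝ)) * (1 - (xi (2 * k) (d * s)).re) =
      (1 / (nm d : ℝ)) * (SA - xi (2 * k) d * SB).re := by
    rw [hSA, hSB, Finset.mul_sum, ← Finset.sum_sub_distrib, Complex.re_sum, Finset.mul_sum]
    refine Finset.sum_congr rfl fun s _ => ?_
    rw [nm_mul, xi_mul]
    have h1 : (1 : ℂ) / (nm s : ℂ) - xi (2 * k) d * (xi (2 * k) s / (nm s : ℂ)) =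
        ((1 / (nm s : ℝ) : ℝ) : ℂ) * (1 - xi (2 * k) d * xi (2 * k) s) := by
      push_cast
      ring
    rw [h1, Complex.re_ofReal_mul, Complex.sub_re, Complex.one_re]
    push_cast
    rw [← mul_assoc, one_div_mul_one_div]
  rw [hsum]
  have hnxi : ‖xi (2 * k) d‖ = 1 := norm_xi _ hd0
  have hfin : |(SA - xi (2 * k) d * SB).re - κ0 / 25 * Real.log X| ≤
      (8 * C + 64000 * C') * X ^ (-(11 / 400000) : ℝ) := by
    have h1 : (SA - xi (2 * k) d * SB).re - κ0 / 25 * Real.log X =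
        ((SA - (κ0 : ℂ) * (Real.log (T2 / T1) : ℂ)) - xi (2 * k) d *
          (SB - 0 * (Real.log (T2 / T1) : ℂ))).re := by
      rw [hlog]
      have h2 : (SA - (κ0 : ℂ) * ((1 / 25 * Real.log X : ℝ) : ℂ)) - xi (2 * k) d *
          (SB - 0 * ((1 / 25 * Real.log X : ℝ) : ℂ)) =
          (SA - xi (2 * k) d * SB) - ((κ0 / 25 * Real.log X : ℝ) : ℂ) := by
        push_cast
        ring
      rw [h2, Complex.sub_re (SA - xi (2 * k) d * SB), Complex.ofReal_re]
    rw [h1]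
    refine (Complex.abs_re_le_norm _).trans ((norm_sub_le _ _).trans ?_)
    rw [norm_mul, hnxi, one_mul]
    have h3 : 4 * C / (1 / 2) * T1 ^ (-(1 / 2) : ℝ) ≤ 8 * C * X ^ (-(11 / 400000) : ℝ) := by
      have : 4 * C / (1 / 2) = 8 * C := by ring
      rw [this]
      exact mul_le_mul_of_nonneg_left hp1 (by positivity)
    have h4 : 4 * C' / (1 / 16000) * T1 ^ (-(1 / 16000) : ℝ) ≤
        64000 * C' * X ^ (-(11 / 400000) : ℝ) := by
      have : 4 * C' / (1 / 16000) = 64000 * C' := by ring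
      rw [this]
      exact mul_le_mul_of_nonneg_left hp2 (by positivity)
    have h5 := hA.trans h3
    have h6 := hB.trans h4
    linarith
  have h7 : (1 / (nm d : ℝ)) * (SA - xi (2 * k) d * SB).re - κ0 / 25 * Real.log X / nm d =
      (1 / (nm d : ℝ)) * ((SA - xi (2 * k) d * SB).re - κ0 / 25 * Real.log X) := by
    ring
  rw [h7, abs_mul, abs_of_pos (by positivity : (0 : ℝ) < 1 / nm d)]
  have h8 : 1 / (nm d : ℝ) ≤ 1 := by
    rw [div_le_one hn]
    exact hn1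
  calc 1 / (nm d : ℝ) * |(SA - xi (2 * k) d * SB).re - κ0 / 25 * Real.log X|
      ≤ 1 * ((8 * C + 64000 * C') * X ^ (-(11 / 400000) : ℝ)) :=
        mul_le_mul h8 hfin (abs_nonneg _) zero_le_one
    _ ≤ X ^ (1 / 400000 : ℝ) * X ^ (-(11 / 400000) : ℝ) := by
        rw [one_mul]
        exact mul_le_mul_of_nonneg_right he2 (Real.rpow_nonneg hXpos.le _)
    _ = X ^ (-(1 / 40000 : ℝ)) := by
        rw [← Real.rpow_add hXpos]
        norm_num

end Pool.Agent.GaussMR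

end

/-! ### from `Lib_MP_f1a94e_mr.SieveA` -/

section

/-!
# Piece SIEVEA: application of the Brun-Hooley sieve
-/

set_option autoImplicit false

namespace Pool.Agent.GaussMR

namespace SieveA

theorem mem_CP_sa {y : ℝ} {w : G} :
    w ∈ CP y ↔ (nm w : ℝ) ≤ y ∧ Prime w ∧ Odd (nm w) ∧ 0 < w.re ∧ 0 ≤ w.im := by
  classical
  simp [CP, mem_ball]

theorem nm_prod_sa (D : Finset G) : nm (∏ w ∈ D, w) = ∏ w ∈ D, nm w := by
  classical
  induction D using Finset.induction_on with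
  | empty => simp
  | insert p D hp ih => rw [Finset.prod_insert hp, Finset.prod_insert hp, nm_mul, ih]

theorem eq_of_dvd_prod {y y' : ℝ} {D : Finset G} (hD : D ⊆ CP y) {p : G} (hp : p ∈ CP y')
    (h : p ∣ ∏ w ∈ D, w) : p ∈ D := by
  obtain ⟨q, hq, hpq⟩ := (Prime.dvd_finsetProd_iff (mem_CP_sa.mp hp).2.1 (fun w => w)).mp h
  have ha : Associated p q :=
    ((mem_CP_sa.mp hp).2.1.dvd_prime_iff_associated (mem_CP_sa.mp (hD hq)).2.1).mp hpq
  rw [CP_assoc hp (hD hq) ha]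
  exact hq

theorem prod_inj_sa {y y' : ℝ} {D D' : Finset G} (hD : D ⊆ CP y) (hD' : D' ⊆ CP y')
    (h : ∏ w ∈ D, w = ∏ w ∈ D', w) : D = D' := by
  apply Finset.Subset.antisymm
  · intro p hp
    exact eq_of_dvd_prod hD' (hD hp) (h ▸ Finset.dvd_prod_of_mem (fun w => w) hp)
  · intro p hp
    exact eq_of_dvd_prod hD (hD' hp) (h ▸ Finset.dvd_prod_of_mem (fun w => w) hp)

theorem prod_dvd_of_sa {y : ℝ} {D : Finset G} (hD : D ⊆ CP y) {u : G} (h : ∀ w ∈ D, w ∣ u) :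
    ∏ w ∈ D, w ∣ u := by
  classical
  induction D using Finset.induction_on with
  | empty => simp
  | insert p D hp ih =>
    have hD' : D ⊆ CP y := fun w hw => hD (Finset.mem_insert_of_mem hw)
    have hpC : p ∈ CP y := hD (Finset.mem_insert_self _ _)
    obtain ⟨c, hc⟩ := ih hD' (fun w hw => h w (Finset.mem_insert_of_mem hw))
    have hpu : p ∣ (∏ w ∈ D, w) * c := hc ▸ h p (Finset.mem_insert_self _ _)
    rcases (mem_CP_sa.mp hpC).2.1.dvd_or_dvd hpu with h1 | h1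
    · exact absurd (eq_of_dvd_prod hD' hpC h1) hp
    · rw [Finset.prod_insert hp, hc, mul_comm p]
      exact mul_dvd_mul_left _ h1

theorem odd_prod_sa {y : ℝ} {D : Finset G} (hD : D ⊆ CP y) : Odd (nm (∏ w ∈ D, w)) := by
  rw [nm_prod_sa]
  refine Finset.prod_induction _ Odd (fun a b ha hb => ha.mul hb) odd_one ?_
  intro w hw
  exact (mem_CP_sa.mp (hD hw)).2.2.1

theorem sum_exp (b t : ℕ) : ∑ i ∈ Finset.range t, (2 * ((b : ℝ) + i) + 1) / 2 ^ i =
    (4 * b + 6) - (4 * b + 4 * t + 6) / 2 ^ t := by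
  induction t with
  | zero => simp
  | succ t ih =>
    rw [Finset.sum_range_succ, ih, pow_succ]
    push_cast
    field_simp
    ring

/-- the levels of the sieve -/
noncomputable def lev (y : ℝ) (i : ℕ) : ℝ := y ^ ((1 : ℝ) / 2 ^ i)

theorem lev_pos {y : ℝ} (hy : 1 ≤ y) (i : ℕ) : 0 < lev y i := Real.rpow_pos_of_pos (by linarith) _

theorem one_le_lev {y : ℝ} (hy : 1 ≤ y) (i : ℕ) : 1 ≤ lev y i :=
  Real.one_le_rpow hy (by positivity)

theorem lev_zero (y : ℝ) : lev y 0 = y := by simp [lev]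

theorem lev_anti {y : ℝ} (hy : 1 ≤ y) {i j : ℕ} (h : i ≤ j) : lev y j ≤ lev y i := by
  unfold lev
  refine Real.rpow_le_rpow_of_exponent_le hy ?_
  exact one_div_le_one_div_of_le (by positivity) (pow_le_pow_right₀ (by norm_num) h)

theorem lev_succ_sq {y : ℝ} (hy : 1 ≤ y) (i : ℕ) : lev y (i + 1) ^ 2 = lev y i := by
  unfold lev
  rw [← Real.rpow_natCast, ← Real.rpow_mul (by linarith)]
  congr 1
  rw [pow_succ]
  push_cast
  field_simp

theorem log_lev {y : ℝ} (hy : 1 ≤ y) (i : ℕ) : Real.log (lev y i) = Real.log y / 2 ^ i := by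
  unfold lev
  rw [Real.log_rpow (by linarith)]
  ring

open Classical in
/-- the classes of primes -/
noncomputable def PC (y : ℝ) (i : ℕ) : Finset G :=
  (CP y).filter (fun w => lev y (i + 1) < (nm w : ℝ) ∧ (nm w : ℝ) ≤ lev y i)

theorem mem_PC {y : ℝ} {i : ℕ} {w : G} :
    w ∈ PC y i ↔ w ∈ CP y ∧ lev y (i + 1) < (nm w : ℝ) ∧ (nm w : ℝ) ≤ lev y i := by
  classical
  simp [PC]

theorem PC_disjoint {y : ℝ} (hy : 1 ≤ y) {i j : ℕ} (h : i ≠ j) : Disjoint (PC y i) (PC y j) := by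
  rw [Finset.disjoint_left]
  intro w h1 h2
  rw [mem_PC] at h1 h2
  rcases lt_or_gt_of_ne h with h3 | h3
  · have := lev_anti hy (Nat.succ_le_of_lt h3)
    linarith [h1.2.1, h2.2.2]
  · have := lev_anti hy (Nat.succ_le_of_lt h3)
    linarith [h2.2.1, h1.2.2]

theorem PC_union {y : ℝ} {t : ℕ} (ht : lev y t < 5) :
    (Finset.range t).biUnion (PC y) = CP y := by
  classical
  ext w
  rw [Finset.mem_biUnion]
  constructor
  · rintro ⟨i, -, hi⟩
    exact (mem_PC.mp hi).1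
  · intro hw
    have h5 : (5 : ℝ) ≤ nm w := by exact_mod_cast CP_nm hw
    have hex : ∃ j, lev y j < (nm w : ℝ) := ⟨t, ht.trans_le h5⟩
    have hj := Nat.find_spec hex
    have hmin : ∀ j, j < Nat.find hex → ¬ lev y j < (nm w : ℝ) := fun j hj => Nat.find_min hex hj
    have hjt : Nat.find hex ≤ t := Nat.find_min' hex (ht.trans_le h5)
    have hj0 : Nat.find hex ≠ 0 := by
      intro h0
      rw [h0, lev_zero] at hj
      exact absurd (mem_CP_sa.mp hw).1 (not_le.mpr hj)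
    obtain ⟨i, hi⟩ := Nat.exists_eq_succ_of_ne_zero hj0
    refine ⟨i, Finset.mem_range.mpr (by omega), mem_PC.mpr ⟨hw, ?_, ?_⟩⟩
    · rw [hi] at hj
      exact hj
    · exact not_lt.mp (hmin i (by omega))

/-- the number of levels -/
theorem exists_t {y : ℝ} (hy : 1 ≤ y) : ∃ t : ℕ, lev y t < 5 ∧ (∀ i < t, 5 ≤ lev y i) ∧
    (t : ℝ) ≤ Real.log y := by
  classical
  have hl5 : 1 ≤ Real.log 5 := by
    rw [Real.le_log_iff_exp_le (by norm_num)]
    linarith [Real.exp_one_lt_d9]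
  have hly : 0 ≤ Real.log y := Real.log_nonneg hy
  have hex : ∃ t : ℕ, lev y t < 5 := by
    obtain ⟨t, ht⟩ := pow_unbounded_of_one_lt (Real.log y) (by norm_num : (1 : ℝ) < 2)
    refine ⟨t, ?_⟩
    rw [← Real.log_lt_log_iff (lev_pos hy t) (by norm_num), log_lev hy, div_lt_iff₀ (by positivity)]
    nlinarith [pow_pos (by norm_num : (0 : ℝ) < 2) t]
  refine ⟨Nat.find hex, Nat.find_spec hex, fun i hi => not_lt.mp (Nat.find_min hex hi), ?_⟩
  rcases Nat.eq_zero_or_pos (Nat.find hex) with h0 | h0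
  · rw [h0]; simpa using hly
  · have h1 : 5 ≤ lev y (Nat.find hex - 1) := not_lt.mp (Nat.find_min hex (by omega))
    have h2 := Real.log_le_log (by norm_num) h1
    rw [log_lev hy, le_div_iff₀ (by positivity)] at h2
    have h3 : Nat.find hex ≤ 2 ^ (Nat.find hex - 1) := by
      have := Nat.lt_two_pow_self (n := Nat.find hex - 1)
      omega
    have h3' : (Nat.find hex : ℝ) ≤ 2 ^ (Nat.find hex - 1) := by exact_mod_cast h3
    nlinarith [pow_pos (by norm_num : (0 : ℝ) < 2) (Nat.find hex - 1)]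


theorem class_sum {C : ℝ} (hC : ∀ y y' : ℝ, 2 ≤ y' → y' ≤ y →
    ∑ w ∈ (CP y).filter (fun w => y' < (nm w : ℝ)), 1 / (nm w : ℝ) ≤
      Real.log (Real.log y) - Real.log (Real.log y') + C) {y : ℝ} (hy : 1 ≤ y) {i : ℕ}
    (h5 : 5 ≤ lev y i) : ∑ w ∈ PC y i, 1 / (nm w : ℝ) ≤ Real.log 2 + C := by
  classical
  have hsq := lev_succ_sq hy i
  have hp := lev_pos hy (i + 1)
  have h2 : 2 ≤ lev y (i + 1) := by nlinarith
  have h1 := hC (lev y i) (lev y (i + 1)) h2 (lev_anti hy (Nat.le_succ i))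
  have hlog : Real.log (lev y i) = 2 * Real.log (lev y (i + 1)) := by
    rw [← hsq, Real.log_pow]
    norm_num
  have hlp : 0 < Real.log (lev y (i + 1)) := Real.log_pos (by linarith)
  rw [hlog, Real.log_mul (by norm_num) hlp.ne'] at h1
  refine le_trans ?_ (h1.trans (by linarith))
  refine Finset.sum_le_sum_of_subset_of_nonneg ?_ (fun w _ _ => by positivity)
  intro w hw
  rw [mem_PC] at hw
  refine Finset.mem_filter.mpr ⟨?_, hw.2.1⟩
  have := mem_CP_sa.mp hw.1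
  exact mem_CP_sa.mpr ⟨hw.2.2, this.2⟩

theorem sum_sq_le_sa : ∃ C2 : ℝ, 0 ≤ C2 ∧ ∀ y : ℝ, ∑ w ∈ CP y, (1 / (nm w : ℝ)) ^ 2 ≤ C2 := by
  classical
  have hsum := EisensteinSeries.summable_one_div_norm_rpow (k := 4) (by norm_num)
  refine ⟨∑' x : Fin 2 → ℤ, ‖x‖ ^ (-4 : ℝ), tsum_nonneg fun x => by positivity, ?_⟩
  intro y
  have hinj : Function.Injective (fun w : G => (![w.re, w.im] : Fin 2 → ℤ)) := by
    intro w w' h
    have h0 := congrFun h 0
    have h1 := congrFun h 1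
    simp at h0 h1
    exact Zsqrtd.ext h0 h1
  calc ∑ w ∈ CP y, (1 / (nm w : ℝ)) ^ 2 ≤
      ∑ w ∈ CP y, ‖(![w.re, w.im] : Fin 2 → ℤ)‖ ^ (-4 : ℝ) := by
        refine Finset.sum_le_sum fun w hw => ?_
        have hw5 := CP_nm hw
        have hn : (0 : ℝ) < nm w := by exact_mod_cast (by omega : 0 < nm w)
        have hw0 : (0 : ℝ) < w.re := by exact_mod_cast (mem_CP_sa.mp hw).2.2.2.1
        have hv : ‖(![w.re, w.im] : Fin 2 → ℤ)‖ ^ 2 ≤ (nm w : ℝ) := by
          have hle : ‖(![w.re, w.im] : Fin 2 → ℤ)‖ ≤ Real.sqrt (nm w) := by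
            rw [pi_norm_le_iff_of_nonneg (Real.sqrt_nonneg _)]
            have hnm : ((nm w : ℕ) : ℝ) = (w.re : ℝ) ^ 2 + (w.im : ℝ) ^ 2 := by
              have h := nm_eq w
              exact_mod_cast h
            intro i
            fin_cases i
            · change ‖w.re‖ ≤ _
              rw [Int.norm_eq_abs]
              apply Real.abs_le_sqrt
              rw [hnm]
              nlinarith [sq_nonneg (w.im : ℝ)]
            · change ‖w.im‖ ≤ _
              rw [Int.norm_eq_abs]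
              apply Real.abs_le_sqrt
              rw [hnm]
              nlinarith [sq_nonneg (w.re : ℝ)]
          have h1 := pow_le_pow_left₀ (norm_nonneg _) hle 2
          rwa [Real.sq_sqrt hn.le] at h1
        have hv0 : 0 < ‖(![w.re, w.im] : Fin 2 → ℤ)‖ := by
          rw [norm_pos_iff]
          intro h
          have h0 := congrFun h 0
          simp at h0
          have : (0 : ℝ) < 0 := by
            have h' := hw0
            rw [h0] at h'
            simp at h'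
          exact lt_irrefl _ this
        have e1 : ‖(![w.re, w.im] : Fin 2 → ℤ)‖ ^ (-4 : ℝ) =
            (1 / ‖(![w.re, w.im] : Fin 2 → ℤ)‖ ^ 2) ^ 2 := by
          rw [Real.rpow_neg hv0.le]
          have : (4 : ℝ) = ((4 : ℕ) : ℝ) := by norm_num
          rw [this, Real.rpow_natCast]
          field_simp
        rw [e1]
        gcongr
    _ = ∑ x ∈ (CP y).image (fun w : G => (![w.re, w.im] : Fin 2 → ℤ)), ‖x‖ ^ (-4 : ℝ) := by
        rw [Finset.sum_image fun a _ b _ h => hinj h]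
    _ ≤ ∑' x : Fin 2 → ℤ, ‖x‖ ^ (-4 : ℝ) :=
        hsum.sum_le_tsum _ fun x _ => by positivity

theorem one_sub_ge_sa {x : ℝ} (h0 : 0 ≤ x) (h1 : x ≤ 1 / 2) :
    Real.exp (-(x + 2 * x ^ 2)) ≤ 1 - x := by
  have hpos : 0 < 1 - x := by linarith
  rw [← Real.le_log_iff_exp_le hpos]
  refine le_trans ?_ (Real.one_sub_inv_le_log_of_pos hpos)
  have : (1 - x)⁻¹ ≤ 1 + x + 2 * x ^ 2 := by
    rw [inv_le_iff_one_le_mul₀ hpos]
    nlinarith [mul_nonneg h0 (mul_nonneg h0 (by linarith : 0 ≤ 1 / 2 - x))]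
  linarith

theorem CP_prod_lower : ∃ c3 : ℝ, 0 < c3 ∧ ∀ y : ℝ, 2 ≤ y →
    c3 / Real.log y ≤ ∏ w ∈ CP y, (1 - 1 / (nm w : ℝ)) := by
  classical
  obtain ⟨C, hC0, hC⟩ := CP_sum
  obtain ⟨C2, hC20, hC2⟩ := sum_sq_le_sa
  refine ⟨Real.log 2 * Real.exp (-(C + 2 * C2)), by positivity, ?_⟩
  intro y hy
  have h1 := hC y 2 le_rfl hy
  have hf : (CP y).filter (fun w => (2 : ℝ) < (nm w : ℝ)) = CP y := by
    rw [Finset.filter_eq_self]
    intro w hw
    have := CP_nm hw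
    exact_mod_cast (by omega : 2 < nm w)
  rw [hf] at h1
  have hly : 0 < Real.log y := Real.log_pos (by linarith)
  have hl2 : 0 < Real.log 2 := Real.log_pos (by norm_num)
  calc Real.log 2 * Real.exp (-(C + 2 * C2)) / Real.log y =
      Real.exp (-(Real.log (Real.log y) - Real.log (Real.log 2) + C) + -(2 * C2)) := by
        have e1 : -(Real.log (Real.log y) - Real.log (Real.log 2) + C) + -(2 * C2) =
            Real.log (Real.log 2) + -(C + 2 * C2) - Real.log (Real.log y) := by ring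
        rw [e1, Real.exp_sub, Real.exp_add, Real.exp_log hl2, Real.exp_log hly]
    _ ≤ Real.exp (∑ w ∈ CP y, -(1 / (nm w : ℝ) + 2 * (1 / (nm w : ℝ)) ^ 2)) := by
        apply Real.exp_le_exp.mpr
        rw [Finset.sum_neg_distrib, Finset.sum_add_distrib, ← Finset.mul_sum]
        have := hC2 y
        linarith
    _ = ∏ w ∈ CP y, Real.exp (-(1 / (nm w : ℝ) + 2 * (1 / (nm w : ℝ)) ^ 2)) :=
        Real.exp_sum _ _
    _ ≤ ∏ w ∈ CP y, (1 - 1 / (nm w : ℝ)) := by
        refine Finset.prod_le_prod (fun w _ => (Real.exp_pos _).le) fun w hw => ?_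
        have h5 : (5 : ℝ) ≤ nm w := by exact_mod_cast CP_nm hw
        refine one_sub_ge_sa (by positivity) ?_
        rw [div_le_div_iff₀ (by linarith) (by norm_num)]
        linarith

theorem nm_prod_le {y : ℝ} (hy : 1 ≤ y) {b t : ℕ} {D : Finset G}
    (hD : D ⊆ (Finset.range t).biUnion (PC y))
    (hc : ∀ i < t, (D ∩ PC y i).card ≤ 2 * (b + i) + 1) :
    (nm (∏ w ∈ D, w) : ℝ) ≤ y ^ (4 * b + 6 : ℝ) := by
  classical
  have hDe : D = (Finset.range t).biUnion (fun i => D ∩ PC y i) := by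
    rw [← Finset.inter_biUnion, Finset.inter_eq_left.mpr hD]
  rw [nm_prod_sa]
  push_cast
  rw [hDe, Finset.prod_biUnion]
  · calc ∏ i ∈ Finset.range t, ∏ w ∈ D ∩ PC y i, (nm w : ℝ) ≤
        ∏ i ∈ Finset.range t, y ^ ((2 * ((b : ℝ) + i) + 1) / 2 ^ i) := by
          refine Finset.prod_le_prod (fun i _ => Finset.prod_nonneg fun w _ => Nat.cast_nonneg _)
            fun i hi => ?_
          calc ∏ w ∈ D ∩ PC y i, (nm w : ℝ) ≤ ∏ w ∈ D ∩ PC y i, lev y i := by
                refine Finset.prod_le_prod (fun w _ => Nat.cast_nonneg _) fun w hw => ?_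
                exact (mem_PC.mp (Finset.mem_inter.mp hw).2).2.2
            _ = lev y i ^ (D ∩ PC y i).card := by rw [Finset.prod_const]
            _ ≤ lev y i ^ (2 * (b + i) + 1) :=
                pow_le_pow_right₀ (one_le_lev hy i) (hc i (Finset.mem_range.mp hi))
            _ = y ^ ((2 * ((b : ℝ) + i) + 1) / 2 ^ i) := by
                unfold lev
                rw [← Real.rpow_natCast, ← Real.rpow_mul (by linarith)]
                congr 1
                push_cast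
                ring
      _ = y ^ (∑ i ∈ Finset.range t, (2 * ((b : ℝ) + i) + 1) / 2 ^ i) := by
          rw [Real.rpow_sum_of_pos (by linarith)]
      _ ≤ y ^ (4 * b + 6 : ℝ) := by
          refine Real.rpow_le_rpow_of_exponent_le hy ?_
          rw [sum_exp]
          have : 0 ≤ (4 * (b : ℝ) + 4 * t + 6) / 2 ^ t := by positivity
          linarith
  · intro i _ j _ hij
    exact Finset.disjoint_of_subset_left Finset.inter_subset_right
      (Finset.disjoint_of_subset_right Finset.inter_subset_right (PC_disjoint hy hij))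


theorem err_small_sa {r c : ℝ} (hc : 0 < c) (h : r = 3 / 200000) :
    ∀ᶠ X : ℝ in Filter.atTop, (Real.log X + 1) * 9 * X ^ (-r) ≤ c := by
  have hr : 0 < r := by rw [h]; norm_num
  have h1 : Filter.Tendsto (fun X : ℝ => Real.log X / X ^ r) Filter.atTop (nhds 0) :=
    (isLittleO_log_rpow_atTop hr).tendsto_div_nhds_zero
  have h2 : Filter.Tendsto (fun X : ℝ => X ^ (-r)) Filter.atTop (nhds 0) :=
    tendsto_rpow_neg_atTop hr
  have h3 : Filter.Tendsto (fun X : ℝ => Real.log X / X ^ r * 9 + X ^ (-r) * 9) Filter.atTop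
      (nhds (0 * 9 + 0 * 9)) := (h1.mul_const 9).add (h2.mul_const 9)
  rw [zero_mul, add_zero] at h3
  filter_upwards [h3.eventually_le_const hc, Filter.eventually_gt_atTop 0] with X hX hX0
  have e : Real.log X / X ^ r = Real.log X * X ^ (-r) := by
    rw [Real.rpow_neg hX0.le]
    rfl
  rw [e] at hX
  linarith


open Classical in
/-- `brun_hooley` with an arbitrary decidability instance -/
theorem bh_inst (G0 : ℝ) (hG0 : 0 ≤ G0) : ∃ b : ℕ, ∀ (Ω ι : Type) (_inst : DecidableEq ι)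
    (obj : Finset Ω) (w : Ω → ℝ)
    (t : ℕ) (P : ℕ → Finset ι) (S : Ω → Finset ι) (g : ι → ℝ) (X0 E : ℝ),
    (∀ u ∈ obj, 0 ≤ w u) → (∀ i j, i < t → j < t → i ≠ j → Disjoint (P i) (P j)) →
    (∀ u ∈ obj, S u ⊆ (Finset.range t).biUnion P) →
    (∀ p ∈ (Finset.range t).biUnion P, 0 ≤ g p ∧ g p ≤ 1 / 2) →
    (∀ i < t, ∑ p ∈ P i, g p ≤ G0) → 0 ≤ X0 → 0 ≤ E →
    (∀ D ⊆ (Finset.range t).biUnion P, (∀ i < t, (D ∩ P i).card ≤ 2 * (b + i) + 1) →
      |∑ u ∈ obj.filter (fun u => D ⊆ S u), w u - X0 * ∏ p ∈ D, g p| ≤ E) →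
    X0 / 2 * ∏ p ∈ (Finset.range t).biUnion P, (1 - g p) -
      (t + 1) * (((Finset.range t).biUnion P).powerset.filter
        (fun D => ∀ i < t, (D ∩ P i).card ≤ 2 * (b + i) + 1)).card * E ≤
      ∑ u ∈ obj.filter (fun u => S u = ∅), w u := by
  obtain ⟨b, hb⟩ := brun_hooley G0 hG0
  refine ⟨b, ?_⟩
  intro Ω ι inst
  obtain rfl : inst = fun a b => Classical.propDecidable (a = b) := Subsingleton.elim _ _
  exact hb Ω ι

end SieveA

open SieveA

open Classical in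
/-- Apply `brun_hooley` to `obj = ob (X^(13/25)) \ ob (X^(12/25))`,
`w u = (1 / nm u) (1 - Re xi (2k) u) ≥ 0`, the primes `CP y`, `y = X^a`, classes
`P i = {w ∈ CP y : y^(1/2^(i+1)) < nm w ≤ y^(1/2^i)}` (`i < t`, `t` minimal with `y^(1/2^t) < 5`,
class sums `≤ log 2 + C` by `CP_sum`), `S u = {w ∈ ∪ P i : w ∣ u}`, `g w = 1 / nm w`,
`X0 = κ log X`, `E = X^(-1/40000)` from `weight`. A set `D` in the family has
`nm (∏ D) ≤ y^(∑ (2(b+i)+1)/2^i) ≤ y^(4 b + 6)`; choose `a = 1 / (100000 (4 b + 6))`; `D ⊆ S u ↔ ∏ D ∣ u`;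
`D ↦ ∏ D` is injective, so the family has at most `9 X^(1/100000)` members (`card_ball_le`).
`∏ (1 - 1/nm w) ≥ c / log y` by `CP_sum`. -/
theorem sieve_all : ∃ a c X0 : ℝ, 0 < a ∧ a ≤ 1 ∧ 0 < c ∧ ∀ X : ℝ, X0 ≤ X → ∀ k : ℤ, k ≠ 0 →
    |(k : ℝ)| ≤ X → c ≤ ∑ u ∈ (ob (X ^ (13 / 25 : ℝ)) \ ob (X ^ (12 / 25 : ℝ))).filter
      (fun u => ∀ p : G, Prime p → p ∣ u → X ^ a ≤ (nm p : ℝ)),
      (1 / (nm u : ℝ)) * (1 - (xi (2 * k) u).re) := by
  obtain ⟨C, hC0, hC⟩ := CP_sum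
  obtain ⟨c3, hc3, hprod⟩ := CP_prod_lower
  obtain ⟨κ, X1, hκ, hw⟩ := weight
  have hl2 : 0 < Real.log 2 := Real.log_pos (by norm_num)
  obtain ⟨b, hb⟩ := bh_inst (Real.log 2 + C) (by positivity)
  obtain ⟨a, ha⟩ : ∃ a : ℝ, a = 1 / (100000 * (4 * b + 6)) := ⟨_, rfl⟩
  have ha0 : 0 < a := by rw [ha]; positivity
  have ha1 : a ≤ 1 := by
    rw [ha, div_le_one (by positivity)]
    have : (0 : ℝ) ≤ b := Nat.cast_nonneg b
    linarith
  have hab : a * (4 * b + 6) = 1 / 100000 := by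
    rw [ha]
    have : (4 * (b : ℝ) + 6) ≠ 0 := by positivity
    field_simp
  have hc : 0 < κ * c3 / (4 * a) := by positivity
  obtain ⟨X2, hX2⟩ := Filter.eventually_atTop.mp ((err_small_sa hc rfl).and
    (((tendsto_rpow_atTop ha0).eventually_ge_atTop 2)))
  refine ⟨a, κ * c3 / (4 * a), max (max X1 X2) 2, ha0, ha1, hc, ?_⟩
  intro X hX k hk hkX
  have hXX1 : X1 ≤ X := (le_max_left _ _).trans ((le_max_left _ _).trans hX)
  have hXX2 : X2 ≤ X := (le_max_right _ _).trans ((le_max_left _ _).trans hX)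
  have hX2' : 2 ≤ X := (le_max_right _ _).trans hX
  obtain ⟨herr, hy2⟩ := hX2 X hXX2
  have hX0 : 0 < X := by linarith
  have hX1 : 1 ≤ X := by linarith
  obtain ⟨y, hy⟩ : ∃ y : ℝ, y = X ^ a := ⟨_, rfl⟩
  rw [← hy] at hy2
  have hy1 : 1 ≤ y := by linarith
  have hlogy : Real.log y = a * Real.log X := by rw [hy, Real.log_rpow hX0]
  have hlogX : 0 < Real.log X := Real.log_pos (by linarith)
  have hlogy0 : 0 < Real.log y := by rw [hlogy]; positivity
  have hyX : y ^ (4 * b + 6 : ℝ) = X ^ (1 / 100000 : ℝ) := by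
    rw [hy, ← Real.rpow_mul hX0.le, hab]
  obtain ⟨t, ht5, hti, htl⟩ := exists_t hy1
  have hun := PC_union ht5
  set obj := ob (X ^ (13 / 25 : ℝ)) \ ob (X ^ (12 / 25 : ℝ)) with hobj
  have hodd : ∀ u ∈ obj, Odd (nm u) := by
    intro u hu
    have h1 := (Finset.mem_sdiff.mp hu).1
    unfold ob at h1
    exact (Finset.mem_filter.mp h1).2
  have hW : ∀ u ∈ obj, 0 ≤ (1 / (nm u : ℝ)) * (1 - (xi (2 * k) u).re) := by
    intro u hu
    have h1 : (xi (2 * k) u).re ≤ 1 := by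
      rw [← norm_xi (2 * k) (ne_zero_of_odd (hodd u hu))]
      exact Complex.re_le_norm _
    exact mul_nonneg (by positivity) (by linarith)
  have hBH := hb G G inferInstance obj (fun u => (1 / (nm u : ℝ)) * (1 - (xi (2 * k) u).re)) t (PC y)
    (fun u => (CP y).filter (fun w => w ∣ u)) (fun w => 1 / (nm w : ℝ)) (κ * Real.log X)
    (X ^ (-(1 / 40000 : ℝ))) hW (fun i j _ _ hij => PC_disjoint hy1 hij)
    (by
      intro u _
      rw [hun]
      exact Finset.filter_subset _ _)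
    (by
      rw [hun]
      intro p hp
      have h5 : (5 : ℝ) ≤ nm p := by exact_mod_cast CP_nm hp
      refine ⟨by positivity, ?_⟩
      rw [div_le_div_iff₀ (by linarith) (by norm_num)]
      linarith)
    (fun i hi => class_sum hC hy1 (hti i hi)) (by positivity) (by positivity)
    (by
      intro D hD hcard
      have hnm := nm_prod_le hy1 hD hcard
      rw [hyX] at hnm
      rw [hun] at hD
      have hfil : obj.filter (fun u => D ⊆ (CP y).filter (fun w => w ∣ u)) =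
          obj.filter (fun u => (∏ w ∈ D, w) ∣ u) := by
        refine Finset.filter_congr fun u _ => ?_
        constructor
        · intro h
          exact prod_dvd_of_sa hD fun w hw => (Finset.mem_filter.mp (h hw)).2
        · intro h w hw
          exact Finset.mem_filter.mpr ⟨hD hw, (Finset.dvd_prod_of_mem (fun w => w) hw).trans h⟩
      rw [hfil]
      have h1 := hw X hXX1 (∏ w ∈ D, w) (odd_prod_sa hD)
        (hnm.trans (Real.rpow_le_rpow_of_exponent_le hX1 (by norm_num))) k hk hkX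
      have h2 : ∏ p ∈ D, 1 / (nm p : ℝ) = 1 / (nm (∏ w ∈ D, w) : ℝ) := by
        rw [nm_prod_sa]
        push_cast
        rw [Finset.prod_div_distrib, Finset.prod_const_one]
      rw [h2, mul_one_div]
      exact h1)
  rw [hun] at hBH
  -- the size of the family
  have hcardF : (((CP y).powerset.filter
      (fun D => ∀ i < t, (D ∩ PC y i).card ≤ 2 * (b + i) + 1)).card : ℝ) ≤
      9 * X ^ (1 / 100000 : ℝ) := by
    refine le_trans ?_ (card_ball_le (X ^ (1 / 100000 : ℝ)) (by positivity))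
    norm_cast
    refine Finset.card_le_card_of_injOn (fun D => ∏ w ∈ D, w) ?_ ?_
    · intro D hD
      have hD' := Finset.mem_filter.mp (Finset.mem_coe.mp hD)
      have hDC := Finset.mem_powerset.mp hD'.1
      have hnm := nm_prod_le hy1 (D := D) (by rw [hun]; exact hDC) hD'.2
      rw [hyX] at hnm
      refine Finset.mem_coe.mpr (Finset.mem_filter.mpr ⟨mem_ball.mpr hnm, ?_⟩)
      exact ne_zero_of_odd (odd_prod_sa hDC)
    · intro D hD D' hD' h
      have h1 := Finset.mem_powerset.mp (Finset.mem_filter.mp (Finset.mem_coe.mp hD)).1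
      have h2 := Finset.mem_powerset.mp (Finset.mem_filter.mp (Finset.mem_coe.mp hD')).1
      exact prod_inj_sa h1 h2 h
  -- the final inequality
  have hsub : ∑ u ∈ obj.filter (fun u => (CP y).filter (fun w => w ∣ u) = ∅),
      (1 / (nm u : ℝ)) * (1 - (xi (2 * k) u).re) ≤
      ∑ u ∈ obj.filter (fun u => ∀ p : G, Prime p → p ∣ u → X ^ a ≤ (nm p : ℝ)),
      (1 / (nm u : ℝ)) * (1 - (xi (2 * k) u).re) := by
    refine Finset.sum_le_sum_of_subset_of_nonneg ?_ ?_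
    · intro u hu
      obtain ⟨hu1, hu2⟩ := Finset.mem_filter.mp hu
      refine Finset.mem_filter.mpr ⟨hu1, fun p hp hpu => ?_⟩
      by_contra hlt
      rw [not_le, ← hy] at hlt
      have hpo : Odd (nm p) := by
        obtain ⟨c, hc⟩ := nm_dvd hpu
        have h1 := hodd u hu1
        rw [hc] at h1
        exact (Nat.odd_mul.mp h1).1
      obtain ⟨w, hwC, hwp⟩ := CP_exists hp hpo hlt.le
      have : w ∈ (CP y).filter (fun w => w ∣ u) :=
        Finset.mem_filter.mpr ⟨hwC, hwp.dvd.trans hpu⟩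
      rw [hu2] at this
      exact absurd this (Finset.notMem_empty _)
    · intro u hu _
      exact hW u (Finset.mem_filter.mp hu).1
  refine le_trans ?_ (hBH.trans hsub)
  have hmain : κ * c3 / (2 * a) ≤
      κ * Real.log X / 2 * ∏ p ∈ CP y, (1 - 1 / (nm p : ℝ)) := by
    have h1 := mul_le_mul_of_nonneg_left (hprod y hy2)
      (by positivity : 0 ≤ κ * Real.log X / 2)
    refine le_trans (le_of_eq ?_) h1
    rw [hlogy]
    field_simp
  have hE : ((t : ℝ) + 1) * (((CP y).powerset.filter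
      (fun D => ∀ i < t, (D ∩ PC y i).card ≤ 2 * (b + i) + 1)).card : ℝ) *
      X ^ (-(1 / 40000 : ℝ)) ≤ κ * c3 / (4 * a) := by
    have htX : (t : ℝ) + 1 ≤ Real.log X + 1 := by
      have : Real.log y ≤ Real.log X := by
        rw [hlogy]
        nlinarith
      linarith
    calc ((t : ℝ) + 1) * (((CP y).powerset.filter
      (fun D => ∀ i < t, (D ∩ PC y i).card ≤ 2 * (b + i) + 1)).card : ℝ) *
      X ^ (-(1 / 40000 : ℝ)) ≤ (Real.log X + 1) * (9 * X ^ (1 / 100000 : ℝ)) *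
        X ^ (-(1 / 40000 : ℝ)) := by
          refine mul_le_mul_of_nonneg_right ?_ (by positivity)
          exact mul_le_mul htX hcardF (Nat.cast_nonneg _) (by positivity)
      _ = (Real.log X + 1) * 9 * X ^ (-(3 / 200000 : ℝ)) := by
          have : X ^ (-(3 / 200000 : ℝ)) = X ^ (1 / 100000 : ℝ) * X ^ (-(1 / 40000 : ℝ)) := by
            rw [← Real.rpow_add hX0]
            norm_num
          rw [this]
          ring
      _ ≤ κ * c3 / (4 * a) := herr
  have h4 : κ * c3 / (2 * a) = 2 * (κ * c3 / (4 * a)) := by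
    field_simp
    ring
  linarith

end Pool.Agent.GaussMR

end

/-! ### from `Lib_MP_f1a94e_ecm.ChiOrd` -/

section

/-!
# Piece M-CHIORD: the order of the characters
-/

set_option autoImplicit false

namespace Pool.Agent.ECM

open Finset Pool.Agent.GaussMR Pool.Agent.GaussCM Pool.Agent.OmAll

private theorem chiord_pow {D : ℕ} {χ : G → ℂ} (h : Chi D χ) (z : G) (n : ℕ) :
    χ (z ^ n) = χ z ^ n := by
  induction n with
  | zero => simpa using h.one
  | succ n ih => rw [pow_succ, h.mul, ih, pow_succ]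

/-- Pigeonhole: there are only `D²` residue classes, so for `z` invertible some power `z^n ≡ 1 mod D` with `1 ≤ n ≤ D²`; take `n0 = (D²)!`. Or the group of units of the finite ring. -/
theorem chi_order (D : ℕ) (hD : 0 < D) : ∃ n0 : ℕ, 0 < n0 ∧ ∀ χ : G → ℂ, Chi D χ → ∀ z : G, Inv D z → χ z ^ n0 = 1 := by
  haveI : NeZero D := ⟨hD.ne'⟩
  refine ⟨(D * D).factorial, Nat.factorial_pos _, ?_⟩
  intro χ hχ z hz
  obtain ⟨w, hw⟩ := hz
  have h1 : χ z * χ w = 1 := by rw [← hχ.mul, hχ.per _ _ hw, hχ.one]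
  have h0 : χ z ≠ 0 := left_ne_zero_of_mul_eq_one h1
  -- pigeonhole
  let f : ℕ → ZMod D × ZMod D := fun n => (((z ^ n).re : ZMod D), ((z ^ n).im : ZMod D))
  have hc : (Finset.univ : Finset (ZMod D × ZMod D)).card < (Finset.range (D * D + 1)).card := by
    rw [Finset.card_univ, Fintype.card_prod, ZMod.card, Finset.card_range]
    exact Nat.lt_succ_self _
  obtain ⟨i, hi, j, hj, hij, hf⟩ := Finset.exists_ne_map_eq_of_card_lt_of_maps_to hc
    (f := f) (fun x _ => Finset.mem_univ _)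
  have key : ∀ a b : ℕ, a < b → b ≤ D * D → f a = f b → χ z ^ (D * D).factorial = 1 := by
    intro a b hab hb hfab
    have hcg : cg D (z ^ a) (z ^ b) := by
      have e1 : (((z ^ a).re : ZMod D)) = (((z ^ b).re : ZMod D)) := congrArg Prod.fst hfab
      have e2 : (((z ^ a).im : ZMod D)) = (((z ^ b).im : ZMod D)) := congrArg Prod.snd hfab
      refine ⟨?_, ?_⟩
      · rw [← ZMod.intCast_zmod_eq_zero_iff_dvd]
        push_cast
        rw [e1, sub_self]
      · rw [← ZMod.intCast_zmod_eq_zero_iff_dvd]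
        push_cast
        rw [e2, sub_self]
    have e := hχ.per _ _ hcg
    rw [chiord_pow hχ, chiord_pow hχ] at e
    have e' : χ z ^ (b - a) = 1 := by
      have : χ z ^ b = χ z ^ a * χ z ^ (b - a) := by rw [← pow_add]; congr 1; omega
      rw [this] at e
      have hne : χ z ^ a ≠ 0 := pow_ne_zero _ h0
      have := mul_left_cancel₀ hne (show χ z ^ a * 1 = χ z ^ a * χ z ^ (b - a) by rw [mul_one]; exact e)
      exact this.symm
    have hd : (b - a) ∣ (D * D).factorial := Nat.dvd_factorial (by omega) (by omega)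
    obtain ⟨k, hk⟩ := hd
    rw [hk, pow_mul, e', one_pow]
  rw [Finset.mem_range] at hi hj
  rcases lt_or_gt_of_ne hij with h | h
  · exact key i j h (by omega) hf
  · exact key j i h (by omega) hf.symm

private theorem chiord_norm (v : ℂ) (hv : ‖v‖ = 1) (m : ℕ) : ‖1 - v ^ m‖ ≤ m * ‖1 - v‖ := by
  induction m with
  | zero => simp
  | succ m ih =>
    have : 1 - v ^ (m + 1) = v ^ m * (1 - v) + (1 - v ^ m) := by ring
    rw [this]
    refine (norm_add_le _ _).trans ?_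
    rw [norm_mul, norm_pow, hv, one_pow, one_mul]
    push_cast
    linarith

private theorem chiord_sq (v : ℂ) (hv : ‖v‖ = 1) : ‖1 - v‖ ^ 2 = 2 * (1 - v.re) := by
  have h1 : ‖v‖ ^ 2 = v.re * v.re + v.im * v.im := by
    rw [← Complex.normSq_eq_norm_sq, Complex.normSq_apply]
  rw [hv] at h1
  rw [← Complex.normSq_eq_norm_sq, Complex.normSq_apply]
  simp only [Complex.sub_re, Complex.one_re, Complex.sub_im, Complex.one_im]
  nlinarith

/-- For `‖u‖ = 1` and `n ≥ 1`: `|1 - u^n| ≤ n |1 - u|`, `|1 - u|² = 2 (1 - Re u)`; apply with `-u`, `(-u)^(2 n) = u^(2 n)`. -/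
theorem pow_defect (u : ℂ) (hu : ‖u‖ = 1) (n : ℕ) : 1 - (u ^ (2 * n)).re ≤ (2 * n) ^ 2 * (1 + u.re) := by
  have hv : ‖-u‖ = 1 := by rw [norm_neg, hu]
  have hp : (-u) ^ (2 * n) = u ^ (2 * n) := by rw [pow_mul, neg_sq, ← pow_mul]
  have h1 := chiord_norm (-u) hv (2 * n)
  have h2 := chiord_sq (-u) hv
  have h3 := chiord_sq ((-u) ^ (2 * n)) (by rw [norm_pow, hv, one_pow])
  have h4 : ‖1 - (-u) ^ (2 * n)‖ ^ 2 ≤ (((2 * n : ℕ) : ℝ) * ‖1 - -u‖) ^ 2 :=
    pow_le_pow_left₀ (norm_nonneg _) h1 2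
  rw [mul_pow, h2, h3, hp] at h4
  push_cast at h4
  simp only [Complex.neg_re] at h4
  nlinarith

end Pool.Agent.ECM

end
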