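import Mathlib
import Pool.Agent.Lib_MP_f1a94e_m.G01
import Pool.Agent.Lib_MP_f1a94e_m.G06
import Pool.Agent.Lib_MP_f1a94e_m.G07
import Pool.Agent.Lib_MP_f1a94e_m.G08

/-!
# MP_f1a94e_nt: merged library part G11

Concatenation of files of the libraries `Lib_MP_f1a94e_*` (each in its own section), only to save build time.
-/

/-! ### from `Lib_MP_f1a94e_eq.Cnt` -/

section

/-!
# Piece CNT: upper bounds for the number of pairs
-/

set_option autoImplicit false

namespace Pool.Agent.OmEq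

open Finset Pool.Agent.GaussMR Pool.Agent.OmAll

/-- two second vectors of pairs with the same first vector and determinant differ by a multiple of it -/
theorem cnt_diff {V W W' : G} {n : ℤ} (hV : Prim V) (h : det V W = n) (h' : det V W' = n) :
    ∃ k : ℤ, W' = W + (k : G) * V := by
  unfold det at h h'
  obtain ⟨a, b, hab⟩ := hV
  refine ⟨a * (W'.re - W.re) + b * (W'.im - W.im), ?_⟩
  apply Zsqrtd.ext
  · rw [Zsqrtd.re_add, TailP.smul_re]
    linear_combination (-(W'.re - W.re)) * hab + b * (h - h')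
  · rw [Zsqrtd.im_add, TailP.smul_im]
    linear_combination (-(W'.im - W.im)) * hab + a * (h' - h)

theorem cnt_sub (V : G) (hV : Prim V) (n : ℤ) (a b : ℝ) (hab : a ≤ b) :
    ∃ s : Finset G, {V' : G | det V V' = n ∧ a ≤ ((dot V V' : ℤ) : ℝ) ∧ ((dot V V' : ℤ) : ℝ) ≤ b} ⊆ s ∧
      (s.card : ℝ) ≤ (b - a) / nm V + 1 := by
  classical
  have h0 : (0 : ℝ) ≤ (b - a) / nm V + 1 := by
    have : (0 : ℝ) ≤ (b - a) / nm V := div_nonneg (by linarith) (Nat.cast_nonneg _)
    linarith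
  by_cases hne : {V' : G | det V V' = n ∧ a ≤ ((dot V V' : ℤ) : ℝ) ∧ ((dot V V' : ℤ) : ℝ) ≤ b}.Nonempty
  · obtain ⟨W, hW, _, _⟩ := hne
    have hV0 : V ≠ 0 := by
      rintro rfl
      obtain ⟨u, v, huv⟩ := hV
      simp at huv
    have hn : (0 : ℝ) < nm V := by exact_mod_cast nm_pos hV0
    set N : ℝ := (nm V : ℝ) with hndef
    set d : ℝ := ((dot V W : ℤ) : ℝ) with hd
    refine ⟨(Icc ⌈(a - d) / N⌉ ⌊(b - d) / N⌋).image (fun k : ℤ => W + (k : G) * V), ?_, ?_⟩
    · rintro W' ⟨h1, h2, h3⟩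
      obtain ⟨k, rfl⟩ := cnt_diff hV hW h1
      rw [TailP.dot_add_mul] at h2 h3
      push_cast at h2 h3
      rw [Finset.mem_coe, mem_image]
      refine ⟨k, ?_, rfl⟩
      rw [mem_Icc]
      constructor
      · rw [Int.ceil_le, div_le_iff₀ hn]
        linarith
      · rw [Int.le_floor, le_div_iff₀ hn]
        linarith
    · refine le_trans (Nat.cast_le.2 card_image_le) ?_
      rw [Int.card_Icc]
      rcases le_or_gt (⌊(b - d) / N⌋ + 1 - ⌈(a - d) / N⌉) 0 with h | h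
      · rw [Int.toNat_of_nonpos h]
        simpa using h0
      · have h5 : (((⌊(b - d) / N⌋ + 1 - ⌈(a - d) / N⌉).toNat : ℕ) : ℝ) =
            ((⌊(b - d) / N⌋ + 1 - ⌈(a - d) / N⌉ : ℤ) : ℝ) := by
          have := Int.toNat_of_nonneg h.le
          exact_mod_cast this
        rw [h5]
        push_cast
        have h6 := Int.floor_le ((b - d) / N)
        have h7 := Int.le_ceil ((a - d) / N)
        have h8 : (b - a) / N = (b - d) / N - (a - d) / N := by ring
        rw [h8]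
        linarith
  · rw [Set.not_nonempty_iff_eq_empty] at hne
    rw [hne]
    exact ⟨∅, Set.empty_subset _, by simpa using h0⟩

/-- PROOF. As `edges_sub` / `edges_fixed` in `Lib_MP_f1a94e_aq/Tail.lean`: two solutions differ by an integer multiple of `V` (`V` primitive, `det V (W' - W) = 0`), and
`dot V (W + k V) = dot V W + k nm V`. -/
theorem line_count (V : G) (hV : Prim V) (n : ℤ) (a b : ℝ) (hab : a ≤ b) :
    {V' : G | det V V' = n ∧ a ≤ ((dot V V' : ℤ) : ℝ) ∧ ((dot V V' : ℤ) : ℝ) ≤ b}.Finite ∧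
      ({V' : G | det V V' = n ∧ a ≤ ((dot V V' : ℤ) : ℝ) ∧ ((dot V V' : ℤ) : ℝ) ≤ b}.ncard : ℝ) ≤
        (b - a) / nm V + 1 := by
  obtain ⟨s, h1, h2⟩ := cnt_sub V hV n a b hab
  refine ⟨s.finite_toSet.subset h1, le_trans ?_ h2⟩
  have := Set.ncard_le_ncard h1 s.finite_toSet
  rw [Set.ncard_coe_finset] at this
  exact_mod_cast this

open Classical in
/-- PROOF. `nm e.1 * nm e.2 = dot ^ 2 + n ^ 2 ≤ 2 x ^ 2` and `nm e.1 ≤ exp B * nm e.2`, so `nm e.1 ≤ 2 exp (B/2) x` (B may be negative: then use `|B|`, or the set is empty). `e.1 ≠ 0` lies in a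
finite set with at most `18 exp (B/2) x` elements (`ball_sub`). For given `V = e.1`: `dot ≤ ‖V‖ ‖V'‖ ≤ exp (B/2) nm V` (`dot ^ 2 ≤ nm V nm V' ≤ exp B (nm V)^2`), so by `line_count`
with `a = 0`, `b = exp (B/2) nm V` at most `exp (B/2) + 1` possibilities for `V'`. -/
theorem cnt (B : ℝ) : ∃ C : ℝ, 0 < C ∧ ∀ n : ℕ, 0 < n → ∀ x : ℝ, (n : ℝ) ≤ x →
    (((EN n x).filter (fun e => |tE e| ≤ B)).card : ℝ) ≤ C * x := by
  set E : ℝ := Real.exp (|B| / 2) with hE
  have hE0 : 0 < E := Real.exp_pos _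
  have hEE : Real.exp |B| = E ^ 2 := by
    rw [hE, ← Real.exp_nat_mul]
    congr 1
    push_cast
    ring
  refine ⟨18 * E * (E + 1), by positivity, ?_⟩
  intro n hn x hx
  have hn' : (1 : ℝ) ≤ n := by exact_mod_cast hn
  have hx0 : 0 < x := by linarith
  obtain ⟨S, hS1, hS2, hS3⟩ := TailP.ball_sub (2 * E * x) (by positivity)
  have hex : ∀ V : G, ∃ s : Finset G, Prim V → ({V' : G | det V V' = (n : ℤ) ∧ (0 : ℝ) ≤ ((dot V V' : ℤ) : ℝ) ∧
      ((dot V V' : ℤ) : ℝ) ≤ E * nm V} ⊆ s ∧ (s.card : ℝ) ≤ (E * nm V - 0) / nm V + 1) := by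
    intro V
    by_cases hV : Prim V
    · obtain ⟨s, hs⟩ := cnt_sub V hV n 0 (E * nm V) (by positivity)
      exact ⟨s, fun _ => hs⟩
    · exact ⟨∅, fun h => absurd h hV⟩
  choose F hF using hex
  have hsub : (EN n x).filter (fun e => |tE e| ≤ B) ⊆
      (S.filter (fun V => Prim V)).biUnion (fun V => (F V).image (fun V' => (V, V'))) := by
    intro e he
    rw [mem_filter, mem_EN hn] at he
    obtain ⟨⟨h1, h2⟩, h3⟩ := he
    have h4 := dot_sq_add_det_sq e.1 e.2
    rw [h1.1] at h4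
    have h4' : ((dot e.1 e.2 : ℤ) : ℝ) ^ 2 + (n : ℝ) ^ 2 = (nm e.1 : ℝ) * nm e.2 := by
      exact_mod_cast h4
    have h5 : (0 : ℝ) < ((dot e.1 e.2 : ℤ) : ℝ) := by exact_mod_cast h1.2.1
    have h6 : ((dot e.1 e.2 : ℤ) : ℝ) ≤ x := h2
    have h7 : (0 : ℝ) < (nm e.1 : ℝ) * nm e.2 := by
      rw [← h4']
      positivity
    have h8 : (0 : ℝ) < nm e.1 := by
      rcases (Nat.cast_nonneg (α := ℝ) (nm e.1)).lt_or_eq with h | h
      · exact h
      · rw [← h, zero_mul] at h7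
        exact absurd h7 (lt_irrefl _)
    have h9 : (0 : ℝ) < nm e.2 := by
      rcases (Nat.cast_nonneg (α := ℝ) (nm e.2)).lt_or_eq with h | h
      · exact h
      · rw [← h, mul_zero] at h7
        exact absurd h7 (lt_irrefl _)
    have h10 : |tE e| ≤ |B| := h3.trans (le_abs_self B)
    rw [abs_le] at h10
    unfold tE at h10
    have h11 : (nm e.2 : ℝ) ≤ E ^ 2 * nm e.1 := by
      rw [← hEE, ← Real.log_le_log_iff h9 (by positivity), Real.log_mul (Real.exp_pos _).ne' h8.ne',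
        Real.log_exp]
      linarith [h10.2]
    have h12 : (nm e.1 : ℝ) ≤ E ^ 2 * nm e.2 := by
      rw [← hEE, ← Real.log_le_log_iff h8 (by positivity), Real.log_mul (Real.exp_pos _).ne' h9.ne',
        Real.log_exp]
      linarith [h10.1]
    have h13 : (nm e.1 : ℝ) ≤ 2 * E * x := by
      have h14 : ((dot e.1 e.2 : ℤ) : ℝ) ^ 2 ≤ x ^ 2 := pow_le_pow_left₀ h5.le h6 2
      have h15 : (n : ℝ) ^ 2 ≤ x ^ 2 := pow_le_pow_left₀ (by linarith) hx 2
      have h16 : (nm e.1 : ℝ) ^ 2 ≤ (2 * E * x) ^ 2 := by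
        calc (nm e.1 : ℝ) ^ 2 = nm e.1 * nm e.1 := sq _
          _ ≤ nm e.1 * (E ^ 2 * nm e.2) := mul_le_mul_of_nonneg_left h12 h8.le
          _ = E ^ 2 * (nm e.1 * nm e.2) := by ring
          _ ≤ E ^ 2 * (2 * x ^ 2) := by
              apply mul_le_mul_of_nonneg_left _ (by positivity)
              rw [← h4']
              linarith
          _ ≤ (2 * E * x) ^ 2 := by nlinarith [mul_pos hE0 hx0, sq_nonneg (E * x)]
      exact le_of_sq_le_sq h16 (by positivity)
    have h17 : ((dot e.1 e.2 : ℤ) : ℝ) ≤ E * nm e.1 := by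
      have h18 : ((dot e.1 e.2 : ℤ) : ℝ) ^ 2 ≤ (E * nm e.1) ^ 2 := by
        calc ((dot e.1 e.2 : ℤ) : ℝ) ^ 2 ≤ (nm e.1 : ℝ) * nm e.2 := by
              rw [← h4']
              nlinarith
          _ ≤ nm e.1 * (E ^ 2 * nm e.1) := mul_le_mul_of_nonneg_left h11 h8.le
          _ = (E * nm e.1) ^ 2 := by ring
      exact le_of_sq_le_sq h18 (by positivity)
    rw [mem_biUnion]
    refine ⟨e.1, ?_, ?_⟩
    · rw [mem_filter]
      refine ⟨hS1 e.1 ?_ h13, h1.2.2.1⟩
      intro h0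
      have : nm e.1 = 0 := by
        rw [h0]
        rfl
      rw [this] at h8
      simp at h8
    · rw [mem_image]
      refine ⟨e.2, ?_, rfl⟩
      have h19 : e.2 ∈ {V' : G | det e.1 V' = (n : ℤ) ∧ (0 : ℝ) ≤ ((dot e.1 V' : ℤ) : ℝ) ∧
        ((dot e.1 V' : ℤ) : ℝ) ≤ E * nm e.1} := ⟨h1.1, h5.le, h17⟩
      exact (hF e.1 h1.2.2.1).1 h19
  have h3 : (((EN n x).filter (fun e => |tE e| ≤ B)).card : ℝ) ≤
      ((∑ V ∈ S.filter (fun V => Prim V), (F V).card : ℕ) : ℝ) := by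
    exact_mod_cast (card_le_card hsub).trans
      (card_biUnion_le.trans (Finset.sum_le_sum (fun V _ => card_image_le)))
  calc (((EN n x).filter (fun e => |tE e| ≤ B)).card : ℝ) ≤
      ((∑ V ∈ S.filter (fun V => Prim V), (F V).card : ℕ) : ℝ) := h3
    _ = ∑ V ∈ S.filter (fun V => Prim V), ((F V).card : ℝ) := by push_cast; rfl
    _ ≤ ∑ V ∈ S.filter (fun V => Prim V), (E + 1) := by
        refine Finset.sum_le_sum (fun V hV => ?_)
        rw [mem_filter] at hV
        refine ((hF V hV.2).2).trans ?_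
        have hnv : (0 : ℝ) < nm V := by exact_mod_cast nm_pos (hS2 V hV.1)
        rw [sub_zero, mul_div_assoc, div_self hnv.ne', mul_one]
    _ = (S.filter (fun V => Prim V)).card * (E + 1) := by rw [sum_const, nsmul_eq_mul]
    _ ≤ S.card * (E + 1) := by
        apply mul_le_mul_of_nonneg_right _ (by linarith)
        exact_mod_cast card_filter_le _ _
    _ ≤ (9 * (2 * E * x)) * (E + 1) := mul_le_mul_of_nonneg_right hS3 (by linarith)
    _ = 18 * E * (E + 1) * x := by ring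

end Pool.Agent.OmEq

end

/-! ### from `Lib_MP_f1a94e_eq.CS` -/

section

/-!
# Piece CS: Cauchy-Schwarz over unbalanced edges
-/

set_option autoImplicit false

namespace Pool.Agent.OmEq

open Finset Pool.Agent.GaussMR Pool.Agent.OmAll

/-- triangle on `[J, J + N]` -/
noncomputable def rho (J N : ℕ) (r : ℝ) : ℝ := max 0 (1 - |2 * (r - J) / N - 1|)

/-- the norm of `A = (V - V') / n` -/
noncomputable def aN (n : ℕ) (e : G × G) : ℝ := ((nm e.1 : ℝ) + nm e.2 - 2 * mE e) / (n : ℝ) ^ 2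

/-- the weight of a pair of determinant `n` -/
noncomputable def wN (h : ℝ → ℝ) (J N n : ℕ) (X : ℝ) (e : G × G) : ℝ :=
  h (aN n e / X) ^ 2 * rho J N ((nm e.1 - mE e) / (n * aN n e)) * rho J N ((mE e - nm e.2) / (n * aN n e))

open Classical in
/-- the correlations of determinant `n` -/
noncomputable def Gm (f : ℕ → ℂ) (h : ℝ → ℝ) (J N n : ℕ) (x X : ℝ) : ℂ :=
  ∑ e ∈ (EN n x).filter (fun e => cg n e.2 e.1), f (nm e.1) * (starRingEnd ℂ) (f (nm e.2)) * (wN h J N n X e : ℂ)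

/-- the sum over unbalanced edges -/
noncomputable def SX (f : ℕ → ℂ) (h : ℝ → ℝ) (J N : ℕ) (x X : ℝ) : ℂ :=
  ∑ e ∈ EN 1 x, f (nm e.1) * f (nm e.2) * ((h (nm e.1 / X) * rho J N (mE e / nm e.1) : ℝ) : ℂ)

theorem csN_rho_nonneg (J N : ℕ) (r : ℝ) : 0 ≤ rho J N r := le_max_left _ _

theorem csN_rho_le (J N : ℕ) (r : ℝ) : rho J N r ≤ 1 := by
  unfold rho
  apply max_le zero_le_one
  linarith [abs_nonneg (2 * (r - J) / N - 1)]

theorem csN_rho_ne {J N : ℕ} (hN : 1 ≤ N) {r : ℝ} (h : rho J N r ≠ 0) : (J : ℝ) ≤ r ∧ r ≤ J + N := by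
  have h1 : |2 * (r - J) / N - 1| < 1 := by
    by_contra hc
    push Not at hc
    apply h
    unfold rho
    apply max_eq_left
    linarith
  rw [abs_lt] at h1
  have hN0 : (0 : ℝ) < N := by exact_mod_cast hN
  have h2 : 0 < 2 * (r - J) / N := by linarith [h1.1]
  have h3 : 2 * (r - J) / N < 2 := by linarith [h1.2]
  rw [div_lt_iff₀ hN0] at h3
  rw [div_pos_iff_of_pos_right hN0] at h2
  constructor <;> linarith

open Classical in
/-- the second vectors of the unbalanced edges with first vector `A` -/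
noncomputable def csB (J N : ℕ) (A : G) : Finset G :=
  (ball (((J : ℝ) + N) ^ 2 * nm A + 1)).filter (fun B => det A B = 1 ∧
    (J : ℝ) * nm A ≤ ((dot A B : ℤ) : ℝ) ∧ ((dot A B : ℤ) : ℝ) ≤ (J + N) * nm A)

theorem csN_ne_zero {A B : G} (h : det A B = 1) : A ≠ 0 := by
  rintro rfl
  unfold det at h
  simp at h

theorem csN_nm_pos {A B : G} (h : det A B = 1) : (1 : ℝ) ≤ nm A := by
  exact_mod_cast nm_pos (csN_ne_zero h)

/-- bound of the norm of the second vector -/
theorem csN_nm_le {J N : ℕ} {A B : G} (h : det A B = 1) (h0 : (0 : ℝ) ≤ ((dot A B : ℤ) : ℝ))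
    (h1 : ((dot A B : ℤ) : ℝ) ≤ (J + N) * nm A) : (nm B : ℝ) ≤ ((J : ℝ) + N) ^ 2 * nm A + 1 := by
  have h2 := csN_nm_pos h
  have h3 := dot_sq_add_det_sq A B
  rw [h] at h3
  have h4 : ((dot A B : ℤ) : ℝ) ^ 2 + 1 = (nm A : ℝ) * nm B := by
    have : ((dot A B ^ 2 + 1 ^ 2 : ℤ) : ℝ) = (((nm A : ℤ) * nm B : ℤ) : ℝ) := by rw [h3]
    push_cast at this
    linarith
  have h5 : ((dot A B : ℤ) : ℝ) ^ 2 ≤ ((J + N) * nm A) ^ 2 := by
    apply pow_le_pow_left₀ h0 h1
  have h6 : (nm A : ℝ) * nm B ≤ nm A * (((J : ℝ) + N) ^ 2 * nm A + 1) := by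
    rw [← h4]
    nlinarith
  exact le_of_mul_le_mul_left h6 (by linarith)

theorem csN_mem {J N : ℕ} {A B : G} : B ∈ csB J N A ↔ det A B = 1 ∧
    (J : ℝ) * nm A ≤ ((dot A B : ℤ) : ℝ) ∧ ((dot A B : ℤ) : ℝ) ≤ (J + N) * nm A := by
  classical
  unfold csB
  rw [mem_filter, mem_ball]
  refine ⟨fun h => h.2, fun h => ⟨?_, h⟩⟩
  apply csN_nm_le h.1 _ h.2.2
  exact le_trans (by positivity) h.2.1

theorem csN_card {J N : ℕ} {A : G} (hA : A ≠ 0) : ((csB J N A).card : ℝ) ≤ N + 1 := by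
  have hn : (0 : ℝ) < nm A := by exact_mod_cast nm_pos hA
  obtain ⟨s, h1, h2⟩ := TailP.edges_sub A (J * nm A) ((J + N) * nm A) (by
    have : (0 : ℝ) ≤ N := Nat.cast_nonneg _
    nlinarith)
  have h3 : csB J N A ⊆ s := by
    intro B hB
    rw [csN_mem] at hB
    have : B ∈ (s : Set G) := h1 hB
    exact this
  have h4 : ((csB J N A).card : ℝ) ≤ s.card := by exact_mod_cast card_le_card h3
  have h5 : (((J : ℝ) + N) * nm A - J * nm A) / nm A + 1 = N + 1 := by
    field_simp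
    ring
  rw [h5] at h2
  linarith

open Classical in
/-- the first vectors -/
noncomputable def csA (Y : ℝ) : Finset G := (ball Y).filter (fun z => z ≠ 0)

theorem csN_memA {Y : ℝ} {z : G} : z ∈ csA Y ↔ z ≠ 0 ∧ (nm z : ℝ) ≤ Y := by
  classical
  unfold csA
  rw [mem_filter, mem_ball, and_comm]

theorem csN_cardA {Y : ℝ} (hY : 0 ≤ Y) : ((csA Y).card : ℝ) ≤ 9 * Y := by
  obtain ⟨s, h1, _, h2⟩ := TailP.ball_sub Y hY
  have h3 : csA Y ⊆ s := by
    intro z hz
    rw [csN_memA] at hz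
    exact h1 z hz.1 hz.2
  have h4 : ((csA Y).card : ℝ) ≤ s.card := by exact_mod_cast card_le_card h3
  linarith

/-- the inner sum -/
noncomputable def csT (f : ℕ → ℂ) (J N : ℕ) (A : G) : ℂ :=
  ∑ B ∈ csB J N A, f (nm B) * ((rho J N (((dot A B : ℤ) : ℝ) / nm A) : ℝ) : ℂ)

/-- the term of the pair `p` in the square of the inner sum -/
noncomputable def csF (f : ℕ → ℂ) (J N : ℕ) (A : G) (p : G × G) : ℂ :=
  f (nm p.1) * (starRingEnd ℂ) (f (nm p.2)) *
    ((rho J N (((dot A p.1 : ℤ) : ℝ) / nm A) * rho J N (((dot A p.2 : ℤ) : ℝ) / nm A) : ℝ) : ℂ)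

theorem csN_prim {A B : G} (h : det A B = 1) : Prim A ∧ Prim B := by
  unfold det at h
  refine ⟨⟨B.im, -B.re, ?_⟩, ⟨-A.im, A.re, ?_⟩⟩
  · linear_combination h
  · linear_combination h

theorem csN_cg_one (u v : G) : cg 1 u v := by
  unfold cg
  simp

theorem csN_SX (f : ℕ → ℂ) (h : ℝ → ℝ) (h2 : ℝ) (hh2 : ∀ y, h2 ≤ y → h y = 0) (J N : ℕ) (hJ : 1 ≤ J)
    (hN : 1 ≤ N) (X : ℝ) (hX : 1 ≤ X) (x : ℝ) (hx : (J + N) * h2 * X ≤ x) :
    SX f h J N x X = ∑ A ∈ csA (h2 * X), f (nm A) * ((h (nm A / X) : ℝ) : ℂ) * csT f J N A := by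
  classical
  have hX0 : (0 : ℝ) < X := by linarith
  have hJ0 : (1 : ℝ) ≤ J := by exact_mod_cast hJ
  have hN0 : (0 : ℝ) ≤ N := Nat.cast_nonneg _
  set P : Finset (G × G) := (EN 1 x).filter (fun e => e.1 ∈ csA (h2 * X) ∧ e.2 ∈ csB J N e.1)
    with hP
  have hPmem : ∀ e : G × G, e ∈ P ↔ e.1 ∈ csA (h2 * X) ∧ e.2 ∈ csB J N e.1 := by
    intro e
    rw [hP, mem_filter]
    refine ⟨fun h => h.2, fun he => ⟨?_, he⟩⟩
    obtain ⟨h3, h4⟩ := he
    rw [csN_memA] at h3
    rw [csN_mem] at h4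
    rw [mem_EN one_pos]
    have h5 : (0 : ℝ) < ((dot e.1 e.2 : ℤ) : ℝ) := by
      have := csN_nm_pos h4.1
      nlinarith [h4.2.1]
    refine ⟨⟨?_, ?_, (csN_prim h4.1).1, ?_⟩, ?_⟩
    · rw [h4.1]
      rfl
    · exact_mod_cast h5
    · exact ⟨1, isCoprime_one_left, csN_cg_one _ _⟩
    · unfold mE
      calc ((dot e.1 e.2 : ℤ) : ℝ) ≤ (J + N) * nm e.1 := h4.2.2
        _ ≤ (J + N) * (h2 * X) := by
          apply mul_le_mul_of_nonneg_left h3.2
          positivity
        _ ≤ x := by linarith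
  have h3 : ∑ A ∈ csA (h2 * X), f (nm A) * ((h (nm A / X) : ℝ) : ℂ) * csT f J N A =
      ∑ A ∈ csA (h2 * X), ∑ B ∈ csB J N A, f (nm A) * ((h (nm A / X) : ℝ) : ℂ) *
        (f (nm B) * ((rho J N (((dot A B : ℤ) : ℝ) / nm A) : ℝ) : ℂ)) := by
    apply sum_congr rfl
    intro A _
    unfold csT
    rw [mul_sum]
  rw [h3, ← sum_finset_product' P (csA (h2 * X)) (csB J N) hPmem]
  unfold SX
  rw [hP, sum_filter_of_ne]
  · apply sum_congr rfl
    intro e _
    unfold mE
    push_cast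
    ring
  · intro e he hne
    rw [mem_EN one_pos] at he
    obtain ⟨⟨hdet, hdot, hprim, _⟩, _⟩ := he
    have hdet1 : det e.1 e.2 = 1 := by
      rw [hdet]
      rfl
    have hne1 : h (nm e.1 / X) ≠ 0 := by
      intro h0
      apply hne
      rw [h0]
      simp
    have hne2 : rho J N (((dot e.1 e.2 : ℤ) : ℝ) / nm e.1) ≠ 0 := by
      intro h0
      apply hne
      rw [h0]
      simp
    have hnm := csN_nm_pos hdet1
    have h4 : (nm e.1 : ℝ) / X < h2 := by
      by_contra hc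
      push Not at hc
      exact hne1 (hh2 _ hc)
    rw [div_lt_iff₀ hX0] at h4
    have h5 := csN_rho_ne hN hne2
    rw [le_div_iff₀ (by linarith), div_le_iff₀ (by linarith)] at h5
    rw [csN_memA, csN_mem]
    exact ⟨⟨csN_ne_zero hdet1, h4.le⟩, hdet1, h5.1, h5.2⟩

theorem csN_conj (f : ℕ → ℂ) (J N : ℕ) (A : G) (p : G × G) :
    (starRingEnd ℂ) (csF f J N A p) = csF f J N A (p.2, p.1) := by
  unfold csF
  rw [map_mul, map_mul, Complex.conj_conj, Complex.conj_ofReal]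
  push_cast
  ring

open Classical in
/-- the pairs with `dot A B' < dot A B` -/
noncomputable def csU (f : ℕ → ℂ) (J N : ℕ) (A : G) : ℂ :=
  ∑ p ∈ csB J N A ×ˢ csB J N A, if dot A p.2 < dot A p.1 then csF f J N A p else 0

theorem csN_eq_of_dot {A B B' : G} (h : det A B = 1) (h' : det A B' = 1) (hd : dot A B = dot A B') :
    B = B' := by
  obtain ⟨k, hk⟩ := TailP.diff_mul h h'
  rw [hk, TailP.dot_add_mul] at hd
  have hnm : (nm A : ℤ) ≠ 0 := by
    have := nm_pos (csN_ne_zero h)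
    omega
  have h1 : k * (nm A : ℤ) = 0 := by linarith
  have h2 : k = 0 := by
    rcases mul_eq_zero.1 h1 with h3 | h3
    · exact h3
    · exact absurd h3 hnm
  rw [hk, h2]
  simp

theorem csN_TT (f : ℕ → ℂ) (J N : ℕ) (A : G) :
    csT f J N A * (starRingEnd ℂ) (csT f J N A) =
      ∑ B ∈ csB J N A, csF f J N A (B, B) + csU f J N A + (starRingEnd ℂ) (csU f J N A) := by
  classical
  have h1 : csT f J N A * (starRingEnd ℂ) (csT f J N A) =
      ∑ p ∈ csB J N A ×ˢ csB J N A, csF f J N A p := by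
    unfold csT
    rw [map_sum, sum_mul_sum, sum_product]
    apply sum_congr rfl
    intro B _
    apply sum_congr rfl
    intro B' _
    unfold csF
    rw [map_mul, Complex.conj_ofReal]
    push_cast
    ring
  have h2 : ∑ p ∈ csB J N A ×ˢ csB J N A, csF f J N A p =
      ∑ p ∈ csB J N A ×ˢ csB J N A, (if p.1 = p.2 then csF f J N A p else 0) +
      ∑ p ∈ csB J N A ×ˢ csB J N A, (if dot A p.2 < dot A p.1 then csF f J N A p else 0) +
      ∑ p ∈ csB J N A ×ˢ csB J N A, (if dot A p.1 < dot A p.2 then csF f J N A p else 0) := by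
    rw [← sum_add_distrib, ← sum_add_distrib]
    apply sum_congr rfl
    intro p hp
    rw [mem_product, csN_mem, csN_mem] at hp
    rcases lt_trichotomy (dot A p.1) (dot A p.2) with h | h | h
    · rw [if_neg (fun h3 => by rw [h3] at h; exact lt_irrefl _ h), if_neg (not_lt.2 h.le), if_pos h]
      ring
    · rw [if_pos (csN_eq_of_dot hp.1.1 hp.2.1 h), if_neg (by omega), if_neg (by omega)]
      ring
    · rw [if_neg (fun h3 => by rw [h3] at h; exact lt_irrefl _ h), if_pos h, if_neg (not_lt.2 h.le)]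
      ring
  have h3 : ∑ p ∈ csB J N A ×ˢ csB J N A, (if p.1 = p.2 then csF f J N A p else 0) =
      ∑ B ∈ csB J N A, csF f J N A (B, B) := by
    rw [sum_product]
    apply sum_congr rfl
    intro B hB
    rw [sum_ite_eq, if_pos hB]
  have h4 : ∑ p ∈ csB J N A ×ˢ csB J N A, (if dot A p.1 < dot A p.2 then csF f J N A p else 0) =
      (starRingEnd ℂ) (csU f J N A) := by
    unfold csU
    rw [map_sum, sum_product, sum_product, sum_comm]
    apply sum_congr rfl
    intro B _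
    apply sum_congr rfl
    intro B' _
    show (if dot A B' < dot A B then csF f J N A (B', B) else 0) =
      (starRingEnd ℂ) (if dot A B' < dot A B then csF f J N A (B, B') else 0)
    split_ifs
    · rw [csN_conj]
    · rw [map_zero]
  rw [h1, h2, h3, h4]
  rfl

theorem csN_U (f : ℕ → ℂ) (J N : ℕ) (A : G) :
    csU f J N A = ∑ n ∈ Icc 1 N, ∑ p ∈ csB J N A ×ˢ csB J N A,
      if p.1 = p.2 + (((n : ℤ) : G)) * A then csF f J N A p else 0 := by
  classical
  unfold csU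
  rw [sum_comm]
  apply sum_congr rfl
  intro p hp
  rw [mem_product, csN_mem, csN_mem] at hp
  obtain ⟨⟨h1, h2, h3⟩, h4, h5, h6⟩ := hp
  have hA := csN_ne_zero h1
  have hnm : (0 : ℤ) < nm A := by exact_mod_cast nm_pos hA
  by_cases hlt : dot A p.2 < dot A p.1
  · rw [if_pos hlt]
    obtain ⟨k, hk⟩ := TailP.diff_mul h4 h1
    have h7 : dot A p.1 = dot A p.2 + k * nm A := by
      rw [hk, TailP.dot_add_mul]
    have hk1 : 1 ≤ k := by
      by_contra hc
      push Not at hc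
      nlinarith
    have hkN : k ≤ N := by
      have h8 : ((k * nm A : ℤ) : ℝ) ≤ N * nm A := by
        have h9 : ((k * nm A : ℤ) : ℝ) = ((dot A p.1 : ℤ) : ℝ) - ((dot A p.2 : ℤ) : ℝ) := by
          rw [h7]
          push_cast
          ring
        rw [h9]
        linarith
      have h10 : k * nm A ≤ (N : ℤ) * nm A := by exact_mod_cast h8
      exact le_of_mul_le_mul_right h10 hnm
    obtain ⟨m, rfl⟩ := Int.eq_ofNat_of_zero_le (by omega : (0 : ℤ) ≤ k)
    rw [sum_eq_single m]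
    · rw [if_pos hk]
    · intro n hn hnm'
      rw [if_neg]
      intro h8
      apply hnm'
      rw [hk] at h8
      have h9 : (((m : ℤ) : G)) * A = (((n : ℤ) : G)) * A := add_left_cancel h8
      have h10 := mul_right_cancel₀ hA h9
      have h11 : (m : ℤ) = (n : ℤ) := by exact_mod_cast h10
      omega
    · intro hm
      exfalso
      apply hm
      rw [mem_Icc]
      omega
  · rw [if_neg hlt]
    symm
    apply sum_eq_zero
    intro n hn
    rw [mem_Icc] at hn
    rw [if_neg]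
    intro h8
    apply hlt
    rw [h8, TailP.dot_add_mul]
    have : (0 : ℤ) < (n : ℤ) * nm A := by
      have : (0 : ℤ) < n := by omega
      positivity
    omega

theorem csN_nm_sub (V V' : G) : (nm (V - V') : ℤ) = nm V + nm V' - 2 * dot V V' := by
  rw [nm_eq, nm_eq, nm_eq]
  unfold dot
  rw [Zsqrtd.re_sub, Zsqrtd.im_sub]
  ring

theorem csN_nm_smul (n : ℤ) (A : G) : (nm ((n : G) * A) : ℤ) = n ^ 2 * nm A := by
  rw [nm_eq, nm_eq, TailP.smul_re, TailP.smul_im]
  ring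

theorem csN_Gm (f : ℕ → ℂ) (h : ℝ → ℝ) (h2 : ℝ) (hh2 : ∀ y, h2 ≤ y → h y = 0) (J N : ℕ) (hJ : 1 ≤ J)
    (hN : 1 ≤ N) (X : ℝ) (hX : 1 ≤ X) (x' : ℝ) (hx' : (J + N) ^ 2 * h2 * X + 1 ≤ x') (n : ℕ) (hn : 1 ≤ n) :
    ∑ A ∈ csA (h2 * X), ((h (nm A / X) ^ 2 : ℝ) : ℂ) * ∑ p ∈ csB J N A ×ˢ csB J N A,
      (if p.1 = p.2 + (((n : ℤ) : G)) * A then csF f J N A p else 0) = Gm f h J N n x' X := by
  classical
  have hX0 : (0 : ℝ) < X := by linarith
  have hJ0 : (1 : ℝ) ≤ J := by exact_mod_cast hJ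
  have hn0 : (1 : ℝ) ≤ n := by exact_mod_cast hn
  have hnz : (1 : ℤ) ≤ n := by exact_mod_cast hn
  set S : Finset ((_ : G) × (G × G)) := (csA (h2 * X)).sigma
    (fun A => (csB J N A ×ˢ csB J N A).filter (fun p => p.1 = p.2 + (((n : ℤ) : G)) * A)) with hS
  have h1 : ∑ A ∈ csA (h2 * X), ((h (nm A / X) ^ 2 : ℝ) : ℂ) * ∑ p ∈ csB J N A ×ˢ csB J N A,
      (if p.1 = p.2 + (((n : ℤ) : G)) * A then csF f J N A p else 0) =
      ∑ a ∈ S, ((h (nm a.1 / X) ^ 2 : ℝ) : ℂ) * csF f J N a.1 a.2 := by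
    rw [hS, sum_sigma]
    apply sum_congr rfl
    intro A _
    rw [mul_sum, sum_filter]
    apply sum_congr rfl
    intro p _
    split_ifs
    · rfl
    · rw [mul_zero]
  have hSmem : ∀ a : (_ : G) × (G × G), a ∈ S ↔ (a.1 ≠ 0 ∧ (nm a.1 : ℝ) ≤ h2 * X) ∧
      (a.2.1 ∈ csB J N a.1 ∧ a.2.2 ∈ csB J N a.1) ∧ a.2.1 = a.2.2 + (((n : ℤ) : G)) * a.1 := by
    intro a
    rw [hS, mem_sigma, csN_memA, mem_filter, mem_product]
  -- facts about a triple
  have hfacts : ∀ A V V' : G, V = V' + (((n : ℤ) : G)) * A → A ≠ 0 →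
      aN n (V, V') = nm A ∧ ((nm V : ℝ) - mE (V, V')) / (n * aN n (V, V')) =
        ((dot A V : ℤ) : ℝ) / nm A ∧ (mE (V, V') - (nm V' : ℝ)) / (n * aN n (V, V')) =
        ((dot A V' : ℤ) : ℝ) / nm A := by
    intro A V V' hV hA
    have hnm : (0 : ℝ) < nm A := by exact_mod_cast nm_pos hA
    have h3 : V - V' = (((n : ℤ) : G)) * A := by
      rw [hV]
      ring
    have h4 : (n : ℤ) ^ 2 * nm A = nm V + nm V' - 2 * dot V V' := by
      rw [← csN_nm_smul, ← h3, csN_nm_sub]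
    have h5 : (n : ℝ) ^ 2 * nm A = nm V + nm V' - 2 * ((dot V V' : ℤ) : ℝ) := by exact_mod_cast h4
    have h6 : aN n (V, V') = nm A := by
      unfold aN mE
      rw [div_eq_iff (by positivity)]
      show (nm V : ℝ) + nm V' - 2 * ((dot V V' : ℤ) : ℝ) = nm A * (n : ℝ) ^ 2
      rw [← h5]
      ring
    have h7 : (n : ℤ) * dot A V = nm V - dot V V' := by
      rw [nm_eq, hV]
      unfold dot
      rw [Zsqrtd.re_add, Zsqrtd.im_add, TailP.smul_re, TailP.smul_im]
      ring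
    have h8 : (n : ℤ) * dot A V' = dot V V' - nm V' := by
      rw [nm_eq, hV]
      unfold dot
      rw [Zsqrtd.re_add, Zsqrtd.im_add, TailP.smul_re, TailP.smul_im]
      ring
    have h9 : (n : ℝ) * ((dot A V : ℤ) : ℝ) = nm V - ((dot V V' : ℤ) : ℝ) := by exact_mod_cast h7
    have h10 : (n : ℝ) * ((dot A V' : ℤ) : ℝ) = ((dot V V' : ℤ) : ℝ) - nm V' := by exact_mod_cast h8
    refine ⟨h6, ?_, ?_⟩
    · rw [h6]
      unfold mE
      show ((nm V : ℝ) - ((dot V V' : ℤ) : ℝ)) / (n * nm A) = _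
      rw [← h9]
      field_simp
    · rw [h6]
      unfold mE
      show (((dot V V' : ℤ) : ℝ) - (nm V' : ℝ)) / (n * nm A) = _
      rw [← h10]
      field_simp
  rw [h1]
  unfold Gm
  apply sum_bij_ne_zero (fun a _ _ => a.2)
  · rintro ⟨A, B, B'⟩ ha _
    rw [hSmem] at ha
    obtain ⟨⟨hA, hAX⟩, ⟨hB, hB'⟩, hBB⟩ := ha
    simp only at hA hAX hB hB' hBB
    have hb := csN_mem.1 hB
    have hb' := csN_mem.1 hB'
    have hnm : (1 : ℝ) ≤ nm A := csN_nm_pos hb.1
    rw [mem_filter, mem_EN (by omega)]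
    have hdetB : det B B' = n := by
      have := hb'.1
      rw [hBB]
      unfold det at this ⊢
      rw [Zsqrtd.re_add, Zsqrtd.im_add, TailP.smul_re, TailP.smul_im]
      linear_combination (n : ℤ) * this
    have hdotB : dot B B' = nm B' + n * dot A B' := by
      rw [hBB, nm_eq]
      unfold dot
      rw [Zsqrtd.re_add, Zsqrtd.im_add, TailP.smul_re, TailP.smul_im]
      ring
    have hdot' : (0 : ℝ) < ((dot A B' : ℤ) : ℝ) := by nlinarith [hb'.2.1]
    have hdot'' : (0 : ℤ) < dot A B' := by exact_mod_cast hdot'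
    have hdot : (0 : ℝ) < ((dot A B : ℤ) : ℝ) := by nlinarith [hb.2.1]
    have hnB' : (0 : ℤ) ≤ nm B' := Int.natCast_nonneg _
    have hcg : cg n B' B := by
      unfold cg
      rw [hBB, Zsqrtd.re_add, Zsqrtd.im_add, TailP.smul_re, TailP.smul_im]
      constructor
      · exact ⟨-A.re, by ring⟩
      · exact ⟨-A.im, by ring⟩
    refine ⟨⟨⟨hdetB, ?_, (csN_prim hb.1).2, ⟨1, isCoprime_one_left, ?_⟩⟩, ?_⟩, hcg⟩
    · show 0 < dot B B'
      rw [hdotB]
      have : (0 : ℤ) < n * dot A B' := by positivity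
      omega
    · show cg n B' (((1 : ℤ) : G) * B)
      rw [Int.cast_one, one_mul]
      exact hcg
    · unfold mE
      show ((dot B B' : ℤ) : ℝ) ≤ x'
      have h3 := csN_nm_le hb.1 hdot.le hb.2.2
      have h4 := csN_nm_le hb'.1 hdot'.le hb'.2.2
      have h5 := csN_nm_sub B B'
      have h6 : (0 : ℤ) ≤ nm (B - B') := Int.natCast_nonneg _
      have h7 : 2 * dot B B' ≤ (nm B : ℤ) + nm B' := by omega
      have h8 : 2 * ((dot B B' : ℤ) : ℝ) ≤ (nm B : ℝ) + nm B' := by exact_mod_cast h7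
      have h9 : ((J : ℝ) + N) ^ 2 * nm A ≤ ((J : ℝ) + N) ^ 2 * (h2 * X) :=
        mul_le_mul_of_nonneg_left hAX (by positivity)
      nlinarith
  · rintro ⟨A, B, B'⟩ ha _ ⟨A₂, B₂, B₂'⟩ ha₂ _ heq
    rw [hSmem] at ha ha₂
    have h3 : (B, B') = (B₂, B₂') := heq
    rw [Prod.mk.injEq] at h3
    obtain ⟨rfl, rfl⟩ := h3
    have h4 : (((n : ℤ) : G)) * A = (((n : ℤ) : G)) * A₂ := by
      have h5 := ha.2.2
      have h6 := ha₂.2.2
      simp only at h5 h6
      rw [h5] at h6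
      exact add_left_cancel h6
    have h5 : ((n : ℤ) : G) ≠ 0 := by
      intro h0
      have : (n : ℤ) = 0 := by exact_mod_cast h0
      omega
    have h6 : A = A₂ := mul_left_cancel₀ h5 h4
    rw [h6]
  · rintro ⟨V, V'⟩ he hne
    rw [mem_filter, mem_EN (by omega)] at he
    obtain ⟨⟨⟨hdet, hdot, hprim, _⟩, _⟩, hcg⟩ := he
    simp only at hdet hdot hprim hcg
    obtain ⟨⟨a, ha⟩, ⟨b, hb⟩⟩ := hcg
    set A : G := ⟨-a, -b⟩ with hAdef
    have hV : V = V' + (((n : ℤ) : G)) * A := by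
      apply Zsqrtd.ext
      · rw [Zsqrtd.re_add, TailP.smul_re, hAdef]
        simp only
        linarith
      · rw [Zsqrtd.im_add, TailP.smul_im, hAdef]
        simp only
        linarith
    have hdetn' : det V V' = (n : ℤ) * det A V' := by
      rw [hV]
      unfold det
      rw [Zsqrtd.re_add, Zsqrtd.im_add, TailP.smul_re, TailP.smul_im]
      ring
    have hdetn : (n : ℤ) * det A V' = n := by rw [← hdetn', hdet]
    have hdet1 : det A V' = 1 := by
      have h3 : (n : ℤ) * det A V' = n * 1 := by rw [hdetn, mul_one]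
      exact mul_left_cancel₀ (by omega) h3
    have hdet2 : det A V = 1 := by
      rw [← hdet1, hV]
      unfold det
      rw [Zsqrtd.re_add, Zsqrtd.im_add, TailP.smul_re, TailP.smul_im]
      ring
    have hA := csN_ne_zero hdet1
    have hnm := csN_nm_pos hdet1
    obtain ⟨h3, h4, h5⟩ := hfacts A V V' hV hA
    have hw : wN h J N n X (V, V') ≠ 0 := by
      intro h0
      apply hne
      rw [h0]
      simp
    unfold wN at hw
    simp only at hw
    rw [h4, h5, h3] at hw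
    have hw1 : h (nm A / X) ≠ 0 := by
      intro h0
      apply hw
      rw [h0]
      ring
    have hw2 : rho J N (((dot A V : ℤ) : ℝ) / nm A) ≠ 0 := by
      intro h0
      apply hw
      rw [h0]
      ring
    have hw3 : rho J N (((dot A V' : ℤ) : ℝ) / nm A) ≠ 0 := by
      intro h0
      apply hw
      rw [h0]
      ring
    have h6 : (nm A : ℝ) / X < h2 := by
      by_contra hc
      push Not at hc
      exact hw1 (hh2 _ hc)
    rw [div_lt_iff₀ hX0] at h6
    have h7 := csN_rho_ne hN hw2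
    have h8 := csN_rho_ne hN hw3
    rw [le_div_iff₀ (by linarith), div_le_iff₀ (by linarith)] at h7 h8
    refine ⟨⟨A, V, V'⟩, ?_, ?_, rfl⟩
    · rw [hSmem]
      exact ⟨⟨hA, h6.le⟩, ⟨csN_mem.2 ⟨hdet2, h7.1, h7.2⟩, csN_mem.2 ⟨hdet1, h8.1, h8.2⟩⟩, hV⟩
    · have h9 : f (nm V) ≠ 0 := by
        intro h0
        apply hne
        rw [h0]
        simp
      have h10 : (starRingEnd ℂ) (f (nm V')) ≠ 0 := by
        intro h0
        apply hne
        rw [h0]
        simp
      unfold csF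
      refine mul_ne_zero ?_ (mul_ne_zero (mul_ne_zero h9 h10) ?_)
      · exact_mod_cast pow_ne_zero 2 hw1
      · exact_mod_cast mul_ne_zero hw2 hw3
  · rintro ⟨A, B, B'⟩ ha _
    rw [hSmem] at ha
    obtain ⟨⟨hA, hAX⟩, ⟨hB, hB'⟩, hBB⟩ := ha
    simp only at hA hAX hB hB' hBB
    obtain ⟨h3, h4, h5⟩ := hfacts A B B' hBB hA
    unfold csF wN
    simp only
    rw [h4, h5, h3]
    push_cast
    ring

/-- PROOF. Only `e = (A, B)` with `h (nm A / X) ≠ 0` (so `nm A < h2 X`) and `rho J N (dot / nm A) ≠ 0` (so `J ≤ dot A B / nm A ≤ J + N`) contribute, and all pairs with `det A B = 1` with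
these two properties lie in `EN 1 x` (`0 < dot`, `A` primitive, `c = 1`: everything is congruent modulo 1; `dot ≤ (J + N) h2 X ≤ x`). So
`S = ∑_A f(nm A) h(nm A / X) T_A`, `T_A = ∑_(B : det A B = 1) f(nm B) rho (dot A B / nm A)`, `A ≠ 0` in a set of at most `9 h2 X` elements (`ball_sub`). Cauchy-Schwarz:
`‖S‖^2 ≤ 9 h2 X ∑_A h(nm A/X)^2 ‖T_A‖^2`, and `‖T_A‖^2 = ∑_(B, B')`: the diagonal is at most the number of `B`, `≤ N + 1` (`edges_fixed` / `line_count`), total `≤ 9 h2 X (N + 1)`.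
Off the diagonal, `B = B' + n A` or `B' = B + n A` with `n ≥ 1` (`diff_mul` of Tail.lean) and `n ≤ N` (both quotients in `[J, J + N]`, `dot A (B' + n A) = dot A B' + n nm A`); the two parts are complex
conjugates, so they add up to `2 Re`. For fixed `n`: `(A, B, B')` with `B = B' + n A` corresponds to `e = (V, V') = (B, B')`, `det B B' = n det A B' = n`,
`dot B B' = nm B' + n dot A B' > 0`, `B` primitive (`det A B = 1`), `V' = V mod n`, so `e ∈ EN n x'` with `cg n e.2 e.1` (`dot B B' ≤ (nm B + nm B')/2`, `nm B nm A = dot^2 + 1`, `nm A ≥ 1`, so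
`nm B ≤ (J + N)^2 h2 X + 1`); conversely `e ∈ EN n` with `cg n e.2 e.1` gives `A = (V - V')/n` with `det A V' = 1`, `det A V = 1`; the weights agree: `n^2 nm A = nm V + nm V' - 2 dot`,
`n dot A V = nm V - dot V V'`, `n dot A V' = dot V V' - nm V'`, and if the weight is not zero then `dot A V' > 0`, ... So `∑_A h^2 (off-diagonal with n) = Gm n`. -/
theorem csN (f : ℕ → ℂ) (hf : ∀ n, ‖f n‖ ≤ 1) (h : ℝ → ℝ) (hh0 : ∀ y, 0 ≤ h y) (hh1 : ∀ y, h y ≤ 1) (h2 : ℝ)
    (hh2 : ∀ y, h2 ≤ y → h y = 0) (J N : ℕ) (hJ : 1 ≤ J) (hN : 1 ≤ N) (X : ℝ) (hX : 1 ≤ X) (hh2' : 1 ≤ h2) (x x' : ℝ)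
    (hx : (J + N) * h2 * X ≤ x) (hx' : (J + N) ^ 2 * h2 * X + 1 ≤ x') :
    ‖SX f h J N x X‖ ^ 2 ≤ 9 * h2 * X * (9 * h2 * X * (N + 1) + 2 * ‖∑ n ∈ Icc 1 N, Gm f h J N n x' X‖) := by
  classical
  have hX0 : (0 : ℝ) < X := by linarith
  have hY0 : (0 : ℝ) ≤ h2 * X := by positivity
  set 𝒜 := csA (h2 * X) with h𝒜
  have hcardA : (𝒜.card : ℝ) ≤ 9 * (h2 * X) := csN_cardA hY0
  rw [csN_SX f h h2 hh2 J N hJ hN X hX x hx]
  -- the sum of the squares
  set Q : ℝ := ∑ A ∈ 𝒜, h (nm A / X) ^ 2 * ‖csT f J N A‖ ^ 2 with hQ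
  have h1 : ‖∑ A ∈ 𝒜, f (nm A) * ((h (nm A / X) : ℝ) : ℂ) * csT f J N A‖ ^ 2 ≤ 9 * h2 * X * Q := by
    have h3 : ‖∑ A ∈ 𝒜, f (nm A) * ((h (nm A / X) : ℝ) : ℂ) * csT f J N A‖ ≤
        ∑ A ∈ 𝒜, h (nm A / X) * ‖csT f J N A‖ := by
      apply norm_sum_le_of_le
      intro A _
      rw [norm_mul, norm_mul, Complex.norm_real, Real.norm_eq_abs, abs_of_nonneg (hh0 _)]
      have h4 := hf (nm A)
      have h5 := hh0 (nm A / X)
      have h6 := norm_nonneg (csT f J N A)
      calc ‖f (nm A)‖ * h (nm A / X) * ‖csT f J N A‖ ≤ 1 * h (nm A / X) * ‖csT f J N A‖ := by gcongr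
        _ = _ := by ring
    have h4 : (∑ A ∈ 𝒜, h (nm A / X) * ‖csT f J N A‖) ^ 2 ≤
        𝒜.card * ∑ A ∈ 𝒜, (h (nm A / X) * ‖csT f J N A‖) ^ 2 := sq_sum_le_card_mul_sum_sq
    have h5 : ∑ A ∈ 𝒜, (h (nm A / X) * ‖csT f J N A‖) ^ 2 = Q := by
      rw [hQ]
      apply sum_congr rfl
      intro A _
      ring
    have hQ0 : 0 ≤ Q := by
      rw [hQ]
      apply sum_nonneg
      intro A _
      positivity
    calc ‖∑ A ∈ 𝒜, f (nm A) * ((h (nm A / X) : ℝ) : ℂ) * csT f J N A‖ ^ 2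
        ≤ (∑ A ∈ 𝒜, h (nm A / X) * ‖csT f J N A‖) ^ 2 := pow_le_pow_left₀ (norm_nonneg _) h3 2
      _ ≤ 𝒜.card * Q := by rw [← h5]; exact h4
      _ ≤ 9 * (h2 * X) * Q := mul_le_mul_of_nonneg_right hcardA hQ0
      _ = 9 * h2 * X * Q := by ring
  refine h1.trans ?_
  apply mul_le_mul_of_nonneg_left _ (by positivity)
  -- expansion of the squares
  set D : ℂ := ∑ A ∈ 𝒜, ((h (nm A / X) ^ 2 : ℝ) : ℂ) * ∑ B ∈ csB J N A, csF f J N A (B, B) with hD
  set U : ℂ := ∑ A ∈ 𝒜, ((h (nm A / X) ^ 2 : ℝ) : ℂ) * csU f J N A with hU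
  have h3 : ((Q : ℝ) : ℂ) = D + U + (starRingEnd ℂ) U := by
    rw [hQ, hD, hU, map_sum, ← sum_add_distrib, ← sum_add_distrib]
    push_cast
    apply sum_congr rfl
    intro A _
    have h4 : ((‖csT f J N A‖ : ℝ) : ℂ) ^ 2 = csT f J N A * (starRingEnd ℂ) (csT f J N A) := by
      rw [Complex.mul_conj, Complex.normSq_eq_norm_sq]
      push_cast
      rfl
    rw [h4, csN_TT, map_mul, map_pow, Complex.conj_ofReal]
    ring
  have hUG : U = ∑ n ∈ Icc 1 N, Gm f h J N n x' X := by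
    rw [hU]
    have h4 : ∀ A ∈ 𝒜, ((h (nm A / X) ^ 2 : ℝ) : ℂ) * csU f J N A =
        ∑ n ∈ Icc 1 N, ((h (nm A / X) ^ 2 : ℝ) : ℂ) * ∑ p ∈ csB J N A ×ˢ csB J N A,
          (if p.1 = p.2 + (((n : ℤ) : G)) * A then csF f J N A p else 0) := by
      intro A _
      rw [csN_U, mul_sum]
    rw [sum_congr rfl h4, sum_comm]
    apply sum_congr rfl
    intro n hn
    rw [mem_Icc] at hn
    exact csN_Gm f h h2 hh2 J N hJ hN X hX x' hx' n hn.1
  have hDle : ‖D‖ ≤ 9 * h2 * X * (N + 1) := by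
    rw [hD]
    have h4 : ‖∑ A ∈ 𝒜, ((h (nm A / X) ^ 2 : ℝ) : ℂ) * ∑ B ∈ csB J N A, csF f J N A (B, B)‖ ≤
        ∑ _A ∈ 𝒜, ((N : ℝ) + 1) := by
      apply norm_sum_le_of_le
      intro A hA
      rw [h𝒜, csN_memA] at hA
      rw [norm_mul, Complex.norm_real, Real.norm_eq_abs, abs_of_nonneg (sq_nonneg _)]
      have h5 : ‖∑ B ∈ csB J N A, csF f J N A (B, B)‖ ≤ ∑ _B ∈ csB J N A, (1 : ℝ) := by
        apply norm_sum_le_of_le
        intro B _
        unfold csF
        rw [norm_mul, norm_mul, Complex.norm_real, RCLike.norm_conj, Real.norm_eq_abs]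
        have h6 := hf (nm B)
        have h7 := csN_rho_nonneg J N (((dot A B : ℤ) : ℝ) / nm A)
        have h8 := csN_rho_le J N (((dot A B : ℤ) : ℝ) / nm A)
        simp only
        rw [abs_of_nonneg (mul_nonneg h7 h7)]
        calc ‖f (nm B)‖ * ‖f (nm B)‖ * (rho J N (((dot A B : ℤ) : ℝ) / nm A) *
              rho J N (((dot A B : ℤ) : ℝ) / nm A)) ≤ 1 * 1 * (1 * 1) := by gcongr
          _ = 1 := by norm_num
      rw [sum_const, nsmul_eq_mul, mul_one] at h5
      have h6 : h (nm A / X) ^ 2 ≤ 1 := by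
        have h7 := hh0 (nm A / X)
        have h8 := hh1 (nm A / X)
        nlinarith
      calc h (nm A / X) ^ 2 * ‖∑ B ∈ csB J N A, csF f J N A (B, B)‖
          ≤ 1 * ((N : ℝ) + 1) := by
            apply mul_le_mul h6 (h5.trans (csN_card hA.1)) (norm_nonneg _) zero_le_one
        _ = (N : ℝ) + 1 := one_mul _
    rw [sum_const, nsmul_eq_mul] at h4
    calc _ ≤ (𝒜.card : ℝ) * ((N : ℝ) + 1) := h4
      _ ≤ 9 * (h2 * X) * ((N : ℝ) + 1) := by
        apply mul_le_mul_of_nonneg_right hcardA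
        positivity
      _ = _ := by ring
  have h4 : Q = D.re + 2 * U.re := by
    have h5 := congrArg Complex.re h3
    rw [Complex.ofReal_re, Complex.add_re, Complex.add_re, Complex.conj_re] at h5
    linarith
  rw [h4, ← hUG]
  have h5 := Complex.re_le_norm D
  have h6 := Complex.re_le_norm U
  linarith

end Pool.Agent.OmEq

end

/-! ### from `Lib_MP_f1a94e_aq.ZSmooth` -/

section

/-!
# Piece ZSMOOTH: sharp and smooth cutoffs for sums over primes `1 mod 4`
-/

set_option autoImplicit false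

namespace Pool.Agent.OmAll

open Finset

namespace ZSm

theorem PT_eq (n : ℕ) :
    PT n = (Icc 1 ⌊(n : ℝ)⌋₊).filter (fun p => p.Prime ∧ p % 4 = 1) := by
  ext p
  simp only [PT, mem_filter, mem_range, mem_Icc, Nat.floor_natCast]
  constructor
  · rintro ⟨h1, h2, h3⟩
    exact ⟨⟨h2.one_lt.le, by omega⟩, h2, h3⟩
  · rintro ⟨⟨h1, h1'⟩, h2, h3⟩
    exact ⟨by omega, h2, h3⟩

theorem mem_PT {n p : ℕ} : p ∈ PT n ↔ p ≤ n ∧ p.Prime ∧ p % 4 = 1 := by
  simp only [PT, mem_filter, mem_range]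
  constructor
  · rintro ⟨h1, h2, h3⟩; exact ⟨by omega, h2, h3⟩
  · rintro ⟨h1, h2, h3⟩; exact ⟨by omega, h2, h3⟩

theorem PT_five {n p : ℕ} (h : p ∈ PT n) : 5 ≤ p := by
  obtain ⟨-, h2, h3⟩ := mem_PT.mp h
  have := h2.two_le
  omega

theorem PT_mono {m n : ℕ} (h : m ≤ n) : PT m ⊆ PT n := by
  intro p hp
  rw [mem_PT] at hp ⊢
  exact ⟨hp.1.trans h, hp.2⟩

theorem one_le_logT {T : ℕ} (hT : 3 ≤ T) : 1 ≤ Real.log T := by
  have h3 : (3 : ℝ) ≤ T := by exact_mod_cast hT
  rw [Real.le_log_iff_exp_le (by linarith)]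
  have := Real.exp_one_lt_d9
  linarith

/-- the mass of the block `T^K < p ≤ T^(K+1)` -/
theorem block (C : ℝ) (hC0 : 0 ≤ C)
    (hA : ∀ n : ℕ, 2 ≤ n → ∑ p ∈ PT n, Real.log p / p ≤ Real.log n / 2 + C)
    (T : ℕ) (hT : 3 ≤ T) (K : ℕ) (hK : 1 ≤ K) :
    ∑ p ∈ PT (T ^ (K + 1)) \ PT (T ^ K), 1 / (p : ℝ) ^ (1 + 1 / Real.log T) ≤
      (1 + C) * Real.exp (-(K : ℝ)) := by
  have hL := one_le_logT hT
  set L := Real.log T with hLdef
  have hK' : (1 : ℝ) ≤ K := by exact_mod_cast hK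
  have hKL : 1 ≤ (K : ℝ) * L := by nlinarith
  have hT2 : 2 ≤ T ^ (K + 1) := by
    calc 2 ≤ T := by omega
      _ = T ^ 1 := (pow_one T).symm
      _ ≤ T ^ (K + 1) := Nat.pow_le_pow_right (by omega) (by omega)
  have h1 : ∀ p ∈ PT (T ^ (K + 1)) \ PT (T ^ K), 1 / (p : ℝ) ^ (1 + 1 / L) ≤
      Real.exp (-(K : ℝ)) / (K * L) * (Real.log p / p) := by
    intro p hp
    rw [mem_sdiff] at hp
    obtain ⟨hp1, hp2⟩ := hp
    have hp5 := PT_five hp1
    rw [mem_PT] at hp1 hp2
    have hlt : T ^ K < p := by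
      by_contra hc
      exact hp2 ⟨by omega, hp1.2⟩
    have hp0 : (0 : ℝ) < p := by exact_mod_cast (by omega : 0 < p)
    have hlog : (K : ℝ) * L ≤ Real.log p := by
      rw [hLdef, ← Real.log_pow]
      apply Real.log_le_log
      · have : (0 : ℝ) < T := by exact_mod_cast (by omega : 0 < T)
        positivity
      · exact_mod_cast hlt.le
    have e1 : (p : ℝ) ^ (1 + 1 / L) = p * Real.exp (Real.log p / L) := by
      rw [Real.rpow_add hp0, Real.rpow_one, Real.rpow_def_of_pos hp0]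
      congr 2
      ring
    have h2 : (K : ℝ) ≤ Real.log p / L := by
      rw [le_div_iff₀ (by linarith)]
      exact hlog
    have h3 : Real.exp (K : ℝ) ≤ Real.exp (Real.log p / L) := Real.exp_le_exp.mpr h2
    have h4 : 1 / (p * Real.exp (Real.log p / L)) ≤ 1 / (p * Real.exp (K : ℝ)) := by
      apply one_div_le_one_div_of_le
      · positivity
      · exact mul_le_mul_of_nonneg_left h3 hp0.le
    rw [e1]
    refine h4.trans ?_
    have h5 : 1 / ((p : ℝ) * Real.exp (K : ℝ)) = Real.exp (-(K : ℝ)) / p := by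
      rw [Real.exp_neg]
      field_simp
    have h6 : Real.exp (-(K : ℝ)) / (K * L) * (Real.log p / p) =
        Real.exp (-(K : ℝ)) / p * (Real.log p / (K * L)) := by
      field_simp
    rw [h5, h6]
    apply le_mul_of_one_le_right (by positivity)
    rw [one_le_div (by linarith)]
    exact hlog
  calc ∑ p ∈ PT (T ^ (K + 1)) \ PT (T ^ K), 1 / (p : ℝ) ^ (1 + 1 / L)
      ≤ ∑ p ∈ PT (T ^ (K + 1)) \ PT (T ^ K),
          Real.exp (-(K : ℝ)) / (K * L) * (Real.log p / p) := sum_le_sum h1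
    _ ≤ ∑ p ∈ PT (T ^ (K + 1)), Real.exp (-(K : ℝ)) / (K * L) * (Real.log p / p) := by
        apply sum_le_sum_of_subset_of_nonneg sdiff_subset
        intro p hp _
        have hp5 := PT_five hp
        have hp0 : (1 : ℝ) ≤ p := by exact_mod_cast (by omega : 1 ≤ p)
        have := Real.log_nonneg hp0
        positivity
    _ = Real.exp (-(K : ℝ)) / (K * L) * ∑ p ∈ PT (T ^ (K + 1)), (Real.log p / p) := by
        rw [mul_sum]
    _ ≤ Real.exp (-(K : ℝ)) / (K * L) * (((K : ℝ) + 1) * L / 2 + C) := by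
        apply mul_le_mul_of_nonneg_left _ (by positivity)
        have h7 := hA _ hT2
        have h8 : Real.log ((T ^ (K + 1) : ℕ) : ℝ) = ((K : ℝ) + 1) * L := by
          push_cast
          rw [Real.log_pow]
          push_cast
          rfl
        rw [h8] at h7
        exact h7
    _ ≤ (1 + C) * Real.exp (-(K : ℝ)) := by
        have h9 : Real.exp (-(K : ℝ)) / (K * L) * (((K : ℝ) + 1) * L / 2 + C) =
          Real.exp (-(K : ℝ)) * ((((K : ℝ) + 1) * L / 2 + C) / (K * L)) := by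
          field_simp
        rw [h9, mul_comm (1 + C)]
        apply mul_le_mul_of_nonneg_left _ (Real.exp_pos _).le
        rw [div_le_iff₀ (by linarith)]
        nlinarith [mul_nonneg hC0 (by linarith : (0 : ℝ) ≤ (K : ℝ) * L - 1)]

theorem blocks (C : ℝ) (hC0 : 0 ≤ C)
    (hA : ∀ n : ℕ, 2 ≤ n → ∑ p ∈ PT n, Real.log p / p ≤ Real.log n / 2 + C)
    (T : ℕ) (hT : 3 ≤ T) (K : ℕ) :
    ∑ p ∈ PT (T ^ (K + 1)) \ PT T, 1 / (p : ℝ) ^ (1 + 1 / Real.log T) ≤
      (1 + C) * (1 - Real.exp (-(K : ℝ))) := by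
  induction K with
  | zero => simp
  | succ K ih =>
    have hsub : T ≤ T ^ (K + 1) := by
      calc T = T ^ 1 := (pow_one T).symm
        _ ≤ T ^ (K + 1) := Nat.pow_le_pow_right (by omega) (by omega)
    have hsub2 : T ^ (K + 1) ≤ T ^ (K + 1 + 1) := Nat.pow_le_pow_right (by omega) (by omega)
    have hun : PT (T ^ (K + 1 + 1)) \ PT T =
        (PT (T ^ (K + 1)) \ PT T) ∪ (PT (T ^ (K + 1 + 1)) \ PT (T ^ (K + 1))) := by
      ext p
      simp only [mem_sdiff, mem_union]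
      constructor
      · rintro ⟨h1, h2⟩
        by_cases h3 : p ∈ PT (T ^ (K + 1))
        · exact Or.inl ⟨h3, h2⟩
        · exact Or.inr ⟨h1, h3⟩
      · rintro (⟨h1, h2⟩ | ⟨h1, h2⟩)
        · exact ⟨PT_mono hsub2 h1, h2⟩
        · exact ⟨h1, fun h3 => h2 (PT_mono hsub h3)⟩
    have hdis : Disjoint (PT (T ^ (K + 1)) \ PT T) (PT (T ^ (K + 1 + 1)) \ PT (T ^ (K + 1))) := by
      rw [disjoint_left]
      intro p hp hp'
      rw [mem_sdiff] at hp hp'
      exact hp'.2 hp.1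
    rw [hun, sum_union hdis]
    have hb := block C hC0 hA T hT (K + 1) (by omega)
    have he : Real.exp (-((K + 1 : ℕ) : ℝ)) * 2 ≤ Real.exp (-(K : ℝ)) := by
      have : Real.exp (-(K : ℝ)) = Real.exp (-((K + 1 : ℕ) : ℝ)) * Real.exp 1 := by
        rw [← Real.exp_add]
        congr 1
        push_cast
        ring
      rw [this]
      apply mul_le_mul_of_nonneg_left _ (Real.exp_pos _).le
      have := Real.exp_one_gt_d9
      linarith
    have h1C : 0 ≤ 1 + C := by linarith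
    nlinarith [mul_nonneg h1C (by linarith : (0 : ℝ) ≤ Real.exp (-(K : ℝ)) -
      Real.exp (-((K + 1 : ℕ) : ℝ)) * 2)]

end ZSm

open ZSm

/-- For `|f| ≤ 1`: `|∑_(p ≤ T, p = 1 (4)) f p / p - ∑'_(p = 1 (4)) f p / p^(1 + 1/log T)| ≤ C`. For `p ≤ T`:
`0 ≤ 1 - p^(-1/log T) ≤ log p / log T`, and `∑_(p ≤ T) log p / p ≤ C log T` (`mertens_log`, mr/MertensA). For `p > T`:
`∑_(T^(2^i) < p ≤ T^(2^(i+1))) 1/p ≤ C` (`mertens`, mr/MertensB: `log log` differences are `log 2`), and
`p^(-1/log T) ≤ exp(-2^i)` there; sum over `i`. The series converges absolutely. -/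
theorem smooth_cut : ∃ C : ℝ, ∀ T : ℕ, 3 ≤ T → ∀ f : ℕ → ℝ, (∀ p, |f p| ≤ 1) →
    Summable (fun p : ℕ => if p.Prime ∧ p % 4 = 1 then f p / (p : ℝ) ^ (1 + 1 / Real.log T) else 0) ∧
    |∑ p ∈ PT T, f p / p -
      ∑' p : ℕ, (if p.Prime ∧ p % 4 = 1 then f p / (p : ℝ) ^ (1 + 1 / Real.log T) else 0)| ≤ C := by
  obtain ⟨C, hC⟩ := Pool.Agent.GaussMR.mertens_log
  have hC0 : 0 ≤ C := (abs_nonneg _).trans (hC 2 le_rfl)
  have hA : ∀ n : ℕ, 2 ≤ n → ∑ p ∈ PT n, Real.log p / p ≤ Real.log n / 2 + C := by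
    intro n hn
    have h1 := hC n (by exact_mod_cast hn)
    rw [← PT_eq, abs_le] at h1
    linarith [h1.2]
  refine ⟨(1 / 2 + C) + (1 + C), fun T hT f hf => ?_⟩
  have hL := ZSm.one_le_logT hT
  set L := Real.log T with hLdef
  have hδ : 0 < 1 / L := by positivity
  have hsum : Summable (fun p : ℕ => if p.Prime ∧ p % 4 = 1 then f p / (p : ℝ) ^ (1 + 1 / L)
      else 0) := by
    have h1 : Summable (fun p : ℕ => 1 / (p : ℝ) ^ (1 + 1 / L)) :=
      Real.summable_one_div_nat_rpow.mpr (by linarith)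
    refine Summable.of_norm_bounded h1 (fun p => ?_)
    split_ifs
    · rw [norm_div, Real.norm_eq_abs, Real.norm_of_nonneg (by positivity)]
      exact div_le_div_of_nonneg_right (hf p) (by positivity)
    · rw [norm_zero]
      positivity
  refine ⟨hsum, ?_⟩
  set a : ℕ → ℝ := fun p : ℕ => if p.Prime ∧ p % 4 = 1 then f p / (p : ℝ) ^ (1 + 1 / L) else 0
    with ha
  have haPT : ∀ n : ℕ, ∑ p ∈ range (n + 1), a p = ∑ p ∈ PT n, f p / (p : ℝ) ^ (1 + 1 / L) := by
    intro n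
    rw [PT, sum_filter]
  -- first part
  have hfirst : |∑ p ∈ PT T, f p / p - ∑ p ∈ PT T, f p / (p : ℝ) ^ (1 + 1 / L)| ≤ 1 / 2 + C := by
    rw [← sum_sub_distrib]
    calc |∑ p ∈ PT T, (f p / p - f p / (p : ℝ) ^ (1 + 1 / L))|
        ≤ ∑ p ∈ PT T, |f p / p - f p / (p : ℝ) ^ (1 + 1 / L)| := abs_sum_le_sum_abs _ _
      _ ≤ ∑ p ∈ PT T, (1 / L) * (Real.log p / p) := by
          apply sum_le_sum
          intro p hp
          have hp5 := PT_five hp
          have hp0 : (0 : ℝ) < p := by exact_mod_cast (by omega : 0 < p)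
          have hp1 : (1 : ℝ) ≤ p := by exact_mod_cast (by omega : 1 ≤ p)
          have hlog := Real.log_nonneg hp1
          have e1 : (p : ℝ) ^ (1 + 1 / L) = p * Real.exp (Real.log p / L) := by
            rw [Real.rpow_add hp0, Real.rpow_one, Real.rpow_def_of_pos hp0]
            congr 2
            ring
          have e2 : f p / p - f p / (p : ℝ) ^ (1 + 1 / L) =
              f p * ((1 - Real.exp (-(Real.log p / L))) / p) := by
            rw [e1, Real.exp_neg]
            field_simp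
          have h1 : 1 - Real.log p / L ≤ Real.exp (-(Real.log p / L)) := by
            have := Real.add_one_le_exp (-(Real.log p / L))
            linarith
          have h2 : Real.exp (-(Real.log p / L)) ≤ 1 := by
            rw [Real.exp_le_one_iff]
            have : 0 ≤ Real.log p / L := by positivity
            linarith
          rw [e2, abs_mul, abs_of_nonneg (div_nonneg (by linarith) hp0.le)]
          calc |f p| * ((1 - Real.exp (-(Real.log p / L))) / p)
              ≤ 1 * ((Real.log p / L) / p) := by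
                apply mul_le_mul (hf p) _ (div_nonneg (by linarith) hp0.le) zero_le_one
                exact div_le_div_of_nonneg_right (by linarith) hp0.le
            _ = (1 / L) * (Real.log p / p) := by ring
      _ = (1 / L) * ∑ p ∈ PT T, Real.log p / p := by rw [mul_sum]
      _ ≤ (1 / L) * (L / 2 + C) :=
          mul_le_mul_of_nonneg_left (hA T (by omega)) (by positivity)
      _ = 1 / 2 + C / L := by
          have : L ≠ 0 := by linarith
          field_simp
      _ ≤ 1 / 2 + C := by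
          have : C / L ≤ C := div_le_self hC0 hL
          linarith
  -- second part
  have hsecond : |∑ p ∈ PT T, f p / (p : ℝ) ^ (1 + 1 / L) - ∑' p : ℕ, a p| ≤ 1 + C := by
    have hT1 : Filter.Tendsto (fun K : ℕ => T ^ (K + 1) + 1) Filter.atTop Filter.atTop := by
      apply Filter.tendsto_atTop_mono (f := fun K : ℕ => K)
      · intro K
        have : K < T ^ K := Nat.lt_pow_self (by omega)
        have : T ^ K ≤ T ^ (K + 1) := Nat.pow_le_pow_right (by omega) (by omega)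
        omega
      · exact Filter.tendsto_id
    have hlim := (hsum.hasSum.tendsto_sum_nat.comp hT1)
    have hlim2 := (hlim.const_sub (∑ p ∈ PT T, f p / (p : ℝ) ^ (1 + 1 / L))).abs
    refine le_of_tendsto hlim2 (Filter.Eventually.of_forall fun K => ?_)
    simp only [Function.comp_apply]
    rw [haPT]
    have hsub : PT T ⊆ PT (T ^ (K + 1)) := PT_mono (by
      calc T = T ^ 1 := (pow_one T).symm
        _ ≤ T ^ (K + 1) := Nat.pow_le_pow_right (by omega) (by omega))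
    rw [← sum_sdiff hsub, sub_add_cancel_right, abs_neg]
    calc |∑ p ∈ PT (T ^ (K + 1)) \ PT T, f p / (p : ℝ) ^ (1 + 1 / L)|
        ≤ ∑ p ∈ PT (T ^ (K + 1)) \ PT T, |f p / (p : ℝ) ^ (1 + 1 / L)| := abs_sum_le_sum_abs _ _
      _ ≤ ∑ p ∈ PT (T ^ (K + 1)) \ PT T, 1 / (p : ℝ) ^ (1 + 1 / L) := by
          apply sum_le_sum
          intro p _
          rw [abs_div, abs_of_nonneg (by positivity : (0 : ℝ) ≤ (p : ℝ) ^ (1 + 1 / L))]
          exact div_le_div_of_nonneg_right (hf p) (by positivity)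
      _ ≤ (1 + C) * (1 - Real.exp (-(K : ℝ))) := ZSm.blocks C hC0 hA T hT K
      _ ≤ 1 + C := by
          have := Real.exp_pos (-(K : ℝ))
          nlinarith
  calc |∑ p ∈ PT T, f p / p - ∑' p : ℕ, a p|
      ≤ |∑ p ∈ PT T, f p / p - ∑ p ∈ PT T, f p / (p : ℝ) ^ (1 + 1 / L)| +
        |∑ p ∈ PT T, f p / (p : ℝ) ^ (1 + 1 / L) - ∑' p : ℕ, a p| := abs_sub_le _ _ _
    _ ≤ _ := add_le_add hfirst hsecond

/-- `0 < 2 Ap p ≤ 4 / p` and `4 / p - 2 Ap p ≤ 12 / p^2` -/
theorem Ap_bound (p : ℕ) (hp : 5 ≤ p) : 0 < Ap p ∧ 2 * Ap p ≤ 4 / p ∧ 4 / (p : ℝ) - 2 * Ap p ≤ 12 / (p : ℝ) ^ 2 := by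
  have hp5 : (5 : ℝ) ≤ p := by exact_mod_cast hp
  have hp0 : (0 : ℝ) < p := by linarith
  refine ⟨?_, ?_, ?_⟩
  · unfold Ap
    have : (0 : ℝ) < (p : ℝ) - 1 := by linarith
    positivity
  · unfold Ap
    have h1 : 2 * (2 * ((p : ℝ) - 1) ^ 2 / ((p : ℝ) ^ 2 * (p + 1))) =
      (4 * ((p : ℝ) - 1) ^ 2) / ((p : ℝ) ^ 2 * (p + 1)) := by ring
    rw [h1, div_le_div_iff₀ (by positivity) hp0]
    nlinarith [mul_pos hp0 hp0, mul_pos (mul_pos hp0 hp0) hp0]
  · unfold Ap
    have h1 : 4 / (p : ℝ) - 2 * (2 * ((p : ℝ) - 1) ^ 2 / ((p : ℝ) ^ 2 * (p + 1))) =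
      (4 * (3 * (p : ℝ) - 1)) / ((p : ℝ) ^ 2 * (p + 1)) := by
      field_simp
      ring
    rw [h1, div_le_div_iff₀ (by positivity) (by positivity)]
    nlinarith [mul_pos hp0 hp0]

/-- `|muT T - 2 log log T| ≤ C`: `mertens`, and `|2 Ap p - 4 / p| ≤ 12 / p^2` (`Ap p = (2/p) (1 - 1/p)^2 / (1 + 1/p)`). -/
theorem mu_bound : ∃ C : ℝ, ∀ T : ℕ, 3 ≤ T → |muT T - 2 * Real.log (Real.log T)| ≤ C := by
  obtain ⟨C, hC⟩ := Pool.Agent.GaussMR.mertens
  have hs : Summable (fun p : ℕ => 12 / (p : ℝ) ^ 2) := by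
    have := (Real.summable_one_div_nat_pow (p := 2)).mpr (by norm_num)
    refine (this.mul_left 12).congr (fun p => ?_)
    ring
  refine ⟨4 * C + ∑' p : ℕ, 12 / (p : ℝ) ^ 2, fun T hT => ?_⟩
  have h1 := hC T (by exact_mod_cast (by omega : 2 ≤ T))
  rw [← PT_eq] at h1
  have h2 : |muT T - 4 * ∑ p ∈ PT T, (1 : ℝ) / p| ≤ ∑' p : ℕ, 12 / (p : ℝ) ^ 2 := by
    unfold muT
    rw [mul_sum, ← sum_sub_distrib]
    calc |∑ p ∈ PT T, (2 * Ap p - 4 * (1 / (p : ℝ)))|
        ≤ ∑ p ∈ PT T, |2 * Ap p - 4 * (1 / (p : ℝ))| := abs_sum_le_sum_abs _ _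
      _ ≤ ∑ p ∈ PT T, 12 / (p : ℝ) ^ 2 := by
          apply sum_le_sum
          intro p hp
          obtain ⟨-, h4, h5⟩ := Ap_bound p (PT_five hp)
          have h6 : 4 * (1 / (p : ℝ)) = 4 / p := by ring
          rw [h6, abs_le]
          constructor
          · linarith
          · have : 0 ≤ 12 / (p : ℝ) ^ 2 := by positivity
            linarith
      _ ≤ ∑' p : ℕ, 12 / (p : ℝ) ^ 2 := hs.sum_le_tsum _ (fun p _ => by positivity)
  rw [abs_le] at h1 h2 ⊢
  constructor <;> linarith [h1.1, h1.2, h2.1, h2.2]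

end Pool.Agent.OmAll

end

/-! ### from `Lib_MP_f1a94e_mr.PairsA` -/

section

/-!
# Piece PAIRSA: number of `(z, z')` with `u z`, `u' z'` in the same direction
-/

set_option autoImplicit false

namespace Pool.Agent.GaussMR

theorem pr_nat_mul (n : ℕ) (hn : 0 < n) (z : G) : pr ((n : G) * z) = pr z := by
  have h1 : ((n : G) * z).re = n * z.re := by simp
  have h2 : ((n : G) * z).im = n * z.im := by simp
  have hn' : (0 : ℤ) < n := by exact_mod_cast hn
  have hg : ((Int.gcd ((n : ℤ) * z.re) ((n : ℤ) * z.im) : ℕ) : ℤ) = n * (Int.gcd z.re z.im : ℤ) := by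
    rw [Int.gcd_mul_left]
    simp
  unfold pr
  rw [h1, h2, hg]
  rw [Int.mul_ediv_mul_of_pos _ _ hn', Int.mul_ediv_mul_of_pos _ _ hn']

theorem mul_star_self (z : G) : z * star z = ((nm z : ℕ) : G) := by
  apply Zsqrtd.ext
  · have := nm_eq z
    simp only [Zsqrtd.re_mul, Zsqrtd.re_star, Zsqrtd.im_star, Zsqrtd.re_natCast]
    rw [this]
    ring
  · simp only [Zsqrtd.im_mul, Zsqrtd.re_star, Zsqrtd.im_star, Zsqrtd.im_natCast]
    ring

theorem nm_natCast_pairsa (n : ℕ) : nm (n : G) = n ^ 2 := by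
  have h : (nm (n : G) : ℤ) = (n : ℤ) ^ 2 := by
    rw [nm_eq]
    simp
  exact_mod_cast h

theorem prime_of_nm {d : G} {p : ℕ} (hp : p.Prime) (h : nm d = p) : Prime d := by
  have hirr : Irreducible d := by
    constructor
    · intro hu
      rw [← nm_eq_one_iff, h] at hu
      exact hp.one_lt.ne' hu
    · intro x y hxy
      rw [hxy, nm_mul] at h
      rcases (Nat.prime_mul_iff.mp (h ▸ hp)) with h1 | h1
      · right
        exact nm_eq_one_iff.mp h1.2
      · left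
        exact nm_eq_one_iff.mp h1.2
  exact hirr.prime

/-- the product of a primitive number and the conjugate of a coprime primitive number is primitive -/
theorem prim_mul_star {a b : G} (ha : Prim a) (hb : Prim b) (hab : IsCoprime a b) :
    Prim (a * star b) := by
  have ha' := prim_iff.mp ha
  have hb' := prim_iff.mp (prim_star.mpr hb)
  have hab' := prim_iff.mp hb
  rw [prim_iff]
  intro n hn
  by_contra hn1
  obtain ⟨p, hp, hpn⟩ := Nat.exists_prime_and_dvd hn1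
  have hpn' : (p : G) ∣ (n : G) := by
    obtain ⟨c, rfl⟩ := hpn
    exact ⟨(c : G), by push_cast; ring⟩
  have hpd : (p : G) ∣ a * star b := hpn'.trans hn
  have hp1 := hp.one_lt.ne'
  have hp0 : (p : G) ≠ 0 := by
    intro h0
    have : nm (p : G) = 0 := by rw [h0, nm_zero]
    rw [nm_natCast_pairsa] at this
    have := hp.pos
    nlinarith
  set δ := EuclideanDomain.gcd a (p : G) with hδ
  have hδa : δ ∣ a := EuclideanDomain.gcd_dvd_left _ _
  have hδp : δ ∣ (p : G) := EuclideanDomain.gcd_dvd_right _ _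
  have hnm : nm δ ∣ p ^ 2 := by
    have := nm_dvd hδp
    rwa [nm_natCast_pairsa] at this
  obtain ⟨k, hk, hk2⟩ := (Nat.dvd_prime_pow hp).mp hnm
  interval_cases k
  · -- unit
    rw [pow_zero] at hk2
    have hu : IsUnit δ := nm_eq_one_iff.mp hk2
    have hcop : IsCoprime (p : G) a := (EuclideanDomain.gcd_isUnit_iff.mp hu).symm
    exact hp1 (hb' p (hcop.dvd_of_dvd_mul_left hpd))
  · rw [pow_one] at hk2
    have hprime : Prime δ := prime_of_nm hp hk2
    have hprime' : Prime (star δ) := prime_of_nm hp (by rw [nm_star]; exact hk2)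
    have hpp : (p : G) = δ * star δ := by rw [mul_star_self, hk2]
    obtain ⟨a1, ha1⟩ := hδa
    have hδ0 : δ ≠ 0 := hprime.ne_zero
    have h1 : star δ ∣ a1 * star b := by
      have h2 : δ * star δ ∣ δ * (a1 * star b) := by
        rw [← hpp, ← mul_assoc, ← ha1]
        exact hpd
      exact (mul_dvd_mul_iff_left hδ0).mp h2
    rcases hprime'.dvd_or_dvd h1 with h2 | h2
    · apply hp1
      apply ha' p
      rw [hpp, ha1]
      exact mul_dvd_mul_left _ h2
    · have h3 : δ ∣ b := by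
        obtain ⟨c, hc⟩ := h2
        refine ⟨star c, ?_⟩
        have := congrArg star hc
        rw [star_star, star_mul, star_star] at this
        rw [this, mul_comm]
      have h4 : IsUnit δ := hab.isUnit_of_dvd' ⟨a1, ha1⟩ h3
      exact hprime.not_isUnit h4
  · obtain ⟨c, hc⟩ := hδp
    have h1 : nm (p : G) = nm δ * nm c := by rw [hc, nm_mul]
    rw [nm_natCast_pairsa, hk2] at h1
    have h2 : nm c = 1 := by
      have : 0 < p ^ 2 := pow_pos hp.pos 2
      nlinarith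
    have h3 : IsUnit c := nm_eq_one_iff.mp h2
    apply hp1
    apply ha' p
    rw [hc]
    exact (h3.mul_right_dvd).mpr hδa

/-- the content of `ω z` is at most the norm of the gcd of `z` and `star ω` -/
theorem content_dvd {ω z : G} {c : ℕ} (hω : Prim ω) (hz : Prim z) (hc : (c : G) ∣ ω * z) :
    c ∣ nm (EuclideanDomain.gcd z (star ω)) := by
  have key : ∀ (n : ℕ) (y : G), Prim y → (c : G) ∣ (n : G) * y → c ∣ n := by
    intro n y hy hd
    have h1 : (((c : ℤ)) : G) ∣ (n : G) * y := by simpa using hd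
    rw [Zsqrtd.intCast_dvd] at h1
    have h2 : ((n : G) * y).re = n * y.re := by simp
    have h3 : ((n : G) * y).im = n * y.im := by simp
    rw [h2, h3] at h1
    have h4 : (c : ℤ) ∣ (Int.gcd ((n : ℤ) * y.re) ((n : ℤ) * y.im) : ℕ) :=
      Int.dvd_coe_gcd h1.1 h1.2
    rw [Int.gcd_mul_left, Int.isCoprime_iff_gcd_eq_one.mp hy] at h4
    have h5 : c ∣ (n : ℤ).natAbs * 1 := by exact_mod_cast h4
    simpa using h5
  have h1 : c ∣ nm ω := by
    apply key (nm ω) z hz
    rw [← mul_star_self, mul_comm ω (star ω), mul_assoc]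
    exact hc.mul_left _
  set h := EuclideanDomain.gcd z (star ω) with hh
  have hbez := EuclideanDomain.gcd_eq_gcd_ab z (star ω)
  rw [← hh] at hbez
  have h2 : (c : G) ∣ ω * h := by
    rw [hbez, mul_add]
    apply dvd_add
    · rw [← mul_assoc]
      exact hc.mul_right _
    · rw [← mul_assoc, mul_star_self]
      apply Dvd.dvd.mul_right
      obtain ⟨k, hk⟩ := h1
      exact ⟨(k : G), by rw [hk]; push_cast; ring⟩
  have h3 : h ∣ star ω := EuclideanDomain.gcd_dvd_right _ _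
  obtain ⟨k, hk⟩ := h3
  have h4 : ω = star h * star k := by
    have := congrArg star hk
    rw [star_star, star_mul, mul_comm] at this
    exact this
  have h5 : Prim (star k) := by
    rw [h4] at hω
    exact (prim_of_mul hω).2
  apply key (nm h) (star k) h5
  rw [← mul_star_self]
  have : h * star h * star k = ω * h := by
    rw [h4]
    ring
  rw [this]
  exact h2

theorem pairsA (l : ℕ) : ∃ C : ℝ, 0 < C ∧ ∀ (P Q X : ℝ) (x y : Fin l → G), (∀ i, x i ∈ PP P Q) →
    (∀ i, y i ∈ PP P Q) → 0 ≤ X →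
    (Set.ncard {p : G × G | p.1 ∈ V X ∧ p.2 ∈ V X ∧
      pr ((∏ i, x i) * p.1) = pr ((∏ i, y i) * p.2)} : ℝ) ≤
      C * X * (nm (EuclideanDomain.gcd (∏ i, x i) (∏ i, y i)) : ℝ) /
        Real.sqrt (nm (∏ i, x i) * nm (∏ i, y i) : ℝ) := by
  classical
  refine ⟨9 * 2 ^ (l + l), by positivity, ?_⟩
  intro P Q X x y hx hy hX
  set u := ∏ i, x i with hu
  set u' := ∏ i, y i with hu'
  obtain ⟨hup, huo⟩ := prim_prod x hx
  obtain ⟨hup', huo'⟩ := prim_prod y hy
  rw [← hu] at hup huo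
  rw [← hu'] at hup' huo'
  have hu0 : u ≠ 0 := ne_zero_of_odd huo
  have hu0' : u' ≠ 0 := ne_zero_of_odd huo'
  set g := EuclideanDomain.gcd u u' with hg
  obtain ⟨a, ha⟩ : g ∣ u := EuclideanDomain.gcd_dvd_left _ _
  obtain ⟨b, hb⟩ : g ∣ u' := EuclideanDomain.gcd_dvd_right _ _
  have hg0 : g ≠ 0 := by
    intro h0
    rw [h0, zero_mul] at ha
    exact hu0 ha
  have hap : Prim a := by
    rw [ha] at hup
    exact (prim_of_mul hup).2
  have hbp : Prim b := by
    rw [hb] at hup'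
    exact (prim_of_mul hup').2
  have hcop : IsCoprime a b := by
    have hbez := EuclideanDomain.gcd_eq_gcd_ab u u'
    rw [← hg] at hbez
    refine ⟨EuclideanDomain.gcdA u u', EuclideanDomain.gcdB u u', ?_⟩
    have h1 : g * 1 = g * (EuclideanDomain.gcdA u u' * a + EuclideanDomain.gcdB u u' * b) := by
      rw [mul_one]
      calc g = u * EuclideanDomain.gcdA u u' + u' * EuclideanDomain.gcdB u u' := hbez
        _ = (g * a) * EuclideanDomain.gcdA u u' + (g * b) * EuclideanDomain.gcdB u u' := by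
            rw [← ha, ← hb]
        _ = _ := by ring
    exact (mul_left_cancel₀ hg0 h1).symm
  set ω := a * star b with hω
  have hωp : Prim ω := prim_mul_star hap hbp hcop
  have ha0 : a ≠ 0 := by
    rintro rfl
    rw [mul_zero] at ha
    exact hu0 ha
  have hb0 : b ≠ 0 := by
    rintro rfl
    rw [mul_zero] at hb
    exact hu0' hb
  have hω0 : ω ≠ 0 := mul_ne_zero ha0 (star_ne_zero' hb0)
  have hωpos : 0 < nm ω := nm_pos hω0
  -- the structure of the pairs
  have hstruct : ∀ p : G × G, p.1 ∈ V X → p.2 ∈ V X → pr (u * p.1) = pr (u' * p.2) →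
      ∃ c : ℕ, 0 < c ∧ ω * p.1 = (c : G) * p.2 := by
    intro p hp1 hp2 hpr
    have h10 := V_ne_zero hp1
    have h20 := V_ne_zero hp2
    obtain ⟨e1, e2, e3⟩ := pr_spec (u * p.1) (mul_ne_zero hu0 h10)
    obtain ⟨f1, f2, f3⟩ := pr_spec (u' * p.2) (mul_ne_zero hu0' h20)
    set m := Int.gcd (u * p.1).re (u * p.1).im with hm
    set m' := Int.gcd (u' * p.2).re (u' * p.2).im with hm'
    -- m' * u * z = m * u' * z'
    have h1 : (m' : G) * (u * p.1) = (m : G) * (u' * p.2) := by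
      rw [e1, f1, hpr]
      ring
    have h2 : (m' : G) * (a * p.1) = (m : G) * (b * p.2) := by
      apply mul_left_cancel₀ hg0
      calc g * ((m' : G) * (a * p.1)) = (m' : G) * ((g * a) * p.1) := by ring
        _ = (m : G) * ((g * b) * p.2) := by rw [← ha, ← hb]; exact h1
        _ = g * ((m : G) * (b * p.2)) := by ring
    have h3 : (m' : G) * (ω * p.1) = ((m * nm b : ℕ) : G) * p.2 := by
      calc (m' : G) * (ω * p.1) = star b * ((m' : G) * (a * p.1)) := by rw [hω]; ring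
        _ = star b * ((m : G) * (b * p.2)) := by rw [h2]
        _ = (m : G) * (b * star b) * p.2 := by ring
        _ = ((m * nm b : ℕ) : G) * p.2 := by rw [mul_star_self]; push_cast; ring
    have h4 : pr (ω * p.1) = p.2 := by
      rw [← pr_nat_mul m' f2, h3, pr_nat_mul (m * nm b) (Nat.mul_pos e2 (nm_pos hb0)),
        pr_eq_self _ (mem_V.mp hp2).2.2]
    obtain ⟨g1, g2, g3⟩ := pr_spec (ω * p.1) (mul_ne_zero hω0 h10)
    rw [h4] at g1
    exact ⟨_, g2, g1⟩
  -- the prime factors of star ω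
  let q : Fin l ⊕ Fin l → G := Sum.elim (fun i => star (x i)) y
  have hq : ∀ j ∈ (Finset.univ : Finset (Fin l ⊕ Fin l)), Prime (q j) := by
    rintro (i | i) _
    · exact (PP_spl (hx i)).conj.prime
    · exact (PP_spl (hy i)).prime
  have hprod : ∏ j, q j = star u * u' := by
    rw [Fintype.prod_sum_type]
    simp only [q, Sum.elim_inl, Sum.elim_inr]
    rw [hu, hu', star_prod]
  have hωdvd : star ω ∣ ∏ j, q j := by
    rw [hprod, hω, ha, hb, star_mul, star_mul, star_star]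
    exact ⟨star g * g, by ring⟩
  set t : ℝ := X / Real.sqrt (nm ω) with ht
  have hsq0 : 0 < Real.sqrt (nm ω) := Real.sqrt_pos.mpr (by exact_mod_cast hωpos)
  have ht0 : 0 ≤ t := div_nonneg hX hsq0.le
  set B := (ball t).filter (fun z => z ≠ 0) with hB
  -- the first coordinates
  have hfirst : ∀ p : G × G, p.1 ∈ V X → p.2 ∈ V X → pr (u * p.1) = pr (u' * p.2) →
      ∃ A : Finset (Fin l ⊕ Fin l), ∃ z1 ∈ B, p.1 = (∏ j ∈ A, q j) * z1 := by
    intro p hp1 hp2 hpr
    obtain ⟨c, hc0, hc⟩ := hstruct p hp1 hp2 hpr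
    have h10 := V_ne_zero hp1
    have hprim := (mem_V.mp hp1).2.2
    have hcd := content_dvd hωp hprim (Dvd.intro _ hc.symm)
    set h := EuclideanDomain.gcd p.1 (star ω) with hh
    have hh1 : h ∣ p.1 := EuclideanDomain.gcd_dvd_left _ _
    have hh2 : h ∣ star ω := EuclideanDomain.gcd_dvd_right _ _
    have hh0 : h ≠ 0 := by
      intro h0
      rw [h0] at hh1
      exact h10 (zero_dvd_iff.mp hh1)
    obtain ⟨k, hk⟩ := hh2.trans hωdvd
    obtain ⟨A, A', e, e', hAA, hdis, hee, hhA, hkA⟩ :=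
      mul_eq_mul_prime_prod (x := h) (y := k) (a := 1) hq (by rw [one_mul]; exact hk.symm)
    have heu : IsUnit e := IsUnit.of_mul_eq_one _ hee.symm
    have hnm1 : nm (∏ j ∈ A, q j) = nm h := by
      rw [hhA, nm_mul, nm_eq_one_iff.mpr heu, one_mul]
    have hdvd : (∏ j ∈ A, q j) ∣ p.1 := by
      refine Dvd.dvd.trans ?_ hh1
      rw [hhA]
      exact dvd_mul_left _ _
    obtain ⟨z1, hz1⟩ := hdvd
    refine ⟨A, z1, ?_, hz1⟩
    have hz10 : z1 ≠ 0 := by
      rintro rfl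
      rw [mul_zero] at hz1
      exact h10 hz1
    rw [hB, Finset.mem_filter, mem_ball]
    refine ⟨?_, hz10⟩
    -- the estimate
    have hcle : c ≤ nm h := Nat.le_of_dvd (nm_pos hh0) hcd
    have hn1 : nm ω * nm p.1 = c ^ 2 * nm p.2 := by
      rw [← nm_mul, hc, nm_mul, nm_natCast_pairsa]
    have hn2 : (nm p.1 : ℝ) = nm h * nm z1 := by
      rw [hz1, nm_mul, hnm1]
      push_cast
      ring
    have hX1 : (nm p.1 : ℝ) ≤ X := (mem_V.mp hp1).1
    have hX2 : (nm p.2 : ℝ) ≤ X := (mem_V.mp hp2).1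
    have hn3 : (nm ω : ℝ) * nm p.1 ≤ (nm h : ℝ) ^ 2 * X := by
      have h1 : (nm ω : ℝ) * nm p.1 = (c : ℝ) ^ 2 * nm p.2 := by exact_mod_cast hn1
      rw [h1]
      have h2 : (c : ℝ) ≤ nm h := by exact_mod_cast hcle
      have h3 : (c : ℝ) ^ 2 ≤ (nm h : ℝ) ^ 2 := pow_le_pow_left₀ (by positivity) h2 2
      exact mul_le_mul h3 hX2 (by positivity) (by positivity)
    have hnh : (0 : ℝ) < nm h := by exact_mod_cast nm_pos hh0
    have hωr : (0 : ℝ) < nm ω := by exact_mod_cast hωpos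
    -- (nm z1)^2 nm ω ≤ X^2
    have hn4 : (nm z1 : ℝ) ^ 2 * nm ω ≤ X ^ 2 := by
      have h1 : (nm h : ℝ) ^ 2 * ((nm z1 : ℝ) ^ 2 * nm ω) ≤ (nm h : ℝ) ^ 2 * X ^ 2 := by
        calc (nm h : ℝ) ^ 2 * ((nm z1 : ℝ) ^ 2 * nm ω) = (nm ω * nm p.1) * nm p.1 := by
              rw [hn2]; ring
          _ ≤ ((nm h : ℝ) ^ 2 * X) * X :=
              mul_le_mul hn3 hX1 (by positivity) (by positivity)
          _ = (nm h : ℝ) ^ 2 * X ^ 2 := by ring
      exact le_of_mul_le_mul_left h1 (by positivity)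
    rw [ht, le_div_iff₀ hsq0]
    apply le_of_sq_le_sq _ hX
    rw [mul_pow, Real.sq_sqrt hωr.le]
    exact hn4
  -- counting
  set S := {p : G × G | p.1 ∈ V X ∧ p.2 ∈ V X ∧ pr (u * p.1) = pr (u' * p.2)} with hS
  set T : Finset G := ((Finset.univ : Finset (Finset (Fin l ⊕ Fin l))) ×ˢ B).image
    (fun r => (∏ j ∈ r.1, q j) * r.2) with hT
  have hmaps : Set.MapsTo (fun p : G × G => p.1) S (T : Set G) := by
    rintro p ⟨hp1, hp2, hpr⟩
    obtain ⟨A, z1, hz1, heq⟩ := hfirst p hp1 hp2 hpr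
    rw [hT, Finset.mem_coe, Finset.mem_image]
    exact ⟨(A, z1), Finset.mem_product.mpr ⟨Finset.mem_univ _, hz1⟩, heq.symm⟩
  have hinj : Set.InjOn (fun p : G × G => p.1) S := by
    rintro p ⟨hp1, hp2, hpr⟩ p' ⟨hp1', hp2', hpr'⟩ heq
    have heq' : p.1 = p'.1 := heq
    obtain ⟨c, hc0, hc⟩ := hstruct p hp1 hp2 hpr
    obtain ⟨c', hc0', hc'⟩ := hstruct p' hp1' hp2' hpr'
    have h1 : pr (ω * p.1) = p.2 := by
      rw [hc, pr_nat_mul c hc0, pr_eq_self _ (mem_V.mp hp2).2.2]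
    have h2 : pr (ω * p'.1) = p'.2 := by
      rw [hc', pr_nat_mul c' hc0', pr_eq_self _ (mem_V.mp hp2').2.2]
    have h3 : p.2 = p'.2 := by rw [← h1, ← h2, heq']
    exact Prod.ext heq' h3
  have hcard1 : Set.ncard S ≤ T.card := by
    have := Set.ncard_le_ncard_of_injOn (fun p : G × G => p.1) hmaps hinj (Finset.finite_toSet T)
    rwa [Set.ncard_coe_finset] at this
  have hcard2 : T.card ≤ 2 ^ (l + l) * B.card := by
    refine Finset.card_image_le.trans ?_
    rw [Finset.card_product, Finset.card_univ, Fintype.card_finset, Fintype.card_sum,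
      Fintype.card_fin]
  have hcard3 : (B.card : ℝ) ≤ 9 * t := card_ball_le t ht0
  have hfin : (Set.ncard S : ℝ) ≤ 2 ^ (l + l) * (9 * t) := by
    calc (Set.ncard S : ℝ) ≤ (T.card : ℝ) := by exact_mod_cast hcard1
      _ ≤ ((2 ^ (l + l) * B.card : ℕ) : ℝ) := by exact_mod_cast hcard2
      _ = 2 ^ (l + l) * (B.card : ℝ) := by push_cast; ring
      _ ≤ 2 ^ (l + l) * (9 * t) := mul_le_mul_of_nonneg_left hcard3 (by positivity)
  refine hfin.trans (le_of_eq ?_)
  have hgr : (0 : ℝ) < nm g := by exact_mod_cast nm_pos hg0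
  have hnn : (nm u * nm u' : ℝ) = (nm g : ℝ) ^ 2 * nm ω := by
    have h1 : nm u = nm g * nm a := by rw [ha, nm_mul]
    have h2 : nm u' = nm g * nm b := by rw [hb, nm_mul]
    have h3 : nm ω = nm a * nm b := by rw [hω, nm_mul, nm_star]
    rw [h1, h2, h3]
    push_cast
    ring
  rw [hnn, Real.sqrt_mul (by positivity), Real.sqrt_sq hgr.le, ht]
  field_simp

end Pool.Agent.GaussMR

end

/-! ### from `Lib_MP_f1a94e_mr.PairsU` -/

section

/-!
# Piece PAIRSU: second moment of the number of representations of a direction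
-/

set_option autoImplicit false

namespace Pool.Agent.GaussMR

theorem pu_nm_prod {l : ℕ} (x : Fin l → G) : nm (∏ i, x i) = ∏ i, nm (x i) := by
  induction l with
  | zero => simp
  | succ l ih =>
    rw [Fin.prod_univ_succ, Fin.prod_univ_succ, nm_mul, ih]

theorem pu_pow_le {l : ℕ} {W : Finset G} {Y : ℝ} (hY : 1 ≤ Y) (h : ∀ w ∈ W, Y < (nm w : ℝ))
    (x : Fin l → G) (hx : ∀ i, x i ∈ W) : Y ^ l ≤ (nm (∏ i, x i) : ℝ) := by
  rw [pu_nm_prod]
  push_cast
  have h1 : Y ^ l = ∏ _i : Fin l, Y := by simp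
  rw [h1]
  exact Finset.prod_le_prod (fun i _ => by linarith) (fun i _ => (h _ (hx i)).le)

/-- sum `pairsA` over `x, y ∈ W^l`, `√(nm ∏x nm ∏y) ≥ Y^l`, and use `pairsB` -/
theorem pairsU (l : ℕ) : ∃ C : ℝ, 0 < C ∧ ∀ (P Q Y X : ℝ) (W : Finset G), W ⊆ PP P Q → 1 ≤ Y →
    0 ≤ X → (∀ w ∈ W, Y < (nm w : ℝ) ∧ (nm w : ℝ) ≤ 3 * Y) →
    (Set.ncard {q : ((Fin l → G) × G) × ((Fin l → G) × G) |
      (∀ i, q.1.1 i ∈ W) ∧ q.1.2 ∈ V X ∧ (∀ i, q.2.1 i ∈ W) ∧ q.2.2 ∈ V X ∧
      pr ((∏ i, q.1.1 i) * q.1.2) = pr ((∏ i, q.2.1 i) * q.2.2)} : ℝ) ≤ C * Y ^ l * X := by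
  classical
  obtain ⟨C1, hC1, H1⟩ := pairsA l
  obtain ⟨C2, hC2, H2⟩ := pairsB l
  refine ⟨C1 * C2, by positivity, ?_⟩
  intro P Q Y X W hW hY hX h
  have I2 := H2 P Q Y W hW hY (fun w hw => (h w hw).2)
  set WW := Fintype.piFinset (fun _ : Fin l => W) with hWW
  have hset : {q : ((Fin l → G) × G) × ((Fin l → G) × G) |
      (∀ i, q.1.1 i ∈ W) ∧ q.1.2 ∈ V X ∧ (∀ i, q.2.1 i ∈ W) ∧ q.2.2 ∈ V X ∧
      pr ((∏ i, q.1.1 i) * q.1.2) = pr ((∏ i, q.2.1 i) * q.2.2)} =
      ((((WW ×ˢ V X) ×ˢ (WW ×ˢ V X)).filter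
        (fun q => pr ((∏ i, q.1.1 i) * q.1.2) = pr ((∏ i, q.2.1 i) * q.2.2)) :
        Finset (((Fin l → G) × G) × ((Fin l → G) × G))) :
        Set (((Fin l → G) × G) × ((Fin l → G) × G))) := by
    ext q
    simp only [Set.mem_ofPred_eq, Finset.coe_filter, Finset.mem_product, hWW,
      Fintype.mem_piFinset]
    tauto
  rw [hset, Set.ncard_coe_finset]
  have hin : ∀ x ∈ WW, ∀ y ∈ WW, (((V X ×ˢ V X).filter
      (fun p => pr ((∏ i, x i) * p.1) = pr ((∏ i, y i) * p.2))).card : ℝ) ≤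
      C1 * X / Y ^ l * (nm (EuclideanDomain.gcd (∏ i, x i) (∏ i, y i)) : ℝ) := by
    intro x hx y hy
    rw [hWW, Fintype.mem_piFinset] at hx hy
    have h1 := H1 P Q X x y (fun i => hW (hx i)) (fun i => hW (hy i)) hX
    have hs : {p : G × G | p.1 ∈ V X ∧ p.2 ∈ V X ∧
        pr ((∏ i, x i) * p.1) = pr ((∏ i, y i) * p.2)} =
        (((V X ×ˢ V X).filter
        (fun p => pr ((∏ i, x i) * p.1) = pr ((∏ i, y i) * p.2)) : Finset (G × G)) :
          Set (G × G)) := by
      ext p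
      simp only [Set.mem_ofPred_eq, Finset.coe_filter, Finset.mem_product]
      tauto
    rw [hs, Set.ncard_coe_finset] at h1
    refine h1.trans ?_
    have hYl : (0 : ℝ) < Y ^ l := by positivity
    have h2 : Y ^ l ≤ Real.sqrt (nm (∏ i, x i) * nm (∏ i, y i) : ℝ) := by
      apply Real.le_sqrt_of_sq_le
      rw [sq]
      exact mul_le_mul (pu_pow_le hY (fun w hw => (h w hw).1) x hx)
        (pu_pow_le hY (fun w hw => (h w hw).1) y hy) hYl.le (by positivity)
    have h3 : C1 * X / Y ^ l * (nm (EuclideanDomain.gcd (∏ i, x i) (∏ i, y i)) : ℝ) =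
        C1 * X * (nm (EuclideanDomain.gcd (∏ i, x i) (∏ i, y i)) : ℝ) / Y ^ l := by ring
    rw [h3]
    exact div_le_div_of_nonneg_left (by positivity) hYl h2
  have hcard : ((((WW ×ˢ V X) ×ˢ (WW ×ˢ V X)).filter
        (fun q => pr ((∏ i, q.1.1 i) * q.1.2) = pr ((∏ i, q.2.1 i) * q.2.2))).card : ℝ) =
      ∑ x ∈ WW, ∑ y ∈ WW, (((V X ×ˢ V X).filter
      (fun p => pr ((∏ i, x i) * p.1) = pr ((∏ i, y i) * p.2))).card : ℝ) := by
    simp only [Finset.card_filter, Finset.sum_product]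
    push_cast
    apply Finset.sum_congr rfl
    intro x _
    rw [Finset.sum_comm]
  rw [hcard]
  calc ∑ x ∈ WW, ∑ y ∈ WW, (((V X ×ˢ V X).filter
      (fun p => pr ((∏ i, x i) * p.1) = pr ((∏ i, y i) * p.2))).card : ℝ)
      ≤ ∑ x ∈ WW, ∑ y ∈ WW,
        C1 * X / Y ^ l * (nm (EuclideanDomain.gcd (∏ i, x i) (∏ i, y i)) : ℝ) :=
        Finset.sum_le_sum (fun x hx => Finset.sum_le_sum (fun y hy => hin x hx y hy))
    _ = C1 * X / Y ^ l * ∑ x ∈ WW, ∑ y ∈ WW,
        (nm (EuclideanDomain.gcd (∏ i, x i) (∏ i, y i)) : ℝ) := by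
        rw [Finset.mul_sum]
        apply Finset.sum_congr rfl
        intro x _
        rw [Finset.mul_sum]
    _ ≤ C1 * X / Y ^ l * (C2 * Y ^ (2 * l)) :=
        mul_le_mul_of_nonneg_left I2 (by positivity)
    _ = C1 * C2 * Y ^ l * X := by
        have hYl : (Y ^ l : ℝ) ≠ 0 := by positivity
        have e : Y ^ (2 * l) = Y ^ l * Y ^ l := by rw [two_mul, pow_add]
        rw [e]
        field_simp

end Pool.Agent.GaussMR

end

/-! ### from `Lib_MP_f1a94e_mu.PairsX` -/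

section

/-!
# Piece PAIRSX: `pairsU` with an explicit constant
-/

set_option autoImplicit false

namespace Pool.Agent.GaussMR

/-- `pairsA` with the constant `9 * 2 ^ (l + l)` -/
theorem pairsAX (l : ℕ) (P Q X : ℝ) (x y : Fin l → G) (hx : ∀ i, x i ∈ PP P Q)
    (hy : ∀ i, y i ∈ PP P Q) (hX : 0 ≤ X) :
    (Set.ncard {p : G × G | p.1 ∈ V X ∧ p.2 ∈ V X ∧
      pr ((∏ i, x i) * p.1) = pr ((∏ i, y i) * p.2)} : ℝ) ≤
      (9 * 2 ^ (l + l)) * X * (nm (EuclideanDomain.gcd (∏ i, x i) (∏ i, y i)) : ℝ) /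
        Real.sqrt (nm (∏ i, x i) * nm (∏ i, y i) : ℝ) := by
  classical
  set u := ∏ i, x i with hu
  set u' := ∏ i, y i with hu'
  obtain ⟨hup, huo⟩ := prim_prod x hx
  obtain ⟨hup', huo'⟩ := prim_prod y hy
  rw [← hu] at hup huo
  rw [← hu'] at hup' huo'
  have hu0 : u ≠ 0 := ne_zero_of_odd huo
  have hu0' : u' ≠ 0 := ne_zero_of_odd huo'
  set g := EuclideanDomain.gcd u u' with hg
  obtain ⟨a, ha⟩ : g ∣ u := EuclideanDomain.gcd_dvd_left _ _
  obtain ⟨b, hb⟩ : g ∣ u' := EuclideanDomain.gcd_dvd_right _ _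
  have hg0 : g ≠ 0 := by
    intro h0
    rw [h0, zero_mul] at ha
    exact hu0 ha
  have hap : Prim a := by
    rw [ha] at hup
    exact (prim_of_mul hup).2
  have hbp : Prim b := by
    rw [hb] at hup'
    exact (prim_of_mul hup').2
  have hcop : IsCoprime a b := by
    have hbez := EuclideanDomain.gcd_eq_gcd_ab u u'
    rw [← hg] at hbez
    refine ⟨EuclideanDomain.gcdA u u', EuclideanDomain.gcdB u u', ?_⟩
    have h1 : g * 1 = g * (EuclideanDomain.gcdA u u' * a + EuclideanDomain.gcdB u u' * b) := by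
      rw [mul_one]
      calc g = u * EuclideanDomain.gcdA u u' + u' * EuclideanDomain.gcdB u u' := hbez
        _ = (g * a) * EuclideanDomain.gcdA u u' + (g * b) * EuclideanDomain.gcdB u u' := by
            rw [← ha, ← hb]
        _ = _ := by ring
    exact (mul_left_cancel₀ hg0 h1).symm
  set ω := a * star b with hω
  have hωp : Prim ω := prim_mul_star hap hbp hcop
  have ha0 : a ≠ 0 := by
    rintro rfl
    rw [mul_zero] at ha
    exact hu0 ha
  have hb0 : b ≠ 0 := by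
    rintro rfl
    rw [mul_zero] at hb
    exact hu0' hb
  have hω0 : ω ≠ 0 := mul_ne_zero ha0 (star_ne_zero' hb0)
  have hωpos : 0 < nm ω := nm_pos hω0
  -- the structure of the pairs
  have hstruct : ∀ p : G × G, p.1 ∈ V X → p.2 ∈ V X → pr (u * p.1) = pr (u' * p.2) →
      ∃ c : ℕ, 0 < c ∧ ω * p.1 = (c : G) * p.2 := by
    intro p hp1 hp2 hpr
    have h10 := V_ne_zero hp1
    have h20 := V_ne_zero hp2
    obtain ⟨e1, e2, e3⟩ := pr_spec (u * p.1) (mul_ne_zero hu0 h10)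
    obtain ⟨f1, f2, f3⟩ := pr_spec (u' * p.2) (mul_ne_zero hu0' h20)
    set m := Int.gcd (u * p.1).re (u * p.1).im with hm
    set m' := Int.gcd (u' * p.2).re (u' * p.2).im with hm'
    -- m' * u * z = m * u' * z'
    have h1 : (m' : G) * (u * p.1) = (m : G) * (u' * p.2) := by
      rw [e1, f1, hpr]
      ring
    have h2 : (m' : G) * (a * p.1) = (m : G) * (b * p.2) := by
      apply mul_left_cancel₀ hg0
      calc g * ((m' : G) * (a * p.1)) = (m' : G) * ((g * a) * p.1) := by ring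
        _ = (m : G) * ((g * b) * p.2) := by rw [← ha, ← hb]; exact h1
        _ = g * ((m : G) * (b * p.2)) := by ring
    have h3 : (m' : G) * (ω * p.1) = ((m * nm b : ℕ) : G) * p.2 := by
      calc (m' : G) * (ω * p.1) = star b * ((m' : G) * (a * p.1)) := by rw [hω]; ring
        _ = star b * ((m : G) * (b * p.2)) := by rw [h2]
        _ = (m : G) * (b * star b) * p.2 := by ring
        _ = ((m * nm b : ℕ) : G) * p.2 := by rw [mul_star_self]; push_cast; ring
    have h4 : pr (ω * p.1) = p.2 := by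
      rw [← pr_nat_mul m' f2, h3, pr_nat_mul (m * nm b) (Nat.mul_pos e2 (nm_pos hb0)),
        pr_eq_self _ (mem_V.mp hp2).2.2]
    obtain ⟨g1, g2, g3⟩ := pr_spec (ω * p.1) (mul_ne_zero hω0 h10)
    rw [h4] at g1
    exact ⟨_, g2, g1⟩
  -- the prime factors of star ω
  let q : Fin l ⊕ Fin l → G := Sum.elim (fun i => star (x i)) y
  have hq : ∀ j ∈ (Finset.univ : Finset (Fin l ⊕ Fin l)), Prime (q j) := by
    rintro (i | i) _
    · exact (PP_spl (hx i)).conj.prime
    · exact (PP_spl (hy i)).prime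
  have hprod : ∏ j, q j = star u * u' := by
    rw [Fintype.prod_sum_type]
    simp only [q, Sum.elim_inl, Sum.elim_inr]
    rw [hu, hu', star_prod]
  have hωdvd : star ω ∣ ∏ j, q j := by
    rw [hprod, hω, ha, hb, star_mul, star_mul, star_star]
    exact ⟨star g * g, by ring⟩
  set t : ℝ := X / Real.sqrt (nm ω) with ht
  have hsq0 : 0 < Real.sqrt (nm ω) := Real.sqrt_pos.mpr (by exact_mod_cast hωpos)
  have ht0 : 0 ≤ t := div_nonneg hX hsq0.le
  set B := (ball t).filter (fun z => z ≠ 0) with hB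
  -- the first coordinates
  have hfirst : ∀ p : G × G, p.1 ∈ V X → p.2 ∈ V X → pr (u * p.1) = pr (u' * p.2) →
      ∃ A : Finset (Fin l ⊕ Fin l), ∃ z1 ∈ B, p.1 = (∏ j ∈ A, q j) * z1 := by
    intro p hp1 hp2 hpr
    obtain ⟨c, hc0, hc⟩ := hstruct p hp1 hp2 hpr
    have h10 := V_ne_zero hp1
    have hprim := (mem_V.mp hp1).2.2
    have hcd := content_dvd hωp hprim (Dvd.intro _ hc.symm)
    set h := EuclideanDomain.gcd p.1 (star ω) with hh
    have hh1 : h ∣ p.1 := EuclideanDomain.gcd_dvd_left _ _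
    have hh2 : h ∣ star ω := EuclideanDomain.gcd_dvd_right _ _
    have hh0 : h ≠ 0 := by
      intro h0
      rw [h0] at hh1
      exact h10 (zero_dvd_iff.mp hh1)
    obtain ⟨k, hk⟩ := hh2.trans hωdvd
    obtain ⟨A, A', e, e', hAA, hdis, hee, hhA, hkA⟩ :=
      mul_eq_mul_prime_prod (x := h) (y := k) (a := 1) hq (by rw [one_mul]; exact hk.symm)
    have heu : IsUnit e := IsUnit.of_mul_eq_one _ hee.symm
    have hnm1 : nm (∏ j ∈ A, q j) = nm h := by
      rw [hhA, nm_mul, nm_eq_one_iff.mpr heu, one_mul]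
    have hdvd : (∏ j ∈ A, q j) ∣ p.1 := by
      refine Dvd.dvd.trans ?_ hh1
      rw [hhA]
      exact dvd_mul_left _ _
    obtain ⟨z1, hz1⟩ := hdvd
    refine ⟨A, z1, ?_, hz1⟩
    have hz10 : z1 ≠ 0 := by
      rintro rfl
      rw [mul_zero] at hz1
      exact h10 hz1
    rw [hB, Finset.mem_filter, mem_ball]
    refine ⟨?_, hz10⟩
    -- the estimate
    have hcle : c ≤ nm h := Nat.le_of_dvd (nm_pos hh0) hcd
    have hn1 : nm ω * nm p.1 = c ^ 2 * nm p.2 := by
      rw [← nm_mul, hc, nm_mul, nm_natCast_pairsa]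
    have hn2 : (nm p.1 : ℝ) = nm h * nm z1 := by
      rw [hz1, nm_mul, hnm1]
      push_cast
      ring
    have hX1 : (nm p.1 : ℝ) ≤ X := (mem_V.mp hp1).1
    have hX2 : (nm p.2 : ℝ) ≤ X := (mem_V.mp hp2).1
    have hn3 : (nm ω : ℝ) * nm p.1 ≤ (nm h : ℝ) ^ 2 * X := by
      have h1 : (nm ω : ℝ) * nm p.1 = (c : ℝ) ^ 2 * nm p.2 := by exact_mod_cast hn1
      rw [h1]
      have h2 : (c : ℝ) ≤ nm h := by exact_mod_cast hcle
      have h3 : (c : ℝ) ^ 2 ≤ (nm h : ℝ) ^ 2 := pow_le_pow_left₀ (by positivity) h2 2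
      exact mul_le_mul h3 hX2 (by positivity) (by positivity)
    have hnh : (0 : ℝ) < nm h := by exact_mod_cast nm_pos hh0
    have hωr : (0 : ℝ) < nm ω := by exact_mod_cast hωpos
    -- (nm z1)^2 nm ω ≤ X^2
    have hn4 : (nm z1 : ℝ) ^ 2 * nm ω ≤ X ^ 2 := by
      have h1 : (nm h : ℝ) ^ 2 * ((nm z1 : ℝ) ^ 2 * nm ω) ≤ (nm h : ℝ) ^ 2 * X ^ 2 := by
        calc (nm h : ℝ) ^ 2 * ((nm z1 : ℝ) ^ 2 * nm ω) = (nm ω * nm p.1) * nm p.1 := by
              rw [hn2]; ring
          _ ≤ ((nm h : ℝ) ^ 2 * X) * X :=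
              mul_le_mul hn3 hX1 (by positivity) (by positivity)
          _ = (nm h : ℝ) ^ 2 * X ^ 2 := by ring
      exact le_of_mul_le_mul_left h1 (by positivity)
    rw [ht, le_div_iff₀ hsq0]
    apply le_of_sq_le_sq _ hX
    rw [mul_pow, Real.sq_sqrt hωr.le]
    exact hn4
  -- counting
  set S := {p : G × G | p.1 ∈ V X ∧ p.2 ∈ V X ∧ pr (u * p.1) = pr (u' * p.2)} with hS
  set T : Finset G := ((Finset.univ : Finset (Finset (Fin l ⊕ Fin l))) ×ˢ B).image
    (fun r => (∏ j ∈ r.1, q j) * r.2) with hT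
  have hmaps : Set.MapsTo (fun p : G × G => p.1) S (T : Set G) := by
    rintro p ⟨hp1, hp2, hpr⟩
    obtain ⟨A, z1, hz1, heq⟩ := hfirst p hp1 hp2 hpr
    rw [hT, Finset.mem_coe, Finset.mem_image]
    exact ⟨(A, z1), Finset.mem_product.mpr ⟨Finset.mem_univ _, hz1⟩, heq.symm⟩
  have hinj : Set.InjOn (fun p : G × G => p.1) S := by
    rintro p ⟨hp1, hp2, hpr⟩ p' ⟨hp1', hp2', hpr'⟩ heq
    have heq' : p.1 = p'.1 := heq
    obtain ⟨c, hc0, hc⟩ := hstruct p hp1 hp2 hpr
    obtain ⟨c', hc0', hc'⟩ := hstruct p' hp1' hp2' hpr'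
    have h1 : pr (ω * p.1) = p.2 := by
      rw [hc, pr_nat_mul c hc0, pr_eq_self _ (mem_V.mp hp2).2.2]
    have h2 : pr (ω * p'.1) = p'.2 := by
      rw [hc', pr_nat_mul c' hc0', pr_eq_self _ (mem_V.mp hp2').2.2]
    have h3 : p.2 = p'.2 := by rw [← h1, ← h2, heq']
    exact Prod.ext heq' h3
  have hcard1 : Set.ncard S ≤ T.card := by
    have := Set.ncard_le_ncard_of_injOn (fun p : G × G => p.1) hmaps hinj (Finset.finite_toSet T)
    rwa [Set.ncard_coe_finset] at this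
  have hcard2 : T.card ≤ 2 ^ (l + l) * B.card := by
    refine Finset.card_image_le.trans ?_
    rw [Finset.card_product, Finset.card_univ, Fintype.card_finset, Fintype.card_sum,
      Fintype.card_fin]
  have hcard3 : (B.card : ℝ) ≤ 9 * t := card_ball_le t ht0
  have hfin : (Set.ncard S : ℝ) ≤ 2 ^ (l + l) * (9 * t) := by
    calc (Set.ncard S : ℝ) ≤ (T.card : ℝ) := by exact_mod_cast hcard1
      _ ≤ ((2 ^ (l + l) * B.card : ℕ) : ℝ) := by exact_mod_cast hcard2
      _ = 2 ^ (l + l) * (B.card : ℝ) := by push_cast; ring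
      _ ≤ 2 ^ (l + l) * (9 * t) := mul_le_mul_of_nonneg_left hcard3 (by positivity)
  refine hfin.trans (le_of_eq ?_)
  have hgr : (0 : ℝ) < nm g := by exact_mod_cast nm_pos hg0
  have hnn : (nm u * nm u' : ℝ) = (nm g : ℝ) ^ 2 * nm ω := by
    have h1 : nm u = nm g * nm a := by rw [ha, nm_mul]
    have h2 : nm u' = nm g * nm b := by rw [hb, nm_mul]
    have h3 : nm ω = nm a * nm b := by rw [hω, nm_mul, nm_star]
    rw [h1, h2, h3]
    push_cast
    ring
  rw [hnn, Real.sqrt_mul (by positivity), Real.sqrt_sq hgr.le, ht]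
  field_simp

/-- the constants of `pb_main` -/
noncomputable def pxC : ℕ → ℕ → ℝ
  | 0, m => 3 ^ m
  | l + 1, 0 => 3 ^ (l + 1)
  | l + 1, m + 1 => 3 * pxC l (m + 1) + (m + 1) * 9 * pxC l m

theorem pxC_nonneg (l m : ℕ) : 0 ≤ pxC l m := by
  induction l generalizing m with
  | zero => simp only [pxC]; positivity
  | succ l ih =>
    cases m with
    | zero => simp only [pxC]; positivity
    | succ m =>
      simp only [pxC]
      have h1 := ih (m + 1)
      have h2 := ih m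
      positivity

theorem pxC_le (l m : ℕ) : pxC l m ≤ (12 * ((m : ℝ) + 1)) ^ l * 3 ^ m := by
  induction l generalizing m with
  | zero => simp only [pxC]; simp
  | succ l ih =>
    cases m with
    | zero =>
      simp only [pxC]
      rw [pow_zero, mul_one]
      exact pow_le_pow_left₀ (by norm_num) (by norm_num) _
    | succ m =>
      simp only [pxC]
      have h1 := ih (m + 1)
      have h2 := ih m
      have h3 : (12 * ((m : ℝ) + 1)) ^ l ≤ (12 * (((m + 1 : ℕ) : ℝ) + 1)) ^ l := by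
        apply pow_le_pow_left₀ (by positivity)
        push_cast
        linarith
      set A : ℝ := (12 * (((m + 1 : ℕ) : ℝ) + 1)) ^ l with hA
      have hA0 : 0 ≤ A := by rw [hA]; positivity
      have h4 : pxC l m ≤ A * 3 ^ m := h2.trans (mul_le_mul_of_nonneg_right h3 (by positivity))
      have h5 : (12 * (((m + 1 : ℕ) : ℝ) + 1)) ^ (l + 1) * 3 ^ (m + 1) =
          A * 3 ^ m * (36 * ((m : ℝ) + 2)) := by
        rw [pow_succ, pow_succ, ← hA]
        push_cast
        ring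
      rw [h5]
      have h6 : 3 * pxC l (m + 1) ≤ A * 3 ^ m * 9 := by
        have : A * 3 ^ m * 9 = 3 * (A * 3 ^ (m + 1)) := by rw [pow_succ]; ring
        rw [this]
        linarith
      have h7 : ((m : ℝ) + 1) * 9 * pxC l m ≤ A * 3 ^ m * (9 * ((m : ℝ) + 1)) := by
        have := mul_le_mul_of_nonneg_left h4 (by positivity : (0 : ℝ) ≤ ((m : ℝ) + 1) * 9)
        refine this.trans (le_of_eq ?_)
        ring
      have h8 : A * 3 ^ m * 9 + A * 3 ^ m * (9 * ((m : ℝ) + 1)) ≤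
          A * 3 ^ m * (36 * ((m : ℝ) + 2)) := by
        rw [← mul_add]
        apply mul_le_mul_of_nonneg_left _ (by positivity)
        have : (0 : ℝ) ≤ m := Nat.cast_nonneg m
        linarith
      linarith

/-- `pb_main` with the constant `pxC l m` -/
theorem px_main (l : ℕ) : ∀ (m : ℕ) (P Q Y : ℝ) (W : Finset G), W ⊆ PP P Q →
    1 ≤ Y → (∀ w ∈ W, (nm w : ℝ) ≤ 3 * Y) →
    ∑ x ∈ Fintype.piFinset (fun _ : Fin l => W), ∑ y ∈ Fintype.piFinset (fun _ : Fin m => W),
      (nm (EuclideanDomain.gcd (∏ i, x i) (∏ i, y i)) : ℝ) ≤ pxC l m * Y ^ (l + m) := by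
  induction l with
  | zero =>
    intro m
    intro P Q Y W hW hY h
    simp only [pxC]
    have hc := pb_card hW hY h
    have h1 : ∀ x ∈ Fintype.piFinset (fun _ : Fin 0 => W),
        ∑ y ∈ Fintype.piFinset (fun _ : Fin m => W),
          (nm (EuclideanDomain.gcd (∏ i, x i) (∏ i, y i)) : ℝ) = (W.card : ℝ) ^ m := by
      intro x _
      have h2 : ∀ y ∈ Fintype.piFinset (fun _ : Fin m => W),
          (nm (EuclideanDomain.gcd (∏ i, x i) (∏ i, y i)) : ℝ) = 1 := by
        intro y _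
        have h3 : ∏ i, x i = 1 := by simp
        rw [h3]
        have h4 : IsUnit (EuclideanDomain.gcd (1 : G) (∏ i, y i)) :=
          isUnit_of_dvd_one (EuclideanDomain.gcd_dvd_left _ _)
        rw [nm_eq_one_iff.2 h4]
        simp
      rw [Finset.sum_congr rfl h2]
      simp
    rw [Finset.sum_congr rfl h1]
    have h5 : (Fintype.piFinset (fun _ : Fin 0 => W)).card = 1 := by simp
    rw [Finset.sum_const, h5, one_smul, Nat.zero_add, ← mul_pow]
    exact pow_le_pow_left₀ (by positivity) hc m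
  | succ l ih =>
    intro m
    rcases Nat.eq_zero_or_pos m with hm | hm
    · subst hm
      intro P Q Y W hW hY h
      simp only [pxC]
      have hc := pb_card hW hY h
      have h1 : ∀ x ∈ Fintype.piFinset (fun _ : Fin (l + 1) => W),
          ∑ y ∈ Fintype.piFinset (fun _ : Fin 0 => W),
            (nm (EuclideanDomain.gcd (∏ i, x i) (∏ i, y i)) : ℝ) = 1 := by
        intro x _
        have h2 : ∀ y ∈ Fintype.piFinset (fun _ : Fin 0 => W),
            (nm (EuclideanDomain.gcd (∏ i, x i) (∏ i, y i)) : ℝ) = 1 := by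
          intro y _
          have h3 : ∏ i, y i = 1 := by simp
          rw [h3]
          have h4 : IsUnit (EuclideanDomain.gcd (∏ i, x i) (1 : G)) :=
            isUnit_of_dvd_one (EuclideanDomain.gcd_dvd_right _ _)
          rw [nm_eq_one_iff.2 h4]
          simp
        rw [Finset.sum_congr rfl h2]
        simp
      rw [Finset.sum_congr rfl h1]
      have h5 : ((Fintype.piFinset (fun _ : Fin (l + 1) => W)).card : ℝ) =
          (W.card : ℝ) ^ (l + 1) := by
        simp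
      rw [Finset.sum_const, nsmul_eq_mul, mul_one, h5, Nat.add_zero, ← mul_pow]
      exact pow_le_pow_left₀ (by positivity) hc _
    · obtain ⟨m, rfl⟩ : ∃ m', m = m' + 1 := ⟨m - 1, by omega⟩
      have H1 := ih (m + 1)
      have H2 := ih m
      have hC1 := pxC_nonneg l (m + 1)
      have hC2 := pxC_nonneg l m
      intro P Q Y W hW hY h
      simp only [pxC]
      set C1 := pxC l (m + 1)
      set C2 := pxC l m
      have hc := pb_card hW hY h
      have I1 := H1 P Q Y W hW hY h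
      have I2 := H2 P Q Y W hW hY h
      have hne : ∀ w ∈ W, w ≠ 0 := fun w hw => (PP_spl (hW hw)).prime.ne_zero
      have hprod : ∀ {n : ℕ} (x : Fin n → G), x ∈ Fintype.piFinset (fun _ : Fin n => W) →
          ∏ i, x i ≠ 0 := by
        intro n x hx
        rw [Finset.prod_ne_zero_iff]
        intro i _
        exact hne _ (Fintype.mem_piFinset.1 hx i)
      -- pointwise bound
      have key : ∀ w ∈ W, ∀ x ∈ Fintype.piFinset (fun _ : Fin l => W),
          ∑ y ∈ Fintype.piFinset (fun _ : Fin (m + 1) => W),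
            (nm (EuclideanDomain.gcd (w * ∏ i, x i) (∏ i, y i)) : ℝ) ≤
          ∑ y ∈ Fintype.piFinset (fun _ : Fin (m + 1) => W),
            (nm (EuclideanDomain.gcd (∏ i, x i) (∏ i, y i)) : ℝ) +
          (m + 1) * (3 * Y) * ∑ y ∈ Fintype.piFinset (fun _ : Fin m => W),
            (nm (EuclideanDomain.gcd (∏ i, x i) (∏ i, y i)) : ℝ) := by
        intro w hw x hx
        have hwp : Prime w := (PP_spl (hW hw)).prime
        have hx0 := hprod x hx
        have step : ∀ y ∈ Fintype.piFinset (fun _ : Fin (m + 1) => W),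
            (nm (EuclideanDomain.gcd (w * ∏ i, x i) (∏ i, y i)) : ℝ) ≤
            (nm (EuclideanDomain.gcd (∏ i, x i) (∏ i, y i)) : ℝ) +
            ∑ j : Fin (m + 1), if y j = w then
              (nm (EuclideanDomain.gcd (w * ∏ i, x i) (∏ i, y i)) : ℝ) else 0 := by
          intro y hy
          by_cases hd : w ∣ ∏ i, y i
          · obtain ⟨j, _, hj⟩ := (hwp.dvd_finsetProd_iff _).1 hd
            have hj' : y j = w := (PP_dvd (hW hw) (hW (Fintype.mem_piFinset.1 hy j)) hj).symm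
            have h3 : (nm (EuclideanDomain.gcd (w * ∏ i, x i) (∏ i, y i)) : ℝ) ≤
                ∑ j : Fin (m + 1), if y j = w then
                (nm (EuclideanDomain.gcd (w * ∏ i, x i) (∏ i, y i)) : ℝ) else 0 := by
              have h4 := Finset.single_le_sum (f := fun j : Fin (m + 1) => if y j = w then
                (nm (EuclideanDomain.gcd (w * ∏ i, x i) (∏ i, y i)) : ℝ) else 0)
                (s := Finset.univ) (fun i _ => by positivity) (Finset.mem_univ j)
              simp only [hj', if_true] at h4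
              exact h4
            have h5 : (0 : ℝ) ≤ (nm (EuclideanDomain.gcd (∏ i, x i) (∏ i, y i)) : ℝ) := by
              positivity
            linarith
          · have h3 : (nm (EuclideanDomain.gcd (w * ∏ i, x i) (∏ i, y i)) : ℝ) ≤
                (nm (EuclideanDomain.gcd (∏ i, x i) (∏ i, y i)) : ℝ) := by
              exact_mod_cast pb_gcd_coprime hwp hx0 hd
            have h4 : (0 : ℝ) ≤ ∑ j : Fin (m + 1), if y j = w then
                (nm (EuclideanDomain.gcd (w * ∏ i, x i) (∏ i, y i)) : ℝ) else 0 :=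
              Finset.sum_nonneg (fun i _ => by positivity)
            linarith
        refine (Finset.sum_le_sum step).trans ?_
        rw [Finset.sum_add_distrib]
        have h6 : ∑ y ∈ Fintype.piFinset (fun _ : Fin (m + 1) => W), ∑ j : Fin (m + 1),
            (if y j = w then
              (nm (EuclideanDomain.gcd (w * ∏ i, x i) (∏ i, y i)) : ℝ) else 0) ≤
            (m + 1) * (3 * Y) * ∑ y ∈ Fintype.piFinset (fun _ : Fin m => W),
            (nm (EuclideanDomain.gcd (∏ i, x i) (∏ i, y i)) : ℝ) := by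
          rw [Finset.sum_comm]
          have h7 : ∀ j ∈ (Finset.univ : Finset (Fin (m + 1))),
              ∑ y ∈ Fintype.piFinset (fun _ : Fin (m + 1) => W),
              (if y j = w then
              (nm (EuclideanDomain.gcd (w * ∏ i, x i) (∏ i, y i)) : ℝ) else 0) ≤
              (3 * Y) * ∑ y ∈ Fintype.piFinset (fun _ : Fin m => W),
                (nm (EuclideanDomain.gcd (∏ i, x i) (∏ i, y i)) : ℝ) := by
            intro j _
            rw [pb_sum_insert W j]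
            have h8 : ∀ a ∈ W, ∑ y ∈ Fintype.piFinset (fun _ : Fin m => W),
                (if (Fin.insertNth j a y : Fin (m + 1) → G) j = w then
                (nm (EuclideanDomain.gcd (w * ∏ i, x i)
                  (∏ i, (Fin.insertNth j a y : Fin (m + 1) → G) i)) : ℝ) else 0) =
                if a = w then ∑ y ∈ Fintype.piFinset (fun _ : Fin m => W),
                  (nm (EuclideanDomain.gcd (w * ∏ i, x i) (w * ∏ i, y i)) : ℝ) else 0 := by
              intro a _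
              by_cases ha : a = w
              · subst ha
                simp only [Fin.insertNth_apply_same, if_true, pb_prod_insert]
              · simp [ha]
            rw [Finset.sum_congr rfl h8, Finset.sum_ite_eq' W w, if_pos hw, Finset.mul_sum]
            apply Finset.sum_le_sum
            intro y _
            have h9 := pb_gcd_mul (w := w) (a := ∏ i, x i) (b := ∏ i, y i) (hne w hw) hx0
            have h10 : (nm (EuclideanDomain.gcd (w * ∏ i, x i) (w * ∏ i, y i)) : ℝ) ≤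
                (nm w : ℝ) * (nm (EuclideanDomain.gcd (∏ i, x i) (∏ i, y i)) : ℝ) := by
              exact_mod_cast h9
            refine h10.trans ?_
            exact mul_le_mul_of_nonneg_right (h w hw) (by positivity)
          refine (Finset.sum_le_sum h7).trans ?_
          rw [Finset.sum_const]
          simp only [Finset.card_univ, Fintype.card_fin, nsmul_eq_mul]
          push_cast
          apply le_of_eq
          ring
        linarith
      -- sum over the first coordinate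
      rw [pb_sum_insert W (0 : Fin (l + 1))]
      simp only [pb_prod_insert]
      have h11 : ∑ w ∈ W, ∑ x ∈ Fintype.piFinset (fun _ : Fin l => W),
          ∑ y ∈ Fintype.piFinset (fun _ : Fin (m + 1) => W),
            (nm (EuclideanDomain.gcd (w * ∏ i, x i) (∏ i, y i)) : ℝ) ≤
          ∑ _w ∈ W, (C1 * Y ^ (l + (m + 1)) + (m + 1) * (3 * Y) * (C2 * Y ^ (l + m))) := by
        apply Finset.sum_le_sum
        intro w hw
        refine (Finset.sum_le_sum (key w hw)).trans ?_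
        rw [Finset.sum_add_distrib, ← Finset.mul_sum]
        have h12 : (0 : ℝ) ≤ (m + 1) * (3 * Y) := by positivity
        exact add_le_add I1 (mul_le_mul_of_nonneg_left I2 h12)
      refine h11.trans ?_
      rw [Finset.sum_const, nsmul_eq_mul]
      have h13 : (0 : ℝ) ≤ C1 * Y ^ (l + (m + 1)) + (m + 1) * (3 * Y) * (C2 * Y ^ (l + m)) := by
        positivity
      refine (mul_le_mul_of_nonneg_right hc h13).trans ?_
      apply le_of_eq
      have e1 : Y ^ (l + 1 + (m + 1)) = Y ^ (l + m) * Y ^ 2 := by rw [← pow_add]; ring_nf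
      have e2 : Y ^ (l + (m + 1)) = Y ^ (l + m) * Y := by rw [← pow_succ]; ring_nf
      rw [e1, e2]
      ring

/-- The proof of `pairsU` with explicit constants. In `pairsA` (Lib_MP_f1a94e_mr/PairsA.lean) the constant is
`9 * 2 ^ (l + l)`. In `pb_main` (PairsB.lean) the recursion is `C (l+1) (m+1) = 3 C l (m+1) + 9 (m+1) C l m`,
`C 0 m = 3 ^ m`, `C l 0 = 3 ^ l`, so `C l m ≤ (12 (m+1)) ^ l 3 ^ m`, hence `C l l ≤ (36 (l+1)) ^ l`, and
`9 * 4 ^ l * (36 (l+1)) ^ l = 9 * (144 (l+1)) ^ l`. (Copy the three proofs.) -/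
theorem pairsX (l : ℕ) (P Q Y X : ℝ) (W : Finset G) (hW : W ⊆ PP P Q) (hY : 1 ≤ Y)
    (hX : 0 ≤ X) (h : ∀ w ∈ W, Y < (nm w : ℝ) ∧ (nm w : ℝ) ≤ 3 * Y) :
    (Set.ncard {q : ((Fin l → G) × G) × ((Fin l → G) × G) |
      (∀ i, q.1.1 i ∈ W) ∧ q.1.2 ∈ V X ∧ (∀ i, q.2.1 i ∈ W) ∧ q.2.2 ∈ V X ∧
      pr ((∏ i, q.1.1 i) * q.1.2) = pr ((∏ i, q.2.1 i) * q.2.2)} : ℝ) ≤
      9 * (144 * ((l : ℝ) + 1)) ^ l * Y ^ l * X := by
  classical
  have hC1 : (0 : ℝ) < 9 * 2 ^ (l + l) := by positivity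
  have H1 := pairsAX l
  have H2 : ∀ (P Q Y : ℝ) (W : Finset G), W ⊆ PP P Q → 1 ≤ Y →
      (∀ w ∈ W, (nm w : ℝ) ≤ 3 * Y) →
      ∑ x ∈ Fintype.piFinset (fun _ : Fin l => W), ∑ y ∈ Fintype.piFinset (fun _ : Fin l => W),
        (nm (EuclideanDomain.gcd (∏ i, x i) (∏ i, y i)) : ℝ) ≤
        (36 * ((l : ℝ) + 1)) ^ l * Y ^ (2 * l) := by
    intro P Q Y W hW hY h
    have h1 := px_main l l P Q Y W hW hY h
    rw [← two_mul] at h1
    refine h1.trans ?_
    apply mul_le_mul_of_nonneg_right _ (by positivity)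
    refine (pxC_le l l).trans (le_of_eq ?_)
    rw [← mul_pow]
    congr 1
    ring
  set C1 : ℝ := 9 * 2 ^ (l + l) with hC1def
  set C2 : ℝ := (36 * ((l : ℝ) + 1)) ^ l with hC2def
  have hconst : 9 * (144 * ((l : ℝ) + 1)) ^ l = C1 * C2 := by
    rw [hC1def, hC2def]
    have h1 : (2 : ℝ) ^ (l + l) = 4 ^ l := by
      rw [← two_mul, pow_mul]
      norm_num
    rw [h1, mul_assoc, ← mul_pow]
    congr 2
    ring
  rw [hconst]
  have I2 := H2 P Q Y W hW hY (fun w hw => (h w hw).2)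
  set WW := Fintype.piFinset (fun _ : Fin l => W) with hWW
  have hset : {q : ((Fin l → G) × G) × ((Fin l → G) × G) |
      (∀ i, q.1.1 i ∈ W) ∧ q.1.2 ∈ V X ∧ (∀ i, q.2.1 i ∈ W) ∧ q.2.2 ∈ V X ∧
      pr ((∏ i, q.1.1 i) * q.1.2) = pr ((∏ i, q.2.1 i) * q.2.2)} =
      ((((WW ×ˢ V X) ×ˢ (WW ×ˢ V X)).filter
        (fun q => pr ((∏ i, q.1.1 i) * q.1.2) = pr ((∏ i, q.2.1 i) * q.2.2)) :
        Finset (((Fin l → G) × G) × ((Fin l → G) × G))) :
        Set (((Fin l → G) × G) × ((Fin l → G) × G))) := by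
    ext q
    simp only [Set.mem_ofPred_eq, Finset.coe_filter, Finset.mem_product, hWW,
      Fintype.mem_piFinset]
    tauto
  rw [hset, Set.ncard_coe_finset]
  have hin : ∀ x ∈ WW, ∀ y ∈ WW, (((V X ×ˢ V X).filter
      (fun p => pr ((∏ i, x i) * p.1) = pr ((∏ i, y i) * p.2))).card : ℝ) ≤
      C1 * X / Y ^ l * (nm (EuclideanDomain.gcd (∏ i, x i) (∏ i, y i)) : ℝ) := by
    intro x hx y hy
    rw [hWW, Fintype.mem_piFinset] at hx hy
    have h1 := H1 P Q X x y (fun i => hW (hx i)) (fun i => hW (hy i)) hX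
    have hs : {p : G × G | p.1 ∈ V X ∧ p.2 ∈ V X ∧
        pr ((∏ i, x i) * p.1) = pr ((∏ i, y i) * p.2)} =
        (((V X ×ˢ V X).filter
        (fun p => pr ((∏ i, x i) * p.1) = pr ((∏ i, y i) * p.2)) : Finset (G × G)) :
          Set (G × G)) := by
      ext p
      simp only [Set.mem_ofPred_eq, Finset.coe_filter, Finset.mem_product]
      tauto
    rw [hs, Set.ncard_coe_finset] at h1
    refine h1.trans ?_
    have hYl : (0 : ℝ) < Y ^ l := by positivity
    have h2 : Y ^ l ≤ Real.sqrt (nm (∏ i, x i) * nm (∏ i, y i) : ℝ) := by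
      apply Real.le_sqrt_of_sq_le
      rw [sq]
      exact mul_le_mul (pu_pow_le hY (fun w hw => (h w hw).1) x hx)
        (pu_pow_le hY (fun w hw => (h w hw).1) y hy) hYl.le (by positivity)
    have h3 : C1 * X / Y ^ l * (nm (EuclideanDomain.gcd (∏ i, x i) (∏ i, y i)) : ℝ) =
        C1 * X * (nm (EuclideanDomain.gcd (∏ i, x i) (∏ i, y i)) : ℝ) / Y ^ l := by ring
    rw [h3]
    exact div_le_div_of_nonneg_left (by positivity) hYl h2
  have hcard : ((((WW ×ˢ V X) ×ˢ (WW ×ˢ V X)).filter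
        (fun q => pr ((∏ i, q.1.1 i) * q.1.2) = pr ((∏ i, q.2.1 i) * q.2.2))).card : ℝ) =
      ∑ x ∈ WW, ∑ y ∈ WW, (((V X ×ˢ V X).filter
      (fun p => pr ((∏ i, x i) * p.1) = pr ((∏ i, y i) * p.2))).card : ℝ) := by
    simp only [Finset.card_filter, Finset.sum_product]
    push_cast
    apply Finset.sum_congr rfl
    intro x _
    rw [Finset.sum_comm]
  rw [hcard]
  calc ∑ x ∈ WW, ∑ y ∈ WW, (((V X ×ˢ V X).filter
      (fun p => pr ((∏ i, x i) * p.1) = pr ((∏ i, y i) * p.2))).card : ℝ)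
      ≤ ∑ x ∈ WW, ∑ y ∈ WW,
        C1 * X / Y ^ l * (nm (EuclideanDomain.gcd (∏ i, x i) (∏ i, y i)) : ℝ) :=
        Finset.sum_le_sum (fun x hx => Finset.sum_le_sum (fun y hy => hin x hx y hy))
    _ = C1 * X / Y ^ l * ∑ x ∈ WW, ∑ y ∈ WW,
        (nm (EuclideanDomain.gcd (∏ i, x i) (∏ i, y i)) : ℝ) := by
        rw [Finset.mul_sum]
        apply Finset.sum_congr rfl
        intro x _
        rw [Finset.mul_sum]
    _ ≤ C1 * X / Y ^ l * (C2 * Y ^ (2 * l)) :=
        mul_le_mul_of_nonneg_left I2 (by positivity)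
    _ = C1 * C2 * Y ^ l * X := by
        have hYl : (Y ^ l : ℝ) ≠ 0 := by positivity
        have e : Y ^ (2 * l) = Y ^ l * Y ^ l := by rw [two_mul, pow_add]
        rw [e]
        field_simp

end Pool.Agent.GaussMR

end
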