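import Mathlib
import Pool.Agent.Lib_MP_f1a94e_m.G05
import Pool.Agent.Lib_MP_f1a94e_m.G06
import Pool.Agent.Lib_MP_f1a94e_m.G07
import Pool.Agent.Lib_MP_f1a94e_m.G08

/-!
# MP_f1a94e_nt: merged library part G12

Concatenation of files of the libraries `Lib_MP_f1a94e_*` (each in its own section), only to save build time.
-/

/-! ### from `Lib_MP_f1a94e_eq.EqnA` -/

section

/-!
# Piece EQNA: pairs of determinant `n` from Farey edges, one residue `c`
-/

set_option autoImplicit false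

namespace Pool.Agent.OmEq

open Finset Pool.Agent.GaussMR Pool.Agent.OmAll Filter

theorem ea_dot (n : ℕ) (c : ℤ) (u v : G) :
    dot u ((c : G) * u + (n : G) * v) = c * (nm u : ℤ) + n * dot u v := by
  rw [nm_eq]
  simp [dot]
  ring

theorem ea_det (n : ℕ) (c : ℤ) (u v : G) :
    det u ((c : G) * u + (n : G) * v) = n * det u v := by
  simp [det]
  ring

/-- real version of the relations between the quantities of an edge -/
theorem ea_real (n : ℕ) (c : ℤ) (u v : G) (h : det u v = 1) :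
    ((dot u ((c : G) * u + (n : G) * v) : ℤ) : ℝ) = c * (nm u : ℝ) + n * ((dot u v : ℤ) : ℝ) ∧
    (nm u : ℝ) * nm v = ((dot u v : ℤ) : ℝ) ^ 2 + 1 ∧
    (nm u : ℝ) * nm ((c : G) * u + (n : G) * v) =
      ((dot u ((c : G) * u + (n : G) * v) : ℤ) : ℝ) ^ 2 + (n : ℝ) ^ 2 ∧ (1 : ℝ) ≤ nm u := by
  have h1 := ea_dot n c u v
  have h2 := ea_det n c u v
  rw [h, mul_one] at h2
  have h3 := dot_sq_add_det_sq u v
  rw [h] at h3
  have h4 := dot_sq_add_det_sq u ((c : G) * u + (n : G) * v)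
  rw [h2] at h4
  have h5 : 0 < nm u := by
    by_contra h0
    have h0' : nm u = 0 := by omega
    rw [h0'] at h3
    simp only [Nat.cast_zero, zero_mul] at h3
    linarith only [sq_nonneg (dot u v), h3]
  refine ⟨?_, ?_, ?_, by exact_mod_cast h5⟩
  · rw [h1]
    push_cast
    ring
  · have h6 : ((dot u v ^ 2 + 1 ^ 2 : ℤ) : ℝ) = (((nm u : ℤ) * nm v : ℤ) : ℝ) := by rw [h3]
    push_cast at h6
    linarith
  · have h6 : ((dot u ((c : G) * u + (n : G) * v) ^ 2 + (n : ℤ) ^ 2 : ℤ) : ℝ) =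
      (((nm u : ℤ) * nm ((c : G) * u + (n : G) * v) : ℤ) : ℝ) := by rw [h4]
    push_cast at h6
    linarith

/-- upper estimate: real inequalities -/
theorem ea_up (n c ω0 ω1 ρ0 ρ1 η v D m : ℝ) (hn : 1 ≤ n) (hc : c ≤ 0) (hω0 : 0 < ω0)
    (hρ0 : n * ρ0 = ω0 - c) (hρ1 : n * ρ1 = ω1 - c) (hη : 0 < η) (hη0 : η < ρ0) (hρ1' : 0 < ρ1)
    (hω1 : 0 < ω1)
    (hv : 1 ≤ v) (hm : m = c * v + n * D) (hm0 : 0 < m) (h1 : ω0 ^ 2 * v ^ 2 ≤ m ^ 2 + n ^ 2)
    (h2 : m ^ 2 + n ^ 2 < ω1 ^ 2 * v ^ 2) (hD : ρ1 / η < D) :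
    (ρ0 - η) ^ 2 * v ^ 2 ≤ D ^ 2 + 1 ∧ D ^ 2 + 1 < (ρ1 + η) ^ 2 * v ^ 2 ∧
      D * (n + c / (ρ0 - η)) ≤ m := by
  have hv0 : 0 < v := by linarith
  have hn0 : 0 < n := by linarith
  have hD0 : 0 < D := lt_trans (div_pos hρ1' hη) hD
  have a1 : m < ω1 * v := by
    apply lt_of_pow_lt_pow_left₀ 2 (mul_pos hω1 hv0).le
    rw [mul_pow]
    linarith only [h2, sq_nonneg n]
  have a2 : D < ρ1 * v := by
    have : n * D < n * (ρ1 * v) := by
      rw [← mul_assoc, hρ1]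
      linarith
    exact lt_of_mul_lt_mul_left this hn0.le
  have a3 : 1 ≤ η * v := by
    have h3 : ρ1 / η < ρ1 * v := hD.trans a2
    rw [div_lt_iff₀ hη] at h3
    have h4 : ρ1 * 1 < ρ1 * (η * v) := by linarith only [h3]
    exact (lt_of_mul_lt_mul_left h4 hρ1'.le).le
  have a4 : ω0 * v - n ≤ m := by
    by_contra hcon
    push Not at hcon
    have h5 : 0 < ω0 * v - n := hm0.trans hcon
    have h6 : m ^ 2 < (ω0 * v - n) ^ 2 := pow_lt_pow_left₀ hcon hm0.le two_ne_zero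
    linarith only [h6, h1, mul_pos hn0 h5]
  have a5 : (ρ0 - η) * v ≤ D := by
    have h7 : n * ((ρ0 - η) * v) ≤ n * D := by
      have : n * ((ρ0 - η) * v) = (n * ρ0) * v - n * (η * v) := by ring
      rw [this, hρ0]
      linarith only [a4, hm, mul_le_mul_of_nonneg_left a3 hn0.le]
    exact le_of_mul_le_mul_left h7 hn0
  have hρη : 0 < ρ0 - η := by linarith
  refine ⟨?_, ?_, ?_⟩
  · have h8 : ((ρ0 - η) * v) ^ 2 ≤ D ^ 2 := pow_le_pow_left₀ (mul_pos hρη hv0).le a5 2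
    rw [mul_pow] at h8
    linarith only [h8]
  · have h9 : D ^ 2 < (ρ1 * v) ^ 2 := pow_lt_pow_left₀ a2 hD0.le two_ne_zero
    have h10 : 1 ≤ (η * v) ^ 2 := one_le_pow₀ a3
    linarith only [h9, h10, mul_pos (mul_pos hρ1' hη) (mul_pos hv0 hv0)]
  · have h11 : v ≤ D / (ρ0 - η) := by
      rw [le_div_iff₀ hρη]
      linarith only [a5]
    have h12 : c * (D / (ρ0 - η)) ≤ c * v := mul_le_mul_of_nonpos_left h11 hc
    have h13 : D * (n + c / (ρ0 - η)) = n * D + c * (D / (ρ0 - η)) := by ring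
    rw [h13, hm]
    linarith only [h12]

/-- lower estimate: real inequalities -/
theorem ea_low (n c ω0 ω1 ρ0 ρ1 η v D m : ℝ) (hn : 1 ≤ n) (hc : c ≤ 0) (hω0 : 0 < ω0)
    (hρ0 : n * ρ0 = ω0 - c) (hρ1 : n * ρ1 = ω1 - c) (hη : 0 < η) (hη1 : η < ρ1) (hρ0' : 0 < ρ0)
    (hv : 1 ≤ v) (hm : m = c * v + n * D) (hD0 : 0 < D)
    (h1 : (ρ0 + η) ^ 2 * v ^ 2 ≤ D ^ 2 + 1)
    (h2 : D ^ 2 + 1 < (ρ1 - η) ^ 2 * v ^ 2) (hD : ρ1 / η < D) :
    0 < m ∧ ω0 ^ 2 * v ^ 2 ≤ m ^ 2 + n ^ 2 ∧ m ^ 2 + n ^ 2 < ω1 ^ 2 * v ^ 2 ∧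
      m ≤ D * (n + c / ρ1) := by
  have hv0 : 0 < v := by linarith
  have hn0 : 0 < n := by linarith
  have hρ1' : 0 < ρ1 := hη.trans hη1
  have hρη : 0 < ρ1 - η := by linarith
  have a2 : D < (ρ1 - η) * v := by
    apply lt_of_pow_lt_pow_left₀ 2 (mul_pos hρη hv0).le
    rw [mul_pow]
    linarith only [h2]
  have a2' : D < ρ1 * v := by linarith only [a2, mul_pos hη hv0]
  have a3 : 1 ≤ η * v := by
    have h3 : ρ1 / η < ρ1 * v := hD.trans a2'
    rw [div_lt_iff₀ hη] at h3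
    have h4 : ρ1 * 1 < ρ1 * (η * v) := by linarith only [h3]
    exact (lt_of_mul_lt_mul_left h4 hρ1'.le).le
  have a5 : ρ0 * v ≤ D := by
    have h5 : (ρ0 + η) * v ≤ D + 1 := by
      apply le_of_sq_le_sq _ (by linarith only [hD0])
      rw [mul_pow]
      linarith only [h1, hD0]
    linarith only [h5, a3]
  have a6 : ω0 * v ≤ m := by
    rw [hm]
    have h6 : n * (ρ0 * v) ≤ n * D := mul_le_mul_of_nonneg_left a5 hn0.le
    have h7 : n * (ρ0 * v) = (ω0 - c) * v := by rw [← mul_assoc, hρ0]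
    linarith only [h6, h7]
  have hm0 : 0 < m := lt_of_lt_of_le (mul_pos hω0 hv0) a6
  have a7 : m < (ω1 - n * η) * v := by
    rw [hm]
    have h6 : n * D < n * ((ρ1 - η) * v) := mul_lt_mul_of_pos_left a2 hn0
    have h7 : n * ((ρ1 - η) * v) = (ω1 - c) * v - n * η * v := by rw [← hρ1]; ring
    linarith only [h6, h7]
  refine ⟨hm0, ?_, ?_, ?_⟩
  · have h8 : (ω0 * v) ^ 2 ≤ m ^ 2 := pow_le_pow_left₀ (mul_pos hω0 hv0).le a6 2
    rw [mul_pow] at h8
    linarith only [h8, sq_nonneg n]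
  · have h9 : m ^ 2 < ((ω1 - n * η) * v) ^ 2 := pow_lt_pow_left₀ a7 hm0.le two_ne_zero
    have h10 : 0 < (ω1 - n * η) * v := hm0.trans a7
    have h11 : n ≤ n * η * v := by linarith only [mul_le_mul_of_nonneg_left a3 hn0.le]
    have h12 : n * n ≤ (n * η * v) * (n * η * v) := mul_self_le_mul_self hn0.le h11
    have h13 : 0 ≤ (n * η * v) * ((ω1 - n * η) * v) :=
      mul_nonneg (hn0.le.trans h11) h10.le
    have h14 : ω1 ^ 2 * v ^ 2 = ((ω1 - n * η) * v) ^ 2 + 2 * ((n * η * v) * ((ω1 - n * η) * v)) +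
      (n * η * v) * (n * η * v) := by ring
    rw [h14]
    generalize ((ω1 - n * η) * v) ^ 2 = A at *
    generalize (n * η * v) * ((ω1 - n * η) * v) = B at *
    generalize (n * η * v) * (n * η * v) = C at *
    linarith only [h9, h12, h13]
  · have h11 : D / ρ1 ≤ v := by
      rw [div_le_iff₀ hρ1']
      linarith only [a2']
    have h12 : c * v ≤ c * (D / ρ1) := mul_le_mul_of_nonpos_left h11 hc
    have h13 : D * (n + c / ρ1) = n * D + c * (D / ρ1) := by ring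
    rw [h13, hm]
    linarith only [h12]

/-- the counted set -/
def ENs (n : ℕ) (c : ℤ) (M : ℕ) (γ : G × G) (s t x : ℝ) : Set (G × G) :=
  {e : G × G | det e.1 e.2 = 1 ∧ cg M e.1 γ.1 ∧ cg M e.2 γ.2 ∧
        0 < dot e.1 ((c : G) * e.1 + (n : G) * e.2) ∧
        ((dot e.1 ((c : G) * e.1 + (n : G) * e.2) : ℤ) : ℝ) ≤ x ∧
        Real.exp s * (nm e.1 : ℝ) ≤ (nm ((c : G) * e.1 + (n : G) * e.2) : ℝ) ∧
        (nm ((c : G) * e.1 + (n : G) * e.2) : ℝ) < Real.exp t * (nm e.1 : ℝ)}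

/-- edges with bounded scalar product -/
def sml (D0 : ℝ) : Set (G × G) :=
  {e : G × G | det e.1 e.2 = 1 ∧ 0 < dot e.1 e.2 ∧ ((dot e.1 e.2 : ℤ) : ℝ) ≤ D0}

theorem ea_prod {a b X : ℝ} (ha : 1 ≤ a) (hb : 0 ≤ b) (h : a * b ≤ X) : b ≤ X :=
  (le_mul_of_one_le_left hb ha).trans h

theorem sml_finite (D0 : ℝ) : (sml D0).Finite := by
  apply ((finite_ball (D0 ^ 2 + 1)).prod (finite_ball (D0 ^ 2 + 1))).subset
  rintro ⟨u, v⟩ ⟨h1, h2, h3⟩
  simp only at h1 h2 h3
  obtain ⟨-, a2, -, a4⟩ := ea_real 1 0 u v h1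
  have h6 : (0 : ℝ) < ((dot u v : ℤ) : ℝ) := by exact_mod_cast h2
  have h7 : (nm u : ℝ) * (nm v : ℝ) ≤ D0 ^ 2 + 1 := by
    rw [a2]; linarith only [pow_le_pow_left₀ h6.le h3 2]
  have h8 : (1 : ℝ) ≤ nm v := by
    have : 0 < nm v := by
      by_contra h
      have h0 : nm v = 0 := by omega
      rw [h0] at a2
      simp only [Nat.cast_zero, mul_zero] at a2
      linarith only [a2, sq_nonneg ((dot u v : ℤ) : ℝ)]
    exact_mod_cast this
  exact ⟨ea_prod h8 (by linarith) (by linarith : (nm v : ℝ) * nm u ≤ D0 ^ 2 + 1),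
    ea_prod a4 (by linarith) h7⟩

theorem ENs_finite (n : ℕ) (hn : 0 < n) (c : ℤ) (M : ℕ) (γ : G × G) (s t x : ℝ) :
    (ENs n c M γ s t x).Finite := by
  have hinj : Function.Injective (fun e : G × G => (e.1, (c : G) * e.1 + (n : G) * e.2)) := by
    rintro ⟨a, b⟩ ⟨a', b'⟩ h
    simp only [Prod.mk.injEq] at h
    obtain ⟨rfl, h⟩ := h
    have h1 : (n : G) * b = (n : G) * b' := add_left_cancel h
    have h2 : (n : G) ≠ 0 := by exact_mod_cast hn.ne'
    rw [mul_left_cancel₀ h2 h1]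
  apply (((finite_ball (x ^ 2 + (n : ℝ) ^ 2)).prod (finite_ball (x ^ 2 + (n : ℝ) ^ 2))).preimage
    (hinj.injOn)).subset
  rintro ⟨u, v⟩ ⟨h1, -, -, h2, h3, -⟩
  simp only at h1 h2 h3
  obtain ⟨-, -, a3, a4⟩ := ea_real n c u v h1
  have h6 : (0 : ℝ) < ((dot u ((c : G) * u + (n : G) * v) : ℤ) : ℝ) := by exact_mod_cast h2
  have h7 : (nm u : ℝ) * (nm ((c : G) * u + (n : G) * v) : ℝ) ≤ x ^ 2 + (n : ℝ) ^ 2 := by
    rw [a3]; linarith only [pow_le_pow_left₀ h6.le h3 2]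
  have h8 : (1 : ℝ) ≤ nm ((c : G) * u + (n : G) * v) := by
    have : 0 < nm ((c : G) * u + (n : G) * v) := by
      by_contra h
      have h0 : nm ((c : G) * u + (n : G) * v) = 0 := by omega
      rw [h0] at a3
      simp only [Nat.cast_zero, mul_zero] at a3
      linarith only [a3, pow_pos h6 2, sq_nonneg (n : ℝ)]
    exact_mod_cast this
  exact ⟨ea_prod h8 (by linarith)
    (by linarith : (nm ((c : G) * u + (n : G) * v) : ℝ) * nm u ≤ x ^ 2 + (n : ℝ) ^ 2),
    ea_prod a4 (by linarith) h7⟩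

theorem ea_exp2log {ρ : ℝ} (h : 0 < ρ) : Real.exp (2 * Real.log ρ) = ρ ^ 2 := by
  rw [mul_comm, Real.exp_mul, Real.exp_log h]
  norm_cast

theorem ea_expsq (w : ℝ) : Real.exp w = Real.exp (w / 2) ^ 2 := by
  rw [← Real.exp_nat_mul]
  congr 1
  push_cast
  ring

/-- multiply an inequality between norms by `nm u` -/
theorem ea_mulR {k v a b : ℝ} (hv : 1 ≤ v) (h : v * a = b) : k * v ≤ a ↔ k * v ^ 2 ≤ b := by
  rw [← h]
  have hv0 : 0 < v := by linarith
  have e : k * v ^ 2 = v * (k * v) := by ring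
  rw [e]
  exact (mul_le_mul_iff_right₀ hv0).symm

theorem ea_mulL {k v a b : ℝ} (hv : 1 ≤ v) (h : v * a = b) : a < k * v ↔ b < k * v ^ 2 := by
  rw [← not_le, ← not_le, ea_mulR hv h]

/-- upper inclusion -/
theorem ea_sub_up (n : ℕ) (hn : 0 < n) (c : ℤ) (hc0 : c ≤ 0) (M : ℕ) (γ : G × G)
    (w0 w1 ρ0 ρ1 η x : ℝ) (hρ0 : n * ρ0 = Real.exp (w0 / 2) - c) (hρ1 : n * ρ1 = Real.exp (w1 / 2) - c)
    (hρ1' : 0 < ρ1) (hη : 0 < η) (hη0 : η < ρ0) (hH : 0 < (n : ℝ) + c / (ρ0 - η)) :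
    ENs n c M γ w0 w1 x ⊆ sml (ρ1 / η) ∪
      NE M γ (2 * Real.log (ρ0 - η)) (2 * Real.log (ρ1 + η)) (x / (n + c / (ρ0 - η))) := by
  rintro ⟨u, v⟩ ⟨h1, h2, h3, h4, h5, h6, h7⟩
  simp only at h1 h2 h3 h4 h5 h6 h7
  obtain ⟨a1, a2, a3, a4⟩ := ea_real n c u v h1
  have hn1 : (1 : ℝ) ≤ n := by exact_mod_cast hn
  have hc0' : (c : ℝ) ≤ 0 := by exact_mod_cast hc0
  have h4' : (0 : ℝ) < ((dot u ((c : G) * u + (n : G) * v) : ℤ) : ℝ) := by exact_mod_cast h4
  have hD0 : (0 : ℝ) < ((dot u v : ℤ) : ℝ) := by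
    rw [a1] at h4'
    by_contra hcon
    push Not at hcon
    have b1 : (c : ℝ) * nm u ≤ 0 := mul_nonpos_of_nonpos_of_nonneg hc0' (by linarith)
    have b2 : (n : ℝ) * ((dot u v : ℤ) : ℝ) ≤ 0 := mul_nonpos_of_nonneg_of_nonpos (by linarith) hcon
    linarith
  have hD0' : 0 < dot u v := by exact_mod_cast hD0
  by_cases hD : ((dot u v : ℤ) : ℝ) ≤ ρ1 / η
  · left
    exact ⟨h1, hD0', hD⟩
  · right
    push Not at hD
    rw [ea_mulR a4 a3, ea_expsq] at h6
    rw [ea_mulL a4 a3, ea_expsq] at h7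
    obtain ⟨b1, b2, b3⟩ := ea_up n c (Real.exp (w0 / 2)) (Real.exp (w1 / 2)) ρ0 ρ1 η (nm u)
      ((dot u v : ℤ) : ℝ) _ hn1 hc0' (Real.exp_pos _) hρ0 hρ1 hη hη0 hρ1' (Real.exp_pos _) a4 a1 h4'
      h6 h7 hD
    refine ⟨h1, hD0', ?_, ?_, ?_, h2, h3⟩
    · show ((dot u v : ℤ) : ℝ) ≤ x / (n + c / (ρ0 - η))
      rw [le_div_iff₀ hH]
      linarith
    · show Real.exp (2 * Real.log (ρ0 - η)) * (nm u : ℝ) ≤ (nm v : ℝ)
      rw [ea_exp2log (by linarith), ea_mulR a4 a2]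
      exact b1
    · show (nm v : ℝ) < Real.exp (2 * Real.log (ρ1 + η)) * (nm u : ℝ)
      rw [ea_exp2log (by linarith), ea_mulL a4 a2]
      exact b2

/-- lower inclusion -/
theorem ea_sub_low (n : ℕ) (hn : 0 < n) (c : ℤ) (hc0 : c ≤ 0) (M : ℕ) (γ : G × G)
    (w0 w1 ρ0 ρ1 η x : ℝ) (hρ0 : n * ρ0 = Real.exp (w0 / 2) - c) (hρ1 : n * ρ1 = Real.exp (w1 / 2) - c)
    (hρ0' : 0 < ρ0) (hη : 0 < η) (hη1 : η < ρ1) (hH : 0 < (n : ℝ) + c / ρ1) :
    NE M γ (2 * Real.log (ρ0 + η)) (2 * Real.log (ρ1 - η)) (x / (n + c / ρ1)) ⊆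
      sml (ρ1 / η) ∪ ENs n c M γ w0 w1 x := by
  rintro ⟨u, v⟩ ⟨h1, h2, h3, h4, h5, h6, h7⟩
  simp only at h1 h2 h3 h4 h5 h6 h7
  obtain ⟨a1, a2, a3, a4⟩ := ea_real n c u v h1
  have hn1 : (1 : ℝ) ≤ n := by exact_mod_cast hn
  have hc0' : (c : ℝ) ≤ 0 := by exact_mod_cast hc0
  have hD0 : (0 : ℝ) < ((dot u v : ℤ) : ℝ) := by exact_mod_cast h2
  by_cases hD : ((dot u v : ℤ) : ℝ) ≤ ρ1 / η
  · left
    exact ⟨h1, h2, hD⟩
  · right
    push Not at hD
    rw [ea_exp2log (by linarith), ea_mulR a4 a2] at h4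
    rw [ea_exp2log (by linarith), ea_mulL a4 a2] at h5
    obtain ⟨b1, b2, b3, b4⟩ := ea_low n c (Real.exp (w0 / 2)) (Real.exp (w1 / 2)) ρ0 ρ1 η (nm u)
      ((dot u v : ℤ) : ℝ) _ hn1 hc0' (Real.exp_pos _) hρ0 hρ1 hη hη1 hρ0' a4 a1 hD0 h4 h5 hD
    refine ⟨h1, h6, h7, ?_, ?_, ?_, ?_⟩
    · show 0 < dot u ((c : G) * u + (n : G) * v)
      exact_mod_cast b1
    · show ((dot u ((c : G) * u + (n : G) * v) : ℤ) : ℝ) ≤ x
      rw [le_div_iff₀ hH] at h3
      linarith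
    · show Real.exp w0 * (nm u : ℝ) ≤ (nm ((c : G) * u + (n : G) * v) : ℝ)
      rw [ea_mulR a4 a3, ea_expsq]
      exact b2
    · show (nm ((c : G) * u + (n : G) * v) : ℝ) < Real.exp w1 * (nm u : ℝ)
      rw [ea_mulL a4 a3, ea_expsq]
      exact b3

/-- scaled version of the hypothesis -/
theorem ea_scale (M : ℕ) (κ : ℝ) (γ : G × G)
    (hκ : ∀ s t : ℝ, s ≤ t →
      Tendsto (fun x : ℝ => ((NE M γ s t x).ncard : ℝ) / x) atTop (nhds (κ * (t - s))))
    (C : ℝ) (H : ℝ) (hH : 0 < H) (s t : ℝ) (hst : s ≤ t) :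
    Tendsto (fun x : ℝ => (C + ((NE M γ s t (x / H)).ncard : ℝ)) / x) atTop
      (nhds (κ * (t - s) / H)) := by
  have h1 : Tendsto (fun x : ℝ => x / H) atTop atTop := tendsto_id.atTop_div_const hH
  have h2 := ((hκ s t hst).comp h1).div_const H
  have h3 : Tendsto (fun x : ℝ => C / x) atTop (nhds 0) := tendsto_const_nhds.div_atTop tendsto_id
  have h4 := h3.add h2
  rw [zero_add] at h4
  refine h4.congr' ?_
  filter_upwards [eventually_gt_atTop 0] with x hx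
  simp only [Function.comp]
  field_simp

theorem ea_kappa (M : ℕ) (κ : ℝ) (γ : G × G)
    (hκ : ∀ s t : ℝ, s ≤ t →
      Tendsto (fun x : ℝ => ((NE M γ s t x).ncard : ℝ) / x) atTop (nhds (κ * (t - s)))) :
    0 ≤ κ := by
  have h1 := hκ 0 1 zero_le_one
  rw [sub_zero, mul_one] at h1
  apply ge_of_tendsto h1
  filter_upwards [eventually_gt_atTop 0] with x hx
  positivity

theorem ea_f {n c ρ ω : ℝ} (hρ : 0 < ρ) (e : n * ρ = ω - c) : n + c / ρ = ω / ρ := by
  rw [eq_div_iff hρ.ne', add_mul, div_mul_cancel₀ _ hρ.ne']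
  linarith only [e]

theorem ea_h2 {κ a b ω ρ : ℝ} (hω : 0 < ω) (hρ : 0 < ρ) :
    κ * (2 * a - 2 * b) / (ω / ρ) = κ * (2 * ρ / ω) * (a - b) := by
  field_simp

theorem ea_h3 {κ n c ω0 ω1 ρ0 ρ1 : ℝ} (hn : 0 < n) (hω : 0 < ω0) (hρ : 0 < ρ0)
    (e0 : n * ρ0 = ω0 - c) (e1 : n * ρ1 = ω1 - c) :
    κ * (2 / n) * (ω1 / ω0 - 1) = κ * (2 * ρ0 / ω0) * (ρ1 / ρ0 - 1) := by
  have h4 : ω1 - ω0 = n * (ρ1 - ρ0) := by rw [mul_sub, e0, e1]; ring
  have h5 : ω1 / ω0 - 1 = n * (ρ1 - ρ0) / ω0 := by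
    rw [← h4, sub_div, div_self hω.ne']
  rw [h5]
  field_simp

theorem ea_log {a b : ℝ} (ha : 0 < a) (hb : 0 < b) : Real.log a - Real.log b ≤ a / b - 1 := by
  rw [← Real.log_div ha.ne' hb.ne']
  exact Real.log_le_sub_one_of_pos (div_pos ha hb)

theorem ea_g1 {κ n c ω0 ω1 ρ0 ρ1 : ℝ} (hκ : 0 ≤ κ) (hn : 0 < n) (hω : 0 < ω0) (hρ : 0 < ρ0)
    (hρ1 : 0 < ρ1) (e0 : n * ρ0 = ω0 - c) (e1 : n * ρ1 = ω1 - c) :
    κ * (2 * Real.log ρ1 - 2 * Real.log ρ0) / (n + c / ρ0) ≤ κ * (2 / n) * (ω1 / ω0 - 1) := by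
  rw [ea_f hρ e0, ea_h2 hω hρ, ea_h3 hn hω hρ e0 e1]
  exact mul_le_mul_of_nonneg_left (ea_log hρ1 hρ)
    (mul_nonneg hκ (div_pos (mul_pos two_pos hρ) hω).le)

theorem ea_g2 {κ n c ω0 ω1 ρ0 ρ1 : ℝ} (hκ : 0 ≤ κ) (hn : 0 < n) (hω : 0 < ω1) (hρ : 0 < ρ0)
    (hρ1 : 0 < ρ1) (e0 : n * ρ0 = ω0 - c) (e1 : n * ρ1 = ω1 - c) :
    κ * (2 / n) * (1 - ω0 / ω1) ≤ κ * (2 * Real.log ρ1 - 2 * Real.log ρ0) / (n + c / ρ1) := by
  have h1 := ea_log hρ hρ1
  have h3 : κ * (2 / n) * (1 - ω0 / ω1) = κ * (2 * ρ1 / ω1) * (1 - ρ0 / ρ1) := by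
    have h := ea_h3 (κ := κ) (ω1 := ω0) (ρ1 := ρ0) hn hω hρ1 e1 e0
    linarith only [h]
  rw [ea_f hρ1 e1, ea_h2 hω hρ1, h3]
  exact mul_le_mul_of_nonneg_left (by linarith only [h1])
    (mul_nonneg hκ (div_pos (mul_pos two_pos hρ1) hω).le)

theorem ea_hup {κ n c ρ0 ρ1 T : ℝ} (hρ0 : 0 < ρ0) (hρ1 : 0 < ρ1) (hH : 0 < n + c / ρ0)
    (hT : κ * (2 * Real.log ρ1 - 2 * Real.log ρ0) / (n + c / ρ0) < T) :
    ∀ᶠ η : ℝ in nhds 0, κ * (2 * Real.log (ρ1 + η) - 2 * Real.log (ρ0 - η)) /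
      (n + c / (ρ0 - η)) < T := by
  have k1 : ρ1 + 0 ≠ 0 := by rw [add_zero]; exact hρ1.ne'
  have k2 : ρ0 - 0 ≠ 0 := by rw [sub_zero]; exact hρ0.ne'
  have k3 : n + c / (ρ0 - 0) ≠ 0 := by rw [sub_zero]; exact hH.ne'
  have k1' : ContinuousAt (fun η : ℝ => ρ1 + η) 0 := continuousAt_const.add continuousAt_id
  have k2' : ContinuousAt (fun η : ℝ => ρ0 - η) 0 := continuousAt_const.sub continuousAt_id
  have k4 : ContinuousAt (fun η : ℝ => κ * (2 * Real.log (ρ1 + η) - 2 * Real.log (ρ0 - η))) 0 :=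
    continuousAt_const.mul ((continuousAt_const.mul (ContinuousAt.log k1' k1)).sub
      (continuousAt_const.mul (ContinuousAt.log k2' k2)))
  have k5 : ContinuousAt (fun η : ℝ => n + c / (ρ0 - η)) 0 :=
    continuousAt_const.add (continuousAt_const.div k2' k2)
  have hcont : Tendsto (fun η : ℝ => κ * (2 * Real.log (ρ1 + η) - 2 * Real.log (ρ0 - η)) /
      (n + c / (ρ0 - η))) (nhds 0) (nhds (κ * (2 * Real.log (ρ1 + 0) - 2 * Real.log (ρ0 - 0)) /
      (n + c / (ρ0 - 0)))) := (k4.div k5 k3).tendsto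
  rw [add_zero, sub_zero] at hcont
  exact hcont.eventually (gt_mem_nhds hT)

theorem ea_hlow {κ n c ρ0 ρ1 T : ℝ} (hρ0 : 0 < ρ0) (hρ1 : 0 < ρ1)
    (hT : T < κ * (2 * Real.log ρ1 - 2 * Real.log ρ0) / (n + c / ρ1)) :
    ∀ᶠ η : ℝ in nhds 0, T <
      κ * (2 * Real.log (ρ1 - η) - 2 * Real.log (ρ0 + η)) / (n + c / ρ1) := by
  have k1 : ρ1 - 0 ≠ 0 := by rw [sub_zero]; exact hρ1.ne'
  have k2 : ρ0 + 0 ≠ 0 := by rw [add_zero]; exact hρ0.ne'
  have k1' : ContinuousAt (fun η : ℝ => ρ1 - η) 0 := continuousAt_const.sub continuousAt_id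
  have k2' : ContinuousAt (fun η : ℝ => ρ0 + η) 0 := continuousAt_const.add continuousAt_id
  have k4 : ContinuousAt (fun η : ℝ => κ * (2 * Real.log (ρ1 - η) - 2 * Real.log (ρ0 + η))) 0 :=
    continuousAt_const.mul ((continuousAt_const.mul (ContinuousAt.log k1' k1)).sub
      (continuousAt_const.mul (ContinuousAt.log k2' k2)))
  have hcont : Tendsto (fun η : ℝ => κ * (2 * Real.log (ρ1 - η) - 2 * Real.log (ρ0 + η)) /
      (n + c / ρ1)) (nhds 0) (nhds (κ * (2 * Real.log (ρ1 - 0) - 2 * Real.log (ρ0 + 0)) /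
      (n + c / ρ1))) := (k4.div_const (n + c / ρ1)).tendsto
  rw [add_zero, sub_zero] at hcont
  exact hcont.eventually (lt_mem_nhds hT)

theorem ea_hpos {n c ρ0 : ℝ} (hρ0 : 0 < ρ0) (hH : 0 < n + c / ρ0) :
    ∀ᶠ η : ℝ in nhds 0, 0 < n + c / (ρ0 - η) := by
  have k2 : ρ0 - 0 ≠ 0 := by rw [sub_zero]; exact hρ0.ne'
  have hcont : ContinuousAt (fun η : ℝ => n + c / (ρ0 - η)) 0 :=
    continuousAt_const.add (continuousAt_const.div (continuousAt_const.sub continuousAt_id) k2)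
  exact hcont.tendsto.eventually (lt_mem_nhds (by rw [sub_zero]; exact hH))

/-- a slice -/
theorem ea_slice (n : ℕ) (hn : 0 < n) (c : ℤ) (hc0 : c ≤ 0) (M : ℕ) (κ : ℝ) (γ : G × G)
    (hκ : ∀ s t : ℝ, s ≤ t →
      Tendsto (fun x : ℝ => ((NE M γ s t x).ncard : ℝ) / x) atTop (nhds (κ * (t - s))))
    (w0 w1 : ℝ) (hw : w0 < w1) (ε : ℝ) (hε : 0 < ε) :
    ∀ᶠ x : ℝ in atTop, ((ENs n c M γ w0 w1 x).ncard : ℝ) / x ≤
        κ * (2 / n) * (Real.exp ((w1 - w0) / 2) - 1) + ε ∧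
      κ * (2 / n) * (1 - Real.exp (-((w1 - w0) / 2))) - ε ≤ ((ENs n c M γ w0 w1 x).ncard : ℝ) / x := by
  have hn0 : (0 : ℝ) < n := by exact_mod_cast hn
  have hc0' : (c : ℝ) ≤ 0 := by exact_mod_cast hc0
  have hκ0 := ea_kappa M κ γ hκ
  obtain ⟨ω0, hω0⟩ : ∃ ω0 : ℝ, ω0 = Real.exp (w0 / 2) := ⟨_, rfl⟩
  obtain ⟨ω1, hω1⟩ : ∃ ω1 : ℝ, ω1 = Real.exp (w1 / 2) := ⟨_, rfl⟩
  have hω0' : 0 < ω0 := by rw [hω0]; exact Real.exp_pos _
  have hω1' : 0 < ω1 := by rw [hω1]; exact Real.exp_pos _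
  have hωω : ω0 < ω1 := by
    rw [hω0, hω1]
    apply Real.exp_lt_exp.2
    linarith
  obtain ⟨ρ0, hρ0⟩ : ∃ ρ0 : ℝ, ρ0 = (ω0 - c) / n := ⟨_, rfl⟩
  obtain ⟨ρ1, hρ1⟩ : ∃ ρ1 : ℝ, ρ1 = (ω1 - c) / n := ⟨_, rfl⟩
  have hρ0p : 0 < ρ0 := by rw [hρ0]; exact div_pos (by linarith only [hω0', hc0']) hn0
  have hρρ : ρ0 < ρ1 := by
    rw [hρ0, hρ1]
    exact div_lt_div_of_pos_right (by linarith only [hωω]) hn0
  have hρ1p : 0 < ρ1 := hρ0p.trans hρρ
  have e0 : n * ρ0 = ω0 - c := by rw [hρ0, mul_div_cancel₀ _ hn0.ne']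
  have e1 : n * ρ1 = ω1 - c := by rw [hρ1, mul_div_cancel₀ _ hn0.ne']
  have hH0 : 0 < (n : ℝ) + c / ρ0 := by rw [ea_f hρ0p e0]; exact div_pos hω0' hρ0p
  have hH1 : 0 < (n : ℝ) + c / ρ1 := by rw [ea_f hρ1p e1]; exact div_pos hω1' hρ1p
  have hexp1 : Real.exp ((w1 - w0) / 2) = ω1 / ω0 := by
    rw [hω0, hω1, ← Real.exp_sub, sub_div]
  have hexp2 : Real.exp (-((w1 - w0) / 2)) = ω0 / ω1 := by
    rw [hω0, hω1, ← Real.exp_sub, ← sub_div, ← neg_div, neg_sub]
  rw [hexp1, hexp2]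
  -- values at `η = 0`
  have g1 := ea_g1 hκ0 hn0 hω0' hρ0p hρ1p e0 e1
  have g2 := ea_g2 hκ0 hn0 hω1' hρ0p hρ1p e0 e1
  -- choice of `η`
  have hup := ea_hup (κ := κ) hρ0p hρ1p hH0 (lt_add_of_pos_right _ (half_pos hε))
  have hlow := ea_hlow (κ := κ) (n := (n : ℝ)) (c := (c : ℝ)) hρ0p hρ1p (sub_lt_self _ (half_pos hε))
  have hpos := ea_hpos hρ0p hH0
  have hsmall : ∀ᶠ η : ℝ in nhds 0, η < ρ0 := gt_mem_nhds hρ0p
  have hsmall2 : ∀ᶠ η : ℝ in nhds 0, η < (ρ1 - ρ0) / 2 := gt_mem_nhds (by linarith only [hρρ])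
  obtain ⟨η, ⟨⟨⟨⟨q1, q2⟩, q3⟩, q4⟩, q5⟩, q6⟩ := ((((hup.and hlow).and hpos).and hsmall).and
    hsmall2).filter_mono nhdsWithin_le_nhds |>.and (self_mem_nhdsWithin (s := Set.Ioi (0:ℝ)))
    |>.exists
  have hη : 0 < η := q6
  have hη1 : η < ρ1 := by linarith only [q4, hρρ]
  -- limits
  have l1 := ea_scale M κ γ hκ ((sml (ρ1 / η)).ncard : ℝ) _ q3 (2 * Real.log (ρ0 - η))
    (2 * Real.log (ρ1 + η)) (mul_le_mul_of_nonneg_left (Real.log_le_log
      (by linarith only [q4]) (by linarith only [hρρ, hη])) zero_le_two)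
  have l2 := ea_scale M κ γ hκ (-((sml (ρ1 / η)).ncard : ℝ)) _ hH1 (2 * Real.log (ρ0 + η))
    (2 * Real.log (ρ1 - η)) (mul_le_mul_of_nonneg_left (Real.log_le_log
      (by linarith only [hρ0p, hη]) (by linarith only [q5])) zero_le_two)
  have m1 := l1.eventually (gt_mem_nhds (q1.trans_le (add_le_add_left g1 (ε / 2))))
  have m2 := l2.eventually (lt_mem_nhds (lt_of_le_of_lt (sub_le_sub_right g2 (ε / 2)) q2))
  filter_upwards [m1, m2, eventually_gt_atTop 0] with x hx1 hx2 hx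
  constructor
  · have h1 := Set.ncard_le_ncard (ea_sub_up n hn c hc0 M γ w0 w1 ρ0 ρ1 η x
      (by rw [← hω0]; exact e0) (by rw [← hω1]; exact e1) hρ1p hη q4 q3)
      ((sml_finite _).union (NE_finite _ _ _ _ _))
    have h2 : ((ENs n c M γ w0 w1 x).ncard : ℝ) ≤ (sml (ρ1 / η)).ncard +
        (NE M γ (2 * Real.log (ρ0 - η)) (2 * Real.log (ρ1 + η)) (x / (n + c / (ρ0 - η)))).ncard := by
      exact_mod_cast h1.trans (Set.ncard_union_le _ _)
    have h3 := div_le_div_of_nonneg_right h2 hx.le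
    linarith only [h3, hx1, hε]
  · have h1 := Set.ncard_le_ncard (ea_sub_low n hn c hc0 M γ w0 w1 ρ0 ρ1 η x
      (by rw [← hω0]; exact e0) (by rw [← hω1]; exact e1) hρ0p hη hη1 hH1)
      ((sml_finite _).union (ENs_finite n hn _ _ _ _ _ _))
    have h2 : ((NE M γ (2 * Real.log (ρ0 + η)) (2 * Real.log (ρ1 - η)) (x / (n + c / ρ1))).ncard : ℝ)
        ≤ (sml (ρ1 / η)).ncard + (ENs n c M γ w0 w1 x).ncard := by
      exact_mod_cast h1.trans (Set.ncard_union_le _ _)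
    have h2' : -((sml (ρ1 / η)).ncard : ℝ) +
        (NE M γ (2 * Real.log (ρ0 + η)) (2 * Real.log (ρ1 - η)) (x / (n + c / ρ1))).ncard ≤
        (ENs n c M γ w0 w1 x).ncard := by linarith only [h2]
    have h3 := div_le_div_of_nonneg_right h2' hx.le
    linarith only [h3, hx2, hε]

/-- a set is the disjoint union of slices -/
theorem ea_split (n : ℕ) (hn : 0 < n) (c : ℤ) (M : ℕ) (γ : G × G) (w : ℕ → ℝ) (hw : Monotone w)
    (x : ℝ) (K : ℕ) : (ENs n c M γ (w 0) (w K) x).ncard =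
      ∑ i ∈ range K, (ENs n c M γ (w i) (w (i + 1)) x).ncard := by
  induction K with
  | zero =>
    have : ENs n c M γ (w 0) (w 0) x = ∅ := by
      apply Set.eq_empty_of_forall_notMem
      rintro e ⟨-, -, -, -, -, h6, h7⟩
      exact absurd h6 (not_le.2 h7)
    rw [this]
    simp
  | succ K ih =>
    rw [Finset.sum_range_succ, ← ih]
    have h1 : ENs n c M γ (w 0) (w (K + 1)) x = ENs n c M γ (w 0) (w K) x ∪
        ENs n c M γ (w K) (w (K + 1)) x := by
      ext e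
      constructor
      · rintro ⟨h1, h2, h3, h4, h5, h6, h7⟩
        by_cases h : (nm ((c : G) * e.1 + (n : G) * e.2) : ℝ) < Real.exp (w K) * (nm e.1 : ℝ)
        · left
          exact ⟨h1, h2, h3, h4, h5, h6, h⟩
        · right
          exact ⟨h1, h2, h3, h4, h5, not_lt.1 h, h7⟩
      · have k1 : Real.exp (w 0) * (nm e.1 : ℝ) ≤ Real.exp (w K) * (nm e.1 : ℝ) :=
          mul_le_mul_of_nonneg_right (Real.exp_le_exp.2 (hw (Nat.zero_le _))) (Nat.cast_nonneg _)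
        have k2 : Real.exp (w K) * (nm e.1 : ℝ) ≤ Real.exp (w (K + 1)) * (nm e.1 : ℝ) :=
          mul_le_mul_of_nonneg_right (Real.exp_le_exp.2 (hw (Nat.le_succ _))) (Nat.cast_nonneg _)
        rintro (⟨h1, h2, h3, h4, h5, h6, h7⟩ | ⟨h1, h2, h3, h4, h5, h6, h7⟩)
        · exact ⟨h1, h2, h3, h4, h5, h6, h7.trans_le k2⟩
        · exact ⟨h1, h2, h3, h4, h5, k1.trans h6, h7⟩
    have h2 : Disjoint (ENs n c M γ (w 0) (w K) x) (ENs n c M γ (w K) (w (K + 1)) x) := by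
      rw [Set.disjoint_left]
      rintro e ⟨-, -, -, -, -, -, h7⟩ ⟨-, -, -, -, -, h6, -⟩
      exact absurd h6 (not_le.2 h7)
    rw [h1, Set.ncard_union_eq h2 (ENs_finite n hn _ _ _ _ _ _) (ENs_finite n hn _ _ _ _ _ _)]

theorem ea_fin1 {K A e y ε δ N T : ℝ} (h5 : K * (A * (1 - e) - δ) ≤ N)
    (h7 : K * (A * (y - y ^ 2)) ≤ K * (A * (1 - e))) (hKy : K * (A * y) = T)
    (hKy2 : K * (A * y ^ 2) ≤ ε / 2) (hKe : K * δ = ε / 4) (hε : 0 < ε) : -ε < N - T := by
  linarith only [h5, h7, hKy, hKy2, hKe, hε]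

theorem ea_fin2 {K A e y ε δ N T : ℝ} (h4 : N ≤ K * (A * (e - 1) + δ))
    (h6 : K * (A * (e - 1)) ≤ K * (A * (y + y ^ 2))) (hKy : K * (A * y) = T)
    (hKy2 : K * (A * y ^ 2) ≤ ε / 2) (hKe : K * δ = ε / 4) (hε : 0 < ε) : N - T < ε := by
  linarith only [h4, h6, hKy, hKy2, hKe, hε]

theorem ea_hexp1 {y : ℝ} (hy0 : 0 < y) (hy1 : y ≤ 1) : Real.exp y - 1 ≤ y + y ^ 2 := by
  have h := (abs_le.1 (Real.abs_exp_sub_one_sub_id_le (x := y)
    (by rw [abs_of_pos hy0]; exact hy1))).2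
  linarith only [h]

theorem ea_hexp2 {y : ℝ} (hy0 : 0 < y) (hy1 : y ≤ 1) : y - y ^ 2 ≤ 1 - Real.exp (-y) := by
  have h := (abs_le.1 (Real.abs_exp_sub_one_sub_id_le (x := -y)
    (by rw [abs_neg, abs_of_pos hy0]; exact hy1))).2
  rw [neg_sq] at h
  linarith only [h]

theorem ea_Ky {K κ L n y : ℝ} (hK : 0 < K) (hn : 0 < n) (hy : y = L / K / 2) :
    K * (κ * (2 / n) * y) = κ * L / n := by
  rw [hy]
  field_simp

theorem ea_Ky2 {K κ L n y ε : ℝ} (hK : 0 < K) (hn : 0 < n) (hε : 0 < ε) (hy : y = L / K / 2)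
    (hK2 : κ * L ^ 2 / (n * ε) < K) : K * (κ * (2 / n) * y ^ 2) ≤ ε / 2 := by
  have e : K * (κ * (2 / n) * y ^ 2) = κ * L ^ 2 / n / (2 * K) := by
    rw [hy]
    field_simp
  rw [e, div_le_iff₀ (mul_pos two_pos hK), div_le_iff₀ hn]
  rw [div_lt_iff₀ (mul_pos hn hε)] at hK2
  linarith only [hK2]

/-- PROOF. For such `e` put `v = nm e.1`, `D = dot e.1 e.2`, `V' = c e.1 + n e.2`, `m = dot e.1 V' = c v + n D`. As `m > 0` and `c ≤ 0`, `D > 0`.
`dot_sq_add_det_sq`: `nm e.2 * v = D^2 + 1`, `nm V' * v = m^2 + n^2` (`det e.1 V' = n`). Let `r = log (nm e.2 / v)`, so `v = sqrt (D^2+1) exp (-r/2)` and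
`m = n D + c sqrt (D^2+1) exp (-r/2)`; for large `D`: `m = D (n + c exp (-r/2)) (1 + o(1))`, and the condition
`exp s * v^2 ≤ m^2 + n^2 < exp t * v^2` says `2 log (c + n exp (r/2)) ∈ [s, t)` up to `o(1)`, i.e. `r ∈ [R1, R2)` up to `o(1)`,
`R1 = 2 log ((exp (s/2) - c)/n)`, `R2 = 2 log ((exp (t/2) - c)/n)` (`- c ≥ 0`). In this range `n + c exp (-r/2) = exp (-r/2) (n exp (r/2) + c)` is positive and
nondecreasing in `r`. Cut `[R1, R2)` into `K` equal slices `[r_i, r_(i+1))`. In a slice (and `D ≥ D0`) the condition `m ≤ x` follows from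
`D ≤ x / ((n + c exp (-r_(i+1)/2)) (1 + η))` and implies `D ≤ x / ((n + c exp (-r_i/2)) (1 - η))`; `hκ` counts the edges of a slice with `D ≤ Y`:
`~ κ (r_(i+1) - r_i) Y`. Edges with `D < D0` and `r` in a bounded interval are finitely many. The two boundary slices (around `R1`, `R2`, of width `η`)
contribute `≤ C η x`. So the limit is `κ ∫_(R1)^(R2) dr / (n + c exp (-r/2)) = κ [(2/n) log (n exp (r/2) + c)]_(R1)^(R2) = κ (t - s) / n`
(derivative of `(2/n) log (n exp (r/2) + c)` is `exp (r/2)/(n exp (r/2) + c)`). `κ ≥ 0` as a limit of nonnegative numbers. -/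
theorem eqnA (n : ℕ) (hn : 0 < n) (c : ℤ) (hc : -(n : ℤ) < c) (hc0 : c ≤ 0) (M : ℕ) (hM : 0 < M) (κ : ℝ)
    (hκ : ∀ γ : G × G, (M : ℤ) ∣ det γ.1 γ.2 - 1 → ∀ s t : ℝ, s ≤ t →
      Tendsto (fun x : ℝ => ((NE M γ s t x).ncard : ℝ) / x) atTop (nhds (κ * (t - s))))
    (γ : G × G) (hγ : (M : ℤ) ∣ det γ.1 γ.2 - 1) (s t : ℝ) (hst : s ≤ t) :
    Tendsto (fun x : ℝ => ({e : G × G | det e.1 e.2 = 1 ∧ cg M e.1 γ.1 ∧ cg M e.2 γ.2 ∧
        0 < dot e.1 ((c : G) * e.1 + (n : G) * e.2) ∧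
        ((dot e.1 ((c : G) * e.1 + (n : G) * e.2) : ℤ) : ℝ) ≤ x ∧
        Real.exp s * (nm e.1 : ℝ) ≤ (nm ((c : G) * e.1 + (n : G) * e.2) : ℝ) ∧
        (nm ((c : G) * e.1 + (n : G) * e.2) : ℝ) < Real.exp t * (nm e.1 : ℝ)}.ncard : ℝ) / x) atTop
      (nhds (κ * (t - s) / n)) := by
  show Tendsto (fun x : ℝ => ((ENs n c M γ s t x).ncard : ℝ) / x) atTop (nhds (κ * (t - s) / n))
  have hn0 : (0 : ℝ) < n := by exact_mod_cast hn
  have hκ' := hκ γ hγ
  have hκ0 := ea_kappa M κ γ hκ'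
  rcases eq_or_lt_of_le hst with h | hst
  · have h0 : ∀ x, ENs n c M γ s t x = ∅ := by
      intro x
      apply Set.eq_empty_of_forall_notMem
      rintro e ⟨-, -, -, -, -, h6, h7⟩
      rw [h] at h6
      exact absurd h6 (not_le.2 h7)
    subst h
    simp [h0]
  rw [Metric.tendsto_atTop']
  intro ε hε
  obtain ⟨L, hL⟩ : ∃ L : ℝ, L = t - s := ⟨_, rfl⟩
  have hL0 : 0 < L := by rw [hL]; exact sub_pos.2 hst
  -- number of slices
  obtain ⟨K, hK⟩ := exists_nat_gt (max L (κ * L ^ 2 / (n * ε)))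
  have hK1 : L < K := (le_max_left _ _).trans_lt hK
  have hK2 : κ * L ^ 2 / (n * ε) < K := (le_max_right _ _).trans_lt hK
  have hK0 : (0 : ℝ) < K := hL0.trans hK1
  obtain ⟨y, hy⟩ : ∃ y : ℝ, y = L / K / 2 := ⟨_, rfl⟩
  have hy0 : 0 < y := by rw [hy]; exact half_pos (div_pos hL0 hK0)
  have hy1 : y ≤ 1 := by
    have : L / K < 1 := by rw [div_lt_one hK0]; exact hK1
    rw [hy]
    linarith only [this]
  have hexp1 := ea_hexp1 hy0 hy1
  have hexp2 := ea_hexp2 hy0 hy1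
  obtain ⟨w, hw⟩ : ∃ w : ℕ → ℝ, w = fun i : ℕ => s + i * (L / K) := ⟨_, rfl⟩
  have hwm : Monotone w := by
    intro i j hij
    rw [hw]
    exact add_le_add_right (mul_le_mul_of_nonneg_right (Nat.cast_le.2 hij)
      (div_pos hL0 hK0).le) s
  have hw0 : w 0 = s := by rw [hw]; simp
  have hwK : w K = t := by
    rw [hw]
    simp only
    rw [mul_div_cancel₀ _ hK0.ne', hL]
    exact add_sub_cancel _ _
  have hwd : ∀ i, (w (i + 1) - w i) / 2 = y := fun i => by
    rw [hw, hy]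
    simp only [Nat.cast_add, Nat.cast_one]
    ring
  have hwd' : ∀ i, w i < w (i + 1) := fun i => by
    have := hwd i
    linarith only [this, hy0]
  have hεK : 0 < ε / (4 * K) := div_pos hε (mul_pos four_pos hK0)
  have hev : ∀ᶠ x : ℝ in atTop, ∀ i ∈ range K, ((ENs n c M γ (w i) (w (i + 1)) x).ncard : ℝ) / x ≤
        κ * (2 / n) * (Real.exp y - 1) + ε / (4 * K) ∧
      κ * (2 / n) * (1 - Real.exp (-y)) - ε / (4 * K) ≤
        ((ENs n c M γ (w i) (w (i + 1)) x).ncard : ℝ) / x := by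
    rw [Filter.eventually_all_finset]
    intro i _
    have := ea_slice n hn c hc0 M κ γ hκ' (w i) (w (i + 1)) (hwd' i) (ε / (4 * K)) hεK
    rw [hwd i] at this
    exact this
  obtain ⟨X0, hX0⟩ := (hev.and (eventually_gt_atTop (0:ℝ))).exists_forall_of_atTop
  refine ⟨X0, fun x hx => ?_⟩
  obtain ⟨h1, hx0⟩ := hX0 x (le_of_lt hx)
  have h2 := ea_split n hn c M γ w hwm x K
  rw [hw0, hwK] at h2
  have h3 : ((ENs n c M γ s t x).ncard : ℝ) / x =
      ∑ i ∈ range K, ((ENs n c M γ (w i) (w (i + 1)) x).ncard : ℝ) / x := by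
    rw [h2]
    push_cast
    rw [Finset.sum_div]
  have h4 : ((ENs n c M γ s t x).ncard : ℝ) / x ≤ K * (κ * (2 / n) * (Real.exp y - 1) + ε / (4 * K)) := by
    rw [h3]
    calc _ ≤ ∑ i ∈ range K, (κ * (2 / n) * (Real.exp y - 1) + ε / (4 * K)) :=
          Finset.sum_le_sum fun i hi => (h1 i hi).1
      _ = _ := by rw [Finset.sum_const, Finset.card_range, nsmul_eq_mul]
  have h5 : K * (κ * (2 / n) * (1 - Real.exp (-y)) - ε / (4 * K)) ≤ ((ENs n c M γ s t x).ncard : ℝ) / x := by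
    rw [h3]
    calc _ = ∑ i ∈ range K, (κ * (2 / n) * (1 - Real.exp (-y)) - ε / (4 * K)) := by
          rw [Finset.sum_const, Finset.card_range, nsmul_eq_mul]
      _ ≤ _ := Finset.sum_le_sum fun i hi => (h1 i hi).2
  -- main terms
  have hKy := ea_Ky (κ := κ) hK0 hn0 hy
  have hKy2 := ea_Ky2 hK0 hn0 hε hy hK2
  have hKe : K * (ε / (4 * K)) = ε / 4 := by
    rw [mul_div_assoc', mul_comm (4 : ℝ), mul_div_mul_left _ _ hK0.ne']
  have hA : 0 ≤ κ * (2 / n) := mul_nonneg hκ0 (div_pos two_pos hn0).le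
  have h6 : K * (κ * (2 / n) * (Real.exp y - 1)) ≤ K * (κ * (2 / n) * (y + y ^ 2)) :=
    mul_le_mul_of_nonneg_left (mul_le_mul_of_nonneg_left hexp1 hA) hK0.le
  have h7 : K * (κ * (2 / n) * (y - y ^ 2)) ≤ K * (κ * (2 / n) * (1 - Real.exp (-y))) :=
    mul_le_mul_of_nonneg_left (mul_le_mul_of_nonneg_left hexp2 hA) hK0.le
  rw [Real.dist_eq, abs_lt, ← hL]
  exact ⟨ea_fin1 h5 h7 hKy hKy2 hKe hε, ea_fin2 h4 h6 hKy hKy2 hKe hε⟩

end Pool.Agent.OmEq

end

/-! ### from `Lib_MP_f1a94e_aq.Left` -/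

section

/-!
# Piece LEFT: edges in a small cone
-/

set_option autoImplicit false

namespace Pool.Agent.OmAll

open Finset Pool.Agent.GaussMR

private lemma left_nm_pos {V V' : G} (h : det V V' = 1) : 0 < nm V := by
  apply nm_pos
  rintro rfl
  simp [det] at h

private lemma left_prod {V V' : G} (h : det V V' = 1) :
    (nm V : ℝ) * (nm V' : ℝ) = ((dot V V' : ℤ) : ℝ) ^ 2 + 1 := by
  have h4 := dot_sq_add_det_sq V V'
  rw [h] at h4
  have : ((dot V V' : ℤ) : ℝ) ^ 2 + 1 ^ 2 = ((nm V : ℤ) : ℝ) * ((nm V' : ℤ) : ℝ) := by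
    exact_mod_cast h4
  push_cast at this
  linarith

private lemma left_finite (V : G) (b : ℝ) :
    ({V' : G | det V V' = 1 ∧ 0 ≤ ((dot V V' : ℤ) : ℝ) ∧ ((dot V V' : ℤ) : ℝ) ≤ b}).Finite := by
  apply (finite_ball (b ^ 2 + 1)).subset
  rintro V' ⟨h1, h2, h3⟩
  have h4 := left_prod h1
  have h5 : (1 : ℝ) ≤ nm V := by exact_mod_cast left_nm_pos h1
  show (nm V' : ℝ) ≤ b ^ 2 + 1
  have h6 : (0 : ℝ) ≤ nm V' := by positivity
  nlinarith

private lemma left_aux1 {N D x E : ℝ} (h8 : 0 < D) (h3 : D ≤ x) (hx : 1 ≤ x)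
    (h : N * (E * N) ≤ D ^ 2 + 1) : E * N ^ 2 ≤ (2 * x) ^ 2 := by
  have h1 : D * D ≤ x * x := mul_self_le_mul_self h8.le h3
  have h2 : 1 * 1 ≤ x * x := mul_self_le_mul_self zero_le_one hx
  linarith only [h, h1, h2, mul_self_nonneg x]

private lemma left_aux2 (a b : ℤ) : (a - b) ^ 2 + (a + b) ^ 2 = 2 * (a ^ 2 + b ^ 2) := by ring

private lemma left_aux3 {N D T N' : ℝ} (h1 : N' ≤ T * N) (h2 : 1 ≤ N) (h3 : N * N' = D ^ 2 + 1) :
    D ^ 2 ≤ T * N ^ 2 := by
  have h4 := mul_le_mul_of_nonneg_left h1 (show 0 ≤ N by linarith only [h2])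
  linarith only [h4, h3]

private lemma left_aux4 {r : ℝ} (h : 0 < r) : r ^ 2 ≤ (r + 1) ^ 2 := by linarith only [h]
private lemma left_aux5 {r : ℝ} (h : 0 < r) : 2 * r ≤ (r + 1) ^ 2 := by
  linarith only [h, sq_nonneg r]
private lemma left_aux6 {r : ℝ} (h : 0 < r) : 1 ≤ (r + 1) ^ 2 := by linarith only [h, sq_nonneg r]

private lemma left_ll (α β : ℤ) (u v : G) :
    ll ((α : G) * u + (β : G) * v) = α * ll u + β * ll v := by
  unfold ll
  simp
  ring

/-- `nm V ^ 2 e^s ≤ nm V nm V' = m^2 + 1 ≤ x^2 + 1`, so `nm V ≤ e^(-s/2) (x + 1)`, and `ll V ≤ 2 √(nm V) ≤ R = C √x`. `V = α u + β v` with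
`α ll u + β ll v ≤ R`, so `α ≤ R / ll u`, `β ≤ R / ll v`: at most `(R/ll u + 1)(R/ll v + 1) ≤ R^2/(ll u ll v) + 2 R + 1` vectors `V` (`ll ≥ 1`). For each `V`
at most `e^(t/2) + 1` edges (`m < e^(t/2) nm V`; `edges_fixed` in Tail.lean). `C` depends on `s` and `t` only. -/
theorem left (s t : ℝ) : ∃ C : ℝ, 0 < C ∧ ∀ (M : ℕ) (γ : G × G) (u v : G), Fr u v → ∀ x : ℝ, 1 ≤ x →
    ({e : G × G | e ∈ NE M γ s t x ∧ e.1 ∈ cone u v}.ncard : ℝ) ≤
      C * (x / ((ll u : ℝ) * ll v) + Real.sqrt x + 1) := by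
  classical
  set K : ℝ := Real.exp (t / 2) + 1 with hK
  set r : ℝ := 2 * Real.exp (-s / 4) with hr
  have hK0 : 0 < K := by positivity
  have hr0 : 0 < r := by positivity
  refine ⟨K * (r + 1) ^ 2, by positivity, ?_⟩
  intro M γ u v huv x hx
  have hfin : ({e : G × G | e ∈ NE M γ s t x ∧ e.1 ∈ cone u v}).Finite :=
    (NE_finite M γ s t x).subset (fun e he => he.1)
  set E := hfin.toFinset with hE
  have hEcard : ({e : G × G | e ∈ NE M γ s t x ∧ e.1 ∈ cone u v}).ncard = E.card :=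
    Set.ncard_eq_toFinset_card _ hfin
  rw [hEcard]
  have hu : (1 : ℝ) ≤ ll u := by exact_mod_cast ll_pos huv
  have hv : (1 : ℝ) ≤ ll v := by exact_mod_cast ll_pos huv.swap
  set R : ℝ := r * Real.sqrt x with hR
  have hx0 : 0 ≤ Real.sqrt x := Real.sqrt_nonneg x
  have hR0 : 0 ≤ R := by positivity
  have hsq : Real.sqrt x ^ 2 = x := Real.sq_sqrt (by linarith)
  set Vs : Finset G := (range (⌊R / ll u⌋₊ + 1) ×ˢ range (⌊R / ll v⌋₊ + 1)).image
    (fun w : ℕ × ℕ => (((w.1 : ℤ) : G)) * u + (((w.2 : ℤ) : G)) * v) with hVs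
  have hmem : ∀ e ∈ E, e.1 ∈ Vs := by
    intro e he
    rw [hE, Set.Finite.mem_toFinset] at he
    obtain ⟨⟨h1, h2, h3, h4, h5, -, -⟩, α, β, hV, hα, hβ⟩ := he
    have h6 := left_prod h1
    have h7 : (1 : ℝ) ≤ nm e.1 := by exact_mod_cast left_nm_pos h1
    have h8 : (0 : ℝ) < ((dot e.1 e.2 : ℤ) : ℝ) := by exact_mod_cast h2
    -- the norm
    have h9 : Real.exp s * (nm e.1 : ℝ) ^ 2 ≤ (2 * x) ^ 2 := by
      have this : (nm e.1 : ℝ) * (Real.exp s * (nm e.1 : ℝ)) ≤ (nm e.1 : ℝ) * (nm e.2 : ℝ) :=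
        mul_le_mul_of_nonneg_left h4 (by linarith only [h7])
      rw [h6] at this
      exact left_aux1 h8 h3 hx this
    have h10 : Real.exp (s / 2) * (nm e.1 : ℝ) ≤ 2 * x := by
      have e1 : (Real.exp (s / 2) * (nm e.1 : ℝ)) ^ 2 ≤ (2 * x) ^ 2 := by
        have : Real.exp (s / 2) ^ 2 = Real.exp s := by
          rw [← Real.exp_nat_mul]; congr 1; push_cast; ring
        rw [mul_pow, this]; exact h9
      exact le_of_sq_le_sq e1 (by linarith)
    have h11 : (nm e.1 : ℝ) ≤ 2 * Real.exp (-s / 2) * x := by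
      have e1 : Real.exp (-s / 2) * Real.exp (s / 2) = 1 := by
        rw [← Real.exp_add]; ring_nf; exact Real.exp_zero
      have e2 := mul_le_mul_of_nonneg_left h10 (Real.exp_pos (-s / 2)).le
      calc (nm e.1 : ℝ) = Real.exp (-s / 2) * (Real.exp (s / 2) * (nm e.1 : ℝ)) := by
            rw [← mul_assoc, e1, one_mul]
        _ ≤ Real.exp (-s / 2) * (2 * x) := e2
        _ = 2 * Real.exp (-s / 2) * x := by ring
    have hll : ((ll e.1 : ℤ) : ℝ) ≤ R := by
      have e1 : ((ll e.1 : ℤ) : ℝ) ^ 2 ≤ 2 * (nm e.1 : ℝ) := by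
        have : (ll e.1) ^ 2 ≤ 2 * (nm e.1 : ℤ) := by
          rw [nm_eq]
          unfold ll
          linarith only [sq_nonneg (e.1.re - e.1.im), left_aux2 e.1.re e.1.im]
        exact_mod_cast this
      have e2 : R ^ 2 = 4 * Real.exp (-s / 2) * x := by
        have : Real.exp (-s / 4) ^ 2 = Real.exp (-s / 2) := by
          rw [← Real.exp_nat_mul]; congr 1; push_cast; ring
        rw [hR, hr, mul_pow, mul_pow, this, hsq]; ring
      have e3 : ((ll e.1 : ℤ) : ℝ) ^ 2 ≤ R ^ 2 := by rw [e2]; linarith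
      exact le_of_sq_le_sq e3 hR0
    have hlin : ((ll e.1 : ℤ) : ℝ) = α * ll u + β * ll v := by
      rw [hV, left_ll]; push_cast; ring
    have hα' : (0 : ℝ) ≤ α := by exact_mod_cast hα
    have hβ' : (0 : ℝ) ≤ β := by exact_mod_cast hβ
    rw [hlin] at hll
    obtain ⟨a, rfl⟩ := Int.eq_ofNat_of_zero_le hα
    obtain ⟨b, rfl⟩ := Int.eq_ofNat_of_zero_le hβ
    rw [hVs]
    refine Finset.mem_image.2 ⟨(a, b), ?_, hV.symm⟩
    rw [Finset.mem_product, Finset.mem_range, Finset.mem_range]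
    push_cast at hll
    constructor
    · apply Nat.lt_succ_of_le
      apply Nat.le_floor
      rw [le_div_iff₀ (by linarith)]
      have : (0 : ℝ) ≤ (b : ℝ) * ll v := by positivity
      linarith
    · apply Nat.lt_succ_of_le
      apply Nat.le_floor
      rw [le_div_iff₀ (by linarith)]
      have : (0 : ℝ) ≤ (a : ℝ) * ll u := by positivity
      linarith
  have hfib : ∀ V ∈ Vs, (E.filter (fun e => e.1 = V)).card ≤ ⌊K⌋₊ := by
    intro V _
    apply Nat.le_floor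
    set b : ℝ := Real.exp (t / 2) * nm V with hb
    have hb0 : 0 ≤ b := by positivity
    have h1 := edges_fixed V 0 b hb0
    have h2 : (E.filter (fun e => e.1 = V)).card ≤
        ({V' : G | det V V' = 1 ∧ 0 ≤ ((dot V V' : ℤ) : ℝ) ∧ ((dot V V' : ℤ) : ℝ) ≤ b}).ncard := by
      rw [← Set.ncard_coe_finset]
      apply Set.ncard_le_ncard_of_injOn (fun e : G × G => e.2) ?_ ?_ (left_finite V b)
      · intro e he
        rw [Finset.mem_coe, Finset.mem_filter, hE, Set.Finite.mem_toFinset] at he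
        obtain ⟨⟨⟨g1, g2, g3, g4, g5, -, -⟩, -⟩, g6⟩ := he
        subst g6
        have g7 := left_prod g1
        have g8 : (1 : ℝ) ≤ nm e.1 := by exact_mod_cast left_nm_pos g1
        have g9 : (0 : ℝ) < ((dot e.1 e.2 : ℤ) : ℝ) := by exact_mod_cast g2
        refine ⟨g1, g9.le, ?_⟩
        have g10 : ((dot e.1 e.2 : ℤ) : ℝ) ^ 2 ≤ b ^ 2 := by
          have : Real.exp (t / 2) ^ 2 = Real.exp t := by
            rw [← Real.exp_nat_mul]; congr 1; push_cast; ring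
          rw [hb, mul_pow, this]
          exact left_aux3 g5.le g8 g7
        exact le_of_sq_le_sq g10 hb0
      · intro e he e' he' hee
        rw [Finset.mem_coe, Finset.mem_filter] at he he'
        exact Prod.ext (he.2.trans he'.2.symm) hee
    have h3 : (b - 0) / nm V ≤ Real.exp (t / 2) := by
      rcases Nat.eq_zero_or_pos (nm V) with h | h
      · rw [h]; simp; positivity
      · have : (0 : ℝ) < nm V := by exact_mod_cast h
        rw [sub_zero, hb, mul_div_assoc, div_self this.ne', mul_one]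
    have h4 : ((E.filter (fun e => e.1 = V)).card : ℝ) ≤
        (({V' : G | det V V' = 1 ∧ 0 ≤ ((dot V V' : ℤ) : ℝ) ∧
          ((dot V V' : ℤ) : ℝ) ≤ b}).ncard : ℝ) := by exact_mod_cast h2
    rw [hK]
    linarith
  have h1 := Finset.card_le_mul_card_image_of_maps_to hmem ⌊K⌋₊ hfib
  have h2 : Vs.card ≤ (⌊R / ll u⌋₊ + 1) * (⌊R / ll v⌋₊ + 1) := by
    refine Finset.card_image_le.trans ?_
    rw [Finset.card_product, Finset.card_range, Finset.card_range]
  have h3 : (Vs.card : ℝ) ≤ (R / ll u + 1) * (R / ll v + 1) := by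
    have e1 : (⌊R / ll u⌋₊ : ℝ) ≤ R / ll u := Nat.floor_le (by positivity)
    have e2 : (⌊R / ll v⌋₊ : ℝ) ≤ R / ll v := Nat.floor_le (by positivity)
    have e3 : (Vs.card : ℝ) ≤ ((⌊R / ll u⌋₊ : ℝ) + 1) * ((⌊R / ll v⌋₊ : ℝ) + 1) := by
      exact_mod_cast h2
    refine e3.trans ?_
    gcongr
  have h4 : (E.card : ℝ) ≤ (⌊K⌋₊ : ℝ) * Vs.card := by exact_mod_cast h1
  have h5 : (⌊K⌋₊ : ℝ) ≤ K := Nat.floor_le hK0.le
  have h6 : (R / ll u + 1) * (R / ll v + 1) ≤
      (r + 1) ^ 2 * (x / ((ll u : ℝ) * ll v) + Real.sqrt x + 1) := by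
    have e1 : R / ll u ≤ R := div_le_self hR0 hu
    have e2 : R / ll v ≤ R := div_le_self hR0 hv
    have e3 : R / ll u * (R / ll v) = r ^ 2 * (x / ((ll u : ℝ) * ll v)) := by
      have : R * R = r ^ 2 * x := by
        calc R * R = r ^ 2 * Real.sqrt x ^ 2 := by rw [hR]; ring
          _ = _ := by rw [hsq]
      rw [div_mul_div_comm, this]; ring
    have e4 : 0 ≤ x / ((ll u : ℝ) * ll v) := by positivity
    have e5 : (R / ll u + 1) * (R / ll v + 1) = R / ll u * (R / ll v) + R / ll u + R / ll v + 1 := by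
      ring
    rw [e5, e3]
    have e6 : r ^ 2 ≤ (r + 1) ^ 2 := left_aux4 hr0
    have e7 : 2 * r ≤ (r + 1) ^ 2 := left_aux5 hr0
    have e8 : 1 ≤ (r + 1) ^ 2 := left_aux6 hr0
    have e9 : R / ll u + R / ll v ≤ (r + 1) ^ 2 * Real.sqrt x := by
      calc R / ll u + R / ll v ≤ R + R := by linarith
        _ = 2 * r * Real.sqrt x := by rw [hR]; ring
        _ ≤ _ := mul_le_mul_of_nonneg_right e7 hx0
    have e10 : r ^ 2 * (x / ((ll u : ℝ) * ll v)) ≤ (r + 1) ^ 2 * (x / ((ll u : ℝ) * ll v)) :=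
      mul_le_mul_of_nonneg_right e6 e4
    linarith only [e8, e9, e10]
  calc (E.card : ℝ) ≤ (⌊K⌋₊ : ℝ) * Vs.card := h4
    _ ≤ K * ((R / ll u + 1) * (R / ll v + 1)) := by
      apply mul_le_mul h5 h3 (by positivity) hK0.le
    _ ≤ K * ((r + 1) ^ 2 * (x / ((ll u : ℝ) * ll v) + Real.sqrt x + 1)) := by gcongr
    _ = _ := by ring

end Pool.Agent.OmAll

end

/-! ### from `Lib_MP_f1a94e_aq.Equid` -/

section

/-!
# Piece EQUID: equidistribution of Farey edges in congruence classes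
-/

set_option autoImplicit false

namespace Pool.Agent.OmAll

open Finset Pool.Agent.GaussMR Filter

namespace EquidAux

/-- multiplication by `i` -/
def rt (z : G) : G := ⟨-z.im, z.re⟩

theorem det_rt (u v : G) : det (rt u) (rt v) = det u v := by
  unfold det rt
  ring

theorem dot_rt (u v : G) : dot (rt u) (rt v) = dot u v := by
  unfold dot rt
  ring

theorem nm_rt (u : G) : nm (rt u) = nm u := by
  have h : (nm (rt u) : ℤ) = nm u := by
    rw [nm_eq, nm_eq]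
    unfold rt
    ring
  exact_mod_cast h

theorem cg_rt (M : ℕ) (u v : G) : cg M (rt u) (rt v) ↔ cg M u v := by
  unfold cg rt
  constructor
  · rintro ⟨h1, h2⟩
    refine ⟨h2, ?_⟩
    have : u.im - v.im = -(-u.im - -v.im) := by ring
    rw [this]
    exact (dvd_neg).mpr h1
  · rintro ⟨h1, h2⟩
    refine ⟨?_, h1⟩
    have : -u.im - -v.im = -(u.im - v.im) := by ring
    rw [this]
    exact (dvd_neg).mpr h2

theorem rt_inj : Function.Injective rt := by
  intro u v h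
  have h1 := congrArg Zsqrtd.re h
  have h2 := congrArg Zsqrtd.im h
  simp only [rt, neg_inj] at h1 h2
  exact Zsqrtd.ext h2 h1

theorem det_it (k : ℕ) (u v : G) : det (rt^[k] u) (rt^[k] v) = det u v := by
  induction k generalizing u v with
  | zero => rfl
  | succ k ih => rw [Function.iterate_succ_apply, Function.iterate_succ_apply, ih, det_rt]

theorem dot_it (k : ℕ) (u v : G) : dot (rt^[k] u) (rt^[k] v) = dot u v := by
  induction k generalizing u v with
  | zero => rfl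
  | succ k ih => rw [Function.iterate_succ_apply, Function.iterate_succ_apply, ih, dot_rt]

theorem nm_it (k : ℕ) (u : G) : nm (rt^[k] u) = nm u := by
  induction k generalizing u with
  | zero => rfl
  | succ k ih => rw [Function.iterate_succ_apply, ih, nm_rt]

theorem cg_it (M : ℕ) (k : ℕ) (u v : G) : cg M (rt^[k] u) (rt^[k] v) ↔ cg M u v := by
  induction k generalizing u v with
  | zero => rfl
  | succ k ih => rw [Function.iterate_succ_apply, Function.iterate_succ_apply, ih, cg_rt]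

/-- rotation of a pair -/
def rp (k : ℕ) (e : G × G) : G × G := (rt^[k] e.1, rt^[k] e.2)

theorem rp_inj (k : ℕ) : Function.Injective (rp k) := by
  rintro ⟨a, b⟩ ⟨c, d⟩ h
  have h1 := congrArg Prod.fst h
  have h2 := congrArg Prod.snd h
  exact Prod.ext (rt_inj.iterate k h1) (rt_inj.iterate k h2)

theorem rt_four (z : G) : rt^[4] z = z := by
  show rt (rt (rt (rt z))) = z
  unfold rt
  apply Zsqrtd.ext <;> simp

theorem rp_surj (k : ℕ) (hk : k ≤ 4) (e : G × G) : ∃ e', rp k e' = e := by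
  refine ⟨rp (4 - k) e, ?_⟩
  unfold rp
  ext1
  · show rt^[k] (rt^[4 - k] e.1) = e.1
    rw [← Function.iterate_add_apply, Nat.add_sub_cancel' hk, rt_four]
  · show rt^[k] (rt^[4 - k] e.2) = e.2
    rw [← Function.iterate_add_apply, Nat.add_sub_cancel' hk, rt_four]

theorem mem_NE_rp (M : ℕ) (γ : G × G) (s t x : ℝ) (k : ℕ) (e : G × G) :
    rp k e ∈ NE M (rp k γ) s t x ↔ e ∈ NE M γ s t x := by
  unfold NE rp
  simp only [Set.mem_ofPred_eq, det_it, dot_it, nm_it, cg_it]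

theorem ncard_rot (M : ℕ) (γ : G × G) (s t x : ℝ) (k : ℕ) (hk : k ≤ 4) (S : Set G) :
    {e : G × G | e ∈ NE M γ s t x ∧ rt^[k] e.1 ∈ S}.ncard =
      {e : G × G | e ∈ NE M (rp k γ) s t x ∧ e.1 ∈ S}.ncard := by
  rw [← Set.ncard_image_of_injective _ (rp_inj k)]
  congr 1
  ext e
  constructor
  · rintro ⟨e', ⟨h1, h2⟩, rfl⟩
    exact ⟨(mem_NE_rp M γ s t x k e').mpr h1, h2⟩
  · rintro ⟨h1, h2⟩
    obtain ⟨e', rfl⟩ := rp_surj k hk e
    exact ⟨e', ⟨(mem_NE_rp M γ s t x k e').mp h1, h2⟩, rfl⟩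

theorem mem_cone (z : G) : z ∈ cone (1 : G) ⟨0, 1⟩ ↔ 0 ≤ z.re ∧ 0 ≤ z.im := by
  unfold cone
  constructor
  · rintro ⟨α, β, rfl, h1, h2⟩
    simp [h1, h2]
  · rintro ⟨h1, h2⟩
    refine ⟨z.re, z.im, ?_, h1, h2⟩
    apply Zsqrtd.ext <;> simp

theorem mem_cone0 (z : G) : z ∈ cone0 (1 : G) ⟨0, 1⟩ ↔ 0 < z.re ∧ 0 < z.im := by
  unfold cone0
  constructor
  · rintro ⟨α, β, rfl, h1, h2⟩
    simp [h1, h2]
  · rintro ⟨h1, h2⟩
    refine ⟨z.re, z.im, ?_, h1, h2⟩
    apply Zsqrtd.ext <;> simp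

theorem exists_quad (z : G) : ∃ k ∈ range 4, rt^[k] z ∈ cone (1 : G) ⟨0, 1⟩ := by
  rcases le_total 0 z.re with h1 | h1 <;> rcases le_total 0 z.im with h2 | h2
  · exact ⟨0, by simp, (mem_cone _).mpr ⟨h1, h2⟩⟩
  · refine ⟨1, by simp, (mem_cone _).mpr ?_⟩
    show 0 ≤ -z.im ∧ 0 ≤ z.re
    omega
  · refine ⟨3, by simp, (mem_cone _).mpr ?_⟩
    show 0 ≤ - -z.im ∧ 0 ≤ -z.re
    omega
  · refine ⟨2, by simp, (mem_cone _).mpr ?_⟩
    show 0 ≤ -z.re ∧ 0 ≤ -z.im
    omega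

theorem quad_unique (z : G) {k l : ℕ} (hk : k ∈ range 4) (hl : l ∈ range 4)
    (h : rt^[k] z ∈ cone0 (1 : G) ⟨0, 1⟩) (h' : rt^[l] z ∈ cone0 (1 : G) ⟨0, 1⟩) : k = l := by
  rw [mem_cone0] at h h'
  rw [Finset.mem_range] at hk hl
  have e0 : rt^[0] z = z := rfl
  have e1 : rt^[1] z = ⟨-z.im, z.re⟩ := rfl
  have e2 : rt^[2] z = ⟨-z.re, -z.im⟩ := rfl
  have e3 : rt^[3] z = ⟨- -z.im, -z.re⟩ := rfl
  interval_cases k <;> interval_cases l <;> simp only [e0, e1, e2, e3] at h h' <;> omega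

theorem fr_one : Fr (1 : G) ⟨0, 1⟩ := by
  unfold Fr det
  simp

theorem sqrt_small (e : ℝ) (he : 0 < e) : ∀ᶠ x : ℝ in atTop, Real.sqrt x + 1 ≤ e * x := by
  filter_upwards [eventually_ge_atTop (max 1 (4 / e ^ 2))] with x hx
  have h1 : 1 ≤ x := le_trans (le_max_left _ _) hx
  have h2 : 4 / e ^ 2 ≤ x := le_trans (le_max_right _ _) hx
  have h3 : 1 ≤ Real.sqrt x := by
    rw [Real.one_le_sqrt]
    exact h1
  have h4 : Real.sqrt x * Real.sqrt x = x := Real.mul_self_sqrt (by linarith)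
  have h5 : 2 / e ≤ Real.sqrt x := by
    apply Real.le_sqrt_of_sq_le
    rw [div_pow]
    norm_num
    exact h2
  have h6 : 2 ≤ e * Real.sqrt x := by
    rw [div_le_iff₀ he] at h5
    linarith
  calc Real.sqrt x + 1 ≤ 2 * Real.sqrt x := by linarith
    _ ≤ (e * Real.sqrt x) * Real.sqrt x := mul_le_mul_of_nonneg_right h6 (by linarith)
    _ = e * x := by rw [mul_assoc, h4]

/-- the number of edges -/
noncomputable def N (M : ℕ) (γ : G × G) (s t x : ℝ) : ℝ := ((NE M γ s t x).ncard : ℝ)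

open Classical in
/-- upper bound by a finite cover -/
theorem upper (M : ℕ) (γ : G × G) (s t x : ℝ) (A : Finset (G × G × ℕ)) (L : Finset (G × G))
    (hcov : ∀ V ∈ cone (1 : G) ⟨0, 1⟩, (∃ a ∈ A, V ∈ arc a.1 a.2.1 a.2.2 M) ∨
      ∃ l ∈ L, V ∈ cone l.1 l.2) :
    N M γ s t x ≤ ∑ k ∈ range 4, (∑ a ∈ A,
      ({e : G × G | e ∈ NE M (rp k γ) s t x ∧ e.1 ∈ arc a.1 a.2.1 a.2.2 M}.ncard : ℝ) +
        ∑ l ∈ L, ({e : G × G | e ∈ NE M (rp k γ) s t x ∧ e.1 ∈ cone l.1 l.2}.ncard : ℝ)) := by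
  set F := (NE_finite M γ s t x).toFinset with hF
  have hcard : ∀ (k : ℕ), k ∈ range 4 → ∀ S : Set G,
      {e : G × G | e ∈ NE M (rp k γ) s t x ∧ e.1 ∈ S}.ncard =
        (F.filter (fun e => rt^[k] e.1 ∈ S)).card := by
    intro k hk S
    rw [← ncard_rot M γ s t x k (by rw [Finset.mem_range] at hk; omega) S,
      ← Set.ncard_coe_finset]
    congr 1
    ext e
    simp [hF]
  have h1 : N M γ s t x = (F.card : ℝ) := by
    unfold N
    rw [hF, Set.ncard_eq_toFinset_card _ (NE_finite M γ s t x)]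
  have h2 : F ⊆ (range 4).biUnion (fun k => A.biUnion (fun a =>
      F.filter (fun e => rt^[k] e.1 ∈ arc a.1 a.2.1 a.2.2 M)) ∪
        L.biUnion (fun l => F.filter (fun e => rt^[k] e.1 ∈ cone l.1 l.2))) := by
    intro e he
    obtain ⟨k, hk, h3⟩ := exists_quad e.1
    rw [mem_biUnion]
    refine ⟨k, hk, ?_⟩
    rw [mem_union, mem_biUnion, mem_biUnion]
    rcases hcov _ h3 with ⟨a, ha, h4⟩ | ⟨l, hl, h4⟩
    · exact Or.inl ⟨a, ha, mem_filter.mpr ⟨he, h4⟩⟩
    · exact Or.inr ⟨l, hl, mem_filter.mpr ⟨he, h4⟩⟩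
  have h3 : F.card ≤ ∑ k ∈ range 4, (∑ a ∈ A,
      (F.filter (fun e => rt^[k] e.1 ∈ arc a.1 a.2.1 a.2.2 M)).card +
        ∑ l ∈ L, (F.filter (fun e => rt^[k] e.1 ∈ cone l.1 l.2)).card) := by
    refine (card_le_card h2).trans (card_biUnion_le.trans (sum_le_sum fun k _ => ?_))
    exact (card_union_le _ _).trans (add_le_add card_biUnion_le card_biUnion_le)
  rw [h1]
  calc (F.card : ℝ) ≤ ((∑ k ∈ range 4, (∑ a ∈ A,
      (F.filter (fun e => rt^[k] e.1 ∈ arc a.1 a.2.1 a.2.2 M)).card +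
        ∑ l ∈ L, (F.filter (fun e => rt^[k] e.1 ∈ cone l.1 l.2)).card) : ℕ) : ℝ) := by
        exact_mod_cast h3
    _ = _ := by
        push_cast
        refine sum_congr rfl fun k hk => ?_
        congr 1
        · exact sum_congr rfl fun a _ => by rw [hcard k hk]
        · exact sum_congr rfl fun l _ => by rw [hcard k hk]

open Classical in
/-- lower bound by disjoint pieces -/
theorem lower (M : ℕ) (γ : G × G) (s t x : ℝ) (A : Finset (G × G × ℕ))
    (hsub : ∀ a ∈ A, arc a.1 a.2.1 a.2.2 M ⊆ cone0 (1 : G) ⟨0, 1⟩)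
    (hdis : ∀ a ∈ A, ∀ a' ∈ A, a ≠ a' → Disjoint (arc a.1 a.2.1 a.2.2 M) (arc a'.1 a'.2.1 a'.2.2 M)) :
    ∑ k ∈ range 4, ∑ a ∈ A,
      ({e : G × G | e ∈ NE M (rp k γ) s t x ∧ e.1 ∈ arc a.1 a.2.1 a.2.2 M}.ncard : ℝ) ≤
        N M γ s t x := by
  set F := (NE_finite M γ s t x).toFinset with hF
  have hcard : ∀ (k : ℕ), k ∈ range 4 → ∀ S : Set G,
      {e : G × G | e ∈ NE M (rp k γ) s t x ∧ e.1 ∈ S}.ncard =
        (F.filter (fun e => rt^[k] e.1 ∈ S)).card := by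
    intro k hk S
    rw [← ncard_rot M γ s t x k (by rw [Finset.mem_range] at hk; omega) S,
      ← Set.ncard_coe_finset]
    congr 1
    ext e
    simp [hF]
  have h1 : N M γ s t x = (F.card : ℝ) := by
    unfold N
    rw [hF, Set.ncard_eq_toFinset_card _ (NE_finite M γ s t x)]
  have h2 : (range 4).biUnion (fun k => A.biUnion (fun a =>
      F.filter (fun e => rt^[k] e.1 ∈ arc a.1 a.2.1 a.2.2 M))) ⊆ F := by
    intro e he
    rw [mem_biUnion] at he
    obtain ⟨k, _, he⟩ := he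
    rw [mem_biUnion] at he
    obtain ⟨a, _, he⟩ := he
    exact (mem_filter.mp he).1
  have h3 : ∑ k ∈ range 4, ∑ a ∈ A,
      (F.filter (fun e => rt^[k] e.1 ∈ arc a.1 a.2.1 a.2.2 M)).card ≤ F.card := by
    refine le_trans (le_of_eq ?_) (card_le_card h2)
    rw [card_biUnion]
    · refine sum_congr rfl fun k hk => ?_
      rw [card_biUnion]
      intro a ha a' ha' hne
      rw [Function.onFun, Finset.disjoint_left]
      intro e he he'
      exact Set.disjoint_left.mp (hdis a ha a' ha' hne) (mem_filter.mp he).2 (mem_filter.mp he').2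
    · intro k hk l hl hne
      rw [Function.onFun, Finset.disjoint_left]
      intro e he he'
      rw [mem_biUnion] at he he'
      obtain ⟨a, ha, he⟩ := he
      obtain ⟨a', ha', he'⟩ := he'
      exact hne (quad_unique e.1 hk hl (hsub a ha (mem_filter.mp he).2)
        (hsub a' ha' (mem_filter.mp he').2))
  rw [h1]
  calc _ = ((∑ k ∈ range 4, ∑ a ∈ A,
      (F.filter (fun e => rt^[k] e.1 ∈ arc a.1 a.2.1 a.2.2 M)).card : ℕ) : ℝ) := by
        push_cast
        refine sum_congr rfl fun k hk => ?_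
        exact sum_congr rfl fun a _ => by rw [hcard k hk]
    _ ≤ (F.card : ℝ) := by exact_mod_cast h3

theorem approx (M : ℕ) (hM : 0 < M) : ∃ C : ℝ → ℝ → ℝ, (∀ s t, 0 < C s t) ∧ ∀ η : ℝ, 0 < η →
    ∃ a : ℝ, 0 ≤ a ∧ ∀ γ : G × G, (M : ℤ) ∣ det γ.1 γ.2 - 1 → ∀ s t : ℝ, s ≤ t → ∀ ε : ℝ, 0 < ε →
      ∀ᶠ x : ℝ in atTop, a * (t - s) * x - ε * x ≤ N M γ s t x ∧
        N M γ s t x ≤ (1 + η) * a * (t - s) * x + C s t * η * x + ε * x := by
  obtain ⟨c, hc⟩ := cop_asymp M hM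
  have hc0 := copC_nonneg M c hc
  choose C hC0 hC using left
  refine ⟨C, hC0, ?_⟩
  intro η hη
  have hM' : (0 : ℝ) < M := by exact_mod_cast hM
  set S0 : ℕ := ⌈3 * (M : ℝ) / η⌉₊ + M + 2 with hS0
  have hS2 : 2 ≤ S0 := by omega
  have hSM : (M : ℝ) ≤ S0 := by
    have : M ≤ S0 := by omega
    exact_mod_cast this
  have hSη : 3 * (M : ℝ) / η ≤ S0 := by
    refine (Nat.le_ceil _).trans ?_
    have : ⌈3 * (M : ℝ) / η⌉₊ ≤ S0 := by omega
    exact_mod_cast this
  have hS0' : (0 : ℝ) < S0 := by exact_mod_cast (by omega : 0 < S0)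
  have hy : ∀ S : ℕ, S0 ≤ S → (1 + (M : ℝ) / S) ^ 2 ≤ 1 + η := by
    intro S hS
    have hSS : (S0 : ℝ) ≤ S := by exact_mod_cast hS
    have hS' : (0 : ℝ) < S := lt_of_lt_of_le hS0' hSS
    have y1 : (M : ℝ) / S ≤ 1 := by
      rw [div_le_one hS']
      linarith
    have y2 : (M : ℝ) / S ≤ η / 3 := by
      rw [div_le_div_iff₀ hS' (by norm_num)]
      rw [div_le_iff₀ hη] at hSη
      linarith only [hSη, mul_le_mul_of_nonneg_right hSS hη.le]
    have y0 : 0 ≤ (M : ℝ) / S := by positivity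
    linarith only [y2, mul_le_mul_of_nonneg_left y1 y0]
  obtain ⟨A, L, hA, hAd, hL, hcov, hsum⟩ := cover M S0 hM hS2 (η / 4) (by positivity) 1 ⟨0, 1⟩ fr_one
  -- the constant
  set w : G × G × ℕ → ℝ := fun a => c / (nm ((((a.2.2 : ℤ) + M : ℤ) : G) * a.1 + a.2.1) : ℝ) with hw
  set w' : G × G × ℕ → ℝ := fun a => c / (nm (((a.2.2 : ℤ) : G) * a.1 + a.2.1) : ℝ) with hw'
  have hw0 : ∀ a, 0 ≤ w a := fun a => div_nonneg hc0 (Nat.cast_nonneg _)
  have hww : ∀ a ∈ A, w' a ≤ (1 + η) * w a := by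
    intro a ha
    obtain ⟨h1, h2, -⟩ := hA a ha
    have h3 := arc_ratio a.1 a.2.1 h1 a.2.2 M (by omega)
    have h4 := hy a.2.2 h2
    have hne : (0 : ℝ) < (nm (((a.2.2 : ℤ) : G) * a.1 + a.2.1) : ℝ) := by
      have : (((a.2.2 : ℤ) : G) * a.1 + a.2.1) ≠ 0 := by
        intro h0
        have e1 : det a.1 (((a.2.2 : ℤ) : G) * a.1 + a.2.1) = det a.1 a.2.1 := by
          unfold det
          simp
          ring
        rw [h0] at e1
        have e2 : det a.1 0 = 0 := by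
          unfold det
          simp
        rw [e2] at e1
        have e3 := h1.1
        rw [← e1] at e3
        simp at e3
      exact_mod_cast nm_pos this
    have hne' : (0 : ℝ) < (nm ((((a.2.2 : ℤ) + M : ℤ) : G) * a.1 + a.2.1) : ℝ) := by
      have : ((((a.2.2 : ℤ) + M : ℤ) : G) * a.1 + a.2.1) ≠ 0 := by
        intro h0
        have e1 : det a.1 ((((a.2.2 : ℤ) + M : ℤ) : G) * a.1 + a.2.1) = det a.1 a.2.1 := by
          unfold det
          simp
          ring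
        rw [h0] at e1
        have e2 : det a.1 0 = 0 := by
          unfold det
          simp
        rw [e2] at e1
        have e3 := h1.1
        rw [← e1] at e3
        simp at e3
      exact_mod_cast nm_pos this
    have h5 : (nm ((((a.2.2 : ℤ) + M : ℤ) : G) * a.1 + a.2.1) : ℝ) ≤
        (1 + η) * (nm (((a.2.2 : ℤ) : G) * a.1 + a.2.1) : ℝ) :=
      h3.trans (mul_le_mul_of_nonneg_right h4 hne.le)
    show c / _ ≤ (1 + η) * (c / _)
    rw [← mul_div_assoc, div_le_div_iff₀ hne hne']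
    calc c * _ ≤ c * ((1 + η) * (nm (((a.2.2 : ℤ) : G) * a.1 + a.2.1) : ℝ)) :=
          mul_le_mul_of_nonneg_left h5 hc0
      _ = _ := by ring
  refine ⟨∑ k ∈ range 4, ∑ a ∈ A, w a, sum_nonneg fun k _ => sum_nonneg fun a _ => hw0 a, ?_⟩
  intro γ hγ s t hst ε hε
  set e1 : ℝ := ε / (8 * (A.card + 1)) with he1
  have he1' : 0 < e1 := by positivity
  set e2 : ℝ := ε / (8 * C s t * (L.card + 1)) with he2
  have he2' : 0 < e2 := by have := hC0 s t; positivity
  have hγk : ∀ k, (M : ℤ) ∣ det (rp k γ).1 (rp k γ).2 - 1 := by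
    intro k
    have : det (rp k γ).1 (rp k γ).2 = det γ.1 γ.2 := det_it k _ _
    rw [this]
    exact hγ
  have hev : ∀ᶠ x : ℝ in atTop, ∀ k ∈ range 4, ∀ a ∈ A,
      w a * (t - s) * x - e1 * x ≤
        ({e : G × G | e ∈ NE M (rp k γ) s t x ∧ e.1 ∈ arc a.1 a.2.1 a.2.2 M}.ncard : ℝ) ∧
      ({e : G × G | e ∈ NE M (rp k γ) s t x ∧ e.1 ∈ arc a.1 a.2.1 a.2.2 M}.ncard : ℝ) ≤
        w' a * (t - s) * x + e1 * x := by
    rw [eventually_all_finset]
    intro k _
    rw [eventually_all_finset]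
    intro a ha
    obtain ⟨h1, h2, -⟩ := hA a ha
    obtain ⟨x0, hx0⟩ := arc_asymp M hM c hc (rp k γ) (hγk k) a.1 a.2.1 h1 a.2.2 (hS2.trans h2) s t
      hst e1 he1'
    filter_upwards [eventually_ge_atTop x0] with x hx
    obtain ⟨h3, h4⟩ := hx0 x hx
    constructor
    · refine le_trans (le_of_eq ?_) h3
      simp only [hw]
      ring
    · refine h4.trans (le_of_eq ?_)
      simp only [hw']
      ring
  filter_upwards [hev, sqrt_small e2 he2', eventually_ge_atTop 1] with x hx hsq hx1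
  have hx0 : 0 < x := by linarith
  have hAc : (0 : ℝ) < (A.card : ℝ) + 1 := by positivity
  have hLc : (0 : ℝ) < (L.card : ℝ) + 1 := by positivity
  have hbnd : 4 * (A.card : ℝ) * e1 ≤ ε / 2 := by
    rw [he1]
    rw [← mul_div_assoc, div_le_iff₀ (by positivity)]
    linarith only [hε]
  constructor
  · refine le_trans ?_ (lower M γ s t x A (fun a ha => (hA a ha).2.2) hAd)
    have h1 : ∑ k ∈ range 4, ∑ a ∈ A, (w a * (t - s) * x - e1 * x) ≤
        ∑ k ∈ range 4, ∑ a ∈ A,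
      ({e : G × G | e ∈ NE M (rp k γ) s t x ∧ e.1 ∈ arc a.1 a.2.1 a.2.2 M}.ncard : ℝ) :=
      sum_le_sum fun k hk => sum_le_sum fun a ha => (hx k hk a ha).1
    refine le_trans ?_ h1
    simp only [sum_sub_distrib, ← sum_mul, sum_const, card_range, nsmul_eq_mul]
    push_cast
    have h2 : 4 * ((A.card : ℝ) * (e1 * x)) = (4 * (A.card : ℝ) * e1) * x := by ring
    have h3 : (4 * (A.card : ℝ) * e1) * x ≤ ε / 2 * x := mul_le_mul_of_nonneg_right hbnd hx0.le
    linarith only [h2, h3, mul_pos hε hx0]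
  · refine (upper M γ s t x A L hcov).trans ?_
    have h1 : ∑ k ∈ range 4, (∑ a ∈ A,
      ({e : G × G | e ∈ NE M (rp k γ) s t x ∧ e.1 ∈ arc a.1 a.2.1 a.2.2 M}.ncard : ℝ) +
        ∑ l ∈ L, ({e : G × G | e ∈ NE M (rp k γ) s t x ∧ e.1 ∈ cone l.1 l.2}.ncard : ℝ)) ≤
        ∑ k ∈ range 4, (∑ a ∈ A, ((1 + η) * w a * (t - s) * x + e1 * x) +
          ∑ l ∈ L, (C s t * x * (1 / ((ll l.1 : ℝ) * ll l.2)) + C s t * (Real.sqrt x + 1))) := by
      refine sum_le_sum fun k hk => add_le_add ?_ ?_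
      · refine sum_le_sum fun a ha => ((hx k hk a ha).2).trans ?_
        have h2 := mul_le_mul_of_nonneg_right (hww a ha) (mul_nonneg (sub_nonneg.mpr hst) hx0.le)
        linarith
      · refine sum_le_sum fun l hl => (hC s t M (rp k γ) l.1 l.2 (hL l hl) x hx1).trans ?_
        apply le_of_eq
        ring
    refine h1.trans ?_
    simp only [sum_add_distrib, ← sum_mul, ← mul_sum, sum_const, card_range, nsmul_eq_mul]
    push_cast
    have h2 : 4 * ((A.card : ℝ) * (e1 * x)) ≤ ε / 2 * x := by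
      have h3 : 4 * ((A.card : ℝ) * (e1 * x)) = (4 * (A.card : ℝ) * e1) * x := by ring
      rw [h3]
      exact mul_le_mul_of_nonneg_right hbnd hx0.le
    have hC' := hC0 s t
    have h4 : 4 * (C s t * x * ∑ l ∈ L, 1 / ((ll l.1 : ℝ) * ll l.2)) ≤ C s t * η * x := by
      have h5 := mul_le_mul_of_nonneg_left hsum (mul_nonneg hC'.le hx0.le)
      linarith only [h5]
    have h6 : 4 * ((L.card : ℝ) * (C s t * (Real.sqrt x + 1))) ≤ ε / 2 * x := by
      have h7 : 4 * ((L.card : ℝ) * (C s t * (Real.sqrt x + 1))) ≤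
          4 * ((L.card : ℝ) * (C s t * (e2 * x))) := by
        have h8 := mul_le_mul_of_nonneg_left hsq hC'.le
        have h9 := mul_le_mul_of_nonneg_left h8 (Nat.cast_nonneg (α := ℝ) L.card)
        linarith
      refine h7.trans ?_
      have h10 : 4 * ((L.card : ℝ) * (C s t * (e2 * x))) = (4 * (L.card : ℝ) * C s t * e2) * x := by
        ring
      rw [h10]
      apply mul_le_mul_of_nonneg_right _ hx0.le
      rw [he2, ← mul_div_assoc, div_le_iff₀ (by positivity)]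
      linarith only [mul_pos hC' hε]
    linarith only [h2, h4, h6]

end EquidAux

open EquidAux

/-- Let `c` be from `cop_asymp`. Rotations: `(V, V') ↦ (i V, i V')` preserves `det`, `dot`, `nm` and maps the class `γ` to `i γ` (`det` unchanged). Every `V` is in
one of the four rotations of the closed quadrant `cone 1 i`, and the open quadrants are disjoint. -/
theorem equid (M : ℕ) (hM : 0 < M) : ∃ κ : ℝ, ∀ γ : G × G, (M : ℤ) ∣ det γ.1 γ.2 - 1 → ∀ s t : ℝ, s ≤ t →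
    Tendsto (fun x : ℝ => ((NE M γ s t x).ncard : ℝ) / x) atTop (nhds (κ * (t - s))) := by
  obtain ⟨C, hC0, hC⟩ := approx M hM
  choose! a ha0 ha using hC
  have hγ0 : (M : ℤ) ∣ det ((1 : G), (⟨0, 1⟩ : G)).1 ((1 : G), (⟨0, 1⟩ : G)).2 - 1 := by
    have : det (1 : G) ⟨0, 1⟩ = 1 := by
      unfold det
      simp
    show (M : ℤ) ∣ det (1 : G) ⟨0, 1⟩ - 1
    rw [this, sub_self]
    exact dvd_zero _
  -- comparison
  have hcmp : ∀ η : ℝ, 0 < η → ∀ η' : ℝ, 0 < η' → a η ≤ (1 + η') * a η' + C 0 1 * η' := by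
    intro η hη η' hη'
    apply le_of_forall_pos_le_add
    intro ε hε
    have h1 := ha η hη _ hγ0 0 1 zero_le_one (ε / 2) (by positivity)
    have h2 := ha η' hη' _ hγ0 0 1 zero_le_one (ε / 2) (by positivity)
    obtain ⟨x, ⟨h3, -⟩, ⟨-, h4⟩, hx⟩ := (h1.and (h2.and (eventually_gt_atTop 0))).exists
    have h5 := h3.trans h4
    have h6 : a η * x ≤ ((1 + η') * a η' + C 0 1 * η' + ε) * x := by linarith only [h5]
    exact le_of_mul_le_mul_right h6 hx
  set B : ℝ := (1 + 1) * a 1 + C 0 1 * 1 with hB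
  have hbd : ∀ η : ℝ, 0 < η → a η ≤ B := fun η hη => hcmp η hη 1 one_pos
  set T : Set ℝ := {y | ∃ η : ℝ, 0 < η ∧ y = a η} with hT
  have hTb : BddAbove T := ⟨B, by rintro _ ⟨η, hη, rfl⟩; exact hbd η hη⟩
  have hTne : T.Nonempty := ⟨a 1, 1, one_pos, rfl⟩
  have hk1 : ∀ η : ℝ, 0 < η → a η ≤ sSup T := fun η hη => le_csSup hTb ⟨η, hη, rfl⟩
  have hk2 : ∀ η : ℝ, 0 < η → sSup T ≤ (1 + η) * a η + C 0 1 * η := by
    intro η hη
    apply csSup_le hTne
    rintro _ ⟨η', hη', rfl⟩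
    exact hcmp η' hη' η hη
  have hB0 : 0 ≤ B := le_trans (ha0 1 one_pos) (hbd 1 one_pos)
  refine ⟨sSup T, ?_⟩
  intro γ hγ s t hst
  have hts : 0 ≤ t - s := sub_nonneg.mpr hst
  rw [Metric.tendsto_atTop]
  intro ε hε
  -- choose η
  set D : ℝ := (B + C 0 1 + 1) * (t - s) + C s t + 1 with hD
  have hC01 := hC0 0 1
  have hCst := hC0 s t
  have hD0 : 0 < D := by
    have : 0 ≤ (B + C 0 1 + 1) * (t - s) := mul_nonneg (by linarith) hts
    linarith
  set η : ℝ := ε / (4 * D) with hη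
  have hη0 : 0 < η := by positivity
  have hηD : η * D = ε / 4 := by
    rw [hη]
    field_simp
  obtain ⟨x1, hx1⟩ := eventually_atTop.mp
    ((ha η hη0 γ hγ s t hst (ε / 4) (by positivity)).and (eventually_gt_atTop 0))
  refine ⟨x1, fun x hx => ?_⟩
  obtain ⟨⟨h1, h2⟩, h3⟩ := hx1 x hx
  have h1' : a η * (t - s) - ε / 4 ≤ ((NE M γ s t x).ncard : ℝ) / x := by
    rw [le_div_iff₀ h3]
    have : N M γ s t x = ((NE M γ s t x).ncard : ℝ) := rfl
    rw [this] at h1
    linarith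
  have h2' : ((NE M γ s t x).ncard : ℝ) / x ≤ (1 + η) * a η * (t - s) + C s t * η + ε / 4 := by
    rw [div_le_iff₀ h3]
    have : N M γ s t x = ((NE M γ s t x).ncard : ℝ) := rfl
    rw [this] at h2
    linarith
  have h4 := hk1 η hη0
  have h5 := hk2 η hη0
  have h6 := ha0 η hη0
  have h7 := hbd η hη0
  rw [Real.dist_eq, abs_lt]
  have h8 : sSup T - a η ≤ η * (B + C 0 1) := by linarith only [h5, mul_le_mul_of_nonneg_left h7 hη0.le]
  have h9 : (sSup T - a η) * (t - s) ≤ η * (B + C 0 1) * (t - s) :=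
    mul_le_mul_of_nonneg_right h8 hts
  have h10 : η * (B + C 0 1) * (t - s) ≤ ε / 4 := by
    rw [← hηD]
    have : η * (B + C 0 1) * (t - s) ≤ η * D := by
      rw [mul_assoc]
      apply mul_le_mul_of_nonneg_left _ hη0.le
      rw [hD]
      linarith only [hts, hCst]
    exact this
  constructor
  · linarith only [h1', h9, h10, hε]
  · have h11 : a η * (t - s) ≤ sSup T * (t - s) := mul_le_mul_of_nonneg_right h4 hts
    have h12 : η * a η * (t - s) + C s t * η ≤ ε / 4 := by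
      rw [← hηD, hD]
      have h13 : η * a η * (t - s) ≤ η * (B * (t - s)) := by
        rw [mul_assoc]
        exact mul_le_mul_of_nonneg_left (mul_le_mul_of_nonneg_right h7 hts) hη0.le
      have h14 : 0 ≤ η * ((C 0 1 + 1) * (t - s)) :=
        mul_nonneg hη0.le (mul_nonneg (by linarith) hts)
      linarith only [h13, h14, hη0]
    linarith only [h2', h11, h12, hε]

end Pool.Agent.OmAll

end

/-! ### from `Lib_MP_f1a94e_eq.EPrim` -/

section

/-!
# Piece EPRIM: the pairs of `En n` are the pairs of primitive vectors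
-/

set_option autoImplicit false

namespace Pool.Agent.OmEq

open Finset Pool.Agent.GaussMR Pool.Agent.OmAll

theorem eprim_mul_re (k : ℤ) (V : G) : ((k : G) * V).re = k * V.re := by simp

theorem eprim_mul_im (k : ℤ) (V : G) : ((k : G) * V).im = k * V.im := by simp

/-- PROOF. Let `V` be primitive, `W` with `det V W = 1` (Bezout), so every `V' = c V + k W` with integers `c = - det W V'`-like coefficients (`det V V' = k`, `c = det V' W`). With `det V V' = n`: `V' = c V + n W`, so `V' = c V mod n`.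
If `c' V = V' mod n` with `c'` coprime to `n` then `c' = c mod n` (`V` primitive), so `c` is coprime to `n`, and `V'` is primitive: a common prime divisor `p` of the coordinates of `V'` divides `c = det V' W` and
`n = det V V'`. Conversely if `V'` is primitive then `c` is coprime to `n`: a prime `p` dividing both divides the coordinates of `c V + n W`. -/
theorem En_iff {n : ℕ} (hn : 0 < n) (e : G × G) :
    En n e ↔ det e.1 e.2 = n ∧ 0 < dot e.1 e.2 ∧ Prim e.1 ∧ Prim e.2 := by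
  obtain ⟨V, V'⟩ := e
  unfold En cg
  simp only [eprim_mul_re, eprim_mul_im]
  constructor
  · rintro ⟨h1, h2, h3, c, ⟨s, t, hst⟩, ⟨x, hx⟩, ⟨y, hy⟩⟩
    refine ⟨h1, h2, h3, ?_⟩
    have hn' : (n : ℤ) ≠ 0 := by exact_mod_cast hn.ne'
    have h4 : V.re * y - V.im * x = 1 := by
      have : (n : ℤ) * (V.re * y - V.im * x) = n * 1 := by
        unfold det at h1
        linear_combination h1 - V.re * hy + V.im * hx
      exact mul_left_cancel₀ hn' this
    refine ⟨s * y - t * V.im, -s * x + t * V.re, ?_⟩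
    linear_combination (s * y - t * V.im) * hx + (-s * x + t * V.re) * hy + hst +
      (s * c + t * n) * h4
  · rintro ⟨h1, h2, h3, h4⟩
    refine ⟨h1, h2, h3, ?_⟩
    obtain ⟨a, b, hab⟩ := h3
    obtain ⟨p, q, hpq⟩ := h4
    unfold det at h1
    refine ⟨V'.re * a + V'.im * b, ⟨p * V.re + q * V.im, -p * b + q * a, ?_⟩, ⟨-b, ?_⟩, ⟨a, ?_⟩⟩
    · rw [← h1]
      linear_combination hpq + (p * V'.re + q * V'.im) * hab
    · rw [← h1]
      linear_combination (-V'.re) * hab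
    · rw [← h1]
      linear_combination (-V'.im) * hab

/-- parallel primitive vectors with positive scalar product are equal. PROOF. `V` primitive and `det V V' = 0` give `V' = c V` (`c = a V'.re + b V'.im` for `a V.re + b V.im = 1`), `V'` primitive gives `c = 1` or `-1`, `dot = c nm V > 0`. -/
theorem eq_of_det_zero {V V' : G} (hV : Prim V) (hV' : Prim V') (h0 : det V V' = 0) (h1 : 0 < dot V V') : V' = V := by
  obtain ⟨a, b, hab⟩ := hV
  obtain ⟨p, q, hpq⟩ := hV'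
  unfold det at h0
  unfold dot at h1
  obtain ⟨c, hc⟩ : ∃ c : ℤ, c = a * V'.re + b * V'.im := ⟨_, rfl⟩
  have h2 : V'.re = c * V.re := by
    rw [hc]
    linear_combination (-V'.re) * hab - b * h0
  have h3 : V'.im = c * V.im := by
    rw [hc]
    linear_combination (-V'.im) * hab + a * h0
  have h4 : c * (p * V.re + q * V.im) = 1 := by
    linear_combination hpq - p * h2 - q * h3
  have h5 : 0 < c := by
    rw [h2, h3] at h1
    by_contra h6
    rw [not_lt] at h6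
    have h7 : V.re * (c * V.re) + V.im * (c * V.im) = c * (V.re ^ 2 + V.im ^ 2) := by ring
    rw [h7] at h1
    have h8 : c * (V.re ^ 2 + V.im ^ 2) ≤ 0 := mul_nonpos_of_nonpos_of_nonneg h6 (by positivity)
    linarith
  have h6 : c = 1 := by
    rcases Int.eq_one_or_neg_one_of_mul_eq_one h4 with h | h
    · exact h
    · omega
  apply Zsqrtd.ext
  · rw [h2, h6, one_mul]
  · rw [h3, h6, one_mul]

end Pool.Agent.OmEq

end

/-! ### from `Lib_MP_f1a94e_ecm.ChiN` -/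

section

/-!
# Piece M-CHIN: characters have modulus one on large primes; products of numbers near one
-/

set_option autoImplicit false

namespace Pool.Agent.ECM

open Finset Pool.Agent.GaussMR Pool.Agent.GaussCM Pool.Agent.OmAll

private theorem chin_cop (D : ℕ) (hD : 0 < D) (p : G) (hp : Prime p) (h : (D : ℝ) ^ 2 < (nm p : ℝ)) :
    Nat.Coprime (nm p) D := by
  have h0 : D ^ 2 < nm p := by exact_mod_cast h
  have hself : p * star p = ((nm p : ℕ) : G) := by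
    apply Zsqrtd.ext
    · have := nm_eq p
      simp [this]; ring
    · simp; ring
  have hnp : nm p ≠ 0 := by omega
  -- `p` divides a rational prime `q`
  have hdiv : p ∣ ((nm p : ℕ) : G) := ⟨star p, hself.symm⟩
  have hq : ∃ q : ℕ, q.Prime ∧ p ∣ ((q : ℕ) : G) := by
    have h1 : ((nm p : ℕ) : G) = (((nm p).primeFactorsList.map (fun q : ℕ => ((q : ℕ) : G)))).prod := by
      conv_lhs => rw [← Nat.prod_primeFactorsList hnp]
      rw [Nat.cast_list_prod]
    rw [h1] at hdiv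
    obtain ⟨a, ha, hpa⟩ := (Prime.dvd_prod_iff hp).1 hdiv
    rw [List.mem_map] at ha
    obtain ⟨q, hq, rfl⟩ := ha
    exact ⟨q, Nat.prime_of_mem_primeFactorsList hq, hpa⟩
  obtain ⟨q, hq, hpq⟩ := hq
  have h2 : nm p ∣ q ^ 2 := by
    have h3 := nm_dvd hpq
    have h4 : nm ((q : ℕ) : G) = q ^ 2 := by
      have : (nm ((q : ℕ) : G) : ℤ) = ((q ^ 2 : ℕ) : ℤ) := by
        rw [nm_eq]; simp
      exact_mod_cast this
    rwa [h4] at h3
  refine Nat.Coprime.symm (Nat.Coprime.coprime_dvd_right h2 ?_)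
  refine Nat.Coprime.pow_right 2 ?_
  refine Nat.Coprime.symm ((Nat.Prime.coprime_iff_not_dvd hq).2 ?_)
  intro h5
  have h6 : q ≤ D := Nat.le_of_dvd hD h5
  have h7 : nm p ≤ q ^ 2 := Nat.le_of_dvd (pow_pos hq.pos 2) h2
  have h8 : q ^ 2 ≤ D ^ 2 := Nat.pow_le_pow_left h6 2
  omega

/-- `|χ z| = 1` for `z` invertible modulo `D`: `χ z χ w = χ 1 = 1` and both are at most `1`. A prime `w` of norm `nm w` prime and `> D` (so `nm w` does not divide `D`), or inert, with `nm w > D ^ 2`, is invertible: `star w * w = nm w` is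
coprime to `D`. -/
theorem chi_norm (D : ℕ) (hD : 0 < D) (χ : G → ℂ) (hχ : Chi D χ) (p : G) (hp : Prime p) (h : (D : ℝ) ^ 2 < (nm p : ℝ)) :
    Inv D p ∧ ‖χ p‖ = 1 := by
  have hcop := chin_cop D hD p hp h
  have hinv : ∃ w : G, cg D (p * w) 1 := by
    refine ⟨star p * ((Nat.gcdA (nm p) D : ℤ) : G), ?_⟩
    have hb := Nat.gcd_eq_gcd_ab (nm p) D
    rw [hcop] at hb
    have hself : p * star p = ((nm p : ℕ) : G) := by
      apply Zsqrtd.ext
      · have := nm_eq p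
        simp [this]; ring
      · simp; ring
    rw [← mul_assoc, hself]
    constructor
    · refine ⟨-(Nat.gcdB (nm p) D), ?_⟩
      simp
      push_cast at hb
      linarith
    · simp
  refine ⟨hinv, ?_⟩
  obtain ⟨w, hw⟩ := hinv
  have h1 : χ p * χ w = 1 := by
    rw [← hχ.mul, hχ.per _ _ hw, hχ.one]
  have h2 : ‖χ p‖ * ‖χ w‖ = 1 := by rw [← norm_mul, h1, norm_one]
  have h3 := hχ.le p
  have h4 := hχ.le w
  have h5 := norm_nonneg (χ p)
  refine le_antisymm h3 ?_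
  nlinarith

private theorem chin_sub (l : List ℂ) (h : ∀ z ∈ l, ‖z‖ = 1) :
    ‖l.prod‖ = 1 ∧ ‖1 - l.prod‖ ≤ (l.map (fun z => ‖1 - z‖)).sum := by
  induction l with
  | nil => simp
  | cons a l ih =>
    have hl : ∀ z ∈ l, ‖z‖ = 1 := fun z hz => h z (List.mem_cons_of_mem _ hz)
    have ha : ‖a‖ = 1 := h a List.mem_cons_self
    obtain ⟨i1, i2⟩ := ih hl
    constructor
    · rw [List.prod_cons, norm_mul, ha, i1, one_mul]
    · rw [List.prod_cons, List.map_cons, List.sum_cons]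
      have h1 : 1 - a * l.prod = (1 - a) + a * (1 - l.prod) := by ring
      rw [h1]
      calc ‖(1 - a) + a * (1 - l.prod)‖ ≤ ‖1 - a‖ + ‖a * (1 - l.prod)‖ := norm_add_le _ _
        _ = ‖1 - a‖ + ‖1 - l.prod‖ := by rw [norm_mul, ha, one_mul]
        _ ≤ _ := by linarith

private theorem chin_sq (z : ℂ) (h : ‖z‖ = 1) : ‖1 - z‖ ^ 2 = 2 * (1 - z.re) := by
  have h1 : Complex.normSq z = 1 := by rw [Complex.normSq_eq_norm_sq, h]; norm_num
  rw [← Complex.normSq_eq_norm_sq, Complex.normSq_apply]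
  rw [Complex.normSq_apply] at h1
  simp only [Complex.sub_re, Complex.one_re, Complex.sub_im, Complex.one_im]
  nlinarith

private theorem chin_cs (l : List ℝ) : l.sum ^ 2 ≤ l.length * (l.map (fun a => a ^ 2)).sum := by
  induction l with
  | nil => simp
  | cons a l ih =>
    rw [List.sum_cons, List.length_cons, List.map_cons, List.sum_cons]
    set S := l.sum
    set T := (l.map (fun a => a ^ 2)).sum
    push_cast
    set n : ℝ := (l.length : ℝ) with hn
    have hT : 0 ≤ T := List.sum_nonneg (by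
      intro x hx
      rw [List.mem_map] at hx
      obtain ⟨y, _, rfl⟩ := hx
      positivity)
    rcases Nat.eq_zero_or_pos l.length with h0 | h0
    · have h1 : n = 0 := by rw [hn, h0]; simp
      rw [h1] at ih ⊢
      have h2 : S = 0 := by nlinarith [sq_nonneg S]
      rw [h2]; nlinarith
    · have h1 : 1 ≤ n := by rw [hn]; exact_mod_cast h0
      have h2 : 0 ≤ n * (n * a ^ 2 + T - 2 * a * S) := by
        nlinarith [sq_nonneg (n * a - S)]
      have h3 : 0 ≤ n * a ^ 2 + T - 2 * a * S := by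
        by_contra hneg
        push Not at hneg
        nlinarith
      nlinarith

/-- For numbers of modulus 1: `1 - Re (z_1 ... z_r) ≤ r ∑ (1 - Re z_i)` (`|1 - z_1...z_r| ≤ ∑ |1 - z_i|`, `|1 - z|² = 2 (1 - Re z)`, Cauchy-Schwarz). -/
theorem one_sub_prod_le (l : List ℂ) (h : ∀ z ∈ l, ‖z‖ = 1) : 1 - l.prod.re ≤ l.length * (l.map (fun z => 1 - z.re)).sum := by
  obtain ⟨h1, h2⟩ := chin_sub l h
  have h3 := chin_sq l.prod h1
  have h4 := chin_cs (l.map (fun z => ‖1 - z‖))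
  rw [List.map_map, List.length_map] at h4
  have h5 : (l.map ((fun a : ℝ => a ^ 2) ∘ fun z => ‖1 - z‖)).sum = 2 * (l.map (fun z => 1 - z.re)).sum := by
    have h6 : l.map ((fun a : ℝ => a ^ 2) ∘ fun z => ‖1 - z‖) = l.map (fun z => 2 * (1 - z.re)) := by
      apply List.map_congr_left
      intro z hz
      exact chin_sq z (h z hz)
    rw [h6, List.sum_map_mul_left]
  rw [h5] at h4
  have h7 : ‖1 - l.prod‖ ^ 2 ≤ (l.map (fun z => ‖1 - z‖)).sum ^ 2 :=
    pow_le_pow_left₀ (norm_nonneg _) h2 2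
  rw [h3] at h7
  nlinarith

end Pool.Agent.ECM

end

/-! ### from `Lib_MP_f1a94e_ecm.SmallG` -/

section

/-!
# Piece M-SMALL: residue classes in a disc, small `k`
-/

set_option autoImplicit false

namespace Pool.Agent.ECM

open Finset Pool.Agent.GaussMR Pool.Agent.GaussCM Pool.Agent.OmAll

/-- the residue of `b` of smallest absolute value -/
private def redG (m : ℕ) (b : G) : G := ⟨Int.bmod b.re m, Int.bmod b.im m⟩

private theorem norm_mG (m : ℕ) : ‖(((m : ℤ) : G) : ℂ)‖ = m := by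
  rw [norm_eq_sqrt]
  have h : (nm ((m : ℤ) : G) : ℤ) = (m : ℤ) ^ 2 := by
    rw [nm_eq, Zsqrtd.re_intCast, Zsqrtd.im_intCast]
    ring
  have h2 : (nm ((m : ℤ) : G) : ℝ) = (m : ℝ) ^ 2 := by exact_mod_cast h
  rw [h2, Real.sqrt_sq (Nat.cast_nonneg m)]

private theorem norm_redG (m : ℕ) (hm : 0 < m) (b : G) : ‖((redG m b : G) : ℂ)‖ ≤ m := by
  have h1 : ∀ x : ℤ, (Int.bmod x m) ^ 2 * 4 ≤ (m : ℤ) ^ 2 := by
    intro x
    have h2 := Int.bmod_lt (x := x) hm
    have h3 := Int.le_bmod (x := x) hm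
    have h4 : 2 * Int.bmod x m ≤ m := by omega
    have h5 : -(m : ℤ) ≤ 2 * Int.bmod x m := by omega
    nlinarith
  rw [norm_eq_sqrt]
  have h2 : ((nm (redG m b) : ℤ)) ≤ (m : ℤ) ^ 2 := by
    rw [nm_eq]
    have h3 := h1 b.re
    have h4 := h1 b.im
    change (Int.bmod b.re m) ^ 2 + (Int.bmod b.im m) ^ 2 ≤ _
    nlinarith [sq_nonneg (m : ℤ)]
  have h3 : (nm (redG m b) : ℝ) ≤ (m : ℝ) ^ 2 := by exact_mod_cast h2
  calc Real.sqrt (nm (redG m b)) ≤ Real.sqrt ((m : ℝ) ^ 2) := Real.sqrt_le_sqrt h3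
    _ = m := Real.sqrt_sq (Nat.cast_nonneg m)

private theorem cg_iff (m : ℕ) (z b : G) : cg m z b ↔ ((m : ℤ) : G) ∣ z - redG m b := by
  rw [Zsqrtd.intCast_dvd]
  unfold cg
  have e : ∀ x y : ℤ, (m : ℤ) ∣ x - y ↔ (m : ℤ) ∣ x - Int.bmod y m := by
    intro x y
    have h1 : (m : ℤ) ∣ Int.bmod y m - y := Int.dvd_bmod_sub_self
    constructor
    · intro h
      have := dvd_sub h h1
      have h2 : x - y - (Int.bmod y m - y) = x - Int.bmod y m := by ring
      rwa [h2] at this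
    · intro h
      have := dvd_add h h1
      have h2 : x - Int.bmod y m + (Int.bmod y m - y) = x - y := by ring
      rwa [h2] at this
  rw [e z.re b.re, e z.im b.im]
  rfl

private theorem card_ballG (Y : ℝ) (hY : 1 ≤ Y) : ((ball Y).card : ℝ) ≤ 20 * Y := by
  have h := ball_asymp_pi Y (by linarith)
  rw [abs_le] at h
  have h1 : Real.sqrt Y ≤ Y := by
    rw [Real.sqrt_le_left (by linarith)]
    nlinarith
  have h2 := Real.pi_le_four
  have h3 := Real.pi_pos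
  nlinarith [h.2]

open Classical in
/-- Compare the class of `b` with the class of `b + c`, `c = (c1, c2)`, `0 ≤ c1, c2 < m`, by the shift `z ↦ z + c`: `|xi k (z + c) - xi k z| ≤ 2 |k| ‖c‖ / ‖z‖` (`xi_sub` in SmallJ.lean), `∑_{0 ≠ z ∈ ball Y} 1/‖z‖ ≤ 8 sqrt Y` (`sum_inv`),
and the elements which leave or enter the disc lie in an annulus of width `2 m` (`annulus_smallj`, applied `O(m)` times, or `ball_asymp`): `O_m(sqrt Y)`. Averaging over the `m²` shifts:
the class sum is `(1/m²) ∑_{ball Y} xi k + O(|k| sqrt Y)` and the full sum is `O(|k| sqrt Y)` by `small_j`. -/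
theorem smallG (m : ℕ) (hm : 0 < m) : ∃ C : ℝ, 0 < C ∧ ∀ (Y : ℝ) (b : G) (k : ℤ), 1 ≤ Y → k ≠ 0 →
    ‖∑ z ∈ (ball Y).filter (fun z => cg m z b), xi k z‖ ≤ C * |(k : ℝ)| * Real.sqrt Y := by
  obtain ⟨C1, hC1, h1⟩ := SmallJAux.class_bound
  obtain ⟨C2, hC2, h2⟩ := small_j
  have hmR : (0 : ℝ) < m := by exact_mod_cast hm
  have hm1 : (1 : ℝ) ≤ m := by exact_mod_cast hm
  refine ⟨C1 + C2 + 20 * m, by positivity, fun Y b k hY hk => ?_⟩
  have hY0 : 0 ≤ Y := by linarith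
  have hk1 : 1 ≤ |(k : ℝ)| := by
    have : 1 ≤ |k| := Int.one_le_abs hk
    exact_mod_cast this
  have hsY : 1 ≤ Real.sqrt Y := Real.one_le_sqrt.2 hY
  have hsY2 : Real.sqrt Y * Real.sqrt Y = Y := Real.mul_self_sqrt hY0
  have hfc : (ball Y).filter (fun z => cg m z b) =
      (ball Y).filter (fun z => ((m : ℤ) : G) ∣ z - redG m b) :=
    filter_congr fun z _ => cg_iff m z b
  rw [hfc]
  by_cases hs : (m : ℝ) ≤ Real.sqrt Y
  · set s : ℝ := Real.sqrt Y / m with hsd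
    have hs1 : 1 ≤ s := by rw [hsd, le_div_iff₀ hmR]; linarith
    have hα0 : ((m : ℤ) : G) ≠ 0 := by
      intro h
      have := congrArg Zsqrtd.re h
      simp at this
      omega
    have h3 := h1 s k ((m : ℤ) : G) (redG m b) hs1 hk hα0 (by rw [norm_mG]; exact norm_redG m hm b)
    have hsm : (‖(((m : ℤ) : G) : ℂ)‖ * s) ^ 2 = Y := by
      rw [norm_mG, hsd, mul_div_cancel₀ _ hmR.ne', sq, hsY2]
    rw [hsm] at h3
    have h4 := h2 (s ^ 2) k (one_le_pow₀ hs1) hk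
    rw [Real.sqrt_sq (by linarith)] at h4
    have h5 : s ≤ Real.sqrt Y := by
      rw [hsd]; exact div_le_self (by linarith) hm1
    have h6 : ‖xi k ((m : ℤ) : G) * ∑ z ∈ ball (s ^ 2), xi k z‖ ≤ C2 * |(k : ℝ)| * s := by
      rw [norm_mul, norm_xi k hα0, one_mul]
      exact h4
    have h7 : ‖∑ z ∈ (ball Y).filter (fun z => ((m : ℤ) : G) ∣ z - redG m b), xi k z‖ ≤
        C1 * |(k : ℝ)| * s + C2 * |(k : ℝ)| * s := by
      have h8 : ∑ z ∈ (ball Y).filter (fun z => ((m : ℤ) : G) ∣ z - redG m b), xi k z =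
          (∑ z ∈ (ball Y).filter (fun z => ((m : ℤ) : G) ∣ z - redG m b), xi k z -
            xi k ((m : ℤ) : G) * ∑ z ∈ ball (s ^ 2), xi k z) +
            xi k ((m : ℤ) : G) * ∑ z ∈ ball (s ^ 2), xi k z := by ring
      rw [h8]
      exact (norm_add_le _ _).trans (add_le_add h3 h6)
    refine h7.trans ?_
    have h9 : (C1 + C2) * |(k : ℝ)| * s ≤ (C1 + C2) * |(k : ℝ)| * Real.sqrt Y :=
      mul_le_mul_of_nonneg_left h5 (by positivity)
    have h10 : 0 ≤ 20 * m * |(k : ℝ)| * Real.sqrt Y := by positivity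
    linarith
  · push Not at hs
    have h3 : ‖∑ z ∈ (ball Y).filter (fun z => ((m : ℤ) : G) ∣ z - redG m b), xi k z‖ ≤
        (ball Y).card := by
      refine (norm_sum_le _ _).trans ?_
      calc ∑ z ∈ (ball Y).filter (fun z => ((m : ℤ) : G) ∣ z - redG m b), ‖xi k z‖
          ≤ ∑ z ∈ (ball Y).filter (fun z => ((m : ℤ) : G) ∣ z - redG m b), (1 : ℝ) :=
            sum_le_sum fun z _ => SmallJAux.norm_xi_le k z
        _ = (((ball Y).filter (fun z => ((m : ℤ) : G) ∣ z - redG m b)).card : ℝ) := by simp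
        _ ≤ (ball Y).card := by exact_mod_cast card_filter_le _ _
    have h4 := card_ballG Y hY
    refine h3.trans (h4.trans ?_)
    have h5 : Y ≤ m * Real.sqrt Y := by
      calc Y = Real.sqrt Y * Real.sqrt Y := hsY2.symm
        _ ≤ m * Real.sqrt Y := mul_le_mul_of_nonneg_right hs.le (by linarith)
    have h6 : m * Real.sqrt Y ≤ m * |(k : ℝ)| * Real.sqrt Y := by
      have : m * Real.sqrt Y * 1 ≤ m * Real.sqrt Y * |(k : ℝ)| :=
        mul_le_mul_of_nonneg_left hk1 (by positivity)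
      linarith
    have h7 : 0 ≤ (C1 + C2) * |(k : ℝ)| * Real.sqrt Y := by positivity
    linarith

open Classical in
private theorem countG_aux (m : ℕ) (hm : 0 < m) (Y : ℝ) (b b' : G) (hY : 1 ≤ Y) :
    (((ball Y).filter (fun z => cg m z b)).card : ℝ) - (((ball Y).filter (fun z => cg m z b')).card : ℝ) ≤
      50 * (m : ℝ) ^ 2 * Real.sqrt Y := by
  have hmR : (0 : ℝ) < m := by exact_mod_cast hm
  have hm1 : (1 : ℝ) ≤ m := by exact_mod_cast hm
  have hY0 : 0 ≤ Y := by linarith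
  have hsY : 1 ≤ Real.sqrt Y := Real.one_le_sqrt.2 hY
  have hsY2 : Real.sqrt Y * Real.sqrt Y = Y := Real.mul_self_sqrt hY0
  set c : G := redG m (b' - b) with hc
  have hcn : ‖(c : ℂ)‖ ≤ m := norm_redG m hm _
  set Z : ℝ := (Real.sqrt Y + m) ^ 2 with hZ
  have hZ0 : 0 ≤ Z := by positivity
  have hin : ∀ z : G, z ∈ ball Z ↔ ‖(z : ℂ)‖ ≤ Real.sqrt Y + m := fun z =>
    SmallJAux.mem_ball_iff_norm (by positivity) z
  have hinY : ∀ z : G, z ∈ ball Y ↔ ‖(z : ℂ)‖ ≤ Real.sqrt Y := by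
    intro z
    have := SmallJAux.mem_ball_iff_norm (s := Real.sqrt Y) (by positivity) z
    rwa [Real.sq_sqrt hY0] at this
  have hsub : ball Y ⊆ ball Z := by
    intro z hz
    rw [hinY] at hz
    rw [hin]
    linarith
  -- the shift
  have h1 : ((ball Y).filter (fun z => cg m z b)).card ≤ ((ball Z).filter (fun z => cg m z b')).card := by
    refine card_le_card_of_injOn (fun z => z + c) ?_ ?_
    · intro z hz
      have hz' := mem_filter.1 (mem_coe.1 hz)
      rw [mem_coe, mem_filter]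
      refine ⟨?_, ?_⟩
      · rw [hin]
        have h2 := (hinY z).1 hz'.1
        have h3 : ((z + c : G) : ℂ) = (z : ℂ) + (c : ℂ) := GaussianInt.toComplex_add z c
        rw [h3]
        exact (norm_add_le _ _).trans (by linarith)
      · have h2 := hz'.2
        have h3 : cg m c (b' - b) := by
          rw [cg_iff, hc, sub_self]
          exact dvd_zero _
        obtain ⟨p1, p2⟩ := h2
        obtain ⟨q1, q2⟩ := h3
        constructor
        · have := dvd_add p1 q1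
          have e : z.re - b.re + (c.re - (b' - b).re) = (z + c).re - b'.re := by
            simp only [Zsqrtd.re_add, Zsqrtd.re_sub]; ring
          rwa [e] at this
        · have := dvd_add p2 q2
          have e : z.im - b.im + (c.im - (b' - b).im) = (z + c).im - b'.im := by
            simp only [Zsqrtd.im_add, Zsqrtd.im_sub]; ring
          rwa [e] at this
    · intro z _ w _ h
      exact add_right_cancel h
  have h2 : ((ball Z).filter (fun z => cg m z b')).card ≤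
      ((ball Y).filter (fun z => cg m z b')).card + (ball Z \ ball Y).card := by
    have h3 : (ball Z).filter (fun z => cg m z b') ⊆
        (ball Y).filter (fun z => cg m z b') ∪ (ball Z \ ball Y) := by
      intro z hz
      rw [mem_filter] at hz
      rw [mem_union, mem_filter, mem_sdiff]
      by_cases h4 : z ∈ ball Y
      · exact Or.inl ⟨h4, hz.2⟩
      · exact Or.inr ⟨hz.1, h4⟩
    exact (card_le_card h3).trans (card_union_le _ _)
  have h3 : ((ball Z \ ball Y).card : ℝ) ≤ 50 * (m : ℝ) ^ 2 * Real.sqrt Y := by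
    have e1 := card_sdiff_add_card_eq_card hsub
    have e2 : ((ball Z \ ball Y).card : ℝ) = (ball Z).card - (ball Y).card := by
      have : ((ball Z \ ball Y).card : ℝ) + (ball Y).card = (ball Z).card := by exact_mod_cast e1
      linarith
    have a1 := (abs_le.1 (ball_asymp_pi Z hZ0)).2
    have a2 := (abs_le.1 (ball_asymp_pi Y hY0)).1
    have a3 : Real.sqrt Z = Real.sqrt Y + m := by rw [hZ, Real.sqrt_sq (by positivity)]
    rw [a3] at a1
    have a4 : Z = Y + 2 * m * Real.sqrt Y + m ^ 2 := by rw [hZ]; nlinarith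
    rw [e2]
    have a5 : ((ball Z).card : ℝ) - (ball Y).card ≤ Real.pi * (Z - Y) +
        2 * Real.pi * (2 * Real.sqrt Y + m + 2) := by linarith
    have a6 : Z - Y = 2 * m * Real.sqrt Y + m ^ 2 := by linarith
    rw [a6] at a5
    have a7 : Real.pi * (2 * m * Real.sqrt Y + m ^ 2) + 2 * Real.pi * (2 * Real.sqrt Y + m + 2) ≤
        Real.pi * (13 * ((m : ℝ) ^ 2 * Real.sqrt Y)) → ((ball Z).card : ℝ) - (ball Y).card ≤
        Real.pi * (13 * ((m : ℝ) ^ 2 * Real.sqrt Y)) := fun h => a5.trans h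
    have a8 : Real.pi * (2 * m * Real.sqrt Y + m ^ 2) + 2 * Real.pi * (2 * Real.sqrt Y + m + 2) =
        Real.pi * ((2 * m * Real.sqrt Y + m ^ 2) + 2 * (2 * Real.sqrt Y + m + 2)) := by ring
    have hq : (m : ℝ) ≤ (m : ℝ) ^ 2 := by nlinarith
    have hq1 : (1 : ℝ) ≤ (m : ℝ) ^ 2 := by nlinarith
    have b1 : (m : ℝ) * Real.sqrt Y ≤ (m : ℝ) ^ 2 * Real.sqrt Y :=
      mul_le_mul_of_nonneg_right hq (by positivity)
    have b2 : (m : ℝ) ^ 2 ≤ (m : ℝ) ^ 2 * Real.sqrt Y := le_mul_of_one_le_right (by positivity) hsY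
    have b3 : Real.sqrt Y ≤ (m : ℝ) ^ 2 * Real.sqrt Y := le_mul_of_one_le_left (by positivity) hq1
    have a9 : (2 * m * Real.sqrt Y + m ^ 2) + 2 * (2 * Real.sqrt Y + m + 2) ≤
        13 * ((m : ℝ) ^ 2 * Real.sqrt Y) := by
      have b4 : (1 : ℝ) ≤ (m : ℝ) ^ 2 * Real.sqrt Y := hq1.trans b2
      linarith
    have a10 := a7 (by rw [a8]; exact mul_le_mul_of_nonneg_left a9 Real.pi_pos.le)
    refine a10.trans ?_
    have hpi : Real.pi ≤ 3.15 := by have := Real.pi_lt_d2; linarith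
    have b5 : Real.pi * (13 * ((m : ℝ) ^ 2 * Real.sqrt Y)) ≤ 3.15 * (13 * ((m : ℝ) ^ 2 * Real.sqrt Y)) :=
      mul_le_mul_of_nonneg_right hpi (by positivity)
    have b6 : 0 ≤ (m : ℝ) ^ 2 * Real.sqrt Y := by positivity
    linarith
  have h4 : (((ball Y).filter (fun z => cg m z b)).card : ℝ) ≤
      ((ball Y).filter (fun z => cg m z b')).card + (ball Z \ ball Y).card := by
    exact_mod_cast h1.trans h2
  linarith

open Classical in
/-- The same argument for the number of elements: all classes have the same number of elements up to `O_m(sqrt Y)`. -/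
theorem countG (m : ℕ) (hm : 0 < m) : ∃ C : ℝ, 0 < C ∧ ∀ (Y : ℝ) (b b' : G), 1 ≤ Y →
    |(((ball Y).filter (fun z => cg m z b)).card : ℝ) - (((ball Y).filter (fun z => cg m z b')).card : ℝ)| ≤ C * Real.sqrt Y := by
  have hmR : (0 : ℝ) < m := by exact_mod_cast hm
  refine ⟨50 * (m : ℝ) ^ 2, by positivity, fun Y b b' hY => ?_⟩
  have h1 := countG_aux m hm Y b b' hY
  have h2 := countG_aux m hm Y b' b hY
  rw [abs_le]
  constructor <;> linarith

end Pool.Agent.ECM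

end

/-! ### from `Lib_MP_f1a94e_ecm.Bh2` -/

section

/-!
# Piece M-BH: Brun-Hooley lower bound with multiplicative error terms
-/

set_option autoImplicit false

namespace Pool.Agent.ECM

open Finset Pool.Agent.GaussMR

/-- Copy the proof of `brun_hooley` (Lib_MP_f1a94e_mr/BH.lean): `lam` from `bh_core`, `bh_choice`; the main term is the same, the error is
`∑_A |lam A| |r A| ≤ ∑_(A ⊆ U) E ∏_(p ∈ A) g p = E ∏_(p ∈ U) (1 + g p)` (`Finset.prod_one_add` / `Finset.prod_add_one`). -/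
theorem bh2 (G0 : ℝ) (hG0 : 0 ≤ G0) : ∃ b : ℕ, ∀ (Ω ι : Type) (_inst : DecidableEq ι) (obj : Finset Ω) (w : Ω → ℝ)
    (t : ℕ) (P : ℕ → Finset ι) (S : Ω → Finset ι) (g : ι → ℝ) (X0 E : ℝ),
    (∀ u ∈ obj, 0 ≤ w u) → (∀ i j, i < t → j < t → i ≠ j → Disjoint (P i) (P j)) →
    (∀ u ∈ obj, S u ⊆ (Finset.range t).biUnion P) →
    (∀ p ∈ (Finset.range t).biUnion P, 0 ≤ g p ∧ g p ≤ 1 / 2) →
    (∀ i < t, ∑ p ∈ P i, g p ≤ G0) → 0 ≤ X0 → 0 ≤ E →
    (∀ D ⊆ (Finset.range t).biUnion P, (∀ i < t, (D ∩ P i).card ≤ 2 * (b + i) + 1) →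
      |∑ u ∈ obj.filter (fun u => D ⊆ S u), w u - X0 * ∏ p ∈ D, g p| ≤ E * ∏ p ∈ D, g p) →
    X0 / 2 * ∏ p ∈ (Finset.range t).biUnion P, (1 - g p) - E * ∏ p ∈ (Finset.range t).biUnion P, (1 + g p) ≤
      ∑ u ∈ obj.filter (fun u => S u = ∅), w u := by
  obtain ⟨b, hb⟩ := bh_choice G0 hG0
  refine ⟨b, ?_⟩
  intro Ω ι inst obj w t P S g X0 E hw hd hS hg hG hX0 hE hr
  have hinst : inst = (fun x y => Classical.propDecidable (x = y)) := Subsingleton.elim _ _
  subst hinst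
  classical
  set U := (Finset.range t).biUnion P with hU
  have hPU : ∀ j < t, P j ⊆ U := fun j hj x hx =>
    Finset.mem_biUnion.2 ⟨j, Finset.mem_range.2 hj, hx⟩
  have hgs : ∀ j < t, 0 ≤ ∑ p ∈ P j, g p := fun j hj =>
    Finset.sum_nonneg fun p hp => (hg p (hPU j hj hp)).1
  obtain ⟨lam, h1, h2, h3, h4⟩ := bh_core t P b hd g hg (by
    refine le_trans (Finset.sum_le_sum fun j hj => ?_) (hb t)
    have hj' := Finset.mem_range.1 hj
    have h0 := hgs j hj'
    have h5 := hG j hj'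
    gcongr)
  rw [← hU] at h2 h3 h4
  have step1 : ∑ u ∈ obj, w u * ∑ A ∈ (S u).powerset, lam A ≤
      ∑ u ∈ obj.filter (fun u => S u = ∅), w u := by
    rw [Finset.sum_filter]
    refine Finset.sum_le_sum fun u hu => ?_
    have h5 := mul_le_mul_of_nonneg_left (h3 (S u) (hS u hu)) (hw u hu)
    refine h5.trans (le_of_eq ?_)
    by_cases hSu : S u = ∅
    · rw [if_pos hSu, if_pos hSu, mul_one]
    · rw [if_neg hSu, if_neg hSu, mul_zero]
  have step2 : ∑ u ∈ obj, w u * ∑ A ∈ (S u).powerset, lam A =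
      ∑ A ∈ U.powerset, lam A * ∑ u ∈ obj.filter (fun u => A ⊆ S u), w u := by
    have e1 : ∀ u ∈ obj, w u * ∑ A ∈ (S u).powerset, lam A =
        ∑ A ∈ U.powerset, if A ⊆ S u then lam A * w u else 0 := by
      intro u hu
      rw [Finset.mul_sum, ← Finset.sum_filter]
      have : U.powerset.filter (fun A => A ⊆ S u) = (S u).powerset := by
        ext A
        simp only [Finset.mem_filter, Finset.mem_powerset]
        exact ⟨fun h => h.2, fun h => ⟨h.trans (hS u hu), h⟩⟩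
      rw [this]
      exact Finset.sum_congr rfl fun A _ => mul_comm _ _
    rw [Finset.sum_congr rfl e1, Finset.sum_comm]
    refine Finset.sum_congr rfl fun A _ => ?_
    rw [Finset.mul_sum, Finset.sum_filter]
  have hgA : ∀ A ∈ U.powerset, 0 ≤ ∏ p ∈ A, g p := fun A hA =>
    Finset.prod_nonneg fun p hp => (hg p (Finset.mem_powerset.1 hA hp)).1
  have step3 : ∀ A ∈ U.powerset, lam A * (X0 * ∏ p ∈ A, g p) - E * ∏ p ∈ A, g p ≤
      lam A * ∑ u ∈ obj.filter (fun u => A ⊆ S u), w u := by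
    intro A hA
    have hA' := Finset.mem_powerset.1 hA
    have hEg : 0 ≤ E * ∏ p ∈ A, g p := mul_nonneg hE (hgA A hA)
    by_cases hl : lam A = 0
    · rw [hl, zero_mul, zero_mul, zero_sub, neg_nonpos]
      exact hEg
    · have hc := h2 A hA' hl
      have h5 := hr A hA' hc
      have h6 : |lam A * (∑ u ∈ obj.filter (fun u => A ⊆ S u), w u - X0 * ∏ p ∈ A, g p)| ≤
          1 * (E * ∏ p ∈ A, g p) := by
        rw [abs_mul]
        exact mul_le_mul (h1 A) h5 (abs_nonneg _) zero_le_one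
      have h7 := (abs_le.1 h6).1
      rw [mul_sub] at h7
      linarith
  have step4 := Finset.sum_le_sum step3
  rw [Finset.sum_sub_distrib, ← Finset.mul_sum, ← Finset.prod_one_add] at step4
  have step5 : X0 / 2 * ∏ p ∈ U, (1 - g p) ≤ ∑ A ∈ U.powerset, lam A * (X0 * ∏ p ∈ A, g p) := by
    have h5 := mul_le_mul_of_nonneg_left h4 hX0
    rw [Finset.mul_sum] at h5
    calc X0 / 2 * ∏ p ∈ U, (1 - g p) = X0 * (1 / 2 * ∏ p ∈ U, (1 - g p)) := by ring
      _ ≤ _ := h5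
      _ = _ := Finset.sum_congr rfl fun A _ => by ring
  linarith

end Pool.Agent.ECM

end

/-! ### from `Lib_MP_f1a94e_ecm.RoughSum` -/

section

/-!
# Piece M-ROUGH: factorisation of rough elements
-/

set_option autoImplicit false

namespace Pool.Agent.ECM

open Finset Pool.Agent.GaussMR Pool.Agent.GaussCM Pool.Agent.OmAll

/-- Every odd nonzero `u` which is `y`-rough, `nm u ≤ Y`, is a unit times the product of a list of elements of `CP Y` of norm `≥ y` (`CP_exists`, unique factorisation, induction on the norm),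
whose length `r` satisfies `y ^ r ≤ nm u`. -/
theorem rough_fac (Y y : ℝ) (hy : 1 < y) (u : G) (hu : Odd (nm u)) (huY : (nm u : ℝ) ≤ Y) (hr : Rough y u) :
    ∃ (e : G) (l : List G), nm e = 1 ∧ u = e * l.prod ∧ (∀ p ∈ l, p ∈ CP Y ∧ y ≤ (nm p : ℝ)) ∧ y ^ l.length ≤ (nm u : ℝ) := by
  obtain ⟨N, hN⟩ : ∃ N, nm u = N := ⟨_, rfl⟩
  induction N using Nat.strong_induction_on generalizing u with
  | _ N ih =>
    by_cases h1 : nm u = 1
    · exact ⟨u, [], h1, by simp, by simp, by simp [h1]⟩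
    · have hu0 : u ≠ 0 := by
        rintro rfl
        have : nm (0 : G) = 0 := by simp [nm]
        rw [this] at hu
        exact absurd hu (by decide)
      have hnu : ¬ IsUnit u := fun h => h1 (CPS.nm_one_of_unit h)
      obtain ⟨p, hp, v, hv⟩ := WfDvdMonoid.exists_irreducible_factor hnu hu0
      have hpp : Prime p := hp.prime
      have hmul : nm u = nm p * nm v := by rw [hv, CPS.nm_mul]
      have hop : Odd (nm p) := (Nat.odd_mul.1 (hmul ▸ hu)).1
      have hov : Odd (nm v) := (Nat.odd_mul.1 (hmul ▸ hu)).2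
      have hyp : y ≤ (nm p : ℝ) := hr p hpp (Dvd.intro _ hv.symm)
      have hvpos : 0 < nm v := hov.pos
      have hppos : 0 < nm p := hop.pos
      have hpu : (nm p : ℝ) ≤ Y := by
        refine le_trans ?_ huY
        exact_mod_cast (hmul ▸ Nat.le_mul_of_pos_right _ hvpos)
      obtain ⟨w, hwC, hwp⟩ := CP_exists hpp hop hpu
      obtain ⟨t, ht⟩ := hwp
      have hnt : nm (t : G) = 1 := CPS.nm_one_of_unit t.isUnit
      have hnw : nm w = nm p := by rw [← ht, CPS.nm_mul, hnt, mul_one]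
      have hnv : nm ((t : G) * v) = nm v := by rw [CPS.nm_mul, hnt, one_mul]
      have hlt : nm v < N := by
        have h2 : 2 ≤ nm p := by
          have : (1 : ℝ) < (nm p : ℝ) := lt_of_lt_of_le hy hyp
          exact_mod_cast this
        rw [← hN, hmul]
        nlinarith
      obtain ⟨e, l, he, hl, hl2, hl3⟩ := ih (nm v) hlt ((t : G) * v) (by rw [hnv]; exact hov)
        (by
          rw [hnv]
          refine le_trans ?_ huY
          exact_mod_cast (hmul ▸ Nat.le_mul_of_pos_left _ hppos))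
        (by
          intro q hq hqd
          refine hr q hq ?_
          have h3 : q ∣ v := by
            rcases hq.dvd_or_dvd hqd with h | h
            · exact absurd (isUnit_of_dvd_unit h t.isUnit) hq.not_isUnit
            · exact h
          rw [hv]
          exact Dvd.dvd.mul_left h3 p)
        hnv
      refine ⟨e, w :: l, he, ?_, ?_, ?_⟩
      · rw [List.prod_cons, hv, ← ht]
        calc w * (t : G) * v = w * ((t : G) * v) := by ring
          _ = w * (e * l.prod) := by rw [hl]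
          _ = e * (w * l.prod) := by ring
      · intro q hq
        rcases List.mem_cons.1 hq with rfl | h
        · exact ⟨hwC, by rw [hnw]; exact hyp⟩
        · exact hl2 q h
      · rw [List.length_cons, pow_succ, hmul]
        push_cast
        rw [hnv] at hl3
        calc y ^ l.length * y ≤ (nm v : ℝ) * (nm p : ℝ) := by
              apply mul_le_mul hl3 hyp (by linarith) (by positivity)
          _ = (nm p : ℝ) * (nm v : ℝ) := by ring

private theorem roughsum_nm_prod {r : ℕ} (f : Fin r → G) : nm (∏ i, f i) = ∏ i, nm (f i) := by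
  induction r with
  | zero => simp [nm]
  | succ r ih => rw [Fin.prod_univ_succ, CPS.nm_mul, ih, Fin.prod_univ_succ]

open Classical in
/-- `rough_fac`: with `lam = ∑_(p ∈ CP Y, nm p ≥ Y^a) 1 / nm p ≤ log (1/a) + C` (`CP_sum` with `y' = Y^a / 2` or so; absorb) the elements with `r` prime factors contribute at most `4 lam^r` (4 units), `r ≤ 1 / a`
(`(Y^a)^r ≤ Y`). (The map (unit, ordered list) → `u` is onto, so the sum over `u` is at most the sum over the lists.) -/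
theorem rough_sum (a : ℝ) (ha : 0 < a) (ha1 : a ≤ 1) : ∃ C : ℝ, 0 < C ∧ ∀ Y : ℝ, (2 : ℝ) ^ (2 / a) ≤ Y →
    ∑ u ∈ (ob Y).filter (Rough (Y ^ a)), 1 / (nm u : ℝ) ≤ C := by
  obtain ⟨C0, hC0, hCP⟩ := CP_sum
  set Lam : ℝ := |Real.log (2 / a)| + C0 with hLam
  have hLam0 : 0 ≤ Lam := by positivity
  set R : ℕ := ⌊1 / a⌋₊ with hR
  refine ⟨(ball 1).card * ∑ r ∈ range (R + 1), Lam ^ r + 1, by positivity, fun Y hY => ?_⟩
  have hY4 : (4 : ℝ) ≤ Y := by
    refine le_trans ?_ hY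
    have : (2 : ℝ) ^ (2 : ℝ) ≤ (2 : ℝ) ^ (2 / a) := by
      apply Real.rpow_le_rpow_of_exponent_le (by norm_num)
      rw [le_div_iff₀ ha]
      nlinarith
    have h2 : (2 : ℝ) ^ (2 : ℝ) = 4 := by norm_num
    linarith
  have hY0 : 0 < Y := by linarith
  have hY1 : 1 < Y := by linarith
  have hYa2 : (2 : ℝ) ≤ Y ^ (a / 2) := by
    have h1 : ((2 : ℝ) ^ (2 / a)) ^ (a / 2) ≤ Y ^ (a / 2) :=
      Real.rpow_le_rpow (by positivity) hY (by positivity)
    rw [← Real.rpow_mul (by norm_num)] at h1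
    have h2 : 2 / a * (a / 2) = 1 := by field_simp
    rw [h2, Real.rpow_one] at h1
    exact h1
  have hYsq : Y ^ a = Y ^ (a / 2) * Y ^ (a / 2) := by
    rw [← Real.rpow_add hY0]
    congr 1
    ring
  have hYa4 : (4 : ℝ) ≤ Y ^ a := by rw [hYsq]; nlinarith
  set S : Finset G := (CP Y).filter (fun w => Y ^ a / 2 < (nm w : ℝ)) with hS
  set lam : ℝ := ∑ w ∈ S, 1 / (nm w : ℝ) with hlam
  have hlam0 : 0 ≤ lam := Finset.sum_nonneg fun w _ => by positivity
  have hlamL : lam ≤ Lam := by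
    have h1 := hCP Y (Y ^ a / 2) (by linarith) (by
      have : Y ^ a ≤ Y ^ (1 : ℝ) := Real.rpow_le_rpow_of_exponent_le hY1.le ha1
      rw [Real.rpow_one] at this
      linarith)
    have hlogY : 0 < Real.log Y := Real.log_pos hY1
    have h2 : a / 2 * Real.log Y ≤ Real.log (Y ^ a / 2) := by
      rw [← Real.log_rpow hY0]
      apply Real.log_le_log (by positivity)
      rw [hYsq, le_div_iff₀ (by norm_num)]
      nlinarith
    have h3 : Real.log (a / 2 * Real.log Y) ≤ Real.log (Real.log (Y ^ a / 2)) :=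
      Real.log_le_log (by positivity) h2
    rw [Real.log_mul (by positivity) hlogY.ne'] at h3
    have h4 : Real.log (2 / a) = - Real.log (a / 2) := by
      rw [← Real.log_inv, inv_div]
    have h5 := le_abs_self (Real.log (2 / a))
    rw [hLam]
    linarith
  -- the index set
  let T : Finset (G × (Σ r : ℕ, (Fin r → G))) :=
    (ball 1) ×ˢ ((range (R + 1)).sigma (fun r => Fintype.piFinset (fun _ : Fin r => S)))
  let g : (G × (Σ r : ℕ, (Fin r → G))) → G := fun t => t.1 * ∏ i, t.2.2 i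
  have hsec : ∀ u ∈ (ob Y).filter (Rough (Y ^ a)), ∃ t ∈ T, g t = u := by
    intro u hu
    rw [mem_filter] at hu
    obtain ⟨hu1, hu2⟩ := hu
    rw [ob, mem_filter] at hu1
    obtain ⟨hub, huo⟩ := hu1
    have huY : (nm u : ℝ) ≤ Y := CPS.mem_ball.1 hub
    obtain ⟨e, l, he, hl, hl2, hl3⟩ := rough_fac Y (Y ^ a) (by linarith) u huo huY hu2
    refine ⟨(e, ⟨l.length, fun i => l.get i⟩), ?_, ?_⟩
    · simp only [T, mem_product, mem_sigma, Fintype.mem_piFinset, mem_range]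
      refine ⟨CPS.mem_ball.2 (by rw [he]; norm_num), ?_, ?_⟩
      · have h1 : (Y ^ a) ^ l.length ≤ Y := hl3.trans huY
        rw [← Real.rpow_natCast, ← Real.rpow_mul hY0.le] at h1
        have h2 : a * (l.length : ℝ) ≤ 1 := by
          by_contra hcon
          push Not at hcon
          have : Y ^ (1 : ℝ) < Y ^ (a * (l.length : ℝ)) := Real.rpow_lt_rpow_of_exponent_lt hY1 hcon
          rw [Real.rpow_one] at this
          linarith
        have h3 : (l.length : ℝ) ≤ 1 / a := by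
          rw [le_div_iff₀ ha]; linarith
        have h4 : l.length ≤ R := Nat.le_floor h3
        omega
      · intro i
        have h5 := hl2 (l.get i) (List.get_mem l i)
        rw [hS, mem_filter]
        exact ⟨h5.1, by linarith [h5.2]⟩
    · simp only [g]
      rw [hl, ← List.prod_ofFn]
      congr 1
      simp
  choose! sec hsecT hsecg using hsec
  have hF0 : ∀ z : G, 0 ≤ 1 / (nm z : ℝ) := fun z => by positivity
  have hinj : Set.InjOn sec ((ob Y).filter (Rough (Y ^ a)) : Finset G) := by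
    intro u hu v hv h
    rw [← hsecg u hu, ← hsecg v hv, h]
  calc ∑ u ∈ (ob Y).filter (Rough (Y ^ a)), 1 / (nm u : ℝ)
      = ∑ u ∈ (ob Y).filter (Rough (Y ^ a)), 1 / (nm (g (sec u)) : ℝ) := by
        refine Finset.sum_congr rfl fun u hu => ?_
        rw [hsecg u hu]
    _ = ∑ t ∈ ((ob Y).filter (Rough (Y ^ a))).image sec, 1 / (nm (g t) : ℝ) := by
        rw [Finset.sum_image hinj]
    _ ≤ ∑ t ∈ T, 1 / (nm (g t) : ℝ) := by
        refine Finset.sum_le_sum_of_subset_of_nonneg ?_ fun t _ _ => hF0 _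
        intro t ht
        rw [mem_image] at ht
        obtain ⟨u, hu, rfl⟩ := ht
        exact hsecT u hu
    _ ≤ ∑ t ∈ T, ∏ i, 1 / (nm (t.2.2 i) : ℝ) := by
        refine Finset.sum_le_sum fun t ht => ?_
        simp only [g]
        rw [CPS.nm_mul, roughsum_nm_prod]
        have h1 : nm t.1 ≤ 1 := by
          have := CPS.mem_ball.1 (mem_product.1 ht).1
          exact_mod_cast this
        rw [Finset.prod_div_distrib, Finset.prod_const_one]
        push_cast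
        rcases Nat.le_one_iff_eq_zero_or_eq_one.1 h1 with h | h
        · rw [h]
          simp only [Nat.cast_zero, zero_mul, div_zero]
          positivity
        · rw [h]
          simp
    _ = (ball 1).card * ∑ r ∈ range (R + 1), lam ^ r := by
        rw [Finset.sum_product]
        have hin : ∀ e : G, ∑ s ∈ (range (R + 1)).sigma (fun r => Fintype.piFinset (fun _ : Fin r => S)),
            ∏ i, 1 / (nm ((e, s).2.2 i) : ℝ) = ∑ r ∈ range (R + 1), lam ^ r := by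
          intro e
          rw [Finset.sum_sigma]
          refine Finset.sum_congr rfl fun r _ => ?_
          have h1 := Finset.prod_univ_sum (fun _ : Fin r => S) (fun _ w => 1 / (nm w : ℝ))
          rw [Finset.prod_const, Finset.card_univ, Fintype.card_fin] at h1
          exact h1.symm
        rw [Finset.sum_congr rfl fun e _ => hin e, Finset.sum_const, nsmul_eq_mul]
    _ ≤ (ball 1).card * ∑ r ∈ range (R + 1), Lam ^ r := by
        refine mul_le_mul_of_nonneg_left ?_ (by positivity)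
        refine Finset.sum_le_sum fun r _ => ?_
        exact pow_le_pow_left₀ hlam0 hlamL r
    _ ≤ (ball 1).card * ∑ r ∈ range (R + 1), Lam ^ r + 1 := by linarith

end Pool.Agent.ECM

end
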