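import Mathlib
import Pool.Agent.Lib_MP_f1a94e_m.G01
import Pool.Agent.Lib_MP_f1a94e_m.G09
import Pool.Agent.Lib_MP_f1a94e_m.G10
import Pool.Agent.Lib_MP_f1a94e_m.G12

/-!
# MP_f1a94e_nt: merged library part G13

Concatenation of files of the libraries `Lib_MP_f1a94e_*` (each in its own section), only to save build time.
-/

/-! ### from `Lib_MP_f1a94e_ecm.TypeI` -/

section

/-!
# Piece M-TYPEI: type I sums with characters
-/

set_option autoImplicit false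

namespace Pool.Agent.ECM

open Finset Pool.Agent.GaussMR Pool.Agent.GaussCM Pool.Agent.OmAll

open Classical in
/-- `|k| ≤ Y^(3/20)`: `smallG`, `|k| sqrt Y ≤ Y^(13/20)`; larger `k`: `midG` with `Q ≥ 2 A + 1`. -/
theorem typeI_class (m : ℕ) (hm : 0 < m) (A : ℝ) (hA : 1 ≤ A) : ∃ η C : ℝ, 0 < η ∧ η ≤ 1 / 2 ∧ 0 < C ∧
    ∀ (Y : ℝ) (b : G) (k : ℤ), 1 ≤ Y → k ≠ 0 → |(k : ℝ)| ≤ Y ^ A →
    ‖∑ z ∈ (ball Y).filter (fun z => cg m z b), xi k z‖ ≤ C * Y ^ (1 - η) := by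
  obtain ⟨Q, hQ⟩ := exists_nat_ge (2 * A + 1)
  have hQ2 : 2 ≤ Q := by
    have : (2 : ℝ) ≤ (Q : ℝ) := by linarith
    exact_mod_cast this
  obtain ⟨η1, C1, hη1, hη1', hC1, h1⟩ := midG m hm Q hQ2
  obtain ⟨C2, hC2, h2⟩ := smallG m hm
  refine ⟨min η1 (7 / 20), C1 + C2, lt_min hη1 (by norm_num), le_trans (min_le_left _ _) hη1',
    by positivity, ?_⟩
  intro Y b k hY hk hkA
  have hY0 : 0 < Y := by linarith
  rcases le_or_gt (|(k : ℝ)|) (Y ^ (3 / 20 : ℝ)) with h | h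
  · have h3 := h2 Y b k hY hk
    have h4 : |(k : ℝ)| * Real.sqrt Y ≤ Y ^ (1 - min η1 (7 / 20)) := by
      calc |(k : ℝ)| * Real.sqrt Y ≤ Y ^ (3 / 20 : ℝ) * Y ^ (1 / 2 : ℝ) := by
            rw [← Real.sqrt_eq_rpow]
            exact mul_le_mul_of_nonneg_right h (Real.sqrt_nonneg _)
        _ = Y ^ (13 / 20 : ℝ) := by rw [← Real.rpow_add hY0]; norm_num
        _ ≤ _ := by
            apply Real.rpow_le_rpow_of_exponent_le hY
            have := min_le_right η1 (7 / 20 : ℝ)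
            linarith
    have h5 : 0 ≤ Y ^ (1 - min η1 (7 / 20)) := by positivity
    calc _ ≤ C2 * |(k : ℝ)| * Real.sqrt Y := h3
      _ = C2 * (|(k : ℝ)| * Real.sqrt Y) := by ring
      _ ≤ C2 * Y ^ (1 - min η1 (7 / 20)) := mul_le_mul_of_nonneg_left h4 hC2.le
      _ ≤ _ := mul_le_mul_of_nonneg_right (by linarith) h5
  · have h6 : |(k : ℝ)| ≤ Y ^ (((Q : ℝ) - 1) / 2) := by
      refine le_trans hkA ?_
      apply Real.rpow_le_rpow_of_exponent_le hY
      linarith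
    have h3 := h1 Y b k hY h.le h6
    have h4 : Y ^ (1 - η1) ≤ Y ^ (1 - min η1 (7 / 20)) := by
      apply Real.rpow_le_rpow_of_exponent_le hY
      have := min_le_left η1 (7 / 20 : ℝ)
      linarith
    have h5 : 0 ≤ Y ^ (1 - min η1 (7 / 20)) := by positivity
    calc _ ≤ C1 * Y ^ (1 - η1) := h3
      _ ≤ C1 * Y ^ (1 - min η1 (7 / 20)) := mul_le_mul_of_nonneg_left h4 hC1.le
      _ ≤ _ := mul_le_mul_of_nonneg_right (by linarith) h5

private theorem tc_cg_iff (D : ℕ) (u v : G) : cg D u v ↔ ((D : ℤ) : G) ∣ u - v := by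
  unfold cg
  rw [Zsqrtd.intCast_dvd]
  simp

private theorem tc_cg_refl (D : ℕ) (u : G) : cg D u u := by
  rw [tc_cg_iff]; simp

private theorem tc_cg_symm {D : ℕ} {u v : G} (h : cg D u v) : cg D v u := by
  rw [tc_cg_iff] at *
  rw [← neg_sub]; exact (dvd_neg).2 h

private theorem tc_cg_trans {D : ℕ} {u v w : G} (h : cg D u v) (h' : cg D v w) : cg D u w := by
  rw [tc_cg_iff] at *
  have : u - w = (u - v) + (v - w) := by ring
  rw [this]; exact dvd_add h h'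

private theorem tc_cg_mul {D : ℕ} {u v : G} (w : G) (h : cg D u v) : cg D (w * u) (w * v) := by
  rw [tc_cg_iff] at *
  rw [← mul_sub]; exact dvd_mul_of_dvd_right h w

private theorem tc_cg_mul' {D : ℕ} {u v : G} (w : G) (h : cg D u v) : cg D (u * w) (v * w) := by
  rw [mul_comm u, mul_comm v]; exact tc_cg_mul w h

/-- representative with coordinates in `[0, D)` -/
private def tcrd (D : ℕ) (z : G) : G := ⟨z.re % D, z.im % D⟩

private noncomputable def tcR (D : ℕ) : Finset G :=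
  open Classical in ((range D ×ˢ range D).image (fun w : ℕ × ℕ => (⟨(w.1 : ℤ), (w.2 : ℤ)⟩ : G)))

private theorem tc_mem (D : ℕ) (z : G) :
    z ∈ tcR D ↔ (0 ≤ z.re ∧ z.re < D) ∧ (0 ≤ z.im ∧ z.im < D) := by
  classical
  unfold tcR
  rw [mem_image]
  constructor
  · rintro ⟨w, hw, rfl⟩
    rw [mem_product, mem_range, mem_range] at hw
    refine ⟨⟨by simp, by simpa using hw.1⟩, ⟨by simp, by simpa using hw.2⟩⟩
  · rintro ⟨⟨h1, h2⟩, h3, h4⟩
    refine ⟨(z.re.toNat, z.im.toNat), ?_, ?_⟩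
    · rw [mem_product, mem_range, mem_range]
      constructor
      · show z.re.toNat < D
        omega
      · show z.im.toNat < D
        omega
    · apply Zsqrtd.ext
      · simp [h1]
      · simp [h3]

private theorem tc_card (D : ℕ) : ((tcR D).card : ℝ) ≤ (D : ℝ) ^ 2 := by
  classical
  have : (tcR D).card ≤ D ^ 2 := by
    unfold tcR
    refine le_trans card_image_le ?_
    rw [card_product, card_range]
    exact le_of_eq (by ring)
  exact_mod_cast this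

private theorem tc_rd_mem (D : ℕ) (hD : 0 < D) (z : G) : tcrd D z ∈ tcR D := by
  rw [tc_mem]
  have hD' : (0 : ℤ) < D := by exact_mod_cast hD
  refine ⟨⟨Int.emod_nonneg _ hD'.ne', Int.emod_lt_of_pos _ hD'⟩,
    ⟨Int.emod_nonneg _ hD'.ne', Int.emod_lt_of_pos _ hD'⟩⟩

private theorem tc_rd_cg (D : ℕ) (z : G) : cg D (tcrd D z) z := by
  unfold cg tcrd
  constructor
  · have := Int.emod_add_mul_ediv z.re D
    exact ⟨-(z.re / D), by simp only; linarith⟩
  · have := Int.emod_add_mul_ediv z.im D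
    exact ⟨-(z.im / D), by simp only; linarith⟩

private theorem tc_unique (D : ℕ) {u v : G} (hu : u ∈ tcR D) (hv : v ∈ tcR D)
    (h : cg D u v) : u = v := by
  rw [tc_mem] at hu hv
  obtain ⟨h1, h2⟩ := h
  have key : ∀ a b : ℤ, 0 ≤ a → a < D → 0 ≤ b → b < D → (D : ℤ) ∣ a - b → a = b := by
    intro a b ha ha' hb hb' hd
    have := Int.eq_zero_of_abs_lt_dvd hd (by rw [abs_lt]; constructor <;> linarith)
    linarith
  exact Zsqrtd.ext (key _ _ hu.1.1 hu.1.2 hv.1.1 hv.1.2 h1) (key _ _ hu.2.1 hu.2.2 hv.2.1 hv.2.2 h2)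

private theorem tc_sum_zero (D : ℕ) (hD : 0 < D) (χ : G → ℂ) (hχ : Chi D χ) (hp : ¬ Pri D χ) :
    ∑ c ∈ tcR D, χ c = 0 := by
  unfold Pri at hp
  push Not at hp
  obtain ⟨z, ⟨w, hw⟩, hz⟩ := hp
  have hw' : cg D (w * z) 1 := by rwa [mul_comm]
  have h1 : ∑ c ∈ tcR D, χ c = ∑ c ∈ tcR D, χ (z * c) := by
    refine (Finset.sum_nbij' (fun c => tcrd D (z * c)) (fun c => tcrd D (w * c)) ?_ ?_ ?_ ?_ ?_).symm
    · intro c _; exact tc_rd_mem D hD _
    · intro c _; exact tc_rd_mem D hD _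
    · intro c hc
      refine tc_unique D (tc_rd_mem D hD _) hc ?_
      refine tc_cg_trans (tc_rd_cg D _) ?_
      refine tc_cg_trans (tc_cg_mul w (tc_rd_cg D _)) ?_
      rw [← mul_assoc]
      have := tc_cg_mul' c hw'
      rwa [one_mul] at this
    · intro c hc
      refine tc_unique D (tc_rd_mem D hD _) hc ?_
      refine tc_cg_trans (tc_rd_cg D _) ?_
      refine tc_cg_trans (tc_cg_mul z (tc_rd_cg D _)) ?_
      rw [← mul_assoc]
      have := tc_cg_mul' c hw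
      rwa [one_mul] at this
    · intro c _
      exact (hχ.per _ _ (tc_rd_cg D _)).symm
  have h2 : ∑ c ∈ tcR D, χ (z * c) = χ z * ∑ c ∈ tcR D, χ c := by
    rw [mul_sum]
    exact sum_congr rfl (fun c _ => hχ.mul z c)
  rw [h2] at h1
  have h3 : (χ z - 1) * ∑ c ∈ tcR D, χ c = 0 := by
    rw [sub_mul, one_mul, ← h1, sub_self]
  rcases mul_eq_zero.1 h3 with h4 | h4
  · exact absurd (sub_eq_zero.1 h4) hz
  · exact h4

open Classical in
private theorem tc_split (D : ℕ) (hD : 0 < D) (Y : ℝ) (f : G → ℂ) :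
    ∑ z ∈ ball Y, f z = ∑ c ∈ tcR D, ∑ z ∈ (ball Y).filter (fun z => cg D z c), f z := by
  rw [← Finset.sum_fiberwise_of_maps_to (s := ball Y) (t := tcR D) (g := tcrd D)
    (fun z _ => tc_rd_mem D hD z) f]
  apply sum_congr rfl
  intro c hc
  apply sum_congr _ (fun _ _ => rfl)
  apply filter_congr
  intro z _
  constructor
  · intro h
    rw [← h]
    exact tc_cg_symm (tc_rd_cg D z)
  · intro h
    exact tc_unique D (tc_rd_mem D hD _) hc (tc_cg_trans (tc_rd_cg D z) h)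

/-- Split into the `D²` residue classes modulo `D` (representatives with coordinates in `[0, D)`). `k ≠ 0`: `typeI_class`. `k = 0` and `χ` not principal: there is `c`, invertible modulo `D`, with `χ c ≠ 1`; by `countG` the sum is
`N ∑_{b mod D} χ b + O(sqrt Y)`, and `∑_b χ b = ∑_b χ (c b) = χ c ∑_b χ b` (multiplication by `c` permutes the classes), so `∑_b χ b = 0`. -/
theorem typeChi (D : ℕ) (hD : 0 < D) (A : ℝ) (hA : 1 ≤ A) : ∃ η C : ℝ, 0 < η ∧ η ≤ 1 / 2 ∧ 0 < C ∧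
    ∀ χ : G → ℂ, Chi D χ → ∀ (Y : ℝ) (k : ℤ), 1 ≤ Y → (k ≠ 0 ∨ ¬ Pri D χ) → |(k : ℝ)| ≤ Y ^ A →
    ‖∑ z ∈ ball Y, χ z * xi k z‖ ≤ C * Y ^ (1 - η) := by
  classical
  obtain ⟨η, C1, hη, hη', hC1, h1⟩ := typeI_class D hD A hA
  obtain ⟨C2, hC2, h2⟩ := countG D hD
  have hDr : (0 : ℝ) < (D : ℝ) := by exact_mod_cast hD
  refine ⟨η, (D : ℝ) ^ 2 * (C1 + C2), hη, hη', by positivity, ?_⟩
  intro χ hχ Y k hY hk hkA
  have hY0 : 0 < Y := by linarith
  have hsplit : ∑ z ∈ ball Y, χ z * xi k z =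
      ∑ c ∈ tcR D, χ c * ∑ z ∈ (ball Y).filter (fun z => cg D z c), xi k z := by
    rw [tc_split D hD Y]
    apply sum_congr rfl
    intro c _
    rw [mul_sum]
    apply sum_congr rfl
    intro z hz
    rw [mem_filter] at hz
    rw [hχ.per _ _ hz.2]
  have hYp : (0 : ℝ) ≤ Y ^ (1 - η) := by positivity
  have hcard := tc_card D
  -- a common bound
  have bound : ∀ (g : G → ℂ) (B : ℝ), 0 ≤ B → (∀ c, ‖g c‖ ≤ B) →
      ‖∑ c ∈ tcR D, χ c * g c‖ ≤ (D : ℝ) ^ 2 * B := by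
    intro g B hB hg
    calc ‖∑ c ∈ tcR D, χ c * g c‖ ≤ ∑ c ∈ tcR D, ‖χ c * g c‖ := norm_sum_le _ _
      _ ≤ ∑ c ∈ tcR D, B := by
          apply sum_le_sum
          intro c _
          rw [norm_mul]
          calc ‖χ c‖ * ‖g c‖ ≤ 1 * B := mul_le_mul (hχ.le c) (hg c) (norm_nonneg _) zero_le_one
            _ = B := one_mul B
      _ = (tcR D).card * B := by rw [sum_const, nsmul_eq_mul]
      _ ≤ _ := mul_le_mul_of_nonneg_right hcard hB
  by_cases hk0 : k = 0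
  · subst hk0
    have hp : ¬ Pri D χ := by
      rcases hk with h | h
      · exact absurd rfl h
      · exact h
    have hxi : ∀ z, xi 0 z = 1 := fun z => by unfold xi; simp
    have h0 := tc_sum_zero D hD χ hχ hp
    set N0 : ℂ := ((((ball Y).filter (fun z => cg D z 0)).card : ℝ) : ℂ) with hN0
    have h3 : ∑ z ∈ ball Y, χ z * xi 0 z =
        ∑ c ∈ tcR D, χ c * ((∑ z ∈ (ball Y).filter (fun z => cg D z c), xi 0 z) - N0) := by
      rw [hsplit]
      have : ∑ c ∈ tcR D, χ c * ((∑ z ∈ (ball Y).filter (fun z => cg D z c), xi 0 z) - N0) =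
          ∑ c ∈ tcR D, χ c * (∑ z ∈ (ball Y).filter (fun z => cg D z c), xi 0 z) -
          (∑ c ∈ tcR D, χ c) * N0 := by
        rw [sum_mul, ← sum_sub_distrib]
        exact sum_congr rfl (fun c _ => by ring)
      rw [this, h0, zero_mul, sub_zero]
    rw [h3]
    have hsq : Real.sqrt Y ≤ Y ^ (1 - η) := by
      rw [Real.sqrt_eq_rpow]
      apply Real.rpow_le_rpow_of_exponent_le hY
      linarith
    calc _ ≤ (D : ℝ) ^ 2 * (C2 * Real.sqrt Y) := by
          apply bound (fun c => (∑ z ∈ (ball Y).filter (fun z => cg D z c), xi 0 z) - N0)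
            (C2 * Real.sqrt Y) (by positivity)
          intro c
          have h4 := h2 Y c 0 hY
          have h5 : (∑ z ∈ (ball Y).filter (fun z => cg D z c), xi 0 z) - N0 =
              (((((ball Y).filter (fun z => cg D z c)).card : ℝ) -
                (((ball Y).filter (fun z => cg D z 0)).card : ℝ) : ℝ) : ℂ) := by
            rw [hN0]
            push_cast
            congr 1
            rw [sum_congr rfl (fun z _ => hxi z)]
            simp
          rw [h5, Complex.norm_real, Real.norm_eq_abs]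
          exact h4
      _ ≤ (D : ℝ) ^ 2 * (C2 * Y ^ (1 - η)) := by
          apply mul_le_mul_of_nonneg_left _ (by positivity)
          exact mul_le_mul_of_nonneg_left hsq hC2.le
      _ ≤ (D : ℝ) ^ 2 * (C1 + C2) * Y ^ (1 - η) := by
          rw [mul_assoc]
          apply mul_le_mul_of_nonneg_left _ (by positivity)
          exact mul_le_mul_of_nonneg_right (by linarith) hYp
  · rw [hsplit]
    calc _ ≤ (D : ℝ) ^ 2 * (C1 * Y ^ (1 - η)) := by
          apply bound (fun c => ∑ z ∈ (ball Y).filter (fun z => cg D z c), xi k z)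
            (C1 * Y ^ (1 - η)) (by positivity)
          intro c
          exact h1 Y c k hY hk0 hkA
      _ ≤ (D : ℝ) ^ 2 * (C1 + C2) * Y ^ (1 - η) := by
          rw [mul_assoc]
          apply mul_le_mul_of_nonneg_left _ (by positivity)
          exact mul_le_mul_of_nonneg_right (by linarith) hYp

end Pool.Agent.ECM

end

/-! ### from `Lib_MP_f1a94e_ecm.Weight2` -/

section

/-!
# Piece M-WEIGHT: the sifted weights in arithmetic progressions
-/

set_option autoImplicit false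

namespace Pool.Agent.ECM

open Finset Pool.Agent.GaussMR Pool.Agent.GaussCM Pool.Agent.OmAll

open Classical in
private theorem weight2_ob_sum {D : ℕ} {χ : G → ℂ} (hχ : Chi D χ) (k : ℤ) (t : ℝ) :
    ∑ z ∈ ob t, χ z * xi k z = ∑ z ∈ ball t, χ z * xi k z := by
  rw [← Weight.sum_odd]
  refine Finset.sum_congr rfl fun z _ => ?_
  split_ifs with h
  · rfl
  · rw [hχ.even z h, zero_mul]

open Classical in
/-- As `weight` (Lib_MP_f1a94e_mr/Weight.lean). Substitute `u = d s` (`reindex`): the sum is `(1 / nm d) (∑ 1 / nm s - Re (χ d xi k d ∑ χ s xi k s / nm s))`, `s` odd, `Y^(1/2) / nm d < nm s ≤ Y^(3/4) / nm d`.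
First part: `partial_odd` with `odd_asymp`: `κ_odd log (Y^(1/4)) + O((Y^(1/2) / nm d)^(-1/2))`, so `κ = κ_odd / 4`. Second part: `partial_sum` (Psum.lean) with `κ = 0`, `c z = χ z xi k z` (zero for even `z`), `typeChi` with `4 A`
(`|k| ≤ Y^A ≤ t^(4 A)` for `t ≥ Y^(1/4)`): `≤ C (Y^(1/2) / nm d)^(-η') ≤ C Y^(-η'/4)`. -/
theorem weight2 : ∃ κ : ℝ, 0 < κ ∧ ∀ (D : ℕ) (A : ℝ), 0 < D → 1 ≤ A → ∃ η Y0 : ℝ, 0 < η ∧ ∀ Y : ℝ, Y0 ≤ Y →
    ∀ χ : G → ℂ, Chi D χ → ∀ k : ℤ, (k ≠ 0 ∨ ¬ Pri D χ) → |(k : ℝ)| ≤ Y ^ A →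
    ∀ d : G, Odd (nm d) → (nm d : ℝ) ≤ Y ^ (1 / 4 : ℝ) →
    |∑ u ∈ (ob (Y ^ (3 / 4 : ℝ)) \ ob (Y ^ (1 / 2 : ℝ))).filter (fun u => d ∣ u),
      (1 / (nm u : ℝ)) * (1 - (χ u * xi k u).re) - κ * Real.log Y / nm d| ≤ Y ^ (-η) / nm d := by
  obtain ⟨κ0, C, hκ0, hC, hodd⟩ := odd_asymp
  refine ⟨κ0 / 4, by positivity, ?_⟩
  intro D A hD hA
  obtain ⟨η', C', hη', hη'2, hC', htype⟩ := typeChi D hD (4 * A) (by linarith)
  have hev : ∀ᶠ Y : ℝ in Filter.atTop, 8 * C + 4 * C' / η' ≤ Y ^ (η' / 8) :=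
    (tendsto_rpow_atTop (by positivity)).eventually_ge_atTop _
  obtain ⟨Y0, hY0⟩ := Filter.eventually_atTop.1 hev
  refine ⟨η' / 8, max Y0 1, by positivity, ?_⟩
  intro Y hY χ hχ k hk hkY d hd hdY
  have hY1 : 1 ≤ Y := (le_max_right _ _).trans hY
  have hYpos : 0 < Y := by linarith
  have he2 := hY0 Y ((le_max_left _ _).trans hY)
  have hd0 : d ≠ 0 := ne_zero_of_odd hd
  have hn : (0 : ℝ) < nm d := by exact_mod_cast nm_pos hd0
  set T1 : ℝ := Y ^ (1 / 2 : ℝ) / nm d with hT1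
  set T2 : ℝ := Y ^ (3 / 4 : ℝ) / nm d with hT2
  have hT1low : Y ^ (1 / 4 : ℝ) ≤ T1 := by
    rw [hT1, le_div_iff₀ hn]
    calc Y ^ (1 / 4 : ℝ) * nm d ≤ Y ^ (1 / 4 : ℝ) * Y ^ (1 / 4 : ℝ) :=
          mul_le_mul_of_nonneg_left hdY (Real.rpow_nonneg hYpos.le _)
      _ = Y ^ (1 / 2 : ℝ) := by rw [← Real.rpow_add hYpos]; norm_num
  have hT1one : 1 ≤ T1 := (Real.one_le_rpow hY1 (by norm_num)).trans hT1low
  have hT1pos : 0 < T1 := by linarith
  have hT12 : T1 ≤ T2 := by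
    rw [hT1, hT2]
    exact div_le_div_of_nonneg_right (Real.rpow_le_rpow_of_exponent_le hY1 (by norm_num)) hn.le
  have hlog : Real.log (T2 / T1) = 1 / 4 * Real.log Y := by
    have h1 : T2 / T1 = Y ^ (1 / 4 : ℝ) := by
      rw [hT1, hT2, div_div_div_cancel_right₀ hn.ne', ← Real.rpow_sub hYpos]
      norm_num
    rw [h1, Real.log_rpow hYpos]
  -- the two sums
  have hA1 := Weight.partial_odd (1 / 2) (by norm_num) (by norm_num) (fun _ => 1) (κ0 : ℂ) C T1 T2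
    hT1one hT12 hC.le (by
      intro t ht1 ht2
      have h1 := hodd t (by linarith)
      have h2 : ∑ z ∈ ob t, (1 : ℂ) - (κ0 : ℂ) * (t : ℂ) =
          ((((ob t).card : ℝ) - κ0 * t : ℝ) : ℂ) := by
        push_cast
        simp
      rw [h2, Complex.norm_real, Real.norm_eq_abs]
      refine h1.trans (le_of_eq ?_)
      rw [Real.sqrt_eq_rpow]
      norm_num)
  have hB := Weight.partial_odd η' hη' (by linarith) (fun z => χ z * xi k z) 0
    C' T1 T2 hT1one hT12 hC'.le (by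
      intro t ht1 ht2
      have h1 : |(k : ℝ)| ≤ t ^ (4 * A) := by
        calc |(k : ℝ)| ≤ Y ^ A := hkY
          _ = Y ^ ((1 / 4) * (4 * A) : ℝ) := by congr 1; ring
          _ = (Y ^ (1 / 4 : ℝ)) ^ (4 * A) := by rw [Real.rpow_mul hYpos.le]
          _ ≤ t ^ (4 * A) :=
            Real.rpow_le_rpow (Real.rpow_nonneg hYpos.le _) (hT1low.trans ht1) (by linarith)
      have h3 := htype χ hχ t k (hT1one.trans ht1) hk h1
      rw [zero_mul, sub_zero, weight2_ob_sum hχ]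
      exact h3)
  rw [Weight.reindex hd]
  -- bounds for the powers of T1
  have hp1 : T1 ^ (-(1 / 2) : ℝ) ≤ Y ^ (-(η' / 4) : ℝ) := by
    calc T1 ^ (-(1 / 2) : ℝ) ≤ (Y ^ (1 / 4 : ℝ)) ^ (-(1 / 2) : ℝ) :=
          Real.rpow_le_rpow_of_nonpos (Real.rpow_pos_of_pos hYpos _) hT1low (by norm_num)
      _ = Y ^ (1 / 4 * (-(1 / 2)) : ℝ) := by rw [Real.rpow_mul hYpos.le]
      _ ≤ Y ^ (-(η' / 4) : ℝ) := Real.rpow_le_rpow_of_exponent_le hY1 (by linarith)
  have hp2 : T1 ^ (-η' : ℝ) ≤ Y ^ (-(η' / 4) : ℝ) := by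
    calc T1 ^ (-η' : ℝ) ≤ (Y ^ (1 / 4 : ℝ)) ^ (-η' : ℝ) :=
          Real.rpow_le_rpow_of_nonpos (Real.rpow_pos_of_pos hYpos _) hT1low (by linarith)
      _ = Y ^ (-(η' / 4) : ℝ) := by rw [← Real.rpow_mul hYpos.le]; congr 1; ring
  set SA : ℂ := ∑ z ∈ ob T2 \ ob T1, (1 : ℂ) / (nm z : ℂ) with hSA
  set SB : ℂ := ∑ z ∈ ob T2 \ ob T1, χ z * xi k z / (nm z : ℂ) with hSB
  have hsum : ∑ s ∈ ob T2 \ ob T1, (1 / (nm (d * s) : ℝ)) * (1 - (χ (d * s) * xi k (d * s)).re) =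
      (1 / (nm d : ℝ)) * (SA - χ d * xi k d * SB).re := by
    rw [hSA, hSB, Finset.mul_sum, ← Finset.sum_sub_distrib, Complex.re_sum, Finset.mul_sum]
    refine Finset.sum_congr rfl fun s _ => ?_
    rw [nm_mul, xi_mul, hχ.mul]
    have h1 : (1 : ℂ) / (nm s : ℂ) - χ d * xi k d * (χ s * xi k s / (nm s : ℂ)) =
        ((1 / (nm s : ℝ) : ℝ) : ℂ) * (1 - χ d * χ s * (xi k d * xi k s)) := by
      push_cast
      ring
    rw [h1, Complex.re_ofReal_mul, Complex.sub_re, Complex.one_re]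
    push_cast
    rw [← mul_assoc (1 / (nm d : ℝ)), one_div_mul_one_div]
  rw [hsum]
  have hnxi : ‖χ d * xi k d‖ ≤ 1 := by
    rw [norm_mul, norm_xi _ hd0, mul_one]
    exact hχ.le d
  have hfin : |(SA - χ d * xi k d * SB).re - κ0 / 4 * Real.log Y| ≤
      (8 * C + 4 * C' / η') * Y ^ (-(η' / 4) : ℝ) := by
    have h1 : (SA - χ d * xi k d * SB).re - κ0 / 4 * Real.log Y =
        ((SA - (κ0 : ℂ) * (Real.log (T2 / T1) : ℂ)) - χ d * xi k d *
          (SB - 0 * (Real.log (T2 / T1) : ℂ))).re := by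
      rw [hlog]
      have h2 : (SA - (κ0 : ℂ) * ((1 / 4 * Real.log Y : ℝ) : ℂ)) - χ d * xi k d *
          (SB - 0 * ((1 / 4 * Real.log Y : ℝ) : ℂ)) =
          (SA - χ d * xi k d * SB) - ((κ0 / 4 * Real.log Y : ℝ) : ℂ) := by
        push_cast
        ring
      rw [h2, Complex.sub_re (SA - χ d * xi k d * SB), Complex.ofReal_re]
    rw [h1]
    refine (Complex.abs_re_le_norm _).trans ((norm_sub_le _ _).trans ?_)
    have h0 : ‖χ d * xi k d * (SB - 0 * (Real.log (T2 / T1) : ℂ))‖ ≤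
        ‖SB - 0 * (Real.log (T2 / T1) : ℂ)‖ := by
      rw [norm_mul]
      exact mul_le_of_le_one_left (norm_nonneg _) hnxi
    have h3 : 4 * C / (1 / 2) * T1 ^ (-(1 / 2) : ℝ) ≤ 8 * C * Y ^ (-(η' / 4) : ℝ) := by
      have : 4 * C / (1 / 2) = 8 * C := by ring
      rw [this]
      exact mul_le_mul_of_nonneg_left hp1 (by positivity)
    have h4 : 4 * C' / η' * T1 ^ (-η' : ℝ) ≤
        4 * C' / η' * Y ^ (-(η' / 4) : ℝ) :=
      mul_le_mul_of_nonneg_left hp2 (by positivity)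
    have h5 := hA1.trans h3
    have h6 := h0.trans (hB.trans h4)
    linarith
  have h7 : (1 / (nm d : ℝ)) * (SA - χ d * xi k d * SB).re - κ0 / 4 * Real.log Y / nm d =
      (1 / (nm d : ℝ)) * ((SA - χ d * xi k d * SB).re - κ0 / 4 * Real.log Y) := by
    ring
  rw [h7, abs_mul, abs_of_pos (by positivity : (0 : ℝ) < 1 / nm d)]
  calc 1 / (nm d : ℝ) * |(SA - χ d * xi k d * SB).re - κ0 / 4 * Real.log Y|
      ≤ 1 / (nm d : ℝ) * ((8 * C + 4 * C' / η') * Y ^ (-(η' / 4) : ℝ)) :=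
        mul_le_mul_of_nonneg_left hfin (by positivity)
    _ ≤ 1 / (nm d : ℝ) * (Y ^ (η' / 8) * Y ^ (-(η' / 4) : ℝ)) :=
        mul_le_mul_of_nonneg_left (mul_le_mul_of_nonneg_right he2 (Real.rpow_nonneg hYpos.le _))
          (by positivity)
    _ = Y ^ (-(η' / 8)) / nm d := by
        rw [← Real.rpow_add hYpos]
        have : η' / 8 + -(η' / 4) = -(η' / 8) := by ring
        rw [this]
        ring

end Pool.Agent.ECM

end

/-! ### from `Lib_MP_f1a94e_ecm.Sieve2` -/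

section

/-!
# Piece M-SIEVE: almost primes on which `χ xi k` is not close to one
-/

set_option autoImplicit false

namespace Pool.Agent.ECM

open Finset Pool.Agent.GaussMR Pool.Agent.GaussCM Pool.Agent.OmAll

open Pool.Agent.GaussMR.SieveA

/-- the error term tends to zero -/
private theorem sieve2_err {η B c : ℝ} (hη : 0 < η) (hB : 0 ≤ B) (hc : 0 < c) :
    ∀ᶠ Y : ℝ in Filter.atTop, Y ^ (-η) * (B * Real.log Y) ≤ c := by
  have h1 : Filter.Tendsto (fun Y : ℝ => Real.log Y / Y ^ η) Filter.atTop (nhds 0) :=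
    (isLittleO_log_rpow_atTop hη).tendsto_div_nhds_zero
  have h3 : Filter.Tendsto (fun Y : ℝ => B * (Real.log Y / Y ^ η)) Filter.atTop
      (nhds (B * 0)) := h1.const_mul B
  rw [mul_zero] at h3
  filter_upwards [h3.eventually_le_const hc, Filter.eventually_gt_atTop 0] with Y hY hY0
  refine le_trans (le_of_eq ?_) hY
  rw [Real.rpow_neg hY0.le]
  ring

/-- `∏ (1 + 1 / nm w)` over the primes of norm at most `y` -/
private theorem sieve2_prod {C : ℝ} (hC : ∀ y y' : ℝ, 2 ≤ y' → y' ≤ y →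
    ∑ w ∈ (CP y).filter (fun w => y' < (nm w : ℝ)), 1 / (nm w : ℝ) ≤
      Real.log (Real.log y) - Real.log (Real.log y') + C) {y : ℝ} (hy : 2 ≤ y) :
    ∏ w ∈ CP y, (1 + 1 / (nm w : ℝ)) ≤ Real.exp C / Real.log 2 * Real.log y := by
  classical
  have h1 := hC y 2 le_rfl hy
  have hf : (CP y).filter (fun w => (2 : ℝ) < (nm w : ℝ)) = CP y := by
    rw [Finset.filter_eq_self]
    intro w hw
    have := CP_nm hw
    exact_mod_cast (by omega : 2 < nm w)
  rw [hf] at h1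
  have hly : 0 < Real.log y := Real.log_pos (by linarith)
  have hl2 : 0 < Real.log 2 := Real.log_pos (by norm_num)
  calc ∏ w ∈ CP y, (1 + 1 / (nm w : ℝ)) ≤ ∏ w ∈ CP y, Real.exp (1 / (nm w : ℝ)) := by
        refine Finset.prod_le_prod (fun w _ => by positivity) fun w _ => ?_
        have := Real.add_one_le_exp (1 / (nm w : ℝ))
        linarith
    _ = Real.exp (∑ w ∈ CP y, 1 / (nm w : ℝ)) := (Real.exp_sum _ _).symm
    _ ≤ Real.exp (Real.log (Real.log y) - Real.log (Real.log 2) + C) := Real.exp_le_exp.mpr h1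
    _ = Real.exp C / Real.log 2 * Real.log y := by
        rw [Real.exp_add, Real.exp_sub, Real.exp_log hly, Real.exp_log hl2]
        ring

open Classical in
/-- Copy the proof of `sieve_all` (Lib_MP_f1a94e_mr/SieveA.lean) with `bh2` instead of `bh_inst`: `obj = ob (Y^(3/4)) \ ob (Y^(1/2))`, primes `CP y`, `y = Y^a`, classes `PC y i`, `S u = {w ∈ CP y : w ∣ u}`,
`g w = 1 / nm w`, `X0 = κ log Y`, `E = Y^(-η)` (`weight2`; `∏_(w ∈ D) 1 / nm w = 1 / nm (∏ D)`). A set `D` of the family has `nm (∏ D) ≤ y^(4 b + 6) ≤ Y^(1/4)` with `a = 1 / (4 (4 b + 6))`, an ABSOLUTE constant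
(`b` depends only on the constant of `CP_sum`). Main term `≥ κ c3 / (2 a)` (`CP_prod_lower`); error `Y^(-η) ∏ (1 + 1/nm w) ≤ Y^(-η) exp (∑ 1 / nm w) → 0` (`CP_sum`; here only `Y0` depends on `A`, `D`). -/
theorem sieve2 : ∃ a c : ℝ, 0 < a ∧ a ≤ 1 / 4 ∧ 0 < c ∧ ∀ (D : ℕ) (A : ℝ), 0 < D → 1 ≤ A → ∃ Y0 : ℝ, ∀ Y : ℝ, Y0 ≤ Y →
    ∀ χ : G → ℂ, Chi D χ → ∀ k : ℤ, (k ≠ 0 ∨ ¬ Pri D χ) → |(k : ℝ)| ≤ Y ^ A →
    c ≤ ∑ u ∈ (ob (Y ^ (3 / 4 : ℝ)) \ ob (Y ^ (1 / 2 : ℝ))).filter (Rough (Y ^ a)),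
      (1 / (nm u : ℝ)) * (1 - (χ u * xi k u).re) := by
  obtain ⟨C, hC0, hC⟩ := CP_sum
  obtain ⟨c3, hc3, hprod⟩ := CP_prod_lower
  obtain ⟨κ, hκ, hw⟩ := weight2
  have hl2 : 0 < Real.log 2 := Real.log_pos (by norm_num)
  obtain ⟨b, hb⟩ := bh2 (Real.log 2 + C) (by positivity)
  obtain ⟨a, ha⟩ : ∃ a : ℝ, a = 1 / (4 * (4 * b + 6)) := ⟨_, rfl⟩
  have ha0 : 0 < a := by rw [ha]; positivity
  have ha1 : a ≤ 1 / 4 := by
    rw [ha]
    apply one_div_le_one_div_of_le (by norm_num)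
    have : (0 : ℝ) ≤ b := Nat.cast_nonneg b
    linarith
  have hab : a * (4 * b + 6) = 1 / 4 := by
    rw [ha]
    have : (4 * (b : ℝ) + 6) ≠ 0 := by positivity
    field_simp
  have hc : 0 < κ * c3 / (4 * a) := by positivity
  refine ⟨a, κ * c3 / (4 * a), ha0, ha1, hc, ?_⟩
  intro D A hD hA
  obtain ⟨η, Y1, hη, hw⟩ := hw D A hD hA
  obtain ⟨Y2, hY2⟩ := Filter.eventually_atTop.mp
    ((sieve2_err (η := η) (B := Real.exp C / Real.log 2 * a) hη (by positivity) hc).and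
    (((tendsto_rpow_atTop ha0).eventually_ge_atTop 2)))
  refine ⟨max (max Y1 Y2) 2, ?_⟩
  intro X hX χ hχ k hk hkX
  have hXX1 : Y1 ≤ X := (le_max_left _ _).trans ((le_max_left _ _).trans hX)
  have hXX2 : Y2 ≤ X := (le_max_right _ _).trans ((le_max_left _ _).trans hX)
  have hX2' : 2 ≤ X := (le_max_right _ _).trans hX
  obtain ⟨herr, hy2⟩ := hY2 X hXX2
  have hX0 : 0 < X := by linarith
  have hX1 : 1 ≤ X := by linarith
  obtain ⟨y, hy⟩ : ∃ y : ℝ, y = X ^ a := ⟨_, rfl⟩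
  rw [← hy] at hy2
  have hy1 : 1 ≤ y := by linarith
  have hlogy : Real.log y = a * Real.log X := by rw [hy, Real.log_rpow hX0]
  have hlogX : 0 < Real.log X := Real.log_pos (by linarith)
  have hlogy0 : 0 < Real.log y := by rw [hlogy]; positivity
  have hyX : y ^ (4 * b + 6 : ℝ) = X ^ (1 / 4 : ℝ) := by
    rw [hy, ← Real.rpow_mul hX0.le, hab]
  obtain ⟨t, ht5, hti, -⟩ := exists_t hy1
  have hun := PC_union ht5
  set obj := ob (X ^ (3 / 4 : ℝ)) \ ob (X ^ (1 / 2 : ℝ)) with hobj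
  have hodd : ∀ u ∈ obj, Odd (nm u) := by
    intro u hu
    have h1 := (Finset.mem_sdiff.mp hu).1
    unfold ob at h1
    exact (Finset.mem_filter.mp h1).2
  have hW : ∀ u ∈ obj, 0 ≤ (1 / (nm u : ℝ)) * (1 - (χ u * xi k u).re) := by
    intro u hu
    have h1 : (χ u * xi k u).re ≤ 1 := by
      refine (Complex.re_le_norm _).trans ?_
      rw [norm_mul, norm_xi k (ne_zero_of_odd (hodd u hu)), mul_one]
      exact hχ.le u
    exact mul_nonneg (by positivity) (by linarith)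
  have hBH := hb G G inferInstance obj (fun u => (1 / (nm u : ℝ)) * (1 - (χ u * xi k u).re)) t
    (PC y) (fun u => (CP y).filter (fun w => w ∣ u)) (fun w => 1 / (nm w : ℝ)) (κ * Real.log X)
    (X ^ (-η)) hW (fun i j _ _ hij => PC_disjoint hy1 hij)
    (by
      intro u _
      rw [hun]
      exact Finset.filter_subset _ _)
    (by
      rw [hun]
      intro p hp
      have h5 : (5 : ℝ) ≤ nm p := by exact_mod_cast CP_nm hp
      refine ⟨by positivity, ?_⟩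
      rw [div_le_div_iff₀ (by linarith) (by norm_num)]
      linarith)
    (fun i hi => class_sum hC hy1 (hti i hi)) (by positivity) (by positivity)
    (by
      intro D hD hcard
      have hnm := nm_prod_le hy1 hD hcard
      rw [hyX] at hnm
      rw [hun] at hD
      have hfil : obj.filter (fun u => D ⊆ (CP y).filter (fun w => w ∣ u)) =
          obj.filter (fun u => (∏ w ∈ D, w) ∣ u) := by
        refine Finset.filter_congr fun u _ => ?_
        constructor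
        · intro h
          exact prod_dvd_of_sa hD fun w hw => (Finset.mem_filter.mp (h hw)).2
        · intro h w hw
          exact Finset.mem_filter.mpr ⟨hD hw, (Finset.dvd_prod_of_mem (fun w => w) hw).trans h⟩
      rw [hfil]
      have h1 := hw X hXX1 χ hχ k hk hkX (∏ w ∈ D, w) (odd_prod_sa hD) hnm
      have h2 : ∏ p ∈ D, 1 / (nm p : ℝ) = 1 / (nm (∏ w ∈ D, w) : ℝ) := by
        rw [nm_prod_sa]
        push_cast
        rw [Finset.prod_div_distrib, Finset.prod_const_one]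
      rw [h2, mul_one_div, mul_one_div]
      exact h1)
  rw [hun] at hBH
  -- the final inequality
  have hsub : ∑ u ∈ obj.filter (fun u => (CP y).filter (fun w => w ∣ u) = ∅),
      (1 / (nm u : ℝ)) * (1 - (χ u * xi k u).re) ≤
      ∑ u ∈ obj.filter (Rough (X ^ a)),
      (1 / (nm u : ℝ)) * (1 - (χ u * xi k u).re) := by
    refine Finset.sum_le_sum_of_subset_of_nonneg ?_ ?_
    · intro u hu
      obtain ⟨hu1, hu2⟩ := Finset.mem_filter.mp hu
      refine Finset.mem_filter.mpr ⟨hu1, fun p hp hpu => ?_⟩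
      by_contra hlt
      rw [not_le, ← hy] at hlt
      have hpo : Odd (nm p) := by
        obtain ⟨c, hc⟩ := nm_dvd hpu
        have h1 := hodd u hu1
        rw [hc] at h1
        exact (Nat.odd_mul.mp h1).1
      obtain ⟨w, hwC, hwp⟩ := CP_exists hp hpo hlt.le
      have : w ∈ (CP y).filter (fun w => w ∣ u) :=
        Finset.mem_filter.mpr ⟨hwC, hwp.dvd.trans hpu⟩
      rw [hu2] at this
      exact absurd this (Finset.notMem_empty _)
    · intro u hu _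
      exact hW u (Finset.mem_filter.mp hu).1
  refine le_trans ?_ (hBH.trans hsub)
  have hmain : κ * c3 / (2 * a) ≤
      κ * Real.log X / 2 * ∏ p ∈ CP y, (1 - 1 / (nm p : ℝ)) := by
    have h1 := mul_le_mul_of_nonneg_left (hprod y hy2)
      (by positivity : 0 ≤ κ * Real.log X / 2)
    refine le_trans (le_of_eq ?_) h1
    rw [hlogy]
    field_simp
  have hE : X ^ (-η) * ∏ p ∈ CP y, (1 + 1 / (nm p : ℝ)) ≤ κ * c3 / (4 * a) := by
    refine le_trans (mul_le_mul_of_nonneg_left (sieve2_prod hC hy2) (by positivity)) ?_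
    rw [hlogy]
    refine le_trans (le_of_eq ?_) herr
    ring
  have h4 : κ * c3 / (2 * a) = 2 * (κ * c3 / (4 * a)) := by
    field_simp
    ring
  linarith

end Pool.Agent.ECM

end

/-! ### from `Lib_MP_f1a94e_ecm.Deficit` -/

section

/-!
# Piece M-DEF: the deficit on primes
-/

set_option autoImplicit false

namespace Pool.Agent.ECM

open Finset Pool.Agent.GaussMR Pool.Agent.GaussCM Pool.Agent.OmAll

private theorem def_xi_one (k : ℤ) : xi k 1 = 1 := by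
  have h1 : xi k 1 = xi k 1 * xi k 1 := by
    rw [← xi_mul, one_mul]
  have h2 : xi k 1 ≠ 0 := xi_ne_zero k one_ne_zero
  have h3 : xi k 1 * 1 = xi k 1 * xi k 1 := by rw [mul_one]; exact h1
  exact (mul_left_cancel₀ h2 h3).symm

/-- the character -/
private noncomputable def psi (χ : G → ℂ) (k : ℤ) (z : G) : ℂ := χ z * xi k z

private theorem psi_mul {D : ℕ} {χ : G → ℂ} (hχ : Chi D χ) (k : ℤ) (z w : G) :
    psi χ k (z * w) = psi χ k z * psi χ k w := by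
  unfold psi
  rw [hχ.mul, xi_mul]
  ring

private theorem psi_one {D : ℕ} {χ : G → ℂ} (hχ : Chi D χ) (k : ℤ) : psi χ k 1 = 1 := by
  unfold psi
  rw [hχ.one, def_xi_one, one_mul]

private theorem psi_unit {D : ℕ} {χ : G → ℂ} (hχ : Chi D χ) (k : ℤ) (h : psi χ k ii = 1) {e : G}
    (he : nm e = 1) : psi χ k e = 1 := by
  rcases CPS.unit_cases he with ⟨h1, h2⟩ | ⟨h1, h2⟩ | ⟨h1, h2⟩ | ⟨h1, h2⟩
  · have : e = 1 := by apply Zsqrtd.ext <;> simp [h1, h2]
    rw [this, psi_one hχ]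
  · have : e = ii * ii := by apply Zsqrtd.ext <;> simp [h1, h2, ii]
    rw [this, psi_mul hχ, h, one_mul]
  · have : e = ii := by apply Zsqrtd.ext <;> simp [h1, h2, ii]
    rw [this, h]
  · have : e = ii * ii * ii := by apply Zsqrtd.ext <;> simp [h1, h2, ii]
    rw [this, psi_mul hχ, psi_mul hχ, h, one_mul, one_mul]

private theorem psi_le {D : ℕ} {χ : G → ℂ} (hχ : Chi D χ) (k : ℤ) {z : G} (hz : z ≠ 0) : ‖psi χ k z‖ ≤ 1 := by
  unfold psi
  rw [norm_mul, norm_xi k hz, mul_one]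
  exact hχ.le z

private theorem phi_nonneg {D : ℕ} {χ : G → ℂ} (hχ : Chi D χ) (k : ℤ) {z : G} (hz : z ≠ 0) :
    0 ≤ 1 - (psi χ k z).re := by
  have h1 := psi_le hχ k hz
  have h2 := Complex.re_le_norm (psi χ k z)
  linarith

private theorem phi_le {D : ℕ} {χ : G → ℂ} (hχ : Chi D χ) (k : ℤ) {z : G} (hz : z ≠ 0) :
    1 - (psi χ k z).re ≤ 2 := by
  have h1 := psi_le hχ k hz
  have h2 := Complex.abs_re_le_norm (psi χ k z)
  have h3 := (abs_le.1 h2).1
  linarith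

private theorem psi_list {D : ℕ} {χ : G → ℂ} (hχ : Chi D χ) (k : ℤ) (l : List G) :
    psi χ k l.prod = (l.map (psi χ k)).prod := by
  induction l with
  | nil => simp [psi_one hχ]
  | cons a l ih => rw [List.prod_cons, psi_mul hχ, ih, List.map_cons, List.prod_cons]

open Classical in
/-- the canonical primes of norm at least `P` -/
private noncomputable def cpf (Y P : ℝ) : Finset G := (CP Y).filter (fun p => P ≤ (nm p : ℝ))

private theorem mem_cpf {Y P : ℝ} {p : G} : p ∈ cpf Y P ↔ p ∈ CP Y ∧ P ≤ (nm p : ℝ) := by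
  classical
  unfold cpf
  rw [mem_filter]

open Classical in
/-- pointwise bound -/
private theorem def_point {D : ℕ} {χ : G → ℂ} (hD : 0 < D) (hχ : Chi D χ) (k : ℤ) (hu1 : psi χ k ii = 1)
    {a Y : ℝ} (ha : 0 < a) (hY : 1 < Y) (hYD : (D : ℝ) ^ 2 < Y ^ a) {u : G} (hu : Odd (nm u))
    (huY : (nm u : ℝ) ≤ Y) (hr : Rough (Y ^ a) u) :
    1 - (psi χ k u).re ≤ (1 / a) ^ 2 * ∑ p ∈ (cpf Y (Y ^ a)).filter (fun p => p ∣ u), (1 - (psi χ k p).re) := by
  have hYa : 1 < Y ^ a := Real.one_lt_rpow hY ha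
  obtain ⟨e, l, he, hul, hl, hlen⟩ := rough_fac Y (Y ^ a) hYa u hu huY hr
  have hlen1 : (l.length : ℝ) ≤ 1 / a := by
    have h1 : Y ^ (a * l.length) ≤ Y ^ (1 : ℝ) := by
      rw [Real.rpow_mul (by linarith), Real.rpow_natCast, Real.rpow_one]
      exact hlen.trans huY
    have h2 := (Real.rpow_le_rpow_left_iff hY).1 h1
    rw [le_div_iff₀ ha]
    linarith
  have hpr : ∀ p ∈ l, Prime p ∧ Odd (nm p) := by
    intro p hp
    have h1 := CPS.mem_CP.1 (hl p hp).1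
    exact ⟨h1.2.1, h1.2.2.1⟩
  have hnorm : ∀ z ∈ l.map (psi χ k), ‖z‖ = 1 := by
    intro z hz
    rw [List.mem_map] at hz
    obtain ⟨p, hp, rfl⟩ := hz
    have h1 := (chi_norm D hD χ hχ p (hpr p hp).1 (lt_of_lt_of_le hYD (hl p hp).2)).2
    unfold psi
    rw [norm_mul, h1, norm_xi k (hpr p hp).1.ne_zero, one_mul]
  have h1 : psi χ k u = (l.map (psi χ k)).prod := by
    rw [hul, psi_mul hχ, psi_unit hχ k hu1 he, one_mul, psi_list hχ]
  have h2 := one_sub_prod_le (l.map (psi χ k)) hnorm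
  rw [List.length_map, List.map_map] at h2
  have h3 : (l.map ((fun z : ℂ => 1 - z.re) ∘ psi χ k)).sum =
      ∑ p ∈ l.toFinset, l.count p • (1 - (psi χ k p).re) := by
    rw [Finset.sum_list_map_count]
    rfl
  have hsub : l.toFinset ⊆ (cpf Y (Y ^ a)).filter (fun p => p ∣ u) := by
    intro p hp
    rw [List.mem_toFinset] at hp
    rw [mem_filter, mem_cpf]
    refine ⟨hl p hp, ?_⟩
    rw [hul]
    exact Dvd.dvd.mul_left (List.dvd_prod hp) e
  have hnn : ∀ p ∈ (cpf Y (Y ^ a)).filter (fun p => p ∣ u), 0 ≤ 1 - (psi χ k p).re := by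
    intro p hp
    rw [mem_filter, mem_cpf] at hp
    exact phi_nonneg hχ k (CPS.mem_CP.1 hp.1.1).2.1.ne_zero
  have h4 : ∑ p ∈ l.toFinset, l.count p • (1 - (psi χ k p).re) ≤
      l.length * ∑ p ∈ (cpf Y (Y ^ a)).filter (fun p => p ∣ u), (1 - (psi χ k p).re) := by
    calc ∑ p ∈ l.toFinset, l.count p • (1 - (psi χ k p).re) ≤
          ∑ p ∈ l.toFinset, (l.length : ℝ) * (1 - (psi χ k p).re) := by
          apply sum_le_sum
          intro p hp
          rw [nsmul_eq_mul]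
          apply mul_le_mul_of_nonneg_right _ (hnn p (hsub hp))
          exact_mod_cast List.count_le_length
      _ = l.length * ∑ p ∈ l.toFinset, (1 - (psi χ k p).re) := by rw [mul_sum]
      _ ≤ _ := by
          apply mul_le_mul_of_nonneg_left _ (Nat.cast_nonneg _)
          exact sum_le_sum_of_subset_of_nonneg hsub (fun p hp _ => hnn p hp)
  rw [h1]
  set Sg : ℝ := ∑ p ∈ (cpf Y (Y ^ a)).filter (fun p => p ∣ u), (1 - (psi χ k p).re) with hSg
  have hSg0 : 0 ≤ Sg := sum_nonneg hnn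
  have hl0 : (0 : ℝ) ≤ l.length := Nat.cast_nonneg _
  calc 1 - ((l.map (psi χ k)).prod).re ≤ l.length * (l.map ((fun z : ℂ => 1 - z.re) ∘ psi χ k)).sum := h2
    _ ≤ l.length * (l.length * Sg) := by
      apply mul_le_mul_of_nonneg_left _ hl0
      rw [h3]
      exact h4
    _ = (l.length : ℝ) ^ 2 * Sg := by ring
    _ ≤ (1 / a) ^ 2 * Sg := by
      apply mul_le_mul_of_nonneg_right _ hSg0
      exact pow_le_pow_left₀ hl0 hlen1 2

open Classical in
/-- the inert primes -/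
private theorem def_inert (Y P : ℝ) (hP : 1 ≤ P) :
    ∑ w ∈ (cpf Y P).filter (fun w => ¬ (nm w).Prime), 1 / (nm w : ℝ) ≤ 2 / Real.sqrt P := by
  set A3 := (cpf Y P).filter (fun w => ¬ (nm w).Prime) with hA3
  have hs1 : 1 ≤ Real.sqrt P := by rwa [Real.one_le_sqrt]
  have hreal : ∀ w ∈ A3, w.im = 0 ∧ 0 < w.re ∧ (nm w : ℝ) = (w.re.toNat : ℝ) ^ 2 ∧
      Real.sqrt P ≤ (w.re.toNat : ℝ) := by
    intro w hw
    rw [hA3, mem_filter, mem_cpf, CPS.mem_CP] at hw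
    obtain ⟨⟨⟨a1, a2, a3, a4, a5⟩, a6⟩, a7⟩ := hw
    have him := CPS.real_of_not_prime a2 a4 a5 a7
    have h4 := nm_eq w
    rw [him] at h4
    have h5 : ((w.re.toNat : ℕ) : ℤ) = w.re := Int.toNat_of_nonneg a4.le
    have h6 : (nm w : ℤ) = ((w.re.toNat : ℕ) : ℤ) ^ 2 := by rw [h4, h5]; ring
    have h7 : (nm w : ℝ) = (w.re.toNat : ℝ) ^ 2 := by exact_mod_cast h6
    refine ⟨him, a4, h7, ?_⟩
    rw [Real.sqrt_le_left (Nat.cast_nonneg _), ← h7]
    exact a6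
  set N := ∑ w ∈ A3, w.re.toNat with hN
  set m : ℕ := ⌈Real.sqrt P⌉₊ with hm
  have hm1 : 1 ≤ m := by
    rw [hm]
    exact Nat.one_le_ceil_iff.2 (by linarith)
  calc ∑ w ∈ A3, 1 / (nm w : ℝ) = ∑ n ∈ A3.image (fun w : G => w.re.toNat), 1 / (n : ℝ) ^ 2 := by
        rw [sum_image]
        · refine sum_congr rfl fun w hw => ?_
          rw [(hreal w hw).2.2.1]
        · intro w hw w' hw' h
          obtain ⟨b1, b2, _⟩ := hreal w hw
          obtain ⟨c1, c2, _⟩ := hreal w' hw'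
          have h' : w.re.toNat = w'.re.toNat := h
          apply Zsqrtd.ext
          · omega
          · rw [b1, c1]
    _ ≤ ∑ n ∈ Ioo (m - 1) (N + 1), 1 / (n : ℝ) ^ 2 := by
        refine sum_le_sum_of_subset_of_nonneg ?_ fun w _ _ => by positivity
        intro n hn
        rw [mem_image] at hn
        obtain ⟨w, hw, rfl⟩ := hn
        rw [mem_Ioo]
        obtain ⟨b1, b2, b3, b4⟩ := hreal w hw
        have h1 : m ≤ w.re.toNat := Nat.ceil_le.2 b4
        have h2 : w.re.toNat ≤ N := by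
          rw [hN]
          exact single_le_sum (f := fun w : G => w.re.toNat) (fun _ _ => Nat.zero_le _) hw
        omega
    _ ≤ 2 / (((m - 1 : ℕ) : ℝ) + 1) := by
        have h6 := sum_Ioo_inv_sq_le (α := ℝ) (m - 1) (N + 1)
        have h7 : ∑ n ∈ Ioo (m - 1) (N + 1), 1 / (n : ℝ) ^ 2 =
            ∑ n ∈ Ioo (m - 1) (N + 1), ((n : ℝ) ^ 2)⁻¹ :=
          sum_congr rfl fun n _ => one_div _
        rw [h7]
        exact h6
    _ ≤ 2 / Real.sqrt P := by
        have h8 : ((m - 1 : ℕ) : ℝ) + 1 = m := by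
          rw [Nat.cast_sub hm1]
          push_cast
          ring
        rw [h8]
        apply div_le_div_of_nonneg_left (by norm_num) (by linarith)
        exact Nat.le_ceil _

open Classical in
/-- the sum over the canonical primes in terms of the split ones -/
private theorem def_split (φ : G → ℝ) (h0 : ∀ z, z ≠ 0 → 0 ≤ φ z) (h2 : ∀ z, z ≠ 0 → φ z ≤ 2) (Y P P1 : ℝ)
    (hP : 1 ≤ P) (hP1 : P1 < P) :
    ∑ p ∈ cpf Y P, φ p / (nm p : ℝ) ≤ ∑ w ∈ PP P1 Y, (φ w + φ (fl w)) / (nm w : ℝ) + 4 / Real.sqrt P := by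
  have hne : ∀ w ∈ PP P1 Y, w ≠ 0 ∧ fl w ≠ 0 := by
    intro w hw
    rw [mem_PP] at hw
    constructor
    · rintro rfl
      simp at hw
    · intro h
      have h1 := congrArg Zsqrtd.im h
      have h3 := congrArg Zsqrtd.re h
      simp only [fl, Zsqrtd.im_zero, Zsqrtd.re_zero] at h1 h3
      omega
  set A := cpf Y P with hA
  set A1 := A.filter (fun w => (nm w).Prime ∧ w.im < w.re)
  set A2 := A.filter (fun w => (nm w).Prime ∧ ¬ w.im < w.re)
  set A3 := A.filter (fun w => ¬ (nm w).Prime)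
  have hsplit : A = A1 ∪ A2 ∪ A3 := by
    ext w
    simp only [A1, A2, A3, mem_union, mem_filter]
    tauto
  have hAne : ∀ w ∈ A, w ≠ 0 := by
    intro w hw
    rw [hA, mem_cpf, CPS.mem_CP] at hw
    exact hw.1.2.1.ne_zero
  have hnnA : ∀ w ∈ A, 0 ≤ φ w / (nm w : ℝ) := fun w hw =>
    div_nonneg (h0 w (hAne w hw)) (Nat.cast_nonneg _)
  have h1 : ∑ w ∈ A1, φ w / (nm w : ℝ) ≤ ∑ w ∈ PP P1 Y, φ w / (nm w : ℝ) := by
    refine sum_le_sum_of_subset_of_nonneg ?_ fun w hw _ =>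
      div_nonneg (h0 w (hne w hw).1) (Nat.cast_nonneg _)
    intro w hw
    simp only [A1, hA, mem_filter, mem_cpf, CPS.mem_CP] at hw
    obtain ⟨⟨⟨a1, a2, a3, a4, a5⟩, a6⟩, a7, a8⟩ := hw
    rw [mem_PP]
    refine ⟨by linarith, a1, a7, ?_, a8⟩
    rcases a5.lt_or_eq with h | h
    · exact h
    · exfalso
      have h4 := nm_eq w
      rw [← h] at h4
      have h5 : nm w = w.re.natAbs * w.re.natAbs := by
        zify
        rw [h4, abs_mul_abs_self]
        ring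
      rw [h5] at a7
      exact Nat.not_prime_mul (a := w.re.natAbs) (b := w.re.natAbs) (fun h => by rw [h] at a7; exact Nat.not_prime_one a7) (fun h => by rw [h] at a7; exact Nat.not_prime_one a7) a7
  have h2' : ∑ w ∈ A2, φ w / (nm w : ℝ) ≤ ∑ w ∈ PP P1 Y, φ (fl w) / (nm w : ℝ) := by
    calc ∑ w ∈ A2, φ w / (nm w : ℝ) = ∑ w ∈ A2.image fl, φ (fl w) / (nm w : ℝ) := by
          rw [sum_image]
          · refine sum_congr rfl fun w _ => ?_
            rw [nm_fl, fl_fl]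
          · intro w _ w' _ h
            rw [← fl_fl w, h, fl_fl]
      _ ≤ ∑ w ∈ PP P1 Y, φ (fl w) / (nm w : ℝ) := by
          refine sum_le_sum_of_subset_of_nonneg ?_ fun w hw _ =>
            div_nonneg (h0 _ (hne w hw).2) (Nat.cast_nonneg _)
          intro w' hw'
          rw [mem_image] at hw'
          obtain ⟨w, hw, rfl⟩ := hw'
          simp only [A2, hA, mem_filter, mem_cpf, CPS.mem_CP] at hw
          obtain ⟨⟨⟨a1, a2, a3, a4, a5⟩, a6⟩, a7, a8⟩ := hw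
          rw [mem_PP, nm_fl]
          refine ⟨by linarith, a1, a7, a4, ?_⟩
          show w.re < w.im
          push Not at a8
          rcases a8.lt_or_eq with h | h
          · exact h
          · exfalso
            have h4 := nm_eq w
            rw [h] at h4
            obtain ⟨k, hk⟩ := a3
            rw [hk] at h4
            push_cast at h4
            have : (2 : ℤ) * k + 1 = 2 * w.im ^ 2 := by linarith
            omega
  have h3 : ∑ w ∈ A3, φ w / (nm w : ℝ) ≤ 4 / Real.sqrt P := by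
    calc ∑ w ∈ A3, φ w / (nm w : ℝ) ≤ ∑ w ∈ A3, 2 * (1 / (nm w : ℝ)) := by
          apply sum_le_sum
          intro w hw
          have hwA : w ∈ A := (mem_filter.1 hw).1
          have h4 := h2 w (hAne w hwA)
          rw [div_eq_mul_one_div]
          apply mul_le_mul_of_nonneg_right h4
          positivity
      _ = 2 * ∑ w ∈ A3, 1 / (nm w : ℝ) := by rw [mul_sum]
      _ ≤ 2 * (2 / Real.sqrt P) := mul_le_mul_of_nonneg_left (def_inert Y P hP) (by norm_num)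
      _ = 4 / Real.sqrt P := by ring
  have h4 : ∑ w ∈ A, φ w / (nm w : ℝ) ≤ ∑ w ∈ A1, φ w / (nm w : ℝ) + ∑ w ∈ A2, φ w / (nm w : ℝ) +
      ∑ w ∈ A3, φ w / (nm w : ℝ) := by
    have e1 := sum_union_inter (s₁ := A1 ∪ A2) (s₂ := A3) (f := fun w : G => φ w / (nm w : ℝ))
    have e2 := sum_union_inter (s₁ := A1) (s₂ := A2) (f := fun w : G => φ w / (nm w : ℝ))
    rw [← hsplit] at e1
    have e3 : 0 ≤ ∑ w ∈ (A1 ∪ A2) ∩ A3, φ w / (nm w : ℝ) := by
      apply sum_nonneg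
      intro w hw
      exact hnnA w (mem_filter.1 (mem_inter.1 hw).2).1
    have e4 : 0 ≤ ∑ w ∈ A1 ∩ A2, φ w / (nm w : ℝ) := by
      apply sum_nonneg
      intro w hw
      exact hnnA w (mem_filter.1 (mem_inter.1 hw).2).1
    linarith
  have h5 : ∑ w ∈ PP P1 Y, (φ w + φ (fl w)) / (nm w : ℝ) =
      ∑ w ∈ PP P1 Y, φ w / (nm w : ℝ) + ∑ w ∈ PP P1 Y, φ (fl w) / (nm w : ℝ) := by
    rw [← sum_add_distrib]
    apply sum_congr rfl
    intro w _
    rw [add_div]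
  rw [h5]
  linarith

/-- `ψ = χ xi k` is completely multiplicative on nonzero elements, `ψ (unit) = 1`. `a, c1` from `sieve2`. `u` in the sum of `sieve2` is `e p_1 ... p_r` (`rough_fac` with `y = Y^a`, `r ≤ 1 / a`), all `p_i` of norm `≥ Y^a > D²`, so `|ψ (p_i)| = 1` and
`1 - Re ψ u ≤ r ∑ (1 - Re ψ (p_i))`, hence `c1 ≤ (1/a)² ∑_(p ∈ CP Y, nm p ≥ Y^a) (1 - Re ψ p) ∑_(u, p ∣ u) 1 / nm u` (multiplicities at most `1 / a`) and `∑_(u rough, p ∣ u) 1 / nm u ≤ (1 / nm p) C` by `rough_sum` (`u = p u'`, `u'` rough, `nm u' ≤ Y`).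
The `p ∈ CP Y` are: inert ones (norm `q²`, `q ≥ Y^(a/2)`): total `≤ C Y^(-a/2)`; and split ones, that is `w` and `fl w` for `w ∈ PP (Y^a) Y` (norm `= Y^a` exactly: at most 2 elements, `O(Y^(-a))`). -/
theorem deficit : ∃ a c : ℝ, 0 < a ∧ a ≤ 1 / 4 ∧ 0 < c ∧ ∀ (D : ℕ) (A : ℝ), 0 < D → 1 ≤ A → ∃ Y0 : ℝ, ∀ Y : ℝ, Y0 ≤ Y →
    ∀ χ : G → ℂ, Chi D χ → ∀ k : ℤ, (k ≠ 0 ∨ ¬ Pri D χ) → |(k : ℝ)| ≤ Y ^ A → χ ii * xi k ii = 1 →
    c ≤ ∑ w ∈ PP (Y ^ a) Y, ((1 - (χ w * xi k w).re) + (1 - (χ (fl w) * xi k (fl w)).re)) / (nm w : ℝ) := by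
  classical
  obtain ⟨a, c1, ha, ha4, hc1, hsieve⟩ := sieve2
  obtain ⟨C, hC, hrough⟩ := rough_sum a ha (by linarith)
  refine ⟨a / 2, c1 * a ^ 2 / (2 * C), by positivity, by linarith, by positivity, ?_⟩
  intro D A hD hA
  obtain ⟨Y0, hY0⟩ := hsieve D A hD hA
  have ev1 : ∀ᶠ Y : ℝ in Filter.atTop, (D : ℝ) ^ 2 < Y ^ a :=
    (tendsto_rpow_atTop ha).eventually_gt_atTop _
  have ev2 : ∀ᶠ Y : ℝ in Filter.atTop, 8 * C / (c1 * a ^ 2) ≤ Real.sqrt (Y ^ a) :=
    (Real.tendsto_sqrt_atTop.comp (tendsto_rpow_atTop ha)).eventually_ge_atTop _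
  obtain ⟨Y1, hY1⟩ := Filter.eventually_atTop.1 (ev1.and ev2)
  refine ⟨max (max Y0 Y1) (max ((2 : ℝ) ^ (2 / a)) 2), ?_⟩
  intro Y hY χ hχ k hk hkY hu1
  have hYY0 : Y0 ≤ Y := ((le_max_left _ _).trans (le_max_left _ _)).trans hY
  have hYY1 : Y1 ≤ Y := ((le_max_right _ _).trans (le_max_left _ _)).trans hY
  have hYY2 : (2 : ℝ) ^ (2 / a) ≤ Y := ((le_max_left _ _).trans (le_max_right _ _)).trans hY
  have hYY3 : 2 ≤ Y := ((le_max_right _ _).trans (le_max_right _ _)).trans hY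
  obtain ⟨hYD, hYs⟩ := hY1 Y hYY1
  have hY1' : 1 < Y := by linarith
  have hY0' : 0 < Y := by linarith
  have hYa : 1 < Y ^ a := Real.one_lt_rpow hY1' ha
  have hu1' : psi χ k ii = 1 := hu1
  set UU := (ob (Y ^ (3 / 4 : ℝ)) \ ob (Y ^ (1 / 2 : ℝ))).filter (Rough (Y ^ a)) with hUU
  set R := (ob Y).filter (Rough (Y ^ a)) with hR
  have hs := hY0 Y hYY0 χ hχ k hk hkY
  have hmemUU : ∀ u ∈ UU, Odd (nm u) ∧ (nm u : ℝ) ≤ Y ∧ Rough (Y ^ a) u := by
    intro u hu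
    rw [hUU, mem_filter, mem_sdiff, mem_ob] at hu
    refine ⟨hu.1.1.2, hu.1.1.1.trans ?_, hu.2⟩
    calc Y ^ (3 / 4 : ℝ) ≤ Y ^ (1 : ℝ) := Real.rpow_le_rpow_of_exponent_le hY1'.le (by norm_num)
      _ = Y := Real.rpow_one Y
  set QQ := cpf Y (Y ^ a) with hQQ
  have hQQne : ∀ p ∈ QQ, p ≠ 0 ∧ Odd (nm p) := by
    intro p hp
    rw [hQQ, mem_cpf, CPS.mem_CP] at hp
    exact ⟨hp.1.2.1.ne_zero, hp.1.2.2.1⟩
  -- the double sum
  have h1 : ∑ u ∈ UU, (1 / (nm u : ℝ)) * (1 - (χ u * xi k u).re) ≤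
      ∑ u ∈ UU, (1 / a) ^ 2 * ∑ p ∈ QQ, (if p ∣ u then (1 - (psi χ k p).re) * (1 / (nm u : ℝ)) else 0) := by
    apply sum_le_sum
    intro u hu
    obtain ⟨hu1, hu2, hu3⟩ := hmemUU u hu
    have h2 := def_point hD hχ k hu1' ha hY1' hYD hu1 hu2 hu3
    have h3 : ∑ p ∈ QQ, (if p ∣ u then (1 - (psi χ k p).re) * (1 / (nm u : ℝ)) else 0) =
        (1 / (nm u : ℝ)) * ∑ p ∈ QQ.filter (fun p => p ∣ u), (1 - (psi χ k p).re) := by
      rw [mul_sum, sum_filter]
      apply sum_congr rfl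
      intro p _
      split_ifs
      · ring
      · rfl
    rw [h3]
    calc (1 / (nm u : ℝ)) * (1 - (χ u * xi k u).re) ≤ (1 / (nm u : ℝ)) * ((1 / a) ^ 2 *
          ∑ p ∈ QQ.filter (fun p => p ∣ u), (1 - (psi χ k p).re)) :=
        mul_le_mul_of_nonneg_left h2 (by positivity)
      _ = _ := by ring
  have h2 : ∑ u ∈ UU, (1 / a) ^ 2 * ∑ p ∈ QQ, (if p ∣ u then (1 - (psi χ k p).re) * (1 / (nm u : ℝ)) else 0) =
      (1 / a) ^ 2 * ∑ p ∈ QQ, (1 - (psi χ k p).re) * ∑ u ∈ UU.filter (fun u => p ∣ u), 1 / (nm u : ℝ) := by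
    rw [← mul_sum, sum_comm]
    congr 1
    apply sum_congr rfl
    intro p _
    rw [mul_sum]
    exact (sum_filter (fun u => p ∣ u) (fun u => (1 - (psi χ k p).re) * (1 / (nm u : ℝ)))).symm
  have h3 : ∀ p ∈ QQ, ∑ u ∈ UU.filter (fun u => p ∣ u), 1 / (nm u : ℝ) ≤ C / (nm p : ℝ) := by
    intro p hp
    obtain ⟨hp0, hpo⟩ := hQQne p hp
    have hsub : UU.filter (fun u => p ∣ u) ⊆ R.image (fun u => p * u) := by
      intro u hu
      rw [mem_filter] at hu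
      obtain ⟨hu1, u', hu2⟩ := hu
      obtain ⟨hu3, hu4, hu5⟩ := hmemUU u hu1
      rw [mem_image]
      refine ⟨u', ?_, hu2.symm⟩
      rw [hR, mem_filter, mem_ob]
      rw [hu2, odd_nm_mul] at hu3
      refine ⟨⟨?_, hu3.2⟩, ?_⟩
      · refine le_trans ?_ hu4
        rw [hu2, nm_mul]
        have h4 : 1 ≤ nm p := nm_pos hp0
        push_cast
        have h5 : (1 : ℝ) ≤ nm p := by exact_mod_cast h4
        have h6 : (0 : ℝ) ≤ nm u' := Nat.cast_nonneg _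
        nlinarith
      · intro q hq hqu
        apply hu5 q hq
        rw [hu2]
        exact Dvd.dvd.mul_left hqu p
    calc ∑ u ∈ UU.filter (fun u => p ∣ u), 1 / (nm u : ℝ) ≤ ∑ u ∈ R.image (fun u => p * u), 1 / (nm u : ℝ) :=
          sum_le_sum_of_subset_of_nonneg hsub (fun u _ _ => by positivity)
      _ = ∑ u ∈ R, 1 / (nm (p * u) : ℝ) := by
          rw [sum_image]
          intro u _ v _ h
          exact mul_left_cancel₀ hp0 h
      _ = (1 / (nm p : ℝ)) * ∑ u ∈ R, 1 / (nm u : ℝ) := by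
          rw [mul_sum]
          apply sum_congr rfl
          intro u _
          rw [nm_mul]
          push_cast
          rw [one_div_mul_one_div]
      _ ≤ (1 / (nm p : ℝ)) * C := mul_le_mul_of_nonneg_left (hrough Y hYY2) (by positivity)
      _ = C / (nm p : ℝ) := by ring
  have h4 : ∑ p ∈ QQ, (1 - (psi χ k p).re) * ∑ u ∈ UU.filter (fun u => p ∣ u), 1 / (nm u : ℝ) ≤
      C * ∑ p ∈ QQ, (1 - (psi χ k p).re) / (nm p : ℝ) := by
    rw [mul_sum]
    apply sum_le_sum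
    intro p hp
    calc (1 - (psi χ k p).re) * ∑ u ∈ UU.filter (fun u => p ∣ u), 1 / (nm u : ℝ) ≤
          (1 - (psi χ k p).re) * (C / (nm p : ℝ)) :=
        mul_le_mul_of_nonneg_left (h3 p hp) (phi_nonneg hχ k (hQQne p hp).1)
      _ = _ := by ring
  have h5 := def_split (fun z => 1 - (psi χ k z).re) (fun z hz => phi_nonneg hχ k hz)
    (fun z hz => phi_le hχ k hz) Y (Y ^ a) (Y ^ (a / 2)) hYa.le
    (Real.rpow_lt_rpow_of_exponent_lt hY1' (by linarith))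
  set S : ℝ := ∑ w ∈ PP (Y ^ (a / 2)) Y, ((1 - (psi χ k w).re) + (1 - (psi χ k (fl w)).re)) / (nm w : ℝ)
    with hS
  show c1 * a ^ 2 / (2 * C) ≤ S
  have h6 : c1 ≤ (1 / a) ^ 2 * (C * (S + 4 / Real.sqrt (Y ^ a))) := by
    calc c1 ≤ _ := hs
      _ ≤ _ := h1
      _ = _ := h2
      _ ≤ (1 / a) ^ 2 * (C * ∑ p ∈ QQ, (1 - (psi χ k p).re) / (nm p : ℝ)) :=
        mul_le_mul_of_nonneg_left h4 (by positivity)
      _ ≤ _ := by
        apply mul_le_mul_of_nonneg_left _ (by positivity)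
        exact mul_le_mul_of_nonneg_left h5 hC.le
  have hsq : 0 < Real.sqrt (Y ^ a) := Real.sqrt_pos.2 (by linarith)
  have h7 : 4 / Real.sqrt (Y ^ a) ≤ c1 * a ^ 2 / (2 * C) := by
    rw [div_le_iff₀ (by positivity)] at hYs
    rw [div_le_div_iff₀ hsq (by positivity)]
    nlinarith
  have h8 : c1 * a ^ 2 / C ≤ S + 4 / Real.sqrt (Y ^ a) := by
    rw [div_le_iff₀ hC]
    have h9 : (1 / a) ^ 2 * (C * (S + 4 / Real.sqrt (Y ^ a))) * a ^ 2 =
        (S + 4 / Real.sqrt (Y ^ a)) * C := by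
      field_simp
    rw [← h9]
    exact mul_le_mul_of_nonneg_right h6 (sq_nonneg a)
  have h9 : c1 * a ^ 2 / C = c1 * a ^ 2 / (2 * C) + c1 * a ^ 2 / (2 * C) := by
    field_simp
    ring
  linarith

end Pool.Agent.ECM

end

/-! ### from `Lib_MP_f1a94e_ecm.IUp` -/

section

/-!
# Piece M-IUP: upper bound for the Mellin convolution when the L-value vanishes
-/

set_option autoImplicit false

namespace Pool.Agent.ECM

open Finset Pool.Agent.GaussMR Pool.Agent.GaussCM Pool.Agent.OmAll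

private theorem iup_exp1 {x : ℝ} (hx : 0 < x) : Real.exp (-x) ≤ 2 / x ^ 2 := by
  have h := Real.quadratic_le_exp_of_nonneg hx.le
  rw [Real.exp_neg, inv_eq_one_div, div_le_div_iff₀ (Real.exp_pos x) (by positivity)]
  nlinarith [sq_nonneg x]

/-- polynomial bounds for the exponential series -/
private theorem iup_h (D : ℕ) (hD : 0 < D) (χ : G → ℂ) (hχ : Chi D χ) (hnp : ¬ Pri D χ) :
    ∃ A : ℝ, 0 < A ∧ ∀ s : ℝ, 0 < s →
      ‖HH χ s‖ ≤ A * s / (1 + s ^ 2) ∧ ‖HH χ s‖ ≤ A / (1 + s ^ 2) := by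
  obtain ⟨c, C, hc, hC, h1⟩ := HH_small D hD χ hχ hnp
  obtain ⟨C', hC', h2⟩ := HH_large D χ hχ
  set A0 : ℝ := 2 * C / c ^ 2 + 8 * C' with hA0
  have hA0p : 0 < A0 := by positivity
  refine ⟨2 * A0, by positivity, fun s hs => ?_⟩
  rcases le_total s 1 with hs1 | hs1
  · have h3 : ‖HH χ s‖ ≤ A0 * s := by
      refine (h1 s hs hs1).trans ?_
      have h4 := iup_exp1 (div_pos hc hs)
      calc C / s * Real.exp (-(c / s)) ≤ C / s * (2 / (c / s) ^ 2) :=
            mul_le_mul_of_nonneg_left h4 (by positivity)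
        _ = 2 * C / c ^ 2 * s := by field_simp
        _ ≤ A0 * s := mul_le_mul_of_nonneg_right (by rw [hA0]; linarith) hs.le
    constructor
    · refine h3.trans ?_
      rw [le_div_iff₀ (by positivity)]
      nlinarith [mul_pos hA0p hs, mul_nonneg (mul_pos hA0p hs).le (by nlinarith : (0 : ℝ) ≤ 1 - s ^ 2)]
    · refine h3.trans ?_
      rw [le_div_iff₀ (by positivity)]
      have h5 : s * (1 + s ^ 2) ≤ 2 := by nlinarith [mul_nonneg hs.le (by nlinarith : (0 : ℝ) ≤ 1 - s ^ 2)]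
      nlinarith [mul_le_mul_of_nonneg_left h5 hA0p.le]
  · have h3 : ‖HH χ s‖ ≤ A0 / s ^ 2 := by
      refine (h2 s hs1).trans ?_
      have h4 := iup_exp1 (half_pos hs)
      calc C' * Real.exp (-(s / 2)) ≤ C' * (2 / (s / 2) ^ 2) :=
            mul_le_mul_of_nonneg_left h4 hC'.le
        _ = 8 * C' / s ^ 2 := by field_simp; ring
        _ ≤ A0 / s ^ 2 := by
            have : 0 ≤ 2 * C / c ^ 2 := by positivity
            exact div_le_div_of_nonneg_right (by rw [hA0]; linarith) (by positivity)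
    have h6 : A0 / s ^ 2 ≤ 2 * A0 / (1 + s ^ 2) := by
      rw [div_le_div_iff₀ (by positivity) (by positivity)]
      nlinarith [mul_nonneg hA0p.le (by nlinarith : (0 : ℝ) ≤ s ^ 2 - 1)]
    constructor
    · refine (h3.trans h6).trans ?_
      apply div_le_div_of_nonneg_right _ (by positivity)
      nlinarith
    · exact h3.trans h6

/-- the theta series is `π / u` up to a bounded term -/
private theorem iup_t : ∃ B : ℝ, 0 < B ∧ ∀ u : ℝ, 0 < u → |Th u - Real.pi / u| ≤ B := by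
  obtain ⟨c, C, hc, hC, h1⟩ := Th_small
  obtain ⟨h2, ⟨C', hC', h3⟩, -⟩ := Th_large
  refine ⟨1 + C / c + C' + Real.pi, by positivity, fun u hu => ?_⟩
  rcases le_total u 1 with hu1 | hu1
  · have h4 := h1 u hu hu1
    have h5 : C / u * Real.exp (-(c / u)) ≤ C / c := by
      have h6 : (c / u) * Real.exp (-(c / u)) ≤ 1 := by
        have h7 := Real.add_one_le_exp (c / u)
        rw [Real.exp_neg, ← div_eq_mul_inv, div_le_one (Real.exp_pos _)]
        linarith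
      calc C / u * Real.exp (-(c / u)) = C / c * ((c / u) * Real.exp (-(c / u))) := by field_simp
        _ ≤ C / c * 1 := mul_le_mul_of_nonneg_left h6 (by positivity)
        _ = C / c := mul_one _
    have h8 := abs_le.mp (h4.trans h5)
    have h9 : 0 < C / c := by positivity
    rw [abs_le]
    constructor <;> linarith [h8.1, h8.2, Real.pi_pos]
  · have h4 := h3 u hu1
    have h5 := h2 u hu
    have h6 : C' * Real.exp (-(u / 2)) ≤ C' := by
      have : Real.exp (-(u / 2)) ≤ 1 := Real.exp_le_one_iff.mpr (by linarith)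
      nlinarith
    have h7 : Real.pi / u ≤ Real.pi := div_le_self Real.pi_pos.le hu1
    have h8 : 0 < Real.pi / u := by positivity
    have h9 : 0 < C / c := by positivity
    rw [abs_le]
    constructor <;> linarith

/-- scaled Cauchy density -/
private theorem iup_cauchy (v : ℝ) (hv : 0 < v) :
    MeasureTheory.IntegrableOn (fun u : ℝ => v / (u ^ 2 + v ^ 2)) (Set.Ioi 0) ∧
    ∫ u in Set.Ioi (0 : ℝ), v / (u ^ 2 + v ^ 2) = Real.pi / 2 := by
  have hv' : 0 < v⁻¹ := inv_pos.mpr hv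
  have he : ∀ u : ℝ, v / (u ^ 2 + v ^ 2) = v⁻¹ * (1 + (v⁻¹ * u) ^ 2)⁻¹ := by
    intro u
    have h1 : 0 < u ^ 2 + v ^ 2 := by positivity
    have h2 : (1 : ℝ) + (v⁻¹ * u) ^ 2 = (u ^ 2 + v ^ 2) / v ^ 2 := by field_simp; ring
    rw [h2]; field_simp
  simp_rw [he]
  constructor
  · refine MeasureTheory.Integrable.const_mul ?_ _
    have h3 := (MeasureTheory.integrableOn_Ioi_comp_mul_left_iff (fun x : ℝ => (1 + x ^ 2)⁻¹) 0 hv').mpr
      integrable_inv_one_add_sq.integrableOn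
    exact h3
  · rw [MeasureTheory.integral_const_mul]
    have h4 := MeasureTheory.integral_comp_mul_left_Ioi' (fun x : ℝ => (1 + x ^ 2)⁻¹) 0 hv'
    rw [mul_zero, integral_Ioi_inv_one_add_sq, Real.arctan_zero, sub_zero, smul_eq_mul] at h4
    exact h4

/-- the change of variables `s = v / u` -/
private theorem iup_cov (g : ℝ → ℂ) (v : ℝ) (hv : 0 < v) :
    ∫ u in Set.Ioi (0 : ℝ), ((u ^ 2)⁻¹ : ℝ) • g (v / u) = (v⁻¹ : ℝ) • ∫ s in Set.Ioi (0 : ℝ), g s := by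
  have h1 := MeasureTheory.integral_comp_rpow_Ioi (fun s => g (v * s)) (p := -1) (by norm_num)
  have h2 := MeasureTheory.integral_comp_mul_left_Ioi g 0 hv
  rw [mul_zero] at h2
  rw [← h2, ← h1]
  refine MeasureTheory.setIntegral_congr_fun measurableSet_Ioi fun u hu => ?_
  have hu' : 0 < u := hu
  have h3 : u ^ ((-1 : ℝ) - 1) = (u ^ 2)⁻¹ := by
    rw [show (-1 : ℝ) - 1 = -((2 : ℕ) : ℝ) by norm_num, Real.rpow_neg hu'.le, Real.rpow_natCast]
  have h4 : u ^ (-1 : ℝ) = u⁻¹ := by rw [Real.rpow_neg hu'.le, Real.rpow_one]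
  simp only [h3, h4, abs_neg, abs_one, one_mul, div_eq_mul_inv]

/-- `∫_0^∞ (π/u) HH(v/u) du/u = (π/v) ∫_0^∞ HH(s) ds = 0` (`s = v/u`). So the integral is `∫ (Th u - π/u) HH(v/u) du/u`. For `u ≤ 1`: `|Th u - π/u| ≤ C` (`Th_small`), contribution `≤ C ∫_v^∞ |HH s| ds/s ≤ C'` (`HH_small`: `exp (-c/s)/s²` is integrable at `0`; `HH_large`). For `u ≥ 1`:
`|Th u - π/u| ≤ C / u`, contribution `≤ C ∫_1^∞ |HH(v/u)| du/u² = (C/v) ∫_0^v |HH s| ds ≤ (C/v) ∫_0^v C exp(-c/s)/s ds ≤ C''` (`exp(-c/s)/s ≤ 1/c`). -/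
theorem i_up (D : ℕ) (hD : 0 < D) (χ : G → ℂ) (hχ : Chi D χ) (hnp : ¬ Pri D χ) (h0 : ∫ s in Set.Ioi (0 : ℝ), HH χ s = 0) :
    ∃ C : ℝ, ∀ v : ℝ, 0 < v → v ≤ 1 → ‖∫ u in Set.Ioi (0 : ℝ), (Th u : ℂ) * HH χ (v / u) / (u : ℂ)‖ ≤ C := by
  obtain ⟨A, hA, hh⟩ := iup_h D hD χ hχ hnp
  obtain ⟨B, hB, ht⟩ := iup_t
  have hTc := Th_large.2.2
  have hHc := HH_cont D χ hχ
  refine ⟨B * A * (Real.pi / 2), fun v hv hv1 => ?_⟩
  obtain ⟨hci, hcv⟩ := iup_cauchy v hv
  -- continuity of the pieces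
  have hdc : ContinuousOn (fun u : ℝ => v / u) (Set.Ioi 0) :=
    continuousOn_const.div continuousOn_id (fun u hu => (ne_of_gt hu))
  have hHv : ContinuousOn (fun u : ℝ => HH χ (v / u)) (Set.Ioi 0) :=
    hHc.comp hdc (fun u hu => div_pos hv hu)
  have hid : ContinuousOn (fun u : ℝ => (u : ℂ)) (Set.Ioi 0) := Complex.continuous_ofReal.continuousOn
  have hidne : ∀ u ∈ Set.Ioi (0 : ℝ), (u : ℂ) ≠ 0 := fun u hu => by
    exact_mod_cast (ne_of_gt hu)
  have hpc : ContinuousOn (fun u : ℝ => ((Th u - Real.pi / u : ℝ) : ℂ)) (Set.Ioi 0) :=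
    Complex.continuous_ofReal.comp_continuousOn
      (hTc.sub (continuousOn_const.div continuousOn_id (fun u hu => (ne_of_gt hu))))
  have hf1c : ContinuousOn (fun u : ℝ => ((Th u - Real.pi / u : ℝ) : ℂ) * HH χ (v / u) / (u : ℂ)) (Set.Ioi 0) :=
    (hpc.mul hHv).div hid hidne
  have hf2c : ContinuousOn (fun u : ℝ => ((Real.pi * (u ^ 2)⁻¹ : ℝ) : ℂ) * HH χ (v / u)) (Set.Ioi 0) := by
    refine ContinuousOn.mul (Complex.continuous_ofReal.comp_continuousOn ?_) hHv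
    refine continuousOn_const.mul (ContinuousOn.inv₀ (continuousOn_id.pow 2) fun u hu => ?_)
    exact pow_ne_zero 2 (ne_of_gt hu)
  -- bounds
  have hb1 : ∀ u ∈ Set.Ioi (0 : ℝ),
      ‖((Th u - Real.pi / u : ℝ) : ℂ) * HH χ (v / u) / (u : ℂ)‖ ≤ B * A * (v / (u ^ 2 + v ^ 2)) := by
    intro u hu
    have hu' : 0 < u := hu
    rw [norm_div, norm_mul, Complex.norm_real, Complex.norm_real, Real.norm_eq_abs, Real.norm_eq_abs,
      abs_of_pos hu']
    have h1 := ht u hu'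
    have h2 := (hh (v / u) (div_pos hv hu')).1
    have h3 : |Th u - Real.pi / u| * ‖HH χ (v / u)‖ ≤ B * (A * (v / u) / (1 + (v / u) ^ 2)) :=
      mul_le_mul h1 h2 (norm_nonneg _) hB.le
    refine (div_le_div_of_nonneg_right h3 hu'.le).trans (le_of_eq ?_)
    have h4 : 0 < u ^ 2 + v ^ 2 := by positivity
    have h5 : 1 + (v / u) ^ 2 = (u ^ 2 + v ^ 2) / u ^ 2 := by field_simp
    rw [h5]; field_simp
  have hb2 : ∀ u ∈ Set.Ioi (0 : ℝ),
      ‖((Real.pi * (u ^ 2)⁻¹ : ℝ) : ℂ) * HH χ (v / u)‖ ≤ Real.pi * A * v⁻¹ * (v / (u ^ 2 + v ^ 2)) := by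
    intro u hu
    have hu' : 0 < u := hu
    rw [norm_mul, Complex.norm_real, Real.norm_eq_abs, abs_of_pos (by positivity)]
    have h2 := (hh (v / u) (div_pos hv hu')).2
    refine (mul_le_mul_of_nonneg_left h2 (by positivity)).trans (le_of_eq ?_)
    have h4 : 0 < u ^ 2 + v ^ 2 := by positivity
    have h5 : 1 + (v / u) ^ 2 = (u ^ 2 + v ^ 2) / u ^ 2 := by field_simp
    rw [h5]; field_simp
  have hi1 : MeasureTheory.IntegrableOn
      (fun u : ℝ => ((Th u - Real.pi / u : ℝ) : ℂ) * HH χ (v / u) / (u : ℂ)) (Set.Ioi 0) := by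
    refine MeasureTheory.Integrable.mono' (hci.const_mul (B * A))
      (hf1c.aestronglyMeasurable measurableSet_Ioi) ?_
    exact (MeasureTheory.ae_restrict_iff' measurableSet_Ioi).mpr (Filter.Eventually.of_forall hb1)
  have hi2 : MeasureTheory.IntegrableOn
      (fun u : ℝ => ((Real.pi * (u ^ 2)⁻¹ : ℝ) : ℂ) * HH χ (v / u)) (Set.Ioi 0) := by
    refine MeasureTheory.Integrable.mono' (hci.const_mul (Real.pi * A * v⁻¹))
      (hf2c.aestronglyMeasurable measurableSet_Ioi) ?_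
    exact (MeasureTheory.ae_restrict_iff' measurableSet_Ioi).mpr (Filter.Eventually.of_forall hb2)
  -- the main term vanishes
  have hz : ∫ u in Set.Ioi (0 : ℝ), ((Real.pi * (u ^ 2)⁻¹ : ℝ) : ℂ) * HH χ (v / u) = 0 := by
    have h1 := iup_cov (HH χ) v hv
    rw [h0, smul_zero] at h1
    have h2 : ∀ u : ℝ, ((Real.pi * (u ^ 2)⁻¹ : ℝ) : ℂ) * HH χ (v / u) =
        (Real.pi : ℂ) * (((u ^ 2)⁻¹ : ℝ) • HH χ (v / u)) := by
      intro u
      rw [Complex.real_smul]; push_cast; ring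
    simp_rw [h2]
    rw [MeasureTheory.integral_const_mul, h1, mul_zero]
  have hsplit : ∫ u in Set.Ioi (0 : ℝ), (Th u : ℂ) * HH χ (v / u) / (u : ℂ) =
      ∫ u in Set.Ioi (0 : ℝ), ((Th u - Real.pi / u : ℝ) : ℂ) * HH χ (v / u) / (u : ℂ) := by
    have h1 : ∫ u in Set.Ioi (0 : ℝ), (Th u : ℂ) * HH χ (v / u) / (u : ℂ) =
        ∫ u in Set.Ioi (0 : ℝ), (((Th u - Real.pi / u : ℝ) : ℂ) * HH χ (v / u) / (u : ℂ) +
          ((Real.pi * (u ^ 2)⁻¹ : ℝ) : ℂ) * HH χ (v / u)) := by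
      refine MeasureTheory.setIntegral_congr_fun measurableSet_Ioi fun u hu => ?_
      have hu' := hidne u hu
      push_cast
      field_simp
      ring
    rw [h1, MeasureTheory.integral_add hi1 hi2, hz, add_zero]
  rw [hsplit]
  refine (MeasureTheory.norm_integral_le_of_norm_le (hci.const_mul (B * A))
    ((MeasureTheory.ae_restrict_iff' measurableSet_Ioi).mpr (Filter.Eventually.of_forall hb1))).trans ?_
  rw [MeasureTheory.integral_const_mul, hcv]

end Pool.Agent.ECM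

end

/-! ### from `Lib_MP_f1a94e_ecm.LLim` -/

section

/-!
# Piece M-LLIM: the value of the L-series at one
-/

set_option autoImplicit false

namespace Pool.Agent.ECM

open Finset Pool.Agent.GaussMR Pool.Agent.GaussCM Pool.Agent.OmAll

private theorem ll_sub {a b : ℝ} (h : a ≤ b) : ob a ⊆ ob b := by
  intro z hz
  rw [Weight.mem_ob] at *
  exact ⟨hz.1.trans h, hz.2⟩

private theorem ll_ball (D : ℕ) (χ : G → ℂ) (hχ : Chi D χ) (t : ℝ) :
    ∑ z ∈ ob t, χ z = ∑ z ∈ ball t, χ z * xi 0 z := by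
  classical
  have h1 : ∑ z ∈ ball t, χ z * xi 0 z = ∑ z ∈ ball t, χ z :=
    sum_congr rfl (fun z _ => by rw [xi_zero, mul_one])
  rw [h1, ← Weight.sum_odd]
  refine sum_congr rfl (fun z _ => ?_)
  split_ifs with h
  · rfl
  · exact (hχ.even z h).symm

private theorem ll_diff (D : ℕ) (hD : 0 < D) (χ : G → ℂ) (hχ : Chi D χ) (hnp : ¬ Pri D χ) :
    ∃ (η C : ℝ), 0 < η ∧ η ≤ 1 / 2 ∧ 0 < C ∧ ∀ Y Y' : ℝ, 1 ≤ Y → Y ≤ Y' →
      ‖∑ z ∈ ob Y' \ ob Y, χ z / (nm z : ℂ)‖ ≤ C * Y ^ (-η) := by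
  obtain ⟨η, C, hη, hη', hC, h⟩ := typeChi D hD 1 le_rfl
  refine ⟨η, 4 * C / η, hη, hη', by positivity, ?_⟩
  intro Y Y' hY hYY
  have h1 := Weight.partial_odd η hη (by linarith) χ 0 C Y Y' hY hYY hC.le ?_
  · simpa using h1
  · intro t ht _
    have ht1 : 1 ≤ t := hY.trans ht
    have h2 := h χ hχ t 0 ht1 (Or.inr hnp) (by simp; linarith)
    rw [← ll_ball D χ hχ t] at h2
    simpa using h2

private theorem ll_SL (χ : G → ℂ) {Y Y' : ℝ} (h : Y ≤ Y') :
    SL χ Y' - SL χ Y = ∑ z ∈ ob Y' \ ob Y, χ z / (nm z : ℂ) := by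
  unfold SL
  rw [← sum_sdiff (ll_sub h)]
  ring

/-- `partial_odd` with `κ = 0`, `δ = η`, `typeChi` with `k = 0`, `A = 1` (`χ` vanishes on even elements): `‖SL χ Y' - SL χ Y‖ ≤ C Y^(-η)` for `1 ≤ Y ≤ Y'`; so `SL χ` is Cauchy. -/
theorem l_lim (D : ℕ) (hD : 0 < D) (χ : G → ℂ) (hχ : Chi D χ) (hnp : ¬ Pri D χ) : ∃ (l : ℂ) (η C : ℝ), 0 < η ∧ η ≤ 1 / 2 ∧ 0 < C ∧
    ∀ Y : ℝ, 1 ≤ Y → ‖SL χ Y - l‖ ≤ C * Y ^ (-η) := by
  obtain ⟨η, C, hη, hη', hC, h⟩ := ll_diff D hD χ hχ hnp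
  have hd : ∀ Y Y' : ℝ, 1 ≤ Y → Y ≤ Y' → ‖SL χ Y' - SL χ Y‖ ≤ C * Y ^ (-η) := by
    intro Y Y' hY hYY
    rw [ll_SL χ hYY]
    exact h Y Y' hY hYY
  have hlim0 : Filter.Tendsto (fun n : ℕ => C * ((n : ℝ) + 1) ^ (-η)) Filter.atTop (nhds 0) := by
    have h1 : Filter.Tendsto (fun n : ℕ => ((n : ℝ) + 1)) Filter.atTop Filter.atTop :=
      Filter.tendsto_atTop_add_const_right _ _ tendsto_natCast_atTop_atTop
    have h2 := (tendsto_rpow_neg_atTop hη).comp h1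
    have h3 := h2.const_mul C
    simpa using h3
  have hcs : CauchySeq (fun n : ℕ => SL χ ((n : ℝ) + 1)) := by
    refine cauchySeq_of_le_tendsto_0 (fun n => 2 * (C * ((n : ℝ) + 1) ^ (-η))) ?_ ?_
    · intro n m N hn hm
      have key : ∀ k : ℕ, N ≤ k → ‖SL χ ((k : ℝ) + 1) - SL χ ((N : ℝ) + 1)‖ ≤
          C * ((N : ℝ) + 1) ^ (-η) := by
        intro k hk
        apply hd
        · have : (0 : ℝ) ≤ N := Nat.cast_nonneg N
          linarith
        · have : (N : ℝ) ≤ k := by exact_mod_cast hk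
          linarith
      rw [dist_eq_norm]
      have e : SL χ ((n : ℝ) + 1) - SL χ ((m : ℝ) + 1) =
          (SL χ ((n : ℝ) + 1) - SL χ ((N : ℝ) + 1)) - (SL χ ((m : ℝ) + 1) - SL χ ((N : ℝ) + 1)) := by
        ring
      rw [e]
      refine (norm_sub_le _ _).trans ?_
      have := key n hn
      have := key m hm
      linarith
    · simpa using hlim0.const_mul 2
  obtain ⟨l, hl⟩ := cauchySeq_tendsto_of_complete hcs
  refine ⟨l, η, C, hη, hη', hC, ?_⟩
  intro Y hY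
  have h1 : Filter.Tendsto (fun n : ℕ => ‖SL χ ((n : ℝ) + 1) - SL χ Y‖) Filter.atTop
      (nhds ‖l - SL χ Y‖) := (hl.sub_const _).norm
  rw [norm_sub_rev]
  refine le_of_tendsto h1 ?_
  filter_upwards [Filter.eventually_ge_atTop ⌈Y⌉₊] with n hn
  apply hd Y _ hY
  have h2 : Y ≤ (n : ℝ) := (Nat.le_ceil Y).trans (by exact_mod_cast hn)
  linarith

private theorem ll_log (n N : ℕ) (hn : 1 ≤ n) (hN : n ≤ N) :
    Real.log n = ∑ k ∈ Ico 1 N, if k < n then (Real.log ((k : ℝ) + 1) - Real.log k) else 0 := by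
  rw [← sum_filter]
  have h1 : (Ico 1 N).filter (fun k => k < n) = Ico 1 n := by
    ext k
    simp only [mem_filter, mem_Ico]
    omega
  rw [h1]
  induction n with
  | zero => omega
  | succ m ih =>
    rcases Nat.eq_zero_or_pos m with hm | hm
    · subst hm
      simp
    · rw [sum_Ico_succ_top hm, ← ih hm (by omega) (by
        ext k
        simp only [mem_filter, mem_Ico]
        omega)]
      push_cast
      ring

/-- Partial summation from `typeChi` (`k = 0`): the function `log t / t` is of bounded variation on `[1, ∞)` and `∫ t^(1-η) |(log t / t)'| dt < ∞` (`sum_mul_eq_sub_integral_mul` / the method of Lib_MP_f1a94e_mr/Psum.lean), or: `∑ χ z log nm z / nm z = ∑_(2^j ≤ Y) (pieces)`, or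
`log nm z = ∫_1^(nm z) dt/t`, so the sum is `∫_1^Y (SL χ Y - SL χ t) dt / t`, at most `∫ 2 C t^(-η) dt/t`. -/
theorem mlog (D : ℕ) (hD : 0 < D) (χ : G → ℂ) (hχ : Chi D χ) (hnp : ¬ Pri D χ) : ∃ C : ℝ, ∀ Y : ℝ, 1 ≤ Y →
    ‖∑ z ∈ ob Y, χ z * (Real.log (nm z) : ℂ) / (nm z : ℂ)‖ ≤ C := by
  classical
  obtain ⟨η, C, hη, hη', hC, h⟩ := ll_diff D hD χ hχ hnp
  have hsum : Summable (fun k : ℕ => ((k : ℝ) ^ (1 + η))⁻¹) :=
    Real.summable_nat_rpow_inv.2 (by linarith)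
  refine ⟨C * ∑' k : ℕ, ((k : ℝ) ^ (1 + η))⁻¹, ?_⟩
  intro Y hY
  set N : ℕ := ⌊Y⌋₊ with hN
  set L : ℕ → ℝ := fun k => Real.log ((k : ℝ) + 1) - Real.log k with hL
  have e1 : ∑ z ∈ ob Y, χ z * (Real.log (nm z) : ℂ) / (nm z : ℂ) =
      ∑ k ∈ Ico 1 N, (L k : ℂ) * ∑ z ∈ ob Y \ ob (k : ℝ), χ z / (nm z : ℂ) := by
    have e2 : ∀ z ∈ ob Y, χ z * (Real.log (nm z) : ℂ) / (nm z : ℂ) =
        ∑ k ∈ Ico 1 N, (if k < nm z then (L k : ℂ) * (χ z / (nm z : ℂ)) else 0) := by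
      intro z hz
      rw [Weight.mem_ob] at hz
      have h1 : 1 ≤ nm z := nm_pos_of_odd hz.2
      have h2 : nm z ≤ N := Nat.le_floor hz.1
      rw [ll_log (nm z) N h1 h2]
      push_cast
      rw [mul_sum, sum_div]
      refine sum_congr rfl (fun k _ => ?_)
      split_ifs with hk
      · rw [hL]
        push_cast
        ring
      · simp
    rw [sum_congr rfl e2, sum_comm]
    refine sum_congr rfl (fun k _ => ?_)
    rw [mul_sum, ← sum_filter]
    refine sum_congr ?_ (fun _ _ => rfl)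
    ext z
    simp only [mem_filter, mem_sdiff, Weight.mem_ob]
    constructor
    · rintro ⟨h1, h2⟩
      refine ⟨h1, ?_⟩
      rintro ⟨h3, -⟩
      have h4 : nm z ≤ k := by exact_mod_cast h3
      omega
    · rintro ⟨h1, h2⟩
      refine ⟨h1, ?_⟩
      by_contra h3
      apply h2
      refine ⟨?_, h1.2⟩
      exact_mod_cast not_lt.1 h3
  rw [e1]
  calc ‖∑ k ∈ Ico 1 N, (L k : ℂ) * ∑ z ∈ ob Y \ ob (k : ℝ), χ z / (nm z : ℂ)‖
      ≤ ∑ k ∈ Ico 1 N, ‖(L k : ℂ) * ∑ z ∈ ob Y \ ob (k : ℝ), χ z / (nm z : ℂ)‖ := norm_sum_le _ _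
    _ ≤ ∑ k ∈ Ico 1 N, C * ((k : ℝ) ^ (1 + η))⁻¹ := by
        refine sum_le_sum (fun k hk => ?_)
        rw [mem_Ico] at hk
        have hk1 : (1 : ℝ) ≤ k := by exact_mod_cast hk.1
        have hk0 : (0 : ℝ) < k := by linarith
        have hkY : (k : ℝ) ≤ Y := by
          have h1 : (k : ℝ) ≤ N := by exact_mod_cast hk.2.le
          exact h1.trans (Nat.floor_le (by linarith))
        have h1 := h k Y hk1 hkY
        have h2 : 0 ≤ L k := by
          rw [hL]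
          have := Real.log_le_log hk0 (by linarith : (k : ℝ) ≤ (k : ℝ) + 1)
          simp only
          linarith
        have h3 : L k ≤ (k : ℝ)⁻¹ := by
          have h4 : L k = Real.log (1 + (k : ℝ)⁻¹) := by
            rw [hL]
            simp only
            rw [← Real.log_div (by linarith) hk0.ne']
            congr 1
            field_simp
          rw [h4]
          have h5 := Real.log_le_sub_one_of_pos (by positivity : (0 : ℝ) < 1 + (k : ℝ)⁻¹)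
          linarith
        rw [norm_mul, Complex.norm_real, Real.norm_eq_abs, abs_of_nonneg h2]
        calc L k * ‖∑ z ∈ ob Y \ ob (k : ℝ), χ z / (nm z : ℂ)‖
            ≤ (k : ℝ)⁻¹ * (C * (k : ℝ) ^ (-η)) :=
              mul_le_mul h3 h1 (norm_nonneg _) (by positivity)
          _ = C * ((k : ℝ) ^ (1 + η))⁻¹ := by
              rw [Real.rpow_add hk0, Real.rpow_one, Real.rpow_neg hk0.le, mul_inv]
              ring
    _ = C * ∑ k ∈ Ico 1 N, ((k : ℝ) ^ (1 + η))⁻¹ := by rw [mul_sum]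
    _ ≤ C * ∑' k : ℕ, ((k : ℝ) ^ (1 + η))⁻¹ := by
        refine mul_le_mul_of_nonneg_left ?_ hC.le
        exact hsum.sum_le_tsum _ (fun k _ => by positivity)

end Pool.Agent.ECM

end

/-! ### from `Lib_MP_f1a94e_ecm.DefIter` -/

section

/-!
# Piece M-DITER: the deficit of a non principal character over all primes
-/

set_option autoImplicit false

namespace Pool.Agent.ECM

open Finset Pool.Agent.GaussMR Pool.Agent.GaussCM Pool.Agent.OmAll

/-- the summand -/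
private noncomputable def dterm (χ : G → ℂ) (w : G) : ℝ := ((1 - (χ w).re) + (1 - (χ (fl w)).re)) / (nm w : ℝ)

private theorem dterm_nonneg {D : ℕ} {χ : G → ℂ} (hχ : Chi D χ) (w : G) : 0 ≤ dterm χ w := by
  unfold dterm
  have h1 := (Complex.re_le_norm (χ w)).trans (hχ.le w)
  have h2 := (Complex.re_le_norm (χ (fl w))).trans (hχ.le (fl w))
  apply div_nonneg (by linarith) (Nat.cast_nonneg _)

private theorem dsum_split {D : ℕ} {χ : G → ℂ} (hχ : Chi D χ) {P Y : ℝ} (hP : 2 ≤ P) (hPY : P ≤ Y) :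
    ∑ w ∈ PP 2 P, dterm χ w + ∑ w ∈ PP P Y, dterm χ w ≤ ∑ w ∈ PP 2 Y, dterm χ w := by
  classical
  rw [← sum_union]
  · apply sum_le_sum_of_subset_of_nonneg
    · intro w hw
      rw [mem_union, mem_PP, mem_PP] at hw
      rw [mem_PP]
      rcases hw with h | h
      · exact ⟨h.1, h.2.1.trans hPY, h.2.2⟩
      · exact ⟨lt_of_le_of_lt hP h.1, h.2⟩
    · intro w _ _
      exact dterm_nonneg hχ w
  · rw [Finset.disjoint_left]
    intro w h1 h2
    rw [mem_PP] at h1 h2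
    exact absurd h1.2.1 (not_le.2 h2.1)

private theorem def_steps {D : ℕ} {χ : G → ℂ} (hχ : Chi D χ) {a c Y1 : ℝ} (ha : 0 < a) (ha1 : a ≤ 1)
    (hY1 : 2 ≤ Y1) (hstep : ∀ Y : ℝ, Y1 ≤ Y → c ≤ ∑ w ∈ PP (Y ^ a) Y, dterm χ w) :
    ∀ (n : ℕ) (B : ℝ), 1 ≤ B → Y1 ≤ B ^ (a ^ n) → c * n ≤ ∑ w ∈ PP 2 B, dterm χ w := by
  intro n
  induction n with
  | zero =>
    intro B _ _
    simp only [Nat.cast_zero, mul_zero]
    exact sum_nonneg fun w _ => dterm_nonneg hχ w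
  | succ n ih =>
    intro B hB1 hB
    have h1 : Y1 ≤ (B ^ a) ^ (a ^ n) := by
      rw [← Real.rpow_mul (by linarith), mul_comm a, ← pow_succ]
      exact hB
    have hBa : 1 ≤ B ^ a := Real.one_le_rpow hB1 ha.le
    have hpn1 : a ^ n ≤ 1 := pow_le_one₀ ha.le ha1
    have hpn0 : 0 ≤ a ^ n := by positivity
    have hYBa : Y1 ≤ B ^ a := by
      refine h1.trans ?_
      calc (B ^ a) ^ (a ^ n) ≤ (B ^ a) ^ (1 : ℝ) := Real.rpow_le_rpow_of_exponent_le hBa hpn1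
        _ = B ^ a := Real.rpow_one _
    have hBaB : B ^ a ≤ B := by
      calc B ^ a ≤ B ^ (1 : ℝ) := Real.rpow_le_rpow_of_exponent_le hB1 ha1
        _ = B := Real.rpow_one _
    have h2 := ih (B ^ a) hBa h1
    have h3 := hstep B (hYBa.trans hBaB)
    have h4 := dsum_split hχ (hY1.trans hYBa) hBaB
    push_cast
    linarith

/-- `deficit` with `A = 1`, `k = 0` (`xi 0 = 1`), iterated over the disjoint ranges `PP (Y_(j+1)) (Y_j)`, `Y_j = B^(a^j)`, as long as `Y_j ≥ max Y0 3` and `Y_(j+1) ≥ 2`: `J ≥ log log B / log (1/a) - C` steps. All terms are nonnegative (`‖χ w‖ ≤ 1`). -/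
theorem def_iter : ∃ c : ℝ, 0 < c ∧ ∀ D : ℕ, 0 < D → ∃ C : ℝ, ∀ χ : G → ℂ, Chi D χ → ¬ Pri D χ → χ ii = 1 → ∀ B : ℝ, 3 ≤ B →
    c * Real.log (Real.log B) - C ≤ ∑ w ∈ PP 2 B, ((1 - (χ w).re) + (1 - (χ (fl w)).re)) / (nm w : ℝ) := by
  obtain ⟨a, c, ha, ha4, hc, hdef⟩ := deficit
  have ha1 : a < 1 := by linarith
  have hla : 0 < Real.log (1 / a) := by
    apply Real.log_pos
    rw [lt_div_iff₀ ha]
    linarith
  refine ⟨c / Real.log (1 / a), by positivity, ?_⟩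
  intro D hD
  obtain ⟨Y0, hY0⟩ := hdef D 1 hD le_rfl
  set Y1 : ℝ := max Y0 3 with hY1
  have h3Y1 : 3 ≤ Y1 := le_max_right _ _
  have hlog3 : 1 < Real.log 3 := by
    rw [Real.lt_log_iff_exp_lt (by norm_num)]
    have := Real.exp_one_lt_d9
    linarith
  have hlY1 : 1 < Real.log Y1 := lt_of_lt_of_le hlog3 (Real.log_le_log (by norm_num) h3Y1)
  refine ⟨c / Real.log (1 / a) * Real.log (Real.log Y1) + c, ?_⟩
  intro χ hχ hpri hii B hB
  have hstep : ∀ Y : ℝ, Y1 ≤ Y → c ≤ ∑ w ∈ PP (Y ^ a) Y, dterm χ w := by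
    intro Y hY
    have hYpos : 3 ≤ Y := h3Y1.trans hY
    have h1 := hY0 Y ((le_max_left _ _).trans hY) χ hχ 0 (Or.inr hpri) (by
      simp only [Int.cast_zero, abs_zero]
      positivity) (by rw [xi_zero, mul_one, hii])
    simp only [xi_zero, mul_one] at h1
    exact h1
  have hlB : 1 < Real.log B := lt_of_lt_of_le hlog3 (Real.log_le_log (by norm_num) hB)
  show c / Real.log (1 / a) * Real.log (Real.log B) - (c / Real.log (1 / a) * Real.log (Real.log Y1) + c) ≤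
    ∑ w ∈ PP 2 B, dterm χ w
  have hcl : 0 < c / Real.log (1 / a) := by positivity
  by_cases hBY : Y1 ≤ B
  · set t : ℝ := (Real.log (Real.log B) - Real.log (Real.log Y1)) / Real.log (1 / a) with ht
    have ht0 : 0 ≤ t := by
      apply div_nonneg _ hla.le
      have := Real.log_le_log (by linarith) (Real.log_le_log (by linarith) hBY)
      linarith
    set n : ℕ := ⌊t⌋₊ with hn
    have hn1 : (n : ℝ) ≤ t := Nat.floor_le ht0
    have hn2 : t < n + 1 := Nat.lt_floor_add_one t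
    have hpow : Y1 ≤ B ^ (a ^ n) := by
      have h1 : Real.log (Real.log Y1) ≤ Real.log (a ^ n * Real.log B) := by
        rw [Real.log_mul (by positivity) (by linarith), Real.log_pow]
        have h2 : Real.log a = - Real.log (1 / a) := by
          rw [one_div, Real.log_inv]
          ring
        rw [h2]
        rw [le_div_iff₀ hla] at hn1
        linarith
      have h2 : Real.log Y1 ≤ a ^ n * Real.log B :=
        (Real.log_le_log_iff (by linarith) (by positivity)).1 h1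
      rw [← Real.log_rpow (by linarith)] at h2
      exact (Real.log_le_log_iff (by linarith) (by positivity)).1 h2
    have h1 := def_steps hχ ha ha1.le (by linarith) hstep n B (by linarith) hpow
    have h2 : c * t = c / Real.log (1 / a) * Real.log (Real.log B) - c / Real.log (1 / a) * Real.log (Real.log Y1) := by
      rw [ht]
      ring
    nlinarith
  · push Not at hBY
    have h1 : Real.log (Real.log B) ≤ Real.log (Real.log Y1) :=
      Real.log_le_log (by linarith) (Real.log_le_log (by linarith) hBY.le)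
    have h2 : 0 ≤ ∑ w ∈ PP 2 B, dterm χ w := sum_nonneg fun w _ => dterm_nonneg hχ w
    have h3 := mul_le_mul_of_nonneg_left h1 hcl.le
    linarith

end Pool.Agent.ECM

end

/-! ### from `Lib_MP_f1a94e_ecm.Avg` -/

section

/-!
# Piece M-AVG: mean square of a slowly varying function with a convolution equation (abstract)
-/

set_option autoImplicit false

namespace Pool.Agent.ECM

open Finset Pool.Agent.GaussMR
open scoped ComplexConjugate

private noncomputable def dhat {N : ℕ} [NeZero N] (a : ZMod N → ℂ) (r : ZMod N) : ℂ :=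
  ∑ i, a i * ZMod.stdAddChar (-(i * r))

private theorem avg_char_sum {N : ℕ} [NeZero N] (b : ZMod N) :
    ∑ r : ZMod N, (ZMod.stdAddChar (b * r) : ℂ) = if b = 0 then (N : ℂ) else 0 := by
  have h := AddChar.sum_mulShift (ψ := ZMod.stdAddChar (N := N)) b
    (ZMod.isPrimitive_stdAddChar N)
  simp only [ZMod.card] at h
  have h2 : ∑ r : ZMod N, (ZMod.stdAddChar (b * r) : ℂ) =
      ∑ r : ZMod N, (ZMod.stdAddChar (r * b) : ℂ) :=
    Finset.sum_congr rfl fun r _ => by rw [mul_comm]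
  rw [h2, h]
  split_ifs <;> simp

private theorem avg_parseval {N : ℕ} [NeZero N] (a : ZMod N → ℂ) :
    ∑ r, ‖dhat a r‖ ^ 2 = N * ∑ i, ‖a i‖ ^ 2 := by
  have hterm : ∀ r : ZMod N, ((‖dhat a r‖ ^ 2 : ℝ) : ℂ) =
      ∑ i, ∑ j, a i * conj (a j) * ZMod.stdAddChar ((j - i) * r) := by
    intro r
    have h1 : ((‖dhat a r‖ ^ 2 : ℝ) : ℂ) = dhat a r * conj (dhat a r) := by
      rw [Complex.mul_conj']
      push_cast
      rfl
    have h2 : conj (dhat a r) = ∑ j, conj (a j) * ZMod.stdAddChar (j * r) := by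
      unfold dhat
      rw [map_sum]
      apply Finset.sum_congr rfl
      intro j _
      rw [map_mul, ← AddChar.map_neg_eq_conj, neg_neg]
    rw [h1, h2, dhat, Finset.sum_mul_sum]
    apply Finset.sum_congr rfl
    intro i _
    apply Finset.sum_congr rfl
    intro j _
    have h3 : (ZMod.stdAddChar ((j - i) * r) : ℂ) =
        ZMod.stdAddChar (-(i * r)) * ZMod.stdAddChar (j * r) := by
      rw [← AddChar.map_add_eq_mul]
      congr 1
      ring
    rw [h3]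
    ring
  have hC : ((∑ r, ‖dhat a r‖ ^ 2 : ℝ) : ℂ) = ((N * ∑ i, ‖a i‖ ^ 2 : ℝ) : ℂ) := by
    rw [Complex.ofReal_sum, Finset.sum_congr rfl fun r _ => hterm r, Finset.sum_comm]
    have h4 : ∀ i : ZMod N, ∑ r : ZMod N, ∑ j : ZMod N,
        a i * conj (a j) * ZMod.stdAddChar ((j - i) * r) = N * ((‖a i‖ ^ 2 : ℝ) : ℂ) := by
      intro i
      rw [Finset.sum_comm]
      have h5 : ∀ j : ZMod N, ∑ r : ZMod N,
          a i * conj (a j) * ZMod.stdAddChar ((j - i) * r) =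
          if j = i then N * ((‖a i‖ ^ 2 : ℝ) : ℂ) else 0 := by
        intro j
        rw [← Finset.mul_sum, avg_char_sum]
        by_cases hji : j = i
        · subst hji
          rw [if_pos (sub_self j), if_pos rfl, Complex.mul_conj']
          push_cast
          ring
        · rw [if_neg (sub_ne_zero.mpr hji), if_neg hji]
          simp
      rw [Finset.sum_congr rfl fun j _ => h5 j]
      simp
    rw [Finset.sum_congr rfl fun i _ => h4 i, ← Finset.mul_sum]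
    push_cast
    rfl
  exact_mod_cast hC

private theorem avg_shift {N : ℕ} [NeZero N] (a : ZMod N → ℂ) (s r : ZMod N) :
    dhat (fun i => a (i + s)) r = ZMod.stdAddChar (s * r) * dhat a r := by
  rw [dhat, dhat, Finset.mul_sum]
  rw [← Equiv.sum_comp (Equiv.addRight s) fun i : ZMod N =>
    (ZMod.stdAddChar (s * r) : ℂ) * (a i * ZMod.stdAddChar (-(i * r)))]
  apply Finset.sum_congr rfl
  intro i _
  simp only [Equiv.coe_addRight]
  have h3 : (ZMod.stdAddChar (-(i * r)) : ℂ) =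
      ZMod.stdAddChar (s * r) * ZMod.stdAddChar (-((i + s) * r)) := by
    rw [← AddChar.map_add_eq_mul]
    congr 1
    ring
  rw [h3]
  ring

/-- the frequency of `r` -/
private theorem avg_theta {N : ℕ} [NeZero N] (r : ZMod N) : ∃ θ : ℝ, |θ| ≤ Real.pi ∧
    ∀ k : ℤ, (ZMod.stdAddChar ((k : ZMod N) * r) : ℂ) = Complex.exp (((k * θ : ℝ) : ℂ) * Complex.I) := by
  have hN : (0 : ℝ) < N := by exact_mod_cast Nat.pos_of_ne_zero (NeZero.ne N)
  refine ⟨2 * Real.pi * (r.valMinAbs : ℝ) / N, ?_, fun k => ?_⟩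
  · have h1 : r.valMinAbs.natAbs ≤ N / 2 := ZMod.natAbs_valMinAbs_le r
    have h2 : (|(r.valMinAbs : ℝ)|) ≤ N / 2 := by
      have h3 : ((r.valMinAbs.natAbs : ℕ) : ℝ) = |(r.valMinAbs : ℝ)| := by
        rw [Nat.cast_natAbs, Int.cast_abs]
      rw [← h3]
      have h4 : 2 * r.valMinAbs.natAbs ≤ N := by omega
      have h5 : ((2 * r.valMinAbs.natAbs : ℕ) : ℝ) ≤ N := by exact_mod_cast h4
      push_cast at h5
      rw [Nat.cast_natAbs, Int.cast_abs]
      rw [Nat.cast_natAbs, Int.cast_abs] at h5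
      linarith
    rw [abs_div, abs_mul, abs_of_pos (by positivity : (0 : ℝ) < 2 * Real.pi), abs_of_pos hN,
      div_le_iff₀ hN]
    nlinarith [Real.pi_pos]
  · have h1 : (k : ZMod N) * r = ((k * r.valMinAbs : ℤ) : ZMod N) := by
      rw [Int.cast_mul, ZMod.coe_valMinAbs]
    rw [h1, ZMod.stdAddChar_coe]
    congr 1
    push_cast
    ring

private theorem avg_main {N : ℕ} [NeZero N] {ι : Type*} (I : Finset ι) (c : ι → ℂ) (ρ : ι → ℕ)
    (M : ℕ) (κ : ℝ) (hκ : 0 < κ) (a : ZMod N → ℂ)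
    (H : ∀ θ : ℝ, |θ| ≤ Real.pi →
      κ ≤ ‖1 - ∑ i ∈ I, c i * Complex.exp (((-(θ * ρ i) : ℝ) : ℂ) * Complex.I)‖ ∨
      1 ≤ (1 / (M : ℝ)) * ∑ i ∈ range M, ‖Complex.exp (((i * θ : ℝ) : ℂ) * Complex.I) - 1‖ ^ 2) :
    ∑ n, ‖a n‖ ^ 2 ≤ 1 / κ ^ 2 * ∑ n, ‖a n - ∑ i ∈ I, c i * a (n - (ρ i : ZMod N))‖ ^ 2 +
      (1 / (M : ℝ)) * ∑ i ∈ range M, ∑ n, ‖a (n + (i : ZMod N)) - a n‖ ^ 2 := by
  have hN : (0 : ℝ) < N := by exact_mod_cast Nat.pos_of_ne_zero (NeZero.ne N)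
  have hb : ∀ r : ZMod N, dhat (fun n => a n - ∑ i ∈ I, c i * a (n - (ρ i : ZMod N))) r =
      (1 - ∑ i ∈ I, c i * ZMod.stdAddChar (-(ρ i : ZMod N) * r)) * dhat a r := by
    intro r
    have h1 : dhat (fun n => a n - ∑ i ∈ I, c i * a (n - (ρ i : ZMod N))) r =
        dhat a r - ∑ i ∈ I, c i * dhat (fun n => a (n + (-(ρ i : ZMod N)))) r := by
      unfold dhat
      simp only [sub_mul, Finset.sum_sub_distrib, Finset.sum_mul, Finset.mul_sum]
      rw [Finset.sum_comm]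
      congr 1
      apply Finset.sum_congr rfl
      intro i _
      apply Finset.sum_congr rfl
      intro n _
      rw [sub_eq_add_neg n]
      ring
    rw [h1, sub_mul, one_mul, Finset.sum_mul]
    congr 1
    apply Finset.sum_congr rfl
    intro i _
    rw [avg_shift]
    ring
  have hd : ∀ (i : ℕ) (r : ZMod N), dhat (fun n => a (n + (i : ZMod N)) - a n) r =
      (ZMod.stdAddChar ((i : ZMod N) * r) - 1) * dhat a r := by
    intro i r
    have h1 : dhat (fun n => a (n + (i : ZMod N)) - a n) r =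
        dhat (fun n => a (n + (i : ZMod N))) r - dhat a r := by
      unfold dhat
      simp only [sub_mul, Finset.sum_sub_distrib]
    rw [h1, avg_shift]
    ring
  have hpt : ∀ r : ZMod N, ‖dhat a r‖ ^ 2 ≤
      1 / κ ^ 2 * ‖dhat (fun n => a n - ∑ i ∈ I, c i * a (n - (ρ i : ZMod N))) r‖ ^ 2 +
      (1 / (M : ℝ)) * ∑ i ∈ range M, ‖dhat (fun n => a (n + (i : ZMod N)) - a n) r‖ ^ 2 := by
    intro r
    obtain ⟨θ, hθ, hk⟩ := avg_theta r
    have h1 : ∀ i, (ZMod.stdAddChar (-(ρ i : ZMod N) * r) : ℂ) =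
        Complex.exp (((-(θ * ρ i) : ℝ) : ℂ) * Complex.I) := by
      intro i
      have := hk (-(ρ i : ℤ))
      push_cast at this
      rw [this]
      congr 1
      push_cast
      ring
    have h2 : ∀ i : ℕ, (ZMod.stdAddChar ((i : ZMod N) * r) : ℂ) =
        Complex.exp (((i * θ : ℝ) : ℂ) * Complex.I) := by
      intro i
      have := hk (i : ℤ)
      push_cast at this
      rw [this]
      congr 1
      push_cast
      ring
    rw [hb r]
    simp only [hd, norm_mul, mul_pow, h1, h2]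
    rw [← Finset.sum_mul]
    have h3 : (0 : ℝ) ≤ ‖dhat a r‖ ^ 2 := sq_nonneg _
    have h4 : (0 : ℝ) ≤ 1 / κ ^ 2 * ‖1 - ∑ i ∈ I, c i * Complex.exp (((-(θ * ρ i) : ℝ) : ℂ) * Complex.I)‖ ^ 2 :=
      mul_nonneg (div_nonneg zero_le_one (sq_nonneg _)) (sq_nonneg _)
    have h5 : (0 : ℝ) ≤ (1 / (M : ℝ)) * ∑ i ∈ range M, ‖Complex.exp (((i * θ : ℝ) : ℂ) * Complex.I) - 1‖ ^ 2 :=
      mul_nonneg (div_nonneg zero_le_one (Nat.cast_nonneg _)) (Finset.sum_nonneg fun _ _ => sq_nonneg _)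
    have h6 : 1 ≤ 1 / κ ^ 2 * ‖1 - ∑ i ∈ I, c i * Complex.exp (((-(θ * ρ i) : ℝ) : ℂ) * Complex.I)‖ ^ 2 +
        (1 / (M : ℝ)) * ∑ i ∈ range M, ‖Complex.exp (((i * θ : ℝ) : ℂ) * Complex.I) - 1‖ ^ 2 := by
      rcases H θ hθ with h | h
      · have h7 : κ ^ 2 ≤ ‖1 - ∑ i ∈ I, c i * Complex.exp (((-(θ * ρ i) : ℝ) : ℂ) * Complex.I)‖ ^ 2 :=
          pow_le_pow_left₀ hκ.le h 2
        have h8 : 1 ≤ 1 / κ ^ 2 * ‖1 - ∑ i ∈ I, c i * Complex.exp (((-(θ * ρ i) : ℝ) : ℂ) * Complex.I)‖ ^ 2 := by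
          rw [one_div, inv_mul_eq_div, le_div_iff₀ (by positivity), one_mul]
          exact h7
        linarith only [h8, h5]
      · linarith only [h, h4]
    have h10 := mul_le_mul_of_nonneg_right h6 h3
    rw [one_mul, add_mul] at h10
    refine h10.trans (le_of_eq ?_)
    ring
  have hsum := Finset.sum_le_sum fun (r : ZMod N) (_ : r ∈ Finset.univ) => hpt r
  rw [avg_parseval, Finset.sum_add_distrib, ← Finset.mul_sum, ← Finset.mul_sum, Finset.sum_comm,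
    avg_parseval] at hsum
  simp only [avg_parseval] at hsum
  rw [← Finset.mul_sum] at hsum
  have h9 : (N : ℝ) * ∑ n, ‖a n‖ ^ 2 ≤ N * (1 / κ ^ 2 * ∑ n, ‖a n - ∑ i ∈ I, c i * a (n - (ρ i : ZMod N))‖ ^ 2 +
      (1 / (M : ℝ)) * ∑ i ∈ range M, ∑ n, ‖a (n + (i : ZMod N)) - a n‖ ^ 2) := by
    refine hsum.trans (le_of_eq ?_)
    ring
  exact le_of_mul_le_mul_left h9 hN


private theorem avg_exp_diff (x y : ℝ) :
    ‖Complex.exp ((x : ℂ) * Complex.I) - Complex.exp ((y : ℂ) * Complex.I)‖ ≤ |x - y| := by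
  have h1 : Complex.exp ((x : ℂ) * Complex.I) - Complex.exp ((y : ℂ) * Complex.I) =
      Complex.exp ((y : ℂ) * Complex.I) * (Complex.exp (Complex.I * ((x - y : ℝ) : ℂ)) - 1) := by
    rw [mul_sub, mul_one, ← Complex.exp_add]
    congr 2
    push_cast
    ring
  rw [h1, norm_mul, Complex.norm_exp_ofReal_mul_I, one_mul]
  exact Real.norm_exp_I_mul_ofReal_sub_one_le

private theorem avg_geom (θ : ℝ) (hθ : |θ| ≤ Real.pi) (h0 : θ ≠ 0) (M : ℕ) :
    ‖∑ i ∈ range M, Complex.exp (((i * θ : ℝ) : ℂ) * Complex.I)‖ ≤ Real.pi / |θ| := by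
  set z := Complex.exp ((θ : ℂ) * Complex.I) with hz
  have h1 : ∀ i : ℕ, Complex.exp (((i * θ : ℝ) : ℂ) * Complex.I) = z ^ i := by
    intro i
    rw [hz, ← Complex.exp_nat_mul]
    congr 1
    push_cast
    ring
  simp only [h1]
  have h2 : 2 / Real.pi * |θ| ≤ ‖z - 1‖ := by
    have h3 : ‖z - 1‖ = ‖2 * Real.sin (θ / 2)‖ := by
      rw [← Complex.norm_exp_I_mul_ofReal_sub_one, hz, mul_comm]
    rw [h3, Real.norm_eq_abs, abs_mul, abs_two]
    have h4 := Real.mul_abs_le_abs_sin (x := θ / 2) (by rw [abs_div, abs_two]; linarith)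
    rw [abs_div, abs_two] at h4
    linarith
  have hθ0 : 0 < |θ| := abs_pos.2 h0
  have h5 : 0 < ‖z - 1‖ := lt_of_lt_of_le (by positivity) h2
  have h6 : (∑ i ∈ range M, z ^ i) * (z - 1) = z ^ M - 1 := geom_sum_mul z M
  have h7 : ‖∑ i ∈ range M, z ^ i‖ * ‖z - 1‖ ≤ 2 := by
    rw [← norm_mul, h6]
    refine (norm_sub_le _ _).trans ?_
    rw [norm_pow, hz, Complex.norm_exp_ofReal_mul_I, one_pow, norm_one]
    norm_num
  rw [le_div_iff₀ hθ0]
  have h8 : ‖∑ i ∈ range M, z ^ i‖ * (2 / Real.pi * |θ|) ≤ 2 :=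
    (mul_le_mul_of_nonneg_left h2 (norm_nonneg _)).trans h7
  have h9 : ‖∑ i ∈ range M, z ^ i‖ * (2 / Real.pi * |θ|) =
      2 * (‖∑ i ∈ range M, z ^ i‖ * |θ|) / Real.pi := by ring
  rw [h9, div_le_iff₀ Real.pi_pos] at h8
  linarith

private theorem avg_high (θ : ℝ) (hθ : |θ| ≤ Real.pi) (M : ℕ) (hM : 0 < M)
    (h : 2 * Real.pi / M ≤ |θ|) :
    1 ≤ (1 / (M : ℝ)) * ∑ i ∈ range M, ‖Complex.exp (((i * θ : ℝ) : ℂ) * Complex.I) - 1‖ ^ 2 := by
  have hM' : (0 : ℝ) < M := by exact_mod_cast hM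
  have h0 : θ ≠ 0 := by
    rintro rfl
    rw [abs_zero] at h
    have : (0 : ℝ) < 2 * Real.pi / M := by positivity
    linarith
  have h1 : ∀ i : ℕ, ‖Complex.exp (((i * θ : ℝ) : ℂ) * Complex.I) - 1‖ ^ 2 =
      2 - 2 * (Complex.exp (((i * θ : ℝ) : ℂ) * Complex.I)).re := by
    intro i
    have h2 : Complex.normSq (Complex.exp (((i * θ : ℝ) : ℂ) * Complex.I)) = 1 := by
      rw [Complex.normSq_eq_norm_sq, Complex.norm_exp_ofReal_mul_I, one_pow]
    rw [← Complex.normSq_eq_norm_sq, Complex.normSq_sub, h2, map_one, map_one, mul_one]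
    ring
  simp only [h1]
  rw [Finset.sum_sub_distrib, Finset.sum_const, card_range, ← Finset.mul_sum, ← Complex.re_sum,
    nsmul_eq_mul, one_div, inv_mul_eq_div, le_div_iff₀ hM', one_mul]
  have h3 : (∑ i ∈ range M, Complex.exp (((i * θ : ℝ) : ℂ) * Complex.I)).re ≤ M / 2 := by
    refine (Complex.re_le_norm _).trans ((avg_geom θ hθ h0 M).trans ?_)
    rw [div_le_iff₀ (abs_pos.2 h0)]
    rw [div_le_iff₀ hM'] at h
    linarith
  linarith

private theorem avg_freq {ι : Type*} (I : Finset ι) (c : ι → ℂ) (lam : ι → ℝ) (ρ : ι → ℕ) (M : ℕ)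
    (hM : 0 < M) (T0 h c0 : ℝ) (hh : 0 < h) (hc : ∑ i ∈ I, ‖c i‖ ≤ 1)
    (hρ : ∀ i ∈ I, |ρ i - lam i / h| ≤ 1)
    (hm : ∀ t : ℝ, |t| ≤ T0 →
      (∑ i ∈ I, c i * Complex.exp (-((t * lam i : ℝ) : ℂ) * Complex.I)).re ≤ 1 - c0)
    (h1 : T0 * h ≤ c0 / 2) (h2 : 2 * Real.pi / M ≤ T0 * h) (θ : ℝ) (hθ : |θ| ≤ Real.pi) :
    c0 / 2 ≤ ‖1 - ∑ i ∈ I, c i * Complex.exp (((-(θ * ρ i) : ℝ) : ℂ) * Complex.I)‖ ∨
      1 ≤ (1 / (M : ℝ)) * ∑ i ∈ range M, ‖Complex.exp (((i * θ : ℝ) : ℂ) * Complex.I) - 1‖ ^ 2 := by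
  by_cases hc1 : |θ| ≤ T0 * h
  · left
    have h3 := hm (θ / h) (by rw [abs_div, abs_of_pos hh, div_le_iff₀ hh]; exact hc1)
    set S1 := ∑ i ∈ I, c i * Complex.exp (((-(θ * ρ i) : ℝ) : ℂ) * Complex.I) with hS1
    set S2 := ∑ i ∈ I, c i * Complex.exp (-((θ / h * lam i : ℝ) : ℂ) * Complex.I) with hS2
    have h4 : ‖S1 - S2‖ ≤ |θ| := by
      rw [hS1, hS2, ← Finset.sum_sub_distrib]
      calc ‖∑ i ∈ I, (c i * Complex.exp (((-(θ * ρ i) : ℝ) : ℂ) * Complex.I) -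
            c i * Complex.exp (-((θ / h * lam i : ℝ) : ℂ) * Complex.I))‖
          ≤ ∑ i ∈ I, ‖c i * Complex.exp (((-(θ * ρ i) : ℝ) : ℂ) * Complex.I) -
            c i * Complex.exp (-((θ / h * lam i : ℝ) : ℂ) * Complex.I)‖ := norm_sum_le _ _
        _ ≤ ∑ i ∈ I, ‖c i‖ * |θ| := by
          apply Finset.sum_le_sum
          intro i hi
          rw [← mul_sub, norm_mul]
          apply mul_le_mul_of_nonneg_left _ (norm_nonneg _)
          have h5 := avg_exp_diff (-(θ * ρ i)) (-(θ / h * lam i))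
          rw [Complex.ofReal_neg (θ / h * lam i)] at h5
          refine h5.trans ?_
          have h6 : -(θ * ρ i) - -(θ / h * lam i) = θ * (-(ρ i - lam i / h)) := by ring
          rw [h6, abs_mul, abs_neg]
          have := hρ i hi
          calc |θ| * |(ρ i : ℝ) - lam i / h| ≤ |θ| * 1 :=
                mul_le_mul_of_nonneg_left this (abs_nonneg _)
            _ = |θ| := mul_one _
        _ = (∑ i ∈ I, ‖c i‖) * |θ| := by rw [Finset.sum_mul]
        _ ≤ 1 * |θ| := mul_le_mul_of_nonneg_right hc (abs_nonneg _)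
        _ = |θ| := one_mul _
    have h7 : S1.re - S2.re ≤ ‖S1 - S2‖ := by
      rw [← Complex.sub_re]
      exact Complex.re_le_norm _
    have h8 : (1 - S1).re ≤ ‖1 - S1‖ := Complex.re_le_norm _
    rw [Complex.sub_re, Complex.one_re] at h8
    linarith
  · right
    exact avg_high θ hθ M hM (by push Not at hc1; linarith)

private theorem avg_range {N : ℕ} [NeZero N] (f : ZMod N → ℝ) :
    ∑ n, f n = ∑ n ∈ range N, f (n : ZMod N) := by
  symm
  refine Finset.sum_bij (fun n _ => (n : ZMod N)) (fun _ _ => Finset.mem_univ _) ?_ ?_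
    (fun _ _ => rfl)
  · intro a ha b hb hab
    have h1 := congrArg ZMod.val hab
    rwa [ZMod.val_cast_of_lt (mem_range.1 ha), ZMod.val_cast_of_lt (mem_range.1 hb)] at h1
  · intro b _
    exact ⟨b.val, mem_range.2 (ZMod.val_lt b), by simp⟩

private theorem avg_count (N K M : ℕ) (f : ℕ → ℝ) (α β : ℝ) (hα : 0 ≤ α) (hβ : 0 ≤ β)
    (h1 : ∀ n < N, f n ≤ β) (h2 : ∀ n < N, K ≤ n → n + M < N → f n ≤ α) :
    ∑ n ∈ range N, f n ≤ α * N + β * (K + M) := by
  have h3 : ∀ n ∈ range N, f n ≤ α + ((if n < K then β else 0) + (if N - M ≤ n then β else 0)) := by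
    intro n hn
    rw [mem_range] at hn
    by_cases hK : n < K
    · rw [if_pos hK]
      have := h1 n hn
      split_ifs <;> linarith
    · rw [if_neg hK]
      by_cases hM : N - M ≤ n
      · rw [if_pos hM]
        have := h1 n hn
        linarith
      · rw [if_neg hM]
        have := h2 n hn (not_lt.1 hK) (by omega)
        linarith
  refine (Finset.sum_le_sum h3).trans ?_
  rw [Finset.sum_add_distrib, Finset.sum_add_distrib, Finset.sum_const, card_range, nsmul_eq_mul,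
    ← Finset.sum_filter, ← Finset.sum_filter, Finset.sum_const, Finset.sum_const, nsmul_eq_mul,
    nsmul_eq_mul]
  have h4 : ((range N).filter fun n => n < K).card ≤ K := by
    calc ((range N).filter fun n => n < K).card ≤ (range K).card :=
          Finset.card_le_card fun n hn => by
            rw [mem_filter] at hn; exact mem_range.2 hn.2
      _ = K := card_range K
  have h5 : ((range N).filter fun n => N - M ≤ n).card ≤ M := by
    calc ((range N).filter fun n => N - M ≤ n).card ≤ (Ico (N - M) N).card :=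
          Finset.card_le_card fun n hn => by
            rw [mem_filter, mem_range] at hn; exact mem_Ico.2 ⟨hn.2, hn.1⟩
      _ = N - (N - M) := Nat.card_Ico _ _
      _ ≤ M := by omega
  have h6 : (((range N).filter fun n => n < K).card : ℝ) ≤ K := by exact_mod_cast h4
  have h7 : (((range N).filter fun n => N - M ≤ n).card : ℝ) ≤ M := by exact_mod_cast h5
  have h8 := mul_le_mul_of_nonneg_right h6 hβ
  have h9 := mul_le_mul_of_nonneg_right h7 hβ
  linarith only [h8, h9]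


private theorem avg_bsmall {N : ℕ} [NeZero N] {ι : Type*} (A : ℝ → ℂ) (C δ h s0 L : ℝ) (hC : 0 < C)
    (hh : 0 < h) (hh1 : h ≤ 1) (hL0 : 0 ≤ L) (hδ : 0 ≤ δ)
    (hl : ∀ s h : ℝ, 0 ≤ s → 0 ≤ h → h ≤ 1 → ‖A (s + h) - A s‖ ≤ C * (h + Real.exp (-(s / 4))))
    (I : Finset ι) (c : ι → ℂ) (lam : ι → ℝ) (hlam : ∀ i ∈ I, 0 ≤ lam i) (hc : ∑ i ∈ I, ‖c i‖ ≤ 1)
    (hs : ∀ s, s0 ≤ s → ‖A s - ∑ i ∈ I, c i * A (s - lam i)‖ ≤ δ)
    (hL : C * Real.exp (-(L / 4)) ≤ δ) (hCh : C * h ≤ δ) (n : ℕ) (hn : n < N) (hn1 : s0 ≤ n * h)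
    (hn2 : ∀ i ∈ I, lam i + L ≤ n * h) :
    ‖A (((n : ZMod N).val : ℝ) * h) -
      ∑ i ∈ I, c i * A ((((n : ZMod N) - ((⌊lam i / h⌋₊ : ℕ) : ZMod N)).val : ℝ) * h)‖ ≤ 3 * δ := by
  have hval : (n : ZMod N).val = n := ZMod.val_cast_of_lt hn
  rw [hval]
  have h1 := hs (n * h) hn1
  have h2 : ∀ i ∈ I, ‖A ((((n : ZMod N) - ((⌊lam i / h⌋₊ : ℕ) : ZMod N)).val : ℝ) * h) -
      A (n * h - lam i)‖ ≤ 2 * δ := by
    intro i hi
    set ρ := ⌊lam i / h⌋₊ with hρ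
    have h3 : (ρ : ℝ) * h ≤ lam i := by
      have := Nat.floor_le (div_nonneg (hlam i hi) hh.le)
      rw [← hρ] at this
      rwa [le_div_iff₀ hh] at this
    have h4 : lam i < (ρ + 1) * h := by
      have := Nat.lt_floor_add_one (lam i / h)
      rw [← hρ] at this
      rwa [div_lt_iff₀ hh] at this
    have h5 := hn2 i hi
    have h6 : ρ ≤ n := by
      have : (ρ : ℝ) * h ≤ n * h := by linarith
      have := le_of_mul_le_mul_right this hh
      exact_mod_cast this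
    have h7 : ((n : ZMod N) - (ρ : ZMod N)).val = n - ρ := by
      rw [← Nat.cast_sub h6]
      exact ZMod.val_cast_of_lt (by omega)
    rw [h7]
    have h8 : (((n - ρ : ℕ) : ℝ)) * h = (n * h - lam i) + (lam i - ρ * h) := by
      rw [Nat.cast_sub h6]; ring
    rw [h8]
    have h9 := hl (n * h - lam i) (lam i - ρ * h) (by linarith) (by linarith) (by linarith)
    refine h9.trans ?_
    have h10 : Real.exp (-((n * h - lam i) / 4)) ≤ Real.exp (-(L / 4)) :=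
      Real.exp_le_exp.2 (by linarith)
    have h11 : C * Real.exp (-((n * h - lam i) / 4)) ≤ δ :=
      (mul_le_mul_of_nonneg_left h10 hC.le).trans hL
    have h12 : C * (lam i - ρ * h) ≤ δ :=
      (mul_le_mul_of_nonneg_left (show lam i - ρ * h ≤ h by linarith) hC.le).trans hCh
    rw [mul_add]
    linarith
  have h3 : A (n * h) - ∑ i ∈ I, c i * A ((((n : ZMod N) - ((⌊lam i / h⌋₊ : ℕ) : ZMod N)).val : ℝ) * h) =
      (A (n * h) - ∑ i ∈ I, c i * A (n * h - lam i)) -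
      ∑ i ∈ I, c i * (A ((((n : ZMod N) - ((⌊lam i / h⌋₊ : ℕ) : ZMod N)).val : ℝ) * h) -
        A (n * h - lam i)) := by
    simp only [mul_sub, Finset.sum_sub_distrib]
    ring
  rw [h3]
  refine (norm_sub_le _ _).trans ?_
  have h4 : ‖∑ i ∈ I, c i * (A ((((n : ZMod N) - ((⌊lam i / h⌋₊ : ℕ) : ZMod N)).val : ℝ) * h) -
        A (n * h - lam i))‖ ≤ 2 * δ := by
    calc _ ≤ ∑ i ∈ I, ‖c i * (A ((((n : ZMod N) - ((⌊lam i / h⌋₊ : ℕ) : ZMod N)).val : ℝ) * h) -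
        A (n * h - lam i))‖ := norm_sum_le _ _
      _ ≤ ∑ i ∈ I, ‖c i‖ * (2 * δ) := by
        apply Finset.sum_le_sum
        intro i hi
        rw [norm_mul]
        exact mul_le_mul_of_nonneg_left (h2 i hi) (norm_nonneg _)
      _ = (∑ i ∈ I, ‖c i‖) * (2 * δ) := by rw [Finset.sum_mul]
      _ ≤ 1 * (2 * δ) := mul_le_mul_of_nonneg_right hc (by linarith)
      _ = 2 * δ := one_mul _
  linarith

private theorem avg_bbig {ι : Type*} (A : ℝ → ℂ) (C : ℝ) (hC : 0 < C)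
    (hb : ∀ s, 0 ≤ s → ‖A s‖ ≤ C) (I : Finset ι) (c : ι → ℂ) (hc : ∑ i ∈ I, ‖c i‖ ≤ 1)
    (x : ℝ) (hx : 0 ≤ x) (y : ι → ℝ) (hy : ∀ i, 0 ≤ y i) :
    ‖A x - ∑ i ∈ I, c i * A (y i)‖ ≤ 2 * C := by
  refine (norm_sub_le _ _).trans ?_
  have h4 : ‖∑ i ∈ I, c i * A (y i)‖ ≤ C := by
    calc _ ≤ ∑ i ∈ I, ‖c i * A (y i)‖ := norm_sum_le _ _
      _ ≤ ∑ i ∈ I, ‖c i‖ * C := by
        apply Finset.sum_le_sum
        intro i _
        rw [norm_mul]
        exact mul_le_mul_of_nonneg_left (hb _ (hy i)) (norm_nonneg _)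
      _ = (∑ i ∈ I, ‖c i‖) * C := by rw [Finset.sum_mul]
      _ ≤ 1 * C := mul_le_mul_of_nonneg_right hc hC.le
      _ = C := one_mul _
  linarith [hb x hx]

private theorem avg_dsmall {N : ℕ} [NeZero N] (A : ℝ → ℂ) (C h h0 : ℝ) (hC : 0 < C)
    (hh : 0 < h) (hh0 : h0 ≤ 1)
    (hl : ∀ s h : ℝ, 0 ≤ s → 0 ≤ h → h ≤ 1 → ‖A (s + h) - A s‖ ≤ C * (h + Real.exp (-(s / 4))))
    (M : ℕ) (hM : M * h ≤ h0) (i : ℕ) (hi : i < M) (n : ℕ) (hn : n + M < N)
    (hn1 : Real.exp (-(n * h / 4)) ≤ h0) :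
    ‖A ((((n : ZMod N) + (i : ZMod N)).val : ℝ) * h) - A (((n : ZMod N).val : ℝ) * h)‖ ≤
      2 * C * h0 := by
  have h1 : ((n : ZMod N) + (i : ZMod N)).val = n + i := by
    rw [← Nat.cast_add]
    exact ZMod.val_cast_of_lt (by omega)
  have h2 : (n : ZMod N).val = n := ZMod.val_cast_of_lt (by omega)
  have h3 : (i : ℝ) ≤ M := by exact_mod_cast hi.le
  have h4 : (i : ℝ) * h ≤ h0 := (mul_le_mul_of_nonneg_right h3 hh.le).trans hM
  have h5 := hl (n * h) (i * h) (by positivity) (by positivity) (by linarith)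
  rw [h1, h2]
  have h6 : (((n + i : ℕ) : ℝ)) * h = n * h + i * h := by push_cast; ring
  rw [h6]
  refine h5.trans ?_
  have h7 : C * (i * h + Real.exp (-(n * h / 4))) ≤ C * (h0 + h0) :=
    mul_le_mul_of_nonneg_left (add_le_add h4 hn1) hC.le
  linarith only [h7]

private theorem avg_expb (C δ L : ℝ) (hδ : 0 < δ) (hL : L / 4 = C / δ) : C * Real.exp (-(L / 4)) ≤ δ := by
  have h1 : C / δ + 1 ≤ Real.exp (L / 4) := by
    rw [hL]
    exact Real.add_one_le_exp _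
  rw [Real.exp_neg, ← div_eq_mul_inv, div_le_iff₀ (Real.exp_pos _)]
  have h2 : δ * (C / δ + 1) ≤ δ * Real.exp (L / 4) := mul_le_mul_of_nonneg_left h1 hδ.le
  have h3 : δ * (C / δ + 1) = C + δ := by
    rw [mul_add, mul_div_cancel₀ _ hδ.ne', mul_one]
  linarith only [h2, h3, hδ]

private theorem avg_hMT (h0 h : ℝ) (M : ℕ) (hh0 : 0 < h0) (hh : 0 < h) (hM0' : (0 : ℝ) < M)
    (h1 : h0 / h ≤ 2 * M) : 2 * Real.pi / M ≤ 4 * Real.pi / h0 * h := by
  rw [div_le_iff₀ hM0']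
  rw [div_le_iff₀ hh] at h1
  have h2 : 4 * Real.pi / h0 * h * M = 2 * Real.pi * ((2 * M * h) / h0) := by ring
  rw [h2]
  have h3 : 1 ≤ (2 * M * h) / h0 := by rw [le_div_iff₀ hh0]; linarith only [h1]
  exact le_mul_of_one_le_right (by linarith only [Real.pi_pos]) h3

/-- PROOF. Parseval on `ZMod N`. -/
theorem avg_core (A : ℝ → ℂ) (C c0 : ℝ) (hC : 0 < C) (hc0 : 0 < c0) (hb : ∀ s, 0 ≤ s → ‖A s‖ ≤ C)
    (hl : ∀ s h : ℝ, 0 ≤ s → 0 ≤ h → h ≤ 1 → ‖A (s + h) - A s‖ ≤ C * (h + Real.exp (-(s / 4))))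
    (hm : ∀ T0 δ : ℝ, 0 < δ → ∃ (I : Finset G) (c : G → ℂ) (lam : G → ℝ) (s0 : ℝ), (∀ i ∈ I, 0 ≤ lam i) ∧
      ∑ i ∈ I, ‖c i‖ ≤ 1 ∧ (∀ s, s0 ≤ s → ‖A s - ∑ i ∈ I, c i * A (s - lam i)‖ ≤ δ) ∧
      ∀ t : ℝ, |t| ≤ T0 → (∑ i ∈ I, c i * Complex.exp (-((t * lam i : ℝ) : ℂ) * Complex.I)).re ≤ 1 - c0)
    (ε : ℝ) (hε : 0 < ε) : ∃ h1 : ℝ, 0 < h1 ∧ ∀ h : ℝ, 0 < h → h ≤ h1 → ∃ N0 : ℕ, ∀ N : ℕ, N0 ≤ N →
      ∑ n ∈ range N, ‖A (n * h)‖ ^ 2 ≤ ε * N := by
  have hpi := Real.pi_pos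
  have hsq : 0 < Real.sqrt ε := Real.sqrt_pos.2 hε
  have hsq2 : Real.sqrt ε ^ 2 = ε := Real.sq_sqrt hε.le
  obtain ⟨h0, hh0, hh01, hh02⟩ : ∃ h0 : ℝ, 0 < h0 ∧ h0 ≤ 1 ∧ h0 ≤ Real.sqrt ε / (4 * C) :=
    ⟨min 1 (Real.sqrt ε / (4 * C)), lt_min one_pos (by positivity), min_le_left _ _,
      min_le_right _ _⟩
  have hh03 : (2 * C * h0) ^ 2 ≤ ε / 4 := by
    rw [le_div_iff₀ (by positivity)] at hh02
    have h1 : 2 * C * h0 ≤ Real.sqrt ε / 2 := by linarith
    have h2 : (2 * C * h0) ^ 2 ≤ (Real.sqrt ε / 2) ^ 2 := pow_le_pow_left₀ (by positivity) h1 2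
    rw [div_pow, hsq2] at h2
    linarith
  obtain ⟨T0, hT0⟩ : ∃ T0 : ℝ, T0 = 4 * Real.pi / h0 := ⟨_, rfl⟩
  have hT0p : 0 < T0 := by rw [hT0]; positivity
  obtain ⟨δ, hδd⟩ : ∃ δ : ℝ, δ = c0 * Real.sqrt ε / 12 := ⟨_, rfl⟩
  have hδ : 0 < δ := by rw [hδd]; positivity
  obtain ⟨I, c, lam, s0, hlam, hc, hs, hmt⟩ := hm T0 δ hδ
  obtain ⟨Λ, hΛ, hΛ0⟩ : ∃ Λ : ℝ, (∀ i ∈ I, lam i ≤ Λ) ∧ 0 ≤ Λ :=
    ⟨∑ i ∈ I, lam i, fun i hi => Finset.single_le_sum (f := lam) hlam hi, Finset.sum_nonneg hlam⟩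
  obtain ⟨L, hLd⟩ : ∃ L : ℝ, L = 4 * (C / δ) := ⟨_, rfl⟩
  have hL0 : 0 ≤ L := by rw [hLd]; positivity
  have hL : C * Real.exp (-(L / 4)) ≤ δ := avg_expb C δ L hδ (by rw [hLd]; ring)
  obtain ⟨s1, hs1d⟩ : ∃ s1 : ℝ, s1 = |s0| + Λ + L := ⟨_, rfl⟩
  obtain ⟨s2, hs2d⟩ : ∃ s2 : ℝ, s2 = 4 / h0 := ⟨_, rfl⟩
  have hs2 : Real.exp (-(s2 / 4)) ≤ h0 := by
    have := avg_expb 1 h0 s2 hh0 (by rw [hs2d]; ring)
    rwa [one_mul] at this
  refine ⟨min (h0 / 2) (min (c0 / (2 * T0)) (δ / C)), by positivity, fun h hh hhle => ?_⟩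
  have ha1 : h ≤ h0 / 2 := hhle.trans (min_le_left _ _)
  have ha2 : h ≤ c0 / (2 * T0) := hhle.trans ((min_le_right _ _).trans (min_le_left _ _))
  have ha3 : h ≤ δ / C := hhle.trans ((min_le_right _ _).trans (min_le_right _ _))
  rw [le_div_iff₀ (by positivity)] at ha2 ha3
  have hTh : T0 * h ≤ c0 / 2 := by linarith only [ha2]
  have hCh : C * h ≤ δ := by linarith only [ha3]
  have hq : 2 ≤ h0 / h := by
    rw [le_div_iff₀ hh]; linarith only [ha1]
  obtain ⟨M, hM1, hM2⟩ : ∃ M : ℕ, h0 / h - 1 < M ∧ (M : ℝ) ≤ h0 / h :=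
    ⟨⌊h0 / h⌋₊, by linarith only [Nat.lt_floor_add_one (h0 / h)], Nat.floor_le (by positivity)⟩
  have hM0 : 0 < M := by
    have : (0 : ℝ) < M := by linarith only [hM1, hq]
    exact_mod_cast this
  have hM0' : (0 : ℝ) < M := by exact_mod_cast hM0
  have hMh : M * h ≤ h0 := by rwa [le_div_iff₀ hh] at hM2
  have hMT : 2 * Real.pi / M ≤ T0 * h := by
    rw [hT0]
    exact avg_hMT h0 h M hh0 hh hM0' (by linarith only [hM1, hq])
  obtain ⟨K1, hK1d⟩ : ∃ K1 : ℕ, s1 / h ≤ K1 := ⟨⌈s1 / h⌉₊, Nat.le_ceil _⟩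
  obtain ⟨K2, hK2d⟩ : ∃ K2 : ℕ, s2 / h ≤ K2 := ⟨⌈s2 / h⌉₊, Nat.le_ceil _⟩
  obtain ⟨Bd, hBd⟩ : ∃ Bd : ℝ, Bd = 1 / (c0 / 2) ^ 2 * ((2 * C) ^ 2 * (K1 + (0 : ℕ))) +
    (2 * C) ^ 2 * (K2 + M) := ⟨_, rfl⟩
  refine ⟨max 1 ⌈Bd / (ε / 2)⌉₊, fun N hN => ?_⟩
  have hN1 : 1 ≤ N := (le_max_left _ _).trans hN
  have hN2 : ⌈Bd / (ε / 2)⌉₊ ≤ N := (le_max_right _ _).trans hN
  have hN3 : Bd ≤ ε / 2 * N := by
    have h1 : Bd / (ε / 2) ≤ N := (Nat.le_ceil _).trans (by exact_mod_cast hN2)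
    rw [div_le_iff₀ (by positivity)] at h1
    linarith only [h1]
  have : NeZero N := ⟨by omega⟩
  have hmain := avg_main (N := N) I c (fun i => ⌊lam i / h⌋₊) M (c0 / 2) (by positivity)
    (fun n : ZMod N => A ((n.val : ℝ) * h))
    (avg_freq I c lam (fun i => ⌊lam i / h⌋₊) M hM0 T0 h c0 hh hc (fun i hi => by
      have h1 := Nat.floor_le (div_nonneg (hlam i hi) hh.le)
      have h2 := Nat.lt_floor_add_one (lam i / h)
      rw [abs_le]
      exact ⟨by linarith only [h2], by linarith only [h1]⟩) hmt hTh hMT)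
  rw [avg_range, avg_range] at hmain
  have hE1 : ∑ n ∈ range N, ‖A (n * h)‖ ^ 2 =
      ∑ n ∈ range N, ‖A (((n : ZMod N).val : ℝ) * h)‖ ^ 2 := by
    apply Finset.sum_congr rfl
    intro n hn
    rw [ZMod.val_cast_of_lt (mem_range.1 hn)]
  rw [hE1]
  refine hmain.trans ?_
  have hE2 : ∑ n ∈ range N, ‖A (((n : ZMod N).val : ℝ) * h) - ∑ i ∈ I, c i *
      A ((((n : ZMod N) - ((⌊lam i / h⌋₊ : ℕ) : ZMod N)).val : ℝ) * h)‖ ^ 2 ≤
      (3 * δ) ^ 2 * N + (2 * C) ^ 2 * (K1 + (0 : ℕ)) := by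
    apply avg_count N K1 0 _ _ _ (sq_nonneg _) (sq_nonneg _)
    · intro n _
      exact pow_le_pow_left₀ (norm_nonneg _) (avg_bbig A C hC hb I c hc _ (by positivity) _
        (fun i => by positivity)) 2
    · intro n hn hK _
      have h1 : s1 ≤ n * h := by
        have h2 : s1 / h ≤ n := hK1d.trans (Nat.cast_le.2 hK)
        rwa [div_le_iff₀ hh] at h2
      have h3 : h ≤ 1 := by linarith only [ha1, hh01, hh0]
      have h4 : s0 ≤ n * h := by linarith only [le_abs_self s0, h1, hs1d, hΛ0, hL0]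
      have h5 : ∀ i ∈ I, lam i + L ≤ n * h := fun i hi => by
        linarith only [hΛ i hi, abs_nonneg s0, h1, hs1d]
      exact pow_le_pow_left₀ (norm_nonneg _) (avg_bsmall A C δ h s0 L hC hh h3 hL0 hδ.le
        hl I c lam hlam hc hs hL hCh n hn h4 h5) 2
  have hE3 : ∀ i ∈ range M, ∑ n : ZMod N, ‖A (((n + (i : ZMod N)).val : ℝ) * h) -
      A ((n.val : ℝ) * h)‖ ^ 2 ≤ (2 * C * h0) ^ 2 * N + (2 * C) ^ 2 * (K2 + M) := by
    intro i hi
    rw [avg_range]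
    apply avg_count N K2 M _ _ _ (sq_nonneg _) (sq_nonneg _)
    · intro n _
      refine pow_le_pow_left₀ (norm_nonneg _) ?_ 2
      refine (norm_sub_le _ _).trans ?_
      have h1 := hb ((((n : ZMod N) + (i : ZMod N)).val : ℝ) * h) (by positivity)
      have h2 := hb (((n : ZMod N).val : ℝ) * h) (by positivity)
      linarith only [h1, h2]
    · intro n hn hK hnM
      refine pow_le_pow_left₀ (norm_nonneg _) (avg_dsmall A C h h0 hC hh hh01 hl M hMh i
        (mem_range.1 hi) n hnM ?_) 2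
      have h1 : s2 ≤ n * h := by
        have h2 : s2 / h ≤ n := hK2d.trans (Nat.cast_le.2 hK)
        rwa [div_le_iff₀ hh] at h2
      refine le_trans (Real.exp_le_exp.2 ?_) hs2
      linarith only [h1]
  have hE4 := Finset.sum_le_sum hE3
  rw [Finset.sum_const, card_range, nsmul_eq_mul] at hE4
  have hE5 : (1 / (M : ℝ)) * ∑ i ∈ range M, ∑ n : ZMod N, ‖A (((n + (i : ZMod N)).val : ℝ) * h) -
      A ((n.val : ℝ) * h)‖ ^ 2 ≤ (2 * C * h0) ^ 2 * N + (2 * C) ^ 2 * (K2 + M) := by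
    rw [one_div, inv_mul_le_iff₀ hM0']
    exact hE4
  have hE6 : 1 / (c0 / 2) ^ 2 * ∑ n ∈ range N, ‖A (((n : ZMod N).val : ℝ) * h) - ∑ i ∈ I, c i *
      A ((((n : ZMod N) - ((⌊lam i / h⌋₊ : ℕ) : ZMod N)).val : ℝ) * h)‖ ^ 2 ≤
      1 / (c0 / 2) ^ 2 * ((3 * δ) ^ 2 * N + (2 * C) ^ 2 * (K1 + (0 : ℕ))) :=
    mul_le_mul_of_nonneg_left hE2 (by positivity)
  have hE7 : 1 / (c0 / 2) ^ 2 * (3 * δ) ^ 2 = ε / 4 := by
    have h1 : (3 * δ) ^ 2 = c0 ^ 2 * Real.sqrt ε ^ 2 / 16 := by rw [hδd]; ring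
    rw [h1, hsq2]
    field_simp
    ring
  have hE8 : (2 * C * h0) ^ 2 * N ≤ ε / 4 * N := mul_le_mul_of_nonneg_right hh03 (Nat.cast_nonneg _)
  have hE9 : 1 / (c0 / 2) ^ 2 * ((3 * δ) ^ 2 * N + (2 * C) ^ 2 * (K1 + (0 : ℕ))) =
      ε / 4 * N + 1 / (c0 / 2) ^ 2 * ((2 * C) ^ 2 * (K1 + (0 : ℕ))) := by
    rw [mul_add, ← mul_assoc, hE7]
  rw [hE9] at hE6
  calc _ ≤ (ε / 4 * N + 1 / (c0 / 2) ^ 2 * ((2 * C) ^ 2 * (K1 + (0 : ℕ)))) +
      ((2 * C * h0) ^ 2 * N + (2 * C) ^ 2 * (K2 + M)) := add_le_add hE6 hE5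
    _ ≤ ε / 4 * N + ε / 4 * N + Bd := by linarith only [hBd, hE8]
    _ ≤ ε * N := by linarith only [hN3]

end Pool.Agent.ECM

end
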