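import Mathlib
import Pool.Agent.Lib_MP_f1a94e_m.G07
import Pool.Agent.Lib_MP_f1a94e_m.G09
import Pool.Agent.Lib_MP_f1a94e_m.G10
import Pool.Agent.Lib_MP_f1a94e_m.G11
import Pool.Agent.Lib_MP_f1a94e_m.G12

/-!
# MP_f1a94e_nt: merged library part G14

Concatenation of files of the libraries `Lib_MP_f1a94e_*` (each in its own section), only to save build time.
-/

/-! ### from `Lib_MP_f1a94e_eq.HDefs` -/

section

/-!
# Test functions and weights
-/

set_option autoImplicit false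

namespace Pool.Agent.OmEq

open Finset Pool.Agent.GaussMR Pool.Agent.OmAll MeasureTheory Filter

/-- test functions of `y = dot / X`, `t = log (nm V' / nm V)`, supported on `0 ≤ y ≤ b` -/
structure TF (b : ℝ) (W : ℝ → ℝ → ℂ) : Prop where
  cont : Continuous (Function.uncurry W)
  supp : HasCompactSupport (Function.uncurry W)
  lo : ∀ y t, y ≤ 0 → W y t = 0
  hi : ∀ y t, b ≤ y → W y t = 0

theorem ctw_supp {b : ℝ} {W : ℝ → ℝ → ℂ} (hW : TF b W) :
    ∃ R0 : ℝ, 0 < R0 ∧ ∀ y t, W y t ≠ 0 → |y| ≤ R0 ∧ |t| ≤ R0 := by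
  obtain ⟨R1, hR1⟩ := hW.supp.isCompact.isBounded.subset_closedBall (0 : ℝ × ℝ)
  refine ⟨max R1 1, by positivity, fun y t h => ?_⟩
  have h1 : (y, t) ∈ tsupport (Function.uncurry W) := subset_tsupport _ h
  have h2 := hR1 h1
  rw [mem_closedBall_zero_iff, Prod.norm_def, max_le_iff, Real.norm_eq_abs, Real.norm_eq_abs] at h2
  exact ⟨h2.1.trans (le_max_left _ _), h2.2.trans (le_max_left _ _)⟩

theorem ctw_cont_right {b : ℝ} {W : ℝ → ℝ → ℂ} (hW : TF b W) (y : ℝ) : Continuous (W y) :=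
  hW.cont.comp (Continuous.prodMk_right y)

theorem ctw_supp_right {b : ℝ} {W : ℝ → ℝ → ℂ} (hW : TF b W) (y : ℝ) : HasCompactSupport (W y) := by
  obtain ⟨R0, _, hR⟩ := ctw_supp hW
  refine HasCompactSupport.of_support_subset_isCompact (isCompact_Icc (a := -R0) (b := R0)) ?_
  intro t ht
  rw [Set.mem_Icc, ← abs_le]
  exact (hR y t ht).2

/-- continuous cut-off functions supported in `[h1, h2]`, `0 < h1` -/
structure HF (h : ℝ → ℝ) (h1 h2 : ℝ) : Prop where
  cont : Continuous h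
  nn : ∀ y, 0 ≤ h y
  le : ∀ y, h y ≤ 1
  pos : 0 < h1
  one : 1 ≤ h2
  lo : ∀ y, y ≤ h1 → h y = 0
  hi : ∀ y, h2 ≤ y → h y = 0

/-- the limit of the weight `wN` as a function of `y = dot / X` and `t = log (nm V' / nm V)`; `x = exp (t / 2)` -/
noncomputable def WN (h : ℝ → ℝ) (J N n : ℕ) (y t : ℝ) : ℂ :=
  if t < 0 then ((h (y * (1 - Real.exp (t / 2)) ^ 2 / (n ^ 2 * Real.exp (t / 2))) ^ 2 *
    rho J N (n / (1 - Real.exp (t / 2))) * rho J N (n * Real.exp (t / 2) / (1 - Real.exp (t / 2))) : ℝ) : ℂ) else 0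


theorem apxn_rho_cont (J N : ℕ) : Continuous (rho J N) := by
  unfold rho
  exact continuous_const.max (continuous_const.sub ((((continuous_const.mul
    (continuous_id.sub continuous_const)).div_const _).sub continuous_const).abs))

theorem apxn_rho_nn (J N : ℕ) (r : ℝ) : 0 ≤ rho J N r := le_max_left _ _

theorem apxn_rho_ne {J N : ℕ} (hN : 1 ≤ N) {r : ℝ} (h : rho J N r ≠ 0) : (J : ℝ) < r ∧ r < J + N := by
  have hN' : (0 : ℝ) < N := by exact_mod_cast hN
  unfold rho at h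
  have h1 : 0 < 1 - |2 * (r - J) / N - 1| := by
    by_contra h2
    exact h (max_eq_left (not_lt.1 h2))
  have h3 : |2 * (r - J) / N - 1| < 1 := by linarith
  rw [abs_lt] at h3
  obtain ⟨h4, h5⟩ := h3
  have h6 : 0 < 2 * (r - J) / N := by linarith
  have h7 : 2 * (r - J) / N < 2 := by linarith
  rw [div_lt_iff₀ hN'] at h7
  have h8 : 0 < 2 * (r - J) := by
    by_contra h9
    exact absurd h6 (not_lt.2 (div_nonpos_of_nonpos_of_nonneg (not_lt.1 h9) hN'.le))
  constructor <;> linarith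

/-- the triangle function -/
noncomputable def ps0 (t : ℝ) : ℝ := max 0 (1 - |t|)

/-- the correlations are small on average -/
def GmSmall (f : ℕ → ℂ) : Prop :=
  ∀ (h : ℝ → ℝ) (h1 h2 : ℝ), HF h h1 h2 → ∀ ε : ℝ, 0 < ε → ∃ N0 : ℕ, ∀ N : ℕ, N0 ≤ N → ∃ J0 : ℕ, ∀ J : ℕ, J0 ≤ J →
    ∀ᶠ X : ℝ in atTop, ‖∑ n ∈ Icc 1 N, Gm f h J N n (((J + N) ^ 2 * h2 + 1) * X) X‖ ≤ ε * N ^ 2 * X

end Pool.Agent.OmEq

end

/-! ### from `Lib_MP_f1a94e_eq.CmpP` -/

section

/-!
# Piece CMPP: products of multiplicative functions are compatible with moves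
-/

set_option autoImplicit false

namespace Pool.Agent.OmEq

open Finset Pool.Agent.GaussMR Pool.Agent.OmAll

/-- completely multiplicative functions bounded by 1, equal to `ω` at the primes `1 mod 4` outside `E` -/
structure FF (f : ℕ → ℂ) (E : Finset ℕ) (ω : ℂ) : Prop where
  mul : ∀ m n, f (m * n) = f m * f n
  bd : ∀ n, ‖f n‖ ≤ 1
  pr : ∀ p : ℕ, p.Prime → p % 4 = 1 → p ∉ E → f p = ω

/-- immediate -/
theorem FF.conj {f : ℕ → ℂ} {E : Finset ℕ} {ω : ℂ} (h : FF f E ω) :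
    FF (fun n => (starRingEnd ℂ) (f n)) E ((starRingEnd ℂ) ω) := by
  refine ⟨fun m n => ?_, fun n => ?_, fun p hp h4 hE => ?_⟩
  · rw [h.mul, map_mul]
  · rw [RCLike.norm_conj]
    exact h.bd n
  · rw [h.pr p hp h4 hE]

/-- PROOF. `bd`: `‖χ‖ ≤ 1` (`DirichletCharacter.norm_le_one`). `mv`: `p = nm γ ∉ E ∪ n.primeFactors` is coprime to `n`; by `En_move` and multiplicativity (`nm_mul`, `nm_star`)
`Φ (γ U, W) = ω1 f1(nm U) f2(nm W) χ(c)` and `Φ (U, star γ W) = f1(nm U) ω2 f2(nm W) χ(p) χ(c)`; `ω1 = (ω1 conj ω2) ω2` (`‖ω2‖ = 1`) and `χ⁻¹(p) χ(p) = 1` (`p` is a unit). -/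
theorem cmp_pair (n : ℕ) [NeZero n] (χ : DirichletCharacter ℂ n) (E : Finset ℕ) (f1 f2 : ℕ → ℂ) (ω1 ω2 : ℂ)
    (h1 : FF f1 E ω1) (h2 : FF f2 E ω2) (hω1 : ‖ω1‖ = 1) (hω2 : ‖ω2‖ = 1) :
    Cmp n (E ∪ n.primeFactors) (fun p => ω1 * (starRingEnd ℂ) ω2 * χ⁻¹ (p : ZMod n))
      (fun e => f1 (nm e.1) * f2 (nm e.2) * χ (cl n e)) := by
  classical
  refine ⟨fun e => ?_, ?_⟩
  · rw [norm_mul, norm_mul]
    have k1 := h1.bd (nm e.1)
    have k2 := h2.bd (nm e.2)
    have k3 := χ.norm_le_one (cl n e)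
    exact mul_le_one₀ (mul_le_one₀ k1 (norm_nonneg _) k2) (norm_nonneg _) k3
  · intro γ U W hp h4 hE he _
    have hE1 : nm γ ∉ E := fun h => hE (Finset.mem_union_left _ h)
    have hcop : (nm γ).Coprime n := by
      rw [Nat.Prime.coprime_iff_not_dvd hp]
      intro hd
      exact hE (Finset.mem_union_right _ (Nat.mem_primeFactors.mpr ⟨hp, hd, NeZero.ne n⟩))
    obtain ⟨_, hcl⟩ := En_move hp hcop he
    have hu : IsUnit ((nm γ : ZMod n)) := (ZMod.isUnit_iff_coprime _ _).mpr hcop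
    have e1 : f1 (nm (γ * U)) = ω1 * f1 (nm U) := by
      rw [nm_mul, h1.mul, h1.pr _ hp h4 hE1]
    have e2 : f2 (nm (star γ * W)) = ω2 * f2 (nm W) := by
      rw [nm_mul, nm_star, h2.mul, h2.pr _ hp h4 hE1]
    have e3 : (starRingEnd ℂ) ω2 * ω2 = 1 := by
      rw [mul_comm, Complex.mul_conj, Complex.normSq_eq_norm_sq, hω2]
      norm_num
    have e4 : χ⁻¹ ((nm γ : ZMod n)) * χ ((nm γ : ZMod n)) = 1 := by
      rw [← MulChar.mul_apply, inv_mul_cancel, MulChar.one_apply hu]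
    simp only
    rw [hcl, e1, e2, map_mul]
    calc ω1 * f1 (nm U) * f2 (nm W) * χ (cl n (γ * U, W))
        = ω1 * f1 (nm U) * f2 (nm W) * χ (cl n (γ * U, W)) * ((starRingEnd ℂ) ω2 * ω2) *
          (χ⁻¹ ((nm γ : ZMod n)) * χ ((nm γ : ZMod n))) := by rw [e3, e4, mul_one, mul_one]
      _ = _ := by ring

end Pool.Agent.OmEq

end

/-! ### from `Lib_MP_f1a94e_eq.FzD` -/

section

/-!
# Powers of roots of unity
-/

set_option autoImplicit false

namespace Pool.Agent.OmEq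

open Finset Pool.Agent.GaussMR Pool.Agent.OmAll MeasureTheory Filter

/-- `z ^ Ω(n)` on the numbers coprime to `R`, zero otherwise -/
noncomputable def fz (R : ℕ) (z : ℂ) (n : ℕ) : ℂ :=
  if n = 0 ∨ ¬ n.Coprime R then 0 else z ^ ArithmeticFunction.cardFactors n

/-- `exp (2 π i / q)` -/
noncomputable def zq (q : ℕ) : ℂ := Complex.exp (2 * Real.pi * Complex.I / q)

/-- PROOF. `mul`: if `m n = 0` or `m n` is not coprime to `R` both sides vanish (`Nat.Coprime.mul_left` / `Nat.coprime_mul_iff_left`); otherwise `ArithmeticFunction.cardFactors_mul`. `pr`: a prime not in `R.primeFactors` is coprime to `R`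
(`R ≠ 0`), `cardFactors p = 1`. -/
theorem fz_FF (R : ℕ) (hR : 0 < R) (z : ℂ) (hz : ‖z‖ = 1) : FF (fz R z) R.primeFactors z := by
  refine ⟨?_, ?_, ?_⟩
  · intro m n
    unfold fz
    by_cases hm : m = 0
    · subst hm
      simp
    by_cases hn : n = 0
    · subst hn
      simp
    have hmn : m * n ≠ 0 := mul_ne_zero hm hn
    by_cases h1 : m.Coprime R
    · by_cases h2 : n.Coprime R
      · have h3 : (m * n).Coprime R := Nat.Coprime.mul_left h1 h2
        rw [if_neg (by tauto), if_neg (by tauto), if_neg (by tauto),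
          ArithmeticFunction.cardFactors_mul hm hn, pow_add]
      · have h3 : ¬ (m * n).Coprime R := fun h => h2 (Nat.Coprime.coprime_mul_left h)
        rw [if_pos (Or.inr h3), if_pos (Or.inr h2), mul_zero]
    · have h3 : ¬ (m * n).Coprime R := fun h => h1 (Nat.Coprime.coprime_mul_right h)
      rw [if_pos (Or.inr h3), if_pos (Or.inr h1), zero_mul]
  · intro n
    unfold fz
    split_ifs
    · rw [norm_zero]
      exact zero_le_one
    · rw [norm_pow, hz, one_pow]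
  · intro p hp _ hpR
    unfold fz
    have h1 : p.Coprime R := by
      rw [Nat.Prime.coprime_iff_not_dvd hp]
      intro h
      exact hpR (Nat.mem_primeFactors.2 ⟨hp, h, hR.ne'⟩)
    rw [if_neg]
    · rw [ArithmeticFunction.cardFactors_apply_prime hp, pow_one]
    · rintro (h | h)
      · exact hp.ne_zero h
      · exact h h1

theorem fine_prim (q : ℕ) (hq : 0 < q) : IsPrimitiveRoot (zq q) q :=
  Complex.isPrimitiveRoot_exp q hq.ne'

theorem fine_norm (q : ℕ) (hq : 0 < q) (i : ℕ) : ‖zq q ^ i‖ = 1 := by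
  rw [norm_pow, Complex.norm_eq_one_of_pow_eq_one (fine_prim q hq).pow_eq_one hq.ne', one_pow]

theorem fine_ne {q : ℕ} (hq : 0 < q) : zq q ≠ 0 := (fine_prim q hq).ne_zero hq.ne'

/-- powers of the primitive root -/
theorem fine_pow_eq {q : ℕ} (hq : 0 < q) (m n : ℕ) : zq q ^ m = zq q ^ n ↔ m ≡ n [MOD q] := by
  have key : ∀ m n : ℕ, m ≤ n → (zq q ^ m = zq q ^ n ↔ m ≡ n [MOD q]) := by
    intro m n hmn
    rw [Nat.modEq_iff_dvd' hmn, ← (fine_prim q hq).pow_eq_one_iff_dvd]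
    have h1 : zq q ^ n = zq q ^ m * zq q ^ (n - m) := by
      rw [← pow_add, Nat.add_sub_cancel' hmn]
    rw [h1]
    have h2 : zq q ^ m ≠ 0 := pow_ne_zero _ (fine_ne hq)
    constructor
    · intro h
      have h3 : zq q ^ m * 1 = zq q ^ m * zq q ^ (n - m) := by rw [mul_one]; exact h
      exact (mul_left_cancel₀ h2 h3).symm
    · intro h
      rw [h, mul_one]
  rcases le_total m n with h | h
  · exact key m n h
  · rw [eq_comm, Nat.ModEq.comm]
    exact key n m h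

open Classical in
/-- orthogonality -/
theorem fine_orth {q : ℕ} (hq : 0 < q) (n a : ℕ) :
    ∑ i ∈ range q, (zq q ^ (i * a))⁻¹ * (zq q ^ i) ^ n = if n ≡ a [MOD q] then (q : ℂ) else 0 := by
  have h0 := fine_ne hq
  have h1 : ∀ i ∈ range q, (zq q ^ (i * a))⁻¹ * (zq q ^ i) ^ n = (zq q ^ n * (zq q ^ a)⁻¹) ^ i := by
    intro i _
    rw [mul_pow, inv_pow, ← pow_mul, ← pow_mul, ← pow_mul, mul_comm i a, mul_comm i n]
    ring
  rw [sum_congr rfl h1]
  by_cases h : n ≡ a [MOD q]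
  · rw [if_pos h, (fine_pow_eq hq n a).2 h, mul_inv_cancel₀ (pow_ne_zero _ h0)]
    simp
  · rw [if_neg h]
    set y : ℂ := zq q ^ n * (zq q ^ a)⁻¹ with hy
    have hy1 : y ≠ 1 := by
      intro h2
      apply h
      rw [← fine_pow_eq hq]
      rw [hy] at h2
      rw [← div_eq_mul_inv, div_eq_one_iff_eq (pow_ne_zero _ h0)] at h2
      exact h2
    have hyq : y ^ q = 1 := by
      rw [hy, mul_pow, inv_pow, ← pow_mul, ← pow_mul, mul_comm n q, mul_comm a q, pow_mul, pow_mul,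
        (fine_prim q hq).pow_eq_one, one_pow, one_pow, inv_one, mul_one]
    rw [geom_sum_eq hy1, hyq, sub_self, zero_div]

end Pool.Agent.OmEq

end

/-! ### from `Lib_MP_f1a94e_eq.BDefs` -/

section

/-!
# Stage B (`ω = -1`): definitions

After the clusters only the average over (almost) all classes remains.
-/

set_option autoImplicit false

namespace Pool.Agent.OmEq

open Finset Pool.Agent.GaussMR Pool.Agent.OmAll MeasureTheory Filter

/-- the index of the classes `1 mod 4` -/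
noncomputable def kap (n : ℕ) : ℝ := if 4 ∣ n then 2 else 1

/-- if `4 ∣ n` then `V' = V mod 4` -/
def hc (n : ℕ) (e : G × G) : Prop := 4 ∣ n → cg 4 e.2 e.1

open Classical in
/-- the sum over almost all classes -/
noncomputable def Qs (f : ℕ → ℂ) (n : ℕ) (x : ℝ) (W : ℝ → ℝ → ℂ) (X : ℝ) : ℂ :=
  ∑ e ∈ (EN n x).filter (hc n), f (nm e.1) * (starRingEnd ℂ) (f (nm e.2)) * W (mE e / X) (tE e)

/-- the triangle on `[0, 1]` -/
noncomputable def r0 (u : ℝ) : ℝ := max 0 (1 - |2 * u - 1|)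

/-- its autocorrelation -/
noncomputable def ww (s : ℝ) : ℝ := ∫ u, r0 u * r0 (u - s)

/-- weighted sums of the correlations -/
def QSmall (f : ℕ → ℂ) : Prop :=
  ∀ (h : ℝ → ℝ) (h1 h2 : ℝ), HF h h1 h2 → ∀ ε : ℝ, 0 < ε → ∃ N0 : ℕ, ∀ N : ℕ, N0 ≤ N → ∀ᶠ Y : ℝ in atTop,
    ‖∑ n ∈ Icc 1 N, ((kap n * (n / n.totient) * ww ((n : ℝ) / N) : ℝ) : ℂ) *
      Qs f n (h2 * Y) (fun y t => ((h y ^ 2 * ps0 t : ℝ) : ℂ)) Y‖ ≤ ε * N * Y

/-- the same over the multiples of `d`, without the factor `n / φ(n)` -/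
def QdSmall (f : ℕ → ℂ) : Prop :=
  ∀ d : ℕ, 1 ≤ d → ∀ (h : ℝ → ℝ) (h1 h2 : ℝ), HF h h1 h2 → ∀ ε : ℝ, 0 < ε → ∃ N0 : ℕ, ∀ N : ℕ, N0 ≤ N →
    ∀ᶠ Y : ℝ in atTop, ‖∑ n ∈ (Icc 1 N).filter (fun n => d ∣ n), ((kap n * ww ((n : ℝ) / N) : ℝ) : ℂ) *
      Qs f n (h2 * Y) (fun y t => ((h y ^ 2 * ps0 t : ℝ) : ℂ)) Y‖ ≤ ε * N * Y

/-- the argument of `z` modulo `2 π` lies in `[θ, θ + δ)` -/
def arcIn (θ δ : ℝ) (z : G) : Prop :=
  ∃ k : ℤ, θ ≤ Complex.arg (z : ℂ) + 2 * Real.pi * k ∧ Complex.arg (z : ℂ) + 2 * Real.pi * k < θ + δ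

open Classical in
/-- all primitive Gaussian integers of norm at most `X` -/
noncomputable def PV (X : ℝ) : Finset G := (ball X).filter Prim

open Classical in
/-- sum over an arc and a residue class, odd primitive -/
noncomputable def So (f : ℕ → ℂ) (D : ℕ) (b : G) (X δ θ : ℝ) : ℂ :=
  ∑ z ∈ (V X).filter (fun z => cg D z b ∧ arcIn θ δ z), f (nm z)

open Classical in
/-- sum over an arc and a residue class, primitive -/
noncomputable def Sp (f : ℕ → ℂ) (D : ℕ) (b : G) (X δ θ : ℝ) : ℂ :=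
  ∑ z ∈ (PV X).filter (fun z => cg D z b ∧ arcIn θ δ z), f (nm z)

/-- Matomaki-Radziwill in arcs, odd primitive numbers -/
def MRO (f : ℕ → ℂ) : Prop :=
  ∀ D : ℕ, 0 < D → ∀ b : G, ∀ ε : ℝ, 0 < ε → ∃ H0 : ℝ, 0 < H0 ∧ ∀ H : ℝ, H0 ≤ H → ∃ X0 : ℝ, ∀ X : ℝ, X0 ≤ X →
    ∫ θ in (0 : ℝ)..(2 * Real.pi), ‖So f D b X (H / X) θ‖ ^ 2 ≤ ε * H ^ 2

/-- Matomaki-Radziwill in arcs, primitive numbers -/
def MRP (f : ℕ → ℂ) : Prop :=
  ∀ D : ℕ, 0 < D → ∀ b : G, ∀ ε : ℝ, 0 < ε → ∃ H0 : ℝ, 0 < H0 ∧ ∀ H : ℝ, H0 ≤ H → ∃ X0 : ℝ, ∀ X : ℝ, X0 ≤ X →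
    ∫ θ in (0 : ℝ)..(2 * Real.pi), ‖Sp f D b X (H / X) θ‖ ^ 2 ≤ ε * H ^ 2

/-- the oriented angle from `V` to `V'`, in `(-π, π]` -/
noncomputable def ang (V V' : G) : ℝ := Complex.arg ((star V * V' : G) : ℂ)

theorem mem_PV {X : ℝ} {z : G} : z ∈ PV X ↔ (nm z : ℝ) ≤ X ∧ Prim z := by
  classical
  unfold PV
  rw [mem_filter, mem_ball]

end Pool.Agent.OmEq

end

/-! ### from `Lib_MP_f1a94e_eq.ArcI` -/

section

/-!
# Piece ARCI: pairs and arcs
-/

set_option autoImplicit false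

namespace Pool.Agent.OmEq

open Finset Pool.Agent.GaussMR Pool.Agent.OmAll MeasureTheory Filter

theorem arci_ang (V V' : G) (hV : V ≠ 0) (hV' : V' ≠ 0) :
    ∃ j : ℤ, ang V V' = Complex.arg (V' : ℂ) - Complex.arg (V : ℂ) + 2 * Real.pi * j := by
  have h1 : (V : ℂ) ≠ 0 := by
    intro h
    exact hV (GaussianInt.toComplex_eq_zero.mp h)
  have h2 : (V' : ℂ) ≠ 0 := by
    intro h
    exact hV' (GaussianInt.toComplex_eq_zero.mp h)
  have h3 : (ang V V' : Real.Angle) = ((Complex.arg (V' : ℂ) - Complex.arg (V : ℂ) : ℝ) : Real.Angle) := by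
    unfold ang
    rw [GaussianInt.toComplex_mul, GaussianInt.toComplex_star,
      Complex.arg_mul_coe_angle ((map_ne_zero (starRingEnd ℂ)).mpr h1) h2, Complex.arg_conj_coe_angle,
      Real.Angle.coe_sub]
    abel
  obtain ⟨j, hj⟩ := Real.Angle.angle_eq_iff_two_pi_dvd_sub.mp h3
  exact ⟨j, by linarith⟩

theorem arci_per (δ : ℝ) (z : G) (θ : ℝ) : arcIn (θ + 2 * Real.pi) δ z ↔ arcIn θ δ z := by
  unfold arcIn
  constructor
  · rintro ⟨k, h1, h2⟩
    refine ⟨k - 1, ?_, ?_⟩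
    · push_cast
      linarith
    · push_cast
      linarith
  · rintro ⟨k, h1, h2⟩
    refine ⟨k + 1, ?_, ?_⟩
    · push_cast
      linarith
    · push_cast
      linarith

theorem arci_meas (δ : ℝ) (z : G) : MeasurableSet {θ : ℝ | arcIn θ δ z} := by
  have h1 : {θ : ℝ | arcIn θ δ z} = ⋃ k : ℤ, ({θ : ℝ | θ ≤ Complex.arg (z : ℂ) + 2 * Real.pi * k} ∩
      {θ : ℝ | Complex.arg (z : ℂ) + 2 * Real.pi * k < θ + δ}) := by
    ext θ
    simp only [arcIn, Set.mem_ofPred_eq, Set.mem_iUnion, Set.mem_inter_iff]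
  rw [h1]
  refine MeasurableSet.iUnion (fun k => ?_)
  exact (measurableSet_le measurable_id measurable_const).inter
    (measurableSet_lt measurable_const (measurable_id.add_const δ))

open Classical in
/-- the indicator of an arc as a function of its left end -/
noncomputable def arciI (δ : ℝ) (z : G) (θ : ℝ) : ℝ := if arcIn θ δ z then 1 else 0

theorem arciI_meas (δ : ℝ) (z : G) : Measurable (arciI δ z) := by
  classical
  unfold arciI
  exact Measurable.ite (arci_meas δ z) measurable_const measurable_const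

theorem arciI_per (δ : ℝ) (z : G) (θ : ℝ) : arciI δ z (θ + 2 * Real.pi) = arciI δ z θ := by
  classical
  unfold arciI
  by_cases h : arcIn θ δ z
  · rw [if_pos h, if_pos ((arci_per δ z θ).mpr h)]
  · rw [if_neg h, if_neg (fun h' => h ((arci_per δ z θ).mp h'))]

theorem arciI_nonneg (δ : ℝ) (z : G) (θ : ℝ) : 0 ≤ arciI δ z θ := by
  classical
  unfold arciI
  split_ifs <;> norm_num

theorem arciI_le (δ : ℝ) (z : G) (θ : ℝ) : arciI δ z θ ≤ 1 := by
  classical
  unfold arciI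
  split_ifs <;> norm_num

open Classical in
/-- PROOF. Let `φ = arg V`, `φ' = arg V'`; `ang V V' = φ' - φ + 2 π j` for an integer `j` (`Complex.arg_conj_coe_angle`, `Complex.arg_mul_coe_angle`, or `toComplex` of `star V * V'`). The integrand is `2π`-periodic in `θ`, so the integral over `[0, 2π]` equals the
one over `[φ - π, φ + π]` (`Function.Periodic.intervalIntegral_add_eq`). There `arcIn θ δ V` iff `θ ≤ φ < θ + δ` (`δ < π`), i.e. `θ ∈ (φ - δ, φ]`, and for these `θ`, `arcIn (θ + l δ) δ V'` iff `θ + l δ ≤ φ + ang < θ + (l+1) δ` (other multiples of `2 π` are impossible as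
`|ang| ≤ π` and `(l + 1) δ < π`), i.e. `θ ∈ (φ + ang - (l+1) δ, φ + ang - l δ]`. The intersection of `(φ - δ, φ]` with it has length `max 0 (δ - |ang - l δ|)`. -/
theorem arc_overlap (V V' : G) (hV : V ≠ 0) (hV' : V' ≠ 0) (δ : ℝ) (hδ : 0 < δ) (l : ℕ) (hl : ((l : ℝ) + 1) * δ < Real.pi) :
    ∫ θ in (0 : ℝ)..(2 * Real.pi), ((if arcIn θ δ V then 1 else 0) * (if arcIn (θ + l * δ) δ V' then 1 else 0) : ℝ) =
      δ * max 0 (1 - |ang V V' / δ - l|) := by
  obtain ⟨j, hj⟩ := arci_ang V V' hV hV'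
  have hpi := Real.pi_pos
  set φ := Complex.arg (V : ℂ) with hφ
  set φ' := Complex.arg (V' : ℂ) with hφ'
  set α := ang V V' with hα
  have hα1 : -Real.pi < α := Complex.neg_pi_lt_arg _
  have hα2 : α ≤ Real.pi := Complex.arg_le_pi _
  have hlδ : 0 ≤ (l : ℝ) * δ := by positivity
  have hδπ : δ < Real.pi := by nlinarith
  set g : ℝ → ℝ := fun θ => ((if arcIn θ δ V then 1 else 0) * (if arcIn (θ + l * δ) δ V' then 1 else 0) : ℝ)
    with hg
  have hper : Function.Periodic g (2 * Real.pi) := by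
    intro θ
    have e1 := arci_per δ V θ
    have e2 := arci_per δ V' (θ + l * δ)
    have e3 : θ + 2 * Real.pi + l * δ = θ + l * δ + 2 * Real.pi := by ring
    rw [hg]
    simp only
    rw [e3]
    congr 1
    · by_cases h : arcIn θ δ V
      · rw [if_pos h, if_pos (e1.mpr h)]
      · rw [if_neg h, if_neg (fun h' => h (e1.mp h'))]
    · by_cases h : arcIn (θ + l * δ) δ V'
      · rw [if_pos h, if_pos (e2.mpr h)]
      · rw [if_neg h, if_neg (fun h' => h (e2.mp h'))]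
  have hshift := hper.intervalIntegral_add_eq 0 (φ - Real.pi)
  rw [zero_add] at hshift
  have hend : φ - Real.pi + 2 * Real.pi = φ + Real.pi := by ring
  rw [hend] at hshift
  rw [hshift, intervalIntegral.integral_of_le (by linarith)]
  set a' := max (φ - δ) (φ + α - (l + 1) * δ) with ha'
  set b' := min φ (φ + α - l * δ) with hb'
  have hind : ∀ θ ∈ Set.Ioc (φ - Real.pi) (φ + Real.pi), g θ = (Set.Ioc a' b').indicator (fun _ => (1 : ℝ)) θ := by
    intro θ hθ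
    have k1 : arcIn θ δ V ↔ φ - δ < θ ∧ θ ≤ φ := by
      unfold arcIn
      rw [← hφ]
      constructor
      · rintro ⟨k, h1, h2⟩
        have hk0 : k = 0 := by
          have u1 : k < 1 := by
            by_contra hc
            push Not at hc
            have : (1 : ℝ) ≤ k := by exact_mod_cast hc
            nlinarith [hθ.2]
          have u2 : -1 < k := by
            by_contra hc
            push Not at hc
            have : (k : ℝ) ≤ -1 := by exact_mod_cast hc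
            nlinarith [hθ.1]
          omega
        rw [hk0, Int.cast_zero, mul_zero, add_zero] at h1 h2
        exact ⟨by linarith, h1⟩
      · rintro ⟨h1, h2⟩
        refine ⟨0, ?_, ?_⟩
        · rw [Int.cast_zero, mul_zero, add_zero]
          exact h2
        · rw [Int.cast_zero, mul_zero, add_zero]
          linarith
    have k2 : φ - δ < θ → θ ≤ φ → (arcIn (θ + l * δ) δ V' ↔ φ + α - (l + 1) * δ < θ ∧ θ ≤ φ + α - l * δ) := by
      intro t1 t2
      unfold arcIn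
      rw [← hφ']
      constructor
      · rintro ⟨k, h1, h2⟩
        have e1 : φ' + 2 * Real.pi * k = φ + α + 2 * Real.pi * ((k - j : ℤ) : ℝ) := by
          rw [hj]
          push_cast
          ring
        rw [e1] at h1 h2
        have hk0 : k - j = 0 := by
          generalize k - j = m at h1 h2
          have u1 : m < 1 := by
            by_contra hc
            push Not at hc
            have : (1 : ℝ) ≤ m := by exact_mod_cast hc
            nlinarith
          have u2 : -1 < m := by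
            by_contra hc
            push Not at hc
            have : (m : ℝ) ≤ -1 := by exact_mod_cast hc
            nlinarith
          omega
        rw [hk0, Int.cast_zero, mul_zero, add_zero] at h1 h2
        exact ⟨by linarith, by linarith⟩
      · rintro ⟨h1, h2⟩
        refine ⟨j, ?_, ?_⟩
        · have : φ' + 2 * Real.pi * j = φ + α := by rw [hj]; ring
          rw [this]
          linarith
        · have : φ' + 2 * Real.pi * j = φ + α := by rw [hj]; ring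
          rw [this]
          linarith
    rw [hg]
    simp only
    by_cases c1 : φ - δ < θ ∧ θ ≤ φ
    · rw [if_pos (k1.mpr c1), one_mul]
      by_cases c2 : φ + α - (l + 1) * δ < θ ∧ θ ≤ φ + α - l * δ
      · rw [if_pos ((k2 c1.1 c1.2).mpr c2), Set.indicator_of_mem]
        exact ⟨max_lt c1.1 c2.1, le_min c1.2 c2.2⟩
      · rw [if_neg (fun h => c2 ((k2 c1.1 c1.2).mp h)), Set.indicator_of_notMem]
        intro h
        exact c2 ⟨(max_lt_iff.mp h.1).2, (le_min_iff.mp h.2).2⟩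
    · rw [if_neg (fun h => c1 (k1.mp h)), zero_mul, Set.indicator_of_notMem]
      intro h
      exact c1 ⟨(max_lt_iff.mp h.1).1, (le_min_iff.mp h.2).1⟩
  rw [MeasureTheory.setIntegral_congr_fun measurableSet_Ioc hind, MeasureTheory.setIntegral_indicator measurableSet_Ioc]
  have hsub : Set.Ioc (φ - Real.pi) (φ + Real.pi) ∩ Set.Ioc a' b' = Set.Ioc a' b' := by
    refine Set.inter_eq_self_of_subset_right (Set.Ioc_subset_Ioc ?_ ?_)
    · exact le_trans (by linarith) (le_max_left _ _)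
    · exact le_trans (min_le_left _ _) (by linarith)
  rw [hsub, MeasureTheory.setIntegral_const, smul_eq_mul, mul_one, Real.volume_real_Ioc]
  have e1 : δ * max 0 (1 - |α / δ - l|) = max 0 (δ - |α - l * δ|) := by
    rw [mul_max_of_nonneg _ _ hδ.le, mul_zero, mul_sub, mul_one]
    congr 2
    have : α - l * δ = δ * (α / δ - l) := by field_simp
    rw [this, abs_mul, abs_of_pos hδ]
  rw [e1, max_comm]
  congr 1
  rw [ha', hb']
  have e2 : φ + α - (l + 1) * δ = (φ - δ) + (α - l * δ) := by ring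
  have e3 : φ + α - l * δ = φ + (α - l * δ) := by ring
  rw [e2, e3]
  rcases le_total 0 (α - l * δ) with h | h
  · rw [abs_of_nonneg h, min_eq_left (by linarith), max_eq_right (by linarith)]
    ring
  · rw [abs_of_nonpos h, min_eq_right (by linarith), max_eq_left (by linarith)]
    ring

theorem arciI_ii (δ : ℝ) (z : G) (c x y : ℝ) :
    IntervalIntegrable (fun θ => arciI δ z (θ + c)) volume x y := by
  have hm : Measurable (fun θ => arciI δ z (θ + c)) := (arciI_meas δ z).comp (measurable_id.add_const c)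
  refine (intervalIntegrable_const (c := (1 : ℝ))).mono_fun hm.aestronglyMeasurable ?_
  refine Filter.Eventually.of_forall (fun θ => ?_)
  change |arciI δ z (θ + c)| ≤ |(1 : ℝ)|
  rw [abs_of_nonneg (arciI_nonneg _ _ _), abs_one]
  exact arciI_le _ _ _

theorem arciI_ii2 (δ : ℝ) (z z' : G) (c c' x y : ℝ) :
    IntervalIntegrable (fun θ => arciI δ z (θ + c) * arciI δ z' (θ + c')) volume x y := by
  have hm : Measurable (fun θ => arciI δ z (θ + c) * arciI δ z' (θ + c')) :=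
    ((arciI_meas δ z).comp (measurable_id.add_const c)).mul ((arciI_meas δ z').comp (measurable_id.add_const c'))
  refine (intervalIntegrable_const (c := (1 : ℝ))).mono_fun hm.aestronglyMeasurable ?_
  refine Filter.Eventually.of_forall (fun θ => ?_)
  change |arciI δ z (θ + c) * arciI δ z' (θ + c')| ≤ |(1 : ℝ)|
  rw [abs_of_nonneg (mul_nonneg (arciI_nonneg _ _ _) (arciI_nonneg _ _ _)), abs_one]
  exact mul_le_one₀ (arciI_le _ _ _) (arciI_nonneg _ _ _) (arciI_le _ _ _)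

open Classical in
theorem arci_Sp (f : ℕ → ℂ) (D : ℕ) (b : G) (X δ θ : ℝ) :
    Sp f D b X δ θ = ∑ V ∈ (PV X).filter (fun V => cg D V b), f (nm V) * ((arciI δ V θ : ℝ) : ℂ) := by
  unfold Sp
  rw [Finset.sum_filter, Finset.sum_filter]
  refine Finset.sum_congr rfl (fun V _ => ?_)
  unfold arciI
  by_cases h1 : cg D V b
  · by_cases h : arcIn θ δ V
    · rw [if_pos h1, if_pos h, if_pos ⟨h1, h⟩, Complex.ofReal_one, mul_one]
    · rw [if_pos h1, if_neg h, if_neg (fun hh => h hh.2), Complex.ofReal_zero, mul_zero]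
  · rw [if_neg h1, if_neg (fun hh => h1 hh.1)]

open Classical in
/-- PROOF. Expand `∫ Sp f D b X δ θ * conj (Sp f D b' X' δ (θ + l δ)) dθ` (finite sums; each indicator of an arc is a measurable bounded function of `θ`) with `arc_overlap`: it is `δ` times the sum on the left. Cauchy-Schwarz for integrals and `2π`-periodicity of
`θ ↦ Sp f D b' X' δ θ` give the bound `(∫ ‖Sp b X‖^2)^(1/2) (∫ ‖Sp b' X'‖^2)^(1/2) ≤ A`. -/
theorem arc_bound (f : ℕ → ℂ) (D : ℕ) (b b' : G) (X X' δ A : ℝ) (hδ : 0 < δ) (l : ℕ) (hl : ((l : ℝ) + 1) * δ < Real.pi)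
    (h1 : ∫ θ in (0 : ℝ)..(2 * Real.pi), ‖Sp f D b X δ θ‖ ^ 2 ≤ A)
    (h2 : ∫ θ in (0 : ℝ)..(2 * Real.pi), ‖Sp f D b' X' δ θ‖ ^ 2 ≤ A) :
    ‖∑ V ∈ (PV X).filter (fun V => cg D V b), ∑ V' ∈ (PV X').filter (fun V' => cg D V' b'),
      f (nm V) * (starRingEnd ℂ) (f (nm V')) * ((max 0 (1 - |ang V V' / δ - l|) : ℝ) : ℂ)‖ ≤ A / δ := by
  have hpi := Real.pi_pos
  set F1 := (PV X).filter (fun V => cg D V b) with hF1
  set F2 := (PV X').filter (fun V' => cg D V' b') with hF2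
  set S1 : ℝ → ℂ := fun θ => Sp f D b X δ θ with hS1
  set S2 : ℝ → ℂ := fun θ => Sp f D b' X' δ (θ + l * δ) with hS2
  have hPV : ∀ {Y : ℝ} {z : G}, z ∈ PV Y → z ≠ 0 := by
    intro Y z hz h0
    have hP := (mem_PV.mp hz).2
    rw [h0] at hP
    unfold Prim at hP
    obtain ⟨u, v, huv⟩ := hP
    simp at huv
  have e1 : ∀ θ, S1 θ = ∑ V ∈ F1, f (nm V) * ((arciI δ V θ : ℝ) : ℂ) := fun θ => arci_Sp f D b X δ θ
  have e2 : ∀ θ, S2 θ = ∑ V' ∈ F2, f (nm V') * ((arciI δ V' (θ + l * δ) : ℝ) : ℂ) :=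
    fun θ => arci_Sp f D b' X' δ (θ + l * δ)
  have m1 : Measurable S1 := by
    have : S1 = fun θ => ∑ V ∈ F1, f (nm V) * ((arciI δ V θ : ℝ) : ℂ) := funext e1
    rw [this]
    refine Finset.measurable_sum _ (fun V _ => ?_)
    exact (Complex.measurable_ofReal.comp (arciI_meas δ V)).const_mul _
  have m2 : Measurable S2 := by
    have : S2 = fun θ => ∑ V' ∈ F2, f (nm V') * ((arciI δ V' (θ + l * δ) : ℝ) : ℂ) := funext e2
    rw [this]
    refine Finset.measurable_sum _ (fun V _ => ?_)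
    exact (Complex.measurable_ofReal.comp ((arciI_meas δ V).comp (measurable_id.add_const _))).const_mul _
  have b1 : ∀ θ, ‖S1 θ‖ ≤ ∑ V ∈ F1, ‖f (nm V)‖ := by
    intro θ
    rw [e1]
    refine norm_sum_le_of_le _ (fun V _ => ?_)
    rw [norm_mul, Complex.norm_real, Real.norm_eq_abs, abs_of_nonneg (arciI_nonneg _ _ _)]
    exact mul_le_of_le_one_right (norm_nonneg _) (arciI_le _ _ _)
  have b2 : ∀ θ, ‖S2 θ‖ ≤ ∑ V' ∈ F2, ‖f (nm V')‖ := by
    intro θ
    rw [e2]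
    refine norm_sum_le_of_le _ (fun V _ => ?_)
    rw [norm_mul, Complex.norm_real, Real.norm_eq_abs, abs_of_nonneg (arciI_nonneg _ _ _)]
    exact mul_le_of_le_one_right (norm_nonneg _) (arciI_le _ _ _)
  have hint : ∀ (S : ℝ → ℂ) (B : ℝ), Measurable S → (∀ θ, ‖S θ‖ ≤ B) → ∀ x y : ℝ,
      IntervalIntegrable (fun θ => ‖S θ‖ ^ 2) volume x y := by
    intro S B hS hB x y
    refine (intervalIntegrable_const (c := (B ^ 2 : ℝ))).mono_fun
      ((hS.norm.pow_const 2).aestronglyMeasurable) (Filter.Eventually.of_forall (fun θ => ?_))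
    change |‖S θ‖ ^ 2| ≤ |B ^ 2|
    rw [abs_of_nonneg (by positivity), abs_of_nonneg (by positivity)]
    exact pow_le_pow_left₀ (norm_nonneg _) (hB θ) 2
  have hi1 := hint S1 _ m1 b1 0 (2 * Real.pi)
  have hi2 := hint S2 _ m2 b2 0 (2 * Real.pi)
  -- the second integral
  have hper : Function.Periodic (fun θ => ‖Sp f D b' X' δ θ‖ ^ 2) (2 * Real.pi) := by
    intro θ
    simp only
    have : Sp f D b' X' δ (θ + 2 * Real.pi) = Sp f D b' X' δ θ := by
      rw [arci_Sp f D b' X' δ (θ + 2 * Real.pi), arci_Sp f D b' X' δ θ]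
      refine Finset.sum_congr rfl (fun V _ => ?_)
      rw [arciI_per]
    rw [this]
  have h2' : ∫ θ in (0 : ℝ)..(2 * Real.pi), ‖S2 θ‖ ^ 2 ≤ A := by
    have k1 : ∫ θ in (0 : ℝ)..(2 * Real.pi), ‖S2 θ‖ ^ 2 =
        ∫ θ in (0 + l * δ)..(2 * Real.pi + l * δ), ‖Sp f D b' X' δ θ‖ ^ 2 := by
      rw [← intervalIntegral.integral_comp_add_right (fun θ => ‖Sp f D b' X' δ θ‖ ^ 2)]
    rw [k1]
    have k2 := hper.intervalIntegral_add_eq 0 (0 + l * δ)
    rw [zero_add] at k2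
    have k3 : (2 : ℝ) * Real.pi + l * δ = 0 + l * δ + 2 * Real.pi := by ring
    rw [k3, ← k2]
    exact h2
  -- the main identity
  have hmain : ∫ θ in (0 : ℝ)..(2 * Real.pi), S1 θ * (starRingEnd ℂ) (S2 θ) =
      (δ : ℂ) * ∑ V ∈ F1, ∑ V' ∈ F2, f (nm V) * (starRingEnd ℂ) (f (nm V')) *
        ((max 0 (1 - |ang V V' / δ - l|) : ℝ) : ℂ) := by
    have k1 : ∀ θ : ℝ, S1 θ * (starRingEnd ℂ) (S2 θ) = ∑ p ∈ F1 ×ˢ F2,
        (f (nm p.1) * (starRingEnd ℂ) (f (nm p.2))) *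
          ((arciI δ p.1 (θ + 0) * arciI δ p.2 (θ + l * δ) : ℝ) : ℂ) := by
      intro θ
      rw [e1, e2, map_sum, Finset.sum_mul_sum, Finset.sum_product]
      refine Finset.sum_congr rfl (fun V _ => Finset.sum_congr rfl (fun V' _ => ?_))
      rw [map_mul, Complex.conj_ofReal, add_zero]
      push_cast
      ring
    have k2 : ∀ p ∈ F1 ×ˢ F2, IntervalIntegrable (fun θ => (f (nm p.1) * (starRingEnd ℂ) (f (nm p.2))) *
          ((arciI δ p.1 (θ + 0) * arciI δ p.2 (θ + l * δ) : ℝ) : ℂ)) volume 0 (2 * Real.pi) := by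
      intro p _
      have k5 := arciI_ii2 δ p.1 p.2 0 (l * δ) 0 (2 * Real.pi)
      have k6 : IntervalIntegrable (fun θ => ((arciI δ p.1 (θ + 0) * arciI δ p.2 (θ + l * δ) : ℝ) : ℂ)) volume
        0 (2 * Real.pi) := ⟨k5.1.ofReal, k5.2.ofReal⟩
      exact k6.const_mul _
    simp only [k1]
    rw [intervalIntegral.integral_finsetSum k2]
    rw [← Finset.sum_product', Finset.mul_sum]
    refine Finset.sum_congr rfl (fun p hp => ?_)
    obtain ⟨V, V'⟩ := p
    obtain ⟨hV, hV'⟩ := Finset.mem_product.mp hp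
    simp only at hV hV' ⊢
    rw [intervalIntegral.integral_const_mul, intervalIntegral.integral_ofReal]
    have k3 := arc_overlap V V' (hPV (mem_filter.mp hV).1) (hPV (mem_filter.mp hV').1) δ hδ l hl
    have k4 : ∫ θ in (0 : ℝ)..(2 * Real.pi), arciI δ V (θ + 0) * arciI δ V' (θ + l * δ) =
        δ * max 0 (1 - |ang V V' / δ - l|) := by
      rw [← k3]
      refine intervalIntegral.integral_congr (fun θ _ => ?_)
      simp only [add_zero]
      rfl
    rw [k4]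
    push_cast
    ring
  set T := ∑ V ∈ F1, ∑ V' ∈ F2, f (nm V) * (starRingEnd ℂ) (f (nm V')) *
        ((max 0 (1 - |ang V V' / δ - l|) : ℝ) : ℂ) with hT
  have hb : ‖∫ θ in (0 : ℝ)..(2 * Real.pi), S1 θ * (starRingEnd ℂ) (S2 θ)‖ ≤ A := by
    calc ‖∫ θ in (0 : ℝ)..(2 * Real.pi), S1 θ * (starRingEnd ℂ) (S2 θ)‖
        ≤ ∫ θ in (0 : ℝ)..(2 * Real.pi), ((1 / 2 : ℝ) * ‖S1 θ‖ ^ 2 + (1 / 2 : ℝ) * ‖S2 θ‖ ^ 2) := by
          refine intervalIntegral.norm_integral_le_of_norm_le (by positivity) ?_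
            ((hi1.const_mul _).add (hi2.const_mul _))
          refine Filter.Eventually.of_forall (fun θ _ => ?_)
          rw [norm_mul, RCLike.norm_conj]
          nlinarith [sq_nonneg (‖S1 θ‖ - ‖S2 θ‖)]
      _ = (1 / 2 : ℝ) * (∫ θ in (0 : ℝ)..(2 * Real.pi), ‖S1 θ‖ ^ 2) +
          (1 / 2 : ℝ) * (∫ θ in (0 : ℝ)..(2 * Real.pi), ‖S2 θ‖ ^ 2) := by
          rw [intervalIntegral.integral_add (hi1.const_mul _) (hi2.const_mul _),
            intervalIntegral.integral_const_mul, intervalIntegral.integral_const_mul]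
      _ ≤ A := by linarith
  rw [hmain, norm_mul, Complex.norm_real, Real.norm_eq_abs, abs_of_pos hδ] at hb
  rw [le_div_iff₀ hδ]
  linarith

end Pool.Agent.OmEq

end

/-! ### from `Lib_MP_f1a94e_eq.CntA` -/

section

/-!
# Piece CNTA: pairs with a small angle
-/

set_option autoImplicit false

namespace Pool.Agent.OmEq

open Finset Pool.Agent.GaussMR Pool.Agent.OmAll MeasureTheory Filter

/-- the facts about one pair -/
theorem cnta_pair {c0 C0 δ Y : ℝ} (hc0 : 0 < c0) (hY : 0 < Y) (hδ0 : 0 ≤ δ) (hδ1 : δ ≤ 1)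
    {e : G × G} (h1 : (nm e.1 : ℝ) ≤ C0 * Y) (h2 : (nm e.2 : ℝ) ≤ C0 * Y)
    (h3 : c0 * Y ≤ nm e.1) (h4 : c0 * Y ≤ nm e.2) (h5 : |ang e.1 e.2| ≤ δ) :
    0 < dot e.1 e.2 ∧ mE e ≤ C0 * Y ∧ |((det e.1 e.2 : ℤ) : ℝ)| ≤ C0 * Y * δ ∧
      |tE e| ≤ Real.log (C0 / c0) := by
  obtain ⟨V, V'⟩ := e
  simp only at h1 h2 h3 h4 h5 ⊢
  have hcY : 0 < c0 * Y := mul_pos hc0 hY
  have hn1 : (0 : ℝ) < nm V := lt_of_lt_of_le hcY h3
  have hn2 : (0 : ℝ) < nm V' := lt_of_lt_of_le hcY h4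
  have hCY : 0 < C0 * Y := lt_of_lt_of_le hn1 h1
  obtain ⟨w, hw⟩ : ∃ w : ℂ, w = ((star V * V' : G) : ℂ) := ⟨_, rfl⟩
  have hre : w.re = ((dot V V' : ℤ) : ℝ) := by
    rw [hw, star_mul_eq, ← GaussianInt.intCast_re]
  have him : w.im = ((det V V' : ℤ) : ℝ) := by
    rw [hw, star_mul_eq, ← GaussianInt.intCast_im]
  have hns : ‖w‖ ^ 2 = (nm V : ℝ) * nm V' := by
    rw [hw, norm_sq_eq, nm_mul, nm_star]
    push_cast
    rfl
  have hnle : ‖w‖ ≤ C0 * Y := by
    have : ‖w‖ ^ 2 ≤ (C0 * Y) ^ 2 := by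
      rw [hns, sq]
      exact mul_le_mul h1 h2 hn2.le hCY.le
    exact le_of_sq_le_sq this hCY.le
  have hnpos : 0 < ‖w‖ := by
    have h6 : 0 < ‖w‖ ^ 2 := by rw [hns]; positivity
    have h7 : ‖w‖ ≠ 0 := by
      intro h8
      rw [h8] at h6
      norm_num at h6
    exact lt_of_le_of_ne (norm_nonneg _) (Ne.symm h7)
  have hang : |Complex.arg w| ≤ δ := by
    rw [hw]
    exact h5
  have hcos : 0 < Real.cos (Complex.arg w) := by
    apply Real.cos_pos_of_mem_Ioo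
    have := Real.pi_gt_three
    rw [abs_le] at hang
    constructor <;> linarith
  have hdot : 0 < ((dot V V' : ℤ) : ℝ) := by
    rw [← hre, ← Complex.norm_mul_cos_arg]
    exact mul_pos hnpos hcos
  refine ⟨by exact_mod_cast hdot, ?_, ?_, ?_⟩
  · unfold mE
    simp only
    rw [← hre]
    exact (Complex.re_le_norm w).trans hnle
  · rw [← him, ← Complex.norm_mul_sin_arg, abs_mul, abs_norm]
    have h6 : |Real.sin (Complex.arg w)| ≤ δ := (Real.abs_sin_le_abs).trans hang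
    exact mul_le_mul hnle h6 (abs_nonneg _) hCY.le
  · unfold tE
    simp only
    have hC0 : 0 < C0 := by
      by_contra h
      rw [not_lt] at h
      have := mul_nonpos_of_nonpos_of_nonneg h hY.le
      linarith
    have e1 : Real.log (C0 / c0) = Real.log (C0 * Y) - Real.log (c0 * Y) := by
      rw [Real.log_mul hC0.ne' hY.ne', Real.log_mul hc0.ne' hY.ne', Real.log_div hC0.ne' hc0.ne']
      ring
    have a1 := Real.log_le_log hcY h3
    have a2 := Real.log_le_log hcY h4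
    have a3 := Real.log_le_log hn1 h1
    have a4 := Real.log_le_log hn2 h2
    rw [e1, abs_le]
    constructor <;> linarith

theorem cnta_swap {V V' : G} : mE (V', V) = mE (V, V') ∧ |tE (V', V)| = |tE (V, V')| := by
  constructor
  · unfold mE dot
    simp only
    congr 1
    ring
  · unfold tE
    simp only
    rw [abs_sub_comm]

open Classical in
/-- PROOF. `star V * V' = dot + i det` (`star_mul_eq`), so with `φ = ang V V'`: `dot = ρ cos φ`, `det = ρ sin φ`, `ρ = sqrt (nm V nm V') ≤ C0 Y`. For large `Y`, `|φ| ≤ B N / Y < π/2`, so `dot > 0`, `|det| ≤ C0 B N`. For `det = n > 0`: `(V, V') ∈ EN n (C0 Y)` (`En_iff`) with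
`|tE| ≤ log (C0/c0)`; for `det = - n < 0` the same for `(V', V)`; for `det = 0`, `V' = V` (`eq_of_det_zero`), at most `9 C0 Y` pairs (`ball_sub`). By `cnt` the total is `≤ 2 C0 B N * C C0 Y + 9 C0 Y` (`n ≤ C0 B N ≤ C0 Y`). -/
theorem cntA (c0 C0 B : ℝ) (hc0 : 0 < c0) (hC0 : c0 ≤ C0) (hB : 0 < B) : ∃ C : ℝ, 0 < C ∧ ∀ N : ℕ, 1 ≤ N →
    ∀ᶠ Y : ℝ in atTop, (((PV (C0 * Y) ×ˢ PV (C0 * Y)).filter (fun e : G × G => c0 * Y ≤ nm e.1 ∧ c0 * Y ≤ nm e.2 ∧
      |ang e.1 e.2| ≤ B * N / Y)).card : ℝ) ≤ C * N * Y := by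
  obtain ⟨C1, hC1, hcnt⟩ := cnt (Real.log (C0 / c0))
  have hC0' : 0 < C0 := lt_of_lt_of_le hc0 hC0
  refine ⟨2 * (C0 * B * (C1 * C0)) + 9 * C0, by positivity, fun N hN => ?_⟩
  have hN' : (1 : ℝ) ≤ N := by exact_mod_cast hN
  filter_upwards [eventually_ge_atTop (B * N + 1)] with Y hY
  have hBN : 0 < B * N := by positivity
  have hY0 : 0 < Y := by linarith
  have hδ1 : B * N / Y ≤ 1 := by
    rw [div_le_one hY0]
    linarith
  have hδ0 : 0 ≤ B * N / Y := by positivity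
  obtain ⟨S, hS1, hS2, hS3⟩ := TailP.ball_sub (C0 * Y) (by positivity)
  set M : ℕ := ⌊C0 * B * N⌋₊ with hM
  have hMle : (M : ℝ) ≤ C0 * B * N := Nat.floor_le (by positivity)
  set F : ℕ → Finset (G × G) := fun n => (EN n (C0 * Y)).filter (fun e => |tE e| ≤ Real.log (C0 / c0))
    with hF
  have hFc : ∀ n ∈ Icc 1 M, ((F n).card : ℝ) ≤ C1 * (C0 * Y) := by
    intro n hn
    rw [mem_Icc] at hn
    apply hcnt n (by omega)
    have h1 : (n : ℝ) ≤ M := by exact_mod_cast hn.2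
    have h2 : C0 * B * N ≤ C0 * Y := by
      rw [mul_assoc]
      exact mul_le_mul_of_nonneg_left (by linarith) hC0'.le
    linarith
  have hsub : (PV (C0 * Y) ×ˢ PV (C0 * Y)).filter (fun e : G × G => c0 * Y ≤ nm e.1 ∧
      c0 * Y ≤ nm e.2 ∧ |ang e.1 e.2| ≤ B * N / Y) ⊆
      ((Icc 1 M).biUnion F ∪ (Icc 1 M).biUnion (fun n => (F n).image Prod.swap)) ∪
        S.image (fun V => (V, V)) := by
    rintro ⟨V, V'⟩ he
    rw [mem_filter, mem_product, mem_PV, mem_PV] at he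
    obtain ⟨⟨⟨h1, hp1⟩, ⟨h2, hp2⟩⟩, h3, h4, h5⟩ := he
    simp only at h1 hp1 h2 hp2 h3 h4 h5
    obtain ⟨hd, hm, hdet, ht⟩ := cnta_pair (e := (V, V')) hc0 hY0 hδ0 hδ1 h1 h2 h3 h4 h5
    simp only at hd hdet
    have hdet' : |((det V V' : ℤ) : ℝ)| ≤ C0 * B * N := by
      refine hdet.trans (le_of_eq ?_)
      field_simp
    have hnat : ∀ k : ℤ, 0 < k → ((k : ℤ) : ℝ) ≤ C0 * B * N → k.toNat ∈ Icc 1 M := by
      intro k hk hk2
      rw [mem_Icc]
      refine ⟨by omega, ?_⟩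
      rw [hM]
      apply Nat.le_floor
      have : ((k.toNat : ℕ) : ℝ) = ((k : ℤ) : ℝ) := by
        have := Int.toNat_of_nonneg hk.le
        exact_mod_cast this
      rw [this]
      exact hk2
    rw [mem_union, mem_union]
    rcases lt_trichotomy (det V V') 0 with h | h | h
    · left; right
      rw [mem_biUnion]
      have hk : 0 < det V' V := by rw [det_comm]; omega
      refine ⟨(det V' V).toNat, hnat _ hk ?_, ?_⟩
      · rw [det_comm]
        push_cast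
        exact (neg_le_abs _).trans hdet'
      · rw [mem_image]
        refine ⟨(V', V), ?_, rfl⟩
        rw [hF, mem_filter, mem_EN (by omega), En_iff (by omega)]
        refine ⟨⟨⟨?_, ?_, hp2, hp1⟩, ?_⟩, ?_⟩
        · simp only
          rw [Int.toNat_of_nonneg hk.le]
        · have : dot V' V = dot V V' := by unfold dot; ring
          simp only
          rw [this]
          exact hd
        · rw [cnta_swap.1]
          exact hm
        · rw [cnta_swap.2]
          exact ht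
    · right
      rw [mem_image]
      have hVV := eq_of_det_zero hp1 hp2 h hd
      refine ⟨V, hS1 V ?_ h1, by rw [hVV]⟩
      intro h0
      rw [h0, nm_zero] at h3
      have : 0 < c0 * Y := mul_pos hc0 hY0
      push_cast at h3
      linarith
    · left; left
      rw [mem_biUnion]
      refine ⟨(det V V').toNat, hnat _ h ((le_abs_self _).trans hdet'), ?_⟩
      rw [hF, mem_filter, mem_EN (by omega), En_iff (by omega)]
      refine ⟨⟨⟨?_, hd, hp1, hp2⟩, hm⟩, ht⟩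
      simp only
      rw [Int.toNat_of_nonneg h.le]
  have hcard : (((PV (C0 * Y) ×ˢ PV (C0 * Y)).filter (fun e : G × G => c0 * Y ≤ nm e.1 ∧
      c0 * Y ≤ nm e.2 ∧ |ang e.1 e.2| ≤ B * N / Y)).card : ℝ) ≤
      ∑ n ∈ Icc 1 M, ((F n).card : ℝ) + ∑ n ∈ Icc 1 M, ((F n).card : ℝ) + S.card := by
    have h1 := (card_le_card hsub).trans ((card_union_le _ _).trans
      (Nat.add_le_add (card_union_le _ _) card_image_le))
    have h2 : ((Icc 1 M).biUnion F).card ≤ ∑ n ∈ Icc 1 M, (F n).card := card_biUnion_le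
    have h3 : ((Icc 1 M).biUnion (fun n => (F n).image Prod.swap)).card ≤
        ∑ n ∈ Icc 1 M, (F n).card :=
      card_biUnion_le.trans (sum_le_sum fun n _ => card_image_le)
    have h4 := h1.trans (Nat.add_le_add (Nat.add_le_add h2 h3) le_rfl)
    exact_mod_cast h4
  have hsum : ∑ n ∈ Icc 1 M, ((F n).card : ℝ) ≤ C0 * B * N * (C1 * (C0 * Y)) := by
    calc ∑ n ∈ Icc 1 M, ((F n).card : ℝ) ≤ ∑ _n ∈ Icc 1 M, C1 * (C0 * Y) := sum_le_sum hFc
      _ = M * (C1 * (C0 * Y)) := by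
          rw [sum_const, Nat.card_Icc, nsmul_eq_mul, Nat.add_sub_cancel]
      _ ≤ C0 * B * N * (C1 * (C0 * Y)) := mul_le_mul_of_nonneg_right hMle (by positivity)
  have h9 : 9 * (C0 * Y) ≤ 9 * C0 * N * Y := by
    have : 9 * C0 * Y * 1 ≤ 9 * C0 * Y * N := mul_le_mul_of_nonneg_left hN' (by positivity)
    linarith
  calc _ ≤ _ := hcard
    _ ≤ C0 * B * N * (C1 * (C0 * Y)) + C0 * B * N * (C1 * (C0 * Y)) + 9 * C0 * N * Y := by
        linarith
    _ = _ := by ring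

end Pool.Agent.OmEq

end

/-! ### from `Lib_MP_f1a94e_eq.MrpO` -/

section

/-!
# Piece MRPO: from odd numbers to all primitive numbers, coprime to `R`
-/

set_option autoImplicit false

namespace Pool.Agent.OmEq

open Finset Pool.Agent.GaussMR Pool.Agent.OmAll MeasureTheory Filter

/-- representatives modulo `M` -/
noncomputable def mrpoR (M : ℕ) : Finset G :=
  (Finset.range M ×ˢ Finset.range M).image (fun p : ℕ × ℕ => (⟨(p.1 : ℤ), (p.2 : ℤ)⟩ : G))

theorem mrpo_mem {M : ℕ} {z : G} (hz : z ∈ mrpoR M) : (0 ≤ z.re ∧ z.re < M) ∧ (0 ≤ z.im ∧ z.im < M) := by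
  unfold mrpoR at hz
  rw [mem_image] at hz
  obtain ⟨p, hp, rfl⟩ := hz
  rw [mem_product, mem_range, mem_range] at hp
  refine ⟨⟨Int.natCast_nonneg _, ?_⟩, ⟨Int.natCast_nonneg _, ?_⟩⟩
  · show (p.1 : ℤ) < M
    exact_mod_cast hp.1
  · show (p.2 : ℤ) < M
    exact_mod_cast hp.2

theorem mrpo_rd {M : ℕ} (hM : 0 < M) (z : G) : rd M z ∈ mrpoR M := by
  have hM' : (0 : ℤ) < M := by exact_mod_cast hM
  have a1 := Int.emod_nonneg z.re hM'.ne'
  have a2 := Int.emod_lt_of_pos z.re hM'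
  have b1 := Int.emod_nonneg z.im hM'.ne'
  have b2 := Int.emod_lt_of_pos z.im hM'
  unfold mrpoR
  rw [mem_image]
  refine ⟨((z.re % M).toNat, (z.im % M).toNat), ?_, ?_⟩
  · rw [mem_product, mem_range, mem_range]
    dsimp only
    constructor <;> omega
  · dsimp only
    rw [Int.toNat_of_nonneg a1, Int.toNat_of_nonneg b1]
    rfl

theorem mrpo_card (M : ℕ) : (mrpoR M).card ≤ M * M := by
  unfold mrpoR
  refine card_image_le.trans ?_
  rw [card_product, card_range]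

open Classical in
/-- splitting a periodic condition into classes -/
theorem mrpo_split {M : ℕ} (hM : 0 < M) (S : Finset G) (P : G → Prop) [DecidablePred P]
    (hP : ∀ z w : G, cg M z w → P z → P w) (g : G → ℂ) :
    ∑ z ∈ S.filter P, g z = ∑ b ∈ (mrpoR M).filter P, ∑ z ∈ S.filter (fun z => cg M z b), g z := by
  rw [← sum_fiberwise_of_maps_to (s := S.filter P) (t := (mrpoR M).filter P) (g := rd M)]
  · apply sum_congr rfl
    intro b hb
    rw [mem_filter] at hb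
    apply sum_congr _ (fun _ _ => rfl)
    ext z
    simp only [mem_filter]
    constructor
    · rintro ⟨⟨h1, -⟩, h3⟩
      refine ⟨h1, ?_⟩
      rw [← h3]
      exact cg_symm (rd_cg M z)
    · rintro ⟨h1, h2⟩
      have h3 := mrpo_mem hb.1
      exact ⟨⟨h1, hP _ _ (cg_symm h2) hb.2⟩, rd_eq_of_cg h2 h3.1 h3.2⟩
  · intro z hz
    rw [mem_filter] at hz ⊢
    exact ⟨mrpo_rd hM z, hP _ _ (cg_symm (rd_cg M z)) hz.2⟩

theorem mrpo_cop {R : ℕ} {z w : G} (h : cg R z w) (hz : (nm z).Coprime R) : (nm w).Coprime R := by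
  have h1 := LocalBP.cg_nm h
  have h2 : nm w ≡ nm z [MOD R] := by
    rw [← Int.natCast_modEq_iff]
    exact Int.modEq_iff_dvd.2 h1
  unfold Nat.Coprime at *
  rw [h2.gcd_eq]
  exact hz

/-! ### arcs -/

theorem mrpo_arc_mul {u w : G} (hu : u ≠ 0) (hw : w ≠ 0) (θ δ : ℝ) :
    arcIn θ δ (u * w) ↔ arcIn (θ - Complex.arg (u : ℂ)) δ w := by
  have h1 : ((Complex.arg ((u * w : G) : ℂ) : ℝ) : Real.Angle) =
      ((Complex.arg (u : ℂ) + Complex.arg (w : ℂ) : ℝ) : Real.Angle) := by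
    rw [GaussianInt.toComplex_mul, Complex.arg_mul_coe_angle (toComplex_ne_zero hu) (toComplex_ne_zero hw)]
    rfl
  obtain ⟨j, hj⟩ := Real.Angle.angle_eq_iff_two_pi_dvd_sub.1 h1
  unfold arcIn
  constructor
  · rintro ⟨k, h2, h3⟩
    refine ⟨k + j, ?_, ?_⟩
    · push_cast
      linarith
    · push_cast
      linarith
  · rintro ⟨k, h2, h3⟩
    refine ⟨k - j, ?_, ?_⟩
    · push_cast
      linarith
    · push_cast
      linarith

theorem mrpo_arc_per (θ δ : ℝ) (z : G) : arcIn (θ + 2 * Real.pi) δ z ↔ arcIn θ δ z := by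
  unfold arcIn
  constructor
  · rintro ⟨k, h2, h3⟩
    refine ⟨k - 1, ?_, ?_⟩
    · push_cast
      linarith
    · push_cast
      linarith
  · rintro ⟨k, h2, h3⟩
    refine ⟨k + 1, ?_, ?_⟩
    · push_cast
      linarith
    · push_cast
      linarith

theorem mrpo_arc_meas (δ : ℝ) (z : G) : MeasurableSet {θ : ℝ | arcIn θ δ z} := by
  have h : {θ : ℝ | arcIn θ δ z} = ⋃ k : ℤ, Set.Ioc (Complex.arg (z : ℂ) + 2 * Real.pi * k - δ)
      (Complex.arg (z : ℂ) + 2 * Real.pi * k) := by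
    ext θ
    rw [Set.mem_iUnion]
    constructor
    · rintro ⟨k, h2, h3⟩
      exact ⟨k, by linarith, h2⟩
    · rintro ⟨k, h2, h3⟩
      exact ⟨k, h3, by linarith⟩
  rw [h]
  exact MeasurableSet.iUnion (fun k => measurableSet_Ioc)

open Classical in
theorem mrpo_So_eq (f : ℕ → ℂ) (D : ℕ) (b : G) (X δ θ : ℝ) :
    So f D b X δ θ = ∑ z ∈ (V X).filter (fun z => cg D z b), if arcIn θ δ z then f (nm z) else 0 := by
  unfold So
  rw [← sum_filter, filter_filter]

theorem mrpo_So_meas (f : ℕ → ℂ) (D : ℕ) (b : G) (X δ : ℝ) : Measurable (So f D b X δ) := by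
  classical
  have h : So f D b X δ = fun θ => ∑ z ∈ (V X).filter (fun z => cg D z b),
      if arcIn θ δ z then f (nm z) else 0 := by
    funext θ
    rw [mrpo_So_eq]
  rw [h]
  apply Finset.measurable_sum
  intro z _
  exact Measurable.ite (mrpo_arc_meas δ z) measurable_const measurable_const

theorem mrpo_So_bd (f : ℕ → ℂ) (D : ℕ) (b : G) (X δ θ : ℝ) : ‖So f D b X δ θ‖ ≤ ∑ z ∈ V X, ‖f (nm z)‖ := by
  classical
  rw [mrpo_So_eq]
  refine (norm_sum_le _ _).trans ?_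
  refine (sum_le_sum (g := fun z => ‖f (nm z)‖) ?_).trans
    (sum_le_sum_of_subset_of_nonneg (filter_subset _ _) (fun _ _ _ => norm_nonneg _))
  intro z _
  split_ifs
  · exact le_rfl
  · rw [norm_zero]
    exact norm_nonneg _

theorem mrpo_So_int (f : ℕ → ℂ) (D : ℕ) (b : G) (X δ s a c : ℝ) :
    IntervalIntegrable (fun θ => ‖So f D b X δ (θ - s)‖ ^ 2) volume a c := by
  have h1 : Measurable (fun θ => ‖So f D b X δ (θ - s)‖ ^ 2) :=
    (((mrpo_So_meas f D b X δ).comp (measurable_id.sub_const s)).norm).pow_const 2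
  refine (intervalIntegrable_const (c := (∑ z ∈ V X, ‖f (nm z)‖) ^ 2)).mono_fun h1.aestronglyMeasurable ?_
  refine Eventually.of_forall (fun θ => ?_)
  dsimp only
  rw [Real.norm_of_nonneg (by positivity), Real.norm_of_nonneg (by positivity)]
  exact pow_le_pow_left₀ (norm_nonneg _) (mrpo_So_bd f D b X δ _) 2

theorem mrpo_So_per (f : ℕ → ℂ) (D : ℕ) (b : G) (X δ θ : ℝ) :
    So f D b X δ (θ + 2 * Real.pi) = So f D b X δ θ := by
  classical
  rw [mrpo_So_eq, mrpo_So_eq]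
  apply sum_congr rfl
  intro z _
  simp only [mrpo_arc_per]

theorem mrpo_shift (f : ℕ → ℂ) (D : ℕ) (b : G) (X δ s : ℝ) :
    ∫ θ in (0 : ℝ)..(2 * Real.pi), ‖So f D b X δ (θ - s)‖ ^ 2 =
      ∫ θ in (0 : ℝ)..(2 * Real.pi), ‖So f D b X δ θ‖ ^ 2 := by
  have hp : Function.Periodic (fun θ => ‖So f D b X δ θ‖ ^ 2) (2 * Real.pi) := by
    intro θ
    dsimp only
    rw [mrpo_So_per]
  rw [intervalIntegral.integral_comp_sub_right (fun θ => ‖So f D b X δ θ‖ ^ 2) s]
  have h := hp.intervalIntegral_add_eq (0 - s) 0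
  rw [show (0 : ℝ) - s + 2 * Real.pi = 2 * Real.pi - s by ring, zero_add] at h
  exact h

/-! ### even primitive numbers -/

/-- `1 + i` -/
def mrpoU : G := ⟨1, 1⟩

/-- division by `1 + i` -/
def mrpoH (z : G) : G := ⟨(z.re + z.im) / 2, (z.im - z.re) / 2⟩

theorem mrpo_mul (w : G) : mrpoU * w = ⟨w.re - w.im, w.re + w.im⟩ := by
  unfold mrpoU
  apply Zsqrtd.ext
  · simp
    ring
  · simp
    ring

theorem mrpo_U_ne : mrpoU ≠ 0 := by
  intro h
  have h1 := congrArg Zsqrtd.re h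
  exact absurd h1 (by decide)

theorem mrpo_nmU : nm mrpoU = 2 := by
  have h : (nm mrpoU : ℤ) = 2 := by
    rw [nm_eq]
    rfl
  exact_mod_cast h

theorem mrpo_nm (w : G) : nm (mrpoU * w) = 2 * nm w := by
  rw [nm_mul, mrpo_nmU]

theorem mrpo_H_mul (w : G) : mrpoH (mrpoU * w) = w := by
  rw [mrpo_mul]
  unfold mrpoH
  apply Zsqrtd.ext
  · show (w.re - w.im + (w.re + w.im)) / 2 = w.re
    omega
  · show (w.re + w.im - (w.re - w.im)) / 2 = w.im
    omega

theorem mrpo_mul_H {z : G} (hz : Even (z.re + z.im)) : mrpoU * mrpoH z = z := by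
  obtain ⟨k, hk⟩ := hz
  rw [mrpo_mul]
  unfold mrpoH
  apply Zsqrtd.ext
  · show (z.re + z.im) / 2 - (z.im - z.re) / 2 = z.re
    omega
  · show (z.re + z.im) / 2 + (z.im - z.re) / 2 = z.im
    omega

theorem mrpo_prim_mul {w : G} (hw : Prim w) (ho : Odd (nm w)) : Prim (mrpoU * w) := by
  rw [odd_nm_iff] at ho
  rw [mrpo_mul]
  unfold Prim at *
  show IsCoprime (w.re - w.im) (w.re + w.im)
  obtain ⟨a, b, hab⟩ := hw
  obtain ⟨k, hk⟩ := ho
  -- 1 = (re+im) - 2 k, 2 = (a - b)(re - im) + (a + b) (re + im)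
  refine ⟨-k * (a - b), 1 - k * (a + b), ?_⟩
  linear_combination hk - 2 * k * hab

theorem mrpo_prim_H {z : G} (hz : Prim z) (he : Even (z.re + z.im)) : Prim (mrpoH z) ∧ Odd (nm (mrpoH z)) := by
  have h1 := mrpo_mul_H he
  set w := mrpoH z with hw
  rw [mrpo_mul] at h1
  have hre : w.re - w.im = z.re := congrArg Zsqrtd.re h1
  have him : w.re + w.im = z.im := congrArg Zsqrtd.im h1
  unfold Prim at hz ⊢
  obtain ⟨a, b, hab⟩ := hz
  refine ⟨⟨a + b, b - a, ?_⟩, ?_⟩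
  · rw [← hre, ← him] at hab
    linear_combination hab
  · rw [odd_nm_iff, him]
    by_contra hc
    rw [Int.not_odd_iff_even] at hc
    have hr : Even z.re := by
      have := he.sub hc
      rwa [add_sub_cancel_right] at this
    have h3 : Even (1 : ℤ) := by
      rw [← hab]
      exact (hr.mul_left a).add (hc.mul_left b)
    exact absurd h3 (by decide)

open Classical in
theorem mrpo_even (g : G → ℂ) (P : G → Prop) [DecidablePred P] [DecidablePred fun z : G => ¬ Odd (nm z)] (X : ℝ) :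
    ∑ z ∈ ((PV X).filter P).filter (fun z => ¬ Odd (nm z)), g z =
      ∑ w ∈ (V (X / 2)).filter (fun w => P (mrpoU * w)), g (mrpoU * w) := by
  have hev : ∀ z : G, ¬ Odd (nm z) → Even (z.re + z.im) := by
    intro z hz
    rw [odd_nm_iff, Int.not_odd_iff_even] at hz
    exact hz
  refine sum_nbij' mrpoH (fun w => mrpoU * w) ?_ ?_ ?_ ?_ ?_
  · intro z hz
    simp only [mem_filter] at hz ⊢
    obtain ⟨⟨h1, h2⟩, h3⟩ := hz
    rw [mem_PV] at h1
    have h4 := mrpo_mul_H (hev z h3)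
    have h5 := mrpo_prim_H h1.2 (hev z h3)
    rw [mem_V, h4]
    refine ⟨⟨?_, h5.2, h5.1⟩, h2⟩
    have h6 := mrpo_nm (mrpoH z)
    rw [h4] at h6
    have h7 : (nm z : ℝ) = 2 * nm (mrpoH z) := by exact_mod_cast h6
    linarith [h1.1]
  · intro w hw
    simp only [mem_filter] at hw ⊢
    obtain ⟨h1, h2⟩ := hw
    rw [mem_V] at h1
    refine ⟨⟨?_, h2⟩, ?_⟩
    · rw [mem_PV, mrpo_nm]
      refine ⟨?_, mrpo_prim_mul h1.2.2 h1.2.1⟩
      push_cast
      linarith [h1.1]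
    · rw [mrpo_nm, Nat.not_odd_iff_even]
      exact even_two_mul _
  · intro z hz
    simp only [mem_filter] at hz
    exact mrpo_mul_H (hev z hz.2)
  · intro w _
    exact mrpo_H_mul w
  · intro z hz
    simp only [mem_filter] at hz
    rw [mrpo_mul_H (hev z hz.2)]

theorem mrpo_fz (R : ℕ) {n : ℕ} (hn : n ≠ 0) (hc : n.Coprime R) :
    fz R (-1) n = (-1 : ℂ) ^ ArithmeticFunction.cardFactors n := by
  unfold fz
  rw [if_neg]
  rintro (h | h)
  · exact hn h
  · exact h hc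

theorem mrpo_fz0 (R : ℕ) {n : ℕ} (hc : ¬ n.Coprime R) : fz R (-1) n = 0 := by
  unfold fz
  rw [if_pos (Or.inr hc)]

open Classical in
/-- sums of `fz` over odd primitive numbers with a periodic condition, in classes -/
theorem mrpo_cls {M R : ℕ} (hM : 0 < M) (hR : R ∣ M) (Q : G → Prop) (hQ : ∀ z w : G, cg M z w → Q z → Q w)
    (X δ θ : ℝ) :
    ∑ z ∈ (V X).filter (fun z => Q z ∧ arcIn θ δ z), fz R (-1) (nm z) =
      ∑ b ∈ (mrpoR M).filter (fun z => Q z ∧ (nm z).Coprime R),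
        So (fun n => (-1 : ℂ) ^ ArithmeticFunction.cardFactors n) M b X δ θ := by
  have h1 : ∑ z ∈ (V X).filter (fun z => Q z ∧ arcIn θ δ z), fz R (-1) (nm z) =
      ∑ z ∈ ((V X).filter (fun z => arcIn θ δ z)).filter (fun z => Q z ∧ (nm z).Coprime R),
        (-1 : ℂ) ^ ArithmeticFunction.cardFactors (nm z) := by
    rw [filter_filter, sum_filter, sum_filter]
    apply sum_congr rfl
    intro z hz
    rw [mem_V] at hz
    by_cases ha : arcIn θ δ z
    · by_cases hq : Q z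
      · by_cases hc : (nm z).Coprime R
        · rw [if_pos ⟨hq, ha⟩, if_pos ⟨ha, hq, hc⟩, mrpo_fz R (nm_pos_of_odd hz.2.1).ne' hc]
        · rw [if_pos ⟨hq, ha⟩, if_neg (fun h => hc h.2.2), mrpo_fz0 R hc]
      · rw [if_neg (fun h => hq h.1), if_neg (fun h => hq h.2.1)]
    · rw [if_neg (fun h => ha h.2), if_neg (fun h => ha h.1)]
  rw [h1, mrpo_split hM _ (fun z => Q z ∧ (nm z).Coprime R)
    (fun z w h h2 => ⟨hQ z w h h2.1, mrpo_cop (cg_mono hR h) h2.2⟩)]
  apply sum_congr rfl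
  intro b _
  unfold So
  apply sum_congr _ (fun _ _ => rfl)
  ext z
  simp only [mem_filter]
  constructor
  · rintro ⟨⟨h2, h3⟩, h4⟩
    exact ⟨h2, h4, h3⟩
  · rintro ⟨h2, h3, h4⟩
    exact ⟨⟨h2, h4⟩, h3⟩

open Classical in
theorem mrpo_dec {D R : ℕ} (hD : 0 < D) (hR : 0 < R) (b : G) (X δ θ : ℝ) :
    Sp (fz R (-1)) D b X δ θ =
      (∑ b1 ∈ (mrpoR (D * R)).filter (fun z => cg D z b ∧ (nm z).Coprime R),
        So (fun n => (-1 : ℂ) ^ ArithmeticFunction.cardFactors n) (D * R) b1 X δ θ) +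
      fz R (-1) 2 * ∑ b1 ∈ (mrpoR (D * R)).filter (fun z => cg D (mrpoU * z) b ∧ (nm z).Coprime R),
        So (fun n => (-1 : ℂ) ^ ArithmeticFunction.cardFactors n) (D * R) b1 (X / 2) δ
          (θ - Complex.arg (mrpoU : ℂ)) := by
  have hM : 0 < D * R := Nat.mul_pos hD hR
  rw [← mrpo_cls hM (dvd_mul_left R D) (fun z => cg D z b)
    (fun z w h h2 => cg_trans (cg_symm (cg_mono (dvd_mul_right D R) h)) h2),
    ← mrpo_cls hM (dvd_mul_left R D) (fun z => cg D (mrpoU * z) b) ?_]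
  · unfold Sp
    rw [← sum_filter_add_sum_filter_not _ (fun z => Odd (nm z)), mrpo_even]
    congr 1
    · apply sum_congr _ (fun _ _ => rfl)
      ext z
      simp only [mem_filter, mem_PV, mem_V]
      constructor
      · rintro ⟨⟨⟨h1, h2⟩, h3⟩, h4⟩
        exact ⟨⟨h1, h4, h2⟩, h3⟩
      · rintro ⟨⟨h1, h4, h2⟩, h3⟩
        exact ⟨⟨⟨h1, h2⟩, h3⟩, h4⟩
    · rw [mul_sum]
      have hz : ‖(-1 : ℂ)‖ = 1 := by simp
      have hset : (V (X / 2)).filter (fun w => cg D (mrpoU * w) b ∧ arcIn θ δ (mrpoU * w)) =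
          (V (X / 2)).filter (fun w => cg D (mrpoU * w) b ∧ arcIn (θ - Complex.arg (mrpoU : ℂ)) δ w) := by
        apply filter_congr
        intro w hw
        rw [mem_V] at hw
        rw [mrpo_arc_mul mrpo_U_ne (ne_zero_of_odd hw.2.1)]
      rw [hset]
      apply sum_congr rfl
      intro w _
      rw [mrpo_nm, (fz_FF R hR (-1) hz).mul]
  · intro z w h h2
    refine cg_trans ?_ h2
    have h3 := cg_mono (dvd_mul_right D R) h
    obtain ⟨⟨x, hx⟩, ⟨y, hy⟩⟩ := h3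
    rw [mrpo_mul, mrpo_mul]
    refine ⟨⟨y - x, ?_⟩, ⟨-x - y, ?_⟩⟩
    · show w.re - w.im - (z.re - z.im) = _
      linear_combination hy - hx
    · show w.re + w.im - (z.re + z.im) = _
      linear_combination - hy - hx

/-- PROOF. `f = fz R (-1)`, `L n = (-1)^Ω(n)`. A primitive `z` is odd or `z = (1 + i) w` with `w` odd primitive, `nm z = 2 nm w` (`(1+i)^2 = 2 i` and `z` is not divisible by 2), and `(1+i) w` is primitive for `w` odd primitive. `arg ((1+i) w) = arg w + π/4` modulo `2π`. So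
`Sp f D b X δ θ = ∑_(b1) So L (D R) b1 X δ θ + c ∑_(b2) So L (D R) b2 (X/2) δ (θ - π/4)`, `b1` over the representatives modulo `D R` with `b1 = b mod D` and `(nm b1, R) = 1`, `b2` over those with `(1+i) b2 = b mod D` and `(nm b2, R) = 1`, `c = f 2` (`f (2 m) = f 2 * f m`; `‖c‖ ≤ 1`): `cg`, `nm` are
compatible with congruences, `f (nm z) = L (nm z)` if `(nm z, R) = 1` and `0` otherwise. With `m = 2 (D R)^2` terms, `‖∑‖^2 ≤ m ∑ ‖.‖^2`, the integral over a period of the shifted function is the same (`So` is `2π`-periodic in `θ`), and `H / X = (H/2) / (X/2)`: apply `hL` with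
`ε' = ε / m^2` to all classes, `H0` twice the maximum. -/
theorem mrp_of_mro (hL : MRO (fun n => (-1 : ℂ) ^ ArithmeticFunction.cardFactors n)) (R : ℕ) (hR : 0 < R) :
    MRP (fz R (-1)) := by
  classical
  intro D hD b ε hε
  set L : ℕ → ℂ := fun n => (-1 : ℂ) ^ ArithmeticFunction.cardFactors n with hLd
  set M : ℕ := D * R with hMd
  have hM : 0 < M := Nat.mul_pos hD hR
  have hM' : (0 : ℝ) < M := by exact_mod_cast hM
  set K : ℝ := (M : ℝ) * M with hK
  have hK0 : 0 < K := by positivity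
  set ε' : ℝ := ε / (4 * K ^ 2) with hε'
  have hε'0 : 0 < ε' := by positivity
  have key : ∀ᶠ H : ℝ in atTop, ∀ b1 ∈ mrpoR M, ∀ᶠ X : ℝ in atTop,
      ∫ θ in (0 : ℝ)..(2 * Real.pi), ‖So L M b1 X (H / X) θ‖ ^ 2 ≤ ε' * H ^ 2 := by
    rw [eventually_all_finset]
    intro b1 _
    obtain ⟨H0, -, h⟩ := hL M hM b1 ε' hε'0
    filter_upwards [eventually_ge_atTop H0] with H hH
    obtain ⟨X0, hX0⟩ := h H hH
    filter_upwards [eventually_ge_atTop X0] with X hX
    exact hX0 X hX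
  have key2 : ∀ᶠ H : ℝ in atTop, ∀ b1 ∈ mrpoR M, ∀ᶠ X : ℝ in atTop,
      ∫ θ in (0 : ℝ)..(2 * Real.pi), ‖So L M b1 X (H / 2 / X) θ‖ ^ 2 ≤ ε' * (H / 2) ^ 2 :=
    (tendsto_id.atTop_div_const two_pos).eventually key
  obtain ⟨H0, hH0⟩ := eventually_atTop.1 (key.and key2)
  refine ⟨max H0 1, lt_max_of_lt_right one_pos, fun H hH => ?_⟩
  obtain ⟨k1, k2⟩ := hH0 H ((le_max_left _ _).trans hH)
  have k1' := (eventually_all_finset _).2 k1
  have k2' := (tendsto_id.atTop_div_const (two_pos (α := ℝ))).eventually ((eventually_all_finset _).2 k2)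
  obtain ⟨X0, hX0⟩ := eventually_atTop.1 ((k1'.and k2').and (eventually_gt_atTop 0))
  refine ⟨X0, fun X hX => ?_⟩
  obtain ⟨⟨q1, q2⟩, hX1⟩ := hX0 X hX
  have hHX : H / 2 / (X / 2) = H / X := by
    field_simp
  simp only [id_eq, hHX] at q2
  set δ := H / X with hδ
  set s := Complex.arg (mrpoU : ℂ) with hs
  set T1 := (mrpoR M).filter (fun z => cg D z b ∧ (nm z).Coprime R) with hT1
  set T2 := (mrpoR M).filter (fun z => cg D (mrpoU * z) b ∧ (nm z).Coprime R) with hT2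
  have hc2 : ‖fz R (-1) 2‖ ≤ 1 := (fz_FF R hR (-1) (by simp)).bd 2
  have hcard1 : (T1.card : ℝ) ≤ K := by
    have h1 : T1.card ≤ M * M := (card_le_card (filter_subset _ _)).trans (mrpo_card M)
    rw [hK]
    exact_mod_cast h1
  have hcard2 : (T2.card : ℝ) ≤ K := by
    have h1 : T2.card ≤ M * M := (card_le_card (filter_subset _ _)).trans (mrpo_card M)
    rw [hK]
    exact_mod_cast h1
  -- pointwise bound
  have hpt : ∀ θ : ℝ, ‖Sp (fz R (-1)) D b X δ θ‖ ^ 2 ≤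
      2 * K * (∑ b1 ∈ T1, ‖So L M b1 X δ θ‖ ^ 2 + ∑ b1 ∈ T2, ‖So L M b1 (X / 2) δ (θ - s)‖ ^ 2) := by
    intro θ
    have e1 : ‖Sp (fz R (-1)) D b X δ θ‖ ≤
        (∑ b1 ∈ T1, ‖So L M b1 X δ θ‖) + ∑ b1 ∈ T2, ‖So L M b1 (X / 2) δ (θ - s)‖ := by
      rw [mrpo_dec hD hR]
      refine (norm_add_le _ _).trans (add_le_add (norm_sum_le _ _) ?_)
      rw [norm_mul]
      refine (mul_le_of_le_one_left (norm_nonneg _) hc2).trans (norm_sum_le _ _)
    have e2 : (∑ b1 ∈ T1, ‖So L M b1 X δ θ‖) ^ 2 ≤ K * ∑ b1 ∈ T1, ‖So L M b1 X δ θ‖ ^ 2 :=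
      (sq_sum_le_card_mul_sum_sq).trans (mul_le_mul_of_nonneg_right hcard1 (sum_nonneg fun _ _ => by positivity))
    have e3 : (∑ b1 ∈ T2, ‖So L M b1 (X / 2) δ (θ - s)‖) ^ 2 ≤
        K * ∑ b1 ∈ T2, ‖So L M b1 (X / 2) δ (θ - s)‖ ^ 2 :=
      (sq_sum_le_card_mul_sum_sq).trans (mul_le_mul_of_nonneg_right hcard2 (sum_nonneg fun _ _ => by positivity))
    have e4 := pow_le_pow_left₀ (norm_nonneg _) e1 2
    nlinarith [sq_nonneg ((∑ b1 ∈ T1, ‖So L M b1 X δ θ‖) - ∑ b1 ∈ T2, ‖So L M b1 (X / 2) δ (θ - s)‖)]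
  have hi1 : ∀ b1 ∈ T1, IntervalIntegrable (fun θ => ‖So L M b1 X δ θ‖ ^ 2) volume 0 (2 * Real.pi) := by
    intro b1 _
    have h := mrpo_So_int L M b1 X δ 0 0 (2 * Real.pi)
    simpa only [sub_zero] using h
  have hi2 : ∀ b1 ∈ T2, IntervalIntegrable (fun θ => ‖So L M b1 (X / 2) δ (θ - s)‖ ^ 2) volume 0 (2 * Real.pi) :=
    fun b1 _ => mrpo_So_int L M b1 (X / 2) δ s 0 (2 * Real.pi)
  have hI1 : IntervalIntegrable (fun θ => ∑ b1 ∈ T1, ‖So L M b1 X δ θ‖ ^ 2) volume 0 (2 * Real.pi) := by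
    have := IntervalIntegrable.sum T1 hi1
    have e : (∑ i ∈ T1, fun θ => ‖So L M i X δ θ‖ ^ 2) = fun θ => ∑ b1 ∈ T1, ‖So L M b1 X δ θ‖ ^ 2 := by
      funext θ
      rw [Finset.sum_apply]
    rw [e] at this
    exact this
  have hI2 : IntervalIntegrable (fun θ => ∑ b1 ∈ T2, ‖So L M b1 (X / 2) δ (θ - s)‖ ^ 2) volume 0 (2 * Real.pi) := by
    have := IntervalIntegrable.sum T2 hi2
    have e : (∑ i ∈ T2, fun θ => ‖So L M i (X / 2) δ (θ - s)‖ ^ 2) =
        fun θ => ∑ b1 ∈ T2, ‖So L M b1 (X / 2) δ (θ - s)‖ ^ 2 := by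
      funext θ
      rw [Finset.sum_apply]
    rw [e] at this
    exact this
  have hR1 : IntervalIntegrable (fun θ => 2 * K * (∑ b1 ∈ T1, ‖So L M b1 X δ θ‖ ^ 2 +
      ∑ b1 ∈ T2, ‖So L M b1 (X / 2) δ (θ - s)‖ ^ 2)) volume 0 (2 * Real.pi) := (hI1.add hI2).const_mul _
  have hpi : (0 : ℝ) ≤ 2 * Real.pi := by positivity
  have hmeas : Measurable (fun θ => ‖Sp (fz R (-1)) D b X δ θ‖ ^ 2) := by
    have h : (fun θ => ‖Sp (fz R (-1)) D b X δ θ‖ ^ 2) = fun θ => ‖(∑ b1 ∈ T1, So L M b1 X δ θ) +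
      fz R (-1) 2 * ∑ b1 ∈ T2, So L M b1 (X / 2) δ (θ - s)‖ ^ 2 := by
      funext θ
      rw [mrpo_dec hD hR]
    rw [h]
    refine Measurable.pow_const (Measurable.norm ?_) 2
    refine Measurable.add (Finset.measurable_sum _ fun b1 _ => mrpo_So_meas L M b1 X δ) ?_
    refine Measurable.const_mul (Finset.measurable_sum _ fun b1 _ => ?_) _
    exact (mrpo_So_meas L M b1 (X / 2) δ).comp (measurable_id.sub_const s)
  have hint : IntervalIntegrable (fun θ => ‖Sp (fz R (-1)) D b X δ θ‖ ^ 2) volume 0 (2 * Real.pi) := by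
    refine hR1.mono_fun hmeas.aestronglyMeasurable (Eventually.of_forall fun θ => ?_)
    dsimp only
    rw [Real.norm_of_nonneg (by positivity)]
    exact (hpt θ).trans (le_abs_self _)
  have hmono := intervalIntegral.integral_mono_on hpi hint hR1 (fun θ _ => hpt θ)
  refine hmono.trans ?_
  rw [intervalIntegral.integral_const_mul, intervalIntegral.integral_add hI1 hI2,
    intervalIntegral.integral_finsetSum hi1, intervalIntegral.integral_finsetSum hi2]
  have b1 : ∑ b1 ∈ T1, ∫ θ in (0 : ℝ)..(2 * Real.pi), ‖So L M b1 X δ θ‖ ^ 2 ≤ K * (ε' * H ^ 2) := by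
    refine (sum_le_card_nsmul _ _ (ε' * H ^ 2) (fun b1 hb1 => q1 b1 (mem_filter.1 hb1).1)).trans ?_
    rw [nsmul_eq_mul]
    exact mul_le_mul_of_nonneg_right hcard1 (by positivity)
  have b2 : ∑ b1 ∈ T2, ∫ θ in (0 : ℝ)..(2 * Real.pi), ‖So L M b1 (X / 2) δ (θ - s)‖ ^ 2 ≤
      K * (ε' * (H / 2) ^ 2) := by
    refine (sum_le_card_nsmul _ _ (ε' * (H / 2) ^ 2) (fun b1 hb1 => ?_)).trans ?_
    · rw [mrpo_shift]
      exact q2 b1 (mem_filter.1 hb1).1
    · rw [nsmul_eq_mul]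
      exact mul_le_mul_of_nonneg_right hcard2 (by positivity)
  have hfin : 2 * K * (K * (ε' * H ^ 2) + K * (ε' * (H / 2) ^ 2)) ≤ ε * H ^ 2 := by
    have e1 : 4 * K ^ 2 * ε' = ε := by
      rw [hε']
      field_simp
    have e2 : 2 * K * (K * (ε' * H ^ 2) + K * (ε' * (H / 2) ^ 2)) = (4 * K ^ 2 * ε') * H ^ 2 * (5 / 8) := by ring
    rw [e2, e1]
    have e3 : 0 ≤ ε * H ^ 2 := by positivity
    linarith
  refine le_trans ?_ hfin
  have hK2 : 0 ≤ 2 * K := by positivity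
  exact mul_le_mul_of_nonneg_left (add_le_add b1 b2) hK2

end Pool.Agent.OmEq

end

/-! ### from `Lib_MP_f1a94e_mr.Small2` -/

section

/-!
# Piece SMALL2: second stage, amplification by powers of a first stage prime polynomial
-/

set_option autoImplicit false

namespace Pool.Agent.GaussMR

theorem s2_mem_PP {P Q : ℝ} {w : G} (h : w ∈ PP P Q) :
    (nm w : ℝ) ≤ Q ∧ P < (nm w : ℝ) ∧ (nm w).Prime ∧ 0 < w.im ∧ w.im < w.re := by
  classical
  unfold PP at h
  rw [Finset.mem_filter, mem_ball] at h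
  exact h

theorem s2_odd_PP {P Q : ℝ} {w : G} (h : w ∈ PP P Q) : Odd (nm w) := by
  obtain ⟨-, -, hp, h1, h2⟩ := s2_mem_PP h
  rcases hp.eq_two_or_odd' with h3 | h3
  · exfalso
    have h4 : (nm w : ℤ) = w.re ^ 2 + w.im ^ 2 := nm_eq w
    rw [h3] at h4
    push_cast at h4
    have h5 : (1 : ℤ) ≤ w.im := h1
    have h6 : (1 : ℤ) ≤ w.im ^ 2 := one_le_pow₀ h5
    have h7 : (2 : ℤ) ^ 2 ≤ w.re ^ 2 := pow_le_pow_left₀ (by norm_num) (by omega) 2
    linarith only [h4, h6, h7]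
  · exact h3

theorem s2_mem_blk {P Q ρ : ℝ} {v : ℕ} {w : G} (h : w ∈ blk P Q ρ v) :
    w ∈ PP P Q ∧ Real.exp (v * ρ) < (nm w : ℝ) ∧ (nm w : ℝ) ≤ Real.exp ((v + 1) * ρ) := by
  classical
  unfold blk at h
  rw [Finset.mem_filter] at h
  exact h

theorem s2_xi_one (k : ℤ) : xi k 1 = 1 := by
  have h : (1 : G) = ((1 : ℕ) : G) := by simp
  unfold xi
  rw [h, dir_natCast one_pos, one_zpow]

theorem s2_xi_prod (k : ℤ) {l : ℕ} (x : Fin l → G) : xi k (∏ i, x i) = ∏ i, xi k (x i) := by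
  have h : ∀ s : Finset (Fin l), xi k (∏ i ∈ s, x i) = ∏ i ∈ s, xi k (x i) := by
    intro s
    classical
    induction s using Finset.induction_on with
    | empty => simp [s2_xi_one]
    | insert a s ha ih => rw [Finset.prod_insert ha, Finset.prod_insert ha, xi_mul, ih]
  exact h _

theorem s2_nm_prod {l : ℕ} (x : Fin l → G) : nm (∏ i, x i) = ∏ i, nm (x i) := by
  have h : ∀ s : Finset (Fin l), nm (∏ i ∈ s, x i) = ∏ i ∈ s, nm (x i) := by
    intro s
    classical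
    induction s using Finset.induction_on with
    | empty => simp
    | insert a s ha ih => rw [Finset.prod_insert ha, Finset.prod_insert ha, nm_mul, ih]
  exact h _

/-- second moment of `(U_w)^l fc` -/
theorem s2_moment (l : ℕ) : ∃ C : ℝ, 0 < C ∧ ∀ (F : G → ℝ), PM F →
    ∀ (P Q ρ X' Y : ℝ) (T w : ℕ), 0 < ρ → ρ ≤ 1 → 0 ≤ X' → 1 ≤ Y →
    Real.exp ((w + 1) * ρ) ^ l * X' ≤ Y →
    ∑ k ∈ fr T, ‖U F P Q ρ w k ^ l * fc F X' k‖ ^ 2 ≤
      C * (T + Y) * (Real.exp (w * ρ) ^ l * X') := by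
  obtain ⟨C1, hC1, h1⟩ := large_sieve_fam
  obtain ⟨C2, hC2, h2⟩ := pairsU l
  refine ⟨C1 * C2, mul_pos hC1 hC2, ?_⟩
  intro F hF P Q ρ X' Y T w hρ hρ1 hX' hY hle
  classical
  set s : Finset ((Fin l → G) × G) :=
    (Fintype.piFinset fun _ : Fin l => blk P Q ρ w) ×ˢ V X' with hs
  have hmem : ∀ i ∈ s, (∀ j, i.1 j ∈ blk P Q ρ w) ∧ i.2 ∈ V X' := by
    intro i hi
    rw [hs, Finset.mem_product, Fintype.mem_piFinset] at hi
    exact hi
  have hid : ∀ k : ℤ, U F P Q ρ w k ^ l * fc F X' k =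
      ∑ i ∈ s, ((∏ j, (F (i.1 j) : ℂ)) * (F i.2 : ℂ)) * xi (-k) ((∏ j, i.1 j) * i.2) := by
    intro k
    have e1 : U F P Q ρ w k ^ l = ∑ x ∈ Fintype.piFinset (fun _ : Fin l => blk P Q ρ w),
        ∏ j, ((F (x j) : ℂ) * xi (-k) (x j)) := by
      have := Finset.prod_univ_sum (fun _ : Fin l => blk P Q ρ w)
        (fun _ (u : G) => (F u : ℂ) * xi (-k) u)
      rw [← this, Finset.prod_const, Finset.card_univ, Fintype.card_fin]
      rfl
    rw [e1, hs, Finset.sum_product]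
    unfold fc
    rw [Finset.sum_mul_sum]
    refine Finset.sum_congr rfl fun x _ => Finset.sum_congr rfl fun z _ => ?_
    dsimp only
    rw [xi_mul, s2_xi_prod, Finset.prod_mul_distrib]
    ring
  have hodd : ∀ i ∈ s, ∀ j, Odd (nm (i.1 j)) := fun i hi j =>
    s2_odd_PP (s2_mem_blk ((hmem i hi).1 j)).1
  have hc : ∀ i ∈ s, ‖(∏ j, (F (i.1 j) : ℂ)) * (F i.2 : ℂ)‖ ≤ 1 := by
    intro i hi
    rw [norm_mul, norm_prod, hF.norm (mem_V.1 (hmem i hi).2).2.1, mul_one]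
    rw [Finset.prod_congr rfl fun j _ => hF.norm (hodd i hi j)]
    simp
  have hg : ∀ i ∈ s, Odd (nm ((∏ j, i.1 j) * i.2)) ∧ (nm ((∏ j, i.1 j) * i.2) : ℝ) ≤ Y := by
    intro i hi
    constructor
    · rw [odd_nm_mul]
      refine ⟨?_, (mem_V.1 (hmem i hi).2).2.1⟩
      rw [s2_nm_prod]
      exact Finset.prod_induction _ Odd (fun a b => Odd.mul) odd_one fun j _ => hodd i hi j
    · rw [nm_mul, s2_nm_prod]
      push_cast
      refine le_trans ?_ hle
      refine mul_le_mul ?_ (mem_V.1 (hmem i hi).2).1 (Nat.cast_nonneg _) (by positivity)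
      refine (Finset.prod_le_prod (fun j _ => Nat.cast_nonneg _)
        (fun j _ => (s2_mem_blk ((hmem i hi).1 j)).2.2)).trans ?_
      rw [Finset.prod_const, Finset.card_univ, Fintype.card_fin]
  have h3 := h1 _ s (fun i => (∏ j, i.1 j) * i.2) (fun i => (∏ j, (F (i.1 j) : ℂ)) * (F i.2 : ℂ))
    Y T hY hc hg
  have h4 := h2 P Q (Real.exp (w * ρ)) X' (blk P Q ρ w)
    (fun u hu => (s2_mem_blk hu).1) (Real.one_le_exp (by positivity)) hX' (by
      intro u hu
      have hu' := (s2_mem_blk hu).2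
      refine ⟨hu'.1, hu'.2.trans ?_⟩
      have : Real.exp ((w + 1) * ρ) = Real.exp ρ * Real.exp (w * ρ) := by
        rw [← Real.exp_add]
        congr 1
        ring
      rw [this]
      have h5 : Real.exp ρ ≤ 3 :=
        (Real.exp_le_exp.2 hρ1).trans (by linarith [Real.exp_one_lt_d9])
      exact mul_le_mul_of_nonneg_right h5 (Real.exp_pos _).le)
  have hset : {p : ((Fin l → G) × G) × ((Fin l → G) × G) | p.1 ∈ s ∧ p.2 ∈ s ∧
      pr ((∏ j, p.1.1 j) * p.1.2) = pr ((∏ j, p.2.1 j) * p.2.2)} =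
      {q : ((Fin l → G) × G) × ((Fin l → G) × G) |
      (∀ i, q.1.1 i ∈ blk P Q ρ w) ∧ q.1.2 ∈ V X' ∧ (∀ i, q.2.1 i ∈ blk P Q ρ w) ∧
      q.2.2 ∈ V X' ∧ pr ((∏ i, q.1.1 i) * q.1.2) = pr ((∏ i, q.2.1 i) * q.2.2)} := by
    ext q
    simp only [Set.mem_setOf_eq, hs, Finset.mem_product, Fintype.mem_piFinset]
    tauto
  rw [hset] at h3
  calc ∑ k ∈ fr T, ‖U F P Q ρ w k ^ l * fc F X' k‖ ^ 2
      = ∑ k ∈ fr T, ‖∑ i ∈ s, ((∏ j, (F (i.1 j) : ℂ)) * (F i.2 : ℂ)) *
          xi (-k) ((∏ j, i.1 j) * i.2)‖ ^ 2 := by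
        refine Finset.sum_congr rfl fun k _ => ?_
        rw [hid k]
    _ ≤ C1 * (T + Y) * (C2 * Real.exp (w * ρ) ^ l * X') := by
        refine h3.trans ?_
        refine mul_le_mul_of_nonneg_left h4 ?_
        have : (0 : ℝ) ≤ T := Nat.cast_nonneg _
        have : 0 ≤ T + Y := by linarith
        positivity
    _ = C1 * C2 * (T + Y) * (Real.exp (w * ρ) ^ l * X') := by ring

theorem s2_blk_ne {F : G → ℝ} {P Q ρ : ℝ} {v : ℕ} {k : ℤ} (h : U F P Q ρ v k ≠ 0) :
    P < Real.exp ((v + 1) * ρ) ∧ Real.exp (v * ρ) < Q := by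
  unfold U at h
  obtain ⟨u, hu, -⟩ := Finset.exists_ne_zero_of_sum_ne_zero h
  have h1 := s2_mem_blk hu
  have h2 := s2_mem_PP h1.1
  exact ⟨h2.2.1.trans_le h1.2.2, h1.2.1.trans_le h2.1⟩

/-- Let `v` be a second stage block and `w` a first stage block, both nonempty, `l = ⌈v / w⌉`
(so `v ≤ l w < v + w`, and `l ≤ 2 l0 + 1`, since `w ρ ≥ log P1 - ρ ≥ log P1 / 2`). For `k ∈ S` with
`‖U1_w k‖ > e^((1-α1) w ρ)`:
`e^(2(1-α2) v ρ) ‖fc_v k‖² ≤ e^(2(1-α2) v ρ - 2 l (1-α1) w ρ) ‖(U1_w k)^l fc_v k‖²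
≤ e^(-2(α2-α1) v ρ) ‖(U1_w k)^l fc_v k‖²`, and `(U1_w)^l fc_v` is a sum over the family
`(x, z) ∈ blk^l × V (X e^(-vρ))`, `g = (∏ x) z` of norm `≤ X e^(ρ l) e^(w ρ)`; `large_sieve_fam` and
`pairsU l` with `Y = e^(w ρ)` bound its mean square by `C (T + X e^(ρ l) e^(wρ)) e^(wρl) X e^(-vρ)
≤ C_l X² Q1²`. Sum over `w` and `v` (Cauchy-Schwarz over `v`). -/
theorem small2 (l0 : ℕ) : ∃ C : ℝ, 0 < C ∧ ∀ (F : G → ℝ), PM F →
    ∀ (P1 Q1 P2 Q2 ρ X α1 α2 : ℝ) (T : ℕ) (S : Finset ℤ),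
    Real.exp 2 ≤ P1 → P1 ≤ Q1 → Q1 ≤ P2 → P2 ≤ Q2 → Q2 ≤ X → Real.log Q2 ≤ l0 * Real.log P1 →
    0 < ρ → ρ ≤ 1 → 0 ≤ α1 → α1 ≤ α2 → α2 ≤ 1 → (T : ℝ) ≤ X → S ⊆ fr T →
    (∀ k ∈ S, ∃ w : ℕ, Real.exp ((1 - α1) * (w * ρ)) < ‖U F P1 Q1 ρ w k‖) →
    (∀ k ∈ S, ∀ v : ℕ, ‖U F P2 Q2 ρ v k‖ ≤ Real.exp ((1 - α2) * (v * ρ))) →
    ∑ k ∈ S, ‖UZ F P2 Q2 ρ X k‖ ^ 2 ≤
      C * X ^ 2 * (Real.log Q2 / ρ + 1) ^ 3 * Q1 ^ 3 * P2 ^ (-(2 * (α2 - α1))) := by
  choose Cl hCl0 hCl using s2_moment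
  set C0 : ℝ := ∑ l ∈ Finset.range (2 * l0 + 2), Cl l with hC0
  have hClC0 : ∀ l, l ≤ 2 * l0 + 1 → Cl l ≤ C0 := by
    intro l hl
    exact Finset.single_le_sum (f := Cl) (fun i _ => (hCl0 i).le)
      (Finset.mem_range.2 (by omega))
  have hC0pos : 0 < C0 := lt_of_lt_of_le (hCl0 0) (hClC0 0 (by omega))
  set E : ℝ := Real.exp (2 * l0 + 1) with hE
  have hEpos : 0 < E := Real.exp_pos _
  refine ⟨C0 * (1 + E) * Real.exp 2, by positivity, ?_⟩
  intro F hF P1 Q1 P2 Q2 ρ X α1 α2 T S hP1 hPQ1 hQP hPQ2 hQX hlog hρ hρ1 hα1 hα12 hα2 hTX hST hw hv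
  have he2 : (1 : ℝ) ≤ Real.exp 2 := Real.one_le_exp (by norm_num)
  have hP1' : 1 ≤ P1 := he2.trans hP1
  have hQ1' : 1 ≤ Q1 := hP1'.trans hPQ1
  have hP2' : 1 ≤ P2 := hQ1'.trans hQP
  have hQ2' : 1 ≤ Q2 := hP2'.trans hPQ2
  have hX' : 1 ≤ X := hQ2'.trans hQX
  have hlP1 : 2 ≤ Real.log P1 := by
    rw [Real.le_log_iff_exp_le (by linarith)]
    exact hP1
  have hlQ : Real.log Q1 ≤ Real.log Q2 := Real.log_le_log (by linarith) (hQP.trans hPQ2)
  have hlQ1 : 0 ≤ Real.log Q1 := Real.log_nonneg hQ1'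
  have hlQ2 : 0 ≤ Real.log Q2 := Real.log_nonneg hQ2'
  set N : ℕ := nv Q2 ρ with hN
  set M : ℕ := nv Q1 ρ with hM
  have hNle : (N : ℝ) ≤ Real.log Q2 / ρ + 1 := by
    rw [hN]
    unfold nv
    push_cast
    have := Nat.floor_le (div_nonneg hlQ2 hρ.le)
    linarith
  have hMle : (M : ℝ) ≤ Real.log Q2 / ρ + 1 := by
    rw [hM]
    unfold nv
    push_cast
    have h1 := Nat.floor_le (div_nonneg hlQ1 hρ.le)
    have h2 := div_le_div_of_nonneg_right hlQ hρ.le
    linarith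
  set K : ℝ := C0 * (1 + E) * Real.exp 2 * X ^ 2 * Q1 ^ 3 * P2 ^ (-(2 * (α2 - α1))) with hK
  have hP2pow : 0 < P2 ^ (-(2 * (α2 - α1))) := Real.rpow_pos_of_pos (by linarith) _
  have hKpos : 0 < K := by positivity
  -- bound for one pair of blocks
  have hpair : ∀ v w : ℕ, (∃ k, U F P2 Q2 ρ v k ≠ 0) → (∃ k, U F P1 Q1 ρ w k ≠ 0) →
      ∀ S' : Finset ℤ, S' ⊆ fr T →
      (∀ k ∈ S', Real.exp ((1 - α1) * (w * ρ)) < ‖U F P1 Q1 ρ w k‖) →
      ∑ k ∈ S', Real.exp ((1 - α2) * (v * ρ)) ^ 2 * ‖fc F (X * Real.exp (-(v * ρ))) k‖ ^ 2 ≤ K := by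
    rintro v w ⟨k2, hk2⟩ ⟨k1, hk1⟩ S' hS' hcond
    obtain ⟨a1, a2⟩ := s2_blk_ne hk2
    obtain ⟨b1, b2⟩ := s2_blk_ne hk1
    have a1' : Real.log P2 < (v + 1) * ρ := by
      rw [Real.log_lt_iff_lt_exp (by linarith)]
      exact a1
    have b1' : Real.log P1 < (w + 1) * ρ := by
      rw [Real.log_lt_iff_lt_exp (by linarith)]
      exact b1
    have a2' : v * ρ < Real.log Q2 := by
      rw [Real.lt_log_iff_exp_lt (by linarith)]
      exact a2
    have hwρ : Real.log P1 / 2 < w * ρ := by linarith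
    have hwpos : 0 < w := by
      rcases Nat.eq_zero_or_pos w with h0 | h0
      · exfalso
        rw [h0] at hwρ
        simp at hwρ
        linarith
      · exact h0
    have hvw : (v : ℝ) ≤ w * (2 * l0) := by
      have h1 : v * ρ ≤ (w * (2 * l0)) * ρ := by
        have h2 : (l0 : ℝ) * Real.log P1 ≤ l0 * (2 * (w * ρ)) :=
          mul_le_mul_of_nonneg_left (by linarith) (Nat.cast_nonneg _)
        calc v * ρ ≤ Real.log Q2 := a2'.le
          _ ≤ l0 * Real.log P1 := hlog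
          _ ≤ l0 * (2 * (w * ρ)) := h2
          _ = (w * (2 * l0)) * ρ := by ring
      exact le_of_mul_le_mul_right h1 hρ
    have hvw' : v ≤ w * (2 * l0) := by exact_mod_cast hvw
    set l : ℕ := v / w + 1 with hl
    have hl1 : l ≤ 2 * l0 + 1 := by
      have : v / w ≤ 2 * l0 := Nat.div_le_of_le_mul hvw'
      omega
    have hl2 : v ≤ l * w := by
      have := Nat.lt_mul_div_succ v hwpos
      rw [hl]
      calc v ≤ w * (v / w + 1) := this.le
        _ = (v / w + 1) * w := by ring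
    have hl3 : l * w ≤ v + w := by
      have := Nat.div_mul_le_self v w
      rw [hl, add_mul, one_mul]
      omega
    have hl2' : (v : ℝ) ≤ l * w := by exact_mod_cast hl2
    have hl3' : (l : ℝ) * w ≤ v + w := by exact_mod_cast hl3
    have hl1' : (l : ℝ) ≤ 2 * l0 + 1 := by exact_mod_cast hl1
    have hexpw : Real.exp (w * ρ) ^ l * (X * Real.exp (-(v * ρ))) ≤ Q1 * X := by
      have e1 : Real.exp (w * ρ) ^ l * (X * Real.exp (-(v * ρ))) =
          Real.exp ((l * w - v) * ρ) * X := by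
        rw [← Real.exp_nat_mul, mul_left_comm, ← Real.exp_add, mul_comm]
        congr 2
        ring
      rw [e1]
      refine mul_le_mul_of_nonneg_right ?_ (by linarith)
      refine le_trans (Real.exp_le_exp.2 ?_) b2.le
      exact mul_le_mul_of_nonneg_right (by linarith) hρ.le
    have hexpY : Real.exp ((w + 1) * ρ) ^ l * (X * Real.exp (-(v * ρ))) ≤ E * Q1 * X := by
      have e1 : Real.exp ((w + 1) * ρ) ^ l * (X * Real.exp (-(v * ρ))) =
          Real.exp (l * ρ) * (Real.exp (w * ρ) ^ l * (X * Real.exp (-(v * ρ)))) := by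
        have e2 : Real.exp ((w + 1) * ρ) ^ l = Real.exp (l * ρ) * Real.exp (w * ρ) ^ l := by
          rw [← Real.exp_nat_mul, ← Real.exp_nat_mul, ← Real.exp_add]
          congr 1
          ring
        rw [e2, mul_assoc]
      rw [e1, mul_assoc E]
      refine mul_le_mul ?_ hexpw (by positivity) hEpos.le
      rw [hE]
      refine Real.exp_le_exp.2 ?_
      calc (l : ℝ) * ρ ≤ l * 1 := mul_le_mul_of_nonneg_left hρ1 (Nat.cast_nonneg _)
        _ ≤ 2 * l0 + 1 := by linarith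
    have hY1 : 1 ≤ E * Q1 * X := by
      have h1 : 1 ≤ E := Real.one_le_exp (by positivity)
      have h2 : 1 ≤ E * Q1 := one_le_mul_of_one_le_of_one_le h1 hQ1'
      exact one_le_mul_of_one_le_of_one_le h2 hX'
    have hmom := hCl l F hF P1 Q1 ρ (X * Real.exp (-(v * ρ))) (E * Q1 * X) T w hρ hρ1
      (by positivity) hY1 hexpY
    have hmom2 : ∑ k ∈ fr T, ‖U F P1 Q1 ρ w k ^ l * fc F (X * Real.exp (-(v * ρ))) k‖ ^ 2 ≤
        C0 * (1 + E) * X ^ 2 * Q1 ^ 2 := by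
      refine hmom.trans ?_
      have h1 : (T : ℝ) + E * Q1 * X ≤ (1 + E) * Q1 * X := by
        have h0 : X ≤ Q1 * X := le_mul_of_one_le_left (zero_le_one.trans hX') hQ1'
        calc (T : ℝ) + E * Q1 * X ≤ Q1 * X + E * Q1 * X := add_le_add (hTX.trans h0) le_rfl
          _ = (1 + E) * Q1 * X := by ring
      have h2 : 0 ≤ (T : ℝ) + E * Q1 * X := by positivity
      calc Cl l * (T + E * Q1 * X) * (Real.exp (w * ρ) ^ l * (X * Real.exp (-(v * ρ))))
          ≤ C0 * ((1 + E) * Q1 * X) * (Q1 * X) := by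
            refine mul_le_mul ?_ hexpw (by positivity) (by positivity)
            exact mul_le_mul (hClC0 l hl1) h1 h2 hC0pos.le
        _ = C0 * (1 + E) * X ^ 2 * Q1 ^ 2 := by ring
    -- amplification
    have hamp : ∀ k ∈ S', Real.exp ((1 - α2) * (v * ρ)) ^ 2 *
        ‖fc F (X * Real.exp (-(v * ρ))) k‖ ^ 2 ≤ Real.exp (-(2 * (α2 - α1) * (v * ρ))) *
        ‖U F P1 Q1 ρ w k ^ l * fc F (X * Real.exp (-(v * ρ))) k‖ ^ 2 := by
      intro k hk
      rw [norm_mul, mul_pow, ← mul_assoc (Real.exp (-(2 * (α2 - α1) * (v * ρ))))]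
      refine mul_le_mul_of_nonneg_right ?_ (sq_nonneg _)
      have h1 : Real.exp ((1 - α1) * (v * ρ)) ^ 2 ≤ ‖U F P1 Q1 ρ w k ^ l‖ ^ 2 := by
        refine pow_le_pow_left₀ (Real.exp_pos _).le ?_ 2
        rw [norm_pow]
        calc Real.exp ((1 - α1) * (v * ρ)) ≤ Real.exp ((1 - α1) * (w * ρ)) ^ l := by
              rw [← Real.exp_nat_mul]
              refine Real.exp_le_exp.2 ?_
              have h2 : (v : ℝ) * ρ ≤ (l * w) * ρ := mul_le_mul_of_nonneg_right hl2' hρ.le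
              calc (1 - α1) * (v * ρ) ≤ (1 - α1) * ((l * w) * ρ) :=
                    mul_le_mul_of_nonneg_left h2 (by linarith)
                _ = l * ((1 - α1) * (w * ρ)) := by ring
          _ ≤ ‖U F P1 Q1 ρ w k‖ ^ l := pow_le_pow_left₀ (Real.exp_pos _).le (hcond k hk).le l
      calc Real.exp ((1 - α2) * (v * ρ)) ^ 2
          = Real.exp (-(2 * (α2 - α1) * (v * ρ))) * Real.exp ((1 - α1) * (v * ρ)) ^ 2 := by
            rw [← Real.exp_nat_mul, ← Real.exp_nat_mul, ← Real.exp_add]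
            congr 1
            push_cast
            ring
        _ ≤ _ := mul_le_mul_of_nonneg_left h1 (Real.exp_pos _).le
    have hexpP : Real.exp (-(2 * (α2 - α1) * (v * ρ))) ≤
        Real.exp 2 * P2 ^ (-(2 * (α2 - α1))) := by
      rw [Real.rpow_def_of_pos (by linarith), ← Real.exp_add]
      refine Real.exp_le_exp.2 ?_
      have h1 : Real.log P2 - v * ρ ≤ 1 := by linarith
      have h2 : (α2 - α1) * (Real.log P2 - v * ρ) ≤ (α2 - α1) * 1 :=
        mul_le_mul_of_nonneg_left h1 (sub_nonneg.2 hα12)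
      linarith only [h2, hα1, hα2]
    calc ∑ k ∈ S', Real.exp ((1 - α2) * (v * ρ)) ^ 2 * ‖fc F (X * Real.exp (-(v * ρ))) k‖ ^ 2
        ≤ ∑ k ∈ S', Real.exp (-(2 * (α2 - α1) * (v * ρ))) *
          ‖U F P1 Q1 ρ w k ^ l * fc F (X * Real.exp (-(v * ρ))) k‖ ^ 2 :=
          Finset.sum_le_sum hamp
      _ ≤ ∑ k ∈ fr T, Real.exp (-(2 * (α2 - α1) * (v * ρ))) *
          ‖U F P1 Q1 ρ w k ^ l * fc F (X * Real.exp (-(v * ρ))) k‖ ^ 2 :=
          Finset.sum_le_sum_of_subset_of_nonneg hS' fun k _ _ => by positivity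
      _ = Real.exp (-(2 * (α2 - α1) * (v * ρ))) * ∑ k ∈ fr T,
          ‖U F P1 Q1 ρ w k ^ l * fc F (X * Real.exp (-(v * ρ))) k‖ ^ 2 := by
          rw [Finset.mul_sum]
      _ ≤ (Real.exp 2 * P2 ^ (-(2 * (α2 - α1)))) * (C0 * (1 + E) * X ^ 2 * Q1 ^ 2) :=
          mul_le_mul hexpP hmom2 (Finset.sum_nonneg fun k _ => by positivity) (by positivity)
      _ ≤ K := by
          rw [hK]
          have h1 : Q1 ^ 2 ≤ Q1 ^ 3 := pow_le_pow_right₀ hQ1' (by norm_num)
          have h2 : (0 : ℝ) ≤ C0 * (1 + E) * Real.exp 2 * X ^ 2 * P2 ^ (-(2 * (α2 - α1))) := by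
            positivity
          calc (Real.exp 2 * P2 ^ (-(2 * (α2 - α1)))) * (C0 * (1 + E) * X ^ 2 * Q1 ^ 2)
              = (C0 * (1 + E) * Real.exp 2 * X ^ 2 * P2 ^ (-(2 * (α2 - α1)))) * Q1 ^ 2 := by
                ring
            _ ≤ (C0 * (1 + E) * Real.exp 2 * X ^ 2 * P2 ^ (-(2 * (α2 - α1)))) * Q1 ^ 3 :=
                mul_le_mul_of_nonneg_left h1 h2
            _ = _ := by ring
  -- one second stage block
  have hblock : ∀ v : ℕ, ∑ k ∈ S, ‖U F P2 Q2 ρ v k * fc F (X * Real.exp (-(v * ρ))) k‖ ^ 2 ≤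
      M * K := by
    intro v
    classical
    by_cases hv0 : ∃ k, U F P2 Q2 ρ v k ≠ 0
    · have h1 : ∀ k ∈ S, ‖U F P2 Q2 ρ v k * fc F (X * Real.exp (-(v * ρ))) k‖ ^ 2 ≤
          ∑ w ∈ Finset.range M, if Real.exp ((1 - α1) * (w * ρ)) < ‖U F P1 Q1 ρ w k‖ then
            Real.exp ((1 - α2) * (v * ρ)) ^ 2 * ‖fc F (X * Real.exp (-(v * ρ))) k‖ ^ 2 else 0 := by
        intro k hk
        obtain ⟨w, hwk⟩ := hw k hk
        have hUne : U F P1 Q1 ρ w k ≠ 0 := by
          intro h0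
          rw [h0, norm_zero] at hwk
          exact absurd hwk (not_lt.2 (Real.exp_pos _).le)
        have hwM : w ∈ Finset.range M := by
          rw [Finset.mem_range, hM]
          unfold nv
          rw [Nat.lt_succ_iff]
          apply Nat.le_floor
          rw [le_div_iff₀ hρ]
          refine le_of_lt ?_
          rw [Real.lt_log_iff_exp_lt (by linarith)]
          exact (s2_blk_ne hUne).2
        have h2 := Finset.single_le_sum (f := fun w : ℕ =>
          if Real.exp ((1 - α1) * (w * ρ)) < ‖U F P1 Q1 ρ w k‖ then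
            Real.exp ((1 - α2) * (v * ρ)) ^ 2 * ‖fc F (X * Real.exp (-(v * ρ))) k‖ ^ 2 else 0)
          (fun i _ => by positivity) hwM
        refine le_trans ?_ h2
        simp only [hwk, if_true]
        rw [norm_mul, mul_pow]
        exact mul_le_mul_of_nonneg_right (pow_le_pow_left₀ (norm_nonneg _) (hv k hk v) 2)
          (by positivity)
      refine (Finset.sum_le_sum h1).trans ?_
      rw [Finset.sum_comm]
      calc ∑ w ∈ Finset.range M, ∑ k ∈ S,
          (if Real.exp ((1 - α1) * (w * ρ)) < ‖U F P1 Q1 ρ w k‖ then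
            Real.exp ((1 - α2) * (v * ρ)) ^ 2 * ‖fc F (X * Real.exp (-(v * ρ))) k‖ ^ 2 else 0)
          ≤ ∑ w ∈ Finset.range M, K := by
            refine Finset.sum_le_sum fun w _ => ?_
            rw [← Finset.sum_filter]
            by_cases hne : (S.filter fun k =>
                Real.exp ((1 - α1) * (w * ρ)) < ‖U F P1 Q1 ρ w k‖).Nonempty
            · obtain ⟨k, hk⟩ := hne
              rw [Finset.mem_filter] at hk
              have hUne : U F P1 Q1 ρ w k ≠ 0 := by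
                intro h0
                have h3 := hk.2
                rw [h0, norm_zero] at h3
                exact absurd h3 (not_lt.2 (Real.exp_pos _).le)
              exact hpair v w hv0 ⟨k, hUne⟩ _ ((Finset.filter_subset _ _).trans hST)
                fun k hk => (Finset.mem_filter.1 hk).2
            · rw [Finset.not_nonempty_iff_eq_empty.1 hne, Finset.sum_empty]
              exact hKpos.le
        _ = M * K := by rw [Finset.sum_const, Finset.card_range, nsmul_eq_mul]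
    · have h1 : ∀ k, U F P2 Q2 ρ v k = 0 := fun k => by
        by_contra h0
        exact hv0 ⟨k, h0⟩
      have h2 : ∑ k ∈ S, ‖U F P2 Q2 ρ v k * fc F (X * Real.exp (-(v * ρ))) k‖ ^ 2 = 0 := by
        refine Finset.sum_eq_zero fun k _ => ?_
        rw [h1 k]
        simp
      rw [h2]
      positivity
  have hNM : (0 : ℝ) ≤ Real.log Q2 / ρ + 1 := by positivity
  calc ∑ k ∈ S, ‖UZ F P2 Q2 ρ X k‖ ^ 2
      ≤ ∑ k ∈ S, N * ∑ v ∈ Finset.range N,
          ‖U F P2 Q2 ρ v k * fc F (X * Real.exp (-(v * ρ))) k‖ ^ 2 := by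
        refine Finset.sum_le_sum fun k _ => ?_
        unfold UZ
        rw [← hN]
        have h1 := norm_sum_le (Finset.range N)
          (fun v : ℕ => U F P2 Q2 ρ v k * fc F (X * Real.exp (-(v * ρ))) k)
        refine (pow_le_pow_left₀ (norm_nonneg _) h1 2).trans ?_
        have h2 := sq_sum_le_card_mul_sum_sq (s := Finset.range N)
          (f := fun v : ℕ => ‖U F P2 Q2 ρ v k * fc F (X * Real.exp (-(v * ρ))) k‖)
        rw [Finset.card_range] at h2
        exact h2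
    _ = N * ∑ v ∈ Finset.range N, ∑ k ∈ S,
          ‖U F P2 Q2 ρ v k * fc F (X * Real.exp (-(v * ρ))) k‖ ^ 2 := by
        rw [← Finset.mul_sum, Finset.sum_comm]
    _ ≤ N * ∑ v ∈ Finset.range N, (M * K) := by
        refine mul_le_mul_of_nonneg_left (Finset.sum_le_sum fun v _ => hblock v)
          (Nat.cast_nonneg _)
    _ = N * (N * (M * K)) := by
        rw [Finset.sum_const, Finset.card_range, nsmul_eq_mul]
    _ ≤ (Real.log Q2 / ρ + 1) * ((Real.log Q2 / ρ + 1) * ((Real.log Q2 / ρ + 1) * K)) := by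
        refine mul_le_mul hNle ?_ (by positivity) hNM
        refine mul_le_mul hNle ?_ (by positivity) hNM
        exact mul_le_mul_of_nonneg_right hMle hKpos.le
    _ = C0 * (1 + E) * Real.exp 2 * X ^ 2 * (Real.log Q2 / ρ + 1) ^ 3 * Q1 ^ 3 *
          P2 ^ (-(2 * (α2 - α1))) := by
        rw [hK]
        ring

end Pool.Agent.GaussMR

end

/-! ### from `Lib_MP_f1a94e_mu.SmallM` -/

section

/-!
# Piece SMALLM: passage from one stage to the next, explicit dependence on the number of factors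
-/

set_option autoImplicit false

namespace Pool.Agent.GaussMR

/-- second moment of `(U_w)^l fc`, explicit dependence on `l` -/
theorem sM_moment : ∃ C : ℝ, 0 < C ∧ ∀ (l : ℕ) (F : G → ℝ), PM F →
    ∀ (P Q ρ X' Y : ℝ) (T w : ℕ), 0 < ρ → ρ ≤ 1 → 0 ≤ X' → 1 ≤ Y →
    Real.exp ((w + 1) * ρ) ^ l * X' ≤ Y →
    ∑ k ∈ fr T, ‖U F P Q ρ w k ^ l * fc F X' k‖ ^ 2 ≤
      C * (144 * ((l : ℝ) + 1)) ^ l * (T + Y) * (Real.exp (w * ρ) ^ l * X') := by
  obtain ⟨C1, hC1, h1⟩ := large_sieve_fam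
  refine ⟨C1 * 9, by positivity, ?_⟩
  intro l F hF P Q ρ X' Y T w hρ hρ1 hX' hY hle
  have h2 := pairsX l
  classical
  set s : Finset ((Fin l → G) × G) :=
    (Fintype.piFinset fun _ : Fin l => blk P Q ρ w) ×ˢ V X' with hs
  have hmem : ∀ i ∈ s, (∀ j, i.1 j ∈ blk P Q ρ w) ∧ i.2 ∈ V X' := by
    intro i hi
    rw [hs, Finset.mem_product, Fintype.mem_piFinset] at hi
    exact hi
  have hid : ∀ k : ℤ, U F P Q ρ w k ^ l * fc F X' k =
      ∑ i ∈ s, ((∏ j, (F (i.1 j) : ℂ)) * (F i.2 : ℂ)) * xi (-k) ((∏ j, i.1 j) * i.2) := by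
    intro k
    have e1 : U F P Q ρ w k ^ l = ∑ x ∈ Fintype.piFinset (fun _ : Fin l => blk P Q ρ w),
        ∏ j, ((F (x j) : ℂ) * xi (-k) (x j)) := by
      have := Finset.prod_univ_sum (fun _ : Fin l => blk P Q ρ w)
        (fun _ (u : G) => (F u : ℂ) * xi (-k) u)
      rw [← this, Finset.prod_const, Finset.card_univ, Fintype.card_fin]
      rfl
    rw [e1, hs, Finset.sum_product]
    unfold fc
    rw [Finset.sum_mul_sum]
    refine Finset.sum_congr rfl fun x _ => Finset.sum_congr rfl fun z _ => ?_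
    dsimp only
    rw [xi_mul, s2_xi_prod, Finset.prod_mul_distrib]
    ring
  have hodd : ∀ i ∈ s, ∀ j, Odd (nm (i.1 j)) := fun i hi j =>
    s2_odd_PP (s2_mem_blk ((hmem i hi).1 j)).1
  have hc : ∀ i ∈ s, ‖(∏ j, (F (i.1 j) : ℂ)) * (F i.2 : ℂ)‖ ≤ 1 := by
    intro i hi
    rw [norm_mul, norm_prod, hF.norm (mem_V.1 (hmem i hi).2).2.1, mul_one]
    rw [Finset.prod_congr rfl fun j _ => hF.norm (hodd i hi j)]
    simp
  have hg : ∀ i ∈ s, Odd (nm ((∏ j, i.1 j) * i.2)) ∧ (nm ((∏ j, i.1 j) * i.2) : ℝ) ≤ Y := by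
    intro i hi
    constructor
    · rw [odd_nm_mul]
      refine ⟨?_, (mem_V.1 (hmem i hi).2).2.1⟩
      rw [s2_nm_prod]
      exact Finset.prod_induction _ Odd (fun a b => Odd.mul) odd_one fun j _ => hodd i hi j
    · rw [nm_mul, s2_nm_prod]
      push_cast
      refine le_trans ?_ hle
      refine mul_le_mul ?_ (mem_V.1 (hmem i hi).2).1 (Nat.cast_nonneg _) (by positivity)
      refine (Finset.prod_le_prod (fun j _ => Nat.cast_nonneg _)
        (fun j _ => (s2_mem_blk ((hmem i hi).1 j)).2.2)).trans ?_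
      rw [Finset.prod_const, Finset.card_univ, Fintype.card_fin]
  have h3 := h1 _ s (fun i => (∏ j, i.1 j) * i.2) (fun i => (∏ j, (F (i.1 j) : ℂ)) * (F i.2 : ℂ))
    Y T hY hc hg
  have h4 := h2 P Q (Real.exp (w * ρ)) X' (blk P Q ρ w)
    (fun u hu => (s2_mem_blk hu).1) (Real.one_le_exp (by positivity)) hX' (by
      intro u hu
      have hu' := (s2_mem_blk hu).2
      refine ⟨hu'.1, hu'.2.trans ?_⟩
      have : Real.exp ((w + 1) * ρ) = Real.exp ρ * Real.exp (w * ρ) := by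
        rw [← Real.exp_add]
        congr 1
        ring
      rw [this]
      have h5 : Real.exp ρ ≤ 3 :=
        (Real.exp_le_exp.2 hρ1).trans (by linarith [Real.exp_one_lt_d9])
      exact mul_le_mul_of_nonneg_right h5 (Real.exp_pos _).le)
  have hset : {p : ((Fin l → G) × G) × ((Fin l → G) × G) | p.1 ∈ s ∧ p.2 ∈ s ∧
      pr ((∏ j, p.1.1 j) * p.1.2) = pr ((∏ j, p.2.1 j) * p.2.2)} =
      {q : ((Fin l → G) × G) × ((Fin l → G) × G) |
      (∀ i, q.1.1 i ∈ blk P Q ρ w) ∧ q.1.2 ∈ V X' ∧ (∀ i, q.2.1 i ∈ blk P Q ρ w) ∧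
      q.2.2 ∈ V X' ∧ pr ((∏ i, q.1.1 i) * q.1.2) = pr ((∏ i, q.2.1 i) * q.2.2)} := by
    ext q
    simp only [Set.mem_setOf_eq, hs, Finset.mem_product, Fintype.mem_piFinset]
    tauto
  rw [hset] at h3
  calc ∑ k ∈ fr T, ‖U F P Q ρ w k ^ l * fc F X' k‖ ^ 2
      = ∑ k ∈ fr T, ‖∑ i ∈ s, ((∏ j, (F (i.1 j) : ℂ)) * (F i.2 : ℂ)) *
          xi (-k) ((∏ j, i.1 j) * i.2)‖ ^ 2 := by
        refine Finset.sum_congr rfl fun k _ => ?_
        rw [hid k]
    _ ≤ C1 * (T + Y) * (9 * (144 * ((l : ℝ) + 1)) ^ l * Real.exp (w * ρ) ^ l * X') := by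
        refine h3.trans ?_
        refine mul_le_mul_of_nonneg_left h4 ?_
        have : (0 : ℝ) ≤ T := Nat.cast_nonneg _
        have : 0 ≤ T + Y := by linarith
        positivity
    _ = C1 * 9 * (144 * ((l : ℝ) + 1)) ^ l * (T + Y) * (Real.exp (w * ρ) ^ l * X') := by ring

/-- the numerical inequality for the constants -/
theorem sM_const (C1 l0 : ℝ) (hC1 : 0 < C1) (hl0 : 1 ≤ l0) (l : ℕ) (hl : (l : ℝ) ≤ l0 + 1) :
    C1 * (144 * ((l : ℝ) + 1)) ^ l * (1 + Real.exp (l0 + 1)) * Real.exp 2 ≤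
      Real.exp ((|Real.log C1| + 12) * (l0 + 2) * Real.log (l0 + 2)) := by
  have h3 : (1 : ℝ) ≤ Real.log (l0 + 2) := by
    rw [Real.le_log_iff_exp_le (by linarith)]
    have := Real.exp_one_lt_d9
    linarith
  set L : ℝ := (l0 + 2) * Real.log (l0 + 2) with hL
  have hL3 : l0 + 2 ≤ L := by
    rw [hL]
    exact le_mul_of_one_le_right (by linarith only [hl0]) h3
  have h144 : Real.log 144 ≤ 5 := by
    rw [Real.log_le_iff_le_exp (by norm_num)]
    have h := Real.exp_one_gt_d9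
    have e5 : Real.exp 5 = Real.exp 1 ^ 5 := by
      rw [← Real.exp_nat_mul]
      norm_num
    rw [e5]
    have h27 : (2.71 : ℝ) ≤ Real.exp 1 := by linarith
    calc (144 : ℝ) ≤ 2.71 ^ 5 := by norm_num
      _ ≤ Real.exp 1 ^ 5 := pow_le_pow_left₀ (by norm_num) h27 5
  have a1 : C1 = Real.exp (Real.log C1) := (Real.exp_log hC1).symm
  have a2 : (144 * ((l : ℝ) + 1)) ^ l ≤ Real.exp ((l0 + 1) * (5 + Real.log (l0 + 2))) := by
    have hb : (0 : ℝ) < 144 * ((l : ℝ) + 1) := by positivity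
    have e1 : (144 * ((l : ℝ) + 1)) ^ l = Real.exp (l * Real.log (144 * ((l : ℝ) + 1))) := by
      rw [Real.exp_nat_mul, Real.exp_log hb]
    rw [e1]
    refine Real.exp_le_exp.2 ?_
    have e2 : Real.log (144 * ((l : ℝ) + 1)) = Real.log 144 + Real.log ((l : ℝ) + 1) :=
      Real.log_mul (by norm_num) (by positivity)
    have e3 : Real.log ((l : ℝ) + 1) ≤ Real.log (l0 + 2) :=
      Real.log_le_log (by positivity) (by linarith)
    rw [e2]
    have e4 : 0 ≤ Real.log 144 + Real.log ((l : ℝ) + 1) := by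
      have := Real.log_nonneg (show (1 : ℝ) ≤ (l : ℝ) + 1 by
        have : (0 : ℝ) ≤ l := Nat.cast_nonneg _
        linarith)
      have := Real.log_nonneg (show (1 : ℝ) ≤ 144 by norm_num)
      linarith
    calc (l : ℝ) * (Real.log 144 + Real.log ((l : ℝ) + 1))
        ≤ (l0 + 1) * (Real.log 144 + Real.log ((l : ℝ) + 1)) :=
          mul_le_mul_of_nonneg_right hl e4
      _ ≤ (l0 + 1) * (5 + Real.log (l0 + 2)) :=
          mul_le_mul_of_nonneg_left (by linarith) (by linarith)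
  have a3 : 1 + Real.exp (l0 + 1) ≤ Real.exp (l0 + 2) := by
    have h1 : 1 ≤ Real.exp (l0 + 1) := Real.one_le_exp (by linarith)
    have h2 : Real.exp (l0 + 2) = Real.exp 1 * Real.exp (l0 + 1) := by
      rw [← Real.exp_add]
      congr 1
      ring
    rw [h2]
    have h4 := Real.exp_one_gt_d9
    have h5 : 2 * Real.exp (l0 + 1) ≤ Real.exp 1 * Real.exp (l0 + 1) :=
      mul_le_mul_of_nonneg_right (by linarith only [h4]) (Real.exp_pos _).le
    linarith only [h5, h1]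
  calc C1 * (144 * ((l : ℝ) + 1)) ^ l * (1 + Real.exp (l0 + 1)) * Real.exp 2
      ≤ Real.exp (Real.log C1) * Real.exp ((l0 + 1) * (5 + Real.log (l0 + 2))) *
          Real.exp (l0 + 2) * Real.exp 2 := by
        rw [← a1]
        gcongr
    _ = Real.exp (Real.log C1 + (l0 + 1) * (5 + Real.log (l0 + 2)) + (l0 + 2) + 2) := by
        rw [← Real.exp_add, ← Real.exp_add, ← Real.exp_add]
    _ ≤ _ := by
        refine Real.exp_le_exp.2 ?_
        have b1 : Real.log C1 ≤ |Real.log C1| * L :=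
          (le_abs_self _).trans (le_mul_of_one_le_right (abs_nonneg _) (by linarith))
        have b2 : (l0 + 1) * (5 + Real.log (l0 + 2)) ≤ 6 * L := by
          rw [hL]
          have h5 : (l0 + 2) * 1 ≤ (l0 + 2) * Real.log (l0 + 2) :=
            mul_le_mul_of_nonneg_left h3 (by linarith only [hl0])
          linarith only [h5, h3]
        have b3 : (|Real.log C1| + 12) * (l0 + 2) * Real.log (l0 + 2) =
            |Real.log C1| * L + 12 * L := by
          rw [hL]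
          ring
        rw [b3]
        linarith

/-- Same proof as `small2` (Lib_MP_f1a94e_mr/Small2.lean), with two block lengths `ρ1, ρ2`, with
`pairsX` in place of `pairsU` (so `s2_moment l` holds with the constant `C1 * 9 * (144 (l+1)) ^ l`,
`C1` from `large_sieve_fam`), and `l = ⌊v ρ2 / (w ρ1)⌋ + 1`, so that
`v ρ2 ≤ l w ρ1 ≤ v ρ2 + w ρ1` and `l ≤ 2 log Q2 / log P1 + 1 ≤ l0 + 1`. -/
theorem smallM : ∃ C : ℝ, 0 < C ∧ ∀ (F : G → ℝ), PM F →
    ∀ (P1 Q1 P2 Q2 ρ1 ρ2 X α1 α2 l0 : ℝ) (T : ℕ) (S : Finset ℤ),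
    Real.exp 2 ≤ P1 → P1 ≤ Q1 → Q1 ≤ X → 1 ≤ P2 → P2 ≤ Q2 → Q2 ≤ X → 1 ≤ l0 →
    2 * Real.log Q2 ≤ l0 * Real.log P1 →
    0 < ρ1 → ρ1 ≤ 1 → 0 < ρ2 → ρ2 ≤ 1 → 0 ≤ α1 → α1 ≤ α2 → α2 ≤ 1 → (T : ℝ) ≤ X → S ⊆ fr T →
    (∀ k ∈ S, ∃ w : ℕ, Real.exp ((1 - α1) * (w * ρ1)) < ‖U F P1 Q1 ρ1 w k‖) →
    (∀ k ∈ S, ∀ v : ℕ, ‖U F P2 Q2 ρ2 v k‖ ≤ Real.exp ((1 - α2) * (v * ρ2))) →
    ∑ k ∈ S, ‖UZ F P2 Q2 ρ2 X k‖ ^ 2 ≤
      X ^ 2 * (Real.log Q2 / ρ2 + 1) ^ 2 * (Real.log Q1 / ρ1 + 1) * Q1 ^ 2 *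
        Real.exp (C * (l0 + 2) * Real.log (l0 + 2)) * P2 ^ (-(2 * (α2 - α1))) := by
  obtain ⟨C1, hC10, hC1⟩ := sM_moment
  refine ⟨|Real.log C1| + 12, by positivity, ?_⟩
  intro F hF P1 Q1 P2 Q2 ρ1 ρ2 X α1 α2 l0 T S hP1 hPQ1 hQ1X hP2 hPQ2 hQX hl0 hlog hρ1 hρ11 hρ2 hρ21
    hα1 hα12 hα2 hTX hST hw hv
  set E : ℝ := Real.exp (l0 + 1) with hE
  have hEpos : 0 < E := Real.exp_pos _
  have he2 : (1 : ℝ) ≤ Real.exp 2 := Real.one_le_exp (by norm_num)
  have hP1' : 1 ≤ P1 := he2.trans hP1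
  have hQ1' : 1 ≤ Q1 := hP1'.trans hPQ1
  have hQ2' : 1 ≤ Q2 := hP2.trans hPQ2
  have hX' : 1 ≤ X := hQ2'.trans hQX
  have hlP1 : 2 ≤ Real.log P1 := by
    rw [Real.le_log_iff_exp_le (by linarith)]
    exact hP1
  have hlQ1 : 0 ≤ Real.log Q1 := Real.log_nonneg hQ1'
  have hlQ2 : 0 ≤ Real.log Q2 := Real.log_nonneg hQ2'
  set N : ℕ := nv Q2 ρ2 with hN
  set M : ℕ := nv Q1 ρ1 with hM
  have hNle : (N : ℝ) ≤ Real.log Q2 / ρ2 + 1 := by
    rw [hN]
    unfold nv
    push_cast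
    have := Nat.floor_le (div_nonneg hlQ2 hρ2.le)
    linarith
  have hMle : (M : ℝ) ≤ Real.log Q1 / ρ1 + 1 := by
    rw [hM]
    unfold nv
    push_cast
    have := Nat.floor_le (div_nonneg hlQ1 hρ1.le)
    linarith
  set R : ℝ := Real.exp ((|Real.log C1| + 12) * (l0 + 2) * Real.log (l0 + 2)) with hR
  have hRpos : 0 < R := Real.exp_pos _
  set K : ℝ := R * X ^ 2 * Q1 ^ 2 * P2 ^ (-(2 * (α2 - α1))) with hK
  have hP2pow : 0 < P2 ^ (-(2 * (α2 - α1))) := Real.rpow_pos_of_pos (by linarith) _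
  have hKpos : 0 < K := by positivity
  -- bound for one pair of blocks
  have hpair : ∀ v w : ℕ, (∃ k, U F P2 Q2 ρ2 v k ≠ 0) → (∃ k, U F P1 Q1 ρ1 w k ≠ 0) →
      ∀ S' : Finset ℤ, S' ⊆ fr T →
      (∀ k ∈ S', Real.exp ((1 - α1) * (w * ρ1)) < ‖U F P1 Q1 ρ1 w k‖) →
      ∑ k ∈ S', Real.exp ((1 - α2) * (v * ρ2)) ^ 2 *
        ‖fc F (X * Real.exp (-(v * ρ2))) k‖ ^ 2 ≤ K := by
    rintro v w ⟨k2, hk2⟩ ⟨k1, hk1⟩ S' hS' hcond
    obtain ⟨a1, a2⟩ := s2_blk_ne hk2
    obtain ⟨b1, b2⟩ := s2_blk_ne hk1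
    have a1' : Real.log P2 < (v + 1) * ρ2 := by
      rw [Real.log_lt_iff_lt_exp (by linarith)]
      exact a1
    have b1' : Real.log P1 < (w + 1) * ρ1 := by
      rw [Real.log_lt_iff_lt_exp (by linarith)]
      exact b1
    have a2' : v * ρ2 < Real.log Q2 := by
      rw [Real.lt_log_iff_exp_lt (by linarith)]
      exact a2
    have hwρ : Real.log P1 / 2 < w * ρ1 := by linarith
    have hwρ0 : 0 < w * ρ1 := by linarith
    have hvρ0 : 0 ≤ v * ρ2 := by positivity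
    have hq : v * ρ2 / (w * ρ1) ≤ l0 := by
      rw [div_le_iff₀ hwρ0]
      have h2 : l0 * (Real.log P1 / 2) ≤ l0 * (w * ρ1) :=
        mul_le_mul_of_nonneg_left hwρ.le (by linarith)
      linarith
    set l : ℕ := ⌊v * ρ2 / (w * ρ1)⌋₊ + 1 with hl
    have hlc : (l : ℝ) = (⌊v * ρ2 / (w * ρ1)⌋₊ : ℝ) + 1 := by
      rw [hl]
      push_cast
      ring
    have hfl := Nat.floor_le (div_nonneg hvρ0 hwρ0.le)
    have hfl2 := Nat.lt_floor_add_one (v * ρ2 / (w * ρ1))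
    have hl1' : (l : ℝ) ≤ l0 + 1 := by
      rw [hlc]
      linarith
    have hl2' : v * ρ2 ≤ l * (w * ρ1) := by
      rw [hlc, ← div_le_iff₀ hwρ0]
      exact hfl2.le
    have hl3' : l * (w * ρ1) ≤ v * ρ2 + w * ρ1 := by
      rw [hlc, add_mul, one_mul]
      have := (le_div_iff₀ hwρ0).1 hfl
      linarith
    have hexpw : Real.exp (w * ρ1) ^ l * (X * Real.exp (-(v * ρ2))) ≤ Q1 * X := by
      have e1 : Real.exp (w * ρ1) ^ l * (X * Real.exp (-(v * ρ2))) =
          Real.exp (l * (w * ρ1) - v * ρ2) * X := by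
        rw [← Real.exp_nat_mul, mul_left_comm, ← Real.exp_add, mul_comm]
        congr 2
      rw [e1]
      refine mul_le_mul_of_nonneg_right ?_ (by linarith)
      refine le_trans (Real.exp_le_exp.2 ?_) b2.le
      linarith
    have hexpY : Real.exp ((w + 1) * ρ1) ^ l * (X * Real.exp (-(v * ρ2))) ≤ E * Q1 * X := by
      have e1 : Real.exp ((w + 1) * ρ1) ^ l * (X * Real.exp (-(v * ρ2))) =
          Real.exp (l * ρ1) * (Real.exp (w * ρ1) ^ l * (X * Real.exp (-(v * ρ2)))) := by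
        have e2 : Real.exp ((w + 1) * ρ1) ^ l = Real.exp (l * ρ1) * Real.exp (w * ρ1) ^ l := by
          rw [← Real.exp_nat_mul, ← Real.exp_nat_mul, ← Real.exp_add]
          congr 1
          ring
        rw [e2, mul_assoc]
      rw [e1, mul_assoc E]
      refine mul_le_mul ?_ hexpw (by positivity) hEpos.le
      rw [hE]
      refine Real.exp_le_exp.2 ?_
      calc (l : ℝ) * ρ1 ≤ l * 1 := mul_le_mul_of_nonneg_left hρ11 (Nat.cast_nonneg _)
        _ ≤ l0 + 1 := by linarith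
    have hY1 : 1 ≤ E * Q1 * X := by
      have h1 : 1 ≤ E := Real.one_le_exp (by linarith)
      have h2 : 1 ≤ E * Q1 := one_le_mul_of_one_le_of_one_le h1 hQ1'
      exact one_le_mul_of_one_le_of_one_le h2 hX'
    have hmom := hC1 l F hF P1 Q1 ρ1 (X * Real.exp (-(v * ρ2))) (E * Q1 * X) T w hρ1 hρ11
      (by positivity) hY1 hexpY
    have hmom2 : ∑ k ∈ fr T, ‖U F P1 Q1 ρ1 w k ^ l * fc F (X * Real.exp (-(v * ρ2))) k‖ ^ 2 ≤
        (C1 * (144 * ((l : ℝ) + 1)) ^ l * (1 + E)) * X ^ 2 * Q1 ^ 2 := by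
      refine hmom.trans ?_
      have h1 : (T : ℝ) + E * Q1 * X ≤ (1 + E) * Q1 * X := by
        have h3 : X ≤ Q1 * X := le_mul_of_one_le_left (by linarith only [hX']) hQ1'
        linarith only [h3, hTX]
      have h2 : 0 ≤ (T : ℝ) + E * Q1 * X := by positivity
      calc C1 * (144 * ((l : ℝ) + 1)) ^ l * (T + E * Q1 * X) *
            (Real.exp (w * ρ1) ^ l * (X * Real.exp (-(v * ρ2))))
          ≤ C1 * (144 * ((l : ℝ) + 1)) ^ l * ((1 + E) * Q1 * X) * (Q1 * X) := by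
            refine mul_le_mul ?_ hexpw (by positivity) (by positivity)
            exact mul_le_mul_of_nonneg_left h1 (by positivity)
        _ = (C1 * (144 * ((l : ℝ) + 1)) ^ l * (1 + E)) * X ^ 2 * Q1 ^ 2 := by ring
    -- amplification
    have hamp : ∀ k ∈ S', Real.exp ((1 - α2) * (v * ρ2)) ^ 2 *
        ‖fc F (X * Real.exp (-(v * ρ2))) k‖ ^ 2 ≤ Real.exp (-(2 * (α2 - α1) * (v * ρ2))) *
        ‖U F P1 Q1 ρ1 w k ^ l * fc F (X * Real.exp (-(v * ρ2))) k‖ ^ 2 := by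
      intro k hk
      rw [norm_mul, mul_pow, ← mul_assoc (Real.exp (-(2 * (α2 - α1) * (v * ρ2))))]
      refine mul_le_mul_of_nonneg_right ?_ (sq_nonneg _)
      have h1 : Real.exp ((1 - α1) * (v * ρ2)) ^ 2 ≤ ‖U F P1 Q1 ρ1 w k ^ l‖ ^ 2 := by
        refine pow_le_pow_left₀ (Real.exp_pos _).le ?_ 2
        rw [norm_pow]
        calc Real.exp ((1 - α1) * (v * ρ2)) ≤ Real.exp ((1 - α1) * (w * ρ1)) ^ l := by
              rw [← Real.exp_nat_mul]
              refine Real.exp_le_exp.2 ?_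
              calc (1 - α1) * (v * ρ2) ≤ (1 - α1) * (l * (w * ρ1)) :=
                    mul_le_mul_of_nonneg_left hl2' (by linarith)
                _ = l * ((1 - α1) * (w * ρ1)) := by ring
          _ ≤ ‖U F P1 Q1 ρ1 w k‖ ^ l := pow_le_pow_left₀ (Real.exp_pos _).le (hcond k hk).le l
      calc Real.exp ((1 - α2) * (v * ρ2)) ^ 2
          = Real.exp (-(2 * (α2 - α1) * (v * ρ2))) * Real.exp ((1 - α1) * (v * ρ2)) ^ 2 := by
            rw [← Real.exp_nat_mul, ← Real.exp_nat_mul, ← Real.exp_add]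
            congr 1
            push_cast
            ring
        _ ≤ _ := mul_le_mul_of_nonneg_left h1 (Real.exp_pos _).le
    have hexpP : Real.exp (-(2 * (α2 - α1) * (v * ρ2))) ≤
        Real.exp 2 * P2 ^ (-(2 * (α2 - α1))) := by
      rw [Real.rpow_def_of_pos (by linarith), ← Real.exp_add]
      refine Real.exp_le_exp.2 ?_
      have h1 : Real.log P2 - v * ρ2 ≤ 1 := by linarith
      have h2 : (α2 - α1) * (Real.log P2 - v * ρ2) ≤ (α2 - α1) * 1 :=
        mul_le_mul_of_nonneg_left h1 (by linarith only [hα12])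
      linarith only [h2, hα1, hα2]
    have hcst := sM_const C1 l0 hC10 hl0 l hl1'
    rw [← hE, ← hR] at hcst
    calc ∑ k ∈ S', Real.exp ((1 - α2) * (v * ρ2)) ^ 2 * ‖fc F (X * Real.exp (-(v * ρ2))) k‖ ^ 2
        ≤ ∑ k ∈ S', Real.exp (-(2 * (α2 - α1) * (v * ρ2))) *
          ‖U F P1 Q1 ρ1 w k ^ l * fc F (X * Real.exp (-(v * ρ2))) k‖ ^ 2 :=
          Finset.sum_le_sum hamp
      _ ≤ ∑ k ∈ fr T, Real.exp (-(2 * (α2 - α1) * (v * ρ2))) *
          ‖U F P1 Q1 ρ1 w k ^ l * fc F (X * Real.exp (-(v * ρ2))) k‖ ^ 2 :=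
          Finset.sum_le_sum_of_subset_of_nonneg hS' fun k _ _ => by positivity
      _ = Real.exp (-(2 * (α2 - α1) * (v * ρ2))) * ∑ k ∈ fr T,
          ‖U F P1 Q1 ρ1 w k ^ l * fc F (X * Real.exp (-(v * ρ2))) k‖ ^ 2 := by
          rw [Finset.mul_sum]
      _ ≤ (Real.exp 2 * P2 ^ (-(2 * (α2 - α1)))) *
          ((C1 * (144 * ((l : ℝ) + 1)) ^ l * (1 + E)) * X ^ 2 * Q1 ^ 2) :=
          mul_le_mul hexpP hmom2 (Finset.sum_nonneg fun k _ => by positivity) (by positivity)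
      _ = (C1 * (144 * ((l : ℝ) + 1)) ^ l * (1 + E) * Real.exp 2) *
            (X ^ 2 * Q1 ^ 2 * P2 ^ (-(2 * (α2 - α1)))) := by ring
      _ ≤ R * (X ^ 2 * Q1 ^ 2 * P2 ^ (-(2 * (α2 - α1)))) :=
          mul_le_mul_of_nonneg_right hcst (by positivity)
      _ = K := by
          rw [hK]
          ring
  -- one second stage block
  have hblock : ∀ v : ℕ, ∑ k ∈ S, ‖U F P2 Q2 ρ2 v k * fc F (X * Real.exp (-(v * ρ2))) k‖ ^ 2 ≤
      M * K := by
    intro v
    classical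
    by_cases hv0 : ∃ k, U F P2 Q2 ρ2 v k ≠ 0
    · have h1 : ∀ k ∈ S, ‖U F P2 Q2 ρ2 v k * fc F (X * Real.exp (-(v * ρ2))) k‖ ^ 2 ≤
          ∑ w ∈ Finset.range M, if Real.exp ((1 - α1) * (w * ρ1)) < ‖U F P1 Q1 ρ1 w k‖ then
            Real.exp ((1 - α2) * (v * ρ2)) ^ 2 *
              ‖fc F (X * Real.exp (-(v * ρ2))) k‖ ^ 2 else 0 := by
        intro k hk
        obtain ⟨w, hwk⟩ := hw k hk
        have hUne : U F P1 Q1 ρ1 w k ≠ 0 := by
          intro h0
          rw [h0, norm_zero] at hwk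
          exact absurd hwk (not_lt.2 (Real.exp_pos _).le)
        have hwM : w ∈ Finset.range M := by
          rw [Finset.mem_range, hM]
          unfold nv
          rw [Nat.lt_succ_iff]
          apply Nat.le_floor
          rw [le_div_iff₀ hρ1]
          refine le_of_lt ?_
          rw [Real.lt_log_iff_exp_lt (by linarith)]
          exact (s2_blk_ne hUne).2
        have h2 := Finset.single_le_sum (f := fun w : ℕ =>
          if Real.exp ((1 - α1) * (w * ρ1)) < ‖U F P1 Q1 ρ1 w k‖ then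
            Real.exp ((1 - α2) * (v * ρ2)) ^ 2 *
              ‖fc F (X * Real.exp (-(v * ρ2))) k‖ ^ 2 else 0)
          (fun i _ => by positivity) hwM
        refine le_trans ?_ h2
        simp only [hwk, if_true]
        rw [norm_mul, mul_pow]
        exact mul_le_mul_of_nonneg_right (pow_le_pow_left₀ (norm_nonneg _) (hv k hk v) 2)
          (by positivity)
      refine (Finset.sum_le_sum h1).trans ?_
      rw [Finset.sum_comm]
      calc ∑ w ∈ Finset.range M, ∑ k ∈ S,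
          (if Real.exp ((1 - α1) * (w * ρ1)) < ‖U F P1 Q1 ρ1 w k‖ then
            Real.exp ((1 - α2) * (v * ρ2)) ^ 2 *
              ‖fc F (X * Real.exp (-(v * ρ2))) k‖ ^ 2 else 0)
          ≤ ∑ w ∈ Finset.range M, K := by
            refine Finset.sum_le_sum fun w _ => ?_
            rw [← Finset.sum_filter]
            by_cases hne : (S.filter fun k =>
                Real.exp ((1 - α1) * (w * ρ1)) < ‖U F P1 Q1 ρ1 w k‖).Nonempty
            · obtain ⟨k, hk⟩ := hne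
              rw [Finset.mem_filter] at hk
              have hUne : U F P1 Q1 ρ1 w k ≠ 0 := by
                intro h0
                have h3 := hk.2
                rw [h0, norm_zero] at h3
                exact absurd h3 (not_lt.2 (Real.exp_pos _).le)
              exact hpair v w hv0 ⟨k, hUne⟩ _ ((Finset.filter_subset _ _).trans hST)
                fun k hk => (Finset.mem_filter.1 hk).2
            · rw [Finset.not_nonempty_iff_eq_empty.1 hne, Finset.sum_empty]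
              exact hKpos.le
        _ = M * K := by rw [Finset.sum_const, Finset.card_range, nsmul_eq_mul]
    · have h1 : ∀ k, U F P2 Q2 ρ2 v k = 0 := fun k => by
        by_contra h0
        exact hv0 ⟨k, h0⟩
      have h2 : ∑ k ∈ S, ‖U F P2 Q2 ρ2 v k * fc F (X * Real.exp (-(v * ρ2))) k‖ ^ 2 = 0 := by
        refine Finset.sum_eq_zero fun k _ => ?_
        rw [h1 k]
        simp
      rw [h2]
      positivity
  have hNM : (0 : ℝ) ≤ Real.log Q2 / ρ2 + 1 := by positivity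
  calc ∑ k ∈ S, ‖UZ F P2 Q2 ρ2 X k‖ ^ 2
      ≤ ∑ k ∈ S, N * ∑ v ∈ Finset.range N,
          ‖U F P2 Q2 ρ2 v k * fc F (X * Real.exp (-(v * ρ2))) k‖ ^ 2 := by
        refine Finset.sum_le_sum fun k _ => ?_
        unfold UZ
        rw [← hN]
        have h1 := norm_sum_le (Finset.range N)
          (fun v : ℕ => U F P2 Q2 ρ2 v k * fc F (X * Real.exp (-(v * ρ2))) k)
        refine (pow_le_pow_left₀ (norm_nonneg _) h1 2).trans ?_
        have h2 := sq_sum_le_card_mul_sum_sq (s := Finset.range N)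
          (f := fun v : ℕ => ‖U F P2 Q2 ρ2 v k * fc F (X * Real.exp (-(v * ρ2))) k‖)
        rw [Finset.card_range] at h2
        exact h2
    _ = N * ∑ v ∈ Finset.range N, ∑ k ∈ S,
          ‖U F P2 Q2 ρ2 v k * fc F (X * Real.exp (-(v * ρ2))) k‖ ^ 2 := by
        rw [← Finset.mul_sum, Finset.sum_comm]
    _ ≤ N * ∑ v ∈ Finset.range N, (M * K) := by
        refine mul_le_mul_of_nonneg_left (Finset.sum_le_sum fun v _ => hblock v)
          (Nat.cast_nonneg _)
    _ = N * (N * (M * K)) := by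
        rw [Finset.sum_const, Finset.card_range, nsmul_eq_mul]
    _ ≤ (Real.log Q2 / ρ2 + 1) * ((Real.log Q2 / ρ2 + 1) * ((Real.log Q1 / ρ1 + 1) * K)) := by
        refine mul_le_mul hNle ?_ (by positivity) hNM
        refine mul_le_mul hNle ?_ (by positivity) hNM
        exact mul_le_mul_of_nonneg_right hMle hKpos.le
    _ = _ := by
        rw [hK]
        ring

end Pool.Agent.GaussMR

end
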