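import Mathlib
import Pool.Agent.Lib_MP_f1a94e_m.G01
import Pool.Agent.Lib_MP_f1a94e_m.G06
import Pool.Agent.Lib_MP_f1a94e_m.G07
import Pool.Agent.Lib_MP_f1a94e_m.G09
import Pool.Agent.Lib_MP_f1a94e_m.G10

/-!
# MP_f1a94e_nt: merged library part G15

Concatenation of files of the libraries `Lib_MP_f1a94e_*` (each in its own section), only to save build time.
-/

/-! ### from `Lib_MP_f1a94e_eq.Clu` -/

section

/-!
# Piece CLU: sums over clusters
-/

set_option autoImplicit false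

namespace Pool.Agent.OmEq

open Finset Pool.Agent.GaussMR Pool.Agent.OmAll

theorem cs_insert (g : ℕ → ℂ) (w : ℝ → ℂ) (D : Finset ℕ) (p : ℕ) (hp : p ∉ D) (t : ℝ) :
    cs g w (insert p D) t = cs g w D t + g p * cs g w D (t - 2 * Real.log p) := by
  unfold cs
  rw [Finset.sum_powerset_insert hp, Finset.mul_sum]
  congr 1
  refine Finset.sum_congr rfl fun a ha => ?_
  have h1 : p ∉ a := fun h => hp (Finset.mem_powerset.mp ha h)
  have h2 : lg (insert p a) = Real.log p + lg a := by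
    unfold lg
    rw [Finset.sum_insert h1]
  rw [Finset.prod_insert h1, h2, mul_assoc]
  congr 3
  ring

/-- moving `γ` changes neither `dot` nor `det` -/
theorem clu_dot (γ U W : G) : dot (γ * U) W = dot U (star γ * W) := by
  have h1 : star (γ * U) * W = star U * (star γ * W) := by
    rw [star_mul, mul_assoc]
  rw [star_mul_eq, star_mul_eq] at h1
  exact congrArg Zsqrtd.re h1

theorem clu_prod (γ U W : G) : nm (γ * U) * nm W = nm U * nm (star γ * W) := by
  rw [nm_mul, nm_mul, nm_star]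
  ring

theorem clu_ds {E : Finset ℕ} {T : ℕ} {e e' : G × G} (h : nm e.1 * nm e.2 = nm e'.1 * nm e'.2) :
    ds E T e = ds E T e' := by
  unfold ds
  rw [h]

theorem clu_nm_ne {n : ℕ} (hn : 0 < n) {e : G × G} (h : En n e) : nm e.1 ≠ 0 ∧ nm e.2 ≠ 0 := by
  have h4 := dot_sq_add_det_sq e.1 e.2
  rw [h.1] at h4
  have hn' : (1 : ℤ) ≤ (n : ℤ) := by exact_mod_cast hn
  have h5 : (0 : ℤ) < (nm e.1 : ℤ) * nm e.2 := by
    rw [← h4]
    positivity
  have h6 : 0 < nm e.1 * nm e.2 := by exact_mod_cast h5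
  exact ⟨fun h0 => by rw [h0, zero_mul] at h6; exact lt_irrefl _ h6,
    fun h0 => by rw [h0, mul_zero] at h6; exact lt_irrefl _ h6⟩

open Classical in
/-- one step of the induction over the primes -/
theorem clu_step (n : ℕ) (hn : 0 < n) (E : Finset ℕ) (hE : n.primeFactors ⊆ E) (g : ℕ → ℂ) (Φ : G × G → ℂ)
    (hΦ : Cmp n E g Φ) (T : ℕ) (x : ℝ) (W : ℝ → ℝ → ℂ) (Q : Finset ℕ) (p : ℕ) (hpQ : p ∉ Q) (hp : p ∈ PE E T) :
    ∑ e ∈ (EN n x).filter (fun e => ∀ q ∈ ds E T e ∩ Q, ¬ q ∣ nm e.1),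
        Φ e * cs g (W (mE e)) (ds E T e ∩ Q) (tE e) =
      ∑ e ∈ (EN n x).filter (fun e => ∀ q ∈ ds E T e ∩ insert p Q, ¬ q ∣ nm e.1),
        Φ e * cs g (W (mE e)) (ds E T e ∩ insert p Q) (tE e) := by
  obtain ⟨-, hpp, hp4, hpE⟩ := mem_PE.mp hp
  have hpn : ¬ p ∣ n := fun h => hpE (hE (Nat.mem_primeFactors.mpr ⟨hpp, h, hn.ne'⟩))
  obtain ⟨φ, hbij, hφ⟩ := toggle n hn p hpp hp4 hpn
  -- split the left side
  have hL : (EN n x).filter (fun e => ∀ q ∈ ds E T e ∩ Q, ¬ q ∣ nm e.1) =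
      (EN n x).filter (fun e => ∀ q ∈ ds E T e ∩ insert p Q, ¬ q ∣ nm e.1) ∪
      (EN n x).filter (fun e => (∀ q ∈ ds E T e ∩ Q, ¬ q ∣ nm e.1) ∧ p ∈ ds E T e ∧ p ∣ nm e.1) := by
    ext e
    simp only [mem_filter, mem_union, mem_inter, mem_insert]
    constructor
    · rintro ⟨h1, h2⟩
      by_cases h3 : p ∈ ds E T e ∧ p ∣ nm e.1
      · exact Or.inr ⟨h1, h2, h3⟩
      · refine Or.inl ⟨h1, fun q hq => ?_⟩
        rcases hq.2 with rfl | h4
        · exact fun h5 => h3 ⟨hq.1, h5⟩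
        · exact h2 q ⟨hq.1, h4⟩
    · rintro (⟨h1, h2⟩ | ⟨h1, h2, -⟩)
      · exact ⟨h1, fun q hq => h2 q ⟨hq.1, Or.inr hq.2⟩⟩
      · exact ⟨h1, h2⟩
  have hdisj : Disjoint ((EN n x).filter (fun e => ∀ q ∈ ds E T e ∩ insert p Q, ¬ q ∣ nm e.1))
      ((EN n x).filter (fun e => (∀ q ∈ ds E T e ∩ Q, ¬ q ∣ nm e.1) ∧ p ∈ ds E T e ∧ p ∣ nm e.1)) := by
    rw [Finset.disjoint_left]
    intro e h1 h2
    rw [mem_filter] at h1 h2
    exact h1.2 p (mem_inter.mpr ⟨h2.2.2.1, mem_insert_self _ _⟩) h2.2.2.2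
  rw [hL, Finset.sum_union hdisj]
  -- the right side
  have hR : ∀ e : G × G, Φ e * cs g (W (mE e)) (ds E T e ∩ insert p Q) (tE e) =
      Φ e * cs g (W (mE e)) (ds E T e ∩ Q) (tE e) +
        if p ∈ ds E T e then Φ e * (g p * cs g (W (mE e)) (ds E T e ∩ Q) (tE e - 2 * Real.log p)) else 0 := by
    intro e
    by_cases h : p ∈ ds E T e
    · rw [if_pos h, Finset.inter_insert_of_mem h, cs_insert g _ _ p (fun h1 => hpQ (mem_inter.mp h1).2), mul_add]
    · rw [if_neg h, Finset.inter_insert_of_notMem h, add_zero]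
  rw [Finset.sum_congr rfl (fun e _ => hR e), Finset.sum_add_distrib, ← Finset.sum_filter]
  congr 1
  symm
  refine Finset.sum_nbij φ ?_ ?_ ?_ ?_
  · intro e he
    rw [mem_filter, mem_filter] at he
    obtain ⟨⟨h1, h2⟩, h3⟩ := he
    have h4 : p ∣ nm e.1 * nm e.2 ∧ ¬ p ^ 2 ∣ nm e.1 * nm e.2 := (mem_filter.mp h3).2
    have h5 : ¬ p ∣ nm e.1 := h2 p (mem_inter.mpr ⟨h3, mem_insert_self _ _⟩)
    have h6 : e ∈ Bp n p := ⟨((mem_EN hn).mp h1).1, (hpp.dvd_mul.mp h4.1).resolve_left h5, h4.2⟩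
    have h7 := hbij.mapsTo h6
    obtain ⟨γ, U, V, hγ, h8, h9⟩ := hφ e h6
    have h10 : nm (φ e).1 * nm (φ e).2 = nm e.1 * nm e.2 := by
      rw [h9, h8]
      exact clu_prod γ U V
    have h11 : ds E T (φ e) = ds E T e := clu_ds h10
    have h12 : mE (φ e) = mE e := by
      unfold mE
      rw [h9, h8]
      show ((dot (γ * U) V : ℤ) : ℝ) = ((dot U (star γ * V) : ℤ) : ℝ)
      rw [clu_dot]
    rw [mem_filter, mem_EN hn]
    refine ⟨⟨h7.1, ?_⟩, ?_, ?_, ?_⟩
    · rw [h12]
      exact ((mem_EN hn).mp h1).2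
    · intro q hq
      rw [h11] at hq
      obtain ⟨hq1, hq2⟩ := mem_inter.mp hq
      have hqp : q.Prime := (mem_PE.mp (mem_filter.mp hq1).1).2.1
      have h13 : ¬ q ∣ nm e.1 := h2 q (mem_inter.mpr ⟨hq1, mem_insert_of_mem hq2⟩)
      rw [h9]
      show ¬ q ∣ nm (γ * U)
      rw [nm_mul, hγ]
      intro h14
      rcases hqp.dvd_mul.mp h14 with h15 | h15
      · have h16 : q = p := (Nat.prime_dvd_prime_iff_eq hqp hpp).mp h15
        exact hpQ (h16 ▸ hq2)
      · rw [h8] at h13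
        exact h13 h15
    · rw [h11]
      exact h3
    · exact h7.2.1
  · intro e he e' he' hee
    rw [mem_coe, mem_filter, mem_filter] at he he'
    have key : ∀ e : G × G, ((e ∈ EN n x ∧ ∀ q ∈ ds E T e ∩ insert p Q, ¬ q ∣ nm e.1) ∧ p ∈ ds E T e) → e ∈ Bp n p := by
      rintro e ⟨⟨h1, h2⟩, h3⟩
      have h4 : p ∣ nm e.1 * nm e.2 ∧ ¬ p ^ 2 ∣ nm e.1 * nm e.2 := (mem_filter.mp h3).2
      have h5 : ¬ p ∣ nm e.1 := h2 p (mem_inter.mpr ⟨h3, mem_insert_self _ _⟩)
      exact ⟨((mem_EN hn).mp h1).1, (hpp.dvd_mul.mp h4.1).resolve_left h5, h4.2⟩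
    exact hbij.injOn (key e he) (key e' he') hee
  · intro e' he'
    rw [mem_coe, mem_filter] at he'
    obtain ⟨h1, h2, h3, h3'⟩ := he'
    have h4 : p ∣ nm e'.1 * nm e'.2 ∧ ¬ p ^ 2 ∣ nm e'.1 * nm e'.2 := (mem_filter.mp h3).2
    have h5 : e' ∈ Ap' n p := ⟨((mem_EN hn).mp h1).1, h3', h4.2⟩
    obtain ⟨e, h6, h7⟩ := hbij.surjOn h5
    obtain ⟨γ, U, V, hγ, h8, h9⟩ := hφ e h6
    have h10 : nm (φ e).1 * nm (φ e).2 = nm e.1 * nm e.2 := by
      rw [h9, h8]
      exact clu_prod γ U V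
    have h11 : ds E T (φ e) = ds E T e := clu_ds h10
    have h12 : mE (φ e) = mE e := by
      unfold mE
      rw [h9, h8]
      show ((dot (γ * U) V : ℤ) : ℝ) = ((dot U (star γ * V) : ℤ) : ℝ)
      rw [clu_dot]
    rw [h7] at h9 h10 h11 h12
    refine ⟨e, ?_, h7⟩
    rw [mem_coe, mem_filter, mem_filter, mem_EN hn]
    refine ⟨⟨⟨h6.1, ?_⟩, ?_⟩, ?_⟩
    · rw [← h12]
      exact ((mem_EN hn).mp h1).2
    · intro q hq
      rw [← h11] at hq
      obtain ⟨hq1, hq2⟩ := mem_inter.mp hq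
      rcases mem_insert.mp hq2 with rfl | hq2
      · intro h13
        refine h6.2.2 ?_
        rw [pow_two]
        exact mul_dvd_mul h13 h6.2.1
      · have h13 : ¬ q ∣ nm e'.1 := h2 q (mem_inter.mpr ⟨hq1, hq2⟩)
        intro h14
        apply h13
        rw [h9]
        show q ∣ nm (γ * U)
        rw [nm_mul]
        rw [h8] at h14
        exact Dvd.dvd.mul_left h14 _
    · rw [← h11]
      exact h3
  · intro e he
    rw [mem_filter, mem_filter] at he
    obtain ⟨⟨h1, h2⟩, h3⟩ := he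
    have h4 : p ∣ nm e.1 * nm e.2 ∧ ¬ p ^ 2 ∣ nm e.1 * nm e.2 := (mem_filter.mp h3).2
    have h5 : ¬ p ∣ nm e.1 := h2 p (mem_inter.mpr ⟨h3, mem_insert_self _ _⟩)
    have h6 : e ∈ Bp n p := ⟨((mem_EN hn).mp h1).1, (hpp.dvd_mul.mp h4.1).resolve_left h5, h4.2⟩
    have h7 := hbij.mapsTo h6
    obtain ⟨γ, U, V, hγ, h8, h9⟩ := hφ e h6
    have h10 : nm (φ e).1 * nm (φ e).2 = nm e.1 * nm e.2 := by
      rw [h9, h8]
      exact clu_prod γ U V
    have h11 : ds E T (φ e) = ds E T e := clu_ds h10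
    have h12 : mE (φ e) = mE e := by
      unfold mE
      rw [h9, h8]
      show ((dot (γ * U) V : ℤ) : ℝ) = ((dot U (star γ * V) : ℤ) : ℝ)
      rw [clu_dot]
    have h13 : tE (φ e) = tE e - 2 * Real.log p := by
      obtain ⟨h14, h15⟩ := clu_nm_ne hn h7.1
      have h16 : nm U ≠ 0 := by
        intro h0
        apply h14
        rw [h9]
        show nm (γ * U) = 0
        rw [nm_mul, h0, mul_zero]
      have h17 : nm V ≠ 0 := by
        rw [h9] at h15
        exact h15
      have h18 : (p : ℝ) ≠ 0 := by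
        exact_mod_cast hpp.ne_zero
      unfold tE
      rw [h9, h8]
      show Real.log (nm V) - Real.log (nm (γ * U)) = Real.log (nm (star γ * V)) - Real.log (nm U) - 2 * Real.log p
      rw [nm_mul, nm_mul, nm_star, hγ]
      push_cast
      rw [Real.log_mul h18 (by exact_mod_cast h16), Real.log_mul h18 (by exact_mod_cast h17)]
      ring
    have h14 : Φ (φ e) = g p * Φ e := by
      have h15 := hΦ.mv γ U V (by rw [hγ]; exact hpp) (by rw [hγ]; exact hp4) (by rw [hγ]; exact hpE)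
        (by rw [← h9]; exact h7.1) (by
          rw [hγ, clu_prod]
          have h16 := h6.2.2
          rw [h8] at h16
          exact h16)
      rw [h9, h8, h15, hγ]
    rw [h11, h12, h13, h14]
    ring

open Classical in
/-- PROOF. Induction over a subset `Q` of `PE E T`: with `b_Q e := ∀ p ∈ ds E T e ∩ Q, ¬ p ∣ nm e.1`, claim
`∑_(e ∈ EN n x) Φ e * W (dot e) (tE e) = ∑_(e ∈ EN n x, b_Q e) Φ e * ∑_(a ⊆ ds E T e ∩ Q) (∏_(p ∈ a) g p) * W (dot e) (tE e - 2 lg a)`.
`Q = ∅`: trivial. Step `Q → Q ∪ {p}`: the `e` with `b_Q` are of three kinds: `p ∉ ds e` (unchanged), `p ∈ ds e` and `p ∣ nm e.2` (then `p ∤ nm e.1`), `p ∈ ds e` and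
`p ∣ nm e.1`. `toggle` gives a bijection `φ` from the second kind to the third: for `e = (U, star γ W)`, `φ e = (γ U, W)`: same `dot`
(`star (γ U) * W = star U * (star γ * W)`, `star_mul_eq`), same product `nm e.1 * nm e.2`, so the same `ds`, membership in `EN` is preserved, the condition `b_Q` too
(for `q ≠ p`, `q ∣ nm (γ U) = p nm U` iff `q ∣ nm U`), `tE (φ e) = tE e - 2 log p` and `Φ (φ e) = g p * Φ e` (`Cmp.mv`; `p ∉ E`, `p % 4 = 1`). So the sum over the
third kind equals the sum over `e` of the second kind of `Φ e * ∑_(a ⊆ ds e ∩ Q) g p * (∏_(q ∈ a) g q) * W (dot e) (tE e - 2 log p - 2 lg a)`, i.e. the terms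
`a ∪ {p}` of the new sum. (`lg (insert p a) = log p + lg a`, `Finset.sum_powerset_insert` or `Finset.prod_add` type lemmas.) At the end `Q = PE E T`
and `ds E T e ∩ PE E T = ds E T e`. -/
theorem cluster (n : ℕ) (hn : 0 < n) (E : Finset ℕ) (hE : n.primeFactors ⊆ E) (g : ℕ → ℂ) (Φ : G × G → ℂ)
    (hΦ : Cmp n E g Φ) (T : ℕ) (x : ℝ) (W : ℝ → ℝ → ℂ) :
    ∑ e ∈ EN n x, Φ e * W (mE e) (tE e) =
      ∑ e ∈ (EN n x).filter (bs E T), Φ e * cs g (W (mE e)) (ds E T e) (tE e) := by
  have key : ∀ Q : Finset ℕ, Q ⊆ PE E T → ∑ e ∈ EN n x, Φ e * W (mE e) (tE e) =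
      ∑ e ∈ (EN n x).filter (fun e => ∀ q ∈ ds E T e ∩ Q, ¬ q ∣ nm e.1),
        Φ e * cs g (W (mE e)) (ds E T e ∩ Q) (tE e) := by
    intro Q
    induction Q using Finset.induction_on with
    | empty =>
      intro _
      have h1 : (EN n x).filter (fun e => ∀ q ∈ ds E T e ∩ (∅ : Finset ℕ), ¬ q ∣ nm e.1) = EN n x := by
        refine Finset.filter_true_of_mem fun e _ q hq => ?_
        rw [Finset.inter_empty] at hq
        exact absurd hq (Finset.notMem_empty q)
      rw [h1]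
      refine Finset.sum_congr rfl fun e _ => ?_
      rw [Finset.inter_empty]
      unfold cs
      rw [Finset.powerset_empty, Finset.sum_singleton, Finset.prod_empty, one_mul]
      unfold lg
      rw [Finset.sum_empty, mul_zero, sub_zero]
    | insert p Q hpQ ih =>
      intro hQ
      rw [ih (fun q hq => hQ (mem_insert_of_mem hq))]
      exact clu_step n hn E hE g Φ hΦ T x W Q p hpQ (hQ (mem_insert_self _ _))
  rw [key (PE E T) (Finset.Subset.refl _)]
  have h2 : ∀ e : G × G, ds E T e ∩ PE E T = ds E T e := fun e =>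
    Finset.inter_eq_left.mpr (Finset.filter_subset _ _)
  refine Finset.sum_congr ?_ fun e _ => ?_
  · refine Finset.filter_congr fun e _ => ?_
    rw [h2]
    exact Iff.rfl
  · rw [h2]

end Pool.Agent.OmEq

end

/-! ### from `Lib_MP_f1a94e_aq.Planch` -/

section

/-!
# Piece PLANCH: correlations of the kernel difference
-/

set_option autoImplicit false

namespace Pool.Agent.OmAll

open MeasureTheory

theorem hh_cont (a b : ℝ) : Continuous (hh a b) := by
  unfold hh
  fun_prop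

theorem hh_even (a b τ : ℝ) : hh a b (-τ) = hh a b τ := by
  unfold hh
  rw [abs_neg]

/-- `|hh a b τ| ≤ |τ| / a`, and `hh a b τ = 0` for `|τ| ≥ b` (`a ≤ b`) -/
theorem hh_le (a b τ : ℝ) (ha : 0 < a) (hab : a ≤ b) : |hh a b τ| ≤ |τ| / a := by
  have hb : 0 < b := ha.trans_le hab
  have h1 : |τ| / b ≤ |τ| / a := div_le_div_of_nonneg_left (abs_nonneg τ) ha hab
  have h2 : 0 ≤ |τ| / b := by positivity
  have h3 : 0 ≤ |τ| / a := by positivity
  unfold hh
  rw [abs_le]
  constructor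
  · rcases le_total (1 - |τ| / b) 0 with h | h
    · rw [max_eq_right h]
      have := le_max_right (1 - |τ| / a) 0
      linarith
    · rw [max_eq_left h]
      have := le_max_left (1 - |τ| / a) 0
      linarith
  · rcases le_total (1 - |τ| / a) 0 with h | h
    · rw [max_eq_right h]
      have := le_max_right (1 - |τ| / b) 0
      linarith
    · rw [max_eq_left h]
      have := le_max_left (1 - |τ| / b) 0
      linarith

theorem hh_zero (a b τ : ℝ) (ha : 0 < a) (hab : a ≤ b) (hτ : b ≤ |τ|) : hh a b τ = 0 := by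
  have hb : 0 < b := ha.trans_le hab
  have h1 : 1 ≤ |τ| / b := by rwa [le_div_iff₀ hb, one_mul]
  have h2 : 1 ≤ |τ| / a := by
    rw [le_div_iff₀ ha, one_mul]
    exact hab.trans hτ
  unfold hh
  rw [max_eq_right (by linarith), max_eq_right (by linarith), sub_zero]

/-- the Fourier transform of the triangle function -/
theorem Planch_Kf (a t : ℝ) (ha : 0 < a) :
    Integrable (fun τ => max (1 - |τ| / a) 0 * Real.cos (τ * t)) ∧
      Kf a t = ∫ τ, max (1 - |τ| / a) 0 * Real.cos (τ * t) := by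
  have hcont : Continuous (fun τ : ℝ => max (1 - |τ| / a) 0 * Real.cos (τ * t)) := by fun_prop
  have hzero : ∀ τ : ℝ, a ≤ |τ| → max (1 - |τ| / a) 0 = 0 := by
    intro τ h
    apply max_eq_right
    have : 1 ≤ |τ| / a := by rwa [le_div_iff₀ ha, one_mul]
    linarith
  constructor
  · apply hcont.integrable_of_hasCompactSupport
    apply HasCompactSupport.of_support_subset_isCompact (isCompact_Icc (a := -a) (b := a))
    intro τ hτ
    rw [Function.mem_support] at hτ
    rw [Set.mem_Icc, ← abs_le]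
    by_contra h
    apply hτ
    rw [hzero τ (not_le.1 h).le, zero_mul]
  · have h1 : (fun τ : ℝ => max (1 - |τ| / a) 0 * Real.cos (τ * t)) =
        fun τ => (fun u => max (1 - u / a) 0 * Real.cos (u * t)) |τ| := by
      funext τ
      have : Real.cos (|τ| * t) = Real.cos (τ * t) := by
        rcases abs_choice τ with h | h
        · rw [h]
        · rw [h, neg_mul, Real.cos_neg]
      simp only [this]
    rw [h1, integral_comp_abs (f := fun u => max (1 - u / a) 0 * Real.cos (u * t))]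
    have h2 : ∫ u in Set.Ioi (0 : ℝ), max (1 - u / a) 0 * Real.cos (u * t) =
        ∫ u in Set.Ioc 0 a, max (1 - u / a) 0 * Real.cos (u * t) := by
      apply setIntegral_eq_of_subset_of_forall_sdiff_eq_zero measurableSet_Ioi
        Set.Ioc_subset_Ioi_self
      rintro u ⟨hu1, hu2⟩
      have hu3 : a < u := by
        by_contra h
        exact hu2 ⟨hu1, not_lt.1 h⟩
      have h3 := hzero u (by rw [abs_of_pos hu1]; exact hu3.le)
      rw [abs_of_pos hu1] at h3
      rw [h3, zero_mul]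
    rw [h2, ← intervalIntegral.integral_of_le ha.le]
    have h3 : ∫ u in (0 : ℝ)..a, max (1 - u / a) 0 * Real.cos (u * t) =
        ∫ u in (0 : ℝ)..a, (1 - u / a) * Real.cos (u * t) := by
      apply intervalIntegral.integral_congr
      intro u hu
      rw [Set.uIcc_of_le ha.le] at hu
      simp only
      rw [max_eq_left]
      have : u / a ≤ 1 := by rw [div_le_one ha]; exact hu.2
      linarith
    rw [h3]
    unfold Kf
    by_cases ht : t = 0
    · subst ht
      have h4 : ∀ u : ℝ, HasDerivAt (fun u => u - u ^ 2 / (2 * a)) ((1 - u / a) * Real.cos (u * 0)) u := by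
        intro u
        have := (hasDerivAt_id u).sub (((hasDerivAt_pow 2 u)).div_const (2 * a))
        refine this.congr_deriv ?_
        simp
        field_simp
      rw [intervalIntegral.integral_eq_sub_of_hasDerivAt (fun u _ => h4 u)
        (Continuous.intervalIntegrable (by fun_prop) _ _)]
      simp
      field_simp
      norm_num
    · have h4 : ∀ u : ℝ, HasDerivAt
          (fun u => (1 - u / a) * Real.sin (u * t) / t - Real.cos (u * t) / (a * t ^ 2))
          ((1 - u / a) * Real.cos (u * t)) u := by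
        intro u
        have e1 : HasDerivAt (fun u => u * t) t u := by simpa using (hasDerivAt_id u).mul_const t
        have e2 : HasDerivAt (fun u => 1 - u / a) (-(1 / a)) u := by
          simpa using ((hasDerivAt_id u).div_const a).const_sub 1
        have e3 := ((e2.mul e1.sin).div_const t).sub ((e1.cos).div_const (a * t ^ 2))
        refine e3.congr_deriv ?_
        field_simp
        ring
      rw [intervalIntegral.integral_eq_sub_of_hasDerivAt (fun u _ => h4 u)
        (Continuous.intervalIntegrable (by fun_prop) _ _)]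
      have h5 : a * t / 2 ≠ 0 := by positivity
      rw [Real.sinc_of_ne_zero h5]
      have h6 : Real.cos (a * t) = 1 - 2 * Real.sin (a * t / 2) ^ 2 := by
        have := Real.cos_two_mul (a * t / 2)
        rw [show 2 * (a * t / 2) = a * t by ring] at this
        rw [this, Real.cos_sq']
        ring
      simp only [zero_div, sub_zero, zero_mul, Real.sin_zero, mul_zero, Real.cos_zero,
        div_self ha.ne', sub_self]
      rw [h6]
      field_simp
      ring

/-- `Kf a t = ∫_(-a)^a (1 - |τ|/a) cos (τ t) dτ` (explicit antiderivative on `[0, a]`: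
`(1 - τ/a) sin (τ t) / t - cos (τ t) / (a t^2)`; for `t = 0` both sides are `a`), and subtract. -/
theorem Hf_eq (a b t : ℝ) (ha : 0 < a) (hab : a ≤ b) : Hf a b t = ∫ τ, hh a b τ * Real.cos (τ * t) := by
  obtain ⟨h1, h2⟩ := Planch_Kf a t ha
  obtain ⟨h3, h4⟩ := Planch_Kf b t (ha.trans_le hab)
  unfold Hf
  rw [h2, h4, ← integral_sub h1 h3]
  congr 1
  funext τ
  unfold hh
  ring

theorem Planch_supp (a b : ℝ) (ha : 0 < a) (hab : a ≤ b) : HasCompactSupport (hh a b) := by
  apply HasCompactSupport.of_support_subset_isCompact (isCompact_Icc (a := -b) (b := b))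
  intro τ hτ
  rw [Function.mem_support] at hτ
  rw [Set.mem_Icc, ← abs_le]
  by_contra h
  exact hτ (hh_zero a b τ ha hab (not_le.1 h).le)

theorem Planch_int (a b : ℝ) (ha : 0 < a) (hab : a ≤ b) {g : ℝ → ℂ} (hg : Continuous g) :
    Integrable (fun τ => (hh a b τ : ℂ) * g τ) := by
  have h1 : Continuous (fun τ => (hh a b τ : ℂ) * g τ) :=
    (Complex.continuous_ofReal.comp (hh_cont a b)).mul hg
  apply h1.integrable_of_hasCompactSupport
  have h2 : HasCompactSupport (fun τ => (hh a b τ : ℂ)) :=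
    (Planch_supp a b ha hab).comp_left (g := fun x : ℝ => (x : ℂ)) Complex.ofReal_zero
  exact h2.mul_right

theorem Planch_FT (a b t : ℝ) (ha : 0 < a) (hab : a ≤ b) :
    ∫ τ, (hh a b τ : ℂ) * Complex.exp (((-(τ * t) : ℝ) : ℂ) * Complex.I) = (Hf a b t : ℂ) := by
  have hint := Planch_int a b ha hab (g := fun τ => Complex.exp (((-(τ * t) : ℝ) : ℂ) * Complex.I))
    (by fun_prop)
  have hre : ∀ τ : ℝ, ((hh a b τ : ℂ) * Complex.exp (((-(τ * t) : ℝ) : ℂ) * Complex.I)).re =
      hh a b τ * Real.cos (τ * t) := by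
    intro τ
    rw [Complex.re_ofReal_mul, Complex.exp_ofReal_mul_I_re, Real.cos_neg]
  have him : ∀ τ : ℝ, ((hh a b τ : ℂ) * Complex.exp (((-(τ * t) : ℝ) : ℂ) * Complex.I)).im =
      -(hh a b τ * Real.sin (τ * t)) := by
    intro τ
    rw [Complex.im_ofReal_mul, Complex.exp_ofReal_mul_I_im, Real.sin_neg]
    ring
  have h1 := integral_re_add_im hint
  have h2 : ∫ τ, RCLike.re ((hh a b τ : ℂ) * Complex.exp (((-(τ * t) : ℝ) : ℂ) * Complex.I)) =
      Hf a b t := by
    rw [Hf_eq a b t ha hab]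
    exact integral_congr_ae (Filter.Eventually.of_forall hre)
  have h3 : ∫ τ, RCLike.im ((hh a b τ : ℂ) * Complex.exp (((-(τ * t) : ℝ) : ℂ) * Complex.I)) =
      0 := by
    have h4 : ∫ τ, RCLike.im ((hh a b τ : ℂ) *
        Complex.exp (((-(τ * t) : ℝ) : ℂ) * Complex.I)) =
        ∫ τ, -(hh a b τ * Real.sin (τ * t)) :=
      integral_congr_ae (Filter.Eventually.of_forall him)
    rw [h4]
    have h5 := integral_neg_eq_self (fun τ => -(hh a b τ * Real.sin (τ * t))) volume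
    have h6 : ∫ τ, -(hh a b (-τ) * Real.sin (-τ * t)) =
        - ∫ τ, -(hh a b τ * Real.sin (τ * t)) := by
      rw [← integral_neg]
      congr 1
      funext τ
      rw [hh_even, neg_mul, Real.sin_neg]
      ring
    rw [h6] at h5
    linarith
  rw [h2, h3] at h1
  rw [← h1]
  simp

theorem Planch_Hf_int (a b : ℝ) (ha : 0 < a) (hab : a ≤ b) : Integrable (Hf a b) := by
  have h1 : Integrable (fun t : ℝ => (4 * b + 16 / a) * (1 + t ^ 2)⁻¹) :=
    integrable_inv_one_add_sq.const_mul _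
  refine h1.mono' (Hf_cont a b).aestronglyMeasurable (Filter.Eventually.of_forall fun t => ?_)
  rw [Real.norm_eq_abs, ← div_eq_mul_inv]
  exact Hf_le a b t ha hab

open FourierTransform in
/-- `H = Hf a b` is continuous and integrable (`Hf_le`), `h = hh a b` is continuous with compact support, even, and
`H t = ∫ h τ e^(i τ t) dτ`, i.e. `H (2 π x) = 𝓕⁻ h x`-type formula with Mathlib's normalisation. Fourier inversion (Mathlib:
`MeasureTheory.Integrable.fourierInv_fourier_eq` or `Continuous.fourierInv_fourier_eq`) gives `∫ H t e^(i τ t) dt = 2 π h τ`.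
Then Fubini: `∫ H t H (t + u) dt = ∫ H t ∫ h τ cos (τ (t + u)) dτ dt = ∫ h τ (cos (τ u) 2 π h τ - sin (τ u) * 0) dτ`
(`∫ H t sin (τ t) dt = 0`, `H` even). -/
theorem planch (a b u : ℝ) (ha : 0 < a) (hab : a ≤ b) :
    ∫ t, Hf a b t * Hf a b (t + u) = 2 * Real.pi * ∫ τ, hh a b τ ^ 2 * Real.cos (τ * u) := by
  have hpi : (0 : ℝ) < 2 * Real.pi := by positivity
  set F1 : ℝ → ℂ := fun τ => (hh a b τ : ℂ) * Complex.exp (((-(τ * u) : ℝ) : ℂ) * Complex.I)
    with hF1
  set F2 : ℝ → ℂ := fun τ => (hh a b τ : ℂ) with hF2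
  have hF1i : Integrable F1 := Planch_int a b ha hab (by fun_prop)
  have hF2i : Integrable F2 := by
    have := Planch_int a b ha hab (g := fun _ => (1 : ℂ)) continuous_const
    simpa using this
  have hF2c : Continuous F2 := Complex.continuous_ofReal.comp (hh_cont a b)
  have e1 : ∀ w : ℝ, 𝓕 F1 w = (Hf a b (2 * Real.pi * w + u) : ℂ) := by
    intro w
    rw [Real.fourier_real_eq_integral_exp_smul, ← Planch_FT a b _ ha hab]
    congr 1
    funext τ
    rw [hF1, smul_eq_mul, mul_left_comm, ← Complex.exp_add]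
    congr 2
    push_cast
    ring
  have e2 : ∀ w : ℝ, 𝓕 F2 w = (Hf a b (2 * Real.pi * w) : ℂ) := by
    intro w
    rw [Real.fourier_real_eq_integral_exp_smul, ← Planch_FT a b _ ha hab]
    congr 1
    funext τ
    rw [hF2, smul_eq_mul, mul_comm]
    congr 2
    push_cast
    ring
  have e3 : Integrable (𝓕 F2) := by
    have h1 : 𝓕 F2 = fun w => ((Hf a b (2 * Real.pi * w) : ℝ) : ℂ) := funext e2
    rw [h1]
    exact ((Planch_Hf_int a b ha hab).comp_mul_left' hpi.ne').ofReal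
  have e4 : ∀ x : ℝ, 𝓕 (𝓕 F2) x = (hh a b x : ℂ) := by
    intro x
    have h1 := congrFun (hF2c.fourierInv_fourier_eq hF2i e3) (-x)
    rw [Real.fourierInv_eq_fourier_neg, neg_neg] at h1
    rw [h1, hF2]
    simp only
    rw [hh_even]
  have key : ∫ ξ, 𝓕 F1 ξ • 𝓕 F2 ξ = ∫ x, F1 x • 𝓕 (𝓕 F2) x := by
    have := VectorFourier.integral_fourierIntegral_smul_eq_flip (L := innerₗ ℝ)
      Real.continuous_fourierChar continuous_inner hF1i e3
    rw [flip_innerₗ] at this
    exact this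
  simp only [e1, e2, e4, smul_eq_mul] at key
  have k1 : ∫ ξ : ℝ, ((Hf a b (2 * Real.pi * ξ + u) : ℝ) : ℂ) * ((Hf a b (2 * Real.pi * ξ) : ℝ) : ℂ) =
      (((2 * Real.pi)⁻¹ * ∫ t, Hf a b t * Hf a b (t + u) : ℝ) : ℂ) := by
    have h1 := Measure.integral_comp_mul_left (fun t => Hf a b t * Hf a b (t + u)) (2 * Real.pi)
    rw [abs_of_pos (inv_pos.2 hpi), smul_eq_mul] at h1
    have h2 := integral_complex_ofReal
      (f := fun x => Hf a b (2 * Real.pi * x) * Hf a b (2 * Real.pi * x + u)) (μ := volume)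
    rw [← h1, ← h2]
    congr 1
    funext ξ
    push_cast
    ring
  rw [k1] at key
  have k2 := congrArg Complex.re key
  rw [Complex.ofReal_re] at k2
  have k3 : (∫ x, F1 x * (hh a b x : ℂ)).re = ∫ τ, hh a b τ ^ 2 * Real.cos (τ * u) := by
    have hint : Integrable (fun x => F1 x * (hh a b x : ℂ)) := by
      have := Planch_int a b ha hab (g := fun τ =>
        Complex.exp (((-(τ * u) : ℝ) : ℂ) * Complex.I) * (hh a b τ : ℂ)) (by
          have := Complex.continuous_ofReal.comp (hh_cont a b)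
          fun_prop)
      refine this.congr (Filter.Eventually.of_forall fun τ => ?_)
      simp only [hF1]
      ring
    have h1 := integral_re hint
    have h2 : (∫ x, F1 x * (hh a b x : ℂ)).re = ∫ x, RCLike.re (F1 x * (hh a b x : ℂ)) := h1.symm
    rw [h2]
    congr 1
    funext τ
    change (F1 τ * (hh a b τ : ℂ)).re = _
    rw [hF1]
    simp only
    rw [Complex.re_mul_ofReal, Complex.re_ofReal_mul, Complex.exp_ofReal_mul_I_re, Real.cos_neg]
    ring
  rw [k3] at k2
  rw [← k2]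
  field_simp

end Pool.Agent.OmAll

end

/-! ### from `Lib_MP_f1a94e_eq.Mol` -/

section

/-!
# Piece MOL: approximation by band limited functions
-/

set_option autoImplicit false

namespace Pool.Agent.OmEq

open Finset Pool.Agent.OmAll MeasureTheory

theorem mol_kle (a v : ℝ) (ha : 0 < a) : Kf a v * (1 + v ^ 2) ≤ a + 4 / a := by
  have h1 := Kf_le a v ha.le
  have h2 := Kf_nonneg a v ha.le
  have h3 : Kf a v * v ^ 2 ≤ 4 / a := by
    by_cases hv : v = 0
    · rw [hv]
      have : 0 < 4 / a := by positivity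
      simpa using this.le
    · have h4 := Kf_le_sq a v ha hv
      have hv2 : 0 < v ^ 2 := by positivity
      calc Kf a v * v ^ 2 ≤ 4 / (a * v ^ 2) * v ^ 2 := mul_le_mul_of_nonneg_right h4 hv2.le
        _ = 4 / a := by field_simp
  nlinarith

theorem mol_kint : Integrable (Kf 1) := by
  have h1 : Integrable (fun v : ℝ => 5 * (1 + v ^ 2)⁻¹) := integrable_inv_one_add_sq.const_mul 5
  refine h1.mono' (Kf_cont 1).aestronglyMeasurable (Filter.Eventually.of_forall fun v => ?_)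
  rw [Real.norm_eq_abs, abs_of_nonneg (Kf_nonneg 1 v zero_le_one)]
  have h2 := mol_kle 1 v one_pos
  have h3 : (0 : ℝ) < 1 + v ^ 2 := by positivity
  rw [← div_eq_mul_inv, le_div_iff₀ h3]
  linarith

/-- the normalising constant -/
noncomputable def molI : ℝ := ∫ v, Kf 1 v

theorem molI_pos : 0 < molI := by
  refine integral_pos_of_integrable_nonneg_nonzero (x := 0) (Kf_cont 1) mol_kint
    (fun v => Kf_nonneg 1 v zero_le_one) ?_
  unfold Kf
  simp

/-- the normalised kernel -/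
noncomputable def molK (v : ℝ) : ℝ := Kf 1 v / molI

theorem molK_cont : Continuous molK := (Kf_cont 1).div_const _

theorem molK_nonneg (v : ℝ) : 0 ≤ molK v := div_nonneg (Kf_nonneg 1 v zero_le_one) molI_pos.le

theorem molK_int : Integrable molK := mol_kint.div_const _

theorem molK_one : ∫ v, molK v = 1 := by
  unfold molK
  rw [integral_div]
  exact div_self molI_pos.ne'

theorem molK_sq (v : ℝ) : molK v * v ^ 2 ≤ 4 / molI := by
  have h : Kf 1 v * v ^ 2 ≤ 4 := by
    by_cases hv : v = 0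
    · rw [hv]
      norm_num
    · have h4 := Kf_le_sq 1 v one_pos hv
      have hv2 : 0 < v ^ 2 := by positivity
      calc Kf 1 v * v ^ 2 ≤ 4 / (1 * v ^ 2) * v ^ 2 := mul_le_mul_of_nonneg_right h4 hv2.le
        _ = 4 := by field_simp
  unfold molK
  rw [div_mul_eq_mul_div]
  exact div_le_div_of_nonneg_right h molI_pos.le

/-- the mollified function -/
noncomputable def molPsi (w : ℝ → ℂ) (b t : ℝ) : ℂ := ∫ v, ((molK v : ℝ) : ℂ) * w (t - v / b)

theorem mol_bound (w : ℝ → ℂ) (hw : Continuous w) (hwi : Integrable w) (A M b t : ℝ) (hb : 1 ≤ b)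
    (hA : ∀ s, A < |s| → w s = 0) (hM : ∀ s, ‖w s‖ ≤ M) :
    ‖molPsi w b t‖ * (1 + t ^ 2) ≤ 2 * (1 + A ^ 2) * (M + 4 / molI * ∫ s, ‖w s‖) := by
  have hb0 : 0 < b := by linarith
  have hI := molI_pos
  set W := ∫ s, ‖w s‖ with hW
  have hW0 : 0 ≤ W := integral_nonneg fun s => norm_nonneg _
  have e1 : (∫ v, ‖w (t - v / b)‖) = b * W := by
    rw [Measure.integral_comp_div (fun x => ‖w (t - x)‖) b, abs_of_pos hb0, smul_eq_mul,
      integral_sub_left_eq_self (fun x => ‖w x‖) volume t]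
  have i1 : Integrable (fun v => ‖w (t - v / b)‖) :=
    ((hwi.comp_sub_left t).comp_div hb0.ne').norm
  have key : ∀ v : ℝ, (1 + t ^ 2) * (molK v * ‖w (t - v / b)‖) ≤
      2 * (1 + A ^ 2) * (M * molK v + 4 / molI / b ^ 2 * ‖w (t - v / b)‖) := by
    intro v
    have hk := molK_nonneg v
    have hn := norm_nonneg (w (t - v / b))
    by_cases hv : A < |t - v / b|
    · rw [hA _ hv, norm_zero, mul_zero, mul_zero, mul_zero, add_zero]
      have hM0 : 0 ≤ M := (norm_nonneg _).trans (hM 0)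
      positivity
    · push Not at hv
      have h1 : (t - v / b) ^ 2 ≤ A ^ 2 := by
        rw [← sq_abs (t - v / b)]
        exact pow_le_pow_left₀ (abs_nonneg _) hv 2
      have h2 : 1 + t ^ 2 ≤ 2 * (1 + A ^ 2) * (1 + (v / b) ^ 2) := by
        nlinarith [sq_nonneg (t - v / b - v / b), sq_nonneg (A * (v / b)), sq_nonneg (v / b),
          sq_nonneg A]
      have h3 : molK v * (v / b) ^ 2 ≤ 4 / molI / b ^ 2 := by
        have h4 := molK_sq v
        rw [div_pow, ← mul_div_assoc]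
        exact div_le_div_of_nonneg_right h4 (by positivity)
      calc (1 + t ^ 2) * (molK v * ‖w (t - v / b)‖)
          ≤ (2 * (1 + A ^ 2) * (1 + (v / b) ^ 2)) * (molK v * ‖w (t - v / b)‖) :=
            mul_le_mul_of_nonneg_right h2 (by positivity)
        _ = 2 * (1 + A ^ 2) * (molK v * ‖w (t - v / b)‖ +
              molK v * (v / b) ^ 2 * ‖w (t - v / b)‖) := by ring
        _ ≤ 2 * (1 + A ^ 2) * (M * molK v + 4 / molI / b ^ 2 * ‖w (t - v / b)‖) := by
            refine mul_le_mul_of_nonneg_left (add_le_add ?_ ?_) (by positivity)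
            · rw [mul_comm M]
              exact mul_le_mul_of_nonneg_left (hM _) hk
            · exact mul_le_mul_of_nonneg_right h3 hn
  have i2 : Integrable (fun v => molK v * ‖w (t - v / b)‖) := by
    refine (molK_int.mul_const M).mono' ?_ (Filter.Eventually.of_forall fun v => ?_)
    · have := molK_cont
      exact Continuous.aestronglyMeasurable (by fun_prop)
    · rw [norm_mul, norm_norm, Real.norm_eq_abs, abs_of_nonneg (molK_nonneg v)]
      exact mul_le_mul_of_nonneg_left (hM _) (molK_nonneg v)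
  have h5 : ‖molPsi w b t‖ ≤ ∫ v, molK v * ‖w (t - v / b)‖ := by
    unfold molPsi
    refine (norm_integral_le_integral_norm _).trans (le_of_eq ?_)
    refine integral_congr_ae (Filter.Eventually.of_forall fun v => ?_)
    simp only [norm_mul, Complex.norm_real, Real.norm_eq_abs, abs_of_nonneg (molK_nonneg v)]
  calc ‖molPsi w b t‖ * (1 + t ^ 2) ≤ (∫ v, molK v * ‖w (t - v / b)‖) * (1 + t ^ 2) :=
        mul_le_mul_of_nonneg_right h5 (by positivity)
    _ = ∫ v, (1 + t ^ 2) * (molK v * ‖w (t - v / b)‖) := by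
        rw [integral_const_mul, mul_comm]
    _ ≤ ∫ v, 2 * (1 + A ^ 2) * (M * molK v + 4 / molI / b ^ 2 * ‖w (t - v / b)‖) := by
        refine integral_mono (i2.const_mul _) ?_ key
        exact ((molK_int.const_mul _).add (i1.const_mul _)).const_mul _
    _ = 2 * (1 + A ^ 2) * (M + 4 / molI / b ^ 2 * (b * W)) := by
        rw [integral_const_mul, integral_add (molK_int.const_mul _) (i1.const_mul _),
          integral_const_mul, integral_const_mul, molK_one, e1, mul_one]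
    _ ≤ 2 * (1 + A ^ 2) * (M + 4 / molI * W) := by
        refine mul_le_mul_of_nonneg_left (add_le_add le_rfl ?_) (by positivity)
        have h6 : 4 / molI / b ^ 2 * (b * W) = (4 / molI * W) / b := by
          field_simp
        rw [h6]
        exact div_le_self (by positivity) hb

theorem mol_tend (w : ℝ → ℂ) (hw : Continuous w) (M t : ℝ) (hM : ∀ s, ‖w s‖ ≤ M) :
    Filter.Tendsto (fun n : ℕ => molPsi w ((n : ℝ) + 1) t) Filter.atTop (nhds (w t)) := by
  have e : w t = ∫ v, ((molK v : ℝ) : ℂ) * w t := by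
    rw [integral_mul_const, integral_complex_ofReal, molK_one]
    simp
  rw [e]
  unfold molPsi
  refine tendsto_integral_of_dominated_convergence (fun v => molK v * M) (fun n => ?_)
    (molK_int.mul_const M) (fun n => Filter.Eventually.of_forall fun v => ?_)
    (Filter.Eventually.of_forall fun v => ?_)
  · have := molK_cont
    exact Continuous.aestronglyMeasurable (by fun_prop)
  · rw [norm_mul, Complex.norm_real, Real.norm_eq_abs, abs_of_nonneg (molK_nonneg v)]
    exact mul_le_mul_of_nonneg_left (hM _) (molK_nonneg v)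
  · refine Filter.Tendsto.const_mul _ ?_
    have h1 : Filter.Tendsto (fun n : ℕ => t - v / ((n : ℝ) + 1)) Filter.atTop (nhds (t - 0)) := by
      refine tendsto_const_nhds.sub ?_
      have h2 := (tendsto_one_div_add_atTop_nhds_zero_nat (𝕜 := ℝ)).const_mul v
      rw [mul_zero] at h2
      refine h2.congr (fun n => ?_)
      rw [mul_one_div]
    rw [sub_zero] at h1
    exact (hw.tendsto t).comp h1

/-- the Fourier transform -/
noncomputable def molF (w : ℝ → ℂ) (τ : ℝ) : ℂ :=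
  ∫ s, w s * Complex.exp (((-(τ * s) : ℝ) : ℂ) * Complex.I)

theorem molF_cont (w : ℝ → ℂ) (hw : Continuous w) (hwi : Integrable w) : Continuous (molF w) := by
  unfold molF
  refine continuous_of_dominated (bound := fun s => ‖w s‖) (fun τ => ?_)
    (fun τ => Filter.Eventually.of_forall fun s => ?_) hwi.norm
    (Filter.Eventually.of_forall fun s => ?_)
  · exact Continuous.aestronglyMeasurable (by fun_prop)
  · rw [norm_mul, Complex.norm_exp_ofReal_mul_I, mul_one]
  · fun_prop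

/-- the Fourier transform of the mollified function -/
noncomputable def molPhi (w : ℝ → ℂ) (b τ : ℝ) : ℂ :=
  ((max (1 - |τ| / b) 0 / molI : ℝ) : ℂ) * molF w τ

theorem molPhi_cont (w : ℝ → ℂ) (hw : Continuous w) (hwi : Integrable w) (b : ℝ) :
    Continuous (molPhi w b) := by
  unfold molPhi
  have := molF_cont w hw hwi
  fun_prop

theorem mol_tri_zero (b τ : ℝ) (hb : 0 < b) (h : b ≤ |τ|) : max (1 - |τ| / b) 0 = 0 := by
  apply max_eq_right
  have : 1 ≤ |τ| / b := by rwa [le_div_iff₀ hb, one_mul]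
  linarith

theorem molPhi_zero (w : ℝ → ℂ) (b τ : ℝ) (hb : 0 < b) (h : b ≤ |τ|) : molPhi w b τ = 0 := by
  unfold molPhi
  rw [mol_tri_zero b τ hb h]
  simp

theorem mol_tri_exp (b u : ℝ) (hb : 0 < b) :
    ((Kf b u : ℝ) : ℂ) = ∫ τ : ℝ, ((max (1 - |τ| / b) 0 : ℝ) : ℂ) *
      Complex.exp (((τ * u : ℝ) : ℂ) * Complex.I) := by
  have hc : Continuous (fun τ : ℝ => max (1 - |τ| / b) 0) := by fun_prop
  have hs : HasCompactSupport (fun τ : ℝ => max (1 - |τ| / b) 0) := by
    apply HasCompactSupport.of_support_subset_isCompact (isCompact_Icc (a := -b) (b := b))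
    intro τ hτ
    rw [Function.mem_support] at hτ
    rw [Set.mem_Icc, ← abs_le]
    by_contra h
    exact hτ (mol_tri_zero b τ hb (not_le.1 h).le)
  have i1 : Integrable (fun τ : ℝ => max (1 - |τ| / b) 0 * Real.cos (τ * u)) :=
    (Planch_Kf b u hb).1
  have i2 : Integrable (fun τ : ℝ => max (1 - |τ| / b) 0 * Real.sin (τ * u)) :=
    Continuous.integrable_of_hasCompactSupport (by fun_prop) hs.mul_right
  have e0 : ∫ τ : ℝ, max (1 - |τ| / b) 0 * Real.sin (τ * u) = 0 := by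
    have h1 := integral_neg_eq_self (fun τ : ℝ => max (1 - |τ| / b) 0 * Real.sin (τ * u)) volume
    have h2 : (fun τ : ℝ => max (1 - |-τ| / b) 0 * Real.sin (-τ * u)) =
        fun τ : ℝ => -(max (1 - |τ| / b) 0 * Real.sin (τ * u)) := by
      funext τ
      rw [abs_neg, neg_mul, Real.sin_neg, mul_neg]
    rw [h2, integral_neg] at h1
    linarith
  have e1 : (fun τ : ℝ => ((max (1 - |τ| / b) 0 : ℝ) : ℂ) *
      Complex.exp (((τ * u : ℝ) : ℂ) * Complex.I)) =
      fun τ : ℝ => ((max (1 - |τ| / b) 0 * Real.cos (τ * u) : ℝ) : ℂ) +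
        ((max (1 - |τ| / b) 0 * Real.sin (τ * u) : ℝ) : ℂ) * Complex.I := by
    funext τ
    rw [Complex.exp_mul_I, ← Complex.ofReal_cos, ← Complex.ofReal_sin]
    push_cast
    ring
  rw [e1, integral_add i1.ofReal (i2.ofReal.mul_const _), integral_mul_const,
    integral_complex_ofReal, integral_complex_ofReal, e0, ← (Planch_Kf b u hb).2]
  simp

theorem mol_four (w : ℝ → ℂ) (hw : Continuous w) (hc : HasCompactSupport w) (b t : ℝ)
    (hb : 0 < b) :
    molPsi w b t = ∫ τ, molPhi w b τ * Complex.exp ((τ * t : ℝ) * Complex.I) := by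
  have hI := molI_pos
  have e1 : molPsi w b t = ∫ s, w s * ((Kf b (t - s) / molI : ℝ) : ℂ) := by
    unfold molPsi
    have h1 : (fun v : ℝ => ((molK v : ℝ) : ℂ) * w (t - v / b)) =
        fun v => (fun x => ((molK (b * x) : ℝ) : ℂ) * w (t - x)) (v / b) := by
      funext v
      have : b * (v / b) = v := by field_simp
      simp only [this]
    rw [h1, Measure.integral_comp_div (fun x : ℝ => ((molK (b * x) : ℝ) : ℂ) * w (t - x)) b,
      abs_of_pos hb]
    have h2 : (fun x : ℝ => ((molK (b * x) : ℝ) : ℂ) * w (t - x)) =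
        fun x => (fun s => ((molK (b * (t - s)) : ℝ) : ℂ) * w s) (t - x) := by
      funext x
      simp only [sub_sub_cancel]
    rw [h2, integral_sub_left_eq_self (fun s => ((molK (b * (t - s)) : ℝ) : ℂ) * w s) volume t,
      ← integral_smul]
    refine integral_congr_ae (Filter.Eventually.of_forall fun s => ?_)
    simp only [molK, Kf]
    rw [Complex.real_smul]
    have h3 : 1 * (b * (t - s)) / 2 = b * (t - s) / 2 := by ring
    rw [h3]
    push_cast
    ring
  have e2 : ∀ s : ℝ, w s * ((Kf b (t - s) / molI : ℝ) : ℂ) =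
      ∫ τ : ℝ, w s * (((max (1 - |τ| / b) 0 / molI : ℝ) : ℂ) *
        Complex.exp (((τ * (t - s) : ℝ) : ℂ) * Complex.I)) := by
    intro s
    rw [integral_const_mul]
    congr 1
    rw [Complex.ofReal_div, mol_tri_exp b (t - s) hb, ← integral_div]
    refine integral_congr_ae (Filter.Eventually.of_forall fun τ => ?_)
    simp only
    push_cast
    ring
  rw [e1]
  simp only [e2]
  rw [integral_integral_swap_of_hasCompactSupport]
  · refine integral_congr_ae (Filter.Eventually.of_forall fun τ => ?_)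
    simp only
    unfold molPhi molF
    rw [mul_assoc, mul_comm (∫ s, w s * _) _, ← mul_assoc, ← integral_const_mul]
    refine integral_congr_ae (Filter.Eventually.of_forall fun s => ?_)
    simp only
    have h4 : Complex.exp (((τ * (t - s) : ℝ) : ℂ) * Complex.I) =
        Complex.exp (((τ * t : ℝ) : ℂ) * Complex.I) *
          Complex.exp (((-(τ * s) : ℝ) : ℂ) * Complex.I) := by
      rw [← Complex.exp_add]
      congr 1
      push_cast
      ring
    rw [h4]
    ring
  · unfold Function.uncurry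
    fun_prop
  · have hs : HasCompactSupport (fun p : ℝ × ℝ => w p.1 * ((max (1 - |p.2| / b) 0 : ℝ) : ℂ)) := by
      apply HasCompactSupport.of_support_subset_isCompact
        (hc.isCompact.prod (isCompact_Icc (a := -b) (b := b)))
      rintro ⟨s, τ⟩ hp
      rw [Function.mem_support] at hp
      constructor
      · apply subset_tsupport
        rw [Function.mem_support]
        exact left_ne_zero_of_mul hp
      · show τ ∈ Set.Icc (-b) b
        rw [Set.mem_Icc, ← abs_le]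
        by_contra h
        apply right_ne_zero_of_mul hp
        simp only
        rw [mol_tri_zero b τ hb (not_le.1 h).le]
        simp
    have e3 : (Function.uncurry fun s τ : ℝ => w s * (((max (1 - |τ| / b) 0 / molI : ℝ) : ℂ) *
        Complex.exp (((τ * (t - s) : ℝ) : ℂ) * Complex.I))) =
        fun p : ℝ × ℝ => (w p.1 * ((max (1 - |p.2| / b) 0 : ℝ) : ℂ)) *
          ((1 / molI : ℝ) * Complex.exp (((p.2 * (t - p.1) : ℝ) : ℂ) * Complex.I)) := by
      funext p
      unfold Function.uncurry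
      simp only
      push_cast
      ring
    rw [e3]
    exact hs.mul_right

theorem mol_small (w : ℝ → ℂ) (hw : Continuous w) (hc : HasCompactSupport w)
    (h0 : (∫ t, w t) = 0) (b τ : ℝ) (hb : 0 < b) :
    ‖molPhi w b τ‖ ≤ (1 / molI * ∫ s, |s| * ‖w s‖) * |τ| := by
  have hI := molI_pos
  have hwi : Integrable w := hw.integrable_of_hasCompactSupport hc
  have i1 : Integrable (fun s => w s * Complex.exp (((-(τ * s) : ℝ) : ℂ) * Complex.I)) :=
    Continuous.integrable_of_hasCompactSupport (by fun_prop) hc.mul_right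
  have i2 : Integrable (fun s => |s| * ‖w s‖) :=
    Continuous.integrable_of_hasCompactSupport (by fun_prop) hc.norm.mul_left
  have h1 : molF w τ = ∫ s, w s * (Complex.exp (((-(τ * s) : ℝ) : ℂ) * Complex.I) - 1) := by
    have h2 : (fun s => w s * (Complex.exp (((-(τ * s) : ℝ) : ℂ) * Complex.I) - 1)) =
        fun s => w s * Complex.exp (((-(τ * s) : ℝ) : ℂ) * Complex.I) - w s := by
      funext s
      ring
    rw [h2, integral_sub i1 hwi, h0, sub_zero]
    rfl
  have h3 : ‖molF w τ‖ ≤ |τ| * ∫ s, |s| * ‖w s‖ := by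
    rw [h1, ← integral_const_mul]
    refine norm_integral_le_of_norm_le (i2.const_mul _) (Filter.Eventually.of_forall fun s => ?_)
    rw [norm_mul, mul_comm ((-(τ * s) : ℝ) : ℂ) Complex.I]
    have h4 := Real.norm_exp_I_mul_ofReal_sub_one_le (x := -(τ * s))
    rw [Real.norm_eq_abs, abs_neg, abs_mul] at h4
    calc ‖w s‖ * ‖Complex.exp (Complex.I * ((-(τ * s) : ℝ) : ℂ)) - 1‖
        ≤ ‖w s‖ * (|τ| * |s|) := mul_le_mul_of_nonneg_left h4 (norm_nonneg _)
      _ = |τ| * (|s| * ‖w s‖) := by ring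
  have h5 : ‖((max (1 - |τ| / b) 0 / molI : ℝ) : ℂ)‖ ≤ 1 / molI := by
    rw [Complex.norm_real, Real.norm_eq_abs, abs_of_nonneg (by positivity)]
    refine div_le_div_of_nonneg_right ?_ hI.le
    refine max_le ?_ zero_le_one
    have : 0 ≤ |τ| / b := by positivity
    linarith
  unfold molPhi
  rw [norm_mul]
  calc ‖((max (1 - |τ| / b) 0 / molI : ℝ) : ℂ)‖ * ‖molF w τ‖
      ≤ 1 / molI * (|τ| * ∫ s, |s| * ‖w s‖) :=
        mul_le_mul h5 h3 (norm_nonneg _) (by positivity)
    _ = (1 / molI * ∫ s, |s| * ‖w s‖) * |τ| := by ring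

/-- PROOF. `ψ = w * k_b`, `k_b (t) = Kf b t / (2 π)` (`Kf b t = ∫ τ, max (1 - |τ|/b) 0 * cos (τ t)`, `Planch_Kf`), `∫ k_b = 1` (Fourier inversion, or
`∫ sinc^2`; if inconvenient any other nonnegative band limited kernel with `|k(t)| ≤ C/(1+t^2)` and integral 1 may be used, e.g. normalise by
its integral `I > 0`, `k_b (t) = b Kf 1 (b t) / I`). Approximate identity: `∫ ‖w t - ψ t‖ ≤ ∫ k_b (u) ∫ ‖w t - w (t - u)‖ dt du → 0` as `b → ∞` (continuity
of translation for a continuous function with compact support, and `∫_(|u| > δ) k_b ≤ C/(b δ)`). `φ τ = (1/(2 π)) ŵ(τ) (1 - |τ|/b)^+` up to the normalisation, where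
`ŵ τ = ∫ t, w t * exp (- i τ t)`: continuous, zero for `|τ| ≥ b`; Fubini gives `ψ t = ∫ τ, φ τ exp (i τ t)`. Decay: `w` vanishes for `|t| > A`, and
`k_b (u) ≤ C/(b u^2)` (`Kf_le_sq`), so `‖ψ t‖ ≤ C'/(1 + t^2)`. If `∫ w = 0` then `‖ŵ τ‖ = ‖∫ w t (exp (- i τ t) - 1)‖ ≤ |τ| ∫ |t| ‖w t‖`. -/
theorem mol (w : ℝ → ℂ) (hw : Continuous w) (hc : HasCompactSupport w) (ε : ℝ) (hε : 0 < ε) :
    ∃ (B C : ℝ) (φ ψ : ℝ → ℂ), 0 < B ∧ 0 < C ∧ Continuous φ ∧ (∀ τ, B ≤ |τ| → φ τ = 0) ∧
      (∀ t, ψ t = ∫ τ, φ τ * Complex.exp ((τ * t : ℝ) * Complex.I)) ∧ Continuous ψ ∧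
      (∀ t, ‖ψ t‖ ≤ C / (1 + t ^ 2)) ∧ (∫ t, ‖w t - ψ t‖) ≤ ε ∧
      ((∫ t, w t) = 0 → ∀ τ, ‖φ τ‖ ≤ C * |τ|) := by
  have hI := molI_pos
  have hwi : Integrable w := hw.integrable_of_hasCompactSupport hc
  obtain ⟨M, hM⟩ := hw.bounded_above_of_compact_support hc
  obtain ⟨A, hA⟩ : ∃ A : ℝ, ∀ s, A < |s| → w s = 0 := by
    obtain ⟨A, hA⟩ := hc.isCompact.isBounded.exists_norm_le
    refine ⟨A, fun s hs => ?_⟩
    by_contra h
    have h1 := hA s (subset_tsupport w h)
    rw [Real.norm_eq_abs] at h1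
    linarith
  have hM0 : 0 ≤ M := (norm_nonneg _).trans (hM 0)
  set C1 := 2 * (1 + A ^ 2) * (M + 4 / molI * ∫ s, ‖w s‖) with hC1
  have hW0 : 0 ≤ ∫ s, ‖w s‖ := integral_nonneg fun s => norm_nonneg _
  have hC10 : 0 ≤ C1 := by positivity
  set C2 := 1 / molI * ∫ s, |s| * ‖w s‖ with hC2
  have hW1 : 0 ≤ ∫ s, |s| * ‖w s‖ := integral_nonneg fun s => by positivity
  have hC20 : 0 ≤ C2 := by positivity
  have hb1 : ∀ n : ℕ, (1 : ℝ) ≤ (n : ℝ) + 1 := fun n => by
    have : (0 : ℝ) ≤ n := Nat.cast_nonneg n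
    linarith
  have hbd : ∀ (n : ℕ) (t : ℝ), ‖molPsi w ((n : ℝ) + 1) t‖ ≤ C1 / (1 + t ^ 2) := by
    intro n t
    rw [le_div_iff₀ (by positivity)]
    exact mol_bound w hw hwi A M _ t (hb1 n) hA hM
  have hcont : ∀ n : ℕ, Continuous (molPsi w ((n : ℝ) + 1)) := by
    intro n
    have hb0 : (0 : ℝ) < (n : ℝ) + 1 := by have := hb1 n; linarith
    have h1 : molPsi w ((n : ℝ) + 1) =
        fun t => ∫ τ, molPhi w ((n : ℝ) + 1) τ * Complex.exp ((τ * t : ℝ) * Complex.I) := by
      funext t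
      exact mol_four w hw hc _ t hb0
    rw [h1]
    have hp := molPhi_cont w hw hwi ((n : ℝ) + 1)
    have hps : HasCompactSupport (molPhi w ((n : ℝ) + 1)) := by
      apply HasCompactSupport.of_support_subset_isCompact
        (isCompact_Icc (a := -((n : ℝ) + 1)) (b := (n : ℝ) + 1))
      intro τ hτ
      rw [Function.mem_support] at hτ
      rw [Set.mem_Icc, ← abs_le]
      by_contra h
      exact hτ (molPhi_zero w _ τ hb0 (not_le.1 h).le)
    refine continuous_of_dominated (bound := fun τ => ‖molPhi w ((n : ℝ) + 1) τ‖) (fun t => ?_)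
      (fun t => Filter.Eventually.of_forall fun τ => ?_)
      (hp.integrable_of_hasCompactSupport hps).norm (Filter.Eventually.of_forall fun τ => ?_)
    · exact Continuous.aestronglyMeasurable (by fun_prop)
    · rw [norm_mul, Complex.norm_exp_ofReal_mul_I, mul_one]
    · fun_prop
  have htend : Filter.Tendsto (fun n : ℕ => ∫ t, ‖w t - molPsi w ((n : ℝ) + 1) t‖) Filter.atTop
      (nhds (∫ _t : ℝ, (0 : ℝ))) := by
    refine tendsto_integral_of_dominated_convergence
      (fun t => ‖w t‖ + C1 * (1 + t ^ 2)⁻¹) (fun n => ?_)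
      (hwi.norm.add (integrable_inv_one_add_sq.const_mul C1))
      (fun n => Filter.Eventually.of_forall fun t => ?_) (Filter.Eventually.of_forall fun t => ?_)
    · have := hcont n
      exact Continuous.aestronglyMeasurable (by fun_prop)
    · rw [norm_norm]
      refine (norm_sub_le _ _).trans (add_le_add le_rfl ?_)
      rw [← div_eq_mul_inv]
      exact hbd n t
    · have h1 := (mol_tend w hw M t hM).const_sub (w t)
      rw [sub_self] at h1
      have h2 := h1.norm
      rwa [norm_zero] at h2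
  rw [integral_zero] at htend
  obtain ⟨n, hn⟩ := ((tendsto_order.1 htend).2 ε hε).exists
  have hb0 : (0 : ℝ) < (n : ℝ) + 1 := by have := hb1 n; linarith
  refine ⟨(n : ℝ) + 1, C1 + C2 + 1, molPhi w ((n : ℝ) + 1), molPsi w ((n : ℝ) + 1), hb0,
    by positivity, molPhi_cont w hw hwi _, fun τ hτ => molPhi_zero w _ τ hb0 hτ,
    fun t => mol_four w hw hc _ t hb0, hcont n, fun t => ?_, hn.le, fun h0 τ => ?_⟩
  · refine (hbd n t).trans (div_le_div_of_nonneg_right ?_ (by positivity))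
    linarith
  · refine (mol_small w hw hc h0 _ τ hb0).trans (mul_le_mul_of_nonneg_right ?_ (abs_nonneg _))
    linarith

end Pool.Agent.OmEq

end

/-! ### from `Lib_MP_f1a94e_mr.Stage` -/

section

/-!
# Piece STAGE: factorisation of the Fourier coefficients (one stage of Matomaki-Radziwill)
-/

set_option autoImplicit false

namespace Pool.Agent.GaussMR

/-- Minkowski inequality in `ℓ²`. -/
theorem minkowski_sq {ι κ : Type*} (I : Finset ι) (K : Finset κ) (c : ι → κ → ℂ) (s : ι → ℝ)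
    (hs : ∀ i ∈ I, 0 < s i) (h : ∀ i ∈ I, ∑ k ∈ K, ‖c i k‖ ^ 2 ≤ s i ^ 2) :
    ∑ k ∈ K, ‖∑ i ∈ I, c i k‖ ^ 2 ≤ (∑ i ∈ I, s i) ^ 2 := by
  have h1 : ∀ k ∈ K, ‖∑ i ∈ I, c i k‖ ^ 2 ≤ (∑ i ∈ I, s i) * ∑ i ∈ I, ‖c i k‖ ^ 2 / s i := by
    intro k _
    have h2 : ‖∑ i ∈ I, c i k‖ ≤ ∑ i ∈ I, ‖c i k‖ := norm_sum_le _ _
    refine (pow_le_pow_left₀ (norm_nonneg _) h2 2).trans ?_
    refine Finset.sum_sq_le_sum_mul_sum_of_sq_le_mul I (fun i hi => (hs i hi).le)
      (fun i hi => div_nonneg (sq_nonneg _) (hs i hi).le) fun i hi => le_of_eq ?_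
    have := (hs i hi).ne'
    field_simp
  refine (Finset.sum_le_sum h1).trans ?_
  rw [← Finset.mul_sum, Finset.sum_comm, sq]
  refine mul_le_mul_of_nonneg_left ?_ (Finset.sum_nonneg fun i hi => (hs i hi).le)
  refine Finset.sum_le_sum fun i hi => ?_
  rw [← Finset.sum_div, div_le_iff₀ (hs i hi), ← sq]
  exact h i hi

theorem sum_PP_inv_sq {P Q : ℝ} (hP : 1 ≤ P) : ∑ w ∈ PP P Q, 1 / (nm w : ℝ) ^ 2 ≤ 1 := by
  classical
  have hinj : Set.InjOn nm (PP P Q : Set G) := fun w hw w' hw' h => PP_inj hw hw' h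
  have h1 : ∑ w ∈ PP P Q, 1 / (nm w : ℝ) ^ 2 = ∑ n ∈ (PP P Q).image nm, 1 / (n : ℝ) ^ 2 := by
    rw [Finset.sum_image hinj]
  rw [h1]
  have h2 : (PP P Q).image nm ⊆ Finset.Ioc 1 (⌊Q⌋₊ + 1) := by
    intro n hn
    obtain ⟨w, hw, rfl⟩ := Finset.mem_image.mp hn
    obtain ⟨e1, e2, -, -, -⟩ := mem_PP.mp hw
    rw [Finset.mem_Ioc]
    refine ⟨by exact_mod_cast hP.trans_lt e1, ?_⟩
    have e3 : nm w ≤ ⌊Q⌋₊ := Nat.le_floor e2
    omega
  refine (Finset.sum_le_sum_of_subset_of_nonneg h2 fun _ _ _ => by positivity).trans ?_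
  have h3 := sum_Ioc_inv_sq_le_sub (α := ℝ) (k := 1) (n := ⌊Q⌋₊ + 1) one_ne_zero (by omega)
  have h4 : (0 : ℝ) ≤ ((⌊Q⌋₊ + 1 : ℕ) : ℝ)⁻¹ := by positivity
  simp only [one_div]
  simp only [Nat.cast_one, inv_one] at h3
  linarith

/-- sums over the blocks -/
theorem sum_blk_le {P Q ρ : ℝ} (hρ : 0 < ρ) (h : G → ℝ) (hh : ∀ w ∈ PP P Q, 0 ≤ h w) :
    ∑ v ∈ Finset.range (nv Q ρ), ∑ w ∈ blk P Q ρ v, h w ≤ ∑ w ∈ PP P Q, h w := by
  classical
  rw [← Finset.sum_biUnion]
  · refine Finset.sum_le_sum_of_subset_of_nonneg ?_ fun w hw _ => hh w hw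
    intro w hw
    obtain ⟨v, -, hv⟩ := Finset.mem_biUnion.mp hw
    exact (mem_blk.mp hv).1
  · intro v _ v' _ hvv
    rw [Function.onFun, Finset.disjoint_left]
    intro w hw hw'
    exact hvv (blk_unique hρ hw hw')

open Classical in
theorem A2_bound {C : ℝ} (hC : 0 < C) (hdls : ∀ (F : G → ℝ), PM F → ∀ (w : G), Spl w →
    ∀ (Y : ℝ) (T : ℕ), 0 ≤ Y →
    ∑ k ∈ fr T, ‖∑ z ∈ (V Y).filter (fun z => star w ∣ z), (F z : ℂ) * xi (-k) z‖ ^ 2 ≤
      C * (T + Y / nm w) * (Y / nm w)) (F : G → ℝ) (hF : PM F) (P Q ρ X : ℝ) (T : ℕ)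
    (hP : 2 ≤ P) (hρ : 0 < ρ) (hρ1 : ρ ≤ 1) (hX : 1 ≤ X) :
    ∑ k ∈ fr T, ‖A2 F P Q ρ X k‖ ^ 2 ≤
      (Real.sqrt C * (Real.sqrt (3 * T * X) * Ls P Q + 3 * X)) ^ 2 := by
  have hX0 : 0 < X := by linarith
  set s : G → ℝ := fun w => Real.sqrt C * (Real.sqrt (3 * T * X) * (1 / nm w) +
    3 * X * (1 / (nm w : ℝ) ^ 2)) with hs
  have hpos : ∀ w ∈ PP P Q, (0 : ℝ) < nm w := by
    intro w hw
    have := (mem_PP.mp hw).1
    linarith
  have hs0 : ∀ w ∈ PP P Q, 0 < s w := by
    intro w hw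
    have h1 := hpos w hw
    have h2 : 0 < Real.sqrt C := Real.sqrt_pos.mpr hC
    rw [hs]
    positivity
  have hexp : Real.exp ρ ≤ 3 := by
    have := Real.exp_one_lt_d9
    exact (Real.exp_le_exp.mpr hρ1).trans (by linarith)
  have h1 : ∀ k, A2 F P Q ρ X k = ∑ i ∈ (Finset.range (nv Q ρ)).sigma (fun v => blk P Q ρ v),
      (F i.2 : ℂ) * xi (-k) i.2 * ∑ z ∈ (V (X * Real.exp (-(i.1 * ρ)))).filter
        (fun z => star i.2 ∣ z), (F z : ℂ) * xi (-k) z := by
    intro k
    unfold A2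
    rw [Finset.sum_sigma']
  simp only [h1]
  refine (minkowski_sq _ _ _ (fun i : (_ : ℕ) × G => s i.2) ?_ ?_).trans ?_
  · intro i hi
    exact hs0 _ (mem_blk.mp (Finset.mem_sigma.mp hi).2).1
  · rintro ⟨v, w⟩ hi
    have hw := (Finset.mem_sigma.mp hi).2
    simp only at hw
    obtain ⟨hwP, -, hw2⟩ := mem_blk.mp hw
    have hp := hpos w hwP
    have hsp := PP_spl hwP
    set Y : ℝ := X * Real.exp (-(v * ρ)) with hY
    have hY0 : 0 ≤ Y := by positivity
    have e1 : ∑ k ∈ fr T, ‖(F w : ℂ) * xi (-k) w * ∑ z ∈ (V Y).filter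
        (fun z => star w ∣ z), (F z : ℂ) * xi (-k) z‖ ^ 2 =
        ∑ k ∈ fr T, ‖∑ z ∈ (V Y).filter (fun z => star w ∣ z), (F z : ℂ) * xi (-k) z‖ ^ 2 := by
      refine Finset.sum_congr rfl fun k _ => ?_
      rw [norm_mul, norm_mul, hF.norm hsp.odd, norm_xi _ (ne_zero_of_odd hsp.odd), one_mul, one_mul]
    simp only
    rw [e1]
    refine (hdls F hF w hsp Y T hY0).trans ?_
    have e2 : Y / nm w ≤ 3 * X * (1 / (nm w : ℝ) ^ 2) := by
      have e3 : Y * nm w ≤ 3 * X := by
        calc Y * nm w ≤ Y * Real.exp ((v + 1) * ρ) := by gcongr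
          _ = X * Real.exp ρ := by
              rw [hY, mul_assoc, ← Real.exp_add]
              congr 2
              ring
          _ ≤ X * 3 := by gcongr
          _ = 3 * X := by ring
      rw [div_le_iff₀ hp]
      calc Y = Y * nm w * (1 / nm w) := by field_simp
        _ ≤ 3 * X * (1 / nm w) := by gcongr
        _ = 3 * X * (1 / (nm w : ℝ) ^ 2) * nm w := by field_simp
    have e4 : 0 ≤ Y / nm w := by positivity
    rw [hs]
    simp only
    rw [mul_pow, Real.sq_sqrt hC.le, mul_assoc]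
    refine mul_le_mul_of_nonneg_left ?_ hC.le
    have e5 : Real.sqrt (3 * T * X) ^ 2 = 3 * T * X := Real.sq_sqrt (by positivity)
    calc (T + Y / nm w) * (Y / nm w) ≤ (T + 3 * X * (1 / (nm w : ℝ) ^ 2)) *
          (3 * X * (1 / (nm w : ℝ) ^ 2)) := by gcongr
      _ = Real.sqrt (3 * T * X) ^ 2 * (1 / nm w) ^ 2 + (3 * X * (1 / (nm w : ℝ) ^ 2)) ^ 2 := by
          rw [e5]
          field_simp
      _ ≤ (Real.sqrt (3 * T * X) * (1 / nm w) + 3 * X * (1 / (nm w : ℝ) ^ 2)) ^ 2 := by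
          have e6 : 0 ≤ Real.sqrt (3 * T * X) * (1 / nm w) * (3 * X * (1 / (nm w : ℝ) ^ 2)) := by
            positivity
          nlinarith
  · have e1 : ∑ i ∈ (Finset.range (nv Q ρ)).sigma (fun v => blk P Q ρ v), s i.2 ≤
        ∑ w ∈ PP P Q, s w := by
      rw [Finset.sum_sigma]
      exact sum_blk_le hρ s fun w hw => (hs0 w hw).le
    have e2 : ∑ w ∈ PP P Q, s w ≤ Real.sqrt C * (Real.sqrt (3 * T * X) * Ls P Q + 3 * X) := by
      rw [hs, ← Finset.mul_sum, Finset.sum_add_distrib, ← Finset.mul_sum, ← Finset.mul_sum]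
      have e3 := sum_PP_inv_sq (P := P) (Q := Q) (by linarith)
      unfold Ls
      refine mul_le_mul_of_nonneg_left (add_le_add_right ?_ _) (Real.sqrt_nonneg _)
      nlinarith
    refine pow_le_pow_left₀ (Finset.sum_nonneg fun i hi => ?_) (e1.trans e2) 2
    exact (hs0 _ (mem_blk.mp (Finset.mem_sigma.mp hi).2).1).le

/-- By `stage_id`, `Ls * fc k - UZ k = A₁ - A2 - A3` with `A₁ = ∑_{z ∈ V X} F z (Ls - om z) xi_{-k}(z)`.
`A₁`: `large_sieve` and `TK`, `≤ C (T + X) X (Ls + 1)`. `A2`: Minkowski in `ℓ²(k)` over the pairs `(v, w)` and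
`div_large_sieve` (each contributes at most `√(C (T + 3X/p²) 3X/p²) ≤ √(3C) (√(T X) / p + √3 X / p²)`,
as `X e^(-vρ) / p ≤ X e^ρ / p²`), and `∑ 1/p² ≤ 1`: `≤ C (T X Ls² + X²)`. `A3`: `large_sieve` on
`V (X e^ρ)`, `mA_le`, `annulus`: `≤ C X · ρ X (Ls + 1)²`. Finally `Ls ≥ 1`. -/
theorem stage : ∃ C : ℝ, 0 < C ∧ ∀ (F : G → ℝ), PM F → ∀ (P Q ρ X : ℝ) (T : ℕ),
    2 ≤ P → P ≤ Q → Q ^ 20 ≤ X → 0 < ρ → ρ ≤ 1 → X ^ (-(1 / 4 : ℝ)) ≤ ρ → (T : ℝ) ≤ X →
    1 ≤ Ls P Q →
    ∑ k ∈ fr T, ‖(Ls P Q : ℂ) * fc F X k - UZ F P Q ρ X k‖ ^ 2 ≤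
      C * X ^ 2 * Ls P Q ^ 2 * (1 / Ls P Q + T / X + ρ) := by
  classical
  obtain ⟨C1, hC1, hls⟩ := large_sieve
  obtain ⟨C2, hC2, htk⟩ := TK
  obtain ⟨C3, hC3, hann⟩ := annulus
  obtain ⟨C4, hC4, hdls⟩ := div_large_sieve
  refine ⟨3 * (4 * C1 * C2 + 18 * C4 + 16 * C1 * C3), by positivity, ?_⟩
  intro F hF P Q ρ X T hP hPQ hQX hρ hρ1 hXρ hTX hLs
  have hQ2 : 2 ≤ Q := hP.trans hPQ
  have hX1 : 1 ≤ X := (one_le_pow₀ (by linarith : (1 : ℝ) ≤ Q)).trans hQX
  have hX0 : 0 < X := by linarith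
  have hLs0 : 0 < Ls P Q := by linarith
  set L := Ls P Q with hL
  -- the three parts
  have hdec : ∀ k, (L : ℂ) * fc F X k - UZ F P Q ρ X k =
      ∑ z ∈ V X, ((F z : ℂ) * ((L - om P Q z : ℝ) : ℂ)) * xi (-k) z - A2 F P Q ρ X k -
        A3 F P Q ρ X k := by
    intro k
    rw [stage_id F hF P Q ρ X k (by linarith) hPQ hρ hX1]
    have e1 : ∑ z ∈ V X, ((F z : ℂ) * ((L - om P Q z : ℝ) : ℂ)) * xi (-k) z =
        (L : ℂ) * fc F X k - ∑ z ∈ V X, (F z : ℂ) * (om P Q z : ℂ) * xi (-k) z := by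
      rw [fc, Finset.mul_sum, ← Finset.sum_sub_distrib]
      refine Finset.sum_congr rfl fun z _ => ?_
      push_cast
      ring
    rw [e1]
    ring
  have h3 : ∀ a b c : ℂ, ‖a - b - c‖ ^ 2 ≤ 3 * (‖a‖ ^ 2 + ‖b‖ ^ 2 + ‖c‖ ^ 2) := by
    intro a b c
    have e1 : ‖a - b - c‖ ≤ ‖a‖ + ‖b‖ + ‖c‖ :=
      (norm_sub_le _ _).trans (add_le_add_left (norm_sub_le _ _) _)
    have e2 := pow_le_pow_left₀ (norm_nonneg _) e1 2
    nlinarith [sq_nonneg (‖a‖ - ‖b‖), sq_nonneg (‖b‖ - ‖c‖), sq_nonneg (‖a‖ - ‖c‖)]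
  -- first part
  have hA1 : ∑ k ∈ fr T, ‖∑ z ∈ V X, ((F z : ℂ) * ((L - om P Q z : ℝ) : ℂ)) * xi (-k) z‖ ^ 2 ≤
      4 * C1 * C2 * X ^ 2 * L := by
    refine (hls X T (fun z => (F z : ℂ) * ((L - om P Q z : ℝ) : ℂ)) hX1).trans ?_
    have e1 : ∑ z ∈ V X, ‖(F z : ℂ) * ((L - om P Q z : ℝ) : ℂ)‖ ^ 2 =
        ∑ z ∈ V X, (om P Q z - L) ^ 2 := by
      refine Finset.sum_congr rfl fun z hz => ?_
      rw [norm_mul, hF.norm (mem_V.mp hz).2.1, one_mul, Complex.norm_real, Real.norm_eq_abs,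
        sq_abs]
      ring
    rw [e1]
    have e2 := htk P Q X hP hPQ hQX
    have e3 : C2 * X * (L + 1) ≤ C2 * X * (2 * L) := by
      gcongr
      linarith
    calc C1 * (T + X) * ∑ z ∈ V X, (om P Q z - L) ^ 2 ≤ C1 * (X + X) * (C2 * X * (2 * L)) := by
          have e4 : 0 ≤ ∑ z ∈ V X, (om P Q z - L) ^ 2 := Finset.sum_nonneg fun _ _ => sq_nonneg _
          gcongr
          exact e2.trans e3
      _ = 4 * C1 * C2 * X ^ 2 * L := by ring
  -- third part
  have hA3 : ∑ k ∈ fr T, ‖A3 F P Q ρ X k‖ ^ 2 ≤ 16 * C1 * C3 * X ^ 2 * L ^ 2 * ρ := by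
    have hexp : Real.exp ρ ≤ 3 := by
      have := Real.exp_one_lt_d9
      exact (Real.exp_le_exp.mpr hρ1).trans (by linarith)
    have hexp1 : 1 ≤ Real.exp ρ := Real.one_le_exp hρ.le
    have hXe : 1 ≤ X * Real.exp ρ := by nlinarith
    set a : G → ℂ := fun z => if z ∈ V X then 0 else (F z : ℂ) * (mA P Q ρ X z : ℂ) with ha
    have hsub : V X ⊆ V (X * Real.exp ρ) := by
      intro z hz
      rw [mem_V] at hz ⊢
      exact ⟨hz.1.trans (by nlinarith), hz.2⟩
    have e1 : ∀ k, A3 F P Q ρ X k = ∑ z ∈ V (X * Real.exp ρ), a z * xi (-k) z := by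
      intro k
      rw [← Finset.sum_sdiff hsub, A3]
      have e2 : ∑ z ∈ V X, a z * xi (-k) z = 0 := by
        refine Finset.sum_eq_zero fun z hz => ?_
        rw [ha]
        simp [hz]
      rw [e2, add_zero]
      refine Finset.sum_congr rfl fun z hz => ?_
      have e3 : z ∉ V X := (Finset.mem_sdiff.mp hz).2
      rw [ha]
      simp [e3]
    have e2 : ∑ z ∈ V (X * Real.exp ρ), ‖a z‖ ^ 2 ≤ C3 * ρ * X * (2 * L) ^ 2 := by
      rw [← Finset.sum_sdiff hsub]
      have e3 : ∑ z ∈ V X, ‖a z‖ ^ 2 = 0 := by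
        refine Finset.sum_eq_zero fun z hz => ?_
        rw [ha]
        simp [hz]
      rw [e3, add_zero]
      calc ∑ z ∈ V (X * Real.exp ρ) \ V X, ‖a z‖ ^ 2
          ≤ ∑ z ∈ V (X * Real.exp ρ) \ V X, (om P Q z) ^ 2 := by
            refine Finset.sum_le_sum fun z hz => ?_
            have e4 : z ∉ V X := (Finset.mem_sdiff.mp hz).2
            have e5 := (Finset.mem_sdiff.mp hz).1
            have e6 : ‖a z‖ = mA P Q ρ X z := by
              rw [ha]
              simp only [e4, if_false]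
              rw [norm_mul, hF.norm (mem_V.mp e5).2.1, one_mul, Complex.norm_natCast]
            rw [e6]
            exact pow_le_pow_left₀ (Nat.cast_nonneg _) (mA_le P Q ρ X hρ z (V_ne_zero e5)) 2
        _ ≤ C3 * ρ * X * (L + 1) ^ 2 := hann P Q X ρ hP hPQ hQX hρ hρ1 hXρ
        _ ≤ C3 * ρ * X * (2 * L) ^ 2 := by
            gcongr
            linarith
    simp only [e1]
    refine (hls (X * Real.exp ρ) T a hXe).trans ?_
    calc C1 * (T + X * Real.exp ρ) * ∑ z ∈ V (X * Real.exp ρ), ‖a z‖ ^ 2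
        ≤ C1 * (X + X * 3) * (C3 * ρ * X * (2 * L) ^ 2) := by
          have e4 : 0 ≤ ∑ z ∈ V (X * Real.exp ρ), ‖a z‖ ^ 2 :=
            Finset.sum_nonneg fun _ _ => sq_nonneg _
          gcongr
      _ = 16 * C1 * C3 * X ^ 2 * L ^ 2 * ρ := by ring
  -- second part
  have hA2 : ∑ k ∈ fr T, ‖A2 F P Q ρ X k‖ ^ 2 ≤ C4 * (6 * T * X * L ^ 2 + 18 * X ^ 2) := by
    refine (A2_bound hC4 hdls F hF P Q ρ X T hP hρ hρ1 hX1).trans ?_
    rw [mul_pow, Real.sq_sqrt hC4.le]
    refine mul_le_mul_of_nonneg_left ?_ hC4.le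
    have e1 : Real.sqrt (3 * T * X) ^ 2 = 3 * T * X := Real.sq_sqrt (by positivity)
    nlinarith [sq_nonneg (Real.sqrt (3 * T * X) * L - 3 * X)]
  calc ∑ k ∈ fr T, ‖(L : ℂ) * fc F X k - UZ F P Q ρ X k‖ ^ 2
      ≤ ∑ k ∈ fr T, 3 * (‖∑ z ∈ V X, ((F z : ℂ) * ((L - om P Q z : ℝ) : ℂ)) * xi (-k) z‖ ^ 2 +
          ‖A2 F P Q ρ X k‖ ^ 2 + ‖A3 F P Q ρ X k‖ ^ 2) := by
        refine Finset.sum_le_sum fun k _ => ?_
        rw [hdec]
        exact h3 _ _ _
    _ = 3 * (∑ k ∈ fr T, ‖∑ z ∈ V X, ((F z : ℂ) * ((L - om P Q z : ℝ) : ℂ)) * xi (-k) z‖ ^ 2 +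
          ∑ k ∈ fr T, ‖A2 F P Q ρ X k‖ ^ 2 + ∑ k ∈ fr T, ‖A3 F P Q ρ X k‖ ^ 2) := by
        rw [← Finset.mul_sum, Finset.sum_add_distrib, Finset.sum_add_distrib]
    _ ≤ 3 * (4 * C1 * C2 * X ^ 2 * L + C4 * (6 * T * X * L ^ 2 + 18 * X ^ 2) +
          16 * C1 * C3 * X ^ 2 * L ^ 2 * ρ) := by gcongr
    _ ≤ 3 * (4 * C1 * C2 + 18 * C4 + 16 * C1 * C3) * X ^ 2 * L ^ 2 * (1 / L + T / X + ρ) := by
        have e1 : X ^ 2 * L ^ 2 * (1 / L) = X ^ 2 * L := by field_simp
        have e2 : X ^ 2 * L ^ 2 * (T / X) = T * X * L ^ 2 := by field_simp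
        have e3 : X ^ 2 ≤ X ^ 2 * L := by nlinarith [sq_nonneg X]
        have e4 : 3 * (4 * C1 * C2 + 18 * C4 + 16 * C1 * C3) * X ^ 2 * L ^ 2 *
            (1 / L + T / X + ρ) = 3 * (4 * C1 * C2 + 18 * C4 + 16 * C1 * C3) *
              (X ^ 2 * L + T * X * L ^ 2 + X ^ 2 * L ^ 2 * ρ) := by
          rw [← e1, ← e2]
          ring
        rw [e4]
        have p1 : 0 ≤ C1 * C2 * (T * X * L ^ 2) := by positivity
        have p2 : 0 ≤ C1 * C2 * (X ^ 2 * L ^ 2 * ρ) := by positivity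
        have p3 : 0 ≤ C4 * (T * X * L ^ 2) := by positivity
        have p4 : 0 ≤ C4 * (X ^ 2 * L ^ 2 * ρ) := by positivity
        have p5 : 0 ≤ C1 * C3 * (T * X * L ^ 2) := by positivity
        have p6 : 0 ≤ C1 * C3 * (X ^ 2 * L) := by positivity
        have p7 : C4 * X ^ 2 ≤ C4 * (X ^ 2 * L) := mul_le_mul_of_nonneg_left e3 hC4.le
        nlinarith

end Pool.Agent.GaussMR

end

/-! ### from `Lib_MP_f1a94e_ecm.RPos` -/

section

/-!
# Piece M-RPOS: the divisor sums of a real character are nonnegative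
-/

set_option autoImplicit false

namespace Pool.Agent.ECM

open Finset Pool.Agent.GaussMR Pool.Agent.GaussCM Pool.Agent.OmAll

open Classical in
/-- all divisors of `c` (including all associates) -/
noncomputable def dvs (c : G) : Finset G := (ball (nm c)).filter (fun a => a ∣ c)

private theorem rp_mem {c : G} (hc : c ≠ 0) {a : G} : a ∈ dvs c ↔ a ∣ c := by
  classical
  unfold dvs
  rw [mem_filter, mem_ball]
  refine ⟨fun h => h.2, fun h => ⟨?_, h⟩⟩
  have h1 := Nat.le_of_dvd (nm_pos hc) (nm_dvd h)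
  exact_mod_cast h1

/-- the units -/
private theorem rp_unit {c : G} (hc : nm c = 1) : dvs c = {1, -1, ii, -ii} := by
  classical
  have hc0 : c ≠ 0 := by
    rintro rfl
    simp at hc
  ext a
  rw [rp_mem hc0]
  simp only [mem_insert, mem_singleton]
  constructor
  · intro h
    have h1 : nm a = 1 := by
      have h2 := nm_dvd h
      rw [hc] at h2
      exact Nat.dvd_one.1 h2
    have h2 : (nm a : ℤ) = 1 := by exact_mod_cast h1
    rw [nm_eq] at h2
    have h3 : a.re ^ 2 ≤ 1 := by nlinarith [sq_nonneg a.im]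
    have h4 : a.im ^ 2 ≤ 1 := by nlinarith [sq_nonneg a.re]
    have h5 : -1 ≤ a.re ∧ a.re ≤ 1 := by constructor <;> nlinarith
    have h6 : -1 ≤ a.im ∧ a.im ≤ 1 := by constructor <;> nlinarith
    obtain ⟨h5a, h5b⟩ := h5
    obtain ⟨h6a, h6b⟩ := h6
    have key : (a.re = 1 ∧ a.im = 0) ∨ (a.re = -1 ∧ a.im = 0) ∨ (a.re = 0 ∧ a.im = 1) ∨ (a.re = 0 ∧ a.im = -1) := by
      interval_cases h7 : a.re <;> interval_cases h8 : a.im <;> simp_all
    rcases key with ⟨h7, h8⟩ | ⟨h7, h8⟩ | ⟨h7, h8⟩ | ⟨h7, h8⟩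
    · left; apply Zsqrtd.ext <;> simp [h7, h8]
    · right; left; apply Zsqrtd.ext <;> simp [h7, h8]
    · right; right; left; apply Zsqrtd.ext <;> simp [h7, h8, ii]
    · right; right; right; apply Zsqrtd.ext <;> simp [h7, h8, ii]
  · have hu : ∀ a : G, nm a = 1 → a ∣ c := fun a ha => (nm_eq_one_iff.1 ha).dvd
    rintro (rfl | rfl | rfl | rfl)
    · exact hu _ (by simp)
    · exact hu _ (by rw [nm_neg]; simp)
    · exact hu _ nm_ii
    · exact hu _ (by rw [nm_neg]; exact nm_ii)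

private theorem rp_sum_unit (D : ℕ) (χ : G → ℂ) (hχ : Chi D χ) (h1 : χ ii = 1) {c : G} (hc : nm c = 1) :
    ∑ a ∈ dvs c, χ a = 4 := by
  classical
  have h2 : χ (-1) = 1 := by
    have : (-1 : G) = ii * ii := by apply Zsqrtd.ext <;> simp [ii]
    rw [this, hχ.mul, h1, one_mul]
  have h3 : χ (-ii) = 1 := by
    have : (-ii : G) = (-1) * ii := by ring
    rw [this, hχ.mul, h1, h2, one_mul]
  rw [rp_unit hc, sum_insert, sum_insert, sum_insert, sum_singleton, hχ.one, h1, h2, h3]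
  · norm_num
  · simp only [mem_singleton]
    intro h
    have := congrArg Zsqrtd.im h
    simp [ii] at this
  · simp only [mem_insert, mem_singleton, not_or]
    constructor
    · intro h
      have := congrArg Zsqrtd.im h
      simp [ii] at this
    · intro h
      have := congrArg Zsqrtd.im h
      simp [ii] at this
  · simp only [mem_insert, mem_singleton, not_or]
    refine ⟨?_, ?_, ?_⟩
    · intro h
      have := congrArg Zsqrtd.re h
      simp at this
    · intro h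
      have := congrArg Zsqrtd.im h
      simp [ii] at this
    · intro h
      have := congrArg Zsqrtd.im h
      simp [ii] at this

theorem r_one (D : ℕ) (χ : G → ℂ) (hχ : Chi D χ) (h1 : χ ii = 1) : (∑ a ∈ dvs 1, χ a).re = 4 := by
  rw [rp_sum_unit D χ hχ h1 nm_one]
  norm_num

private theorem rp_prod (χ : G → ℂ) (hmul : ∀ z w, χ (z * w) = χ z * χ w) {p m : G} (hp : Prime p) (hm : m ≠ 0)
    (hpm : ¬ p ∣ m) (k : ℕ) : ∑ a ∈ dvs (p ^ k * m), χ a = (∑ j ∈ range (k + 1), χ (p ^ j)) * ∑ a ∈ dvs m, χ a := by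
  classical
  have hp0 : p ≠ 0 := hp.ne_zero
  have hc : p ^ k * m ≠ 0 := mul_ne_zero (pow_ne_zero _ hp0) hm
  rw [sum_mul_sum, ← sum_product']
  symm
  apply sum_bij (fun (x : ℕ × G) _ => p ^ x.1 * x.2)
  · rintro ⟨j, a⟩ hx
    rw [mem_product, mem_range, rp_mem hm] at hx
    rw [rp_mem hc]
    exact mul_dvd_mul (pow_dvd_pow p (by omega)) hx.2
  · rintro ⟨j, a⟩ hx ⟨j', a'⟩ hx' h
    rw [mem_product, mem_range, rp_mem hm] at hx hx'
    simp only at hx hx' h
    have ha : ¬ p ∣ a := fun h' => hpm (h'.trans hx.2)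
    have ha' : ¬ p ∣ a' := fun h' => hpm (h'.trans hx'.2)
    have hjj : j = j' := by
      rcases lt_trichotomy j j' with hlt | heq | hgt
      · exfalso
        obtain ⟨d, rfl⟩ : ∃ d, j' = j + (d + 1) := ⟨j' - j - 1, by omega⟩
        rw [pow_add, mul_assoc] at h
        have h2 := mul_left_cancel₀ (pow_ne_zero j hp0) h
        apply ha
        rw [h2, pow_succ]
        exact ⟨p ^ d * a', by ring⟩
      · exact heq
      · exfalso
        obtain ⟨d, rfl⟩ : ∃ d, j = j' + (d + 1) := ⟨j - j' - 1, by omega⟩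
        rw [pow_add, mul_assoc] at h
        have h2 := mul_left_cancel₀ (pow_ne_zero j' hp0) h
        apply ha'
        rw [← h2, pow_succ]
        exact ⟨p ^ d * a, by ring⟩
    subst hjj
    rw [mul_left_cancel₀ (pow_ne_zero j hp0) h]
  · intro a ha
    rw [rp_mem hc] at ha
    obtain ⟨d₁, d₂, hd1, hd2, rfl⟩ := exists_dvd_and_dvd_of_dvd_mul ha
    obtain ⟨j, hj, hass⟩ := (dvd_prime_pow hp k).1 hd1
    obtain ⟨u, hu⟩ := hass
    refine ⟨(j, (↑(u⁻¹ : Gˣ) : G) * d₂), ?_, ?_⟩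
    · rw [mem_product, mem_range, rp_mem hm]
      refine ⟨by simp only; omega, ?_⟩
      exact (Units.isUnit _).mul_left_dvd.2 hd2
    · simp only
      rw [← hu]
      rw [mul_assoc, ← mul_assoc (↑u : G), Units.mul_inv, one_mul]
  · rintro ⟨j, a⟩ hx
    simp only
    rw [hmul]

/-- nonnegativity of the divisor sums -/
theorem r_pos (D : ℕ) (χ : G → ℂ) (hχ : Chi D χ) (hreal : ∀ z, χ z = 0 ∨ χ z = 1 ∨ χ z = -1) (h1 : χ ii = 1) (c : G) (hc : c ≠ 0) :
    0 ≤ (∑ a ∈ dvs c, χ a).re := by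
  classical
  have him : ∀ c : G, (∑ a ∈ dvs c, χ a).im = 0 := by
    intro c
    rw [Complex.im_sum]
    refine sum_eq_zero fun a _ => ?_
    rcases hreal a with h | h | h <;> simp [h]
  have key : ∀ n : ℕ, ∀ c : G, c ≠ 0 → nm c ≤ n → 0 ≤ (∑ a ∈ dvs c, χ a).re := by
    intro n
    induction n with
    | zero =>
      intro c hc hn
      have := nm_pos hc
      omega
    | succ n ih =>
      intro c hc hn
      by_cases hu : nm c = 1
      · rw [rp_sum_unit D χ hχ h1 hu]
        norm_num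
      · have hnu : ¬ IsUnit c := fun h => hu (nm_eq_one_iff.2 h)
        obtain ⟨p, hpi, hpc⟩ := WfDvdMonoid.exists_irreducible_factor hnu hc
        have hp : Prime p := hpi.prime
        obtain ⟨m, hcm, hpm⟩ := (FiniteMultiplicity.of_prime_left hp hc).exists_eq_pow_mul_and_not_dvd
        generalize multiplicity p c = k at hcm
        subst hcm
        have hm : m ≠ 0 := by
          rintro rfl
          simp at hc
        have hk : k ≠ 0 := by
          rintro rfl
          apply hpm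
          simpa using hpc
        have hmn : nm m ≤ n := by
          rw [nm_mul] at hn
          have h3 : 1 < nm (p ^ k) := by
            have h4 := nm_pos (pow_ne_zero k hp.ne_zero)
            have h5 : nm (p ^ k) ≠ 1 := by
              rw [Ne, nm_eq_one_iff, isUnit_pow_iff hk]
              exact hp.not_isUnit
            omega
          have h4 := nm_pos hm
          nlinarith
        have h3 := ih m hm hmn
        rw [rp_prod χ hχ.mul hp hm hpm k, Complex.mul_re, him m, mul_zero, sub_zero]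
        refine mul_nonneg ?_ h3
        have hpow : ∀ j, χ (p ^ j) = χ p ^ j := by
          intro j
          induction j with
          | zero => simp [hχ.one]
          | succ j ihj => rw [pow_succ, hχ.mul, ihj, pow_succ]
        simp only [hpow]
        rcases hreal p with h | h | h
        · rw [h, sum_range_succ', Complex.add_re]
          simp
        · rw [h]
          simp
          positivity
        · rw [h, neg_one_geom_sum]
          split_ifs <;> simp
  exact key (nm c) c hc le_rfl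

end Pool.Agent.ECM

end

/-! ### from `Lib_MP_f1a94e_ecm.KBes` -/

section

/-!
# Piece M-KBES: the Bessel kernel
-/

set_option autoImplicit false

namespace Pool.Agent.ECM

open Finset Pool.Agent.GaussMR Pool.Agent.GaussCM Pool.Agent.OmAll

private theorem kbes_xexp (x : ℝ) : x * Real.exp (-x) ≤ 1 := by
  have h1 : x ≤ Real.exp x := by linarith [Real.add_one_le_exp x]
  calc x * Real.exp (-x) ≤ Real.exp x * Real.exp (-x) :=
        mul_le_mul_of_nonneg_right h1 (Real.exp_pos _).le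
    _ = 1 := by rw [← Real.exp_add]; simp

private theorem kbes_cont (y : ℝ) :
    ContinuousOn (fun u : ℝ => Real.exp (-u - y / u) / u) (Set.Ioi 0) := by
  have h0 : ∀ u ∈ Set.Ioi (0 : ℝ), u ≠ 0 := fun u hu => ne_of_gt hu
  refine ContinuousOn.div ?_ continuousOn_id h0
  refine Real.continuous_exp.comp_continuousOn ?_
  exact (continuousOn_id.neg).sub (continuousOn_const.div continuousOn_id h0)

private theorem kbes_bound (y u : ℝ) (hy : 0 < y) (hu : 0 < u) :
    Real.exp (-u - y / u) / u ≤ (4 / y) * Real.exp (-Real.sqrt y) * (2⁻¹ * Real.exp (-2⁻¹ * u)) := by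
  have h1 : Real.sqrt y ≤ 2⁻¹ * u + 2⁻¹ * (y / u) := by
    have h2 : 0 ≤ (u - Real.sqrt y) ^ 2 := sq_nonneg _
    have h3 : Real.sqrt y ^ 2 = y := Real.sq_sqrt hy.le
    have h4 : 2⁻¹ * u + 2⁻¹ * (y / u) - Real.sqrt y = (2⁻¹ * (u - Real.sqrt y) ^ 2) / u := by
      field_simp
      nlinarith [h3]
    have h5 : 0 ≤ (2⁻¹ * (u - Real.sqrt y) ^ 2) / u := by positivity
    linarith
  have h6 : Real.exp (-u - y / u) ≤
      Real.exp (-Real.sqrt y) * Real.exp (-2⁻¹ * u) * Real.exp (-(2⁻¹ * (y / u))) := by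
    rw [← Real.exp_add, ← Real.exp_add]
    apply Real.exp_le_exp.mpr
    linarith
  have h7 : Real.exp (-(2⁻¹ * (y / u))) / u ≤ 2 / y := by
    have h8 := kbes_xexp (2⁻¹ * (y / u))
    rw [div_le_div_iff₀ hu hy]
    have h9 : 2⁻¹ * (y / u) * Real.exp (-(2⁻¹ * (y / u))) * (2 * u) =
        Real.exp (-(2⁻¹ * (y / u))) * y := by
      field_simp
    rw [← h9]
    calc 2⁻¹ * (y / u) * Real.exp (-(2⁻¹ * (y / u))) * (2 * u) ≤ 1 * (2 * u) :=
          mul_le_mul_of_nonneg_right h8 (by positivity)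
      _ = 2 * u := one_mul _
  calc Real.exp (-u - y / u) / u ≤
        Real.exp (-Real.sqrt y) * Real.exp (-2⁻¹ * u) * Real.exp (-(2⁻¹ * (y / u))) / u :=
        div_le_div_of_nonneg_right h6 hu.le
    _ = Real.exp (-Real.sqrt y) * Real.exp (-2⁻¹ * u) * (Real.exp (-(2⁻¹ * (y / u))) / u) := by
        ring
    _ ≤ Real.exp (-Real.sqrt y) * Real.exp (-2⁻¹ * u) * (2 / y) :=
        mul_le_mul_of_nonneg_left h7 (by positivity)
    _ = (4 / y) * Real.exp (-Real.sqrt y) * (2⁻¹ * Real.exp (-2⁻¹ * u)) := by ring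

private theorem kbes_int_exp : MeasureTheory.IntegrableOn (fun u : ℝ => 2⁻¹ * Real.exp (-2⁻¹ * u)) (Set.Ioi 0) :=
  (integrableOn_exp_mul_Ioi (by norm_num : (-2⁻¹ : ℝ) < 0) 0).const_mul _

private theorem kbes_int_exp_val : ∫ u in Set.Ioi (0 : ℝ), 2⁻¹ * Real.exp (-2⁻¹ * u) = 1 := by
  rw [MeasureTheory.integral_const_mul, integral_exp_mul_Ioi (by norm_num : (-2⁻¹ : ℝ) < 0) 0]
  norm_num

/-- The integrand is continuous on `(0, ∞)`, at most `1 / y` times `(y/u) exp (-y/u) ≤ 1` near `0` and at most `exp (-u)` for `u ≥ 1`. -/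
theorem KB_int (y : ℝ) (hy : 0 < y) : MeasureTheory.IntegrableOn (fun u : ℝ => Real.exp (-u - y / u) / u) (Set.Ioi 0) := by
  have h1 : MeasureTheory.IntegrableOn
      (fun u : ℝ => (4 / y) * Real.exp (-Real.sqrt y) * (2⁻¹ * Real.exp (-2⁻¹ * u))) (Set.Ioi 0) :=
    kbes_int_exp.const_mul _
  refine MeasureTheory.Integrable.mono' h1
    ((kbes_cont y).aestronglyMeasurable measurableSet_Ioi) ?_
  refine (MeasureTheory.ae_restrict_iff' measurableSet_Ioi).mpr (Filter.Eventually.of_forall ?_)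
  intro u hu
  have hu' : 0 < u := hu
  rw [Real.norm_of_nonneg (by positivity)]
  exact kbes_bound y u hy hu'

theorem KB_nonneg (y : ℝ) (hy : 0 < y) : 0 ≤ KB y := by
  unfold KB
  refine MeasureTheory.setIntegral_nonneg measurableSet_Ioi (fun u hu => ?_)
  have hu' : 0 < u := hu
  positivity

/-- On `[y, 1]`: `u ≤ 1`, `y/u ≤ 1`, so the integrand is at least `exp (-2) / u`. -/
theorem KB_lower (y : ℝ) (hy : 0 < y) (hy1 : y ≤ 1) : Real.exp (-2) * Real.log (1 / y) ≤ KB y := by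
  have hsub : Set.Ioc y 1 ⊆ Set.Ioi (0 : ℝ) := fun u hu => lt_trans hy hu.1
  have h1 : ∫ u in Set.Ioc y 1, Real.exp (-u - y / u) / u ≤ KB y := by
    unfold KB
    refine MeasureTheory.setIntegral_mono_set (KB_int y hy) ?_ (Filter.Eventually.of_forall hsub)
    refine (MeasureTheory.ae_restrict_iff' measurableSet_Ioi).mpr (Filter.Eventually.of_forall ?_)
    intro u hu
    have hu' : 0 < u := hu
    show (0 : ℝ) ≤ Real.exp (-u - y / u) / u
    positivity
  have h2 : ∫ u in Set.Ioc y 1, Real.exp (-2) * (1 / u) = Real.exp (-2) * Real.log (1 / y) := by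
    rw [← intervalIntegral.integral_of_le hy1, intervalIntegral.integral_const_mul,
      integral_one_div_of_pos hy one_pos]
  have h3 : ∫ u in Set.Ioc y 1, Real.exp (-2) * (1 / u) ≤
      ∫ u in Set.Ioc y 1, Real.exp (-u - y / u) / u := by
    refine MeasureTheory.setIntegral_mono_on ?_ ((KB_int y hy).mono_set hsub) measurableSet_Ioc ?_
    · have hc : ContinuousOn (fun u : ℝ => Real.exp (-2) * (1 / u)) (Set.Icc y 1) := by
        refine continuousOn_const.mul (continuousOn_const.div continuousOn_id (fun u hu => ?_))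
        exact ne_of_gt (lt_of_lt_of_le hy hu.1)
      exact (hc.integrableOn_Icc).mono_set Set.Ioc_subset_Icc_self
    · intro u hu
      have hu0 : 0 < u := lt_trans hy hu.1
      have h4 : y / u ≤ 1 := by
        rw [div_le_one hu0]
        exact hu.1.le
      have h5 : Real.exp (-2) ≤ Real.exp (-u - y / u) :=
        Real.exp_le_exp.mpr (by linarith [hu.2])
      rw [mul_one_div]
      exact div_le_div_of_nonneg_right h5 hu0.le
  rw [← h2]
  exact h3.trans h1

/-- `-u - y/u ≤ -u/2 - y/(2u) - sqrt y` (since `u/2 + y/(2u) ≥ sqrt y`), and `∫ exp (-u/2 - y/(2u)) du/u ≤ C (1 + 1/y)`. -/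
theorem KB_upper : ∃ C : ℝ, 0 < C ∧ ∀ y : ℝ, 0 < y → KB y ≤ C * (1 + 1 / y) * Real.exp (-Real.sqrt y) := by
  refine ⟨4, by norm_num, fun y hy => ?_⟩
  have h1 : KB y ≤ ∫ u in Set.Ioi (0 : ℝ),
      (4 / y) * Real.exp (-Real.sqrt y) * (2⁻¹ * Real.exp (-2⁻¹ * u)) := by
    unfold KB
    exact MeasureTheory.setIntegral_mono_on (KB_int y hy) (kbes_int_exp.const_mul _)
      measurableSet_Ioi (fun u hu => kbes_bound y u hy hu)
  rw [MeasureTheory.integral_const_mul, kbes_int_exp_val, mul_one] at h1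
  have h2 : (4 / y) * Real.exp (-Real.sqrt y) ≤ 4 * (1 + 1 / y) * Real.exp (-Real.sqrt y) := by
    apply mul_le_mul_of_nonneg_right _ (Real.exp_pos _).le
    have h3 : 4 * (1 + 1 / y) = 4 + 4 / y := by ring
    linarith
  exact h1.trans h2

end Pool.Agent.ECM

end

/-! ### from `Lib_MP_f1a94e_ecm.ILow` -/

section

/-!
# Piece M-ILOW: lower bound for the Mellin convolution
-/

set_option autoImplicit false

namespace Pool.Agent.ECM

open Finset Pool.Agent.GaussMR Pool.Agent.GaussCM Pool.Agent.OmAll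

private noncomputable def ilr (x : ℤ) : ℝ := 1 / (1 + (x : ℝ) ^ 2)

private theorem ilr_summable : Summable ilr := by
  have h1 : Summable fun x : ℤ => 1 / (x : ℝ) ^ 2 := Real.summable_one_div_int_pow.2 one_lt_two
  have h2 : Summable fun x : ℤ => if x = 0 then (1 : ℝ) else 0 := (hasSum_ite_eq 0 1).summable
  refine Summable.of_nonneg_of_le (fun x => by unfold ilr; positivity) (fun x => ?_) (h1.add h2)
  unfold ilr
  by_cases hx : x = 0
  · rw [hx]
    simp
  · rw [if_neg hx, add_zero]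
    have h3 : (0 : ℝ) < (x : ℝ) ^ 2 := by positivity
    exact one_div_le_one_div_of_le h3 (by linarith)

private noncomputable def ilq (z : G) : ℝ := ilr z.re * ilr z.im

private theorem ilq_nonneg (z : G) : 0 ≤ ilq z := by
  unfold ilq ilr
  positivity

private theorem ilq_summable : Summable ilq := by
  have h1 : Summable fun p : ℤ × ℤ => ilr p.1 * ilr p.2 :=
    ilr_summable.mul_of_nonneg ilr_summable (fun x => by unfold ilr; positivity)
      (fun x => by unfold ilr; positivity)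
  exact h1.comp_injective (i := fun z : G => (z.re, z.im))
    (fun _ _ h => Zsqrtd.ext (congrArg Prod.fst h) (congrArg Prod.snd h))

private theorem ilq_le {z : G} (hz : 0 < nm z) : 1 / (nm z : ℝ) ^ 2 ≤ 4 * ilq z := by
  have h1 : (nm z : ℝ) = (z.re : ℝ) ^ 2 + (z.im : ℝ) ^ 2 := by
    have := nm_eq z
    exact_mod_cast this
  have h2 : (1 : ℝ) ≤ nm z := by exact_mod_cast hz
  unfold ilq ilr
  set x := (z.re : ℝ)
  set y := (z.im : ℝ)
  have h3 : 4 * (1 / (1 + x ^ 2) * (1 / (1 + y ^ 2))) = 4 / ((1 + x ^ 2) * (1 + y ^ 2)) := by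
    field_simp
  rw [h3, div_le_div_iff₀ (by positivity) (by positivity)]
  rw [h1] at h2 ⊢
  nlinarith [sq_nonneg (x ^ 2 - y ^ 2), sq_nonneg (x ^ 2 + y ^ 2 - 1)]

private theorem il_countable : Countable G :=
  Function.Injective.countable (f := fun z : G => (z.re, z.im))
    (fun _ _ h => Zsqrtd.ext (congrArg Prod.fst h) (congrArg Prod.snd h))

/-- the kernel -/
private noncomputable def ilk (A B v u : ℝ) : ℝ := Real.exp (-(u * B)) * Real.exp (-(v / u * A)) / u

private theorem ilk_eq {A B v u : ℝ} (hB : 0 < B) (hu : 0 < u) :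
    ilk A B v u = B * (fun w : ℝ => Real.exp (-w - v * A * B / w) / w) (B * u) := by
  unfold ilk
  simp only
  rw [← Real.exp_add]
  have h1 : -(u * B) + -(v / u * A) = -(B * u) - v * A * B / (B * u) := by
    field_simp
    ring
  rw [h1]
  field_simp

private theorem ilk_int {A B v : ℝ} (hA : 0 < A) (hB : 0 < B) (hv : 0 < v) :
    MeasureTheory.IntegrableOn (ilk A B v) (Set.Ioi 0) ∧
      ∫ u in Set.Ioi (0 : ℝ), ilk A B v u = KB (v * A * B) := by
  have h1 := KB_int (v * A * B) (by positivity)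
  constructor
  · have h2 := (MeasureTheory.integrableOn_Ioi_comp_mul_left_iff
      (fun w : ℝ => Real.exp (-w - v * A * B / w) / w) 0 hB).2 (by rw [mul_zero]; exact h1)
    have h3 : MeasureTheory.IntegrableOn
        (fun u : ℝ => B * (fun w : ℝ => Real.exp (-w - v * A * B / w) / w) (B * u)) (Set.Ioi 0) :=
      h2.const_mul B
    exact h3.congr_fun (fun u hu => (ilk_eq hB hu).symm) measurableSet_Ioi
  · rw [MeasureTheory.setIntegral_congr_fun measurableSet_Ioi (fun u hu => ilk_eq (v := v) (A := A) hB hu),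
      MeasureTheory.integral_const_mul,
      MeasureTheory.integral_comp_mul_left_Ioi (fun w : ℝ => Real.exp (-w - v * A * B / w) / w) 0 hB,
      mul_zero]
    unfold KB
    rw [smul_eq_mul, ← mul_assoc, mul_inv_cancel₀ hB.ne', one_mul]

open Classical in
/-- terms of the double series, `p = (b, a)` -/
private noncomputable def ilF (χ : G → ℂ) (v : ℝ) (p : G × G) (u : ℝ) : ℂ :=
  ((if p.1 = 0 then 0 else Real.exp (-(u * nm p.1)) : ℝ) : ℂ) *
    (χ p.2 * (Real.exp (-(v / u * nm p.2)) : ℂ)) / (u : ℂ)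

private theorem ilF_zero {χ : G → ℂ} {v : ℝ} {p : G × G} (h : p.1 = 0 ∨ χ p.2 = 0) (u : ℝ) :
    ilF χ v p u = 0 := by
  unfold ilF
  rcases h with h | h
  · rw [if_pos h]
    simp
  · rw [h]
    simp

private theorem ilF_eq {χ : G → ℂ} {v : ℝ} {p : G × G} (h : p.1 ≠ 0) (u : ℝ) :
    ilF χ v p u = χ p.2 * ((ilk (nm p.2) (nm p.1) v u : ℝ) : ℂ) := by
  unfold ilF ilk
  rw [if_neg h]
  push_cast
  ring

open Classical in
/-- the integrals of the terms -/
private noncomputable def ilg (χ : G → ℂ) (v : ℝ) (p : G × G) : ℂ :=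
  if p.1 = 0 then 0 else χ p.2 * ((KB (v * nm p.2 * nm p.1) : ℝ) : ℂ)

private theorem il_chi_zero {D : ℕ} {χ : G → ℂ} (hχ : Chi D χ) : χ 0 = 0 :=
  hχ.even 0 (by rw [nm_zero]; decide)

private theorem ilF_int {D : ℕ} {χ : G → ℂ} (hχ : Chi D χ) {v : ℝ} (hv : 0 < v) (p : G × G) :
    MeasureTheory.IntegrableOn (ilF χ v p) (Set.Ioi 0) ∧
      ∫ u in Set.Ioi (0 : ℝ), ilF χ v p u = ilg χ v p := by
  by_cases h : p.1 = 0 ∨ p.2 = 0
  · have h0 : p.1 = 0 ∨ χ p.2 = 0 := by
      rcases h with h | h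
      · exact Or.inl h
      · exact Or.inr (by rw [h]; exact il_chi_zero hχ)
    have h1 : ilF χ v p = fun _ => 0 := by
      funext u
      exact ilF_zero h0 u
    rw [h1]
    refine ⟨MeasureTheory.integrableOn_zero, ?_⟩
    rw [MeasureTheory.integral_zero]
    unfold ilg
    rcases h0 with h0 | h0
    · rw [if_pos h0]
    · rw [h0, zero_mul, ite_self]
  · push Not at h
    have hA : (0 : ℝ) < nm p.2 := by exact_mod_cast nm_pos h.2
    have hB : (0 : ℝ) < nm p.1 := by exact_mod_cast nm_pos h.1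
    obtain ⟨h1, h2⟩ := ilk_int hA hB hv
    have h3 : ilF χ v p = fun u => χ p.2 * ((ilk (nm p.2) (nm p.1) v u : ℝ) : ℂ) := by
      funext u
      exact ilF_eq h.1 u
    rw [h3]
    refine ⟨(h1.ofReal (𝕜 := ℂ)).const_mul _, ?_⟩
    rw [MeasureTheory.integral_const_mul]
    have h4 : ∫ u in Set.Ioi (0 : ℝ), ((ilk (nm p.2) (nm p.1) v u : ℝ) : ℂ) =
        ((∫ u in Set.Ioi (0 : ℝ), ilk (nm p.2) (nm p.1) v u : ℝ) : ℂ) := integral_ofReal
    rw [h4, h2]
    unfold ilg
    rw [if_neg h.1]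

private theorem ilF_norm {D : ℕ} {χ : G → ℂ} (hχ : Chi D χ) {v : ℝ} (hv : 0 < v) : ∃ M : ℝ, 0 ≤ M ∧
    ∀ p : G × G, ∫ u in Set.Ioi (0 : ℝ), ‖ilF χ v p u‖ ≤ M * (ilq p.1 * ilq p.2) := by
  obtain ⟨C, hC, hKB⟩ := KB_upper
  refine ⟨C * (1 + 1 / v) * (24 / v ^ 2) * 16, by positivity, fun p => ?_⟩
  by_cases h : p.1 = 0 ∨ p.2 = 0
  · have h0 : p.1 = 0 ∨ χ p.2 = 0 := by
      rcases h with h | h
      · exact Or.inl h
      · exact Or.inr (by rw [h]; exact il_chi_zero hχ)
    have h1 : (fun u => ‖ilF χ v p u‖) = fun _ => 0 := by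
      funext u
      rw [ilF_zero h0 u, norm_zero]
    rw [h1, MeasureTheory.integral_zero]
    have := mul_nonneg (ilq_nonneg p.1) (ilq_nonneg p.2)
    positivity
  · push Not at h
    have hA : (0 : ℝ) < nm p.2 := by exact_mod_cast nm_pos h.2
    have hB : (0 : ℝ) < nm p.1 := by exact_mod_cast nm_pos h.1
    have hA1 : (1 : ℝ) ≤ nm p.2 := by exact_mod_cast nm_pos h.2
    have hB1 : (1 : ℝ) ≤ nm p.1 := by exact_mod_cast nm_pos h.1
    have hq2 := ilq_le (nm_pos h.2)
    have hq1 := ilq_le (nm_pos h.1)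
    obtain ⟨A, hAe⟩ : ∃ A : ℝ, A = nm p.2 := ⟨_, rfl⟩
    obtain ⟨B, hBe⟩ : ∃ B : ℝ, B = nm p.1 := ⟨_, rfl⟩
    obtain ⟨h1, h2⟩ := ilk_int hA hB hv
    have h3 : ∫ u in Set.Ioi (0 : ℝ), ‖ilF χ v p u‖ = ‖χ p.2‖ * KB (v * nm p.2 * nm p.1) := by
      rw [← h2, ← MeasureTheory.integral_const_mul]
      refine MeasureTheory.setIntegral_congr_fun measurableSet_Ioi fun u hu => ?_
      have hu' : (0 : ℝ) < u := hu
      show ‖ilF χ v p u‖ = ‖χ p.2‖ * ilk (nm p.2) (nm p.1) v u
      rw [ilF_eq h.1 u, norm_mul, Complex.norm_real, Real.norm_eq_abs, abs_of_nonneg]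
      unfold ilk
      positivity
    rw [h3]
    rw [← hAe] at hA hA1 hq2 ⊢
    rw [← hBe] at hB hB1 hq1 ⊢
    obtain ⟨y, hy⟩ : ∃ y : ℝ, y = v * A * B := ⟨_, rfl⟩
    have hy0 : 0 < y := by rw [hy]; positivity
    have hvy : v ≤ y := by
      rw [hy]
      have := mul_le_mul_of_nonneg_left hA1 hv.le
      nlinarith [mul_pos hv hA]
    have e1 : KB y ≤ C * (1 + 1 / v) * (24 / y ^ 2) := by
      refine (hKB y hy0).trans ?_
      refine mul_le_mul ?_ ?_ (Real.exp_pos _).le (by positivity)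
      · refine mul_le_mul_of_nonneg_left ?_ hC.le
        have := one_div_le_one_div_of_le hv hvy
        linarith
      · have h4 := Real.pow_div_factorial_le_exp (Real.sqrt y) (Real.sqrt_nonneg y) 4
        have h5 : Real.sqrt y ^ 4 = y ^ 2 := by
          calc Real.sqrt y ^ 4 = (Real.sqrt y ^ 2) ^ 2 := by ring
            _ = y ^ 2 := by rw [Real.sq_sqrt hy0.le]
        rw [h5] at h4
        have h6 : (Nat.factorial 4 : ℝ) = 24 := by norm_num [Nat.factorial]
        rw [h6] at h4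
        rw [Real.exp_neg, inv_eq_one_div, div_le_div_iff₀ (Real.exp_pos _) (by positivity)]
        linarith
    have e2 : 24 / y ^ 2 = 24 / v ^ 2 * (1 / A ^ 2 * (1 / B ^ 2)) := by
      rw [hy]
      field_simp
    have e3 : 1 / A ^ 2 * (1 / B ^ 2) ≤ 4 * ilq p.2 * (4 * ilq p.1) :=
      mul_le_mul hq2 hq1 (by positivity) (by have := ilq_nonneg p.2; positivity)
    have hK0 : 0 ≤ KB y := KB_nonneg y hy0
    calc ‖χ p.2‖ * KB (v * A * B) ≤ 1 * KB y := by
          rw [← hy]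
          exact mul_le_mul_of_nonneg_right (hχ.le _) hK0
      _ = KB y := one_mul _
      _ ≤ C * (1 + 1 / v) * (24 / y ^ 2) := e1
      _ = C * (1 + 1 / v) * (24 / v ^ 2) * (1 / A ^ 2 * (1 / B ^ 2)) := by rw [e2]; ring
      _ ≤ C * (1 + 1 / v) * (24 / v ^ 2) * (4 * ilq p.2 * (4 * ilq p.1)) :=
          mul_le_mul_of_nonneg_left e3 (by positivity)
      _ = _ := by ring

private theorem il_prod {D : ℕ} {χ : G → ℂ} (hχ : Chi D χ) {v u : ℝ} (hv : 0 < v) (hu : 0 < u) :
    ∑' p : G × G, ilF χ v p u = (Th u : ℂ) * HH χ (v / u) / (u : ℂ) := by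
  classical
  have h1 : Summable fun z : G => ‖((if z = 0 then 0 else Real.exp (-(u * nm z)) : ℝ) : ℂ)‖ := by
    refine Summable.of_nonneg_of_le (fun z => norm_nonneg _) (fun z => ?_) (summ_exp u hu)
    rw [Complex.norm_real, Real.norm_eq_abs]
    split_ifs
    · rw [abs_zero]
      exact (Real.exp_pos _).le
    · rw [abs_of_pos (Real.exp_pos _)]
  have h2 : Summable fun z : G => ‖χ z * (Real.exp (-(v / u * nm z)) : ℂ)‖ := by
    refine Summable.of_nonneg_of_le (fun z => norm_nonneg _) (fun z => ?_)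
      (summ_exp (v / u) (by positivity))
    rw [norm_mul, Complex.norm_real, Real.norm_eq_abs, abs_of_pos (Real.exp_pos _)]
    exact mul_le_of_le_one_left (Real.exp_pos _).le (hχ.le z)
  have h3 := tsum_mul_tsum_of_summable_norm h1 h2
  have h4 : (Th u : ℂ) = ∑' z : G, ((if z = 0 then 0 else Real.exp (-(u * nm z)) : ℝ) : ℂ) := by
    unfold Th
    rw [Complex.ofReal_tsum]
  rw [h4]
  unfold HH
  rw [h3, ← tsum_div_const]
  refine tsum_congr fun p => ?_
  unfold ilF
  congr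

/-- For `v > 0`: `Th u * HH χ (v/u) / u = ∑'_(a, b ≠ 0) χ a exp (-u nm b - (v/u) nm a) / u`, integrate termwise (Tonelli: `∫ exp (-u nm b - v nm a / u) du/u = KB (v nm a nm b)` by `u ↦ u / nm b`, and `∑_(a,b ≠ 0) KB (v nm a nm b) < ∞` by `KB_upper`: `≤ C_v ∑ (nm a nm b)^(-2)`;
`MeasureTheory.integral_tsum` / `hasSum_integral_of_summable_integral_norm`). Regroup by `c = a b`: `∑_(c ≠ 0) (∑_(a ∈ dvs c) χ a) KB (v nm c)` (for `c ≠ 0`, `(a, b)` with `a b = c` correspond to `a ∈ dvs c`). All terms have nonnegative real part (`r_pos`, `KB_nonneg`), the term `c = 1` is `4 KB v`. -/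
theorem i_low (D : ℕ) (χ : G → ℂ) (hχ : Chi D χ) (hreal : ∀ z, χ z = 0 ∨ χ z = 1 ∨ χ z = -1) (h1 : χ ii = 1) (v : ℝ) (hv : 0 < v) :
    KB v ≤ (∫ u in Set.Ioi (0 : ℝ), (Th u : ℂ) * HH χ (v / u) / (u : ℂ)).re := by
  classical
  have := il_countable
  obtain ⟨M, hM, hnorm⟩ := ilF_norm hχ hv
  have hsum : Summable fun p : G × G => ∫ u in Set.Ioi (0 : ℝ), ‖ilF χ v p u‖ := by
    refine Summable.of_nonneg_of_le
      (fun p => MeasureTheory.integral_nonneg fun u => norm_nonneg _) hnorm ?_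
    exact (ilq_summable.mul_of_nonneg ilq_summable ilq_nonneg ilq_nonneg).mul_left M
  have hs := MeasureTheory.hasSum_integral_of_summable_integral_norm
    (μ := MeasureTheory.volume.restrict (Set.Ioi (0 : ℝ))) (F := ilF χ v)
    (fun p => (ilF_int hχ hv p).1) hsum
  have hint : ∫ u in Set.Ioi (0 : ℝ), (∑' p : G × G, ilF χ v p u) =
      ∫ u in Set.Ioi (0 : ℝ), (Th u : ℂ) * HH χ (v / u) / (u : ℂ) :=
    MeasureTheory.setIntegral_congr_fun measurableSet_Ioi fun u hu => il_prod hχ hv hu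
  rw [hint] at hs
  have hg : (fun p => ∫ u in Set.Ioi (0 : ℝ), ilF χ v p u) = ilg χ v := by
    funext p
    exact (ilF_int hχ hv p).2
  rw [hg] at hs
  have hre := Complex.reCLM.hasSum hs
  -- exhausting finite sets
  let T : ℕ → Finset (G × G) := fun N => (ball (N : ℝ) ×ˢ ball (N : ℝ)).filter
    (fun p => nm p.1 * nm p.2 ≤ N)
  have hmono : Monotone T := by
    intro a b hab p hp
    have hab' : (a : ℝ) ≤ b := by exact_mod_cast hab
    simp only [T, mem_filter, mem_product, mem_ball] at hp ⊢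
    exact ⟨⟨hp.1.1.trans hab', hp.1.2.trans hab'⟩, hp.2.trans hab⟩
  have hex : ∀ p : G × G, ∃ N, p ∈ T N := by
    intro p
    refine ⟨nm p.1 + nm p.2 + nm p.1 * nm p.2, ?_⟩
    simp only [T, mem_filter, mem_product, mem_ball]
    refine ⟨⟨?_, ?_⟩, by omega⟩
    · exact_mod_cast (by omega : nm p.1 ≤ nm p.1 + nm p.2 + nm p.1 * nm p.2)
    · exact_mod_cast (by omega : nm p.2 ≤ nm p.1 + nm p.2 + nm p.1 * nm p.2)
  have hT : Filter.Tendsto T Filter.atTop Filter.atTop :=
    Filter.tendsto_atTop_finset_of_monotone hmono hex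
  have hlim := hre.comp hT
  refine ge_of_tendsto hlim ?_
  filter_upwards [Filter.eventually_ge_atTop 1] with N hN
  show KB v ≤ ∑ p ∈ T N, (ilg χ v p).re
  have hmaps : ∀ p ∈ T N, p.1 * p.2 ∈ ball (N : ℝ) := by
    intro p hp
    simp only [T, mem_filter] at hp
    rw [mem_ball, nm_mul]
    exact_mod_cast hp.2
  rw [← sum_fiberwise_of_maps_to hmaps]
  have hfib : ∀ c ∈ ball (N : ℝ), c ≠ 0 →
      ∑ p ∈ (T N).filter (fun p => p.1 * p.2 = c), (ilg χ v p).re =
        (∑ a ∈ dvs c, χ a).re * KB (v * nm c) := by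
    intro c hc hc0
    rw [mem_ball] at hc
    have hcN : nm c ≤ N := by exact_mod_cast hc
    rw [Complex.re_sum, sum_mul]
    refine sum_nbij (fun p => p.2) ?_ ?_ ?_ ?_
    · intro p hp
      rw [mem_filter] at hp
      unfold dvs
      rw [mem_filter, mem_ball]
      have hdvd : p.2 ∣ c := ⟨p.1, by rw [← hp.2, mul_comm]⟩
      refine ⟨?_, hdvd⟩
      have h3 : nm c = nm p.1 * nm p.2 := by rw [← nm_mul, hp.2]
      have h4 : 0 < nm c := nm_pos hc0
      have h5 : nm p.2 ≤ nm c := by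
        refine Nat.le_of_dvd h4 ⟨nm p.1, ?_⟩
        rw [h3, mul_comm]
      exact_mod_cast h5
    · intro p hp q hq hpq
      rw [mem_coe, mem_filter] at hp hq
      have hpq' : p.2 = q.2 := hpq
      have h3 : q.2 ≠ 0 := by
        intro h0
        apply hc0
        rw [← hq.2, h0, mul_zero]
      have h4 : p.1 * q.2 = q.1 * q.2 := by
        rw [← hpq', hp.2, hpq', hq.2]
      exact Prod.ext (mul_right_cancel₀ h3 h4) hpq'
    · intro a ha
      rw [mem_coe] at ha
      unfold dvs at ha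
      rw [mem_filter, mem_ball] at ha
      obtain ⟨b, hb⟩ := ha.2
      refine ⟨(b, a), ?_, rfl⟩
      rw [mem_coe, mem_filter]
      have h3 : nm c = nm a * nm b := by rw [hb, nm_mul]
      have h4 : 0 < nm c := nm_pos hc0
      have h5 : nm a ≤ nm c := Nat.le_of_dvd h4 ⟨nm b, h3⟩
      have h6 : nm b ≤ nm c := Nat.le_of_dvd h4 ⟨nm a, by rw [h3, mul_comm]⟩
      refine ⟨?_, by rw [hb, mul_comm]⟩
      simp only [T, mem_filter, mem_product, mem_ball]
      refine ⟨⟨?_, ?_⟩, by rw [mul_comm, ← h3]; exact hcN⟩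
      · exact_mod_cast h6.trans hcN
      · exact_mod_cast h5.trans hcN
    · intro p hp
      rw [mem_filter] at hp
      have h3 : p.1 ≠ 0 := by
        intro h0
        apply hc0
        rw [← hp.2, h0, zero_mul]
      unfold ilg
      rw [if_neg h3]
      have h4 : v * (nm p.2 : ℝ) * nm p.1 = v * nm c := by
        rw [← hp.2, nm_mul]
        push_cast
        ring
      rw [h4, Complex.re_mul_ofReal]
  have hzero : ∑ p ∈ (T N).filter (fun p => p.1 * p.2 = 0), (ilg χ v p).re = 0 := by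
    refine sum_eq_zero fun p hp => ?_
    rw [mem_filter] at hp
    unfold ilg
    rcases mul_eq_zero.1 hp.2 with h3 | h3
    · rw [if_pos h3, Complex.zero_re]
    · rw [h3, il_chi_zero hχ, zero_mul, ite_self, Complex.zero_re]
  have hnn : ∀ c ∈ ball (N : ℝ), 0 ≤ ∑ p ∈ (T N).filter (fun p => p.1 * p.2 = c), (ilg χ v p).re := by
    intro c hc
    by_cases hc0 : c = 0
    · rw [hc0, hzero]
    · rw [hfib c hc hc0]
      have h3 : (0 : ℝ) < nm c := by exact_mod_cast nm_pos hc0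
      exact mul_nonneg (r_pos D χ hχ hreal h1 c hc0) (KB_nonneg _ (by positivity))
  have hone : (1 : G) ∈ ball (N : ℝ) := by
    rw [mem_ball, nm_one]
    exact_mod_cast hN
  refine le_trans ?_ (single_le_sum hnn hone)
  rw [hfib 1 hone one_ne_zero, r_one D χ hχ h1, nm_one, Nat.cast_one, mul_one]
  have := KB_nonneg v hv
  linarith

end Pool.Agent.ECM

end

/-! ### from `Lib_MP_f1a94e_ecm.Cheb` -/

section

/-!
# Piece M-CHEB: Chebyshev sums over Gaussian primes
-/

set_option autoImplicit false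

namespace Pool.Agent.ECM

open Finset Pool.Agent.GaussMR Pool.Agent.GaussCM Pool.Agent.OmAll

open Classical in
/-- sums over canonical Gaussian primes: at most two of each prime norm, the others are the squares -/
theorem cheb_transfer (f : ℕ → ℝ) (hf : ∀ n, 0 ≤ f n) (Y : ℝ) (hY : 1 ≤ Y) :
    ∑ w ∈ CP Y, f (nm w) ≤ 2 * ∑ p ∈ (Icc 1 ⌊Y⌋₊).filter Nat.Prime, f p +
      ∑ n ∈ Icc 1 ⌊√Y⌋₊, f (n ^ 2) := by
  set A1 := (CP Y).filter (fun w => (nm w).Prime ∧ w.im < w.re) with hA1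
  set A2 := (CP Y).filter (fun w => (nm w).Prime ∧ ¬ w.im < w.re) with hA2
  set A3 := (CP Y).filter (fun w => ¬ (nm w).Prime) with hA3
  have hsplit : ∑ w ∈ CP Y, f (nm w) = ∑ w ∈ A1, f (nm w) + ∑ w ∈ A2, f (nm w) + ∑ w ∈ A3, f (nm w) := by
    rw [← sum_filter_add_sum_filter_not (CP Y) (fun w => (nm w).Prime) (fun w => f (nm w)),
      ← sum_filter_add_sum_filter_not ((CP Y).filter (fun w => (nm w).Prime))
        (fun w => w.im < w.re) (fun w => f (nm w)), filter_filter, filter_filter]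
  -- the element lies in `PP`
  have hPP1 : ∀ w ∈ A1, w ∈ PP 1 Y := by
    intro w hw
    rw [hA1, mem_filter, CPS.mem_CP] at hw
    obtain ⟨⟨a1, a2, a3, a4, a5⟩, a7, a8⟩ := hw
    rw [mem_PP]
    refine ⟨by exact_mod_cast a7.one_lt, a1, a7, ?_, a8⟩
    rcases a5.lt_or_eq with h | h
    · exact h
    · exfalso
      have h4 := nm_eq w
      rw [← h] at h4
      have h5 : nm w = w.re.natAbs * w.re.natAbs := by
        zify
        rw [h4, abs_mul_abs_self]
        ring
      rw [h5] at a7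
      exact Nat.not_prime_mul (a := w.re.natAbs) (b := w.re.natAbs)
        (fun h => by rw [h] at a7; exact Nat.not_prime_one a7)
        (fun h => by rw [h] at a7; exact Nat.not_prime_one a7) a7
  have hsw : ∀ w : G, nm (⟨w.im, w.re⟩ : G) = nm w := by
    intro w
    zify
    rw [nm_eq, nm_eq]
    ring
  have hPP2 : ∀ w ∈ A2, (⟨w.im, w.re⟩ : G) ∈ PP 1 Y := by
    intro w hw
    rw [hA2, mem_filter, CPS.mem_CP] at hw
    obtain ⟨⟨a1, a2, a3, a4, a5⟩, a7, a8⟩ := hw
    rw [mem_PP, hsw]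
    refine ⟨by exact_mod_cast a7.one_lt, a1, a7, a4, ?_⟩
    show w.re < w.im
    push Not at a8
    rcases a8.lt_or_eq with h | h
    · exact h
    · exfalso
      have h4 := nm_eq w
      rw [h] at h4
      obtain ⟨k, hk⟩ := a3
      rw [hk] at h4
      push_cast at h4
      have : (2 : ℤ) * k + 1 = 2 * w.im ^ 2 := by linarith
      omega
  have hpm : ∀ w ∈ CP Y, (nm w).Prime → nm w ∈ (Icc 1 ⌊Y⌋₊).filter Nat.Prime := by
    intro w hw hp
    rw [CPS.mem_CP] at hw
    rw [mem_filter, mem_Icc]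
    exact ⟨⟨hp.one_lt.le, Nat.le_floor hw.1⟩, hp⟩
  have h1 : ∑ w ∈ A1, f (nm w) ≤ ∑ p ∈ (Icc 1 ⌊Y⌋₊).filter Nat.Prime, f p := by
    calc ∑ w ∈ A1, f (nm w) = ∑ p ∈ A1.image nm, f p := by
          rw [sum_image]
          intro w hw w' hw' h
          exact PP_inj (hPP1 w hw) (hPP1 w' hw') h
      _ ≤ _ := by
          refine sum_le_sum_of_subset_of_nonneg ?_ fun p _ _ => hf p
          intro p hp
          rw [mem_image] at hp
          obtain ⟨w, hw, rfl⟩ := hp
          rw [hA1, mem_filter] at hw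
          exact hpm w hw.1 hw.2.1
  have h2 : ∑ w ∈ A2, f (nm w) ≤ ∑ p ∈ (Icc 1 ⌊Y⌋₊).filter Nat.Prime, f p := by
    calc ∑ w ∈ A2, f (nm w) = ∑ p ∈ A2.image nm, f p := by
          rw [sum_image]
          intro w hw w' hw' h
          have h' : (⟨w.im, w.re⟩ : G) = ⟨w'.im, w'.re⟩ := by
            refine PP_inj (hPP2 w hw) (hPP2 w' hw') ?_
            rw [hsw, hsw]
            exact h
          have e1 := congrArg Zsqrtd.re h'
          have e2 := congrArg Zsqrtd.im h'
          exact Zsqrtd.ext e2 e1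
      _ ≤ _ := by
          refine sum_le_sum_of_subset_of_nonneg ?_ fun p _ _ => hf p
          intro p hp
          rw [mem_image] at hp
          obtain ⟨w, hw, rfl⟩ := hp
          rw [hA2, mem_filter] at hw
          exact hpm w hw.1 hw.2.1
  have h3 : ∑ w ∈ A3, f (nm w) ≤ ∑ n ∈ Icc 1 ⌊√Y⌋₊, f (n ^ 2) := by
    have hreal : ∀ w ∈ A3, w.im = 0 ∧ 0 < w.re ∧ nm w = w.re.toNat ^ 2 ∧ (nm w : ℝ) ≤ Y := by
      intro w hw
      rw [hA3, mem_filter, CPS.mem_CP] at hw
      obtain ⟨⟨a1, a2, a3, a4, a5⟩, a7⟩ := hw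
      have him := CPS.real_of_not_prime a2 a4 a5 a7
      refine ⟨him, a4, ?_, a1⟩
      have h4 := nm_eq w
      rw [him] at h4
      have h5 : ((w.re.toNat : ℕ) : ℤ) = w.re := Int.toNat_of_nonneg a4.le
      have h6 : (nm w : ℤ) = ((w.re.toNat : ℕ) : ℤ) ^ 2 := by rw [h4, h5]; ring
      exact_mod_cast h6
    calc ∑ w ∈ A3, f (nm w) = ∑ n ∈ A3.image (fun w : G => w.re.toNat), f (n ^ 2) := by
          rw [sum_image]
          · refine sum_congr rfl fun w hw => ?_
            rw [(hreal w hw).2.2.1]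
          · intro w hw w' hw' h
            obtain ⟨b1, b2, _⟩ := hreal w hw
            obtain ⟨c1, c2, _⟩ := hreal w' hw'
            have h' : w.re.toNat = w'.re.toNat := h
            apply Zsqrtd.ext
            · omega
            · rw [b1, c1]
      _ ≤ _ := by
          refine sum_le_sum_of_subset_of_nonneg ?_ fun n _ _ => hf _
          intro n hn
          rw [mem_image] at hn
          obtain ⟨w, hw, rfl⟩ := hn
          obtain ⟨b1, b2, b3, b4⟩ := hreal w hw
          rw [mem_Icc]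
          refine ⟨by omega, Nat.le_floor ?_⟩
          rw [b3] at b4
          push_cast at b4
          exact Real.le_sqrt_of_sq_le b4
  rw [hsplit]
  linarith

/-- comparison of sums against a decreasing weight -/
theorem cheb_abel (u g : ℕ → ℝ) (hg : ∀ n, 0 ≤ g n) (hanti : ∀ n, g (n + 1) ≤ g n)
    (hu : ∀ N, 0 ≤ ∑ n ∈ range N, u n) (N : ℕ) :
    0 ≤ ∑ n ∈ range N, u n * g n := by
  have h : ∀ N, (∑ n ∈ range N, u n) * g N ≤ ∑ n ∈ range N, u n * g n := by
    intro N
    induction N with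
    | zero => simp
    | succ N ih =>
      rw [sum_range_succ (fun n => u n * g n)]
      have h1 := hu (N + 1)
      have h2 := mul_le_mul_of_nonneg_left (hanti N) h1
      have h3 : (∑ n ∈ range (N + 1), u n) * g N = (∑ n ∈ range N, u n) * g N + u N * g N := by
        rw [sum_range_succ]
        ring
      linarith
  exact le_trans (mul_nonneg (hu N) (hg N)) (h N)

/-- `∑_(n ≤ N) n^(s-1) ≤ N^s / s` -/
theorem cheb_rpow_sum (s : ℝ) (hs : 0 < s) (hs1 : s ≤ 1) (N : ℕ) :
    ∑ n ∈ range N, ((n : ℝ) + 1) ^ (s - 1) ≤ (N : ℝ) ^ s / s := by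
  induction N with
  | zero => simp [Real.zero_rpow hs.ne']
  | succ N ih =>
    rw [sum_range_succ]
    have hpos : (0 : ℝ) < (N : ℝ) + 1 := by positivity
    have h1 : (N : ℝ) ^ s ≤ ((N : ℝ) + 1) ^ s - s * ((N : ℝ) + 1) ^ (s - 1) := by
      have e1 : (N : ℝ) = ((N : ℝ) + 1) * (1 + -1 / ((N : ℝ) + 1)) := by
        field_simp
        ring
      have h2 : (-1 : ℝ) ≤ -1 / ((N : ℝ) + 1) := by
        rw [le_div_iff₀ hpos]
        have : (0 : ℝ) ≤ N := Nat.cast_nonneg N
        linarith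
      have h3 : (1 + -1 / ((N : ℝ) + 1)) ^ s ≤ 1 + s * (-1 / ((N : ℝ) + 1)) :=
        rpow_one_add_le_one_add_mul_self h2 hs.le hs1
      calc (N : ℝ) ^ s = (((N : ℝ) + 1) * (1 + -1 / ((N : ℝ) + 1))) ^ s := by rw [← e1]
        _ = ((N : ℝ) + 1) ^ s * (1 + -1 / ((N : ℝ) + 1)) ^ s :=
            Real.mul_rpow hpos.le (by linarith)
        _ ≤ ((N : ℝ) + 1) ^ s * (1 + s * (-1 / ((N : ℝ) + 1))) :=
            mul_le_mul_of_nonneg_left h3 (by positivity)
        _ = ((N : ℝ) + 1) ^ s - s * ((N : ℝ) + 1) ^ (s - 1) := by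
            rw [Real.rpow_sub_one hpos.ne']
            field_simp
            ring
    push_cast
    rw [le_div_iff₀ hs] at ih ⊢
    linarith

/-- Chebyshev: sums over primes of `log p p^(η-1)` -/
theorem cheb_primes (η : ℝ) (hη : 0 < η) (hη1 : η ≤ 1) (N : ℕ) :
    ∑ p ∈ (Icc 1 N).filter Nat.Prime, Real.log p * (p : ℝ) ^ (η - 1) ≤
      Real.log 4 * ((N : ℝ) ^ η / η) := by
  have h4 : 0 ≤ Real.log 4 := Real.log_nonneg (by norm_num)
  have hre : ∀ (M : ℕ) (F : ℕ → ℝ), ∑ p ∈ (Icc 1 M).filter Nat.Prime, F p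
      = ∑ n ∈ range M, if (n + 1).Prime then F (n + 1) else 0 := by
    intro M F
    rw [sum_filter, range_eq_Ico, sum_Ico_add' (fun n => if n.Prime then F n else 0) 0 M 1]
    rfl
  have hab := cheb_abel (fun n => Real.log 4 - if (n + 1).Prime then Real.log ((n + 1 : ℕ) : ℝ) else 0)
    (fun n => ((n : ℝ) + 1) ^ (η - 1)) (fun n => by positivity) (fun n => by
      show (((n + 1 : ℕ) : ℝ) + 1) ^ (η - 1) ≤ ((n : ℝ) + 1) ^ (η - 1)
      push_cast
      exact Real.rpow_le_rpow_of_nonpos (by positivity) (by linarith) (by linarith))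
    (fun M => by
      have h1 := Chebyshev.theta_le_log4_mul_x (x := (M : ℝ)) (by positivity)
      unfold Chebyshev.theta at h1
      rw [Nat.floor_natCast] at h1
      have h2 : (Ioc 0 M).filter Nat.Prime = (Icc 1 M).filter Nat.Prime := by
        ext p
        simp only [mem_filter, mem_Ioc, mem_Icc]
        constructor
        · rintro ⟨⟨h1, h2⟩, h3⟩
          exact ⟨⟨h1, h2⟩, h3⟩
        · rintro ⟨⟨h1, h2⟩, h3⟩
          exact ⟨⟨h1, h2⟩, h3⟩
      rw [h2, hre M (fun p => Real.log p)] at h1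
      rw [sum_sub_distrib, sum_const, card_range, nsmul_eq_mul]
      linarith) N
  rw [hre N (fun p => Real.log p * (p : ℝ) ^ (η - 1))]
  have h5 : ∑ n ∈ range N, (Real.log 4 - if (n + 1).Prime then Real.log ((n + 1 : ℕ) : ℝ) else 0) *
      ((n : ℝ) + 1) ^ (η - 1) = Real.log 4 * ∑ n ∈ range N, ((n : ℝ) + 1) ^ (η - 1) -
      ∑ n ∈ range N, if (n + 1).Prime then Real.log ((n + 1 : ℕ) : ℝ) * ((n + 1 : ℕ) : ℝ) ^ (η - 1)
        else 0 := by
    rw [mul_sum, ← sum_sub_distrib]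
    refine sum_congr rfl fun n _ => ?_
    split_ifs
    · push_cast
      ring
    · ring
  rw [h5] at hab
  have h6 := mul_le_mul_of_nonneg_left (cheb_rpow_sum η hη hη1 N) h4
  linarith

/-- Elements of `CP Y` have norm a prime `1 mod 4` (two for each such prime) or `q²`, `q` a prime `3 mod 4` (see the proof of `CP_sum`); so the sum is at most `2 ∑_(p ≤ Y) log p p^(η-1) + ∑_(q ≤ sqrt Y) 2 log q q^(2η-2)`. By partial summation from `∑_(p ≤ t) log p ≤ log 4 t`
(Mathlib `Chebyshev.theta_le_log4_mul_x`), or dyadically: `∑_(2^i < p ≤ 2^(i+1)) log p p^(η-1) ≤ 2^(i(η-1)) log 4 2^(i+1)`. -/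
theorem cheb_pow (η : ℝ) (hη : 0 < η) (hη1 : η ≤ 1 / 2) : ∃ C : ℝ, 0 < C ∧ ∀ Y : ℝ, 1 ≤ Y →
    ∑ p ∈ CP Y, Real.log (nm p) * (nm p : ℝ) ^ (η - 1) ≤ C * Y ^ η := by
  classical
  have h4 : 0 < Real.log 4 := Real.log_pos (by norm_num)
  refine ⟨2 * (Real.log 4 / η) + 2 / η / (2 * η), by positivity, fun Y hY => ?_⟩
  have hYη : 0 < Y ^ η := by positivity
  have h1 := cheb_transfer (fun n => Real.log n * (n : ℝ) ^ (η - 1))
    (fun n => mul_nonneg (Real.log_natCast_nonneg n) (by positivity)) Y hY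
  have h2 := cheb_primes η hη (by linarith) ⌊Y⌋₊
  have h3 : ((⌊Y⌋₊ : ℕ) : ℝ) ^ η ≤ Y ^ η :=
    Real.rpow_le_rpow (by positivity) (Nat.floor_le (by linarith)) hη.le
  have h5 : Real.log 4 * (((⌊Y⌋₊ : ℕ) : ℝ) ^ η / η) ≤ Real.log 4 / η * Y ^ η := by
    calc Real.log 4 * (((⌊Y⌋₊ : ℕ) : ℝ) ^ η / η) = Real.log 4 / η * ((⌊Y⌋₊ : ℕ) : ℝ) ^ η := by ring
      _ ≤ Real.log 4 / η * Y ^ η := mul_le_mul_of_nonneg_left h3 (by positivity)
  have h6 : ∑ n ∈ Icc 1 ⌊√Y⌋₊, Real.log ((n ^ 2 : ℕ) : ℝ) * ((n ^ 2 : ℕ) : ℝ) ^ (η - 1)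
      ≤ 2 / η / (2 * η) * Y ^ η := by
    calc ∑ n ∈ Icc 1 ⌊√Y⌋₊, Real.log ((n ^ 2 : ℕ) : ℝ) * ((n ^ 2 : ℕ) : ℝ) ^ (η - 1)
        ≤ ∑ n ∈ Icc 1 ⌊√Y⌋₊, 2 / η * (n : ℝ) ^ (2 * η - 1) := by
          refine sum_le_sum fun n hn => ?_
          rw [mem_Icc] at hn
          have hn1 : (1 : ℝ) ≤ n := by exact_mod_cast hn.1
          have hn0 : (0 : ℝ) < n := by linarith
          push_cast
          rw [Real.log_pow]
          have e1 : ((n : ℝ) ^ 2) ^ (η - 1) = (n : ℝ) ^ (2 * (η - 1)) := by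
            rw [← Real.rpow_natCast, ← Real.rpow_mul hn0.le]
            norm_num
          rw [e1]
          have e2 : Real.log n ≤ (n : ℝ) ^ η / η := Real.log_le_rpow_div hn0.le hη
          calc ((2 : ℕ) : ℝ) * Real.log n * (n : ℝ) ^ (2 * (η - 1))
              ≤ ((2 : ℕ) : ℝ) * ((n : ℝ) ^ η / η) * (n : ℝ) ^ (2 * (η - 1)) := by
                refine mul_le_mul_of_nonneg_right ?_ (by positivity)
                exact mul_le_mul_of_nonneg_left e2 (by positivity)
            _ = 2 / η * ((n : ℝ) ^ η * (n : ℝ) ^ (2 * (η - 1))) := by push_cast; ring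
            _ = 2 / η * (n : ℝ) ^ (η + 2 * (η - 1)) := by rw [← Real.rpow_add hn0]
            _ ≤ 2 / η * (n : ℝ) ^ (2 * η - 1) := by
                refine mul_le_mul_of_nonneg_left ?_ (by positivity)
                exact Real.rpow_le_rpow_of_exponent_le hn1 (by linarith)
      _ = 2 / η * ∑ n ∈ range ⌊√Y⌋₊, ((n : ℝ) + 1) ^ (2 * η - 1) := by
          rw [← mul_sum, range_eq_Ico]
          congr 1
          have := sum_Ico_add' (fun n : ℕ => (n : ℝ) ^ (2 * η - 1)) 0 ⌊√Y⌋₊ 1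
          push_cast at this
          rw [this]
          rfl
      _ ≤ 2 / η * (((⌊√Y⌋₊ : ℕ) : ℝ) ^ (2 * η) / (2 * η)) :=
          mul_le_mul_of_nonneg_left (cheb_rpow_sum (2 * η) (by positivity) (by linarith) _)
            (by positivity)
      _ ≤ 2 / η * (Y ^ η / (2 * η)) := by
          refine mul_le_mul_of_nonneg_left ?_ (by positivity)
          refine div_le_div_of_nonneg_right ?_ (by positivity)
          calc ((⌊√Y⌋₊ : ℕ) : ℝ) ^ (2 * η) ≤ (√Y) ^ (2 * η) :=
                Real.rpow_le_rpow (by positivity) (Nat.floor_le (by positivity)) (by positivity)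
            _ = Y ^ η := by
                rw [Real.sqrt_eq_rpow, ← Real.rpow_mul (by linarith)]
                congr 1
                ring
      _ = 2 / η / (2 * η) * Y ^ η := by ring
  linarith

/-- `∑_(j ≥ 2) log nm p / nm p^j ≤ 2 log nm p / nm p²`, and `∑_p log nm p / nm p^(2-η) ≤ ∑_(z ≠ 0) 2 nm z^(-3/2 + ..)` converges (or: `∑_(p ∈ CP Y) nm p ^ (-5/4) ≤ C`: at most `O(t)` elements of norm at most `t`). The exponent `η ≤ 1/4` on the right is for the error terms. -/
theorem cheb_tail (η : ℝ) (hη : 0 ≤ η) (hη1 : η ≤ 1 / 4) : ∃ C : ℝ, 0 < C ∧ ∀ Y : ℝ, 1 ≤ Y →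
    ∑ p ∈ CP Y, ∑ j ∈ Icc 2 ⌊Y⌋₊, Real.log (nm p) / ((nm p : ℝ) ^ j) ^ (1 - η) ≤ C := by
  classical
  have hsum : Summable (fun n : ℕ => (n : ℝ) ^ (-(11 / 8) : ℝ)) := by
    rw [Real.summable_nat_rpow]
    norm_num
  set S : ℝ := ∑' n : ℕ, (n : ℝ) ^ (-(11 / 8) : ℝ) with hS
  have hS0 : 0 ≤ S := tsum_nonneg fun n => by positivity
  refine ⟨32 * (3 * S) + 1, by positivity, fun Y hY => ?_⟩
  have h1 : ∀ p ∈ CP Y, ∑ j ∈ Icc 2 ⌊Y⌋₊, Real.log (nm p) / ((nm p : ℝ) ^ j) ^ (1 - η)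
      ≤ 32 * (nm p : ℝ) ^ (-(11 / 8) : ℝ) := by
    intro p hp
    have h5 : 5 ≤ nm p := CP_nm hp
    set x : ℝ := (nm p : ℝ) with hx
    have hx5 : (5 : ℝ) ≤ x := by rw [hx]; exact_mod_cast h5
    have hx0 : 0 < x := by linarith
    set q : ℝ := x ^ (-(1 - η)) with hq
    have hq0 : 0 < q := by positivity
    have hq34 : q ≤ x ^ (-(3 / 4) : ℝ) := Real.rpow_le_rpow_of_exponent_le (by linarith) (by linarith)
    have hqh : q ≤ 1 / 2 := by
      refine hq34.trans ?_
      have e1 : (4 : ℝ) ^ (-(3 / 4) : ℝ) ≤ 1 / 2 := by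
        have h42 : (4 : ℝ) ^ (-(3 / 4) : ℝ) = (2 : ℝ) ^ (2 * -(3 / 4) : ℝ) := by
          rw [Real.rpow_mul (by norm_num)]
          norm_num
        rw [h42]
        calc (2 : ℝ) ^ (2 * -(3 / 4) : ℝ) ≤ (2 : ℝ) ^ (-1 : ℝ) :=
              Real.rpow_le_rpow_of_exponent_le (by norm_num) (by norm_num)
          _ = 1 / 2 := by rw [Real.rpow_neg_one]; norm_num
      exact (Real.rpow_le_rpow_of_nonpos (by norm_num) (by linarith) (by norm_num)).trans e1
    have hterm : ∀ j : ℕ, Real.log x / (x ^ j) ^ (1 - η) = Real.log x * q ^ j := by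
      intro j
      rw [div_eq_mul_inv]
      congr 1
      rw [hq, ← Real.rpow_natCast, ← Real.rpow_natCast, ← Real.rpow_mul hx0.le,
        ← Real.rpow_mul hx0.le, ← Real.rpow_neg hx0.le]
      congr 1
      ring
    have hlog0 : 0 ≤ Real.log x := Real.log_nonneg (by linarith)
    calc ∑ j ∈ Icc 2 ⌊Y⌋₊, Real.log x / (x ^ j) ^ (1 - η)
        = Real.log x * ∑ j ∈ Icc 2 ⌊Y⌋₊, q ^ j := by
          rw [mul_sum]
          exact sum_congr rfl fun j _ => hterm j
      _ ≤ Real.log x * (2 * q ^ 2) := by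
          refine mul_le_mul_of_nonneg_left ?_ hlog0
          have e1 : ∀ M : ℕ, ∑ j ∈ Icc 2 M, q ^ j ≤ 2 * q ^ 2 := by
            intro M
            have e2 : ∑ j ∈ Icc 2 M, q ^ j ≤ ∑ i ∈ range (M + 1), q ^ 2 * q ^ i := by
              calc ∑ j ∈ Icc 2 M, q ^ j = ∑ i ∈ (Icc 2 M).image (fun j => j - 2), q ^ 2 * q ^ i := by
                    rw [sum_image]
                    · refine sum_congr rfl fun j hj => ?_
                      rw [mem_Icc] at hj
                      rw [← pow_add]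
                      congr 1
                      omega
                    · intro i hi j hj h
                      rw [mem_coe, mem_Icc] at hi hj
                      have h' : i - 2 = j - 2 := h
                      omega
                _ ≤ _ := by
                    refine sum_le_sum_of_subset_of_nonneg ?_ fun i _ _ => by positivity
                    intro i hi
                    rw [mem_image] at hi
                    obtain ⟨j, hj, rfl⟩ := hi
                    rw [mem_Icc] at hj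
                    rw [mem_range]
                    omega
            refine e2.trans ?_
            rw [← mul_sum, mul_comm 2]
            refine mul_le_mul_of_nonneg_left ?_ (by positivity)
            have e3 : (1 - q) * ∑ i ∈ range (M + 1), q ^ i = 1 - q ^ (M + 1) :=
              mul_neg_geom_sum q (M + 1)
            have e4 : 0 ≤ ∑ i ∈ range (M + 1), q ^ i := sum_nonneg fun i _ => by positivity
            have e5 : 0 < q ^ (M + 1) := by positivity
            nlinarith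
          exact e1 _
      _ ≤ (8 * x ^ (1 / 8 : ℝ)) * (2 * (x ^ (-(3 / 4) : ℝ)) ^ 2) := by
          have e1 : Real.log x ≤ 8 * x ^ (1 / 8 : ℝ) := by
            have := Real.log_le_rpow_div hx0.le (show (0 : ℝ) < 1 / 8 by norm_num)
            linarith
          refine mul_le_mul e1 ?_ (by positivity) (by positivity)
          exact mul_le_mul_of_nonneg_left (pow_le_pow_left₀ hq0.le hq34 2) (by norm_num)
      _ = 16 * x ^ (-(11 / 8) : ℝ) := by
          have e1 : (x ^ (-(3 / 4) : ℝ)) ^ 2 = x ^ (-(3 / 2) : ℝ) := by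
            rw [← Real.rpow_natCast, ← Real.rpow_mul hx0.le]
            norm_num
          rw [e1, show (-(11 / 8) : ℝ) = 1 / 8 + -(3 / 2) by norm_num, Real.rpow_add hx0]
          ring
      _ ≤ 32 * x ^ (-(11 / 8) : ℝ) := by
          refine mul_le_mul_of_nonneg_right (by norm_num) (by positivity)
  have h2 := cheb_transfer (fun n => (n : ℝ) ^ (-(11 / 8) : ℝ)) (fun n => by positivity) Y hY
  have h3 : ∑ p ∈ (Icc 1 ⌊Y⌋₊).filter Nat.Prime, (p : ℝ) ^ (-(11 / 8) : ℝ) ≤ S :=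
    hsum.sum_le_tsum _ fun n _ => by positivity
  have h4 : ∑ n ∈ Icc 1 ⌊√Y⌋₊, ((n ^ 2 : ℕ) : ℝ) ^ (-(11 / 8) : ℝ) ≤ S := by
    refine le_trans (sum_le_sum fun n hn => ?_) (hsum.sum_le_tsum (Icc 1 ⌊√Y⌋₊) fun n _ => by positivity)
    rw [mem_Icc] at hn
    have hn1 : (1 : ℝ) ≤ n := by exact_mod_cast hn.1
    push_cast
    exact Real.rpow_le_rpow_of_nonpos (by linarith) (by nlinarith) (by norm_num)
  calc ∑ p ∈ CP Y, ∑ j ∈ Icc 2 ⌊Y⌋₊, Real.log (nm p) / ((nm p : ℝ) ^ j) ^ (1 - η)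
      ≤ ∑ p ∈ CP Y, 32 * (nm p : ℝ) ^ (-(11 / 8) : ℝ) := sum_le_sum h1
    _ = 32 * ∑ p ∈ CP Y, (nm p : ℝ) ^ (-(11 / 8) : ℝ) := by rw [mul_sum]
    _ ≤ 32 * (3 * S) := by
        refine mul_le_mul_of_nonneg_left ?_ (by norm_num)
        linarith
    _ ≤ 32 * (3 * S) + 1 := by linarith

end Pool.Agent.ECM

end
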