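import Mathlib
import Pool.Agent.Lib_MP_f1a94e_m.G01
import Pool.Agent.Lib_MP_f1a94e_m.G06
import Pool.Agent.Lib_MP_f1a94e_m.G07
import Pool.Agent.Lib_MP_f1a94e_m.G08
import Pool.Agent.Lib_MP_f1a94e_m.G09
import Pool.Agent.Lib_MP_f1a94e_m.G10
import Pool.Agent.Lib_MP_f1a94e_m.G11
import Pool.Agent.Lib_MP_f1a94e_m.G12

/-!
# MP_f1a94e_nt: merged library part G16

Concatenation of files of the libraries `Lib_MP_f1a94e_*` (each in its own section), only to save build time.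
-/

/-! ### from `Lib_MP_f1a94e_aq.DCount` -/

section

/-!
# Piece DCOUNT: pairs `(m, d)` with congruence conditions
-/

set_option autoImplicit false

namespace Pool.Agent.OmAll

open Finset Pool.Agent.GaussMR Filter

namespace DCount

/-- the representative of the class of an edge -/
def rep (M : ℕ) (e : G × G) : G × G := (⟨e.1.re % M, e.1.im % M⟩, ⟨e.2.re % M, e.2.im % M⟩)

theorem cg_rep (M : ℕ) (e : G × G) : cg M e.1 (rep M e).1 ∧ cg M e.2 (rep M e).2 := by
  have h : ∀ a : ℤ, (M : ℤ) ∣ a - a % M := fun a => Int.dvd_self_sub_emod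
  exact ⟨⟨h _, h _⟩, ⟨h _, h _⟩⟩

theorem rep_mem (M : ℕ) (hM : 0 < M) (e : G × G) (he : det e.1 e.2 = 1) : rep M e ∈ cls M := by
  have hM' : (0 : ℤ) < M := by exact_mod_cast hM
  rw [mem_cls]
  have h1 : ∀ a : ℤ, 0 ≤ a % M ∧ a % M < M := fun a => ⟨Int.emod_nonneg _ hM'.ne', Int.emod_lt_of_pos _ hM'⟩
  refine ⟨h1 _, h1 _, h1 _, h1 _, ?_⟩
  obtain ⟨⟨⟨a, ha⟩, ⟨b, hb⟩⟩, ⟨⟨c, hc⟩, ⟨d, hd⟩⟩⟩ := cg_rep M e
  have ha' : (rep M e).1.re = e.1.re - M * a := by linarith
  have hb' : (rep M e).1.im = e.1.im - M * b := by linarith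
  have hc' : (rep M e).2.re = e.2.re - M * c := by linarith
  have hd' : (rep M e).2.im = e.2.im - M * d := by linarith
  unfold det at he ⊢
  rw [ha', hb', hc', hd']
  refine ⟨-(e.1.re * d) - a * e.2.im + M * a * d + e.1.im * c + b * e.2.re - M * b * c, ?_⟩
  linear_combination he

theorem rep_unique (M : ℕ) (e γ : G × G) (hγ : γ ∈ cls M) (h1 : cg M e.1 γ.1) (h2 : cg M e.2 γ.2) :
    rep M e = γ := by
  rw [mem_cls] at hγ
  obtain ⟨⟨a1, a2⟩, ⟨b1, b2⟩, ⟨c1, c2⟩, ⟨d1, d2⟩, -⟩ := hγ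
  have key : ∀ a b : ℤ, 0 ≤ b → b < M → (M : ℤ) ∣ a - b → a % M = b := by
    intro a b hb0 hb1 hab
    rw [Int.emod_eq_emod_iff_emod_sub_eq_zero.mpr (Int.emod_eq_zero_of_dvd hab),
      Int.emod_eq_of_lt hb0 hb1]
  apply Prod.ext
  · exact Zsqrtd.ext (key _ _ a1 a2 h1.1) (key _ _ b1 b2 h1.2)
  · exact Zsqrtd.ext (key _ _ c1 c2 h2.1) (key _ _ d1 d2 h2.2)

open Classical in
theorem count_cls (M : ℕ) (hM : 0 < M) (P : G × G → Prop) (hP : Per M P) (s t x : ℝ) :
    {e : G × G | e ∈ NE 1 0 s t x ∧ P e}.ncard = ∑ γ ∈ (cls M).filter P, (NE M γ s t x).ncard := by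
  have hfin : {e : G × G | e ∈ NE 1 0 s t x ∧ P e}.Finite :=
    (NE_finite 1 0 s t x).subset fun e he => he.1
  rw [Set.ncard_eq_toFinset_card _ hfin]
  rw [Finset.card_eq_sum_card_fiberwise (f := rep M) (t := (cls M).filter P)]
  · refine Finset.sum_congr rfl fun γ hγ => ?_
    rw [Finset.mem_filter] at hγ
    rw [← Set.ncard_coe_finset]
    congr 1
    ext e
    simp only [Finset.coe_filter, Set.Finite.mem_toFinset, Set.mem_setOf_eq]
    constructor
    · rintro ⟨⟨⟨h1, h2, h3, h4, h5, -, -⟩, -⟩, h8⟩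
      obtain ⟨h9, h10⟩ := cg_rep M e
      rw [h8] at h9 h10
      exact ⟨h1, h2, h3, h4, h5, h9, h10⟩
    · rintro ⟨h1, h2, h3, h4, h5, h6, h7⟩
      refine ⟨⟨⟨h1, h2, h3, h4, h5, ?_, ?_⟩, ?_⟩, rep_unique M e γ hγ.1 h6 h7⟩
      · exact ⟨by simp, by simp⟩
      · exact ⟨by simp, by simp⟩
      · exact (hP e γ h6 h7).mpr hγ.2
  · intro e he
    rw [Finset.mem_coe, Set.Finite.mem_toFinset] at he
    rw [Finset.mem_coe, Finset.mem_filter]
    obtain ⟨h9, h10⟩ := cg_rep M e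
    exact ⟨rep_mem M hM e he.1.1, (hP e _ h9 h10).mp he.2⟩

open Classical in
theorem count_lim (M : ℕ) (hM : 0 < M) (P : G × G → Prop) (hP : Per M P) (κ : ℝ)
    (hκ : ∀ γ : G × G, (M : ℤ) ∣ det γ.1 γ.2 - 1 → ∀ s t : ℝ, s ≤ t →
      Tendsto (fun x : ℝ => ((NE M γ s t x).ncard : ℝ) / x) atTop (nhds (κ * (t - s))))
    (s t : ℝ) (hst : s ≤ t) :
    Tendsto (fun x : ℝ => ({e : G × G | e ∈ NE 1 0 s t x ∧ P e}.ncard : ℝ) / x) atTop
      (nhds (((cls M).filter P).card * (κ * (t - s)))) := by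
  have h1 : (fun x : ℝ => ({e : G × G | e ∈ NE 1 0 s t x ∧ P e}.ncard : ℝ) / x) =
      fun x : ℝ => ∑ γ ∈ (cls M).filter P, ((NE M γ s t x).ncard : ℝ) / x := by
    funext x
    rw [count_cls M hM P hP s t x]
    push_cast
    rw [Finset.sum_div]
  rw [h1, ← nsmul_eq_mul, ← Finset.sum_const]
  apply tendsto_finsetSum
  intro γ hγ
  rw [Finset.mem_filter, mem_cls] at hγ
  exact hκ γ hγ.1.2.2.2.2 s t hst

end DCount

/-- `Ce g` depends only on the class of `e` modulo `M = 2 (g g')^2`, every edge has exactly one representative in `cls M`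
(`det = 1`), so the set of `dcount_edges` is the disjoint union of the `NE M γ s t x`, `γ ∈ cls M`, `Ce g γ`; each has `~ κ_M (t - s) x`
elements (`equid`), and `κ_1 = κ_M #cls M` (the same with all classes). `local_density` gives the limit
`κ_1 / 4 * (1/3) ∏ Ap p (t - s)`. So `κ = κ_1 / 12`, `κ ≥ 0` (a limit of nonnegative numbers). -/
theorem dcount : ∃ κ : ℝ, 0 ≤ κ ∧ ∀ g : ℕ × ℕ, Adm g → ∀ s t : ℝ, s ≤ t →
    Tendsto (fun x : ℝ => ({r : ℕ × ℕ | r ∈ pd x ∧ Cd g r ∧ s ≤ tt r ∧ tt r < t}.ncard : ℝ) / x) atTop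
      (nhds (κ * (∏ p ∈ (g.1 * g.2).primeFactors, Ap p) * (t - s))) := by
  classical
  obtain ⟨κ₁, hκ₁⟩ := equid 1 one_pos
  have h0 : ((1 : ℕ) : ℤ) ∣ det (0 : G × G).1 (0 : G × G).2 - 1 := by simp
  have hnn : 0 ≤ κ₁ := by
    have h1 := hκ₁ 0 h0 0 1 zero_le_one
    rw [sub_zero, mul_one] at h1
    apply ge_of_tendsto h1
    filter_upwards [eventually_ge_atTop (0 : ℝ)] with x hx
    positivity
  refine ⟨κ₁ / 12, by positivity, fun g hg s t hst => ?_⟩
  obtain ⟨κ, hκ⟩ := equid (2 * (g.1 * g.2) ^ 2) (by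
    have : g.1 * g.2 ≠ 0 := hg.1.ne_zero
    positivity)
  have hM : 0 < 2 * (g.1 * g.2) ^ 2 := by
    have : g.1 * g.2 ≠ 0 := hg.1.ne_zero
    positivity
  have hall := DCount.count_lim _ hM (fun _ => True) (fun _ _ _ _ => Iff.rfl) κ hκ 0 1 zero_le_one
  have hkap : κ₁ = ((cls (2 * (g.1 * g.2) ^ 2)).card : ℝ) * κ := by
    have h1 := hκ₁ 0 h0 0 1 zero_le_one
    simp only [and_true, Set.setOf_mem_eq, Finset.filter_true] at hall
    have h2 := tendsto_nhds_unique h1 hall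
    linarith
  have hmain := DCount.count_lim _ hM (Ce g) (Ce_per g) κ hκ s t hst
  rw [local_density g hg] at hmain
  have h4 : (fun x : ℝ => ({r : ℕ × ℕ | r ∈ pd x ∧ Cd g r ∧ s ≤ tt r ∧ tt r < t}.ncard : ℝ) / x) =
      fun x : ℝ => (1 / 4 : ℝ) * (({e : G × G | e ∈ NE 1 0 s t x ∧ Ce g e}.ncard : ℝ) / x) := by
    funext x
    have h5 := dcount_edges g hg s t x
    rw [← h5]
    push_cast
    ring
  rw [h4]
  have h6 : κ₁ / 12 * (∏ p ∈ (g.1 * g.2).primeFactors, Ap p) * (t - s) =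
      (1 / 4 : ℝ) * (1 / 3 * (∏ p ∈ (g.1 * g.2).primeFactors, Ap p) *
        ((cls (2 * (g.1 * g.2) ^ 2)).card : ℝ) * (κ * (t - s))) := by
    rw [hkap]
    ring
  rw [h6]
  exact hmain.const_mul _

end Pool.Agent.OmAll

end

/-! ### from `Lib_MP_f1a94e_eq.EqnB` -/

section

/-!
# Piece EQNB: counting pairs of determinant `n`
-/

set_option autoImplicit false

namespace Pool.Agent.OmEq

open Finset Pool.Agent.GaussMR Pool.Agent.OmAll Filter

namespace EqnB

/-- the pair of determinant `n` from an edge -/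
def psi (n : ℕ) (c : ℤ) (e : G × G) : G × G := (e.1, (c : G) * e.1 + (n : G) * e.2)

theorem psi_re (n : ℕ) (c : ℤ) (e : G × G) : (psi n c e).2.re = c * e.1.re + n * e.2.re := by
  simp [psi]

theorem psi_im (n : ℕ) (c : ℤ) (e : G × G) : (psi n c e).2.im = c * e.1.im + n * e.2.im := by
  simp [psi]

theorem psi_inj (n : ℕ) (hn : 0 < n) (c : ℤ) : Function.Injective (psi n c) := by
  intro e f h
  have h1 : e.1 = f.1 := by
    have h0 : (psi n c e).1 = (psi n c f).1 := by rw [h]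
    exact h0
  have h2 := psi_re n c e
  have h3 := psi_im n c e
  rw [h, psi_re, ← h1] at h2
  rw [h, psi_im, ← h1] at h3
  have hn' : (n : ℤ) ≠ 0 := by exact_mod_cast hn.ne'
  have h4 : f.2.re = e.2.re := mul_left_cancel₀ hn' (by linarith)
  have h5 : f.2.im = e.2.im := mul_left_cancel₀ hn' (by linarith)
  exact Prod.ext h1 (Zsqrtd.ext h4.symm h5.symm)

theorem det_psi (n : ℕ) (c : ℤ) (e : G × G) : det e.1 (psi n c e).2 = n * det e.1 e.2 := by
  unfold det
  rw [psi_re, psi_im]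
  ring

/-- the edges for the residue `c` -/
def SS (n : ℕ) (c : ℤ) (P : G × G → Prop) (s t x : ℝ) : Set (G × G) :=
  {e | det e.1 e.2 = 1 ∧ 0 < dot e.1 (psi n c e).2 ∧ ((dot e.1 (psi n c e).2 : ℤ) : ℝ) ≤ x ∧
    Real.exp s * (nm e.1 : ℝ) ≤ (nm (psi n c e).2 : ℝ) ∧
    (nm (psi n c e).2 : ℝ) < Real.exp t * (nm e.1 : ℝ) ∧ P (psi n c e)}

/-- the residues -/
noncomputable def CC (n : ℕ) : Finset ℤ := by
  classical
  exact (Finset.Ioc (-(n : ℤ)) 0).filter (fun c => IsCoprime c (n : ℤ))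

theorem mem_CC {n : ℕ} {c : ℤ} : c ∈ CC n ↔ (-(n : ℤ) < c ∧ c ≤ 0) ∧ IsCoprime c (n : ℤ) := by
  classical
  unfold CC
  rw [mem_filter, mem_Ioc]

open Classical in
/-- the residue of a pair -/
noncomputable def fc (n : ℕ) (e : G × G) : ℤ :=
  if h : ∃ c : ℤ, c ∈ CC n ∧ cg n e.2 ((c : G) * e.1) then h.choose else 0

theorem cg_iff (n : ℕ) (c : ℤ) (e : G × G) : cg n e.2 ((c : G) * e.1) ↔
    (n : ℤ) ∣ e.2.re - c * e.1.re ∧ (n : ℤ) ∣ e.2.im - c * e.1.im := by
  unfold cg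
  simp

theorem uniq {n : ℕ} {e : G × G} (hp : Prim e.1) {c c' : ℤ} (hc : c ∈ CC n) (hc' : c' ∈ CC n)
    (h : cg n e.2 ((c : G) * e.1)) (h' : cg n e.2 ((c' : G) * e.1)) : c = c' := by
  rw [cg_iff] at h h'
  rw [mem_CC] at hc hc'
  have h1 : (n : ℤ) ∣ (c - c') * e.1.re := by
    have := dvd_sub h'.1 h.1
    have e1 : e.2.re - c' * e.1.re - (e.2.re - c * e.1.re) = (c - c') * e.1.re := by ring
    rwa [e1] at this
  have h2 : (n : ℤ) ∣ (c - c') * e.1.im := by
    have := dvd_sub h'.2 h.2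
    have e1 : e.2.im - c' * e.1.im - (e.2.im - c * e.1.im) = (c - c') * e.1.im := by ring
    rwa [e1] at this
  obtain ⟨a, b, hab⟩ := hp
  have h3 : (n : ℤ) ∣ c - c' := by
    have h4 := dvd_add (Dvd.dvd.mul_left h1 a) (Dvd.dvd.mul_left h2 b)
    have e1 : a * ((c - c') * e.1.re) + b * ((c - c') * e.1.im) = c - c' := by
      calc _ = (c - c') * (a * e.1.re + b * e.1.im) := by ring
        _ = _ := by rw [hab, mul_one]
    rwa [e1] at h4
  obtain ⟨k, hk⟩ := h3
  have h5 : -(n : ℤ) < c - c' := by omega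
  have h6 : c - c' < n := by omega
  rw [hk] at h5 h6
  have hn : (0 : ℤ) < n := by omega
  have h7 : k < 1 := by
    by_contra hh
    push Not at hh
    nlinarith
  have h8 : -1 < k := by
    by_contra hh
    push Not at hh
    nlinarith
  have h9 : k = 0 := by omega
  rw [h9, mul_zero] at hk
  linarith

theorem exi {n : ℕ} (hn : 0 < n) {e : G × G} (c : ℤ) (hc : IsCoprime c (n : ℤ))
    (h : cg n e.2 ((c : G) * e.1)) : ∃ c : ℤ, c ∈ CC n ∧ cg n e.2 ((c : G) * e.1) := by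
  have hn' : (0 : ℤ) < n := by exact_mod_cast hn
  rw [cg_iff] at h
  refine ⟨-((-c) % n), ?_, ?_⟩
  · rw [mem_CC]
    have h1 := Int.emod_nonneg (-c) hn'.ne'
    have h2 := Int.emod_lt_of_pos (-c) hn'
    refine ⟨⟨by omega, by omega⟩, ?_⟩
    have h3 : -((-c) % (n : ℤ)) = c + n * ((-c) / n) := by
      have := Int.emod_add_mul_ediv (-c) n
      linarith
    rw [h3]
    exact hc.add_mul_left_left _
  · rw [cg_iff]
    have h3 : -((-c) % (n : ℤ)) = c + n * ((-c) / n) := by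
      have := Int.emod_add_mul_ediv (-c) n
      linarith
    rw [h3]
    constructor
    · have e1 : e.2.re - (c + n * ((-c) / n)) * e.1.re = (e.2.re - c * e.1.re) - n * ((-c) / n * e.1.re) := by ring
      rw [e1]
      exact dvd_sub h.1 (Dvd.intro _ rfl)
    · have e1 : e.2.im - (c + n * ((-c) / n)) * e.1.im = (e.2.im - c * e.1.im) - n * ((-c) / n * e.1.im) := by ring
      rw [e1]
      exact dvd_sub h.2 (Dvd.intro _ rfl)

theorem fc_spec {n : ℕ} (hn : 0 < n) {e : G × G} (he : En n e) :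
    fc n e ∈ CC n ∧ cg n e.2 ((fc n e : G) * e.1) := by
  classical
  obtain ⟨-, -, -, c, hc, h⟩ := he
  have h1 := exi hn c hc h
  unfold fc
  rw [dif_pos h1]
  exact h1.choose_spec

theorem nm_pos1 {u v : G} (h : det u v = 1) : 0 < nm u := by
  apply nm_pos
  rintro rfl
  simp [det] at h

theorem nm_posn {n : ℕ} (hn : 0 < n) {u v : G} (h : det u v = n) : 0 < nm u ∧ 0 < nm v := by
  have hn' : (n : ℤ) ≠ 0 := by exact_mod_cast hn.ne'
  constructor
  · apply nm_pos
    rintro rfl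
    apply hn'
    rw [← h]
    simp [det]
  · apply nm_pos
    rintro rfl
    apply hn'
    rw [← h]
    simp [det]

theorem tE_le {e : G × G} (h1 : 0 < nm e.1) (h2 : 0 < nm e.2) (s : ℝ) :
    s ≤ tE e ↔ Real.exp s * (nm e.1 : ℝ) ≤ nm e.2 := by
  have h1' : (0 : ℝ) < nm e.1 := by exact_mod_cast h1
  have h2' : (0 : ℝ) < nm e.2 := by exact_mod_cast h2
  unfold tE
  rw [← Real.exp_le_exp, Real.exp_sub, Real.exp_log h1', Real.exp_log h2', le_div_iff₀ h1']

theorem tE_lt {e : G × G} (h1 : 0 < nm e.1) (h2 : 0 < nm e.2) (t : ℝ) :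
    tE e < t ↔ (nm e.2 : ℝ) < Real.exp t * (nm e.1 : ℝ) := by
  rw [← not_le, tE_le h1 h2, not_le]

open Classical in
theorem fiber {n : ℕ} (hn : 0 < n) (P : G × G → Prop) (s t x : ℝ) {c : ℤ} (hc : c ∈ CC n) :
    (((((EN n x).filter (fun e => P e ∧ s ≤ tE e ∧ tE e < t)).filter (fun e => fc n e = c)) :
      Finset (G × G)) : Set (G × G)) = psi n c '' SS n c P s t x := by
  have hn' : (0 : ℤ) < n := by exact_mod_cast hn
  ext e
  simp only [coe_filter, Set.mem_setOf_eq, Set.mem_image, mem_filter, mem_EN hn]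
  constructor
  · rintro ⟨⟨⟨h1, h2⟩, h3, h4, h5⟩, h6⟩
    have h7 := (fc_spec hn h1).2
    rw [h6, cg_iff] at h7
    obtain ⟨⟨a, ha⟩, ⟨b, hb⟩⟩ := h7
    have h8 : psi n c (e.1, ⟨a, b⟩) = e := by
      apply Prod.ext
      · rfl
      · apply Zsqrtd.ext
        · rw [psi_re]
          show c * e.1.re + n * a = _
          linarith
        · rw [psi_im]
          show c * e.1.im + n * b = _
          linarith
    obtain ⟨h9, h10⟩ := nm_posn hn h1.1
    refine ⟨(e.1, ⟨a, b⟩), ?_, h8⟩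
    unfold SS
    rw [Set.mem_setOf_eq, h8]
    refine ⟨?_, h1.2.1, h2, (tE_le h9 h10 s).1 h4, (tE_lt h9 h10 t).1 h5, h3⟩
    have h11 := det_psi n c (e.1, ⟨a, b⟩)
    rw [h8] at h11
    have h12 : det e.1 e.2 = n := h1.1
    have h13 : (n : ℤ) * det e.1 ⟨a, b⟩ = n * 1 := by
      rw [mul_one]
      exact h11.symm.trans h12
    exact mul_left_cancel₀ hn'.ne' h13
  · rintro ⟨f, ⟨h1, h2, h3, h4, h5, h6⟩, rfl⟩
    have h7 : det f.1 (psi n c f).2 = n := by rw [det_psi, h1, mul_one]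
    have h7' : det (psi n c f).1 (psi n c f).2 = n := h7
    obtain ⟨h9, h10⟩ := nm_posn hn h7'
    have hP : Prim f.1 := ⟨f.2.im, -f.2.re, by
      unfold det at h1
      linarith⟩
    have hcg : cg n (psi n c f).2 ((c : G) * (psi n c f).1) := by
      rw [cg_iff, psi_re, psi_im]
      refine ⟨⟨f.2.re, ?_⟩, ⟨f.2.im, ?_⟩⟩
      · show c * f.1.re + n * f.2.re - c * f.1.re = _
        ring
      · show c * f.1.im + n * f.2.im - c * f.1.im = _
        ring
    have hE : En n (psi n c f) := ⟨h7, h2, hP, c, (mem_CC.1 hc).2, hcg⟩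
    refine ⟨⟨⟨hE, h3⟩, h6, (tE_le (e := psi n c f) h9 h10 s).2 h4,
      (tE_lt (e := psi n c f) h9 h10 t).2 h5⟩, ?_⟩
    obtain ⟨h11, h12⟩ := fc_spec hn hE
    have hP' : Prim (psi n c f).1 := hP
    exact uniq hP' h11 hc h12 hcg

open Classical in
theorem SS_fin {n : ℕ} (hn : 0 < n) (P : G × G → Prop) (s t x : ℝ) {c : ℤ} (hc : c ∈ CC n) :
    (SS n c P s t x).Finite := by
  apply Set.Finite.of_finite_image (f := psi n c)
  · rw [← fiber hn P s t x hc]
    exact Finset.finite_toSet _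
  · exact (psi_inj n hn c).injOn

open Classical in
theorem card_eq {n : ℕ} (hn : 0 < n) (P : G × G → Prop) (s t x : ℝ) :
    ((EN n x).filter (fun e => P e ∧ s ≤ tE e ∧ tE e < t)).card =
      ∑ c ∈ CC n, (SS n c P s t x).ncard := by
  rw [Finset.card_eq_sum_card_fiberwise (f := fc n) (t := CC n)]
  · refine Finset.sum_congr rfl fun c hc => ?_
    rw [← Set.ncard_coe_finset, fiber hn P s t x hc]
    exact Set.ncard_image_of_injective _ (psi_inj n hn c)
  · intro e he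
    rw [Finset.mem_coe, mem_filter, mem_EN hn] at he
    exact (fc_spec hn he.1.1).1

/-- the predicate on edges -/
def QQ (n : ℕ) (c : ℤ) (P : G × G → Prop) (e : G × G) : Prop := P (psi n c e)

theorem QQ_per {M n : ℕ} {c : ℤ} {P : G × G → Prop} (hP : Per M P) : Per M (QQ n c P) := by
  intro e f h1 h2
  unfold QQ
  apply hP
  · exact h1
  · obtain ⟨a1, a2⟩ := h1
    obtain ⟨b1, b2⟩ := h2
    constructor
    · rw [psi_re, psi_re]
      have e1 : c * e.1.re + n * e.2.re - (c * f.1.re + n * f.2.re) =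
        c * (e.1.re - f.1.re) + n * (e.2.re - f.2.re) := by ring
      rw [e1]
      exact dvd_add (Dvd.dvd.mul_left a1 _) (Dvd.dvd.mul_left b1 _)
    · rw [psi_im, psi_im]
      have e1 : c * e.1.im + n * e.2.im - (c * f.1.im + n * f.2.im) =
        c * (e.1.im - f.1.im) + n * (e.2.im - f.2.im) := by ring
      rw [e1]
      exact dvd_add (Dvd.dvd.mul_left a2 _) (Dvd.dvd.mul_left b2 _)

/-- the set of `eqnA` -/
def EE (n M : ℕ) (c : ℤ) (γ : G × G) (s t x : ℝ) : Set (G × G) :=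
  {e : G × G | det e.1 e.2 = 1 ∧ cg M e.1 γ.1 ∧ cg M e.2 γ.2 ∧
        0 < dot e.1 ((c : G) * e.1 + (n : G) * e.2) ∧
        ((dot e.1 ((c : G) * e.1 + (n : G) * e.2) : ℤ) : ℝ) ≤ x ∧
        Real.exp s * (nm e.1 : ℝ) ≤ (nm ((c : G) * e.1 + (n : G) * e.2) : ℝ) ∧
        (nm ((c : G) * e.1 + (n : G) * e.2) : ℝ) < Real.exp t * (nm e.1 : ℝ)}

open Classical in
theorem SS_card {n : ℕ} (hn : 0 < n) {M : ℕ} (hM : 0 < M) (P : G × G → Prop) (hP : Per M P) (s t x : ℝ)
    {c : ℤ} (hc : c ∈ CC n) :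
    (SS n c P s t x).ncard = ∑ γ ∈ (cls M).filter (QQ n c P), (EE n M c γ s t x).ncard := by
  have hfin := SS_fin hn P s t x hc
  rw [Set.ncard_eq_toFinset_card _ hfin]
  rw [Finset.card_eq_sum_card_fiberwise (f := DCount.rep M) (t := (cls M).filter (QQ n c P))]
  · refine Finset.sum_congr rfl fun γ hγ => ?_
    rw [Finset.mem_filter] at hγ
    rw [← Set.ncard_coe_finset]
    congr 1
    ext e
    simp only [Finset.coe_filter, Set.Finite.mem_toFinset, Set.mem_setOf_eq]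
    constructor
    · rintro ⟨⟨h1, h2, h3, h4, h5, h6⟩, h8⟩
      obtain ⟨h9, h10⟩ := DCount.cg_rep M e
      rw [h8] at h9 h10
      exact ⟨h1, h9, h10, h2, h3, h4, h5⟩
    · rintro ⟨h1, h6, h7, h2, h3, h4, h5⟩
      refine ⟨⟨h1, h2, h3, h4, h5, ?_⟩, DCount.rep_unique M e γ hγ.1 h6 h7⟩
      exact (QQ_per hP e γ h6 h7).mpr hγ.2
  · intro e he
    rw [Finset.mem_coe, Set.Finite.mem_toFinset] at he
    rw [Finset.mem_coe, Finset.mem_filter]
    obtain ⟨h9, h10⟩ := DCount.cg_rep M e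
    exact ⟨DCount.rep_mem M hM e he.1, (QQ_per hP e _ h9 h10).mp he.2.2.2.2.2⟩

/-- the shear -/
def sh (M : ℕ) (k : ℤ) (e : G × G) : G × G := (e.1, rd M ((k : G) * e.1 + e.2))

theorem rd_cls {M : ℕ} (hM : 0 < M) {e : G × G} (he : e ∈ cls M) (v : G) (hv : (M : ℤ) ∣ det e.1 v - 1) :
    (e.1, rd M v) ∈ cls M := by
  have hM' : (0 : ℤ) < M := by exact_mod_cast hM
  rw [mem_cls] at he ⊢
  refine ⟨he.1, he.2.1, ⟨Int.emod_nonneg _ hM'.ne', Int.emod_lt_of_pos _ hM'⟩,
    ⟨Int.emod_nonneg _ hM'.ne', Int.emod_lt_of_pos _ hM'⟩, ?_⟩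
  have h1 : (M : ℤ) ∣ det e.1 (rd M v) - det e.1 v :=
    det_cg ⟨by simp, by simp⟩ (rd_cg M v)
  have h2 := dvd_add h1 hv
  have e1 : det e.1 (rd M v) - det e.1 v + (det e.1 v - 1) = det e.1 (rd M v) - 1 := by ring
  rwa [e1] at h2

theorem sh_mem {M : ℕ} (hM : 0 < M) (k : ℤ) {e : G × G} (he : e ∈ cls M) : sh M k e ∈ cls M := by
  apply rd_cls hM he
  have h1 : det e.1 ((k : G) * e.1 + e.2) = det e.1 e.2 := by
    unfold det
    simp
    ring
  rw [h1]
  exact (mem_cls.1 he).2.2.2.2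

theorem sh_sh {M : ℕ} (k : ℤ) {e : G × G} (he : e ∈ cls M) : sh M (-k) (sh M k e) = e := by
  rw [mem_cls] at he
  obtain ⟨-, -, ⟨c1, c2⟩, ⟨d1, d2⟩, -⟩ := he
  apply Prod.ext
  · rfl
  · apply Zsqrtd.ext
    · show (((-k : ℤ) : G) * e.1 + rd M ((k : G) * e.1 + e.2)).re % M = _
      have h1 : (((-k : ℤ) : G) * e.1 + rd M ((k : G) * e.1 + e.2)).re =
          -(k * e.1.re) + (k * e.1.re + e.2.re) % M := by
        simp [rd]
      rw [h1, Int.add_emod_emod]
      have h2 : -(k * e.1.re) + (k * e.1.re + e.2.re) = e.2.re := by ring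
      rw [h2]
      exact Int.emod_eq_of_lt c1 c2
    · show (((-k : ℤ) : G) * e.1 + rd M ((k : G) * e.1 + e.2)).im % M = _
      have h1 : (((-k : ℤ) : G) * e.1 + rd M ((k : G) * e.1 + e.2)).im =
          -(k * e.1.im) + (k * e.1.im + e.2.im) % M := by
        simp [rd]
      rw [h1, Int.add_emod_emod]
      have h2 : -(k * e.1.im) + (k * e.1.im + e.2.im) = e.2.im := by ring
      rw [h2]
      exact Int.emod_eq_of_lt d1 d2

open Classical in
theorem shear_card {n M : ℕ} (hM : 0 < M) (hMn : M.Coprime n) (P : G × G → Prop) (hP : Per M P) (c : ℤ) :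
    ((cls M).filter (QQ n c P)).card = ((cls M).filter (fun e => P (e.1, (n : G) * e.2))).card := by
  obtain ⟨a, b, hab⟩ : IsCoprime (n : ℤ) (M : ℤ) := Nat.isCoprime_iff_coprime.2 hMn.symm
  have key : ∀ e : G × G, QQ n c P e ↔ P (e.1, (n : G) * (sh M (c * a) e).2) := by
    intro e
    unfold QQ
    apply hP
    · exact ⟨by simp [psi], by simp [psi]⟩
    · constructor
      · rw [psi_re]
        have h1 : ((n : G) * (sh M (c * a) e).2).re = n * ((c * a * e.1.re + e.2.re) % M) := by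
          simp [sh, rd]
        rw [show ((e.1, (n : G) * (sh M (c * a) e).2) : G × G).2 = (n : G) * (sh M (c * a) e).2 from rfl, h1]
        have h2 := Int.emod_add_mul_ediv (c * a * e.1.re + e.2.re) M
        refine ⟨c * b * e.1.re + n * ((c * a * e.1.re + e.2.re) / M), ?_⟩
        have h3 : (c * a * e.1.re + e.2.re) % M =
          (c * a * e.1.re + e.2.re) - M * ((c * a * e.1.re + e.2.re) / M) := by linarith
        rw [h3]
        linear_combination (-(c * e.1.re)) * hab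
      · rw [psi_im]
        have h1 : ((n : G) * (sh M (c * a) e).2).im = n * ((c * a * e.1.im + e.2.im) % M) := by
          simp [sh, rd]
        rw [show ((e.1, (n : G) * (sh M (c * a) e).2) : G × G).2 = (n : G) * (sh M (c * a) e).2 from rfl, h1]
        have h2 := Int.emod_add_mul_ediv (c * a * e.1.im + e.2.im) M
        refine ⟨c * b * e.1.im + n * ((c * a * e.1.im + e.2.im) / M), ?_⟩
        have h3 : (c * a * e.1.im + e.2.im) % M =
          (c * a * e.1.im + e.2.im) - M * ((c * a * e.1.im + e.2.im) / M) := by linarith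
        rw [h3]
        linear_combination (-(c * e.1.im)) * hab
  apply Finset.card_nbij' (sh M (c * a)) (sh M (-(c * a)))
  · intro e he
    rw [Finset.mem_coe, mem_filter] at he
    rw [Finset.mem_coe, mem_filter]
    exact ⟨sh_mem hM _ he.1, (key e).1 he.2⟩
  · intro e he
    rw [Finset.mem_coe, mem_filter] at he
    rw [Finset.mem_coe, mem_filter]
    refine ⟨sh_mem hM _ he.1, (key _).2 ?_⟩
    have h1 := sh_sh (-(c * a)) he.1
    rw [neg_neg] at h1
    rw [h1]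
    exact he.2
  · intro e he
    rw [Finset.mem_coe, mem_filter] at he
    exact sh_sh _ he.1
  · intro e he
    rw [Finset.mem_coe, mem_filter] at he
    have h1 := sh_sh (-(c * a)) he.1
    rwa [neg_neg] at h1

end EqnB

open EqnB in
open Classical in
/-- PROOF. For `e ∈ En n` there is exactly one `c` with `-n < c ≤ 0`, `IsCoprime c n`, `cg n e.2 (c * e.1)` (existence: reduce `c` modulo `n`;
uniqueness: `(c - c') * e.1 = 0` mod `n` and `e.1` primitive). Put `u = (e.2 - c e.1)/n`, so `det e.1 u = 1` and `e.2 = c e.1 + n u`. This is a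
bijection from `{e ∈ EN n x, s ≤ tE e < t, P e}` to the disjoint union over these `φ(n)` values of `c` of
`{(V, u) : det V u = 1, 0 < dot V V' ≤ x, exp s * nm V ≤ nm V' < exp t * nm V, P (V, V')}`, `V' = c V + n u` (`Prim V` follows from `det V u = 1`; `det V V' = n`;
`s ≤ tE` iff `exp s * nm V ≤ nm V'` as both norms are positive). Split by the class `γ` of `(V, u)` in `cls M` (`DCount.rep`, `rep_mem`, `rep_unique`): `P (V, V')` depends only on
`γ`. `eqnA` (with `κ_M` from `equid M`) gives the limit `κ_M (t - s)/n * #{γ ∈ cls M : P (γ.1, c γ.1 + n γ.2)}`. For fixed `c` choose `n'` with `n n' = 1` mod `M`;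
`γ ↦ (γ.1, c n' γ.1 + γ.2)` (reduced) is a bijection of `cls M`, and `P (γ.1, c γ.1 + n γ.2) ↔ P (γ.1, n (c n' γ.1 + γ.2))`. So the number is
`#((cls M).filter (fun e => P (e.1, n e.2)))` for every `c`. Finally `κ_M * #cls M = κ_1` (see the proof of `dcount`: `DCount.count_lim` with the predicate `True`).
So `κ = κ_1 φ(n) / n`, `κ ≥ 0`. -/
theorem eqnB (n : ℕ) (hn : 0 < n) : ∃ κ : ℝ, 0 ≤ κ ∧ ∀ M : ℕ, 0 < M → M.Coprime n → ∀ P : G × G → Prop, Per M P →
    ∀ s t : ℝ, s ≤ t →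
    Tendsto (fun x : ℝ => (((EN n x).filter (fun e => P e ∧ s ≤ tE e ∧ tE e < t)).card : ℝ) / x) atTop
      (nhds (κ * ((((cls M).filter (fun e => P (e.1, (n : G) * e.2))).card : ℝ) / (cls M).card) * (t - s))) := by
  obtain ⟨κ₁, hκ₁⟩ := equid 1 one_pos
  have h0 : ((1 : ℕ) : ℤ) ∣ det (0 : G × G).1 (0 : G × G).2 - 1 := by simp
  have hnn : 0 ≤ κ₁ := by
    have h1 := hκ₁ 0 h0 0 1 zero_le_one
    rw [sub_zero, mul_one] at h1
    apply ge_of_tendsto h1
    filter_upwards [eventually_ge_atTop (0 : ℝ)] with x hx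
    positivity
  have hn' : (0 : ℝ) < n := by exact_mod_cast hn
  refine ⟨κ₁ * (CC n).card / n, by positivity, fun M hM hMn P hP s t hst => ?_⟩
  obtain ⟨κ, hκ⟩ := equid M hM
  have hall := DCount.count_lim _ hM (fun _ => True) (fun _ _ _ _ => Iff.rfl) κ hκ 0 1 zero_le_one
  have hkap : κ₁ = ((cls M).card : ℝ) * κ := by
    have h1 := hκ₁ 0 h0 0 1 zero_le_one
    simp only [and_true, Set.setOf_mem_eq, Finset.filter_true] at hall
    have h2 := tendsto_nhds_unique h1 hall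
    linarith
  have hcl : ((cls M).card : ℝ) ≠ 0 := by
    have h1 : (cls M).Nonempty := ⟨_, DCount.rep_mem M hM ((⟨1, 0⟩, ⟨0, 1⟩) : G × G) (by simp [det])⟩
    exact_mod_cast h1.card_pos.ne'
  have hlim : ∀ c ∈ CC n, Tendsto (fun x : ℝ => ((SS n c P s t x).ncard : ℝ) / x) atTop
      (nhds (((cls M).filter (fun e => P (e.1, (n : G) * e.2))).card * (κ * (t - s) / n))) := by
    intro c hc
    rw [← shear_card hM hMn P hP c]
    have h1 : (fun x : ℝ => ((SS n c P s t x).ncard : ℝ) / x) =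
        fun x : ℝ => ∑ γ ∈ (cls M).filter (QQ n c P), ((EE n M c γ s t x).ncard : ℝ) / x := by
      funext x
      rw [SS_card hn hM P hP s t x hc]
      push_cast
      rw [Finset.sum_div]
    rw [h1, ← nsmul_eq_mul, ← Finset.sum_const]
    apply tendsto_finsetSum
    intro γ hγ
    rw [Finset.mem_filter, mem_cls] at hγ
    have hc' := mem_CC.1 hc
    exact eqnA n hn c hc'.1.1 hc'.1.2 M hM κ hκ γ hγ.1.2.2.2.2 s t hst
  have h2 : (fun x : ℝ => (((EN n x).filter (fun e => P e ∧ s ≤ tE e ∧ tE e < t)).card : ℝ) / x) =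
      fun x : ℝ => ∑ c ∈ CC n, ((SS n c P s t x).ncard : ℝ) / x := by
    funext x
    rw [card_eq hn P s t x]
    push_cast
    rw [Finset.sum_div]
  have h3 := tendsto_finsetSum (CC n) hlim
  rw [← h2] at h3
  convert h3 using 2
  rw [Finset.sum_const, nsmul_eq_mul, hkap]
  field_simp

end Pool.Agent.OmEq

end

/-! ### from `Lib_MP_f1a94e_eq.AnI` -/

section

/-!
# Piece ANI: Cauchy-Schwarz for the cluster sums
-/

set_option autoImplicit false

namespace Pool.Agent.OmEq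

open Finset Pool.Agent.OmAll MeasureTheory Filter

open Pool.Agent.OmAll.ZSm

/-! ### tails -/

theorem ani_arctan {x : ℝ} (hx : 0 ≤ x) : Real.arctan x ≤ x := by
  have h := Real.le_tan (Real.arctan_nonneg.2 hx) (Real.arctan_lt_pi_div_two x)
  rwa [Real.tan_arctan] at h

theorem ani_tail (K : ℝ) (hK : 0 < K) :
    ∫ u in {u : ℝ | K < |u|}, (1 + u ^ 2)⁻¹ ≤ 2 / K := by
  have h1 : {u : ℝ | K < |u|} = Set.Iio (-K) ∪ Set.Ioi K := by
    ext u
    simp only [Set.mem_setOf_eq, Set.mem_union, Set.mem_Iio, Set.mem_Ioi, lt_abs]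
    constructor
    · rintro (h | h)
      · exact Or.inr h
      · exact Or.inl (by linarith)
    · rintro (h | h)
      · exact Or.inr (by linarith)
      · exact Or.inl h
  have h2 : Disjoint (Set.Iio (-K)) (Set.Ioi K) := by
    rw [Set.disjoint_left]
    intro u hu hu'
    rw [Set.mem_Iio] at hu
    rw [Set.mem_Ioi] at hu'
    linarith
  rw [h1, setIntegral_union h2 measurableSet_Ioi integrable_inv_one_add_sq.integrableOn
    integrable_inv_one_add_sq.integrableOn, integral_Ioi_inv_one_add_sq, ← integral_Iic_eq_integral_Iio,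
    integral_Iic_inv_one_add_sq, Real.arctan_neg]
  have h3 := Real.arctan_inv_of_pos hK
  have h4 := ani_arctan (inv_pos.2 hK).le
  have h5 : 2 / K = K⁻¹ + K⁻¹ := by ring
  rw [h5]
  linarith

theorem ani_int {ψ : ℝ → ℂ} (hψ : Continuous ψ) {C : ℝ} (hC : ∀ t, ‖ψ t‖ ≤ C / (1 + t ^ 2)) :
    Integrable ψ := by
  refine Integrable.mono' (integrable_inv_one_add_sq.const_mul C) hψ.aestronglyMeasurable
    (Eventually.of_forall fun t => ?_)
  rw [← div_eq_mul_inv]
  exact hC t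

theorem ani_C {ψ : ℝ → ℂ} {C : ℝ} (hC : ∀ t, ‖ψ t‖ ≤ C / (1 + t ^ 2)) : 0 ≤ C := by
  have h := (norm_nonneg _).trans (hC 0)
  simpa using h

/-- the part of a translate outside a window -/
theorem ani_one {ψ : ℝ → ℂ} (hψ : Continuous ψ) {C : ℝ} (hC : ∀ t, ‖ψ t‖ ≤ C / (1 + t ^ 2))
    {s A K : ℝ} (hs : 0 ≤ s) (hK : 0 < K) (hA : 0 < A) :
    ∫ t in (Set.Icc (-(2 * A + K)) (2 * A + K))ᶜ, ‖ψ (t - 2 * s)‖ ≤ 2 * C / K + 4 * C * s / A := by
  have hC0 := ani_C hC
  have hψi := ani_int hψ hC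
  have hsh : Integrable fun t => ‖ψ (t - 2 * s)‖ := (hψi.comp_sub_right (2 * s)).norm
  by_cases h : s ≤ A
  · have hm : MeasurableSet {u : ℝ | K < |u|} := measurableSet_lt measurable_const (by fun_prop)
    obtain ⟨F, hF⟩ : ∃ F : ℝ → ℝ, F = Set.indicator {u : ℝ | K < |u|} (fun u => C * (1 + u ^ 2)⁻¹) :=
      ⟨_, rfl⟩
    have hFi : Integrable F := by
      rw [hF]
      exact (integrable_inv_one_add_sq.const_mul C).indicator hm
    have hF0 : ∀ u, 0 ≤ F u := by
      intro u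
      rw [hF]
      apply Set.indicator_nonneg
      intro x _
      positivity
    have h1 : ∫ t in (Set.Icc (-(2 * A + K)) (2 * A + K))ᶜ, ‖ψ (t - 2 * s)‖ ≤
        ∫ t in (Set.Icc (-(2 * A + K)) (2 * A + K))ᶜ, F (t - 2 * s) := by
      apply setIntegral_mono_on hsh.integrableOn (hFi.comp_sub_right (2 * s)).integrableOn
        measurableSet_Icc.compl
      intro t ht
      have h2 : K < |t - 2 * s| := by
        rw [Set.mem_compl_iff, Set.mem_Icc, not_and_or, not_le, not_le] at ht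
        rw [lt_abs]
        rcases ht with ht | ht
        · right; linarith
        · left; linarith
      rw [hF, Set.indicator_of_mem (show t - 2 * s ∈ {u : ℝ | K < |u|} from h2), ← div_eq_mul_inv]
      exact hC _
    have h2 : ∫ t in (Set.Icc (-(2 * A + K)) (2 * A + K))ᶜ, F (t - 2 * s) ≤ ∫ t, F (t - 2 * s) :=
      setIntegral_le_integral (hFi.comp_sub_right (2 * s)) (Eventually.of_forall fun t => hF0 _)
    have h3 : ∫ t, F (t - 2 * s) = ∫ t, F t := integral_sub_right_eq_self F (2 * s)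
    have h4 : ∫ t, F t ≤ 2 * C / K := by
      rw [hF, integral_indicator hm, integral_const_mul]
      have := mul_le_mul_of_nonneg_left (ani_tail K hK) hC0
      calc _ ≤ C * (2 / K) := this
        _ = 2 * C / K := by ring
    have h5 : 0 ≤ 4 * C * s / A := by positivity
    linarith
  · push Not at h
    have h1 : ∫ t in (Set.Icc (-(2 * A + K)) (2 * A + K))ᶜ, ‖ψ (t - 2 * s)‖ ≤ ∫ t, ‖ψ (t - 2 * s)‖ :=
      setIntegral_le_integral hsh (Eventually.of_forall fun t => norm_nonneg _)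
    have h2 : ∫ t, ‖ψ (t - 2 * s)‖ = ∫ t, ‖ψ t‖ :=
      integral_sub_right_eq_self (fun t => ‖ψ t‖) (2 * s)
    have h3 : ∫ t, ‖ψ t‖ ≤ C * Real.pi := by
      rw [← integral_univ_inv_one_add_sq, ← integral_const_mul]
      apply integral_mono hψi.norm (integrable_inv_one_add_sq.const_mul C)
      intro t
      simp only
      rw [← div_eq_mul_inv]
      exact hC t
    have h4 : C * Real.pi ≤ 4 * C := by nlinarith [Real.pi_le_four]
    have h5 : 4 * C ≤ 4 * C * s / A := by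
      rw [le_div_iff₀ hA]
      nlinarith
    have h6 : 0 ≤ 2 * C / K := by positivity
    linarith

/-! ### product measures on subsets -/

theorem ani_prod (S : Finset ℕ) (x : ℕ → ℝ) (f : ℕ → ℝ) :
    ∑ D ∈ S.powerset, ((∏ p ∈ D, x p) * ∏ p ∈ S \ D, (1 - x p)) * ∑ p ∈ D, f p =
      ∑ p ∈ S, x p * f p := by
  induction S using Finset.induction_on with
  | empty => simp
  | insert q S hq ih =>
    rw [Finset.sum_powerset_insert hq, Finset.sum_insert hq, ← ih]
    have h1 : ∀ D ∈ S.powerset, ((∏ p ∈ D, x p) * ∏ p ∈ insert q S \ D, (1 - x p)) * ∑ p ∈ D, f p =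
        (1 - x q) * (((∏ p ∈ D, x p) * ∏ p ∈ S \ D, (1 - x p)) * ∑ p ∈ D, f p) := by
      intro D hD
      rw [Finset.mem_powerset] at hD
      have hqD : q ∉ D := fun h => hq (hD h)
      rw [Finset.insert_sdiff_of_notMem _ hqD, Finset.prod_insert (by simp [hq])]
      ring
    have h2 : ∀ D ∈ S.powerset, ((∏ p ∈ insert q D, x p) * ∏ p ∈ insert q S \ insert q D, (1 - x p)) *
        ∑ p ∈ insert q D, f p =
        x q * (((∏ p ∈ D, x p) * ∏ p ∈ S \ D, (1 - x p)) * ∑ p ∈ D, f p) +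
          x q * f q * ((∏ p ∈ D, x p) * ∏ p ∈ S \ D, (1 - x p)) := by
      intro D hD
      rw [Finset.mem_powerset] at hD
      have hqD : q ∉ D := fun h => hq (hD h)
      have hsd : insert q S \ insert q D = S \ D := by
        ext a
        simp only [Finset.mem_sdiff, Finset.mem_insert]
        constructor
        · rintro ⟨h1, h2⟩
          push Not at h2
          exact ⟨h1.resolve_left h2.1, h2.2⟩
        · rintro ⟨k1, k2⟩
          refine ⟨Or.inr k1, ?_⟩
          rintro (rfl | h)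
          · exact hq k1
          · exact k2 h
      rw [hsd, Finset.prod_insert hqD, Finset.sum_insert hqD]
      ring
    rw [Finset.sum_congr rfl h1, Finset.sum_congr rfl h2, Finset.sum_add_distrib, ← Finset.mul_sum,
      ← Finset.mul_sum, ← Finset.mul_sum, ← Finset.prod_add]
    have h3 : ∏ p ∈ S, (x p + (1 - x p)) = 1 := Finset.prod_eq_one fun p _ => by ring
    rw [h3]
    ring

theorem mem_PE' {E : Finset ℕ} {T p : ℕ} (h : p ∈ PE E T) : p ∈ PT T := by
  rw [mem_PE] at h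
  rw [mem_PT]
  exact ⟨h.1, h.2.1, h.2.2.1⟩

theorem ani_Ap {E : Finset ℕ} {T p : ℕ} (h : p ∈ PE E T) :
    0 < Ap p ∧ 2 * Ap p ≤ 4 / p ∧ 2 * Ap p ≤ 4 / 5 := by
  have h5 := PT_five (mem_PE' h)
  obtain ⟨h1, h2, -⟩ := Ap_bound p h5
  refine ⟨h1, h2, h2.trans ?_⟩
  have : (5 : ℝ) ≤ p := by exact_mod_cast h5
  exact div_le_div_of_nonneg_left (by norm_num) (by norm_num) this

theorem ani_Pr (E : Finset ℕ) (T : ℕ) {D : Finset ℕ} (hD : D ⊆ PE E T) : 0 ≤ Pr E T D := by
  unfold Pr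
  apply mul_nonneg
  · exact Finset.prod_nonneg fun p hp => (ani_Ap (hD hp)).1.le
  · apply Finset.prod_nonneg
    intro p hp
    have := (ani_Ap (Finset.sdiff_subset hp)).2.2
    linarith

theorem ani_pow (E : Finset ℕ) (T : ℕ) (y : ℝ) :
    ∑ D ∈ (PE E T).powerset, Pr E T D * y ^ D.card = ∏ p ∈ PE E T, (1 + (y - 2) * Ap p) := by
  have h1 : ∏ p ∈ PE E T, (1 + (y - 2) * Ap p) = ∏ p ∈ PE E T, (y * Ap p + (1 - 2 * Ap p)) :=
    Finset.prod_congr rfl fun p _ => by ring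
  rw [h1, Finset.prod_add]
  apply Finset.sum_congr rfl
  intro D _
  unfold Pr
  rw [Finset.prod_mul_distrib, Finset.prod_const]
  ring

theorem ani_two (E : Finset ℕ) (T : ℕ) :
    ∑ D ∈ (PE E T).powerset, Pr E T D * 2 ^ D.card = 1 := by
  rw [ani_pow]
  apply Finset.prod_eq_one
  intro p _
  ring

theorem lg_nonneg (a : Finset ℕ) : 0 ≤ lg a :=
  Finset.sum_nonneg fun p _ => Real.log_natCast_nonneg p

theorem lg_mono {a D : Finset ℕ} (h : a ⊆ D) : lg a ≤ lg D :=
  Finset.sum_le_sum_of_subset_of_nonneg h fun p _ _ => Real.log_natCast_nonneg p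

theorem ani_lg (E : Finset ℕ) (T : ℕ) :
    ∑ D ∈ (PE E T).powerset, Pr E T D * ∑ a ∈ D.powerset, lg a ≤ ∑ p ∈ PE E T, 2 * Ap p * Real.log p := by
  rw [← ani_prod (PE E T) (fun p => 2 * Ap p) (fun p => Real.log p)]
  apply Finset.sum_le_sum
  intro D hD
  rw [Finset.mem_powerset] at hD
  have h1 : ∑ a ∈ D.powerset, lg a ≤ 2 ^ D.card * lg D := by
    calc ∑ a ∈ D.powerset, lg a ≤ ∑ a ∈ D.powerset, lg D :=
          Finset.sum_le_sum fun a ha => lg_mono (Finset.mem_powerset.1 ha)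
      _ = _ := by rw [Finset.sum_const, Finset.card_powerset, nsmul_eq_mul]; push_cast; ring
  refine (mul_le_mul_of_nonneg_left h1 (ani_Pr E T hD)).trans (le_of_eq ?_)
  unfold Pr lg
  rw [Finset.prod_mul_distrib, Finset.prod_const]
  ring

/-! ### cluster sums -/

theorem ani_cs_cont (g : ℕ → ℂ) {ψ : ℝ → ℂ} (hψ : Continuous ψ) (D : Finset ℕ) :
    Continuous (cs g ψ D) := by
  unfold cs
  fun_prop

theorem ani_cs_int (g : ℕ → ℂ) {ψ : ℝ → ℂ} (hψi : Integrable ψ) (D : Finset ℕ) :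
    Integrable (cs g ψ D) := by
  unfold cs
  exact integrable_finset_sum _ fun a _ => (hψi.comp_sub_right (2 * lg a)).const_mul _

theorem ani_gnorm {E : Finset ℕ} {g : ℕ → ℂ}
    (hg1 : ∀ p : ℕ, p.Prime → p % 4 = 1 → p ∉ E → ‖g p‖ = 1) {T : ℕ} {a : Finset ℕ}
    (ha : a ⊆ PE E T) : ‖∏ p ∈ a, g p‖ = 1 := by
  rw [norm_prod]
  apply Finset.prod_eq_one
  intro p hp
  have := mem_PE.1 (ha hp)
  exact hg1 p this.2.1 this.2.2.1 this.2.2.2

theorem ani_cs_le {E : Finset ℕ} {g : ℕ → ℂ}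
    (hg1 : ∀ p : ℕ, p.Prime → p % 4 = 1 → p ∉ E → ‖g p‖ = 1) {T : ℕ} {D : Finset ℕ}
    (hD : D ⊆ PE E T) (ψ : ℝ → ℂ) (t : ℝ) :
    ‖cs g ψ D t‖ ≤ ∑ a ∈ D.powerset, ‖ψ (t - 2 * lg a)‖ := by
  unfold cs
  refine (norm_sum_le _ _).trans (Finset.sum_le_sum fun a ha => ?_)
  rw [norm_mul, ani_gnorm hg1 ((Finset.mem_powerset.1 ha).trans hD), one_mul]

theorem ani_cs_sq (E : Finset ℕ) (g : ℕ → ℂ)
    (hg1 : ∀ p : ℕ, p.Prime → p % 4 = 1 → p ∉ E → ‖g p‖ = 1) (T : ℕ) (D : Finset ℕ)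
    (hD : D ⊆ PE E T) {ψ : ℝ → ℂ} (hψ : Continuous ψ) {C : ℝ} (hC : ∀ t, ‖ψ t‖ ≤ C / (1 + t ^ 2)) :
    Integrable (fun t => ‖cs g ψ D t‖ ^ 2) := by
  have hC0 := ani_C hC
  have hb : ∀ t, ‖cs g ψ D t‖ ≤ ∑ a ∈ D.powerset, C := by
    intro t
    refine (ani_cs_le hg1 hD ψ t).trans (Finset.sum_le_sum fun a _ => (hC _).trans ?_)
    apply div_le_self hC0
    nlinarith [sq_nonneg (t - 2 * lg a)]
  refine Integrable.mono' ((ani_cs_int g (ani_int hψ hC) D).norm.const_mul (∑ a ∈ D.powerset, C))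
    ((ani_cs_cont g hψ D).norm.pow 2).aestronglyMeasurable (Eventually.of_forall fun t => ?_)
  rw [Real.norm_eq_abs, abs_of_nonneg (by positivity), sq]
  exact mul_le_mul_of_nonneg_right (hb t) (norm_nonneg _)

/-- the integral of one cluster sum -/
theorem ani_D (E : Finset ℕ) (g : ℕ → ℂ)
    (hg1 : ∀ p : ℕ, p.Prime → p % 4 = 1 → p ∉ E → ‖g p‖ = 1) (T : ℕ) (D : Finset ℕ)
    (hD : D ⊆ PE E T) {ψ : ℝ → ℂ} (hψ : Continuous ψ) {C : ℝ} (hC : ∀ t, ‖ψ t‖ ≤ C / (1 + t ^ 2))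
    {z A K l : ℝ} (hz : 0 < z) (hK : 0 < K) (hA : 0 < A) (hl : 0 < l) :
    ∫ t, ‖cs g ψ D t‖ ≤ l * (2 * A + K) * (1 / z) ^ D.card +
      1 / (2 * l) * (z ^ D.card * ∫ t, ‖cs g ψ D t‖ ^ 2) +
      (2 * C / K * 2 ^ D.card + 4 * C / A * ∑ a ∈ D.powerset, lg a) := by
  have hψi := ani_int hψ hC
  have hci := (ani_cs_int g hψi D).norm
  have hsq := ani_cs_sq E g hg1 T D hD hψ hC
  rw [← integral_add_compl (measurableSet_Icc (a := -(2 * A + K)) (b := 2 * A + K)) hci]
  apply add_le_add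
  · have hzc : 0 < z ^ D.card := by positivity
    have h1 : ∀ t, ‖cs g ψ D t‖ ≤ l / 2 * (1 / z) ^ D.card +
        1 / (2 * l) * (z ^ D.card * ‖cs g ψ D t‖ ^ 2) := by
      intro t
      obtain ⟨x, hx⟩ : ∃ x, x = ‖cs g ψ D t‖ := ⟨_, rfl⟩
      obtain ⟨y, hy⟩ : ∃ y, y = z ^ D.card := ⟨_, rfl⟩
      rw [← hx, ← hy, one_div_pow, ← hy]
      rw [← hy] at hzc
      have e : l / 2 * (1 / y) + 1 / (2 * l) * (y * x ^ 2) - x =
          (l - y * x) ^ 2 / (2 * l * y) := by
        field_simp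
        ring
      have : 0 ≤ (l - y * x) ^ 2 / (2 * l * y) := by positivity
      linarith
    have hint : Integrable (fun t => 1 / (2 * l) * (z ^ D.card * ‖cs g ψ D t‖ ^ 2)) :=
      (hsq.const_mul _).const_mul _
    calc ∫ t in Set.Icc (-(2 * A + K)) (2 * A + K), ‖cs g ψ D t‖
        ≤ ∫ t in Set.Icc (-(2 * A + K)) (2 * A + K), (l / 2 * (1 / z) ^ D.card +
            1 / (2 * l) * (z ^ D.card * ‖cs g ψ D t‖ ^ 2)) := by
          apply setIntegral_mono hci.integrableOn _ h1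
          exact (continuousOn_const.integrableOn_compact isCompact_Icc).add hint.integrableOn
      _ = (∫ t in Set.Icc (-(2 * A + K)) (2 * A + K), l / 2 * (1 / z) ^ D.card) +
            ∫ t in Set.Icc (-(2 * A + K)) (2 * A + K),
              1 / (2 * l) * (z ^ D.card * ‖cs g ψ D t‖ ^ 2) :=
          integral_add (continuousOn_const.integrableOn_compact isCompact_Icc) hint.integrableOn
      _ ≤ l * (2 * A + K) * (1 / z) ^ D.card +
            1 / (2 * l) * (z ^ D.card * ∫ t, ‖cs g ψ D t‖ ^ 2) := by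
          apply add_le_add
          · rw [setIntegral_const, Measure.real, Real.volume_Icc, smul_eq_mul,
              ENNReal.toReal_ofReal (by linarith)]
            apply le_of_eq
            ring
          · refine (setIntegral_le_integral hint (Eventually.of_forall fun t => ?_)).trans ?_
            · show 0 ≤ 1 / (2 * l) * (z ^ D.card * ‖cs g ψ D t‖ ^ 2)
              positivity
            · rw [integral_const_mul, integral_const_mul]
  · calc ∫ t in (Set.Icc (-(2 * A + K)) (2 * A + K))ᶜ, ‖cs g ψ D t‖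
        ≤ ∫ t in (Set.Icc (-(2 * A + K)) (2 * A + K))ᶜ, ∑ a ∈ D.powerset, ‖ψ (t - 2 * lg a)‖ := by
          apply setIntegral_mono hci.integrableOn _ (ani_cs_le hg1 hD ψ)
          exact (integrable_finset_sum _ fun a _ =>
            (hψi.comp_sub_right (2 * lg a)).norm).integrableOn
      _ = ∑ a ∈ D.powerset, ∫ t in (Set.Icc (-(2 * A + K)) (2 * A + K))ᶜ, ‖ψ (t - 2 * lg a)‖ :=
          integral_finset_sum _ fun a _ => (hψi.comp_sub_right (2 * lg a)).norm.integrableOn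
      _ ≤ ∑ a ∈ D.powerset, (2 * C / K + 4 * C * lg a / A) :=
          Finset.sum_le_sum fun a _ => ani_one hψ hC (lg_nonneg a) hK hA
      _ = _ := by
          rw [Finset.sum_add_distrib, Finset.sum_const, Finset.card_powerset, nsmul_eq_mul,
            Finset.mul_sum]
          push_cast
          congr 1
          · ring
          · exact Finset.sum_congr rfl fun a _ => by ring

/-- the density of the subsets with weight `z^(-#D)` -/
theorem ani_S1 (E : Finset ℕ) (z : ℝ) (hz : 1 / 2 < z) (hz1 : z < 1) :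
    ∃ C4 : ℝ, 0 < C4 ∧ ∀ T : ℕ, 3 ≤ T →
      ∑ D ∈ (PE E T).powerset, Pr E T D * (1 / z) ^ D.card ≤ C4 * (Real.log T) ^ (1 / z - 2) := by
  obtain ⟨C, hC⟩ := mu_bound
  have hz2 : 1 / z - 2 < 0 := by
    have : 1 / z < 2 := by
      rw [div_lt_iff₀ (by linarith)]
      linarith
    linarith
  refine ⟨Real.exp ((2 - 1 / z) * (C / 2 + E.card)), Real.exp_pos _, fun T hT => ?_⟩
  have hL := one_le_logT hT
  rw [ani_pow]
  have h1 : ∏ p ∈ PE E T, (1 + (1 / z - 2) * Ap p) ≤ Real.exp ((1 / z - 2) * ∑ p ∈ PE E T, Ap p) := by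
    rw [Finset.mul_sum, Real.exp_sum]
    apply Finset.prod_le_prod
    · intro p hp
      have h2 := ani_Ap hp
      have h3 : 0 < 1 / z := by positivity
      nlinarith [mul_pos h3 h2.1]
    · intro p _
      have := Real.add_one_le_exp ((1 / z - 2) * Ap p)
      linarith
  refine h1.trans ?_
  -- lower bound for the sum of `Ap`
  have h2 : Real.log (Real.log T) - (C / 2 + E.card) ≤ ∑ p ∈ PE E T, Ap p := by
    have h3 := (abs_le.1 (hC T hT)).1
    have h4 : muT T = 2 * ∑ p ∈ PT T, Ap p := by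
      unfold muT
      rw [Finset.mul_sum]
    have h5 : ∑ p ∈ PT T, Ap p = ∑ p ∈ PE E T, Ap p + ∑ p ∈ PT T ∩ E, Ap p := by
      unfold PE
      rw [← Finset.sum_sdiff (Finset.inter_subset_left (s₁ := PT T) (s₂ := E))]
      congr 1
      apply Finset.sum_congr _ fun _ _ => rfl
      ext a
      simp only [Finset.mem_sdiff, Finset.mem_inter]
      tauto
    have h6 : ∑ p ∈ PT T ∩ E, Ap p ≤ E.card := by
      calc ∑ p ∈ PT T ∩ E, Ap p ≤ ∑ p ∈ PT T ∩ E, 1 := by
            apply Finset.sum_le_sum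
            intro p hp
            rw [Finset.mem_inter] at hp
            have h7 := PT_five hp.1
            obtain ⟨-, h8, -⟩ := Ap_bound p h7
            have h9 : (5 : ℝ) ≤ p := by exact_mod_cast h7
            have h10 : 4 / (p : ℝ) ≤ 4 / 5 :=
              div_le_div_of_nonneg_left (by norm_num) (by norm_num) h9
            linarith
        _ = ((PT T ∩ E).card : ℝ) := by simp
        _ ≤ E.card := by exact_mod_cast Finset.card_le_card Finset.inter_subset_right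
    linarith
  have h3 : (Real.log T) ^ (1 / z - 2) = Real.exp ((1 / z - 2) * Real.log (Real.log T)) := by
    rw [Real.rpow_def_of_pos (by linarith), mul_comm]
  rw [h3, ← Real.exp_add]
  apply Real.exp_le_exp.2
  nlinarith [mul_le_mul_of_nonpos_left h2 hz2.le]

theorem ani_S3 (E : Finset ℕ) : ∃ C1 : ℝ, 0 ≤ C1 ∧ ∀ T : ℕ, 3 ≤ T →
    ∑ p ∈ PE E T, 2 * Ap p * Real.log p ≤ 2 * Real.log T + C1 := by
  obtain ⟨C, hC⟩ := Pool.Agent.GaussMR.mertens_log
  have hC0 : 0 ≤ C := (abs_nonneg _).trans (hC 2 le_rfl)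
  refine ⟨4 * C, by positivity, fun T hT => ?_⟩
  have h1 : ∑ p ∈ PT T, Real.log p / p ≤ Real.log T / 2 + C := by
    have := (abs_le.1 (hC (T : ℝ) (by exact_mod_cast (by omega : 2 ≤ T)))).2
    rw [← PT_eq] at this
    linarith
  calc ∑ p ∈ PE E T, 2 * Ap p * Real.log p ≤ ∑ p ∈ PE E T, 4 * (Real.log p / p) := by
        apply Finset.sum_le_sum
        intro p hp
        have h2 := (ani_Ap hp).2.1
        have h3 := mul_le_mul_of_nonneg_right h2 (Real.log_natCast_nonneg p)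
        calc _ ≤ 4 / (p : ℝ) * Real.log p := h3
          _ = _ := by ring
    _ ≤ ∑ p ∈ PT T, 4 * (Real.log p / p) := by
        apply Finset.sum_le_sum_of_subset_of_nonneg
        · intro p hp
          exact mem_PE' hp
        · intro p _ _
          have := Real.log_natCast_nonneg p
          positivity
    _ = 4 * ∑ p ∈ PT T, Real.log p / p := by rw [Finset.mul_sum]
    _ ≤ _ := by linarith

theorem ani_total (E : Finset ℕ) (g : ℕ → ℂ)
    (hg1 : ∀ p : ℕ, p.Prime → p % 4 = 1 → p ∉ E → ‖g p‖ = 1) (T : ℕ) {ψ : ℝ → ℂ}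
    (hψ : Continuous ψ) {C : ℝ} (hC : ∀ t, ‖ψ t‖ ≤ C / (1 + t ^ 2))
    {z A K l : ℝ} (hz : 0 < z) (hK : 0 < K) (hA : 0 < A) (hl : 0 < l) :
    IT E g T ψ ≤ l * (2 * A + K) * (∑ D ∈ (PE E T).powerset, Pr E T D * (1 / z) ^ D.card) +
      1 / (2 * l) * (∑ D ∈ (PE E T).powerset, Pr E T D * z ^ D.card * ∫ t, ‖cs g ψ D t‖ ^ 2) +
      (2 * C / K + 4 * C / A * ∑ p ∈ PE E T, 2 * Ap p * Real.log p) := by
  have hC0 := ani_C hC
  have h1 : IT E g T ψ ≤ ∑ D ∈ (PE E T).powerset, Pr E T D * (l * (2 * A + K) * (1 / z) ^ D.card +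
      1 / (2 * l) * (z ^ D.card * ∫ t, ‖cs g ψ D t‖ ^ 2) +
      (2 * C / K * 2 ^ D.card + 4 * C / A * ∑ a ∈ D.powerset, lg a)) := by
    unfold IT
    apply Finset.sum_le_sum
    intro D hD
    rw [Finset.mem_powerset] at hD
    exact mul_le_mul_of_nonneg_left (ani_D E g hg1 T D hD hψ hC hz hK hA hl) (ani_Pr E T hD)
  refine h1.trans ?_
  have h2 : ∑ D ∈ (PE E T).powerset, Pr E T D * (l * (2 * A + K) * (1 / z) ^ D.card +
      1 / (2 * l) * (z ^ D.card * ∫ t, ‖cs g ψ D t‖ ^ 2) +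
      (2 * C / K * 2 ^ D.card + 4 * C / A * ∑ a ∈ D.powerset, lg a)) =
      l * (2 * A + K) * (∑ D ∈ (PE E T).powerset, Pr E T D * (1 / z) ^ D.card) +
      1 / (2 * l) * (∑ D ∈ (PE E T).powerset, Pr E T D * z ^ D.card * ∫ t, ‖cs g ψ D t‖ ^ 2) +
      (2 * C / K * (∑ D ∈ (PE E T).powerset, Pr E T D * 2 ^ D.card) +
        4 * C / A * ∑ D ∈ (PE E T).powerset, Pr E T D * ∑ a ∈ D.powerset, lg a) := by
    rw [Finset.mul_sum, Finset.mul_sum, Finset.mul_sum, Finset.mul_sum, ← Finset.sum_add_distrib,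
      ← Finset.sum_add_distrib, ← Finset.sum_add_distrib]
    apply Finset.sum_congr rfl
    intro D _
    ring
  rw [h2, ani_two]
  have h3 := mul_le_mul_of_nonneg_left (ani_lg E T) (by positivity : 0 ≤ 4 * C / A)
  linarith

/-- PROOF. All `Pr E T D ≥ 0` (`0 ≤ 2 Ap p ≤ 4/5`). Let `K ≥ 1`, `A = K log T`, `A1 = K`, window `𝒲 = [-(2 A + A1), 2 A + A1]` (`A ≥ K`, so its length is at most `6 A`).
(i) Outside `𝒲`: `∫_(t ∉ 𝒲) ‖cs g ψ D t‖ ≤ ∑_(a ⊆ D) ∫_(t ∉ 𝒲) ‖ψ (t - 2 lg a)‖`; if `lg a ≤ A` the argument has absolute value `≥ A1`, so the integral is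
`≤ ∫_(|u| ≥ A1) C/(1+u^2) ≤ 2 C/A1`; otherwise it is `≤ ∫ ‖ψ‖ ≤ 4 C ≤ 4 C lg a / A`. Sum with `Pr`: `∑_D Pr D 2^(#D) = ∏ (1 - 2 Ap + 2 Ap) = 1`
(`Finset.prod_add` over `PE E T`), and `∑_D Pr D ∑_(a ⊆ D) lg a = ∑_p Ap p log p ≤ ∑_(p ≤ T) 2 log p / p ≤ C'' log T` (write `lg a = ∑_(p ∈ a) log p` and exchange: for
fixed `p` the sum over `D ∋ p`, `a ∋ p` is `Ap p ∏_(q ≠ p) (1 - 2 Ap q + 2 Ap q)`; Mertens bound in `Lib_MP_f1a94e_mr/MertensA.lean` or
by dyadic blocks from Chebyshev; any bound `∑_(p ∈ PT T) log p / p ≤ C'' log T` will do, e.g. `Ap p ≤ 2/p` and `∑_(m ≤ T) Λ(m)/m ≤ log T + C`). Total `≤ C'''/K`.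
(ii) Inside: Cauchy-Schwarz for sum and integral:
`∑_D Pr D ∫_𝒲 ‖cs‖ ≤ (∑_D Pr D z^(-#D) |𝒲|)^(1/2) (∑_D Pr D z^(#D) ∫ ‖cs‖^2)^(1/2)`, `∑_D Pr D z^(-#D) = ∏ (1 - 2 Ap + Ap / z) ≤ exp ((1/z - 2) ∑ Ap p)`
and `∑_(PE) Ap p = muT T / 2 - O(1) = log log T + O(1)` (`mu_bound`; `1/z - 2 < 0`), so the first factor is `≤ (6 K log T * C4 (log T)^(1/z - 2))^(1/2)`; the second one
`≤ (C' (log T)^(2 (z-1)))^(1/2)`. The exponent is `(1/z + 2 z - 3)/2 < 0` as `(2 z - 1)(z - 1) < 0`: for fixed `K` it tends to `0`. -/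
theorem anI (E : Finset ℕ) (g : ℕ → ℂ) (hg1 : ∀ p : ℕ, p.Prime → p % 4 = 1 → p ∉ E → ‖g p‖ = 1)
    (z : ℝ) (hz : 1 / 2 < z) (hz1 : z < 1) (ψ : ℝ → ℂ) (hψ : Continuous ψ) (C : ℝ) (hC : ∀ t, ‖ψ t‖ ≤ C / (1 + t ^ 2))
    (C' : ℝ) (hL2 : ∀ T : ℕ, 3 ≤ T → ∑ D ∈ (PE E T).powerset, Pr E T D * z ^ D.card * ∫ t, ‖cs g ψ D t‖ ^ 2 ≤
      C' * (Real.log T) ^ (2 * (z - 1))) :
    Tendsto (fun T : ℕ => IT E g T ψ) atTop (nhds 0) := by
  have hz0 : 0 < z := by linarith
  have hC0 := ani_C hC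
  obtain ⟨C4, hC4, hS1⟩ := ani_S1 E z hz hz1
  obtain ⟨C1, hC1, hS3⟩ := ani_S3 E
  -- the exponent
  have hexp : 1 / z - 1 < 2 * (1 - z) := by
    rw [sub_lt_iff_lt_add, div_lt_iff₀ hz0]
    nlinarith
  obtain ⟨m, hm1, hm2⟩ := exists_between hexp
  have hlogT : Tendsto (fun T : ℕ => Real.log (T : ℝ)) atTop atTop :=
    Real.tendsto_log_atTop.comp tendsto_natCast_atTop_atTop
  have hl1 : Tendsto (fun T : ℕ => (Real.log (T : ℝ)) ^ (1 / z - 1 - m)) atTop (nhds 0) := by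
    have h1 := (tendsto_rpow_neg_atTop (y := m - (1 / z - 1)) (by linarith)).comp hlogT
    refine h1.congr fun T => ?_
    simp only [Function.comp]
    congr 1
    ring
  have hl2 : Tendsto (fun T : ℕ => (Real.log (T : ℝ)) ^ (m + 2 * (z - 1))) atTop (nhds 0) := by
    have h1 := (tendsto_rpow_neg_atTop (y := 2 * (1 - z) - m) (by linarith)).comp hlogT
    refine h1.congr fun T => ?_
    simp only [Function.comp]
    congr 1
    ring
  -- the bound for fixed `K`
  have hbound : ∀ K : ℝ, 1 ≤ K → ∀ T : ℕ, 3 ≤ T → IT E g T ψ ≤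
      3 * K * C4 * (Real.log (T : ℝ)) ^ (1 / z - 1 - m) +
      C' / 2 * (Real.log (T : ℝ)) ^ (m + 2 * (z - 1)) + (10 * C + 4 * C * C1) / K := by
    intro K hK T hT
    have hL := one_le_logT hT
    have hL0 : 0 < Real.log (T : ℝ) := by linarith
    obtain ⟨L, hLdef⟩ : ∃ L : ℝ, L = Real.log (T : ℝ) := ⟨_, rfl⟩
    have hK0 : 0 < K := by linarith
    have h1 := ani_total E g hg1 T hψ hC (z := z) (A := K * Real.log T) (K := K)
      (l := (Real.log (T : ℝ)) ^ (-m)) hz0 hK0 (by positivity) (by positivity)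
    have h2 := hS1 T hT
    have h3 := hS3 T hT
    have h4 := hL2 T hT
    rw [← hLdef] at h1 h2 h3 h4 hL hL0 ⊢
    refine h1.trans ?_
    apply add_le_add
    · apply add_le_add
      · have h5 : 0 ≤ L ^ (-m) * (2 * (K * L) + K) := by positivity
        refine (mul_le_mul_of_nonneg_left h2 h5).trans ?_
        have h6 : L ^ (-m) * (2 * (K * L) + K) ≤ L ^ (-m) * (3 * K * L) := by
          apply mul_le_mul_of_nonneg_left _ (by positivity)
          nlinarith
        refine (mul_le_mul_of_nonneg_right h6 (by positivity)).trans (le_of_eq ?_)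
        have h7 : L ^ (1 / z - 1 - m) = L ^ (-m) * L * L ^ (1 / z - 2) := by
          rw [← Real.rpow_add_one hL0.ne', ← Real.rpow_add hL0]
          congr 1
          ring
        rw [h7]
        ring
      · have h5 : 0 ≤ 1 / (2 * L ^ (-m)) := by positivity
        refine (mul_le_mul_of_nonneg_left h4 h5).trans (le_of_eq ?_)
        have h7 : L ^ (m + 2 * (z - 1)) = (L ^ (-m))⁻¹ * L ^ (2 * (z - 1)) := by
          rw [Real.rpow_neg hL0.le, inv_inv, ← Real.rpow_add hL0]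
        rw [h7]
        field_simp
    · have h5 : 4 * C / (K * L) * ∑ p ∈ PE E T, 2 * Ap p * Real.log p ≤
          4 * C / (K * L) * (2 * L + C1) :=
        mul_le_mul_of_nonneg_left h3 (by positivity)
      have h6 : 4 * C / (K * L) * (2 * L + C1) ≤ (8 * C + 4 * C * C1) / K := by
        rw [div_mul_eq_mul_div, div_le_div_iff₀ (by positivity) hK0]
        have h8 : 4 * C * C1 * K ≤ 4 * C * C1 * K * L := by
          apply le_mul_of_one_le_right (by positivity) hL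
        nlinarith
      have h7 : (10 * C + 4 * C * C1) / K = 2 * C / K + (8 * C + 4 * C * C1) / K := by ring
      linarith
  -- conclusion
  have hIT0 : ∀ T, 0 ≤ IT E g T ψ := by
    intro T
    unfold IT
    apply Finset.sum_nonneg
    intro D hD
    rw [Finset.mem_powerset] at hD
    exact mul_nonneg (ani_Pr E T hD) (integral_nonneg fun t => norm_nonneg _)
  rw [Metric.tendsto_atTop]
  intro ε hε
  obtain ⟨K, hK⟩ := exists_nat_gt (max 1 ((10 * C + 4 * C * C1) / (ε / 2)))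
  have hK1 : (1 : ℝ) < K := (le_max_left _ _).trans_lt hK
  have hK2 : (10 * C + 4 * C * C1) / (ε / 2) < K := (le_max_right _ _).trans_lt hK
  have hK3 : (10 * C + 4 * C * C1) / K < ε / 2 := by
    rw [div_lt_iff₀ (by positivity)] at hK2
    rw [div_lt_iff₀ (by linarith)]
    linarith
  have hlim : Tendsto (fun T : ℕ => 3 * K * C4 * (Real.log (T : ℝ)) ^ (1 / z - 1 - m) +
      C' / 2 * (Real.log (T : ℝ)) ^ (m + 2 * (z - 1))) atTop (nhds 0) := by
    have := (hl1.const_mul (3 * K * C4)).add (hl2.const_mul (C' / 2))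
    simpa using this
  obtain ⟨N, hN⟩ := ((hlim.eventually (gt_mem_nhds (show (0:ℝ) < ε / 2 by linarith))).and
    (eventually_ge_atTop 3)).exists_forall_of_atTop
  refine ⟨N, fun T hT => ?_⟩
  obtain ⟨h1, h2⟩ := hN T hT
  have h3 := hbound K hK1.le T h2
  rw [Real.dist_eq, sub_zero, abs_of_nonneg (hIT0 T)]
  linarith

end Pool.Agent.OmEq

end

/-! ### from `Lib_MP_f1a94e_mr.Small1` -/

section

/-!
# Piece SMALL1: frequencies at which all prime polynomials are small, first stage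
-/

set_option autoImplicit false

namespace Pool.Agent.GaussMR

/-- Cauchy-Schwarz over the blocks: `‖UZ k‖² ≤ nv ∑_v ‖U_v‖² ‖fc (X e^(-vρ)) k‖²`. Blocks with
`(v+1) ρ ≤ log P` are empty (`U_v = 0`). Large sieve: `∑_{k ∈ fr T} ‖fc F (X e^(-vρ)) k‖² ≤
C (T + X e^(-vρ)) 9 X e^(-vρ) ≤ 18 C X² e^(-2vρ)` as `T ≤ X / Q ≤ X e^(-vρ)`. -/
theorem small1 : ∃ C : ℝ, 0 < C ∧ ∀ (F : G → ℝ), PM F → ∀ (P Q ρ X α : ℝ) (T : ℕ) (S : Finset ℤ),
    2 ≤ P → P ≤ Q → Q ≤ X → 0 < ρ → ρ ≤ 1 → 0 ≤ α → α ≤ 1 → (T : ℝ) ≤ X / Q → S ⊆ fr T →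
    (∀ k ∈ S, ∀ v : ℕ, ‖U F P Q ρ v k‖ ≤ Real.exp ((1 - α) * (v * ρ))) →
    ∑ k ∈ S, ‖UZ F P Q ρ X k‖ ^ 2 ≤
      C * X ^ 2 * (Real.log Q / ρ + 1) ^ 2 * P ^ (-(2 * α)) := by
  classical
  obtain ⟨C0, hC0, hLS⟩ := large_sieve
  refine ⟨18 * Real.exp 2 * C0, by positivity, ?_⟩
  intro F hF P Q ρ X α T S hP hPQ hQX hρ hρ1 hα hα1 hT hS hU
  have hP0 : 0 < P := by linarith
  have hQ0 : 0 < Q := by linarith
  have hX0 : 0 < X := by linarith
  set n : ℕ := nv Q ρ with hn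
  have hlogQ : 0 ≤ Real.log Q := Real.log_nonneg (by linarith)
  have hnle : (n : ℝ) ≤ Real.log Q / ρ + 1 := by
    rw [hn, nv]
    push_cast
    have := Nat.floor_le (show 0 ≤ Real.log Q / ρ by positivity)
    linarith
  have hn0 : (0 : ℝ) ≤ n := Nat.cast_nonneg n
  -- Cauchy-Schwarz
  have hCS : ∀ k : ℤ, ‖UZ F P Q ρ X k‖ ^ 2 ≤
      n * ∑ v ∈ Finset.range n, (‖U F P Q ρ v k‖ ^ 2 * ‖fc F (X * Real.exp (-(v * ρ))) k‖ ^ 2) := by
    intro k
    have h1 : ‖UZ F P Q ρ X k‖ ≤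
        ∑ v ∈ Finset.range n, (‖U F P Q ρ v k‖ * ‖fc F (X * Real.exp (-(v * ρ))) k‖) := by
      unfold UZ
      refine (norm_sum_le _ _).trans (le_of_eq ?_)
      refine Finset.sum_congr rfl fun v _ => ?_
      rw [norm_mul]
    have h2 : (∑ v ∈ Finset.range n, (‖U F P Q ρ v k‖ * ‖fc F (X * Real.exp (-(v * ρ))) k‖)) ^ 2 ≤
        n * ∑ v ∈ Finset.range n, (‖U F P Q ρ v k‖ * ‖fc F (X * Real.exp (-(v * ρ))) k‖) ^ 2 := by
      have := sq_sum_le_card_mul_sum_sq (s := Finset.range n)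
        (f := fun v : ℕ => ‖U F P Q ρ v k‖ * ‖fc F (X * Real.exp (-(v * ρ))) k‖)
      rwa [Finset.card_range] at this
    calc ‖UZ F P Q ρ X k‖ ^ 2 ≤
        (∑ v ∈ Finset.range n, (‖U F P Q ρ v k‖ * ‖fc F (X * Real.exp (-(v * ρ))) k‖)) ^ 2 := by
          gcongr
      _ ≤ n * ∑ v ∈ Finset.range n, (‖U F P Q ρ v k‖ * ‖fc F (X * Real.exp (-(v * ρ))) k‖) ^ 2 := h2
      _ = _ := by
          congr 1
          refine Finset.sum_congr rfl fun v _ => ?_
          rw [mul_pow]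
  -- bound for one block
  have hblk : ∀ v : ℕ, ∑ k ∈ S, (‖U F P Q ρ v k‖ ^ 2 * ‖fc F (X * Real.exp (-(v * ρ))) k‖ ^ 2) ≤
      18 * Real.exp 2 * C0 * X ^ 2 * P ^ (-(2 * α)) := by
    intro v
    by_cases hb : blk P Q ρ v = ∅
    · have h0 : ∀ k : ℤ, U F P Q ρ v k = 0 := by
        intro k
        unfold U
        rw [hb, Finset.sum_empty]
      have : ∑ k ∈ S, (‖U F P Q ρ v k‖ ^ 2 * ‖fc F (X * Real.exp (-(v * ρ))) k‖ ^ 2) = 0 := by
        refine Finset.sum_eq_zero fun k _ => ?_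
        rw [h0 k]
        simp
      rw [this]
      have := Real.rpow_pos_of_pos hP0 (-(2 * α))
      positivity
    · obtain ⟨w, hw⟩ := Finset.nonempty_iff_ne_empty.2 hb
      unfold blk at hw
      rw [Finset.mem_filter, mem_PP] at hw
      obtain ⟨⟨hw1, hw2, -⟩, hw3, hw4⟩ := hw
      have hvQ : Real.exp (v * ρ) ≤ Q := (hw3.trans_le hw2).le
      have hPv : P ≤ Real.exp ((v + 1) * ρ) := (hw1.trans_le hw4).le
      set Y : ℝ := X * Real.exp (-(v * ρ)) with hY
      have hexp : Real.exp (v * ρ) * Real.exp (-(v * ρ)) = 1 := by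
        rw [← Real.exp_add]; simp
      have hYpos : 0 < Y := by positivity
      have hY1 : 1 ≤ Y := by
        have : Real.exp (v * ρ) * Real.exp (-(v * ρ)) ≤ X * Real.exp (-(v * ρ)) := by
          gcongr
          linarith
        rw [hexp] at this
        exact this
      have hTY : (T : ℝ) ≤ Y := by
        refine hT.trans ?_
        rw [hY, Real.exp_neg, div_eq_mul_inv]
        have : Q⁻¹ ≤ (Real.exp (v * ρ))⁻¹ := inv_anti₀ (Real.exp_pos _) hvQ
        gcongr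
      -- large sieve
      have h1 := hLS Y T (fun z => (F z : ℂ)) hY1
      have h2 : ∑ z ∈ V Y, ‖(F z : ℂ)‖ ^ 2 = ((V Y).card : ℝ) := by
        rw [Finset.sum_congr rfl (fun z hz => by
          rw [hF.norm (mem_V.1 hz).2.1, one_pow] : ∀ z ∈ V Y, ‖(F z : ℂ)‖ ^ 2 = (1 : ℝ))]
        simp
      have h3 : ∑ k ∈ S, ‖fc F Y k‖ ^ 2 ≤ 18 * C0 * Y ^ 2 := by
        calc ∑ k ∈ S, ‖fc F Y k‖ ^ 2 ≤ ∑ k ∈ fr T, ‖fc F Y k‖ ^ 2 :=
              Finset.sum_le_sum_of_subset_of_nonneg hS (fun _ _ _ => by positivity)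
          _ ≤ C0 * (T + Y) * ((V Y).card : ℝ) := by
              rw [h2] at h1
              exact h1
          _ ≤ C0 * (Y + Y) * (9 * Y) := by
              have := card_V_le Y hYpos.le
              gcongr
          _ = 18 * C0 * Y ^ 2 := by ring
      have h4 : ∀ k ∈ S, ‖U F P Q ρ v k‖ ^ 2 * ‖fc F Y k‖ ^ 2 ≤
          Real.exp ((1 - α) * (v * ρ)) ^ 2 * ‖fc F Y k‖ ^ 2 := by
        intro k hk
        have := hU k hk v
        gcongr
      calc ∑ k ∈ S, (‖U F P Q ρ v k‖ ^ 2 * ‖fc F Y k‖ ^ 2) ≤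
          ∑ k ∈ S, Real.exp ((1 - α) * (v * ρ)) ^ 2 * ‖fc F Y k‖ ^ 2 := Finset.sum_le_sum h4
        _ = Real.exp ((1 - α) * (v * ρ)) ^ 2 * ∑ k ∈ S, ‖fc F Y k‖ ^ 2 := by
            rw [Finset.mul_sum]
        _ ≤ Real.exp ((1 - α) * (v * ρ)) ^ 2 * (18 * C0 * Y ^ 2) := by gcongr
        _ = 18 * C0 * X ^ 2 * Real.exp (-(2 * α * (v * ρ))) := by
            rw [hY, mul_pow]
            rw [show Real.exp ((1 - α) * (v * ρ)) ^ 2 * (18 * C0 * (X ^ 2 * Real.exp (-(v * ρ)) ^ 2)) =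
              18 * C0 * X ^ 2 * (Real.exp ((1 - α) * (v * ρ)) ^ 2 * Real.exp (-(v * ρ)) ^ 2) by ring]
            congr 1
            rw [← Real.exp_nat_mul, ← Real.exp_nat_mul, ← Real.exp_add]
            congr 1
            push_cast
            ring
        _ ≤ 18 * C0 * X ^ 2 * (Real.exp 2 * P ^ (-(2 * α))) := by
            have h5 : Real.exp (-(2 * α * (v * ρ))) ≤ Real.exp 2 * P ^ (-(2 * α)) := by
              rw [Real.rpow_def_of_pos hP0, ← Real.exp_add]
              apply Real.exp_le_exp.2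
              have h6 : Real.log P ≤ (v + 1) * ρ := by
                rw [Real.log_le_iff_le_exp hP0]
                exact hPv
              have h7 : 2 * α * Real.log P ≤ 2 * α * ((v + 1) * ρ) := by gcongr
              have h8 : 2 * α * ρ ≤ 2 := by nlinarith
              nlinarith
            gcongr
        _ = _ := by ring
  calc ∑ k ∈ S, ‖UZ F P Q ρ X k‖ ^ 2 ≤
      ∑ k ∈ S, (n * ∑ v ∈ Finset.range n,
        (‖U F P Q ρ v k‖ ^ 2 * ‖fc F (X * Real.exp (-(v * ρ))) k‖ ^ 2)) :=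
        Finset.sum_le_sum fun k _ => hCS k
    _ = n * ∑ v ∈ Finset.range n, ∑ k ∈ S,
        (‖U F P Q ρ v k‖ ^ 2 * ‖fc F (X * Real.exp (-(v * ρ))) k‖ ^ 2) := by
        rw [← Finset.mul_sum, Finset.sum_comm]
    _ ≤ n * ∑ v ∈ Finset.range n, (18 * Real.exp 2 * C0 * X ^ 2 * P ^ (-(2 * α))) := by
        gcongr with v hv
        exact hblk v
    _ = (18 * Real.exp 2 * C0 * X ^ 2 * P ^ (-(2 * α))) * (n : ℝ) ^ 2 := by
        rw [Finset.sum_const, Finset.card_range, nsmul_eq_mul]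
        ring
    _ ≤ (18 * Real.exp 2 * C0 * X ^ 2 * P ^ (-(2 * α))) * (Real.log Q / ρ + 1) ^ 2 := by
        have := Real.rpow_pos_of_pos hP0 (-(2 * α))
        gcongr
    _ = _ := by ring

end Pool.Agent.GaussMR

end

/-! ### from `Lib_MP_f1a94e_mr.Few` -/

section

/-!
# Piece FEW: few frequencies at which a second stage prime polynomial is large
-/

set_option autoImplicit false

namespace Pool.Agent.GaussMR

namespace FewAux

open Filter Topology

lemma xi_one (k : ℤ) : xi k 1 = 1 := by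
  have h := xi_natCast_mul k (n := 1) one_pos 1
  have h1 : dir 1 = 1 := by
    have := dir_natCast (n := 1) one_pos
    simpa using this
  unfold xi
  rw [h1, one_zpow]

lemma xi_prod {ι : Type*} (s : Finset ι) (k : ℤ) (x : ι → G) :
    xi k (∏ i ∈ s, x i) = ∏ i ∈ s, xi k (x i) := by
  classical
  induction s using Finset.induction_on with
  | empty => simp [xi_one]
  | insert a s ha ih => rw [Finset.prod_insert ha, Finset.prod_insert ha, xi_mul, ih]

lemma nm_prod {ι : Type*} (s : Finset ι) (x : ι → G) : nm (∏ i ∈ s, x i) = ∏ i ∈ s, nm (x i) := by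
  classical
  induction s using Finset.induction_on with
  | empty => simp
  | insert a s ha ih => rw [Finset.prod_insert ha, Finset.prod_insert ha, nm_mul, ih]

lemma U_pow (F : G → ℝ) (P Q ρ : ℝ) (v : ℕ) (k : ℤ) (l : ℕ) :
    U F P Q ρ v k ^ l = ∑ x ∈ Fintype.piFinset (fun _ : Fin l => blk P Q ρ v),
      (∏ i, (F (x i) : ℂ)) * xi (-k) (∏ i, x i) := by
  have h1 : U F P Q ρ v k ^ l = ∏ _i : Fin l, U F P Q ρ v k := by
    rw [Finset.prod_const, Finset.card_univ, Fintype.card_fin]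
  rw [h1]
  unfold U
  rw [Finset.prod_univ_sum]
  refine Finset.sum_congr rfl fun x _ => ?_
  rw [Finset.prod_mul_distrib, xi_prod]

lemma mem_blk_few {P Q ρ : ℝ} {v : ℕ} {w : G} : w ∈ blk P Q ρ v ↔ w ∈ PP P Q ∧
    Real.exp (v * ρ) < (nm w : ℝ) ∧ (nm w : ℝ) ≤ Real.exp ((v + 1) * ρ) := by
  classical
  simp [blk]

/-- number of coincidences -/
lemma pairs_le_few (P Q ρ : ℝ) (v l : ℕ) :
    (Set.ncard {p : (Fin l → G) × (Fin l → G) |
      p.1 ∈ Fintype.piFinset (fun _ : Fin l => blk P Q ρ v) ∧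
      p.2 ∈ Fintype.piFinset (fun _ : Fin l => blk P Q ρ v) ∧
      pr (∏ i, p.1 i) = pr (∏ i, p.2 i)} : ℝ) ≤
      Real.exp ((v + 1) * ρ) ^ l * l.factorial := by
  classical
  set s := Fintype.piFinset (fun _ : Fin l => blk P Q ρ v) with hs
  have hsP : ∀ x ∈ s, ∀ i, x i ∈ PP P Q := by
    intro x hx i
    rw [hs, Fintype.mem_piFinset] at hx
    exact (mem_blk_few.1 (hx i)).1
  set D := (s ×ˢ s).filter (fun p => ∏ i, p.1 i = ∏ i, p.2 i) with hD
  have h1 : {p : (Fin l → G) × (Fin l → G) | p.1 ∈ s ∧ p.2 ∈ s ∧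
      pr (∏ i, p.1 i) = pr (∏ i, p.2 i)} ⊆ (D : Set _) := by
    rintro p ⟨p1, p2, p3⟩
    rw [pr_eq_self _ (prim_prod p.1 (hsP _ p1)).1, pr_eq_self _ (prim_prod p.2 (hsP _ p2)).1] at p3
    rw [hD, Finset.coe_filter]
    exact ⟨Finset.mem_product.2 ⟨p1, p2⟩, p3⟩
  have h2 : Set.ncard {p : (Fin l → G) × (Fin l → G) | p.1 ∈ s ∧ p.2 ∈ s ∧
      pr (∏ i, p.1 i) = pr (∏ i, p.2 i)} ≤ D.card := by
    rw [← Set.ncard_coe_finset]
    exact Set.ncard_le_ncard h1 (Finset.finite_toSet D)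
  have h3 : D.card = ∑ x ∈ s, (D.filter (fun p => p.1 = x)).card := by
    apply Finset.card_eq_sum_card_fiberwise
    intro p hp
    exact (Finset.mem_product.1 (Finset.mem_filter.1 hp).1).1
  have h4 : ∀ x ∈ s, (D.filter (fun p => p.1 = x)).card ≤ l.factorial := by
    intro x hx
    refine le_trans ?_ (prod_fiber x (hsP x hx))
    rw [← Set.ncard_coe_finset]
    refine Set.ncard_le_ncard_of_injOn (fun p => p.2) ?_ ?_ ?_
    · intro p hp
      obtain ⟨hp1, hp2⟩ := Finset.mem_filter.1 (Finset.mem_coe.1 hp)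
      obtain ⟨hp3, hp4⟩ := Finset.mem_filter.1 hp1
      refine ⟨hsP _ (Finset.mem_product.1 hp3).2, ?_⟩
      rw [← hp4, hp2]
    · intro p hp q hq hpq
      have hp2 := (Finset.mem_filter.1 (Finset.mem_coe.1 hp)).2
      have hq2 := (Finset.mem_filter.1 (Finset.mem_coe.1 hq)).2
      exact Prod.ext (hp2.trans hq2.symm) hpq
    · refine (Finset.finite_toSet (Fintype.piFinset (fun _ : Fin l => PP P Q))).subset ?_
      rintro y ⟨hy, _⟩
      rw [Finset.mem_coe, Fintype.mem_piFinset]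
      exact hy
  have h5 : D.card ≤ s.card * l.factorial := by
    rw [h3]
    calc ∑ x ∈ s, (D.filter (fun p => p.1 = x)).card ≤ ∑ _x ∈ s, l.factorial :=
          Finset.sum_le_sum h4
      _ = s.card * l.factorial := by rw [Finset.sum_const, smul_eq_mul]
  have h6 : (s.card : ℝ) ≤ Real.exp ((v + 1) * ρ) ^ l := by
    rw [hs, Fintype.card_piFinset]
    push_cast
    rw [Finset.prod_const, Finset.card_univ, Fintype.card_fin]
    gcongr
    exact card_blk_le P Q ρ v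
  calc (Set.ncard {p : (Fin l → G) × (Fin l → G) | p.1 ∈ s ∧ p.2 ∈ s ∧
      pr (∏ i, p.1 i) = pr (∏ i, p.2 i)} : ℝ) ≤ (s.card * l.factorial : ℕ) := by
        exact_mod_cast h2.trans h5
    _ = (s.card : ℝ) * l.factorial := by push_cast; ring
    _ ≤ _ := by gcongr

/-- the estimate for one block -/
lemma one_block {C : ℝ} (hC0 : 0 < C) (hC : ∀ (ι : Type) (s : Finset ι) (g : ι → G) (c : ι → ℂ)
    (Y : ℝ) (T : ℕ), 1 ≤ Y → (∀ i ∈ s, ‖c i‖ ≤ 1) →
    (∀ i ∈ s, Odd (nm (g i)) ∧ (nm (g i) : ℝ) ≤ Y) →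
    ∑ k ∈ fr T, ‖∑ i ∈ s, c i * xi (-k) (g i)‖ ^ 2 ≤
      C * (T + Y) * (Set.ncard {p : ι × ι | p.1 ∈ s ∧ p.2 ∈ s ∧ pr (g p.1) = pr (g p.2)} : ℝ))
    {F : G → ℝ} (hF : PM F) {P Q ρ X α : ℝ} {T v l : ℕ} (hρ : 0 < ρ) (hX : 1 ≤ X)
    (hT : (T : ℝ) ≤ X) (h1 : l * (v * ρ) ≤ Real.log X) (h2 : Real.log X ≤ (l + 1) * (v * ρ))
    (h3 : v * ρ ≤ Real.log Q) (hQ : 0 < Q) (hα : 0 < α) (hα' : α ≤ 1 / 4) :
    (((fr T).filter (fun k => Real.exp ((1 - α) * (v * ρ)) < ‖U F P Q ρ v k‖)).card : ℝ) ≤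
      2 * C * Real.exp (2 * ρ * l) * l.factorial * X ^ (2 * α) * Q := by
  classical
  set s := Fintype.piFinset (fun _ : Fin l => blk P Q ρ v) with hs
  set A := (fr T).filter (fun k => Real.exp ((1 - α) * (v * ρ)) < ‖U F P Q ρ v k‖) with hA
  set Y := X * Real.exp (ρ * l) with hY
  have hX0 : 0 < X := by linarith
  have hY1 : 1 ≤ Y := by
    have : 1 ≤ Real.exp (ρ * l) := Real.one_le_exp (by positivity)
    nlinarith
  have hsB : ∀ x ∈ s, ∀ i, x i ∈ blk P Q ρ v := by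
    intro x hx i
    rw [hs, Fintype.mem_piFinset] at hx
    exact hx i
  have hodd : ∀ x ∈ s, ∀ i, Odd (nm (x i)) := fun x hx i =>
    (PP_spl (mem_blk_few.1 (hsB x hx i)).1).odd
  have hexpY : Real.exp ((v + 1) * ρ) ^ l ≤ Y := by
    rw [← Real.exp_nat_mul, hY]
    have : X * Real.exp (ρ * l) = Real.exp (Real.log X + ρ * l) := by
      rw [Real.exp_add, Real.exp_log hX0]
    rw [this]
    apply Real.exp_le_exp.2
    nlinarith
  have hLS := hC (Fin l → G) s (fun x => ∏ i, x i) (fun x => ∏ i, (F (x i) : ℂ)) Y T hY1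
    (by
      intro x hx
      rw [norm_prod]
      have : ∀ i ∈ Finset.univ, ‖(F (x i) : ℂ)‖ = 1 := fun i _ => hF.norm (hodd x hx i)
      rw [Finset.prod_congr rfl this, Finset.prod_const_one])
    (by
      intro x hx
      refine ⟨(prim_prod x (fun i => (mem_blk_few.1 (hsB x hx i)).1)).2, ?_⟩
      rw [nm_prod]
      push_cast
      calc ∏ i : Fin l, (nm (x i) : ℝ) ≤ ∏ _i : Fin l, Real.exp ((v + 1) * ρ) := by
            apply Finset.prod_le_prod
            · intro i _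
              positivity
            · intro i _
              exact (mem_blk_few.1 (hsB x hx i)).2.2
        _ = Real.exp ((v + 1) * ρ) ^ l := by
            rw [Finset.prod_const, Finset.card_univ, Fintype.card_fin]
        _ ≤ Y := hexpY)
  have hLS2 := hLS.trans (mul_le_mul_of_nonneg_left (pairs_le_few P Q ρ v l) (by positivity))
  have hlow : (A.card : ℝ) * Real.exp ((1 - α) * (v * ρ)) ^ (2 * l) ≤
      ∑ k ∈ fr T, ‖∑ x ∈ s, (∏ i, (F (x i) : ℂ)) * xi (-k) (∏ i, x i)‖ ^ 2 := by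
    calc (A.card : ℝ) * Real.exp ((1 - α) * (v * ρ)) ^ (2 * l) =
        ∑ _k ∈ A, Real.exp ((1 - α) * (v * ρ)) ^ (2 * l) := by
          rw [Finset.sum_const, nsmul_eq_mul]
      _ ≤ ∑ k ∈ A, ‖∑ x ∈ s, (∏ i, (F (x i) : ℂ)) * xi (-k) (∏ i, x i)‖ ^ 2 := by
          apply Finset.sum_le_sum
          intro k hk
          rw [← U_pow F P Q ρ v k l, norm_pow, ← pow_mul, Nat.mul_comm l 2]
          have := (Finset.mem_filter.1 hk).2
          gcongr
      _ ≤ _ := by
          apply Finset.sum_le_sum_of_subset_of_nonneg (Finset.filter_subset _ _)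
          intro k _ _
          positivity
  have hTY : (T : ℝ) + Y ≤ 2 * Y := by
    have : X ≤ Y := by
      have : 1 ≤ Real.exp (ρ * l) := Real.one_le_exp (by positivity)
      nlinarith
    linarith
  have hmain : (A.card : ℝ) * Real.exp ((1 - α) * (v * ρ)) ^ (2 * l) ≤
      C * (2 * Y) * (Real.exp ((v + 1) * ρ) ^ l * l.factorial) := by
    refine (hlow.trans hLS2).trans ?_
    gcongr
  have hE0 : 0 < Real.exp ((1 - α) * (v * ρ)) ^ (2 * l) := by positivity
  rw [← le_div_iff₀ hE0] at hmain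
  refine hmain.trans ?_
  rw [div_le_iff₀ hE0]
  have e1 : Y * Real.exp ((v + 1) * ρ) ^ l ≤ Real.exp (2 * ρ * l) * X ^ (2 * α) * Q *
      Real.exp ((1 - α) * (v * ρ)) ^ (2 * l) := by
    have a1 : Y * Real.exp ((v + 1) * ρ) ^ l =
        Real.exp (Real.log X + ρ * l + l * ((v + 1) * ρ)) := by
      rw [hY, ← Real.exp_nat_mul, Real.exp_add, Real.exp_add, Real.exp_log hX0]
    have a2 : Real.exp (2 * ρ * l) * X ^ (2 * α) * Q * Real.exp ((1 - α) * (v * ρ)) ^ (2 * l) =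
        Real.exp (2 * ρ * l + Real.log X * (2 * α) + Real.log Q +
          2 * l * ((1 - α) * (v * ρ))) := by
      rw [← Real.exp_nat_mul, Real.rpow_def_of_pos hX0, Real.exp_add, Real.exp_add, Real.exp_add,
        Real.exp_log hQ]
      push_cast
      ring
    rw [a1, a2]
    apply Real.exp_le_exp.2
    have b1 : 0 ≤ Real.log X - l * (v * ρ) := by linarith
    have b2 : Real.log X - l * (v * ρ) ≤ Real.log Q := by linarith
    have b3 : (1 - 2 * α) * (Real.log X - l * (v * ρ)) ≤ Real.log Q := by nlinarith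
    nlinarith
  calc C * (2 * Y) * (Real.exp ((v + 1) * ρ) ^ l * l.factorial) =
      2 * C * l.factorial * (Y * Real.exp ((v + 1) * ρ) ^ l) := by ring
    _ ≤ 2 * C * l.factorial * (Real.exp (2 * ρ * l) * X ^ (2 * α) * Q *
        Real.exp ((1 - α) * (v * ρ)) ^ (2 * l)) := by gcongr
    _ = _ := by ring

/-- the conditions on `X` -/
lemma large_X (C C2 M ρ δ : ℝ) (hC : 0 < C) (hC2 : 1 ≤ C2) (hM : 1 ≤ M) (hρ : 0 < ρ)
    (hδ : 0 < δ) : ∀ᶠ X : ℝ in atTop, 1 ≤ X ∧ 1 ≤ Real.log X ∧ 2 ≤ Real.log (Real.log X) ∧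
      Real.log (Real.log X) + 2 ≤ (1 / C2 + δ / 2) * (C2 * Real.log (Real.log X) - 1) ∧
      2 * C * (C2 * M * Real.log (Real.log X) / ρ + 1) * Real.log X ^ (C2 * M) ≤ X ^ (δ / 2) := by
  have tL := Real.tendsto_log_atTop
  have tE := tL.comp tL
  have h4 := tE.eventually_ge_atTop ((2 + 1 / C2 + δ / 2) * 2 / (δ * C2))
  have hK : 0 < 2 * C * (C2 * M / ρ + 1) := by positivity
  have h5 := (isLittleO_log_rpow_rpow_atTop (C2 * M + 1) (half_pos hδ)).def
    (one_div_pos.2 hK)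
  filter_upwards [eventually_ge_atTop 1, tL.eventually_ge_atTop 1, tE.eventually_ge_atTop 2, h4,
    h5] with X h1 h2 h3 h4 h5
  simp only [Function.comp] at h3 h4
  refine ⟨h1, h2, h3, ?_, ?_⟩
  · have hC0 : 0 < C2 := by linarith
    rw [div_le_iff₀ (by positivity)] at h4
    have : (1 / C2 + δ / 2) * (C2 * Real.log (Real.log X) - 1) =
        Real.log (Real.log X) + (Real.log (Real.log X) * (δ * C2)) / 2 - 1 / C2 - δ / 2 := by
      field_simp
      ring
    rw [this]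
    linarith
  · have hL0 : 0 < Real.log X := by linarith
    have e1 : Real.log (Real.log X) ≤ Real.log X := by
      have := Real.log_le_sub_one_of_pos hL0
      linarith
    rw [Real.norm_of_nonneg (by positivity), Real.norm_of_nonneg (by positivity),
      Real.rpow_add hL0, Real.rpow_one, one_div, inv_mul_eq_div, le_div_iff₀ hK] at h5
    have hC0 : 0 < C2 := by linarith
    have hM0 : 0 < M := by linarith
    calc 2 * C * (C2 * M * Real.log (Real.log X) / ρ + 1) * Real.log X ^ (C2 * M) ≤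
        2 * C * (C2 * M * Real.log X / ρ + Real.log X) * Real.log X ^ (C2 * M) := by gcongr
      _ = Real.log X ^ (C2 * M) * Real.log X * (2 * C * (C2 * M / ρ + 1)) := by ring
      _ ≤ _ := h5

end FewAux

open FewAux

/-- For a nonempty block `v` let `l = ⌊log X / (v ρ)⌋`. `(U_v)^l` is a sum over the family
`x ∈ blk^l`, `g = ∏ x` odd, primitive, of norm `≤ e^((v+1) ρ l) ≤ X e^(ρ l)`, so by `large_sieve_fam`
and `prod_fiber` its mean square is at most `C (T + X e^(ρl)) l! #blk^l ≤ 2 C X e^(ρl) l! e^((v+1)ρl)`;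
therefore `#{k : ‖U_v k‖ > e^((1-α) v ρ)} ≤ 2 C X e^(2ρl) l! e^(-(1-2α) v ρ l)
≤ 2 C e^(2ρl) l! X^(2α) Q`, because `e^(vρl) ≥ X e^(-vρ) ≥ X / Q`. Here
`l ≤ log X / (C2 log log X - ρ)`, `l! ≤ l^l ≤ exp (l log log X)`, which is `X^(1/C2 + o(1))`, and
`Q = (log X)^(C2 M)`, `e^(2ρl)`, and the number of blocks are `X^(o(1))`. -/
theorem few (α C2 M ρ δ : ℝ) (hα : 0 < α) (hα' : α ≤ 1 / 4) (hC2 : 1 ≤ C2) (hM : 1 ≤ M)
    (hρ : 0 < ρ) (hρ' : ρ ≤ 1) (hδ : 0 < δ) : ∃ X0 : ℝ, ∀ X : ℝ, X0 ≤ X → ∀ (F : G → ℝ), PM F →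
    ∀ T : ℕ, (T : ℝ) ≤ X →
    (Set.ncard {k : ℤ | k ∈ fr T ∧ ∃ v : ℕ, Real.exp ((1 - α) * (v * ρ)) <
      ‖U F (Real.log X ^ C2) (Real.log X ^ (C2 * M)) ρ v k‖} : ℝ) ≤ X ^ (2 * α + 1 / C2 + δ) := by
  classical
  obtain ⟨C, hC0, hC⟩ := large_sieve_fam
  obtain ⟨X0, hX0⟩ := Filter.eventually_atTop.1 (large_X C C2 M ρ δ hC0 hC2 hM hρ hδ)
  refine ⟨X0, fun X hX F hF T hT => ?_⟩
  obtain ⟨x1, x2, x3, x4, x5⟩ := hX0 X hX
  set L := Real.log X with hL
  set E := Real.log L with hE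
  set P := L ^ C2 with hP
  set Q := L ^ (C2 * M) with hQ
  have hXpos : 0 < X := by linarith
  have hLpos : 0 < L := by linarith
  have hC2pos : 0 < C2 := by linarith
  have hMpos : 0 < M := by linarith
  have hQpos : 0 < Q := Real.rpow_pos_of_pos hLpos _
  have hPpos : 0 < P := Real.rpow_pos_of_pos hLpos _
  have hlogQ : Real.log Q = C2 * M * E := by rw [hQ, Real.log_rpow hLpos]
  have hlogP : Real.log P = C2 * E := by rw [hP, Real.log_rpow hLpos]
  set Nv := ⌊C2 * M * E / ρ⌋₊ + 1 with hNv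
  -- the range of v
  have hv : ∀ (v : ℕ) (k : ℤ), Real.exp ((1 - α) * (v * ρ)) < ‖U F P Q ρ v k‖ →
      v * ρ ≤ C2 * M * E ∧ C2 * E - 1 ≤ v * ρ := by
    intro v k hvk
    have hne : (blk P Q ρ v).Nonempty := by
      by_contra h
      rw [Finset.not_nonempty_iff_eq_empty] at h
      have : U F P Q ρ v k = 0 := by
        unfold U
        rw [h, Finset.sum_empty]
      rw [this, norm_zero] at hvk
      exact absurd hvk (not_lt.2 (Real.exp_pos _).le)
    obtain ⟨w, hw⟩ := hne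
    obtain ⟨w1, w2, w3⟩ := mem_blk_few.1 hw
    obtain ⟨w4, w5, _⟩ := mem_PP.1 w1
    constructor
    · have := w2.trans_le w5
      rw [← Real.lt_log_iff_exp_lt hQpos, hlogQ] at this
      exact this.le
    · have := w4.trans_le w3
      rw [← Real.log_lt_iff_lt_exp hPpos, hlogP] at this
      nlinarith
  have hsub : {k : ℤ | k ∈ fr T ∧ ∃ v : ℕ, Real.exp ((1 - α) * (v * ρ)) < ‖U F P Q ρ v k‖} ⊆
      (((Finset.range Nv).biUnion (fun v => (fr T).filter
        (fun k => Real.exp ((1 - α) * (v * ρ)) < ‖U F P Q ρ v k‖)) : Finset ℤ) : Set ℤ) := by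
    rintro k ⟨hk, v, hvk⟩
    rw [Finset.mem_coe, Finset.mem_biUnion]
    refine ⟨v, ?_, Finset.mem_filter.2 ⟨hk, hvk⟩⟩
    rw [Finset.mem_range, hNv, Nat.lt_succ_iff]
    apply Nat.le_floor
    rw [le_div_iff₀ hρ]
    exact (hv v k hvk).1
  have hcard : ∀ v ∈ Finset.range Nv, (((fr T).filter
      (fun k => Real.exp ((1 - α) * (v * ρ)) < ‖U F P Q ρ v k‖)).card : ℝ) ≤
      2 * C * X ^ (1 / C2 + δ / 2) * X ^ (2 * α) * Q := by
    intro v _
    rcases Finset.eq_empty_or_nonempty ((fr T).filter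
      (fun k => Real.exp ((1 - α) * (v * ρ)) < ‖U F P Q ρ v k‖)) with he | ⟨k, hk⟩
    · rw [he, Finset.card_empty, Nat.cast_zero]
      positivity
    · obtain ⟨v1, v2⟩ := hv v k (Finset.mem_filter.1 hk).2
      have hv1 : 1 ≤ v * ρ := by nlinarith
      have hv0 : 0 < v * ρ := by linarith
      set l := ⌊L / (v * ρ)⌋₊ with hl
      have l1 : (l : ℝ) ≤ L / (v * ρ) := Nat.floor_le (by positivity)
      have l2 : L / (v * ρ) < l + 1 := Nat.lt_floor_add_one _
      have l3 : l * (v * ρ) ≤ L := by rwa [le_div_iff₀ hv0] at l1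
      have l4 : L ≤ (l + 1) * (v * ρ) := by
        rw [div_lt_iff₀ hv0] at l2
        exact l2.le
      have l5 : (l : ℝ) ≤ L := by
        calc (l : ℝ) ≤ L / (v * ρ) := l1
          _ ≤ L / 1 := by gcongr
          _ = L := div_one L
      have hfac : Real.exp (2 * ρ * l) * l.factorial ≤ X ^ (1 / C2 + δ / 2) := by
        have f1 : (l.factorial : ℝ) ≤ Real.exp (l * E) := by
          have g1 : (l.factorial : ℝ) ≤ (l : ℝ) ^ l := by exact_mod_cast Nat.factorial_le_pow l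
          have g2 : (l : ℝ) ^ l ≤ L ^ l := by gcongr
          have g3 : L ^ l = Real.exp (l * E) := by
            rw [Real.exp_nat_mul, hE, Real.exp_log hLpos]
          linarith
        have f2 : Real.exp (2 * ρ * l) ≤ Real.exp (2 * l) := by
          apply Real.exp_le_exp.2
          have : (0 : ℝ) ≤ l := Nat.cast_nonneg l
          nlinarith
        have f3 : l * (E + 2) ≤ (1 / C2 + δ / 2) * L := by
          have g0 : (0 : ℝ) ≤ l := Nat.cast_nonneg l
          have g1 : (0:ℝ) ≤ 1 / C2 + δ / 2 := by positivity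
          calc l * (E + 2) ≤ l * ((1 / C2 + δ / 2) * (C2 * E - 1)) := by gcongr
            _ = (1 / C2 + δ / 2) * (l * (C2 * E - 1)) := by ring
            _ ≤ (1 / C2 + δ / 2) * (l * (v * ρ)) := by gcongr
            _ ≤ (1 / C2 + δ / 2) * L := by gcongr
        calc Real.exp (2 * ρ * l) * l.factorial ≤ Real.exp (2 * l) * Real.exp (l * E) := by
              gcongr
          _ = Real.exp (l * (E + 2)) := by
              rw [← Real.exp_add]
              congr 1
              ring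
          _ ≤ Real.exp (L * (1 / C2 + δ / 2)) := by
              apply Real.exp_le_exp.2
              linarith
          _ = X ^ (1 / C2 + δ / 2) := by rw [Real.rpow_def_of_pos hXpos]
      have hb := one_block hC0 hC hF (P := P) (Q := Q) (ρ := ρ) (X := X) (α := α) (T := T)
        (v := v) (l := l) hρ x1 hT l3 l4 (by rw [hlogQ]; exact v1) hQpos hα hα'
      refine hb.trans ?_
      calc 2 * C * Real.exp (2 * ρ * l) * l.factorial * X ^ (2 * α) * Q =
          2 * C * (Real.exp (2 * ρ * l) * l.factorial) * X ^ (2 * α) * Q := by ring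
        _ ≤ _ := by gcongr
  have hfin := Set.ncard_le_ncard hsub (Finset.finite_toSet _)
  rw [Set.ncard_coe_finset] at hfin
  have hNvle : (Nv : ℝ) ≤ C2 * M * E / ρ + 1 := by
    rw [hNv]
    push_cast
    have : (⌊C2 * M * E / ρ⌋₊ : ℝ) ≤ C2 * M * E / ρ := Nat.floor_le (by positivity)
    linarith
  calc (Set.ncard {k : ℤ | k ∈ fr T ∧ ∃ v : ℕ, Real.exp ((1 - α) * (v * ρ)) <
      ‖U F P Q ρ v k‖} : ℝ) ≤ (((Finset.range Nv).biUnion (fun v => (fr T).filter
        (fun k => Real.exp ((1 - α) * (v * ρ)) < ‖U F P Q ρ v k‖))).card : ℝ) := by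
        exact_mod_cast hfin
    _ ≤ ((∑ v ∈ Finset.range Nv, ((fr T).filter
        (fun k => Real.exp ((1 - α) * (v * ρ)) < ‖U F P Q ρ v k‖)).card : ℕ) : ℝ) := by
        exact_mod_cast Finset.card_biUnion_le
    _ = ∑ v ∈ Finset.range Nv, (((fr T).filter
        (fun k => Real.exp ((1 - α) * (v * ρ)) < ‖U F P Q ρ v k‖)).card : ℝ) := by push_cast; rfl
    _ ≤ ∑ _v ∈ Finset.range Nv, 2 * C * X ^ (1 / C2 + δ / 2) * X ^ (2 * α) * Q :=
        Finset.sum_le_sum hcard
    _ = Nv * (2 * C * X ^ (1 / C2 + δ / 2) * X ^ (2 * α) * Q) := by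
        rw [Finset.sum_const, Finset.card_range, nsmul_eq_mul]
    _ ≤ (C2 * M * E / ρ + 1) * (2 * C * X ^ (1 / C2 + δ / 2) * X ^ (2 * α) * Q) := by gcongr
    _ = X ^ (2 * α) * X ^ (1 / C2 + δ / 2) * (2 * C * (C2 * M * E / ρ + 1) * Q) := by ring
    _ ≤ X ^ (2 * α) * X ^ (1 / C2 + δ / 2) * X ^ (δ / 2) := by gcongr
    _ = X ^ (2 * α + 1 / C2 + δ) := by
        rw [← Real.rpow_add hXpos, ← Real.rpow_add hXpos]
        congr 1
        ring

end Pool.Agent.GaussMR

end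

/-! ### from `Lib_MP_f1a94e_mr.DivCount` -/

section

/-!
# Piece DIVCOUNT: divisors that are almost primes
-/

set_option autoImplicit false

namespace Pool.Agent.GaussMR

/-- divisors of `z` all of whose prime factors have norm at least `B` -/
def bigDiv (B : ℝ) (z : G) : Set G := {u : G | u ∣ z ∧ ∀ p : G, Prime p → p ∣ u → B ≤ (nm p : ℝ)}

theorem bigDiv_finite (B : ℝ) {z : G} (hz : z ≠ 0) : (bigDiv B z).Finite := by
  refine (finite_ball (nm z : ℝ)).subset ?_
  rintro u ⟨hu, -⟩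
  have : nm u ≤ nm z := Nat.le_of_dvd (nm_pos hz) (nm_dvd hu)
  show (nm u : ℝ) ≤ nm z
  exact_mod_cast this

theorem ncard_units : Set.ncard {u : G | IsUnit u} ≤ 4 := by
  classical
  have h : {u : G | IsUnit u} ⊆
      (({⟨1, 0⟩, ⟨-1, 0⟩, ⟨0, 1⟩, ⟨0, -1⟩} : Finset G) : Set G) := by
    intro u hu
    have h1 : nm u = 1 := nm_eq_one_iff.2 hu
    have h2 : (nm u : ℤ) = 1 := by exact_mod_cast h1
    rw [nm_eq] at h2
    have a1 : u.re ^ 2 ≤ 1 := by nlinarith [sq_nonneg u.im]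
    have a2 : u.im ^ 2 ≤ 1 := by nlinarith [sq_nonneg u.re]
    have b1 : -1 ≤ u.re ∧ u.re ≤ 1 := abs_le.1 ((sq_le_one_iff_abs_le_one _).1 a1)
    have b2 : -1 ≤ u.im ∧ u.im ≤ 1 := abs_le.1 ((sq_le_one_iff_abs_le_one _).1 a2)
    obtain ⟨x, y⟩ := u
    simp only at b1 b2 h2
    obtain ⟨c1, c2⟩ := b1
    obtain ⟨d1, d2⟩ := b2
    simp only [Finset.coe_insert, Finset.coe_singleton, Set.mem_insert_iff, Set.mem_singleton_iff,
      Zsqrtd.ext_iff]
    interval_cases x <;> interval_cases y <;> simp_all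
  refine (Set.ncard_le_ncard h (Finset.finite_toSet _)).trans ?_
  rw [Set.ncard_coe_finset]
  exact Finset.card_le_four

theorem ncard_bigDiv {B : ℝ} (hB : 1 < B) (k : ℕ) : ∀ z : G, z ≠ 0 → (nm z : ℝ) < B ^ (k + 1) →
    (bigDiv B z).ncard ≤ 4 * 2 ^ k := by
  induction k with
  | zero =>
    intro z hz hzB
    rw [zero_add, pow_one] at hzB
    have hsub : bigDiv B z ⊆ {u : G | IsUnit u} := by
      rintro u ⟨hu, hp⟩
      by_contra hun
      have hu0 : u ≠ 0 := fun h => hz (by rw [h] at hu; exact zero_dvd_iff.1 hu)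
      obtain ⟨p, hpirr, hpu⟩ := WfDvdMonoid.exists_irreducible_factor hun hu0
      have hpp : Prime p := hpirr.prime
      have h1 := hp p hpp hpu
      have h2 : nm p ≤ nm z := Nat.le_of_dvd (nm_pos hz) (nm_dvd (hpu.trans hu))
      have h3 : (nm p : ℝ) ≤ nm z := by exact_mod_cast h2
      linarith
    have hfin : {u : G | IsUnit u}.Finite := by
      refine (finite_ball 1).subset ?_
      intro u hu
      show (nm u : ℝ) ≤ 1
      have : nm u = 1 := nm_eq_one_iff.2 hu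
      rw [this]
      norm_num
    calc (bigDiv B z).ncard ≤ Set.ncard {u : G | IsUnit u} := Set.ncard_le_ncard hsub hfin
      _ ≤ 4 := ncard_units
      _ = 4 * 2 ^ 0 := by norm_num
  | succ k ih =>
    intro z hz hzB
    by_cases hex : ∃ p : G, Prime p ∧ p ∣ z ∧ B ≤ (nm p : ℝ)
    · obtain ⟨p, hp, ⟨w, rfl⟩, hpB⟩ := hex
      have hw : w ≠ 0 := right_ne_zero_of_mul hz
      have hp0 : p ≠ 0 := left_ne_zero_of_mul hz
      have hwB : (nm w : ℝ) < B ^ (k + 1) := by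
        rw [nm_mul, Nat.cast_mul] at hzB
        have h1 : B * (nm w : ℝ) ≤ nm p * nm w := mul_le_mul_of_nonneg_right hpB (by positivity)
        have h2 : B * (nm w : ℝ) < B * B ^ (k + 1) := by
          calc B * (nm w : ℝ) ≤ nm p * nm w := h1
            _ < B ^ (k + 1 + 1) := hzB
            _ = B * B ^ (k + 1) := by ring
        exact lt_of_mul_lt_mul_left h2 (by linarith)
      have hsub : bigDiv B (p * w) ⊆ bigDiv B w ∪ (fun u => p * u) '' bigDiv B w := by
        rintro u ⟨hu, hq⟩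
        by_cases hpu : p ∣ u
        · obtain ⟨v, rfl⟩ := hpu
          right
          refine ⟨v, ⟨(mul_dvd_mul_iff_left hp0).1 hu, fun q hqp hqv => ?_⟩, rfl⟩
          exact hq q hqp (hqv.mul_left p)
        · left
          refine ⟨?_, hq⟩
          have hcop : IsCoprime u p := (hp.irreducible.coprime_iff_not_dvd.2 hpu).symm
          exact hcop.dvd_of_dvd_mul_left hu
      have hfin := bigDiv_finite B hw
      calc (bigDiv B (p * w)).ncard
          ≤ (bigDiv B w ∪ (fun u => p * u) '' bigDiv B w).ncard :=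
            Set.ncard_le_ncard hsub (hfin.union (hfin.image _))
        _ ≤ (bigDiv B w).ncard + ((fun u => p * u) '' bigDiv B w).ncard := Set.ncard_union_le _ _
        _ ≤ (bigDiv B w).ncard + (bigDiv B w).ncard :=
            Nat.add_le_add_left (Set.ncard_image_le hfin) _
        _ ≤ 4 * 2 ^ k + 4 * 2 ^ k := Nat.add_le_add (ih w hw hwB) (ih w hw hwB)
        _ = 4 * 2 ^ (k + 1) := by ring
    · push Not at hex
      have hsub : bigDiv B z ⊆ {u : G | IsUnit u} := by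
        rintro u ⟨hu, hp⟩
        by_contra hun
        have hu0 : u ≠ 0 := fun h => hz (by rw [h] at hu; exact zero_dvd_iff.1 hu)
        obtain ⟨p, hpirr, hpu⟩ := WfDvdMonoid.exists_irreducible_factor hun hu0
        have hpp : Prime p := hpirr.prime
        have h1 := hp p hpp hpu
        have h2 := hex p hpp (hpu.trans hu)
        linarith
      have hfin : {u : G | IsUnit u}.Finite := by
        refine (finite_ball 1).subset ?_
        intro u hu
        show (nm u : ℝ) ≤ 1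
        have : nm u = 1 := nm_eq_one_iff.2 hu
        rw [this]
        norm_num
      calc (bigDiv B z).ncard ≤ Set.ncard {u : G | IsUnit u} := Set.ncard_le_ncard hsub hfin
        _ ≤ 4 := ncard_units
        _ ≤ 4 * 2 ^ (k + 1) := Nat.le_mul_of_pos_right _ (by positivity)

/-- an element of norm `≤ X` has at most `1 / a` prime factors (with multiplicity) of norm `≥ X^a`, and a
divisor composed of such primes is a sub-product up to one of the four units -/
theorem div_count (a : ℝ) (ha : 0 < a) : ∃ C : ℝ, 0 < C ∧ ∀ (X : ℝ), 2 ≤ X → ∀ z : G, z ≠ 0 →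
    (nm z : ℝ) ≤ X → (Set.ncard {u : G | u ∈ AA a X ∧ u ∣ z} : ℝ) ≤ C := by
  classical
  set k : ℕ := ⌈1 / a⌉₊ with hk
  refine ⟨4 * 2 ^ k, by positivity, fun X hX z hz hzX => ?_⟩
  have hX1 : 1 < X := by linarith
  have hB : 1 < X ^ a := Real.one_lt_rpow hX1 ha
  have hlt : X < (X ^ a) ^ (k + 1) := by
    rw [← Real.rpow_natCast, ← Real.rpow_mul (by linarith)]
    have h1 : 1 / a ≤ k := Nat.le_ceil _
    have h2 : 1 ≤ a * k := by
      rw [div_le_iff₀ ha] at h1
      linarith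
    have h3 : (1 : ℝ) < a * ((k + 1 : ℕ) : ℝ) := by
      push_cast
      nlinarith
    calc X = X ^ (1 : ℝ) := (Real.rpow_one X).symm
      _ < _ := Real.rpow_lt_rpow_of_exponent_lt hX1 h3
  have hcount := ncard_bigDiv hB k z hz (hzX.trans_lt hlt)
  have hsub : {u : G | u ∈ AA a X ∧ u ∣ z} ⊆ bigDiv (X ^ a) z := by
    rintro u ⟨hu, huz⟩
    refine ⟨huz, ?_⟩
    simp only [AA, Finset.mem_filter] at hu
    exact hu.2.2
  have h1 := (Set.ncard_le_ncard hsub (bigDiv_finite _ hz)).trans hcount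
  exact_mod_cast h1

theorem tele_Ico (n M : ℕ) (hn : 1 ≤ n) (h : n ≤ M + 1) :
    ∑ m ∈ Finset.Ico n (M + 1), (1 / (m : ℝ) - 1 / ((m : ℝ) + 1)) =
      1 / (n : ℝ) - 1 / ((M : ℝ) + 1) := by
  induction M with
  | zero =>
    have : n = 1 := by omega
    subst this
    simp
  | succ M ih =>
    rcases Nat.lt_or_ge n (M + 2) with h1 | h1
    · rw [Finset.sum_Ico_succ_top (by omega), ih (by omega)]
      push_cast
      ring
    · have : n = M + 1 + 1 := by omega
      subst this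
      simp

/-- `∑_{u ∈ AA a X} 1 / nm u ≤ ∑_{0 < nm z ≤ X} 1 / nm z ≤ C log X` (dyadic, `card_ball_le`) -/
theorem AA_sum : ∃ C : ℝ, 0 < C ∧ ∀ (a X : ℝ), 2 ≤ X →
    ∑ u ∈ AA a X, 1 / (nm u : ℝ) ≤ C * Real.log X := by
  classical
  refine ⟨36, by norm_num, fun a X hX => ?_⟩
  have hX0 : 0 < X := by linarith
  set X' : ℝ := X ^ (13 / 25 : ℝ) with hX'
  have hX'1 : 1 ≤ X' := Real.one_le_rpow (by linarith) (by norm_num)
  have hX'X : X' ≤ X := by
    calc X' ≤ X ^ (1 : ℝ) := Real.rpow_le_rpow_of_exponent_le (by linarith) (by norm_num)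
      _ = X := Real.rpow_one X
  set M : ℕ := ⌊X'⌋₊ with hM
  have hM1 : 1 ≤ M := by
    rw [hM, Nat.one_le_floor_iff]
    exact hX'1
  have hMX : (M : ℝ) ≤ X' := Nat.floor_le (by linarith)
  have hXM : X' < M + 1 := Nat.lt_floor_add_one X'
  set S : Finset G := (ball X').filter (fun z => z ≠ 0) with hS
  have hsub : AA a X ⊆ S := by
    intro u hu
    simp only [AA, Finset.mem_filter, mem_V] at hu
    rw [hS, Finset.mem_filter, mem_ball]
    exact ⟨hu.1.1, ne_zero_of_odd hu.1.2.1⟩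
  have hSn : ∀ z ∈ S, 1 ≤ nm z ∧ nm z ≤ M := by
    intro z hz
    rw [hS, Finset.mem_filter, mem_ball] at hz
    exact ⟨nm_pos hz.2, Nat.le_floor hz.1⟩
  have hcard : (S.card : ℝ) ≤ 9 * X' := card_ball_le X' (by linarith)
  have e1 : ∑ z ∈ S, 1 / (nm z : ℝ) = ∑ z ∈ S,
      (∑ m ∈ Finset.Ico 1 (M + 1), (if nm z ≤ m then (1 / (m : ℝ) - 1 / ((m : ℝ) + 1)) else 0) +
        1 / ((M : ℝ) + 1)) := by
    refine Finset.sum_congr rfl fun z hz => ?_
    obtain ⟨h1, h2⟩ := hSn z hz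
    have h3 : ∑ m ∈ Finset.Ico 1 (M + 1),
        (if nm z ≤ m then (1 / (m : ℝ) - 1 / ((m : ℝ) + 1)) else 0) =
        ∑ m ∈ Finset.Ico (nm z) (M + 1), (1 / (m : ℝ) - 1 / ((m : ℝ) + 1)) := by
      rw [← Finset.sum_filter]
      apply Finset.sum_congr _ fun _ _ => rfl
      ext m
      simp only [Finset.mem_filter, Finset.mem_Ico]
      omega
    rw [h3, tele_Ico _ _ h1 (by omega)]
    ring
  have e2 : ∑ z ∈ S, ∑ m ∈ Finset.Ico 1 (M + 1),
      (if nm z ≤ m then (1 / (m : ℝ) - 1 / ((m : ℝ) + 1)) else 0) ≤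
      ∑ m ∈ Finset.Ico 1 (M + 1), 9 * (1 / (m : ℝ)) := by
    rw [Finset.sum_comm]
    refine Finset.sum_le_sum fun m hm => ?_
    have hm1 : 1 ≤ m := (Finset.mem_Ico.1 hm).1
    have hmpos : (0 : ℝ) < m := by exact_mod_cast hm1
    rw [← Finset.sum_filter, Finset.sum_const, nsmul_eq_mul]
    have h4 : ((S.filter (fun z => nm z ≤ m)).card : ℝ) ≤ 9 * m := by
      refine le_trans ?_ (card_ball_le (m : ℝ) hmpos.le)
      have : S.filter (fun z => nm z ≤ m) ⊆ (ball (m : ℝ)).filter (fun z => z ≠ 0) := by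
        intro z hz
        rw [Finset.mem_filter, hS, Finset.mem_filter] at hz
        rw [Finset.mem_filter, mem_ball]
        exact ⟨by exact_mod_cast hz.2, hz.1.2⟩
      exact_mod_cast Finset.card_le_card this
    have h5 : 1 / (m : ℝ) - 1 / ((m : ℝ) + 1) = 1 / (m * (m + 1)) := by
      field_simp
      ring
    rw [h5]
    calc ((S.filter (fun z => nm z ≤ m)).card : ℝ) * (1 / (m * (m + 1)))
        ≤ 9 * m * (1 / (m * (m + 1))) := mul_le_mul_of_nonneg_right h4 (by positivity)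
      _ = 9 * (1 / ((m : ℝ) + 1)) := by field_simp
      _ ≤ 9 * (1 / (m : ℝ)) := by
          apply mul_le_mul_of_nonneg_left _ (by norm_num)
          exact one_div_le_one_div_of_le hmpos (by linarith)
  have e3 : ∑ m ∈ Finset.Ico 1 (M + 1), 9 * (1 / (m : ℝ)) ≤ 9 * (1 + Real.log M) := by
    rw [← Finset.mul_sum]
    apply mul_le_mul_of_nonneg_left _ (by norm_num)
    have h6 := harmonic_le_one_add_log M
    rw [harmonic_eq_sum_Icc] at h6
    push_cast at h6
    refine le_trans (le_of_eq ?_) h6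
    apply Finset.sum_congr
    · ext x
      simp only [Finset.mem_Ico, Finset.mem_Icc]
      omega
    · intro x _
      rw [one_div]
  have hlogM : Real.log M ≤ Real.log X :=
    Real.log_le_log (by exact_mod_cast hM1) (hMX.trans hX'X)
  have hlog2 : 0.6931 ≤ Real.log X := by
    have := Real.log_le_log (by norm_num) hX
    linarith [Real.log_two_gt_d9]
  calc ∑ u ∈ AA a X, 1 / (nm u : ℝ) ≤ ∑ z ∈ S, 1 / (nm z : ℝ) :=
        Finset.sum_le_sum_of_subset_of_nonneg hsub fun _ _ _ => by positivity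
    _ ≤ 9 * (1 + Real.log M) + S.card * (1 / ((M : ℝ) + 1)) := by
        rw [e1, Finset.sum_add_distrib, Finset.sum_const, nsmul_eq_mul]
        exact add_le_add (e2.trans e3) le_rfl
    _ ≤ 9 * (1 + Real.log X) + 9 := by
        refine add_le_add (by linarith) ?_
        rw [mul_one_div, div_le_iff₀ (by positivity)]
        linarith
    _ ≤ 36 * Real.log X := by linarith

end Pool.Agent.GaussMR

end

/-! ### from `Lib_MP_f1a94e_ecm.MertB` -/

section

/-!
# Piece M-MERTB: removing the logarithm, and from all primes to PP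
-/

set_option autoImplicit false

namespace Pool.Agent.ECM

open Finset Pool.Agent.GaussMR Pool.Agent.GaussCM Pool.Agent.OmAll

private theorem mertb_CP_floor (Y : ℝ) (hY : 0 ≤ Y) : CP Y = CP (⌊Y⌋₊ : ℝ) := by
  ext w
  rw [CPS.mem_CP, CPS.mem_CP]
  have : (nm w : ℝ) ≤ Y ↔ (nm w : ℝ) ≤ (⌊Y⌋₊ : ℝ) := by
    rw [← Nat.le_floor_iff hY, Nat.cast_le]
  rw [this]

private theorem mertb_tele (g : ℕ → ℝ) (m N : ℕ) (h : m ≤ N) :
    g m = g N + ∑ n ∈ (range N).filter (fun n => m ≤ n), (g n - g (n + 1)) := by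
  induction N, h using Nat.le_induction with
  | base =>
    have : (range m).filter (fun n => m ≤ n) = ∅ := by
      rw [filter_eq_empty_iff]
      intro x hx
      rw [mem_range] at hx
      omega
    rw [this, sum_empty, add_zero]
  | succ N hN ih =>
    have : (range (N + 1)).filter (fun n => m ≤ n) =
        insert N ((range N).filter (fun n => m ≤ n)) := by
      rw [range_add_one, filter_insert, if_pos hN]
    rw [this, sum_insert (by simp), ih]
    ring

/-- Abel summation with `1 / log t` (all `nm p ≥ 5`): `∑_p a_p / log nm p`, `a_p = χ p log nm p / nm p`, partial sums bounded by `C`, `1 / log` decreasing on `[2, ∞)`: the result is at most `2 C / log 5` or so. -/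
theorem abel_cp (χ : G → ℂ) (C : ℝ) (h : ∀ Y : ℝ, 1 ≤ Y → ‖∑ p ∈ CP Y, χ p * (Real.log (nm p) : ℂ) / (nm p : ℂ)‖ ≤ C) :
    ∃ C' : ℝ, ∀ Y : ℝ, 1 ≤ Y → ‖∑ p ∈ CP Y, χ p / (nm p : ℂ)‖ ≤ C' := by
  classical
  have hC0 : 0 ≤ C := (norm_nonneg _).trans (h 1 le_rfl)
  obtain ⟨g, hg⟩ : ∃ g : ℕ → ℝ, g = fun n : ℕ => (Real.log (max (n : ℝ) 5))⁻¹ := ⟨_, rfl⟩
  obtain ⟨a, ha⟩ : ∃ a : G → ℂ, a = fun p => χ p * (Real.log (nm p) : ℂ) / (nm p : ℂ) := ⟨_, rfl⟩
  have hlog5 : 0 < Real.log 5 := Real.log_pos (by norm_num)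
  have hgpos : ∀ n, 0 < g n := by
    intro n
    rw [hg]
    exact inv_pos.2 (hlog5.trans_le (Real.log_le_log (by norm_num) (le_max_right _ _)))
  have hgmono : ∀ n, g (n + 1) ≤ g n := by
    intro n
    rw [hg]
    refine inv_anti₀ (hlog5.trans_le (Real.log_le_log (by norm_num) (le_max_right _ _))) ?_
    refine Real.log_le_log (by positivity) ?_
    refine max_le_max ?_ le_rfl
    push_cast
    linarith
  have hg0 : g 0 = (Real.log 5)⁻¹ := by
    rw [hg]
    simp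
  have hT : ∀ n : ℕ, ‖∑ p ∈ CP (n : ℝ), a p‖ ≤ C := by
    intro n
    rcases Nat.eq_zero_or_pos n with h0 | h0
    · have : CP (n : ℝ) = ∅ := by
        rw [Finset.eq_empty_iff_forall_notMem]
        intro w hw
        have h5 := CP_nm hw
        have h1 := (CPS.mem_CP.1 hw).1
        rw [h0] at h1
        have : (5 : ℝ) ≤ nm w := by exact_mod_cast h5
        norm_num at h1
        rw [h1] at h5
        omega
      rw [this, sum_empty, norm_zero]
      exact hC0
    · rw [ha]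
      exact h n (by exact_mod_cast h0)
  refine ⟨C * (Real.log 5)⁻¹, ?_⟩
  intro Y hY
  rw [mertb_CP_floor Y (by linarith)]
  obtain ⟨N, hN⟩ : ∃ N : ℕ, N = ⌊Y⌋₊ := ⟨_, rfl⟩
  rw [← hN]
  have e1 : ∀ p ∈ CP (N : ℝ), χ p / (nm p : ℂ) = a p * (g (nm p) : ℂ) := by
    intro p hp
    have h5 : (5 : ℝ) ≤ nm p := by exact_mod_cast CP_nm hp
    have hl : Real.log (nm p) ≠ 0 := (Real.log_pos (by linarith)).ne'
    have hl' : ((Real.log (nm p) : ℝ) : ℂ) ≠ 0 := by exact_mod_cast hl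
    have hn : ((nm p : ℕ) : ℂ) ≠ 0 := by
      have : ((nm p : ℕ) : ℝ) ≠ 0 := by linarith
      exact_mod_cast this
    have hgp : g (nm p) = (Real.log (nm p))⁻¹ := by
      rw [hg]
      simp only
      rw [max_eq_left h5]
    rw [hgp, ha, Complex.ofReal_inv]
    simp only
    field_simp
  have e2 : ∀ p ∈ CP (N : ℝ), a p * (g (nm p) : ℂ) = a p * (g N : ℂ) +
      ∑ n ∈ range N, (if nm p ≤ n then a p * ((g n - g (n + 1) : ℝ) : ℂ) else 0) := by
    intro p hp
    have hle : nm p ≤ N := by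
      have := (CPS.mem_CP.1 hp).1
      exact_mod_cast this
    rw [mertb_tele g (nm p) N hle, ← sum_filter, ← mul_sum]
    push_cast
    ring
  have e3 : ∑ p ∈ CP (N : ℝ), χ p / (nm p : ℂ) = (∑ p ∈ CP (N : ℝ), a p) * (g N : ℂ) +
      ∑ n ∈ range N, (∑ p ∈ CP (n : ℝ), a p) * ((g n - g (n + 1) : ℝ) : ℂ) := by
    rw [sum_congr rfl e1, sum_congr rfl e2, sum_add_distrib, ← sum_mul, sum_comm]
    congr 1
    refine sum_congr rfl fun n hn => ?_
    rw [← sum_filter, ← sum_mul]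
    congr 1
    refine sum_congr ?_ fun _ _ => rfl
    ext w
    rw [mem_filter, CPS.mem_CP, CPS.mem_CP]
    rw [mem_range] at hn
    constructor
    · rintro ⟨⟨_, h2⟩, h3⟩
      exact ⟨by exact_mod_cast h3, h2⟩
    · rintro ⟨h1, h2⟩
      have h1' : nm w ≤ n := by exact_mod_cast h1
      exact ⟨⟨by exact_mod_cast (h1'.trans hn.le), h2⟩, h1'⟩
  rw [e3]
  have htel : ∑ n ∈ range N, (g n - g (n + 1)) = g 0 - g N := by
    rw [sum_range_sub']
  calc ‖(∑ p ∈ CP (N : ℝ), a p) * (g N : ℂ) +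
      ∑ n ∈ range N, (∑ p ∈ CP (n : ℝ), a p) * ((g n - g (n + 1) : ℝ) : ℂ)‖
      ≤ C * g N + ∑ n ∈ range N, C * (g n - g (n + 1)) := by
        refine (norm_add_le _ _).trans (add_le_add ?_ ((norm_sum_le _ _).trans (sum_le_sum ?_)))
        · rw [norm_mul, Complex.norm_real, Real.norm_of_nonneg (hgpos N).le]
          exact mul_le_mul_of_nonneg_right (hT N) (hgpos N).le
        · intro n _
          rw [norm_mul, Complex.norm_real, Real.norm_of_nonneg (sub_nonneg.2 (hgmono n))]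
          exact mul_le_mul_of_nonneg_right (hT n) (sub_nonneg.2 (hgmono n))
    _ = C * (Real.log 5)⁻¹ := by
        rw [← mul_sum, htel, hg0]
        ring

private theorem mertb_nm_one {z : G} : nm z = 1 ↔ IsUnit z := Zsqrtd.norm_eq_one_iff

private theorem mertb_prime {g : G} (h : (nm g).Prime) : Prime g := by
  rw [← irreducible_iff_prime]
  refine ⟨fun hu => h.one_lt.ne' (mertb_nm_one.2 hu), fun b c hbc => ?_⟩
  have h1 : nm b * nm c = nm g := by rw [hbc, CPS.nm_mul]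
  rcases (Nat.prime_mul_iff.1 (h1 ▸ h)) with ⟨_, h3⟩ | ⟨_, h3⟩
  · exact Or.inr (mertb_nm_one.1 h3)
  · exact Or.inl (mertb_nm_one.1 h3)

/-- `CP B` consists of the inert primes `q ≡ 3 mod 4` (norm `q²`, `∑ 1/q² ≤ C`) and, for each `w ∈ PP 2 B`, of `w` and `fl w` (both have positive coordinates; a split canonical prime has `0 < re`, `0 < im`, `re ≠ im`). -/
theorem cp_pp : ∃ C : ℝ, ∀ χ : G → ℂ, (∀ z, ‖χ z‖ ≤ 1) → ∀ B : ℝ, 3 ≤ B →
    ‖∑ p ∈ CP B, χ p / (nm p : ℂ) - ∑ w ∈ PP 2 B, (χ w + χ (fl w)) / (nm w : ℂ)‖ ≤ C := by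
  classical
  refine ⟨2, fun χ hχ B hB => ?_⟩
  have himpos : ∀ w : G, (nm w).Prime → 0 ≤ w.im → 0 < w.im := by
    intro w a7 a5
    rcases a5.lt_or_eq with h | h
    · exact h
    · exfalso
      have h4 := nm_eq w
      rw [← h] at h4
      have h5 : nm w = w.re.natAbs * w.re.natAbs := by
        zify
        rw [h4, abs_mul_abs_self]
        ring
      rw [h5] at a7
      exact Nat.not_prime_mul (a := w.re.natAbs) (b := w.re.natAbs) (fun h => by rw [h] at a7; exact Nat.not_prime_one a7) (fun h => by rw [h] at a7; exact Nat.not_prime_one a7) a7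
  have hreim : ∀ w : G, Odd (nm w) → w.re ≠ w.im := by
    intro w a3 h
    have h4 := nm_eq w
    rw [h] at h4
    obtain ⟨k, hk⟩ := a3
    rw [hk] at h4
    push_cast at h4
    have : (2 : ℤ) * k + 1 = 2 * w.im ^ 2 := by linarith
    omega
  -- the three parts
  have hA1 : (CP B).filter (fun w => (nm w).Prime ∧ w.im < w.re) = PP 2 B := by
    ext w
    rw [mem_filter, CPS.mem_CP, mem_PP]
    constructor
    · rintro ⟨⟨a1, a2, a3, a4, a5⟩, a7, a8⟩
      refine ⟨?_, a1, a7, himpos w a7 a5, a8⟩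
      have h2 := a7.two_le
      have h3 : nm w ≠ 2 := by
        intro h
        rw [h] at a3
        revert a3
        decide
      have h4 : 2 < nm w := lt_of_le_of_ne h2 (Ne.symm h3)
      exact_mod_cast h4
    · rintro ⟨b1, b2, b3, b4, b5⟩
      refine ⟨⟨b2, mertb_prime b3, ?_, b4.trans b5, b4.le⟩, b3, b5⟩
      have h2 : nm w ≠ 2 := by
        intro h
        rw [h] at b1
        norm_num at b1
      exact b3.odd_of_ne_two h2
  have hA2 : ∑ w ∈ (CP B).filter (fun w => (nm w).Prime ∧ ¬ w.im < w.re), χ w / (nm w : ℂ) =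
      ∑ w ∈ PP 2 B, χ (fl w) / (nm w : ℂ) := by
    symm
    refine sum_bij' (fun w _ => fl w) (fun w _ => fl w) ?_ ?_ ?_ ?_ ?_
    · intro w hw
      have hw' : w ∈ (CP B).filter (fun w => (nm w).Prime ∧ w.im < w.re) := by rw [hA1]; exact hw
      rw [mem_filter, CPS.mem_CP] at hw'
      obtain ⟨⟨a1, a2, a3, a4, a5⟩, a7, a8⟩ := hw'
      rw [mem_filter, CPS.mem_CP, nm_fl]
      refine ⟨⟨a1, mertb_prime (by rw [nm_fl]; exact a7), a3, himpos w a7 a5, a4.le⟩, a7, ?_⟩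
      exact not_lt.2 a8.le
    · intro w hw
      rw [mem_filter, CPS.mem_CP] at hw
      obtain ⟨⟨a1, a2, a3, a4, a5⟩, a7, a8⟩ := hw
      have : fl w ∈ (CP B).filter (fun w => (nm w).Prime ∧ w.im < w.re) := by
        rw [mem_filter, CPS.mem_CP, nm_fl]
        refine ⟨⟨a1, mertb_prime (by rw [nm_fl]; exact a7), a3, himpos w a7 a5, a4.le⟩, a7, ?_⟩
        exact lt_of_le_of_ne (not_lt.1 a8) (hreim w a3)
      rw [hA1] at this
      exact this
    · intro w _
      exact fl_fl w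
    · intro w _
      exact fl_fl w
    · intro w _
      rw [nm_fl]
  have hA3 : ∑ w ∈ (CP B).filter (fun w => ¬ (nm w).Prime), 1 / (nm w : ℝ) ≤ 2 := by
    set A3 := (CP B).filter (fun w => ¬ (nm w).Prime) with hA3
    have hreal : ∀ w ∈ A3, w.im = 0 ∧ 0 < w.re ∧ (nm w : ℝ) = (w.re.toNat : ℝ) ^ 2 := by
      intro w hw
      simp only [A3, Finset.mem_filter, CPS.mem_CP] at hw
      obtain ⟨⟨a1, a2, a3, a4, a5⟩, a7⟩ := hw
      have him := CPS.real_of_not_prime a2 a4 a5 a7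
      refine ⟨him, a4, ?_⟩
      have h4 := nm_eq w
      rw [him] at h4
      have h5 : ((w.re.toNat : ℕ) : ℤ) = w.re := Int.toNat_of_nonneg a4.le
      have h6 : (nm w : ℤ) = ((w.re.toNat : ℕ) : ℤ) ^ 2 := by rw [h4, h5]; ring
      exact_mod_cast h6
    set N := ∑ w ∈ A3, w.re.toNat with hN
    calc ∑ w ∈ A3, 1 / (nm w : ℝ) = ∑ n ∈ A3.image (fun w : G => w.re.toNat), 1 / (n : ℝ) ^ 2 := by
          rw [Finset.sum_image]
          · refine Finset.sum_congr rfl fun w hw => ?_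
            rw [(hreal w hw).2.2]
          · intro w hw w' hw' h
            obtain ⟨b1, b2, _⟩ := hreal w hw
            obtain ⟨c1, c2, _⟩ := hreal w' hw'
            have h' : w.re.toNat = w'.re.toNat := h
            apply Zsqrtd.ext
            · omega
            · rw [b1, c1]
      _ ≤ ∑ n ∈ Finset.Ioc 0 N, 1 / (n : ℝ) ^ 2 := by
          refine Finset.sum_le_sum_of_subset_of_nonneg ?_ fun w _ _ => by positivity
          intro n hn
          rw [Finset.mem_image] at hn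
          obtain ⟨w, hw, rfl⟩ := hn
          rw [Finset.mem_Ioc]
          obtain ⟨b1, b2, _⟩ := hreal w hw
          refine ⟨by omega, ?_⟩
          rw [hN]
          exact Finset.single_le_sum (f := fun w : G => w.re.toNat) (fun _ _ => Nat.zero_le _) hw
      _ ≤ 2 := by
          have h5 : Finset.Ioc 0 N = Finset.Ioo 0 (N + 1) := by
            ext n; simp only [Finset.mem_Ioc, Finset.mem_Ioo]; omega
          have h6 := sum_Ioo_inv_sq_le (α := ℝ) 0 (N + 1)
          have h7 : ∑ n ∈ Finset.Ioo 0 (N + 1), 1 / (n : ℝ) ^ 2 =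
              ∑ n ∈ Finset.Ioo 0 (N + 1), ((n : ℝ) ^ 2)⁻¹ :=
            Finset.sum_congr rfl fun n _ => one_div _
          rw [h5, h7]
          norm_num at h6 ⊢
          exact h6
  have hsplit : ∑ p ∈ CP B, χ p / (nm p : ℂ) =
      ∑ w ∈ (CP B).filter (fun w => ¬ (nm w).Prime), χ w / (nm w : ℂ) +
      (∑ w ∈ (CP B).filter (fun w => (nm w).Prime ∧ w.im < w.re), χ w / (nm w : ℂ) +
      ∑ w ∈ (CP B).filter (fun w => (nm w).Prime ∧ ¬ w.im < w.re), χ w / (nm w : ℂ)) := by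
    rw [← filter_filter, ← filter_filter, sum_filter_add_sum_filter_not,
      add_comm, sum_filter_add_sum_filter_not]
  have hmain : ∑ p ∈ CP B, χ p / (nm p : ℂ) - ∑ w ∈ PP 2 B, (χ w + χ (fl w)) / (nm w : ℂ) =
      ∑ w ∈ (CP B).filter (fun w => ¬ (nm w).Prime), χ w / (nm w : ℂ) := by
    rw [hsplit, hA2, hA1, ← sum_add_distrib, add_sub_assoc, ← sum_sub_distrib]
    simp only [add_div, sub_self, sum_const_zero, add_zero]
  rw [hmain]
  refine (norm_sum_le _ _).trans ((sum_le_sum fun w _ => ?_).trans hA3)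
  rw [norm_div, Complex.norm_natCast]
  exact div_le_div_of_nonneg_right (hχ w) (by positivity)

end Pool.Agent.ECM

end

/-! ### from `Lib_MP_f1a94e_ecm.AfLip` -/

section

/-!
# Piece M-AFLIP: the normalised sums are bounded and nearly Lipschitz
-/

set_option autoImplicit false

namespace Pool.Agent.ECM

open Finset Pool.Agent.GaussMR Pool.Agent.GaussCM Pool.Agent.OmAll

private theorem aflip_sum_le {F : G → ℂ} (hF : CM F) {X : ℝ} {S : Finset G} (hS : S ⊆ V X) :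
    ‖∑ z ∈ S, F z‖ ≤ (S.card : ℝ) := by
  refine (norm_sum_le _ _).trans ?_
  calc ∑ z ∈ S, ‖F z‖ ≤ ∑ _z ∈ S, (1 : ℝ) :=
        Finset.sum_le_sum fun z hz => hF.bd z (mem_V.1 (hS hz)).2.1
    _ = S.card := by simp

/-- `card_V_le`: `#V X ≤ 9 X`. -/
theorem af_bd : ∃ C : ℝ, 0 < C ∧ ∀ F : G → ℂ, CM F → ∀ s : ℝ, 0 ≤ s → ‖Af F s‖ ≤ C := by
  refine ⟨9, by norm_num, fun F hF s _ => ?_⟩
  unfold Af
  rw [norm_mul, Complex.norm_real, Real.norm_of_nonneg (Real.exp_pos _).le]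
  have h1 := aflip_sum_le hF (Finset.Subset.refl (V (Real.exp s)))
  have h2 := card_V_le (Real.exp s) (Real.exp_pos s).le
  have h3 : Real.exp (-s) * Real.exp s = 1 := by rw [← Real.exp_add]; simp
  calc Real.exp (-s) * ‖∑ z ∈ V (Real.exp s), F z‖ ≤ Real.exp (-s) * (9 * Real.exp s) :=
        mul_le_mul_of_nonneg_left (h1.trans h2) (Real.exp_pos _).le
    _ = 9 * (Real.exp (-s) * Real.exp s) := by ring
    _ = 9 := by rw [h3, mul_one]

private theorem aflip_log {u : ℝ} (hu : 0 ≤ u) : Real.log (Real.exp u + 3) ≤ 6 * Real.exp (u / 4) := by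
  have h1 : (1 : ℝ) ≤ Real.exp u := Real.one_le_exp hu
  have h2 : Real.log (Real.exp u + 3) ≤ Real.log (4 * Real.exp u) :=
    Real.log_le_log (by positivity) (by linarith)
  rw [Real.log_mul (by norm_num) (Real.exp_pos u).ne', Real.log_exp] at h2
  have h3 : Real.log 4 ≤ 2 := by
    rw [show (4 : ℝ) = 2 ^ 2 by norm_num, Real.log_pow]
    have := Real.log_two_lt_d9
    push_cast
    linarith
  have h4 : u / 4 + 1 ≤ Real.exp (u / 4) := Real.add_one_le_exp _
  linarith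

/-- The difference is `(exp (-h) - 1) exp (-s) ∑_(V (exp s)) F + exp (-s-h) ∑_(V (exp (s+h)) \ V (exp s)) F`; first part at most `9 h`, second at most `exp (-s) #(V (exp (s+h)) \ V (exp s))`, and by `V_asymp`
`#V (exp (s+h)) - #V (exp s) ≤ κ exp s (exp h - 1) + 2 C exp ((s+h)/2) log (exp (s+h) + 3) ≤ 2 κ exp s h + C' exp (3 s / 4)`. -/
theorem af_lip : ∃ C : ℝ, 0 < C ∧ ∀ F : G → ℂ, CM F → ∀ s h : ℝ, 0 ≤ s → 0 ≤ h → h ≤ 1 →
    ‖Af F (s + h) - Af F s‖ ≤ C * (h + Real.exp (-(s / 4))) := by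
  classical
  obtain ⟨κ, C, hκ, hC, hV⟩ := V_asymp
  refine ⟨9 + κ + 12 * C, by positivity, fun F hF s h hs hh _ => ?_⟩
  set X : ℝ := Real.exp s with hX
  set Y : ℝ := Real.exp (s + h) with hY
  have hX0 : 0 < X := Real.exp_pos _
  have hY0 : 0 < Y := Real.exp_pos _
  have hXY : X ≤ Y := Real.exp_le_exp.2 (by linarith)
  have hsub : V X ⊆ V Y := by
    intro z hz
    rw [mem_V] at hz ⊢
    exact ⟨hz.1.trans hXY, hz.2⟩
  have hsplit : ∑ z ∈ V Y, F z = ∑ z ∈ V Y \ V X, F z + ∑ z ∈ V X, F z :=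
    (Finset.sum_sdiff hsub).symm
  have heq : Af F (s + h) - Af F s =
      ((Real.exp (-(s + h)) - Real.exp (-s) : ℝ) : ℂ) * ∑ z ∈ V X, F z +
        ((Real.exp (-(s + h)) : ℝ) : ℂ) * ∑ z ∈ V Y \ V X, F z := by
    unfold Af
    rw [← hX, ← hY, hsplit]
    push_cast
    ring
  have hsdiff : ((V Y \ V X).card : ℝ) = (V Y).card - (V X).card := by
    rw [Finset.card_sdiff_of_subset hsub, Nat.cast_sub (Finset.card_le_card hsub)]
  have hcX := hV X hX0.le
  have hcY := hV Y hY0.le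
  rw [abs_le] at hcX hcY
  have hlogX : Real.sqrt X * Real.log (X + 3) ≤ Real.sqrt Y * Real.log (Y + 3) := by
    apply mul_le_mul (Real.sqrt_le_sqrt hXY) (Real.log_le_log (by linarith) (by linarith))
      (Real.log_nonneg (by linarith)) (Real.sqrt_nonneg _)
  have hcard : ((V Y \ V X).card : ℝ) ≤ κ * (Y - X) + 2 * C * (Real.sqrt Y * Real.log (Y + 3)) := by
    rw [hsdiff]
    have h1 := mul_le_mul_of_nonneg_left hlogX hC.le
    have h2 : C * Real.sqrt X * Real.log (X + 3) = C * (Real.sqrt X * Real.log (X + 3)) := by ring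
    have h3 : C * Real.sqrt Y * Real.log (Y + 3) = C * (Real.sqrt Y * Real.log (Y + 3)) := by ring
    rw [h2] at hcX
    rw [h3] at hcY
    linarith [hcX.1, hcY.2]
  have hsq : Real.sqrt Y = Real.exp ((s + h) / 2) := by
    rw [hY, Real.sqrt_eq_rpow, ← Real.exp_mul]
    congr 1
    ring
  have hlogY : Real.log (Y + 3) ≤ 6 * Real.exp ((s + h) / 4) := aflip_log (by linarith)
  have hE : Real.exp (-(s + h)) * (Real.sqrt Y * Real.log (Y + 3)) ≤ 6 * Real.exp (-(s / 4)) := by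
    rw [hsq]
    calc Real.exp (-(s + h)) * (Real.exp ((s + h) / 2) * Real.log (Y + 3)) ≤
        Real.exp (-(s + h)) * (Real.exp ((s + h) / 2) * (6 * Real.exp ((s + h) / 4))) := by
          gcongr
      _ = 6 * (Real.exp (-(s + h)) * Real.exp ((s + h) / 2) * Real.exp ((s + h) / 4)) := by ring
      _ = 6 * Real.exp (-((s + h) / 4)) := by
          rw [← Real.exp_add, ← Real.exp_add]
          congr 2
          ring
      _ ≤ 6 * Real.exp (-(s / 4)) := by
          have : Real.exp (-((s + h) / 4)) ≤ Real.exp (-(s / 4)) := Real.exp_le_exp.2 (by linarith)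
          linarith
  have hexph : 1 - Real.exp (-h) ≤ h := by
    have := Real.add_one_le_exp (-h)
    linarith
  have hm1 : Real.exp (-(s + h)) = Real.exp (-s) * Real.exp (-h) := by
    rw [← Real.exp_add]; congr 1; ring
  have hXi : Real.exp (-s) * X = 1 := by rw [hX, ← Real.exp_add]; simp
  have hYi : Real.exp (-(s + h)) * Y = 1 := by rw [hY, ← Real.exp_add]; simp
  have hXi2 : Real.exp (-(s + h)) * X = Real.exp (-h) := by
    rw [hX, ← Real.exp_add]; congr 1; ring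
  have hn1 : ‖((Real.exp (-(s + h)) - Real.exp (-s) : ℝ) : ℂ) * ∑ z ∈ V X, F z‖ ≤ 9 * h := by
    rw [norm_mul, Complex.norm_real]
    have h1 := (aflip_sum_le hF (Finset.Subset.refl (V X))).trans (card_V_le X hX0.le)
    have h2 : ‖Real.exp (-(s + h)) - Real.exp (-s)‖ = Real.exp (-s) * (1 - Real.exp (-h)) := by
      rw [Real.norm_eq_abs, abs_sub_comm, abs_of_nonneg]
      · rw [hm1]; ring
      · rw [sub_nonneg]
        exact Real.exp_le_exp.2 (by linarith)
    rw [h2]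
    have h3 : 0 ≤ 1 - Real.exp (-h) := by
      have : Real.exp (-h) ≤ 1 := by
        rw [Real.exp_le_one_iff]; linarith
      linarith
    calc Real.exp (-s) * (1 - Real.exp (-h)) * ‖∑ z ∈ V X, F z‖ ≤
        Real.exp (-s) * (1 - Real.exp (-h)) * (9 * X) :=
          mul_le_mul_of_nonneg_left h1 (mul_nonneg (Real.exp_pos _).le h3)
      _ = 9 * (1 - Real.exp (-h)) * (Real.exp (-s) * X) := by ring
      _ = 9 * (1 - Real.exp (-h)) := by rw [hXi, mul_one]
      _ ≤ 9 * h := by linarith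
  have hn2 : ‖((Real.exp (-(s + h)) : ℝ) : ℂ) * ∑ z ∈ V Y \ V X, F z‖ ≤
      κ * h + 12 * C * Real.exp (-(s / 4)) := by
    rw [norm_mul, Complex.norm_real, Real.norm_of_nonneg (Real.exp_pos _).le]
    have h1 := (aflip_sum_le hF (X := Y) (S := V Y \ V X) Finset.sdiff_subset).trans hcard
    calc Real.exp (-(s + h)) * ‖∑ z ∈ V Y \ V X, F z‖ ≤
        Real.exp (-(s + h)) * (κ * (Y - X) + 2 * C * (Real.sqrt Y * Real.log (Y + 3))) :=
          mul_le_mul_of_nonneg_left h1 (Real.exp_pos _).le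
      _ = κ * (Real.exp (-(s + h)) * Y - Real.exp (-(s + h)) * X) +
          2 * C * (Real.exp (-(s + h)) * (Real.sqrt Y * Real.log (Y + 3))) := by ring
      _ = κ * (1 - Real.exp (-h)) +
          2 * C * (Real.exp (-(s + h)) * (Real.sqrt Y * Real.log (Y + 3))) := by rw [hYi, hXi2]
      _ ≤ κ * h + 2 * C * (6 * Real.exp (-(s / 4))) := by
          gcongr
      _ = κ * h + 12 * C * Real.exp (-(s / 4)) := by ring
  rw [heq]
  refine (norm_add_le _ _).trans ((add_le_add hn1 hn2).trans ?_)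
  have he0 : 0 < Real.exp (-(s / 4)) := Real.exp_pos _
  nlinarith [mul_nonneg hC.le hh, mul_pos hκ he0]

end Pool.Agent.ECM

end
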