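import Mathlib
import Pool.Agent.Lib_MP_f1a94e_m.G04
import Pool.Agent.Lib_MP_f1a94e_m.G06
import Pool.Agent.Lib_MP_f1a94e_m.G09
import Pool.Agent.Lib_MP_f1a94e_m.G11
import Pool.Agent.Lib_MP_f1a94e_m.G13
import Pool.Agent.Lib_MP_f1a94e_m.G14
import Pool.Agent.Lib_MP_f1a94e_m.G15
import Pool.Agent.Lib_MP_f1a94e_m.G16

/-!
# MP_f1a94e_nt: merged library part G17

Concatenation of files of the libraries `Lib_MP_f1a94e_*` (each in its own section), only to save build time.
-/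

/-! ### from `Lib_MP_f1a94e_eq.ApxN` -/

section

/-!
# Piece APXN: the weights of the correlations are test functions
-/

set_option autoImplicit false

namespace Pool.Agent.OmEq

open Finset Pool.Agent.GaussMR Pool.Agent.OmAll MeasureTheory Filter

/-- consequences of `WN ≠ 0` -/
theorem apxn_WN_ne {h : ℝ → ℝ} {h1 h2 : ℝ} (hh : HF h h1 h2) {J N n : ℕ} (hJ : 1 ≤ J) (hN : 1 ≤ N)
    (hn : 1 ≤ n) {y t : ℝ} (hne : WN h J N n y t ≠ 0) :
    0 < y ∧ y < ((J : ℝ) + N) ^ 2 * h2 ∧ t < -(2 / ((J : ℝ) + N)) ∧ -(2 * Real.log (n + 1)) < t := by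
  have hJ' : (1 : ℝ) ≤ J := by exact_mod_cast hJ
  have hN' : (1 : ℝ) ≤ N := by exact_mod_cast hN
  have hn' : (1 : ℝ) ≤ n := by exact_mod_cast hn
  unfold WN at hne
  split_ifs at hne with ht
  · obtain ⟨x, hx⟩ : ∃ x : ℝ, x = Real.exp (t / 2) := ⟨_, rfl⟩
    rw [← hx] at hne
    have hx0 : 0 < x := by rw [hx]; exact Real.exp_pos _
    have hx1 : x < 1 := by rw [hx, Real.exp_lt_one_iff]; linarith
    have hne' : h (y * (1 - x) ^ 2 / (n ^ 2 * x)) ^ 2 * rho J N (n / (1 - x)) *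
        rho J N (n * x / (1 - x)) ≠ 0 := by exact_mod_cast hne
    have e1 := left_ne_zero_of_mul (left_ne_zero_of_mul hne')
    have e2 := apxn_rho_ne hN (right_ne_zero_of_mul (left_ne_zero_of_mul hne'))
    have e3 := apxn_rho_ne hN (right_ne_zero_of_mul hne')
    have e4 : h (y * (1 - x) ^ 2 / (n ^ 2 * x)) ≠ 0 := fun h0 => e1 (by rw [h0]; ring)
    have e5 : h1 < y * (1 - x) ^ 2 / (n ^ 2 * x) := by
      by_contra h0
      exact e4 (hh.lo _ (not_lt.1 h0))
    have e6 : y * (1 - x) ^ 2 / (n ^ 2 * x) < h2 := by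
      by_contra h0
      exact e4 (hh.hi _ (not_lt.1 h0))
    have hx2 : 0 < 1 - x := by linarith
    have hnx : 0 < (n : ℝ) ^ 2 * x := by positivity
    have hy : 0 < y := by
      by_contra h0
      have h3 : y * (1 - x) ^ 2 / (n ^ 2 * x) ≤ 0 :=
        div_nonpos_of_nonpos_of_nonneg (mul_nonpos_of_nonpos_of_nonneg (not_lt.1 h0) (by positivity)) hnx.le
      linarith [hh.pos]
    refine ⟨hy, ?_, ?_, ?_⟩
    · rw [div_lt_iff₀ hnx] at e6
      have h3 : (n / (1 - x)) * (n * x / (1 - x)) < (J + N) * (J + N) :=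
        mul_lt_mul'' e2.2 e3.2 (by positivity) (by positivity)
      have h4 : y = y * (1 - x) ^ 2 / (1 - x) ^ 2 := by field_simp
      rw [h4]
      calc y * (1 - x) ^ 2 / (1 - x) ^ 2 < h2 * (n ^ 2 * x) / (1 - x) ^ 2 :=
            div_lt_div_of_pos_right e6 (by positivity)
        _ = h2 * ((n / (1 - x)) * (n * x / (1 - x))) := by
            field_simp
        _ ≤ h2 * ((J + N) * (J + N)) := mul_le_mul_of_nonneg_left h3.le (by linarith [hh.one])
        _ = (J + N) ^ 2 * h2 := by ring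
    · have h3 : (n : ℝ) < (J + N) * (1 - x) := by
        have := e2.2
        rwa [div_lt_iff₀ hx2] at this
      have h4 : 1 < (J + N) * (1 - x) := lt_of_le_of_lt hn' h3
      have h5 : 1 / ((J : ℝ) + N) < 1 - x := by
        rw [div_lt_iff₀ (by positivity)]
        linarith
      have h6 : t / 2 ≤ x - 1 := by
        have := Real.add_one_le_exp (t / 2)
        rw [← hx] at this
        linarith
      have h7 : 2 / ((J : ℝ) + N) = 2 * (1 / ((J : ℝ) + N)) := by ring
      rw [h7]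
      linarith
    · have h3 : (J : ℝ) * (1 - x) < n * x := by
        have := e3.1
        rwa [lt_div_iff₀ hx2] at this
      have h4 : 1 - x < n * x := by
        have : 1 * (1 - x) ≤ J * (1 - x) := mul_le_mul_of_nonneg_right hJ' hx2.le
        linarith
      have h5 : 1 / ((n : ℝ) + 1) < x := by
        rw [div_lt_iff₀ (by positivity)]
        linarith
      have h6 : Real.log (1 / ((n : ℝ) + 1)) < t / 2 := by
        rw [← Real.log_exp (t / 2), ← hx]
        exact Real.log_lt_log (by positivity) h5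
      rw [one_div, Real.log_inv] at h6
      linarith
  · exact absurd rfl hne

/-- PROOF. `rho J N r = 0` unless `J < r < J + N`. If the value is not zero then with `x = exp (t/2)`: `1 - x ∈ (n/(J+N), n/J)` and `n x/(1-x) > J`, so
`x / (1 - x) > J / n`, `x ≥ c > 0`: `t` in a compact interval `[t0, t1]`, `t1 < 0`. `y = a n^2 x/(1-x)^2` with `h1 < a < h2`: `0 < y ≤ h2 (J+N)^2`. Continuity: on the open set `t < 0` the formula is
continuous, and on the open set `t > t1` the function is zero; the two open sets cover the plane (`ContinuousOn`, or `continuous_iff_continuousAt`). -/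
theorem WN_tf (h : ℝ → ℝ) (h1 h2 : ℝ) (hh : HF h h1 h2) (J N n : ℕ) (hJ : 1 ≤ J) (hN : 1 ≤ N) (hn : 1 ≤ n) (b : ℝ)
    (hb : ((J : ℝ) + N) ^ 2 * h2 ≤ b) : TF b (WN h J N n) := by
  have hT : ∀ y t, WN h J N n y t ≠ 0 → 0 < y ∧ y < ((J : ℝ) + N) ^ 2 * h2 ∧
      t < -(2 / ((J : ℝ) + N)) ∧ -(2 * Real.log (n + 1)) < t := fun y t => apxn_WN_ne hh hJ hN hn
  have hJ' : (1 : ℝ) ≤ J := by exact_mod_cast hJ
  have hN' : (1 : ℝ) ≤ N := by exact_mod_cast hN
  have hc : 0 < 2 / ((J : ℝ) + N) := by positivity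
  refine ⟨?_, ?_, ?_, ?_⟩
  · rw [continuous_iff_continuousAt]
    rintro ⟨y, t⟩
    by_cases ht : t < 0
    · have hev : Function.uncurry (WN h J N n) =ᶠ[nhds (y, t)] fun p : ℝ × ℝ =>
          ((h (p.1 * (1 - Real.exp (p.2 / 2)) ^ 2 / (n ^ 2 * Real.exp (p.2 / 2))) ^ 2 *
            rho J N (n / (1 - Real.exp (p.2 / 2))) *
            rho J N (n * Real.exp (p.2 / 2) / (1 - Real.exp (p.2 / 2))) : ℝ) : ℂ) := by
        have h3 : ∀ᶠ p : ℝ × ℝ in nhds (y, t), p.2 < 0 :=
          (continuous_snd.tendsto (y, t)).eventually (gt_mem_nhds ht)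
        filter_upwards [h3] with p hp
        show WN h J N n p.1 p.2 = _
        unfold WN
        rw [if_pos hp]
      rw [continuousAt_congr hev]
      have hne : 1 - Real.exp (t / 2) ≠ 0 := by
        have : Real.exp (t / 2) < 1 := by rw [Real.exp_lt_one_iff]; linarith
        exact (by linarith : 0 < 1 - Real.exp (t / 2)).ne'
      have hne2 : (n : ℝ) ^ 2 * Real.exp (t / 2) ≠ 0 := by
        have : (0 : ℝ) < n := by exact_mod_cast hn
        positivity
      have c1 : ContinuousAt (fun p : ℝ × ℝ => Real.exp (p.2 / 2)) (y, t) := by fun_prop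
      have c2 : ContinuousAt (fun p : ℝ × ℝ => 1 - Real.exp (p.2 / 2)) (y, t) :=
        continuousAt_const.sub c1
      refine Complex.continuous_ofReal.continuousAt.comp ?_
      have d1 : ContinuousAt (fun p : ℝ × ℝ => p.1 * (1 - Real.exp (p.2 / 2)) ^ 2 /
          (n ^ 2 * Real.exp (p.2 / 2))) (y, t) :=
        (continuousAt_fst.mul (c2.pow 2)).div (continuousAt_const.mul c1) hne2
      have d2 : ContinuousAt (fun p : ℝ × ℝ => (n : ℝ) / (1 - Real.exp (p.2 / 2))) (y, t) :=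
        continuousAt_const.div c2 hne
      have d3 : ContinuousAt (fun p : ℝ × ℝ => (n : ℝ) * Real.exp (p.2 / 2) /
          (1 - Real.exp (p.2 / 2))) (y, t) :=
        (continuousAt_const.mul c1).div c2 hne
      exact ((ContinuousAt.comp (g := h) hh.cont.continuousAt d1).pow 2 |>.mul
        (ContinuousAt.comp (g := rho J N) (apxn_rho_cont J N).continuousAt d2)).mul
        (ContinuousAt.comp (g := rho J N) (apxn_rho_cont J N).continuousAt d3)
    · have hev : Function.uncurry (WN h J N n) =ᶠ[nhds (y, t)] fun _ => (0 : ℂ) := by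
        have h3 : ∀ᶠ p : ℝ × ℝ in nhds (y, t), -(2 / ((J : ℝ) + N)) < p.2 :=
          (continuous_snd.tendsto (y, t)).eventually (lt_mem_nhds (by
            show -(2 / ((J : ℝ) + N)) < t
            linarith))
        filter_upwards [h3] with p hp
        show WN h J N n p.1 p.2 = 0
        by_contra h4
        linarith [(hT _ _ h4).2.2.1]
      rw [continuousAt_congr hev]
      exact continuousAt_const
  · refine HasCompactSupport.of_support_subset_isCompact
      ((isCompact_Icc (a := (0 : ℝ)) (b := b)).prod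
        (isCompact_Icc (a := -(2 * Real.log (n + 1))) (b := 0))) ?_
    rintro ⟨y, t⟩ h3
    have h4 := hT y t h3
    refine Set.mem_prod.2 ⟨⟨h4.1.le, ?_⟩, ⟨h4.2.2.2.le, ?_⟩⟩
    · exact (h4.2.1.trans_le hb).le
    · show t ≤ 0
      linarith [h4.2.2.1]
  · intro y t hy
    by_contra h4
    linarith [(hT _ _ h4).1]
  · intro y t hy
    by_contra h4
    linarith [(hT _ _ h4).2.1]


/-- `aN / X` as a function of `(y, t, δ)` -/
noncomputable def apxn_a (n : ℕ) (p : ℝ × ℝ × ℝ) : ℝ :=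
  (√(p.1 ^ 2 + p.2.2 ^ 2) * (Real.exp (-(p.2.1 / 2)) + Real.exp (p.2.1 / 2)) - 2 * p.1) / (n : ℝ) ^ 2

/-- the weight `wN` as a continuous function of `(y, t, δ)` -/
noncomputable def apxn_K (h : ℝ → ℝ) (J N n : ℕ) (h1 : ℝ) (p : ℝ × ℝ × ℝ) : ℝ :=
  h (apxn_a n p) ^ 2 *
    rho J N ((√(p.1 ^ 2 + p.2.2 ^ 2) * Real.exp (-(p.2.1 / 2)) - p.1) / (n * max (apxn_a n p) h1)) *
    rho J N ((p.1 - √(p.1 ^ 2 + p.2.2 ^ 2) * Real.exp (p.2.1 / 2)) / (n * max (apxn_a n p) h1))

theorem apxn_a_cont (n : ℕ) : Continuous (apxn_a n) := by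
  unfold apxn_a
  fun_prop

theorem apxn_K_cont {h : ℝ → ℝ} {h1 h2 : ℝ} (hh : HF h h1 h2) (J N n : ℕ) (hn : 1 ≤ n) :
    Continuous (apxn_K h J N n h1) := by
  have hn' : (0 : ℝ) < n := by exact_mod_cast hn
  have c0 := apxn_a_cont n
  have c1 : Continuous fun p : ℝ × ℝ × ℝ => (n : ℝ) * max (apxn_a n p) h1 :=
    continuous_const.mul (c0.max continuous_const)
  have hne : ∀ p : ℝ × ℝ × ℝ, (n : ℝ) * max (apxn_a n p) h1 ≠ 0 := fun p =>
    (mul_pos hn' (lt_of_lt_of_le hh.pos (le_max_right _ _))).ne'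
  have d1 : Continuous fun p : ℝ × ℝ × ℝ =>
      (√(p.1 ^ 2 + p.2.2 ^ 2) * Real.exp (-(p.2.1 / 2)) - p.1) / (n * max (apxn_a n p) h1) :=
    Continuous.div (by fun_prop) c1 hne
  have d2 : Continuous fun p : ℝ × ℝ × ℝ =>
      (p.1 - √(p.1 ^ 2 + p.2.2 ^ 2) * Real.exp (p.2.1 / 2)) / (n * max (apxn_a n p) h1) :=
    Continuous.div (by fun_prop) c1 hne
  exact (((hh.cont.comp c0).pow 2).mul ((apxn_rho_cont J N).comp d1)).mul
    ((apxn_rho_cont J N).comp d2)

/-- `K (y, t, 0) = WN y t` for `0 < y` -/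
theorem apxn_K_zero {h : ℝ → ℝ} {h1 h2 : ℝ} (hh : HF h h1 h2) {J N n : ℕ} (hJ : 1 ≤ J) (hN : 1 ≤ N)
    (hn : 1 ≤ n) {y t : ℝ} (hy : 0 < y) :
    ((apxn_K h J N n h1 (y, t, 0) : ℝ) : ℂ) = WN h J N n y t := by
  have hn' : (0 : ℝ) < n := by exact_mod_cast hn
  have hs : √(y ^ 2 + (0 : ℝ) ^ 2) = y := by
    rw [zero_pow two_ne_zero, add_zero, Real.sqrt_sq hy.le]
  obtain ⟨x, hx⟩ : ∃ x : ℝ, x = Real.exp (t / 2) := ⟨_, rfl⟩
  have hx0 : 0 < x := by rw [hx]; exact Real.exp_pos _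
  have hxn : Real.exp (-(t / 2)) = x⁻¹ := by rw [hx, Real.exp_neg]
  have ha : apxn_a n (y, t, 0) = y * (1 - x) ^ 2 / (n ^ 2 * x) := by
    unfold apxn_a
    simp only
    rw [hs, hxn, ← hx]
    field_simp
    ring
  unfold WN
  split_ifs with ht
  · congr 1
    unfold apxn_K
    simp only
    rw [hs, hxn, ← hx, ha]
    by_cases h3 : y * (1 - x) ^ 2 / (n ^ 2 * x) ≤ h1
    · rw [hh.lo _ h3]
      ring
    · have h4 : max (y * (1 - x) ^ 2 / (n ^ 2 * x)) h1 = y * (1 - x) ^ 2 / (n ^ 2 * x) :=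
        max_eq_left (not_le.1 h3).le
      rw [h4]
      have hx1 : x < 1 := by rw [hx, Real.exp_lt_one_iff]; linarith
      have hx2 : 1 - x ≠ 0 := by linarith
      have e1 : (y * x⁻¹ - y) / (n * (y * (1 - x) ^ 2 / (n ^ 2 * x))) = n / (1 - x) := by
        field_simp
      have e2 : (y - y * x) / (n * (y * (1 - x) ^ 2 / (n ^ 2 * x))) = n * x / (1 - x) := by
        field_simp
      rw [e1, e2]
  · have hx1 : 1 ≤ x := by
      rw [hx]
      exact Real.one_le_exp (by linarith)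
    have h3 : rho J N ((y - y * x) / (n * max (apxn_a n (y, t, 0)) h1)) = 0 := by
      by_contra h4
      have h5 := (apxn_rho_ne hN h4).1
      have h6 : (y - y * x) / (n * max (apxn_a n (y, t, 0)) h1) ≤ 0 := by
        refine div_nonpos_of_nonpos_of_nonneg ?_ ?_
        · nlinarith
        · exact (mul_pos hn' (lt_of_lt_of_le hh.pos (le_max_right _ _))).le
      have h7 : (1 : ℝ) ≤ J := by exact_mod_cast hJ
      linarith
    unfold apxn_K
    simp only
    rw [hs, ← hx, h3]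
    simp

/-- the weight is a value of `K` -/
theorem apxn_wN {h : ℝ → ℝ} {h1 h2 : ℝ} (hh : HF h h1 h2) {J N n : ℕ} (hn : 1 ≤ n) {X : ℝ} (hX : 0 < X)
    {e : G × G} (he : En n e) :
    wN h J N n X e = apxn_K h J N n h1 (mE e / X, tE e, n / X) := by
  have hn' : (0 : ℝ) < n := by exact_mod_cast hn
  have hne := clu_nm_ne (by omega : 0 < n) he
  have hP : (0 : ℝ) < nm e.1 := by exact_mod_cast Nat.pos_of_ne_zero hne.1
  have hQ : (0 : ℝ) < nm e.2 := by exact_mod_cast Nat.pos_of_ne_zero hne.2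
  have hPQ : (nm e.1 : ℝ) * nm e.2 = mE e ^ 2 + (n : ℝ) ^ 2 := by
    have h4 := dot_sq_add_det_sq e.1 e.2
    rw [he.1] at h4
    unfold mE
    exact_mod_cast h4.symm
  have hs : √((mE e / X) ^ 2 + ((n : ℝ) / X) ^ 2) = √(nm e.1) * √(nm e.2) / X := by
    rw [← Real.sqrt_mul hP.le, hPQ]
    have h5 : (mE e / X) ^ 2 + ((n : ℝ) / X) ^ 2 = (mE e ^ 2 + (n : ℝ) ^ 2) / X ^ 2 := by ring
    rw [h5, Real.sqrt_div' _ (by positivity), Real.sqrt_sq hX.le]
  have ht : Real.exp (tE e / 2) = √(nm e.2) / √(nm e.1) := by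
    unfold tE
    rw [sub_div, Real.exp_sub, ← Real.log_sqrt hQ.le, ← Real.log_sqrt hP.le,
      Real.exp_log (Real.sqrt_pos.2 hQ), Real.exp_log (Real.sqrt_pos.2 hP)]
  have ht' : Real.exp (-(tE e / 2)) = √(nm e.1) / √(nm e.2) := by
    rw [Real.exp_neg, ht, inv_div]
  have q1 := Real.sqrt_pos.2 hP
  have q2 := Real.sqrt_pos.2 hQ
  have s1 := Real.mul_self_sqrt hP.le
  have s2 := Real.mul_self_sqrt hQ.le
  have f1 : √(nm e.1) * √(nm e.2) / X * (√(nm e.1) / √(nm e.2)) = nm e.1 / X := by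
    calc √(nm e.1) * √(nm e.2) / X * (√(nm e.1) / √(nm e.2)) = √(nm e.1) * √(nm e.1) / X := by
          field_simp
      _ = nm e.1 / X := by rw [s1]
  have f2 : √(nm e.1) * √(nm e.2) / X * (√(nm e.2) / √(nm e.1)) = nm e.2 / X := by
    calc √(nm e.1) * √(nm e.2) / X * (√(nm e.2) / √(nm e.1)) = √(nm e.2) * √(nm e.2) / X := by
          field_simp
      _ = nm e.2 / X := by rw [s2]
  have ha : apxn_a n (mE e / X, tE e, n / X) = aN n e / X := by
    unfold apxn_a aN
    simp only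
    rw [mul_add, hs, ht, ht', f1, f2]
    field_simp
  unfold wN apxn_K
  simp only
  rw [ha, hs, ht, ht', f1, f2]
  by_cases h3 : aN n e / X ≤ h1
  · rw [hh.lo _ h3]
    ring
  · rw [max_eq_left (not_le.1 h3).le]
    have hpos : 0 < aN n e / X := hh.pos.trans (not_le.1 h3)
    have hpos' : 0 < aN n e := by
      have := mul_pos hpos hX
      rwa [div_mul_cancel₀ _ hX.ne'] at this
    have e1 : ((nm e.1 : ℝ) / X - mE e / X) / (n * (aN n e / X)) = (nm e.1 - mE e) / (n * aN n e) := by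
      field_simp
    have e2 : (mE e / X - (nm e.2 : ℝ) / X) / (n * (aN n e / X)) = (mE e - nm e.2) / (n * aN n e) := by
      field_simp
    rw [e1, e2]

theorem apxn_t_bound {h : ℝ → ℝ} {h1 h2 : ℝ} (hh : HF h h1 h2) {J N n : ℕ} (hJ : 1 ≤ J) (hN : 1 ≤ N)
    (hn : 1 ≤ n) {X : ℝ} (hX : 0 < X) {e : G × G} (he : En n e) (hne : wN h J N n X e ≠ 0) :
    |tE e| ≤ 2 * Real.log (J + N) := by
  have hn' : (1 : ℝ) ≤ n := by exact_mod_cast hn
  have hJ' : (1 : ℝ) ≤ J := by exact_mod_cast hJ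
  have hN' : (1 : ℝ) ≤ N := by exact_mod_cast hN
  have hnz := clu_nm_ne (by omega : 0 < n) he
  have hP : (0 : ℝ) < nm e.1 := by exact_mod_cast Nat.pos_of_ne_zero hnz.1
  have hQ : (0 : ℝ) < nm e.2 := by exact_mod_cast Nat.pos_of_ne_zero hnz.2
  have hPQ : (nm e.1 : ℝ) * nm e.2 = mE e ^ 2 + (n : ℝ) ^ 2 := by
    have h4 := dot_sq_add_det_sq e.1 e.2
    rw [he.1] at h4
    unfold mE
    exact_mod_cast h4.symm
  have hA : (n : ℝ) ^ 2 * aN n e = nm e.1 + nm e.2 - 2 * mE e := by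
    unfold aN
    field_simp
  unfold wN at hne
  have e1 := left_ne_zero_of_mul (left_ne_zero_of_mul hne)
  have e2 := apxn_rho_ne hN (right_ne_zero_of_mul (left_ne_zero_of_mul hne))
  have e3 := apxn_rho_ne hN (right_ne_zero_of_mul hne)
  have e4 : h (aN n e / X) ≠ 0 := fun h0 => e1 (by rw [h0]; ring)
  have e5 : h1 < aN n e / X := by
    by_contra h0
    exact e4 (hh.lo _ (not_lt.1 h0))
  have hpos : 0 < aN n e := by
    have := mul_pos (hh.pos.trans e5) hX
    rwa [div_mul_cancel₀ _ hX.ne'] at this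
  obtain ⟨A, hAe⟩ : ∃ A, A = aN n e := ⟨_, rfl⟩
  obtain ⟨P, hPe⟩ : ∃ P : ℝ, P = nm e.1 := ⟨_, rfl⟩
  obtain ⟨Q, hQe⟩ : ∃ Q : ℝ, Q = nm e.2 := ⟨_, rfl⟩
  obtain ⟨m, hme⟩ : ∃ m, m = mE e := ⟨_, rfl⟩
  obtain ⟨M, hM⟩ : ∃ M : ℝ, M = J + N := ⟨_, rfl⟩
  rw [← hAe] at hA hpos
  rw [← hPe, ← hQe, ← hme] at hA hPQ
  rw [← hPe] at hP
  rw [← hQe] at hQ
  rw [← hAe, ← hPe, ← hme, ← hM] at e2
  rw [← hAe, ← hQe, ← hme, ← hM] at e3
  have hnA : 0 < n * A := by positivity
  rw [lt_div_iff₀ hnA, div_lt_iff₀ hnA] at e2 e3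
  have hM1 : 1 ≤ M := by rw [hM]; linarith
  have g1 : 0 < P - m := lt_trans (by positivity) e2.1
  have g2 : 0 < m - Q := lt_trans (by positivity) e3.1
  have g3 : n * A ≤ m - Q := by
    have : 1 * (n * A) ≤ J * (n * A) := mul_le_mul_of_nonneg_right hJ' hnA.le
    linarith [e3.1]
  have k1 : (n : ℝ) ^ 2 * A * P = n ^ 2 + (P - m) ^ 2 := by
    rw [hA]
    linear_combination hPQ
  have k2 : (n : ℝ) ^ 2 * A * Q = n ^ 2 + (m - Q) ^ 2 := by
    rw [hA]
    linear_combination hPQ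
  have k3 : (P - m) ^ 2 ≤ (M * (n * A)) ^ 2 := pow_le_pow_left₀ g1.le e2.2.le 2
  have k4 : (n * A) ^ 2 ≤ (m - Q) ^ 2 := pow_le_pow_left₀ hnA.le g3 2
  have hM2 : 1 ≤ M ^ 2 := one_le_pow₀ hM1
  have k5 : P ≤ M ^ 2 * Q := by
    have h5 : (n : ℝ) ^ 2 * A * P ≤ (n : ℝ) ^ 2 * A * (M ^ 2 * Q) := by
      have h6 : (n : ℝ) ^ 2 * A * (M ^ 2 * Q) = M ^ 2 * ((n : ℝ) ^ 2 * A * Q) := by ring
      rw [h6, k1, k2]
      have h7 : (n : ℝ) ^ 2 ≤ M ^ 2 * n ^ 2 := le_mul_of_one_le_left (by positivity) hM2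
      have h8 : M ^ 2 * (n * A) ^ 2 ≤ M ^ 2 * (m - Q) ^ 2 := mul_le_mul_of_nonneg_left k4 (by positivity)
      nlinarith
    exact le_of_mul_le_mul_left h5 (by positivity)
  unfold tE
  rw [← hPe, ← hQe, ← hM]
  have l1 : Real.log P ≤ 2 * Real.log M + Real.log Q := by
    have := Real.log_le_log hP k5
    rwa [Real.log_mul (by positivity) hQ.ne', Real.log_pow, Nat.cast_ofNat] at this
  have l2 : Real.log Q ≤ Real.log P := Real.log_le_log hQ (by linarith)
  rw [abs_le]
  have l3 : 0 ≤ Real.log M := Real.log_nonneg hM1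
  constructor <;> linarith

open Classical in
/-- PROOF. Put `δ = n / X`, `y = mE e / X`, `t = tE e`, `s = sqrt (y^2 + δ^2)`; for `e ∈ En n`: `nm e.1 nm e.2 = dot^2 + n^2` (`dot_sq_add_det_sq`), so `nm e.1 / X = s exp (-t/2)`, `nm e.2 / X = s exp (t/2)` and
`wN h J N n X e = K y t δ` for `a y t δ = (s (exp (-t/2) + exp (t/2)) - 2 y) / n^2`,
`K y t δ = h (a)^2 rho ((s exp (-t/2) - y) / (n max a h1)) rho ((y - s exp (t/2)) / (n max a h1))` (`h (a) = 0` if `a ≤ h1`). `K` is continuous on `ℝ^3`, and `K y t 0 = WN y t` for `0 < y`, `t < 0`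
(`a y t 0 = y (1-x)^2/(n^2 x)`), `K y t 0 = 0 = WN` for `0 < y`, `t ≥ 0` (`y - y exp (t/2) ≤ 0`, `rho = 0` as `J ≥ 1`). If `wN ≠ 0` then `c1 = (nm V - dot)/(n aN)`,
`c2 = (dot - nm V')/(n aN)` lie in `[J, J+N]`, `c1 = c2 + n`, `aN ≥ h1 X > 0`, `(n^2 aN nm V) ...`: with `A = aN`, `nm V A = c1^2 A^2 + 1`, `nm V' A = c2^2 A^2 + 1` (identities from `nm V nm V' = dot^2 + n^2`), so
`1 ≤ nm V / nm V' ≤ (c1/c2)^2 ≤ (1 + N + n)^2` and `|t| ≤ B`; the support of `WN` is compact too; enlarge `B`. On the compact set `0 ≤ y ≤ b`, `|t| ≤ B`, `0 ≤ δ ≤ 1`, `K` is uniformly continuous: for every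
`ε` and large `X` (`n/X` small), `|wN e - WN (mE e/X) (tE e)| ≤ ε` if `|tE e| ≤ B`, and both are zero otherwise. The number of `e ∈ EN n (b X)` with `|tE e| ≤ B` is at most `C b X` (`cnt`). -/
theorem apxN (f : ℕ → ℂ) (hf : ∀ n, ‖f n‖ ≤ 1) (h : ℝ → ℝ) (h1 h2 : ℝ) (hh : HF h h1 h2) (J N n : ℕ) (hJ : 1 ≤ J)
    (hN : 1 ≤ N) (hn : 1 ≤ n) (b : ℝ) (hb : 0 < b) :
    Tendsto (fun X : ℝ => (Gm f h J N n (b * X) X - ∑ e ∈ (EN n (b * X)).filter (fun e => cg n e.2 e.1),
      f (nm e.1) * (starRingEnd ℂ) (f (nm e.2)) * WN h J N n (mE e / X) (tE e)) / X) atTop (nhds 0) := by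
  have hn' : (1 : ℝ) ≤ n := by exact_mod_cast hn
  have hJ' : (1 : ℝ) ≤ J := by exact_mod_cast hJ
  have hN' : (1 : ℝ) ≤ N := by exact_mod_cast hN
  obtain ⟨B, hB⟩ : ∃ B : ℝ, B = 2 * Real.log (J + N) + 2 * Real.log (n + 1) := ⟨_, rfl⟩
  have hl1 : 0 ≤ Real.log ((J : ℝ) + N) := Real.log_nonneg (by linarith)
  have hl2 : 0 ≤ Real.log ((n : ℝ) + 1) := Real.log_nonneg (by linarith)
  obtain ⟨C, hC, hcnt⟩ := cnt B
  have hK := apxn_K_cont hh J N n hn
  have hcomp : IsCompact (Set.Icc (0 : ℝ) b ×ˢ (Set.Icc (-B) B ×ˢ Set.Icc (0 : ℝ) 1)) :=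
    isCompact_Icc.prod (isCompact_Icc.prod isCompact_Icc)
  have huc := hcomp.uniformContinuousOn_of_continuous hK.continuousOn
  rw [Metric.tendsto_atTop]
  intro ε hε
  have hε' : 0 < ε / (2 * (C * b)) := by positivity
  obtain ⟨η, hη, hK2⟩ := Metric.uniformContinuousOn_iff.1 huc (ε / (2 * (C * b))) hε'
  refine ⟨max 1 (max (n / b) (max n (2 * n / η))), fun X hX => ?_⟩
  have x1 : 1 ≤ X := (le_max_left _ _).trans hX
  have x2 : n / b ≤ X := ((le_max_left _ _).trans (le_max_right _ _)).trans hX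
  have x3 : (n : ℝ) ≤ X := ((le_max_left _ _).trans ((le_max_right _ _).trans (le_max_right _ _))).trans hX
  have x4 : 2 * n / η ≤ X :=
    ((le_max_right _ _).trans ((le_max_right _ _).trans (le_max_right _ _))).trans hX
  have hX0 : 0 < X := by linarith
  have y1 : (n : ℝ) ≤ b * X := by
    rw [div_le_iff₀ hb] at x2
    linarith
  have y2 : (n : ℝ) / X ≤ 1 := by
    rw [div_le_one hX0]
    exact x3
  have y3 : (n : ℝ) / X < η := by
    rw [div_le_iff₀ hη] at x4
    rw [div_lt_iff₀ hX0]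
    nlinarith
  have hterm : ∀ e ∈ EN n (b * X), ‖((wN h J N n X e : ℝ) : ℂ) - WN h J N n (mE e / X) (tE e)‖ ≤
      if |tE e| ≤ B then ε / (2 * (C * b)) else 0 := by
    intro e he
    rw [mem_EN (by omega)] at he
    have hm := mE_pos he.1
    have hy : 0 < mE e / X := div_pos hm hX0
    have hyb : mE e / X ≤ b := by
      rw [div_le_iff₀ hX0]
      exact he.2
    split_ifs with ht
    · rw [apxn_wN hh hn hX0 he.1, ← apxn_K_zero hh hJ hN hn hy, ← Complex.ofReal_sub,
        Complex.norm_real, ← dist_eq_norm]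
      refine (hK2 _ ?_ _ ?_ ?_).le
      · rw [abs_le] at ht
        exact ⟨⟨hy.le, hyb⟩, ⟨ht, ⟨by positivity, y2⟩⟩⟩
      · rw [abs_le] at ht
        exact ⟨⟨hy.le, hyb⟩, ⟨ht, ⟨le_refl _, zero_le_one⟩⟩⟩
      · rw [Prod.dist_eq, Prod.dist_eq]
        simp only [dist_self]
        rw [Real.dist_eq, sub_zero, abs_of_nonneg (by positivity : (0 : ℝ) ≤ n / X)]
        exact max_lt hη (max_lt hη y3)
    · have z1 : wN h J N n X e = 0 := by
        by_contra h3
        have := apxn_t_bound hh hJ hN hn hX0 he.1 h3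
        exact ht (by rw [hB]; linarith)
      have z2 : WN h J N n (mE e / X) (tE e) = 0 := by
        by_contra h3
        have h4 := apxn_WN_ne hh hJ hN hn h3
        apply ht
        rw [abs_le, hB]
        have h5 : 0 < 2 / ((J : ℝ) + N) := by positivity
        constructor <;> linarith [h4.2.2.1, h4.2.2.2]
      rw [z1, z2]
      simp
  rw [dist_zero_right, norm_div, Complex.norm_real, Real.norm_eq_abs, abs_of_pos hX0,
    div_lt_iff₀ hX0]
  unfold Gm
  rw [← sum_sub_distrib]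
  have hs : ‖∑ e ∈ (EN n (b * X)).filter (fun e => cg n e.2 e.1),
      (f (nm e.1) * (starRingEnd ℂ) (f (nm e.2)) * ((wN h J N n X e : ℝ) : ℂ) -
        f (nm e.1) * (starRingEnd ℂ) (f (nm e.2)) * WN h J N n (mE e / X) (tE e))‖ ≤
      ∑ e ∈ EN n (b * X), if |tE e| ≤ B then ε / (2 * (C * b)) else 0 := by
    refine (norm_sum_le _ _).trans ?_
    refine (sum_le_sum (g := fun e => if |tE e| ≤ B then ε / (2 * (C * b)) else 0) fun e he => ?_).trans ?_
    · rw [← mul_sub, norm_mul, norm_mul, RCLike.norm_conj]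
      have h3 := hterm e (mem_filter.1 he).1
      have h4 : ‖f (nm e.1)‖ * ‖f (nm e.2)‖ ≤ 1 := by
        have := mul_le_mul (hf (nm e.1)) (hf (nm e.2)) (norm_nonneg _) zero_le_one
        linarith
      calc ‖f (nm e.1)‖ * ‖f (nm e.2)‖ * _ ≤ 1 * _ := mul_le_mul_of_nonneg_right h4 (norm_nonneg _)
        _ ≤ _ := by rw [one_mul]; exact h3
    · refine sum_le_sum_of_subset_of_nonneg (filter_subset _ _) fun e _ _ => ?_
      split_ifs
      · exact hε'.le
      · exact le_refl _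
  refine lt_of_le_of_lt hs ?_
  rw [← sum_filter, sum_const, nsmul_eq_mul]
  have h5 := hcnt n (by omega) (b * X) y1
  calc (((EN n (b * X)).filter (fun e => |tE e| ≤ B)).card : ℝ) * (ε / (2 * (C * b)))
      ≤ C * (b * X) * (ε / (2 * (C * b))) := mul_le_mul_of_nonneg_right h5 hε'.le
    _ = ε * X / 2 := by field_simp
    _ < ε * X := by
      have : 0 < ε * X := by positivity
      linarith

end Pool.Agent.OmEq

end

/-! ### from `Lib_MP_f1a94e_eq.ApxO` -/

section

/-!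
# Piece APXO: the weights of the unbalanced edges
-/

set_option autoImplicit false

namespace Pool.Agent.OmEq

open Finset Pool.Agent.GaussMR Pool.Agent.OmAll MeasureTheory Filter

/-- the limit of the weight of `SX` -/
noncomputable def WO (h : ℝ → ℝ) (J N : ℕ) (y t : ℝ) : ℂ :=
  ((h (y * Real.exp (-t / 2)) * rho J N (Real.exp (t / 2)) : ℝ) : ℂ)

private theorem apxo_WO_ne {h : ℝ → ℝ} {h1 h2 : ℝ} (hh : HF h h1 h2) {J N : ℕ} (hJ : 1 ≤ J) (hN : 1 ≤ N)
    {y t : ℝ} (hne : WO h J N y t ≠ 0) :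
    0 < y ∧ y < ((J : ℝ) + N) * h2 ∧ 0 ≤ t ∧ t < 2 * Real.log (J + N) := by
  have hJ' : (1 : ℝ) ≤ J := by exact_mod_cast hJ
  have hN' : (1 : ℝ) ≤ N := by exact_mod_cast hN
  unfold WO at hne
  obtain ⟨x, hx⟩ : ∃ x : ℝ, x = Real.exp (t / 2) := ⟨_, rfl⟩
  have hx0 : 0 < x := by rw [hx]; exact Real.exp_pos _
  have hxn : Real.exp (-t / 2) = x⁻¹ := by rw [hx, ← Real.exp_neg, neg_div]
  rw [← hx, hxn] at hne
  have hne' : h (y * x⁻¹) * rho J N x ≠ 0 := by exact_mod_cast hne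
  have e1 := left_ne_zero_of_mul hne'
  have e2 := apxn_rho_ne hN (right_ne_zero_of_mul hne')
  have e3 : h1 < y * x⁻¹ := by
    by_contra h0
    exact e1 (hh.lo _ (not_lt.1 h0))
  have e4 : y * x⁻¹ < h2 := by
    by_contra h0
    exact e1 (hh.hi _ (not_lt.1 h0))
  have hy : 0 < y := by
    by_contra h0
    have h3 : y * x⁻¹ ≤ 0 := mul_nonpos_of_nonpos_of_nonneg (not_lt.1 h0) (by positivity)
    linarith [hh.pos]
  refine ⟨hy, ?_, ?_, ?_⟩
  · rw [← div_eq_mul_inv, div_lt_iff₀ hx0] at e4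
    have : h2 * x ≤ h2 * (J + N) := mul_le_mul_of_nonneg_left e2.2.le (by linarith [hh.one])
    linarith
  · have h3 : 1 ≤ Real.exp (t / 2) := by
      rw [← hx]
      linarith [e2.1]
    have := Real.one_le_exp_iff.1 h3
    linarith
  · have h3 : t / 2 < Real.log (J + N) := by
      rw [Real.lt_log_iff_exp_lt (by positivity), ← hx]
      exact e2.2
    linarith

/-- PROOF. Continuous; nonzero only if `J < exp (t/2) < J + N` and `h1 < y exp (-t/2) < h2`: compact support, `0 < y ≤ (J + N) h2`. -/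
theorem WO_tf (h : ℝ → ℝ) (h1 h2 : ℝ) (hh : HF h h1 h2) (J N : ℕ) (hJ : 1 ≤ J) (hN : 1 ≤ N) (b : ℝ)
    (hb : ((J : ℝ) + N) * h2 ≤ b) : TF b (WO h J N) := by
  have hT : ∀ y t, WO h J N y t ≠ 0 → 0 < y ∧ y < ((J : ℝ) + N) * h2 ∧ 0 ≤ t ∧
      t < 2 * Real.log (J + N) := fun y t => apxo_WO_ne hh hJ hN
  refine ⟨?_, ?_, ?_, ?_⟩
  · have c1 : Continuous fun p : ℝ × ℝ => h (p.1 * Real.exp (-p.2 / 2)) :=
      hh.cont.comp (by fun_prop)
    have c2 : Continuous fun p : ℝ × ℝ => rho J N (Real.exp (p.2 / 2)) :=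
      (apxn_rho_cont J N).comp (by fun_prop)
    exact Complex.continuous_ofReal.comp (c1.mul c2)
  · refine HasCompactSupport.of_support_subset_isCompact
      ((isCompact_Icc (a := (0 : ℝ)) (b := b)).prod
        (isCompact_Icc (a := (0 : ℝ)) (b := 2 * Real.log (J + N)))) ?_
    rintro ⟨y, t⟩ h3
    have h4 := hT y t h3
    exact Set.mem_prod.2 ⟨⟨h4.1.le, (h4.2.1.trans_le hb).le⟩, ⟨h4.2.2.1, h4.2.2.2.le⟩⟩
  · intro y t hy
    by_contra h4
    linarith [(hT _ _ h4).1]
  · intro y t hy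
    by_contra h4
    linarith [(hT _ _ h4).2.1]

/-- the weight as a continuous function of `(y, t, δ)` -/
private noncomputable def apxo_K (h : ℝ → ℝ) (J N : ℕ) (h1 : ℝ) (p : ℝ × ℝ × ℝ) : ℝ :=
  h (√(p.1 ^ 2 + p.2.2 ^ 2) * Real.exp (-p.2.1 / 2)) *
    rho J N (p.1 / max (√(p.1 ^ 2 + p.2.2 ^ 2) * Real.exp (-p.2.1 / 2)) h1)

private theorem apxo_K_cont {h : ℝ → ℝ} {h1 h2 : ℝ} (hh : HF h h1 h2) (J N : ℕ) :
    Continuous (apxo_K h J N h1) := by
  have c0 : Continuous fun p : ℝ × ℝ × ℝ => √(p.1 ^ 2 + p.2.2 ^ 2) * Real.exp (-p.2.1 / 2) := by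
    fun_prop
  have c1 : Continuous fun p : ℝ × ℝ × ℝ =>
      max (√(p.1 ^ 2 + p.2.2 ^ 2) * Real.exp (-p.2.1 / 2)) h1 := c0.max continuous_const
  have hne : ∀ p : ℝ × ℝ × ℝ, max (√(p.1 ^ 2 + p.2.2 ^ 2) * Real.exp (-p.2.1 / 2)) h1 ≠ 0 := fun p =>
    (lt_of_lt_of_le hh.pos (le_max_right _ _)).ne'
  have d1 : Continuous fun p : ℝ × ℝ × ℝ =>
      p.1 / max (√(p.1 ^ 2 + p.2.2 ^ 2) * Real.exp (-p.2.1 / 2)) h1 :=
    Continuous.div (by fun_prop) c1 hne
  exact (hh.cont.comp c0).mul ((apxn_rho_cont J N).comp d1)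

private theorem apxo_K_zero {h : ℝ → ℝ} {h1 h2 : ℝ} (hh : HF h h1 h2) {J N : ℕ}
    {y t : ℝ} (hy : 0 < y) : ((apxo_K h J N h1 (y, t, 0) : ℝ) : ℂ) = WO h J N y t := by
  have hs : √(y ^ 2 + (0 : ℝ) ^ 2) = y := by
    rw [zero_pow two_ne_zero, add_zero, Real.sqrt_sq hy.le]
  obtain ⟨x, hx⟩ : ∃ x : ℝ, x = Real.exp (t / 2) := ⟨_, rfl⟩
  have hx0 : 0 < x := by rw [hx]; exact Real.exp_pos _
  have hxn : Real.exp (-t / 2) = x⁻¹ := by rw [hx, ← Real.exp_neg, neg_div]
  unfold WO apxo_K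
  simp only
  rw [hs, hxn, ← hx]
  congr 1
  by_cases h3 : y * x⁻¹ ≤ h1
  · rw [hh.lo _ h3]
    ring
  · have h4 : max (y * x⁻¹) h1 = y * x⁻¹ := max_eq_left (not_le.1 h3).le
    rw [h4]
    have e1 : y / (y * x⁻¹) = x := by
      field_simp
    rw [e1]

private theorem apxo_w {h : ℝ → ℝ} {h1 h2 : ℝ} (hh : HF h h1 h2) {J N : ℕ} {X : ℝ} (hX : 0 < X)
    {e : G × G} (he : En 1 e) :
    h (nm e.1 / X) * rho J N (mE e / nm e.1) = apxo_K h J N h1 (mE e / X, tE e, 1 / X) := by
  have hne := clu_nm_ne (by omega : 0 < 1) he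
  have hP : (0 : ℝ) < nm e.1 := by exact_mod_cast Nat.pos_of_ne_zero hne.1
  have hQ : (0 : ℝ) < nm e.2 := by exact_mod_cast Nat.pos_of_ne_zero hne.2
  have hPQ : (nm e.1 : ℝ) * nm e.2 = mE e ^ 2 + 1 ^ 2 := by
    have h4 := dot_sq_add_det_sq e.1 e.2
    rw [he.1] at h4
    unfold mE
    exact_mod_cast h4.symm
  have hs : √((mE e / X) ^ 2 + (1 / X) ^ 2) = √(nm e.1) * √(nm e.2) / X := by
    rw [← Real.sqrt_mul hP.le, hPQ]
    have h5 : (mE e / X) ^ 2 + (1 / X) ^ 2 = (mE e ^ 2 + 1 ^ 2) / X ^ 2 := by ring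
    rw [h5, Real.sqrt_div' _ (by positivity), Real.sqrt_sq hX.le]
  have ht : Real.exp (tE e / 2) = √(nm e.2) / √(nm e.1) := by
    unfold tE
    rw [sub_div, Real.exp_sub, ← Real.log_sqrt hQ.le, ← Real.log_sqrt hP.le,
      Real.exp_log (Real.sqrt_pos.2 hQ), Real.exp_log (Real.sqrt_pos.2 hP)]
  have ht' : Real.exp (-tE e / 2) = √(nm e.1) / √(nm e.2) := by
    rw [neg_div, Real.exp_neg, ht, inv_div]
  have q1 := Real.sqrt_pos.2 hP
  have q2 := Real.sqrt_pos.2 hQ
  have s1 := Real.mul_self_sqrt hP.le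
  have f1 : √(nm e.1) * √(nm e.2) / X * (√(nm e.1) / √(nm e.2)) = nm e.1 / X := by
    calc √(nm e.1) * √(nm e.2) / X * (√(nm e.1) / √(nm e.2)) = √(nm e.1) * √(nm e.1) / X := by
          field_simp
      _ = nm e.1 / X := by rw [s1]
  unfold apxo_K
  simp only
  rw [hs, ht', f1]
  by_cases h3 : (nm e.1 : ℝ) / X ≤ h1
  · rw [hh.lo _ h3]
    ring
  · rw [max_eq_left (not_le.1 h3).le]
    have e1 : mE e / X / (nm e.1 / X) = mE e / nm e.1 := by
      field_simp
    rw [e1]

private theorem apxo_t_bound {J N : ℕ} (hJ : 1 ≤ J) (hN : 1 ≤ N)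
    {e : G × G} (he : En 1 e) (hne : rho J N (mE e / nm e.1) ≠ 0) :
    |tE e| ≤ Real.log ((J + N) ^ 2 + 1) := by
  have hJ' : (1 : ℝ) ≤ J := by exact_mod_cast hJ
  have hN' : (1 : ℝ) ≤ N := by exact_mod_cast hN
  have hnz := clu_nm_ne (by omega : 0 < 1) he
  have hP : (0 : ℝ) < nm e.1 := by exact_mod_cast Nat.pos_of_ne_zero hnz.1
  have hP1 : (1 : ℝ) ≤ nm e.1 := by exact_mod_cast Nat.pos_of_ne_zero hnz.1
  have hQ : (0 : ℝ) < nm e.2 := by exact_mod_cast Nat.pos_of_ne_zero hnz.2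
  have hPQ : (nm e.1 : ℝ) * nm e.2 = mE e ^ 2 + 1 ^ 2 := by
    have h4 := dot_sq_add_det_sq e.1 e.2
    rw [he.1] at h4
    unfold mE
    exact_mod_cast h4.symm
  obtain ⟨e1, e2⟩ := apxn_rho_ne hN hne
  obtain ⟨P, hPe⟩ : ∃ P : ℝ, P = nm e.1 := ⟨_, rfl⟩
  obtain ⟨Q, hQe⟩ : ∃ Q : ℝ, Q = nm e.2 := ⟨_, rfl⟩
  obtain ⟨m, hme⟩ : ∃ m, m = mE e := ⟨_, rfl⟩
  obtain ⟨M, hM⟩ : ∃ M : ℝ, M = J + N := ⟨_, rfl⟩
  unfold tE
  rw [← hPe, ← hQe, ← hme] at hPQ
  rw [← hPe, ← hme] at e1 e2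
  rw [← hM] at e2
  rw [← hPe] at hP hP1
  rw [← hQe] at hQ
  rw [← hPe, ← hQe, ← hM]
  rw [lt_div_iff₀ hP] at e1
  rw [div_lt_iff₀ hP] at e2
  have g1 : P ≤ m := by nlinarith
  have g2 : P ≤ Q := by
    by_contra h0
    nlinarith
  have g3 : Q ≤ (M ^ 2 + 1) * P := by
    have h5 : P * Q ≤ P * ((M ^ 2 + 1) * P) := by
      rw [hPQ]
      have h6 : m ^ 2 ≤ (M * P) ^ 2 := pow_le_pow_left₀ (by linarith) e2.le 2
      nlinarith
    exact le_of_mul_le_mul_left h5 hP
  have l1 : Real.log P ≤ Real.log Q := Real.log_le_log hP g2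
  have l2 : Real.log Q ≤ Real.log (M ^ 2 + 1) + Real.log P := by
    rw [← Real.log_mul (by positivity) hP.ne']
    exact Real.log_le_log hQ g3
  rw [abs_le]
  have l3 : 0 ≤ Real.log (M ^ 2 + 1) := Real.log_nonneg (by nlinarith [sq_nonneg M])
  constructor <;> linarith

/-- PROOF. As `apxN` with `n = 1`: `δ = 1/X`, `s = sqrt (y^2 + δ^2)`, `nm e.1 / X = s exp (-t/2)`, and the weight is `K y t δ = h (s exp (-t/2)) rho (y / max (s exp (-t/2)) h1)`, continuous on `ℝ^3`,
`K y t 0 = WO y t` for `0 < y`. If the weight is not zero, `dot / nm V ∈ [J, J + N]`, `nm V' nm V = dot^2 + 1`, so `nm V' / nm V ∈ [J^2, (J+N)^2 + 1]`, `|t| ≤ B`. `cnt` and uniform continuity. -/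
theorem apxO (f : ℕ → ℂ) (hf : ∀ n, ‖f n‖ ≤ 1) (h : ℝ → ℝ) (h1 h2 : ℝ) (hh : HF h h1 h2) (J N : ℕ) (hJ : 1 ≤ J)
    (hN : 1 ≤ N) (b : ℝ) (hb : 0 < b) :
    Tendsto (fun X : ℝ => (SX f h J N (b * X) X - ∑ e ∈ EN 1 (b * X),
      f (nm e.1) * f (nm e.2) * WO h J N (mE e / X) (tE e)) / X) atTop (nhds 0) := by
  have hJ' : (1 : ℝ) ≤ J := by exact_mod_cast hJ
  have hN' : (1 : ℝ) ≤ N := by exact_mod_cast hN
  obtain ⟨B, hB⟩ : ∃ B : ℝ, B = Real.log ((J + N) ^ 2 + 1) := ⟨_, rfl⟩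
  have hB2 : 2 * Real.log ((J : ℝ) + N) ≤ B := by
    rw [hB, ← Nat.cast_two, ← Real.log_pow]
    exact Real.log_le_log (by positivity) (by linarith)
  have hl1 : 0 ≤ Real.log ((J : ℝ) + N) := Real.log_nonneg (by linarith)
  obtain ⟨C, hC, hcnt⟩ := cnt B
  have hK := apxo_K_cont hh J N
  have hcomp : IsCompact (Set.Icc (0 : ℝ) b ×ˢ (Set.Icc (-B) B ×ˢ Set.Icc (0 : ℝ) 1)) :=
    isCompact_Icc.prod (isCompact_Icc.prod isCompact_Icc)
  have huc := hcomp.uniformContinuousOn_of_continuous hK.continuousOn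
  rw [Metric.tendsto_atTop]
  intro ε hε
  have hε' : 0 < ε / (2 * (C * b)) := by positivity
  obtain ⟨η, hη, hK2⟩ := Metric.uniformContinuousOn_iff.1 huc (ε / (2 * (C * b))) hε'
  refine ⟨max 1 (max (1 / b) (2 * 1 / η)), fun X hX => ?_⟩
  have x1 : 1 ≤ X := (le_max_left _ _).trans hX
  have x2 : 1 / b ≤ X := ((le_max_left _ _).trans (le_max_right _ _)).trans hX
  have x4 : 2 * 1 / η ≤ X := ((le_max_right _ _).trans (le_max_right _ _)).trans hX
  have hX0 : 0 < X := by linarith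
  have y1 : ((1 : ℕ) : ℝ) ≤ b * X := by
    rw [div_le_iff₀ hb] at x2
    rw [Nat.cast_one]
    linarith
  have y2 : 1 / X ≤ 1 := by
    rw [div_le_one hX0]
    exact x1
  have y3 : 1 / X < η := by
    rw [div_le_iff₀ hη] at x4
    rw [div_lt_iff₀ hX0]
    nlinarith
  have hterm : ∀ e ∈ EN 1 (b * X), ‖((h (nm e.1 / X) * rho J N (mE e / nm e.1) : ℝ) : ℂ) -
      WO h J N (mE e / X) (tE e)‖ ≤ if |tE e| ≤ B then ε / (2 * (C * b)) else 0 := by
    intro e he
    rw [mem_EN one_pos] at he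
    have hm := mE_pos he.1
    have hy : 0 < mE e / X := div_pos hm hX0
    have hyb : mE e / X ≤ b := by
      rw [div_le_iff₀ hX0]
      exact he.2
    split_ifs with ht
    · rw [apxo_w hh hX0 he.1, ← apxo_K_zero hh hy, ← Complex.ofReal_sub,
        Complex.norm_real, ← dist_eq_norm]
      refine (hK2 _ ?_ _ ?_ ?_).le
      · rw [abs_le] at ht
        exact ⟨⟨hy.le, hyb⟩, ⟨ht, ⟨by positivity, y2⟩⟩⟩
      · rw [abs_le] at ht
        exact ⟨⟨hy.le, hyb⟩, ⟨ht, ⟨le_refl _, zero_le_one⟩⟩⟩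
      · rw [Prod.dist_eq, Prod.dist_eq]
        simp only [dist_self]
        rw [Real.dist_eq, sub_zero, abs_of_nonneg (by positivity : (0 : ℝ) ≤ 1 / X)]
        exact max_lt hη (max_lt hη y3)
    · have z1 : h (nm e.1 / X) * rho J N (mE e / nm e.1) = 0 := by
        by_contra h3
        have := apxo_t_bound hJ hN he.1 (right_ne_zero_of_mul h3)
        exact ht (by rw [hB]; linarith)
      have z2 : WO h J N (mE e / X) (tE e) = 0 := by
        by_contra h3
        have h4 := apxo_WO_ne hh hJ hN h3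
        apply ht
        rw [abs_le]
        constructor <;> linarith [h4.2.2.1, h4.2.2.2]
      rw [z1, z2]
      simp
  rw [dist_zero_right, norm_div, Complex.norm_real, Real.norm_eq_abs, abs_of_pos hX0,
    div_lt_iff₀ hX0]
  unfold SX
  rw [← sum_sub_distrib]
  have hs : ‖∑ e ∈ EN 1 (b * X),
      (f (nm e.1) * f (nm e.2) * ((h (nm e.1 / X) * rho J N (mE e / nm e.1) : ℝ) : ℂ) -
        f (nm e.1) * f (nm e.2) * WO h J N (mE e / X) (tE e))‖ ≤
      ∑ e ∈ EN 1 (b * X), if |tE e| ≤ B then ε / (2 * (C * b)) else 0 := by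
    refine (norm_sum_le _ _).trans ?_
    refine sum_le_sum fun e he => ?_
    rw [← mul_sub, norm_mul, norm_mul]
    have h3 := hterm e he
    have h4 : ‖f (nm e.1)‖ * ‖f (nm e.2)‖ ≤ 1 := by
      have := mul_le_mul (hf (nm e.1)) (hf (nm e.2)) (norm_nonneg _) zero_le_one
      linarith
    calc ‖f (nm e.1)‖ * ‖f (nm e.2)‖ * _ ≤ 1 * _ := mul_le_mul_of_nonneg_right h4 (norm_nonneg _)
      _ ≤ _ := by rw [one_mul]; exact h3
  refine lt_of_le_of_lt hs ?_
  rw [← sum_filter, sum_const, nsmul_eq_mul]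
  have h5 := hcnt 1 one_pos (b * X) y1
  calc (((EN 1 (b * X)).filter (fun e => |tE e| ≤ B)).card : ℝ) * (ε / (2 * (C * b)))
      ≤ C * (b * X) * (ε / (2 * (C * b))) := mul_le_mul_of_nonneg_right h5 hε'.le
    _ = ε * X / 2 := by field_simp
    _ < ε * X := by
      have : 0 < ε * X := by positivity
      linarith

/-- `∫ r in J..(J+N), rho J N r = N/2` -/
private theorem apxo_rho_int (J N : ℕ) (hN : 1 ≤ N) :
    ∫ r in (J : ℝ)..(J + N), rho J N r = (N : ℝ) / 2 := by
  have hN' : (0 : ℝ) < N := by exact_mod_cast hN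
  have hi : ∀ a b : ℝ, IntervalIntegrable (rho J N) volume a b := fun a b =>
    (apxn_rho_cont J N).intervalIntegrable a b
  rw [← intervalIntegral.integral_add_adjacent_intervals (hi (J : ℝ) (J + N / 2)) (hi (J + N / 2) (J + N))]
  have e1 : ∫ r in (J : ℝ)..(J + N / 2), rho J N r = ∫ r in (J : ℝ)..(J + N / 2), 2 * (r - J) / N := by
    refine intervalIntegral.integral_congr fun r hr => ?_
    rw [Set.uIcc_of_le (by linarith)] at hr
    unfold rho
    have h1 : 0 ≤ 2 * (r - J) / N := div_nonneg (by linarith [hr.1]) hN'.le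
    have h2 : 2 * (r - J) / N ≤ 1 := by
      rw [div_le_one hN']
      linarith [hr.2]
    rw [abs_of_nonpos (by linarith), max_eq_right (by linarith)]
    ring
  have e2 : ∫ r in (J + N / 2 : ℝ)..(J + N), rho J N r =
      ∫ r in (J + N / 2 : ℝ)..(J + N), (2 - 2 * (r - J) / N) := by
    refine intervalIntegral.integral_congr fun r hr => ?_
    rw [Set.uIcc_of_le (by linarith)] at hr
    unfold rho
    have h1 : 1 ≤ 2 * (r - J) / N := by
      rw [one_le_div hN']
      linarith [hr.1]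
    have h2 : 2 * (r - J) / N ≤ 2 := by
      rw [div_le_iff₀ hN']
      linarith [hr.2]
    rw [abs_of_nonneg (by linarith), max_eq_right (by linarith)]
    ring
  have f1 : ∫ r in (J : ℝ)..(J + N / 2), 2 * (r - J) / N =
      ((J + N / 2 : ℝ) - J) ^ 2 / N - ((J : ℝ) - J) ^ 2 / N := by
    refine intervalIntegral.integral_eq_sub_of_hasDerivAt (f := fun r : ℝ => (r - J) ^ 2 / N)
      (fun r _ => ?_) (Continuous.intervalIntegrable (by fun_prop) _ _)
    have h1 := (((hasDerivAt_id r).sub_const (J : ℝ)).pow 2).div_const (N : ℝ)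
    exact h1.congr_deriv (by simp)
  have f2 : ∫ r in (J + N / 2 : ℝ)..(J + N), (2 - 2 * (r - J) / N) =
      (2 * (J + N : ℝ) - ((J + N : ℝ) - J) ^ 2 / N) - (2 * (J + N / 2 : ℝ) - ((J + N / 2 : ℝ) - J) ^ 2 / N) := by
    refine intervalIntegral.integral_eq_sub_of_hasDerivAt (f := fun r : ℝ => 2 * r - (r - J) ^ 2 / N)
      (fun r _ => ?_) (Continuous.intervalIntegrable (by fun_prop) _ _)
    have h1 := (((hasDerivAt_id r).sub_const (J : ℝ)).pow 2).div_const (N : ℝ)
    have h2 := ((hasDerivAt_id r).const_mul (2 : ℝ)).sub h1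
    exact h2.congr_deriv (by simp)
  rw [e1, e2, f1, f2]
  field_simp
  ring

/-- bounds for `∫ t, rho J N (exp (t/2))` -/
private theorem apxo_I (J N : ℕ) (hJ : 1 ≤ J) (hN : 1 ≤ N) :
    (N : ℝ) / (J + N) ≤ ∫ t, rho J N (Real.exp (t / 2)) ∧
      ∫ t, rho J N (Real.exp (t / 2)) ≤ (N : ℝ) / J := by
  have hJ' : (1 : ℝ) ≤ J := by exact_mod_cast hJ
  have hN' : (1 : ℝ) ≤ N := by exact_mod_cast hN
  have hsupp : Function.support (fun t : ℝ => rho J N (Real.exp (t / 2))) ⊆
      Set.Ioc (2 * Real.log J) (2 * Real.log (J + N)) := by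
    intro t ht
    obtain ⟨h1, h2⟩ := apxn_rho_ne hN ht
    constructor
    · have := (Real.log_lt_iff_lt_exp (by linarith)).2 h1
      linarith
    · have := (Real.lt_log_iff_exp_lt (by linarith)).2 h2
      linarith
  have hle : 2 * Real.log J ≤ 2 * Real.log (J + N) := by
    have := Real.log_le_log (by linarith : (0 : ℝ) < J) (by linarith : (J : ℝ) ≤ J + N)
    linarith
  have e0 : ∫ t, rho J N (Real.exp (t / 2)) =
      ∫ t in (2 * Real.log J)..(2 * Real.log (J + N)), rho J N (Real.exp (t / 2)) :=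
    (intervalIntegral.integral_eq_integral_of_support_subset hsupp).symm
  have hg : Continuous fun r : ℝ => rho J N r * (2 / max r 1) :=
    (apxn_rho_cont J N).mul (Continuous.div continuous_const (continuous_id.max continuous_const)
      (fun r => (lt_of_lt_of_le one_pos (le_max_right _ _)).ne'))
  have e1 : ∫ t in (2 * Real.log J)..(2 * Real.log (J + N)), rho J N (Real.exp (t / 2)) =
      ∫ t in (2 * Real.log J)..(2 * Real.log (J + N)),
        ((fun r : ℝ => rho J N r * (2 / max r 1)) ∘ (fun t : ℝ => Real.exp (t / 2))) t *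
          (Real.exp (t / 2) / 2) := by
    refine intervalIntegral.integral_congr fun t ht => ?_
    rw [Set.uIcc_of_le hle] at ht
    have h1 : 1 ≤ Real.exp (t / 2) := by
      rw [Real.one_le_exp_iff]
      have := Real.log_nonneg hJ'
      linarith [ht.1]
    simp only [Function.comp]
    rw [max_eq_left h1]
    have h2 := (Real.exp_pos (t / 2)).ne'
    field_simp
  have e2 := intervalIntegral.integral_comp_mul_deriv (a := 2 * Real.log J) (b := 2 * Real.log (J + N))
    (f := fun t : ℝ => Real.exp (t / 2)) (f' := fun t : ℝ => Real.exp (t / 2) / 2)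
    (g := fun r : ℝ => rho J N r * (2 / max r 1))
    (fun t _ => by
      have h1 := ((hasDerivAt_id t).div_const (2 : ℝ)).exp
      exact h1.congr_deriv (by simp; ring)) (by fun_prop) hg
  have e3 : Real.exp (2 * Real.log J / 2) = J := by
    rw [mul_div_cancel_left₀ _ (two_ne_zero), Real.exp_log (by linarith)]
  have e4 : Real.exp (2 * Real.log (J + N) / 2) = J + N := by
    rw [mul_div_cancel_left₀ _ (two_ne_zero), Real.exp_log (by linarith)]
  rw [e3, e4] at e2
  rw [e0, e1, e2]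
  have hrho := apxo_rho_int J N hN
  constructor
  · have h1 : ∫ r in (J : ℝ)..(J + N), rho J N r * (2 / (J + N)) ≤
        ∫ r in (J : ℝ)..(J + N), rho J N r * (2 / max r 1) := by
      refine intervalIntegral.integral_mono_on (by linarith)
        (((apxn_rho_cont J N).mul continuous_const).intervalIntegrable _ _)
        (hg.intervalIntegrable _ _) fun r hr => ?_
      refine mul_le_mul_of_nonneg_left ?_ (apxn_rho_nn J N r)
      exact div_le_div_of_nonneg_left (by norm_num) (lt_of_lt_of_le one_pos (le_max_right _ _))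
        (max_le hr.2 (by linarith))
    rw [intervalIntegral.integral_mul_const, hrho] at h1
    calc (N : ℝ) / (J + N) = N / 2 * (2 / (J + N)) := by field_simp
      _ ≤ _ := h1
  · have h1 : ∫ r in (J : ℝ)..(J + N), rho J N r * (2 / max r 1) ≤
        ∫ r in (J : ℝ)..(J + N), rho J N r * (2 / J) := by
      refine intervalIntegral.integral_mono_on (by linarith)
        (hg.intervalIntegrable _ _)
        (((apxn_rho_cont J N).mul continuous_const).intervalIntegrable _ _) fun r hr => ?_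
      refine mul_le_mul_of_nonneg_left ?_ (apxn_rho_nn J N r)
      exact div_le_div_of_nonneg_left (by norm_num) (by linarith) (hr.1.trans (le_max_left _ _))
    rw [intervalIntegral.integral_mul_const, hrho] at h1
    calc _ ≤ (N : ℝ) / 2 * (2 / J) := h1
      _ = (N : ℝ) / J := by field_simp

/-- PROOF. `r = exp (t/2)`, `dt = 2 dr / r`: the integral is `∫ r in J..(J+N), h (y/r) rho J N r * (2/r)` (substitution `integral_comp_...` or `MeasureTheory.integral_image_eq_integral_abs_deriv_smul`; both sides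
are integrals of continuous functions over compact intervals `[2 log J, 2 log (J+N)]`), and `∫ r in J..(J+N), rho J N r = N/2`. Pointwise
`|h (y/r) (2/r) - h (y/J) (2/J)| ≤ (2/J) (|h (y/r) - h (y/J)| + N/J)`; if not both values of `h` vanish then `y ≤ h2 (J + N)` (and `y > 0`), `|y/r - y/J| ≤ y N/J^2 ≤ h2 (J+N) N/J^2`, small for
`J ≥ J0(N, η)`; uniform continuity of `h` (compact support). -/
theorem crho (h : ℝ → ℝ) (h1 h2 : ℝ) (hh : HF h h1 h2) (N : ℕ) (hN : 1 ≤ N) (η : ℝ) (hη : 0 < η) :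
    ∃ J0 : ℕ, 1 ≤ J0 ∧ ∀ J : ℕ, J0 ≤ J → ∀ y : ℝ,
      ‖(∫ t, WO h J N y t) - (((N : ℝ) / J * h (y / J) : ℝ) : ℂ)‖ ≤ η * (N / J) := by
  have hN' : (1 : ℝ) ≤ N := by exact_mod_cast hN
  have h2pos : 0 < h2 := by linarith [hh.one]
  have hcs : HasCompactSupport h := by
    refine HasCompactSupport.of_support_subset_isCompact (isCompact_Icc (a := h1) (b := h2)) ?_
    intro y hy
    constructor
    · by_contra h0
      exact hy (hh.lo _ (not_le.1 h0).le)
    · by_contra h0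
      exact hy (hh.hi _ (not_le.1 h0).le)
  have huc : UniformContinuous h := hcs.uniformContinuous_of_continuous hh.cont
  obtain ⟨δ, hδ, hδ2⟩ := Metric.uniformContinuous_iff.1 huc (η / 2) (by positivity)
  obtain ⟨J0, hJ0⟩ := exists_nat_gt (max (h2 * N / δ) (2 * N / η))
  refine ⟨J0 + 1, by omega, fun J hJ y => ?_⟩
  have hJ0J : (J0 : ℝ) ≤ J := by exact_mod_cast (by omega : J0 ≤ J)
  have hJ1 : 1 ≤ J := by omega
  have hJ' : (1 : ℝ) ≤ J := by exact_mod_cast hJ1
  have hJpos : (0 : ℝ) < J := by linarith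
  have a1 : h2 * N / J < δ := by
    rw [div_lt_iff₀ hJpos]
    have := (le_max_left _ _).trans_lt hJ0
    rw [div_lt_iff₀ hδ] at this
    nlinarith
  have a2 : (N : ℝ) / J ≤ η / 2 := by
    rw [div_le_iff₀ hJpos]
    have := (le_max_right _ _).trans_lt hJ0
    rw [div_lt_iff₀ hη] at this
    nlinarith
  obtain ⟨i1, i2⟩ := apxo_I J N hJ1 hN
  set I := ∫ t, rho J N (Real.exp (t / 2)) with hI
  have hrc : Continuous fun t : ℝ => rho J N (Real.exp (t / 2)) :=
    (apxn_rho_cont J N).comp (by fun_prop)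
  have hrcs : HasCompactSupport fun t : ℝ => rho J N (Real.exp (t / 2)) := by
    refine HasCompactSupport.of_support_subset_isCompact
      (isCompact_Icc (a := 2 * Real.log J) (b := 2 * Real.log (J + N))) ?_
    intro t ht
    obtain ⟨h3, h4⟩ := apxn_rho_ne hN ht
    constructor
    · have := (Real.log_lt_iff_lt_exp (by linarith)).2 h3
      linarith
    · have := (Real.lt_log_iff_exp_lt (by linarith)).2 h4
      linarith
  have hri : Integrable fun t : ℝ => rho J N (Real.exp (t / 2)) :=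
    hrc.integrable_of_hasCompactSupport hrcs
  have hti : Integrable fun t : ℝ => h (y * Real.exp (-t / 2)) * rho J N (Real.exp (t / 2)) :=
    Continuous.integrable_of_hasCompactSupport ((hh.cont.comp (by fun_prop)).mul hrc)
      hrcs.mul_left
  have hW : (∫ t, WO h J N y t) =
      ((∫ t, h (y * Real.exp (-t / 2)) * rho J N (Real.exp (t / 2)) : ℝ) : ℂ) := by
    unfold WO
    exact integral_ofReal
  rw [hW, ← Complex.ofReal_sub, Complex.norm_real, Real.norm_eq_abs]
  have hpt : ∀ t : ℝ, |h (y * Real.exp (-t / 2)) * rho J N (Real.exp (t / 2)) -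
      h (y / J) * rho J N (Real.exp (t / 2))| ≤ η / 2 * rho J N (Real.exp (t / 2)) := by
    intro t
    rw [← sub_mul, abs_mul, abs_of_nonneg (apxn_rho_nn J N _)]
    by_cases hz : rho J N (Real.exp (t / 2)) = 0
    · rw [hz, mul_zero, mul_zero]
    refine mul_le_mul_of_nonneg_right ?_ (apxn_rho_nn J N _)
    obtain ⟨h3, h4⟩ := apxn_rho_ne hN hz
    obtain ⟨r, hr⟩ : ∃ r : ℝ, r = Real.exp (t / 2) := ⟨_, rfl⟩
    have hrn : Real.exp (-t / 2) = r⁻¹ := by rw [hr, ← Real.exp_neg, neg_div]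
    rw [hrn, ← div_eq_mul_inv]
    rw [← hr] at h3 h4
    have hr0 : 0 < r := by linarith
    rcases le_or_gt y 0 with hy | hy
    · rw [hh.lo _ ((div_nonpos_of_nonpos_of_nonneg hy hr0.le).trans hh.pos.le),
        hh.lo _ ((div_nonpos_of_nonpos_of_nonneg hy hJpos.le).trans hh.pos.le)]
      simp only [sub_self, abs_zero]
      positivity
    rcases le_or_gt h2 (y / r) with hb | hb
    · have h5 : y / r ≤ y / J := div_le_div_of_nonneg_left hy.le hJpos h3.le
      rw [hh.hi _ hb, hh.hi _ (hb.trans h5)]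
      simp only [sub_self, abs_zero]
      positivity
    · have h5 : dist (y / r) (y / J) < δ := by
        rw [Real.dist_eq, abs_sub_comm]
        have h6 : y / J - y / r = (y / r) * ((r - J) / J) := by
          field_simp
        rw [h6, abs_of_nonneg (mul_nonneg (div_nonneg hy.le hr0.le) (div_nonneg (by linarith) hJpos.le))]
        refine lt_of_le_of_lt ?_ a1
        rw [mul_div_assoc]
        refine mul_le_mul hb.le ?_ (div_nonneg (by linarith) hJpos.le) h2pos.le
        exact div_le_div_of_nonneg_right (by linarith) hJpos.le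
      have := hδ2 h5
      rw [Real.dist_eq] at this
      exact this.le
  have hmain : |(∫ t, h (y * Real.exp (-t / 2)) * rho J N (Real.exp (t / 2))) - h (y / J) * I| ≤
      η / 2 * I := by
    rw [hI, ← integral_const_mul, ← integral_sub hti (hri.const_mul _), ← integral_const_mul]
    refine (abs_integral_le_integral_abs).trans ?_
    refine integral_mono (hti.sub (hri.const_mul _)).abs (hri.const_mul _) fun t => hpt t
  have hI2 : |I - N / J| ≤ η / 2 * (N / J) := by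
    rw [abs_le]
    constructor
    · have h3 : (N : ℝ) / J - N / (J + N) ≤ N / J * (N / J) := by
        have h4 : (N : ℝ) / J - N / (J + N) = N / J * (N / (J + N)) := by
          field_simp
          ring
        rw [h4]
        exact mul_le_mul_of_nonneg_left (div_le_div_of_nonneg_left (by linarith) hJpos (by linarith))
          (by positivity)
      have h5 : (N : ℝ) / J * (N / J) ≤ η / 2 * (N / J) :=
        mul_le_mul_of_nonneg_right a2 (by positivity)
      linarith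
    · have : 0 ≤ η / 2 * ((N : ℝ) / J) := by positivity
      linarith
  have hhb : |h (y / J)| ≤ 1 := by
    rw [abs_of_nonneg (hh.nn _)]
    exact hh.le _
  calc |(∫ t, h (y * Real.exp (-t / 2)) * rho J N (Real.exp (t / 2))) - N / J * h (y / J)|
      = |((∫ t, h (y * Real.exp (-t / 2)) * rho J N (Real.exp (t / 2))) - h (y / J) * I) +
          h (y / J) * (I - N / J)| := by congr 1; ring
    _ ≤ |(∫ t, h (y * Real.exp (-t / 2)) * rho J N (Real.exp (t / 2))) - h (y / J) * I| +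
          |h (y / J) * (I - N / J)| := abs_add_le _ _
    _ ≤ η / 2 * I + 1 * (η / 2 * (N / J)) := by
        rw [abs_mul]
        exact add_le_add hmain (mul_le_mul hhb hI2 (abs_nonneg _) zero_le_one)
    _ ≤ η / 2 * (N / J) + 1 * (η / 2 * (N / J)) := by
        have := mul_le_mul_of_nonneg_left i2 (by positivity : (0 : ℝ) ≤ η / 2)
        linarith
    _ = η * (N / J) := by ring

end Pool.Agent.OmEq

end

/-! ### from `Lib_MP_f1a94e_eq.LocD` -/

section

/-!
# Piece LOCD: local densities of the set of movable primes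
-/

set_option autoImplicit false

namespace Pool.Agent.OmEq

open Finset Pool.Agent.GaussMR Pool.Agent.OmAll

namespace LocDP

/-- the condition at a prime of `D` -/
def QA (p : ℕ) (e : G × G) : Prop := p ∣ nm e.2 ∧ ¬ p ^ 2 ∣ nm e.1 * nm e.2

/-- the condition at a prime outside of `D` -/
def QB (p : ℕ) (e : G × G) : Prop := ¬ (p ∣ nm e.1 * nm e.2 ∧ ¬ p ^ 2 ∣ nm e.1 * nm e.2)

/-- the condition at the prime `p` -/
def QC (D : Finset ℕ) (p : ℕ) (e : G × G) : Prop := (p ∈ D → QA p e) ∧ (p ∉ D → QB p e)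

/-- all conditions -/
def RC (D P : Finset ℕ) (e : G × G) : Prop := ∀ p ∈ P, QC D p e

theorem QC_per (D : Finset ℕ) (p : ℕ) {M : ℕ} (hM : p ^ 2 ∣ M) : Per M (QC D p) := by
  intro e f h h'
  have hp : p ∣ M := (dvd_pow_self p two_ne_zero).trans hM
  unfold QC QA QB
  rw [LocalBP.dvd_iff hp h', LocalBP.dvd_mul_iff hM h h', LocalBP.dvd_mul_iff hp h h']

theorem RC_per (D P : Finset ℕ) {M : ℕ} (hM : ∀ p ∈ P, p ^ 2 ∣ M) : Per M (RC D P) := by
  intro e f h h'
  exact forall₂_congr (fun p hp => QC_per D p (hM p hp) e f h h')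

open Classical in
theorem QB_card (p : ℕ) (hp : p.Prime) (h4 : p % 4 = 1) :
    (((cls (p ^ 2)).filter (QB p)).card : ℝ) = (1 - 2 * Ap p) * (cls (p ^ 2)).card := by
  have h1 := LocalBP.QQ_card (fun _ => True) p hp h4
  have h2 := LocalBP.QQ_card (fun _ => False) p hp h4
  have h3 : ((cls (p ^ 2)).filter (QB p)).card +
      ((cls (p ^ 2)).filter (LocalBP.QQ (fun _ => True) p)).card +
      ((cls (p ^ 2)).filter (LocalBP.QQ (fun _ => False) p)).card = (cls (p ^ 2)).card := by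
    rw [card_filter, card_filter, card_filter, ← sum_add_distrib, ← sum_add_distrib,
      card_eq_sum_ones]
    apply sum_congr rfl
    intro e _
    unfold QB LocalBP.QQ
    have h5 : p ∣ nm e.1 * nm e.2 ↔ p ∣ nm e.1 ∨ p ∣ nm e.2 := hp.dvd_mul
    have h6 : p ∣ nm e.1 → p ∣ nm e.2 → p ^ 2 ∣ nm e.1 * nm e.2 := by
      intro a b
      rw [pow_two]
      exact mul_dvd_mul a b
    by_cases h7 : p ^ 2 ∣ nm e.1 * nm e.2
    · simp [h7]
    · by_cases h8 : p ∣ nm e.1
      · have h9 : ¬ p ∣ nm e.2 := fun h => h7 (h6 h8 h)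
        simp [h5, h7, h8, h9]
      · by_cases h9 : p ∣ nm e.2
        · simp [h5, h7, h8, h9]
        · simp [h5, h7, h8, h9]
  have h4 : (((cls (p ^ 2)).filter (QB p)).card : ℝ) +
      ((cls (p ^ 2)).filter (LocalBP.QQ (fun _ => True) p)).card +
      ((cls (p ^ 2)).filter (LocalBP.QQ (fun _ => False) p)).card = (cls (p ^ 2)).card := by
    exact_mod_cast h3
  rw [h1, h2] at h4
  linarith

open Classical in
theorem QC_card (D : Finset ℕ) (p : ℕ) (hp : p.Prime) (h4 : p % 4 = 1) :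
    (((cls (p ^ 2)).filter (QC D p)).card : ℝ) =
      (if p ∈ D then Ap p else 1 - 2 * Ap p) * (cls (p ^ 2)).card := by
  by_cases h : p ∈ D
  · rw [if_pos h, ← LocalBP.QQ_card (fun _ => False) p hp h4]
    congr 2
    apply filter_congr
    intro e _
    unfold QC QA LocalBP.QQ
    simp [h]
  · rw [if_neg h, ← QB_card p hp h4]
    congr 2
    apply filter_congr
    intro e _
    unfold QC
    simp [h]

open Classical in
theorem main (D P : Finset ℕ) : (∀ p ∈ P, p.Prime ∧ p % 4 = 1) →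
    (((cls (∏ p ∈ P, p ^ 2)).filter (RC D P)).card : ℝ) =
      (∏ p ∈ P, if p ∈ D then Ap p else 1 - 2 * Ap p) * (cls (∏ p ∈ P, p ^ 2)).card := by
  induction P using Finset.induction_on with
  | empty =>
    intro _
    have h3 : ((cls (∏ p ∈ (∅ : Finset ℕ), p ^ 2)).filter (RC D ∅)) =
        cls (∏ p ∈ (∅ : Finset ℕ), p ^ 2) := by
      apply filter_true_of_mem
      intro e _
      unfold RC
      simp
    rw [h3, prod_empty, prod_empty, one_mul]
  | insert p P hpP ih =>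
    intro hP
    obtain ⟨hp, h4⟩ := hP p (mem_insert_self _ _)
    have hP' : ∀ q ∈ P, q.Prime ∧ q % 4 = 1 := fun q hq => hP q (mem_insert_of_mem hq)
    have ih' := ih hP'
    rw [prod_insert hpP, prod_insert hpP]
    set M1 : ℕ := ∏ q ∈ P, q ^ 2 with hM1
    have hM : p ^ 2 * M1 = M1 * p ^ 2 := by ring
    rw [hM]
    have hpos1 : 0 < M1 := by
      rw [hM1]
      exact prod_pos (fun q hq => pow_pos (hP' q hq).1.pos 2)
    have hpos2 : 0 < p ^ 2 := pow_pos hp.pos 2
    have hco : M1.Coprime (p ^ 2) := by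
      apply Nat.Coprime.pow_right
      rw [hM1]
      apply Nat.Coprime.prod_left
      intro q hq
      apply Nat.Coprime.pow_left
      rw [Nat.coprime_primes (hP' q hq).1 hp]
      rintro rfl
      exact hpP hq
    have hper1 : Per M1 (RC D P) := RC_per D P
      (fun q hq => dvd_prod_of_mem (fun q => q ^ 2) hq)
    have hper2 : Per (p ^ 2) (QC D p) := QC_per D p (dvd_refl _)
    have h1 := Pool.Agent.OmAll.cls_mul M1 (p ^ 2) hpos1 hpos2 hco (RC D P) (QC D p) hper1 hper2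
    have h2 := Pool.Agent.OmAll.cls_mul M1 (p ^ 2) hpos1 hpos2 hco (fun _ => True) (fun _ => True)
      (fun _ _ _ _ => Iff.rfl) (fun _ _ _ _ => Iff.rfl)
    simp only [and_self, filter_true] at h2
    have h3 : ((cls (M1 * p ^ 2)).filter (RC D (insert p P))).card =
        ((cls (M1 * p ^ 2)).filter (fun e => RC D P e ∧ QC D p e)).card := by
      congr 1
      apply filter_congr
      intro e _
      unfold RC
      rw [forall_mem_insert]
      tauto
    rw [h3, h1, h2]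
    push_cast
    rw [ih', QC_card D p hp h4]
    ring

theorem nm_natCast_mul (n : ℕ) (u : G) : nm ((n : G) * u) = n ^ 2 * nm u := by
  have h : ((nm ((n : G) * u) : ℕ) : ℤ) = ((n ^ 2 * nm u : ℕ) : ℤ) := by
    push_cast
    rw [nm_eq, nm_eq]
    simp only [Zsqrtd.re_mul, Zsqrtd.im_mul, Zsqrtd.re_natCast, Zsqrtd.im_natCast]
    ring
  exact_mod_cast h

open Classical in
/-- the predicate on the left side, for `D ⊆ PE E T` -/
theorem bs_ds_iff (E : Finset ℕ) (T : ℕ) (D : Finset ℕ) (hD : D ⊆ PE E T) (e : G × G) :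
    (bs E T e ∧ ds E T e = D) ↔ RC D (PE E T) e := by
  constructor
  · rintro ⟨h1, h2⟩ p hp
    constructor
    · intro hpD
      have h3 := h2.symm ▸ hpD
      have h4 : p ∈ ds E T e := h3
      have h5 := (mem_filter.1 h4).2
      have h6 := h1 p h4
      have hpr : p.Prime := (mem_PE.1 hp).2.1
      exact ⟨(hpr.dvd_mul.1 h5.1).resolve_left h6, h5.2⟩
    · intro hpD h3
      apply hpD
      rw [← h2]
      exact mem_filter.2 ⟨hp, h3⟩
  · intro h
    have h2 : ds E T e = D := by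
      ext p
      unfold ds
      rw [mem_filter]
      constructor
      · rintro ⟨h3, h4⟩
        by_contra h5
        exact (h p h3).2 h5 h4
      · intro hp
        have h3 := (h p (hD hp)).1 hp
        exact ⟨hD hp, h3.1.mul_left _, h3.2⟩
    refine ⟨?_, h2⟩
    intro p hp h3
    rw [h2] at hp
    have h4 := (h p (hD hp)).1 hp
    apply h4.2
    rw [pow_two]
    exact mul_dvd_mul h3 h4.1

theorem RC_scale (D P : Finset ℕ) (n : ℕ) (hP : ∀ p ∈ P, p.Prime ∧ ¬ p ∣ n) (e : G × G) :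
    RC D P (e.1, (n : G) * e.2) ↔ RC D P e := by
  refine forall₂_congr (fun p hp => ?_)
  obtain ⟨h1, h2⟩ := hP p hp
  have hco : p.Coprime (n ^ 2) :=
    Nat.Coprime.pow_right 2 ((Nat.Prime.coprime_iff_not_dvd h1).2 h2)
  have hco2 : (p ^ 2).Coprime (n ^ 2) := Nat.Coprime.pow_left 2 hco
  have a1 : p ∣ nm ((n : G) * e.2) ↔ p ∣ nm e.2 := by
    rw [nm_natCast_mul]
    exact hco.dvd_mul_left
  have a2 : p ∣ nm e.1 * nm ((n : G) * e.2) ↔ p ∣ nm e.1 * nm e.2 := by
    rw [nm_natCast_mul, show nm e.1 * (n ^ 2 * nm e.2) = n ^ 2 * (nm e.1 * nm e.2) by ring]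
    exact hco.dvd_mul_left
  have a3 : p ^ 2 ∣ nm e.1 * nm ((n : G) * e.2) ↔ p ^ 2 ∣ nm e.1 * nm e.2 := by
    rw [nm_natCast_mul, show nm e.1 * (n ^ 2 * nm e.2) = n ^ 2 * (nm e.1 * nm e.2) by ring]
    exact hco2.dvd_mul_left
  unfold QC QA QB
  dsimp only
  rw [a1, a2, a3]

end LocDP

/-- PROOF. Divisibility of `nm e.1`, `nm e.2` by `p` and of `nm e.1 * nm e.2` by `p ^ 2` depends only on the classes modulo `p ^ 2`
(`LocalBP.dvd_iff`, `LocalBP.dvd_mul_iff`). -/
theorem ds_per (E : Finset ℕ) (T : ℕ) (D : Finset ℕ) :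
    Per (∏ p ∈ PE E T, p ^ 2) (fun e => bs E T e ∧ ds E T e = D) := by
  classical
  intro e f h h'
  have hM : ∀ p ∈ PE E T, p ^ 2 ∣ ∏ p ∈ PE E T, p ^ 2 :=
    fun p hp => dvd_prod_of_mem (fun q => q ^ 2) hp
  have hds : ds E T e = ds E T f := by
    unfold ds
    apply filter_congr
    intro p hp
    have hp1 : p ∣ ∏ p ∈ PE E T, p ^ 2 := (dvd_pow_self p two_ne_zero).trans (hM p hp)
    rw [LocalBP.dvd_mul_iff hp1 h h', LocalBP.dvd_mul_iff (hM p hp) h h']
  have hbs : bs E T e ↔ bs E T f := by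
    unfold bs
    rw [hds]
    refine forall₂_congr (fun p hp => ?_)
    have hp0 : p ∈ PE E T := (mem_filter.1 hp).1
    have hp1 : p ∣ ∏ p ∈ PE E T, p ^ 2 := (dvd_pow_self p two_ne_zero).trans (hM p hp0)
    rw [LocalBP.dvd_iff hp1 h]
  dsimp only
  rw [hbs, hds]

open Classical in
/-- PROOF. `nm ((n : G) * e.2) = n ^ 2 * nm e.2`, and `p ∤ n` for `p ∈ PE E T`, so the predicate is `bs E T e ∧ ds E T e = D`. It says: for
`p ∈ D`: `p ∣ nm e.2` and `¬ p ^ 2 ∣ nm e.1 * nm e.2` (this implies `p ∤ nm e.1`), and for `p ∈ PE E T \ D`: not (`p ∣ nm e.1 * nm e.2` and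
`¬ p ^ 2 ∣ nm e.1 * nm e.2`). Induction over the primes as in `LocalBP.main` (there modulus `2 * ∏`, here `∏ p ^ 2`, empty product: `cls 1` has one element)
with `Pool.Agent.OmAll.cls_mul`, and `cls_p2`: the first set has density `Ap p` in `cls (p ^ 2)`, the complement of the second one `2 * Ap p` (the two disjoint
sets of `cls_p2`; `p ∣ nm e.1 * nm e.2` iff `p` divides one of them, and not both if `p ^ 2 ∤`). -/
theorem locD (E : Finset ℕ) (T : ℕ) (D : Finset ℕ) (hD : D ⊆ PE E T) (n : ℕ) (hn : ∀ p ∈ PE E T, ¬ p ∣ n) :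
    (((cls (∏ p ∈ PE E T, p ^ 2)).filter
      (fun e => bs E T (e.1, (n : G) * e.2) ∧ ds E T (e.1, (n : G) * e.2) = D)).card : ℝ) =
      Pr E T D * (cls (∏ p ∈ PE E T, p ^ 2)).card := by
  have h1 := LocDP.main D (PE E T) (fun p hp => ⟨(mem_PE.1 hp).2.1, (mem_PE.1 hp).2.2.1⟩)
  have h2 : (∏ p ∈ PE E T, if p ∈ D then Ap p else 1 - 2 * Ap p) = Pr E T D := by
    unfold Pr
    rw [prod_ite]
    congr 1
    · apply prod_congr _ (fun _ _ => rfl)
      ext p
      rw [mem_filter]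
      exact ⟨fun h => h.2, fun h => ⟨hD h, h⟩⟩
    · apply prod_congr _ (fun _ _ => rfl)
      ext p
      rw [mem_filter, mem_sdiff]
  rw [h2] at h1
  rw [← h1]
  congr 2
  apply filter_congr
  intro e _
  rw [LocDP.bs_ds_iff E T D hD, LocDP.RC_scale D (PE E T) n
    (fun p hp => ⟨(mem_PE.1 hp).2.1, hn p hp⟩)]

end Pool.Agent.OmEq

end

/-! ### from `Lib_MP_f1a94e_eq.Rect` -/

section

/-!
# Piece RECT: base pairs with given movable primes
-/

set_option autoImplicit false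

namespace Pool.Agent.OmEq

open Finset Pool.Agent.GaussMR Pool.Agent.OmAll Filter

theorem rect_cls_pos (M : ℕ) (hM : 0 < M) : (0 : ℝ) < (cls M).card := by
  have h : (rd M (1 : G), rd M (⟨0, 1⟩ : G)) ∈ cls M := by
    apply rd_mem_cls (N := M) (e := ((1 : G), (⟨0, 1⟩ : G))) hM (dvd_refl M)
    have h1 : det (1 : G) (⟨0, 1⟩ : G) - 1 = 0 := by
      unfold det
      simp
    show (M : ℤ) ∣ det (1 : G) (⟨0, 1⟩ : G) - 1
    rw [h1]
    exact dvd_zero _
  have h2 : 0 < (cls M).card := card_pos.2 ⟨_, h⟩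
  exact_mod_cast h2

open Classical in
/-- PROOF. `eqnB` with `M = ∏_(p ∈ PE E T) p ^ 2` (coprime to `n` since `n.primeFactors ⊆ E`; positive), `P e = bs E T e ∧ ds E T e = D` (`ds_per`), and `locD`
(`p ∈ PE E T` does not divide `n`); `cls M` is nonempty (contains the class of `(1, i)`), so the quotient is `Pr E T D`. The same `κ` for all `E, T, D`. -/
theorem rect (n : ℕ) (hn : 0 < n) : ∃ κ : ℝ, 0 ≤ κ ∧ ∀ E : Finset ℕ, n.primeFactors ⊆ E → ∀ (T : ℕ) (D : Finset ℕ),
    D ⊆ PE E T → ∀ s t : ℝ, s ≤ t →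
    Tendsto (fun x : ℝ => (((EN n x).filter
      (fun e => (bs E T e ∧ ds E T e = D) ∧ s ≤ tE e ∧ tE e < t)).card : ℝ) / x) atTop
      (nhds (κ * Pr E T D * (t - s))) := by
  obtain ⟨κ, hκ, h⟩ := eqnB n hn
  refine ⟨κ, hκ, ?_⟩
  intro E hE T D hD s t hst
  have hn0 : ∀ p ∈ PE E T, ¬ p ∣ n := by
    intro p hp hd
    obtain ⟨_, h2, _, h4⟩ := mem_PE.1 hp
    exact h4 (hE (Nat.mem_primeFactors.2 ⟨h2, hd, hn.ne'⟩))
  have hM : 0 < ∏ p ∈ PE E T, p ^ 2 :=
    prod_pos (fun p hp => pow_pos (mem_PE.1 hp).2.1.pos 2)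
  have hco : (∏ p ∈ PE E T, p ^ 2).Coprime n := by
    apply Nat.Coprime.prod_left
    intro p hp
    apply Nat.Coprime.pow_left
    exact (Nat.Prime.coprime_iff_not_dvd (mem_PE.1 hp).2.1).2 (hn0 p hp)
  have h1 := h _ hM hco (fun e => bs E T e ∧ ds E T e = D) (ds_per E T D) s t hst
  have h2 := locD E T D hD n hn0
  have h3 := rect_cls_pos _ hM
  have h4 : (((cls (∏ p ∈ PE E T, p ^ 2)).filter
      (fun e => bs E T (e.1, (n : G) * e.2) ∧ ds E T (e.1, (n : G) * e.2) = D)).card : ℝ) /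
      (cls (∏ p ∈ PE E T, p ^ 2)).card = Pr E T D := by
    rw [h2, mul_div_assoc, div_self h3.ne', mul_one]
  have h5 : ∀ (f g : ℝ → ℝ) (a b : ℝ), a = b → (∀ x, f x = g x) → Tendsto f atTop (nhds a) →
      Tendsto g atTop (nhds b) := by
    rintro f g a b rfl hfg hf
    exact hf.congr hfg
  refine h5 _ _ _ _ ?_ ?_ h1
  · rw [← h4]
    congr
  · intro x
    congr

end Pool.Agent.OmEq

end

/-! ### from `Lib_MP_f1a94e_eq.TR` -/

section

/-!
# Piece TR: limits of sums over base pairs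
-/

set_option autoImplicit false

namespace Pool.Agent.OmEq

open Finset Pool.Agent.GaussMR Pool.Agent.OmAll Filter

theorem tr_Ap_nonneg (p : ℕ) : 0 ≤ Ap p := by
  unfold Ap
  positivity

theorem tr_Ap_le {p : ℕ} (hp : 1 ≤ p) : 0 ≤ 1 - 2 * Ap p := by
  have h1 : (1 : ℝ) ≤ p := by exact_mod_cast hp
  unfold Ap
  rw [sub_nonneg, ← mul_div_assoc, div_le_one (by positivity)]
  nlinarith [mul_nonneg (sub_nonneg.2 h1) (sub_nonneg.2 h1),
    mul_nonneg (mul_nonneg (sub_nonneg.2 h1) (sub_nonneg.2 h1)) (sub_nonneg.2 h1)]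

theorem tr_Pr_nonneg (E : Finset ℕ) (T : ℕ) (D : Finset ℕ) : 0 ≤ Pr E T D := by
  unfold Pr
  refine mul_nonneg (prod_nonneg fun p _ => tr_Ap_nonneg p) (prod_nonneg fun p hp => ?_)
  exact tr_Ap_le (mem_PE.1 (mem_sdiff.1 hp).1).2.1.one_lt.le

open Classical in
/-- PROOF. The base pairs are split by `D = ds E T e ⊆ PE E T`: the sum is `∑_(D ∈ (PE E T).powerset)` of the sum over
`S_D (b X) = (EN n (b X)).filter (bs E T e ∧ ds E T e = D)` of `Ψ D (mE e / X) (tE e)`; apply `riem2` (`A e = En n e ∧ bs E T e ∧ ds E T e = D`, `mem_EN`, `mE_pos`) with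
`c = κ * Pr E T D` (`rect`; `0 ≤ Pr`: `0 ≤ Ap p ≤ 1/2` for `p ≥ 5`, `Ap p = 2 (p-1)^2/(p^2 (p+1))`) and add up. -/
theorem tr (n : ℕ) (hn : 0 < n) : ∃ κ : ℝ, 0 ≤ κ ∧ ∀ E : Finset ℕ, n.primeFactors ⊆ E → ∀ (T : ℕ)
    (Ψ : Finset ℕ → ℝ → ℝ → ℝ), (∀ D, Continuous (Function.uncurry (Ψ D))) →
    (∀ D, HasCompactSupport (Function.uncurry (Ψ D))) → (∀ D y u, y ≤ 0 → Ψ D y u = 0) →
    ∀ b : ℝ, (∀ D y u, b ≤ y → Ψ D y u = 0) →
    Tendsto (fun X : ℝ => (∑ e ∈ (EN n (b * X)).filter (bs E T), Ψ (ds E T e) (mE e / X) (tE e)) / X) atTop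
      (nhds (κ * ∑ D ∈ (PE E T).powerset, Pr E T D * ∫ y, ∫ u, Ψ D y u)) := by
  obtain ⟨κ, hκ0, hrect⟩ := rect n hn
  refine ⟨κ, hκ0, ?_⟩
  intro E hE T Ψ hcont hcs hneg b hb
  have key : ∀ D ∈ (PE E T).powerset, Tendsto (fun X : ℝ =>
      (∑ e ∈ (EN n (b * X)).filter (fun e => bs E T e ∧ ds E T e = D),
        Ψ D (mE e / X) (tE e)) / X) atTop
      (nhds (κ * Pr E T D * ∫ y, ∫ u, Ψ D y u)) := by
    intro D hD
    refine riem2 (fun e => En n e ∧ (bs E T e ∧ ds E T e = D))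
      (fun x => (EN n x).filter (fun e => bs E T e ∧ ds E T e = D)) mE tE ?_ ?_
      (κ * Pr E T D) (mul_nonneg hκ0 (tr_Pr_nonneg E T D)) ?_ (Ψ D) (hcont D) (hcs D) (hneg D) b
      (hb D)
    · intro x e
      rw [mem_filter, mem_EN hn]
      tauto
    · intro e he
      exact mE_pos he.1
    · intro s u hsu
      refine (hrect E hE T D (mem_powerset.1 hD) s u hsu).congr fun x => ?_
      rw [filter_filter]
  have hsum := tendsto_finsetSum _ key
  have e1 : ∑ D ∈ (PE E T).powerset, κ * Pr E T D * ∫ y, ∫ u, Ψ D y u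
      = κ * ∑ D ∈ (PE E T).powerset, Pr E T D * ∫ y, ∫ u, Ψ D y u := by
    rw [mul_sum]
    exact sum_congr rfl fun D _ => by rw [mul_assoc]
  rw [e1] at hsum
  refine hsum.congr fun X => ?_
  rw [← sum_div]
  congr 1
  rw [← sum_fiberwise_of_maps_to (s := (EN n (b * X)).filter (bs E T)) (t := (PE E T).powerset)
    (g := ds E T) (fun e _ => mem_powerset.2 (by unfold ds; exact filter_subset _ _))]
  refine sum_congr rfl fun D _ => ?_
  rw [filter_filter]
  refine sum_congr rfl fun e he => ?_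
  rw [(mem_filter.1 he).2.2]

end Pool.Agent.OmEq

end

/-! ### from `Lib_MP_f1a94e_eq.CnB` -/

section

/-!
# Piece CNB: the integrals of the weights
-/

set_option autoImplicit false

namespace Pool.Agent.OmEq

open Finset MeasureTheory Filter

theorem cnb_r0_cont : Continuous r0 := by
  unfold r0
  exact continuous_const.max (continuous_const.sub
    (((continuous_const.mul continuous_id).sub continuous_const).abs))

theorem cnb_r0_nn (u : ℝ) : 0 ≤ r0 u := le_max_left _ _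

theorem cnb_r0_le (u : ℝ) : r0 u ≤ 1 := by
  unfold r0
  exact max_le zero_le_one (by linarith [abs_nonneg (2 * u - 1)])

theorem cnb_r0_ne {u : ℝ} (h : r0 u ≠ 0) : 0 < u ∧ u < 1 := by
  unfold r0 at h
  have h1 : 0 < 1 - |2 * u - 1| := by
    by_contra h2
    exact h (max_eq_left (not_lt.1 h2))
  have h3 : |2 * u - 1| < 1 := by linarith
  rw [abs_lt] at h3
  constructor <;> linarith [h3.1, h3.2]

theorem cnb_ww (s : ℝ) : ww s = ∫ u in (0:ℝ)..1, r0 u * r0 (u - s) := by
  unfold ww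
  symm
  apply intervalIntegral.integral_eq_integral_of_support_subset
  intro u hu
  rw [Function.mem_support] at hu
  have h1 := cnb_r0_ne (left_ne_zero_of_mul hu)
  exact ⟨h1.1, h1.2.le⟩

/-- PROOF. `r0` is continuous, `0 ≤ r0 ≤ 1`, supported in `[0, 1]`; continuity of the parametric integral (`continuous_parametric_integral_of_continuous` or dominated convergence, the integral is over `[0, 1]`). -/
theorem ww_props : Continuous ww ∧ (∀ s, 0 ≤ ww s) ∧ (∀ s, ww s ≤ 1) ∧ ∀ s, 1 ≤ |s| → ww s = 0 := by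
  refine ⟨?_, ?_, ?_, ?_⟩
  · have h1 : ww = fun s => ∫ u in (0:ℝ)..1, r0 u * r0 (u - s) := funext cnb_ww
    rw [h1]
    apply intervalIntegral.continuous_parametric_intervalIntegral_of_continuous'
    have h2 := cnb_r0_cont
    exact (h2.comp continuous_snd).mul (h2.comp (continuous_snd.sub continuous_fst))
  · intro s
    unfold ww
    exact integral_nonneg fun u => mul_nonneg (cnb_r0_nn _) (cnb_r0_nn _)
  · intro s
    rw [cnb_ww]
    have h1 := intervalIntegral.norm_integral_le_of_norm_le_const (a := 0) (b := 1) (C := 1)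
      (f := fun u => r0 u * r0 (u - s)) (by
        intro u _
        rw [Real.norm_eq_abs, abs_of_nonneg (mul_nonneg (cnb_r0_nn _) (cnb_r0_nn _))]
        exact mul_le_one₀ (cnb_r0_le _) (cnb_r0_nn _) (cnb_r0_le _))
    rw [sub_zero, abs_one, mul_one] at h1
    exact (le_abs_self _).trans h1
  · intro s hs
    unfold ww
    have h1 : ∀ u, r0 u * r0 (u - s) = 0 := by
      intro u
      by_contra h
      have h2 := cnb_r0_ne (left_ne_zero_of_mul h)
      have h3 := cnb_r0_ne (right_ne_zero_of_mul h)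
      rcases le_abs.1 hs with h4 | h4
      · linarith [h2.2, h3.1]
      · linarith [h2.1, h3.2]
    simp [h1]

theorem cnb_rho (J N : ℕ) (r : ℝ) : rho J N r = r0 ((r - J) / N) := by
  unfold rho r0
  rw [mul_div_assoc]

theorem cnb_rho_le (J N : ℕ) (r : ℝ) : rho J N r ≤ 1 := by
  rw [cnb_rho]
  exact cnb_r0_le _

/-- the integral of the product of two triangles -/
theorem cnb_int (J N n : ℕ) (hN : 1 ≤ N) :
    ∫ r in ((J : ℝ) + n)..(J + N + n), rho J N r * rho J N (r - n) = N * ww ((n : ℝ) / N) := by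
  have hN0 : (0 : ℝ) < N := by exact_mod_cast hN
  have h1 : ∫ r in ((J : ℝ) + n)..(J + N + n), rho J N r * rho J N (r - n) =
      ∫ r, rho J N r * rho J N (r - n) := by
    apply intervalIntegral.integral_eq_integral_of_support_subset
    intro r hr
    rw [Function.mem_support] at hr
    have h2 := apxn_rho_ne hN (right_ne_zero_of_mul hr)
    constructor
    · linarith [h2.1]
    · linarith [h2.2]
  rw [h1]
  unfold ww
  have h3 : ∀ r : ℝ, rho J N r * rho J N (r - n) =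
      (fun u => r0 u * r0 (u - n / N)) ((r - J) / N) := by
    intro r
    rw [cnb_rho, cnb_rho]
    simp only
    congr 2
    ring
  simp_rw [h3]
  have h4 := integral_sub_right_eq_self (μ := volume)
    (fun r : ℝ => (fun u => r0 u * r0 (u - n / N)) (r / N)) (J : ℝ)
  rw [h4, Measure.integral_comp_div (fun u => r0 u * r0 (u - n / N)) (N : ℝ), abs_of_pos hN0,
    smul_eq_mul]

/-- the substitution -/
theorem cnb_sub (h : ℝ → ℝ) (h1 h2 : ℝ) (hh : HF h h1 h2) (J N n : ℕ) (hJ : 1 ≤ J) (hN : 1 ≤ N)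
    (hn : 1 ≤ n) (y : ℝ) :
    ∫ t, WN h J N n y t = ((∫ r in ((J : ℝ) + n)..(J + N + n),
      2 * n / (r * (r - n)) * (h (y / (r * (r - n))) ^ 2 * (rho J N r * rho J N (r - n))) : ℝ) : ℂ) := by
  have hN0 : (0 : ℝ) < N := by exact_mod_cast hN
  have hJ0 : (0 : ℝ) < J := by exact_mod_cast hJ
  have hn0 : (0 : ℝ) < n := by exact_mod_cast hn
  obtain ⟨T, hT⟩ : ∃ T : ℝ → ℝ, T = fun r => 2 * (Real.log (r - n) - Real.log r) := ⟨_, rfl⟩
  obtain ⟨g, hg⟩ : ∃ g : ℝ → ℝ, g = fun t => h (y * (1 - Real.exp (t / 2)) ^ 2 / (n ^ 2 * Real.exp (t / 2))) ^ 2 *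
    rho J N (n / (1 - Real.exp (t / 2))) * rho J N (n * Real.exp (t / 2) / (1 - Real.exp (t / 2))) :=
    ⟨_, rfl⟩
  have hTexp : ∀ r : ℝ, n < r → Real.exp (T r / 2) = (r - n) / r := by
    intro r hr
    rw [hT]
    simp only
    rw [mul_div_cancel_left₀ _ (two_ne_zero), Real.exp_sub, Real.exp_log (by linarith),
      Real.exp_log (by linarith)]
  have hTneg : ∀ r : ℝ, n < r → T r < 0 := by
    intro r hr
    have h3 := hTexp r hr
    have h4 : (r - n) / r < 1 := by rw [div_lt_one (by linarith)]; linarith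
    rw [← h3, Real.exp_lt_one_iff] at h4
    linarith
  have hab : (J : ℝ) + n ≤ J + N + n := by linarith
  -- the integral over the line is the integral over an interval
  have e1 : ∫ t, WN h J N n y t = ∫ t in (T (J + n))..(T (J + N + n)), WN h J N n y t := by
    symm
    apply intervalIntegral.integral_eq_integral_of_support_subset
    intro t ht
    rw [Function.mem_support] at ht
    unfold WN at ht
    split_ifs at ht with ht0
    · have hx0 := Real.exp_pos (t / 2)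
      have hx1 : Real.exp (t / 2) < 1 := by
        rw [Real.exp_lt_one_iff]
        linarith
      have h3 : h (y * (1 - Real.exp (t / 2)) ^ 2 / (n ^ 2 * Real.exp (t / 2))) ^ 2 *
          rho J N (n / (1 - Real.exp (t / 2))) *
          rho J N (n * Real.exp (t / 2) / (1 - Real.exp (t / 2))) ≠ 0 := by exact_mod_cast ht
      have h4 := apxn_rho_ne hN (right_ne_zero_of_mul h3)
      obtain ⟨x, hx⟩ : ∃ x, x = Real.exp (t / 2) := ⟨_, rfl⟩
      rw [← hx] at h4 hx0 hx1
      have hx2 : 0 < 1 - x := by linarith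
      rw [lt_div_iff₀ hx2, div_lt_iff₀ hx2] at h4
      constructor
      · have h5 : Real.exp (T (J + n) / 2) < Real.exp (t / 2) := by
          rw [hTexp _ (by linarith), ← hx, add_sub_cancel_right, div_lt_iff₀ (by linarith)]
          linarith [h4.1]
        have := Real.exp_lt_exp.1 h5
        linarith
      · have h5 : Real.exp (t / 2) < Real.exp (T (J + N + n) / 2) := by
          rw [hTexp _ (by linarith), ← hx, add_sub_cancel_right, lt_div_iff₀ (by linarith)]
          linarith [h4.2]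
        have := Real.exp_lt_exp.1 h5
        linarith
    · exact absurd rfl ht
  have hmem : ∀ r ∈ Set.uIcc ((J : ℝ) + n) (J + N + n), (n : ℝ) < r := by
    intro r hr
    rw [Set.uIcc_of_le hab] at hr
    linarith [hr.1]
  have hderiv : ∀ r : ℝ, (n : ℝ) < r → HasDerivAt T (2 * n / (r * (r - n))) r := by
    intro r hr
    have d1 : HasDerivAt (fun r : ℝ => Real.log (r - n)) (1 / (r - n)) r := by
      have := ((hasDerivAt_id r).sub_const (n : ℝ)).log (by simp only [id]; linarith)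
      simpa using this
    have d2 : HasDerivAt (fun r : ℝ => Real.log r) r⁻¹ r := Real.hasDerivAt_log (by linarith)
    have d3 := (d1.sub d2).const_mul 2
    rw [hT]
    refine d3.congr_deriv ?_
    have p1 : r - n ≠ 0 := by linarith
    have p2 : r ≠ 0 := by linarith
    field_simp
    ring
  have e2 : ∫ t in (T (J + n))..(T (J + N + n)), WN h J N n y t =
      ((∫ t in (T (J + n))..(T (J + N + n)), g t : ℝ) : ℂ) := by
    rw [← intervalIntegral.integral_ofReal]
    apply intervalIntegral.integral_congr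
    intro t ht
    have ht1 : t < 0 := by
      have h3 : T (J + n) ≤ T (J + N + n) := by
        have h4 : Real.exp (T (J + n) / 2) ≤ Real.exp (T (J + N + n) / 2) := by
          rw [hTexp _ (by linarith only [hJ0]), hTexp _ (by linarith only [hJ0, hN0]),
            div_le_div_iff₀ (by linarith only [hJ0, hn0]) (by linarith only [hJ0, hN0, hn0])]
          have hNn := mul_pos hN0 hn0
          linarith only [hNn]
        have := Real.exp_le_exp.1 h4
        linarith
      rw [Set.uIcc_of_le h3] at ht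
      exact ht.2.trans_lt (hTneg _ (by linarith))
    simp only [WN, if_pos ht1, hg]
  have e3 : ∫ r in ((J : ℝ) + n)..(J + N + n), (2 * n / (r * (r - n))) • (g ∘ T) r =
      ∫ t in (T (J + n))..(T (J + N + n)), g t := by
    apply intervalIntegral.integral_comp_smul_deriv''
    · intro r hr
      exact (hderiv r (hmem r hr)).continuousAt.continuousWithinAt
    · intro r hr
      apply (hderiv r _).hasDerivWithinAt
      rw [min_eq_left hab] at hr
      linarith [hr.1]
    · apply ContinuousOn.div continuousOn_const (by fun_prop)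
      intro r hr
      have := hmem r hr
      have p1 : r - n ≠ 0 := by linarith
      have p2 : r ≠ 0 := by linarith
      exact mul_ne_zero p2 p1
    · rintro t ⟨r, hr, rfl⟩
      apply ContinuousAt.continuousWithinAt
      have hr1 := hmem r hr
      have hx : Real.exp (T r / 2) ≠ 0 := (Real.exp_pos _).ne'
      have hx1 : 1 - Real.exp (T r / 2) ≠ 0 := by
        have : Real.exp (T r / 2) < 1 := by
          rw [Real.exp_lt_one_iff]
          linarith [hTneg r hr1]
        linarith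
      have hce : ContinuousAt (fun t : ℝ => Real.exp (t / 2)) (T r) := by fun_prop
      rw [hg]
      apply ContinuousAt.mul
      · apply ContinuousAt.mul
        · apply ContinuousAt.pow
          apply (hh.cont.continuousAt).comp
          exact (continuousAt_const.mul ((continuousAt_const.sub hce).pow 2)).div
            (continuousAt_const.mul hce) (mul_ne_zero (by positivity) hx)
        · apply ((apxn_rho_cont J N).continuousAt).comp
          exact continuousAt_const.div (continuousAt_const.sub hce) hx1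
      · apply ((apxn_rho_cont J N).continuousAt).comp
        exact (continuousAt_const.mul hce).div (continuousAt_const.sub hce) hx1
  rw [e1, e2, ← e3]
  congr 1
  apply intervalIntegral.integral_congr
  intro r hr
  have hr1 := hmem r hr
  have p1 : r - n ≠ 0 := by linarith
  have p2 : r ≠ 0 := by linarith
  simp only [Function.comp, smul_eq_mul]
  rw [hg]
  simp only
  rw [hTexp r hr1]
  have q1 : 1 - (r - n) / r = n / r := by
    field_simp
    ring
  have q2 : y * (n / r) ^ 2 / (n ^ 2 * ((r - n) / r)) = y / (r * (r - n)) := by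
    field_simp
  have q3 : (n : ℝ) / (n / r) = r := by field_simp
  have q4 : n * ((r - n) / r) / (n / r) = r - n := by field_simp
  rw [q1, q2, q3, q4, mul_assoc (h _ ^ 2)]

/-- the pointwise estimate -/
theorem cnb_pt (h : ℝ → ℝ) (h1 h2 : ℝ) (hh : HF h h1 h2) (N : ℕ) (hN : 1 ≤ N) (η : ℝ) (hη : 0 < η) :
    ∃ J0 : ℕ, 1 ≤ J0 ∧ ∀ J : ℕ, J0 ≤ J → ∀ q : ℝ, (J : ℝ) ^ 2 ≤ q → q ≤ ((J : ℝ) + N) ^ 2 → ∀ y : ℝ,
      |2 / q * h (y / q) ^ 2 - 2 / (J : ℝ) ^ 2 * h (y / (J : ℝ) ^ 2) ^ 2| ≤ η / (J : ℝ) ^ 2 := by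
  have hN0 : (0 : ℝ) < N := by exact_mod_cast hN
  have hcs : HasCompactSupport h := by
    apply HasCompactSupport.of_support_subset_isCompact (isCompact_Icc (a := h1) (b := h2))
    intro y hy
    rw [Function.mem_support] at hy
    constructor
    · by_contra hc
      exact hy (hh.lo y (not_le.1 hc).le)
    · by_contra hc
      exact hy (hh.hi y (not_le.1 hc).le)
  have huc : UniformContinuous h := hcs.uniformContinuous_of_continuous hh.cont
  obtain ⟨δ, hδ, hδ'⟩ := Metric.uniformContinuous_iff.1 huc (η / 8) (by positivity)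
  have hh2 : 0 < h2 := lt_of_lt_of_le one_pos hh.one
  obtain ⟨J0, hJ0⟩ := exists_nat_gt (max (N : ℝ) (max (12 * N / η) (12 * h2 * N / δ)))
  have k1 : (N : ℝ) < J0 := (le_max_left _ _).trans_lt hJ0
  have k2 : 12 * N / η < J0 := ((le_max_left _ _).trans (le_max_right _ _)).trans_lt hJ0
  have k3 : 12 * h2 * N / δ < J0 := ((le_max_right _ _).trans (le_max_right _ _)).trans_lt hJ0
  refine ⟨J0, ?_, fun J hJ q hq1 hq2 y => ?_⟩
  · have : (0 : ℝ) < J0 := hN0.trans k1
    exact_mod_cast this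
  have hJJ : (J0 : ℝ) ≤ J := by exact_mod_cast hJ
  have hNJ : (N : ℝ) < J := k1.trans_le hJJ
  have hJ0' : (0 : ℝ) < J := hN0.trans hNJ
  have hJ2 : (0 : ℝ) < (J : ℝ) ^ 2 := by positivity
  have hq0 : 0 < q := hJ2.trans_le hq1
  have hNNJ : (N : ℝ) * N ≤ N * J := mul_le_mul_of_nonneg_left hNJ.le hN0.le
  have hqd : q - (J : ℝ) ^ 2 ≤ 3 * N * J := by linarith only [hq2, hNNJ]
  have k4 : 12 * N / J < η := by
    rw [div_lt_iff₀ hJ0']
    rw [div_lt_iff₀ hη] at k2
    linarith only [k2, mul_le_mul_of_nonneg_left hJJ hη.le]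
  have k5 : 12 * h2 * N / J < δ := by
    rw [div_lt_iff₀ hJ0']
    rw [div_lt_iff₀ hδ] at k3
    linarith only [k3, mul_le_mul_of_nonneg_left hJJ hδ.le]
  -- the difference of the values
  have hab : |h (y / q) - h (y / (J : ℝ) ^ 2)| ≤ η / 8 := by
    by_cases hz : h (y / q) = 0 ∧ h (y / (J : ℝ) ^ 2) = 0
    · rw [hz.1, hz.2, sub_zero, abs_zero]
      positivity
    · have hy0 : 0 < y := by
        by_contra hc
        push Not at hc
        apply hz
        constructor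
        · exact hh.lo _ ((div_nonpos_of_nonpos_of_nonneg hc hq0.le).trans hh.pos.le)
        · exact hh.lo _ ((div_nonpos_of_nonpos_of_nonneg hc hJ2.le).trans hh.pos.le)
      have hyle : y ≤ h2 * ((J : ℝ) + N) ^ 2 := by
        by_contra hc
        push Not at hc
        apply hz
        constructor
        · apply hh.hi
          rw [le_div_iff₀ hq0]
          exact (mul_le_mul_of_nonneg_left hq2 hh2.le).trans hc.le
        · apply hh.hi
          rw [le_div_iff₀ hJ2]
          exact (mul_le_mul_of_nonneg_left (hq1.trans hq2) hh2.le).trans hc.le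
      have hy4 : y ≤ 4 * h2 * (J : ℝ) ^ 2 := by
        have hNJJ : (N : ℝ) * J ≤ J * J := mul_le_mul_of_nonneg_right hNJ.le hJ0'.le
        have : ((J : ℝ) + N) ^ 2 ≤ 4 * (J : ℝ) ^ 2 := by linarith only [hNJJ, hNNJ]
        linarith only [mul_le_mul_of_nonneg_left this hh2.le, hyle]
      have hd : dist (y / q) (y / (J : ℝ) ^ 2) < δ := by
        rw [dist_comm, Real.dist_eq]
        have e1 : y / (J : ℝ) ^ 2 - y / q = y * (q - (J : ℝ) ^ 2) / ((J : ℝ) ^ 2 * q) := by
          field_simp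
        rw [e1, abs_of_nonneg (div_nonneg (mul_nonneg hy0.le (by linarith)) (by positivity))]
        refine lt_of_le_of_lt ?_ k5
        rw [div_le_div_iff₀ (by positivity) hJ0']
        have e2 : y * (q - (J : ℝ) ^ 2) ≤ 4 * h2 * (J : ℝ) ^ 2 * (3 * N * J) :=
          mul_le_mul hy4 hqd (by linarith) (by positivity)
        have e3 : 12 * h2 * N * ((J : ℝ) ^ 2 * (J : ℝ) ^ 2) ≤ 12 * h2 * N * ((J : ℝ) ^ 2 * q) := by
          apply mul_le_mul_of_nonneg_left _ (by positivity)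
          exact mul_le_mul_of_nonneg_left hq1 hJ2.le
        calc y * (q - (J : ℝ) ^ 2) * J ≤ 4 * h2 * (J : ℝ) ^ 2 * (3 * N * J) * J :=
              mul_le_mul_of_nonneg_right e2 hJ0'.le
          _ = 12 * h2 * N * ((J : ℝ) ^ 2 * (J : ℝ) ^ 2) := by ring
          _ ≤ _ := e3
      have := hδ' hd
      rw [Real.dist_eq] at this
      exact this.le
  obtain ⟨a, ha⟩ : ∃ a, a = h (y / q) := ⟨_, rfl⟩
  obtain ⟨b, hb⟩ : ∃ b, b = h (y / (J : ℝ) ^ 2) := ⟨_, rfl⟩
  have ha0 : 0 ≤ a := by rw [ha]; exact hh.nn _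
  have ha1 : a ≤ 1 := by rw [ha]; exact hh.le _
  have hb0 : 0 ≤ b := by rw [hb]; exact hh.nn _
  have hb1 : b ≤ 1 := by rw [hb]; exact hh.le _
  rw [← ha, ← hb] at hab ⊢
  have e1 : 2 / q * a ^ 2 - 2 / (J : ℝ) ^ 2 * b ^ 2 =
      (2 / (J : ℝ) ^ 2) * (-((q - (J : ℝ) ^ 2) / q * a ^ 2) + (a - b) * (a + b)) := by
    field_simp
    ring
  rw [e1, abs_mul, abs_of_pos (by positivity : 0 < 2 / (J : ℝ) ^ 2)]
  have e2 : |-((q - (J : ℝ) ^ 2) / q * a ^ 2) + (a - b) * (a + b)| ≤ η / 2 := by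
    refine (abs_add_le _ _).trans ?_
    rw [abs_neg, abs_mul (a - b)]
    have e3 : |(q - (J : ℝ) ^ 2) / q * a ^ 2| ≤ η / 4 := by
      have e4 : 0 ≤ (q - (J : ℝ) ^ 2) / q := div_nonneg (by linarith) hq0.le
      rw [abs_of_nonneg (mul_nonneg e4 (sq_nonneg _))]
      have e5 : (q - (J : ℝ) ^ 2) / q ≤ 3 * N / J := by
        rw [div_le_div_iff₀ hq0 hJ0']
        have e51 := mul_le_mul_of_nonneg_right hqd hJ0'.le
        have e52 := mul_le_mul_of_nonneg_left hq1 (mul_nonneg zero_le_three hN0.le)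
        linarith only [e51, e52]
      have e6 : 3 * N / J < η / 4 := by
        have : 3 * (N : ℝ) / J = (12 * N / J) / 4 := by ring
        rw [this]
        linarith
      have e7 : a ^ 2 ≤ 1 := pow_le_one₀ ha0 ha1
      have e71 := mul_le_mul_of_nonneg_left e7 e4
      linarith only [e71, e5, e6]
    have e8 : |a + b| ≤ 2 := by rw [abs_of_nonneg (by linarith)]; linarith
    have e9 : |a - b| * |a + b| ≤ η / 8 * 2 := mul_le_mul hab e8 (abs_nonneg _) (by positivity)
    linarith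
  calc 2 / (J : ℝ) ^ 2 * _ ≤ 2 / (J : ℝ) ^ 2 * (η / 2) := mul_le_mul_of_nonneg_left e2 (by positivity)
    _ = η / (J : ℝ) ^ 2 := by ring

/-- PROOF. Substitute `r = n / (1 - exp (t/2))`, i.e. `exp (t/2) = (r - n)/r`, `dt = 2 n dr / (r (r - n))`, `r ∈ (n, ∞)`:
`∫ t, WN h J N n y t = ∫ r in J..(J+N), h (y / (r (r - n)))^2 rho J N r rho J N (r - n) * (2 n / (r (r - n)))` (`r > n + J`-part only; `y (1-x)^2/(n^2 x) = y / (r (r-n))`, `n x/(1-x) = r - n`; it is convenient to restrict to a compact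
interval of `t < 0` that contains the support and use the interval substitution). Also `∫ r, rho J N r rho J N (r - n) = N ww (n/N)` (`rho J N r = r0 ((r - J)/N)`). For `J ≤ r - n`, `r ≤ J + N`:
`|1/(r (r-n)) - 1/J^2| ≤ 2 N/J^3`, and `|h (y/(r (r-n)))^2 - h (y/J^2)^2| ≤ 2 |h (..) - h (..)|`, where, if not both vanish, `y ≤ h2 (J + N)^2`, so the arguments differ by at most `8 h2 N/J` if `J ≥ N`; uniform continuity of `h`. So the error is at most
`η n N / J^2` for `J ≥ J0(N, η)`, for all `y` and all `n ≤ N`. -/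
theorem cnB (h : ℝ → ℝ) (h1 h2 : ℝ) (hh : HF h h1 h2) (N : ℕ) (hN : 1 ≤ N) (η : ℝ) (hη : 0 < η) :
    ∃ J0 : ℕ, 1 ≤ J0 ∧ ∀ J : ℕ, J0 ≤ J → ∀ n : ℕ, 1 ≤ n → n ≤ N → ∀ y : ℝ,
      ‖(∫ t, WN h J N n y t) - ((2 * n * N / (J : ℝ) ^ 2 * h (y / (J : ℝ) ^ 2) ^ 2 * ww ((n : ℝ) / N) : ℝ) : ℂ)‖ ≤
        η * (n * N / (J : ℝ) ^ 2) := by
  have hN0 : (0 : ℝ) < N := by exact_mod_cast hN
  obtain ⟨J0, hJ0, hpt⟩ := cnb_pt h h1 h2 hh N hN η hη
  refine ⟨J0, hJ0, fun J hJ n hn hnN y => ?_⟩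
  have hJ1 : 1 ≤ J := hJ0.trans hJ
  have hJ0' : (0 : ℝ) < J := by exact_mod_cast hJ1
  have hn0 : (0 : ℝ) < n := by exact_mod_cast hn
  rw [cnb_sub h h1 h2 hh J N n hJ1 hN hn y, ← Complex.ofReal_sub, Complex.norm_real, Real.norm_eq_abs]
  have hab : (J : ℝ) + n ≤ J + N + n := by linarith
  have hmem : ∀ r ∈ Set.uIcc ((J : ℝ) + n) (J + N + n), (J : ℝ) + n ≤ r := by
    intro r hr
    rw [Set.uIcc_of_le hab] at hr
    exact hr.1
  have hcr := apxn_rho_cont J N
  -- continuity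
  have hc1 : ContinuousOn (fun r : ℝ => 2 * n / (r * (r - n)) *
      (h (y / (r * (r - n))) ^ 2 * (rho J N r * rho J N (r - n))))
      (Set.uIcc ((J : ℝ) + n) (J + N + n)) := by
    have hne : ∀ r ∈ Set.uIcc ((J : ℝ) + n) (J + N + n), r * (r - n) ≠ 0 := by
      intro r hr
      have := hmem r hr
      exact mul_ne_zero (by linarith) (by linarith)
    apply ContinuousOn.mul
    · exact ContinuousOn.div continuousOn_const (by fun_prop) hne
    · apply ContinuousOn.mul
      · apply ContinuousOn.pow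
        exact hh.cont.comp_continuousOn (ContinuousOn.div continuousOn_const (by fun_prop) hne)
      · exact (hcr.mul (hcr.comp (continuous_id.sub continuous_const))).continuousOn
  have hc2 : Continuous (fun r : ℝ => rho J N r * rho J N (r - n)) :=
    hcr.mul (hcr.comp (continuous_id.sub continuous_const))
  have e1 : 2 * n * N / (J : ℝ) ^ 2 * h (y / (J : ℝ) ^ 2) ^ 2 * ww ((n : ℝ) / N) =
      ∫ r in ((J : ℝ) + n)..(J + N + n), 2 * n / (J : ℝ) ^ 2 * h (y / (J : ℝ) ^ 2) ^ 2 *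
        (rho J N r * rho J N (r - n)) := by
    rw [intervalIntegral.integral_const_mul, cnb_int J N n hN]
    ring
  have hc3 : Continuous (fun r : ℝ => 2 * n / (J : ℝ) ^ 2 * h (y / (J : ℝ) ^ 2) ^ 2 *
      (rho J N r * rho J N (r - n))) := continuous_const.mul hc2
  rw [e1, ← intervalIntegral.integral_sub hc1.intervalIntegrable (hc3.intervalIntegrable _ _)]
  have e2 : ∀ r ∈ Set.uIoc ((J : ℝ) + n) (J + N + n),
      ‖2 * n / (r * (r - n)) * (h (y / (r * (r - n))) ^ 2 * (rho J N r * rho J N (r - n))) -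
        2 * n / (J : ℝ) ^ 2 * h (y / (J : ℝ) ^ 2) ^ 2 * (rho J N r * rho J N (r - n))‖ ≤
      η * (n / (J : ℝ) ^ 2) := by
    intro r hr
    rw [Set.uIoc_of_le hab] at hr
    have e3 : 2 * n / (r * (r - n)) * (h (y / (r * (r - n))) ^ 2 * (rho J N r * rho J N (r - n))) -
        2 * n / (J : ℝ) ^ 2 * h (y / (J : ℝ) ^ 2) ^ 2 * (rho J N r * rho J N (r - n)) =
        n * (2 / (r * (r - n)) * h (y / (r * (r - n))) ^ 2 -
          2 / (J : ℝ) ^ 2 * h (y / (J : ℝ) ^ 2) ^ 2) * (rho J N r * rho J N (r - n)) := by ring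
    rw [e3, Real.norm_eq_abs, abs_mul, abs_mul, abs_of_pos hn0]
    by_cases hz : rho J N r * rho J N (r - n) = 0
    · rw [hz, abs_zero, mul_zero]
      positivity
    · have e4 := apxn_rho_ne hN (left_ne_zero_of_mul hz)
      have e5 := apxn_rho_ne hN (right_ne_zero_of_mul hz)
      have e61 : (J : ℝ) ≤ r - n := by linarith only [e5.1]
      have e62 : r ≤ (J : ℝ) + N := e4.2.le
      have e63 : (J : ℝ) ^ 2 ≤ r * (r - n) := by
        rw [sq]
        exact mul_le_mul (e61.trans (sub_le_self r hn0.le)) e61 hJ0'.le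
          (hJ0'.le.trans (e61.trans (sub_le_self r hn0.le)))
      have e64 : r * (r - n) ≤ ((J : ℝ) + N) ^ 2 := by
        rw [sq]
        exact mul_le_mul e62 ((sub_le_self r hn0.le).trans e62) (hJ0'.le.trans e61)
          (add_nonneg hJ0'.le hN0.le)
      have e6 := hpt J hJ (r * (r - n)) e63 e64 y
      have e7 : |rho J N r * rho J N (r - n)| ≤ 1 := by
        rw [abs_of_nonneg (mul_nonneg (apxn_rho_nn _ _ _) (apxn_rho_nn _ _ _))]
        exact mul_le_one₀ (cnb_rho_le _ _ _) (apxn_rho_nn _ _ _) (cnb_rho_le _ _ _)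
      calc n * |2 / (r * (r - n)) * h (y / (r * (r - n))) ^ 2 -
          2 / (J : ℝ) ^ 2 * h (y / (J : ℝ) ^ 2) ^ 2| * |rho J N r * rho J N (r - n)|
          ≤ n * (η / (J : ℝ) ^ 2) * 1 :=
            mul_le_mul (mul_le_mul_of_nonneg_left e6 hn0.le) e7 (abs_nonneg _) (by positivity)
        _ = η * (n / (J : ℝ) ^ 2) := by ring
  have e8 := intervalIntegral.norm_integral_le_of_norm_le_const e2
  rw [Real.norm_eq_abs] at e8
  refine e8.trans (le_of_eq ?_)
  rw [abs_of_nonneg (by linarith)]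
  ring

end Pool.Agent.OmEq

end

/-! ### from `Lib_MP_f1a94e_ecm.FewA` -/

section

/-!
# Piece M-FEWA: simple facts
-/

set_option autoImplicit false

namespace Pool.Agent.ECM

open Finset Pool.Agent.GaussMR Pool.Agent.GaussCM Pool.Agent.OmAll

/-- `FL χ` is completely multiplicative on the odd elements (`Ω (a b) = Ω a + Ω b` for `a, b ≠ 0`). -/
theorem cm_FL (D : ℕ) (χ : G → ℂ) (hχ : Chi D χ) : CM (FL χ) := by
  constructor
  · intro z w hz hw
    have h1 : nm z ≠ 0 := (nm_pos_of_odd hz).ne'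
    have h2 : nm w ≠ 0 := (nm_pos_of_odd hw).ne'
    simp only [FL]
    rw [nm_mul, ArithmeticFunction.cardFactors_mul h1 h2, hχ.mul, pow_add]
    ring
  · intro z _
    simp only [FL]
    rw [norm_mul, norm_pow, norm_neg, norm_one, one_pow, one_mul]
    exact hχ.le z

private theorem fewA_prim_ii {z : G} (h : Prim z) : Prim (ii * z) := by
  have h1 : (ii * z).re = - z.im := by simp [ii]
  have h2 : (ii * z).im = z.re := by simp [ii]
  unfold Prim at h ⊢
  rw [h1, h2]
  exact (h.symm).neg_left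

private theorem fewA_mem_ii {X : ℝ} {z : G} (h : z ∈ V X) : ii * z ∈ V X := by
  rw [mem_V] at h ⊢
  rw [nm_mul, nm_ii, one_mul]
  exact ⟨h.1, h.2.1, fewA_prim_ii h.2.2⟩

/-- The coefficient vanishes unless `F ii * xi (-k) ii = 1`: the map `z ↦ ii * z` permutes `V X` and multiplies `F z xi (-k) z` by `F ii * xi (-k) ii`. -/
theorem fc_unit (F : G → ℂ) (hF : CM F) (X : ℝ) (k : ℤ) (h : F ii * xi (-k) ii ≠ 1) : fcC F X k = 0 := by
  have hii : Odd (nm ii) := by rw [nm_ii]; exact odd_one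
  have key : fcC F X k = (F ii * xi (-k) ii) * fcC F X k := by
    conv_lhs => unfold fcC
    unfold fcC
    rw [Finset.mul_sum]
    symm
    refine Finset.sum_bij (fun z _ => ii * z) ?_ ?_ ?_ ?_
    · intro z hz
      exact fewA_mem_ii hz
    · intro z _ w _ hzw
      have hne : ii ≠ 0 := ne_zero_of_odd hii
      exact mul_left_cancel₀ hne hzw
    · intro z hz
      refine ⟨ii * (ii * (ii * z)), fewA_mem_ii (fewA_mem_ii (fewA_mem_ii hz)), ?_⟩
      have : ii * (ii * (ii * ii)) = 1 := by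
        apply Zsqrtd.ext <;> simp [ii]
      calc ii * (ii * (ii * (ii * z))) = (ii * (ii * (ii * ii))) * z := by ring
        _ = z := by rw [this, one_mul]
    · intro z hz
      have hz' := (mem_V.1 hz).2.1
      rw [hF.mul ii z hii hz', xi_mul]
      ring
  have h2 : (1 - F ii * xi (-k) ii) * fcC F X k = 0 := by
    rw [sub_mul, one_mul, ← key, sub_self]
  rcases mul_eq_zero.1 h2 with h3 | h3
  · exact absurd (sub_eq_zero.1 h3).symm h
  · exact h3

/-- Conjugation: `F* z = F (star z)`: `fcC F* X (-k) = fcC F X k` (`star` permutes `V X`, `xi k (star z) = xi (-k) z`). -/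
theorem fc_star (F : G → ℂ) (X : ℝ) (k : ℤ) : fcC (fun z => F (star z)) X (-k) = fcC F X k := by
  unfold fcC
  refine Finset.sum_bij (fun z _ => star z) ?_ ?_ ?_ ?_
  · intro z hz
    exact mem_V_star.2 hz
  · intro z _ w _ hzw
    exact star_injective hzw
  · intro z hz
    exact ⟨star z, mem_V_star.2 hz, star_star z⟩
  · intro z hz
    rw [xi_star _ (V_ne_zero hz)]

end Pool.Agent.ECM

end

/-! ### from `Lib_MP_f1a94e_ecm.RangeA` -/

section

/-!
# Piece M-RANGE1: the deficit over a long range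
-/

set_option autoImplicit false

namespace Pool.Agent.ECM

open Finset Pool.Agent.GaussMR Pool.Agent.GaussCM Pool.Agent.OmAll

private theorem rangeA_re_le {D : ℕ} {χ : G → ℂ} (hχ : Chi D χ) (k : ℤ) {w : G} (hw : w ≠ 0) :
    0 ≤ 1 - (χ w * xi k w).re := by
  have h1 : (χ w * xi k w).re ≤ ‖χ w * xi k w‖ := Complex.re_le_norm _
  rw [norm_mul, norm_xi _ hw, mul_one] at h1
  linarith [hχ.le w]

private theorem rangeA_term {D : ℕ} {χ : G → ℂ} (hχ : Chi D χ) (k : ℤ) {P Q : ℝ} {w : G} (hw : w ∈ PP P Q) :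
    0 ≤ ((1 - (χ w * xi k w).re) + (1 - (χ (fl w) * xi k (fl w)).re)) / (nm w : ℝ) := by
  have h0 : w ≠ 0 := (PP_spl hw).prime.ne_zero
  have h1 : fl w ≠ 0 := by
    intro h
    have : nm (fl w) = 0 := by rw [h]; exact nm_zero
    rw [nm_fl] at this
    exact h0 (nm_eq_zero.1 this)
  have h2 := rangeA_re_le hχ k h0
  have h3 := rangeA_re_le hχ k h1
  positivity

/-- Iterate `deficit` over disjoint ranges: `Y_j = X^(e a^j)`, `j < J`, `J` maximal with `e a^J ≥ e'`; so `J ≥ log (e/e') / log (1/a) - 1 ≥ c' log (e/e')` for `log (e/e') ≥ L0`. In every range `|k| ≤ 2 X ≤ Y_j^A` with `A = 2 / e'`. The `PP (Y_(j+1)) (Y_j)` are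
disjoint subsets of `PP (X^e') (X^e)`, `Y_(j+1) = Y_j^a`. -/
theorem deficit_range : ∃ c L0 : ℝ, 0 < c ∧ 0 < L0 ∧ ∀ (D : ℕ) (e' e : ℝ), 0 < D → 0 < e' → e' < e → e ≤ 1 → L0 ≤ Real.log (e / e') →
    ∃ X0 : ℝ, ∀ X : ℝ, X0 ≤ X → ∀ χ : G → ℂ, Chi D χ → ∀ k : ℤ, (k ≠ 0 ∨ ¬ Pri D χ) → |(k : ℝ)| ≤ 2 * X → χ ii * xi k ii = 1 →
    c * Real.log (e / e') ≤ ∑ w ∈ PP (X ^ e') (X ^ e), ((1 - (χ w * xi k w).re) + (1 - (χ (fl w) * xi k (fl w)).re)) / (nm w : ℝ) := by
  classical
  obtain ⟨a, c, ha, ha4, hc, hdef⟩ := deficit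
  have hla : 0 < Real.log (1 / a) := by
    apply Real.log_pos
    rw [lt_div_iff₀ ha]
    linarith
  refine ⟨c / (2 * Real.log (1 / a)), 2 * Real.log (1 / a), by positivity, by positivity, ?_⟩
  intro D e' e hD he' hee he1 hL
  have he : 0 < e := he'.trans hee
  have hA : 1 ≤ 2 / e' := by
    rw [le_div_iff₀ he']
    linarith
  obtain ⟨Y0, hY0⟩ := hdef D (2 / e') hD hA
  have htend : Filter.Tendsto (fun X : ℝ => X ^ e') Filter.atTop Filter.atTop := tendsto_rpow_atTop he'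
  obtain ⟨X1, hX1⟩ := (Filter.tendsto_atTop_atTop.1 htend) Y0
  refine ⟨max X1 2, ?_⟩
  intro X hX χ hχ k hk hkX hχii
  have hXX1 : X1 ≤ X := (le_max_left _ _).trans hX
  have hX2 : (2 : ℝ) ≤ X := (le_max_right _ _).trans hX
  have hX1' : (1 : ℝ) ≤ X := by linarith
  have hX0 : (0 : ℝ) < X := by linarith
  set t : G → ℝ := fun w => ((1 - (χ w * xi k w).re) + (1 - (χ (fl w) * xi k (fl w)).re)) / (nm w : ℝ) with ht
  -- one range
  have hone : ∀ b : ℝ, e' ≤ b → c ≤ ∑ w ∈ PP (X ^ (b * a)) (X ^ b), t w := by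
    intro b hb
    have hb0 : 0 < b := he'.trans_le hb
    have h1 : X ^ (b * a) = (X ^ b) ^ a := Real.rpow_mul hX0.le _ _
    rw [h1]
    apply hY0 (X ^ b) ((hX1 X hXX1).trans (Real.rpow_le_rpow_of_exponent_le hX1' hb)) χ hχ k hk _ hχii
    calc |(k : ℝ)| ≤ 2 * X := hkX
      _ ≤ X ^ (2 : ℝ) := by
          rw [Real.rpow_two]
          nlinarith
      _ ≤ X ^ (b * (2 / e')) := by
          apply Real.rpow_le_rpow_of_exponent_le hX1'
          rw [mul_div_assoc', le_div_iff₀ he']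
          nlinarith
      _ = (X ^ b) ^ (2 / e') := Real.rpow_mul hX0.le _ _
  have hmono : ∀ J : ℕ, e' ≤ e * a ^ J → (J : ℝ) * c ≤ ∑ w ∈ PP (X ^ (e * a ^ J)) (X ^ e), t w := by
    intro J
    induction J with
    | zero =>
      intro _
      simp only [Nat.cast_zero, zero_mul]
      exact Finset.sum_nonneg fun w hw => rangeA_term hχ k hw
    | succ J ih =>
      intro hJ
      have h1 : e * a ^ (J + 1) ≤ e * a ^ J := by
        rw [pow_succ]
        have : e * (a ^ J * a) ≤ e * (a ^ J * 1) := by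
          gcongr
          linarith
        simpa using this
      have h2 : e' ≤ e * a ^ J := hJ.trans h1
      have h3 := ih h2
      have h4 := hone (e * a ^ J) h2
      have h5 : e * a ^ J * a = e * a ^ (J + 1) := by ring
      rw [h5] at h4
      have hdisj : Disjoint (PP (X ^ (e * a ^ (J + 1))) (X ^ (e * a ^ J))) (PP (X ^ (e * a ^ J)) (X ^ e)) := by
        rw [Finset.disjoint_left]
        intro w hw hw'
        have e1 := (mem_PP.1 hw).2.1
        have e2 := (mem_PP.1 hw').1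
        linarith
      have hsub : PP (X ^ (e * a ^ (J + 1))) (X ^ (e * a ^ J)) ∪ PP (X ^ (e * a ^ J)) (X ^ e) ⊆ PP (X ^ (e * a ^ (J + 1))) (X ^ e) := by
        intro w hw
        rw [Finset.mem_union] at hw
        rcases hw with hw | hw
        · rw [mem_PP] at hw ⊢
          refine ⟨hw.1, hw.2.1.trans ?_, hw.2.2⟩
          apply Real.rpow_le_rpow_of_exponent_le hX1'
          have : a ^ J ≤ 1 := pow_le_one₀ ha.le (by linarith)
          nlinarith
        · rw [mem_PP] at hw ⊢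
          exact ⟨(Real.rpow_le_rpow_of_exponent_le hX1' h1).trans_lt hw.1, hw.2⟩
      calc ((J + 1 : ℕ) : ℝ) * c = c + (J : ℝ) * c := by push_cast; ring
        _ ≤ ∑ w ∈ PP (X ^ (e * a ^ (J + 1))) (X ^ (e * a ^ J)), t w + ∑ w ∈ PP (X ^ (e * a ^ J)) (X ^ e), t w := add_le_add h4 h3
        _ = ∑ w ∈ PP (X ^ (e * a ^ (J + 1))) (X ^ (e * a ^ J)) ∪ PP (X ^ (e * a ^ J)) (X ^ e), t w := (Finset.sum_union hdisj).symm
        _ ≤ _ := Finset.sum_le_sum_of_subset_of_nonneg hsub fun w hw _ => rangeA_term hχ k hw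
  -- choice of J
  set L := Real.log (e / e') with hLdef
  set J : ℕ := ⌊L / Real.log (1 / a)⌋₊ with hJ
  have hL0 : 0 ≤ L := (by positivity : (0 : ℝ) ≤ 2 * Real.log (1 / a)).trans hL
  have hJle : (J : ℝ) ≤ L / Real.log (1 / a) := Nat.floor_le (by positivity)
  have hJge : L / Real.log (1 / a) < J + 1 := Nat.lt_floor_add_one _
  have hJe : e' ≤ e * a ^ J := by
    have h1 : (J : ℝ) * Real.log (1 / a) ≤ L := by
      rwa [le_div_iff₀ hla] at hJle
    have h2 : Real.log (1 / a) = - Real.log a := by rw [one_div, Real.log_inv]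
    rw [h2] at h1
    have h3 : Real.log (e' / e) ≤ Real.log (a ^ J) := by
      rw [Real.log_pow]
      have h4 : Real.log (e' / e) = - L := by
        rw [hLdef, ← Real.log_inv, inv_div]
      rw [h4]
      linarith
    have h4 : e' / e ≤ a ^ J := (Real.log_le_log_iff (by positivity) (by positivity)).1 h3
    rw [div_le_iff₀ he] at h4
    linarith
  have h1 := hmono J hJe
  have hsub : PP (X ^ (e * a ^ J)) (X ^ e) ⊆ PP (X ^ e') (X ^ e) := by
    intro w hw
    rw [mem_PP] at hw ⊢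
    exact ⟨(Real.rpow_le_rpow_of_exponent_le hX1' hJe).trans_lt hw.1, hw.2⟩
  have h2 : ∑ w ∈ PP (X ^ (e * a ^ J)) (X ^ e), t w ≤ ∑ w ∈ PP (X ^ e') (X ^ e), t w :=
    Finset.sum_le_sum_of_subset_of_nonneg hsub fun w hw _ => rangeA_term hχ k hw
  have h3 : c / (2 * Real.log (1 / a)) * L ≤ (J : ℝ) * c := by
    have h4 : L / Real.log (1 / a) - 1 ≤ J := by linarith
    have h5 : 1 ≤ L / (2 * Real.log (1 / a)) := by
      rw [le_div_iff₀ (by positivity), one_mul]
      exact hL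
    have h6 : L / Real.log (1 / a) = 2 * (L / (2 * Real.log (1 / a))) := by
      field_simp
    have h7 : L / (2 * Real.log (1 / a)) ≤ J := by linarith
    calc c / (2 * Real.log (1 / a)) * L = c * (L / (2 * Real.log (1 / a))) := by ring
      _ ≤ c * J := mul_le_mul_of_nonneg_left h7 hc.le
      _ = _ := by ring
  exact h3.trans (h1.trans h2)

end Pool.Agent.ECM

end

/-! ### from `Lib_MP_f1a94e_ecm.ClsChar` -/

section

/-!
# Piece M-CLSCHAR: a reduced residue class of Gaussian integers as a combination of characters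
-/

set_option autoImplicit false

namespace Pool.Agent.ECM

open Finset Pool.Agent.GaussMR Pool.Agent.GaussCM Pool.Agent.OmAll

theorem clschar_mul_star (z : G) : z * star z = ((nm z : ℕ) : G) := by
  apply Zsqrtd.ext
  · have := nm_eq z
    simp only [Zsqrtd.re_mul, Zsqrtd.re_star, Zsqrtd.im_star, Zsqrtd.re_natCast]
    rw [this]
    ring
  · simp only [Zsqrtd.im_mul, Zsqrtd.re_star, Zsqrtd.im_star, Zsqrtd.im_natCast]
    ring

theorem clschar_finite (μ : G) (hμ : μ ≠ 0) : Finite (G ⧸ Ideal.span {μ}) := by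
  have hN : 0 < nm μ := nm_pos hμ
  have hN' : (0 : ℤ) < nm μ := by exact_mod_cast hN
  let f : Fin (nm μ) × Fin (nm μ) → G ⧸ Ideal.span {μ} := fun p =>
    Ideal.Quotient.mk _ ⟨(p.1 : ℤ), (p.2 : ℤ)⟩
  apply Finite.of_surjective f
  intro x
  obtain ⟨z, rfl⟩ := Ideal.Quotient.mk_surjective x
  have h1 := Int.emod_nonneg z.re hN'.ne'
  have h2 := Int.emod_lt_of_pos z.re hN'
  have h3 := Int.emod_nonneg z.im hN'.ne'
  have h4 := Int.emod_lt_of_pos z.im hN'
  refine ⟨(⟨(z.re % nm μ).toNat, by omega⟩, ⟨(z.im % nm μ).toNat, by omega⟩), ?_⟩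
  simp only [f]
  rw [Ideal.Quotient.eq, Ideal.mem_span_singleton]
  have h5 : (((z.re % nm μ).toNat : ℕ) : ℤ) = z.re % nm μ := Int.toNat_of_nonneg h1
  have h6 : (((z.im % nm μ).toNat : ℕ) : ℤ) = z.im % nm μ := Int.toNat_of_nonneg h3
  rw [h5, h6]
  have h7 : (⟨z.re % nm μ, z.im % nm μ⟩ : G) - z =
      ((nm μ : ℕ) : G) * ⟨-(z.re / nm μ), -(z.im / nm μ)⟩ := by
    have e1 := Int.emod_def z.re (nm μ)
    have e2 := Int.emod_def z.im (nm μ)
    apply Zsqrtd.ext
    · simp only [Zsqrtd.re_sub, Zsqrtd.re_mul, Zsqrtd.re_natCast, Zsqrtd.im_natCast]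
      rw [e1]
      ring
    · simp only [Zsqrtd.im_sub, Zsqrtd.im_mul, Zsqrtd.re_natCast, Zsqrtd.im_natCast]
      rw [e2]
      ring
  rw [h7, ← clschar_mul_star, mul_assoc]
  exact dvd_mul_right _ _

theorem clschar_norm {R : Type*} [CommRing R] [Finite R] (ψ : MulChar R ℂ) (x : R) : ‖ψ x‖ ≤ 1 := by
  by_cases hx : IsUnit x
  · obtain ⟨u, rfl⟩ := hx
    have : Finite Rˣ := inferInstance
    have h1 : u ^ Nat.card Rˣ = 1 := pow_card_eq_one'
    have h2 : (ψ u) ^ Nat.card Rˣ = 1 := by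
      rw [← map_pow, ← Units.val_pow_eq_pow_val, h1, Units.val_one, map_one]
    have h3 : ‖ψ u‖ = 1 := Complex.norm_eq_one_of_pow_eq_one h2 Nat.card_pos.ne'
    exact h3.le
  · rw [ψ.map_nonunit hx, norm_zero]
    exact zero_le_one

theorem clschar_sum {R : Type*} [CommRing R] [Finite R] [Fintype (MulChar R ℂ)] (x : R) (hx : x ≠ 1) :
    ∑ ψ : MulChar R ℂ, ψ x = 0 := by
  have : Finite Rˣ := inferInstance
  have : NeZero (Monoid.exponent Rˣ : ℂ) := by
    refine ⟨?_⟩
    have := Monoid.exponent_ne_zero_of_finite (G := Rˣ)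
    exact_mod_cast this
  obtain ⟨χ, hχ⟩ := MulChar.exists_apply_ne_one_of_hasEnoughRootsOfUnity R ℂ hx
  refine eq_zero_of_mul_eq_self_left hχ ?_
  simp only [Finset.mul_sum, ← MulChar.mul_apply]
  exact Fintype.sum_bijective _ (Group.mulLeft_bijective χ) _ _ fun χ' ↦ rfl

/-- `R = G ⧸ (μ)` is a finite commutative ring (Mathlib: finiteness of `GaussianInt` modulo a nonzero ideal), `MulChar R ℂ` is finite, and for units `u` of `R`: `(1 / #Rˣ) ∑_ψ ψ(u) = 1[u = 1]` (`MulChar.exists_apply_ne_one_of_hasEnoughRootsOfUnity`, or the duality of finite abelian groups; see also the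
orthogonality relations for Dirichlet characters in Mathlib). Apply with `u = z b^(-1)`; characters vanish on non units. Number of characters = `#Rˣ` (`MulChar.card_eq_card_units_of_hasEnoughRootsOfUnity`), the coefficients are `ψ(b)⁻¹ / #Rˣ`. -/
theorem cls_char (μ : G) (hμ : μ ≠ 0) (b : G) (hb : IsCoprime b μ) : ∃ (n : ℕ) (χ : Fin n → G → ℂ) (c : Fin n → ℂ),
    (∀ i, χ i 1 = 1 ∧ (∀ z w, χ i (z * w) = χ i z * χ i w) ∧ (∀ z w, μ ∣ z - w → χ i z = χ i w) ∧ (∀ z, ‖χ i z‖ ≤ 1)) ∧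
      ∑ i, ‖c i‖ ≤ 1 ∧ (∀ z, μ ∣ z - b → ∑ i, c i * χ i z = 1) ∧ ∀ z, ¬ μ ∣ z - b → ∑ i, c i * χ i z = 0 := by
  classical
  have hfin := clschar_finite μ hμ
  obtain ⟨u, v, huv⟩ := hb
  set R := G ⧸ Ideal.span {μ} with hR
  set mk : G →+* R := Ideal.Quotient.mk (Ideal.span {μ}) with hmk
  have : Finite Rˣ := inferInstance
  have : Finite (MulChar R ℂ) := inferInstance
  have : Fintype (MulChar R ℂ) := Fintype.ofFinite _
  set n := Fintype.card (MulChar R ℂ) with hn
  have hn0 : 0 < n := Fintype.card_pos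
  have hnC : (n : ℂ) ≠ 0 := by exact_mod_cast hn0.ne'
  have e : Fin n ≃ MulChar R ℂ := (Fintype.equivFin _).symm
  have hmkμ : mk μ = 0 := by
    rw [hmk, Ideal.Quotient.eq_zero_iff_mem]
    exact Ideal.mem_span_singleton_self μ
  have hub : mk u * mk b = 1 := by
    have := congrArg mk huv
    rw [map_add, map_mul, map_mul, hmkμ, mul_zero, add_zero, map_one] at this
    exact this
  have hmkeq : ∀ z w : G, mk z = mk w ↔ μ ∣ z - w := by
    intro z w
    rw [hmk, Ideal.Quotient.eq, Ideal.mem_span_singleton]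
  have hsum : ∀ z : G, ∑ i : Fin n, ((e i) (mk u) / n) * (e i) (mk z) =
      (∑ ψ : MulChar R ℂ, ψ (mk u * mk z)) / n := by
    intro z
    rw [← e.sum_comp, Finset.sum_div]
    refine Finset.sum_congr rfl fun i _ => ?_
    rw [map_mul]
    ring
  refine ⟨n, fun i z => (e i) (mk z), fun i => (e i) (mk u) / n, ?_, ?_, ?_, ?_⟩
  · intro i
    refine ⟨by simp, fun z w => by simp, fun z w h => ?_, fun z => clschar_norm _ _⟩
    have : mk z = mk w := (hmkeq z w).mpr h
    simp only [this]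
  · have h1 : ∀ i : Fin n, ‖(e i) (mk u) / (n : ℂ)‖ ≤ 1 / n := by
      intro i
      rw [norm_div, Complex.norm_natCast]
      have hnR : (0 : ℝ) < n := by exact_mod_cast hn0
      gcongr
      exact clschar_norm _ _
    refine (Finset.sum_le_sum fun i _ => h1 i).trans ?_
    rw [Finset.sum_const, Finset.card_univ, Fintype.card_fin, nsmul_eq_mul]
    have hnR : (n : ℝ) ≠ 0 := by exact_mod_cast hn0.ne'
    rw [mul_one_div_cancel hnR]
  · intro z hz
    rw [hsum]
    have h1 : mk u * mk z = 1 := by rw [(hmkeq z b).mpr hz, hub]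
    rw [h1]
    simp only [map_one, Finset.sum_const, Finset.card_univ, nsmul_eq_mul, mul_one]
    exact div_self hnC
  · intro z hz
    rw [hsum, clschar_sum, zero_div]
    intro h1
    apply hz
    rw [← hmkeq]
    have h2 : mk b * (mk u * mk z) = mk b * 1 := by rw [h1]
    rw [← mul_assoc, mul_comm (mk b), hub, one_mul, mul_one] at h2
    exact h2

end Pool.Agent.ECM

end
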