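import Mathlib
import Pool.Agent.Lib_MP_f1a94e_m.G01
import Pool.Agent.Lib_MP_f1a94e_m.G02
import Pool.Agent.Lib_MP_f1a94e_m.G06
import Pool.Agent.Lib_MP_f1a94e_m.G07
import Pool.Agent.Lib_MP_f1a94e_m.G09
import Pool.Agent.Lib_MP_f1a94e_m.G10
import Pool.Agent.Lib_MP_f1a94e_m.G11
import Pool.Agent.Lib_MP_f1a94e_m.G14
import Pool.Agent.Lib_MP_f1a94e_m.G15
import Pool.Agent.Lib_MP_f1a94e_m.G16

/-!
# MP_f1a94e_nt: merged library part G18

Concatenation of files of the libraries `Lib_MP_f1a94e_*` (each in its own section), only to save build time.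
-/

/-! ### from `Lib_MP_f1a94e_eq.ProdB` -/

section

/-!
# Piece PRODB: bound for the products
-/

set_option autoImplicit false

namespace Pool.Agent.OmEq

open Finset Pool.Agent.OmAll MeasureTheory

/-- the phase of one prime -/
theorem prodB_re {E : Finset ℕ} {g : ℕ → ℂ}
    (hg1 : ∀ p : ℕ, p.Prime → p % 4 = 1 → p ∉ E → ‖g p‖ = 1) {T p : ℕ} (hp : p ∈ PE E T) (τ : ℝ) :
    |(g p * Complex.exp (-(2 * τ * Real.log p : ℝ) * Complex.I)).re| ≤ 1 := by
  obtain ⟨-, h2, h3, h4⟩ := mem_PE.1 hp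
  refine (Complex.abs_re_le_norm _).trans ?_
  rw [norm_mul, hg1 p h2 h3 h4, one_mul]
  have : (-(2 * τ * Real.log p : ℝ) * Complex.I : ℂ) = ((-(2 * τ * Real.log p) : ℝ) : ℂ) * Complex.I := by
    push_cast
    ring
  rw [this, Complex.norm_exp_ofReal_mul_I]

theorem prodB_five {E : Finset ℕ} {T p : ℕ} (hp : p ∈ PE E T) : 5 ≤ p := by
  obtain ⟨h1, h2, h3, h4⟩ := mem_PE.1 hp
  exact ZSm.PT_five (ZSm.mem_PT.2 ⟨h1, h2, h3⟩)

theorem prodB_Ap {p : ℕ} (hp : 5 ≤ p) : 2 * Ap p ≤ 4 / 5 := by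
  obtain ⟨-, h2, -⟩ := Ap_bound p hp
  refine h2.trans ?_
  have : (5 : ℝ) ≤ p := by exact_mod_cast hp
  apply div_le_div_of_nonneg_left (by norm_num) (by norm_num) this

theorem prodB_factor {p : ℕ} (hp : 5 ≤ p) {z c : ℝ} (hz : 0 < z) (hc : |c| ≤ 1) :
    0 ≤ 1 + 2 * Ap p * (z - 1 + z * c) := by
  obtain ⟨h1, -, -⟩ := Ap_bound p hp
  have h2 := prodB_Ap hp
  have h3 : -1 ≤ c := (abs_le.1 hc).1
  have h4 : -1 ≤ z - 1 + z * c := by nlinarith
  nlinarith

theorem prodB_prod (E : Finset ℕ) (g : ℕ → ℂ) (hg1 : ∀ p : ℕ, p.Prime → p % 4 = 1 → p ∉ E → ‖g p‖ = 1)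
    (R : ℝ) (hNP : NP E g R) (z : ℝ) (hz : 1 / 2 < z) (hz1 : z < 1)
    (B : ℝ) (hBpos : 0 < B) :
    ∃ K : ℝ, ∀ T : ℕ, 3 ≤ T → ∀ τ : ℝ, 0 < |τ| → |τ| ≤ B →
      ∏ p ∈ PE E T,
        (1 + 2 * Ap p * (z - 1 + z * (g p * Complex.exp (-(2 * τ * Real.log p : ℝ) * Complex.I)).re)) ≤
      (Real.log T) ^ (2 * (z - 1)) * (Real.exp K *
        Real.exp (2 * z * R * max 0 (Real.log (1 / |τ|)))) := by
  obtain ⟨C1, hC1⟩ := mu_bound
  obtain ⟨C2, hC2⟩ := hNP B hBpos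
  have hs : Summable (fun p : ℕ => 12 / (p : ℝ) ^ 2) := by
    have := (Real.summable_one_div_nat_pow (p := 2)).mpr (by norm_num)
    refine (this.mul_left 12).congr (fun p => ?_)
    ring
  obtain ⟨S, hS⟩ : ∃ S : ℝ, S = ∑' p : ℕ, 12 / (p : ℝ) ^ 2 := ⟨_, rfl⟩
  refine ⟨|C1| + E.card + 4 * |C2| + S, fun T hT τ hτ hτB => ?_⟩
  have hlog := ZSm.one_le_logT hT
  obtain ⟨c, hc⟩ : ∃ c : ℕ → ℝ, ∀ p, c p =
    (g p * Complex.exp (-(2 * τ * Real.log p : ℝ) * Complex.I)).re := ⟨_, fun _ => rfl⟩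
  have hc1 : ∀ p ∈ PE E T, |c p| ≤ 1 := by
    intro p hp
    rw [hc]
    exact prodB_re hg1 hp τ
  simp only [← hc]
  have hNP' : ∑ p ∈ PE E T, c p / p ≤ R / 2 * max 0 (Real.log (1 / |τ|)) + C2 := by
    have := hC2 T hT τ hτ hτB
    simp only [← hc] at this
    exact this
  have h1 : ∏ p ∈ PE E T, (1 + 2 * Ap p * (z - 1 + z * c p)) ≤
      Real.exp (∑ p ∈ PE E T, 2 * Ap p * (z - 1 + z * c p)) := by
    rw [Real.exp_sum]
    apply prod_le_prod
    · intro p hp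
      exact prodB_factor (prodB_five hp) (by linarith) (hc1 p hp)
    · intro p hp
      have := Real.add_one_le_exp (2 * Ap p * (z - 1 + z * c p))
      linarith
  refine h1.trans ?_
  have h2 : (Real.log T) ^ (2 * (z - 1)) = Real.exp (Real.log (Real.log T) * (2 * (z - 1))) :=
    Real.rpow_def_of_pos (by linarith) _
  rw [h2, ← Real.exp_add, ← Real.exp_add]
  apply Real.exp_le_exp.2
  -- the sum
  have h3 : ∑ p ∈ PE E T, 2 * Ap p * (z - 1 + z * c p) =
      (z - 1) * ∑ p ∈ PE E T, 2 * Ap p + z * ∑ p ∈ PE E T, 2 * Ap p * c p := by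
    rw [mul_sum, mul_sum, ← sum_add_distrib]
    refine sum_congr rfl fun p _ => ?_
    ring
  have h4 : muT T ≤ ∑ p ∈ PE E T, 2 * Ap p + E.card := by
    unfold muT PE
    rw [← sum_inter_add_sum_sdiff (PT T) E]
    have h5 : ∑ p ∈ PT T ∩ E, 2 * Ap p ≤ E.card := by
      have h6 : ∑ p ∈ PT T ∩ E, 2 * Ap p ≤ ∑ _p ∈ PT T ∩ E, (1 : ℝ) := by
        apply sum_le_sum
        intro p hp
        have := prodB_Ap (ZSm.PT_five (mem_inter.1 hp).1)
        linarith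
      rw [sum_const, nsmul_eq_mul, mul_one] at h6
      refine h6.trans ?_
      exact_mod_cast card_le_card inter_subset_right
    linarith
  have h5 : (z - 1) * ∑ p ∈ PE E T, 2 * Ap p ≤
      Real.log (Real.log T) * (2 * (z - 1)) + |C1| + E.card := by
    have h6 := (abs_le.1 (hC1 T hT)).1
    have h7 : 2 * Real.log (Real.log T) - |C1| - E.card ≤ ∑ p ∈ PE E T, 2 * Ap p := by
      have := le_abs_self C1
      linarith
    have h8 : (z - 1) * ∑ p ∈ PE E T, 2 * Ap p ≤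
        (z - 1) * (2 * Real.log (Real.log T) - |C1| - E.card) :=
      mul_le_mul_of_nonpos_left h7 (by linarith)
    have h9 : (1 - z) * (|C1| + E.card) ≤ 1 * (|C1| + E.card) :=
      mul_le_mul_of_nonneg_right (by linarith) (by positivity)
    linarith
  have h6 : ∑ p ∈ PE E T, 2 * Ap p * c p ≤ 4 * ∑ p ∈ PE E T, c p / p + S := by
    have h7 : ∀ p ∈ PE E T, 2 * Ap p * c p ≤ 4 * (c p / p) + 12 / (p : ℝ) ^ 2 := by
      intro p hp
      obtain ⟨-, h8, h9⟩ := Ap_bound p (prodB_five hp)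
      have h10 := hc1 p hp
      have h11 : 2 * Ap p * c p - 4 * (c p / p) = (4 / (p : ℝ) - 2 * Ap p) * (-c p) := by ring
      have h12 : (4 / (p : ℝ) - 2 * Ap p) * (-c p) ≤ (4 / (p : ℝ) - 2 * Ap p) * 1 :=
        mul_le_mul_of_nonneg_left (by linarith [(abs_le.1 h10).1]) (by linarith)
      linarith
    have h8 := sum_le_sum h7
    rw [sum_add_distrib, ← mul_sum] at h8
    have h9 : ∑ p ∈ PE E T, 12 / (p : ℝ) ^ 2 ≤ S := by
      rw [hS]
      exact hs.sum_le_tsum _ (fun p _ => by positivity)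
    linarith
  have hS0 : 0 ≤ S := by rw [hS]; exact tsum_nonneg (fun p => by positivity)
  have h7 : z * ∑ p ∈ PE E T, 2 * Ap p * c p ≤
      2 * z * R * max 0 (Real.log (1 / |τ|)) + 4 * |C2| + S := by
    have h8 : ∑ p ∈ PE E T, 2 * Ap p * c p ≤ 4 * (R / 2 * max 0 (Real.log (1 / |τ|)) + C2) + S := by
      linarith
    have h9 := mul_le_mul_of_nonneg_left h8 (by linarith : 0 ≤ z)
    have h10 : z * (4 * C2 + S) ≤ 1 * (4 * |C2| + S) := by
      have e1 : z * (4 * C2 + S) ≤ z * (4 * |C2| + S) :=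
        mul_le_mul_of_nonneg_left (by linarith [le_abs_self C2]) (by linarith)
      have e2 : z * (4 * |C2| + S) ≤ 1 * (4 * |C2| + S) :=
        mul_le_mul_of_nonneg_right hz1.le (by positivity)
      linarith
    linarith
  rw [h3]
  linarith

/-- the integrable majorant -/
theorem prodB_major (R z B C : ℝ) (hR0 : 0 ≤ R) (hR1 : R ≤ 1) (hz : 1 / 2 < z) (hz1 : z < 1)
    (hzR : R < 1 → 2 * z * R < 1) (hBpos : 0 < B) (φ : ℝ → ℂ) (hφ : Continuous φ)
    (hB : ∀ τ, B ≤ |τ| → φ τ = 0) (h0 : R < 1 ∨ ∀ τ, ‖φ τ‖ ≤ C * |τ|) :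
    ∃ h : ℝ → ℝ, Integrable h ∧ ∀ τ : ℝ, 0 < |τ| →
      ‖φ τ‖ ^ 2 * Real.exp (2 * z * R * max 0 (Real.log (1 / |τ|))) ≤ h τ := by
  have hI : Integrable (Set.indicator (Set.Icc (-B) B) (fun _ : ℝ => (1 : ℝ))) := by
    rw [integrable_indicator_iff measurableSet_Icc]
    exact (continuous_const.integrableOn_Icc)
  have hMle : ∀ τ : ℝ, 0 < |τ| → 1 ≤ |τ| →
      Real.exp (2 * z * R * max 0 (Real.log (1 / |τ|))) = 1 := by
    intro τ h1 h2
    have h3 : Real.log (1 / |τ|) ≤ 0 := by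
      apply Real.log_nonpos (by positivity)
      rw [div_le_one h1]
      exact h2
    rw [max_eq_left h3, mul_zero, Real.exp_zero]
  have hMlt : ∀ τ : ℝ, 0 < |τ| → |τ| < 1 →
      Real.exp (2 * z * R * max 0 (Real.log (1 / |τ|))) = |τ| ^ (-(2 * z * R)) := by
    intro τ h1 h2
    have h3 : 0 ≤ Real.log (1 / |τ|) := by
      apply Real.log_nonneg
      rw [le_div_iff₀ h1]
      linarith
    rw [max_eq_right h3, Real.rpow_def_of_pos h1, one_div, Real.log_inv]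
    congr 1
    ring
  rcases h0 with h0 | h0
  · -- bounded case
    have ha := hzR h0
    obtain ⟨M, hM⟩ : ∃ M : ℝ, ∀ τ, ‖φ τ‖ ≤ M := by
      obtain ⟨M, hM⟩ := (isCompact_Icc (a := -B) (b := B)).exists_bound_of_continuousOn
        hφ.continuousOn
      refine ⟨max M 0, fun τ => ?_⟩
      by_cases h : |τ| ≤ B
      · exact (hM τ (abs_le.1 h)).trans (le_max_left _ _)
      · rw [hB τ (not_le.1 h).le, norm_zero]
        exact le_max_right _ _
    have hM0 : 0 ≤ M := (norm_nonneg _).trans (hM 0)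
    obtain ⟨h1, hh1⟩ : ∃ h1 : ℝ → ℝ, h1 = Set.indicator (Set.Ioc 0 B)
      (fun τ : ℝ => τ ^ (-(2 * z * R))) := ⟨_, rfl⟩
    have hi1 : Integrable h1 := by
      rw [hh1, integrable_indicator_iff measurableSet_Ioc,
        ← intervalIntegrable_iff_integrableOn_Ioc_of_le hBpos.le]
      exact intervalIntegral.intervalIntegrable_rpow' (by linarith)
    have hn1 : ∀ τ, 0 ≤ h1 τ := by
      intro τ
      rw [hh1]
      apply Set.indicator_nonneg
      intro x hx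
      exact Real.rpow_nonneg hx.1.le _
    refine ⟨fun τ => M ^ 2 * (Set.indicator (Set.Icc (-B) B) (fun _ : ℝ => (1 : ℝ)) τ +
      (h1 τ + h1 (-τ))), (hI.add (hi1.add hi1.comp_neg)).const_mul _, fun τ hτ => ?_⟩
    beta_reduce
    by_cases hτB : |τ| ≤ B
    · have e1 : Real.exp (2 * z * R * max 0 (Real.log (1 / |τ|))) ≤ 1 + |τ| ^ (-(2 * z * R)) := by
        have e2 : 0 ≤ |τ| ^ (-(2 * z * R)) := Real.rpow_nonneg hτ.le _
        rcases le_or_gt 1 |τ| with h | h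
        · rw [hMle τ hτ h]; linarith
        · rw [hMlt τ hτ h]; linarith
      have e3 : |τ| ^ (-(2 * z * R)) ≤ h1 τ + h1 (-τ) := by
        rcases le_or_gt 0 τ with h | h
        · rw [abs_of_nonneg h] at hτ hτB ⊢
          have : h1 τ = τ ^ (-(2 * z * R)) := by
            rw [hh1, Set.indicator_of_mem (by exact ⟨hτ, hτB⟩)]
          rw [this]
          linarith [hn1 (-τ)]
        · rw [abs_of_neg h] at hτ hτB ⊢
          have : h1 (-τ) = (-τ) ^ (-(2 * z * R)) := by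
            rw [hh1, Set.indicator_of_mem (by exact ⟨hτ, hτB⟩)]
          rw [this]
          linarith [hn1 τ]
      rw [Set.indicator_of_mem (by exact abs_le.1 hτB)]
      have e4 : ‖φ τ‖ ^ 2 ≤ M ^ 2 := pow_le_pow_left₀ (norm_nonneg _) (hM τ) 2
      exact mul_le_mul e4 (by linarith) (Real.exp_pos _).le (by positivity)
    · rw [hB τ (not_le.1 hτB).le, norm_zero]
      have e5 : 0 ≤ Set.indicator (Set.Icc (-B) B) (fun _ : ℝ => (1 : ℝ)) τ :=
        Set.indicator_nonneg (fun _ _ => zero_le_one) _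
      have e6 := hn1 τ
      have e7 := hn1 (-τ)
      have : 0 ≤ M ^ 2 * (Set.indicator (Set.Icc (-B) B) (fun _ : ℝ => (1 : ℝ)) τ +
        (h1 τ + h1 (-τ))) := by positivity
      simpa using this
  · refine ⟨fun τ => C ^ 2 * (B ^ 2 + 1) *
      Set.indicator (Set.Icc (-B) B) (fun _ : ℝ => (1 : ℝ)) τ, hI.const_mul _, fun τ hτ => ?_⟩
    beta_reduce
    by_cases hτB : |τ| ≤ B
    · rw [Set.indicator_of_mem (by exact abs_le.1 hτB), mul_one]
      have e1 : ‖φ τ‖ ^ 2 ≤ C ^ 2 * |τ| ^ 2 := by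
        rw [← mul_pow]
        exact pow_le_pow_left₀ (norm_nonneg _) (h0 τ) 2
      have e2 : |τ| ^ 2 * Real.exp (2 * z * R * max 0 (Real.log (1 / |τ|))) ≤ B ^ 2 + 1 := by
        rcases le_or_gt 1 |τ| with h | h
        · rw [hMle τ hτ h]
          have : |τ| ^ 2 ≤ B ^ 2 := pow_le_pow_left₀ hτ.le hτB 2
          linarith
        · rw [hMlt τ hτ h, ← Real.rpow_natCast |τ| 2, ← Real.rpow_add hτ]
          have e3 : |τ| ^ (((2 : ℕ) : ℝ) + -(2 * z * R)) ≤ 1 := by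
            apply Real.rpow_le_one hτ.le h.le
            push_cast
            nlinarith
          have : 0 ≤ B ^ 2 := by positivity
          linarith
      calc ‖φ τ‖ ^ 2 * Real.exp (2 * z * R * max 0 (Real.log (1 / |τ|)))
          ≤ (C ^ 2 * |τ| ^ 2) * Real.exp (2 * z * R * max 0 (Real.log (1 / |τ|))) :=
            mul_le_mul_of_nonneg_right e1 (Real.exp_pos _).le
        _ = C ^ 2 * (|τ| ^ 2 * Real.exp (2 * z * R * max 0 (Real.log (1 / |τ|)))) := by ring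
        _ ≤ C ^ 2 * (B ^ 2 + 1) := mul_le_mul_of_nonneg_left e2 (by positivity)
    · rw [hB τ (not_le.1 hτB).le, norm_zero]
      have e5 : 0 ≤ Set.indicator (Set.Icc (-B) B) (fun _ : ℝ => (1 : ℝ)) τ :=
        Set.indicator_nonneg (fun _ _ => zero_le_one) _
      have : 0 ≤ C ^ 2 * (B ^ 2 + 1) * Set.indicator (Set.Icc (-B) B) (fun _ : ℝ => (1 : ℝ)) τ := by
        positivity
      simpa using this

/-- PROOF. Put `c_p = Re (g p exp (-2 i τ log p))`, `|c_p| ≤ 1`. The factor is `1 + 2 Ap p (z - 1 + z c_p) = 1 - 2 Ap p + Ap p z ‖1 + g p exp(..)‖^2 ≥ 0`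
(`2 Ap p ≤ 4/5`, `‖g p‖ = 1`) and `≤ exp (2 Ap p (z - 1 + z c_p))`. With `Ap_bound`: `4/p - 12/p^2 ≤ 2 Ap p ≤ 4/p`, so the sum of the exponents is at most
`(z - 1) ∑_(PE) 2 Ap p + z ∑_(PE) (4/p) c_p + ∑ 12/p^2 ≤ (z - 1) (2 log log T - C1) + 4 z (R/2 max 0 (log (1/|τ|)) + C2) + C3`: `mu_bound` for
`muT T = ∑_(PT T) 2 Ap p`, the primes of `E` contribute at most `2 #E`; `NP` with `B`. So the product is
`≤ C4 (log T)^(2 (z-1)) max 1 (|τ|^(-2 z R))` for `0 < |τ| ≤ B`. If `R < 1` then `2 z R < 1` and `‖φ τ‖` is bounded: the integral over `|τ| ≤ B` of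
`|τ|^(-2 z R)` is finite. If `‖φ τ‖ ≤ C |τ|`: `|τ|^(2 - 2 z R)` is bounded (`2 z R ≤ 2 z < 2`). (`intervalIntegral.integrableOn_rpow` type lemmas:
`integrableOn_Ioo_rpow_iff`, `intervalIntegrable_rpow'`.) -/
theorem prodB (E : Finset ℕ) (g : ℕ → ℂ) (hg1 : ∀ p : ℕ, p.Prime → p % 4 = 1 → p ∉ E → ‖g p‖ = 1) (R : ℝ)
    (hR0 : 0 ≤ R) (hR1 : R ≤ 1) (hNP : NP E g R) (z : ℝ) (hz : 1 / 2 < z) (hz1 : z < 1) (hzR : R < 1 → 2 * z * R < 1)
    (B C : ℝ) (hBpos : 0 < B) (φ : ℝ → ℂ) (hφ : Continuous φ) (hB : ∀ τ, B ≤ |τ| → φ τ = 0)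
    (h0 : R < 1 ∨ ∀ τ, ‖φ τ‖ ≤ C * |τ|) :
    ∃ C' : ℝ, ∀ T : ℕ, 3 ≤ T →
      ∫ τ, ‖φ τ‖ ^ 2 * ∏ p ∈ PE E T,
        (1 + 2 * Ap p * (z - 1 + z * (g p * Complex.exp (-(2 * τ * Real.log p : ℝ) * Complex.I)).re)) ≤
      C' * (Real.log T) ^ (2 * (z - 1)) := by
  obtain ⟨K, hK⟩ := prodB_prod E g hg1 R hNP z hz hz1 B hBpos
  obtain ⟨h, hi, hh⟩ := prodB_major R z B C hR0 hR1 hz hz1 hzR hBpos φ hφ hB h0
  refine ⟨Real.exp K * ∫ τ, h τ, fun T hT => ?_⟩
  have hlog : 0 < Real.log T := by linarith [ZSm.one_le_logT hT]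
  have h1 : ∫ τ, ‖φ τ‖ ^ 2 * ∏ p ∈ PE E T,
        (1 + 2 * Ap p * (z - 1 + z * (g p * Complex.exp (-(2 * τ * Real.log p : ℝ) * Complex.I)).re)) ≤
      ∫ τ, ((Real.log T) ^ (2 * (z - 1)) * Real.exp K) * h τ := by
    apply integral_mono_of_nonneg
    · refine Filter.Eventually.of_forall fun τ => ?_
      apply mul_nonneg (by positivity)
      exact prod_nonneg fun p hp => prodB_factor (prodB_five hp) (by linarith) (prodB_re hg1 hp τ)
    · exact hi.const_mul _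
    · have h2 : ∀ᵐ τ : ℝ, τ ≠ 0 := by
        simp [ae_iff]
      filter_upwards [h2] with τ hτ
      have hτ' : 0 < |τ| := abs_pos.2 hτ
      by_cases hτB : |τ| ≤ B
      · have e1 := hK T hT τ hτ' hτB
        have e2 := hh τ hτ'
        calc ‖φ τ‖ ^ 2 * ∏ p ∈ PE E T,
              (1 + 2 * Ap p * (z - 1 + z * (g p * Complex.exp (-(2 * τ * Real.log p : ℝ) * Complex.I)).re))
            ≤ ‖φ τ‖ ^ 2 * ((Real.log T) ^ (2 * (z - 1)) * (Real.exp K *
                Real.exp (2 * z * R * max 0 (Real.log (1 / |τ|))))) :=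
              mul_le_mul_of_nonneg_left e1 (by positivity)
          _ = ((Real.log T) ^ (2 * (z - 1)) * Real.exp K) * (‖φ τ‖ ^ 2 *
                Real.exp (2 * z * R * max 0 (Real.log (1 / |τ|)))) := by ring
          _ ≤ _ := mul_le_mul_of_nonneg_left e2 (by positivity)
      · have e2 := hh τ hτ'
        rw [hB τ (not_le.1 hτB).le, norm_zero] at e2 ⊢
        have e3 : 0 ≤ h τ := by simpa using e2
        have : 0 ≤ ((Real.log T) ^ (2 * (z - 1)) * Real.exp K) * h τ := by positivity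
        simpa using this
  rw [integral_const_mul] at h1
  refine h1.trans (le_of_eq ?_)
  ring

end Pool.Agent.OmEq

end

/-! ### from `Lib_MP_f1a94e_ecm.Marc` -/

section

/-!
# Piece M-MARC: Parseval for sums over arcs
-/

set_option autoImplicit false

namespace Pool.Agent.ECM

open Finset Pool.Agent.GaussMR Pool.Agent.GaussCM Pool.Agent.OmAll MeasureTheory

/-- weight of an arc of length `w` at the frequency `k` -/
noncomputable def marcW (w : ℝ) (k : ℤ) : ℂ :=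
  (1 / (2 * Real.pi) : ℝ) • ∫ u in (-w)..0, Complex.exp (-(k * u : ℝ) * Complex.I)

theorem marc_xi {z : G} (hz : z ≠ 0) (k : ℤ) :
    xi (-k) z = Complex.exp (-(k * Complex.arg (z : ℂ) : ℝ) * Complex.I) := by
  have h1 : dir z = Complex.exp (Complex.arg (z : ℂ) * Complex.I) := by
    unfold dir
    have h2 : ((‖(z : ℂ)‖ : ℝ) : ℂ) ≠ 0 := by
      rw [Ne, Complex.ofReal_eq_zero, norm_eq_zero]
      exact toComplex_ne_zero hz
    rw [div_eq_iff h2, mul_comm]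
    exact (Complex.norm_mul_exp_arg_mul_I (z : ℂ)).symm
  unfold xi
  rw [h1, ← Complex.exp_int_mul]
  congr 1
  push_cast
  ring

theorem marc_set (w : ℝ) (z : G) : {θ : ℝ | InArc θ w z} =
    ⋃ j : ℤ, Set.Ioc (Complex.arg (z : ℂ) + 2 * Real.pi * j - w) (Complex.arg (z : ℂ) + 2 * Real.pi * j) := by
  ext θ
  simp only [Set.mem_iUnion, Set.mem_Ioc]
  constructor
  · rintro ⟨j, h1, h2⟩
    exact ⟨j, by linarith, h1⟩
  · rintro ⟨j, h1, h2⟩
    exact ⟨j, h2, by linarith⟩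

theorem marc_meas (w : ℝ) (z : G) : MeasurableSet {θ : ℝ | InArc θ w z} := by
  rw [marc_set]
  exact MeasurableSet.iUnion fun j => measurableSet_Ioc

open Classical in
/-- one term of the integral -/
theorem marc_one (w : ℝ) (hw : 0 < w) (hw2 : w ≤ 2 * Real.pi) (z : G) (k : ℤ) :
    ∫ θ in (0 : ℝ)..(2 * Real.pi), (if InArc θ w z then Complex.exp (-(k * θ : ℝ) * Complex.I) else 0) =
      Complex.exp (-(k * Complex.arg (z : ℂ) : ℝ) * Complex.I) *
        ∫ u in (-w)..0, Complex.exp (-(k * u : ℝ) * Complex.I) := by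
  set a : ℝ := Complex.arg (z : ℂ) with ha
  have hpi := Real.pi_pos
  set h : ℝ → ℂ := fun θ => if InArc θ w z then Complex.exp (-(k * θ : ℝ) * Complex.I) else 0 with hh
  have hper : Function.Periodic h (2 * Real.pi) := by
    intro θ
    have e1 : InArc (θ + 2 * Real.pi) w z ↔ InArc θ w z := by
      constructor
      · rintro ⟨j, h1, h2⟩
        refine ⟨j - 1, ?_, ?_⟩ <;> push_cast <;> linarith
      · rintro ⟨j, h1, h2⟩
        refine ⟨j + 1, ?_, ?_⟩ <;> push_cast <;> linarith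
    have e2 : Complex.exp (-(k * (θ + 2 * Real.pi) : ℝ) * Complex.I) =
        Complex.exp (-(k * θ : ℝ) * Complex.I) := by
      have e3 : -((k * (θ + 2 * Real.pi) : ℝ) : ℂ) * Complex.I =
          -((k * θ : ℝ) : ℂ) * Complex.I + ((-k : ℤ) : ℂ) * (2 * Real.pi * Complex.I) := by
        push_cast
        ring
      rw [e3, Complex.exp_add, Complex.exp_int_mul_two_pi_mul_I, mul_one]
    simp only [hh, e1, e2]
  have h1 : ∫ θ in (0 : ℝ)..(2 * Real.pi), h θ = ∫ θ in (a - 2 * Real.pi)..a, h θ := by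
    have := hper.intervalIntegral_add_eq 0 (a - 2 * Real.pi)
    rw [zero_add, sub_add_cancel] at this
    exact this
  rw [h1]
  have h2 : ∫ θ in (a - 2 * Real.pi)..a, h θ =
      ∫ θ in (a - w)..a, Complex.exp (-(k * θ : ℝ) * Complex.I) := by
    rw [intervalIntegral.integral_of_le (by linarith), intervalIntegral.integral_of_le (by linarith)]
    have e1 : Set.Ioc (a - w) a ⊆ Set.Ioc (a - 2 * Real.pi) a := by
      intro θ hθ
      exact ⟨by linarith [hθ.1], hθ.2⟩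
    rw [← MeasureTheory.integral_indicator measurableSet_Ioc,
      ← MeasureTheory.integral_indicator measurableSet_Ioc]
    congr 1
    funext θ
    by_cases hθ : θ ∈ Set.Ioc (a - 2 * Real.pi) a
    · rw [Set.indicator_of_mem hθ]
      by_cases hθ2 : θ ∈ Set.Ioc (a - w) a
      · rw [Set.indicator_of_mem hθ2]
        have : InArc θ w z := ⟨0, by push_cast; linarith [hθ2.2], by push_cast; linarith [hθ2.1]⟩
        simp only [hh, this, if_true]
      · rw [Set.indicator_of_notMem hθ2]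
        have : ¬ InArc θ w z := by
          rintro ⟨j, g1, g2⟩
          rw [← ha] at g1 g2
          have hj : j = 0 := by
            have g3 : (j : ℝ) < 1 := by
              by_contra hc
              push Not at hc
              have : 2 * Real.pi * 1 ≤ 2 * Real.pi * j := by gcongr
              linarith [hθ.2]
            have g4 : (-1 : ℝ) < j := by
              by_contra hc
              push Not at hc
              have : 2 * Real.pi * j ≤ 2 * Real.pi * (-1) := by gcongr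
              linarith [hθ.1]
            have g5 : j < 1 := by exact_mod_cast g3
            have g6 : (-1 : ℤ) < j := by exact_mod_cast g4
            omega
          subst hj
          push_cast at g1 g2
          exact hθ2 ⟨by linarith, by linarith⟩
        simp only [hh, this, if_false]
    · rw [Set.indicator_of_notMem hθ, Set.indicator_of_notMem (fun h => hθ (e1 h))]
  rw [h2, ← intervalIntegral.integral_const_mul]
  have h3 : ∫ u in (-w)..0, Complex.exp (-(k * a : ℝ) * Complex.I) * Complex.exp (-(k * u : ℝ) * Complex.I) =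
      ∫ u in (-w)..0, (fun θ : ℝ => Complex.exp (-(k * θ : ℝ) * Complex.I)) (u + a) := by
    congr 1
    funext u
    simp only
    rw [← Complex.exp_add]
    congr 1
    push_cast
    ring
  rw [h3, intervalIntegral.integral_comp_add_right (fun θ : ℝ => Complex.exp (-(k * θ : ℝ) * Complex.I)) a]
  congr 1 <;> ring

theorem marcW_le (w : ℝ) (hw : 0 < w) (k : ℤ) : ‖marcW w k‖ ≤ w / (2 * Real.pi) := by
  have hpi := Real.pi_pos
  unfold marcW
  rw [norm_smul, Real.norm_eq_abs, abs_of_pos (by positivity)]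
  have h1 : ‖∫ u in (-w)..0, Complex.exp (-(k * u : ℝ) * Complex.I)‖ ≤ 1 * |0 - (-w)| := by
    apply intervalIntegral.norm_integral_le_of_norm_le_const
    intro u _
    rw [Complex.norm_exp]
    simp
  rw [zero_sub, neg_neg, abs_of_pos hw, one_mul] at h1
  calc 1 / (2 * Real.pi) * ‖∫ u in (-w)..0, Complex.exp (-(k * u : ℝ) * Complex.I)‖ ≤
      1 / (2 * Real.pi) * w := mul_le_mul_of_nonneg_left h1 (by positivity)
    _ = w / (2 * Real.pi) := by ring

theorem marcW_le' (w : ℝ) (k : ℤ) (hk : k ≠ 0) : ‖marcW w k‖ ≤ 1 / (Real.pi * |(k : ℝ)|) := by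
  have hpi := Real.pi_pos
  have hk' : (0 : ℝ) < |(k : ℝ)| := abs_pos.mpr (by exact_mod_cast hk)
  unfold marcW
  rw [norm_smul, Real.norm_eq_abs, abs_of_pos (by positivity)]
  have hc : (-(k : ℂ) * Complex.I) ≠ 0 := by
    apply mul_ne_zero
    · rw [neg_ne_zero]
      exact_mod_cast hk
    · exact Complex.I_ne_zero
  have h1 : ∫ u in (-w)..0, Complex.exp (-(k * u : ℝ) * Complex.I) =
      (Complex.exp ((-(k : ℂ) * Complex.I) * (0 : ℝ)) -
        Complex.exp ((-(k : ℂ) * Complex.I) * (-w : ℝ))) / (-(k : ℂ) * Complex.I) := by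
    rw [← integral_exp_mul_complex hc]
    congr 1
    funext u
    congr 1
    push_cast
    ring
  rw [h1, norm_div]
  have h2 : ‖-(k : ℂ) * Complex.I‖ = |(k : ℝ)| := by
    rw [norm_mul, Complex.norm_I, mul_one, norm_neg]
    exact Complex.norm_intCast k
  rw [h2]
  have h3 : ‖Complex.exp ((-(k : ℂ) * Complex.I) * (0 : ℝ)) -
        Complex.exp ((-(k : ℂ) * Complex.I) * (-w : ℝ))‖ ≤ 2 := by
    refine (norm_sub_le _ _).trans ?_
    rw [Complex.norm_exp, Complex.norm_exp]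
    simp
    norm_num
  calc 1 / (2 * Real.pi) * (‖Complex.exp ((-(k : ℂ) * Complex.I) * (0 : ℝ)) -
        Complex.exp ((-(k : ℂ) * Complex.I) * (-w : ℝ))‖ / |(k : ℝ)|) ≤
      1 / (2 * Real.pi) * (2 / |(k : ℝ)|) := by gcongr
    _ = 1 / (Real.pi * |(k : ℝ)|) := by field_simp

/-- Fourier coefficients of the sum over an arc -/
theorem marc_coeff (F : G → ℂ) (X w : ℝ) (hw : 0 < w) (hw2 : w ≤ 2 * Real.pi) (k : ℤ) :
    fourierCoeffOn (show (0 : ℝ) < 2 * Real.pi by positivity) (arcS F X w) k =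
      marcW w k * fcC F X k := by
  classical
  rw [fourierCoeffOn_eq_integral]
  have h1 : ∫ x in (0 : ℝ)..(2 * Real.pi), fourier (-k) (x : AddCircle (2 * Real.pi - 0)) • arcS F X w x =
      ∑ z ∈ V X, F z * (Complex.exp (-(k * Complex.arg (z : ℂ) : ℝ) * Complex.I) *
        ∫ u in (-w)..0, Complex.exp (-(k * u : ℝ) * Complex.I)) := by
    have e1 : ∀ x : ℝ, fourier (-k) (x : AddCircle (2 * Real.pi - 0)) • arcS F X w x =
        ∑ z ∈ V X, F z * (if InArc x w z then Complex.exp (-(k * x : ℝ) * Complex.I) else 0) := by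
      intro x
      rw [fourier_coe_apply, arcS, smul_eq_mul, Finset.mul_sum]
      refine Finset.sum_congr rfl fun z _ => ?_
      have e2 : Complex.exp (2 * Real.pi * Complex.I * ((-k : ℤ) : ℂ) * (x : ℂ) / ((2 * Real.pi - 0 : ℝ) : ℂ)) =
          Complex.exp (-(k * x : ℝ) * Complex.I) := by
        congr 1
        rw [sub_zero]
        push_cast
        have : (Real.pi : ℂ) ≠ 0 := by exact_mod_cast Real.pi_ne_zero
        field_simp
      rw [e2]
      split_ifs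
      · ring
      · ring
    simp only [e1]
    rw [intervalIntegral.integral_finsetSum]
    · refine Finset.sum_congr rfl fun z _ => ?_
      rw [intervalIntegral.integral_const_mul, marc_one w hw hw2 z k]
    · intro z _
      apply IntervalIntegrable.const_mul
      have hcont : Continuous fun x : ℝ => Complex.exp (-(k * x : ℝ) * Complex.I) := by fun_prop
      have hii : IntervalIntegrable (fun x : ℝ => Complex.exp (-(k * x : ℝ) * Complex.I)) volume 0 (2 * Real.pi) :=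
        hcont.intervalIntegrable _ _
      have : (fun x : ℝ => if InArc x w z then Complex.exp (-(k * x : ℝ) * Complex.I) else 0) =
          Set.indicator {x : ℝ | InArc x w z} (fun x : ℝ => Complex.exp (-(k * x : ℝ) * Complex.I)) := by
        funext x
        rw [Set.indicator_apply]
        rfl
      rw [this, intervalIntegrable_iff]
      rw [intervalIntegrable_iff] at hii
      exact hii.indicator (marc_meas w z)
  rw [h1, marcW, fcC, Finset.mul_sum, Finset.smul_sum]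
  refine Finset.sum_congr rfl fun z hz => ?_
  rw [marc_xi (V_ne_zero hz)]
  rw [sub_zero]
  simp only [Complex.real_smul]
  ring

theorem marc_memLp (F : G → ℂ) (X w : ℝ) :
    MemLp (arcS F X w) 2 (volume.restrict (Set.Ioc 0 (2 * Real.pi))) := by
  classical
  have h1 : Measurable (arcS F X w) := by
    unfold arcS
    apply Finset.measurable_fun_sum
    intro z _
    exact Measurable.ite (marc_meas w z) measurable_const measurable_const
  refine MemLp.of_bound h1.aestronglyMeasurable (∑ z ∈ V X, ‖F z‖) (Filter.Eventually.of_forall fun θ => ?_)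
  unfold arcS
  refine (norm_sum_le _ _).trans (Finset.sum_le_sum fun z _ => ?_)
  split_ifs
  · exact le_rfl
  · rw [norm_zero]
    exact norm_nonneg _

/-- Parseval -/
theorem marc_parseval (F : G → ℂ) (X w : ℝ) (hw : 0 < w) (hw2 : w ≤ 2 * Real.pi) :
    HasSum (fun k : ℤ => ‖marcW w k * fcC F X k‖ ^ 2)
      ((2 * Real.pi)⁻¹ * ∫ θ in (0 : ℝ)..(2 * Real.pi), ‖arcS F X w θ‖ ^ 2) := by
  have h := hasSum_sq_fourierCoeffOn (show (0 : ℝ) < 2 * Real.pi by positivity) (marc_memLp F X w)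
  simp only [marc_coeff F X w hw hw2, sub_zero, smul_eq_mul] at h
  exact h

/-- the large sieve for one function -/
theorem marc_ls : ∃ C : ℝ, 0 < C ∧ ∀ (F : G → ℂ), CM F → ∀ (X : ℝ) (K : ℕ), 1 ≤ X →
    ∑ k ∈ fr K, ‖fcC F X k‖ ^ 2 ≤ C * (K + X) * X := by
  obtain ⟨C, hC, h⟩ := large_sieve
  refine ⟨9 * C, by positivity, fun F hF X K hX => ?_⟩
  refine (h X K F hX).trans ?_
  have h1 : ∑ z ∈ V X, ‖F z‖ ^ 2 ≤ 9 * X := by
    refine le_trans ?_ (card_V_le X (by linarith))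
    calc ∑ z ∈ V X, ‖F z‖ ^ 2 ≤ ∑ _z ∈ V X, (1 : ℝ) := Finset.sum_le_sum fun z hz =>
          pow_le_one₀ (norm_nonneg _) (hF.norm (mem_V.1 hz).2.1)
      _ = ((V X).card : ℝ) := by simp
  calc C * (K + X) * ∑ z ∈ V X, ‖F z‖ ^ 2 ≤ C * (K + X) * (9 * X) :=
        mul_le_mul_of_nonneg_left h1 (by positivity)
    _ = 9 * C * (K + X) * X := by ring

/-- one dyadic annulus -/
theorem marc_annulus {C : ℝ} (hC : 0 < C) (h : ∀ (F : G → ℂ), CM F → ∀ (X : ℝ) (K : ℕ), 1 ≤ X →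
    ∑ k ∈ fr K, ‖fcC F X k‖ ^ 2 ≤ C * (K + X) * X) (F : G → ℂ) (hF : CM F) (X w : ℝ) (T : ℕ)
    (hX : 1 ≤ X) (hT : 1 ≤ T) (j : ℕ) :
    ∑ k ∈ fr (2 ^ (j + 1) * T) \ fr (2 ^ j * T), ‖marcW w k * fcC F X k‖ ^ 2 ≤
      C * (2 * (1 / 2) ^ j * (X / T) + (1 / 2) ^ j * (X ^ 2 / T ^ 2)) := by
  have hpi := Real.pi_gt_three
  have hT0 : (0 : ℝ) < T := by exact_mod_cast hT
  have hT2 : (0 : ℝ) < 2 ^ j * T := by positivity
  have h1 : ∀ k ∈ fr (2 ^ (j + 1) * T) \ fr (2 ^ j * T), ‖marcW w k * fcC F X k‖ ^ 2 ≤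
      (1 / (2 ^ j * T) ^ 2) * ‖fcC F X k‖ ^ 2 := by
    intro k hk
    have hk2 : k ∉ fr (2 ^ j * T) := (Finset.mem_sdiff.mp hk).2
    rw [mem_fr] at hk2
    have hk3 : ((2 : ℝ) ^ j * T) ≤ |(k : ℝ)| := by
      by_contra hc
      push Not at hc
      apply hk2
      have h2 := abs_lt.mp hc
      constructor
      · have h3 : (-((2 ^ j * T : ℕ) : ℤ) : ℝ) < (k : ℝ) := by push_cast; linarith [h2.1]
        exact_mod_cast h3.le
      · have h3 : (k : ℝ) < ((2 ^ j * T : ℕ) : ℝ) := by push_cast; linarith [h2.2]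
        exact_mod_cast h3.le
    have hk0 : k ≠ 0 := by
      intro h0
      rw [h0] at hk3
      simp at hk3
      linarith
    have h4 := marcW_le' w k hk0
    rw [norm_mul, mul_pow]
    apply mul_le_mul_of_nonneg_right _ (sq_nonneg _)
    have h5 : ‖marcW w k‖ ≤ 1 / (2 ^ j * T) := by
      refine h4.trans ?_
      apply one_div_le_one_div_of_le hT2
      calc (2 : ℝ) ^ j * T ≤ |(k : ℝ)| := hk3
        _ ≤ Real.pi * |(k : ℝ)| := le_mul_of_one_le_left (abs_nonneg _) (by linarith)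
    calc ‖marcW w k‖ ^ 2 ≤ (1 / (2 ^ j * T)) ^ 2 := pow_le_pow_left₀ (norm_nonneg _) h5 2
      _ = 1 / (2 ^ j * T) ^ 2 := by rw [div_pow, one_pow]
  refine (Finset.sum_le_sum h1).trans ?_
  rw [← Finset.mul_sum]
  have h2 : ∑ k ∈ fr (2 ^ (j + 1) * T) \ fr (2 ^ j * T), ‖fcC F X k‖ ^ 2 ≤
      C * ((2 ^ (j + 1) * T : ℕ) + X) * X :=
    (Finset.sum_le_sum_of_subset_of_nonneg Finset.sdiff_subset (fun _ _ _ => by positivity)).trans
      (h F hF X _ hX)
  have hX0 : 0 < X := by linarith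
  calc 1 / (2 ^ j * T : ℝ) ^ 2 * ∑ k ∈ fr (2 ^ (j + 1) * T) \ fr (2 ^ j * T), ‖fcC F X k‖ ^ 2 ≤
      1 / (2 ^ j * T : ℝ) ^ 2 * (C * ((2 ^ (j + 1) * T : ℕ) + X) * X) :=
        mul_le_mul_of_nonneg_left h2 (by positivity)
    _ = C * (2 * (1 / 2 ^ j) * (X / T) + (1 / 2 ^ j) * (1 / 2 ^ j) * (X ^ 2 / T ^ 2)) := by
        push_cast
        field_simp
        ring
    _ ≤ C * (2 * (1 / 2) ^ j * (X / T) + (1 / 2) ^ j * (X ^ 2 / T ^ 2)) := by
        rw [one_div_pow]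
        apply mul_le_mul_of_nonneg_left _ hC.le
        apply add_le_add le_rfl
        apply mul_le_mul_of_nonneg_right _ (by positivity)
        have : (1 : ℝ) / 2 ^ j ≤ 1 := by
          rw [div_le_one (by positivity)]
          exact one_le_pow₀ (by norm_num)
        calc (1 : ℝ) / 2 ^ j * (1 / 2 ^ j) ≤ 1 / 2 ^ j * 1 :=
              mul_le_mul_of_nonneg_left this (by positivity)
          _ = 1 / 2 ^ j := mul_one _

/-- the integral over arcs in terms of the low frequencies -/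
theorem marc : ∃ C : ℝ, 0 < C ∧ ∀ F : G → ℂ, CM F → ∀ (X w : ℝ) (T : ℕ), 1 ≤ X → 0 < w →
    w ≤ 2 * Real.pi → 1 ≤ T →
    ∫ θ in (0 : ℝ)..(2 * Real.pi), ‖arcS F X w θ‖ ^ 2 ≤
      w ^ 2 * ∑ k ∈ fr T, ‖fcC F X k‖ ^ 2 + C * (X / T + X ^ 2 / T ^ 2) := by
  classical
  obtain ⟨C, hC, hls⟩ := marc_ls
  refine ⟨2 * Real.pi * (4 * C), by positivity, fun F hF X w T hX hw hw2 hT => ?_⟩
  have hpi := Real.pi_gt_three
  have hX0 : 0 < X := by linarith
  have hT0 : (0 : ℝ) < T := by exact_mod_cast hT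
  have hP := marc_parseval F X w hw hw2
  set B : ℝ := (w / (2 * Real.pi)) ^ 2 * ∑ k ∈ fr T, ‖fcC F X k‖ ^ 2 +
    4 * C * (X / T + X ^ 2 / T ^ 2) with hB
  have hfr : ∀ J : ℕ, ∑ k ∈ fr (2 ^ J * T), ‖marcW w k * fcC F X k‖ ^ 2 ≤
      (w / (2 * Real.pi)) ^ 2 * ∑ k ∈ fr T, ‖fcC F X k‖ ^ 2 +
        ∑ j ∈ Finset.range J, C * (2 * (1 / 2) ^ j * (X / T) + (1 / 2) ^ j * (X ^ 2 / T ^ 2)) := by
    intro J
    induction J with
    | zero =>
      rw [pow_zero, one_mul, Finset.range_zero, Finset.sum_empty, add_zero, Finset.mul_sum]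
      refine Finset.sum_le_sum fun k _ => ?_
      rw [norm_mul, mul_pow]
      exact mul_le_mul_of_nonneg_right (pow_le_pow_left₀ (norm_nonneg _) (marcW_le w hw k) 2)
        (sq_nonneg _)
    | succ J ih =>
      have hsub : fr (2 ^ J * T) ⊆ fr (2 ^ (J + 1) * T) := by
        intro k hk
        rw [mem_fr] at hk ⊢
        have h1 : ((2 ^ J * T : ℕ) : ℤ) ≤ ((2 ^ (J + 1) * T : ℕ) : ℤ) := by
          have : 2 ^ J * T ≤ 2 ^ (J + 1) * T := Nat.mul_le_mul_right _ (Nat.pow_le_pow_right (by norm_num) (by omega))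
          exact_mod_cast this
        omega
      rw [← Finset.sum_sdiff hsub, Finset.sum_range_succ]
      have := marc_annulus hC hls F hF X w T hX hT J
      linarith
  have hgeo : ∀ J : ℕ, ∑ j ∈ Finset.range J, C * (2 * (1 / 2) ^ j * (X / T) +
      (1 / 2) ^ j * (X ^ 2 / T ^ 2)) ≤ 4 * C * (X / T + X ^ 2 / T ^ 2) := by
    intro J
    have h1 : ∑ j ∈ Finset.range J, ((1 : ℝ) / 2) ^ j ≤ 2 := by
      have := geom_sum_eq (show (1 / 2 : ℝ) ≠ 1 by norm_num) J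
      rw [this]
      have h2 : (0 : ℝ) ≤ (1 / 2) ^ J := by positivity
      have h3 : ((1 / 2 : ℝ) ^ J - 1) / (1 / 2 - 1) = 2 * (1 - (1 / 2) ^ J) := by
        field_simp
        ring
      rw [h3]
      linarith
    have h2 : ∑ j ∈ Finset.range J, C * (2 * (1 / 2) ^ j * (X / T) +
        (1 / 2) ^ j * (X ^ 2 / T ^ 2)) =
        C * (2 * (X / T) + X ^ 2 / T ^ 2) * ∑ j ∈ Finset.range J, ((1 : ℝ) / 2) ^ j := by
      rw [Finset.mul_sum]
      refine Finset.sum_congr rfl fun j _ => ?_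
      ring
    rw [h2]
    have h3 : 0 ≤ C * (2 * (X / T) + X ^ 2 / T ^ 2) := by positivity
    have h4 : 0 ≤ C * (X ^ 2 / T ^ 2) := by positivity
    calc C * (2 * (X / T) + X ^ 2 / T ^ 2) * ∑ j ∈ Finset.range J, ((1 : ℝ) / 2) ^ j ≤
        C * (2 * (X / T) + X ^ 2 / T ^ 2) * 2 := mul_le_mul_of_nonneg_left h1 h3
      _ ≤ 4 * C * (X / T + X ^ 2 / T ^ 2) := by linarith
  have hle : (2 * Real.pi)⁻¹ * ∫ θ in (0 : ℝ)..(2 * Real.pi), ‖arcS F X w θ‖ ^ 2 ≤ B := by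
    refine hasSum_le_of_sum_le hP fun s => ?_
    obtain ⟨J, hJ⟩ : ∃ J : ℕ, s ⊆ fr (2 ^ J * T) := by
      obtain ⟨J, hJ⟩ : ∃ J : ℕ, ∀ k ∈ s, |k| ≤ J := by
        refine ⟨∑ k ∈ s, k.natAbs, fun k hk => ?_⟩
        have h1 := Finset.single_le_sum (f := fun k : ℤ => k.natAbs) (fun _ _ => Nat.zero_le _) hk
        rw [Int.abs_eq_natAbs]
        exact_mod_cast h1
      refine ⟨J, fun k hk => ?_⟩
      have h1 := abs_le.mp (hJ k hk)
      have h2 : (J : ℤ) ≤ ((2 ^ J * T : ℕ) : ℤ) := by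
        have h3 : J < 2 ^ J := Nat.lt_two_pow_self
        have h4 : 2 ^ J * 1 ≤ 2 ^ J * T := Nat.mul_le_mul_left _ hT
        have : J ≤ 2 ^ J * T := by omega
        exact_mod_cast this
      rw [mem_fr]
      omega
    refine (Finset.sum_le_sum_of_subset_of_nonneg hJ (fun _ _ _ => by positivity)).trans ?_
    exact (hfr J).trans (by rw [hB]; have := hgeo J; linarith)
  rw [inv_mul_le_iff₀ (by positivity)] at hle
  refine hle.trans ?_
  rw [hB]
  have h1 : 2 * Real.pi * ((w / (2 * Real.pi)) ^ 2 * ∑ k ∈ fr T, ‖fcC F X k‖ ^ 2) ≤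
      w ^ 2 * ∑ k ∈ fr T, ‖fcC F X k‖ ^ 2 := by
    rw [← mul_assoc]
    apply mul_le_mul_of_nonneg_right _ (Finset.sum_nonneg fun _ _ => by positivity)
    rw [div_pow]
    have : 2 * Real.pi * (w ^ 2 / (2 * Real.pi) ^ 2) = w ^ 2 / (2 * Real.pi) := by
      field_simp
    rw [this, div_le_iff₀ (by positivity)]
    nlinarith [sq_nonneg w]
  linarith

end Pool.Agent.ECM

end

/-! ### from `Lib_MP_f1a94e_mu.StageM` -/

section

/-!
# Piece STAGEM: one stage, without the error term `T / X`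
-/

set_option autoImplicit false

namespace Pool.Agent.GaussMR

theorem sm_mul_star (z : G) : z * star z = ((nm z : ℕ) : G) := by
  apply Zsqrtd.ext
  · have := nm_eq z
    simp only [Zsqrtd.re_mul, Zsqrtd.re_star, Zsqrtd.im_star, Zsqrtd.re_natCast]
    rw [this]
    ring
  · simp only [Zsqrtd.im_mul, Zsqrtd.re_star, Zsqrtd.im_star, Zsqrtd.im_natCast]
    ring

open Classical in
/-- the substitution `z = star w * z'` -/
theorem sm_sub (F : G → ℝ) (hF : PM F) {w : G} (hw : Spl w) (X Y : ℝ) (k : ℤ) (hX : 0 ≤ X)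
    (hYX : Y ≤ X) :
    (F w : ℂ) * xi (-k) w * ∑ z ∈ (V Y).filter (fun z => star w ∣ z), (F z : ℂ) * xi (-k) z =
      ∑ z ∈ (V (3 * X)).filter (fun z => ¬ w ∣ z ∧ (nm w : ℝ) * nm z ≤ Y),
        (F z : ℂ) * xi (-k) z := by
  have hw' : Spl (star w) := hw.conj
  have hw0 : w ≠ 0 := ne_zero_of_odd hw.odd
  have hw0' : star w ≠ 0 := ne_zero_of_odd hw'.odd
  have hnw1 : (1 : ℝ) ≤ nm w := by exact_mod_cast nm_pos hw0
  rw [Finset.mul_sum]
  symm
  refine Finset.sum_bij (fun z _ => star w * z) ?_ ?_ ?_ ?_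
  · intro z hz
    rw [Finset.mem_filter, mem_V] at hz
    obtain ⟨⟨h1, h2, h3⟩, h4, h5⟩ := hz
    rw [Finset.mem_filter, mem_V]
    refine ⟨⟨?_, odd_nm_mul.mpr ⟨hw'.odd, h2⟩, ?_⟩, dvd_mul_right _ _⟩
    · rw [nm_mul, nm_star]
      push_cast
      exact h5
    · refine (prim_mul_iff hw' h3).mpr ?_
      rwa [star_star]
  · intro z _ z' _ h
    exact mul_left_cancel₀ hw0' h
  · intro z' hz'
    rw [Finset.mem_filter, mem_V] at hz'
    obtain ⟨⟨h1, h2, h3⟩, ⟨z, rfl⟩⟩ := hz'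
    have hz2 : Prim z := (prim_of_mul h3).2
    refine ⟨z, ?_, rfl⟩
    rw [nm_mul, nm_star] at h1
    push_cast at h1
    rw [Finset.mem_filter, mem_V]
    refine ⟨⟨?_, (odd_nm_mul.mp h2).2, hz2⟩, ?_, h1⟩
    · have h5 : (0 : ℝ) ≤ nm z := Nat.cast_nonneg _
      have h6 : (nm z : ℝ) ≤ nm w * nm z := by nlinarith
      linarith
    · have := (prim_mul_iff hw' hz2).mp h3
      rwa [star_star] at this
  · intro z hz
    rw [Finset.mem_filter, mem_V] at hz
    have hz1 := hz.1.2.1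
    have e1 : (F w : ℂ) * (F (star w * z) : ℂ) = (F z : ℂ) := by
      rw [hF.mul (star w) z hw'.odd hz1, hF.conj w hw.odd]
      have := hF.sq hw.odd
      have h2 : F w * (F w * F z) = F z := by
        calc F w * (F w * F z) = F w ^ 2 * F z := by ring
          _ = F z := by rw [this, one_mul]
      exact_mod_cast h2
    have e2 : xi (-k) w * xi (-k) (star w * z) = xi (-k) z := by
      rw [← xi_mul, ← mul_assoc, sm_mul_star, xi_natCast_mul _ (nm_pos hw0)]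
    calc (F z : ℂ) * xi (-k) z = ((F w : ℂ) * (F (star w * z) : ℂ)) *
          (xi (-k) w * xi (-k) (star w * z)) := by rw [e1, e2]
      _ = _ := by ring

open Classical in
/-- number of representations -/
noncomputable def smc (P Q ρ X : ℝ) (z : G) : ℝ :=
  ∑ v ∈ Finset.range (nv Q ρ), ∑ w ∈ blk P Q ρ v,
    if ¬ w ∣ z ∧ (nm w : ℝ) * nm z ≤ X * Real.exp (-(v * ρ)) then 1 else 0

theorem sm_A2_eq (F : G → ℝ) (hF : PM F) (P Q ρ X : ℝ) (k : ℤ) (hρ : 0 < ρ) (hX : 0 ≤ X) :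
    A2 F P Q ρ X k = ∑ z ∈ V (3 * X), ((smc P Q ρ X z : ℂ) * (F z : ℂ)) * xi (-k) z := by
  classical
  unfold A2
  have h1 : ∀ v ∈ Finset.range (nv Q ρ), ∑ w ∈ blk P Q ρ v, (F w : ℂ) * xi (-k) w *
      ∑ z ∈ (V (X * Real.exp (-(v * ρ)))).filter (fun z => star w ∣ z), (F z : ℂ) * xi (-k) z =
      ∑ w ∈ blk P Q ρ v, ∑ z ∈ V (3 * X),
        if ¬ w ∣ z ∧ (nm w : ℝ) * nm z ≤ X * Real.exp (-(v * ρ)) then
          (F z : ℂ) * xi (-k) z else 0 := by
    intro v _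
    refine Finset.sum_congr rfl fun w hw => ?_
    have hsp := PP_spl (mem_blk.mp hw).1
    have hexp : Real.exp (-(v * ρ)) ≤ 1 := by
      rw [Real.exp_le_one_iff]
      have : (0 : ℝ) ≤ v * ρ := by positivity
      linarith
    rw [sm_sub F hF hsp X _ k hX (by nlinarith), Finset.sum_filter]
  rw [Finset.sum_congr rfl h1]
  have h2 : ∀ v ∈ Finset.range (nv Q ρ), (∑ w ∈ blk P Q ρ v, ∑ z ∈ V (3 * X),
        if ¬ w ∣ z ∧ (nm w : ℝ) * nm z ≤ X * Real.exp (-(v * ρ)) then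
          (F z : ℂ) * xi (-k) z else 0) = ∑ z ∈ V (3 * X), ∑ w ∈ blk P Q ρ v,
        if ¬ w ∣ z ∧ (nm w : ℝ) * nm z ≤ X * Real.exp (-(v * ρ)) then
          (F z : ℂ) * xi (-k) z else 0 := fun v _ => Finset.sum_comm
  rw [Finset.sum_congr rfl h2, Finset.sum_comm]
  refine Finset.sum_congr rfl fun z _ => ?_
  unfold smc
  push_cast
  rw [Finset.sum_mul, Finset.sum_mul]
  refine Finset.sum_congr rfl fun v _ => ?_
  rw [Finset.sum_mul, Finset.sum_mul]
  refine Finset.sum_congr rfl fun w _ => ?_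
  split_ifs <;> simp

open Classical in
theorem smc_le (P Q ρ X : ℝ) (hρ : 0 < ρ) (hρ1 : ρ ≤ 1) (hX : 0 ≤ X) (z : G) :
    smc P Q ρ X z ≤ ∑ w ∈ PP P Q, if (nm w : ℝ) ^ 2 * nm z ≤ 3 * X then 1 else 0 := by
  have hexp : Real.exp ρ ≤ 3 := by
    have := Real.exp_one_lt_d9
    exact (Real.exp_le_exp.mpr hρ1).trans (by linarith)
  refine le_trans ?_ (sum_blk_le (P := P) (Q := Q) hρ
    (fun w => if (nm w : ℝ) ^ 2 * nm z ≤ 3 * X then 1 else 0)
    (fun w _ => by split_ifs <;> norm_num))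
  unfold smc
  refine Finset.sum_le_sum fun v _ => Finset.sum_le_sum fun w hw => ?_
  by_cases h : ¬ w ∣ z ∧ (nm w : ℝ) * nm z ≤ X * Real.exp (-(v * ρ))
  · have h2 : (nm w : ℝ) ^ 2 * nm z ≤ 3 * X := by
      have h3 := (mem_blk.mp hw).2.2
      calc (nm w : ℝ) ^ 2 * nm z = nm w * ((nm w : ℝ) * nm z) := by ring
        _ ≤ Real.exp ((v + 1) * ρ) * (X * Real.exp (-(v * ρ))) :=
            mul_le_mul h3 h.2 (by positivity) (by positivity)
        _ = Real.exp ρ * X := by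
            rw [show (Real.exp ((v + 1) * ρ) * (X * Real.exp (-(v * ρ))) : ℝ) =
              (Real.exp ((v + 1) * ρ) * Real.exp (-(v * ρ))) * X by ring, ← Real.exp_add]
            congr 2
            ring
        _ ≤ 3 * X := by nlinarith
    rw [if_pos h, if_pos h2]
  · rw [if_neg h]
    split_ifs <;> norm_num

open Classical in
/-- the second moment of the number of representations -/
theorem sm_second (P Q X : ℝ) (hP : 1 ≤ P) (hX : 0 ≤ X) :
    ∑ z ∈ V (3 * X), (∑ w ∈ PP P Q, if (nm w : ℝ) ^ 2 * nm z ≤ 3 * X then (1 : ℝ) else 0) ^ 2 ≤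
      54 * X * Ls P Q := by
  have hpos : ∀ w ∈ PP P Q, (0 : ℝ) < nm w := by
    intro w hw
    have := (mem_PP.mp hw).1
    linarith
  set h : G → G → ℝ := fun w z => if (nm w : ℝ) ^ 2 * nm z ≤ 3 * X then 1 else 0 with hh
  have hh0 : ∀ w z, 0 ≤ h w z := by
    intro w z
    simp only [hh]
    split_ifs <;> norm_num
  have hh1 : ∀ w z, h w z ≤ 1 := by
    intro w z
    simp only [hh]
    split_ifs <;> norm_num
  -- one column
  have hcol : ∀ w ∈ PP P Q, ∑ z ∈ V (3 * X), h w z ≤ 27 * X / (nm w : ℝ) ^ 2 := by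
    intro w hw
    have hp := hpos w hw
    have h1 : ∑ z ∈ V (3 * X), h w z =
        (((V (3 * X)).filter (fun z => (nm w : ℝ) ^ 2 * nm z ≤ 3 * X)).card : ℝ) := by
      rw [Finset.card_filter]
      push_cast
      rfl
    rw [h1]
    have h2 : (V (3 * X)).filter (fun z => (nm w : ℝ) ^ 2 * nm z ≤ 3 * X) ⊆
        (ball (3 * X / (nm w : ℝ) ^ 2)).filter (fun z => z ≠ 0) := by
      intro z hz
      rw [Finset.mem_filter] at hz ⊢
      refine ⟨?_, V_ne_zero hz.1⟩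
      rw [mem_ball, le_div_iff₀ (by positivity), mul_comm]
      exact hz.2
    have h3 : (((V (3 * X)).filter (fun z => (nm w : ℝ) ^ 2 * nm z ≤ 3 * X)).card : ℝ) ≤
        (((ball (3 * X / (nm w : ℝ) ^ 2)).filter (fun z => z ≠ 0)).card : ℝ) := by
      exact Nat.cast_le.mpr (Finset.card_le_card h2)
    refine h3.trans ((card_ball_le _ (by positivity)).trans (le_of_eq ?_))
    ring
  -- pairs
  have hpair : ∀ w1 ∈ PP P Q, ∀ w2 ∈ PP P Q, ∑ z ∈ V (3 * X), h w1 z * h w2 z ≤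
      (if nm w1 ≤ nm w2 then 27 * X / (nm w2 : ℝ) ^ 2 else 0) +
        (if nm w2 ≤ nm w1 then 27 * X / (nm w1 : ℝ) ^ 2 else 0) := by
    intro w1 hw1 w2 hw2
    have p1 := hpos w1 hw1
    have p2 := hpos w2 hw2
    have q1 : (0 : ℝ) ≤ if nm w1 ≤ nm w2 then 27 * X / (nm w2 : ℝ) ^ 2 else 0 := by
      split_ifs
      · positivity
      · exact le_rfl
    have q2 : (0 : ℝ) ≤ if nm w2 ≤ nm w1 then 27 * X / (nm w1 : ℝ) ^ 2 else 0 := by
      split_ifs
      · positivity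
      · exact le_rfl
    rcases le_total (nm w1) (nm w2) with hle | hle
    · have e1 : ∑ z ∈ V (3 * X), h w1 z * h w2 z ≤ ∑ z ∈ V (3 * X), h w2 z :=
        Finset.sum_le_sum fun z _ => by nlinarith [hh0 w1 z, hh1 w1 z, hh0 w2 z]
      have e2 := hcol w2 hw2
      have e3 : (if nm w1 ≤ nm w2 then 27 * X / (nm w2 : ℝ) ^ 2 else 0) =
          27 * X / (nm w2 : ℝ) ^ 2 := if_pos hle
      linarith
    · have e1 : ∑ z ∈ V (3 * X), h w1 z * h w2 z ≤ ∑ z ∈ V (3 * X), h w1 z :=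
        Finset.sum_le_sum fun z _ => by nlinarith [hh0 w2 z, hh1 w2 z, hh0 w1 z]
      have e2 := hcol w1 hw1
      have e3 : (if nm w2 ≤ nm w1 then 27 * X / (nm w1 : ℝ) ^ 2 else 0) =
          27 * X / (nm w1 : ℝ) ^ 2 := if_pos hle
      linarith
  -- number of smaller primes
  have hcount : ∀ w2 ∈ PP P Q, ∑ w1 ∈ PP P Q, (if nm w1 ≤ nm w2 then 27 * X / (nm w2 : ℝ) ^ 2
      else 0) ≤ 27 * X * (1 / (nm w2 : ℝ)) := by
    intro w2 hw2
    have p2 := hpos w2 hw2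
    rw [← Finset.sum_filter, Finset.sum_const, nsmul_eq_mul]
    have e1 : ((PP P Q).filter (fun w1 => nm w1 ≤ nm w2)).card ≤ nm w2 := by
      have hinj : Set.InjOn nm (((PP P Q).filter (fun w1 => nm w1 ≤ nm w2) : Finset G) : Set G) := by
        intro w hw w' hw' he
        rw [Finset.mem_coe, Finset.mem_filter] at hw hw'
        exact PP_inj hw.1 hw'.1 he
      have hmaps : ∀ w ∈ (PP P Q).filter (fun w1 => nm w1 ≤ nm w2), nm w ∈ Finset.Icc 1 (nm w2) := by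
        intro w hw
        rw [Finset.mem_filter] at hw
        rw [Finset.mem_Icc]
        refine ⟨?_, hw.2⟩
        have := hpos w hw.1
        have h3 : 0 < nm w := by exact_mod_cast this
        exact h3
      have := Finset.card_le_card_of_injOn nm hmaps hinj
      simpa using this
    have e2 : (((PP P Q).filter (fun w1 => nm w1 ≤ nm w2)).card : ℝ) ≤ nm w2 := by
      exact_mod_cast e1
    calc (((PP P Q).filter (fun w1 => nm w1 ≤ nm w2)).card : ℝ) * (27 * X / (nm w2 : ℝ) ^ 2)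
        ≤ (nm w2 : ℝ) * (27 * X / (nm w2 : ℝ) ^ 2) :=
          mul_le_mul_of_nonneg_right e2 (by positivity)
      _ = 27 * X * (1 / (nm w2 : ℝ)) := by field_simp
  have hsq : ∀ z, (∑ w ∈ PP P Q, h w z) ^ 2 = ∑ w1 ∈ PP P Q, ∑ w2 ∈ PP P Q, h w1 z * h w2 z := by
    intro z
    rw [sq, Finset.sum_mul_sum]
  calc ∑ z ∈ V (3 * X), (∑ w ∈ PP P Q, h w z) ^ 2
      = ∑ z ∈ V (3 * X), ∑ w1 ∈ PP P Q, ∑ w2 ∈ PP P Q, h w1 z * h w2 z :=
        Finset.sum_congr rfl fun z _ => hsq z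
    _ = ∑ w1 ∈ PP P Q, ∑ w2 ∈ PP P Q, ∑ z ∈ V (3 * X), h w1 z * h w2 z := by
        rw [Finset.sum_comm]
        exact Finset.sum_congr rfl fun w1 _ => Finset.sum_comm
    _ ≤ ∑ w1 ∈ PP P Q, ∑ w2 ∈ PP P Q,
          ((if nm w1 ≤ nm w2 then 27 * X / (nm w2 : ℝ) ^ 2 else 0) +
            (if nm w2 ≤ nm w1 then 27 * X / (nm w1 : ℝ) ^ 2 else 0)) :=
        Finset.sum_le_sum fun w1 h1 => Finset.sum_le_sum fun w2 h2 => hpair w1 h1 w2 h2
    _ = ∑ w2 ∈ PP P Q, ∑ w1 ∈ PP P Q, (if nm w1 ≤ nm w2 then 27 * X / (nm w2 : ℝ) ^ 2 else 0) +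
          ∑ w1 ∈ PP P Q, ∑ w2 ∈ PP P Q,
            (if nm w2 ≤ nm w1 then 27 * X / (nm w1 : ℝ) ^ 2 else 0) := by
        simp only [Finset.sum_add_distrib]
        congr 1
        exact Finset.sum_comm
    _ ≤ ∑ w2 ∈ PP P Q, 27 * X * (1 / (nm w2 : ℝ)) + ∑ w1 ∈ PP P Q, 27 * X * (1 / (nm w1 : ℝ)) :=
        add_le_add (Finset.sum_le_sum hcount) (Finset.sum_le_sum hcount)
    _ = 54 * X * Ls P Q := by
        rw [← Finset.mul_sum]
        unfold Ls
        ring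

/-- better bound for the non primitive terms: with `z = star w * z'` (`z'` primitive, `¬ w ∣ z'`, cf.
`prim_mul_iff`) one has `F w F z xi_{-k}(w z) = F z' xi_{-k}(z')` (`F w F (star w) = 1`,
`w * star w = nm w` has direction `1`: `xi_natCast_mul`). So
`A2 = ∑_{z'} c(z') F z' xi_{-k}(z')`, `c(z')` = number of pairs `(v, w)`, `w ∈ blk v`, `¬ w ∣ z'`,
`nm w * nm z' ≤ X e^(-vρ)`; such pairs have `nm w ^ 2 * nm z' ≤ X e^ρ ≤ 3 X`, in particular all `z'` with
`c(z') ≠ 0` lie in `V (3 X)`. `large_sieve` on `V (3 X)`: `≤ C (T + 3 X) ∑ c(z')²`, and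
`∑ c(z')² ≤ ∑_{w1, w2} #{z' ≠ 0 : nm z' ≤ 3 X / max(nm w1, nm w2)²} ≤ 2 ∑_{w2} ∑_{nm w1 ≤ nm w2} 27 X / (nm w2)²
≤ 54 X ∑_{w2} 1 / nm w2 = 54 X Ls` (`card_ball_le`; the number of `w1` in `PP` with `nm w1 ≤ nm w2` is at
most `nm w2` because distinct elements have distinct norms, `PP_inj`). -/
theorem A2_small : ∃ C : ℝ, 0 < C ∧ ∀ (F : G → ℝ), PM F → ∀ (P Q ρ X : ℝ) (T : ℕ),
    2 ≤ P → 0 < ρ → ρ ≤ 1 → 1 ≤ X → (T : ℝ) ≤ X →
    ∑ k ∈ fr T, ‖A2 F P Q ρ X k‖ ^ 2 ≤ C * X ^ 2 * Ls P Q := by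
  classical
  obtain ⟨C1, hC1, hls⟩ := large_sieve
  refine ⟨216 * C1, by positivity, ?_⟩
  intro F hF P Q ρ X T hP hρ hρ1 hX hTX
  have hX0 : 0 < X := by linarith
  simp only [sm_A2_eq F hF P Q ρ X _ hρ hX0.le]
  refine (hls (3 * X) T (fun z => (smc P Q ρ X z : ℂ) * (F z : ℂ)) (by linarith)).trans ?_
  have h1 : ∑ z ∈ V (3 * X), ‖(smc P Q ρ X z : ℂ) * (F z : ℂ)‖ ^ 2 ≤ 54 * X * Ls P Q := by
    refine le_trans (Finset.sum_le_sum fun z hz => ?_) (sm_second P Q X (by linarith) hX0.le)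
    rw [norm_mul, hF.norm (mem_V.mp hz).2.1, mul_one, Complex.norm_real, Real.norm_eq_abs,
      sq_abs]
    have h2 : 0 ≤ smc P Q ρ X z := by
      unfold smc
      refine Finset.sum_nonneg fun v _ => Finset.sum_nonneg fun w _ => ?_
      split_ifs <;> norm_num
    exact pow_le_pow_left₀ h2 (smc_le P Q ρ X hρ hρ1 hX0.le z) 2
  have h3 : 0 ≤ Ls P Q := Finset.sum_nonneg fun w _ => by positivity
  calc C1 * (T + 3 * X) * ∑ z ∈ V (3 * X), ‖(smc P Q ρ X z : ℂ) * (F z : ℂ)‖ ^ 2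
      ≤ C1 * (X + 3 * X) * (54 * X * Ls P Q) := by
        apply mul_le_mul _ h1 (Finset.sum_nonneg fun _ _ => by positivity) (by positivity)
        apply mul_le_mul_of_nonneg_left _ hC1.le
        linarith
    _ = 216 * C1 * X ^ 2 * Ls P Q := by ring

/-- as `stage` (Lib_MP_f1a94e_mr/Stage.lean), with `A2_small` in place of `A2_bound` -/
theorem stageM : ∃ C : ℝ, 0 < C ∧ ∀ (F : G → ℝ), PM F → ∀ (P Q ρ X : ℝ) (T : ℕ),
    2 ≤ P → P ≤ Q → Q ^ 20 ≤ X → 0 < ρ → ρ ≤ 1 → X ^ (-(1 / 4 : ℝ)) ≤ ρ → (T : ℝ) ≤ X →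
    1 ≤ Ls P Q →
    ∑ k ∈ fr T, ‖(Ls P Q : ℂ) * fc F X k - UZ F P Q ρ X k‖ ^ 2 ≤
      C * X ^ 2 * Ls P Q ^ 2 * (1 / Ls P Q + ρ) := by
  classical
  obtain ⟨C1, hC1, hls⟩ := large_sieve
  obtain ⟨C2, hC2, htk⟩ := TK
  obtain ⟨C3, hC3, hann⟩ := annulus
  obtain ⟨C4, hC4, hA2s⟩ := A2_small
  refine ⟨3 * (4 * C1 * C2 + C4 + 16 * C1 * C3), by positivity, ?_⟩
  intro F hF P Q ρ X T hP hPQ hQX hρ hρ1 hXρ hTX hLs
  have hQ2 : 2 ≤ Q := hP.trans hPQ
  have hX1 : 1 ≤ X := (one_le_pow₀ (by linarith : (1 : ℝ) ≤ Q)).trans hQX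
  have hX0 : 0 < X := by linarith
  have hLs0 : 0 < Ls P Q := by linarith
  set L := Ls P Q with hL
  -- the three parts
  have hdec : ∀ k, (L : ℂ) * fc F X k - UZ F P Q ρ X k =
      ∑ z ∈ V X, ((F z : ℂ) * ((L - om P Q z : ℝ) : ℂ)) * xi (-k) z - A2 F P Q ρ X k -
        A3 F P Q ρ X k := by
    intro k
    rw [stage_id F hF P Q ρ X k (by linarith) hPQ hρ hX1]
    have e1 : ∑ z ∈ V X, ((F z : ℂ) * ((L - om P Q z : ℝ) : ℂ)) * xi (-k) z =
        (L : ℂ) * fc F X k - ∑ z ∈ V X, (F z : ℂ) * (om P Q z : ℂ) * xi (-k) z := by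
      rw [fc, Finset.mul_sum, ← Finset.sum_sub_distrib]
      refine Finset.sum_congr rfl fun z _ => ?_
      push_cast
      ring
    rw [e1]
    ring
  have h3 : ∀ a b c : ℂ, ‖a - b - c‖ ^ 2 ≤ 3 * (‖a‖ ^ 2 + ‖b‖ ^ 2 + ‖c‖ ^ 2) := by
    intro a b c
    have e1 : ‖a - b - c‖ ≤ ‖a‖ + ‖b‖ + ‖c‖ :=
      (norm_sub_le _ _).trans (add_le_add_left (norm_sub_le _ _) _)
    have e2 := pow_le_pow_left₀ (norm_nonneg _) e1 2
    nlinarith [sq_nonneg (‖a‖ - ‖b‖), sq_nonneg (‖b‖ - ‖c‖), sq_nonneg (‖a‖ - ‖c‖)]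
  -- first part
  have hA1 : ∑ k ∈ fr T, ‖∑ z ∈ V X, ((F z : ℂ) * ((L - om P Q z : ℝ) : ℂ)) * xi (-k) z‖ ^ 2 ≤
      4 * C1 * C2 * X ^ 2 * L := by
    refine (hls X T (fun z => (F z : ℂ) * ((L - om P Q z : ℝ) : ℂ)) hX1).trans ?_
    have e1 : ∑ z ∈ V X, ‖(F z : ℂ) * ((L - om P Q z : ℝ) : ℂ)‖ ^ 2 =
        ∑ z ∈ V X, (om P Q z - L) ^ 2 := by
      refine Finset.sum_congr rfl fun z hz => ?_
      rw [norm_mul, hF.norm (mem_V.mp hz).2.1, one_mul, Complex.norm_real, Real.norm_eq_abs,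
        sq_abs]
      ring
    rw [e1]
    have e2 := htk P Q X hP hPQ hQX
    have e3 : C2 * X * (L + 1) ≤ C2 * X * (2 * L) := by
      gcongr
      linarith
    calc C1 * (T + X) * ∑ z ∈ V X, (om P Q z - L) ^ 2 ≤ C1 * (X + X) * (C2 * X * (2 * L)) := by
          have e4 : 0 ≤ ∑ z ∈ V X, (om P Q z - L) ^ 2 := Finset.sum_nonneg fun _ _ => sq_nonneg _
          gcongr
          exact e2.trans e3
      _ = 4 * C1 * C2 * X ^ 2 * L := by ring
  -- third part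
  have hA3 : ∑ k ∈ fr T, ‖A3 F P Q ρ X k‖ ^ 2 ≤ 16 * C1 * C3 * X ^ 2 * L ^ 2 * ρ := by
    have hexp : Real.exp ρ ≤ 3 := by
      have := Real.exp_one_lt_d9
      exact (Real.exp_le_exp.mpr hρ1).trans (by linarith)
    have hexp1 : 1 ≤ Real.exp ρ := Real.one_le_exp hρ.le
    have hXe : 1 ≤ X * Real.exp ρ := by nlinarith
    set a : G → ℂ := fun z => if z ∈ V X then 0 else (F z : ℂ) * (mA P Q ρ X z : ℂ) with ha
    have hsub : V X ⊆ V (X * Real.exp ρ) := by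
      intro z hz
      rw [mem_V] at hz ⊢
      exact ⟨hz.1.trans (by nlinarith), hz.2⟩
    have e1 : ∀ k, A3 F P Q ρ X k = ∑ z ∈ V (X * Real.exp ρ), a z * xi (-k) z := by
      intro k
      rw [← Finset.sum_sdiff hsub, A3]
      have e2 : ∑ z ∈ V X, a z * xi (-k) z = 0 := by
        refine Finset.sum_eq_zero fun z hz => ?_
        rw [ha]
        simp [hz]
      rw [e2, add_zero]
      refine Finset.sum_congr rfl fun z hz => ?_
      have e3 : z ∉ V X := (Finset.mem_sdiff.mp hz).2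
      rw [ha]
      simp [e3]
    have e2 : ∑ z ∈ V (X * Real.exp ρ), ‖a z‖ ^ 2 ≤ C3 * ρ * X * (2 * L) ^ 2 := by
      rw [← Finset.sum_sdiff hsub]
      have e3 : ∑ z ∈ V X, ‖a z‖ ^ 2 = 0 := by
        refine Finset.sum_eq_zero fun z hz => ?_
        rw [ha]
        simp [hz]
      rw [e3, add_zero]
      calc ∑ z ∈ V (X * Real.exp ρ) \ V X, ‖a z‖ ^ 2
          ≤ ∑ z ∈ V (X * Real.exp ρ) \ V X, (om P Q z) ^ 2 := by
            refine Finset.sum_le_sum fun z hz => ?_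
            have e4 : z ∉ V X := (Finset.mem_sdiff.mp hz).2
            have e5 := (Finset.mem_sdiff.mp hz).1
            have e6 : ‖a z‖ = mA P Q ρ X z := by
              rw [ha]
              simp only [e4, if_false]
              rw [norm_mul, hF.norm (mem_V.mp e5).2.1, one_mul, Complex.norm_natCast]
            rw [e6]
            exact pow_le_pow_left₀ (Nat.cast_nonneg _) (mA_le P Q ρ X hρ z (V_ne_zero e5)) 2
        _ ≤ C3 * ρ * X * (L + 1) ^ 2 := hann P Q X ρ hP hPQ hQX hρ hρ1 hXρ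
        _ ≤ C3 * ρ * X * (2 * L) ^ 2 := by
            gcongr
            linarith
    simp only [e1]
    refine (hls (X * Real.exp ρ) T a hXe).trans ?_
    calc C1 * (T + X * Real.exp ρ) * ∑ z ∈ V (X * Real.exp ρ), ‖a z‖ ^ 2
        ≤ C1 * (X + X * 3) * (C3 * ρ * X * (2 * L) ^ 2) := by
          have e4 : 0 ≤ ∑ z ∈ V (X * Real.exp ρ), ‖a z‖ ^ 2 :=
            Finset.sum_nonneg fun _ _ => sq_nonneg _
          gcongr
      _ = 16 * C1 * C3 * X ^ 2 * L ^ 2 * ρ := by ring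
  -- second part
  have hA2 : ∑ k ∈ fr T, ‖A2 F P Q ρ X k‖ ^ 2 ≤ C4 * X ^ 2 * L :=
    hA2s F hF P Q ρ X T hP hρ hρ1 hX1 hTX
  calc ∑ k ∈ fr T, ‖(L : ℂ) * fc F X k - UZ F P Q ρ X k‖ ^ 2
      ≤ ∑ k ∈ fr T, 3 * (‖∑ z ∈ V X, ((F z : ℂ) * ((L - om P Q z : ℝ) : ℂ)) * xi (-k) z‖ ^ 2 +
          ‖A2 F P Q ρ X k‖ ^ 2 + ‖A3 F P Q ρ X k‖ ^ 2) := by
        refine Finset.sum_le_sum fun k _ => ?_
        rw [hdec]
        exact h3 _ _ _
    _ = 3 * (∑ k ∈ fr T, ‖∑ z ∈ V X, ((F z : ℂ) * ((L - om P Q z : ℝ) : ℂ)) * xi (-k) z‖ ^ 2 +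
          ∑ k ∈ fr T, ‖A2 F P Q ρ X k‖ ^ 2 + ∑ k ∈ fr T, ‖A3 F P Q ρ X k‖ ^ 2) := by
        rw [← Finset.mul_sum, Finset.sum_add_distrib, Finset.sum_add_distrib]
    _ ≤ 3 * (4 * C1 * C2 * X ^ 2 * L + C4 * X ^ 2 * L +
          16 * C1 * C3 * X ^ 2 * L ^ 2 * ρ) := by gcongr
    _ ≤ 3 * (4 * C1 * C2 + C4 + 16 * C1 * C3) * X ^ 2 * L ^ 2 * (1 / L + ρ) := by
        have e1 : X ^ 2 * L ^ 2 * (1 / L) = X ^ 2 * L := by field_simp
        have e4 : 3 * (4 * C1 * C2 + C4 + 16 * C1 * C3) * X ^ 2 * L ^ 2 *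
            (1 / L + ρ) = 3 * (4 * C1 * C2 + C4 + 16 * C1 * C3) *
              (X ^ 2 * L + X ^ 2 * L ^ 2 * ρ) := by
          rw [← e1]
          ring
        rw [e4]
        have p2 : 0 ≤ C1 * C2 * (X ^ 2 * L ^ 2 * ρ) := by positivity
        have p4 : 0 ≤ C4 * (X ^ 2 * L ^ 2 * ρ) := by positivity
        have p6 : 0 ≤ C1 * C3 * (X ^ 2 * L) := by positivity
        nlinarith

end Pool.Agent.GaussMR

end

/-! ### from `Lib_MP_f1a94e_mu.Chain` -/

section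

/-!
# Piece CHAIN: all stages together
-/

set_option autoImplicit false

namespace Pool.Agent.GaussMR

/-- total error of stages `0, …, J` -/
noncomputable def Err (C : ℝ) (J : ℕ) (P Q r a l : ℕ → ℝ) : ℝ :=
  ∑ j ∈ Finset.range (J + 1), (1 / Ls (P j) (Q j) + r j) +
    (Real.log (Q 0) / r 0 + 1) ^ 2 * P 0 ^ (-(2 * a 0)) +
    ∑ j ∈ Finset.range J, (Real.log (Q (j + 1)) / r (j + 1) + 1) ^ 2 * (Real.log (Q j) / r j + 1) *
      Q j ^ 2 * Real.exp (C * (l j + 2) * Real.log (l j + 2)) *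
      P (j + 1) ^ (-(2 * (a (j + 1) - a j)))

/-- admissible parameters of stages `0, …, J` -/
def Adm (X : ℝ) (J : ℕ) (P Q r a l : ℕ → ℝ) : Prop :=
  (∀ j ≤ J, Real.exp 2 ≤ P j ∧ P j ≤ Q j ∧ Q j ^ 20 ≤ X ∧ 0 < r j ∧ r j ≤ 1 ∧
    X ^ (-(1 / 4 : ℝ)) ≤ r j ∧ 1 ≤ Ls (P j) (Q j) ∧ 0 ≤ a j ∧ a j ≤ 1) ∧
  (∀ j < J, a j ≤ a (j + 1) ∧ 1 ≤ l j ∧ 2 * Real.log (Q (j + 1)) ≤ l j * Real.log (P j))

open Classical in
/-- frequencies for which all prime polynomials of stage `j` are small -/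
noncomputable def smallSet (F : G → ℝ) (T : ℕ) (P Q r a : ℝ) : Finset ℤ :=
  (fr T).filter (fun k => ∀ v : ℕ, ‖U F P Q r v k‖ ≤ Real.exp ((1 - a) * (v * r)))

/-- splitting of the coefficient: `Ls fc = (Ls fc - UZ) + UZ`, `Ls ≥ 1` -/
theorem chain_split (L : ℝ) (hL : 1 ≤ L) (f u : ℂ) :
    ‖f‖ ^ 2 ≤ 2 / L ^ 2 * ‖(L : ℂ) * f - u‖ ^ 2 + 2 * ‖u‖ ^ 2 := by
  have h1 : L * ‖f‖ ≤ ‖(L : ℂ) * f - u‖ + ‖u‖ := by
    have h2 : (L : ℂ) * f = ((L : ℂ) * f - u) + u := by ring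
    have h3 : ‖(L : ℂ) * f‖ = L * ‖f‖ := by
      rw [norm_mul, Complex.norm_real, Real.norm_eq_abs, abs_of_pos (by linarith)]
    rw [← h3]
    nth_rewrite 1 [h2]
    exact norm_add_le _ _
  have h4 : (L * ‖f‖) ^ 2 ≤ 2 * (‖(L : ℂ) * f - u‖ ^ 2 + ‖u‖ ^ 2) := by
    have h0 : 0 ≤ L * ‖f‖ := by positivity
    calc (L * ‖f‖) ^ 2 ≤ (‖(L : ℂ) * f - u‖ + ‖u‖) ^ 2 := by gcongr
      _ ≤ 2 * (‖(L : ℂ) * f - u‖ ^ 2 + ‖u‖ ^ 2) := add_sq_le
  have hL2 : 0 < L ^ 2 := by positivity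
  have hL1 : 1 ≤ L ^ 2 := one_le_pow₀ hL
  have h5 : ‖f‖ ^ 2 ≤ 2 * (‖(L : ℂ) * f - u‖ ^ 2 + ‖u‖ ^ 2) / L ^ 2 := by
    rw [le_div_iff₀ hL2]
    nlinarith
  have h6 : 2 * (‖(L : ℂ) * f - u‖ ^ 2 + ‖u‖ ^ 2) / L ^ 2 =
      2 / L ^ 2 * ‖(L : ℂ) * f - u‖ ^ 2 + 2 * ‖u‖ ^ 2 / L ^ 2 := by ring
  have h7 : 2 * ‖u‖ ^ 2 / L ^ 2 ≤ 2 * ‖u‖ ^ 2 := div_le_self (by positivity) hL1
  linarith

open Classical in
/-- For `k` in the small set of stage `J` let `j ≤ J` be least such that `k` is in the small set of stage `j`;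
so `k ∈ K_j`, where `K_j` is the small set of stage `j` minus (if `j ≥ 1`) the small set of stage `j - 1`. On
`K_j`: `‖fc k‖² ≤ 2 / Ls² (‖Ls fc k - UZ k‖² + ‖UZ k‖²)`, `Ls ≥ 1`; first part by `stageM`, second part
by `small1` (`j = 0`, `T ≤ X / Q 0`) and `smallM` (`j ≥ 1`). The constant is the maximum of the constants. -/
theorem chain : ∃ C : ℝ, 0 < C ∧ ∀ (F : G → ℝ), PM F → ∀ (X : ℝ) (T J : ℕ) (P Q r a l : ℕ → ℝ),
    Adm X J P Q r a l → (T : ℝ) ≤ X / Q 0 →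
    ∑ k ∈ smallSet F T (P J) (Q J) (r J) (a J), ‖fc F X k‖ ^ 2 ≤ C * X ^ 2 * Err C J P Q r a l := by
  obtain ⟨C1, hC1, hstage⟩ := stageM
  obtain ⟨C2, hC2, hsmall1⟩ := small1
  obtain ⟨C3, hC3, hsmallM⟩ := smallM
  set C : ℝ := 2 * C1 + 2 * C2 + C3 + 2 with hC
  refine ⟨C, by positivity, ?_⟩
  intro F hF X T J P Q r a l hadm hT
  obtain ⟨hA, hB⟩ := hadm
  -- general facts
  have hPge : ∀ j ≤ J, 2 ≤ P j := by
    intro j hj
    have h1 := (hA j hj).1
    have h2 := Real.add_one_le_exp (2 : ℝ)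
    linarith
  have hQge : ∀ j ≤ J, 1 ≤ Q j := by
    intro j hj
    have h1 := hPge j hj
    have h2 := (hA j hj).2.1
    linarith
  have hQX : ∀ j ≤ J, Q j ≤ X := by
    intro j hj
    have h1 := hQge j hj
    have h2 := (hA j hj).2.2.1
    calc Q j = Q j ^ 1 := (pow_one _).symm
      _ ≤ Q j ^ 20 := pow_le_pow_right₀ h1 (by norm_num)
      _ ≤ X := h2
  have hX1 : 1 ≤ X := (hQge 0 (Nat.zero_le _)).trans (hQX 0 (Nat.zero_le _))
  have hTX : (T : ℝ) ≤ X := by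
    have h1 := hQge 0 (Nat.zero_le _)
    exact hT.trans (div_le_self (by linarith) h1)
  -- one stage
  have hone : ∀ j ≤ J, ∀ (S : Finset ℤ), S ⊆ fr T → ∀ (B : ℝ),
      ∑ k ∈ S, ‖UZ F (P j) (Q j) (r j) X k‖ ^ 2 ≤ B →
      ∑ k ∈ S, ‖fc F X k‖ ^ 2 ≤ 2 * C1 * X ^ 2 * (1 / Ls (P j) (Q j) + r j) + 2 * B := by
    intro j hj S hS B hB'
    obtain ⟨g1, g2, g3, g4, g5, g6, g7, g8, g9⟩ := hA j hj
    have h1 := hstage F hF (P j) (Q j) (r j) X T (hPge j hj) g2 g3 g4 g5 g6 hTX g7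
    set L : ℝ := Ls (P j) (Q j) with hL
    have hL0 : 0 < L := by linarith
    have h2 : ∑ k ∈ S, ‖(L : ℂ) * fc F X k - UZ F (P j) (Q j) (r j) X k‖ ^ 2 ≤
        C1 * X ^ 2 * L ^ 2 * (1 / L + r j) :=
      (Finset.sum_le_sum_of_subset_of_nonneg hS (fun _ _ _ => by positivity)).trans h1
    calc ∑ k ∈ S, ‖fc F X k‖ ^ 2
        ≤ ∑ k ∈ S, (2 / L ^ 2 * ‖(L : ℂ) * fc F X k - UZ F (P j) (Q j) (r j) X k‖ ^ 2 +
            2 * ‖UZ F (P j) (Q j) (r j) X k‖ ^ 2) :=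
          Finset.sum_le_sum fun k _ => chain_split L g7 _ _
      _ = 2 / L ^ 2 * ∑ k ∈ S, ‖(L : ℂ) * fc F X k - UZ F (P j) (Q j) (r j) X k‖ ^ 2 +
            2 * ∑ k ∈ S, ‖UZ F (P j) (Q j) (r j) X k‖ ^ 2 := by
          rw [Finset.sum_add_distrib, ← Finset.mul_sum, ← Finset.mul_sum]
      _ ≤ 2 / L ^ 2 * (C1 * X ^ 2 * L ^ 2 * (1 / L + r j)) + 2 * B := by gcongr
      _ = 2 * C1 * X ^ 2 * (1 / L + r j) + 2 * B := by
          congr 1
          field_simp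
  have hsub : ∀ j, smallSet F T (P j) (Q j) (r j) (a j) ⊆ fr T := fun j => Finset.filter_subset _ _
  have main : ∀ J' ≤ J, ∑ k ∈ smallSet F T (P J') (Q J') (r J') (a J'), ‖fc F X k‖ ^ 2 ≤
      C * X ^ 2 * Err C J' P Q r a l := by
    intro J'
    induction J' with
    | zero =>
      intro h0
      obtain ⟨g1, g2, g3, g4, g5, g6, g7, g8, g9⟩ := hA 0 h0
      have h1 := hsmall1 F hF (P 0) (Q 0) (r 0) X (a 0) T _ (hPge 0 h0) g2 (hQX 0 h0) g4 g5 g8 g9 hT
        (hsub 0) (fun k hk v => (Finset.mem_filter.mp hk).2 v)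
      have h2 := hone 0 h0 _ (hsub 0) _ h1
      refine h2.trans ?_
      unfold Err
      simp only [zero_add, Finset.range_one, Finset.sum_singleton, Finset.range_zero,
        Finset.sum_empty, add_zero]
      have e1 : 0 ≤ 1 / Ls (P 0) (Q 0) + r 0 := by
        have : 0 ≤ 1 / Ls (P 0) (Q 0) := by
          apply div_nonneg zero_le_one
          linarith
        linarith
      have e2 : 0 ≤ (Real.log (Q 0) / r 0 + 1) ^ 2 * P 0 ^ (-(2 * a 0)) := by
        have := hPge 0 h0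
        positivity
      have e3 : 2 * C1 * X ^ 2 * (1 / Ls (P 0) (Q 0) + r 0) ≤
          C * X ^ 2 * (1 / Ls (P 0) (Q 0) + r 0) := by
        have : 2 * C1 ≤ C := by rw [hC]; linarith
        gcongr
      have e4 : 2 * (C2 * X ^ 2 * (Real.log (Q 0) / r 0 + 1) ^ 2 * P 0 ^ (-(2 * a 0))) ≤
          C * X ^ 2 * ((Real.log (Q 0) / r 0 + 1) ^ 2 * P 0 ^ (-(2 * a 0))) := by
        have h3 : 2 * C2 ≤ C := by rw [hC]; linarith
        calc 2 * (C2 * X ^ 2 * (Real.log (Q 0) / r 0 + 1) ^ 2 * P 0 ^ (-(2 * a 0)))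
            = (2 * C2) * X ^ 2 * ((Real.log (Q 0) / r 0 + 1) ^ 2 * P 0 ^ (-(2 * a 0))) := by ring
          _ ≤ C * X ^ 2 * ((Real.log (Q 0) / r 0 + 1) ^ 2 * P 0 ^ (-(2 * a 0))) := by gcongr
      linarith
    | succ J' ih =>
      intro hJ
      have hJ' : J' ≤ J := by omega
      have ihJ := ih hJ'
      obtain ⟨g1, g2, g3, g4, g5, g6, g7, g8, g9⟩ := hA (J' + 1) hJ
      obtain ⟨f1, f2, f3, f4, f5, f6, f7, f8, f9⟩ := hA J' hJ'
      obtain ⟨b1, b2, b3⟩ := hB J' (by omega)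
      set S1 : Finset ℤ := smallSet F T (P (J' + 1)) (Q (J' + 1)) (r (J' + 1)) (a (J' + 1)) with hS1
      set S0 : Finset ℤ := smallSet F T (P J') (Q J') (r J') (a J') with hS0
      set B : ℝ := X ^ 2 * (Real.log (Q (J' + 1)) / r (J' + 1) + 1) ^ 2 * (Real.log (Q J') / r J' + 1) *
        Q J' ^ 2 * Real.exp (C3 * (l J' + 2) * Real.log (l J' + 2)) *
        P (J' + 1) ^ (-(2 * (a (J' + 1) - a J'))) with hBdef
      have h1 : ∑ k ∈ S1 \ S0, ‖UZ F (P (J' + 1)) (Q (J' + 1)) (r (J' + 1)) X k‖ ^ 2 ≤ B := by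
        refine hsmallM F hF (P J') (Q J') (P (J' + 1)) (Q (J' + 1)) (r J') (r (J' + 1)) X (a J')
          (a (J' + 1)) (l J') T (S1 \ S0) f1 f2 (hQX J' hJ') (by have := hPge (J' + 1) hJ; linarith)
          g2 (hQX _ hJ) b2 b3 f4 f5 g4 g5 f8 b1 g9 hTX
          (Finset.sdiff_subset.trans (hsub _)) ?_ ?_
        · intro k hk
          rw [Finset.mem_sdiff] at hk
          by_contra hc
          push Not at hc
          apply hk.2
          rw [hS0]
          exact Finset.mem_filter.mpr ⟨hsub _ hk.1, hc⟩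
        · intro k hk v
          rw [Finset.mem_sdiff] at hk
          exact (Finset.mem_filter.mp hk.1).2 v
      have h2 := hone (J' + 1) hJ (S1 \ S0) (Finset.sdiff_subset.trans (hsub _)) B h1
      have h3 : ∑ k ∈ S1, ‖fc F X k‖ ^ 2 ≤
          ∑ k ∈ S1 \ S0, ‖fc F X k‖ ^ 2 + ∑ k ∈ S0, ‖fc F X k‖ ^ 2 := by
        have h4 : S1 ⊆ (S1 \ S0) ∪ S0 := by
          intro k hk
          rw [Finset.mem_union, Finset.mem_sdiff]
          by_cases h : k ∈ S0
          · exact Or.inr h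
          · exact Or.inl ⟨hk, h⟩
        rw [← Finset.sum_union Finset.sdiff_disjoint]
        exact Finset.sum_le_sum_of_subset_of_nonneg h4 (fun _ _ _ => by positivity)
      have h5 : Err C (J' + 1) P Q r a l = Err C J' P Q r a l +
          (1 / Ls (P (J' + 1)) (Q (J' + 1)) + r (J' + 1)) +
          (Real.log (Q (J' + 1)) / r (J' + 1) + 1) ^ 2 * (Real.log (Q J') / r J' + 1) *
          Q J' ^ 2 * Real.exp (C * (l J' + 2) * Real.log (l J' + 2)) *
          P (J' + 1) ^ (-(2 * (a (J' + 1) - a J'))) := by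
        have hh : ∀ (f g : ℕ → ℝ) (A : ℝ),
            (∑ j ∈ Finset.range (J' + 1 + 1), f j) + A + ∑ j ∈ Finset.range (J' + 1), g j =
            ((∑ j ∈ Finset.range (J' + 1), f j) + A + ∑ j ∈ Finset.range J', g j) + f (J' + 1) +
              g J' := by
          intro f g A
          rw [Finset.sum_range_succ f (J' + 1), Finset.sum_range_succ g J']
          ring
        exact hh _ _ _
      have e1 : 2 * C1 * X ^ 2 * (1 / Ls (P (J' + 1)) (Q (J' + 1)) + r (J' + 1)) ≤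
          C * X ^ 2 * (1 / Ls (P (J' + 1)) (Q (J' + 1)) + r (J' + 1)) := by
        have h6 : 0 ≤ 1 / Ls (P (J' + 1)) (Q (J' + 1)) + r (J' + 1) := by
          have : 0 ≤ 1 / Ls (P (J' + 1)) (Q (J' + 1)) := by
            apply div_nonneg zero_le_one
            linarith
          linarith
        have : 2 * C1 ≤ C := by rw [hC]; linarith
        gcongr
      have e2 : 2 * B ≤ C * X ^ 2 * ((Real.log (Q (J' + 1)) / r (J' + 1) + 1) ^ 2 *
          (Real.log (Q J') / r J' + 1) *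
          Q J' ^ 2 * Real.exp (C * (l J' + 2) * Real.log (l J' + 2)) *
          P (J' + 1) ^ (-(2 * (a (J' + 1) - a J')))) := by
        have hlog : 0 ≤ Real.log (l J' + 2) := Real.log_nonneg (by linarith)
        have hC3C : C3 ≤ C := by rw [hC]; linarith
        have h2C : (2 : ℝ) ≤ C := by rw [hC]; linarith
        have hexp : Real.exp (C3 * (l J' + 2) * Real.log (l J' + 2)) ≤
            Real.exp (C * (l J' + 2) * Real.log (l J' + 2)) := by
          rw [Real.exp_le_exp]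
          have : 0 ≤ l J' + 2 := by linarith
          gcongr
        have hlQ : 0 ≤ Real.log (Q J') / r J' + 1 := by
          have : 0 ≤ Real.log (Q J') := Real.log_nonneg (hQge _ hJ')
          positivity
        have hPp : 0 < P (J' + 1) := by have := hPge _ hJ; linarith
        rw [hBdef]
        calc 2 * (X ^ 2 * (Real.log (Q (J' + 1)) / r (J' + 1) + 1) ^ 2 * (Real.log (Q J') / r J' + 1) *
              Q J' ^ 2 * Real.exp (C3 * (l J' + 2) * Real.log (l J' + 2)) *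
              P (J' + 1) ^ (-(2 * (a (J' + 1) - a J'))))
            = 2 * X ^ 2 * ((Real.log (Q (J' + 1)) / r (J' + 1) + 1) ^ 2 *
              (Real.log (Q J') / r J' + 1) *
              Q J' ^ 2 * Real.exp (C3 * (l J' + 2) * Real.log (l J' + 2)) *
              P (J' + 1) ^ (-(2 * (a (J' + 1) - a J')))) := by ring
          _ ≤ C * X ^ 2 * ((Real.log (Q (J' + 1)) / r (J' + 1) + 1) ^ 2 *
              (Real.log (Q J') / r J' + 1) *
              Q J' ^ 2 * Real.exp (C * (l J' + 2) * Real.log (l J' + 2)) *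
              P (J' + 1) ^ (-(2 * (a (J' + 1) - a J')))) := by gcongr
      rw [h5]
      have e3 : C * X ^ 2 * (Err C J' P Q r a l +
          (1 / Ls (P (J' + 1)) (Q (J' + 1)) + r (J' + 1)) +
          (Real.log (Q (J' + 1)) / r (J' + 1) + 1) ^ 2 * (Real.log (Q J') / r J' + 1) *
          Q J' ^ 2 * Real.exp (C * (l J' + 2) * Real.log (l J' + 2)) *
          P (J' + 1) ^ (-(2 * (a (J' + 1) - a J')))) =
          C * X ^ 2 * Err C J' P Q r a l +
          C * X ^ 2 * (1 / Ls (P (J' + 1)) (Q (J' + 1)) + r (J' + 1)) +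
          C * X ^ 2 * ((Real.log (Q (J' + 1)) / r (J' + 1) + 1) ^ 2 * (Real.log (Q J') / r J' + 1) *
          Q J' ^ 2 * Real.exp (C * (l J' + 2) * Real.log (l J' + 2)) *
          P (J' + 1) ^ (-(2 * (a (J' + 1) - a J')))) := by ring
      rw [e3]
      linarith
  exact main J le_rfl

end Pool.Agent.GaussMR

end

/-! ### from `Lib_MP_f1a94e_mu.Params` -/

section

/-!
# Piece PARAMS: choice of the parameters of the stages
-/

set_option autoImplicit false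

namespace Pool.Agent.GaussMR

namespace ParamsP

theorem Ls_lower {C' : ℝ} (hC' : ∀ P Q : ℝ, 2 ≤ P → P ≤ Q →
    |Ls P Q - (Real.log (Real.log Q) - Real.log (Real.log P)) / 2| ≤ C') {u v : ℝ} (hu : 1 ≤ u)
    (huv : u ≤ v) : (Real.log v - Real.log u) / 2 - C' ≤ Ls (Real.exp u) (Real.exp v) := by
  have h2 : 2 ≤ Real.exp u := by
    have := Real.add_one_le_exp u
    linarith
  have h := hC' (Real.exp u) (Real.exp v) h2 (Real.exp_le_exp.mpr huv)
  rw [Real.log_exp, Real.log_exp] at h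
  have := (abs_le.mp h).1
  linarith

/-- the large parameters -/
theorem large (C2 M ρ L : ℝ) (hC2 : 1 ≤ C2) (hM : 1 ≤ M) (hρ : 0 < ρ) :
    ∃ X0 : ℝ, ∀ X : ℝ, X0 ≤ X → 1 < X ∧ 0 < Real.log X ∧ L ≤ C2 * Real.log (Real.log X) ∧
      20 * M * (C2 * Real.log (Real.log X)) ≤ Real.log X ∧ X ^ (-(1 / 4 : ℝ)) ≤ ρ := by
  have h1 : Filter.Tendsto (fun X : ℝ => Real.log (Real.log X)) Filter.atTop Filter.atTop :=
    Real.tendsto_log_atTop.comp Real.tendsto_log_atTop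
  have h2 : Filter.Tendsto (fun X : ℝ => X ^ (-(1 / 4 : ℝ))) Filter.atTop (nhds 0) :=
    tendsto_rpow_neg_atTop (by norm_num)
  have h3 : (fun X : ℝ => Real.log (Real.log X)) =o[Filter.atTop] (fun X : ℝ => Real.log X) :=
    Real.isLittleO_log_id_atTop.comp_tendsto Real.tendsto_log_atTop
  have hc : 0 < 1 / (20 * M * C2) := by positivity
  have h4 := h3.bound hc
  have hev : ∀ᶠ X : ℝ in Filter.atTop, 1 < X ∧ 0 < Real.log X ∧
      L ≤ C2 * Real.log (Real.log X) ∧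
      20 * M * (C2 * Real.log (Real.log X)) ≤ Real.log X ∧ X ^ (-(1 / 4 : ℝ)) ≤ ρ := by
    filter_upwards [h1.eventually_ge_atTop (max L 0), h2.eventually_le_const hρ, h4,
      Filter.eventually_gt_atTop 1, Real.tendsto_log_atTop.eventually_gt_atTop 0] with X a1 a2 a3 a4 a5
    have a6 : L ≤ Real.log (Real.log X) := (le_max_left _ _).trans a1
    have a7 : 0 ≤ Real.log (Real.log X) := (le_max_right _ _).trans a1
    refine ⟨a4, a5, ?_, ?_, a2⟩
    · exact a6.trans (le_mul_of_one_le_left a7 hC2)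
    · rw [Real.norm_of_nonneg a7, Real.norm_of_nonneg a5.le] at a3
      have h5 := mul_le_mul_of_nonneg_left a3 (by positivity : 0 ≤ 20 * M * C2)
      have h6 : 20 * M * C2 * (1 / (20 * M * C2) * Real.log X) = Real.log X := by
        field_simp
      rw [h6] at h5
      linarith
  exact Filter.eventually_atTop.mp hev

theorem exists_J {b lam : ℝ} (hb : 2 ≤ b) (h : b ^ 8 ≤ lam) :
    ∃ n : ℕ, (b ^ (2 ^ n)) ^ 8 ≤ lam ∧ lam < (b ^ (2 ^ n)) ^ 16 := by
  classical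
  have hex : ∃ n : ℕ, lam < (b ^ (2 ^ n)) ^ 8 := by
    obtain ⟨n, hn⟩ := pow_unbounded_of_one_lt lam (by linarith : 1 < b)
    refine ⟨n, hn.trans_le ?_⟩
    rw [← pow_mul]
    refine pow_le_pow_right₀ (by linarith) ?_
    have := Nat.lt_two_pow_self (n := n)
    omega
  have h0 : Nat.find hex ≠ 0 := by
    intro h0
    have := Nat.find_spec hex
    rw [h0] at this
    simp only [pow_zero, pow_one] at this
    linarith
  obtain ⟨n, hn⟩ := Nat.exists_eq_succ_of_ne_zero h0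
  refine ⟨n, not_lt.mp (Nat.find_min hex (by omega)), ?_⟩
  have := Nat.find_spec hex
  rw [hn] at this
  refine this.trans_le (le_of_eq ?_)
  rw [← pow_mul, ← pow_mul, Nat.succ_eq_add_one, pow_succ]
  congr 1
  ring

end ParamsP

open ParamsP in
/-- Choice. `Ls P Q ≥ (log log Q - log log P) / 2 - C'` (`Ls_bounds`). `M` with `log M / 2 - C' ≥ 8 / ε` and
`≥ 1`, `ρ = ε / 16` (or `1` if smaller). `b` large: `μ_j = b ^ (2 ^ j)`, and for `j < J`
`P_j = exp (μ_j ^ 4)`, `Q_j = exp (μ_j ^ 5)` (so `Ls ≥ (log μ_j) / 2 - C' ≥ (log μ_j) / 4 ≥ 1`),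
`r_j = 1 / μ_j`, `a_j = α (1 - 1 / 2 ^ (j+1))`, `Q0 = exp (b ^ 5)`. With `λ = C2 log log X` let `J ≥ 1` be such
that `μ_(J-1) ^ 8 ≤ λ < μ_(J-1) ^ 16 = μ_J ^ 8` (exists for large `X`), and stage `J` has
`P_J = (log X)^C2 = exp λ`, `Q_J = exp (M λ)`, `r_J = ρ`, `a_J = α`. `l_j = 2 log Q_(j+1) / log P_j`:
`2 μ_j ^ 6` for `j + 1 < J` and `2 M λ / μ_(J-1) ^ 4` for `j = J - 1` (both `≥ 1`).
The terms of `Err`: `param_first`, `param_step` (`μ_(j+1) = μ_j²`, `a_(j+1) - a_j = α / 2^(j+2)`),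
`param_last` (`α - a_(J-1) = α / 2^J`), `param_sums`. `Q_j ^ 20 ≤ X`, `X^(-1/4) ≤ r_j`: clear for large
`X`, as `μ_j ≤ λ` and `Q_j ≤ exp (λ + M λ)`, for `j < J`. -/
theorem params (C α C2 ε : ℝ) (hC : 0 < C) (hα : 0 < α) (hα1 : α ≤ 1) (hC2 : 1 ≤ C2) (hε : 0 < ε) :
    ∃ M ρ Q0 : ℝ, 1 ≤ M ∧ 0 < ρ ∧ ρ ≤ 1 ∧ 1 ≤ Q0 ∧ ∃ X0 : ℝ, ∀ X : ℝ, X0 ≤ X →
      ∃ (J : ℕ) (P Q r a l : ℕ → ℝ), Adm X J P Q r a l ∧ Q 0 = Q0 ∧ P J = Real.log X ^ C2 ∧
        Q J = Real.log X ^ (C2 * M) ∧ r J = ρ ∧ a J = α ∧ Err C J P Q r a l ≤ ε := by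
  obtain ⟨C', hC'⟩ := Ls_bounds
  have hC'0 : 0 ≤ C' := (abs_nonneg _).trans (hC' 2 2 le_rfl le_rfl)
  obtain ⟨M, hM⟩ : ∃ M : ℝ, M = Real.exp (2 * (C' + 8 / ε + 1)) := ⟨_, rfl⟩
  have h8 : 0 < 8 / ε := by positivity
  have hM1 : 1 ≤ M := by
    rw [hM]
    apply Real.one_le_exp
    positivity
  have hlogM : Real.log M = 2 * (C' + 8 / ε + 1) := by rw [hM, Real.log_exp]
  obtain ⟨ρ, hρ⟩ : ∃ ρ : ℝ, ρ = min 1 (ε / 16) := ⟨_, rfl⟩
  have hρ0 : 0 < ρ := by rw [hρ]; positivity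
  have hρ1 : ρ ≤ 1 := by rw [hρ]; exact min_le_left _ _
  have hρε : ρ ≤ ε / 16 := by rw [hρ]; exact min_le_right _ _
  obtain ⟨b1, hb1, hstep⟩ := param_step C α hC.le hα
  obtain ⟨L0, hL0, hlast⟩ := param_last C α M ρ hC.le hα hM1 hρ0
  obtain ⟨b2, hb2, hfirst⟩ := param_first α (ε / 16) hα (by positivity)
  obtain ⟨b3, hb3, hsums⟩ := param_sums (ε / 16) (by positivity)
  obtain ⟨b, hb⟩ : ∃ b : ℝ, b = max (max b1 b2) (max b3 (Real.exp (4 * C' + 4))) := ⟨_, rfl⟩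
  have hbb1 : b1 ≤ b := by rw [hb]; exact (le_max_left _ _).trans (le_max_left _ _)
  have hbb2 : b2 ≤ b := by rw [hb]; exact (le_max_right _ _).trans (le_max_left _ _)
  have hbb3 : b3 ≤ b := by rw [hb]; exact (le_max_left _ _).trans (le_max_right _ _)
  have hbb4 : Real.exp (4 * C' + 4) ≤ b := by rw [hb]; exact (le_max_right _ _).trans (le_max_right _ _)
  have hb2' : 2 ≤ b := hb3.trans hbb3
  obtain ⟨hs1, hs2, hs3, hs4⟩ := hsums b hbb3
  obtain ⟨μ, hμ⟩ : ∃ μ : ℕ → ℝ, μ = fun j => b ^ (2 ^ j) := ⟨_, rfl⟩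
  have hμb : ∀ j, b ≤ μ j := by
    intro j
    rw [hμ]
    calc b = b ^ 1 := (pow_one b).symm
      _ ≤ b ^ (2 ^ j) := pow_le_pow_right₀ (by linarith) Nat.one_le_two_pow
  have hμ0 : μ 0 = b := by rw [hμ]; simp
  have hμs : ∀ j, μ (j + 1) = μ j ^ 2 := by
    intro j
    rw [hμ]
    simp only
    rw [← pow_mul, pow_succ]
  have hμ1 : ∀ j, 1 ≤ μ j := fun j => by linarith [hμb j]
  have hμp : ∀ j, 0 < μ j := fun j => by linarith [hμb j]
  have hμmono : ∀ i j, i ≤ j → μ i ≤ μ j := by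
    intro i j hij
    rw [hμ]
    exact pow_le_pow_right₀ (by linarith) (Nat.pow_le_pow_right (by norm_num) hij)
  have hμlog : ∀ j, 4 * C' + 4 ≤ Real.log (μ j) := by
    intro j
    rw [Real.le_log_iff_exp_le (hμp j)]
    exact hbb4.trans (hμb j)
  have hμ2j : ∀ j, (2 : ℝ) ^ j ≤ μ j := by
    intro j
    rw [hμ]
    exact hs1 j
  obtain ⟨X0, hX0⟩ := large C2 M ρ (max (max (b ^ 8) L0) 2) hC2 hM1 hρ0
  refine ⟨M, ρ, Real.exp (b ^ 5), hM1, hρ0, hρ1, Real.one_le_exp (by positivity), X0, ?_⟩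
  intro X hX
  obtain ⟨hX1, hlX, hlam, hlam20, hXρ⟩ := hX0 X hX
  obtain ⟨lam, hlamdef⟩ : ∃ lam : ℝ, lam = C2 * Real.log (Real.log X) := ⟨_, rfl⟩
  rw [← hlamdef] at hlam hlam20
  have hlamb : b ^ 8 ≤ lam := (le_max_left _ _).trans ((le_max_left _ _).trans hlam)
  have hlamL : L0 ≤ lam := (le_max_right _ _).trans ((le_max_left _ _).trans hlam)
  have hlam2 : 2 ≤ lam := (le_max_right _ _).trans hlam
  have hXpos : 0 < X := by linarith
  obtain ⟨n, hn1, hn2⟩ := exists_J hb2' hlamb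
  have hn1' : μ n ^ 8 ≤ lam := by rw [hμ]; exact hn1
  have hn2' : lam < μ n ^ 16 := by rw [hμ]; exact hn2
  have hμlam : ∀ j, j ≤ n → ∀ i, i ≤ 8 → μ j ^ i ≤ lam := by
    intro j hj i hi
    calc μ j ^ i ≤ μ j ^ 8 := pow_le_pow_right₀ (hμ1 j) hi
      _ ≤ μ n ^ 8 := pow_le_pow_left₀ (hμp j).le (hμmono j n hj) 8
      _ ≤ lam := hn1'
  have hlam0 : 0 ≤ lam := by linarith only [hlam2]
  have hMlam : lam ≤ M * lam := le_mul_of_one_le_left hlam0 hM1
  have hlogX20 : 20 * lam ≤ Real.log X := by linarith only [hMlam, hlam20]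
  -- the sequences
  obtain ⟨P, hP⟩ : ∃ P : ℕ → ℝ, P = fun j => if j ≤ n then Real.exp (μ j ^ 4) else Real.exp lam :=
    ⟨_, rfl⟩
  obtain ⟨Q, hQ⟩ : ∃ Q : ℕ → ℝ, Q = fun j => if j ≤ n then Real.exp (μ j ^ 5)
    else Real.exp (M * lam) := ⟨_, rfl⟩
  obtain ⟨r, hr⟩ : ∃ r : ℕ → ℝ, r = fun j => if j ≤ n then 1 / μ j else ρ := ⟨_, rfl⟩
  obtain ⟨a, ha⟩ : ∃ a : ℕ → ℝ, a = fun j => if j ≤ n then α * (1 - 1 / 2 ^ (j + 1)) else α :=
    ⟨_, rfl⟩
  obtain ⟨l, hl⟩ : ∃ l : ℕ → ℝ, l = fun j => if j < n then 2 * μ j ^ 6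
    else 2 * M * lam / μ j ^ 4 := ⟨_, rfl⟩
  have Pj : ∀ j, j ≤ n → P j = Real.exp (μ j ^ 4) := fun j hj => by rw [hP]; exact if_pos hj
  have Qj : ∀ j, j ≤ n → Q j = Real.exp (μ j ^ 5) := fun j hj => by rw [hQ]; exact if_pos hj
  have rj : ∀ j, j ≤ n → r j = 1 / μ j := fun j hj => by rw [hr]; exact if_pos hj
  have aj : ∀ j, j ≤ n → a j = α * (1 - 1 / 2 ^ (j + 1)) := fun j hj => by rw [ha]; exact if_pos hj
  have lj : ∀ j, j < n → l j = 2 * μ j ^ 6 := fun j hj => by rw [hl]; exact if_pos hj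
  have PJ : P (n + 1) = Real.exp lam := by rw [hP]; exact if_neg (by omega)
  have QJ : Q (n + 1) = Real.exp (M * lam) := by rw [hQ]; exact if_neg (by omega)
  have rJ : r (n + 1) = ρ := by rw [hr]; exact if_neg (by omega)
  have aJ : a (n + 1) = α := by rw [ha]; exact if_neg (by omega)
  have lJ : l n = 2 * M * lam / μ n ^ 4 := by rw [hl]; exact if_neg (by omega)
  have haj01 : ∀ j, 0 ≤ α * (1 - 1 / 2 ^ (j + 1)) ∧ α * (1 - 1 / 2 ^ (j + 1)) ≤ α := by
    intro j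
    have h1 : (1 : ℝ) ≤ 2 ^ (j + 1) := one_le_pow₀ (by norm_num)
    have h2 : (1 : ℝ) / 2 ^ (j + 1) ≤ 1 := by
      rw [div_le_one (by positivity)]
      exact h1
    have h3 : (0 : ℝ) < 1 / 2 ^ (j + 1) := by positivity
    constructor
    · exact mul_nonneg hα.le (by linarith only [h2])
    · linarith only [mul_nonneg hα.le h3.le]
  have hLsj : ∀ j, j ≤ n → Real.log (μ j) / 4 ≤ Ls (P j) (Q j) ∧ 1 ≤ Real.log (μ j) / 4 := by
    intro j hj
    rw [Pj j hj, Qj j hj]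
    have h1 := Ls_lower hC' (one_le_pow₀ (hμ1 j) : 1 ≤ μ j ^ 4)
      (pow_le_pow_right₀ (hμ1 j) (by norm_num : 4 ≤ 5))
    rw [Real.log_pow, Real.log_pow] at h1
    push_cast at h1
    have h2 := hμlog j
    constructor <;> linarith
  have hLsJ : 8 / ε + 1 ≤ Ls (P (n + 1)) (Q (n + 1)) := by
    rw [PJ, QJ]
    have h1 := Ls_lower hC' (by linarith only [hlam2] : 1 ≤ lam) hMlam
    rw [Real.log_mul (by linarith) (by linarith), hlogM] at h1
    linarith
  have hPJC : P (n + 1) = Real.log X ^ C2 := by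
    rw [PJ, Real.rpow_def_of_pos hlX, hlamdef]
    congr 1
    ring
  have hQJC : Q (n + 1) = Real.log X ^ (C2 * M) := by
    rw [QJ, Real.rpow_def_of_pos hlX, hlamdef]
    congr 1
    ring
  have hexp20 : ∀ v : ℝ, 20 * v ≤ Real.log X → Real.exp v ^ 20 ≤ X := by
    intro v hv
    rw [← Real.exp_nat_mul, ← Real.le_log_iff_exp_le hXpos]
    push_cast
    exact hv
  have hX4 : X ^ (-(1 / 4 : ℝ)) ≤ 1 / lam := by
    rw [Real.rpow_def_of_pos hXpos, le_div_iff₀ (by linarith)]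
    have h1 : lam ≤ Real.exp (Real.log X * (1 / 4)) := by
      have := Real.add_one_le_exp (Real.log X * (1 / 4))
      linarith
    calc Real.exp (Real.log X * -(1 / 4)) * lam ≤
        Real.exp (Real.log X * -(1 / 4)) * Real.exp (Real.log X * (1 / 4)) := by gcongr
      _ = 1 := by
        rw [← Real.exp_add]
        have : Real.log X * -(1 / 4) + Real.log X * (1 / 4) = 0 := by ring
        rw [this, Real.exp_zero]
  refine ⟨n + 1, P, Q, r, a, l, ⟨?_, ?_⟩, ?_, hPJC, hQJC, rJ, aJ, ?_⟩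
  · -- conditions for j ≤ J
    intro j hj
    rcases Nat.lt_or_ge n j with hjn | hjn
    · have hje : j = n + 1 := by omega
      rw [hje]
      refine ⟨?_, ?_, ?_, ?_, ?_, ?_, ?_, ?_, ?_⟩
      · rw [PJ]; exact Real.exp_le_exp.mpr hlam2
      · rw [PJ, QJ]; exact Real.exp_le_exp.mpr hMlam
      · rw [QJ]; exact hexp20 _ (by linarith)
      · rw [rJ]; exact hρ0
      · rw [rJ]; exact hρ1
      · rw [rJ]; exact hXρ
      · linarith
      · rw [aJ]; exact hα.le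
      · rw [aJ]; exact hα1
    · refine ⟨?_, ?_, ?_, ?_, ?_, ?_, ?_, ?_, ?_⟩
      · rw [Pj j hjn]
        apply Real.exp_le_exp.mpr
        calc (2 : ℝ) ≤ μ j := by linarith [hμb j]
          _ = μ j ^ 1 := (pow_one _).symm
          _ ≤ μ j ^ 4 := pow_le_pow_right₀ (hμ1 j) (by norm_num)
      · rw [Pj j hjn, Qj j hjn]
        exact Real.exp_le_exp.mpr (pow_le_pow_right₀ (hμ1 j) (by norm_num))
      · rw [Qj j hjn]
        apply hexp20
        have := hμlam j hjn 5 (by norm_num)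
        linarith
      · rw [rj j hjn]
        have := hμp j
        positivity
      · rw [rj j hjn, div_le_one (hμp j)]
        exact hμ1 j
      · rw [rj j hjn]
        refine hX4.trans ?_
        apply one_div_le_one_div_of_le (hμp j)
        have := hμlam j hjn 1 (by norm_num)
        rwa [pow_one] at this
      · linarith [(hLsj j hjn).1, (hLsj j hjn).2]
      · rw [aj j hjn]; exact (haj01 j).1
      · rw [aj j hjn]; exact (haj01 j).2.trans hα1
  · -- conditions for j < J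
    intro j hj
    have hjn : j ≤ n := by omega
    rcases Nat.lt_or_ge j n with hlt | hge
    · refine ⟨?_, ?_, ?_⟩
      · rw [aj j hjn, aj (j + 1) (by omega)]
        have h1 : (1 : ℝ) / 2 ^ (j + 1 + 1) ≤ 1 / 2 ^ (j + 1) :=
          one_div_le_one_div_of_le (by positivity) (pow_le_pow_right₀ (by norm_num) (by omega))
        exact mul_le_mul_of_nonneg_left (by linarith only [h1]) hα.le
      · rw [lj j hlt]
        have : (1 : ℝ) ≤ μ j ^ 6 := one_le_pow₀ (hμ1 j)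
        linarith
      · rw [lj j hlt, Qj (j + 1) (by omega), Pj j hjn, Real.log_exp, Real.log_exp, hμs]
        exact le_of_eq (by ring)
    · have hje : j = n := by omega
      rw [hje]
      refine ⟨?_, ?_, ?_⟩
      · rw [aj n le_rfl, aJ]; exact (haj01 n).2
      · rw [lJ, le_div_iff₀ (pow_pos (hμp n) 4)]
        have := hμlam n le_rfl 4 (by norm_num)
        linarith only [this, hMlam, hlam0]
      · rw [lJ, QJ, Pj n le_rfl, Real.log_exp, Real.log_exp, div_mul_cancel₀ _ (pow_pos (hμp n) 4).ne']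
        exact le_of_eq (by ring)
  · rw [Qj 0 (Nat.zero_le n), hμ0]
  · -- the error
    have hsumA : ∑ j ∈ Finset.range (n + 1 + 1), (1 / Ls (P j) (Q j) + r j) ≤
        ε / 16 + ε / 16 + (ε / 8 + ε / 16) := by
      rw [Finset.sum_range_succ]
      refine add_le_add ?_ (add_le_add ?_ ?_)
      · rw [Finset.sum_add_distrib]
        refine add_le_add ?_ ?_
        · refine le_trans (Finset.sum_le_sum fun j hj => ?_) (hs4 (n + 1))
          have hjn : j ≤ n := by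
            have := Finset.mem_range.mp hj
            omega
          obtain ⟨h1, h2⟩ := hLsj j hjn
          have h3 : 1 / Ls (P j) (Q j) ≤ 1 / (Real.log (μ j) / 4) :=
            one_div_le_one_div_of_le (by linarith) h1
          refine h3.trans (le_of_eq ?_)
          rw [hμ, one_div_div]
        · refine le_trans (Finset.sum_le_sum fun j hj => ?_) (hs2 (n + 1))
          have hjn : j ≤ n := by
            have := Finset.mem_range.mp hj
            omega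
          rw [rj j hjn, hμ]
      · have h3 : 1 / Ls (P (n + 1)) (Q (n + 1)) ≤ 1 / (8 / ε) :=
          one_div_le_one_div_of_le h8 (by linarith)
        refine h3.trans (le_of_eq ?_)
        rw [one_div_div]
      · rw [rJ]; exact hρε
    have hfst : (Real.log (Q 0) / r 0 + 1) ^ 2 * P 0 ^ (-(2 * a 0)) ≤ ε / 16 := by
      rw [Qj 0 (Nat.zero_le n), rj 0 (Nat.zero_le n), Pj 0 (Nat.zero_le n), aj 0 (Nat.zero_le n),
        hμ0, Real.log_exp, ← Real.exp_mul]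
      have e1 : b ^ 5 / (1 / b) = b ^ 5 * b := by
        rw [div_div_eq_mul_div, div_one]
      have e2 : b ^ 4 * -(2 * (α * (1 - 1 / 2 ^ (0 + 1)))) = -(α * b ^ 4) := by ring
      rw [e1, e2]
      exact hfirst b hbb2
    have hterm : ∑ j ∈ Finset.range (n + 1), (Real.log (Q (j + 1)) / r (j + 1) + 1) ^ 2 *
        (Real.log (Q j) / r j + 1) * Q j ^ 2 * Real.exp (C * (l j + 2) * Real.log (l j + 2)) *
        P (j + 1) ^ (-(2 * (a (j + 1) - a j))) ≤ ε / 16 := by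
      refine le_trans (Finset.sum_le_sum fun j hj => ?_) (hs3 (n + 1))
      have hjn : j ≤ n := by
        have := Finset.mem_range.mp hj
        omega
      have hmp := hμp j
      have hexpμ : Real.exp (-(b ^ (2 ^ j))) = Real.exp (-(μ j)) := by rw [hμ]
      rw [hexpμ]
      have e2 : Real.log (Q j) / r j = μ j ^ 6 := by
        rw [Qj j hjn, rj j hjn, Real.log_exp, div_div_eq_mul_div, div_one]
        ring
      have e3 : Q j ^ 2 = Real.exp (2 * μ j ^ 5) := by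
        rw [Qj j hjn, ← Real.exp_nat_mul]
        push_cast
        rfl
      rw [e2, e3]
      rcases Nat.lt_or_ge j n with hlt | hge
      · have e1 : Real.log (Q (j + 1)) / r (j + 1) = μ j ^ 12 := by
          rw [Qj (j + 1) (by omega), rj (j + 1) (by omega), Real.log_exp, div_div_eq_mul_div,
            div_one, hμs]
          ring
        have e4 : P (j + 1) ^ (-(2 * (a (j + 1) - a j))) =
            Real.exp (-(α / 2 ^ (j + 1) * μ j ^ 8)) := by
          rw [Pj (j + 1) (by omega), ← Real.exp_mul, aj j hjn, aj (j + 1) (by omega), hμs]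
          congr 1
          rw [pow_succ (2 : ℝ) (j + 1)]
          field_simp
          ring
        rw [e1, e4, lj j hlt]
        exact hstep (μ j) j (hbb1.trans (hμb j)) (hμ2j j)
      · have hje : j = n := by omega
        rw [hje]
        have e1 : Real.log (Q (n + 1)) / r (n + 1) = M * lam / ρ := by
          rw [QJ, rJ, Real.log_exp]
        have e4 : P (n + 1) ^ (-(2 * (a (n + 1) - a n))) = Real.exp (-(α / 2 ^ n * lam)) := by
          rw [PJ, ← Real.exp_mul, aJ, aj n le_rfl]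
          congr 1
          rw [pow_succ (2 : ℝ) n]
          field_simp
          ring
        rw [e1, e4, lJ]
        exact hlast lam (μ n) n hlamL (hμ1 n) hn1' hn2' (hμ2j n)
    unfold Err
    linarith

end Pool.Agent.GaussMR

end

/-! ### from `Lib_MP_f1a94e_ecc.Small1` -/

section

/-!
# first stage (port to complex completely multiplicative functions)
-/

set_option autoImplicit false

namespace Pool.Agent.GaussCM

open Pool.Agent.GaussMR

/-- Cauchy-Schwarz over the blocks: `‖UZC k‖² ≤ nv ∑_v ‖U_v‖² ‖fcC (X e^(-vρ)) k‖²`. Blocks with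
`(v+1) ρ ≤ log P` are empty (`U_v = 0`). Large sieve: `∑_{k ∈ fr T} ‖fcC F (X e^(-vρ)) k‖² ≤
C (T + X e^(-vρ)) 9 X e^(-vρ) ≤ 18 C X² e^(-2vρ)` as `T ≤ X / Q ≤ X e^(-vρ)`. -/
theorem small1 : ∃ C : ℝ, 0 < C ∧ ∀ (F : G → ℂ), CM F → ∀ (P Q ρ X α : ℝ) (T : ℕ) (S : Finset ℤ),
    2 ≤ P → P ≤ Q → Q ≤ X → 0 < ρ → ρ ≤ 1 → 0 ≤ α → α ≤ 1 → (T : ℝ) ≤ X / Q → S ⊆ fr T →
    (∀ k ∈ S, ∀ v : ℕ, ‖UC F P Q ρ v k‖ ≤ Real.exp ((1 - α) * (v * ρ))) →
    ∑ k ∈ S, ‖UZC F P Q ρ X k‖ ^ 2 ≤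
      C * X ^ 2 * (Real.log Q / ρ + 1) ^ 2 * P ^ (-(2 * α)) := by
  classical
  obtain ⟨C0, hC0, hLS⟩ := large_sieve
  refine ⟨18 * Real.exp 2 * C0, by positivity, ?_⟩
  intro F hF P Q ρ X α T S hP hPQ hQX hρ hρ1 hα hα1 hT hS hU
  have hP0 : 0 < P := by linarith
  have hQ0 : 0 < Q := by linarith
  have hX0 : 0 < X := by linarith
  set n : ℕ := nv Q ρ with hn
  have hlogQ : 0 ≤ Real.log Q := Real.log_nonneg (by linarith)
  have hnle : (n : ℝ) ≤ Real.log Q / ρ + 1 := by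
    rw [hn, nv]
    push_cast
    have := Nat.floor_le (show 0 ≤ Real.log Q / ρ by positivity)
    linarith
  have hn0 : (0 : ℝ) ≤ n := Nat.cast_nonneg n
  -- Cauchy-Schwarz
  have hCS : ∀ k : ℤ, ‖UZC F P Q ρ X k‖ ^ 2 ≤
      n * ∑ v ∈ Finset.range n, (‖UC F P Q ρ v k‖ ^ 2 * ‖fcC F (X * Real.exp (-(v * ρ))) k‖ ^ 2) := by
    intro k
    have h1 : ‖UZC F P Q ρ X k‖ ≤
        ∑ v ∈ Finset.range n, (‖UC F P Q ρ v k‖ * ‖fcC F (X * Real.exp (-(v * ρ))) k‖) := by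
      unfold UZC
      refine (norm_sum_le _ _).trans (le_of_eq ?_)
      refine Finset.sum_congr rfl fun v _ => ?_
      rw [norm_mul]
    have h2 : (∑ v ∈ Finset.range n, (‖UC F P Q ρ v k‖ * ‖fcC F (X * Real.exp (-(v * ρ))) k‖)) ^ 2 ≤
        n * ∑ v ∈ Finset.range n, (‖UC F P Q ρ v k‖ * ‖fcC F (X * Real.exp (-(v * ρ))) k‖) ^ 2 := by
      have := sq_sum_le_card_mul_sum_sq (s := Finset.range n)
        (f := fun v : ℕ => ‖UC F P Q ρ v k‖ * ‖fcC F (X * Real.exp (-(v * ρ))) k‖)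
      rwa [Finset.card_range] at this
    calc ‖UZC F P Q ρ X k‖ ^ 2 ≤
        (∑ v ∈ Finset.range n, (‖UC F P Q ρ v k‖ * ‖fcC F (X * Real.exp (-(v * ρ))) k‖)) ^ 2 := by
          gcongr
      _ ≤ n * ∑ v ∈ Finset.range n, (‖UC F P Q ρ v k‖ * ‖fcC F (X * Real.exp (-(v * ρ))) k‖) ^ 2 := h2
      _ = _ := by
          congr 1
          refine Finset.sum_congr rfl fun v _ => ?_
          rw [mul_pow]
  -- bound for one block
  have hblk : ∀ v : ℕ, ∑ k ∈ S, (‖UC F P Q ρ v k‖ ^ 2 * ‖fcC F (X * Real.exp (-(v * ρ))) k‖ ^ 2) ≤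
      18 * Real.exp 2 * C0 * X ^ 2 * P ^ (-(2 * α)) := by
    intro v
    by_cases hb : blk P Q ρ v = ∅
    · have h0 : ∀ k : ℤ, UC F P Q ρ v k = 0 := by
        intro k
        unfold UC
        rw [hb, Finset.sum_empty]
      have : ∑ k ∈ S, (‖UC F P Q ρ v k‖ ^ 2 * ‖fcC F (X * Real.exp (-(v * ρ))) k‖ ^ 2) = 0 := by
        refine Finset.sum_eq_zero fun k _ => ?_
        rw [h0 k]
        simp
      rw [this]
      have := Real.rpow_pos_of_pos hP0 (-(2 * α))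
      positivity
    · obtain ⟨w, hw⟩ := Finset.nonempty_iff_ne_empty.2 hb
      unfold blk at hw
      rw [Finset.mem_filter, mem_PP] at hw
      obtain ⟨⟨hw1, hw2, -⟩, hw3, hw4⟩ := hw
      have hvQ : Real.exp (v * ρ) ≤ Q := (hw3.trans_le hw2).le
      have hPv : P ≤ Real.exp ((v + 1) * ρ) := (hw1.trans_le hw4).le
      set Y : ℝ := X * Real.exp (-(v * ρ)) with hY
      have hexp : Real.exp (v * ρ) * Real.exp (-(v * ρ)) = 1 := by
        rw [← Real.exp_add]; simp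
      have hYpos : 0 < Y := by positivity
      have hY1 : 1 ≤ Y := by
        have : Real.exp (v * ρ) * Real.exp (-(v * ρ)) ≤ X * Real.exp (-(v * ρ)) := by
          gcongr
          linarith
        rw [hexp] at this
        exact this
      have hTY : (T : ℝ) ≤ Y := by
        refine hT.trans ?_
        rw [hY, Real.exp_neg, div_eq_mul_inv]
        have : Q⁻¹ ≤ (Real.exp (v * ρ))⁻¹ := inv_anti₀ (Real.exp_pos _) hvQ
        gcongr
      -- large sieve
      have h1 := hLS Y T (fun z => F z) hY1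
      have h2 : ∑ z ∈ V Y, ‖F z‖ ^ 2 ≤ ((V Y).card : ℝ) := by
        calc ∑ z ∈ V Y, ‖F z‖ ^ 2 ≤ ∑ _z ∈ V Y, (1 : ℝ) := Finset.sum_le_sum fun z hz =>
              pow_le_one₀ (norm_nonneg _) (hF.norm (mem_V.1 hz).2.1)
          _ = ((V Y).card : ℝ) := by simp
      have h1' : ∑ k ∈ fr T, ‖fcC F Y k‖ ^ 2 ≤ C0 * (T + Y) * ((V Y).card : ℝ) :=
        h1.trans (mul_le_mul_of_nonneg_left h2 (by positivity))
      have h3 : ∑ k ∈ S, ‖fcC F Y k‖ ^ 2 ≤ 18 * C0 * Y ^ 2 := by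
        calc ∑ k ∈ S, ‖fcC F Y k‖ ^ 2 ≤ ∑ k ∈ fr T, ‖fcC F Y k‖ ^ 2 :=
              Finset.sum_le_sum_of_subset_of_nonneg hS (fun _ _ _ => by positivity)
          _ ≤ C0 * (T + Y) * ((V Y).card : ℝ) := h1'
          _ ≤ C0 * (Y + Y) * (9 * Y) := by
              have := card_V_le Y hYpos.le
              gcongr
          _ = 18 * C0 * Y ^ 2 := by ring
      have h4 : ∀ k ∈ S, ‖UC F P Q ρ v k‖ ^ 2 * ‖fcC F Y k‖ ^ 2 ≤
          Real.exp ((1 - α) * (v * ρ)) ^ 2 * ‖fcC F Y k‖ ^ 2 := by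
        intro k hk
        have := hU k hk v
        gcongr
      calc ∑ k ∈ S, (‖UC F P Q ρ v k‖ ^ 2 * ‖fcC F Y k‖ ^ 2) ≤
          ∑ k ∈ S, Real.exp ((1 - α) * (v * ρ)) ^ 2 * ‖fcC F Y k‖ ^ 2 := Finset.sum_le_sum h4
        _ = Real.exp ((1 - α) * (v * ρ)) ^ 2 * ∑ k ∈ S, ‖fcC F Y k‖ ^ 2 := by
            rw [Finset.mul_sum]
        _ ≤ Real.exp ((1 - α) * (v * ρ)) ^ 2 * (18 * C0 * Y ^ 2) := by gcongr
        _ = 18 * C0 * X ^ 2 * Real.exp (-(2 * α * (v * ρ))) := by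
            rw [hY, mul_pow]
            rw [show Real.exp ((1 - α) * (v * ρ)) ^ 2 * (18 * C0 * (X ^ 2 * Real.exp (-(v * ρ)) ^ 2)) =
              18 * C0 * X ^ 2 * (Real.exp ((1 - α) * (v * ρ)) ^ 2 * Real.exp (-(v * ρ)) ^ 2) by ring]
            congr 1
            rw [← Real.exp_nat_mul, ← Real.exp_nat_mul, ← Real.exp_add]
            congr 1
            push_cast
            ring
        _ ≤ 18 * C0 * X ^ 2 * (Real.exp 2 * P ^ (-(2 * α))) := by
            have h5 : Real.exp (-(2 * α * (v * ρ))) ≤ Real.exp 2 * P ^ (-(2 * α)) := by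
              rw [Real.rpow_def_of_pos hP0, ← Real.exp_add]
              apply Real.exp_le_exp.2
              have h6 : Real.log P ≤ (v + 1) * ρ := by
                rw [Real.log_le_iff_le_exp hP0]
                exact hPv
              have h7 : 2 * α * Real.log P ≤ 2 * α * ((v + 1) * ρ) := by gcongr
              have h8 : 2 * α * ρ ≤ 2 := by nlinarith
              nlinarith
            gcongr
        _ = _ := by ring
  calc ∑ k ∈ S, ‖UZC F P Q ρ X k‖ ^ 2 ≤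
      ∑ k ∈ S, (n * ∑ v ∈ Finset.range n,
        (‖UC F P Q ρ v k‖ ^ 2 * ‖fcC F (X * Real.exp (-(v * ρ))) k‖ ^ 2)) :=
        Finset.sum_le_sum fun k _ => hCS k
    _ = n * ∑ v ∈ Finset.range n, ∑ k ∈ S,
        (‖UC F P Q ρ v k‖ ^ 2 * ‖fcC F (X * Real.exp (-(v * ρ))) k‖ ^ 2) := by
        rw [← Finset.mul_sum, Finset.sum_comm]
    _ ≤ n * ∑ v ∈ Finset.range n, (18 * Real.exp 2 * C0 * X ^ 2 * P ^ (-(2 * α))) := by
        gcongr with v hv
        exact hblk v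
    _ = (18 * Real.exp 2 * C0 * X ^ 2 * P ^ (-(2 * α))) * (n : ℝ) ^ 2 := by
        rw [Finset.sum_const, Finset.card_range, nsmul_eq_mul]
        ring
    _ ≤ (18 * Real.exp 2 * C0 * X ^ 2 * P ^ (-(2 * α))) * (Real.log Q / ρ + 1) ^ 2 := by
        have := Real.rpow_pos_of_pos hP0 (-(2 * α))
        gcongr
    _ = _ := by ring

end Pool.Agent.GaussCM

end

/-! ### from `Lib_MP_f1a94e_ecm.AfConv` -/

section

/-!
# Piece M-AFCONV: convolution identity of Turan-Kubilius type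
-/

set_option autoImplicit false

namespace Pool.Agent.ECM

open Finset Pool.Agent.GaussMR Pool.Agent.GaussCM Pool.Agent.OmAll

open Classical in
/-- the substitution `z' = w z` -/
private theorem afconv_sub (F : G → ℂ) (hF : CM F) {w : G} (hw : Spl w) (X : ℝ) :
    ∑ z ∈ (V (X / nm w)).filter (fun z => ¬ star w ∣ z), F w * F z =
      ∑ z ∈ (V X).filter (fun z => w ∣ z), F z := by
  have hw0 : w ≠ 0 := ne_zero_of_odd hw.odd
  have hnw : (0 : ℝ) < nm w := by exact_mod_cast nm_pos hw0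
  refine Finset.sum_bij (fun z _ => w * z) ?_ ?_ ?_ ?_
  · intro z hz
    rw [Finset.mem_filter, mem_V] at hz
    obtain ⟨⟨h1, h2, h3⟩, h4⟩ := hz
    have h5 : (nm (w * z) : ℝ) ≤ X := by
      rw [nm_mul]
      push_cast
      rw [le_div_iff₀ hnw] at h1
      linarith
    rw [Finset.mem_filter, mem_V]
    exact ⟨⟨h5, odd_nm_mul.mpr ⟨hw.odd, h2⟩, (prim_mul_iff hw h3).mpr h4⟩,
      dvd_mul_right _ _⟩
  · intro z _ z' _ h
    exact mul_left_cancel₀ hw0 h
  · intro z' hz'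
    rw [Finset.mem_filter, mem_V] at hz'
    obtain ⟨⟨h1, h2, h3⟩, ⟨z, rfl⟩⟩ := hz'
    have hz2 : Prim z := (prim_of_mul h3).2
    refine ⟨z, ?_, rfl⟩
    rw [Finset.mem_filter, mem_V]
    refine ⟨⟨?_, (odd_nm_mul.mp h2).2, hz2⟩, (prim_mul_iff hw hz2).mp h3⟩
    rw [nm_mul] at h1
    push_cast at h1
    rw [le_div_iff₀ hnw]
    linarith
  · intro z hz
    rw [Finset.mem_filter, mem_V] at hz
    rw [hF.mul w z hw.odd hz.1.2.1]

open Classical in
private theorem afconv_div {w : G} (hw : Spl w) (X : ℝ) (hX : 0 ≤ X) :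
    (((V (X / nm w)).filter (fun z => star w ∣ z)).card : ℝ) ≤ 9 * X * (1 / (nm w : ℝ) ^ 2) := by
  have hw0 : w ≠ 0 := ne_zero_of_odd hw.odd
  have hnw : (0 : ℝ) < nm w := by exact_mod_cast nm_pos hw0
  have h1 : ((V (X / nm w)).filter (fun z => star w ∣ z)).card ≤ (V (X / (nm w : ℝ) ^ 2)).card := by
    have hsub : (V (X / nm w)).filter (fun z => star w ∣ z) ⊆
        (V (X / (nm w : ℝ) ^ 2)).image (fun z => star w * z) := by
      intro z hz
      rw [Finset.mem_filter, mem_V] at hz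
      obtain ⟨⟨h1, h2, h3⟩, ⟨u, rfl⟩⟩ := hz
      rw [Finset.mem_image]
      refine ⟨u, ?_, rfl⟩
      rw [mem_V]
      refine ⟨?_, (odd_nm_mul.mp h2).2, (prim_of_mul h3).2⟩
      rw [nm_mul, nm_star] at h1
      push_cast at h1
      rw [le_div_iff₀ hnw] at h1
      rw [le_div_iff₀ (by positivity)]
      nlinarith
    exact (Finset.card_le_card hsub).trans Finset.card_image_le
  have h2 := card_V_le (X / (nm w : ℝ) ^ 2) (by positivity)
  have h3 : (((V (X / nm w)).filter (fun z => star w ∣ z)).card : ℝ) ≤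
      ((V (X / (nm w : ℝ) ^ 2)).card : ℝ) := by exact_mod_cast h1
  calc (((V (X / nm w)).filter (fun z => star w ∣ z)).card : ℝ) ≤ _ := h3
    _ ≤ _ := h2
    _ = _ := by ring

/-- `∑ 1 / p ^ 2 ≤ 2` -/
private theorem afconv_sq (P Q : ℝ) (hP : 2 ≤ P) :
    ∑ w ∈ PP P Q, 1 / (nm w : ℝ) ^ 2 ≤ 2 := by
  classical
  have hn1 : ∀ w ∈ PP P Q, 2 ≤ nm w := fun w hw => by
    have h1 := (mem_PP.mp hw).1
    have : (2 : ℝ) ≤ nm w := by linarith
    exact_mod_cast this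
  have hinj : Set.InjOn (fun w : G => nm w) (PP P Q : Set G) := by
    intro a ha b hb hab
    exact PP_inj (Finset.mem_coe.mp ha) (Finset.mem_coe.mp hb) hab
  have hsub : (PP P Q).image (fun w : G => nm w) ⊆ Finset.Ioo 0 (⌊Q⌋₊ + 1) := by
    intro n hn
    obtain ⟨w, hw, rfl⟩ := Finset.mem_image.mp hn
    have h3 := hn1 w hw
    have h4 : nm w ≤ ⌊Q⌋₊ := Nat.le_floor (mem_PP.mp hw).2.1
    rw [Finset.mem_Ioo]
    omega
  calc ∑ w ∈ PP P Q, 1 / (nm w : ℝ) ^ 2 = ∑ n ∈ (PP P Q).image (fun w : G => nm w), ((n : ℝ) ^ 2)⁻¹ := by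
        rw [Finset.sum_image hinj]
        simp only [one_div]
    _ ≤ ∑ n ∈ Finset.Ioo 0 (⌊Q⌋₊ + 1), ((n : ℝ) ^ 2)⁻¹ :=
        Finset.sum_le_sum_of_subset_of_nonneg hsub fun n _ _ => by positivity
    _ ≤ 2 / (((0 : ℕ) : ℝ) + 1) := sum_Ioo_inv_sq_le 0 (⌊Q⌋₊ + 1)
    _ = 2 := by norm_num

open Classical in
private theorem afconv_om (F : G → ℂ) (P Q X : ℝ) :
    ∑ z ∈ V X, F z * (om P Q z : ℂ) = ∑ w ∈ PP P Q, ∑ z ∈ (V X).filter (fun z => w ∣ z), F z := by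
  have h : ∀ z, F z * (om P Q z : ℂ) = ∑ w ∈ PP P Q, if w ∣ z then F z else 0 := by
    intro z
    rw [tk_om_eq_sum]
    push_cast
    rw [Finset.mul_sum]
    refine Finset.sum_congr rfl fun w _ => ?_
    unfold tk_dvi
    split_ifs <;> simp
  simp only [h]
  rw [Finset.sum_comm]
  refine Finset.sum_congr rfl fun w _ => ?_
  rw [Finset.sum_filter]

open Classical in
private theorem afconv_one (F : G → ℂ) (hF : CM F) (X : ℝ) (hX : 0 ≤ X) {w : G} (hw : Spl w) :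
    ‖∑ z ∈ (V X).filter (fun z => w ∣ z), F z - F w * ∑ z ∈ V (X / nm w), F z‖ ≤
      9 * X * (1 / (nm w : ℝ) ^ 2) := by
  have h1 := afconv_sub F hF hw X
  have h2 : ∑ z ∈ V (X / nm w), F z = ∑ z ∈ (V (X / nm w)).filter (fun z => ¬ star w ∣ z), F z +
      ∑ z ∈ (V (X / nm w)).filter (fun z => star w ∣ z), F z := by
    rw [add_comm, Finset.sum_filter_add_sum_filter_not]
  rw [← h1, h2, ← Finset.mul_sum, mul_add, sub_add_cancel_left, norm_neg, norm_mul]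
  have h3 : ‖∑ z ∈ (V (X / nm w)).filter (fun z => star w ∣ z), F z‖ ≤
      (((V (X / nm w)).filter (fun z => star w ∣ z)).card : ℝ) := by
    refine (norm_sum_le _ _).trans ?_
    calc ∑ z ∈ (V (X / nm w)).filter (fun z => star w ∣ z), ‖F z‖ ≤
        ∑ z ∈ (V (X / nm w)).filter (fun z => star w ∣ z), (1 : ℝ) := by
          refine Finset.sum_le_sum fun z hz => hF.bd z ?_
          exact (mem_V.mp (Finset.mem_filter.mp hz).1).2.1
      _ = _ := by simp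
  calc ‖F w‖ * ‖∑ z ∈ (V (X / nm w)).filter (fun z => star w ∣ z), F z‖ ≤
      1 * (((V (X / nm w)).filter (fun z => star w ∣ z)).card : ℝ) :=
        mul_le_mul (hF.bd w hw.odd) h3 (norm_nonneg _) zero_le_one
    _ ≤ _ := by rw [one_mul]; exact afconv_div hw X hX

private theorem afconv_half : ∃ C : ℝ, 0 < C ∧ ∀ P Q s : ℝ, 2 ≤ P → P ≤ Q → Q ^ 20 ≤ Real.exp s → 1 ≤ Ls P Q →
    ∀ F : G → ℂ, CM F →
    ‖Af F s - ((1 / Ls P Q : ℝ) : ℂ) * ∑ w ∈ PP P Q, F w / (nm w : ℂ) * Af F (s - Real.log (nm w))‖ ≤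
      C / Real.sqrt (Ls P Q) := by
  classical
  obtain ⟨C, hC, hTK⟩ := TK
  refine ⟨Real.sqrt (18 * C) + 18, by positivity, ?_⟩
  intro P Q s hP hPQ hQ hL F hF
  obtain ⟨X, hXd⟩ : ∃ X : ℝ, X = Real.exp s := ⟨_, rfl⟩
  obtain ⟨L, hLd⟩ : ∃ L : ℝ, L = Ls P Q := ⟨_, rfl⟩
  have hX0 : 0 < X := by rw [hXd]; exact Real.exp_pos s
  rw [← hXd] at hQ
  rw [← hLd] at hL ⊢
  have hL0 : 0 < L := by linarith
  have hsL : 0 < Real.sqrt L := Real.sqrt_pos.mpr hL0
  -- main sum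
  have hA : ∀ w ∈ PP P Q, F w / (nm w : ℂ) * Af F (s - Real.log (nm w)) =
      (1 / X : ℝ) * (F w * ∑ z ∈ V (X / nm w), F z) := by
    intro w hw
    have hw0 : w ≠ 0 := ne_zero_of_odd (PP_spl hw).odd
    have hnw : (0 : ℝ) < nm w := by exact_mod_cast nm_pos hw0
    unfold Af
    have e1 : Real.exp (s - Real.log (nm w)) = X / nm w := by
      rw [Real.exp_sub, Real.exp_log hnw, ← hXd]
    have e2 : Real.exp (-(s - Real.log (nm w))) = nm w / X := by
      rw [Real.exp_neg, e1, inv_div]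
    rw [e1, e2]
    have hnc : (nm w : ℂ) ≠ 0 := by exact_mod_cast hnw.ne'
    have hXc : (X : ℂ) ≠ 0 := by exact_mod_cast hX0.ne'
    push_cast
    field_simp
  have hB : Af F s = (1 / X : ℝ) * ∑ z ∈ V X, F z := by
    unfold Af
    rw [Real.exp_neg, ← hXd]
    push_cast
    rw [one_div]
  -- error 1
  have hE1 : ‖∑ z ∈ V X, F z * ((om P Q z - L : ℝ) : ℂ)‖ ≤ Real.sqrt (18 * C) * X * Real.sqrt L := by
    have h1 : ‖∑ z ∈ V X, F z * ((om P Q z - L : ℝ) : ℂ)‖ ≤ ∑ z ∈ V X, 1 * |om P Q z - L| := by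
      refine (norm_sum_le _ _).trans (Finset.sum_le_sum fun z hz => ?_)
      rw [norm_mul, Complex.norm_real, Real.norm_eq_abs]
      exact mul_le_mul_of_nonneg_right (hF.bd z (mem_V.mp hz).2.1) (abs_nonneg _)
    have h2 : (∑ z ∈ V X, 1 * |om P Q z - L|) ^ 2 ≤ (∑ z ∈ V X, (1 : ℝ) ^ 2) * ∑ z ∈ V X, |om P Q z - L| ^ 2 :=
      Finset.sum_mul_sq_le_sq_mul_sq _ _ _
    have h3 : ∑ z ∈ V X, |om P Q z - L| ^ 2 ≤ C * X * (L + 1) := by
      simp only [sq_abs]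
      rw [hLd]
      exact hTK P Q X hP hPQ hQ
    have h4 : ∑ z ∈ V X, (1 : ℝ) ^ 2 ≤ 9 * X := by
      simp only [one_pow, Finset.sum_const, nsmul_eq_mul, mul_one]
      exact card_V_le X hX0.le
    have h5 : (∑ z ∈ V X, 1 * |om P Q z - L|) ^ 2 ≤ (Real.sqrt (18 * C) * X * Real.sqrt L) ^ 2 := by
      refine h2.trans ?_
      have e : (Real.sqrt (18 * C) * X * Real.sqrt L) ^ 2 = (9 * X) * (C * X * (L + L)) := by
        rw [mul_pow, mul_pow, Real.sq_sqrt (by positivity), Real.sq_sqrt hL0.le]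
        ring
      rw [e]
      refine mul_le_mul h4 (h3.trans ?_) (Finset.sum_nonneg fun z _ => by positivity) (by positivity)
      exact mul_le_mul_of_nonneg_left (by linarith) (by positivity)
    refine h1.trans ?_
    refine le_of_sq_le_sq ?_ (by positivity)
    exact h5
  -- error 2
  have hE2 : ‖∑ z ∈ V X, F z * (om P Q z : ℂ) - ∑ w ∈ PP P Q, F w * ∑ z ∈ V (X / nm w), F z‖ ≤ 18 * X := by
    rw [afconv_om, ← Finset.sum_sub_distrib]
    calc ‖∑ w ∈ PP P Q, (∑ z ∈ (V X).filter (fun z => w ∣ z), F z - F w * ∑ z ∈ V (X / nm w), F z)‖ ≤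
        ∑ w ∈ PP P Q, 9 * X * (1 / (nm w : ℝ) ^ 2) := by
          refine (norm_sum_le _ _).trans (Finset.sum_le_sum fun w hw => ?_)
          exact afconv_one F hF X hX0.le (PP_spl hw)
      _ = 9 * X * ∑ w ∈ PP P Q, 1 / (nm w : ℝ) ^ 2 := by rw [Finset.mul_sum]
      _ ≤ 9 * X * 2 := mul_le_mul_of_nonneg_left (afconv_sq P Q hP) (by positivity)
      _ = 18 * X := by ring
  -- combination
  have hcomb : Af F s - ((1 / L : ℝ) : ℂ) * ∑ w ∈ PP P Q, F w / (nm w : ℂ) * Af F (s - Real.log (nm w)) =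
      ((1 / (X * L) : ℝ) : ℂ) * ((∑ z ∈ V X, F z * (om P Q z : ℂ) - ∑ w ∈ PP P Q, F w * ∑ z ∈ V (X / nm w), F z) -
        ∑ z ∈ V X, F z * ((om P Q z - L : ℝ) : ℂ)) := by
    rw [Finset.sum_congr rfl hA, ← Finset.mul_sum, hB]
    have e1 : ∑ z ∈ V X, F z * ((om P Q z - L : ℝ) : ℂ) =
        ∑ z ∈ V X, F z * (om P Q z : ℂ) - (L : ℂ) * ∑ z ∈ V X, F z := by
      rw [Finset.mul_sum, ← Finset.sum_sub_distrib]
      refine Finset.sum_congr rfl fun z _ => ?_
      push_cast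
      ring
    rw [e1]
    have hXc : (X : ℂ) ≠ 0 := by exact_mod_cast hX0.ne'
    have hLc : (L : ℂ) ≠ 0 := by exact_mod_cast hL0.ne'
    push_cast
    field_simp
    ring
  rw [hcomb, norm_mul, Complex.norm_real, Real.norm_eq_abs, abs_of_pos (by positivity)]
  have hfin : ‖(∑ z ∈ V X, F z * (om P Q z : ℂ) - ∑ w ∈ PP P Q, F w * ∑ z ∈ V (X / nm w), F z) -
        ∑ z ∈ V X, F z * ((om P Q z - L : ℝ) : ℂ)‖ ≤ (Real.sqrt (18 * C) + 18) * X * Real.sqrt L := by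
    have hs1 : 1 ≤ Real.sqrt L := Real.one_le_sqrt.mpr hL
    calc _ ≤ 18 * X + Real.sqrt (18 * C) * X * Real.sqrt L := (norm_sub_le _ _).trans (add_le_add hE2 hE1)
      _ ≤ 18 * X * Real.sqrt L + Real.sqrt (18 * C) * X * Real.sqrt L := by
          have : 18 * X * 1 ≤ 18 * X * Real.sqrt L := mul_le_mul_of_nonneg_left hs1 (by positivity)
          linarith
      _ = _ := by ring
  calc 1 / (X * L) * ‖(∑ z ∈ V X, F z * (om P Q z : ℂ) - ∑ w ∈ PP P Q, F w * ∑ z ∈ V (X / nm w), F z) -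
        ∑ z ∈ V X, F z * ((om P Q z - L : ℝ) : ℂ)‖ ≤
      1 / (X * L) * ((Real.sqrt (18 * C) + 18) * X * Real.sqrt L) :=
        mul_le_mul_of_nonneg_left hfin (by positivity)
    _ = (Real.sqrt (18 * C) + 18) / Real.sqrt L := by
        have h := Real.mul_self_sqrt hL0.le
        have hL2 : L = Real.sqrt L * Real.sqrt L := h.symm
        rw [div_mul_eq_mul_div, one_mul, div_eq_div_iff (by positivity) (by positivity)]
        calc (Real.sqrt (18 * C) + 18) * X * Real.sqrt L * Real.sqrt L =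
            (Real.sqrt (18 * C) + 18) * X * (Real.sqrt L * Real.sqrt L) := by ring
          _ = _ := by rw [h]; ring

private theorem afconv_star_sum (F : G → ℂ) (X : ℝ) : ∑ z ∈ V X, F (star z) = ∑ z ∈ V X, F z := by
  refine Finset.sum_bij (fun z _ => star z) ?_ ?_ ?_ ?_
  · intro z hz
    exact mem_V_star.mpr hz
  · intro z _ z' _ h
    have := congrArg star h
    simpa using this
  · intro z hz
    exact ⟨star z, mem_V_star.mpr hz, star_star z⟩
  · intro z _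
    rfl

/-- `X = exp s`. Cauchy-Schwarz and `TK`, `card_V_le`: `|∑_(z ∈ V X) F z (om P Q z - Ls P Q)| ≤ (9 X)^(1/2) (C X (Ls + 1))^(1/2) ≤ C' X (Ls)^(1/2)`. And `∑_(V X) F z om P Q z = ∑_(w ∈ PP) ∑_(z ∈ V X, w ∣ z) F z`; for fixed `w`: `z = w z'`, `z' ∈ V (X / nm w)`,
`F z = F w F z'`, and `w z'` is primitive iff `star w ∤ z'` (see `stage_id` in Lib_MP_f1a94e_mr/StageId.lean for the same facts), so the inner sum is `F w ∑_(V (X / nm w)) F` up to `#{z' ∈ V (X / nm w) : star w ∣ z'} ≤ #V (X / nm w ^ 2) ≤ 9 X / nm w ^ 2`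
(`∑_w 1 / nm w ^ 2 ≤ C`, `nm w ^ 2 ≤ Q ^ 2 ≤ X`). Divide by `X Ls`: `‖Af F s - (1/Ls) ∑_w F w / nm w * Af F (s - log nm w)‖ ≤ C (Ls^(-1/2) + 1/Ls)`. The same for `F ∘ star` (completely multiplicative; `Af (F ∘ star) = Af F` since `star` permutes `V X`); take the mean of the two. -/
theorem af_conv : ∃ C : ℝ, 0 < C ∧ ∀ P Q s : ℝ, 2 ≤ P → P ≤ Q → Q ^ 20 ≤ Real.exp s → 1 ≤ Ls P Q → ∀ F : G → ℂ, CM F →
    ‖Af F s - ((1 / (2 * Ls P Q) : ℝ) : ℂ) * ∑ w ∈ PP P Q, (F w + F (star w)) / (nm w : ℂ) * Af F (s - Real.log (nm w))‖ ≤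
      C / Real.sqrt (Ls P Q) := by
  obtain ⟨C, hC, h⟩ := afconv_half
  refine ⟨C, hC, fun P Q s hP hPQ hQ hL F hF => ?_⟩
  have hF' : CM (fun z => F (star z)) := by
    constructor
    · intro z w hz hw
      rw [star_mul, mul_comm (star w), hF.mul _ _ (by rwa [nm_star]) (by rwa [nm_star])]
    · intro z hz
      exact hF.bd _ (by rwa [nm_star])
  have hAf : ∀ t, Af (fun z => F (star z)) t = Af F t := by
    intro t
    unfold Af
    rw [afconv_star_sum]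
  have h1 := h P Q s hP hPQ hQ hL F hF
  have h2 := h P Q s hP hPQ hQ hL _ hF'
  simp only [hAf] at h2
  have e : Af F s - ((1 / (2 * Ls P Q) : ℝ) : ℂ) *
      ∑ w ∈ PP P Q, (F w + F (star w)) / (nm w : ℂ) * Af F (s - Real.log (nm w)) =
      (1 / 2 : ℝ) * (Af F s - ((1 / Ls P Q : ℝ) : ℂ) * ∑ w ∈ PP P Q, F w / (nm w : ℂ) * Af F (s - Real.log (nm w))) +
      (1 / 2 : ℝ) * (Af F s - ((1 / Ls P Q : ℝ) : ℂ) * ∑ w ∈ PP P Q, F (star w) / (nm w : ℂ) * Af F (s - Real.log (nm w))) := by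
    have e2 : ∑ w ∈ PP P Q, (F w + F (star w)) / (nm w : ℂ) * Af F (s - Real.log (nm w)) =
        ∑ w ∈ PP P Q, F w / (nm w : ℂ) * Af F (s - Real.log (nm w)) +
        ∑ w ∈ PP P Q, F (star w) / (nm w : ℂ) * Af F (s - Real.log (nm w)) := by
      rw [← Finset.sum_add_distrib]
      refine Finset.sum_congr rfl fun w _ => ?_
      ring
    rw [e2]
    push_cast
    ring
  rw [e]
  refine (norm_add_le _ _).trans ?_
  rw [norm_mul, norm_mul, Complex.norm_real]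
  have e3 : ‖(1 / 2 : ℝ)‖ = 1 / 2 := by norm_num
  rw [e3]
  linarith

end Pool.Agent.ECM

end
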