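import Mathlib
import Pool.Agent.Lib_MP_f1a94e_m.G01
import Pool.Agent.Lib_MP_f1a94e_m.G05
import Pool.Agent.Lib_MP_f1a94e_m.G06
import Pool.Agent.Lib_MP_f1a94e_m.G07
import Pool.Agent.Lib_MP_f1a94e_m.G08
import Pool.Agent.Lib_MP_f1a94e_m.G09
import Pool.Agent.Lib_MP_f1a94e_m.G10
import Pool.Agent.Lib_MP_f1a94e_m.G11
import Pool.Agent.Lib_MP_f1a94e_m.G12
import Pool.Agent.Lib_MP_f1a94e_m.G13
import Pool.Agent.Lib_MP_f1a94e_m.G15
import Pool.Agent.Lib_MP_f1a94e_m.G16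

/-!
# MP_f1a94e_nt: merged library part G19

Concatenation of files of the libraries `Lib_MP_f1a94e_*` (each in its own section), only to save build time.
-/

/-! ### from `Lib_MP_f1a94e_eq.Plan` -/

section

/-!
# Piece PLAN: Plancherel for cluster sums
-/

set_option autoImplicit false

namespace Pool.Agent.OmEq

open Finset Pool.Agent.OmAll MeasureTheory

theorem plan_supp {B : ℝ} {φ : ℝ → ℂ} (hB : ∀ τ, B ≤ |τ| → φ τ = 0) : HasCompactSupport φ := by
  apply HasCompactSupport.of_support_subset_isCompact (isCompact_Icc (a := -B) (b := B))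
  intro τ hτ
  rw [Function.mem_support] at hτ
  rw [Set.mem_Icc, ← abs_le]
  by_contra h
  exact hτ (hB τ (not_le.1 h).le)

theorem plan_int {B : ℝ} {φ : ℝ → ℂ} (hφ : Continuous φ) (hB : ∀ τ, B ≤ |τ| → φ τ = 0)
    {f : ℝ → ℂ} (hf : Continuous f) : Integrable (fun τ => φ τ * f τ) :=
  (hφ.mul hf).integrable_of_hasCompactSupport ((plan_supp hB).mul_right)

/-- Plancherel for continuous integrable functions with integrable Fourier transform -/
theorem plan_planch {F : ℝ → ℂ} (hc : Continuous F) (hF : Integrable F)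
    (hF' : Integrable (FourierTransform.fourier F)) :
    ∫ ξ : ℝ, ‖FourierTransform.fourier F ξ‖ ^ 2 = ∫ x, ‖F x‖ ^ 2 := by
  have h1 := VectorFourier.integral_sesq_fourierIntegral_eq_neg_flip (innerSL ℂ)
    (L := innerₗ ℝ) Real.continuous_fourierChar continuous_inner hF hF'
  have h2 : ∀ x, VectorFourier.fourierIntegral Real.fourierChar volume (-(innerₗ ℝ).flip)
      (FourierTransform.fourier F) x = F x := by
    intro x
    have h0 := congrFun (hc.fourierInv_fourier_eq hF hF') x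
    rw [Real.fourierInv_eq] at h0
    rw [← h0]
    unfold VectorFourier.fourierIntegral
    congr 1
    funext v
    congr 2
    simp
  have h3 : ∀ ξ, VectorFourier.fourierIntegral Real.fourierChar volume (innerₗ ℝ) F ξ =
      FourierTransform.fourier F ξ := fun ξ => rfl
  simp only [h2, h3] at h1
  have h4 : ∀ z : ℂ, (innerSL ℂ z) z = ((‖z‖ ^ 2 : ℝ) : ℂ) := by
    intro z
    rw [innerSL_apply_apply, inner_self_eq_norm_sq_to_K]
    push_cast
    rfl
  simp only [h4] at h1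
  rw [integral_complex_ofReal, integral_complex_ofReal] at h1
  exact_mod_cast h1

theorem plan_cs (B : ℝ) (φ ψ : ℝ → ℂ) (hφ : Continuous φ) (hB : ∀ τ, B ≤ |τ| → φ τ = 0)
    (hψ : ∀ t, ψ t = ∫ τ, φ τ * Complex.exp ((τ * t : ℝ) * Complex.I))
    (g : ℕ → ℂ) (D : Finset ℕ) (t : ℝ) :
    cs g ψ D t = ∫ τ, (φ τ * ∏ p ∈ D, (1 + g p *
      Complex.exp (-(2 * τ * Real.log p : ℝ) * Complex.I))) *
        Complex.exp ((τ * t : ℝ) * Complex.I) := by
  unfold cs
  have h1 : ∀ a ∈ D.powerset, (∏ p ∈ a, g p) * ψ (t - 2 * lg a) =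
      ∫ τ, φ τ * ((∏ p ∈ a, g p) * Complex.exp ((τ * (t - 2 * lg a) : ℝ) * Complex.I)) := by
    intro a _
    rw [hψ, ← integral_const_mul]
    congr 1
    funext τ
    ring
  rw [sum_congr rfl h1, ← integral_finsetSum]
  · congr 1
    funext τ
    rw [prod_one_add, mul_sum, sum_mul]
    refine sum_congr rfl fun a _ => ?_
    rw [prod_mul_distrib, ← Complex.exp_sum]
    have h2 : ∑ p ∈ a, (-(2 * τ * Real.log p : ℝ) * Complex.I : ℂ) =
        -(2 * τ * lg a : ℝ) * Complex.I := by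
      rw [← sum_mul]
      congr 1
      unfold lg
      push_cast
      rw [mul_sum, sum_neg_distrib]
    rw [h2]
    have h3 : Complex.exp ((τ * (t - 2 * lg a) : ℝ) * Complex.I) =
        Complex.exp (-(2 * τ * lg a : ℝ) * Complex.I) * Complex.exp ((τ * t : ℝ) * Complex.I) := by
      rw [← Complex.exp_add]
      congr 1
      push_cast
      ring
    rw [h3]
    ring
  · intro a _
    exact plan_int hφ hB (by fun_prop)

/-- PROOF. `cs g ψ D t = ∑_a g(a) ∫ τ, φ τ exp (i τ (t - 2 lg a)) = ∫ τ, Φ τ exp (i τ t)` with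
`Φ τ = φ τ * ∑_(a ⊆ D) ∏_(p ∈ a) (g p * exp (-2 i τ log p)) = φ τ * ∏_(p ∈ D) (1 + g p * exp (-2 i τ log p))` (`Finset.prod_one_add` / `Finset.prod_add`),
continuous with compact support. So `cs g ψ D t = 𝓕⁻ Φ` up to scaling (`τ = 2 π ξ`), and Plancherel `∫ ‖∫ Φ τ exp (i τ t) dτ‖^2 dt = 2 π ∫ ‖Φ τ‖^2 dτ`. `Φ` is in `L^1` and `L^2`,
its inverse transform is integrable by `hC` (`‖cs g ψ D t‖ ≤ C'/(1 + t^2)`), so Fourier inversion holds; either use Plancherel of Mathlib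
(`MeasureTheory.Lp` Fourier transform, or the method of `planch` in `Lib_MP_f1a94e_aq/Planch.lean`), or directly:
`∫ ‖F‖^2 = ∫ F(t) conj (∫ Φ exp (i τ t) dτ) dt = ∫ conj (Φ τ) (∫ F(t) exp (- i τ t) dt) dτ = ∫ conj (Φ τ) 2 π Φ τ dτ` by Fubini and inversion. -/
theorem plan (B : ℝ) (φ ψ : ℝ → ℂ) (hφ : Continuous φ) (hB : ∀ τ, B ≤ |τ| → φ τ = 0)
    (hψ : ∀ t, ψ t = ∫ τ, φ τ * Complex.exp ((τ * t : ℝ) * Complex.I)) (hψc : Continuous ψ) (C : ℝ)
    (hC : ∀ t, ‖ψ t‖ ≤ C / (1 + t ^ 2)) (g : ℕ → ℂ) (D : Finset ℕ) :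
    ∫ t, ‖cs g ψ D t‖ ^ 2 =
      2 * Real.pi * ∫ τ, ‖φ τ‖ ^ 2 * ∏ p ∈ D, ‖1 + g p * Complex.exp (-(2 * τ * Real.log p : ℝ) * Complex.I)‖ ^ 2 := by
  have hpi : (0 : ℝ) < 2 * Real.pi := by positivity
  have hP : ∃ P : ℝ → ℂ, ∀ τ, P τ = ∏ p ∈ D, (1 + g p *
      Complex.exp (-(2 * τ * Real.log p : ℝ) * Complex.I)) := ⟨_, fun _ => rfl⟩
  obtain ⟨P, hP⟩ := hP
  have cP : Continuous P := by
    have : P = fun τ => ∏ p ∈ D, (1 + g p *
      Complex.exp (-(2 * τ * Real.log p : ℝ) * Complex.I)) := funext hP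
    rw [this]
    fun_prop
  have hF : ∃ F : ℝ → ℂ, F = fun τ => φ (-τ) * P (-τ) := ⟨_, rfl⟩
  obtain ⟨F, hF⟩ := hF
  have hFc : Continuous F := by rw [hF]; fun_prop
  have hFi : Integrable F := by
    have h1 : Integrable (fun τ => φ τ * P τ) := plan_int hφ hB cP
    rw [hF]
    exact h1.comp_neg
  -- Fourier transform
  have e1 : ∀ w : ℝ, FourierTransform.fourier F w = cs g ψ D (2 * Real.pi * w) := by
    intro w
    rw [plan_cs B φ ψ hφ hB hψ, Real.fourier_real_eq_integral_exp_smul]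
    have h1 := integral_neg_eq_self (fun τ : ℝ => (φ τ * P τ) *
      Complex.exp ((τ * (2 * Real.pi * w) : ℝ) * Complex.I)) volume
    simp only [hP] at h1
    rw [← h1]
    congr 1
    funext τ
    rw [hF, smul_eq_mul]
    simp only [hP]
    rw [mul_comm]
    congr 2
    push_cast
    ring
  have hψi : Integrable ψ := by
    have h1 : Integrable (fun t : ℝ => C * (1 + t ^ 2)⁻¹) := integrable_inv_one_add_sq.const_mul _
    refine h1.mono' hψc.aestronglyMeasurable (Filter.Eventually.of_forall fun t => ?_)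
    rw [← div_eq_mul_inv]
    exact hC t
  have hcsi : Integrable (cs g ψ D) := by
    unfold cs
    apply integrable_finsetSum
    intro a _
    exact (hψi.comp_sub_right (2 * lg a)).const_mul _
  have e2 : Integrable (FourierTransform.fourier F) := by
    have h1 : FourierTransform.fourier F = fun w => cs g ψ D (2 * Real.pi * w) := funext e1
    rw [h1]
    exact hcsi.comp_mul_left' hpi.ne'
  have key := plan_planch hFc hFi e2
  simp only [e1] at key
  have k1 := Measure.integral_comp_mul_left (fun t => ‖cs g ψ D t‖ ^ 2) (2 * Real.pi)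
  rw [abs_of_pos (inv_pos.2 hpi), smul_eq_mul] at k1
  rw [k1] at key
  have k2 : ∫ x, ‖F x‖ ^ 2 = ∫ τ, ‖φ τ‖ ^ 2 * ∏ p ∈ D,
      ‖1 + g p * Complex.exp (-(2 * τ * Real.log p : ℝ) * Complex.I)‖ ^ 2 := by
    have h1 := integral_neg_eq_self (fun τ : ℝ => ‖φ τ * P τ‖ ^ 2) volume
    have h2 : ∫ x, ‖F x‖ ^ 2 = ∫ x : ℝ, ‖φ (-x) * P (-x)‖ ^ 2 := by rw [hF]
    rw [h2, h1]
    congr 1
    funext τ
    rw [norm_mul, mul_pow, hP, norm_prod, prod_pow]
  rw [k2] at key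
  rw [← key]
  field_simp

end Pool.Agent.OmEq

end

/-! ### from `Lib_MP_f1a94e_eq.Np` -/

section

/-!
# Piece NP: characters times a constant satisfy `NP`
-/

set_option autoImplicit false

namespace Pool.Agent.OmEq

open Finset Pool.Agent.OmAll

namespace NpP

open ZEuler Complex

/-- two sums over primes whose terms agree away from the divisors of `M` -/
theorem tsum_diff (M : ℕ) (hM : 0 < M) (a b : Nat.Primes → ℂ) (ha : Summable a) (hb : Summable b)
    (h : ∀ p : Nat.Primes, ¬ (p : ℕ) ∣ M → a p = b p) (hbd : ∀ p, ‖a p - b p‖ ≤ 1) :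
    ‖∑' p, a p - ∑' p, b p‖ ≤ (M : ℝ) + 1 := by
  classical
  rw [← ha.tsum_sub hb]
  set S : Finset Nat.Primes := M.primeFactors.subtype Nat.Prime with hS
  have hz : ∀ p ∉ S, a p - b p = 0 := by
    intro p hp
    rw [h p, sub_self]
    intro hd
    apply hp
    exact Finset.mem_subtype.mpr (Nat.mem_primeFactors.mpr ⟨p.2, hd, hM.ne'⟩)
  rw [tsum_eq_sum hz]
  have hc : S.card ≤ M + 1 := by
    refine (Finset.card_subtype Nat.Prime M.primeFactors).le.trans ?_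
    calc (M.primeFactors.filter Nat.Prime).card ≤ (range (M + 1)).card := by
          apply card_le_card
          intro p hp
          rw [mem_filter, Nat.mem_primeFactors] at hp
          rw [mem_range]
          have := Nat.le_of_dvd hM hp.1.2.1
          omega
      _ = M + 1 := card_range _
  calc ‖∑ p ∈ S, (a p - b p)‖ ≤ ∑ p ∈ S, ‖a p - b p‖ := norm_sum_le _ _
    _ ≤ ∑ p ∈ S, (1 : ℝ) := sum_le_sum fun p _ => hbd p
    _ = (S.card : ℝ) := by simp
    _ ≤ (M : ℝ) + 1 := by exact_mod_cast hc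

/-- the norm of `p^(-s)` -/
theorem norm_pow (p : Nat.Primes) (δ t : ℝ) :
    ‖((p : ℕ) : ℂ) ^ (-((1 + δ : ℝ) + (t : ℂ) * I))‖ = ((p : ℕ) : ℝ) ^ (-(1 + δ)) := by
  rw [Complex.norm_natCast_cpow_of_pos p.2.pos]
  congr 1
  simp

theorem rpow_half (p : Nat.Primes) {δ : ℝ} (hδ : 0 < δ) :
    ((p : ℕ) : ℝ) ^ (-(1 + δ)) ≤ 1 / 2 := by
  have hp : (2 : ℝ) ≤ ((p : ℕ) : ℝ) := by exact_mod_cast p.2.two_le
  calc ((p : ℕ) : ℝ) ^ (-(1 + δ)) ≤ ((p : ℕ) : ℝ) ^ (-1 : ℝ) :=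
        Real.rpow_le_rpow_of_exponent_le (by linarith) (by linarith)
    _ = 1 / ((p : ℕ) : ℝ) := by rw [Real.rpow_neg_one, one_div]
    _ ≤ 1 / 2 := one_div_le_one_div_of_le (by norm_num) hp

theorem summ (c : Nat.Primes → ℂ) (hc : ∀ p, ‖c p‖ ≤ 1) {δ : ℝ} (hδ : 0 < δ) (t : ℝ) :
    Summable (fun p : Nat.Primes => c p * ((p : ℕ) : ℂ) ^ (-((1 + δ : ℝ) + (t : ℂ) * I))) := by
  have h1 : Summable fun p : Nat.Primes => ((p : ℕ) : ℝ) ^ (-(1 + δ)) :=
    Nat.Primes.summable_rpow.2 (by linarith)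
  refine Summable.of_norm_bounded h1 fun p => ?_
  rw [norm_mul, norm_pow]
  exact mul_le_of_le_one_left (by positivity) (hc p)

/-- prime sums of a character near the line 1 -/
theorem charSum (M : ℕ) [NeZero M] (ψ : DirichletCharacter ℂ M) (B : ℝ) (hB : 0 < B) :
    ∃ C : ℝ, ∀ δ t : ℝ, 0 < δ → δ ≤ 1 → |t| ≤ B →
      ‖(∑' p : Nat.Primes, ψ (((p : ℕ) : ZMod M)) * ((p : ℕ) : ℂ) ^ (-((1 + δ : ℝ) + (t : ℂ) * I))) -
        (((if ψ = 1 then (1 : ℝ) else 0) * Real.log (1 / ‖(δ : ℂ) + (t : ℂ) * I‖) : ℝ) : ℂ)‖ ≤ C := by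
  classical
  by_cases hψ : ψ = 1
  · obtain ⟨C, hC⟩ := npT B hB
    refine ⟨(M : ℝ) + 1 + C, fun δ t hδ hδ1 ht => ?_⟩
    rw [if_pos hψ, one_mul]
    have h1 := hC δ t hδ hδ1 ht
    have h2 : ‖(∑' p : Nat.Primes, ψ (((p : ℕ) : ZMod M)) *
        ((p : ℕ) : ℂ) ^ (-((1 + δ : ℝ) + (t : ℂ) * I))) -
        ∑' p : Nat.Primes, ((p : ℕ) : ℂ) ^ (-((1 + δ : ℝ) + (t : ℂ) * I))‖ ≤ (M : ℝ) + 1 := by
      apply tsum_diff M (NeZero.pos M)
      · exact summ _ (fun p => ψ.norm_le_one _) hδ t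
      · have := summ (fun _ => 1) (fun p => by simp) hδ t
        simpa using this
      · intro p hp
        rw [hψ, MulChar.one_apply, one_mul]
        rw [ZMod.isUnit_iff_coprime]
        exact (Nat.Prime.coprime_iff_not_dvd p.2).mpr hp
      · intro p
        have e : ψ (((p : ℕ) : ZMod M)) * ((p : ℕ) : ℂ) ^ (-((1 + δ : ℝ) + (t : ℂ) * I)) -
            ((p : ℕ) : ℂ) ^ (-((1 + δ : ℝ) + (t : ℂ) * I)) =
            (ψ (((p : ℕ) : ZMod M)) - 1) * ((p : ℕ) : ℂ) ^ (-((1 + δ : ℝ) + (t : ℂ) * I)) := by ring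
        rw [e, norm_mul, norm_pow]
        have h3 : ‖ψ (((p : ℕ) : ZMod M)) - 1‖ ≤ 2 := by
          refine (norm_sub_le _ _).trans ?_
          have := ψ.norm_le_one (((p : ℕ) : ZMod M))
          rw [norm_one]
          linarith
        have h4 := rpow_half p hδ
        have h5 : (0 : ℝ) ≤ ((p : ℕ) : ℝ) ^ (-(1 + δ)) := by positivity
        calc ‖ψ (((p : ℕ) : ZMod M)) - 1‖ * ((p : ℕ) : ℝ) ^ (-(1 + δ)) ≤ 2 * (1 / 2) :=
              mul_le_mul h3 h4 h5 (by norm_num)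
          _ = 1 := by norm_num
    calc _ = ‖((∑' p : Nat.Primes, ψ (((p : ℕ) : ZMod M)) *
          ((p : ℕ) : ℂ) ^ (-((1 + δ : ℝ) + (t : ℂ) * I))) -
          ∑' p : Nat.Primes, ((p : ℕ) : ℂ) ^ (-((1 + δ : ℝ) + (t : ℂ) * I))) +
          ((∑' p : Nat.Primes, ((p : ℕ) : ℂ) ^ (-((1 + δ : ℝ) + (t : ℂ) * I))) -
          (Real.log (1 / ‖(δ : ℂ) + (t : ℂ) * I‖) : ℂ))‖ := by
          congr 1
          ring
      _ ≤ _ := (norm_add_le _ _).trans (add_le_add h2 h1)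
  · obtain ⟨C, hC⟩ := npN M ψ hψ B hB
    refine ⟨C, fun δ t hδ hδ1 ht => ?_⟩
    rw [if_neg hψ, zero_mul, Complex.ofReal_zero, sub_zero]
    exact hC δ t hδ hδ1 ht

/-- the logarithm of the distance to the pole -/
theorem log_pole {ω : ℂ} (hω : ‖ω‖ = 1) {B : ℝ} (hB : 0 < B) {δ τ : ℝ} (hδ : 0 < δ) (hδ1 : δ ≤ 1)
    (h0 : 0 < |τ|) (hτ : |τ| ≤ B) {e : ℝ} (he : e = 0 ∨ e = 1) :
    ω.re / 2 * (e * Real.log (1 / ‖(δ : ℂ) + ((2 * τ : ℝ) : ℂ) * I‖)) ≤
      max 0 ω.re / 2 * max 0 (Real.log (1 / |τ|)) + Real.log (1 + 2 * B) := by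
  have hre : |ω.re| ≤ 1 := by rw [← hω]; exact Complex.abs_re_le_norm ω
  have hlogB : 0 ≤ Real.log (1 + 2 * B) := Real.log_nonneg (by linarith)
  have hR : 0 ≤ max 0 ω.re / 2 * max 0 (Real.log (1 / |τ|)) := by positivity
  rcases he with he | he
  · rw [he, zero_mul, mul_zero]
    linarith
  · rw [he, one_mul]
    set n := ‖(δ : ℂ) + ((2 * τ : ℝ) : ℂ) * I‖ with hn
    have h1 : |τ| ≤ n := by
      have h := Complex.abs_im_le_norm ((δ : ℂ) + ((2 * τ : ℝ) : ℂ) * I)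
      have h' : ((δ : ℂ) + ((2 * τ : ℝ) : ℂ) * I).im = 2 * τ := by simp
      rw [h', abs_mul, abs_two] at h
      linarith
    have h2 : n ≤ 1 + 2 * B := by
      refine (norm_add_le _ _).trans ?_
      rw [norm_mul, Complex.norm_I, mul_one, Complex.norm_real, Complex.norm_real,
        Real.norm_eq_abs, Real.norm_eq_abs, abs_mul, abs_two, abs_of_pos hδ]
      linarith
    have hn0 : 0 < n := by linarith
    rcases le_total 0 ω.re with hs | hs
    · rw [max_eq_right hs]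
      have h3 : Real.log (1 / n) ≤ max 0 (Real.log (1 / |τ|)) := by
        refine le_trans ?_ (le_max_right _ _)
        apply Real.log_le_log (by positivity)
        exact one_div_le_one_div_of_le h0 h1
      have h4 := mul_le_mul_of_nonneg_left h3 (by linarith : 0 ≤ ω.re / 2)
      linarith
    · rw [abs_of_nonpos hs] at hre
      have h3 : -Real.log (1 + 2 * B) ≤ Real.log (1 / n) := by
        rw [one_div, Real.log_inv]
        have := Real.log_le_log hn0 h2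
        linarith
      have h4 := mul_le_mul_of_nonneg_left h3 (by linarith : 0 ≤ -ω.re / 2)
      nlinarith

theorem f_eq (p : ℕ) (hp : 0 < p) (u : ℂ) (δ τ : ℝ) :
    (u * Complex.exp (-(2 * τ * Real.log p : ℝ) * Complex.I)).re / (p : ℝ) ^ (1 + δ) =
      (u * (p : ℂ) ^ (-((1 + δ : ℝ) + ((2 * τ : ℝ) : ℂ) * I))).re := by
  have hp' : (p : ℂ) ≠ 0 := by exact_mod_cast hp.ne'
  have hpr : (0 : ℝ) < (p : ℝ) := by exact_mod_cast hp
  have h1 : Complex.log (p : ℂ) = ((Real.log p : ℝ) : ℂ) := by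
    rw [Complex.natCast_log]
  have h2 : (p : ℂ) ^ (-((1 + δ : ℝ) + ((2 * τ : ℝ) : ℂ) * I)) =
      (((p : ℝ) ^ (1 + δ))⁻¹ : ℝ) * Complex.exp (-(2 * τ * Real.log p : ℝ) * Complex.I) := by
    rw [Complex.cpow_def_of_ne_zero hp', h1, Real.rpow_def_of_pos hpr, ← Real.exp_neg,
      Complex.ofReal_exp, ← Complex.exp_add]
    congr 1
    push_cast
    ring
  rw [h2]
  have h3 : u * ((((p : ℝ) ^ (1 + δ))⁻¹ : ℝ) * Complex.exp (-(2 * τ * Real.log p : ℝ) * Complex.I)) =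
      ((((p : ℝ) ^ (1 + δ))⁻¹ : ℝ) : ℂ) *
        (u * Complex.exp (-(2 * τ * Real.log p : ℝ) * Complex.I)) := by ring
  rw [h3, Complex.re_ofReal_mul]
  ring

end NpP

open NpP ZEuler in
/-- PROOF. `smooth_cut` (real and imaginary part, or directly the real function `f p = Re (ω χ(p) exp (-2 i τ log p))`, `|f| ≤ 1`) replaces the sum over `PT T` of `f p / p` by
`∑'_p f(p) p^(-1-δ)` over the primes `1 mod 4`, `δ = 1/log T` (see the exact statement; for `T = 3`, `δ ≤ 1`), the primes of `E` contribute at most `#E`. For an odd prime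
`1_(p = 1 mod 4) = (1 + χ₄(p))/2`, so the sum is `Re (ω/2 (P_χ + P_(χ χ₄)))` up to `1` (`p = 2`), where `P_ψ = ∑'_p ψ(p) p^(-(1 + δ + 2 i τ))`, `χ` and `χ χ₄` considered modulo
`4 N` (`DirichletCharacter.changeLevel`; it changes only the finitely many primes dividing `4 N`: `O(1)`). Not both of them are trivial (`χ₄` is not trivial modulo `4N`). A
nontrivial one has `|P_ψ| ≤ C` (`npN`), a trivial one `P = log (1/‖δ + 2 i τ‖) + O(1)` (`npT`, up to the primes dividing `4N`), and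
`Re (ω) / 2 * log (1/‖δ + 2 i τ‖) ≤ (max 0 (Re ω)) / 2 * max 0 (log (1/|τ|)) + C`: if `Re ω ≥ 0` since `‖δ + 2 i τ‖ ≥ |τ|`; if `Re ω < 0` since
`‖δ + 2 i τ‖ ≤ 1 + 2 B`. -/
theorem npChi (N : ℕ) [NeZero N] (χ : DirichletCharacter ℂ N) (ω : ℂ) (hω : ‖ω‖ = 1) (E : Finset ℕ) :
    NP E (fun p => ω * χ ((p : ZMod N))) (max 0 ω.re) := by
  classical
  intro B hB
  obtain ⟨C0, hC0⟩ := smooth_cut
  have hM : 0 < 4 * N := by
    have := NeZero.pos N
    omega
  have : NeZero (4 * N) := ⟨hM.ne'⟩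
  set M := 4 * N with hMdef
  have hN : N ∣ M := Dvd.intro_left 4 rfl
  have h4 : 4 ∣ M := Dvd.intro N rfl
  set ψ1 : DirichletCharacter ℂ M := DirichletCharacter.changeLevel hN χ with hψ1
  set ψ4 : DirichletCharacter ℂ M := DirichletCharacter.changeLevel h4 ch with hψ4
  set ψ2 : DirichletCharacter ℂ M := ψ1 * ψ4 with hψ2
  have hψ4ne : ψ4 ≠ 1 := by
    rw [hψ4, Ne, DirichletCharacter.changeLevel_eq_one_iff]
    exact ch_ne
  have hnot : ¬ (ψ1 = 1 ∧ ψ2 = 1) := by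
    rintro ⟨h1, h2⟩
    rw [hψ2, h1, one_mul] at h2
    exact hψ4ne h2
  obtain ⟨C1, hC1⟩ := charSum M ψ1 (2 * B) (by linarith)
  obtain ⟨C2, hC2⟩ := charSum M ψ2 (2 * B) (by linarith)
  refine ⟨C0 + (E.card : ℝ) + ((M : ℝ) + 1) + (C1 + C2) + Real.log (1 + 2 * B), ?_⟩
  intro T hT τ hτ0 hτB
  have hL := ZSm.one_le_logT hT
  set δ : ℝ := 1 / Real.log T with hδdef
  have hδ : 0 < δ := by positivity
  have hδ1 : δ ≤ 1 := by
    rw [hδdef, div_le_one (by linarith)]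
    exact hL
  -- the function
  set f : ℕ → ℝ := fun p => (ω * χ ((p : ZMod N)) *
    Complex.exp (-(2 * τ * Real.log p : ℝ) * Complex.I)).re with hf
  have hf1 : ∀ p, |f p| ≤ 1 := by
    intro p
    refine (Complex.abs_re_le_norm _).trans ?_
    have hexp : ‖Complex.exp (-(2 * τ * Real.log p : ℝ) * Complex.I)‖ = 1 := by
      have : (-(2 * τ * Real.log p : ℝ) * Complex.I : ℂ) =
        ((-(2 * τ * Real.log p) : ℝ) : ℂ) * Complex.I := by push_cast; ring
      rw [this, Complex.norm_exp_ofReal_mul_I]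
    rw [norm_mul, norm_mul, hω, hexp, one_mul, mul_one]
    exact χ.norm_le_one _
  obtain ⟨-, hcut⟩ := hC0 T hT f hf1
  rw [← hδdef] at hcut
  -- the primes of `E`
  have hE : ∑ p ∈ PE E T, f p / p ≤ ∑ p ∈ PT T, f p / p + (E.card : ℝ) := by
    have h1 : ∑ p ∈ PT T \ (PT T \ E), f p / (p : ℝ) + ∑ p ∈ PT T \ E, f p / (p : ℝ) =
        ∑ p ∈ PT T, f p / (p : ℝ) := sum_sdiff sdiff_subset
    have h2 : -(E.card : ℝ) ≤ ∑ p ∈ PT T \ (PT T \ E), f p / (p : ℝ) := by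
      have h3 : |∑ p ∈ PT T \ (PT T \ E), f p / (p : ℝ)| ≤ (E.card : ℝ) := by
        calc |∑ p ∈ PT T \ (PT T \ E), f p / (p : ℝ)|
            ≤ ∑ p ∈ PT T \ (PT T \ E), |f p / (p : ℝ)| := abs_sum_le_sum_abs _ _
          _ ≤ ∑ p ∈ PT T \ (PT T \ E), (1 : ℝ) := by
              refine sum_le_sum fun p hp => ?_
              have hp5 := ZSm.PT_five (mem_sdiff.mp hp).1
              have hp1 : (1 : ℝ) ≤ p := by exact_mod_cast (by omega : 1 ≤ p)
              rw [abs_div, abs_of_pos (by linarith : (0 : ℝ) < p), div_le_one (by linarith)]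
              exact (hf1 p).trans hp1
          _ = ((PT T \ (PT T \ E)).card : ℝ) := by simp
          _ ≤ (E.card : ℝ) := by
              have : PT T \ (PT T \ E) ⊆ E := by
                intro p hp
                rw [mem_sdiff, mem_sdiff] at hp
                by_contra hc
                exact hp.2 ⟨hp.1, hc⟩
              exact_mod_cast card_le_card this
      exact (abs_le.mp h3).1
    have h3 : PE E T = PT T \ E := rfl
    rw [h3]
    linarith
  -- as a sum over primes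
  set a : Nat.Primes → ℂ := fun p => (if (p : ℕ) % 4 = 1 then ω * χ (((p : ℕ) : ZMod N)) else 0) *
    ((p : ℕ) : ℂ) ^ (-((1 + δ : ℝ) + ((2 * τ : ℝ) : ℂ) * Complex.I)) with ha
  set b : Nat.Primes → ℂ := fun p => (ω / 2 * (ψ1 (((p : ℕ) : ZMod M)) + ψ2 (((p : ℕ) : ZMod M)))) *
    ((p : ℕ) : ℂ) ^ (-((1 + δ : ℝ) + ((2 * τ : ℝ) : ℂ) * Complex.I)) with hb
  have hac : ∀ p : Nat.Primes,
      ‖(if (p : ℕ) % 4 = 1 then ω * χ (((p : ℕ) : ZMod N)) else 0 : ℂ)‖ ≤ 1 := by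
    intro p
    split_ifs
    · rw [norm_mul, hω, one_mul]
      exact χ.norm_le_one _
    · simp
  have hbc : ∀ p : Nat.Primes,
      ‖ω / 2 * (ψ1 (((p : ℕ) : ZMod M)) + ψ2 (((p : ℕ) : ZMod M)))‖ ≤ 1 := by
    intro p
    rw [norm_mul, norm_div, hω, Complex.norm_ofNat]
    have h1 := ψ1.norm_le_one (((p : ℕ) : ZMod M))
    have h2 := ψ2.norm_le_one (((p : ℕ) : ZMod M))
    have h3 := norm_add_le (ψ1 (((p : ℕ) : ZMod M))) (ψ2 (((p : ℕ) : ZMod M)))
    linarith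
  have hsa : Summable a := summ _ hac hδ (2 * τ)
  have hsb : Summable b := summ _ hbc hδ (2 * τ)
  have hST : ∑' p : ℕ, (if p.Prime ∧ p % 4 = 1 then f p / (p : ℝ) ^ (1 + δ) else 0) =
      (∑' p, a p).re := by
    rw [Complex.re_tsum hsa]
    have h1 : ∀ p : ℕ, (if p.Prime ∧ p % 4 = 1 then f p / (p : ℝ) ^ (1 + δ) else 0) =
        (if p.Prime then (if p % 4 = 1 then f p / (p : ℝ) ^ (1 + δ) else 0) else 0) := by
      intro p
      by_cases hp : p.Prime <;> simp [hp]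
    rw [tsum_congr h1, tsum_ite (fun p : ℕ => if p % 4 = 1 then f p / (p : ℝ) ^ (1 + δ) else 0)]
    refine tsum_congr fun p => ?_
    rw [ha]
    simp only
    split_ifs with h
    · exact f_eq p p.2.pos _ δ τ
    · simp
  have hdiff : ‖∑' p, a p - ∑' p, b p‖ ≤ (M : ℝ) + 1 := by
    refine tsum_diff M hM a b hsa hsb ?_ ?_
    · intro p hp
      have hcop : Nat.Coprime (p : ℕ) M := (Nat.Prime.coprime_iff_not_dvd p.2).mpr hp
      have hcopZ : IsCoprime ((p : ℕ) : ℤ) (M : ℤ) := Nat.isCoprime_iff_coprime.mpr hcop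
      have e1 : ψ1 (((p : ℕ) : ZMod M)) = χ (((p : ℕ) : ZMod N)) := by
        have := DirichletCharacter.changeLevel_eq_cast_of_dvd' χ hN hcopZ
        simpa using this
      have e4 : ψ4 (((p : ℕ) : ZMod M)) = ch (((p : ℕ) : ZMod 4)) := by
        have := DirichletCharacter.changeLevel_eq_cast_of_dvd' ch h4 hcopZ
        simpa using this
      have e2 : ψ2 (((p : ℕ) : ZMod M)) = χ (((p : ℕ) : ZMod N)) * ch (((p : ℕ) : ZMod 4)) := by
        rw [hψ2, MulChar.mul_apply, e1, e4]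
      rw [ha, hb]
      simp only
      rw [e1, e2, ch_apply]
      have hodd : (p : ℕ) % 4 = 1 ∨ (p : ℕ) % 4 = 3 := by
        rcases p.2.eq_two_or_odd with h | h
        · exfalso
          apply hp
          rw [h]
          exact (by norm_num : 2 ∣ 4).trans h4
        · omega
      rcases hodd with h | h
      · rw [if_pos h, ZMod.χ₄_nat_one_mod_four h]
        push_cast
        ring
      · rw [if_neg (by omega), ZMod.χ₄_nat_three_mod_four h]
        push_cast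
        ring
    · intro p
      refine (norm_sub_le _ _).trans ?_
      have h1 : ‖a p‖ ≤ 1 / 2 := by
        rw [ha]
        simp only
        rw [norm_mul, norm_pow]
        have h3 : (0 : ℝ) ≤ ((p : ℕ) : ℝ) ^ (-(1 + δ)) := by positivity
        exact (mul_le_of_le_one_left h3 (hac p)).trans (rpow_half p hδ)
      have h2 : ‖b p‖ ≤ 1 / 2 := by
        rw [hb]
        simp only
        rw [norm_mul, norm_pow]
        have h3 : (0 : ℝ) ≤ ((p : ℕ) : ℝ) ^ (-(1 + δ)) := by positivity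
        exact (mul_le_of_le_one_left h3 (hbc p)).trans (rpow_half p hδ)
      linarith
  -- the two character sums
  set P1 := ∑' p : Nat.Primes, ψ1 (((p : ℕ) : ZMod M)) *
    ((p : ℕ) : ℂ) ^ (-((1 + δ : ℝ) + ((2 * τ : ℝ) : ℂ) * Complex.I)) with hP1
  set P2 := ∑' p : Nat.Primes, ψ2 (((p : ℕ) : ZMod M)) *
    ((p : ℕ) : ℂ) ^ (-((1 + δ : ℝ) + ((2 * τ : ℝ) : ℂ) * Complex.I)) with hP2
  have hbsum : ∑' p, b p = ω / 2 * (P1 + P2) := by
    have s1 := summ (fun p : Nat.Primes => ψ1 (((p : ℕ) : ZMod M)))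
      (fun p => ψ1.norm_le_one _) hδ (2 * τ)
    have s2 := summ (fun p : Nat.Primes => ψ2 (((p : ℕ) : ZMod M)))
      (fun p => ψ2.norm_le_one _) hδ (2 * τ)
    rw [hP1, hP2, ← s1.tsum_add s2, ← tsum_mul_left]
    refine tsum_congr fun p => ?_
    rw [hb]
    simp only
    ring
  have hτ2 : |2 * τ| ≤ 2 * B := by
    rw [abs_mul, abs_two]
    linarith
  set Lg := Real.log (1 / ‖(δ : ℂ) + ((2 * τ : ℝ) : ℂ) * Complex.I‖) with hLg
  have k1 := hC1 δ (2 * τ) hδ hδ1 hτ2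
  have k2 := hC2 δ (2 * τ) hδ hδ1 hτ2
  rw [← hP1, ← hLg] at k1
  rw [← hP2, ← hLg] at k2
  set e1 : ℝ := if ψ1 = 1 then (1 : ℝ) else 0 with he1
  set e2 : ℝ := if ψ2 = 1 then (1 : ℝ) else 0 with he2
  have he : e1 + e2 = 0 ∨ e1 + e2 = 1 := by
    rw [he1, he2]
    by_cases h1 : ψ1 = 1
    · have h2 : ψ2 ≠ 1 := fun h => hnot ⟨h1, h⟩
      rw [if_pos h1, if_neg h2]
      right; norm_num
    · by_cases h2 : ψ2 = 1
      · rw [if_neg h1, if_pos h2]
        right; norm_num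
      · rw [if_neg h1, if_neg h2]
        left; norm_num
  have hmain : (ω / 2 * (P1 + P2)).re ≤ ω.re / 2 * ((e1 + e2) * Lg) + (C1 + C2) := by
    have h1 : ω / 2 * (P1 + P2) = ((((e1 + e2) * Lg) / 2 : ℝ) : ℂ) * ω +
        ω / 2 * ((P1 - ((e1 * Lg : ℝ) : ℂ)) + (P2 - ((e2 * Lg : ℝ) : ℂ))) := by
      push_cast
      ring
    rw [h1, Complex.add_re, Complex.re_ofReal_mul]
    have h2 : (ω / 2 * ((P1 - ((e1 * Lg : ℝ) : ℂ)) + (P2 - ((e2 * Lg : ℝ) : ℂ)))).re ≤ C1 + C2 := by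
      refine (Complex.re_le_norm _).trans ?_
      rw [norm_mul, norm_div, hω, Complex.norm_ofNat]
      have h3 := norm_add_le (P1 - ((e1 * Lg : ℝ) : ℂ)) (P2 - ((e2 * Lg : ℝ) : ℂ))
      have h4 := norm_nonneg (P1 - ((e1 * Lg : ℝ) : ℂ) + (P2 - ((e2 * Lg : ℝ) : ℂ)))
      linarith
    linarith
  have hpole := log_pole hω hB hδ hδ1 hτ0 hτB he
  rw [← hLg] at hpole
  have hcut' := (abs_le.mp hcut).2
  have hd' : (∑' p, a p).re - (∑' p, b p).re ≤ (M : ℝ) + 1 := by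
    rw [← Complex.sub_re]
    exact (Complex.re_le_norm _).trans hdiff
  rw [hST] at hcut'
  rw [hbsum] at hd'
  have hfin : ∑ p ∈ PE E T, f p / p ≤ max 0 ω.re / 2 * max 0 (Real.log (1 / |τ|)) +
      (C0 + (E.card : ℝ) + ((M : ℝ) + 1) + (C1 + C2) + Real.log (1 + 2 * B)) := by
    linarith
  exact hfin

end Pool.Agent.OmEq

end

/-! ### from `Lib_MP_f1a94e_eq.NpZ` -/

section

/-!
# Piece NPZ: characters that are not trivial on `1 mod 4` satisfy `NP` with `R = 0`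
-/

set_option autoImplicit false

namespace Pool.Agent.OmEq

open Finset Pool.Agent.OmAll

open NpP ZEuler in
/-- PROOF. As piece NP (`npChi` in Np.lean), with the nontrivial case only: `smooth_cut` replaces the sum over `PT T` of `Re (ω χ(p) exp (-2 i τ log p)) / p` by the sum over all
primes `p = 1 mod 4` of `Re (ω χ(p) p^(-(1 + δ + 2 i τ)))`, `δ = 1/log T`; for odd `p`, `1_(p = 1 mod 4) = (1 + χ₄(p))/2`; so up to `O(1)` it is
`Re (ω/2 (P_χ + P_(χ χ₄)))`, with both characters considered modulo `4 N` (`DirichletCharacter.changeLevel`, differs at the primes dividing `4 N` only). Both are nontrivial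
modulo `4 N`: `a` is coprime to `4 N` and `χ(a) ≠ 1`, `χ(a) χ₄(a) = χ(a) ≠ 1`. So both sums are bounded by `npN` (`|t| = |2 τ| ≤ 2 B`), the primes of `E` contribute at most `#E`. -/
theorem npZ (N : ℕ) [NeZero N] (χ : DirichletCharacter ℂ N) (a : ℕ) (ha : a % 4 = 1) (haN : a.Coprime N)
    (hχ : χ ((a : ZMod N)) ≠ 1) (ω : ℂ) (hω : ‖ω‖ = 1) (E : Finset ℕ) :
    NP E (fun p => ω * χ ((p : ZMod N))) 0 := by
  classical
  intro B hB
  obtain ⟨C0, hC0⟩ := smooth_cut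
  have hM : 0 < 4 * N := by
    have := NeZero.pos N
    omega
  have : NeZero (4 * N) := ⟨hM.ne'⟩
  set M := 4 * N with hMdef
  have hN : N ∣ M := Dvd.intro_left 4 rfl
  have h4 : 4 ∣ M := Dvd.intro N rfl
  set ψ1 : DirichletCharacter ℂ M := DirichletCharacter.changeLevel hN χ with hψ1
  set ψ4 : DirichletCharacter ℂ M := DirichletCharacter.changeLevel h4 ch with hψ4
  set ψ2 : DirichletCharacter ℂ M := ψ1 * ψ4 with hψ2
  have ha0 : Odd a := Nat.odd_iff.mpr (by omega)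
  have hcopa : Nat.Coprime a M := by
    rw [hMdef]
    refine Nat.Coprime.mul_right ?_ haN
    have h2 : Nat.Coprime a 2 := (Nat.coprime_two_right).mpr ha0
    exact Nat.Coprime.pow_right 2 h2
  have hcopaZ : IsCoprime ((a : ℕ) : ℤ) (M : ℤ) := Nat.isCoprime_iff_coprime.mpr hcopa
  have hua : IsUnit ((a : ZMod M)) := (ZMod.isUnit_iff_coprime a M).mpr hcopa
  have ea1 : ψ1 ((a : ZMod M)) = χ ((a : ZMod N)) := by
    have := DirichletCharacter.changeLevel_eq_cast_of_dvd' χ hN hcopaZ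
    simpa using this
  have ea4 : ψ4 ((a : ZMod M)) = 1 := by
    have := DirichletCharacter.changeLevel_eq_cast_of_dvd' ch h4 hcopaZ
    have h5 : ψ4 ((a : ZMod M)) = ch ((a : ZMod 4)) := by simpa using this
    rw [h5, ch_apply, ZMod.χ₄_nat_one_mod_four ha]
    norm_num
  have hψ1ne : ψ1 ≠ 1 := by
    intro h
    apply hχ
    rw [← ea1, h, MulChar.one_apply hua]
  have hψ2ne : ψ2 ≠ 1 := by
    intro h
    apply hχ
    have h6 : ψ2 ((a : ZMod M)) = χ ((a : ZMod N)) := by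
      rw [hψ2, MulChar.mul_apply, ea1, ea4, mul_one]
    rw [← h6, h, MulChar.one_apply hua]
  obtain ⟨C1, hC1⟩ := charSum M ψ1 (2 * B) (by linarith)
  obtain ⟨C2, hC2⟩ := charSum M ψ2 (2 * B) (by linarith)
  refine ⟨C0 + (E.card : ℝ) + ((M : ℝ) + 1) + (C1 + C2), ?_⟩
  intro T hT τ hτ0 hτB
  have hL := ZSm.one_le_logT hT
  set δ : ℝ := 1 / Real.log T with hδdef
  have hδ : 0 < δ := by positivity
  have hδ1 : δ ≤ 1 := by
    rw [hδdef, div_le_one (by linarith)]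
    exact hL
  -- the function
  set f : ℕ → ℝ := fun p => (ω * χ ((p : ZMod N)) *
    Complex.exp (-(2 * τ * Real.log p : ℝ) * Complex.I)).re with hf
  have hf1 : ∀ p, |f p| ≤ 1 := by
    intro p
    refine (Complex.abs_re_le_norm _).trans ?_
    have hexp : ‖Complex.exp (-(2 * τ * Real.log p : ℝ) * Complex.I)‖ = 1 := by
      have : (-(2 * τ * Real.log p : ℝ) * Complex.I : ℂ) =
        ((-(2 * τ * Real.log p) : ℝ) : ℂ) * Complex.I := by push_cast; ring
      rw [this, Complex.norm_exp_ofReal_mul_I]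
    rw [norm_mul, norm_mul, hω, hexp, one_mul, mul_one]
    exact χ.norm_le_one _
  obtain ⟨-, hcut⟩ := hC0 T hT f hf1
  rw [← hδdef] at hcut
  -- the primes of `E`
  have hE : ∑ p ∈ PE E T, f p / p ≤ ∑ p ∈ PT T, f p / p + (E.card : ℝ) := by
    have h1 : ∑ p ∈ PT T \ (PT T \ E), f p / (p : ℝ) + ∑ p ∈ PT T \ E, f p / (p : ℝ) =
        ∑ p ∈ PT T, f p / (p : ℝ) := sum_sdiff sdiff_subset
    have h2 : -(E.card : ℝ) ≤ ∑ p ∈ PT T \ (PT T \ E), f p / (p : ℝ) := by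
      have h3 : |∑ p ∈ PT T \ (PT T \ E), f p / (p : ℝ)| ≤ (E.card : ℝ) := by
        calc |∑ p ∈ PT T \ (PT T \ E), f p / (p : ℝ)|
            ≤ ∑ p ∈ PT T \ (PT T \ E), |f p / (p : ℝ)| := abs_sum_le_sum_abs _ _
          _ ≤ ∑ p ∈ PT T \ (PT T \ E), (1 : ℝ) := by
              refine sum_le_sum fun p hp => ?_
              have hp5 := ZSm.PT_five (mem_sdiff.mp hp).1
              have hp1 : (1 : ℝ) ≤ p := by exact_mod_cast (by omega : 1 ≤ p)
              rw [abs_div, abs_of_pos (by linarith : (0 : ℝ) < p), div_le_one (by linarith)]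
              exact (hf1 p).trans hp1
          _ = ((PT T \ (PT T \ E)).card : ℝ) := by simp
          _ ≤ (E.card : ℝ) := by
              have : PT T \ (PT T \ E) ⊆ E := by
                intro p hp
                rw [mem_sdiff, mem_sdiff] at hp
                by_contra hc
                exact hp.2 ⟨hp.1, hc⟩
              exact_mod_cast card_le_card this
      exact (abs_le.mp h3).1
    have h3 : PE E T = PT T \ E := rfl
    rw [h3]
    linarith
  -- as a sum over primes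
  set A : Nat.Primes → ℂ := fun p => (if (p : ℕ) % 4 = 1 then ω * χ (((p : ℕ) : ZMod N)) else 0) *
    ((p : ℕ) : ℂ) ^ (-((1 + δ : ℝ) + ((2 * τ : ℝ) : ℂ) * Complex.I)) with hA
  set b : Nat.Primes → ℂ := fun p => (ω / 2 * (ψ1 (((p : ℕ) : ZMod M)) + ψ2 (((p : ℕ) : ZMod M)))) *
    ((p : ℕ) : ℂ) ^ (-((1 + δ : ℝ) + ((2 * τ : ℝ) : ℂ) * Complex.I)) with hb
  have hac : ∀ p : Nat.Primes,
      ‖(if (p : ℕ) % 4 = 1 then ω * χ (((p : ℕ) : ZMod N)) else 0 : ℂ)‖ ≤ 1 := by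
    intro p
    split_ifs
    · rw [norm_mul, hω, one_mul]
      exact χ.norm_le_one _
    · simp
  have hbc : ∀ p : Nat.Primes,
      ‖ω / 2 * (ψ1 (((p : ℕ) : ZMod M)) + ψ2 (((p : ℕ) : ZMod M)))‖ ≤ 1 := by
    intro p
    rw [norm_mul, norm_div, hω, Complex.norm_ofNat]
    have h1 := ψ1.norm_le_one (((p : ℕ) : ZMod M))
    have h2 := ψ2.norm_le_one (((p : ℕ) : ZMod M))
    have h3 := norm_add_le (ψ1 (((p : ℕ) : ZMod M))) (ψ2 (((p : ℕ) : ZMod M)))
    linarith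
  have hsa : Summable A := summ _ hac hδ (2 * τ)
  have hsb : Summable b := summ _ hbc hδ (2 * τ)
  have hST : ∑' p : ℕ, (if p.Prime ∧ p % 4 = 1 then f p / (p : ℝ) ^ (1 + δ) else 0) =
      (∑' p, A p).re := by
    rw [Complex.re_tsum hsa]
    have h1 : ∀ p : ℕ, (if p.Prime ∧ p % 4 = 1 then f p / (p : ℝ) ^ (1 + δ) else 0) =
        (if p.Prime then (if p % 4 = 1 then f p / (p : ℝ) ^ (1 + δ) else 0) else 0) := by
      intro p
      by_cases hp : p.Prime <;> simp [hp]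
    rw [tsum_congr h1, tsum_ite (fun p : ℕ => if p % 4 = 1 then f p / (p : ℝ) ^ (1 + δ) else 0)]
    refine tsum_congr fun p => ?_
    rw [hA]
    simp only
    split_ifs with h
    · exact f_eq p p.2.pos _ δ τ
    · simp
  have hdiff : ‖∑' p, A p - ∑' p, b p‖ ≤ (M : ℝ) + 1 := by
    refine tsum_diff M hM A b hsa hsb ?_ ?_
    · intro p hp
      have hcop : Nat.Coprime (p : ℕ) M := (Nat.Prime.coprime_iff_not_dvd p.2).mpr hp
      have hcopZ : IsCoprime ((p : ℕ) : ℤ) (M : ℤ) := Nat.isCoprime_iff_coprime.mpr hcop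
      have e1 : ψ1 (((p : ℕ) : ZMod M)) = χ (((p : ℕ) : ZMod N)) := by
        have := DirichletCharacter.changeLevel_eq_cast_of_dvd' χ hN hcopZ
        simpa using this
      have e4 : ψ4 (((p : ℕ) : ZMod M)) = ch (((p : ℕ) : ZMod 4)) := by
        have := DirichletCharacter.changeLevel_eq_cast_of_dvd' ch h4 hcopZ
        simpa using this
      have e2 : ψ2 (((p : ℕ) : ZMod M)) = χ (((p : ℕ) : ZMod N)) * ch (((p : ℕ) : ZMod 4)) := by
        rw [hψ2, MulChar.mul_apply, e1, e4]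
      rw [hA, hb]
      simp only
      rw [e1, e2, ch_apply]
      have hodd : (p : ℕ) % 4 = 1 ∨ (p : ℕ) % 4 = 3 := by
        rcases p.2.eq_two_or_odd with h | h
        · exfalso
          apply hp
          rw [h]
          exact (by norm_num : 2 ∣ 4).trans h4
        · omega
      rcases hodd with h | h
      · rw [if_pos h, ZMod.χ₄_nat_one_mod_four h]
        push_cast
        ring
      · rw [if_neg (by omega), ZMod.χ₄_nat_three_mod_four h]
        push_cast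
        ring
    · intro p
      refine (norm_sub_le _ _).trans ?_
      have h1 : ‖A p‖ ≤ 1 / 2 := by
        rw [hA]
        simp only
        rw [norm_mul, norm_pow]
        have h3 : (0 : ℝ) ≤ ((p : ℕ) : ℝ) ^ (-(1 + δ)) := by positivity
        exact (mul_le_of_le_one_left h3 (hac p)).trans (rpow_half p hδ)
      have h2 : ‖b p‖ ≤ 1 / 2 := by
        rw [hb]
        simp only
        rw [norm_mul, norm_pow]
        have h3 : (0 : ℝ) ≤ ((p : ℕ) : ℝ) ^ (-(1 + δ)) := by positivity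
        exact (mul_le_of_le_one_left h3 (hbc p)).trans (rpow_half p hδ)
      linarith
  -- the two character sums
  set P1 := ∑' p : Nat.Primes, ψ1 (((p : ℕ) : ZMod M)) *
    ((p : ℕ) : ℂ) ^ (-((1 + δ : ℝ) + ((2 * τ : ℝ) : ℂ) * Complex.I)) with hP1
  set P2 := ∑' p : Nat.Primes, ψ2 (((p : ℕ) : ZMod M)) *
    ((p : ℕ) : ℂ) ^ (-((1 + δ : ℝ) + ((2 * τ : ℝ) : ℂ) * Complex.I)) with hP2
  have hbsum : ∑' p, b p = ω / 2 * (P1 + P2) := by
    have s1 := summ (fun p : Nat.Primes => ψ1 (((p : ℕ) : ZMod M)))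
      (fun p => ψ1.norm_le_one _) hδ (2 * τ)
    have s2 := summ (fun p : Nat.Primes => ψ2 (((p : ℕ) : ZMod M)))
      (fun p => ψ2.norm_le_one _) hδ (2 * τ)
    rw [hP1, hP2, ← s1.tsum_add s2, ← tsum_mul_left]
    refine tsum_congr fun p => ?_
    rw [hb]
    simp only
    ring
  have hτ2 : |2 * τ| ≤ 2 * B := by
    rw [abs_mul, abs_two]
    linarith
  have k1 := hC1 δ (2 * τ) hδ hδ1 hτ2
  have k2 := hC2 δ (2 * τ) hδ hδ1 hτ2
  rw [← hP1, if_neg hψ1ne, zero_mul, Complex.ofReal_zero, sub_zero] at k1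
  rw [← hP2, if_neg hψ2ne, zero_mul, Complex.ofReal_zero, sub_zero] at k2
  have hmain : (ω / 2 * (P1 + P2)).re ≤ C1 + C2 := by
    refine (Complex.re_le_norm _).trans ?_
    rw [norm_mul, norm_div, hω, Complex.norm_ofNat]
    have h3 := norm_add_le P1 P2
    have h4 := norm_nonneg (P1 + P2)
    linarith
  have hcut' := (abs_le.mp hcut).2
  have hd' : (∑' p, A p).re - (∑' p, b p).re ≤ (M : ℝ) + 1 := by
    rw [← Complex.sub_re]
    exact (Complex.re_le_norm _).trans hdiff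
  rw [hST] at hcut'
  rw [hbsum] at hd'
  have hfin : ∑ p ∈ PE E T, f p / p ≤ 0 / 2 * max 0 (Real.log (1 / |τ|)) +
      (C0 + (E.card : ℝ) + ((M : ℝ) + 1) + (C1 + C2)) := by
    linarith
  exact hfin

end Pool.Agent.OmEq

end

/-! ### from `Lib_MP_f1a94e_eq.TotR` -/

section

/-!
# Piece TOTR: the total number of edges with norms coprime to `R`
-/

set_option autoImplicit false

namespace Pool.Agent.OmEq

open Finset Pool.Agent.GaussMR Pool.Agent.OmAll Filter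

/-- for primitive `V` a vector `V'` with `det V V' = 1`, `nm V < dot V V' ≤ 2 nm V` -/
private theorem totr_ex {V : G} (hV : Prim V) (h0 : 0 < nm V) : ∃ V' : G, det V V' = 1 ∧
    (nm V : ℤ) < dot V V' ∧ dot V V' ≤ 2 * (nm V : ℤ) := by
  obtain ⟨a, b, hab⟩ := hV
  have hn : (0 : ℤ) < nm V := by exact_mod_cast h0
  have hsq := nm_eq V
  set d : ℤ := V.re * (-b) + V.im * a with hd
  set q : ℤ := (d - 1) / (nm V : ℤ) with hq
  have h1 := Int.emod_add_mul_ediv (d - 1) (nm V : ℤ)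
  have h2 := Int.emod_nonneg (d - 1) hn.ne'
  have h3 := Int.emod_lt_of_pos (d - 1) hn
  rw [← hq] at h1
  refine ⟨⟨-b + (1 - q) * V.re, a + (1 - q) * V.im⟩, ?_, ?_, ?_⟩
  · unfold det
    simp only
    linear_combination hab
  · have h4 : dot V ⟨-b + (1 - q) * V.re, a + (1 - q) * V.im⟩ = d + (1 - q) * (nm V : ℤ) := by
      unfold dot
      simp only
      rw [hd, hsq]
      ring
    rw [h4]
    nlinarith
  · have h4 : dot V ⟨-b + (1 - q) * V.re, a + (1 - q) * V.im⟩ = d + (1 - q) * (nm V : ℤ) := by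
      unfold dot
      simp only
      rw [hd, hsq]
      ring
    rw [h4]
    nlinarith

/-- PROOF. For primitive `V` with `nm V ≤ x / 2` there is `V'` with `det V V' = 1` and `nm V < dot V V' ≤ 2 nm V ≤ x` (Bezout, `dot V (W + k V) = dot V W + k nm V`); then `nm V nm V' = dot^2 + 1`, so
`1 ≤ nm V' / nm V < 5` (`dot^2 + 1 ≤ 4 (nm V)^2 + 1`, `nm V ≥ 1`), i.e. `0 ≤ tE < log 6`. So `#(NE 1 0 0 (log 6) x) ≥ #{V primitive, nm V ≤ x/2} ≥ #(V (x/2)) ≥ c x` (odd primitive ones, library `Lib_MP_f1a94e_mr`, lower bound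
`card_V_ge` or similar; the map `V ↦ (V, V')` is injective). -/
theorem ne_lower : ∃ c : ℝ, 0 < c ∧ ∀ᶠ x : ℝ in atTop, c * x ≤ ((NE 1 0 0 (Real.log 6) x).ncard : ℝ) := by
  obtain ⟨c, hc, hge⟩ := card_V_ge
  refine ⟨c / 2, by positivity, ?_⟩
  filter_upwards [eventually_ge_atTop (2 : ℝ)] with x hx
  have h1 := hge (x / 2) (by linarith)
  have hex : ∀ z : G, ∃ w : G, z ∈ V (x / 2) → (z, w) ∈ NE 1 0 0 (Real.log 6) x := by
    intro z
    by_cases hz : z ∈ V (x / 2)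
    · obtain ⟨hz1, hz2, hz3⟩ := mem_V.1 hz
      have h0 := nm_pos_of_odd hz2
      obtain ⟨w, hw1, hw2, hw3⟩ := totr_ex hz3 h0
      refine ⟨w, fun _ => ?_⟩
      have hdd := dot_sq_add_det_sq z w
      rw [hw1] at hdd
      have hdd' : ((dot z w : ℤ) : ℝ) ^ 2 + 1 ^ 2 = (nm z : ℝ) * nm w := by exact_mod_cast hdd
      have g1 : (1 : ℝ) ≤ nm z := by exact_mod_cast h0
      have g2 : (nm z : ℝ) < ((dot z w : ℤ) : ℝ) := by exact_mod_cast hw2
      have g3 : ((dot z w : ℤ) : ℝ) ≤ 2 * (nm z : ℝ) := by exact_mod_cast hw3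
      unfold NE
      rw [Set.mem_ofPred_eq]
      refine ⟨hw1, ?_, ?_, ?_, ?_, ?_, ?_⟩
      · have : (0 : ℤ) ≤ nm z := by positivity
        show 0 < dot z w
        linarith
      · show ((dot z w : ℤ) : ℝ) ≤ x
        linarith
      · show Real.exp 0 * (nm z : ℝ) ≤ (nm w : ℝ)
        rw [Real.exp_zero, one_mul]
        by_contra hlt
        push Not at hlt
        nlinarith
      · show (nm w : ℝ) < Real.exp (Real.log 6) * (nm z : ℝ)
        rw [Real.exp_log (by norm_num)]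
        by_contra hle
        push Not at hle
        have h5 : (nm z : ℝ) * (6 * nm z) ≤ nm z * nm w := mul_le_mul_of_nonneg_left hle (by linarith)
        nlinarith
      · simp [cg]
      · simp [cg]
    · exact ⟨0, fun h => absurd h hz⟩
  choose g hg using hex
  have h2 : ((V (x / 2)).card : ℝ) ≤ ((NE 1 0 0 (Real.log 6) x).ncard : ℝ) := by
    have h3 : ((fun z => (z, g z)) '' (V (x / 2) : Set G)).ncard ≤ (NE 1 0 0 (Real.log 6) x).ncard := by
      refine Set.ncard_le_ncard ?_ (NE_finite _ _ _ _ _)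
      rintro _ ⟨z, hz, rfl⟩
      exact hg z hz
    rw [Set.ncard_image_of_injective _ (fun a b h => congrArg Prod.fst h), Set.ncard_coe_finset] at h3
    exact_mod_cast h3
  linarith

private theorem totr_nm_mod {R : ℕ} {u v : G} (h : cg R u v) : (nm u : ℤ) ≡ nm v [ZMOD R] := by
  obtain ⟨h1, h2⟩ := h
  rw [nm_eq, nm_eq]
  exact ((Int.modEq_iff_dvd.2 (by rw [← neg_sub]; exact (dvd_neg).2 h1)).pow 2).add
    ((Int.modEq_iff_dvd.2 (by rw [← neg_sub]; exact (dvd_neg).2 h2)).pow 2)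

private theorem totr_per (R : ℕ) : Per R (fun e : G × G => (nm e.1 * nm e.2).Coprime R) := by
  intro e f h1 h2
  have h3 : nm e.1 * nm e.2 ≡ nm f.1 * nm f.2 [MOD R] := by
    rw [← Int.natCast_modEq_iff]
    push_cast
    exact (totr_nm_mod h1).mul (totr_nm_mod h2)
  show Nat.gcd _ _ = 1 ↔ Nat.gcd _ _ = 1
  rw [h3.gcd_eq]

private theorem totr_En_iff (e : G × G) : En 1 e ↔ det e.1 e.2 = 1 ∧ 0 < dot e.1 e.2 := by
  unfold En
  constructor
  · rintro ⟨h1, h2, -, -⟩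
    exact ⟨by simpa using h1, h2⟩
  · rintro ⟨h1, h2⟩
    refine ⟨by simpa using h1, h2, ?_, 1, by simpa using isCoprime_one_left, ?_⟩
    · unfold Prim
      unfold det at h1
      exact ⟨e.2.im, -e.2.re, by linarith⟩
    · unfold cg
      simp

private theorem totr_nm_pos {e : G × G} (h : det e.1 e.2 = 1) : 0 < nm e.1 ∧ 0 < nm e.2 := by
  have h1 : det e.1 e.2 ≠ 0 := by
    rw [h]
    exact one_ne_zero
  constructor
  · apply nm_pos
    intro h0
    apply h1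
    rw [h0]
    simp [det]
  · apply nm_pos
    intro h0
    apply h1
    rw [h0]
    simp [det]

private theorem totr_lo {e : G × G} (h1 : 0 < nm e.1) (h2 : 0 < nm e.2) (s : ℝ) :
    s ≤ tE e ↔ Real.exp s * (nm e.1 : ℝ) ≤ (nm e.2 : ℝ) := by
  have h1' : (0 : ℝ) < nm e.1 := by exact_mod_cast h1
  have h2' : (0 : ℝ) < nm e.2 := by exact_mod_cast h2
  unfold tE
  rw [le_sub_iff_add_le, Real.le_log_iff_exp_le h2', Real.exp_add, Real.exp_log h1']

open Classical in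
private theorem totr_card (R : ℕ) (s t x : ℝ) :
    ((EN 1 x).filter (fun e => (s ≤ tE e ∧ tE e < t) ∧ (nm e.1 * nm e.2).Coprime R)).card =
      {e : G × G | e ∈ NE 1 0 s t x ∧ (nm e.1 * nm e.2).Coprime R}.ncard := by
  rw [← Set.ncard_coe_finset]
  congr 1
  ext e
  rw [coe_filter]
  show e ∈ EN 1 x ∧ (s ≤ tE e ∧ tE e < t) ∧ _ ↔ e ∈ NE 1 0 s t x ∧ _
  rw [mem_EN one_pos]
  unfold NE
  rw [Set.mem_ofPred_eq]
  constructor
  · rintro ⟨⟨h1, h2⟩, ⟨h3, h4⟩, h7⟩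
    have hd := (totr_En_iff e).1 h1
    obtain ⟨h5, h6⟩ := totr_nm_pos hd.1
    refine ⟨⟨hd.1, hd.2, h2, (totr_lo h5 h6 s).1 h3, ?_, ?_, ?_⟩, h7⟩
    · rw [← not_le, ← totr_lo h5 h6 t, not_le]
      exact h4
    · simp [cg]
    · simp [cg]
  · rintro ⟨⟨h1, h2, h3, h4, h5, -, -⟩, h8⟩
    obtain ⟨h6, h7⟩ := totr_nm_pos h1
    refine ⟨⟨(totr_En_iff e).2 ⟨h1, h2⟩, h3⟩, ⟨(totr_lo h6 h7 s).2 h4, ?_⟩, h8⟩
    rw [← not_le, totr_lo h6 h7 t, not_le]
    exact h5

/-- PROOF. `equid R` gives `κ_R` with `#(NE R γ s t x)/x → κ_R (t - s)` for every `γ` with `R ∣ det γ - 1`; `count_lim` with `P e = (nm e.1 * nm e.2).Coprime R` (periodic modulo `R`: `nm` is a polynomial in the coordinates) gives the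
limit `#((cls R).filter P) κ_R (t - s)` for `{e ∈ NE 1 0 s t x | P e}`, and `P = True` gives `#(cls R) κ_R log 6 ≥ c > 0` by `ne_lower`, so `κ_R > 0`. `(cls R).filter P` is not empty: it contains the class of `(1, i)` (`det = 1`, `nm = 1`; for `R = 1`
the class `(0,0)`). Finally `EN 1 x` with `s ≤ tE < t` is `NE 1 0 s t x` (see `en_lim` in piece SHARP), and the boundary `tE = t` is negligible: `s ≤ tE < t ⊆ s ≤ tE ≤ t ⊆ s ≤ tE < t + δ`. -/
theorem totR (R : ℕ) (hR : 0 < R) : ∃ κ : ℝ, 0 < κ ∧ ∀ s t : ℝ, s ≤ t → Tendsto (fun X : ℝ =>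
    (((EN 1 X).filter (fun e => (s ≤ tE e ∧ tE e ≤ t) ∧ (nm e.1 * nm e.2).Coprime R)).card : ℝ) / X) atTop
      (nhds (κ * (t - s))) := by
  classical
  obtain ⟨κ, hκ⟩ := equid R hR
  obtain ⟨c, hc, hlow⟩ := ne_lower
  have hlog : 0 < Real.log 6 := Real.log_pos (by norm_num)
  have hκ0 : 0 < κ := by
    have h1 := DCount.count_lim R hR (fun _ => True) (fun _ _ _ _ => Iff.rfl) κ hκ 0 (Real.log 6) hlog.le
    simp only [and_true, Set.ofPred_mem_eq, Finset.filter_true] at h1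
    have h2 : c ≤ ((cls R).card : ℝ) * (κ * (Real.log 6 - 0)) := by
      refine ge_of_tendsto h1 ?_
      filter_upwards [hlow, eventually_gt_atTop 0] with x hx hx0
      rw [le_div_iff₀ hx0]
      exact hx
    by_contra hle
    push Not at hle
    have h3 : ((cls R).card : ℝ) * (κ * (Real.log 6 - 0)) ≤ 0 :=
      mul_nonpos_of_nonneg_of_nonpos (by positivity)
        (mul_nonpos_of_nonpos_of_nonneg hle (by linarith))
    linarith
  obtain ⟨P, hP⟩ : ∃ P : G × G → Prop, P = fun e => (nm e.1 * nm e.2).Coprime R := ⟨_, rfl⟩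
  have hper : Per R P := by
    rw [hP]
    exact totr_per R
  have hne : 0 < ((cls R).filter P).card := by
    rw [Finset.card_pos]
    refine ⟨DCount.rep R (⟨1, 0⟩, ⟨0, 1⟩), Finset.mem_filter.2
      ⟨DCount.rep_mem R hR _ (by simp [det]), ?_⟩⟩
    obtain ⟨h1, h2⟩ := DCount.cg_rep R ((⟨1, 0⟩, ⟨0, 1⟩) : G × G)
    refine (hper _ _ h1 h2).1 ?_
    have e1 : nm (⟨1, 0⟩ : G) = 1 := by
      have : ((nm (⟨1, 0⟩ : G) : ℕ) : ℤ) = ((1 : ℕ) : ℤ) := by rw [nm_eq]; norm_num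
      exact_mod_cast this
    have e2 : nm (⟨0, 1⟩ : G) = 1 := by
      have : ((nm (⟨0, 1⟩ : G) : ℕ) : ℤ) = ((1 : ℕ) : ℤ) := by rw [nm_eq]; norm_num
      exact_mod_cast this
    rw [hP]
    show (nm (⟨1, 0⟩ : G) * nm (⟨0, 1⟩ : G)).Coprime R
    rw [e1, e2]
    simp
  obtain ⟨K, hK⟩ : ∃ K : ℝ, K = (((cls R).filter P).card : ℝ) * κ := ⟨_, rfl⟩
  have hK0 : 0 < K := by
    rw [hK]
    have : (0 : ℝ) < ((cls R).filter P).card := by
      exact_mod_cast hne
    positivity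
  have hlim : ∀ s t : ℝ, s ≤ t → Tendsto (fun X : ℝ =>
      (((EN 1 X).filter (fun e => (s ≤ tE e ∧ tE e < t) ∧ (nm e.1 * nm e.2).Coprime R)).card : ℝ) / X)
        atTop (nhds (K * (t - s))) := by
    intro s t hst
    have h1 := DCount.count_lim R hR P hper κ hκ s t hst
    rw [hK]
    have h2 : (fun X : ℝ =>
        (((EN 1 X).filter (fun e => (s ≤ tE e ∧ tE e < t) ∧ (nm e.1 * nm e.2).Coprime R)).card : ℝ) / X) =
        fun x : ℝ => ({e : G × G | e ∈ NE 1 0 s t x ∧ P e}.ncard : ℝ) / x := by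
      funext x
      rw [hP, ← totr_card R s t x]
    rw [h2, mul_assoc]
    exact h1
  refine ⟨K, hK0, fun s t hst => ?_⟩
  rw [Metric.tendsto_atTop]
  intro ε hε
  obtain ⟨δ, hδ⟩ : ∃ δ : ℝ, δ = ε / (2 * K) := ⟨_, rfl⟩
  have hδ0 : 0 < δ := by rw [hδ]; positivity
  have hKδ : K * δ = ε / 2 := by rw [hδ]; field_simp
  obtain ⟨X1, hX1⟩ := Metric.tendsto_atTop.1 (hlim s t hst) (ε / 2) (by positivity)
  obtain ⟨X2, hX2⟩ := Metric.tendsto_atTop.1 (hlim s (t + δ) (by linarith)) (ε / 2) (by positivity)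
  refine ⟨max 1 (max X1 X2), fun X hX => ?_⟩
  have y0 : 1 ≤ X := (le_max_left _ _).trans hX
  have y1 := hX1 X (((le_max_left _ _).trans (le_max_right _ _)).trans hX)
  have y2 := hX2 X (((le_max_right _ _).trans (le_max_right _ _)).trans hX)
  have hX0 : 0 < X := by linarith
  rw [Real.dist_eq, abs_lt] at y1 y2
  have c1 : (((EN 1 X).filter (fun e => (s ≤ tE e ∧ tE e < t) ∧ (nm e.1 * nm e.2).Coprime R)).card : ℝ) / X ≤
      (((EN 1 X).filter (fun e => (s ≤ tE e ∧ tE e ≤ t) ∧ (nm e.1 * nm e.2).Coprime R)).card : ℝ) / X := by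
    refine div_le_div_of_nonneg_right ?_ hX0.le
    refine Nat.cast_le.2 (Finset.card_le_card fun e he => ?_)
    obtain ⟨h0, h⟩ := Finset.mem_filter.1 he
    exact Finset.mem_filter.2 ⟨h0, ⟨h.1.1, h.1.2.le⟩, h.2⟩
  have c2 : (((EN 1 X).filter (fun e => (s ≤ tE e ∧ tE e ≤ t) ∧ (nm e.1 * nm e.2).Coprime R)).card : ℝ) / X ≤
      (((EN 1 X).filter (fun e => (s ≤ tE e ∧ tE e < t + δ) ∧ (nm e.1 * nm e.2).Coprime R)).card : ℝ) / X := by
    refine div_le_div_of_nonneg_right ?_ hX0.le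
    refine Nat.cast_le.2 (Finset.card_le_card fun e he => ?_)
    obtain ⟨h0, h⟩ := Finset.mem_filter.1 he
    exact Finset.mem_filter.2 ⟨h0, ⟨h.1.1, lt_of_le_of_lt h.1.2 (by linarith)⟩, h.2⟩
  rw [Real.dist_eq, abs_lt]
  have e1 : K * (t + δ - s) = K * (t - s) + ε / 2 := by
    rw [← hKδ]
    ring
  constructor <;> linarith [y1.1, y1.2, y2.1, y2.2]

end Pool.Agent.OmEq

end

/-! ### from `Lib_MP_f1a94e_ecc.StageId` -/

section

/-!
# the identity behind a stage (port to complex completely multiplicative functions)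
-/

set_option autoImplicit false

namespace Pool.Agent.GaussCM

open Pool.Agent.GaussMR

open Classical in
/-- the substitution `z' = w z` -/
theorem sub_sum (F : G → ℂ) (hF : CM F) {w : G} (hw : Spl w) (Y Y' : ℝ) (k : ℤ)
    (hYY : Y * nm w ≤ Y') :
    ∑ z ∈ (V Y).filter (fun z => ¬ star w ∣ z), (F w * xi (-k) w) * (F z * xi (-k) z) =
      ∑ z ∈ (V Y').filter (fun z => w ∣ z ∧ (nm z : ℝ) ≤ Y * nm w), F z * xi (-k) z := by
  have hw0 : w ≠ 0 := ne_zero_of_odd hw.odd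
  have hnw : (0 : ℝ) < nm w := by exact_mod_cast nm_pos hw0
  refine Finset.sum_bij (fun z _ => w * z) ?_ ?_ ?_ ?_
  · intro z hz
    rw [Finset.mem_filter, mem_V] at hz
    obtain ⟨⟨h1, h2, h3⟩, h4⟩ := hz
    have h5 : (nm (w * z) : ℝ) ≤ Y * nm w := by
      rw [nm_mul]
      push_cast
      nlinarith
    rw [Finset.mem_filter, mem_V]
    exact ⟨⟨h5.trans hYY, odd_nm_mul.mpr ⟨hw.odd, h2⟩, (prim_mul_iff hw h3).mpr h4⟩,
      dvd_mul_right _ _, h5⟩
  · intro z _ z' _ h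
    exact mul_left_cancel₀ hw0 h
  · intro z' hz'
    rw [Finset.mem_filter, mem_V] at hz'
    obtain ⟨⟨h1, h2, h3⟩, ⟨z, rfl⟩, h5⟩ := hz'
    have hz2 : Prim z := (prim_of_mul h3).2
    refine ⟨z, ?_, rfl⟩
    rw [Finset.mem_filter, mem_V]
    refine ⟨⟨?_, (odd_nm_mul.mp h2).2, hz2⟩, (prim_mul_iff hw hz2).mp h3⟩
    rw [nm_mul] at h5
    push_cast at h5
    have h6 : (nm w : ℝ) * nm z ≤ nm w * Y := by linarith
    exact le_of_mul_le_mul_left h6 hnw
  · intro z hz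
    rw [Finset.mem_filter, mem_V] at hz
    rw [hF.mul w z hw.odd hz.1.2.1, xi_mul]
    push_cast
    ring

/-- Every `w ∈ PP P Q` (`P ≥ 1`) lies in exactly one block `v < nv Q ρ`. Expand
`UZC = ∑_v ∑_{w ∈ blk v} ∑_{z ∈ V (X e^(-vρ))} F w F z xi_{-k}(w z)` and split the `z`: `star w ∣ z`
(`A2C`); else `w z` is odd primitive (`prim_mul_iff`) of norm `≤ X e^ρ`: norm `> X` (`A3C`), or `w z ∈ V X`.
For `w ∈ blk v` the map `z ↦ w z` is a bijection from `{z ∈ V (X e^(-vρ)) : ¬ star w ∣ z, nm (w z) ≤ X}` to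
`{z' ∈ V X : w ∣ z'}` because `nm z' ≤ X` and `nm w > e^(vρ)`. -/
theorem stage_id (F : G → ℂ) (hF : CM F) (P Q ρ X : ℝ) (k : ℤ) (hP : 1 ≤ P) (hPQ : P ≤ Q)
    (hρ : 0 < ρ) (hX : 1 ≤ X) :
    UZC F P Q ρ X k = ∑ z ∈ V X, F z * (om P Q z : ℂ) * xi (-k) z + A2C F P Q ρ X k +
      A3C F P Q ρ X k := by
  classical
  -- the double sum without the non primitive terms
  have h1 : UZC F P Q ρ X k = A2C F P Q ρ X k + ∑ v ∈ Finset.range (nv Q ρ), ∑ w ∈ blk P Q ρ v,
      ∑ z ∈ (V (X * Real.exp ρ)).filter (fun z => w ∣ z ∧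
        (nm z : ℝ) ≤ X * Real.exp (-(v * ρ)) * nm w), F z * xi (-k) z := by
    unfold UZC A2C
    rw [← Finset.sum_add_distrib]
    refine Finset.sum_congr rfl fun v _ => ?_
    unfold UC
    rw [Finset.sum_mul, ← Finset.sum_add_distrib]
    refine Finset.sum_congr rfl fun w hw => ?_
    have hs : Spl w := PP_spl (mem_blk.mp hw).1
    have hYY : X * Real.exp (-(v * ρ)) * nm w ≤ X * Real.exp ρ := by
      have h2 := (mem_blk.mp hw).2.2
      calc X * Real.exp (-(v * ρ)) * nm w ≤ X * Real.exp (-(v * ρ)) * Real.exp ((v + 1) * ρ) := by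
            gcongr
        _ = X * Real.exp ρ := by
            rw [mul_assoc, ← Real.exp_add]
            congr 2
            ring
    rw [← sub_sum F hF hs _ _ k hYY, fcC, ← Finset.sum_filter_add_sum_filter_not _
      (fun z => star w ∣ z), mul_add]
    congr 1
    rw [Finset.mul_sum]
  have h2 : ∑ v ∈ Finset.range (nv Q ρ), ∑ w ∈ blk P Q ρ v,
      ∑ z ∈ (V (X * Real.exp ρ)).filter (fun z => w ∣ z ∧
        (nm z : ℝ) ≤ X * Real.exp (-(v * ρ)) * nm w), F z * xi (-k) z =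
      ∑ z ∈ V (X * Real.exp ρ), F z * (mA P Q ρ X z : ℂ) * xi (-k) z := by
    have e1 : ∀ v : ℕ, ∑ w ∈ blk P Q ρ v,
        ∑ z ∈ (V (X * Real.exp ρ)).filter (fun z => w ∣ z ∧
          (nm z : ℝ) ≤ X * Real.exp (-(v * ρ)) * nm w), F z * xi (-k) z =
        ∑ z ∈ V (X * Real.exp ρ), (((blk P Q ρ v).filter (fun w => w ∣ z ∧
          (nm z : ℝ) ≤ X * Real.exp (-(v * ρ)) * nm w)).card : ℂ) * (F z * xi (-k) z) := by
      intro v
      simp only [Finset.sum_filter]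
      rw [Finset.sum_comm]
      refine Finset.sum_congr rfl fun z _ => ?_
      rw [← Finset.sum_filter, Finset.sum_const, nsmul_eq_mul]
    simp only [e1]
    rw [Finset.sum_comm]
    refine Finset.sum_congr rfl fun z _ => ?_
    rw [← Finset.sum_mul, mA]
    push_cast
    ring
  have hsub : V X ⊆ V (X * Real.exp ρ) := by
    intro z hz
    rw [mem_V] at hz ⊢
    refine ⟨hz.1.trans ?_, hz.2⟩
    have : 1 ≤ Real.exp ρ := Real.one_le_exp hρ.le
    nlinarith
  have h3 : ∑ z ∈ V X, F z * (om P Q z : ℂ) * xi (-k) z =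
      ∑ z ∈ V X, F z * (mA P Q ρ X z : ℂ) * xi (-k) z := by
    refine Finset.sum_congr rfl fun z hz => ?_
    have e2 := mA_eq_om P Q ρ X hP hρ (by linarith) z (mem_V.mp hz).1
    rw [← e2]
    push_cast
    ring
  rw [h1, h2, ← Finset.sum_sdiff hsub, h3, A3C]
  ring

end Pool.Agent.GaussCM

end

/-! ### from `Lib_MP_f1a94e_ecm.RangeB` -/

section

/-!
# Piece M-RANGE2: the deficit of a block
-/

set_option autoImplicit false

namespace Pool.Agent.ECM

open Finset Pool.Agent.GaussMR Pool.Agent.GaussCM Pool.Agent.OmAll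

/-- the prime polynomial of a block with both primes above `p`, divided by twice the number of elements -/
noncomputable def tb (F : G → ℂ) (P Q ρ : ℝ) (v : ℕ) (k : ℤ) : ℝ :=
  ‖∑ w ∈ blk P Q ρ v, (F w * xi (-k) w + F (star w) * xi (-k) (star w))‖ / (2 * (blk P Q ρ v).card)

private theorem rangeB_abs (s : Finset G) (hs : s.Nonempty) (f g : G → ℂ) (hf : ∀ w ∈ s, ‖f w‖ = 1) (hg : ∀ w ∈ s, ‖g w‖ = 1) :
    ∑ w ∈ s, (1 - (f w * (starRingEnd ℂ) (g w)).re) ≤ 2 * (s.card : ℝ) * (1 - (‖∑ w ∈ s, (f w + g w)‖ / (2 * s.card)) ^ 2) ∧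
    0 ≤ 1 - (‖∑ w ∈ s, (f w + g w)‖ / (2 * s.card)) ^ 2 := by
  have hn : (0 : ℝ) < s.card := by exact_mod_cast hs.card_pos
  have h1 : ‖∑ w ∈ s, (f w + g w)‖ ^ 2 ≤ (s.card : ℝ) * ∑ w ∈ s, ‖f w + g w‖ ^ 2 := by
    calc ‖∑ w ∈ s, (f w + g w)‖ ^ 2 ≤ (∑ w ∈ s, ‖f w + g w‖) ^ 2 := by
          gcongr
          exact norm_sum_le _ _
      _ ≤ (s.card : ℝ) * ∑ w ∈ s, ‖f w + g w‖ ^ 2 := sq_sum_le_card_mul_sum_sq
  have h2 : ∀ w ∈ s, ‖f w + g w‖ ^ 2 = 2 + 2 * (f w * (starRingEnd ℂ) (g w)).re := by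
    intro w hw
    have e1 : ‖f w‖ ^ 2 = 1 := by rw [hf w hw]; norm_num
    have e2 : ‖g w‖ ^ 2 = 1 := by rw [hg w hw]; norm_num
    rw [← Complex.normSq_eq_norm_sq] at e1 e2 ⊢
    rw [Complex.normSq_add, e1, e2]
    ring
  have h1' : ∑ w ∈ s, ‖f w + g w‖ ^ 2 = 2 * (s.card : ℝ) + 2 * ∑ w ∈ s, (f w * (starRingEnd ℂ) (g w)).re := by
    rw [Finset.sum_congr rfl h2, Finset.sum_add_distrib, ← Finset.mul_sum, Finset.sum_const, nsmul_eq_mul]
    ring
  rw [h1'] at h1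
  rw [Finset.sum_sub_distrib, Finset.sum_const, nsmul_eq_mul, mul_one]
  set R := ∑ w ∈ s, (f w * (starRingEnd ℂ) (g w)).re with hR
  set S := ‖∑ w ∈ s, (f w + g w)‖ with hS
  set n : ℝ := (s.card : ℝ) with hn'
  have h3 : S ≤ 2 * n := by
    calc S ≤ ∑ w ∈ s, ‖f w + g w‖ := norm_sum_le _ _
      _ ≤ ∑ w ∈ s, (2 : ℝ) := by
          refine Finset.sum_le_sum fun w hw => ?_
          calc ‖f w + g w‖ ≤ ‖f w‖ + ‖g w‖ := norm_add_le _ _
            _ = 2 := by rw [hf w hw, hg w hw]; norm_num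
      _ = 2 * n := by rw [Finset.sum_const, nsmul_eq_mul]; ring
  have hS0 : 0 ≤ S := norm_nonneg _
  constructor
  · have h4 : (S / (2 * n)) ^ 2 = S ^ 2 / (4 * n ^ 2) := by
      rw [div_pow]; ring
    rw [h4]
    have h5 : 2 * n * (1 - S ^ 2 / (4 * n ^ 2)) = 2 * n - S ^ 2 / (2 * n) := by
      field_simp
      ring
    rw [h5]
    have h6 : S ^ 2 / (2 * n) ≤ n + R := by
      rw [div_le_iff₀ (by positivity)]
      nlinarith
    linarith
  · have h4 : S / (2 * n) ≤ 1 := by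
      rw [div_le_one (by positivity)]
      exact h3
    have h5 : 0 ≤ S / (2 * n) := by positivity
    nlinarith

private theorem rangeB_star {w : G} (h : Spl w) : Spl (star w) := by
  unfold Spl at h ⊢
  rw [nm_star]
  exact h

/-- One block. `F = FL χ`, `f = F xi_(-k)`, `F ii * xi (-k) ii = 1`, all `w ∈ blk` have `|f w| = 1` (norm larger than `D`). `f (star w) = f (fl w)` (`fl w = ii * star w`). Let `n = card`, `μ` = mean of the `2 n` numbers `f w`, `f (fl w)`, `|μ| = tb`. Then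
`∑_w (|f w - μ|² + |f (fl w) - μ|²) = 2 n (1 - tb²)` and `|f w - f (fl w)|² ≤ 2 |f w - μ|² + 2 |f (fl w) - μ|²`, so `∑_w |f w - f (fl w)|² ≤ 4 n (1 - tb²)`. And `|f w - f (fl w)|² = 2 (1 - Re (f w conj (f (fl w))))`,
`f w * conj (f (fl w)) = f w * conj (f (star w)) = χ w conj (χ (star w)) xi (-2k) w = χ' w * xi (-2k) w`, `χ' z = χ z * conj (χ (star z))` (the signs `(-1)^Ω` cancel, `xi (-k) (star w) = conj (xi (-k) w)`). With `1 / nm w ≤ exp (-v ρ)` and `n ≤ exp ((v+1) ρ) ∑_w 1 / nm w`: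
`∑_w (1 - Re (χ' w xi (-2k) w)) / nm w ≤ exp (-v ρ) * 2 n (1 - tb²) ≤ 2 exp ρ (∑_w 1 / nm w) (1 - tb²)`. -/
theorem block_deficit (D : ℕ) (hD : 0 < D) (χ : G → ℂ) (hχ : Chi D χ) (k : ℤ) (hk : FL χ ii * xi (-k) ii = 1) (P Q ρ : ℝ) (hρ : 0 < ρ) (hP : (D : ℝ) ^ 2 ≤ P) (v : ℕ) :
    ∑ w ∈ blk P Q ρ v, (1 - (χ w * (starRingEnd ℂ) (χ (star w)) * xi (-(2 * k)) w).re) / (nm w : ℝ) ≤
      2 * Real.exp ρ * ((∑ w ∈ blk P Q ρ v, 1 / (nm w : ℝ)) * (1 - tb (FL χ) P Q ρ v k ^ 2)) := by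
  rcases (blk P Q ρ v).eq_empty_or_nonempty with hE | hne
  · rw [hE]; simp
  set s := blk P Q ρ v with hs
  set f : G → ℂ := fun w => FL χ w * xi (-k) w with hf
  set g : G → ℂ := fun w => FL χ (star w) * xi (-k) (star w) with hg
  have hmem : ∀ w ∈ s, Spl w ∧ (D : ℝ) ^ 2 < nm w ∧ Real.exp (v * ρ) < (nm w : ℝ) ∧ (nm w : ℝ) ≤ Real.exp ((v + 1) * ρ) := by
    intro w hw
    have h1 := mem_blk.mp hw
    exact ⟨PP_spl h1.1, hP.trans_lt (mem_PP.mp h1.1).1, h1.2.1, h1.2.2⟩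
  have hFLn : ∀ w : G, Prime w → (D : ℝ) ^ 2 < nm w → ‖FL χ w‖ = 1 := by
    intro w hw hd
    simp only [FL]
    rw [norm_mul, norm_pow, norm_neg, norm_one, one_pow, one_mul]
    exact (chi_norm D hD χ hχ w hw hd).2
  have hf1 : ∀ w ∈ s, ‖f w‖ = 1 := by
    intro w hw
    obtain ⟨h1, h2, -, -⟩ := hmem w hw
    simp only [hf]
    rw [norm_mul, hFLn w h1.prime h2, norm_xi _ h1.prime.ne_zero, one_mul]
  have hg1 : ∀ w ∈ s, ‖g w‖ = 1 := by
    intro w hw
    obtain ⟨h1, h2, -, -⟩ := hmem w hw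
    have h3 : Prime (star w) := (rangeB_star h1).prime
    simp only [hg]
    rw [norm_mul, hFLn (star w) h3 (by rw [nm_star]; exact h2), norm_xi _ h3.ne_zero, one_mul]
  obtain ⟨hA, hB⟩ := rangeB_abs s hne f g hf1 hg1
  have htb : tb (FL χ) P Q ρ v k = ‖∑ w ∈ s, (f w + g w)‖ / (2 * s.card) := rfl
  rw [← htb] at hA hB
  have hfg : ∀ w ∈ s, f w * (starRingEnd ℂ) (g w) = χ w * (starRingEnd ℂ) (χ (star w)) * xi (-(2 * k)) w := by
    intro w hw
    have h0 : w ≠ 0 := (hmem w hw).1.prime.ne_zero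
    simp only [hf, hg, FL]
    rw [nm_star, map_mul, map_mul, map_pow, map_neg, map_one, xi_star _ h0, neg_neg, conj_xi _ h0]
    have e1 : xi (-(2 * k)) w = xi (-k) w * xi (-k) w := by
      rw [← xi_add _ _ h0]
      congr 1
      ring
    rw [e1]
    have e2 : ((-1 : ℂ) ^ ArithmeticFunction.cardFactors (nm w)) * ((-1 : ℂ) ^ ArithmeticFunction.cardFactors (nm w)) = 1 := by
      rw [← mul_pow]; norm_num
    linear_combination (χ w * (starRingEnd ℂ) (χ (star w)) * (xi (-k) w * xi (-k) w)) * e2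
  have hterm : ∀ w ∈ s, (1 - (χ w * (starRingEnd ℂ) (χ (star w)) * xi (-(2 * k)) w).re) / (nm w : ℝ) ≤
      Real.exp (-(v * ρ)) * (1 - (f w * (starRingEnd ℂ) (g w)).re) := by
    intro w hw
    rw [hfg w hw]
    obtain ⟨-, -, h3, -⟩ := hmem w hw
    have h4 : 0 ≤ 1 - (χ w * (starRingEnd ℂ) (χ (star w)) * xi (-(2 * k)) w).re := by
      rw [← hfg w hw]
      have h5 : (f w * (starRingEnd ℂ) (g w)).re ≤ ‖f w * (starRingEnd ℂ) (g w)‖ := Complex.re_le_norm _
      rw [norm_mul, RCLike.norm_conj, hf1 w hw, hg1 w hw] at h5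
      linarith
    have h5 : (0 : ℝ) < nm w := (Real.exp_pos _).trans h3
    have h6 : 1 / (nm w : ℝ) ≤ Real.exp (-(v * ρ)) := by
      rw [Real.exp_neg, one_div]
      exact inv_anti₀ (Real.exp_pos _) h3.le
    calc (1 - (χ w * (starRingEnd ℂ) (χ (star w)) * xi (-(2 * k)) w).re) / (nm w : ℝ)
        = (1 / (nm w : ℝ)) * (1 - (χ w * (starRingEnd ℂ) (χ (star w)) * xi (-(2 * k)) w).re) := by ring
      _ ≤ _ := mul_le_mul_of_nonneg_right h6 h4
  have hcard : (s.card : ℝ) ≤ Real.exp ((v + 1) * ρ) * ∑ w ∈ s, 1 / (nm w : ℝ) := by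
    rw [Finset.mul_sum]
    calc (s.card : ℝ) = ∑ w ∈ s, (1 : ℝ) := by simp
      _ ≤ ∑ w ∈ s, Real.exp ((v + 1) * ρ) * (1 / (nm w : ℝ)) := by
          refine Finset.sum_le_sum fun w hw => ?_
          obtain ⟨-, -, h3, h4⟩ := hmem w hw
          have h5 : (0 : ℝ) < nm w := (Real.exp_pos _).trans h3
          rw [mul_one_div, le_div_iff₀ h5, one_mul]
          exact h4
  calc ∑ w ∈ s, (1 - (χ w * (starRingEnd ℂ) (χ (star w)) * xi (-(2 * k)) w).re) / (nm w : ℝ)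
      ≤ ∑ w ∈ s, Real.exp (-(v * ρ)) * (1 - (f w * (starRingEnd ℂ) (g w)).re) := Finset.sum_le_sum hterm
    _ = Real.exp (-(v * ρ)) * ∑ w ∈ s, (1 - (f w * (starRingEnd ℂ) (g w)).re) := by rw [Finset.mul_sum]
    _ ≤ Real.exp (-(v * ρ)) * (2 * (s.card : ℝ) * (1 - tb (FL χ) P Q ρ v k ^ 2)) :=
        mul_le_mul_of_nonneg_left hA (Real.exp_pos _).le
    _ ≤ Real.exp (-(v * ρ)) * (2 * (Real.exp ((v + 1) * ρ) * ∑ w ∈ s, 1 / (nm w : ℝ)) * (1 - tb (FL χ) P Q ρ v k ^ 2)) := by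
        gcongr
    _ = _ := by
        have e1 : Real.exp ρ = Real.exp (-(v * ρ)) * Real.exp ((v + 1) * ρ) := by
          rw [← Real.exp_add]
          congr 1
          ring
        rw [e1]
        ring

end Pool.Agent.ECM

end

/-! ### from `Lib_MP_f1a94e_ecm.StageIdC` -/

section

/-!
# Stage identity for complex functions (from Lib_MP_f1a94e_ecc)
-/

set_option autoImplicit false

namespace Pool.Agent.ECM

open Finset Pool.Agent.GaussMR Pool.Agent.GaussCM Pool.Agent.OmAll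

/-- Complex version of `stage_id` (Lib_MP_f1a94e_mr/StageId.lean): helper30, Lib_MP_f1a94e_ecc. -/
theorem stage_idC (F : G → ℂ) (hF : CM F) (P Q ρ X : ℝ) (k : ℤ) (hP : 1 ≤ P) (hPQ : P ≤ Q)
    (hρ : 0 < ρ) (hX : 1 ≤ X) :
    UZC F P Q ρ X k = ∑ z ∈ V X, F z * (om P Q z : ℂ) * xi (-k) z + A2C F P Q ρ X k + A3C F P Q ρ X k :=
  GaussCM.stage_id F hF P Q ρ X k hP hPQ hρ hX

end Pool.Agent.ECM

end

/-! ### from `Lib_MP_f1a94e_mr.ConjUpper` -/

section

/-!
# Piece CONJUPPER: the conjugation trick, upper bound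
-/

set_option autoImplicit false

namespace Pool.Agent.GaussMR

theorem mem_AA {a X : ℝ} {u : G} : u ∈ AA a X ↔ u ∈ V (X ^ (13 / 25 : ℝ)) ∧
    X ^ (12 / 25 : ℝ) < (nm u : ℝ) ∧ ∀ p : G, Prime p → p ∣ u → X ^ a ≤ (nm p : ℝ) := by
  classical
  simp [AA]

theorem mul_star_eq_nm (z : G) : z * star z = ((nm z : ℕ) : G) := by
  have h := nm_eq z
  apply Zsqrtd.ext
  · simp
    have h2 : ((nm z : ℕ) : ℤ) = z.re ^ 2 + z.im ^ 2 := h
    rw [h2]; ring
  · simp; ring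

theorem prime_of_nm_prime {g : G} (h : (nm g).Prime) : Prime g := by
  rw [← irreducible_iff_prime]
  refine ⟨fun hu => h.one_lt.ne' (nm_eq_one_iff.2 hu), fun b c hbc => ?_⟩
  have h1 : nm b * nm c = nm g := by rw [hbc, nm_mul]
  rcases (Nat.prime_mul_iff.1 (h1 ▸ h)) with ⟨_, h3⟩ | ⟨_, h3⟩
  · exact Or.inr (nm_eq_one_iff.1 h3)
  · exact Or.inl (nm_eq_one_iff.1 h3)

theorem star_dvd_star_iff {u v : G} : star u ∣ star v ↔ u ∣ v := by
  constructor
  · rintro ⟨c, hc⟩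
    refine ⟨star c, ?_⟩
    have := congrArg star hc
    rwa [star_star, star_mul', star_star] at this
  · rintro ⟨c, rfl⟩
    exact ⟨star c, star_mul' _ _⟩

theorem prime_star {p : G} (h : Prime p) : Prime (star p) := by
  refine ⟨fun h0 => h.ne_zero ?_, fun h0 => h.not_isUnit ?_, fun b c hbc => ?_⟩
  · have := congrArg star h0
    simpa using this
  · rw [← nm_eq_one_iff] at h0 ⊢
    rwa [nm_star] at h0
  · have h1 : p ∣ star b * star c := by
      rw [← star_dvd_star_iff, star_mul', star_star, star_star]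
      exact hbc
    rcases h.dvd_or_dvd h1 with h2 | h2
    · left
      rw [← star_dvd_star_iff, star_star]
      exact h2
    · right
      rw [← star_dvd_star_iff, star_star]
      exact h2

theorem AA_star {a X : ℝ} {u : G} (h : u ∈ AA a X) : star u ∈ AA a X := by
  rw [mem_AA] at h ⊢
  refine ⟨mem_V_star.2 h.1, by rw [nm_star]; exact h.2.1, fun p hp hpu => ?_⟩
  have h1 : star p ∣ u := by
    rw [← star_dvd_star_iff, star_star]
    exact hpu
  have := h.2.2 (star p) (prime_star hp) h1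
  rwa [nm_star] at this

/-- if `u`, `z` are primitive and `u z` is not, then some prime `g` of prime norm divides `z` while
its conjugate divides `u` -/
theorem exists_of_not_prim {u z : G} (hu : Prim u) (hz : Prim z)
    (h : ¬ Prim (u * z)) : ∃ g : G, (nm g).Prime ∧ g ∣ z ∧ star g ∣ u := by
  rw [prim_iff] at h
  push Not at h
  obtain ⟨n, hn, hn1⟩ := h
  obtain ⟨q, hq, hqn⟩ := Nat.exists_prime_and_dvd hn1
  have hquz : ((q : ℕ) : G) ∣ u * z := dvd_trans (by exact_mod_cast (Nat.cast_dvd_cast hqn)) hn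
  have hq0 : ((q : ℕ) : G) ≠ 0 := by exact_mod_cast hq.ne_zero
  set g : G := EuclideanDomain.gcd z (q : G) with hg
  obtain ⟨z', hz'⟩ : g ∣ z := EuclideanDomain.gcd_dvd_left _ _
  obtain ⟨k, hk⟩ : g ∣ (q : G) := EuclideanDomain.gcd_dvd_right _ _
  have hg0 : g ≠ 0 := by
    intro hh
    rw [hh, zero_mul] at hk
    exact hq0 hk
  have hcop : IsCoprime k z' := by
    have h1 : g = z * EuclideanDomain.gcdA z q + q * EuclideanDomain.gcdB z q :=
      EuclideanDomain.gcd_eq_gcd_ab z q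
    refine ⟨EuclideanDomain.gcdB z q, EuclideanDomain.gcdA z q, ?_⟩
    have h2 : g * (EuclideanDomain.gcdB z q * k + EuclideanDomain.gcdA z q * z') = g * 1 := by
      calc g * (EuclideanDomain.gcdB z q * k + EuclideanDomain.gcdA z q * z')
          = (g * z') * EuclideanDomain.gcdA z q + (g * k) * EuclideanDomain.gcdB z q := by ring
        _ = z * EuclideanDomain.gcdA z q + q * EuclideanDomain.gcdB z q := by rw [← hz', ← hk]
        _ = g * 1 := by rw [mul_one]; exact h1.symm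
    exact mul_left_cancel₀ hg0 h2
  have hku : k ∣ u := by
    apply hcop.dvd_of_dvd_mul_right
    have h1 : g * k ∣ g * (u * z') := by
      rw [← hk]
      have : g * (u * z') = u * z := by rw [hz']; ring
      rw [this]
      exact hquz
    exact (mul_dvd_mul_iff_left hg0).1 h1
  have hnq : nm ((q : ℕ) : G) = q ^ 2 := by
    have : (nm ((q : ℕ) : G) : ℤ) = (q : ℤ) ^ 2 := by
      rw [nm_eq]
      simp
    exact_mod_cast this
  have hnn : nm g * nm k = q ^ 2 := by rw [← nm_mul, ← hk, hnq]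
  have hgu : nm g ≠ 1 := by
    intro h1
    have hgunit := nm_eq_one_iff.1 h1
    have h2 : (q : G) ∣ u := by
      rw [hk]
      exact (IsUnit.mul_left_dvd hgunit).2 hku
    exact hq.one_lt.ne' (prim_iff.1 hu q h2)
  have hkuu : nm k ≠ 1 := by
    intro h1
    have hkunit := nm_eq_one_iff.1 h1
    have h2 : (q : G) ∣ z := by
      rw [hk]
      exact (IsUnit.mul_right_dvd hkunit).2 ⟨z', hz'⟩
    exact hq.one_lt.ne' (prim_iff.1 hz q h2)
  have hgq : nm g = q := by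
    have h1 : nm g ∣ q ^ 2 := ⟨_, hnn.symm⟩
    rcases (Nat.dvd_prime_pow hq).1 h1 with ⟨i, hi, hgi⟩
    interval_cases i
    · exact absurd (by simpa using hgi) hgu
    · simpa using hgi
    · exfalso
      apply hkuu
      rw [hgi] at hnn
      have : 0 < q ^ 2 := pow_pos hq.pos 2
      exact Nat.eq_of_mul_eq_mul_left this (by rw [hnn, mul_one])
  have hks : k = star g := by
    apply mul_left_cancel₀ hg0
    rw [← hk, mul_star_eq_nm, hgq]
  exact ⟨g, hgq ▸ hq, ⟨z', hz'⟩, hks ▸ hku⟩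

/-- number of nonzero elements of a disc divisible by an element of norm `q` -/
theorem card_dvd_le (q : ℕ) (hq : q.Prime) (Y : ℝ) (hY : 0 ≤ Y) :
    (Set.ncard {z : G | z ∈ V Y ∧ ∃ g : G, nm g = q ∧ g ∣ z} : ℝ) ≤ 18 * (Y / q) := by
  classical
  have hq0 : (0 : ℝ) < q := by exact_mod_cast hq.pos
  by_cases hex : ∃ p : G, nm p = q
  · obtain ⟨p, hp⟩ := hex
    have hp0 : p ≠ 0 := by
      rintro rfl
      rw [nm_zero] at hp
      exact hq.ne_zero hp.symm
    set D : Finset G := (ball (Y / q)).filter (fun z => z ≠ 0) with hD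
    have hDc : (D.card : ℝ) ≤ 9 * (Y / q) := by
      have := card_ball_le (Y / q) (by positivity)
      simpa [hD] using this
    have hsub : {z : G | z ∈ V Y ∧ ∃ g : G, nm g = q ∧ g ∣ z} ⊆
        ((D.image (fun z => p * z) ∪ D.image (fun z => star p * z) : Finset G) : Set G) := by
      rintro z ⟨hzV, g, hg, hgz⟩
      have hgp : Prime g := prime_of_nm_prime (hg ▸ hq)
      have h1 : g ∣ p * star p := by
        rw [mul_star_eq_nm, hp, ← hg, ← mul_star_eq_nm]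
        exact dvd_mul_right _ _
      have key : ∀ r : G, nm r = q → g ∣ r → r ∣ z := by
        rintro r hr ⟨c, hc⟩
        have h2 : nm g * nm c = q := by rw [← nm_mul, ← hc, hr]
        have h3 : nm c = 1 := by
          rw [hg] at h2
          exact Nat.eq_of_mul_eq_mul_left hq.pos (by rw [h2, mul_one])
        have h4 : IsUnit c := nm_eq_one_iff.1 h3
        rw [hc]
        exact (IsUnit.mul_right_dvd h4).2 hgz
      have key2 : ∀ r : G, nm r = q → r ∣ z → z ∈ D.image (fun z => r * z) := by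
        rintro r hr ⟨c, hc⟩
        rw [Finset.mem_image]
        refine ⟨c, ?_, hc.symm⟩
        rw [hD, Finset.mem_filter, mem_ball]
        have hz0 := V_ne_zero hzV
        refine ⟨?_, ?_⟩
        · rw [le_div_iff₀ hq0]
          have h5 : (nm z : ℝ) ≤ Y := (mem_V.1 hzV).1
          rw [hc, nm_mul, hr] at h5
          push_cast at h5
          linarith
        · rintro rfl
          apply hz0
          rw [hc, mul_zero]
      rcases hgp.dvd_or_dvd h1 with h2 | h2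
      · have := key2 p hp (key p hp h2)
        exact Finset.mem_coe.2 (Finset.mem_union_left _ this)
      · have hps : nm (star p) = q := by rw [nm_star, hp]
        have := key2 (star p) hps (key (star p) hps h2)
        exact Finset.mem_coe.2 (Finset.mem_union_right _ this)
    have h6 := Set.ncard_le_ncard hsub (Finset.finite_toSet _)
    rw [Set.ncard_coe_finset] at h6
    have h7 : (D.image (fun z => p * z) ∪ D.image (fun z => star p * z)).card ≤ D.card + D.card :=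
      (Finset.card_union_le _ _).trans (Nat.add_le_add Finset.card_image_le Finset.card_image_le)
    have h8 : (Set.ncard {z : G | z ∈ V Y ∧ ∃ g : G, nm g = q ∧ g ∣ z} : ℝ) ≤ D.card + D.card := by
      exact_mod_cast h6.trans h7
    linarith
  · have h1 : {z : G | z ∈ V Y ∧ ∃ g : G, nm g = q ∧ g ∣ z} = ∅ := by
      ext z
      simp only [Set.mem_ofPred_eq, Set.mem_empty_iff_false, iff_false, not_and]
      rintro _ ⟨g, hg, _⟩
      exact hex ⟨g, hg⟩
    rw [h1, Set.ncard_empty]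
    push_cast
    positivity

/-- a number `m ≤ X` has at most `1 / a` prime factors `≥ X ^ a` -/
theorem card_big_primes (a X : ℝ) (ha : 0 < a) (hX : 2 ≤ X) (m : ℕ) (hm : 0 < m) (hmX : (m : ℝ) ≤ X) :
    ((m.primeFactors.filter (fun q : ℕ => X ^ a ≤ (q : ℝ))).card : ℝ) ≤ 1 / a := by
  set Q := m.primeFactors.filter (fun q : ℕ => X ^ a ≤ (q : ℝ)) with hQ
  have h1 : (X ^ a) ^ Q.card ≤ ∏ q ∈ Q, (q : ℝ) := by
    rw [← Finset.prod_const]
    refine Finset.prod_le_prod (fun i _ => by positivity) fun q hq => ?_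
    rw [hQ, Finset.mem_filter] at hq
    exact hq.2
  have h2 : ∏ q ∈ Q, q ∣ m := by
    refine (Finset.prod_dvd_prod_of_subset _ _ _ (Finset.filter_subset _ _)).trans ?_
    exact Nat.prod_primeFactors_dvd m
  have h3 : ∏ q ∈ Q, (q : ℝ) ≤ X := by
    have : ∏ q ∈ Q, q ≤ m := Nat.le_of_dvd hm h2
    have h4 : ((∏ q ∈ Q, q : ℕ) : ℝ) ≤ m := by exact_mod_cast this
    push_cast at h4
    exact h4.trans hmX
  have h4 : X ^ (a * Q.card) ≤ X ^ (1 : ℝ) := by
    rw [Real.rpow_mul (by linarith), Real.rpow_natCast, Real.rpow_one]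
    exact h1.trans h3
  have h5 : a * Q.card ≤ 1 := (Real.rpow_le_rpow_left_iff (by linarith)).1 h4
  rw [le_div_iff₀ ha]
  linarith

theorem norm_Fb_sq_le (S : Finset ℤ) (d : ℤ → ℂ) {z : G} (hz : z ≠ 0) :
    ‖Fb S d z‖ ^ 2 ≤ S.card * ∑ k ∈ S, ‖d k‖ ^ 2 := by
  have h1 : ‖Fb S d z‖ ≤ ∑ k ∈ S, ‖d k‖ := by
    unfold Fb
    refine (norm_sum_le _ _).trans (Finset.sum_le_sum fun k _ => ?_)
    rw [norm_mul, norm_xi k hz, mul_one]
  calc ‖Fb S d z‖ ^ 2 ≤ (∑ k ∈ S, ‖d k‖) ^ 2 := pow_le_pow_left₀ (norm_nonneg _) h1 2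
    _ ≤ S.card * ∑ k ∈ S, ‖d k‖ ^ 2 := sq_sum_le_card_mul_sum_sq

theorem norm_sub_sq_le' (x y : ℂ) : ‖x - y‖ ^ 2 ≤ 2 * ‖x‖ ^ 2 + 2 * ‖y‖ ^ 2 := by
  have h1 := norm_sub_le x y
  have h2 : ‖x - y‖ ^ 2 ≤ (‖x‖ + ‖y‖) ^ 2 := pow_le_pow_left₀ (norm_nonneg _) h1 2
  nlinarith [sq_nonneg (‖x‖ - ‖y‖)]

/-- the number of bad `z` for a given `u` -/
theorem card_bad_le (a X : ℝ) (ha : 0 < a) (hX : 2 ≤ X) (u : G) (hu : u ∈ AA a X) :
    (Set.ncard {z : G | z ∈ V (X / nm u) ∧ ¬ (Prim (u * z) ∧ Prim (star u * z))} : ℝ) ≤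
      18 / a * (X ^ (1 - a) * (1 / (nm u : ℝ))) := by
  classical
  rw [mem_AA] at hu
  obtain ⟨huV, _, hup⟩ := hu
  have hu0 : u ≠ 0 := V_ne_zero huV
  have hXpos : (0 : ℝ) < X := by linarith
  have hnu : (0 : ℝ) < nm u := by exact_mod_cast nm_pos hu0
  have hnuX : (nm u : ℝ) ≤ X := by
    refine ((mem_V.1 huV).1).trans ?_
    calc X ^ (13 / 25 : ℝ) ≤ X ^ (1 : ℝ) :=
          Real.rpow_le_rpow_of_exponent_le (by linarith) (by norm_num)
      _ = X := Real.rpow_one X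
  set Q := (nm u).primeFactors.filter (fun q : ℕ => X ^ a ≤ (q : ℝ)) with hQ
  have hQc := card_big_primes a X ha hX (nm u) (nm_pos hu0) hnuX
  rw [← hQ] at hQc
  have hY : 0 ≤ X / nm u := by positivity
  -- the bad set is contained in a union
  let A : ℕ → Finset G := fun q => (V (X / nm u)).filter (fun z => ∃ g : G, nm g = q ∧ g ∣ z)
  have hsub : {z : G | z ∈ V (X / nm u) ∧ ¬ (Prim (u * z) ∧ Prim (star u * z))} ⊆
      ((Q.biUnion A : Finset G) : Set G) := by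
    rintro z ⟨hzV, hbad⟩
    have hz0 : z ≠ 0 := V_ne_zero hzV
    have huP : Prim u := (mem_V.1 huV).2.2
    have hzP : Prim z := (mem_V.1 hzV).2.2
    have key : ∃ g : G, (nm g).Prime ∧ g ∣ z ∧ (star g ∣ u ∨ g ∣ u) := by
      rcases not_and_or.1 hbad with h1 | h1
      · obtain ⟨g, hg1, hg2, hg3⟩ := exists_of_not_prim huP hzP h1
        exact ⟨g, hg1, hg2, Or.inl hg3⟩
      · obtain ⟨g, hg1, hg2, hg3⟩ := exists_of_not_prim (prim_star.2 huP) hzP h1
        exact ⟨g, hg1, hg2, Or.inr (star_dvd_star_iff.1 hg3)⟩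
    obtain ⟨g, hg1, hg2, hg3⟩ := key
    have hgQ : nm g ∈ Q := by
      rw [hQ, Finset.mem_filter, Nat.mem_primeFactors]
      refine ⟨⟨hg1, ?_, (nm_pos hu0).ne'⟩, ?_⟩
      · rcases hg3 with h | h
        · have := nm_dvd h
          rwa [nm_star] at this
        · exact nm_dvd h
      · rcases hg3 with h | h
        · have := hup (star g) (prime_star (prime_of_nm_prime hg1)) h
          rwa [nm_star] at this
        · exact hup g (prime_of_nm_prime hg1) h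
    rw [Finset.mem_coe, Finset.mem_biUnion]
    exact ⟨nm g, hgQ, Finset.mem_filter.2 ⟨hzV, g, rfl, hg2⟩⟩
  have h6 := Set.ncard_le_ncard hsub (Finset.finite_toSet _)
  rw [Set.ncard_coe_finset] at h6
  have h7 : ((Q.biUnion A).card : ℝ) ≤ ∑ q ∈ Q, ((A q).card : ℝ) := by
    have := Finset.card_biUnion_le (s := Q) (t := A)
    exact_mod_cast this
  have h8 : ∀ q ∈ Q, ((A q).card : ℝ) ≤ 18 * (X ^ (1 - a) * (1 / (nm u : ℝ))) := by
    intro q hq
    rw [hQ, Finset.mem_filter, Nat.mem_primeFactors] at hq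
    have h9 := card_dvd_le q hq.1.1 (X / nm u) hY
    have h10 : {z : G | z ∈ V (X / nm u) ∧ ∃ g : G, nm g = q ∧ g ∣ z} = ((A q : Finset G) : Set G) := by
      ext z
      simp [A]
    rw [h10, Set.ncard_coe_finset] at h9
    refine h9.trans (mul_le_mul_of_nonneg_left ?_ (by norm_num))
    have hXa : 0 < X ^ a := by positivity
    have h11 : X / nm u / q ≤ X / nm u / X ^ a := div_le_div_of_nonneg_left hY hXa hq.2
    refine h11.trans (le_of_eq ?_)
    rw [Real.rpow_sub hXpos, Real.rpow_one]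
    field_simp
  have h12 : ∑ q ∈ Q, ((A q).card : ℝ) ≤ Q.card * (18 * (X ^ (1 - a) * (1 / (nm u : ℝ)))) := by
    rw [← nsmul_eq_mul]
    exact Finset.sum_le_card_nsmul _ _ _ h8
  have h13 : 0 ≤ 18 * (X ^ (1 - a) * (1 / (nm u : ℝ))) := by positivity
  calc (Set.ncard {z : G | z ∈ V (X / nm u) ∧ ¬ (Prim (u * z) ∧ Prim (star u * z))} : ℝ)
      ≤ (Q.biUnion A).card := by exact_mod_cast h6
    _ ≤ Q.card * (18 * (X ^ (1 - a) * (1 / (nm u : ℝ)))) := h7.trans h12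
    _ ≤ 1 / a * (18 * (X ^ (1 - a) * (1 / (nm u : ℝ)))) := mul_le_mul_of_nonneg_right hQc h13
    _ = 18 / a * (X ^ (1 - a) * (1 / (nm u : ℝ))) := by ring

/-- the sum over the good pairs -/
theorem good_sum_le (a X C1 : ℝ) (φ : G → G) (hφ : ∀ u ∈ AA a X, φ u ∈ AA a X)
    (hinj : Function.Injective φ)
    (hC : ∀ z : G, z ≠ 0 → (nm z : ℝ) ≤ X → (Set.ncard {u : G | u ∈ AA a X ∧ u ∣ z} : ℝ) ≤ C1)
    (hnφ : ∀ u, nm (φ u) = nm u) (h : G → ℝ) (hh : ∀ z, 0 ≤ h z)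
    (good : G → Finset G) (hgood : ∀ u ∈ AA a X, ∀ z ∈ good u, z ∈ V (X / nm u) ∧ Prim (φ u * z)) :
    ∑ u ∈ AA a X, ∑ z ∈ good u, h (φ u * z) ≤ C1 * ∑ z ∈ V X, h z := by
  classical
  have h1 : ∀ u ∈ AA a X, ∑ z ∈ good u, h (φ u * z) ≤
      ∑ w ∈ V X, if φ u ∣ w then h w else 0 := by
    intro u hu
    have hφ0 : φ u ≠ 0 := V_ne_zero ((mem_AA.1 (hφ u hu)).1)
    have hodd : Odd (nm (φ u)) := (mem_V.1 ((mem_AA.1 (hφ u hu)).1)).2.1
    have hnu : (0 : ℝ) < nm u := by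
      rw [← hnφ]
      exact_mod_cast nm_pos hφ0
    rw [← Finset.sum_filter]
    have h2 : ∑ z ∈ good u, h (φ u * z) = ∑ w ∈ (good u).image (fun z => φ u * z), h w := by
      rw [Finset.sum_image]
      intro x _ y _ hxy
      exact mul_left_cancel₀ hφ0 hxy
    rw [h2]
    refine Finset.sum_le_sum_of_subset_of_nonneg ?_ (fun i _ _ => hh i)
    intro w hw
    rw [Finset.mem_image] at hw
    obtain ⟨z, hz, rfl⟩ := hw
    obtain ⟨hzV, hzP⟩ := hgood u hu z hz
    rw [mem_V] at hzV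
    rw [Finset.mem_filter, mem_V]
    refine ⟨⟨?_, odd_nm_mul.2 ⟨hodd, hzV.2.1⟩, hzP⟩, dvd_mul_right _ _⟩
    rw [nm_mul, hnφ]
    push_cast
    have := (le_div_iff₀ hnu).1 hzV.1
    linarith
  calc ∑ u ∈ AA a X, ∑ z ∈ good u, h (φ u * z)
      ≤ ∑ u ∈ AA a X, ∑ w ∈ V X, (if φ u ∣ w then h w else 0) := Finset.sum_le_sum h1
    _ = ∑ w ∈ V X, ∑ u ∈ AA a X, (if φ u ∣ w then h w else 0) := Finset.sum_comm
    _ ≤ ∑ w ∈ V X, C1 * h w := by
        refine Finset.sum_le_sum fun w hw => ?_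
        rw [← Finset.sum_filter, Finset.sum_const, nsmul_eq_mul]
        refine mul_le_mul_of_nonneg_right ?_ (hh w)
        have h3 := hC w (V_ne_zero hw) (mem_V.1 hw).1
        refine le_trans ?_ h3
        have h4 : (((AA a X).filter (fun u => φ u ∣ w)).image φ : Finset G).card =
            ((AA a X).filter (fun u => φ u ∣ w)).card :=
          Finset.card_image_of_injective _ hinj
        rw [← h4, ← Set.ncard_coe_finset]
        have h5 : Set.Finite {u : G | u ∈ AA a X ∧ u ∣ w} :=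
          (AA a X).finite_toSet.subset (fun u hu => hu.1)
        have h6 := Set.ncard_le_ncard (s := (((AA a X).filter (fun u => φ u ∣ w)).image φ : Finset G))
          (t := {u : G | u ∈ AA a X ∧ u ∣ w}) (by
            intro v hv
            rw [Finset.mem_coe, Finset.mem_image] at hv
            obtain ⟨u, hu, rfl⟩ := hv
            rw [Finset.mem_filter] at hu
            exact ⟨hφ u hu.1, hu.2⟩) h5
        exact_mod_cast h6
    _ = C1 * ∑ z ∈ V X, h z := by rw [Finset.mul_sum]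

/-- For `u ∈ AA a X` and `z ∈ V (X / nm u)` such that `u z` and `star u z` are both primitive (hence in
`V X`): `F (u z) = F u F z = F (star u) F z = F (star u z)`, so with `H = F - Fb S d`,
`‖Fb (u z) - Fb (star u z)‖² = ‖H (u z) - H (star u z)‖² ≤ 2 ‖H (u z)‖² + 2 ‖H (star u z)‖²`, and each
element of `V X` is `u z` for at most `C` pairs (`div_count`), the same for `star u z` (`star u ∈ AA a X`).
For the other `z`: a prime factor of norm `≥ X^a` of `u` or `star u` divides `z` (if `q ∣ u z` for a prime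
number `q`, then, `u` and `z` being primitive, `q = w star w` up to a unit with `w ∣ u`, `star w ∣ z`), and
`u` has at most `1/a` prime factors, so there are at most
`C (X / nm u) X^(-a)` of them (`card_ball_le`), and there `‖Fb‖² ≤ #S ∑ |d k|²` (Cauchy-Schwarz). Use
`AA_sum`. -/
theorem conj_upper (a : ℝ) (ha : 0 < a) : ∃ C : ℝ, 0 < C ∧ ∀ (X : ℝ), 2 ≤ X → ∀ (F : G → ℝ), PM F →
    ∀ (S : Finset ℤ) (d : ℤ → ℂ),
    ∑ u ∈ AA a X, ∑ z ∈ V (X / nm u), ‖Fb S d (u * z) - Fb S d (star u * z)‖ ^ 2 ≤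
      C * ∑ z ∈ V X, ‖(F z : ℂ) - Fb S d z‖ ^ 2 +
      C * S.card * (∑ k ∈ S, ‖d k‖ ^ 2) * X ^ (1 - a) * Real.log X := by
  classical
  obtain ⟨C1, hC1, hdiv⟩ := div_count a ha
  obtain ⟨C2, hC2, hAA⟩ := AA_sum
  refine ⟨4 * C1 + 72 / a * C2, by positivity, fun X hX F hF S d => ?_⟩
  set D : ℝ := ∑ k ∈ S, ‖d k‖ ^ 2 with hD
  have hD0 : 0 ≤ D := Finset.sum_nonneg fun _ _ => by positivity
  have hlog : 0 ≤ Real.log X := Real.log_nonneg (by linarith)
  have hXa : 0 < X ^ (1 - a) := Real.rpow_pos_of_pos (by linarith) _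
  set good : G → Finset G := fun u =>
    (V (X / nm u)).filter (fun z => Prim (u * z) ∧ Prim (star u * z)) with hgooddef
  set bad : G → Finset G := fun u =>
    (V (X / nm u)).filter (fun z => ¬ (Prim (u * z) ∧ Prim (star u * z))) with hbaddef
  set h : G → ℝ := fun z => ‖(F z : ℂ) - Fb S d z‖ ^ 2 with hh
  have hh0 : ∀ z, 0 ≤ h z := fun z => by positivity
  set HS : ℝ := ∑ z ∈ V X, h z with hHS
  have hHS0 : 0 ≤ HS := Finset.sum_nonneg fun _ _ => hh0 _
  -- split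
  have hsplit : ∀ u, ∑ z ∈ V (X / nm u), ‖Fb S d (u * z) - Fb S d (star u * z)‖ ^ 2 =
      ∑ z ∈ good u, ‖Fb S d (u * z) - Fb S d (star u * z)‖ ^ 2 +
      ∑ z ∈ bad u, ‖Fb S d (u * z) - Fb S d (star u * z)‖ ^ 2 := by
    intro u
    exact (Finset.sum_filter_add_sum_filter_not _ _ _).symm
  have hgood : ∀ u ∈ AA a X, ∑ z ∈ good u, ‖Fb S d (u * z) - Fb S d (star u * z)‖ ^ 2 ≤
      2 * ∑ z ∈ good u, h (u * z) + 2 * ∑ z ∈ good u, h (star u * z) := by
    intro u hu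
    rw [Finset.mul_sum, Finset.mul_sum, ← Finset.sum_add_distrib]
    refine Finset.sum_le_sum fun z hz => ?_
    rw [hgooddef, Finset.mem_filter] at hz
    have huodd : Odd (nm u) := (mem_V.1 (mem_AA.1 hu).1).2.1
    have hzodd : Odd (nm z) := (mem_V.1 hz.1).2.1
    have e1 : F (u * z) = F (star u * z) := by
      rw [hF.mul u z huodd hzodd, hF.mul (star u) z (by rw [nm_star]; exact huodd) hzodd,
        hF.conj u huodd]
    have e2 : Fb S d (u * z) - Fb S d (star u * z) =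
        ((F (star u * z) : ℂ) - Fb S d (star u * z)) - ((F (u * z) : ℂ) - Fb S d (u * z)) := by
      rw [e1]
      ring
    rw [e2]
    have := norm_sub_sq_le' ((F (star u * z) : ℂ) - Fb S d (star u * z))
      ((F (u * z) : ℂ) - Fb S d (u * z))
    simp only [hh]
    linarith
  have hbad : ∀ u ∈ AA a X, ∑ z ∈ bad u, ‖Fb S d (u * z) - Fb S d (star u * z)‖ ^ 2 ≤
      (18 / a * (X ^ (1 - a) * (1 / (nm u : ℝ)))) * (4 * (S.card * D)) := by
    intro u hu
    have hu0 : u ≠ 0 := V_ne_zero (mem_AA.1 hu).1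
    have hcard := card_bad_le a X ha hX u hu
    have h10 : {z : G | z ∈ V (X / nm u) ∧ ¬ (Prim (u * z) ∧ Prim (star u * z))} =
        ((bad u : Finset G) : Set G) := by
      ext z
      simp [hbaddef]
    rw [h10, Set.ncard_coe_finset] at hcard
    have h1 : ∀ z ∈ bad u, ‖Fb S d (u * z) - Fb S d (star u * z)‖ ^ 2 ≤ 4 * (S.card * D) := by
      intro z hz
      rw [hbaddef, Finset.mem_filter] at hz
      have hz0 : z ≠ 0 := V_ne_zero hz.1
      have a1 := norm_sub_sq_le' (Fb S d (u * z)) (Fb S d (star u * z))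
      have a2 := norm_Fb_sq_le S d (mul_ne_zero hu0 hz0)
      have a3 := norm_Fb_sq_le S d (mul_ne_zero (star_ne_zero' hu0) hz0)
      linarith
    have h2 := Finset.sum_le_card_nsmul _ _ _ h1
    rw [nsmul_eq_mul] at h2
    have h3 : 0 ≤ 4 * (S.card * D) := by positivity
    exact h2.trans (mul_le_mul_of_nonneg_right hcard h3)
  have g1 := good_sum_le a X C1 (fun u => u) (fun u hu => hu) (fun _ _ h => h)
    (fun z hz0 hzX => hdiv X hX z hz0 hzX) (fun _ => rfl) h hh0 good (by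
      intro u hu z hz
      rw [hgooddef, Finset.mem_filter] at hz
      exact ⟨hz.1, hz.2.1⟩)
  have g2 := good_sum_le a X C1 (fun u => star u) (fun u hu => AA_star hu) star_injective
    (fun z hz0 hzX => hdiv X hX z hz0 hzX) (fun u => nm_star u) h hh0 good (by
      intro u hu z hz
      rw [hgooddef, Finset.mem_filter] at hz
      exact ⟨hz.1, hz.2.2⟩)
  have t1 : ∑ u ∈ AA a X, ∑ z ∈ good u, ‖Fb S d (u * z) - Fb S d (star u * z)‖ ^ 2 ≤
      4 * C1 * HS := by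
    calc ∑ u ∈ AA a X, ∑ z ∈ good u, ‖Fb S d (u * z) - Fb S d (star u * z)‖ ^ 2
        ≤ ∑ u ∈ AA a X, (2 * ∑ z ∈ good u, h (u * z) + 2 * ∑ z ∈ good u, h (star u * z)) :=
          Finset.sum_le_sum hgood
      _ = 2 * ∑ u ∈ AA a X, ∑ z ∈ good u, h (u * z) +
          2 * ∑ u ∈ AA a X, ∑ z ∈ good u, h (star u * z) := by
          rw [Finset.sum_add_distrib, Finset.mul_sum, Finset.mul_sum]
      _ ≤ 2 * (C1 * HS) + 2 * (C1 * HS) := by
          have b1 : ∑ u ∈ AA a X, ∑ z ∈ good u, h (u * z) ≤ C1 * HS := g1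
          have b2 : ∑ u ∈ AA a X, ∑ z ∈ good u, h (star u * z) ≤ C1 * HS := g2
          linarith
      _ = 4 * C1 * HS := by ring
  have t2 : ∑ u ∈ AA a X, ∑ z ∈ bad u, ‖Fb S d (u * z) - Fb S d (star u * z)‖ ^ 2 ≤
      72 / a * C2 * S.card * D * X ^ (1 - a) * Real.log X := by
    calc ∑ u ∈ AA a X, ∑ z ∈ bad u, ‖Fb S d (u * z) - Fb S d (star u * z)‖ ^ 2
        ≤ ∑ u ∈ AA a X, (18 / a * (X ^ (1 - a) * (1 / (nm u : ℝ)))) * (4 * (S.card * D)) :=
          Finset.sum_le_sum hbad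
      _ = ∑ u ∈ AA a X, (72 / a * S.card * D * X ^ (1 - a)) * (1 / (nm u : ℝ)) :=
          Finset.sum_congr rfl fun u _ => by ring
      _ = (72 / a * S.card * D * X ^ (1 - a)) * ∑ u ∈ AA a X, (1 / (nm u : ℝ)) :=
          (Finset.mul_sum _ _ _).symm
      _ ≤ (72 / a * S.card * D * X ^ (1 - a)) * (C2 * Real.log X) :=
          mul_le_mul_of_nonneg_left (hAA a X hX) (by positivity)
      _ = 72 / a * C2 * S.card * D * X ^ (1 - a) * Real.log X := by ring
  have hsum : ∑ u ∈ AA a X, ∑ z ∈ V (X / nm u), ‖Fb S d (u * z) - Fb S d (star u * z)‖ ^ 2 =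
      ∑ u ∈ AA a X, ∑ z ∈ good u, ‖Fb S d (u * z) - Fb S d (star u * z)‖ ^ 2 +
      ∑ u ∈ AA a X, ∑ z ∈ bad u, ‖Fb S d (u * z) - Fb S d (star u * z)‖ ^ 2 := by
    rw [Finset.sum_congr rfl fun u _ => hsplit u]
    exact Finset.sum_add_distrib
  calc ∑ u ∈ AA a X, ∑ z ∈ V (X / nm u), ‖Fb S d (u * z) - Fb S d (star u * z)‖ ^ 2
      = ∑ u ∈ AA a X, ∑ z ∈ good u, ‖Fb S d (u * z) - Fb S d (star u * z)‖ ^ 2 +
        ∑ u ∈ AA a X, ∑ z ∈ bad u, ‖Fb S d (u * z) - Fb S d (star u * z)‖ ^ 2 :=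
        hsum
    _ ≤ 4 * C1 * HS + 72 / a * C2 * S.card * D * X ^ (1 - a) * Real.log X := add_le_add t1 t2
    _ ≤ (4 * C1 + 72 / a * C2) * HS +
        (4 * C1 + 72 / a * C2) * S.card * D * X ^ (1 - a) * Real.log X := by
        have p1 : 0 ≤ 72 / a * C2 * HS := by positivity
        have p2 : 0 ≤ 4 * C1 * S.card * D * X ^ (1 - a) * Real.log X := by positivity
        nlinarith

end Pool.Agent.GaussMR

end

/-! ### from `Lib_MP_f1a94e_ecm.MertL` -/

section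

/-!
# Piece M-MERTL: Mertens theorem with a character when the L-value is not zero
-/

set_option autoImplicit false

namespace Pool.Agent.ECM

open Finset Pool.Agent.GaussMR Pool.Agent.GaussCM Pool.Agent.OmAll

private theorem mertl_SL_small (χ : G → ℂ) (t : ℝ) (ht : t < 1) : SL χ t = 0 := by
  classical
  unfold SL
  apply Finset.sum_eq_zero
  intro z hz
  exfalso
  unfold ob at hz
  rw [mem_filter] at hz
  have h1 : (nm z : ℝ) ≤ t := CPS.mem_ball.1 hz.1
  have h2 : (1 : ℝ) ≤ nm z := by exact_mod_cast hz.2.pos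
  linarith

/-- `mlog` and `lam_sum`: `O(1) = ∑_p ∑_j χ(p)^j log nm p / nm p^j * SL χ (Y / nm p^j)`. Put `SL χ t = l + O(t^(-η))` for `t ≥ 1` (`l_lim`; if the exponent of `l_lim` is larger than `1/4` replace it by `1/4`) and `SL χ t = 0` for `t < 1`. Terms `j = 1` (`nm p ≤ Y` always): `l ∑_p χ(p) log nm p / nm p` with error
`≤ C Y^(-η) ∑ log nm p nm p^(η-1) ≤ C` (`cheb_pow`). Terms `j ≥ 2`: at most `(|l| + C) ∑_p ∑_(j≥2) log nm p / nm p^j ≤ C` (`|SL χ t|` is bounded). Divide by `l`. -/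
theorem mert_log (D : ℕ) (hD : 0 < D) (χ : G → ℂ) (hχ : Chi D χ) (hnp : ¬ Pri D χ) (l : ℂ) (hl : l ≠ 0)
    (hlim : Filter.Tendsto (SL χ) Filter.atTop (nhds l)) : ∃ C : ℝ, ∀ Y : ℝ, 1 ≤ Y →
    ‖∑ p ∈ CP Y, χ p * (Real.log (nm p) : ℂ) / (nm p : ℂ)‖ ≤ C := by
  classical
  obtain ⟨C1, hC1⟩ := mlog D hD χ hχ hnp
  obtain ⟨l', η0, C2, hη0, hη1, hC2, hl'⟩ := l_lim D hD χ hχ hnp
  have hll : l' = l := by
    have h1 : Filter.Tendsto (SL χ) Filter.atTop (nhds l') := by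
      rw [tendsto_iff_norm_sub_tendsto_zero]
      have h2 : Filter.Tendsto (fun Y : ℝ => C2 * Y ^ (-η0)) Filter.atTop (nhds 0) := by
        have := (tendsto_rpow_neg_atTop hη0).const_mul C2
        rwa [mul_zero] at this
      refine squeeze_zero' (Filter.Eventually.of_forall fun _ => norm_nonneg _) ?_ h2
      filter_upwards [Filter.eventually_ge_atTop (1 : ℝ)] with Y hY
      exact hl' Y hY
    exact tendsto_nhds_unique h1 hlim
  rw [hll] at hl'
  obtain ⟨η, hη⟩ : ∃ η : ℝ, η = min η0 (1 / 4) := ⟨_, rfl⟩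
  have hηpos : 0 < η := by rw [hη]; exact lt_min hη0 (by norm_num)
  have hη4 : η ≤ 1 / 4 := by rw [hη]; exact min_le_right _ _
  have hηη0 : η ≤ η0 := by rw [hη]; exact min_le_left _ _
  have herr : ∀ Y : ℝ, 1 ≤ Y → ‖SL χ Y - l‖ ≤ C2 * Y ^ (-η) := by
    intro Y hY
    refine (hl' Y hY).trans (mul_le_mul_of_nonneg_left ?_ hC2.le)
    exact Real.rpow_le_rpow_of_exponent_le hY (by linarith)
  have hbd : ∀ t : ℝ, ‖SL χ t‖ ≤ ‖l‖ + C2 := by
    intro t
    rcases lt_or_ge t 1 with h | h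
    · rw [mertl_SL_small χ t h, norm_zero]
      positivity
    · have h1 := herr t h
      have h2 : t ^ (-η) ≤ 1 := Real.rpow_le_one_of_one_le_of_nonpos h (by linarith)
      have h3 : ‖SL χ t‖ ≤ ‖l‖ + ‖SL χ t - l‖ := by
        have := norm_add_le l (SL χ t - l)
        rwa [add_sub_cancel] at this
      have h4 : C2 * t ^ (-η) ≤ C2 * 1 := mul_le_mul_of_nonneg_left h2 hC2.le
      linarith
  obtain ⟨C3, hC3, hcp⟩ := cheb_pow η hηpos (by linarith)
  obtain ⟨C4, hC4, hct⟩ := cheb_tail 0 le_rfl (by norm_num)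
  have hlpos : 0 < ‖l‖ := norm_pos_iff.2 hl
  refine ⟨(C1 + C2 * C3 + (‖l‖ + C2) * C4) / ‖l‖, ?_⟩
  intro Y hY
  have hN : 1 ≤ ⌊Y⌋₊ := Nat.one_le_floor_iff _ |>.2 hY
  have hsplit : ∀ f : ℕ → ℂ, ∑ j ∈ Icc 1 ⌊Y⌋₊, f j = f 1 + ∑ j ∈ Icc 2 ⌊Y⌋₊, f j := by
    intro f
    rw [← Finset.insert_Icc_succ_left_eq_Icc hN, sum_insert (by simp)]
    rfl
  have hnm : ∀ p ∈ CP Y, (5 : ℝ) ≤ nm p := fun p hp => by exact_mod_cast CP_nm hp
  have hmain := lam_sum D χ hχ Y hY
  simp only [hsplit] at hmain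
  rw [sum_add_distrib] at hmain
  -- the first term
  obtain ⟨S, hS⟩ : ∃ S : ℂ, S = ∑ p ∈ CP Y, χ p * (Real.log (nm p) : ℂ) / (nm p : ℂ) := ⟨_, rfl⟩
  rw [← hS]
  have h1 : ‖∑ p ∈ CP Y, χ p ^ 1 * (Real.log (nm p) : ℂ) / (nm p : ℂ) ^ 1 *
      SL χ (Y / (nm p : ℝ) ^ 1) - l * S‖ ≤ C2 * C3 := by
    rw [hS, mul_sum, ← sum_sub_distrib]
    have hterm : ∀ p ∈ CP Y, ‖χ p ^ 1 * (Real.log (nm p) : ℂ) / (nm p : ℂ) ^ 1 *
        SL χ (Y / (nm p : ℝ) ^ 1) - l * (χ p * (Real.log (nm p) : ℂ) / (nm p : ℂ))‖ ≤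
        (C2 * Y ^ (-η)) * (Real.log (nm p) * (nm p : ℝ) ^ (η - 1)) := by
      intro p hp
      have h5 := hnm p hp
      have hpos : (0 : ℝ) < nm p := by linarith
      have hle : (nm p : ℝ) ≤ Y := (CPS.mem_CP.1 hp).1
      have hlog : 0 ≤ Real.log (nm p) := Real.log_nonneg (by linarith)
      have e1 : χ p ^ 1 * (Real.log (nm p) : ℂ) / (nm p : ℂ) ^ 1 *
        SL χ (Y / (nm p : ℝ) ^ 1) - l * (χ p * (Real.log (nm p) : ℂ) / (nm p : ℂ)) =
        χ p * (Real.log (nm p) : ℂ) / (nm p : ℂ) * (SL χ (Y / (nm p : ℝ)) - l) := by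
        rw [pow_one, pow_one, pow_one]
        ring
      have h6 := herr (Y / nm p) ((one_le_div hpos).2 hle)
      have e2 : (Y / (nm p : ℝ)) ^ (-η) = Y ^ (-η) * (nm p : ℝ) ^ η := by
        rw [Real.div_rpow (by linarith) hpos.le, Real.rpow_neg hpos.le, div_inv_eq_mul]
      have e3 : (nm p : ℝ) ^ (η - 1) = (nm p : ℝ) ^ η / nm p := by
        rw [Real.rpow_sub hpos, Real.rpow_one]
      rw [e1, norm_mul, norm_div, norm_mul, Complex.norm_real, Real.norm_of_nonneg hlog,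
        Complex.norm_natCast, e3]
      rw [e2] at h6
      have h7 : ‖χ p‖ * Real.log (nm p) / (nm p : ℝ) ≤ Real.log (nm p) / nm p := by
        refine div_le_div_of_nonneg_right ?_ hpos.le
        exact mul_le_of_le_one_left hlog (hχ.le p)
      calc ‖χ p‖ * Real.log (nm p) / (nm p : ℝ) * ‖SL χ (Y / (nm p : ℝ)) - l‖
          ≤ Real.log (nm p) / nm p * (C2 * (Y ^ (-η) * (nm p : ℝ) ^ η)) :=
            mul_le_mul h7 h6 (norm_nonneg _) (by positivity)
        _ = (C2 * Y ^ (-η)) * (Real.log (nm p) * ((nm p : ℝ) ^ η / nm p)) := by ring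
    refine (norm_sum_le _ _).trans ((sum_le_sum hterm).trans ?_)
    rw [← mul_sum]
    have hYn : 0 ≤ C2 * Y ^ (-η) := by positivity
    calc (C2 * Y ^ (-η)) * ∑ p ∈ CP Y, Real.log (nm p) * (nm p : ℝ) ^ (η - 1)
        ≤ (C2 * Y ^ (-η)) * (C3 * Y ^ η) := mul_le_mul_of_nonneg_left (hcp Y hY) hYn
      _ = C2 * C3 * (Y ^ (-η) * Y ^ η) := by ring
      _ = C2 * C3 := by
          rw [← Real.rpow_add (by linarith), neg_add_cancel, Real.rpow_zero, mul_one]
  have h2 : ‖∑ p ∈ CP Y, ∑ j ∈ Icc 2 ⌊Y⌋₊, χ p ^ j * (Real.log (nm p) : ℂ) / (nm p : ℂ) ^ j *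
      SL χ (Y / (nm p : ℝ) ^ j)‖ ≤ (‖l‖ + C2) * C4 := by
    refine (norm_sum_le _ _).trans ?_
    have hle : ∀ p ∈ CP Y, ‖∑ j ∈ Icc 2 ⌊Y⌋₊, χ p ^ j * (Real.log (nm p) : ℂ) / (nm p : ℂ) ^ j *
        SL χ (Y / (nm p : ℝ) ^ j)‖ ≤ ∑ j ∈ Icc 2 ⌊Y⌋₊,
        (‖l‖ + C2) * (Real.log (nm p) / ((nm p : ℝ) ^ j) ^ ((1 : ℝ) - 0)) := by
      intro p hp
      have h5 := hnm p hp
      have hpos : (0 : ℝ) < nm p := by linarith
      have hlog : 0 ≤ Real.log (nm p) := Real.log_nonneg (by linarith)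
      refine (norm_sum_le _ _).trans (sum_le_sum fun j _ => ?_)
      rw [sub_zero, Real.rpow_one, norm_mul, norm_div, norm_mul, norm_pow, norm_pow,
        Complex.norm_real, Real.norm_of_nonneg hlog, Complex.norm_natCast]
      have h8 : ‖χ p‖ ^ j * Real.log (nm p) / (nm p : ℝ) ^ j ≤ Real.log (nm p) / (nm p : ℝ) ^ j := by
        refine div_le_div_of_nonneg_right ?_ (by positivity)
        exact mul_le_of_le_one_left hlog (pow_le_one₀ (norm_nonneg _) (hχ.le p))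
      calc ‖χ p‖ ^ j * Real.log (nm p) / (nm p : ℝ) ^ j * ‖SL χ (Y / (nm p : ℝ) ^ j)‖
          ≤ Real.log (nm p) / (nm p : ℝ) ^ j * (‖l‖ + C2) :=
            mul_le_mul h8 (hbd _) (norm_nonneg _) (by positivity)
        _ = (‖l‖ + C2) * (Real.log (nm p) / (nm p : ℝ) ^ j) := by ring
    refine (sum_le_sum hle).trans ?_
    simp only [← mul_sum]
    exact mul_le_mul_of_nonneg_left (hct Y hY) (by positivity)
  have h3 := hC1 Y hY
  rw [hmain] at h3
  rw [le_div_iff₀ hlpos, mul_comm, ← norm_mul]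
  obtain ⟨A, hA⟩ : ∃ A : ℂ, A = ∑ p ∈ CP Y, χ p ^ 1 * (Real.log (nm p) : ℂ) / (nm p : ℂ) ^ 1 *
      SL χ (Y / (nm p : ℝ) ^ 1) := ⟨_, rfl⟩
  obtain ⟨B, hB⟩ : ∃ B : ℂ, B = ∑ p ∈ CP Y, ∑ j ∈ Icc 2 ⌊Y⌋₊, χ p ^ j * (Real.log (nm p) : ℂ) /
      (nm p : ℂ) ^ j * SL χ (Y / (nm p : ℝ) ^ j) := ⟨_, rfl⟩
  rw [← hA, ← hB] at h3
  rw [← hA] at h1
  rw [← hB] at h2
  have e : l * S = (A + B) - B - (A - l * S) := by ring
  rw [e]
  refine (norm_sub_le _ _).trans ?_
  have := norm_sub_le (A + B) B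
  linarith

end Pool.Agent.ECM

end

/-! ### from `Lib_MP_f1a94e_ecm.AvgAll` -/

section

/-!
# Piece M-AVGALL: from fine grids to coarse grids (abstract)
-/

set_option autoImplicit false

namespace Pool.Agent.ECM

open Finset Pool.Agent.GaussMR

private theorem avg_sum_mul (g : ℕ → ℝ) (m : ℕ) : ∀ N : ℕ,
    ∑ n ∈ range N, ∑ i ∈ range m, g (n * m + i) = ∑ k ∈ range (N * m), g k := by
  intro N
  induction N with
  | zero => simp
  | succ N ih =>
    rw [sum_range_succ, ih, Nat.succ_mul, Finset.sum_range_add]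

private theorem avg_geom_all (h : ℝ) (hh : 0 < h) (N : ℕ) :
    ∑ n ∈ range N, Real.exp (-(n * h / 2)) ≤ (1 - Real.exp (-(h / 2)))⁻¹ := by
  have hr0 : 0 ≤ Real.exp (-(h / 2)) := (Real.exp_pos _).le
  have hr1 : Real.exp (-(h / 2)) < 1 := by
    rw [Real.exp_lt_one_iff]
    linarith
  have h1 : ∀ n : ℕ, Real.exp (-(n * h / 2)) = Real.exp (-(h / 2)) ^ n := by
    intro n
    rw [← Real.exp_nat_mul]
    congr 1
    ring
  simp_rw [h1]
  rw [← tsum_geometric_of_lt_one hr0 hr1]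
  exact (summable_geometric_of_lt_one hr0 hr1).sum_le_tsum _ (fun n _ => by positivity)

/-- PROOF. Take `η ≤ min h 1`, `4 C² η² ≤ ε / 4`; `hcore` with `ε' = ε η / (16 h)` gives `h1`; let `h' = h / m` with `m` so large that `h' ≤ h1`, `h' ≤ η / 2`; `M = ⌊η / h'⌋`, so `1 ≤ M ≤ m`, `M ≥ η / (2 h')`. For each `n` and `i < M`:
`‖A (n h)‖² ≤ 2 ‖A (n h + i h')‖² + 2 C² (η + exp (-n h / 4))²`. Average over `i`, sum over `n < N`; the points `n h + i h' = (n m + i) h'` are distinct points of the fine grid below `N m`: the sum is at most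
`(2/M) ∑_(k < N m) ‖A (k h')‖² + 4 C² η² N + 4 C² ∑ exp (-n h / 2) ≤ (2/M) ε' N m + ε N / 4 + C' ≤ (4 h / η) ε' N + ε N / 4 + C'`. -/
theorem avg_all (A : ℝ → ℂ) (C : ℝ) (hC : 0 < C)
    (hl : ∀ s h : ℝ, 0 ≤ s → 0 ≤ h → h ≤ 1 → ‖A (s + h) - A s‖ ≤ C * (h + Real.exp (-(s / 4))))
    (hcore : ∀ ε : ℝ, 0 < ε → ∃ h1 : ℝ, 0 < h1 ∧ ∀ h : ℝ, 0 < h → h ≤ h1 → ∃ N0 : ℕ, ∀ N : ℕ, N0 ≤ N →
      ∑ n ∈ range N, ‖A (n * h)‖ ^ 2 ≤ ε * N)
    (h : ℝ) (hh : 0 < h) (ε : ℝ) (hε : 0 < ε) : ∃ N0 : ℕ, ∀ N : ℕ, N0 ≤ N →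
      ∑ n ∈ range N, ‖A (n * h)‖ ^ 2 ≤ ε * N := by
  -- choice of `η`
  obtain ⟨η, hη0, hηh, hη1, hηε⟩ : ∃ η : ℝ, 0 < η ∧ η ≤ h ∧ η ≤ 1 ∧ 4 * C ^ 2 * η ^ 2 ≤ ε / 4 := by
    refine ⟨min (min h 1) (Real.sqrt ε / (4 * C)), by positivity, ?_, ?_, ?_⟩
    · exact (min_le_left _ _).trans (min_le_left _ _)
    · exact (min_le_left _ _).trans (min_le_right _ _)
    · set η : ℝ := min (min h 1) (Real.sqrt ε / (4 * C)) with hη
      have h0 : 0 < η := by positivity
      have h1 : η ≤ Real.sqrt ε / (4 * C) := min_le_right _ _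
      have h2 : η ^ 2 ≤ (Real.sqrt ε / (4 * C)) ^ 2 := pow_le_pow_left₀ h0.le h1 2
      rw [div_pow, Real.sq_sqrt hε.le, le_div_iff₀ (by positivity)] at h2
      nlinarith
  obtain ⟨h1, hh1, hgrid⟩ := hcore (ε * η / (16 * h)) (by positivity)
  -- choice of `m`
  obtain ⟨m, hm⟩ := exists_nat_ge (max (h / h1) (2 * h / η))
  have hm1 : h / h1 ≤ m := (le_max_left _ _).trans hm
  have hm2 : 2 * h / η ≤ m := (le_max_right _ _).trans hm
  have hm0 : (0 : ℝ) < m := lt_of_lt_of_le (by positivity) hm1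
  have hmne : (m : ℝ) ≠ 0 := hm0.ne'
  have hmpos : 0 < m := by exact_mod_cast hm0
  set h' : ℝ := h / m with hh'
  have hh'0 : 0 < h' := by positivity
  have hmh' : (m : ℝ) * h' = h := by
    rw [hh']
    field_simp
  have hh'1 : h' ≤ h1 := by
    rw [hh', div_le_iff₀ hm0]
    rw [div_le_iff₀ hh1] at hm1
    linarith
  have hh'2 : 2 * h' ≤ η := by
    rw [hh']
    rw [div_le_iff₀ hη0] at hm2
    rw [← mul_div_assoc, div_le_iff₀ hm0]
    linarith
  set M : ℕ := ⌊η / h'⌋₊ with hM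
  have hMle : (M : ℝ) ≤ η / h' := Nat.floor_le (by positivity)
  have hMh : (M : ℝ) * h' ≤ η := (le_div_iff₀ hh'0).1 hMle
  have hMge : η / (2 * h') ≤ M := by
    have h2 : η / h' < M + 1 := Nat.lt_floor_add_one _
    have h3 : 1 ≤ η / (2 * h') := by
      rw [le_div_iff₀ (by positivity)]
      linarith
    have h4 : η / h' = η / (2 * h') + η / (2 * h') := by
      field_simp
      ring
    linarith
  have hM0 : (0 : ℝ) < M := lt_of_lt_of_le (by positivity) hMge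
  have hMm : M ≤ m := by
    have h2 : (M : ℝ) * h' ≤ m * h' := by
      rw [hmh']
      linarith
    have h3 : (M : ℝ) ≤ m := le_of_mul_le_mul_right h2 hh'0
    exact_mod_cast h3
  obtain ⟨N0, hN0⟩ := hgrid h' hh'0 hh'1
  set K : ℝ := (1 - Real.exp (-(h / 2)))⁻¹ with hK
  obtain ⟨N1, hN1⟩ := exists_nat_ge (4 * C ^ 2 * K / (ε / 2))
  refine ⟨max N0 N1, ?_⟩
  intro N hN
  have hNN0 : N0 ≤ N * m := ((le_max_left _ _).trans hN).trans (Nat.le_mul_of_pos_right _ hmpos)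
  have hNN1 : (N1 : ℝ) ≤ N := by exact_mod_cast (le_max_right _ _).trans hN
  -- the pointwise bound
  have hpt : ∀ n : ℕ, ∀ i ∈ range M, ‖A (n * h)‖ ^ 2 ≤
      2 * ‖A (((n * m + i : ℕ) : ℝ) * h')‖ ^ 2 + (4 * C ^ 2 * η ^ 2 + 4 * C ^ 2 * Real.exp (-(n * h / 2))) := by
    intro n i hi
    have hiM : (i : ℝ) ≤ M := by exact_mod_cast (mem_range.1 hi).le
    have hi1 : (i : ℝ) * h' ≤ η := (mul_le_mul_of_nonneg_right hiM hh'0.le).trans hMh
    have hi0 : 0 ≤ (i : ℝ) * h' := by positivity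
    have e1 : ((n * m + i : ℕ) : ℝ) * h' = n * h + i * h' := by
      push_cast
      rw [← hmh']
      ring
    rw [e1]
    have h2 := hl (n * h) (i * h') (by positivity) hi0 (hi1.trans hη1)
    have h3 : ‖A (n * h)‖ ≤ ‖A (n * h + i * h')‖ + ‖A (n * h + i * h') - A (n * h)‖ := by
      have := norm_sub_norm_le (A (n * h)) (A (n * h + i * h'))
      rw [norm_sub_rev] at this
      linarith
    have h4 : ‖A (n * h + i * h') - A (n * h)‖ ≤ C * (η + Real.exp (-(n * h / 4))) :=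
      h2.trans (mul_le_mul_of_nonneg_left (by linarith) hC.le)
    have h5 : Real.exp (-(n * h / 2)) = Real.exp (-(n * h / 4)) ^ 2 := by
      rw [← Real.exp_nat_mul]
      congr 1
      push_cast
      ring
    rw [h5]
    set x := ‖A (n * h + i * h')‖
    set y := ‖A (n * h)‖
    set z := ‖A (n * h + i * h') - A (n * h)‖
    set e := Real.exp (-(n * h / 4))
    have hx : 0 ≤ x := norm_nonneg _
    have hy : 0 ≤ y := norm_nonneg _
    have hz : 0 ≤ z := norm_nonneg _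
    have h6 : y ^ 2 ≤ (x + z) ^ 2 := pow_le_pow_left₀ hy h3 2
    have h7 : z ^ 2 ≤ (C * (η + e)) ^ 2 := pow_le_pow_left₀ hz h4 2
    have h8 : (x + z) ^ 2 ≤ 2 * x ^ 2 + 2 * z ^ 2 := by linarith only [sq_nonneg (x - z)]
    have h9 : (C * (η + e)) ^ 2 ≤ C ^ 2 * (2 * η ^ 2 + 2 * e ^ 2) := by
      rw [mul_pow]
      apply mul_le_mul_of_nonneg_left _ (sq_nonneg C)
      linarith only [sq_nonneg (η - e)]
    linarith only [h6, h7, h8, h9]
  have hsum : (M : ℝ) * ∑ n ∈ range N, ‖A (n * h)‖ ^ 2 ≤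
      2 * (ε * η / (16 * h) * (N * m)) + M * (4 * C ^ 2 * η ^ 2 * N + 4 * C ^ 2 * K) := by
    calc (M : ℝ) * ∑ n ∈ range N, ‖A (n * h)‖ ^ 2
        = ∑ n ∈ range N, ∑ _i ∈ range M, ‖A (n * h)‖ ^ 2 := by
          rw [mul_sum]
          apply sum_congr rfl
          intro n _
          rw [sum_const, card_range, nsmul_eq_mul]
      _ ≤ ∑ n ∈ range N, ∑ i ∈ range M, (2 * ‖A (((n * m + i : ℕ) : ℝ) * h')‖ ^ 2 +
          (4 * C ^ 2 * η ^ 2 + 4 * C ^ 2 * Real.exp (-(n * h / 2)))) :=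
          sum_le_sum fun n _ => sum_le_sum (hpt n)
      _ = 2 * ∑ n ∈ range N, ∑ i ∈ range M, ‖A (((n * m + i : ℕ) : ℝ) * h')‖ ^ 2 +
          M * (4 * C ^ 2 * η ^ 2 * N + 4 * C ^ 2 * ∑ n ∈ range N, Real.exp (-(n * h / 2))) := by
          simp_rw [sum_add_distrib, sum_const, card_range, nsmul_eq_mul]
          simp_rw [← mul_sum]
          ring
      _ ≤ 2 * (ε * η / (16 * h) * (N * m)) + M * (4 * C ^ 2 * η ^ 2 * N + 4 * C ^ 2 * K) := by
          have h2 : ∑ n ∈ range N, ∑ i ∈ range M, ‖A (((n * m + i : ℕ) : ℝ) * h')‖ ^ 2 ≤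
              ε * η / (16 * h) * (N * m) := by
            calc ∑ n ∈ range N, ∑ i ∈ range M, ‖A (((n * m + i : ℕ) : ℝ) * h')‖ ^ 2
                ≤ ∑ n ∈ range N, ∑ i ∈ range m, ‖A (((n * m + i : ℕ) : ℝ) * h')‖ ^ 2 := by
                  apply sum_le_sum
                  intro n _
                  apply sum_le_sum_of_subset_of_nonneg
                  · exact range_subset_range.2 hMm
                  · intro i _ _
                    positivity
              _ = ∑ k ∈ range (N * m), ‖A ((k : ℝ) * h')‖ ^ 2 :=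
                  avg_sum_mul (fun k => ‖A ((k : ℝ) * h')‖ ^ 2) m N
              _ ≤ ε * η / (16 * h) * ((N * m : ℕ) : ℝ) := hN0 _ hNN0
              _ = _ := by push_cast; ring
          have h3 := avg_geom_all h hh N
          have h4 : (M : ℝ) * (4 * C ^ 2 * η ^ 2 * N + 4 * C ^ 2 * ∑ n ∈ range N, Real.exp (-(n * h / 2))) ≤
              M * (4 * C ^ 2 * η ^ 2 * N + 4 * C ^ 2 * K) := by
            apply mul_le_mul_of_nonneg_left _ hM0.le
            have := mul_le_mul_of_nonneg_left h3 (by positivity : 0 ≤ 4 * C ^ 2)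
            linarith
          linarith
  have hN0' : (0 : ℝ) ≤ N := Nat.cast_nonneg _
  -- first term
  have ht1 : 2 * (ε * η / (16 * h) * (N * m)) ≤ M * (ε / 4 * N) := by
    have h2 : 2 * (ε * η / (16 * h) * (N * m)) = (η / (2 * h')) * (ε / 4 * N) := by
      rw [hh']
      field_simp
      ring
    rw [h2]
    exact mul_le_mul_of_nonneg_right hMge (by positivity)
  have ht2 : 4 * C ^ 2 * η ^ 2 * N ≤ ε / 4 * N := mul_le_mul_of_nonneg_right hηε hN0'
  have ht3 : 4 * C ^ 2 * K ≤ ε / 2 * N := by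
    have h2 : 4 * C ^ 2 * K / (ε / 2) ≤ N := hN1.trans hNN1
    rw [div_le_iff₀ (by positivity)] at h2
    linarith
  have h2 : (M : ℝ) * ∑ n ∈ range N, ‖A (n * h)‖ ^ 2 ≤ M * (ε * N) := by
    calc (M : ℝ) * ∑ n ∈ range N, ‖A (n * h)‖ ^ 2 ≤ _ := hsum
      _ ≤ M * (ε / 4 * N) + M * (ε / 4 * N + ε / 2 * N) := by
        apply add_le_add ht1
        apply mul_le_mul_of_nonneg_left _ hM0.le
        linarith
      _ = M * (ε * N) := by ring
  exact le_of_mul_le_mul_left h2 hM0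

end Pool.Agent.ECM

end

/-! ### from `Lib_MP_f1a94e_ecm.WinMass` -/

section

/-!
# Piece M-WIN: crude Chebyshev bound for a window
-/

set_option autoImplicit false

namespace Pool.Agent.ECM

open Finset Pool.Agent.GaussMR Pool.Agent.GaussCM Pool.Agent.OmAll

/-- The norms of the elements of `PP` are distinct primes (`0 < im < re`; two elements of equal prime norm are equal, see `MertensB.lean`), so the sum is at most `∑_(exp u < p ≤ exp (u+1)) 1/p ≤ (1 / (u exp u)) ∑_(p ≤ exp (u+1)) log p ≤ (log 4) exp (u+1) / (u exp u)`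
(Mathlib: `Chebyshev.theta_le_log4_mul_x`). -/
theorem win_mass : ∃ C : ℝ, 0 < C ∧ ∀ u : ℝ, 1 ≤ u → ∑ w ∈ PP (Real.exp u) (Real.exp (u + 1)), 1 / (nm w : ℝ) ≤ C / u := by
  have hl4 : 0 < Real.log 4 := Real.log_pos (by norm_num)
  refine ⟨Real.log 4 * Real.exp 1, mul_pos hl4 (Real.exp_pos _), ?_⟩
  intro u hu
  have hu0 : 0 < u := by linarith
  have hE : 0 < Real.exp u := Real.exp_pos u
  have h1 : ∑ w ∈ PP (Real.exp u) (Real.exp (u + 1)), 1 / (nm w : ℝ) =
      Ls (Real.exp u) (Real.exp (u + 1)) := rfl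
  rw [h1, Ls_eq _ _ (Real.exp_pos _).le (Real.exp_pos _).le]
  have h2 : ∑ p ∈ (Finset.Icc 1 ⌊Real.exp (u + 1)⌋₊).filter
      (fun p => p.Prime ∧ p % 4 = 1 ∧ ⌊Real.exp u⌋₊ < p), (1 : ℝ) / p ≤
      ∑ p ∈ (Finset.Icc 1 ⌊Real.exp (u + 1)⌋₊).filter
      (fun p => p.Prime ∧ p % 4 = 1 ∧ ⌊Real.exp u⌋₊ < p), Real.log p / (u * Real.exp u) := by
    refine Finset.sum_le_sum fun p hp => ?_
    obtain ⟨-, -, -, h3⟩ := Finset.mem_filter.mp hp
    have h4 : Real.exp u < p := (Nat.floor_lt hE.le).mp h3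
    have h5 : u ≤ Real.log p := by
      rw [Real.le_log_iff_exp_le (hE.trans h4)]
      exact h4.le
    rw [div_le_div_iff₀ (hE.trans h4) (by positivity), one_mul]
    exact mul_le_mul h5 h4.le hE.le (hu0.le.trans h5)
  have h3 : ∑ p ∈ (Finset.Icc 1 ⌊Real.exp (u + 1)⌋₊).filter
      (fun p => p.Prime ∧ p % 4 = 1 ∧ ⌊Real.exp u⌋₊ < p), Real.log p ≤
      Chebyshev.theta (Real.exp (u + 1)) := by
    unfold Chebyshev.theta
    refine Finset.sum_le_sum_of_subset_of_nonneg ?_ ?_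
    · intro p hp
      obtain ⟨h4, h5, -, -⟩ := Finset.mem_filter.mp hp
      rw [Finset.mem_Icc] at h4
      rw [Finset.mem_filter, Finset.mem_Ioc]
      exact ⟨⟨by omega, h4.2⟩, h5⟩
    · intro p hp _
      have h5 := (Finset.mem_filter.mp hp).2
      exact Real.log_nonneg (by exact_mod_cast h5.one_lt.le)
  have h4 := Chebyshev.theta_le_log4_mul_x (Real.exp_pos (u + 1)).le
  refine h2.trans ?_
  rw [← Finset.sum_div, div_le_div_iff₀ (by positivity) hu0]
  have h6 : Real.exp (u + 1) = Real.exp u * Real.exp 1 := Real.exp_add u 1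
  have h5 := h3.trans (h4.trans_eq (by rw [h6]))
  calc (∑ p ∈ (Finset.Icc 1 ⌊Real.exp (u + 1)⌋₊).filter
      (fun p => p.Prime ∧ p % 4 = 1 ∧ ⌊Real.exp u⌋₊ < p), Real.log p) * u ≤
      (Real.log 4 * (Real.exp u * Real.exp 1)) * u := mul_le_mul_of_nonneg_right h5 hu0.le
    _ = Real.log 4 * Real.exp 1 * (u * Real.exp u) := by ring

end Pool.Agent.ECM

end
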