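import Mathlib
import Pool.Agent.Lib_MP_f1a94e_m.G01
import Pool.Agent.Lib_MP_f1a94e_m.G03
import Pool.Agent.Lib_MP_f1a94e_m.G04
import Pool.Agent.Lib_MP_f1a94e_m.G05
import Pool.Agent.Lib_MP_f1a94e_m.G06
import Pool.Agent.Lib_MP_f1a94e_m.G09
import Pool.Agent.Lib_MP_f1a94e_m.G10
import Pool.Agent.Lib_MP_f1a94e_m.G11
import Pool.Agent.Lib_MP_f1a94e_m.G13
import Pool.Agent.Lib_MP_f1a94e_m.G14
import Pool.Agent.Lib_MP_f1a94e_m.G16

/-!
# MP_f1a94e_nt: merged library part G20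

Concatenation of files of the libraries `Lib_MP_f1a94e_*` (each in its own section), only to save build time.
-/

/-! ### from `Lib_MP_f1a94e_lp.UDefs` -/

section

/-!
# MP_f1a94e_nt, joint law of the large prime factors: bounded completely multiplicative functions
-/

set_option autoImplicit false

namespace Pool.Agent.LPr

open Pool.Agent.GaussMR

/-- completely multiplicative functions bounded by one, of modulus one at the primes larger than `P0` -/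
structure UF (P0 : ℕ) (f : ℕ → ℂ) : Prop where
  mul : ∀ m n, f (m * n) = f m * f n
  one : f 1 = 1
  bd : ∀ n, ‖f n‖ ≤ 1
  un : ∀ p : ℕ, p.Prime → P0 < p → ‖f p‖ = 1

/-- a function of the norm times a character -/
noncomputable def FG (f : ℕ → ℂ) (χ : G → ℂ) (z : G) : ℂ := f (nm z) * χ z

end Pool.Agent.LPr

end

/-! ### from `Lib_MP_f1a94e_lp.Defs` -/

section

/-!
# MP_f1a94e_nt, joint law of the large prime factors: definitions

Families `f X` of completely multiplicative functions (the scale `X` tends to infinity). The geometric scale is always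
called `X` (or `Y`), the index of the family is `a * X` with a fixed `a > 0`.
-/

set_option autoImplicit false

namespace Pool.Agent.LPr

open Finset Pool.Agent.GaussMR Pool.Agent.OmAll Pool.Agent.OmEq MeasureTheory Filter

/-- families of completely multiplicative functions bounded by one which at every fixed prime `1 mod 4` outside `E`
are eventually equal to `ω` -/
structure FX (f : ℝ → ℕ → ℂ) (E : Finset ℕ) (ω : ℂ) : Prop where
  mul : ∀ X m n, f X (m * n) = f X m * f X n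
  bd : ∀ X n, ‖f X n‖ ≤ 1
  pr : ∀ T : ℕ, ∀ᶠ X : ℝ in atTop, ∀ p : ℕ, p ≤ T → p.Prime → p % 4 = 1 → p ∉ E → f X p = ω

/-- functions on pairs that are multiplied by `g p` when a prime `γ` of norm `p ≤ T`, `p ∉ E`, moves from `V'` to `V` -/
structure CmpT (n : ℕ) (E : Finset ℕ) (T : ℕ) (g : ℕ → ℂ) (Φ : G × G → ℂ) : Prop where
  bd : ∀ e, ‖Φ e‖ ≤ 1
  mv : ∀ γ U W : G, (nm γ).Prime → nm γ % 4 = 1 → nm γ ≤ T → nm γ ∉ E → En n (γ * U, W) →
    ¬ (nm γ) ^ 2 ∣ nm (γ * U) * nm W → Φ (γ * U, W) = g (nm γ) * Φ (U, star γ * W)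

open Classical in
/-- `Qs` for two functions -/
noncomputable def Qs2 (f1 f2 : ℕ → ℂ) (n : ℕ) (x : ℝ) (W : ℝ → ℝ → ℂ) (X : ℝ) : ℂ :=
  ∑ e ∈ (EN n x).filter (hc n), f1 (nm e.1) * (starRingEnd ℂ) (f2 (nm e.2)) * W (mE e / X) (tE e)

open Classical in
/-- the sum over the pairs congruent modulo the determinant -/
noncomputable def Cg2 (f1 f2 : ℕ → ℂ) (n : ℕ) (x : ℝ) (W : ℝ → ℝ → ℂ) (X : ℝ) : ℂ :=
  ∑ e ∈ (EN n x).filter (fun e => cg n e.2 e.1), f1 (nm e.1) * (starRingEnd ℂ) (f2 (nm e.2)) * W (mE e / X) (tE e)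

/-- the sum over edges for two functions -/
noncomputable def Sx2 (f1 f2 : ℕ → ℂ) (x : ℝ) (W : ℝ → ℝ → ℂ) (X : ℝ) : ℂ :=
  ∑ e ∈ EN 1 x, f1 (nm e.1) * f2 (nm e.2) * W (mE e / X) (tE e)

/-- one class is asymptotically its share of almost all classes -/
def GBX (f : ℝ → ℕ → ℂ) : Prop :=
  ∀ n : ℕ, 0 < n → ∀ (b : ℝ) (W : ℝ → ℝ → ℂ), TF b W → ∀ a : ℝ, 0 < a →
    Tendsto (fun X : ℝ => (Cg2 (f (a * X)) (f (a * X)) n (b * X) W X -
      ((kap n / n.totient : ℝ) : ℂ) * Qs (f (a * X)) n (b * X) W X) / X) atTop (nhds 0)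

/-- test functions of mean zero in `t` give nothing (almost all classes) -/
def TVX (f : ℝ → ℕ → ℂ) : Prop :=
  ∀ n : ℕ, 0 < n → ∀ (b : ℝ) (W : ℝ → ℝ → ℂ), TF b W → (∀ y, (∫ t, W y t) = 0) → ∀ a : ℝ, 0 < a →
    Tendsto (fun X : ℝ => Qs (f (a * X)) n (b * X) W X / X) atTop (nhds 0)

/-- the sums over one class are small -/
def GAX (f : ℝ → ℕ → ℂ) : Prop :=
  ∀ n : ℕ, 0 < n → ∀ (b : ℝ) (W : ℝ → ℝ → ℂ), TF b W → ∀ a : ℝ, 0 < a →
    Tendsto (fun X : ℝ => Cg2 (f (a * X)) (f (a * X)) n (b * X) W X / X) atTop (nhds 0)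

/-- test functions of mean zero in `t` give nothing (edges, two functions) -/
def PTX (f1 f2 : ℝ → ℕ → ℂ) : Prop :=
  ∀ (b : ℝ) (W : ℝ → ℝ → ℂ), TF b W → (∀ y, (∫ t, W y t) = 0) → ∀ a : ℝ, 0 < a →
    Tendsto (fun X : ℝ => Sx2 (f1 (a * X)) (f2 (a * X)) (b * X) W X / X) atTop (nhds 0)

/-- the correlations are small on average -/
def GmSmallX (f : ℝ → ℕ → ℂ) : Prop :=
  ∀ (h : ℝ → ℝ) (h1 h2 : ℝ), HF h h1 h2 → ∀ ε : ℝ, 0 < ε → ∃ N0 : ℕ, ∀ N : ℕ, N0 ≤ N → ∃ J0 : ℕ, ∀ J : ℕ, J0 ≤ J →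
    ∀ a : ℝ, 0 < a → ∀ᶠ X : ℝ in atTop,
      ‖∑ n ∈ Icc 1 N, Gm (f (a * X)) h J N n (((J + N) ^ 2 * h2 + 1) * X) X‖ ≤ ε * N ^ 2 * X

/-- weighted sums of the correlations -/
def QSmallX (f : ℝ → ℕ → ℂ) : Prop :=
  ∀ (h : ℝ → ℝ) (h1 h2 : ℝ), HF h h1 h2 → ∀ ε : ℝ, 0 < ε → ∃ N0 : ℕ, ∀ N : ℕ, N0 ≤ N → ∀ a : ℝ, 0 < a →
    ∀ᶠ Y : ℝ in atTop,
    ‖∑ n ∈ Icc 1 N, ((kap n * (n / n.totient) * ww ((n : ℝ) / N) : ℝ) : ℂ) *
      Qs (f (a * Y)) n (h2 * Y) (fun y t => ((h y ^ 2 * ps0 t : ℝ) : ℂ)) Y‖ ≤ ε * N * Y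

/-- the same over the multiples of `d`, without the factor `n / φ(n)` -/
def QdSmallX (f : ℝ → ℕ → ℂ) : Prop :=
  ∀ d : ℕ, 1 ≤ d → ∀ (h : ℝ → ℝ) (h1 h2 : ℝ), HF h h1 h2 → ∀ ε : ℝ, 0 < ε → ∃ N0 : ℕ, ∀ N : ℕ, N0 ≤ N →
    ∀ a : ℝ, 0 < a → ∀ᶠ Y : ℝ in atTop,
    ‖∑ n ∈ (Icc 1 N).filter (fun n => d ∣ n), ((kap n * ww ((n : ℝ) / N) : ℝ) : ℂ) *
      Qs (f (a * Y)) n (h2 * Y) (fun y t => ((h y ^ 2 * ps0 t : ℝ) : ℂ)) Y‖ ≤ ε * N * Y

/-- Matomaki-Radziwill in arcs, odd primitive numbers -/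
def MROX (f : ℝ → ℕ → ℂ) : Prop :=
  ∀ D : ℕ, 0 < D → ∀ b : G, ∀ ε : ℝ, 0 < ε → ∃ H0 : ℝ, 0 < H0 ∧ ∀ H : ℝ, H0 ≤ H → ∀ a : ℝ, 0 < a →
    ∀ᶠ X : ℝ in atTop, ∫ θ in (0 : ℝ)..(2 * Real.pi), ‖So (f (a * X)) D b X (H / X) θ‖ ^ 2 ≤ ε * H ^ 2

/-- Matomaki-Radziwill in arcs, primitive numbers -/
def MRPX (f : ℝ → ℕ → ℂ) : Prop :=
  ∀ D : ℕ, 0 < D → ∀ b : G, ∀ ε : ℝ, 0 < ε → ∃ H0 : ℝ, 0 < H0 ∧ ∀ H : ℝ, H0 ≤ H → ∀ a : ℝ, 0 < a →
    ∀ᶠ X : ℝ in atTop, ∫ θ in (0 : ℝ)..(2 * Real.pi), ‖Sp (f (a * X)) D b X (H / X) θ‖ ^ 2 ≤ ε * H ^ 2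

open Classical in
/-- the sums over a residue class -/
noncomputable def clS (f : ℕ → ℂ) (D : ℕ) (b : G) (X : ℝ) : ℂ := ∑ z ∈ (V X).filter (fun z => cg D z b), f (nm z)

/-- the sums over the residue classes are small -/
def CSX (f : ℝ → ℕ → ℂ) : Prop :=
  ∀ D : ℕ, 0 < D → ∀ b : G, ∀ a : ℝ, 0 < a → Tendsto (fun X : ℝ => clS (f (a * X)) D b X / X) atTop (nhds 0)

/-! ### The family -/

/-- `w ^ Ω(n)` times `gx` on the numbers coprime to `R`, zero otherwise -/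
noncomputable def fx (R : ℕ) (w : ℂ) (φ : ℝ → ℂ) (X : ℝ) (n : ℕ) : ℂ :=
  if n = 0 ∨ ¬ n.Coprime R then 0 else w ^ ArithmeticFunction.cardFactors n * gx φ X n

/-! ### Simple facts -/

theorem FX.conj {f : ℝ → ℕ → ℂ} {E : Finset ℕ} {ω : ℂ} (h : FX f E ω) :
    FX (fun X n => (starRingEnd ℂ) (f X n)) E ((starRingEnd ℂ) ω) := by
  refine ⟨fun X m n => ?_, fun X n => ?_, fun T => ?_⟩
  · rw [h.mul, map_mul]
  · rw [RCLike.norm_conj]
    exact h.bd X n
  · filter_upwards [h.pr T] with X hX p h1 h2 h3 h4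
    rw [hX p h1 h2 h3 h4]

theorem FX.dil {f : ℝ → ℕ → ℂ} {E : Finset ℕ} {ω : ℂ} (h : FX f E ω) {a : ℝ} (ha : 0 < a) :
    FX (fun X => f (a * X)) E ω :=
  ⟨fun X => h.mul (a * X), fun X => h.bd (a * X),
    fun T => (tendsto_id.const_mul_atTop ha).eventually (h.pr T)⟩

end Pool.Agent.LPr

end

/-! ### from `Lib_MP_f1a94e_eq.ArcPair` -/

section

/-!
# Piece ARCPAIR: pairs of primitive vectors at a small angle
-/

set_option autoImplicit false

namespace Pool.Agent.OmEq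

open Finset Pool.Agent.GaussMR Pool.Agent.OmAll MeasureTheory Filter

open Classical in
theorem arcpair_split {D : ℕ} (hD : 0 < D) (S : Finset G) (g : G → ℂ) :
    ∑ z ∈ S, g z = ∑ b ∈ mrpoR D, ∑ z ∈ S.filter (fun z => cg D z b), g z := by
  have h := mrpo_split hD S (fun _ => True) (fun _ _ _ h => h) g
  simpa only [filter_true] using h

open Classical in
theorem arcpair_split2 {D : ℕ} (hD : 0 < D) (S : Finset G) (κ : G → G → ℂ)
    (hper : ∀ V V' U U', cg D V U → cg D V' U' → κ V V' = κ U U') (a : G → G → ℂ) :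
    ∑ V ∈ S, ∑ V' ∈ S, κ V V' * a V V' = ∑ b ∈ mrpoR D, ∑ b' ∈ mrpoR D, κ b b' *
      ∑ V ∈ S.filter (fun z => cg D z b), ∑ V' ∈ S.filter (fun z => cg D z b'), a V V' := by
  rw [arcpair_split hD]
  apply sum_congr rfl
  intro b _
  have h1 : ∀ V ∈ S.filter (fun z => cg D z b), ∑ V' ∈ S, κ V V' * a V V' =
      ∑ b' ∈ mrpoR D, κ b b' * ∑ V' ∈ S.filter (fun z => cg D z b'), a V V' := by
    intro V hV
    rw [mem_filter] at hV
    rw [arcpair_split hD]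
    apply sum_congr rfl
    intro b' _
    rw [mul_sum]
    apply sum_congr rfl
    intro V' hV'
    rw [mem_filter] at hV'
    rw [hper V V' b b' hV.2 hV'.2]
  rw [sum_congr rfl h1, sum_comm]
  apply sum_congr rfl
  intro b' _
  rw [mul_sum]

open Classical in
theorem arcpair_cell {C0 Y : ℝ} (hC0 : 0 < C0) (hY : 0 < Y) {I i : ℕ} (hi : i < I) (Q : G → Prop) (g : G → ℂ) :
    ∑ z ∈ (PV (C0 * Y)).filter Q, g z * ((cell C0 I i (nm z / Y) : ℝ) : ℂ) =
      ∑ z ∈ (PV (C0 * Y * ((i + 1 : ℕ) : ℝ) / I)).filter Q, g z - ∑ z ∈ (PV (C0 * Y * ((i : ℕ) : ℝ) / I)).filter Q, g z := by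
  have hI : (0 : ℝ) < I := by exact_mod_cast (Nat.zero_le i).trans_lt hi
  have hX : ∀ k : ℕ, k ≤ I → (PV (C0 * Y * (k : ℝ) / I)).filter Q =
      ((PV (C0 * Y)).filter Q).filter (fun z => (nm z : ℝ) ≤ C0 * Y * (k : ℝ) / I) := by
    intro k hk
    have hk' : (k : ℝ) ≤ I := by exact_mod_cast hk
    have h1 : C0 * Y * (k : ℝ) / I ≤ C0 * Y := by
      rw [div_le_iff₀ hI]
      exact mul_le_mul_of_nonneg_left hk' (by positivity)
    ext z
    simp only [mem_filter, mem_PV]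
    constructor
    · rintro ⟨⟨h2, h3⟩, h4⟩
      exact ⟨⟨⟨h2.trans h1, h3⟩, h4⟩, h2⟩
    · rintro ⟨⟨⟨h2, h3⟩, h4⟩, h5⟩
      exact ⟨⟨h5, h3⟩, h4⟩
  rw [hX (i + 1) hi, hX i hi.le, sum_filter (s := (PV (C0 * Y)).filter Q),
    sum_filter (s := (PV (C0 * Y)).filter Q), ← sum_sub_distrib]
  apply sum_congr rfl
  intro z _
  have e1 : C0 * i / I < (nm z : ℝ) / Y ↔ ¬ (nm z : ℝ) ≤ C0 * Y * (i : ℝ) / I := by
    rw [not_le, div_lt_div_iff₀ hI hY, div_lt_iff₀ hI]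
    constructor <;> intro h <;> linarith
  have e2 : (nm z : ℝ) / Y ≤ C0 * (i + 1) / I ↔ (nm z : ℝ) ≤ C0 * Y * ((i + 1 : ℕ) : ℝ) / I := by
    rw [div_le_div_iff₀ hY hI, le_div_iff₀ hI]
    push_cast
    constructor <;> intro h <;> linarith
  have e3 : (nm z : ℝ) ≤ C0 * Y * (i : ℝ) / I → (nm z : ℝ) ≤ C0 * Y * ((i + 1 : ℕ) : ℝ) / I := by
    intro h
    refine h.trans ?_
    push_cast
    apply div_le_div_of_nonneg_right _ hI.le
    have : 0 < C0 * Y := by positivity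
    nlinarith
  unfold cell
  by_cases h1 : (nm z : ℝ) ≤ C0 * Y * (i : ℝ) / I
  · rw [if_neg (fun h => (e1.1 h.1) h1), if_pos (e3 h1), if_pos h1]
    simp
  · by_cases h2 : (nm z : ℝ) ≤ C0 * Y * ((i + 1 : ℕ) : ℝ) / I
    · rw [if_pos ⟨e1.2 h1, e2.2 h2⟩, if_pos h2, if_neg h1]
      simp
    · rw [if_neg (fun h => h2 (e2.1 h.2)), if_neg h2, if_neg h1]
      simp

open Classical in
theorem arcpair_cells {C0 Y : ℝ} (hC0 : 0 < C0) (hY : 0 < Y) {I i j : ℕ} (hi : i < I) (hj : j < I)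
    (Q Q' : G → Prop) (a : G → G → ℂ) (E : ℝ)
    (hE : ∀ k k' : ℕ, k ≤ I → k' ≤ I → ‖∑ V ∈ (PV (C0 * Y * (k : ℝ) / I)).filter Q,
      ∑ V' ∈ (PV (C0 * Y * (k' : ℝ) / I)).filter Q', a V V'‖ ≤ E) :
    ‖∑ V ∈ (PV (C0 * Y)).filter Q, ∑ V' ∈ (PV (C0 * Y)).filter Q',
      a V V' * ((cell C0 I j (nm V' / Y) : ℝ) : ℂ) * ((cell C0 I i (nm V / Y) : ℝ) : ℂ)‖ ≤ 4 * E := by
  have h1 : ∀ V : G, ∑ V' ∈ (PV (C0 * Y)).filter Q',
      a V V' * ((cell C0 I j (nm V' / Y) : ℝ) : ℂ) * ((cell C0 I i (nm V / Y) : ℝ) : ℂ) =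
      (∑ V' ∈ (PV (C0 * Y * ((j + 1 : ℕ) : ℝ) / I)).filter Q', a V V' -
        ∑ V' ∈ (PV (C0 * Y * ((j : ℕ) : ℝ) / I)).filter Q', a V V') * ((cell C0 I i (nm V / Y) : ℝ) : ℂ) := by
    intro V
    rw [← arcpair_cell hC0 hY hj, sum_mul]
  simp only [h1]
  rw [arcpair_cell hC0 hY hi, sum_sub_distrib, sum_sub_distrib]
  have a1 := hE (i + 1) (j + 1) hi hj
  have a2 := hE (i + 1) j hi hj.le
  have a3 := hE i (j + 1) hi.le hj
  have a4 := hE i j hi.le hj.le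
  refine (norm_sub_le _ _).trans ?_
  refine (add_le_add (norm_sub_le _ _) (norm_sub_le _ _)).trans ?_
  linarith

theorem arcpair_prim0 : ¬ Prim (0 : G) := by
  rintro ⟨a, b, hab⟩
  simp at hab

theorem arcpair_PV0 : PV 0 = ∅ := by
  rw [eq_empty_iff_forall_notMem]
  intro z hz
  rw [mem_PV] at hz
  have h1 : nm z = 0 := by
    have : (nm z : ℝ) ≤ 0 := hz.1
    exact_mod_cast le_antisymm this (Nat.cast_nonneg _)
  rw [nm_eq_zero] at h1
  have h2 := hz.2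
  rw [h1] at h2
  exact arcpair_prim0 h2

theorem arcpair_pos {X : ℝ} {z : G} (hz : z ∈ PV X) : 0 < nm z := by
  rw [mem_PV] at hz
  apply nm_pos
  rintro rfl
  exact arcpair_prim0 hz.2

open Classical in
/-- bound for one triple of cells -/
theorem arcpair_term (f : ℕ → ℂ) (D : ℕ) (hD : 0 < D) (κ : G → G → ℂ)
    (hκ : ∀ V V', ‖κ V V'‖ ≤ 2) (hper : ∀ V V' U U', cg D V U → cg D V' U' → κ V V' = κ U U')
    {C0 Y N A δ : ℝ} (hC0 : 0 < C0) (hY : 0 < Y) (hN : 0 < N) {I i j l : ℕ} (hi : i < I) (hj : j < I)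
    (hδ : δ = N / (I * Y)) (hl : ((l : ℝ) + 1) * δ < Real.pi) (hA : 0 ≤ A)
    (hS : ∀ b ∈ mrpoR D, ∀ k ∈ Icc 1 I,
      ∫ θ in (0 : ℝ)..(2 * Real.pi), ‖Sp f D b (C0 * Y * (k : ℝ) / I) δ θ‖ ^ 2 ≤ A) :
    ‖∑ V ∈ PV (C0 * Y), ∑ V' ∈ PV (C0 * Y), κ V V' * (f (nm V) * (starRingEnd ℂ) (f (nm V'))) *
      ((cell C0 I i (nm V / Y) * cell C0 I j (nm V' / Y) * max 0 (1 - |I * (Y * ang V V' / N) - l|) : ℝ) : ℂ)‖ ≤
      8 * ((D : ℝ) ^ 4) * (A / δ) := by
  have hI : (0 : ℝ) < I := by exact_mod_cast (Nat.zero_le i).trans_lt hi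
  have hδ0 : 0 < δ := by
    rw [hδ]
    positivity
  have hAδ : 0 ≤ A / δ := by positivity
  have e0 : ∀ V V' : G, κ V V' * (f (nm V) * (starRingEnd ℂ) (f (nm V'))) *
      ((cell C0 I i (nm V / Y) * cell C0 I j (nm V' / Y) * max 0 (1 - |I * (Y * ang V V' / N) - l|) : ℝ) : ℂ) =
      κ V V' * (f (nm V) * (starRingEnd ℂ) (f (nm V')) * ((max 0 (1 - |ang V V' / δ - l|) : ℝ) : ℂ) *
        ((cell C0 I j (nm V' / Y) : ℝ) : ℂ) * ((cell C0 I i (nm V / Y) : ℝ) : ℂ)) := by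
    intro V V'
    have e1 : (I : ℝ) * (Y * ang V V' / N) = ang V V' / δ := by
      rw [hδ]
      field_simp
    rw [e1]
    push_cast
    ring
  simp only [e0]
  rw [arcpair_split2 hD _ κ hper]
  have hcard : ((mrpoR D).card : ℝ) ≤ (D : ℝ) * D := by exact_mod_cast mrpo_card D
  have hterm : ∀ b ∈ mrpoR D, ∀ b' ∈ mrpoR D, ‖κ b b' * ∑ V ∈ (PV (C0 * Y)).filter (fun z => cg D z b),
      ∑ V' ∈ (PV (C0 * Y)).filter (fun z => cg D z b'),
        (f (nm V) * (starRingEnd ℂ) (f (nm V')) * ((max 0 (1 - |ang V V' / δ - l|) : ℝ) : ℂ) *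
        ((cell C0 I j (nm V' / Y) : ℝ) : ℂ) * ((cell C0 I i (nm V / Y) : ℝ) : ℂ))‖ ≤ 8 * (A / δ) := by
    intro b hb b' hb'
    rw [norm_mul]
    have h4 : ‖∑ V ∈ (PV (C0 * Y)).filter (fun z => cg D z b),
      ∑ V' ∈ (PV (C0 * Y)).filter (fun z => cg D z b'),
        (f (nm V) * (starRingEnd ℂ) (f (nm V')) * ((max 0 (1 - |ang V V' / δ - l|) : ℝ) : ℂ) *
        ((cell C0 I j (nm V' / Y) : ℝ) : ℂ) * ((cell C0 I i (nm V / Y) : ℝ) : ℂ))‖ ≤ 4 * (A / δ) := by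
      apply arcpair_cells hC0 hY hi hj (fun z => cg D z b) (fun z => cg D z b')
        (fun V V' => f (nm V) * (starRingEnd ℂ) (f (nm V')) * ((max 0 (1 - |ang V V' / δ - l|) : ℝ) : ℂ))
      intro k k' hk hk'
      rcases Nat.eq_zero_or_pos k with h0 | h0
      · rw [h0, Nat.cast_zero, mul_zero, zero_div, arcpair_PV0, filter_empty, sum_empty, norm_zero]
        exact hAδ
      · rcases Nat.eq_zero_or_pos k' with h0' | h0'
        · rw [h0', Nat.cast_zero, mul_zero, zero_div, arcpair_PV0, filter_empty]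
          simp only [sum_empty, sum_const_zero, norm_zero]
          exact hAδ
        · exact arc_bound f D b b' _ _ δ A hδ0 l hl (hS b hb k (mem_Icc.2 ⟨h0, hk⟩))
            (hS b' hb' k' (mem_Icc.2 ⟨h0', hk'⟩))
    calc _ ≤ 2 * (4 * (A / δ)) := mul_le_mul (hκ _ _) h4 (norm_nonneg _) (by norm_num)
      _ = 8 * (A / δ) := by ring
  refine (norm_sum_le _ _).trans ?_
  refine (sum_le_card_nsmul _ _ ((D : ℝ) * D * (8 * (A / δ))) (fun b hb => ?_)).trans ?_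
  · refine (norm_sum_le _ _).trans ?_
    refine (sum_le_card_nsmul _ _ (8 * (A / δ)) (fun b' hb' => hterm b hb b' hb')).trans ?_
    rw [nsmul_eq_mul]
    exact mul_le_mul_of_nonneg_right hcard (by positivity)
  · rw [nsmul_eq_mul]
    calc _ ≤ (D : ℝ) * D * ((D : ℝ) * D * (8 * (A / δ))) := mul_le_mul_of_nonneg_right hcard (by positivity)
      _ = 8 * ((D : ℝ) ^ 4) * (A / δ) := by ring

theorem arcpair_ev (f : ℕ → ℂ) (hM : MRP f) {D : ℕ} (hD : 0 < D) {C0 ε : ℝ} (hC0 : 0 < C0) (hε : 0 < ε) {I : ℕ}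
    (hI : 1 ≤ I) : ∀ᶠ N : ℕ in atTop, ∀ᶠ Y : ℝ in atTop, ∀ b ∈ mrpoR D, ∀ k ∈ Icc 1 I,
      ∫ θ in (0 : ℝ)..(2 * Real.pi), ‖Sp f D b (C0 * Y * (k : ℝ) / I) (N / (I * Y)) θ‖ ^ 2 ≤
        ε * ((N : ℝ) * C0 / I) ^ 2 := by
  have hI' : (0 : ℝ) < I := by exact_mod_cast hI
  have h1 : ∀ᶠ N : ℕ in atTop, ∀ b ∈ mrpoR D, ∀ k ∈ Icc 1 I, ∀ᶠ X : ℝ in atTop,
      ∫ θ in (0 : ℝ)..(2 * Real.pi), ‖Sp f D b X ((N * (C0 * k / (I * I))) / X) θ‖ ^ 2 ≤
        ε * ((N : ℝ) * (C0 * k / (I * I))) ^ 2 := by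
    rw [eventually_all_finset]
    intro b _
    rw [eventually_all_finset]
    intro k hk
    have hk1 : (1 : ℝ) ≤ k := by exact_mod_cast (mem_Icc.1 hk).1
    obtain ⟨H0, -, h⟩ := hM D hD b ε hε
    have ht : Tendsto (fun N : ℕ => (N : ℝ) * (C0 * k / (I * I))) atTop atTop :=
      tendsto_natCast_atTop_atTop.atTop_mul_const (by positivity)
    filter_upwards [ht.eventually_ge_atTop H0] with N hN
    obtain ⟨X0, hX0⟩ := h _ hN
    filter_upwards [eventually_ge_atTop X0] with X hX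
    exact hX0 X hX
  filter_upwards [h1] with N hN
  rw [eventually_all_finset]
  intro b hb
  rw [eventually_all_finset]
  intro k hk
  have hk1 : (1 : ℝ) ≤ k := by exact_mod_cast (mem_Icc.1 hk).1
  have hk2 : (k : ℝ) ≤ I := by exact_mod_cast (mem_Icc.1 hk).2
  have ht : Tendsto (fun Y : ℝ => C0 * Y * (k : ℝ) / I) atTop atTop := by
    have h3 : Tendsto (fun Y : ℝ => Y * (C0 * k / I)) atTop atTop := tendsto_id.atTop_mul_const (by positivity)
    refine h3.congr (fun Y => ?_)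
    ring
  filter_upwards [ht.eventually (hN b hb k hk), eventually_gt_atTop 0] with Y hY hY0
  have e1 : (N : ℝ) * (C0 * k / (I * I)) / (C0 * Y * (k : ℝ) / I) = N / (I * Y) := by
    field_simp
  rw [e1] at hY
  refine hY.trans (mul_le_mul_of_nonneg_left (pow_le_pow_left₀ (by positivity) ?_ 2) hε.le)
  rw [mul_div_assoc (N : ℝ)]
  refine mul_le_mul_of_nonneg_left ?_ (Nat.cast_nonneg _)
  rw [div_le_div_iff₀ (by positivity) hI']
  nlinarith [mul_le_mul_of_nonneg_left hk2 (by positivity : 0 ≤ C0 * I)]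

/-- PROOF. Given `ε`; `C` from `cntA (c0/2) C0 (B+1)`; `appG` with `ε1 = ε/(8 C)` (`‖κ‖ ≤ 2`): `I`. The difference of the sum and the sum with `F` replaced by its approximation (`x = nm V / Y`, `x' = nm V' / Y ∈ (0, C0]`, `σ = Y ang / N`) is at most
`2 ε1 C N Y ≤ ε N Y / 2` for `N ≥ 1` and large `Y`. The approximation: split into residue classes `b, b'` modulo `D` (representatives with coordinates in `[0, D)`), `κ V V' = κ b b'`; `cell C0 I i (nm V / Y) = 1_(nm V ≤ X_(i+1)) - 1_(nm V ≤ X_i)`, `X_i = C0 i Y / I`;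
`I σ - l = ang / δ - l` with `δ = N / (I Y)`. So it is a sum of at most `I^2 (⌈B⌉ I + 1) D^4 * 4` terms, each at most `2 sup|F|` times a sum as in `arc_bound` with radii `X_i, X_j` (`i, j ≥ 1`; for `i = 0` the ball is `{0}`, no primitive vectors). Let `ε2 > 0` be small. `MRP` with
`ε2` for the finitely many classes: `H0`. For `X = X_i`, `δ = H/X` with `H = N C0 i / I^2`, which is `≥ H0` for all `i ≥ 1` if `N ≥ N0`; for fixed `N` and large `Y` all the finitely many radii satisfy `X_i ≥ X0`, so the integrals are at most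
`A = ε2 (N C0 / I)^2`; `A/δ = ε2 C0^2 N Y / I`; also `(⌈B⌉ I + 2) δ < π` for large `Y`. Choose `ε2` so small that the total is `≤ ε N Y / 2`. -/
theorem arcpair (f : ℕ → ℂ) (hf : ∀ n, ‖f n‖ ≤ 1) (hM : MRP f) (D : ℕ) (hD : 0 < D) (κ : G → G → ℂ)
    (hκ : ∀ V V', ‖κ V V'‖ ≤ 2) (hper : ∀ V V' U U', cg D V U → cg D V' U' → κ V V' = κ U U')
    (c0 C0 B : ℝ) (hc0 : 0 < c0) (hC0 : c0 ≤ C0) (hB : 0 < B) (F : ℝ → ℝ → ℝ → ℝ)
    (hF : Continuous (fun v : ℝ × ℝ × ℝ => F v.1 v.2.1 v.2.2))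
    (h1 : ∀ x x' σ, x ≤ c0 ∨ x' ≤ c0 ∨ C0 ≤ x ∨ C0 ≤ x' ∨ σ ≤ 0 ∨ B ≤ σ → F x x' σ = 0) (ε : ℝ) (hε : 0 < ε) :
    ∃ N0 : ℕ, ∀ N : ℕ, N0 ≤ N → ∀ᶠ Y : ℝ in atTop,
      ‖∑ V ∈ PV (C0 * Y), ∑ V' ∈ PV (C0 * Y), κ V V' * (f (nm V) * (starRingEnd ℂ) (f (nm V'))) *
        ((F (nm V / Y) (nm V' / Y) (Y * ang V V' / N) : ℝ) : ℂ)‖ ≤ ε * N * Y := by
  classical
  have hC0' : 0 < C0 := hc0.trans_le hC0
  have hD' : (0 : ℝ) < D := by exact_mod_cast hD
  obtain ⟨C, hC, hcnt⟩ := cntA (c0 / 2) C0 (B + 1) (by linarith) (by linarith) (by linarith)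
  set ε1 : ℝ := ε / (4 * C) with hε1
  have hε1' : 0 < ε1 := by positivity
  obtain ⟨I, hI, happ⟩ := appG c0 C0 B hc0 hC0 hB F hF h1 ε1 hε1'
  have hI' : (0 : ℝ) < I := by exact_mod_cast hI
  set Q : Finset (ℕ × ℕ × ℕ) := range I ×ˢ range I ×ˢ range (⌈B⌉₊ * I + 1) with hQ
  set cc : ℕ × ℕ × ℕ → ℝ := fun q => F (C0 * q.1 / I) (C0 * q.2.1 / I) ((q.2.2 : ℝ) / I) with hcc
  set S : ℝ := ∑ q ∈ Q, |cc q| with hS
  have hS0 : 0 ≤ S := sum_nonneg fun _ _ => abs_nonneg _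
  set ε2 : ℝ := ε / (16 * (S + 1) * D ^ 4 * C0 ^ 2) with hε2
  have hε2' : 0 < ε2 := by positivity
  obtain ⟨N0, hN0⟩ := eventually_atTop.1 (arcpair_ev f hM hD hC0' hε2' hI)
  refine ⟨max N0 1, fun N hN => ?_⟩
  have hN1 : 1 ≤ N := (le_max_right _ _).trans hN
  have hNr : (0 : ℝ) < N := by exact_mod_cast hN1
  have hδlim : Tendsto (fun Y : ℝ => ((⌈B⌉₊ * I + 1 : ℕ) + 1 : ℝ) * (N / (I * Y))) atTop (nhds 0) := by
    have h3 : Tendsto (fun Y : ℝ => (((⌈B⌉₊ * I + 1 : ℕ) + 1 : ℝ) * N / I) / Y) atTop (nhds 0) :=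
      tendsto_const_nhds.div_atTop tendsto_id
    refine h3.congr (fun Y => ?_)
    ring
  filter_upwards [hN0 N ((le_max_left _ _).trans hN), hcnt N hN1, eventually_gt_atTop 0,
    hδlim.eventually_lt_const Real.pi_pos] with Y hY1 hY2 hY0 hY3
  set δ : ℝ := N / (I * Y) with hδ
  have hδ0 : 0 < δ := by positivity
  set P := PV (C0 * Y) with hP
  set w : G → G → ℂ := fun V V' => f (nm V) * (starRingEnd ℂ) (f (nm V')) with hw
  have hwb : ∀ V V', ‖w V V'‖ ≤ 1 := by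
    intro V V'
    rw [hw]
    dsimp only
    rw [norm_mul, RCLike.norm_conj]
    exact mul_le_one₀ (hf _) (norm_nonneg _) (hf _)
  set u : ℕ × ℕ × ℕ → G → G → ℝ := fun q V V' => cell C0 I q.1 (nm V / Y) * cell C0 I q.2.1 (nm V' / Y) *
    max 0 (1 - |I * (Y * ang V V' / N) - q.2.2|) with hu
  set Ap : G → G → ℝ := fun V V' => ∑ q ∈ Q, cc q * u q V V' with hAp
  have hap : ∀ V ∈ P, ∀ V' ∈ P, |F (nm V / Y) (nm V' / Y) (Y * ang V V' / N) - Ap V V'| ≤
      if c0 / 2 * Y ≤ nm V ∧ c0 / 2 * Y ≤ nm V' ∧ |ang V V'| ≤ (B + 1) * N / Y then ε1 else 0 := by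
    intro V hV V' hV'
    have hVp := arcpair_pos hV
    have hVp' := arcpair_pos hV'
    rw [hP, mem_PV] at hV hV'
    have a1 : (0 : ℝ) < nm V / Y := by
      have : (0 : ℝ) < nm V := by exact_mod_cast hVp
      positivity
    have a2 : (0 : ℝ) < nm V' / Y := by
      have : (0 : ℝ) < nm V' := by exact_mod_cast hVp'
      positivity
    have a3 : (nm V : ℝ) / Y ≤ C0 := by
      rw [div_le_iff₀ hY0]
      exact hV.1
    have a4 : (nm V' : ℝ) / Y ≤ C0 := by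
      rw [div_le_iff₀ hY0]
      exact hV'.1
    have h3 := happ _ _ (Y * ang V V' / N) a1 a3 a2 a4
    have e1 : Ap V V' = ∑ i ∈ range I, ∑ j ∈ range I, ∑ l ∈ range (⌈B⌉₊ * I + 1),
        F (C0 * i / I) (C0 * j / I) ((l : ℝ) / I) * cell C0 I i (nm V / Y) * cell C0 I j (nm V' / Y) *
          max 0 (1 - |I * (Y * ang V V' / N) - l|) := by
      rw [hAp]
      dsimp only
      rw [hQ, sum_product]
      apply sum_congr rfl
      intro i _
      rw [sum_product]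
      apply sum_congr rfl
      intro j _
      apply sum_congr rfl
      intro l _
      rw [hcc, hu]
      dsimp only
      ring
    rw [e1]
    refine h3.trans ?_
    split_ifs with b1 b2 b3
    · exact le_rfl
    · exfalso
      apply b2
      obtain ⟨c1, c2, c3⟩ := b1
      rw [le_div_iff₀ hY0] at c1 c2
      refine ⟨c1, c2, ?_⟩
      rw [abs_div, abs_mul, abs_of_pos hY0, abs_of_pos hNr, div_le_iff₀ hNr] at c3
      rw [le_div_iff₀ hY0]
      linarith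
    · exact hε1'.le
    · exact le_rfl
  -- first part
  have hfirst : ‖∑ V ∈ P, ∑ V' ∈ P, κ V V' * w V V' *
      (((F (nm V / Y) (nm V' / Y) (Y * ang V V' / N) : ℝ) : ℂ) - ((Ap V V' : ℝ) : ℂ))‖ ≤ ε / 2 * N * Y := by
    have e1 : ∀ V ∈ P, ∀ V' ∈ P, ‖κ V V' * w V V' *
        (((F (nm V / Y) (nm V' / Y) (Y * ang V V' / N) : ℝ) : ℂ) - ((Ap V V' : ℝ) : ℂ))‖ ≤
        2 * (if c0 / 2 * Y ≤ nm V ∧ c0 / 2 * Y ≤ nm V' ∧ |ang V V'| ≤ (B + 1) * N / Y then ε1 else 0) := by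
      intro V hV V' hV'
      rw [← Complex.ofReal_sub, norm_mul, Complex.norm_real, Real.norm_eq_abs, norm_mul]
      have h3 := hap V hV V' hV'
      have h4 : ‖κ V V'‖ * ‖w V V'‖ ≤ 2 := by
        have := mul_le_mul (hκ V V') (hwb V V') (norm_nonneg _) (by norm_num)
        linarith
      exact mul_le_mul h4 h3 (abs_nonneg _) (by norm_num)
    refine (norm_sum_le _ _).trans ?_
    refine (sum_le_sum fun V hV => (norm_sum_le _ _).trans (sum_le_sum fun V' hV' => e1 V hV V' hV')).trans ?_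
    rw [← sum_product' P P (fun V V' => 2 * (if c0 / 2 * Y ≤ (nm V : ℝ) ∧ c0 / 2 * Y ≤ (nm V' : ℝ) ∧
      |ang V V'| ≤ (B + 1) * N / Y then ε1 else 0)), ← mul_sum, ← sum_filter, sum_const, nsmul_eq_mul]
    have h5 : 2 * (C * N * Y * ε1) = ε / 2 * N * Y := by
      rw [hε1]
      field_simp
      ring
    rw [← h5]
    refine mul_le_mul_of_nonneg_left (mul_le_mul_of_nonneg_right ?_ hε1'.le) (by norm_num)
    refine le_trans (le_of_eq ?_) hY2
    congr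
  -- second part
  have hsecond : ‖∑ V ∈ P, ∑ V' ∈ P, κ V V' * w V V' * ((Ap V V' : ℝ) : ℂ)‖ ≤ ε / 2 * N * Y := by
    have e1 : ∑ V ∈ P, ∑ V' ∈ P, κ V V' * w V V' * ((Ap V V' : ℝ) : ℂ) =
        ∑ q ∈ Q, ((cc q : ℝ) : ℂ) * ∑ V ∈ P, ∑ V' ∈ P, κ V V' * w V V' * ((u q V V' : ℝ) : ℂ) := by
      have e2 : ∀ V V' : G, κ V V' * w V V' * ((Ap V V' : ℝ) : ℂ) =
          ∑ q ∈ Q, ((cc q : ℝ) : ℂ) * (κ V V' * w V V' * ((u q V V' : ℝ) : ℂ)) := by
        intro V V'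
        rw [hAp]
        dsimp only
        rw [Complex.ofReal_sum, mul_sum]
        apply sum_congr rfl
        intro q _
        rw [Complex.ofReal_mul]
        ring
      simp only [e2, mul_sum]
      rw [sum_congr rfl (fun V _ => sum_comm), sum_comm]
    rw [e1]
    refine (norm_sum_le _ _).trans ?_
    set A : ℝ := ε2 * ((N : ℝ) * C0 / I) ^ 2 with hA
    have hA0 : 0 ≤ A := by positivity
    have e3 : ∀ q ∈ Q, ‖((cc q : ℝ) : ℂ) * ∑ V ∈ P, ∑ V' ∈ P, κ V V' * w V V' * ((u q V V' : ℝ) : ℂ)‖ ≤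
        |cc q| * (8 * ((D : ℝ) ^ 4) * (A / δ)) := by
      intro q hq
      rw [hQ, mem_product, mem_product, mem_range, mem_range, mem_range] at hq
      rw [norm_mul, Complex.norm_real, Real.norm_eq_abs]
      refine mul_le_mul_of_nonneg_left ?_ (abs_nonneg _)
      refine arcpair_term f D hD κ hκ hper hC0' hY0 hNr hq.1 hq.2.1 hδ ?_ hA0 hY1
      refine lt_of_le_of_lt ?_ hY3
      refine mul_le_mul_of_nonneg_right ?_ hδ0.le
      have : (q.2.2 : ℝ) ≤ (⌈B⌉₊ * I + 1 : ℕ) := by exact_mod_cast hq.2.2.le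
      linarith
    refine (sum_le_sum e3).trans ?_
    rw [← sum_mul, ← hS]
    have e4 : A / δ = ε2 * C0 ^ 2 * N * Y / I := by
      rw [hA, hδ]
      field_simp
    rw [e4]
    have e5 : 8 * (D : ℝ) ^ 4 * (ε2 * C0 ^ 2 * N * Y / I) ≤ 8 * (D : ℝ) ^ 4 * (ε2 * C0 ^ 2 * N * Y) := by
      refine mul_le_mul_of_nonneg_left ?_ (by positivity)
      apply div_le_self (by positivity)
      exact_mod_cast hI
    have e6 : (S + 1) * (8 * (D : ℝ) ^ 4 * (ε2 * C0 ^ 2 * N * Y)) = ε / 2 * N * Y := by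
      rw [hε2]
      field_simp
      ring
    rw [← e6]
    exact mul_le_mul (by linarith) e5 (by positivity) (by linarith)
  have hsum : ∑ V ∈ P, ∑ V' ∈ P, κ V V' * (f (nm V) * (starRingEnd ℂ) (f (nm V'))) *
        ((F (nm V / Y) (nm V' / Y) (Y * ang V V' / N) : ℝ) : ℂ) =
      ∑ V ∈ P, ∑ V' ∈ P, κ V V' * w V V' *
        (((F (nm V / Y) (nm V' / Y) (Y * ang V V' / N) : ℝ) : ℂ) - ((Ap V V' : ℝ) : ℂ)) +
      ∑ V ∈ P, ∑ V' ∈ P, κ V V' * w V V' * ((Ap V V' : ℝ) : ℂ) := by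
    rw [← sum_add_distrib]
    apply sum_congr rfl
    intro V _
    rw [← sum_add_distrib]
    apply sum_congr rfl
    intro V' _
    rw [hw]
    dsimp only
    ring
  rw [hsum]
  refine (norm_add_le _ _).trans ((add_le_add hfirst hsecond).trans (le_of_eq ?_))
  ring

end Pool.Agent.OmEq

end

/-! ### from `Lib_MP_f1a94e_ecc.SmallM` -/

section

/-!
# from one stage to the next (port to complex completely multiplicative functions)
-/

set_option autoImplicit false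

namespace Pool.Agent.GaussCM

open Pool.Agent.GaussMR

/-- second moment of `(U_w)^l fcC`, explicit dependence on `l` -/
theorem sM_moment : ∃ C : ℝ, 0 < C ∧ ∀ (l : ℕ) (F : G → ℂ), CM F →
    ∀ (P Q ρ X' Y : ℝ) (T w : ℕ), 0 < ρ → ρ ≤ 1 → 0 ≤ X' → 1 ≤ Y →
    Real.exp ((w + 1) * ρ) ^ l * X' ≤ Y →
    ∑ k ∈ fr T, ‖UC F P Q ρ w k ^ l * fcC F X' k‖ ^ 2 ≤
      C * (144 * ((l : ℝ) + 1)) ^ l * (T + Y) * (Real.exp (w * ρ) ^ l * X') := by
  obtain ⟨C1, hC1, h1⟩ := large_sieve_fam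
  refine ⟨C1 * 9, by positivity, ?_⟩
  intro l F hF P Q ρ X' Y T w hρ hρ1 hX' hY hle
  have h2 := pairsX l
  classical
  set s : Finset ((Fin l → G) × G) :=
    (Fintype.piFinset fun _ : Fin l => blk P Q ρ w) ×ˢ V X' with hs
  have hmem : ∀ i ∈ s, (∀ j, i.1 j ∈ blk P Q ρ w) ∧ i.2 ∈ V X' := by
    intro i hi
    rw [hs, Finset.mem_product, Fintype.mem_piFinset] at hi
    exact hi
  have hid : ∀ k : ℤ, UC F P Q ρ w k ^ l * fcC F X' k =
      ∑ i ∈ s, ((∏ j, F (i.1 j)) * F i.2) * xi (-k) ((∏ j, i.1 j) * i.2) := by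
    intro k
    have e1 : UC F P Q ρ w k ^ l = ∑ x ∈ Fintype.piFinset (fun _ : Fin l => blk P Q ρ w),
        ∏ j, (F (x j) * xi (-k) (x j)) := by
      have := Finset.prod_univ_sum (fun _ : Fin l => blk P Q ρ w)
        (fun _ (u : G) => F u * xi (-k) u)
      rw [← this, Finset.prod_const, Finset.card_univ, Fintype.card_fin]
      rfl
    rw [e1, hs, Finset.sum_product]
    unfold fcC
    rw [Finset.sum_mul_sum]
    refine Finset.sum_congr rfl fun x _ => Finset.sum_congr rfl fun z _ => ?_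
    dsimp only
    rw [xi_mul, s2_xi_prod, Finset.prod_mul_distrib]
    ring
  have hodd : ∀ i ∈ s, ∀ j, Odd (nm (i.1 j)) := fun i hi j =>
    s2_odd_PP (s2_mem_blk ((hmem i hi).1 j)).1
  have hc : ∀ i ∈ s, ‖(∏ j, F (i.1 j)) * F i.2‖ ≤ 1 := by
    intro i hi
    rw [norm_mul, norm_prod]
    exact mul_le_one₀ (Finset.prod_le_one (fun _ _ => norm_nonneg _)
      fun j _ => hF.norm (hodd i hi j)) (norm_nonneg _) (hF.norm (mem_V.1 (hmem i hi).2).2.1)
  have hg : ∀ i ∈ s, Odd (nm ((∏ j, i.1 j) * i.2)) ∧ (nm ((∏ j, i.1 j) * i.2) : ℝ) ≤ Y := by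
    intro i hi
    constructor
    · rw [odd_nm_mul]
      refine ⟨?_, (mem_V.1 (hmem i hi).2).2.1⟩
      rw [s2_nm_prod]
      exact Finset.prod_induction _ Odd (fun a b => Odd.mul) odd_one fun j _ => hodd i hi j
    · rw [nm_mul, s2_nm_prod]
      push_cast
      refine le_trans ?_ hle
      refine mul_le_mul ?_ (mem_V.1 (hmem i hi).2).1 (Nat.cast_nonneg _) (by positivity)
      refine (Finset.prod_le_prod (fun j _ => Nat.cast_nonneg _)
        (fun j _ => (s2_mem_blk ((hmem i hi).1 j)).2.2)).trans ?_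
      rw [Finset.prod_const, Finset.card_univ, Fintype.card_fin]
  have h3 := h1 _ s (fun i => (∏ j, i.1 j) * i.2) (fun i => (∏ j, F (i.1 j)) * F i.2)
    Y T hY hc hg
  have h4 := h2 P Q (Real.exp (w * ρ)) X' (blk P Q ρ w)
    (fun u hu => (s2_mem_blk hu).1) (Real.one_le_exp (by positivity)) hX' (by
      intro u hu
      have hu' := (s2_mem_blk hu).2
      refine ⟨hu'.1, hu'.2.trans ?_⟩
      have : Real.exp ((w + 1) * ρ) = Real.exp ρ * Real.exp (w * ρ) := by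
        rw [← Real.exp_add]
        congr 1
        ring
      rw [this]
      have h5 : Real.exp ρ ≤ 3 :=
        (Real.exp_le_exp.2 hρ1).trans (by linarith [Real.exp_one_lt_d9])
      exact mul_le_mul_of_nonneg_right h5 (Real.exp_pos _).le)
  have hset : {p : ((Fin l → G) × G) × ((Fin l → G) × G) | p.1 ∈ s ∧ p.2 ∈ s ∧
      pr ((∏ j, p.1.1 j) * p.1.2) = pr ((∏ j, p.2.1 j) * p.2.2)} =
      {q : ((Fin l → G) × G) × ((Fin l → G) × G) |
      (∀ i, q.1.1 i ∈ blk P Q ρ w) ∧ q.1.2 ∈ V X' ∧ (∀ i, q.2.1 i ∈ blk P Q ρ w) ∧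
      q.2.2 ∈ V X' ∧ pr ((∏ i, q.1.1 i) * q.1.2) = pr ((∏ i, q.2.1 i) * q.2.2)} := by
    ext q
    simp only [Set.mem_setOf_eq, hs, Finset.mem_product, Fintype.mem_piFinset]
    tauto
  rw [hset] at h3
  calc ∑ k ∈ fr T, ‖UC F P Q ρ w k ^ l * fcC F X' k‖ ^ 2
      = ∑ k ∈ fr T, ‖∑ i ∈ s, ((∏ j, F (i.1 j)) * F i.2) *
          xi (-k) ((∏ j, i.1 j) * i.2)‖ ^ 2 := by
        refine Finset.sum_congr rfl fun k _ => ?_
        rw [hid k]
    _ ≤ C1 * (T + Y) * (9 * (144 * ((l : ℝ) + 1)) ^ l * Real.exp (w * ρ) ^ l * X') := by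
        refine h3.trans ?_
        refine mul_le_mul_of_nonneg_left h4 ?_
        have : (0 : ℝ) ≤ T := Nat.cast_nonneg _
        have : 0 ≤ T + Y := by linarith
        positivity
    _ = C1 * 9 * (144 * ((l : ℝ) + 1)) ^ l * (T + Y) * (Real.exp (w * ρ) ^ l * X') := by ring

theorem s2_blk_ne {F : G → ℂ} {P Q ρ : ℝ} {v : ℕ} {k : ℤ} (h : UC F P Q ρ v k ≠ 0) :
    P < Real.exp ((v + 1) * ρ) ∧ Real.exp (v * ρ) < Q := by
  unfold UC at h
  obtain ⟨u, hu, -⟩ := Finset.exists_ne_zero_of_sum_ne_zero h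
  have h1 := s2_mem_blk hu
  have h2 := s2_mem_PP h1.1
  exact ⟨h2.2.1.trans_le h1.2.2, h1.2.1.trans_le h2.1⟩

/-- Same proof as `small2` (Lib_MP_f1a94e_mr/Small2.lean), with two block lengths `ρ1, ρ2`, with
`pairsX` in place of `pairsU` (so `s2_moment l` holds with the constant `C1 * 9 * (144 (l+1)) ^ l`,
`C1` from `large_sieve_fam`), and `l = ⌊v ρ2 / (w ρ1)⌋ + 1`, so that
`v ρ2 ≤ l w ρ1 ≤ v ρ2 + w ρ1` and `l ≤ 2 log Q2 / log P1 + 1 ≤ l0 + 1`. -/
theorem smallM : ∃ C : ℝ, 0 < C ∧ ∀ (F : G → ℂ), CM F →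
    ∀ (P1 Q1 P2 Q2 ρ1 ρ2 X α1 α2 l0 : ℝ) (T : ℕ) (S : Finset ℤ),
    Real.exp 2 ≤ P1 → P1 ≤ Q1 → Q1 ≤ X → 1 ≤ P2 → P2 ≤ Q2 → Q2 ≤ X → 1 ≤ l0 →
    2 * Real.log Q2 ≤ l0 * Real.log P1 →
    0 < ρ1 → ρ1 ≤ 1 → 0 < ρ2 → ρ2 ≤ 1 → 0 ≤ α1 → α1 ≤ α2 → α2 ≤ 1 → (T : ℝ) ≤ X → S ⊆ fr T →
    (∀ k ∈ S, ∃ w : ℕ, Real.exp ((1 - α1) * (w * ρ1)) < ‖UC F P1 Q1 ρ1 w k‖) →
    (∀ k ∈ S, ∀ v : ℕ, ‖UC F P2 Q2 ρ2 v k‖ ≤ Real.exp ((1 - α2) * (v * ρ2))) →
    ∑ k ∈ S, ‖UZC F P2 Q2 ρ2 X k‖ ^ 2 ≤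
      X ^ 2 * (Real.log Q2 / ρ2 + 1) ^ 2 * (Real.log Q1 / ρ1 + 1) * Q1 ^ 2 *
        Real.exp (C * (l0 + 2) * Real.log (l0 + 2)) * P2 ^ (-(2 * (α2 - α1))) := by
  obtain ⟨C1, hC10, hC1⟩ := sM_moment
  refine ⟨|Real.log C1| + 12, by positivity, ?_⟩
  intro F hF P1 Q1 P2 Q2 ρ1 ρ2 X α1 α2 l0 T S hP1 hPQ1 hQ1X hP2 hPQ2 hQX hl0 hlog hρ1 hρ11 hρ2 hρ21
    hα1 hα12 hα2 hTX hST hw hv
  set E : ℝ := Real.exp (l0 + 1) with hE
  have hEpos : 0 < E := Real.exp_pos _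
  have he2 : (1 : ℝ) ≤ Real.exp 2 := Real.one_le_exp (by norm_num)
  have hP1' : 1 ≤ P1 := he2.trans hP1
  have hQ1' : 1 ≤ Q1 := hP1'.trans hPQ1
  have hQ2' : 1 ≤ Q2 := hP2.trans hPQ2
  have hX' : 1 ≤ X := hQ2'.trans hQX
  have hlP1 : 2 ≤ Real.log P1 := by
    rw [Real.le_log_iff_exp_le (by linarith)]
    exact hP1
  have hlQ1 : 0 ≤ Real.log Q1 := Real.log_nonneg hQ1'
  have hlQ2 : 0 ≤ Real.log Q2 := Real.log_nonneg hQ2'
  set N : ℕ := nv Q2 ρ2 with hN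
  set M : ℕ := nv Q1 ρ1 with hM
  have hNle : (N : ℝ) ≤ Real.log Q2 / ρ2 + 1 := by
    rw [hN]
    unfold nv
    push_cast
    have := Nat.floor_le (div_nonneg hlQ2 hρ2.le)
    linarith
  have hMle : (M : ℝ) ≤ Real.log Q1 / ρ1 + 1 := by
    rw [hM]
    unfold nv
    push_cast
    have := Nat.floor_le (div_nonneg hlQ1 hρ1.le)
    linarith
  set R : ℝ := Real.exp ((|Real.log C1| + 12) * (l0 + 2) * Real.log (l0 + 2)) with hR
  have hRpos : 0 < R := Real.exp_pos _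
  set K : ℝ := R * X ^ 2 * Q1 ^ 2 * P2 ^ (-(2 * (α2 - α1))) with hK
  have hP2pow : 0 < P2 ^ (-(2 * (α2 - α1))) := Real.rpow_pos_of_pos (by linarith) _
  have hKpos : 0 < K := by positivity
  -- bound for one pair of blocks
  have hpair : ∀ v w : ℕ, (∃ k, UC F P2 Q2 ρ2 v k ≠ 0) → (∃ k, UC F P1 Q1 ρ1 w k ≠ 0) →
      ∀ S' : Finset ℤ, S' ⊆ fr T →
      (∀ k ∈ S', Real.exp ((1 - α1) * (w * ρ1)) < ‖UC F P1 Q1 ρ1 w k‖) →
      ∑ k ∈ S', Real.exp ((1 - α2) * (v * ρ2)) ^ 2 *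
        ‖fcC F (X * Real.exp (-(v * ρ2))) k‖ ^ 2 ≤ K := by
    rintro v w ⟨k2, hk2⟩ ⟨k1, hk1⟩ S' hS' hcond
    obtain ⟨a1, a2⟩ := s2_blk_ne hk2
    obtain ⟨b1, b2⟩ := s2_blk_ne hk1
    have a1' : Real.log P2 < (v + 1) * ρ2 := by
      rw [Real.log_lt_iff_lt_exp (by linarith)]
      exact a1
    have b1' : Real.log P1 < (w + 1) * ρ1 := by
      rw [Real.log_lt_iff_lt_exp (by linarith)]
      exact b1
    have a2' : v * ρ2 < Real.log Q2 := by
      rw [Real.lt_log_iff_exp_lt (by linarith)]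
      exact a2
    have hwρ : Real.log P1 / 2 < w * ρ1 := by linarith
    have hwρ0 : 0 < w * ρ1 := by linarith
    have hvρ0 : 0 ≤ v * ρ2 := by positivity
    have hq : v * ρ2 / (w * ρ1) ≤ l0 := by
      rw [div_le_iff₀ hwρ0]
      have h2 : l0 * (Real.log P1 / 2) ≤ l0 * (w * ρ1) :=
        mul_le_mul_of_nonneg_left hwρ.le (by linarith)
      linarith
    set l : ℕ := ⌊v * ρ2 / (w * ρ1)⌋₊ + 1 with hl
    have hlc : (l : ℝ) = (⌊v * ρ2 / (w * ρ1)⌋₊ : ℝ) + 1 := by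
      rw [hl]
      push_cast
      ring
    have hfl := Nat.floor_le (div_nonneg hvρ0 hwρ0.le)
    have hfl2 := Nat.lt_floor_add_one (v * ρ2 / (w * ρ1))
    have hl1' : (l : ℝ) ≤ l0 + 1 := by
      rw [hlc]
      linarith
    have hl2' : v * ρ2 ≤ l * (w * ρ1) := by
      rw [hlc, ← div_le_iff₀ hwρ0]
      exact hfl2.le
    have hl3' : l * (w * ρ1) ≤ v * ρ2 + w * ρ1 := by
      rw [hlc, add_mul, one_mul]
      have := (le_div_iff₀ hwρ0).1 hfl
      linarith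
    have hexpw : Real.exp (w * ρ1) ^ l * (X * Real.exp (-(v * ρ2))) ≤ Q1 * X := by
      have e1 : Real.exp (w * ρ1) ^ l * (X * Real.exp (-(v * ρ2))) =
          Real.exp (l * (w * ρ1) - v * ρ2) * X := by
        rw [← Real.exp_nat_mul, mul_left_comm, ← Real.exp_add, mul_comm]
        congr 2
      rw [e1]
      refine mul_le_mul_of_nonneg_right ?_ (by linarith)
      refine le_trans (Real.exp_le_exp.2 ?_) b2.le
      linarith
    have hexpY : Real.exp ((w + 1) * ρ1) ^ l * (X * Real.exp (-(v * ρ2))) ≤ E * Q1 * X := by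
      have e1 : Real.exp ((w + 1) * ρ1) ^ l * (X * Real.exp (-(v * ρ2))) =
          Real.exp (l * ρ1) * (Real.exp (w * ρ1) ^ l * (X * Real.exp (-(v * ρ2)))) := by
        have e2 : Real.exp ((w + 1) * ρ1) ^ l = Real.exp (l * ρ1) * Real.exp (w * ρ1) ^ l := by
          rw [← Real.exp_nat_mul, ← Real.exp_nat_mul, ← Real.exp_add]
          congr 1
          ring
        rw [e2, mul_assoc]
      rw [e1, mul_assoc E]
      refine mul_le_mul ?_ hexpw (by positivity) hEpos.le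
      rw [hE]
      refine Real.exp_le_exp.2 ?_
      calc (l : ℝ) * ρ1 ≤ l * 1 := mul_le_mul_of_nonneg_left hρ11 (Nat.cast_nonneg _)
        _ ≤ l0 + 1 := by linarith
    have hY1 : 1 ≤ E * Q1 * X := by
      have h1 : 1 ≤ E := Real.one_le_exp (by linarith)
      have h2 : 1 ≤ E * Q1 := one_le_mul_of_one_le_of_one_le h1 hQ1'
      exact one_le_mul_of_one_le_of_one_le h2 hX'
    have hmom := hC1 l F hF P1 Q1 ρ1 (X * Real.exp (-(v * ρ2))) (E * Q1 * X) T w hρ1 hρ11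
      (by positivity) hY1 hexpY
    have hmom2 : ∑ k ∈ fr T, ‖UC F P1 Q1 ρ1 w k ^ l * fcC F (X * Real.exp (-(v * ρ2))) k‖ ^ 2 ≤
        (C1 * (144 * ((l : ℝ) + 1)) ^ l * (1 + E)) * X ^ 2 * Q1 ^ 2 := by
      refine hmom.trans ?_
      have h1 : (T : ℝ) + E * Q1 * X ≤ (1 + E) * Q1 * X := by
        have h10 : X ≤ Q1 * X := le_mul_of_one_le_left (zero_le_one.trans hX') hQ1'
        linarith only [h10, hTX]
      have h2 : 0 ≤ (T : ℝ) + E * Q1 * X := by positivity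
      calc C1 * (144 * ((l : ℝ) + 1)) ^ l * (T + E * Q1 * X) *
            (Real.exp (w * ρ1) ^ l * (X * Real.exp (-(v * ρ2))))
          ≤ C1 * (144 * ((l : ℝ) + 1)) ^ l * ((1 + E) * Q1 * X) * (Q1 * X) := by
            refine mul_le_mul ?_ hexpw (by positivity) (by positivity)
            exact mul_le_mul_of_nonneg_left h1 (by positivity)
        _ = (C1 * (144 * ((l : ℝ) + 1)) ^ l * (1 + E)) * X ^ 2 * Q1 ^ 2 := by ring
    -- amplification
    have hamp : ∀ k ∈ S', Real.exp ((1 - α2) * (v * ρ2)) ^ 2 *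
        ‖fcC F (X * Real.exp (-(v * ρ2))) k‖ ^ 2 ≤ Real.exp (-(2 * (α2 - α1) * (v * ρ2))) *
        ‖UC F P1 Q1 ρ1 w k ^ l * fcC F (X * Real.exp (-(v * ρ2))) k‖ ^ 2 := by
      intro k hk
      rw [norm_mul, mul_pow, ← mul_assoc (Real.exp (-(2 * (α2 - α1) * (v * ρ2))))]
      refine mul_le_mul_of_nonneg_right ?_ (sq_nonneg _)
      have h1 : Real.exp ((1 - α1) * (v * ρ2)) ^ 2 ≤ ‖UC F P1 Q1 ρ1 w k ^ l‖ ^ 2 := by
        refine pow_le_pow_left₀ (Real.exp_pos _).le ?_ 2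
        rw [norm_pow]
        calc Real.exp ((1 - α1) * (v * ρ2)) ≤ Real.exp ((1 - α1) * (w * ρ1)) ^ l := by
              rw [← Real.exp_nat_mul]
              refine Real.exp_le_exp.2 ?_
              calc (1 - α1) * (v * ρ2) ≤ (1 - α1) * (l * (w * ρ1)) :=
                    mul_le_mul_of_nonneg_left hl2' (by linarith)
                _ = l * ((1 - α1) * (w * ρ1)) := by ring
          _ ≤ ‖UC F P1 Q1 ρ1 w k‖ ^ l := pow_le_pow_left₀ (Real.exp_pos _).le (hcond k hk).le l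
      calc Real.exp ((1 - α2) * (v * ρ2)) ^ 2
          = Real.exp (-(2 * (α2 - α1) * (v * ρ2))) * Real.exp ((1 - α1) * (v * ρ2)) ^ 2 := by
            rw [← Real.exp_nat_mul, ← Real.exp_nat_mul, ← Real.exp_add]
            congr 1
            push_cast
            ring
        _ ≤ _ := mul_le_mul_of_nonneg_left h1 (Real.exp_pos _).le
    have hexpP : Real.exp (-(2 * (α2 - α1) * (v * ρ2))) ≤
        Real.exp 2 * P2 ^ (-(2 * (α2 - α1))) := by
      rw [Real.rpow_def_of_pos (by linarith), ← Real.exp_add]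
      refine Real.exp_le_exp.2 ?_
      have h1 : Real.log P2 - v * ρ2 ≤ 1 := by linarith
      have h2 : (α2 - α1) * (Real.log P2 - v * ρ2) ≤ (α2 - α1) * 1 :=
        mul_le_mul_of_nonneg_left h1 (sub_nonneg.2 hα12)
      linarith only [h2, hα1, hα2]
    have hcst := sM_const C1 l0 hC10 hl0 l hl1'
    rw [← hE, ← hR] at hcst
    calc ∑ k ∈ S', Real.exp ((1 - α2) * (v * ρ2)) ^ 2 * ‖fcC F (X * Real.exp (-(v * ρ2))) k‖ ^ 2
        ≤ ∑ k ∈ S', Real.exp (-(2 * (α2 - α1) * (v * ρ2))) *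
          ‖UC F P1 Q1 ρ1 w k ^ l * fcC F (X * Real.exp (-(v * ρ2))) k‖ ^ 2 :=
          Finset.sum_le_sum hamp
      _ ≤ ∑ k ∈ fr T, Real.exp (-(2 * (α2 - α1) * (v * ρ2))) *
          ‖UC F P1 Q1 ρ1 w k ^ l * fcC F (X * Real.exp (-(v * ρ2))) k‖ ^ 2 :=
          Finset.sum_le_sum_of_subset_of_nonneg hS' fun k _ _ => by positivity
      _ = Real.exp (-(2 * (α2 - α1) * (v * ρ2))) * ∑ k ∈ fr T,
          ‖UC F P1 Q1 ρ1 w k ^ l * fcC F (X * Real.exp (-(v * ρ2))) k‖ ^ 2 := by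
          rw [Finset.mul_sum]
      _ ≤ (Real.exp 2 * P2 ^ (-(2 * (α2 - α1)))) *
          ((C1 * (144 * ((l : ℝ) + 1)) ^ l * (1 + E)) * X ^ 2 * Q1 ^ 2) :=
          mul_le_mul hexpP hmom2 (Finset.sum_nonneg fun k _ => by positivity) (by positivity)
      _ = (C1 * (144 * ((l : ℝ) + 1)) ^ l * (1 + E) * Real.exp 2) *
            (X ^ 2 * Q1 ^ 2 * P2 ^ (-(2 * (α2 - α1)))) := by ring
      _ ≤ R * (X ^ 2 * Q1 ^ 2 * P2 ^ (-(2 * (α2 - α1)))) :=
          mul_le_mul_of_nonneg_right hcst (by positivity)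
      _ = K := by
          rw [hK]
          ring
  -- one second stage block
  have hblock : ∀ v : ℕ, ∑ k ∈ S, ‖UC F P2 Q2 ρ2 v k * fcC F (X * Real.exp (-(v * ρ2))) k‖ ^ 2 ≤
      M * K := by
    intro v
    classical
    by_cases hv0 : ∃ k, UC F P2 Q2 ρ2 v k ≠ 0
    · have h1 : ∀ k ∈ S, ‖UC F P2 Q2 ρ2 v k * fcC F (X * Real.exp (-(v * ρ2))) k‖ ^ 2 ≤
          ∑ w ∈ Finset.range M, if Real.exp ((1 - α1) * (w * ρ1)) < ‖UC F P1 Q1 ρ1 w k‖ then
            Real.exp ((1 - α2) * (v * ρ2)) ^ 2 *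
              ‖fcC F (X * Real.exp (-(v * ρ2))) k‖ ^ 2 else 0 := by
        intro k hk
        obtain ⟨w, hwk⟩ := hw k hk
        have hUne : UC F P1 Q1 ρ1 w k ≠ 0 := by
          intro h0
          rw [h0, norm_zero] at hwk
          exact absurd hwk (not_lt.2 (Real.exp_pos _).le)
        have hwM : w ∈ Finset.range M := by
          rw [Finset.mem_range, hM]
          unfold nv
          rw [Nat.lt_succ_iff]
          apply Nat.le_floor
          rw [le_div_iff₀ hρ1]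
          refine le_of_lt ?_
          rw [Real.lt_log_iff_exp_lt (by linarith)]
          exact (s2_blk_ne hUne).2
        have h2 := Finset.single_le_sum (f := fun w : ℕ =>
          if Real.exp ((1 - α1) * (w * ρ1)) < ‖UC F P1 Q1 ρ1 w k‖ then
            Real.exp ((1 - α2) * (v * ρ2)) ^ 2 *
              ‖fcC F (X * Real.exp (-(v * ρ2))) k‖ ^ 2 else 0)
          (fun i _ => by positivity) hwM
        refine le_trans ?_ h2
        simp only [hwk, if_true]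
        rw [norm_mul, mul_pow]
        exact mul_le_mul_of_nonneg_right (pow_le_pow_left₀ (norm_nonneg _) (hv k hk v) 2)
          (by positivity)
      refine (Finset.sum_le_sum h1).trans ?_
      rw [Finset.sum_comm]
      calc ∑ w ∈ Finset.range M, ∑ k ∈ S,
          (if Real.exp ((1 - α1) * (w * ρ1)) < ‖UC F P1 Q1 ρ1 w k‖ then
            Real.exp ((1 - α2) * (v * ρ2)) ^ 2 *
              ‖fcC F (X * Real.exp (-(v * ρ2))) k‖ ^ 2 else 0)
          ≤ ∑ w ∈ Finset.range M, K := by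
            refine Finset.sum_le_sum fun w _ => ?_
            rw [← Finset.sum_filter]
            by_cases hne : (S.filter fun k =>
                Real.exp ((1 - α1) * (w * ρ1)) < ‖UC F P1 Q1 ρ1 w k‖).Nonempty
            · obtain ⟨k, hk⟩ := hne
              rw [Finset.mem_filter] at hk
              have hUne : UC F P1 Q1 ρ1 w k ≠ 0 := by
                intro h0
                have h3 := hk.2
                rw [h0, norm_zero] at h3
                exact absurd h3 (not_lt.2 (Real.exp_pos _).le)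
              exact hpair v w hv0 ⟨k, hUne⟩ _ ((Finset.filter_subset _ _).trans hST)
                fun k hk => (Finset.mem_filter.1 hk).2
            · rw [Finset.not_nonempty_iff_eq_empty.1 hne, Finset.sum_empty]
              exact hKpos.le
        _ = M * K := by rw [Finset.sum_const, Finset.card_range, nsmul_eq_mul]
    · have h1 : ∀ k, UC F P2 Q2 ρ2 v k = 0 := fun k => by
        by_contra h0
        exact hv0 ⟨k, h0⟩
      have h2 : ∑ k ∈ S, ‖UC F P2 Q2 ρ2 v k * fcC F (X * Real.exp (-(v * ρ2))) k‖ ^ 2 = 0 := by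
        refine Finset.sum_eq_zero fun k _ => ?_
        rw [h1 k]
        simp
      rw [h2]
      positivity
  have hNM : (0 : ℝ) ≤ Real.log Q2 / ρ2 + 1 := by positivity
  calc ∑ k ∈ S, ‖UZC F P2 Q2 ρ2 X k‖ ^ 2
      ≤ ∑ k ∈ S, N * ∑ v ∈ Finset.range N,
          ‖UC F P2 Q2 ρ2 v k * fcC F (X * Real.exp (-(v * ρ2))) k‖ ^ 2 := by
        refine Finset.sum_le_sum fun k _ => ?_
        unfold UZC
        rw [← hN]
        have h1 := norm_sum_le (Finset.range N)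
          (fun v : ℕ => UC F P2 Q2 ρ2 v k * fcC F (X * Real.exp (-(v * ρ2))) k)
        refine (pow_le_pow_left₀ (norm_nonneg _) h1 2).trans ?_
        have h2 := sq_sum_le_card_mul_sum_sq (s := Finset.range N)
          (f := fun v : ℕ => ‖UC F P2 Q2 ρ2 v k * fcC F (X * Real.exp (-(v * ρ2))) k‖)
        rw [Finset.card_range] at h2
        exact h2
    _ = N * ∑ v ∈ Finset.range N, ∑ k ∈ S,
          ‖UC F P2 Q2 ρ2 v k * fcC F (X * Real.exp (-(v * ρ2))) k‖ ^ 2 := by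
        rw [← Finset.mul_sum, Finset.sum_comm]
    _ ≤ N * ∑ v ∈ Finset.range N, (M * K) := by
        refine mul_le_mul_of_nonneg_left (Finset.sum_le_sum fun v _ => hblock v)
          (Nat.cast_nonneg _)
    _ = N * (N * (M * K)) := by
        rw [Finset.sum_const, Finset.card_range, nsmul_eq_mul]
    _ ≤ (Real.log Q2 / ρ2 + 1) * ((Real.log Q2 / ρ2 + 1) * ((Real.log Q1 / ρ1 + 1) * K)) := by
        refine mul_le_mul hNle ?_ (by positivity) hNM
        refine mul_le_mul hNle ?_ (by positivity) hNM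
        exact mul_le_mul_of_nonneg_right hMle hKpos.le
    _ = _ := by
        rw [hK]
        ring

end Pool.Agent.GaussCM

end

/-! ### from `Lib_MP_f1a94e_ecc.Few` -/

section

/-!
# few frequencies (port to complex completely multiplicative functions)
-/

set_option autoImplicit false

namespace Pool.Agent.GaussCM

open Pool.Agent.GaussMR

open Pool.Agent.GaussMR.FewAux

lemma U_pow (F : G → ℂ) (P Q ρ : ℝ) (v : ℕ) (k : ℤ) (l : ℕ) :
    UC F P Q ρ v k ^ l = ∑ x ∈ Fintype.piFinset (fun _ : Fin l => blk P Q ρ v),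
      (∏ i, F (x i)) * xi (-k) (∏ i, x i) := by
  have h1 : UC F P Q ρ v k ^ l = ∏ _i : Fin l, UC F P Q ρ v k := by
    rw [Finset.prod_const, Finset.card_univ, Fintype.card_fin]
  rw [h1]
  unfold UC
  rw [Finset.prod_univ_sum]
  refine Finset.sum_congr rfl fun x _ => ?_
  rw [Finset.prod_mul_distrib, xi_prod]

/-- the estimate for one block -/
lemma one_block {C : ℝ} (hC0 : 0 < C) (hC : ∀ (ι : Type) (s : Finset ι) (g : ι → G) (c : ι → ℂ)
    (Y : ℝ) (T : ℕ), 1 ≤ Y → (∀ i ∈ s, ‖c i‖ ≤ 1) →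
    (∀ i ∈ s, Odd (nm (g i)) ∧ (nm (g i) : ℝ) ≤ Y) →
    ∑ k ∈ fr T, ‖∑ i ∈ s, c i * xi (-k) (g i)‖ ^ 2 ≤
      C * (T + Y) * (Set.ncard {p : ι × ι | p.1 ∈ s ∧ p.2 ∈ s ∧ pr (g p.1) = pr (g p.2)} : ℝ))
    {F : G → ℂ} (hF : CM F) {P Q ρ X α : ℝ} {T v l : ℕ} (hρ : 0 < ρ) (hX : 1 ≤ X)
    (hT : (T : ℝ) ≤ X) (h1 : l * (v * ρ) ≤ Real.log X) (h2 : Real.log X ≤ (l + 1) * (v * ρ))
    (h3 : v * ρ ≤ Real.log Q) (hQ : 0 < Q) (hα : 0 < α) (hα' : α ≤ 1 / 4) :
    (((fr T).filter (fun k => Real.exp ((1 - α) * (v * ρ)) < ‖UC F P Q ρ v k‖)).card : ℝ) ≤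
      2 * C * Real.exp (2 * ρ * l) * l.factorial * X ^ (2 * α) * Q := by
  classical
  set s := Fintype.piFinset (fun _ : Fin l => blk P Q ρ v) with hs
  set A := (fr T).filter (fun k => Real.exp ((1 - α) * (v * ρ)) < ‖UC F P Q ρ v k‖) with hA
  set Y := X * Real.exp (ρ * l) with hY
  have hX0 : 0 < X := by linarith
  have hY1 : 1 ≤ Y := by
    have : 1 ≤ Real.exp (ρ * l) := Real.one_le_exp (by positivity)
    nlinarith
  have hsB : ∀ x ∈ s, ∀ i, x i ∈ blk P Q ρ v := by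
    intro x hx i
    rw [hs, Fintype.mem_piFinset] at hx
    exact hx i
  have hodd : ∀ x ∈ s, ∀ i, Odd (nm (x i)) := fun x hx i =>
    (PP_spl (mem_blk_few.1 (hsB x hx i)).1).odd
  have hexpY : Real.exp ((v + 1) * ρ) ^ l ≤ Y := by
    rw [← Real.exp_nat_mul, hY]
    have : X * Real.exp (ρ * l) = Real.exp (Real.log X + ρ * l) := by
      rw [Real.exp_add, Real.exp_log hX0]
    rw [this]
    apply Real.exp_le_exp.2
    nlinarith
  have hLS := hC (Fin l → G) s (fun x => ∏ i, x i) (fun x => ∏ i, F (x i)) Y T hY1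
    (by
      intro x hx
      rw [norm_prod]
      exact Finset.prod_le_one (fun _ _ => norm_nonneg _) fun i _ => hF.norm (hodd x hx i))
    (by
      intro x hx
      refine ⟨(prim_prod x (fun i => (mem_blk_few.1 (hsB x hx i)).1)).2, ?_⟩
      rw [nm_prod]
      push_cast
      calc ∏ i : Fin l, (nm (x i) : ℝ) ≤ ∏ _i : Fin l, Real.exp ((v + 1) * ρ) := by
            apply Finset.prod_le_prod
            · intro i _
              positivity
            · intro i _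
              exact (mem_blk_few.1 (hsB x hx i)).2.2
        _ = Real.exp ((v + 1) * ρ) ^ l := by
            rw [Finset.prod_const, Finset.card_univ, Fintype.card_fin]
        _ ≤ Y := hexpY)
  have hLS2 := hLS.trans (mul_le_mul_of_nonneg_left (pairs_le_few P Q ρ v l) (by positivity))
  have hlow : (A.card : ℝ) * Real.exp ((1 - α) * (v * ρ)) ^ (2 * l) ≤
      ∑ k ∈ fr T, ‖∑ x ∈ s, (∏ i, F (x i)) * xi (-k) (∏ i, x i)‖ ^ 2 := by
    calc (A.card : ℝ) * Real.exp ((1 - α) * (v * ρ)) ^ (2 * l) =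
        ∑ _k ∈ A, Real.exp ((1 - α) * (v * ρ)) ^ (2 * l) := by
          rw [Finset.sum_const, nsmul_eq_mul]
      _ ≤ ∑ k ∈ A, ‖∑ x ∈ s, (∏ i, F (x i)) * xi (-k) (∏ i, x i)‖ ^ 2 := by
          apply Finset.sum_le_sum
          intro k hk
          rw [← U_pow F P Q ρ v k l, norm_pow, ← pow_mul, Nat.mul_comm l 2]
          have := (Finset.mem_filter.1 hk).2
          gcongr
      _ ≤ _ := by
          apply Finset.sum_le_sum_of_subset_of_nonneg (Finset.filter_subset _ _)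
          intro k _ _
          positivity
  have hTY : (T : ℝ) + Y ≤ 2 * Y := by
    have : X ≤ Y := by
      have : 1 ≤ Real.exp (ρ * l) := Real.one_le_exp (by positivity)
      nlinarith
    linarith
  have hmain : (A.card : ℝ) * Real.exp ((1 - α) * (v * ρ)) ^ (2 * l) ≤
      C * (2 * Y) * (Real.exp ((v + 1) * ρ) ^ l * l.factorial) := by
    refine (hlow.trans hLS2).trans ?_
    gcongr
  have hE0 : 0 < Real.exp ((1 - α) * (v * ρ)) ^ (2 * l) := by positivity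
  rw [← le_div_iff₀ hE0] at hmain
  refine hmain.trans ?_
  rw [div_le_iff₀ hE0]
  have e1 : Y * Real.exp ((v + 1) * ρ) ^ l ≤ Real.exp (2 * ρ * l) * X ^ (2 * α) * Q *
      Real.exp ((1 - α) * (v * ρ)) ^ (2 * l) := by
    have a1 : Y * Real.exp ((v + 1) * ρ) ^ l =
        Real.exp (Real.log X + ρ * l + l * ((v + 1) * ρ)) := by
      rw [hY, ← Real.exp_nat_mul, Real.exp_add, Real.exp_add, Real.exp_log hX0]
    have a2 : Real.exp (2 * ρ * l) * X ^ (2 * α) * Q * Real.exp ((1 - α) * (v * ρ)) ^ (2 * l) =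
        Real.exp (2 * ρ * l + Real.log X * (2 * α) + Real.log Q +
          2 * l * ((1 - α) * (v * ρ))) := by
      rw [← Real.exp_nat_mul, Real.rpow_def_of_pos hX0, Real.exp_add, Real.exp_add, Real.exp_add,
        Real.exp_log hQ]
      push_cast
      ring
    rw [a1, a2]
    apply Real.exp_le_exp.2
    have b1 : 0 ≤ Real.log X - l * (v * ρ) := by linarith
    have b2 : Real.log X - l * (v * ρ) ≤ Real.log Q := by linarith
    have b3 : (1 - 2 * α) * (Real.log X - l * (v * ρ)) ≤ Real.log Q := by nlinarith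
    nlinarith
  calc C * (2 * Y) * (Real.exp ((v + 1) * ρ) ^ l * l.factorial) =
      2 * C * l.factorial * (Y * Real.exp ((v + 1) * ρ) ^ l) := by ring
    _ ≤ 2 * C * l.factorial * (Real.exp (2 * ρ * l) * X ^ (2 * α) * Q *
        Real.exp ((1 - α) * (v * ρ)) ^ (2 * l)) := by gcongr
    _ = _ := by ring

/-- For a nonempty block `v` let `l = ⌊log X / (v ρ)⌋`. `(U_v)^l` is a sum over the family
`x ∈ blk^l`, `g = ∏ x` odd, primitive, of norm `≤ e^((v+1) ρ l) ≤ X e^(ρ l)`, so by `large_sieve_fam`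
and `prod_fiber` its mean square is at most `C (T + X e^(ρl)) l! #blk^l ≤ 2 C X e^(ρl) l! e^((v+1)ρl)`;
therefore `#{k : ‖U_v k‖ > e^((1-α) v ρ)} ≤ 2 C X e^(2ρl) l! e^(-(1-2α) v ρ l)
≤ 2 C e^(2ρl) l! X^(2α) Q`, because `e^(vρl) ≥ X e^(-vρ) ≥ X / Q`. Here
`l ≤ log X / (C2 log log X - ρ)`, `l! ≤ l^l ≤ exp (l log log X)`, which is `X^(1/C2 + o(1))`, and
`Q = (log X)^(C2 M)`, `e^(2ρl)`, and the number of blocks are `X^(o(1))`. -/
theorem few (α C2 M ρ δ : ℝ) (hα : 0 < α) (hα' : α ≤ 1 / 4) (hC2 : 1 ≤ C2) (hM : 1 ≤ M)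
    (hρ : 0 < ρ) (hρ' : ρ ≤ 1) (hδ : 0 < δ) : ∃ X0 : ℝ, ∀ X : ℝ, X0 ≤ X → ∀ (F : G → ℂ), CM F →
    ∀ T : ℕ, (T : ℝ) ≤ X →
    (Set.ncard {k : ℤ | k ∈ fr T ∧ ∃ v : ℕ, Real.exp ((1 - α) * (v * ρ)) <
      ‖UC F (Real.log X ^ C2) (Real.log X ^ (C2 * M)) ρ v k‖} : ℝ) ≤ X ^ (2 * α + 1 / C2 + δ) := by
  classical
  obtain ⟨C, hC0, hC⟩ := large_sieve_fam
  obtain ⟨X0, hX0⟩ := Filter.eventually_atTop.1 (large_X C C2 M ρ δ hC0 hC2 hM hρ hδ)
  refine ⟨X0, fun X hX F hF T hT => ?_⟩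
  obtain ⟨x1, x2, x3, x4, x5⟩ := hX0 X hX
  set L := Real.log X with hL
  set E := Real.log L with hE
  set P := L ^ C2 with hP
  set Q := L ^ (C2 * M) with hQ
  have hXpos : 0 < X := by linarith
  have hLpos : 0 < L := by linarith
  have hC2pos : 0 < C2 := by linarith
  have hMpos : 0 < M := by linarith
  have hQpos : 0 < Q := Real.rpow_pos_of_pos hLpos _
  have hPpos : 0 < P := Real.rpow_pos_of_pos hLpos _
  have hlogQ : Real.log Q = C2 * M * E := by rw [hQ, Real.log_rpow hLpos]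
  have hlogP : Real.log P = C2 * E := by rw [hP, Real.log_rpow hLpos]
  set Nv := ⌊C2 * M * E / ρ⌋₊ + 1 with hNv
  -- the range of v
  have hv : ∀ (v : ℕ) (k : ℤ), Real.exp ((1 - α) * (v * ρ)) < ‖UC F P Q ρ v k‖ →
      v * ρ ≤ C2 * M * E ∧ C2 * E - 1 ≤ v * ρ := by
    intro v k hvk
    have hne : (blk P Q ρ v).Nonempty := by
      by_contra h
      rw [Finset.not_nonempty_iff_eq_empty] at h
      have : UC F P Q ρ v k = 0 := by
        unfold UC
        rw [h, Finset.sum_empty]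
      rw [this, norm_zero] at hvk
      exact absurd hvk (not_lt.2 (Real.exp_pos _).le)
    obtain ⟨w, hw⟩ := hne
    obtain ⟨w1, w2, w3⟩ := mem_blk_few.1 hw
    obtain ⟨w4, w5, _⟩ := mem_PP.1 w1
    constructor
    · have := w2.trans_le w5
      rw [← Real.lt_log_iff_exp_lt hQpos, hlogQ] at this
      exact this.le
    · have := w4.trans_le w3
      rw [← Real.log_lt_iff_lt_exp hPpos, hlogP] at this
      nlinarith
  have hsub : {k : ℤ | k ∈ fr T ∧ ∃ v : ℕ, Real.exp ((1 - α) * (v * ρ)) < ‖UC F P Q ρ v k‖} ⊆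
      (((Finset.range Nv).biUnion (fun v => (fr T).filter
        (fun k => Real.exp ((1 - α) * (v * ρ)) < ‖UC F P Q ρ v k‖)) : Finset ℤ) : Set ℤ) := by
    rintro k ⟨hk, v, hvk⟩
    rw [Finset.mem_coe, Finset.mem_biUnion]
    refine ⟨v, ?_, Finset.mem_filter.2 ⟨hk, hvk⟩⟩
    rw [Finset.mem_range, hNv, Nat.lt_succ_iff]
    apply Nat.le_floor
    rw [le_div_iff₀ hρ]
    exact (hv v k hvk).1
  have hcard : ∀ v ∈ Finset.range Nv, (((fr T).filter
      (fun k => Real.exp ((1 - α) * (v * ρ)) < ‖UC F P Q ρ v k‖)).card : ℝ) ≤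
      2 * C * X ^ (1 / C2 + δ / 2) * X ^ (2 * α) * Q := by
    intro v _
    rcases Finset.eq_empty_or_nonempty ((fr T).filter
      (fun k => Real.exp ((1 - α) * (v * ρ)) < ‖UC F P Q ρ v k‖)) with he | ⟨k, hk⟩
    · rw [he, Finset.card_empty, Nat.cast_zero]
      positivity
    · obtain ⟨v1, v2⟩ := hv v k (Finset.mem_filter.1 hk).2
      have hv1 : 1 ≤ v * ρ := by nlinarith
      have hv0 : 0 < v * ρ := by linarith
      set l := ⌊L / (v * ρ)⌋₊ with hl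
      have l1 : (l : ℝ) ≤ L / (v * ρ) := Nat.floor_le (by positivity)
      have l2 : L / (v * ρ) < l + 1 := Nat.lt_floor_add_one _
      have l3 : l * (v * ρ) ≤ L := by rwa [le_div_iff₀ hv0] at l1
      have l4 : L ≤ (l + 1) * (v * ρ) := by
        rw [div_lt_iff₀ hv0] at l2
        exact l2.le
      have l5 : (l : ℝ) ≤ L := by
        calc (l : ℝ) ≤ L / (v * ρ) := l1
          _ ≤ L / 1 := by gcongr
          _ = L := div_one L
      have hfac : Real.exp (2 * ρ * l) * l.factorial ≤ X ^ (1 / C2 + δ / 2) := by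
        have f1 : (l.factorial : ℝ) ≤ Real.exp (l * E) := by
          have g1 : (l.factorial : ℝ) ≤ (l : ℝ) ^ l := by exact_mod_cast Nat.factorial_le_pow l
          have g2 : (l : ℝ) ^ l ≤ L ^ l := by gcongr
          have g3 : L ^ l = Real.exp (l * E) := by
            rw [Real.exp_nat_mul, hE, Real.exp_log hLpos]
          linarith
        have f2 : Real.exp (2 * ρ * l) ≤ Real.exp (2 * l) := by
          apply Real.exp_le_exp.2
          have : (0 : ℝ) ≤ l := Nat.cast_nonneg l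
          nlinarith
        have f3 : l * (E + 2) ≤ (1 / C2 + δ / 2) * L := by
          have g0 : (0 : ℝ) ≤ l := Nat.cast_nonneg l
          have g1 : (0:ℝ) ≤ 1 / C2 + δ / 2 := by positivity
          calc l * (E + 2) ≤ l * ((1 / C2 + δ / 2) * (C2 * E - 1)) := by gcongr
            _ = (1 / C2 + δ / 2) * (l * (C2 * E - 1)) := by ring
            _ ≤ (1 / C2 + δ / 2) * (l * (v * ρ)) := by gcongr
            _ ≤ (1 / C2 + δ / 2) * L := by gcongr
        calc Real.exp (2 * ρ * l) * l.factorial ≤ Real.exp (2 * l) * Real.exp (l * E) := by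
              gcongr
          _ = Real.exp (l * (E + 2)) := by
              rw [← Real.exp_add]
              congr 1
              ring
          _ ≤ Real.exp (L * (1 / C2 + δ / 2)) := by
              apply Real.exp_le_exp.2
              linarith
          _ = X ^ (1 / C2 + δ / 2) := by rw [Real.rpow_def_of_pos hXpos]
      have hb := one_block hC0 hC hF (P := P) (Q := Q) (ρ := ρ) (X := X) (α := α) (T := T)
        (v := v) (l := l) hρ x1 hT l3 l4 (by rw [hlogQ]; exact v1) hQpos hα hα'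
      refine hb.trans ?_
      calc 2 * C * Real.exp (2 * ρ * l) * l.factorial * X ^ (2 * α) * Q =
          2 * C * (Real.exp (2 * ρ * l) * l.factorial) * X ^ (2 * α) * Q := by ring
        _ ≤ _ := by gcongr
  have hfin := Set.ncard_le_ncard hsub (Finset.finite_toSet _)
  rw [Set.ncard_coe_finset] at hfin
  have hNvle : (Nv : ℝ) ≤ C2 * M * E / ρ + 1 := by
    rw [hNv]
    push_cast
    have : (⌊C2 * M * E / ρ⌋₊ : ℝ) ≤ C2 * M * E / ρ := Nat.floor_le (by positivity)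
    linarith
  calc (Set.ncard {k : ℤ | k ∈ fr T ∧ ∃ v : ℕ, Real.exp ((1 - α) * (v * ρ)) <
      ‖UC F P Q ρ v k‖} : ℝ) ≤ (((Finset.range Nv).biUnion (fun v => (fr T).filter
        (fun k => Real.exp ((1 - α) * (v * ρ)) < ‖UC F P Q ρ v k‖))).card : ℝ) := by
        exact_mod_cast hfin
    _ ≤ ((∑ v ∈ Finset.range Nv, ((fr T).filter
        (fun k => Real.exp ((1 - α) * (v * ρ)) < ‖UC F P Q ρ v k‖)).card : ℕ) : ℝ) := by
        exact_mod_cast Finset.card_biUnion_le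
    _ = ∑ v ∈ Finset.range Nv, (((fr T).filter
        (fun k => Real.exp ((1 - α) * (v * ρ)) < ‖UC F P Q ρ v k‖)).card : ℝ) := by push_cast; rfl
    _ ≤ ∑ _v ∈ Finset.range Nv, 2 * C * X ^ (1 / C2 + δ / 2) * X ^ (2 * α) * Q :=
        Finset.sum_le_sum hcard
    _ = Nv * (2 * C * X ^ (1 / C2 + δ / 2) * X ^ (2 * α) * Q) := by
        rw [Finset.sum_const, Finset.card_range, nsmul_eq_mul]
    _ ≤ (C2 * M * E / ρ + 1) * (2 * C * X ^ (1 / C2 + δ / 2) * X ^ (2 * α) * Q) := by gcongr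
    _ = X ^ (2 * α) * X ^ (1 / C2 + δ / 2) * (2 * C * (C2 * M * E / ρ + 1) * Q) := by ring
    _ ≤ X ^ (2 * α) * X ^ (1 / C2 + δ / 2) * X ^ (δ / 2) := by gcongr
    _ = X ^ (2 * α + 1 / C2 + δ) := by
        rw [← Real.rpow_add hXpos, ← Real.rpow_add hXpos]
        congr 1
        ring

end Pool.Agent.GaussCM

end

/-! ### from `Lib_MP_f1a94e_ecm.Orth` -/

section

/-!
# Piece M-ORTH: large sieve for few frequencies
-/

set_option autoImplicit false

namespace Pool.Agent.ECM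

open Finset Pool.Agent.GaussMR Pool.Agent.GaussCM Pool.Agent.OmAll

/-- expanding the square of the dual form -/
private theorem orth_expand (Z : ℝ) (S : Finset ℤ) (b : ℤ → ℂ) :
    ((∑ z ∈ V Z, ‖∑ k ∈ S, b k * xi (-k) z‖ ^ 2 : ℝ) : ℂ) =
      ∑ k ∈ S, ∑ l ∈ S, b k * (starRingEnd ℂ) (b l) * ∑ z ∈ V Z, xi (l - k) z := by
  have h1 : ∀ z ∈ V Z, ((‖∑ k ∈ S, b k * xi (-k) z‖ ^ 2 : ℝ) : ℂ) =
      ∑ k ∈ S, ∑ l ∈ S, b k * (starRingEnd ℂ) (b l) * xi (l - k) z := by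
    intro z hz
    rw [← Complex.normSq_eq_norm_sq, ← Complex.mul_conj, map_sum, Finset.sum_mul_sum]
    refine Finset.sum_congr rfl fun k _ => Finset.sum_congr rfl fun l _ => ?_
    rw [map_mul, conj_xi _ (V_ne_zero hz), neg_neg, sub_eq_add_neg, xi_add _ _ (V_ne_zero hz)]
    ring
  rw [Complex.ofReal_sum, Finset.sum_congr rfl h1, Finset.sum_comm]
  refine Finset.sum_congr rfl fun k _ => ?_
  rw [Finset.sum_comm]
  refine Finset.sum_congr rfl fun l _ => ?_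
  rw [Finset.mul_sum]

/-- the dual form, abstractly -/
private theorem orth_dual {S : Finset ℤ} {Z A B : ℝ} (hB : 0 ≤ B)
    (h0 : ((V Z).card : ℝ) ≤ A)
    (h1 : ∀ k ∈ S, ∀ l ∈ S, k ≠ l → ‖∑ z ∈ V Z, xi (l - k) z‖ ≤ B) (b : ℤ → ℂ) :
    ∑ z ∈ V Z, ‖∑ k ∈ S, b k * xi (-k) z‖ ^ 2 ≤ (A + B * S.card) * ∑ k ∈ S, ‖b k‖ ^ 2 := by
  have h2 : ∑ z ∈ V Z, ‖∑ k ∈ S, b k * xi (-k) z‖ ^ 2 =
      ‖∑ k ∈ S, ∑ l ∈ S, b k * (starRingEnd ℂ) (b l) * ∑ z ∈ V Z, xi (l - k) z‖ := by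
    rw [← orth_expand, Complex.norm_real, Real.norm_of_nonneg]
    exact Finset.sum_nonneg fun z _ => by positivity
  rw [h2]
  have h3 : ∀ k ∈ S, ∀ l ∈ S, ‖b k * (starRingEnd ℂ) (b l) * ∑ z ∈ V Z, xi (l - k) z‖ ≤
      (if k = l then A * ‖b k‖ ^ 2 else 0) + B * (‖b k‖ * ‖b l‖) := by
    intro k hk l hl
    rw [norm_mul, norm_mul, Complex.norm_conj]
    have hbb : 0 ≤ ‖b k‖ * ‖b l‖ := by positivity
    split_ifs with hkl
    · subst hkl
      have h4 : ‖∑ z ∈ V Z, xi (k - k) z‖ ≤ A := by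
        rw [sub_self]
        simp only [xi_zero, Finset.sum_const, nsmul_eq_mul, mul_one]
        rw [Complex.norm_natCast]
        exact h0
      have h5 := mul_le_mul_of_nonneg_left h4 hbb
      have h6 : 0 ≤ B * (‖b k‖ * ‖b k‖) := by positivity
      nlinarith
    · rw [zero_add, mul_comm B]
      exact mul_le_mul_of_nonneg_left (h1 k hk l hl hkl) hbb
  have h4 : ∑ k ∈ S, ∑ l ∈ S, ((if k = l then A * ‖b k‖ ^ 2 else 0) + B * (‖b k‖ * ‖b l‖)) =
      A * ∑ k ∈ S, ‖b k‖ ^ 2 + B * (∑ k ∈ S, ‖b k‖) ^ 2 := by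
    simp_rw [Finset.sum_add_distrib, ← Finset.mul_sum]
    congr 1
    · rw [Finset.mul_sum]
      refine Finset.sum_congr rfl fun k hk => ?_
      rw [Finset.sum_ite_eq, if_pos hk]
    · rw [← Finset.sum_mul, sq]
  have h5 : (∑ k ∈ S, ‖b k‖) ^ 2 ≤ S.card * ∑ k ∈ S, ‖b k‖ ^ 2 := sq_sum_le_card_mul_sum_sq
  calc ‖∑ k ∈ S, ∑ l ∈ S, b k * (starRingEnd ℂ) (b l) * ∑ z ∈ V Z, xi (l - k) z‖ ≤
        ∑ k ∈ S, ∑ l ∈ S, ‖b k * (starRingEnd ℂ) (b l) * ∑ z ∈ V Z, xi (l - k) z‖ :=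
          (norm_sum_le _ _).trans (Finset.sum_le_sum fun k _ => norm_sum_le _ _)
    _ ≤ ∑ k ∈ S, ∑ l ∈ S, ((if k = l then A * ‖b k‖ ^ 2 else 0) + B * (‖b k‖ * ‖b l‖)) :=
          Finset.sum_le_sum fun k hk => Finset.sum_le_sum fun l hl => h3 k hk l hl
    _ = A * ∑ k ∈ S, ‖b k‖ ^ 2 + B * (∑ k ∈ S, ‖b k‖) ^ 2 := h4
    _ ≤ A * ∑ k ∈ S, ‖b k‖ ^ 2 + B * (S.card * ∑ k ∈ S, ‖b k‖ ^ 2) := by
          have := mul_le_mul_of_nonneg_left h5 hB
          linarith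
    _ = (A + B * S.card) * ∑ k ∈ S, ‖b k‖ ^ 2 := by ring

/-- duality -/
private theorem orth_primal {S : Finset ℤ} {Z Δ : ℝ} (hΔ : 0 ≤ Δ)
    (h : ∀ b : ℤ → ℂ, ∑ z ∈ V Z, ‖∑ k ∈ S, b k * xi (-k) z‖ ^ 2 ≤ Δ * ∑ k ∈ S, ‖b k‖ ^ 2)
    (a : G → ℂ) :
    ∑ k ∈ S, ‖∑ z ∈ V Z, a z * xi (-k) z‖ ^ 2 ≤ Δ * ∑ z ∈ V Z, ‖a z‖ ^ 2 := by
  set T := ∑ k ∈ S, ‖∑ z ∈ V Z, a z * xi (-k) z‖ ^ 2 with hT
  set U := ∑ z ∈ V Z, ‖a z‖ ^ 2 with hU
  have hT0 : 0 ≤ T := Finset.sum_nonneg fun k _ => by positivity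
  have hU0 : 0 ≤ U := Finset.sum_nonneg fun k _ => by positivity
  set b : ℤ → ℂ := fun k => (starRingEnd ℂ) (∑ z ∈ V Z, a z * xi (-k) z) with hb
  have h1 : (T : ℂ) = ∑ z ∈ V Z, a z * ∑ k ∈ S, b k * xi (-k) z := by
    rw [hT, Complex.ofReal_sum]
    simp_rw [Finset.mul_sum]
    rw [Finset.sum_comm]
    refine Finset.sum_congr rfl fun k _ => ?_
    rw [← Complex.normSq_eq_norm_sq, ← Complex.mul_conj, Finset.sum_mul]
    refine Finset.sum_congr rfl fun z _ => ?_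
    ring
  have h2 : T ≤ ∑ z ∈ V Z, ‖a z‖ * ‖∑ k ∈ S, b k * xi (-k) z‖ := by
    have h3 : T = ‖(T : ℂ)‖ := by rw [Complex.norm_real, Real.norm_of_nonneg hT0]
    rw [h3, h1]
    refine (norm_sum_le _ _).trans (Finset.sum_le_sum fun z _ => ?_)
    rw [norm_mul]
  have h3 : (∑ z ∈ V Z, ‖a z‖ * ‖∑ k ∈ S, b k * xi (-k) z‖) ^ 2 ≤
      U * ∑ z ∈ V Z, ‖∑ k ∈ S, b k * xi (-k) z‖ ^ 2 := Finset.sum_mul_sq_le_sq_mul_sq _ _ _
  have h4 : ∑ k ∈ S, ‖b k‖ ^ 2 = T := by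
    rw [hT]
    refine Finset.sum_congr rfl fun k _ => ?_
    rw [hb]
    simp only
    rw [Complex.norm_conj]
  have h5 := h b
  rw [h4] at h5
  have h6 : T ^ 2 ≤ U * (Δ * T) :=
    (pow_le_pow_left₀ hT0 h2 2).trans (h3.trans (mul_le_mul_of_nonneg_left h5 hU0))
  rcases hT0.eq_or_lt with h7 | h7
  · rw [← h7]; positivity
  · have h8 : T * T ≤ (Δ * U) * T := by nlinarith
    exact le_of_mul_le_mul_right h8 h7

/-- Duality (`dual`: the inequality for `a` with constant `Δ` follows from `∑_(z ∈ V Z) |∑_(k ∈ S) b k xi (-k) z|² ≤ Δ ∑ |b k|²`: take `b k = conj (inner sum)` and Cauchy-Schwarz). Expanding the square: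
`∑_(k,k') b k conj (b k') ∑_(z ∈ V Z) xi (k' - k) z`; the diagonal is `card (V Z) ∑|b|² ≤ C Z ∑ |b|²`, off the diagonal `0 < |k' - k| ≤ 2 X ≤ Z^(21/10)` so `|∑_z| ≤ C Z^(1 - 1/16000)` (`w_V`) and
`(∑ |b|)² ≤ #S ∑ |b|²`, `#S Z^(-1/16000) ≤ X^δ X^(-1/32000) ≤ 1` for `δ = 1/32000`. -/
theorem orth : ∃ δ C X0 : ℝ, 0 < δ ∧ 0 < C ∧ ∀ X Z : ℝ, X0 ≤ X → X ^ (1 / 2 : ℝ) ≤ Z → ∀ S : Finset ℤ, (∀ k ∈ S, |(k : ℝ)| ≤ X) →
    (S.card : ℝ) ≤ X ^ δ → ∀ a : G → ℂ,
    ∑ k ∈ S, ‖∑ z ∈ V Z, a z * xi (-k) z‖ ^ 2 ≤ C * Z * ∑ z ∈ V Z, ‖a z‖ ^ 2 := by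
  obtain ⟨C0, hC0, hw⟩ := w_V
  refine ⟨1 / 32000, 9 + C0, 2 ^ 20, by norm_num, by positivity, ?_⟩
  intro X Z hX hXZ S hS hcard a
  have hX0 : 0 < X := lt_of_lt_of_le (by norm_num) hX
  have hZ : 1024 ≤ Z := by
    refine le_trans ?_ hXZ
    have h1 : (1024 : ℝ) = ((2 : ℝ) ^ 20) ^ (1 / 2 : ℝ) := by
      rw [← Real.sqrt_eq_rpow]
      rw [show ((2 : ℝ) ^ 20) = 1024 ^ 2 by norm_num, Real.sqrt_sq (by norm_num)]
    rw [h1]
    exact Real.rpow_le_rpow (by norm_num) hX (by norm_num)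
  have hZ0 : 0 < Z := by linarith
  have hZ1 : 1 ≤ Z := by linarith
  have hXZ2 : X ≤ Z ^ (2 : ℝ) := by
    have h1 := Real.rpow_le_rpow (Real.rpow_nonneg hX0.le _) hXZ (by norm_num : (0 : ℝ) ≤ 2)
    rw [← Real.rpow_mul hX0.le] at h1
    norm_num at h1
    exact_mod_cast h1
  have hfr : 2 * X ≤ Z ^ (21 / 10 : ℝ) := by
    have h1 : (21 / 10 : ℝ) = 2 + 1 / 10 := by norm_num
    rw [h1, Real.rpow_add hZ0]
    have h2 : (2 : ℝ) ≤ Z ^ (1 / 10 : ℝ) := by
      have h3 : (2 : ℝ) = (1024 : ℝ) ^ (1 / 10 : ℝ) := by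
        rw [show (1024 : ℝ) = (2 : ℝ) ^ (10 : ℝ) by norm_num, ← Real.rpow_mul (by norm_num)]
        norm_num
      calc (2 : ℝ) = (1024 : ℝ) ^ (1 / 10 : ℝ) := h3
        _ ≤ Z ^ (1 / 10 : ℝ) := Real.rpow_le_rpow (by norm_num) hZ (by norm_num)
    have h4 : 0 ≤ Z ^ (2 : ℝ) := Real.rpow_nonneg hZ0.le _
    calc 2 * X ≤ 2 * Z ^ (2 : ℝ) := by linarith
      _ = Z ^ (2 : ℝ) * 2 := mul_comm _ _
      _ ≤ Z ^ (2 : ℝ) * Z ^ (1 / 10 : ℝ) := mul_le_mul_of_nonneg_left h2 h4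
  have hB : 0 ≤ C0 * Z ^ (1 - 1 / 16000 : ℝ) := mul_nonneg hC0.le (Real.rpow_nonneg hZ0.le _)
  have hoff : ∀ k ∈ S, ∀ l ∈ S, k ≠ l → ‖∑ z ∈ V Z, xi (l - k) z‖ ≤
      C0 * Z ^ (1 - 1 / 16000 : ℝ) := by
    intro k hk l hl hkl
    refine hw Z (l - k) hZ1 (sub_ne_zero.2 (Ne.symm hkl)) ?_
    refine le_trans ?_ hfr
    push_cast
    have h1 := hS k hk
    have h2 := hS l hl
    calc |(l : ℝ) - k| ≤ |(l : ℝ)| + |(k : ℝ)| := abs_sub _ _
      _ ≤ 2 * X := by linarith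
  have hdual := orth_dual (S := S) (Z := Z) (A := 9 * Z) (B := C0 * Z ^ (1 - 1 / 16000 : ℝ))
    hB (card_V_le Z hZ0.le) hoff
  have hcz : Z ^ (1 - 1 / 16000 : ℝ) * S.card ≤ Z := by
    have h1 : (S.card : ℝ) ≤ Z ^ (1 / 16000 : ℝ) := by
      refine hcard.trans ?_
      have h2 := Real.rpow_le_rpow hX0.le hXZ2 (by norm_num : (0 : ℝ) ≤ 1 / 32000)
      rw [← Real.rpow_mul hZ0.le] at h2
      norm_num at h2 ⊢
      exact h2
    calc Z ^ (1 - 1 / 16000 : ℝ) * S.card ≤ Z ^ (1 - 1 / 16000 : ℝ) * Z ^ (1 / 16000 : ℝ) :=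
          mul_le_mul_of_nonneg_left h1 (Real.rpow_nonneg hZ0.le _)
      _ = Z := by
          rw [← Real.rpow_add hZ0]
          norm_num
  have hΔ : 9 * Z + C0 * Z ^ (1 - 1 / 16000 : ℝ) * S.card ≤ (9 + C0) * Z := by
    have := mul_le_mul_of_nonneg_left hcz hC0.le
    nlinarith
  exact orth_primal (Δ := (9 + C0) * Z) (by positivity) (fun b => (hdual b).trans
    (mul_le_mul_of_nonneg_right hΔ (Finset.sum_nonneg fun k _ => by positivity))) a

end Pool.Agent.ECM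

end

/-! ### from `Lib_MP_f1a94e_ecm.HInt` -/

section

/-!
# Piece M-HINT: the integral of the exponential series is the L-value
-/

set_option autoImplicit false

namespace Pool.Agent.ECM

open Finset Pool.Agent.GaussMR Pool.Agent.GaussCM Pool.Agent.OmAll

private theorem hint_mem_ob {Y : ℝ} {z : G} : z ∈ ob Y ↔ (nm z : ℝ) ≤ Y ∧ Odd (nm z) := by
  classical
  simp [ob, mem_ball]

/-- coefficients of the power series -/
private noncomputable def hf (χ : G → ℂ) (n : ℕ) : ℂ :=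
  ∑ z ∈ (ob (n : ℝ)).filter (fun z => nm z = n), χ z / (nm z : ℂ)

private theorem hf_sum (χ : G → ℂ) (x : ℂ) (n : ℕ) :
    ∑ i ∈ range (n + 1), hf χ i * x ^ i = ∑ z ∈ ob (n : ℝ), χ z / (nm z : ℂ) * x ^ (nm z) := by
  have hmaps : ∀ z ∈ ob (n : ℝ), nm z ∈ range (n + 1) := by
    intro z hz
    have h1 : nm z ≤ n := by exact_mod_cast (hint_mem_ob.1 hz).1
    rw [mem_range]
    omega
  rw [← sum_fiberwise_of_maps_to hmaps]
  refine sum_congr rfl fun i hi => ?_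
  unfold hf
  rw [sum_mul]
  have hset : (ob (i : ℝ)).filter (fun z => nm z = i) = (ob (n : ℝ)).filter (fun z => nm z = i) := by
    ext z
    rw [mem_filter, mem_filter, hint_mem_ob, hint_mem_ob]
    rw [mem_range] at hi
    have hin : (i : ℝ) ≤ n := by exact_mod_cast (by omega : i ≤ n)
    constructor
    · rintro ⟨⟨h1, h2⟩, h3⟩
      exact ⟨⟨h1.trans hin, h2⟩, h3⟩
    · rintro ⟨⟨h1, h2⟩, h3⟩
      exact ⟨⟨by rw [h3], h2⟩, h3⟩
  rw [hset]
  refine sum_congr rfl fun z hz => ?_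
  rw [(mem_filter.1 hz).2]

private theorem hf_SL (χ : G → ℂ) (n : ℕ) : ∑ i ∈ range (n + 1), hf χ i = SL χ n := by
  have := hf_sum χ 1 n
  simp only [one_pow, mul_one] at this
  exact this

private theorem hint_countable : Countable G :=
  Function.Injective.countable (f := fun z : G => (z.re, z.im))
    (fun _ _ h => Zsqrtd.ext (congrArg Prod.fst h) (congrArg Prod.snd h))

private theorem hint_tsum {D : ℕ} {χ : G → ℂ} (hχ : Chi D χ) {l : ℂ}
    (hl : Filter.Tendsto (fun n : ℕ => ∑ i ∈ range n, hf χ i) Filter.atTop (nhds l)) {δ : ℝ} (hδ : 0 < δ) :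
    ∑' n : ℕ, hf χ n * ((Real.exp (-δ) : ℝ) : ℂ) ^ n =
      ∑' z : G, χ z / (nm z : ℂ) * ((Real.exp (-δ) : ℝ) : ℂ) ^ (nm z) := by
  set x : ℂ := ((Real.exp (-δ) : ℝ) : ℂ) with hx
  have hx1 : ‖x‖ < 1 := by
    rw [hx, Complex.norm_real, Real.norm_eq_abs, abs_of_pos (Real.exp_pos _), Real.exp_lt_one_iff]
    linarith
  have hs1 : Summable fun n : ℕ => hf χ n * x ^ n :=
    summable_powerSeries_of_norm_lt_one hl.cauchySeq hx1
  have hs2 : Summable fun z : G => χ z / (nm z : ℂ) * x ^ (nm z) := by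
    refine Summable.of_norm_bounded (summ_exp δ hδ) fun z => ?_
    rw [norm_mul, norm_div, norm_pow, Complex.norm_natCast, hx, Complex.norm_real, Real.norm_eq_abs,
      abs_of_pos (Real.exp_pos _), ← Real.exp_nat_mul]
    have h1 : ‖χ z‖ / (nm z : ℝ) ≤ 1 := by
      rcases Nat.eq_zero_or_pos (nm z) with h0 | h0
      · rw [h0]
        simp
      · have h2 : (1 : ℝ) ≤ nm z := by exact_mod_cast h0
        rw [div_le_one (by linarith)]
        exact (hχ.le z).trans h2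
    calc ‖χ z‖ / (nm z : ℝ) * Real.exp (nm z * -δ) ≤ 1 * Real.exp (nm z * -δ) :=
          mul_le_mul_of_nonneg_right h1 (Real.exp_pos _).le
      _ = Real.exp (-(δ * nm z)) := by rw [one_mul]; congr 1; ring
  have ht1 : Filter.Tendsto (fun n : ℕ => ∑ i ∈ range (n + 1), hf χ i * x ^ i) Filter.atTop
      (nhds (∑' n : ℕ, hf χ n * x ^ n)) :=
    (hs1.hasSum.tendsto_sum_nat).comp (Filter.tendsto_add_atTop_nat 1)
  have hmono : Monotone fun n : ℕ => ball (n : ℝ) := by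
    intro a b hab z hz
    rw [mem_ball] at hz ⊢
    exact hz.trans (by exact_mod_cast hab)
  have hball : Filter.Tendsto (fun n : ℕ => ball (n : ℝ)) Filter.atTop Filter.atTop :=
    Filter.tendsto_atTop_finset_of_monotone hmono fun z => ⟨nm z, by rw [mem_ball]⟩
  have ht2 := hs2.hasSum.comp hball
  have ht3 : (fun n : ℕ => ∑ i ∈ range (n + 1), hf χ i * x ^ i) =
      (fun s : Finset G => ∑ z ∈ s, χ z / (nm z : ℂ) * x ^ (nm z)) ∘ fun n : ℕ => ball (n : ℝ) := by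
    funext n
    rw [hf_sum]
    show _ = ∑ z ∈ ball (n : ℝ), χ z / (nm z : ℂ) * x ^ (nm z)
    classical
    unfold ob
    rw [sum_filter]
    refine sum_congr rfl fun z _ => ?_
    split_ifs with h
    · rfl
    · rw [hχ.even z h]
      simp
  rw [ht3] at ht1
  exact tendsto_nhds_unique ht1 ht2

private theorem hint_int {D : ℕ} {χ : G → ℂ} (hχ : Chi D χ) {δ : ℝ} (hδ : 0 < δ) :
    ∫ s in Set.Ioi δ, HH χ s = ∑' z : G, χ z / (nm z : ℂ) * ((Real.exp (-δ) : ℝ) : ℂ) ^ (nm z) := by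
  have := hint_countable
  have hint : ∀ z : G, MeasureTheory.IntegrableOn
      (fun s : ℝ => χ z * ((Real.exp (-(s * nm z)) : ℝ) : ℂ)) (Set.Ioi δ) := by
    intro z
    rcases Nat.eq_zero_or_pos (nm z) with h0 | h0
    · have h1 : χ z = 0 := hχ.even z (by rw [h0]; decide)
      simp only [h1, zero_mul]
      exact MeasureTheory.integrableOn_zero
    · have h1 : (0 : ℝ) < nm z := by exact_mod_cast h0
      have h2 := (exp_neg_integrableOn_Ioi δ h1).ofReal (𝕜 := ℂ)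
      have h3 := h2.const_mul (χ z)
      refine MeasureTheory.Integrable.congr h3 (Filter.Eventually.of_forall fun s => ?_)
      show χ z * ((Real.exp (-(nm z : ℝ) * s) : ℝ) : ℂ) = χ z * ((Real.exp (-(s * nm z)) : ℝ) : ℂ)
      congr 3
      ring
  have hreal : ∀ z : G, 0 < nm z → ∫ s in Set.Ioi δ, Real.exp (-(s * nm z)) =
      Real.exp (-(δ * nm z)) / nm z := by
    intro z h0
    have h1 : (0 : ℝ) < nm z := by exact_mod_cast h0
    have h2 := integral_exp_mul_Ioi (a := -(nm z : ℝ)) (by linarith) δ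
    have h3 : (fun s : ℝ => Real.exp (-(s * nm z))) = fun s : ℝ => Real.exp (-(nm z : ℝ) * s) := by
      funext s
      congr 1
      ring
    rw [h3, h2, neg_div_neg_eq]
    congr 2
    ring
  have hval : ∀ z : G, ∫ s in Set.Ioi δ, χ z * ((Real.exp (-(s * nm z)) : ℝ) : ℂ) =
      χ z / (nm z : ℂ) * ((Real.exp (-δ) : ℝ) : ℂ) ^ (nm z) := by
    intro z
    rcases Nat.eq_zero_or_pos (nm z) with h0 | h0
    · have h1 : χ z = 0 := hχ.even z (by rw [h0]; decide)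
      simp [h1]
    · rw [MeasureTheory.integral_const_mul]
      have h1 : ∫ s in Set.Ioi δ, ((Real.exp (-(s * nm z)) : ℝ) : ℂ) =
          ((∫ s in Set.Ioi δ, Real.exp (-(s * nm z)) : ℝ) : ℂ) := integral_ofReal
      rw [h1, hreal z h0, ← Complex.ofReal_pow, ← Real.exp_nat_mul]
      have h2 : Real.exp ((nm z : ℝ) * -δ) = Real.exp (-(δ * nm z)) := by
        congr 1
        ring
      rw [h2]
      push_cast
      ring
  have hnorm : Summable fun z : G => ∫ s in Set.Ioi δ, ‖χ z * ((Real.exp (-(s * nm z)) : ℝ) : ℂ)‖ := by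
    refine Summable.of_nonneg_of_le (fun z => MeasureTheory.integral_nonneg fun s => norm_nonneg _)
      (fun z => ?_) (summ_exp δ hδ)
    rcases Nat.eq_zero_or_pos (nm z) with h0 | h0
    · have h1 : χ z = 0 := hχ.even z (by rw [h0]; decide)
      simp only [h1, zero_mul, norm_zero, MeasureTheory.integral_zero]
      exact (Real.exp_pos _).le
    · have h1 : (1 : ℝ) ≤ nm z := by exact_mod_cast h0
      have h2 : (fun s : ℝ => ‖χ z * ((Real.exp (-(s * nm z)) : ℝ) : ℂ)‖) =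
          fun s : ℝ => ‖χ z‖ * Real.exp (-(s * nm z)) := by
        funext s
        rw [norm_mul, Complex.norm_real, Real.norm_eq_abs, abs_of_pos (Real.exp_pos _)]
      rw [h2, MeasureTheory.integral_const_mul, hreal z h0]
      have h3 : Real.exp (-(δ * nm z)) / (nm z : ℝ) ≤ Real.exp (-(δ * nm z)) :=
        div_le_self (Real.exp_pos _).le h1
      calc ‖χ z‖ * (Real.exp (-(δ * nm z)) / (nm z : ℝ)) ≤ 1 * Real.exp (-(δ * nm z)) :=
            mul_le_mul (hχ.le z) h3 (by positivity) zero_le_one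
        _ = Real.exp (-(δ * nm z)) := one_mul _
  have hs := MeasureTheory.hasSum_integral_of_summable_integral_norm
    (μ := MeasureTheory.volume.restrict (Set.Ioi δ))
    (F := fun z s => χ z * ((Real.exp (-(s * nm z)) : ℝ) : ℂ)) (fun z => hint z) hnorm
  simp only [hval] at hs
  exact hs.tsum_eq.symm

private theorem hint_integrable (D : ℕ) (hD : 0 < D) (χ : G → ℂ) (hχ : Chi D χ) (hnp : ¬ Pri D χ) :
    MeasureTheory.IntegrableOn (HH χ) (Set.Ioi 0) := by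
  obtain ⟨c, C, hc, hC, hsm⟩ := HH_small D hD χ hχ hnp
  obtain ⟨C', hC', hlg⟩ := HH_large D χ hχ
  have hcont := HH_cont D χ hχ
  have h1 : MeasureTheory.IntegrableOn (HH χ) (Set.Ioc 0 1) := by
    refine MeasureTheory.IntegrableOn.of_bound (by simp)
      ((hcont.mono fun s hs => hs.1).aestronglyMeasurable measurableSet_Ioc) (C / c) ?_
    refine (MeasureTheory.ae_restrict_iff' measurableSet_Ioc).2 (Filter.Eventually.of_forall fun s hs => ?_)
    refine (hsm s hs.1 hs.2).trans ?_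
    have h2 : c / s * Real.exp (-(c / s)) ≤ 1 := by
      rw [Real.exp_neg, ← div_eq_mul_inv, div_le_one (Real.exp_pos _)]
      have := Real.add_one_le_exp (c / s)
      linarith
    calc C / s * Real.exp (-(c / s)) = C / c * (c / s * Real.exp (-(c / s))) := by
          field_simp
      _ ≤ C / c * 1 := mul_le_mul_of_nonneg_left h2 (by positivity)
      _ = C / c := mul_one _
  have hsub : Set.Ioi (1 : ℝ) ⊆ Set.Ioi 0 := Set.Ioi_subset_Ioi zero_le_one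
  have h3 : MeasureTheory.IntegrableOn (HH χ) (Set.Ioi 1) := by
    have h4 := (exp_neg_integrableOn_Ioi (1 : ℝ) (by norm_num : (0 : ℝ) < 1 / 2)).const_mul C'
    refine MeasureTheory.Integrable.mono' h4
      ((hcont.mono hsub).aestronglyMeasurable measurableSet_Ioi) ?_
    refine (MeasureTheory.ae_restrict_iff' measurableSet_Ioi).2 (Filter.Eventually.of_forall fun s hs => ?_)
    refine (hlg s (le_of_lt hs)).trans (le_of_eq ?_)
    show C' * Real.exp (-(s / 2)) = C' * Real.exp (-(1 / 2) * s)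
    congr 2
    ring
  have h5 : Set.Ioi (0 : ℝ) = Set.Ioc 0 1 ∪ Set.Ioi 1 := (Set.Ioc_union_Ioi_eq_Ioi zero_le_one).symm
  rw [h5]
  exact h1.union h3

/-- `∫_δ^∞ HH χ = ∑_(z ≠ 0) χ z exp (-δ nm z) / nm z` (termwise) and the right side is `∑ χ z / nm z * δ ∫_(nm z)^∞ exp (-δ t) dt = δ ∫_0^∞ exp (-δ t) SL χ t dt → l` as `δ → 0` (`SL χ t → l`, `SL` bounded: `l_lim`). And `∫_0^δ |HH| → 0` (`HH_small`). -/
theorem h_int (D : ℕ) (hD : 0 < D) (χ : G → ℂ) (hχ : Chi D χ) (hnp : ¬ Pri D χ) :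
    Filter.Tendsto (SL χ) Filter.atTop (nhds (∫ s in Set.Ioi (0 : ℝ), HH χ s)) := by
  obtain ⟨l, η, C, hη, hη1, hC, hl⟩ := l_lim D hD χ hχ hnp
  have hSL : Filter.Tendsto (SL χ) Filter.atTop (nhds l) := by
    rw [tendsto_iff_norm_sub_tendsto_zero]
    have h1 : Filter.Tendsto (fun Y : ℝ => C * Y ^ (-η)) Filter.atTop (nhds 0) := by
      have := (tendsto_rpow_neg_atTop hη).const_mul C
      rwa [mul_zero] at this
    refine squeeze_zero' (Filter.Eventually.of_forall fun Y => norm_nonneg _) ?_ h1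
    filter_upwards [Filter.eventually_ge_atTop (1 : ℝ)] with Y hY
    exact hl Y hY
  have hpart : Filter.Tendsto (fun n : ℕ => ∑ i ∈ range n, hf χ i) Filter.atTop (nhds l) := by
    rw [← Filter.tendsto_add_atTop_iff_nat 1]
    refine (hSL.comp tendsto_natCast_atTop_atTop).congr fun n => ?_
    rw [hf_SL]
    rfl
  -- the sequence
  have hpos : ∀ n : ℕ, (0 : ℝ) < 1 / ((n : ℝ) + 1) := fun n => by positivity
  have hδ0 : Filter.Tendsto (fun n : ℕ => 1 / ((n : ℝ) + 1)) Filter.atTop (nhds 0) :=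
    tendsto_one_div_add_atTop_nhds_zero_nat
  have hxn : Filter.Tendsto (fun n : ℕ => Real.exp (-(1 / ((n : ℝ) + 1)))) Filter.atTop
      (nhdsWithin 1 (Set.Iio 1)) := by
    rw [tendsto_nhdsWithin_iff]
    refine ⟨?_, Filter.Eventually.of_forall fun n => ?_⟩
    · have h1 : Filter.Tendsto (fun n : ℕ => Real.exp (-(1 / ((n : ℝ) + 1)))) Filter.atTop
          (nhds (Real.exp (-0))) := (Real.continuous_exp.tendsto _).comp hδ0.neg
      rwa [neg_zero, Real.exp_zero] at h1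
    · rw [Set.mem_Iio, Real.exp_lt_one_iff]
      have := hpos n
      linarith
  have hab := Filter.tendsto_map'_iff.1 (Complex.tendsto_tsum_powerSeries_nhdsWithin_lt hpart)
  have h2 := hab.comp hxn
  have h3 : Filter.Tendsto (fun n : ℕ => ∫ s in Set.Ioi (1 / ((n : ℝ) + 1)), HH χ s) Filter.atTop
      (nhds l) := by
    refine h2.congr fun n => ?_
    show ∑' m : ℕ, hf χ m * ((Real.exp (-(1 / ((n : ℝ) + 1))) : ℝ) : ℂ) ^ m = _
    rw [hint_tsum hχ hpart (hpos n), hint_int hχ (hpos n)]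
  have hU : (⋃ n : ℕ, Set.Ioi (1 / ((n : ℝ) + 1))) = Set.Ioi (0 : ℝ) := by
    ext s
    rw [Set.mem_iUnion, Set.mem_Ioi]
    constructor
    · rintro ⟨n, hn⟩
      exact lt_trans (hpos n) hn
    · intro hs
      obtain ⟨n, hn⟩ := exists_nat_one_div_lt hs
      exact ⟨n, hn⟩
  have h4 := MeasureTheory.tendsto_setIntegral_of_monotone (μ := MeasureTheory.volume)
    (f := HH χ) (s := fun n : ℕ => Set.Ioi (1 / ((n : ℝ) + 1)))
    (fun n => measurableSet_Ioi)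
    (fun a b hab => Set.Ioi_subset_Ioi (one_div_le_one_div_of_le (by positivity)
      (by
        have : (a : ℝ) ≤ b := by exact_mod_cast hab
        linarith)))
    (by rw [hU]; exact hint_integrable D hD χ hχ hnp)
  rw [hU] at h4
  rw [← tendsto_nhds_unique h3 h4]
  exact hSL

end Pool.Agent.ECM

end

/-! ### from `Lib_MP_f1a94e_aq.ZSum` -/

section

/-!
# Piece ZSUM: the oscillating sum over primes `1 mod 4` and the Euler product
-/

set_option autoImplicit false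

namespace Pool.Agent.OmAll

open Finset

/-- `1[p = 1 mod 4] = (1 + χ₄(p)) / 2` for odd `p` (`p = 2` costs `O(1)`); `smooth_cut` with `f p = cos (2 τ log p)`,
`zeta_upper` and `chi_upper` with `δ = 1 / log T`, `t = 2 τ`. -/
theorem zsum (N : ℝ) (hN : 0 < N) : ∃ C : ℝ, ∀ T : ℕ, 3 ≤ T → ∀ τ : ℝ, 0 < |τ| → |τ| ≤ N →
    ∑ p ∈ PT T, Real.cos (2 * τ * Real.log p) / p ≤ Real.log (1 / |τ|) / 2 + C := by
  obtain ⟨C1, h1⟩ := smooth_cut
  obtain ⟨C2, h2⟩ := zeta_upper (2 * N) (by linarith)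
  obtain ⟨C3, h3⟩ := chi_upper (2 * N) (by linarith)
  refine ⟨C1 + C2 / 2 + C3 / 2 + 1 / 2, fun T hT τ hτ hτN => ?_⟩
  have hL := ZSm.one_le_logT hT
  set L := Real.log T with hLdef
  have hδ0 : 0 < 1 / L := by positivity
  have hδ1 : 1 / L ≤ 1 := by
    rw [div_le_one (by linarith)]
    exact hL
  have habs : |2 * τ| = 2 * |τ| := by
    rw [abs_mul, abs_of_pos (by norm_num : (0 : ℝ) < 2)]
  have h1' := (h1 T hT (fun p => Real.cos (2 * τ * Real.log p)) (fun p => Real.abs_cos_le_one _)).2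
  have h2' := h2 (1 / L) (2 * τ) hδ0 hδ1 (by rw [habs]; linarith) (by rw [habs]; linarith)
  have h3' := h3 (1 / L) (2 * τ) hδ0 hδ1 (by rw [habs]; linarith)
  rw [← hLdef] at h1'
  set s := 1 + 1 / L with hs
  have hsum1 : Summable (fun p : ℕ => 1 / (p : ℝ) ^ s) :=
    Real.summable_one_div_nat_rpow.mpr (by linarith)
  have hb : ∀ (p : ℕ) (c : ℝ), |c| ≤ 1 →
      ‖(if p.Prime then c / (p : ℝ) ^ s else 0 : ℝ)‖ ≤ 1 / (p : ℝ) ^ s := by
    intro p c hc
    split_ifs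
    · rw [norm_div, Real.norm_eq_abs, Real.norm_of_nonneg (by positivity)]
      exact div_le_div_of_nonneg_right hc (by positivity)
    · rw [norm_zero]
      positivity
  have hA : Summable (fun p : ℕ => if p.Prime then Real.cos (2 * τ * Real.log p) / (p : ℝ) ^ s
      else 0) :=
    Summable.of_norm_bounded hsum1 (fun p => hb p _ (Real.abs_cos_le_one _))
  have hchi : ∀ p : ℕ, p.Prime → p % 4 = 1 ∧ (ZMod.χ₄ (p : ZMod 4) : ℝ) = 1 ∨
      p % 4 = 3 ∧ (ZMod.χ₄ (p : ZMod 4) : ℝ) = -1 ∨ p = 2 ∧ (ZMod.χ₄ (p : ZMod 4) : ℝ) = 0 := by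
    intro p hp
    rcases hp.eq_two_or_odd with h | h
    · refine Or.inr (Or.inr ⟨h, ?_⟩)
      rw [h, ZMod.χ₄_nat_eq_if_mod_four]
      simp
    · have h4 : p % 4 = 1 ∨ p % 4 = 3 := by omega
      rcases h4 with h4 | h4
      · refine Or.inl ⟨h4, ?_⟩
        rw [ZMod.χ₄_nat_one_mod_four h4]
        simp
      · refine Or.inr (Or.inl ⟨h4, ?_⟩)
        rw [ZMod.χ₄_nat_three_mod_four h4]
        simp
  have hB : Summable (fun p : ℕ => if p.Prime then
      (ZMod.χ₄ (p : ZMod 4) : ℝ) * Real.cos (2 * τ * Real.log p) / (p : ℝ) ^ s else 0) := by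
    refine Summable.of_norm_bounded hsum1 (fun p => ?_)
    by_cases hp : p.Prime
    · apply hb p
      rw [abs_mul]
      have h5 : |(ZMod.χ₄ (p : ZMod 4) : ℝ)| ≤ 1 := by
        rcases hchi p hp with ⟨-, h⟩ | ⟨-, h⟩ | ⟨-, h⟩ <;> rw [h] <;> norm_num
      calc |(ZMod.χ₄ (p : ZMod 4) : ℝ)| * |Real.cos (2 * τ * Real.log p)|
          ≤ 1 * 1 := mul_le_mul h5 (Real.abs_cos_le_one _) (abs_nonneg _) zero_le_one
        _ = 1 := one_mul 1
    · rw [if_neg hp, norm_zero]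
      positivity
  have hC : HasSum (fun p : ℕ => if p = 2 then Real.cos (2 * τ * Real.log 2) / (2 : ℝ) ^ s / 2
      else 0) (Real.cos (2 * τ * Real.log 2) / (2 : ℝ) ^ s / 2) :=
    hasSum_ite_eq 2 _
  have hid : ∀ p : ℕ, (if p.Prime ∧ p % 4 = 1 then Real.cos (2 * τ * Real.log p) / (p : ℝ) ^ s
      else 0) = ((if p.Prime then Real.cos (2 * τ * Real.log p) / (p : ℝ) ^ s else 0) / 2 +
      (if p.Prime then
      (ZMod.χ₄ (p : ZMod 4) : ℝ) * Real.cos (2 * τ * Real.log p) / (p : ℝ) ^ s else 0) / 2) -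
      (if p = 2 then Real.cos (2 * τ * Real.log 2) / (2 : ℝ) ^ s / 2 else 0) := by
    intro p
    by_cases hp : p.Prime
    · rcases hchi p hp with ⟨h, h'⟩ | ⟨h, h'⟩ | ⟨h, h'⟩
      · rw [if_pos ⟨hp, h⟩, if_pos hp, if_pos hp, if_neg (by omega), h']
        ring
      · rw [if_neg (fun hc => by omega), if_pos hp, if_pos hp, if_neg (by omega), h']
        ring
      · rw [if_neg (fun hc => by omega), if_pos hp, if_pos hp, if_pos h, h', h]
        push_cast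
        ring
    · rw [if_neg (fun hc => hp hc.1), if_neg hp, if_neg hp, if_neg]
      · ring
      · rintro rfl
        exact hp Nat.prime_two
  have htsum : ∑' p : ℕ, (if p.Prime ∧ p % 4 = 1 then
      Real.cos (2 * τ * Real.log p) / (p : ℝ) ^ s else 0) =
      ((∑' p : ℕ, if p.Prime then Real.cos (2 * τ * Real.log p) / (p : ℝ) ^ s else 0) / 2 +
      (∑' p : ℕ, if p.Prime then
      (ZMod.χ₄ (p : ZMod 4) : ℝ) * Real.cos (2 * τ * Real.log p) / (p : ℝ) ^ s else 0) / 2) -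
      Real.cos (2 * τ * Real.log 2) / (2 : ℝ) ^ s / 2 := by
    have h6 := (((hA.hasSum.div_const 2).add (hB.hasSum.div_const 2)).sub hC).tsum_eq
    rw [← h6]
    exact tsum_congr hid
  have h2s : |Real.cos (2 * τ * Real.log 2) / (2 : ℝ) ^ s / 2| ≤ 1 / 2 := by
    have h7 : (1 : ℝ) ≤ (2 : ℝ) ^ s := Real.one_le_rpow (by norm_num) (by linarith)
    rw [abs_div, abs_div, abs_of_pos (by linarith : (0 : ℝ) < (2 : ℝ) ^ s),
      abs_of_pos (by norm_num : (0 : ℝ) < 2)]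
    have h8 : |Real.cos (2 * τ * Real.log 2)| / (2 : ℝ) ^ s ≤ 1 := by
      rw [div_le_one (by linarith)]
      exact (Real.abs_cos_le_one _).trans h7
    linarith
  have hlog : Real.log (1 / |2 * τ|) ≤ Real.log (1 / |τ|) := by
    apply Real.log_le_log
    · rw [habs]; positivity
    · rw [habs]
      apply one_div_le_one_div_of_le hτ
      linarith
  rw [htsum] at h1'
  rw [abs_le] at h1' h2s
  linarith [h1'.2, h2s.1, h2s.2]

/-- `1 + u ≤ exp u` (the factors are nonnegative: `2 Ap p ≤ 4/5`), `2 Ap p cos ≤ (4/p) cos + 12/p^2` (`Ap_bound`), `∑ 12/p^2 ≤ C`, `zsum`. -/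
theorem prod_bound (N : ℝ) (hN : 0 < N) : ∃ C : ℝ, 0 < C ∧ ∀ T : ℕ, 3 ≤ T → ∀ τ : ℝ, 0 < |τ| → |τ| ≤ N →
    ∏ p ∈ PT T, (1 + 2 * Ap p * Real.cos (2 * τ * Real.log p)) ≤ C / τ ^ 2 := by
  obtain ⟨C, hC⟩ := zsum N hN
  have hs : Summable (fun p : ℕ => 12 / (p : ℝ) ^ 2) := by
    have := (Real.summable_one_div_nat_pow (p := 2)).mpr (by norm_num)
    refine (this.mul_left 12).congr (fun p => ?_)
    ring
  set S := ∑' p : ℕ, 12 / (p : ℝ) ^ 2 with hS
  refine ⟨Real.exp (4 * C + S), Real.exp_pos _, fun T hT τ hτ hτN => ?_⟩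
  have h1 : ∏ p ∈ PT T, (1 + 2 * Ap p * Real.cos (2 * τ * Real.log p)) ≤
      ∏ p ∈ PT T, Real.exp (2 * Ap p * Real.cos (2 * τ * Real.log p)) := by
    apply prod_le_prod
    · intro p hp
      obtain ⟨h2, h3, -⟩ := Ap_bound p (ZSm.PT_five hp)
      have h5 : (5 : ℝ) ≤ p := by exact_mod_cast ZSm.PT_five hp
      have h4 : 4 / (p : ℝ) ≤ 1 := by
        rw [div_le_one (by linarith)]
        linarith
      have h6 := Real.neg_one_le_cos (2 * τ * Real.log p)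
      nlinarith
    · intro p _
      have := Real.add_one_le_exp (2 * Ap p * Real.cos (2 * τ * Real.log p))
      linarith
  have h2 : ∑ p ∈ PT T, 2 * Ap p * Real.cos (2 * τ * Real.log p) ≤
      4 * ∑ p ∈ PT T, Real.cos (2 * τ * Real.log p) / p + S := by
    have h3 : ∑ p ∈ PT T, 12 / (p : ℝ) ^ 2 ≤ S := hs.sum_le_tsum _ (fun p _ => by positivity)
    have h4 : ∑ p ∈ PT T, 2 * Ap p * Real.cos (2 * τ * Real.log p) ≤
        ∑ p ∈ PT T, (4 * (Real.cos (2 * τ * Real.log p) / p) + 12 / (p : ℝ) ^ 2) := by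
      apply sum_le_sum
      intro p hp
      obtain ⟨h5, h6, h7⟩ := Ap_bound p (ZSm.PT_five hp)
      have h8 := Real.neg_one_le_cos (2 * τ * Real.log p)
      have h9 : 4 * (Real.cos (2 * τ * Real.log p) / p) =
        4 / p * Real.cos (2 * τ * Real.log p) := by ring
      rw [h9]
      nlinarith
    rw [sum_add_distrib, ← mul_sum] at h4
    linarith
  have h3 := hC T hT τ hτ hτN
  calc ∏ p ∈ PT T, (1 + 2 * Ap p * Real.cos (2 * τ * Real.log p))
      ≤ Real.exp (∑ p ∈ PT T, 2 * Ap p * Real.cos (2 * τ * Real.log p)) := by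
        rw [Real.exp_sum]
        exact h1
    _ ≤ Real.exp (2 * Real.log (1 / |τ|) + (4 * C + S)) := by
        apply Real.exp_le_exp.mpr
        linarith
    _ = Real.exp (4 * C + S) / τ ^ 2 := by
        rw [Real.exp_add, two_mul, Real.exp_add, Real.exp_log (by positivity)]
        rw [← sq_abs τ]
        field_simp

namespace ZSu

theorem expand3 {R : Type} [CommRing R] (S : Finset ℕ) (x y : ℕ → R) :
    ∏ p ∈ S, (1 + x p + y p) =
      ∑ A ∈ S.powerset, ∑ B ∈ (S \ A).powerset, (∏ p ∈ A, x p) * ∏ p ∈ B, y p := by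
  have h : ∀ p ∈ S, (1 + x p + y p) = x p + (1 + y p) := by
    intro p _
    ring
  rw [prod_congr rfl h, prod_add]
  apply sum_congr rfl
  intro A _
  rw [prod_one_add, mul_sum]

theorem sum_GG (T : ℕ) {M : Type} [AddCommMonoid M] (F : ℕ × ℕ → M) :
    ∑ g ∈ GG T, F g = ∑ A ∈ (PT T).powerset, ∑ B ∈ (PT T \ A).powerset,
      F (∏ p ∈ A, p, ∏ p ∈ B, p) := by
  have hpr : ∀ S : Finset ℕ, S ⊆ PT T → ∀ p ∈ S, p.Prime := fun S hS p hp =>
    (ZSm.mem_PT.mp (hS hp)).2.1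
  have hsq : Squarefree (∏ p ∈ PT T, p) := by
    apply Finset.squarefree_prod_of_pairwise_isCoprime
    · intro p hp q hq hpq
      exact Nat.coprime_iff_isRelPrime.mp
        ((Nat.coprime_primes (hpr _ subset_rfl p hp) (hpr _ subset_rfl q hq)).mpr hpq)
    · intro p hp
      exact (hpr _ subset_rfl p hp).prime.irreducible.squarefree
  have hne : ∏ p ∈ PT T, p ≠ 0 := hsq.ne_zero
  rw [Finset.sum_sigma']
  symm
  refine Finset.sum_bij' (fun x _ => ((∏ p ∈ x.1, p, ∏ p ∈ x.2, p) : ℕ × ℕ))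
    (fun g _ => ⟨g.1.primeFactors, g.2.primeFactors⟩) ?_ ?_ ?_ ?_ ?_
  · rintro ⟨A, B⟩ hx
    rw [mem_sigma, mem_powerset, mem_powerset] at hx
    obtain ⟨hA, hB⟩ := hx
    have hB' : B ⊆ PT T := hB.trans sdiff_subset
    rw [GG, mem_filter, mem_product, Nat.mem_divisors, Nat.mem_divisors]
    refine ⟨⟨⟨prod_dvd_prod_of_subset _ _ _ hA, hne⟩, ⟨prod_dvd_prod_of_subset _ _ _ hB', hne⟩⟩, ?_⟩
    apply Nat.Coprime.prod_left
    intro p hp
    apply Nat.Coprime.prod_right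
    intro q hq
    rw [Nat.coprime_primes (hpr A hA p hp) (hpr B hB' q hq)]
    rintro rfl
    exact (mem_sdiff.mp (hB hq)).2 hp
  · intro g hg
    rw [GG, mem_filter, mem_product, Nat.mem_divisors, Nat.mem_divisors] at hg
    obtain ⟨⟨⟨h1, -⟩, ⟨h2, -⟩⟩, h3⟩ := hg
    rw [mem_sigma, mem_powerset, mem_powerset]
    have e : (∏ p ∈ PT T, p).primeFactors = PT T := Nat.primeFactors_prod (hpr _ subset_rfl)
    refine ⟨(Nat.primeFactors_mono h1 hne).trans e.subset, ?_⟩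
    intro p hp
    rw [mem_sdiff]
    refine ⟨e.subset (Nat.primeFactors_mono h2 hne hp), fun hp' => ?_⟩
    exact (disjoint_left.mp h3.disjoint_primeFactors) hp' hp
  · rintro ⟨A, B⟩ hx
    rw [mem_sigma, mem_powerset, mem_powerset] at hx
    obtain ⟨hA, hB⟩ := hx
    have hB' : B ⊆ PT T := hB.trans sdiff_subset
    simp only [Nat.primeFactors_prod (hpr A hA), Nat.primeFactors_prod (hpr B hB')]
  · intro g hg
    rw [GG, mem_filter, mem_product, Nat.mem_divisors, Nat.mem_divisors] at hg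
    obtain ⟨⟨⟨h1, -⟩, ⟨h2, -⟩⟩, h3⟩ := hg
    simp only [Nat.prod_primeFactors_of_squarefree (hsq.squarefree_of_dvd h1),
      Nat.prod_primeFactors_of_squarefree (hsq.squarefree_of_dvd h2)]
  · intro x _
    rfl

end ZSu

/-- Expand the product `∏ (1 + Ap p e^(2 i τ log p) + Ap p e^(-2 i τ log p))` over the primes of `PT T` (every prime goes to `g`, to `g'`
or to neither) and take real parts; the product is real. -/
theorem prod_expand (T : ℕ) (τ : ℝ) :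
    ∑ g ∈ GG T, (∏ p ∈ (g.1 * g.2).primeFactors, Ap p) *
      Real.cos (τ * (2 * Real.log ((g.1 : ℝ) / g.2))) =
    ∏ p ∈ PT T, (1 + 2 * Ap p * Real.cos (2 * τ * Real.log p)) := by
  have hpr : ∀ S : Finset ℕ, S ⊆ PT T → ∀ p ∈ S, p.Prime := fun S hS p hp =>
    (ZSm.mem_PT.mp (hS hp)).2.1
  rw [ZSu.sum_GG]
  let x : ℕ → ℂ := fun p => (Ap p : ℂ) * Complex.exp ((2 * τ * Real.log p : ℝ) * Complex.I)
  let y : ℕ → ℂ := fun p => (Ap p : ℂ) * Complex.exp (-((2 * τ * Real.log p : ℝ) * Complex.I))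
  have h1 : ((∏ p ∈ PT T, (1 + 2 * Ap p * Real.cos (2 * τ * Real.log p)) : ℝ) : ℂ) =
      ∏ p ∈ PT T, (1 + x p + y p) := by
    push_cast
    apply prod_congr rfl
    intro p _
    simp only [x, y]
    rw [Complex.cos]
    push_cast
    rw [neg_mul]
    ring
  rw [ZSu.expand3] at h1
  have h2 := congrArg Complex.re h1
  rw [Complex.ofReal_re, Complex.re_sum] at h2
  rw [h2]
  apply sum_congr rfl
  intro A hA
  rw [Complex.re_sum]
  apply sum_congr rfl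
  intro B hB
  rw [mem_powerset] at hA hB
  have hB' : B ⊆ PT T := hB.trans sdiff_subset
  have hdis : Disjoint A B := by
    rw [disjoint_left]
    intro p hp hp'
    exact (mem_sdiff.mp (hB hp')).2 hp
  have hA0 : ∏ p ∈ A, p ≠ 0 := prod_ne_zero_iff.mpr (fun p hp => (hpr A hA p hp).ne_zero)
  have hB0 : ∏ p ∈ B, p ≠ 0 := prod_ne_zero_iff.mpr (fun p hp => (hpr B hB' p hp).ne_zero)
  have hpf : ((∏ p ∈ A, p) * ∏ p ∈ B, p).primeFactors = A ∪ B := by
    rw [Nat.primeFactors_mul hA0 hB0, Nat.primeFactors_prod (hpr A hA),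
      Nat.primeFactors_prod (hpr B hB')]
  have hlog : τ * (2 * Real.log (((∏ p ∈ A, p : ℕ) : ℝ) / ((∏ p ∈ B, p : ℕ) : ℝ))) =
      ∑ p ∈ A, 2 * τ * Real.log p + ∑ p ∈ B, -(2 * τ * Real.log p) := by
    rw [Real.log_div (by exact_mod_cast hA0) (by exact_mod_cast hB0)]
    push_cast
    rw [Real.log_prod (fun p hp => by exact_mod_cast (hpr A hA p hp).ne_zero),
      Real.log_prod (fun p hp => by exact_mod_cast (hpr B hB' p hp).ne_zero)]
    rw [sum_neg_distrib, ← mul_sum, ← mul_sum]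
    ring
  have hx : ∏ p ∈ A, x p = ((∏ p ∈ A, Ap p : ℝ) : ℂ) *
      Complex.exp ((∑ p ∈ A, 2 * τ * Real.log p : ℝ) * Complex.I) := by
    simp only [x]
    rw [prod_mul_distrib, ← Complex.exp_sum]
    push_cast
    rw [sum_mul]
  have hy : ∏ p ∈ B, y p = ((∏ p ∈ B, Ap p : ℝ) : ℂ) *
      Complex.exp ((∑ p ∈ B, -(2 * τ * Real.log p) : ℝ) * Complex.I) := by
    simp only [y]
    rw [prod_mul_distrib, ← Complex.exp_sum]
    push_cast
    rw [sum_mul]
    congr 2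
    apply sum_congr rfl
    intro p _
    ring
  rw [hpf, prod_union hdis, hlog, hx, hy]
  have h3 : ((∏ p ∈ A, Ap p : ℝ) : ℂ) *
      Complex.exp ((∑ p ∈ A, 2 * τ * Real.log p : ℝ) * Complex.I) *
      (((∏ p ∈ B, Ap p : ℝ) : ℂ) *
      Complex.exp ((∑ p ∈ B, -(2 * τ * Real.log p) : ℝ) * Complex.I)) =
      (((∏ p ∈ A, Ap p) * ∏ p ∈ B, Ap p : ℝ) : ℂ) * Complex.exp
        ((∑ p ∈ A, 2 * τ * Real.log p + ∑ p ∈ B, -(2 * τ * Real.log p) : ℝ) * Complex.I) := by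
    rw [Complex.ofReal_add (∑ p ∈ A, 2 * τ * Real.log p), add_mul, Complex.exp_add,
      Complex.ofReal_mul]
    ring
  rw [h3, Complex.re_ofReal_mul, Complex.exp_ofReal_mul_I_re]

end Pool.Agent.OmAll

end

/-! ### from `Lib_MP_f1a94e_mr.HTLog` -/

section

/-!
# Piece HTLOG: logarithmic sums of `y ^ Ω(n)`
-/

set_option autoImplicit false

namespace Pool.Agent.GaussMR

theorem N1_one : N1 1 := by
  refine ⟨one_ne_zero, ?_⟩
  intro p hp h
  exact absurd (Nat.dvd_one.1 h) hp.one_lt.ne'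

theorem N1_zero : ¬ N1 0 := fun h => h.1 rfl

theorem N1_mul {m n : ℕ} : N1 (m * n) ↔ N1 m ∧ N1 n := by
  constructor
  · rintro ⟨h1, h2⟩
    refine ⟨⟨left_ne_zero_of_mul h1, fun p hp hd => h2 p hp (hd.mul_right n)⟩,
      ⟨right_ne_zero_of_mul h1, fun p hp hd => h2 p hp (hd.mul_left m)⟩⟩
  · rintro ⟨⟨h1, h2⟩, ⟨h3, h4⟩⟩
    refine ⟨mul_ne_zero h1 h3, ?_⟩
    intro p hp hd
    rcases (Nat.Prime.dvd_mul hp).1 hd with h | h
    · exact h2 p hp h
    · exact h4 p hp h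

theorem N1_prime {p : ℕ} (hp : p.Prime) : N1 p ↔ p % 4 = 1 := by
  constructor
  · intro h; exact h.2 p hp dvd_rfl
  · intro h
    refine ⟨hp.ne_zero, ?_⟩
    intro q hq hd
    rw [(Nat.prime_dvd_prime_iff_eq hq hp).1 hd]
    exact h

open Classical in
/-- `F(n) = y ^ Ω(n)` if `N1 n`, otherwise `0`. -/
noncomputable def FN (y : ℝ) (n : ℕ) : ℝ :=
  if N1 n then y ^ (ArithmeticFunction.cardFactors n) else 0

theorem FN_nonneg {y : ℝ} (hy : 0 < y) (n : ℕ) : 0 ≤ FN y n := by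
  unfold FN
  split_ifs
  · positivity
  · exact le_rfl

theorem FN_one (y : ℝ) : FN y 1 = 1 := by
  unfold FN
  rw [if_pos N1_one]
  simp

theorem FN_zero (y : ℝ) : FN y 0 = 0 := by
  unfold FN
  rw [if_neg N1_zero]

theorem FN_mul (y : ℝ) (m n : ℕ) : FN y (m * n) = FN y m * FN y n := by
  unfold FN
  by_cases hm : N1 m
  · by_cases hn : N1 n
    · rw [if_pos hm, if_pos hn, if_pos (N1_mul.2 ⟨hm, hn⟩),
        ArithmeticFunction.cardFactors_mul hm.1 hn.1, pow_add]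
    · rw [if_neg hn, if_neg (fun h => hn (N1_mul.1 h).2), mul_zero]
  · rw [if_neg hm, if_neg (fun h => hm (N1_mul.1 h).1), zero_mul]

/-- the completely multiplicative function `F(n) / n`. -/
noncomputable def fN (y : ℝ) : ℕ →* ℝ where
  toFun n := FN y n / n
  map_one' := by simp [FN_one]
  map_mul' m n := by
    simp only [FN_mul]
    push_cast
    rw [mul_div_mul_comm]

theorem fN_apply (y : ℝ) (n : ℕ) : fN y n = FN y n / n := rfl

open Classical in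
theorem fN_prime (y : ℝ) {p : ℕ} (hp : p.Prime) :
    fN y p = if p % 4 = 1 then y / p else 0 := by
  rw [fN_apply, FN]
  by_cases h : p % 4 = 1
  · rw [if_pos h, if_pos ((N1_prime hp).2 h), ArithmeticFunction.cardFactors_apply_prime hp, pow_one]
  · rw [if_neg h, if_neg (fun h' => h ((N1_prime hp).1 h')), zero_div]

theorem five_le {p : ℕ} (hp : p.Prime) (h : p % 4 = 1) : 5 ≤ p := by
  have h2 := hp.two_le
  omega

theorem fN_prime_le {y : ℝ} (hy : 0 < y) (hy4 : y ≤ 4) {p : ℕ} (hp : p.Prime) :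
    0 ≤ fN y p ∧ fN y p ≤ 4 / 5 := by
  classical
  rw [fN_prime y hp]
  split_ifs with h
  · have h5 : (5:ℝ) ≤ p := by exact_mod_cast five_le hp h
    constructor
    · positivity
    · rw [div_le_div_iff₀ (by linarith) (by norm_num)]
      nlinarith
  · constructor <;> norm_num

theorem inv_le_exp {t : ℝ} (h0 : 0 ≤ t) (h1 : t ≤ 4 / 5) : (1 - t)⁻¹ ≤ Real.exp (t + 5 * t ^ 2) := by
  have h2 : 0 < 1 - t := by linarith
  rw [inv_le_iff_one_le_mul₀ h2]
  have h3 := Real.quadratic_le_exp_of_nonneg (show 0 ≤ t + 5 * t ^ 2 by positivity)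
  have h4 : 1 ≤ (1 + (t + 5 * t ^ 2) + (t + 5 * t ^ 2) ^ 2 / 2) * (1 - t) := by
    have h5 : t ^ 2 ≤ (t + 5 * t ^ 2) ^ 2 := by
      apply pow_le_pow_left₀ h0
      nlinarith [sq_nonneg t]
    have h6 : (1 + (t + 5 * t ^ 2) + t ^ 2 / 2) * (1 - t) ≤
        (1 + (t + 5 * t ^ 2) + (t + 5 * t ^ 2) ^ 2 / 2) * (1 - t) := by
      apply mul_le_mul_of_nonneg_right _ h2.le
      linarith
    have h7 : 1 ≤ (1 + (t + 5 * t ^ 2) + t ^ 2 / 2) * (1 - t) := by
      have : (1 + (t + 5 * t ^ 2) + t ^ 2 / 2) * (1 - t) = 1 + t ^ 2 * (9 / 2 - 11 / 2 * t) := by ring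
      rw [this]
      have : 0 ≤ t ^ 2 * (9 / 2 - 11 / 2 * t) := by
        apply mul_nonneg (sq_nonneg t)
        linarith
      linarith
    linarith
  exact h4.trans (mul_le_mul_of_nonneg_right h3 h2.le)

theorem sum_inv_sq_le (N : ℕ) : ∑ n ∈ Finset.Icc 1 N, (1:ℝ) / (n:ℝ) ^ 2 ≤ 2 := by
  have key : ∀ N : ℕ, ∑ n ∈ Finset.Icc 1 (N + 1), (1:ℝ) / (n:ℝ) ^ 2 ≤ 2 - 1 / ((N:ℝ) + 1) := by
    intro N
    induction N with
    | zero => simp; norm_num
    | succ N ih =>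
      rw [Finset.sum_Icc_succ_top (by omega)]
      have hN : (0:ℝ) ≤ N := Nat.cast_nonneg N
      have h1 : (1:ℝ) / (((N + 1 + 1 : ℕ) : ℝ)) ^ 2 ≤
          1 / ((N:ℝ) + 1) - 1 / (((N + 1 : ℕ) : ℝ) + 1) := by
        push_cast
        rw [div_sub_div _ _ (by positivity) (by positivity),
          div_le_div_iff₀ (by positivity) (by positivity)]
        nlinarith
      linarith
  rcases N with _ | N
  · simp
  · have := key N
    have h2 : 0 ≤ 1 / ((N:ℝ) + 1) := by positivity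
    linarith

open Classical in
/-- `f(n) = y ^ Ω(n) / n` for `N1 n`, `0` otherwise, is completely multiplicative and
`∑_{n ≤ N} f(n) ≤ ∏_{p ≤ N, p = 1 mod 4} (1 - y / p)⁻¹` (Euler product over smooth numbers, Mathlib
`EulerProduct.summable_and_hasSum_smoothNumbers_prod_primesBelow_geometric`; `y / p ≤ 4 / 5`), which by
`mertens` is at most `C (1 + log N) ^ (y / 2)`. -/
theorem ht_log (y : ℝ) (hy : 0 < y) (hy4 : y ≤ 4) : ∃ C : ℝ, 0 < C ∧ ∀ N : ℕ, 1 ≤ N →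
    ∑ n ∈ (Finset.Icc 1 N).filter N1, y ^ (ArithmeticFunction.cardFactors n) / (n : ℝ) ≤
      C * (1 + Real.log N) ^ (y / 2) := by
  obtain ⟨C0, hC0⟩ := mertens
  have hnonneg : ∀ n : ℕ, 0 ≤ fN y n := by
    intro n
    rw [fN_apply]
    exact div_nonneg (FN_nonneg hy n) (Nat.cast_nonneg n)
  refine ⟨Real.exp (y * C0 + 160) + 1, by positivity, ?_⟩
  intro N hN
  have hsum : ∑ n ∈ (Finset.Icc 1 N).filter N1, y ^ (ArithmeticFunction.cardFactors n) / (n : ℝ) =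
      ∑ n ∈ Finset.Icc 1 N, fN y n := by
    rw [Finset.sum_filter]
    apply Finset.sum_congr rfl
    intro n _
    rw [fN_apply, FN]
    split_ifs <;> simp
  rw [hsum]
  rcases Nat.lt_or_ge N 2 with h2 | h2
  · have hN1 : N = 1 := by omega
    subst hN1
    simp only [Finset.Icc_self, Finset.sum_singleton, map_one, Nat.cast_one, Real.log_one, add_zero,
      Real.one_rpow, mul_one]
    have := Real.exp_pos (y * C0 + 160)
    linarith
  -- Euler product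
  have hlt : ∀ {p : ℕ}, p.Prime → ‖fN y p‖ < 1 := by
    intro p hp
    have := fN_prime_le hy hy4 hp
    rw [Real.norm_eq_abs, abs_of_nonneg this.1]
    linarith [this.2]
  obtain ⟨hs, hh⟩ := EulerProduct.summable_and_hasSum_smoothNumbers_prod_primesBelow_geometric
    hlt (N + 1)
  have h3 : ∑ n ∈ Finset.Icc 1 N, fN y n ≤ ∏ p ∈ (N + 1).primesBelow, (1 - fN y p)⁻¹ := by
    have hmem : ∀ n ∈ Finset.Icc 1 N, n ∈ (N + 1).smoothNumbers := by
      intro n hn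
      have := Finset.mem_Icc.1 hn
      exact Nat.mem_smoothNumbers_of_lt (by omega) (by omega)
    have e1 : ∑ n ∈ Finset.Icc 1 N, fN y n =
        ∑ m ∈ (Finset.Icc 1 N).subtype (fun n => n ∈ (N + 1).smoothNumbers), fN y m := by
      rw [Finset.sum_subtype_of_mem (fun n => fN y n) hmem]
    rw [e1]
    exact sum_le_hasSum _ (fun m _ => hnonneg m) hh
  -- bound of the product
  have h4 : ∏ p ∈ (N + 1).primesBelow, (1 - fN y p)⁻¹ ≤
      ∏ p ∈ (N + 1).primesBelow, Real.exp (fN y p + 5 * (fN y p) ^ 2) := by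
    apply Finset.prod_le_prod
    · intro p hp
      have := fN_prime_le hy hy4 (Nat.prime_of_mem_primesBelow hp)
      apply inv_nonneg.2
      linarith [this.2]
    · intro p hp
      have := fN_prime_le hy hy4 (Nat.prime_of_mem_primesBelow hp)
      exact inv_le_exp this.1 this.2
  rw [← Real.exp_sum, Finset.sum_add_distrib, ← Finset.mul_sum] at h4
  have hfl : ⌊(N:ℝ)⌋₊ = N := Nat.floor_natCast N
  have h5 : ∑ p ∈ (N + 1).primesBelow, fN y p =
      y * ∑ p ∈ (Finset.Icc 1 ⌊(N:ℝ)⌋₊).filter (fun p => p.Prime ∧ p % 4 = 1), (1 : ℝ) / p := by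
    rw [hfl, Finset.mul_sum]
    have e1 : (Finset.Icc 1 N).filter (fun p => p.Prime ∧ p % 4 = 1) =
        ((N + 1).primesBelow).filter (fun p => p % 4 = 1) := by
      ext p
      simp only [Finset.mem_filter, Finset.mem_Icc, Nat.mem_primesBelow]
      constructor
      · rintro ⟨⟨h1, h2⟩, h3, h4⟩
        exact ⟨⟨by omega, h3⟩, h4⟩
      · rintro ⟨⟨h1, h3⟩, h4⟩
        exact ⟨⟨h3.one_lt.le, by omega⟩, h3, h4⟩
    rw [e1, Finset.sum_filter]
    apply Finset.sum_congr rfl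
    intro p hp
    rw [fN_prime y (Nat.prime_of_mem_primesBelow hp)]
    split_ifs
    · rw [mul_one_div]
    · rfl
  have h6 : ∑ p ∈ (N + 1).primesBelow, (fN y p) ^ 2 ≤ 32 := by
    have hsub : (N + 1).primesBelow ⊆ Finset.Icc 1 N := by
      intro p hp
      rw [Nat.mem_primesBelow] at hp
      exact Finset.mem_Icc.2 ⟨hp.2.one_lt.le, by omega⟩
    calc ∑ p ∈ (N + 1).primesBelow, (fN y p) ^ 2
        ≤ ∑ p ∈ (N + 1).primesBelow, 16 * (1 / (p:ℝ) ^ 2) := by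
          apply Finset.sum_le_sum
          intro p hp
          have hpp := Nat.prime_of_mem_primesBelow hp
          rw [fN_prime y hpp]
          have hp0 : (0:ℝ) < p := by exact_mod_cast hpp.pos
          split_ifs
          · rw [div_pow, mul_one_div]
            apply div_le_div_of_nonneg_right _ (by positivity)
            nlinarith
          · simp only [ne_eq, OfNat.ofNat_ne_zero, not_false_eq_true, zero_pow]
            positivity
      _ ≤ ∑ n ∈ Finset.Icc 1 N, 16 * (1 / (n:ℝ) ^ 2) := by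
          apply Finset.sum_le_sum_of_subset_of_nonneg hsub
          intro i _ _
          positivity
      _ = 16 * ∑ n ∈ Finset.Icc 1 N, 1 / (n:ℝ) ^ 2 := by rw [Finset.mul_sum]
      _ ≤ 16 * 2 := by
          have := sum_inv_sq_le N
          linarith
      _ = 32 := by norm_num
  have hNr : (2:ℝ) ≤ N := by exact_mod_cast h2
  have h7 := (abs_le.1 (hC0 N hNr)).2
  have hlog : 0 < Real.log N := Real.log_pos (by linarith)
  have h8 : ∑ p ∈ (N + 1).primesBelow, fN y p + 5 * ∑ p ∈ (N + 1).primesBelow, (fN y p) ^ 2 ≤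
      (y * C0 + 160) + Real.log (Real.log N) * (y / 2) := by
    rw [h5]
    have h9 : y * ∑ p ∈ (Finset.Icc 1 ⌊(N:ℝ)⌋₊).filter (fun p => p.Prime ∧ p % 4 = 1), (1 : ℝ) / p
        ≤ y * (C0 + Real.log (Real.log N) / 2) := by
      apply mul_le_mul_of_nonneg_left _ hy.le
      linarith
    linarith
  have h9 : Real.exp (∑ p ∈ (N + 1).primesBelow, fN y p +
      5 * ∑ p ∈ (N + 1).primesBelow, (fN y p) ^ 2) ≤
      Real.exp (y * C0 + 160) * (Real.log N) ^ (y / 2) := by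
    rw [Real.rpow_def_of_pos hlog, ← Real.exp_add]
    exact Real.exp_le_exp.2 h8
  have h10 : (Real.log N) ^ (y / 2) ≤ (1 + Real.log N) ^ (y / 2) :=
    Real.rpow_le_rpow hlog.le (by linarith) (by positivity)
  have h11 : 0 ≤ (1 + Real.log N) ^ (y / 2) := Real.rpow_nonneg (by linarith) _
  calc ∑ n ∈ Finset.Icc 1 N, fN y n
      ≤ Real.exp (y * C0 + 160) * (Real.log N) ^ (y / 2) := h3.trans (h4.trans h9)
    _ ≤ Real.exp (y * C0 + 160) * (1 + Real.log N) ^ (y / 2) :=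
        mul_le_mul_of_nonneg_left h10 (Real.exp_pos _).le
    _ ≤ (Real.exp (y * C0 + 160) + 1) * (1 + Real.log N) ^ (y / 2) := by
        apply mul_le_mul_of_nonneg_right _ h11
        linarith

end Pool.Agent.GaussMR

end
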