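import Mathlib
import Pool.Agent.Lib_MP_f1a94e_m.G01
import Pool.Agent.Lib_MP_f1a94e_m.G03
import Pool.Agent.Lib_MP_f1a94e_m.G06
import Pool.Agent.Lib_MP_f1a94e_m.G07
import Pool.Agent.Lib_MP_f1a94e_m.G09
import Pool.Agent.Lib_MP_f1a94e_m.G10
import Pool.Agent.Lib_MP_f1a94e_m.G11
import Pool.Agent.Lib_MP_f1a94e_m.G12
import Pool.Agent.Lib_MP_f1a94e_m.G13
import Pool.Agent.Lib_MP_f1a94e_m.G14
import Pool.Agent.Lib_MP_f1a94e_m.G15
import Pool.Agent.Lib_MP_f1a94e_m.G16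
import Pool.Agent.Lib_MP_f1a94e_m.G17
import Pool.Agent.Lib_MP_f1a94e_m.G19
import Pool.Agent.Lib_MP_f1a94e_m.G20

/-!
# MP_f1a94e_nt: merged library part G21

Concatenation of files of the libraries `Lib_MP_f1a94e_*` (each in its own section), only to save build time.
-/

/-! ### from `Lib_MP_f1a94e_lp.CluT` -/

section

/-!
# Piece CLUT: sums over clusters, moves of small primes only
-/

set_option autoImplicit false

namespace Pool.Agent.LPr

open Finset Pool.Agent.GaussMR Pool.Agent.OmAll Pool.Agent.OmEq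

open Classical in
/-- one step of the induction over the primes -/
theorem cluT_step (n : ℕ) (hn : 0 < n) (E : Finset ℕ) (hE : n.primeFactors ⊆ E) (g : ℕ → ℂ) (Φ : G × G → ℂ)
    (T : ℕ) (hΦ : CmpT n E T g Φ) (x : ℝ) (W : ℝ → ℝ → ℂ) (Q : Finset ℕ) (p : ℕ) (hpQ : p ∉ Q) (hp : p ∈ PE E T) :
    ∑ e ∈ (EN n x).filter (fun e => ∀ q ∈ ds E T e ∩ Q, ¬ q ∣ nm e.1),
        Φ e * cs g (W (mE e)) (ds E T e ∩ Q) (tE e) =
      ∑ e ∈ (EN n x).filter (fun e => ∀ q ∈ ds E T e ∩ insert p Q, ¬ q ∣ nm e.1),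
        Φ e * cs g (W (mE e)) (ds E T e ∩ insert p Q) (tE e) := by
  obtain ⟨hpT, hpp, hp4, hpE⟩ := mem_PE.mp hp
  have hpn : ¬ p ∣ n := fun h => hpE (hE (Nat.mem_primeFactors.mpr ⟨hpp, h, hn.ne'⟩))
  obtain ⟨φ, hbij, hφ⟩ := toggle n hn p hpp hp4 hpn
  -- split the left side
  have hL : (EN n x).filter (fun e => ∀ q ∈ ds E T e ∩ Q, ¬ q ∣ nm e.1) =
      (EN n x).filter (fun e => ∀ q ∈ ds E T e ∩ insert p Q, ¬ q ∣ nm e.1) ∪
      (EN n x).filter (fun e => (∀ q ∈ ds E T e ∩ Q, ¬ q ∣ nm e.1) ∧ p ∈ ds E T e ∧ p ∣ nm e.1) := by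
    ext e
    simp only [mem_filter, mem_union, mem_inter, mem_insert]
    constructor
    · rintro ⟨h1, h2⟩
      by_cases h3 : p ∈ ds E T e ∧ p ∣ nm e.1
      · exact Or.inr ⟨h1, h2, h3⟩
      · refine Or.inl ⟨h1, fun q hq => ?_⟩
        rcases hq.2 with rfl | h4
        · exact fun h5 => h3 ⟨hq.1, h5⟩
        · exact h2 q ⟨hq.1, h4⟩
    · rintro (⟨h1, h2⟩ | ⟨h1, h2, -⟩)
      · exact ⟨h1, fun q hq => h2 q ⟨hq.1, Or.inr hq.2⟩⟩
      · exact ⟨h1, h2⟩
  have hdisj : Disjoint ((EN n x).filter (fun e => ∀ q ∈ ds E T e ∩ insert p Q, ¬ q ∣ nm e.1))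
      ((EN n x).filter (fun e => (∀ q ∈ ds E T e ∩ Q, ¬ q ∣ nm e.1) ∧ p ∈ ds E T e ∧ p ∣ nm e.1)) := by
    rw [Finset.disjoint_left]
    intro e h1 h2
    rw [mem_filter] at h1 h2
    exact h1.2 p (mem_inter.mpr ⟨h2.2.2.1, mem_insert_self _ _⟩) h2.2.2.2
  rw [hL, Finset.sum_union hdisj]
  -- the right side
  have hR : ∀ e : G × G, Φ e * cs g (W (mE e)) (ds E T e ∩ insert p Q) (tE e) =
      Φ e * cs g (W (mE e)) (ds E T e ∩ Q) (tE e) +
        if p ∈ ds E T e then Φ e * (g p * cs g (W (mE e)) (ds E T e ∩ Q) (tE e - 2 * Real.log p)) else 0 := by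
    intro e
    by_cases h : p ∈ ds E T e
    · rw [if_pos h, Finset.inter_insert_of_mem h, cs_insert g _ _ p (fun h1 => hpQ (mem_inter.mp h1).2), mul_add]
    · rw [if_neg h, Finset.inter_insert_of_notMem h, add_zero]
  rw [Finset.sum_congr rfl (fun e _ => hR e), Finset.sum_add_distrib, ← Finset.sum_filter]
  congr 1
  symm
  refine Finset.sum_nbij φ ?_ ?_ ?_ ?_
  · intro e he
    rw [mem_filter, mem_filter] at he
    obtain ⟨⟨h1, h2⟩, h3⟩ := he
    have h4 : p ∣ nm e.1 * nm e.2 ∧ ¬ p ^ 2 ∣ nm e.1 * nm e.2 := (mem_filter.mp h3).2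
    have h5 : ¬ p ∣ nm e.1 := h2 p (mem_inter.mpr ⟨h3, mem_insert_self _ _⟩)
    have h6 : e ∈ Bp n p := ⟨((mem_EN hn).mp h1).1, (hpp.dvd_mul.mp h4.1).resolve_left h5, h4.2⟩
    have h7 := hbij.mapsTo h6
    obtain ⟨γ, U, V, hγ, h8, h9⟩ := hφ e h6
    have h10 : nm (φ e).1 * nm (φ e).2 = nm e.1 * nm e.2 := by
      rw [h9, h8]
      exact clu_prod γ U V
    have h11 : ds E T (φ e) = ds E T e := clu_ds h10
    have h12 : mE (φ e) = mE e := by
      unfold mE
      rw [h9, h8]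
      show ((dot (γ * U) V : ℤ) : ℝ) = ((dot U (star γ * V) : ℤ) : ℝ)
      rw [clu_dot]
    rw [mem_filter, mem_EN hn]
    refine ⟨⟨h7.1, ?_⟩, ?_, ?_, ?_⟩
    · rw [h12]
      exact ((mem_EN hn).mp h1).2
    · intro q hq
      rw [h11] at hq
      obtain ⟨hq1, hq2⟩ := mem_inter.mp hq
      have hqp : q.Prime := (mem_PE.mp (mem_filter.mp hq1).1).2.1
      have h13 : ¬ q ∣ nm e.1 := h2 q (mem_inter.mpr ⟨hq1, mem_insert_of_mem hq2⟩)
      rw [h9]
      show ¬ q ∣ nm (γ * U)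
      rw [nm_mul, hγ]
      intro h14
      rcases hqp.dvd_mul.mp h14 with h15 | h15
      · have h16 : q = p := (Nat.prime_dvd_prime_iff_eq hqp hpp).mp h15
        exact hpQ (h16 ▸ hq2)
      · rw [h8] at h13
        exact h13 h15
    · rw [h11]
      exact h3
    · exact h7.2.1
  · intro e he e' he' hee
    rw [mem_coe, mem_filter, mem_filter] at he he'
    have key : ∀ e : G × G, ((e ∈ EN n x ∧ ∀ q ∈ ds E T e ∩ insert p Q, ¬ q ∣ nm e.1) ∧ p ∈ ds E T e) → e ∈ Bp n p := by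
      rintro e ⟨⟨h1, h2⟩, h3⟩
      have h4 : p ∣ nm e.1 * nm e.2 ∧ ¬ p ^ 2 ∣ nm e.1 * nm e.2 := (mem_filter.mp h3).2
      have h5 : ¬ p ∣ nm e.1 := h2 p (mem_inter.mpr ⟨h3, mem_insert_self _ _⟩)
      exact ⟨((mem_EN hn).mp h1).1, (hpp.dvd_mul.mp h4.1).resolve_left h5, h4.2⟩
    exact hbij.injOn (key e he) (key e' he') hee
  · intro e' he'
    rw [mem_coe, mem_filter] at he'
    obtain ⟨h1, h2, h3, h3'⟩ := he'
    have h4 : p ∣ nm e'.1 * nm e'.2 ∧ ¬ p ^ 2 ∣ nm e'.1 * nm e'.2 := (mem_filter.mp h3).2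
    have h5 : e' ∈ Ap' n p := ⟨((mem_EN hn).mp h1).1, h3', h4.2⟩
    obtain ⟨e, h6, h7⟩ := hbij.surjOn h5
    obtain ⟨γ, U, V, hγ, h8, h9⟩ := hφ e h6
    have h10 : nm (φ e).1 * nm (φ e).2 = nm e.1 * nm e.2 := by
      rw [h9, h8]
      exact clu_prod γ U V
    have h11 : ds E T (φ e) = ds E T e := clu_ds h10
    have h12 : mE (φ e) = mE e := by
      unfold mE
      rw [h9, h8]
      show ((dot (γ * U) V : ℤ) : ℝ) = ((dot U (star γ * V) : ℤ) : ℝ)
      rw [clu_dot]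
    rw [h7] at h9 h10 h11 h12
    refine ⟨e, ?_, h7⟩
    rw [mem_coe, mem_filter, mem_filter, mem_EN hn]
    refine ⟨⟨⟨h6.1, ?_⟩, ?_⟩, ?_⟩
    · rw [← h12]
      exact ((mem_EN hn).mp h1).2
    · intro q hq
      rw [← h11] at hq
      obtain ⟨hq1, hq2⟩ := mem_inter.mp hq
      rcases mem_insert.mp hq2 with rfl | hq2
      · intro h13
        refine h6.2.2 ?_
        rw [pow_two]
        exact mul_dvd_mul h13 h6.2.1
      · have h13 : ¬ q ∣ nm e'.1 := h2 q (mem_inter.mpr ⟨hq1, hq2⟩)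
        intro h14
        apply h13
        rw [h9]
        show q ∣ nm (γ * U)
        rw [nm_mul]
        rw [h8] at h14
        exact Dvd.dvd.mul_left h14 _
    · rw [← h11]
      exact h3
  · intro e he
    rw [mem_filter, mem_filter] at he
    obtain ⟨⟨h1, h2⟩, h3⟩ := he
    have h4 : p ∣ nm e.1 * nm e.2 ∧ ¬ p ^ 2 ∣ nm e.1 * nm e.2 := (mem_filter.mp h3).2
    have h5 : ¬ p ∣ nm e.1 := h2 p (mem_inter.mpr ⟨h3, mem_insert_self _ _⟩)
    have h6 : e ∈ Bp n p := ⟨((mem_EN hn).mp h1).1, (hpp.dvd_mul.mp h4.1).resolve_left h5, h4.2⟩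
    have h7 := hbij.mapsTo h6
    obtain ⟨γ, U, V, hγ, h8, h9⟩ := hφ e h6
    have h10 : nm (φ e).1 * nm (φ e).2 = nm e.1 * nm e.2 := by
      rw [h9, h8]
      exact clu_prod γ U V
    have h11 : ds E T (φ e) = ds E T e := clu_ds h10
    have h12 : mE (φ e) = mE e := by
      unfold mE
      rw [h9, h8]
      show ((dot (γ * U) V : ℤ) : ℝ) = ((dot U (star γ * V) : ℤ) : ℝ)
      rw [clu_dot]
    have h13 : tE (φ e) = tE e - 2 * Real.log p := by
      obtain ⟨h14, h15⟩ := clu_nm_ne hn h7.1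
      have h16 : nm U ≠ 0 := by
        intro h0
        apply h14
        rw [h9]
        show nm (γ * U) = 0
        rw [nm_mul, h0, mul_zero]
      have h17 : nm V ≠ 0 := by
        rw [h9] at h15
        exact h15
      have h18 : (p : ℝ) ≠ 0 := by
        exact_mod_cast hpp.ne_zero
      unfold tE
      rw [h9, h8]
      show Real.log (nm V) - Real.log (nm (γ * U)) = Real.log (nm (star γ * V)) - Real.log (nm U) - 2 * Real.log p
      rw [nm_mul, nm_mul, nm_star, hγ]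
      push_cast
      rw [Real.log_mul h18 (by exact_mod_cast h16), Real.log_mul h18 (by exact_mod_cast h17)]
      ring
    have h14 : Φ (φ e) = g p * Φ e := by
      have h15 := hΦ.mv γ U V (by rw [hγ]; exact hpp) (by rw [hγ]; exact hp4) (by rw [hγ]; exact hpT) (by rw [hγ]; exact hpE)
        (by rw [← h9]; exact h7.1) (by
          rw [hγ, clu_prod]
          have h16 := h6.2.2
          rw [h8] at h16
          exact h16)
      rw [h9, h8, h15, hγ]
    rw [h11, h12, h13, h14]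
    ring

open Classical in
/-- PROOF. Induction over a subset `Q` of `PE E T`: with `b_Q e := ∀ p ∈ ds E T e ∩ Q, ¬ p ∣ nm e.1`, claim
`∑_(e ∈ EN n x) Φ e * W (dot e) (tE e) = ∑_(e ∈ EN n x, b_Q e) Φ e * ∑_(a ⊆ ds E T e ∩ Q) (∏_(p ∈ a) g p) * W (dot e) (tE e - 2 lg a)`.
`Q = ∅`: trivial. Step `Q → Q ∪ {p}`: the `e` with `b_Q` are of three kinds: `p ∉ ds e` (unchanged), `p ∈ ds e` and `p ∣ nm e.2` (then `p ∤ nm e.1`), `p ∈ ds e` and
`p ∣ nm e.1`. `toggle` gives a bijection `φ` from the second kind to the third: for `e = (U, star γ W)`, `φ e = (γ U, W)`: same `dot`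
(`star (γ U) * W = star U * (star γ * W)`, `star_mul_eq`), same product `nm e.1 * nm e.2`, so the same `ds`, membership in `EN` is preserved, the condition `b_Q` too
(for `q ≠ p`, `q ∣ nm (γ U) = p nm U` iff `q ∣ nm U`), `tE (φ e) = tE e - 2 log p` and `Φ (φ e) = g p * Φ e` (`Cmp.mv`; `p ∉ E`, `p % 4 = 1`). So the sum over the
third kind equals the sum over `e` of the second kind of `Φ e * ∑_(a ⊆ ds e ∩ Q) g p * (∏_(q ∈ a) g q) * W (dot e) (tE e - 2 log p - 2 lg a)`, i.e. the terms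
`a ∪ {p}` of the new sum. (`lg (insert p a) = log p + lg a`, `Finset.sum_powerset_insert` or `Finset.prod_add` type lemmas.) At the end `Q = PE E T`
and `ds E T e ∩ PE E T = ds E T e`. -/
theorem clusterT (n : ℕ) (hn : 0 < n) (E : Finset ℕ) (hE : n.primeFactors ⊆ E) (g : ℕ → ℂ) (Φ : G × G → ℂ)
    (T : ℕ) (hΦ : CmpT n E T g Φ) (x : ℝ) (W : ℝ → ℝ → ℂ) :
    ∑ e ∈ EN n x, Φ e * W (mE e) (tE e) =
      ∑ e ∈ (EN n x).filter (bs E T), Φ e * cs g (W (mE e)) (ds E T e) (tE e) := by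
  have key : ∀ Q : Finset ℕ, Q ⊆ PE E T → ∑ e ∈ EN n x, Φ e * W (mE e) (tE e) =
      ∑ e ∈ (EN n x).filter (fun e => ∀ q ∈ ds E T e ∩ Q, ¬ q ∣ nm e.1),
        Φ e * cs g (W (mE e)) (ds E T e ∩ Q) (tE e) := by
    intro Q
    induction Q using Finset.induction_on with
    | empty =>
      intro _
      have h1 : (EN n x).filter (fun e => ∀ q ∈ ds E T e ∩ (∅ : Finset ℕ), ¬ q ∣ nm e.1) = EN n x := by
        refine Finset.filter_true_of_mem fun e _ q hq => ?_
        rw [Finset.inter_empty] at hq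
        exact absurd hq (Finset.notMem_empty q)
      rw [h1]
      refine Finset.sum_congr rfl fun e _ => ?_
      rw [Finset.inter_empty]
      unfold cs
      rw [Finset.powerset_empty, Finset.sum_singleton, Finset.prod_empty, one_mul]
      unfold lg
      rw [Finset.sum_empty, mul_zero, sub_zero]
    | insert p Q hpQ ih =>
      intro hQ
      rw [ih (fun q hq => hQ (mem_insert_of_mem hq))]
      exact cluT_step n hn E hE g Φ T hΦ x W Q p hpQ (hQ (mem_insert_self _ _))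
  rw [key (PE E T) (Finset.Subset.refl _)]
  have h2 : ∀ e : G × G, ds E T e ∩ PE E T = ds E T e := fun e =>
    Finset.inter_eq_left.mpr (Finset.filter_subset _ _)
  refine Finset.sum_congr ?_ fun e _ => ?_
  · refine Finset.filter_congr fun e _ => ?_
    rw [h2]
    exact Iff.rfl
  · rw [h2]

end Pool.Agent.LPr

end

/-! ### from `Lib_MP_f1a94e_lp.CS2` -/

section

/-!
# Piece CS2: Cauchy-Schwarz over unbalanced edges for two functions
-/

set_option autoImplicit false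

namespace Pool.Agent.LPr

open Finset Pool.Agent.GaussMR Pool.Agent.OmAll Pool.Agent.OmEq

/-- the sum over unbalanced edges for two functions -/
noncomputable def SX2 (f1 f2 : ℕ → ℂ) (h : ℝ → ℝ) (J N : ℕ) (x X : ℝ) : ℂ :=
  ∑ e ∈ EN 1 x, f1 (nm e.1) * f2 (nm e.2) * ((h (nm e.1 / X) * rho J N (mE e / nm e.1) : ℝ) : ℂ)

private theorem csN2_SX (f1 f2 : ℕ → ℂ) (h : ℝ → ℝ) (h2 : ℝ) (hh2 : ∀ y, h2 ≤ y → h y = 0) (J N : ℕ) (hJ : 1 ≤ J)
    (hN : 1 ≤ N) (X : ℝ) (hX : 1 ≤ X) (x : ℝ) (hx : (J + N) * h2 * X ≤ x) :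
    SX2 f1 f2 h J N x X = ∑ A ∈ csA (h2 * X), f1 (nm A) * ((h (nm A / X) : ℝ) : ℂ) * csT f2 J N A := by
  classical
  have hX0 : (0 : ℝ) < X := by linarith
  have hJ0 : (1 : ℝ) ≤ J := by exact_mod_cast hJ
  have hN0 : (0 : ℝ) ≤ N := Nat.cast_nonneg _
  set P : Finset (G × G) := (EN 1 x).filter (fun e => e.1 ∈ csA (h2 * X) ∧ e.2 ∈ csB J N e.1)
    with hP
  have hPmem : ∀ e : G × G, e ∈ P ↔ e.1 ∈ csA (h2 * X) ∧ e.2 ∈ csB J N e.1 := by
    intro e
    rw [hP, mem_filter]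
    refine ⟨fun h => h.2, fun he => ⟨?_, he⟩⟩
    obtain ⟨h3, h4⟩ := he
    rw [csN_memA] at h3
    rw [csN_mem] at h4
    rw [mem_EN one_pos]
    have h5 : (0 : ℝ) < ((dot e.1 e.2 : ℤ) : ℝ) := by
      have := csN_nm_pos h4.1
      nlinarith [h4.2.1]
    refine ⟨⟨?_, ?_, (csN_prim h4.1).1, ?_⟩, ?_⟩
    · rw [h4.1]
      rfl
    · exact_mod_cast h5
    · exact ⟨1, isCoprime_one_left, csN_cg_one _ _⟩
    · unfold mE
      calc ((dot e.1 e.2 : ℤ) : ℝ) ≤ (J + N) * nm e.1 := h4.2.2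
        _ ≤ (J + N) * (h2 * X) := by
          apply mul_le_mul_of_nonneg_left h3.2
          positivity
        _ ≤ x := by linarith
  have h3 : ∑ A ∈ csA (h2 * X), f1 (nm A) * ((h (nm A / X) : ℝ) : ℂ) * csT f2 J N A =
      ∑ A ∈ csA (h2 * X), ∑ B ∈ csB J N A, f1 (nm A) * ((h (nm A / X) : ℝ) : ℂ) *
        (f2 (nm B) * ((rho J N (((dot A B : ℤ) : ℝ) / nm A) : ℝ) : ℂ)) := by
    apply sum_congr rfl
    intro A _
    unfold csT
    rw [mul_sum]
  rw [h3, ← sum_finset_product' P (csA (h2 * X)) (csB J N) hPmem]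
  unfold SX2
  rw [hP, sum_filter_of_ne]
  · apply sum_congr rfl
    intro e _
    unfold mE
    push_cast
    ring
  · intro e he hne
    rw [mem_EN one_pos] at he
    obtain ⟨⟨hdet, hdot, hprim, _⟩, _⟩ := he
    have hdet1 : det e.1 e.2 = 1 := by
      rw [hdet]
      rfl
    have hne1 : h (nm e.1 / X) ≠ 0 := by
      intro h0
      apply hne
      rw [h0]
      simp
    have hne2 : rho J N (((dot e.1 e.2 : ℤ) : ℝ) / nm e.1) ≠ 0 := by
      intro h0
      apply hne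
      rw [h0]
      simp
    have hnm := csN_nm_pos hdet1
    have h4 : (nm e.1 : ℝ) / X < h2 := by
      by_contra hc
      push Not at hc
      exact hne1 (hh2 _ hc)
    rw [div_lt_iff₀ hX0] at h4
    have h5 := csN_rho_ne hN hne2
    rw [le_div_iff₀ (by linarith), div_le_iff₀ (by linarith)] at h5
    rw [csN_memA, csN_mem]
    exact ⟨⟨csN_ne_zero hdet1, h4.le⟩, hdet1, h5.1, h5.2⟩

/-- PROOF. The proof of `csN` (CS.lean) with `f1` at the first vector: first `csN_SX` for two functions (`SX2 = ∑_(A ∈ csA (h2 X)) f1 (nm A) * h * csT f2 J N A`, same proof),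
then the Cauchy-Schwarz step only uses `‖f1 (nm A)‖ ≤ 1`; the rest (`csN_TT`, `csN_U`, `csN_Gm`, bound of the diagonal) concerns `f2` only and is unchanged (public lemmas). -/
theorem csN2 (f1 f2 : ℕ → ℂ) (hf1 : ∀ n, ‖f1 n‖ ≤ 1) (hf2 : ∀ n, ‖f2 n‖ ≤ 1) (h : ℝ → ℝ) (hh0 : ∀ y, 0 ≤ h y)
    (hh1 : ∀ y, h y ≤ 1) (h2 : ℝ) (hh2 : ∀ y, h2 ≤ y → h y = 0) (J N : ℕ) (hJ : 1 ≤ J) (hN : 1 ≤ N) (X : ℝ)
    (hX : 1 ≤ X) (hh2' : 1 ≤ h2) (x x' : ℝ) (hx : (J + N) * h2 * X ≤ x) (hx' : (J + N) ^ 2 * h2 * X + 1 ≤ x') :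
    ‖SX2 f1 f2 h J N x X‖ ^ 2 ≤ 9 * h2 * X * (9 * h2 * X * (N + 1) + 2 * ‖∑ n ∈ Icc 1 N, Gm f2 h J N n x' X‖) := by
  classical
  have hX0 : (0 : ℝ) < X := by linarith
  have hY0 : (0 : ℝ) ≤ h2 * X := by positivity
  set 𝒜 := csA (h2 * X) with h𝒜
  have hcardA : (𝒜.card : ℝ) ≤ 9 * (h2 * X) := csN_cardA hY0
  rw [csN2_SX f1 f2 h h2 hh2 J N hJ hN X hX x hx]
  -- the sum of the squares
  set Q : ℝ := ∑ A ∈ 𝒜, h (nm A / X) ^ 2 * ‖csT f2 J N A‖ ^ 2 with hQ
  have h1 : ‖∑ A ∈ 𝒜, f1 (nm A) * ((h (nm A / X) : ℝ) : ℂ) * csT f2 J N A‖ ^ 2 ≤ 9 * h2 * X * Q := by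
    have h3 : ‖∑ A ∈ 𝒜, f1 (nm A) * ((h (nm A / X) : ℝ) : ℂ) * csT f2 J N A‖ ≤
        ∑ A ∈ 𝒜, h (nm A / X) * ‖csT f2 J N A‖ := by
      apply norm_sum_le_of_le
      intro A _
      rw [norm_mul, norm_mul, Complex.norm_real, Real.norm_eq_abs, abs_of_nonneg (hh0 _)]
      have h4 := hf1 (nm A)
      have h5 := hh0 (nm A / X)
      have h6 := norm_nonneg (csT f2 J N A)
      calc ‖f1 (nm A)‖ * h (nm A / X) * ‖csT f2 J N A‖ ≤ 1 * h (nm A / X) * ‖csT f2 J N A‖ := by gcongr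
        _ = _ := by ring
    have h4 : (∑ A ∈ 𝒜, h (nm A / X) * ‖csT f2 J N A‖) ^ 2 ≤
        𝒜.card * ∑ A ∈ 𝒜, (h (nm A / X) * ‖csT f2 J N A‖) ^ 2 := sq_sum_le_card_mul_sum_sq
    have h5 : ∑ A ∈ 𝒜, (h (nm A / X) * ‖csT f2 J N A‖) ^ 2 = Q := by
      rw [hQ]
      apply sum_congr rfl
      intro A _
      ring
    have hQ0 : 0 ≤ Q := by
      rw [hQ]
      apply sum_nonneg
      intro A _
      positivity
    calc ‖∑ A ∈ 𝒜, f1 (nm A) * ((h (nm A / X) : ℝ) : ℂ) * csT f2 J N A‖ ^ 2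
        ≤ (∑ A ∈ 𝒜, h (nm A / X) * ‖csT f2 J N A‖) ^ 2 := pow_le_pow_left₀ (norm_nonneg _) h3 2
      _ ≤ 𝒜.card * Q := by rw [← h5]; exact h4
      _ ≤ 9 * (h2 * X) * Q := mul_le_mul_of_nonneg_right hcardA hQ0
      _ = 9 * h2 * X * Q := by ring
  refine h1.trans ?_
  apply mul_le_mul_of_nonneg_left _ (by positivity)
  -- expansion of the squares
  set D : ℂ := ∑ A ∈ 𝒜, ((h (nm A / X) ^ 2 : ℝ) : ℂ) * ∑ B ∈ csB J N A, csF f2 J N A (B, B) with hD
  set U : ℂ := ∑ A ∈ 𝒜, ((h (nm A / X) ^ 2 : ℝ) : ℂ) * csU f2 J N A with hU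
  have h3 : ((Q : ℝ) : ℂ) = D + U + (starRingEnd ℂ) U := by
    rw [hQ, hD, hU, map_sum, ← sum_add_distrib, ← sum_add_distrib]
    push_cast
    apply sum_congr rfl
    intro A _
    have h4 : ((‖csT f2 J N A‖ : ℝ) : ℂ) ^ 2 = csT f2 J N A * (starRingEnd ℂ) (csT f2 J N A) := by
      rw [Complex.mul_conj, Complex.normSq_eq_norm_sq]
      push_cast
      rfl
    rw [h4, csN_TT, map_mul, map_pow, Complex.conj_ofReal]
    ring
  have hUG : U = ∑ n ∈ Icc 1 N, Gm f2 h J N n x' X := by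
    rw [hU]
    have h4 : ∀ A ∈ 𝒜, ((h (nm A / X) ^ 2 : ℝ) : ℂ) * csU f2 J N A =
        ∑ n ∈ Icc 1 N, ((h (nm A / X) ^ 2 : ℝ) : ℂ) * ∑ p ∈ csB J N A ×ˢ csB J N A,
          (if p.1 = p.2 + (((n : ℤ) : G)) * A then csF f2 J N A p else 0) := by
      intro A _
      rw [csN_U, mul_sum]
    rw [sum_congr rfl h4, sum_comm]
    apply sum_congr rfl
    intro n hn
    rw [mem_Icc] at hn
    exact csN_Gm f2 h h2 hh2 J N hJ hN X hX x' hx' n hn.1
  have hDle : ‖D‖ ≤ 9 * h2 * X * (N + 1) := by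
    rw [hD]
    have h4 : ‖∑ A ∈ 𝒜, ((h (nm A / X) ^ 2 : ℝ) : ℂ) * ∑ B ∈ csB J N A, csF f2 J N A (B, B)‖ ≤
        ∑ _A ∈ 𝒜, ((N : ℝ) + 1) := by
      apply norm_sum_le_of_le
      intro A hA
      rw [h𝒜, csN_memA] at hA
      rw [norm_mul, Complex.norm_real, Real.norm_eq_abs, abs_of_nonneg (sq_nonneg _)]
      have h5 : ‖∑ B ∈ csB J N A, csF f2 J N A (B, B)‖ ≤ ∑ _B ∈ csB J N A, (1 : ℝ) := by
        apply norm_sum_le_of_le
        intro B _
        unfold csF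
        rw [norm_mul, norm_mul, Complex.norm_real, RCLike.norm_conj, Real.norm_eq_abs]
        have h6 := hf2 (nm B)
        have h7 := csN_rho_nonneg J N (((dot A B : ℤ) : ℝ) / nm A)
        have h8 := csN_rho_le J N (((dot A B : ℤ) : ℝ) / nm A)
        simp only
        rw [abs_of_nonneg (mul_nonneg h7 h7)]
        calc ‖f2 (nm B)‖ * ‖f2 (nm B)‖ * (rho J N (((dot A B : ℤ) : ℝ) / nm A) *
              rho J N (((dot A B : ℤ) : ℝ) / nm A)) ≤ 1 * 1 * (1 * 1) := by gcongr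
          _ = 1 := by norm_num
      rw [sum_const, nsmul_eq_mul, mul_one] at h5
      have h6 : h (nm A / X) ^ 2 ≤ 1 := by
        have h7 := hh0 (nm A / X)
        have h8 := hh1 (nm A / X)
        nlinarith
      calc h (nm A / X) ^ 2 * ‖∑ B ∈ csB J N A, csF f2 J N A (B, B)‖
          ≤ 1 * ((N : ℝ) + 1) := by
            apply mul_le_mul h6 (h5.trans (csN_card hA.1)) (norm_nonneg _) zero_le_one
        _ = (N : ℝ) + 1 := one_mul _
    rw [sum_const, nsmul_eq_mul] at h4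
    calc _ ≤ (𝒜.card : ℝ) * ((N : ℝ) + 1) := h4
      _ ≤ 9 * (h2 * X) * ((N : ℝ) + 1) := by
        apply mul_le_mul_of_nonneg_right hcardA
        positivity
      _ = _ := by ring
  have h4 : Q = D.re + 2 * U.re := by
    have h5 := congrArg Complex.re h3
    rw [Complex.ofReal_re, Complex.add_re, Complex.add_re, Complex.conj_re] at h5
    linarith
  rw [h4, ← hUG]
  have h5 := Complex.re_le_norm D
  have h6 := Complex.re_le_norm U
  linarith

end Pool.Agent.LPr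

end

/-! ### from `Lib_MP_f1a94e_eq.DSum` -/

section

/-!
# Piece DSUM: removal of the factor `n / φ(n)`
-/

set_option autoImplicit false

namespace Pool.Agent.OmEq

open Finset Pool.Agent.GaussMR Pool.Agent.OmAll MeasureTheory Filter

/-- `1 / φ(d)` for squarefree `d` -/
noncomputable def dsumC (d : ℕ) : ℝ := if ∏ p ∈ d.primeFactors, p = d then 1 / (d.totient : ℝ) else 0

theorem dsumC_nonneg (d : ℕ) : 0 ≤ dsumC d := by
  unfold dsumC
  split_ifs
  · positivity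
  · exact le_rfl

/-- the totient of a product of distinct primes -/
theorem dsum_tot (S : Finset ℕ) (hS : ∀ p ∈ S, p.Prime) :
    (∏ p ∈ S, p).totient = ∏ p ∈ S, (p - 1) := by
  have h1 := Nat.totient_mul_prod_primeFactors (∏ p ∈ S, p)
  rw [Nat.primeFactors_prod hS] at h1
  have h2 : 0 < ∏ p ∈ S, p := Finset.prod_pos (fun p hp => (hS p hp).pos)
  rw [mul_comm] at h1
  exact Nat.eq_of_mul_eq_mul_left h2 h1

theorem dsum_le (d : ℕ) (hd : ∏ p ∈ d.primeFactors, p = d) : d ≤ 2 * d.totient ^ 2 := by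
  have hpr : ∀ p ∈ d.primeFactors, p.Prime := fun p hp => Nat.prime_of_mem_primeFactors hp
  have h1 : d.totient = ∏ p ∈ d.primeFactors, (p - 1) := by
    have := dsum_tot d.primeFactors hpr
    rw [hd] at this
    exact this
  have h2 : ∏ p ∈ d.primeFactors, p ≤ ∏ p ∈ d.primeFactors, ((p - 1) ^ 2 * (if p = 2 then 2 else 1)) := by
    refine Finset.prod_le_prod' (fun p hp => ?_)
    have h3 := (hpr p hp).two_le
    by_cases h4 : p = 2
    · rw [if_pos h4, h4]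
      norm_num
    · rw [if_neg h4, mul_one]
      obtain ⟨k, rfl⟩ : ∃ k, p = k + 3 := ⟨p - 3, by omega⟩
      have : k + 3 - 1 = k + 2 := by omega
      rw [this]
      nlinarith
  rw [hd, Finset.prod_mul_distrib, Finset.prod_pow, ← h1, Finset.prod_ite_eq'] at h2
  have h5 : (if 2 ∈ d.primeFactors then 2 else 1) ≤ 2 := by split_ifs <;> norm_num
  calc d ≤ d.totient ^ 2 * (if 2 ∈ d.primeFactors then 2 else 1) := h2
    _ ≤ d.totient ^ 2 * 2 := Nat.mul_le_mul_left _ h5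
    _ = 2 * d.totient ^ 2 := mul_comm _ _

theorem dsumC_div_le (d : ℕ) : dsumC d / d ≤ 2 / (d : ℝ) ^ (3 / 2 : ℝ) := by
  rcases Nat.eq_zero_or_pos d with h0 | h0
  · rw [h0]
    simp only [Nat.cast_zero, div_zero]
    positivity
  · have hd0 : (0 : ℝ) < d := by exact_mod_cast h0
    unfold dsumC
    by_cases hd : ∏ p ∈ d.primeFactors, p = d
    · rw [if_pos hd]
      have h1 := dsum_le d hd
      have h2 : (d : ℝ) ≤ 2 * (d.totient : ℝ) ^ 2 := by exact_mod_cast h1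
      have ht : (0 : ℝ) < d.totient := by exact_mod_cast Nat.totient_pos.mpr h0
      have h3 : √(d : ℝ) ≤ 2 * d.totient := by
        rw [Real.sqrt_le_left (by positivity)]
        nlinarith
      have h4 : (d : ℝ) ^ (3 / 2 : ℝ) = d * √(d : ℝ) := by
        rw [Real.sqrt_eq_rpow, ← Real.rpow_one_add' hd0.le (by norm_num)]
        norm_num
      rw [h4, div_div, div_le_div_iff₀ (by positivity) (by positivity)]
      nlinarith [Real.sqrt_nonneg (d : ℝ)]
    · rw [if_neg hd, zero_div]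
      positivity

theorem dsumC_summable : Summable (fun d : ℕ => dsumC d / d) := by
  have h1 : Summable (fun d : ℕ => 2 / (d : ℝ) ^ (3 / 2 : ℝ)) := by
    have h2 : Summable (fun d : ℕ => 2 * (1 / (d : ℝ) ^ (3 / 2 : ℝ))) :=
      (Real.summable_one_div_nat_rpow.mpr (by norm_num)).mul_left 2
    refine h2.congr (fun d => ?_)
    ring
  exact Summable.of_nonneg_of_le (fun d => div_nonneg (dsumC_nonneg d) (Nat.cast_nonneg d)) dsumC_div_le h1

/-- `n / φ(n)` as a sum over the divisors -/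
theorem dsum_eq (n : ℕ) (hn : 0 < n) : (n : ℝ) / n.totient = ∑ d ∈ n.divisors, dsumC d := by
  have hpr : ∀ p ∈ n.primeFactors, p.Prime := fun p hp => Nat.prime_of_mem_primeFactors hp
  have hcast : ∀ p ∈ n.primeFactors, ((p - 1 : ℕ) : ℝ) = (p : ℝ) - 1 := by
    intro p hp
    have := (hpr p hp).one_lt
    push_cast [Nat.cast_sub this.le]
    ring
  have hpos : ∀ p ∈ n.primeFactors, (0 : ℝ) < (p : ℝ) - 1 := by
    intro p hp
    have : (1 : ℝ) < p := by exact_mod_cast (hpr p hp).one_lt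
    linarith
  have h1 : (n : ℝ) / n.totient = ∏ p ∈ n.primeFactors, (1 + 1 / ((p : ℝ) - 1)) := by
    have h2 := Nat.totient_mul_prod_primeFactors n
    have h3 : (n.totient : ℝ) * ∏ p ∈ n.primeFactors, (p : ℝ) = n * ∏ p ∈ n.primeFactors, ((p : ℝ) - 1) := by
      rw [← Finset.prod_congr rfl hcast, ← Nat.cast_prod, ← Nat.cast_prod, ← Nat.cast_mul, ← Nat.cast_mul, h2]
    have h4 : ∏ p ∈ n.primeFactors, (1 + 1 / ((p : ℝ) - 1)) =
        (∏ p ∈ n.primeFactors, (p : ℝ)) / ∏ p ∈ n.primeFactors, ((p : ℝ) - 1) := by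
      rw [← Finset.prod_div_distrib]
      refine Finset.prod_congr rfl (fun p hp => ?_)
      have := hpos p hp
      field_simp
      ring
    have h5 : (0 : ℝ) < ∏ p ∈ n.primeFactors, ((p : ℝ) - 1) := Finset.prod_pos hpos
    have h6 : (0 : ℝ) < n.totient := by exact_mod_cast Nat.totient_pos.mpr hn
    rw [h4, div_eq_div_iff h6.ne' h5.ne']
    linarith
  rw [h1, Finset.prod_one_add]
  have h7 : ∑ d ∈ n.divisors, dsumC d =
      ∑ d ∈ n.divisors.filter (fun d => ∏ p ∈ d.primeFactors, p = d), 1 / (d.totient : ℝ) := by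
    rw [Finset.sum_filter]
    rfl
  rw [h7]
  refine Finset.sum_nbij' (fun S => ∏ p ∈ S, p) (fun d => d.primeFactors) ?_ ?_ ?_ ?_ ?_
  · intro S hS
    have hS' := Finset.mem_powerset.mp hS
    have hSp : ∀ p ∈ S, p.Prime := fun p hp => hpr p (hS' hp)
    refine mem_filter.mpr ⟨Nat.mem_divisors.mpr ⟨?_, hn.ne'⟩, ?_⟩
    · exact (Finset.prod_dvd_prod_of_subset _ _ _ hS').trans (Nat.prod_primeFactors_dvd n)
    · rw [Nat.primeFactors_prod hSp]
  · intro d hd
    obtain ⟨h8, _⟩ := mem_filter.mp hd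
    exact Finset.mem_powerset.mpr (Nat.primeFactors_mono (Nat.dvd_of_mem_divisors h8) hn.ne')
  · intro S hS
    have hS' := Finset.mem_powerset.mp hS
    exact Nat.primeFactors_prod (fun p hp => hpr p (hS' hp))
  · intro d hd
    exact (mem_filter.mp hd).2
  · intro S hS
    have hS' := Finset.mem_powerset.mp hS
    rw [dsum_tot S (fun p hp => hpr p (hS' hp)), Finset.prod_div_distrib, Finset.prod_const_one]
    push_cast
    rw [Finset.prod_congr rfl (fun p hp => hcast p (hS' hp))]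

theorem dsum_kap (n : ℕ) : 0 ≤ kap n ∧ kap n ≤ 2 := by
  unfold kap
  split_ifs <;> norm_num

theorem dsum_Qs (f : ℕ → ℂ) (hf : ∀ n, ‖f n‖ ≤ 1) (h : ℝ → ℝ) (h1 h2 : ℝ) (hh : HF h h1 h2) :
    ∃ C : ℝ, 0 < C ∧ ∀ n : ℕ, 0 < n → ∀ Y : ℝ, (n : ℝ) ≤ h2 * Y →
      ‖Qs f n (h2 * Y) (fun y t => ((h y ^ 2 * ps0 t : ℝ) : ℂ)) Y‖ ≤ C * (h2 * Y) := by
  classical
  obtain ⟨C, hC, hcnt⟩ := cnt 1
  refine ⟨C, hC, fun n hn Y hY => ?_⟩
  refine le_trans ?_ (hcnt n hn (h2 * Y) hY)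
  unfold Qs
  have hterm : ∀ e : G × G, ‖f (nm e.1) * (starRingEnd ℂ) (f (nm e.2)) *
      ((h (mE e / Y) ^ 2 * ps0 (tE e) : ℝ) : ℂ)‖ ≤ if |tE e| ≤ 1 then 1 else 0 := by
    intro e
    rw [norm_mul, norm_mul, RCLike.norm_conj, Complex.norm_real, Real.norm_eq_abs]
    have a1 := hf (nm e.1)
    have a2 := hf (nm e.2)
    have a3 := hh.nn (mE e / Y)
    have a4 := hh.le (mE e / Y)
    have a5 : ‖f (nm e.1)‖ * ‖f (nm e.2)‖ ≤ 1 := mul_le_one₀ a1 (norm_nonneg _) a2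
    by_cases ht : |tE e| ≤ 1
    · rw [if_pos ht]
      have a6 : 0 ≤ ps0 (tE e) := le_max_left _ _
      have a7 : ps0 (tE e) ≤ 1 := max_le zero_le_one (by linarith [abs_nonneg (tE e)])
      have a8 : h (mE e / Y) ^ 2 ≤ 1 := pow_le_one₀ a3 a4
      have a9 : h (mE e / Y) ^ 2 * ps0 (tE e) ≤ 1 := mul_le_one₀ a8 a6 a7
      rw [abs_of_nonneg (by positivity)]
      exact mul_le_one₀ a5 (by positivity) a9
    · rw [if_neg ht]
      have a6 : ps0 (tE e) = 0 := by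
        unfold ps0
        rw [max_eq_left]
        push Not at ht
        linarith
      rw [a6, mul_zero, abs_zero, mul_zero]
  calc ‖∑ e ∈ (EN n (h2 * Y)).filter (hc n), f (nm e.1) * (starRingEnd ℂ) (f (nm e.2)) *
        ((h (mE e / Y) ^ 2 * ps0 (tE e) : ℝ) : ℂ)‖
      ≤ ∑ e ∈ (EN n (h2 * Y)).filter (hc n), (if |tE e| ≤ 1 then (1 : ℝ) else 0) :=
        norm_sum_le_of_le _ (fun e _ => hterm e)
    _ ≤ ∑ e ∈ EN n (h2 * Y), (if |tE e| ≤ 1 then (1 : ℝ) else 0) := by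
        refine Finset.sum_le_sum_of_subset_of_nonneg (Finset.filter_subset _ _) (fun e _ _ => ?_)
        split_ifs <;> norm_num
    _ = (((EN n (h2 * Y)).filter (fun e => |tE e| ≤ 1)).card : ℝ) := by
        rw [← Finset.sum_filter, Finset.sum_const, nsmul_eq_mul, mul_one]

/-- PROOF. `n / φ(n) = ∏_(p ∣ n) (1 + 1/(p-1)) = ∑_(d ∣ n) c_d`, `c_d = μ(d)^2 / φ(d)` (`Nat.totient_eq_mul_prod_factors`, `Finset.prod_one_add`, `Nat.sum_divisors_filter_squarefree`), and `∑ c_d / d` converges (`φ(d) ≥ sqrt (d/2)`, or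
`∑_(d ≤ N) c_d/d ≤ ∏ (1 + 1/(p (p-1)))`). Put `K` with `∑_(d > K) c_d/d ≤ ε'`. `‖Qs f n (h2 Y) (..) Y‖ ≤ C h2 Y` for `n ≤ N ≤ h2 Y` (`cnt` with `B = 1`, `|f| ≤ 1`, `h ≤ 1`, `ps0 t = 0` for `|t| ≥ 1`). So the part `d > K` is at most
`∑_(d > K) c_d (N/d) * 2 C h2 Y ≤ 2 C h2 ε' N Y` (`0 ≤ ww ≤ 1`, `kap ≤ 2`). For the finitely many `d ≤ K` use `hQ d` with `ε''`. -/
theorem dsum (f : ℕ → ℂ) (hf : ∀ n, ‖f n‖ ≤ 1) (hQ : QdSmall f) : QSmall f := by
  classical
  intro h h1 h2 hh ε hε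
  obtain ⟨C, hC, hCQ⟩ := dsum_Qs f hf h h1 h2 hh
  have h2one : (1 : ℝ) ≤ h2 := hh.one
  have h2pos : 0 < h2 := by linarith
  obtain ⟨-, hw0, hw1, -⟩ := ww_props
  -- the tail
  have hε' : 0 < ε / (4 * C * h2) := by positivity
  obtain ⟨s, hs⟩ := summable_iff_vanishing_norm.mp dsumC_summable _ hε'
  set K : ℕ := s.sup id with hK
  have htail : ∀ N : ℕ, ∑ d ∈ (Icc 1 N).filter (fun d => K < d), dsumC d / d ≤ ε / (4 * C * h2) := by
    intro N
    have hd : Disjoint ((Icc 1 N).filter (fun d => K < d)) s := by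
      rw [Finset.disjoint_left]
      intro d hd hds
      have h3 := (mem_filter.mp hd).2
      have h4 : d ≤ K := Finset.le_sup (f := id) hds
      omega
    exact (le_abs_self _).trans (hs _ hd).le
  set SK : ℝ := ∑ d ∈ Icc 1 K, dsumC d with hSK
  have hSK0 : 0 ≤ SK := Finset.sum_nonneg (fun d _ => dsumC_nonneg d)
  set ε2 : ℝ := ε / (2 * (SK + 1)) with hε2
  have hε2pos : 0 < ε2 := by positivity
  have hex : ∀ d : ℕ, ∃ N0 : ℕ, 1 ≤ d → ∀ N : ℕ, N0 ≤ N →
    ∀ᶠ Y : ℝ in atTop, ‖∑ n ∈ (Icc 1 N).filter (fun n => d ∣ n), ((kap n * ww ((n : ℝ) / N) : ℝ) : ℂ) *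
      Qs f n (h2 * Y) (fun y t => ((h y ^ 2 * ps0 t : ℝ) : ℂ)) Y‖ ≤ ε2 * N * Y := by
    intro d
    by_cases hd : 1 ≤ d
    · obtain ⟨N0, hN0⟩ := hQ d hd h h1 h2 hh ε2 hε2pos
      exact ⟨N0, fun _ => hN0⟩
    · exact ⟨0, fun h => absurd h hd⟩
  choose N0 hN0 using hex
  refine ⟨(Icc 1 K).sup N0, fun N hN => ?_⟩
  have hsmall : ∀ᶠ Y : ℝ in atTop, ∀ d ∈ Icc 1 K, ‖∑ n ∈ (Icc 1 N).filter (fun n => d ∣ n), ((kap n * ww ((n : ℝ) / N) : ℝ) : ℂ) *
      Qs f n (h2 * Y) (fun y t => ((h y ^ 2 * ps0 t : ℝ) : ℂ)) Y‖ ≤ ε2 * N * Y := by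
    rw [Filter.eventually_all_finset]
    intro d hd
    exact hN0 d (mem_Icc.mp hd).1 N (le_trans (Finset.le_sup hd) hN)
  filter_upwards [hsmall, eventually_ge_atTop (N : ℝ), eventually_gt_atTop (0 : ℝ)] with Y hY hYN hY0
  set Q : ℕ → ℂ := fun n => Qs f n (h2 * Y) (fun y t => ((h y ^ 2 * ps0 t : ℝ) : ℂ)) Y with hQdef
  set Z : ℕ → ℂ := fun d => ∑ n ∈ (Icc 1 N).filter (fun n => d ∣ n), ((kap n * ww ((n : ℝ) / N) : ℝ) : ℂ) * Q n
    with hZ
  have hQb : ∀ n ∈ Icc 1 N, ‖Q n‖ ≤ C * (h2 * Y) := by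
    intro n hn
    obtain ⟨hn1, hn2⟩ := mem_Icc.mp hn
    refine hCQ n hn1 Y ?_
    have e1 : (n : ℝ) ≤ N := by exact_mod_cast hn2
    nlinarith
  have hZb : ∀ d ∈ Icc 1 N, ‖Z d‖ ≤ (N / d : ℝ) * (2 * (C * (h2 * Y))) := by
    intro d hd
    have hd1 := (mem_Icc.mp hd).1
    have hcard : (((Icc 1 N).filter (fun n => d ∣ n)).card : ℝ) ≤ (N / d : ℝ) := by
      have e1 : Icc 1 N = Ioc 0 N := by
        ext x
        rw [mem_Icc, mem_Ioc]
        omega
      rw [e1, Nat.Ioc_filter_dvd_card_eq_div]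
      exact Nat.cast_div_le
    calc ‖Z d‖ ≤ ∑ n ∈ (Icc 1 N).filter (fun n => d ∣ n), (2 * (C * (h2 * Y))) := by
          refine norm_sum_le_of_le _ (fun n hn => ?_)
          rw [norm_mul, Complex.norm_real, Real.norm_eq_abs]
          have k1 := dsum_kap n
          have k2 := hw0 ((n : ℝ) / N)
          have k3 := hw1 ((n : ℝ) / N)
          rw [abs_of_nonneg (mul_nonneg k1.1 k2)]
          have k4 : kap n * ww ((n : ℝ) / N) ≤ 2 := by nlinarith
          exact mul_le_mul k4 (hQb n (mem_filter.mp hn).1) (norm_nonneg _) (by norm_num)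
      _ = (((Icc 1 N).filter (fun n => d ∣ n)).card : ℝ) * (2 * (C * (h2 * Y))) := by
          rw [Finset.sum_const, nsmul_eq_mul]
      _ ≤ _ := mul_le_mul_of_nonneg_right hcard (by positivity)
  have hexch : ∑ n ∈ Icc 1 N, ((kap n * (n / n.totient) * ww ((n : ℝ) / N) : ℝ) : ℂ) * Q n =
      ∑ d ∈ Icc 1 N, (dsumC d : ℂ) * Z d := by
    have e1 : ∀ n ∈ Icc 1 N, ((kap n * (n / n.totient) * ww ((n : ℝ) / N) : ℝ) : ℂ) * Q n =
        ∑ d ∈ Icc 1 N, (if d ∣ n then (dsumC d : ℂ) * (((kap n * ww ((n : ℝ) / N) : ℝ) : ℂ) * Q n) else 0) := by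
      intro n hn
      obtain ⟨hn1, hn2⟩ := mem_Icc.mp hn
      have e2 : n.divisors = (Icc 1 N).filter (fun d => d ∣ n) := by
        ext d
        rw [Nat.mem_divisors, mem_filter, mem_Icc]
        constructor
        · rintro ⟨h3, h4⟩
          have h5 := Nat.le_of_dvd hn1 h3
          have h6 := Nat.pos_of_dvd_of_pos h3 hn1
          exact ⟨⟨h6, by omega⟩, h3⟩
        · rintro ⟨_, h3⟩
          exact ⟨h3, by omega⟩
      rw [dsum_eq n hn1, ← Finset.sum_filter, ← e2, ← Finset.sum_mul]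
      push_cast
      ring
    rw [Finset.sum_congr rfl e1, Finset.sum_comm]
    refine Finset.sum_congr rfl (fun d _ => ?_)
    rw [← Finset.sum_filter, ← Finset.mul_sum]
  rw [hexch]
  have hsplit : ∑ d ∈ Icc 1 N, dsumC d * ‖Z d‖ =
      ∑ d ∈ (Icc 1 N).filter (fun d => d ≤ K), dsumC d * ‖Z d‖ +
      ∑ d ∈ (Icc 1 N).filter (fun d => K < d), dsumC d * ‖Z d‖ := by
    rw [← Finset.sum_filter_add_sum_filter_not (Icc 1 N) (fun d => d ≤ K)]
    congr 1
    refine Finset.sum_congr ?_ (fun _ _ => rfl)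
    refine Finset.filter_congr (fun d _ => ?_)
    omega
  have hpart1 : ∑ d ∈ (Icc 1 N).filter (fun d => d ≤ K), dsumC d * ‖Z d‖ ≤ ε / 2 * N * Y := by
    calc ∑ d ∈ (Icc 1 N).filter (fun d => d ≤ K), dsumC d * ‖Z d‖
        ≤ ∑ d ∈ (Icc 1 N).filter (fun d => d ≤ K), dsumC d * (ε2 * N * Y) := by
          refine Finset.sum_le_sum (fun d hd => ?_)
          obtain ⟨hd1, hd2⟩ := mem_filter.mp hd
          exact mul_le_mul_of_nonneg_left (hY d (mem_Icc.mpr ⟨(mem_Icc.mp hd1).1, hd2⟩)) (dsumC_nonneg d)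
      _ ≤ ∑ d ∈ Icc 1 K, dsumC d * (ε2 * N * Y) := by
          refine Finset.sum_le_sum_of_subset_of_nonneg ?_ (fun d _ _ => ?_)
          · intro d hd
            obtain ⟨hd1, hd2⟩ := mem_filter.mp hd
            exact mem_Icc.mpr ⟨(mem_Icc.mp hd1).1, hd2⟩
          · have := dsumC_nonneg d
            positivity
      _ = SK * (ε2 * N * Y) := by rw [← Finset.sum_mul]
      _ ≤ (SK + 1) * (ε2 * N * Y) := mul_le_mul_of_nonneg_right (by linarith) (by positivity)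
      _ = ε / 2 * N * Y := by
          rw [hε2]
          field_simp
  have hpart2 : ∑ d ∈ (Icc 1 N).filter (fun d => K < d), dsumC d * ‖Z d‖ ≤ ε / 2 * N * Y := by
    calc ∑ d ∈ (Icc 1 N).filter (fun d => K < d), dsumC d * ‖Z d‖
        ≤ ∑ d ∈ (Icc 1 N).filter (fun d => K < d), (dsumC d / d) * (2 * C * h2 * N * Y) := by
          refine Finset.sum_le_sum (fun d hd => ?_)
          have h3 := hZb d (mem_filter.mp hd).1
          calc dsumC d * ‖Z d‖ ≤ dsumC d * ((N / d : ℝ) * (2 * (C * (h2 * Y)))) :=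
                mul_le_mul_of_nonneg_left h3 (dsumC_nonneg d)
            _ = (dsumC d / d) * (2 * C * h2 * N * Y) := by ring
      _ = (∑ d ∈ (Icc 1 N).filter (fun d => K < d), dsumC d / d) * (2 * C * h2 * N * Y) := by
          rw [← Finset.sum_mul]
      _ ≤ (ε / (4 * C * h2)) * (2 * C * h2 * N * Y) :=
          mul_le_mul_of_nonneg_right (htail N) (by positivity)
      _ = ε / 2 * N * Y := by
          field_simp
          ring
  calc ‖∑ d ∈ Icc 1 N, (dsumC d : ℂ) * Z d‖ ≤ ∑ d ∈ Icc 1 N, dsumC d * ‖Z d‖ := by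
        refine norm_sum_le_of_le _ (fun d _ => ?_)
        rw [norm_mul, Complex.norm_real, Real.norm_eq_abs, abs_of_nonneg (dsumC_nonneg d)]
    _ ≤ ε * N * Y := by
        rw [hsplit]
        linarith

end Pool.Agent.OmEq

end

/-! ### from `Lib_MP_f1a94e_lp.Fx` -/

section

/-!
# Piece FX: simple facts on the family
-/

set_option autoImplicit false

namespace Pool.Agent.LPr

open Finset Pool.Agent.GaussMR Pool.Agent.OmAll Pool.Agent.OmEq Filter

/-- `gx` is multiplicative on nonzero numbers (`Nat.perm_primeFactorsList_mul`, `List.Perm.prod_eq`, `List.map_append`, `List.prod_append`) -/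
theorem gx_mul (φ : ℝ → ℂ) (X : ℝ) {m n : ℕ} (hm : m ≠ 0) (hn : n ≠ 0) : gx φ X (m * n) = gx φ X m * gx φ X n := by
  unfold gx
  rw [((Nat.perm_primeFactorsList_mul hm hn).map _).prod_eq, List.map_append, List.prod_append]

/-- `gx φ X p = φ (log p / log X)` -/
theorem gx_prime (φ : ℝ → ℂ) (X : ℝ) {p : ℕ} (hp : p.Prime) : gx φ X p = φ (Real.log p / Real.log X) := by
  unfold gx
  rw [Nat.primeFactorsList_prime hp, List.map_singleton, List.prod_singleton]

/-- a product of numbers of modulus one -/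
theorem gx_norm (φ : ℝ → ℂ) (hφ : ∀ t, ‖φ t‖ = 1) (X : ℝ) (n : ℕ) : ‖gx φ X n‖ = 1 := by
  unfold gx
  generalize n.primeFactorsList = l
  induction l with
  | nil => simp
  | cons a l ih => rw [List.map_cons, List.prod_cons, norm_mul, hφ, ih, one_mul]

/-- `gx 1 = 1` -/
theorem gx_const (X : ℝ) (n : ℕ) : gx (fun _ => 1) X n = 1 := by
  unfold gx
  generalize n.primeFactorsList = l
  induction l with
  | nil => simp
  | cons a l ih => rw [List.map_cons, List.prod_cons, ih, one_mul]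

/-- for a step function `φ (log n / log X) = 1` for all `1 ≤ n ≤ T` if `X` is large (`log n / log X ≤ log T / log X < min u_i`, or `r = 0`) -/
theorem stepf_small (φ : ℝ → ℂ) (hφ : StepF φ) (T : ℕ) :
    ∀ᶠ X : ℝ in atTop, ∀ n : ℕ, n ≤ T → φ (Real.log n / Real.log X) = 1 := by
  obtain ⟨r, c, u, v, huv, hex⟩ := hφ.ex
  have hlim : Tendsto (fun X : ℝ => Real.log T / Real.log X) atTop (nhds 0) :=
    tendsto_const_nhds.div_atTop Real.tendsto_log_atTop
  have h1 : ∀ i : Fin r, ∀ᶠ X : ℝ in atTop, Real.log T / Real.log X < u i := fun i =>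
    hlim.eventually_lt_const (huv i).1
  have h2 : ∀ᶠ X : ℝ in atTop, ∀ i : Fin r, Real.log T / Real.log X < u i := eventually_all.2 h1
  filter_upwards [h2, eventually_gt_atTop (1 : ℝ)] with X hX hX1 n hn
  have hlX : 0 < Real.log X := Real.log_pos hX1
  rw [hex]
  have hz : ∑ i, (if u i < Real.log n / Real.log X ∧ Real.log n / Real.log X ≤ v i then c i else 0) = 0 := by
    refine sum_eq_zero (fun i _ => ?_)
    refine if_neg (fun h => ?_)
    have h3 : Real.log n ≤ Real.log T := by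
      rcases Nat.eq_zero_or_pos n with h0 | h0
      · subst h0
        rw [Nat.cast_zero, Real.log_zero]
        exact Real.log_natCast_nonneg T
      · exact Real.log_le_log (by exact_mod_cast h0) (by exact_mod_cast hn)
    have h4 : Real.log n / Real.log X ≤ Real.log T / Real.log X := div_le_div_of_nonneg_right h3 hlX.le
    have h5 := hX i
    linarith [h.1]
  rw [hz, add_zero]

/-- hence `gx φ X n = 1` for `n ≤ T` and large `X` -/
theorem gx_small (φ : ℝ → ℂ) (hφ : StepF φ) (T : ℕ) : ∀ᶠ X : ℝ in atTop, ∀ n : ℕ, n ≤ T → gx φ X n = 1 := by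
  filter_upwards [stepf_small φ hφ T] with X hX n hn
  unfold gx
  apply List.prod_eq_one
  intro z hz
  obtain ⟨p, hp, rfl⟩ := List.mem_map.1 hz
  exact hX p ((Nat.le_of_mem_primeFactorsList hp).trans hn)

/-- `fx R w 1 X = fz R w` -/
theorem fx_const (R : ℕ) (w : ℂ) (X : ℝ) (n : ℕ) : fx R w (fun _ => 1) X n = fz R w n := by
  unfold fx fz
  rw [gx_const, mul_one]

/-- `fx = fz * gx` -/
theorem fx_eq (R : ℕ) (w : ℂ) (φ : ℝ → ℂ) (X : ℝ) (n : ℕ) : fx R w φ X n = fz R w n * gx φ X n := by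
  unfold fx fz
  split_ifs
  · rw [zero_mul]
  · rfl

private theorem auxfx_fz_mul (R : ℕ) (w : ℂ) (m n : ℕ) : fz R w (m * n) = fz R w m * fz R w n := by
  unfold fz
  by_cases hm : m = 0
  · subst hm
    simp
  by_cases hn : n = 0
  · subst hn
    simp
  by_cases h1 : m.Coprime R
  · by_cases h2 : n.Coprime R
    · have h3 : (m * n).Coprime R := Nat.Coprime.mul_left h1 h2
      rw [if_neg (by rintro (h | h); exacts [mul_ne_zero hm hn h, h h3]),
        if_neg (by rintro (h | h); exacts [hm h, h h1]), if_neg (by rintro (h | h); exacts [hn h, h h2]),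
        ArithmeticFunction.cardFactors_mul hm hn, pow_add]
    · have h3 : ¬ (m * n).Coprime R := fun h => h2 (Nat.Coprime.coprime_mul_left h)
      rw [if_pos (Or.inr h3), if_pos (Or.inr h2), mul_zero]
  · have h3 : ¬ (m * n).Coprime R := fun h => h1 (Nat.Coprime.coprime_mul_right h)
    rw [if_pos (Or.inr h3), if_pos (Or.inr h1), zero_mul]

private theorem auxfx_fz_zero (R : ℕ) (w : ℂ) : fz R w 0 = 0 := by
  unfold fz
  rw [if_pos (Or.inl rfl)]

/-- completely multiplicative (as `fz_FF`) -/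
theorem fx_mul (R : ℕ) (w : ℂ) (φ : ℝ → ℂ) (X : ℝ) (m n : ℕ) :
    fx R w φ X (m * n) = fx R w φ X m * fx R w φ X n := by
  simp only [fx_eq, auxfx_fz_mul]
  by_cases hm : m = 0
  · subst hm
    simp [auxfx_fz_zero]
  by_cases hn : n = 0
  · subst hn
    simp [auxfx_fz_zero]
  rw [gx_mul φ X hm hn]
  ring

private theorem auxfx_fx_bd (R : ℕ) (w : ℂ) (hw : ‖w‖ = 1) (φ : ℝ → ℂ) (hφ : ∀ t, ‖φ t‖ = 1) (X : ℝ) (n : ℕ) :
    ‖fx R w φ X n‖ ≤ 1 := by
  unfold fx
  split_ifs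
  · rw [norm_zero]
    exact zero_le_one
  · rw [norm_mul, norm_pow, hw, one_pow, gx_norm φ hφ, one_mul]

private theorem auxfx_fz_prime (R : ℕ) (w : ℂ) {p : ℕ} (hp : p.Prime) (h : ¬ p ∣ R) : fz R w p = w := by
  unfold fz
  have h1 : p.Coprime R := (Nat.Prime.coprime_iff_not_dvd hp).2 h
  rw [if_neg (by rintro (h' | h'); exacts [hp.ne_zero h', h' h1]), ArithmeticFunction.cardFactors_apply_prime hp,
    pow_one]

theorem fx_FX (R : ℕ) (hR : 0 < R) (w : ℂ) (hw : ‖w‖ = 1) (φ : ℝ → ℂ) (hφ : StepF φ) :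
    FX (fx R w φ) R.primeFactors w := by
  refine ⟨fx_mul R w φ, auxfx_fx_bd R w hw φ hφ.un, fun T => ?_⟩
  filter_upwards [gx_small φ hφ T] with X hX p hpT hp _ hpR
  rw [fx_eq, hX p hpT, mul_one]
  exact auxfx_fz_prime R w hp (fun h => hpR (Nat.mem_primeFactors.2 ⟨hp, h, hR.ne'⟩))

theorem fz_FX (R : ℕ) (hR : 0 < R) (w : ℂ) (hw : ‖w‖ = 1) : FX (fun _ => fz R w) R.primeFactors w := by
  have h := fz_FF R hR w hw
  exact ⟨fun _ => h.mul, fun _ => h.bd, fun T => Eventually.of_forall (fun _ p _ hp h4 hpR => h.pr p hp h4 hpR)⟩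

/-- primes larger than `R` do not divide `R`; `fx R w φ X 1 = 1` -/
theorem fx_UF (R : ℕ) (hR : 0 < R) (w : ℂ) (hw : ‖w‖ = 1) (φ : ℝ → ℂ) (hφ : ∀ t, ‖φ t‖ = 1) (X : ℝ) :
    UF R (fx R w φ X) := by
  refine ⟨fx_mul R w φ X, ?_, auxfx_fx_bd R w hw φ hφ X, fun p hp hRp => ?_⟩
  · unfold fx gx
    simp
  · rw [fx_eq, norm_mul, gx_norm φ hφ, mul_one, auxfx_fz_prime R w hp (fun h => absurd (Nat.le_of_dvd hR h) (not_le.2 hRp)), hw]

theorem fz_UF (R : ℕ) (hR : 0 < R) (w : ℂ) (hw : ‖w‖ = 1) : UF R (fz R w) := by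
  have h := fx_UF R hR w hw (fun _ => 1) (fun _ => norm_one) 2
  have h2 : fx R w (fun _ => 1) 2 = fz R w := funext (fun n => fx_const R w 2 n)
  rwa [h2] at h

/-- the value at `2 n` (multiplicativity; `fx R w φ X 2 = w` if `R` is odd and `X` is large, `0` if `R` is even) -/
theorem fx_two (R : ℕ) (hR : 0 < R) (w : ℂ) (φ : ℝ → ℂ) (hφ : StepF φ) :
    ∀ᶠ X : ℝ in atTop, ∀ n : ℕ, fx R w φ X (2 * n) = (if 2 ∣ R then 0 else w) * fx R w φ X n := by
  filter_upwards [gx_small φ hφ 2] with X hX n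
  rw [fx_mul]
  congr 1
  rw [fx_eq, hX 2 le_rfl, mul_one]
  split_ifs with h
  · unfold fz
    exact if_pos (Or.inr (fun h' => (Nat.Prime.coprime_iff_not_dvd Nat.prime_two).1 h' h))
  · exact auxfx_fz_prime R w Nat.prime_two h

theorem fz_two (R : ℕ) (hR : 0 < R) (w : ℂ) (n : ℕ) : fz R w (2 * n) = (if 2 ∣ R then 0 else w) * fz R w n := by
  rw [auxfx_fz_mul]
  congr 1
  split_ifs with h
  · unfold fz
    exact if_pos (Or.inr (fun h' => (Nat.Prime.coprime_iff_not_dvd Nat.prime_two).1 h' h))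
  · exact auxfx_fz_prime R w Nat.prime_two h

/-- the constant one is a step function (`r = 0`) -/
theorem stepf_one : StepF (fun _ => 1) := by
  refine ⟨fun _ => norm_one, 0, fun _ => 0, fun _ => 1, fun _ => 1, fun i => i.elim0, fun t => ?_⟩
  simp

end Pool.Agent.LPr

end

/-! ### from `Lib_MP_f1a94e_lp.VMean` -/

section

/-!
# Piece VMEAN: mean values over the odd primitive Gaussian integers
-/

set_option autoImplicit false

namespace Pool.Agent.LPr

open Finset Pool.Agent.GaussMR Pool.Agent.GaussCM Pool.Agent.OmEq Filter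

/-- a prime dividing the norm of an odd primitive Gaussian integer is `1 mod 4` -/
theorem vm_mod {p : ℕ} (hp : p.Prime) {z : G} (ho : Odd (nm z)) (hz : Prim z) (h : p ∣ nm z) : p % 4 = 1 := by
  have h2 : p ≠ 2 := by
    rintro rfl
    exact (Nat.not_even_iff_odd.2 ho) (even_iff_two_dvd.2 h)
  have h3 : IsSquare (-1 : ZMod (nm z)) := by
    have := ZMod.isSquare_neg_one_of_eq_sq_add_sq_of_isCoprime (nm_eq z) hz
    simpa using this
  have h4 : p % 4 ≠ 3 := by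
    have : Fact p.Prime := ⟨hp⟩
    exact ZMod.exists_sq_eq_neg_one_iff.1 (ZMod.isSquare_neg_one_of_dvd h h3)
  have h5 := hp.eq_two_or_odd
  omega

open Classical in
/-- the sum over the multiples of a split prime -/
theorem vm_mult (ψ : G → ℂ) (hψ : CM ψ) (w : G) (hw : Spl w) (T : ℕ → ℂ) (Y : ℝ) :
    ∑ z ∈ (V Y).filter (fun z => w ∣ z), ψ z * T (nm z / nm w) =
      ψ w * (∑ z ∈ V (Y / nm w), ψ z * T (nm z) -
        ∑ z ∈ (V (Y / nm w)).filter (fun z => star w ∣ z), ψ z * T (nm z)) := by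
  have hw0 : w ≠ 0 := ne_zero_of_odd hw.odd
  have hnw : (0 : ℝ) < nm w := by exact_mod_cast nm_pos hw0
  have h1 : ∑ z ∈ V (Y / nm w), ψ z * T (nm z) -
      ∑ z ∈ (V (Y / nm w)).filter (fun z => star w ∣ z), ψ z * T (nm z) =
      ∑ z ∈ (V (Y / nm w)).filter (fun z => ¬ star w ∣ z), ψ z * T (nm z) := by
    rw [← Finset.sum_filter_add_sum_filter_not (V (Y / nm w)) (fun z => star w ∣ z)]
    ring
  rw [h1, Finset.mul_sum]
  symm
  refine Finset.sum_bij (fun z _ => w * z) ?_ ?_ ?_ ?_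
  · intro z hz
    rw [Finset.mem_filter, mem_V] at hz
    obtain ⟨⟨h1, h2, h3⟩, h4⟩ := hz
    rw [Finset.mem_filter, mem_V]
    rw [le_div_iff₀ hnw] at h1
    refine ⟨⟨?_, odd_nm_mul.mpr ⟨hw.odd, h2⟩, (prim_mul_iff hw h3).mpr h4⟩, dvd_mul_right _ _⟩
    rw [nm_mul]
    push_cast
    linarith
  · intro z _ z' _ h
    exact mul_left_cancel₀ hw0 h
  · intro z' hz'
    rw [Finset.mem_filter, mem_V] at hz'
    obtain ⟨⟨h1, h2, h3⟩, ⟨z, rfl⟩⟩ := hz'
    have hz2 : Prim z := (prim_of_mul h3).2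
    refine ⟨z, ?_, rfl⟩
    rw [Finset.mem_filter, mem_V]
    refine ⟨⟨?_, (odd_nm_mul.mp h2).2, hz2⟩, (prim_mul_iff hw hz2).mp h3⟩
    rw [nm_mul] at h1
    push_cast at h1
    rw [le_div_iff₀ hnw]
    linarith
  · intro z hz
    rw [Finset.mem_filter, mem_V] at hz
    rw [hψ.mul w z hw.odd hz.1.2.1, nm_mul, Nat.mul_div_cancel_left _ (nm_pos hw0)]
    ring

open Classical in
/-- multiples of `w` -/
theorem vm_card (w : G) (hw0 : w ≠ 0) (Y : ℝ) :
    ((V Y).filter (fun z => w ∣ z)).card ≤ (V (Y / nm w)).card := by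
  have hnw : (0 : ℝ) < nm w := by exact_mod_cast nm_pos hw0
  have h : (V Y).filter (fun z => w ∣ z) ⊆ (V (Y / nm w)).image (fun z => w * z) := by
    intro z' hz'
    rw [Finset.mem_filter, mem_V] at hz'
    obtain ⟨⟨h1, h2, h3⟩, ⟨z, rfl⟩⟩ := hz'
    rw [Finset.mem_image]
    refine ⟨z, ?_, rfl⟩
    rw [mem_V]
    refine ⟨?_, (odd_nm_mul.mp h2).2, (prim_of_mul h3).2⟩
    rw [nm_mul] at h1
    push_cast at h1
    rw [le_div_iff₀ hnw]
    linarith
  exact (Finset.card_le_card h).trans Finset.card_image_le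

/-- the sum over the primes above `p` -/
noncomputable def vmG (ψ : G → ℂ) (p : ℕ) : ℂ := ∑ w ∈ PP ((p : ℝ) - 1 / 2) p, (ψ w + ψ (star w))

theorem vmG_zero (ψ : G → ℂ) (p : ℕ) (h : ¬ (p.Prime ∧ p % 4 = 1)) : vmG ψ p = 0 := by
  unfold vmG
  rw [Finset.sum_eq_zero]
  intro w hw
  exfalso
  have h1 := PP_spl hw
  obtain ⟨h2, h3, -⟩ := mem_PP.1 hw
  have h4 : nm w = p := by
    apply le_antisymm
    · exact_mod_cast h3
    · by_contra hcon
      push Not at hcon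
      have h5 : nm w + 1 ≤ p := hcon
      have h6 : (nm w : ℝ) + 1 ≤ p := by exact_mod_cast h5
      linarith
  rw [← h4] at h
  exact h h1

theorem vmG_one {p : ℕ} (hp : p.Prime) (h4 : p % 4 = 1) : ∃ w : G, Spl w ∧ nm w = p ∧
    ∀ ψ : G → ℂ, vmG ψ p = ψ w + ψ (star w) := by
  obtain ⟨w, hw, hn⟩ := PP_exists (P := (p : ℝ) - 1 / 2) (Q := p) hp h4 (by linarith) le_rfl
  refine ⟨w, PP_spl hw, hn, fun ψ => ?_⟩
  unfold vmG
  have h5 : PP ((p : ℝ) - 1 / 2) p = {w} := by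
    rw [Finset.eq_singleton_iff_unique_mem]
    refine ⟨hw, fun w' hw' => ?_⟩
    obtain ⟨h2, h3, -⟩ := mem_PP.1 hw'
    have h4 : nm w' = p := by
      apply le_antisymm
      · exact_mod_cast h3
      · by_contra hcon
        push Not at hcon
        have h5 : nm w' + 1 ≤ p := hcon
        have h6 : (nm w' : ℝ) + 1 ≤ p := by exact_mod_cast h5
        linarith
    exact PP_inj hw' hw (h4.trans hn.symm)
  rw [h5, Finset.sum_singleton]

open Classical in
/-- the elements with `p ∣ nm z` -/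
theorem vm_split {p : ℕ} (hp : p.Prime) {w : G} (hw : Spl w) (hn : nm w = p) (Y : ℝ) (h : G → ℂ) :
    ∑ z ∈ (V Y).filter (fun z => p ∣ nm z), h z =
      ∑ z ∈ (V Y).filter (fun z => w ∣ z), h z + ∑ z ∈ (V Y).filter (fun z => star w ∣ z), h z := by
  rw [← Finset.sum_union]
  · refine Finset.sum_congr ?_ fun _ _ => rfl
    ext z
    rw [Finset.mem_union, Finset.mem_filter, Finset.mem_filter, Finset.mem_filter]
    constructor
    · rintro ⟨h1, h2⟩
      rcases tog_dvd_exists hp hn h2 with h3 | h3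
      · exact Or.inl ⟨h1, h3⟩
      · exact Or.inr ⟨h1, h3⟩
    · rintro (⟨h1, h2⟩ | ⟨h1, h2⟩)
      · refine ⟨h1, ?_⟩
        rw [← hn]
        exact nm_dvd h2
      · refine ⟨h1, ?_⟩
        rw [← hn, ← nm_star w]
        exact nm_dvd h2
  · rw [Finset.disjoint_left]
    intro z h1 h2
    rw [Finset.mem_filter] at h1 h2
    have h3 := tog_both hw.prime hw.not_dvd_star (by rw [tog_mul_star, hn] : w * star w = ((p : ℕ) : G)) h1.2 h2.2
    exact tog_not_dvd hp (mem_V.1 h1.1).2.2 h3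

open Classical in
/-- the sum over the elements with `p ∣ nm z` -/
theorem vm_prime (ψ : G → ℂ) (hψ : CM ψ) (T : ℕ → ℂ) (B : ℝ) (hB : 0 ≤ B) (p : ℕ) (hp : p.Prime) (Y : ℝ)
    (hY : 0 ≤ Y) (hT : ∀ n : ℕ, n ≠ 0 → (n : ℝ) ≤ Y → ‖T n‖ ≤ B) :
    ‖∑ z ∈ (V Y).filter (fun z => p ∣ nm z), ψ z * T (nm z / p) - vmG ψ p * ∑ z ∈ V (Y / p), ψ z * T (nm z)‖ ≤
      18 * B * Y * (1 / (p : ℝ) ^ 2) := by
  have hp0 : (0 : ℝ) < p := by exact_mod_cast hp.pos
  have hp1 : (1 : ℝ) ≤ p := by exact_mod_cast hp.one_lt.le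
  by_cases h4 : p % 4 = 1
  swap
  · rw [vmG_zero ψ p (fun h => h4 h.2), zero_mul, sub_zero]
    have h1 : (V Y).filter (fun z => p ∣ nm z) = ∅ := by
      rw [Finset.filter_eq_empty_iff]
      intro z hz hd
      obtain ⟨-, h2, h3⟩ := mem_V.1 hz
      exact h4 (vm_mod hp h2 h3 hd)
    rw [h1, Finset.sum_empty, norm_zero]
    positivity
  obtain ⟨w, hw, hn, hG⟩ := vmG_one hp h4
  rw [hG, vm_split hp hw hn]
  have hnR : ((nm w : ℕ) : ℝ) = p := by rw [hn]
  have e1 := vm_mult ψ hψ w hw T Y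
  have e2 := vm_mult ψ hψ (star w) hw.conj T Y
  rw [nm_star, star_star] at e2
  rw [hn] at e1 e2
  rw [e1, e2]
  have key : ∀ v : G, Spl v → nm v = p →
      ‖ψ (star v) * ∑ z ∈ (V (Y / p)).filter (fun z => v ∣ z), ψ z * T (nm z)‖ ≤ 9 * B * Y * (1 / (p : ℝ) ^ 2) := by
    intro v hv hvn
    rw [norm_mul]
    have h1 : ‖ψ (star v)‖ ≤ 1 := hψ.bd _ hv.conj.odd
    have h2 : ‖∑ z ∈ (V (Y / p)).filter (fun z => v ∣ z), ψ z * T (nm z)‖ ≤
        ((V (Y / p)).filter (fun z => v ∣ z)).card * B := by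
      rw [← nsmul_eq_mul]
      refine (norm_sum_le _ _).trans ?_
      apply Finset.sum_le_card_nsmul
      intro z hz
      rw [Finset.mem_filter, mem_V] at hz
      obtain ⟨⟨h3, h4, h5⟩, -⟩ := hz
      rw [norm_mul]
      have h6 := hψ.bd z h4
      have h7 : ‖T (nm z)‖ ≤ B := by
        apply hT _ (nm_pos_of_odd h4).ne'
        exact h3.trans (div_le_self hY hp1)
      calc ‖ψ z‖ * ‖T (nm z)‖ ≤ 1 * B := mul_le_mul h6 h7 (norm_nonneg _) zero_le_one
        _ = B := one_mul B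
    have h3 : (((V (Y / p)).filter (fun z => v ∣ z)).card : ℝ) ≤ 9 * (Y / p / p) := by
      have h4 := vm_card v (ne_zero_of_odd hv.odd) (Y / p)
      rw [hvn] at h4
      exact (Nat.cast_le.2 h4).trans (card_V_le _ (by positivity))
    calc ‖ψ (star v)‖ * ‖∑ z ∈ (V (Y / p)).filter (fun z => v ∣ z), ψ z * T (nm z)‖
        ≤ 1 * (9 * (Y / p / p) * B) :=
          mul_le_mul h1 (h2.trans (mul_le_mul_of_nonneg_right h3 hB)) (norm_nonneg _) zero_le_one
      _ = 9 * B * Y * (1 / (p : ℝ) ^ 2) := by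
          field_simp
  have k1 := key w hw hn
  have k2 := key (star w) hw.conj (by rw [nm_star]; exact hn)
  rw [star_star] at k2
  set S := ∑ z ∈ V (Y / p), ψ z * T (nm z)
  set E1 := ∑ z ∈ (V (Y / p)).filter (fun z => w ∣ z), ψ z * T (nm z)
  set E2 := ∑ z ∈ (V (Y / p)).filter (fun z => star w ∣ z), ψ z * T (nm z)
  have e3 : ψ w * (S - E2) + ψ (star w) * (S - E1) - (ψ w + ψ (star w)) * S = -(ψ w * E2) - ψ (star w) * E1 := by
    ring
  rw [e3]
  calc ‖-(ψ w * E2) - ψ (star w) * E1‖ ≤ ‖-(ψ w * E2)‖ + ‖ψ (star w) * E1‖ := norm_sub_le _ _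
    _ = ‖ψ w * E2‖ + ‖ψ (star w) * E1‖ := by rw [norm_neg]
    _ ≤ 18 * B * Y * (1 / (p : ℝ) ^ 2) := by linarith

open Classical in
/-- few elements with `p² ∣ nm z` -/
theorem vm_sq {p : ℕ} (hp : p.Prime) (Y : ℝ) (hY : 0 ≤ Y) :
    (((V Y).filter (fun z => p ^ 2 ∣ nm z)).card : ℝ) ≤ 18 * Y * (1 / (p : ℝ) ^ 2) := by
  have hp0 : (0 : ℝ) < p := by exact_mod_cast hp.pos
  by_cases h4 : p % 4 = 1
  swap
  · have h1 : (V Y).filter (fun z => p ^ 2 ∣ nm z) = ∅ := by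
      rw [Finset.filter_eq_empty_iff]
      intro z hz hd
      obtain ⟨-, h2, h3⟩ := mem_V.1 hz
      exact h4 (vm_mod hp h2 h3 ((dvd_pow_self p two_ne_zero).trans hd))
    rw [h1, Finset.card_empty, Nat.cast_zero]
    positivity
  obtain ⟨w, hw, hn, -⟩ := vmG_one hp h4
  have hpn : ∀ v : G, nm v = p → nm (v * v) = p ^ 2 := by
    intro v hv
    rw [nm_mul, hv]
    ring
  have hsub : (V Y).filter (fun z => p ^ 2 ∣ nm z) ⊆
      (V Y).filter (fun z => w * w ∣ z) ∪ (V Y).filter (fun z => star w * star w ∣ z) := by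
    intro z hz
    rw [Finset.mem_filter] at hz
    obtain ⟨hzV, hd⟩ := hz
    have hzp := (mem_V.1 hzV).2.2
    have key : ∀ v : G, Spl v → nm v = p → v ∣ z → v * v ∣ z := by
      intro v hv hvn hvz
      obtain ⟨y, rfl⟩ := hvz
      have h1 : p ∣ nm y := by
        rw [nm_mul, hvn, pow_two] at hd
        exact (Nat.mul_dvd_mul_iff_left hp.pos).1 hd
      rcases tog_dvd_exists hp hvn h1 with h2 | h2
      · exact mul_dvd_mul_left v h2
      · exfalso
        exact (prim_mul_iff hv (prim_of_mul hzp).2).1 hzp h2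
    rw [Finset.mem_union, Finset.mem_filter, Finset.mem_filter]
    rcases tog_dvd_exists hp hn ((dvd_pow_self p two_ne_zero).trans hd) with h2 | h2
    · exact Or.inl ⟨hzV, key w hw hn h2⟩
    · exact Or.inr ⟨hzV, key (star w) hw.conj (by rw [nm_star]; exact hn) h2⟩
  have hone : ∀ v : G, Spl v → nm v = p → (((V Y).filter (fun z => v * v ∣ z)).card : ℝ) ≤ 9 * (Y / (p : ℝ) ^ 2) := by
    intro v hv hvn
    have h5 := vm_card (v * v) (mul_ne_zero (ne_zero_of_odd hv.odd) (ne_zero_of_odd hv.odd)) Y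
    rw [hpn v hvn] at h5
    push_cast at h5
    exact (Nat.cast_le.2 h5).trans (card_V_le _ (by positivity))
  have h6 := hone w hw hn
  have h7 := hone (star w) hw.conj (by rw [nm_star]; exact hn)
  have h8 := (Finset.card_le_card hsub).trans (Finset.card_union_le _ _)
  have h9 : (((V Y).filter (fun z => p ^ 2 ∣ nm z)).card : ℝ) ≤
      (((V Y).filter (fun z => w * w ∣ z)).card : ℝ) + (((V Y).filter (fun z => star w * star w ∣ z)).card : ℝ) := by
    exact_mod_cast h8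
  have h10 : 18 * Y * (1 / (p : ℝ) ^ 2) = 9 * (Y / (p : ℝ) ^ 2) + 9 * (Y / (p : ℝ) ^ 2) := by ring
  linarith

/-- the tail of the sum of the inverse squares -/
theorem vm_tail (S : Finset ℕ) (P : ℝ) (hP : 0 < P) (hS : ∀ p ∈ S, P < (p : ℝ)) :
    ∑ p ∈ S, 1 / (p : ℝ) ^ 2 ≤ 2 / P := by
  have h1 : S ⊆ Finset.Ioo ⌊P⌋₊ (S.sup id + 1) := by
    intro p hp
    rw [Finset.mem_Ioo]
    refine ⟨(Nat.floor_lt hP.le).2 (hS p hp), ?_⟩
    have : id p ≤ S.sup id := Finset.le_sup hp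
    simp only [id] at this
    omega
  calc ∑ p ∈ S, 1 / (p : ℝ) ^ 2 ≤ ∑ p ∈ Finset.Ioo ⌊P⌋₊ (S.sup id + 1), 1 / (p : ℝ) ^ 2 := by
        apply Finset.sum_le_sum_of_subset_of_nonneg h1
        intro _ _ _
        positivity
    _ = ∑ p ∈ Finset.Ioo ⌊P⌋₊ (S.sup id + 1), ((p : ℝ) ^ 2)⁻¹ := by
        simp only [one_div]
    _ ≤ 2 / ((⌊P⌋₊ : ℝ) + 1) := sum_Ioo_inv_sq_le _ _
    _ ≤ 2 / P := by
        apply div_le_div_of_nonneg_left (by norm_num) hP
        exact (Nat.lt_floor_add_one P).le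

/-- few elements of `V Y` have a norm divisible by the square of a large prime -/
theorem vm_few (P Y : ℝ) (hP : 0 < P) (hY : 0 ≤ Y) (S : Finset G) (hS : ∀ z ∈ S, z ∈ V Y ∧
    ∃ p : ℕ, p.Prime ∧ P < (p : ℝ) ∧ p ^ 2 ∣ nm z) : (S.card : ℝ) ≤ 36 * Y / P := by
  classical
  set R : Finset ℕ := (Finset.range (⌊Y⌋₊ + 1)).filter (fun p => p.Prime ∧ P < (p : ℝ)) with hR
  have h1 : S ⊆ R.biUnion (fun p => (V Y).filter (fun z => p ^ 2 ∣ nm z)) := by
    intro z hz
    obtain ⟨h1, p, hp, h2, h3⟩ := hS z hz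
    rw [Finset.mem_biUnion]
    refine ⟨p, ?_, Finset.mem_filter.2 ⟨h1, h3⟩⟩
    rw [hR, Finset.mem_filter, Finset.mem_range]
    refine ⟨?_, hp, h2⟩
    obtain ⟨h4, h5, -⟩ := mem_V.1 h1
    have h6 : p ^ 2 ≤ nm z := Nat.le_of_dvd (nm_pos_of_odd h5) h3
    have h7 : p ≤ p ^ 2 := Nat.le_self_pow two_ne_zero p
    have h8 : p ≤ ⌊Y⌋₊ := Nat.le_floor (le_trans (by exact_mod_cast h7.trans h6) h4)
    omega
  have h2 : (S.card : ℝ) ≤ ∑ p ∈ R, (((V Y).filter (fun z => p ^ 2 ∣ nm z)).card : ℝ) := by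
    have := (Finset.card_le_card h1).trans Finset.card_biUnion_le
    exact_mod_cast this
  calc (S.card : ℝ) ≤ ∑ p ∈ R, (((V Y).filter (fun z => p ^ 2 ∣ nm z)).card : ℝ) := h2
    _ ≤ ∑ p ∈ R, 18 * Y * (1 / (p : ℝ) ^ 2) := by
        apply Finset.sum_le_sum
        intro p hp
        rw [hR, Finset.mem_filter] at hp
        exact vm_sq hp.2.1 Y hY
    _ = 18 * Y * ∑ p ∈ R, 1 / (p : ℝ) ^ 2 := by rw [Finset.mul_sum]
    _ ≤ 18 * Y * (2 / P) := by
        apply mul_le_mul_of_nonneg_left _ (by positivity)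
        apply vm_tail R P hP
        intro p hp
        rw [hR, Finset.mem_filter] at hp
        exact hp.2.2
    _ = 36 * Y / P := by ring

/-- a positive lower bound for the left ends -/
theorem vm_win (l : List (ℝ × ℝ)) (hl : Win l) : ∃ δ : ℝ, 0 < δ ∧ ∀ w ∈ l, δ ≤ w.1 := by
  induction l with
  | nil => exact ⟨1, one_pos, fun w hw => absurd hw (List.not_mem_nil)⟩
  | cons a l ih =>
    obtain ⟨δ, h1, h2⟩ := ih (fun w hw => hl w (List.mem_cons_of_mem _ hw))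
    refine ⟨min δ a.1, lt_min h1 (hl a List.mem_cons_self).1, fun w hw => ?_⟩
    rcases List.mem_cons.1 hw with rfl | h3
    · exact min_le_right _ _
    · exact (min_le_left _ _).trans (h2 w h3)

/-- the sums over `V Y` -/
noncomputable def vmU (ψ : G → ℂ) (X : ℝ) (l : List (ℝ × ℝ)) (Y : ℝ) : ℂ :=
  ∑ z ∈ V Y, ψ z * (TW X l (nm z) : ℂ)

/-- the recursion -/
theorem vm_rec (ψ : G → ℂ) (hψ : CM ψ) (w : ℝ × ℝ) (l : List (ℝ × ℝ)) (hl : Win (w :: l)) :
    ∃ C' δ : ℝ, 0 < δ ∧ ∀ᶠ X : ℝ in atTop, ∀ Y : ℝ, 0 ≤ Y → Y ≤ X ^ 2 →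
      ‖vmU ψ X (w :: l) Y - ∑ p ∈ PW X w.1 w.2, vmG ψ p * vmU ψ X l (Y / p)‖ ≤ C' * Y * X ^ (-δ) := by
  classical
  obtain ⟨δ, hδ, hδl⟩ := vm_win l (fun w' hw' => hl w' (List.mem_cons_of_mem _ hw'))
  obtain ⟨B, hB, hTB⟩ := tw_bd δ hδ l hδl
  refine ⟨36 * B, w.1, (hl w List.mem_cons_self).1, ?_⟩
  filter_upwards [eventually_ge_atTop (2 : ℝ)] with X hX Y hY hYX
  have hX0 : (0 : ℝ) ≤ X := by linarith
  have hXw : (0 : ℝ) < X ^ w.1 := Real.rpow_pos_of_pos (by linarith) _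
  have h1 : vmU ψ X (w :: l) Y = ∑ p ∈ PW X w.1 w.2,
      ∑ z ∈ (V Y).filter (fun z => p ∣ nm z), ψ z * (TW X l (nm z / p) : ℂ) := by
    unfold vmU
    have h2 : ∀ z ∈ V Y, ψ z * (TW X (w :: l) (nm z) : ℂ) =
        ∑ p ∈ PW X w.1 w.2, if p ∣ nm z then ψ z * (TW X l (nm z / p) : ℂ) else 0 := by
      intro z _
      show ψ z * ((∑ p ∈ (PW X w.1 w.2).filter (fun p => p ∣ nm z), TW X l (nm z / p) : ℝ) : ℂ) = _
      rw [← Finset.sum_filter, Complex.ofReal_sum, Finset.mul_sum]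
    rw [Finset.sum_congr rfl h2, Finset.sum_comm]
    refine Finset.sum_congr rfl fun p _ => ?_
    rw [Finset.sum_filter]
  rw [h1, ← Finset.sum_sub_distrib]
  refine (norm_sum_le _ _).trans ?_
  calc ∑ p ∈ PW X w.1 w.2, ‖∑ z ∈ (V Y).filter (fun z => p ∣ nm z), ψ z * (TW X l (nm z / p) : ℂ) -
        vmG ψ p * vmU ψ X l (Y / p)‖ ≤ ∑ p ∈ PW X w.1 w.2, 18 * B * Y * (1 / (p : ℝ) ^ 2) := by
        apply Finset.sum_le_sum
        intro p hp
        have hpp := ((mem_PW hX0).1 hp).1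
        refine vm_prime ψ hψ (fun n => (TW X l n : ℂ)) B hB p hpp Y hY (fun n hn hnY => ?_)
        obtain ⟨h3, h4⟩ := hTB X hX n hn (hnY.trans hYX)
        rw [Complex.norm_real, Real.norm_eq_abs, abs_of_nonneg h3]
        exact h4
    _ = 18 * B * Y * ∑ p ∈ PW X w.1 w.2, 1 / (p : ℝ) ^ 2 := by rw [Finset.mul_sum]
    _ ≤ 18 * B * Y * (2 / X ^ w.1) := by
        apply mul_le_mul_of_nonneg_left _ (by positivity)
        exact vm_tail _ _ hXw fun p hp => ((mem_PW hX0).1 hp).2.1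
    _ = 36 * B * Y * X ^ (-w.1) := by
        rw [Real.rpow_neg hX0]
        ring

theorem vm_lim (ψ : G → ℂ) (hψ : CM ψ) (ρ : ℂ) (hρ : Tendsto (fun Y : ℝ => (∑ z ∈ V Y, ψ z) / Y) atTop (nhds ρ))
    (hr : ρ = 0 ∨ ∃ P : ℕ, ∀ w : G, Spl w → P ≤ nm w → ψ w = 1) (l : List (ℝ × ℝ)) (hl : Win l) (a : ℝ) (ha : 0 < a) :
    Tendsto (fun X : ℝ => vmU ψ X l (a * X) / X) atTop (nhds (ρ * a * NW l)) := by
  refine abs_mean (fun Y => ∑ z ∈ V Y, ψ z) ρ 9 ?_ ?_ hρ (vmG ψ) _ mert_four ?_ ?_ (vmU ψ) ?_ (vm_rec ψ hψ) l hl a ha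
  · intro Y hY
    apply Finset.sum_eq_zero
    intro z hz
    exfalso
    obtain ⟨h1, h2, -⟩ := mem_V.1 hz
    have h3 : (1 : ℝ) ≤ nm z := by exact_mod_cast nm_pos_of_odd h2
    linarith
  · intro Y hY
    refine (norm_sum_le _ _).trans ?_
    calc ∑ z ∈ V Y, ‖ψ z‖ ≤ ∑ z ∈ V Y, (1 : ℝ) := Finset.sum_le_sum fun z hz => hψ.bd z (mem_V.1 hz).2.1
      _ = (V Y).card := by simp
      _ ≤ 9 * Y := card_V_le Y hY
  · intro p
    by_cases h : p.Prime ∧ p % 4 = 1
    · obtain ⟨w, hw, -, hG⟩ := vmG_one h.1 h.2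
      rw [hG, if_pos h.2]
      refine (norm_add_le _ _).trans ?_
      have h1 := hψ.bd w hw.odd
      have h2 := hψ.bd (star w) hw.conj.odd
      linarith
    · rw [vmG_zero ψ p h, norm_zero]
      split_ifs <;> norm_num
  · rcases hr with h | ⟨P, hP⟩
    · exact Or.inl h
    · right
      refine ⟨P, fun p hp hpp => ?_⟩
      by_cases h : p % 4 = 1
      · obtain ⟨w, hw, hn, hG⟩ := vmG_one hpp h
        rw [hG, if_pos h, hP w hw (by rw [hn]; exact hp), hP (star w) hw.conj (by rw [nm_star, hn]; exact hp)]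
        norm_num
      · rw [vmG_zero ψ p (fun h' => h h'.2), if_neg h]
        simp
  · intro X Y
    unfold vmU
    simp [TW]

/-- `‖gx φ X n‖ = 1` -/
theorem vm_gx (φ : ℝ → ℂ) (h : ∀ t, ‖φ t‖ = 1) (X : ℝ) (n : ℕ) : ‖gx φ X n‖ = 1 := by
  unfold gx
  induction n.primeFactorsList with
  | nil => simp
  | cons p l ih => rw [List.map_cons, List.prod_cons, norm_mul, ih, h, one_mul]

/-- a uniform bound over the lists of length `j` -/
theorem vm_unif {r : ℕ} (u v : Fin r → ℝ) (δ : ℝ) (hδ : 0 < δ) (hδu : ∀ i, δ ≤ u i) (j : ℕ) :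
    ∃ B : ℝ, 0 ≤ B ∧ ∀ l : List (ℝ × ℝ), l.length = j → (∀ w ∈ l, ∃ i, w = (u i, v i)) →
      ∀ X : ℝ, 2 ≤ X → ∀ n : ℕ, n ≠ 0 → (n : ℝ) ≤ X ^ 2 → 0 ≤ TW X l n ∧ TW X l n ≤ B := by
  have h1 : ∀ l : List (ℝ × ℝ), l.length = j ∧ (∀ w ∈ l, ∃ i, w = (u i, v i)) →
      ∃ B : ℝ, 0 ≤ B ∧ ∀ X : ℝ, 2 ≤ X → ∀ n : ℕ, n ≠ 0 → (n : ℝ) ≤ X ^ 2 → 0 ≤ TW X l n ∧ TW X l n ≤ B := by
    rintro l ⟨-, hl⟩
    refine tw_bd δ hδ l ?_
    intro w hw
    obtain ⟨i, rfl⟩ := hl w hw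
    exact hδu i
  have hfin : {l : List (ℝ × ℝ) | l.length = j ∧ ∀ w ∈ l, ∃ i, w = (u i, v i)}.Finite := by
    refine ((List.finite_length_eq (Fin r) j).image (List.map (fun i => (u i, v i)))).subset ?_
    rintro l ⟨h2, h3⟩
    have h4 : l ∈ Set.range (List.map (fun i => (u i, v i))) := by
      rw [Set.range_list_map]
      intro x hx
      obtain ⟨i, hi⟩ := h3 x hx
      exact ⟨i, hi.symm⟩
    obtain ⟨l', rfl⟩ := h4
    refine ⟨l', ?_, rfl⟩
    rw [List.length_map] at h2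
    exact h2
  choose! B hB using h1
  refine ⟨∑ l ∈ hfin.toFinset, B l, ?_, ?_⟩
  · apply Finset.sum_nonneg
    intro l hl
    rw [Set.Finite.mem_toFinset] at hl
    exact (hB l hl).1
  · intro l h2 h3 X hX n hn hnX
    have h4 := (hB l ⟨h2, h3⟩).2 X hX n hn hnX
    refine ⟨h4.1, h4.2.trans ?_⟩
    apply Finset.single_le_sum (f := B)
    · intro l' hl'
      rw [Set.Finite.mem_toFinset] at hl'
      exact (hB l' hl').1
    · rw [Set.Finite.mem_toFinset]
      exact ⟨h2, h3⟩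

/-- the difference in `gx_id` is bounded -/
theorem vm_diff {r : ℕ} (c : Fin r → ℂ) (u v : Fin r → ℝ) (φ : ℝ → ℂ) (h1 : ∀ t, ‖φ t‖ = 1) (δ : ℝ) (hδ : 0 < δ)
    (hδu : ∀ i, δ ≤ u i) (J : ℕ) : ∃ K : ℝ, 0 ≤ K ∧ ∀ X : ℝ, 2 ≤ X → ∀ n : ℕ, n ≠ 0 → (n : ℝ) ≤ X ^ 2 →
      ‖gx φ X n - ∑ j ∈ range (J + 1), (1 / (j.factorial : ℂ)) * expd c u v j (fun l => (TW X l n : ℂ))‖ ≤ K := by
  choose B hB0 hB using vm_unif u v δ hδ hδu
  refine ⟨1 + ∑ j ∈ range (J + 1), (∑ i, ‖c i‖) ^ j * B j, ?_, ?_⟩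
  · have : 0 ≤ ∑ j ∈ range (J + 1), (∑ i, ‖c i‖) ^ j * B j := by
      apply Finset.sum_nonneg
      intro j _
      have := hB0 j
      positivity
    linarith
  · intro X hX n hn hnX
    refine (norm_sub_le _ _).trans ?_
    rw [vm_gx φ h1]
    apply add_le_add le_rfl
    refine (norm_sum_le _ _).trans (Finset.sum_le_sum fun j _ => ?_)
    rw [norm_mul]
    have h2 : ‖(1 / (j.factorial : ℂ))‖ ≤ 1 := by
      rw [norm_div, norm_one, Complex.norm_natCast]
      apply div_le_one_of_le₀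
      · exact_mod_cast Nat.factorial_pos j
      · positivity
    have h3 : ‖expd c u v j (fun l => (TW X l n : ℂ))‖ ≤ (∑ i, ‖c i‖) ^ j * B j := by
      apply expd_bd
      intro l hl1 hl2
      have h4 := hB j l hl1 hl2 X hX n hn hnX
      rw [Complex.norm_real, Real.norm_eq_abs, abs_of_nonneg h4.1]
      exact h4.2
    calc _ ≤ 1 * ((∑ i, ‖c i‖) ^ j * B j) := mul_le_mul h2 h3 (norm_nonneg _) zero_le_one
      _ = _ := one_mul _

/-- PROOF. `U X l Y = ∑_(z ∈ V Y) ψ z * TW X l (nm z)`, `u0 Y = ∑_(z ∈ V Y) ψ z` (`‖u0 Y‖ ≤ 9 Y` by `card_V_le`, `= 0` for `Y < 1`), `g p = 2` if `p % 4 = 1`, else `0` (`mert_four`), `G p = ∑_(w ∈ PP (p - 1/2) p) (ψ w + ψ (star w))` (one term if `p` is a prime `1 mod 4`, none otherwise: `one Gaussian prime of PP above each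
prime p = 1 mod 4`), so `‖G p‖ ≤ g p`, and `G p = g p` for large `p` if `ψ = 1` at the primes of large norm. Recursion: `U X (w :: l) Y = ∑_(p ∈ PW) ∑_(z ∈ V Y, p ∣ nm z) ψ z TW X l (nm z / p)`; `nm z` is odd and `z` primitive so `p = 1 mod 4`, `p = nm π`, `π ∈ PP`, and exactly one of `π`, `star π` divides `z`
(both would give `p ∣ z`). `z = π z'`: `z'` odd primitive, `nm z' ≤ Y / p`, `ψ z = ψ π ψ z'`, and conversely `π z'` is primitive iff `star π ∤ z'` (see `arcdec_prim` in ecm/ArcDec.lean or `exists_of_not_prim`). The same for `star π`. So `∑_(p ∣ nm z) = (ψ π + ψ (star π)) U X l (Y / p) - (error)` with the error bounded by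
`2 ∑_(z' ∈ V (Y/p), star π ∣ z' or π ∣ z') |TW X l (nm z')| ≤ 2 · 2 · 9 (Y / p²) B` (`tw_bd` with `δ` = the least left end of `w :: l`, `nm z' ≤ Y ≤ X²`), and `∑_(p > X^δ) Y / p² ≤ 2 Y X^(-δ)`. So `abs_mean` gives `U X l (a X) / X → ρ a NW l`.
Then as in `int_mean`: `gx_id` for the `z ∈ V (a X)` with `nm z` not divisible by `p²`, `p > X^δ` (`a X ≤ X²` for large `X`); the other `z` are few: `nm z = 0 mod p²`, `z` primitive, implies `π² ∣ z` or `(star π)² ∣ z`, at most `2 · 9 a X / p²` elements. `expd_lim`, `mu_eq`. -/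
theorem vmean (ψ : G → ℂ) (hψ : CM ψ) (ρ : ℂ) (hρ : Tendsto (fun Y : ℝ => (∑ z ∈ V Y, ψ z) / Y) atTop (nhds ρ))
    (hr : ρ = 0 ∨ ∃ P : ℕ, ∀ w : G, Spl w → P ≤ nm w → ψ w = 1) (φ : ℝ → ℂ) (hφ : StepF φ) (a : ℝ) (ha : 0 < a) :
    Tendsto (fun X : ℝ => (∑ z ∈ V (a * X), ψ z * gx φ X (nm z)) / X) atTop (nhds (ρ * a * mu φ)) := by
  classical
  obtain ⟨r, c, u, v, hw, hφe⟩ := hφ.ex
  obtain ⟨δ, hδ, hδu⟩ : ∃ δ : ℝ, 0 < δ ∧ ∀ i, δ ≤ u i := by
    rcases Nat.eq_zero_or_pos r with h0 | h0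
    · subst h0
      exact ⟨1, one_pos, fun i => i.elim0⟩
    · have : Nonempty (Fin r) := ⟨⟨0, h0⟩⟩
      obtain ⟨i0, hi0⟩ := Finite.exists_min u
      exact ⟨u i0, (hw i0).1, hi0⟩
  obtain ⟨J, hJ⟩ : ∃ J : ℕ, 2 < ((J : ℝ) + 1) * δ := by
    obtain ⟨J, hJ⟩ := exists_nat_gt (2 / δ)
    refine ⟨J, ?_⟩
    rw [div_lt_iff₀ hδ] at hJ
    nlinarith
  rw [mu_eq c u v hw φ hφ.un hφe δ hδ hδu J hJ]
  obtain ⟨K, hK0, hK⟩ := vm_diff c u v φ hφ.un δ hδ hδu J
  have hM : Tendsto (fun X : ℝ => (∑ j ∈ range (J + 1), (1 / (j.factorial : ℂ)) *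
      expd c u v j (fun l => vmU ψ X l (a * X))) / X) atTop (nhds (ρ * a * EV c u v J)) := by
    have h1 : ∀ X : ℝ, (∑ j ∈ range (J + 1), (1 / (j.factorial : ℂ)) *
        expd c u v j (fun l => vmU ψ X l (a * X))) / X =
        ∑ j ∈ range (J + 1), (1 / (j.factorial : ℂ)) * expd c u v j (fun l => vmU ψ X l (a * X) / X) := by
      intro X
      have h2 : ∀ j, expd c u v j (fun l => vmU ψ X l (a * X) / X) =
          (1 / (X : ℂ)) * expd c u v j (fun l => vmU ψ X l (a * X)) := by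
        intro j
        rw [← expd_smul]
        congr 1
        ext l
        ring
      simp only [h2]
      rw [Finset.sum_div]
      refine Finset.sum_congr rfl fun j _ => ?_
      ring
    simp only [h1]
    have h3 : ρ * a * EV c u v J =
        ∑ j ∈ range (J + 1), (1 / (j.factorial : ℂ)) * expd c u v j (fun l => ρ * a * (NW l : ℂ)) := by
      unfold EV
      rw [Finset.mul_sum]
      refine Finset.sum_congr rfl fun j _ => ?_
      rw [expd_smul]
      ring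
    rw [h3]
    exact tendsto_finsetSum _ fun j _ =>
      (expd_lim c u v hw j _ _ (fun l hl => vm_lim ψ hψ ρ hρ hr l hl a ha)).const_mul _
  have hE : ∀ᶠ X : ℝ in atTop, ‖(∑ z ∈ V (a * X), ψ z * gx φ X (nm z)) / X - (∑ j ∈ range (J + 1),
      (1 / (j.factorial : ℂ)) * expd c u v j (fun l => vmU ψ X l (a * X))) / X‖ ≤ 36 * a * K * X ^ (-δ) := by
    filter_upwards [eventually_ge_atTop (2 : ℝ), eventually_ge_atTop a] with X hX hXa
    have hX0 : (0 : ℝ) < X := by linarith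
    have haX : a * X ≤ X ^ 2 := by nlinarith
    have haX0 : 0 ≤ a * X := by positivity
    rw [← sub_div, norm_div, Complex.norm_real, Real.norm_eq_abs, abs_of_pos hX0, div_le_iff₀ hX0]
    have h1 : (∑ j ∈ range (J + 1), (1 / (j.factorial : ℂ)) * expd c u v j (fun l => vmU ψ X l (a * X))) =
        ∑ z ∈ V (a * X), ψ z * ∑ j ∈ range (J + 1), (1 / (j.factorial : ℂ)) *
          expd c u v j (fun l => (TW X l (nm z) : ℂ)) := by
      have h2 : ∀ j, expd c u v j (fun l => vmU ψ X l (a * X)) =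
          ∑ z ∈ V (a * X), ψ z * expd c u v j (fun l => (TW X l (nm z) : ℂ)) := by
        intro j
        exact expd_sum c u v j (V (a * X)) ψ (fun z l => (TW X l (nm z) : ℂ))
      simp only [h2, Finset.mul_sum]
      rw [Finset.sum_comm]
      refine Finset.sum_congr rfl fun z _ => Finset.sum_congr rfl fun j _ => ?_
      ring
    rw [h1, ← Finset.sum_sub_distrib]
    set Bd : Finset G := (V (a * X)).filter (fun z => ∃ p : ℕ, p.Prime ∧ X ^ δ < (p : ℝ) ∧ p ^ 2 ∣ nm z) with hBd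
    have h3 : ∑ z ∈ V (a * X), (ψ z * gx φ X (nm z) - ψ z * ∑ j ∈ range (J + 1), (1 / (j.factorial : ℂ)) *
        expd c u v j (fun l => (TW X l (nm z) : ℂ))) = ∑ z ∈ Bd, (ψ z * gx φ X (nm z) - ψ z * ∑ j ∈ range (J + 1),
          (1 / (j.factorial : ℂ)) * expd c u v j (fun l => (TW X l (nm z) : ℂ))) := by
      symm
      apply Finset.sum_subset (Finset.filter_subset _ _)
      intro z hz hzB
      obtain ⟨h4, h5, h6⟩ := mem_V.1 hz
      have h7 : ∀ p : ℕ, p.Prime → X ^ δ < (p : ℝ) → ¬ p ^ 2 ∣ nm z := by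
        intro p hp hpX hd
        exact hzB (Finset.mem_filter.2 ⟨hz, p, hp, hpX, hd⟩)
      rw [gx_id c u v φ hφe δ hδ hδu J hJ X hX (nm z) (nm_pos_of_odd h5).ne' (h4.trans haX) h7, sub_self]
    rw [h3]
    have h4 : (Bd.card : ℝ) ≤ 36 * (a * X) / X ^ δ := by
      apply vm_few (X ^ δ) (a * X) (Real.rpow_pos_of_pos hX0 δ) haX0 Bd
      intro z hz
      rw [hBd, Finset.mem_filter] at hz
      exact hz
    calc ‖∑ z ∈ Bd, (ψ z * gx φ X (nm z) - ψ z * ∑ j ∈ range (J + 1),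
          (1 / (j.factorial : ℂ)) * expd c u v j (fun l => (TW X l (nm z) : ℂ)))‖
        ≤ ∑ z ∈ Bd, ‖ψ z * gx φ X (nm z) - ψ z * ∑ j ∈ range (J + 1),
          (1 / (j.factorial : ℂ)) * expd c u v j (fun l => (TW X l (nm z) : ℂ))‖ := norm_sum_le _ _
      _ ≤ ∑ z ∈ Bd, K := by
          apply Finset.sum_le_sum
          intro z hz
          rw [hBd, Finset.mem_filter] at hz
          obtain ⟨h5, h6, h7⟩ := mem_V.1 hz.1
          rw [← mul_sub, norm_mul]
          calc _ ≤ 1 * K := mul_le_mul (hψ.bd z h6) (hK X hX (nm z) (nm_pos_of_odd h6).ne' (h5.trans haX))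
                (norm_nonneg _) zero_le_one
            _ = K := one_mul K
      _ = Bd.card * K := by rw [Finset.sum_const, nsmul_eq_mul]
      _ ≤ 36 * (a * X) / X ^ δ * K := mul_le_mul_of_nonneg_right h4 hK0
      _ = 36 * a * K * X ^ (-δ) * X := by
          rw [Real.rpow_neg hX0.le]
          ring
  have hE2 : Tendsto (fun X : ℝ => 36 * a * K * X ^ (-δ)) atTop (nhds 0) := by
    have := (tendsto_rpow_neg_atTop hδ).const_mul (36 * a * K)
    rwa [mul_zero] at this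
  have hD : Tendsto (fun X : ℝ => (∑ z ∈ V (a * X), ψ z * gx φ X (nm z)) / X - (∑ j ∈ range (J + 1),
      (1 / (j.factorial : ℂ)) * expd c u v j (fun l => vmU ψ X l (a * X))) / X) atTop (nhds 0) := by
    apply squeeze_zero_norm' hE hE2
  have := hD.add hM
  simpa using this

end Pool.Agent.LPr

end

/-! ### from `Lib_MP_f1a94e_ecm.RealBd` -/

section

/-!
# Block M: real characters on primes (assembly, helper41)
-/

set_option autoImplicit false

namespace Pool.Agent.ECM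

open Finset Pool.Agent.GaussMR Pool.Agent.GaussCM Pool.Agent.OmAll

theorem real_bd (D : ℕ) (hD : 0 < D) (χ : G → ℂ) (hχ : Chi D χ) (hnp : ¬ Pri D χ)
    (hreal : ∀ z, χ z = 0 ∨ χ z = 1 ∨ χ z = -1) (h1 : χ ii = 1) : ∃ C : ℝ, ∀ B : ℝ, 3 ≤ B →
    ‖∑ w ∈ PP 2 B, (χ w + χ (fl w)) / (nm w : ℂ)‖ ≤ C := by
  have hne : (∫ s in Set.Ioi (0 : ℝ), HH χ s) ≠ 0 := by
    intro h0
    obtain ⟨C, hC⟩ := i_up D hD χ hχ hnp h0
    have h2 : ∀ v : ℝ, 0 < v → v ≤ 1 → Real.exp (-2) * Real.log (1 / v) ≤ C := by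
      intro v hv hv1
      refine (KB_lower v hv hv1).trans ((i_low D χ hχ hreal h1 v hv).trans ?_)
      exact (Complex.re_le_norm _).trans (hC v hv hv1)
    have h3 := h2 (Real.exp (-(|C| * Real.exp 2 + 1))) (Real.exp_pos _) (by
      rw [Real.exp_le_one_iff]
      have : 0 ≤ |C| * Real.exp 2 := by positivity
      linarith)
    rw [one_div, ← Real.exp_neg, neg_neg, Real.log_exp] at h3
    have h4 : Real.exp (-2) * (|C| * Real.exp 2 + 1) = |C| + Real.exp (-2) := by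
      have : Real.exp (-2) * Real.exp 2 = 1 := by rw [← Real.exp_add]; simp
      linear_combination |C| * this
    rw [h4] at h3
    have h5 := Real.exp_pos (-2)
    have h6 := le_abs_self C
    linarith
  obtain ⟨C1, h2⟩ := mert_log D hD χ hχ hnp _ hne (h_int D hD χ hχ hnp)
  obtain ⟨C2, h3⟩ := abel_cp χ C1 h2
  obtain ⟨C3, h4⟩ := cp_pp
  refine ⟨C2 + C3, fun B hB => ?_⟩
  have h5 := h3 B (by linarith)
  have h6 := h4 χ hχ.le B hB
  have h7 : ∑ w ∈ PP 2 B, (χ w + χ (fl w)) / (nm w : ℂ) = ∑ p ∈ CP B, χ p / (nm p : ℂ) -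
      (∑ p ∈ CP B, χ p / (nm p : ℂ) - ∑ w ∈ PP 2 B, (χ w + χ (fl w)) / (nm w : ℂ)) := by ring
  rw [h7]
  exact (norm_sub_le _ _).trans (by linarith)

end Pool.Agent.ECM

end

/-! ### from `Lib_MP_f1a94e_ecm.CharDef` -/

section

/-!
# Piece M-CHARDEF: characters are not close to -1 on primes
-/

set_option autoImplicit false

namespace Pool.Agent.ECM

open Finset Pool.Agent.GaussMR Pool.Agent.GaussCM Pool.Agent.OmAll

private theorem chd_cg_mul {D : ℕ} {a b : G} (h : cg D a b) (c : G) : cg D (a * c) (b * c) := by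
  obtain ⟨h1, h2⟩ := h
  constructor
  · have e : (a * c).re - (b * c).re = (a.re - b.re) * c.re - (a.im - b.im) * c.im := by
      simp only [Zsqrtd.re_mul]
      ring
    rw [e]
    exact dvd_sub (h1.mul_right _) (h2.mul_right _)
  · have e : (a * c).im - (b * c).im = (a.re - b.re) * c.im + (a.im - b.im) * c.re := by
      simp only [Zsqrtd.im_mul]
      ring
    rw [e]
    exact dvd_add (h1.mul_right _) (h2.mul_right _)

private theorem chd_cg_symm {D : ℕ} {a b : G} (h : cg D a b) : cg D b a := by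
  obtain ⟨h1, h2⟩ := h
  constructor
  · rw [← neg_sub]; exact (dvd_neg).2 h1
  · rw [← neg_sub]; exact (dvd_neg).2 h2

private theorem chd_cg_trans {D : ℕ} {a b c : G} (h : cg D a b) (h' : cg D b c) : cg D a c := by
  obtain ⟨h1, h2⟩ := h
  obtain ⟨h3, h4⟩ := h'
  constructor
  · have := dvd_add h1 h3
    rwa [sub_add_sub_cancel] at this
  · have := dvd_add h2 h4
    rwa [sub_add_sub_cancel] at this

private theorem chd_cg_refl (D : ℕ) (a : G) : cg D a a := by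
  constructor <;> simp

private theorem chd_inv_mul (D : ℕ) (z w : G) : Inv D (z * w) ↔ Inv D z ∧ Inv D w := by
  constructor
  · rintro ⟨v, hv⟩
    exact ⟨⟨w * v, by rw [← mul_assoc]; exact hv⟩, ⟨z * v, by rw [← mul_assoc, mul_comm w z]; exact hv⟩⟩
  · rintro ⟨⟨v, hv⟩, ⟨u, hu⟩⟩
    refine ⟨v * u, ?_⟩
    have e : z * w * (v * u) = z * v * (w * u) := by ring
    rw [e]
    have h1 := chd_cg_mul hv (w * u)
    rw [one_mul] at h1
    exact chd_cg_trans h1 hu

private theorem chd_inv_cg (D : ℕ) {z w : G} (h : cg D z w) : Inv D z ↔ Inv D w := by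
  constructor
  · rintro ⟨v, hv⟩
    exact ⟨v, chd_cg_trans (chd_cg_symm (chd_cg_mul h v)) hv⟩
  · rintro ⟨v, hv⟩
    exact ⟨v, chd_cg_trans (chd_cg_mul h v) hv⟩

private theorem chd_sq (z : ℂ) (h : ‖z‖ ≤ 1) : 1 - (z ^ 2).re ≤ 4 * (1 + z.re) := by
  have h1 : Complex.normSq z ≤ 1 := by
    rw [Complex.normSq_eq_norm_sq]
    have := norm_nonneg z
    nlinarith
  rw [Complex.normSq_apply] at h1
  have e : (z ^ 2).re = z.re * z.re - z.im * z.im := by
    rw [pow_two, Complex.mul_re]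
  rw [e]
  have h2 : z.re ≤ 1 := (Complex.re_le_norm z).trans h
  have h3 : -1 ≤ z.re := by
    have := Complex.abs_re_le_norm z
    have := neg_abs_le z.re
    linarith
  nlinarith

/-- comparison of two sums over primes which agree on the large primes -/
private theorem chd_comp (D : ℕ) (B : ℝ) (f g : G → ℝ) (hf : ∀ w ∈ PP 2 B, 0 ≤ f w)
    (hg : ∀ w ∈ PP 2 B, g w ≤ 4) (hfg : ∀ w ∈ PP 2 B, (D : ℝ) ^ 2 < (nm w : ℝ) → g w ≤ f w) :
    ∑ w ∈ PP 2 B, g w / (nm w : ℝ) - 4 * ((ball ((D : ℝ) ^ 2)).card : ℝ) ≤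
      ∑ w ∈ PP 2 B, f w / (nm w : ℝ) := by
  classical
  have h1 : ∑ w ∈ PP 2 B, g w / (nm w : ℝ) ≤ ∑ w ∈ PP 2 B, (f w / (nm w : ℝ) +
      if (nm w : ℝ) ≤ (D : ℝ) ^ 2 then 4 else 0) := by
    refine sum_le_sum fun w hw => ?_
    have hn : (1 : ℝ) ≤ (nm w : ℝ) := by
      have := (mem_PP.1 hw).1
      linarith
    have hn0 : (0 : ℝ) < (nm w : ℝ) := by linarith
    split_ifs with hc
    · have a1 : g w / (nm w : ℝ) ≤ 4 := by
        rw [div_le_iff₀ hn0]
        have := hg w hw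
        linarith
      have a2 : 0 ≤ f w / (nm w : ℝ) := div_nonneg (hf w hw) hn0.le
      linarith
    · push Not at hc
      rw [add_zero]
      exact div_le_div_of_nonneg_right (hfg w hw hc) hn0.le
  have h2 : ∑ w ∈ PP 2 B, (if (nm w : ℝ) ≤ (D : ℝ) ^ 2 then (4 : ℝ) else 0) ≤
      4 * ((ball ((D : ℝ) ^ 2)).card : ℝ) := by
    rw [← sum_filter, sum_const, nsmul_eq_mul, mul_comm]
    have h3 : ((PP 2 B).filter (fun w => (nm w : ℝ) ≤ (D : ℝ) ^ 2)).card ≤
        (ball ((D : ℝ) ^ 2)).card := by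
      refine card_le_card fun w hw => ?_
      rw [mem_filter] at hw
      exact mem_ball.2 hw.2
    have h4 : (((PP 2 B).filter (fun w => (nm w : ℝ) ≤ (D : ℝ) ^ 2)).card : ℝ) ≤
        ((ball ((D : ℝ) ^ 2)).card : ℝ) := by exact_mod_cast h3
    linarith
  rw [sum_add_distrib] at h1
  linarith

private theorem chd_Ls : ∃ C : ℝ, ∀ B : ℝ, 3 ≤ B → Real.log (Real.log B) / 2 - C ≤ Ls 2 B := by
  obtain ⟨C, hC⟩ := Ls_bounds
  refine ⟨C + Real.log (Real.log 2) / 2, fun B hB => ?_⟩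
  have h1 := hC 2 B le_rfl (by linarith)
  have h2 := (abs_le.1 h1).1
  linarith

private theorem chd_le (χ : G → ℂ) (hle : ∀ z, ‖χ z‖ ≤ 1) (w : G) : 0 ≤ 1 + (χ w).re ∧ (χ w).re ≤ 1 := by
  have h1 := Complex.abs_re_le_norm (χ w)
  have h2 := neg_abs_le (χ w).re
  have h3 := le_abs_self (χ w).re
  have h4 := hle w
  constructor <;> linarith

/-- Three cases. (1) `χ ^ 2 := fun z => χ z ^ 2` is not principal (it is a `Chi D`, `(χ ii)^2 = 1`): `def_iter` and `1 - Re (z²) ≤ 4 (1 + Re z)` for `‖z‖ ≤ 1` (`1 - x² + y² ≤ 2 (1 - x²) ≤ 4 (1 + x)`). (2) `χ` principal: `χ w = χ (fl w) = 1` for `nm w > D²` (`chi_norm`: `Inv D w`),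
the sum is at least `4 Ls (D² + 2) B ≥ 2 log log B - C` (`Ls_bounds`). (3) `χ²` principal, `χ` not: `χ' z = χ z` if `Inv D z` and `0` otherwise is a `Chi D` (`Inv D (z w) ↔ Inv D z ∧ Inv D w`), not principal, with values in `{0, 1, -1}`, and `χ' w = χ w` for `nm w > D²`; by `real_bd` the sum of
`(Re χ' w + Re χ' (fl w)) / nm w` is bounded, so the sum is `≥ 2 Ls 2 B - C ≥ log log B - C`. -/
theorem char_def (D : ℕ) (hD : 0 < D) (χ : G → ℂ) (hχ : Chi D χ) (h1 : χ ii = 1) : ∃ c C : ℝ, 0 < c ∧ ∀ B : ℝ, 3 ≤ B →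
    c * Real.log (Real.log B) - C ≤ ∑ w ∈ PP 2 B, ((1 + (χ w).re) + (1 + (χ (fl w)).re)) / (nm w : ℝ) := by
  classical
  by_cases hsq : Pri D (fun z => χ z ^ 2)
  · obtain ⟨CL, hCL⟩ := chd_Ls
    have hprime : ∀ B : ℝ, ∀ w ∈ PP 2 B, Prime w ∧ Prime (fl w) := by
      intro B w hw
      have hs := PP_spl hw
      refine ⟨hs.prime, ?_⟩
      have hs' : Spl (fl w) := by
        unfold Spl
        rw [nm_fl]
        exact hs
      exact hs'.prime
    by_cases hp : Pri D χ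
    · refine ⟨2, 4 * CL + 4 * ((ball ((D : ℝ) ^ 2)).card : ℝ), by norm_num, fun B hB => ?_⟩
      have h2 := chd_comp D B (fun w => (1 + (χ w).re) + (1 + (χ (fl w)).re)) (fun _ => 4)
        (fun w _ => add_nonneg (chd_le χ hχ.le w).1 (chd_le χ hχ.le (fl w)).1)
        (fun _ _ => le_rfl) (by
          intro w hw hn
          obtain ⟨hp1, hp2⟩ := hprime B w hw
          have i1 := (chi_norm D hD χ hχ w hp1 hn).1
          have i2 := (chi_norm D hD χ hχ (fl w) hp2 (by rw [nm_fl]; exact hn)).1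
          rw [hp w i1, hp (fl w) i2]
          norm_num)
      have h3 : ∑ w ∈ PP 2 B, (4 : ℝ) / (nm w : ℝ) = 4 * Ls 2 B := by
        unfold Ls
        rw [mul_sum]
        exact sum_congr rfl fun w _ => by ring
      rw [h3] at h2
      have h4 := hCL B hB
      linarith
    · let χ' : G → ℂ := fun z => if Inv D z then χ z else 0
      have hval : ∀ z, Inv D z → χ' z = χ z := fun z hz => if_pos hz
      have hχ' : Chi D χ' := by
        refine ⟨?_, ?_, ?_, ?_, ?_⟩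
        · rw [hval 1 ⟨1, by rw [one_mul]; exact chd_cg_refl D 1⟩]
          exact hχ.one
        · intro z w
          by_cases hz : Inv D z
          · by_cases hw : Inv D w
            · rw [hval _ ((chd_inv_mul D z w).2 ⟨hz, hw⟩), hval _ hz, hval _ hw, hχ.mul]
            · have e1 : χ' (z * w) = 0 := if_neg fun h => hw ((chd_inv_mul D z w).1 h).2
              have e2 : χ' w = 0 := if_neg hw
              rw [e1, e2, mul_zero]
          · have e1 : χ' (z * w) = 0 := if_neg fun h => hz ((chd_inv_mul D z w).1 h).1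
            have e2 : χ' z = 0 := if_neg hz
            rw [e1, e2, zero_mul]
        · intro z w hzw
          by_cases hz : Inv D z
          · rw [hval _ hz, hval _ ((chd_inv_cg D hzw).1 hz), hχ.per _ _ hzw]
          · have e1 : χ' z = 0 := if_neg hz
            have e2 : χ' w = 0 := if_neg fun h => hz ((chd_inv_cg D hzw).2 h)
            rw [e1, e2]
        · intro z hz
          by_cases hi : Inv D z
          · rw [hval _ hi, hχ.even z hz]
          · exact if_neg hi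
        · intro z
          by_cases hi : Inv D z
          · rw [hval _ hi]; exact hχ.le z
          · have e1 : χ' z = 0 := if_neg hi
            rw [e1, norm_zero]
            norm_num
      have hnp : ¬ Pri D χ' := fun h => hp fun z hz => by rw [← hval z hz]; exact h z hz
      have hreal : ∀ z, χ' z = 0 ∨ χ' z = 1 ∨ χ' z = -1 := by
        intro z
        by_cases hi : Inv D z
        · right
          rw [hval _ hi]
          have h5 : χ z ^ 2 = 1 := hsq z hi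
          have h6 : (χ z - 1) * (χ z + 1) = 0 := by linear_combination h5
          rcases mul_eq_zero.1 h6 with h7 | h7
          · exact Or.inl (sub_eq_zero.1 h7)
          · exact Or.inr (eq_neg_of_add_eq_zero_left h7)
        · exact Or.inl (if_neg hi)
      have hii : Inv D ii := ⟨⟨0, -1⟩, by
        have e : ii * (⟨0, -1⟩ : G) = 1 := by apply Zsqrtd.ext <;> simp [ii]
        rw [e]
        exact chd_cg_refl D 1⟩
      obtain ⟨CR, hCR⟩ := real_bd D hD χ' hχ' hnp hreal (by rw [hval _ hii]; exact h1)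
      refine ⟨1, 2 * CL + CR + 4 * ((ball ((D : ℝ) ^ 2)).card : ℝ), by norm_num, fun B hB => ?_⟩
      have h2 := chd_comp D B (fun w => (1 + (χ w).re) + (1 + (χ (fl w)).re))
        (fun w => (1 + (χ' w).re) + (1 + (χ' (fl w)).re))
        (fun w _ => add_nonneg (chd_le χ hχ.le w).1 (chd_le χ hχ.le (fl w)).1)
        (fun w _ => by
          have a1 := (chd_le χ' hχ'.le w).2
          have a2 := (chd_le χ' hχ'.le (fl w)).2
          linarith) (by
          intro w hw hn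
          obtain ⟨hp1, hp2⟩ := hprime B w hw
          have i1 := (chi_norm D hD χ hχ w hp1 hn).1
          have i2 := (chi_norm D hD χ hχ (fl w) hp2 (by rw [nm_fl]; exact hn)).1
          rw [hval _ i1, hval _ i2])
      have h3 : ∑ w ∈ PP 2 B, ((1 + (χ' w).re) + (1 + (χ' (fl w)).re)) / (nm w : ℝ) =
          2 * Ls 2 B + (∑ w ∈ PP 2 B, (χ' w + χ' (fl w)) / (nm w : ℂ)).re := by
        unfold Ls
        rw [mul_sum, Complex.re_sum, ← sum_add_distrib]
        refine sum_congr rfl fun w _ => ?_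
        have e1 : ((χ' w + χ' (fl w)) / (nm w : ℂ)).re = ((χ' w).re + (χ' (fl w)).re) / (nm w : ℝ) := by
          rw [← Complex.ofReal_natCast, Complex.div_ofReal_re, Complex.add_re]
        rw [e1]
        ring
      have h4 := hCR B hB
      have h5 := Complex.abs_re_le_norm (∑ w ∈ PP 2 B, (χ' w + χ' (fl w)) / (nm w : ℂ))
      have h6 := neg_abs_le (∑ w ∈ PP 2 B, (χ' w + χ' (fl w)) / (nm w : ℂ)).re
      have h7 := hCL B hB
      rw [h3] at h2
      linarith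
  · obtain ⟨c, hc, H⟩ := def_iter
    obtain ⟨C, hC⟩ := H D hD
    have hψ : Chi D (fun z => χ z ^ 2) := by
      refine ⟨?_, ?_, ?_, ?_, ?_⟩
      · rw [hχ.one]; norm_num
      · intro z w; rw [hχ.mul]; ring
      · intro z w h; rw [hχ.per z w h]
      · intro z h; rw [hχ.even z h]; norm_num
      · intro z
        rw [norm_pow]
        exact pow_le_one₀ (norm_nonneg _) (hχ.le z)
    have h2 := hC _ hψ hsq (by rw [h1]; norm_num)
    refine ⟨c / 4, C / 4, by positivity, fun B hB => ?_⟩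
    have h3 := h2 B hB
    have h4 : ∑ w ∈ PP 2 B, ((1 - (χ w ^ 2).re) + (1 - (χ (fl w) ^ 2).re)) / (nm w : ℝ) ≤
        4 * ∑ w ∈ PP 2 B, ((1 + (χ w).re) + (1 + (χ (fl w)).re)) / (nm w : ℝ) := by
      rw [mul_sum]
      refine sum_le_sum fun w _ => ?_
      rw [← mul_div_assoc]
      refine div_le_div_of_nonneg_right ?_ (Nat.cast_nonneg _)
      have a1 := chd_sq (χ w) (hχ.le w)
      have a2 := chd_sq (χ (fl w)) (hχ.le (fl w))
      linarith
    linarith

end Pool.Agent.ECM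

end

/-! ### from `Lib_MP_f1a94e_ecm.NonPret` -/

section

/-!
# Piece M-NONPRET: the prime sums of FL χ at bounded height
-/

set_option autoImplicit false

namespace Pool.Agent.ECM

open Finset Pool.Agent.GaussMR Pool.Agent.GaussCM Pool.Agent.OmAll

/-- the twist at a prime -/
noncomputable def nprE (t : ℝ) (w : G) : ℂ :=
  Complex.exp (-((t * Real.log (nm w) : ℝ) : ℂ) * Complex.I)

/-- the defect sum -/
noncomputable def nprS (χ : G → ℂ) (B t : ℝ) : ℝ :=
  ∑ w ∈ PP 2 B, ((1 + (χ w * nprE t w).re) + (1 + (χ (fl w) * nprE t w).re)) / (nm w : ℝ)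

private theorem npr_norm (t : ℝ) (w : G) : ‖nprE t w‖ = 1 := by
  have e : -((t * Real.log (nm w) : ℝ) : ℂ) * Complex.I =
      ((-(t * Real.log (nm w)) : ℝ) : ℂ) * Complex.I := by push_cast; ring
  unfold nprE
  rw [e, Complex.norm_exp_ofReal_mul_I]

private theorem npr_pos (χ : G → ℂ) (hle : ∀ z, ‖χ z‖ ≤ 1) (t : ℝ) (v w : G) :
    0 ≤ 1 + (χ v * nprE t w).re ∧ (χ v * nprE t w).re ≤ 1 := by
  have h1 : ‖χ v * nprE t w‖ ≤ 1 := by
    rw [norm_mul, npr_norm, mul_one]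
    exact hle v
  have h2 := (abs_le.1 ((Complex.abs_re_le_norm (χ v * nprE t w)).trans h1))
  constructor <;> linarith [h2.1, h2.2]

private theorem npr_comp (D : ℕ) (B : ℝ) (f g : G → ℝ) (hf : ∀ w ∈ PP 2 B, 0 ≤ f w)
    (hg : ∀ w ∈ PP 2 B, g w ≤ 4) (hfg : ∀ w ∈ PP 2 B, (D : ℝ) ^ 2 < (nm w : ℝ) → g w ≤ f w) :
    ∑ w ∈ PP 2 B, g w / (nm w : ℝ) - 4 * ((ball ((D : ℝ) ^ 2)).card : ℝ) ≤
      ∑ w ∈ PP 2 B, f w / (nm w : ℝ) := by
  classical
  have h1 : ∑ w ∈ PP 2 B, g w / (nm w : ℝ) ≤ ∑ w ∈ PP 2 B, (f w / (nm w : ℝ) +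
      if (nm w : ℝ) ≤ (D : ℝ) ^ 2 then 4 else 0) := by
    refine sum_le_sum fun w hw => ?_
    have hn : (1 : ℝ) ≤ (nm w : ℝ) := by
      have := (mem_PP.1 hw).1
      linarith
    have hn0 : (0 : ℝ) < (nm w : ℝ) := by linarith
    split_ifs with hc
    · have a1 : g w / (nm w : ℝ) ≤ 4 := by
        rw [div_le_iff₀ hn0]
        have := hg w hw
        linarith
      have a2 : 0 ≤ f w / (nm w : ℝ) := div_nonneg (hf w hw) hn0.le
      linarith
    · push Not at hc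
      rw [add_zero]
      exact div_le_div_of_nonneg_right (hfg w hw hc) hn0.le
  have h2 : ∑ w ∈ PP 2 B, (if (nm w : ℝ) ≤ (D : ℝ) ^ 2 then (4 : ℝ) else 0) ≤
      4 * ((ball ((D : ℝ) ^ 2)).card : ℝ) := by
    rw [← sum_filter, sum_const, nsmul_eq_mul, mul_comm]
    have h3 : ((PP 2 B).filter (fun w => (nm w : ℝ) ≤ (D : ℝ) ^ 2)).card ≤
        (ball ((D : ℝ) ^ 2)).card := by
      refine card_le_card fun w hw => ?_
      rw [mem_filter] at hw
      exact mem_ball.2 hw.2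
    have h4 : (((PP 2 B).filter (fun w => (nm w : ℝ) ≤ (D : ℝ) ^ 2)).card : ℝ) ≤
        ((ball ((D : ℝ) ^ 2)).card : ℝ) := by exact_mod_cast h3
    linarith
  rw [sum_add_distrib] at h1
  linarith

private theorem npr_mult (D : ℕ) (χ : G → ℂ) (hχ : Chi D χ) (h1 : χ ii = 1) (B t : ℝ) :
    (mult (FL χ) 2 B t).re = 2 * Ls 2 B - nprS χ B t := by
  unfold mult Ls nprS
  rw [Complex.re_sum, mul_sum, ← sum_sub_distrib]
  refine sum_congr rfl fun w hw => ?_
  have hp : (nm w).Prime := (PP_spl hw).1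
  have e1 : FL χ w = -χ w := by
    unfold FL
    rw [ArithmeticFunction.cardFactors_apply_prime hp, pow_one, neg_one_mul]
  have e2 : FL χ (star w) = -χ (fl w) := by
    unfold FL
    rw [nm_star, ArithmeticFunction.cardFactors_apply_prime hp, pow_one, neg_one_mul, fl_eq,
      hχ.mul, h1, one_mul]
  have e3 : (FL χ w + FL χ (star w)) / (nm w : ℂ) *
      Complex.exp (-((t * Real.log (nm w) : ℝ) : ℂ) * Complex.I) =
      (-(χ w * nprE t w) - χ (fl w) * nprE t w) / ((nm w : ℝ) : ℂ) := by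
    rw [e1, e2]
    unfold nprE
    push_cast
    ring
  rw [e3, Complex.div_ofReal_re, Complex.sub_re, Complex.neg_re]
  ring

private theorem npr_bij (B : ℝ) (hB : 0 ≤ B) (g : ℕ → ℝ) :
    ∑ w ∈ PP 2 B, g (nm w) = ∑ p ∈ PT ⌊B⌋₊, g p := by
  refine Finset.sum_bij (fun w _ => nm w) ?_ ?_ ?_ ?_
  · intro w hw
    have hs := PP_spl hw
    obtain ⟨h1, h2, h3, _, _⟩ := mem_PP.1 hw
    rw [PT, Finset.mem_filter, Finset.mem_range, Nat.lt_succ_iff]
    exact ⟨Nat.le_floor h2, hs.1, hs.2⟩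
  · intro w hw w' hw' he
    exact PP_inj hw hw' he
  · intro p hp
    rw [PT, Finset.mem_filter, Finset.mem_range, Nat.lt_succ_iff] at hp
    obtain ⟨h2, h3, h4⟩ := hp
    have h5 : (2 : ℝ) < (p : ℝ) := by
      have : 2 < p := by
        have := h3.two_le
        omega
      exact_mod_cast this
    obtain ⟨w, hw, hn⟩ := PP_exists (P := 2) (Q := B) h3 h4 h5
      ((Nat.cast_le.2 h2).trans (Nat.floor_le hB))
    exact ⟨w, hw, hn⟩
  · intro w _
    rfl

private theorem npr_Ls : ∃ C : ℝ, ∀ B : ℝ, 3 ≤ B → Real.log (Real.log B) / 2 - C ≤ Ls 2 B ∧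
    Ls 2 B ≤ Real.log (Real.log B) / 2 + C := by
  obtain ⟨C, hC⟩ := Ls_bounds
  refine ⟨C + |Real.log (Real.log 2) / 2|, fun B hB => ?_⟩
  have h1 := abs_le.1 (hC 2 B le_rfl (by linarith))
  have h2 := neg_abs_le (Real.log (Real.log 2) / 2)
  have h3 := le_abs_self (Real.log (Real.log 2) / 2)
  constructor <;> linarith [h1.1, h1.2]

/-- large heights -/
private theorem npr_large (D : ℕ) (hD : 0 < D) (χ : G → ℂ) (hχ : Chi D χ) :
    ∃ c : ℝ, 0 < c ∧ ∀ T0 : ℝ, ∃ C : ℝ, ∀ B : ℝ, 3 ≤ B → ∀ t : ℝ, |t| ≤ T0 → t ≠ 0 →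
      Real.log (1 / |t|) ≤ Real.log (Real.log B) / 2 →
      c * Real.log (Real.log B) - C ≤ nprS χ B t := by
  obtain ⟨n0, hn0, hord⟩ := chi_order D hD
  obtain ⟨CL, hCL⟩ := npr_Ls
  have hn1 : (1 : ℝ) ≤ (n0 : ℝ) := by exact_mod_cast hn0
  have hnp : (0 : ℝ) < (n0 : ℝ) := by linarith
  let a : ℝ := 1 / (2 * (n0 : ℝ)) ^ 2
  have ha : 0 < a := by positivity
  have ha1 : a ≤ 1 := by
    rw [div_le_one (by positivity)]
    nlinarith
  refine ⟨2 * a * (1 / 4), by positivity, fun T0 => ?_⟩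
  obtain ⟨CZ, hCZ⟩ := zsum ((n0 : ℝ) * max T0 1) (by positivity)
  refine ⟨2 * a * (CL + CZ) + 4 * ((ball ((D : ℝ) ^ 2)).card : ℝ), fun B hB t ht ht0 htl => ?_⟩
  have hcomp := npr_comp D B
    (fun w => (1 + (χ w * nprE t w).re) + (1 + (χ (fl w) * nprE t w).re))
    (fun w => 2 * a * (1 - Real.cos (2 * ((n0 : ℝ) * t) * Real.log (nm w))))
    (fun w _ => add_nonneg (npr_pos χ hχ.le t w w).1 (npr_pos χ hχ.le t (fl w) w).1)
    (fun w _ => by
      have h2 := Real.neg_one_le_cos (2 * ((n0 : ℝ) * t) * Real.log (nm w))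
      have h3 : a * (1 - Real.cos (2 * ((n0 : ℝ) * t) * Real.log (nm w))) ≤ 1 * 2 :=
        mul_le_mul ha1 (by linarith) (by
          have := Real.cos_le_one (2 * ((n0 : ℝ) * t) * Real.log (nm w))
          linarith) (by norm_num)
      linarith)
    (fun w hw hn => by
      have hs := PP_spl hw
      have hs' : Spl (fl w) := by
        unfold Spl
        rw [nm_fl]
        exact hs
      have key : ∀ v : G, Prime v → nm v = nm w →
          a * (1 - Real.cos (2 * ((n0 : ℝ) * t) * Real.log (nm w))) ≤ 1 + (χ v * nprE t w).re := by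
        intro v hv hvn
        obtain ⟨i1, i2⟩ := chi_norm D hD χ hχ v hv (by rw [hvn]; exact hn)
        have hu : ‖χ v * nprE t w‖ = 1 := by rw [norm_mul, i2, npr_norm, mul_one]
        have h5 := pow_defect _ hu n0
        have h6 : (χ v * nprE t w) ^ (2 * n0) =
            Complex.exp ((-(2 * ((n0 : ℝ) * t) * Real.log (nm w)) : ℝ) * Complex.I) := by
          rw [mul_pow, mul_comm 2 n0, pow_mul (χ v), hord χ hχ v i1, one_pow, one_mul]
          unfold nprE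
          rw [← Complex.exp_nat_mul]
          congr 1
          push_cast
          ring
        have h7 : (Complex.exp ((-(2 * ((n0 : ℝ) * t) * Real.log (nm w)) : ℝ) * Complex.I)).re =
            Real.cos (2 * ((n0 : ℝ) * t) * Real.log (nm w)) := by
          rw [Complex.exp_ofReal_mul_I_re, Real.cos_neg]
        rw [h6, h7] at h5
        have h8 : a * (1 - Real.cos (2 * ((n0 : ℝ) * t) * Real.log (nm w))) ≤
            a * ((2 * (n0 : ℝ)) ^ 2 * (1 + (χ v * nprE t w).re)) :=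
          mul_le_mul_of_nonneg_left h5 ha.le
        have h9 : a * ((2 * (n0 : ℝ)) ^ 2 * (1 + (χ v * nprE t w).re)) =
            1 + (χ v * nprE t w).re := by
          rw [← mul_assoc, one_div_mul_cancel (by positivity), one_mul]
        linarith
      have k1 := key w hs.prime rfl
      have k2 := key (fl w) hs'.prime (nm_fl w)
      linarith)
  have hsum : ∑ w ∈ PP 2 B, 2 * a * (1 - Real.cos (2 * ((n0 : ℝ) * t) * Real.log (nm w))) / (nm w : ℝ) =
      2 * a * (Ls 2 B - ∑ p ∈ PT ⌊B⌋₊, Real.cos (2 * ((n0 : ℝ) * t) * Real.log p) / p) := by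
    rw [← npr_bij B (by linarith) (fun p => Real.cos (2 * ((n0 : ℝ) * t) * Real.log p) / p)]
    unfold Ls
    rw [← sum_sub_distrib, mul_sum]
    refine sum_congr rfl fun w _ => ?_
    ring
  have hfl : 3 ≤ ⌊B⌋₊ := Nat.le_floor (by exact_mod_cast hB)
  have htp : 0 < |t| := abs_pos.2 ht0
  have hzs := hCZ ⌊B⌋₊ hfl ((n0 : ℝ) * t) (by rw [abs_mul, abs_of_pos hnp]; positivity) (by
    rw [abs_mul, abs_of_pos hnp]
    exact mul_le_mul_of_nonneg_left (ht.trans (le_max_left _ _)) hnp.le)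
  have hlog : Real.log (1 / |(n0 : ℝ) * t|) ≤ Real.log (1 / |t|) := by
    apply Real.log_le_log
    · rw [abs_mul, abs_of_pos hnp]; positivity
    · rw [abs_mul, abs_of_pos hnp]
      apply one_div_le_one_div_of_le htp
      nlinarith
  have hL := (hCL B hB).1
  rw [hsum] at hcomp
  have h10 : 2 * a * (Real.log (Real.log B) / 4 - (CL + CZ)) ≤
      2 * a * (Ls 2 B - ∑ p ∈ PT ⌊B⌋₊, Real.cos (2 * ((n0 : ℝ) * t) * Real.log p) / p) := by
    apply mul_le_mul_of_nonneg_left _ (by positivity)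
    linarith
  have h11 : nprS χ B t = ∑ w ∈ PP 2 B, ((1 + (χ w * nprE t w).re) +
    (1 + (χ (fl w) * nprE t w).re)) / (nm w : ℝ) := rfl
  rw [h11]
  nlinarith

/-- small heights -/
private theorem npr_small (D : ℕ) (hD : 0 < D) (χ : G → ℂ) (hχ : Chi D χ) (h1 : χ ii = 1) :
    ∃ c C B0 : ℝ, 0 < c ∧ ∀ B : ℝ, B0 ≤ B → ∀ t : ℝ, |t| * Real.sqrt (Real.log B) ≤ 1 →
      c * Real.log (Real.log B) - C ≤ nprS χ B t := by
  obtain ⟨c1, C1, hc1, hdef⟩ := char_def D hD χ hχ h1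
  obtain ⟨CL, hCL⟩ := npr_Ls
  let K : ℝ := 2 / c1 + 1
  have hK : 1 ≤ K := by
    have : 0 < 2 / c1 := by positivity
    linarith
  have hK0 : 0 < K := by linarith
  have hKc : 1 / K ≤ c1 / 2 := by
    rw [div_le_div_iff₀ hK0 (by norm_num)]
    have : c1 * K = 2 + c1 := by
      show c1 * (2 / c1 + 1) = 2 + c1
      field_simp
    linarith
  let B0 : ℝ := Real.exp ((2 * K) ^ 2)
  refine ⟨c1 / 4, C1 + 2 * CL / K + c1 / 2 * Real.log K, B0, by positivity, fun B hB t ht => ?_⟩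
  have hB1 : 1 ≤ B := by
    have : 1 ≤ B0 := Real.one_le_exp (by positivity)
    linarith
  have hBp : 0 < B := by linarith
  have hL : (2 * K) ^ 2 ≤ Real.log B := by
    rw [Real.le_log_iff_exp_le hBp]
    exact hB
  have hLp : 0 < Real.log B := lt_of_lt_of_le (by positivity) hL
  have hsq : 2 * K ≤ Real.sqrt (Real.log B) := Real.le_sqrt_of_sq_le hL
  let B' : ℝ := Real.exp (Real.sqrt (Real.log B) / K)
  have hB'3 : 3 ≤ B' := by
    have h2 : (2 : ℝ) ≤ Real.sqrt (Real.log B) / K := by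
      rw [le_div_iff₀ hK0]
      exact hsq
    have h3 : Real.sqrt (Real.log B) / K + 1 ≤ B' := Real.add_one_le_exp _
    linarith
  have hsqle : Real.sqrt (Real.log B) ≤ Real.log B := by
    have h2 : (1 : ℝ) ≤ Real.log B := by nlinarith
    have h3 : Real.sqrt (Real.log B) * Real.sqrt (Real.log B) = Real.log B :=
      Real.mul_self_sqrt hLp.le
    nlinarith
  have hB'B : B' ≤ B := by
    have h2 : Real.sqrt (Real.log B) / K ≤ Real.log B :=
      (div_le_self (Real.sqrt_nonneg _) hK).trans hsqle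
    calc B' ≤ Real.exp (Real.log B) := Real.exp_le_exp.2 h2
      _ = B := Real.exp_log hBp
  have hsub : PP 2 B' ⊆ PP 2 B := by
    intro w hw
    rw [mem_PP] at hw ⊢
    exact ⟨hw.1, hw.2.1.trans hB'B, hw.2.2⟩
  have hmono : nprS χ B' t ≤ nprS χ B t := by
    unfold nprS
    refine sum_le_sum_of_subset_of_nonneg hsub fun w _ _ => ?_
    exact div_nonneg (add_nonneg (npr_pos χ hχ.le t w w).1 (npr_pos χ hχ.le t (fl w) w).1)
      (Nat.cast_nonneg _)
  have hterm : ∑ w ∈ PP 2 B', ((1 + (χ w).re) + (1 + (χ (fl w)).re)) / (nm w : ℝ) -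
      2 / K * Ls 2 B' ≤ nprS χ B' t := by
    unfold nprS Ls
    rw [mul_sum, ← sum_sub_distrib]
    refine sum_le_sum fun w hw => ?_
    have hw' := mem_PP.1 hw
    have hn0 : (0 : ℝ) < (nm w : ℝ) := by linarith [hw'.1]
    have hlogw : Real.log (nm w) ≤ Real.sqrt (Real.log B) / K := by
      rw [Real.log_le_iff_le_exp hn0]
      exact hw'.2.1
    have hlog0 : 0 ≤ Real.log (nm w) := Real.log_nonneg (by linarith [hw'.1])
    have hE : ‖nprE t w - 1‖ ≤ 1 / K := by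
      have e : nprE t w = Complex.exp (Complex.I * ((-(t * Real.log (nm w)) : ℝ) : ℂ)) := by
        unfold nprE
        congr 1
        push_cast
        ring
      rw [e]
      refine (Real.norm_exp_I_mul_ofReal_sub_one_le).trans ?_
      rw [norm_neg, Real.norm_eq_abs, abs_mul, abs_of_nonneg hlog0]
      calc |t| * Real.log (nm w) ≤ |t| * (Real.sqrt (Real.log B) / K) :=
            mul_le_mul_of_nonneg_left hlogw (abs_nonneg t)
        _ = |t| * Real.sqrt (Real.log B) / K := by ring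
        _ ≤ 1 / K := div_le_div_of_nonneg_right ht hK0.le
    have key : ∀ v : G, (χ v).re - 1 / K ≤ (χ v * nprE t w).re := by
      intro v
      have h2 : ‖χ v * nprE t w - χ v‖ ≤ 1 / K := by
        have h3 : χ v * nprE t w - χ v = χ v * (nprE t w - 1) := by ring
        rw [h3, norm_mul]
        calc ‖χ v‖ * ‖nprE t w - 1‖ ≤ 1 * (1 / K) :=
              mul_le_mul (hχ.le v) hE (norm_nonneg _) (by norm_num)
          _ = 1 / K := one_mul _
      have h4 := (abs_le.1 ((Complex.abs_re_le_norm _).trans h2)).1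
      rw [Complex.sub_re] at h4
      linarith
    have k1 := key w
    have k2 := key (fl w)
    rw [mul_one_div, ← sub_div]
    refine div_le_div_of_nonneg_right ?_ hn0.le
    have e5 : 2 / K = 1 / K + 1 / K := by ring
    rw [e5]
    linarith
  have h5 := hdef B' hB'3
  have h6 := (hCL B' hB'3).2
  have hlogB' : Real.log B' = Real.sqrt (Real.log B) / K := Real.log_exp _
  have hll : Real.log (Real.log B') = Real.log (Real.log B) / 2 - Real.log K := by
    rw [hlogB', Real.log_div (by positivity) hK0.ne', Real.log_sqrt hLp.le]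
  have hllp : 0 ≤ Real.log (Real.log B') := by
    apply Real.log_nonneg
    rw [hlogB', le_div_iff₀ hK0]
    linarith
  have h7 : 2 / K * Ls 2 B' ≤ 2 / K * (Real.log (Real.log B') / 2 + CL) :=
    mul_le_mul_of_nonneg_left h6 (by positivity)
  have h8 : 2 / K * (Real.log (Real.log B') / 2 + CL) =
      1 / K * Real.log (Real.log B') + 2 * CL / K := by ring
  have h9 : 1 / K * Real.log (Real.log B') ≤ c1 / 2 * Real.log (Real.log B') :=
    mul_le_mul_of_nonneg_right hKc hllp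
  have h10 : c1 / 2 * Real.log (Real.log B') =
      c1 / 4 * Real.log (Real.log B) - c1 / 2 * Real.log K := by rw [hll]; ring
  linarith

/-- PROOF. `FL χ w = - χ w` and `FL χ (star w) = - χ (star w) = - χ (fl w)` (`fl w = ii star w`, `χ ii = 1`) for `w ∈ PP` (prime norm). With `2 Ls 2 B = ∑ 2 / nm w ~ log log B` (`Ls_bounds`) it suffices to find `c > 0`, `C`, independent of `t`, `B`, with
`∑_w ((1 + Re (χ w e_w)) + (1 + Re (χ (fl w) e_w))) / nm w ≥ c log log B - C`, `e_w = exp (-i t log nm w)`, for `|t| ≤ T0`. Let `L = log B`.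
(a) `|t| ≥ L^(-1/2)`: for `nm w > D²` (`chi_norm`, `Inv D w`) `u = χ w e_w` has modulus 1 and `u^(2 n0) = exp (-i 2 n0 t log nm w)` (`chi_order`): by `pow_defect` the sum is `≥ (2 n0)^(-2) ∑_(D² < nm w ≤ B) 2 (1 - cos (2 n0 t log nm w)) / nm w`, and `zsum` with `τ = n0 t`, `T = ⌊B⌋₊`
(`PT T` = norms of `PP 2 B`) gives `≥ (2 n0)^(-2) 2 (Ls 2 B - log (1/|τ|) / 2 - C)` with `log (1/|τ|) ≤ (1/2) log L`: `≥ c log L - C`.
(b) `|t| < L^(-1/2)`: only the primes `nm w ≤ B' = exp (K^(-1) L^(1/2))`, where `|e_w - 1| ≤ |t| log nm w ≤ 1/K`: the sum is at least `char_def` for `B'`, minus `(1/K) 2 Ls 2 B'`; `log log B' = (1/2) log L - log K`; choose `K` large compared with `1/c`. -/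
theorem nonpret (D : ℕ) (hD : 0 < D) (χ : G → ℂ) (hχ : Chi D χ) (h1 : χ ii = 1) : ∃ c0 : ℝ, 0 < c0 ∧ ∀ T0 : ℝ, ∃ B0 : ℝ, ∀ B : ℝ, B0 ≤ B →
    ∀ t : ℝ, |t| ≤ T0 → (mult (FL χ) 2 B t).re ≤ (1 - c0) * (2 * Ls 2 B) := by
  obtain ⟨ca, hca, Ha⟩ := npr_large D hD χ hχ
  obtain ⟨cb, Cb, Bb, hcb, Hb⟩ := npr_small D hD χ hχ h1
  obtain ⟨CL, hCL⟩ := npr_Ls
  let c : ℝ := min ca cb
  have hc : 0 < c := lt_min hca hcb
  refine ⟨c / 2, by positivity, fun T0 => ?_⟩
  obtain ⟨Ca, hCa⟩ := Ha T0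
  let M : ℝ := max (2 / c * (max Ca Cb + c * CL)) 0
  refine ⟨max (max 3 Bb) (Real.exp (Real.exp M)), fun B hB t ht => ?_⟩
  have hB3 : 3 ≤ B := (le_max_left _ _).trans ((le_max_left _ _).trans hB)
  have hBb : Bb ≤ B := (le_max_right _ _).trans ((le_max_left _ _).trans hB)
  have hBM : Real.exp (Real.exp M) ≤ B := (le_max_right _ _).trans hB
  have hBp : 0 < B := by linarith
  have hLM : Real.exp M ≤ Real.log B := by
    rw [Real.le_log_iff_exp_le hBp]
    exact hBM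
  have hLp : 0 < Real.log B := lt_of_lt_of_le (Real.exp_pos _) hLM
  have hll : M ≤ Real.log (Real.log B) := by
    rw [Real.le_log_iff_exp_le hLp]
    exact hLM
  have hll0 : 0 ≤ Real.log (Real.log B) := (le_max_right _ _).trans hll
  have hS : c * Real.log (Real.log B) - max Ca Cb ≤ nprS χ B t := by
    by_cases hcase : |t| * Real.sqrt (Real.log B) ≤ 1
    · have h2 := Hb B hBb t hcase
      have h3 : c * Real.log (Real.log B) ≤ cb * Real.log (Real.log B) :=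
        mul_le_mul_of_nonneg_right (min_le_right _ _) hll0
      have h4 := le_max_right Ca Cb
      linarith
    · push Not at hcase
      have ht0 : t ≠ 0 := by
        rintro rfl
        rw [abs_zero, zero_mul] at hcase
        linarith
      have htp : 0 < |t| := abs_pos.2 ht0
      have h2 := hCa B hB3 t ht ht0 (by
        rw [← Real.log_sqrt hLp.le]
        apply Real.log_le_log (by positivity)
        rw [div_le_iff₀ htp]
        linarith)
      have h3 : c * Real.log (Real.log B) ≤ ca * Real.log (Real.log B) :=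
        mul_le_mul_of_nonneg_right (min_le_left _ _) hll0
      have h4 := le_max_left Ca Cb
      linarith
  rw [npr_mult D χ hχ h1 B t]
  have h5 := (hCL B hB3).2
  have h6 : 2 / c * (max Ca Cb + c * CL) ≤ Real.log (Real.log B) := (le_max_left _ _).trans hll
  have h7 : max Ca Cb + c * CL ≤ c / 2 * Real.log (Real.log B) := by
    have h8 : c / 2 * (2 / c * (max Ca Cb + c * CL)) ≤ c / 2 * Real.log (Real.log B) :=
      mul_le_mul_of_nonneg_left h6 (by positivity)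
    have h9 : c / 2 * (2 / c * (max Ca Cb + c * CL)) = max Ca Cb + c * CL := by
      field_simp
    linarith
  have h10 : c / 2 * (2 * Ls 2 B) ≤ c / 2 * (Real.log (Real.log B) + 2 * CL) :=
    mul_le_mul_of_nonneg_left (by linarith) (by positivity)
  nlinarith

end Pool.Agent.ECM

end
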