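import Mathlib
import Pool.Agent.Lib_MP_f1a94e_m.G14
import Pool.Agent.Lib_MP_f1a94e_m.G15
import Pool.Agent.Lib_MP_f1a94e_m.G17
import Pool.Agent.Lib_MP_f1a94e_m.G18
import Pool.Agent.Lib_MP_f1a94e_m.G19
import Pool.Agent.Lib_MP_f1a94e_m.G20

/-!
# MP_f1a94e_nt: merged library part G22

Concatenation of files of the libraries `Lib_MP_f1a94e_*` (each in its own section), only to save build time.
-/

/-! ### from `Lib_MP_f1a94e_eq.QdS` -/

section

/-!
# Piece QDS: the sums over multiples of `d`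
-/

set_option autoImplicit false

namespace Pool.Agent.OmEq

open Finset Pool.Agent.GaussMR Pool.Agent.OmAll MeasureTheory Filter

/-! ### weights -/

/-- the weight `ww` cut near zero -/
noncomputable def qdsW (η s : ℝ) : ℝ := ww s * min 1 (max 0 (s / η))

theorem qdsW_cont (η : ℝ) : Continuous (qdsW η) := by
  unfold qdsW
  exact ww_props.1.mul (continuous_const.min (continuous_const.max (continuous_id.div_const η)))

theorem qdsW_cut (η s : ℝ) : 0 ≤ min 1 (max 0 (s / η)) ∧ min 1 (max 0 (s / η)) ≤ 1 :=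
  ⟨le_min zero_le_one (le_max_left _ _), min_le_left _ _⟩

theorem qdsW_nn (η s : ℝ) : 0 ≤ qdsW η s := mul_nonneg (ww_props.2.1 s) (qdsW_cut η s).1

theorem qdsW_le (η s : ℝ) : qdsW η s ≤ ww s :=
  mul_le_of_le_one_right (ww_props.2.1 s) (qdsW_cut η s).2

theorem qdsW_le1 (η s : ℝ) : qdsW η s ≤ 1 := (qdsW_le η s).trans (ww_props.2.2.1 s)

theorem qdsW_lo {η s : ℝ} (hη : 0 < η) (hs : s ≤ 0) : qdsW η s = 0 := by
  unfold qdsW
  have h : s / η ≤ 0 := div_nonpos_of_nonpos_of_nonneg hs hη.le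
  rw [max_eq_left h, min_eq_right zero_le_one, mul_zero]

theorem qdsW_hi {η s : ℝ} (hs : 1 ≤ s) : qdsW η s = 0 := by
  unfold qdsW
  rw [ww_props.2.2.2 s (hs.trans (le_abs_self s)), zero_mul]

theorem qdsW_eq {η s : ℝ} (hη : 0 < η) (hs : η ≤ s) : qdsW η s = ww s := by
  unfold qdsW
  have h : 1 ≤ s / η := by rwa [le_div_iff₀ hη, one_mul]
  rw [min_eq_left (h.trans (le_max_right _ _)), mul_one]

theorem qdsW_uc (η : ℝ) (hη : 0 < η) : UniformContinuous (qdsW η) := by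
  refine HasCompactSupport.uniformContinuous_of_continuous ?_ (qdsW_cont η)
  refine HasCompactSupport.of_support_subset_isCompact (isCompact_Icc (a := (0 : ℝ)) (b := 1)) ?_
  intro s hs
  rw [Function.mem_support] at hs
  constructor
  · by_contra hc
    exact hs (qdsW_lo hη (not_le.1 hc).le)
  · by_contra hc
    exact hs (qdsW_hi (not_le.1 hc).le)

theorem qds_huc {h : ℝ → ℝ} {h1 h2 : ℝ} (hh : HF h h1 h2) : UniformContinuous h := by
  refine HasCompactSupport.uniformContinuous_of_continuous ?_ hh.cont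
  refine HasCompactSupport.of_support_subset_isCompact (isCompact_Icc (a := h1) (b := h2)) ?_
  intro s hs
  rw [Function.mem_support] at hs
  constructor
  · by_contra hc
    exact hs (hh.lo s (not_le.1 hc).le)
  · by_contra hc
    exact hs (hh.hi s (not_le.1 hc).le)

theorem qds_ps0_nn (t : ℝ) : 0 ≤ ps0 t := le_max_left _ _

theorem qds_ps0_le (t : ℝ) : ps0 t ≤ 1 := by
  unfold ps0
  exact max_le zero_le_one (by linarith [abs_nonneg t])

theorem qds_ps0_ne {t : ℝ} (h : ps0 t ≠ 0) : |t| < 1 := by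
  by_contra hc
  apply h
  unfold ps0
  rw [max_eq_left]
  linarith [not_lt.1 hc]

theorem qds_ps0_cont : Continuous ps0 := by
  unfold ps0
  exact continuous_const.max (continuous_const.sub continuous_abs)

theorem qds_exp1 : Real.exp 1 ≤ 4 := by
  have := Real.exp_one_lt_d9
  linarith

theorem qds_ratio {X X' : ℝ} (hX : 0 < X) (hX' : 0 < X') (h : |Real.log X' - Real.log X| < 1) :
    X' ≤ 4 * X ∧ X ≤ 4 * X' := by
  rw [abs_lt] at h
  constructor
  · have h1 : Real.log X' < 1 + Real.log X := by linarith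
    have h2 := Real.exp_lt_exp.2 h1
    rw [Real.exp_add, Real.exp_log hX, Real.exp_log hX'] at h2
    nlinarith [qds_exp1]
  · have h1 : Real.log X < 1 + Real.log X' := by linarith
    have h2 := Real.exp_lt_exp.2 h1
    rw [Real.exp_add, Real.exp_log hX, Real.exp_log hX'] at h2
    nlinarith [qds_exp1]

theorem qds_sqrt {X X' : ℝ} (hX : 0 < X) (hX' : 0 < X') (h : |Real.log X' - Real.log X| < 1) :
    Real.sqrt (X * X') ≤ 2 * X ∧ Real.sqrt (X * X') ≤ 2 * X' ∧ X ≤ 2 * Real.sqrt (X * X') ∧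
      X' ≤ 2 * Real.sqrt (X * X') := by
  obtain ⟨h1, h2⟩ := qds_ratio hX hX' h
  have hXX : 0 ≤ X * X' := by positivity
  refine ⟨?_, ?_, ?_, ?_⟩
  · rw [Real.sqrt_le_left (by positivity)]
    nlinarith
  · rw [Real.sqrt_le_left (by positivity)]
    nlinarith
  · have h3 : X / 2 ≤ Real.sqrt (X * X') := by
      apply Real.le_sqrt_of_sq_le
      nlinarith
    linarith
  · have h3 : X' / 2 ≤ Real.sqrt (X * X') := by
      apply Real.le_sqrt_of_sq_le
      nlinarith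
    linarith

/-- the weight of `arcpair` -/
noncomputable def qdsF (h : ℝ → ℝ) (η c : ℝ) (x x' σ : ℝ) : ℝ :=
  qdsW η (Real.sqrt (max x c * max x' c) * σ) * h (Real.sqrt (max x c * max x' c)) ^ 2 *
    ps0 (Real.log (max x' c) - Real.log (max x c))

theorem qdsF_cont {h : ℝ → ℝ} (hh : Continuous h) (η : ℝ) {c : ℝ} (hc : 0 < c) :
    Continuous (fun v : ℝ × ℝ × ℝ => qdsF h η c v.1 v.2.1 v.2.2) := by
  have c1 : Continuous (fun v : ℝ × ℝ × ℝ => max v.1 c) := continuous_fst.max continuous_const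
  have c2 : Continuous (fun v : ℝ × ℝ × ℝ => max v.2.1 c) := (continuous_fst.comp continuous_snd).max continuous_const
  have c3 : Continuous (fun v : ℝ × ℝ × ℝ => v.2.2) := continuous_snd.comp continuous_snd
  have c4 : Continuous (fun v : ℝ × ℝ × ℝ => Real.sqrt (max v.1 c * max v.2.1 c)) := (c1.mul c2).sqrt
  have c5 : Continuous (fun v : ℝ × ℝ × ℝ => Real.log (max v.1 c)) :=
    c1.log (fun v => (lt_of_lt_of_le hc (le_max_right _ _)).ne')
  have c6 : Continuous (fun v : ℝ × ℝ × ℝ => Real.log (max v.2.1 c)) :=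
    c2.log (fun v => (lt_of_lt_of_le hc (le_max_right _ _)).ne')
  unfold qdsF
  exact (((qdsW_cont η).comp (c4.mul c3)).mul ((hh.comp c4).pow 2)).mul (qds_ps0_cont.comp (c6.sub c5))

theorem qdsF_van {h : ℝ → ℝ} {h1 h2 : ℝ} (hh : HF h h1 h2) {η : ℝ} (hη : 0 < η) (x x' σ : ℝ)
    (hv : x ≤ h1 / 2 ∨ x' ≤ h1 / 2 ∨ 3 * h2 ≤ x ∨ 3 * h2 ≤ x' ∨ σ ≤ 0 ∨ 1 / h1 ≤ σ) :
    qdsF h η (h1 / 2) x x' σ = 0 := by
  have h1p := hh.pos
  have hc : 0 < h1 / 2 := by linarith
  have hX : 0 < max x (h1 / 2) := lt_of_lt_of_le hc (le_max_right _ _)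
  have hX' : 0 < max x' (h1 / 2) := lt_of_lt_of_le hc (le_max_right _ _)
  by_contra hne
  unfold qdsF at hne
  have n3 := right_ne_zero_of_mul hne
  have n12 := left_ne_zero_of_mul hne
  have n1 := left_ne_zero_of_mul n12
  have n2 : h (Real.sqrt (max x (h1 / 2) * max x' (h1 / 2))) ≠ 0 := by
    intro h0
    apply right_ne_zero_of_mul n12
    rw [h0]
    norm_num
  obtain ⟨s1, s2, s3, s4⟩ := qds_sqrt hX hX' (qds_ps0_ne n3)
  have lo : h1 < Real.sqrt (max x (h1 / 2) * max x' (h1 / 2)) := by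
    by_contra hc
    exact n2 (hh.lo _ (not_lt.1 hc))
  have hi : Real.sqrt (max x (h1 / 2) * max x' (h1 / 2)) < h2 := by
    by_contra hc
    exact n2 (hh.hi _ (not_lt.1 hc))
  have h2p := hh.one
  rcases hv with hv | hv | hv | hv | hv | hv
  · rw [max_eq_right hv] at s1 lo
    linarith
  · rw [max_eq_right hv] at s2 lo
    linarith
  · have := le_max_left x (h1 / 2)
    linarith
  · have := le_max_left x' (h1 / 2)
    linarith
  · apply n1
    apply qdsW_lo hη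
    exact mul_nonpos_of_nonneg_of_nonpos (Real.sqrt_nonneg _) hv
  · apply n1
    apply qdsW_hi
    have h3 : h1 * (1 / h1) = 1 := by field_simp
    rw [← h3]
    exact mul_le_mul lo.le hv (by positivity) (Real.sqrt_nonneg _)

theorem qdsF_eq {h : ℝ → ℝ} {h1 h2 : ℝ} (hh : HF h h1 h2) {η : ℝ} (hη : 0 < η) {x x' : ℝ} (σ : ℝ)
    (hx : 0 < x) (hx' : 0 < x') :
    qdsF h η (h1 / 2) x x' σ = qdsW η (Real.sqrt (x * x') * σ) * h (Real.sqrt (x * x')) ^ 2 *
      ps0 (Real.log x' - Real.log x) := by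
  by_cases hc : h1 / 2 ≤ x ∧ h1 / 2 ≤ x'
  · unfold qdsF
    rw [max_eq_left hc.1, max_eq_left hc.2]
  · have h0 : qdsF h η (h1 / 2) x x' σ = 0 := by
      apply qdsF_van hh hη
      by_contra hn
      apply hc
      constructor
      · by_contra h3
        exact hn (Or.inl (not_le.1 h3).le)
      · by_contra h3
        exact hn (Or.inr (Or.inl (not_le.1 h3).le))
    rw [h0]
    by_contra hne
    have hne' := Ne.symm hne
    have n3 := right_ne_zero_of_mul hne'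
    have n12 := left_ne_zero_of_mul hne'
    have n2 : h (Real.sqrt (x * x')) ≠ 0 := by
      intro h0
      apply right_ne_zero_of_mul n12
      rw [h0]
      norm_num
    obtain ⟨s1, s2, s3, s4⟩ := qds_sqrt hx hx' (qds_ps0_ne n3)
    have lo : h1 < Real.sqrt (x * x') := by
      by_contra hc
      exact n2 (hh.lo _ (not_lt.1 hc))
    apply hc
    constructor <;> linarith

/-! ### geometry of a pair -/

theorem qds_norm (V V' : G) : ‖((star V * V' : G) : ℂ)‖ = Real.sqrt ((nm V : ℝ) * nm V') := by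
  rw [norm_eq_sqrt, nm_mul, nm_star]
  push_cast
  rfl

theorem qds_cos (V V' : G) : Real.sqrt ((nm V : ℝ) * nm V') * Real.cos (ang V V') = ((dot V V' : ℤ) : ℝ) := by
  unfold ang
  rw [← qds_norm, Complex.norm_mul_cos_arg, star_mul_eq, ← GaussianInt.intCast_re]

theorem qds_sin (V V' : G) : Real.sqrt ((nm V : ℝ) * nm V') * Real.sin (ang V V') = ((det V V' : ℤ) : ℝ) := by
  unfold ang
  rw [← qds_norm, Complex.norm_mul_sin_arg, star_mul_eq, ← GaussianInt.intCast_im]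

theorem qds_geo {V V' : G} (hdot : 0 < dot V V') (hdet : 0 < det V V') :
    0 < ang V V' ∧ ((det V V' : ℤ) : ℝ) ≤ Real.sqrt ((nm V : ℝ) * nm V') * ang V V' ∧
    ang V V' * ((dot V V' : ℤ) : ℝ) ≤ ((det V V' : ℤ) : ℝ) ∧
    ((dot V V' : ℤ) : ℝ) ≤ Real.sqrt ((nm V : ℝ) * nm V') ∧
    Real.sqrt ((nm V : ℝ) * nm V') ≤ ((dot V V' : ℤ) : ℝ) + ((det V V' : ℤ) : ℝ) ∧
    (Real.sqrt ((nm V : ℝ) * nm V') * ang V V' - ((det V V' : ℤ) : ℝ)) * ((dot V V' : ℤ) : ℝ) ≤
      ((det V V' : ℤ) : ℝ) ^ 2 := by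
  have hc := qds_cos V V'
  have hs := qds_sin V V'
  have e : ((dot V V' : ℤ) : ℝ) ^ 2 + ((det V V' : ℤ) : ℝ) ^ 2 = (nm V : ℝ) * nm V' := by
    exact_mod_cast dot_sq_add_det_sq V V'
  have hdot' : (0 : ℝ) < ((dot V V' : ℤ) : ℝ) := by exact_mod_cast hdot
  have hdet' : (0 : ℝ) < ((det V V' : ℤ) : ℝ) := by exact_mod_cast hdet
  set x := ((dot V V' : ℤ) : ℝ) with hx
  set y := ((det V V' : ℤ) : ℝ) with hy
  set φ := ang V V' with hφ
  set ρ := Real.sqrt ((nm V : ℝ) * nm V') with hρ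
  have hρ0 : 0 ≤ ρ := Real.sqrt_nonneg _
  have hρ1 : 0 < ρ := by
    rcases hρ0.lt_or_eq with h | h
    · exact h
    · rw [← h, zero_mul] at hc
      linarith
  have hφ1 : 0 ≤ φ := by
    rw [hφ]
    unfold ang
    rw [Complex.arg_nonneg_iff, star_mul_eq, ← GaussianInt.intCast_im]
    exact hdet'.le
  have hφ2 : 0 < φ := by
    rcases hφ1.lt_or_eq with h | h
    · exact h
    · rw [← h, Real.sin_zero, mul_zero] at hs
      linarith
  have hφ3 : φ < Real.pi / 2 := by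
    have h1 : |φ| < Real.pi / 2 := by
      rw [hφ]
      unfold ang
      rw [Complex.abs_arg_lt_pi_div_two_iff]
      left
      rw [star_mul_eq, ← GaussianInt.intCast_re]
      exact hdot'
    exact (le_abs_self _).trans_lt h1
  have hcos : 0 < Real.cos φ := Real.cos_pos_of_mem_Ioo ⟨by linarith, hφ3⟩
  have h1 : y ≤ ρ * φ := by
    rw [← hs]
    exact mul_le_mul_of_nonneg_left (Real.sin_le hφ1) hρ0
  have h2 : φ * x ≤ y := by
    have h3 := Real.le_tan hφ1 hφ3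
    rw [Real.tan_eq_sin_div_cos, le_div_iff₀ hcos] at h3
    rw [← hc, ← hs]
    have h4 := mul_le_mul_of_nonneg_left h3 hρ0
    linarith only [h4]
  have h3 : x ≤ ρ := by
    rw [← hc]
    exact mul_le_of_le_one_right hρ0 (Real.cos_le_one _)
  have h4 : ρ ≤ x + y := by
    rw [hρ, Real.sqrt_le_left (add_nonneg hdot'.le hdet'.le)]
    have h5 := mul_pos hdot' hdet'
    linarith only [h5, e]
  refine ⟨hφ2, h1, h2, h3, h4, ?_⟩
  have h5 : ρ * φ * x ≤ ρ * y := by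
    rw [mul_assoc]
    exact mul_le_mul_of_nonneg_left h2 hρ0
  have h6 := mul_le_mul_of_nonneg_right h4 hdet'.le
  linarith only [h5, h6]

theorem qds_geo2 {V V' : G} (hV : V ≠ 0) (hV' : V' ≠ 0) (h0 : 0 < ang V V') (h1 : ang V V' < Real.pi / 2) :
    0 < dot V V' ∧ 0 < det V V' := by
  have hc := qds_cos V V'
  have hs := qds_sin V V'
  have hcos : 0 < Real.cos (ang V V') := Real.cos_pos_of_mem_Ioo ⟨by linarith, h1⟩
  have hsin : 0 < Real.sin (ang V V') := Real.sin_pos_of_pos_of_lt_pi h0 (by linarith [Real.pi_pos])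
  have hρ : 0 < Real.sqrt ((nm V : ℝ) * nm V') := by
    apply Real.sqrt_pos.2
    have a1 : (0 : ℝ) < nm V := by exact_mod_cast nm_pos hV
    have a2 : (0 : ℝ) < nm V' := by exact_mod_cast nm_pos hV'
    positivity
  constructor
  · have : (0 : ℝ) < ((dot V V' : ℤ) : ℝ) := by
      rw [← hc]
      positivity
    exact_mod_cast this
  · have : (0 : ℝ) < ((det V V' : ℤ) : ℝ) := by
      rw [← hs]
      positivity
    exact_mod_cast this

/-! ### the weight of the sums `Qs` -/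

open Classical in
/-- the periodic factor -/
noncomputable def qdsK (d : ℕ) (V V' : G) : ℂ :=
  if ((d : ℤ) ∣ det V V' ∧ ((4 : ℤ) ∣ det V V' → cg 4 V' V)) then (if (4 : ℤ) ∣ det V V' then 2 else 1) else 0

theorem qdsK_bd (d : ℕ) (V V' : G) : ‖qdsK d V V'‖ ≤ 2 := by
  classical
  unfold qdsK
  split_ifs <;> simp

theorem qdsK_per (d : ℕ) (V V' U U' : G) (h : cg (4 * d) V U) (h' : cg (4 * d) V' U') :
    qdsK d V V' = qdsK d U U' := by
  have h1 := det_cg h h'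
  have hd : (d : ℤ) ∣ det V V' ↔ (d : ℤ) ∣ det U U' := by
    apply dvd_iff_dvd_of_dvd_sub
    exact (Int.natCast_dvd_natCast.2 (dvd_mul_left d 4)).trans h1
  have h4 : (4 : ℤ) ∣ det V V' ↔ (4 : ℤ) ∣ det U U' := by
    apply dvd_iff_dvd_of_dvd_sub
    exact (Int.natCast_dvd_natCast.2 (dvd_mul_right 4 d)).trans h1
  have hc : cg 4 V' V ↔ cg 4 U' U := by
    have a1 : cg 4 V U := cg_mono (dvd_mul_right 4 d) h
    have a2 : cg 4 V' U' := cg_mono (dvd_mul_right 4 d) h'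
    exact ⟨fun h => cg_trans (cg_symm a2) (cg_trans h a1), fun h => cg_trans a2 (cg_trans h (cg_symm a1))⟩
  have hP : ((d : ℤ) ∣ det V V' ∧ ((4 : ℤ) ∣ det V V' → cg 4 V' V)) ↔
      ((d : ℤ) ∣ det U U' ∧ ((4 : ℤ) ∣ det U U' → cg 4 U' U)) := by rw [hd, h4, hc]
  unfold qdsK
  by_cases hp : ((d : ℤ) ∣ det V V' ∧ ((4 : ℤ) ∣ det V V' → cg 4 V' V))
  · rw [if_pos hp, if_pos (hP.1 hp)]
    by_cases h5 : (4 : ℤ) ∣ det V V'
    · rw [if_pos h5, if_pos (h4.1 h5)]
    · rw [if_neg h5, if_neg (fun h6 => h5 (h4.2 h6))]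
  · rw [if_neg hp, if_neg (fun h6 => hp (hP.2 h6))]

/-- the weight of a pair in the sums `Qs` -/
noncomputable def qdsT (h : ℝ → ℝ) (N : ℕ) (Y : ℝ) (e : G × G) : ℝ :=
  if 0 < dot e.1 e.2 ∧ 1 ≤ det e.1 e.2 ∧ det e.1 e.2 ≤ N then
    ww (((det e.1 e.2 : ℤ) : ℝ) / N) * h (mE e / Y) ^ 2 * ps0 (tE e) else 0

theorem qds_Prim_ne {z : G} (hz : Prim z) : z ≠ 0 := by
  rintro rfl
  exact arcpair_prim0 hz

theorem qds_nm_pos {z : G} (hz : Prim z) : (0 : ℝ) < nm z := by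
  exact_mod_cast nm_pos (qds_Prim_ne hz)

open Classical in
theorem qds_sum (f : ℕ → ℂ) (d : ℕ) {h : ℝ → ℝ} {h1 h2 : ℝ} (hh : HF h h1 h2) {N : ℕ} {Y : ℝ}
    (hY : 2 * (N : ℝ) ≤ Y) (hY0 : 0 < Y) :
    ∑ n ∈ (Icc 1 N).filter (fun n => d ∣ n), ((kap n * ww ((n : ℝ) / N) : ℝ) : ℂ) *
      Qs f n (h2 * Y) (fun y t => ((h y ^ 2 * ps0 t : ℝ) : ℂ)) Y =
    ∑ e ∈ PV (3 * h2 * Y) ×ˢ PV (3 * h2 * Y), qdsK d e.1 e.2 * (f (nm e.1) * (starRingEnd ℂ) (f (nm e.2))) *
      ((qdsT h N Y e : ℝ) : ℂ) := by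
  have h2p := hh.one
  set P := PV (3 * h2 * Y) ×ˢ PV (3 * h2 * Y) with hP
  set T : G × G → ℂ := fun e => qdsK d e.1 e.2 * (f (nm e.1) * (starRingEnd ℂ) (f (nm e.2))) *
      ((qdsT h N Y e : ℝ) : ℂ) with hT
  have e1 : ∀ e ∈ P, T e = ∑ n ∈ Icc 1 N, if det e.1 e.2 = (n : ℤ) then T e else 0 := by
    intro e _
    by_cases hc : 1 ≤ det e.1 e.2 ∧ det e.1 e.2 ≤ N
    · rw [sum_eq_single (det e.1 e.2).toNat]
      · rw [if_pos]
        rw [Int.toNat_of_nonneg (by linarith [hc.1])]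
      · intro n _ hn
        rw [if_neg]
        intro h3
        apply hn
        rw [h3, Int.toNat_natCast]
      · intro h3
        exfalso
        apply h3
        rw [mem_Icc]
        omega
    · have h0 : T e = 0 := by
        rw [hT]
        dsimp only
        unfold qdsT
        rw [if_neg (fun h3 => hc h3.2), Complex.ofReal_zero, mul_zero]
      rw [h0]
      symm
      apply sum_eq_zero
      intro n _
      rw [ite_self]
  rw [sum_congr rfl e1, sum_comm, sum_filter]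
  apply sum_congr rfl
  intro n hn
  rw [mem_Icc] at hn
  have hn0 : 0 < n := hn.1
  have hnN : (n : ℝ) ≤ N := by exact_mod_cast hn.2
  rw [← sum_filter]
  split_ifs with hdn
  · unfold Qs
    rw [mul_sum]
    have hd4 : ∀ e : G × G, det e.1 e.2 = (n : ℤ) → ((4 : ℤ) ∣ det e.1 e.2 ↔ 4 ∣ n) := by
      intro e he
      rw [he]
      exact Int.natCast_dvd_natCast
    have hdd : ∀ e : G × G, det e.1 e.2 = (n : ℤ) → (d : ℤ) ∣ det e.1 e.2 := by
      intro e he
      rw [he]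
      exact Int.natCast_dvd_natCast.2 hdn
    apply sum_congr_of_eq_on_inter
    · intro e he hne
      rw [mem_filter, mem_EN hn0] at he
      obtain ⟨⟨hEn, hm⟩, hhc⟩ := he
      have hEn' := (En_iff hn0 e).1 hEn
      have hnP : e ∉ P := by
        intro h3
        exact hne (mem_filter.2 ⟨h3, hEn'.1⟩)
      by_cases hps : ps0 (tE e) = 0
      · dsimp only
        rw [hps]
        simp
      · by_cases hh0 : h (mE e / Y) = 0
        · dsimp only
          rw [hh0]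
          simp
        · exfalso
          apply hnP
          have a1 := qds_nm_pos hEn'.2.2.1
          have a2 := qds_nm_pos hEn'.2.2.2
          obtain ⟨s1, s2, s3, s4⟩ := qds_sqrt a1 a2 (qds_ps0_ne hps)
          have hdet : 0 < det e.1 e.2 := by
            rw [hEn'.1]
            exact_mod_cast hn0
          obtain ⟨-, -, -, -, g5, -⟩ := qds_geo hEn'.2.1 hdet
          have g6 : ((det e.1 e.2 : ℤ) : ℝ) = n := by
            rw [hEn'.1]
            norm_cast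
          rw [g6] at g5
          have g7 : ((dot e.1 e.2 : ℤ) : ℝ) ≤ h2 * Y := hm
          have g8 : 2 * (h2 * Y + N) ≤ 3 * h2 * Y := by nlinarith
          rw [hP, mem_product, mem_PV, mem_PV]
          exact ⟨⟨by linarith, hEn'.2.2.1⟩, ⟨by linarith, hEn'.2.2.2⟩⟩
    · intro e he hne
      rw [mem_filter, hP, mem_product, mem_PV, mem_PV] at he
      obtain ⟨⟨⟨-, p1⟩, -, p2⟩, hdet⟩ := he
      rw [mem_filter, mem_EN hn0, En_iff hn0] at hne
      rw [hT]
      dsimp only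
      by_cases hdot : 0 < dot e.1 e.2
      · by_cases hm : mE e ≤ h2 * Y
        · have hnc : ¬ hc n e := fun h3 => hne ⟨⟨⟨hdet, hdot, p1, p2⟩, hm⟩, h3⟩
          have hK : qdsK d e.1 e.2 = 0 := by
            unfold qdsK
            rw [if_neg]
            rintro ⟨-, h4⟩
            apply hnc
            intro h5
            exact h4 ((hd4 e hdet).2 h5)
          rw [hK]
          simp
        · have hz : h (mE e / Y) = 0 := by
            apply hh.hi
            rw [le_div_iff₀ hY0]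
            exact (not_le.1 hm).le
          unfold qdsT
          rw [hz]
          simp
      · unfold qdsT
        rw [if_neg (fun h3 => hdot h3.1)]
        simp
    · intro e he he'
      rw [mem_filter, mem_EN hn0] at he
      obtain ⟨⟨hEn, hm⟩, hhc⟩ := he
      have hdet := hEn.1
      have hdot := hEn.2.1
      have hK : qdsK d e.1 e.2 = ((kap n : ℝ) : ℂ) := by
        unfold qdsK kap
        rw [if_pos ⟨hdd e hdet, fun h4 => hhc ((hd4 e hdet).1 h4)⟩]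
        by_cases h4 : 4 ∣ n
        · rw [if_pos ((hd4 e hdet).2 h4), if_pos h4]
          norm_num
        · rw [if_neg (fun h5 => h4 ((hd4 e hdet).1 h5)), if_neg h4]
          norm_num
      have hTT : qdsT h N Y e = ww ((n : ℝ) / N) * h (mE e / Y) ^ 2 * ps0 (tE e) := by
        unfold qdsT
        rw [if_pos, hdet, Int.cast_natCast]
        · rw [hdet]
          refine ⟨hdot, ?_, ?_⟩
          · exact_mod_cast hn.1
          · exact_mod_cast hn.2
      rw [hT]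
      dsimp only
      rw [hK, hTT]
      push_cast
      ring
  · symm
    apply sum_eq_zero
    intro e he
    rw [mem_filter] at he
    have hK : qdsK d e.1 e.2 = 0 := by
      unfold qdsK
      rw [if_neg]
      rintro ⟨h3, -⟩
      apply hdn
      rw [he.2] at h3
      exact Int.natCast_dvd_natCast.1 h3
    rw [hT]
    dsimp only
    rw [hK]
    simp

/-- pairs with a small determinant -/
def qdsBad (h2 η : ℝ) (N : ℕ) (Y : ℝ) (e : G × G) : Prop :=
  0 < dot e.1 e.2 ∧ 1 ≤ det e.1 e.2 ∧ ((det e.1 e.2 : ℤ) : ℝ) < η * N ∧ |tE e| ≤ 1 ∧ mE e ≤ h2 * Y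

open Classical in
theorem qds_bad {C h2 η : ℝ} (hC : 0 < C) (hη : 0 < η) (hη1 : η ≤ 1) (h2p : 1 ≤ h2)
    (hcnt : ∀ n : ℕ, 0 < n → ∀ x : ℝ, (n : ℝ) ≤ x → (((EN n x).filter (fun e => |tE e| ≤ 1)).card : ℝ) ≤ C * x)
    {N : ℕ} {Y : ℝ} (hY : (N : ℝ) ≤ Y) (X : ℝ) :
    (((PV X ×ˢ PV X).filter (qdsBad h2 η N Y)).card : ℝ) ≤ η * N * (C * (h2 * Y)) := by
  have hN0 : (0 : ℝ) ≤ N := Nat.cast_nonneg _
  have hsub : (PV X ×ˢ PV X).filter (qdsBad h2 η N Y) ⊆
      (Icc 1 ⌊η * N⌋₊).biUnion (fun n => (EN n (h2 * Y)).filter (fun e => |tE e| ≤ 1)) := by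
    intro e he
    rw [mem_filter, mem_product, mem_PV, mem_PV] at he
    obtain ⟨⟨⟨-, p1⟩, -, p2⟩, b1, b2, b3, b4, b5⟩ := he
    rw [mem_biUnion]
    have hd0 : det e.1 e.2 = (((det e.1 e.2).toNat : ℕ) : ℤ) := by
      rw [Int.toNat_of_nonneg (by linarith)]
    have hn0 : 0 < (det e.1 e.2).toNat := by omega
    refine ⟨(det e.1 e.2).toNat, ?_, ?_⟩
    · rw [mem_Icc]
      refine ⟨hn0, ?_⟩
      apply Nat.le_floor
      have h3 : (((det e.1 e.2).toNat : ℕ) : ℝ) = ((det e.1 e.2 : ℤ) : ℝ) := by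
        have := congrArg (fun z : ℤ => (z : ℝ)) hd0
        simp only [Int.cast_natCast] at this
        exact this.symm
      rw [h3]
      exact b3.le
    · rw [mem_filter, mem_EN hn0, En_iff hn0]
      exact ⟨⟨⟨hd0, b1, p1, p2⟩, b5⟩, b4⟩
  have h3 : (((PV X ×ˢ PV X).filter (qdsBad h2 η N Y)).card : ℝ) ≤
      ∑ n ∈ Icc 1 ⌊η * N⌋₊, (((EN n (h2 * Y)).filter (fun e => |tE e| ≤ 1)).card : ℝ) := by
    have := (card_le_card hsub).trans card_biUnion_le
    exact_mod_cast this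
  refine h3.trans ?_
  have hY0 : 0 ≤ Y := hN0.trans hY
  refine (sum_le_card_nsmul _ _ (C * (h2 * Y)) ?_).trans ?_
  · intro n hn
    rw [mem_Icc] at hn
    apply hcnt n hn.1
    have h4 : (n : ℝ) ≤ η * N := (Nat.cast_le.2 hn.2).trans (Nat.floor_le (by positivity))
    have h5 := mul_le_mul_of_nonneg_right hη1 hN0
    have h6 := mul_le_mul_of_nonneg_right h2p hY0
    linarith only [h4, h5, h6, hY]
  · rw [nsmul_eq_mul, Nat.card_Icc, Nat.add_sub_cancel]
    exact mul_le_mul_of_nonneg_right (Nat.floor_le (by positivity)) (by positivity)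

/-- comparison of the weights -/
theorem qds_cmp {h : ℝ → ℝ} {h1 h2 : ℝ} (hh : HF h h1 h2) {η : ℝ} (hη : 0 < η) {N : ℕ} (hN : 1 ≤ N)
    {Y δ : ℝ} (hY0 : 0 < Y) (hY1 : 2 * (N : ℝ) ≤ h1 * Y) (hY2 : (N : ℝ) / (h1 * Y) < Real.pi / 2)
    (hY3 : 2 * (N : ℝ) / (h1 * Y) < δ) (hY4 : (N : ℝ) / Y < δ)
    (hw : ∀ s s' : ℝ, |s - s'| < δ → |qdsW η s - qdsW η s'| < η / 4)
    (hhu : ∀ s s' : ℝ, |s - s'| < δ → |h s - h s'| < η / 4) (e : G × G) (he1 : Prim e.1) (he2 : Prim e.2) :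
    (|qdsT h N Y e - qdsF h η (h1 / 2) (nm e.1 / Y) (nm e.2 / Y) (Y * ang e.1 e.2 / N)| ≤ η ∧
      h1 / 4 * Y ≤ nm e.1 ∧ h1 / 4 * Y ≤ nm e.2 ∧ |ang e.1 e.2| ≤ 2 / h1 * N / Y) ∨
    (|qdsT h N Y e - qdsF h η (h1 / 2) (nm e.1 / Y) (nm e.2 / Y) (Y * ang e.1 e.2 / N)| ≤ 1 + η ∧
      h1 / 4 * Y ≤ nm e.1 ∧ h1 / 4 * Y ≤ nm e.2 ∧ |ang e.1 e.2| ≤ 2 / h1 * N / Y ∧ qdsBad h2 η N Y e) ∨
    (|qdsT h N Y e - qdsF h η (h1 / 2) (nm e.1 / Y) (nm e.2 / Y) (Y * ang e.1 e.2 / N)| ≤ 0) := by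
  have h1p := hh.pos
  have hN' : (0 : ℝ) < N := by exact_mod_cast hN
  have a1 := qds_nm_pos he1
  have a2 := qds_nm_pos he2
  have hx : 0 < (nm e.1 : ℝ) / Y := by positivity
  have hx' : 0 < (nm e.2 : ℝ) / Y := by positivity
  set ρ := Real.sqrt ((nm e.1 : ℝ) * nm e.2) with hρ
  have hρ0 : 0 < ρ := Real.sqrt_pos.2 (by positivity)
  have hs1 : Real.sqrt ((nm e.1 : ℝ) / Y * (nm e.2 / Y)) = ρ / Y := by
    rw [hρ, ← Real.sqrt_sq hY0.le, ← Real.sqrt_div' _ (by positivity), Real.sqrt_sq hY0.le]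
    congr 1
    field_simp
  have hlog : Real.log ((nm e.2 : ℝ) / Y) - Real.log ((nm e.1 : ℝ) / Y) = tE e := by
    unfold tE
    rw [Real.log_div a2.ne' hY0.ne', Real.log_div a1.ne' hY0.ne']
    ring
  have hs2 : ρ / Y * (Y * ang e.1 e.2 / N) = ρ * ang e.1 e.2 / N := by
    field_simp
  rw [qdsF_eq hh hη _ hx hx', hs1, hlog, hs2]
  by_cases hps : ps0 (tE e) = 0
  · right
    right
    unfold qdsT
    rw [hps]
    simp
  have ht1 := qds_ps0_ne hps
  obtain ⟨s1, s2, s3, s4⟩ := qds_sqrt a1 a2 ht1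
  rw [← hρ] at s1 s2 s3 s4
  by_cases hpos : 0 < dot e.1 e.2 ∧ 0 < det e.1 e.2
  · obtain ⟨hdot, hdet⟩ := hpos
    obtain ⟨g1, g2, g3, g4, g5, g6⟩ := qds_geo hdot hdet
    rw [← hρ] at g2 g4 g5 g6
    have hmE : mE e = ((dot e.1 e.2 : ℤ) : ℝ) := rfl
    have hdot' : (0 : ℝ) < ((dot e.1 e.2 : ℤ) : ℝ) := by exact_mod_cast hdot
    have hdet' : (1 : ℝ) ≤ ((det e.1 e.2 : ℤ) : ℝ) := by exact_mod_cast hdet
    rw [← hmE] at g3 g4 g5 g6 hdot'
    set y := ((det e.1 e.2 : ℤ) : ℝ) with hy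
    set φ := ang e.1 e.2 with hφ
    by_cases hcase : y < N ∧ h1 * Y / 2 ≤ mE e
    · obtain ⟨k1, k2⟩ := hcase
      have hA1 : h1 / 4 * Y ≤ nm e.1 := by linarith only [k2, g4, s1]
      have hA2 : h1 / 4 * Y ≤ nm e.2 := by linarith only [k2, g4, s2]
      have hA3 : |φ| ≤ 2 / h1 * N / Y := by
        rw [abs_of_pos g1, div_mul_eq_mul_div, div_div, le_div_iff₀ (mul_pos h1p hY0)]
        have g7 := mul_le_mul_of_nonneg_left k2 g1.le
        linarith only [g7, g3, k1]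
      -- closeness of arguments
      have d1 : |mE e / Y - ρ / Y| < δ := by
        rw [← sub_div, abs_div, abs_of_pos hY0, abs_sub_comm, abs_of_nonneg (sub_nonneg.2 g4)]
        refine lt_of_le_of_lt ?_ hY4
        apply div_le_div_of_nonneg_right _ hY0.le
        linarith only [g5, k1]
      have d2 : |y / N - ρ * φ / N| < δ := by
        rw [← sub_div, abs_div, abs_of_pos hN', abs_sub_comm, abs_of_nonneg (sub_nonneg.2 g2)]
        refine lt_of_le_of_lt ?_ hY3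
        rw [div_le_div_iff₀ hN' (mul_pos h1p hY0)]
        have q1 : (ρ * φ - y) * (h1 * Y / 2) ≤ y ^ 2 := by
          refine le_trans ?_ g6
          exact mul_le_mul_of_nonneg_left k2 (sub_nonneg.2 g2)
        have hy0 : 0 ≤ y := zero_le_one.trans hdet'
        have q2 : y ^ 2 ≤ (N : ℝ) * N := by
          rw [pow_two]
          exact mul_le_mul k1.le k1.le hy0 hN'.le
        linarith only [q1, q2]
      have w1 := hw _ _ d2
      have w2 := hhu _ _ d1
      have hwn := qdsW_nn η (y / N)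
      have hwn' := qdsW_nn η (ρ * φ / N)
      have hw1' := qdsW_le1 η (ρ * φ / N)
      have hb0 := hh.nn (mE e / Y)
      have hb1 := hh.le (mE e / Y)
      have hb0' := hh.nn (ρ / Y)
      have hb1' := hh.le (ρ / Y)
      have hp0 := qds_ps0_nn (tE e)
      have hp1 := qds_ps0_le (tE e)
      have hmain : |qdsW η (y / N) * h (mE e / Y) ^ 2 * ps0 (tE e) -
          qdsW η (ρ * φ / N) * h (ρ / Y) ^ 2 * ps0 (tE e)| ≤ η := by
        rw [← sub_mul, abs_mul, abs_of_nonneg hp0]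
        refine (mul_le_of_le_one_right (abs_nonneg _) hp1).trans ?_
        have e1 : qdsW η (y / N) * h (mE e / Y) ^ 2 - qdsW η (ρ * φ / N) * h (ρ / Y) ^ 2 =
            (qdsW η (y / N) - qdsW η (ρ * φ / N)) * h (mE e / Y) ^ 2 +
              qdsW η (ρ * φ / N) * ((h (mE e / Y) - h (ρ / Y)) * (h (mE e / Y) + h (ρ / Y))) := by ring
        rw [e1]
        refine (abs_add_le _ _).trans ?_
        rw [abs_mul, abs_mul, abs_mul, abs_of_nonneg (sq_nonneg (h (mE e / Y))), abs_of_nonneg hwn',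
          abs_of_nonneg (add_nonneg hb0 hb0')]
        have t1 : |qdsW η (y / N) - qdsW η (ρ * φ / N)| * h (mE e / Y) ^ 2 ≤ η / 4 := by
          refine (mul_le_of_le_one_right (abs_nonneg _) ?_).trans w1.le
          exact pow_le_one₀ hb0 hb1
        have t2 : qdsW η (ρ * φ / N) * (|h (mE e / Y) - h (ρ / Y)| * (h (mE e / Y) + h (ρ / Y))) ≤
            1 * (η / 4 * 2) := by
          apply mul_le_mul hw1' _ (mul_nonneg (abs_nonneg _) (add_nonneg hb0 hb0')) zero_le_one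
          exact mul_le_mul w2.le (by linarith only [hb1, hb1']) (add_nonneg hb0 hb0')
            (by linarith only [hη])
        linarith only [t1, t2, hη]
      by_cases hsm : y < η * N
      · -- small determinant
        by_cases hh0 : h (mE e / Y) = 0
        · left
          have hT : qdsT h N Y e = 0 := by
            unfold qdsT
            rw [hh0]
            simp
          rw [hh0] at hmain
          rw [hT]
          refine ⟨?_, hA1, hA2, hA3⟩
          have e0 : qdsW η (y / N) * (0 : ℝ) ^ 2 * ps0 (tE e) = 0 := by ring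
          rw [e0] at hmain
          exact hmain
        · right
          left
          refine ⟨?_, hA1, hA2, hA3, hdot, hdet, hsm, ht1.le, ?_⟩
          · have hT : qdsT h N Y e = ww (y / N) * h (mE e / Y) ^ 2 * ps0 (tE e) := by
              unfold qdsT
              rw [if_pos]
              refine ⟨hdot, hdet, ?_⟩
              have : ((det e.1 e.2 : ℤ) : ℝ) < (N : ℤ) := k1
              exact_mod_cast this.le
            have e1 : ww (y / N) * h (mE e / Y) ^ 2 * ps0 (tE e) - qdsW η (ρ * φ / N) * h (ρ / Y) ^ 2 * ps0 (tE e) =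
                (ww (y / N) - qdsW η (y / N)) * (h (mE e / Y) ^ 2 * ps0 (tE e)) +
                (qdsW η (y / N) * h (mE e / Y) ^ 2 * ps0 (tE e) -
                  qdsW η (ρ * φ / N) * h (ρ / Y) ^ 2 * ps0 (tE e)) := by ring
            rw [hT, e1]
            refine (abs_add_le _ _).trans (add_le_add ?_ hmain)
            have t1 := qdsW_le η (y / N)
            have t2 := ww_props.2.2.1 (y / N)
            have t3 : h (mE e / Y) ^ 2 * ps0 (tE e) ≤ 1 := by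
              apply mul_le_one₀ (pow_le_one₀ hb0 hb1) hp0 hp1
            rw [abs_mul, abs_of_nonneg (sub_nonneg.2 t1),
              abs_of_nonneg (mul_nonneg (sq_nonneg (h (mE e / Y))) hp0)]
            exact mul_le_one₀ (by linarith only [t2, hwn]) (mul_nonneg (sq_nonneg (h (mE e / Y))) hp0) t3
          · by_contra hc
            apply hh0
            apply hh.hi
            rw [le_div_iff₀ hY0]
            exact (not_le.1 hc).le
      · left
        refine ⟨?_, hA1, hA2, hA3⟩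
        have hT : qdsT h N Y e = qdsW η (y / N) * h (mE e / Y) ^ 2 * ps0 (tE e) := by
          unfold qdsT
          rw [if_pos, qdsW_eq hη]
          · rw [le_div_iff₀ hN']
            exact not_lt.1 hsm
          · refine ⟨hdot, hdet, ?_⟩
            have : ((det e.1 e.2 : ℤ) : ℝ) < (N : ℤ) := k1
            exact_mod_cast this.le
        rw [hT]
        exact hmain
    · right
      right
      have hT : qdsT h N Y e = 0 := by
        by_contra hne
        apply hcase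
        unfold qdsT at hne
        split_ifs at hne with hif
        · have n12 := left_ne_zero_of_mul hne
          have n1 := left_ne_zero_of_mul n12
          have n2 : h (mE e / Y) ≠ 0 := by
            intro h0
            apply right_ne_zero_of_mul n12
            rw [h0]
            norm_num
          constructor
          · by_contra hc
            apply n1
            apply ww_props.2.2.2
            refine le_trans ?_ (le_abs_self _)
            rw [le_div_iff₀ hN', one_mul]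
            exact not_lt.1 hc
          · by_contra hc
            apply n2
            apply hh.lo
            rw [div_le_iff₀ hY0]
            have : 0 < h1 * Y := by positivity
            linarith [not_le.1 hc]
        · exact (hne rfl).elim
      have hF : qdsW η (ρ * φ / N) * h (ρ / Y) ^ 2 * ps0 (tE e) = 0 := by
        by_contra hne
        apply hcase
        have n12 := left_ne_zero_of_mul hne
        have n1 := left_ne_zero_of_mul n12
        have n2 : h (ρ / Y) ≠ 0 := by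
          intro h0
          apply right_ne_zero_of_mul n12
          rw [h0]
          norm_num
        have m1 : ρ * φ < N := by
          by_contra hc
          apply n1
          apply qdsW_hi
          rw [le_div_iff₀ hN', one_mul]
          exact not_lt.1 hc
        have m2 : h1 * Y < ρ := by
          by_contra hc
          apply n2
          apply hh.lo
          rw [div_le_iff₀ hY0]
          exact not_lt.1 hc
        constructor
        · linarith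
        · linarith
      rw [hT, hF]
      simp
  · right
    right
    have hT : qdsT h N Y e = 0 := by
      unfold qdsT
      rw [if_neg]
      rintro ⟨k1, k2, -⟩
      exact hpos ⟨k1, by linarith⟩
    have hF : qdsW η (ρ * ang e.1 e.2 / N) * h (ρ / Y) ^ 2 * ps0 (tE e) = 0 := by
      by_contra hne
      apply hpos
      have n12 := left_ne_zero_of_mul hne
      have n1 := left_ne_zero_of_mul n12
      have n2 : h (ρ / Y) ≠ 0 := by
        intro h0
        apply right_ne_zero_of_mul n12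
        rw [h0]
        norm_num
      have m1 : ρ * ang e.1 e.2 < N := by
        by_contra hc
        apply n1
        apply qdsW_hi
        rw [le_div_iff₀ hN', one_mul]
        exact not_lt.1 hc
      have m2 : h1 * Y < ρ := by
        by_contra hc
        apply n2
        apply hh.lo
        rw [div_le_iff₀ hY0]
        exact not_lt.1 hc
      have m3 : 0 < ang e.1 e.2 := by
        by_contra hc
        apply n1
        apply qdsW_lo hη
        apply div_nonpos_of_nonpos_of_nonneg _ hN'.le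
        exact mul_nonpos_of_nonneg_of_nonpos hρ0.le (not_lt.1 hc)
      apply qds_geo2 (qds_Prim_ne he1) (qds_Prim_ne he2) m3
      refine lt_trans ?_ hY2
      rw [lt_div_iff₀ (mul_pos h1p hY0)]
      have m4 := mul_le_mul_of_nonneg_left m2.le m3.le
      linarith only [m4, m1]
    rw [hT, hF]
    simp

/-- PROOF. By `En_iff` the pairs `e ∈ EN n (h2 Y)`, `1 ≤ n ≤ N`, are the pairs `(V, V')` of primitive vectors with `1 ≤ det V V' ≤ N`, `0 < dot ≤ h2 Y`, so the sum is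
`S = ∑ κ(V, V') f(nm V) conj f(nm V') ww(det/N) h(dot/Y)^2 ps0(tE)` over these pairs, `κ(V, V') = 1_(d ∣ det) kap(det) 1_(4 ∣ det → cg 4 V' V)` (`kap` of an integer: 2 if `4 ∣ det`, else 1), periodic modulo `D = 4 d`, `‖κ‖ ≤ 2`.
Let `0 < η < 1` and `F x x' σ = w(sqrt(x x') σ) h(sqrt(x x'))^2 ps0(log x' - log x)` for `x, x' > 0` (zero otherwise), `w(s) = ww(s) * min 1 (max 0 (s/η))`: continuous (`ww_props`, `h = 0` near `0`), with `h1 < sqrt(x x') < h2` and `|log x' - log x| < 1` on the support, so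
`c0 = h1 exp(-1/2)`, `C0 = h2 exp(1/2)`, `B = 1/h1` are admissible. `arcpair` bounds the sum with `F`. Comparison of the two weights, for a pair with `F ≠ 0` or with weight `≠ 0`: `φ = ang V V'`, `ρ = sqrt(nm V nm V')`, `dot = ρ cos φ`, `det = ρ sin φ`. If `F ≠ 0`: `0 < φ ≤ B N / Y`, so
(`Y` large) `dot > 0`, `det > 0`, `det ≤ ρ φ < N`: the pair is in the range of `S`. In the range of `S` with `h(dot/Y) ≠ 0`: `dot ≥ h1 Y`, `0 < tan φ = det/dot ≤ N/(h1 Y)`. In both cases `φ → 0` uniformly, `dot/Y - ρ/Y → 0` and `det/N - ρ φ/N → 0` uniformly as `Y → ∞` (`N` fixed, `ρ/Y` bounded), and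
`sqrt(x x') = ρ/Y`, `sqrt(x x') σ = ρ φ / N`; so by uniform continuity the weights differ by at most `η` for pairs with `det ≥ η N` (there `w(det/N) = ww(det/N)`) and by at most `1` otherwise. The number of pairs in question (norms between `c0 Y/2` and `2 C0 Y`, `|φ| ≤ 2 B N/Y`) is at most `C N Y`
(`cntA`), and those with `1 ≤ det ≤ η N` (`+` small change) are at most `η N * C Y` (`cnt` for each `n ≤ η N`, `B = 2`). So `‖S - (sum with F)‖ ≤ C' η N Y`. Choose `η`, then `N0` from `arcpair`. -/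
theorem qds (f : ℕ → ℂ) (hf : ∀ n, ‖f n‖ ≤ 1) (hM : MRP f) : QdSmall f := by
  classical
  intro d hd h h1 h2 hh ε hε
  have h1p := hh.pos
  have h2p := hh.one
  by_cases h12 : h1 ≤ h2
  swap
  · -- trivial: `h = 0`
    have hz : ∀ y, h y = 0 := by
      intro y
      rcases le_total y h1 with h3 | h3
      · exact hh.lo y h3
      · exact hh.hi y (by linarith)
    refine ⟨0, fun N _ => ?_⟩
    filter_upwards [eventually_ge_atTop 0] with Y hY
    have h0 : ∑ n ∈ (Icc 1 N).filter (fun n => d ∣ n), ((kap n * ww ((n : ℝ) / N) : ℝ) : ℂ) *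
      Qs f n (h2 * Y) (fun y t => ((h y ^ 2 * ps0 t : ℝ) : ℂ)) Y = 0 := by
      apply sum_eq_zero
      intro n _
      have : Qs f n (h2 * Y) (fun y t => ((h y ^ 2 * ps0 t : ℝ) : ℂ)) Y = 0 := by
        unfold Qs
        apply sum_eq_zero
        intro e _
        dsimp only
        rw [hz]
        simp
      rw [this, mul_zero]
    rw [h0, norm_zero]
    positivity
  obtain ⟨C, hC, hcntA⟩ := cntA (h1 / 4) (3 * h2) (2 / h1) (by linarith) (by linarith) (by positivity)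
  obtain ⟨C1, hC1, hcnt⟩ := cnt 1
  set K : ℝ := C + 2 * C1 * h2 with hK
  have hKp : 0 < K := by positivity
  set η : ℝ := min 1 (ε / (4 * K)) with hηd
  have hη : 0 < η := lt_min one_pos (by positivity)
  have hη1 : η ≤ 1 := min_le_left _ _
  have hη2 : η * (4 * K) ≤ ε := by
    have := min_le_right 1 (ε / (4 * K))
    rwa [← hηd, le_div_iff₀ (by positivity)] at this
  obtain ⟨N0, hN0⟩ := arcpair f hf hM (4 * d) (by omega) (qdsK d) (qdsK_bd d) (qdsK_per d) (h1 / 2) (3 * h2) (1 / h1)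
    (by linarith) (by linarith) (by positivity) (qdsF h η (h1 / 2)) (qdsF_cont hh.cont η (by linarith))
    (qdsF_van hh hη) (ε / 2) (by linarith)
  obtain ⟨δ1, hδ1, hw⟩ := Metric.uniformContinuous_iff.1 (qdsW_uc η hη) (η / 4) (by linarith)
  obtain ⟨δ2, hδ2, hhu⟩ := Metric.uniformContinuous_iff.1 (qds_huc hh) (η / 4) (by linarith)
  set δ := min δ1 δ2 with hδd
  have hδ : 0 < δ := lt_min hδ1 hδ2
  have hw' : ∀ s s' : ℝ, |s - s'| < δ → |qdsW η s - qdsW η s'| < η / 4 := by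
    intro s s' hs
    have := hw (a := s) (b := s') (by rw [Real.dist_eq]; exact hs.trans_le (min_le_left _ _))
    rwa [Real.dist_eq] at this
  have hhu' : ∀ s s' : ℝ, |s - s'| < δ → |h s - h s'| < η / 4 := by
    intro s s' hs
    have := hhu (a := s) (b := s') (by rw [Real.dist_eq]; exact hs.trans_le (min_le_right _ _))
    rwa [Real.dist_eq] at this
  refine ⟨max N0 1, fun N hN => ?_⟩
  have hN1 : 1 ≤ N := (le_max_right _ _).trans hN
  have hN' : (1 : ℝ) ≤ N := by exact_mod_cast hN1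
  have hl1 : Tendsto (fun Y : ℝ => (N : ℝ) / (h1 * Y)) atTop (nhds 0) := by
    have h3 : Tendsto (fun Y : ℝ => ((N : ℝ) / h1) / Y) atTop (nhds 0) := tendsto_const_nhds.div_atTop tendsto_id
    refine h3.congr (fun Y => ?_)
    rw [div_div]
  have hl2 : Tendsto (fun Y : ℝ => 2 * (N : ℝ) / (h1 * Y)) atTop (nhds 0) := by
    have h3 : Tendsto (fun Y : ℝ => (2 * (N : ℝ) / h1) / Y) atTop (nhds 0) := tendsto_const_nhds.div_atTop tendsto_id
    refine h3.congr (fun Y => ?_)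
    rw [div_div]
  have hl3 : Tendsto (fun Y : ℝ => (N : ℝ) / Y) atTop (nhds 0) := tendsto_const_nhds.div_atTop tendsto_id
  filter_upwards [hN0 N ((le_max_left _ _).trans hN), hcntA N hN1, eventually_gt_atTop 0,
    eventually_ge_atTop (2 * (N : ℝ) / h1), eventually_ge_atTop (2 * (N : ℝ)),
    hl1.eventually_lt_const (by positivity : 0 < Real.pi / 2), hl2.eventually_lt_const hδ,
    hl3.eventually_lt_const hδ] with Y hA hB hY0 hY1 hY2 hY3 hY4 hY5
  have hY1' : 2 * (N : ℝ) ≤ h1 * Y := by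
    rw [div_le_iff₀ h1p] at hY1
    linarith
  rw [qds_sum f d hh hY2 hY0]
  set P := PV (3 * h2 * Y) with hP
  rw [← sum_product' P P (fun V V' => qdsK d V V' * (f (nm V) * (starRingEnd ℂ) (f (nm V'))) *
        ((qdsF h η (h1 / 2) (nm V / Y) (nm V' / Y) (Y * ang V V' / N) : ℝ) : ℂ))] at hA
  have hdec : ∑ e ∈ P ×ˢ P, qdsK d e.1 e.2 * (f (nm e.1) * (starRingEnd ℂ) (f (nm e.2))) * ((qdsT h N Y e : ℝ) : ℂ) =
      ∑ e ∈ P ×ˢ P, qdsK d e.1 e.2 * (f (nm e.1) * (starRingEnd ℂ) (f (nm e.2))) *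
        ((qdsF h η (h1 / 2) (nm e.1 / Y) (nm e.2 / Y) (Y * ang e.1 e.2 / N) : ℝ) : ℂ) +
      ∑ e ∈ P ×ˢ P, qdsK d e.1 e.2 * (f (nm e.1) * (starRingEnd ℂ) (f (nm e.2))) *
        ((qdsT h N Y e - qdsF h η (h1 / 2) (nm e.1 / Y) (nm e.2 / Y) (Y * ang e.1 e.2 / N) : ℝ) : ℂ) := by
    rw [← sum_add_distrib]
    apply sum_congr rfl
    intro e _
    rw [Complex.ofReal_sub]
    ring
  rw [hdec]
  refine (norm_add_le _ _).trans ?_
  have hsec : ‖∑ e ∈ P ×ˢ P, qdsK d e.1 e.2 * (f (nm e.1) * (starRingEnd ℂ) (f (nm e.2))) *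
        ((qdsT h N Y e - qdsF h η (h1 / 2) (nm e.1 / Y) (nm e.2 / Y) (Y * ang e.1 e.2 / N) : ℝ) : ℂ)‖ ≤
      ε / 2 * N * Y := by
    have hpt : ∀ e ∈ P ×ˢ P, ‖qdsK d e.1 e.2 * (f (nm e.1) * (starRingEnd ℂ) (f (nm e.2))) *
        ((qdsT h N Y e - qdsF h η (h1 / 2) (nm e.1 / Y) (nm e.2 / Y) (Y * ang e.1 e.2 / N) : ℝ) : ℂ)‖ ≤
        2 * ((if h1 / 4 * Y ≤ nm e.1 ∧ h1 / 4 * Y ≤ nm e.2 ∧ |ang e.1 e.2| ≤ 2 / h1 * N / Y then η else 0) +
          (if qdsBad h2 η N Y e then 2 else 0)) := by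
      intro e he
      rw [mem_product, hP, mem_PV, mem_PV] at he
      have hcm := qds_cmp hh hη hN1 hY0 hY1' hY3 hY4 hY5 hw' hhu' e he.1.2 he.2.2
      set DD := qdsT h N Y e - qdsF h η (h1 / 2) (nm e.1 / Y) (nm e.2 / Y) (Y * ang e.1 e.2 / N) with hDD
      have hKf : ‖qdsK d e.1 e.2 * (f (nm e.1) * (starRingEnd ℂ) (f (nm e.2)))‖ ≤ 2 := by
        rw [norm_mul, norm_mul, RCLike.norm_conj]
        have q1 := qdsK_bd d e.1 e.2
        have q2 : ‖f (nm e.1)‖ * ‖f (nm e.2)‖ ≤ 1 := mul_le_one₀ (hf _) (norm_nonneg _) (hf _)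
        have q3 : 0 ≤ ‖f (nm e.1)‖ * ‖f (nm e.2)‖ := by positivity
        exact (mul_le_mul q1 q2 q3 zero_le_two).trans (by rw [mul_one])
      rw [norm_mul, Complex.norm_real, Real.norm_eq_abs]
      refine mul_le_mul hKf ?_ (abs_nonneg _) (by norm_num)
      rcases hcm with ⟨m1, m2⟩ | ⟨m1, m2, m3, m4, m5⟩ | m1
      · rw [if_pos m2]
        have : (0 : ℝ) ≤ if qdsBad h2 η N Y e then 2 else 0 := by split_ifs <;> norm_num
        linarith
      · rw [if_pos ⟨m2, m3, m4⟩, if_pos m5]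
        linarith
      · have t1 : (0 : ℝ) ≤ if qdsBad h2 η N Y e then 2 else 0 := by split_ifs <;> norm_num
        have t2 : (0 : ℝ) ≤ if h1 / 4 * Y ≤ nm e.1 ∧ h1 / 4 * Y ≤ nm e.2 ∧ |ang e.1 e.2| ≤ 2 / h1 * N / Y then η
            else 0 := by
          split_ifs
          · exact hη.le
          · exact le_rfl
        linarith
    refine (norm_sum_le _ _).trans ((sum_le_sum hpt).trans ?_)
    rw [← mul_sum, sum_add_distrib, ← sum_filter, ← sum_filter, sum_const, sum_const, nsmul_eq_mul, nsmul_eq_mul]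
    have hb := qds_bad hC1 hη hη1 h2p hcnt (N := N) (Y := Y) (by linarith) (3 * h2 * Y)
    rw [← hP] at hb
    have hb2 : (((P ×ˢ P).filter (fun e : G × G => h1 / 4 * Y ≤ nm e.1 ∧ h1 / 4 * Y ≤ nm e.2 ∧
        |ang e.1 e.2| ≤ 2 / h1 * N / Y)).card : ℝ) ≤ C * N * Y := by
      refine le_trans (le_of_eq ?_) hB
      congr
    have hb1 : (((P ×ˢ P).filter (fun e : G × G => qdsBad h2 η N Y e)).card : ℝ) ≤ η * N * (C1 * (h2 * Y)) := by
      refine le_trans (le_of_eq ?_) hb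
      congr
    have t1 := mul_le_mul_of_nonneg_right hb2 hη.le
    have hNY : 0 ≤ (N : ℝ) * Y := by positivity
    have t3 : 2 * (C * N * Y * η + η * N * (C1 * (h2 * Y)) * 2) = η * (4 * K) / 2 * ((N : ℝ) * Y) := by
      rw [hK]
      ring
    have t4 : η * (4 * K) / 2 * ((N : ℝ) * Y) ≤ ε / 2 * ((N : ℝ) * Y) :=
      mul_le_mul_of_nonneg_right (by linarith) hNY
    calc _ ≤ 2 * (C * N * Y * η + η * N * (C1 * (h2 * Y)) * 2) := by linarith
      _ = η * (4 * K) / 2 * ((N : ℝ) * Y) := t3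
      _ ≤ ε / 2 * ((N : ℝ) * Y) := t4
      _ = ε / 2 * N * Y := by ring
  refine (add_le_add hA hsec).trans (le_of_eq ?_)
  ring

end Pool.Agent.OmEq

end

/-! ### from `Lib_MP_f1a94e_lp.MrpX` -/

section

/-!
# Piece MRPX: from odd primitive to primitive numbers, for families
-/

set_option autoImplicit false

namespace Pool.Agent.LPr

open Finset Pool.Agent.GaussMR Pool.Agent.OmAll Pool.Agent.OmEq MeasureTheory Filter

open Classical in
theorem mrpx_dec (g : ℕ → ℂ) (c : ℂ) (h2 : ∀ n, g (2 * n) = c * g n) {D : ℕ} (hD : 0 < D) (b : G)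
    (X δ θ : ℝ) :
    Sp g D b X δ θ = So g D b X δ θ +
      c * ∑ b1 ∈ (mrpoR D).filter (fun z => cg D (mrpoU * z) b),
        So g D b1 (X / 2) δ (θ - Complex.arg (mrpoU : ℂ)) := by
  unfold Sp
  rw [← sum_filter_add_sum_filter_not _ (fun z => Odd (nm z)), mrpo_even]
  congr 1
  · unfold So
    apply sum_congr _ (fun _ _ => rfl)
    ext z
    simp only [mem_filter, mem_PV, mem_V]
    constructor
    · rintro ⟨⟨⟨h1, h2⟩, h3, h3'⟩, h4⟩
      exact ⟨⟨h1, h4, h2⟩, h3, h3'⟩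
    · rintro ⟨⟨h1, h4, h2⟩, h3, h3'⟩
      exact ⟨⟨⟨h1, h2⟩, h3, h3'⟩, h4⟩
  · have hset : (V (X / 2)).filter (fun w => cg D (mrpoU * w) b ∧ arcIn θ δ (mrpoU * w)) =
        ((V (X / 2)).filter (fun w => arcIn (θ - Complex.arg (mrpoU : ℂ)) δ w)).filter
          (fun w => cg D (mrpoU * w) b) := by
      rw [filter_filter]
      apply filter_congr
      intro w hw
      rw [mem_V] at hw
      rw [mrpo_arc_mul mrpo_U_ne (ne_zero_of_odd hw.2.1), and_comm]
    rw [hset, mrpo_split hD _ (fun w => cg D (mrpoU * w) b) ?_, mul_sum]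
    · apply sum_congr rfl
      intro b1 _
      unfold So
      rw [mul_sum, filter_filter]
      refine sum_congr ?_ ?_
      · ext z
        simp only [mem_filter]
        constructor
        · rintro ⟨h2, h3, h4⟩
          exact ⟨h2, h4, h3⟩
        · rintro ⟨h2, h3, h4⟩
          exact ⟨h2, h4, h3⟩
      · intro z _
        rw [mrpo_nm, h2]
    · intro z w h h2
      refine cg_trans ?_ h2
      obtain ⟨⟨x, hx⟩, ⟨y, hy⟩⟩ := h
      rw [mrpo_mul, mrpo_mul]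
      refine ⟨⟨y - x, ?_⟩, ⟨-x - y, ?_⟩⟩
      · show w.re - w.im - (z.re - z.im) = _
        linear_combination hy - hx
      · show w.re + w.im - (z.re + z.im) = _
        linear_combination - hy - hx

/-- PROOF. As `mrp_of_mro` (MrpO.lean), but simpler (no condition modulo `R`): `PV X` is the disjoint union of `V X` and of the `mrpoU * w`, `w ∈ V (X / 2)` (`mrpo_even`, `mrpo_prim_mul`, `mrpo_prim_H`, `mrpo_nm`: `nm (mrpoU * w) = 2 nm w`).
The condition `cg D (mrpoU * w) b` is a union of classes of `w` modulo `D` (`mrpo_split`), `arcIn θ δ (mrpoU * w)` iff `arcIn (θ - π/4) δ w` (`mrpo_arc_mul`), `f (a X) (2 n) = c f (a X) n` eventually, `H / X = (H / 2) / (X / 2)`.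
So `‖Sp‖² ≤ (1 + D²) (‖So D b X‖² + ∑_(b' mod D) ‖So D b' (X/2) (H/X) (θ - π/4)‖²)`, `MROX` with `ε / (2 (1 + D²)^2)` (for `b` and all `b'`), `H0' = 2 max H0`, index `a X = (2 a) (X / 2)`; `mrpo_shift`, `mrpo_So_int`. -/
theorem mrpX (f : ℝ → ℕ → ℂ) (hf : ∀ X n, ‖f X n‖ ≤ 1) (c : ℂ) (hc : ‖c‖ ≤ 1)
    (h2 : ∀ᶠ X : ℝ in atTop, ∀ n : ℕ, f X (2 * n) = c * f X n) (hM : MROX f) : MRPX f := by
  classical
  intro D hD b ε hε
  have hD' : (1 : ℝ) ≤ D := by exact_mod_cast hD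
  set K : ℝ := (D : ℝ) * D with hK
  have hK1 : 1 ≤ K := by nlinarith
  have hK0 : 0 < K := by linarith
  set ε' : ℝ := ε / (4 * K ^ 2) with hε'
  have hε'0 : 0 < ε' := by positivity
  have key : ∀ᶠ H : ℝ in atTop, ∀ b1 ∈ mrpoR D, ∀ a : ℝ, 0 < a → ∀ᶠ X : ℝ in atTop,
      ∫ θ in (0 : ℝ)..(2 * Real.pi), ‖So (f (a * X)) D b1 X (H / X) θ‖ ^ 2 ≤ ε' * H ^ 2 := by
    rw [eventually_all_finset]
    intro b1 _
    obtain ⟨H0, -, h⟩ := hM D hD b1 ε' hε'0
    filter_upwards [eventually_ge_atTop H0] with H hH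
    exact h H hH
  have key2 := (tendsto_id.atTop_div_const (two_pos (α := ℝ))).eventually key
  obtain ⟨H0, hH0⟩ := eventually_atTop.1 key2
  obtain ⟨H1, hH1, hb⟩ := hM D hD b ε' hε'0
  refine ⟨max H0 H1, lt_max_of_lt_right hH1, fun H hH a ha => ?_⟩
  have k1 := hb H ((le_max_right _ _).trans hH) a ha
  have k2 := hH0 H ((le_max_left _ _).trans hH)
  simp only [id_eq] at k2
  have k2' := (eventually_all_finset _).2 fun b1 hb1 =>
    (tendsto_id.atTop_div_const (two_pos (α := ℝ))).eventually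
      (k2 b1 hb1 (2 * a) (by positivity))
  have k3 := (tendsto_id.const_mul_atTop ha).eventually h2
  filter_upwards [k1, k2', k3, eventually_gt_atTop 0] with X q1 q2 q3 hX1
  have hHX : H / 2 / (X / 2) = H / X := by
    field_simp
  have haX : 2 * a * (X / 2) = a * X := by ring
  simp only [id_eq, hHX, haX] at q2 q3
  set g := f (a * X) with hg
  set δ := H / X with hδ
  set s := Complex.arg (mrpoU : ℂ) with hs
  set T2 := (mrpoR D).filter (fun z => cg D (mrpoU * z) b) with hT2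
  have hcard2 : (T2.card : ℝ) ≤ K := by
    have h1 : T2.card ≤ D * D := (card_le_card (filter_subset _ _)).trans (mrpo_card D)
    rw [hK]
    exact_mod_cast h1
  -- pointwise bound
  have hpt : ∀ θ : ℝ, ‖Sp g D b X δ θ‖ ^ 2 ≤
      2 * ‖So g D b X δ θ‖ ^ 2 + 2 * K * ∑ b1 ∈ T2, ‖So g D b1 (X / 2) δ (θ - s)‖ ^ 2 := by
    intro θ
    have e1 : ‖Sp g D b X δ θ‖ ≤
        ‖So g D b X δ θ‖ + ∑ b1 ∈ T2, ‖So g D b1 (X / 2) δ (θ - s)‖ := by
      rw [mrpx_dec g c q3 hD]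
      refine (norm_add_le _ _).trans (add_le_add le_rfl ?_)
      rw [norm_mul]
      exact (mul_le_of_le_one_left (norm_nonneg _) hc).trans (norm_sum_le _ _)
    have e3 : (∑ b1 ∈ T2, ‖So g D b1 (X / 2) δ (θ - s)‖) ^ 2 ≤
        K * ∑ b1 ∈ T2, ‖So g D b1 (X / 2) δ (θ - s)‖ ^ 2 :=
      (sq_sum_le_card_mul_sum_sq).trans
        (mul_le_mul_of_nonneg_right hcard2 (sum_nonneg fun _ _ => by positivity))
    have e4 := pow_le_pow_left₀ (norm_nonneg _) e1 2
    nlinarith [sq_nonneg (‖So g D b X δ θ‖ - ∑ b1 ∈ T2, ‖So g D b1 (X / 2) δ (θ - s)‖)]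
  have hi1 : IntervalIntegrable (fun θ => ‖So g D b X δ θ‖ ^ 2) volume 0 (2 * Real.pi) := by
    have h := mrpo_So_int g D b X δ 0 0 (2 * Real.pi)
    simpa only [sub_zero] using h
  have hi2 : ∀ b1 ∈ T2, IntervalIntegrable (fun θ => ‖So g D b1 (X / 2) δ (θ - s)‖ ^ 2)
      volume 0 (2 * Real.pi) :=
    fun b1 _ => mrpo_So_int g D b1 (X / 2) δ s 0 (2 * Real.pi)
  have hI2 : IntervalIntegrable (fun θ => ∑ b1 ∈ T2, ‖So g D b1 (X / 2) δ (θ - s)‖ ^ 2)
      volume 0 (2 * Real.pi) := by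
    have := IntervalIntegrable.sum T2 hi2
    have e : (∑ i ∈ T2, fun θ => ‖So g D i (X / 2) δ (θ - s)‖ ^ 2) =
        fun θ => ∑ b1 ∈ T2, ‖So g D b1 (X / 2) δ (θ - s)‖ ^ 2 := by
      funext θ
      rw [Finset.sum_apply]
    rw [e] at this
    exact this
  have hR1 : IntervalIntegrable (fun θ => 2 * ‖So g D b X δ θ‖ ^ 2 +
      2 * K * ∑ b1 ∈ T2, ‖So g D b1 (X / 2) δ (θ - s)‖ ^ 2) volume 0 (2 * Real.pi) :=
    (hi1.const_mul _).add (hI2.const_mul _)
  have hpi : (0 : ℝ) ≤ 2 * Real.pi := by positivity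
  have hmeas : Measurable (fun θ => ‖Sp g D b X δ θ‖ ^ 2) := by
    have h : (fun θ => ‖Sp g D b X δ θ‖ ^ 2) = fun θ => ‖So g D b X δ θ +
      c * ∑ b1 ∈ T2, So g D b1 (X / 2) δ (θ - s)‖ ^ 2 := by
      funext θ
      rw [mrpx_dec g c q3 hD]
    rw [h]
    refine Measurable.pow_const (Measurable.norm ?_) 2
    refine Measurable.add (mrpo_So_meas g D b X δ) ?_
    refine Measurable.const_mul (Finset.measurable_sum _ fun b1 _ => ?_) _
    exact (mrpo_So_meas g D b1 (X / 2) δ).comp (measurable_id.sub_const s)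
  have hint : IntervalIntegrable (fun θ => ‖Sp g D b X δ θ‖ ^ 2) volume 0 (2 * Real.pi) := by
    refine hR1.mono_fun hmeas.aestronglyMeasurable (Eventually.of_forall fun θ => ?_)
    dsimp only
    rw [Real.norm_of_nonneg (by positivity)]
    exact (hpt θ).trans (le_abs_self _)
  have hmono := intervalIntegral.integral_mono_on hpi hint hR1 (fun θ _ => hpt θ)
  refine hmono.trans ?_
  rw [intervalIntegral.integral_add (hi1.const_mul _) (hI2.const_mul _),
    intervalIntegral.integral_const_mul, intervalIntegral.integral_const_mul,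
    intervalIntegral.integral_finsetSum hi2]
  have b2 : ∑ b1 ∈ T2, ∫ θ in (0 : ℝ)..(2 * Real.pi), ‖So g D b1 (X / 2) δ (θ - s)‖ ^ 2 ≤
      K * (ε' * (H / 2) ^ 2) := by
    refine (sum_le_card_nsmul _ _ (ε' * (H / 2) ^ 2) (fun b1 hb1 => ?_)).trans ?_
    · rw [mrpo_shift]
      exact q2 b1 (mem_filter.1 hb1).1
    · rw [nsmul_eq_mul]
      exact mul_le_mul_of_nonneg_right hcard2 (by positivity)
  have hfin : 2 * (ε' * H ^ 2) + 2 * K * (K * (ε' * (H / 2) ^ 2)) ≤ ε * H ^ 2 := by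
    have e1 : 4 * K ^ 2 * ε' = ε := by
      rw [hε']
      field_simp
    have e2 : 2 * K * (K * (ε' * (H / 2) ^ 2)) = (4 * K ^ 2 * ε') * H ^ 2 * (1 / 8) := by ring
    have e3 : 2 * (ε' * H ^ 2) ≤ (4 * K ^ 2 * ε') * H ^ 2 * (1 / 2) := by
      have e5 : 1 ≤ K ^ 2 := one_le_pow₀ hK1
      have e6 : 0 ≤ ε' * H ^ 2 := by positivity
      nlinarith [mul_le_mul_of_nonneg_right e5 e6]
    rw [e2]
    rw [e1] at e3 ⊢
    have e4 : 0 ≤ ε * H ^ 2 := by positivity
    linarith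
  refine le_trans ?_ hfin
  have hK2 : 0 ≤ 2 * K := by positivity
  exact add_le_add (mul_le_mul_of_nonneg_left q1 (by norm_num))
    (mul_le_mul_of_nonneg_left b2 hK2)

end Pool.Agent.LPr

end

/-! ### from `Lib_MP_f1a94e_ecc.Stage` -/

section

/-!
# one stage (port to complex completely multiplicative functions)
-/

set_option autoImplicit false

namespace Pool.Agent.GaussCM

open Pool.Agent.GaussMR

open Classical in
/-- the substitution `z = star w * z'` -/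
theorem sm_sub (F : G → ℂ) (hF : CM F) {w : G} (hw : Spl w) (X Y : ℝ) (k : ℤ) (hX : 0 ≤ X)
    (hYX : Y ≤ X) :
    F w * xi (-k) w * ∑ z ∈ (V Y).filter (fun z => star w ∣ z), F z * xi (-k) z =
      ∑ z ∈ (V (3 * X)).filter (fun z => ¬ w ∣ z ∧ (nm w : ℝ) * nm z ≤ Y),
        (F w * F (star w)) * (F z * xi (-k) z) := by
  have hw' : Spl (star w) := hw.conj
  have hw0 : w ≠ 0 := ne_zero_of_odd hw.odd
  have hw0' : star w ≠ 0 := ne_zero_of_odd hw'.odd
  have hnw1 : (1 : ℝ) ≤ nm w := by exact_mod_cast nm_pos hw0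
  rw [Finset.mul_sum]
  symm
  refine Finset.sum_bij (fun z _ => star w * z) ?_ ?_ ?_ ?_
  · intro z hz
    rw [Finset.mem_filter, mem_V] at hz
    obtain ⟨⟨h1, h2, h3⟩, h4, h5⟩ := hz
    rw [Finset.mem_filter, mem_V]
    refine ⟨⟨?_, odd_nm_mul.mpr ⟨hw'.odd, h2⟩, ?_⟩, dvd_mul_right _ _⟩
    · rw [nm_mul, nm_star]
      push_cast
      exact h5
    · refine (prim_mul_iff hw' h3).mpr ?_
      rwa [star_star]
  · intro z _ z' _ h
    exact mul_left_cancel₀ hw0' h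
  · intro z' hz'
    rw [Finset.mem_filter, mem_V] at hz'
    obtain ⟨⟨h1, h2, h3⟩, ⟨z, rfl⟩⟩ := hz'
    have hz2 : Prim z := (prim_of_mul h3).2
    refine ⟨z, ?_, rfl⟩
    rw [nm_mul, nm_star] at h1
    push_cast at h1
    rw [Finset.mem_filter, mem_V]
    refine ⟨⟨?_, (odd_nm_mul.mp h2).2, hz2⟩, ?_, h1⟩
    · have h5 : (0 : ℝ) ≤ nm z := Nat.cast_nonneg _
      have h6 : (nm z : ℝ) ≤ nm w * nm z := by nlinarith
      linarith
    · have := (prim_mul_iff hw' hz2).mp h3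
      rwa [star_star] at this
  · intro z hz
    rw [Finset.mem_filter, mem_V] at hz
    have hz1 := hz.1.2.1
    have e1 : F w * F (star w * z) = (F w * F (star w)) * F z := by
      rw [hF.mul (star w) z hw'.odd hz1]
      ring
    have e2 : xi (-k) w * xi (-k) (star w * z) = xi (-k) z := by
      rw [← xi_mul, ← mul_assoc, sm_mul_star, xi_natCast_mul _ (nm_pos hw0)]
    calc (F w * F (star w)) * (F z * xi (-k) z) = (F w * F (star w * z)) *
          (xi (-k) w * xi (-k) (star w * z)) := by rw [e1, e2]; ring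
      _ = _ := by ring

open Classical in
/-- weighted number of representations -/
noncomputable def smcC (F : G → ℂ) (P Q ρ X : ℝ) (z : G) : ℂ :=
  ∑ v ∈ Finset.range (nv Q ρ), ∑ w ∈ blk P Q ρ v,
    if ¬ w ∣ z ∧ (nm w : ℝ) * nm z ≤ X * Real.exp (-(v * ρ)) then F w * F (star w) else 0

theorem smcC_norm_le (F : G → ℂ) (hF : CM F) (P Q ρ X : ℝ) (z : G) :
    ‖smcC F P Q ρ X z‖ ≤ smc P Q ρ X z := by
  classical
  unfold smcC smc
  refine (norm_sum_le _ _).trans (Finset.sum_le_sum fun v _ => ?_)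
  refine (norm_sum_le _ _).trans (Finset.sum_le_sum fun w hw => ?_)
  split_ifs with h
  · have hsp := PP_spl (mem_blk.mp hw).1
    rw [norm_mul]
    exact mul_le_one₀ (hF.norm hsp.odd) (norm_nonneg _) (hF.norm hsp.conj.odd)
  · rw [norm_zero]

theorem sm_A2_eq (F : G → ℂ) (hF : CM F) (P Q ρ X : ℝ) (k : ℤ) (hρ : 0 < ρ) (hX : 0 ≤ X) :
    A2C F P Q ρ X k = ∑ z ∈ V (3 * X), (smcC F P Q ρ X z * F z) * xi (-k) z := by
  classical
  unfold A2C
  have h1 : ∀ v ∈ Finset.range (nv Q ρ), ∑ w ∈ blk P Q ρ v, F w * xi (-k) w *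
      ∑ z ∈ (V (X * Real.exp (-(v * ρ)))).filter (fun z => star w ∣ z), F z * xi (-k) z =
      ∑ w ∈ blk P Q ρ v, ∑ z ∈ V (3 * X),
        if ¬ w ∣ z ∧ (nm w : ℝ) * nm z ≤ X * Real.exp (-(v * ρ)) then
          (F w * F (star w)) * (F z * xi (-k) z) else 0 := by
    intro v _
    refine Finset.sum_congr rfl fun w hw => ?_
    have hsp := PP_spl (mem_blk.mp hw).1
    have hexp : Real.exp (-(v * ρ)) ≤ 1 := by
      rw [Real.exp_le_one_iff]
      have : (0 : ℝ) ≤ v * ρ := by positivity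
      linarith
    rw [sm_sub F hF hsp X _ k hX (by nlinarith), Finset.sum_filter]
  rw [Finset.sum_congr rfl h1]
  have h2 : ∀ v ∈ Finset.range (nv Q ρ), (∑ w ∈ blk P Q ρ v, ∑ z ∈ V (3 * X),
        if ¬ w ∣ z ∧ (nm w : ℝ) * nm z ≤ X * Real.exp (-(v * ρ)) then
          (F w * F (star w)) * (F z * xi (-k) z) else 0) = ∑ z ∈ V (3 * X), ∑ w ∈ blk P Q ρ v,
        if ¬ w ∣ z ∧ (nm w : ℝ) * nm z ≤ X * Real.exp (-(v * ρ)) then
          (F w * F (star w)) * (F z * xi (-k) z) else 0 := fun v _ => Finset.sum_comm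
  rw [Finset.sum_congr rfl h2, Finset.sum_comm]
  refine Finset.sum_congr rfl fun z _ => ?_
  unfold smcC
  rw [Finset.sum_mul, Finset.sum_mul]
  refine Finset.sum_congr rfl fun v _ => ?_
  rw [Finset.sum_mul, Finset.sum_mul]
  refine Finset.sum_congr rfl fun w _ => ?_
  split_ifs
  · ring
  · ring

/-- better bound for the non primitive terms: with `z = star w * z'` (`z'` primitive, `¬ w ∣ z'`, cf.
`prim_mul_iff`) one has `F w F z xi_{-k}(w z) = F z' xi_{-k}(z')` (`F w F (star w) = 1`,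
`w * star w = nm w` has direction `1`: `xi_natCast_mul`). So
`A2C = ∑_{z'} c(z') F z' xi_{-k}(z')`, `c(z')` = number of pairs `(v, w)`, `w ∈ blk v`, `¬ w ∣ z'`,
`nm w * nm z' ≤ X e^(-vρ)`; such pairs have `nm w ^ 2 * nm z' ≤ X e^ρ ≤ 3 X`, in particular all `z'` with
`c(z') ≠ 0` lie in `V (3 X)`. `large_sieve` on `V (3 X)`: `≤ C (T + 3 X) ∑ c(z')²`, and
`∑ c(z')² ≤ ∑_{w1, w2} #{z' ≠ 0 : nm z' ≤ 3 X / max(nm w1, nm w2)²} ≤ 2 ∑_{w2} ∑_{nm w1 ≤ nm w2} 27 X / (nm w2)²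
≤ 54 X ∑_{w2} 1 / nm w2 = 54 X Ls` (`card_ball_le`; the number of `w1` in `PP` with `nm w1 ≤ nm w2` is at
most `nm w2` because distinct elements have distinct norms, `PP_inj`). -/
theorem A2_small : ∃ C : ℝ, 0 < C ∧ ∀ (F : G → ℂ), CM F → ∀ (P Q ρ X : ℝ) (T : ℕ),
    2 ≤ P → 0 < ρ → ρ ≤ 1 → 1 ≤ X → (T : ℝ) ≤ X →
    ∑ k ∈ fr T, ‖A2C F P Q ρ X k‖ ^ 2 ≤ C * X ^ 2 * Ls P Q := by
  classical
  obtain ⟨C1, hC1, hls⟩ := large_sieve
  refine ⟨216 * C1, by positivity, ?_⟩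
  intro F hF P Q ρ X T hP hρ hρ1 hX hTX
  have hX0 : 0 < X := by linarith
  simp only [sm_A2_eq F hF P Q ρ X _ hρ hX0.le]
  refine (hls (3 * X) T (fun z => smcC F P Q ρ X z * F z) (by linarith)).trans ?_
  have h1 : ∑ z ∈ V (3 * X), ‖smcC F P Q ρ X z * F z‖ ^ 2 ≤ 54 * X * Ls P Q := by
    refine le_trans (Finset.sum_le_sum fun z hz => ?_) (sm_second P Q X (by linarith) hX0.le)
    have h2 : ‖smcC F P Q ρ X z * F z‖ ≤ smc P Q ρ X z := by
      rw [norm_mul]
      calc ‖smcC F P Q ρ X z‖ * ‖F z‖ ≤ ‖smcC F P Q ρ X z‖ * 1 :=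
            mul_le_mul_of_nonneg_left (hF.norm (mem_V.mp hz).2.1) (norm_nonneg _)
        _ = ‖smcC F P Q ρ X z‖ := mul_one _
        _ ≤ _ := smcC_norm_le F hF P Q ρ X z
    exact pow_le_pow_left₀ (norm_nonneg _) (h2.trans (smc_le P Q ρ X hρ hρ1 hX0.le z)) 2
  have h3 : 0 ≤ Ls P Q := Finset.sum_nonneg fun w _ => by positivity
  calc C1 * (T + 3 * X) * ∑ z ∈ V (3 * X), ‖smcC F P Q ρ X z * F z‖ ^ 2
      ≤ C1 * (X + 3 * X) * (54 * X * Ls P Q) := by
        apply mul_le_mul _ h1 (Finset.sum_nonneg fun _ _ => by positivity) (by positivity)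
        apply mul_le_mul_of_nonneg_left _ hC1.le
        linarith
    _ = 216 * C1 * X ^ 2 * Ls P Q := by ring

/-- as `stage` (Lib_MP_f1a94e_mr/Stage.lean), with `A2_small` in place of `A2_bound` -/
theorem stageM : ∃ C : ℝ, 0 < C ∧ ∀ (F : G → ℂ), CM F → ∀ (P Q ρ X : ℝ) (T : ℕ),
    2 ≤ P → P ≤ Q → Q ^ 20 ≤ X → 0 < ρ → ρ ≤ 1 → X ^ (-(1 / 4 : ℝ)) ≤ ρ → (T : ℝ) ≤ X →
    1 ≤ Ls P Q →
    ∑ k ∈ fr T, ‖(Ls P Q : ℂ) * fcC F X k - UZC F P Q ρ X k‖ ^ 2 ≤
      C * X ^ 2 * Ls P Q ^ 2 * (1 / Ls P Q + ρ) := by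
  classical
  obtain ⟨C1, hC1, hls⟩ := large_sieve
  obtain ⟨C2, hC2, htk⟩ := TK
  obtain ⟨C3, hC3, hann⟩ := annulus
  obtain ⟨C4, hC4, hA2s⟩ := A2_small
  refine ⟨3 * (4 * C1 * C2 + C4 + 16 * C1 * C3), by positivity, ?_⟩
  intro F hF P Q ρ X T hP hPQ hQX hρ hρ1 hXρ hTX hLs
  have hQ2 : 2 ≤ Q := hP.trans hPQ
  have hX1 : 1 ≤ X := (one_le_pow₀ (by linarith : (1 : ℝ) ≤ Q)).trans hQX
  have hX0 : 0 < X := by linarith
  have hLs0 : 0 < Ls P Q := by linarith
  set L := Ls P Q with hL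
  -- the three parts
  have hdec : ∀ k, (L : ℂ) * fcC F X k - UZC F P Q ρ X k =
      ∑ z ∈ V X, (F z * ((L - om P Q z : ℝ) : ℂ)) * xi (-k) z - A2C F P Q ρ X k -
        A3C F P Q ρ X k := by
    intro k
    rw [stage_id F hF P Q ρ X k (by linarith) hPQ hρ hX1]
    have e1 : ∑ z ∈ V X, (F z * ((L - om P Q z : ℝ) : ℂ)) * xi (-k) z =
        (L : ℂ) * fcC F X k - ∑ z ∈ V X, F z * (om P Q z : ℂ) * xi (-k) z := by
      rw [fcC, Finset.mul_sum, ← Finset.sum_sub_distrib]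
      refine Finset.sum_congr rfl fun z _ => ?_
      push_cast
      ring
    rw [e1]
    ring
  have h3 : ∀ a b c : ℂ, ‖a - b - c‖ ^ 2 ≤ 3 * (‖a‖ ^ 2 + ‖b‖ ^ 2 + ‖c‖ ^ 2) := by
    intro a b c
    have e1 : ‖a - b - c‖ ≤ ‖a‖ + ‖b‖ + ‖c‖ :=
      (norm_sub_le _ _).trans (add_le_add_left (norm_sub_le _ _) _)
    have e2 := pow_le_pow_left₀ (norm_nonneg _) e1 2
    nlinarith [sq_nonneg (‖a‖ - ‖b‖), sq_nonneg (‖b‖ - ‖c‖), sq_nonneg (‖a‖ - ‖c‖)]
  -- first part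
  have hA1 : ∑ k ∈ fr T, ‖∑ z ∈ V X, (F z * ((L - om P Q z : ℝ) : ℂ)) * xi (-k) z‖ ^ 2 ≤
      4 * C1 * C2 * X ^ 2 * L := by
    refine (hls X T (fun z => F z * ((L - om P Q z : ℝ) : ℂ)) hX1).trans ?_
    have e1 : ∑ z ∈ V X, ‖F z * ((L - om P Q z : ℝ) : ℂ)‖ ^ 2 ≤
        ∑ z ∈ V X, (om P Q z - L) ^ 2 := by
      refine Finset.sum_le_sum fun z hz => ?_
      rw [norm_mul, Complex.norm_real, Real.norm_eq_abs, mul_pow, sq_abs]
      have g1 : ‖F z‖ ^ 2 ≤ 1 := pow_le_one₀ (norm_nonneg _) (hF.norm (mem_V.mp hz).2.1)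
      calc ‖F z‖ ^ 2 * (L - om P Q z) ^ 2 ≤ 1 * (L - om P Q z) ^ 2 :=
            mul_le_mul_of_nonneg_right g1 (sq_nonneg _)
        _ = (om P Q z - L) ^ 2 := by ring
    have e0 : C1 * (T + X) * ∑ z ∈ V X, ‖F z * ((L - om P Q z : ℝ) : ℂ)‖ ^ 2 ≤
        C1 * (T + X) * ∑ z ∈ V X, (om P Q z - L) ^ 2 :=
      mul_le_mul_of_nonneg_left e1 (by positivity)
    refine e0.trans ?_
    have e2 := htk P Q X hP hPQ hQX
    have e3 : C2 * X * (L + 1) ≤ C2 * X * (2 * L) := by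
      gcongr
      linarith
    calc C1 * (T + X) * ∑ z ∈ V X, (om P Q z - L) ^ 2 ≤ C1 * (X + X) * (C2 * X * (2 * L)) := by
          have e4 : 0 ≤ ∑ z ∈ V X, (om P Q z - L) ^ 2 := Finset.sum_nonneg fun _ _ => sq_nonneg _
          gcongr
          exact e2.trans e3
      _ = 4 * C1 * C2 * X ^ 2 * L := by ring
  -- third part
  have hA3 : ∑ k ∈ fr T, ‖A3C F P Q ρ X k‖ ^ 2 ≤ 16 * C1 * C3 * X ^ 2 * L ^ 2 * ρ := by
    have hexp : Real.exp ρ ≤ 3 := by
      have := Real.exp_one_lt_d9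
      exact (Real.exp_le_exp.mpr hρ1).trans (by linarith)
    have hexp1 : 1 ≤ Real.exp ρ := Real.one_le_exp hρ.le
    have hXe : 1 ≤ X * Real.exp ρ := by nlinarith
    set a : G → ℂ := fun z => if z ∈ V X then 0 else F z * (mA P Q ρ X z : ℂ) with ha
    have hsub : V X ⊆ V (X * Real.exp ρ) := by
      intro z hz
      rw [mem_V] at hz ⊢
      exact ⟨hz.1.trans (by nlinarith), hz.2⟩
    have e1 : ∀ k, A3C F P Q ρ X k = ∑ z ∈ V (X * Real.exp ρ), a z * xi (-k) z := by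
      intro k
      rw [← Finset.sum_sdiff hsub, A3C]
      have e2 : ∑ z ∈ V X, a z * xi (-k) z = 0 := by
        refine Finset.sum_eq_zero fun z hz => ?_
        rw [ha]
        simp [hz]
      rw [e2, add_zero]
      refine Finset.sum_congr rfl fun z hz => ?_
      have e3 : z ∉ V X := (Finset.mem_sdiff.mp hz).2
      rw [ha]
      simp [e3]
    have e2 : ∑ z ∈ V (X * Real.exp ρ), ‖a z‖ ^ 2 ≤ C3 * ρ * X * (2 * L) ^ 2 := by
      rw [← Finset.sum_sdiff hsub]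
      have e3 : ∑ z ∈ V X, ‖a z‖ ^ 2 = 0 := by
        refine Finset.sum_eq_zero fun z hz => ?_
        rw [ha]
        simp [hz]
      rw [e3, add_zero]
      calc ∑ z ∈ V (X * Real.exp ρ) \ V X, ‖a z‖ ^ 2
          ≤ ∑ z ∈ V (X * Real.exp ρ) \ V X, (om P Q z) ^ 2 := by
            refine Finset.sum_le_sum fun z hz => ?_
            have e4 : z ∉ V X := (Finset.mem_sdiff.mp hz).2
            have e5 := (Finset.mem_sdiff.mp hz).1
            have e6 : ‖a z‖ ≤ mA P Q ρ X z := by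
              rw [ha]
              simp only [e4, if_false]
              rw [norm_mul, Complex.norm_natCast]
              exact mul_le_of_le_one_left (Nat.cast_nonneg _) (hF.norm (mem_V.mp e5).2.1)
            exact pow_le_pow_left₀ (norm_nonneg _)
              (e6.trans (mA_le P Q ρ X hρ z (V_ne_zero e5))) 2
        _ ≤ C3 * ρ * X * (L + 1) ^ 2 := hann P Q X ρ hP hPQ hQX hρ hρ1 hXρ
        _ ≤ C3 * ρ * X * (2 * L) ^ 2 := by
            gcongr
            linarith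
    simp only [e1]
    refine (hls (X * Real.exp ρ) T a hXe).trans ?_
    calc C1 * (T + X * Real.exp ρ) * ∑ z ∈ V (X * Real.exp ρ), ‖a z‖ ^ 2
        ≤ C1 * (X + X * 3) * (C3 * ρ * X * (2 * L) ^ 2) := by
          have e4 : 0 ≤ ∑ z ∈ V (X * Real.exp ρ), ‖a z‖ ^ 2 :=
            Finset.sum_nonneg fun _ _ => sq_nonneg _
          gcongr
      _ = 16 * C1 * C3 * X ^ 2 * L ^ 2 * ρ := by ring
  -- second part
  have hA2 : ∑ k ∈ fr T, ‖A2C F P Q ρ X k‖ ^ 2 ≤ C4 * X ^ 2 * L :=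
    hA2s F hF P Q ρ X T hP hρ hρ1 hX1 hTX
  calc ∑ k ∈ fr T, ‖(L : ℂ) * fcC F X k - UZC F P Q ρ X k‖ ^ 2
      ≤ ∑ k ∈ fr T, 3 * (‖∑ z ∈ V X, (F z * ((L - om P Q z : ℝ) : ℂ)) * xi (-k) z‖ ^ 2 +
          ‖A2C F P Q ρ X k‖ ^ 2 + ‖A3C F P Q ρ X k‖ ^ 2) := by
        refine Finset.sum_le_sum fun k _ => ?_
        rw [hdec]
        exact h3 _ _ _
    _ = 3 * (∑ k ∈ fr T, ‖∑ z ∈ V X, (F z * ((L - om P Q z : ℝ) : ℂ)) * xi (-k) z‖ ^ 2 +
          ∑ k ∈ fr T, ‖A2C F P Q ρ X k‖ ^ 2 + ∑ k ∈ fr T, ‖A3C F P Q ρ X k‖ ^ 2) := by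
        rw [← Finset.mul_sum, Finset.sum_add_distrib, Finset.sum_add_distrib]
    _ ≤ 3 * (4 * C1 * C2 * X ^ 2 * L + C4 * X ^ 2 * L +
          16 * C1 * C3 * X ^ 2 * L ^ 2 * ρ) := by gcongr
    _ ≤ 3 * (4 * C1 * C2 + C4 + 16 * C1 * C3) * X ^ 2 * L ^ 2 * (1 / L + ρ) := by
        have e1 : X ^ 2 * L ^ 2 * (1 / L) = X ^ 2 * L := by field_simp
        have e4 : 3 * (4 * C1 * C2 + C4 + 16 * C1 * C3) * X ^ 2 * L ^ 2 *
            (1 / L + ρ) = 3 * (4 * C1 * C2 + C4 + 16 * C1 * C3) *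
              (X ^ 2 * L + X ^ 2 * L ^ 2 * ρ) := by
          rw [← e1]
          ring
        rw [e4]
        have p2 : 0 ≤ C1 * C2 * (X ^ 2 * L ^ 2 * ρ) := by positivity
        have p4 : 0 ≤ C4 * (X ^ 2 * L ^ 2 * ρ) := by positivity
        have p6 : 0 ≤ C1 * C3 * (X ^ 2 * L) := by positivity
        nlinarith

end Pool.Agent.GaussCM

end

/-! ### from `Lib_MP_f1a94e_ecc.Chain` -/

section

/-!
# all stages together (port to complex completely multiplicative functions)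
-/

set_option autoImplicit false

namespace Pool.Agent.GaussCM

open Pool.Agent.GaussMR

open Classical in
/-- For `k` in the small set of stage `J` let `j ≤ J` be least such that `k` is in the small set of stage `j`;
so `k ∈ K_j`, where `K_j` is the small set of stage `j` minus (if `j ≥ 1`) the small set of stage `j - 1`. On
`K_j`: `‖fcC k‖² ≤ 2 / Ls² (‖Ls fcC k - UZC k‖² + ‖UZC k‖²)`, `Ls ≥ 1`; first part by `stageM`, second part
by `small1` (`j = 0`, `T ≤ X / Q 0`) and `smallM` (`j ≥ 1`). The constant is the maximum of the constants. -/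
theorem chain : ∃ C : ℝ, 0 < C ∧ ∀ (F : G → ℂ), CM F → ∀ (X : ℝ) (T J : ℕ) (P Q r a l : ℕ → ℝ),
    Adm X J P Q r a l → (T : ℝ) ≤ X / Q 0 →
    ∑ k ∈ smallSetC F T (P J) (Q J) (r J) (a J), ‖fcC F X k‖ ^ 2 ≤ C * X ^ 2 * Err C J P Q r a l := by
  obtain ⟨C1, hC1, hstage⟩ := stageM
  obtain ⟨C2, hC2, hsmall1⟩ := small1
  obtain ⟨C3, hC3, hsmallM⟩ := smallM
  set C : ℝ := 2 * C1 + 2 * C2 + C3 + 2 with hC
  refine ⟨C, by positivity, ?_⟩
  intro F hF X T J P Q r a l hadm hT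
  obtain ⟨hA, hB⟩ := hadm
  -- general facts
  have hPge : ∀ j ≤ J, 2 ≤ P j := by
    intro j hj
    have h1 := (hA j hj).1
    have h2 := Real.add_one_le_exp (2 : ℝ)
    linarith
  have hQge : ∀ j ≤ J, 1 ≤ Q j := by
    intro j hj
    have h1 := hPge j hj
    have h2 := (hA j hj).2.1
    linarith
  have hQX : ∀ j ≤ J, Q j ≤ X := by
    intro j hj
    have h1 := hQge j hj
    have h2 := (hA j hj).2.2.1
    calc Q j = Q j ^ 1 := (pow_one _).symm
      _ ≤ Q j ^ 20 := pow_le_pow_right₀ h1 (by norm_num)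
      _ ≤ X := h2
  have hX1 : 1 ≤ X := (hQge 0 (Nat.zero_le _)).trans (hQX 0 (Nat.zero_le _))
  have hTX : (T : ℝ) ≤ X := by
    have h1 := hQge 0 (Nat.zero_le _)
    exact hT.trans (div_le_self (by linarith) h1)
  -- one stage
  have hone : ∀ j ≤ J, ∀ (S : Finset ℤ), S ⊆ fr T → ∀ (B : ℝ),
      ∑ k ∈ S, ‖UZC F (P j) (Q j) (r j) X k‖ ^ 2 ≤ B →
      ∑ k ∈ S, ‖fcC F X k‖ ^ 2 ≤ 2 * C1 * X ^ 2 * (1 / Ls (P j) (Q j) + r j) + 2 * B := by
    intro j hj S hS B hB'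
    obtain ⟨g1, g2, g3, g4, g5, g6, g7, g8, g9⟩ := hA j hj
    have h1 := hstage F hF (P j) (Q j) (r j) X T (hPge j hj) g2 g3 g4 g5 g6 hTX g7
    set L : ℝ := Ls (P j) (Q j) with hL
    have hL0 : 0 < L := by linarith
    have h2 : ∑ k ∈ S, ‖(L : ℂ) * fcC F X k - UZC F (P j) (Q j) (r j) X k‖ ^ 2 ≤
        C1 * X ^ 2 * L ^ 2 * (1 / L + r j) :=
      (Finset.sum_le_sum_of_subset_of_nonneg hS (fun _ _ _ => by positivity)).trans h1
    calc ∑ k ∈ S, ‖fcC F X k‖ ^ 2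
        ≤ ∑ k ∈ S, (2 / L ^ 2 * ‖(L : ℂ) * fcC F X k - UZC F (P j) (Q j) (r j) X k‖ ^ 2 +
            2 * ‖UZC F (P j) (Q j) (r j) X k‖ ^ 2) :=
          Finset.sum_le_sum fun k _ => chain_split L g7 _ _
      _ = 2 / L ^ 2 * ∑ k ∈ S, ‖(L : ℂ) * fcC F X k - UZC F (P j) (Q j) (r j) X k‖ ^ 2 +
            2 * ∑ k ∈ S, ‖UZC F (P j) (Q j) (r j) X k‖ ^ 2 := by
          rw [Finset.sum_add_distrib, ← Finset.mul_sum, ← Finset.mul_sum]
      _ ≤ 2 / L ^ 2 * (C1 * X ^ 2 * L ^ 2 * (1 / L + r j)) + 2 * B := by gcongr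
      _ = 2 * C1 * X ^ 2 * (1 / L + r j) + 2 * B := by
          congr 1
          field_simp
  have hsub : ∀ j, smallSetC F T (P j) (Q j) (r j) (a j) ⊆ fr T := fun j => Finset.filter_subset _ _
  have main : ∀ J' ≤ J, ∑ k ∈ smallSetC F T (P J') (Q J') (r J') (a J'), ‖fcC F X k‖ ^ 2 ≤
      C * X ^ 2 * Err C J' P Q r a l := by
    intro J'
    induction J' with
    | zero =>
      intro h0
      obtain ⟨g1, g2, g3, g4, g5, g6, g7, g8, g9⟩ := hA 0 h0
      have h1 := hsmall1 F hF (P 0) (Q 0) (r 0) X (a 0) T _ (hPge 0 h0) g2 (hQX 0 h0) g4 g5 g8 g9 hT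
        (hsub 0) (fun k hk v => (Finset.mem_filter.mp hk).2 v)
      have h2 := hone 0 h0 _ (hsub 0) _ h1
      refine h2.trans ?_
      unfold Err
      simp only [zero_add, Finset.range_one, Finset.sum_singleton, Finset.range_zero,
        Finset.sum_empty, add_zero]
      have e1 : 0 ≤ 1 / Ls (P 0) (Q 0) + r 0 := by
        have : 0 ≤ 1 / Ls (P 0) (Q 0) := by
          apply div_nonneg zero_le_one
          linarith
        linarith
      have e2 : 0 ≤ (Real.log (Q 0) / r 0 + 1) ^ 2 * P 0 ^ (-(2 * a 0)) := by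
        have := hPge 0 h0
        positivity
      have e3 : 2 * C1 * X ^ 2 * (1 / Ls (P 0) (Q 0) + r 0) ≤
          C * X ^ 2 * (1 / Ls (P 0) (Q 0) + r 0) := by
        have : 2 * C1 ≤ C := by rw [hC]; linarith
        gcongr
      have e4 : 2 * (C2 * X ^ 2 * (Real.log (Q 0) / r 0 + 1) ^ 2 * P 0 ^ (-(2 * a 0))) ≤
          C * X ^ 2 * ((Real.log (Q 0) / r 0 + 1) ^ 2 * P 0 ^ (-(2 * a 0))) := by
        have h3 : 2 * C2 ≤ C := by rw [hC]; linarith
        calc 2 * (C2 * X ^ 2 * (Real.log (Q 0) / r 0 + 1) ^ 2 * P 0 ^ (-(2 * a 0)))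
            = (2 * C2) * X ^ 2 * ((Real.log (Q 0) / r 0 + 1) ^ 2 * P 0 ^ (-(2 * a 0))) := by ring
          _ ≤ C * X ^ 2 * ((Real.log (Q 0) / r 0 + 1) ^ 2 * P 0 ^ (-(2 * a 0))) := by gcongr
      linarith
    | succ J' ih =>
      intro hJ
      have hJ' : J' ≤ J := by omega
      have ihJ := ih hJ'
      obtain ⟨g1, g2, g3, g4, g5, g6, g7, g8, g9⟩ := hA (J' + 1) hJ
      obtain ⟨f1, f2, f3, f4, f5, f6, f7, f8, f9⟩ := hA J' hJ'
      obtain ⟨b1, b2, b3⟩ := hB J' (by omega)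
      set S1 : Finset ℤ := smallSetC F T (P (J' + 1)) (Q (J' + 1)) (r (J' + 1)) (a (J' + 1)) with hS1
      set S0 : Finset ℤ := smallSetC F T (P J') (Q J') (r J') (a J') with hS0
      set B : ℝ := X ^ 2 * (Real.log (Q (J' + 1)) / r (J' + 1) + 1) ^ 2 * (Real.log (Q J') / r J' + 1) *
        Q J' ^ 2 * Real.exp (C3 * (l J' + 2) * Real.log (l J' + 2)) *
        P (J' + 1) ^ (-(2 * (a (J' + 1) - a J'))) with hBdef
      have h1 : ∑ k ∈ S1 \ S0, ‖UZC F (P (J' + 1)) (Q (J' + 1)) (r (J' + 1)) X k‖ ^ 2 ≤ B := by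
        refine hsmallM F hF (P J') (Q J') (P (J' + 1)) (Q (J' + 1)) (r J') (r (J' + 1)) X (a J')
          (a (J' + 1)) (l J') T (S1 \ S0) f1 f2 (hQX J' hJ') (by have := hPge (J' + 1) hJ; linarith)
          g2 (hQX _ hJ) b2 b3 f4 f5 g4 g5 f8 b1 g9 hTX
          (Finset.sdiff_subset.trans (hsub _)) ?_ ?_
        · intro k hk
          rw [Finset.mem_sdiff] at hk
          by_contra hc
          push Not at hc
          apply hk.2
          rw [hS0]
          exact Finset.mem_filter.mpr ⟨hsub _ hk.1, hc⟩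
        · intro k hk v
          rw [Finset.mem_sdiff] at hk
          exact (Finset.mem_filter.mp hk.1).2 v
      have h2 := hone (J' + 1) hJ (S1 \ S0) (Finset.sdiff_subset.trans (hsub _)) B h1
      have h3 : ∑ k ∈ S1, ‖fcC F X k‖ ^ 2 ≤
          ∑ k ∈ S1 \ S0, ‖fcC F X k‖ ^ 2 + ∑ k ∈ S0, ‖fcC F X k‖ ^ 2 := by
        have h4 : S1 ⊆ (S1 \ S0) ∪ S0 := by
          intro k hk
          rw [Finset.mem_union, Finset.mem_sdiff]
          by_cases h : k ∈ S0
          · exact Or.inr h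
          · exact Or.inl ⟨hk, h⟩
        rw [← Finset.sum_union Finset.sdiff_disjoint]
        exact Finset.sum_le_sum_of_subset_of_nonneg h4 (fun _ _ _ => by positivity)
      have h5 : Err C (J' + 1) P Q r a l = Err C J' P Q r a l +
          (1 / Ls (P (J' + 1)) (Q (J' + 1)) + r (J' + 1)) +
          (Real.log (Q (J' + 1)) / r (J' + 1) + 1) ^ 2 * (Real.log (Q J') / r J' + 1) *
          Q J' ^ 2 * Real.exp (C * (l J' + 2) * Real.log (l J' + 2)) *
          P (J' + 1) ^ (-(2 * (a (J' + 1) - a J'))) := by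
        have hh : ∀ (f g : ℕ → ℝ) (A : ℝ),
            (∑ j ∈ Finset.range (J' + 1 + 1), f j) + A + ∑ j ∈ Finset.range (J' + 1), g j =
            ((∑ j ∈ Finset.range (J' + 1), f j) + A + ∑ j ∈ Finset.range J', g j) + f (J' + 1) +
              g J' := by
          intro f g A
          rw [Finset.sum_range_succ f (J' + 1), Finset.sum_range_succ g J']
          ring
        exact hh _ _ _
      have e1 : 2 * C1 * X ^ 2 * (1 / Ls (P (J' + 1)) (Q (J' + 1)) + r (J' + 1)) ≤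
          C * X ^ 2 * (1 / Ls (P (J' + 1)) (Q (J' + 1)) + r (J' + 1)) := by
        have h6 : 0 ≤ 1 / Ls (P (J' + 1)) (Q (J' + 1)) + r (J' + 1) := by
          have : 0 ≤ 1 / Ls (P (J' + 1)) (Q (J' + 1)) := by
            apply div_nonneg zero_le_one
            linarith
          linarith
        have : 2 * C1 ≤ C := by rw [hC]; linarith
        gcongr
      have e2 : 2 * B ≤ C * X ^ 2 * ((Real.log (Q (J' + 1)) / r (J' + 1) + 1) ^ 2 *
          (Real.log (Q J') / r J' + 1) *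
          Q J' ^ 2 * Real.exp (C * (l J' + 2) * Real.log (l J' + 2)) *
          P (J' + 1) ^ (-(2 * (a (J' + 1) - a J')))) := by
        have hlog : 0 ≤ Real.log (l J' + 2) := Real.log_nonneg (by linarith)
        have hC3C : C3 ≤ C := by rw [hC]; linarith
        have h2C : (2 : ℝ) ≤ C := by rw [hC]; linarith
        have hexp : Real.exp (C3 * (l J' + 2) * Real.log (l J' + 2)) ≤
            Real.exp (C * (l J' + 2) * Real.log (l J' + 2)) := by
          rw [Real.exp_le_exp]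
          have : 0 ≤ l J' + 2 := by linarith
          gcongr
        have hlQ : 0 ≤ Real.log (Q J') / r J' + 1 := by
          have : 0 ≤ Real.log (Q J') := Real.log_nonneg (hQge _ hJ')
          positivity
        have hPp : 0 < P (J' + 1) := by have := hPge _ hJ; linarith
        rw [hBdef]
        calc 2 * (X ^ 2 * (Real.log (Q (J' + 1)) / r (J' + 1) + 1) ^ 2 * (Real.log (Q J') / r J' + 1) *
              Q J' ^ 2 * Real.exp (C3 * (l J' + 2) * Real.log (l J' + 2)) *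
              P (J' + 1) ^ (-(2 * (a (J' + 1) - a J'))))
            = 2 * X ^ 2 * ((Real.log (Q (J' + 1)) / r (J' + 1) + 1) ^ 2 *
              (Real.log (Q J') / r J' + 1) *
              Q J' ^ 2 * Real.exp (C3 * (l J' + 2) * Real.log (l J' + 2)) *
              P (J' + 1) ^ (-(2 * (a (J' + 1) - a J')))) := by ring
          _ ≤ C * X ^ 2 * ((Real.log (Q (J' + 1)) / r (J' + 1) + 1) ^ 2 *
              (Real.log (Q J') / r J' + 1) *
              Q J' ^ 2 * Real.exp (C * (l J' + 2) * Real.log (l J' + 2)) *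
              P (J' + 1) ^ (-(2 * (a (J' + 1) - a J')))) := by gcongr
      rw [h5]
      have e3 : C * X ^ 2 * (Err C J' P Q r a l +
          (1 / Ls (P (J' + 1)) (Q (J' + 1)) + r (J' + 1)) +
          (Real.log (Q (J' + 1)) / r (J' + 1) + 1) ^ 2 * (Real.log (Q J') / r J' + 1) *
          Q J' ^ 2 * Real.exp (C * (l J' + 2) * Real.log (l J' + 2)) *
          P (J' + 1) ^ (-(2 * (a (J' + 1) - a J')))) =
          C * X ^ 2 * Err C J' P Q r a l +
          C * X ^ 2 * (1 / Ls (P (J' + 1)) (Q (J' + 1)) + r (J' + 1)) +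
          C * X ^ 2 * ((Real.log (Q (J' + 1)) / r (J' + 1) + 1) ^ 2 * (Real.log (Q J') / r J' + 1) *
          Q J' ^ 2 * Real.exp (C * (l J' + 2) * Real.log (l J' + 2)) *
          P (J' + 1) ^ (-(2 * (a (J' + 1) - a J')))) := by ring
      rw [e3]
      linarith
  exact main J le_rfl

end Pool.Agent.GaussCM

end

/-! ### from `Lib_MP_f1a94e_ecc.Main` -/

section

/-!
# The chain theorem for completely multiplicative complex functions
-/

set_option autoImplicit false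

namespace Pool.Agent.GaussCM

open Pool.Agent.GaussMR

/-- chain + params + few: outside a set of at most `X ^ δ` frequencies the Fourier coefficients have small mass -/
theorem chainC (ε δ : ℝ) (hε : 0 < ε) (hδ : 0 < δ) : ∃ Q0 X0 : ℝ, 1 ≤ Q0 ∧ ∀ X : ℝ, X0 ≤ X →
    ∀ F : G → ℂ, CM F → ∀ T : ℕ, (T : ℝ) ≤ X / Q0 →
    ∃ S : Finset ℤ, S ⊆ fr T ∧ (S.card : ℝ) ≤ X ^ δ ∧
      ∑ k ∈ fr T \ S, ‖fcC F X k‖ ^ 2 ≤ ε * X ^ 2 := by
  classical
  obtain ⟨CS, hCS, hchain⟩ := chain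
  set δ' : ℝ := min δ 1 with hδ'def
  have hδ' : 0 < δ' := lt_min hδ one_pos
  have hδ'1 : δ' ≤ 1 := min_le_right _ _
  have hδ'K : δ' ≤ δ := min_le_left _ _
  set α : ℝ := δ' / 8 with hαdef
  set C2 : ℝ := 32 / δ' with hC2def
  have hα : 0 < α := by positivity
  have hαq : α ≤ 1 / 4 := by rw [hαdef]; linarith
  have hα1 : α ≤ 1 := by linarith
  have hC2 : 32 ≤ C2 := by
    rw [hC2def, le_div_iff₀ hδ']
    linarith
  have hC2δ : 1 / C2 = δ' / 32 := by
    rw [hC2def]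
    field_simp
  obtain ⟨M, ρ, Q0, hM1, hρ, hρ1, hQ0, XP, hparams⟩ :=
    params CS α C2 (ε / CS) hCS hα hα1 (by linarith) (by positivity)
  obtain ⟨XF, hfew⟩ := few α C2 M ρ (δ' / 4) hα hαq (by linarith) hM1 hρ hρ1 (by positivity)
  refine ⟨Q0, max 3 (max XP XF), hQ0, fun X hX F hF T hT => ?_⟩
  simp only [max_le_iff] at hX
  obtain ⟨hX3, hXP, hXF⟩ := hX
  have hXpos : 0 < X := by linarith
  have hX1 : 1 ≤ X := by linarith
  have hTX : (T : ℝ) ≤ X := hT.trans (div_le_self hXpos.le hQ0)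
  obtain ⟨J, P, Q, r, a, l, hadm, hQ0', hPJ, hQJ, hrJ, haJ, herr⟩ := hparams X hXP
  have hch := hchain F hF X T J P Q r a l hadm (by rw [hQ0']; exact hT)
  have hb : ∑ k ∈ smallSetC F T (P J) (Q J) (r J) (a J), ‖fcC F X k‖ ^ 2 ≤ ε * X ^ 2 := by
    refine hch.trans ?_
    calc CS * X ^ 2 * Err CS J P Q r a l ≤ CS * X ^ 2 * (ε / CS) :=
          mul_le_mul_of_nonneg_left herr (by positivity)
      _ = ε * X ^ 2 := by field_simp
  rw [hPJ, hQJ, hrJ, haJ] at hb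
  set S : Finset ℤ := (fr T).filter (fun k => ¬∀ v : ℕ,
    ‖UC F (Real.log X ^ C2) (Real.log X ^ (C2 * M)) ρ v k‖ ≤ Real.exp ((1 - α) * (v * ρ))) with hSdef
  have hSsub : S ⊆ fr T := Finset.filter_subset _ _
  refine ⟨S, hSsub, ?_, ?_⟩
  · have h1 := hfew X hXF F hF T hTX
    have hfinS : {k : ℤ | k ∈ fr T ∧ ∃ v : ℕ, Real.exp ((1 - α) * (v * ρ)) <
        ‖UC F (Real.log X ^ C2) (Real.log X ^ (C2 * M)) ρ v k‖}.Finite :=
      (fr T).finite_toSet.subset fun k hk => hk.1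
    have h2' : S.card ≤ Set.ncard {k : ℤ | k ∈ fr T ∧ ∃ v : ℕ,
        Real.exp ((1 - α) * (v * ρ)) <
        ‖UC F (Real.log X ^ C2) (Real.log X ^ (C2 * M)) ρ v k‖} := by
      rw [← Set.ncard_coe_finset S]
      refine Set.ncard_le_ncard (fun k hk => ?_) hfinS
      have hk' : k ∈ S := hk
      have h3 := (Finset.mem_filter.1 hk').2
      push Not at h3
      exact ⟨hSsub hk', h3⟩
    have h2 : (S.card : ℝ) ≤ (Set.ncard {k : ℤ | k ∈ fr T ∧ ∃ v : ℕ,
        Real.exp ((1 - α) * (v * ρ)) <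
        ‖UC F (Real.log X ^ C2) (Real.log X ^ (C2 * M)) ρ v k‖} : ℝ) := by
      exact_mod_cast h2'
    refine (h2.trans h1).trans ?_
    apply Real.rpow_le_rpow_of_exponent_le hX1
    rw [hC2δ, hαdef]
    linarith
  · refine le_trans (le_of_eq ?_) hb
    apply Finset.sum_congr _ (fun _ _ => rfl)
    unfold smallSetC
    ext k
    simp only [hSdef, Finset.mem_sdiff, Finset.mem_filter]
    tauto

end Pool.Agent.GaussCM

end

/-! ### from `Lib_MP_f1a94e_ecm.MarcFin` -/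

section

/-!
# Piece M-MARCFIN: arcs of bounded length from the few frequencies and the zero frequency
-/

set_option autoImplicit false

namespace Pool.Agent.ECM

open Finset Pool.Agent.GaussMR Pool.Agent.GaussCM Pool.Agent.OmAll MeasureTheory

/-- few nonzero frequencies carry little mass -/
def FewSmall (F : G → ℂ) : Prop :=
  ∀ ε : ℝ, 0 < ε → ∃ δ X0 : ℝ, 0 < δ ∧ ∀ X : ℝ, X0 ≤ X → ∀ S : Finset ℤ, (∀ k ∈ S, k ≠ 0) →
    (∀ k ∈ S, |(k : ℝ)| ≤ X) → (S.card : ℝ) ≤ X ^ δ → ∑ k ∈ S, ‖fcC F X k‖ ^ 2 ≤ ε * X ^ 2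

/-- the zero frequency is small -/
def ZeroSmall (F : G → ℂ) : Prop :=
  ∀ ε : ℝ, 0 < ε → ∃ X0 : ℝ, ∀ X : ℝ, X0 ≤ X → ‖fcC F X 0‖ ≤ ε * X

/-- Matomaki-Radziwill in arcs of bounded length -/
theorem marc_final (F : G → ℂ) (hF : CM F) (h4 : FewSmall F) (h5 : ZeroSmall F) :
    ∀ ε : ℝ, 0 < ε → ∃ H0 : ℝ, 0 < H0 ∧ ∀ H : ℝ, H0 ≤ H → ∃ X0 : ℝ, ∀ X : ℝ, X0 ≤ X →
      ∫ θ in (0 : ℝ)..(2 * Real.pi), ‖arcS F X (H / X) θ‖ ^ 2 ≤ ε * H ^ 2 := by
  classical
  intro ε hε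
  obtain ⟨C, hC, hmarc⟩ := marc
  obtain ⟨δ, X4, hδ, hfew⟩ := h4 (ε / 4) (by positivity)
  obtain ⟨X5, hzero⟩ := h5 (Real.sqrt (ε / 4)) (Real.sqrt_pos.mpr (by positivity))
  obtain ⟨Q0, X6, hQ0, hchain⟩ := chainC (ε / 4) δ (by positivity) hδ
  have hQpos : 0 < Q0 := by linarith
  refine ⟨Real.sqrt (C * (2 * Q0 + (2 * Q0) ^ 2) / (ε / 4)) + 1, by positivity, fun H hH => ?_⟩
  have hH1 : Real.sqrt (C * (2 * Q0 + (2 * Q0) ^ 2) / (ε / 4)) ≤ H := by linarith
  have hHpos : 0 < H := by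
    have := Real.sqrt_nonneg (C * (2 * Q0 + (2 * Q0) ^ 2) / (ε / 4))
    linarith
  have hH2 : C * (2 * Q0 + (2 * Q0) ^ 2) ≤ ε / 4 * H ^ 2 := by
    have h1 := Real.sq_sqrt (show 0 ≤ C * (2 * Q0 + (2 * Q0) ^ 2) / (ε / 4) by positivity)
    have h2 : C * (2 * Q0 + (2 * Q0) ^ 2) / (ε / 4) ≤ H ^ 2 := by
      rw [← h1]
      exact pow_le_pow_left₀ (Real.sqrt_nonneg _) hH1 2
    rw [div_le_iff₀ (by positivity)] at h2
    linarith
  refine ⟨max (max (max X4 X5) (max X6 1)) (max (2 * Q0) H), fun X hX => ?_⟩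
  simp only [max_le_iff] at hX
  obtain ⟨⟨⟨hX4, hX5⟩, hX6, hX1⟩, hXQ, hXH⟩ := hX
  have hXpos : 0 < X := by linarith
  set T : ℕ := ⌊X / Q0⌋₊ with hT
  have hTle : (T : ℝ) ≤ X / Q0 := Nat.floor_le (by positivity)
  have hTge : X / (2 * Q0) ≤ T := by
    have h1 : X / Q0 < T + 1 := Nat.lt_floor_add_one _
    have h2 : 1 ≤ X / (2 * Q0) := by
      rw [le_div_iff₀ (by positivity)]
      linarith
    have h3 : X / Q0 = 2 * (X / (2 * Q0)) := by field_simp
    linarith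
  have hT1r : (1 : ℝ) ≤ T := by
    have h2 : 1 ≤ X / (2 * Q0) := by
      rw [le_div_iff₀ (by positivity)]
      linarith
    linarith
  have hT1 : 1 ≤ T := by exact_mod_cast hT1r
  have hTX : (T : ℝ) ≤ X := hTle.trans (div_le_self hXpos.le hQ0)
  obtain ⟨S, hS, hScard, hSsum⟩ := hchain X hX6 F hF T hTle
  have hw2 : H / X ≤ 2 * Real.pi := by
    have h1 : H / X ≤ 1 := by rw [div_le_one hXpos]; exact hXH
    have := Real.pi_gt_three
    linarith
  have h1 := hmarc F hF X (H / X) T hX1 (by positivity) hw2 hT1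
  -- the low frequencies
  have hS0 : ∑ k ∈ S.erase 0, ‖fcC F X k‖ ^ 2 ≤ ε / 4 * X ^ 2 := by
    refine hfew X hX4 (S.erase 0) (fun k hk => Finset.ne_of_mem_erase hk) (fun k hk => ?_) ?_
    · have h2 := hS (Finset.mem_of_mem_erase hk)
      rw [mem_fr] at h2
      have h3 : |k| ≤ (T : ℤ) := abs_le.mpr ⟨h2.1, h2.2⟩
      have h4 : |(k : ℝ)| ≤ T := by exact_mod_cast h3
      exact h4.trans hTX
    · refine le_trans ?_ hScard
      exact_mod_cast Finset.card_erase_le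
  have hz : ‖fcC F X 0‖ ^ 2 ≤ ε / 4 * X ^ 2 := by
    have h2 := hzero X hX5
    calc ‖fcC F X 0‖ ^ 2 ≤ (Real.sqrt (ε / 4) * X) ^ 2 := pow_le_pow_left₀ (norm_nonneg _) h2 2
      _ = ε / 4 * X ^ 2 := by rw [mul_pow, Real.sq_sqrt (by positivity)]
  have hlow : ∑ k ∈ fr T, ‖fcC F X k‖ ^ 2 ≤ 3 * (ε / 4) * X ^ 2 := by
    have h2 : ∑ k ∈ fr T, ‖fcC F X k‖ ^ 2 = ∑ k ∈ fr T \ S, ‖fcC F X k‖ ^ 2 +
        ∑ k ∈ S, ‖fcC F X k‖ ^ 2 := (Finset.sum_sdiff hS).symm
    have h3 : ∑ k ∈ S, ‖fcC F X k‖ ^ 2 ≤ ‖fcC F X 0‖ ^ 2 + ∑ k ∈ S.erase 0, ‖fcC F X k‖ ^ 2 := by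
      by_cases h0 : (0 : ℤ) ∈ S
      · exact (Finset.add_sum_erase S (fun k => ‖fcC F X k‖ ^ 2) h0).ge
      · rw [Finset.erase_eq_of_notMem h0]
        have : 0 ≤ ‖fcC F X 0‖ ^ 2 := by positivity
        linarith
    linarith
  have hXT : X / T ≤ 2 * Q0 := by
    rw [div_le_iff₀ (by linarith)]
    rw [div_le_iff₀ (by positivity)] at hTge
    linarith
  have hXT2 : X ^ 2 / (T : ℝ) ^ 2 ≤ (2 * Q0) ^ 2 := by
    rw [← div_pow]
    exact pow_le_pow_left₀ (by positivity) hXT 2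
  calc ∫ θ in (0 : ℝ)..(2 * Real.pi), ‖arcS F X (H / X) θ‖ ^ 2 ≤
      (H / X) ^ 2 * ∑ k ∈ fr T, ‖fcC F X k‖ ^ 2 + C * (X / T + X ^ 2 / T ^ 2) := h1
    _ ≤ (H / X) ^ 2 * (3 * (ε / 4) * X ^ 2) + C * (2 * Q0 + (2 * Q0) ^ 2) := by gcongr
    _ ≤ (H / X) ^ 2 * (3 * (ε / 4) * X ^ 2) + ε / 4 * H ^ 2 := by linarith
    _ = ε * H ^ 2 := by
        field_simp
        ring

end Pool.Agent.ECM

end

/-! ### from `Lib_MP_f1a94e_lp.MarcG` -/

section

/-!
# Piece MARCG: variance of the sums over arcs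
-/

set_option autoImplicit false

namespace Pool.Agent.LPr

open Finset Pool.Agent.GaussMR Pool.Agent.GaussCM Pool.Agent.OmAll Pool.Agent.ECM MeasureTheory

/-- the weight at the zero frequency -/
private theorem marcg_W0 (w : ℝ) : marcW w 0 = ((w / (2 * Real.pi) : ℝ) : ℂ) := by
  unfold marcW
  have h1 : ∫ u in (-w)..0, Complex.exp (-(((0 : ℤ) : ℝ) * u : ℝ) * Complex.I) = (w : ℂ) := by
    have h2 : (fun u : ℝ => Complex.exp (-(((0 : ℤ) : ℝ) * u : ℝ) * Complex.I)) = fun _ => (1 : ℂ) := by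
      funext u
      simp
    rw [h2, intervalIntegral.integral_const]
    simp
  rw [h1, Complex.real_smul]
  push_cast
  ring

private theorem marcg_int (F : G → ℂ) (X w : ℝ) (hw : 0 < w) (hw2 : w ≤ 2 * Real.pi) :
    ∫ θ in (0 : ℝ)..(2 * Real.pi), arcS F X w θ =
      (2 * Real.pi : ℝ) * (((w / (2 * Real.pi) : ℝ) : ℂ) * fcC F X 0) := by
  have hpi := Real.pi_pos
  have h := marc_coeff F X w hw hw2 0
  rw [fourierCoeffOn_eq_integral, marcg_W0] at h
  rw [← h]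
  simp only [neg_zero, fourier_zero, one_smul, sub_zero]
  rw [Complex.real_smul]
  have h2 : ((2 * Real.pi : ℝ) : ℂ) ≠ 0 := by
    rw [Ne, Complex.ofReal_eq_zero]
    positivity
  have h3 : ((1 / (2 * Real.pi) : ℝ) : ℂ) = (((2 * Real.pi : ℝ) : ℂ))⁻¹ := by
    push_cast
    ring
  rw [h3, mul_inv_cancel_left₀ h2]

private theorem marcg_expand (F : G → ℂ) (X w : ℝ) (hw : 0 < w) (hw2 : w ≤ 2 * Real.pi) :
    ∫ θ in (0 : ℝ)..(2 * Real.pi), ‖arcS F X w θ - ((w / (2 * Real.pi) : ℝ) : ℂ) * fcC F X 0‖ ^ 2 =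
      (∫ θ in (0 : ℝ)..(2 * Real.pi), ‖arcS F X w θ‖ ^ 2) -
        2 * Real.pi * ‖((w / (2 * Real.pi) : ℝ) : ℂ) * fcC F X 0‖ ^ 2 := by
  have hpi := Real.pi_pos
  have hI := marcg_int F X w hw hw2
  set c : ℂ := ((w / (2 * Real.pi) : ℝ) : ℂ) * fcC F X 0 with hc
  have hm := marc_memLp F X w
  have hf : IntervalIntegrable (arcS F X w) volume 0 (2 * Real.pi) := by
    rw [intervalIntegrable_iff_integrableOn_Ioc_of_le (by positivity)]
    exact hm.integrable (by norm_num)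
  have hf2 : IntervalIntegrable (fun θ => ‖arcS F X w θ‖ ^ 2) volume 0 (2 * Real.pi) := by
    rw [intervalIntegrable_iff_integrableOn_Ioc_of_le (by positivity)]
    exact hm.integrable_norm_pow (by norm_num)
  have hg : IntervalIntegrable (fun θ => (starRingEnd ℂ) c * arcS F X w θ) volume 0 (2 * Real.pi) :=
    hf.const_mul _
  have hre : IntervalIntegrable (fun θ => Complex.reCLM ((starRingEnd ℂ) c * arcS F X w θ)) volume 0
      (2 * Real.pi) := by
    rw [intervalIntegrable_iff_integrableOn_Ioc_of_le (by positivity)] at hg ⊢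
    exact Complex.reCLM.integrable_comp hg
  have h1 : ∀ θ : ℝ, ‖arcS F X w θ - c‖ ^ 2 =
      ‖arcS F X w θ‖ ^ 2 - 2 * Complex.reCLM ((starRingEnd ℂ) c * arcS F X w θ) + ‖c‖ ^ 2 := by
    intro θ
    rw [← Complex.normSq_eq_norm_sq, ← Complex.normSq_eq_norm_sq, ← Complex.normSq_eq_norm_sq,
      Complex.normSq_apply, Complex.normSq_apply, Complex.normSq_apply, Complex.reCLM_apply,
      Complex.mul_re, Complex.sub_re, Complex.sub_im, Complex.conj_re, Complex.conj_im]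
    ring
  simp only [h1]
  rw [intervalIntegral.integral_add (hf2.sub (hre.const_mul 2)) intervalIntegrable_const,
    intervalIntegral.integral_sub hf2 (hre.const_mul 2), intervalIntegral.integral_const_mul,
    Complex.reCLM.intervalIntegral_comp_comm hg, intervalIntegral.integral_const_mul, hI,
    intervalIntegral.integral_const]
  have h2 : Complex.reCLM ((starRingEnd ℂ) c * (((2 * Real.pi : ℝ) : ℂ) * c)) =
      2 * Real.pi * ‖c‖ ^ 2 := by
    rw [Complex.reCLM_apply, ← Complex.normSq_eq_norm_sq]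
    have h3 : (starRingEnd ℂ) c * (((2 * Real.pi : ℝ) : ℂ) * c) =
        ((2 * Real.pi : ℝ) : ℂ) * ((starRingEnd ℂ) c * c) := by ring
    rw [h3, ← Complex.normSq_eq_conj_mul_self, ← Complex.ofReal_mul, Complex.ofReal_re]
  rw [h2, smul_eq_mul, sub_zero]
  ring

/-- PROOF. As `marc` (ecm/Marc.lean), without the zero frequency. The Fourier coefficients of `θ ↦ arcS F X w θ` are `marcW w k * fcC F X k` (`marc_coeff`, with the normalisation used there), the coefficient at `k = 0` is `(w / 2π) fcC F X 0`,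
so `arcS F X w θ - (w / 2π) fcC F X 0` has the coefficients `marcW w k * fcC F X k` for `k ≠ 0` and `0` for `k = 0`: from `marc_parseval` (a `HasSum` over `ℤ` with the value `(2π)⁻¹ ∫ ‖arcS‖²`),
`∫ ‖arcS - c0‖² = ∫ ‖arcS‖² - 2π ‖c0‖²` (expand the square; `∫ arcS = 2π c0`, which is the statement `marc_coeff` for `k = 0`), `c0 = (w / 2π) fcC F X 0`, hence `(2π)⁻¹ ∫ ‖arcS - c0‖² = ∑_(k ≠ 0) ‖marcW w k fcC F X k‖²`. The rest is the proof of `marc` (dyadic annuli by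
`marc_annulus`, `marc_ls`), with `fr T` replaced by `(fr T).erase 0`. -/
theorem marc_nz : ∃ C : ℝ, 0 < C ∧ ∀ F : G → ℂ, CM F → ∀ (X w : ℝ) (T : ℕ), 1 ≤ X → 0 < w →
    w ≤ 2 * Real.pi → 1 ≤ T →
    ∫ θ in (0 : ℝ)..(2 * Real.pi), ‖arcS F X w θ - ((w / (2 * Real.pi) : ℝ) : ℂ) * fcC F X 0‖ ^ 2 ≤
      w ^ 2 * ∑ k ∈ (fr T).erase 0, ‖fcC F X k‖ ^ 2 + C * (X / T + X ^ 2 / T ^ 2) := by
  classical
  obtain ⟨C, hC, hls⟩ := marc_ls
  refine ⟨2 * Real.pi * (4 * C), by positivity, fun F hF X w T hX hw hw2 hT => ?_⟩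
  have hpi := Real.pi_gt_three
  have hX0 : 0 < X := by linarith
  have hT0 : (0 : ℝ) < T := by exact_mod_cast hT
  have hP := marc_parseval F X w hw hw2
  set a0 : ℝ := ‖((w / (2 * Real.pi) : ℝ) : ℂ) * fcC F X 0‖ ^ 2 with ha0
  set B : ℝ := (w / (2 * Real.pi)) ^ 2 * ∑ k ∈ (fr T).erase 0, ‖fcC F X k‖ ^ 2 +
    4 * C * (X / T + X ^ 2 / T ^ 2) with hB
  have hfr : ∀ J : ℕ, ∑ k ∈ fr (2 ^ J * T), ‖marcW w k * fcC F X k‖ ^ 2 ≤
      a0 + (w / (2 * Real.pi)) ^ 2 * ∑ k ∈ (fr T).erase 0, ‖fcC F X k‖ ^ 2 +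
        ∑ j ∈ Finset.range J, C * (2 * (1 / 2) ^ j * (X / T) + (1 / 2) ^ j * (X ^ 2 / T ^ 2)) := by
    intro J
    induction J with
    | zero =>
      rw [pow_zero, one_mul, Finset.range_zero, Finset.sum_empty, add_zero, Finset.mul_sum]
      have h0 : (0 : ℤ) ∈ fr T := by
        rw [mem_fr]
        constructor
        · simp
        · exact_mod_cast Nat.zero_le T
      rw [← Finset.add_sum_erase _ _ h0, marcg_W0]
      refine add_le_add le_rfl (Finset.sum_le_sum fun k _ => ?_)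
      rw [norm_mul, mul_pow]
      exact mul_le_mul_of_nonneg_right (pow_le_pow_left₀ (norm_nonneg _) (marcW_le w hw k) 2)
        (sq_nonneg _)
    | succ J ih =>
      have hsub : fr (2 ^ J * T) ⊆ fr (2 ^ (J + 1) * T) := by
        intro k hk
        rw [mem_fr] at hk ⊢
        have h1 : ((2 ^ J * T : ℕ) : ℤ) ≤ ((2 ^ (J + 1) * T : ℕ) : ℤ) := by
          have : 2 ^ J * T ≤ 2 ^ (J + 1) * T :=
            Nat.mul_le_mul_right _ (Nat.pow_le_pow_right (by norm_num) (by omega))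
          exact_mod_cast this
        omega
      rw [← Finset.sum_sdiff hsub, Finset.sum_range_succ]
      have := marc_annulus hC hls F hF X w T hX hT J
      linarith
  have hgeo : ∀ J : ℕ, ∑ j ∈ Finset.range J, C * (2 * (1 / 2) ^ j * (X / T) +
      (1 / 2) ^ j * (X ^ 2 / T ^ 2)) ≤ 4 * C * (X / T + X ^ 2 / T ^ 2) := by
    intro J
    have h1 : ∑ j ∈ Finset.range J, ((1 : ℝ) / 2) ^ j ≤ 2 := by
      have := geom_sum_eq (show (1 / 2 : ℝ) ≠ 1 by norm_num) J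
      rw [this]
      have h2 : (0 : ℝ) ≤ (1 / 2) ^ J := by positivity
      have h3 : ((1 / 2 : ℝ) ^ J - 1) / (1 / 2 - 1) = 2 * (1 - (1 / 2) ^ J) := by
        field_simp
        ring
      rw [h3]
      linarith
    have h2 : ∑ j ∈ Finset.range J, C * (2 * (1 / 2) ^ j * (X / T) +
        (1 / 2) ^ j * (X ^ 2 / T ^ 2)) =
        C * (2 * (X / T) + X ^ 2 / T ^ 2) * ∑ j ∈ Finset.range J, ((1 : ℝ) / 2) ^ j := by
      rw [Finset.mul_sum]
      refine Finset.sum_congr rfl fun j _ => ?_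
      ring
    rw [h2]
    have h3 : 0 ≤ C * (2 * (X / T) + X ^ 2 / T ^ 2) := by positivity
    have h4 : 0 ≤ C * (X ^ 2 / T ^ 2) := by positivity
    calc C * (2 * (X / T) + X ^ 2 / T ^ 2) * ∑ j ∈ Finset.range J, ((1 : ℝ) / 2) ^ j ≤
        C * (2 * (X / T) + X ^ 2 / T ^ 2) * 2 := mul_le_mul_of_nonneg_left h1 h3
      _ ≤ 4 * C * (X / T + X ^ 2 / T ^ 2) := by linarith
  have hle : (2 * Real.pi)⁻¹ * ∫ θ in (0 : ℝ)..(2 * Real.pi), ‖arcS F X w θ‖ ^ 2 ≤ a0 + B := by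
    refine hasSum_le_of_sum_le hP fun s => ?_
    obtain ⟨J, hJ⟩ : ∃ J : ℕ, s ⊆ fr (2 ^ J * T) := by
      obtain ⟨J, hJ⟩ : ∃ J : ℕ, ∀ k ∈ s, |k| ≤ J := by
        refine ⟨∑ k ∈ s, k.natAbs, fun k hk => ?_⟩
        have h1 := Finset.single_le_sum (f := fun k : ℤ => k.natAbs) (fun _ _ => Nat.zero_le _) hk
        rw [Int.abs_eq_natAbs]
        exact_mod_cast h1
      refine ⟨J, fun k hk => ?_⟩
      have h1 := abs_le.mp (hJ k hk)
      have h2 : (J : ℤ) ≤ ((2 ^ J * T : ℕ) : ℤ) := by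
        have h3 : J < 2 ^ J := Nat.lt_two_pow_self
        have h4 : 2 ^ J * 1 ≤ 2 ^ J * T := Nat.mul_le_mul_left _ hT
        have : J ≤ 2 ^ J * T := by omega
        exact_mod_cast this
      rw [mem_fr]
      omega
    refine (Finset.sum_le_sum_of_subset_of_nonneg hJ (fun _ _ _ => by positivity)).trans ?_
    exact (hfr J).trans (by rw [hB]; have := hgeo J; linarith)
  rw [inv_mul_le_iff₀ (by positivity)] at hle
  rw [marcg_expand F X w hw hw2, ← ha0]
  have h1 : 2 * Real.pi * ((w / (2 * Real.pi)) ^ 2 * ∑ k ∈ (fr T).erase 0, ‖fcC F X k‖ ^ 2) ≤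
      w ^ 2 * ∑ k ∈ (fr T).erase 0, ‖fcC F X k‖ ^ 2 := by
    rw [← mul_assoc]
    apply mul_le_mul_of_nonneg_right _ (Finset.sum_nonneg fun _ _ => by positivity)
    rw [div_pow]
    have : 2 * Real.pi * (w ^ 2 / (2 * Real.pi) ^ 2) = w ^ 2 / (2 * Real.pi) := by
      field_simp
    rw [this, div_le_iff₀ (by positivity)]
    nlinarith [sq_nonneg w]
  rw [hB] at hle
  linarith

end Pool.Agent.LPr

end

/-! ### from `Lib_MP_f1a94e_ecm.StageFew` -/

section

/-!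
# Piece M-STAGE: one stage for few frequencies
-/

set_option autoImplicit false

namespace Pool.Agent.ECM

open Finset Pool.Agent.GaussMR Pool.Agent.GaussCM Pool.Agent.OmAll

/-- sum of the inverse squares of the norms, with the gain `1 / P` -/
theorem sf_inv_sq {P Q : ℝ} (hP : 1 ≤ P) : ∑ w ∈ PP P Q, 1 / (nm w : ℝ) ^ 2 ≤ 2 / P := by
  classical
  have hinj : Set.InjOn nm (PP P Q : Set G) := fun w hw w' hw' h => PP_inj hw hw' h
  have h1 : ∑ w ∈ PP P Q, 1 / (nm w : ℝ) ^ 2 = ∑ n ∈ (PP P Q).image nm, 1 / (n : ℝ) ^ 2 := by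
    rw [Finset.sum_image hinj]
  rw [h1]
  set K : ℕ := ⌊P⌋₊ with hK
  have hK1 : 1 ≤ K := Nat.le_floor (by exact_mod_cast hP)
  have hKP : P / 2 ≤ K := by
    have e1 : P < K + 1 := Nat.lt_floor_add_one P
    have e2 : (1 : ℝ) ≤ K := by exact_mod_cast hK1
    linarith
  have h2 : (PP P Q).image nm ⊆ Finset.Ioc K (K + ⌊Q⌋₊) := by
    intro n hn
    obtain ⟨w, hw, rfl⟩ := Finset.mem_image.mp hn
    obtain ⟨e1, e2, -, -, -⟩ := mem_PP.mp hw
    rw [Finset.mem_Ioc]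
    refine ⟨?_, ?_⟩
    · rw [hK]
      have e4 : ((⌊P⌋₊ : ℕ) : ℝ) ≤ P := Nat.floor_le (by linarith)
      exact_mod_cast e4.trans_lt e1
    · have e3 : nm w ≤ ⌊Q⌋₊ := Nat.le_floor e2
      omega
  refine (Finset.sum_le_sum_of_subset_of_nonneg h2 fun _ _ _ => by positivity).trans ?_
  have h3 := sum_Ioc_inv_sq_le_sub (α := ℝ) (k := K) (n := K + ⌊Q⌋₊) (by omega) (by omega)
  have h4 : (0 : ℝ) ≤ ((K + ⌊Q⌋₊ : ℕ) : ℝ)⁻¹ := by positivity
  simp only [one_div]
  refine h3.trans ?_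
  have h5 : ((K : ℝ))⁻¹ ≤ (P / 2)⁻¹ := inv_anti₀ (by linarith) hKP
  have h6 : (P / 2)⁻¹ = 2 / P := by rw [inv_div]
  linarith

open Classical in
/-- number of multiples of a split prime -/
theorem sf_card {w : G} (hw : Spl w) (Y : ℝ) (hY : 0 ≤ Y) :
    (((V Y).filter (fun z => star w ∣ z)).card : ℝ) ≤ 9 * (Y / nm w) := by
  classical
  have hw0 : (0 : ℝ) < nm w := by exact_mod_cast nm_pos_of_odd hw.odd
  have h1 : (V Y).filter (fun z => star w ∣ z) ⊆ (V (Y / nm w)).image (fun z => star w * z) := by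
    intro z hz
    rw [Finset.mem_filter] at hz
    obtain ⟨hz1, c, hc⟩ := hz
    subst hc
    rw [mem_V] at hz1
    rw [Finset.mem_image]
    refine ⟨c, ?_, rfl⟩
    rw [mem_V]
    refine ⟨?_, (odd_nm_mul.1 hz1.2.1).2, (prim_of_mul hz1.2.2).2⟩
    rw [le_div_iff₀ hw0]
    have := hz1.1
    rw [nm_mul, nm_star] at this
    push_cast at this
    linarith
  have h2 : ((V Y).filter (fun z => star w ∣ z)).card ≤ (V (Y / nm w)).card :=
    (Finset.card_le_card h1).trans Finset.card_image_le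
  have h3 := card_V_le (Y / nm w) (by positivity)
  calc (((V Y).filter (fun z => star w ∣ z)).card : ℝ) ≤ ((V (Y / nm w)).card : ℝ) := by
        exact_mod_cast h2
    _ ≤ _ := h3

/-- pointwise bound for the non primitive terms -/
theorem sf_A2 (F : G → ℂ) (hF : CM F) (P Q ρ Z : ℝ) (k : ℤ) (hP : 1 ≤ P) (hρ : 0 < ρ) (hρ1 : ρ ≤ 1)
    (hZ : 0 ≤ Z) : ‖A2C F P Q ρ Z k‖ ≤ 54 * Z / P := by
  classical
  have hexp : Real.exp ρ ≤ 3 := by
    have := Real.exp_one_lt_d9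
    exact (Real.exp_le_exp.mpr hρ1).trans (by linarith)
  unfold A2C
  have h1 : ‖∑ v ∈ Finset.range (nv Q ρ), ∑ w ∈ blk P Q ρ v, F w * xi (-k) w *
      ∑ z ∈ (V (Z * Real.exp (-(v * ρ)))).filter (fun z => star w ∣ z), F z * xi (-k) z‖ ≤
      ∑ v ∈ Finset.range (nv Q ρ), ∑ w ∈ blk P Q ρ v, 27 * Z * (1 / (nm w : ℝ) ^ 2) := by
    refine (norm_sum_le _ _).trans (Finset.sum_le_sum fun v _ => ?_)
    refine (norm_sum_le _ _).trans (Finset.sum_le_sum fun w hw => ?_)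
    have hsp := PP_spl (mem_blk.mp hw).1
    have hw0 : w ≠ 0 := ne_zero_of_odd hsp.odd
    have hwpos : (0 : ℝ) < nm w := by exact_mod_cast nm_pos_of_odd hsp.odd
    have e1 : ‖∑ z ∈ (V (Z * Real.exp (-(v * ρ)))).filter (fun z => star w ∣ z),
        F z * xi (-k) z‖ ≤ 9 * (Z * Real.exp (-(v * ρ)) / nm w) := by
      refine le_trans ?_ (sf_card hsp (Z * Real.exp (-(v * ρ))) (by positivity))
      calc ‖∑ z ∈ (V (Z * Real.exp (-(v * ρ)))).filter (fun z => star w ∣ z), F z * xi (-k) z‖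
          ≤ ∑ z ∈ (V (Z * Real.exp (-(v * ρ)))).filter (fun z => star w ∣ z), (1 : ℝ) := by
            refine (norm_sum_le _ _).trans (Finset.sum_le_sum fun z hz => ?_)
            have hz1 := (Finset.mem_filter.mp hz).1
            rw [norm_mul, norm_xi _ (V_ne_zero hz1), mul_one]
            exact hF.norm (mem_V.mp hz1).2.1
        _ = _ := by rw [Finset.sum_const, nsmul_eq_mul, mul_one]
    have e2 : ‖F w * xi (-k) w‖ ≤ 1 := by
      rw [norm_mul, norm_xi _ hw0, mul_one]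
      exact hF.norm hsp.odd
    have e3 : Real.exp (-(v * ρ)) ≤ 3 / nm w := by
      have h3 := (mem_blk.mp hw).2.2
      rw [le_div_iff₀ hwpos]
      calc Real.exp (-(v * ρ)) * nm w ≤ Real.exp (-(v * ρ)) * Real.exp ((v + 1) * ρ) :=
            mul_le_mul_of_nonneg_left h3 (Real.exp_pos _).le
        _ = Real.exp ρ := by
            rw [← Real.exp_add]
            congr 1
            ring
        _ ≤ 3 := hexp
    rw [norm_mul]
    calc ‖F w * xi (-k) w‖ * ‖∑ z ∈ (V (Z * Real.exp (-(v * ρ)))).filter (fun z => star w ∣ z),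
          F z * xi (-k) z‖ ≤ 1 * (9 * (Z * Real.exp (-(v * ρ)) / nm w)) :=
          mul_le_mul e2 e1 (norm_nonneg _) zero_le_one
      _ ≤ 1 * (9 * (Z * (3 / nm w) / nm w)) := by gcongr
      _ = 27 * Z * (1 / (nm w : ℝ) ^ 2) := by
          field_simp
          ring
  refine h1.trans ?_
  have h2 := sum_blk_le (P := P) (Q := Q) hρ (fun w => 27 * Z * (1 / (nm w : ℝ) ^ 2))
    (fun w _ => by positivity)
  refine h2.trans ?_
  rw [← Finset.mul_sum]
  have h3 := sf_inv_sq (P := P) (Q := Q) hP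
  calc 27 * Z * ∑ w ∈ PP P Q, 1 / (nm w : ℝ) ^ 2 ≤ 27 * Z * (2 / P) :=
        mul_le_mul_of_nonneg_left h3 (by positivity)
    _ = 54 * Z / P := by ring

/-- `P = X^e'`, `Q = X^e`, `Q^20 ≤ Z`, `Z^(-1/4) ≤ ρ`. As in the proof of `stage` (Lib_MP_f1a94e_mr/Stage.lean) with `orth` instead of `large_sieve`: `Ls fc - UZ = A1 - A2 - A3` (`stage_idC`). `A1 = ∑ F z (Ls - om z) xi`: `orth` and `TK`: `≤ C Z * C Z (Ls + 1)`.
`A3`: `orth` on `V (Z e^ρ)`, `mA ≤ om`, `annulus`: `≤ C Z * C ρ Z (Ls + 1)²`. `A2`: pointwise `|A2 k| ≤ ∑_v ∑_w #{z ∈ V (Z e^(-vρ)) : star w ∣ z} ≤ ∑_w 9 Z e^ρ / nm w² ≤ C Z / P`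
(`nm w ≤ e^((v+1)ρ)`, `∑_(nm w > P) 1/nm w² ≤ 2/P`), so `∑_(k ∈ S) |A2|² ≤ #S C Z² / P² ≤ C Z²  X^(e' - 2 e')`, small. -/
theorem stage_few : ∃ δ C : ℝ, 0 < δ ∧ 0 < C ∧ ∀ e' e : ℝ, 0 < e' → e' < e → e ≤ 1 / 40 → ∃ X0 : ℝ, ∀ X : ℝ, X0 ≤ X →
    ∀ F : G → ℂ, CM F → ∀ ρ Z : ℝ, 0 < ρ → ρ ≤ 1 → X ^ (-(1 / 8 : ℝ)) ≤ ρ → X ^ (1 / 2 : ℝ) ≤ Z → Z ≤ X → 1 ≤ Ls (X ^ e') (X ^ e) →
    ∀ S : Finset ℤ, (∀ k ∈ S, |(k : ℝ)| ≤ X) → (S.card : ℝ) ≤ X ^ δ → (S.card : ℝ) ≤ X ^ e' →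
    ∑ k ∈ S, ‖(Ls (X ^ e') (X ^ e) : ℂ) * fcC F Z k - UZC F (X ^ e') (X ^ e) ρ Z k‖ ^ 2 ≤
      C * Z ^ 2 * Ls (X ^ e') (X ^ e) ^ 2 * (1 / Ls (X ^ e') (X ^ e) + ρ) := by
  classical
  obtain ⟨δ, C1, X1, hδ, hC1, horth⟩ := orth
  obtain ⟨C2, hC2, htk⟩ := TK
  obtain ⟨C3, hC3, hann⟩ := annulus
  refine ⟨δ, 3 * (2 * C1 * C2 + 54 ^ 2 + 12 * C1 * C3), hδ, by positivity, ?_⟩
  intro e' e he' hee he
  refine ⟨max (max X1 1) (2 ^ (1 / e')), fun X hX F hF ρ Z hρ hρ1 hXρ hZ1 hZX hLs S hS hS1 hS2 => ?_⟩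
  simp only [max_le_iff] at hX
  obtain ⟨⟨hX1, hX1'⟩, hX2⟩ := hX
  have hX0 : 0 < X := by linarith
  set P : ℝ := X ^ e' with hPdef
  set Q : ℝ := X ^ e with hQdef
  have hP2 : 2 ≤ P := by
    have h1 : ((2 : ℝ) ^ (1 / e')) ^ e' ≤ X ^ e' := Real.rpow_le_rpow (by positivity) hX2 he'.le
    rwa [← Real.rpow_mul (by norm_num), one_div_mul_cancel he'.ne', Real.rpow_one] at h1
  have hPQ : P ≤ Q := Real.rpow_le_rpow_of_exponent_le hX1' hee.le
  have hZ1' : 1 ≤ Z := (Real.one_le_rpow hX1' (by norm_num)).trans hZ1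
  have hZ0 : 0 < Z := by linarith
  have hQZ : Q ^ 20 ≤ Z := by
    refine le_trans ?_ hZ1
    rw [hQdef, ← Real.rpow_natCast, ← Real.rpow_mul hX0.le]
    apply Real.rpow_le_rpow_of_exponent_le hX1'
    push_cast
    linarith
  have hZρ : Z ^ (-(1 / 4 : ℝ)) ≤ ρ := by
    refine le_trans ?_ hXρ
    have h1 : Z ^ (-(1 / 4 : ℝ)) ≤ (X ^ (1 / 2 : ℝ)) ^ (-(1 / 4 : ℝ)) :=
      Real.rpow_le_rpow_of_nonpos (by positivity) hZ1 (by norm_num)
    refine h1.trans (le_of_eq ?_)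
    rw [← Real.rpow_mul hX0.le]
    norm_num
  have hLs0 : 0 < Ls P Q := by linarith
  set L := Ls P Q with hL
  -- the three parts
  have hdec : ∀ k, (L : ℂ) * fcC F Z k - UZC F P Q ρ Z k =
      ∑ z ∈ V Z, (F z * ((L - om P Q z : ℝ) : ℂ)) * xi (-k) z - A2C F P Q ρ Z k -
        A3C F P Q ρ Z k := by
    intro k
    rw [stage_idC F hF P Q ρ Z k (by linarith) hPQ hρ hZ1']
    have e1 : ∑ z ∈ V Z, (F z * ((L - om P Q z : ℝ) : ℂ)) * xi (-k) z =
        (L : ℂ) * fcC F Z k - ∑ z ∈ V Z, F z * (om P Q z : ℂ) * xi (-k) z := by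
      rw [fcC, Finset.mul_sum, ← Finset.sum_sub_distrib]
      refine Finset.sum_congr rfl fun z _ => ?_
      push_cast
      ring
    rw [e1]
    ring
  have h3 : ∀ a b c : ℂ, ‖a - b - c‖ ^ 2 ≤ 3 * (‖a‖ ^ 2 + ‖b‖ ^ 2 + ‖c‖ ^ 2) := by
    intro a b c
    have e1 : ‖a - b - c‖ ≤ ‖a‖ + ‖b‖ + ‖c‖ :=
      (norm_sub_le _ _).trans (add_le_add_left (norm_sub_le _ _) _)
    have e2 := pow_le_pow_left₀ (norm_nonneg _) e1 2
    nlinarith [sq_nonneg (‖a‖ - ‖b‖), sq_nonneg (‖b‖ - ‖c‖), sq_nonneg (‖a‖ - ‖c‖)]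
  -- first part
  have hA1 : ∑ k ∈ S, ‖∑ z ∈ V Z, (F z * ((L - om P Q z : ℝ) : ℂ)) * xi (-k) z‖ ^ 2 ≤
      2 * C1 * C2 * Z ^ 2 * L := by
    refine (horth X Z hX1 hZ1 S hS hS1 (fun z => F z * ((L - om P Q z : ℝ) : ℂ))).trans ?_
    have e1 : ∑ z ∈ V Z, ‖F z * ((L - om P Q z : ℝ) : ℂ)‖ ^ 2 ≤
        ∑ z ∈ V Z, (om P Q z - L) ^ 2 := by
      refine Finset.sum_le_sum fun z hz => ?_
      rw [norm_mul, Complex.norm_real, Real.norm_eq_abs, mul_pow, sq_abs]
      have g1 : ‖F z‖ ^ 2 ≤ 1 := pow_le_one₀ (norm_nonneg _) (hF.norm (mem_V.mp hz).2.1)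
      calc ‖F z‖ ^ 2 * (L - om P Q z) ^ 2 ≤ 1 * (L - om P Q z) ^ 2 :=
            mul_le_mul_of_nonneg_right g1 (sq_nonneg _)
        _ = (om P Q z - L) ^ 2 := by ring
    have e2 := htk P Q Z hP2 hPQ hQZ
    have e3 : C2 * Z * (L + 1) ≤ C2 * Z * (2 * L) := by
      gcongr
      linarith
    calc C1 * Z * ∑ z ∈ V Z, ‖F z * ((L - om P Q z : ℝ) : ℂ)‖ ^ 2 ≤ C1 * Z * (C2 * Z * (2 * L)) :=
          mul_le_mul_of_nonneg_left (e1.trans (e2.trans e3)) (by positivity)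
      _ = 2 * C1 * C2 * Z ^ 2 * L := by ring
  -- third part
  have hA3 : ∑ k ∈ S, ‖A3C F P Q ρ Z k‖ ^ 2 ≤ 12 * C1 * C3 * Z ^ 2 * L ^ 2 * ρ := by
    have hexp : Real.exp ρ ≤ 3 := by
      have := Real.exp_one_lt_d9
      exact (Real.exp_le_exp.mpr hρ1).trans (by linarith)
    have hexp1 : 1 ≤ Real.exp ρ := Real.one_le_exp hρ.le
    have hXe : Z ≤ Z * Real.exp ρ := by nlinarith
    set a : G → ℂ := fun z => if z ∈ V Z then 0 else F z * (mA P Q ρ Z z : ℂ) with ha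
    have hsub : V Z ⊆ V (Z * Real.exp ρ) := by
      intro z hz
      rw [mem_V] at hz ⊢
      exact ⟨hz.1.trans hXe, hz.2⟩
    have e1 : ∀ k, A3C F P Q ρ Z k = ∑ z ∈ V (Z * Real.exp ρ), a z * xi (-k) z := by
      intro k
      rw [← Finset.sum_sdiff hsub, A3C]
      have e2 : ∑ z ∈ V Z, a z * xi (-k) z = 0 := by
        refine Finset.sum_eq_zero fun z hz => ?_
        rw [ha]
        simp [hz]
      rw [e2, add_zero]
      refine Finset.sum_congr rfl fun z hz => ?_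
      have e3 : z ∉ V Z := (Finset.mem_sdiff.mp hz).2
      rw [ha]
      simp [e3]
    have e2 : ∑ z ∈ V (Z * Real.exp ρ), ‖a z‖ ^ 2 ≤ C3 * ρ * Z * (2 * L) ^ 2 := by
      rw [← Finset.sum_sdiff hsub]
      have e3 : ∑ z ∈ V Z, ‖a z‖ ^ 2 = 0 := by
        refine Finset.sum_eq_zero fun z hz => ?_
        rw [ha]
        simp [hz]
      rw [e3, add_zero]
      calc ∑ z ∈ V (Z * Real.exp ρ) \ V Z, ‖a z‖ ^ 2
          ≤ ∑ z ∈ V (Z * Real.exp ρ) \ V Z, (om P Q z) ^ 2 := by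
            refine Finset.sum_le_sum fun z hz => ?_
            have e4 : z ∉ V Z := (Finset.mem_sdiff.mp hz).2
            have e5 := (Finset.mem_sdiff.mp hz).1
            have e6 : ‖a z‖ ≤ mA P Q ρ Z z := by
              rw [ha]
              simp only [e4, if_false]
              rw [norm_mul, Complex.norm_natCast]
              exact mul_le_of_le_one_left (Nat.cast_nonneg _) (hF.norm (mem_V.mp e5).2.1)
            exact pow_le_pow_left₀ (norm_nonneg _)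
              (e6.trans (mA_le P Q ρ Z hρ z (V_ne_zero e5))) 2
        _ ≤ C3 * ρ * Z * (L + 1) ^ 2 := hann P Q Z ρ hP2 hPQ hQZ hρ hρ1 hZρ
        _ ≤ C3 * ρ * Z * (2 * L) ^ 2 := by
            gcongr
            linarith
    simp only [e1]
    refine (horth X (Z * Real.exp ρ) hX1 (hZ1.trans hXe) S hS hS1 a).trans ?_
    calc C1 * (Z * Real.exp ρ) * ∑ z ∈ V (Z * Real.exp ρ), ‖a z‖ ^ 2
        ≤ C1 * (Z * 3) * (C3 * ρ * Z * (2 * L) ^ 2) := by
          have e4 : 0 ≤ ∑ z ∈ V (Z * Real.exp ρ), ‖a z‖ ^ 2 :=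
            Finset.sum_nonneg fun _ _ => sq_nonneg _
          gcongr
      _ = 12 * C1 * C3 * Z ^ 2 * L ^ 2 * ρ := by ring
  -- second part
  have hA2 : ∑ k ∈ S, ‖A2C F P Q ρ Z k‖ ^ 2 ≤ 54 ^ 2 * Z ^ 2 := by
    have e1 : ∀ k ∈ S, ‖A2C F P Q ρ Z k‖ ^ 2 ≤ (54 * Z / P) ^ 2 := fun k _ =>
      pow_le_pow_left₀ (norm_nonneg _) (sf_A2 F hF P Q ρ Z k (by linarith) hρ hρ1 hZ0.le) 2
    refine (Finset.sum_le_sum e1).trans ?_
    rw [Finset.sum_const, nsmul_eq_mul]
    have hP0 : 0 < P := by linarith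
    calc (S.card : ℝ) * (54 * Z / P) ^ 2 ≤ P * (54 * Z / P) ^ 2 :=
          mul_le_mul_of_nonneg_right hS2 (sq_nonneg _)
      _ = 54 ^ 2 * Z ^ 2 * (1 / P) := by field_simp
      _ ≤ 54 ^ 2 * Z ^ 2 * 1 := by
          apply mul_le_mul_of_nonneg_left _ (by positivity)
          rw [div_le_one hP0]
          linarith
      _ = 54 ^ 2 * Z ^ 2 := by ring
  calc ∑ k ∈ S, ‖(L : ℂ) * fcC F Z k - UZC F P Q ρ Z k‖ ^ 2
      ≤ ∑ k ∈ S, 3 * (‖∑ z ∈ V Z, (F z * ((L - om P Q z : ℝ) : ℂ)) * xi (-k) z‖ ^ 2 +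
          ‖A2C F P Q ρ Z k‖ ^ 2 + ‖A3C F P Q ρ Z k‖ ^ 2) := by
        refine Finset.sum_le_sum fun k _ => ?_
        rw [hdec]
        exact h3 _ _ _
    _ = 3 * (∑ k ∈ S, ‖∑ z ∈ V Z, (F z * ((L - om P Q z : ℝ) : ℂ)) * xi (-k) z‖ ^ 2 +
          ∑ k ∈ S, ‖A2C F P Q ρ Z k‖ ^ 2 + ∑ k ∈ S, ‖A3C F P Q ρ Z k‖ ^ 2) := by
        rw [← Finset.mul_sum, Finset.sum_add_distrib, Finset.sum_add_distrib]
    _ ≤ 3 * (2 * C1 * C2 * Z ^ 2 * L + 54 ^ 2 * Z ^ 2 +
          12 * C1 * C3 * Z ^ 2 * L ^ 2 * ρ) := by gcongr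
    _ ≤ 3 * (2 * C1 * C2 + 54 ^ 2 + 12 * C1 * C3) * Z ^ 2 * L ^ 2 * (1 / L + ρ) := by
        have e1 : Z ^ 2 * L ^ 2 * (1 / L) = Z ^ 2 * L := by field_simp
        have e4 : 3 * (2 * C1 * C2 + 54 ^ 2 + 12 * C1 * C3) * Z ^ 2 * L ^ 2 *
            (1 / L + ρ) = 3 * (2 * C1 * C2 + 54 ^ 2 + 12 * C1 * C3) *
              (Z ^ 2 * L + Z ^ 2 * L ^ 2 * ρ) := by
          rw [← e1]
          ring
        rw [e4]
        have p2 : 0 ≤ C1 * C2 * (Z ^ 2 * L ^ 2 * ρ) := by positivity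
        have p4 : 0 ≤ Z ^ 2 * L ^ 2 * ρ := by positivity
        have p6 : 0 ≤ C1 * C3 * (Z ^ 2 * L) := by positivity
        have p7 : Z ^ 2 ≤ Z ^ 2 * L := le_mul_of_one_le_right (by positivity) hLs
        nlinarith

end Pool.Agent.ECM

end
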