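import Mathlib
import Pool.Agent.Lib_MP_f1a94e_m.G06
import Pool.Agent.Lib_MP_f1a94e_m.G08
import Pool.Agent.Lib_MP_f1a94e_m.G17
import Pool.Agent.Lib_MP_f1a94e_m.G19
import Pool.Agent.Lib_MP_f1a94e_m.G20

/-!
# MP_f1a94e_nt: merged library part G23

Concatenation of files of the libraries `Lib_MP_f1a94e_*` (each in its own section), only to save build time.
-/

/-! ### from `Lib_MP_f1a94e_lp.ApxA` -/

section

/-!
# Piece APXA: the weights are uniformly close to their limits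
-/

set_option autoImplicit false

namespace Pool.Agent.LPr

open Finset Pool.Agent.GaussMR Pool.Agent.OmAll Pool.Agent.OmEq MeasureTheory Filter

private theorem apxoa_WO_ne {h : ℝ → ℝ} {h1 h2 : ℝ} (hh : HF h h1 h2) {J N : ℕ} (hJ : 1 ≤ J) (hN : 1 ≤ N)
    {y t : ℝ} (hne : WO h J N y t ≠ 0) :
    0 < y ∧ y < ((J : ℝ) + N) * h2 ∧ 0 ≤ t ∧ t < 2 * Real.log (J + N) := by
  have hJ' : (1 : ℝ) ≤ J := by exact_mod_cast hJ
  have hN' : (1 : ℝ) ≤ N := by exact_mod_cast hN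
  unfold WO at hne
  obtain ⟨x, hx⟩ : ∃ x : ℝ, x = Real.exp (t / 2) := ⟨_, rfl⟩
  have hx0 : 0 < x := by rw [hx]; exact Real.exp_pos _
  have hxn : Real.exp (-t / 2) = x⁻¹ := by rw [hx, ← Real.exp_neg, neg_div]
  rw [← hx, hxn] at hne
  have hne' : h (y * x⁻¹) * rho J N x ≠ 0 := by exact_mod_cast hne
  have e1 := left_ne_zero_of_mul hne'
  have e2 := apxn_rho_ne hN (right_ne_zero_of_mul hne')
  have e3 : h1 < y * x⁻¹ := by
    by_contra h0
    exact e1 (hh.lo _ (not_lt.1 h0))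
  have e4 : y * x⁻¹ < h2 := by
    by_contra h0
    exact e1 (hh.hi _ (not_lt.1 h0))
  have hy : 0 < y := by
    by_contra h0
    have h3 : y * x⁻¹ ≤ 0 := mul_nonpos_of_nonpos_of_nonneg (not_lt.1 h0) (by positivity)
    linarith [hh.pos]
  refine ⟨hy, ?_, ?_, ?_⟩
  · rw [← div_eq_mul_inv, div_lt_iff₀ hx0] at e4
    have : h2 * x ≤ h2 * (J + N) := mul_le_mul_of_nonneg_left e2.2.le (by linarith [hh.one])
    linarith
  · have h3 : 1 ≤ Real.exp (t / 2) := by
      rw [← hx]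
      linarith [e2.1]
    have := Real.one_le_exp_iff.1 h3
    linarith
  · have h3 : t / 2 < Real.log (J + N) := by
      rw [Real.lt_log_iff_exp_lt (by positivity), ← hx]
      exact e2.2
    linarith

/-- the weight as a continuous function of `(y, t, δ)` -/
private noncomputable def apxoa_K (h : ℝ → ℝ) (J N : ℕ) (h1 : ℝ) (p : ℝ × ℝ × ℝ) : ℝ :=
  h (√(p.1 ^ 2 + p.2.2 ^ 2) * Real.exp (-p.2.1 / 2)) *
    rho J N (p.1 / max (√(p.1 ^ 2 + p.2.2 ^ 2) * Real.exp (-p.2.1 / 2)) h1)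

private theorem apxoa_K_cont {h : ℝ → ℝ} {h1 h2 : ℝ} (hh : HF h h1 h2) (J N : ℕ) :
    Continuous (apxoa_K h J N h1) := by
  have c0 : Continuous fun p : ℝ × ℝ × ℝ => √(p.1 ^ 2 + p.2.2 ^ 2) * Real.exp (-p.2.1 / 2) := by
    fun_prop
  have c1 : Continuous fun p : ℝ × ℝ × ℝ =>
      max (√(p.1 ^ 2 + p.2.2 ^ 2) * Real.exp (-p.2.1 / 2)) h1 := c0.max continuous_const
  have hne : ∀ p : ℝ × ℝ × ℝ, max (√(p.1 ^ 2 + p.2.2 ^ 2) * Real.exp (-p.2.1 / 2)) h1 ≠ 0 := fun p =>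
    (lt_of_lt_of_le hh.pos (le_max_right _ _)).ne'
  have d1 : Continuous fun p : ℝ × ℝ × ℝ =>
      p.1 / max (√(p.1 ^ 2 + p.2.2 ^ 2) * Real.exp (-p.2.1 / 2)) h1 :=
    Continuous.div (by fun_prop) c1 hne
  exact (hh.cont.comp c0).mul ((apxn_rho_cont J N).comp d1)

private theorem apxoa_K_zero {h : ℝ → ℝ} {h1 h2 : ℝ} (hh : HF h h1 h2) {J N : ℕ}
    {y t : ℝ} (hy : 0 < y) : ((apxoa_K h J N h1 (y, t, 0) : ℝ) : ℂ) = WO h J N y t := by
  have hs : √(y ^ 2 + (0 : ℝ) ^ 2) = y := by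
    rw [zero_pow two_ne_zero, add_zero, Real.sqrt_sq hy.le]
  obtain ⟨x, hx⟩ : ∃ x : ℝ, x = Real.exp (t / 2) := ⟨_, rfl⟩
  have hx0 : 0 < x := by rw [hx]; exact Real.exp_pos _
  have hxn : Real.exp (-t / 2) = x⁻¹ := by rw [hx, ← Real.exp_neg, neg_div]
  unfold WO apxoa_K
  simp only
  rw [hs, hxn, ← hx]
  congr 1
  by_cases h3 : y * x⁻¹ ≤ h1
  · rw [hh.lo _ h3]
    ring
  · have h4 : max (y * x⁻¹) h1 = y * x⁻¹ := max_eq_left (not_le.1 h3).le
    rw [h4]
    have e1 : y / (y * x⁻¹) = x := by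
      field_simp
    rw [e1]

private theorem apxoa_w {h : ℝ → ℝ} {h1 h2 : ℝ} (hh : HF h h1 h2) {J N : ℕ} {X : ℝ} (hX : 0 < X)
    {e : G × G} (he : En 1 e) :
    h (nm e.1 / X) * rho J N (mE e / nm e.1) = apxoa_K h J N h1 (mE e / X, tE e, 1 / X) := by
  have hne := clu_nm_ne (by omega : 0 < 1) he
  have hP : (0 : ℝ) < nm e.1 := by exact_mod_cast Nat.pos_of_ne_zero hne.1
  have hQ : (0 : ℝ) < nm e.2 := by exact_mod_cast Nat.pos_of_ne_zero hne.2
  have hPQ : (nm e.1 : ℝ) * nm e.2 = mE e ^ 2 + 1 ^ 2 := by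
    have h4 := dot_sq_add_det_sq e.1 e.2
    rw [he.1] at h4
    unfold mE
    exact_mod_cast h4.symm
  have hs : √((mE e / X) ^ 2 + (1 / X) ^ 2) = √(nm e.1) * √(nm e.2) / X := by
    rw [← Real.sqrt_mul hP.le, hPQ]
    have h5 : (mE e / X) ^ 2 + (1 / X) ^ 2 = (mE e ^ 2 + 1 ^ 2) / X ^ 2 := by ring
    rw [h5, Real.sqrt_div' _ (by positivity), Real.sqrt_sq hX.le]
  have ht : Real.exp (tE e / 2) = √(nm e.2) / √(nm e.1) := by
    unfold tE
    rw [sub_div, Real.exp_sub, ← Real.log_sqrt hQ.le, ← Real.log_sqrt hP.le,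
      Real.exp_log (Real.sqrt_pos.2 hQ), Real.exp_log (Real.sqrt_pos.2 hP)]
  have ht' : Real.exp (-tE e / 2) = √(nm e.1) / √(nm e.2) := by
    rw [neg_div, Real.exp_neg, ht, inv_div]
  have q1 := Real.sqrt_pos.2 hP
  have q2 := Real.sqrt_pos.2 hQ
  have s1 := Real.mul_self_sqrt hP.le
  have f1 : √(nm e.1) * √(nm e.2) / X * (√(nm e.1) / √(nm e.2)) = nm e.1 / X := by
    calc √(nm e.1) * √(nm e.2) / X * (√(nm e.1) / √(nm e.2)) = √(nm e.1) * √(nm e.1) / X := by
          field_simp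
      _ = nm e.1 / X := by rw [s1]
  unfold apxoa_K
  simp only
  rw [hs, ht', f1]
  by_cases h3 : (nm e.1 : ℝ) / X ≤ h1
  · rw [hh.lo _ h3]
    ring
  · rw [max_eq_left (not_le.1 h3).le]
    have e1 : mE e / X / (nm e.1 / X) = mE e / nm e.1 := by
      field_simp
    rw [e1]

private theorem apxoa_t_bound {J N : ℕ} (hJ : 1 ≤ J) (hN : 1 ≤ N)
    {e : G × G} (he : En 1 e) (hne : rho J N (mE e / nm e.1) ≠ 0) :
    |tE e| ≤ Real.log ((J + N) ^ 2 + 1) := by
  have hJ' : (1 : ℝ) ≤ J := by exact_mod_cast hJ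
  have hN' : (1 : ℝ) ≤ N := by exact_mod_cast hN
  have hnz := clu_nm_ne (by omega : 0 < 1) he
  have hP : (0 : ℝ) < nm e.1 := by exact_mod_cast Nat.pos_of_ne_zero hnz.1
  have hP1 : (1 : ℝ) ≤ nm e.1 := by exact_mod_cast Nat.pos_of_ne_zero hnz.1
  have hQ : (0 : ℝ) < nm e.2 := by exact_mod_cast Nat.pos_of_ne_zero hnz.2
  have hPQ : (nm e.1 : ℝ) * nm e.2 = mE e ^ 2 + 1 ^ 2 := by
    have h4 := dot_sq_add_det_sq e.1 e.2
    rw [he.1] at h4
    unfold mE
    exact_mod_cast h4.symm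
  obtain ⟨e1, e2⟩ := apxn_rho_ne hN hne
  obtain ⟨P, hPe⟩ : ∃ P : ℝ, P = nm e.1 := ⟨_, rfl⟩
  obtain ⟨Q, hQe⟩ : ∃ Q : ℝ, Q = nm e.2 := ⟨_, rfl⟩
  obtain ⟨m, hme⟩ : ∃ m, m = mE e := ⟨_, rfl⟩
  obtain ⟨M, hM⟩ : ∃ M : ℝ, M = J + N := ⟨_, rfl⟩
  unfold tE
  rw [← hPe, ← hQe, ← hme] at hPQ
  rw [← hPe, ← hme] at e1 e2
  rw [← hM] at e2
  rw [← hPe] at hP hP1
  rw [← hQe] at hQ
  rw [← hPe, ← hQe, ← hM]
  rw [lt_div_iff₀ hP] at e1
  rw [div_lt_iff₀ hP] at e2
  have g1 : P ≤ m := by nlinarith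
  have g2 : P ≤ Q := by
    by_contra h0
    nlinarith
  have g3 : Q ≤ (M ^ 2 + 1) * P := by
    have h5 : P * Q ≤ P * ((M ^ 2 + 1) * P) := by
      rw [hPQ]
      have h6 : m ^ 2 ≤ (M * P) ^ 2 := pow_le_pow_left₀ (by linarith) e2.le 2
      nlinarith
    exact le_of_mul_le_mul_left h5 hP
  have l1 : Real.log P ≤ Real.log Q := Real.log_le_log hP g2
  have l2 : Real.log Q ≤ Real.log (M ^ 2 + 1) + Real.log P := by
    rw [← Real.log_mul (by positivity) hP.ne']
    exact Real.log_le_log hQ g3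
  rw [abs_le]
  have l3 : 0 ≤ Real.log (M ^ 2 + 1) := Real.log_nonneg (by nlinarith [sq_nonneg M])
  constructor <;> linarith

/-- PROOF. The proof of `apxN` (ApxN.lean, last theorem) verbatim: `hterm` there bounds `‖wN - WN‖` by `ε / (2 C b)` if `|tE e| ≤ B` and shows that it vanishes otherwise; the functions `f` only appear
in the last step. Use the public lemmas `apxn_K_cont`, `apxn_wN`, `apxn_K_zero`, `apxn_t_bound`, `apxn_WN_ne`, `cnt`. -/
theorem apxN_abs (h : ℝ → ℝ) (h1 h2 : ℝ) (hh : HF h h1 h2) (J N n : ℕ) (hJ : 1 ≤ J) (hN : 1 ≤ N) (hn : 1 ≤ n)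
    (b : ℝ) (hb : 0 < b) :
    Tendsto (fun X : ℝ => (∑ e ∈ EN n (b * X), ‖((wN h J N n X e : ℝ) : ℂ) - WN h J N n (mE e / X) (tE e)‖) / X)
      atTop (nhds 0) := by
  have hn' : (1 : ℝ) ≤ n := by exact_mod_cast hn
  have hJ' : (1 : ℝ) ≤ J := by exact_mod_cast hJ
  have hN' : (1 : ℝ) ≤ N := by exact_mod_cast hN
  obtain ⟨B, hB⟩ : ∃ B : ℝ, B = 2 * Real.log (J + N) + 2 * Real.log (n + 1) := ⟨_, rfl⟩
  have hl1 : 0 ≤ Real.log ((J : ℝ) + N) := Real.log_nonneg (by linarith)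
  have hl2 : 0 ≤ Real.log ((n : ℝ) + 1) := Real.log_nonneg (by linarith)
  obtain ⟨C, hC, hcnt⟩ := cnt B
  have hK := apxn_K_cont hh J N n hn
  have hcomp : IsCompact (Set.Icc (0 : ℝ) b ×ˢ (Set.Icc (-B) B ×ˢ Set.Icc (0 : ℝ) 1)) :=
    isCompact_Icc.prod (isCompact_Icc.prod isCompact_Icc)
  have huc := hcomp.uniformContinuousOn_of_continuous hK.continuousOn
  rw [Metric.tendsto_atTop]
  intro ε hε
  have hε' : 0 < ε / (2 * (C * b)) := by positivity
  obtain ⟨η, hη, hK2⟩ := Metric.uniformContinuousOn_iff.1 huc (ε / (2 * (C * b))) hε'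
  refine ⟨max 1 (max (n / b) (max n (2 * n / η))), fun X hX => ?_⟩
  have x1 : 1 ≤ X := (le_max_left _ _).trans hX
  have x2 : n / b ≤ X := ((le_max_left _ _).trans (le_max_right _ _)).trans hX
  have x3 : (n : ℝ) ≤ X := ((le_max_left _ _).trans ((le_max_right _ _).trans (le_max_right _ _))).trans hX
  have x4 : 2 * n / η ≤ X :=
    ((le_max_right _ _).trans ((le_max_right _ _).trans (le_max_right _ _))).trans hX
  have hX0 : 0 < X := by linarith
  have y1 : (n : ℝ) ≤ b * X := by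
    rw [div_le_iff₀ hb] at x2
    linarith
  have y2 : (n : ℝ) / X ≤ 1 := by
    rw [div_le_one hX0]
    exact x3
  have y3 : (n : ℝ) / X < η := by
    rw [div_le_iff₀ hη] at x4
    rw [div_lt_iff₀ hX0]
    nlinarith
  have hterm : ∀ e ∈ EN n (b * X), ‖((wN h J N n X e : ℝ) : ℂ) - WN h J N n (mE e / X) (tE e)‖ ≤
      if |tE e| ≤ B then ε / (2 * (C * b)) else 0 := by
    intro e he
    rw [mem_EN (by omega)] at he
    have hm := mE_pos he.1
    have hy : 0 < mE e / X := div_pos hm hX0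
    have hyb : mE e / X ≤ b := by
      rw [div_le_iff₀ hX0]
      exact he.2
    split_ifs with ht
    · rw [apxn_wN hh hn hX0 he.1, ← apxn_K_zero hh hJ hN hn hy, ← Complex.ofReal_sub,
        Complex.norm_real, ← dist_eq_norm]
      refine (hK2 _ ?_ _ ?_ ?_).le
      · rw [abs_le] at ht
        exact ⟨⟨hy.le, hyb⟩, ⟨ht, ⟨by positivity, y2⟩⟩⟩
      · rw [abs_le] at ht
        exact ⟨⟨hy.le, hyb⟩, ⟨ht, ⟨le_refl _, zero_le_one⟩⟩⟩
      · rw [Prod.dist_eq, Prod.dist_eq]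
        simp only [dist_self]
        rw [Real.dist_eq, sub_zero, abs_of_nonneg (by positivity : (0 : ℝ) ≤ n / X)]
        exact max_lt hη (max_lt hη y3)
    · have z1 : wN h J N n X e = 0 := by
        by_contra h3
        have := apxn_t_bound hh hJ hN hn hX0 he.1 h3
        exact ht (by rw [hB]; linarith)
      have z2 : WN h J N n (mE e / X) (tE e) = 0 := by
        by_contra h3
        have h4 := apxn_WN_ne hh hJ hN hn h3
        apply ht
        rw [abs_le, hB]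
        have h5 : 0 < 2 / ((J : ℝ) + N) := by positivity
        constructor <;> linarith [h4.2.2.1, h4.2.2.2]
      rw [z1, z2]
      simp
  rw [dist_zero_right, norm_div, Real.norm_eq_abs X, abs_of_pos hX0, div_lt_iff₀ hX0]
  have hs : ‖∑ e ∈ EN n (b * X), ‖((wN h J N n X e : ℝ) : ℂ) - WN h J N n (mE e / X) (tE e)‖‖ ≤
      ∑ e ∈ EN n (b * X), if |tE e| ≤ B then ε / (2 * (C * b)) else 0 := by
    refine (norm_sum_le _ _).trans (sum_le_sum fun e he => ?_)
    rw [norm_norm]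
    exact hterm e he
  refine lt_of_le_of_lt hs ?_
  rw [← sum_filter, sum_const, nsmul_eq_mul]
  have h5 := hcnt n (by omega) (b * X) y1
  calc (((EN n (b * X)).filter (fun e => |tE e| ≤ B)).card : ℝ) * (ε / (2 * (C * b)))
      ≤ C * (b * X) * (ε / (2 * (C * b))) := mul_le_mul_of_nonneg_right h5 hε'.le
    _ = ε * X / 2 := by field_simp
    _ < ε * X := by
      have : 0 < ε * X := by positivity
      linarith

/-- PROOF. The proof of `apxO` (ApxO.lean) verbatim; the lemmas `apxo_..` there are private, copy them under new names (`apxo_WO_ne`, `apxo_K`, `apxo_K_cont`, `apxo_K_zero`, `apxo_w`, `apxo_t_bound`). -/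
theorem apxO_abs (h : ℝ → ℝ) (h1 h2 : ℝ) (hh : HF h h1 h2) (J N : ℕ) (hJ : 1 ≤ J) (hN : 1 ≤ N)
    (b : ℝ) (hb : 0 < b) :
    Tendsto (fun X : ℝ => (∑ e ∈ EN 1 (b * X), ‖((h (nm e.1 / X) * rho J N (mE e / nm e.1) : ℝ) : ℂ) -
      WO h J N (mE e / X) (tE e)‖) / X) atTop (nhds 0) := by
  have hJ' : (1 : ℝ) ≤ J := by exact_mod_cast hJ
  have hN' : (1 : ℝ) ≤ N := by exact_mod_cast hN
  obtain ⟨B, hB⟩ : ∃ B : ℝ, B = Real.log ((J + N) ^ 2 + 1) := ⟨_, rfl⟩
  have hB2 : 2 * Real.log ((J : ℝ) + N) ≤ B := by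
    rw [hB, ← Nat.cast_two, ← Real.log_pow]
    exact Real.log_le_log (by positivity) (by linarith)
  have hl1 : 0 ≤ Real.log ((J : ℝ) + N) := Real.log_nonneg (by linarith)
  obtain ⟨C, hC, hcnt⟩ := cnt B
  have hK := apxoa_K_cont hh J N
  have hcomp : IsCompact (Set.Icc (0 : ℝ) b ×ˢ (Set.Icc (-B) B ×ˢ Set.Icc (0 : ℝ) 1)) :=
    isCompact_Icc.prod (isCompact_Icc.prod isCompact_Icc)
  have huc := hcomp.uniformContinuousOn_of_continuous hK.continuousOn
  rw [Metric.tendsto_atTop]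
  intro ε hε
  have hε' : 0 < ε / (2 * (C * b)) := by positivity
  obtain ⟨η, hη, hK2⟩ := Metric.uniformContinuousOn_iff.1 huc (ε / (2 * (C * b))) hε'
  refine ⟨max 1 (max (1 / b) (2 * 1 / η)), fun X hX => ?_⟩
  have x1 : 1 ≤ X := (le_max_left _ _).trans hX
  have x2 : 1 / b ≤ X := ((le_max_left _ _).trans (le_max_right _ _)).trans hX
  have x4 : 2 * 1 / η ≤ X := ((le_max_right _ _).trans (le_max_right _ _)).trans hX
  have hX0 : 0 < X := by linarith
  have y1 : ((1 : ℕ) : ℝ) ≤ b * X := by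
    rw [div_le_iff₀ hb] at x2
    rw [Nat.cast_one]
    linarith
  have y2 : 1 / X ≤ 1 := by
    rw [div_le_one hX0]
    exact x1
  have y3 : 1 / X < η := by
    rw [div_le_iff₀ hη] at x4
    rw [div_lt_iff₀ hX0]
    nlinarith
  have hterm : ∀ e ∈ EN 1 (b * X), ‖((h (nm e.1 / X) * rho J N (mE e / nm e.1) : ℝ) : ℂ) -
      WO h J N (mE e / X) (tE e)‖ ≤ if |tE e| ≤ B then ε / (2 * (C * b)) else 0 := by
    intro e he
    rw [mem_EN one_pos] at he
    have hm := mE_pos he.1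
    have hy : 0 < mE e / X := div_pos hm hX0
    have hyb : mE e / X ≤ b := by
      rw [div_le_iff₀ hX0]
      exact he.2
    split_ifs with ht
    · rw [apxoa_w hh hX0 he.1, ← apxoa_K_zero hh hy, ← Complex.ofReal_sub,
        Complex.norm_real, ← dist_eq_norm]
      refine (hK2 _ ?_ _ ?_ ?_).le
      · rw [abs_le] at ht
        exact ⟨⟨hy.le, hyb⟩, ⟨ht, ⟨by positivity, y2⟩⟩⟩
      · rw [abs_le] at ht
        exact ⟨⟨hy.le, hyb⟩, ⟨ht, ⟨le_refl _, zero_le_one⟩⟩⟩
      · rw [Prod.dist_eq, Prod.dist_eq]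
        simp only [dist_self]
        rw [Real.dist_eq, sub_zero, abs_of_nonneg (by positivity : (0 : ℝ) ≤ 1 / X)]
        exact max_lt hη (max_lt hη y3)
    · have z1 : h (nm e.1 / X) * rho J N (mE e / nm e.1) = 0 := by
        by_contra h3
        have := apxoa_t_bound hJ hN he.1 (right_ne_zero_of_mul h3)
        exact ht (by rw [hB]; linarith)
      have z2 : WO h J N (mE e / X) (tE e) = 0 := by
        by_contra h3
        have h4 := apxoa_WO_ne hh hJ hN h3
        apply ht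
        rw [abs_le]
        constructor <;> linarith [h4.2.2.1, h4.2.2.2]
      rw [z1, z2]
      simp
  rw [dist_zero_right, norm_div, Real.norm_eq_abs X, abs_of_pos hX0, div_lt_iff₀ hX0]
  have hs : ‖∑ e ∈ EN 1 (b * X), ‖((h (nm e.1 / X) * rho J N (mE e / nm e.1) : ℝ) : ℂ) -
      WO h J N (mE e / X) (tE e)‖‖ ≤
      ∑ e ∈ EN 1 (b * X), if |tE e| ≤ B then ε / (2 * (C * b)) else 0 := by
    refine (norm_sum_le _ _).trans (sum_le_sum fun e he => ?_)
    rw [norm_norm]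
    exact hterm e he
  refine lt_of_le_of_lt hs ?_
  rw [← sum_filter, sum_const, nsmul_eq_mul]
  have h5 := hcnt 1 one_pos (b * X) y1
  calc (((EN 1 (b * X)).filter (fun e => |tE e| ≤ B)).card : ℝ) * (ε / (2 * (C * b)))
      ≤ C * (b * X) * (ε / (2 * (C * b))) := mul_le_mul_of_nonneg_right h5 hε'.le
    _ = ε * X / 2 := by field_simp
    _ < ε * X := by
      have : 0 < ε * X := by positivity
      linarith

end Pool.Agent.LPr

end

/-! ### from `Lib_MP_f1a94e_lp.RangeBG` -/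

section

/-!
# Piece RANGEBG: the deficit of a block for `FG f χ`
-/

set_option autoImplicit false

namespace Pool.Agent.LPr

open Finset Pool.Agent.GaussMR Pool.Agent.GaussCM Pool.Agent.OmAll Pool.Agent.ECM

private theorem rangeBG_abs (s : Finset G) (hs : s.Nonempty) (f g : G → ℂ) (hf : ∀ w ∈ s, ‖f w‖ = 1) (hg : ∀ w ∈ s, ‖g w‖ = 1) :
    ∑ w ∈ s, (1 - (f w * (starRingEnd ℂ) (g w)).re) ≤ 2 * (s.card : ℝ) * (1 - (‖∑ w ∈ s, (f w + g w)‖ / (2 * s.card)) ^ 2) ∧
    0 ≤ 1 - (‖∑ w ∈ s, (f w + g w)‖ / (2 * s.card)) ^ 2 := by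
  have hn : (0 : ℝ) < s.card := by exact_mod_cast hs.card_pos
  have h1 : ‖∑ w ∈ s, (f w + g w)‖ ^ 2 ≤ (s.card : ℝ) * ∑ w ∈ s, ‖f w + g w‖ ^ 2 := by
    calc ‖∑ w ∈ s, (f w + g w)‖ ^ 2 ≤ (∑ w ∈ s, ‖f w + g w‖) ^ 2 := by
          gcongr
          exact norm_sum_le _ _
      _ ≤ (s.card : ℝ) * ∑ w ∈ s, ‖f w + g w‖ ^ 2 := sq_sum_le_card_mul_sum_sq
  have h2 : ∀ w ∈ s, ‖f w + g w‖ ^ 2 = 2 + 2 * (f w * (starRingEnd ℂ) (g w)).re := by
    intro w hw
    have e1 : ‖f w‖ ^ 2 = 1 := by rw [hf w hw]; norm_num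
    have e2 : ‖g w‖ ^ 2 = 1 := by rw [hg w hw]; norm_num
    rw [← Complex.normSq_eq_norm_sq] at e1 e2 ⊢
    rw [Complex.normSq_add, e1, e2]
    ring
  have h1' : ∑ w ∈ s, ‖f w + g w‖ ^ 2 = 2 * (s.card : ℝ) + 2 * ∑ w ∈ s, (f w * (starRingEnd ℂ) (g w)).re := by
    rw [Finset.sum_congr rfl h2, Finset.sum_add_distrib, ← Finset.mul_sum, Finset.sum_const, nsmul_eq_mul]
    ring
  rw [h1'] at h1
  rw [Finset.sum_sub_distrib, Finset.sum_const, nsmul_eq_mul, mul_one]
  set R := ∑ w ∈ s, (f w * (starRingEnd ℂ) (g w)).re with hR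
  set S := ‖∑ w ∈ s, (f w + g w)‖ with hS
  set n : ℝ := (s.card : ℝ) with hn'
  have h3 : S ≤ 2 * n := by
    calc S ≤ ∑ w ∈ s, ‖f w + g w‖ := norm_sum_le _ _
      _ ≤ ∑ w ∈ s, (2 : ℝ) := by
          refine Finset.sum_le_sum fun w hw => ?_
          calc ‖f w + g w‖ ≤ ‖f w‖ + ‖g w‖ := norm_add_le _ _
            _ = 2 := by rw [hf w hw, hg w hw]; norm_num
      _ = 2 * n := by rw [Finset.sum_const, nsmul_eq_mul]; ring
  have hS0 : 0 ≤ S := norm_nonneg _
  constructor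
  · have h4 : (S / (2 * n)) ^ 2 = S ^ 2 / (4 * n ^ 2) := by
      rw [div_pow]; ring
    rw [h4]
    have h5 : 2 * n * (1 - S ^ 2 / (4 * n ^ 2)) = 2 * n - S ^ 2 / (2 * n) := by
      field_simp
      ring
    rw [h5]
    have h6 : S ^ 2 / (2 * n) ≤ n + R := by
      rw [div_le_iff₀ (by positivity)]
      nlinarith
    linarith
  · have h4 : S / (2 * n) ≤ 1 := by
      rw [div_le_one (by positivity)]
      exact h3
    have h5 : 0 ≤ S / (2 * n) := by positivity
    nlinarith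

private theorem rangeBG_star {w : G} (h : Spl w) : Spl (star w) := by
  unfold Spl at h ⊢
  rw [nm_star]
  exact h

/-- PROOF. Copy of `block_deficit` (ecm/RangeB.lean) with `FL χ` replaced by `FG f χ`: `‖FG f χ w‖ = ‖f p‖ ‖χ w‖ = 1` for the primes `w` with `nm w = p > P0`, `p > D²` (`UF.un`, `chi_norm`), and
`FG f χ w * conj (FG f χ (star w)) = ‖f (nm w)‖² χ w conj (χ (star w)) = χ w conj (χ (star w))` (instead of `(±1)² = 1`). -/
theorem block_deficitG (D : ℕ) (hD : 0 < D) (P0 : ℕ) (f : ℕ → ℂ) (hf : UF P0 f) (χ : G → ℂ) (hχ : Chi D χ) (k : ℤ)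
    (hk : FG f χ ii * xi (-k) ii = 1) (P Q ρ : ℝ) (hρ : 0 < ρ) (hP : (D : ℝ) ^ 2 ≤ P) (hP0 : (P0 : ℝ) ≤ P) (v : ℕ) :
    ∑ w ∈ blk P Q ρ v, (1 - (χ w * (starRingEnd ℂ) (χ (star w)) * xi (-(2 * k)) w).re) / (nm w : ℝ) ≤
      2 * Real.exp ρ * ((∑ w ∈ blk P Q ρ v, 1 / (nm w : ℝ)) * (1 - tb (FG f χ) P Q ρ v k ^ 2)) := by
  rcases (blk P Q ρ v).eq_empty_or_nonempty with hE | hne
  · rw [hE]; simp
  set s := blk P Q ρ v with hs
  set u : G → ℂ := fun w => FG f χ w * xi (-k) w with hu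
  set g : G → ℂ := fun w => FG f χ (star w) * xi (-k) (star w) with hg
  have hmem : ∀ w ∈ s, Spl w ∧ (D : ℝ) ^ 2 < nm w ∧ Real.exp (v * ρ) < (nm w : ℝ) ∧ (nm w : ℝ) ≤ Real.exp ((v + 1) * ρ) := by
    intro w hw
    have h1 := mem_blk.mp hw
    exact ⟨PP_spl h1.1, hP.trans_lt (mem_PP.mp h1.1).1, h1.2.1, h1.2.2⟩
  have hmem0 : ∀ w ∈ s, P0 < nm w := by
    intro w hw
    have h1 := mem_blk.mp hw
    exact_mod_cast hP0.trans_lt (mem_PP.mp h1.1).1
  have hfn : ∀ w ∈ s, ‖f (nm w)‖ = 1 := fun w hw => hf.un _ (hmem w hw).1.1 (hmem0 w hw)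
  have hu1 : ∀ w ∈ s, ‖u w‖ = 1 := by
    intro w hw
    obtain ⟨h1, h2, -, -⟩ := hmem w hw
    simp only [hu, FG]
    rw [norm_mul, norm_mul, hfn w hw, (chi_norm D hD χ hχ w h1.prime h2).2, norm_xi _ h1.prime.ne_zero]
    norm_num
  have hg1 : ∀ w ∈ s, ‖g w‖ = 1 := by
    intro w hw
    obtain ⟨h1, h2, -, -⟩ := hmem w hw
    have h3 : Prime (star w) := (rangeBG_star h1).prime
    simp only [hg, FG]
    rw [norm_mul, norm_mul, nm_star, hfn w hw, (chi_norm D hD χ hχ (star w) h3 (by rw [nm_star]; exact h2)).2,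
      norm_xi _ h3.ne_zero]
    norm_num
  obtain ⟨hA, hB⟩ := rangeBG_abs s hne u g hu1 hg1
  have htb : tb (FG f χ) P Q ρ v k = ‖∑ w ∈ s, (u w + g w)‖ / (2 * s.card) := rfl
  rw [← htb] at hA hB
  have hug : ∀ w ∈ s, u w * (starRingEnd ℂ) (g w) = χ w * (starRingEnd ℂ) (χ (star w)) * xi (-(2 * k)) w := by
    intro w hw
    have h0 : w ≠ 0 := (hmem w hw).1.prime.ne_zero
    simp only [hu, hg, FG]
    rw [nm_star, map_mul, map_mul, xi_star _ h0, neg_neg, conj_xi _ h0]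
    have e1 : xi (-(2 * k)) w = xi (-k) w * xi (-k) w := by
      rw [← xi_add _ _ h0]
      congr 1
      ring
    rw [e1]
    have e2 : f (nm w) * (starRingEnd ℂ) (f (nm w)) = 1 := by
      rw [Complex.mul_conj, Complex.normSq_eq_norm_sq, hfn w hw]
      norm_num
    linear_combination (χ w * (starRingEnd ℂ) (χ (star w)) * (xi (-k) w * xi (-k) w)) * e2
  have hterm : ∀ w ∈ s, (1 - (χ w * (starRingEnd ℂ) (χ (star w)) * xi (-(2 * k)) w).re) / (nm w : ℝ) ≤
      Real.exp (-(v * ρ)) * (1 - (u w * (starRingEnd ℂ) (g w)).re) := by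
    intro w hw
    rw [hug w hw]
    obtain ⟨-, -, h3, -⟩ := hmem w hw
    have h4 : 0 ≤ 1 - (χ w * (starRingEnd ℂ) (χ (star w)) * xi (-(2 * k)) w).re := by
      rw [← hug w hw]
      have h5 : (u w * (starRingEnd ℂ) (g w)).re ≤ ‖u w * (starRingEnd ℂ) (g w)‖ := Complex.re_le_norm _
      rw [norm_mul, RCLike.norm_conj, hu1 w hw, hg1 w hw] at h5
      linarith
    have h5 : (0 : ℝ) < nm w := (Real.exp_pos _).trans h3
    have h6 : 1 / (nm w : ℝ) ≤ Real.exp (-(v * ρ)) := by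
      rw [Real.exp_neg, one_div]
      exact inv_anti₀ (Real.exp_pos _) h3.le
    calc (1 - (χ w * (starRingEnd ℂ) (χ (star w)) * xi (-(2 * k)) w).re) / (nm w : ℝ)
        = (1 / (nm w : ℝ)) * (1 - (χ w * (starRingEnd ℂ) (χ (star w)) * xi (-(2 * k)) w).re) := by ring
      _ ≤ _ := mul_le_mul_of_nonneg_right h6 h4
  have hcard : (s.card : ℝ) ≤ Real.exp ((v + 1) * ρ) * ∑ w ∈ s, 1 / (nm w : ℝ) := by
    rw [Finset.mul_sum]
    calc (s.card : ℝ) = ∑ w ∈ s, (1 : ℝ) := by simp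
      _ ≤ ∑ w ∈ s, Real.exp ((v + 1) * ρ) * (1 / (nm w : ℝ)) := by
          refine Finset.sum_le_sum fun w hw => ?_
          obtain ⟨-, -, h3, h4⟩ := hmem w hw
          have h5 : (0 : ℝ) < nm w := (Real.exp_pos _).trans h3
          rw [mul_one_div, le_div_iff₀ h5, one_mul]
          exact h4
  calc ∑ w ∈ s, (1 - (χ w * (starRingEnd ℂ) (χ (star w)) * xi (-(2 * k)) w).re) / (nm w : ℝ)
      ≤ ∑ w ∈ s, Real.exp (-(v * ρ)) * (1 - (u w * (starRingEnd ℂ) (g w)).re) := Finset.sum_le_sum hterm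
    _ = Real.exp (-(v * ρ)) * ∑ w ∈ s, (1 - (u w * (starRingEnd ℂ) (g w)).re) := by rw [Finset.mul_sum]
    _ ≤ Real.exp (-(v * ρ)) * (2 * (s.card : ℝ) * (1 - tb (FG f χ) P Q ρ v k ^ 2)) :=
        mul_le_mul_of_nonneg_left hA (Real.exp_pos _).le
    _ ≤ Real.exp (-(v * ρ)) * (2 * (Real.exp ((v + 1) * ρ) * ∑ w ∈ s, 1 / (nm w : ℝ)) * (1 - tb (FG f χ) P Q ρ v k ^ 2)) := by
        gcongr
    _ = _ := by
        have e1 : Real.exp ρ = Real.exp (-(v * ρ)) * Real.exp ((v + 1) * ρ) := by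
          rw [← Real.exp_add]
          congr 1
          ring
        rw [e1]
        ring

end Pool.Agent.LPr

end

/-! ### from `Lib_MP_f1a94e_lp.RangeG` -/

section

/-!
# Piece RANGEG: prime polynomials of `FG f χ` are not large on a long range, uniformly in `f`
-/

set_option autoImplicit false

namespace Pool.Agent.LPr

open Finset Pool.Agent.GaussMR Pool.Agent.GaussCM Pool.Agent.OmAll Pool.Agent.ECM

/-- the character `χ z conj (χ (star z))` -/
private noncomputable def rangeChi (χ : G → ℂ) (z : G) : ℂ := χ z * (starRingEnd ℂ) (χ (star z))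

private theorem rangeChi_chi {D : ℕ} {χ : G → ℂ} (hχ : Chi D χ) : Chi D (rangeChi χ) := by
  constructor
  · simp [rangeChi, hχ.one]
  · intro z w
    simp only [rangeChi]
    rw [hχ.mul, star_mul, hχ.mul, map_mul]
    ring
  · intro z w h
    simp only [rangeChi]
    rw [hχ.per z w h]
    have h2 : cg D (star z) (star w) := by
      refine ⟨?_, ?_⟩
      · simpa using h.1
      · rw [Zsqrtd.im_star, Zsqrtd.im_star]
        have := h.2
        have e : -z.im - -w.im = -(z.im - w.im) := by ring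
        rw [e]
        exact (dvd_neg).2 this
    rw [hχ.per _ _ h2]
  · intro z h
    simp only [rangeChi]
    rw [hχ.even z h, zero_mul]
  · intro z
    simp only [rangeChi]
    rw [norm_mul, RCLike.norm_conj]
    exact mul_le_one₀ (hχ.le z) (norm_nonneg _) (hχ.le _)

private theorem range_ii4 : ii * (ii * (ii * ii)) = 1 := by
  apply Zsqrtd.ext <;> simp [ii]

private theorem range_star_ii : star ii = ii * (ii * ii) := by
  apply Zsqrtd.ext <;> simp [ii]

private theorem range_ii_ne : ii ≠ 0 := by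
  intro h
  have := congrArg Zsqrtd.im h
  simp [ii] at this

private theorem range_ii {D P0 : ℕ} {f : ℕ → ℂ} (hf : UF P0 f) {χ : G → ℂ} (hχ : Chi D χ) (k : ℤ) (h : FG f χ ii * xi (-k) ii = 1) :
    rangeChi χ ii * xi (-(2 * k)) ii = 1 := by
  have h1 : FG f χ ii = χ ii := by
    simp only [FG]
    rw [nm_ii, hf.one, one_mul]
  rw [h1] at h
  have hu4 : χ ii * (χ ii * (χ ii * χ ii)) = 1 := by
    rw [← hχ.mul, ← hχ.mul, ← hχ.mul, range_ii4, hχ.one]
  have hst : χ (star ii) = χ ii * (χ ii * χ ii) := by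
    rw [range_star_ii, hχ.mul, hχ.mul]
  have hnorm : ‖χ ii‖ = 1 := by
    have h2 : ‖χ ii * xi (-k) ii‖ = 1 := by rw [h, norm_one]
    rw [norm_mul, norm_xi _ range_ii_ne, mul_one] at h2
    exact h2
  have hconj : (starRingEnd ℂ) (χ ii) * χ ii = 1 := by
    have := Complex.normSq_eq_conj_mul_self (z := χ ii)
    rw [← this, Complex.normSq_eq_norm_sq, hnorm]
    norm_num
  have hc4 : (starRingEnd ℂ) (χ ii) * ((starRingEnd ℂ) (χ ii) * ((starRingEnd ℂ) (χ ii) * (starRingEnd ℂ) (χ ii))) = 1 := by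
    have := congrArg (starRingEnd ℂ) hu4
    simpa [map_mul] using this
  have hx2 : xi (-(2 * k)) ii = xi (-k) ii * xi (-k) ii := by
    rw [← xi_add _ _ range_ii_ne]
    congr 1
    ring
  simp only [rangeChi]
  rw [hst, hx2, map_mul, map_mul]
  set u := χ ii with hu
  set cu := (starRingEnd ℂ) u with hcu
  set x := xi (-k) ii with hx
  -- cu^3 = u
  have h3 : cu * (cu * cu) = u := by
    calc cu * (cu * cu) = (cu * (cu * (cu * cu))) * u * 1 - (cu * (cu * cu)) * (cu * u - 1) := by ring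
      _ = u := by rw [hc4, hconj]; ring
  rw [h3]
  calc u * u * (x * x) = (u * x) * (u * x) := by ring
    _ = 1 := by rw [h]; ring

private theorem range_fl_re {D P0 : ℕ} {f : ℕ → ℂ} (hf : UF P0 f) {χ : G → ℂ} (hχ : Chi D χ) (k : ℤ) (h : FG f χ ii * xi (-k) ii = 1) {w : G}
    (hw : w ≠ 0) :
    (rangeChi χ (fl w) * xi (-(2 * k)) (fl w)).re = (rangeChi χ w * xi (-(2 * k)) w).re := by
  have h1 := range_ii hf hχ k h
  have hχ' := rangeChi_chi hχ
  have h2 : rangeChi χ (fl w) * xi (-(2 * k)) (fl w) = (starRingEnd ℂ) (rangeChi χ w * xi (-(2 * k)) w) := by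
    rw [fl_eq, hχ'.mul, xi_mul, map_mul, conj_xi _ hw, ← xi_star _ hw]
    have h3 : rangeChi χ (star w) = (starRingEnd ℂ) (rangeChi χ w) := by
      simp only [rangeChi, star_star, map_mul, Complex.conj_conj]
      ring
    rw [h3]
    linear_combination ((starRingEnd ℂ) (rangeChi χ w) * xi (-(2 * k)) (star w)) * h1
  rw [h2, Complex.conj_re]

private theorem range_sum_blk (P Q ρ : ℝ) (hP : 1 ≤ P) (hρ : 0 < ρ) (t : G → ℝ) :
    ∑ v ∈ range (nv Q ρ), ∑ w ∈ blk P Q ρ v, t w = ∑ w ∈ PP P Q, t w := by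
  classical
  rw [← Finset.sum_biUnion]
  · refine Finset.sum_congr ?_ fun _ _ => rfl
    ext w
    rw [Finset.mem_biUnion]
    constructor
    · rintro ⟨v, _, hw⟩
      exact (mem_blk.mp hw).1
    · intro hw
      obtain ⟨v, hv, hw'⟩ := blk_exists hP hρ hw
      exact ⟨v, hv, hw'⟩
  · intro v _ v' _ hvv
    rw [Function.onFun, Finset.disjoint_left]
    intro w hw hw'
    exact hvv (blk_unique hρ hw hw')

/-- the statement of `deficit_range` (ecm/RangeA.lean) -/
def DRange : Prop := ∃ c L0 : ℝ, 0 < c ∧ 0 < L0 ∧ ∀ (D : ℕ) (e' e : ℝ), 0 < D → 0 < e' → e' < e → e ≤ 1 → L0 ≤ Real.log (e / e') →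
    ∃ X0 : ℝ, ∀ X : ℝ, X0 ≤ X → ∀ χ : G → ℂ, Chi D χ → ∀ k : ℤ, (k ≠ 0 ∨ ¬ Pri D χ) → |(k : ℝ)| ≤ 2 * X → χ ii * xi k ii = 1 →
    c * Real.log (e / e') ≤ ∑ w ∈ PP (X ^ e') (X ^ e), ((1 - (χ w * xi k w).re) + (1 - (χ (fl w) * xi k (fl w)).re)) / (nm w : ℝ)

/-- PROOF. Copy of `range_def` (ecm/Range.lean; copy its private lemmas too, `range_ii` now with `FG f χ ii = f 1 * χ ii = χ ii`, `UF.one`, `nm_ii`) with `FL χ` replaced by `FG f χ`, `block_deficit` by `block_deficitG`;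
`X0` larger, so that `P0 ≤ X ^ e'`. -/
theorem range_defG (hdr : DRange) : ∃ c L0 : ℝ, 0 < c ∧ c < 1 ∧ 0 < L0 ∧ ∀ (D : ℕ) (e' e : ℝ), 0 < D → 0 < e' → e' < e → e ≤ 1 → L0 ≤ Real.log (e / e') →
    ∀ P0 : ℕ, ∃ X0 : ℝ, ∀ X : ℝ, X0 ≤ X → ∀ f : ℕ → ℂ, UF P0 f → ∀ χ : G → ℂ, Chi D χ → ∀ k : ℤ, k ≠ 0 → |(k : ℝ)| ≤ X →
    FG f χ ii * xi (-k) ii = 1 → ∀ ρ : ℝ, 0 < ρ → ρ ≤ 1 →
    ∑ v ∈ range (nv (X ^ e) ρ), (∑ w ∈ blk (X ^ e') (X ^ e) ρ v, 1 / (nm w : ℝ)) * tb (FG f χ) (X ^ e') (X ^ e) ρ v k ^ 2 ≤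
      (1 - c) * Ls (X ^ e') (X ^ e) := by
  classical
  obtain ⟨c0, L00, hc0, hL00, hrange⟩ := hdr
  obtain ⟨C, hC⟩ := Ls_bounds
  set c : ℝ := min (c0 / (4 * Real.exp 1)) (1 / 2) with hc
  have hcpos : 0 < c := lt_min (by positivity) (by norm_num)
  have hc1 : c < 1 := (min_le_right _ _).trans_lt (by norm_num)
  refine ⟨c, max L00 (2 * |C|), hcpos, hc1, lt_max_of_lt_left hL00, ?_⟩
  intro D e' e hD he' hee he1 hL P0
  have he : 0 < e := he'.trans hee
  have hL1 : L00 ≤ Real.log (e / e') := (le_max_left _ _).trans hL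
  have hL2 : 2 * |C| ≤ Real.log (e / e') := (le_max_right _ _).trans hL
  obtain ⟨X0, hX0⟩ := hrange D e' e hD he' hee he1 hL1
  have htend : Filter.Tendsto (fun X : ℝ => X ^ e') Filter.atTop Filter.atTop := tendsto_rpow_atTop he'
  obtain ⟨X1, hX1⟩ := (Filter.tendsto_atTop_atTop.1 htend) (max ((D : ℝ) ^ 2) (max 2 (P0 : ℝ)))
  refine ⟨max X0 (max X1 2), ?_⟩
  intro X hX f hf χ hχ k hk hkX hkii ρ hρ hρ1
  have hXX0 : X0 ≤ X := (le_max_left _ _).trans hX
  have hXX1 : X1 ≤ X := (le_max_left _ _).trans ((le_max_right _ _).trans hX)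
  have hX2 : (2 : ℝ) ≤ X := (le_max_right _ _).trans ((le_max_right _ _).trans hX)
  have hX1' : (1 : ℝ) ≤ X := by linarith
  have hXpos : (0 : ℝ) < X := by linarith
  have hPD : (D : ℝ) ^ 2 ≤ X ^ e' := (le_max_left _ _).trans (hX1 X hXX1)
  have hP2 : (2 : ℝ) ≤ X ^ e' := (le_max_left _ _).trans ((le_max_right _ _).trans (hX1 X hXX1))
  have hPP0 : (P0 : ℝ) ≤ X ^ e' := (le_max_right _ _).trans ((le_max_right _ _).trans (hX1 X hXX1))
  have hPQ : X ^ e' ≤ X ^ e := Real.rpow_le_rpow_of_exponent_le hX1' hee.le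
  -- the deficit of the range
  have hdef := hX0 X hXX0 (rangeChi χ) (rangeChi_chi hχ) (-(2 * k)) (Or.inl (by omega)) (by
    push_cast
    rw [abs_neg, abs_mul]
    have : |(2 : ℝ)| = 2 := by norm_num
    rw [this]
    linarith) (range_ii hf hχ k hkii)
  set h : G → ℝ := fun w => (1 - (rangeChi χ w * xi (-(2 * k)) w).re) / (nm w : ℝ) with hh
  have hdef2 : c0 * Real.log (e / e') ≤ 2 * ∑ w ∈ PP (X ^ e') (X ^ e), h w := by
    refine hdef.trans (le_of_eq ?_)
    rw [Finset.mul_sum]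
    refine Finset.sum_congr rfl fun w hw => ?_
    rw [range_fl_re hf hχ k hkii (PP_spl hw).prime.ne_zero]
    simp only [hh]
    ring
  have hhnn : ∀ w ∈ PP (X ^ e') (X ^ e), 0 ≤ h w := by
    intro w hw
    have h0 : w ≠ 0 := (PP_spl hw).prime.ne_zero
    have h1 : (rangeChi χ w * xi (-(2 * k)) w).re ≤ ‖rangeChi χ w * xi (-(2 * k)) w‖ := Complex.re_le_norm _
    rw [norm_mul, norm_xi _ h0, mul_one] at h1
    have h2 : 0 ≤ 1 - (rangeChi χ w * xi (-(2 * k)) w).re := by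
      linarith [(rangeChi_chi hχ).le w]
    simp only [hh]
    positivity
  set W : ℕ → ℝ := fun v => ∑ w ∈ blk (X ^ e') (X ^ e) ρ v, 1 / (nm w : ℝ) with hW
  set T : ℕ → ℝ := fun v => tb (FG f χ) (X ^ e') (X ^ e) ρ v k with hT
  have hblk : ∀ v : ℕ, ∑ w ∈ blk (X ^ e') (X ^ e) ρ v, h w ≤ 2 * Real.exp ρ * (W v * (1 - T v ^ 2)) := by
    intro v
    exact block_deficitG D hD P0 f hf χ hχ k hkii (X ^ e') (X ^ e) ρ hρ hPD hPP0 v
  have hblk0 : ∀ v : ℕ, 0 ≤ W v * (1 - T v ^ 2) := by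
    intro v
    have h1 : 0 ≤ ∑ w ∈ blk (X ^ e') (X ^ e) ρ v, h w :=
      Finset.sum_nonneg fun w hw => hhnn w (mem_blk.mp hw).1
    have h2 := h1.trans (hblk v)
    have h3 : 0 < 2 * Real.exp ρ := by positivity
    exact nonneg_of_mul_nonneg_right h2 h3
  have hblk' : ∀ v : ℕ, ∑ w ∈ blk (X ^ e') (X ^ e) ρ v, h w ≤ 2 * Real.exp 1 * (W v * (1 - T v ^ 2)) := by
    intro v
    refine (hblk v).trans (mul_le_mul_of_nonneg_right ?_ (hblk0 v))
    have : Real.exp ρ ≤ Real.exp 1 := Real.exp_le_exp.2 hρ1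
    linarith
  have hsum : ∑ w ∈ PP (X ^ e') (X ^ e), h w ≤ 2 * Real.exp 1 * ∑ v ∈ range (nv (X ^ e) ρ), W v * (1 - T v ^ 2) := by
    rw [← range_sum_blk (X ^ e') (X ^ e) ρ (by linarith) hρ h, Finset.mul_sum]
    exact Finset.sum_le_sum fun v _ => hblk' v
  have hLsW : Ls (X ^ e') (X ^ e) = ∑ v ∈ range (nv (X ^ e) ρ), W v :=
    (range_sum_blk (X ^ e') (X ^ e) ρ (by linarith) hρ fun w => 1 / (nm w : ℝ)).symm
  have hLs0 : 0 ≤ Ls (X ^ e') (X ^ e) := by
    unfold Ls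
    exact Finset.sum_nonneg fun w _ => by positivity
  have hLs1 : Ls (X ^ e') (X ^ e) ≤ Real.log (e / e') := by
    have h1 := hC (X ^ e') (X ^ e) hP2 hPQ
    rw [abs_le] at h1
    have h2 : Real.log (Real.log (X ^ e)) - Real.log (Real.log (X ^ e')) = Real.log (e / e') := by
      have hlX : 0 < Real.log X := Real.log_pos (by linarith)
      rw [Real.log_rpow hXpos, Real.log_rpow hXpos, Real.log_mul he.ne' hlX.ne', Real.log_mul he'.ne' hlX.ne',
        Real.log_div he.ne' he'.ne']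
      ring
    rw [h2] at h1
    have h3 := le_abs_self C
    linarith [h1.2]
  have hsplit : ∑ v ∈ range (nv (X ^ e) ρ), W v * T v ^ 2 = Ls (X ^ e') (X ^ e) - ∑ v ∈ range (nv (X ^ e) ρ), W v * (1 - T v ^ 2) := by
    rw [hLsW, ← Finset.sum_sub_distrib]
    refine Finset.sum_congr rfl fun v _ => ?_
    ring
  show ∑ v ∈ range (nv (X ^ e) ρ), W v * T v ^ 2 ≤ (1 - c) * Ls (X ^ e') (X ^ e)
  rw [hsplit]
  have h4 : c0 / (4 * Real.exp 1) * Real.log (e / e') ≤ ∑ v ∈ range (nv (X ^ e) ρ), W v * (1 - T v ^ 2) := by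
    have h5 : c0 * Real.log (e / e') ≤ 4 * Real.exp 1 * ∑ v ∈ range (nv (X ^ e) ρ), W v * (1 - T v ^ 2) := by
      linarith
    calc c0 / (4 * Real.exp 1) * Real.log (e / e') = (c0 * Real.log (e / e')) / (4 * Real.exp 1) := by ring
      _ ≤ _ := by
          rw [div_le_iff₀ (by positivity)]
          linarith
  have h6 : c * Ls (X ^ e') (X ^ e) ≤ c0 / (4 * Real.exp 1) * Real.log (e / e') := by
    calc c * Ls (X ^ e') (X ^ e) ≤ (c0 / (4 * Real.exp 1)) * Ls (X ^ e') (X ^ e) :=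
          mul_le_mul_of_nonneg_right (min_le_left _ _) hLs0
      _ ≤ _ := mul_le_mul_of_nonneg_left hLs1 (by positivity)
  linarith

end Pool.Agent.LPr

end

/-! ### from `Lib_MP_f1a94e_ecm.ArcDec` -/

section

/-!
# Piece M-ARCDEC: sums over a residue class and an arc in terms of characters
-/

set_option autoImplicit false

namespace Pool.Agent.ECM

open Finset Pool.Agent.GaussMR Pool.Agent.GaussCM Pool.Agent.OmAll

theorem arcdec_cg (D : ℕ) (z b : G) : cg D z b ↔ ((D : ℕ) : G) ∣ z - b := by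
  have := Zsqrtd.intCast_dvd (d := -1) (D : ℤ) (z - b)
  unfold cg
  rw [Int.cast_natCast] at this
  rw [this]
  simp

theorem arcdec_star_dvd {a b : G} (h : a ∣ b) : star a ∣ star b := by
  obtain ⟨c, rfl⟩ := h
  exact ⟨star c, by rw [star_mul, mul_comm]⟩

/-- `δ z` is primitive iff `z` and `star δ` are coprime -/
theorem arcdec_prim {δ z : G} (hδ : Prim δ) (hz : Prim z) :
    Prim (δ * z) ↔ IsCoprime z (star δ) := by
  constructor
  · intro h
    set g : G := EuclideanDomain.gcd z (star δ) with hg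
    have h1 : g ∣ z := EuclideanDomain.gcd_dvd_left _ _
    have h2 : g ∣ star δ := EuclideanDomain.gcd_dvd_right _ _
    have h3 : star g ∣ δ := by
      have := arcdec_star_dvd h2
      rwa [star_star] at this
    have h4 : ((nm g : ℕ) : G) ∣ δ * z := by
      rw [← clschar_mul_star, mul_comm g]
      exact mul_dvd_mul h3 h1
    have h5 := prim_iff.1 h _ h4
    have h6 : IsUnit g := nm_eq_one_iff.1 h5
    have h7 : g = z * EuclideanDomain.gcdA z (star δ) + star δ * EuclideanDomain.gcdB z (star δ) :=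
      EuclideanDomain.gcd_eq_gcd_ab _ _
    obtain ⟨v, hv⟩ := h6.exists_right_inv
    refine ⟨EuclideanDomain.gcdA z (star δ) * v, EuclideanDomain.gcdB z (star δ) * v, ?_⟩
    rw [← hv, h7]
    ring
  · intro h
    by_contra hn
    obtain ⟨g, hg, hgz, hgδ⟩ := exists_of_not_prim hδ hz hn
    have h1 : g ∣ star δ := by
      have := arcdec_star_dvd hgδ
      rwa [star_star] at this
    have h2 := h.isUnit_of_dvd' hgz h1
    have h3 := nm_eq_one_iff.2 h2
    rw [h3] at hg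
    exact Nat.not_prime_one hg

theorem arcdec_arc {δ z : G} (hδ : δ ≠ 0) (hz : z ≠ 0) (θ w : ℝ) :
    InArc θ w (δ * z) ↔ InArc (θ - Complex.arg (δ : ℂ)) w z := by
  have h1 : ((Complex.arg ((δ * z : G) : ℂ) : ℝ) : Real.Angle) =
      ((Complex.arg (δ : ℂ) + Complex.arg (z : ℂ) : ℝ) : Real.Angle) := by
    rw [GaussianInt.toComplex_mul, Complex.arg_mul_coe_angle (toComplex_ne_zero hδ) (toComplex_ne_zero hz),
      Real.Angle.coe_add]
  obtain ⟨k, hk⟩ := Real.Angle.angle_eq_iff_two_pi_dvd_sub.1 h1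
  unfold InArc
  constructor
  · rintro ⟨j, h2, h3⟩
    refine ⟨j + k, ?_, ?_⟩
    · push_cast
      nlinarith
    · push_cast
      nlinarith
  · rintro ⟨j, h2, h3⟩
    refine ⟨j - k, ?_, ?_⟩
    · push_cast
      nlinarith
    · push_cast
      nlinarith

open Classical in
/-- PROOF. `δ = gcd (b, D)` (`D ≠ 0`; `G` is a Euclidean domain), `D = δ μ`, `b = δ b'`, `b'` coprime to `μ`. If no `z` is odd, primitive and `≡ b` the sum is `0` (take `n = 0`); otherwise `δ` is odd and primitive (a divisor of an odd primitive `z` is odd and primitive). `z ≡ b mod D` iff `z = δ z'`, `μ ∣ z' - b'`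
(`cg D z b ↔ (D : G) ∣ z - b`). `z = δ z'` is odd and primitive iff `z'` is odd and primitive and no prime divides both `z'` and `star δ` (if a rational prime `p ∣ δ z'` then, `δ` and `z'` being primitive and odd, `p = π star π` splits and `π ∣ δ`, `star π ∣ z'`; conversely a common prime `π` of `z'` and `star δ` gives `star π * π ∣ δ z'`;
`star π * π = nm π` is a rational integer `> 1`). `(-1)^Ω(nm z) = (-1)^Ω(nm δ) (-1)^Ω(nm z')`, `nm z ≤ X ↔ nm z' ≤ X / nm δ`, `InArc θ w (δ z') ↔ InArc (θ - arg δ) w z'` (`arg` is additive modulo `2π`). Expand `1[μ ∣ z' - b']` with `cls_char`, and let `ψ_i z' = χ_i z' * 1[z' odd, no common prime with star δ]`: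
`Chi D' ψ_i` with `D' = 2 D nm δ` (multiplicative since primes; `z' ≡ w' mod D'` implies the same common primes with `star δ` as `star δ ∣ nm δ ∣ D'`, the same parity, `μ ∣ D ∣ D'`). `a_i = ± c_i`. -/
theorem arc_dec (D : ℕ) (hD : 0 < D) (b : G) : ∃ (D' : ℕ) (n : ℕ) (χ : Fin n → G → ℂ) (a : Fin n → ℂ) (m : ℕ) (φ : ℝ), 0 < D' ∧ 0 < m ∧
    (∀ i, Chi D' (χ i)) ∧ (∀ i, ‖a i‖ ≤ 1) ∧ ∀ X w θ : ℝ,
      (∑ z ∈ (V X).filter (fun z => cg D z b ∧ InArc θ w z), (-1 : ℂ) ^ ArithmeticFunction.cardFactors (nm z)) =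
        ∑ i, a i * arcS (FL (χ i)) (X / m) w (θ - φ) := by
  by_cases hex : ∃ z0 : G, Odd (nm z0) ∧ Prim z0 ∧ cg D z0 b
  swap
  · refine ⟨1, 0, fun i => i.elim0, fun i => i.elim0, 1, 0, one_pos, one_pos, fun i => i.elim0, fun i => i.elim0, ?_⟩
    intro X w θ
    rw [Finset.univ_eq_empty, Finset.sum_empty]
    apply Finset.sum_eq_zero
    intro z hz
    exfalso
    rw [Finset.mem_filter, mem_V] at hz
    exact hex ⟨z, hz.1.2.1, hz.1.2.2, hz.2.1⟩
  obtain ⟨z0, hz0o, hz0p, hz0c⟩ := hex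
  have hDG : ((D : ℕ) : G) ≠ 0 := by exact_mod_cast hD.ne'
  set δ : G := EuclideanDomain.gcd b ((D : ℕ) : G) with hδdef
  obtain ⟨b', hb'⟩ : δ ∣ b := EuclideanDomain.gcd_dvd_left _ _
  obtain ⟨μ, hμ⟩ : δ ∣ ((D : ℕ) : G) := EuclideanDomain.gcd_dvd_right _ _
  have hδ0 : δ ≠ 0 := by
    intro h
    rw [h, zero_mul] at hμ
    exact hDG hμ
  have hμ0 : μ ≠ 0 := by
    intro h
    rw [h, mul_zero] at hμ
    exact hDG hμ
  have hcop : IsCoprime b' μ := by
    have h1 : δ = b * EuclideanDomain.gcdA b ((D : ℕ) : G) + ((D : ℕ) : G) * EuclideanDomain.gcdB b ((D : ℕ) : G) :=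
      EuclideanDomain.gcd_eq_gcd_ab _ _
    refine ⟨EuclideanDomain.gcdA b ((D : ℕ) : G), EuclideanDomain.gcdB b ((D : ℕ) : G), ?_⟩
    have h2 : δ * (EuclideanDomain.gcdA b ((D : ℕ) : G) * b' + EuclideanDomain.gcdB b ((D : ℕ) : G) * μ) = δ * 1 := by
      calc δ * (EuclideanDomain.gcdA b ((D : ℕ) : G) * b' + EuclideanDomain.gcdB b ((D : ℕ) : G) * μ)
          = (δ * b') * EuclideanDomain.gcdA b ((D : ℕ) : G) + (δ * μ) * EuclideanDomain.gcdB b ((D : ℕ) : G) := by ring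
        _ = δ * 1 := by rw [← hb', ← hμ, mul_one]; exact h1.symm
    exact mul_left_cancel₀ hδ0 h2
  -- the gcd is odd and primitive
  have hδz0 : δ ∣ z0 := by
    have h1 := (arcdec_cg D z0 b).1 hz0c
    have h2 : δ ∣ z0 - b := dvd_trans ⟨μ, hμ⟩ h1
    have h3 := dvd_add h2 (⟨b', hb'⟩ : δ ∣ b)
    rwa [sub_add_cancel] at h3
  obtain ⟨y0, hy0⟩ := hδz0
  have hδo : Odd (nm δ) := by
    rw [hy0] at hz0o
    exact (odd_nm_mul.1 hz0o).1
  have hδp : Prim δ := by
    rw [hy0] at hz0p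
    exact (prim_of_mul hz0p).1
  have hm : 0 < nm δ := nm_pos hδ0
  obtain ⟨n, χ, c, hχ, hc, hc1, hc0⟩ := cls_char μ hμ0 b' hcop
  refine ⟨2 * D * nm δ, n, fun i z => χ i z * (if Odd (nm z) ∧ IsCoprime z (star δ) then 1 else 0),
    fun i => (-1 : ℂ) ^ ArithmeticFunction.cardFactors (nm δ) * c i, nm δ, Complex.arg (δ : ℂ), by positivity, hm, ?_, ?_, ?_⟩
  · intro i
    obtain ⟨h1, h2, h3, h4⟩ := hχ i
    constructor
    · have h5 : Odd (nm (1 : G)) ∧ IsCoprime (1 : G) (star δ) := by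
        rw [nm_one]
        exact ⟨odd_one, isCoprime_one_left⟩
      beta_reduce
      rw [h1, if_pos h5, one_mul]
    · intro z w
      beta_reduce
      rw [h2]
      by_cases hz : Odd (nm z) ∧ IsCoprime z (star δ)
      · by_cases hw : Odd (nm w) ∧ IsCoprime w (star δ)
        · have hzw : Odd (nm (z * w)) ∧ IsCoprime (z * w) (star δ) :=
            ⟨odd_nm_mul.2 ⟨hz.1, hw.1⟩, IsCoprime.mul_left hz.2 hw.2⟩
          rw [if_pos hz, if_pos hw, if_pos hzw]
          ring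
        · have hzw : ¬ (Odd (nm (z * w)) ∧ IsCoprime (z * w) (star δ)) := by
            rintro ⟨h5, h6⟩
            exact hw ⟨(odd_nm_mul.1 h5).2, (IsCoprime.mul_left_iff.1 h6).2⟩
          rw [if_neg hw, if_neg hzw]
          ring
      · have hzw : ¬ (Odd (nm (z * w)) ∧ IsCoprime (z * w) (star δ)) := by
          rintro ⟨h5, h6⟩
          exact hz ⟨(odd_nm_mul.1 h5).1, (IsCoprime.mul_left_iff.1 h6).1⟩
        rw [if_neg hz, if_neg hzw]
        ring
    · intro z w hzw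
      have h5 : ((2 * D * nm δ : ℕ) : G) ∣ z - w := (arcdec_cg _ z w).1 hzw
      have h6 : μ ∣ z - w := by
        refine dvd_trans ?_ h5
        refine ⟨2 * δ * ((nm δ : ℕ) : G), ?_⟩
        push_cast
        rw [hμ]
        ring
      have h7 : star δ ∣ z - w := by
        refine dvd_trans ?_ h5
        refine ⟨2 * ((D : ℕ) : G) * δ, ?_⟩
        push_cast
        rw [← clschar_mul_star]
        ring
      have h8 : IsCoprime z (star δ) ↔ IsCoprime w (star δ) := by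
        obtain ⟨k, hk⟩ := h7
        have h9 : z = w + star δ * k := by rw [← hk]; ring
        rw [h9]
        exact IsCoprime.add_mul_left_left_iff
      have h10 : Odd (nm z) ↔ Odd (nm w) := by
        rw [odd_nm_iff, odd_nm_iff]
        obtain ⟨h11, h12⟩ := hzw
        have h13 : (2 : ℤ) ∣ z.re - w.re := by
          refine dvd_trans ?_ h11
          push_cast
          rw [mul_assoc]
          exact dvd_mul_right _ _
        have h14 : (2 : ℤ) ∣ z.im - w.im := by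
          refine dvd_trans ?_ h12
          push_cast
          rw [mul_assoc]
          exact dvd_mul_right _ _
        rw [Int.odd_iff, Int.odd_iff]
        omega
      have h15 := h3 z w h6
      simp only [h15, h8, h10]
    · intro z hz
      have h5 : ¬ (Odd (nm z) ∧ IsCoprime z (star δ)) := fun h => hz h.1
      simp only [if_neg h5, mul_zero]
    · intro z
      beta_reduce
      rw [norm_mul]
      have h5 : ‖(if Odd (nm z) ∧ IsCoprime z (star δ) then (1 : ℂ) else 0)‖ ≤ 1 := by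
        split_ifs
        · simp
        · simp
      calc ‖χ i z‖ * ‖(if Odd (nm z) ∧ IsCoprime z (star δ) then (1 : ℂ) else 0)‖ ≤ 1 * 1 :=
            mul_le_mul (h4 z) h5 (norm_nonneg _) zero_le_one
        _ = 1 := one_mul 1
  · intro i
    beta_reduce
    rw [norm_mul, norm_pow, norm_neg, norm_one, one_pow, one_mul]
    exact (Finset.single_le_sum (f := fun i => ‖c i‖) (fun j _ => norm_nonneg _) (Finset.mem_univ i)).trans hc
  · intro X w θ
    have hswap : ∑ i, ((-1 : ℂ) ^ ArithmeticFunction.cardFactors (nm δ) * c i) *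
        arcS (FL (fun z => χ i z * (if Odd (nm z) ∧ IsCoprime z (star δ) then 1 else 0))) (X / (nm δ : ℕ)) w
          (θ - Complex.arg (δ : ℂ)) =
        ∑ z ∈ V (X / (nm δ : ℕ)), if InArc (θ - Complex.arg (δ : ℂ)) w z ∧ IsCoprime z (star δ) ∧ μ ∣ z - b' then
          (-1 : ℂ) ^ ArithmeticFunction.cardFactors (nm (δ * z)) else 0 := by
      unfold arcS
      simp only [Finset.mul_sum]
      rw [Finset.sum_comm]
      refine Finset.sum_congr rfl fun z hz => ?_
      have hzV := mem_V.1 hz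
      by_cases ha : InArc (θ - Complex.arg (δ : ℂ)) w z
      swap
      · have h1 : ¬ (InArc (θ - Complex.arg (δ : ℂ)) w z ∧ IsCoprime z (star δ) ∧ μ ∣ z - b') := fun h => ha h.1
        rw [if_neg h1]
        simp only [if_neg ha, mul_zero, Finset.sum_const_zero]
      simp only [if_pos ha]
      by_cases hco : IsCoprime z (star δ)
      swap
      · have h1 : ¬ (InArc (θ - Complex.arg (δ : ℂ)) w z ∧ IsCoprime z (star δ) ∧ μ ∣ z - b') := fun h => hco h.2.1
        have h2 : ¬ (Odd (nm z) ∧ IsCoprime z (star δ)) := fun h => hco h.2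
        rw [if_neg h1]
        simp only [FL, if_neg h2, mul_zero, Finset.sum_const_zero]
      have h2 : (Odd (nm z) ∧ IsCoprime z (star δ)) := ⟨hzV.2.1, hco⟩
      have h3 : ∀ i : Fin n, ((-1 : ℂ) ^ ArithmeticFunction.cardFactors (nm δ) * c i) *
          FL (fun z => χ i z * (if Odd (nm z) ∧ IsCoprime z (star δ) then 1 else 0)) z =
          (-1 : ℂ) ^ ArithmeticFunction.cardFactors (nm (δ * z)) * (c i * χ i z) := by
        intro i
        simp only [FL, if_pos h2]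
        rw [nm_mul, ArithmeticFunction.cardFactors_mul hm.ne' (nm_pos_of_odd hzV.2.1).ne', pow_add]
        ring
      rw [Finset.sum_congr rfl fun i _ => h3 i, ← Finset.mul_sum]
      by_cases hd : μ ∣ z - b'
      · rw [hc1 z hd, mul_one, if_pos ⟨ha, hco, hd⟩]
      · have h1 : ¬ (InArc (θ - Complex.arg (δ : ℂ)) w z ∧ IsCoprime z (star δ) ∧ μ ∣ z - b') := fun h => hd h.2.2
        rw [hc0 z hd, mul_zero, if_neg h1]
    rw [hswap, ← Finset.sum_filter]
    symm
    have hmR : (0 : ℝ) < (nm δ : ℕ) := by exact_mod_cast hm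
    refine Finset.sum_bij (fun z _ => δ * z) ?_ ?_ ?_ ?_
    · intro z hz
      rw [Finset.mem_filter, mem_V] at hz
      obtain ⟨⟨h1, h2, h3⟩, h4, h5, h6⟩ := hz
      rw [Finset.mem_filter, mem_V]
      refine ⟨⟨?_, odd_nm_mul.2 ⟨hδo, h2⟩, (arcdec_prim hδp h3).2 h5⟩, ?_, ?_⟩
      · rw [nm_mul]
        push_cast
        rw [le_div_iff₀ hmR] at h1
        linarith
      · rw [arcdec_cg, hμ, hb', ← mul_sub]
        exact mul_dvd_mul_left δ h6
      · exact (arcdec_arc hδ0 (ne_zero_of_odd h2) θ w).2 h4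
    · intro z _ z' _ h
      exact mul_left_cancel₀ hδ0 h
    · intro z hz
      rw [Finset.mem_filter, mem_V] at hz
      obtain ⟨⟨h1, h2, h3⟩, h4, h5⟩ := hz
      have h6 := (arcdec_cg D z b).1 h4
      have h7 : δ ∣ z := by
        have h2 : δ ∣ z - b := dvd_trans ⟨μ, hμ⟩ h6
        have h3 := dvd_add h2 (⟨b', hb'⟩ : δ ∣ b)
        rwa [sub_add_cancel] at h3
      obtain ⟨y, rfl⟩ := h7
      have h8 := odd_nm_mul.1 h2
      have h9 := prim_of_mul h3
      refine ⟨y, ?_, rfl⟩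
      rw [Finset.mem_filter, mem_V]
      refine ⟨⟨?_, h8.2, h9.2⟩, (arcdec_arc hδ0 (ne_zero_of_odd h8.2) θ w).1 h5, (arcdec_prim hδp h9.2).1 h3, ?_⟩
      · rw [nm_mul] at h1
        push_cast at h1
        rw [le_div_iff₀ hmR]
        linarith
      · rw [hμ, hb', ← mul_sub] at h6
        exact (mul_dvd_mul_iff_left hδ0).1 h6
    · intro z _
      rfl

end Pool.Agent.ECM

end

/-! ### from `Lib_MP_f1a94e_lp.ArcDecG` -/

section

/-!
# Piece ARCDECG: sums over a residue class and an arc in terms of characters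
-/

set_option autoImplicit false

namespace Pool.Agent.LPr

open Finset Pool.Agent.GaussMR Pool.Agent.GaussCM Pool.Agent.OmAll Pool.Agent.ECM

open Classical in
/-- PROOF. Copy of `arc_dec` (ecm/ArcDec.lean): the same `D'`, `n`, `χ`, `m = nm δ`, `φ = arg δ` and `c_i` (there `a_i = (-1)^Ω(nm δ) c_i`); every step multiplies `(-1)^Ω(nm z)`, which is replaced by `f (nm z)`: `f (nm (δ z')) = f (nm δ) f (nm z')`.
In the degenerate case (no odd primitive `z ≡ b`) take `n = 0`. The second identity is the same without arcs (`fcC F X 0 = ∑_(V X) F z` since `xi 0 z = 1` on `V X`). -/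
theorem arc_decG (D : ℕ) (hD : 0 < D) (b : G) : ∃ (D' : ℕ) (n : ℕ) (χ : Fin n → G → ℂ) (c : Fin n → ℂ) (m : ℕ) (φ : ℝ), 0 < D' ∧ 0 < m ∧
    (∀ i, Chi D' (χ i)) ∧ (∀ i, ‖c i‖ ≤ 1) ∧ ∀ f : ℕ → ℂ, (∀ m n, f (m * n) = f m * f n) →
      (∀ X w θ : ℝ, (∑ z ∈ (V X).filter (fun z => cg D z b ∧ InArc θ w z), f (nm z)) =
        f m * ∑ i, c i * arcS (FG f (χ i)) (X / m) w (θ - φ)) ∧
      (∀ X : ℝ, clS f D b X = f m * ∑ i, c i * fcC (FG f (χ i)) (X / m) 0) := by
  by_cases hex : ∃ z0 : G, Odd (nm z0) ∧ Prim z0 ∧ cg D z0 b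
  swap
  · refine ⟨1, 0, fun i => i.elim0, fun i => i.elim0, 1, 0, one_pos, one_pos, fun i => i.elim0,
      fun i => i.elim0, ?_⟩
    intro f _
    constructor
    · intro X w θ
      rw [Finset.univ_eq_empty, Finset.sum_empty, mul_zero]
      apply Finset.sum_eq_zero
      intro z hz
      exfalso
      rw [Finset.mem_filter, mem_V] at hz
      exact hex ⟨z, hz.1.2.1, hz.1.2.2, hz.2.1⟩
    · intro X
      rw [Finset.univ_eq_empty, Finset.sum_empty, mul_zero]
      unfold clS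
      apply Finset.sum_eq_zero
      intro z hz
      exfalso
      rw [Finset.mem_filter, mem_V] at hz
      exact hex ⟨z, hz.1.2.1, hz.1.2.2, hz.2⟩
  obtain ⟨z0, hz0o, hz0p, hz0c⟩ := hex
  have hDG : ((D : ℕ) : G) ≠ 0 := by exact_mod_cast hD.ne'
  set δ : G := EuclideanDomain.gcd b ((D : ℕ) : G) with hδdef
  obtain ⟨b', hb'⟩ : δ ∣ b := EuclideanDomain.gcd_dvd_left _ _
  obtain ⟨μ, hμ⟩ : δ ∣ ((D : ℕ) : G) := EuclideanDomain.gcd_dvd_right _ _
  have hδ0 : δ ≠ 0 := by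
    intro h
    rw [h, zero_mul] at hμ
    exact hDG hμ
  have hμ0 : μ ≠ 0 := by
    intro h
    rw [h, mul_zero] at hμ
    exact hDG hμ
  have hcop : IsCoprime b' μ := by
    have h1 : δ = b * EuclideanDomain.gcdA b ((D : ℕ) : G) + ((D : ℕ) : G) * EuclideanDomain.gcdB b ((D : ℕ) : G) :=
      EuclideanDomain.gcd_eq_gcd_ab _ _
    refine ⟨EuclideanDomain.gcdA b ((D : ℕ) : G), EuclideanDomain.gcdB b ((D : ℕ) : G), ?_⟩
    have h2 : δ * (EuclideanDomain.gcdA b ((D : ℕ) : G) * b' + EuclideanDomain.gcdB b ((D : ℕ) : G) * μ) = δ * 1 := by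
      calc δ * (EuclideanDomain.gcdA b ((D : ℕ) : G) * b' + EuclideanDomain.gcdB b ((D : ℕ) : G) * μ)
          = (δ * b') * EuclideanDomain.gcdA b ((D : ℕ) : G) + (δ * μ) * EuclideanDomain.gcdB b ((D : ℕ) : G) := by ring
        _ = δ * 1 := by rw [← hb', ← hμ, mul_one]; exact h1.symm
    exact mul_left_cancel₀ hδ0 h2
  -- the gcd is odd and primitive
  have hδz0 : δ ∣ z0 := by
    have h1 := (arcdec_cg D z0 b).1 hz0c
    have h2 : δ ∣ z0 - b := dvd_trans ⟨μ, hμ⟩ h1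
    have h3 := dvd_add h2 (⟨b', hb'⟩ : δ ∣ b)
    rwa [sub_add_cancel] at h3
  obtain ⟨y0, hy0⟩ := hδz0
  have hδo : Odd (nm δ) := by
    rw [hy0] at hz0o
    exact (odd_nm_mul.1 hz0o).1
  have hδp : Prim δ := by
    rw [hy0] at hz0p
    exact (prim_of_mul hz0p).1
  have hm : 0 < nm δ := nm_pos hδ0
  obtain ⟨n, χ, c, hχ, hc, hc1, hc0⟩ := cls_char μ hμ0 b' hcop
  refine ⟨2 * D * nm δ, n, fun i z => χ i z * (if Odd (nm z) ∧ IsCoprime z (star δ) then 1 else 0),
    c, nm δ, Complex.arg (δ : ℂ), by positivity, hm, ?_, ?_, ?_⟩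
  · intro i
    obtain ⟨h1, h2, h3, h4⟩ := hχ i
    constructor
    · have h5 : Odd (nm (1 : G)) ∧ IsCoprime (1 : G) (star δ) := by
        rw [nm_one]
        exact ⟨odd_one, isCoprime_one_left⟩
      beta_reduce
      rw [h1, if_pos h5, one_mul]
    · intro z w
      beta_reduce
      rw [h2]
      by_cases hz : Odd (nm z) ∧ IsCoprime z (star δ)
      · by_cases hw : Odd (nm w) ∧ IsCoprime w (star δ)
        · have hzw : Odd (nm (z * w)) ∧ IsCoprime (z * w) (star δ) :=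
            ⟨odd_nm_mul.2 ⟨hz.1, hw.1⟩, IsCoprime.mul_left hz.2 hw.2⟩
          rw [if_pos hz, if_pos hw, if_pos hzw]
          ring
        · have hzw : ¬ (Odd (nm (z * w)) ∧ IsCoprime (z * w) (star δ)) := by
            rintro ⟨h5, h6⟩
            exact hw ⟨(odd_nm_mul.1 h5).2, (IsCoprime.mul_left_iff.1 h6).2⟩
          rw [if_neg hw, if_neg hzw]
          ring
      · have hzw : ¬ (Odd (nm (z * w)) ∧ IsCoprime (z * w) (star δ)) := by
          rintro ⟨h5, h6⟩
          exact hz ⟨(odd_nm_mul.1 h5).1, (IsCoprime.mul_left_iff.1 h6).1⟩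
        rw [if_neg hz, if_neg hzw]
        ring
    · intro z w hzw
      have h5 : ((2 * D * nm δ : ℕ) : G) ∣ z - w := (arcdec_cg _ z w).1 hzw
      have h6 : μ ∣ z - w := by
        refine dvd_trans ?_ h5
        refine ⟨2 * δ * ((nm δ : ℕ) : G), ?_⟩
        push_cast
        rw [hμ]
        ring
      have h7 : star δ ∣ z - w := by
        refine dvd_trans ?_ h5
        refine ⟨2 * ((D : ℕ) : G) * δ, ?_⟩
        push_cast
        rw [← clschar_mul_star]
        ring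
      have h8 : IsCoprime z (star δ) ↔ IsCoprime w (star δ) := by
        obtain ⟨k, hk⟩ := h7
        have h9 : z = w + star δ * k := by rw [← hk]; ring
        rw [h9]
        exact IsCoprime.add_mul_left_left_iff
      have h10 : Odd (nm z) ↔ Odd (nm w) := by
        rw [odd_nm_iff, odd_nm_iff]
        obtain ⟨h11, h12⟩ := hzw
        have h13 : (2 : ℤ) ∣ z.re - w.re := by
          refine dvd_trans ?_ h11
          push_cast
          rw [mul_assoc]
          exact dvd_mul_right _ _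
        have h14 : (2 : ℤ) ∣ z.im - w.im := by
          refine dvd_trans ?_ h12
          push_cast
          rw [mul_assoc]
          exact dvd_mul_right _ _
        rw [Int.odd_iff, Int.odd_iff]
        omega
      have h15 := h3 z w h6
      simp only [h15, h8, h10]
    · intro z hz
      have h5 : ¬ (Odd (nm z) ∧ IsCoprime z (star δ)) := fun h => hz h.1
      simp only [if_neg h5, mul_zero]
    · intro z
      beta_reduce
      rw [norm_mul]
      have h5 : ‖(if Odd (nm z) ∧ IsCoprime z (star δ) then (1 : ℂ) else 0)‖ ≤ 1 := by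
        split_ifs
        · simp
        · simp
      calc ‖χ i z‖ * ‖(if Odd (nm z) ∧ IsCoprime z (star δ) then (1 : ℂ) else 0)‖ ≤ 1 * 1 :=
            mul_le_mul (h4 z) h5 (norm_nonneg _) zero_le_one
        _ = 1 := one_mul 1
  · intro i
    exact (Finset.single_le_sum (f := fun i => ‖c i‖) (fun j _ => norm_nonneg _) (Finset.mem_univ i)).trans hc
  · intro f hf
    have hmR : (0 : ℝ) < (nm δ : ℕ) := by exact_mod_cast hm
    have hchar : ∀ z : G, Odd (nm z) → ∑ i, c i * (χ i z * (if Odd (nm z) ∧ IsCoprime z (star δ) then 1 else 0)) =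
        if IsCoprime z (star δ) ∧ μ ∣ z - b' then 1 else 0 := by
      intro z hz
      by_cases hco : IsCoprime z (star δ)
      swap
      · have h1 : ¬ (IsCoprime z (star δ) ∧ μ ∣ z - b') := fun h => hco h.1
        have h2 : ¬ (Odd (nm z) ∧ IsCoprime z (star δ)) := fun h => hco h.2
        rw [if_neg h1]
        simp only [if_neg h2, mul_zero, Finset.sum_const_zero]
      have h2 : (Odd (nm z) ∧ IsCoprime z (star δ)) := ⟨hz, hco⟩
      simp only [if_pos h2, mul_one]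
      by_cases hd : μ ∣ z - b'
      · rw [hc1 z hd, if_pos ⟨hco, hd⟩]
      · have h1 : ¬ (IsCoprime z (star δ) ∧ μ ∣ z - b') := fun h => hd h.2
        rw [hc0 z hd, if_neg h1]
    have hbij : ∀ (u : G → ℂ) (X : ℝ), ∑ z ∈ (V X).filter (fun z => cg D z b), u z =
        ∑ z ∈ (V (X / (nm δ : ℕ))).filter (fun z => IsCoprime z (star δ) ∧ μ ∣ z - b'), u (δ * z) := by
      intro u X
      symm
      refine Finset.sum_bij (fun z _ => δ * z) ?_ ?_ ?_ ?_
      · intro z hz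
        rw [Finset.mem_filter, mem_V] at hz
        obtain ⟨⟨h1, h2, h3⟩, h5, h6⟩ := hz
        rw [Finset.mem_filter, mem_V]
        refine ⟨⟨?_, odd_nm_mul.2 ⟨hδo, h2⟩, (arcdec_prim hδp h3).2 h5⟩, ?_⟩
        · rw [nm_mul]
          push_cast
          rw [le_div_iff₀ hmR] at h1
          linarith
        · rw [arcdec_cg, hμ, hb', ← mul_sub]
          exact mul_dvd_mul_left δ h6
      · intro z _ z' _ h
        exact mul_left_cancel₀ hδ0 h
      · intro z hz
        rw [Finset.mem_filter, mem_V] at hz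
        obtain ⟨⟨h1, h2, h3⟩, h4⟩ := hz
        have h6 := (arcdec_cg D z b).1 h4
        have h7 : δ ∣ z := by
          have h2 : δ ∣ z - b := dvd_trans ⟨μ, hμ⟩ h6
          have h3 := dvd_add h2 (⟨b', hb'⟩ : δ ∣ b)
          rwa [sub_add_cancel] at h3
        obtain ⟨y, rfl⟩ := h7
        have h8 := odd_nm_mul.1 h2
        have h9 := prim_of_mul h3
        refine ⟨y, ?_, rfl⟩
        rw [Finset.mem_filter, mem_V]
        refine ⟨⟨?_, h8.2, h9.2⟩, (arcdec_prim hδp h9.2).1 h3, ?_⟩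
        · rw [nm_mul] at h1
          push_cast at h1
          rw [le_div_iff₀ hmR]
          linarith
        · rw [hμ, hb', ← mul_sub] at h6
          exact (mul_dvd_mul_iff_left hδ0).1 h6
      · intro z _
        rfl
    -- the general identity
    have hgen : ∀ (g : G → ℂ) (X : ℝ),
        f (nm δ) * ∑ i, c i * ∑ z ∈ V (X / (nm δ : ℕ)),
          g z * FG f (fun z => χ i z * (if Odd (nm z) ∧ IsCoprime z (star δ) then 1 else 0)) z =
        ∑ z ∈ (V (X / (nm δ : ℕ))).filter (fun z => IsCoprime z (star δ) ∧ μ ∣ z - b'),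
          g z * f (nm (δ * z)) := by
      intro g X
      rw [Finset.sum_filter]
      simp only [Finset.mul_sum]
      rw [Finset.sum_comm]
      refine Finset.sum_congr rfl fun z hz => ?_
      have hzV := mem_V.1 hz
      have h3 : ∀ i : Fin n, f (nm δ) * (c i * (g z *
          FG f (fun z => χ i z * (if Odd (nm z) ∧ IsCoprime z (star δ) then 1 else 0)) z)) =
          g z * f (nm (δ * z)) * (c i * (χ i z * (if Odd (nm z) ∧ IsCoprime z (star δ) then 1 else 0))) := by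
        intro i
        simp only [FG]
        rw [nm_mul, hf]
        ring
      rw [Finset.sum_congr rfl fun i _ => h3 i, ← Finset.mul_sum, hchar z hzV.2.1]
      split_ifs
      · rw [mul_one]
      · rw [mul_zero]
    constructor
    · intro X w θ
      have e1 : ∑ z ∈ (V X).filter (fun z => cg D z b ∧ InArc θ w z), f (nm z) =
          ∑ z ∈ (V X).filter (fun z => cg D z b), if InArc θ w z then f (nm z) else 0 := by
        rw [← Finset.filter_filter, Finset.sum_filter (fun z => InArc θ w z)]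
      rw [e1, hbij]
      have e2 : ∀ i : Fin n, arcS (FG f (fun z => χ i z * (if Odd (nm z) ∧ IsCoprime z (star δ) then 1 else 0)))
          (X / (nm δ : ℕ)) w (θ - Complex.arg (δ : ℂ)) = ∑ z ∈ V (X / (nm δ : ℕ)),
          (if InArc (θ - Complex.arg (δ : ℂ)) w z then 1 else 0) *
            FG f (fun z => χ i z * (if Odd (nm z) ∧ IsCoprime z (star δ) then 1 else 0)) z := by
        intro i
        unfold arcS
        refine Finset.sum_congr rfl fun z _ => ?_
        rw [ite_mul, one_mul, zero_mul]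
      have e3 : ∑ i, c i * arcS (FG f (fun z => χ i z * (if Odd (nm z) ∧ IsCoprime z (star δ) then 1 else 0)))
          (X / (nm δ : ℕ)) w (θ - Complex.arg (δ : ℂ)) = ∑ i, c i * ∑ z ∈ V (X / (nm δ : ℕ)),
          (if InArc (θ - Complex.arg (δ : ℂ)) w z then 1 else 0) *
            FG f (fun z => χ i z * (if Odd (nm z) ∧ IsCoprime z (star δ) then 1 else 0)) z :=
        Finset.sum_congr rfl fun i _ => by rw [e2 i]
      beta_reduce
      rw [e3, hgen (fun z => if InArc (θ - Complex.arg (δ : ℂ)) w z then 1 else 0) X]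
      refine Finset.sum_congr rfl fun z hz => ?_
      rw [Finset.mem_filter, mem_V] at hz
      simp only [arcdec_arc hδ0 (ne_zero_of_odd hz.1.2.1) θ w]
      rw [ite_mul, one_mul, zero_mul]
    · intro X
      unfold clS
      rw [hbij]
      have e2 : ∀ i : Fin n, fcC (FG f (fun z => χ i z * (if Odd (nm z) ∧ IsCoprime z (star δ) then 1 else 0)))
          (X / (nm δ : ℕ)) 0 = ∑ z ∈ V (X / (nm δ : ℕ)), (1 : ℂ) *
            FG f (fun z => χ i z * (if Odd (nm z) ∧ IsCoprime z (star δ) then 1 else 0)) z := by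
        intro i
        unfold fcC
        refine Finset.sum_congr rfl fun z _ => ?_
        have hxi : xi (-0) z = 1 := by unfold xi; simp
        rw [hxi, mul_one, one_mul]
      have e3 : ∑ i, c i * fcC (FG f (fun z => χ i z * (if Odd (nm z) ∧ IsCoprime z (star δ) then 1 else 0)))
          (X / (nm δ : ℕ)) 0 = ∑ i, c i * ∑ z ∈ V (X / (nm δ : ℕ)), (1 : ℂ) *
            FG f (fun z => χ i z * (if Odd (nm z) ∧ IsCoprime z (star δ) then 1 else 0)) z :=
        Finset.sum_congr rfl fun i _ => by rw [e2 i]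
      beta_reduce
      rw [e3, hgen (fun _ => 1) X]
      exact Finset.sum_congr rfl fun z _ => by rw [one_mul]

end Pool.Agent.LPr

end

/-! ### from `Lib_MP_f1a94e_eq.FourC` -/

section

/-!
# Piece FOURC: factorisations and edges
-/

set_option autoImplicit false

namespace Pool.Agent.OmEq

open Finset Pool.Agent.GaussMR Pool.Agent.OmAll

private theorem fourC_En (e : G × G) : En 1 e ↔ det e.1 e.2 = 1 ∧ 0 < dot e.1 e.2 := by
  constructor
  · rintro ⟨h1, h2, -, -⟩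
    exact ⟨by simpa using h1, h2⟩
  · rintro ⟨h1, h2⟩
    refine ⟨by simpa using h1, h2, ?_, 1, isCoprime_one_left, ?_, ?_⟩
    · have h3 : e.1.re * e.2.im - e.1.im * e.2.re = 1 := h1
      exact ⟨e.2.im, -e.2.re, by linarith⟩
    · simp
    · simp

private theorem fourC_mul {e : G × G} {m : ℕ} (h1 : det e.1 e.2 = 1) (h2 : dot e.1 e.2 = m) :
    nm e.1 * nm e.2 = m ^ 2 + 1 := by
  have h4 := dot_sq_add_det_sq e.1 e.2
  rw [h1, h2] at h4
  have h5 : ((nm e.1 * nm e.2 : ℕ) : ℤ) = ((m ^ 2 + 1 : ℕ) : ℤ) := by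
    push_cast
    linarith
  exact_mod_cast h5

open Classical in
/-- PROOF. As `dcount_edges` (DEdges.lean): the map `e ↦ (nm e.1, nm e.2)` from the left set to the right set; `dot e.1 e.2 = m ≥ 1`, `nm e.1 nm e.2 = m^2 + 1` (`dot_sq_add_det_sq`), `m` is determined by `(d, e)`, and the fibre over
`(d, d')` with `d d' = m^2 + 1` is `{e : det = 1, dot = m, nm e.1 = d}`, which has `4` elements (`four`, `d ∣ m^2 + 1`; then `nm e.2 = d'`). `En 1 e`: `V` primitive as `det = 1`, congruences modulo 1 are trivial. -/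
theorem four_count (X : ℝ) (P : ℕ × ℕ → Prop) :
    ((EN 1 X).filter (fun e => P (nm e.1, nm e.2))).card =
      4 * {r : ℕ × ℕ | (∃ m : ℕ, 1 ≤ m ∧ (m : ℝ) ≤ X ∧ r.1 * r.2 = m ^ 2 + 1) ∧ P r}.ncard := by
  set F : Finset (G × G) := (EN 1 X).filter (fun e => P (nm e.1, nm e.2)) with hF
  have hmem : ∀ e : G × G, e ∈ F ↔ (det e.1 e.2 = 1 ∧ 0 < dot e.1 e.2 ∧
      ((dot e.1 e.2 : ℤ) : ℝ) ≤ X) ∧ P (nm e.1, nm e.2) := by
    intro e
    rw [hF, mem_filter, mem_EN one_pos, fourC_En]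
    unfold mE
    tauto
  -- the fibre over a factorisation
  have hfib : ∀ (r : ℕ × ℕ) (m : ℕ), 1 ≤ m → (m : ℝ) ≤ X → r.1 * r.2 = m ^ 2 + 1 → P r →
      (F.filter (fun e => (nm e.1, nm e.2) = r)).card = 4 := by
    intro r m hm hmX hr hP
    have h4 := four m r.1 ⟨r.2, hr.symm⟩
    rw [← h4, ← Set.ncard_coe_finset]
    congr 1
    ext e
    rw [Finset.mem_coe, mem_filter, hmem, Set.mem_ofPred_eq]
    constructor
    · rintro ⟨⟨⟨a1, a2, a3⟩, a4⟩, a5⟩
      refine ⟨a1, ?_, by rw [← a5]⟩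
      obtain ⟨k, hk⟩ := Int.eq_ofNat_of_zero_le a2.le
      have h5 := fourC_mul a1 hk
      have h6 : nm e.1 * nm e.2 = m ^ 2 + 1 := by
        rw [← hr, ← a5]
      have h7 : k ^ 2 = m ^ 2 := by omega
      have h8 : k = m := Nat.pow_left_injective (n := 2) (by norm_num) h7
      rw [hk, h8]
    · rintro ⟨a1, a2, a3⟩
      have h5 := fourC_mul a1 a2
      have h6 : nm e.2 = r.2 := by
        have h7 : r.1 * nm e.2 = r.1 * r.2 := by rw [← a3, h5, a3, hr]
        have h8 : 0 < r.1 := by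
          rcases Nat.eq_zero_or_pos r.1 with h | h
          · rw [h, zero_mul] at hr
            omega
          · exact h
        exact Nat.eq_of_mul_eq_mul_left h8 h7
      have h9 : (nm e.1, nm e.2) = r := by rw [a3, h6]
      refine ⟨⟨⟨a1, ?_, ?_⟩, ?_⟩, h9⟩
      · rw [a2]; omega
      · rw [a2]; simpa using hmX
      · rw [h9]; exact hP
  -- the image of `F`
  have himg : {r : ℕ × ℕ | (∃ m : ℕ, 1 ≤ m ∧ (m : ℝ) ≤ X ∧ r.1 * r.2 = m ^ 2 + 1) ∧ P r} =
      ((F.image (fun e => (nm e.1, nm e.2)) : Finset (ℕ × ℕ)) : Set (ℕ × ℕ)) := by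
    ext r
    rw [Finset.mem_coe, mem_image, Set.mem_ofPred_eq]
    constructor
    · rintro ⟨⟨m, hm, hmX, hr⟩, hP⟩
      have h4 := hfib r m hm hmX hr hP
      have h5 : (F.filter (fun e => (nm e.1, nm e.2) = r)).Nonempty := by
        rw [← card_pos, h4]
        norm_num
      obtain ⟨e, he⟩ := h5
      rw [mem_filter] at he
      exact ⟨e, he.1, he.2⟩
    · rintro ⟨e, he, rfl⟩
      rw [hmem] at he
      obtain ⟨⟨a1, a2, a3⟩, a4⟩ := he
      obtain ⟨k, hk⟩ := Int.eq_ofNat_of_zero_le a2.le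
      refine ⟨⟨k, ?_, ?_, fourC_mul a1 hk⟩, a4⟩
      · rw [hk] at a2
        omega
      · rw [hk] at a3
        simpa using a3
  rw [himg, Set.ncard_coe_finset, card_eq_sum_card_image (fun e : G × G => (nm e.1, nm e.2)) F]
  have h4 : ∀ r ∈ F.image (fun e => (nm e.1, nm e.2)),
      (F.filter (fun e => (nm e.1, nm e.2) = r)).card = 4 := by
    intro r hr
    have hr' : r ∈ {r : ℕ × ℕ | (∃ m : ℕ, 1 ≤ m ∧ (m : ℝ) ≤ X ∧ r.1 * r.2 = m ^ 2 + 1) ∧ P r} := by
      rw [himg]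
      exact hr
    obtain ⟨⟨m, hm, hmX, hr1⟩, hP⟩ := hr'
    exact hfib r m hm hmX hr1 hP
  rw [sum_congr rfl h4, sum_const, smul_eq_mul, mul_comm]

end Pool.Agent.OmEq

end

/-! ### from `Lib_MP_f1a94e_mr.HT` -/

section

/-!
# Piece HT: sums of `y ^ Ω(n)` over integers composed of primes `1 mod 4`
-/

set_option autoImplicit false

namespace Pool.Agent.GaussMR

open ArithmeticFunction

/-- `F` as an arithmetic function -/
noncomputable def FA (y : ℝ) : ArithmeticFunction ℝ := ⟨FN y, FN_zero y⟩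

theorem FA_apply (y : ℝ) (n : ℕ) : FA y n = FN y n := rfl

/-- `Λ F` -/
noncomputable def LFA (y : ℝ) : ArithmeticFunction ℝ :=
  ⟨fun n => vonMangoldt n * FN y n, by simp [FN_zero]⟩

theorem LFA_apply (y : ℝ) (n : ℕ) : LFA y n = vonMangoldt n * FN y n := rfl

theorem LFA_nonneg {y : ℝ} (hy : 0 < y) (n : ℕ) : 0 ≤ LFA y n :=
  mul_nonneg vonMangoldt_nonneg (FN_nonneg hy n)

theorem FA_mul_LFA (y : ℝ) (n : ℕ) : (FA y * LFA y) n = FN y n * Real.log n := by
  rw [ArithmeticFunction.mul_apply,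
    Nat.sum_divisorsAntidiagonal' (fun a b => FA y a * LFA y b), ← vonMangoldt_sum,
    Finset.mul_sum]
  apply Finset.sum_congr rfl
  intro d hd
  have hdv := Nat.dvd_of_mem_divisors hd
  rw [FA_apply, LFA_apply]
  have h1 : FN y n = FN y (n / d) * FN y d := by
    rw [← FN_mul, Nat.div_mul_cancel hdv]
  rw [h1]
  ring

open Classical in
/-- powers of `p` up to `w` -/
theorem powsum (p : ℕ) (hp : 2 ≤ p) (w : ℕ) (hw : 1 ≤ w) :
    ∑ d ∈ (Finset.Ioc 0 w).filter (fun d => ∃ k : ℕ, d = p ^ k), (d:ℝ) ≤ 2 * w := by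
  have hsub : (Finset.Ioc 0 w).filter (fun d => ∃ k : ℕ, d = p ^ k) ⊆
      (Finset.range (Nat.log p w + 1)).image (fun k => p ^ k) := by
    intro d hd
    rw [Finset.mem_filter, Finset.mem_Ioc] at hd
    obtain ⟨⟨_, h2⟩, k, rfl⟩ := hd
    rw [Finset.mem_image]
    refine ⟨k, ?_, rfl⟩
    rw [Finset.mem_range]
    have := Nat.le_log_of_pow_le (by omega) h2
    omega
  have h1 : ∀ K : ℕ, ∑ k ∈ Finset.range (K + 1), ((p:ℝ) ^ k) ≤ 2 * (p:ℝ) ^ K := by
    intro K
    have hp' : (2:ℝ) ≤ p := by exact_mod_cast hp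
    induction K with
    | zero => simp
    | succ K ih =>
      rw [Finset.sum_range_succ]
      have : (p:ℝ) ^ (K + 1) = p * p ^ K := by ring
      have h0 : (0:ℝ) < (p:ℝ) ^ K := by positivity
      nlinarith
  have h2 : p ^ (Nat.log p w) ≤ w := Nat.pow_log_le_self p (by omega)
  calc ∑ d ∈ (Finset.Ioc 0 w).filter (fun d => ∃ k : ℕ, d = p ^ k), (d:ℝ)
      ≤ ∑ d ∈ (Finset.range (Nat.log p w + 1)).image (fun k => p ^ k), (d:ℝ) :=
        Finset.sum_le_sum_of_subset_of_nonneg hsub (fun i _ _ => Nat.cast_nonneg i)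
    _ = ∑ k ∈ Finset.range (Nat.log p w + 1), ((p ^ k : ℕ):ℝ) := by
        apply Finset.sum_image
        intro a _ b _ hab
        exact Nat.pow_right_injective hp hab
    _ = ∑ k ∈ Finset.range (Nat.log p w + 1), ((p:ℝ) ^ k) := by push_cast; rfl
    _ ≤ 2 * (p:ℝ) ^ (Nat.log p w) := h1 _
    _ ≤ 2 * w := by
        have : ((p ^ (Nat.log p w) : ℕ) : ℝ) ≤ w := by exact_mod_cast h2
        push_cast at this
        linarith

theorem FN_prime_pow_le {y : ℝ} (hy : 0 < y) (hy4 : y ≤ 4) {p k : ℕ} (hp : p.Prime)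
    (h : N1 (p ^ k)) : FN y (p ^ k) ≤ 4 ^ k := by
  unfold FN
  rw [if_pos h, cardFactors_apply_prime_pow hp]
  exact pow_le_pow_left₀ hy.le hy4 k

open Classical in
/-- pointwise bound of `Λ(d) F(d)` -/
theorem LFA_le {y : ℝ} (hy : 0 < y) (hy4 : y ≤ 4) {w d : ℕ} (hd : d ∈ Finset.Ioc 0 w) :
    LFA y d ≤ 4 * (if d.Prime then Real.log d else 0) +
      Real.sqrt w * (if d.Prime then 0 else vonMangoldt d) +
      Real.log 5 * (if ∃ k : ℕ, d = 5 ^ k then (d:ℝ) else 0) +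
      Real.log 13 * (if ∃ k : ℕ, d = 13 ^ k then (d:ℝ) else 0) := by
  have hlog5 : 0 ≤ Real.log 5 := Real.log_nonneg (by norm_num)
  have hlog13 : 0 ≤ Real.log 13 := Real.log_nonneg (by norm_num)
  have hd0 : 0 < d := (Finset.mem_Ioc.1 hd).1
  have hd1 : (1:ℝ) ≤ d := by exact_mod_cast hd0
  have hlogd : 0 ≤ Real.log d := Real.log_nonneg hd1
  have t1 : 0 ≤ 4 * (if d.Prime then Real.log d else 0) := by split_ifs <;> positivity
  have t2 : 0 ≤ Real.sqrt w * (if d.Prime then 0 else vonMangoldt d) := by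
    apply mul_nonneg (Real.sqrt_nonneg _)
    split_ifs
    · exact le_rfl
    · exact vonMangoldt_nonneg
  have t3 : 0 ≤ Real.log 5 * (if ∃ k : ℕ, d = 5 ^ k then (d:ℝ) else 0) := by
    apply mul_nonneg hlog5
    split_ifs
    · exact Nat.cast_nonneg d
    · exact le_rfl
  have t4 : 0 ≤ Real.log 13 * (if ∃ k : ℕ, d = 13 ^ k then (d:ℝ) else 0) := by
    apply mul_nonneg hlog13
    split_ifs
    · exact Nat.cast_nonneg d
    · exact le_rfl
  have s1 : 4 * (if d.Prime then Real.log d else 0) ≤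
      4 * (if d.Prime then Real.log d else 0) +
      Real.sqrt w * (if d.Prime then 0 else vonMangoldt d) +
      Real.log 5 * (if ∃ k : ℕ, d = 5 ^ k then (d:ℝ) else 0) +
      Real.log 13 * (if ∃ k : ℕ, d = 13 ^ k then (d:ℝ) else 0) := by linarith
  have s2 : Real.sqrt w * (if d.Prime then 0 else vonMangoldt d) ≤
      4 * (if d.Prime then Real.log d else 0) +
      Real.sqrt w * (if d.Prime then 0 else vonMangoldt d) +
      Real.log 5 * (if ∃ k : ℕ, d = 5 ^ k then (d:ℝ) else 0) +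
      Real.log 13 * (if ∃ k : ℕ, d = 13 ^ k then (d:ℝ) else 0) := by linarith
  have s3 : Real.log 5 * (if ∃ k : ℕ, d = 5 ^ k then (d:ℝ) else 0) ≤
      4 * (if d.Prime then Real.log d else 0) +
      Real.sqrt w * (if d.Prime then 0 else vonMangoldt d) +
      Real.log 5 * (if ∃ k : ℕ, d = 5 ^ k then (d:ℝ) else 0) +
      Real.log 13 * (if ∃ k : ℕ, d = 13 ^ k then (d:ℝ) else 0) := by linarith
  have s4 : Real.log 13 * (if ∃ k : ℕ, d = 13 ^ k then (d:ℝ) else 0) ≤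
      4 * (if d.Prime then Real.log d else 0) +
      Real.sqrt w * (if d.Prime then 0 else vonMangoldt d) +
      Real.log 5 * (if ∃ k : ℕ, d = 5 ^ k then (d:ℝ) else 0) +
      Real.log 13 * (if ∃ k : ℕ, d = 13 ^ k then (d:ℝ) else 0) := by linarith
  by_cases hN : N1 d
  swap
  · have h0 : LFA y d = 0 := by
      rw [LFA_apply]
      have : FN y d = 0 := by unfold FN; rw [if_neg hN]
      rw [this, mul_zero]
    rw [h0]
    exact t1.trans s1
  by_cases hL : vonMangoldt d = 0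
  · have h0 : LFA y d = 0 := by rw [LFA_apply, hL, zero_mul]
    rw [h0]
    exact t1.trans s1
  have hpp : IsPrimePow d := by
    by_contra hc
    exact hL (vonMangoldt_eq_zero_iff.2 hc)
  obtain ⟨p, k, hp, hk, rfl⟩ := (isPrimePow_nat_iff d).1 hpp
  have hp4 : p % 4 = 1 := hN.2 p hp (dvd_pow_self p hk.ne')
  have hF := FN_prime_pow_le hy hy4 hp hN
  have hLam : vonMangoldt (p ^ k) = Real.log p := by
    rw [vonMangoldt_apply_pow hk.ne', vonMangoldt_apply_prime hp]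
  have hlogp : 0 ≤ Real.log p := Real.log_nonneg (by exact_mod_cast hp.one_lt.le)
  have hFnn := FN_nonneg hy (p ^ k)
  rw [LFA_apply]
  by_cases hk1 : k = 1
  · -- prime
    subst hk1
    refine le_trans ?_ s1
    have hpr : (p ^ 1).Prime := by rwa [pow_one]
    rw [if_pos hpr, hLam]
    have h4 : FN y (p ^ 1) ≤ 4 := by simpa using hF
    have e : Real.log ((p ^ 1 : ℕ) : ℝ) = Real.log p := by simp
    rw [e]
    nlinarith
  · have hnp : ¬ (p ^ k).Prime := Nat.Prime.not_prime_pow (by omega)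
    rcases eq_or_ne p 5 with h5 | h5
    · subst h5
      refine le_trans ?_ s3
      have hex : ∃ j : ℕ, 5 ^ k = 5 ^ j := ⟨k, rfl⟩
      rw [if_pos hex, hLam]
      have h6 : FN y (5 ^ k) ≤ ((5 ^ k : ℕ) : ℝ) := by
        refine hF.trans ?_
        push_cast
        exact pow_le_pow_left₀ (by norm_num) (by norm_num) k
      have e : ((5:ℕ):ℝ) = 5 := by norm_num
      rw [e]
      exact mul_le_mul_of_nonneg_left h6 hlog5
    rcases eq_or_ne p 13 with h13 | h13
    · subst h13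
      refine le_trans ?_ s4
      have hex : ∃ j : ℕ, 13 ^ k = 13 ^ j := ⟨k, rfl⟩
      rw [if_pos hex, hLam]
      have h6 : FN y (13 ^ k) ≤ ((13 ^ k : ℕ) : ℝ) := by
        refine hF.trans ?_
        push_cast
        exact pow_le_pow_left₀ (by norm_num) (by norm_num) k
      have e : ((13:ℕ):ℝ) = 13 := by norm_num
      rw [e]
      exact mul_le_mul_of_nonneg_left h6 hlog13
    · -- p ≥ 17
      refine le_trans ?_ s2
      have hp16 : 16 ≤ p := by
        have h2 := hp.two_le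
        by_contra hc
        push Not at hc
        interval_cases p <;> first | omega | exact absurd hp (by norm_num)
      have hle : (p ^ k : ℕ) ≤ w := (Finset.mem_Ioc.1 hd).2
      have h6 : FN y (p ^ k) ≤ Real.sqrt w := by
        refine hF.trans ?_
        apply Real.le_sqrt_of_sq_le
        have e1 : ((4:ℝ) ^ k) ^ 2 = 16 ^ k := by
          rw [← pow_mul, mul_comm k 2, pow_mul]; norm_num
        rw [e1]
        have e2 : ((16:ℝ)) ^ k ≤ (p:ℝ) ^ k := by
          apply pow_le_pow_left₀ (by norm_num)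
          exact_mod_cast hp16
        have e3 : ((p ^ k : ℕ) : ℝ) ≤ w := by exact_mod_cast hle
        push_cast at e3
        linarith
      rw [if_neg hnp, mul_comm]
      exact mul_le_mul_of_nonneg_right h6 vonMangoldt_nonneg

theorem LFA_sum_le {y : ℝ} (hy : 0 < y) (hy4 : y ≤ 4) : ∃ C : ℝ, 0 < C ∧ ∀ w : ℕ,
    ∑ d ∈ Finset.Ioc 0 w, LFA y d ≤ C * w := by
  classical
  obtain ⟨C1, hC1⟩ := Chebyshev.psi_sub_theta_le_mul_sqrt
  refine ⟨4 * Real.log 4 + |C1| + 2 * Real.log 5 + 2 * Real.log 13 + 1, by positivity, ?_⟩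
  intro w
  rcases Nat.eq_zero_or_pos w with h0 | hw
  · subst h0; simp
  have hlog5 : 0 ≤ Real.log 5 := Real.log_nonneg (by norm_num)
  have hlog13 : 0 ≤ Real.log 13 := Real.log_nonneg (by norm_num)
  have hw0 : (0:ℝ) ≤ w := Nat.cast_nonneg w
  have h1 : ∑ d ∈ Finset.Ioc 0 w, LFA y d ≤
      ∑ d ∈ Finset.Ioc 0 w, (4 * (if d.Prime then Real.log d else 0) +
      Real.sqrt w * (if d.Prime then 0 else vonMangoldt d) +
      Real.log 5 * (if ∃ k : ℕ, d = 5 ^ k then (d:ℝ) else 0) +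
      Real.log 13 * (if ∃ k : ℕ, d = 13 ^ k then (d:ℝ) else 0)) :=
    Finset.sum_le_sum (fun d hd => LFA_le hy hy4 hd)
  rw [Finset.sum_add_distrib, Finset.sum_add_distrib, Finset.sum_add_distrib, ← Finset.mul_sum,
    ← Finset.mul_sum, ← Finset.mul_sum, ← Finset.mul_sum] at h1
  have h2 : ∑ d ∈ Finset.Ioc 0 w, (if d.Prime then Real.log d else 0) ≤ Real.log 4 * w := by
    rw [← Finset.sum_filter]
    have := Chebyshev.theta_le_log4_mul_x hw0
    unfold Chebyshev.theta at this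
    rwa [Nat.floor_natCast] at this
  have h3 : ∑ d ∈ Finset.Ioc 0 w, (if d.Prime then 0 else vonMangoldt d) ≤ C1 * Real.sqrt w := by
    have := hC1 w
    have e : Chebyshev.psi (w:ℝ) - Chebyshev.theta (w:ℝ) =
        ∑ d ∈ Finset.Ioc 0 w, (if d.Prime then 0 else vonMangoldt d) := by
      unfold Chebyshev.theta Chebyshev.psi
      rw [Nat.floor_natCast, Finset.sum_filter, ← Finset.sum_sub_distrib]
      apply Finset.sum_congr rfl
      intro d _
      split_ifs with h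
      · rw [vonMangoldt_apply_prime h, sub_self]
      · rw [sub_zero]
    rw [e] at this
    exact this
  have h4 := powsum 5 (by norm_num) w hw
  have h5 := powsum 13 (by norm_num) w hw
  rw [Finset.sum_filter] at h4 h5
  have h6 : Real.sqrt w * ∑ d ∈ Finset.Ioc 0 w, (if d.Prime then 0 else vonMangoldt d) ≤
      |C1| * w := by
    calc Real.sqrt w * ∑ d ∈ Finset.Ioc 0 w, (if d.Prime then 0 else vonMangoldt d)
        ≤ Real.sqrt w * (C1 * Real.sqrt w) := mul_le_mul_of_nonneg_left h3 (Real.sqrt_nonneg _)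
      _ = C1 * (Real.sqrt w * Real.sqrt w) := by ring
      _ = C1 * w := by rw [Real.mul_self_sqrt hw0]
      _ ≤ |C1| * w := mul_le_mul_of_nonneg_right (le_abs_self _) hw0
  have h7 : Real.log 5 * ∑ d ∈ Finset.Ioc 0 w, (if ∃ k : ℕ, d = 5 ^ k then (d:ℝ) else 0) ≤
      Real.log 5 * (2 * w) := mul_le_mul_of_nonneg_left h4 hlog5
  have h8 : Real.log 13 * ∑ d ∈ Finset.Ioc 0 w, (if ∃ k : ℕ, d = 13 ^ k then (d:ℝ) else 0) ≤
      Real.log 13 * (2 * w) := mul_le_mul_of_nonneg_left h5 hlog13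
  have h9 : (4 * Real.log 4 + |C1| + 2 * Real.log 5 + 2 * Real.log 13 + 1) * (w:ℝ) =
      4 * (Real.log 4 * w) + |C1| * w + Real.log 5 * (2 * w) + Real.log 13 * (2 * w) + w := by ring
  rw [h9]
  linarith

open Classical in
/-- Let `f(n) = y ^ Ω(n)` for `N1 n`. Then
`∑_{n ≤ N} f(n) log n = ∑_{n ≤ N} f(n) ∑_{p^k ∣ n} log p = ∑_{m ≤ N} f(m) ∑_{p^k ≤ N/m, p = 1 mod 4} y^k log p
≤ C N ∑_{m ≤ N} f(m) / m` (Chebyshev `∑_{p ≤ w} log p ≤ C w`; the prime powers with `k ≥ 2` contribute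
`≤ C w` because `y ≤ 4 < 5`), and `∑ f(n) log (N / n) ≤ N ∑ f(n) / n`. Add the two and use `ht_log`. -/
theorem ht (y : ℝ) (hy : 0 < y) (hy4 : y ≤ 4) : ∃ C : ℝ, 0 < C ∧ ∀ N : ℕ, 1 ≤ N →
    ∑ n ∈ (Finset.Icc 1 N).filter N1, y ^ (ArithmeticFunction.cardFactors n) ≤
      C * N * (1 + Real.log N) ^ (y / 2 - 1) := by
  obtain ⟨C0, hC0, hlog⟩ := ht_log y hy hy4
  obtain ⟨C1, hC1, hL⟩ := LFA_sum_le hy hy4
  refine ⟨(C1 + 2) * C0, by positivity, ?_⟩
  intro N hN
  have hNr : (1:ℝ) ≤ N := by exact_mod_cast hN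
  have hN0 : (0:ℝ) ≤ N := by linarith
  have hlN : 0 ≤ Real.log N := Real.log_nonneg hNr
  have hIcc : Finset.Icc 1 N = Finset.Ioc 0 N := rfl
  set S : ℝ := ∑ n ∈ Finset.Ioc 0 N, FN y n with hS
  set T : ℝ := ∑ n ∈ Finset.Ioc 0 N, FN y n / (n:ℝ) with hT
  have e1 : ∑ n ∈ (Finset.Icc 1 N).filter N1, y ^ (ArithmeticFunction.cardFactors n) = S := by
    rw [Finset.sum_filter, hIcc, hS]
    rfl
  have e2 : ∑ n ∈ (Finset.Icc 1 N).filter N1, y ^ (ArithmeticFunction.cardFactors n) / (n:ℝ) = T := by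
    rw [Finset.sum_filter, hIcc, hT]
    apply Finset.sum_congr rfl
    intro n _
    unfold FN
    split_ifs <;> simp
  have hT1 := hlog N hN
  rw [e2] at hT1
  rw [e1]
  have hS0 : 0 ≤ S := Finset.sum_nonneg (fun n _ => FN_nonneg hy n)
  have hT0 : 0 ≤ T := Finset.sum_nonneg (fun n _ => div_nonneg (FN_nonneg hy n) (Nat.cast_nonneg n))
  -- the log weighted sum
  have h1 : ∑ n ∈ Finset.Ioc 0 N, FN y n * Real.log n ≤ C1 * N * T := by
    have e3 : ∑ n ∈ Finset.Ioc 0 N, FN y n * Real.log n =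
        ∑ n ∈ Finset.Ioc 0 N, (FA y * LFA y) n := by
      apply Finset.sum_congr rfl
      intro n _
      rw [FA_mul_LFA]
    rw [e3, sum_Ioc_mul_eq_sum_sum, hT, Finset.mul_sum]
    apply Finset.sum_le_sum
    intro m hm
    have hm0 : 0 < m := (Finset.mem_Ioc.1 hm).1
    have hm0' : (0:ℝ) < m := by exact_mod_cast hm0
    rw [FA_apply]
    have h2 : ∑ d ∈ Finset.Ioc 0 (N / m), LFA y d ≤ C1 * ((N:ℝ) / m) := by
      refine (hL (N / m)).trans ?_
      apply mul_le_mul_of_nonneg_left _ hC1.le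
      exact Nat.cast_div_le
    calc FN y m * ∑ d ∈ Finset.Ioc 0 (N / m), LFA y d
        ≤ FN y m * (C1 * ((N:ℝ) / m)) := mul_le_mul_of_nonneg_left h2 (FN_nonneg hy m)
      _ = C1 * N * (FN y m / m) := by ring
  have h2 : ∑ n ∈ Finset.Ioc 0 N, FN y n * (Real.log N - Real.log n) ≤ N * T := by
    rw [hT, Finset.mul_sum]
    apply Finset.sum_le_sum
    intro n hn
    have hn0 : 0 < n := (Finset.mem_Ioc.1 hn).1
    have hn0' : (0:ℝ) < n := by exact_mod_cast hn0
    have hN0' : (0:ℝ) < N := by linarith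
    have h3 : Real.log N - Real.log n ≤ (N:ℝ) / n := by
      rw [← Real.log_div hN0'.ne' hn0'.ne']
      have := Real.log_le_sub_one_of_pos (show (0:ℝ) < N / n by positivity)
      linarith
    calc FN y n * (Real.log N - Real.log n) ≤ FN y n * ((N:ℝ) / n) :=
          mul_le_mul_of_nonneg_left h3 (FN_nonneg hy n)
      _ = N * (FN y n / n) := by ring
  have h3 : S ≤ N * T := by
    rw [hS, hT, Finset.mul_sum]
    apply Finset.sum_le_sum
    intro n hn
    have hn0 : 0 < n := (Finset.mem_Ioc.1 hn).1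
    have hn0' : (0:ℝ) < n := by exact_mod_cast hn0
    have hnN : (n:ℝ) ≤ N := by exact_mod_cast (Finset.mem_Ioc.1 hn).2
    have hF := FN_nonneg hy n
    have e4 : (N:ℝ) * (FN y n / n) = FN y n * ((N:ℝ) / n) := by ring
    rw [e4]
    have : 1 ≤ (N:ℝ) / n := by rw [le_div_iff₀ hn0']; linarith
    nlinarith
  have h4 : (1 + Real.log N) * S ≤ (C1 + 2) * N * T := by
    have e5 : Real.log N * S = ∑ n ∈ Finset.Ioc 0 N, FN y n * Real.log n +
        ∑ n ∈ Finset.Ioc 0 N, FN y n * (Real.log N - Real.log n) := by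
      rw [← Finset.sum_add_distrib, hS, Finset.mul_sum]
      apply Finset.sum_congr rfl
      intro n _
      ring
    have : (1 + Real.log N) * S = S + Real.log N * S := by ring
    rw [this, e5]
    nlinarith
  have hpos : 0 < 1 + Real.log N := by linarith
  have h5 : (1 + Real.log N) * S ≤ (C1 + 2) * N * (C0 * (1 + Real.log N) ^ (y / 2)) := by
    refine h4.trans ?_
    apply mul_le_mul_of_nonneg_left hT1
    positivity
  have h6 : (1 + Real.log N) ^ (y / 2) = (1 + Real.log N) ^ (y / 2 - 1) * (1 + Real.log N) := by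
    rw [Real.rpow_sub_one hpos.ne']
    field_simp
  rw [h6] at h5
  have h7 : S * (1 + Real.log N) ≤
      ((C1 + 2) * C0 * N * (1 + Real.log N) ^ (y / 2 - 1)) * (1 + Real.log N) := by
    have e6 : (C1 + 2) * N * (C0 * ((1 + Real.log N) ^ (y / 2 - 1) * (1 + Real.log N))) =
      ((C1 + 2) * C0 * N * (1 + Real.log N) ^ (y / 2 - 1)) * (1 + Real.log N) := by ring
    rw [e6] at h5
    linarith
  exact le_of_mul_le_mul_right h7 hpos

end Pool.Agent.GaussMR

end

/-! ### from `Lib_MP_f1a94e_mr.DivPairs` -/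

section

/-!
# Piece DIVPAIRS: pairs of close divisors
-/

set_option autoImplicit false

namespace Pool.Agent.GaussMR

/-- number of pairs of divisors of `n` within a factor `J` of each other -/
noncomputable def dpr (J : ℝ) (n : ℕ) : ℕ :=
  Set.ncard {p : ℕ × ℕ | p.1 ∣ n ∧ p.2 ∣ n ∧ (p.1 : ℝ) ≤ J * p.2 ∧ (p.2 : ℝ) ≤ J * p.1}

namespace DivPairs

theorem card_divisors_le (N : ℕ) (hN : N ≠ 0) :
    N.divisors.card ≤ 2 ^ ArithmeticFunction.cardFactors N := by
  induction N using Nat.recOnMul with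
  | zero => exact absurd rfl hN
  | one => simp
  | prime p hp => 
    rw [ArithmeticFunction.cardFactors_apply_prime hp, Nat.Prime.divisors hp]
    exact Finset.card_le_two
  | mul a b ha hb => 
    have ha0 : a ≠ 0 := left_ne_zero_of_mul hN
    have hb0 : b ≠ 0 := right_ne_zero_of_mul hN
    rw [ArithmeticFunction.cardFactors_mul ha0 hb0, pow_add, Nat.divisors_mul]
    exact (Finset.card_mul_le).trans (Nat.mul_le_mul (ha ha0) (hb hb0))

theorem N1_of_dvd {a b : ℕ} (h : a ∣ b) (hb : N1 b) : N1 a :=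
  ⟨fun h0 => hb.1 (by rw [h0] at h; exact Nat.eq_zero_of_zero_dvd h),
    fun p hp hpa => hb.2 p hp (hpa.trans h)⟩

open Classical in
/-- the pairs of divisors as a finset -/
noncomputable def DD (J : ℝ) (n : ℕ) : Finset (ℕ × ℕ) :=
  (n.divisors ×ˢ n.divisors).filter (fun p => (p.1 : ℝ) ≤ J * p.2 ∧ (p.2 : ℝ) ≤ J * p.1)

theorem dpr_eq (J : ℝ) (n : ℕ) (hn : n ≠ 0) : dpr J n = (DD J n).card := by
  classical
  unfold dpr
  rw [← Set.ncard_coe_finset]
  congr 1
  ext p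
  simp [DD, hn, and_assoc]

open Classical in
/-- pairs of coprime parts -/
noncomputable def PR (J : ℝ) (N : ℕ) : Finset (ℕ × ℕ) :=
  (Finset.Icc 1 N ×ˢ Finset.Icc 1 N).filter
    (fun p => N1 p.1 ∧ N1 p.2 ∧ (p.1 : ℝ) ≤ J * p.2 ∧ (p.2 : ℝ) ≤ J * p.1)

open Classical in
theorem count (J : ℝ) (N : ℕ) :
    ∑ n ∈ (Finset.Icc 1 N).filter N1, dpr J n ≤
      ∑ p ∈ PR J N, ∑ ψ ∈ (Finset.Icc 1 (N / (p.1 * p.2))).filter N1, ψ.divisors.card := by
  have h1 : ∑ n ∈ (Finset.Icc 1 N).filter N1, dpr J n =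
      (((Finset.Icc 1 N).filter N1).sigma (fun n => DD J n)).card := by
    rw [Finset.card_sigma]
    refine Finset.sum_congr rfl fun n hn => ?_
    simp only [Finset.mem_filter, Finset.mem_Icc] at hn
    exact dpr_eq J n (by omega)
  have h2 : ∑ p ∈ PR J N, ∑ ψ ∈ (Finset.Icc 1 (N / (p.1 * p.2))).filter N1, ψ.divisors.card =
      ((PR J N).sigma (fun p => ((Finset.Icc 1 (N / (p.1 * p.2))).filter N1).sigma
        (fun ψ => ψ.divisors))).card := by
    rw [Finset.card_sigma]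
    refine Finset.sum_congr rfl fun p _ => ?_
    rw [Finset.card_sigma]
  rw [h1, h2]
  refine Finset.card_le_card_of_injOn
    (fun q : (Σ _ : ℕ, ℕ × ℕ) =>
      (⟨(q.2.1 / Nat.gcd q.2.1 q.2.2, q.2.2 / Nat.gcd q.2.1 q.2.2),
        ⟨q.1 / ((q.2.1 / Nat.gcd q.2.1 q.2.2) * (q.2.2 / Nat.gcd q.2.1 q.2.2)),
          Nat.gcd q.2.1 q.2.2⟩⟩ : (Σ _ : ℕ × ℕ, Σ _ : ℕ, ℕ))) ?_ ?_
  · rintro ⟨n, e, e'⟩ hq
    simp only [Finset.coe_sigma, Set.mem_sigma_iff, Finset.mem_coe, Finset.mem_filter,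
      Finset.mem_Icc, DD, Finset.mem_product, Nat.mem_divisors] at hq
    obtain ⟨⟨⟨hn1, hnN⟩, hnN1⟩, ⟨⟨⟨he, hn0⟩, ⟨he', _⟩⟩, hJ1, hJ2⟩⟩ := hq
    have he0 : 0 < e := Nat.pos_of_dvd_of_pos he (by omega)
    have he0' : 0 < e' := Nat.pos_of_dvd_of_pos he' (by omega)
    obtain ⟨g, hg⟩ : ∃ g, g = Nat.gcd e e' := ⟨_, rfl⟩
    have hg0 : 0 < g := by rw [hg]; exact Nat.gcd_pos_of_pos_left _ he0
    obtain ⟨a, ha⟩ : g ∣ e := hg ▸ Nat.gcd_dvd_left e e'
    obtain ⟨b, hb⟩ : g ∣ e' := hg ▸ Nat.gcd_dvd_right e e'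
    have hcop : Nat.Coprime a b := by
      have := Nat.coprime_div_gcd_div_gcd (m := e) (n := e') (by rw [← hg]; exact hg0)
      rw [← hg, ha, hb, Nat.mul_div_cancel_left _ hg0, Nat.mul_div_cancel_left _ hg0] at this
      exact this
    have ha0 : 0 < a := by
      rcases Nat.eq_zero_or_pos a with h | h
      · rw [h] at ha; omega
      · exact h
    have hb0 : 0 < b := by
      rcases Nat.eq_zero_or_pos b with h | h
      · rw [h] at hb; omega
      · exact h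
    have hda : e / g = a := by rw [ha, Nat.mul_div_cancel_left _ hg0]
    have hdb : e' / g = b := by rw [hb, Nat.mul_div_cancel_left _ hg0]
    have hlcm : g * (a * b) ∣ n := by
      have h3 : Nat.lcm e e' ∣ n := Nat.lcm_dvd he he'
      have h4 : Nat.lcm e e' = g * (a * b) := by
        rw [Nat.lcm, ← hg, ha, hb]
        rw [show g * a * (g * b) = g * (g * (a * b)) by ring, Nat.mul_div_cancel_left _ hg0]
      rwa [h4] at h3
    obtain ⟨φ, hφ⟩ := hlcm
    have hn' : n = (a * b) * (g * φ) := by rw [hφ]; ring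
    have hab0 : 0 < a * b := Nat.mul_pos ha0 hb0
    have hdn : n / (a * b) = g * φ := by rw [hn', Nat.mul_div_cancel_left _ hab0]
    have hgφ : 0 < g * φ := by
      rcases Nat.eq_zero_or_pos (g * φ) with h | h
      · rw [h] at hn'; omega
      · exact h
    simp only [Finset.coe_sigma, Set.mem_sigma_iff, Finset.mem_coe, Finset.mem_filter,
      Finset.mem_Icc, PR, Finset.mem_product, Nat.mem_divisors, ← hg, hda, hdb, hdn]
    have hgR : (0 : ℝ) < g := by exact_mod_cast hg0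
    have haN : a ≤ N := (Nat.le_of_dvd (by omega) ((Dvd.intro_left g ha.symm).trans he)).trans hnN
    have hbN : b ≤ N := (Nat.le_of_dvd (by omega) ((Dvd.intro_left g hb.symm).trans he')).trans hnN
    refine ⟨⟨⟨⟨ha0, haN⟩, ⟨hb0, hbN⟩⟩, N1_of_dvd ((Dvd.intro_left g ha.symm).trans he) hnN1,
      N1_of_dvd ((Dvd.intro_left g hb.symm).trans he') hnN1, ?_, ?_⟩, ⟨⟨hgφ, ?_⟩, ?_⟩, ?_, hgφ.ne'⟩
    · rw [ha, hb] at hJ1
      push_cast at hJ1
      have : (g : ℝ) * a ≤ g * (J * b) := by linarith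
      exact le_of_mul_le_mul_left this hgR
    · rw [ha, hb] at hJ2
      push_cast at hJ2
      have : (g : ℝ) * b ≤ g * (J * a) := by linarith
      exact le_of_mul_le_mul_left this hgR
    · rw [Nat.le_div_iff_mul_le hab0, mul_comm, ← hn']; exact hnN
    · exact N1_of_dvd (Dvd.intro_left (a * b) hn'.symm) hnN1
    · exact Dvd.intro φ rfl
  · rintro ⟨n, e, e'⟩ hq ⟨m, f, f'⟩ hr h
    simp only [Finset.coe_sigma, Set.mem_sigma_iff, Finset.mem_coe, Finset.mem_filter,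
      Finset.mem_Icc, DD, Finset.mem_product, Nat.mem_divisors] at hq hr
    obtain ⟨⟨⟨hn1, hnN⟩, hnN1⟩, ⟨⟨⟨he, hn0⟩, ⟨he', _⟩⟩, hJ1, hJ2⟩⟩ := hq
    obtain ⟨⟨⟨hm1, hmN⟩, hmN1⟩, ⟨⟨⟨hf, hm0⟩, ⟨hf', _⟩⟩, hJ3, hJ4⟩⟩ := hr
    simp only [Sigma.mk.injEq, heq_eq_eq, Prod.mk.injEq] at h
    obtain ⟨⟨h1, h2⟩, h3, h4⟩ := h
    have e1 : e = f := by
      have a1 := Nat.div_mul_cancel (Nat.gcd_dvd_left e e')
      have a2 := Nat.div_mul_cancel (Nat.gcd_dvd_left f f')
      rw [← a1, ← a2, h1, h4]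
    have e2 : e' = f' := by
      have a1 := Nat.div_mul_cancel (Nat.gcd_dvd_right e e')
      have a2 := Nat.div_mul_cancel (Nat.gcd_dvd_right f f')
      rw [← a1, ← a2, h2, h4]
    subst e1
    subst e2
    have key : ∀ k : ℕ, k ≠ 0 → e ∣ k → e' ∣ k →
        (e / Nat.gcd e e') * (e' / Nat.gcd e e') ∣ k := by
      intro k hk h5 h6
      have h7 : Nat.lcm e e' ∣ k := Nat.lcm_dvd h5 h6
      refine dvd_trans ?_ h7
      have he0 : 0 < e := Nat.pos_of_dvd_of_pos h5 (by omega)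
      have hg0 : 0 < Nat.gcd e e' := Nat.gcd_pos_of_pos_left _ he0
      obtain ⟨g, hg⟩ : ∃ g, g = Nat.gcd e e' := ⟨_, rfl⟩
      rw [← hg] at hg0 ⊢
      obtain ⟨a, ha⟩ : g ∣ e := hg ▸ Nat.gcd_dvd_left e e'
      obtain ⟨b, hb⟩ : g ∣ e' := hg ▸ Nat.gcd_dvd_right e e'
      rw [Nat.lcm, ← hg]
      rw [ha, hb, Nat.mul_div_cancel_left _ hg0, Nat.mul_div_cancel_left _ hg0]
      rw [show g * a * (g * b) = g * (g * (a * b)) by ring, Nat.mul_div_cancel_left _ hg0]
      exact Dvd.intro_left g rfl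
    have k1 := Nat.div_mul_cancel (key n hn0 he he')
    have k2 := Nat.div_mul_cancel (key m hm0 hf hf')
    have : n = m := by rw [← k1, ← k2, h3]
    subst this
    rfl

open Classical in
/-- the numbers of `N1` in a dyadic block -/
noncomputable def Bk (i : ℕ) : Finset ℕ := (Finset.Ico (2 ^ i) (2 ^ (i + 1))).filter N1

/-- the harmonic sum over a block -/
noncomputable def bk (i : ℕ) : ℝ := ∑ n ∈ Bk i, 1 / (n : ℝ)

theorem bk_nonneg (i : ℕ) : 0 ≤ bk i := Finset.sum_nonneg fun n _ => by positivity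

theorem bk_le : ∃ C : ℝ, 0 < C ∧ ∀ i : ℕ, bk i ^ 2 ≤ C / (i + 1) := by
  classical
  obtain ⟨C, hC, h⟩ := ht 1 one_pos (by norm_num)
  refine ⟨8 * C ^ 2, by positivity, fun i => ?_⟩
  have h1 := h (2 ^ (i + 1)) Nat.one_le_two_pow
  simp only [one_pow, Finset.sum_const, nsmul_eq_mul, mul_one] at h1
  have h2 : ((Bk i).card : ℝ) ≤ C * (2 ^ (i + 1) : ℕ) * (1 + Real.log (2 ^ (i + 1) : ℕ)) ^ ((1 : ℝ) / 2 - 1) := by
    refine le_trans ?_ h1
    have : Bk i ⊆ (Finset.Icc 1 (2 ^ (i + 1))).filter N1 := by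
      intro n hn
      simp only [Bk, Finset.mem_filter, Finset.mem_Ico] at hn
      simp only [Finset.mem_filter, Finset.mem_Icc]
      exact ⟨⟨le_trans Nat.one_le_two_pow hn.1.1, hn.1.2.le⟩, hn.2⟩
    exact_mod_cast Finset.card_le_card this
  have h3 : bk i ≤ (Bk i).card * (1 / 2 ^ i : ℝ) := by
    unfold bk
    rw [← nsmul_eq_mul]
    refine Finset.sum_le_card_nsmul _ _ _ fun n hn => ?_
    simp only [Bk, Finset.mem_filter, Finset.mem_Ico] at hn
    have : (2 ^ i : ℝ) ≤ n := by exact_mod_cast hn.1.1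
    exact one_div_le_one_div_of_le (by positivity) this
  set y : ℝ := (1 + Real.log (2 ^ (i + 1) : ℕ)) ^ ((1 : ℝ) / 2 - 1) with hy
  have hlog : Real.log (2 ^ (i + 1) : ℕ) = (i + 1) * Real.log 2 := by
    push_cast
    rw [Real.log_pow]
    push_cast
    ring
  have hl2 : (1 : ℝ) / 2 < Real.log 2 := by
    have := Real.log_two_gt_d9
    linarith
  have hb0 : (0 : ℝ) < 1 + Real.log (2 ^ (i + 1) : ℕ) := by
    rw [hlog]
    have : (0 : ℝ) ≤ i := Nat.cast_nonneg i
    positivity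
  have hysq : y ^ 2 = (1 + Real.log (2 ^ (i + 1) : ℕ))⁻¹ := by
    rw [hy, ← Real.rpow_natCast, ← Real.rpow_mul hb0.le]
    norm_num
    rw [Real.rpow_neg_one]
  have hy0 : 0 ≤ y := Real.rpow_nonneg hb0.le _
  have h4 : bk i ≤ 2 * C * y := by
    refine h3.trans ?_
    calc ((Bk i).card : ℝ) * (1 / 2 ^ i : ℝ) ≤ (C * (2 ^ (i + 1) : ℕ) * y) * (1 / 2 ^ i) :=
          mul_le_mul_of_nonneg_right h2 (by positivity)
      _ = 2 * C * y := by
          push_cast
          rw [pow_succ]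
          field_simp
  have h5 : bk i ^ 2 ≤ (2 * C * y) ^ 2 := pow_le_pow_left₀ (bk_nonneg i) h4 2
  refine h5.trans ?_
  rw [mul_pow, mul_pow, hysq, hlog]
  have hi : (0 : ℝ) ≤ i := Nat.cast_nonneg i
  rw [inv_eq_one_div, mul_one_div]
  rw [div_le_div_iff₀ (by positivity) (by positivity)]
  have : (i + 1 : ℝ) ≤ 2 * (1 + (i + 1) * Real.log 2) := by nlinarith
  nlinarith [sq_nonneg C, mul_le_mul_of_nonneg_left this (sq_nonneg C)]

open Classical in
theorem pr_sum (J : ℝ) (hJ : 1 ≤ J) (N : ℕ) :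
    ∑ p ∈ PR J N, 1 / ((p.1 : ℝ) * p.2) ≤
      ∑ i ∈ Finset.range (Nat.log 2 N + 1), ∑ k ∈ (Finset.range (Nat.log 2 N + 1)).filter
        (fun k => k ≤ i + (⌊Real.logb 2 J⌋₊ + 1) ∧ i ≤ k + (⌊Real.logb 2 J⌋₊ + 1)), bk i * bk k := by
  set I := Nat.log 2 N + 1
  set K := ⌊Real.logb 2 J⌋₊ + 1 with hK
  have hJ0 : (0 : ℝ) < J := by linarith
  have hcmp : ∀ a b : ℕ, a ≠ 0 → b ≠ 0 → (a : ℝ) ≤ J * b → Nat.log 2 a ≤ Nat.log 2 b + K := by
    intro a b ha hb hab
    by_contra hcon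
    push Not at hcon
    have h1 : 2 ^ Nat.log 2 a ≤ a := Nat.pow_log_le_self 2 ha
    have h2 : b < 2 ^ (Nat.log 2 b + 1) := Nat.lt_pow_succ_log_self (by norm_num) b
    have h3 : (2 : ℝ) ^ (Nat.log 2 b + 1 + K) ≤ a := by
      have : 2 ^ (Nat.log 2 b + 1 + K) ≤ 2 ^ Nat.log 2 a :=
        Nat.pow_le_pow_right (by norm_num) (by omega)
      exact_mod_cast this.trans h1
    have h4 : (b : ℝ) < 2 ^ (Nat.log 2 b + 1) := by exact_mod_cast h2
    have h5 : J < 2 ^ K := by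
      have h6 : Real.logb 2 J < K := by
        rw [hK]
        push_cast
        exact Nat.lt_floor_add_one _
      rw [Real.logb_lt_iff_lt_rpow (by norm_num) hJ0] at h6
      rwa [Real.rpow_natCast] at h6
    have hb0 : (0 : ℝ) < b := by exact_mod_cast Nat.pos_of_ne_zero hb
    have : (a : ℝ) < 2 ^ (Nat.log 2 b + 1) * 2 ^ K := by
      calc (a : ℝ) ≤ J * b := hab
        _ < 2 ^ K * 2 ^ (Nat.log 2 b + 1) := by
            apply mul_lt_mul'' h5 h4 hJ0.le hb0.le
        _ = _ := by ring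
    rw [← pow_add] at this
    linarith
  -- group by logs
  have hmaps : ∀ p ∈ PR J N, (Nat.log 2 p.1, Nat.log 2 p.2) ∈
      (Finset.range I ×ˢ Finset.range I).filter (fun q => q.2 ≤ q.1 + K ∧ q.1 ≤ q.2 + K) := by
    intro p hp
    simp only [PR, Finset.mem_filter, Finset.mem_product, Finset.mem_Icc] at hp
    obtain ⟨⟨⟨h1, h2⟩, ⟨h3, h4⟩⟩, _, _, h5, h6⟩ := hp
    simp only [Finset.mem_filter, Finset.mem_product, Finset.mem_range, I]
    exact ⟨⟨Nat.lt_succ_of_le (Nat.log_mono_right h2), Nat.lt_succ_of_le (Nat.log_mono_right h4)⟩,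
      hcmp _ _ (by omega) (by omega) h6, hcmp _ _ (by omega) (by omega) h5⟩
  rw [← Finset.sum_fiberwise_of_maps_to hmaps]
  have hR : ∑ i ∈ Finset.range I, ∑ k ∈ (Finset.range I).filter
        (fun k => k ≤ i + K ∧ i ≤ k + K), bk i * bk k =
      ∑ q ∈ (Finset.range I ×ˢ Finset.range I).filter (fun q => q.2 ≤ q.1 + K ∧ q.1 ≤ q.2 + K),
        bk q.1 * bk q.2 := by
    rw [Finset.sum_filter, Finset.sum_product]
    refine Finset.sum_congr rfl fun i _ => ?_
    rw [Finset.sum_filter]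
  rw [hR]
  refine Finset.sum_le_sum fun q _ => ?_
  unfold bk
  rw [Finset.sum_mul_sum, ← Finset.sum_product']
  calc ∑ p ∈ (PR J N).filter (fun p => (Nat.log 2 p.1, Nat.log 2 p.2) = q), 1 / ((p.1 : ℝ) * p.2)
      ≤ ∑ p ∈ Bk q.1 ×ˢ Bk q.2, 1 / ((p.1 : ℝ) * p.2) := by
        refine Finset.sum_le_sum_of_subset_of_nonneg ?_ fun p _ _ => by positivity
        intro p hp
        simp only [PR, Finset.mem_filter, Finset.mem_product, Finset.mem_Icc] at hp
        obtain ⟨⟨⟨⟨h1, h2⟩, ⟨h3, h4⟩⟩, h5, h6, _, _⟩, h7⟩ := hp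
        simp only [Bk, Finset.mem_product, Finset.mem_filter, Finset.mem_Ico]
        rw [← h7]
        exact ⟨⟨⟨Nat.pow_log_le_self 2 (by omega), Nat.lt_pow_succ_log_self (by norm_num) _⟩, h5⟩,
          ⟨⟨Nat.pow_log_le_self 2 (by omega), Nat.lt_pow_succ_log_self (by norm_num) _⟩, h6⟩⟩
    _ = ∑ p ∈ Bk q.1 ×ˢ Bk q.2, 1 / (p.1 : ℝ) * (1 / (p.2 : ℝ)) := by
        refine Finset.sum_congr rfl fun p _ => ?_
        rw [one_div_mul_one_div]

open Classical in
theorem band_sum (C : ℝ) (hC : 0 < C) (hb : ∀ i : ℕ, bk i ^ 2 ≤ C / (i + 1)) (I K : ℕ) :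
    ∑ i ∈ Finset.range I, ∑ k ∈ (Finset.range I).filter
        (fun k => k ≤ i + K ∧ i ≤ k + K), bk i * bk k ≤
      (2 * K + 1) * C * (1 + Real.log I) := by
  have hcard : ∀ i : ℕ, (((Finset.range I).filter (fun k => k ≤ i + K ∧ i ≤ k + K)).card : ℝ) ≤
      2 * K + 1 := by
    intro i
    have h1 : ((Finset.range I).filter (fun k => k ≤ i + K ∧ i ≤ k + K)) ⊆
        Finset.Icc (i - K) (i + K) := by
      intro k hk
      simp only [Finset.mem_filter, Finset.mem_range] at hk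
      simp only [Finset.mem_Icc]
      omega
    have h2 := Finset.card_le_card h1
    rw [Nat.card_Icc] at h2
    have h3 : i + K + 1 - (i - K) ≤ 2 * K + 1 := by omega
    exact_mod_cast h2.trans h3
  have hS : ∑ i ∈ Finset.range I, bk i ^ 2 ≤ C * (1 + Real.log I) := by
    calc ∑ i ∈ Finset.range I, bk i ^ 2 ≤ ∑ i ∈ Finset.range I, C * ((i : ℝ) + 1)⁻¹ := by
          refine Finset.sum_le_sum fun i _ => ?_
          rw [← div_eq_mul_inv]
          exact hb i
      _ = C * (harmonic I : ℝ) := by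
          rw [← Finset.mul_sum, harmonic]
          push_cast
          rfl
      _ ≤ C * (1 + Real.log I) := mul_le_mul_of_nonneg_left (harmonic_le_one_add_log I) hC.le
  have h1 : ∑ i ∈ Finset.range I, ∑ k ∈ (Finset.range I).filter
        (fun k => k ≤ i + K ∧ i ≤ k + K), bk i * bk k ≤
      ∑ i ∈ Finset.range I, ∑ k ∈ (Finset.range I).filter
        (fun k => k ≤ i + K ∧ i ≤ k + K), (bk i ^ 2 / 2 + bk k ^ 2 / 2) := by
    refine Finset.sum_le_sum fun i _ => Finset.sum_le_sum fun k _ => ?_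
    nlinarith [sq_nonneg (bk i - bk k)]
  have h2 : ∑ i ∈ Finset.range I, ∑ k ∈ (Finset.range I).filter
        (fun k => k ≤ i + K ∧ i ≤ k + K), bk i ^ 2 / 2 ≤
      (2 * K + 1) * (C * (1 + Real.log I)) / 2 := by
    calc ∑ i ∈ Finset.range I, ∑ k ∈ (Finset.range I).filter (fun k => k ≤ i + K ∧ i ≤ k + K),
          bk i ^ 2 / 2 ≤ ∑ i ∈ Finset.range I, (2 * K + 1) * (bk i ^ 2 / 2) := by
          refine Finset.sum_le_sum fun i _ => ?_
          rw [Finset.sum_const, nsmul_eq_mul]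
          exact mul_le_mul_of_nonneg_right (hcard i) (by positivity)
      _ = (2 * K + 1) * (∑ i ∈ Finset.range I, bk i ^ 2) / 2 := by
          rw [← Finset.mul_sum, ← Finset.sum_div]; ring
      _ ≤ _ := by gcongr
  have h3 : ∑ i ∈ Finset.range I, ∑ k ∈ (Finset.range I).filter
        (fun k => k ≤ i + K ∧ i ≤ k + K), bk k ^ 2 / 2 =
      ∑ i ∈ Finset.range I, ∑ k ∈ (Finset.range I).filter
        (fun k => k ≤ i + K ∧ i ≤ k + K), bk i ^ 2 / 2 := by
    simp only [Finset.sum_filter]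
    rw [Finset.sum_comm]
    refine Finset.sum_congr rfl fun i _ => Finset.sum_congr rfl fun k _ => ?_
    by_cases h : i ≤ k + K ∧ k ≤ i + K
    · rw [if_pos h, if_pos h.symm]
    · rw [if_neg h, if_neg (fun h' => h h'.symm)]
  have h4 : ∑ i ∈ Finset.range I, ∑ k ∈ (Finset.range I).filter
        (fun k => k ≤ i + K ∧ i ≤ k + K), (bk i ^ 2 / 2 + bk k ^ 2 / 2) =
      ∑ i ∈ Finset.range I, ∑ k ∈ (Finset.range I).filter
        (fun k => k ≤ i + K ∧ i ≤ k + K), bk i ^ 2 / 2 +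
      ∑ i ∈ Finset.range I, ∑ k ∈ (Finset.range I).filter
        (fun k => k ≤ i + K ∧ i ≤ k + K), bk k ^ 2 / 2 := by
    simp only [Finset.sum_add_distrib]
  rw [h4, h3] at h1
  linarith

end DivPairs

open DivPairs

open Classical in
/-- A pair `(e, e')` of divisors of `n`, `g = gcd(e, e')`, `e = g ε`, `e' = g η`, gives
`n = g ε η φ`, with `ε ≤ J η`, `η ≤ J ε`. So the sum is at most
`∑_{ε, η} ∑_{ψ ≤ N / (ε η)} τ(ψ)` (`ψ = g φ`), and `τ ≤ 2 ^ Ω`, `ht 2` gives `∑_{ψ ≤ x} τ(ψ) ≤ C x`.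
It remains `∑_{ε ≤ N} (1/ε) ∑_{η ∈ [ε/J, J ε]} 1/η` over `N1` numbers, `ε η ≤ N`. For `ε ≤ J²` use the
trivial bound `∑ 1/η ≤ C (1 + log J)`, total `C (1 + log J)²`; for `ε > J²` dyadic blocks and `ht 1`
give `∑_η ≤ C (1 + log J) (1 + log ε)^(-1/2)`, and
`∑_{ε ≤ N} 1 / (ε (1 + log ε)^(1/2)) ≤ C (1 + log (1 + log N))` again by dyadic blocks and `ht 1`. -/
theorem divPairs : ∃ C : ℝ, 0 < C ∧ ∀ (N : ℕ) (J : ℝ), 1 ≤ N → 1 ≤ J →
    ∑ n ∈ (Finset.Icc 1 N).filter N1, (dpr J n : ℝ) ≤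
      C * N * (1 + Real.log J) ^ 2 * (1 + Real.log (1 + Real.log N)) := by
  obtain ⟨C1, hC1, h1⟩ := bk_le
  obtain ⟨C2, hC2, h2⟩ := ht 2 (by norm_num) (by norm_num)
  refine ⟨C2 * (5 * C1 * 3), by positivity, fun N J hN hJ => ?_⟩
  have hJ0 : (0 : ℝ) < J := by linarith
  have hN0 : (0 : ℝ) < N := by exact_mod_cast hN
  have hτ : ∀ M : ℕ, ((∑ ψ ∈ (Finset.Icc 1 M).filter N1, ψ.divisors.card : ℕ) : ℝ) ≤ C2 * M := by
    intro M
    rcases Nat.eq_zero_or_pos M with hM | hM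
    · subst hM
      simp
    · have := h2 M hM
      rw [show (2 : ℝ) / 2 - 1 = 0 by norm_num, Real.rpow_zero, mul_one] at this
      refine le_trans ?_ this
      push_cast
      refine Finset.sum_le_sum fun ψ hψ => ?_
      simp only [Finset.mem_filter, Finset.mem_Icc] at hψ
      exact_mod_cast card_divisors_le ψ (by omega)
  have h3 : ∑ n ∈ (Finset.Icc 1 N).filter N1, (dpr J n : ℝ) ≤
      ∑ p ∈ PR J N, C2 * N * (1 / ((p.1 : ℝ) * p.2)) := by
    calc ∑ n ∈ (Finset.Icc 1 N).filter N1, (dpr J n : ℝ)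
        = ((∑ n ∈ (Finset.Icc 1 N).filter N1, dpr J n : ℕ) : ℝ) := by push_cast; rfl
      _ ≤ ((∑ p ∈ PR J N, ∑ ψ ∈ (Finset.Icc 1 (N / (p.1 * p.2))).filter N1, ψ.divisors.card : ℕ) : ℝ) := by
          exact_mod_cast count J N
      _ ≤ ∑ p ∈ PR J N, C2 * N * (1 / ((p.1 : ℝ) * p.2)) := by
          rw [Nat.cast_sum]
          refine Finset.sum_le_sum fun p _ => (hτ _).trans ?_
          rw [mul_assoc]
          refine mul_le_mul_of_nonneg_left ?_ hC2.le
          calc ((N / (p.1 * p.2) : ℕ) : ℝ) ≤ (N : ℝ) / ((p.1 * p.2 : ℕ) : ℝ) := Nat.cast_div_le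
            _ = N * (1 / ((p.1 : ℝ) * p.2)) := by push_cast; ring
  refine h3.trans ?_
  rw [← Finset.mul_sum]
  have h4 := (pr_sum J hJ N).trans (band_sum C1 hC1 h1 (Nat.log 2 N + 1) (⌊Real.logb 2 J⌋₊ + 1))
  have hl2 : (1 : ℝ) / 2 < Real.log 2 := by
    have := Real.log_two_gt_d9
    linarith
  have hlJ : 0 ≤ Real.log J := Real.log_nonneg hJ
  have hK : ((⌊Real.logb 2 J⌋₊ + 1 : ℕ) : ℝ) ≤ 2 * Real.log J + 1 := by
    push_cast
    have h5 : (⌊Real.logb 2 J⌋₊ : ℝ) ≤ Real.logb 2 J :=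
      Nat.floor_le (Real.logb_nonneg (by norm_num) hJ)
    have h6 : Real.logb 2 J ≤ 2 * Real.log J := by
      rw [Real.logb, div_le_iff₀ (by linarith)]
      nlinarith
    linarith
  have hLN : 0 ≤ Real.log N := Real.log_nonneg (by exact_mod_cast hN)
  have hI : Real.log ((Nat.log 2 N + 1 : ℕ) : ℝ) ≤ 1 + Real.log (1 + Real.log N) := by
    have h5 : ((Nat.log 2 N : ℕ) : ℝ) ≤ 2 * Real.log N := by
      have h6 : (2 : ℝ) ^ Nat.log 2 N ≤ N := by exact_mod_cast Nat.pow_log_le_self 2 (by omega)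
      have h7 := Real.log_le_log (by positivity) h6
      rw [Real.log_pow] at h7
      have : (0 : ℝ) ≤ (Nat.log 2 N : ℝ) := Nat.cast_nonneg _
      nlinarith
    have h8 : ((Nat.log 2 N + 1 : ℕ) : ℝ) ≤ 2 * (1 + Real.log N) := by
      push_cast
      linarith
    calc Real.log ((Nat.log 2 N + 1 : ℕ) : ℝ) ≤ Real.log (2 * (1 + Real.log N)) :=
          Real.log_le_log (by positivity) h8
      _ = Real.log 2 + Real.log (1 + Real.log N) := Real.log_mul (by norm_num) (by positivity)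
      _ ≤ _ := by
          have := Real.log_two_lt_d9
          linarith
  have hLL : 0 ≤ Real.log (1 + Real.log N) := Real.log_nonneg (by linarith)
  calc C2 * N * ∑ p ∈ PR J N, 1 / ((p.1 : ℝ) * p.2)
      ≤ C2 * N * ((2 * ((⌊Real.logb 2 J⌋₊ + 1 : ℕ) : ℝ) + 1) * C1 *
          (1 + Real.log ((Nat.log 2 N + 1 : ℕ) : ℝ))) :=
        mul_le_mul_of_nonneg_left h4 (by positivity)
    _ ≤ C2 * N * ((5 * (1 + Real.log J) ^ 2) * C1 * (3 * (1 + Real.log (1 + Real.log N)))) := by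
        have h9 : (0 : ℝ) ≤ 1 + Real.log ((Nat.log 2 N + 1 : ℕ) : ℝ) := by
          have : 0 ≤ Real.log ((Nat.log 2 N + 1 : ℕ) : ℝ) := Real.log_natCast_nonneg _
          linarith
        have h10 : 2 * ((⌊Real.logb 2 J⌋₊ + 1 : ℕ) : ℝ) + 1 ≤ 5 * (1 + Real.log J) ^ 2 := by
          nlinarith
        have h11 : 1 + Real.log ((Nat.log 2 N + 1 : ℕ) : ℝ) ≤
            3 * (1 + Real.log (1 + Real.log N)) := by linarith
        gcongr
    _ = _ := by ring

end Pool.Agent.GaussMR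

end
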