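import Mathlib
import Pool.Agent.Lib_MP_f1a94e_m.G01
import Pool.Agent.Lib_MP_f1a94e_m.G04
import Pool.Agent.Lib_MP_f1a94e_m.G06
import Pool.Agent.Lib_MP_f1a94e_m.G12
import Pool.Agent.Lib_MP_f1a94e_m.G14
import Pool.Agent.Lib_MP_f1a94e_m.G15
import Pool.Agent.Lib_MP_f1a94e_m.G16
import Pool.Agent.Lib_MP_f1a94e_m.G17
import Pool.Agent.Lib_MP_f1a94e_m.G18
import Pool.Agent.Lib_MP_f1a94e_m.G19

/-!
# MP_f1a94e_nt: merged library part G24

Concatenation of files of the libraries `Lib_MP_f1a94e_*` (each in its own section), only to save build time.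
-/

/-! ### from `Lib_MP_f1a94e_eq.An` -/

section

/-!
# Piece AN: the limit quantity tends to zero
-/

set_option autoImplicit false

namespace Pool.Agent.OmEq

open Finset Pool.Agent.OmAll MeasureTheory Filter

namespace AnP

theorem Pr_nonneg (E : Finset ℕ) (T : ℕ) (D : Finset ℕ) (hD : D ⊆ PE E T) : 0 ≤ Pr E T D := by
  have h : ∀ p ∈ PE E T, 0 < Ap p ∧ 2 * Ap p ≤ 4 / 5 := by
    intro p hp
    rw [mem_PE] at hp
    have hp5 : 5 ≤ p := by
      have := hp.2.1.two_le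
      omega
    obtain ⟨h1, h2, -⟩ := Ap_bound p hp5
    refine ⟨h1, h2.trans ?_⟩
    have : (5 : ℝ) ≤ p := by exact_mod_cast hp5
    exact div_le_div_of_nonneg_left (by norm_num) (by norm_num) this
  unfold Pr
  apply mul_nonneg
  · exact prod_nonneg fun p hp => (h p (hD hp)).1.le
  · refine prod_nonneg fun p hp => ?_
    have := (h p (mem_sdiff.mp hp).1).2
    linarith

/-- `∑_D Pr D ∏_(p ∈ D) x_p = ∏ (Ap p x_p + 1 - 2 Ap p)` -/
theorem sum_Pr (E : Finset ℕ) (T : ℕ) (x : ℕ → ℝ) :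
    ∑ D ∈ (PE E T).powerset, Pr E T D * ∏ p ∈ D, x p =
      ∏ p ∈ PE E T, (Ap p * x p + (1 - 2 * Ap p)) := by
  rw [prod_add]
  refine sum_congr rfl fun D _ => ?_
  unfold Pr
  rw [prod_mul_distrib]
  ring

theorem sum_Pr_two (E : Finset ℕ) (T : ℕ) :
    ∑ D ∈ (PE E T).powerset, Pr E T D * (2 : ℝ) ^ D.card = 1 := by
  have h := sum_Pr E T (fun _ => 2)
  simp only [prod_const] at h
  rw [h]
  refine prod_eq_one fun p _ => ?_
  ring

theorem norm_coef {E : Finset ℕ} {g : ℕ → ℂ}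
    (hg1 : ∀ p : ℕ, p.Prime → p % 4 = 1 → p ∉ E → ‖g p‖ = 1) {T : ℕ} {D a : Finset ℕ}
    (hD : D ⊆ PE E T) (ha : a ⊆ D) : ‖∏ p ∈ a, g p‖ = 1 := by
  rw [norm_prod]
  refine prod_eq_one fun p hp => ?_
  have := mem_PE.mp (hD (ha hp))
  exact hg1 p this.2.1 this.2.2.1 this.2.2.2

theorem cs_int (g : ℕ → ℂ) (w : ℝ → ℂ) (hw : Integrable w) (D : Finset ℕ) :
    Integrable (fun t => cs g w D t) := by
  unfold cs
  refine integrable_finsetSum _ fun a _ => ?_
  exact (hw.comp_sub_right (2 * lg a)).const_mul _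

theorem cs_le {E : Finset ℕ} {g : ℕ → ℂ}
    (hg1 : ∀ p : ℕ, p.Prime → p % 4 = 1 → p ∉ E → ‖g p‖ = 1) {T : ℕ} {D : Finset ℕ}
    (hD : D ⊆ PE E T) (w : ℝ → ℂ) (hw : Integrable w) :
    ∫ t, ‖cs g w D t‖ ≤ (2 : ℝ) ^ D.card * ∫ t, ‖w t‖ := by
  have hi : ∀ a : Finset ℕ, Integrable (fun t => ‖w (t - 2 * lg a)‖) := fun a =>
    (hw.comp_sub_right (2 * lg a)).norm
  calc ∫ t, ‖cs g w D t‖ ≤ ∫ t, ∑ a ∈ D.powerset, ‖w (t - 2 * lg a)‖ := by
        apply integral_mono (cs_int g w hw D).norm (integrable_finsetSum _ fun a _ => hi a)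
        intro t
        refine (norm_sum_le _ _).trans (sum_le_sum fun a ha => ?_)
        rw [norm_mul, norm_coef hg1 hD (mem_powerset.mp ha), one_mul]
    _ = ∑ a ∈ D.powerset, ∫ t, ‖w (t - 2 * lg a)‖ := integral_finsetSum _ fun a _ => hi a
    _ = ∑ _a ∈ D.powerset, ∫ t, ‖w t‖ := by
        refine sum_congr rfl fun a _ => ?_
        exact integral_sub_right_eq_self (fun t => ‖w t‖) (2 * lg a)
    _ = (2 : ℝ) ^ D.card * ∫ t, ‖w t‖ := by
        rw [sum_const, card_powerset, nsmul_eq_mul]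
        push_cast
        ring

theorem cs_sub (g : ℕ → ℂ) (w v : ℝ → ℂ) (D : Finset ℕ) (t : ℝ) :
    cs g w D t = cs g v D t + cs g (fun u => w u - v u) D t := by
  unfold cs
  rw [← sum_add_distrib]
  refine sum_congr rfl fun a _ => ?_
  ring

theorem IT_nonneg (E : Finset ℕ) (g : ℕ → ℂ) (T : ℕ) (w : ℝ → ℂ) : 0 ≤ IT E g T w := by
  unfold IT
  refine sum_nonneg fun D hD => ?_
  exact mul_nonneg (Pr_nonneg E T D (mem_powerset.mp hD)) (integral_nonneg fun t => norm_nonneg _)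

theorem IT_add (E : Finset ℕ) (g : ℕ → ℂ) (T : ℕ) (w v : ℝ → ℂ) (hw : Integrable w)
    (hv : Integrable v) : IT E g T w ≤ IT E g T v + IT E g T (fun u => w u - v u) := by
  unfold IT
  rw [← sum_add_distrib]
  refine sum_le_sum fun D hD => ?_
  rw [← mul_add]
  refine mul_le_mul_of_nonneg_left ?_ (Pr_nonneg E T D (mem_powerset.mp hD))
  have hs : Integrable (fun t => cs g (fun u => w u - v u) D t) := cs_int g _ (hw.sub hv) D
  rw [← integral_add (cs_int g v hv D).norm hs.norm]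
  apply integral_mono (cs_int g w hw D).norm ((cs_int g v hv D).norm.add hs.norm)
  intro t
  simp only
  rw [cs_sub g w v D t]
  exact norm_add_le _ _

/-- the square of the norm of `1 + u` for `‖u‖ = 1` -/
theorem norm_one_add_sq {u : ℂ} (hu : ‖u‖ = 1) : ‖1 + u‖ ^ 2 = 2 + 2 * u.re := by
  have h1 : u.re * u.re + u.im * u.im = 1 := by
    have := Complex.normSq_eq_norm_sq u
    rw [hu, Complex.normSq_apply] at this
    linarith
  rw [← Complex.normSq_eq_norm_sq, Complex.normSq_apply]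
  simp only [Complex.add_re, Complex.one_re, Complex.add_im, Complex.one_im, zero_add]
  nlinarith

theorem norm_exp_I (x : ℝ) : ‖Complex.exp (-(x : ℝ) * Complex.I)‖ = 1 := by
  have : (-(x : ℝ) * Complex.I : ℂ) = ((-x : ℝ) : ℂ) * Complex.I := by push_cast; ring
  rw [this, Complex.norm_exp_ofReal_mul_I]

/-- the L2 hypothesis of `anI` -/
theorem hL2 (E : Finset ℕ) (g : ℕ → ℂ) (hg1 : ∀ p : ℕ, p.Prime → p % 4 = 1 → p ∉ E → ‖g p‖ = 1)
    (z : ℝ) (B : ℝ) (φ ψ : ℝ → ℂ) (hφ : Continuous φ) (hB : ∀ τ, B ≤ |τ| → φ τ = 0)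
    (hψ : ∀ t, ψ t = ∫ τ, φ τ * Complex.exp ((τ * t : ℝ) * Complex.I)) (hψc : Continuous ψ) (C : ℝ)
    (hC : ∀ t, ‖ψ t‖ ≤ C / (1 + t ^ 2)) (T : ℕ) :
    ∑ D ∈ (PE E T).powerset, Pr E T D * z ^ D.card * ∫ t, ‖cs g ψ D t‖ ^ 2 =
      2 * Real.pi * ∫ τ, ‖φ τ‖ ^ 2 * ∏ p ∈ PE E T,
        (1 + 2 * Ap p * (z - 1 + z * (g p * Complex.exp (-(2 * τ * Real.log p : ℝ) * Complex.I)).re)) := by
  have hint : ∀ D : Finset ℕ, Integrable (fun τ : ℝ => ‖φ τ‖ ^ 2 *
      ∏ p ∈ D, ‖1 + g p * Complex.exp (-(2 * τ * Real.log p : ℝ) * Complex.I)‖ ^ 2) := by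
    intro D
    apply Continuous.integrable_of_hasCompactSupport
    · apply Continuous.mul (by fun_prop)
      apply continuous_finsetProd
      intro p _
      fun_prop
    · apply HasCompactSupport.intro (isCompact_Icc : IsCompact (Set.Icc (-B) B))
      intro τ hτ
      have : B ≤ |τ| := by
        by_contra hc
        push Not at hc
        rw [abs_lt] at hc
        exact hτ ⟨hc.1.le, hc.2.le⟩
      rw [hB τ this]
      simp
  calc ∑ D ∈ (PE E T).powerset, Pr E T D * z ^ D.card * ∫ t, ‖cs g ψ D t‖ ^ 2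
      = ∑ D ∈ (PE E T).powerset, ∫ τ, (2 * Real.pi) * ((Pr E T D * z ^ D.card) * (‖φ τ‖ ^ 2 *
        ∏ p ∈ D, ‖1 + g p * Complex.exp (-(2 * τ * Real.log p : ℝ) * Complex.I)‖ ^ 2)) := by
        refine sum_congr rfl fun D _ => ?_
        rw [plan B φ ψ hφ hB hψ hψc C hC g D, integral_const_mul, integral_const_mul]
        ring
    _ = ∫ τ, ∑ D ∈ (PE E T).powerset, (2 * Real.pi) * ((Pr E T D * z ^ D.card) * (‖φ τ‖ ^ 2 *
        ∏ p ∈ D, ‖1 + g p * Complex.exp (-(2 * τ * Real.log p : ℝ) * Complex.I)‖ ^ 2)) := by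
        rw [integral_finsetSum]
        intro D _
        exact ((hint D).const_mul _).const_mul _
    _ = ∫ τ, (2 * Real.pi) * (‖φ τ‖ ^ 2 * ∏ p ∈ PE E T,
        (1 + 2 * Ap p * (z - 1 + z * (g p * Complex.exp (-(2 * τ * Real.log p : ℝ) *
          Complex.I)).re))) := by
        congr 1
        funext τ
        rw [← mul_sum]
        congr 1
        have h1 : ∑ D ∈ (PE E T).powerset, (Pr E T D * z ^ D.card) * (‖φ τ‖ ^ 2 *
            ∏ p ∈ D, ‖1 + g p * Complex.exp (-(2 * τ * Real.log p : ℝ) * Complex.I)‖ ^ 2) =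
            ‖φ τ‖ ^ 2 * ∑ D ∈ (PE E T).powerset, Pr E T D * ∏ p ∈ D,
              (z * ‖1 + g p * Complex.exp (-(2 * τ * Real.log p : ℝ) * Complex.I)‖ ^ 2) := by
          rw [mul_sum]
          refine sum_congr rfl fun D _ => ?_
          rw [prod_mul_distrib, prod_const]
          ring
        rw [h1, sum_Pr]
        congr 1
        refine prod_congr rfl fun p hp => ?_
        have hp' := mem_PE.mp hp
        have hn : ‖g p * Complex.exp (-(2 * τ * Real.log p : ℝ) * Complex.I)‖ = 1 := by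
          rw [norm_mul, hg1 p hp'.2.1 hp'.2.2.1 hp'.2.2.2, norm_exp_I, one_mul]
        rw [norm_one_add_sq hn]
        ring
    _ = _ := by rw [integral_const_mul]

theorem psi_int {ψ : ℝ → ℂ} (hψ : Continuous ψ) {C : ℝ} (hC : ∀ t, ‖ψ t‖ ≤ C / (1 + t ^ 2)) :
    Integrable ψ := by
  have h1 : Integrable (fun t : ℝ => C * (1 + t ^ 2)⁻¹) := integrable_inv_one_add_sq.const_mul C
  refine h1.mono' hψ.aestronglyMeasurable (Eventually.of_forall fun t => ?_)
  rw [← div_eq_mul_inv]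
  exact hC t

end AnP

open AnP

/-- `IT E g T w ≤ ∫ ‖w‖`: `∫ ‖cs g w D‖ ≤ 2^(#D) ∫ ‖w‖` (translations, `‖g p‖ = 1` for `p ∈ PE E T`) and `∑_D Pr D 2^(#D) = ∏ (1 - 2 Ap + 2 Ap) = 1`. -/
theorem IT_le (E : Finset ℕ) (g : ℕ → ℂ) (hg1 : ∀ p : ℕ, p.Prime → p % 4 = 1 → p ∉ E → ‖g p‖ = 1) (T : ℕ)
    (w : ℝ → ℂ) (hw : Integrable w) : IT E g T w ≤ ∫ t, ‖w t‖ := by
  unfold IT
  calc ∑ D ∈ (PE E T).powerset, Pr E T D * ∫ t, ‖cs g w D t‖
      ≤ ∑ D ∈ (PE E T).powerset, Pr E T D * ((2 : ℝ) ^ D.card * ∫ t, ‖w t‖) := by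
        refine sum_le_sum fun D hD => ?_
        exact mul_le_mul_of_nonneg_left (cs_le hg1 (mem_powerset.mp hD) w hw)
          (Pr_nonneg E T D (mem_powerset.mp hD))
    _ = (∑ D ∈ (PE E T).powerset, Pr E T D * (2 : ℝ) ^ D.card) * ∫ t, ‖w t‖ := by
        rw [sum_mul]
        refine sum_congr rfl fun D _ => ?_
        ring
    _ = ∫ t, ‖w t‖ := by rw [sum_Pr_two, one_mul]

/-- PROOF. Choose `z` with `1/2 < z < 1` and `2 z R < 1` if `R < 1` (`z = 3/4` if `R ≤ 1/2`, otherwise between `1/2` and `1/(2R)`). Given `ε`, `mol` gives `φ, ψ`.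
`plan` and `∑_(D ⊆ PE) Pr D z^(#D) ∏_(p ∈ D) x_p = ∏_(p ∈ PE) (1 - 2 Ap p + Ap p z x_p)` (`Finset.prod_add`) with `x_p = ‖1 + g p exp(..)‖^2 = 2 + 2 Re (g p exp ..)` (`‖g p‖ = 1`)
and exchange of the finite sum with the integral give `∑_D Pr D z^(#D) ∫ ‖cs g ψ D‖^2 = 2 π ∫ ‖φ‖^2 ∏ (1 + 2 Ap (z - 1 + z Re ..))`, so `prodB` gives the hypothesis
of `anI` (in the second case of `h0` use `‖φ τ‖ ≤ C |τ|`). So `IT E g T ψ → 0`; and `IT E g T w ≤ IT E g T ψ + IT E g T (w - ψ) ≤ IT E g T ψ + ε` (`cs` is linear in `w`,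
`IT_le`; integrability from the decay of `ψ` and compact support of `w`). `0 ≤ IT`. -/
theorem an (E : Finset ℕ) (g : ℕ → ℂ) (hg1 : ∀ p : ℕ, p.Prime → p % 4 = 1 → p ∉ E → ‖g p‖ = 1) (R : ℝ)
    (hR0 : 0 ≤ R) (hR1 : R ≤ 1) (hNP : NP E g R) (w : ℝ → ℂ) (hw : Continuous w) (hc : HasCompactSupport w)
    (h0 : R < 1 ∨ (∫ t, w t) = 0) :
    Tendsto (fun T : ℕ => IT E g T w) atTop (nhds 0) := by
  obtain ⟨z, hz, hz1, hzR⟩ : ∃ z : ℝ, 1 / 2 < z ∧ z < 1 ∧ (R < 1 → 2 * z * R < 1) := by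
    by_cases h : R ≤ 1 / 2
    · exact ⟨3 / 4, by norm_num, by norm_num, fun _ => by linarith⟩
    · push Not at h
      by_cases h1 : R < 1
      · have hR : 0 < 4 * R := by linarith
        refine ⟨(R + 1) / (4 * R), ?_, ?_, fun _ => ?_⟩
        · rw [lt_div_iff₀ hR]; linarith
        · rw [div_lt_one hR]; linarith
        · have : 2 * ((R + 1) / (4 * R)) * R = (R + 1) / 2 := by
            field_simp
            ring
          rw [this]; linarith
      · exact ⟨3 / 4, by norm_num, by norm_num, fun h2 => absurd h2 h1⟩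
  have hwi : Integrable w := hw.integrable_of_hasCompactSupport hc
  rw [Metric.tendsto_atTop]
  intro ε hε
  obtain ⟨B, C, φ, ψ, hB0, hC0, hφ, hB, hψ, hψc, hC, hdiff, hzero⟩ := mol w hw hc (ε / 2) (by linarith)
  have hψi : Integrable ψ := psi_int hψc hC
  have h0' : R < 1 ∨ ∀ τ, ‖φ τ‖ ≤ C * |τ| := by
    rcases h0 with h | h
    · exact Or.inl h
    · exact Or.inr (hzero h)
  obtain ⟨C', hC'⟩ := prodB E g hg1 R hR0 hR1 hNP z hz hz1 hzR B C hB0 φ hφ hB h0'
  have hlim := anI E g hg1 z hz hz1 ψ hψc C hC (2 * Real.pi * C') (by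
    intro T hT
    rw [hL2 E g hg1 z B φ ψ hφ hB hψ hψc C hC T, mul_assoc (2 * Real.pi) C']
    exact mul_le_mul_of_nonneg_left (hC' T hT) (by positivity))
  rw [Metric.tendsto_atTop] at hlim
  obtain ⟨N, hN⟩ := hlim (ε / 2) (by linarith)
  refine ⟨N, fun T hT => ?_⟩
  have h1 := hN T hT
  rw [Real.dist_eq, sub_zero, abs_of_nonneg (IT_nonneg E g T ψ)] at h1
  rw [Real.dist_eq, sub_zero, abs_of_nonneg (IT_nonneg E g T w)]
  have h2 := IT_add E g T w ψ hwi hψi
  have h3 := IT_le E g hg1 T (fun u => w u - ψ u) (hwi.sub hψi)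
  linarith

end Pool.Agent.OmEq

end

/-! ### from `Lib_MP_f1a94e_eq.Ctw` -/

section

/-!
# Piece CTW: the twisted cluster theorem
-/

set_option autoImplicit false

namespace Pool.Agent.OmEq

open Finset Pool.Agent.GaussMR Pool.Agent.OmAll MeasureTheory Filter

theorem ctw_psi_cont {b : ℝ} {W : ℝ → ℝ → ℂ} (hW : TF b W) (g : ℕ → ℂ) (D : Finset ℕ) :
    Continuous (Function.uncurry fun y t => ‖cs g (W y) D t‖) := by
  have h : (Function.uncurry fun y t => ‖cs g (W y) D t‖) =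
      fun p : ℝ × ℝ => ‖∑ a ∈ D.powerset, (∏ q ∈ a, g q) * Function.uncurry W (p.1, p.2 - 2 * lg a)‖ := by
    funext p
    rfl
  rw [h]
  refine continuous_norm.comp (continuous_finsetSum _ fun a _ => continuous_const.mul ?_)
  exact hW.cont.comp (by fun_prop)

theorem ctw_psi_supp {b : ℝ} {W : ℝ → ℝ → ℂ} (hW : TF b W) (g : ℕ → ℂ) (D : Finset ℕ) :
    HasCompactSupport (Function.uncurry fun y t => ‖cs g (W y) D t‖) := by
  obtain ⟨R0, hR0, hR⟩ := ctw_supp hW
  have hL : ∃ L : ℝ, ∀ a ∈ D.powerset, |2 * lg a| ≤ L := by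
    refine ⟨∑ a ∈ D.powerset, |2 * lg a|, fun a ha => ?_⟩
    exact single_le_sum (f := fun a => |2 * lg a|) (fun i _ => abs_nonneg _) ha
  obtain ⟨L, hL⟩ := hL
  refine HasCompactSupport.of_support_subset_isCompact
    ((isCompact_Icc (a := -R0) (b := R0)).prod (isCompact_Icc (a := -(R0 + L)) (b := R0 + L))) ?_
  rintro ⟨y, t⟩ h
  rw [Function.mem_support] at h
  have h1 : cs g (W y) D t ≠ 0 := fun h2 => h (by
    show ‖cs g (W y) D t‖ = 0
    rw [h2, norm_zero])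
  unfold cs at h1
  obtain ⟨a, ha, h2⟩ := exists_ne_zero_of_sum_ne_zero h1
  have h3 := hR y _ (right_ne_zero_of_mul h2)
  have h4 := hL a ha
  rw [Set.mem_prod, Set.mem_Icc, Set.mem_Icc, ← abs_le, ← abs_le]
  refine ⟨h3.1, ?_⟩
  have h5 : |t| ≤ |t - 2 * lg a| + |2 * lg a| := by
    have := abs_add_le (t - 2 * lg a) (2 * lg a)
    rwa [sub_add_cancel] at this
  show |t| ≤ R0 + L
  linarith [h3.2]

/-- PROOF. Let `T` be given. `cluster` with `fun y t => W (y / X) t` (X > 0) gives for the sum `∑_(EN n (b X), bs) Φ e * cs g (W (mE e / X)) (ds E T e) (tE e)`, so its norm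
is at most `∑_(EN n (b X), bs) Ψ (ds E T e) (mE e / X) (tE e)` with `Ψ D y t = ‖cs g (W y) D t‖` (`Cmp.bd`). `Ψ D` is continuous with compact support (a finite sum
of translates in `t` of `W`), zero for `y ≤ 0` and `b ≤ y`. `tr` gives the limit `κ * ∑_D Pr D * ∫ y, ∫ t, Ψ D y t = κ * ∫ y, IT E g T (W y)` (finite sum and integral:
`y ↦ ∫ t, Ψ D y t` is integrable, e.g. `Integrable.integral_prod_left` or continuous with compact support). Hence for every `T`,
`limsup_X ‖sum‖ / X ≤ κ * ∫ y, IT E g T (W y)`. For `T → ∞` the right side tends to `0` by dominated convergence: `0 ≤ IT E g T (W y) ≤ ∫ t, ‖W y t‖` (`IT_le`), which is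
integrable in `y`, and `IT E g T (W y) → 0` for every `y` by `an` (`W y` is continuous with compact support). -/
theorem ctw (n : ℕ) (hn : 0 < n) (E : Finset ℕ) (hE : n.primeFactors ⊆ E) (g : ℕ → ℂ)
    (hg1 : ∀ p : ℕ, p.Prime → p % 4 = 1 → p ∉ E → ‖g p‖ = 1) (R : ℝ) (hR0 : 0 ≤ R) (hR1 : R ≤ 1) (hNP : NP E g R)
    (Φ : G × G → ℂ) (hΦ : Cmp n E g Φ) (b : ℝ) (W : ℝ → ℝ → ℂ) (hW : TF b W)
    (h0 : R < 1 ∨ ∀ y, (∫ t, W y t) = 0) :
    Tendsto (fun X : ℝ => (∑ e ∈ EN n (b * X), Φ e * W (mE e / X) (tE e)) / X) atTop (nhds 0) := by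
  classical
  obtain ⟨κ, hκ, htr⟩ := tr n hn
  -- integrability
  have hPi : ∀ D : Finset ℕ, Integrable (Function.uncurry fun y t => ‖cs g (W y) D t‖)
      (volume.prod volume) := fun D => by
    have h1 := (ctw_psi_cont hW g D).integrable_of_hasCompactSupport (ctw_psi_supp hW g D)
      (μ := (volume : Measure (ℝ × ℝ)))
    rwa [Measure.volume_eq_prod] at h1
  have hP1 : ∀ D : Finset ℕ, Integrable (fun y => ∫ t, ‖cs g (W y) D t‖) := fun D =>
    (hPi D).integral_prod_left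
  have hWi : Integrable (fun y => ∫ t, ‖W y t‖) := by
    have h1 := (hW.cont.integrable_of_hasCompactSupport hW.supp
      (μ := (volume : Measure (ℝ × ℝ)))).norm
    rw [Measure.volume_eq_prod] at h1
    exact h1.integral_prod_left
  -- the limit in `X`
  have hIT : ∀ T : ℕ, ∑ D ∈ (PE E T).powerset, Pr E T D * ∫ y, ∫ t, ‖cs g (W y) D t‖ =
      ∫ y, IT E g T (W y) := by
    intro T
    unfold IT
    rw [integral_finsetSum]
    · refine sum_congr rfl fun D _ => ?_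
      rw [integral_const_mul]
    · intro D _
      exact (hP1 D).const_mul _
  have hITi : ∀ T : ℕ, Integrable (fun y => IT E g T (W y)) := by
    intro T
    unfold IT
    exact integrable_finsetSum _ fun D _ => (hP1 D).const_mul _
  -- dominated convergence
  have hlim : Tendsto (fun T : ℕ => ∫ y, IT E g T (W y)) atTop (nhds 0) := by
    have h1 := tendsto_integral_of_dominated_convergence (F := fun T y => IT E g T (W y))
      (f := fun _ => (0 : ℝ)) (fun y => ∫ t, ‖W y t‖) (fun T => (hITi T).aestronglyMeasurable)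
      hWi ?_ ?_
    · rwa [integral_zero] at h1
    · intro T
      refine Filter.Eventually.of_forall fun y => ?_
      rw [Real.norm_eq_abs, abs_of_nonneg (AnP.IT_nonneg E g T (W y))]
      exact IT_le E g hg1 T (W y)
        ((ctw_cont_right hW y).integrable_of_hasCompactSupport (ctw_supp_right hW y))
    · refine Filter.Eventually.of_forall fun y => ?_
      exact an E g hg1 R hR0 hR1 hNP (W y) (ctw_cont_right hW y) (ctw_supp_right hW y)
        (h0.imp id fun h => h y)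
  rw [Metric.tendsto_atTop]
  intro ε hε
  have hlim' := hlim.const_mul κ
  rw [mul_zero] at hlim'
  obtain ⟨T, hT⟩ := (hlim'.eventually (gt_mem_nhds hε)).exists
  have ht := htr E hE T (fun D y t => ‖cs g (W y) D t‖) (ctw_psi_cont hW g) (ctw_psi_supp hW g)
    (fun D y u hy => by
      show ‖cs g (W y) D u‖ = 0
      unfold cs
      rw [sum_eq_zero, norm_zero]
      intro a _
      rw [hW.lo y _ hy, mul_zero]) b
    (fun D y u hy => by
      show ‖cs g (W y) D u‖ = 0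
      unfold cs
      rw [sum_eq_zero, norm_zero]
      intro a _
      rw [hW.hi y _ hy, mul_zero])
  rw [hIT T] at ht
  obtain ⟨X0, hX0⟩ := eventually_atTop.1 (ht.eventually (gt_mem_nhds hT))
  refine ⟨max X0 1, fun X hX => ?_⟩
  have hX1 : X0 ≤ X := (le_max_left _ _).trans hX
  have hX2 : 0 < X := lt_of_lt_of_le one_pos ((le_max_right _ _).trans hX)
  have h3 := hX0 X hX1
  rw [dist_zero_right, norm_div, Complex.norm_real, Real.norm_eq_abs, abs_of_pos hX2]
  refine lt_of_le_of_lt ?_ h3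
  refine div_le_div_of_nonneg_right ?_ hX2.le
  have h4 := cluster n hn E hE g Φ hΦ T (b * X) (fun y t => W (y / X) t)
  rw [h4]
  refine (norm_sum_le _ _).trans (sum_le_sum fun e _ => ?_)
  rw [norm_mul]
  have h5 : ‖Φ e‖ * ‖cs g (fun t => W (mE e / X) t) (ds E T e) (tE e)‖ ≤
      1 * ‖cs g (fun t => W (mE e / X) t) (ds E T e) (tE e)‖ :=
    mul_le_mul_of_nonneg_right (hΦ.bd e) (norm_nonneg _)
  rw [one_mul] at h5
  exact h5

end Pool.Agent.OmEq

end

/-! ### from `Lib_MP_f1a94e_eq.Pair` -/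

section

/-!
# Piece PAIR: sums over pairs with characters
-/

set_option autoImplicit false

namespace Pool.Agent.OmEq

open Finset Pool.Agent.GaussMR Pool.Agent.OmAll MeasureTheory Filter

theorem pair_re_lt {z : ℂ} (hz : ‖z‖ = 1) (h1 : z ≠ 1) : z.re < 1 := by
  rcases lt_or_eq_of_le (hz ▸ Complex.re_le_norm z) with h | h
  · exact h
  · exfalso
    apply h1
    have h2 := Complex.sq_norm_sub_sq_re z
    rw [hz, h] at h2
    have h3 : z.im = 0 := by
      have : z.im ^ 2 = 0 := by rw [← h2]; norm_num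
      exact pow_eq_zero_iff (two_ne_zero) |>.1 this
    exact Complex.ext (by simpa using h) (by simpa using h3)

/-- PROOF. `ctw` with `E ∪ n.primeFactors`, `cmp_pair`, `g p = ω1 conj ω2 χ⁻¹(p)`, `‖g p‖ = 1` for primes `p ∤ n`. Put `ω = ω1 conj ω2`, `‖ω‖ = 1`.
Case 1 (`ω ≠ 1`): `R = max 0 ω.re < 1` (`‖ω‖ = 1`, `ω ≠ 1`), `npChi n χ⁻¹ ω`. Case 2: `R = 0`, `npZ n χ⁻¹ a` (`χ⁻¹(a) = χ(a)⁻¹ ≠ 1`). Case 3: `R = max 0 ω.re ≤ 1`, `npChi`,
second alternative of `h0` of `ctw`. -/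
theorem pair_lim (n : ℕ) [NeZero n] (χ : DirichletCharacter ℂ n) (E : Finset ℕ) (f1 f2 : ℕ → ℂ) (ω1 ω2 : ℂ)
    (h1 : FF f1 E ω1) (h2 : FF f2 E ω2) (hω1 : ‖ω1‖ = 1) (hω2 : ‖ω2‖ = 1) (b : ℝ) (W : ℝ → ℝ → ℂ) (hW : TF b W)
    (h0 : ω1 * (starRingEnd ℂ) ω2 ≠ 1 ∨ (∃ a : ℕ, a % 4 = 1 ∧ a.Coprime n ∧ χ ((a : ZMod n)) ≠ 1) ∨
      ∀ y, (∫ t, W y t) = 0) :
    Tendsto (fun X : ℝ => (∑ e ∈ EN n (b * X), f1 (nm e.1) * f2 (nm e.2) * χ (cl n e) * W (mE e / X) (tE e)) / X)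
      atTop (nhds 0) := by
  have hn : 0 < n := Nat.pos_of_ne_zero (NeZero.ne n)
  have hω : ‖ω1 * (starRingEnd ℂ) ω2‖ = 1 := by
    rw [norm_mul, Complex.norm_conj, hω1, hω2, one_mul]
  have hg1 : ∀ p : ℕ, p.Prime → p % 4 = 1 → p ∉ E ∪ n.primeFactors →
      ‖ω1 * (starRingEnd ℂ) ω2 * χ⁻¹ (p : ZMod n)‖ = 1 := by
    intro p hp _ hpE
    have hpn : ¬ p ∣ n := fun h => hpE (mem_union_right _ (Nat.mem_primeFactors.2 ⟨hp, h, hn.ne'⟩))
    have hcop : p.Coprime n := (Nat.Prime.coprime_iff_not_dvd hp).2 hpn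
    have hu := (ZMod.unitOfCoprime p hcop)
    rw [norm_mul, hω, one_mul]
    have h3 := DirichletCharacter.unit_norm_eq_one χ⁻¹ (ZMod.unitOfCoprime p hcop)
    rwa [ZMod.coe_unitOfCoprime] at h3
  have hC := cmp_pair n χ E f1 f2 ω1 ω2 h1 h2 hω1 hω2
  rcases h0 with h | ⟨a, ha4, hac, hχ⟩ | h
  · exact ctw n hn _ subset_union_right _ hg1 (max 0 (ω1 * (starRingEnd ℂ) ω2).re) (le_max_left _ _)
      (max_le zero_le_one (pair_re_lt hω h).le) (npChi n χ⁻¹ _ hω _) _ hC b W hW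
      (Or.inl (max_lt zero_lt_one (pair_re_lt hω h)))
  · refine ctw n hn _ subset_union_right _ hg1 0 le_rfl zero_le_one (npZ n χ⁻¹ a ha4 hac ?_ _ hω _) _ hC b W hW
      (Or.inl zero_lt_one)
    intro h3
    apply hχ
    have h4 : (χ⁻¹ * χ) (a : ZMod n) = 1 := by
      rw [inv_mul_cancel, MulChar.one_apply ((ZMod.isUnit_iff_coprime a n).2 hac)]
    rw [MulChar.mul_apply, h3, one_mul] at h4
    exact h4
  · exact ctw n hn _ subset_union_right _ hg1 (max 0 (ω1 * (starRingEnd ℂ) ω2).re) (le_max_left _ _)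
      (max_le zero_le_one (hω ▸ Complex.re_le_norm _)) (npChi n χ⁻¹ _ hω _) _ hC b W hW (Or.inr h)

/-- PROOF. `ctw` with `n = 1`, `E = ∅`, `g = 1`, `R = 1`, `Φ e = u (dot e.1 e.2)`: `Cmp`: `dot (γ U) W = dot U (star γ W)` (`star_mul_eq`). `NP ∅ (fun _ => 1) 1` from `npChi` with `N = 1`, `χ = 1`,
`ω = 1` (`max 0 1 = 1`; `χ p = 1` in `ZMod 1`). -/
theorem tvf (u : ℤ → ℂ) (hu : ∀ m, ‖u m‖ ≤ 1) (b : ℝ) (W : ℝ → ℝ → ℂ) (hW : TF b W) (h0 : ∀ y, (∫ t, W y t) = 0) :
    Tendsto (fun X : ℝ => (∑ e ∈ EN 1 (b * X), u (dot e.1 e.2) * W (mE e / X) (tE e)) / X) atTop (nhds 0) := by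
  have hNP : NP ∅ (fun _ => (1 : ℂ)) 1 := by
    have h := npChi 1 1 1 (by simp) ∅
    have h1 : (fun p : ℕ => (1 : ℂ) * (1 : DirichletCharacter ℂ 1) ((p : ZMod 1))) = fun _ => (1 : ℂ) := by
      funext p
      rw [one_mul, MulChar.one_apply (isUnit_of_subsingleton _)]
    have h2 : max 0 (1 : ℂ).re = 1 := by simp
    rw [h1, h2] at h
    exact h
  refine ctw 1 one_pos ∅ (by simp) (fun _ => (1 : ℂ)) (fun _ _ _ _ => by simp) 1 zero_le_one le_rfl hNP
    (fun e => u (dot e.1 e.2)) ⟨fun e => hu _, ?_⟩ b W hW (Or.inr h0)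
  intro γ U W _ _ _ _ _
  show u (dot (γ * U) W) = 1 * u (dot U (star γ * W))
  rw [one_mul, tog_det.2]

/-- two different values: joint sums vanish. PROOF. `pair_lim` with `n = 1`, `χ = 1` (`χ (cl 1 e) = 1` as `ZMod 1` is trivial), case 1. -/
theorem joint_ne (E : Finset ℕ) (f1 f2 : ℕ → ℂ) (ω1 ω2 : ℂ) (h1 : FF f1 E ω1) (h2 : FF f2 E ω2) (hω1 : ‖ω1‖ = 1)
    (hω2 : ‖ω2‖ = 1) (hne : ω1 ≠ ω2) (b : ℝ) (W : ℝ → ℝ → ℂ) (hW : TF b W) :
    Tendsto (fun X : ℝ => (∑ e ∈ EN 1 (b * X), f1 (nm e.1) * f2 (nm e.2) * W (mE e / X) (tE e)) / X)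
      atTop (nhds 0) := by
  have hne2 : ω1 * (starRingEnd ℂ) ω2 ≠ 1 := by
    intro h
    apply hne
    have h3 : ω2 * (starRingEnd ℂ) ω2 = 1 := by
      rw [Complex.mul_conj, Complex.normSq_eq_norm_sq, hω2]
      simp
    have h4 : (starRingEnd ℂ) ω2 ≠ 0 := by
      intro h5
      rw [h5, mul_zero] at h3
      exact zero_ne_one h3
    exact mul_right_cancel₀ h4 (h.trans h3.symm)
  have h := pair_lim 1 1 E f1 f2 ω1 ω2 h1 h2 hω1 hω2 b W hW (Or.inl hne2)
  have h3 : ∀ e, f1 (nm e.1) * f2 (nm e.2) * (1 : DirichletCharacter ℂ 1) (cl 1 e) =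
      f1 (nm e.1) * f2 (nm e.2) := by
    intro e
    rw [MulChar.one_apply (isUnit_of_subsingleton _), mul_one]
  simp only [h3] at h
  exact h

end Pool.Agent.OmEq

end

/-! ### from `Lib_MP_f1a94e_eq.LimH` -/

section

/-!
# Piece LIMH: from correlations to the sum over edges
-/

set_option autoImplicit false

namespace Pool.Agent.OmEq

open Finset Pool.Agent.GaussMR Pool.Agent.OmAll MeasureTheory Filter

theorem limh_ps0_nonneg (t : ℝ) : 0 ≤ ps0 t := le_max_left _ _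

theorem limh_ps0_le (t : ℝ) : ps0 t ≤ 1 := by
  unfold ps0
  apply max_le zero_le_one
  linarith [abs_nonneg t]

theorem limh_ps0_zero {t : ℝ} (h : 1 ≤ |t|) : ps0 t = 0 := by
  unfold ps0
  apply max_eq_left
  linarith

theorem limh_ps0_cont : Continuous ps0 := by
  unfold ps0
  fun_prop

theorem limh_ps0_int : ∫ t, ps0 t = 1 := by
  have h1 : ∫ t, ps0 t = ∫ t in Set.Ioc (-1 : ℝ) 1, ps0 t := by
    symm
    apply setIntegral_eq_integral_of_forall_compl_eq_zero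
    intro t ht
    apply limh_ps0_zero
    rw [Set.mem_Ioc, not_and_or, not_lt, not_le] at ht
    rcases ht with ht | ht
    · rw [abs_of_nonpos (by linarith)]
      linarith
    · rw [abs_of_pos (by linarith)]
      exact ht.le
  rw [h1, ← intervalIntegral.integral_of_le (by norm_num),
    ← intervalIntegral.integral_add_adjacent_intervals (b := (0 : ℝ))
      (limh_ps0_cont.intervalIntegrable _ _) (limh_ps0_cont.intervalIntegrable _ _)]
  have h2 : ∫ t in (-1 : ℝ)..0, ps0 t = ∫ t in (-1 : ℝ)..0, (1 + t) := by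
    apply intervalIntegral.integral_congr
    intro t ht
    rw [Set.uIcc_of_le (by norm_num), Set.mem_Icc] at ht
    show ps0 t = 1 + t
    unfold ps0
    rw [abs_of_nonpos ht.2, max_eq_right (by linarith [ht.1])]
    ring
  have h3 : ∫ t in (0 : ℝ)..1, ps0 t = ∫ t in (0 : ℝ)..1, (1 - t) := by
    apply intervalIntegral.integral_congr
    intro t ht
    rw [Set.uIcc_of_le (by norm_num), Set.mem_Icc] at ht
    show ps0 t = 1 - t
    unfold ps0
    rw [abs_of_nonneg ht.1, max_eq_right (by linarith [ht.2])]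
  rw [h2, h3, intervalIntegral.integral_add (by simp) (by simp),
    intervalIntegral.integral_sub (by simp) (by simp)]
  simp
  norm_num

theorem limh_ps0_intC : ∫ t, ((ps0 t : ℝ) : ℂ) = 1 := by
  have h : ∫ t, ((ps0 t : ℝ) : ℂ) = ((∫ t, ps0 t : ℝ) : ℂ) := integral_ofReal
  rw [h, limh_ps0_int]
  simp

theorem limh_ps0_supp : HasCompactSupport ps0 := by
  apply HasCompactSupport.intro (isCompact_Icc (a := (-1 : ℝ)) (b := 1))
  intro t ht
  apply limh_ps0_zero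
  rw [Set.mem_Icc, not_and_or, not_le, not_le] at ht
  rcases ht with ht | ht
  · rw [abs_of_neg (by linarith)]
    linarith
  · rw [abs_of_pos (by linarith)]
    exact ht.le

/-- the integral over `t` -/
theorem limh_c_cont {b : ℝ} {W : ℝ → ℝ → ℂ} (hW : TF b W) : Continuous (fun y => ∫ t, W y t) := by
  have hs : IsCompact (Prod.snd '' tsupport (Function.uncurry W)) := hW.supp.image continuous_snd
  have h1 : ∀ y, ∫ t in Prod.snd '' tsupport (Function.uncurry W), W y t = ∫ t, W y t := by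
    intro y
    apply setIntegral_eq_integral_of_forall_compl_eq_zero
    intro t ht
    by_contra hne
    apply ht
    refine ⟨(y, t), subset_tsupport _ ?_, rfl⟩
    exact hne
  have h2 := continuous_parametric_integral_of_continuous (μ := volume) hW.cont hs
  have h3 : (fun y => ∫ t, W y t) =
      fun y => ∫ t in Prod.snd '' tsupport (Function.uncurry W), W y t := by
    funext y
    exact (h1 y).symm
  rw [h3]
  exact h2

theorem limh_slice_supp {b : ℝ} {W : ℝ → ℝ → ℂ} (hW : TF b W) (y : ℝ) :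
    HasCompactSupport (fun t => W y t) := by
  have hs : IsCompact (Prod.snd '' tsupport (Function.uncurry W)) := hW.supp.image continuous_snd
  apply HasCompactSupport.intro hs
  intro t ht
  by_contra hne
  apply ht
  refine ⟨(y, t), subset_tsupport _ ?_, rfl⟩
  exact hne

theorem limh_slice_cont {b : ℝ} {W : ℝ → ℝ → ℂ} (hW : TF b W) (y : ℝ) : Continuous (fun t => W y t) :=
  hW.cont.comp (Continuous.prodMk_right y)

theorem limh_c_lo {b : ℝ} {W : ℝ → ℝ → ℂ} (hW : TF b W) {y : ℝ} (hy : y ≤ 0) : ∫ t, W y t = 0 := by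
  have : (fun t => W y t) = fun _ => 0 := by
    funext t
    exact hW.lo y t hy
  rw [this, integral_zero]

theorem limh_c_hi {b : ℝ} {W : ℝ → ℝ → ℂ} (hW : TF b W) {y : ℝ} (hy : b ≤ y) : ∫ t, W y t = 0 := by
  have : (fun t => W y t) = fun _ => 0 := by
    funext t
    exact hW.hi y t hy
  rw [this, integral_zero]

/-- the difference with `c y * ps0 t` is a test function with integral zero -/
theorem limh_tf {b : ℝ} {W : ℝ → ℝ → ℂ} (hW : TF b W) :
    TF b (fun y t => W y t - (∫ s, W y s) * ((ps0 t : ℝ) : ℂ)) := by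
  refine ⟨?_, ?_, ?_, ?_⟩
  · have h1 : Continuous (fun p : ℝ × ℝ => (∫ s, W p.1 s) * ((ps0 p.2 : ℝ) : ℂ)) :=
      ((limh_c_cont hW).comp continuous_fst).mul
        (Complex.continuous_ofReal.comp (limh_ps0_cont.comp continuous_snd))
    exact hW.cont.sub h1
  · have h1 : HasCompactSupport (fun p : ℝ × ℝ => (∫ s, W p.1 s) * ((ps0 p.2 : ℝ) : ℂ)) := by
      apply HasCompactSupport.intro ((isCompact_Icc (a := (0 : ℝ)) (b := b)).prod
        (isCompact_Icc (a := (-1 : ℝ)) (b := 1)))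
      rintro ⟨y, t⟩ hyt
      rw [Set.mem_prod, Set.mem_Icc, Set.mem_Icc, not_and_or, not_and_or, not_and_or] at hyt
      simp only [not_le] at hyt
      rcases hyt with (h | h) | (h | h)
      · show (∫ s, W y s) * ((ps0 t : ℝ) : ℂ) = 0
        rw [limh_c_lo hW h.le, zero_mul]
      · show (∫ s, W y s) * ((ps0 t : ℝ) : ℂ) = 0
        rw [limh_c_hi hW h.le, zero_mul]
      · show (∫ s, W y s) * ((ps0 t : ℝ) : ℂ) = 0
        rw [limh_ps0_zero, Complex.ofReal_zero, mul_zero]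
        rw [abs_of_neg (by linarith)]
        linarith
      · show (∫ s, W y s) * ((ps0 t : ℝ) : ℂ) = 0
        rw [limh_ps0_zero, Complex.ofReal_zero, mul_zero]
        rw [abs_of_pos (by linarith)]
        exact h.le
    exact hW.supp.sub h1
  · intro y t hy
    rw [hW.lo y t hy, limh_c_lo hW hy]
    ring
  · intro y t hy
    rw [hW.hi y t hy, limh_c_hi hW hy]
    ring

theorem limh_tf_int {b : ℝ} {W : ℝ → ℝ → ℂ} (hW : TF b W) (y : ℝ) :
    ∫ t, (W y t - (∫ s, W y s) * ((ps0 t : ℝ) : ℂ)) = 0 := by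
  have h1 : Integrable (fun t => W y t) :=
    (limh_slice_cont hW y).integrable_of_hasCompactSupport (limh_slice_supp hW y)
  have h2 : Integrable (fun t => (∫ s, W y s) * ((ps0 t : ℝ) : ℂ)) := by
    apply Integrable.const_mul
    exact (limh_ps0_cont.integrable_of_hasCompactSupport limh_ps0_supp).ofReal
  rw [integral_sub h1 h2, integral_const_mul, limh_ps0_intC, mul_one, sub_self]

/-- the value at an edge depends only on the scalar product -/
theorem limh_u (f : ℕ → ℂ) (hm : ∀ m n, f (m * n) = f m * f n) {x : ℝ} {e : G × G} (he : e ∈ EN 1 x) :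
    f (nm e.1) * f (nm e.2) = f ((dot e.1 e.2 ^ 2 + 1).toNat) := by
  rw [mem_EN one_pos] at he
  have h1 := dot_sq_add_det_sq e.1 e.2
  rw [he.1.1] at h1
  have h2 : (dot e.1 e.2 ^ 2 + 1).toNat = nm e.1 * nm e.2 := by
    have h3 : dot e.1 e.2 ^ 2 + 1 = ((nm e.1 * nm e.2 : ℕ) : ℤ) := by
      push_cast
      rw [← h1]
      norm_num
    rw [h3, Int.toNat_natCast]
  rw [h2, hm]

theorem limh_tvf (f : ℕ → ℂ) (hm : ∀ m n, f (m * n) = f m * f n) (hf : ∀ n, ‖f n‖ ≤ 1) (b : ℝ)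
    (W : ℝ → ℝ → ℂ) (hW : TF b W) :
    Tendsto (fun X : ℝ => (∑ e ∈ EN 1 (b * X), f (nm e.1) * f (nm e.2) *
      (W (mE e / X) (tE e) - (∫ s, W (mE e / X) s) * ((ps0 (tE e) : ℝ) : ℂ))) / X) atTop (nhds 0) := by
  have h1 := tvf (fun m => f ((m ^ 2 + 1).toNat)) (fun m => hf _) b _ (limh_tf hW) (limh_tf_int hW)
  refine h1.congr (fun X => ?_)
  congr 1
  apply sum_congr rfl
  intro e he
  rw [limh_u f hm he]

theorem limh_tend {F : ℝ → ℂ} (h : ∀ ε : ℝ, 0 < ε → ∀ᶠ x in atTop, ‖F x‖ ≤ ε) :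
    Tendsto F atTop (nhds 0) := by
  rw [Metric.tendsto_nhds]
  intro ε hε
  filter_upwards [h (ε / 2) (half_pos hε)] with x hx
  rw [dist_zero_right]
  linarith

theorem limh_ev {F : ℝ → ℂ} (h : Tendsto F atTop (nhds 0)) {ε : ℝ} (hε : 0 < ε) :
    ∀ᶠ x in atTop, ‖F x‖ ≤ ε := by
  rw [Metric.tendsto_nhds] at h
  filter_upwards [h ε hε] with x hx
  rw [dist_zero_right] at hx
  exact hx.le

open Classical in
/-- sums over the edges with small weights -/
theorem limh_small (f : ℕ → ℂ) (hf : ∀ n, ‖f n‖ ≤ 1) {C : ℝ}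
    (hcnt : ∀ n : ℕ, 0 < n → ∀ x : ℝ, (n : ℝ) ≤ x →
      (((EN n x).filter (fun e => |tE e| ≤ 1)).card : ℝ) ≤ C * x) (x : ℝ) (hx : 1 ≤ x) (ε : ℝ) (hε : 0 ≤ ε)
    (w : G × G → ℂ) (hw : ∀ e ∈ EN 1 x, ‖w e‖ ≤ ε) :
    ‖∑ e ∈ EN 1 x, f (nm e.1) * f (nm e.2) * (w e * ((ps0 (tE e) : ℝ) : ℂ))‖ ≤ ε * (C * x) := by
  have h1 : ‖∑ e ∈ EN 1 x, f (nm e.1) * f (nm e.2) * (w e * ((ps0 (tE e) : ℝ) : ℂ))‖ ≤
      ∑ e ∈ EN 1 x, if |tE e| ≤ 1 then ε else 0 := by
    apply norm_sum_le_of_le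
    intro e he
    by_cases ht : |tE e| ≤ 1
    · rw [if_pos ht, norm_mul, norm_mul, norm_mul, Complex.norm_real, Real.norm_eq_abs,
        abs_of_nonneg (limh_ps0_nonneg _)]
      have h2 := hf (nm e.1)
      have h3 := hf (nm e.2)
      have h4 := hw e he
      have h5 := limh_ps0_le (tE e)
      have h6 := limh_ps0_nonneg (tE e)
      calc ‖f (nm e.1)‖ * ‖f (nm e.2)‖ * (‖w e‖ * ps0 (tE e)) ≤ 1 * 1 * (ε * 1) := by gcongr
        _ = ε := by ring
    · rw [if_neg ht, limh_ps0_zero (not_le.1 ht).le]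
      simp
  refine h1.trans ?_
  rw [← sum_filter, sum_const, nsmul_eq_mul]
  have h2 := hcnt 1 one_pos x (by simpa using hx)
  calc (((EN 1 x).filter (fun e => |tE e| ≤ 1)).card : ℝ) * ε ≤ (C * x) * ε :=
        mul_le_mul_of_nonneg_right h2 hε
    _ = ε * (C * x) := by ring

/-- PROOF. Let `C` be the constant of `cnt` for `B = 1`. Given `ε`, take `N ≥ N0(ε^2 / (C' h2))` also so large that `81 h2^2 (N+1) ≤ ε^2 N^2`, then `J ≥ J0`, `J ≥ N`, and `J` so large that `crho` holds with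
`η = ε/(C h2)`. Let `X = Y / J`, `b1 = (J + N) h2 ≤ 2 J h2`. (1) `csN` (with `x = b1 X`, `x' = ((J+N)^2 h2 + 1) X`, `X ≥ 1`): `‖SX‖^2 ≤ X^2 (81 h2^2 (N+1) + 18 h2 ε' N^2)`.
(2) `apxO`: `SX - ∑ f f WO = o(X)`. (3) `tvf` for `W y t = WO y t - c y * ps0 t`, `c y = ∫ t, WO y t` (`∫ ps0 = 1`; `c` is continuous with support in `[0, b1]`, so `W` is `TF b1`), with `u m = f (m^2 + 1)`:
for `e ∈ EN 1`, `f (nm e.1) f (nm e.2) = f (nm e.1 * nm e.2) = f (dot^2 + 1)` (`dot_sq_add_det_sq`, `Int.toNat` or `natAbs`). (4) `crho`: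
`‖∑_(EN 1 (b1 X)) f f (c (mE/X) - (N/J) h (mE/(J X))) ps0 (tE)‖ ≤ η (N/J) #{e : |tE e| ≤ 1} ≤ η (N/J) C b1 X ≤ 2 η N C h2 X`. So
`(N/J) ‖∑ f f h (mE / (J X)) ps0‖ ≤ X (sqrt (81 h2^2 (N+1) + 18 h2 ε' N^2) + 2 η N C h2 + o(1))`, and with `Y = J X`: `‖∑ ..‖ ≤ Y (sqrt (..)/N + 2 η C h2 + o(1)/N)`. The sum over
`EN 1 (b Y)` is the same as over `EN 1 (b1 X)` since `h (mE/Y) = 0` if `mE ≥ h2 Y` and `b, b1/J ≥ h2` (`mem_EN`). -/
theorem limH (f : ℕ → ℂ) (hm : ∀ m n, f (m * n) = f m * f n) (hf : ∀ n, ‖f n‖ ≤ 1) (hG : GmSmall f)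
    (h : ℝ → ℝ) (h1 h2 : ℝ) (hh : HF h h1 h2) (b : ℝ) (hb : h2 ≤ b) :
    Tendsto (fun Y : ℝ => (∑ e ∈ EN 1 (b * Y), f (nm e.1) * f (nm e.2) * ((h (mE e / Y) * ps0 (tE e) : ℝ) : ℂ)) / Y)
      atTop (nhds 0) := by
  classical
  apply limh_tend
  intro ε hε
  obtain ⟨C, hC, hcnt⟩ := cnt 1
  have h20 : (1 : ℝ) ≤ h2 := hh.one
  have h2p : (0 : ℝ) < h2 := by linarith
  set η : ℝ := ε / (6 * C * h2) with hη
  have hη0 : 0 < η := by positivity
  set ε' : ℝ := ε ^ 2 / (324 * h2) with hε'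
  have hε'0 : 0 < ε' := by positivity
  obtain ⟨N0, hN0⟩ := hG h h1 h2 hh ε' hε'0
  obtain ⟨N1, hN1⟩ := exists_nat_ge (2916 * h2 ^ 2 / ε ^ 2)
  set N : ℕ := max N0 (max N1 1) with hN
  have hNN0 : N0 ≤ N := le_max_left _ _
  have hNN1 : N1 ≤ N := (le_max_left _ _).trans (le_max_right _ _)
  have hN1' : 1 ≤ N := (le_max_right _ _).trans (le_max_right _ _)
  have hNr : (1 : ℝ) ≤ N := by exact_mod_cast hN1'
  have hNbig : 81 * h2 ^ 2 * (N + 1) ≤ ε ^ 2 / 18 * N ^ 2 := by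
    have h3 : 2916 * h2 ^ 2 / ε ^ 2 ≤ N := hN1.trans (by exact_mod_cast hNN1)
    rw [div_le_iff₀ (by positivity)] at h3
    have h4 : 81 * h2 ^ 2 * ((N : ℝ) + 1) ≤ 162 * h2 ^ 2 * N := by
      have h40 := mul_nonneg (sq_nonneg h2) (sub_nonneg.2 hNr)
      linarith only [h40]
    have h5 : 162 * h2 ^ 2 * N ≤ ε ^ 2 / 18 * N ^ 2 := by
      have h50 := mul_le_mul_of_nonneg_right h3 (Nat.cast_nonneg N : (0 : ℝ) ≤ N)
      linarith only [h50]
    exact h4.trans h5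
  obtain ⟨J0, hJ0⟩ := hN0 N hNN0
  obtain ⟨J1, hJ1, hcr⟩ := crho h h1 h2 hh N hN1' η hη0
  set J : ℕ := max J0 (max J1 N) with hJ
  have hJJ0 : J0 ≤ J := le_max_left _ _
  have hJJ1 : J1 ≤ J := (le_max_left _ _).trans (le_max_right _ _)
  have hJN : N ≤ J := (le_max_right _ _).trans (le_max_right _ _)
  have hJ1' : 1 ≤ J := hN1'.trans hJN
  have hJr : (1 : ℝ) ≤ J := by exact_mod_cast hJ1'
  have hJNr : (N : ℝ) ≤ J := by exact_mod_cast hJN
  set b1 : ℝ := ((J : ℝ) + N) * h2 with hb1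
  have hb1p : 0 < b1 := by positivity
  have hb1J : b1 ≤ 2 * J * h2 := by
    rw [hb1]
    have h30 := mul_le_mul_of_nonneg_right hJNr h2p.le
    linarith only [h30]
  have hb1h : J * h2 ≤ b1 := by
    rw [hb1]
    have h30 := mul_nonneg (Nat.cast_nonneg N : (0 : ℝ) ≤ N) h2p.le
    linarith only [h30]
  have hb11 : 1 ≤ b1 := (one_le_mul_of_one_le_of_one_le hJr h20).trans hb1h
  have ev1 := hJ0 J hJJ0
  have ev2 := limh_ev (apxO f hf h h1 h2 hh J N hJ1' hN1' b1 hb1p) (ε := ε / 6) (by positivity)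
  have ev3 := limh_ev (limh_tvf f hm hf b1 _ (WO_tf h h1 h2 hh J N hJ1' hN1' b1 (le_refl _)))
    (ε := ε / 6) (by positivity)
  have ev4 : ∀ᶠ X : ℝ in atTop, 1 ≤ X := eventually_ge_atTop 1
  have hall := ((ev1.and ev2).and (ev3.and ev4))
  have htend : Tendsto (fun Y : ℝ => Y / J) atTop atTop :=
    tendsto_id.atTop_div_const (by linarith)
  filter_upwards [htend.eventually hall] with Y hY
  obtain ⟨⟨hG1, hO⟩, ⟨hV, hX1⟩⟩ := hY
  set X : ℝ := Y / J with hX
  have hX0 : (0 : ℝ) < X := by linarith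
  have hYX : Y = J * X := by
    rw [hX]
    field_simp
  have hY0 : (0 : ℝ) < Y := by
    rw [hYX]
    positivity
  -- the sums
  set A : ℂ := ∑ e ∈ EN 1 (b * Y), f (nm e.1) * f (nm e.2) * ((h (mE e / Y) * ps0 (tE e) : ℝ) : ℂ) with hA
  have hA2 : A = ∑ e ∈ EN 1 (b1 * X), f (nm e.1) * f (nm e.2) *
      (((h (mE e / X / J) : ℝ) : ℂ) * ((ps0 (tE e) : ℝ) : ℂ)) := by
    rw [hA]
    have hz : ∀ e : G × G, h2 * Y ≤ mE e → h (mE e / Y) = 0 := by
      intro e he
      apply hh.hi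
      rw [le_div_iff₀ hY0]
      exact he
    have hs1 : ∑ e ∈ EN 1 (b * Y), f (nm e.1) * f (nm e.2) * ((h (mE e / Y) * ps0 (tE e) : ℝ) : ℂ) =
        ∑ e ∈ EN 1 (h2 * Y), f (nm e.1) * f (nm e.2) * ((h (mE e / Y) * ps0 (tE e) : ℝ) : ℂ) := by
      symm
      apply sum_subset
      · intro e he
        rw [mem_EN one_pos] at he ⊢
        exact ⟨he.1, he.2.trans (mul_le_mul_of_nonneg_right hb hY0.le)⟩
      · intro e he hne
        rw [mem_EN one_pos] at he hne
        have : h2 * Y ≤ mE e := by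
          by_contra hc
          push Not at hc
          exact hne ⟨he.1, hc.le⟩
        rw [hz e this]
        simp
    have hs2 : ∑ e ∈ EN 1 (b1 * X), f (nm e.1) * f (nm e.2) * ((h (mE e / Y) * ps0 (tE e) : ℝ) : ℂ) =
        ∑ e ∈ EN 1 (h2 * Y), f (nm e.1) * f (nm e.2) * ((h (mE e / Y) * ps0 (tE e) : ℝ) : ℂ) := by
      symm
      apply sum_subset
      · intro e he
        rw [mem_EN one_pos] at he ⊢
        refine ⟨he.1, he.2.trans ?_⟩
        rw [hYX]
        have h30 := mul_le_mul_of_nonneg_right hb1h hX0.le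
        linarith only [h30]
      · intro e he hne
        rw [mem_EN one_pos] at he hne
        have : h2 * Y ≤ mE e := by
          by_contra hc
          push Not at hc
          exact hne ⟨he.1, hc.le⟩
        rw [hz e this]
        simp
    rw [hs1, ← hs2]
    apply sum_congr rfl
    intro e _
    have h3 : mE e / Y = mE e / X / J := by
      rw [hYX, div_div]
      ring_nf
    rw [h3]
    push_cast
    ring
  set c : ℝ → ℂ := fun y => ∫ t, WO h J N y t with hc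
  set S1 : ℂ := ∑ e ∈ EN 1 (b1 * X), f (nm e.1) * f (nm e.2) * WO h J N (mE e / X) (tE e) with hS1
  set S2 : ℂ := ∑ e ∈ EN 1 (b1 * X), f (nm e.1) * f (nm e.2) *
    (c (mE e / X) * ((ps0 (tE e) : ℝ) : ℂ)) with hS2
  have hb1X : 1 ≤ b1 * X := one_le_mul_of_one_le_of_one_le hb11 hX1
  -- S2 and A
  have hd1 : ‖S2 - ((N : ℝ) / J : ℝ) * A‖ ≤ (η * (N / J)) * (C * (b1 * X)) := by
    have h3 : S2 - ((N : ℝ) / J : ℝ) * A = ∑ e ∈ EN 1 (b1 * X), f (nm e.1) * f (nm e.2) *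
        ((c (mE e / X) - (((N : ℝ) / J * h (mE e / X / J) : ℝ) : ℂ)) * ((ps0 (tE e) : ℝ) : ℂ)) := by
      rw [hA2, hS2, mul_sum, ← sum_sub_distrib]
      apply sum_congr rfl
      intro e _
      push_cast
      ring
    rw [h3]
    apply limh_small f hf hcnt (b1 * X) hb1X _ (by positivity)
    intro e _
    exact hcr J hJJ1 (mE e / X)
  have hd2 : ‖S1 - S2‖ ≤ ε / 6 * X := by
    have h3 : S1 - S2 = ∑ e ∈ EN 1 (b1 * X), f (nm e.1) * f (nm e.2) *
      (WO h J N (mE e / X) (tE e) - (∫ s, WO h J N (mE e / X) s) * ((ps0 (tE e) : ℝ) : ℂ)) := by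
      rw [hS1, hS2, ← sum_sub_distrib]
      apply sum_congr rfl
      intro e _
      simp only [hc]
      ring
    rw [← h3, norm_div, Complex.norm_real, Real.norm_eq_abs, abs_of_pos hX0, div_le_iff₀ hX0] at hV
    exact hV
  have hd3 : ‖SX f h J N (b1 * X) X - S1‖ ≤ ε / 6 * X := by
    rw [norm_div, Complex.norm_real, Real.norm_eq_abs, abs_of_pos hX0, div_le_iff₀ hX0] at hO
    exact hO
  have hSX : ‖SX f h J N (b1 * X) X‖ ≤ ε / 3 * N * X := by
    have h3 := csN f hf h hh.nn hh.le h2 hh.hi J N hJ1' hN1' X hX1 h20 (b1 * X)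
      ((((J : ℝ) + N) ^ 2 * h2 + 1) * X) (le_refl _) (by linarith only [hX1])
    have h4 : 9 * h2 * X * (9 * h2 * X * (N + 1) +
        2 * ‖∑ n ∈ Icc 1 N, Gm f h J N n ((((J : ℝ) + N) ^ 2 * h2 + 1) * X) X‖) ≤
        (ε / 3 * N * X) ^ 2 := by
      have h5 : 9 * h2 * X * (9 * h2 * X * (N + 1) +
        2 * ‖∑ n ∈ Icc 1 N, Gm f h J N n ((((J : ℝ) + N) ^ 2 * h2 + 1) * X) X‖) ≤
        9 * h2 * X * (9 * h2 * X * (N + 1) + 2 * (ε' * N ^ 2 * X)) := by
        apply mul_le_mul_of_nonneg_left _ (by positivity)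
        linarith
      refine h5.trans ?_
      have h6 : 9 * h2 * X * (9 * h2 * X * (N + 1) + 2 * (ε' * N ^ 2 * X)) =
          X ^ 2 * (81 * h2 ^ 2 * (N + 1) + 18 * h2 * ε' * N ^ 2) := by ring
      have h7 : 18 * h2 * ε' = ε ^ 2 / 18 := by
        rw [hε']
        field_simp
        norm_num
      rw [h6, h7]
      have h8 : (ε / 3 * N * X) ^ 2 = X ^ 2 * (ε ^ 2 / 18 * N ^ 2 + ε ^ 2 / 18 * N ^ 2) := by ring
      rw [h8]
      apply mul_le_mul_of_nonneg_left _ (sq_nonneg X)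
      linarith
    exact le_of_sq_le_sq (h3.trans h4) (by positivity)
  -- conclusion
  have htot : ‖((N : ℝ) / J : ℝ) * A‖ ≤ (η * (N / J)) * (C * (b1 * X)) + ε / 6 * X + ε / 6 * X +
      ε / 3 * N * X := by
    have h3 : (((N : ℝ) / J : ℝ) : ℂ) * A = -(S2 - ((N : ℝ) / J : ℝ) * A) - (S1 - S2) -
        (SX f h J N (b1 * X) X - S1) + SX f h J N (b1 * X) X := by ring
    calc ‖(((N : ℝ) / J : ℝ) : ℂ) * A‖ = ‖-(S2 - ((N : ℝ) / J : ℝ) * A) - (S1 - S2) -
        (SX f h J N (b1 * X) X - S1) + SX f h J N (b1 * X) X‖ := by rw [← h3]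
      _ ≤ ‖-(S2 - ((N : ℝ) / J : ℝ) * A) - (S1 - S2) - (SX f h J N (b1 * X) X - S1)‖ +
          ‖SX f h J N (b1 * X) X‖ := norm_add_le _ _
      _ ≤ ‖-(S2 - ((N : ℝ) / J : ℝ) * A) - (S1 - S2)‖ + ‖SX f h J N (b1 * X) X - S1‖ +
          ‖SX f h J N (b1 * X) X‖ := by gcongr; exact norm_sub_le _ _
      _ ≤ ‖-(S2 - ((N : ℝ) / J : ℝ) * A)‖ + ‖S1 - S2‖ + ‖SX f h J N (b1 * X) X - S1‖ +
          ‖SX f h J N (b1 * X) X‖ := by gcongr; exact norm_sub_le _ _
      _ ≤ _ := by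
          rw [norm_neg]
          linarith
  rw [norm_mul, Complex.norm_real, Real.norm_eq_abs, abs_of_nonneg (by positivity)] at htot
  rw [norm_div, Complex.norm_real, Real.norm_eq_abs, abs_of_pos hY0, div_le_iff₀ hY0]
  have hJ0' : (0 : ℝ) < J := by linarith
  have hN0' : (0 : ℝ) < N := by linarith
  have h3 : ‖A‖ = (J / N) * ((N : ℝ) / J * ‖A‖) := by field_simp
  have h4 : (J / N) * ((N : ℝ) / J * ‖A‖) ≤ (J / N) * ((η * (N / J)) * (C * (b1 * X)) + ε / 6 * X +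
      ε / 6 * X + ε / 3 * N * X) := mul_le_mul_of_nonneg_left htot (by positivity)
  have h5 : (J / N : ℝ) * ((η * (N / J)) * (C * (b1 * X)) + ε / 6 * X + ε / 6 * X + ε / 3 * N * X) =
      η * C * b1 * X + (ε / 3) * (J / N) * X + ε / 3 * (J * X) := by
    field_simp
    ring
  have h6 : η * C * b1 * X ≤ ε / 3 * (J * X) := by
    have h7 : η * C * b1 * X ≤ η * C * (2 * J * h2) * X := by gcongr
    have h8 : η * C * (2 * J * h2) * X = ε / 3 * (J * X) := by
      rw [hη]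
      field_simp
      norm_num
    linarith
  have h7 : (ε / 3) * (J / N : ℝ) * X ≤ ε / 3 * (J * X) := by
    have h8 : (J / N : ℝ) ≤ J := div_le_self hJ0'.le hNr
    have h9 : (J / N : ℝ) * X ≤ J * X := mul_le_mul_of_nonneg_right h8 hX0.le
    have h10 := mul_le_mul_of_nonneg_left h9 (div_nonneg hε.le (by norm_num : (0 : ℝ) ≤ 3))
    linarith only [h10]
  rw [hYX]
  linarith only [h3, h4, h5, h6, h7]

/-- nonnegative continuous functions of the scalar product -/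
theorem limh_real (f : ℕ → ℂ) (hm : ∀ m n, f (m * n) = f m * f n) (hf : ∀ n, ‖f n‖ ≤ 1) (hG : GmSmall f)
    (b : ℝ) (c : ℝ → ℝ) (hc : Continuous c) (hnn : ∀ y, 0 ≤ c y) (hlo : ∀ y, y ≤ 0 → c y = 0)
    (hhi : ∀ y, b ≤ y → c y = 0) :
    Tendsto (fun X : ℝ => (∑ e ∈ EN 1 (b * X), f (nm e.1) * f (nm e.2) *
      (((c (mE e / X) : ℝ) : ℂ) * ((ps0 (tE e) : ℝ) : ℂ))) / X) atTop (nhds 0) := by
  classical
  apply limh_tend
  intro ε hε
  obtain ⟨C, hC, hcnt⟩ := cnt 1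
  set b' : ℝ := max b 1 with hb'
  have hb1 : 1 ≤ b' := le_max_right _ _
  have hbb : b ≤ b' := le_max_left _ _
  set δ : ℝ := ε / (2 * C * b') with hδ
  have hδ0 : 0 < δ := by positivity
  have hsupp : HasCompactSupport c := by
    apply HasCompactSupport.intro (isCompact_Icc (a := (0 : ℝ)) (b := b))
    intro y hy
    rw [Set.mem_Icc, not_and_or, not_le, not_le] at hy
    rcases hy with hy | hy
    · exact hlo y hy.le
    · exact hhi y hy.le
  obtain ⟨K0, hK0⟩ := hsupp.exists_bound_of_continuous hc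
  set K : ℝ := max K0 1 with hK
  have hK1 : 1 ≤ K := le_max_right _ _
  have hKp : 0 < K := by linarith
  have hKc : ∀ y, c y ≤ K := by
    intro y
    have h1 := hK0 y
    rw [Real.norm_eq_abs, abs_of_nonneg (hnn y)] at h1
    exact h1.trans (le_max_left _ _)
  obtain ⟨h1, hh1, hsmall⟩ : ∃ h1 : ℝ, 0 < h1 ∧ ∀ y, y ≤ h1 → c y ≤ δ := by
    have h2 := Metric.continuousAt_iff.1 (hc.continuousAt (x := 0)) δ hδ0
    obtain ⟨r, hr, h3⟩ := h2
    refine ⟨r / 2, by positivity, ?_⟩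
    intro y hy
    rcases le_or_gt y 0 with h0 | h0
    · rw [hlo y h0]
      exact hδ0.le
    · have h4 := h3 (x := y) (by
        rw [Real.dist_eq, sub_zero, abs_of_pos h0]
        linarith)
      rw [hlo 0 (le_refl 0), Real.dist_eq, sub_zero, abs_of_nonneg (hnn y)] at h4
      exact h4.le
  set h : ℝ → ℝ := fun y => max 0 (c y - δ) / K with hh
  have hHF : HF h h1 b' := by
    refine ⟨?_, ?_, ?_, hh1, hb1, ?_, ?_⟩
    · exact (continuous_const.max (hc.sub continuous_const)).div_const K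
    · intro y
      exact div_nonneg (le_max_left _ _) hKp.le
    · intro y
      show max 0 (c y - δ) / K ≤ 1
      rw [div_le_one hKp]
      apply max_le hKp.le
      linarith [hKc y]
    · intro y hy
      show max 0 (c y - δ) / K = 0
      rw [max_eq_left (by linarith [hsmall y hy]), zero_div]
    · intro y hy
      show max 0 (c y - δ) / K = 0
      rw [hhi y (hbb.trans hy), max_eq_left (by linarith), zero_div]
  have hlim := limh_ev (limH f hm hf hG h h1 b' hHF b' (le_refl _)) (ε := ε / (2 * K)) (by positivity)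
  filter_upwards [hlim, eventually_ge_atTop (1 : ℝ)] with X hX1 hX
  have hX0 : (0 : ℝ) < X := by linarith
  have hs : ∑ e ∈ EN 1 (b * X), f (nm e.1) * f (nm e.2) *
      (((c (mE e / X) : ℝ) : ℂ) * ((ps0 (tE e) : ℝ) : ℂ)) =
      ∑ e ∈ EN 1 (b' * X), f (nm e.1) * f (nm e.2) *
      (((c (mE e / X) : ℝ) : ℂ) * ((ps0 (tE e) : ℝ) : ℂ)) := by
    apply sum_subset
    · intro e he
      rw [mem_EN one_pos] at he ⊢
      exact ⟨he.1, he.2.trans (mul_le_mul_of_nonneg_right hbb hX0.le)⟩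
    · intro e he hne
      rw [mem_EN one_pos] at he hne
      have h2 : b * X ≤ mE e := by
        by_contra hcon
        push Not at hcon
        exact hne ⟨he.1, hcon.le⟩
      rw [hhi (mE e / X) (by rw [le_div_iff₀ hX0]; exact h2)]
      simp
  have hd : ∑ e ∈ EN 1 (b' * X), f (nm e.1) * f (nm e.2) *
      (((c (mE e / X) : ℝ) : ℂ) * ((ps0 (tE e) : ℝ) : ℂ)) =
      K * ∑ e ∈ EN 1 (b' * X), f (nm e.1) * f (nm e.2) * ((h (mE e / X) * ps0 (tE e) : ℝ) : ℂ) +
      ∑ e ∈ EN 1 (b' * X), f (nm e.1) * f (nm e.2) *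
      (((c (mE e / X) - K * h (mE e / X) : ℝ) : ℂ) * ((ps0 (tE e) : ℝ) : ℂ)) := by
    rw [mul_sum, ← sum_add_distrib]
    apply sum_congr rfl
    intro e _
    push_cast
    ring
  have hsm := limh_small f hf hcnt (b' * X) (one_le_mul_of_one_le_of_one_le hb1 hX) δ hδ0.le
    (fun e => ((c (mE e / X) - K * h (mE e / X) : ℝ) : ℂ)) (by
      intro e _
      rw [Complex.norm_real, Real.norm_eq_abs]
      have h2 : K * h (mE e / X) = max 0 (c (mE e / X) - δ) := by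
        simp only [hh]
        field_simp
      rw [h2]
      rcases le_total (c (mE e / X) - δ) 0 with h3 | h3
      · rw [max_eq_left h3, sub_zero, abs_of_nonneg (hnn _)]
        linarith
      · rw [max_eq_right h3, sub_sub_cancel, abs_of_pos hδ0])
  rw [norm_div, Complex.norm_real, Real.norm_eq_abs, abs_of_pos hX0, div_le_iff₀ hX0] at hX1 ⊢
  rw [hs, hd]
  refine (norm_add_le _ _).trans ?_
  rw [norm_mul, Complex.norm_real, Real.norm_eq_abs, abs_of_pos hKp]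
  have h2 : K * ‖∑ e ∈ EN 1 (b' * X), f (nm e.1) * f (nm e.2) *
      ((h (mE e / X) * ps0 (tE e) : ℝ) : ℂ)‖ ≤ K * (ε / (2 * K) * X) :=
    mul_le_mul_of_nonneg_left hX1 hKp.le
  have h3 : K * (ε / (2 * K) * X) = ε / 2 * X := by
    field_simp
  have h4 : δ * (C * (b' * X)) = ε / 2 * X := by
    rw [hδ]
    field_simp
  linarith

/-- all test functions. PROOF. `W y t = (W y t - c y * ps0 t) + c y * ps0 t` with `c y = ∫ t, W y t`, continuous (compact support), zero for `y ≤ 0` and `y ≥ b`; the first part is treated by `tvf` (`∫ ps0 = 1`), with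
`u m = f (m^2+1)` as in `limH`. For the second part: `c = c1 - c2 + i (c3 - c4)` with continuous `cj ≥ 0`, zero outside `(0, b)`; given `ε`, `cj' = max 0 (cj - ε)` differs from `cj` by at most `ε` and vanishes
for `y ≤ h1` (some `h1 > 0`, as `cj` is continuous and `cj 0 = 0`); `cj' = K h` with `HF h h1 (max 1 b)`; `limH` for `h` and `cnt` (`B = 1`) for the error `ε C b`. -/
theorem sm (f : ℕ → ℂ) (hm : ∀ m n, f (m * n) = f m * f n) (hf : ∀ n, ‖f n‖ ≤ 1) (hG : GmSmall f)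
    (b : ℝ) (W : ℝ → ℝ → ℂ) (hW : TF b W) :
    Tendsto (fun X : ℝ => (∑ e ∈ EN 1 (b * X), f (nm e.1) * f (nm e.2) * W (mE e / X) (tE e)) / X)
      atTop (nhds 0) := by
  set c : ℝ → ℂ := fun y => ∫ t, W y t with hc
  have hcc : Continuous c := limh_c_cont hW
  have hclo : ∀ y, y ≤ 0 → c y = 0 := fun y hy => limh_c_lo hW hy
  have hchi : ∀ y, b ≤ y → c y = 0 := fun y hy => limh_c_hi hW hy
  have hre : Continuous (fun y => (c y).re) := Complex.continuous_re.comp hcc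
  have him : Continuous (fun y => (c y).im) := Complex.continuous_im.comp hcc
  have t0 := limh_tvf f hm hf b W hW
  have t1 := limh_real f hm hf hG b (fun y => max 0 (c y).re) (continuous_const.max hre)
    (fun y => le_max_left _ _) (fun y hy => by simp [hclo y hy]) (fun y hy => by simp [hchi y hy])
  have t2 := limh_real f hm hf hG b (fun y => max 0 (-(c y).re)) (continuous_const.max hre.neg)
    (fun y => le_max_left _ _) (fun y hy => by simp [hclo y hy]) (fun y hy => by simp [hchi y hy])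
  have t3 := limh_real f hm hf hG b (fun y => max 0 (c y).im) (continuous_const.max him)
    (fun y => le_max_left _ _) (fun y hy => by simp [hclo y hy]) (fun y hy => by simp [hchi y hy])
  have t4 := limh_real f hm hf hG b (fun y => max 0 (-(c y).im)) (continuous_const.max him.neg)
    (fun y => le_max_left _ _) (fun y hy => by simp [hclo y hy]) (fun y hy => by simp [hchi y hy])
  have ht := (t0.add (t1.sub t2)).add ((t3.sub t4).const_mul Complex.I)
  rw [sub_zero, mul_zero, add_zero, add_zero] at ht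
  refine ht.congr (fun X => ?_)
  rw [← sub_div, ← sub_div, ← mul_div_assoc, ← add_div, ← add_div]
  congr 1
  rw [← sum_sub_distrib, ← sum_sub_distrib, mul_sum, ← sum_add_distrib, ← sum_add_distrib]
  apply sum_congr rfl
  intro e _
  have hpm : ∀ r : ℝ, max 0 r - max 0 (-r) = r := by
    intro r
    rcases le_total 0 r with h | h
    · rw [max_eq_right h, max_eq_left (by linarith)]
      ring
    · rw [max_eq_left h, max_eq_right (by linarith)]
      ring
  have h1 : ((max 0 (c (mE e / X)).re : ℝ) : ℂ) - ((max 0 (-(c (mE e / X)).re) : ℝ) : ℂ) +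
      Complex.I * (((max 0 (c (mE e / X)).im : ℝ) : ℂ) - ((max 0 (-(c (mE e / X)).im) : ℝ) : ℂ)) =
      c (mE e / X) := by
    rw [← Complex.ofReal_sub, ← Complex.ofReal_sub, hpm, hpm, mul_comm Complex.I]
    exact Complex.re_add_im _
  have h2 : (∫ s, W (mE e / X) s) = c (mE e / X) := rfl
  rw [h2]
  linear_combination (f (nm e.1) * f (nm e.2) * ((ps0 (tE e) : ℝ) : ℂ)) * h1

end Pool.Agent.OmEq

end

/-! ### from `Lib_MP_f1a94e_eq.Sharp` -/

section

/-!
# Piece SHARP: sharp cut-offs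
-/

set_option autoImplicit false

namespace Pool.Agent.OmEq

open Finset Pool.Agent.GaussMR Pool.Agent.OmAll MeasureTheory Filter

theorem sharp_En_iff (e : G × G) : En 1 e ↔ det e.1 e.2 = 1 ∧ 0 < dot e.1 e.2 := by
  unfold En
  constructor
  · rintro ⟨h1, h2, -, -⟩
    exact ⟨by simpa using h1, h2⟩
  · rintro ⟨h1, h2⟩
    refine ⟨by simpa using h1, h2, ?_, 1, by simpa using isCoprime_one_left, ?_⟩
    · unfold Prim
      unfold det at h1
      exact ⟨e.2.im, -e.2.re, by linarith⟩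
    · unfold cg
      simp

theorem sharp_nm_pos {n : ℕ} (hn : 0 < n) {e : G × G} (h : En n e) : 0 < nm e.1 ∧ 0 < nm e.2 := by
  have h1 : det e.1 e.2 ≠ 0 := by
    rw [h.1]
    exact_mod_cast hn.ne'
  constructor
  · apply nm_pos
    intro h0
    apply h1
    rw [h0]
    simp [det]
  · apply nm_pos
    intro h0
    apply h1
    rw [h0]
    simp [det]

theorem sharp_lo {e : G × G} (h1 : 0 < nm e.1) (h2 : 0 < nm e.2) (s : ℝ) :
    s ≤ tE e ↔ Real.exp s * (nm e.1 : ℝ) ≤ (nm e.2 : ℝ) := by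
  have h1' : (0 : ℝ) < nm e.1 := by exact_mod_cast h1
  have h2' : (0 : ℝ) < nm e.2 := by exact_mod_cast h2
  unfold tE
  rw [le_sub_iff_add_le, Real.le_log_iff_exp_le h2', Real.exp_add, Real.exp_log h1']

theorem sharp_hi {e : G × G} (h1 : 0 < nm e.1) (h2 : 0 < nm e.2) (t : ℝ) :
    tE e < t ↔ (nm e.2 : ℝ) < Real.exp t * (nm e.1 : ℝ) := by
  rw [← not_le, sharp_lo h1 h2, not_le]

open Classical in
theorem sharp_card (s t x : ℝ) :
    ((EN 1 x).filter (fun e => s ≤ tE e ∧ tE e < t)).card = (NE 1 (1, 1) s t x).ncard := by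
  rw [← Set.ncard_coe_finset]
  congr 1
  ext e
  rw [coe_filter]
  show e ∈ EN 1 x ∧ s ≤ tE e ∧ tE e < t ↔ _
  rw [mem_EN one_pos]
  unfold NE
  rw [Set.mem_ofPred_eq]
  constructor
  · rintro ⟨⟨h1, h2⟩, h3, h4⟩
    obtain ⟨h5, h6⟩ := sharp_nm_pos one_pos h1
    refine ⟨((sharp_En_iff e).1 h1).1, ((sharp_En_iff e).1 h1).2, h2, (sharp_lo h5 h6 s).1 h3,
      (sharp_hi h5 h6 t).1 h4, ?_, ?_⟩ <;> simp [cg]
  · rintro ⟨h1, h2, h3, h4, h5, -, -⟩
    have h : En 1 e := (sharp_En_iff e).2 ⟨h1, h2⟩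
    obtain ⟨h6, h7⟩ := sharp_nm_pos one_pos h
    exact ⟨⟨h, h3⟩, (sharp_lo h6 h7 s).2 h4, (sharp_hi h6 h7 t).2 h5⟩

/-- PROOF. `EN 1 x` with `s ≤ tE < t` is `NE 1 0 s t x` (every pair with `det = 1`, `0 < dot` is in `En 1`: `V` is primitive, congruences modulo 1 are trivial; `exp s nm V ≤ nm V'` iff `s ≤ tE`); `equid 1`. -/
theorem en_lim : ∃ κ : ℝ, 0 ≤ κ ∧ ∀ s t : ℝ, s ≤ t → Tendsto (fun x : ℝ =>
    (((EN 1 x).filter (fun e => s ≤ tE e ∧ tE e < t)).card : ℝ) / x) atTop (nhds (κ * (t - s))) := by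
  obtain ⟨κ, hκ⟩ := equid 1 one_pos
  have h := hκ (1, 1) (by simp)
  have h' : ∀ s t : ℝ, s ≤ t → Tendsto (fun x : ℝ =>
    (((EN 1 x).filter (fun e => s ≤ tE e ∧ tE e < t)).card : ℝ) / x) atTop (nhds (κ * (t - s))) := by
    intro s t hst
    have h1 := h s t hst
    have h2 : (fun x : ℝ => (((EN 1 x).filter (fun e => s ≤ tE e ∧ tE e < t)).card : ℝ) / x) =
        fun x : ℝ => ((NE 1 (1, 1) s t x).ncard : ℝ) / x := by
      funext x
      rw [← sharp_card s t x]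
    rw [h2]
    exact h1
  refine ⟨κ, ?_, h'⟩
  have h1 := h' 0 1 zero_le_one
  rw [sub_zero, mul_one] at h1
  refine ge_of_tendsto h1 ?_
  filter_upwards [eventually_gt_atTop 0] with x hx
  positivity

/-- trapezoid: `1` on `[a, b]`, `0` outside `[a - δ, b + δ]` -/
noncomputable def sharp_tz (a b δ y : ℝ) : ℝ := max 0 (min 1 (min ((y - (a - δ)) / δ) ((b + δ - y) / δ)))

theorem sharp_tz_cont (a b δ : ℝ) : Continuous (sharp_tz a b δ) := by
  unfold sharp_tz
  fun_prop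

theorem sharp_tz_nonneg (a b δ y : ℝ) : 0 ≤ sharp_tz a b δ y := le_max_left _ _

theorem sharp_tz_le_one (a b δ y : ℝ) : sharp_tz a b δ y ≤ 1 :=
  max_le zero_le_one (min_le_left _ _)

theorem sharp_tz_one {a b δ y : ℝ} (hδ : 0 < δ) (h1 : a ≤ y) (h2 : y ≤ b) : sharp_tz a b δ y = 1 := by
  unfold sharp_tz
  have h3 : 1 ≤ (y - (a - δ)) / δ := by
    rw [le_div_iff₀ hδ]
    linarith
  have h4 : 1 ≤ (b + δ - y) / δ := by
    rw [le_div_iff₀ hδ]
    linarith
  rw [min_eq_left (le_min h3 h4), max_eq_right zero_le_one]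

theorem sharp_tz_zero_left {a b δ y : ℝ} (hδ : 0 < δ) (h : y ≤ a - δ) : sharp_tz a b δ y = 0 := by
  unfold sharp_tz
  refine max_eq_left ((min_le_right _ _).trans ((min_le_left _ _).trans ?_))
  exact div_nonpos_of_nonpos_of_nonneg (by linarith) hδ.le

theorem sharp_tz_zero_right {a b δ y : ℝ} (hδ : 0 < δ) (h : b + δ ≤ y) : sharp_tz a b δ y = 0 := by
  unfold sharp_tz
  refine max_eq_left ((min_le_right _ _).trans ((min_le_right _ _).trans ?_))
  exact div_nonpos_of_nonpos_of_nonneg (by linarith) hδ.le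

/-- the smooth cut-off -/
noncomputable def sharp_W (s t δ : ℝ) (y u : ℝ) : ℂ :=
  ((sharp_tz δ 1 (δ / 2) y * sharp_tz s t δ u : ℝ) : ℂ)

theorem sharp_TF (s t δ : ℝ) (hδ : 0 < δ) : TF (1 + δ) (sharp_W s t δ) := by
  refine ⟨?_, ?_, ?_, ?_⟩
  · unfold sharp_W Function.uncurry
    exact Complex.continuous_ofReal.comp (((sharp_tz_cont _ _ _).comp continuous_fst).mul
      ((sharp_tz_cont _ _ _).comp continuous_snd))
  · refine HasCompactSupport.intro (K := Set.Icc 0 (1 + δ) ×ˢ Set.Icc (s - δ) (t + δ))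
      (isCompact_Icc.prod isCompact_Icc) ?_
    rintro ⟨y, u⟩ hx
    show sharp_W s t δ y u = 0
    unfold sharp_W
    by_cases h1 : y < 0
    · rw [sharp_tz_zero_left (by linarith) (by linarith)]
      simp
    by_cases h2 : 1 + δ < y
    · rw [sharp_tz_zero_right (by linarith) (by linarith)]
      simp
    by_cases h3 : u < s - δ
    · rw [sharp_tz_zero_left (a := s) (b := t) hδ (by linarith)]
      simp
    by_cases h4 : t + δ < u
    · rw [sharp_tz_zero_right (a := s) (b := t) hδ (by linarith)]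
      simp
    exfalso
    exact hx ⟨⟨not_lt.1 h1, not_lt.1 h2⟩, ⟨not_lt.1 h3, not_lt.1 h4⟩⟩
  · intro y u hy
    unfold sharp_W
    rw [sharp_tz_zero_left (by linarith) (by linarith)]
    simp
  · intro y u hy
    unfold sharp_W
    rw [sharp_tz_zero_right (by linarith) (by linarith)]
    simp

/-- indicator -/
noncomputable def sharp_i (p : Prop) : ℝ := by
  classical exact if p then 1 else 0

theorem sharp_i_nonneg (p : Prop) : 0 ≤ sharp_i p := by
  classical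
  unfold sharp_i
  split_ifs <;> simp

theorem sharp_i_pos {p : Prop} (h : p) : sharp_i p = 1 := by
  classical
  unfold sharp_i
  rw [if_pos h]

theorem sharp_i_neg {p : Prop} (h : ¬ p) : sharp_i p = 0 := by
  classical
  unfold sharp_i
  rw [if_neg h]

theorem sharp_point (s t δ X y u : ℝ) (hδ : 0 < δ) (hX : 0 < X) :
    |sharp_i (y ≤ X ∧ s ≤ u ∧ u ≤ t) - sharp_tz δ 1 (δ / 2) (y / X) * sharp_tz s t δ u| ≤
      sharp_i (y ≤ δ * X ∧ s - δ ≤ u ∧ u < t + 2 * δ) + sharp_i (X < y ∧ s - δ ≤ u ∧ u < t + 2 * δ) +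
        sharp_i (s - δ ≤ u ∧ u < s) + sharp_i (t ≤ u ∧ u < t + 2 * δ) := by
  have a1 := sharp_i_nonneg (y ≤ δ * X ∧ s - δ ≤ u ∧ u < t + 2 * δ)
  have a2 := sharp_i_nonneg (X < y ∧ s - δ ≤ u ∧ u < t + 2 * δ)
  have a3 := sharp_i_nonneg (s - δ ≤ u ∧ u < s)
  have a4 := sharp_i_nonneg (t ≤ u ∧ u < t + 2 * δ)
  have b1 : |sharp_i (y ≤ X ∧ s ≤ u ∧ u ≤ t) - sharp_tz δ 1 (δ / 2) (y / X) * sharp_tz s t δ u| ≤ 1 := by
    have c1 := sharp_tz_nonneg δ 1 (δ / 2) (y / X)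
    have c2 := sharp_tz_le_one δ 1 (δ / 2) (y / X)
    have c3 := sharp_tz_nonneg s t δ u
    have c4 := sharp_tz_le_one s t δ u
    have c5 : sharp_tz δ 1 (δ / 2) (y / X) * sharp_tz s t δ u ≤ 1 := mul_le_one₀ c2 c3 c4
    have c6 : 0 ≤ sharp_tz δ 1 (δ / 2) (y / X) * sharp_tz s t δ u := mul_nonneg c1 c3
    have c7 := sharp_i_nonneg (y ≤ X ∧ s ≤ u ∧ u ≤ t)
    have c8 : sharp_i (y ≤ X ∧ s ≤ u ∧ u ≤ t) ≤ 1 := by
      classical
      unfold sharp_i
      split_ifs <;> simp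
    rw [abs_le]
    constructor <;> linarith
  -- outside the support in `u`
  by_cases h1 : u < s - δ
  · rw [sharp_tz_zero_left (a := s) (b := t) hδ h1.le, sharp_i_neg (p := y ≤ X ∧ s ≤ u ∧ u ≤ t)
      (by rintro ⟨-, h, -⟩; linarith)]
    simp only [mul_zero, sub_zero, abs_zero]
    linarith
  by_cases h2 : t + 2 * δ ≤ u
  · rw [sharp_tz_zero_right (a := s) (b := t) hδ (by linarith), sharp_i_neg (p := y ≤ X ∧ s ≤ u ∧ u ≤ t)
      (by rintro ⟨-, -, h⟩; linarith)]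
    simp only [mul_zero, sub_zero, abs_zero]
    linarith
  rw [not_lt] at h1
  rw [not_le] at h2
  by_cases h3 : y ≤ δ * X
  · have := sharp_i_pos (p := y ≤ δ * X ∧ s - δ ≤ u ∧ u < t + 2 * δ) ⟨h3, h1, h2⟩
    linarith
  by_cases h4 : X < y
  · have := sharp_i_pos (p := X < y ∧ s - δ ≤ u ∧ u < t + 2 * δ) ⟨h4, h1, h2⟩
    linarith
  by_cases h5 : u < s
  · have := sharp_i_pos (p := s - δ ≤ u ∧ u < s) ⟨h1, h5⟩
    linarith
  by_cases h6 : t < u
  · have := sharp_i_pos (p := t ≤ u ∧ u < t + 2 * δ) ⟨h6.le, h2⟩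
    linarith
  rw [not_le] at h3
  rw [not_lt] at h4 h5 h6
  rw [sharp_i_pos (p := y ≤ X ∧ s ≤ u ∧ u ≤ t) ⟨h4, h5, h6⟩, sharp_tz_one hδ h5 h6,
    sharp_tz_one (by linarith) ((le_div_iff₀ hX).2 h3.le) ((div_le_one hX).2 h4)]
  simp only [mul_one, sub_self, abs_zero]
  linarith

/-- the count -/
noncomputable def sharp_N (a b x : ℝ) : ℝ := (((EN 1 x).filter (fun e => a ≤ tE e ∧ tE e < b)).card : ℝ)

theorem sharp_sum_i (S : Finset (G × G)) (p : G × G → Prop) [DecidablePred p] :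
    ∑ e ∈ S, sharp_i (p e) = ((S.filter p).card : ℝ) := by
  rw [Finset.card_filter]
  push_cast
  refine Finset.sum_congr rfl fun e _ => ?_
  by_cases h : p e
  · rw [sharp_i_pos h, if_pos h]
  · rw [sharp_i_neg h, if_neg h]

theorem sharp_diff (Φ : G × G → ℂ) (hΦ : ∀ e, ‖Φ e‖ ≤ 1) (s t δ X : ℝ) (hδ : 0 < δ) (hX : 0 < X) :
    ‖(∑ e ∈ (EN 1 X).filter (fun e => s ≤ tE e ∧ tE e ≤ t), Φ e) -
      ∑ e ∈ EN 1 ((1 + δ) * X), Φ e * sharp_W s t δ (mE e / X) (tE e)‖ ≤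
      sharp_N (s - δ) (t + 2 * δ) (δ * X) + (sharp_N (s - δ) (t + 2 * δ) ((1 + δ) * X) -
        sharp_N (s - δ) (t + 2 * δ) X) + sharp_N (s - δ) s ((1 + δ) * X) +
        sharp_N t (t + 2 * δ) ((1 + δ) * X) := by
  classical
  have hle : X ≤ (1 + δ) * X := by nlinarith
  have e1 : (∑ e ∈ (EN 1 X).filter (fun e => s ≤ tE e ∧ tE e ≤ t), Φ e) =
      ∑ e ∈ EN 1 ((1 + δ) * X), Φ e * (sharp_i (mE e ≤ X ∧ s ≤ tE e ∧ tE e ≤ t) : ℂ) := by
    have e2 : (EN 1 X).filter (fun e => s ≤ tE e ∧ tE e ≤ t) =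
        (EN 1 ((1 + δ) * X)).filter (fun e => mE e ≤ X ∧ s ≤ tE e ∧ tE e ≤ t) := by
      ext e
      rw [mem_filter, mem_filter, mem_EN one_pos, mem_EN one_pos]
      constructor
      · rintro ⟨⟨h1, h2⟩, h3⟩
        exact ⟨⟨h1, h2.trans hle⟩, h2, h3⟩
      · rintro ⟨⟨h1, -⟩, h2, h3⟩
        exact ⟨⟨h1, h2⟩, h3⟩
    rw [e2, Finset.sum_filter]
    refine Finset.sum_congr rfl fun e _ => ?_
    by_cases h : mE e ≤ X ∧ s ≤ tE e ∧ tE e ≤ t
    · rw [if_pos h, sharp_i_pos h]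
      simp
    · rw [if_neg h, sharp_i_neg h]
      simp
  rw [e1, ← Finset.sum_sub_distrib]
  have e3 : ∀ e ∈ EN 1 ((1 + δ) * X), ‖Φ e * (sharp_i (mE e ≤ X ∧ s ≤ tE e ∧ tE e ≤ t) : ℂ) -
      Φ e * sharp_W s t δ (mE e / X) (tE e)‖ ≤
      sharp_i (mE e ≤ δ * X ∧ s - δ ≤ tE e ∧ tE e < t + 2 * δ) +
        sharp_i (X < mE e ∧ s - δ ≤ tE e ∧ tE e < t + 2 * δ) +
        sharp_i (s - δ ≤ tE e ∧ tE e < s) + sharp_i (t ≤ tE e ∧ tE e < t + 2 * δ) := by
    intro e _
    rw [← mul_sub, norm_mul]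
    unfold sharp_W
    rw [← Complex.ofReal_sub, Complex.norm_real, Real.norm_eq_abs]
    calc ‖Φ e‖ * _ ≤ 1 * _ := mul_le_mul_of_nonneg_right (hΦ e) (abs_nonneg _)
      _ ≤ _ := by
        rw [one_mul]
        exact sharp_point s t δ X (mE e) (tE e) hδ hX
  refine (norm_sum_le_of_le _ e3).trans ?_
  rw [Finset.sum_add_distrib, Finset.sum_add_distrib, Finset.sum_add_distrib]
  have f1 : ∑ e ∈ EN 1 ((1 + δ) * X), sharp_i (mE e ≤ δ * X ∧ s - δ ≤ tE e ∧ tE e < t + 2 * δ) =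
      sharp_N (s - δ) (t + 2 * δ) (δ * X) := by
    rw [sharp_sum_i]
    unfold sharp_N
    congr 2
    ext e
    rw [mem_filter, mem_filter, mem_EN one_pos, mem_EN one_pos]
    constructor
    · rintro ⟨⟨h1, -⟩, h2, h3⟩
      exact ⟨⟨h1, h2⟩, h3⟩
    · rintro ⟨⟨h1, h2⟩, h3⟩
      exact ⟨⟨h1, h2.trans (by nlinarith)⟩, h2, h3⟩
  have f2 : ∑ e ∈ EN 1 ((1 + δ) * X), sharp_i (X < mE e ∧ s - δ ≤ tE e ∧ tE e < t + 2 * δ) =
      sharp_N (s - δ) (t + 2 * δ) ((1 + δ) * X) - sharp_N (s - δ) (t + 2 * δ) X := by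
    rw [eq_sub_iff_add_eq]
    have g1 : sharp_N (s - δ) (t + 2 * δ) X =
        ∑ e ∈ EN 1 ((1 + δ) * X), sharp_i (mE e ≤ X ∧ s - δ ≤ tE e ∧ tE e < t + 2 * δ) := by
      rw [sharp_sum_i]
      unfold sharp_N
      congr 2
      ext e
      rw [mem_filter, mem_filter, mem_EN one_pos, mem_EN one_pos]
      constructor
      · rintro ⟨⟨h1, h2⟩, h3⟩
        exact ⟨⟨h1, h2.trans hle⟩, h2, h3⟩
      · rintro ⟨⟨h1, -⟩, h2, h3⟩
        exact ⟨⟨h1, h2⟩, h3⟩
    rw [g1, ← Finset.sum_add_distrib]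
    unfold sharp_N
    rw [← sharp_sum_i]
    refine Finset.sum_congr rfl fun e _ => ?_
    by_cases h : s - δ ≤ tE e ∧ tE e < t + 2 * δ
    · by_cases h' : mE e ≤ X
      · rw [sharp_i_pos h, sharp_i_neg (p := X < mE e ∧ s - δ ≤ tE e ∧ tE e < t + 2 * δ)
          (fun h'' => absurd h''.1 (not_lt.2 h')), sharp_i_pos ⟨h', h⟩, zero_add]
      · rw [sharp_i_pos h, sharp_i_pos (p := X < mE e ∧ s - δ ≤ tE e ∧ tE e < t + 2 * δ) ⟨not_le.1 h', h⟩,
          sharp_i_neg (fun h'' => h' h''.1), add_zero]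
    · rw [sharp_i_neg h, sharp_i_neg (p := X < mE e ∧ s - δ ≤ tE e ∧ tE e < t + 2 * δ) (fun h'' => h h''.2),
        sharp_i_neg (fun h'' => h h''.2), add_zero]
  have f3 : ∑ e ∈ EN 1 ((1 + δ) * X), sharp_i (s - δ ≤ tE e ∧ tE e < s) = sharp_N (s - δ) s ((1 + δ) * X) := by
    rw [sharp_sum_i]
    rfl
  have f4 : ∑ e ∈ EN 1 ((1 + δ) * X), sharp_i (t ≤ tE e ∧ tE e < t + 2 * δ) = sharp_N t (t + 2 * δ) ((1 + δ) * X) := by
    rw [sharp_sum_i]
    rfl
  rw [f1, f2, f3, f4]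

theorem sharp_N_lim {κ : ℝ} (hκ : ∀ s t : ℝ, s ≤ t → Tendsto (fun x : ℝ =>
    (((EN 1 x).filter (fun e => s ≤ tE e ∧ tE e < t)).card : ℝ) / x) atTop (nhds (κ * (t - s))))
    (a b c : ℝ) (hab : a ≤ b) (hc : 0 < c) :
    Tendsto (fun X : ℝ => sharp_N a b (c * X) / X) atTop (nhds (c * (κ * (b - a)))) := by
  have h1 := ((hκ a b hab).comp (tendsto_id.const_mul_atTop hc)).const_mul c
  refine h1.congr' ?_
  filter_upwards [eventually_gt_atTop 0] with X hX
  show c * (sharp_N a b (c * X) / (c * X)) = _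
  field_simp

/-- PROOF. Let `0 < δ < 1`, `W y u = α y * β u` (real, continuous, between 0 and 1): `α = 1` on `[δ, 1]`, `0` outside `[δ/2, 1 + δ]`; `β = 1` on `[s, t]`, `0` outside `[s - δ, t + δ]`: `TF (1+δ) W`. The
difference of the sharp sum and `∑_(EN 1 ((1+δ) X)) Φ W` is at most the number of `e ∈ EN 1 ((1 + δ) X)` with (`mE ≤ δ X` or `mE > X`) and `s - 1 ≤ tE < t + 2`, or with
`tE` within `δ` of `s` or of `t`; by `en_lim` (`#(EN 1 (δ X))`, `#(EN 1 ((1+δ) X)) - #(EN 1 X)` with the condition, ...) its limsup divided by `X` is `≤ C δ`. -/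
theorem sharp (Φ : G × G → ℂ) (hΦ : ∀ e, ‖Φ e‖ ≤ 1)
    (H : ∀ (b : ℝ) (W : ℝ → ℝ → ℂ), TF b W →
      Tendsto (fun X : ℝ => (∑ e ∈ EN 1 (b * X), Φ e * W (mE e / X) (tE e)) / X) atTop (nhds 0))
    (s t : ℝ) (hst : s ≤ t) :
    Tendsto (fun X : ℝ => (∑ e ∈ (EN 1 X).filter (fun e => s ≤ tE e ∧ tE e ≤ t), Φ e) / X) atTop (nhds 0) := by
  obtain ⟨κ, hκ0, hκ⟩ := en_lim
  rw [Metric.tendsto_nhds]
  intro ε hε
  -- choice of `δ`
  obtain ⟨δ, hδ, hδ1, hδε⟩ : ∃ δ : ℝ, 0 < δ ∧ δ ≤ 1 ∧ κ * δ * (2 * (t - s) + 12) < ε / 2 := by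
    refine ⟨min 1 (ε / (4 * (κ * (2 * (t - s) + 12) + 1))), ?_, min_le_left _ _, ?_⟩
    · apply lt_min one_pos
      have : 0 ≤ κ * (2 * (t - s) + 12) := mul_nonneg hκ0 (by linarith)
      positivity
    · have h0 : 0 ≤ κ * (2 * (t - s) + 12) := mul_nonneg hκ0 (by linarith)
      have h1 : min 1 (ε / (4 * (κ * (2 * (t - s) + 12) + 1))) ≤ ε / (4 * (κ * (2 * (t - s) + 12) + 1)) :=
        min_le_right _ _
      have h2 : κ * (2 * (t - s) + 12) * min 1 (ε / (4 * (κ * (2 * (t - s) + 12) + 1))) ≤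
          κ * (2 * (t - s) + 12) * (ε / (4 * (κ * (2 * (t - s) + 12) + 1))) :=
        mul_le_mul_of_nonneg_left h1 h0
      have h3 : κ * (2 * (t - s) + 12) * (ε / (4 * (κ * (2 * (t - s) + 12) + 1))) ≤ ε / 4 := by
        rw [mul_div_assoc', div_le_div_iff₀ (by positivity) (by norm_num)]
        nlinarith
      nlinarith
  have h1 := H (1 + δ) (sharp_W s t δ) (sharp_TF s t δ hδ)
  have h2 : Tendsto (fun X : ℝ => sharp_N (s - δ) (t + 2 * δ) (δ * X) / X +
      (sharp_N (s - δ) (t + 2 * δ) ((1 + δ) * X) / X - sharp_N (s - δ) (t + 2 * δ) (1 * X) / X) +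
      sharp_N (s - δ) s ((1 + δ) * X) / X + sharp_N t (t + 2 * δ) ((1 + δ) * X) / X) atTop
      (nhds (δ * (κ * (t + 2 * δ - (s - δ))) + ((1 + δ) * (κ * (t + 2 * δ - (s - δ))) -
        1 * (κ * (t + 2 * δ - (s - δ)))) + (1 + δ) * (κ * (s - (s - δ))) + (1 + δ) * (κ * (t + 2 * δ - t)))) :=
    ((((sharp_N_lim hκ _ _ _ (by linarith) hδ).add
      ((sharp_N_lim hκ _ _ _ (by linarith) (by linarith)).sub
        (sharp_N_lim hκ _ _ _ (by linarith) one_pos))).add
      (sharp_N_lim hκ _ _ _ (by linarith) (by linarith))).add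
      (sharp_N_lim hκ _ _ _ (by linarith) (by linarith)))
  have h3 : δ * (κ * (t + 2 * δ - (s - δ))) + ((1 + δ) * (κ * (t + 2 * δ - (s - δ))) -
        1 * (κ * (t + 2 * δ - (s - δ)))) + (1 + δ) * (κ * (s - (s - δ))) + (1 + δ) * (κ * (t + 2 * δ - t)) <
        ε / 2 := by
    have h4 : δ * (κ * (t + 2 * δ - (s - δ))) + ((1 + δ) * (κ * (t + 2 * δ - (s - δ))) -
        1 * (κ * (t + 2 * δ - (s - δ)))) + (1 + δ) * (κ * (s - (s - δ))) + (1 + δ) * (κ * (t + 2 * δ - t)) =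
        κ * δ * (2 * (t - s) + 3 + 9 * δ) := by ring
    rw [h4]
    refine lt_of_le_of_lt ?_ hδε
    exact mul_le_mul_of_nonneg_left (by linarith) (mul_nonneg hκ0 hδ.le)
  have h5 := (tendsto_order.1 h2).2 _ h3
  have h6 := (Metric.tendsto_nhds.1 h1) (ε / 2) (by linarith)
  filter_upwards [h5, h6, eventually_gt_atTop 0] with X g1 g2 hX
  rw [dist_zero_right] at g2 ⊢
  have g3 := sharp_diff Φ hΦ s t δ X hδ hX
  rw [one_mul] at g1
  set F := ∑ e ∈ (EN 1 X).filter (fun e => s ≤ tE e ∧ tE e ≤ t), Φ e with hF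
  set K := ∑ e ∈ EN 1 ((1 + δ) * X), Φ e * sharp_W s t δ (mE e / X) (tE e) with hK
  have g4 : F / X = (F - K) / X + K / X := by ring
  rw [g4]
  have g5 : ‖(F - K) / (X : ℂ)‖ < ε / 2 := by
    rw [norm_div, Complex.norm_real, Real.norm_eq_abs, abs_of_pos hX]
    refine lt_of_le_of_lt (div_le_div_of_nonneg_right g3 hX.le) ?_
    refine lt_of_eq_of_lt ?_ g1
    ring
  calc ‖(F - K) / (X : ℂ) + K / X‖ ≤ ‖(F - K) / (X : ℂ)‖ + ‖K / (X : ℂ)‖ := norm_add_le _ _
    _ < ε / 2 + ε / 2 := add_lt_add g5 g2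
    _ = ε := by ring

end Pool.Agent.OmEq

end

/-! ### from `Lib_MP_f1a94e_eq.GramB` -/

section

/-!
# Piece GRAMB: from one class to almost all classes
-/

set_option autoImplicit false

namespace Pool.Agent.OmEq

open Finset Pool.Agent.GaussMR Pool.Agent.OmAll MeasureTheory Filter

open Classical in
/-- the coefficient of a character in the expansion of a function of the units -/
noncomputable def grambCo (n : ℕ) [NeZero n] (G : ZMod n → ℂ) (χ : DirichletCharacter ℂ n) : ℂ :=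
  (n.totient : ℂ)⁻¹ * ∑ u ∈ univ.filter (fun u : ZMod n => IsUnit u), G u * χ u⁻¹

open Classical in
theorem gramb_fourier (n : ℕ) [NeZero n] (G : ZMod n → ℂ) (c : ZMod n) (hc : IsUnit c) :
    G c = ∑ χ : DirichletCharacter ℂ n, grambCo n G χ * χ c := by
  have hφ : (n.totient : ℂ) ≠ 0 := by
    have := (Nat.totient_pos.mpr (NeZero.pos n)).ne'
    exact_mod_cast this
  have h1 : ∀ χ : DirichletCharacter ℂ n, grambCo n G χ * χ c =
      (n.totient : ℂ)⁻¹ * ∑ u ∈ univ.filter (fun u : ZMod n => IsUnit u), G u * (χ u⁻¹ * χ c) := by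
    intro χ
    unfold grambCo
    rw [mul_assoc, Finset.sum_mul]
    congr 1
    refine Finset.sum_congr rfl (fun u _ => ?_)
    ring
  rw [Finset.sum_congr rfl (fun χ _ => h1 χ), ← Finset.mul_sum, Finset.sum_comm]
  have h2 : ∀ u ∈ univ.filter (fun u : ZMod n => IsUnit u),
      ∑ χ : DirichletCharacter ℂ n, G u * (χ u⁻¹ * χ c) = if u = c then G c * (n.totient : ℂ) else 0 := by
    intro u hu
    rw [← Finset.mul_sum, DirichletCharacter.sum_char_inv_mul_char_eq ℂ (mem_filter.mp hu).2 c]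
    by_cases h : u = c
    · rw [if_pos h, if_pos h, h]
    · rw [if_neg h, if_neg h, mul_zero]
  rw [Finset.sum_congr rfl h2, Finset.sum_ite_eq', if_pos (mem_filter.mpr ⟨mem_univ _, hc⟩)]
  field_simp

theorem gramb_lim (n : ℕ) [NeZero n] (f : ℕ → ℂ) (E : Finset ℕ) (ω : ℂ) (h : FF f E ω) (hω : ‖ω‖ = 1)
    (b : ℝ) (W : ℝ → ℝ → ℂ) (hW : TF b W) (G : ZMod n → ℂ)
    (h0 : ∀ χ : DirichletCharacter ℂ n, grambCo n G χ = 0 ∨
      (∃ a : ℕ, a % 4 = 1 ∧ a.Coprime n ∧ χ ((a : ZMod n)) ≠ 1) ∨ ∀ y, (∫ t, W y t) = 0) :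
    Tendsto (fun X : ℝ => (∑ e ∈ EN n (b * X),
      f (nm e.1) * (starRingEnd ℂ) (f (nm e.2)) * G (cl n e) * W (mE e / X) (tE e)) / X) atTop (nhds 0) := by
  classical
  have hn : 0 < n := NeZero.pos n
  have h1 : ∀ χ : DirichletCharacter ℂ n, Tendsto (fun X : ℝ => grambCo n G χ * ((∑ e ∈ EN n (b * X),
      f (nm e.1) * (starRingEnd ℂ) (f (nm e.2)) * χ (cl n e) * W (mE e / X) (tE e)) / X)) atTop (nhds 0) := by
    intro χ
    rcases h0 χ with h2 | h2
    · rw [h2]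
      simp only [zero_mul]
      exact tendsto_const_nhds
    · have hω' : ‖(starRingEnd ℂ) ω‖ = 1 := by rw [RCLike.norm_conj, hω]
      have h3 := pair_lim n χ E f (fun m => (starRingEnd ℂ) (f m)) ω ((starRingEnd ℂ) ω) h h.conj hω hω'
        b W hW (Or.inr h2)
      have h4 := h3.const_mul (grambCo n G χ)
      rw [mul_zero] at h4
      exact h4
  have h2 := tendsto_finsetSum (univ : Finset (DirichletCharacter ℂ n)) (fun χ _ => h1 χ)
  rw [Finset.sum_const_zero] at h2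
  refine h2.congr (fun X => ?_)
  have h3 : ∀ e ∈ EN n (b * X), f (nm e.1) * (starRingEnd ℂ) (f (nm e.2)) * G (cl n e) * W (mE e / X) (tE e) =
      ∑ χ : DirichletCharacter ℂ n, grambCo n G χ *
        (f (nm e.1) * (starRingEnd ℂ) (f (nm e.2)) * χ (cl n e) * W (mE e / X) (tE e)) := by
    intro e he
    rw [gramb_fourier n G (cl n e) (cl_unit ((mem_EN hn).mp he).1), Finset.mul_sum, Finset.sum_mul]
    refine Finset.sum_congr rfl (fun χ _ => ?_)
    ring
  rw [Finset.sum_congr rfl h3, Finset.sum_comm, Finset.sum_div]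
  refine Finset.sum_congr rfl (fun χ _ => ?_)
  rw [← Finset.mul_sum, mul_div_assoc]

/-- classes `1 mod 4` -/
def GrambH (n : ℕ) (c : ZMod n) : Prop := ∀ h : 4 ∣ n, (ZMod.castHom h (ZMod 4)) c = 1

theorem gramb_hc {n : ℕ} {e : G × G} (he : En n e) : hc n e ↔ GrambH n (cl n e) := by
  constructor
  · intro h h4
    exact (cl_cast h4 he).mpr (h h4)
  · intro h h4
    exact (cl_cast h4 he).mp (h h4)

/-- representatives -/
theorem gramb_rep (n : ℕ) [NeZero n] (u : ZMod n) (hu : IsUnit u) (hH : GrambH n u) :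
    ∃ a : ℕ, a % 4 = 1 ∧ a.Coprime n ∧ (a : ZMod n) = u := by
  set v := u.val with hv
  have hvu : (v : ZMod n) = u := ZMod.natCast_zmod_val u
  have hcop : v.Coprime n := (ZMod.isUnit_iff_coprime v n).mp (by rw [hvu]; exact hu)
  have h2 : n % 2 = 0 → v % 2 = 1 := by
    intro h
    by_contra hcon
    have hd : 2 ∣ Nat.gcd v n := Nat.dvd_gcd (by omega) (by omega)
    rw [hcop] at hd
    omega
  have h4 : n % 4 = 0 → v % 4 = 1 := by
    intro h
    have h5 := hH (Nat.dvd_of_mod_eq_zero h)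
    rw [← hvu, map_natCast] at h5
    have h6 : ((v : ℕ) : ZMod 4) = ((1 : ℕ) : ZMod 4) := by rw [h5]; rfl
    have h7 := (ZMod.natCast_eq_natCast_iff' v 1 4).mp h6
    omega
  have hk : ∃ k : ℕ, (v + k * n) % 4 = 1 := by
    by_contra hcon
    push Not at hcon
    have c0 := hcon 0
    have c1 := hcon 1
    have c2 := hcon 2
    have c3 := hcon 3
    omega
  obtain ⟨k, hk⟩ := hk
  have e1 : ((v + k * n : ℕ) : ZMod n) = u := by
    push_cast
    rw [hvu, ZMod.natCast_self, mul_zero, add_zero]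
  refine ⟨v + k * n, hk, ?_, e1⟩
  exact (ZMod.isUnit_iff_coprime _ n).mp (by rw [e1]; exact hu)

open Classical in
theorem gramb_card_units (n : ℕ) [NeZero n] :
    (univ.filter (fun u : ZMod n => IsUnit u)).card = n.totient := by
  rw [← ZMod.card_units_eq_totient]
  symm
  refine Finset.card_bij (fun (u : (ZMod n)ˣ) _ => (u : ZMod n)) ?_ ?_ ?_ 
  · intro u _
    exact mem_filter.mpr ⟨mem_univ _, u.isUnit⟩
  · intro u _ v _ huv
    exact Units.ext huv
  · intro u hu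
    obtain ⟨w, hw⟩ := (mem_filter.mp hu).2
    exact ⟨w, mem_univ _, hw⟩

open Classical in
/-- the number of classes `1 mod 4` -/
theorem gramb_card (n : ℕ) [NeZero n] :
    kap n * ((univ.filter (fun u : ZMod n => IsUnit u ∧ GrambH n u)).card : ℝ) = n.totient := by
  by_cases h4 : 4 ∣ n
  · have h1 : (univ.filter (fun u : ZMod n => IsUnit u ∧ GrambH n u)).card =
        (univ.filter (fun u : ZMod n => IsUnit u ∧ ¬ GrambH n u)).card := by
      have key : ∀ u : ZMod n, IsUnit u → (GrambH n (-u) ↔ ¬ GrambH n u) := by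
        intro u hu
        have hu4 : IsUnit ((ZMod.castHom h4 (ZMod 4)) u) := hu.map _
        have e1 : ∀ c : ZMod n, GrambH n c ↔ (ZMod.castHom h4 (ZMod 4)) c = 1 :=
          fun c => ⟨fun h => h h4, fun h _ => h⟩
        rw [e1, e1, map_neg]
        generalize (ZMod.castHom h4 (ZMod 4)) u = x at hu4
        revert x
        decide
      refine Finset.card_bij (fun u _ => -u) ?_ ?_ ?_
      · intro u hu
        obtain ⟨_, h2, h3⟩ := mem_filter.mp hu
        refine mem_filter.mpr ⟨mem_univ _, h2.neg, ?_⟩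
        rw [key u h2, not_not]
        exact h3
      · intro u _ v _ huv
        exact neg_injective huv
      · intro u hu
        obtain ⟨_, h2, h3⟩ := mem_filter.mp hu
        refine ⟨-u, mem_filter.mpr ⟨mem_univ _, h2.neg, (key u h2).mpr h3⟩, neg_neg u⟩
    have h2 : (univ.filter (fun u : ZMod n => IsUnit u ∧ GrambH n u)).card +
        (univ.filter (fun u : ZMod n => IsUnit u ∧ ¬ GrambH n u)).card = n.totient := by
      rw [← gramb_card_units n, ← Finset.card_filter_add_card_filter_not (s := univ.filter (fun u : ZMod n => IsUnit u))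
        (GrambH n), Finset.filter_filter, Finset.filter_filter]
    unfold kap
    rw [if_pos h4]
    rw [← h1] at h2
    have h3 : ((univ.filter (fun u : ZMod n => IsUnit u ∧ GrambH n u)).card : ℝ) +
      ((univ.filter (fun u : ZMod n => IsUnit u ∧ GrambH n u)).card : ℝ) = n.totient := by exact_mod_cast h2
    linarith
  · have h1 : univ.filter (fun u : ZMod n => IsUnit u ∧ GrambH n u) = univ.filter (fun u : ZMod n => IsUnit u) := by
      refine Finset.filter_congr (fun u _ => ?_)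
      exact ⟨fun h => h.1, fun h => ⟨h, fun h5 => absurd h5 h4⟩⟩
    unfold kap
    rw [if_neg h4, h1, gramb_card_units, one_mul]

open Classical in
/-- PROOF. Let `H` be the set of units `c` of `ZMod n` with `c = 1 mod 4` if `4 ∣ n` (all units if not `4 ∣ n`). `#H = φ(n) / kap n`: if `4 ∣ n` the map `c ↦ -c` exchanges `H` and its complement in the units. For `e ∈ En n`, `c = cl n e` is a unit (`cl_unit`),
`cg n e.2 e.1` iff `c = 1` (`cl_one`), `hc n e` iff `c ∈ H` (`cl_cast` with `M = 4`). Characters: for a unit `c`,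
`1_(c = 1) - (kap n / φ(n)) 1_(c ∈ H) = (1/φ(n)) ∑_χ χ(c) (1 - (kap n / φ(n)) ∑_(h ∈ H) χ(h)⁻¹)` (`DirichletCharacter.sum_char_inv_mul_char_eq`). If `χ(a) = 1` for all natural `a` with `a % 4 = 1`, coprime to `n`, then `χ = 1` on `H`
(every `h ∈ H` is the class of such an `a`: if `4 ∣ n` any representative; if `n` is odd by CRT; if `n = 2 mod 4` one of the representatives `h`, `h + n`), and the bracket is `0`. For the other `χ`: `pair_lim` with `f1 = f`, `f2 = conj f`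
(`FF.conj`), second case of `h0`. Finite sum. -/
theorem gramB (n : ℕ) (hn : 0 < n) (f : ℕ → ℂ) (E : Finset ℕ) (ω : ℂ) (h : FF f E ω) (hω : ‖ω‖ = 1)
    (b : ℝ) (W : ℝ → ℝ → ℂ) (hW : TF b W) :
    Tendsto (fun X : ℝ => ((∑ e ∈ (EN n (b * X)).filter (fun e => cg n e.2 e.1),
      f (nm e.1) * (starRingEnd ℂ) (f (nm e.2)) * W (mE e / X) (tE e)) -
        ((kap n / n.totient : ℝ) : ℂ) * Qs f n (b * X) W X) / X) atTop (nhds 0) := by
  have : NeZero n := ⟨hn.ne'⟩
  have hφ : (n.totient : ℝ) ≠ 0 := by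
    have := (Nat.totient_pos.mpr hn).ne'
    exact_mod_cast this
  set G : ZMod n → ℂ := fun c => (if c = 1 then 1 else 0) -
    ((kap n / n.totient : ℝ) : ℂ) * (if GrambH n c then 1 else 0) with hG
  have h0 : ∀ χ : DirichletCharacter ℂ n, grambCo n G χ = 0 ∨
      (∃ a : ℕ, a % 4 = 1 ∧ a.Coprime n ∧ χ ((a : ZMod n)) ≠ 1) ∨ ∀ y, (∫ t, W y t) = 0 := by
    intro χ
    by_cases hex : ∃ a : ℕ, a % 4 = 1 ∧ a.Coprime n ∧ χ ((a : ZMod n)) ≠ 1
    · exact Or.inr (Or.inl hex)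
    · left
      push Not at hex
      unfold grambCo
      have h1 : ∑ u ∈ univ.filter (fun u : ZMod n => IsUnit u), G u * χ u⁻¹ = 0 := by
        have e1 : ∀ u ∈ univ.filter (fun u : ZMod n => IsUnit u), G u * χ u⁻¹ =
            (if u = 1 then 1 else 0) - (if GrambH n u then ((kap n / n.totient : ℝ) : ℂ) else 0) := by
          intro u hu
          have hu' := (mem_filter.mp hu).2
          rw [hG]
          simp only
          rw [sub_mul]
          congr 1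
          · by_cases h1 : u = 1
            · have h3 := ZMod.inv_mul_of_unit (1 : ZMod n) isUnit_one
              rw [mul_one] at h3
              rw [if_pos h1, h1, h3, map_one, mul_one]
            · rw [if_neg h1, zero_mul]
          · by_cases h1 : GrambH n u
            · rw [if_pos h1, if_pos h1, mul_one]
              obtain ⟨a, ha4, hac, hau⟩ := gramb_rep n u hu' h1
              have h2 := hex a ha4 hac
              rw [hau] at h2
              have h3 : u⁻¹ * u = 1 := ZMod.inv_mul_of_unit u hu'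
              have h4 : χ u⁻¹ * χ u = 1 := by rw [← map_mul, h3, map_one]
              rw [h2, mul_one] at h4
              rw [h4, mul_one]
            · rw [if_neg h1, if_neg h1, mul_zero, zero_mul]
        rw [Finset.sum_congr rfl e1, Finset.sum_sub_distrib, Finset.sum_ite_eq',
          if_pos (mem_filter.mpr ⟨mem_univ _, isUnit_one⟩), ← Finset.sum_filter, Finset.filter_filter,
          Finset.sum_const, nsmul_eq_mul]
        have h5 := gramb_card n
        have h6 : ((univ.filter (fun u : ZMod n => IsUnit u ∧ GrambH n u)).card : ℝ) *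
            (kap n / n.totient) = 1 := by
          rw [← mul_div_assoc, mul_comm, h5, div_self hφ]
        have h7 : (((univ.filter (fun u : ZMod n => IsUnit u ∧ GrambH n u)).card : ℝ) : ℂ) *
            ((kap n / n.totient : ℝ) : ℂ) = 1 := by
          rw [← Complex.ofReal_mul, h6, Complex.ofReal_one]
        rw [Complex.ofReal_natCast] at h7
        rw [h7, sub_self]
      rw [h1, mul_zero]
  refine (gramb_lim n f E ω h hω b W hW G h0).congr (fun X => ?_)
  congr 1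
  unfold Qs
  rw [Finset.mul_sum, Finset.sum_filter, Finset.sum_filter, ← Finset.sum_sub_distrib]
  refine Finset.sum_congr rfl (fun e he => ?_)
  have he' := ((mem_EN hn).mp he).1
  have k1 : cg n e.2 e.1 ↔ cl n e = 1 := (cl_one he').symm
  have k2 := gramb_hc he'
  rw [hG]
  simp only [k1, k2]
  by_cases c1 : cl n e = 1
  · by_cases c2 : GrambH n (cl n e)
    · simp only [c1, if_true] at c2 ⊢
      simp only [c2, if_true]
      ring
    · simp only [c1, if_true] at c2 ⊢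
      simp only [c2, if_false]
      ring
  · by_cases c2 : GrambH n (cl n e)
    · simp only [c1, if_false, c2, if_true]
      ring
    · simp only [c1, if_false, c2]
      ring

/-- PROOF. `1_(c ∈ H) = (1/φ(n)) ∑_χ χ(c) ∑_(h ∈ H) χ(h)⁻¹` for units `c` (`H` as in `gramB`), and `pair_lim`, third case of `h0`, for every `χ`. -/
theorem tvfB (n : ℕ) (hn : 0 < n) (f : ℕ → ℂ) (E : Finset ℕ) (ω : ℂ) (h : FF f E ω) (hω : ‖ω‖ = 1)
    (b : ℝ) (W : ℝ → ℝ → ℂ) (hW : TF b W) (h0 : ∀ y, (∫ t, W y t) = 0) :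
    Tendsto (fun X : ℝ => Qs f n (b * X) W X / X) atTop (nhds 0) := by
  classical
  have : NeZero n := ⟨hn.ne'⟩
  refine (gramb_lim n f E ω h hω b W hW (fun c => if GrambH n c then 1 else 0)
    (fun χ => Or.inr (Or.inr h0))).congr (fun X => ?_)
  congr 1
  unfold Qs
  rw [Finset.sum_filter]
  refine Finset.sum_congr rfl (fun e he => ?_)
  have k2 := gramb_hc ((mem_EN hn).mp he).1
  by_cases c2 : GrambH n (cl n e)
  · rw [if_pos c2, if_pos (k2.mpr c2), mul_one]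
  · rw [if_neg c2, if_neg (fun hh => c2 (k2.mp hh)), mul_zero, zero_mul]

end Pool.Agent.OmEq

end

/-! ### from `Lib_MP_f1a94e_ecm.Point` -/

section

/-!
# Piece M-POINT: from the mean square to every point
-/

set_option autoImplicit false

namespace Pool.Agent.ECM

open Finset Pool.Agent.GaussMR Pool.Agent.GaussCM Pool.Agent.OmAll

private theorem pt_mem_PP {P Q : ℝ} {w : G} : w ∈ PP P Q ↔ (nm w : ℝ) ≤ Q ∧ P < (nm w : ℝ) ∧
    (nm w).Prime ∧ 0 < w.im ∧ w.im < w.re := by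
  classical
  simp [PP, mem_ball]

/-- the mass of the primes with a given value of `⌊(s - log nm w) / h⌋` -/
private theorem pt_mass {C4 : ℝ} (hC4 : 0 < C4)
    (hwin : ∀ u : ℝ, 1 ≤ u → ∑ w ∈ PP (Real.exp u) (Real.exp (u + 1)), 1 / (nm w : ℝ) ≤ C4 / u)
    {a s h Q : ℝ} (ha : 1 ≤ a) (hh : 0 < h) (hh1 : h ≤ 1) (hQ : Q ≤ Real.exp s) (n : ℕ) :
    ∑ w ∈ (PP (Real.exp a) Q).filter (fun w => ⌊(s - Real.log (nm w)) / h⌋₊ = n), 1 / (nm w : ℝ) ≤
      C4 / a := by
  obtain ⟨u, hu⟩ : ∃ u : ℝ, u = max a (s - (n + 1) * h) := ⟨_, rfl⟩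
  have hau : a ≤ u := by rw [hu]; exact le_max_left _ _
  have hsu : s - (n + 1) * h ≤ u := by rw [hu]; exact le_max_right _ _
  have h1 : ∑ w ∈ (PP (Real.exp a) Q).filter (fun w => ⌊(s - Real.log (nm w)) / h⌋₊ = n),
      1 / (nm w : ℝ) ≤ ∑ w ∈ PP (Real.exp u) (Real.exp (u + 1)), 1 / (nm w : ℝ) := by
    refine sum_le_sum_of_subset_of_nonneg (fun w hw => ?_) fun w _ _ => by positivity
    obtain ⟨hw1, hw2⟩ := mem_filter.1 hw
    obtain ⟨g1, g2, g3, g4, g5⟩ := pt_mem_PP.1 hw1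
    have hpos : (0 : ℝ) < nm w := lt_trans (Real.exp_pos _) g2
    have hlog : Real.log (nm w) ≤ s := by
      rw [Real.log_le_iff_le_exp hpos]
      exact g1.trans hQ
    have hn0 : 0 ≤ (s - Real.log (nm w)) / h := div_nonneg (sub_nonneg.2 hlog) hh.le
    have k1 := Nat.floor_le hn0
    have k2 := Nat.lt_floor_add_one ((s - Real.log (nm w)) / h)
    rw [hw2] at k1 k2
    rw [le_div_iff₀ hh] at k1
    rw [div_lt_iff₀ hh] at k2
    have k3 : a < Real.log (nm w) := (Real.lt_log_iff_exp_lt hpos).2 g2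
    refine pt_mem_PP.2 ⟨?_, ?_, g3, g4, g5⟩
    · rw [← Real.log_le_iff_le_exp hpos]
      linarith only [k1, hsu, hh1]
    · rw [← Real.lt_log_iff_exp_lt hpos, hu]
      exact max_lt k3 (by linarith only [k2])
  refine h1.trans ((hwin u (ha.trans hau)).trans ?_)
  exact div_le_div_of_nonneg_left hC4.le (by linarith only [ha]) hau

private theorem pt_last {L ε : ℝ} (hL : 1 ≤ L) (hε : 0 < ε) :
    1 / (2 * L) * (2 * (ε / 4 + L * (ε / 4))) ≤ ε / 2 := by
  have hL0 : 0 < L := lt_of_lt_of_le one_pos hL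
  have h1 : 1 / (2 * L) * (2 * (ε / 4 + L * (ε / 4))) = ε / 4 / L + ε / 4 := by
    field_simp
  have h2 : ε / 4 / L ≤ ε / 4 := div_le_self (by linarith only [hε]) hL
  linarith only [h1, h2]

private theorem pt_fin {C4 e' s h ε : ℝ} (hC4 : 0 < C4) (he0 : 0 < e') (hs0 : 0 < s)
    (hh0 : 0 < h) : C4 / (e' * s) * (ε * e' * h / (8 * C4) * (2 * s / h)) = ε / 4 := by
  field_simp
  ring

private theorem pt_term {A x y f g : ℝ} (hx : 0 < x) (hA : A ≤ 2) (hf : f ≤ g + y)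
    (hf0 : 0 ≤ f) : A / x * f ≤ 2 * (1 / x * g + 1 / x * y) := by
  have h1 : A / x * f ≤ 2 / x * (g + y) :=
    mul_le_mul (div_le_div_of_nonneg_right hA hx.le) hf hf0 (div_nonneg zero_le_two hx.le)
  have h2 : 2 / x * (g + y) = 2 * (1 / x * g + 1 / x * y) := by ring
  exact h1.trans h2.le

private theorem pt_exp {C2 ε s : ℝ} (hC2 : 0 < C2) (hε : 0 < ε)
    (s3 : -8 * Real.log (ε / (8 * C2)) ≤ s) : C2 * Real.exp (-(s / 8)) ≤ ε / 8 := by
  have h1 : Real.exp (-(s / 8)) ≤ ε / (8 * C2) := by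
    have h2 : -(s / 8) ≤ Real.log (ε / (8 * C2)) := by linarith only [s3]
    calc Real.exp (-(s / 8)) ≤ Real.exp (Real.log (ε / (8 * C2))) := Real.exp_le_exp.2 h2
      _ = ε / (8 * C2) := Real.exp_log (by positivity)
  calc C2 * Real.exp (-(s / 8)) ≤ C2 * (ε / (8 * C2)) := mul_le_mul_of_nonneg_left h1 hC2.le
    _ = ε / 8 := by field_simp

private theorem pt_log {K C5 e' s : ℝ} (he' : e' = 1 / 20 * Real.exp (-(2 * (K + |C5|))))
    (he0 : 0 < e') (hs0 : 0 < s) : Real.log (s / 20) - Real.log (e' * s) = 2 * (K + |C5|) := by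
  rw [← Real.log_div (by positivity) (by positivity)]
  have h3 : s / 20 / (e' * s) = Real.exp (2 * (K + |C5|)) := by
    rw [he', Real.exp_neg]
    field_simp
  rw [h3, Real.log_exp]

private theorem pt_cs {a b δ x : ℝ} (h1 : a ^ 2 ≤ x * b) (h2 : b ≤ δ ^ 2 * x) (hδ : 0 < δ)
    (hx : 0 ≤ x) : a ≤ δ * x := by
  have h3 : a ^ 2 ≤ (δ * x) ^ 2 := by
    refine h1.trans ((mul_le_mul_of_nonneg_left h2 hx).trans_eq ?_)
    ring
  exact le_of_sq_le_sq h3 (mul_nonneg hδ.le hx)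

/-- PROOF. `e = 1/20`, `P = exp (e' s)`, `Q = exp (e s)` (`Q ^ 20 = exp s`). `Ls P Q ≥ log (e / e') / 2 - C` (`Ls_bounds`): choose `e'` so that the error `C / sqrt Ls ≤ ε / 4`. By `af_conv`: `‖Af F s‖ ≤ ε/4 + (1/Ls) ∑_(w ∈ PP P Q) (1 / nm w) ‖Af F (s - log nm w)‖`.
Fix `h ≤ 1` with `C h ≤ ε / 8` (`C` of `af_lip`); for `n = ⌊(s - log nm w) / h⌋`: `‖Af F (s - log nm w)‖ ≤ ‖Af F (n h)‖ + C (h + exp (-n h / 4)) ≤ ‖Af F (n h)‖ + ε / 4` for large `s` (`s - log nm w ≥ s / 2`). The `w` with a given `n` have `log nm w` in an interval of length `h ≤ 1` above `e' s`: their mass is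
`≤ 2 C / (e' s)` (`win_mass` for two adjacent windows). So the sum is `≤ Ls ε / 4 + (2 C / (e' s)) ∑_(n ≤ s/h) ‖Af F (n h)‖ ≤ Ls ε / 4 + (2 C / (e' s)) (N)^(1/2) (ε1 N)^(1/2)`, `N = ⌊s/h⌋ + 1`, by Cauchy-Schwarz and `havg`; the last term is
`≤ (4 C / (e' h)) sqrt ε1`, small for suitable `ε1` (`h, e'` are fixed before `ε1`). -/
theorem point (F : G → ℂ) (hF : CM F)
    (havg : ∀ h : ℝ, 0 < h → ∀ ε : ℝ, 0 < ε → ∃ N0 : ℕ, ∀ N : ℕ, N0 ≤ N → ∑ n ∈ range N, ‖Af F (n * h)‖ ^ 2 ≤ ε * N)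
    (ε : ℝ) (hε : 0 < ε) : ∃ s0 : ℝ, ∀ s : ℝ, s0 ≤ s → ‖Af F s‖ ≤ ε := by
  obtain ⟨C1, hC1, hconv⟩ := af_conv
  obtain ⟨C2, hC2, hlip⟩ := af_lip
  obtain ⟨C4, hC4, hwin⟩ := win_mass
  obtain ⟨C5, hLs⟩ := Ls_bounds
  -- constants
  obtain ⟨K, hK⟩ : ∃ K : ℝ, K = max 1 ((4 * C1 / ε) ^ 2) := ⟨_, rfl⟩
  have hK1 : 1 ≤ K := by rw [hK]; exact le_max_left _ _
  have hK2 : (4 * C1 / ε) ^ 2 ≤ K := by rw [hK]; exact le_max_right _ _
  obtain ⟨e', he'⟩ : ∃ e' : ℝ, e' = 1 / 20 * Real.exp (-(2 * (K + |C5|))) := ⟨_, rfl⟩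
  have he0 : 0 < e' := by rw [he']; positivity
  have he1 : e' ≤ 1 / 20 := by
    rw [he']
    have : Real.exp (-(2 * (K + |C5|))) ≤ 1 := by
      rw [Real.exp_le_one_iff]
      have := abs_nonneg C5
      linarith only [this, hK1]
    linarith only [this]
  obtain ⟨h, hh⟩ : ∃ h : ℝ, h = min 1 (ε / (8 * C2)) := ⟨_, rfl⟩
  have hh0 : 0 < h := by rw [hh]; positivity
  have hh1 : h ≤ 1 := by rw [hh]; exact min_le_left _ _
  have hh2 : C2 * h ≤ ε / 8 := by
    have : h ≤ ε / (8 * C2) := by rw [hh]; exact min_le_right _ _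
    calc C2 * h ≤ C2 * (ε / (8 * C2)) := mul_le_mul_of_nonneg_left this hC2.le
      _ = ε / 8 := by field_simp
  obtain ⟨δ, hδ⟩ : ∃ δ : ℝ, δ = ε * e' * h / (8 * C4) := ⟨_, rfl⟩
  have hδ0 : 0 < δ := by rw [hδ]; positivity
  obtain ⟨N0, hN0⟩ := havg h hh0 (δ ^ 2) (by positivity)
  refine ⟨max (1 / e') (max (N0 * h) (-8 * Real.log (ε / (8 * C2)))), fun s hs => ?_⟩
  have s1 : 1 / e' ≤ s := (le_max_left _ _).trans hs
  have s2 : (N0 : ℝ) * h ≤ s := ((le_max_left _ _).trans (le_max_right _ _)).trans hs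
  have s3 : -8 * Real.log (ε / (8 * C2)) ≤ s := ((le_max_right _ _).trans (le_max_right _ _)).trans hs
  have s20 : 20 ≤ s := by
    refine le_trans ?_ s1
    rw [le_div_iff₀ he0]
    linarith only [he1]
  have hs0 : 0 < s := by linarith only [s20]
  have hes : 1 ≤ e' * s := by
    rw [div_le_iff₀ he0] at s1
    linarith only [s1]
  have hexp : C2 * Real.exp (-(s / 8)) ≤ ε / 8 := pt_exp hC2 hε s3
  obtain ⟨P, hP⟩ : ∃ P : ℝ, P = Real.exp (e' * s) := ⟨_, rfl⟩
  obtain ⟨Q, hQ⟩ : ∃ Q : ℝ, Q = Real.exp (s / 20) := ⟨_, rfl⟩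
  have hP2 : 2 ≤ P := by
    rw [hP]
    have := Real.add_one_le_exp (e' * s)
    linarith only [this, hes]
  have hPQ : P ≤ Q := by
    rw [hP, hQ, Real.exp_le_exp]
    have := mul_le_mul_of_nonneg_right he1 hs0.le
    linarith only [this]
  have hQ20 : Q ^ 20 ≤ Real.exp s := by
    rw [hQ, ← Real.exp_nat_mul]
    apply le_of_eq
    congr 1
    push_cast
    ring
  have hQs : Q ≤ Real.exp s := by
    rw [hQ, Real.exp_le_exp]
    linarith only [hs0]
  have hLK : K ≤ Ls P Q := by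
    have h1 := hLs P Q hP2 hPQ
    rw [hP, hQ, Real.log_exp, Real.log_exp, ← hP, ← hQ] at h1
    have h2 : Real.log (s / 20) - Real.log (e' * s) = 2 * (K + |C5|) := pt_log he' he0 hs0
    rw [h2] at h1
    have h4 := (abs_le.1 h1).1
    have h5 := le_abs_self C5
    linarith only [h4, h5]
  have hL1 : 1 ≤ Ls P Q := hK1.trans hLK
  have hL0 : 0 < Ls P Q := by linarith only [hL1]
  have hc := hconv P Q s hP2 hPQ hQ20 hL1 F hF
  have hc1 : C1 / Real.sqrt (Ls P Q) ≤ ε / 4 := by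
    have h1 : 4 * C1 / ε ≤ Real.sqrt (Ls P Q) := by
      apply Real.le_sqrt_of_sq_le
      exact hK2.trans hLK
    rw [div_le_iff₀ (Real.sqrt_pos.2 hL0)]
    rw [div_le_iff₀ hε] at h1
    linarith only [h1]
  -- the sum
  have hterm : ∀ w ∈ PP P Q, ‖(F w + F (star w)) / (nm w : ℂ) * Af F (s - Real.log (nm w))‖ ≤
      2 * (1 / (nm w : ℝ) * ‖Af F ((⌊(s - Real.log (nm w)) / h⌋₊ : ℕ) * h)‖ +
        1 / (nm w : ℝ) * (ε / 4)) := by
    intro w hw
    obtain ⟨g1, g2, g3, g4, g5⟩ := pt_mem_PP.1 hw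
    have hnm2 : 2 < nm w := by
      have : (2 : ℝ) < nm w := lt_of_le_of_lt hP2 g2
      exact_mod_cast this
    have hodd : Odd (nm w) := g3.odd_of_ne_two (by omega)
    have hpos : (0 : ℝ) < nm w := by linarith only [g2, hP2]
    have hlog : Real.log (nm w) ≤ s / 20 := by
      rw [Real.log_le_iff_le_exp hpos, ← hQ]
      exact g1
    obtain ⟨t, ht⟩ : ∃ t : ℝ, t = s - Real.log (nm w) := ⟨_, rfl⟩
    rw [← ht]
    have ht1 : 19 * s / 20 ≤ t := by rw [ht]; linarith only [hlog]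
    obtain ⟨n, hn⟩ : ∃ n : ℕ, n = ⌊t / h⌋₊ := ⟨_, rfl⟩
    rw [← hn]
    have hn0 : 0 ≤ t / h := div_nonneg (by linarith only [ht1, hs0]) hh0.le
    have k1 := Nat.floor_le hn0
    have k2 := Nat.lt_floor_add_one (t / h)
    rw [← hn] at k1 k2
    rw [le_div_iff₀ hh0] at k1
    rw [div_lt_iff₀ hh0] at k2
    have hl := hlip F hF (n * h) (t - n * h) (mul_nonneg n.cast_nonneg hh0.le)
      (by linarith only [k1]) (by linarith only [k2, hh1])
    rw [add_sub_cancel] at hl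
    have hl2 : C2 * (t - n * h + Real.exp (-(n * h / 4))) ≤ ε / 4 := by
      have h1 : C2 * (t - n * h) ≤ C2 * h :=
        mul_le_mul_of_nonneg_left (by linarith only [k2]) hC2.le
      have h2 : C2 * Real.exp (-(n * h / 4)) ≤ C2 * Real.exp (-(s / 8)) :=
        mul_le_mul_of_nonneg_left (Real.exp_le_exp.2 (by linarith only [k2, ht1, hh1, s20])) hC2.le
      linarith only [h1, h2, hh2, hexp]
    have hA : ‖Af F t‖ ≤ ‖Af F (n * h)‖ + ε / 4 := by
      have := norm_le_norm_add_norm_sub' (Af F t) (Af F (n * h))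
      linarith only [this, hl, hl2]
    have hF2 : ‖F w + F (star w)‖ ≤ 2 := by
      have h1 := hF.bd w hodd
      have h2 := hF.bd (star w) (by rw [nm_star]; exact hodd)
      have := norm_add_le (F w) (F (star w))
      linarith only [this, h1, h2]
    rw [norm_mul, norm_div, Complex.norm_natCast]
    exact pt_term hpos hF2 hA (norm_nonneg _)
  have hLsum : ∑ w ∈ PP P Q, 1 / (nm w : ℝ) * (ε / 4) = Ls P Q * (ε / 4) := by
    rw [← sum_mul]
    rfl
  obtain ⟨N, hN⟩ : ∃ N : ℕ, N = ⌊s / h⌋₊ + 1 := ⟨_, rfl⟩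
  have hNN0 : N0 ≤ N := by
    have h1 : (N0 : ℝ) ≤ s / h := by
      rw [le_div_iff₀ hh0]
      exact s2
    have h2 : N0 ≤ ⌊s / h⌋₊ := Nat.le_floor h1
    omega
  have hN2 : (N : ℝ) ≤ 2 * s / h := by
    have h1 := Nat.floor_le (div_nonneg hs0.le hh0.le)
    rw [hN]
    push_cast
    have h2 : 1 ≤ s / h := by
      rw [one_le_div hh0]
      linarith only [hh1, s20]
    have h3 : 2 * s / h = s / h + s / h := by ring
    linarith only [h1, h2, h3]
  have hgrp : ∑ w ∈ PP P Q, 1 / (nm w : ℝ) * ‖Af F ((⌊(s - Real.log (nm w)) / h⌋₊ : ℕ) * h)‖ ≤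
      C4 / (e' * s) * ∑ n ∈ range N, ‖Af F (n * h)‖ := by
    have hmaps : ∀ w ∈ PP P Q, ⌊(s - Real.log (nm w)) / h⌋₊ ∈ range N := by
      intro w hw
      obtain ⟨g1, g2, g3, g4, g5⟩ := pt_mem_PP.1 hw
      rw [mem_range, hN, Nat.lt_succ_iff]
      refine Nat.floor_le_floor (div_le_div_of_nonneg_right ?_ hh0.le)
      have : 0 ≤ Real.log (nm w) := Real.log_nonneg (by linarith only [g2, hP2])
      linarith only [this]
    rw [← sum_fiberwise_of_maps_to hmaps, mul_sum]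
    refine sum_le_sum fun n _ => ?_
    have h1 : ∑ w ∈ (PP P Q).filter (fun w => ⌊(s - Real.log (nm w)) / h⌋₊ = n),
        1 / (nm w : ℝ) * ‖Af F ((⌊(s - Real.log (nm w)) / h⌋₊ : ℕ) * h)‖ =
        (∑ w ∈ (PP P Q).filter (fun w => ⌊(s - Real.log (nm w)) / h⌋₊ = n), 1 / (nm w : ℝ)) *
          ‖Af F (n * h)‖ := by
      rw [sum_mul]
      refine sum_congr rfl fun w hw => ?_
      rw [(mem_filter.1 hw).2]
    rw [h1]
    refine mul_le_mul_of_nonneg_right ?_ (norm_nonneg _)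
    rw [hP]
    exact pt_mass hC4 hwin hes hh0 hh1 hQs n
  have hcs : ∑ n ∈ range N, ‖Af F (n * h)‖ ≤ δ * N := by
    have h1 : (∑ n ∈ range N, ‖Af F (n * h)‖) ^ 2 ≤ (N : ℝ) * ∑ n ∈ range N, ‖Af F (n * h)‖ ^ 2 := by
      have := sq_sum_le_card_mul_sum_sq (s := range N) (f := fun n : ℕ => ‖Af F (n * h)‖)
      rwa [card_range] at this
    exact pt_cs h1 (hN0 N hNN0) hδ0 N.cast_nonneg
  have hfin : C4 / (e' * s) * ∑ n ∈ range N, ‖Af F (n * h)‖ ≤ ε / 4 := by
    have h0 : 0 ≤ C4 / (e' * s) := div_nonneg hC4.le (mul_nonneg he0.le hs0.le)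
    refine (mul_le_mul_of_nonneg_left (hcs.trans (mul_le_mul_of_nonneg_left hN2 hδ0.le)) h0).trans ?_
    rw [hδ]
    exact (pt_fin hC4 he0 hs0 hh0).le
  have hsum : ‖∑ w ∈ PP P Q, (F w + F (star w)) / (nm w : ℂ) * Af F (s - Real.log (nm w))‖ ≤
      2 * (ε / 4 + Ls P Q * (ε / 4)) := by
    refine (norm_sum_le _ _).trans ((sum_le_sum hterm).trans ?_)
    rw [← mul_sum, sum_add_distrib, hLsum]
    linarith only [hgrp, hfin]
  have hlast : ‖((1 / (2 * Ls P Q) : ℝ) : ℂ) * ∑ w ∈ PP P Q, (F w + F (star w)) / (nm w : ℂ) *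
      Af F (s - Real.log (nm w))‖ ≤ ε / 2 := by
    have h0 : 0 ≤ 1 / (2 * Ls P Q) := div_nonneg zero_le_one (by linarith only [hL0])
    rw [norm_mul, Complex.norm_real, Real.norm_eq_abs, abs_of_nonneg h0]
    exact (mul_le_mul_of_nonneg_left hsum h0).trans (pt_last hL1 hε)
  have := norm_le_norm_add_norm_sub' (Af F s) (((1 / (2 * Ls P Q) : ℝ) : ℂ) * ∑ w ∈ PP P Q,
    (F w + F (star w)) / (nm w : ℂ) * Af F (s - Real.log (nm w)))
  linarith only [this, hc, hc1, hlast, hε]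

end Pool.Agent.ECM

end

/-! ### from `Lib_MP_f1a94e_mr.SecCount` -/

section

/-!
# Counting lemmas for the pieces SECOND and DROP
-/

set_option autoImplicit false

namespace Pool.Agent.GaussMR

open Finset ArithmeticFunction

/-- the number of divisors is at most `2 ^ Ω` -/
theorem tau_le_two_pow_sec (n : ℕ) (hn : n ≠ 0) : ParityQuad.tau n ≤ 2 ^ cardFactors n := by
  unfold ParityQuad.tau
  induction n using Nat.recOnMul with
  | zero => exact absurd rfl hn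
  | one => simp
  | prime p hp =>
    rw [cardFactors_apply_prime hp, Nat.Prime.divisors hp]
    exact Finset.card_le_two
  | mul a b ha hb =>
    have ha0 : a ≠ 0 := left_ne_zero_of_mul hn
    have hb0 : b ≠ 0 := right_ne_zero_of_mul hn
    rw [cardFactors_mul ha0 hb0, pow_add, Nat.divisors_mul]
    exact (Finset.card_mul_le).trans (Nat.mul_le_mul (ha ha0) (hb hb0))

/-- a prime divisor of `m ^ 2 + 1`, `m` even, is `1 mod 4` -/
theorem mod_four_sec {m p : ℕ} (hm : Even m) (hp : p.Prime) (h : p ∣ m ^ 2 + 1) : p % 4 = 1 := by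
  have : Fact p.Prime := ⟨hp⟩
  have hodd : p ≠ 2 := by
    rintro rfl
    obtain ⟨k, rfl⟩ := hm
    have h1 : (k + k) ^ 2 + 1 = 2 * (2 * k ^ 2) + 1 := by ring
    rw [h1] at h
    omega
  have h3 : p % 4 ≠ 3 := by
    have hsq : IsSquare (-1 : ZMod p) := by
      refine ⟨(m : ZMod p), ?_⟩
      have h1 : ((m ^ 2 + 1 : ℕ) : ZMod p) = 0 := (ZMod.natCast_eq_zero_iff _ _).mpr h
      push_cast at h1
      linear_combination -h1
    exact ZMod.exists_sq_eq_neg_one_iff.mp hsq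
  have h2 := hp.eq_two_or_odd
  omega

theorem N1_of_dvd_sq {m d : ℕ} (hm : Even m) (h : d ∣ m ^ 2 + 1) : N1 d := by
  refine ⟨?_, fun p hp hpd => mod_four_sec hm hp (hpd.trans h)⟩
  rintro rfl
  rw [zero_dvd_iff] at h
  omega

/-- the number of `m ≤ M` with `d ∣ m ^ 2 + 1` -/
theorem count_even_sec (M d : ℕ) (hd : d ≠ 0) :
    (((range (M + 1)).filter (fun m => Even m ∧ d ∣ m ^ 2 + 1)).card : ℝ) ≤
      2 ^ cardFactors d * (2 * M / d + 2) := by
  have h1 : (range (M + 1)).filter (fun m => Even m ∧ d ∣ m ^ 2 + 1) ⊆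
      insert 0 ((Icc 1 M).filter (fun m => d ∣ m ^ 2 + 1)) := by
    intro m hm
    rw [mem_filter, mem_range] at hm
    rw [mem_insert, mem_filter, mem_Icc]
    by_cases h0 : m = 0
    · exact Or.inl h0
    · exact Or.inr ⟨by omega, hm.2.2⟩
  have h2 : (((range (M + 1)).filter (fun m => Even m ∧ d ∣ m ^ 2 + 1)).card : ℝ) ≤
      (((Icc 1 M).filter (fun m => d ∣ m ^ 2 + 1)).card : ℝ) + 1 := by
    have := (Finset.card_le_card h1).trans (Finset.card_insert_le _ _)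
    exact_mod_cast this
  have h3 := ParityQuad.count_roots M d (Nat.pos_of_ne_zero hd)
  have h4 : (ParityQuad.tau d : ℝ) ≤ 2 ^ cardFactors d := by
    exact_mod_cast tau_le_two_pow_sec d hd
  have h5 : (1 : ℝ) ≤ 2 ^ cardFactors d := one_le_pow₀ (by norm_num)
  have h6 : (0 : ℝ) ≤ 2 * (M : ℝ) / d := by positivity
  calc (((range (M + 1)).filter (fun m => Even m ∧ d ∣ m ^ 2 + 1)).card : ℝ)
      ≤ (((Icc 1 M).filter (fun m => d ∣ m ^ 2 + 1)).card : ℝ) + 1 := h2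
    _ ≤ ParityQuad.tau d * (2 * M / d + 1) + 1 := by linarith
    _ ≤ 2 ^ cardFactors d * (2 * M / d + 1) + 2 ^ cardFactors d := by gcongr
    _ = 2 ^ cardFactors d * (2 * M / d + 2) := by ring

open Classical in
/-- interchange of summation -/
theorem swap_sum_sec (M N : ℕ) (p : ℕ → ℕ → Prop) (hp : ∀ m d, p m d → d ∣ m ^ 2 + 1 ∧ d ≤ N) :
    ∑ m ∈ (range (M + 1)).filter (fun m => Even m), (Set.ncard {d : ℕ | p m d} : ℝ) =
      ∑ d ∈ (Icc 1 N).filter N1,
        (((range (M + 1)).filter (fun m => Even m ∧ p m d)).card : ℝ) := by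
  have h1 : ∀ m ∈ (range (M + 1)).filter (fun m => Even m), Set.ncard {d : ℕ | p m d} =
      (((Icc 1 N).filter N1).filter (fun d => p m d)).card := by
    intro m hm
    rw [mem_filter] at hm
    rw [← Set.ncard_coe_finset]
    congr 1
    ext d
    rw [Set.mem_setOf_eq, Finset.mem_coe, mem_filter, mem_filter, mem_Icc]
    constructor
    · intro h
      obtain ⟨h2, h3⟩ := hp m d h
      have h4 := N1_of_dvd_sq hm.2 h2
      exact ⟨⟨⟨Nat.pos_of_ne_zero h4.1, h3⟩, h4⟩, h⟩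
    · intro h
      exact h.2
  have h2 : ∑ m ∈ (range (M + 1)).filter (fun m => Even m), Set.ncard {d : ℕ | p m d} =
      ∑ d ∈ (Icc 1 N).filter N1, ((range (M + 1)).filter (fun m => Even m ∧ p m d)).card := by
    rw [Finset.sum_congr rfl h1]
    have h3 := Finset.sum_card_bipartiteAbove_eq_sum_card_bipartiteBelow
      (s := (range (M + 1)).filter (fun m => Even m)) (t := (Icc 1 N).filter N1)
      (fun m d => p m d)
    unfold Finset.bipartiteAbove Finset.bipartiteBelow at h3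
    rw [h3]
    refine Finset.sum_congr rfl fun d _ => ?_
    rw [Finset.filter_filter]
  exact_mod_cast h2

end Pool.Agent.GaussMR

end
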