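import Mathlib
import Pool.Agent.Lib_MP_f1a94e_m.G03
import Pool.Agent.Lib_MP_f1a94e_m.G04
import Pool.Agent.Lib_MP_f1a94e_m.G17
import Pool.Agent.Lib_MP_f1a94e_m.G22
import Pool.Agent.Lib_MP_f1a94e_m.G23
import Pool.Agent.Lib_MP_f1a94e_m.G24

/-!
# MP_f1a94e_nt: merged library part G25

Concatenation of files of the libraries `Lib_MP_f1a94e_*` (each in its own section), only to save build time.
-/

/-! ### from `Lib_MP_f1a94e_lp.FewBG` -/

section

/-!
# Piece FEWBG: one step, uniformly in `f`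
-/

set_option autoImplicit false

namespace Pool.Agent.LPr

open Finset Pool.Agent.GaussMR Pool.Agent.GaussCM Pool.Agent.OmAll Pool.Agent.ECM

/-- `FG f χ` is completely multiplicative on the odd elements and bounded by one (`nm_mul`, `UF.mul`, `Chi.mul`; only `UF.mul` and `UF.bd` are used). -/
theorem cm_FG (D : ℕ) (χ : G → ℂ) (hχ : Chi D χ) (f : ℕ → ℂ) (hm : ∀ m n, f (m * n) = f m * f n) (hb : ∀ n, ‖f n‖ ≤ 1) :
    CM (FG f χ) := by
  constructor
  · intro z w _ _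
    simp only [FG]
    rw [nm_mul, hm, hχ.mul]
    ring
  · intro z _
    simp only [FG]
    rw [norm_mul]
    exact mul_le_one₀ (hb _) (norm_nonneg _) (hχ.le z)

/-- Minkowski inequality for two nonnegative functions -/
private theorem fewb_mink {ι : Type*} (S : Finset ι) (x a b : ι → ℝ) (A B : ℝ) (hA : 0 ≤ A) (hB : 0 ≤ B)
    (hx : ∀ k ∈ S, 0 ≤ x k) (h : ∀ k ∈ S, x k ≤ a k + b k)
    (hAS : ∑ k ∈ S, a k ^ 2 ≤ A ^ 2) (hBS : ∑ k ∈ S, b k ^ 2 ≤ B ^ 2) :
    ∑ k ∈ S, x k ^ 2 ≤ (A + B) ^ 2 := by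
  have h1 : ∑ k ∈ S, x k ^ 2 ≤ ∑ k ∈ S, (a k + b k) ^ 2 :=
    sum_le_sum fun k hk => pow_le_pow_left₀ (hx k hk) (h k hk) 2
  have h2 : ∑ k ∈ S, (a k + b k) ^ 2 = ∑ k ∈ S, a k ^ 2 + 2 * ∑ k ∈ S, a k * b k + ∑ k ∈ S, b k ^ 2 := by
    rw [mul_sum, ← sum_add_distrib, ← sum_add_distrib]
    exact sum_congr rfl fun k _ => by ring
  have h3 : ∑ k ∈ S, a k * b k ≤ A * B := by
    have h4 := Finset.sum_mul_sq_le_sq_mul_sq S a b
    have h5 : (∑ k ∈ S, a k * b k) ^ 2 ≤ (A * B) ^ 2 := by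
      refine h4.trans ?_
      rw [mul_pow]
      exact mul_le_mul hAS hBS (sum_nonneg fun _ _ => sq_nonneg _) (sq_nonneg _)
    exact le_of_sq_le_sq h5 (mul_nonneg hA hB)
  calc ∑ k ∈ S, x k ^ 2 ≤ ∑ k ∈ S, a k ^ 2 + 2 * ∑ k ∈ S, a k * b k + ∑ k ∈ S, b k ^ 2 := by rw [← h2]; exact h1
    _ ≤ A ^ 2 + 2 * (A * B) + B ^ 2 := by linarith
    _ = (A + B) ^ 2 := by ring

/-- the blocks are disjoint -/
private theorem fewb_sumW (P Q ρ : ℝ) (hρ : 0 < ρ) (n : ℕ) :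
    ∑ v ∈ range n, ∑ w ∈ blk P Q ρ v, 1 / (nm w : ℝ) ≤ Ls P Q := by
  classical
  rw [← sum_biUnion]
  · unfold Ls
    apply sum_le_sum_of_subset_of_nonneg
    · intro w hw
      rw [mem_biUnion] at hw
      obtain ⟨v, _, hw⟩ := hw
      exact (mem_blk.1 hw).1
    · intro w _ _
      positivity
  · intro v _ v' _ hvv
    rw [Function.onFun, disjoint_left]
    intro w hw hw'
    exact hvv (blk_unique hρ hw hw')

private theorem fewb_cm_star {F : G → ℂ} (hF : CM F) : CM (fun z => F (star z)) := by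
  refine ⟨?_, ?_⟩
  · intro z w hz hw
    show F (star (z * w)) = F (star z) * F (star w)
    rw [star_mul, hF.mul (star w) (star z) (by rw [nm_star]; exact hw) (by rw [nm_star]; exact hz), mul_comm]
  · intro z hz
    exact hF.bd (star z) (by rw [nm_star]; exact hz)

private theorem fewb_ne {P Q : ℝ} {w : G} (h : w ∈ PP P Q) : w ≠ 0 := by
  rintro rfl
  rw [mem_PP] at h
  simp at h

/-- the conjugate main term -/
private theorem fewb_UZ_star (F : G → ℂ) (P Q ρ Z : ℝ) (k : ℤ) :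
    UZC (fun z => F (star z)) P Q ρ Z (-k) = ∑ v ∈ range (nv Q ρ),
      (∑ w ∈ blk P Q ρ v, F (star w) * xi (-k) (star w)) * fcC F (Z * Real.exp (-(v * ρ))) k := by
  unfold UZC
  apply sum_congr rfl
  intro v _
  rw [fc_star]
  congr 1
  unfold UC
  apply sum_congr rfl
  intro w hw
  rw [xi_star (-k) (fewb_ne (mem_blk.1 hw).1)]

/-- the pointwise inequality -/
private theorem fewb_point (F : G → ℂ) (P Q ρ Z : ℝ) (hZ : 0 < Z) (k : ℤ) (L : ℝ) (hL : 0 ≤ L) :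
    L * ‖fcC F Z k‖ ≤ Real.exp ρ * Z * ∑ v ∈ range (nv Q ρ), (∑ w ∈ blk P Q ρ v, 1 / (nm w : ℝ)) *
        (tb F P Q ρ v k * (‖fcC F (Z * Real.exp (-(v * ρ))) k‖ / (Z * Real.exp (-(v * ρ))))) +
      (‖(L : ℂ) * fcC F Z k - UZC F P Q ρ Z k‖ +
        ‖(L : ℂ) * fcC (fun z => F (star z)) Z (-k) - UZC (fun z => F (star z)) P Q ρ Z (-k)‖) / 2 := by
  set B : ℕ → ℂ := fun v => ∑ w ∈ blk P Q ρ v, (F w * xi (-k) w + F (star w) * xi (-k) (star w)) with hB
  have h1 : (2 * (L : ℂ)) * fcC F Z k = ((L : ℂ) * fcC F Z k - UZC F P Q ρ Z k) +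
      ((L : ℂ) * fcC (fun z => F (star z)) Z (-k) - UZC (fun z => F (star z)) P Q ρ Z (-k)) +
      ∑ v ∈ range (nv Q ρ), B v * fcC F (Z * Real.exp (-(v * ρ))) k := by
    have h2 : ∑ v ∈ range (nv Q ρ), B v * fcC F (Z * Real.exp (-(v * ρ))) k =
        UZC F P Q ρ Z k + UZC (fun z => F (star z)) P Q ρ Z (-k) := by
      rw [fewb_UZ_star]
      unfold UZC
      rw [← sum_add_distrib]
      apply sum_congr rfl
      intro v _
      rw [← add_mul, hB]
      simp only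
      rw [sum_add_distrib]
      rfl
    rw [h2, fc_star]
    ring
  have h3 : ‖(2 * (L : ℂ)) * fcC F Z k‖ = 2 * (L * ‖fcC F Z k‖) := by
    rw [norm_mul, norm_mul, Complex.norm_real, Real.norm_eq_abs, abs_of_nonneg hL]
    simp
    ring
  have h4 : ∀ v, ‖B v * fcC F (Z * Real.exp (-(v * ρ))) k‖ ≤ 2 * (Real.exp ρ * Z *
      ((∑ w ∈ blk P Q ρ v, 1 / (nm w : ℝ)) *
        (tb F P Q ρ v k * (‖fcC F (Z * Real.exp (-(v * ρ))) k‖ / (Z * Real.exp (-(v * ρ))))))) := by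
    intro v
    rw [norm_mul]
    have h5 : ‖B v‖ = 2 * (blk P Q ρ v).card * tb F P Q ρ v k := by
      unfold tb
      rcases (blk P Q ρ v).eq_empty_or_nonempty with he | hne
      · simp only [hB]
        rw [he]
        simp
      · have hc : ((blk P Q ρ v).card : ℝ) ≠ 0 := by
          exact_mod_cast (card_pos.2 hne).ne'
        simp only [hB]
        field_simp
    have h6 : ((blk P Q ρ v).card : ℝ) ≤ Real.exp ((v + 1) * ρ) * ∑ w ∈ blk P Q ρ v, 1 / (nm w : ℝ) := by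
      rw [mul_sum]
      calc ((blk P Q ρ v).card : ℝ) = ∑ _w ∈ blk P Q ρ v, (1 : ℝ) := by simp
        _ ≤ _ := by
          apply sum_le_sum
          intro w hw
          have h7 := (mem_blk.1 hw).2.2
          have h8 : (0 : ℝ) < nm w := by exact_mod_cast nm_pos (fewb_ne (mem_blk.1 hw).1)
          rw [mul_one_div, le_div_iff₀ h8, one_mul]
          exact h7
    have htb : 0 ≤ tb F P Q ρ v k := by
      unfold tb
      positivity
    have h7 : Real.exp ((v + 1) * ρ) = Real.exp ρ * Z / (Z * Real.exp (-(v * ρ))) := by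
      rw [Real.exp_neg, add_mul, one_mul, Real.exp_add]
      field_simp
    rw [h5]
    calc 2 * ((blk P Q ρ v).card : ℝ) * tb F P Q ρ v k * ‖fcC F (Z * Real.exp (-(v * ρ))) k‖ ≤
          2 * (Real.exp ((v + 1) * ρ) * ∑ w ∈ blk P Q ρ v, 1 / (nm w : ℝ)) * tb F P Q ρ v k *
            ‖fcC F (Z * Real.exp (-(v * ρ))) k‖ := by
          gcongr
      _ = _ := by
          rw [h7]
          ring
  have h5 : 2 * (L * ‖fcC F Z k‖) ≤ ‖(L : ℂ) * fcC F Z k - UZC F P Q ρ Z k‖ +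
        ‖(L : ℂ) * fcC (fun z => F (star z)) Z (-k) - UZC (fun z => F (star z)) P Q ρ Z (-k)‖ +
      ∑ v ∈ range (nv Q ρ), 2 * (Real.exp ρ * Z * ((∑ w ∈ blk P Q ρ v, 1 / (nm w : ℝ)) *
        (tb F P Q ρ v k * (‖fcC F (Z * Real.exp (-(v * ρ))) k‖ / (Z * Real.exp (-(v * ρ))))))) := by
    rw [← h3, h1]
    refine (norm_add_le _ _).trans ?_
    refine add_le_add (norm_add_le _ _) ?_
    exact norm_sum_le_of_le _ (fun v _ => h4 v)
  rw [← mul_sum, ← mul_sum] at h5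
  linarith

private theorem fewb_one (c : ℝ) : 1 - c ≤ (1 - c / 2) ^ 2 := by
  have h : (1 - c / 2) ^ 2 = 1 - c + (c / 2) ^ 2 := by ring
  rw [h]
  exact le_add_of_nonneg_right (sq_nonneg _)

private theorem fewb_avg (x y : ℝ) : ((x + y) / 2) ^ 2 ≤ (x ^ 2 + y ^ 2) / 2 := by
  have h : (x ^ 2 + y ^ 2) / 2 = ((x + y) / 2) ^ 2 + ((x - y) / 2) ^ 2 := by ring
  rw [h]
  exact le_add_of_nonneg_right (sq_nonneg _)

/-- PROOF. Copy of `few_step` (ecm/FewB.lean; copy its private lemmas too) with `FL χ` replaced by `FG f χ`, `range_def` by `range_defG`, `cm_FL` by `cm_FG`. -/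
theorem few_stepG (hdr : DRange) : ∃ c C L0 δ : ℝ, 0 < c ∧ c < 1 ∧ 0 < C ∧ 0 < L0 ∧ 0 < δ ∧ ∀ (D : ℕ) (e' e : ℝ), 0 < D → 0 < e' → e' < e → e ≤ 1 / 40 →
    L0 ≤ Real.log (e / e') → ∀ P0 : ℕ, ∃ X0 : ℝ, ∀ X : ℝ, X0 ≤ X → ∀ f : ℕ → ℂ, UF P0 f → ∀ χ : G → ℂ, Chi D χ →
    ∀ ρ : ℝ, 0 < ρ → ρ ≤ 1 → X ^ (-(1 / 8 : ℝ)) ≤ ρ →
    ∀ S : Finset ℤ, (∀ k ∈ S, |(k : ℝ)| ≤ X ∧ k ≠ 0 ∧ FG f χ ii * xi (-k) ii = 1) → (S.card : ℝ) ≤ X ^ δ → (S.card : ℝ) ≤ X ^ e' →
    ∀ Z M : ℝ, X ^ (1 / 2 + e) ≤ Z → Z ≤ X → 0 ≤ M →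
    (∀ Z' : ℝ, Z * X ^ (-e) ≤ Z' → Z' ≤ Z → ∑ k ∈ S, ‖fcC (FG f χ) Z' k‖ ^ 2 ≤ M ^ 2 * Z' ^ 2) →
    ∑ k ∈ S, ‖fcC (FG f χ) Z k‖ ^ 2 ≤ ((1 - c) * Real.exp ρ * M + C * Real.sqrt (1 / Real.log (e / e') + ρ)) ^ 2 * Z ^ 2 := by
  classical
  obtain ⟨δ, C1, hδ, hC1, hstage⟩ := stage_few
  obtain ⟨c1, L1, hc1, hc11, hL1, hrange⟩ := range_defG hdr
  obtain ⟨C2, hC2⟩ := Ls_bounds
  refine ⟨c1 / 2, 2 * Real.sqrt C1, max L1 (max (4 * C2) 4), δ, by positivity, by linarith, by positivity,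
    lt_of_lt_of_le hL1 (le_max_left _ _), hδ, ?_⟩
  intro D e' e hD he' hee he hL P0
  have hLL1 : L1 ≤ Real.log (e / e') := (le_max_left _ _).trans hL
  have hLL2 : 4 * C2 ≤ Real.log (e / e') := ((le_max_left _ _).trans (le_max_right _ _)).trans hL
  have hLL3 : 4 ≤ Real.log (e / e') := ((le_max_right _ _).trans (le_max_right _ _)).trans hL
  have he0 : 0 < e := by linarith
  obtain ⟨X1, hX1⟩ := hstage e' e he' hee he
  obtain ⟨X2, hX2⟩ := hrange D e' e hD he' hee (by linarith) hLL1 P0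
  obtain ⟨X3, hX3⟩ := Filter.eventually_atTop.1 ((tendsto_rpow_atTop he').eventually_ge_atTop (2 : ℝ))
  refine ⟨max (max X1 X2) (max X3 2), ?_⟩
  intro X hX f hf χ hχ ρ hρ0 hρ1 hρX S hS hcard hcard' Z M hZ1 hZ2 hM hmain
  have hXX1 : X1 ≤ X := ((le_max_left _ _).trans (le_max_left _ _)).trans hX
  have hXX2 : X2 ≤ X := ((le_max_right _ _).trans (le_max_left _ _)).trans hX
  have hXX3 : X3 ≤ X := ((le_max_left _ _).trans (le_max_right _ _)).trans hX
  have hXX4 : 2 ≤ X := ((le_max_right _ _).trans (le_max_right _ _)).trans hX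
  have hX1' : 1 < X := by linarith
  have hX0' : 0 < X := by linarith
  have hP2 : 2 ≤ X ^ e' := hX3 X hXX3
  have hPQ : X ^ e' ≤ X ^ e := Real.rpow_le_rpow_of_exponent_le hX1'.le hee.le
  set P := X ^ e' with hP
  set Q := X ^ e with hQ
  set L := Ls P Q with hLdef
  have hlogX : 0 < Real.log X := Real.log_pos hX1'
  have hLlow : Real.log (e / e') / 4 ≤ L := by
    have h1 := hC2 P Q hP2 hPQ
    have h2 : Real.log (Real.log Q) - Real.log (Real.log P) = Real.log (e / e') := by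
      rw [hP, hQ, Real.log_rpow hX0', Real.log_rpow hX0', Real.log_mul he0.ne' hlogX.ne',
        Real.log_mul he'.ne' hlogX.ne', Real.log_div he0.ne' he'.ne']
      ring
    rw [h2, abs_le] at h1
    linarith [h1.1]
  have hL1' : 1 ≤ L := by linarith
  have hL0 : 0 < L := by linarith
  have hZ0 : 0 < Z := lt_of_lt_of_le (Real.rpow_pos_of_pos hX0' _) hZ1
  have hZhalf : X ^ (1 / 2 : ℝ) ≤ Z :=
    (Real.rpow_le_rpow_of_exponent_le hX1'.le (by linarith)).trans hZ1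
  have hF := cm_FG D χ hχ f hf.mul hf.bd
  set F := FG f χ with hFdef
  -- the errors
  have herr1 := hX1 X hXX1 F hF ρ Z hρ0 hρ1 hρX hZhalf hZ2 hL1' S (fun k hk => (hS k hk).1) hcard hcard'
  have herr2 := hX1 X hXX1 (fun z => F (star z)) (fewb_cm_star hF) ρ Z hρ0 hρ1 hρX hZhalf hZ2 hL1'
    (S.image (fun k => -k)) (by
      intro k hk
      rw [mem_image] at hk
      obtain ⟨j, hj, rfl⟩ := hk
      push_cast
      rw [abs_neg]
      exact (hS j hj).1) (le_trans (by exact_mod_cast card_image_le) hcard)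
      (le_trans (by exact_mod_cast card_image_le) hcard')
  rw [sum_image (fun a _ b _ h => neg_injective h)] at herr2
  set E1 : ℤ → ℝ := fun k => ‖(L : ℂ) * fcC F Z k - UZC F P Q ρ Z k‖ with hE1
  set E2 : ℤ → ℝ := fun k => ‖(L : ℂ) * fcC (fun z => F (star z)) Z (-k) -
    UZC (fun z => F (star z)) P Q ρ Z (-k)‖ with hE2
  set T : ℝ := Real.log (e / e') with hT
  have hT0 : 0 < T := by linarith
  -- the main term
  set W : ℕ → ℝ := fun v => ∑ w ∈ blk P Q ρ v, 1 / (nm w : ℝ) with hW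
  have hW0 : ∀ v, 0 ≤ W v := fun v => sum_nonneg fun w _ => by positivity
  set g : ℕ → ℤ → ℝ := fun v k => ‖fcC F (Z * Real.exp (-(v * ρ))) k‖ / (Z * Real.exp (-(v * ρ))) with hg
  have hg0 : ∀ v k, 0 ≤ g v k := fun v k => by
    simp only [hg]
    positivity
  set a : ℤ → ℝ := fun k => Real.exp ρ * Z * ∑ v ∈ range (nv Q ρ), W v * (tb F P Q ρ v k * g v k) with ha
  set b : ℤ → ℝ := fun k => (E1 k + E2 k) / 2 with hb
  have hpt : ∀ k ∈ S, L * ‖fcC F Z k‖ ≤ a k + b k := fun k _ =>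
    fewb_point F P Q ρ Z hZ0 k L hL0.le
  have hgM : ∀ v ∈ range (nv Q ρ), W v * ∑ k ∈ S, g v k ^ 2 ≤ W v * M ^ 2 := by
    intro v _
    rcases (blk P Q ρ v).eq_empty_or_nonempty with hemp | ⟨w, hw⟩
    · have : W v = 0 := by
        simp only [hW]
        rw [hemp, sum_empty]
      rw [this, zero_mul, zero_mul]
    · apply mul_le_mul_of_nonneg_left _ (hW0 v)
      have hw1 := (mem_blk.1 hw).2.1
      have hw2 := (mem_PP.1 (mem_blk.1 hw).1).2.1
      have hexpv : Real.exp (v * ρ) ≤ Q := by linarith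
      have hZv : Z * X ^ (-e) ≤ Z * Real.exp (-(v * ρ)) := by
        apply mul_le_mul_of_nonneg_left _ hZ0.le
        rw [Real.rpow_neg hX0'.le, Real.exp_neg]
        exact inv_anti₀ (Real.exp_pos _) hexpv
      have hZv2 : Z * Real.exp (-(v * ρ)) ≤ Z := by
        have : Real.exp (-(v * ρ)) ≤ 1 := by
          rw [Real.exp_le_one_iff]
          have : 0 ≤ (v : ℝ) * ρ := by positivity
          linarith only [this]
        exact mul_le_of_le_one_right hZ0.le this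
      have h1 := hmain _ hZv hZv2
      have hpos : 0 < Z * Real.exp (-(v * ρ)) := by positivity
      calc ∑ k ∈ S, g v k ^ 2 = (∑ k ∈ S, ‖fcC F (Z * Real.exp (-(v * ρ))) k‖ ^ 2) /
            (Z * Real.exp (-(v * ρ))) ^ 2 := by
            rw [sum_div]
            apply sum_congr rfl
            intro k _
            simp only [hg]
            rw [div_pow]
        _ ≤ M ^ 2 := by
            rw [div_le_iff₀ (by positivity)]
            exact h1
  have hcs : ∀ k ∈ S, (∑ v ∈ range (nv Q ρ), W v * (tb F P Q ρ v k * g v k)) ^ 2 ≤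
      ((1 - c1) * L) * ∑ v ∈ range (nv Q ρ), W v * g v k ^ 2 := by
    intro k hk
    obtain ⟨hk1, hk2, hk3⟩ := hS k hk
    have h1 := hX2 X hXX2 f hf χ hχ k hk2 hk1 hk3 ρ hρ0 hρ1
    have h2 := Finset.sum_mul_sq_le_sq_mul_sq (range (nv Q ρ))
      (fun v => Real.sqrt (W v) * tb F P Q ρ v k) (fun v => Real.sqrt (W v) * g v k)
    have h3 : ∑ v ∈ range (nv Q ρ), (Real.sqrt (W v) * tb F P Q ρ v k) * (Real.sqrt (W v) * g v k) =
        ∑ v ∈ range (nv Q ρ), W v * (tb F P Q ρ v k * g v k) := by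
      apply sum_congr rfl
      intro v _
      have h4 := Real.mul_self_sqrt (hW0 v)
      calc (Real.sqrt (W v) * tb F P Q ρ v k) * (Real.sqrt (W v) * g v k) =
            (Real.sqrt (W v) * Real.sqrt (W v)) * (tb F P Q ρ v k * g v k) := by ring
        _ = _ := by rw [h4]
    have h4 : ∑ v ∈ range (nv Q ρ), (Real.sqrt (W v) * tb F P Q ρ v k) ^ 2 =
        ∑ v ∈ range (nv Q ρ), W v * tb F P Q ρ v k ^ 2 := by
      apply sum_congr rfl
      intro v _
      rw [mul_pow, Real.sq_sqrt (hW0 v)]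
    have h5 : ∑ v ∈ range (nv Q ρ), (Real.sqrt (W v) * g v k) ^ 2 =
        ∑ v ∈ range (nv Q ρ), W v * g v k ^ 2 := by
      apply sum_congr rfl
      intro v _
      rw [mul_pow, Real.sq_sqrt (hW0 v)]
    rw [h3, h4, h5] at h2
    refine h2.trans ?_
    apply mul_le_mul_of_nonneg_right h1
    exact sum_nonneg fun v _ => mul_nonneg (hW0 v) (sq_nonneg _)
  have haS : ∑ k ∈ S, a k ^ 2 ≤ (Real.exp ρ * Z * ((1 - c1 / 2) * L * M)) ^ 2 := by
    have h1 : ∑ k ∈ S, a k ^ 2 = (Real.exp ρ * Z) ^ 2 *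
        ∑ k ∈ S, (∑ v ∈ range (nv Q ρ), W v * (tb F P Q ρ v k * g v k)) ^ 2 := by
      rw [mul_sum]
      apply sum_congr rfl
      intro k _
      simp only [ha]
      rw [mul_pow]
    have h2 : ∑ k ∈ S, (∑ v ∈ range (nv Q ρ), W v * (tb F P Q ρ v k * g v k)) ^ 2 ≤
        ((1 - c1) * L) * (L * M ^ 2) := by
      calc ∑ k ∈ S, (∑ v ∈ range (nv Q ρ), W v * (tb F P Q ρ v k * g v k)) ^ 2 ≤
            ∑ k ∈ S, ((1 - c1) * L) * ∑ v ∈ range (nv Q ρ), W v * g v k ^ 2 := sum_le_sum hcs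
        _ = ((1 - c1) * L) * ∑ v ∈ range (nv Q ρ), W v * ∑ k ∈ S, g v k ^ 2 := by
            rw [← mul_sum, sum_comm]
            congr 1
            apply sum_congr rfl
            intro v _
            rw [mul_sum]
        _ ≤ ((1 - c1) * L) * ∑ v ∈ range (nv Q ρ), W v * M ^ 2 := by
            apply mul_le_mul_of_nonneg_left (sum_le_sum hgM)
            have : 0 ≤ 1 - c1 := by linarith
            positivity
        _ = ((1 - c1) * L) * ((∑ v ∈ range (nv Q ρ), W v) * M ^ 2) := by rw [sum_mul]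
        _ ≤ ((1 - c1) * L) * (L * M ^ 2) := by
            apply mul_le_mul_of_nonneg_left
            · apply mul_le_mul_of_nonneg_right _ (sq_nonneg M)
              exact fewb_sumW P Q ρ hρ0 _
            · have : 0 ≤ 1 - c1 := by linarith
              positivity
    rw [h1, mul_pow (Real.exp ρ * Z) ((1 - c1 / 2) * L * M) 2]
    apply mul_le_mul_of_nonneg_left _ (sq_nonneg _)
    refine h2.trans ?_
    have h3 : 1 - c1 ≤ (1 - c1 / 2) ^ 2 := fewb_one c1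
    calc ((1 - c1) * L) * (L * M ^ 2) = (1 - c1) * (L * M) ^ 2 := by ring
      _ ≤ (1 - c1 / 2) ^ 2 * (L * M) ^ 2 := mul_le_mul_of_nonneg_right h3 (sq_nonneg _)
      _ = _ := by ring
  have hbS : ∑ k ∈ S, b k ^ 2 ≤ (2 * Real.sqrt C1 * Z * L * Real.sqrt (1 / T + ρ)) ^ 2 := by
    have h1 : ∑ k ∈ S, b k ^ 2 ≤ ∑ k ∈ S, (E1 k ^ 2 + E2 k ^ 2) / 2 := by
      apply sum_le_sum
      intro k _
      simp only [hb]
      exact fewb_avg (E1 k) (E2 k)
    have h2 : ∑ k ∈ S, (E1 k ^ 2 + E2 k ^ 2) / 2 = (∑ k ∈ S, E1 k ^ 2 + ∑ k ∈ S, E2 k ^ 2) / 2 := by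
      rw [← sum_add_distrib, sum_div]
    have h3 : (∑ k ∈ S, E1 k ^ 2 + ∑ k ∈ S, E2 k ^ 2) / 2 ≤ C1 * Z ^ 2 * L ^ 2 * (1 / L + ρ) := by
      have h4 : ∑ k ∈ S, E1 k ^ 2 ≤ C1 * Z ^ 2 * L ^ 2 * (1 / L + ρ) := herr1
      have h5 : ∑ k ∈ S, E2 k ^ 2 ≤ C1 * Z ^ 2 * L ^ 2 * (1 / L + ρ) := herr2
      linarith
    have h4 : 1 / L + ρ ≤ 4 * (1 / T + ρ) := by
      have h5 : 1 / L ≤ 4 * (1 / T) := by
        rw [mul_one_div, div_le_div_iff₀ hL0 hT0]
        linarith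
      linarith
    have h5 : (2 * Real.sqrt C1 * Z * L * Real.sqrt (1 / T + ρ)) ^ 2 =
        C1 * Z ^ 2 * L ^ 2 * (4 * (1 / T + ρ)) := by
      have h6 : 0 ≤ 1 / T + ρ := by positivity
      calc (2 * Real.sqrt C1 * Z * L * Real.sqrt (1 / T + ρ)) ^ 2 =
            4 * (Real.sqrt C1) ^ 2 * Z ^ 2 * L ^ 2 * (Real.sqrt (1 / T + ρ)) ^ 2 := by ring
        _ = _ := by
          rw [Real.sq_sqrt hC1.le, Real.sq_sqrt h6]
          ring
    rw [h5]
    refine h1.trans (le_trans (le_of_eq h2) (h3.trans ?_))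
    exact mul_le_mul_of_nonneg_left h4 (by positivity)
  have hfin := fewb_mink S (fun k => L * ‖fcC F Z k‖) a b _ _
    (by
      have : 0 ≤ 1 - c1 / 2 := by linarith
      positivity : 0 ≤ Real.exp ρ * Z * ((1 - c1 / 2) * L * M))
    (by positivity : 0 ≤ 2 * Real.sqrt C1 * Z * L * Real.sqrt (1 / T + ρ))
    (fun k _ => mul_nonneg hL0.le (norm_nonneg _)) hpt haS hbS
  have h1 : ∑ k ∈ S, (L * ‖fcC F Z k‖) ^ 2 = L ^ 2 * ∑ k ∈ S, ‖fcC F Z k‖ ^ 2 := by
    rw [mul_sum]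
    apply sum_congr rfl
    intro k _
    rw [mul_pow]
  have h2 : L ^ 2 * ∑ k ∈ S, ‖fcC F Z k‖ ^ 2 ≤ L ^ 2 * (((1 - c1 / 2) * Real.exp ρ * M +
      2 * Real.sqrt C1 * Real.sqrt (1 / T + ρ)) ^ 2 * Z ^ 2) := by
    rw [← h1]
    refine hfin.trans (le_of_eq ?_)
    ring
  exact le_of_mul_le_mul_left h2 (by positivity)

end Pool.Agent.LPr

end

/-! ### from `Lib_MP_f1a94e_lp.FewCG` -/

section

/-!
# Piece FEWCG: few frequencies carry little, uniformly in `f`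
-/

set_option autoImplicit false

namespace Pool.Agent.LPr

open Finset Pool.Agent.GaussMR Pool.Agent.GaussCM Pool.Agent.OmAll Pool.Agent.ECM

/-- values of `FG f χ` are bounded by one -/
private theorem fewcG_norm {D : ℕ} {χ : G → ℂ} (hχ : Chi D χ) {f : ℕ → ℂ} (hb : ∀ n, ‖f n‖ ≤ 1) (z : G) :
    ‖FG f χ z‖ ≤ 1 := by
  unfold FG
  rw [norm_mul]
  have h1 := hb (nm z)
  have h2 := hχ.le z
  have h3 := norm_nonneg (f (nm z))
  have h4 := norm_nonneg (χ z)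
  nlinarith

/-- the starting bound -/
private theorem fewcG_start : ∃ δ M0 X0 : ℝ, 0 < δ ∧ 0 < M0 ∧ ∀ X : ℝ, X0 ≤ X → ∀ F : G → ℂ, (∀ z, ‖F z‖ ≤ 1) →
    ∀ S : Finset ℤ, (∀ k ∈ S, |(k : ℝ)| ≤ X) → (S.card : ℝ) ≤ X ^ δ → ∀ Z : ℝ, X ^ (1 / 2 : ℝ) ≤ Z →
    ∑ k ∈ S, ‖fcC F Z k‖ ^ 2 ≤ M0 ^ 2 * Z ^ 2 := by
  obtain ⟨δ, C, X0, hδ, hC, h⟩ := orth
  refine ⟨δ, 3 * Real.sqrt C, max X0 0, hδ, by positivity, ?_⟩
  intro X hX F hF S hS hcard Z hZ
  have hX0 : X0 ≤ X := (le_max_left _ _).trans hX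
  have hXn : 0 ≤ X := (le_max_right _ _).trans hX
  have hZ0 : 0 ≤ Z := (Real.rpow_nonneg hXn _).trans hZ
  have h1 := h X Z hX0 hZ S hS hcard F
  have h2 : ∑ z ∈ V Z, ‖F z‖ ^ 2 ≤ 9 * Z := by
    calc ∑ z ∈ V Z, ‖F z‖ ^ 2 ≤ ∑ _z ∈ V Z, (1 : ℝ) := by
          apply sum_le_sum
          intro z _
          have h3 := hF z
          have h4 := norm_nonneg (F z)
          nlinarith
      _ = ((V Z).card : ℝ) := by simp
      _ ≤ 9 * Z := card_V_le Z hZ0
  calc ∑ k ∈ S, ‖fcC F Z k‖ ^ 2 ≤ C * Z * ∑ z ∈ V Z, ‖F z‖ ^ 2 := h1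
    _ ≤ C * Z * (9 * Z) := mul_le_mul_of_nonneg_left h2 (by positivity)
    _ = (3 * Real.sqrt C) ^ 2 * Z ^ 2 := by
      rw [mul_pow, Real.sq_sqrt hC.le]
      ring

/-- PROOF. Copy of `few_main` (ecm/FewC.lean; copy its private lemmas too) with `FL χ` replaced by `FG f χ`, `few_step` by `few_stepG`, `cm_FL` by `cm_FG`; `fewc_start` only uses `‖F z‖ ≤ 1`. All constants are independent of `f`. -/
theorem few_mainG (hdr : DRange) (D : ℕ) (hD : 0 < D) (P0 : ℕ) (ε : ℝ) (hε : 0 < ε) : ∃ δ X0 : ℝ, 0 < δ ∧ ∀ X : ℝ, X0 ≤ X →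
    ∀ f : ℕ → ℂ, UF P0 f → ∀ χ : G → ℂ, Chi D χ →
    ∀ S : Finset ℤ, (∀ k ∈ S, |(k : ℝ)| ≤ X ∧ k ≠ 0) → (S.card : ℝ) ≤ X ^ δ →
    ∑ k ∈ S, ‖fcC (FG f χ) X k‖ ^ 2 ≤ ε * X ^ 2 := by
  classical
  obtain ⟨c, C, L0, δ0, hc0, hc1, hC, hL0, hδ0, hstep⟩ := few_stepG hdr
  obtain ⟨δ1, M0, X1, hδ1, hM0, hstart⟩ := fewcG_start
  -- the parameters
  set lam : ℝ := 1 - c / 2 with hlam
  have hlam0 : 0 < lam := by rw [hlam]; linarith
  have hlam1 : lam < 1 := by rw [hlam]; linarith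
  have hratio : 1 < lam / (1 - c) := by
    rw [lt_div_iff₀ (by linarith), hlam]
    linarith
  set ρ : ℝ := min 1 (min (Real.log (lam / (1 - c))) (c ^ 2 * ε / (32 * C ^ 2))) with hρ
  have hρ0 : 0 < ρ := by
    rw [hρ]
    refine lt_min one_pos (lt_min (Real.log_pos hratio) (by positivity))
  have hρ1 : ρ ≤ 1 := min_le_left _ _
  have hρ2 : ρ ≤ Real.log (lam / (1 - c)) := (min_le_right _ _).trans (min_le_left _ _)
  have hρ3 : ρ ≤ c ^ 2 * ε / (32 * C ^ 2) := (min_le_right _ _).trans (min_le_right _ _)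
  have hexp : (1 - c) * Real.exp ρ ≤ lam := by
    have h1 : Real.exp ρ ≤ lam / (1 - c) := by
      rw [← Real.exp_log (by linarith : 0 < lam / (1 - c))]
      exact Real.exp_le_exp.2 hρ2
    rw [le_div_iff₀ (by linarith)] at h1
    linarith
  set K : ℝ := C * Real.sqrt (2 * ρ) with hK
  have hK0 : 0 ≤ K := by positivity
  have hK1 : K * (2 / c) ≤ Real.sqrt ε / 2 := by
    have h1 : Real.sqrt (2 * ρ) ≤ c * Real.sqrt ε / (4 * C) := by
      rw [Real.sqrt_le_left (by positivity)]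
      have h2 : (c * Real.sqrt ε / (4 * C)) ^ 2 = c ^ 2 * ε / (16 * C ^ 2) := by
        rw [div_pow, mul_pow, Real.sq_sqrt hε.le]
        ring
      rw [h2]
      have h3 : c ^ 2 * ε / (16 * C ^ 2) = 2 * (c ^ 2 * ε / (32 * C ^ 2)) := by
        field_simp
        norm_num
      rw [h3]
      linarith
    have h2 : K * (2 / c) ≤ C * (c * Real.sqrt ε / (4 * C)) * (2 / c) := by
      rw [hK]
      gcongr
    have h3 : C * (c * Real.sqrt ε / (4 * C)) * (2 / c) = Real.sqrt ε / 2 := by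
      field_simp
      norm_num
    linarith
  obtain ⟨r0, hr0⟩ := exists_pow_lt_of_lt_one (show 0 < Real.sqrt ε / (2 * M0) by positivity) hlam1
  set r : ℕ := r0 + 1 with hr
  have hrpow : lam ^ r * M0 ≤ Real.sqrt ε / 2 := by
    have h1 : lam ^ r ≤ lam ^ r0 := pow_le_pow_of_le_one hlam0.le hlam1.le (by omega)
    have h2 : lam ^ r ≤ Real.sqrt ε / (2 * M0) := h1.trans hr0.le
    rw [le_div_iff₀ (by positivity)] at h2
    linarith
  have hr1 : (1 : ℝ) ≤ r := by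
    rw [hr]
    push_cast
    linarith [Nat.cast_nonneg (α := ℝ) r0]
  set e : ℝ := 1 / (40 * r) with he
  have he0 : 0 < e := by positivity
  have he1 : e ≤ 1 / 40 := by
    rw [he]
    apply one_div_le_one_div_of_le (by norm_num)
    linarith
  set T : ℝ := max L0 (1 / ρ) with hT
  have hT1 : L0 ≤ T := le_max_left _ _
  have hT2 : 1 / ρ ≤ T := le_max_right _ _
  have hT0 : 0 < T := lt_of_lt_of_le hL0 hT1
  set e' : ℝ := e * Real.exp (-T) with he'
  have he'0 : 0 < e' := by positivity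
  have hlog : Real.log (e / e') = T := by
    rw [he']
    have h1 : e / (e * Real.exp (-T)) = Real.exp T := by
      rw [Real.exp_neg]
      field_simp
    rw [h1, Real.log_exp]
  have he'e : e' < e := by
    rw [he']
    have h1 : Real.exp (-T) < 1 := by
      rw [Real.exp_lt_one_iff]
      linarith
    nlinarith
  obtain ⟨X2, hX2⟩ := hstep D e' e hD he'0 he'e he1 (by rw [hlog]; exact hT1) P0
  have hev : ∀ᶠ X : ℝ in Filter.atTop, X ^ (-(1 / 8 : ℝ)) < ρ :=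
    (tendsto_rpow_neg_atTop (by norm_num : (0 : ℝ) < 1 / 8)).eventually (gt_mem_nhds hρ0)
  obtain ⟨X3, hX3⟩ := Filter.eventually_atTop.1 hev
  refine ⟨min δ0 (min e' δ1), max (max X1 X2) (max X3 1), ?_, ?_⟩
  · exact lt_min hδ0 (lt_min he'0 hδ1)
  intro X hX f hf χ hχ S hS hcard
  have hXX1 : X1 ≤ X := ((le_max_left _ _).trans (le_max_left _ _)).trans hX
  have hXX2 : X2 ≤ X := ((le_max_right _ _).trans (le_max_left _ _)).trans hX
  have hXX3 : X3 ≤ X := ((le_max_left _ _).trans (le_max_right _ _)).trans hX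
  have hXone : 1 ≤ X := ((le_max_right _ _).trans (le_max_right _ _)).trans hX
  have hXpos : 0 < X := by linarith
  have hρX : X ^ (-(1 / 8 : ℝ)) ≤ ρ := (hX3 X hXX3).le
  -- the restricted set
  set S' : Finset ℤ := S.filter (fun k => FG f χ ii * xi (-k) ii = 1) with hS'
  have hsub : S' ⊆ S := filter_subset _ _
  have hsum : ∑ k ∈ S, ‖fcC (FG f χ) X k‖ ^ 2 = ∑ k ∈ S', ‖fcC (FG f χ) X k‖ ^ 2 := by
    symm
    apply sum_subset hsub
    intro k hk hk'
    have h1 : FG f χ ii * xi (-k) ii ≠ 1 := by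
      intro h
      exact hk' (mem_filter.2 ⟨hk, h⟩)
    rw [fc_unit (FG f χ) (cm_FG D χ hχ f hf.mul hf.bd) X k h1]
    simp
  have hcard' : ∀ d : ℝ, min δ0 (min e' δ1) ≤ d → (S'.card : ℝ) ≤ X ^ d := by
    intro d hd
    calc (S'.card : ℝ) ≤ S.card := by exact_mod_cast card_le_card hsub
      _ ≤ X ^ (min δ0 (min e' δ1)) := hcard
      _ ≤ X ^ d := Real.rpow_le_rpow_of_exponent_le hXone hd
  have hc2 := hcard' δ0 (min_le_left _ _)
  have hc3 := hcard' e' ((min_le_right _ _).trans (min_le_left _ _))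
  have hc4 := hcard' δ1 ((min_le_right _ _).trans (min_le_right _ _))
  have hmem : ∀ k ∈ S', |(k : ℝ)| ≤ X ∧ k ≠ 0 ∧ FG f χ ii * xi (-k) ii = 1 := by
    intro k hk
    rw [hS', mem_filter] at hk
    exact ⟨(hS k hk.1).1, (hS k hk.1).2, hk.2⟩
  -- induction
  have hind : ∀ j : ℕ, ∀ Z : ℝ, X ^ (1 / 2 + j * e) ≤ Z → Z ≤ X →
      ∑ k ∈ S', ‖fcC (FG f χ) Z k‖ ^ 2 ≤ (lam ^ j * M0 + K * (2 / c)) ^ 2 * Z ^ 2 := by
    intro j
    induction j with
    | zero =>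
      intro Z hZ _
      have h1 := hstart X hXX1 (FG f χ) (fewcG_norm hχ hf.bd) S' (fun k hk => (hmem k hk).1) hc4 Z (by
        rw [Nat.cast_zero, zero_mul, add_zero] at hZ
        exact hZ)
      refine h1.trans ?_
      apply mul_le_mul_of_nonneg_right _ (sq_nonneg Z)
      apply pow_le_pow_left₀ hM0.le
      rw [pow_zero, one_mul]
      have : 0 ≤ K * (2 / c) := by positivity
      linarith
    | succ j ih =>
      intro Z hZ hZX
      have hZ0 : 0 < Z := lt_of_lt_of_le (Real.rpow_pos_of_pos hXpos _) hZ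
      have h1 := hX2 X hXX2 f hf χ hχ ρ hρ0 hρ1 hρX S' hmem hc2 hc3 Z (lam ^ j * M0 + K * (2 / c)) (by
        refine le_trans ?_ hZ
        apply Real.rpow_le_rpow_of_exponent_le hXone
        push_cast
        have : 0 ≤ (j : ℝ) * e := by positivity
        linarith) hZX (by positivity) (by
        intro Z' hZ1 hZ2
        apply ih Z' _ (hZ2.trans hZX)
        refine le_trans ?_ hZ1
        calc X ^ (1 / 2 + (j : ℝ) * e) = X ^ (1 / 2 + ((j + 1 : ℕ) : ℝ) * e) * X ^ (-e) := by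
              rw [← Real.rpow_add hXpos]
              congr 1
              push_cast
              ring
          _ ≤ Z * X ^ (-e) := mul_le_mul_of_nonneg_right hZ (Real.rpow_nonneg hXpos.le _))
      refine h1.trans ?_
      apply mul_le_mul_of_nonneg_right _ (sq_nonneg Z)
      apply pow_le_pow_left₀
      · have : 0 ≤ 1 - c := by linarith
        positivity
      · rw [hlog]
        have h2 : (1 - c) * Real.exp ρ * (lam ^ j * M0 + K * (2 / c)) ≤
            lam * (lam ^ j * M0 + K * (2 / c)) :=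
          mul_le_mul_of_nonneg_right hexp (by positivity)
        have h3 : C * Real.sqrt (1 / T + ρ) ≤ K := by
          rw [hK]
          apply mul_le_mul_of_nonneg_left _ hC.le
          apply Real.sqrt_le_sqrt
          have h4 : 1 / T ≤ ρ := by
            rw [div_le_iff₀ hT0]
            rw [div_le_iff₀ hρ0] at hT2
            linarith
          linarith
        have h4 : lam * (lam ^ j * M0 + K * (2 / c)) + K = lam ^ (j + 1) * M0 + K * (2 / c) := by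
          rw [pow_succ, hlam]
          field_simp
          ring
        linarith
  have hfin := hind r X (by
    have h1 : X ^ (1 / 2 + (r : ℝ) * e) ≤ X ^ (1 : ℝ) := by
      apply Real.rpow_le_rpow_of_exponent_le hXone
      have h2 : (r : ℝ) * e = 1 / 40 := by
        rw [he]
        field_simp
      rw [h2]
      norm_num
    rwa [Real.rpow_one] at h1) (le_refl _)
  rw [hsum]
  refine hfin.trans ?_
  apply mul_le_mul_of_nonneg_right _ (sq_nonneg X)
  have h1 : lam ^ r * M0 + K * (2 / c) ≤ Real.sqrt ε := by linarith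
  calc (lam ^ r * M0 + K * (2 / c)) ^ 2 ≤ (Real.sqrt ε) ^ 2 := by
        apply pow_le_pow_left₀ (by positivity) h1
    _ = ε := Real.sq_sqrt hε.le

end Pool.Agent.LPr

end

/-! ### from `Lib_MP_f1a94e_lp.MarcFG` -/

section

/-!
# Piece MARCFG: variance of the sums over arcs for `FG f χ`, uniformly in `f` and `χ`
-/

set_option autoImplicit false

namespace Pool.Agent.LPr

open Finset Pool.Agent.GaussMR Pool.Agent.GaussCM Pool.Agent.OmAll Pool.Agent.ECM MeasureTheory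

/-- PROOF. Copy of `marc_final` (ecm/MarcFin.lean): `few_mainG` for `ε / 4` gives `δ` and `X4`, `chainC (ε / 4) δ` gives `Q0` and `X6` (independent of `F`), `H0` depends on `C`, `Q0`, `ε` only; `marc_nz` instead of `marc`, the low frequencies are now
`∑_((fr T).erase 0) ≤ ∑_(fr T \ S) + ∑_(S.erase 0) ≤ 2 (ε / 4) X²`; no zero frequency. `CM (FG f χ)` by `cm_FG`. -/
theorem marc_finG (D : ℕ) (hD : 0 < D) (P0 : ℕ) (ε : ℝ) (hε : 0 < ε) : ∃ H0 : ℝ, 0 < H0 ∧ ∀ H : ℝ, H0 ≤ H → ∃ X0 : ℝ, ∀ X : ℝ, X0 ≤ X →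
    ∀ f : ℕ → ℂ, UF P0 f → ∀ χ : G → ℂ, Chi D χ →
    ∫ θ in (0 : ℝ)..(2 * Real.pi), ‖arcS (FG f χ) X (H / X) θ - ((H / X / (2 * Real.pi) : ℝ) : ℂ) * fcC (FG f χ) X 0‖ ^ 2 ≤ ε * H ^ 2 := by
  classical
  obtain ⟨C, hC, hmarc⟩ := marc_nz
  obtain ⟨δ, X4, hδ, hfew⟩ := few_mainG deficit_range D hD P0 (ε / 4) (by positivity)
  obtain ⟨Q0, X6, hQ0, hchain⟩ := chainC (ε / 4) δ (by positivity) hδ
  have hQpos : 0 < Q0 := by linarith
  refine ⟨Real.sqrt (C * (2 * Q0 + (2 * Q0) ^ 2) / (ε / 4)) + 1, by positivity, fun H hH => ?_⟩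
  have hH1 : Real.sqrt (C * (2 * Q0 + (2 * Q0) ^ 2) / (ε / 4)) ≤ H := by linarith
  have hHpos : 0 < H := by
    have := Real.sqrt_nonneg (C * (2 * Q0 + (2 * Q0) ^ 2) / (ε / 4))
    linarith
  have hH2 : C * (2 * Q0 + (2 * Q0) ^ 2) ≤ ε / 4 * H ^ 2 := by
    have h1 := Real.sq_sqrt (show 0 ≤ C * (2 * Q0 + (2 * Q0) ^ 2) / (ε / 4) by positivity)
    have h2 : C * (2 * Q0 + (2 * Q0) ^ 2) / (ε / 4) ≤ H ^ 2 := by
      rw [← h1]
      exact pow_le_pow_left₀ (Real.sqrt_nonneg _) hH1 2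
    rw [div_le_iff₀ (by positivity)] at h2
    linarith
  refine ⟨max (max X4 (max X6 1)) (max (2 * Q0) H), fun X hX f hf χ hχ => ?_⟩
  have hF : CM (FG f χ) := cm_FG D χ hχ f hf.mul hf.bd
  simp only [max_le_iff] at hX
  obtain ⟨⟨hX4, hX6, hX1⟩, hXQ, hXH⟩ := hX
  have hXpos : 0 < X := by linarith
  set F : G → ℂ := FG f χ with hFdef
  set T : ℕ := ⌊X / Q0⌋₊ with hT
  have hTle : (T : ℝ) ≤ X / Q0 := Nat.floor_le (by positivity)
  have hTge : X / (2 * Q0) ≤ T := by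
    have h1 : X / Q0 < T + 1 := Nat.lt_floor_add_one _
    have h2 : 1 ≤ X / (2 * Q0) := by
      rw [le_div_iff₀ (by positivity)]
      linarith
    have h3 : X / Q0 = 2 * (X / (2 * Q0)) := by field_simp
    linarith
  have hT1r : (1 : ℝ) ≤ T := by
    have h2 : 1 ≤ X / (2 * Q0) := by
      rw [le_div_iff₀ (by positivity)]
      linarith
    linarith
  have hT1 : 1 ≤ T := by exact_mod_cast hT1r
  have hTX : (T : ℝ) ≤ X := hTle.trans (div_le_self hXpos.le hQ0)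
  obtain ⟨S, hS, hScard, hSsum⟩ := hchain X hX6 F hF T hTle
  have hw2 : H / X ≤ 2 * Real.pi := by
    have h1 : H / X ≤ 1 := by rw [div_le_one hXpos]; exact hXH
    have := Real.pi_gt_three
    linarith
  have h1 := hmarc F hF X (H / X) T hX1 (by positivity) hw2 hT1
  -- the low frequencies
  have hS0 : ∑ k ∈ S.erase 0, ‖fcC F X k‖ ^ 2 ≤ ε / 4 * X ^ 2 := by
    refine hfew X hX4 f hf χ hχ (S.erase 0) (fun k hk => ⟨?_, Finset.ne_of_mem_erase hk⟩) ?_
    · have h2 := hS (Finset.mem_of_mem_erase hk)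
      rw [mem_fr] at h2
      have h3 : |k| ≤ (T : ℤ) := abs_le.mpr ⟨h2.1, h2.2⟩
      have h4 : |(k : ℝ)| ≤ T := by exact_mod_cast h3
      exact h4.trans hTX
    · refine le_trans ?_ hScard
      exact_mod_cast Finset.card_erase_le
  have hlow : ∑ k ∈ (fr T).erase 0, ‖fcC F X k‖ ^ 2 ≤ 2 * (ε / 4) * X ^ 2 := by
    have h2 : ∑ k ∈ (fr T).erase 0, ‖fcC F X k‖ ^ 2 ≤ ∑ k ∈ (fr T \ S) ∪ S.erase 0, ‖fcC F X k‖ ^ 2 := by
      refine Finset.sum_le_sum_of_subset_of_nonneg ?_ (fun _ _ _ => by positivity)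
      intro k hk
      rw [Finset.mem_erase] at hk
      rw [Finset.mem_union, Finset.mem_sdiff, Finset.mem_erase]
      by_cases h : k ∈ S
      · exact Or.inr ⟨hk.1, h⟩
      · exact Or.inl ⟨hk.2, h⟩
    have h3 : ∑ k ∈ (fr T \ S) ∪ S.erase 0, ‖fcC F X k‖ ^ 2 ≤ ∑ k ∈ fr T \ S, ‖fcC F X k‖ ^ 2 +
        ∑ k ∈ S.erase 0, ‖fcC F X k‖ ^ 2 := by
      rw [← Finset.sum_union_inter]
      have : 0 ≤ ∑ k ∈ (fr T \ S) ∩ S.erase 0, ‖fcC F X k‖ ^ 2 :=
        Finset.sum_nonneg (fun _ _ => by positivity)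
      linarith
    linarith
  have hXT : X / T ≤ 2 * Q0 := by
    rw [div_le_iff₀ (by linarith)]
    rw [div_le_iff₀ (by positivity)] at hTge
    linarith
  have hXT2 : X ^ 2 / (T : ℝ) ^ 2 ≤ (2 * Q0) ^ 2 := by
    rw [← div_pow]
    exact pow_le_pow_left₀ (by positivity) hXT 2
  calc ∫ θ in (0 : ℝ)..(2 * Real.pi), ‖arcS F X (H / X) θ - ((H / X / (2 * Real.pi) : ℝ) : ℂ) * fcC F X 0‖ ^ 2 ≤
      (H / X) ^ 2 * ∑ k ∈ (fr T).erase 0, ‖fcC F X k‖ ^ 2 + C * (X / T + X ^ 2 / T ^ 2) := h1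
    _ ≤ (H / X) ^ 2 * (2 * (ε / 4) * X ^ 2) + C * (2 * Q0 + (2 * Q0) ^ 2) := by gcongr
    _ ≤ (H / X) ^ 2 * (2 * (ε / 4) * X ^ 2) + ε / 4 * H ^ 2 := by linarith
    _ = 3 / 4 * (ε * H ^ 2) := by
        field_simp
        ring
    _ ≤ ε * H ^ 2 := by
        have : 0 < ε * H ^ 2 := by positivity
        linarith

end Pool.Agent.LPr

end

/-! ### from `Lib_MP_f1a94e_lp.MroG` -/

section

/-!
# Piece MROG: variance over arcs in residue classes, uniformly in `f`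
-/

set_option autoImplicit false

namespace Pool.Agent.LPr

open Finset Pool.Agent.GaussMR Pool.Agent.GaussCM Pool.Agent.OmAll Pool.Agent.ECM Pool.Agent.OmEq MeasureTheory

private theorem mrog_arc_per (θ w : ℝ) (z : G) : InArc (θ + 2 * Real.pi) w z ↔ InArc θ w z := by
  unfold InArc
  constructor
  · rintro ⟨k, h2, h3⟩
    refine ⟨k - 1, ?_, ?_⟩
    · push_cast
      linarith
    · push_cast
      linarith
  · rintro ⟨k, h2, h3⟩
    refine ⟨k + 1, ?_, ?_⟩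
    · push_cast
      linarith
    · push_cast
      linarith

private theorem mrog_arc_meas (w : ℝ) (z : G) : MeasurableSet {θ : ℝ | InArc θ w z} := by
  have h : {θ : ℝ | InArc θ w z} = ⋃ j : ℤ, Set.Ioc (Complex.arg (z : ℂ) + 2 * Real.pi * j - w)
      (Complex.arg (z : ℂ) + 2 * Real.pi * j) := by
    ext θ
    rw [Set.mem_iUnion]
    constructor
    · rintro ⟨k, h2, h3⟩
      exact ⟨k, by linarith, h2⟩
    · rintro ⟨k, h2, h3⟩
      exact ⟨k, h3, by linarith⟩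
  rw [h]
  exact MeasurableSet.iUnion (fun k => measurableSet_Ioc)

private theorem mrog_meas (F : G → ℂ) (X w : ℝ) (u : ℂ) : Measurable (fun θ => arcS F X w θ - u) := by
  classical
  refine Measurable.sub_const ?_ u
  unfold arcS
  apply Finset.measurable_fun_sum
  intro z _
  exact Measurable.ite (mrog_arc_meas w z) measurable_const measurable_const

private theorem mrog_bd (F : G → ℂ) (X w θ : ℝ) (u : ℂ) : ‖arcS F X w θ - u‖ ≤ (∑ z ∈ V X, ‖F z‖) + ‖u‖ := by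
  classical
  refine (norm_sub_le _ _).trans (add_le_add ?_ le_rfl)
  unfold arcS
  refine (norm_sum_le _ _).trans (Finset.sum_le_sum fun z _ => ?_)
  split_ifs
  · exact le_rfl
  · rw [norm_zero]
    exact norm_nonneg _

private theorem mrog_int (F : G → ℂ) (X w s a c : ℝ) (u : ℂ) :
    IntervalIntegrable (fun θ => ‖arcS F X w (θ - s) - u‖ ^ 2) MeasureTheory.volume a c := by
  have h1 : Measurable (fun θ => ‖arcS F X w (θ - s) - u‖ ^ 2) :=
    (((mrog_meas F X w u).comp (measurable_id.sub_const s)).norm).pow_const 2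
  refine (intervalIntegrable_const (c := ((∑ z ∈ V X, ‖F z‖) + ‖u‖) ^ 2)).mono_fun
    h1.aestronglyMeasurable ?_
  refine Filter.Eventually.of_forall (fun θ => ?_)
  dsimp only
  rw [Real.norm_of_nonneg (by positivity), Real.norm_of_nonneg (by positivity)]
  exact pow_le_pow_left₀ (norm_nonneg _) (mrog_bd F X w _ u) 2

private theorem mrog_shift (F : G → ℂ) (X w s : ℝ) (u : ℂ) :
    ∫ θ in (0 : ℝ)..(2 * Real.pi), ‖arcS F X w (θ - s) - u‖ ^ 2 =
      ∫ θ in (0 : ℝ)..(2 * Real.pi), ‖arcS F X w θ - u‖ ^ 2 := by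
  have hp : Function.Periodic (fun θ => ‖arcS F X w θ - u‖ ^ 2) (2 * Real.pi) := by
    intro θ
    dsimp only
    have : arcS F X w (θ + 2 * Real.pi) = arcS F X w θ := by
      classical
      unfold arcS
      exact sum_congr rfl (fun z _ => by simp only [mrog_arc_per])
    rw [this]
  rw [intervalIntegral.integral_comp_sub_right (fun θ => ‖arcS F X w θ - u‖ ^ 2) s]
  have h := hp.intervalIntegral_add_eq (0 - s) 0
  rw [show (0 : ℝ) - s + 2 * Real.pi = 2 * Real.pi - s by ring, zero_add] at h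
  exact h

private theorem mrog_pt {n : ℕ} {g c : Fin n → ℂ} {u : ℂ} (hu : ‖u‖ ≤ 1) (hc : ∀ i, ‖c i‖ ≤ 1) :
    ‖u * ∑ i, c i * g i‖ ^ 2 ≤ (n : ℝ) * ∑ i, ‖g i‖ ^ 2 := by
  have h2 : ‖u * ∑ i, c i * g i‖ ≤ ∑ i, ‖g i‖ := by
    rw [norm_mul]
    have h3 : ‖∑ i, c i * g i‖ ≤ ∑ i, ‖g i‖ := by
      refine (norm_sum_le _ _).trans (Finset.sum_le_sum fun i _ => ?_)
      rw [norm_mul]
      calc ‖c i‖ * ‖g i‖ ≤ 1 * ‖g i‖ := mul_le_mul_of_nonneg_right (hc i) (norm_nonneg _)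
        _ = _ := one_mul _
    calc ‖u‖ * ‖∑ i, c i * g i‖ ≤ 1 * ‖∑ i, c i * g i‖ :=
          mul_le_mul_of_nonneg_right hu (norm_nonneg _)
      _ ≤ _ := by rw [one_mul]; exact h3
  refine (pow_le_pow_left₀ (norm_nonneg _) h2 2).trans ?_
  have h3 := sq_sum_le_card_mul_sum_sq (s := (Finset.univ : Finset (Fin n))) (f := fun i => ‖g i‖)
  rwa [Finset.card_univ, Fintype.card_fin] at h3

/-- PROOF. As `mro` (ecm/Mro.lean; copy its private lemmas): by `arc_decG`, `So f D b X w θ - (w / 2π) clS f D b X = f m ∑_i c_i (arcS (FG f χ_i) (X/m) w (θ - φ) - (w / 2π) fcC (FG f χ_i) (X/m) 0)` with `w = H / X = (H/m) / (X/m)`, `‖f m‖ ≤ 1`, `‖c_i‖ ≤ 1`,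
Cauchy-Schwarz `‖∑_i‖² ≤ n ∑_i ‖·‖²`, shift of `θ` (periodic), `marc_finG D' P0 (ε / (n² + 1))` with `H / m`, `X / m`. -/
theorem mroG (D : ℕ) (hD : 0 < D) (b : G) (P0 : ℕ) (ε : ℝ) (hε : 0 < ε) : ∃ H0 : ℝ, 0 < H0 ∧ ∀ H : ℝ, H0 ≤ H → ∃ X0 : ℝ, ∀ X : ℝ, X0 ≤ X →
    ∀ f : ℕ → ℂ, UF P0 f →
    ∫ θ in (0 : ℝ)..(2 * Real.pi), ‖So f D b X (H / X) θ - ((H / X / (2 * Real.pi) : ℝ) : ℂ) * clS f D b X‖ ^ 2 ≤ ε * H ^ 2 := by
  obtain ⟨D', n, χ, c, m, φ, hD', hm, hχ, hc, hdec⟩ := arc_decG D hD b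
  have hε' : 0 < ε / ((n : ℝ) ^ 2 + 1) := by positivity
  have hm0 : (0 : ℝ) < m := by exact_mod_cast hm
  have hm1 : (1 : ℝ) ≤ m := by exact_mod_cast hm
  obtain ⟨H0, hH0, hX⟩ := marc_finG D' hD' P0 (ε / ((n : ℝ) ^ 2 + 1)) hε'
  refine ⟨H0 * m, by positivity, ?_⟩
  intro H hH
  have hH1 : 0 ≤ H := le_trans (by positivity) hH
  have hHm : H0 ≤ H / m := by rwa [le_div_iff₀ hm0]
  obtain ⟨X0, hX0⟩ := hX (H / m) hHm
  refine ⟨X0 * m, ?_⟩
  intro X hXX f hf
  have hXm : X0 ≤ X / m := by rwa [le_div_iff₀ hm0]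
  obtain ⟨u, hu⟩ : ∃ u : Fin n → ℂ, u = fun i =>
      ((H / X / (2 * Real.pi) : ℝ) : ℂ) * fcC (FG f (χ i)) (X / m) 0 := ⟨_, rfl⟩
  have key : ∀ i, ∫ θ in (0 : ℝ)..(2 * Real.pi),
      ‖arcS (FG f (χ i)) (X / m) (H / X) (θ - φ) - u i‖ ^ 2 ≤
      ε / ((n : ℝ) ^ 2 + 1) * (H / m) ^ 2 := by
    intro i
    rw [mrog_shift, hu]
    have h1 := hX0 (X / m) hXm f hf (χ i) (hχ i)
    rwa [div_div_div_cancel_right₀ hm0.ne'] at h1
  obtain ⟨hdec1, hdec2⟩ := hdec f hf.mul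
  have hpt : ∀ θ : ℝ, ‖So f D b X (H / X) θ -
      ((H / X / (2 * Real.pi) : ℝ) : ℂ) * clS f D b X‖ ^ 2 ≤
      (n : ℝ) * ∑ i, ‖arcS (FG f (χ i)) (X / m) (H / X) (θ - φ) - u i‖ ^ 2 := by
    intro θ
    have h1 : So f D b X (H / X) θ = f m * ∑ i, c i * arcS (FG f (χ i)) (X / m) (H / X) (θ - φ) := by
      rw [← hdec1 X (H / X) θ]
      unfold So
      apply Finset.sum_congr _ (fun _ _ => rfl)
      congr 1
    have h2 : So f D b X (H / X) θ - ((H / X / (2 * Real.pi) : ℝ) : ℂ) * clS f D b X =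
        f m * ∑ i, c i * (arcS (FG f (χ i)) (X / m) (H / X) (θ - φ) - u i) := by
      rw [h1, hdec2, hu]
      simp only [mul_sub, Finset.sum_sub_distrib, Finset.mul_sum]
      congr 1
      exact Finset.sum_congr rfl fun i _ => by ring
    rw [h2]
    exact mrog_pt (hf.bd m) hc
  have hpi : (0 : ℝ) ≤ 2 * Real.pi := by positivity
  have hint : IntervalIntegrable (fun θ => (n : ℝ) *
      ∑ i, ‖arcS (FG f (χ i)) (X / m) (H / X) (θ - φ) - u i‖ ^ 2) MeasureTheory.volume 0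
        (2 * Real.pi) := by
    apply IntervalIntegrable.const_mul
    have h9 := IntervalIntegrable.sum (Finset.univ : Finset (Fin n))
      (fun i _ => mrog_int (FG f (χ i)) (X / m) (H / X) φ 0 (2 * Real.pi) (u i))
    have h10 : (∑ i, fun θ => ‖arcS (FG f (χ i)) (X / m) (H / X) (θ - φ) - u i‖ ^ 2) =
        (fun θ => ∑ i, ‖arcS (FG f (χ i)) (X / m) (H / X) (θ - φ) - u i‖ ^ 2) := by
      funext θ
      rw [Finset.sum_apply]
    rwa [h10] at h9
  have hle : ∫ θ in (0 : ℝ)..(2 * Real.pi),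
        ‖So f D b X (H / X) θ - ((H / X / (2 * Real.pi) : ℝ) : ℂ) * clS f D b X‖ ^ 2 ≤
      ∫ θ in (0 : ℝ)..(2 * Real.pi),
        (n : ℝ) * ∑ i, ‖arcS (FG f (χ i)) (X / m) (H / X) (θ - φ) - u i‖ ^ 2 := by
    rw [intervalIntegral.integral_of_le hpi, intervalIntegral.integral_of_le hpi]
    refine MeasureTheory.integral_mono_of_nonneg
      (Filter.Eventually.of_forall fun θ => by positivity) ?_ (Filter.Eventually.of_forall hpt)
    exact (intervalIntegrable_iff_integrableOn_Ioc_of_le hpi).1 hint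
  refine hle.trans ?_
  rw [intervalIntegral.integral_const_mul, intervalIntegral.integral_finsetSum
    (fun i _ => mrog_int (FG f (χ i)) (X / m) (H / X) φ _ _ (u i))]
  have h4 : ∑ i, ∫ θ in (0 : ℝ)..(2 * Real.pi),
      ‖arcS (FG f (χ i)) (X / m) (H / X) (θ - φ) - u i‖ ^ 2 ≤
      (n : ℝ) * (ε / ((n : ℝ) ^ 2 + 1) * (H / m) ^ 2) := by
    refine (Finset.sum_le_sum fun i _ => key i).trans ?_
    rw [Finset.sum_const, Finset.card_univ, Fintype.card_fin, nsmul_eq_mul]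
  have h5 : (H / m) ^ 2 ≤ H ^ 2 := by
    refine pow_le_pow_left₀ (by positivity) ?_ 2
    exact div_le_self hH1 hm1
  have h6 : (n : ℝ) * ((n : ℝ) * (ε / ((n : ℝ) ^ 2 + 1) * (H / m) ^ 2)) ≤ ε * H ^ 2 := by
    have h7 : (n : ℝ) * ((n : ℝ) * (ε / ((n : ℝ) ^ 2 + 1) * (H / m) ^ 2)) =
        ((n : ℝ) ^ 2 / ((n : ℝ) ^ 2 + 1)) * (ε * (H / m) ^ 2) := by ring
    rw [h7]
    have h8 : (n : ℝ) ^ 2 / ((n : ℝ) ^ 2 + 1) ≤ 1 := by
      rw [div_le_one (by positivity)]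
      linarith
    calc ((n : ℝ) ^ 2 / ((n : ℝ) ^ 2 + 1)) * (ε * (H / m) ^ 2) ≤ 1 * (ε * (H / m) ^ 2) :=
          mul_le_mul_of_nonneg_right h8 (by positivity)
      _ = ε * (H / m) ^ 2 := one_mul _
      _ ≤ ε * H ^ 2 := mul_le_mul_of_nonneg_left h5 hε.le
  exact (mul_le_mul_of_nonneg_left h4 (Nat.cast_nonneg n)).trans h6

end Pool.Agent.LPr

end

/-! ### from `Lib_MP_f1a94e_lp.MroX` -/

section

/-!
# Piece MROX: Matomaki-Radziwill in arcs for `(f_X - μ f0) / 2`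
-/

set_option autoImplicit false

namespace Pool.Agent.LPr

open Finset Pool.Agent.GaussMR Pool.Agent.GaussCM Pool.Agent.OmAll Pool.Agent.ECM Pool.Agent.OmEq MeasureTheory Filter

private theorem mx_arc_meas (w : ℝ) (z : G) : MeasurableSet {θ : ℝ | arcIn θ w z} := by
  have h : {θ : ℝ | arcIn θ w z} = ⋃ j : ℤ, Set.Ioc (Complex.arg (z : ℂ) + 2 * Real.pi * j - w)
      (Complex.arg (z : ℂ) + 2 * Real.pi * j) := by
    ext θ
    rw [Set.mem_iUnion]
    constructor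
    · rintro ⟨k, h2, h3⟩
      exact ⟨k, by linarith, h2⟩
    · rintro ⟨k, h2, h3⟩
      exact ⟨k, h3, by linarith⟩
  rw [h]
  exact MeasurableSet.iUnion (fun k => measurableSet_Ioc)

private theorem mx_meas (f : ℕ → ℂ) (D : ℕ) (b : G) (X w : ℝ) : Measurable (fun θ => So f D b X w θ) := by
  classical
  unfold So
  simp only [sum_filter]
  apply Finset.measurable_fun_sum
  intro z _
  refine Measurable.ite ?_ measurable_const measurable_const
  by_cases hcg : cg D z b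
  · have : {θ : ℝ | cg D z b ∧ arcIn θ w z} = {θ : ℝ | arcIn θ w z} := by
      ext θ
      exact ⟨fun h => h.2, fun h => ⟨hcg, h⟩⟩
    rw [this]
    exact mx_arc_meas w z
  · have : {θ : ℝ | cg D z b ∧ arcIn θ w z} = ∅ := by
      ext θ
      exact ⟨fun h => (hcg h.1).elim, fun h => h.elim⟩
    rw [this]
    exact MeasurableSet.empty

private theorem mx_bd (f : ℕ → ℂ) (D : ℕ) (b : G) (X w θ : ℝ) :
    ‖So f D b X w θ‖ ≤ ∑ z ∈ V X, ‖f (nm z)‖ := by
  classical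
  unfold So
  refine (norm_sum_le _ _).trans ?_
  exact sum_le_sum_of_subset_of_nonneg (filter_subset _ _) (fun _ _ _ => norm_nonneg _)

private theorem mx_int (f : ℕ → ℂ) (D : ℕ) (b : G) (X w : ℝ) (k : ℂ) (a c : ℝ) :
    IntervalIntegrable (fun θ => ‖So f D b X w θ - k‖ ^ 2) MeasureTheory.volume a c := by
  have h1 : Measurable (fun θ => ‖So f D b X w θ - k‖ ^ 2) :=
    (((mx_meas f D b X w).sub_const k).norm).pow_const 2
  refine (intervalIntegrable_const (c := (∑ z ∈ V X, ‖f (nm z)‖ + ‖k‖) ^ 2)).mono_fun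
    h1.aestronglyMeasurable ?_
  refine Filter.Eventually.of_forall (fun θ => ?_)
  dsimp only
  rw [Real.norm_of_nonneg (by positivity), Real.norm_of_nonneg (by positivity)]
  refine pow_le_pow_left₀ (norm_nonneg _) ?_ 2
  refine (norm_sub_le _ _).trans ?_
  have := mx_bd f D b X w θ
  linarith

private theorem mx_So (f f0 : ℕ → ℂ) (μ : ℂ) (D : ℕ) (b : G) (X w θ : ℝ) :
    So (fun n => (f n - μ * f0 n) / 2) D b X w θ = So f D b X w θ / 2 - μ * So f0 D b X w θ / 2 := by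
  classical
  unfold So
  rw [mul_sum, sum_div, sum_div, ← sum_sub_distrib]
  exact sum_congr rfl fun z _ => by ring

private theorem mx_clS (f f0 : ℕ → ℂ) (μ : ℂ) (D : ℕ) (b : G) (X : ℝ) :
    clS (fun n => (f n - μ * f0 n) / 2) D b X = clS f D b X / 2 - μ * clS f0 D b X / 2 := by
  classical
  unfold clS
  rw [mul_sum, sum_div, sum_div, ← sum_sub_distrib]
  exact sum_congr rfl fun z _ => by ring

/-- PROOF. `g_X = (f X - μ f0) / 2`: `So g D b X w θ - (w/2π) clS g D b X = (1/2)(So (f X) .. - (w/2π) clS (f X) ..) - (μ/2)(So f0 .. - (w/2π) clS f0 ..)` (linearity), so with `‖x + y + z‖² ≤ 3 (‖x‖² + ‖y‖² + ‖z‖²)`, `‖μ‖ ≤ 1`: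
`∫ ‖So g‖² ≤ 3 (1/4) (ε') H² + 3 (1/4) ε' H² + 3 · 2π · (H/X/2π)² ‖clS g D b X‖²` by `mroG` twice (for `f (a X)`, `f0`, uniform in `f`), and `‖clS g D b X‖ / X → 0` by the hypothesis `hc`, so the last term is `≤ (ε / 2) H²` for large `X`.
(All integrands are bounded and measurable, see the private lemmas of ecm/Mro.lean.) -/
theorem mroX (P0 : ℕ) (f : ℝ → ℕ → ℂ) (f0 : ℕ → ℂ) (μ : ℂ) (hμ : ‖μ‖ ≤ 1) (hf : ∀ X, UF P0 (f X)) (hf0 : UF P0 f0)
    (hc : CSX (fun X n => (f X n - μ * f0 n) / 2)) : MROX (fun X n => (f X n - μ * f0 n) / 2) := by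
  intro D hD b ε hε
  obtain ⟨H0, hH0, hG⟩ := mroG D hD b P0 (ε / 3) (by positivity)
  refine ⟨H0, hH0, ?_⟩
  intro H hH a ha
  obtain ⟨X0, hX0⟩ := hG H hH
  have hHp : 0 < H := hH0.trans_le hH
  set η : ℝ := min 1 ε with hη
  have hη0 : 0 < η := lt_min one_pos hε
  have hη1 : η ≤ 1 := min_le_left _ _
  have hηε : η ≤ ε := min_le_right _ _
  have hη2 : η ^ 2 ≤ ε := by nlinarith
  have hcl := (hc D hD b a ha).norm
  rw [norm_zero] at hcl
  filter_upwards [hcl.eventually_lt_const hη0, eventually_ge_atTop X0, eventually_gt_atTop 0]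
    with X hX1 hX2 hX3
  rw [norm_div, Complex.norm_real, Real.norm_of_nonneg hX3.le, div_lt_iff₀ hX3] at hX1
  set F := f (a * X) with hF
  set c : ℝ := H / X / (2 * Real.pi) with hcd
  have hpi : 0 < Real.pi := Real.pi_pos
  have hc0 : 0 ≤ c := by positivity
  have hA := hX0 X hX2 F (hf _)
  have hB := hX0 X hX2 f0 hf0
  set g : ℕ → ℂ := fun n => (F n - μ * f0 n) / 2 with hg
  set kA : ℂ := ((c : ℝ) : ℂ) * clS F D b X with hkA
  set kB : ℂ := ((c : ℝ) : ℂ) * clS f0 D b X with hkB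
  have hpt : ∀ θ : ℝ, ‖So g D b X (H / X) θ‖ ^ 2 ≤ 3 / 4 * ‖So F D b X (H / X) θ - kA‖ ^ 2 +
      3 / 4 * ‖So f0 D b X (H / X) θ - kB‖ ^ 2 + 3 * (c * ‖clS g D b X‖) ^ 2 := by
    intro θ
    have e1 : So g D b X (H / X) θ = (So F D b X (H / X) θ - kA) / 2 -
        μ * (So f0 D b X (H / X) θ - kB) / 2 + ((c : ℝ) : ℂ) * clS g D b X := by
      rw [hg, mx_So, mx_clS, hkA, hkB]
      ring
    have e2 : ‖So g D b X (H / X) θ‖ ≤ ‖So F D b X (H / X) θ - kA‖ / 2 +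
        ‖So f0 D b X (H / X) θ - kB‖ / 2 + c * ‖clS g D b X‖ := by
      rw [e1]
      refine (norm_add_le _ _).trans (add_le_add ((norm_sub_le _ _).trans (add_le_add ?_ ?_)) ?_)
      · rw [norm_div]
        norm_num
      · rw [norm_div, norm_mul]
        have h2 : ‖(2 : ℂ)‖ = 2 := by norm_num
        rw [h2]
        have h3 : ‖μ‖ * ‖So f0 D b X (H / X) θ - kB‖ ≤ 1 * ‖So f0 D b X (H / X) θ - kB‖ :=
          mul_le_mul_of_nonneg_right hμ (norm_nonneg _)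
        linarith
      · rw [norm_mul, Complex.norm_real, Real.norm_of_nonneg hc0]
    refine (pow_le_pow_left₀ (norm_nonneg _) e2 2).trans ?_
    set x := ‖So F D b X (H / X) θ - kA‖
    set y := ‖So f0 D b X (H / X) θ - kB‖
    set t := c * ‖clS g D b X‖
    nlinarith [sq_nonneg (x / 2 - y / 2), sq_nonneg (x / 2 - t), sq_nonneg (y / 2 - t)]
  have hpi2 : (0 : ℝ) ≤ 2 * Real.pi := by positivity
  have i1 := (mx_int F D b X (H / X) kA 0 (2 * Real.pi)).const_mul (3 / 4)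
  have i2 := (mx_int f0 D b X (H / X) kB 0 (2 * Real.pi)).const_mul (3 / 4)
  have i3 : IntervalIntegrable (fun _ : ℝ => 3 * (c * ‖clS g D b X‖) ^ 2) MeasureTheory.volume 0
    (2 * Real.pi) := intervalIntegrable_const
  have hle : ∫ θ in (0 : ℝ)..(2 * Real.pi), ‖So g D b X (H / X) θ‖ ^ 2 ≤
      ∫ θ in (0 : ℝ)..(2 * Real.pi), (3 / 4 * ‖So F D b X (H / X) θ - kA‖ ^ 2 +
        3 / 4 * ‖So f0 D b X (H / X) θ - kB‖ ^ 2 + 3 * (c * ‖clS g D b X‖) ^ 2) := by
    rw [intervalIntegral.integral_of_le hpi2, intervalIntegral.integral_of_le hpi2]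
    refine MeasureTheory.integral_mono_of_nonneg
      (Filter.Eventually.of_forall fun θ => by positivity) ?_ (Filter.Eventually.of_forall hpt)
    exact (intervalIntegrable_iff_integrableOn_Ioc_of_le hpi2).1 ((i1.add i2).add i3)
  refine hle.trans ?_
  rw [intervalIntegral.integral_add (i1.add i2) i3, intervalIntegral.integral_add i1 i2,
    intervalIntegral.integral_const_mul, intervalIntegral.integral_const_mul,
    intervalIntegral.integral_const, smul_eq_mul, sub_zero]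
  have hlast : 2 * Real.pi * (3 * (c * ‖clS g D b X‖) ^ 2) ≤ ε / 2 * H ^ 2 := by
    have h1 : c * ‖clS g D b X‖ ≤ H / (2 * Real.pi) * η := by
      have h2 : c * ‖clS g D b X‖ ≤ c * (η * X) := mul_le_mul_of_nonneg_left hX1.le hc0
      have h3 : c * (η * X) = H / (2 * Real.pi) * η := by
        rw [hcd]
        field_simp
      linarith
    have h2 : (c * ‖clS g D b X‖) ^ 2 ≤ (H / (2 * Real.pi) * η) ^ 2 :=
      pow_le_pow_left₀ (by positivity) h1 2
    have h3 : 2 * Real.pi * (3 * (H / (2 * Real.pi) * η) ^ 2) = 3 / (2 * Real.pi) * (η ^ 2 * H ^ 2) := by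
      field_simp
    have h4 : 3 / (2 * Real.pi) ≤ 1 / 2 := by
      rw [div_le_iff₀ (by positivity)]
      linarith [Real.pi_gt_three]
    calc 2 * Real.pi * (3 * (c * ‖clS g D b X‖) ^ 2)
        ≤ 2 * Real.pi * (3 * (H / (2 * Real.pi) * η) ^ 2) :=
          mul_le_mul_of_nonneg_left (by linarith) hpi2
      _ = 3 / (2 * Real.pi) * (η ^ 2 * H ^ 2) := h3
      _ ≤ 1 / 2 * (η ^ 2 * H ^ 2) := mul_le_mul_of_nonneg_right h4 (by positivity)
      _ ≤ 1 / 2 * (ε * H ^ 2) := by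
          refine mul_le_mul_of_nonneg_left ?_ (by norm_num)
          exact mul_le_mul_of_nonneg_right hη2 (sq_nonneg _)
      _ = ε / 2 * H ^ 2 := by ring
  linarith

end Pool.Agent.LPr

end

/-! ### from `Lib_MP_f1a94e_lp.ProfD` -/

section

/-!
# Numbers with a given profile of large prime factors: definition
-/

set_option autoImplicit false

namespace Pool.Agent.LPr

open Finset Filter

/-- `n = s p_1 ... p_k` with primes `p_i` between `y^(t i - ε)` and `y^(t i + ε)`, all prime factors of `s` at most `y^ε`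
and `s ≤ y^(1 - ∑ t i + ε)` -/
def BigG (k : ℕ) (t : Fin k → ℝ) (ε y : ℝ) (n : ℕ) : Prop :=
  ∃ (s : ℕ) (p : Fin k → ℕ), (∀ i, (p i).Prime ∧ y ^ (t i - ε) ≤ p i ∧ (p i : ℝ) ≤ y ^ (t i + ε)) ∧
    n = s * ∏ i, p i ∧ (s : ℝ) ≤ y ^ (1 - ∑ i, t i + ε) ∧ ∀ r : ℕ, r.Prime → r ∣ s → (r : ℝ) ≤ y ^ ε

end Pool.Agent.LPr

end

/-! ### from `Lib_MP_f1a94e_lp.PertP` -/

section

/-!
# Piece PERTP: distinct exponents
-/

set_option autoImplicit false

namespace Pool.Agent.LPr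

open Finset Filter

/-- PROOF. `τ i = t i - η (i + 1)` with `0 < η`, `η (k + 1) < δ`, `η (k + 1) < t i` for all `i`, and `η` different from the finitely many numbers `(t i - t j) / (i - j)`, `i ≠ j` (the interval of the admissible `η` is infinite). Then `τ i = τ j` would give
`t i - t j = η (i - j)`. -/
theorem pert (k : ℕ) (t : Fin k → ℝ) (ht : ∀ i, 0 < t i) (δ : ℝ) (hδ : 0 < δ) :
    ∃ τ : Fin k → ℝ, Function.Injective τ ∧ ∀ i, 0 < τ i ∧ τ i < t i ∧ t i - δ < τ i := by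
  classical
  obtain ⟨m, hm0, hmδ, hmt⟩ : ∃ m : ℝ, 0 < m ∧ m ≤ δ ∧ ∀ i, m ≤ t i := by
    have hne : (insert δ (Finset.univ.image t)).Nonempty := Finset.insert_nonempty _ _
    refine ⟨(insert δ (Finset.univ.image t)).min' hne, ?_, ?_, ?_⟩
    · rw [Finset.lt_min'_iff]
      intro y hy
      rw [Finset.mem_insert, Finset.mem_image] at hy
      rcases hy with rfl | ⟨i, -, rfl⟩
      · exact hδ
      · exact ht i
    · exact Finset.min'_le _ _ (Finset.mem_insert_self _ _)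
    · intro i
      exact Finset.min'_le _ _ (Finset.mem_insert_of_mem (Finset.mem_image_of_mem t (Finset.mem_univ i)))
  have hk : (0 : ℝ) < (k : ℝ) + 1 := by positivity
  have hI : (Set.Ioo (0 : ℝ) (m / (k + 1))).Infinite := Set.Ioo_infinite (by positivity)
  obtain ⟨η, hη, hbad⟩ := hI.exists_notMem_finset
    ((Finset.univ : Finset (Fin k × Fin k)).image
      (fun x => (t x.1 - t x.2) / (((x.1 : ℕ) : ℝ) - ((x.2 : ℕ) : ℝ))))
  obtain ⟨h0, h1⟩ := hη
  have h1' : η * (k + 1) < m := by rwa [lt_div_iff₀ hk] at h1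
  have hi : ∀ i : Fin k, 0 < η * (((i : ℕ) : ℝ) + 1) ∧ η * (((i : ℕ) : ℝ) + 1) < m := by
    intro i
    constructor
    · positivity
    · have h2 : ((i : ℕ) : ℝ) ≤ k := by exact_mod_cast i.2.le
      have h3 : η * (((i : ℕ) : ℝ) + 1) ≤ η * (k + 1) :=
        mul_le_mul_of_nonneg_left (by linarith) h0.le
      linarith
  refine ⟨fun i => t i - η * (((i : ℕ) : ℝ) + 1), ?_, ?_⟩
  · intro i j hij
    by_contra hne
    have hij' : t i - η * (((i : ℕ) : ℝ) + 1) = t j - η * (((j : ℕ) : ℝ) + 1) := hij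
    have hd : ((i : ℕ) : ℝ) - ((j : ℕ) : ℝ) ≠ 0 := by
      intro h
      apply hne
      apply Fin.ext
      have h5 : ((i : ℕ) : ℝ) = ((j : ℕ) : ℝ) := by linarith
      exact_mod_cast h5
    apply hbad
    rw [Finset.mem_image]
    refine ⟨(i, j), Finset.mem_univ _, ?_⟩
    rw [div_eq_iff hd]
    linarith
  · intro i
    obtain ⟨h2, h3⟩ := hi i
    have h4 := hmt i
    refine ⟨?_, ?_, ?_⟩
    · show 0 < t i - η * (((i : ℕ) : ℝ) + 1)
      linarith
    · show t i - η * (((i : ℕ) : ℝ) + 1) < t i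
      linarith
    · show t i - δ < t i - η * (((i : ℕ) : ℝ) + 1)
      linarith

/-- PROOF. The same `s` and `p`: `t i - ε ≤ τ i - ε'`, `τ i + ε' ≤ t i + ε`, `1 - ∑ τ i + ε' ≤ 1 - ∑ t i + k δ + ε' ≤ 1 - ∑ t i + ε`, `ε' ≤ ε`, and `y ≥ 1`. -/
theorem BigG.mono (k : ℕ) (t τ : Fin k → ℝ) (ε ε' δ : ℝ) (h1 : ∀ i, τ i ≤ t i) (h2 : ∀ i, t i - δ ≤ τ i) (hδ : 0 ≤ δ)
    (h3 : (k + 1) * δ + ε' ≤ ε) (y : ℝ) (hy : 1 ≤ y) (n : ℕ) (h : BigG k τ ε' y n) : BigG k t ε y n := by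
  obtain ⟨s, p, hp, hn, hs, hr⟩ := h
  have hkδ : 0 ≤ (k : ℝ) * δ := by positivity
  have hε : ε' ≤ ε := by linarith
  have hsum : ∑ i, t i - k * δ ≤ ∑ i, τ i := by
    have h5 : ∑ i : Fin k, (t i - δ) ≤ ∑ i, τ i := Finset.sum_le_sum fun i _ => h2 i
    rw [Finset.sum_sub_distrib, Finset.sum_const, Finset.card_univ, Fintype.card_fin,
      nsmul_eq_mul] at h5
    exact h5
  refine ⟨s, p, ?_, hn, ?_, ?_⟩
  · intro i
    obtain ⟨a, b, c⟩ := hp i
    have h4 := h1 i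
    have h5 := h2 i
    refine ⟨a, ?_, ?_⟩
    · exact (Real.rpow_le_rpow_of_exponent_le hy (by linarith)).trans b
    · exact c.trans (Real.rpow_le_rpow_of_exponent_le hy (by linarith))
  · exact hs.trans (Real.rpow_le_rpow_of_exponent_le hy (by linarith))
  · intro r hr1 hr2
    exact (hr r hr1 hr2).trans (Real.rpow_le_rpow_of_exponent_le hy hε)

end Pool.Agent.LPr

end

/-! ### from `Lib_MP_f1a94e_lp.BigP` -/

section

/-!
# Piece BIGP: from window counts to the profile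
-/

set_option autoImplicit false

namespace Pool.Agent.LPr

open Finset Filter

private theorem BigP_wc_mul (x u v : ℝ) {a b : ℕ} (ha : a ≠ 0) (hb : b ≠ 0) :
    wc x u v (a * b) = wc x u v a + wc x u v b := by
  classical
  unfold wc
  rw [((Nat.perm_primeFactorsList_mul ha hb).filter _).length_eq, List.filter_append,
    List.length_append]

private theorem BigP_wc_prime {x u v : ℝ} {q : ℕ} (hq : q.Prime) (h1 : x ^ u < (q : ℝ))
    (h2 : (q : ℝ) ≤ x ^ v) : wc x u v q = 1 := by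
  classical
  unfold wc
  rw [Nat.primeFactorsList_prime hq]
  simp [h1, h2]

private theorem BigP_wc_one (x u v : ℝ) : wc x u v 1 = 0 := by
  classical
  simp [wc]

private theorem BigP_wc_prod {x u v : ℝ} {ι : Type} (S : Finset ι) (q : ι → ℕ)
    (hq : ∀ i ∈ S, (q i).Prime ∧ x ^ u < (q i : ℝ) ∧ (q i : ℝ) ≤ x ^ v) :
    wc x u v (∏ i ∈ S, q i) = S.card := by
  classical
  induction S using Finset.induction_on with
  | empty => simp [BigP_wc_one]
  | insert a S ha ih =>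
    have h1 : ∏ i ∈ S, q i ≠ 0 :=
      Finset.prod_ne_zero_iff.2 (fun i hi => (hq i (mem_insert_of_mem hi)).1.ne_zero)
    have h2 := hq a (mem_insert_self a S)
    rw [prod_insert ha, BigP_wc_mul x u v h2.1.ne_zero h1, ih (fun i hi => hq i (mem_insert_of_mem hi)),
      BigP_wc_prime h2.1 h2.2.1 h2.2.2, card_insert_of_notMem ha, add_comm]

/-- PROOF. Conditions on `δ0` (with `ε < t_i ≤ 1`): `δ0 ≤ 1/2`, `δ0 ≤ ε / 4`, `(k + 1) δ0 ≤ ε / 4`, `δ0 ≤ ε / (1 + ε)`, `δ0 < |t_i - t_j|` for `i ≠ j`; and `x0` with `C ≤ x^(ε/8)`, `x0 ≥ 2`, `C x ≤ x²`. Let `L_i` be the prime factors of `n` in the window `(x^(t_i - δ), x^(t_i)]`: a list of length one, `L_i = [p_i]`. The `p_i` are distinct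
primes (disjoint windows) dividing `n`, so `∏ p_i ∣ n` (`Finset.prod_primes_dvd` or `Nat.Coprime.prod_dvd`), `n = s ∏ p_i`. `wc` is additive on products of nonzero numbers (`Nat.perm_primeFactorsList_mul`), `wc x (ε/2) 2 p_i = 1` (`t_i - δ ≥ ε / 2`, `t_i ≤ 2`), so `wc x (ε/2) 2 s = k - k = 0`; a prime `r ∣ s` satisfies `r ≤ n ≤ C m ≤ C x ≤ x²`, so
`r ≤ x^(ε/2) ≤ m^ε` (`m ≥ x^(1 - δ) ≥ x^(1/2)`). `m^(t_i - ε) ≤ x^(t_i - ε) ≤ x^(t_i - δ) < p_i ≤ x^(t_i) ≤ x^((1 - δ)(t_i + ε)) ≤ m^(t_i + ε)` (`δ (t_i + ε) ≤ δ (1 + ε) ≤ ε`). Finally `s = n / ∏ p_i ≤ C m / x^(∑ t_i - k δ) ≤ C m / m^(∑ t_i - k δ)` if `∑ t_i ≥ k δ` (true, as `δ ≤ t_i`), so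
`s ≤ C m^(1 - ∑ t_i + k δ) ≤ m^(1 - ∑ t_i + ε)` as `C ≤ x^(ε/8) ≤ m^(ε/4)`, `k δ ≤ ε / 4`. See also `big_win` in BigW.lean for the same kind of computation (list_prod_ge there). -/
theorem big_prof (k : ℕ) (t : Fin k → ℝ) (hinj : Function.Injective t) (ε : ℝ) (hε : 0 < ε) (ht : ∀ i, ε < t i)
    (ht1 : ∀ i, t i ≤ 1) (C : ℝ) (hC : 0 < C) :
    ∃ δ0 : ℝ, 0 < δ0 ∧ δ0 ≤ 1 / 2 ∧ ∀ δ : ℝ, 0 < δ → δ ≤ δ0 → ∃ x0 : ℝ, 2 ≤ x0 ∧ ∀ x : ℝ, x0 ≤ x →
      ∀ m : ℕ, x ^ (1 - δ) < (m : ℝ) → (m : ℝ) ≤ x → ∀ n : ℕ, n ≠ 0 → (n : ℝ) ≤ C * m →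
        (∀ i, wc x (t i - δ) (t i) n = 1) → wc x (ε / 2) 2 n = k → BigG k t ε m n := by
  classical
  -- choice of δ0
  have hg : ∀ i j : Fin k, ∀ᶠ δ : ℝ in nhdsWithin 0 (Set.Ioi 0), i ≠ j → δ < |t i - t j| := by
    intro i j
    by_cases hij : i = j
    · exact Eventually.of_forall (fun δ h => absurd hij h)
    · have hp : 0 < |t i - t j| := abs_pos.2 (sub_ne_zero.2 (fun h => hij (hinj h)))
      have : ∀ᶠ δ : ℝ in nhds 0, δ < |t i - t j| := gt_mem_nhds hp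
      exact (this.filter_mono nhdsWithin_le_nhds).mono (fun δ h _ => h)
  have hg2 : ∀ᶠ δ : ℝ in nhdsWithin 0 (Set.Ioi 0), ∀ i j : Fin k, i ≠ j → δ < |t i - t j| :=
    eventually_all.2 (fun i => eventually_all.2 (fun j => hg i j))
  obtain ⟨g, hg0, hgg⟩ := (nhdsGT_basis (0 : ℝ)).eventually_iff.1 hg2
  have hk1 : (0 : ℝ) < (k : ℝ) + 1 := by positivity
  set δ0 : ℝ := min (min (1 / 2) (g / 2)) (min (ε / 4 / ((k : ℝ) + 1)) (ε / (1 + ε))) with hδ0
  have hδ0p : 0 < δ0 := by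
    rw [hδ0]
    refine lt_min (lt_min (by norm_num) (by linarith)) (lt_min (by positivity) (by positivity))
  refine ⟨δ0, hδ0p, (min_le_left _ _).trans (min_le_left _ _), ?_⟩
  intro δ hδ hδle
  have hδ12 : δ ≤ 1 / 2 := hδle.trans ((min_le_left _ _).trans (min_le_left _ _))
  have hδg : δ < g := by
    have : δ ≤ g / 2 := hδle.trans ((min_le_left _ _).trans (min_le_right _ _))
    linarith
  have hδk : ((k : ℝ) + 1) * δ ≤ ε / 4 := by
    have : δ ≤ ε / 4 / ((k : ℝ) + 1) := hδle.trans ((min_le_right _ _).trans (min_le_left _ _))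
    rw [le_div_iff₀ hk1] at this
    linarith
  have hδε : δ * (1 + ε) ≤ ε := by
    have : δ ≤ ε / (1 + ε) := hδle.trans ((min_le_right _ _).trans (min_le_right _ _))
    rwa [le_div_iff₀ (by linarith)] at this
  have hkδ : 0 ≤ (k : ℝ) * δ := by positivity
  have hδ4 : δ ≤ ε / 4 := by nlinarith
  have hkδ4 : (k : ℝ) * δ ≤ ε / 4 := by nlinarith
  have hsep : ∀ i j : Fin k, i ≠ j → δ < |t i - t j| := hgg ⟨hδ, hδg⟩
  -- choice of x0
  have hx1 : ∀ᶠ x : ℝ in atTop, C ≤ x ^ (ε / 8) :=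
    (tendsto_rpow_atTop (by linarith : 0 < ε / 8)).eventually_ge_atTop C
  have hx2 : ∀ᶠ x : ℝ in atTop, C ≤ x := eventually_ge_atTop C
  obtain ⟨a, ha⟩ := eventually_atTop.1 (hx1.and hx2)
  refine ⟨max a 2, le_max_right _ _, ?_⟩
  intro x hx m hm1 hm2 n hn hnC hwi hwk
  have hx2' : (2 : ℝ) ≤ x := (le_max_right a 2).trans hx
  obtain ⟨hC1, hC2⟩ := ha x ((le_max_left a 2).trans hx)
  have hx1' : (1 : ℝ) ≤ x := by linarith
  have hx0' : (0 : ℝ) < x := by linarith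
  set y : ℝ := (m : ℝ) with hy
  have hy1 : 1 ≤ y := (Real.one_le_rpow hx1' (by linarith)).trans hm1.le
  have hy0 : 0 < y := by linarith
  have hyh : x ^ (1 / 2 : ℝ) ≤ y :=
    (Real.rpow_le_rpow_of_exponent_le hx1' (by linarith)).trans hm1.le
  -- the primes
  have hex : ∀ i, ∃ q : ℕ, q.Prime ∧ q ∣ n ∧ x ^ (t i - δ) < (q : ℝ) ∧ (q : ℝ) ≤ x ^ (t i) := by
    intro i
    have h1 := hwi i
    unfold wc at h1
    obtain ⟨q, hq⟩ := List.length_eq_one_iff.1 h1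
    have h2 : q ∈ n.primeFactorsList.filter
        (fun p : ℕ => x ^ (t i - δ) < (p : ℝ) ∧ (p : ℝ) ≤ x ^ (t i)) := by
      rw [hq]; exact List.mem_singleton.2 rfl
    rw [List.mem_filter] at h2
    have h3 := (Nat.mem_primeFactorsList hn).1 h2.1
    have h4 := of_decide_eq_true h2.2
    exact ⟨q, h3.1, h3.2, h4.1, h4.2⟩
  choose p hpp hpd hp1 hp2 using hex
  have hlt : ∀ i j : Fin k, t i < t j → i ≠ j → p i < p j := by
    intro i j hij hne
    have h1 := hsep i j hne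
    rw [abs_of_neg (by linarith)] at h1
    have h2 : (p i : ℝ) < p j :=
      ((hp2 i).trans (Real.rpow_le_rpow_of_exponent_le hx1' (by linarith))).trans_lt (hp1 j)
    exact_mod_cast h2
  have hpinj : Function.Injective p := by
    intro i j hij
    by_contra hne
    rcases lt_trichotomy (t i) (t j) with h | h | h
    · exact absurd hij (hlt i j h hne).ne
    · exact hne (hinj h)
    · exact absurd hij (hlt j i h (Ne.symm hne)).ne'
  have hdvd : ∏ i, p i ∣ n := by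
    have h1 : ∏ q ∈ univ.image p, q ∣ n := by
      apply Finset.prod_primes_dvd
      · intro q hq
        obtain ⟨i, -, rfl⟩ := mem_image.1 hq
        exact (hpp i).prime
      · intro q hq
        obtain ⟨i, -, rfl⟩ := mem_image.1 hq
        exact hpd i
    rwa [prod_image (fun i _ j _ h => hpinj h)] at h1
  obtain ⟨s, hs⟩ := hdvd
  rw [mul_comm] at hs
  have hs0 : s ≠ 0 := by
    rintro rfl
    rw [zero_mul] at hs
    exact hn hs
  have hP0 : ∏ i, p i ≠ 0 := Finset.prod_ne_zero_iff.2 (fun i _ => (hpp i).ne_zero)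
  have htδ : ∀ i, 0 ≤ t i - δ := fun i => by linarith [ht i]
  -- the window count of the cofactor
  have hws : wc x (ε / 2) 2 s = 0 := by
    have h1 : wc x (ε / 2) 2 (∏ i, p i) = k := by
      rw [BigP_wc_prod univ p, card_univ, Fintype.card_fin]
      intro i _
      refine ⟨hpp i, (Real.rpow_le_rpow_of_exponent_le hx1' ?_).trans_lt (hp1 i),
        (hp2 i).trans (Real.rpow_le_rpow_of_exponent_le hx1' ?_)⟩
      · linarith [ht i]
      · linarith [ht1 i]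
    have h2 := BigP_wc_mul x (ε / 2) 2 hs0 hP0
    rw [← hs, h1, hwk] at h2
    omega
  have hsn : (s : ℝ) * ∏ i, (p i : ℝ) ≤ C * y := by
    have : ((s * ∏ i, p i : ℕ) : ℝ) ≤ C * y := by rw [← hs]; exact hnC
    rwa [Nat.cast_mul, Nat.cast_prod] at this
  have hyx : y ≤ x := hm2
  refine ⟨s, p, ?_, hs, ?_, ?_⟩
  · intro i
    refine ⟨hpp i, ?_, ?_⟩
    · calc y ^ (t i - ε) ≤ x ^ (t i - ε) := Real.rpow_le_rpow hy0.le hyx (by linarith [ht i])
        _ ≤ x ^ (t i - δ) := Real.rpow_le_rpow_of_exponent_le hx1' (by linarith)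
        _ ≤ p i := (hp1 i).le
    · have hti : 0 < t i := by linarith [ht i]
      calc (p i : ℝ) ≤ x ^ (t i) := hp2 i
        _ ≤ x ^ ((1 - δ) * (t i + ε)) := by
            apply Real.rpow_le_rpow_of_exponent_le hx1'
            nlinarith [ht1 i, mul_le_mul_of_nonneg_left (ht1 i) hδ.le]
        _ = (x ^ (1 - δ)) ^ (t i + ε) := by rw [Real.rpow_mul hx0'.le]
        _ ≤ y ^ (t i + ε) :=
            Real.rpow_le_rpow (Real.rpow_nonneg hx0'.le _) hm1.le (by linarith)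
  · have hprod : y ^ (∑ i, t i - k * δ) ≤ ∏ i, (p i : ℝ) := by
      have h1 : y ^ (∑ i, t i - k * δ) = ∏ i, y ^ (t i - δ) := by
        rw [← Real.rpow_sum_of_pos hy0, Finset.sum_sub_distrib]
        simp
      rw [h1]
      apply Finset.prod_le_prod
      · intro i _
        exact Real.rpow_nonneg hy0.le _
      · intro i _
        exact (Real.rpow_le_rpow hy0.le hyx (htδ i)).trans (hp1 i).le
    have hCy : C ≤ y ^ (ε / 4) := by
      calc C ≤ x ^ (ε / 8) := hC1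
        _ = (x ^ (1 / 2 : ℝ)) ^ (ε / 4) := by
            rw [← Real.rpow_mul hx0'.le]
            congr 1
            ring
        _ ≤ y ^ (ε / 4) := Real.rpow_le_rpow (Real.rpow_nonneg hx0'.le _) hyh (by linarith)
    have hs0' : (0 : ℝ) ≤ s := Nat.cast_nonneg s
    have hD : 0 < y ^ (∑ i, t i - k * δ) := Real.rpow_pos_of_pos hy0 _
    have h2 : (s : ℝ) * y ^ (∑ i, t i - k * δ) ≤ y ^ (ε / 4) * y := by
      calc (s : ℝ) * y ^ (∑ i, t i - k * δ) ≤ (s : ℝ) * ∏ i, (p i : ℝ) := by gcongr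
        _ ≤ C * y := hsn
        _ ≤ y ^ (ε / 4) * y := by gcongr
    have h3 : y ^ (ε / 4) * y ≤ y ^ (1 - ∑ i, t i + ε) * y ^ (∑ i, t i - k * δ) := by
      rw [← Real.rpow_add hy0]
      calc y ^ (ε / 4) * y = y ^ (ε / 4 + 1) := by rw [Real.rpow_add hy0, Real.rpow_one]
        _ ≤ _ := by
            apply Real.rpow_le_rpow_of_exponent_le hy1
            linarith
    exact le_of_mul_le_mul_right (h2.trans h3) hD
  · intro r hr hrs
    have hrmem : r ∈ s.primeFactorsList := (Nat.mem_primeFactorsList hs0).2 ⟨hr, hrs⟩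
    have hrle : (r : ℝ) ≤ x ^ (2 : ℝ) := by
      have h1 : (r : ℝ) ≤ n := by
        have : r ≤ n := (Nat.le_of_dvd (Nat.pos_of_ne_zero hs0) hrs).trans
          (Nat.le_of_dvd (Nat.pos_of_ne_zero hn) ⟨_, hs⟩)
        exact_mod_cast this
      calc (r : ℝ) ≤ n := h1
        _ ≤ C * y := hnC
        _ ≤ x * x := by gcongr
        _ = x ^ (2 : ℝ) := by rw [Real.rpow_two, sq]
    have h4 : (r : ℝ) ≤ x ^ (ε / 2) := by
      by_contra h
      rw [not_le] at h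
      unfold wc at hws
      rw [List.length_eq_zero_iff, List.filter_eq_nil_iff] at hws
      exact hws r hrmem (decide_eq_true ⟨h, hrle⟩)
    calc (r : ℝ) ≤ x ^ (ε / 2) := h4
      _ = (x ^ (1 / 2 : ℝ)) ^ ε := by
          rw [← Real.rpow_mul hx0'.le]
          congr 1
          ring
      _ ≤ y ^ ε := Real.rpow_le_rpow (Real.rpow_nonneg hx0'.le _) hyh hε.le

end Pool.Agent.LPr

end

/-! ### from `Lib_MP_f1a94e_mr.Drop` -/

section

/-!
# Piece DROP: divisors of `m ^ 2 + 1` that are too small or have too many prime factors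
-/

set_option autoImplicit false

namespace Pool.Agent.GaussMR

/-- partial summation against `1 / √n` -/
theorem psum_sqrt_sec (a : ℕ → ℝ) (C : ℝ) (hC0 : 0 ≤ C)
    (hC : ∀ N : ℕ, 1 ≤ N → ∑ n ∈ Finset.Icc 1 N, a n ≤ C * N) :
    ∀ N : ℕ, 1 ≤ N → ∑ n ∈ Finset.Icc 1 N, a n / Real.sqrt n ≤ 2 * C * Real.sqrt N := by
  have key : ∀ N : ℕ, 1 ≤ N → ∑ n ∈ Finset.Icc 1 N, a n / Real.sqrt n ≤
      (∑ n ∈ Finset.Icc 1 N, a n) / Real.sqrt N + C * Real.sqrt N := by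
    intro N hN
    induction N, hN using Nat.le_induction with
    | base =>
      simp only [Finset.Icc_self, Finset.sum_singleton, Nat.cast_one, Real.sqrt_one, div_one,
        mul_one]
      linarith
    | succ N hN ih =>
      rw [Finset.sum_Icc_succ_top (by omega), Finset.sum_Icc_succ_top (by omega)]
      have hC' := hC N hN
      set S := ∑ n ∈ Finset.Icc 1 N, a n with hS
      have hx : 0 < Real.sqrt N := Real.sqrt_pos.mpr (by exact_mod_cast hN)
      have hy : 0 < Real.sqrt ((N + 1 : ℕ) : ℝ) := Real.sqrt_pos.mpr (by positivity)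
      have hx2 : Real.sqrt N ^ 2 = N := Real.sq_sqrt (by positivity)
      have hy2 : Real.sqrt ((N + 1 : ℕ) : ℝ) ^ 2 = N + 1 := by
        rw [Real.sq_sqrt (by positivity)]
        push_cast
        ring
      set x := Real.sqrt N with hxd
      set y := Real.sqrt ((N + 1 : ℕ) : ℝ) with hyd
      have hxy : x ≤ y := by
        have : x ^ 2 ≤ y ^ 2 := by rw [hx2, hy2]; linarith
        exact (pow_le_pow_iff_left₀ hx.le hy.le (by norm_num)).mp this
      have h1 : S * (1 / x - 1 / y) ≤ C * x ^ 2 * (1 / x - 1 / y) := by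
        apply mul_le_mul_of_nonneg_right
        · rw [hx2]; exact hC'
        · rw [sub_nonneg]
          exact one_div_le_one_div_of_le hx hxy
      have h2 : C * x ^ 2 * (1 / x - 1 / y) + C * x ≤ C * y := by
        have h3 : C * y - (C * x ^ 2 * (1 / x - 1 / y) + C * x) = C * (y - x) ^ 2 / y := by
          field_simp
          ring
        have h4 : 0 ≤ C * (y - x) ^ 2 / y := by positivity
        linarith
      have h5 : S * (1 / x - 1 / y) = S / x - S / y := by ring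
      rw [add_div]
      linarith
  intro N hN
  refine (key N hN).trans ?_
  have h1 := hC N hN
  have hs : 0 < Real.sqrt N := Real.sqrt_pos.mpr (by exact_mod_cast hN)
  have h2 : (∑ n ∈ Finset.Icc 1 N, a n) / Real.sqrt N ≤ C * Real.sqrt N := by
    rw [div_le_iff₀ hs, mul_assoc, Real.mul_self_sqrt (by positivity)]
    exact h1
  linarith

/-- For `d < X / K²`: `m² + 1 ≤ X d`, so `m ≤ √(X d)` and the number of `m` is at most
`τ(d) (2 √(X d) / d + 1) + 1 ≤ 4 · 2^(Ω d) √(X / d)`; sum over `N1` numbers `d` with `ht 2` and partial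
summation: `∑_{d ≤ D} 2^(Ω d) / √d ≤ C √D`. -/
theorem drop1 : ∃ C : ℝ, 0 < C ∧ ∀ X K : ℝ, 1 ≤ X → 1 ≤ K →
    ∑ m ∈ (Finset.range (⌊X⌋₊ + 1)).filter (fun m => Even m),
      (Set.ncard {d : ℕ | d ∣ m ^ 2 + 1 ∧ K ^ 2 * (d : ℝ) < X ∧ ((m ^ 2 + 1 : ℕ) : ℝ) ≤ X * d} : ℝ) ≤
      C * X / K := by
  classical
  obtain ⟨C, hC, hht⟩ := ht 2 (by norm_num) (by norm_num)
  refine ⟨8 * C, by positivity, fun X K hX hK => ?_⟩
  have hX0 : 0 < X := by linarith
  have hK0 : 0 < K := by linarith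
  have hps := psum_sqrt_sec (fun n => if N1 n then (2 : ℝ) ^ ArithmeticFunction.cardFactors n else 0)
    C hC.le (by
      intro N hN
      have h := hht N hN
      rw [Finset.sum_filter] at h
      refine h.trans ?_
      norm_num)
  have hsw := swap_sum_sec ⌊X⌋₊ ⌊X⌋₊
    (fun m d => d ∣ m ^ 2 + 1 ∧ K ^ 2 * (d : ℝ) < X ∧ ((m ^ 2 + 1 : ℕ) : ℝ) ≤ X * d) (by
      rintro m d ⟨h1, h2, h3⟩
      refine ⟨h1, Nat.le_floor ?_⟩
      have h4 : (d : ℝ) ≤ K ^ 2 * d := by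
        have : (1 : ℝ) ≤ K ^ 2 := one_le_pow₀ hK
        nlinarith [(Nat.cast_nonneg d : (0 : ℝ) ≤ d)]
      linarith)
  rw [hsw]
  set D := ⌊X / K ^ 2⌋₊ with hD
  have hterm : ∀ d ∈ (Finset.Icc 1 ⌊X⌋₊).filter N1,
      (((Finset.range (⌊X⌋₊ + 1)).filter (fun m => Even m ∧ (d ∣ m ^ 2 + 1 ∧
        K ^ 2 * (d : ℝ) < X ∧ ((m ^ 2 + 1 : ℕ) : ℝ) ≤ X * d))).card : ℝ) ≤
      if d ≤ D then 4 * Real.sqrt X * (2 ^ ArithmeticFunction.cardFactors d / Real.sqrt d) else 0 := by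
    intro d hd
    rw [Finset.mem_filter, Finset.mem_Icc] at hd
    have hd0 : (0 : ℝ) < d := by exact_mod_cast hd.1.1
    split_ifs with hdD
    · have hsub : (Finset.range (⌊X⌋₊ + 1)).filter (fun m => Even m ∧ (d ∣ m ^ 2 + 1 ∧
        K ^ 2 * (d : ℝ) < X ∧ ((m ^ 2 + 1 : ℕ) : ℝ) ≤ X * d)) ⊆
        (Finset.range (⌊Real.sqrt (X * d)⌋₊ + 1)).filter (fun m => Even m ∧ d ∣ m ^ 2 + 1) := by
        intro m hm
        rw [Finset.mem_filter] at hm ⊢
        obtain ⟨_, h1, h2, _, h4⟩ := hm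
        refine ⟨?_, h1, h2⟩
        rw [Finset.mem_range, Nat.lt_succ_iff]
        apply Nat.le_floor
        apply Real.le_sqrt_of_sq_le
        push_cast at h4
        linarith
      have h1 := (Nat.cast_le (α := ℝ)).mpr (Finset.card_le_card hsub)
      refine h1.trans ((count_even_sec _ d (by omega)).trans ?_)
      have hfl : (⌊Real.sqrt (X * d)⌋₊ : ℝ) ≤ Real.sqrt (X * d) := Nat.floor_le (Real.sqrt_nonneg _)
      have hsd : 0 < Real.sqrt d := Real.sqrt_pos.mpr hd0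
      have hsd2 : Real.sqrt d * Real.sqrt d = d := Real.mul_self_sqrt hd0.le
      have hdX : (d : ℝ) ≤ X := by
        have h2 : (d : ℝ) ≤ X / K ^ 2 := (Nat.le_floor_iff (by positivity)).mp hdD
        refine h2.trans (div_le_self hX0.le (one_le_pow₀ hK))
      have hsX : Real.sqrt d ≤ Real.sqrt X := Real.sqrt_le_sqrt hdX
      have h5 : 2 * (⌊Real.sqrt (X * d)⌋₊ : ℝ) / d + 2 ≤ 4 * Real.sqrt X / Real.sqrt d := by
        have h6 : 2 * (⌊Real.sqrt (X * d)⌋₊ : ℝ) / d ≤ 2 * Real.sqrt X / Real.sqrt d := by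
          rw [div_le_div_iff₀ hd0 hsd]
          have h7 : Real.sqrt (X * d) = Real.sqrt X * Real.sqrt d := Real.sqrt_mul hX0.le _
          rw [h7] at hfl
          calc 2 * (⌊Real.sqrt (X * d)⌋₊ : ℝ) * Real.sqrt d
              ≤ 2 * (Real.sqrt X * Real.sqrt d) * Real.sqrt d := by
                rw [h7]
                gcongr
            _ = 2 * Real.sqrt X * (Real.sqrt d * Real.sqrt d) := by ring
            _ = 2 * Real.sqrt X * d := by rw [hsd2]
        have h8 : 2 ≤ 2 * Real.sqrt X / Real.sqrt d := by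
          rw [le_div_iff₀ hsd]
          linarith
        have h9 : 4 * Real.sqrt X / Real.sqrt d =
            2 * Real.sqrt X / Real.sqrt d + 2 * Real.sqrt X / Real.sqrt d := by ring
        rw [h9]
        linarith
      calc (2 : ℝ) ^ ArithmeticFunction.cardFactors d *
            (2 * (⌊Real.sqrt (X * d)⌋₊ : ℝ) / d + 2)
          ≤ 2 ^ ArithmeticFunction.cardFactors d * (4 * Real.sqrt X / Real.sqrt d) := by gcongr
        _ = 4 * Real.sqrt X * (2 ^ ArithmeticFunction.cardFactors d / Real.sqrt d) := by ring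
    · have : (Finset.range (⌊X⌋₊ + 1)).filter (fun m => Even m ∧ (d ∣ m ^ 2 + 1 ∧
        K ^ 2 * (d : ℝ) < X ∧ ((m ^ 2 + 1 : ℕ) : ℝ) ≤ X * d)) = ∅ := by
        rw [Finset.filter_eq_empty_iff]
        rintro m _ ⟨_, _, h2, _⟩
        apply hdD
        apply Nat.le_floor
        rw [le_div_iff₀ (by positivity)]
        linarith
      rw [this]
      simp
  refine (Finset.sum_le_sum fun d hd => le_trans (le_of_eq (by congr)) (hterm d hd)).trans ?_
  rw [← Finset.sum_filter]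
  by_cases hD1 : 1 ≤ D
  · have hsub : ∑ d ∈ ((Finset.Icc 1 ⌊X⌋₊).filter N1).filter (fun d => d ≤ D),
        4 * Real.sqrt X * ((2 : ℝ) ^ ArithmeticFunction.cardFactors d / Real.sqrt d) ≤
        ∑ d ∈ Finset.Icc 1 D, 4 * Real.sqrt X *
          ((if N1 d then (2 : ℝ) ^ ArithmeticFunction.cardFactors d else 0) / Real.sqrt d) := by
      have h1 : ((Finset.Icc 1 ⌊X⌋₊).filter N1).filter (fun d => d ≤ D) ⊆ Finset.Icc 1 D := by
        intro d hd
        rw [Finset.mem_filter, Finset.mem_filter, Finset.mem_Icc] at hd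
        rw [Finset.mem_Icc]
        exact ⟨hd.1.1.1, hd.2⟩
      calc ∑ d ∈ ((Finset.Icc 1 ⌊X⌋₊).filter N1).filter (fun d => d ≤ D),
            4 * Real.sqrt X * ((2 : ℝ) ^ ArithmeticFunction.cardFactors d / Real.sqrt d)
          = ∑ d ∈ ((Finset.Icc 1 ⌊X⌋₊).filter N1).filter (fun d => d ≤ D), 4 * Real.sqrt X *
          ((if N1 d then (2 : ℝ) ^ ArithmeticFunction.cardFactors d else 0) / Real.sqrt d) := by
            refine Finset.sum_congr rfl fun d hd => ?_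
            rw [Finset.mem_filter, Finset.mem_filter] at hd
            rw [if_pos hd.1.2]
        _ ≤ _ := by
            refine Finset.sum_le_sum_of_subset_of_nonneg h1 fun d _ _ => ?_
            split_ifs <;> positivity
    refine hsub.trans ?_
    rw [← Finset.mul_sum]
    have h2 := hps D hD1
    have h3 : Real.sqrt D ≤ Real.sqrt X / K := by
      have h4 : (D : ℝ) ≤ X / K ^ 2 := Nat.floor_le (by positivity)
      calc Real.sqrt D ≤ Real.sqrt (X / K ^ 2) := Real.sqrt_le_sqrt h4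
        _ = Real.sqrt X / K := by
          rw [Real.sqrt_div hX0.le, Real.sqrt_sq hK0.le]
    calc 4 * Real.sqrt X * ∑ d ∈ Finset.Icc 1 D,
          ((if N1 d then (2 : ℝ) ^ ArithmeticFunction.cardFactors d else 0) / Real.sqrt d)
        ≤ 4 * Real.sqrt X * (2 * C * Real.sqrt D) := by gcongr
      _ ≤ 4 * Real.sqrt X * (2 * C * (Real.sqrt X / K)) := by gcongr
      _ = 8 * C * (Real.sqrt X * Real.sqrt X) / K := by ring
      _ = 8 * C * X / K := by rw [Real.mul_self_sqrt hX0.le]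
  · have : ((Finset.Icc 1 ⌊X⌋₊).filter N1).filter (fun d => d ≤ D) = ∅ := by
      rw [Finset.filter_eq_empty_iff]
      intro d hd h
      rw [Finset.mem_filter, Finset.mem_Icc] at hd
      omega
    rw [this, Finset.sum_empty]
    positivity

/-- `#{m ≤ X : d ∣ m² + 1} ≤ 2^(Ω d) (2 K² + 2)` for `X / K² ≤ d ≤ X`, and
`1 ≤ (1 + η)^(Ω d - W)`; then `ht (2 (1 + η))`. -/
theorem drop2 (η : ℝ) (hη : 0 < η) (hη1 : η ≤ 1) : ∃ C : ℝ, 0 < C ∧ ∀ X K W : ℝ, 1 ≤ X → 1 ≤ K →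
    0 ≤ W →
    ∑ m ∈ (Finset.range (⌊X⌋₊ + 1)).filter (fun m => Even m),
      (Set.ncard {d : ℕ | d ∣ m ^ 2 + 1 ∧ X ≤ K ^ 2 * (d : ℝ) ∧ (d : ℝ) ≤ X ∧
        W < (ArithmeticFunction.cardFactors d : ℝ)} : ℝ) ≤
      C * K ^ 2 * (1 + η) ^ (-W) * X * (1 + Real.log X) ^ η := by
  classical
  obtain ⟨C, hC, hht⟩ := ht (2 * (1 + η)) (by positivity) (by linarith)
  refine ⟨4 * C, by positivity, fun X K W hX hK hW => ?_⟩
  have hX0 : 0 < X := by linarith
  have hK0 : 0 < K := by linarith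
  have hK2 : (1 : ℝ) ≤ K ^ 2 := one_le_pow₀ hK
  have hN1 : 1 ≤ ⌊X⌋₊ := (Nat.one_le_floor_iff X).mpr hX
  have hNX : (⌊X⌋₊ : ℝ) ≤ X := Nat.floor_le hX0.le
  have hsw := swap_sum_sec ⌊X⌋₊ ⌊X⌋₊
    (fun m d => d ∣ m ^ 2 + 1 ∧ X ≤ K ^ 2 * (d : ℝ) ∧ (d : ℝ) ≤ X ∧
        W < (ArithmeticFunction.cardFactors d : ℝ)) (by
      rintro m d ⟨h1, h2, h3, h4⟩
      exact ⟨h1, Nat.le_floor h3⟩)
  rw [hsw]
  have hterm : ∀ d ∈ (Finset.Icc 1 ⌊X⌋₊).filter N1,
      (((Finset.range (⌊X⌋₊ + 1)).filter (fun m => Even m ∧ (d ∣ m ^ 2 + 1 ∧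
        X ≤ K ^ 2 * (d : ℝ) ∧ (d : ℝ) ≤ X ∧
        W < (ArithmeticFunction.cardFactors d : ℝ)))).card : ℝ) ≤
      4 * K ^ 2 * (1 + η) ^ (-W) * (2 * (1 + η)) ^ ArithmeticFunction.cardFactors d := by
    intro d hd
    rw [Finset.mem_filter, Finset.mem_Icc] at hd
    have hd0 : (0 : ℝ) < d := by exact_mod_cast hd.1.1
    by_cases hc : X ≤ K ^ 2 * (d : ℝ) ∧ W < (ArithmeticFunction.cardFactors d : ℝ)
    · have hsub : (Finset.range (⌊X⌋₊ + 1)).filter (fun m => Even m ∧ (d ∣ m ^ 2 + 1 ∧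
        X ≤ K ^ 2 * (d : ℝ) ∧ (d : ℝ) ≤ X ∧
        W < (ArithmeticFunction.cardFactors d : ℝ))) ⊆
        (Finset.range (⌊X⌋₊ + 1)).filter (fun m => Even m ∧ d ∣ m ^ 2 + 1) := by
        intro m hm
        rw [Finset.mem_filter] at hm ⊢
        exact ⟨hm.1, hm.2.1, hm.2.2.1⟩
      have h1 := (Nat.cast_le (α := ℝ)).mpr (Finset.card_le_card hsub)
      refine h1.trans ((count_even_sec _ d (by omega)).trans ?_)
      have h2 : 2 * (⌊X⌋₊ : ℝ) / d + 2 ≤ 4 * K ^ 2 := by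
        have h3 : (⌊X⌋₊ : ℝ) / d ≤ K ^ 2 := by
          rw [div_le_iff₀ hd0]
          linarith [hc.1]
        have h4 : 2 * (⌊X⌋₊ : ℝ) / d = 2 * ((⌊X⌋₊ : ℝ) / d) := by ring
        rw [h4]
        linarith
      have h5 : (1 : ℝ) ≤ (1 + η) ^ (-W) * (1 + η) ^ ArithmeticFunction.cardFactors d := by
        rw [← Real.rpow_natCast (1 + η), ← Real.rpow_add (by positivity)]
        apply Real.one_le_rpow (by linarith)
        linarith [hc.2]
      calc (2 : ℝ) ^ ArithmeticFunction.cardFactors d * (2 * (⌊X⌋₊ : ℝ) / d + 2)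
          ≤ 2 ^ ArithmeticFunction.cardFactors d * (4 * K ^ 2) := by gcongr
        _ = 2 ^ ArithmeticFunction.cardFactors d * (4 * K ^ 2) * 1 := by ring
        _ ≤ 2 ^ ArithmeticFunction.cardFactors d * (4 * K ^ 2) *
            ((1 + η) ^ (-W) * (1 + η) ^ ArithmeticFunction.cardFactors d) := by gcongr
        _ = 4 * K ^ 2 * (1 + η) ^ (-W) * (2 * (1 + η)) ^ ArithmeticFunction.cardFactors d := by
            rw [mul_pow]
            ring
    · have : (Finset.range (⌊X⌋₊ + 1)).filter (fun m => Even m ∧ (d ∣ m ^ 2 + 1 ∧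
        X ≤ K ^ 2 * (d : ℝ) ∧ (d : ℝ) ≤ X ∧
        W < (ArithmeticFunction.cardFactors d : ℝ))) = ∅ := by
        rw [Finset.filter_eq_empty_iff]
        rintro m _ ⟨_, _, h2, _, h4⟩
        exact hc ⟨h2, h4⟩
      rw [this]
      simp only [Finset.card_empty, Nat.cast_zero]
      positivity
  refine (Finset.sum_le_sum fun d hd => le_trans (le_of_eq (by congr)) (hterm d hd)).trans ?_
  rw [← Finset.mul_sum]
  have h1 := hht ⌊X⌋₊ hN1
  have h2 : (1 + Real.log (⌊X⌋₊ : ℝ)) ^ (2 * (1 + η) / 2 - 1) ≤ (1 + Real.log X) ^ η := by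
    have h3 : 2 * (1 + η) / 2 - 1 = η := by ring
    rw [h3]
    have h4 : 0 ≤ Real.log (⌊X⌋₊ : ℝ) := Real.log_nonneg (by exact_mod_cast hN1)
    have h5 : Real.log (⌊X⌋₊ : ℝ) ≤ Real.log X := Real.log_le_log (by exact_mod_cast hN1) hNX
    gcongr
  calc 4 * K ^ 2 * (1 + η) ^ (-W) * ∑ d ∈ (Finset.Icc 1 ⌊X⌋₊).filter N1,
        (2 * (1 + η)) ^ ArithmeticFunction.cardFactors d
      ≤ 4 * K ^ 2 * (1 + η) ^ (-W) * (C * (⌊X⌋₊ : ℝ) *
        (1 + Real.log (⌊X⌋₊ : ℝ)) ^ (2 * (1 + η) / 2 - 1)) := by gcongr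
    _ ≤ 4 * K ^ 2 * (1 + η) ^ (-W) * (C * X * (1 + Real.log X) ^ η) := by
        have : 0 ≤ (1 + Real.log (⌊X⌋₊ : ℝ)) ^ (2 * (1 + η) / 2 - 1) := by
          apply Real.rpow_nonneg
          have : 0 ≤ Real.log (⌊X⌋₊ : ℝ) := Real.log_nonneg (by exact_mod_cast hN1)
          linarith
        gcongr
    _ = 4 * C * K ^ 2 * (1 + η) ^ (-W) * X * (1 + Real.log X) ^ η := by ring

end Pool.Agent.GaussMR

end
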