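import Mathlib
import Pool.Agent.Lib_MP_f1a94e_m.G03
import Pool.Agent.Lib_MP_f1a94e_m.G13
import Pool.Agent.Lib_MP_f1a94e_m.G17
import Pool.Agent.Lib_MP_f1a94e_m.G19
import Pool.Agent.Lib_MP_f1a94e_m.G20
import Pool.Agent.Lib_MP_f1a94e_m.G21
import Pool.Agent.Lib_MP_f1a94e_m.G22
import Pool.Agent.Lib_MP_f1a94e_m.G23
import Pool.Agent.Lib_MP_f1a94e_m.G24

/-!
# MP_f1a94e_nt: merged library part G26

Concatenation of files of the libraries `Lib_MP_f1a94e_*` (each in its own section), only to save build time.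
-/

/-! ### from `Lib_MP_f1a94e_lp.ArcX` -/

section

/-!
# Piece ARCX: pairs in short arcs, for families
-/

set_option autoImplicit false

namespace Pool.Agent.LPr

open Finset Pool.Agent.GaussMR Pool.Agent.OmAll Pool.Agent.OmEq MeasureTheory Filter

/-- PROOF. The proof of `arcpair_ev` (ArcPair.lean) with `f` replaced by `f (a * Y)`: at the radius `X_k = C0 Y k / I` the index is `a Y = (a I / (C0 k)) X_k`, so use `MRPX` with `a I / (C0 k)`. -/
theorem arcx_ev (f : ℝ → ℕ → ℂ) (hM : MRPX f) {D : ℕ} (hD : 0 < D) {C0 ε : ℝ} (hC0 : 0 < C0) (hε : 0 < ε) {I : ℕ}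
    (hI : 1 ≤ I) : ∀ᶠ N : ℕ in atTop, ∀ a : ℝ, 0 < a → ∀ᶠ Y : ℝ in atTop, ∀ b ∈ mrpoR D, ∀ k ∈ Icc 1 I,
      ∫ θ in (0 : ℝ)..(2 * Real.pi), ‖Sp (f (a * Y)) D b (C0 * Y * (k : ℝ) / I) (N / (I * Y)) θ‖ ^ 2 ≤
        ε * ((N : ℝ) * C0 / I) ^ 2 := by
  have hI' : (0 : ℝ) < I := by exact_mod_cast hI
  have h1 : ∀ᶠ N : ℕ in atTop, ∀ b ∈ mrpoR D, ∀ k ∈ Icc 1 I, ∀ a : ℝ, 0 < a → ∀ᶠ X : ℝ in atTop,
      ∫ θ in (0 : ℝ)..(2 * Real.pi), ‖Sp (f (a * X)) D b X ((N * (C0 * k / (I * I))) / X) θ‖ ^ 2 ≤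
        ε * ((N : ℝ) * (C0 * k / (I * I))) ^ 2 := by
    rw [eventually_all_finset]
    intro b _
    rw [eventually_all_finset]
    intro k hk
    have hk1 : (1 : ℝ) ≤ k := by exact_mod_cast (mem_Icc.1 hk).1
    obtain ⟨H0, -, h⟩ := hM D hD b ε hε
    have ht : Tendsto (fun N : ℕ => (N : ℝ) * (C0 * k / (I * I))) atTop atTop :=
      tendsto_natCast_atTop_atTop.atTop_mul_const (by positivity)
    filter_upwards [ht.eventually_ge_atTop H0] with N hN
    intro a ha
    exact h _ hN a ha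
  filter_upwards [h1] with N hN
  intro a ha
  rw [eventually_all_finset]
  intro b hb
  rw [eventually_all_finset]
  intro k hk
  have hk1 : (1 : ℝ) ≤ k := by exact_mod_cast (mem_Icc.1 hk).1
  have hk2 : (k : ℝ) ≤ I := by exact_mod_cast (mem_Icc.1 hk).2
  have ht : Tendsto (fun Y : ℝ => C0 * Y * (k : ℝ) / I) atTop atTop := by
    have h3 : Tendsto (fun Y : ℝ => Y * (C0 * k / I)) atTop atTop := tendsto_id.atTop_mul_const (by positivity)
    refine h3.congr (fun Y => ?_)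
    ring
  have ha' : 0 < a * I / (C0 * k) := by positivity
  filter_upwards [ht.eventually (hN b hb k hk _ ha'), eventually_gt_atTop 0] with Y hY hY0
  have e1 : (N : ℝ) * (C0 * k / (I * I)) / (C0 * Y * (k : ℝ) / I) = N / (I * Y) := by
    field_simp
  have e2 : a * I / (C0 * k) * (C0 * Y * (k : ℝ) / I) = a * Y := by
    field_simp
  rw [e1, e2] at hY
  refine hY.trans (mul_le_mul_of_nonneg_left (pow_le_pow_left₀ (by positivity) ?_ 2) hε.le)
  rw [mul_div_assoc (N : ℝ)]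
  refine mul_le_mul_of_nonneg_left ?_ (Nat.cast_nonneg _)
  rw [div_le_div_iff₀ (by positivity) hI']
  nlinarith [mul_le_mul_of_nonneg_left hk2 (by positivity : 0 ≤ C0 * I)]

/-- PROOF. The proof of `arcpair` (ArcPair.lean) with `f` replaced by `f (a * Y)` (`arcpair_term` is for a single function and is used as it is). -/
theorem arcX (f : ℝ → ℕ → ℂ) (hf : ∀ X n, ‖f X n‖ ≤ 1) (hM : MRPX f) (D : ℕ) (hD : 0 < D) (κ : G → G → ℂ)
    (hκ : ∀ V V', ‖κ V V'‖ ≤ 2) (hper : ∀ V V' U U', cg D V U → cg D V' U' → κ V V' = κ U U')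
    (c0 C0 B : ℝ) (hc0 : 0 < c0) (hC0 : c0 ≤ C0) (hB : 0 < B) (F : ℝ → ℝ → ℝ → ℝ)
    (hF : Continuous (fun v : ℝ × ℝ × ℝ => F v.1 v.2.1 v.2.2))
    (h1 : ∀ x x' σ, x ≤ c0 ∨ x' ≤ c0 ∨ C0 ≤ x ∨ C0 ≤ x' ∨ σ ≤ 0 ∨ B ≤ σ → F x x' σ = 0) (ε : ℝ) (hε : 0 < ε) :
    ∃ N0 : ℕ, ∀ N : ℕ, N0 ≤ N → ∀ a : ℝ, 0 < a → ∀ᶠ Y : ℝ in atTop,
      ‖∑ V ∈ PV (C0 * Y), ∑ V' ∈ PV (C0 * Y), κ V V' * (f (a * Y) (nm V) * (starRingEnd ℂ) (f (a * Y) (nm V'))) *
        ((F (nm V / Y) (nm V' / Y) (Y * ang V V' / N) : ℝ) : ℂ)‖ ≤ ε * N * Y := by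
  classical
  have hC0' : 0 < C0 := hc0.trans_le hC0
  have hD' : (0 : ℝ) < D := by exact_mod_cast hD
  obtain ⟨C, hC, hcnt⟩ := cntA (c0 / 2) C0 (B + 1) (by linarith) (by linarith) (by linarith)
  set ε1 : ℝ := ε / (4 * C) with hε1
  have hε1' : 0 < ε1 := by positivity
  obtain ⟨I, hI, happ⟩ := appG c0 C0 B hc0 hC0 hB F hF h1 ε1 hε1'
  have hI' : (0 : ℝ) < I := by exact_mod_cast hI
  set Q : Finset (ℕ × ℕ × ℕ) := range I ×ˢ range I ×ˢ range (⌈B⌉₊ * I + 1) with hQ
  set cc : ℕ × ℕ × ℕ → ℝ := fun q => F (C0 * q.1 / I) (C0 * q.2.1 / I) ((q.2.2 : ℝ) / I) with hcc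
  set S : ℝ := ∑ q ∈ Q, |cc q| with hS
  have hS0 : 0 ≤ S := sum_nonneg fun _ _ => abs_nonneg _
  set ε2 : ℝ := ε / (16 * (S + 1) * D ^ 4 * C0 ^ 2) with hε2
  have hε2' : 0 < ε2 := by positivity
  obtain ⟨N0, hN0⟩ := eventually_atTop.1 (arcx_ev f hM hD hC0' hε2' hI)
  refine ⟨max N0 1, fun N hN a ha => ?_⟩
  have hN1 : 1 ≤ N := (le_max_right _ _).trans hN
  have hNr : (0 : ℝ) < N := by exact_mod_cast hN1
  have hδlim : Tendsto (fun Y : ℝ => ((⌈B⌉₊ * I + 1 : ℕ) + 1 : ℝ) * (N / (I * Y))) atTop (nhds 0) := by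
    have h3 : Tendsto (fun Y : ℝ => (((⌈B⌉₊ * I + 1 : ℕ) + 1 : ℝ) * N / I) / Y) atTop (nhds 0) :=
      tendsto_const_nhds.div_atTop tendsto_id
    refine h3.congr (fun Y => ?_)
    ring
  filter_upwards [hN0 N ((le_max_left _ _).trans hN) a ha, hcnt N hN1, eventually_gt_atTop 0,
    hδlim.eventually_lt_const Real.pi_pos] with Y hY1 hY2 hY0 hY3
  set δ : ℝ := N / (I * Y) with hδ
  have hδ0 : 0 < δ := by positivity
  set P := PV (C0 * Y) with hP
  set w : G → G → ℂ := fun V V' => f (a * Y) (nm V) * (starRingEnd ℂ) (f (a * Y) (nm V')) with hw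
  have hwb : ∀ V V', ‖w V V'‖ ≤ 1 := by
    intro V V'
    rw [hw]
    dsimp only
    rw [norm_mul, RCLike.norm_conj]
    exact mul_le_one₀ (hf _ _) (norm_nonneg _) (hf _ _)
  set u : ℕ × ℕ × ℕ → G → G → ℝ := fun q V V' => cell C0 I q.1 (nm V / Y) * cell C0 I q.2.1 (nm V' / Y) *
    max 0 (1 - |I * (Y * ang V V' / N) - q.2.2|) with hu
  set Ap : G → G → ℝ := fun V V' => ∑ q ∈ Q, cc q * u q V V' with hAp
  have hap : ∀ V ∈ P, ∀ V' ∈ P, |F (nm V / Y) (nm V' / Y) (Y * ang V V' / N) - Ap V V'| ≤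
      if c0 / 2 * Y ≤ nm V ∧ c0 / 2 * Y ≤ nm V' ∧ |ang V V'| ≤ (B + 1) * N / Y then ε1 else 0 := by
    intro V hV V' hV'
    have hVp := arcpair_pos hV
    have hVp' := arcpair_pos hV'
    rw [hP, mem_PV] at hV hV'
    have a1 : (0 : ℝ) < nm V / Y := by
      have : (0 : ℝ) < nm V := by exact_mod_cast hVp
      positivity
    have a2 : (0 : ℝ) < nm V' / Y := by
      have : (0 : ℝ) < nm V' := by exact_mod_cast hVp'
      positivity
    have a3 : (nm V : ℝ) / Y ≤ C0 := by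
      rw [div_le_iff₀ hY0]
      exact hV.1
    have a4 : (nm V' : ℝ) / Y ≤ C0 := by
      rw [div_le_iff₀ hY0]
      exact hV'.1
    have h3 := happ _ _ (Y * ang V V' / N) a1 a3 a2 a4
    have e1 : Ap V V' = ∑ i ∈ range I, ∑ j ∈ range I, ∑ l ∈ range (⌈B⌉₊ * I + 1),
        F (C0 * i / I) (C0 * j / I) ((l : ℝ) / I) * cell C0 I i (nm V / Y) * cell C0 I j (nm V' / Y) *
          max 0 (1 - |I * (Y * ang V V' / N) - l|) := by
      rw [hAp]
      dsimp only
      rw [hQ, sum_product]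
      apply sum_congr rfl
      intro i _
      rw [sum_product]
      apply sum_congr rfl
      intro j _
      apply sum_congr rfl
      intro l _
      rw [hcc, hu]
      dsimp only
      ring
    rw [e1]
    refine h3.trans ?_
    split_ifs with b1 b2 b3
    · exact le_rfl
    · exfalso
      apply b2
      obtain ⟨c1, c2, c3⟩ := b1
      rw [le_div_iff₀ hY0] at c1 c2
      refine ⟨c1, c2, ?_⟩
      rw [abs_div, abs_mul, abs_of_pos hY0, abs_of_pos hNr, div_le_iff₀ hNr] at c3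
      rw [le_div_iff₀ hY0]
      linarith
    · exact hε1'.le
    · exact le_rfl
  -- first part
  have hfirst : ‖∑ V ∈ P, ∑ V' ∈ P, κ V V' * w V V' *
      (((F (nm V / Y) (nm V' / Y) (Y * ang V V' / N) : ℝ) : ℂ) - ((Ap V V' : ℝ) : ℂ))‖ ≤ ε / 2 * N * Y := by
    have e1 : ∀ V ∈ P, ∀ V' ∈ P, ‖κ V V' * w V V' *
        (((F (nm V / Y) (nm V' / Y) (Y * ang V V' / N) : ℝ) : ℂ) - ((Ap V V' : ℝ) : ℂ))‖ ≤
        2 * (if c0 / 2 * Y ≤ nm V ∧ c0 / 2 * Y ≤ nm V' ∧ |ang V V'| ≤ (B + 1) * N / Y then ε1 else 0) := by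
      intro V hV V' hV'
      rw [← Complex.ofReal_sub, norm_mul, Complex.norm_real, Real.norm_eq_abs, norm_mul]
      have h3 := hap V hV V' hV'
      have h4 : ‖κ V V'‖ * ‖w V V'‖ ≤ 2 := by
        have := mul_le_mul (hκ V V') (hwb V V') (norm_nonneg _) (by norm_num)
        linarith
      exact mul_le_mul h4 h3 (abs_nonneg _) (by norm_num)
    refine (norm_sum_le _ _).trans ?_
    refine (sum_le_sum fun V hV => (norm_sum_le _ _).trans (sum_le_sum fun V' hV' => e1 V hV V' hV')).trans ?_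
    rw [← sum_product' P P (fun V V' => 2 * (if c0 / 2 * Y ≤ (nm V : ℝ) ∧ c0 / 2 * Y ≤ (nm V' : ℝ) ∧
      |ang V V'| ≤ (B + 1) * N / Y then ε1 else 0)), ← mul_sum, ← sum_filter, sum_const, nsmul_eq_mul]
    have h5 : 2 * (C * N * Y * ε1) = ε / 2 * N * Y := by
      rw [hε1]
      field_simp
      ring
    rw [← h5]
    refine mul_le_mul_of_nonneg_left (mul_le_mul_of_nonneg_right ?_ hε1'.le) (by norm_num)
    refine le_trans (le_of_eq ?_) hY2
    congr
  -- second part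
  have hsecond : ‖∑ V ∈ P, ∑ V' ∈ P, κ V V' * w V V' * ((Ap V V' : ℝ) : ℂ)‖ ≤ ε / 2 * N * Y := by
    have e1 : ∑ V ∈ P, ∑ V' ∈ P, κ V V' * w V V' * ((Ap V V' : ℝ) : ℂ) =
        ∑ q ∈ Q, ((cc q : ℝ) : ℂ) * ∑ V ∈ P, ∑ V' ∈ P, κ V V' * w V V' * ((u q V V' : ℝ) : ℂ) := by
      have e2 : ∀ V V' : G, κ V V' * w V V' * ((Ap V V' : ℝ) : ℂ) =
          ∑ q ∈ Q, ((cc q : ℝ) : ℂ) * (κ V V' * w V V' * ((u q V V' : ℝ) : ℂ)) := by
        intro V V'
        rw [hAp]
        dsimp only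
        rw [Complex.ofReal_sum, mul_sum]
        apply sum_congr rfl
        intro q _
        rw [Complex.ofReal_mul]
        ring
      simp only [e2, mul_sum]
      rw [sum_congr rfl (fun V _ => sum_comm), sum_comm]
    rw [e1]
    refine (norm_sum_le _ _).trans ?_
    set A : ℝ := ε2 * ((N : ℝ) * C0 / I) ^ 2 with hA
    have hA0 : 0 ≤ A := by positivity
    have e3 : ∀ q ∈ Q, ‖((cc q : ℝ) : ℂ) * ∑ V ∈ P, ∑ V' ∈ P, κ V V' * w V V' * ((u q V V' : ℝ) : ℂ)‖ ≤
        |cc q| * (8 * ((D : ℝ) ^ 4) * (A / δ)) := by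
      intro q hq
      rw [hQ, mem_product, mem_product, mem_range, mem_range, mem_range] at hq
      rw [norm_mul, Complex.norm_real, Real.norm_eq_abs]
      refine mul_le_mul_of_nonneg_left ?_ (abs_nonneg _)
      refine arcpair_term (f (a * Y)) D hD κ hκ hper hC0' hY0 hNr hq.1 hq.2.1 hδ ?_ hA0 hY1
      refine lt_of_le_of_lt ?_ hY3
      refine mul_le_mul_of_nonneg_right ?_ hδ0.le
      have : (q.2.2 : ℝ) ≤ (⌈B⌉₊ * I + 1 : ℕ) := by exact_mod_cast hq.2.2.le
      linarith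
    refine (sum_le_sum e3).trans ?_
    rw [← sum_mul, ← hS]
    have e4 : A / δ = ε2 * C0 ^ 2 * N * Y / I := by
      rw [hA, hδ]
      field_simp
    rw [e4]
    have e5 : 8 * (D : ℝ) ^ 4 * (ε2 * C0 ^ 2 * N * Y / I) ≤ 8 * (D : ℝ) ^ 4 * (ε2 * C0 ^ 2 * N * Y) := by
      refine mul_le_mul_of_nonneg_left ?_ (by positivity)
      apply div_le_self (by positivity)
      exact_mod_cast hI
    have e6 : (S + 1) * (8 * (D : ℝ) ^ 4 * (ε2 * C0 ^ 2 * N * Y)) = ε / 2 * N * Y := by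
      rw [hε2]
      field_simp
      ring
    rw [← e6]
    exact mul_le_mul (by linarith) e5 (by positivity) (by linarith)
  have hsum : ∑ V ∈ P, ∑ V' ∈ P, κ V V' * (f (a * Y) (nm V) * (starRingEnd ℂ) (f (a * Y) (nm V'))) *
        ((F (nm V / Y) (nm V' / Y) (Y * ang V V' / N) : ℝ) : ℂ) =
      ∑ V ∈ P, ∑ V' ∈ P, κ V V' * w V V' *
        (((F (nm V / Y) (nm V' / Y) (Y * ang V V' / N) : ℝ) : ℂ) - ((Ap V V' : ℝ) : ℂ)) +
      ∑ V ∈ P, ∑ V' ∈ P, κ V V' * w V V' * ((Ap V V' : ℝ) : ℂ) := by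
    rw [← sum_add_distrib]
    apply sum_congr rfl
    intro V _
    rw [← sum_add_distrib]
    apply sum_congr rfl
    intro V' _
    rw [hw]
    dsimp only
    ring
  rw [hsum]
  refine (norm_add_le _ _).trans ((add_le_add hfirst hsecond).trans (le_of_eq ?_))
  ring

end Pool.Agent.LPr

end

/-! ### from `Lib_MP_f1a94e_lp.QdX` -/

section

/-!
# Piece QDX: correlations on average from Matomaki-Radziwill, for families
-/

set_option autoImplicit false

namespace Pool.Agent.LPr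

open Finset Pool.Agent.GaussMR Pool.Agent.OmAll Pool.Agent.OmEq MeasureTheory Filter

/-- PROOF. The proof of `qds` (QdS.lean, last theorem) with `f` replaced by `f (a * Y)` and `arcpair` by `arcX`; `qds_sum`, `qds_cmp`, `qds_bad`, `qdsK_bd`, `qdsK_per`, ... are for a single function
(or do not mention `f`) and are used as they are. -/
theorem qdsX (f : ℝ → ℕ → ℂ) (hf : ∀ X n, ‖f X n‖ ≤ 1) (hM : MRPX f) : QdSmallX f := by
  classical
  intro d hd h h1 h2 hh ε hε
  have h1p := hh.pos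
  have h2p := hh.one
  by_cases h12 : h1 ≤ h2
  swap
  · -- trivial: `h = 0`
    have hz : ∀ y, h y = 0 := by
      intro y
      rcases le_total y h1 with h3 | h3
      · exact hh.lo y h3
      · exact hh.hi y (by linarith)
    refine ⟨0, fun N _ a _ => ?_⟩
    filter_upwards [eventually_ge_atTop 0] with Y hY
    have h0 : ∑ n ∈ (Icc 1 N).filter (fun n => d ∣ n), ((kap n * ww ((n : ℝ) / N) : ℝ) : ℂ) *
      Qs (f (a * Y)) n (h2 * Y) (fun y t => ((h y ^ 2 * ps0 t : ℝ) : ℂ)) Y = 0 := by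
      apply sum_eq_zero
      intro n _
      have : Qs (f (a * Y)) n (h2 * Y) (fun y t => ((h y ^ 2 * ps0 t : ℝ) : ℂ)) Y = 0 := by
        unfold Qs
        apply sum_eq_zero
        intro e _
        dsimp only
        rw [hz]
        simp
      rw [this, mul_zero]
    rw [h0, norm_zero]
    positivity
  obtain ⟨C, hC, hcntA⟩ := cntA (h1 / 4) (3 * h2) (2 / h1) (by linarith) (by linarith) (by positivity)
  obtain ⟨C1, hC1, hcnt⟩ := cnt 1
  set K : ℝ := C + 2 * C1 * h2 with hK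
  have hKp : 0 < K := by positivity
  set η : ℝ := min 1 (ε / (4 * K)) with hηd
  have hη : 0 < η := lt_min one_pos (by positivity)
  have hη1 : η ≤ 1 := min_le_left _ _
  have hη2 : η * (4 * K) ≤ ε := by
    have := min_le_right 1 (ε / (4 * K))
    rwa [← hηd, le_div_iff₀ (by positivity)] at this
  obtain ⟨N0, hN0⟩ := arcX f hf hM (4 * d) (by omega) (qdsK d) (qdsK_bd d) (qdsK_per d) (h1 / 2) (3 * h2) (1 / h1)
    (by linarith) (by linarith) (by positivity) (qdsF h η (h1 / 2)) (qdsF_cont hh.cont η (by linarith))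
    (qdsF_van hh hη) (ε / 2) (by linarith)
  obtain ⟨δ1, hδ1, hw⟩ := Metric.uniformContinuous_iff.1 (qdsW_uc η hη) (η / 4) (by linarith)
  obtain ⟨δ2, hδ2, hhu⟩ := Metric.uniformContinuous_iff.1 (qds_huc hh) (η / 4) (by linarith)
  set δ := min δ1 δ2 with hδd
  have hδ : 0 < δ := lt_min hδ1 hδ2
  have hw' : ∀ s s' : ℝ, |s - s'| < δ → |qdsW η s - qdsW η s'| < η / 4 := by
    intro s s' hs
    have := hw (a := s) (b := s') (by rw [Real.dist_eq]; exact hs.trans_le (min_le_left _ _))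
    rwa [Real.dist_eq] at this
  have hhu' : ∀ s s' : ℝ, |s - s'| < δ → |h s - h s'| < η / 4 := by
    intro s s' hs
    have := hhu (a := s) (b := s') (by rw [Real.dist_eq]; exact hs.trans_le (min_le_right _ _))
    rwa [Real.dist_eq] at this
  refine ⟨max N0 1, fun N hN a ha => ?_⟩
  have hN1 : 1 ≤ N := (le_max_right _ _).trans hN
  have hN' : (1 : ℝ) ≤ N := by exact_mod_cast hN1
  have hl1 : Tendsto (fun Y : ℝ => (N : ℝ) / (h1 * Y)) atTop (nhds 0) := by
    have h3 : Tendsto (fun Y : ℝ => ((N : ℝ) / h1) / Y) atTop (nhds 0) := tendsto_const_nhds.div_atTop tendsto_id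
    refine h3.congr (fun Y => ?_)
    rw [div_div]
  have hl2 : Tendsto (fun Y : ℝ => 2 * (N : ℝ) / (h1 * Y)) atTop (nhds 0) := by
    have h3 : Tendsto (fun Y : ℝ => (2 * (N : ℝ) / h1) / Y) atTop (nhds 0) := tendsto_const_nhds.div_atTop tendsto_id
    refine h3.congr (fun Y => ?_)
    rw [div_div]
  have hl3 : Tendsto (fun Y : ℝ => (N : ℝ) / Y) atTop (nhds 0) := tendsto_const_nhds.div_atTop tendsto_id
  filter_upwards [hN0 N ((le_max_left _ _).trans hN) a ha, hcntA N hN1, eventually_gt_atTop 0,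
    eventually_ge_atTop (2 * (N : ℝ) / h1), eventually_ge_atTop (2 * (N : ℝ)),
    hl1.eventually_lt_const (by positivity : 0 < Real.pi / 2), hl2.eventually_lt_const hδ,
    hl3.eventually_lt_const hδ] with Y hA hB hY0 hY1 hY2 hY3 hY4 hY5
  have hY1' : 2 * (N : ℝ) ≤ h1 * Y := by
    rw [div_le_iff₀ h1p] at hY1
    linarith
  rw [qds_sum (f (a * Y)) d hh hY2 hY0]
  set P := PV (3 * h2 * Y) with hP
  rw [← sum_product' P P (fun V V' => qdsK d V V' * (f (a * Y) (nm V) * (starRingEnd ℂ) (f (a * Y) (nm V'))) *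
        ((qdsF h η (h1 / 2) (nm V / Y) (nm V' / Y) (Y * ang V V' / N) : ℝ) : ℂ))] at hA
  have hdec : ∑ e ∈ P ×ˢ P, qdsK d e.1 e.2 * (f (a * Y) (nm e.1) * (starRingEnd ℂ) (f (a * Y) (nm e.2))) * ((qdsT h N Y e : ℝ) : ℂ) =
      ∑ e ∈ P ×ˢ P, qdsK d e.1 e.2 * (f (a * Y) (nm e.1) * (starRingEnd ℂ) (f (a * Y) (nm e.2))) *
        ((qdsF h η (h1 / 2) (nm e.1 / Y) (nm e.2 / Y) (Y * ang e.1 e.2 / N) : ℝ) : ℂ) +
      ∑ e ∈ P ×ˢ P, qdsK d e.1 e.2 * (f (a * Y) (nm e.1) * (starRingEnd ℂ) (f (a * Y) (nm e.2))) *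
        ((qdsT h N Y e - qdsF h η (h1 / 2) (nm e.1 / Y) (nm e.2 / Y) (Y * ang e.1 e.2 / N) : ℝ) : ℂ) := by
    rw [← sum_add_distrib]
    apply sum_congr rfl
    intro e _
    rw [Complex.ofReal_sub]
    ring
  rw [hdec]
  refine (norm_add_le _ _).trans ?_
  have hsec : ‖∑ e ∈ P ×ˢ P, qdsK d e.1 e.2 * (f (a * Y) (nm e.1) * (starRingEnd ℂ) (f (a * Y) (nm e.2))) *
        ((qdsT h N Y e - qdsF h η (h1 / 2) (nm e.1 / Y) (nm e.2 / Y) (Y * ang e.1 e.2 / N) : ℝ) : ℂ)‖ ≤
      ε / 2 * N * Y := by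
    have hpt : ∀ e ∈ P ×ˢ P, ‖qdsK d e.1 e.2 * (f (a * Y) (nm e.1) * (starRingEnd ℂ) (f (a * Y) (nm e.2))) *
        ((qdsT h N Y e - qdsF h η (h1 / 2) (nm e.1 / Y) (nm e.2 / Y) (Y * ang e.1 e.2 / N) : ℝ) : ℂ)‖ ≤
        2 * ((if h1 / 4 * Y ≤ nm e.1 ∧ h1 / 4 * Y ≤ nm e.2 ∧ |ang e.1 e.2| ≤ 2 / h1 * N / Y then η else 0) +
          (if qdsBad h2 η N Y e then 2 else 0)) := by
      intro e he
      rw [mem_product, hP, mem_PV, mem_PV] at he
      have hcm := qds_cmp hh hη hN1 hY0 hY1' hY3 hY4 hY5 hw' hhu' e he.1.2 he.2.2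
      set DD := qdsT h N Y e - qdsF h η (h1 / 2) (nm e.1 / Y) (nm e.2 / Y) (Y * ang e.1 e.2 / N) with hDD
      have hKf : ‖qdsK d e.1 e.2 * (f (a * Y) (nm e.1) * (starRingEnd ℂ) (f (a * Y) (nm e.2)))‖ ≤ 2 := by
        rw [norm_mul, norm_mul, RCLike.norm_conj]
        have q1 := qdsK_bd d e.1 e.2
        have q2 : ‖f (a * Y) (nm e.1)‖ * ‖f (a * Y) (nm e.2)‖ ≤ 1 := mul_le_one₀ (hf _ _) (norm_nonneg _) (hf _ _)
        have q3 : 0 ≤ ‖f (a * Y) (nm e.1)‖ * ‖f (a * Y) (nm e.2)‖ := by positivity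
        exact (mul_le_mul q1 q2 q3 zero_le_two).trans (by rw [mul_one])
      rw [norm_mul, Complex.norm_real, Real.norm_eq_abs]
      refine mul_le_mul hKf ?_ (abs_nonneg _) (by norm_num)
      rcases hcm with ⟨m1, m2⟩ | ⟨m1, m2, m3, m4, m5⟩ | m1
      · rw [if_pos m2]
        have : (0 : ℝ) ≤ if qdsBad h2 η N Y e then 2 else 0 := by split_ifs <;> norm_num
        linarith
      · rw [if_pos ⟨m2, m3, m4⟩, if_pos m5]
        linarith
      · have t1 : (0 : ℝ) ≤ if qdsBad h2 η N Y e then 2 else 0 := by split_ifs <;> norm_num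
        have t2 : (0 : ℝ) ≤ if h1 / 4 * Y ≤ nm e.1 ∧ h1 / 4 * Y ≤ nm e.2 ∧ |ang e.1 e.2| ≤ 2 / h1 * N / Y then η
            else 0 := by
          split_ifs
          · exact hη.le
          · exact le_rfl
        linarith
    refine (norm_sum_le _ _).trans ((sum_le_sum hpt).trans ?_)
    rw [← mul_sum, sum_add_distrib, ← sum_filter, ← sum_filter, sum_const, sum_const, nsmul_eq_mul, nsmul_eq_mul]
    have hb := qds_bad hC1 hη hη1 h2p hcnt (N := N) (Y := Y) (by linarith) (3 * h2 * Y)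
    rw [← hP] at hb
    have hb2 : (((P ×ˢ P).filter (fun e : G × G => h1 / 4 * Y ≤ nm e.1 ∧ h1 / 4 * Y ≤ nm e.2 ∧
        |ang e.1 e.2| ≤ 2 / h1 * N / Y)).card : ℝ) ≤ C * N * Y := by
      refine le_trans (le_of_eq ?_) hB
      congr
    have hb1 : (((P ×ˢ P).filter (fun e : G × G => qdsBad h2 η N Y e)).card : ℝ) ≤ η * N * (C1 * (h2 * Y)) := by
      refine le_trans (le_of_eq ?_) hb
      congr
    have t1 := mul_le_mul_of_nonneg_right hb2 hη.le
    have hNY : 0 ≤ (N : ℝ) * Y := by positivity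
    have t3 : 2 * (C * N * Y * η + η * N * (C1 * (h2 * Y)) * 2) = η * (4 * K) / 2 * ((N : ℝ) * Y) := by
      rw [hK]
      ring
    have t4 : η * (4 * K) / 2 * ((N : ℝ) * Y) ≤ ε / 2 * ((N : ℝ) * Y) :=
      mul_le_mul_of_nonneg_right (by linarith) hNY
    calc _ ≤ 2 * (C * N * Y * η + η * N * (C1 * (h2 * Y)) * 2) := by linarith
      _ = η * (4 * K) / 2 * ((N : ℝ) * Y) := t3
      _ ≤ ε / 2 * ((N : ℝ) * Y) := t4
      _ = ε / 2 * N * Y := by ring
  refine (add_le_add hA hsec).trans (le_of_eq ?_)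
  ring

end Pool.Agent.LPr

end

/-! ### from `Lib_MP_f1a94e_ecm.ZeroF` -/

section

/-!
# Piece M-ZEROF: the zero frequency
-/

set_option autoImplicit false

namespace Pool.Agent.ECM

open Finset Pool.Agent.GaussMR Pool.Agent.GaussCM Pool.Agent.OmAll

private theorem zerof_star_odd {w : G} (h : Odd (nm w)) : Odd (nm (star w)) := by
  rwa [nm_star]

/-- `Ls 2 B` tends to infinity -/
private theorem zerof_Ls (M : ℝ) : ∃ B0 : ℝ, 2 ≤ B0 ∧ ∀ B : ℝ, B0 ≤ B → M ≤ Ls 2 B := by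
  obtain ⟨C, hC⟩ := Ls_bounds
  refine ⟨max 2 (Real.exp (Real.exp (2 * (M + C) + Real.log (Real.log 2)))), le_max_left _ _,
    fun B hB => ?_⟩
  have h2 : 2 ≤ B := (le_max_left _ _).trans hB
  have h3 : Real.exp (Real.exp (2 * (M + C) + Real.log (Real.log 2))) ≤ B :=
    (le_max_right _ _).trans hB
  have hb := hC 2 B le_rfl h2
  rw [abs_le] at hb
  have h4 : Real.exp (2 * (M + C) + Real.log (Real.log 2)) ≤ Real.log B := by
    rw [Real.le_log_iff_exp_le (by linarith)]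
    exact h3
  have h5 : 2 * (M + C) + Real.log (Real.log 2) ≤ Real.log (Real.log B) := by
    rw [Real.le_log_iff_exp_le (lt_of_lt_of_le (Real.exp_pos _) h4)]
    exact h4
  linarith [hb.1]

private theorem zerof_fc (F : G → ℂ) {X : ℝ} (hX : 0 < X) :
    fcC F X 0 = (X : ℂ) * Af F (Real.log X) := by
  unfold fcC Af
  rw [Real.exp_log hX, Real.exp_neg, Real.exp_log hX]
  have h1 : ∀ z ∈ V X, F z * xi (-0) z = F z := by
    intro z _
    simp [xi]
  rw [Finset.sum_congr rfl h1]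
  have h2 : (X : ℂ) ≠ 0 := by exact_mod_cast hX.ne'
  push_cast
  rw [← mul_assoc, mul_inv_cancel₀ h2, one_mul]

/-- If `χ ii ≠ 1`: `fc_unit` (`FL χ ii = χ ii`, `nm ii = 1`, `xi 0 = 1`) gives `0`. Otherwise apply `avg_core`, `avg_all`, `point` to `A = Af (FL χ)` (`af_bd`, `af_lip` with a common constant), `c0` from `nonpret`; the family for given `T0, δ`: `I = PP 2 B`, `c w = (F w + F (star w)) / (nm w * 2 Ls 2 B)`, `lam w = log nm w`, with `B ≥ B0(T0)`
so large that `C / sqrt (Ls 2 B) ≤ δ` (`Ls_bounds`), `s0` with `B^20 ≤ exp s0` (`af_conv`). Finally `fcC F X 0 = X * Af F (log X)`. -/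
theorem zero_freq (D : ℕ) (hD : 0 < D) (χ : G → ℂ) (hχ : Chi D χ) (ε : ℝ) (hε : 0 < ε) : ∃ X0 : ℝ, ∀ X : ℝ, X0 ≤ X →
    ‖fcC (FL χ) X 0‖ ≤ ε * X := by
  have hCM : CM (FL χ) := cm_FL D χ hχ
  by_cases hii : χ ii = 1
  swap
  · refine ⟨0, fun X hX => ?_⟩
    have h0 : fcC (FL χ) X 0 = 0 := by
      apply fc_unit _ hCM
      have h1 : FL χ ii = χ ii := by simp [FL, nm_ii]
      have h2 : xi (-0) ii = 1 := by simp [xi]
      rw [h1, h2, mul_one]
      exact hii
    rw [h0, norm_zero]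
    positivity
  · obtain ⟨C1, hC1, hb⟩ := af_bd
    obtain ⟨C2, hC2, hl⟩ := af_lip
    obtain ⟨C3, hC3, hconv⟩ := af_conv
    obtain ⟨c0, hc0, hnp⟩ := nonpret D hD χ hχ hii
    set F := FL χ with hF
    set C : ℝ := max C1 C2 with hC
    have hCpos : 0 < C := lt_of_lt_of_le hC1 (le_max_left _ _)
    have hb' : ∀ s, 0 ≤ s → ‖Af F s‖ ≤ C := fun s hs => (hb F hCM s hs).trans (le_max_left _ _)
    have hl' : ∀ s h : ℝ, 0 ≤ s → 0 ≤ h → h ≤ 1 →
        ‖Af F (s + h) - Af F s‖ ≤ C * (h + Real.exp (-(s / 4))) := by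
      intro s h hs hh h1
      refine (hl F hCM s h hs hh h1).trans ?_
      apply mul_le_mul_of_nonneg_right (le_max_right _ _)
      positivity
    have hm : ∀ T0 δ : ℝ, 0 < δ → ∃ (I : Finset G) (c : G → ℂ) (lam : G → ℝ) (s0 : ℝ),
        (∀ i ∈ I, 0 ≤ lam i) ∧ ∑ i ∈ I, ‖c i‖ ≤ 1 ∧
        (∀ s, s0 ≤ s → ‖Af F s - ∑ i ∈ I, c i * Af F (s - lam i)‖ ≤ δ) ∧
        ∀ t : ℝ, |t| ≤ T0 →
          (∑ i ∈ I, c i * Complex.exp (-((t * lam i : ℝ) : ℂ) * Complex.I)).re ≤ 1 - c0 := by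
      intro T0 δ hδ
      obtain ⟨B0, hB0⟩ := hnp T0
      obtain ⟨B1, hB1, hLs⟩ := zerof_Ls (max 1 ((C3 / δ) ^ 2))
      set B : ℝ := max B0 B1 with hB
      have hB2 : 2 ≤ B := hB1.trans (le_max_right _ _)
      have hL := hLs B (le_max_right _ _)
      have hL1 : 1 ≤ Ls 2 B := (le_max_left _ _).trans hL
      have hL2 : (C3 / δ) ^ 2 ≤ Ls 2 B := (le_max_right _ _).trans hL
      have hLpos : 0 < Ls 2 B := by linarith
      refine ⟨PP 2 B, fun w => (F w + F (star w)) / ((nm w : ℂ) * ((2 * Ls 2 B : ℝ) : ℂ)),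
        fun w => Real.log (nm w), Real.log (B ^ 20), ?_, ?_, ?_, ?_⟩
      · intro w hw
        have h1 := (mem_PP.1 hw).1
        apply Real.log_nonneg
        linarith
      · have h1 : ∀ w ∈ PP 2 B, ‖(F w + F (star w)) / ((nm w : ℂ) * ((2 * Ls 2 B : ℝ) : ℂ))‖ ≤
            1 / (nm w : ℝ) * (1 / Ls 2 B) := by
          intro w hw
          obtain ⟨hw1, _, hw3, _⟩ := mem_PP.1 hw
          have hw0 : (0 : ℝ) < nm w := by linarith
          have hodd : Odd (nm w) := by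
            rcases hw3.eq_two_or_odd' with h | h
            · rw [h] at hw1
              norm_num at hw1
            · exact h
          have hn1 : ‖F w + F (star w)‖ ≤ 2 := by
            refine (norm_add_le _ _).trans ?_
            have := hCM.bd w hodd
            have := hCM.bd (star w) (zerof_star_odd hodd)
            linarith
          rw [norm_div, norm_mul, Complex.norm_natCast, Complex.norm_real,
            Real.norm_of_nonneg (by positivity)]
          rw [div_le_iff₀ (by positivity)]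
          refine hn1.trans (le_of_eq ?_)
          field_simp
        refine (Finset.sum_le_sum h1).trans ?_
        rw [← Finset.sum_mul]
        show Ls 2 B * (1 / Ls 2 B) ≤ 1
        rw [mul_one_div_cancel hLpos.ne']
      · intro s hs
        have hBpos : (0 : ℝ) < B ^ 20 := by positivity
        have hexp : B ^ 20 ≤ Real.exp s := by
          rw [← Real.log_le_iff_le_exp hBpos]
          exact hs
        have h1 := hconv 2 B s le_rfl hB2 hexp hL1 F hCM
        have h2 : ∑ w ∈ PP 2 B, (F w + F (star w)) / ((nm w : ℂ) * ((2 * Ls 2 B : ℝ) : ℂ)) *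
              Af F (s - Real.log (nm w)) =
            ((1 / (2 * Ls 2 B) : ℝ) : ℂ) *
              ∑ w ∈ PP 2 B, (F w + F (star w)) / (nm w : ℂ) * Af F (s - Real.log (nm w)) := by
          rw [Finset.mul_sum]
          refine Finset.sum_congr rfl fun w _ => ?_
          push_cast
          rw [← div_div]
          ring
        rw [h2]
        refine h1.trans ?_
        rw [div_le_iff₀ (Real.sqrt_pos.2 hLpos)]
        have h3 : C3 / δ ≤ Real.sqrt (Ls 2 B) := by
          apply Real.le_sqrt_of_sq_le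
          exact hL2
        rw [div_le_iff₀ hδ] at h3
        linarith
      · intro t ht
        have h1 := hB0 B (le_max_left _ _) t ht
        have h2 : ∑ w ∈ PP 2 B, (F w + F (star w)) / ((nm w : ℂ) * ((2 * Ls 2 B : ℝ) : ℂ)) *
              Complex.exp (-((t * Real.log (nm w) : ℝ) : ℂ) * Complex.I) =
            ((1 / (2 * Ls 2 B) : ℝ) : ℂ) * mult F 2 B t := by
          unfold mult
          rw [Finset.mul_sum]
          refine Finset.sum_congr rfl fun w _ => ?_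
          push_cast
          rw [← div_div]
          ring
        rw [h2, Complex.re_ofReal_mul]
        calc 1 / (2 * Ls 2 B) * (mult F 2 B t).re ≤ 1 / (2 * Ls 2 B) * ((1 - c0) * (2 * Ls 2 B)) :=
              mul_le_mul_of_nonneg_left h1 (by positivity)
          _ = 1 - c0 := by field_simp
    have hcore := avg_core (Af F) C c0 hCpos hc0 hb' hl' hm
    have hall : ∀ h : ℝ, 0 < h → ∀ ε : ℝ, 0 < ε → ∃ N0 : ℕ, ∀ N : ℕ, N0 ≤ N →
        ∑ n ∈ range N, ‖Af F (n * h)‖ ^ 2 ≤ ε * N :=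
      fun h hh ε hε => avg_all (Af F) C hCpos hl' hcore h hh ε hε
    obtain ⟨s0, hs0⟩ := point F hCM hall ε hε
    refine ⟨max 1 (Real.exp s0), fun X hX => ?_⟩
    have hX1 : 1 ≤ X := (le_max_left _ _).trans hX
    have hXpos : 0 < X := by linarith
    have hs : s0 ≤ Real.log X := by
      rw [Real.le_log_iff_exp_le hXpos]
      exact (le_max_right _ _).trans hX
    rw [zerof_fc F hXpos, norm_mul, Complex.norm_real, Real.norm_of_nonneg hXpos.le]
    have := mul_le_mul_of_nonneg_left (hs0 (Real.log X) hs) hXpos.le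
    linarith

end Pool.Agent.ECM

end

/-! ### from `Lib_MP_f1a94e_lp.BaseC` -/

section

/-!
# Piece BASEC: mean values of characters
-/

set_option autoImplicit false

namespace Pool.Agent.LPr

open Finset Pool.Agent.GaussMR Pool.Agent.GaussCM Pool.Agent.OmAll Pool.Agent.OmEq Pool.Agent.ECM Filter

private theorem bc_cg_iff (D : ℕ) (u v : G) : cg D u v ↔ ((D : ℤ) : G) ∣ u - v := by
  unfold cg
  rw [Zsqrtd.intCast_dvd]
  simp

private theorem bc_cg_symm {D : ℕ} {u v : G} (h : cg D u v) : cg D v u := by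
  rw [bc_cg_iff] at *
  rw [← neg_sub]; exact (dvd_neg).2 h

private theorem bc_cg_trans {D : ℕ} {u v w : G} (h : cg D u v) (h' : cg D v w) : cg D u w := by
  rw [bc_cg_iff] at *
  have : u - w = (u - v) + (v - w) := by ring
  rw [this]; exact dvd_add h h'

private theorem bc_cg_mul {D : ℕ} {u v : G} (w : G) (h : cg D u v) : cg D (w * u) (w * v) := by
  rw [bc_cg_iff] at *
  rw [← mul_sub]; exact dvd_mul_of_dvd_right h w

private theorem bc_cg_mul' {D : ℕ} {u v : G} (w : G) (h : cg D u v) : cg D (u * w) (v * w) := by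
  rw [mul_comm u, mul_comm v]; exact bc_cg_mul w h

/-- representative with coordinates in `[0, D)` -/
private def bcrd (D : ℕ) (z : G) : G := ⟨z.re % D, z.im % D⟩

private noncomputable def bcR (D : ℕ) : Finset G :=
  open Classical in ((range D ×ˢ range D).image (fun w : ℕ × ℕ => (⟨(w.1 : ℤ), (w.2 : ℤ)⟩ : G)))

private theorem bc_mem (D : ℕ) (z : G) :
    z ∈ bcR D ↔ (0 ≤ z.re ∧ z.re < D) ∧ (0 ≤ z.im ∧ z.im < D) := by
  classical
  unfold bcR
  rw [mem_image]
  constructor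
  · rintro ⟨w, hw, rfl⟩
    rw [mem_product, mem_range, mem_range] at hw
    refine ⟨⟨by simp, by simpa using hw.1⟩, ⟨by simp, by simpa using hw.2⟩⟩
  · rintro ⟨⟨h1, h2⟩, h3, h4⟩
    refine ⟨(z.re.toNat, z.im.toNat), ?_, ?_⟩
    · rw [mem_product, mem_range, mem_range]
      constructor
      · show z.re.toNat < D
        omega
      · show z.im.toNat < D
        omega
    · apply Zsqrtd.ext
      · simp [h1]
      · simp [h3]

private theorem bc_card (D : ℕ) : (bcR D).card = D ^ 2 := by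
  classical
  unfold bcR
  rw [card_image_of_injective, card_product, card_range]
  · ring
  · rintro ⟨a, b⟩ ⟨a', b'⟩ h
    have h1 := congrArg Zsqrtd.re h
    have h2 := congrArg Zsqrtd.im h
    simp only at h1 h2
    rw [Prod.mk.injEq]
    exact ⟨by exact_mod_cast h1, by exact_mod_cast h2⟩

private theorem bc_rd_mem (D : ℕ) (hD : 0 < D) (z : G) : bcrd D z ∈ bcR D := by
  rw [bc_mem]
  have hD' : (0 : ℤ) < D := by exact_mod_cast hD
  refine ⟨⟨Int.emod_nonneg _ hD'.ne', Int.emod_lt_of_pos _ hD'⟩,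
    ⟨Int.emod_nonneg _ hD'.ne', Int.emod_lt_of_pos _ hD'⟩⟩

private theorem bc_rd_cg (D : ℕ) (z : G) : cg D (bcrd D z) z := by
  unfold cg bcrd
  constructor
  · have := Int.emod_add_mul_ediv z.re D
    exact ⟨-(z.re / D), by simp only; linarith⟩
  · have := Int.emod_add_mul_ediv z.im D
    exact ⟨-(z.im / D), by simp only; linarith⟩

private theorem bc_unique (D : ℕ) {u v : G} (hu : u ∈ bcR D) (hv : v ∈ bcR D)
    (h : cg D u v) : u = v := by
  rw [bc_mem] at hu hv
  obtain ⟨h1, h2⟩ := h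
  have key : ∀ a b : ℤ, 0 ≤ a → a < D → 0 ≤ b → b < D → (D : ℤ) ∣ a - b → a = b := by
    intro a b ha ha' hb hb' hd
    have := Int.eq_zero_of_abs_lt_dvd hd (by rw [abs_lt]; constructor <;> linarith)
    linarith
  exact Zsqrtd.ext (key _ _ hu.1.1 hu.1.2 hv.1.1 hv.1.2 h1) (key _ _ hu.2.1 hu.2.2 hv.2.1 hv.2.2 h2)

private theorem bc_sum_zero (D : ℕ) (hD : 0 < D) (χ : G → ℂ) (hχ : Chi D χ) (hp : ¬ Pri D χ) :
    ∑ c ∈ bcR D, χ c = 0 := by
  unfold Pri at hp
  push Not at hp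
  obtain ⟨z, ⟨w, hw⟩, hz⟩ := hp
  have hw' : cg D (w * z) 1 := by rwa [mul_comm]
  have h1 : ∑ c ∈ bcR D, χ c = ∑ c ∈ bcR D, χ (z * c) := by
    refine (Finset.sum_nbij' (fun c => bcrd D (z * c)) (fun c => bcrd D (w * c)) ?_ ?_ ?_ ?_ ?_).symm
    · intro c _; exact bc_rd_mem D hD _
    · intro c _; exact bc_rd_mem D hD _
    · intro c hc
      refine bc_unique D (bc_rd_mem D hD _) hc ?_
      refine bc_cg_trans (bc_rd_cg D _) ?_
      refine bc_cg_trans (bc_cg_mul w (bc_rd_cg D _)) ?_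
      rw [← mul_assoc]
      have := bc_cg_mul' c hw'
      rwa [one_mul] at this
    · intro c hc
      refine bc_unique D (bc_rd_mem D hD _) hc ?_
      refine bc_cg_trans (bc_rd_cg D _) ?_
      refine bc_cg_trans (bc_cg_mul z (bc_rd_cg D _)) ?_
      rw [← mul_assoc]
      have := bc_cg_mul' c hw
      rwa [one_mul] at this
    · intro c _
      exact (hχ.per _ _ (bc_rd_cg D _)).symm
  have h2 : ∑ c ∈ bcR D, χ (z * c) = χ z * ∑ c ∈ bcR D, χ c := by
    rw [mul_sum]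
    exact sum_congr rfl (fun c _ => hχ.mul z c)
  rw [h2] at h1
  have h3 : (χ z - 1) * ∑ c ∈ bcR D, χ c = 0 := by
    rw [sub_mul, one_mul, ← h1, sub_self]
  rcases mul_eq_zero.1 h3 with h4 | h4
  · exact absurd (sub_eq_zero.1 h4) hz
  · exact h4

open Classical in
private theorem bc_split (D : ℕ) (hD : 0 < D) (Y : ℝ) (f : G → ℂ) :
    ∑ z ∈ ball Y, f z = ∑ c ∈ bcR D, ∑ z ∈ (ball Y).filter (fun z => cg D z c), f z := by
  rw [← Finset.sum_fiberwise_of_maps_to (s := ball Y) (t := bcR D) (g := bcrd D)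
    (fun z _ => bc_rd_mem D hD z) f]
  apply sum_congr rfl
  intro c hc
  apply sum_congr _ (fun _ _ => rfl)
  apply filter_congr
  intro z _
  constructor
  · intro h
    rw [← h]
    exact bc_cg_symm (bc_rd_cg D z)
  · intro h
    exact bc_unique D (bc_rd_mem D hD _) hc (bc_cg_trans (bc_rd_cg D z) h)

open Classical in
/-- the sums over balls -/
private theorem bc_ball (D : ℕ) (hD : 0 < D) (χ : G → ℂ) (hχ : Chi D χ) :
    ∃ (A : ℂ) (C : ℝ), 0 < C ∧ (¬ Pri D χ → A = 0) ∧ ∀ Y : ℝ, 0 ≤ Y →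
      ‖∑ z ∈ ball Y, χ z - A * (Y : ℂ)‖ ≤ C * Real.sqrt Y := by
  obtain ⟨C1, hC1, h1⟩ := countG D hD
  obtain ⟨κ, C2, hκ, hC2, h2⟩ := ball_asymp
  have hDr : (0 : ℝ) < (D : ℝ) := by exact_mod_cast hD
  set A : ℂ := (∑ c ∈ bcR D, χ c) * ((κ / (D : ℝ) ^ 2 : ℝ) : ℂ) with hA
  have hAn : ‖A‖ ≤ κ := by
    rw [hA, norm_mul, Complex.norm_real, Real.norm_of_nonneg (by positivity)]
    have h3 : ‖∑ c ∈ bcR D, χ c‖ ≤ (D : ℝ) ^ 2 := by
      calc ‖∑ c ∈ bcR D, χ c‖ ≤ ∑ c ∈ bcR D, ‖χ c‖ := norm_sum_le _ _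
        _ ≤ ∑ c ∈ bcR D, (1 : ℝ) := sum_le_sum fun c _ => hχ.le c
        _ = (D : ℝ) ^ 2 := by rw [sum_const, nsmul_eq_mul, mul_one, bc_card]; push_cast; ring
    calc ‖∑ c ∈ bcR D, χ c‖ * (κ / (D : ℝ) ^ 2) ≤ (D : ℝ) ^ 2 * (κ / (D : ℝ) ^ 2) :=
          mul_le_mul_of_nonneg_right h3 (by positivity)
      _ = κ := by field_simp
  refine ⟨A, (D : ℝ) ^ 2 * C1 + 2 * C2 + κ, by positivity, ?_, ?_⟩
  · intro hp
    rw [hA, bc_sum_zero D hD χ hχ hp, zero_mul]
  intro Y hY
  have hs0 := Real.sqrt_nonneg Y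
  rcases lt_or_ge Y 1 with hY1 | hY1
  · have hz : ∑ z ∈ ball Y, χ z = 0 := by
      apply sum_eq_zero
      intro z hz
      rw [mem_ball] at hz
      have h3 : (nm z : ℝ) < 1 := lt_of_le_of_lt hz hY1
      have h4 : nm z = 0 := by
        have : nm z < 1 := by exact_mod_cast h3
        omega
      apply hχ.even
      rw [h4]
      decide
    rw [hz, zero_sub, norm_neg, norm_mul, Complex.norm_real, Real.norm_of_nonneg hY]
    have h5 : Y ≤ Real.sqrt Y := by
      have h6 := Real.mul_self_sqrt hY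
      have h7 : Real.sqrt Y ≤ 1 := Real.sqrt_le_one.2 hY1.le
      nlinarith
    have h8 : 0 ≤ (D : ℝ) ^ 2 * C1 + 2 * C2 := by positivity
    calc ‖A‖ * Y ≤ κ * Real.sqrt Y := mul_le_mul hAn h5 hY hκ.le
      _ ≤ ((D : ℝ) ^ 2 * C1 + 2 * C2 + κ) * Real.sqrt Y := by nlinarith
  · have hs1 : 1 ≤ Real.sqrt Y := Real.one_le_sqrt.2 hY1
    set N : G → ℝ := fun b => (((ball Y).filter (fun z => cg D z b)).card : ℝ) with hN
    have hS : ∑ z ∈ ball Y, χ z = ∑ c ∈ bcR D, χ c * ((N c : ℝ) : ℂ) := by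
      rw [bc_split D hD Y]
      apply sum_congr rfl
      intro c _
      have : ∀ z ∈ (ball Y).filter (fun z => cg D z c), χ z = χ c := by
        intro z hz
        rw [mem_filter] at hz
        exact hχ.per _ _ hz.2
      rw [sum_congr rfl this, sum_const, nsmul_eq_mul, mul_comm]
      push_cast [hN]
      rfl
    have hT : ((ball Y).card : ℝ) = ∑ c ∈ bcR D, N c := by
      have h3 := bc_split D hD Y (fun _ => (1 : ℂ))
      simp only [sum_const, nsmul_eq_mul, mul_one] at h3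
      have h4 : ((((ball Y).card : ℝ)) : ℂ) = ((∑ c ∈ bcR D, N c : ℝ) : ℂ) := by
        push_cast [hN]
        exact h3
      exact_mod_cast h4
    have hcl : ∀ b, |(D : ℝ) ^ 2 * N b - κ * Y| ≤ ((D : ℝ) ^ 2 * C1 + 2 * C2) * Real.sqrt Y := by
      intro b
      have h3 : |(D : ℝ) ^ 2 * N b - (ball Y).card| ≤ (D : ℝ) ^ 2 * (C1 * Real.sqrt Y) := by
        have h4 : (D : ℝ) ^ 2 * N b - (ball Y).card = ∑ c ∈ bcR D, (N b - N c) := by
          rw [sum_sub_distrib, hT, sum_const, nsmul_eq_mul, bc_card]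
          push_cast
          ring
        rw [h4]
        calc |∑ c ∈ bcR D, (N b - N c)| ≤ ∑ c ∈ bcR D, |N b - N c| := abs_sum_le_sum_abs _ _
          _ ≤ ∑ c ∈ bcR D, C1 * Real.sqrt Y := sum_le_sum fun c _ => h1 Y b c hY1
          _ = _ := by rw [sum_const, nsmul_eq_mul, bc_card]; push_cast; ring
      have h5 := h2 Y hY
      have h6 := abs_sub_le ((D : ℝ) ^ 2 * N b) ((ball Y).card : ℝ) (κ * Y)
      nlinarith
    have hterm : ∀ c ∈ bcR D, ‖χ c * ((N c : ℝ) : ℂ) - χ c * (((κ / (D : ℝ) ^ 2 : ℝ) : ℂ) * (Y : ℂ))‖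
        ≤ ((D : ℝ) ^ 2 * C1 + 2 * C2) * Real.sqrt Y / (D : ℝ) ^ 2 := by
      intro c _
      rw [← mul_sub, norm_mul]
      have h3 : ((N c : ℝ) : ℂ) - ((κ / (D : ℝ) ^ 2 : ℝ) : ℂ) * (Y : ℂ) =
          (((((D : ℝ) ^ 2 * N c - κ * Y) / (D : ℝ) ^ 2 : ℝ)) : ℂ) := by
        rw [← Complex.ofReal_mul, ← Complex.ofReal_sub]
        congr 1
        field_simp
      rw [h3, Complex.norm_real, Real.norm_eq_abs, abs_div,
        abs_of_pos (by positivity : (0 : ℝ) < (D : ℝ) ^ 2)]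
      calc ‖χ c‖ * (|(D : ℝ) ^ 2 * N c - κ * Y| / (D : ℝ) ^ 2)
          ≤ 1 * ((((D : ℝ) ^ 2 * C1 + 2 * C2) * Real.sqrt Y) / (D : ℝ) ^ 2) :=
            mul_le_mul (hχ.le c) (div_le_div_of_nonneg_right (hcl c) (by positivity))
              (by positivity) (by norm_num)
        _ = _ := one_mul _
    have h7 : ∑ z ∈ ball Y, χ z - A * (Y : ℂ) =
        ∑ c ∈ bcR D, (χ c * ((N c : ℝ) : ℂ) - χ c * (((κ / (D : ℝ) ^ 2 : ℝ) : ℂ) * (Y : ℂ))) := by
      rw [hS, sum_sub_distrib, ← sum_mul, hA]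
      ring
    rw [h7]
    calc _ ≤ ∑ c ∈ bcR D, ‖χ c * ((N c : ℝ) : ℂ) - χ c * (((κ / (D : ℝ) ^ 2 : ℝ) : ℂ) * (Y : ℂ))‖ :=
          norm_sum_le _ _
      _ ≤ ∑ c ∈ bcR D, ((D : ℝ) ^ 2 * C1 + 2 * C2) * Real.sqrt Y / (D : ℝ) ^ 2 := sum_le_sum hterm
      _ = ((D : ℝ) ^ 2 * C1 + 2 * C2) * Real.sqrt Y := by
          rw [sum_const, nsmul_eq_mul, bc_card]
          push_cast
          field_simp
      _ ≤ _ := by
          have : 0 ≤ κ * Real.sqrt Y := by positivity
          linarith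

private theorem bc_ob (χ : G → ℂ) (h : ∀ z, ¬ Odd (nm z) → χ z = 0) (Y : ℝ) :
    ∑ z ∈ ob Y, χ z = ∑ z ∈ ball Y, χ z := by
  classical
  apply sum_subset
  · intro z hz
    rw [mem_ob] at hz
    exact mem_ball.2 hz.1
  · intro z hz hz2
    apply h
    intro h3
    exact hz2 (mem_ob.2 ⟨mem_ball.1 hz, h3⟩)

/-- the sum over the multiples of `d` -/
private theorem bc_dvd (χ : G → ℂ) (hm : ∀ z w, χ (z * w) = χ z * χ w) (Y : ℝ) (d : ℕ) (hd : 0 < d) :
    ∑ z ∈ (ob Y).filter (fun z => d ∣ gc z), χ z =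
      if Odd d then χ ((d : ℕ) : G) * ∑ z ∈ ob (Y / (d : ℝ) ^ 2), χ z else 0 := by
  classical
  split_ifs with hodd
  · rw [mul_sum]
    symm
    apply sum_bij (fun w _ => (⟨d * w.re, d * w.im⟩ : G))
    · intro w hw
      rw [mem_ob] at hw
      have e1 : nm (⟨d * w.re, d * w.im⟩ : G) = d ^ 2 * nm w := by
        have : (nm (⟨d * w.re, d * w.im⟩ : G) : ℤ) = d ^ 2 * nm w := by
          rw [nm_eq, nm_eq]; ring
        exact_mod_cast this
      rw [Finset.mem_filter, mem_ob, e1]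
      have hd0 : (0 : ℝ) < (d : ℝ) ^ 2 := by positivity
      have h1 := hw.1
      rw [le_div_iff₀ hd0] at h1
      refine ⟨⟨by push_cast; linarith, (hodd.pow).mul hw.2⟩, ?_⟩
      unfold gc
      rw [Int.dvd_gcd_iff]
      simp
    · intro w _ w' _ h
      have a1 := congrArg Zsqrtd.re h
      have a2 := congrArg Zsqrtd.im h
      simp only at a1 a2
      have hd0 : (d : ℤ) ≠ 0 := by exact_mod_cast hd.ne'
      apply Zsqrtd.ext
      · exact mul_left_cancel₀ hd0 a1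
      · exact mul_left_cancel₀ hd0 a2
    · intro z hz
      rw [Finset.mem_filter, mem_ob] at hz
      obtain ⟨⟨hz1, hz2⟩, hz3⟩ := hz
      have h1 : (d : ℤ) ∣ z.re := (Int.natCast_dvd_natCast.2 hz3).trans (Int.gcd_dvd_left _ _)
      have h2 : (d : ℤ) ∣ z.im := (Int.natCast_dvd_natCast.2 hz3).trans (Int.gcd_dvd_right _ _)
      obtain ⟨a, ha⟩ := h1
      obtain ⟨b, hb⟩ := h2
      have e1 : nm z = d ^ 2 * nm (⟨a, b⟩ : G) := by
        have : (nm z : ℤ) = d ^ 2 * nm (⟨a, b⟩ : G) := by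
          rw [nm_eq, nm_eq, ha, hb]; ring
        exact_mod_cast this
      refine ⟨⟨a, b⟩, ?_, ?_⟩
      · rw [mem_ob]
        have hd0 : (0 : ℝ) < (d : ℝ) ^ 2 := by positivity
        rw [le_div_iff₀ hd0]
        rw [e1] at hz1 hz2
        push_cast at hz1
        exact ⟨by linarith, (Nat.odd_mul.1 hz2).2⟩
      · apply Zsqrtd.ext
        · simp [ha]
        · simp [hb]
    · intro w _
      rw [← hm]
      congr 1
      apply Zsqrtd.ext <;> simp
  · rw [sum_eq_zero]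
    intro z hz
    rw [mem_filter, mem_ob] at hz
    exfalso
    obtain ⟨⟨_, hz2⟩, hdz⟩ := hz
    rw [Nat.not_odd_iff_even] at hodd
    have h1 : (2 : ℤ) ∣ z.re := (Int.natCast_dvd_natCast.2 ((even_iff_two_dvd.1 hodd).trans hdz)).trans
      (Int.gcd_dvd_left _ _)
    have h2 : (2 : ℤ) ∣ z.im := (Int.natCast_dvd_natCast.2 ((even_iff_two_dvd.1 hodd).trans hdz)).trans
      (Int.gcd_dvd_right _ _)
    have h3 := odd_nm_iff.1 hz2
    rw [Int.odd_iff] at h3
    omega

/-- Moebius inversion -/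
private theorem bc_moebius (χ : G → ℂ) (hm : ∀ z w, χ (z * w) = χ z * χ w)
    (he : ∀ z, ¬ Odd (nm z) → χ z = 0) (X : ℝ) (D : ℕ) (hD : Real.sqrt X ≤ D + 1) :
    ∑ z ∈ V X, χ z =
      ∑ d ∈ Finset.range (D + 2), (if Odd d then (ArithmeticFunction.moebius d : ℂ) *
        (χ ((d : ℕ) : G) * ∑ z ∈ ball (X / (d : ℝ) ^ 2), χ z) else 0) := by
  classical
  have h1 : ∑ z ∈ V X, χ z = ∑ z ∈ ob X, if gc z = 1 then χ z else 0 := by
    rw [← Finset.sum_filter]
    apply Finset.sum_congr _ (fun _ _ => rfl)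
    ext z
    rw [mem_V, Finset.mem_filter, mem_ob, prim_iff_gc, and_assoc]
  have h2 : ∀ z ∈ ob X, (if gc z = 1 then χ z else 0) =
      ∑ d ∈ Finset.range (D + 2), if (d ∣ gc z ∧ d ≠ 0) then
        (ArithmeticFunction.moebius d : ℂ) * χ z else 0 := by
    intro z hz
    rw [mem_ob] at hz
    have hz0 := ne_zero_of_odd hz.2
    have hg := gc_pos z hz0
    have hgD : gc z ≤ D + 1 := by
      have a1 : ((gc z ^ 2 : ℕ) : ℝ) ≤ X := le_trans (by exact_mod_cast gc_sq_le z hz0) hz.1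
      push_cast at a1
      have a2 : (gc z : ℝ) ≤ Real.sqrt X := Real.le_sqrt_of_sq_le a1
      have a3 : (gc z : ℝ) ≤ D + 1 := a2.trans hD
      exact_mod_cast a3
    have h3 : ∑ d ∈ Finset.range (D + 2), (if (d ∣ gc z ∧ d ≠ 0) then
        (ArithmeticFunction.moebius d : ℂ) * χ z else 0) =
        ∑ d ∈ (gc z).divisors, (ArithmeticFunction.moebius d : ℂ) * χ z := by
      rw [← Finset.sum_filter]
      apply Finset.sum_congr _ (fun _ _ => rfl)
      ext d
      rw [Finset.mem_filter, Finset.mem_range, Nat.mem_divisors]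
      constructor
      · rintro ⟨_, b1, _⟩
        exact ⟨b1, hg.ne'⟩
      · rintro ⟨b1, b2⟩
        refine ⟨?_, b1, ?_⟩
        · have := Nat.le_of_dvd hg b1
          omega
        · rintro rfl
          exact b2 (zero_dvd_iff.1 b1)
    rw [h3, ← Finset.sum_mul]
    have h4 : ((∑ d ∈ (gc z).divisors, ArithmeticFunction.moebius d : ℤ) : ℂ) =
        if gc z = 1 then (1 : ℂ) else 0 := by
      rw [← ArithmeticFunction.coe_mul_zeta_apply, ArithmeticFunction.moebius_mul_coe_zeta,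
        ArithmeticFunction.one_apply]
      push_cast
      rfl
    push_cast at h4
    rw [h4]
    split_ifs <;> simp
  rw [h1, Finset.sum_congr rfl h2, Finset.sum_comm]
  apply Finset.sum_congr rfl
  intro d _
  rcases Nat.eq_zero_or_pos d with rfl | hd
  · simp
  have h5 := bc_dvd χ hm X d hd
  have h6 : ∑ z ∈ ob X, (if (d ∣ gc z ∧ d ≠ 0) then (ArithmeticFunction.moebius d : ℂ) * χ z else 0) =
      (ArithmeticFunction.moebius d : ℂ) * ∑ z ∈ (ob X).filter (fun z => d ∣ gc z), χ z := by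
    have : ∀ z ∈ ob X, (if (d ∣ gc z ∧ d ≠ 0) then (ArithmeticFunction.moebius d : ℂ) * χ z else 0) =
        if d ∣ gc z then (ArithmeticFunction.moebius d : ℂ) * χ z else 0 := by
      intro z _
      simp [hd.ne']
    rw [Finset.sum_congr rfl this, ← Finset.sum_filter, ← Finset.mul_sum]
  rw [h6, h5, bc_ob χ he]
  split_ifs <;> simp

/-- the coefficients `μ(d) χ(d) / d ^ 2`, `d` odd -/
private noncomputable def bccf (χ : G → ℂ) (d : ℕ) : ℂ :=
  if Odd d then (ArithmeticFunction.moebius d : ℂ) * χ ((d : ℕ) : G) / (d : ℂ) ^ 2 else 0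

private theorem bc_mu (d : ℕ) : ‖(ArithmeticFunction.moebius d : ℂ)‖ ≤ 1 := by
  have h := abs_moebius_le d
  have h1 : ‖((ArithmeticFunction.moebius d : ℝ) : ℂ)‖ ≤ 1 := by
    rw [Complex.norm_real, Real.norm_eq_abs]
    exact h
  have h2 : (((ArithmeticFunction.moebius d : ℝ)) : ℂ) = (ArithmeticFunction.moebius d : ℂ) := by
    push_cast
    rfl
  rwa [h2] at h1

private theorem bc_cf_le (χ : G → ℂ) (hl : ∀ z, ‖χ z‖ ≤ 1) (d : ℕ) :
    ‖bccf χ d‖ ≤ ((d : ℝ) ^ 2)⁻¹ := by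
  unfold bccf
  split_ifs with h
  · rw [norm_div, norm_mul, norm_pow, Complex.norm_natCast, div_eq_mul_inv]
    have h1 := bc_mu d
    have h3 : ‖(ArithmeticFunction.moebius d : ℂ)‖ * ‖χ ((d : ℕ) : G)‖ ≤ 1 * 1 :=
      mul_le_mul h1 (hl _) (norm_nonneg _) (by norm_num)
    have h2 : 0 ≤ ((d : ℝ) ^ 2)⁻¹ := by positivity
    nlinarith
  · rw [norm_zero]; positivity

private theorem bc_summable (χ : G → ℂ) (hl : ∀ z, ‖χ z‖ ≤ 1) : Summable (bccf χ) := by
  apply Summable.of_norm_bounded (g := fun d : ℕ => ((d : ℝ) ^ 2)⁻¹)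
  · have := Real.summable_nat_pow_inv (p := 2)
    exact this.2 (by norm_num)
  · intro d
    exact bc_cf_le χ hl d

private theorem bc_tail (χ : G → ℂ) (hl : ∀ z, ‖χ z‖ ≤ 1) (n : ℕ) :
    ‖∑' d, bccf χ d - ∑ d ∈ Finset.range (n + 1), bccf χ d‖ ≤ 2 / (n + 1) := by
  have h1 : Tendsto (fun N => ‖∑ d ∈ Finset.range N, bccf χ d - ∑ d ∈ Finset.range (n + 1), bccf χ d‖)
      atTop (nhds ‖∑' d, bccf χ d - ∑ d ∈ Finset.range (n + 1), bccf χ d‖) :=
    (((bc_summable χ hl).hasSum.tendsto_sum_nat).sub_const _).norm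
  refine le_of_tendsto h1 ?_
  filter_upwards [eventually_ge_atTop (n + 1)] with N hN
  rw [← Finset.sum_range_add_sum_Ico _ hN, add_sub_cancel_left]
  refine (norm_sum_le _ _).trans ?_
  have h2 : ∑ d ∈ Finset.Ico (n + 1) N, ‖bccf χ d‖ ≤ ∑ d ∈ Finset.Ioo n N, ((d : ℝ) ^ 2)⁻¹ := by
    have : Finset.Ico (n + 1) N = Finset.Ioo n N := by
      ext x; simp only [Finset.mem_Ico, Finset.mem_Ioo]; omega
    rw [this]
    exact Finset.sum_le_sum fun d _ => bc_cf_le χ hl d
  exact h2.trans (sum_Ioo_inv_sq_le n N)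

private theorem bc_main (D : ℕ) (hD : 0 < D) (χ : G → ℂ) (hχ : Chi D χ) :
    ∃ (ρ : ℂ) (C : ℝ), 0 < C ∧ (¬ Pri D χ → ρ = 0) ∧ ∀ X : ℝ, 0 ≤ X →
      ‖∑ z ∈ V X, χ z - ρ * (X : ℂ)‖ ≤ C * Real.sqrt X * Real.log (X + 3) := by
  obtain ⟨A, C, hC, hA, h⟩ := bc_ball D hD χ hχ
  set σ : ℂ := ∑' d, bccf χ d with hσ
  refine ⟨A * σ, 4 * C + 2 * ‖A‖ + 1, by positivity, fun hp => by rw [hA hp, zero_mul], fun X hX => ?_⟩
  set E : ℕ := ⌊Real.sqrt X⌋₊ with hE
  have hs0 := Real.sqrt_nonneg X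
  have hss := Real.mul_self_sqrt hX
  have hE1 : (E : ℝ) ≤ Real.sqrt X := Nat.floor_le hs0
  have hE2 : Real.sqrt X < E + 1 := Nat.lt_floor_add_one _
  have hlog := log_ge_one hX
  rw [bc_moebius χ hχ.mul hχ.even X E hE2.le]
  have hterm : ∀ d ∈ Finset.range (E + 2), ‖(if Odd d then (ArithmeticFunction.moebius d : ℂ) *
      (χ ((d : ℕ) : G) * ∑ z ∈ ball (X / (d : ℝ) ^ 2), χ z) else 0) - A * (X : ℂ) * bccf χ d‖ ≤
      C * Real.sqrt X * ((d : ℝ))⁻¹ := by
    intro d _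
    unfold bccf
    split_ifs with hodd
    · have hd0 : (0 : ℝ) < d := by
        have : 0 < d := hodd.pos
        exact_mod_cast this
      have hdc : (d : ℂ) ≠ 0 := by
        have : d ≠ 0 := hodd.pos.ne'
        exact_mod_cast this
      have h1 := h (X / (d : ℝ) ^ 2) (by positivity)
      have h2 : Real.sqrt (X / (d : ℝ) ^ 2) = Real.sqrt X * (d : ℝ)⁻¹ := by
        rw [Real.sqrt_div' _ (by positivity), Real.sqrt_sq hd0.le, div_eq_mul_inv]
      have h3 : (ArithmeticFunction.moebius d : ℂ) *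
          (χ ((d : ℕ) : G) * ∑ z ∈ ball (X / (d : ℝ) ^ 2), χ z) -
          A * (X : ℂ) * ((ArithmeticFunction.moebius d : ℂ) * χ ((d : ℕ) : G) / (d : ℂ) ^ 2) =
          (ArithmeticFunction.moebius d : ℂ) * (χ ((d : ℕ) : G) *
            (∑ z ∈ ball (X / (d : ℝ) ^ 2), χ z - A * ((X / (d : ℝ) ^ 2 : ℝ) : ℂ))) := by
        push_cast
        ring
      rw [h3, norm_mul, norm_mul]
      have h4 := bc_mu d
      rw [h2] at h1
      calc ‖(ArithmeticFunction.moebius d : ℂ)‖ * (‖χ ((d : ℕ) : G)‖ *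
            ‖∑ z ∈ ball (X / (d : ℝ) ^ 2), χ z - A * ((X / (d : ℝ) ^ 2 : ℝ) : ℂ)‖)
          ≤ 1 * (1 * (C * (Real.sqrt X * (d : ℝ)⁻¹))) :=
            mul_le_mul h4 (mul_le_mul (hχ.le _) h1 (norm_nonneg _) (by norm_num)) (by positivity)
              (by norm_num)
        _ = C * Real.sqrt X * (d : ℝ)⁻¹ := by ring
    · rw [mul_zero, sub_zero, norm_zero]
      positivity
  have hsum1 : ‖∑ d ∈ Finset.range (E + 2), (if Odd d then (ArithmeticFunction.moebius d : ℂ) *
      (χ ((d : ℕ) : G) * ∑ z ∈ ball (X / (d : ℝ) ^ 2), χ z) else 0)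
        - A * (X : ℂ) * ∑ d ∈ Finset.range (E + 2), bccf χ d‖ ≤
      C * Real.sqrt X * ∑ d ∈ Finset.range (E + 2), ((d : ℝ))⁻¹ := by
    rw [Finset.mul_sum, Finset.mul_sum, ← Finset.sum_sub_distrib]
    exact (norm_sum_le _ _).trans (Finset.sum_le_sum hterm)
  have hharm : ∑ d ∈ Finset.range (E + 2), ((d : ℝ))⁻¹ ≤ 4 * Real.log (X + 3) := by
    have e1 : ∑ d ∈ Finset.range (E + 2), ((d : ℝ))⁻¹ = (harmonic (E + 1) : ℝ) := by
      rw [Finset.sum_range_succ', harmonic]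
      push_cast
      simp
    rw [e1]
    have e2 := harmonic_le_one_add_log (E + 1)
    have e3 : Real.log ((E + 1 : ℕ) : ℝ) ≤ Real.log (X + 3) := by
      apply Real.log_le_log (by positivity)
      push_cast
      have : Real.sqrt X ≤ X + 1 := by nlinarith [sq_nonneg (Real.sqrt X - 1)]
      linarith
    linarith
  have htail := bc_tail χ hχ.le (E + 1)
  push_cast at htail
  have hA2 : ‖A * (X : ℂ) * ∑ d ∈ Finset.range (E + 2), bccf χ d - A * σ * (X : ℂ)‖ ≤
      2 * ‖A‖ * Real.sqrt X := by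
    have e1 : A * (X : ℂ) * ∑ d ∈ Finset.range (E + 2), bccf χ d - A * σ * (X : ℂ) =
        -(A * (X : ℂ) * (σ - ∑ d ∈ Finset.range (E + 1 + 1), bccf χ d)) := by ring
    rw [e1, norm_neg, norm_mul, norm_mul, Complex.norm_real, Real.norm_of_nonneg hX]
    have e2 : X * (2 / ((E : ℝ) + 1 + 1)) ≤ 2 * Real.sqrt X := by
      rw [mul_div_assoc', div_le_iff₀ (by positivity)]
      nlinarith
    calc ‖A‖ * X * ‖σ - ∑ d ∈ Finset.range (E + 1 + 1), bccf χ d‖
        ≤ ‖A‖ * X * (2 / ((E : ℝ) + 1 + 1)) := mul_le_mul_of_nonneg_left htail (by positivity)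
      _ = ‖A‖ * (X * (2 / ((E : ℝ) + 1 + 1))) := by ring
      _ ≤ ‖A‖ * (2 * Real.sqrt X) := mul_le_mul_of_nonneg_left e2 (norm_nonneg _)
      _ = 2 * ‖A‖ * Real.sqrt X := by ring
  have hB : C * Real.sqrt X * ∑ d ∈ Finset.range (E + 2), ((d : ℝ))⁻¹ ≤
      C * Real.sqrt X * (4 * Real.log (X + 3)) :=
    mul_le_mul_of_nonneg_left hharm (by positivity)
  have hF : 2 * ‖A‖ * Real.sqrt X ≤ 2 * ‖A‖ * Real.sqrt X * Real.log (X + 3) := by
    have : 0 ≤ 2 * ‖A‖ * Real.sqrt X := by positivity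
    nlinarith
  have hG : 0 ≤ Real.sqrt X * Real.log (X + 3) := by
    have : 0 ≤ Real.log (X + 3) := by linarith
    positivity
  calc _ ≤ C * Real.sqrt X * (4 * Real.log (X + 3)) + 2 * ‖A‖ * Real.sqrt X * Real.log (X + 3) := by
        refine (norm_sub_le_norm_sub_add_norm_sub _
          (A * (X : ℂ) * ∑ d ∈ Finset.range (E + 2), bccf χ d) _).trans ?_
        linarith
    _ ≤ (4 * C + 2 * ‖A‖ + 1) * Real.sqrt X * Real.log (X + 3) := by linarith

/-- PROOF. Moebius inversion as in `card_V_eq` (mr/VAsymp.lean): `∑_(V Y) χ z = ∑_(d odd, d ≤ sqrt Y) μ(d) χ(d) ∑_(z ∈ ball (Y / d²)) χ z` (`χ` vanishes on even elements). `∑_(z ∈ ball Y) χ z / Y → A := (1/D²) π ∑_(c mod D) χ c` for `Y → ∞`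
(in each residue class the number of the elements of the ball is `π Y / D² + o(Y)`: all classes have the same number up to `O(sqrt Y)`, `countG`, and the total number is `π Y + O(sqrt Y)`; any proof that the limit exists is fine),
`‖∑_(ball Y) χ z‖ ≤ C Y` (`Y ≥ 0`), so by dominated convergence (tail `∑_(d > K) C Y / d² ≤ C Y / K`) `∑_(V Y) χ z / Y → ρ := A ∑_(d odd) μ(d) χ(d) / d²`. If `χ` is not principal then `A = 0` (`typeChi` with `k = 0`), so `ρ = 0`. If `χ` is principal: a prime `w` with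
`nm w > D²` is invertible modulo `D` (`chi_norm`), so `χ w = 1`. -/
theorem base_chi (D : ℕ) (hD : 0 < D) (χ : G → ℂ) (hχ : Chi D χ) :
    ∃ ρ : ℂ, Tendsto (fun Y : ℝ => (∑ z ∈ V Y, χ z) / Y) atTop (nhds ρ) ∧
      (ρ = 0 ∨ ∀ w : G, Prime w → (D : ℝ) ^ 2 < nm w → χ w = 1) := by
  obtain ⟨ρ, C, hC, hρ, h⟩ := bc_main D hD χ hχ
  refine ⟨ρ, ?_, ?_⟩
  · rw [tendsto_iff_norm_sub_tendsto_zero]
    have hlim : Tendsto (fun X : ℝ => C * (Real.log (X + 3) / Real.sqrt X)) atTop (nhds 0) := by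
      have h1 : Tendsto (fun X : ℝ => Real.log X / X ^ (1 / 2 : ℝ)) atTop (nhds 0) :=
        (isLittleO_log_rpow_atTop (by norm_num : (0 : ℝ) < 1 / 2)).tendsto_div_nhds_zero
      have h2 : Tendsto (fun X : ℝ => X + 3) atTop atTop := tendsto_atTop_add_const_right _ _ tendsto_id
      have h3 := h1.comp h2
      have h4 : Tendsto (fun X : ℝ => 2 * (Real.log (X + 3) / (X + 3) ^ (1 / 2 : ℝ))) atTop (nhds (2 * 0)) :=
        h3.const_mul 2
      rw [mul_zero] at h4
      have h5 : Tendsto (fun X : ℝ => Real.log (X + 3) / Real.sqrt X) atTop (nhds 0) := by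
        refine squeeze_zero' ?_ ?_ h4
        · filter_upwards [eventually_ge_atTop 1] with X hX
          have : 0 ≤ Real.log (X + 3) := Real.log_nonneg (by linarith)
          positivity
        · filter_upwards [eventually_ge_atTop 1] with X hX
          have h6 : 0 ≤ Real.log (X + 3) := Real.log_nonneg (by linarith)
          have h7 : 0 < Real.sqrt X := Real.sqrt_pos.2 (by linarith)
          rw [← Real.sqrt_eq_rpow, mul_div_assoc']
          rw [div_le_div_iff₀ h7 (Real.sqrt_pos.2 (by linarith))]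
          have h8 : Real.sqrt (X + 3) ≤ 2 * Real.sqrt X := by
            have h9 : Real.sqrt (X + 3) ≤ Real.sqrt (4 * X) := Real.sqrt_le_sqrt (by linarith)
            have h10 : Real.sqrt (4 * X) = 2 * Real.sqrt X := by
              rw [Real.sqrt_mul (by norm_num), show (4 : ℝ) = 2 ^ 2 by norm_num,
                Real.sqrt_sq (by norm_num)]
            linarith
          calc Real.log (X + 3) * Real.sqrt (X + 3) ≤ Real.log (X + 3) * (2 * Real.sqrt X) :=
                mul_le_mul_of_nonneg_left h8 h6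
            _ = 2 * Real.log (X + 3) * Real.sqrt X := by ring
      have h6 := h5.const_mul C
      rwa [mul_zero] at h6
    refine squeeze_zero' (Eventually.of_forall fun X => norm_nonneg _) ?_ hlim
    filter_upwards [eventually_ge_atTop 1] with X hX
    have hX0 : 0 < X := by linarith
    have hXc : (X : ℂ) ≠ 0 := by exact_mod_cast hX0.ne'
    have h1 := h X hX0.le
    have h2 : (∑ z ∈ V X, χ z) / (X : ℂ) - ρ = (∑ z ∈ V X, χ z - ρ * (X : ℂ)) / (X : ℂ) := by
      field_simp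
    rw [h2, norm_div, Complex.norm_real, Real.norm_of_nonneg hX0.le, div_le_iff₀ hX0]
    refine h1.trans (le_of_eq ?_)
    have h3 : 0 < Real.sqrt X := Real.sqrt_pos.2 hX0
    have h4 := Real.mul_self_sqrt hX0.le
    calc C * Real.sqrt X * Real.log (X + 3)
        = C * (Real.log (X + 3) / Real.sqrt X) * (Real.sqrt X * Real.sqrt X) := by
          field_simp
      _ = C * (Real.log (X + 3) / Real.sqrt X) * X := by rw [h4]
  · by_cases hp : Pri D χ
    · right
      intro w hw hD2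
      exact hp w (chi_norm D hD χ hχ w hw hD2).1
    · left
      exact hρ hp

end Pool.Agent.LPr

end

/-! ### from `Lib_MP_f1a94e_eq.Conv` -/

section

/-!
# From edges to factorisations
-/

set_option autoImplicit false

namespace Pool.Agent.OmEq

open Finset Pool.Agent.GaussMR Pool.Agent.OmAll Filter

/-- the factorisations `d e = m ^ 2 + 1`, `1 ≤ m ≤ x`, `α ≤ e / d ≤ β`, with a further condition -/
def FS (α β x : ℝ) (P : ℕ × ℕ → Prop) : Set (ℕ × ℕ) :=
  {r | (∃ m : ℕ, 1 ≤ m ∧ (m : ℝ) ≤ x ∧ r.1 * r.2 = m ^ 2 + 1) ∧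
    (α * r.1 ≤ r.2 ∧ (r.2 : ℝ) ≤ β * r.1) ∧ P r}

theorem log_cond {α β : ℝ} (hα : 0 < α) (hβ : 0 < β) {d e : ℕ} (hd : 0 < d) (he : 0 < e) :
    (Real.log α ≤ Real.log e - Real.log d ∧ Real.log e - Real.log d ≤ Real.log β) ↔
      (α * d ≤ e ∧ (e : ℝ) ≤ β * d) := by
  have hd' : (0 : ℝ) < d := by exact_mod_cast hd
  have he' : (0 : ℝ) < e := by exact_mod_cast he
  constructor
  · rintro ⟨h1, h2⟩
    constructor
    · rw [← Real.log_le_log_iff (by positivity) he', Real.log_mul hα.ne' hd'.ne']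
      linarith
    · rw [← Real.log_le_log_iff he' (by positivity), Real.log_mul hβ.ne' hd'.ne']
      linarith
  · rintro ⟨h1, h2⟩
    have h3 := Real.log_le_log (by positivity) h1
    have h4 := Real.log_le_log he' h2
    rw [Real.log_mul hα.ne' hd'.ne'] at h3
    rw [Real.log_mul hβ.ne' hd'.ne'] at h4
    constructor <;> linarith

open Classical in
theorem card_conv (α β : ℝ) (hα : 0 < α) (hβ : 0 < β) (X : ℝ) (P : ℕ × ℕ → Prop) :
    ((EN 1 X).filter (fun e => (Real.log α ≤ tE e ∧ tE e ≤ Real.log β) ∧ P (nm e.1, nm e.2))).card =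
      4 * (FS α β X P).ncard := by
  have h := four_count X (fun r => (α * (r.1 : ℝ) ≤ r.2 ∧ ((r.2 : ℕ) : ℝ) ≤ β * r.1) ∧ P r)
  unfold FS
  rw [← h]
  congr 1
  ext e
  simp only [mem_filter]
  refine and_congr_right (fun he => ?_)
  have h1 := (mem_EN one_pos).1 he
  obtain ⟨⟨h2, h3, -, -⟩, -⟩ := h1
  have h4 := dot_sq_add_det_sq e.1 e.2
  rw [h2] at h4
  have h5 : (0 : ℤ) < (nm e.1 : ℤ) * nm e.2 := by
    rw [← h4]
    positivity
  have h6 : 0 < nm e.1 * nm e.2 := by exact_mod_cast h5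
  have h7 : 0 < nm e.1 := Nat.pos_of_mul_pos_left h6 |> fun _ => Nat.pos_of_ne_zero (by
    rintro h0
    rw [h0, zero_mul] at h6
    exact lt_irrefl _ h6)
  have h8 : 0 < nm e.2 := Nat.pos_of_ne_zero (by
    rintro h0
    rw [h0, mul_zero] at h6
    exact lt_irrefl _ h6)
  have h9 := log_cond hα hβ h7 h8
  unfold tE
  rw [h9]

end Pool.Agent.OmEq

end

/-! ### from `Lib_MP_f1a94e_lp.PosX` -/

section

/-!
# Piece POSX: positivity of the constants
-/

set_option autoImplicit false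

namespace Pool.Agent.LPr

open Finset Filter

/-- the product formula for `SW` over equal windows -/
private lemma posx_sw (g : ℕ → ℝ) (k : ℕ) (hk : 0 < k) (u : ℝ) (X : ℝ) (hX : 1 < X) (j : ℕ) :
    ∀ s : ℝ, (j : ℝ) / k ≤ s →
      SW g X (List.replicate j (u, 1 / (k : ℝ))) s = (∑ p ∈ PW X u (1 / k), g p / p) ^ j := by
  have hk' : (0 : ℝ) < k := by exact_mod_cast hk
  have hlX : 0 < Real.log X := Real.log_pos hX
  induction j with
  | zero =>
    intro s hs
    have h0 : (0 : ℝ) ≤ s := by simpa using hs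
    simp [SW, h0]
  | succ j ih =>
    intro s hs
    rw [List.replicate_succ, SW, pow_succ', Finset.sum_mul]
    refine Finset.sum_congr rfl (fun p hp => ?_)
    have hp' := (mem_PW (by linarith : (0 : ℝ) ≤ X)).1 hp
    have hp0 : (0 : ℝ) < p := by exact_mod_cast hp'.1.pos
    have h1 : Real.log p ≤ 1 / k * Real.log X := by
      have h2 := Real.log_le_log hp0 hp'.2.2
      rwa [Real.log_rpow (by linarith)] at h2
    have h3 : Real.log p / Real.log X ≤ 1 / k := by
      rw [div_le_iff₀ hlX]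
      exact h1
    have h4 : (j : ℝ) / k ≤ s - Real.log p / Real.log X := by
      have h5 : ((j + 1 : ℕ) : ℝ) / k = (j : ℝ) / k + 1 / k := by
        push_cast
        ring
      rw [h5] at hs
      linarith
    rw [ih _ h4]

/-- PROOF. `w = (u, 1/k)`, `l = [w, ..., w]` (`k` times, `List.replicate k w`). For `X > 1` and `s ≥ j / k` we have `SW g X (replicate j w) s = (∑_(p ∈ PW X u (1/k)) g p / p) ^ j` (induction on `j`: `log p / log X ≤ 1/k`, so `s - log p / log X ≥ (j - 1)/k`), so at `s = 1`, `j = k`,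
`SW (fun _ => 1) X l 1 = (∑ 1 / p)^k → (log ((1/k)/u))^k` (`mert_all`), hence `NW l = (log (1/(k u)))^k`. -/
theorem nw_replicate (k : ℕ) (hk : 0 < k) (u : ℝ) (hu : 0 < u) (huk : u ≤ 1 / k) :
    NW (List.replicate k (u, 1 / (k : ℝ))) = Real.log ((1 / k) / u) ^ k := by
  have hk' : (0 : ℝ) < k := by exact_mod_cast hk
  unfold NW
  apply Tendsto.limUnder_eq
  have h1 := (mert_all.lim u (1 / k) hu huk).pow k
  refine h1.congr' ?_
  filter_upwards [eventually_gt_atTop (1 : ℝ)] with X hX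
  exact (posx_sw (fun _ => 1) k hk u X hX k 1 (by rw [div_self hk'.ne'])).symm

private lemma posx_wc_mul (x u v : ℝ) {m n : ℕ} (hm : m ≠ 0) (hn : n ≠ 0) :
    wc x u v (m * n) = wc x u v m + wc x u v n := by
  unfold wc
  rw [((Nat.perm_primeFactorsList_mul hm hn).filter _).length_eq, List.filter_append,
    List.length_append]

private lemma posx_wc_prime (x u v : ℝ) {p : ℕ} (hp : p.Prime) (h1 : x ^ u < (p : ℝ)) (h2 : (p : ℝ) ≤ x ^ v) :
    wc x u v p = 1 := by
  unfold wc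
  rw [Nat.primeFactorsList_prime hp, List.filter_cons_of_pos (by simp [h1, h2])]
  simp

private lemma posx_tw_ne (X u v : ℝ) (hX : 0 ≤ X) (j : ℕ) :
    ∀ n : ℕ, n ≠ 0 → TW X (List.replicate j (u, v)) n ≠ 0 → j ≤ wc X u v n := by
  classical
  induction j with
  | zero =>
    intro n _ _
    exact Nat.zero_le _
  | succ j ih =>
    intro n hn h
    rw [List.replicate_succ, TW] at h
    obtain ⟨p, hp, hpn⟩ := Finset.exists_ne_zero_of_sum_ne_zero h
    rw [mem_filter, mem_PW hX] at hp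
    obtain ⟨⟨hpp, h1, h2⟩, hd⟩ := hp
    obtain ⟨m, rfl⟩ := hd
    have hm : m ≠ 0 := by
      rintro rfl
      exact hn (by simp)
    rw [Nat.mul_div_cancel_left m hpp.pos] at hpn
    have h3 := ih m hm hpn
    rw [posx_wc_mul X u v hpp.ne_zero hm, posx_wc_prime X u v hpp h1 h2]
    omega

private lemma posx_prod_gt (a : ℝ) (ha : 0 < a) :
    ∀ L : List ℕ, (∀ p ∈ L, a < (p : ℝ)) → a ^ L.length ≤ (L.prod : ℝ) ∧ (L ≠ [] → a ^ L.length < (L.prod : ℝ)) := by
  intro L
  induction L with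
  | nil =>
    intro _
    simp
  | cons p L ih =>
    intro h
    have h1 := ih (fun q hq => h q (List.mem_cons_of_mem _ hq))
    have h2 : a < (p : ℝ) := h p List.mem_cons_self
    have h3 : a ^ (p :: L).length < ((p :: L).prod : ℝ) := by
      rw [List.length_cons, List.prod_cons, pow_succ']
      push_cast
      have h4 : 0 < a ^ L.length := by positivity
      calc a * a ^ L.length < p * a ^ L.length := mul_lt_mul_of_pos_right h2 h4
        _ ≤ p * (L.prod : ℝ) := mul_le_mul_of_nonneg_left (by exact_mod_cast h1.1) (by linarith)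
        _ = _ := by push_cast; rfl
    exact ⟨h3.le, fun _ => h3⟩

private lemma posx_wc_le (k : ℕ) (u v : ℝ) (hu : 0 < u) (hu1 : 1 ≤ (k + 1) * u) (X : ℝ) (hX : 2 ≤ X) (n : ℕ)
    (hn : n ≠ 0) (hnX : (n : ℝ) ≤ X) : wc X u v n ≤ k := by
  classical
  by_contra hcon
  push Not at hcon
  set L := n.primeFactorsList.filter (fun p : ℕ => X ^ u < (p : ℝ) ∧ (p : ℝ) ≤ X ^ v) with hL
  have hlen : k + 1 ≤ L.length := hcon
  have hXu : 1 ≤ X ^ u := Real.one_le_rpow (by linarith) hu.le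
  have hmem : ∀ p ∈ L, X ^ u < (p : ℝ) := by
    intro p hp
    rw [hL, List.mem_filter] at hp
    have := hp.2
    simp only [decide_eq_true_eq] at this
    exact this.1
  have hne : L ≠ [] := by
    rintro h
    rw [h] at hlen
    simp at hlen
  have h1 := (posx_prod_gt (X ^ u) (by linarith) L hmem).2 hne
  have h2 : L.prod ∣ n := by
    have h3 : L.prod ∣ n.primeFactorsList.prod := (List.filter_sublist).prod_dvd_prod
    rwa [Nat.prod_primeFactorsList hn] at h3
  have h4 : (L.prod : ℝ) ≤ n := by exact_mod_cast Nat.le_of_dvd (Nat.pos_of_ne_zero hn) h2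
  have h5 : X ≤ (X ^ u) ^ L.length := by
    calc X = X ^ (1 : ℝ) := (Real.rpow_one X).symm
      _ ≤ X ^ (u * ((k + 1 : ℕ) : ℝ)) := by
          apply Real.rpow_le_rpow_of_exponent_le (by linarith)
          push_cast
          linarith
      _ = (X ^ u) ^ (k + 1) := by rw [Real.rpow_mul (by linarith), Real.rpow_natCast]
      _ ≤ (X ^ u) ^ L.length := pow_le_pow_right₀ hXu hlen
  linarith

/-- PROOF. If `TW X (replicate k w) n ≠ 0` then `n` is divisible by a product of `k` primes of the window (nonempty filter at each step), so `wc X u (1/k) n ≥ k`; and if `n ≤ X`, `n ≠ 0` then `wc ≤ k`, since `k + 1` primes of the window (with multiplicity) have a product larger than `X^((k + 1) u) ≥ X`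
(`(k + 1) u ≥ 1`) dividing `n`. And `TW X (replicate k w) n ≤ k^k`... any bound `B` works: `tw_bd` with `δ = u`, `n ≤ X ≤ X²`. -/
theorem tw_le_ind (k : ℕ) (hk : 0 < k) (u : ℝ) (hu : 0 < u) (huk : u < 1 / k) (hu1 : 1 ≤ (k + 1) * u) :
    ∃ B : ℝ, 0 < B ∧ ∀ X : ℝ, 2 ≤ X → ∀ n : ℕ, n ≠ 0 → (n : ℝ) ≤ X →
      TW X (List.replicate k (u, 1 / (k : ℝ))) n ≤ if wc X u (1 / k) n = k then B else 0 := by
  obtain ⟨B, hB0, hB⟩ := tw_bd u hu (List.replicate k (u, 1 / (k : ℝ))) (by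
    intro w hw
    rw [List.eq_of_mem_replicate hw])
  refine ⟨B + 1, by linarith, fun X hX n hn hnX => ?_⟩
  have hnX2 : (n : ℝ) ≤ X ^ 2 := by nlinarith
  split_ifs with h
  · linarith [(hB X hX n hn hnX2).2]
  · by_contra hcon
    push Not at hcon
    have h1 := posx_tw_ne X u (1 / k) (by linarith) k n hn hcon.ne'
    have h2 := posx_wc_le k u (1 / k) hu hu1 X hX n hn hnX
    exact h (le_antisymm h2 h1)

/-- PROOF. `∑_(n ≤ x) TW x l n / x → NW l` (`tw_mean`), `l = replicate k (u, 1/k)`; `∑_(n ≤ x) TW x l n ≤ B #{n ≤ x : wc = k}`, so `NW l ≤ B c`, and `NW l = log (1/(k u))^k > 0`. -/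
theorem pos_law (k : ℕ) (hk : 0 < k) (u : ℝ) (hu : 0 < u) (huk : u < 1 / k) (hu1 : 1 ≤ (k + 1) * u) (c : ℝ)
    (hc : Tendsto (fun x : ℝ => (Set.ncard {n : ℕ | 1 ≤ n ∧ (n : ℝ) ≤ x ∧ wc x u (1 / k) n = k} : ℝ) / x) atTop (nhds c)) :
    0 < c := by
  classical
  have hwin : Win (List.replicate k (u, 1 / (k : ℝ))) := by
    intro w hw
    rw [List.eq_of_mem_replicate hw]
    exact ⟨hu, huk.le⟩
  have h1 := tw_mean _ hwin
  obtain ⟨B, hB0, hB⟩ := tw_le_ind k hk u hu huk hu1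
  have h2 : NW (List.replicate k (u, 1 / (k : ℝ))) ≤ B * c := by
    refine le_of_tendsto_of_tendsto h1 (hc.const_mul B) ?_
    filter_upwards [eventually_ge_atTop (2 : ℝ)] with x hx
    have hset : {n : ℕ | 1 ≤ n ∧ (n : ℝ) ≤ x ∧ wc x u (1 / k) n = k} =
        (((Icc 1 ⌊x⌋₊).filter (fun n => wc x u (1 / k) n = k) : Finset ℕ) : Set ℕ) := by
      ext n
      simp only [Set.mem_setOf_eq, coe_filter, mem_Icc]
      constructor
      · rintro ⟨h3, h4, h5⟩
        exact ⟨⟨h3, Nat.le_floor h4⟩, h5⟩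
      · rintro ⟨⟨h3, h4⟩, h5⟩
        exact ⟨h3, (Nat.le_floor_iff (by linarith)).1 h4, h5⟩
    rw [hset, Set.ncard_coe_finset, ← mul_div_assoc]
    apply div_le_div_of_nonneg_right _ (by linarith : (0 : ℝ) ≤ x)
    calc ∑ n ∈ Icc 1 ⌊x⌋₊, TW x (List.replicate k (u, 1 / (k : ℝ))) n
        ≤ ∑ n ∈ Icc 1 ⌊x⌋₊, (if wc x u (1 / k) n = k then B else 0) := by
          refine Finset.sum_le_sum (fun n hn => ?_)
          rw [mem_Icc] at hn
          exact hB x hx n (by omega) ((Nat.le_floor_iff (by linarith)).1 hn.2)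
      _ = B * (((Icc 1 ⌊x⌋₊).filter (fun n => wc x u (1 / k) n = k)).card : ℝ) := by
          rw [← Finset.sum_filter, Finset.sum_const, nsmul_eq_mul, mul_comm]
  rw [nw_replicate k hk u hu huk.le] at h2
  have h3 : 1 < (1 / (k : ℝ)) / u := by
    rw [lt_div_iff₀ hu]
    linarith
  have h4 : 0 < Real.log ((1 / k) / u) ^ k := pow_pos (Real.log_pos h3) k
  by_contra hcon
  push Not at hcon
  nlinarith [mul_nonneg hB0.le (neg_nonneg.2 hcon)]

end Pool.Agent.LPr

end

/-! ### from `Lib_MP_f1a94e_lp.PosG` -/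

section

/-!
# Piece POSG: positivity of the constants for profiles
-/

set_option autoImplicit false

namespace Pool.Agent.LPr

open Finset Filter

private lemma posg_sw (g : ℕ → ℝ) (X : ℝ) (hX : 1 < X) (l : List (ℝ × ℝ)) :
    ∀ s : ℝ, (l.map (fun w => w.2)).sum ≤ s →
      SW g X l s = (l.map (fun w => ∑ p ∈ PW X w.1 w.2, g p / p)).prod := by
  have hlX : 0 < Real.log X := Real.log_pos hX
  induction l with
  | nil =>
    intro s hs
    have h0 : (0 : ℝ) ≤ s := by simpa using hs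
    simp [SW, h0]
  | cons w l ih =>
    intro s hs
    rw [List.map_cons, List.sum_cons] at hs
    rw [SW, List.map_cons, List.prod_cons, Finset.sum_mul]
    refine Finset.sum_congr rfl (fun p hp => ?_)
    have hp' := (mem_PW (by linarith : (0 : ℝ) ≤ X)).1 hp
    have hp0 : (0 : ℝ) < p := by exact_mod_cast hp'.1.pos
    have h1 : Real.log p ≤ w.2 * Real.log X := by
      have h2 := Real.log_le_log hp0 hp'.2.2
      rwa [Real.log_rpow (by linarith)] at h2
    have h3 : Real.log p / Real.log X ≤ w.2 := by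
      rw [div_le_iff₀ hlX]
      exact h1
    rw [ih _ (by linarith)]

/-- PROOF. As `nw_replicate` (PosX.lean): for `X > 1` and `s ≥` the sum of the second components of `l`, `SW g X l s = ∏_(w ∈ l) ∑_(p ∈ PW X w.1 w.2) g p / p` (induction on `l`, `log p / log X ≤ w.2`); at `s = 1`; limit of the product by `mert_all`
(induction on `l` or `tendsto_list_prod`). -/
theorem nw_prod (l : List (ℝ × ℝ)) (hl : Win l) (hs : (l.map (fun w => w.2)).sum ≤ 1) :
    NW l = (l.map (fun w => Real.log (w.2 / w.1))).prod := by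
  unfold NW
  apply Tendsto.limUnder_eq
  have h1 : ∀ l : List (ℝ × ℝ), Win l →
      Tendsto (fun X : ℝ => (l.map (fun w => ∑ p ∈ PW X w.1 w.2, (fun _ : ℕ => (1 : ℝ)) p / (p : ℝ))).prod) atTop
        (nhds (l.map (fun w => Real.log (w.2 / w.1))).prod) := by
    intro l
    induction l with
    | nil => intro _; simp
    | cons w l ih =>
      intro h
      have h2 := h w List.mem_cons_self
      simp only [List.map_cons, List.prod_cons]
      exact (mert_all.lim w.1 w.2 h2.1 h2.2).mul (ih (fun w' hw' => h w' (List.mem_cons_of_mem _ hw')))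
  refine (h1 l hl).congr' ?_
  filter_upwards [eventually_gt_atTop (1 : ℝ)] with X hX
  exact (posg_sw (fun _ => 1) X hX l 1 hs).symm

private lemma posg_wc_mul (x u v : ℝ) {m n : ℕ} (hm : m ≠ 0) (hn : n ≠ 0) :
    wc x u v (m * n) = wc x u v m + wc x u v n := by
  unfold wc
  rw [((Nat.perm_primeFactorsList_mul hm hn).filter _).length_eq, List.filter_append,
    List.length_append]

private lemma posg_wc_one (x u v : ℝ) {p : ℕ} (hp : p.Prime) (h1 : x ^ u < (p : ℝ)) (h2 : (p : ℝ) ≤ x ^ v) :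
    wc x u v p = 1 := by
  unfold wc
  rw [Nat.primeFactorsList_prime hp, List.filter_cons_of_pos (by simp [h1, h2])]
  simp

private lemma posg_wc_zero (x u v : ℝ) {p : ℕ} (hp : p.Prime) (h : (p : ℝ) ≤ x ^ u ∨ x ^ v < (p : ℝ)) :
    wc x u v p = 0 := by
  unfold wc
  rw [Nat.primeFactorsList_prime hp, List.filter_cons_of_neg, List.filter_nil, List.length_nil]
  simp only [decide_eq_true_eq, not_and, not_le]
  intro h1
  rcases h with h | h
  · exact absurd h (not_le.2 h1)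
  · exact h

private lemma posg_wc_small (x u v : ℝ) {s : ℕ} (hs : (s : ℝ) ≤ x ^ u) :
    wc x u v s = 0 := by
  unfold wc
  rw [List.length_eq_zero_iff, List.filter_eq_nil_iff]
  intro p hp
  simp only [decide_eq_true_eq, not_and, not_le]
  intro h1
  have h2 : p ≤ s := Nat.le_of_mem_primeFactorsList hp
  have h3 : (p : ℝ) ≤ s := by exact_mod_cast h2
  exact absurd (h3.trans hs) (not_le.2 h1)

open Classical in
private lemma posg_tw_ne (X : ℝ) (hX : 1 ≤ X) (l : List (ℝ × ℝ)) :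
    ∀ n : ℕ, n ≠ 0 → TW X l n ≠ 0 → ∃ s : ℕ, s ≠ 0 ∧ (s : ℝ) * X ^ (l.map (fun w => w.1)).sum ≤ n ∧
      ∀ u v : ℝ, (∀ w ∈ l, (u ≤ w.1 ∧ w.2 ≤ v) ∨ w.2 ≤ u ∨ v ≤ w.1) →
        wc X u v n = l.countP (fun w => u ≤ w.1 ∧ w.2 ≤ v) + wc X u v s := by
  have hX0 : (0 : ℝ) < X := by linarith
  induction l with
  | nil =>
    intro n hn _
    exact ⟨n, hn, by simp, fun u v _ => by simp⟩
  | cons w l ih =>
    intro n hn h
    rw [TW] at h
    obtain ⟨p, hp, hpn⟩ := Finset.exists_ne_zero_of_sum_ne_zero h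
    rw [mem_filter, mem_PW hX0.le] at hp
    obtain ⟨⟨hpp, h1, h2⟩, hd⟩ := hp
    obtain ⟨m, rfl⟩ := hd
    have hm : m ≠ 0 := by
      rintro rfl
      exact hn (by simp)
    rw [Nat.mul_div_cancel_left m hpp.pos] at hpn
    obtain ⟨s, hs0, hsm, hs⟩ := ih m hm hpn
    refine ⟨s, hs0, ?_, ?_⟩
    · rw [List.map_cons, List.sum_cons, Real.rpow_add hX0]
      have h3 : 0 < X ^ w.1 := Real.rpow_pos_of_pos hX0 _
      have h4 : (0 : ℝ) ≤ m := Nat.cast_nonneg m
      push_cast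
      calc (s : ℝ) * (X ^ w.1 * X ^ (l.map (fun w => w.1)).sum)
          = X ^ w.1 * ((s : ℝ) * X ^ (l.map (fun w => w.1)).sum) := by ring
        _ ≤ X ^ w.1 * m := mul_le_mul_of_nonneg_left hsm h3.le
        _ ≤ p * m := mul_le_mul_of_nonneg_right h1.le h4
    · intro u v huv
      have h3 := hs u v (fun w' hw' => huv w' (List.mem_cons_of_mem _ hw'))
      rw [posg_wc_mul X u v hpp.ne_zero hm, h3, List.countP_cons]
      by_cases hw : u ≤ w.1 ∧ w.2 ≤ v
      · have h4 : wc X u v p = 1 := posg_wc_one X u v hpp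
          (lt_of_le_of_lt (Real.rpow_le_rpow_of_exponent_le hX hw.1) h1)
          (h2.trans (Real.rpow_le_rpow_of_exponent_le hX hw.2))
        rw [h4, if_pos (by simpa using hw)]
        ring
      · have h4 : wc X u v p = 0 := by
          apply posg_wc_zero X u v hpp
          rcases huv w List.mem_cons_self with h5 | h5 | h5
          · exact absurd h5 hw
          · exact Or.inl (h2.trans (Real.rpow_le_rpow_of_exponent_le hX h5))
          · exact Or.inr (lt_of_le_of_lt (Real.rpow_le_rpow_of_exponent_le hX h5) h1)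
        rw [h4, if_neg (by simpa using hw)]
        ring

/-- PROOF. `ρ = 1 - ∑ t i > 0`, `M ≥ 1` natural with `w := ρ / M ≤ ε / 2`, `l = [(t_i - δ, t_i), i < k] ++ replicate M (w - δ, w)`, `δ ≤ δ0` where `δ0 < w`, `(k + M) δ0 ≤ ε`, `t_i - δ0 ≥ ε`, and `δ0 < |t_i - t_j|` for `i ≠ j`, `δ0 ≤ 1`... (`t_i ≤ 1 ≤ 2`).
Let `2 ≤ X`, `1 ≤ n ≤ X` and `TW X l n ≠ 0`. Then (induction on `l` as in `posx_tw_ne`) `n = (∏ p_i) (∏ r_j) s` with primes `X^(t_i - δ) < p_i ≤ X^(t_i)` and `X^(w - δ) < r_j ≤ X^w`. `n ≤ X` gives `s ≤ X^(1 - ∑ (t_i - δ) - M (w - δ)) = X^((k + M) δ) ≤ X^ε`, `r_j ≤ X^w ≤ X^ε`, `p_i > X^(t_i - δ) ≥ X^ε`.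
`wc X u v` is additive on products of nonzero numbers, `wc X u v p` is `1` or `0` for a prime `p` in or not in the window (`posx_wc_mul`, `posx_wc_prime`; they are private in PosX.lean, copy them), and `wc X ε 2 m = 0` if all primes of `m` are `≤ X^ε`. So `wc X ε 2 n = k` (`X^ε < p_i ≤ X^(t_i) ≤ X^2`) and `wc X (t_i - δ) t_i n = 1`:
`p_i` is in the window, `p_j`, `j ≠ i`, is not (`t_j ≤ t_i - δ` or `t_j - δ ≥ t_i`), and the primes `≤ X^ε ≤ X^(t_i - δ)` are not.
So `TW X l n ≤ B` times the indicator of the event (`tw_bd` with a lower bound of all left ends, `n ≤ X ≤ X²`), and as in `pos_law`: `NW l ≤ B c`, `NW l = ∏ log (t_i / (t_i - δ)) (log (w / (w - δ)))^M > 0` by `nw_prod` (the sum of the second components is `∑ t_i + ρ = 1`). -/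
theorem pos_prof (k : ℕ) (t : Fin k → ℝ) (hinj : Function.Injective t) (ε : ℝ) (hε : 0 < ε) (ht : ∀ i, ε < t i)
    (hsum : ∑ i, t i < 1) :
    ∃ δ0 : ℝ, 0 < δ0 ∧ ∀ δ : ℝ, 0 < δ → δ ≤ δ0 → ∀ c : ℝ,
      Tendsto (fun x : ℝ => (Set.ncard {n : ℕ | 1 ≤ n ∧ (n : ℝ) ≤ x ∧ (∀ i, wc x (t i - δ) (t i) n = 1) ∧
        wc x ε 2 n = k} : ℝ) / x) atTop (nhds c) → 0 < c := by
  classical
  obtain ⟨ρ, hρ⟩ : ∃ ρ : ℝ, ρ = 1 - ∑ i, t i := ⟨_, rfl⟩
  have hρ0 : 0 < ρ := by linarith
  obtain ⟨M, hM⟩ := exists_nat_gt (2 * ρ / ε)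
  have hM0 : (0 : ℝ) < M := lt_trans (by positivity) hM
  obtain ⟨w, hw⟩ : ∃ w : ℝ, w = ρ / M := ⟨_, rfl⟩
  have hw0 : 0 < w := by rw [hw]; positivity
  have hMw : (M : ℝ) * w = ρ := by rw [hw]; field_simp
  have hwε : w ≤ ε / 2 := by
    rw [hw, div_le_iff₀ hM0]
    rw [div_lt_iff₀ hε] at hM
    linarith
  have hti : ∀ i, t i < 1 := by
    intro i
    refine lt_of_le_of_lt ?_ hsum
    exact Finset.single_le_sum (fun j _ => (hε.trans (ht j)).le) (Finset.mem_univ i)
  have hle : ∀ a : ℝ, 0 < a → ∀ᶠ δ in nhdsWithin (0 : ℝ) (Set.Ioi 0), δ < a := fun a ha =>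
    (eventually_lt_nhds ha).filter_mono nhdsWithin_le_nhds
  have hev : ∀ᶠ δ in nhdsWithin (0 : ℝ) (Set.Ioi 0), δ < w ∧ ((k : ℝ) + M) * δ ≤ ε ∧ (∀ i, δ ≤ t i - ε) ∧
      ∀ i j, i ≠ j → δ ≤ |t i - t j| := by
    refine (hle w hw0).and (Filter.Eventually.and ?_ (Filter.Eventually.and ?_ ?_))
    · have hkM : (0 : ℝ) < (k : ℝ) + M := by positivity
      filter_upwards [hle (ε / ((k : ℝ) + M)) (by positivity)] with δ hδ
      rw [lt_div_iff₀ hkM] at hδ
      linarith
    · refine Filter.eventually_all.2 (fun i => ?_)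
      filter_upwards [hle (t i - ε) (by linarith [ht i])] with δ hδ
      exact hδ.le
    · refine Filter.eventually_all.2 (fun i => Filter.eventually_all.2 (fun j => ?_))
      by_cases hij : i = j
      · exact Filter.Eventually.of_forall (fun _ h => absurd hij h)
      · have h1 : 0 < |t i - t j| := abs_pos.2 (sub_ne_zero.2 (fun h => hij (hinj h)))
        filter_upwards [hle _ h1] with δ hδ _
        exact hδ.le
  obtain ⟨δ1, hδ1, hδ2⟩ := (nhdsGT_basis (0 : ℝ)).eventually_iff.1 hev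
  refine ⟨δ1 / 2, by linarith, fun δ hδ hδδ c hc => ?_⟩
  obtain ⟨hc1, hc2, hc3, hc4⟩ := hδ2 ⟨hδ, by linarith⟩
  set l : List (ℝ × ℝ) := (List.finRange k).map (fun i => (t i - δ, t i)) ++ List.replicate M (w - δ, w) with hl
  have hmem : ∀ a ∈ l, (∃ i, a = (t i - δ, t i)) ∨ a = (w - δ, w) := by
    intro a ha
    rw [hl, List.mem_append, List.mem_map] at ha
    rcases ha with ⟨i, -, hi⟩ | ha
    · exact Or.inl ⟨i, hi.symm⟩
    · exact Or.inr (List.eq_of_mem_replicate ha)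
  have hpos : ∀ a ∈ l, 0 < a.1 ∧ a.1 < a.2 := by
    intro a ha
    rcases hmem a ha with ⟨i, rfl⟩ | rfl
    · exact ⟨by simp only; linarith [hc3 i], by simp only; linarith⟩
    · exact ⟨by simp only; linarith, by simp only; linarith⟩
  have hwin : Win l := fun a ha => ⟨(hpos a ha).1, (hpos a ha).2.le⟩
  have hs2 : (l.map (fun w => w.2)).sum = 1 := by
    rw [hl, List.map_append, List.sum_append, List.map_map, List.map_replicate, List.sum_replicate]
    have h1 : (List.map ((fun w : ℝ × ℝ => w.2) ∘ fun i => (t i - δ, t i)) (List.finRange k)).sum = ∑ i, t i :=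
      (Fin.sum_univ_def _).symm
    rw [h1, nsmul_eq_mul, hMw]
    linarith
  have hs1 : (l.map (fun w => w.1)).sum = 1 - ((k : ℝ) + M) * δ := by
    rw [hl, List.map_append, List.sum_append, List.map_map, List.map_replicate, List.sum_replicate]
    have h1 : (List.map ((fun w : ℝ × ℝ => w.1) ∘ fun i => (t i - δ, t i)) (List.finRange k)).sum =
        ∑ i, (t i - δ) := (Fin.sum_univ_def _).symm
    rw [h1, nsmul_eq_mul, Finset.sum_sub_distrib, Finset.sum_const, Finset.card_univ, Fintype.card_fin,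
      nsmul_eq_mul]
    linear_combination hMw + hρ
  -- the structure of `n` with `TW ≠ 0`
  have key : ∀ X : ℝ, 2 ≤ X → ∀ n : ℕ, n ≠ 0 → (n : ℝ) ≤ X → TW X l n ≠ 0 →
      (∀ i, wc X (t i - δ) (t i) n = 1) ∧ wc X ε 2 n = k := by
    intro X hX n hn hnX hT
    have hX0 : 0 < X := by linarith
    have hX1 : 1 ≤ X := by linarith
    obtain ⟨s, hs0, hsn, hs⟩ := posg_tw_ne X hX1 l n hn hT
    have hsε : (s : ℝ) ≤ X ^ ε := by
      have h1 : (s : ℝ) ≤ X ^ (((k : ℝ) + M) * δ) := by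
        have h2 : 0 < X ^ (1 - ((k : ℝ) + M) * δ) := Real.rpow_pos_of_pos hX0 _
        have h3 : X ^ (((k : ℝ) + M) * δ) * X ^ (1 - ((k : ℝ) + M) * δ) = X := by
          rw [← Real.rpow_add hX0]
          rw [show ((k : ℝ) + M) * δ + (1 - ((k : ℝ) + M) * δ) = 1 by ring, Real.rpow_one]
        rw [hs1] at hsn
        exact le_of_mul_le_mul_right (by rw [h3]; linarith) h2
      exact h1.trans (Real.rpow_le_rpow_of_exponent_le hX1 hc2)
    constructor
    · intro i
      rw [hs (t i - δ) (t i) ?_, posg_wc_small X (t i - δ) (t i)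
        (hsε.trans (Real.rpow_le_rpow_of_exponent_le hX1 (by linarith [hc3 i]))), add_zero, hl,
        List.countP_append, List.countP_map]
      · have h1 : List.countP ((fun w : ℝ × ℝ => decide (t i - δ ≤ w.1 ∧ w.2 ≤ t i)) ∘ fun j => (t j - δ, t j))
            (List.finRange k) = List.count i (List.finRange k) := by
          rw [List.count]
          refine List.countP_congr (fun j _ => ?_)
          simp only [Function.comp_apply, decide_eq_true_eq, beq_iff_eq]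
          constructor
          · rintro ⟨h2, h3⟩
            exact hinj (by linarith)
          · rintro rfl
            exact ⟨le_refl _, le_refl _⟩
        have h2 : List.countP (fun w : ℝ × ℝ => decide (t i - δ ≤ w.1 ∧ w.2 ≤ t i))
            (List.replicate M (w - δ, w)) = 0 := by
          rw [List.countP_replicate, if_neg]
          simp only [decide_eq_true_eq, not_and, not_le]
          intro h3
          linarith [ht i]
        rw [h1, h2, List.count_eq_one_of_mem (List.nodup_finRange k) (List.mem_finRange i)]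
      · intro a ha
        rcases hmem a ha with ⟨j, rfl⟩ | rfl
        · by_cases hij : i = j
          · subst hij
            exact Or.inl ⟨le_refl _, le_refl _⟩
          · right
            simp only
            rcases le_abs.1 (hc4 i j hij) with h1 | h1
            · left; linarith
            · right; linarith
        · right; left
          simp only
          linarith [hc3 i]
    · rw [hs ε 2 ?_, posg_wc_small X ε 2 hsε, add_zero, hl, List.countP_append, List.countP_map]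
      · have h1 : List.countP ((fun w : ℝ × ℝ => decide (ε ≤ w.1 ∧ w.2 ≤ 2)) ∘ fun j => (t j - δ, t j))
            (List.finRange k) = k := by
          have h3 : List.countP ((fun w : ℝ × ℝ => decide (ε ≤ w.1 ∧ w.2 ≤ 2)) ∘ fun j => (t j - δ, t j))
              (List.finRange k) = (List.finRange k).length := by
            rw [List.countP_eq_length]
            intro j _
            simp only [Function.comp_apply, decide_eq_true_eq]
            exact ⟨by linarith [hc3 j], by linarith [hti j]⟩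
          rw [h3, List.length_finRange]
        have h2 : List.countP (fun w : ℝ × ℝ => decide (ε ≤ w.1 ∧ w.2 ≤ 2))
            (List.replicate M (w - δ, w)) = 0 := by
          rw [List.countP_replicate, if_neg]
          simp only [decide_eq_true_eq, not_and, not_le]
          intro h3
          linarith
        rw [h1, h2, add_zero]
      · intro a ha
        rcases hmem a ha with ⟨j, rfl⟩ | rfl
        · left
          simp only
          exact ⟨by linarith [hc3 j], by linarith [hti j]⟩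
        · right; left
          simp only
          linarith
  -- the bound
  obtain ⟨d, hd0, hd⟩ : ∃ d : ℝ, 0 < d ∧ ∀ a ∈ l, d ≤ a.1 := by
    refine ⟨min ε (w - δ), lt_min hε (by linarith), fun a ha => ?_⟩
    rcases hmem a ha with ⟨i, rfl⟩ | rfl
    · exact (min_le_left _ _).trans (by simp only; linarith [hc3 i])
    · exact min_le_right _ _
  obtain ⟨B, hB0, hB⟩ := tw_bd d hd0 l hd
  have h1 := tw_mean l hwin
  have h2 : NW l ≤ B * c := by
    refine le_of_tendsto_of_tendsto h1 (hc.const_mul B) ?_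
    filter_upwards [eventually_ge_atTop (2 : ℝ)] with x hx
    have hset : {n : ℕ | 1 ≤ n ∧ (n : ℝ) ≤ x ∧ (∀ i, wc x (t i - δ) (t i) n = 1) ∧ wc x ε 2 n = k} =
        (((Icc 1 ⌊x⌋₊).filter (fun n => (∀ i, wc x (t i - δ) (t i) n = 1) ∧ wc x ε 2 n = k) : Finset ℕ) :
          Set ℕ) := by
      ext n
      simp only [Set.mem_setOf_eq, coe_filter, mem_Icc]
      constructor
      · rintro ⟨h3, h4, h5⟩
        exact ⟨⟨h3, Nat.le_floor h4⟩, h5⟩
      · rintro ⟨⟨h3, h4⟩, h5⟩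
        exact ⟨h3, (Nat.le_floor_iff (by linarith)).1 h4, h5⟩
    rw [hset, Set.ncard_coe_finset, ← mul_div_assoc]
    apply div_le_div_of_nonneg_right _ (by linarith : (0 : ℝ) ≤ x)
    calc ∑ n ∈ Icc 1 ⌊x⌋₊, TW x l n
        ≤ ∑ n ∈ Icc 1 ⌊x⌋₊, (if (∀ i, wc x (t i - δ) (t i) n = 1) ∧ wc x ε 2 n = k then B else 0) := by
          refine Finset.sum_le_sum (fun n hn => ?_)
          rw [mem_Icc] at hn
          have hn0 : n ≠ 0 := by omega
          have hnx : (n : ℝ) ≤ x := (Nat.le_floor_iff (by linarith)).1 hn.2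
          have hnx2 : (n : ℝ) ≤ x ^ 2 := by nlinarith
          split_ifs with h
          · exact (hB x hx n hn0 hnx2).2
          · by_contra hcon
            push Not at hcon
            exact h (key x hx n hn0 hnx hcon.ne')
      _ = B * (((Icc 1 ⌊x⌋₊).filter (fun n => (∀ i, wc x (t i - δ) (t i) n = 1) ∧ wc x ε 2 n = k)).card : ℝ) := by
          rw [← Finset.sum_filter, Finset.sum_const, nsmul_eq_mul, mul_comm]
  rw [nw_prod l hwin hs2.le] at h2
  have h3 : 0 < (l.map (fun w => Real.log (w.2 / w.1))).prod := by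
    apply List.prod_pos
    intro a ha
    rw [List.mem_map] at ha
    obtain ⟨b, hb, rfl⟩ := ha
    have h4 := hpos b hb
    exact Real.log_pos ((one_lt_div h4.1).2 h4.2)
  by_contra hcon
  push Not at hcon
  nlinarith [mul_nonneg hB0 (neg_nonneg.2 hcon)]

end Pool.Agent.LPr

end
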