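import Mathlib
import Pool.Agent.Lib_MP_f1a94e_m.G17
import Pool.Agent.Lib_MP_f1a94e_m.G21
import Pool.Agent.Lib_MP_f1a94e_m.G23
import Pool.Agent.Lib_MP_f1a94e_m.G24

/-!
# MP_f1a94e_nt: merged library part G27

Concatenation of files of the libraries `Lib_MP_f1a94e_*` (each in its own section), only to save build time.
-/

/-! ### from `Lib_MP_f1a94e_lp.CtwT` -/

section

/-!
# Piece CTWT: the twisted cluster theorem for families
-/

set_option autoImplicit false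

namespace Pool.Agent.LPr

open Finset Pool.Agent.GaussMR Pool.Agent.OmAll Pool.Agent.OmEq MeasureTheory Filter

/-- PROOF. Let `T` be given. `cluster` with `fun y t => W (y / X) t` (X > 0) gives for the sum `∑_(EN n (b X), bs) Φ e * cs g (W (mE e / X)) (ds E T e) (tE e)`, so its norm
is at most `∑_(EN n (b X), bs) Ψ (ds E T e) (mE e / X) (tE e)` with `Ψ D y t = ‖cs g (W y) D t‖` (`Cmp.bd`). `Ψ D` is continuous with compact support (a finite sum
of translates in `t` of `W`), zero for `y ≤ 0` and `b ≤ y`. `tr` gives the limit `κ * ∑_D Pr D * ∫ y, ∫ t, Ψ D y t = κ * ∫ y, IT E g T (W y)` (finite sum and integral: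
`y ↦ ∫ t, Ψ D y t` is integrable, e.g. `Integrable.integral_prod_left` or continuous with compact support). Hence for every `T`,
`limsup_X ‖sum‖ / X ≤ κ * ∫ y, IT E g T (W y)`. For `T → ∞` the right side tends to `0` by dominated convergence: `0 ≤ IT E g T (W y) ≤ ∫ t, ‖W y t‖` (`IT_le`), which is
integrable in `y`, and `IT E g T (W y) → 0` for every `y` by `an` (`W y` is continuous with compact support). -/
theorem ctwT (n : ℕ) (hn : 0 < n) (E : Finset ℕ) (hE : n.primeFactors ⊆ E) (g : ℕ → ℂ)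
    (hg1 : ∀ p : ℕ, p.Prime → p % 4 = 1 → p ∉ E → ‖g p‖ = 1) (R : ℝ) (hR0 : 0 ≤ R) (hR1 : R ≤ 1) (hNP : NP E g R)
    (Φ : ℝ → G × G → ℂ) (hΦ : ∀ T : ℕ, ∀ᶠ X : ℝ in atTop, CmpT n E T g (Φ X)) (b : ℝ) (W : ℝ → ℝ → ℂ) (hW : TF b W)
    (h0 : R < 1 ∨ ∀ y, (∫ t, W y t) = 0) :
    Tendsto (fun X : ℝ => (∑ e ∈ EN n (b * X), Φ X e * W (mE e / X) (tE e)) / X) atTop (nhds 0) := by
  classical
  obtain ⟨κ, hκ, htr⟩ := tr n hn
  -- integrability
  have hPi : ∀ D : Finset ℕ, Integrable (Function.uncurry fun y t => ‖cs g (W y) D t‖)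
      (volume.prod volume) := fun D => by
    have h1 := (ctw_psi_cont hW g D).integrable_of_hasCompactSupport (ctw_psi_supp hW g D)
      (μ := (volume : Measure (ℝ × ℝ)))
    rwa [Measure.volume_eq_prod] at h1
  have hP1 : ∀ D : Finset ℕ, Integrable (fun y => ∫ t, ‖cs g (W y) D t‖) := fun D =>
    (hPi D).integral_prod_left
  have hWi : Integrable (fun y => ∫ t, ‖W y t‖) := by
    have h1 := (hW.cont.integrable_of_hasCompactSupport hW.supp
      (μ := (volume : Measure (ℝ × ℝ)))).norm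
    rw [Measure.volume_eq_prod] at h1
    exact h1.integral_prod_left
  -- the limit in `X`
  have hIT : ∀ T : ℕ, ∑ D ∈ (PE E T).powerset, Pr E T D * ∫ y, ∫ t, ‖cs g (W y) D t‖ =
      ∫ y, IT E g T (W y) := by
    intro T
    unfold IT
    rw [integral_finsetSum]
    · refine sum_congr rfl fun D _ => ?_
      rw [integral_const_mul]
    · intro D _
      exact (hP1 D).const_mul _
  have hITi : ∀ T : ℕ, Integrable (fun y => IT E g T (W y)) := by
    intro T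
    unfold IT
    exact integrable_finsetSum _ fun D _ => (hP1 D).const_mul _
  -- dominated convergence
  have hlim : Tendsto (fun T : ℕ => ∫ y, IT E g T (W y)) atTop (nhds 0) := by
    have h1 := tendsto_integral_of_dominated_convergence (F := fun T y => IT E g T (W y))
      (f := fun _ => (0 : ℝ)) (fun y => ∫ t, ‖W y t‖) (fun T => (hITi T).aestronglyMeasurable)
      hWi ?_ ?_
    · rwa [integral_zero] at h1
    · intro T
      refine Filter.Eventually.of_forall fun y => ?_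
      rw [Real.norm_eq_abs, abs_of_nonneg (AnP.IT_nonneg E g T (W y))]
      exact IT_le E g hg1 T (W y)
        ((ctw_cont_right hW y).integrable_of_hasCompactSupport (ctw_supp_right hW y))
    · refine Filter.Eventually.of_forall fun y => ?_
      exact an E g hg1 R hR0 hR1 hNP (W y) (ctw_cont_right hW y) (ctw_supp_right hW y)
        (h0.imp id fun h => h y)
  rw [Metric.tendsto_atTop]
  intro ε hε
  have hlim' := hlim.const_mul κ
  rw [mul_zero] at hlim'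
  obtain ⟨T, hT⟩ := (hlim'.eventually (gt_mem_nhds hε)).exists
  have ht := htr E hE T (fun D y t => ‖cs g (W y) D t‖) (ctw_psi_cont hW g) (ctw_psi_supp hW g)
    (fun D y u hy => by
      show ‖cs g (W y) D u‖ = 0
      unfold cs
      rw [sum_eq_zero, norm_zero]
      intro a _
      rw [hW.lo y _ hy, mul_zero]) b
    (fun D y u hy => by
      show ‖cs g (W y) D u‖ = 0
      unfold cs
      rw [sum_eq_zero, norm_zero]
      intro a _
      rw [hW.hi y _ hy, mul_zero])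
  rw [hIT T] at ht
  obtain ⟨X0, hX0⟩ := eventually_atTop.1 ((ht.eventually (gt_mem_nhds hT)).and (hΦ T))
  refine ⟨max X0 1, fun X hX => ?_⟩
  have hX1 : X0 ≤ X := (le_max_left _ _).trans hX
  have hX2 : 0 < X := lt_of_lt_of_le one_pos ((le_max_right _ _).trans hX)
  obtain ⟨h3, hΦX⟩ := hX0 X hX1
  rw [dist_zero_right, norm_div, Complex.norm_real, Real.norm_eq_abs, abs_of_pos hX2]
  refine lt_of_le_of_lt ?_ h3
  refine div_le_div_of_nonneg_right ?_ hX2.le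
  have h4 := clusterT n hn E hE g (Φ X) T hΦX (b * X) (fun y t => W (y / X) t)
  rw [h4]
  refine (norm_sum_le _ _).trans (sum_le_sum fun e _ => ?_)
  rw [norm_mul]
  have h5 : ‖Φ X e‖ * ‖cs g (fun t => W (mE e / X) t) (ds E T e) (tE e)‖ ≤
      1 * ‖cs g (fun t => W (mE e / X) t) (ds E T e) (tE e)‖ :=
    mul_le_mul_of_nonneg_right (hΦX.bd e) (norm_nonneg _)
  rw [one_mul] at h5
  exact h5

end Pool.Agent.LPr

end

/-! ### from `Lib_MP_f1a94e_lp.PairT` -/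

section

/-!
# Piece PAIRT: sums over pairs with characters, for families
-/

set_option autoImplicit false

namespace Pool.Agent.LPr

open Finset Pool.Agent.GaussMR Pool.Agent.OmAll Pool.Agent.OmEq MeasureTheory Filter

/-- as `cmp_pair`, moves of the primes up to `T` -/
theorem cmp_pairT (n : ℕ) [NeZero n] (χ : DirichletCharacter ℂ n) (E : Finset ℕ) (T : ℕ) (f1 f2 : ℕ → ℂ) (ω1 ω2 : ℂ)
    (m1 : ∀ m n, f1 (m * n) = f1 m * f1 n) (b1 : ∀ n, ‖f1 n‖ ≤ 1)
    (p1 : ∀ p : ℕ, p ≤ T → p.Prime → p % 4 = 1 → p ∉ E → f1 p = ω1)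
    (m2 : ∀ m n, f2 (m * n) = f2 m * f2 n) (b2 : ∀ n, ‖f2 n‖ ≤ 1)
    (p2 : ∀ p : ℕ, p ≤ T → p.Prime → p % 4 = 1 → p ∉ E → f2 p = ω2) (hω2 : ‖ω2‖ = 1) :
    CmpT n (E ∪ n.primeFactors) T (fun p => ω1 * (starRingEnd ℂ) ω2 * χ⁻¹ (p : ZMod n))
      (fun e => f1 (nm e.1) * f2 (nm e.2) * χ (cl n e)) := by
  classical
  refine ⟨fun e => ?_, ?_⟩
  · rw [norm_mul, norm_mul]
    have k1 := b1 (nm e.1)
    have k2 := b2 (nm e.2)
    have k3 := χ.norm_le_one (cl n e)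
    exact mul_le_one₀ (mul_le_one₀ k1 (norm_nonneg _) k2) (norm_nonneg _) k3
  · intro γ U W hp h4 hT hE he _
    have hE1 : nm γ ∉ E := fun h => hE (Finset.mem_union_left _ h)
    have hcop : (nm γ).Coprime n := by
      rw [Nat.Prime.coprime_iff_not_dvd hp]
      intro hd
      exact hE (Finset.mem_union_right _ (Nat.mem_primeFactors.mpr ⟨hp, hd, NeZero.ne n⟩))
    obtain ⟨_, hcl⟩ := En_move hp hcop he
    have hu : IsUnit ((nm γ : ZMod n)) := (ZMod.isUnit_iff_coprime _ _).mpr hcop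
    have e1 : f1 (nm (γ * U)) = ω1 * f1 (nm U) := by
      rw [nm_mul, m1, p1 _ hT hp h4 hE1]
    have e2 : f2 (nm (star γ * W)) = ω2 * f2 (nm W) := by
      rw [nm_mul, nm_star, m2, p2 _ hT hp h4 hE1]
    have e3 : (starRingEnd ℂ) ω2 * ω2 = 1 := by
      rw [mul_comm, Complex.mul_conj, Complex.normSq_eq_norm_sq, hω2]
      norm_num
    have e4 : χ⁻¹ ((nm γ : ZMod n)) * χ ((nm γ : ZMod n)) = 1 := by
      rw [← MulChar.mul_apply, inv_mul_cancel, MulChar.one_apply hu]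
    simp only
    rw [hcl, e1, e2, map_mul]
    calc ω1 * f1 (nm U) * f2 (nm W) * χ (cl n (γ * U, W))
        = ω1 * f1 (nm U) * f2 (nm W) * χ (cl n (γ * U, W)) * ((starRingEnd ℂ) ω2 * ω2) *
          (χ⁻¹ ((nm γ : ZMod n)) * χ ((nm γ : ZMod n))) := by rw [e3, e4, mul_one, mul_one]
      _ = _ := by ring

/-- as `pair_lim`, for families -/
theorem pair_limT (n : ℕ) [NeZero n] (χ : DirichletCharacter ℂ n) (E : Finset ℕ) (f1 f2 : ℝ → ℕ → ℂ) (ω1 ω2 : ℂ)
    (h1 : FX f1 E ω1) (h2 : FX f2 E ω2) (hω1 : ‖ω1‖ = 1) (hω2 : ‖ω2‖ = 1) (b : ℝ) (W : ℝ → ℝ → ℂ) (hW : TF b W)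
    (h0 : ω1 * (starRingEnd ℂ) ω2 ≠ 1 ∨ (∃ a : ℕ, a % 4 = 1 ∧ a.Coprime n ∧ χ ((a : ZMod n)) ≠ 1) ∨
      ∀ y, (∫ t, W y t) = 0) :
    Tendsto (fun X : ℝ => (∑ e ∈ EN n (b * X), f1 X (nm e.1) * f2 X (nm e.2) * χ (cl n e) * W (mE e / X) (tE e)) / X)
      atTop (nhds 0) := by
  have hn : 0 < n := Nat.pos_of_ne_zero (NeZero.ne n)
  have hω : ‖ω1 * (starRingEnd ℂ) ω2‖ = 1 := by
    rw [norm_mul, Complex.norm_conj, hω1, hω2, one_mul]
  have hg1 : ∀ p : ℕ, p.Prime → p % 4 = 1 → p ∉ E ∪ n.primeFactors →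
      ‖ω1 * (starRingEnd ℂ) ω2 * χ⁻¹ (p : ZMod n)‖ = 1 := by
    intro p hp _ hpE
    have hpn : ¬ p ∣ n := fun h => hpE (mem_union_right _ (Nat.mem_primeFactors.2 ⟨hp, h, hn.ne'⟩))
    have hcop : p.Coprime n := (Nat.Prime.coprime_iff_not_dvd hp).2 hpn
    rw [norm_mul, hω, one_mul]
    have h3 := DirichletCharacter.unit_norm_eq_one χ⁻¹ (ZMod.unitOfCoprime p hcop)
    rwa [ZMod.coe_unitOfCoprime] at h3
  have hC : ∀ T : ℕ, ∀ᶠ X : ℝ in atTop, CmpT n (E ∪ n.primeFactors) T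
      (fun p => ω1 * (starRingEnd ℂ) ω2 * χ⁻¹ (p : ZMod n))
      ((fun X e => f1 X (nm e.1) * f2 X (nm e.2) * χ (cl n e)) X) := by
    intro T
    filter_upwards [h1.pr T, h2.pr T] with X hX1 hX2
    exact cmp_pairT n χ E T (f1 X) (f2 X) ω1 ω2 (h1.mul X) (h1.bd X) hX1 (h2.mul X) (h2.bd X) hX2 hω2
  rcases h0 with h | ⟨a, ha4, hac, hχ⟩ | h
  · exact ctwT n hn _ subset_union_right _ hg1 (max 0 (ω1 * (starRingEnd ℂ) ω2).re) (le_max_left _ _)
      (max_le zero_le_one (pair_re_lt hω h).le) (npChi n χ⁻¹ _ hω _) _ hC b W hW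
      (Or.inl (max_lt zero_lt_one (pair_re_lt hω h)))
  · refine ctwT n hn _ subset_union_right _ hg1 0 le_rfl zero_le_one (npZ n χ⁻¹ a ha4 hac ?_ _ hω _) _ hC b W hW
      (Or.inl zero_lt_one)
    intro h3
    apply hχ
    have h4 : (χ⁻¹ * χ) (a : ZMod n) = 1 := by
      rw [inv_mul_cancel, MulChar.one_apply ((ZMod.isUnit_iff_coprime a n).2 hac)]
    rw [MulChar.mul_apply, h3, one_mul] at h4
    exact h4
  · exact ctwT n hn _ subset_union_right _ hg1 (max 0 (ω1 * (starRingEnd ℂ) ω2).re) (le_max_left _ _)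
      (max_le zero_le_one (hω ▸ Complex.re_le_norm _)) (npChi n χ⁻¹ _ hω _) _ hC b W hW (Or.inr h)

/-- edges: different values, or test functions of mean zero -/
theorem edge_limT (E : Finset ℕ) (f1 f2 : ℝ → ℕ → ℂ) (ω1 ω2 : ℂ)
    (h1 : FX f1 E ω1) (h2 : FX f2 E ω2) (hω1 : ‖ω1‖ = 1) (hω2 : ‖ω2‖ = 1) (b : ℝ) (W : ℝ → ℝ → ℂ) (hW : TF b W)
    (h0 : ω1 ≠ ω2 ∨ ∀ y, (∫ t, W y t) = 0) :
    Tendsto (fun X : ℝ => Sx2 (f1 X) (f2 X) (b * X) W X / X) atTop (nhds 0) := by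
  have h0' : ω1 * (starRingEnd ℂ) ω2 ≠ 1 ∨
      (∃ a : ℕ, a % 4 = 1 ∧ a.Coprime 1 ∧ (1 : DirichletCharacter ℂ 1) ((a : ZMod 1)) ≠ 1) ∨
      ∀ y, (∫ t, W y t) = 0 := by
    rcases h0 with h0 | h0
    · left
      intro h
      apply h0
      have h3 : ω2 * (starRingEnd ℂ) ω2 = 1 := by
        rw [Complex.mul_conj, Complex.normSq_eq_norm_sq, hω2]
        simp
      have h4 : (starRingEnd ℂ) ω2 ≠ 0 := by
        intro h5
        rw [h5, mul_zero] at h3
        exact zero_ne_one h3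
      exact mul_right_cancel₀ h4 (h.trans h3.symm)
    · exact Or.inr (Or.inr h0)
  have h := pair_limT 1 1 E f1 f2 ω1 ω2 h1 h2 hω1 hω2 b W hW h0'
  have h3 : ∀ e, (1 : DirichletCharacter ℂ 1) (cl 1 e) = 1 := fun e =>
    MulChar.one_apply (isUnit_of_subsingleton _)
  refine h.congr fun X => ?_
  unfold Sx2
  simp only [h3, mul_one]

/-- the hypothesis `PTX` -/
theorem ptx (E : Finset ℕ) (f1 f2 : ℝ → ℕ → ℂ) (ω1 ω2 : ℂ)
    (h1 : FX f1 E ω1) (h2 : FX f2 E ω2) (hω1 : ‖ω1‖ = 1) (hω2 : ‖ω2‖ = 1) : PTX f1 f2 := by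
  intro b W hW h0 a ha
  exact edge_limT E (fun X => f1 (a * X)) (fun X => f2 (a * X)) ω1 ω2 (h1.dil ha) (h2.dil ha) hω1 hω2 b W hW (Or.inr h0)

end Pool.Agent.LPr

end

/-! ### from `Lib_MP_f1a94e_lp.GramT` -/

section

/-!
# Piece GRAMT: correlations of pairs congruent modulo the determinant, for two families
-/

set_option autoImplicit false

namespace Pool.Agent.LPr

open Finset Pool.Agent.GaussMR Pool.Agent.OmAll Pool.Agent.OmEq MeasureTheory Filter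

/-- as `gramb_lim` (GramB.lean), for two families -/
theorem gramt_lim (n : ℕ) [NeZero n] (f1 f2 : ℝ → ℕ → ℂ) (E : Finset ℕ) (ω : ℂ) (h1 : FX f1 E ω) (h2 : FX f2 E ω)
    (hω : ‖ω‖ = 1) (b : ℝ) (W : ℝ → ℝ → ℂ) (hW : TF b W) (G : ZMod n → ℂ)
    (h0 : ω ^ 2 ≠ 1 ∨ ∀ χ : DirichletCharacter ℂ n, grambCo n G χ = 0 ∨
      (∃ a : ℕ, a % 4 = 1 ∧ a.Coprime n ∧ χ ((a : ZMod n)) ≠ 1) ∨ ∀ y, (∫ t, W y t) = 0) :
    Tendsto (fun X : ℝ => (∑ e ∈ EN n (b * X),
      f1 X (nm e.1) * (starRingEnd ℂ) (f2 X (nm e.2)) * G (cl n e) * W (mE e / X) (tE e)) / X) atTop (nhds 0) := by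
  classical
  have hn : 0 < n := NeZero.pos n
  have h4 : ∀ χ : DirichletCharacter ℂ n, Tendsto (fun X : ℝ => grambCo n G χ * ((∑ e ∈ EN n (b * X),
      f1 X (nm e.1) * (starRingEnd ℂ) (f2 X (nm e.2)) * χ (cl n e) * W (mE e / X) (tE e)) / X)) atTop (nhds 0) := by
    intro χ
    have hω' : ‖(starRingEnd ℂ) ω‖ = 1 := by rw [RCLike.norm_conj, hω]
    have key : (ω * (starRingEnd ℂ) ((starRingEnd ℂ) ω) ≠ 1 ∨
        (∃ a : ℕ, a % 4 = 1 ∧ a.Coprime n ∧ χ ((a : ZMod n)) ≠ 1) ∨ ∀ y, (∫ t, W y t) = 0) ∨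
        grambCo n G χ = 0 := by
      rcases h0 with h0 | h0
      · left
        left
        rw [Complex.conj_conj, ← sq]
        exact h0
      · rcases h0 χ with h5 | h5
        · exact Or.inr h5
        · exact Or.inl (Or.inr h5)
    rcases key with key | key
    · have h5 := (pair_limT n χ E f1 (fun X m => (starRingEnd ℂ) (f2 X m)) ω ((starRingEnd ℂ) ω) h1 h2.conj hω hω'
        b W hW key).const_mul (grambCo n G χ)
      rw [mul_zero] at h5
      exact h5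
    · rw [key]
      simp only [zero_mul]
      exact tendsto_const_nhds
  have h5 := tendsto_finsetSum (univ : Finset (DirichletCharacter ℂ n)) (fun χ _ => h4 χ)
  rw [Finset.sum_const_zero] at h5
  refine h5.congr (fun X => ?_)
  have h3 : ∀ e ∈ EN n (b * X), f1 X (nm e.1) * (starRingEnd ℂ) (f2 X (nm e.2)) * G (cl n e) * W (mE e / X) (tE e) =
      ∑ χ : DirichletCharacter ℂ n, grambCo n G χ *
        (f1 X (nm e.1) * (starRingEnd ℂ) (f2 X (nm e.2)) * χ (cl n e) * W (mE e / X) (tE e)) := by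
    intro e he
    rw [gramb_fourier n G (cl n e) (cl_unit ((mem_EN hn).mp he).1), Finset.mul_sum, Finset.sum_mul]
    refine Finset.sum_congr rfl (fun χ _ => ?_)
    ring
  rw [Finset.sum_congr rfl h3, Finset.sum_comm, Finset.sum_div]
  refine Finset.sum_congr rfl (fun χ _ => ?_)
  rw [← Finset.mul_sum, mul_div_assoc]

/-- as `gram`, `ω ^ 2 ≠ 1` -/
theorem gramAT (n : ℕ) (hn : 0 < n) (f1 f2 : ℝ → ℕ → ℂ) (E : Finset ℕ) (ω : ℂ) (h1 : FX f1 E ω) (h2 : FX f2 E ω)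
    (hω : ‖ω‖ = 1) (hω2 : ω ^ 2 ≠ 1) (b : ℝ) (W : ℝ → ℝ → ℂ) (hW : TF b W) :
    Tendsto (fun X : ℝ => Cg2 (f1 X) (f2 X) n (b * X) W X / X) atTop (nhds 0) := by
  classical
  have : NeZero n := ⟨hn.ne'⟩
  refine (gramt_lim n f1 f2 E ω h1 h2 hω b W hW (fun c => if c = 1 then 1 else 0) (Or.inl hω2)).congr (fun X => ?_)
  congr 1
  unfold Cg2
  rw [Finset.sum_filter]
  refine Finset.sum_congr rfl (fun e he => ?_)
  have k1 : cl n e = 1 ↔ cg n e.2 e.1 := cl_one ((mem_EN hn).mp he).1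
  by_cases c1 : cl n e = 1
  · rw [if_pos c1, if_pos (k1.1 c1), mul_one]
  · rw [if_neg c1, if_neg (fun h => c1 (k1.2 h)), mul_zero, zero_mul]

/-- the expansion of `gramB` in characters -/
theorem gramt_co (n : ℕ) [NeZero n] (W : ℝ → ℝ → ℂ) (χ : DirichletCharacter ℂ n) :
    by classical exact grambCo n (fun c => (if c = 1 then 1 else 0) -
      ((kap n / n.totient : ℝ) : ℂ) * (if GrambH n c then 1 else 0)) χ = 0 ∨
      (∃ a : ℕ, a % 4 = 1 ∧ a.Coprime n ∧ χ ((a : ZMod n)) ≠ 1) ∨ ∀ y, (∫ t, W y t) = 0 := by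
  classical
  have hn : 0 < n := NeZero.pos n
  have hφ : (n.totient : ℝ) ≠ 0 := by
    have := (Nat.totient_pos.mpr hn).ne'
    exact_mod_cast this
  by_cases hex : ∃ a : ℕ, a % 4 = 1 ∧ a.Coprime n ∧ χ ((a : ZMod n)) ≠ 1
  · exact Or.inr (Or.inl hex)
  · left
    push Not at hex
    unfold grambCo
    have h1 : ∑ u ∈ univ.filter (fun u : ZMod n => IsUnit u), ((if u = 1 then 1 else 0) -
        ((kap n / n.totient : ℝ) : ℂ) * (if GrambH n u then 1 else 0)) * χ u⁻¹ = 0 := by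
      have e1 : ∀ u ∈ univ.filter (fun u : ZMod n => IsUnit u), ((if u = 1 then 1 else 0) -
          ((kap n / n.totient : ℝ) : ℂ) * (if GrambH n u then 1 else 0)) * χ u⁻¹ =
          (if u = 1 then 1 else 0) - (if GrambH n u then ((kap n / n.totient : ℝ) : ℂ) else 0) := by
        intro u hu
        have hu' := (mem_filter.mp hu).2
        rw [sub_mul]
        congr 1
        · by_cases h1 : u = 1
          · have h3 := ZMod.inv_mul_of_unit (1 : ZMod n) isUnit_one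
            rw [mul_one] at h3
            rw [if_pos h1, h1, h3, map_one, mul_one]
          · rw [if_neg h1, zero_mul]
        · by_cases h1 : GrambH n u
          · rw [if_pos h1, if_pos h1, mul_one]
            obtain ⟨a, ha4, hac, hau⟩ := gramb_rep n u hu' h1
            have h2 := hex a ha4 hac
            rw [hau] at h2
            have h3 : u⁻¹ * u = 1 := ZMod.inv_mul_of_unit u hu'
            have h4 : χ u⁻¹ * χ u = 1 := by rw [← map_mul, h3, map_one]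
            rw [h2, mul_one] at h4
            rw [h4, mul_one]
          · rw [if_neg h1, if_neg h1, mul_zero, zero_mul]
      rw [Finset.sum_congr rfl e1, Finset.sum_sub_distrib, Finset.sum_ite_eq',
        if_pos (mem_filter.mpr ⟨mem_univ _, isUnit_one⟩), ← Finset.sum_filter, Finset.filter_filter,
        Finset.sum_const, nsmul_eq_mul]
      have h5 := gramb_card n
      have h6 : ((univ.filter (fun u : ZMod n => IsUnit u ∧ GrambH n u)).card : ℝ) *
          (kap n / n.totient) = 1 := by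
        rw [← mul_div_assoc, mul_comm, h5, div_self hφ]
      have h7 : (((univ.filter (fun u : ZMod n => IsUnit u ∧ GrambH n u)).card : ℝ) : ℂ) *
          ((kap n / n.totient : ℝ) : ℂ) = 1 := by
        rw [← Complex.ofReal_mul, h6, Complex.ofReal_one]
      rw [Complex.ofReal_natCast] at h7
      rw [h7, sub_self]
    rw [h1, mul_zero]

/-- as `gramB` -/
theorem gramBT (n : ℕ) (hn : 0 < n) (f1 f2 : ℝ → ℕ → ℂ) (E : Finset ℕ) (ω : ℂ) (h1 : FX f1 E ω) (h2 : FX f2 E ω)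
    (hω : ‖ω‖ = 1) (b : ℝ) (W : ℝ → ℝ → ℂ) (hW : TF b W) :
    Tendsto (fun X : ℝ => (Cg2 (f1 X) (f2 X) n (b * X) W X -
      ((kap n / n.totient : ℝ) : ℂ) * Qs2 (f1 X) (f2 X) n (b * X) W X) / X) atTop (nhds 0) := by
  classical
  have : NeZero n := ⟨hn.ne'⟩
  refine (gramt_lim n f1 f2 E ω h1 h2 hω b W hW _ (Or.inr fun χ => gramt_co n W χ)).congr (fun X => ?_)
  congr 1
  unfold Qs2 Cg2
  rw [Finset.mul_sum, Finset.sum_filter, Finset.sum_filter, ← Finset.sum_sub_distrib]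
  refine Finset.sum_congr rfl (fun e he => ?_)
  have he' := ((mem_EN hn).mp he).1
  have k1 : cg n e.2 e.1 ↔ cl n e = 1 := (cl_one he').symm
  have k2 := gramb_hc he'
  simp only [k1, k2]
  by_cases c1 : cl n e = 1
  · by_cases c2 : GrambH n (cl n e)
    · simp only [c1, if_true] at c2 ⊢
      simp only [c2, if_true]
      ring
    · simp only [c1, if_true] at c2 ⊢
      simp only [c2, if_false]
      ring
  · by_cases c2 : GrambH n (cl n e)
    · simp only [c1, if_false, c2, if_true]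
      ring
    · simp only [c1, if_false, c2]
      ring

/-- as `tvfB` -/
theorem tvfBT (n : ℕ) (hn : 0 < n) (f1 f2 : ℝ → ℕ → ℂ) (E : Finset ℕ) (ω : ℂ) (h1 : FX f1 E ω) (h2 : FX f2 E ω)
    (hω : ‖ω‖ = 1) (b : ℝ) (W : ℝ → ℝ → ℂ) (hW : TF b W) (h0 : ∀ y, (∫ t, W y t) = 0) :
    Tendsto (fun X : ℝ => Qs2 (f1 X) (f2 X) n (b * X) W X / X) atTop (nhds 0) := by
  classical
  have : NeZero n := ⟨hn.ne'⟩
  refine (gramt_lim n f1 f2 E ω h1 h2 hω b W hW (fun c => if GrambH n c then 1 else 0)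
    (Or.inr fun χ => Or.inr (Or.inr h0))).congr (fun X => ?_)
  congr 1
  unfold Qs2
  rw [Finset.sum_filter]
  refine Finset.sum_congr rfl (fun e he => ?_)
  have k2 := gramb_hc ((mem_EN hn).mp he).1
  by_cases c2 : GrambH n (cl n e)
  · rw [if_pos c2, if_pos (k2.mpr c2), mul_one]
  · rw [if_neg c2, if_neg (fun hh => c2 (k2.mp hh)), mul_zero, zero_mul]

end Pool.Agent.LPr

end

/-! ### from `Lib_MP_f1a94e_lp.Bil` -/

section

/-!
# Piece BIL: linear combinations of two families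
-/

set_option autoImplicit false

namespace Pool.Agent.LPr

open Finset Pool.Agent.GaussMR Pool.Agent.OmAll Pool.Agent.OmEq MeasureTheory Filter

theorem qs2_self (f : ℕ → ℂ) (n : ℕ) (x : ℝ) (W : ℝ → ℝ → ℂ) (X : ℝ) : Qs2 f f n x W X = Qs f n x W X := rfl

theorem bil_conj (a b μ : ℂ) : (starRingEnd ℂ) ((a - μ * b) / 2) =
    ((starRingEnd ℂ) a - (starRingEnd ℂ) μ * (starRingEnd ℂ) b) / 2 := by
  rw [map_div₀, map_sub, map_mul, Complex.conj_ofNat]

theorem cg2_bil (a b : ℕ → ℂ) (μ : ℂ) (n : ℕ) (x : ℝ) (W : ℝ → ℝ → ℂ) (X : ℝ) :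
    Cg2 (fun m => (a m - μ * b m) / 2) (fun m => (a m - μ * b m) / 2) n x W X =
      (Cg2 a a n x W X - (starRingEnd ℂ) μ * Cg2 a b n x W X - μ * Cg2 b a n x W X +
        μ * (starRingEnd ℂ) μ * Cg2 b b n x W X) / 4 := by
  classical
  unfold Cg2
  rw [mul_sum, mul_sum, mul_sum, ← sum_sub_distrib, ← sum_sub_distrib, ← sum_add_distrib, sum_div]
  refine sum_congr rfl fun e _ => ?_
  rw [bil_conj]
  ring

theorem qs2_bil (a b : ℕ → ℂ) (μ : ℂ) (n : ℕ) (x : ℝ) (W : ℝ → ℝ → ℂ) (X : ℝ) :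
    Qs (fun m => (a m - μ * b m) / 2) n x W X =
      (Qs2 a a n x W X - (starRingEnd ℂ) μ * Qs2 a b n x W X - μ * Qs2 b a n x W X +
        μ * (starRingEnd ℂ) μ * Qs2 b b n x W X) / 4 := by
  classical
  unfold Qs Qs2
  rw [mul_sum, mul_sum, mul_sum, ← sum_sub_distrib, ← sum_sub_distrib, ← sum_add_distrib, sum_div]
  refine sum_congr rfl fun e _ => ?_
  rw [bil_conj]
  ring

/-- `GBX` for a combination -/
theorem comb_GBX (E : Finset ℕ) (ω : ℂ) (hω : ‖ω‖ = 1) (f f0 : ℝ → ℕ → ℂ) (h : FX f E ω) (h0 : FX f0 E ω) (μ : ℂ) :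
    GBX (fun X n => (f X n - μ * f0 X n) / 2) := by
  intro n hn b W hW a ha
  have t1 := gramBT n hn _ _ E ω (h.dil ha) (h.dil ha) hω b W hW
  have t2 := gramBT n hn _ _ E ω (h.dil ha) (h0.dil ha) hω b W hW
  have t3 := gramBT n hn _ _ E ω (h0.dil ha) (h.dil ha) hω b W hW
  have t4 := gramBT n hn _ _ E ω (h0.dil ha) (h0.dil ha) hω b W hW
  have t := (((t1.sub (t2.const_mul ((starRingEnd ℂ) μ))).sub (t3.const_mul μ)).add
    (t4.const_mul (μ * (starRingEnd ℂ) μ))).div_const 4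
  simp only [mul_zero, sub_zero, add_zero, zero_div] at t
  refine t.congr fun X => ?_
  rw [cg2_bil, qs2_bil]
  ring

/-- `TVX` for a combination -/
theorem comb_TVX (E : Finset ℕ) (ω : ℂ) (hω : ‖ω‖ = 1) (f f0 : ℝ → ℕ → ℂ) (h : FX f E ω) (h0 : FX f0 E ω) (μ : ℂ) :
    TVX (fun X n => (f X n - μ * f0 X n) / 2) := by
  intro n hn b W hW hz a ha
  have t1 := tvfBT n hn _ _ E ω (h.dil ha) (h.dil ha) hω b W hW hz
  have t2 := tvfBT n hn _ _ E ω (h.dil ha) (h0.dil ha) hω b W hW hz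
  have t3 := tvfBT n hn _ _ E ω (h0.dil ha) (h.dil ha) hω b W hW hz
  have t4 := tvfBT n hn _ _ E ω (h0.dil ha) (h0.dil ha) hω b W hW hz
  have t := (((t1.sub (t2.const_mul ((starRingEnd ℂ) μ))).sub (t3.const_mul μ)).add
    (t4.const_mul (μ * (starRingEnd ℂ) μ))).div_const 4
  simp only [mul_zero, sub_zero, add_zero, zero_div] at t
  refine t.congr fun X => ?_
  rw [qs2_bil]
  ring

/-- `GAX` -/
theorem gax (E : Finset ℕ) (ω : ℂ) (hω : ‖ω‖ = 1) (hω2 : ω ^ 2 ≠ 1) (f : ℝ → ℕ → ℂ) (h : FX f E ω) : GAX f := by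
  intro n hn b W hW a ha
  exact gramAT n hn _ _ E ω (h.dil ha) (h.dil ha) hω hω2 b W hW

/-- `PTX` for a combination -/
theorem comb_PTX (E : Finset ℕ) (ω : ℂ) (hω : ‖ω‖ = 1) (f1 f f0 : ℝ → ℕ → ℂ) (h1 : FX f1 E ω) (h : FX f E ω)
    (h0 : FX f0 E ω) (μ : ℂ) : PTX f1 (fun X n => (f X n - μ * f0 X n) / 2) := by
  intro b W hW hz a ha
  have t1 := ptx E f1 f ω ω h1 h hω hω b W hW hz a ha
  have t2 := ptx E f1 f0 ω ω h1 h0 hω hω b W hW hz a ha
  have t := (t1.sub (t2.const_mul μ)).div_const 2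
  simp only [mul_zero, sub_zero, zero_div] at t
  refine t.congr fun X => ?_
  unfold Sx2
  rw [← mul_div_assoc, mul_sum, ← sub_div, ← sum_sub_distrib, div_div, mul_comm (X : ℂ) 2, ← div_div, sum_div]
  congr 1
  refine sum_congr rfl fun e _ => ?_
  ring

end Pool.Agent.LPr

end

/-! ### from `Lib_MP_f1a94e_eq.RedB` -/

section

/-!
# Piece REDB: reduction of the correlations
-/

set_option autoImplicit false

namespace Pool.Agent.OmEq

open Finset Pool.Agent.GaussMR Pool.Agent.OmAll MeasureTheory Filter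

theorem redb_ps0_cont : Continuous ps0 := by
  unfold ps0
  exact continuous_const.max (continuous_const.sub continuous_abs)

theorem redb_ps0_nonneg (t : ℝ) : 0 ≤ ps0 t := le_max_left _ _

theorem redb_ps0_le (t : ℝ) : ps0 t ≤ 1 := max_le zero_le_one (by linarith [abs_nonneg t])

theorem redb_ps0_zero (t : ℝ) (h : 1 ≤ |t|) : ps0 t = 0 := by
  unfold ps0
  exact max_eq_left (by linarith)

theorem redb_ps0_int : ∫ t, ps0 t = 1 := by
  have h1 : ∫ t, ps0 t = ∫ t in (-1 : ℝ)..1, ps0 t := by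
    rw [intervalIntegral.integral_of_le (by norm_num),
      MeasureTheory.setIntegral_eq_integral_of_forall_compl_eq_zero]
    intro t ht
    apply redb_ps0_zero
    by_contra hc
    push Not at hc
    rw [abs_lt] at hc
    exact ht ⟨hc.1, hc.2.le⟩
  have h2 : ∫ t in (-1 : ℝ)..1, ps0 t = (∫ t in (-1 : ℝ)..0, ps0 t) + ∫ t in (0 : ℝ)..1, ps0 t :=
    (intervalIntegral.integral_add_adjacent_intervals (redb_ps0_cont.intervalIntegrable _ _)
      (redb_ps0_cont.intervalIntegrable _ _)).symm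
  have h3 : ∫ t in (-1 : ℝ)..0, ps0 t = ∫ t in (-1 : ℝ)..0, (1 + t) := by
    refine intervalIntegral.integral_congr (fun t ht => ?_)
    rw [Set.uIcc_of_le (by norm_num)] at ht
    unfold ps0
    rw [abs_of_nonpos ht.2, max_eq_right]
    · ring
    · linarith [ht.1]
  have h4 : ∫ t in (0 : ℝ)..1, ps0 t = ∫ t in (0 : ℝ)..1, (1 - t) := by
    refine intervalIntegral.integral_congr (fun t ht => ?_)
    rw [Set.uIcc_of_le (by norm_num)] at ht
    unfold ps0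
    rw [abs_of_nonneg ht.1, max_eq_right]
    linarith [ht.2]
  have h5 : ∫ t in (-1 : ℝ)..0, (1 + t) = 1 / 2 := by
    rw [intervalIntegral.integral_add intervalIntegrable_const intervalIntegral.intervalIntegrable_id]
    rw [intervalIntegral.integral_const, integral_id]
    norm_num
  have h6 : ∫ t in (0 : ℝ)..1, (1 - t) = 1 / 2 := by
    rw [intervalIntegral.integral_sub intervalIntegrable_const intervalIntegral.intervalIntegrable_id]
    rw [intervalIntegral.integral_const, integral_id]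
    norm_num
  rw [h1, h2, h3, h4, h5, h6]
  norm_num

theorem redb_R {b : ℝ} {W : ℝ → ℝ → ℂ} (hW : TF b W) : ∃ R : ℝ, ∀ y t, R < |t| → W y t = 0 := by
  obtain ⟨R, hR⟩ := ((HasCompactSupport.isCompact hW.supp).image continuous_snd).isBounded.subset_closedBall 0
  refine ⟨R, fun y t ht => ?_⟩
  by_contra hne
  have h1 : (y, t) ∈ tsupport (Function.uncurry W) := subset_tsupport _ hne
  have h2 : t ∈ Metric.closedBall (0 : ℝ) R := hR ⟨(y, t), h1, rfl⟩
  rw [mem_closedBall_zero_iff, Real.norm_eq_abs] at h2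
  linarith

theorem redb_int {b : ℝ} {W : ℝ → ℝ → ℂ} (hW : TF b W) (y : ℝ) : Integrable (fun t => W y t) := by
  obtain ⟨R, hR⟩ := redb_R hW
  have hc : Continuous (fun t => W y t) := hW.cont.comp (Continuous.prodMk_right y)
  refine hc.integrable_of_hasCompactSupport (HasCompactSupport.intro (isCompact_Icc (a := -R) (b := R)) ?_)
  intro t ht
  apply hR y t
  by_contra hcon
  push Not at hcon
  exact ht (abs_le.mp hcon)

theorem redb_c {b : ℝ} {W : ℝ → ℝ → ℂ} (hW : TF b W) : Continuous (fun y => ∫ t, W y t) := by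
  obtain ⟨R, hR⟩ := redb_R hW
  have h1 : (fun y => ∫ t, W y t) = fun y => ∫ t in Set.Icc (-R) R, W y t := by
    funext y
    rw [MeasureTheory.setIntegral_eq_integral_of_forall_compl_eq_zero]
    intro t ht
    apply hR y t
    by_contra hcon
    push Not at hcon
    exact ht (abs_le.mp hcon)
  rw [h1]
  exact continuous_parametric_integral_of_continuous hW.cont isCompact_Icc

theorem redb_tf {b : ℝ} {W : ℝ → ℝ → ℂ} (hW : TF b W) :
    TF b (fun y t => W y t - (∫ s, W y s) * ((ps0 t : ℝ) : ℂ)) := by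
  have hc := redb_c hW
  have hlo : ∀ y, y ≤ 0 → (∫ s, W y s) = 0 := by
    intro y hy
    have : (fun s => W y s) = fun _ => 0 := funext (fun s => hW.lo y s hy)
    rw [this, integral_zero]
  have hhi : ∀ y, b ≤ y → (∫ s, W y s) = 0 := by
    intro y hy
    have : (fun s => W y s) = fun _ => 0 := funext (fun s => hW.hi y s hy)
    rw [this, integral_zero]
  refine ⟨?_, ?_, ?_, ?_⟩
  · refine Continuous.sub hW.cont ?_
    exact (hc.comp continuous_fst).mul (Complex.continuous_ofReal.comp (redb_ps0_cont.comp continuous_snd))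
  · refine HasCompactSupport.intro
      ((HasCompactSupport.isCompact hW.supp).union
        ((isCompact_Icc (a := (0 : ℝ)) (b := b)).prod (isCompact_Icc (a := (-1 : ℝ)) (b := 1)))) ?_
    rintro ⟨y, t⟩ hyt
    have h1 : (y, t) ∉ tsupport (Function.uncurry W) := fun h => hyt (Or.inl h)
    have h2 : ¬ (y ∈ Set.Icc (0 : ℝ) b ∧ t ∈ Set.Icc (-1 : ℝ) 1) := fun h => hyt (Or.inr h)
    have h3 : W y t = 0 := image_eq_zero_of_notMem_tsupport (f := Function.uncurry W) h1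
    have h4 : (∫ s, W y s) * ((ps0 t : ℝ) : ℂ) = 0 := by
      by_cases hy : y ∈ Set.Icc (0 : ℝ) b
      · have ht : t ∉ Set.Icc (-1 : ℝ) 1 := fun h => h2 ⟨hy, h⟩
        have : ps0 t = 0 := by
          apply redb_ps0_zero
          by_contra hcon
          push Not at hcon
          exact ht (abs_le.mp hcon.le)
        rw [this, Complex.ofReal_zero, mul_zero]
      · have : (∫ s, W y s) = 0 := by
          rcases lt_or_ge y 0 with h5 | h5
          · exact hlo y h5.le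
          · refine hhi y ?_
            by_contra hcon
            push Not at hcon
            exact hy ⟨h5, hcon.le⟩
        rw [this, zero_mul]
    change W y t - (∫ s, W y s) * ((ps0 t : ℝ) : ℂ) = 0
    rw [h3, h4, sub_zero]
  · intro y t hy
    rw [hlo y hy, hW.lo y t hy, zero_mul, sub_zero]
  · intro y t hy
    rw [hhi y hy, hW.hi y t hy, zero_mul, sub_zero]

theorem redb_zero {b : ℝ} {W : ℝ → ℝ → ℂ} (hW : TF b W) (y : ℝ) :
    (∫ t, (W y t - (∫ s, W y s) * ((ps0 t : ℝ) : ℂ))) = 0 := by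
  have hi : Integrable (fun t => ((ps0 t : ℝ) : ℂ)) := by
    have hc : Continuous (fun t => ((ps0 t : ℝ) : ℂ)) := Complex.continuous_ofReal.comp redb_ps0_cont
    refine hc.integrable_of_hasCompactSupport (HasCompactSupport.intro (isCompact_Icc (a := (-1 : ℝ)) (b := 1)) ?_)
    intro t ht
    have : ps0 t = 0 := by
      apply redb_ps0_zero
      by_contra hcon
      push Not at hcon
      exact ht (abs_le.mp hcon.le)
    rw [this, Complex.ofReal_zero]
  rw [integral_sub (redb_int hW y) (hi.const_mul _), integral_const_mul, integral_complex_ofReal, redb_ps0_int,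
    Complex.ofReal_one, mul_one, sub_self]

/-- linearity and the change of scale -/
theorem redb_scale (f : ℕ → ℂ) (h : ℝ → ℝ) (h1 h2 : ℝ) (hh : HF h h1 h2) (n : ℕ) (hn : 0 < n) (a b X : ℝ) (J : ℕ)
    (hJ : 1 ≤ J) (hX : 0 < X) (hb : (J : ℝ) ^ 2 * h2 ≤ b) :
    Qs f n (b * X) (fun y t => ((a * h (y / (J : ℝ) ^ 2) ^ 2 : ℝ) : ℂ) * ((ps0 t : ℝ) : ℂ)) X =
      (a : ℂ) * Qs f n (h2 * ((J : ℝ) ^ 2 * X)) (fun y t => ((h y ^ 2 * ps0 t : ℝ) : ℂ)) ((J : ℝ) ^ 2 * X) := by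
  classical
  have hJ0 : (0 : ℝ) < (J : ℝ) ^ 2 := by
    have : (0 : ℝ) < J := by exact_mod_cast hJ
    positivity
  unfold Qs
  rw [Finset.mul_sum]
  symm
  have hsub : (EN n (h2 * ((J : ℝ) ^ 2 * X))).filter (hc n) ⊆ (EN n (b * X)).filter (hc n) := by
    intro e he
    obtain ⟨he1, he2⟩ := mem_filter.mp he
    have he3 := (mem_EN hn).mp he1
    refine mem_filter.mpr ⟨(mem_EN hn).mpr ⟨he3.1, he3.2.trans ?_⟩, he2⟩
    nlinarith
  have key : ∀ e : G × G, h (mE e / ((J : ℝ) ^ 2 * X)) = h (mE e / X / (J : ℝ) ^ 2) := by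
    intro e
    rw [div_div, mul_comm X]
  rw [← Finset.sum_subset hsub]
  · refine Finset.sum_congr rfl (fun e _ => ?_)
    beta_reduce
    rw [key]
    push_cast
    ring
  · intro e he hne
    obtain ⟨he1, he2⟩ := mem_filter.mp he
    have he3 := (mem_EN hn).mp he1
    have h4 : h2 * ((J : ℝ) ^ 2 * X) < mE e := by
      by_contra hcon
      push Not at hcon
      exact hne (mem_filter.mpr ⟨(mem_EN hn).mpr ⟨he3.1, hcon⟩, he2⟩)
    have h5 : h (mE e / X / (J : ℝ) ^ 2) = 0 := by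
      rw [← key]
      apply hh.hi
      rw [le_div_iff₀ (by positivity)]
      exact h4.le
    beta_reduce
    rw [h5]
    push_cast
    ring

/-- comparison of two weights -/
theorem redb_cmp (f : ℕ → ℂ) (hf : ∀ n, ‖f n‖ ≤ 1) (C : ℝ)
    (hC : ∀ n : ℕ, 0 < n → ∀ x : ℝ, (n : ℝ) ≤ x → by classical exact (((EN n x).filter (fun e => |tE e| ≤ 1)).card : ℝ) ≤ C * x)
    (n : ℕ) (hn : 0 < n) (c d : ℝ → ℂ) (κ : ℝ) (hκ : 0 ≤ κ) (hcd : ∀ y, ‖c y - d y‖ ≤ κ) (x X : ℝ) (hx : (n : ℝ) ≤ x) :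
    ‖Qs f n x (fun y t => c y * ((ps0 t : ℝ) : ℂ)) X - Qs f n x (fun y t => d y * ((ps0 t : ℝ) : ℂ)) X‖ ≤
      κ * (C * x) := by
  classical
  refine le_trans ?_ (mul_le_mul_of_nonneg_left (hC n hn x hx) hκ)
  unfold Qs
  rw [← Finset.sum_sub_distrib]
  calc ‖∑ e ∈ (EN n x).filter (hc n), (f (nm e.1) * (starRingEnd ℂ) (f (nm e.2)) * (c (mE e / X) * ((ps0 (tE e) : ℝ) : ℂ)) -
        f (nm e.1) * (starRingEnd ℂ) (f (nm e.2)) * (d (mE e / X) * ((ps0 (tE e) : ℝ) : ℂ)))‖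
      ≤ ∑ e ∈ (EN n x).filter (hc n), (if |tE e| ≤ 1 then κ else 0) := by
        refine norm_sum_le_of_le _ (fun e _ => ?_)
        have e1 : f (nm e.1) * (starRingEnd ℂ) (f (nm e.2)) * (c (mE e / X) * ((ps0 (tE e) : ℝ) : ℂ)) -
            f (nm e.1) * (starRingEnd ℂ) (f (nm e.2)) * (d (mE e / X) * ((ps0 (tE e) : ℝ) : ℂ)) =
            f (nm e.1) * (starRingEnd ℂ) (f (nm e.2)) * ((c (mE e / X) - d (mE e / X)) * ((ps0 (tE e) : ℝ) : ℂ)) := by
          ring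
        rw [e1, norm_mul, norm_mul, norm_mul, RCLike.norm_conj, Complex.norm_real, Real.norm_eq_abs,
          abs_of_nonneg (redb_ps0_nonneg _)]
        have a1 := hf (nm e.1)
        have a2 := hf (nm e.2)
        have a5 : ‖f (nm e.1)‖ * ‖f (nm e.2)‖ ≤ 1 := mul_le_one₀ a1 (norm_nonneg _) a2
        have a6 := redb_ps0_nonneg (tE e)
        have a7 := redb_ps0_le (tE e)
        have a8 := hcd (mE e / X)
        by_cases ht : |tE e| ≤ 1
        · rw [if_pos ht]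
          calc ‖f (nm e.1)‖ * ‖f (nm e.2)‖ * (‖c (mE e / X) - d (mE e / X)‖ * ps0 (tE e)) ≤ 1 * (κ * 1) := by
                gcongr
            _ = κ := by ring
        · rw [if_neg ht, redb_ps0_zero _ (by push Not at ht; exact ht.le), mul_zero, mul_zero]
    _ ≤ ∑ e ∈ EN n x, (if |tE e| ≤ 1 then κ else 0) := by
        refine Finset.sum_le_sum_of_subset_of_nonneg (Finset.filter_subset _ _) (fun e _ _ => ?_)
        split_ifs
        · exact hκ
        · exact le_rfl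
    _ = κ * (((EN n x).filter (fun e => |tE e| ≤ 1)).card : ℝ) := by
        rw [← Finset.sum_filter, Finset.sum_const, nsmul_eq_mul, mul_comm]

/-- one determinant: the limit statement -/
theorem redb_one (f : ℕ → ℂ) (E : Finset ℕ) (ω : ℂ) (h : FF f E ω) (hω : ‖ω‖ = 1) (h' : ℝ → ℝ) (h1 h2 : ℝ)
    (hh : HF h' h1 h2) (J N n : ℕ) (hJ : 1 ≤ J) (hN : 1 ≤ N) (hn : 1 ≤ n) (b : ℝ) (hb : ((J : ℝ) + N) ^ 2 * h2 ≤ b)
    (hb0 : 0 < b) :
    Tendsto (fun X : ℝ => (Gm f h' J N n (b * X) X - ((kap n / n.totient : ℝ) : ℂ) *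
      Qs f n (b * X) (fun y t => (∫ s, WN h' J N n y s) * ((ps0 t : ℝ) : ℂ)) X) / X) atTop (nhds 0) := by
  have hTF := WN_tf h' h1 h2 hh J N n hJ hN hn b hb
  have e1 := apxN f h.bd h' h1 h2 hh J N n hJ hN hn b hb0
  have e2 := gramB n hn f E ω h hω b (WN h' J N n) hTF
  have e3 := (tvfB n hn f E ω h hω b _ (redb_tf hTF) (redb_zero hTF)).const_mul ((kap n / n.totient : ℝ) : ℂ)
  rw [mul_zero] at e3
  have e4 := (e1.add e2).add e3
  rw [add_zero, add_zero] at e4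
  refine e4.congr (fun X => ?_)
  have e5 : Qs f n (b * X) (fun y t => WN h' J N n y t - (∫ s, WN h' J N n y s) * ((ps0 t : ℝ) : ℂ)) X =
      Qs f n (b * X) (WN h' J N n) X -
        Qs f n (b * X) (fun y t => (∫ s, WN h' J N n y s) * ((ps0 t : ℝ) : ℂ)) X := by
    unfold Qs
    rw [← Finset.sum_sub_distrib]
    refine Finset.sum_congr rfl (fun e _ => ?_)
    ring
  rw [e5]
  ring

/-- PROOF. Given `h, h1, h2, ε`. `N0` from `hQ` with `ε/4`, `N ≥ max N0 1`; `C` from `cnt 1`; `J0 ≥ N` so large that `cnB` holds with `η = ε / (40 C h2 N)`. Fix `J ≥ J0`, `b = (J+N)^2 h2 + 1 ≤ 5 J^2 h2`. For `1 ≤ n ≤ N`, as `X → ∞`: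
(i) `apxN` and `gramB` for `WN h J N n` (`WN_tf`): `Gm_n = (kap n/φ(n)) Qs f n (b X) (WN) X + o(X)`.
(ii) `tvfB` for `W y t = WN y t - c y * ps0 t`, `c y = ∫ t, WN y t` (continuous, zero for `y ≤ 0` and `y ≥ b`; `∫ ps0 = 1`): `Qs (WN) = Qs (c ⊗ ps0) + o(X)`.
(iii) `cnB`: `‖Qs (c ⊗ ps0) - (2 n N/J^2) ww(n/N) Qs f n (b X) (h (y/J^2)^2 ⊗ ps0) X‖ ≤ η (n N/J^2) #{e ∈ EN n (b X) : |tE e| ≤ 1} ≤ 5 η n N C h2 X` (`cnt`, `n ≤ b X`).
(iv) With `Y = J^2 X`: `Qs f n (b X) (h (y/J^2)^2 ⊗ ps0) X = Qs f n (h2 Y) (h y^2 ⊗ ps0) Y` (terms with `mE ≥ h2 Y` vanish, `b X ≥ h2 Y`).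
(v) `kap n/φ(n) * 2 n N/J^2 * ww = (2 N/J^2) * kap n (n/φ(n)) ww`; by `hQ`, `(2 N/J^2) (ε/4) N Y = (ε/2) N^2 X`; the errors (iii): `∑_(n ≤ N) (2/φ(n)) 5 η n N C h2 X ≤ 10 η C h2 N * N^2 X` (`n/φ(n) ≤ n ≤ N`) `= (ε/4) N^2 X`; the
`o(X)` terms are `≤ (ε/4) N^2 X` eventually. -/
theorem redB (f : ℕ → ℂ) (E : Finset ℕ) (ω : ℂ) (h : FF f E ω) (hω : ‖ω‖ = 1) (hQ : QSmall f) : GmSmall f := by
  classical
  intro h' h1 h2 hh ε hε
  have h2one : (1 : ℝ) ≤ h2 := hh.one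
  have h2pos : 0 < h2 := by linarith
  obtain ⟨C, hC, hcnt⟩ := cnt 1
  obtain ⟨N0, hN0⟩ := hQ h' h1 h2 hh (ε / 4) (by positivity)
  refine ⟨max N0 1, fun N hN => ?_⟩
  have hN1 : 1 ≤ N := le_trans (le_max_right _ _) hN
  have hNN0 : N0 ≤ N := le_trans (le_max_left _ _) hN
  have hNr : (1 : ℝ) ≤ N := by exact_mod_cast hN1
  have hNpos : (0 : ℝ) < N := by linarith
  set η : ℝ := ε / (40 * C * h2 * N) with hη
  have hηpos : 0 < η := by positivity
  obtain ⟨J0, hJ01, hcn⟩ := cnB h' h1 h2 hh N hN1 η hηpos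
  refine ⟨max J0 N, fun J hJ => ?_⟩
  have hJ0 : J0 ≤ J := le_trans (le_max_left _ _) hJ
  have hJN : N ≤ J := le_trans (le_max_right _ _) hJ
  have hJ1 : 1 ≤ J := le_trans hN1 hJN
  have hJNr : (N : ℝ) ≤ J := by exact_mod_cast hJN
  have hJr : (1 : ℝ) ≤ J := by linarith
  have hJpos : (0 : ℝ) < J := by linarith
  set b : ℝ := ((J : ℝ) + N) ^ 2 * h2 + 1 with hb
  have hbpos : 0 < b := by positivity
  have hb5 : b ≤ 5 * (J : ℝ) ^ 2 * h2 := by
    have e1 : ((J : ℝ) + N) ^ 2 ≤ 4 * (J : ℝ) ^ 2 := by nlinarith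
    have e2 : (1 : ℝ) ≤ (J : ℝ) ^ 2 * h2 := by nlinarith
    nlinarith
  have hbJ : (J : ℝ) ^ 2 * h2 ≤ b := by
    have e1 : (J : ℝ) ^ 2 ≤ ((J : ℝ) + N) ^ 2 := by nlinarith
    nlinarith
  -- the limit part
  have hlim : Tendsto (fun X : ℝ => ∑ n ∈ Icc 1 N, (Gm f h' J N n (b * X) X - ((kap n / n.totient : ℝ) : ℂ) *
      Qs f n (b * X) (fun y t => (∫ s, WN h' J N n y s) * ((ps0 t : ℝ) : ℂ)) X) / X) atTop (nhds 0) := by
    have := tendsto_finsetSum (Icc 1 N) (fun n hn => redb_one f E ω h hω h' h1 h2 hh J N n hJ1 hN1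
      (mem_Icc.mp hn).1 b (by linarith) hbpos)
    rw [Finset.sum_const_zero] at this
    exact this
  have hev := (Metric.tendsto_nhds.mp hlim) (ε / 4) (by positivity)
  have hQev := (tendsto_id.const_mul_atTop (r := (J : ℝ) ^ 2) (by positivity)).eventually (hN0 N hNN0)
  filter_upwards [hev, hQev, eventually_gt_atTop (0 : ℝ), eventually_ge_atTop (N : ℝ)] with X hX hXQ hX0 hXN
  rw [dist_zero_right, ← Finset.sum_div, norm_div, Complex.norm_real, Real.norm_eq_abs, abs_of_pos hX0,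
    div_lt_iff₀ hX0] at hX
  simp only [id] at hXQ
  set Y : ℝ := (J : ℝ) ^ 2 * X with hY
  -- notation
  set q : ℕ → ℂ := fun n => Qs f n (h2 * Y) (fun y t => ((h' y ^ 2 * ps0 t : ℝ) : ℂ)) Y with hq
  set c : ℕ → ℂ := fun n => Qs f n (b * X) (fun y t => (∫ s, WN h' J N n y s) * ((ps0 t : ℝ) : ℂ)) X with hc
  set d : ℕ → ℂ := fun n => Qs f n (b * X) (fun y t =>
    (((2 * n * N / (J : ℝ) ^ 2 * h' (y / (J : ℝ) ^ 2) ^ 2 * ww ((n : ℝ) / N) : ℝ)) : ℂ) * ((ps0 t : ℝ) : ℂ)) X with hd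
  have hdq : ∀ n ∈ Icc 1 N, d n = ((2 * n * N / (J : ℝ) ^ 2 * ww ((n : ℝ) / N) : ℝ) : ℂ) * q n := by
    intro n hn
    have hn1 := (mem_Icc.mp hn).1
    have e1 := redb_scale f h' h1 h2 hh n hn1 (2 * n * N / (J : ℝ) ^ 2 * ww ((n : ℝ) / N)) b X J hJ1 hX0 hbJ
    rw [hq]
    simp only
    rw [hY, ← e1, hd]
    simp only
    congr 1
    funext y t
    congr 2
    ring
  have hcd : ∀ n ∈ Icc 1 N, ‖c n - d n‖ ≤ 5 * η * n * N * C * h2 * X := by
    intro n hn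
    obtain ⟨hn1, hn2⟩ := mem_Icc.mp hn
    have hnr : (1 : ℝ) ≤ n := by exact_mod_cast hn1
    have hnN : (n : ℝ) ≤ N := by exact_mod_cast hn2
    have hbX : (n : ℝ) ≤ b * X := by
      have : (1 : ℝ) ≤ b := by
        have : 0 ≤ ((J : ℝ) + N) ^ 2 * h2 := by positivity
        linarith
      nlinarith
    have e1 := redb_cmp f h.bd C hcnt n hn1 (fun y => ∫ s, WN h' J N n y s)
      (fun y => (((2 * n * N / (J : ℝ) ^ 2 * h' (y / (J : ℝ) ^ 2) ^ 2 * ww ((n : ℝ) / N) : ℝ)) : ℂ))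
      (η * (n * N / (J : ℝ) ^ 2)) (by positivity) (fun y => hcn J hJ0 n hn1 hn2 y) (b * X) X hbX
    refine e1.trans ?_
    calc η * (n * N / (J : ℝ) ^ 2) * (C * (b * X)) ≤ η * (n * N / (J : ℝ) ^ 2) * (C * ((5 * (J : ℝ) ^ 2 * h2) * X)) := by
          gcongr
      _ = 5 * η * n * N * C * h2 * X := by
          field_simp
  -- the decomposition
  have hdec : ∑ n ∈ Icc 1 N, Gm f h' J N n (b * X) X =
      ∑ n ∈ Icc 1 N, (Gm f h' J N n (b * X) X - ((kap n / n.totient : ℝ) : ℂ) * c n) +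
      ∑ n ∈ Icc 1 N, ((kap n / n.totient : ℝ) : ℂ) * (c n - d n) +
      ((2 * N / (J : ℝ) ^ 2 : ℝ) : ℂ) *
        ∑ n ∈ Icc 1 N, ((kap n * (n / n.totient) * ww ((n : ℝ) / N) : ℝ) : ℂ) * q n := by
    rw [Finset.mul_sum, ← Finset.sum_add_distrib, ← Finset.sum_add_distrib]
    refine Finset.sum_congr rfl (fun n hn => ?_)
    rw [hdq n hn]
    push_cast
    ring
  have hp1 : ‖∑ n ∈ Icc 1 N, (Gm f h' J N n (b * X) X - ((kap n / n.totient : ℝ) : ℂ) * c n)‖ ≤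
      ε / 4 * N ^ 2 * X := by
    refine hX.le.trans ?_
    have : (1 : ℝ) ≤ (N : ℝ) ^ 2 := one_le_pow₀ hNr
    have h3 : ε / 4 * X * 1 ≤ ε / 4 * X * (N : ℝ) ^ 2 := mul_le_mul_of_nonneg_left this (by positivity)
    linarith
  have hp2 : ‖∑ n ∈ Icc 1 N, ((kap n / n.totient : ℝ) : ℂ) * (c n - d n)‖ ≤ ε / 4 * N ^ 2 * X := by
    calc ‖∑ n ∈ Icc 1 N, ((kap n / n.totient : ℝ) : ℂ) * (c n - d n)‖
        ≤ ∑ n ∈ Icc 1 N, (2 * (5 * η * N * N * C * h2 * X)) := by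
          refine norm_sum_le_of_le _ (fun n hn => ?_)
          obtain ⟨hn1, hn2⟩ := mem_Icc.mp hn
          have hnN : (n : ℝ) ≤ N := by exact_mod_cast hn2
          have hφ : (1 : ℝ) ≤ n.totient := by exact_mod_cast Nat.totient_pos.mpr hn1
          have k1 : 0 ≤ kap n ∧ kap n ≤ 2 := by
            unfold kap
            split_ifs <;> norm_num
          have k2 : kap n / n.totient ≤ 2 := by
            rw [div_le_iff₀ (by linarith)]
            nlinarith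
          rw [norm_mul, Complex.norm_real, Real.norm_eq_abs, abs_of_nonneg (div_nonneg k1.1 (by linarith))]
          refine mul_le_mul k2 ((hcd n hn).trans ?_) (norm_nonneg _) (by norm_num)
          gcongr
      _ = N * (2 * (5 * η * N * N * C * h2 * X)) := by
          rw [Finset.sum_const, nsmul_eq_mul, Nat.card_Icc, Nat.add_sub_cancel]
      _ = ε / 4 * N ^ 2 * X := by
          rw [hη]
          field_simp
          ring
  have hp3 : ‖((2 * N / (J : ℝ) ^ 2 : ℝ) : ℂ) *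
        ∑ n ∈ Icc 1 N, ((kap n * (n / n.totient) * ww ((n : ℝ) / N) : ℝ) : ℂ) * q n‖ ≤ ε / 2 * N ^ 2 * X := by
    rw [norm_mul, Complex.norm_real, Real.norm_eq_abs, abs_of_nonneg (by positivity)]
    calc (2 * N / (J : ℝ) ^ 2) * ‖∑ n ∈ Icc 1 N, ((kap n * (n / n.totient) * ww ((n : ℝ) / N) : ℝ) : ℂ) * q n‖
        ≤ (2 * N / (J : ℝ) ^ 2) * (ε / 4 * N * Y) := mul_le_mul_of_nonneg_left hXQ (by positivity)
      _ = ε / 2 * N ^ 2 * X := by
          rw [hY]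
          field_simp
          ring
  rw [hdec]
  refine (norm_add_le _ _).trans ?_
  have := norm_add_le (∑ n ∈ Icc 1 N, (Gm f h' J N n (b * X) X - ((kap n / n.totient : ℝ) : ℂ) * c n))
    (∑ n ∈ Icc 1 N, ((kap n / n.totient : ℝ) : ℂ) * (c n - d n))
  linarith

end Pool.Agent.OmEq

end

/-! ### from `Lib_MP_f1a94e_lp.GmX` -/

section

/-!
# Piece GMX: the correlations on average, for families
-/

set_option autoImplicit false

namespace Pool.Agent.LPr

open Finset Pool.Agent.GaussMR Pool.Agent.OmAll Pool.Agent.OmEq MeasureTheory Filter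

/-- PROOF. `apxN_abs` (ApxA.lean): `‖Gm f ... - Cg2 f f ... (WN h J N n)‖ ≤ ∑_(EN n (b X)) ‖wN - WN‖` for every `f` bounded by 1, and this is `o(X)`. -/
theorem gm_cg (f : ℝ → ℕ → ℂ) (hf : ∀ X n, ‖f X n‖ ≤ 1) (h : ℝ → ℝ) (h1 h2 : ℝ) (hh : HF h h1 h2) (J N n : ℕ)
    (hJ : 1 ≤ J) (hN : 1 ≤ N) (hn : 1 ≤ n) (b : ℝ) (hb : 0 < b) :
    Tendsto (fun X : ℝ => (Gm (f X) h J N n (b * X) X - Cg2 (f X) (f X) n (b * X) (WN h J N n) X) / X)
      atTop (nhds 0) := by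
  classical
  refine squeeze_zero_norm' ?_ (apxN_abs h h1 h2 hh J N n hJ hN hn b hb)
  filter_upwards [eventually_gt_atTop (0 : ℝ)] with X hX
  rw [norm_div, Complex.norm_real, Real.norm_eq_abs, abs_of_pos hX]
  refine div_le_div_of_nonneg_right ?_ hX.le
  unfold Gm Cg2
  rw [← sum_sub_distrib]
  refine (norm_sum_le _ _).trans ?_
  refine (sum_le_sum (g := fun e => ‖((wN h J N n X e : ℝ) : ℂ) - WN h J N n (mE e / X) (tE e)‖)
    fun e _ => ?_).trans ?_
  · rw [← mul_sub, norm_mul, norm_mul, RCLike.norm_conj]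
    have h4 : ‖f X (nm e.1)‖ * ‖f X (nm e.2)‖ ≤ 1 :=
      mul_le_one₀ (hf X (nm e.1)) (norm_nonneg _) (hf X (nm e.2))
    calc ‖f X (nm e.1)‖ * ‖f X (nm e.2)‖ * _ ≤ 1 * _ := mul_le_mul_of_nonneg_right h4 (norm_nonneg _)
      _ ≤ _ := by rw [one_mul]
  · exact sum_le_sum_of_subset_of_nonneg (filter_subset _ _) fun e _ _ => norm_nonneg _

/-- PROOF. As `gm_small_of_ne` (GmA.lean): `N0 = J0 = 1`, `gm_cg` for the family `fun X => f (a * X)` and `GAX` for `WN h J N n` (`WN_tf`); finite sum over `n`. -/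
theorem gmA_X (f : ℝ → ℕ → ℂ) (hf : ∀ X n, ‖f X n‖ ≤ 1) (hG : GAX f) : GmSmallX f := by
  classical
  intro h' h1 h2 hh ε hε
  refine ⟨1, fun N hN => ⟨1, fun J hJ a ha => ?_⟩⟩
  set b : ℝ := ((J : ℝ) + N) ^ 2 * h2 + 1 with hb
  have h2one : (1 : ℝ) ≤ h2 := hh.one
  have hb0 : 0 < b := by
    have : 0 ≤ ((J : ℝ) + N) ^ 2 * h2 := by positivity
    linarith
  have hlim : ∀ n ∈ Icc 1 N, Tendsto (fun X : ℝ => Gm (f (a * X)) h' J N n (b * X) X / X) atTop (nhds 0) := by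
    intro n hn
    have hn1 : 1 ≤ n := (mem_Icc.mp hn).1
    have e1 := gm_cg (fun X => f (a * X)) (fun X n => hf (a * X) n) h' h1 h2 hh J N n hJ hN hn1 b hb0
    have e2 := hG n hn1 b (WN h' J N n) (WN_tf h' h1 h2 hh J N n hJ hN hn1 b (by linarith)) a ha
    have e3 := e1.add e2
    rw [add_zero] at e3
    refine e3.congr (fun X => ?_)
    ring
  have hsum := tendsto_finsetSum (Icc 1 N) hlim
  rw [Finset.sum_const_zero] at hsum
  have hev := (Metric.tendsto_nhds.mp hsum) ε hε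
  filter_upwards [hev, eventually_gt_atTop (0 : ℝ)] with X hX hX0
  rw [dist_zero_right, ← Finset.sum_div, norm_div, Complex.norm_real, Real.norm_eq_abs, abs_of_pos hX0,
    div_lt_iff₀ hX0] at hX
  have hN1 : (1 : ℝ) ≤ N := by exact_mod_cast hN
  have hN2 : (1 : ℝ) ≤ (N : ℝ) ^ 2 := one_le_pow₀ hN1
  calc ‖∑ n ∈ Icc 1 N, Gm (f (a * X)) h' J N n (b * X) X‖ ≤ ε * X := hX.le
    _ ≤ ε * N ^ 2 * X := by
      have : ε * 1 * X ≤ ε * (N : ℝ) ^ 2 * X := by gcongr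
      linarith

/-- one determinant: the limit statement -/
private theorem gmx_one (f : ℝ → ℕ → ℂ) (hf : ∀ X n, ‖f X n‖ ≤ 1) (hG : GBX f) (hT : TVX f) (a : ℝ) (ha : 0 < a)
    (h' : ℝ → ℝ) (h1 h2 : ℝ) (hh : HF h' h1 h2) (J N n : ℕ) (hJ : 1 ≤ J) (hN : 1 ≤ N) (hn : 1 ≤ n) (b : ℝ)
    (hb : ((J : ℝ) + N) ^ 2 * h2 ≤ b) (hb0 : 0 < b) :
    Tendsto (fun X : ℝ => (Gm (f (a * X)) h' J N n (b * X) X - ((kap n / n.totient : ℝ) : ℂ) *
      Qs (f (a * X)) n (b * X) (fun y t => (∫ s, WN h' J N n y s) * ((ps0 t : ℝ) : ℂ)) X) / X) atTop (nhds 0) := by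
  have hTF := WN_tf h' h1 h2 hh J N n hJ hN hn b hb
  have e1 := gm_cg (fun X => f (a * X)) (fun X n => hf (a * X) n) h' h1 h2 hh J N n hJ hN hn b hb0
  have e2 := hG n hn b (WN h' J N n) hTF a ha
  have e3 := (hT n hn b _ (redb_tf hTF) (redb_zero hTF) a ha).const_mul ((kap n / n.totient : ℝ) : ℂ)
  rw [mul_zero] at e3
  have e4 := (e1.add e2).add e3
  rw [add_zero, add_zero] at e4
  refine e4.congr (fun X => ?_)
  have e5 : Qs (f (a * X)) n (b * X) (fun y t => WN h' J N n y t - (∫ s, WN h' J N n y s) * ((ps0 t : ℝ) : ℂ)) X =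
      Qs (f (a * X)) n (b * X) (WN h' J N n) X -
        Qs (f (a * X)) n (b * X) (fun y t => (∫ s, WN h' J N n y s) * ((ps0 t : ℝ) : ℂ)) X := by
    unfold Qs
    rw [← Finset.sum_sub_distrib]
    refine Finset.sum_congr rfl (fun e _ => ?_)
    ring
  rw [e5]
  ring

/-- PROOF. As `redB` (RedB.lean; `redb_scale`, `redb_cmp` and all facts on `ps0`, `redb_tf`, `redb_zero` can be used as they are, they hold for every single `f`): in `redb_one` replace `apxN` by `gm_cg`, `gramB` by `GBX`,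
`tvfB` by `TVX`, all for the family `fun X => f (a * X)`. In the final step `Y = J^2 X`: `QSmallX` is used with `a / J^2` (`a / J^2 * (J^2 * X) = a * X`). -/
theorem redB_X (f : ℝ → ℕ → ℂ) (hf : ∀ X n, ‖f X n‖ ≤ 1) (hG : GBX f) (hT : TVX f) (hQ : QSmallX f) : GmSmallX f := by
  classical
  intro h' h1 h2 hh ε hε
  have h2one : (1 : ℝ) ≤ h2 := hh.one
  have h2pos : 0 < h2 := by linarith
  obtain ⟨C, hC, hcnt⟩ := cnt 1
  obtain ⟨N0, hN0⟩ := hQ h' h1 h2 hh (ε / 4) (by positivity)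
  refine ⟨max N0 1, fun N hN => ?_⟩
  have hN1 : 1 ≤ N := le_trans (le_max_right _ _) hN
  have hNN0 : N0 ≤ N := le_trans (le_max_left _ _) hN
  have hNr : (1 : ℝ) ≤ N := by exact_mod_cast hN1
  have hNpos : (0 : ℝ) < N := by linarith
  set η : ℝ := ε / (40 * C * h2 * N) with hη
  have hηpos : 0 < η := by positivity
  obtain ⟨J0, hJ01, hcn⟩ := cnB h' h1 h2 hh N hN1 η hηpos
  refine ⟨max J0 N, fun J hJ a ha => ?_⟩
  have hJ0 : J0 ≤ J := le_trans (le_max_left _ _) hJ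
  have hJN : N ≤ J := le_trans (le_max_right _ _) hJ
  have hJ1 : 1 ≤ J := le_trans hN1 hJN
  have hJNr : (N : ℝ) ≤ J := by exact_mod_cast hJN
  have hJr : (1 : ℝ) ≤ J := by linarith
  have hJpos : (0 : ℝ) < J := by linarith
  set b : ℝ := ((J : ℝ) + N) ^ 2 * h2 + 1 with hb
  have hbpos : 0 < b := by positivity
  have hb5 : b ≤ 5 * (J : ℝ) ^ 2 * h2 := by
    have e1 : ((J : ℝ) + N) ^ 2 ≤ 4 * (J : ℝ) ^ 2 := by nlinarith
    have e2 : (1 : ℝ) ≤ (J : ℝ) ^ 2 * h2 := by nlinarith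
    nlinarith
  have hbJ : (J : ℝ) ^ 2 * h2 ≤ b := by
    have e1 : (J : ℝ) ^ 2 ≤ ((J : ℝ) + N) ^ 2 := by nlinarith
    nlinarith
  -- the limit part
  have hlim : Tendsto (fun X : ℝ => ∑ n ∈ Icc 1 N, (Gm (f (a * X)) h' J N n (b * X) X -
      ((kap n / n.totient : ℝ) : ℂ) *
      Qs (f (a * X)) n (b * X) (fun y t => (∫ s, WN h' J N n y s) * ((ps0 t : ℝ) : ℂ)) X) / X)
      atTop (nhds 0) := by
    have := tendsto_finsetSum (Icc 1 N) (fun n hn => gmx_one f hf hG hT a ha h' h1 h2 hh J N n hJ1 hN1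
      (mem_Icc.mp hn).1 b (by linarith) hbpos)
    rw [Finset.sum_const_zero] at this
    exact this
  have hev := (Metric.tendsto_nhds.mp hlim) (ε / 4) (by positivity)
  have hQev := (tendsto_id.const_mul_atTop (r := (J : ℝ) ^ 2) (by positivity)).eventually
    (hN0 N hNN0 (a / (J : ℝ) ^ 2) (by positivity))
  filter_upwards [hev, hQev, eventually_gt_atTop (0 : ℝ), eventually_ge_atTop (N : ℝ)] with X hX hXQ hX0 hXN
  rw [dist_zero_right, ← Finset.sum_div, norm_div, Complex.norm_real, Real.norm_eq_abs, abs_of_pos hX0,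
    div_lt_iff₀ hX0] at hX
  have hfa : a / (J : ℝ) ^ 2 * ((J : ℝ) ^ 2 * X) = a * X := by
    field_simp
  simp only [id] at hXQ
  rw [hfa] at hXQ
  set Y : ℝ := (J : ℝ) ^ 2 * X with hY
  obtain ⟨F, hF⟩ : ∃ F : ℕ → ℂ, F = f (a * X) := ⟨_, rfl⟩
  have hFb : ∀ n, ‖F n‖ ≤ 1 := by
    intro n
    rw [hF]
    exact hf (a * X) n
  rw [← hF] at hX hXQ ⊢
  -- notation
  set q : ℕ → ℂ := fun n => Qs F n (h2 * Y) (fun y t => ((h' y ^ 2 * ps0 t : ℝ) : ℂ)) Y with hq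
  set c : ℕ → ℂ := fun n => Qs F n (b * X) (fun y t => (∫ s, WN h' J N n y s) * ((ps0 t : ℝ) : ℂ)) X with hc
  set d : ℕ → ℂ := fun n => Qs F n (b * X) (fun y t =>
    (((2 * n * N / (J : ℝ) ^ 2 * h' (y / (J : ℝ) ^ 2) ^ 2 * ww ((n : ℝ) / N) : ℝ)) : ℂ) * ((ps0 t : ℝ) : ℂ)) X with hd
  have hdq : ∀ n ∈ Icc 1 N, d n = ((2 * n * N / (J : ℝ) ^ 2 * ww ((n : ℝ) / N) : ℝ) : ℂ) * q n := by
    intro n hn
    have hn1 := (mem_Icc.mp hn).1
    have e1 := redb_scale F h' h1 h2 hh n hn1 (2 * n * N / (J : ℝ) ^ 2 * ww ((n : ℝ) / N)) b X J hJ1 hX0 hbJ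
    rw [hq]
    simp only
    rw [hY, ← e1, hd]
    simp only
    congr 1
    funext y t
    congr 2
    ring
  have hcd : ∀ n ∈ Icc 1 N, ‖c n - d n‖ ≤ 5 * η * n * N * C * h2 * X := by
    intro n hn
    obtain ⟨hn1, hn2⟩ := mem_Icc.mp hn
    have hnr : (1 : ℝ) ≤ n := by exact_mod_cast hn1
    have hnN : (n : ℝ) ≤ N := by exact_mod_cast hn2
    have hbX : (n : ℝ) ≤ b * X := by
      have : (1 : ℝ) ≤ b := by
        have : 0 ≤ ((J : ℝ) + N) ^ 2 * h2 := by positivity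
        linarith
      nlinarith
    have e1 := redb_cmp F hFb C hcnt n hn1 (fun y => ∫ s, WN h' J N n y s)
      (fun y => (((2 * n * N / (J : ℝ) ^ 2 * h' (y / (J : ℝ) ^ 2) ^ 2 * ww ((n : ℝ) / N) : ℝ)) : ℂ))
      (η * (n * N / (J : ℝ) ^ 2)) (by positivity) (fun y => hcn J hJ0 n hn1 hn2 y) (b * X) X hbX
    refine e1.trans ?_
    calc η * (n * N / (J : ℝ) ^ 2) * (C * (b * X)) ≤ η * (n * N / (J : ℝ) ^ 2) * (C * ((5 * (J : ℝ) ^ 2 * h2) * X)) := by
          gcongr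
      _ = 5 * η * n * N * C * h2 * X := by
          field_simp
  -- the decomposition
  have hdec : ∑ n ∈ Icc 1 N, Gm F h' J N n (b * X) X =
      ∑ n ∈ Icc 1 N, (Gm F h' J N n (b * X) X - ((kap n / n.totient : ℝ) : ℂ) * c n) +
      ∑ n ∈ Icc 1 N, ((kap n / n.totient : ℝ) : ℂ) * (c n - d n) +
      ((2 * N / (J : ℝ) ^ 2 : ℝ) : ℂ) *
        ∑ n ∈ Icc 1 N, ((kap n * (n / n.totient) * ww ((n : ℝ) / N) : ℝ) : ℂ) * q n := by
    rw [Finset.mul_sum, ← Finset.sum_add_distrib, ← Finset.sum_add_distrib]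
    refine Finset.sum_congr rfl (fun n hn => ?_)
    rw [hdq n hn]
    push_cast
    ring
  have hp1 : ‖∑ n ∈ Icc 1 N, (Gm F h' J N n (b * X) X - ((kap n / n.totient : ℝ) : ℂ) * c n)‖ ≤
      ε / 4 * N ^ 2 * X := by
    refine hX.le.trans ?_
    have : (1 : ℝ) ≤ (N : ℝ) ^ 2 := one_le_pow₀ hNr
    have h3 : ε / 4 * X * 1 ≤ ε / 4 * X * (N : ℝ) ^ 2 := mul_le_mul_of_nonneg_left this (by positivity)
    linarith
  have hp2 : ‖∑ n ∈ Icc 1 N, ((kap n / n.totient : ℝ) : ℂ) * (c n - d n)‖ ≤ ε / 4 * N ^ 2 * X := by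
    calc ‖∑ n ∈ Icc 1 N, ((kap n / n.totient : ℝ) : ℂ) * (c n - d n)‖
        ≤ ∑ n ∈ Icc 1 N, (2 * (5 * η * N * N * C * h2 * X)) := by
          refine norm_sum_le_of_le _ (fun n hn => ?_)
          obtain ⟨hn1, hn2⟩ := mem_Icc.mp hn
          have hnN : (n : ℝ) ≤ N := by exact_mod_cast hn2
          have hφ : (1 : ℝ) ≤ n.totient := by exact_mod_cast Nat.totient_pos.mpr hn1
          have k1 : 0 ≤ kap n ∧ kap n ≤ 2 := by
            unfold kap
            split_ifs <;> norm_num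
          have k2 : kap n / n.totient ≤ 2 := by
            rw [div_le_iff₀ (by linarith)]
            nlinarith
          rw [norm_mul, Complex.norm_real, Real.norm_eq_abs, abs_of_nonneg (div_nonneg k1.1 (by linarith))]
          refine mul_le_mul k2 ((hcd n hn).trans ?_) (norm_nonneg _) (by norm_num)
          gcongr
      _ = N * (2 * (5 * η * N * N * C * h2 * X)) := by
          rw [Finset.sum_const, nsmul_eq_mul, Nat.card_Icc, Nat.add_sub_cancel]
      _ = ε / 4 * N ^ 2 * X := by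
          rw [hη]
          field_simp
          ring
  have hp3 : ‖((2 * N / (J : ℝ) ^ 2 : ℝ) : ℂ) *
        ∑ n ∈ Icc 1 N, ((kap n * (n / n.totient) * ww ((n : ℝ) / N) : ℝ) : ℂ) * q n‖ ≤ ε / 2 * N ^ 2 * X := by
    rw [norm_mul, Complex.norm_real, Real.norm_eq_abs, abs_of_nonneg (by positivity)]
    calc (2 * N / (J : ℝ) ^ 2) * ‖∑ n ∈ Icc 1 N, ((kap n * (n / n.totient) * ww ((n : ℝ) / N) : ℝ) : ℂ) * q n‖
        ≤ (2 * N / (J : ℝ) ^ 2) * (ε / 4 * N * Y) := mul_le_mul_of_nonneg_left hXQ (by positivity)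
      _ = ε / 2 * N ^ 2 * X := by
          rw [hY]
          field_simp
          ring
  rw [hdec]
  refine (norm_add_le _ _).trans ?_
  have := norm_add_le (∑ n ∈ Icc 1 N, (Gm F h' J N n (b * X) X - ((kap n / n.totient : ℝ) : ℂ) * c n))
    (∑ n ∈ Icc 1 N, ((kap n / n.totient : ℝ) : ℂ) * (c n - d n))
  linarith

end Pool.Agent.LPr

end

/-! ### from `Lib_MP_f1a94e_lp.LimX` -/

section

/-!
# Piece LIMX: from correlations to the sum over edges, two families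
-/

set_option autoImplicit false

namespace Pool.Agent.LPr

open Finset Pool.Agent.GaussMR Pool.Agent.OmAll Pool.Agent.OmEq MeasureTheory Filter

open Classical in
/-- as `limh_small` (same proof) -/
theorem limx_small (f1 f2 : ℕ → ℂ) (hf1 : ∀ n, ‖f1 n‖ ≤ 1) (hf2 : ∀ n, ‖f2 n‖ ≤ 1) {C : ℝ}
    (hcnt : ∀ n : ℕ, 0 < n → ∀ x : ℝ, (n : ℝ) ≤ x →
      (((EN n x).filter (fun e => |tE e| ≤ 1)).card : ℝ) ≤ C * x) (x : ℝ) (hx : 1 ≤ x) (ε : ℝ) (hε : 0 ≤ ε)
    (w : G × G → ℂ) (hw : ∀ e ∈ EN 1 x, ‖w e‖ ≤ ε) :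
    ‖∑ e ∈ EN 1 x, f1 (nm e.1) * f2 (nm e.2) * (w e * ((ps0 (tE e) : ℝ) : ℂ))‖ ≤ ε * (C * x) := by
  have h1 : ‖∑ e ∈ EN 1 x, f1 (nm e.1) * f2 (nm e.2) * (w e * ((ps0 (tE e) : ℝ) : ℂ))‖ ≤
      ∑ e ∈ EN 1 x, if |tE e| ≤ 1 then ε else 0 := by
    apply norm_sum_le_of_le
    intro e he
    by_cases ht : |tE e| ≤ 1
    · rw [if_pos ht, norm_mul, norm_mul, norm_mul, Complex.norm_real, Real.norm_eq_abs,
        abs_of_nonneg (limh_ps0_nonneg _)]
      have h2 := hf1 (nm e.1)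
      have h3 := hf2 (nm e.2)
      have h4 := hw e he
      have h5 := limh_ps0_le (tE e)
      have h6 := limh_ps0_nonneg (tE e)
      calc ‖f1 (nm e.1)‖ * ‖f2 (nm e.2)‖ * (‖w e‖ * ps0 (tE e)) ≤ 1 * 1 * (ε * 1) := by gcongr
        _ = ε := by ring
    · rw [if_neg ht, limh_ps0_zero (not_le.1 ht).le]
      simp
  refine h1.trans ?_
  rw [← sum_filter, sum_const, nsmul_eq_mul]
  have h2 := hcnt 1 one_pos x (by simpa using hx)
  calc (((EN 1 x).filter (fun e => |tE e| ≤ 1)).card : ℝ) * ε ≤ (C * x) * ε :=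
        mul_le_mul_of_nonneg_right h2 hε
    _ = ε * (C * x) := by ring

/-- PROOF. The proof of `limH` (LimH.lean) with `f (nm e.1) * f (nm e.2)` replaced by `f1 (a * Y) (nm e.1) * f2 (a * Y) (nm e.2)`, `Y = J X`, so the index is `(a * J) * X` at the geometric scale `X`.
Replace `GmSmall` by `GmSmallX f2` (used with `a * J` for `a`), `apxO` by `apxO_abs` (the difference of the two sums is at most `∑ ‖..‖` as `‖f1‖, ‖f2‖ ≤ 1`), `limh_tvf` by `PTX f1 f2` for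
`fun y t => WO h J N y t - (∫ s, WO h J N y s) * ps0 t` (`WO_tf`, `limh_tf`, `limh_tf_int`), `csN` by `csN2`, `limh_small` by `limx_small`; `crho`, `cnt` unchanged. -/
theorem limX (f1 f2 : ℝ → ℕ → ℂ) (hf1 : ∀ X n, ‖f1 X n‖ ≤ 1) (hf2 : ∀ X n, ‖f2 X n‖ ≤ 1) (hP : PTX f1 f2)
    (hG : GmSmallX f2) (h : ℝ → ℝ) (h1 h2 : ℝ) (hh : HF h h1 h2) (b : ℝ) (hb : h2 ≤ b) (a : ℝ) (ha : 0 < a) :
    Tendsto (fun Y : ℝ => (∑ e ∈ EN 1 (b * Y), f1 (a * Y) (nm e.1) * f2 (a * Y) (nm e.2) *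
      ((h (mE e / Y) * ps0 (tE e) : ℝ) : ℂ)) / Y) atTop (nhds 0) := by
  classical
  apply limh_tend
  intro ε hε
  obtain ⟨C, hC, hcnt⟩ := cnt 1
  have h20 : (1 : ℝ) ≤ h2 := hh.one
  have h2p : (0 : ℝ) < h2 := by linarith
  set η : ℝ := ε / (6 * C * h2) with hη
  have hη0 : 0 < η := by positivity
  set ε' : ℝ := ε ^ 2 / (324 * h2) with hε'
  have hε'0 : 0 < ε' := by positivity
  obtain ⟨N0, hN0⟩ := hG h h1 h2 hh ε' hε'0
  obtain ⟨N1, hN1⟩ := exists_nat_ge (2916 * h2 ^ 2 / ε ^ 2)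
  set N : ℕ := max N0 (max N1 1) with hN
  have hNN0 : N0 ≤ N := le_max_left _ _
  have hNN1 : N1 ≤ N := (le_max_left _ _).trans (le_max_right _ _)
  have hN1' : 1 ≤ N := (le_max_right _ _).trans (le_max_right _ _)
  have hNr : (1 : ℝ) ≤ N := by exact_mod_cast hN1'
  have hNbig : 81 * h2 ^ 2 * (N + 1) ≤ ε ^ 2 / 18 * N ^ 2 := by
    have h3 : 2916 * h2 ^ 2 / ε ^ 2 ≤ N := hN1.trans (by exact_mod_cast hNN1)
    rw [div_le_iff₀ (by positivity)] at h3
    have h4 : 81 * h2 ^ 2 * ((N : ℝ) + 1) ≤ 162 * h2 ^ 2 * N := by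
      have h40 := mul_nonneg (sq_nonneg h2) (sub_nonneg.2 hNr)
      linarith only [h40]
    have h5 : 162 * h2 ^ 2 * N ≤ ε ^ 2 / 18 * N ^ 2 := by
      have h50 := mul_le_mul_of_nonneg_right h3 (Nat.cast_nonneg N : (0 : ℝ) ≤ N)
      linarith only [h50]
    exact h4.trans h5
  obtain ⟨J0, hJ0⟩ := hN0 N hNN0
  obtain ⟨J1, hJ1, hcr⟩ := crho h h1 h2 hh N hN1' η hη0
  set J : ℕ := max J0 (max J1 N) with hJ
  have hJJ0 : J0 ≤ J := le_max_left _ _
  have hJJ1 : J1 ≤ J := (le_max_left _ _).trans (le_max_right _ _)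
  have hJN : N ≤ J := (le_max_right _ _).trans (le_max_right _ _)
  have hJ1' : 1 ≤ J := hN1'.trans hJN
  have hJr : (1 : ℝ) ≤ J := by exact_mod_cast hJ1'
  have hJNr : (N : ℝ) ≤ J := by exact_mod_cast hJN
  set b1 : ℝ := ((J : ℝ) + N) * h2 with hb1
  have hb1p : 0 < b1 := by positivity
  have hb1J : b1 ≤ 2 * J * h2 := by
    rw [hb1]
    have h30 := mul_le_mul_of_nonneg_right hJNr h2p.le
    linarith only [h30]
  have hb1h : J * h2 ≤ b1 := by
    rw [hb1]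
    have h30 := mul_nonneg (Nat.cast_nonneg N : (0 : ℝ) ≤ N) h2p.le
    linarith only [h30]
  have hb11 : 1 ≤ b1 := (one_le_mul_of_one_le_of_one_le hJr h20).trans hb1h
  have haJ : 0 < a * (J : ℝ) := by positivity
  have ev1 := hJ0 J hJJ0 (a * J) haJ
  have ev2 : ∀ᶠ X : ℝ in atTop, (∑ e ∈ EN 1 (b1 * X), ‖((h (nm e.1 / X) * rho J N (mE e / nm e.1) : ℝ) : ℂ) -
      WO h J N (mE e / X) (tE e)‖) / X ≤ ε / 6 := by
    have h3 := apxO_abs h h1 h2 hh J N hJ1' hN1' b1 hb1p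
    exact (h3.eventually_lt_const (by positivity : (0 : ℝ) < ε / 6)).mono fun X hX => hX.le
  have ev3 := limh_ev (hP b1 _ (limh_tf (WO_tf h h1 h2 hh J N hJ1' hN1' b1 (le_refl _)))
    (limh_tf_int (WO_tf h h1 h2 hh J N hJ1' hN1' b1 (le_refl _))) (a * J) haJ)
    (ε := ε / 6) (by positivity)
  have ev4 : ∀ᶠ X : ℝ in atTop, 1 ≤ X := eventually_ge_atTop 1
  have hall := ((ev1.and ev2).and (ev3.and ev4))
  have htend : Tendsto (fun Y : ℝ => Y / J) atTop atTop :=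
    tendsto_id.atTop_div_const (by linarith)
  filter_upwards [htend.eventually hall] with Y hY
  obtain ⟨⟨hG1, hO⟩, ⟨hV, hX1⟩⟩ := hY
  set X : ℝ := Y / J with hX
  have hX0 : (0 : ℝ) < X := by linarith
  have hYX : Y = J * X := by
    rw [hX]
    field_simp
  have hY0 : (0 : ℝ) < Y := by
    rw [hYX]
    positivity
  have haY : a * J * X = a * Y := by
    rw [hYX]
    ring
  rw [haY] at hG1 hV
  obtain ⟨g1, hg1⟩ : ∃ g1, g1 = f1 (a * Y) := ⟨_, rfl⟩
  obtain ⟨g2, hg2⟩ : ∃ g2, g2 = f2 (a * Y) := ⟨_, rfl⟩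
  rw [← hg1, ← hg2] at hV ⊢
  rw [← hg2] at hG1
  have hgf1 : ∀ n, ‖g1 n‖ ≤ 1 := fun n => by
    rw [hg1]
    exact hf1 _ n
  have hgf2 : ∀ n, ‖g2 n‖ ≤ 1 := fun n => by
    rw [hg2]
    exact hf2 _ n
  -- the sums
  set A : ℂ := ∑ e ∈ EN 1 (b * Y), g1 (nm e.1) * g2 (nm e.2) * ((h (mE e / Y) * ps0 (tE e) : ℝ) : ℂ) with hA
  have hA2 : A = ∑ e ∈ EN 1 (b1 * X), g1 (nm e.1) * g2 (nm e.2) *
      (((h (mE e / X / J) : ℝ) : ℂ) * ((ps0 (tE e) : ℝ) : ℂ)) := by
    rw [hA]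
    have hz : ∀ e : G × G, h2 * Y ≤ mE e → h (mE e / Y) = 0 := by
      intro e he
      apply hh.hi
      rw [le_div_iff₀ hY0]
      exact he
    have hs1 : ∑ e ∈ EN 1 (b * Y), g1 (nm e.1) * g2 (nm e.2) * ((h (mE e / Y) * ps0 (tE e) : ℝ) : ℂ) =
        ∑ e ∈ EN 1 (h2 * Y), g1 (nm e.1) * g2 (nm e.2) * ((h (mE e / Y) * ps0 (tE e) : ℝ) : ℂ) := by
      symm
      apply sum_subset
      · intro e he
        rw [mem_EN one_pos] at he ⊢
        exact ⟨he.1, he.2.trans (mul_le_mul_of_nonneg_right hb hY0.le)⟩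
      · intro e he hne
        rw [mem_EN one_pos] at he hne
        have : h2 * Y ≤ mE e := by
          by_contra hc
          push Not at hc
          exact hne ⟨he.1, hc.le⟩
        rw [hz e this]
        simp
    have hs2 : ∑ e ∈ EN 1 (b1 * X), g1 (nm e.1) * g2 (nm e.2) * ((h (mE e / Y) * ps0 (tE e) : ℝ) : ℂ) =
        ∑ e ∈ EN 1 (h2 * Y), g1 (nm e.1) * g2 (nm e.2) * ((h (mE e / Y) * ps0 (tE e) : ℝ) : ℂ) := by
      symm
      apply sum_subset
      · intro e he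
        rw [mem_EN one_pos] at he ⊢
        refine ⟨he.1, he.2.trans ?_⟩
        rw [hYX]
        have h30 := mul_le_mul_of_nonneg_right hb1h hX0.le
        linarith only [h30]
      · intro e he hne
        rw [mem_EN one_pos] at he hne
        have : h2 * Y ≤ mE e := by
          by_contra hc
          push Not at hc
          exact hne ⟨he.1, hc.le⟩
        rw [hz e this]
        simp
    rw [hs1, ← hs2]
    apply sum_congr rfl
    intro e _
    have h3 : mE e / Y = mE e / X / J := by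
      rw [hYX, div_div]
      ring_nf
    rw [h3]
    push_cast
    ring
  set c : ℝ → ℂ := fun y => ∫ t, WO h J N y t with hc
  set S1 : ℂ := ∑ e ∈ EN 1 (b1 * X), g1 (nm e.1) * g2 (nm e.2) * WO h J N (mE e / X) (tE e) with hS1
  set S2 : ℂ := ∑ e ∈ EN 1 (b1 * X), g1 (nm e.1) * g2 (nm e.2) *
    (c (mE e / X) * ((ps0 (tE e) : ℝ) : ℂ)) with hS2
  have hb1X : 1 ≤ b1 * X := one_le_mul_of_one_le_of_one_le hb11 hX1
  -- S2 and A
  have hd1 : ‖S2 - ((N : ℝ) / J : ℝ) * A‖ ≤ (η * (N / J)) * (C * (b1 * X)) := by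
    have h3 : S2 - ((N : ℝ) / J : ℝ) * A = ∑ e ∈ EN 1 (b1 * X), g1 (nm e.1) * g2 (nm e.2) *
        ((c (mE e / X) - (((N : ℝ) / J * h (mE e / X / J) : ℝ) : ℂ)) * ((ps0 (tE e) : ℝ) : ℂ)) := by
      rw [hA2, hS2, mul_sum, ← sum_sub_distrib]
      apply sum_congr rfl
      intro e _
      push_cast
      ring
    rw [h3]
    apply limx_small g1 g2 hgf1 hgf2 hcnt (b1 * X) hb1X _ (by positivity)
    intro e _
    exact hcr J hJJ1 (mE e / X)
  have hd2 : ‖S1 - S2‖ ≤ ε / 6 * X := by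
    have h3 : S1 - S2 = ∑ e ∈ EN 1 (b1 * X), g1 (nm e.1) * g2 (nm e.2) *
      (WO h J N (mE e / X) (tE e) - (∫ s, WO h J N (mE e / X) s) * ((ps0 (tE e) : ℝ) : ℂ)) := by
      rw [hS1, hS2, ← sum_sub_distrib]
      apply sum_congr rfl
      intro e _
      simp only [hc]
      ring
    unfold Sx2 at hV
    rw [← h3, norm_div, Complex.norm_real, Real.norm_eq_abs, abs_of_pos hX0, div_le_iff₀ hX0] at hV
    exact hV
  have hd3 : ‖SX2 g1 g2 h J N (b1 * X) X - S1‖ ≤ ε / 6 * X := by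
    rw [div_le_iff₀ hX0] at hO
    refine le_trans ?_ hO
    unfold SX2
    rw [hS1, ← sum_sub_distrib]
    apply norm_sum_le_of_le
    intro e _
    rw [← mul_sub, norm_mul, norm_mul]
    have h5 := hgf1 (nm e.1)
    have h6 := hgf2 (nm e.2)
    calc ‖g1 (nm e.1)‖ * ‖g2 (nm e.2)‖ * ‖((h (nm e.1 / X) * rho J N (mE e / nm e.1) : ℝ) : ℂ) -
          WO h J N (mE e / X) (tE e)‖ ≤ 1 * 1 * ‖((h (nm e.1 / X) * rho J N (mE e / nm e.1) : ℝ) : ℂ) -
          WO h J N (mE e / X) (tE e)‖ := by gcongr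
      _ = ‖((h (nm e.1 / X) * rho J N (mE e / nm e.1) : ℝ) : ℂ) -
          WO h J N (mE e / X) (tE e)‖ := by ring
  have hSX : ‖SX2 g1 g2 h J N (b1 * X) X‖ ≤ ε / 3 * N * X := by
    have h3 := csN2 g1 g2 hgf1 hgf2 h hh.nn hh.le h2 hh.hi J N hJ1' hN1' X hX1 h20 (b1 * X)
      ((((J : ℝ) + N) ^ 2 * h2 + 1) * X) (le_refl _) (by linarith only [hX1])
    have h4 : 9 * h2 * X * (9 * h2 * X * (N + 1) +
        2 * ‖∑ n ∈ Icc 1 N, Gm g2 h J N n ((((J : ℝ) + N) ^ 2 * h2 + 1) * X) X‖) ≤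
        (ε / 3 * N * X) ^ 2 := by
      have h5 : 9 * h2 * X * (9 * h2 * X * (N + 1) +
        2 * ‖∑ n ∈ Icc 1 N, Gm g2 h J N n ((((J : ℝ) + N) ^ 2 * h2 + 1) * X) X‖) ≤
        9 * h2 * X * (9 * h2 * X * (N + 1) + 2 * (ε' * N ^ 2 * X)) := by
        apply mul_le_mul_of_nonneg_left _ (by positivity)
        linarith
      refine h5.trans ?_
      have h6 : 9 * h2 * X * (9 * h2 * X * (N + 1) + 2 * (ε' * N ^ 2 * X)) =
          X ^ 2 * (81 * h2 ^ 2 * (N + 1) + 18 * h2 * ε' * N ^ 2) := by ring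
      have h7 : 18 * h2 * ε' = ε ^ 2 / 18 := by
        rw [hε']
        field_simp
        norm_num
      rw [h6, h7]
      have h8 : (ε / 3 * N * X) ^ 2 = X ^ 2 * (ε ^ 2 / 18 * N ^ 2 + ε ^ 2 / 18 * N ^ 2) := by ring
      rw [h8]
      apply mul_le_mul_of_nonneg_left _ (sq_nonneg X)
      linarith
    exact le_of_sq_le_sq (h3.trans h4) (by positivity)
  -- conclusion
  have htot : ‖((N : ℝ) / J : ℝ) * A‖ ≤ (η * (N / J)) * (C * (b1 * X)) + ε / 6 * X + ε / 6 * X +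
      ε / 3 * N * X := by
    have h3 : (((N : ℝ) / J : ℝ) : ℂ) * A = -(S2 - ((N : ℝ) / J : ℝ) * A) - (S1 - S2) -
        (SX2 g1 g2 h J N (b1 * X) X - S1) + SX2 g1 g2 h J N (b1 * X) X := by ring
    calc ‖(((N : ℝ) / J : ℝ) : ℂ) * A‖ = ‖-(S2 - ((N : ℝ) / J : ℝ) * A) - (S1 - S2) -
        (SX2 g1 g2 h J N (b1 * X) X - S1) + SX2 g1 g2 h J N (b1 * X) X‖ := by rw [← h3]
      _ ≤ ‖-(S2 - ((N : ℝ) / J : ℝ) * A) - (S1 - S2) - (SX2 g1 g2 h J N (b1 * X) X - S1)‖ +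
          ‖SX2 g1 g2 h J N (b1 * X) X‖ := norm_add_le _ _
      _ ≤ ‖-(S2 - ((N : ℝ) / J : ℝ) * A) - (S1 - S2)‖ + ‖SX2 g1 g2 h J N (b1 * X) X - S1‖ +
          ‖SX2 g1 g2 h J N (b1 * X) X‖ := by gcongr; exact norm_sub_le _ _
      _ ≤ ‖-(S2 - ((N : ℝ) / J : ℝ) * A)‖ + ‖S1 - S2‖ + ‖SX2 g1 g2 h J N (b1 * X) X - S1‖ +
          ‖SX2 g1 g2 h J N (b1 * X) X‖ := by gcongr; exact norm_sub_le _ _
      _ ≤ _ := by
          rw [norm_neg]
          linarith
  rw [norm_mul, Complex.norm_real, Real.norm_eq_abs, abs_of_nonneg (by positivity)] at htot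
  rw [norm_div, Complex.norm_real, Real.norm_eq_abs, abs_of_pos hY0, div_le_iff₀ hY0]
  have hJ0' : (0 : ℝ) < J := by linarith
  have hN0' : (0 : ℝ) < N := by linarith
  have h3 : ‖A‖ = (J / N) * ((N : ℝ) / J * ‖A‖) := by field_simp
  have h4 : (J / N) * ((N : ℝ) / J * ‖A‖) ≤ (J / N) * ((η * (N / J)) * (C * (b1 * X)) + ε / 6 * X +
      ε / 6 * X + ε / 3 * N * X) := mul_le_mul_of_nonneg_left htot (by positivity)
  have h5 : (J / N : ℝ) * ((η * (N / J)) * (C * (b1 * X)) + ε / 6 * X + ε / 6 * X + ε / 3 * N * X) =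
      η * C * b1 * X + (ε / 3) * (J / N) * X + ε / 3 * (J * X) := by
    field_simp
    ring
  have h6 : η * C * b1 * X ≤ ε / 3 * (J * X) := by
    have h7 : η * C * b1 * X ≤ η * C * (2 * J * h2) * X := by gcongr
    have h8 : η * C * (2 * J * h2) * X = ε / 3 * (J * X) := by
      rw [hη]
      field_simp
      norm_num
    linarith
  have h7 : (ε / 3) * (J / N : ℝ) * X ≤ ε / 3 * (J * X) := by
    have h8 : (J / N : ℝ) ≤ J := div_le_self hJ0'.le hNr
    have h9 : (J / N : ℝ) * X ≤ J * X := mul_le_mul_of_nonneg_right h8 hX0.le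
    have h10 := mul_le_mul_of_nonneg_left h9 (div_nonneg hε.le (by norm_num : (0 : ℝ) ≤ 3))
    linarith only [h10]
  rw [hYX]
  linarith only [h3, h4, h5, h6, h7]

/-- nonnegative continuous functions of the scalar product -/
private theorem limx_real (f1 f2 : ℝ → ℕ → ℂ) (hf1 : ∀ X n, ‖f1 X n‖ ≤ 1) (hf2 : ∀ X n, ‖f2 X n‖ ≤ 1)
    (hP : PTX f1 f2) (hG : GmSmallX f2) (a : ℝ) (ha : 0 < a) (b : ℝ) (c : ℝ → ℝ) (hc : Continuous c) (hnn : ∀ y, 0 ≤ c y) (hlo : ∀ y, y ≤ 0 → c y = 0)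
    (hhi : ∀ y, b ≤ y → c y = 0) :
    Tendsto (fun X : ℝ => (∑ e ∈ EN 1 (b * X), f1 (a * X) (nm e.1) * f2 (a * X) (nm e.2) *
      (((c (mE e / X) : ℝ) : ℂ) * ((ps0 (tE e) : ℝ) : ℂ))) / X) atTop (nhds 0) := by
  classical
  apply limh_tend
  intro ε hε
  obtain ⟨C, hC, hcnt⟩ := cnt 1
  set b' : ℝ := max b 1 with hb'
  have hb1 : 1 ≤ b' := le_max_right _ _
  have hbb : b ≤ b' := le_max_left _ _
  set δ : ℝ := ε / (2 * C * b') with hδ
  have hδ0 : 0 < δ := by positivity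
  have hsupp : HasCompactSupport c := by
    apply HasCompactSupport.intro (isCompact_Icc (a := (0 : ℝ)) (b := b))
    intro y hy
    rw [Set.mem_Icc, not_and_or, not_le, not_le] at hy
    rcases hy with hy | hy
    · exact hlo y hy.le
    · exact hhi y hy.le
  obtain ⟨K0, hK0⟩ := hsupp.exists_bound_of_continuous hc
  set K : ℝ := max K0 1 with hK
  have hK1 : 1 ≤ K := le_max_right _ _
  have hKp : 0 < K := by linarith
  have hKc : ∀ y, c y ≤ K := by
    intro y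
    have h1 := hK0 y
    rw [Real.norm_eq_abs, abs_of_nonneg (hnn y)] at h1
    exact h1.trans (le_max_left _ _)
  obtain ⟨h1, hh1, hsmall⟩ : ∃ h1 : ℝ, 0 < h1 ∧ ∀ y, y ≤ h1 → c y ≤ δ := by
    have h2 := Metric.continuousAt_iff.1 (hc.continuousAt (x := 0)) δ hδ0
    obtain ⟨r, hr, h3⟩ := h2
    refine ⟨r / 2, by positivity, ?_⟩
    intro y hy
    rcases le_or_gt y 0 with h0 | h0
    · rw [hlo y h0]
      exact hδ0.le
    · have h4 := h3 (x := y) (by
        rw [Real.dist_eq, sub_zero, abs_of_pos h0]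
        linarith)
      rw [hlo 0 (le_refl 0), Real.dist_eq, sub_zero, abs_of_nonneg (hnn y)] at h4
      exact h4.le
  set h : ℝ → ℝ := fun y => max 0 (c y - δ) / K with hh
  have hHF : HF h h1 b' := by
    refine ⟨?_, ?_, ?_, hh1, hb1, ?_, ?_⟩
    · exact (continuous_const.max (hc.sub continuous_const)).div_const K
    · intro y
      exact div_nonneg (le_max_left _ _) hKp.le
    · intro y
      show max 0 (c y - δ) / K ≤ 1
      rw [div_le_one hKp]
      apply max_le hKp.le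
      linarith [hKc y]
    · intro y hy
      show max 0 (c y - δ) / K = 0
      rw [max_eq_left (by linarith [hsmall y hy]), zero_div]
    · intro y hy
      show max 0 (c y - δ) / K = 0
      rw [hhi y (hbb.trans hy), max_eq_left (by linarith), zero_div]
  have hlim := limh_ev (limX f1 f2 hf1 hf2 hP hG h h1 b' hHF b' (le_refl _) a ha) (ε := ε / (2 * K)) (by positivity)
  filter_upwards [hlim, eventually_ge_atTop (1 : ℝ)] with X hX1 hX
  have hX0 : (0 : ℝ) < X := by linarith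
  obtain ⟨g1, hg1⟩ : ∃ g1, g1 = f1 (a * X) := ⟨_, rfl⟩
  obtain ⟨g2, hg2⟩ : ∃ g2, g2 = f2 (a * X) := ⟨_, rfl⟩
  rw [← hg1, ← hg2] at hX1 ⊢
  have hgf1 : ∀ n, ‖g1 n‖ ≤ 1 := fun n => by
    rw [hg1]
    exact hf1 _ n
  have hgf2 : ∀ n, ‖g2 n‖ ≤ 1 := fun n => by
    rw [hg2]
    exact hf2 _ n
  have hs : ∑ e ∈ EN 1 (b * X), g1 (nm e.1) * g2 (nm e.2) *
      (((c (mE e / X) : ℝ) : ℂ) * ((ps0 (tE e) : ℝ) : ℂ)) =
      ∑ e ∈ EN 1 (b' * X), g1 (nm e.1) * g2 (nm e.2) *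
      (((c (mE e / X) : ℝ) : ℂ) * ((ps0 (tE e) : ℝ) : ℂ)) := by
    apply sum_subset
    · intro e he
      rw [mem_EN one_pos] at he ⊢
      exact ⟨he.1, he.2.trans (mul_le_mul_of_nonneg_right hbb hX0.le)⟩
    · intro e he hne
      rw [mem_EN one_pos] at he hne
      have h2 : b * X ≤ mE e := by
        by_contra hcon
        push Not at hcon
        exact hne ⟨he.1, hcon.le⟩
      rw [hhi (mE e / X) (by rw [le_div_iff₀ hX0]; exact h2)]
      simp
  have hd : ∑ e ∈ EN 1 (b' * X), g1 (nm e.1) * g2 (nm e.2) *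
      (((c (mE e / X) : ℝ) : ℂ) * ((ps0 (tE e) : ℝ) : ℂ)) =
      K * ∑ e ∈ EN 1 (b' * X), g1 (nm e.1) * g2 (nm e.2) * ((h (mE e / X) * ps0 (tE e) : ℝ) : ℂ) +
      ∑ e ∈ EN 1 (b' * X), g1 (nm e.1) * g2 (nm e.2) *
      (((c (mE e / X) - K * h (mE e / X) : ℝ) : ℂ) * ((ps0 (tE e) : ℝ) : ℂ)) := by
    rw [mul_sum, ← sum_add_distrib]
    apply sum_congr rfl
    intro e _
    push_cast
    ring
  have hsm := limx_small g1 g2 hgf1 hgf2 hcnt (b' * X) (one_le_mul_of_one_le_of_one_le hb1 hX) δ hδ0.le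
    (fun e => ((c (mE e / X) - K * h (mE e / X) : ℝ) : ℂ)) (by
      intro e _
      rw [Complex.norm_real, Real.norm_eq_abs]
      have h2 : K * h (mE e / X) = max 0 (c (mE e / X) - δ) := by
        simp only [hh]
        field_simp
      rw [h2]
      rcases le_total (c (mE e / X) - δ) 0 with h3 | h3
      · rw [max_eq_left h3, sub_zero, abs_of_nonneg (hnn _)]
        linarith
      · rw [max_eq_right h3, sub_sub_cancel, abs_of_pos hδ0])
  rw [norm_div, Complex.norm_real, Real.norm_eq_abs, abs_of_pos hX0, div_le_iff₀ hX0] at hX1 ⊢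
  rw [hs, hd]
  refine (norm_add_le _ _).trans ?_
  rw [norm_mul, Complex.norm_real, Real.norm_eq_abs, abs_of_pos hKp]
  have h2 : K * ‖∑ e ∈ EN 1 (b' * X), g1 (nm e.1) * g2 (nm e.2) *
      ((h (mE e / X) * ps0 (tE e) : ℝ) : ℂ)‖ ≤ K * (ε / (2 * K) * X) :=
    mul_le_mul_of_nonneg_left hX1 hKp.le
  have h3 : K * (ε / (2 * K) * X) = ε / 2 * X := by
    field_simp
  have h4 : δ * (C * (b' * X)) = ε / 2 * X := by
    rw [hδ]
    field_simp
  linarith

/-- PROOF. As `limh_real` and `sm` (LimH.lean), with `limX` for `limH` and `PTX` for `limh_tvf`. -/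
theorem smX (f1 f2 : ℝ → ℕ → ℂ) (hf1 : ∀ X n, ‖f1 X n‖ ≤ 1) (hf2 : ∀ X n, ‖f2 X n‖ ≤ 1) (hP : PTX f1 f2)
    (hG : GmSmallX f2) (b : ℝ) (W : ℝ → ℝ → ℂ) (hW : TF b W) (a : ℝ) (ha : 0 < a) :
    Tendsto (fun X : ℝ => Sx2 (f1 (a * X)) (f2 (a * X)) (b * X) W X / X) atTop (nhds 0) := by
  set c : ℝ → ℂ := fun y => ∫ t, W y t with hc
  have hcc : Continuous c := limh_c_cont hW
  have hclo : ∀ y, y ≤ 0 → c y = 0 := fun y hy => limh_c_lo hW hy
  have hchi : ∀ y, b ≤ y → c y = 0 := fun y hy => limh_c_hi hW hy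
  have hre : Continuous (fun y => (c y).re) := Complex.continuous_re.comp hcc
  have him : Continuous (fun y => (c y).im) := Complex.continuous_im.comp hcc
  have t0 := hP b _ (limh_tf hW) (limh_tf_int hW) a ha
  have t1 := limx_real f1 f2 hf1 hf2 hP hG a ha b (fun y => max 0 (c y).re) (continuous_const.max hre)
    (fun y => le_max_left _ _) (fun y hy => by simp [hclo y hy]) (fun y hy => by simp [hchi y hy])
  have t2 := limx_real f1 f2 hf1 hf2 hP hG a ha b (fun y => max 0 (-(c y).re)) (continuous_const.max hre.neg)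
    (fun y => le_max_left _ _) (fun y hy => by simp [hclo y hy]) (fun y hy => by simp [hchi y hy])
  have t3 := limx_real f1 f2 hf1 hf2 hP hG a ha b (fun y => max 0 (c y).im) (continuous_const.max him)
    (fun y => le_max_left _ _) (fun y hy => by simp [hclo y hy]) (fun y hy => by simp [hchi y hy])
  have t4 := limx_real f1 f2 hf1 hf2 hP hG a ha b (fun y => max 0 (-(c y).im)) (continuous_const.max him.neg)
    (fun y => le_max_left _ _) (fun y hy => by simp [hclo y hy]) (fun y hy => by simp [hchi y hy])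
  have ht := (t0.add (t1.sub t2)).add ((t3.sub t4).const_mul Complex.I)
  rw [sub_zero, mul_zero, add_zero, add_zero] at ht
  refine ht.congr (fun X => ?_)
  unfold Sx2
  rw [← sub_div, ← sub_div, ← mul_div_assoc, ← add_div, ← add_div]
  congr 1
  rw [← sum_sub_distrib, ← sum_sub_distrib, mul_sum, ← sum_add_distrib, ← sum_add_distrib]
  apply sum_congr rfl
  intro e _
  have hpm : ∀ r : ℝ, max 0 r - max 0 (-r) = r := by
    intro r
    rcases le_total 0 r with h | h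
    · rw [max_eq_right h, max_eq_left (by linarith)]
      ring
    · rw [max_eq_left h, max_eq_right (by linarith)]
      ring
  have h1 : ((max 0 (c (mE e / X)).re : ℝ) : ℂ) - ((max 0 (-(c (mE e / X)).re) : ℝ) : ℂ) +
      Complex.I * (((max 0 (c (mE e / X)).im : ℝ) : ℂ) - ((max 0 (-(c (mE e / X)).im) : ℝ) : ℂ)) =
      c (mE e / X) := by
    rw [← Complex.ofReal_sub, ← Complex.ofReal_sub, hpm, hpm, mul_comm Complex.I]
    exact Complex.re_add_im _
  have h2 : (∫ s, W (mE e / X) s) = c (mE e / X) := rfl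
  beta_reduce
  rw [h2]
  linear_combination (f1 (a * X) (nm e.1) * f2 (a * X) (nm e.2) * ((ps0 (tE e) : ℝ) : ℂ)) * h1

end Pool.Agent.LPr

end
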