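import Mathlib
import Pool.Agent.Lib_MP_f1a94e_m.G03
import Pool.Agent.Lib_MP_f1a94e_m.G04
import Pool.Agent.Lib_MP_f1a94e_m.G14
import Pool.Agent.Lib_MP_f1a94e_m.G19
import Pool.Agent.Lib_MP_f1a94e_m.G20
import Pool.Agent.Lib_MP_f1a94e_m.G21
import Pool.Agent.Lib_MP_f1a94e_m.G23
import Pool.Agent.Lib_MP_f1a94e_m.G24

/-!
# MP_f1a94e_nt: merged library part G28

Concatenation of files of the libraries `Lib_MP_f1a94e_*` (each in its own section), only to save build time.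
-/

/-! ### from `Lib_MP_f1a94e_eq.FinE` -/

section

/-!
# Piece FINE: joint equidistribution over edges
-/

set_option autoImplicit false

namespace Pool.Agent.OmEq

open Finset Pool.Agent.GaussMR Pool.Agent.OmAll MeasureTheory Filter

theorem fine_nm_ne {X : ℝ} {e : G × G} (he : e ∈ EN 1 X) : nm e.1 ≠ 0 ∧ nm e.2 ≠ 0 := by
  rw [mem_EN one_pos] at he
  have h1 := he.1.1
  have h2 := dot_sq_add_det_sq e.1 e.2
  rw [h1] at h2
  constructor
  · intro h
    rw [h] at h2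
    push_cast at h2
    nlinarith [sq_nonneg (dot e.1 e.2)]
  · intro h
    rw [h] at h2
    push_cast at h2
    nlinarith [sq_nonneg (dot e.1 e.2)]

/-- the sum of the characters over the edges -/
noncomputable def fineS (q R : ℕ) (s t : ℝ) (i j : ℕ) (X : ℝ) : ℂ :=
  ∑ e ∈ (EN 1 X).filter (fun e => s ≤ tE e ∧ tE e ≤ t),
    fz R (zq q ^ i) (nm e.1) * fz R (zq q ^ j) (nm e.2)

theorem fine_count (q : ℕ) (hq : 0 < q) (R : ℕ) (s t : ℝ) (a b : ℕ) (X : ℝ) :
    ((((EN 1 X).filter (fun e => ((s ≤ tE e ∧ tE e ≤ t) ∧ (nm e.1 * nm e.2).Coprime R) ∧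
        ArithmeticFunction.cardFactors (nm e.1) ≡ a [MOD q] ∧
        ArithmeticFunction.cardFactors (nm e.2) ≡ b [MOD q])).card : ℕ) : ℂ) =
      ∑ i ∈ range q, ∑ j ∈ range q,
        ((zq q ^ (i * a))⁻¹ * (zq q ^ (j * b))⁻¹ / (q : ℂ) ^ 2) * fineS q R s t i j X := by
  classical
  have hq0 : (q : ℂ) ≠ 0 := by exact_mod_cast hq.ne'
  have h1 : ∑ i ∈ range q, ∑ j ∈ range q,
      ((zq q ^ (i * a))⁻¹ * (zq q ^ (j * b))⁻¹ / (q : ℂ) ^ 2) * fineS q R s t i j X =
      ∑ e ∈ (EN 1 X).filter (fun e => s ≤ tE e ∧ tE e ≤ t), ∑ i ∈ range q, ∑ j ∈ range q,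
        ((zq q ^ (i * a))⁻¹ * (zq q ^ (j * b))⁻¹ / (q : ℂ) ^ 2) *
          (fz R (zq q ^ i) (nm e.1) * fz R (zq q ^ j) (nm e.2)) := by
    symm
    rw [sum_comm]
    apply sum_congr rfl
    intro i _
    rw [sum_comm]
    apply sum_congr rfl
    intro j _
    unfold fineS
    rw [mul_sum]
  rw [h1, card_filter, Nat.cast_sum, sum_filter]
  apply sum_congr rfl
  intro e he
  obtain ⟨hn1, hn2⟩ := fine_nm_ne he
  by_cases hA : s ≤ tE e ∧ tE e ≤ t
  swap
  · rw [if_neg (fun h => hA h.1.1), if_neg hA, Nat.cast_zero]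
  rw [if_pos hA]
  by_cases hC : (nm e.1 * nm e.2).Coprime R
  · have hC1 : (nm e.1).Coprime R := Nat.Coprime.coprime_mul_right hC
    have hC2 : (nm e.2).Coprime R := Nat.Coprime.coprime_mul_left hC
    have h2 : ∑ i ∈ range q, ∑ j ∈ range q,
        ((zq q ^ (i * a))⁻¹ * (zq q ^ (j * b))⁻¹ / (q : ℂ) ^ 2) *
          (fz R (zq q ^ i) (nm e.1) * fz R (zq q ^ j) (nm e.2)) =
        (∑ i ∈ range q, (zq q ^ (i * a))⁻¹ * (zq q ^ i) ^ ArithmeticFunction.cardFactors (nm e.1)) *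
        (∑ j ∈ range q, (zq q ^ (j * b))⁻¹ * (zq q ^ j) ^ ArithmeticFunction.cardFactors (nm e.2)) /
          (q : ℂ) ^ 2 := by
      rw [sum_mul_sum, sum_div]
      apply sum_congr rfl
      intro i _
      rw [sum_div]
      apply sum_congr rfl
      intro j _
      unfold fz
      rw [if_neg (by tauto), if_neg (by tauto)]
      ring
    rw [h2, fine_orth hq, fine_orth hq]
    by_cases h3 : ArithmeticFunction.cardFactors (nm e.1) ≡ a [MOD q]
    · by_cases h4 : ArithmeticFunction.cardFactors (nm e.2) ≡ b [MOD q]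
      · rw [if_pos ⟨⟨hA, hC⟩, h3, h4⟩, if_pos h3, if_pos h4, Nat.cast_one]
        field_simp
      · rw [if_neg (fun h => h4 h.2.2), if_neg h4, mul_zero, zero_div, Nat.cast_zero]
    · rw [if_neg (fun h => h3 h.2.1), if_neg h3, zero_mul, zero_div, Nat.cast_zero]
  · rw [if_neg (fun h => hC h.1.2), Nat.cast_zero]
    symm
    apply sum_eq_zero
    intro i _
    apply sum_eq_zero
    intro j _
    have h2 : ¬ (nm e.1).Coprime R ∨ ¬ (nm e.2).Coprime R := by
      by_contra h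
      push Not at h
      exact hC (Nat.Coprime.mul_left h.1 h.2)
    unfold fz
    rcases h2 with h2 | h2
    · rw [if_pos (Or.inr h2)]
      ring
    · rw [if_pos (c := nm e.2 = 0 ∨ ¬ (nm e.2).Coprime R) (Or.inr h2)]
      ring

/-- the sums with different or equal characters. PROOF. `i ≠ j` (`i, j < q`): `zq q ^ i ≠ zq q ^ j` (`Complex.isPrimitiveRoot_exp`), so `joint_ne`; `i = j ≠ 0`: `sm` with `H`. -/
theorem char_lim (q : ℕ) (hq : 0 < q) (R : ℕ) (hR : 0 < R) (i j : ℕ) (hi : i < q) (hj : j < q)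
    (hij : ¬ (i = 0 ∧ j = 0)) (H : i = j → GmSmall (fz R (zq q ^ j))) (b : ℝ) (W : ℝ → ℝ → ℂ) (hW : TF b W) :
    Tendsto (fun X : ℝ => (∑ e ∈ EN 1 (b * X), fz R (zq q ^ i) (nm e.1) * fz R (zq q ^ j) (nm e.2) *
      W (mE e / X) (tE e)) / X) atTop (nhds 0) := by
  have hFi := fz_FF R hR (zq q ^ i) (fine_norm q hq i)
  have hFj := fz_FF R hR (zq q ^ j) (fine_norm q hq j)
  by_cases h : i = j
  · subst h
    exact sm (fz R (zq q ^ i)) hFi.mul hFi.bd (H rfl) b W hW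
  · refine joint_ne R.primeFactors _ _ (zq q ^ i) (zq q ^ j) hFi hFj (fine_norm q hq i)
      (fine_norm q hq j) ?_ b W hW
    intro h1
    rw [fine_pow_eq hq] at h1
    apply h
    unfold Nat.ModEq at h1
    rwa [Nat.mod_eq_of_lt hi, Nat.mod_eq_of_lt hj] at h1

/-- the sharp sums with characters are small -/
theorem fine_lim (q : ℕ) (hq : 0 < q) (R : ℕ) (hR : 0 < R) (i j : ℕ) (hi : i < q) (hj : j < q)
    (hij : ¬ (i = 0 ∧ j = 0)) (H : i = j → GmSmall (fz R (zq q ^ j))) (s t : ℝ) (hst : s ≤ t) :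
    Tendsto (fun X : ℝ => fineS q R s t i j X / X) atTop (nhds 0) := by
  have hFi := fz_FF R hR (zq q ^ i) (fine_norm q hq i)
  have hFj := fz_FF R hR (zq q ^ j) (fine_norm q hq j)
  refine sharp (fun e => fz R (zq q ^ i) (nm e.1) * fz R (zq q ^ j) (nm e.2)) ?_ ?_ s t hst
  · intro e
    rw [norm_mul]
    calc ‖fz R (zq q ^ i) (nm e.1)‖ * ‖fz R (zq q ^ j) (nm e.2)‖ ≤ 1 * 1 := by
          apply mul_le_mul (hFi.bd _) (hFj.bd _) (norm_nonneg _) zero_le_one
      _ = 1 := one_mul 1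
  · intro b W hW
    exact char_lim q hq R hR i j hi hj hij H b W hW

/-- the sum with trivial characters is the number of edges -/
theorem fine_zero (q : ℕ) (R : ℕ) (s t : ℝ) (X : ℝ) :
    fineS q R s t 0 0 X = ((((EN 1 X).filter (fun e => (s ≤ tE e ∧ tE e ≤ t) ∧
      (nm e.1 * nm e.2).Coprime R)).card : ℕ) : ℂ) := by
  classical
  unfold fineS
  rw [card_filter, Nat.cast_sum, sum_filter]
  apply sum_congr rfl
  intro e he
  obtain ⟨hn1, hn2⟩ := fine_nm_ne he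
  by_cases hA : s ≤ tE e ∧ tE e ≤ t
  swap
  · rw [if_neg hA, if_neg (fun h => hA h.1), Nat.cast_zero]
  rw [if_pos hA]
  unfold fz
  by_cases hC : (nm e.1 * nm e.2).Coprime R
  · have hC1 : (nm e.1).Coprime R := Nat.Coprime.coprime_mul_right hC
    have hC2 : (nm e.2).Coprime R := Nat.Coprime.coprime_mul_left hC
    rw [if_neg (by tauto), if_neg (by tauto), if_pos ⟨hA, hC⟩]
    simp
  · have h2 : ¬ (nm e.1).Coprime R ∨ ¬ (nm e.2).Coprime R := by
      by_contra h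
      push Not at h
      exact hC (Nat.Coprime.mul_left h.1 h.2)
    have h3 : ¬ ((s ≤ tE e ∧ tE e ≤ t) ∧ (nm e.1 * nm e.2).Coprime R) := fun h => hC h.2
    rcases h2 with h2 | h2
    · rw [if_pos (Or.inr h2), zero_mul, if_neg h3, Nat.cast_zero]
    · rw [if_pos (c := nm e.2 = 0 ∨ ¬ (nm e.2).Coprime R) (Or.inr h2), mul_zero, if_neg h3,
        Nat.cast_zero]

/-- PROOF. `κ` from `totR R`. Orthogonality: for `n1, n2` coprime to `R` (and nonzero), the indicator of `Ω(n1) ≡ a, Ω(n2) ≡ b mod q` is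
`(1/q^2) ∑_(i, j < q) z^(- i a - j b) fz R (z^i) n1 * fz R (z^j) n2`, `z = zq q` (geometric sums, `IsPrimitiveRoot.geom_sum_eq_zero`), and both sides vanish if `n1 n2` is not coprime to `R`
(`Nat.coprime_mul_iff_left`; norms of the edges of `EN 1` are not zero). Sum over the edges with `s ≤ tE ≤ t`: the term `i = j = 0` is `(1/q^2)` times the count of `totR`; the others are `o(X)` by `sharp` (`Φ e = fz .. * fz ..`,
`‖Φ‖ ≤ 1` by `fz_FF.bd`) and `char_lim`. Real parts. -/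
theorem fin_edges (q : ℕ) (hq : 0 < q) (R : ℕ) (hR : 0 < R) (H : ∀ j : ℕ, 1 ≤ j → j < q → GmSmall (fz R (zq q ^ j))) :
    ∃ κ : ℝ, 0 < κ ∧ ∀ s t : ℝ, s ≤ t → Tendsto (fun X : ℝ =>
      (((EN 1 X).filter (fun e => (s ≤ tE e ∧ tE e ≤ t) ∧ (nm e.1 * nm e.2).Coprime R)).card : ℝ) / X) atTop
        (nhds (κ * (t - s))) ∧
      ∀ a b : ℕ, Tendsto (fun X : ℝ => (((EN 1 X).filter (fun e => ((s ≤ tE e ∧ tE e ≤ t) ∧ (nm e.1 * nm e.2).Coprime R) ∧
        ArithmeticFunction.cardFactors (nm e.1) ≡ a [MOD q] ∧ ArithmeticFunction.cardFactors (nm e.2) ≡ b [MOD q])).card : ℝ) / X)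
          atTop (nhds (κ * (t - s) / q ^ 2)) := by
  obtain ⟨κ, hκ, hlim⟩ := totR R hR
  refine ⟨κ, hκ, fun s t hst => ⟨hlim s t hst, fun a b => ?_⟩⟩
  have hS : ∀ i ∈ range q, ∀ j ∈ range q, Tendsto (fun X : ℝ => fineS q R s t i j X / X) atTop
      (nhds (if i = 0 ∧ j = 0 then ((κ * (t - s) : ℝ) : ℂ) else 0)) := by
    intro i hi j hj
    rw [mem_range] at hi hj
    by_cases h : i = 0 ∧ j = 0
    · rw [if_pos h, h.1, h.2]
      have h1 := (Complex.continuous_ofReal.tendsto (κ * (t - s))).comp (hlim s t hst)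
      refine h1.congr (fun X => ?_)
      rw [fine_zero, Function.comp_apply]
      push_cast
      rfl
    · rw [if_neg h]
      refine fine_lim q hq R hR i j hi hj h (fun hij => ?_) s t hst
      apply H j _ hj
      rcases Nat.eq_zero_or_pos j with h0 | h0
      · exfalso
        apply h
        rw [hij, h0]
        exact ⟨rfl, rfl⟩
      · exact h0
  have hC : Tendsto (fun X : ℝ => ∑ i ∈ range q, ∑ j ∈ range q,
      ((zq q ^ (i * a))⁻¹ * (zq q ^ (j * b))⁻¹ / (q : ℂ) ^ 2) * (fineS q R s t i j X / X)) atTop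
      (nhds (∑ i ∈ range q, ∑ j ∈ range q, ((zq q ^ (i * a))⁻¹ * (zq q ^ (j * b))⁻¹ / (q : ℂ) ^ 2) *
        (if i = 0 ∧ j = 0 then ((κ * (t - s) : ℝ) : ℂ) else 0))) := by
    apply tendsto_finsetSum
    intro i hi
    apply tendsto_finsetSum
    intro j hj
    exact (hS i hi j hj).const_mul _
  have hval : ∑ i ∈ range q, ∑ j ∈ range q, ((zq q ^ (i * a))⁻¹ * (zq q ^ (j * b))⁻¹ / (q : ℂ) ^ 2) *
        (if i = 0 ∧ j = 0 then ((κ * (t - s) : ℝ) : ℂ) else 0) =
        ((κ * (t - s) / q ^ 2 : ℝ) : ℂ) := by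
    rw [sum_eq_single 0, sum_eq_single 0]
    · rw [if_pos ⟨rfl, rfl⟩]
      push_cast
      simp
      ring
    · intro j _ hj
      rw [if_neg (fun h => hj h.2), mul_zero]
    · intro h
      exact absurd (mem_range.2 hq) h
    · intro i _ hi
      apply sum_eq_zero
      intro j _
      rw [if_neg (fun h => hi h.1), mul_zero]
    · intro h
      exact absurd (mem_range.2 hq) h
  rw [hval] at hC
  have hre := (Complex.continuous_re.tendsto _).comp hC
  rw [Complex.ofReal_re] at hre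
  refine hre.congr (fun X => ?_)
  rw [Function.comp_apply]
  have h1 : ∑ i ∈ range q, ∑ j ∈ range q,
      ((zq q ^ (i * a))⁻¹ * (zq q ^ (j * b))⁻¹ / (q : ℂ) ^ 2) * (fineS q R s t i j X / X) =
      ((((((EN 1 X).filter (fun e => ((s ≤ tE e ∧ tE e ≤ t) ∧ (nm e.1 * nm e.2).Coprime R) ∧
        ArithmeticFunction.cardFactors (nm e.1) ≡ a [MOD q] ∧
        ArithmeticFunction.cardFactors (nm e.2) ≡ b [MOD q])).card : ℝ) / X) : ℝ) : ℂ) := by
    push_cast
    rw [fine_count q hq R s t a b X, sum_div]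
    apply sum_congr rfl
    intro i _
    rw [sum_div]
    apply sum_congr rfl
    intro j _
    ring
  rw [h1, Complex.ofReal_re]

/-- PROOF. As `fin_edges`, for all `q`: `q` odd or even; only the term `i = j = q/2` (if `q` is even) is not controlled, and its coefficient `z^(- (q/2) (a + b)) = (-1)^(a+b)` is the same for `(a, b)` and `(a', b')`
if `a + b ≡ a' + b' mod 2`. For `1 ≤ j < q` with `2 j ≠ q`: `(z^j)^2 ≠ 1`, hypothesis `H`. -/
theorem fin_diff (q : ℕ) (hq : 0 < q) (R : ℕ) (hR : 0 < R)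
    (H : ∀ j : ℕ, 1 ≤ j → j < q → 2 * j ≠ q → GmSmall (fz R (zq q ^ j))) (s t : ℝ) (hst : s ≤ t) (a b a' b' : ℕ)
    (hab : (a + b) % 2 = (a' + b') % 2) :
    Tendsto (fun X : ℝ => ((((EN 1 X).filter (fun e => ((s ≤ tE e ∧ tE e ≤ t) ∧ (nm e.1 * nm e.2).Coprime R) ∧
        ArithmeticFunction.cardFactors (nm e.1) ≡ a [MOD q] ∧ ArithmeticFunction.cardFactors (nm e.2) ≡ b [MOD q])).card : ℝ) -
      (((EN 1 X).filter (fun e => ((s ≤ tE e ∧ tE e ≤ t) ∧ (nm e.1 * nm e.2).Coprime R) ∧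
        ArithmeticFunction.cardFactors (nm e.1) ≡ a' [MOD q] ∧ ArithmeticFunction.cardFactors (nm e.2) ≡ b' [MOD q])).card : ℝ)) / X)
          atTop (nhds 0) := by
  have h0 := fine_ne hq
  have hterm : ∀ i ∈ range q, ∀ j ∈ range q, Tendsto (fun X : ℝ =>
      (((zq q ^ (i * a))⁻¹ * (zq q ^ (j * b))⁻¹ / (q : ℂ) ^ 2) -
        ((zq q ^ (i * a'))⁻¹ * (zq q ^ (j * b'))⁻¹ / (q : ℂ) ^ 2)) * (fineS q R s t i j X / X)) atTop
      (nhds 0) := by
    intro i hi j hj
    rw [mem_range] at hi hj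
    by_cases h : i = 0 ∧ j = 0
    · rw [h.1, h.2]
      simp
    · by_cases h2 : i = j ∧ 2 * j = q
      · have h3 : ((zq q ^ (i * a))⁻¹ * (zq q ^ (j * b))⁻¹ / (q : ℂ) ^ 2) -
            ((zq q ^ (i * a'))⁻¹ * (zq q ^ (j * b'))⁻¹ / (q : ℂ) ^ 2) = 0 := by
          have h4 : zq q ^ (i * a) * zq q ^ (j * b) = zq q ^ (i * a') * zq q ^ (j * b') := by
            rw [h2.1, ← pow_add, ← pow_add, ← mul_add, ← mul_add, fine_pow_eq hq, ← h2.2, mul_comm 2 j]
            exact Nat.ModEq.mul_left' j hab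
          rw [← mul_inv, ← mul_inv, h4, sub_self]
        rw [h3]
        simp
      · have h3 : Tendsto (fun X : ℝ => fineS q R s t i j X / X) atTop (nhds 0) := by
          refine fine_lim q hq R hR i j hi hj h (fun hij => ?_) s t hst
          apply H j _ hj
          · intro h4
            exact h2 ⟨hij, h4⟩
          · rcases Nat.eq_zero_or_pos j with h0 | h0
            · exfalso
              apply h
              rw [hij, h0]
              exact ⟨rfl, rfl⟩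
            · exact h0
        have h4 := h3.const_mul (((zq q ^ (i * a))⁻¹ * (zq q ^ (j * b))⁻¹ / (q : ℂ) ^ 2) -
            ((zq q ^ (i * a'))⁻¹ * (zq q ^ (j * b'))⁻¹ / (q : ℂ) ^ 2))
        rwa [mul_zero] at h4
  have hC : Tendsto (fun X : ℝ => ∑ i ∈ range q, ∑ j ∈ range q,
      (((zq q ^ (i * a))⁻¹ * (zq q ^ (j * b))⁻¹ / (q : ℂ) ^ 2) -
        ((zq q ^ (i * a'))⁻¹ * (zq q ^ (j * b'))⁻¹ / (q : ℂ) ^ 2)) * (fineS q R s t i j X / X)) atTop
      (nhds (∑ i ∈ range q, ∑ j ∈ range q, (0 : ℂ))) := by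
    apply tendsto_finsetSum
    intro i hi
    apply tendsto_finsetSum
    intro j hj
    exact hterm i hi j hj
  rw [sum_eq_zero (fun i _ => sum_const_zero)] at hC
  have hre := (Complex.continuous_re.tendsto _).comp hC
  rw [Complex.zero_re] at hre
  refine hre.congr (fun X => ?_)
  rw [Function.comp_apply]
  have h1 : ∑ i ∈ range q, ∑ j ∈ range q,
      (((zq q ^ (i * a))⁻¹ * (zq q ^ (j * b))⁻¹ / (q : ℂ) ^ 2) -
        ((zq q ^ (i * a'))⁻¹ * (zq q ^ (j * b'))⁻¹ / (q : ℂ) ^ 2)) * (fineS q R s t i j X / X) =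
      ((((((EN 1 X).filter (fun e => ((s ≤ tE e ∧ tE e ≤ t) ∧ (nm e.1 * nm e.2).Coprime R) ∧
        ArithmeticFunction.cardFactors (nm e.1) ≡ a [MOD q] ∧
        ArithmeticFunction.cardFactors (nm e.2) ≡ b [MOD q])).card : ℝ) -
        (((EN 1 X).filter (fun e => ((s ≤ tE e ∧ tE e ≤ t) ∧ (nm e.1 * nm e.2).Coprime R) ∧
        ArithmeticFunction.cardFactors (nm e.1) ≡ a' [MOD q] ∧
        ArithmeticFunction.cardFactors (nm e.2) ≡ b' [MOD q])).card : ℝ)) / X : ℝ) : ℂ) := by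
    push_cast
    rw [fine_count q hq R s t a b X, fine_count q hq R s t a' b' X, ← sum_sub_distrib, sum_div]
    apply sum_congr rfl
    intro i _
    rw [← sum_sub_distrib, sum_div]
    apply sum_congr rfl
    intro j _
    ring
  rw [h1, Complex.ofReal_re]

end Pool.Agent.OmEq

end

/-! ### from `Lib_MP_f1a94e_lp.DSumX` -/

section

/-!
# Piece DSUMX: the factor `n / φ(n)`, for families
-/

set_option autoImplicit false

namespace Pool.Agent.LPr

open Finset Pool.Agent.GaussMR Pool.Agent.OmAll Pool.Agent.OmEq MeasureTheory Filter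

theorem dsumX_Qs (h : ℝ → ℝ) (h1 h2 : ℝ) (hh : HF h h1 h2) :
    ∃ C : ℝ, 0 < C ∧ ∀ f : ℕ → ℂ, (∀ n, ‖f n‖ ≤ 1) → ∀ n : ℕ, 0 < n → ∀ Y : ℝ, (n : ℝ) ≤ h2 * Y →
      ‖Qs f n (h2 * Y) (fun y t => ((h y ^ 2 * ps0 t : ℝ) : ℂ)) Y‖ ≤ C * (h2 * Y) := by
  classical
  obtain ⟨C, hC, hcnt⟩ := cnt 1
  refine ⟨C, hC, fun f hf n hn Y hY => ?_⟩
  refine le_trans ?_ (hcnt n hn (h2 * Y) hY)
  unfold Qs
  have hterm : ∀ e : G × G, ‖f (nm e.1) * (starRingEnd ℂ) (f (nm e.2)) *
      ((h (mE e / Y) ^ 2 * ps0 (tE e) : ℝ) : ℂ)‖ ≤ if |tE e| ≤ 1 then 1 else 0 := by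
    intro e
    rw [norm_mul, norm_mul, RCLike.norm_conj, Complex.norm_real, Real.norm_eq_abs]
    have a1 := hf (nm e.1)
    have a2 := hf (nm e.2)
    have a3 := hh.nn (mE e / Y)
    have a4 := hh.le (mE e / Y)
    have a5 : ‖f (nm e.1)‖ * ‖f (nm e.2)‖ ≤ 1 := mul_le_one₀ a1 (norm_nonneg _) a2
    by_cases ht : |tE e| ≤ 1
    · rw [if_pos ht]
      have a6 : 0 ≤ ps0 (tE e) := le_max_left _ _
      have a7 : ps0 (tE e) ≤ 1 := max_le zero_le_one (by linarith [abs_nonneg (tE e)])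
      have a8 : h (mE e / Y) ^ 2 ≤ 1 := pow_le_one₀ a3 a4
      have a9 : h (mE e / Y) ^ 2 * ps0 (tE e) ≤ 1 := mul_le_one₀ a8 a6 a7
      rw [abs_of_nonneg (by positivity)]
      exact mul_le_one₀ a5 (by positivity) a9
    · rw [if_neg ht]
      have a6 : ps0 (tE e) = 0 := by
        unfold ps0
        rw [max_eq_left]
        push Not at ht
        linarith
      rw [a6, mul_zero, abs_zero, mul_zero]
  calc ‖∑ e ∈ (EN n (h2 * Y)).filter (hc n), f (nm e.1) * (starRingEnd ℂ) (f (nm e.2)) *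
        ((h (mE e / Y) ^ 2 * ps0 (tE e) : ℝ) : ℂ)‖
      ≤ ∑ e ∈ (EN n (h2 * Y)).filter (hc n), (if |tE e| ≤ 1 then (1 : ℝ) else 0) :=
        norm_sum_le_of_le _ (fun e _ => hterm e)
    _ ≤ ∑ e ∈ EN n (h2 * Y), (if |tE e| ≤ 1 then (1 : ℝ) else 0) := by
        refine Finset.sum_le_sum_of_subset_of_nonneg (Finset.filter_subset _ _) (fun e _ _ => ?_)
        split_ifs <;> norm_num
    _ = (((EN n (h2 * Y)).filter (fun e => |tE e| ≤ 1)).card : ℝ) := by
        rw [← Finset.sum_filter, Finset.sum_const, nsmul_eq_mul, mul_one]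

/-- PROOF. The proof of `dsum` (DSum.lean) with `f` replaced by `f (a * Y)`; `dsum_Qs` with the constant `C` of `cnt 1` independent of `f` (restate it with `∃ C, 0 < C ∧ ∀ f, (∀ n, ‖f n‖ ≤ 1) → ..`, same proof).
`dsumC`, `dsum_eq`, `dsumC_summable`, `dsum_kap` can be used as they are. -/
theorem dsumX (f : ℝ → ℕ → ℂ) (hf : ∀ X n, ‖f X n‖ ≤ 1) (hQ : QdSmallX f) : QSmallX f := by
  classical
  intro h h1 h2 hh ε hε
  obtain ⟨C, hC, hCQ⟩ := dsumX_Qs h h1 h2 hh
  have h2one : (1 : ℝ) ≤ h2 := hh.one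
  have h2pos : 0 < h2 := by linarith
  obtain ⟨-, hw0, hw1, -⟩ := ww_props
  -- the tail
  have hε' : 0 < ε / (4 * C * h2) := by positivity
  obtain ⟨s, hs⟩ := summable_iff_vanishing_norm.mp dsumC_summable _ hε'
  set K : ℕ := s.sup id with hK
  have htail : ∀ N : ℕ, ∑ d ∈ (Icc 1 N).filter (fun d => K < d), dsumC d / d ≤ ε / (4 * C * h2) := by
    intro N
    have hd : Disjoint ((Icc 1 N).filter (fun d => K < d)) s := by
      rw [Finset.disjoint_left]
      intro d hd hds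
      have h3 := (mem_filter.mp hd).2
      have h4 : d ≤ K := Finset.le_sup (f := id) hds
      omega
    exact (le_abs_self _).trans (hs _ hd).le
  set SK : ℝ := ∑ d ∈ Icc 1 K, dsumC d with hSK
  have hSK0 : 0 ≤ SK := Finset.sum_nonneg (fun d _ => dsumC_nonneg d)
  set ε2 : ℝ := ε / (2 * (SK + 1)) with hε2
  have hε2pos : 0 < ε2 := by positivity
  have hex : ∀ d : ℕ, ∃ N0 : ℕ, 1 ≤ d → ∀ N : ℕ, N0 ≤ N → ∀ a : ℝ, 0 < a →
    ∀ᶠ Y : ℝ in atTop, ‖∑ n ∈ (Icc 1 N).filter (fun n => d ∣ n), ((kap n * ww ((n : ℝ) / N) : ℝ) : ℂ) *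
      Qs (f (a * Y)) n (h2 * Y) (fun y t => ((h y ^ 2 * ps0 t : ℝ) : ℂ)) Y‖ ≤ ε2 * N * Y := by
    intro d
    by_cases hd : 1 ≤ d
    · obtain ⟨N0, hN0⟩ := hQ d hd h h1 h2 hh ε2 hε2pos
      exact ⟨N0, fun _ => hN0⟩
    · exact ⟨0, fun h => absurd h hd⟩
  choose N0 hN0 using hex
  refine ⟨(Icc 1 K).sup N0, fun N hN a ha => ?_⟩
  have hsmall : ∀ᶠ Y : ℝ in atTop, ∀ d ∈ Icc 1 K, ‖∑ n ∈ (Icc 1 N).filter (fun n => d ∣ n), ((kap n * ww ((n : ℝ) / N) : ℝ) : ℂ) *
      Qs (f (a * Y)) n (h2 * Y) (fun y t => ((h y ^ 2 * ps0 t : ℝ) : ℂ)) Y‖ ≤ ε2 * N * Y := by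
    rw [Filter.eventually_all_finset]
    intro d hd
    exact hN0 d (mem_Icc.mp hd).1 N (le_trans (Finset.le_sup hd) hN) a ha
  filter_upwards [hsmall, eventually_ge_atTop (N : ℝ), eventually_gt_atTop (0 : ℝ)] with Y hY hYN hY0
  set Q : ℕ → ℂ := fun n => Qs (f (a * Y)) n (h2 * Y) (fun y t => ((h y ^ 2 * ps0 t : ℝ) : ℂ)) Y with hQdef
  set Z : ℕ → ℂ := fun d => ∑ n ∈ (Icc 1 N).filter (fun n => d ∣ n), ((kap n * ww ((n : ℝ) / N) : ℝ) : ℂ) * Q n
    with hZ
  have hQb : ∀ n ∈ Icc 1 N, ‖Q n‖ ≤ C * (h2 * Y) := by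
    intro n hn
    obtain ⟨hn1, hn2⟩ := mem_Icc.mp hn
    refine hCQ (f (a * Y)) (hf (a * Y)) n hn1 Y ?_
    have e1 : (n : ℝ) ≤ N := by exact_mod_cast hn2
    nlinarith
  have hZb : ∀ d ∈ Icc 1 N, ‖Z d‖ ≤ (N / d : ℝ) * (2 * (C * (h2 * Y))) := by
    intro d hd
    have hd1 := (mem_Icc.mp hd).1
    have hcard : (((Icc 1 N).filter (fun n => d ∣ n)).card : ℝ) ≤ (N / d : ℝ) := by
      have e1 : Icc 1 N = Ioc 0 N := by
        ext x
        rw [mem_Icc, mem_Ioc]
        omega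
      rw [e1, Nat.Ioc_filter_dvd_card_eq_div]
      exact Nat.cast_div_le
    calc ‖Z d‖ ≤ ∑ n ∈ (Icc 1 N).filter (fun n => d ∣ n), (2 * (C * (h2 * Y))) := by
          refine norm_sum_le_of_le _ (fun n hn => ?_)
          rw [norm_mul, Complex.norm_real, Real.norm_eq_abs]
          have k1 := dsum_kap n
          have k2 := hw0 ((n : ℝ) / N)
          have k3 := hw1 ((n : ℝ) / N)
          rw [abs_of_nonneg (mul_nonneg k1.1 k2)]
          have k4 : kap n * ww ((n : ℝ) / N) ≤ 2 := by nlinarith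
          exact mul_le_mul k4 (hQb n (mem_filter.mp hn).1) (norm_nonneg _) (by norm_num)
      _ = (((Icc 1 N).filter (fun n => d ∣ n)).card : ℝ) * (2 * (C * (h2 * Y))) := by
          rw [Finset.sum_const, nsmul_eq_mul]
      _ ≤ _ := mul_le_mul_of_nonneg_right hcard (by positivity)
  have hexch : ∑ n ∈ Icc 1 N, ((kap n * (n / n.totient) * ww ((n : ℝ) / N) : ℝ) : ℂ) * Q n =
      ∑ d ∈ Icc 1 N, (dsumC d : ℂ) * Z d := by
    have e1 : ∀ n ∈ Icc 1 N, ((kap n * (n / n.totient) * ww ((n : ℝ) / N) : ℝ) : ℂ) * Q n =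
        ∑ d ∈ Icc 1 N, (if d ∣ n then (dsumC d : ℂ) * (((kap n * ww ((n : ℝ) / N) : ℝ) : ℂ) * Q n) else 0) := by
      intro n hn
      obtain ⟨hn1, hn2⟩ := mem_Icc.mp hn
      have e2 : n.divisors = (Icc 1 N).filter (fun d => d ∣ n) := by
        ext d
        rw [Nat.mem_divisors, mem_filter, mem_Icc]
        constructor
        · rintro ⟨h3, h4⟩
          have h5 := Nat.le_of_dvd hn1 h3
          have h6 := Nat.pos_of_dvd_of_pos h3 hn1
          exact ⟨⟨h6, by omega⟩, h3⟩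
        · rintro ⟨_, h3⟩
          exact ⟨h3, by omega⟩
      rw [dsum_eq n hn1, ← Finset.sum_filter, ← e2, ← Finset.sum_mul]
      push_cast
      ring
    rw [Finset.sum_congr rfl e1, Finset.sum_comm]
    refine Finset.sum_congr rfl (fun d _ => ?_)
    rw [← Finset.sum_filter, ← Finset.mul_sum]
  rw [hexch]
  have hsplit : ∑ d ∈ Icc 1 N, dsumC d * ‖Z d‖ =
      ∑ d ∈ (Icc 1 N).filter (fun d => d ≤ K), dsumC d * ‖Z d‖ +
      ∑ d ∈ (Icc 1 N).filter (fun d => K < d), dsumC d * ‖Z d‖ := by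
    rw [← Finset.sum_filter_add_sum_filter_not (Icc 1 N) (fun d => d ≤ K)]
    congr 1
    refine Finset.sum_congr ?_ (fun _ _ => rfl)
    refine Finset.filter_congr (fun d _ => ?_)
    omega
  have hpart1 : ∑ d ∈ (Icc 1 N).filter (fun d => d ≤ K), dsumC d * ‖Z d‖ ≤ ε / 2 * N * Y := by
    calc ∑ d ∈ (Icc 1 N).filter (fun d => d ≤ K), dsumC d * ‖Z d‖
        ≤ ∑ d ∈ (Icc 1 N).filter (fun d => d ≤ K), dsumC d * (ε2 * N * Y) := by
          refine Finset.sum_le_sum (fun d hd => ?_)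
          obtain ⟨hd1, hd2⟩ := mem_filter.mp hd
          exact mul_le_mul_of_nonneg_left (hY d (mem_Icc.mpr ⟨(mem_Icc.mp hd1).1, hd2⟩)) (dsumC_nonneg d)
      _ ≤ ∑ d ∈ Icc 1 K, dsumC d * (ε2 * N * Y) := by
          refine Finset.sum_le_sum_of_subset_of_nonneg ?_ (fun d _ _ => ?_)
          · intro d hd
            obtain ⟨hd1, hd2⟩ := mem_filter.mp hd
            exact mem_Icc.mpr ⟨(mem_Icc.mp hd1).1, hd2⟩
          · have := dsumC_nonneg d
            positivity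
      _ = SK * (ε2 * N * Y) := by rw [← Finset.sum_mul]
      _ ≤ (SK + 1) * (ε2 * N * Y) := mul_le_mul_of_nonneg_right (by linarith) (by positivity)
      _ = ε / 2 * N * Y := by
          rw [hε2]
          field_simp
  have hpart2 : ∑ d ∈ (Icc 1 N).filter (fun d => K < d), dsumC d * ‖Z d‖ ≤ ε / 2 * N * Y := by
    calc ∑ d ∈ (Icc 1 N).filter (fun d => K < d), dsumC d * ‖Z d‖
        ≤ ∑ d ∈ (Icc 1 N).filter (fun d => K < d), (dsumC d / d) * (2 * C * h2 * N * Y) := by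
          refine Finset.sum_le_sum (fun d hd => ?_)
          have h3 := hZb d (mem_filter.mp hd).1
          calc dsumC d * ‖Z d‖ ≤ dsumC d * ((N / d : ℝ) * (2 * (C * (h2 * Y)))) :=
                mul_le_mul_of_nonneg_left h3 (dsumC_nonneg d)
            _ = (dsumC d / d) * (2 * C * h2 * N * Y) := by ring
      _ = (∑ d ∈ (Icc 1 N).filter (fun d => K < d), dsumC d / d) * (2 * C * h2 * N * Y) := by
          rw [← Finset.sum_mul]
      _ ≤ (ε / (4 * C * h2)) * (2 * C * h2 * N * Y) :=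
          mul_le_mul_of_nonneg_right (htail N) (by positivity)
      _ = ε / 2 * N * Y := by
          field_simp
          ring
  calc ‖∑ d ∈ Icc 1 N, (dsumC d : ℂ) * Z d‖ ≤ ∑ d ∈ Icc 1 N, dsumC d * ‖Z d‖ := by
        refine norm_sum_le_of_le _ (fun d _ => ?_)
        rw [norm_mul, Complex.norm_real, Real.norm_eq_abs, abs_of_nonneg (dsumC_nonneg d)]
    _ ≤ ε * N * Y := by
        rw [hsplit]
        linarith

end Pool.Agent.LPr

end

/-! ### from `Lib_MP_f1a94e_lp.SharpX` -/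

section

/-!
# Piece SHARPX: from test functions to sharp conditions, for families
-/

set_option autoImplicit false

namespace Pool.Agent.LPr

open Finset Pool.Agent.GaussMR Pool.Agent.OmAll Pool.Agent.OmEq MeasureTheory Filter

/-- PROOF. The proof of `sharp` (eq/Sharp.lean, last theorem) verbatim with `Φ X` for `Φ` (`sharp_diff (Φ X) ..` is a statement for a single `X`). -/
theorem sharpX (Φ : ℝ → G × G → ℂ) (hΦ : ∀ X e, ‖Φ X e‖ ≤ 1)
    (H : ∀ (b : ℝ) (W : ℝ → ℝ → ℂ), TF b W →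
      Tendsto (fun X : ℝ => (∑ e ∈ EN 1 (b * X), Φ X e * W (mE e / X) (tE e)) / X) atTop (nhds 0))
    (s t : ℝ) (hst : s ≤ t) :
    Tendsto (fun X : ℝ => (∑ e ∈ (EN 1 X).filter (fun e => s ≤ tE e ∧ tE e ≤ t), Φ X e) / X) atTop (nhds 0) := by
  obtain ⟨κ, hκ0, hκ⟩ := en_lim
  rw [Metric.tendsto_nhds]
  intro ε hε
  -- choice of `δ`
  obtain ⟨δ, hδ, hδ1, hδε⟩ : ∃ δ : ℝ, 0 < δ ∧ δ ≤ 1 ∧ κ * δ * (2 * (t - s) + 12) < ε / 2 := by
    refine ⟨min 1 (ε / (4 * (κ * (2 * (t - s) + 12) + 1))), ?_, min_le_left _ _, ?_⟩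
    · apply lt_min one_pos
      have : 0 ≤ κ * (2 * (t - s) + 12) := mul_nonneg hκ0 (by linarith)
      positivity
    · have h0 : 0 ≤ κ * (2 * (t - s) + 12) := mul_nonneg hκ0 (by linarith)
      have h1 : min 1 (ε / (4 * (κ * (2 * (t - s) + 12) + 1))) ≤ ε / (4 * (κ * (2 * (t - s) + 12) + 1)) :=
        min_le_right _ _
      have h2 : κ * (2 * (t - s) + 12) * min 1 (ε / (4 * (κ * (2 * (t - s) + 12) + 1))) ≤
          κ * (2 * (t - s) + 12) * (ε / (4 * (κ * (2 * (t - s) + 12) + 1))) :=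
        mul_le_mul_of_nonneg_left h1 h0
      have h3 : κ * (2 * (t - s) + 12) * (ε / (4 * (κ * (2 * (t - s) + 12) + 1))) ≤ ε / 4 := by
        rw [mul_div_assoc', div_le_div_iff₀ (by positivity) (by norm_num)]
        nlinarith
      nlinarith
  have h1 := H (1 + δ) (sharp_W s t δ) (sharp_TF s t δ hδ)
  have h2 : Tendsto (fun X : ℝ => sharp_N (s - δ) (t + 2 * δ) (δ * X) / X +
      (sharp_N (s - δ) (t + 2 * δ) ((1 + δ) * X) / X - sharp_N (s - δ) (t + 2 * δ) (1 * X) / X) +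
      sharp_N (s - δ) s ((1 + δ) * X) / X + sharp_N t (t + 2 * δ) ((1 + δ) * X) / X) atTop
      (nhds (δ * (κ * (t + 2 * δ - (s - δ))) + ((1 + δ) * (κ * (t + 2 * δ - (s - δ))) -
        1 * (κ * (t + 2 * δ - (s - δ)))) + (1 + δ) * (κ * (s - (s - δ))) + (1 + δ) * (κ * (t + 2 * δ - t)))) :=
    ((((sharp_N_lim hκ _ _ _ (by linarith) hδ).add
      ((sharp_N_lim hκ _ _ _ (by linarith) (by linarith)).sub
        (sharp_N_lim hκ _ _ _ (by linarith) one_pos))).add
      (sharp_N_lim hκ _ _ _ (by linarith) (by linarith))).add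
      (sharp_N_lim hκ _ _ _ (by linarith) (by linarith)))
  have h3 : δ * (κ * (t + 2 * δ - (s - δ))) + ((1 + δ) * (κ * (t + 2 * δ - (s - δ))) -
        1 * (κ * (t + 2 * δ - (s - δ)))) + (1 + δ) * (κ * (s - (s - δ))) + (1 + δ) * (κ * (t + 2 * δ - t)) <
        ε / 2 := by
    have h4 : δ * (κ * (t + 2 * δ - (s - δ))) + ((1 + δ) * (κ * (t + 2 * δ - (s - δ))) -
        1 * (κ * (t + 2 * δ - (s - δ)))) + (1 + δ) * (κ * (s - (s - δ))) + (1 + δ) * (κ * (t + 2 * δ - t)) =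
        κ * δ * (2 * (t - s) + 3 + 9 * δ) := by ring
    rw [h4]
    refine lt_of_le_of_lt ?_ hδε
    exact mul_le_mul_of_nonneg_left (by linarith) (mul_nonneg hκ0 hδ.le)
  have h5 := (tendsto_order.1 h2).2 _ h3
  have h6 := (Metric.tendsto_nhds.1 h1) (ε / 2) (by linarith)
  filter_upwards [h5, h6, eventually_gt_atTop 0] with X g1 g2 hX
  rw [dist_zero_right] at g2 ⊢
  have g3 := sharp_diff (Φ X) (hΦ X) s t δ X hδ hX
  rw [one_mul] at g1
  set F := ∑ e ∈ (EN 1 X).filter (fun e => s ≤ tE e ∧ tE e ≤ t), Φ X e with hF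
  set K := ∑ e ∈ EN 1 ((1 + δ) * X), Φ X e * sharp_W s t δ (mE e / X) (tE e) with hK
  have g4 : F / X = (F - K) / X + K / X := by ring
  rw [g4]
  have g5 : ‖(F - K) / (X : ℂ)‖ < ε / 2 := by
    rw [norm_div, Complex.norm_real, Real.norm_eq_abs, abs_of_pos hX]
    refine lt_of_le_of_lt (div_le_div_of_nonneg_right g3 hX.le) ?_
    refine lt_of_eq_of_lt ?_ g1
    ring
  calc ‖(F - K) / (X : ℂ) + K / X‖ ≤ ‖(F - K) / (X : ℂ)‖ + ‖K / (X : ℂ)‖ := norm_add_le _ _
    _ < ε / 2 + ε / 2 := add_lt_add g5 g2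
    _ = ε := by ring

end Pool.Agent.LPr

end

/-! ### from `Lib_MP_f1a94e_lp.WinF` -/

section

/-!
# Piece WINF: Fourier inversion for the numbers of prime factors in windows
-/

set_option autoImplicit false

namespace Pool.Agent.LPr

open Finset Pool.Agent.GaussMR Pool.Agent.OmAll Pool.Agent.OmEq Filter

/-- the step function with values `ζ^(j i)` on the windows `(u i, u (i + 1)]`, `i < r` -/
noncomputable def phj (K : ℕ) (u : ℕ → ℝ) (r : ℕ) (j : Fin r → ℕ) (t : ℝ) : ℂ :=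
  1 + ∑ i : Fin r, if u i < t ∧ t ≤ u (i + 1) then zq K ^ (j i) - 1 else 0

private theorem phj_prod (K : ℕ) (u : ℕ → ℝ) (hu : Monotone u) (r : ℕ) (j : Fin r → ℕ) (t : ℝ) :
    phj K u r j t = ∏ i : Fin r, if u i < t ∧ t ≤ u (i + 1) then zq K ^ (j i) else 1 := by
  unfold phj
  by_cases h : ∃ i : Fin r, u i < t ∧ t ≤ u (i + 1)
  · obtain ⟨i₀, h0⟩ := h
    have hne : ∀ i : Fin r, i ≠ i₀ → ¬ (u i < t ∧ t ≤ u (i + 1)) := by
      rintro i hi ⟨h1, h2⟩
      rcases lt_or_gt_of_ne (fun h => hi (Fin.ext h) : (i : ℕ) ≠ i₀) with hlt | hgt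
      · have : u (i + 1) ≤ u i₀ := hu (by omega)
        linarith [h0.1]
      · have : u (i₀ + 1) ≤ u i := hu (by omega)
        linarith [h0.2]
    rw [Finset.sum_eq_single i₀ (fun i _ hi => if_neg (hne i hi)) (fun h => absurd (mem_univ _) h),
      Finset.prod_eq_single i₀ (fun i _ hi => if_neg (hne i hi)) (fun h => absurd (mem_univ _) h),
      if_pos h0, if_pos h0]
    ring
  · push Not at h
    have hne : ∀ i : Fin r, ¬ (u i < t ∧ t ≤ u (i + 1)) := by
      rintro i ⟨h1, h2⟩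
      exact absurd (h i h1) (not_lt.2 h2)
    rw [Finset.sum_eq_zero (fun i _ => if_neg (hne i)), Finset.prod_eq_one (fun i _ => if_neg (hne i)),
      add_zero]

/-- the windows are disjoint (`u` monotone), so `phj` takes the values `ζ^(j i)` (norm one, `fine_norm`) or `1` -/
theorem phj_step (K : ℕ) (hK : 0 < K) (u : ℕ → ℝ) (hu0 : 0 < u 0) (hu : Monotone u) (r : ℕ) (j : Fin r → ℕ) :
    StepF (phj K u r j) := by
  refine ⟨fun t => ?_, r, fun i => zq K ^ (j i) - 1, fun i => u i, fun i => u (i + 1), fun i => ?_,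
    fun t => rfl⟩
  · rw [phj_prod K u hu r j t, norm_prod]
    apply Finset.prod_eq_one
    intro i _
    split_ifs
    · exact fine_norm K hK (j i)
    · exact norm_one
  · exact ⟨hu0.trans_le (hu (Nat.zero_le _)), hu (Nat.le_succ _)⟩

private theorem list_prod_windows {r : ℕ} (P : Fin r → ℕ → Bool) (y : Fin r → ℂ) (L : List ℕ) :
    (L.map (fun p => ∏ i : Fin r, if P i p = true then y i else 1)).prod =
      ∏ i : Fin r, y i ^ (L.filter (P i)).length := by
  induction L with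
  | nil => simp
  | cons p L ih =>
    rw [List.map_cons, List.prod_cons, ih, ← Finset.prod_mul_distrib]
    apply Finset.prod_congr rfl
    intro i _
    rw [List.filter_cons]
    by_cases h : P i p = true
    · rw [if_pos h, if_pos h, List.length_cons, pow_succ]
      ring
    · rw [if_neg h, if_neg h, one_mul]

/-- PROOF. For a prime `p` and `X > 1`, `u i < log p / log X ≤ u (i + 1)` iff `X^(u i) < p ≤ X^(u (i + 1))`. So `gx (phj ..) X n = ∏_(p ∈ primeFactorsList n) ∏_i (if p in window i then ζ^(j i) else 1)` (at most one window contains `p`), exchange the products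
(`List.prod_map_mul` / induction on the list): `∏_(p ∈ L) (if p in window i then y else 1) = y ^ (L.filter ..).length`. -/
theorem gx_phj (K : ℕ) (hK : 0 < K) (u : ℕ → ℝ) (hu : Monotone u) (r : ℕ) (j : Fin r → ℕ) (X : ℝ) (hX : 1 < X) (n : ℕ) :
    gx (phj K u r j) X n = ∏ i : Fin r, (zq K ^ (j i)) ^ wc X (u i) (u (i + 1)) n := by
  classical
  have hX0 : 0 < X := by linarith
  have hlX : 0 < Real.log X := Real.log_pos hX
  unfold gx
  have h1 : n.primeFactorsList.map (fun p : ℕ => phj K u r j (Real.log p / Real.log X)) =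
      n.primeFactorsList.map (fun p : ℕ => ∏ i : Fin r,
        if (decide (X ^ (u i) < (p : ℝ) ∧ (p : ℝ) ≤ X ^ (u (i + 1)))) = true then zq K ^ (j i) else 1) := by
    apply List.map_congr_left
    intro p hp
    have hp0 : (0 : ℝ) < p := by exact_mod_cast (Nat.prime_of_mem_primeFactorsList hp).pos
    rw [phj_prod K u hu r j]
    apply Finset.prod_congr rfl
    intro i _
    have ha : u i < Real.log p / Real.log X ↔ X ^ (u i) < (p : ℝ) := by
      rw [lt_div_iff₀ hlX, ← Real.log_rpow hX0, Real.log_lt_log_iff (Real.rpow_pos_of_pos hX0 _) hp0]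
    have hb : Real.log p / Real.log X ≤ u (i + 1) ↔ (p : ℝ) ≤ X ^ (u (i + 1)) := by
      rw [div_le_iff₀ hlX, ← Real.log_rpow hX0, Real.log_le_log_iff hp0 (Real.rpow_pos_of_pos hX0 _)]
    simp only [ha, hb, decide_eq_true_eq]
  rw [h1, list_prod_windows (fun (i : Fin r) (p : ℕ) =>
    decide (X ^ (u i) < (p : ℝ) ∧ (p : ℝ) ≤ X ^ (u (i + 1))))]
  apply Finset.prod_congr rfl
  intro i _
  unfold wc
  congr 3

/-- PROOF. `∑_(j ∈ piFinset) ∏_i F i (j i) = ∏_i ∑_(j < K) F i j` (`Finset.prod_univ_sum`), `fine_orth`, and `N i ≡ k i mod K` iff `N i = k i` for numbers below `K`. -/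
theorem win_inv (K : ℕ) (hK : 0 < K) (r : ℕ) (k N : Fin r → ℕ) (hk : ∀ i, k i < K) (hN : ∀ i, N i < K)
    [Decidable (∀ i, N i = k i)] :
    ∑ j ∈ Fintype.piFinset (fun _ : Fin r => range K),
      (∏ i, (zq K ^ (j i * k i))⁻¹) * ∏ i, (zq K ^ (j i)) ^ (N i) = if ∀ i, N i = k i then (K : ℂ) ^ r else 0 := by
  have h1 : ∀ j : Fin r → ℕ, (∏ i, (zq K ^ (j i * k i))⁻¹) * ∏ i, (zq K ^ (j i)) ^ (N i) =
      ∏ i, (zq K ^ (j i * k i))⁻¹ * (zq K ^ (j i)) ^ (N i) := fun j => Finset.prod_mul_distrib.symm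
  simp only [h1]
  rw [← Finset.prod_univ_sum (fun _ : Fin r => range K)
    (fun i a => (zq K ^ (a * k i))⁻¹ * (zq K ^ a) ^ (N i))]
  simp only [fine_orth hK]
  have h2 : ∀ i, (if N i ≡ k i [MOD K] then (K : ℂ) else 0) = if N i = k i then (K : ℂ) else 0 := by
    intro i
    by_cases h : N i = k i
    · rw [if_pos h, if_pos (by rw [h])]
    · rw [if_neg h, if_neg (fun h' => h (Nat.ModEq.eq_of_lt_of_lt h' (hN i) (hk i)))]
  simp only [h2]
  by_cases h : ∀ i, N i = k i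
  · rw [if_pos h]
    simp [h]
  · rw [if_neg h]
    push Not at h
    obtain ⟨i, hi⟩ := h
    exact Finset.prod_eq_zero (mem_univ i) (if_neg hi)

private theorem list_prod_lower (c : ℝ) (hc : 0 ≤ c) (L : List ℕ) (h : ∀ p ∈ L, c < (p : ℝ)) :
    c ^ L.length ≤ ((L.prod : ℕ) : ℝ) := by
  induction L with
  | nil => simp
  | cons p L ih =>
    rw [List.length_cons, List.prod_cons, pow_succ', Nat.cast_mul]
    exact mul_le_mul (h p (by simp)).le (ih fun q hq => h q (by simp [hq])) (pow_nonneg hc _)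
      (Nat.cast_nonneg _)

/-- `X ^ (u wc) ≤ n ≤ X ^ 3` (the product of the prime factors in the window divides `n`; `u ≤` the left end of the window), so `wc * u ≤ 3 < K u`. -/
theorem wc_lt (K : ℕ) (u0 : ℝ) (hu0 : 0 < u0) (hK : 3 < K * u0) (X : ℝ) (hX : 2 ≤ X) (n : ℕ) (hn : n ≠ 0)
    (hnX : (n : ℝ) ≤ X ^ 3) (u v : ℝ) (hu : u0 ≤ u) : wc X u v n < K := by
  classical
  by_contra hcon
  rw [not_lt] at hcon
  have hX0 : 0 < X := by linarith
  have hX1 : 1 < X := by linarith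
  unfold wc at hcon
  set L := n.primeFactorsList.filter (fun p : ℕ => X ^ u < (p : ℝ) ∧ (p : ℝ) ≤ X ^ v) with hL
  have h1 : ∀ p ∈ L, X ^ u < (p : ℝ) := by
    intro p hp
    rw [hL, List.mem_filter] at hp
    have := hp.2
    simp only [decide_eq_true_eq] at this
    exact this.1
  have h2 := list_prod_lower (X ^ u) (Real.rpow_nonneg hX0.le _) L h1
  have h3 : L.prod ∣ n := by
    have : L.prod ∣ n.primeFactorsList.prod := List.Sublist.prod_dvd_prod List.filter_sublist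
    rwa [Nat.prod_primeFactorsList hn] at this
  have h4 : ((L.prod : ℕ) : ℝ) ≤ n := by exact_mod_cast Nat.le_of_dvd (Nat.pos_of_ne_zero hn) h3
  have h5 : X ^ (3 : ℝ) < (X ^ u) ^ L.length := by
    rw [← Real.rpow_natCast, ← Real.rpow_mul hX0.le]
    apply Real.rpow_lt_rpow_of_exponent_lt hX1
    have h6 : (K : ℝ) ≤ L.length := by exact_mod_cast hcon
    calc (3 : ℝ) < K * u0 := hK
      _ ≤ L.length * u := mul_le_mul h6 hu hu0.le (Nat.cast_nonneg _)
      _ = u * L.length := mul_comm _ _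
  have h7 : X ^ (3 : ℝ) = X ^ (3 : ℕ) := by
    rw [← Real.rpow_natCast]
    norm_num
  rw [h7] at h5
  linarith

/-- the coefficient sum -/
noncomputable def cK (K : ℕ) (u : ℕ → ℝ) (r : ℕ) (k : ℕ → ℕ) : ℂ :=
  (1 / (K : ℂ) ^ r) * ∑ j ∈ Fintype.piFinset (fun _ : Fin r => range K),
    (∏ i : Fin r, (zq K ^ (j i * k i))⁻¹) * mu (phj K u r j)

private theorem win_count (K : ℕ) (u : ℕ → ℝ) (hu0 : 0 < u 0) (hu : Monotone u) (hK : 3 < K * u 0) (r : ℕ)
    (k : ℕ → ℕ) (hk : ∀ i < r, k i < K) (x : ℝ) (hx : 2 ≤ x) :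
    ((Set.ncard {n : ℕ | 1 ≤ n ∧ (n : ℝ) ≤ x ∧ ∀ i < r, wc x (u i) (u (i + 1)) n = k i} : ℝ) : ℂ) =
      (1 / (K : ℂ) ^ r) * ∑ j ∈ Fintype.piFinset (fun _ : Fin r => range K),
        (∏ i : Fin r, (zq K ^ (j i * k i))⁻¹) * ∑ n ∈ Icc 1 ⌊x⌋₊, gx (phj K u r j) x n := by
  classical
  have hx0 : 0 ≤ x := by linarith
  have hK0 : 0 < K := by
    rcases Nat.eq_zero_or_pos K with h | h
    · subst h
      simp at hK
      linarith
    · exact h
  have hKc : (K : ℂ) ^ r ≠ 0 := pow_ne_zero _ (by exact_mod_cast hK0.ne')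
  have hset : {n : ℕ | 1 ≤ n ∧ (n : ℝ) ≤ x ∧ ∀ i < r, wc x (u i) (u (i + 1)) n = k i} =
      (((Icc 1 ⌊x⌋₊).filter (fun n => ∀ i : Fin r, wc x (u i) (u (i + 1)) n = k i) : Finset ℕ) : Set ℕ) := by
    ext n
    simp only [Set.mem_ofPred_eq, coe_filter, mem_Icc, Nat.le_floor_iff hx0, and_assoc]
    constructor
    · rintro ⟨h1, h2, h3⟩
      exact ⟨h1, h2, fun i => h3 i i.2⟩
    · rintro ⟨h1, h2, h3⟩
      exact ⟨h1, h2, fun i hi => h3 ⟨i, hi⟩⟩
  rw [hset, Set.ncard_coe_finset, Finset.card_filter]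
  have hcast : (((∑ n ∈ Icc 1 ⌊x⌋₊, if ∀ i : Fin r, wc x (u i) (u (i + 1)) n = k i then 1 else 0 : ℕ) : ℝ) : ℂ) =
      ∑ n ∈ Icc 1 ⌊x⌋₊, (if ∀ i : Fin r, wc x (u i) (u (i + 1)) n = k i then (1 : ℂ) else 0) := by
    rw [Nat.cast_sum, Complex.ofReal_sum]
    apply Finset.sum_congr rfl
    intro n _
    split_ifs <;> simp
  rw [hcast]
  have hterm : ∀ n ∈ Icc 1 ⌊x⌋₊, (if ∀ i : Fin r, wc x (u i) (u (i + 1)) n = k i then (1 : ℂ) else 0) =
      (1 / (K : ℂ) ^ r) * ∑ j ∈ Fintype.piFinset (fun _ : Fin r => range K),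
        (∏ i : Fin r, (zq K ^ (j i * k i))⁻¹) * gx (phj K u r j) x n := by
    intro n hn
    rw [mem_Icc, Nat.le_floor_iff hx0] at hn
    have hn3 : (n : ℝ) ≤ x ^ 3 := by
      have : x ≤ x ^ 3 := by nlinarith [mul_nonneg hx0 hx0]
      linarith [hn.2]
    have h := win_inv K hK0 r (fun i => k i) (fun i => wc x (u i) (u (i + 1)) n) (fun i => hk i i.2)
      (fun i => wc_lt K (u 0) hu0 hK x hx n (by omega) hn3 _ _ (hu (Nat.zero_le _)))
    have hg : ∀ j : Fin r → ℕ, gx (phj K u r j) x n = ∏ i : Fin r, (zq K ^ (j i)) ^ wc x (u i) (u (i + 1)) n :=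
      fun j => gx_phj K hK0 u hu r j x (by linarith) n
    simp only [hg]
    rw [h]
    split_ifs
    · rw [one_div, inv_mul_cancel₀ hKc]
    · rw [mul_zero]
  rw [Finset.sum_congr rfl hterm, ← Finset.mul_sum, Finset.sum_comm]
  simp only [Finset.mul_sum]

/-- PROOF. For `x` large, by `win_inv`, `gx_phj`, `wc_lt` (`n ≤ x ≤ x³`), the count is `∑_(n ≤ x) (1 / K^r) ∑_j (∏ ..) gx (phj K u r j) x n`; divide by `x`, `mu_tendsto` for each `j` (`phj_step`); the limit of real numbers is real (take real parts; `cK` is a limit of real numbers, so `cK.re = cK`). -/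
theorem int_law (K : ℕ) (u : ℕ → ℝ) (hu0 : 0 < u 0) (hu : Monotone u) (hK : 3 < K * u 0) (r : ℕ) (k : ℕ → ℕ)
    (hk : ∀ i < r, k i < K) :
    ∃ c : ℝ, (c : ℂ) = cK K u r k ∧ Tendsto (fun x : ℝ => (Set.ncard {n : ℕ | 1 ≤ n ∧ (n : ℝ) ≤ x ∧
      ∀ i < r, wc x (u i) (u (i + 1)) n = k i} : ℝ) / x) atTop (nhds c) := by
  have hK0 : 0 < K := by
    rcases Nat.eq_zero_or_pos K with h | h
    · subst h
      simp at hK
      linarith
    · exact h
  set f : ℝ → ℝ := fun x : ℝ => (Set.ncard {n : ℕ | 1 ≤ n ∧ (n : ℝ) ≤ x ∧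
      ∀ i < r, wc x (u i) (u (i + 1)) n = k i} : ℝ) / x with hf
  have hlim : Tendsto (fun x : ℝ => ((f x : ℝ) : ℂ)) atTop (nhds (cK K u r k)) := by
    have h1 : Tendsto (fun x : ℝ => (1 / (K : ℂ) ^ r) * ∑ j ∈ Fintype.piFinset (fun _ : Fin r => range K),
        (∏ i : Fin r, (zq K ^ (j i * k i))⁻¹) * ((∑ n ∈ Icc 1 ⌊x⌋₊, gx (phj K u r j) x n) / x))
        atTop (nhds (cK K u r k)) := by
      unfold cK
      apply Tendsto.const_mul
      apply tendsto_finsetSum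
      intro j _
      exact (mu_tendsto _ (phj_step K hK0 u hu0 hu r j)).const_mul _
    refine h1.congr' ?_
    filter_upwards [eventually_ge_atTop (2 : ℝ)] with x hx
    have h2 := win_count K u hu0 hu hK r k hk x hx
    have h3 : ((f x : ℝ) : ℂ) = ((Set.ncard {n : ℕ | 1 ≤ n ∧ (n : ℝ) ≤ x ∧
      ∀ i < r, wc x (u i) (u (i + 1)) n = k i} : ℝ) : ℂ) / (x : ℂ) := by
      rw [hf]
      push_cast
      rfl
    rw [h3, h2, mul_div_assoc, Finset.sum_div]
    congr 1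
    apply Finset.sum_congr rfl
    intro j _
    rw [mul_div_assoc]
  have hre : Tendsto f atTop (nhds (cK K u r k).re) := by
    have := (Complex.continuous_re.tendsto _).comp hlim
    simpa [Function.comp_def] using this
  have him : (cK K u r k).im = 0 := by
    have := (Complex.continuous_im.tendsto _).comp hlim
    have h0 : Tendsto (fun _ : ℝ => (0 : ℝ)) atTop (nhds (cK K u r k).im) := by
      simpa [Function.comp_def] using this
    exact (tendsto_nhds_unique h0 tendsto_const_nhds)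
  refine ⟨(cK K u r k).re, ?_, hre⟩
  apply Complex.ext
  · simp
  · simp [him]

end Pool.Agent.LPr

end

/-! ### from `Lib_MP_f1a94e_lp.WinG` -/

section

/-!
# Fourier inversion for the numbers of prime factors in arbitrary windows
-/

set_option autoImplicit false

namespace Pool.Agent.LPr

open Finset Pool.Agent.GaussMR Pool.Agent.OmAll Pool.Agent.OmEq Filter

/-- step functions from a finite type of windows -/
theorem stepf_fin {ι : Type*} [Fintype ι] (φ : ℝ → ℂ) (h1 : ∀ t, ‖φ t‖ = 1) (c : ι → ℂ) (u v : ι → ℝ)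
    (hw : ∀ i, 0 < u i ∧ u i ≤ v i) (h : ∀ t, φ t = 1 + ∑ i, if u i < t ∧ t ≤ v i then c i else 0) : StepF φ := by
  classical
  let e := Fintype.equivFin ι
  refine ⟨h1, Fintype.card ι, fun i => c (e.symm i), fun i => u (e.symm i), fun i => v (e.symm i), fun i => hw _, ?_⟩
  intro t
  rw [h t]
  congr 1
  exact (Equiv.sum_comp e.symm (fun i => if u i < t ∧ t ≤ v i then c i else 0)).symm

/-- products of step functions -/
theorem StepF.mul {φ ψ : ℝ → ℂ} (hφ : StepF φ) (hψ : StepF ψ) : StepF (fun t => φ t * ψ t) := by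
  classical
  obtain ⟨r, c, u, v, hw, h⟩ := hφ.ex
  obtain ⟨r', c', u', v', hw', h'⟩ := hψ.ex
  refine stepf_fin (ι := Fin r ⊕ Fin r' ⊕ Fin r × Fin r') _ (fun t => by rw [norm_mul, hφ.un, hψ.un, one_mul])
    (Sum.elim c (Sum.elim c' (fun p => c p.1 * c' p.2)))
    (Sum.elim u (Sum.elim u' (fun p => max (u p.1) (u' p.2))))
    (Sum.elim v (Sum.elim v' (fun p => max (max (u p.1) (u' p.2)) (min (v p.1) (v' p.2))))) ?_ ?_
  · rintro (i | i | ⟨i, j⟩)
    · exact hw i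
    · exact hw' i
    · exact ⟨lt_max_of_lt_left (hw i).1, le_max_left _ _⟩
  · intro t
    rw [h t, h' t, Fintype.sum_sum_type, Fintype.sum_sum_type]
    simp only [Sum.elim_inl, Sum.elim_inr]
    have h3 : ∑ p : Fin r × Fin r', (if max (u p.1) (u' p.2) < t ∧
        t ≤ max (max (u p.1) (u' p.2)) (min (v p.1) (v' p.2)) then c p.1 * c' p.2 else 0) =
        (∑ i, if u i < t ∧ t ≤ v i then c i else 0) * (∑ i, if u' i < t ∧ t ≤ v' i then c' i else 0) := by
      rw [Fintype.sum_prod_type, sum_mul_sum]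
      refine sum_congr rfl fun i _ => sum_congr rfl fun j _ => ?_
      by_cases h4 : u i < t ∧ t ≤ v i
      · by_cases h5 : u' j < t ∧ t ≤ v' j
        · rw [if_pos h4, if_pos h5, if_pos]
          exact ⟨max_lt h4.1 h5.1, le_max_of_le_right (le_min h4.2 h5.2)⟩
        · rw [if_neg h5, mul_zero, if_neg]
          rintro ⟨h6, h7⟩
          rw [le_max_iff] at h7
          rcases h7 with h7 | h7
          · exact absurd h6 (not_lt.2 h7)
          · exact h5 ⟨(le_max_right _ _).trans_lt h6, h7.trans (min_le_right _ _)⟩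
      · rw [if_neg h4, zero_mul, if_neg]
        rintro ⟨h6, h7⟩
        rw [le_max_iff] at h7
        rcases h7 with h7 | h7
        · exact absurd h6 (not_lt.2 h7)
        · exact h4 ⟨(le_max_left _ _).trans_lt h6, h7.trans (min_le_left _ _)⟩
    rw [h3]
    ring

/-- one window -/
theorem stepf_ind (c : ℂ) (hc : ‖c‖ = 1) (u v : ℝ) (hu : 0 < u) (huv : u ≤ v) :
    StepF (fun t => if u < t ∧ t ≤ v then c else 1) := by
  refine stepf_fin (ι := Fin 1) _ (fun t => ?_) (fun _ => c - 1) (fun _ => u) (fun _ => v) (fun _ => ⟨hu, huv⟩) (fun t => ?_)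
  · split_ifs
    · exact hc
    · exact norm_one
  · simp only [univ_unique, sum_const, card_singleton, one_smul]
    split_ifs
    · ring
    · ring

/-- the step function with values `ζ^(j i)` on the windows `(u i, v i]`, `i < r` -/
noncomputable def phg (K : ℕ) (u v : ℕ → ℝ) (r : ℕ) (j : Fin r → ℕ) (t : ℝ) : ℂ :=
  ∏ i : Fin r, if u i < t ∧ t ≤ v i then zq K ^ (j i) else 1

theorem phg_step (K : ℕ) (hK : 0 < K) (u v : ℕ → ℝ) (r : ℕ) (h : ∀ i < r, 0 < u i ∧ u i ≤ v i) (j : Fin r → ℕ) :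
    StepF (phg K u v r j) := by
  classical
  have key : ∀ s : Finset (Fin r), StepF (fun t => ∏ i ∈ s, if u i < t ∧ t ≤ v i then zq K ^ (j i) else 1) := by
    intro s
    induction s using Finset.induction_on with
    | empty => simpa using stepf_one
    | insert a s ha ih =>
      have h1 := (stepf_ind (zq K ^ (j a)) (fine_norm K hK (j a)) (u a) (v a) (h a a.2).1 (h a a.2).2).mul ih
      have h2 : (fun t => ∏ i ∈ insert a s, if u i < t ∧ t ≤ v i then zq K ^ (j i) else 1) =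
          (fun t => (if u a < t ∧ t ≤ v a then zq K ^ (j a) else 1) *
            ∏ i ∈ s, if u i < t ∧ t ≤ v i then zq K ^ (j i) else 1) := by
        funext t
        rw [prod_insert ha]
      rw [h2]
      exact h1
  exact key univ

private theorem list_prod_windows' {r : ℕ} (P : Fin r → ℕ → Bool) (y : Fin r → ℂ) (L : List ℕ) :
    (L.map (fun p => ∏ i : Fin r, if P i p = true then y i else 1)).prod =
      ∏ i : Fin r, y i ^ (L.filter (P i)).length := by
  induction L with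
  | nil => simp
  | cons p L ih =>
    rw [List.map_cons, List.prod_cons, ih, ← Finset.prod_mul_distrib]
    apply Finset.prod_congr rfl
    intro i _
    rw [List.filter_cons]
    by_cases h : P i p = true
    · rw [if_pos h, if_pos h, List.length_cons, pow_succ]
      ring
    · rw [if_neg h, if_neg h, one_mul]

theorem gx_phg (K : ℕ) (u v : ℕ → ℝ) (r : ℕ) (j : Fin r → ℕ) (X : ℝ) (hX : 1 < X) (n : ℕ) :
    gx (phg K u v r j) X n = ∏ i : Fin r, (zq K ^ (j i)) ^ wc X (u i) (v i) n := by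
  classical
  have hX0 : 0 < X := by linarith
  have hlX : 0 < Real.log X := Real.log_pos hX
  unfold gx
  have h1 : n.primeFactorsList.map (fun p : ℕ => phg K u v r j (Real.log p / Real.log X)) =
      n.primeFactorsList.map (fun p : ℕ => ∏ i : Fin r,
        if (decide (X ^ (u i) < (p : ℝ) ∧ (p : ℝ) ≤ X ^ (v i))) = true then zq K ^ (j i) else 1) := by
    apply List.map_congr_left
    intro p hp
    have hp0 : (0 : ℝ) < p := by exact_mod_cast (Nat.prime_of_mem_primeFactorsList hp).pos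
    unfold phg
    apply Finset.prod_congr rfl
    intro i _
    have ha : u i < Real.log p / Real.log X ↔ X ^ (u i) < (p : ℝ) := by
      rw [lt_div_iff₀ hlX, ← Real.log_rpow hX0, Real.log_lt_log_iff (Real.rpow_pos_of_pos hX0 _) hp0]
    have hb : Real.log p / Real.log X ≤ v i ↔ (p : ℝ) ≤ X ^ (v i) := by
      rw [div_le_iff₀ hlX, ← Real.log_rpow hX0, Real.log_le_log_iff hp0 (Real.rpow_pos_of_pos hX0 _)]
    simp only [ha, hb, decide_eq_true_eq]
  rw [h1, list_prod_windows' (fun (i : Fin r) (p : ℕ) =>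
    decide (X ^ (u i) < (p : ℝ) ∧ (p : ℝ) ≤ X ^ (v i)))]
  apply Finset.prod_congr rfl
  intro i _
  unfold wc
  congr 3

/-- the coefficient sum -/
noncomputable def cG (K : ℕ) (u v : ℕ → ℝ) (r : ℕ) (k : ℕ → ℕ) : ℂ :=
  (1 / (K : ℂ) ^ r) * ∑ j ∈ Fintype.piFinset (fun _ : Fin r => range K),
    (∏ i : Fin r, (zq K ^ (j i * k i))⁻¹) * mu (phg K u v r j)

private theorem win_countG (K : ℕ) (u0 : ℝ) (hu0 : 0 < u0) (u v : ℕ → ℝ) (r : ℕ) (hu : ∀ i < r, u0 ≤ u i)
    (hK : 3 < K * u0) (k : ℕ → ℕ) (hk : ∀ i < r, k i < K) (x : ℝ) (hx : 2 ≤ x) :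
    ((Set.ncard {n : ℕ | 1 ≤ n ∧ (n : ℝ) ≤ x ∧ ∀ i < r, wc x (u i) (v i) n = k i} : ℝ) : ℂ) =
      (1 / (K : ℂ) ^ r) * ∑ j ∈ Fintype.piFinset (fun _ : Fin r => range K),
        (∏ i : Fin r, (zq K ^ (j i * k i))⁻¹) * ∑ n ∈ Icc 1 ⌊x⌋₊, gx (phg K u v r j) x n := by
  classical
  have hx0 : 0 ≤ x := by linarith
  have hK0 : 0 < K := by
    rcases Nat.eq_zero_or_pos K with h | h
    · subst h
      simp at hK
      linarith
    · exact h
  have hKc : (K : ℂ) ^ r ≠ 0 := pow_ne_zero _ (by exact_mod_cast hK0.ne')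
  have hset : {n : ℕ | 1 ≤ n ∧ (n : ℝ) ≤ x ∧ ∀ i < r, wc x (u i) (v i) n = k i} =
      (((Icc 1 ⌊x⌋₊).filter (fun n => ∀ i : Fin r, wc x (u i) (v i) n = k i) : Finset ℕ) : Set ℕ) := by
    ext n
    simp only [Set.mem_ofPred_eq, coe_filter, mem_Icc, Nat.le_floor_iff hx0, and_assoc]
    constructor
    · rintro ⟨h1, h2, h3⟩
      exact ⟨h1, h2, fun i => h3 i i.2⟩
    · rintro ⟨h1, h2, h3⟩
      exact ⟨h1, h2, fun i hi => h3 ⟨i, hi⟩⟩
  rw [hset, Set.ncard_coe_finset, Finset.card_filter]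
  have hcast : (((∑ n ∈ Icc 1 ⌊x⌋₊, if ∀ i : Fin r, wc x (u i) (v i) n = k i then 1 else 0 : ℕ) : ℝ) : ℂ) =
      ∑ n ∈ Icc 1 ⌊x⌋₊, (if ∀ i : Fin r, wc x (u i) (v i) n = k i then (1 : ℂ) else 0) := by
    rw [Nat.cast_sum, Complex.ofReal_sum]
    apply Finset.sum_congr rfl
    intro n _
    split_ifs <;> simp
  rw [hcast]
  have hterm : ∀ n ∈ Icc 1 ⌊x⌋₊, (if ∀ i : Fin r, wc x (u i) (v i) n = k i then (1 : ℂ) else 0) =
      (1 / (K : ℂ) ^ r) * ∑ j ∈ Fintype.piFinset (fun _ : Fin r => range K),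
        (∏ i : Fin r, (zq K ^ (j i * k i))⁻¹) * gx (phg K u v r j) x n := by
    intro n hn
    rw [mem_Icc, Nat.le_floor_iff hx0] at hn
    have hn3 : (n : ℝ) ≤ x ^ 3 := by
      have : x ≤ x ^ 3 := by nlinarith [mul_nonneg hx0 hx0]
      linarith [hn.2]
    have h := win_inv K hK0 r (fun i => k i) (fun i => wc x (u i) (v i) n) (fun i => hk i i.2)
      (fun i => wc_lt K u0 hu0 hK x hx n (by omega) hn3 _ _ (hu i i.2))
    have hg : ∀ j : Fin r → ℕ, gx (phg K u v r j) x n = ∏ i : Fin r, (zq K ^ (j i)) ^ wc x (u i) (v i) n :=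
      fun j => gx_phg K u v r j x (by linarith) n
    simp only [hg]
    rw [h]
    split_ifs
    · rw [one_div, inv_mul_cancel₀ hKc]
    · rw [mul_zero]
  rw [Finset.sum_congr rfl hterm, ← Finset.mul_sum, Finset.sum_comm]
  simp only [Finset.mul_sum]

/-- the law over the integers -/
theorem int_lawG (K : ℕ) (u0 : ℝ) (hu0 : 0 < u0) (u v : ℕ → ℝ) (r : ℕ) (hu : ∀ i < r, u0 ≤ u i ∧ u i ≤ v i)
    (hK : 3 < K * u0) (k : ℕ → ℕ) (hk : ∀ i < r, k i < K) :
    ∃ c : ℝ, (c : ℂ) = cG K u v r k ∧ Tendsto (fun x : ℝ => (Set.ncard {n : ℕ | 1 ≤ n ∧ (n : ℝ) ≤ x ∧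
      ∀ i < r, wc x (u i) (v i) n = k i} : ℝ) / x) atTop (nhds c) := by
  have hK0 : 0 < K := by
    rcases Nat.eq_zero_or_pos K with h | h
    · subst h
      simp at hK
      linarith
    · exact h
  set f : ℝ → ℝ := fun x : ℝ => (Set.ncard {n : ℕ | 1 ≤ n ∧ (n : ℝ) ≤ x ∧
      ∀ i < r, wc x (u i) (v i) n = k i} : ℝ) / x with hf
  have hlim : Tendsto (fun x : ℝ => ((f x : ℝ) : ℂ)) atTop (nhds (cG K u v r k)) := by
    have h1 : Tendsto (fun x : ℝ => (1 / (K : ℂ) ^ r) * ∑ j ∈ Fintype.piFinset (fun _ : Fin r => range K),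
        (∏ i : Fin r, (zq K ^ (j i * k i))⁻¹) * ((∑ n ∈ Icc 1 ⌊x⌋₊, gx (phg K u v r j) x n) / x))
        atTop (nhds (cG K u v r k)) := by
      unfold cG
      apply Tendsto.const_mul
      apply tendsto_finsetSum
      intro j _
      exact (mu_tendsto _ (phg_step K hK0 u v r (fun i hi => ⟨hu0.trans_le (hu i hi).1, (hu i hi).2⟩) j)).const_mul _
    refine h1.congr' ?_
    filter_upwards [eventually_ge_atTop (2 : ℝ)] with x hx
    have h2 := win_countG K u0 hu0 u v r (fun i hi => (hu i hi).1) hK k hk x hx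
    have h3 : ((f x : ℝ) : ℂ) = ((Set.ncard {n : ℕ | 1 ≤ n ∧ (n : ℝ) ≤ x ∧
      ∀ i < r, wc x (u i) (v i) n = k i} : ℝ) : ℂ) / (x : ℂ) := by
      rw [hf]
      push_cast
      rfl
    rw [h3, h2, mul_div_assoc, Finset.sum_div]
    congr 1
    apply Finset.sum_congr rfl
    intro j _
    rw [mul_div_assoc]
  have hre : Tendsto f atTop (nhds (cG K u v r k).re) := by
    have := (Complex.continuous_re.tendsto _).comp hlim
    simpa [Function.comp_def] using this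
  have him : (cG K u v r k).im = 0 := by
    have := (Complex.continuous_im.tendsto _).comp hlim
    have h0 : Tendsto (fun _ : ℝ => (0 : ℝ)) atTop (nhds (cG K u v r k).im) := by
      simpa [Function.comp_def] using this
    exact (tendsto_nhds_unique h0 tendsto_const_nhds)
  refine ⟨(cG K u v r k).re, ?_, hre⟩
  apply Complex.ext
  · simp
  · simp [him]

end Pool.Agent.LPr

end

/-! ### from `Lib_MP_f1a94e_eq.Gram` -/

section

/-!
# Piece GRAM: correlations of pairs congruent modulo the determinant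
-/

set_option autoImplicit false

namespace Pool.Agent.OmEq

open Finset Pool.Agent.GaussMR Pool.Agent.OmAll MeasureTheory Filter

open Classical in
/-- PROOF. For `e ∈ En n`: `cg n e.2 e.1` iff `cl n e = 1` (`cl_one`), and `cl n e` is a unit, so the indicator is `(1/φ(n)) ∑_χ χ (cl n e)`
(`DirichletCharacter.sum_char_inv_mul_char_eq` with `a = 1`). For each `χ` apply `pair_lim` with `f1 = f`, `f2 = conj f` (`FF.conj`), `ω1 = ω`, `ω2 = conj ω`:
`ω1 * conj ω2 = ω ^ 2 ≠ 1`. Finite sum of limits. -/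
theorem gram (n : ℕ) (hn : 0 < n) (f : ℕ → ℂ) (E : Finset ℕ) (ω : ℂ) (h : FF f E ω) (hω : ‖ω‖ = 1) (hω2 : ω ^ 2 ≠ 1)
    (b : ℝ) (W : ℝ → ℝ → ℂ) (hW : TF b W) :
    Tendsto (fun X : ℝ => (∑ e ∈ (EN n (b * X)).filter (fun e => cg n e.2 e.1),
      f (nm e.1) * (starRingEnd ℂ) (f (nm e.2)) * W (mE e / X) (tE e)) / X) atTop (nhds 0) := by
  have : NeZero n := ⟨hn.ne'⟩
  have hφ : ((n.totient : ℕ) : ℂ) ≠ 0 := by
    exact_mod_cast (Nat.totient_pos.2 hn).ne'
  have h1 : Tendsto (fun X : ℝ => ∑ χ : DirichletCharacter ℂ n, (∑ e ∈ EN n (b * X),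
      f (nm e.1) * (starRingEnd ℂ) (f (nm e.2)) * χ (cl n e) * W (mE e / X) (tE e)) / X) atTop
      (nhds (∑ _χ : DirichletCharacter ℂ n, (0 : ℂ))) := by
    refine tendsto_finsetSum _ fun χ _ => ?_
    refine pair_lim n χ E f (fun n => (starRingEnd ℂ) (f n)) ω ((starRingEnd ℂ) ω) h h.conj hω
      (by simpa using hω) b W hW (Or.inl ?_)
    rw [Complex.conj_conj, ← sq]
    exact hω2
  have h2 := h1.const_mul (((n.totient : ℕ) : ℂ)⁻¹)
  rw [Finset.sum_const_zero, mul_zero] at h2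
  refine h2.congr fun X => ?_
  rw [← Finset.sum_div, Finset.sum_comm, ← mul_div_assoc, Finset.mul_sum]
  congr 1
  rw [Finset.sum_filter]
  refine Finset.sum_congr rfl fun e he => ?_
  have hEn : En n e := ((mem_EN hn).1 he).1
  have h3 : ∑ χ : DirichletCharacter ℂ n, f (nm e.1) * (starRingEnd ℂ) (f (nm e.2)) * χ (cl n e) *
      W (mE e / X) (tE e) = (∑ χ : DirichletCharacter ℂ n, χ (cl n e)) *
        (f (nm e.1) * (starRingEnd ℂ) (f (nm e.2)) * W (mE e / X) (tE e)) := by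
    rw [Finset.sum_mul]
    exact Finset.sum_congr rfl fun χ _ => by ring
  rw [h3, DirichletCharacter.sum_characters_eq]
  by_cases hc : cg n e.2 e.1
  · rw [if_pos ((cl_one hEn).2 hc), if_pos hc, inv_mul_cancel_left₀ hφ]
  · rw [if_neg (fun h4 => hc ((cl_one hEn).1 h4)), if_neg hc]
    simp

end Pool.Agent.OmEq

end

/-! ### from `Lib_MP_f1a94e_eq.GmA` -/

section

/-!
# Piece GMA: small correlations if `ω ^ 2 ≠ 1`
-/

set_option autoImplicit false

namespace Pool.Agent.OmEq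

open Finset Pool.Agent.GaussMR Pool.Agent.OmAll MeasureTheory Filter

/-- PROOF. `N0 = J0 = 1`. For each `n`, `1 ≤ n ≤ N`, `J ≥ 1`: `apxN` with `b = (J+N)^2 h2 + 1` and `gram` for `WN h J N n` (`WN_tf`) give `Gm f h J N n (b X) X / X → 0`; finite sum over `n ≤ N`;
then `‖sum‖ ≤ ε X ≤ ε N^2 X` eventually. -/
theorem gm_small_of_ne (f : ℕ → ℂ) (E : Finset ℕ) (ω : ℂ) (h : FF f E ω) (hω : ‖ω‖ = 1) (hω2 : ω ^ 2 ≠ 1) :
    GmSmall f := by
  classical
  intro h' h1 h2 hh ε hε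
  refine ⟨1, fun N hN => ⟨1, fun J hJ => ?_⟩⟩
  set b : ℝ := ((J : ℝ) + N) ^ 2 * h2 + 1 with hb
  have h2one : (1 : ℝ) ≤ h2 := hh.one
  have hb0 : 0 < b := by
    have : 0 ≤ ((J : ℝ) + N) ^ 2 * h2 := by positivity
    linarith
  have hlim : ∀ n ∈ Icc 1 N, Tendsto (fun X : ℝ => Gm f h' J N n (b * X) X / X) atTop (nhds 0) := by
    intro n hn
    have hn1 : 1 ≤ n := (mem_Icc.mp hn).1
    have e1 := apxN f h.bd h' h1 h2 hh J N n hJ hN hn1 b hb0
    have e2 := gram n hn1 f E ω h hω hω2 b (WN h' J N n) (WN_tf h' h1 h2 hh J N n hJ hN hn1 b (by linarith))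
    have e3 := e1.add e2
    rw [add_zero] at e3
    refine e3.congr (fun X => ?_)
    ring
  have hsum := tendsto_finsetSum (Icc 1 N) hlim
  rw [Finset.sum_const_zero] at hsum
  have hev := (Metric.tendsto_nhds.mp hsum) ε hε
  filter_upwards [hev, eventually_gt_atTop (0 : ℝ)] with X hX hX0
  rw [dist_zero_right, ← Finset.sum_div, norm_div, Complex.norm_real, Real.norm_eq_abs, abs_of_pos hX0,
    div_lt_iff₀ hX0] at hX
  have hN1 : (1 : ℝ) ≤ N := by exact_mod_cast hN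
  have hN2 : (1 : ℝ) ≤ (N : ℝ) ^ 2 := one_le_pow₀ hN1
  calc ‖∑ n ∈ Icc 1 N, Gm f h' J N n (b * X) X‖ ≤ ε * X := hX.le
    _ ≤ ε * N ^ 2 * X := by
      have : ε * 1 * X ≤ ε * (N : ℝ) ^ 2 * X := by gcongr
      linarith

end Pool.Agent.OmEq

end

/-! ### from `Lib_MP_f1a94e_eq.FinA` -/

section

/-!
# Final assembly, stage A
-/

set_option autoImplicit false

namespace Pool.Agent.OmEq

open Finset Pool.Agent.GaussMR Pool.Agent.OmAll MeasureTheory Filter

theorem zq_root (q : ℕ) (hq : 0 < q) : IsPrimitiveRoot (zq q) q := by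
  unfold zq
  exact Complex.isPrimitiveRoot_exp q hq.ne'

theorem norm_zq (q : ℕ) (hq : 0 < q) (j : ℕ) : ‖zq q ^ j‖ = 1 := by
  rw [norm_pow, (zq_root q hq).norm'_eq_one hq.ne', one_pow]

theorem zq_sq_ne (q : ℕ) (hq : 0 < q) (j : ℕ) (hj : 1 ≤ j) (hjq : j < q) (h2 : 2 * j ≠ q) : (zq q ^ j) ^ 2 ≠ 1 := by
  rw [← pow_mul]
  intro h
  have h1 := (zq_root q hq).dvd_of_pow_eq_one _ h
  obtain ⟨k, hk⟩ := h1
  have hk1 : k = 0 ∨ k = 1 ∨ 2 ≤ k := by omega
  rcases hk1 with h0 | h0 | h0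
  · rw [h0] at hk; omega
  · rw [h0] at hk; omega
  · have : q * 2 ≤ q * k := Nat.mul_le_mul_left _ h0
    omega

theorem gm_small_A (q : ℕ) (hq : 0 < q) (R : ℕ) (hR : 0 < R) (j : ℕ) (hj : 1 ≤ j) (hjq : j < q) (h2 : 2 * j ≠ q) :
    GmSmall (fz R (zq q ^ j)) :=
  gm_small_of_ne _ _ _ (fz_FF R hR _ (norm_zq q hq j)) (norm_zq q hq j) (zq_sq_ne q hq j hj hjq h2)

end Pool.Agent.OmEq

end

/-! ### from `Lib_MP_f1a94e_mr.Second` -/

section

/-!
# Piece SECOND: second moment of a restricted divisor function of `m ^ 2 + 1`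
-/

set_option autoImplicit false

namespace Pool.Agent.GaussMR

open Finset in
/-- coincidences between two maps are controlled by the self coincidences -/
theorem coinc_le_sec {α β : Type} [DecidableEq α] [DecidableEq β] (s : Finset α) (t : Finset β)
    (φ : α → ℤ) (ψ : β → ℤ) :
    2 * ((((s ×ˢ t).filter (fun p => φ p.1 = ψ p.2)).card : ℕ) : ℝ) ≤
      (((s ×ˢ s).filter (fun p => φ p.1 = φ p.2)).card : ℝ) +
      (((t ×ˢ t).filter (fun p => ψ p.1 = ψ p.2)).card : ℝ) := by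
  set I : Finset ℤ := s.image φ ∪ t.image ψ with hI
  have gen : ∀ {γ δ : Type} [DecidableEq γ] [DecidableEq δ] (u : Finset γ) (v : Finset δ)
      (f : γ → ℤ) (g : δ → ℤ), (∀ x ∈ u, f x ∈ I) →
      ((((u ×ˢ v).filter (fun p => f p.1 = g p.2)).card : ℕ) : ℝ) =
        ∑ i ∈ I, ((u.filter (fun x => f x = i)).card : ℝ) * ((v.filter (fun y => g y = i)).card : ℝ) := by
    intro γ δ _ _ u v f g hf
    have h1 := Finset.card_eq_sum_card_fiberwise (f := fun p : γ × δ => f p.1)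
      (s := (u ×ˢ v).filter (fun p => f p.1 = g p.2)) (t := I) (by
        intro p hp
        have hp' := Finset.mem_coe.mp hp
        rw [mem_filter, mem_product] at hp'
        exact hf _ hp'.1.1)
    rw [h1]
    push_cast
    refine Finset.sum_congr rfl fun i _ => ?_
    rw [← Nat.cast_mul, ← Finset.card_product]
    congr 2
    ext p
    simp only [mem_filter, mem_product]
    constructor
    · rintro ⟨⟨⟨h1, h2⟩, h3⟩, h4⟩
      exact ⟨⟨h1, h4⟩, ⟨h2, by rw [← h3]; exact h4⟩⟩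
    · rintro ⟨⟨h1, h2⟩, ⟨h3, h4⟩⟩
      exact ⟨⟨⟨h1, h3⟩, by rw [h2, h4]⟩, h2⟩
  have hs : ∀ x ∈ s, φ x ∈ I := fun x hx =>
    mem_union_left _ (mem_image_of_mem φ hx)
  have ht : ∀ x ∈ t, ψ x ∈ I := fun x hx =>
    mem_union_right _ (mem_image_of_mem ψ hx)
  rw [gen s t φ ψ hs, gen s s φ φ hs, gen t t ψ ψ ht, Finset.mul_sum, ← Finset.sum_add_distrib]
  refine Finset.sum_le_sum fun i _ => ?_
  nlinarith [sq_nonneg (((s.filter (fun x => φ x = i)).card : ℝ) -
    ((t.filter (fun y => ψ y = i)).card : ℝ))]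

/-- the bin of a natural number in base `2 J` -/
noncomputable def binS (J : ℝ) (e : ℕ) : ℤ := ⌊Real.log e / Real.log (2 * J)⌋

theorem binS_close {J : ℝ} (hJ : 1 ≤ J) {e e' : ℕ} (he : 0 < e) (he' : 0 < e')
    (h : (e : ℝ) ≤ J * e') : binS J e ≤ binS J e' + 1 := by
  have hL : 0 < Real.log (2 * J) := Real.log_pos (by linarith)
  have heR : (0 : ℝ) < e := by exact_mod_cast he
  have heR' : (0 : ℝ) < e' := by exact_mod_cast he'
  have h1 : Real.log e ≤ Real.log (2 * J) + Real.log e' := by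
    rw [← Real.log_mul (by positivity) (by positivity)]
    apply Real.log_le_log heR
    nlinarith
  have h2 : Real.log e / Real.log (2 * J) ≤ Real.log e' / Real.log (2 * J) + 1 := by
    rw [div_add_one hL.ne', div_le_div_iff_of_pos_right hL]
    linarith
  unfold binS
  have h3 := Int.floor_le_floor h2
  rw [Int.floor_add_one] at h3
  exact h3

theorem binS_eq {J : ℝ} (hJ : 1 ≤ J) {e e' : ℕ} (he : 0 < e) (he' : 0 < e')
    (h : binS J e = binS J e') : (e : ℝ) ≤ (2 * J) * e' := by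
  have hL : 0 < Real.log (2 * J) := Real.log_pos (by linarith)
  have heR : (0 : ℝ) < e := by exact_mod_cast he
  have heR' : (0 : ℝ) < e' := by exact_mod_cast he'
  unfold binS at h
  have h1 := Int.lt_floor_add_one (Real.log e / Real.log (2 * J))
  have h2 := Int.floor_le (Real.log e' / Real.log (2 * J))
  rw [h] at h1
  have h3 : Real.log e / Real.log (2 * J) ≤ Real.log e' / Real.log (2 * J) + 1 := by linarith
  rw [div_add_one hL.ne', div_le_div_iff_of_pos_right hL] at h3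
  have h4 : Real.log e ≤ Real.log ((2 * J) * e') := by
    rw [Real.log_mul (by positivity) (by positivity)]
    linarith
  exact (Real.log_le_log_iff heR (by positivity)).mp h4

open Classical in
/-- close pairs of divisors of two numbers -/
noncomputable def clS (J : ℝ) (a b : ℕ) : ℕ :=
  ((a.divisors ×ˢ b.divisors).filter (fun p : ℕ × ℕ => (p.1 : ℝ) ≤ J * p.2 ∧ (p.2 : ℝ) ≤ J * p.1)).card

open Classical in
theorem self_le_dpr_sec {J : ℝ} (hJ : 1 ≤ J) (a : ℕ) (ha : a ≠ 0) (k : ℤ) :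
    ((a.divisors ×ˢ a.divisors).filter (fun p => binS J p.1 + k = binS J p.2 + k)).card ≤
      dpr (2 * J) a := by
  unfold dpr
  rw [← Set.ncard_coe_finset]
  apply Set.ncard_le_ncard
  · intro p hp
    rw [Finset.mem_coe, Finset.mem_filter, Finset.mem_product, Nat.mem_divisors,
      Nat.mem_divisors] at hp
    obtain ⟨⟨⟨h1, _⟩, ⟨h2, _⟩⟩, h3⟩ := hp
    have p1 : 0 < p.1 := Nat.pos_of_dvd_of_pos h1 (Nat.pos_of_ne_zero ha)
    have p2 : 0 < p.2 := Nat.pos_of_dvd_of_pos h2 (Nat.pos_of_ne_zero ha)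
    have h4 : binS J p.1 = binS J p.2 := by linarith
    exact ⟨h1, h2, binS_eq hJ p1 p2 h4, binS_eq hJ p2 p1 h4.symm⟩
  · refine ((a.divisors ×ˢ a.divisors).finite_toSet).subset ?_
    rintro p ⟨h1, h2, _⟩
    rw [Finset.mem_coe, Finset.mem_product, Nat.mem_divisors, Nat.mem_divisors]
    exact ⟨⟨h1, ha⟩, ⟨h2, ha⟩⟩

open Classical in
theorem clS_le {J : ℝ} (hJ : 1 ≤ J) (a b : ℕ) (ha : a ≠ 0) (hb : b ≠ 0) :
    2 * (clS J a b : ℝ) ≤ 3 * (dpr (2 * J) a + dpr (2 * J) b) := by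
  have hk : ∀ k : ℤ, 2 * ((((a.divisors ×ˢ b.divisors).filter
      (fun p : ℕ × ℕ => binS J p.1 + 0 = binS J p.2 + k)).card : ℕ) : ℝ) ≤
      dpr (2 * J) a + dpr (2 * J) b := by
    intro k
    refine (coinc_le_sec a.divisors b.divisors (fun e => binS J e + 0) (fun e => binS J e + k)).trans ?_
    have h1 := self_le_dpr_sec hJ a ha 0
    have h2 := self_le_dpr_sec hJ b hb k
    have h1' : ((((a.divisors ×ˢ a.divisors).filter
      (fun p => binS J p.1 + 0 = binS J p.2 + 0)).card : ℕ) : ℝ) ≤ dpr (2 * J) a := by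
      exact_mod_cast h1
    have h2' : ((((b.divisors ×ˢ b.divisors).filter
      (fun p => binS J p.1 + k = binS J p.2 + k)).card : ℕ) : ℝ) ≤ dpr (2 * J) b := by
      exact_mod_cast h2
    refine le_trans (le_of_eq ?_) (add_le_add h1' h2')
    congr
  have hsub : (a.divisors ×ˢ b.divisors).filter
      (fun p : ℕ × ℕ => (p.1 : ℝ) ≤ J * p.2 ∧ (p.2 : ℝ) ≤ J * p.1) ⊆
      ((a.divisors ×ˢ b.divisors).filter (fun p : ℕ × ℕ => binS J p.1 + 0 = binS J p.2 + (-1))) ∪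
      (((a.divisors ×ˢ b.divisors).filter (fun p : ℕ × ℕ => binS J p.1 + 0 = binS J p.2 + 0)) ∪
      ((a.divisors ×ˢ b.divisors).filter (fun p : ℕ × ℕ => binS J p.1 + 0 = binS J p.2 + 1))) := by
    intro p hp
    rw [Finset.mem_filter] at hp
    obtain ⟨hm, h1, h2⟩ := hp
    have hm' := hm
    rw [Finset.mem_product, Nat.mem_divisors, Nat.mem_divisors] at hm'
    have p1 : 0 < p.1 := Nat.pos_of_dvd_of_pos hm'.1.1 (Nat.pos_of_ne_zero ha)
    have p2 : 0 < p.2 := Nat.pos_of_dvd_of_pos hm'.2.1 (Nat.pos_of_ne_zero hb)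
    have c1 := binS_close hJ p1 p2 h1
    have c2 := binS_close hJ p2 p1 h2
    rw [Finset.mem_union, Finset.mem_union, Finset.mem_filter, Finset.mem_filter, Finset.mem_filter]
    have : binS J p.1 + 0 = binS J p.2 + (-1) ∨ binS J p.1 + 0 = binS J p.2 + 0 ∨
        binS J p.1 + 0 = binS J p.2 + 1 := by omega
    rcases this with h | h | h
    · exact Or.inl ⟨hm, h⟩
    · exact Or.inr (Or.inl ⟨hm, h⟩)
    · exact Or.inr (Or.inr ⟨hm, h⟩)
  have hcard : (clS J a b : ℝ) ≤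
      (((a.divisors ×ˢ b.divisors).filter (fun p : ℕ × ℕ => binS J p.1 + 0 = binS J p.2 + (-1))).card : ℝ) +
      ((((a.divisors ×ˢ b.divisors).filter (fun p : ℕ × ℕ => binS J p.1 + 0 = binS J p.2 + 0)).card : ℝ) +
      (((a.divisors ×ˢ b.divisors).filter (fun p : ℕ × ℕ => binS J p.1 + 0 = binS J p.2 + 1)).card : ℝ)) := by
    unfold clS
    have h1 := (Finset.card_le_card hsub).trans (Finset.card_union_le _ _)
    have h2 := Finset.card_union_le
      ((a.divisors ×ˢ b.divisors).filter (fun p : ℕ × ℕ => binS J p.1 + 0 = binS J p.2 + 0))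
      ((a.divisors ×ˢ b.divisors).filter (fun p : ℕ × ℕ => binS J p.1 + 0 = binS J p.2 + 1))
    have h3 := h1.trans (Nat.add_le_add_left h2 _)
    exact_mod_cast h3
  have e1 := hk (-1)
  have e2 := hk 0
  have e3 := hk 1
  linarith

open Finset in
/-- pairs of divisors of `n` in `[X / J, X]` -/
theorem sq_card_le_sec {X J : ℝ} (n : ℕ) (hn : n ≠ 0) (T : Finset ℕ)
    (hT : ∀ d ∈ T, d ∣ n ∧ X ≤ J * d ∧ (d : ℝ) ≤ X) :
    (T.card : ℝ) ^ 2 ≤ ∑ d ∈ T, (clS J d (n / d) : ℝ) := by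
  classical
  have h1 : (T ×ˢ T).card ≤ (T.sigma fun d => ((d.divisors ×ˢ (n / d).divisors).filter
      (fun p : ℕ × ℕ => (p.1 : ℝ) ≤ J * p.2 ∧ (p.2 : ℝ) ≤ J * p.1))).card := by
    apply Finset.card_le_card_of_injOn
      (fun p : ℕ × ℕ => (⟨p.1, (p.1 / Nat.gcd p.1 p.2, p.2 / Nat.gcd p.1 p.2)⟩ : (_ : ℕ) × (ℕ × ℕ)))
    · intro p hp
      have hp' := Finset.mem_coe.mp hp
      rw [mem_product] at hp'
      obtain ⟨m1, m2⟩ := hp'
      obtain ⟨d1, l1, u1⟩ := hT _ m1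
      obtain ⟨d2, l2, u2⟩ := hT _ m2
      have p1 : 0 < p.1 := Nat.pos_of_dvd_of_pos d1 (Nat.pos_of_ne_zero hn)
      have p2 : 0 < p.2 := Nat.pos_of_dvd_of_pos d2 (Nat.pos_of_ne_zero hn)
      have hg : 0 < Nat.gcd p.1 p.2 := Nat.gcd_pos_of_pos_left _ p1
      have hgR : (0 : ℝ) < Nat.gcd p.1 p.2 := by exact_mod_cast hg
      have g1 := Nat.gcd_dvd_left p.1 p.2
      have g2 := Nat.gcd_dvd_right p.1 p.2
      rw [Finset.mem_coe, mem_sigma, mem_filter, mem_product, Nat.mem_divisors, Nat.mem_divisors]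
      have hnd : n / p.1 ≠ 0 := by
        have := Nat.div_pos (Nat.le_of_dvd (Nat.pos_of_ne_zero hn) d1) p1
        omega
      refine ⟨m1, ⟨⟨⟨Nat.div_dvd_of_dvd g1, p1.ne'⟩, ⟨?_, hnd⟩⟩, ?_, ?_⟩⟩
      · -- p.2 / g divides n / p.1
        have hco : Nat.Coprime (p.2 / Nat.gcd p.1 p.2) (p.1 / Nat.gcd p.1 p.2) :=
          (Nat.coprime_div_gcd_div_gcd hg).symm
        apply hco.dvd_of_dvd_mul_left
        apply Nat.dvd_of_mul_dvd_mul_left hg
        have e1 : Nat.gcd p.1 p.2 * (p.2 / Nat.gcd p.1 p.2) = p.2 := Nat.mul_div_cancel' g2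
        have e2 : Nat.gcd p.1 p.2 * (p.1 / Nat.gcd p.1 p.2 * (n / p.1)) = n := by
          rw [← mul_assoc, Nat.mul_div_cancel' g1, Nat.mul_div_cancel' d1]
        rw [e1, e2]
        exact d2
      · have e1 : ((p.1 / Nat.gcd p.1 p.2 : ℕ) : ℝ) = (p.1 : ℝ) / (Nat.gcd p.1 p.2 : ℕ) :=
          Nat.cast_div g1 hgR.ne'
        have e2 : ((p.2 / Nat.gcd p.1 p.2 : ℕ) : ℝ) = (p.2 : ℝ) / (Nat.gcd p.1 p.2 : ℕ) :=
          Nat.cast_div g2 hgR.ne'
        simp only
        rw [e1, e2, ← mul_div_assoc]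
        apply div_le_div_of_nonneg_right _ hgR.le
        linarith
      · have e1 : ((p.1 / Nat.gcd p.1 p.2 : ℕ) : ℝ) = (p.1 : ℝ) / (Nat.gcd p.1 p.2 : ℕ) :=
          Nat.cast_div g1 hgR.ne'
        have e2 : ((p.2 / Nat.gcd p.1 p.2 : ℕ) : ℝ) = (p.2 : ℝ) / (Nat.gcd p.1 p.2 : ℕ) :=
          Nat.cast_div g2 hgR.ne'
        simp only
        rw [e1, e2, ← mul_div_assoc]
        apply div_le_div_of_nonneg_right _ hgR.le
        linarith
    · intro p hp q hq h
      have hp' := Finset.mem_coe.mp hp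
      have hq' := Finset.mem_coe.mp hq
      rw [mem_product] at hp' hq'
      have d1 := (hT _ hp'.1).1
      have d2 := (hT _ hq'.1).1
      have p1 : 0 < p.1 := Nat.pos_of_dvd_of_pos d1 (Nat.pos_of_ne_zero hn)
      have h' := Sigma.mk.inj_iff.mp h
      obtain ⟨h1, h2⟩ := h'
      have h2' := eq_of_heq h2
      have h3 := (Prod.mk.injEq _ _ _ _).mp h2'
      obtain ⟨h4, h5⟩ := h3
      have gp : 0 < Nat.gcd p.1 p.2 := Nat.gcd_pos_of_pos_left _ p1
      have gq : 0 < Nat.gcd q.1 q.2 := Nat.gcd_pos_of_pos_left _ (by rw [← h1]; exact p1)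
      have a1 : Nat.gcd p.1 p.2 * (p.1 / Nat.gcd p.1 p.2) = p.1 :=
        Nat.mul_div_cancel' (Nat.gcd_dvd_left _ _)
      have a2 : Nat.gcd p.1 p.2 * (p.2 / Nat.gcd p.1 p.2) = p.2 :=
        Nat.mul_div_cancel' (Nat.gcd_dvd_right _ _)
      have b1 : Nat.gcd q.1 q.2 * (q.1 / Nat.gcd q.1 q.2) = q.1 :=
        Nat.mul_div_cancel' (Nat.gcd_dvd_left _ _)
      have b2 : Nat.gcd q.1 q.2 * (q.2 / Nat.gcd q.1 q.2) = q.2 :=
        Nat.mul_div_cancel' (Nat.gcd_dvd_right _ _)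
      have hgg : Nat.gcd p.1 p.2 = Nat.gcd q.1 q.2 := by
        have hpos : 0 < p.1 / Nat.gcd p.1 p.2 :=
          Nat.div_pos (Nat.le_of_dvd p1 (Nat.gcd_dvd_left _ _)) gp
        apply Nat.eq_of_mul_eq_mul_right hpos
        rw [a1, h4, b1, h1]
      apply Prod.ext h1
      rw [← a2, ← b2, h5, hgg]
  have h2 : (T.card : ℝ) ^ 2 = ((T ×ˢ T).card : ℝ) := by
    rw [Finset.card_product]
    push_cast
    ring
  rw [h2]
  refine ((Nat.cast_le (α := ℝ)).mpr h1).trans ?_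
  rw [Finset.card_sigma]
  push_cast
  refine Finset.sum_le_sum fun d _ => ?_
  unfold clS
  exact le_of_eq (by congr)

/-- the divisors `d` of `m ^ 2 + 1` with `d` and `(m ^ 2 + 1) / d` in `[X / K², X]` and with at most
`W` prime factors each -/
def S2 (X K W : ℝ) (m : ℕ) : Set ℕ :=
  {d : ℕ | d ∣ m ^ 2 + 1 ∧ X ≤ K ^ 2 * d ∧ (d : ℝ) ≤ X ∧ X ≤ K ^ 2 * ((m ^ 2 + 1) / d : ℕ) ∧
    (((m ^ 2 + 1) / d : ℕ) : ℝ) ≤ X ∧ (ArithmeticFunction.cardFactors d : ℝ) ≤ W ∧
    (ArithmeticFunction.cardFactors ((m ^ 2 + 1) / d) : ℝ) ≤ W}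

theorem S2_symm {X K W : ℝ} {m d : ℕ} (h : d ∈ S2 X K W m) : (m ^ 2 + 1) / d ∈ S2 X K W m := by
  obtain ⟨h1, h2, h3, h4, h5, h6, h7⟩ := h
  have hdd : (m ^ 2 + 1) / ((m ^ 2 + 1) / d) = d := Nat.div_div_self h1 (by omega)
  refine ⟨Nat.div_dvd_of_dvd h1, h4, h5, ?_, ?_, h7, ?_⟩
  · rw [hdd]; exact h2
  · rw [hdd]; exact h3
  · rw [hdd]; exact h6

/-- Put `J = K²`. A pair `(d₁, d₂)` in `S2 m` gives `g = gcd`, `e = d₁ / g ∣ d₁`,
`e' = d₂ / g ∣ (m² + 1) / d₁`, `e / e' = d₁ / d₂ ∈ [1/J, J]`, and `(d₁, e, e')` determines `d₂`. So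
`#S2² ≤ ∑_{d ∈ S2} #{(e, e') : e ∣ d, e' ∣ d', e ~ e'}` with `d' = (m² + 1) / d`. Cut the divisors into
bins `[(2J)^i, (2J)^(i+1))`; with `D_n(i)` the number of divisors of `n` in bin `i`, as
`Ω(d), Ω(d') ≤ W`,
`#{(e,e')} ≤ ∑_{|i-i'| ≤ 1} D_d(i) D_{d'}(i') ≤ 2^W (3/2) (2^(-Ω d) ∑ D_d(i)² + 2^(-Ω d') ∑ D_{d'}(i)²)`
and `∑_i D_d(i)² ≤ dpr (2 J) d`. By the symmetry `d ↔ d'` the total is at most
`3 · 2^W ∑_{X/K² ≤ d ≤ X, N1 d} 2^(-Ω d) dpr (2J) d · #{m ≤ X : d ∣ m² + 1}`, the last factor being at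
most `τ(d) (2X/d + 1) + 1 ≤ 2^(Ω d) (2 K² + 2)` (`ParityQuad.count_roots`, `τ ≤ 2^Ω`); then `divPairs`. -/
theorem second : ∃ C : ℝ, 0 < C ∧ ∀ X K W : ℝ, 1 ≤ X → 1 ≤ K → 0 ≤ W →
    ∑ m ∈ (Finset.range (⌊X⌋₊ + 1)).filter (fun m => Even m), ((S2 X K W m).ncard : ℝ) ^ 2 ≤
      C * (2 : ℝ) ^ W * K ^ 2 * (1 + Real.log K) ^ 2 * X * (1 + Real.log (1 + Real.log X)) := by
  classical
  obtain ⟨C, hC, hdp⟩ := divPairs
  refine ⟨48 * C, by positivity, fun X K W hX hK hW => ?_⟩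
  have hX0 : 0 < X := by linarith
  have hK0 : 0 < K := by linarith
  have hK2 : (1 : ℝ) ≤ K ^ 2 := one_le_pow₀ hK
  have hN1 : 1 ≤ ⌊X⌋₊ := (Nat.one_le_floor_iff X).mpr hX
  have hNX : (⌊X⌋₊ : ℝ) ≤ X := Nat.floor_le hX0.le
  set N := ⌊X⌋₊ with hN
  set E := (Finset.range (N + 1)).filter (fun m => Even m) with hE
  set D := (Finset.Icc 1 N).filter N1 with hD
  set T : ℕ → Finset ℕ := fun m => ((m ^ 2 + 1).divisors).filter (fun d => d ∈ S2 X K W m) with hT
  set h : ℕ → ℝ := fun d => (dpr (2 * K ^ 2) d : ℝ) / 2 ^ ArithmeticFunction.cardFactors d with hh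
  have hhn : ∀ d, 0 ≤ h d := fun d => by simp only [hh]; positivity
  have hTS : ∀ m, (S2 X K W m).ncard = (T m).card := by
    intro m
    rw [← Set.ncard_coe_finset]
    congr 1
    ext d
    rw [Finset.mem_coe, Finset.mem_filter, Nat.mem_divisors]
    constructor
    · intro hd
      exact ⟨⟨hd.1, by omega⟩, hd⟩
    · intro hd
      exact hd.2
  have hmemT : ∀ m d, d ∈ T m → d ∈ S2 X K W m := fun m d hd => (Finset.mem_filter.mp hd).2
  have hmemT' : ∀ m d, d ∈ S2 X K W m → d ∈ T m := fun m d hd =>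
    Finset.mem_filter.mpr ⟨Nat.mem_divisors.mpr ⟨hd.1, by omega⟩, hd⟩
  -- step 1
  have step1 : ∀ m, ((S2 X K W m).ncard : ℝ) ^ 2 ≤ 3 * (2 : ℝ) ^ W * ∑ d ∈ T m, h d := by
    intro m
    rw [hTS m]
    refine (sq_card_le_sec (X := X) (J := K ^ 2) (m ^ 2 + 1) (by omega) (T m) (fun d hd => ?_)).trans ?_
    · obtain ⟨h1, h2, h3, _⟩ := hmemT m d hd
      exact ⟨h1, h2, h3⟩
    · have hsym : ∑ d ∈ T m, h ((m ^ 2 + 1) / d) = ∑ d ∈ T m, h d := by
        refine Finset.sum_nbij' (fun d => (m ^ 2 + 1) / d) (fun d => (m ^ 2 + 1) / d) ?_ ?_ ?_ ?_ ?_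
        · intro d hd
          exact hmemT' m _ (S2_symm (hmemT m d hd))
        · intro d hd
          exact hmemT' m _ (S2_symm (hmemT m d hd))
        · intro d hd
          exact Nat.div_div_self (hmemT m d hd).1 (by omega)
        · intro d hd
          exact Nat.div_div_self (hmemT m d hd).1 (by omega)
        · intro d _
          rfl
      have hw : ∀ e, (ArithmeticFunction.cardFactors e : ℝ) ≤ W →
          (dpr (2 * K ^ 2) e : ℝ) ≤ (2 : ℝ) ^ W * h e := by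
        intro e he
        simp only [hh]
        rw [mul_div_assoc', le_div_iff₀ (by positivity), mul_comm]
        gcongr
        rw [← Real.rpow_natCast]
        exact Real.rpow_le_rpow_of_exponent_le (by norm_num) he
      calc ∑ d ∈ T m, (clS (K ^ 2) d ((m ^ 2 + 1) / d) : ℝ)
          ≤ ∑ d ∈ T m, (3 / 2 * (2 : ℝ) ^ W * (h d + h ((m ^ 2 + 1) / d))) := by
            refine Finset.sum_le_sum fun d hd => ?_
            obtain ⟨h1, h2, h3, h4, h5, h6, h7⟩ := hmemT m d hd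
            have hd0 : d ≠ 0 := by
              rintro rfl
              rw [zero_dvd_iff] at h1
              omega
            have hd0' : (m ^ 2 + 1) / d ≠ 0 := by
              have := Nat.div_pos (Nat.le_of_dvd (by omega) h1) (Nat.pos_of_ne_zero hd0)
              omega
            have h8 := clS_le hK2 d ((m ^ 2 + 1) / d) hd0 hd0'
            have h9 := hw d h6
            have h10 := hw _ h7
            nlinarith
        _ = 3 / 2 * (2 : ℝ) ^ W * (∑ d ∈ T m, h d + ∑ d ∈ T m, h ((m ^ 2 + 1) / d)) := by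
            rw [← Finset.sum_add_distrib, Finset.mul_sum]
        _ = 3 * (2 : ℝ) ^ W * ∑ d ∈ T m, h d := by
            rw [hsym]
            ring
  -- step 2
  have step2 : ∑ m ∈ E, ∑ d ∈ T m, h d ≤ 4 * K ^ 2 * ∑ d ∈ D, (dpr (2 * K ^ 2) d : ℝ) := by
    have h1 : ∑ m ∈ E, ∑ d ∈ T m, h d = ∑ m ∈ E, ∑ d ∈ D, if d ∈ T m then h d else 0 := by
      refine Finset.sum_congr rfl fun m hm => ?_
      rw [← Finset.sum_filter]
      refine Finset.sum_congr ?_ fun _ _ => rfl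
      ext d
      constructor
      · intro hd
        refine Finset.mem_filter.mpr ⟨?_, hd⟩
        have hd' := hmemT m d hd
        have hN1 := N1_of_dvd_sq (Finset.mem_filter.mp hm).2 hd'.1
        rw [Finset.mem_filter, Finset.mem_Icc]
        exact ⟨⟨Nat.pos_of_ne_zero hN1.1, Nat.le_floor hd'.2.2.1⟩, hN1⟩
      · intro hd
        exact (Finset.mem_filter.mp hd).2
    rw [h1, Finset.sum_comm, Finset.mul_sum]
    refine Finset.sum_le_sum fun d hd => ?_
    rw [← Finset.sum_filter, Finset.sum_const, nsmul_eq_mul]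
    rw [Finset.mem_filter, Finset.mem_Icc] at hd
    have hd0 : (0 : ℝ) < d := by exact_mod_cast hd.1.1
    by_cases hc : X ≤ K ^ 2 * (d : ℝ)
    · have hsub : E.filter (fun m => d ∈ T m) ⊆
          (Finset.range (N + 1)).filter (fun m => Even m ∧ d ∣ m ^ 2 + 1) := by
        intro m hm
        rw [Finset.mem_filter, Finset.mem_filter] at hm
        rw [Finset.mem_filter]
        exact ⟨hm.1.1, hm.1.2, (hmemT m d hm.2).1⟩
      have h2 := (Nat.cast_le (α := ℝ)).mpr (Finset.card_le_card hsub)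
      have h3 := h2.trans (count_even_sec N d (by omega))
      have h4 : 2 * (N : ℝ) / d + 2 ≤ 4 * K ^ 2 := by
        have h5 : (N : ℝ) / d ≤ K ^ 2 := by
          rw [div_le_iff₀ hd0]
          linarith
        have h6 : 2 * (N : ℝ) / d = 2 * ((N : ℝ) / d) := by ring
        rw [h6]
        linarith
      have h5 : (((E.filter (fun m => d ∈ T m)).card : ℕ) : ℝ) ≤
          2 ^ ArithmeticFunction.cardFactors d * (4 * K ^ 2) := by
        refine h3.trans ?_
        gcongr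
      calc (((E.filter (fun m => d ∈ T m)).card : ℕ) : ℝ) * h d
          ≤ 2 ^ ArithmeticFunction.cardFactors d * (4 * K ^ 2) * h d :=
            mul_le_mul_of_nonneg_right h5 (hhn d)
        _ = 4 * K ^ 2 * (dpr (2 * K ^ 2) d : ℝ) := by
            simp only [hh]
            field_simp
    · have : E.filter (fun m => d ∈ T m) = ∅ := by
        rw [Finset.filter_eq_empty_iff]
        intro m _ hm
        exact hc (hmemT m d hm).2.1
      rw [this]
      simp only [Finset.card_empty, Nat.cast_zero, zero_mul]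
      positivity
  have h3 := hdp N (2 * K ^ 2) hN1 (by linarith)
  have hlogK : 0 ≤ Real.log K := Real.log_nonneg hK
  have hlogJ : 1 + Real.log (2 * K ^ 2) ≤ 2 * (1 + Real.log K) := by
    rw [Real.log_mul (by norm_num) (by positivity), Real.log_pow]
    have := Real.log_two_lt_d9
    push_cast
    linarith
  have hlogJ0 : 0 ≤ 1 + Real.log (2 * K ^ 2) := by
    have : 0 ≤ Real.log (2 * K ^ 2) := Real.log_nonneg (by linarith)
    linarith
  have hlN0 : 0 ≤ Real.log (N : ℝ) := Real.log_nonneg (by exact_mod_cast hN1)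
  have hlN : Real.log (N : ℝ) ≤ Real.log X := Real.log_le_log (by exact_mod_cast hN1) hNX
  have hll : 1 + Real.log (1 + Real.log (N : ℝ)) ≤ 1 + Real.log (1 + Real.log X) := by
    have := Real.log_le_log (by linarith : (0 : ℝ) < 1 + Real.log (N : ℝ))
      (by linarith : 1 + Real.log (N : ℝ) ≤ 1 + Real.log X)
    linarith
  have hll0 : 0 ≤ 1 + Real.log (1 + Real.log (N : ℝ)) := by
    have : 0 ≤ Real.log (1 + Real.log (N : ℝ)) := Real.log_nonneg (by linarith)
    linarith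
  calc ∑ m ∈ E, ((S2 X K W m).ncard : ℝ) ^ 2
      ≤ ∑ m ∈ E, 3 * (2 : ℝ) ^ W * ∑ d ∈ T m, h d := Finset.sum_le_sum fun m _ => step1 m
    _ = 3 * (2 : ℝ) ^ W * ∑ m ∈ E, ∑ d ∈ T m, h d := by rw [Finset.mul_sum]
    _ ≤ 3 * (2 : ℝ) ^ W * (4 * K ^ 2 * ∑ d ∈ D, (dpr (2 * K ^ 2) d : ℝ)) := by gcongr
    _ ≤ 3 * (2 : ℝ) ^ W * (4 * K ^ 2 * (C * X * (2 * (1 + Real.log K)) ^ 2 *
        (1 + Real.log (1 + Real.log X)))) := by
        have h4 : C * (N : ℝ) * (1 + Real.log (2 * K ^ 2)) ^ 2 *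
            (1 + Real.log (1 + Real.log (N : ℝ))) ≤ C * X * (2 * (1 + Real.log K)) ^ 2 *
            (1 + Real.log (1 + Real.log X)) := by gcongr
        have h5 := h3.trans h4
        gcongr
    _ = 48 * C * (2 : ℝ) ^ W * K ^ 2 * (1 + Real.log K) ^ 2 * X *
        (1 + Real.log (1 + Real.log X)) := by ring

end Pool.Agent.GaussMR

end
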