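import Mathlib
import Pool.Agent.Lib_MP_f1a94e_m.G21
import Pool.Agent.Lib_MP_f1a94e_m.G22
import Pool.Agent.Lib_MP_f1a94e_m.G23
import Pool.Agent.Lib_MP_f1a94e_m.G25
import Pool.Agent.Lib_MP_f1a94e_m.G26
import Pool.Agent.Lib_MP_f1a94e_m.G27
import Pool.Agent.Lib_MP_f1a94e_m.G28

/-!
# MP_f1a94e_nt: merged library part G29

Concatenation of files of the libraries `Lib_MP_f1a94e_*` (each in its own section), only to save build time.
-/

/-! ### from `Lib_MP_f1a94e_lp.CsX` -/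

section

/-!
# Piece CSX: sums over residue classes
-/

set_option autoImplicit false

namespace Pool.Agent.LPr

open Finset Pool.Agent.GaussMR Pool.Agent.GaussCM Pool.Agent.OmAll Pool.Agent.OmEq Pool.Agent.ECM Filter

private theorem csx_fc0 (F : G → ℂ) (X : ℝ) : fcC F X 0 = ∑ z ∈ V X, F z := by
  unfold fcC
  refine Finset.sum_congr rfl fun z _ => ?_
  simp [xi]

private theorem csx_fz_le (R : ℕ) (hR : 0 < R) (w : ℂ) (hw : w = 1 ∨ w = -1) (n : ℕ) :
    ‖fz R w n‖ ≤ 1 := by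
  have h : ‖w‖ = 1 := by rcases hw with h | h <;> simp [h]
  exact (fz_UF R hR w h).bd n

private theorem csx_chi (R : ℕ) (hR : 0 < R) (D : ℕ) (χ : G → ℂ) (hχ : Chi D χ) :
    Chi (D * R) (fun z => fz R 1 (nm z) * χ z) := by
  have hU := fz_UF R hR (1 : ℂ) (by simp)
  refine ⟨?_, ?_, ?_, ?_, ?_⟩
  · have h1 : nm (1 : G) = 1 := by
      have : (nm (1 : G) : ℤ) = 1 := by rw [nm_eq]; simp
      exact_mod_cast this
    simp only [h1, hU.one, hχ.one, mul_one]
  · intro z w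
    simp only [nm_mul, hU.mul, hχ.mul]
    ring
  · intro z w hzw
    have hcD : cg D z w := by
      refine ⟨?_, ?_⟩
      · exact (Dvd.intro (R : ℤ) (by push_cast; rfl)).trans hzw.1
      · exact (Dvd.intro (R : ℤ) (by push_cast; rfl)).trans hzw.2
    have hcR : cg R z w := by
      refine ⟨?_, ?_⟩
      · exact (Dvd.intro_left (D : ℤ) (by push_cast; rfl)).trans hzw.1
      · exact (Dvd.intro_left (D : ℤ) (by push_cast; rfl)).trans hzw.2
    have hper := hχ.per z w hcD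
    show fz R 1 (nm z) * χ z = fz R 1 (nm w) * χ w
    rw [hper]
    by_cases hw0 : χ w = 0
    · rw [hw0, mul_zero, mul_zero]
    have hz1 : nm z ≠ 0 := by
      intro h0
      apply hw0
      rw [← hper]
      exact hχ.even z (by rw [h0]; decide)
    have hw1 : nm w ≠ 0 := by
      intro h0
      apply hw0
      exact hχ.even w (by rw [h0]; decide)
    congr 1
    have hmod : (R : ℤ) ∣ (nm z : ℤ) - nm w := by
      rw [nm_eq, nm_eq]
      have e : z.re ^ 2 + z.im ^ 2 - (w.re ^ 2 + w.im ^ 2) =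
          (z.re - w.re) * (z.re + w.re) + (z.im - w.im) * (z.im + w.im) := by ring
      rw [e]
      exact dvd_add (hcR.1.mul_right _) (hcR.2.mul_right _)
    have hme : nm w ≡ nm z [MOD R] := (Nat.modEq_iff_dvd).2 hmod
    have hco : (nm z).Coprime R ↔ (nm w).Coprime R := by
      unfold Nat.Coprime
      rw [hme.gcd_eq]
    unfold fz
    simp only [hz1, hw1, false_or, one_pow, hco]
  · intro z hz
    simp only [hχ.even z hz, mul_zero]
  · intro z
    rw [norm_mul]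
    exact mul_le_one₀ (hU.bd _) (norm_nonneg _) (hχ.le z)

/-- PROOF. `ψ z = fz R w (nm z) * χ z`. `w = 1`: `ψ` is a `Chi (D * R)` (values of `fz R 1` are `0`, `1`, the value at `nm z` depends on `z` modulo `R` for `z ≠ 0`, and `χ` vanishes on the even elements, in particular at `0`), so `base_chi` gives `ρ`, and either `ρ = 0` or `ψ = 1` at the primes of large norm.
`w = -1`: `ψ = FL χ'`, `χ' z = fz R 1 (nm z) * χ z`, `Chi (D * R) χ'`; `zero_freq` gives `∑_(V Y) ψ z / Y → 0` (`fcC F Y 0 = ∑_(V Y) F z`, as `xi (-0) z = 1`). -/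
theorem csx_base (R : ℕ) (hR : 0 < R) (w : ℂ) (hw : w = 1 ∨ w = -1) (D : ℕ) (hD : 0 < D) (χ : G → ℂ) (hχ : Chi D χ) :
    CM (fun z => fz R w (nm z) * χ z) ∧ ∃ ρ : ℂ, Tendsto (fun Y : ℝ => (∑ z ∈ V Y, fz R w (nm z) * χ z) / Y) atTop (nhds ρ) ∧
      (ρ = 0 ∨ ∃ P : ℕ, ∀ w' : G, Spl w' → P ≤ nm w' → fz R w (nm w') * χ w' = 1) ∧ (w = -1 → ρ = 0) := by
  have hw1 : ‖w‖ = 1 := by rcases hw with h | h <;> simp [h]
  have hU := fz_UF R hR w hw1
  refine ⟨cm_FG D χ hχ (fz R w) hU.mul hU.bd, ?_⟩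
  have hχ' := csx_chi R hR D χ hχ
  rcases hw with h | h
  · subst h
    obtain ⟨ρ, h1, h2⟩ := base_chi (D * R) (Nat.mul_pos hD hR) _ hχ'
    refine ⟨ρ, h1, ?_, ?_⟩
    · rcases h2 with h2 | h2
      · exact Or.inl h2
      · refine Or.inr ⟨(D * R) ^ 2 + 1, fun w' hw' hP => ?_⟩
        refine h2 w' hw'.prime ?_
        have h3 : (((D * R) ^ 2 + 1 : ℕ) : ℝ) ≤ (nm w' : ℝ) := by exact_mod_cast hP
        push_cast at h3 ⊢
        linarith
    · intro h3
      norm_num at h3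
  · subst h
    refine ⟨0, ?_, Or.inl rfl, fun _ => rfl⟩
    have hFL : ∀ z : G, fz R (-1) (nm z) * χ z = FL (fun z => fz R 1 (nm z) * χ z) z := by
      intro z
      show fz R (-1) (nm z) * χ z =
        (-1 : ℂ) ^ ArithmeticFunction.cardFactors (nm z) * (fz R 1 (nm z) * χ z)
      unfold fz
      by_cases h0 : nm z = 0 ∨ ¬ (nm z).Coprime R
      · rw [if_pos h0, if_pos h0, zero_mul, mul_zero]
      · rw [if_neg h0, if_neg h0, one_pow, one_mul]
    rw [Metric.tendsto_atTop]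
    intro ε hε
    obtain ⟨X0, hX0⟩ := zero_freq (D * R) (Nat.mul_pos hD hR) _ hχ' (ε / 2) (half_pos hε)
    refine ⟨max X0 1, fun X hX => ?_⟩
    have hXp : 0 < X := lt_of_lt_of_le one_pos ((le_max_right _ _).trans hX)
    have h1 := hX0 X ((le_max_left _ _).trans hX)
    rw [csx_fc0] at h1
    rw [dist_zero_right, norm_div, Complex.norm_real, Real.norm_eq_abs, abs_of_pos hXp]
    have h2 : (∑ z ∈ V X, fz R (-1) (nm z) * χ z) =
        ∑ z ∈ V X, FL (fun z => fz R 1 (nm z) * χ z) z := Finset.sum_congr rfl fun z _ => hFL z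
    rw [h2, div_lt_iff₀ hXp]
    nlinarith

/-- PROOF. `arc_decG D hD b` (second identity) for `f = fx R w φ (a X)` and for `f = fz R w`: with `ψ_i z = fz R w (nm z) χ_i z`, `clS (fx R w φ (a X)) D b X = fx R w φ (a X) m * ∑_i c_i ∑_(z ∈ V (X / m)) ψ_i z gx φ (a X) (nm z)` (`fx_eq`; `fcC F Y 0 = ∑_(V Y) F z`). With `X' = a X`, `X / m = (1 / (a m)) X'`:
`vmean` gives `∑_(z ∈ V (X/m)) ψ_i z gx φ (a X) (nm z) / X → a * (ρ_i / (a m)) mu φ = (ρ_i / m) mu φ`, and `∑_(z ∈ V (X/m)) ψ_i z / X → ρ_i / m`; `fx R w φ (a X) m = fz R w m` for large `X` (`gx_small`). So `clS (fx R w φ (a X)) D b X / X - mu φ * clS (fz R w) D b X / X → 0`. If `w = 1`, `mm w φ = mu φ`. If `w = -1`: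
all `ρ_i = 0`, so both quotients tend to `0`, and `mm w φ = 0`. -/
theorem csx (R : ℕ) (hR : 0 < R) (w : ℂ) (hw : w = 1 ∨ w = -1) (φ : ℝ → ℂ) (hφ : StepF φ) :
    CSX (fun X n => (fx R w φ X n - mm w φ * fz R w n) / 2) := by
  classical
  intro D hD b a ha
  have hw1 : ‖w‖ = 1 := by rcases hw with h | h <;> simp [h]
  have hU := fz_UF R hR w hw1
  obtain ⟨D', n, χ, c, m, φ0, hD', hm, hχ, hc, hdec⟩ := arc_decG D hD b
  have h0 := fun i => csx_base R hR w hw D' hD' (χ i) (hχ i)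
  choose ρ hρ hr hz using fun i => (h0 i).2
  have hmR : (0 : ℝ) < m := by exact_mod_cast hm
  have hmC : (m : ℂ) ≠ 0 := by exact_mod_cast hm.ne'
  have hfx : ∀ X : ℝ, clS (fx R w φ (a * X)) D b X = fx R w φ (a * X) m *
      ∑ i, c i * ∑ z ∈ V (X / m), fz R w (nm z) * χ i z * gx φ (a * X) (nm z) := by
    intro X
    rw [(hdec (fx R w φ (a * X)) (fx_mul R w φ (a * X))).2 X]
    congr 1
    refine Finset.sum_congr rfl fun i _ => ?_
    rw [csx_fc0]
    congr 1
    refine Finset.sum_congr rfl fun z _ => ?_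
    unfold FG
    rw [fx_eq]
    ring
  have hfz : ∀ X : ℝ, clS (fz R w) D b X = fz R w m *
      ∑ i, c i * ∑ z ∈ V (X / m), fz R w (nm z) * χ i z := by
    intro X
    rw [(hdec (fz R w) hU.mul).2 X]
    congr 1
    refine Finset.sum_congr rfl fun i _ => ?_
    rw [csx_fc0]
    rfl
  have T1 : ∀ i, Tendsto (fun X : ℝ => (∑ z ∈ V (X / m), fz R w (nm z) * χ i z) / X) atTop
      (nhds (ρ i / m)) := by
    intro i
    have h1 := ((hρ i).comp (tendsto_id.atTop_div_const hmR)).div_const (m : ℂ)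
    refine h1.congr fun X => ?_
    simp only [Function.comp, id]
    push_cast
    field_simp
  have T2 : ∀ i, Tendsto (fun X : ℝ => (∑ z ∈ V (X / m), fz R w (nm z) * χ i z *
      gx φ (a * X) (nm z)) / X) atTop (nhds (ρ i / m * mu φ)) := by
    intro i
    have h1 := vmean _ (h0 i).1 (ρ i) (hρ i) (hr i) φ hφ (1 / (a * m)) (by positivity)
    have h2 := (h1.comp (tendsto_id.const_mul_atTop ha)).const_mul (a : ℂ)
    have haC : (a : ℂ) ≠ 0 := by exact_mod_cast ha.ne'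
    have e : (a : ℂ) * (ρ i * ((1 / (a * m) : ℝ) : ℂ) * mu φ) = ρ i / m * mu φ := by
      push_cast
      field_simp
    rw [e] at h2
    refine h2.congr fun X => ?_
    simp only [Function.comp, id]
    have e2 : 1 / (a * m) * (a * X) = X / m := by field_simp
    rw [e2]
    push_cast
    rw [← mul_div_assoc, mul_div_mul_left _ _ haC]
  have hev : ∀ᶠ X : ℝ in atTop, fx R w φ (a * X) m = fz R w m := by
    filter_upwards [(tendsto_id.const_mul_atTop ha).eventually (gx_small φ hφ m)] with X hX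
    rw [fx_eq]
    have := hX m le_rfl
    simp only [id] at this
    rw [this, mul_one]
  have L1 : Tendsto (fun X : ℝ => clS (fz R w) D b X / X) atTop
      (nhds (fz R w m * ∑ i, c i * (ρ i / m))) := by
    have h1 : Tendsto (fun X : ℝ => fz R w m * ∑ i, c i *
        ((∑ z ∈ V (X / m), fz R w (nm z) * χ i z) / X)) atTop
        (nhds (fz R w m * ∑ i, c i * (ρ i / m))) :=
      (tendsto_finsetSum _ fun i _ => (T1 i).const_mul (c i)).const_mul _
    refine h1.congr fun X => ?_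
    rw [hfz, mul_div_assoc, Finset.sum_div]
    simp only [mul_div_assoc]
  have L2 : Tendsto (fun X : ℝ => clS (fx R w φ (a * X)) D b X / X) atTop
      (nhds (fz R w m * ∑ i, c i * (ρ i / m * mu φ))) := by
    have h1 : Tendsto (fun X : ℝ => fz R w m * ∑ i, c i *
        ((∑ z ∈ V (X / m), fz R w (nm z) * χ i z * gx φ (a * X) (nm z)) / X)) atTop
        (nhds (fz R w m * ∑ i, c i * (ρ i / m * mu φ))) :=
      (tendsto_finsetSum _ fun i _ => (T2 i).const_mul (c i)).const_mul _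
    refine h1.congr' ?_
    filter_upwards [hev] with X hX
    rw [hfx, hX, mul_div_assoc, Finset.sum_div]
    simp only [mul_div_assoc]
  have hlin : ∀ X : ℝ, clS (fun k => (fx R w φ (a * X) k - mm w φ * fz R w k) / 2) D b X / X =
      (clS (fx R w φ (a * X)) D b X / X - mm w φ * (clS (fz R w) D b X / X)) / 2 := by
    intro X
    unfold clS
    rw [← Finset.sum_div, Finset.sum_sub_distrib, ← Finset.mul_sum]
    ring
  have L3 := (L2.sub (L1.const_mul (mm w φ))).div_const 2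
  have e3 : (fz R w m * ∑ i, c i * (ρ i / m * mu φ) -
      mm w φ * (fz R w m * ∑ i, c i * (ρ i / m))) / 2 = 0 := by
    rcases hw with h | h
    · have h4 : mm w φ = mu φ := by unfold mm; rw [if_pos h]
      have h5 : ∑ i, c i * (ρ i / m * mu φ) = mu φ * ∑ i, c i * (ρ i / m) := by
        rw [Finset.mul_sum]
        refine Finset.sum_congr rfl fun i _ => ?_
        ring
      rw [h4, h5]
      ring
    · have h4 : ∀ i, ρ i = 0 := fun i => hz i h
      simp [h4]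
  rw [e3] at L3
  refine L3.congr fun X => ?_
  exact (hlin X).symm

end Pool.Agent.LPr

end

/-! ### from `Lib_MP_f1a94e_lp.SxLim` -/

section

/-!
# Limits of the sums over edges
-/

set_option autoImplicit false

namespace Pool.Agent.LPr

open Finset Pool.Agent.GaussMR Pool.Agent.OmAll Pool.Agent.OmEq MeasureTheory Filter

theorem mm_le (w : ℂ) (φ : ℝ → ℂ) (hφ : StepF φ) : ‖mm w φ‖ ≤ 1 := by
  unfold mm
  split_ifs
  · exact mu_le φ hφ
  · simp

theorem norm_comb (a b μ : ℂ) (ha : ‖a‖ ≤ 1) (hb : ‖b‖ ≤ 1) (hμ : ‖μ‖ ≤ 1) : ‖(a - μ * b) / 2‖ ≤ 1 := by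
  rw [norm_div]
  have h1 : ‖a - μ * b‖ ≤ 1 + 1 * 1 := by
    refine (norm_sub_le _ _).trans (add_le_add ha ?_)
    rw [norm_mul]
    exact mul_le_mul hμ hb (norm_nonneg _) zero_le_one
  have h2 : ‖(2 : ℂ)‖ = 2 := by simp
  rw [h2, div_le_one (by norm_num)]
  linarith

/-- `w = 1, -1`: the difference to a multiple of the base function is small on average -/
theorem gm_pm (R : ℕ) (hR : 0 < R) (w : ℂ) (hw : w = 1 ∨ w = -1) (φ : ℝ → ℂ) (hφ : StepF φ) :
    GmSmallX (fun X n => (fx R w φ X n - mm w φ * fz R w n) / 2) := by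
  have hw1 : ‖w‖ = 1 := by rcases hw with h | h <;> simp [h]
  have h1 := fx_FX R hR w hw1 φ hφ
  have h0 := fz_FX R hR w hw1
  have hbd : ∀ (X : ℝ) (n : ℕ), ‖(fx R w φ X n - mm w φ * fz R w n) / 2‖ ≤ 1 := fun X n =>
    norm_comb _ _ _ (h1.bd X n) (h0.bd X n) (mm_le w φ hφ)
  have hM : MROX (fun X n => (fx R w φ X n - mm w φ * fz R w n) / 2) :=
    mroX R (fx R w φ) (fz R w) (mm w φ) (mm_le w φ hφ) (fun X => fx_UF R hR w hw1 φ hφ.un X) (fz_UF R hR w hw1)
      (csx R hR w hw φ hφ)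
  have h2 : ∀ᶠ X : ℝ in atTop, ∀ n : ℕ, (fx R w φ X (2 * n) - mm w φ * fz R w (2 * n)) / 2 =
      (if 2 ∣ R then 0 else w) * ((fx R w φ X n - mm w φ * fz R w n) / 2) := by
    filter_upwards [fx_two R hR w φ hφ] with X hX n
    rw [hX, fz_two R hR]
    ring
  have hc : ‖(if 2 ∣ R then 0 else w : ℂ)‖ ≤ 1 := by
    split_ifs
    · simp
    · exact hw1.le
  have hMP := mrpX _ hbd _ hc h2 hM
  exact redB_X _ hbd (comb_GBX _ w hw1 _ _ h1 h0 _) (comb_TVX _ w hw1 _ _ h1 h0 _) (dsumX _ hbd (qdsX _ hbd hMP))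

theorem sx2_comb (f1 f f0 : ℕ → ℂ) (μ : ℂ) (x : ℝ) (W : ℝ → ℝ → ℂ) (X : ℝ) :
    Sx2 f1 (fun n => (f n - μ * f0 n) / 2) x W X = (Sx2 f1 f x W X - μ * Sx2 f1 f0 x W X) / 2 := by
  unfold Sx2
  rw [mul_sum, ← sum_sub_distrib, sum_div]
  refine sum_congr rfl fun e _ => ?_
  ring

/-- replace the second function by its multiple of the base function -/
theorem sx_second (R : ℕ) (hR : 0 < R) (w : ℂ) (hw : w = 1 ∨ w = -1) (φ : ℝ → ℂ) (hφ : StepF φ) (f1 : ℝ → ℕ → ℂ)
    (h1 : FX f1 R.primeFactors w) (b : ℝ) (W : ℝ → ℝ → ℂ) (hW : TF b W) :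
    Tendsto (fun X : ℝ => (Sx2 (f1 X) (fx R w φ X) (b * X) W X - mm w φ * Sx2 (f1 X) (fz R w) (b * X) W X) / X)
      atTop (nhds 0) := by
  have hw1 : ‖w‖ = 1 := by rcases hw with h | h <;> simp [h]
  have h2 := fx_FX R hR w hw1 φ hφ
  have h0 := fz_FX R hR w hw1
  have hbd : ∀ (X : ℝ) (n : ℕ), ‖(fx R w φ X n - mm w φ * fz R w n) / 2‖ ≤ 1 := fun X n =>
    norm_comb _ _ _ (h2.bd X n) (h0.bd X n) (mm_le w φ hφ)
  have h := smX f1 _ h1.bd hbd (comb_PTX _ w hw1 _ _ _ h1 h2 h0 (mm w φ)) (gm_pm R hR w hw φ hφ) b W hW 1 one_pos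
  have h' := h.const_mul 2
  rw [mul_zero] at h'
  refine h'.congr fun X => ?_
  rw [one_mul, sx2_comb]
  ring

/-- exchange of the two vectors -/
theorem sx2_swap (f1 f2 : ℕ → ℂ) (x : ℝ) (W : ℝ → ℝ → ℂ) (X : ℝ) :
    Sx2 f1 f2 x W X = Sx2 f2 f1 x (fun y t => W y (-t)) X := by
  have hEn : ∀ e : G × G, En 1 e → En 1 (star e.2, star e.1) := by
    rintro ⟨U, W'⟩ ⟨h1, h2, h3, h4⟩
    have hdet : det (star W') (star U) = det U W' := by
      simp [det]
      ring
    have hdot : dot (star W') (star U) = dot U W' := by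
      simp [dot]
      ring
    refine ⟨?_, ?_, ?_, 0, ?_, ?_⟩
    · show det (star W') (star U) = ((1 : ℕ) : ℤ)
      rw [hdet]
      exact h1
    · show 0 < dot (star W') (star U)
      rw [hdot]
      exact h2
    · show IsCoprime (star W').re (star W').im
      have h5 : U.re * W'.im - U.im * W'.re = 1 := by simpa [det] using h1
      refine ⟨-U.im, -U.re, ?_⟩
      simp
      linarith
    · rw [Nat.cast_one]
      exact isCoprime_one_right
    · constructor
      · rw [Nat.cast_one]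
        exact one_dvd _
      · rw [Nat.cast_one]
        exact one_dvd _
  have hmE : ∀ e : G × G, mE (star e.2, star e.1) = mE e := by
    intro e
    unfold mE
    have : dot (star e.2) (star e.1) = dot e.1 e.2 := by
      simp [dot]
      ring
    simp only [this]
  have htE : ∀ e : G × G, tE (star e.2, star e.1) = -tE e := by
    intro e
    unfold tE
    simp only [nm_star]
    ring
  unfold Sx2
  refine sum_bij (fun e _ => (star e.2, star e.1)) ?_ ?_ ?_ ?_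
  · intro e he
    rw [mem_EN one_pos] at he ⊢
    exact ⟨hEn e he.1, by rw [hmE]; exact he.2⟩
  · rintro ⟨a, b⟩ _ ⟨c, d⟩ _ h
    simp only [Prod.mk.injEq] at h
    exact Prod.ext (star_injective h.2) (star_injective h.1)
  · intro e he
    refine ⟨(star e.2, star e.1), ?_, ?_⟩
    · rw [mem_EN one_pos] at he ⊢
      exact ⟨hEn e he.1, by rw [hmE]; exact he.2⟩
    · simp
  · intro e _
    simp only [hmE, htE, neg_neg, nm_star]
    ring

theorem tf_neg {b : ℝ} {W : ℝ → ℝ → ℂ} (hW : TF b W) : TF b (fun y t => W y (-t)) := by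
  refine ⟨?_, ?_, fun y t h => hW.lo y (-t) h, fun y t h => hW.hi y (-t) h⟩
  · exact hW.cont.comp (continuous_fst.prodMk continuous_snd.neg)
  · exact hW.supp.comp_homeomorph ((Homeomorph.refl ℝ).prodCongr (Homeomorph.neg ℝ))

/-- the same `w` at both places -/
theorem sx_self (R : ℕ) (hR : 0 < R) (w : ℂ) (hw1 : ‖w‖ = 1) (φ1 φ2 : ℝ → ℂ) (hφ1 : StepF φ1) (hφ2 : StepF φ2)
    (b : ℝ) (W : ℝ → ℝ → ℂ) (hW : TF b W) :
    Tendsto (fun X : ℝ => (Sx2 (fx R w φ1 X) (fx R w φ2 X) (b * X) W X -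
      mm w φ1 * mm w φ2 * Sx2 (fz R w) (fz R w) (b * X) W X) / X) atTop (nhds 0) := by
  have h1 := fx_FX R hR w hw1 φ1 hφ1
  have h2 := fx_FX R hR w hw1 φ2 hφ2
  have h0 := fz_FX R hR w hw1
  by_cases hw2 : w ^ 2 = 1
  · have hw : w = 1 ∨ w = -1 := by
      have h4 : (w - 1) * (w + 1) = 0 := by linear_combination hw2
      rcases mul_eq_zero.1 h4 with h5 | h5
      · exact Or.inl (sub_eq_zero.1 h5)
      · exact Or.inr (eq_neg_of_add_eq_zero_left h5)
    have t1 := sx_second R hR w hw φ2 hφ2 (fx R w φ1) h1 b W hW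
    have t2 := sx_second R hR w hw φ1 hφ1 (fun _ => fz R w) h0 b (fun y t => W y (-t)) (tf_neg hW)
    have t := t1.add (t2.const_mul (mm w φ2))
    rw [mul_zero, add_zero] at t
    refine t.congr fun X => ?_
    rw [sx2_swap (fx R w φ1 X) (fz R w), sx2_swap (fz R w) (fz R w) (b * X) W]
    ring
  · have hmm : mm w φ1 = 0 := by
      unfold mm
      rw [if_neg]
      rintro rfl
      exact hw2 (one_pow 2)
    have hP : PTX (fx R w φ1) (fx R w φ2) := ptx _ _ _ w w h1 h2 hw1 hw1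
    have h := smX _ _ h1.bd h2.bd hP (gmA_X _ h2.bd (gax _ w hw1 hw2 _ h2)) b W hW 1 one_pos
    refine h.congr fun X => ?_
    rw [one_mul, hmm, zero_mul, zero_mul, sub_zero]

/-- general case -/
theorem sx_lim (R : ℕ) (hR : 0 < R) (w1 w2 : ℂ) (hw1 : ‖w1‖ = 1) (hw2 : ‖w2‖ = 1) (φ1 φ2 : ℝ → ℂ) (hφ1 : StepF φ1)
    (hφ2 : StepF φ2) (b : ℝ) (W : ℝ → ℝ → ℂ) (hW : TF b W) :
    Tendsto (fun X : ℝ => (Sx2 (fx R w1 φ1 X) (fx R w2 φ2 X) (b * X) W X -
      mm w1 φ1 * mm w2 φ2 * Sx2 (fz R 1) (fz R 1) (b * X) W X) / X) atTop (nhds 0) := by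
  by_cases h : w1 = w2
  · subst h
    have t := sx_self R hR w1 hw1 φ1 φ2 hφ1 hφ2 b W hW
    by_cases hw : w1 = 1
    · subst hw
      exact t
    · have hmm : mm w1 φ1 = 0 := by
        unfold mm
        rw [if_neg hw]
      rw [hmm] at t ⊢
      simpa using t
  · have hmm : mm w1 φ1 * mm w2 φ2 = 0 := by
      unfold mm
      by_cases hw : w1 = 1
      · have h' : w2 ≠ 1 := fun h' => h (hw.trans h'.symm)
        rw [if_neg h', mul_zero]
      · rw [if_neg hw, zero_mul]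
    have t := edge_limT _ _ _ w1 w2 (fx_FX R hR w1 hw1 φ1 hφ1) (fx_FX R hR w2 hw2 φ2 hφ2) hw1 hw2 b W hW (Or.inl h)
    refine t.congr fun X => ?_
    rw [hmm, zero_mul, sub_zero]

/-- sharp conditions -/
theorem shp_lim (R : ℕ) (hR : 0 < R) : ∃ κ : ℝ, 0 < κ ∧
    (∀ s t : ℝ, s ≤ t → Tendsto (fun X : ℝ => (((EN 1 X).filter (fun e => (s ≤ tE e ∧ tE e ≤ t) ∧
      (nm e.1 * nm e.2).Coprime R)).card : ℝ) / X) atTop (nhds (κ * (t - s)))) ∧
    ∀ w1 w2 : ℂ, ‖w1‖ = 1 → ‖w2‖ = 1 → ∀ φ1 φ2 : ℝ → ℂ, StepF φ1 → StepF φ2 → ∀ s t : ℝ, s ≤ t →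
      Tendsto (fun X : ℝ => (∑ e ∈ (EN 1 X).filter (fun e => s ≤ tE e ∧ tE e ≤ t),
        fx R w1 φ1 X (nm e.1) * fx R w2 φ2 X (nm e.2)) / X) atTop
          (nhds (mm w1 φ1 * mm w2 φ2 * ((κ * (t - s) : ℝ) : ℂ))) := by
  obtain ⟨κ, hκ, hlim⟩ := totR R hR
  refine ⟨κ, hκ, hlim, fun w1 w2 hw1 hw2 φ1 φ2 hφ1 hφ2 s t hst => ?_⟩
  set ν : ℂ := mm w1 φ1 * mm w2 φ2 with hν
  have h1 := fx_FX R hR w1 hw1 φ1 hφ1
  have h2 := fx_FX R hR w2 hw2 φ2 hφ2
  have h0 := fz_FX R hR 1 (by simp)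
  have hνn : ‖ν‖ ≤ 1 := by
    rw [hν, norm_mul]
    exact mul_le_one₀ (mm_le w1 φ1 hφ1) (norm_nonneg _) (mm_le w2 φ2 hφ2)
  have hsh := sharpX (fun X e => (fx R w1 φ1 X (nm e.1) * fx R w2 φ2 X (nm e.2) -
      ν * (fz R 1 (nm e.1) * fz R 1 (nm e.2))) / 2) (fun X e => by
        refine norm_comb _ _ _ ?_ ?_ hνn
        · rw [norm_mul]
          exact mul_le_one₀ (h1.bd X _) (norm_nonneg _) (h2.bd X _)
        · rw [norm_mul]
          exact mul_le_one₀ (h0.bd X _) (norm_nonneg _) (h0.bd X _)) (fun b W hW => by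
        have h := (sx_lim R hR w1 w2 hw1 hw2 φ1 φ2 hφ1 hφ2 b W hW).div_const 2
        rw [zero_div] at h
        refine h.congr fun X => ?_
        unfold Sx2
        rw [mul_sum, ← sum_sub_distrib, div_right_comm, sum_div]
        congr 1
        refine sum_congr rfl fun e _ => ?_
        ring) s t hst
  have hc := (Complex.continuous_ofReal.tendsto (κ * (t - s))).comp (hlim s t hst)
  have h3 := (hsh.const_mul 2).add (hc.const_mul ν)
  rw [mul_zero, zero_add] at h3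
  refine h3.congr fun X => ?_
  have h4 : ∑ e ∈ (EN 1 X).filter (fun e => s ≤ tE e ∧ tE e ≤ t), fz R 1 (nm e.1) * fz R 1 (nm e.2) =
      ((((EN 1 X).filter (fun e => (s ≤ tE e ∧ tE e ≤ t) ∧ (nm e.1 * nm e.2).Coprime R)).card : ℕ) : ℂ) := by
    have h5 := fine_zero 1 R s t X
    unfold fineS at h5
    rw [pow_zero] at h5
    exact h5
  rw [Function.comp_apply]
  push_cast
  rw [← h4, ← sum_div, sum_sub_distrib, ← mul_sum]
  ring

end Pool.Agent.LPr

end
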