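import Mathlib
import Pool.Agent.Lib_MP_f1a94e_m.G21
import Pool.Agent.Lib_MP_f1a94e_m.G26
import Pool.Agent.Lib_MP_f1a94e_m.G28

/-!
# MP_f1a94e_nt: merged library part G30

Concatenation of files of the libraries `Lib_MP_f1a94e_*` (each in its own section), only to save build time.
-/

/-! ### from `Lib_MP_f1a94e_eq.ResA` -/

section

/-!
# Conversion of the limits over edges into limits over factorisations
-/

set_option autoImplicit false

namespace Pool.Agent.OmEq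

open Finset Pool.Agent.GaussMR Pool.Agent.OmAll Filter

theorem exists_nat_cl (q : ℕ) (hq : 0 < q) (a : ℤ) :
    ∃ b : ℕ, (b : ℤ) ≡ a [ZMOD q] ∧ ∀ n : ℕ, n ≡ b [MOD q] ↔ (n : ℤ) ≡ a [ZMOD q] := by
  have hq0 : (q : ℤ) ≠ 0 := by exact_mod_cast hq.ne'
  have h1 : ((a % q).toNat : ℤ) = a % q := Int.toNat_of_nonneg (Int.emod_nonneg _ hq0)
  have h2 : (((a % q).toNat : ℕ) : ℤ) ≡ a [ZMOD q] := by
    rw [h1]
    exact Int.mod_modEq a q
  refine ⟨(a % q).toNat, h2, fun n => ?_⟩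
  rw [← Int.natCast_modEq_iff]
  constructor
  · intro h
    exact h.trans h2
  · intro h
    exact h.trans h2.symm

/-- the count with classes -/
noncomputable def NF (q R : ℕ) (α β x : ℝ) (a b : ℤ) : ℕ :=
  (FS α β x (fun r => (r.1 * r.2).Coprime R ∧ (ArithmeticFunction.cardFactors r.1 : ℤ) ≡ a [ZMOD q] ∧
    (ArithmeticFunction.cardFactors r.2 : ℤ) ≡ b [ZMOD q])).ncard

/-- the count without classes -/
noncomputable def NT (R : ℕ) (α β x : ℝ) : ℕ := (FS α β x (fun r => (r.1 * r.2).Coprime R)).ncard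

theorem NT_eq (R : ℕ) (α β : ℝ) (hα : 0 < α) (hβ : 0 < β) (X : ℝ) :
    (NT R α β X : ℝ) = (((EN 1 X).filter (fun e => (Real.log α ≤ tE e ∧ tE e ≤ Real.log β) ∧
      (nm e.1 * nm e.2).Coprime R)).card : ℝ) / 4 := by
  classical
  have h := card_conv α β hα hβ X (fun r => (r.1 * r.2).Coprime R)
  have h2 : ((EN 1 X).filter (fun e => (Real.log α ≤ tE e ∧ tE e ≤ Real.log β) ∧
      (nm e.1 * nm e.2).Coprime R)).card = 4 * NT R α β X := by
    unfold NT
    rw [← h]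
    congr 1
    ext e
    simp only [mem_filter]
  rw [h2]
  push_cast
  ring

theorem NF_eq (q R : ℕ) (α β : ℝ) (hα : 0 < α) (hβ : 0 < β) (X : ℝ) (a b : ℤ) (a' b' : ℕ)
    (ha : ∀ n : ℕ, n ≡ a' [MOD q] ↔ (n : ℤ) ≡ a [ZMOD q]) (hb : ∀ n : ℕ, n ≡ b' [MOD q] ↔ (n : ℤ) ≡ b [ZMOD q]) :
    (NF q R α β X a b : ℝ) = (((EN 1 X).filter (fun e => ((Real.log α ≤ tE e ∧ tE e ≤ Real.log β) ∧
      (nm e.1 * nm e.2).Coprime R) ∧ ArithmeticFunction.cardFactors (nm e.1) ≡ a' [MOD q] ∧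
        ArithmeticFunction.cardFactors (nm e.2) ≡ b' [MOD q])).card : ℝ) / 4 := by
  classical
  have h := card_conv α β hα hβ X (fun r => (r.1 * r.2).Coprime R ∧
    (ArithmeticFunction.cardFactors r.1 : ℤ) ≡ a [ZMOD q] ∧ (ArithmeticFunction.cardFactors r.2 : ℤ) ≡ b [ZMOD q])
  have h2 : ((EN 1 X).filter (fun e => ((Real.log α ≤ tE e ∧ tE e ≤ Real.log β) ∧
      (nm e.1 * nm e.2).Coprime R) ∧ ArithmeticFunction.cardFactors (nm e.1) ≡ a' [MOD q] ∧
        ArithmeticFunction.cardFactors (nm e.2) ≡ b' [MOD q])).card = 4 * NF q R α β X a b := by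
    unfold NF
    rw [← h]
    congr 1
    ext e
    simp only [mem_filter, ha, hb, and_assoc]
  rw [h2]
  push_cast
  ring

theorem log_div' {α β : ℝ} (hα : 0 < α) (hβ : 0 < β) : Real.log (β / α) = Real.log β - Real.log α :=
  Real.log_div hβ.ne' hα.ne'

theorem nt_lim (R : ℕ) (hR : 0 < R) : ∃ κ : ℝ, 0 < κ ∧ ∀ α β : ℝ, 0 < α → α ≤ β →
    Tendsto (fun x : ℝ => (NT R α β x : ℝ) / x) atTop (nhds (κ * Real.log (β / α))) := by
  obtain ⟨κ, hκ, h⟩ := totR R hR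
  refine ⟨κ / 4, by positivity, fun α β hα hαβ => ?_⟩
  have hβ : 0 < β := lt_of_lt_of_le hα hαβ
  have h1 := (h (Real.log α) (Real.log β) (Real.log_le_log hα hαβ)).div_const 4
  rw [log_div' hα hβ]
  have h2 : κ * (Real.log β - Real.log α) / 4 = κ / 4 * (Real.log β - Real.log α) := by ring
  rw [← h2]
  refine h1.congr (fun X => ?_)
  rw [NT_eq R α β hα hβ X]
  ring

theorem nf_lim (q R : ℕ) (hq : 0 < q) (hR : 0 < R) (H : ∀ j : ℕ, 1 ≤ j → j < q → GmSmall (fz R (zq q ^ j)))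
    (κ : ℝ) (hκ : ∀ α β : ℝ, 0 < α → α ≤ β →
      Tendsto (fun x : ℝ => (NT R α β x : ℝ) / x) atTop (nhds (κ * Real.log (β / α))))
    (α β : ℝ) (hα : 0 < α) (hαβ : α ≤ β) (a b : ℤ) :
    Tendsto (fun x : ℝ => (NF q R α β x a b : ℝ) / x) atTop (nhds (κ * Real.log (β / α) / q ^ 2)) := by
  have hβ : 0 < β := lt_of_lt_of_le hα hαβ
  obtain ⟨κ', hκ', h⟩ := fin_edges q hq R hR H
  -- the constants agree
  have hk : κ' / 4 = κ := by
    have h1 := (h (Real.log 1) (Real.log (Real.exp 1)) (by simp)).1.div_const 4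
    have h2 := hκ 1 (Real.exp 1) one_pos (by
      have := Real.add_one_le_exp (1 : ℝ)
      linarith)
    have h3 : Tendsto (fun x : ℝ => (NT R 1 (Real.exp 1) x : ℝ) / x) atTop
        (nhds (κ' * (Real.log (Real.exp 1) - Real.log 1) / 4)) := by
      refine h1.congr (fun X => ?_)
      rw [NT_eq R 1 (Real.exp 1) one_pos (Real.exp_pos 1) X]
      ring
    have h4 := tendsto_nhds_unique h3 h2
    simp only [Real.log_exp, Real.log_one, div_one, mul_one, sub_zero] at h4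
    exact h4
  obtain ⟨a', -, ha⟩ := exists_nat_cl q hq a
  obtain ⟨b', -, hb⟩ := exists_nat_cl q hq b
  have h1 := ((h (Real.log α) (Real.log β) (Real.log_le_log hα hαβ)).2 a' b').div_const 4
  rw [log_div' hα hβ, ← hk]
  have h2 : κ' * (Real.log β - Real.log α) / q ^ 2 / 4 = κ' / 4 * (Real.log β - Real.log α) / q ^ 2 := by ring
  rw [← h2]
  refine h1.congr (fun X => ?_)
  rw [NF_eq q R α β hα hβ X a b a' b' ha hb]
  ring

/-- even `q`: classes with the same parity of `a + b` -/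
theorem nf_diff (q R : ℕ) (hq : 0 < q) (hqe : Even q) (hR : 0 < R) (α β : ℝ) (hα : 0 < α) (hαβ : α ≤ β)
    (a b a' b' : ℤ) (hab : Even (a + b - (a' + b'))) :
    Tendsto (fun x : ℝ => ((NF q R α β x a b : ℝ) - NF q R α β x a' b') / x) atTop (nhds 0) := by
  have hβ : 0 < β := lt_of_lt_of_le hα hαβ
  obtain ⟨a1, ha0, ha⟩ := exists_nat_cl q hq a
  obtain ⟨b1, hb0, hb⟩ := exists_nat_cl q hq b
  obtain ⟨a2, ha0', ha'⟩ := exists_nat_cl q hq a'
  obtain ⟨b2, hb0', hb'⟩ := exists_nat_cl q hq b'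
  have hq2 : (2 : ℤ) ∣ q := by
    obtain ⟨r, hr⟩ := hqe
    exact ⟨r, by rw [hr]; push_cast; ring⟩
  have e1 : (2 : ℤ) ∣ a - a1 := hq2.trans ha0.dvd
  have e2 : (2 : ℤ) ∣ b - b1 := hq2.trans hb0.dvd
  have e3 : (2 : ℤ) ∣ a' - a2 := hq2.trans ha0'.dvd
  have e4 : (2 : ℤ) ∣ b' - b2 := hq2.trans hb0'.dvd
  have hpar : (a1 + b1) % 2 = (a2 + b2) % 2 := by
    obtain ⟨c, hc⟩ := hab
    omega
  have h1 := (fin_diff q hq R hR (fun j hj hjq h2 => gm_small_A q hq R hR j hj hjq h2) (Real.log α) (Real.log β)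
    (Real.log_le_log hα hαβ) a1 b1 a2 b2 hpar).div_const 4
  rw [zero_div] at h1
  refine h1.congr (fun X => ?_)
  rw [NF_eq q R α β hα hβ X a b a1 b1 ha hb, NF_eq q R α β hα hβ X a' b' a2 b2 ha' hb']
  ring

/-- stage A, odd `q` -/
theorem gm_odd (q R : ℕ) (hq : Odd q) (hR : 0 < R) : ∀ j : ℕ, 1 ≤ j → j < q → GmSmall (fz R (zq q ^ j)) := by
  intro j hj hjq
  refine gm_small_A q (by omega) R hR j hj hjq (fun h => ?_)
  obtain ⟨k, hk⟩ := hq
  omega

end Pool.Agent.OmEq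

end

/-! ### from `Lib_MP_f1a94e_lp.IndEqG` -/

section

/-!
# Fourier expansion of the indicator, arbitrary windows
-/

set_option autoImplicit false

namespace Pool.Agent.LPr

open Finset Pool.Agent.GaussMR Pool.Agent.OmAll Pool.Agent.OmEq MeasureTheory Filter

open Classical in
/-- expansion of the indicator -/
theorem ind_eqG (q : ℕ) (hq : 0 < q) (R : ℕ) (K : ℕ) (u0 : ℝ) (hu0 : 0 < u0) (hKu : 3 < K * u0) (u v u' v' : ℕ → ℝ)
    (r s' : ℕ) (hu : ∀ i < r, u0 ≤ u i) (hu' : ∀ i < s', u0 ≤ u' i) (k l : ℕ → ℕ) (hk : ∀ i < r, k i < K)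
    (hl : ∀ i < s', l i < K) (a b : ℕ) (X : ℝ) (hX : 2 ≤ X) (e : G × G) (he : e ∈ EN 1 X) :
    (if (nm e.1 * nm e.2).Coprime R ∧ ArithmeticFunction.cardFactors (nm e.1) ≡ a [MOD q] ∧
        ArithmeticFunction.cardFactors (nm e.2) ≡ b [MOD q] ∧ (∀ i < r, wc X (u i) (v i) (nm e.1) = k i) ∧
        (∀ i < s', wc X (u' i) (v' i) (nm e.2) = l i) then (1 : ℂ) else 0) =
      ∑ i ∈ range q, ∑ i' ∈ range q, ∑ j ∈ Fintype.piFinset (fun _ : Fin r => range K),
        ∑ j' ∈ Fintype.piFinset (fun _ : Fin s' => range K),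
        (((zq q ^ (i * a))⁻¹ * (zq q ^ (i' * b))⁻¹ / (q : ℂ) ^ 2) * ((∏ i : Fin r, (zq K ^ (j i * k i))⁻¹) / (K : ℂ) ^ r) *
          ((∏ i : Fin s', (zq K ^ (j' i * l i))⁻¹) / (K : ℂ) ^ s')) *
        (fx R (zq q ^ i) (phg K u v r j) X (nm e.1) * fx R (zq q ^ i') (phg K u' v' s' j') X (nm e.2)) := by
  have hK : 0 < K := by
    rcases Nat.eq_zero_or_pos K with h | h
    · rw [h, Nat.cast_zero, zero_mul] at hKu
      linarith
    · exact h
  obtain ⟨hn1, hn2⟩ := fine_nm_ne he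
  have hX0 : (0 : ℝ) ≤ X := by linarith
  have hX1 : (1 : ℝ) < X := by linarith
  have hprod : (nm e.1 : ℝ) * (nm e.2 : ℝ) ≤ X ^ 3 := by
    have he' := he
    rw [mem_EN one_pos] at he'
    obtain ⟨⟨hdet, hdot, -, -⟩, hle⟩ := he'
    have h2 := dot_sq_add_det_sq e.1 e.2
    rw [hdet] at h2
    have h3 : ((dot e.1 e.2 : ℤ) : ℝ) ^ 2 + 1 = (nm e.1 : ℝ) * (nm e.2 : ℝ) := by
      have h4 : (((dot e.1 e.2 ^ 2 + ((1 : ℕ) : ℤ) ^ 2 : ℤ)) : ℝ) = (((nm e.1 : ℤ) * nm e.2 : ℤ) : ℝ) := by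
        rw [h2]
      push_cast at h4
      linarith
    have h5 : (0 : ℝ) < ((dot e.1 e.2 : ℤ) : ℝ) := by exact_mod_cast hdot
    have h6 : ((dot e.1 e.2 : ℤ) : ℝ) ≤ X := hle
    have h7 : ((dot e.1 e.2 : ℤ) : ℝ) ^ 2 ≤ X ^ 2 := pow_le_pow_left₀ h5.le h6 2
    have h8 : 2 * X ^ 2 ≤ X ^ 3 := by
      have : X ^ 3 = X * X ^ 2 := by ring
      rw [this]
      exact mul_le_mul_of_nonneg_right hX (sq_nonneg X)
    have h9 : (1 : ℝ) ≤ X ^ 2 := by nlinarith
    linarith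
  have hb1 : (1 : ℝ) ≤ (nm e.1 : ℝ) := by exact_mod_cast Nat.one_le_iff_ne_zero.2 hn1
  have hb2 : (1 : ℝ) ≤ (nm e.2 : ℝ) := by exact_mod_cast Nat.one_le_iff_ne_zero.2 hn2
  have hl1 : (nm e.1 : ℝ) ≤ X ^ 3 := by nlinarith
  have hl2 : (nm e.2 : ℝ) ≤ X ^ 3 := by nlinarith
  have hq0 : (q : ℂ) ≠ 0 := by exact_mod_cast hq.ne'
  have hK0 : (K : ℂ) ≠ 0 := by exact_mod_cast hK.ne'
  by_cases hC : (nm e.1 * nm e.2).Coprime R
  · have hC1 : (nm e.1).Coprime R := Nat.Coprime.coprime_mul_right hC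
    have hC2 : (nm e.2).Coprime R := Nat.Coprime.coprime_mul_left hC
    set A : ℕ → ℂ := fun i => (zq q ^ (i * a))⁻¹ * (zq q ^ i) ^ ArithmeticFunction.cardFactors (nm e.1) with hA
    set B : ℕ → ℂ := fun i => (zq q ^ (i * b))⁻¹ * (zq q ^ i) ^ ArithmeticFunction.cardFactors (nm e.2) with hB
    set C : (Fin r → ℕ) → ℂ := fun j => (∏ i : Fin r, (zq K ^ (j i * k i))⁻¹) *
      ∏ i : Fin r, (zq K ^ (j i)) ^ wc X (u i) (v i) (nm e.1) with hCC
    set D : (Fin s' → ℕ) → ℂ := fun j => (∏ i : Fin s', (zq K ^ (j i * l i))⁻¹) *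
      ∏ i : Fin s', (zq K ^ (j i)) ^ wc X (u' i) (v' i) (nm e.2) with hD
    have h2 : ∑ i ∈ range q, ∑ i' ∈ range q, ∑ j ∈ Fintype.piFinset (fun _ : Fin r => range K),
        ∑ j' ∈ Fintype.piFinset (fun _ : Fin s' => range K),
        (((zq q ^ (i * a))⁻¹ * (zq q ^ (i' * b))⁻¹ / (q : ℂ) ^ 2) * ((∏ i : Fin r, (zq K ^ (j i * k i))⁻¹) / (K : ℂ) ^ r) *
          ((∏ i : Fin s', (zq K ^ (j' i * l i))⁻¹) / (K : ℂ) ^ s')) *
        (fx R (zq q ^ i) (phg K u v r j) X (nm e.1) * fx R (zq q ^ i') (phg K u' v' s' j') X (nm e.2)) =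
        (∑ i ∈ range q, A i) * (∑ i' ∈ range q, B i') *
          (∑ j ∈ Fintype.piFinset (fun _ : Fin r => range K), C j) *
          (∑ j' ∈ Fintype.piFinset (fun _ : Fin s' => range K), D j') / ((q : ℂ) ^ 2 * (K : ℂ) ^ r * (K : ℂ) ^ s') := by
      rw [sum_mul_sum, sum_mul, sum_mul, sum_div]
      apply sum_congr rfl
      intro i _
      rw [sum_mul, sum_mul, sum_div]
      apply sum_congr rfl
      intro i' _
      rw [mul_assoc (A i * B i'), sum_mul_sum, mul_sum, sum_div]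
      apply sum_congr rfl
      intro j _
      rw [mul_sum, sum_div]
      apply sum_congr rfl
      intro j' _
      unfold fx
      rw [if_neg (by tauto), if_neg (by tauto), gx_phg K u v r j X hX1, gx_phg K u' v' s' j' X hX1]
      simp only [hA, hB, hCC, hD]
      generalize (∏ i : Fin r, (zq K ^ (j i * k i))⁻¹) = c1
      generalize (∏ i : Fin r, (zq K ^ (j i)) ^ wc X (u i) (v i) (nm e.1)) = c2
      generalize (∏ i : Fin s', (zq K ^ (j' i * l i))⁻¹) = d1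
      generalize (∏ i : Fin s', (zq K ^ (j' i)) ^ wc X (u' i) (v' i) (nm e.2)) = d2
      generalize (zq q ^ (i * a))⁻¹ = a1
      generalize (zq q ^ i) ^ ArithmeticFunction.cardFactors (nm e.1) = a2
      generalize (zq q ^ (i' * b))⁻¹ = b1
      generalize (zq q ^ i') ^ ArithmeticFunction.cardFactors (nm e.2) = b2
      ring
    rw [h2]
    simp only [hA, hB, hCC, hD]
    rw [fine_orth hq, fine_orth hq]
    rw [win_inv K hK r (fun i => k i) (fun i => wc X (u i) (v i) (nm e.1)) (fun i => hk i i.2)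
      (fun i => wc_lt K u0 hu0 hKu X hX (nm e.1) hn1 hl1 _ _ (hu i i.2))]
    rw [win_inv K hK s' (fun i => l i) (fun i => wc X (u' i) (v' i) (nm e.2)) (fun i => hl i i.2)
      (fun i => wc_lt K u0 hu0 hKu X hX (nm e.2) hn2 hl2 _ _ (hu' i i.2))]
    have e1 : (∀ i < r, wc X (u i) (v i) (nm e.1) = k i) ↔ ∀ i : Fin r, wc X (u i) (v i) (nm e.1) = k i :=
      ⟨fun h i => h i i.2, fun h i hi => h ⟨i, hi⟩⟩
    have e2 : (∀ i < s', wc X (u' i) (v' i) (nm e.2) = l i) ↔ ∀ i : Fin s', wc X (u' i) (v' i) (nm e.2) = l i :=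
      ⟨fun h i => h i i.2, fun h i hi => h ⟨i, hi⟩⟩
    by_cases c1 : ArithmeticFunction.cardFactors (nm e.1) ≡ a [MOD q]
    · by_cases c2 : ArithmeticFunction.cardFactors (nm e.2) ≡ b [MOD q]
      · by_cases c3 : ∀ i : Fin r, wc X (u i) (v i) (nm e.1) = k i
        · by_cases c4 : ∀ i : Fin s', wc X (u' i) (v' i) (nm e.2) = l i
          · rw [if_pos ⟨hC, c1, c2, e1.2 c3, e2.2 c4⟩, if_pos c1, if_pos c2, if_pos c3, if_pos c4]
            field_simp
          · rw [if_neg (fun h => c4 (e2.1 h.2.2.2.2)), if_neg c4, mul_zero, zero_div]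
        · rw [if_neg (fun h => c3 (e1.1 h.2.2.2.1)), if_neg c3, mul_zero, zero_mul, zero_div]
      · rw [if_neg (fun h => c2 h.2.2.1), if_neg c2, mul_zero, zero_mul, zero_mul, zero_div]
    · rw [if_neg (fun h => c1 h.2.1), if_neg c1, zero_mul, zero_mul, zero_mul, zero_div]
  · rw [if_neg (fun h => hC h.1)]
    symm
    apply sum_eq_zero
    intro i _
    apply sum_eq_zero
    intro i' _
    apply sum_eq_zero
    intro j _
    apply sum_eq_zero
    intro j' _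
    have h2 : ¬ (nm e.1).Coprime R ∨ ¬ (nm e.2).Coprime R := by
      by_contra h
      push Not at h
      exact hC (Nat.Coprime.mul_left h.1 h.2)
    unfold fx
    rcases h2 with h2 | h2
    · rw [if_pos (Or.inr h2)]
      ring
    · rw [if_pos (c := nm e.2 = 0 ∨ ¬ (nm e.2).Coprime R) (Or.inr h2)]
      ring

end Pool.Agent.LPr

end
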