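import Mathlib
import Pool.Agent.Lib_MP_f1a94e_m.G25
import Pool.Agent.Lib_MP_f1a94e_m.G26
import Pool.Agent.Lib_MP_f1a94e_m.G28

/-!
# MP_f1a94e_nt: merged library part G31

Concatenation of files of the libraries `Lib_MP_f1a94e_*` (each in its own section), only to save build time.
-/

/-! ### from `Lib_MP_f1a94e_mr.StepB` -/

section

/-!
# Piece STEPB: few `m` give few factorisations
-/

set_option autoImplicit false

namespace Pool.Agent.GaussMR

/-- divisors that are too small -/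
def D1S (X K : ℝ) (m : ℕ) : Set ℕ :=
  {d : ℕ | d ∣ m ^ 2 + 1 ∧ K ^ 2 * (d : ℝ) < X ∧ ((m ^ 2 + 1 : ℕ) : ℝ) ≤ X * d}

/-- divisors with too many prime factors -/
def D2S (X K W : ℝ) (m : ℕ) : Set ℕ :=
  {d : ℕ | d ∣ m ^ 2 + 1 ∧ X ≤ K ^ 2 * (d : ℝ) ∧ (d : ℝ) ≤ X ∧
        W < (ArithmeticFunction.cardFactors d : ℝ)}

theorem finite_divs_sec {m : ℕ} {S : Set ℕ} (h : ∀ d ∈ S, d ∣ m ^ 2 + 1) : S.Finite := by
  refine ((m ^ 2 + 1).divisors.finite_toSet).subset fun d hd => ?_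
  rw [Finset.mem_coe, Nat.mem_divisors]
  exact ⟨h d hd, by omega⟩

theorem tx_le_sec (X K W : ℝ) (m : ℕ) :
    (tx X m : ℝ) ≤ (S2 X K W m).ncard + 2 * (D1S X K m).ncard + 2 * (D2S X K W m).ncard := by
  set n := m ^ 2 + 1 with hn
  have hn0 : 0 < n := by omega
  have f1 : (D1S X K m).Finite := finite_divs_sec fun d hd => hd.1
  have f2 : (D2S X K W m).Finite := finite_divs_sec fun d hd => hd.1
  have f3 : (S2 X K W m).Finite := finite_divs_sec fun d hd => hd.1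
  have hsub : {d : ℕ | d ∣ m ^ 2 + 1 ∧ (d : ℝ) ≤ X ∧ ((m ^ 2 + 1 : ℕ) : ℝ) ≤ X * d} ⊆
      S2 X K W m ∪ ((D1S X K m ∪ (fun d => n / d) '' D1S X K m) ∪
        (D2S X K W m ∪ (fun d => n / d) '' D2S X K W m)) := by
    rintro d ⟨h1, h2, h3⟩
    have hd0 : 0 < d := Nat.pos_of_dvd_of_pos h1 hn0
    have hdR : (0 : ℝ) < d := by exact_mod_cast hd0
    have hmul : (n / d) * d = n := Nat.div_mul_cancel h1
    have hmulR : ((n / d : ℕ) : ℝ) * d = (n : ℕ) := by exact_mod_cast hmul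
    have hd'X : ((n / d : ℕ) : ℝ) ≤ X := by
      have h4 : ((n / d : ℕ) : ℝ) * d ≤ X * d := by rw [hmulR]; exact h3
      exact le_of_mul_le_mul_right h4 hdR
    have hnX : ((n : ℕ) : ℝ) ≤ X * ((n / d : ℕ) : ℝ) := by
      rw [← hmulR, mul_comm]
      exact mul_le_mul_of_nonneg_right h2 (Nat.cast_nonneg _)
    have hdd : n / (n / d) = d := Nat.div_div_self h1 (by omega)
    have hd' : n / d ∣ n := Nat.div_dvd_of_dvd h1
    by_cases c1 : K ^ 2 * (d : ℝ) < X
    · exact Or.inr (Or.inl (Or.inl ⟨h1, c1, h3⟩))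
    by_cases c2 : K ^ 2 * ((n / d : ℕ) : ℝ) < X
    · exact Or.inr (Or.inl (Or.inr ⟨n / d, ⟨hd', c2, hnX⟩, hdd⟩))
    push Not at c1 c2
    by_cases c3 : W < (ArithmeticFunction.cardFactors d : ℝ)
    · exact Or.inr (Or.inr (Or.inl ⟨h1, c1, h2, c3⟩))
    by_cases c4 : W < (ArithmeticFunction.cardFactors (n / d) : ℝ)
    · exact Or.inr (Or.inr (Or.inr ⟨n / d, ⟨hd', c2, hd'X, c4⟩, hdd⟩))
    push Not at c3 c4
    exact Or.inl ⟨h1, c1, h2, c2, hd'X, c3, c4⟩
  have h1 := Set.ncard_le_ncard hsub (f3.union ((f1.union (f1.image _)).union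
    (f2.union (f2.image _))))
  have h2 := Set.ncard_union_le (S2 X K W m) ((D1S X K m ∪ (fun d => n / d) '' D1S X K m) ∪
        (D2S X K W m ∪ (fun d => n / d) '' D2S X K W m))
  have h3 := Set.ncard_union_le (D1S X K m ∪ (fun d => n / d) '' D1S X K m)
        (D2S X K W m ∪ (fun d => n / d) '' D2S X K W m)
  have h4 := Set.ncard_union_le (D1S X K m) ((fun d => n / d) '' D1S X K m)
  have h5 := Set.ncard_union_le (D2S X K W m) ((fun d => n / d) '' D2S X K W m)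
  have h6 := Set.ncard_image_le (f := fun d => n / d) f1
  have h7 := Set.ncard_image_le (f := fun d => n / d) f2
  have h8 : tx X m ≤ (S2 X K W m).ncard + 2 * (D1S X K m).ncard + 2 * (D2S X K W m).ncard := by
    unfold tx
    omega
  exact_mod_cast h8

/-- Choose `ε > 0` with `(1 + ε) log 2 < A`, `W = (1 + ε) log log X`, `K = (log X)^κ` with small
`κ > 0`. `tx X m ≤ #S2 + (drop1 set) + (its mirror) + (drop2 set) + (its mirror)`, the mirror
`d ↦ (m² + 1) / d` being a bijection. Cauchy-Schwarz for the first part: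
`√(#B ∑ #S2²) ≤ C X (log X)^(-(A - (1 + ε) log 2) / 2 + 2 κ + o(1))`. -/
theorem stepB (A : ℝ) (hA : Real.log 2 < A) : ∃ c C : ℝ, 0 < c ∧ 0 < C ∧ ∀ X : ℝ, 3 ≤ X →
    ∀ B : Finset ℕ, (∀ m ∈ B, Even m ∧ (m : ℝ) ≤ X) → (B.card : ℝ) ≤ X / Real.log X ^ A →
    ∑ m ∈ B, (tx X m : ℝ) ≤ C * X / Real.log X ^ c := by
  have hl2 : 0 < Real.log 2 := Real.log_pos (by norm_num)
  -- parameters
  obtain ⟨ε, hε, hεA⟩ : ∃ ε : ℝ, 0 < ε ∧ (1 + ε) * Real.log 2 = (A + Real.log 2) / 2 := by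
    refine ⟨(A - Real.log 2) / (2 * Real.log 2), by
      apply div_pos <;> linarith, ?_⟩
    field_simp
    ring
  set η : ℝ := ε / (1 + ε) with hηd
  have hη : 0 < η := by positivity
  have hη1 : η ≤ 1 := by
    rw [hηd, div_le_one (by positivity)]
    linarith
  have hηε : (1 + ε) * η = ε := by
    rw [hηd]
    field_simp
  have hlogη : η + ε * η / 2 ≤ (1 + ε) * Real.log (1 + η) := by
    have h1 := Real.le_log_one_add_of_nonneg hη.le
    have h2 : η - η ^ 2 / 2 ≤ 2 * η / (η + 2) := by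
      rw [le_div_iff₀ (by positivity)]
      nlinarith [pow_pos hη 3]
    have h3 : (1 + ε) * (η - η ^ 2 / 2) ≤ (1 + ε) * Real.log (1 + η) := by
      gcongr
      exact h2.trans h1
    have h4 : (1 + ε) * (η - η ^ 2 / 2) = ε - ε * η / 2 := by
      calc (1 + ε) * (η - η ^ 2 / 2) = (1 + ε) * η - ((1 + ε) * η) * η / 2 := by ring
        _ = ε - ε * η / 2 := by rw [hηε]
    have h5 : η + ε * η = ε := by linarith
    linarith
  set γ : ℝ := (A - Real.log 2) / 2 with hγd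
  have hγ : 0 < γ := by rw [hγd]; linarith
  set κ : ℝ := min (η * ε / 8) (γ / 10) with hκd
  have hκ : 0 < κ := by
    rw [hκd]
    exact lt_min (by positivity) (by positivity)
  have hκ1 : κ ≤ η * ε / 8 := min_le_left _ _
  have hκ2 : κ ≤ γ / 10 := min_le_right _ _
  obtain ⟨C1, hC1, hd1⟩ := drop1
  obtain ⟨C2, hC2, hd2⟩ := drop2 η hη hη1
  obtain ⟨C3, hC3, hs2⟩ := second
  set C4 : ℝ := 1 + Real.log 2 + 1 / κ with hC4
  have hC4p : 0 < C4 := by positivity
  refine ⟨κ, Real.sqrt (C3 * C4) + 2 * C1 + 4 * C2, hκ, by positivity, fun X hX B hB hcard => ?_⟩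
  have hX0 : 0 < X := by linarith
  have hX1 : 1 ≤ X := by linarith
  set L : ℝ := Real.log X with hLd
  have hL1 : 1 ≤ L := by
    rw [hLd, Real.le_log_iff_exp_le hX0]
    have := Real.exp_one_lt_d9
    linarith
  have hL0 : 0 < L := by linarith
  set K : ℝ := L ^ κ with hKd
  have hK1 : 1 ≤ K := Real.one_le_rpow hL1 hκ.le
  have hK0 : 0 < K := by linarith
  set W : ℝ := (1 + ε) * Real.log L with hWd
  have hlL : 0 ≤ Real.log L := Real.log_nonneg hL1
  have hW : 0 ≤ W := by positivity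
  set E := (Finset.range (⌊X⌋₊ + 1)).filter (fun m => Even m) with hE
  have hBE : B ⊆ E := by
    intro m hm
    obtain ⟨h1, h2⟩ := hB m hm
    rw [hE, Finset.mem_filter, Finset.mem_range, Nat.lt_succ_iff]
    exact ⟨Nat.le_floor h2, h1⟩
  -- the three parts
  have p1 : ∑ m ∈ B, ((D1S X K m).ncard : ℝ) ≤ C1 * X / K := by
    refine (Finset.sum_le_sum_of_subset_of_nonneg hBE fun m _ _ => Nat.cast_nonneg _).trans ?_
    exact hd1 X K hX1 hK1
  have p2 : ∑ m ∈ B, ((D2S X K W m).ncard : ℝ) ≤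
      C2 * K ^ 2 * (1 + η) ^ (-W) * X * (1 + L) ^ η := by
    refine (Finset.sum_le_sum_of_subset_of_nonneg hBE fun m _ _ => Nat.cast_nonneg _).trans ?_
    exact hd2 X K W hX1 hK1 hW
  have p3 : (∑ m ∈ B, ((S2 X K W m).ncard : ℝ)) ^ 2 ≤
      (X / L ^ A) * (C3 * (2 : ℝ) ^ W * K ^ 2 * (1 + Real.log K) ^ 2 * X *
        (1 + Real.log (1 + L))) := by
    have h1 : (∑ m ∈ B, ((S2 X K W m).ncard : ℝ)) ^ 2 ≤
        B.card * ∑ m ∈ B, ((S2 X K W m).ncard : ℝ) ^ 2 := sq_sum_le_card_mul_sum_sq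
    have h2 : ∑ m ∈ B, ((S2 X K W m).ncard : ℝ) ^ 2 ≤
        C3 * (2 : ℝ) ^ W * K ^ 2 * (1 + Real.log K) ^ 2 * X * (1 + Real.log (1 + L)) := by
      refine (Finset.sum_le_sum_of_subset_of_nonneg hBE fun m _ _ => sq_nonneg _).trans ?_
      exact hs2 X K W hX1 hK1 hW
    refine h1.trans ?_
    have h3 : 0 ≤ ∑ m ∈ B, ((S2 X K W m).ncard : ℝ) ^ 2 := Finset.sum_nonneg fun m _ => sq_nonneg _
    have h4 : 0 ≤ X / L ^ A := by positivity
    exact mul_le_mul hcard h2 h3 h4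
  -- powers of L
  have hK2 : K ^ 2 = L ^ (2 * κ) := by
    rw [hKd, ← Real.rpow_natCast, ← Real.rpow_mul hL0.le]
    congr 1
    push_cast
    ring
  have e1 : C1 * X / K = C1 * (X / L ^ κ) := by rw [hKd]; ring
  have hηW : (1 + η) ^ (-W) = L ^ (-((1 + ε) * Real.log (1 + η))) := by
    rw [Real.rpow_def_of_pos (by positivity), Real.rpow_def_of_pos hL0, hWd]
    congr 1
    ring
  have h2W : (2 : ℝ) ^ W = L ^ ((1 + ε) * Real.log 2) := by
    rw [Real.rpow_def_of_pos (by positivity), Real.rpow_def_of_pos hL0, hWd]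
    congr 1
    ring
  have h1L : (1 + L) ^ η ≤ 2 * L ^ η := by
    calc (1 + L) ^ η ≤ (2 * L) ^ η := by
          apply Real.rpow_le_rpow (by positivity) (by linarith) hη.le
      _ = 2 ^ η * L ^ η := Real.mul_rpow (by norm_num) hL0.le
      _ ≤ 2 * L ^ η := by
          gcongr
          calc (2 : ℝ) ^ η ≤ 2 ^ (1 : ℝ) := Real.rpow_le_rpow_of_exponent_le (by norm_num) hη1
            _ = 2 := by norm_num
  have e2 : C2 * K ^ 2 * (1 + η) ^ (-W) * X * (1 + L) ^ η ≤ 2 * C2 * (X / L ^ κ) := by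
    calc C2 * K ^ 2 * (1 + η) ^ (-W) * X * (1 + L) ^ η
        ≤ C2 * K ^ 2 * (1 + η) ^ (-W) * X * (2 * L ^ η) := by gcongr
      _ = 2 * C2 * X * (L ^ (2 * κ) * L ^ (-((1 + ε) * Real.log (1 + η))) * L ^ η) := by
          rw [hK2, hηW]
          ring
      _ = 2 * C2 * X * L ^ (2 * κ + -((1 + ε) * Real.log (1 + η)) + η) := by
          rw [← Real.rpow_add hL0, ← Real.rpow_add hL0]
      _ ≤ 2 * C2 * X * L ^ (-κ) := by
          gcongr
          have : ε * η / 2 = η * ε / 2 := by ring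
          linarith
      _ = 2 * C2 * (X / L ^ κ) := by
          rw [Real.rpow_neg hL0.le]
          ring
  have hlogK : 1 + Real.log K ≤ K := by
    have := Real.log_le_sub_one_of_pos hK0
    linarith
  have hlogK0 : 0 ≤ 1 + Real.log K := by
    have : 0 ≤ Real.log K := Real.log_nonneg hK1
    linarith
  have hllog0 : 0 ≤ 1 + Real.log (1 + L) := by
    have : 0 ≤ Real.log (1 + L) := Real.log_nonneg (by linarith)
    linarith
  have hllog : 1 + Real.log (1 + L) ≤ C4 * K := by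
    have h1 : Real.log (1 + L) ≤ Real.log 2 + Real.log L := by
      rw [← Real.log_mul (by norm_num) hL0.ne']
      apply Real.log_le_log (by positivity)
      linarith
    have h2 : Real.log L ≤ L ^ κ / κ := Real.log_le_rpow_div hL0.le hκ
    have h3 : L ^ κ / κ = 1 / κ * K := by rw [hKd]; ring
    have h4 : 1 + Real.log 2 ≤ (1 + Real.log 2) * K := le_mul_of_one_le_right (by positivity) hK1
    rw [hC4]
    linarith
  have e3 : (∑ m ∈ B, ((S2 X K W m).ncard : ℝ)) ≤ Real.sqrt (C3 * C4) * (X / L ^ κ) := by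
    have h0 : 0 ≤ ∑ m ∈ B, ((S2 X K W m).ncard : ℝ) := Finset.sum_nonneg fun m _ => Nat.cast_nonneg _
    have h1 : (∑ m ∈ B, ((S2 X K W m).ncard : ℝ)) ^ 2 ≤ (Real.sqrt (C3 * C4) * (X / L ^ κ)) ^ 2 := by
      refine p3.trans ?_
      rw [mul_pow, Real.sq_sqrt (by positivity)]
      calc (X / L ^ A) * (C3 * (2 : ℝ) ^ W * K ^ 2 * (1 + Real.log K) ^ 2 * X *
            (1 + Real.log (1 + L)))
          ≤ (X / L ^ A) * (C3 * (2 : ℝ) ^ W * K ^ 2 * K ^ 2 * X * (C4 * K)) := by gcongr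
        _ = C3 * C4 * X ^ 2 * ((2 : ℝ) ^ W * (K ^ 2 * K ^ 2 * K) / L ^ A) := by ring
        _ = C3 * C4 * X ^ 2 * L ^ ((1 + ε) * Real.log 2 + (2 * κ + 2 * κ + κ) - A) := by
            rw [h2W, hK2, hKd, ← Real.rpow_add hL0, ← Real.rpow_add hL0, ← Real.rpow_add hL0,
              ← Real.rpow_sub hL0]
        _ ≤ C3 * C4 * X ^ 2 * L ^ (-(2 * κ)) := by
            gcongr
            rw [hεA]
            linarith
        _ = C3 * C4 * (X / L ^ κ) ^ 2 := by
            rw [Real.rpow_neg hL0.le, div_pow, ← hK2]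
            ring
    exact (pow_le_pow_iff_left₀ h0 (by positivity) (by norm_num)).mp h1
  calc ∑ m ∈ B, (tx X m : ℝ)
      ≤ ∑ m ∈ B, (((S2 X K W m).ncard : ℝ) + 2 * (D1S X K m).ncard + 2 * (D2S X K W m).ncard) :=
        Finset.sum_le_sum fun m _ => tx_le_sec X K W m
    _ = ∑ m ∈ B, ((S2 X K W m).ncard : ℝ) + 2 * ∑ m ∈ B, ((D1S X K m).ncard : ℝ) +
        2 * ∑ m ∈ B, ((D2S X K W m).ncard : ℝ) := by
        rw [Finset.sum_add_distrib, Finset.sum_add_distrib, Finset.mul_sum, Finset.mul_sum]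
    _ ≤ Real.sqrt (C3 * C4) * (X / L ^ κ) + 2 * (C1 * (X / L ^ κ)) +
        2 * (2 * C2 * (X / L ^ κ)) := by
        have q1 := p1
        rw [e1] at q1
        have q2 := p2.trans e2
        linarith
    _ = (Real.sqrt (C3 * C4) + 2 * C1 + 4 * C2) * X / L ^ κ := by ring

end Pool.Agent.GaussMR

end

/-! ### from `Lib_MP_f1a94e_eq.CountE` -/

section

/-!
# From factorisations to the integers `m`
-/

set_option autoImplicit false

namespace Pool.Agent.OmEq

open Finset Pool.Agent.GaussMR Pool.Agent.OmAll Filter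

/-- the set of `d` counted by `tx` is finite -/
theorem tx_fin (X : ℝ) (m : ℕ) :
    {d : ℕ | d ∣ m ^ 2 + 1 ∧ (d : ℝ) ≤ X ∧ ((m ^ 2 + 1 : ℕ) : ℝ) ≤ X * d}.Finite := by
  refine (Set.finite_Iic (m ^ 2 + 1)).subset (fun d hd => ?_)
  exact Nat.le_of_dvd (by positivity) hd.1

open Classical in
/-- the factorisations over a set of `m` -/
theorem FS_le_tx (α β x X : ℝ) (hα : 0 < α) (hβ : 0 < β) (hx : 1 ≤ x) (hX : x ≤ X) (hXα : 2 * x ^ 2 ≤ α * X ^ 2)
    (hXβ : 2 * β * x ^ 2 ≤ X ^ 2) (P : ℕ × ℕ → Prop) (B : Finset ℕ)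
    (hB : ∀ m : ℕ, 1 ≤ m → (m : ℝ) ≤ x → (∃ d e : ℕ, d * e = m ^ 2 + 1 ∧ (α * d ≤ e ∧ (e : ℝ) ≤ β * d) ∧ P (d, e)) →
      m ∈ B) :
    ((FS α β x P).ncard : ℝ) ≤ ∑ m ∈ B, (tx X m : ℝ) := by
  have hX0 : 0 ≤ X := by linarith
  set D : ℕ → Finset ℕ := fun m => (tx_fin X m).toFinset with hD
  have hDc : ∀ m, (D m).card = tx X m := by
    intro m
    unfold tx
    rw [Set.ncard_eq_toFinset_card _ (tx_fin X m)]
  set F : Finset (Σ _ : ℕ, ℕ) := B.sigma D with hF
  set f : (Σ _ : ℕ, ℕ) → ℕ × ℕ := fun s => (s.2, (s.1 ^ 2 + 1) / s.2) with hf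
  have hsub : FS α β x P ⊆ ((F.image f : Finset (ℕ × ℕ)) : Set (ℕ × ℕ)) := by
    rintro ⟨d, e⟩ ⟨⟨m, hm1, hmx, hde⟩, ⟨h1, h2⟩, hP⟩
    simp only at hde h1 h2
    have hd0 : 0 < d := by
      rcases Nat.eq_zero_or_pos d with h | h
      · rw [h] at hde; simp at hde
      · exact h
    have he0 : 0 < e := by
      rcases Nat.eq_zero_or_pos e with h | h
      · rw [h] at hde; simp at hde
      · exact h
    have hd' : (0 : ℝ) < d := by exact_mod_cast hd0
    have he' : (0 : ℝ) < e := by exact_mod_cast he0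
    have hder : (d : ℝ) * e = (m : ℝ) ^ 2 + 1 := by exact_mod_cast hde
    have hm0 : (0 : ℝ) ≤ m := Nat.cast_nonneg m
    have hmx2 : (m : ℝ) ^ 2 + 1 ≤ 2 * x ^ 2 := by nlinarith
    have hdX : (d : ℝ) ≤ X := by
      have h3 : α * (d : ℝ) ^ 2 ≤ α * X ^ 2 := by
        calc α * (d : ℝ) ^ 2 = d * (α * d) := by ring
          _ ≤ d * e := by gcongr
          _ ≤ 2 * x ^ 2 := by rw [hder]; exact hmx2
          _ ≤ α * X ^ 2 := hXα
      have h4 : (d : ℝ) ^ 2 ≤ X ^ 2 := le_of_mul_le_mul_left h3 hα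
      exact (sq_le_sq₀ hd'.le hX0).1 h4
    have heX : (e : ℝ) ≤ X := by
      have h3 : (e : ℝ) ^ 2 ≤ X ^ 2 := by
        calc (e : ℝ) ^ 2 = e * e := by ring
          _ ≤ (β * d) * e := by gcongr
          _ = β * (d * e) := by ring
          _ ≤ β * (2 * x ^ 2) := by rw [hder]; gcongr
          _ = 2 * β * x ^ 2 := by ring
          _ ≤ X ^ 2 := hXβ
      exact (sq_le_sq₀ he'.le hX0).1 h3
    have hdiv : (m ^ 2 + 1) / d = e := by
      rw [← hde]; exact Nat.mul_div_cancel_left e hd0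
    rw [Finset.mem_coe, Finset.mem_image]
    refine ⟨⟨m, d⟩, ?_, ?_⟩
    · rw [hF, Finset.mem_sigma]
      refine ⟨hB m hm1 hmx ⟨d, e, hde, ⟨h1, h2⟩, hP⟩, ?_⟩
      simp only [hD]
      rw [Set.Finite.mem_toFinset]
      refine ⟨Dvd.intro _ hde, hdX, ?_⟩
      push_cast
      rw [← hder, mul_comm]
      gcongr
    · simp only [hf, hdiv]
  have h1 := Set.ncard_le_ncard hsub (Finset.finite_toSet _)
  rw [Set.ncard_coe_finset] at h1
  have h2 : (F.image f).card ≤ F.card := Finset.card_image_le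
  have h3 : F.card = ∑ m ∈ B, tx X m := by
    rw [hF, Finset.card_sigma]
    exact Finset.sum_congr rfl (fun m _ => hDc m)
  have h4 : (FS α β x P).ncard ≤ ∑ m ∈ B, tx X m := by
    rw [← h3]
    exact h1.trans h2
  exact_mod_cast h4

open Classical in
/-- many `m` -/
theorem many_m (α β : ℝ) (hα : 0 < α) (hβ : 0 < β) (P : ℕ × ℕ → Prop) (c x0 : ℝ) (hc : 0 < c)
    (h : ∀ x : ℝ, x0 ≤ x → c * x ≤ ((FS α β x P).ncard : ℝ))
    (hev : ∀ m d e : ℕ, d * e = m ^ 2 + 1 → P (d, e) → Even m) (A : ℝ) (hA : Real.log 2 < A) :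
    ∃ x1 : ℝ, ∀ x : ℝ, x1 ≤ x → x / Real.log x ^ A ≤ (Set.ncard {m : ℕ | (m : ℝ) ≤ x ∧ Even m ∧
      ∃ d e : ℕ, d * e = m ^ 2 + 1 ∧ (α * d ≤ e ∧ (e : ℝ) ≤ β * d) ∧ P (d, e)} : ℝ) := by
  obtain ⟨e', he1, he2⟩ := exists_between hA
  have hl2 : 0 < Real.log 2 := Real.log_pos (by norm_num)
  obtain ⟨d', C, hd, hC, hstep⟩ := stepB e' he1
  -- the constant
  obtain ⟨K, hK1, hKα, hKβ⟩ : ∃ K : ℝ, 1 ≤ K ∧ 2 ≤ α * K ^ 2 ∧ 2 * β ≤ K ^ 2 := by
    refine ⟨1 + 2 / α + 2 * β, ?_, ?_, ?_⟩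
    · have : 0 < 2 / α := by positivity
      linarith
    · have h1 : 0 < 2 / α := by positivity
      have h2 : α * (2 / α) = 2 := by field_simp
      have h3 : (2 / α) * 1 ≤ (1 + 2 / α + 2 * β) * (1 + 2 / α + 2 * β) := by gcongr <;> linarith
      calc 2 = α * ((2 / α) * 1) := by rw [mul_one, h2]
        _ ≤ α * ((1 + 2 / α + 2 * β) * (1 + 2 / α + 2 * β)) := by gcongr
        _ = α * (1 + 2 / α + 2 * β) ^ 2 := by ring
    · have h1 : 0 < 2 / α := by positivity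
      have h3 : (2 * β) * 1 ≤ (1 + 2 / α + 2 * β) * (1 + 2 / α + 2 * β) := by gcongr <;> linarith
      nlinarith
  have hlim : Tendsto (fun x : ℝ => Real.log (K * x) ^ d') atTop atTop :=
    (tendsto_rpow_atTop hd).comp (Real.tendsto_log_atTop.comp (tendsto_id.const_mul_atTop (by linarith)))
  obtain ⟨x2, hx2⟩ := eventually_atTop.mp (hlim.eventually_gt_atTop (C * K / c))
  have hlim2 : Tendsto (fun x : ℝ => Real.log x ^ (A - e')) atTop atTop :=
    (tendsto_rpow_atTop (by linarith : 0 < A - e')).comp Real.tendsto_log_atTop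
  obtain ⟨x3, hx3⟩ := eventually_atTop.mp (hlim2.eventually_ge_atTop ((2 : ℝ) ^ e'))
  refine ⟨max x0 (max x2 (max x3 (max 3 K))), ?_⟩
  intro x hx
  have hxx0 : x0 ≤ x := (le_max_left _ _).trans hx
  have hxx2 : x2 ≤ x := ((le_max_left _ _).trans (le_max_right _ _)).trans hx
  have hxx3 : x3 ≤ x := (((le_max_left _ _).trans (le_max_right _ _)).trans (le_max_right _ _)).trans hx
  have hx3' : 3 ≤ x :=
    ((((le_max_left _ _).trans (le_max_right _ _)).trans (le_max_right _ _)).trans (le_max_right _ _)).trans hx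
  have hxK : K ≤ x :=
    ((((le_max_right _ _).trans (le_max_right _ _)).trans (le_max_right _ _)).trans (le_max_right _ _)).trans hx
  by_contra hcon
  push Not at hcon
  set S : Set ℕ := {m : ℕ | (m : ℝ) ≤ x ∧ Even m ∧
      ∃ d e : ℕ, d * e = m ^ 2 + 1 ∧ (α * d ≤ e ∧ (e : ℝ) ≤ β * d) ∧ P (d, e)} with hS
  have hfin : S.Finite := by
    apply (Set.finite_Iic ⌊x⌋₊).subset
    intro m hm
    exact Nat.le_floor hm.1
  set B : Finset ℕ := hfin.toFinset with hB
  have hBm : ∀ m, m ∈ B ↔ m ∈ S := fun m => Set.Finite.mem_toFinset hfin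
  have hlogx : 0 < Real.log x := Real.log_pos (by linarith)
  have hKx : x ≤ K * x := by nlinarith
  have hlogKx : 0 < Real.log (K * x) := Real.log_pos (by linarith)
  have hBc : (B.card : ℝ) ≤ (K * x) / Real.log (K * x) ^ e' := by
    rw [hB, ← Set.ncard_eq_toFinset_card S hfin]
    refine hcon.le.trans ?_
    have h1 : Real.log (K * x) ≤ 2 * Real.log x := by
      rw [Real.log_mul (by linarith) (by linarith)]
      have := Real.log_le_log (by linarith) hxK
      linarith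
    have h2 : Real.log (K * x) ^ e' ≤ Real.log x ^ A := by
      calc Real.log (K * x) ^ e' ≤ (2 * Real.log x) ^ e' :=
            Real.rpow_le_rpow hlogKx.le h1 (by linarith)
        _ = 2 ^ e' * Real.log x ^ e' := Real.mul_rpow (by norm_num) hlogx.le
        _ ≤ Real.log x ^ (A - e') * Real.log x ^ e' := by
            gcongr
            exact hx3 x hxx3
        _ = Real.log x ^ A := by
            rw [← Real.rpow_add hlogx]
            congr 1
            ring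
    exact div_le_div₀ (by positivity) hKx (Real.rpow_pos_of_pos hlogKx _) h2
  have h1 := hstep (K * x) (by linarith) B (fun m hm => by
    have := (hBm m).1 hm
    exact ⟨this.2.1, this.1.trans hKx⟩) hBc
  have h2 := FS_le_tx α β x (K * x) hα hβ (by linarith) hKx
    (by
      have : 2 * x ^ 2 ≤ (α * K ^ 2) * x ^ 2 := by gcongr
      calc 2 * x ^ 2 ≤ (α * K ^ 2) * x ^ 2 := this
        _ = α * (K * x) ^ 2 := by ring)
    (by
      have : (2 * β) * x ^ 2 ≤ K ^ 2 * x ^ 2 := by gcongr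
      calc 2 * β * x ^ 2 ≤ K ^ 2 * x ^ 2 := this
        _ = (K * x) ^ 2 := by ring) P B (by
      rintro m hm1 hmx ⟨d, e, hde, h1, h2⟩
      exact (hBm m).2 ⟨hmx, hev m d e hde h2, d, e, hde, h1, h2⟩)
  have h3 : c * x ≤ C * (K * x) / Real.log (K * x) ^ d' := (h x hxx0).trans (h2.trans h1)
  have h4 := hx2 x hxx2
  have h5 : 0 < Real.log (K * x) ^ d' := Real.rpow_pos_of_pos hlogKx d'
  rw [le_div_iff₀ h5] at h3
  have h6 : C * K < c * Real.log (K * x) ^ d' := by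
    rw [div_lt_iff₀ hc] at h4
    linarith
  have h7 : 0 < x := by linarith
  nlinarith

end Pool.Agent.OmEq

end
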