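import Mathlib
import Pool.Agent.Lib_MP_f1a94e_m.G25
import Pool.Agent.Lib_MP_f1a94e_m.G26
import Pool.Agent.Lib_MP_f1a94e_m.G29
import Pool.Agent.Lib_MP_f1a94e_m.G30
import Pool.Agent.Lib_MP_f1a94e_m.G31

/-!
# MP_f1a94e_nt: merged library part G32

Concatenation of files of the libraries `Lib_MP_f1a94e_*` (each in its own section), only to save build time.
-/

/-! ### from `Lib_MP_f1a94e_lp.PairLawG` -/

section

/-!
# The joint law over edges, arbitrary windows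
-/

set_option autoImplicit false

namespace Pool.Agent.LPr

open Finset Pool.Agent.GaussMR Pool.Agent.OmAll Pool.Agent.OmEq MeasureTheory Filter

/-- the edges with a ratio in `[s, t]` -/
noncomputable def EstG (s t X : ℝ) : Finset (G × G) := (EN 1 X).filter (fun e => s ≤ tE e ∧ tE e ≤ t)

/-- the coefficients of the expansion of the indicator -/
noncomputable def cofG (q K r s' a b : ℕ) (k l : ℕ → ℕ) (i i' : ℕ) (j : Fin r → ℕ) (j' : Fin s' → ℕ) : ℂ :=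
  (((zq q ^ (i * a))⁻¹ * (zq q ^ (i' * b))⁻¹ / (q : ℂ) ^ 2) * ((∏ i : Fin r, (zq K ^ (j i * k i))⁻¹) / (K : ℂ) ^ r) *
          ((∏ i : Fin s', (zq K ^ (j' i * l i))⁻¹) / (K : ℂ) ^ s'))

theorem zq_pow_ne_oneG {q : ℕ} (hq : 0 < q) {i : ℕ} (hi : i < q) (h0 : i ≠ 0) : zq q ^ i ≠ 1 := by
  intro h
  have h1 : zq q ^ i = zq q ^ 0 := by rw [h, pow_zero]
  rw [fine_pow_eq hq] at h1
  unfold Nat.ModEq at h1
  rw [Nat.mod_eq_of_lt hi, Nat.zero_mod] at h1
  exact h0 h1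

/-- value of the limit -/
theorem cofG_sum (q : ℕ) (hq : 0 < q) (K : ℕ) (u v u' v' : ℕ → ℝ) (r s' a b : ℕ) (k l : ℕ → ℕ) (T : ℂ) :
    ∑ i ∈ range q, ∑ i' ∈ range q, ∑ j ∈ Fintype.piFinset (fun _ : Fin r => range K),
      ∑ j' ∈ Fintype.piFinset (fun _ : Fin s' => range K), cofG q K r s' a b k l i i' j j' *
        (mm (zq q ^ i) (phg K u v r j) * mm (zq q ^ i') (phg K u' v' s' j') * T) =
      T * cG K u v r k * cG K u' v' s' l / (q : ℂ) ^ 2 := by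
  rw [sum_eq_single 0]
  · rw [sum_eq_single 0]
    · have h1 : ∀ φ : ℝ → ℂ, mm (zq q ^ 0) φ = mu φ := by
        intro φ
        unfold mm
        rw [if_pos (pow_zero _)]
      simp only [h1]
      unfold cG cofG
      simp only [zero_mul, pow_zero, inv_one, mul_one]
      rw [show T * (1 / (K : ℂ) ^ r * ∑ j ∈ Fintype.piFinset (fun _ : Fin r => range K),
          (∏ i : Fin r, (zq K ^ (j i * k i))⁻¹) * mu (phg K u v r j)) *
          (1 / (K : ℂ) ^ s' * ∑ j ∈ Fintype.piFinset (fun _ : Fin s' => range K),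
          (∏ i : Fin s', (zq K ^ (j i * l i))⁻¹) * mu (phg K u' v' s' j)) / (q : ℂ) ^ 2 =
          (T * (1 / (K : ℂ) ^ r) * (1 / (K : ℂ) ^ s') / (q : ℂ) ^ 2) *
          ((∑ j ∈ Fintype.piFinset (fun _ : Fin r => range K),
          (∏ i : Fin r, (zq K ^ (j i * k i))⁻¹) * mu (phg K u v r j)) *
          (∑ j ∈ Fintype.piFinset (fun _ : Fin s' => range K),
          (∏ i : Fin s', (zq K ^ (j i * l i))⁻¹) * mu (phg K u' v' s' j))) by ring, sum_mul_sum, mul_sum]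
      refine sum_congr rfl fun j _ => ?_
      rw [mul_sum]
      refine sum_congr rfl fun j' _ => ?_
      ring
    · intro i' hi' h0
      refine sum_eq_zero fun j _ => sum_eq_zero fun j' _ => ?_
      have h2 : mm (zq q ^ i') (phg K u' v' s' j') = 0 := by
        unfold mm
        rw [if_neg (zq_pow_ne_oneG hq (mem_range.1 hi') h0)]
      rw [h2]
      ring
    · intro h
      exact absurd (mem_range.2 hq) h
  · intro i hi h0
    refine sum_eq_zero fun i' _ => sum_eq_zero fun j _ => sum_eq_zero fun j' _ => ?_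
    have h2 : mm (zq q ^ i) (phg K u v r j) = 0 := by
      unfold mm
      rw [if_neg (zq_pow_ne_oneG hq (mem_range.1 hi) h0)]
    rw [h2]
    ring
  · intro h
    exact absurd (mem_range.2 hq) h

open Classical in
/-- the joint law over edges -/
theorem edge_lawG (R : ℕ) (hR : 0 < R) : ∃ κ : ℝ, 0 < κ ∧
    (∀ s t : ℝ, s ≤ t → Tendsto (fun X : ℝ => (((EN 1 X).filter (fun e => (s ≤ tE e ∧ tE e ≤ t) ∧
      (nm e.1 * nm e.2).Coprime R)).card : ℝ) / X) atTop (nhds (κ * (t - s)))) ∧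
    ∀ (q K : ℕ) (u0 : ℝ) (u v u' v' : ℕ → ℝ) (r s' : ℕ) (k l : ℕ → ℕ) (c c' : ℝ), 0 < q → 0 < u0 →
      (∀ i < r, u0 ≤ u i ∧ u i ≤ v i) → (∀ i < s', u0 ≤ u' i ∧ u' i ≤ v' i) →
      3 < K * u0 → (∀ i < r, k i < K) → (∀ i < s', l i < K) → (c : ℂ) = cG K u v r k → (c' : ℂ) = cG K u' v' s' l →
      ∀ (a b : ℕ) (s t : ℝ), s ≤ t →
      Tendsto (fun X : ℝ => (((EN 1 X).filter (fun e => (s ≤ tE e ∧ tE e ≤ t) ∧ ((nm e.1 * nm e.2).Coprime R ∧
        ArithmeticFunction.cardFactors (nm e.1) ≡ a [MOD q] ∧ ArithmeticFunction.cardFactors (nm e.2) ≡ b [MOD q] ∧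
        (∀ i < r, wc X (u i) (v i) (nm e.1) = k i) ∧ (∀ i < s', wc X (u' i) (v' i) (nm e.2) = l i)))).card : ℝ) / X)
          atTop (nhds (κ * (t - s) * c * c' / q ^ 2)) := by
  obtain ⟨κ, hκ, hlim, hS⟩ := shp_lim R hR
  refine ⟨κ, hκ, hlim, ?_⟩
  intro q K u0 u v u' v' r s' k l c c' hq hu0 hu hu' hKu hk hl hc hc' a b s t hst
  have hK : 0 < K := by
    rcases Nat.eq_zero_or_pos K with h | h
    · exfalso
      rw [h, Nat.cast_zero, zero_mul] at hKu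
      linarith
    · exact h
  have hterm : ∀ i ∈ range q, ∀ i' ∈ range q, ∀ j ∈ Fintype.piFinset (fun _ : Fin r => range K),
      ∀ j' ∈ Fintype.piFinset (fun _ : Fin s' => range K),
      Tendsto (fun X : ℝ => cofG q K r s' a b k l i i' j j' * ((∑ e ∈ EstG s t X,
        fx R (zq q ^ i) (phg K u v r j) X (nm e.1) * fx R (zq q ^ i') (phg K u' v' s' j') X (nm e.2)) / X)) atTop
        (nhds (cofG q K r s' a b k l i i' j j' *
          (mm (zq q ^ i) (phg K u v r j) * mm (zq q ^ i') (phg K u' v' s' j') * ((κ * (t - s) : ℝ) : ℂ)))) := by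
    intro i _ i' _ j _ j' _
    exact (hS _ _ (fine_norm q hq i) (fine_norm q hq i') _ _ (phg_step K hK u v r (fun i hi => ⟨hu0.trans_le (hu i hi).1, (hu i hi).2⟩) j)
      (phg_step K hK u' v' s' (fun i hi => ⟨hu0.trans_le (hu' i hi).1, (hu' i hi).2⟩) j') s t hst).const_mul _
  have hsum : Tendsto (fun X : ℝ => ∑ i ∈ range q, ∑ i' ∈ range q, ∑ j ∈ Fintype.piFinset (fun _ : Fin r => range K),
      ∑ j' ∈ Fintype.piFinset (fun _ : Fin s' => range K), cofG q K r s' a b k l i i' j j' * ((∑ e ∈ EstG s t X,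
        fx R (zq q ^ i) (phg K u v r j) X (nm e.1) * fx R (zq q ^ i') (phg K u' v' s' j') X (nm e.2)) / X)) atTop
        (nhds (∑ i ∈ range q, ∑ i' ∈ range q, ∑ j ∈ Fintype.piFinset (fun _ : Fin r => range K),
          ∑ j' ∈ Fintype.piFinset (fun _ : Fin s' => range K), cofG q K r s' a b k l i i' j j' *
          (mm (zq q ^ i) (phg K u v r j) * mm (zq q ^ i') (phg K u' v' s' j') * ((κ * (t - s) : ℝ) : ℂ)))) := by
    apply tendsto_finsetSum
    intro i hi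
    apply tendsto_finsetSum
    intro i' hi'
    apply tendsto_finsetSum
    intro j hj
    apply tendsto_finsetSum
    intro j' hj'
    exact hterm i hi i' hi' j hj j' hj'
  rw [cofG_sum q hq] at hsum
  have hval : ((κ * (t - s) : ℝ) : ℂ) * cG K u v r k * cG K u' v' s' l / (q : ℂ) ^ 2 =
      ((κ * (t - s) * c * c' / q ^ 2 : ℝ) : ℂ) := by
    rw [← hc, ← hc']
    push_cast
    ring
  rw [hval] at hsum
  have hre := (Complex.continuous_re.tendsto _).comp hsum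
  rw [Complex.ofReal_re] at hre
  refine hre.congr' ?_
  filter_upwards [eventually_ge_atTop 2] with X hX
  rw [Function.comp_apply]
  have h1 : (((EN 1 X).filter (fun e => (s ≤ tE e ∧ tE e ≤ t) ∧ ((nm e.1 * nm e.2).Coprime R ∧
        ArithmeticFunction.cardFactors (nm e.1) ≡ a [MOD q] ∧ ArithmeticFunction.cardFactors (nm e.2) ≡ b [MOD q] ∧
        (∀ i < r, wc X (u i) (v i) (nm e.1) = k i) ∧
        (∀ i < s', wc X (u' i) (v' i) (nm e.2) = l i)))).card : ℂ) =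
      ∑ e ∈ EstG s t X, (if (nm e.1 * nm e.2).Coprime R ∧
        ArithmeticFunction.cardFactors (nm e.1) ≡ a [MOD q] ∧ ArithmeticFunction.cardFactors (nm e.2) ≡ b [MOD q] ∧
        (∀ i < r, wc X (u i) (v i) (nm e.1) = k i) ∧
        (∀ i < s', wc X (u' i) (v' i) (nm e.2) = l i) then (1 : ℂ) else 0) := by
    unfold EstG
    rw [← filter_filter, card_filter]
    push_cast
    rfl
  have h2 : ∑ i ∈ range q, ∑ i' ∈ range q, ∑ j ∈ Fintype.piFinset (fun _ : Fin r => range K),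
      ∑ j' ∈ Fintype.piFinset (fun _ : Fin s' => range K), cofG q K r s' a b k l i i' j j' * ((∑ e ∈ EstG s t X,
        fx R (zq q ^ i) (phg K u v r j) X (nm e.1) * fx R (zq q ^ i') (phg K u' v' s' j') X (nm e.2)) / X) =
      (∑ e ∈ EstG s t X, (if (nm e.1 * nm e.2).Coprime R ∧
        ArithmeticFunction.cardFactors (nm e.1) ≡ a [MOD q] ∧ ArithmeticFunction.cardFactors (nm e.2) ≡ b [MOD q] ∧
        (∀ i < r, wc X (u i) (v i) (nm e.1) = k i) ∧
        (∀ i < s', wc X (u' i) (v' i) (nm e.2) = l i) then (1 : ℂ) else 0)) / X := by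
    have h3 : ∀ e ∈ EstG s t X, (if (nm e.1 * nm e.2).Coprime R ∧
        ArithmeticFunction.cardFactors (nm e.1) ≡ a [MOD q] ∧ ArithmeticFunction.cardFactors (nm e.2) ≡ b [MOD q] ∧
        (∀ i < r, wc X (u i) (v i) (nm e.1) = k i) ∧
        (∀ i < s', wc X (u' i) (v' i) (nm e.2) = l i) then (1 : ℂ) else 0) =
        ∑ i ∈ range q, ∑ i' ∈ range q, ∑ j ∈ Fintype.piFinset (fun _ : Fin r => range K),
        ∑ j' ∈ Fintype.piFinset (fun _ : Fin s' => range K), cofG q K r s' a b k l i i' j j' *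
        (fx R (zq q ^ i) (phg K u v r j) X (nm e.1) * fx R (zq q ^ i') (phg K u' v' s' j') X (nm e.2)) := by
      intro e he
      exact ind_eqG q hq R K u0 hu0 hKu u v u' v' r s' (fun i hi => (hu i hi).1) (fun i hi => (hu' i hi).1) k l hk hl a b X hX e
        (mem_filter.1 he).1
    symm
    rw [sum_congr rfl h3, sum_comm, sum_div]
    refine sum_congr rfl fun i _ => ?_
    rw [sum_comm, sum_div]
    refine sum_congr rfl fun i' _ => ?_
    rw [sum_comm, sum_div]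
    refine sum_congr rfl fun j _ => ?_
    rw [sum_comm, sum_div]
    refine sum_congr rfl fun j' _ => ?_
    rw [← mul_sum, mul_div_assoc]
  rw [h2, ← h1, ← Complex.ofReal_natCast, ← Complex.ofReal_div, Complex.ofReal_re]

end Pool.Agent.LPr

end

/-! ### from `Lib_MP_f1a94e_lp.FacLawG` -/

section

/-!
# The joint law over factorisations, arbitrary windows
-/

set_option autoImplicit false

namespace Pool.Agent.LPr

open Finset Pool.Agent.GaussMR Pool.Agent.OmAll Pool.Agent.OmEq MeasureTheory Filter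

/-- the condition on the numbers of prime factors in the windows and on `Ω` -/
def PJG (q R : ℕ) (a b : ℤ) (u v u' v' : ℕ → ℝ) (r s : ℕ) (k l : ℕ → ℕ) (x : ℝ) (p : ℕ × ℕ) : Prop :=
  (p.1 * p.2).Coprime R ∧ (ArithmeticFunction.cardFactors p.1 : ℤ) ≡ a [ZMOD q] ∧
    (ArithmeticFunction.cardFactors p.2 : ℤ) ≡ b [ZMOD q] ∧
    (∀ i < r, wc x (u i) (v i) p.1 = k i) ∧ (∀ i < s, wc x (u' i) (v' i) p.2 = l i)

/-- a common lower bound -/
theorem exists_u0 (u : ℕ → ℝ) (r : ℕ) (h : ∀ i < r, 0 < u i) : ∃ u0 : ℝ, 0 < u0 ∧ ∀ i < r, u0 ≤ u i := by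
  induction r with
  | zero => exact ⟨1, one_pos, fun i hi => absurd hi (Nat.not_lt_zero _)⟩
  | succ r ih =>
    obtain ⟨u0, h0, h1⟩ := ih (fun i hi => h i (by omega))
    refine ⟨min u0 (u r), lt_min h0 (h r (by omega)), fun i hi => ?_⟩
    rcases Nat.lt_succ_iff_lt_or_eq.1 hi with h2 | h2
    · exact (min_le_left _ _).trans (h1 i h2)
    · rw [h2]
      exact min_le_right _ _

/-- the joint law -/
theorem fac_lawG (R : ℕ) (hR : 0 < R) : ∃ κ : ℝ, 0 < κ ∧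
    ∀ (q : ℕ) (a b : ℤ) (α β : ℝ) (u v u' v' : ℕ → ℝ) (r s : ℕ) (k l : ℕ → ℕ), 0 < q → 0 < α → α ≤ β →
      (∀ i < r, 0 < u i ∧ u i ≤ v i) → (∀ i < s, 0 < u' i ∧ u' i ≤ v' i) → ∃ c c' : ℝ,
      Tendsto (fun x : ℝ => (Set.ncard {n : ℕ | 1 ≤ n ∧ (n : ℝ) ≤ x ∧ ∀ i < r, wc x (u i) (v i) n = k i} : ℝ) / x)
        atTop (nhds c) ∧
      Tendsto (fun x : ℝ => (Set.ncard {n : ℕ | 1 ≤ n ∧ (n : ℝ) ≤ x ∧ ∀ i < s, wc x (u' i) (v' i) n = l i} : ℝ) / x)
        atTop (nhds c') ∧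
      Tendsto (fun x : ℝ => ((FS α β x (PJG q R a b u v u' v' r s k l x)).ncard : ℝ) / x) atTop
        (nhds (κ * Real.log (β / α) * c * c' / q ^ 2)) := by
  classical
  obtain ⟨κ, hκ, -, h⟩ := edge_lawG R hR
  refine ⟨κ / 4, by positivity, ?_⟩
  intro q a b α β u v u' v' r s k l hq hα hαβ hu hu'
  have hβ : 0 < β := hα.trans_le hαβ
  obtain ⟨u1, hu1, hu1'⟩ := exists_u0 u r (fun i hi => (hu i hi).1)
  obtain ⟨u2, hu2, hu2'⟩ := exists_u0 u' s (fun i hi => (hu' i hi).1)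
  set u0 : ℝ := min u1 u2 with hu0def
  have hu0 : 0 < u0 := lt_min hu1 hu2
  have hur : ∀ i < r, u0 ≤ u i ∧ u i ≤ v i := fun i hi => ⟨(min_le_left _ _).trans (hu1' i hi), (hu i hi).2⟩
  have hus : ∀ i < s, u0 ≤ u' i ∧ u' i ≤ v' i := fun i hi => ⟨(min_le_right _ _).trans (hu2' i hi), (hu' i hi).2⟩
  obtain ⟨K, hK, hk, hl⟩ : ∃ K : ℕ, 3 < K * u0 ∧ (∀ i < r, k i < K) ∧ (∀ i < s, l i < K) := by
    have key : ∀ (w : ℝ), 0 < w → ∀ K : ℕ, ⌊3 / w⌋₊ < K → 3 < K * w := by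
      intro w hw K hK
      have h1 : 3 / w < ⌊3 / w⌋₊ + 1 := Nat.lt_floor_add_one _
      have h2 : ((⌊3 / w⌋₊ + 1 : ℕ) : ℝ) ≤ K := by exact_mod_cast hK
      push_cast at h2
      have h3 : 3 / w < K := lt_of_lt_of_le h1 h2
      rwa [div_lt_iff₀ hw] at h3
    refine ⟨⌊3 / u0⌋₊ + ∑ i ∈ range r, k i + ∑ i ∈ range s, l i + 1, ?_, ?_, ?_⟩
    · exact key u0 hu0 _ (by omega)
    · intro i hi
      have := single_le_sum (f := fun i => k i) (fun _ _ => Nat.zero_le _) (mem_range.2 hi)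
      omega
    · intro i hi
      have := single_le_sum (f := fun i => l i) (fun _ _ => Nat.zero_le _) (mem_range.2 hi)
      omega
  obtain ⟨c, hc, hc1⟩ := int_lawG K u0 hu0 u v r hur hK k hk
  obtain ⟨c', hc', hc1'⟩ := int_lawG K u0 hu0 u' v' s hus hK l hl
  refine ⟨c, c', hc1, hc1', ?_⟩
  obtain ⟨a', -, ha⟩ := exists_nat_cl q hq a
  obtain ⟨b', -, hb⟩ := exists_nat_cl q hq b
  have h1 := (h q K u0 u v u' v' r s k l c c' hq hu0 hur hus hK hk hl hc hc' a' b' (Real.log α) (Real.log β)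
    (Real.log_le_log hα hαβ)).div_const 4
  rw [log_div' hα hβ]
  have h2 : κ * (Real.log β - Real.log α) * c * c' / q ^ 2 / 4 =
      κ / 4 * (Real.log β - Real.log α) * c * c' / q ^ 2 := by ring
  rw [← h2]
  refine h1.congr (fun X => ?_)
  have h3 := card_conv α β hα hβ X (PJG q R a b u v u' v' r s k l X)
  have h4 : ((EN 1 X).filter (fun e => (Real.log α ≤ tE e ∧ tE e ≤ Real.log β) ∧ ((nm e.1 * nm e.2).Coprime R ∧
        ArithmeticFunction.cardFactors (nm e.1) ≡ a' [MOD q] ∧ ArithmeticFunction.cardFactors (nm e.2) ≡ b' [MOD q] ∧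
        (∀ i < r, wc X (u i) (v i) (nm e.1) = k i) ∧
        (∀ i < s, wc X (u' i) (v' i) (nm e.2) = l i)))).card =
      4 * (FS α β X (PJG q R a b u v u' v' r s k l X)).ncard := by
    rw [← h3]
    congr 1
    ext e
    simp only [mem_filter, ha, hb, PJG]
  rw [h4]
  push_cast
  ring

end Pool.Agent.LPr

end

/-! ### from `Lib_MP_f1a94e_lp.FProf` -/

section

/-!
# Many `m` with a prescribed profile of large prime factors
-/

set_option autoImplicit false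

namespace Pool.Agent.LPr

open Finset Pool.Agent.GaussMR Pool.Agent.OmAll Pool.Agent.OmEq MeasureTheory Filter

/-- the predicate on the factorisations -/
def PBG (q R : ℕ) (a b : ℤ) (k l : ℕ) (t : Fin k → ℝ) (t' : Fin l → ℝ) (ε : ℝ) (p : ℕ × ℕ) : Prop :=
  (p.1 * p.2).Coprime (2 * R) ∧ (ArithmeticFunction.cardFactors p.1 : ℤ) ≡ a [ZMOD q] ∧
    (ArithmeticFunction.cardFactors p.2 : ℤ) ≡ b [ZMOD q] ∧
    ∀ m : ℕ, p.1 * p.2 = m ^ 2 + 1 → BigG k t ε m p.1 ∧ BigG l t' ε m p.2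

/-- left ends of the windows -/
noncomputable def guL (k : ℕ) (t : Fin k → ℝ) (δ ε : ℝ) (i : ℕ) : ℝ := if h : i < k then t ⟨i, h⟩ - δ else ε / 2

/-- right ends of the windows -/
noncomputable def guR (k : ℕ) (t : Fin k → ℝ) (i : ℕ) : ℝ := if h : i < k then t ⟨i, h⟩ else 2

/-- the numbers of prime factors -/
def guK (k : ℕ) (i : ℕ) : ℕ := if i < k then 1 else k

theorem gu_iff (k : ℕ) (t : Fin k → ℝ) (δ ε x : ℝ) (n : ℕ) :
    (∀ i < k + 1, wc x (guL k t δ ε i) (guR k t i) n = guK k i) ↔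
      ((∀ i, wc x (t i - δ) (t i) n = 1) ∧ wc x (ε / 2) 2 n = k) := by
  constructor
  · intro h
    refine ⟨fun i => ?_, ?_⟩
    · have h1 := h i (by omega)
      unfold guL guR guK at h1
      rw [dif_pos i.2, dif_pos i.2, if_pos i.2] at h1
      exact h1
    · have h1 := h k (by omega)
      unfold guL guR guK at h1
      rw [dif_neg (lt_irrefl k), dif_neg (lt_irrefl k), if_neg (lt_irrefl k)] at h1
      exact h1
  · rintro ⟨h1, h2⟩ i hi
    unfold guL guR guK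
    by_cases h : i < k
    · rw [dif_pos h, dif_pos h, if_pos h]
      exact h1 ⟨i, h⟩
    · have h3 : i = k := by omega
      subst h3
      rw [dif_neg (lt_irrefl i), dif_neg (lt_irrefl i), if_neg (lt_irrefl i)]
      exact h2

theorem gu_win (k : ℕ) (t : Fin k → ℝ) (δ ε : ℝ) (hδ : 0 ≤ δ) (hε : 0 < ε) (hε2 : ε ≤ 1) (h : ∀ i, δ < t i) :
    ∀ i < k + 1, 0 < guL k t δ ε i ∧ guL k t δ ε i ≤ guR k t i := by
  intro i hi
  unfold guL guR
  by_cases h1 : i < k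
  · rw [dif_pos h1, dif_pos h1]
    have := h ⟨i, h1⟩
    constructor <;> linarith
  · rw [dif_neg h1, dif_neg h1]
    constructor <;> linarith

theorem fs_finG (α β x : ℝ) (P : ℕ × ℕ → Prop) : (FS α β x P).Finite := by
  classical
  refine (Set.Finite.subset ((Set.finite_Iic (⌊x⌋₊ ^ 2 + 1)).prod (Set.finite_Iic (⌊x⌋₊ ^ 2 + 1))) ?_)
  rintro ⟨d, e⟩ ⟨⟨m, hm1, hmx, hde⟩, -, -⟩
  simp only at hde
  have hm : m ≤ ⌊x⌋₊ := Nat.le_floor hmx
  have h1 : m ^ 2 + 1 ≤ ⌊x⌋₊ ^ 2 + 1 := by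
    have := Nat.pow_le_pow_left hm 2
    omega
  have h2 : d ∣ m ^ 2 + 1 := Dvd.intro _ hde
  have h3 : e ∣ m ^ 2 + 1 := Dvd.intro_left _ hde
  have h4 := Nat.le_of_dvd (by positivity) h2
  have h5 := Nat.le_of_dvd (by positivity) h3
  exact ⟨h4.trans h1, h5.trans h1⟩

/-- sizes of balanced factors -/
theorem bal_size (α β : ℝ) (hα : 0 < α) (hβ : 0 < β) (m d e : ℕ) (hm1 : 1 ≤ m) (hde : d * e = m ^ 2 + 1)
    (h1 : α * d ≤ e) (h2 : (e : ℝ) ≤ β * d) :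
    0 < d ∧ 0 < e ∧ (d : ℝ) ≤ Real.sqrt (2 / α) * m ∧ (e : ℝ) ≤ Real.sqrt (2 * β) * m := by
  have hd0 : 0 < d := by
    rcases Nat.eq_zero_or_pos d with h | h
    · rw [h] at hde; simp at hde
    · exact h
  have he0 : 0 < e := by
    rcases Nat.eq_zero_or_pos e with h | h
    · rw [h] at hde; simp at hde
    · exact h
  have hd' : (0 : ℝ) < d := by exact_mod_cast hd0
  have he' : (0 : ℝ) < e := by exact_mod_cast he0
  have hm1' : (1 : ℝ) ≤ m := by exact_mod_cast hm1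
  have hder : (d : ℝ) * e = (m : ℝ) ^ 2 + 1 := by exact_mod_cast hde
  refine ⟨hd0, he0, ?_, ?_⟩
  · have h8 : (d : ℝ) ^ 2 ≤ (2 / α) * (m : ℝ) ^ 2 := by
      have h9 : α * (d : ℝ) ^ 2 ≤ 2 * (m : ℝ) ^ 2 := by
        calc α * (d : ℝ) ^ 2 = d * (α * d) := by ring
          _ ≤ d * e := by gcongr
          _ ≤ 2 * (m : ℝ) ^ 2 := by rw [hder]; nlinarith
      rw [div_mul_eq_mul_div, le_div_iff₀ hα]
      linarith
    rw [← Real.sqrt_sq (by positivity : (0 : ℝ) ≤ m), ← Real.sqrt_mul (by positivity)]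
    exact Real.le_sqrt_of_sq_le h8
  · have h8 : (e : ℝ) ^ 2 ≤ (2 * β) * (m : ℝ) ^ 2 := by
      calc (e : ℝ) ^ 2 = e * e := by ring
        _ ≤ (β * d) * e := by gcongr
        _ = β * (d * e) := by ring
        _ ≤ β * (2 * (m : ℝ) ^ 2) := by
          rw [hder]
          gcongr
          nlinarith
        _ = (2 * β) * (m : ℝ) ^ 2 := by ring
    rw [← Real.sqrt_sq (by positivity : (0 : ℝ) ≤ m), ← Real.sqrt_mul (by positivity)]
    exact Real.le_sqrt_of_sq_le h8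

/-- few factorisations with small `m` -/
theorem nt_small (R : ℕ) (hR : 0 < R) (α β : ℝ) (hα : 0 < α) (hαβ : α ≤ β) (δ : ℝ) (hδ : 0 < δ) (hδ1 : δ < 1)
    (c : ℝ) (hc : 0 < c) : ∀ᶠ x : ℝ in atTop, (NT R α β (x ^ (1 - δ)) : ℝ) ≤ c * x := by
  obtain ⟨κ2, hκ2, hnt⟩ := nt_lim R hR
  have hnt1 := hnt α β hα hαβ
  have hlog : 0 ≤ Real.log (β / α) := Real.log_nonneg (by rwa [le_div_iff₀ hα, one_mul])
  have h1 : Tendsto (fun x : ℝ => x ^ (1 - δ)) atTop atTop := tendsto_rpow_atTop (by linarith)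
  have h2 := (hnt1.comp h1).eventually (gt_mem_nhds (lt_add_one (κ2 * Real.log (β / α))))
  have h3 : Tendsto (fun x : ℝ => x ^ (-δ)) atTop (nhds 0) := tendsto_rpow_neg_atTop hδ
  have h4 : ∀ᶠ x : ℝ in atTop, x ^ (-δ) < c / (κ2 * Real.log (β / α) + 1) :=
    h3.eventually (gt_mem_nhds (by positivity))
  filter_upwards [h2, h4, eventually_gt_atTop 0] with x g2 g4 hx
  rw [Function.comp_apply, div_lt_iff₀ (Real.rpow_pos_of_pos hx _)] at g2
  rw [lt_div_iff₀ (by positivity)] at g4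
  have h5 : x ^ (1 - δ) = x * x ^ (-δ) := by
    rw [sub_eq_add_neg, Real.rpow_add hx, Real.rpow_one]
  have h6 : (κ2 * Real.log (β / α) + 1) * x ^ (1 - δ) = x * (x ^ (-δ) * (κ2 * Real.log (β / α) + 1)) := by
    rw [h5]
    ring
  have h7 : x * (x ^ (-δ) * (κ2 * Real.log (β / α) + 1)) ≤ x * c := mul_le_mul_of_nonneg_left g4.le hx.le
  linarith

/-- lower bound for the number of factorisations, distinct exponents -/
theorem fs_lowG (R : ℕ) (hR : 0 < R) (q : ℕ) (hq : 0 < q) (a b : ℤ) (α β : ℝ) (hα : 0 < α) (hαβ : α < β)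
    (k l : ℕ) (t : Fin k → ℝ) (t' : Fin l → ℝ) (hinj : Function.Injective t) (hinj' : Function.Injective t')
    (ε : ℝ) (hε : 0 < ε) (hε1 : ε ≤ 1) (ht : ∀ i, ε < t i) (ht' : ∀ i, ε < t' i) (hs : ∑ i, t i < 1) (hs' : ∑ i, t' i < 1) :
    ∃ c x0 : ℝ, 0 < c ∧ ∀ x : ℝ, x0 ≤ x → c * x ≤ ((FS α β x (PBG q R a b k l t t' ε)).ncard : ℝ) := by
  classical
  have hβ : 0 < β := hα.trans hαβ
  have hle1 : ∀ i, t i ≤ 1 := fun i =>
    (single_le_sum (f := t) (fun j _ => (hε.trans (ht j)).le) (mem_univ i)).trans hs.le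
  have hle1' : ∀ i, t' i ≤ 1 := fun i =>
    (single_le_sum (f := t') (fun j _ => (hε.trans (ht' j)).le) (mem_univ i)).trans hs'.le
  obtain ⟨δ1, hδ1, hδ1a, H1⟩ := big_prof k t hinj ε hε ht hle1 (Real.sqrt (2 / α)) (Real.sqrt_pos.2 (by positivity))
  obtain ⟨δ2, hδ2, hδ2a, H2⟩ := big_prof l t' hinj' ε hε ht' hle1' (Real.sqrt (2 * β)) (Real.sqrt_pos.2 (by positivity))
  obtain ⟨δ3, hδ3, H3⟩ := pos_prof k t hinj (ε / 2) (by linarith) (fun i => by linarith [ht i]) hs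
  obtain ⟨δ4, hδ4, H4⟩ := pos_prof l t' hinj' (ε / 2) (by linarith) (fun i => by linarith [ht' i]) hs'
  set δ : ℝ := min (min δ1 δ2) (min (min δ3 δ4) (ε / 2)) with hδdef
  have hδ : 0 < δ := lt_min (lt_min hδ1 hδ2) (lt_min (lt_min hδ3 hδ4) (by linarith))
  have hd1 : δ ≤ δ1 := (min_le_left _ _).trans (min_le_left _ _)
  have hd2 : δ ≤ δ2 := (min_le_left _ _).trans (min_le_right _ _)
  have hd3 : δ ≤ δ3 := (min_le_right _ _).trans ((min_le_left _ _).trans (min_le_left _ _))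
  have hd4 : δ ≤ δ4 := (min_le_right _ _).trans ((min_le_left _ _).trans (min_le_right _ _))
  have hd5 : δ ≤ ε / 2 := (min_le_right _ _).trans (min_le_right _ _)
  obtain ⟨x1, hx1, H1⟩ := H1 δ hδ hd1
  obtain ⟨x2, hx2, H2⟩ := H2 δ hδ hd2
  obtain ⟨κ, hκ, hlaw⟩ := fac_lawG (2 * R) (by omega)
  obtain ⟨c, c', hc, hc', hlim⟩ := hlaw q a b α β (guL k t δ ε) (guR k t) (guL l t' δ ε) (guR l t') (k + 1) (l + 1)
    (guK k) (guK l) hq hα hαβ.le (gu_win k t δ ε hδ.le hε hε1 (fun i => by linarith [ht i]))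
    (gu_win l t' δ ε hδ.le hε hε1 (fun i => by linarith [ht' i]))
  simp only [gu_iff] at hc hc'
  have hcpos := H3 δ hδ hd3 c hc
  have hcpos' := H4 δ hδ hd4 c' hc'
  have hlog : 0 < Real.log (β / α) := Real.log_pos (by rwa [lt_div_iff₀ hα, one_mul])
  set c0 : ℝ := κ * Real.log (β / α) * c * c' / q ^ 2 with hc0
  have hc0pos : 0 < c0 := by
    have : (0 : ℝ) < q := by exact_mod_cast hq
    positivity
  have hev1 := nt_small (2 * R) (by omega) α β hα hαβ.le δ hδ (by linarith) (c0 / 4) (by positivity)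
  have hev2 := hlim.eventually (lt_mem_nhds (half_lt_self hc0pos))
  obtain ⟨x3, hx3⟩ := eventually_atTop.1 (hev1.and hev2)
  refine ⟨c0 / 4, max (max x1 x2) x3, by positivity, ?_⟩
  intro x hx
  have hxx1 : x1 ≤ x := (le_max_left _ _).trans ((le_max_left _ _).trans hx)
  have hxx2 : x2 ≤ x := (le_max_right _ _).trans ((le_max_left _ _).trans hx)
  obtain ⟨g1, g2⟩ := hx3 x ((le_max_right _ _).trans hx)
  have hx0 : 0 < x := by linarith
  rw [lt_div_iff₀ hx0] at g2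
  have hsub : FS α β x (PJG q (2 * R) a b (guL k t δ ε) (guR k t) (guL l t' δ ε) (guR l t') (k + 1) (l + 1)
      (guK k) (guK l) x) ⊆
      FS α β x (PBG q R a b k l t t' ε) ∪ FS α β (x ^ (1 - δ)) (fun r => (r.1 * r.2).Coprime (2 * R)) := by
    rintro ⟨d, e⟩ ⟨⟨m, hm1, hmx, hde⟩, ⟨h1, h2⟩, h3, h4, h5, h6, h7⟩
    simp only at hde h1 h2 h3 h4 h5 h6 h7
    rw [gu_iff] at h6 h7
    by_cases hm : x ^ (1 - δ) < (m : ℝ)
    · left
      refine ⟨⟨m, hm1, hmx, hde⟩, ⟨h1, h2⟩, h3, h4, h5, ?_⟩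
      intro m' hm'
      simp only at hm'
      have hmm : m' = m := by
        have h8 : m' ^ 2 = m ^ 2 := by omega
        exact (Nat.pow_left_injective (n := 2) (by norm_num)) h8
      subst hmm
      obtain ⟨hd0, he0, hdm, hem⟩ := bal_size α β hα hβ m' d e hm1 hde h1 h2
      exact ⟨H1 x hxx1 m' hm hmx d hd0.ne' hdm h6.1 h6.2, H2 x hxx2 m' hm hmx e he0.ne' hem h7.1 h7.2⟩
    · right
      push Not at hm
      exact ⟨⟨m, hm1, hm, hde⟩, ⟨h1, h2⟩, h3⟩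
  have hcard := Set.ncard_le_ncard hsub ((fs_finG _ _ _ _).union (fs_finG _ _ _ _))
  have hcard2 := hcard.trans (Set.ncard_union_le _ _)
  have hcard3 : ((FS α β x (PJG q (2 * R) a b (guL k t δ ε) (guR k t) (guL l t' δ ε) (guR l t') (k + 1) (l + 1)
      (guK k) (guK l) x)).ncard : ℝ) ≤
      ((FS α β x (PBG q R a b k l t t' ε)).ncard : ℝ) + (NT (2 * R) α β (x ^ (1 - δ)) : ℝ) := by
    unfold NT
    exact_mod_cast hcard2
  linarith

theorem exists_low (k : ℕ) (t : Fin k → ℝ) (ht : ∀ i, 0 < t i) : ∃ μ : ℝ, 0 < μ ∧ ∀ i, μ ≤ t i := by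
  obtain ⟨u0, h0, h1⟩ := exists_u0 (fun i => if h : i < k then t ⟨i, h⟩ else 1) k (fun i hi => by
    simp only [dif_pos hi]
    exact ht _)
  refine ⟨u0, h0, fun i => ?_⟩
  have h2 := h1 i i.2
  simp only [dif_pos i.2] at h2
  exact h2

/-- lower bound for the number of factorisations -/
theorem fs_lowP (R : ℕ) (hR : 0 < R) (q : ℕ) (hq : 0 < q) (a b : ℤ) (α β : ℝ) (hα : 0 < α) (hαβ : α < β)
    (k l : ℕ) (t : Fin k → ℝ) (t' : Fin l → ℝ) (ht : ∀ i, 0 < t i) (ht' : ∀ i, 0 < t' i)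
    (hs : ∑ i, t i ≤ 1) (hs' : ∑ i, t' i ≤ 1) (ε : ℝ) (hε : 0 < ε) :
    ∃ c x0 : ℝ, 0 < c ∧ ∀ x : ℝ, x0 ≤ x → c * x ≤ ((FS α β x (PBG q R a b k l t t' ε)).ncard : ℝ) := by
  classical
  obtain ⟨μ, hμ, hμt⟩ := exists_low k t ht
  obtain ⟨μ', hμ', hμt'⟩ := exists_low l t' ht'
  set ε' : ℝ := min (min (ε / 2) 1) (min (μ / 2) (μ' / 2)) with hε'
  have h1 : 0 < ε' := lt_min (lt_min (by linarith) one_pos) (lt_min (by linarith) (by linarith))
  have h2 : ε' ≤ ε / 2 := (min_le_left _ _).trans (min_le_left _ _)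
  have h3 : ε' ≤ 1 := (min_le_left _ _).trans (min_le_right _ _)
  have h4 : ε' ≤ μ / 2 := (min_le_right _ _).trans (min_le_left _ _)
  have h5 : ε' ≤ μ' / 2 := (min_le_right _ _).trans (min_le_right _ _)
  have key : ∀ (j : ℕ) (s : Fin j → ℝ) (hs0 : ∀ i, 0 < s i) (hsum : ∑ i, s i ≤ 1) (ν : ℝ) (hν : 0 < ν) (hνs : ∀ i, ν ≤ s i)
      (hεν : ε' ≤ ν / 2), ∃ τ : Fin j → ℝ, Function.Injective τ ∧ (∀ i, ε' < τ i) ∧ ∑ i, τ i < 1 ∧
        ∀ (y : ℝ) (n : ℕ), 1 ≤ y → BigG j τ ε' y n → BigG j s ε y n := by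
    intro j s hs0 hsum ν hν hνs hεν
    have hj : (0 : ℝ) < (j : ℝ) + 1 := by positivity
    obtain ⟨τ, hinj, hτ⟩ := pert j s hs0 (min (ε / (2 * (j + 1))) (ν / 4)) (lt_min (by positivity) (by linarith))
    refine ⟨τ, hinj, fun i => ?_, ?_, fun y n hy hB => ?_⟩
    · have h6 := (hτ i).2.2
      have h7 := hνs i
      have h8 : min (ε / (2 * (j + 1))) (ν / 4) ≤ ν / 4 := min_le_right _ _
      linarith
    · rcases Nat.eq_zero_or_pos j with h0 | h0
      · subst h0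
        simp
      · refine lt_of_lt_of_le (sum_lt_sum_of_nonempty ⟨⟨0, h0⟩, mem_univ _⟩ fun i _ => (hτ i).2.1) hsum
    · refine BigG.mono j s τ ε ε' (min (ε / (2 * (j + 1))) (ν / 4)) (fun i => (hτ i).2.1.le) (fun i => (hτ i).2.2.le)
        (le_min (by positivity) (by linarith)) ?_ y hy n hB
      have h9 : min (ε / (2 * (j + 1))) (ν / 4) ≤ ε / (2 * (j + 1)) := min_le_left _ _
      have h10 : ((j : ℝ) + 1) * min (ε / (2 * (j + 1))) (ν / 4) ≤ (j + 1) * (ε / (2 * (j + 1))) :=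
        mul_le_mul_of_nonneg_left h9 hj.le
      have h11 : ((j : ℝ) + 1) * (ε / (2 * (j + 1))) = ε / 2 := by
        field_simp
      linarith
  obtain ⟨τ, hτi, hτε, hτs, hτB⟩ := key k t ht hs μ hμ hμt h4
  obtain ⟨τ', hτi', hτε', hτs', hτB'⟩ := key l t' ht' hs' μ' hμ' hμt' h5
  obtain ⟨c, x0, hc, h⟩ := fs_lowG R hR q hq a b α β hα hαβ k l τ τ' hτi hτi' ε' h1 h3 hτε hτε' hτs hτs'
  refine ⟨c, x0, hc, fun x hx => (h x hx).trans ?_⟩
  norm_cast
  refine Set.ncard_le_ncard ?_ (fs_finG _ _ _ _)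
  rintro ⟨d, e⟩ ⟨⟨m, hm1, hmx, hde⟩, hr, g1, g2, g3, g4⟩
  refine ⟨⟨m, hm1, hmx, hde⟩, hr, g1, g2, g3, ?_⟩
  intro m' hm'
  obtain ⟨g5, g6⟩ := g4 m' hm'
  have hm1' : (1 : ℝ) ≤ m' := by
    have h8 : m' ^ 2 = m ^ 2 := by
      simp only at hde hm'
      omega
    have h9 : m' = m := (Nat.pow_left_injective (n := 2) (by norm_num)) h8
    rw [h9]
    exact_mod_cast hm1
  exact ⟨hτB m' _ hm1' g5, hτB' m' _ hm1' g6⟩

/-- many `m` -/
theorem fac_prof (R : ℕ) (hR : 0 < R) (q : ℕ) (hq : 0 < q) (a b : ℤ) (α β : ℝ) (hα : 0 < α) (hαβ : α < β)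
    (k l : ℕ) (t : Fin k → ℝ) (t' : Fin l → ℝ) (ht : ∀ i, 0 < t i) (ht' : ∀ i, 0 < t' i)
    (hs : ∑ i, t i ≤ 1) (hs' : ∑ i, t' i ≤ 1) (ε : ℝ) (hε : 0 < ε) (A : ℝ) (hA : Real.log 2 < A) :
    ∃ x1 : ℝ, ∀ x : ℝ, x1 ≤ x → x / Real.log x ^ A ≤ (Set.ncard {m : ℕ | (m : ℝ) ≤ x ∧ Even m ∧
      ((m ^ 2 + 1).Coprime R ∧ ∃ d e : ℕ, d * e = m ^ 2 + 1 ∧ (α * d ≤ e ∧ (e : ℝ) ≤ β * d) ∧
        (ArithmeticFunction.cardFactors d : ℤ) ≡ a [ZMOD q] ∧
        (ArithmeticFunction.cardFactors e : ℤ) ≡ b [ZMOD q] ∧ BigG k t ε m d ∧ BigG l t' ε m e)} : ℝ) := by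
  obtain ⟨c, x0, hc, h⟩ := fs_lowP R hR q hq a b α β hα hαβ k l t t' ht ht' hs hs' ε hε
  obtain ⟨x1, hx1⟩ := many_m α β hα (hα.trans hαβ) (PBG q R a b k l t t' ε) c x0 hc h (by
      intro m d e hde hP
      have h1 : (m ^ 2 + 1).Coprime 2 := by
        rw [← hde]
        exact hP.1.coprime_mul_right_right
      by_contra hm
      rw [Nat.not_even_iff_odd] at hm
      have h2 : Even (m ^ 2 + 1) := (hm.pow).add_one
      rw [Nat.coprime_two_right] at h1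
      exact (Nat.not_even_iff_odd.2 h1) h2) A hA
  refine ⟨x1, fun x hx => (hx1 x hx).trans ?_⟩
  norm_cast
  refine Set.ncard_le_ncard ?_ ((Set.finite_Iic ⌊x⌋₊).subset fun m hm => Nat.le_floor hm.1)
  rintro m ⟨h1, h2, d, e, hde, h3, h4, h5, h6, h7⟩
  have h8 := h7 m hde
  refine ⟨h1, h2, ?_, d, e, hde, h3, h5, h6, h8.1, h8.2⟩
  rw [← hde]
  exact Nat.Coprime.coprime_mul_left_right (k := 2) (by simpa [mul_comm] using h4)

end Pool.Agent.LPr

end
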